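import Pool.Agent.Helper62.TW.Tree

/-!
# The points, rules and contexts of the case trees (generated)

Variables: `v 2 = w`, `v 3 = A`, `v 5 = B`, `v 7 = t`, `v 11 = g`, `v 13 = (w - A)^+ ^ 3`,
`v 17 = (w - B)^+ ^ 3`, `v 19`, `v 23` the two losses, `v 29`, `v 31` the two own terms.
-/

set_option autoImplicit false
set_option maxRecDepth 100000
set_option linter.all false

namespace Pool.Agent.Helper62.TW

open Pool.Agent.Helper83.Cert

/-- the point -/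
noncomputable def yw (w A B t g X Y L M H K : ℝ) (k : ℕ) : ℝ :=
  if k = 2 then w else if k = 3 then A else if k = 5 then B else if k = 7 then t
  else if k = 11 then g else if k = 13 then X else if k = 17 then Y else if k = 19 then L
  else if k = 23 then M else if k = 29 then H else if k = 31 then K else 0

theorem yw_nonneg {w A B t g X Y L M H K : ℝ} (h1 : 0 ≤ w) (h2 : 0 ≤ A) (h3 : 0 ≤ B) (h4 : 0 ≤ t)
    (h5 : 0 ≤ g) (h6 : 0 ≤ X) (h7 : 0 ≤ Y) (h8 : 0 ≤ L) (h9 : 0 ≤ M) (h10 : 0 ≤ H) (h11 : 0 ≤ K)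
    (k : ℕ) : 0 ≤ yw w A B t g X Y L M H K k := by
  unfold yw
  split_ifs <;> first | assumption | exact le_refl _

section

variable (w A B t g X Y L M H K : ℝ)

theorem exw2 : exVal (yw w A B t g X Y L M H K) (Ex.v 2) = w := by
  rw [exVal, evM_prime _ (by norm_num)]; rfl

theorem exw3 : exVal (yw w A B t g X Y L M H K) (Ex.v 3) = A := by
  rw [exVal, evM_prime _ (by norm_num)]; norm_num [yw]

theorem exw5 : exVal (yw w A B t g X Y L M H K) (Ex.v 5) = B := by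
  rw [exVal, evM_prime _ (by norm_num)]; norm_num [yw]

theorem exw7 : exVal (yw w A B t g X Y L M H K) (Ex.v 7) = t := by
  rw [exVal, evM_prime _ (by norm_num)]; norm_num [yw]

theorem exw11 : exVal (yw w A B t g X Y L M H K) (Ex.v 11) = g := by
  rw [exVal, evM_prime _ (by norm_num)]; norm_num [yw]

theorem exw13 : exVal (yw w A B t g X Y L M H K) (Ex.v 13) = X := by
  rw [exVal, evM_prime _ (by norm_num)]; norm_num [yw]

theorem exw17 : exVal (yw w A B t g X Y L M H K) (Ex.v 17) = Y := by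
  rw [exVal, evM_prime _ (by norm_num)]; norm_num [yw]

theorem exw19 : exVal (yw w A B t g X Y L M H K) (Ex.v 19) = L := by
  rw [exVal, evM_prime _ (by norm_num)]; norm_num [yw]

theorem exw23 : exVal (yw w A B t g X Y L M H K) (Ex.v 23) = M := by
  rw [exVal, evM_prime _ (by norm_num)]; norm_num [yw]

theorem exw29 : exVal (yw w A B t g X Y L M H K) (Ex.v 29) = H := by
  rw [exVal, evM_prime _ (by norm_num)]; norm_num [yw]

theorem exw31 : exVal (yw w A B t g X Y L M H K) (Ex.v 31) = K := by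
  rw [exVal, evM_prime _ (by norm_num)]; norm_num [yw]

end

/-- rules (generated) -/
def RF : List ERule := [
  ([(.add (.v 2) (.mul (.c (-1)) (.v 3)))], (.add (.add (.mul (.mul (.v 2) (.v 2)) (.v 2)) (.mul
      (.c (-3)) (.mul (.mul (.v 2) (.v 2)) (.v 3)))) (.add (.mul (.c (-1)) (.v 13)) (.add (.mul (.c
      (3)) (.mul (.mul (.v 2) (.v 3)) (.v 3))) (.mul (.c (-1)) (.mul (.mul (.v 3) (.v 3)) (.v
      3))))))),
  ([(.add (.mul (.c (-1)) (.v 2)) (.v 3))], (.mul (.c (-1)) (.v 13))),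
  ([(.add (.v 2) (.mul (.c (-1)) (.v 5)))], (.add (.add (.mul (.mul (.v 2) (.v 2)) (.v 2)) (.mul
      (.c (-1)) (.v 17))) (.add (.mul (.c (-3)) (.mul (.mul (.v 2) (.v 2)) (.v 5))) (.add (.mul (.c
      (3)) (.mul (.mul (.v 2) (.v 5)) (.v 5))) (.mul (.c (-1)) (.mul (.mul (.v 5) (.v 5)) (.v
      5))))))),
  ([(.add (.mul (.c (-1)) (.v 2)) (.v 5))], (.mul (.c (-1)) (.v 17))),
  ([], (.add (.mul (.mul (.v 2) (.v 2)) (.v 2)) (.add (.mul (.c (-1)) (.v 13)) (.mul (.c (-1)) (.v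
      17))))),
  ([], (.add (.add (.mul (.mul (.v 2) (.v 2)) (.v 2)) (.mul (.c (-2)) (.mul (.mul (.v 2) (.v 2))
      (.v 3)))) (.add (.mul (.c (-1)) (.v 13)) (.mul (.mul (.v 2) (.v 3)) (.v 3))))),
  ([], (.add (.add (.mul (.mul (.v 2) (.v 2)) (.v 2)) (.mul (.c (-1)) (.v 17))) (.add (.mul (.c
      (-2)) (.mul (.mul (.v 2) (.v 2)) (.v 5))) (.mul (.mul (.v 2) (.v 5)) (.v 5)))))]

/-- the same as polynomials -/
def RFp : List Rule := [
  ([[(2, 1), (3, -1)]], [(8, 1), (12, -3), (13, -1), (18, 3), (27, -1)]),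
  ([[(2, -1), (3, 1)]], [(13, -1)]),
  ([[(2, 1), (5, -1)]], [(8, 1), (17, -1), (20, -3), (50, 3), (125, -1)]),
  ([[(2, -1), (5, 1)]], [(17, -1)]),
  ([], [(8, 1), (13, -1), (17, -1)]),
  ([], [(8, 1), (12, -2), (13, -1), (18, 1)]),
  ([], [(8, 1), (17, -1), (20, -2), (50, 1)])]

theorem RF_eq : RF.map rulePol = RFp := by decide +kernel

/-- rules (generated) -/
def RO : List ERule := [
  ([(.add (.v 2) (.mul (.c (-1)) (.v 3)))], (.add (.add (.mul (.mul (.v 2) (.v 2)) (.v 2)) (.mul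
      (.c (-3)) (.mul (.mul (.v 2) (.v 2)) (.v 3)))) (.add (.mul (.c (-1)) (.v 13)) (.add (.mul (.c
      (3)) (.mul (.mul (.v 2) (.v 3)) (.v 3))) (.mul (.c (-1)) (.mul (.mul (.v 3) (.v 3)) (.v
      3))))))),
  ([(.add (.mul (.c (-1)) (.v 2)) (.v 3))], (.mul (.c (-1)) (.v 13))),
  ([(.add (.v 2) (.mul (.c (-1)) (.v 5)))], (.add (.add (.mul (.mul (.v 2) (.v 2)) (.v 2)) (.mul
      (.c (-1)) (.v 17))) (.add (.mul (.c (-3)) (.mul (.mul (.v 2) (.v 2)) (.v 5))) (.add (.mul (.c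
      (3)) (.mul (.mul (.v 2) (.v 5)) (.v 5))) (.mul (.c (-1)) (.mul (.mul (.v 5) (.v 5)) (.v
      5))))))),
  ([(.add (.mul (.c (-1)) (.v 2)) (.v 5))], (.mul (.c (-1)) (.v 17))),
  ([], (.add (.mul (.mul (.v 2) (.v 2)) (.v 2)) (.add (.mul (.c (-1)) (.v 13)) (.mul (.c (-1)) (.v
      17))))),
  ([], (.add (.add (.mul (.mul (.v 2) (.v 2)) (.v 2)) (.mul (.c (-2)) (.mul (.mul (.v 2) (.v 2))
      (.v 3)))) (.add (.mul (.c (-1)) (.v 13)) (.mul (.mul (.v 2) (.v 3)) (.v 3))))),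
  ([], (.add (.add (.mul (.mul (.v 2) (.v 2)) (.v 2)) (.mul (.c (-1)) (.v 17))) (.add (.mul (.c
      (-2)) (.mul (.mul (.v 2) (.v 2)) (.v 5))) (.mul (.mul (.v 2) (.v 5)) (.v 5))))),
  ([(.add (.c (-7)) (.mul (.c (50)) (.v 3))), (.add (.c (69)) (.mul (.c (-100)) (.v 3)))], (.add
      (.add (.c (-49)) (.mul (.c (700)) (.v 3))) (.add (.mul (.c (-2500)) (.mul (.v 3) (.v 3)))
      (.mul (.c (5000)) (.v 19))))),
  ([(.add (.c (-69)) (.mul (.c (100)) (.v 3))), (.add (.c (3)) (.mul (.c (-2)) (.v 3)))], (.add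
      (.add (.c (168)) (.mul (.c (-75)) (.v 3))) (.add (.mul (.c (-3400)) (.mul (.v 3) (.v 3)))
      (.mul (.c (10000)) (.v 19))))),
  ([(.add (.c (-3)) (.mul (.c (2)) (.v 3)))], (.add (.c (681)) (.add (.mul (.c (-960)) (.v 3))
      (.mul (.c (1000)) (.v 19))))),
  ([(.add (.c (-1)) (.v 3)), (.add (.add (.c (-2)) (.mul (.c (-1)) (.v 2))) (.add (.mul (.c (2))
      (.v 3)) (.v 5))), (.add (.add (.c (-1)) (.mul (.c (-2)) (.v 2))) (.add (.mul (.c (2)) (.v 3))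
      (.mul (.c (2)) (.v 5))))], (.add (.add (.add (.add (.c (-4)) (.mul (.c (-6)) (.v 2))) (.add
      (.mul (.c (9)) (.v 3)) (.add (.mul (.c (-3)) (.mul (.v 2) (.v 2))) (.mul (.c (6)) (.v 5)))))
      (.add (.add (.mul (.c (9)) (.mul (.v 2) (.v 3))) (.mul (.c (-1)) (.mul (.mul (.v 2) (.v 2))
      (.v 2)))) (.add (.mul (.c (-6)) (.mul (.v 3) (.v 3))) (.add (.mul (.c (6)) (.mul (.v 2) (.v
      5))) (.mul (.c (3)) (.mul (.mul (.v 2) (.v 2)) (.v 3))))))) (.add (.add (.add (.mul (.c (-9))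
      (.mul (.v 3) (.v 5))) (.mul (.c (-3)) (.mul (.mul (.v 2) (.v 3)) (.v 3)))) (.add (.mul (.c
      (3)) (.mul (.mul (.v 2) (.v 2)) (.v 5))) (.add (.mul (.c (-3)) (.mul (.v 5) (.v 5))) (.mul
      (.mul (.v 3) (.v 3)) (.v 3))))) (.add (.add (.mul (.c (-3)) (.v 29)) (.add (.mul (.c (-6))
      (.mul (.mul (.v 2) (.v 3)) (.v 5))) (.mul (.c (3)) (.mul (.mul (.v 3) (.v 3)) (.v 5)))))
      (.add (.mul (.c (-3)) (.mul (.mul (.v 2) (.v 5)) (.v 5))) (.add (.mul (.c (3)) (.mul (.mul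
      (.v 3) (.v 5)) (.v 5))) (.mul (.mul (.v 5) (.v 5)) (.v 5)))))))),
  ([(.add (.c (-1)) (.v 3)), (.add (.add (.c (-2)) (.mul (.c (-1)) (.v 2))) (.add (.mul (.c (2))
      (.v 3)) (.v 5))), (.add (.add (.c (1)) (.mul (.c (2)) (.v 2))) (.add (.mul (.c (-2)) (.v 3))
      (.mul (.c (-2)) (.v 5))))], (.add (.add (.add (.add (.c (-7)) (.mul (.c (-10)) (.v 2))) (.add
      (.mul (.c (16)) (.v 3)) (.add (.mul (.c (-6)) (.mul (.v 2) (.v 2))) (.mul (.c (10)) (.v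
      5))))) (.add (.add (.mul (.c (18)) (.mul (.v 2) (.v 3))) (.mul (.c (-2)) (.mul (.mul (.v 2)
      (.v 2)) (.v 2)))) (.add (.mul (.c (-12)) (.mul (.v 3) (.v 3))) (.add (.mul (.c (12)) (.mul
      (.v 2) (.v 5))) (.mul (.c (6)) (.mul (.mul (.v 2) (.v 2)) (.v 3))))))) (.add (.add (.add
      (.mul (.c (-18)) (.mul (.v 3) (.v 5))) (.mul (.c (-6)) (.mul (.mul (.v 2) (.v 3)) (.v 3))))
      (.add (.mul (.c (6)) (.mul (.mul (.v 2) (.v 2)) (.v 5))) (.add (.mul (.c (-6)) (.mul (.v 5)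
      (.v 5))) (.mul (.c (2)) (.mul (.mul (.v 3) (.v 3)) (.v 3)))))) (.add (.add (.mul (.c (-6))
      (.v 29)) (.add (.mul (.c (-12)) (.mul (.mul (.v 2) (.v 3)) (.v 5))) (.mul (.c (6)) (.mul
      (.mul (.v 3) (.v 3)) (.v 5))))) (.add (.mul (.c (-6)) (.mul (.mul (.v 2) (.v 5)) (.v 5)))
      (.add (.mul (.c (6)) (.mul (.mul (.v 3) (.v 5)) (.v 5))) (.mul (.c (2)) (.mul (.mul (.v 5)
      (.v 5)) (.v 5))))))))),
  ([(.add (.c (-1)) (.v 3)), (.add (.add (.c (2)) (.v 2)) (.add (.mul (.c (-2)) (.v 3)) (.mul (.c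
      (-1)) (.v 5)))), (.add (.add (.c (-1)) (.mul (.c (-2)) (.v 2))) (.add (.mul (.c (2)) (.v 3))
      (.mul (.c (2)) (.v 5))))], (.add (.add (.add (.add (.c (4)) (.mul (.c (6)) (.v 2))) (.add
      (.mul (.c (-15)) (.v 3)) (.mul (.c (3)) (.mul (.v 2) (.v 2))))) (.add (.add (.mul (.c (-6))
      (.v 5)) (.mul (.c (-15)) (.mul (.v 2) (.v 3)))) (.add (.mul (.c (18)) (.mul (.v 3) (.v 3)))
      (.mul (.c (-6)) (.mul (.v 2) (.v 5)))))) (.add (.add (.add (.mul (.c (-3)) (.mul (.mul (.v 2)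
      (.v 2)) (.v 3))) (.mul (.c (15)) (.mul (.v 3) (.v 5)))) (.add (.mul (.c (9)) (.mul (.mul (.v
      2) (.v 3)) (.v 3))) (.mul (.c (3)) (.mul (.v 5) (.v 5))))) (.add (.add (.mul (.c (-7)) (.mul
      (.mul (.v 3) (.v 3)) (.v 3))) (.mul (.c (-3)) (.v 29))) (.add (.mul (.c (6)) (.mul (.mul (.v
      2) (.v 3)) (.v 5))) (.add (.mul (.c (-9)) (.mul (.mul (.v 3) (.v 3)) (.v 5))) (.mul (.c (-3))
      (.mul (.mul (.v 3) (.v 5)) (.v 5))))))))),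
  ([(.add (.c (-1)) (.v 3)), (.add (.add (.c (2)) (.v 2)) (.add (.mul (.c (-2)) (.v 3)) (.mul (.c
      (-1)) (.v 5)))), (.add (.add (.c (1)) (.mul (.c (2)) (.v 2))) (.add (.mul (.c (-2)) (.v 3))
      (.mul (.c (-2)) (.v 5))))], (.add (.add (.add (.add (.c (9)) (.mul (.c (14)) (.v 2))) (.add
      (.mul (.c (-32)) (.v 3)) (.mul (.c (6)) (.mul (.v 2) (.v 2))))) (.add (.add (.mul (.c (-14))
      (.v 5)) (.mul (.c (-30)) (.mul (.v 2) (.v 3)))) (.add (.mul (.c (36)) (.mul (.v 3) (.v 3)))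
      (.mul (.c (-12)) (.mul (.v 2) (.v 5)))))) (.add (.add (.add (.mul (.c (-6)) (.mul (.mul (.v
      2) (.v 2)) (.v 3))) (.mul (.c (30)) (.mul (.v 3) (.v 5)))) (.add (.mul (.c (18)) (.mul (.mul
      (.v 2) (.v 3)) (.v 3))) (.mul (.c (6)) (.mul (.v 5) (.v 5))))) (.add (.add (.mul (.c (-14))
      (.mul (.mul (.v 3) (.v 3)) (.v 3))) (.mul (.c (-6)) (.v 29))) (.add (.mul (.c (12)) (.mul
      (.mul (.v 2) (.v 3)) (.v 5))) (.add (.mul (.c (-18)) (.mul (.mul (.v 3) (.v 3)) (.v 5)))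
      (.mul (.c (-6)) (.mul (.mul (.v 3) (.v 5)) (.v 5))))))))),
  ([(.add (.c (-1)) (.v 3)), (.add (.add (.c (-1)) (.mul (.c (-2)) (.v 2))) (.add (.mul (.c (2))
      (.v 3)) (.mul (.c (2)) (.v 5))))], (.add (.add (.add (.add (.mul (.c (2)) (.v 2)) (.mul (.c
      (-3)) (.v 3))) (.add (.mul (.c (2)) (.mul (.v 2) (.v 2))) (.mul (.c (-2)) (.v 5)))) (.add
      (.add (.mul (.c (-7)) (.mul (.v 2) (.v 3))) (.mul (.c (6)) (.mul (.v 3) (.v 3)))) (.add (.mul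
      (.c (-4)) (.mul (.v 2) (.v 5))) (.mul (.c (-2)) (.mul (.mul (.v 2) (.v 2)) (.v 3)))))) (.add
      (.add (.add (.mul (.c (7)) (.mul (.v 3) (.v 5))) (.mul (.c (5)) (.mul (.mul (.v 2) (.v 3))
      (.v 3)))) (.add (.mul (.c (2)) (.mul (.v 5) (.v 5))) (.mul (.c (-3)) (.mul (.mul (.v 3) (.v
      3)) (.v 3))))) (.add (.add (.mul (.c (-3)) (.v 29)) (.mul (.c (4)) (.mul (.mul (.v 2) (.v 3))
      (.v 5)))) (.add (.mul (.c (-5)) (.mul (.mul (.v 3) (.v 3)) (.v 5))) (.mul (.c (-2)) (.mul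
      (.mul (.v 3) (.v 5)) (.v 5)))))))),
  ([(.add (.c (-1)) (.v 3)), (.add (.add (.c (-9)) (.mul (.c (-20)) (.v 2))) (.add (.mul (.c (20))
      (.v 3)) (.mul (.c (20)) (.v 5))))], (.add (.add (.add (.add (.c (1)) (.mul (.c (23)) (.v 2)))
      (.add (.mul (.c (-34)) (.v 3)) (.mul (.c (22)) (.mul (.v 2) (.v 2))))) (.add (.add (.mul (.c
      (-23)) (.v 5)) (.mul (.c (-77)) (.mul (.v 2) (.v 3)))) (.add (.mul (.c (66)) (.mul (.v 3) (.v
      3))) (.mul (.c (-44)) (.mul (.v 2) (.v 5)))))) (.add (.add (.add (.mul (.c (-22)) (.mul (.mul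
      (.v 2) (.v 2)) (.v 3))) (.mul (.c (77)) (.mul (.v 3) (.v 5)))) (.add (.mul (.c (55)) (.mul
      (.mul (.v 2) (.v 3)) (.v 3))) (.mul (.c (22)) (.mul (.v 5) (.v 5))))) (.add (.add (.mul (.c
      (-33)) (.mul (.mul (.v 3) (.v 3)) (.v 3))) (.mul (.c (-33)) (.v 29))) (.add (.mul (.c (44))
      (.mul (.mul (.v 2) (.v 3)) (.v 5))) (.add (.mul (.c (-55)) (.mul (.mul (.v 3) (.v 3)) (.v
      5))) (.mul (.c (-22)) (.mul (.mul (.v 3) (.v 5)) (.v 5)))))))))]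

/-- the same as polynomials -/
def ROp : List Rule := [
  ([[(2, 1), (3, -1)]], [(8, 1), (12, -3), (13, -1), (18, 3), (27, -1)]),
  ([[(2, -1), (3, 1)]], [(13, -1)]),
  ([[(2, 1), (5, -1)]], [(8, 1), (17, -1), (20, -3), (50, 3), (125, -1)]),
  ([[(2, -1), (5, 1)]], [(17, -1)]),
  ([], [(8, 1), (13, -1), (17, -1)]),
  ([], [(8, 1), (12, -2), (13, -1), (18, 1)]),
  ([], [(8, 1), (17, -1), (20, -2), (50, 1)]),
  ([[(1, -7), (3, 50)], [(1, 69), (3, -100)]], [(1, -49), (3, 700), (9, -2500), (19, 5000)]),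
  ([[(1, -69), (3, 100)], [(1, 3), (3, -2)]], [(1, 168), (3, -75), (9, -3400), (19, 10000)]),
  ([[(1, -3), (3, 2)]], [(1, 681), (3, -960), (19, 1000)]),
  ([[(1, -1), (3, 1)], [(1, -2), (2, -1), (3, 2), (5, 1)], [(1, -1), (2, -2), (3, 2), (5, 2)]],
      [(1, -4), (2, -6), (3, 9), (4, -3), (5, 6), (6, 9), (8, -1), (9, -6), (10, 6), (12, 3), (15,
      -9), (18, -3), (20, 3), (25, -3), (27, 1), (29, -3), (30, -6), (45, 3), (50, -3), (75, 3),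
      (125, 1)]),
  ([[(1, -1), (3, 1)], [(1, -2), (2, -1), (3, 2), (5, 1)], [(1, 1), (2, 2), (3, -2), (5, -2)]],
      [(1, -7), (2, -10), (3, 16), (4, -6), (5, 10), (6, 18), (8, -2), (9, -12), (10, 12), (12, 6),
      (15, -18), (18, -6), (20, 6), (25, -6), (27, 2), (29, -6), (30, -12), (45, 6), (50, -6), (75,
      6), (125, 2)]),
  ([[(1, -1), (3, 1)], [(1, 2), (2, 1), (3, -2), (5, -1)], [(1, -1), (2, -2), (3, 2), (5, 2)]],
      [(1, 4), (2, 6), (3, -15), (4, 3), (5, -6), (6, -15), (9, 18), (10, -6), (12, -3), (15, 15),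
      (18, 9), (25, 3), (27, -7), (29, -3), (30, 6), (45, -9), (75, -3)]),
  ([[(1, -1), (3, 1)], [(1, 2), (2, 1), (3, -2), (5, -1)], [(1, 1), (2, 2), (3, -2), (5, -2)]],
      [(1, 9), (2, 14), (3, -32), (4, 6), (5, -14), (6, -30), (9, 36), (10, -12), (12, -6), (15,
      30), (18, 18), (25, 6), (27, -14), (29, -6), (30, 12), (45, -18), (75, -6)]),
  ([[(1, -1), (3, 1)], [(1, -1), (2, -2), (3, 2), (5, 2)]], [(2, 2), (3, -3), (4, 2), (5, -2), (6,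
      -7), (9, 6), (10, -4), (12, -2), (15, 7), (18, 5), (25, 2), (27, -3), (29, -3), (30, 4), (45,
      -5), (75, -2)]),
  ([[(1, -1), (3, 1)], [(1, -9), (2, -20), (3, 20), (5, 20)]], [(1, 1), (2, 23), (3, -34), (4, 22),
      (5, -23), (6, -77), (9, 66), (10, -44), (12, -22), (15, 77), (18, 55), (25, 22), (27, -33),
      (29, -33), (30, 44), (45, -55), (75, -22)])]

theorem RO_eq : RO.map rulePol = ROp := by decide +kernel

/-- rules (generated) -/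
def Ra : List ERule := [
  ([(.add (.v 2) (.mul (.c (-1)) (.v 3)))], (.add (.add (.mul (.mul (.v 2) (.v 2)) (.v 2)) (.mul
      (.c (-3)) (.mul (.mul (.v 2) (.v 2)) (.v 3)))) (.add (.mul (.c (-1)) (.v 13)) (.add (.mul (.c
      (3)) (.mul (.mul (.v 2) (.v 3)) (.v 3))) (.mul (.c (-1)) (.mul (.mul (.v 3) (.v 3)) (.v
      3))))))),
  ([(.add (.mul (.c (-1)) (.v 2)) (.v 3))], (.mul (.c (-1)) (.v 13))),
  ([(.add (.v 2) (.mul (.c (-1)) (.v 5)))], (.add (.add (.mul (.mul (.v 2) (.v 2)) (.v 2)) (.mul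
      (.c (-1)) (.v 17))) (.add (.mul (.c (-3)) (.mul (.mul (.v 2) (.v 2)) (.v 5))) (.add (.mul (.c
      (3)) (.mul (.mul (.v 2) (.v 5)) (.v 5))) (.mul (.c (-1)) (.mul (.mul (.v 5) (.v 5)) (.v
      5))))))),
  ([(.add (.mul (.c (-1)) (.v 2)) (.v 5))], (.mul (.c (-1)) (.v 17))),
  ([], (.add (.mul (.mul (.v 2) (.v 2)) (.v 2)) (.add (.mul (.c (-1)) (.v 13)) (.mul (.c (-1)) (.v
      17))))),
  ([], (.add (.add (.mul (.mul (.v 2) (.v 2)) (.v 2)) (.mul (.c (-2)) (.mul (.mul (.v 2) (.v 2))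
      (.v 3)))) (.add (.mul (.c (-1)) (.v 13)) (.mul (.mul (.v 2) (.v 3)) (.v 3))))),
  ([], (.add (.add (.mul (.mul (.v 2) (.v 2)) (.v 2)) (.mul (.c (-1)) (.v 17))) (.add (.mul (.c
      (-2)) (.mul (.mul (.v 2) (.v 2)) (.v 5))) (.mul (.mul (.v 2) (.v 5)) (.v 5))))),
  ([(.add (.c (-7)) (.mul (.c (50)) (.v 3))), (.add (.c (3)) (.mul (.c (-5)) (.v 3)))], (.add (.add
      (.c (-49)) (.mul (.c (700)) (.v 3))) (.add (.mul (.c (-2500)) (.mul (.v 3) (.v 3))) (.mul (.c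
      (5000)) (.v 19))))),
  ([(.add (.c (-3)) (.mul (.c (5)) (.v 3))), (.add (.c (3)) (.mul (.c (-2)) (.v 3)))], (.add (.add
      (.c (181)) (.mul (.c (125)) (.v 3))) (.add (.mul (.c (-3500)) (.mul (.v 3) (.v 3))) (.mul (.c
      (10000)) (.v 19))))),
  ([(.add (.c (-3)) (.mul (.c (2)) (.v 3)))], (.add (.c (69)) (.add (.mul (.c (-96)) (.v 3)) (.mul
      (.c (100)) (.v 19))))),
  ([(.add (.c (-17)) (.mul (.c (25)) (.v 5))), (.add (.c (1)) (.mul (.c (-1)) (.v 5)))], (.add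
      (.add (.c (-289)) (.mul (.c (850)) (.v 5))) (.add (.mul (.c (1250)) (.v 23)) (.mul (.c
      (-625)) (.mul (.v 5) (.v 5)))))),
  ([(.add (.c (-1)) (.v 5)), (.add (.c (5)) (.mul (.c (-4)) (.v 5)))], (.add (.add (.c (-353))
      (.mul (.c (1250)) (.v 5))) (.add (.mul (.c (2500)) (.v 23)) (.mul (.c (-1025)) (.mul (.v 5)
      (.v 5)))))),
  ([(.add (.c (-5)) (.mul (.c (4)) (.v 5))), (.add (.c (9)) (.mul (.c (-5)) (.v 5)))], (.add (.c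
      (111)) (.add (.mul (.c (-120)) (.v 5)) (.mul (.c (250)) (.v 23))))),
  ([(.add (.c (-9)) (.mul (.c (5)) (.v 5)))], (.add (.c (-21)) (.mul (.c (50)) (.v 23)))),
  ([(.add (.c (-1)) (.v 3)), (.add (.add (.c (-2)) (.mul (.c (-1)) (.v 2))) (.add (.mul (.c (2))
      (.v 3)) (.v 5))), (.add (.add (.c (-1)) (.mul (.c (-2)) (.v 2))) (.add (.mul (.c (2)) (.v 3))
      (.mul (.c (2)) (.v 5))))], (.add (.add (.add (.add (.c (-4)) (.mul (.c (-6)) (.v 2))) (.add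
      (.mul (.c (9)) (.v 3)) (.add (.mul (.c (-3)) (.mul (.v 2) (.v 2))) (.mul (.c (6)) (.v 5)))))
      (.add (.add (.mul (.c (9)) (.mul (.v 2) (.v 3))) (.mul (.c (-1)) (.mul (.mul (.v 2) (.v 2))
      (.v 2)))) (.add (.mul (.c (-6)) (.mul (.v 3) (.v 3))) (.add (.mul (.c (6)) (.mul (.v 2) (.v
      5))) (.mul (.c (3)) (.mul (.mul (.v 2) (.v 2)) (.v 3))))))) (.add (.add (.add (.mul (.c (-9))
      (.mul (.v 3) (.v 5))) (.mul (.c (-3)) (.mul (.mul (.v 2) (.v 3)) (.v 3)))) (.add (.mul (.c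
      (3)) (.mul (.mul (.v 2) (.v 2)) (.v 5))) (.add (.mul (.c (-3)) (.mul (.v 5) (.v 5))) (.mul
      (.mul (.v 3) (.v 3)) (.v 3))))) (.add (.add (.mul (.c (-3)) (.v 29)) (.add (.mul (.c (-6))
      (.mul (.mul (.v 2) (.v 3)) (.v 5))) (.mul (.c (3)) (.mul (.mul (.v 3) (.v 3)) (.v 5)))))
      (.add (.mul (.c (-3)) (.mul (.mul (.v 2) (.v 5)) (.v 5))) (.add (.mul (.c (3)) (.mul (.mul
      (.v 3) (.v 5)) (.v 5))) (.mul (.mul (.v 5) (.v 5)) (.v 5)))))))),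
  ([(.add (.c (-1)) (.v 3)), (.add (.add (.c (-2)) (.mul (.c (-1)) (.v 2))) (.add (.mul (.c (2))
      (.v 3)) (.v 5))), (.add (.add (.c (1)) (.mul (.c (2)) (.v 2))) (.add (.mul (.c (-2)) (.v 3))
      (.mul (.c (-2)) (.v 5))))], (.add (.add (.add (.add (.c (-7)) (.mul (.c (-10)) (.v 2))) (.add
      (.mul (.c (16)) (.v 3)) (.add (.mul (.c (-6)) (.mul (.v 2) (.v 2))) (.mul (.c (10)) (.v
      5))))) (.add (.add (.mul (.c (18)) (.mul (.v 2) (.v 3))) (.mul (.c (-2)) (.mul (.mul (.v 2)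
      (.v 2)) (.v 2)))) (.add (.mul (.c (-12)) (.mul (.v 3) (.v 3))) (.add (.mul (.c (12)) (.mul
      (.v 2) (.v 5))) (.mul (.c (6)) (.mul (.mul (.v 2) (.v 2)) (.v 3))))))) (.add (.add (.add
      (.mul (.c (-18)) (.mul (.v 3) (.v 5))) (.mul (.c (-6)) (.mul (.mul (.v 2) (.v 3)) (.v 3))))
      (.add (.mul (.c (6)) (.mul (.mul (.v 2) (.v 2)) (.v 5))) (.add (.mul (.c (-6)) (.mul (.v 5)
      (.v 5))) (.mul (.c (2)) (.mul (.mul (.v 3) (.v 3)) (.v 3)))))) (.add (.add (.mul (.c (-6))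
      (.v 29)) (.add (.mul (.c (-12)) (.mul (.mul (.v 2) (.v 3)) (.v 5))) (.mul (.c (6)) (.mul
      (.mul (.v 3) (.v 3)) (.v 5))))) (.add (.mul (.c (-6)) (.mul (.mul (.v 2) (.v 5)) (.v 5)))
      (.add (.mul (.c (6)) (.mul (.mul (.v 3) (.v 5)) (.v 5))) (.mul (.c (2)) (.mul (.mul (.v 5)
      (.v 5)) (.v 5))))))))),
  ([(.add (.c (-1)) (.v 3)), (.add (.add (.c (2)) (.v 2)) (.add (.mul (.c (-2)) (.v 3)) (.mul (.c
      (-1)) (.v 5)))), (.add (.add (.c (-1)) (.mul (.c (-2)) (.v 2))) (.add (.mul (.c (2)) (.v 3))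
      (.mul (.c (2)) (.v 5))))], (.add (.add (.add (.add (.c (4)) (.mul (.c (6)) (.v 2))) (.add
      (.mul (.c (-15)) (.v 3)) (.mul (.c (3)) (.mul (.v 2) (.v 2))))) (.add (.add (.mul (.c (-6))
      (.v 5)) (.mul (.c (-15)) (.mul (.v 2) (.v 3)))) (.add (.mul (.c (18)) (.mul (.v 3) (.v 3)))
      (.mul (.c (-6)) (.mul (.v 2) (.v 5)))))) (.add (.add (.add (.mul (.c (-3)) (.mul (.mul (.v 2)
      (.v 2)) (.v 3))) (.mul (.c (15)) (.mul (.v 3) (.v 5)))) (.add (.mul (.c (9)) (.mul (.mul (.v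
      2) (.v 3)) (.v 3))) (.mul (.c (3)) (.mul (.v 5) (.v 5))))) (.add (.add (.mul (.c (-7)) (.mul
      (.mul (.v 3) (.v 3)) (.v 3))) (.mul (.c (-3)) (.v 29))) (.add (.mul (.c (6)) (.mul (.mul (.v
      2) (.v 3)) (.v 5))) (.add (.mul (.c (-9)) (.mul (.mul (.v 3) (.v 3)) (.v 5))) (.mul (.c (-3))
      (.mul (.mul (.v 3) (.v 5)) (.v 5))))))))),
  ([(.add (.c (-1)) (.v 3)), (.add (.add (.c (2)) (.v 2)) (.add (.mul (.c (-2)) (.v 3)) (.mul (.c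
      (-1)) (.v 5)))), (.add (.add (.c (1)) (.mul (.c (2)) (.v 2))) (.add (.mul (.c (-2)) (.v 3))
      (.mul (.c (-2)) (.v 5))))], (.add (.add (.add (.add (.c (9)) (.mul (.c (14)) (.v 2))) (.add
      (.mul (.c (-32)) (.v 3)) (.mul (.c (6)) (.mul (.v 2) (.v 2))))) (.add (.add (.mul (.c (-14))
      (.v 5)) (.mul (.c (-30)) (.mul (.v 2) (.v 3)))) (.add (.mul (.c (36)) (.mul (.v 3) (.v 3)))
      (.mul (.c (-12)) (.mul (.v 2) (.v 5)))))) (.add (.add (.add (.mul (.c (-6)) (.mul (.mul (.v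
      2) (.v 2)) (.v 3))) (.mul (.c (30)) (.mul (.v 3) (.v 5)))) (.add (.mul (.c (18)) (.mul (.mul
      (.v 2) (.v 3)) (.v 3))) (.mul (.c (6)) (.mul (.v 5) (.v 5))))) (.add (.add (.mul (.c (-14))
      (.mul (.mul (.v 3) (.v 3)) (.v 3))) (.mul (.c (-6)) (.v 29))) (.add (.mul (.c (12)) (.mul
      (.mul (.v 2) (.v 3)) (.v 5))) (.add (.mul (.c (-18)) (.mul (.mul (.v 3) (.v 3)) (.v 5)))
      (.mul (.c (-6)) (.mul (.mul (.v 3) (.v 5)) (.v 5))))))))),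
  ([(.add (.c (-1)) (.v 5)), (.add (.add (.c (-2)) (.mul (.c (-1)) (.v 2))) (.add (.v 3) (.mul (.c
      (2)) (.v 5)))), (.add (.add (.c (-1)) (.mul (.c (-2)) (.v 2))) (.add (.mul (.c (2)) (.v 3))
      (.mul (.c (2)) (.v 5))))], (.add (.add (.add (.add (.c (-4)) (.mul (.c (-6)) (.v 2))) (.add
      (.mul (.c (6)) (.v 3)) (.add (.mul (.c (-3)) (.mul (.v 2) (.v 2))) (.mul (.c (9)) (.v 5)))))
      (.add (.add (.mul (.c (6)) (.mul (.v 2) (.v 3))) (.mul (.c (-1)) (.mul (.mul (.v 2) (.v 2))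
      (.v 2)))) (.add (.mul (.c (-3)) (.mul (.v 3) (.v 3))) (.add (.mul (.c (9)) (.mul (.v 2) (.v
      5))) (.mul (.c (3)) (.mul (.mul (.v 2) (.v 2)) (.v 3))))))) (.add (.add (.add (.mul (.c (-9))
      (.mul (.v 3) (.v 5))) (.mul (.c (-3)) (.mul (.mul (.v 2) (.v 3)) (.v 3)))) (.add (.mul (.c
      (3)) (.mul (.mul (.v 2) (.v 2)) (.v 5))) (.add (.mul (.c (-6)) (.mul (.v 5) (.v 5))) (.mul
      (.mul (.v 3) (.v 3)) (.v 3))))) (.add (.add (.mul (.c (-6)) (.mul (.mul (.v 2) (.v 3)) (.v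
      5))) (.add (.mul (.c (-3)) (.v 31)) (.mul (.c (3)) (.mul (.mul (.v 3) (.v 3)) (.v 5)))))
      (.add (.mul (.c (-3)) (.mul (.mul (.v 2) (.v 5)) (.v 5))) (.add (.mul (.c (3)) (.mul (.mul
      (.v 3) (.v 5)) (.v 5))) (.mul (.mul (.v 5) (.v 5)) (.v 5)))))))),
  ([(.add (.c (-1)) (.v 5)), (.add (.add (.c (-2)) (.mul (.c (-1)) (.v 2))) (.add (.v 3) (.mul (.c
      (2)) (.v 5)))), (.add (.add (.c (1)) (.mul (.c (2)) (.v 2))) (.add (.mul (.c (-2)) (.v 3))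
      (.mul (.c (-2)) (.v 5))))], (.add (.add (.add (.add (.c (-7)) (.mul (.c (-10)) (.v 2))) (.add
      (.mul (.c (10)) (.v 3)) (.add (.mul (.c (-6)) (.mul (.v 2) (.v 2))) (.mul (.c (16)) (.v
      5))))) (.add (.add (.mul (.c (12)) (.mul (.v 2) (.v 3))) (.mul (.c (-2)) (.mul (.mul (.v 2)
      (.v 2)) (.v 2)))) (.add (.mul (.c (-6)) (.mul (.v 3) (.v 3))) (.add (.mul (.c (18)) (.mul (.v
      2) (.v 5))) (.mul (.c (6)) (.mul (.mul (.v 2) (.v 2)) (.v 3))))))) (.add (.add (.add (.mul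
      (.c (-18)) (.mul (.v 3) (.v 5))) (.mul (.c (-6)) (.mul (.mul (.v 2) (.v 3)) (.v 3)))) (.add
      (.mul (.c (6)) (.mul (.mul (.v 2) (.v 2)) (.v 5))) (.add (.mul (.c (-12)) (.mul (.v 5) (.v
      5))) (.mul (.c (2)) (.mul (.mul (.v 3) (.v 3)) (.v 3)))))) (.add (.add (.mul (.c (-12)) (.mul
      (.mul (.v 2) (.v 3)) (.v 5))) (.add (.mul (.c (-6)) (.v 31)) (.mul (.c (6)) (.mul (.mul (.v
      3) (.v 3)) (.v 5))))) (.add (.mul (.c (-6)) (.mul (.mul (.v 2) (.v 5)) (.v 5))) (.add (.mul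
      (.c (6)) (.mul (.mul (.v 3) (.v 5)) (.v 5))) (.mul (.c (2)) (.mul (.mul (.v 5) (.v 5)) (.v
      5))))))))),
  ([(.add (.c (-1)) (.v 5)), (.add (.add (.c (2)) (.v 2)) (.add (.mul (.c (-1)) (.v 3)) (.mul (.c
      (-2)) (.v 5)))), (.add (.add (.c (-1)) (.mul (.c (-2)) (.v 2))) (.add (.mul (.c (2)) (.v 3))
      (.mul (.c (2)) (.v 5))))], (.add (.add (.add (.add (.c (4)) (.mul (.c (6)) (.v 2))) (.add
      (.mul (.c (-6)) (.v 3)) (.mul (.c (3)) (.mul (.v 2) (.v 2))))) (.add (.add (.mul (.c (-15))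
      (.v 5)) (.mul (.c (-6)) (.mul (.v 2) (.v 3)))) (.add (.mul (.c (3)) (.mul (.v 3) (.v 3)))
      (.mul (.c (-15)) (.mul (.v 2) (.v 5)))))) (.add (.add (.add (.mul (.c (15)) (.mul (.v 3) (.v
      5))) (.mul (.c (-3)) (.mul (.mul (.v 2) (.v 2)) (.v 5)))) (.add (.mul (.c (18)) (.mul (.v 5)
      (.v 5))) (.mul (.c (6)) (.mul (.mul (.v 2) (.v 3)) (.v 5))))) (.add (.add (.mul (.c (-3)) (.v
      31)) (.mul (.c (-3)) (.mul (.mul (.v 3) (.v 3)) (.v 5)))) (.add (.mul (.c (9)) (.mul (.mul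
      (.v 2) (.v 5)) (.v 5))) (.add (.mul (.c (-9)) (.mul (.mul (.v 3) (.v 5)) (.v 5))) (.mul (.c
      (-7)) (.mul (.mul (.v 5) (.v 5)) (.v 5))))))))),
  ([(.add (.c (-1)) (.v 5)), (.add (.add (.c (2)) (.v 2)) (.add (.mul (.c (-1)) (.v 3)) (.mul (.c
      (-2)) (.v 5)))), (.add (.add (.c (1)) (.mul (.c (2)) (.v 2))) (.add (.mul (.c (-2)) (.v 3))
      (.mul (.c (-2)) (.v 5))))], (.add (.add (.add (.add (.c (9)) (.mul (.c (14)) (.v 2))) (.add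
      (.mul (.c (-14)) (.v 3)) (.mul (.c (6)) (.mul (.v 2) (.v 2))))) (.add (.add (.mul (.c (-32))
      (.v 5)) (.mul (.c (-12)) (.mul (.v 2) (.v 3)))) (.add (.mul (.c (6)) (.mul (.v 3) (.v 3)))
      (.mul (.c (-30)) (.mul (.v 2) (.v 5)))))) (.add (.add (.add (.mul (.c (30)) (.mul (.v 3) (.v
      5))) (.mul (.c (-6)) (.mul (.mul (.v 2) (.v 2)) (.v 5)))) (.add (.mul (.c (36)) (.mul (.v 5)
      (.v 5))) (.mul (.c (12)) (.mul (.mul (.v 2) (.v 3)) (.v 5))))) (.add (.add (.mul (.c (-6))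
      (.v 31)) (.mul (.c (-6)) (.mul (.mul (.v 3) (.v 3)) (.v 5)))) (.add (.mul (.c (18)) (.mul
      (.mul (.v 2) (.v 5)) (.v 5))) (.add (.mul (.c (-18)) (.mul (.mul (.v 3) (.v 5)) (.v 5)))
      (.mul (.c (-14)) (.mul (.mul (.v 5) (.v 5)) (.v 5))))))))),
  ([(.add (.c (-1)) (.v 3)), (.add (.add (.c (-1)) (.mul (.c (-2)) (.v 2))) (.add (.mul (.c (2))
      (.v 3)) (.mul (.c (2)) (.v 5))))], (.add (.add (.add (.add (.mul (.c (2)) (.v 2)) (.mul (.c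
      (-3)) (.v 3))) (.add (.mul (.c (2)) (.mul (.v 2) (.v 2))) (.mul (.c (-2)) (.v 5)))) (.add
      (.add (.mul (.c (-7)) (.mul (.v 2) (.v 3))) (.mul (.c (6)) (.mul (.v 3) (.v 3)))) (.add (.mul
      (.c (-4)) (.mul (.v 2) (.v 5))) (.mul (.c (-2)) (.mul (.mul (.v 2) (.v 2)) (.v 3)))))) (.add
      (.add (.add (.mul (.c (7)) (.mul (.v 3) (.v 5))) (.mul (.c (5)) (.mul (.mul (.v 2) (.v 3))
      (.v 3)))) (.add (.mul (.c (2)) (.mul (.v 5) (.v 5))) (.mul (.c (-3)) (.mul (.mul (.v 3) (.v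
      3)) (.v 3))))) (.add (.add (.mul (.c (-3)) (.v 29)) (.mul (.c (4)) (.mul (.mul (.v 2) (.v 3))
      (.v 5)))) (.add (.mul (.c (-5)) (.mul (.mul (.v 3) (.v 3)) (.v 5))) (.mul (.c (-2)) (.mul
      (.mul (.v 3) (.v 5)) (.v 5)))))))),
  ([(.add (.c (-1)) (.v 3)), (.add (.add (.c (-9)) (.mul (.c (-20)) (.v 2))) (.add (.mul (.c (20))
      (.v 3)) (.mul (.c (20)) (.v 5))))], (.add (.add (.add (.add (.c (1)) (.mul (.c (23)) (.v 2)))
      (.add (.mul (.c (-34)) (.v 3)) (.mul (.c (22)) (.mul (.v 2) (.v 2))))) (.add (.add (.mul (.c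
      (-23)) (.v 5)) (.mul (.c (-77)) (.mul (.v 2) (.v 3)))) (.add (.mul (.c (66)) (.mul (.v 3) (.v
      3))) (.mul (.c (-44)) (.mul (.v 2) (.v 5)))))) (.add (.add (.add (.mul (.c (-22)) (.mul (.mul
      (.v 2) (.v 2)) (.v 3))) (.mul (.c (77)) (.mul (.v 3) (.v 5)))) (.add (.mul (.c (55)) (.mul
      (.mul (.v 2) (.v 3)) (.v 3))) (.mul (.c (22)) (.mul (.v 5) (.v 5))))) (.add (.add (.mul (.c
      (-33)) (.mul (.mul (.v 3) (.v 3)) (.v 3))) (.mul (.c (-33)) (.v 29))) (.add (.mul (.c (44))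
      (.mul (.mul (.v 2) (.v 3)) (.v 5))) (.add (.mul (.c (-55)) (.mul (.mul (.v 3) (.v 3)) (.v
      5))) (.mul (.c (-22)) (.mul (.mul (.v 3) (.v 5)) (.v 5))))))))),
  ([(.add (.c (-1)) (.v 5)), (.add (.add (.c (-1)) (.mul (.c (-2)) (.v 2))) (.add (.mul (.c (2))
      (.v 3)) (.mul (.c (2)) (.v 5))))], (.add (.add (.add (.add (.mul (.c (2)) (.v 2)) (.mul (.c
      (-2)) (.v 3))) (.add (.mul (.c (2)) (.mul (.v 2) (.v 2))) (.mul (.c (-3)) (.v 5)))) (.add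
      (.add (.mul (.c (-4)) (.mul (.v 2) (.v 3))) (.mul (.c (2)) (.mul (.v 3) (.v 3)))) (.add (.mul
      (.c (-7)) (.mul (.v 2) (.v 5))) (.mul (.c (7)) (.mul (.v 3) (.v 5)))))) (.add (.add (.add
      (.mul (.c (-2)) (.mul (.mul (.v 2) (.v 2)) (.v 5))) (.mul (.c (6)) (.mul (.v 5) (.v 5))))
      (.add (.mul (.c (4)) (.mul (.mul (.v 2) (.v 3)) (.v 5))) (.mul (.c (-3)) (.v 31)))) (.add
      (.add (.mul (.c (-2)) (.mul (.mul (.v 3) (.v 3)) (.v 5))) (.mul (.c (5)) (.mul (.mul (.v 2)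
      (.v 5)) (.v 5)))) (.add (.mul (.c (-5)) (.mul (.mul (.v 3) (.v 5)) (.v 5))) (.mul (.c (-3))
      (.mul (.mul (.v 5) (.v 5)) (.v 5)))))))),
  ([(.add (.c (-1)) (.v 5)), (.add (.add (.c (-9)) (.mul (.c (-20)) (.v 2))) (.add (.mul (.c (20))
      (.v 3)) (.mul (.c (20)) (.v 5))))], (.add (.add (.add (.add (.c (1)) (.mul (.c (23)) (.v 2)))
      (.add (.mul (.c (-23)) (.v 3)) (.mul (.c (22)) (.mul (.v 2) (.v 2))))) (.add (.add (.mul (.c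
      (-34)) (.v 5)) (.mul (.c (-44)) (.mul (.v 2) (.v 3)))) (.add (.mul (.c (22)) (.mul (.v 3) (.v
      3))) (.mul (.c (-77)) (.mul (.v 2) (.v 5)))))) (.add (.add (.add (.mul (.c (77)) (.mul (.v 3)
      (.v 5))) (.mul (.c (-22)) (.mul (.mul (.v 2) (.v 2)) (.v 5)))) (.add (.mul (.c (66)) (.mul
      (.v 5) (.v 5))) (.mul (.c (44)) (.mul (.mul (.v 2) (.v 3)) (.v 5))))) (.add (.add (.mul (.c
      (-33)) (.v 31)) (.mul (.c (-22)) (.mul (.mul (.v 3) (.v 3)) (.v 5)))) (.add (.mul (.c (55))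
      (.mul (.mul (.v 2) (.v 5)) (.v 5))) (.add (.mul (.c (-55)) (.mul (.mul (.v 3) (.v 5)) (.v
      5))) (.mul (.c (-33)) (.mul (.mul (.v 5) (.v 5)) (.v 5))))))))),
  ([(.add (.c (-1)) (.v 5)), (.add (.c (9)) (.mul (.c (-5)) (.v 5)))], (.add (.c (889)) (.add (.mul
      (.c (-960)) (.v 5)) (.mul (.c (2000)) (.v 23))))),
  ([(.add (.c (-1)) (.v 5)), (.add (.c (2)) (.mul (.c (-1)) (.v 5)))], (.add (.c (70)) (.add (.mul
      (.c (-77)) (.v 5)) (.mul (.c (200)) (.v 23)))))]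

/-- the same as polynomials -/
def Rap : List Rule := [
  ([[(2, 1), (3, -1)]], [(8, 1), (12, -3), (13, -1), (18, 3), (27, -1)]),
  ([[(2, -1), (3, 1)]], [(13, -1)]),
  ([[(2, 1), (5, -1)]], [(8, 1), (17, -1), (20, -3), (50, 3), (125, -1)]),
  ([[(2, -1), (5, 1)]], [(17, -1)]),
  ([], [(8, 1), (13, -1), (17, -1)]),
  ([], [(8, 1), (12, -2), (13, -1), (18, 1)]),
  ([], [(8, 1), (17, -1), (20, -2), (50, 1)]),
  ([[(1, -7), (3, 50)], [(1, 3), (3, -5)]], [(1, -49), (3, 700), (9, -2500), (19, 5000)]),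
  ([[(1, -3), (3, 5)], [(1, 3), (3, -2)]], [(1, 181), (3, 125), (9, -3500), (19, 10000)]),
  ([[(1, -3), (3, 2)]], [(1, 69), (3, -96), (19, 100)]),
  ([[(1, -17), (5, 25)], [(1, 1), (5, -1)]], [(1, -289), (5, 850), (23, 1250), (25, -625)]),
  ([[(1, -1), (5, 1)], [(1, 5), (5, -4)]], [(1, -353), (5, 1250), (23, 2500), (25, -1025)]),
  ([[(1, -5), (5, 4)], [(1, 9), (5, -5)]], [(1, 111), (5, -120), (23, 250)]),
  ([[(1, -9), (5, 5)]], [(1, -21), (23, 50)]),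
  ([[(1, -1), (3, 1)], [(1, -2), (2, -1), (3, 2), (5, 1)], [(1, -1), (2, -2), (3, 2), (5, 2)]],
      [(1, -4), (2, -6), (3, 9), (4, -3), (5, 6), (6, 9), (8, -1), (9, -6), (10, 6), (12, 3), (15,
      -9), (18, -3), (20, 3), (25, -3), (27, 1), (29, -3), (30, -6), (45, 3), (50, -3), (75, 3),
      (125, 1)]),
  ([[(1, -1), (3, 1)], [(1, -2), (2, -1), (3, 2), (5, 1)], [(1, 1), (2, 2), (3, -2), (5, -2)]],
      [(1, -7), (2, -10), (3, 16), (4, -6), (5, 10), (6, 18), (8, -2), (9, -12), (10, 12), (12, 6),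
      (15, -18), (18, -6), (20, 6), (25, -6), (27, 2), (29, -6), (30, -12), (45, 6), (50, -6), (75,
      6), (125, 2)]),
  ([[(1, -1), (3, 1)], [(1, 2), (2, 1), (3, -2), (5, -1)], [(1, -1), (2, -2), (3, 2), (5, 2)]],
      [(1, 4), (2, 6), (3, -15), (4, 3), (5, -6), (6, -15), (9, 18), (10, -6), (12, -3), (15, 15),
      (18, 9), (25, 3), (27, -7), (29, -3), (30, 6), (45, -9), (75, -3)]),
  ([[(1, -1), (3, 1)], [(1, 2), (2, 1), (3, -2), (5, -1)], [(1, 1), (2, 2), (3, -2), (5, -2)]],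
      [(1, 9), (2, 14), (3, -32), (4, 6), (5, -14), (6, -30), (9, 36), (10, -12), (12, -6), (15,
      30), (18, 18), (25, 6), (27, -14), (29, -6), (30, 12), (45, -18), (75, -6)]),
  ([[(1, -1), (5, 1)], [(1, -2), (2, -1), (3, 1), (5, 2)], [(1, -1), (2, -2), (3, 2), (5, 2)]],
      [(1, -4), (2, -6), (3, 6), (4, -3), (5, 9), (6, 6), (8, -1), (9, -3), (10, 9), (12, 3), (15,
      -9), (18, -3), (20, 3), (25, -6), (27, 1), (30, -6), (31, -3), (45, 3), (50, -3), (75, 3),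
      (125, 1)]),
  ([[(1, -1), (5, 1)], [(1, -2), (2, -1), (3, 1), (5, 2)], [(1, 1), (2, 2), (3, -2), (5, -2)]],
      [(1, -7), (2, -10), (3, 10), (4, -6), (5, 16), (6, 12), (8, -2), (9, -6), (10, 18), (12, 6),
      (15, -18), (18, -6), (20, 6), (25, -12), (27, 2), (30, -12), (31, -6), (45, 6), (50, -6),
      (75, 6), (125, 2)]),
  ([[(1, -1), (5, 1)], [(1, 2), (2, 1), (3, -1), (5, -2)], [(1, -1), (2, -2), (3, 2), (5, 2)]],
      [(1, 4), (2, 6), (3, -6), (4, 3), (5, -15), (6, -6), (9, 3), (10, -15), (15, 15), (20, -3),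
      (25, 18), (30, 6), (31, -3), (45, -3), (50, 9), (75, -9), (125, -7)]),
  ([[(1, -1), (5, 1)], [(1, 2), (2, 1), (3, -1), (5, -2)], [(1, 1), (2, 2), (3, -2), (5, -2)]],
      [(1, 9), (2, 14), (3, -14), (4, 6), (5, -32), (6, -12), (9, 6), (10, -30), (15, 30), (20,
      -6), (25, 36), (30, 12), (31, -6), (45, -6), (50, 18), (75, -18), (125, -14)]),
  ([[(1, -1), (3, 1)], [(1, -1), (2, -2), (3, 2), (5, 2)]], [(2, 2), (3, -3), (4, 2), (5, -2), (6,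
      -7), (9, 6), (10, -4), (12, -2), (15, 7), (18, 5), (25, 2), (27, -3), (29, -3), (30, 4), (45,
      -5), (75, -2)]),
  ([[(1, -1), (3, 1)], [(1, -9), (2, -20), (3, 20), (5, 20)]], [(1, 1), (2, 23), (3, -34), (4, 22),
      (5, -23), (6, -77), (9, 66), (10, -44), (12, -22), (15, 77), (18, 55), (25, 22), (27, -33),
      (29, -33), (30, 44), (45, -55), (75, -22)]),
  ([[(1, -1), (5, 1)], [(1, -1), (2, -2), (3, 2), (5, 2)]], [(2, 2), (3, -2), (4, 2), (5, -3), (6,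
      -4), (9, 2), (10, -7), (15, 7), (20, -2), (25, 6), (30, 4), (31, -3), (45, -2), (50, 5), (75,
      -5), (125, -3)]),
  ([[(1, -1), (5, 1)], [(1, -9), (2, -20), (3, 20), (5, 20)]], [(1, 1), (2, 23), (3, -23), (4, 22),
      (5, -34), (6, -44), (9, 22), (10, -77), (15, 77), (20, -22), (25, 66), (30, 44), (31, -33),
      (45, -22), (50, 55), (75, -55), (125, -33)]),
  ([[(1, -1), (5, 1)], [(1, 9), (5, -5)]], [(1, 889), (5, -960), (23, 2000)]),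
  ([[(1, -1), (5, 1)], [(1, 2), (5, -1)]], [(1, 70), (5, -77), (23, 200)])]

theorem Ra_eq : Ra.map rulePol = Rap := by decide +kernel

/-- rules (generated) -/
def Rb : List ERule := [
  ([(.add (.v 2) (.mul (.c (-1)) (.v 3)))], (.add (.add (.mul (.mul (.v 2) (.v 2)) (.v 2)) (.mul
      (.c (-3)) (.mul (.mul (.v 2) (.v 2)) (.v 3)))) (.add (.mul (.c (-1)) (.v 13)) (.add (.mul (.c
      (3)) (.mul (.mul (.v 2) (.v 3)) (.v 3))) (.mul (.c (-1)) (.mul (.mul (.v 3) (.v 3)) (.v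
      3))))))),
  ([(.add (.mul (.c (-1)) (.v 2)) (.v 3))], (.mul (.c (-1)) (.v 13))),
  ([(.add (.v 2) (.mul (.c (-1)) (.v 5)))], (.add (.add (.mul (.mul (.v 2) (.v 2)) (.v 2)) (.mul
      (.c (-1)) (.v 17))) (.add (.mul (.c (-3)) (.mul (.mul (.v 2) (.v 2)) (.v 5))) (.add (.mul (.c
      (3)) (.mul (.mul (.v 2) (.v 5)) (.v 5))) (.mul (.c (-1)) (.mul (.mul (.v 5) (.v 5)) (.v
      5))))))),
  ([(.add (.mul (.c (-1)) (.v 2)) (.v 5))], (.mul (.c (-1)) (.v 17))),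
  ([], (.add (.mul (.mul (.v 2) (.v 2)) (.v 2)) (.add (.mul (.c (-1)) (.v 13)) (.mul (.c (-1)) (.v
      17))))),
  ([], (.add (.add (.mul (.mul (.v 2) (.v 2)) (.v 2)) (.mul (.c (-2)) (.mul (.mul (.v 2) (.v 2))
      (.v 3)))) (.add (.mul (.c (-1)) (.v 13)) (.mul (.mul (.v 2) (.v 3)) (.v 3))))),
  ([], (.add (.add (.mul (.mul (.v 2) (.v 2)) (.v 2)) (.mul (.c (-1)) (.v 17))) (.add (.mul (.c
      (-2)) (.mul (.mul (.v 2) (.v 2)) (.v 5))) (.mul (.mul (.v 2) (.v 5)) (.v 5))))),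
  ([(.add (.c (-17)) (.mul (.c (25)) (.v 3))), (.add (.c (1)) (.mul (.c (-1)) (.v 3)))], (.add
      (.add (.c (-289)) (.mul (.c (850)) (.v 3))) (.add (.mul (.c (-625)) (.mul (.v 3) (.v 3)))
      (.mul (.c (1250)) (.v 19))))),
  ([(.add (.c (-1)) (.v 3)), (.add (.c (5)) (.mul (.c (-4)) (.v 3)))], (.add (.add (.c (-353))
      (.mul (.c (1250)) (.v 3))) (.add (.mul (.c (-1025)) (.mul (.v 3) (.v 3))) (.mul (.c (2500))
      (.v 19))))),
  ([(.add (.c (-5)) (.mul (.c (4)) (.v 3))), (.add (.c (9)) (.mul (.c (-5)) (.v 3)))], (.add (.c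
      (111)) (.add (.mul (.c (-120)) (.v 3)) (.mul (.c (250)) (.v 19))))),
  ([(.add (.c (-9)) (.mul (.c (5)) (.v 3)))], (.add (.c (-21)) (.mul (.c (50)) (.v 19)))),
  ([(.add (.c (-7)) (.mul (.c (50)) (.v 5))), (.add (.c (3)) (.mul (.c (-5)) (.v 5)))], (.add (.add
      (.c (-49)) (.mul (.c (700)) (.v 5))) (.add (.mul (.c (5000)) (.v 23)) (.mul (.c (-2500))
      (.mul (.v 5) (.v 5)))))),
  ([(.add (.c (-3)) (.mul (.c (5)) (.v 5))), (.add (.c (3)) (.mul (.c (-2)) (.v 5)))], (.add (.add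
      (.c (181)) (.mul (.c (125)) (.v 5))) (.add (.mul (.c (10000)) (.v 23)) (.mul (.c (-3500))
      (.mul (.v 5) (.v 5)))))),
  ([(.add (.c (-3)) (.mul (.c (2)) (.v 5)))], (.add (.c (69)) (.add (.mul (.c (-96)) (.v 5)) (.mul
      (.c (100)) (.v 23))))),
  ([(.add (.c (-1)) (.v 3)), (.add (.add (.c (-2)) (.mul (.c (-1)) (.v 2))) (.add (.mul (.c (2))
      (.v 3)) (.v 5))), (.add (.add (.c (-1)) (.mul (.c (-2)) (.v 2))) (.add (.mul (.c (2)) (.v 3))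
      (.mul (.c (2)) (.v 5))))], (.add (.add (.add (.add (.c (-4)) (.mul (.c (-6)) (.v 2))) (.add
      (.mul (.c (9)) (.v 3)) (.add (.mul (.c (-3)) (.mul (.v 2) (.v 2))) (.mul (.c (6)) (.v 5)))))
      (.add (.add (.mul (.c (9)) (.mul (.v 2) (.v 3))) (.mul (.c (-1)) (.mul (.mul (.v 2) (.v 2))
      (.v 2)))) (.add (.mul (.c (-6)) (.mul (.v 3) (.v 3))) (.add (.mul (.c (6)) (.mul (.v 2) (.v
      5))) (.mul (.c (3)) (.mul (.mul (.v 2) (.v 2)) (.v 3))))))) (.add (.add (.add (.mul (.c (-9))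
      (.mul (.v 3) (.v 5))) (.mul (.c (-3)) (.mul (.mul (.v 2) (.v 3)) (.v 3)))) (.add (.mul (.c
      (3)) (.mul (.mul (.v 2) (.v 2)) (.v 5))) (.add (.mul (.c (-3)) (.mul (.v 5) (.v 5))) (.mul
      (.mul (.v 3) (.v 3)) (.v 3))))) (.add (.add (.mul (.c (-3)) (.v 29)) (.add (.mul (.c (-6))
      (.mul (.mul (.v 2) (.v 3)) (.v 5))) (.mul (.c (3)) (.mul (.mul (.v 3) (.v 3)) (.v 5)))))
      (.add (.mul (.c (-3)) (.mul (.mul (.v 2) (.v 5)) (.v 5))) (.add (.mul (.c (3)) (.mul (.mul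
      (.v 3) (.v 5)) (.v 5))) (.mul (.mul (.v 5) (.v 5)) (.v 5)))))))),
  ([(.add (.c (-1)) (.v 3)), (.add (.add (.c (-2)) (.mul (.c (-1)) (.v 2))) (.add (.mul (.c (2))
      (.v 3)) (.v 5))), (.add (.add (.c (1)) (.mul (.c (2)) (.v 2))) (.add (.mul (.c (-2)) (.v 3))
      (.mul (.c (-2)) (.v 5))))], (.add (.add (.add (.add (.c (-7)) (.mul (.c (-10)) (.v 2))) (.add
      (.mul (.c (16)) (.v 3)) (.add (.mul (.c (-6)) (.mul (.v 2) (.v 2))) (.mul (.c (10)) (.v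
      5))))) (.add (.add (.mul (.c (18)) (.mul (.v 2) (.v 3))) (.mul (.c (-2)) (.mul (.mul (.v 2)
      (.v 2)) (.v 2)))) (.add (.mul (.c (-12)) (.mul (.v 3) (.v 3))) (.add (.mul (.c (12)) (.mul
      (.v 2) (.v 5))) (.mul (.c (6)) (.mul (.mul (.v 2) (.v 2)) (.v 3))))))) (.add (.add (.add
      (.mul (.c (-18)) (.mul (.v 3) (.v 5))) (.mul (.c (-6)) (.mul (.mul (.v 2) (.v 3)) (.v 3))))
      (.add (.mul (.c (6)) (.mul (.mul (.v 2) (.v 2)) (.v 5))) (.add (.mul (.c (-6)) (.mul (.v 5)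
      (.v 5))) (.mul (.c (2)) (.mul (.mul (.v 3) (.v 3)) (.v 3)))))) (.add (.add (.mul (.c (-6))
      (.v 29)) (.add (.mul (.c (-12)) (.mul (.mul (.v 2) (.v 3)) (.v 5))) (.mul (.c (6)) (.mul
      (.mul (.v 3) (.v 3)) (.v 5))))) (.add (.mul (.c (-6)) (.mul (.mul (.v 2) (.v 5)) (.v 5)))
      (.add (.mul (.c (6)) (.mul (.mul (.v 3) (.v 5)) (.v 5))) (.mul (.c (2)) (.mul (.mul (.v 5)
      (.v 5)) (.v 5))))))))),
  ([(.add (.c (-1)) (.v 3)), (.add (.add (.c (2)) (.v 2)) (.add (.mul (.c (-2)) (.v 3)) (.mul (.c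
      (-1)) (.v 5)))), (.add (.add (.c (-1)) (.mul (.c (-2)) (.v 2))) (.add (.mul (.c (2)) (.v 3))
      (.mul (.c (2)) (.v 5))))], (.add (.add (.add (.add (.c (4)) (.mul (.c (6)) (.v 2))) (.add
      (.mul (.c (-15)) (.v 3)) (.mul (.c (3)) (.mul (.v 2) (.v 2))))) (.add (.add (.mul (.c (-6))
      (.v 5)) (.mul (.c (-15)) (.mul (.v 2) (.v 3)))) (.add (.mul (.c (18)) (.mul (.v 3) (.v 3)))
      (.mul (.c (-6)) (.mul (.v 2) (.v 5)))))) (.add (.add (.add (.mul (.c (-3)) (.mul (.mul (.v 2)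
      (.v 2)) (.v 3))) (.mul (.c (15)) (.mul (.v 3) (.v 5)))) (.add (.mul (.c (9)) (.mul (.mul (.v
      2) (.v 3)) (.v 3))) (.mul (.c (3)) (.mul (.v 5) (.v 5))))) (.add (.add (.mul (.c (-7)) (.mul
      (.mul (.v 3) (.v 3)) (.v 3))) (.mul (.c (-3)) (.v 29))) (.add (.mul (.c (6)) (.mul (.mul (.v
      2) (.v 3)) (.v 5))) (.add (.mul (.c (-9)) (.mul (.mul (.v 3) (.v 3)) (.v 5))) (.mul (.c (-3))
      (.mul (.mul (.v 3) (.v 5)) (.v 5))))))))),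
  ([(.add (.c (-1)) (.v 3)), (.add (.add (.c (2)) (.v 2)) (.add (.mul (.c (-2)) (.v 3)) (.mul (.c
      (-1)) (.v 5)))), (.add (.add (.c (1)) (.mul (.c (2)) (.v 2))) (.add (.mul (.c (-2)) (.v 3))
      (.mul (.c (-2)) (.v 5))))], (.add (.add (.add (.add (.c (9)) (.mul (.c (14)) (.v 2))) (.add
      (.mul (.c (-32)) (.v 3)) (.mul (.c (6)) (.mul (.v 2) (.v 2))))) (.add (.add (.mul (.c (-14))
      (.v 5)) (.mul (.c (-30)) (.mul (.v 2) (.v 3)))) (.add (.mul (.c (36)) (.mul (.v 3) (.v 3)))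
      (.mul (.c (-12)) (.mul (.v 2) (.v 5)))))) (.add (.add (.add (.mul (.c (-6)) (.mul (.mul (.v
      2) (.v 2)) (.v 3))) (.mul (.c (30)) (.mul (.v 3) (.v 5)))) (.add (.mul (.c (18)) (.mul (.mul
      (.v 2) (.v 3)) (.v 3))) (.mul (.c (6)) (.mul (.v 5) (.v 5))))) (.add (.add (.mul (.c (-14))
      (.mul (.mul (.v 3) (.v 3)) (.v 3))) (.mul (.c (-6)) (.v 29))) (.add (.mul (.c (12)) (.mul
      (.mul (.v 2) (.v 3)) (.v 5))) (.add (.mul (.c (-18)) (.mul (.mul (.v 3) (.v 3)) (.v 5)))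
      (.mul (.c (-6)) (.mul (.mul (.v 3) (.v 5)) (.v 5))))))))),
  ([(.add (.c (-1)) (.v 5)), (.add (.add (.c (-2)) (.mul (.c (-1)) (.v 2))) (.add (.v 3) (.mul (.c
      (2)) (.v 5)))), (.add (.add (.c (-1)) (.mul (.c (-2)) (.v 2))) (.add (.mul (.c (2)) (.v 3))
      (.mul (.c (2)) (.v 5))))], (.add (.add (.add (.add (.c (-4)) (.mul (.c (-6)) (.v 2))) (.add
      (.mul (.c (6)) (.v 3)) (.add (.mul (.c (-3)) (.mul (.v 2) (.v 2))) (.mul (.c (9)) (.v 5)))))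
      (.add (.add (.mul (.c (6)) (.mul (.v 2) (.v 3))) (.mul (.c (-1)) (.mul (.mul (.v 2) (.v 2))
      (.v 2)))) (.add (.mul (.c (-3)) (.mul (.v 3) (.v 3))) (.add (.mul (.c (9)) (.mul (.v 2) (.v
      5))) (.mul (.c (3)) (.mul (.mul (.v 2) (.v 2)) (.v 3))))))) (.add (.add (.add (.mul (.c (-9))
      (.mul (.v 3) (.v 5))) (.mul (.c (-3)) (.mul (.mul (.v 2) (.v 3)) (.v 3)))) (.add (.mul (.c
      (3)) (.mul (.mul (.v 2) (.v 2)) (.v 5))) (.add (.mul (.c (-6)) (.mul (.v 5) (.v 5))) (.mul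
      (.mul (.v 3) (.v 3)) (.v 3))))) (.add (.add (.mul (.c (-6)) (.mul (.mul (.v 2) (.v 3)) (.v
      5))) (.add (.mul (.c (-3)) (.v 31)) (.mul (.c (3)) (.mul (.mul (.v 3) (.v 3)) (.v 5)))))
      (.add (.mul (.c (-3)) (.mul (.mul (.v 2) (.v 5)) (.v 5))) (.add (.mul (.c (3)) (.mul (.mul
      (.v 3) (.v 5)) (.v 5))) (.mul (.mul (.v 5) (.v 5)) (.v 5)))))))),
  ([(.add (.c (-1)) (.v 5)), (.add (.add (.c (-2)) (.mul (.c (-1)) (.v 2))) (.add (.v 3) (.mul (.c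
      (2)) (.v 5)))), (.add (.add (.c (1)) (.mul (.c (2)) (.v 2))) (.add (.mul (.c (-2)) (.v 3))
      (.mul (.c (-2)) (.v 5))))], (.add (.add (.add (.add (.c (-7)) (.mul (.c (-10)) (.v 2))) (.add
      (.mul (.c (10)) (.v 3)) (.add (.mul (.c (-6)) (.mul (.v 2) (.v 2))) (.mul (.c (16)) (.v
      5))))) (.add (.add (.mul (.c (12)) (.mul (.v 2) (.v 3))) (.mul (.c (-2)) (.mul (.mul (.v 2)
      (.v 2)) (.v 2)))) (.add (.mul (.c (-6)) (.mul (.v 3) (.v 3))) (.add (.mul (.c (18)) (.mul (.v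
      2) (.v 5))) (.mul (.c (6)) (.mul (.mul (.v 2) (.v 2)) (.v 3))))))) (.add (.add (.add (.mul
      (.c (-18)) (.mul (.v 3) (.v 5))) (.mul (.c (-6)) (.mul (.mul (.v 2) (.v 3)) (.v 3)))) (.add
      (.mul (.c (6)) (.mul (.mul (.v 2) (.v 2)) (.v 5))) (.add (.mul (.c (-12)) (.mul (.v 5) (.v
      5))) (.mul (.c (2)) (.mul (.mul (.v 3) (.v 3)) (.v 3)))))) (.add (.add (.mul (.c (-12)) (.mul
      (.mul (.v 2) (.v 3)) (.v 5))) (.add (.mul (.c (-6)) (.v 31)) (.mul (.c (6)) (.mul (.mul (.v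
      3) (.v 3)) (.v 5))))) (.add (.mul (.c (-6)) (.mul (.mul (.v 2) (.v 5)) (.v 5))) (.add (.mul
      (.c (6)) (.mul (.mul (.v 3) (.v 5)) (.v 5))) (.mul (.c (2)) (.mul (.mul (.v 5) (.v 5)) (.v
      5))))))))),
  ([(.add (.c (-1)) (.v 5)), (.add (.add (.c (2)) (.v 2)) (.add (.mul (.c (-1)) (.v 3)) (.mul (.c
      (-2)) (.v 5)))), (.add (.add (.c (-1)) (.mul (.c (-2)) (.v 2))) (.add (.mul (.c (2)) (.v 3))
      (.mul (.c (2)) (.v 5))))], (.add (.add (.add (.add (.c (4)) (.mul (.c (6)) (.v 2))) (.add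
      (.mul (.c (-6)) (.v 3)) (.mul (.c (3)) (.mul (.v 2) (.v 2))))) (.add (.add (.mul (.c (-15))
      (.v 5)) (.mul (.c (-6)) (.mul (.v 2) (.v 3)))) (.add (.mul (.c (3)) (.mul (.v 3) (.v 3)))
      (.mul (.c (-15)) (.mul (.v 2) (.v 5)))))) (.add (.add (.add (.mul (.c (15)) (.mul (.v 3) (.v
      5))) (.mul (.c (-3)) (.mul (.mul (.v 2) (.v 2)) (.v 5)))) (.add (.mul (.c (18)) (.mul (.v 5)
      (.v 5))) (.mul (.c (6)) (.mul (.mul (.v 2) (.v 3)) (.v 5))))) (.add (.add (.mul (.c (-3)) (.v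
      31)) (.mul (.c (-3)) (.mul (.mul (.v 3) (.v 3)) (.v 5)))) (.add (.mul (.c (9)) (.mul (.mul
      (.v 2) (.v 5)) (.v 5))) (.add (.mul (.c (-9)) (.mul (.mul (.v 3) (.v 5)) (.v 5))) (.mul (.c
      (-7)) (.mul (.mul (.v 5) (.v 5)) (.v 5))))))))),
  ([(.add (.c (-1)) (.v 5)), (.add (.add (.c (2)) (.v 2)) (.add (.mul (.c (-1)) (.v 3)) (.mul (.c
      (-2)) (.v 5)))), (.add (.add (.c (1)) (.mul (.c (2)) (.v 2))) (.add (.mul (.c (-2)) (.v 3))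
      (.mul (.c (-2)) (.v 5))))], (.add (.add (.add (.add (.c (9)) (.mul (.c (14)) (.v 2))) (.add
      (.mul (.c (-14)) (.v 3)) (.mul (.c (6)) (.mul (.v 2) (.v 2))))) (.add (.add (.mul (.c (-32))
      (.v 5)) (.mul (.c (-12)) (.mul (.v 2) (.v 3)))) (.add (.mul (.c (6)) (.mul (.v 3) (.v 3)))
      (.mul (.c (-30)) (.mul (.v 2) (.v 5)))))) (.add (.add (.add (.mul (.c (30)) (.mul (.v 3) (.v
      5))) (.mul (.c (-6)) (.mul (.mul (.v 2) (.v 2)) (.v 5)))) (.add (.mul (.c (36)) (.mul (.v 5)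
      (.v 5))) (.mul (.c (12)) (.mul (.mul (.v 2) (.v 3)) (.v 5))))) (.add (.add (.mul (.c (-6))
      (.v 31)) (.mul (.c (-6)) (.mul (.mul (.v 3) (.v 3)) (.v 5)))) (.add (.mul (.c (18)) (.mul
      (.mul (.v 2) (.v 5)) (.v 5))) (.add (.mul (.c (-18)) (.mul (.mul (.v 3) (.v 5)) (.v 5)))
      (.mul (.c (-14)) (.mul (.mul (.v 5) (.v 5)) (.v 5))))))))),
  ([(.add (.c (-1)) (.v 3)), (.add (.add (.c (-1)) (.mul (.c (-2)) (.v 2))) (.add (.mul (.c (2))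
      (.v 3)) (.mul (.c (2)) (.v 5))))], (.add (.add (.add (.add (.mul (.c (2)) (.v 2)) (.mul (.c
      (-3)) (.v 3))) (.add (.mul (.c (2)) (.mul (.v 2) (.v 2))) (.mul (.c (-2)) (.v 5)))) (.add
      (.add (.mul (.c (-7)) (.mul (.v 2) (.v 3))) (.mul (.c (6)) (.mul (.v 3) (.v 3)))) (.add (.mul
      (.c (-4)) (.mul (.v 2) (.v 5))) (.mul (.c (-2)) (.mul (.mul (.v 2) (.v 2)) (.v 3)))))) (.add
      (.add (.add (.mul (.c (7)) (.mul (.v 3) (.v 5))) (.mul (.c (5)) (.mul (.mul (.v 2) (.v 3))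
      (.v 3)))) (.add (.mul (.c (2)) (.mul (.v 5) (.v 5))) (.mul (.c (-3)) (.mul (.mul (.v 3) (.v
      3)) (.v 3))))) (.add (.add (.mul (.c (-3)) (.v 29)) (.mul (.c (4)) (.mul (.mul (.v 2) (.v 3))
      (.v 5)))) (.add (.mul (.c (-5)) (.mul (.mul (.v 3) (.v 3)) (.v 5))) (.mul (.c (-2)) (.mul
      (.mul (.v 3) (.v 5)) (.v 5)))))))),
  ([(.add (.c (-1)) (.v 3)), (.add (.add (.c (-9)) (.mul (.c (-20)) (.v 2))) (.add (.mul (.c (20))
      (.v 3)) (.mul (.c (20)) (.v 5))))], (.add (.add (.add (.add (.c (1)) (.mul (.c (23)) (.v 2)))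
      (.add (.mul (.c (-34)) (.v 3)) (.mul (.c (22)) (.mul (.v 2) (.v 2))))) (.add (.add (.mul (.c
      (-23)) (.v 5)) (.mul (.c (-77)) (.mul (.v 2) (.v 3)))) (.add (.mul (.c (66)) (.mul (.v 3) (.v
      3))) (.mul (.c (-44)) (.mul (.v 2) (.v 5)))))) (.add (.add (.add (.mul (.c (-22)) (.mul (.mul
      (.v 2) (.v 2)) (.v 3))) (.mul (.c (77)) (.mul (.v 3) (.v 5)))) (.add (.mul (.c (55)) (.mul
      (.mul (.v 2) (.v 3)) (.v 3))) (.mul (.c (22)) (.mul (.v 5) (.v 5))))) (.add (.add (.mul (.c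
      (-33)) (.mul (.mul (.v 3) (.v 3)) (.v 3))) (.mul (.c (-33)) (.v 29))) (.add (.mul (.c (44))
      (.mul (.mul (.v 2) (.v 3)) (.v 5))) (.add (.mul (.c (-55)) (.mul (.mul (.v 3) (.v 3)) (.v
      5))) (.mul (.c (-22)) (.mul (.mul (.v 3) (.v 5)) (.v 5))))))))),
  ([(.add (.c (-1)) (.v 5)), (.add (.add (.c (-1)) (.mul (.c (-2)) (.v 2))) (.add (.mul (.c (2))
      (.v 3)) (.mul (.c (2)) (.v 5))))], (.add (.add (.add (.add (.mul (.c (2)) (.v 2)) (.mul (.c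
      (-2)) (.v 3))) (.add (.mul (.c (2)) (.mul (.v 2) (.v 2))) (.mul (.c (-3)) (.v 5)))) (.add
      (.add (.mul (.c (-4)) (.mul (.v 2) (.v 3))) (.mul (.c (2)) (.mul (.v 3) (.v 3)))) (.add (.mul
      (.c (-7)) (.mul (.v 2) (.v 5))) (.mul (.c (7)) (.mul (.v 3) (.v 5)))))) (.add (.add (.add
      (.mul (.c (-2)) (.mul (.mul (.v 2) (.v 2)) (.v 5))) (.mul (.c (6)) (.mul (.v 5) (.v 5))))
      (.add (.mul (.c (4)) (.mul (.mul (.v 2) (.v 3)) (.v 5))) (.mul (.c (-3)) (.v 31)))) (.add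
      (.add (.mul (.c (-2)) (.mul (.mul (.v 3) (.v 3)) (.v 5))) (.mul (.c (5)) (.mul (.mul (.v 2)
      (.v 5)) (.v 5)))) (.add (.mul (.c (-5)) (.mul (.mul (.v 3) (.v 5)) (.v 5))) (.mul (.c (-3))
      (.mul (.mul (.v 5) (.v 5)) (.v 5)))))))),
  ([(.add (.c (-1)) (.v 5)), (.add (.add (.c (-9)) (.mul (.c (-20)) (.v 2))) (.add (.mul (.c (20))
      (.v 3)) (.mul (.c (20)) (.v 5))))], (.add (.add (.add (.add (.c (1)) (.mul (.c (23)) (.v 2)))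
      (.add (.mul (.c (-23)) (.v 3)) (.mul (.c (22)) (.mul (.v 2) (.v 2))))) (.add (.add (.mul (.c
      (-34)) (.v 5)) (.mul (.c (-44)) (.mul (.v 2) (.v 3)))) (.add (.mul (.c (22)) (.mul (.v 3) (.v
      3))) (.mul (.c (-77)) (.mul (.v 2) (.v 5)))))) (.add (.add (.add (.mul (.c (77)) (.mul (.v 3)
      (.v 5))) (.mul (.c (-22)) (.mul (.mul (.v 2) (.v 2)) (.v 5)))) (.add (.mul (.c (66)) (.mul
      (.v 5) (.v 5))) (.mul (.c (44)) (.mul (.mul (.v 2) (.v 3)) (.v 5))))) (.add (.add (.mul (.c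
      (-33)) (.v 31)) (.mul (.c (-22)) (.mul (.mul (.v 3) (.v 3)) (.v 5)))) (.add (.mul (.c (55))
      (.mul (.mul (.v 2) (.v 5)) (.v 5))) (.add (.mul (.c (-55)) (.mul (.mul (.v 3) (.v 5)) (.v
      5))) (.mul (.c (-33)) (.mul (.mul (.v 5) (.v 5)) (.v 5))))))))),
  ([(.add (.c (-1)) (.v 3)), (.add (.c (9)) (.mul (.c (-5)) (.v 3)))], (.add (.c (889)) (.add (.mul
      (.c (-960)) (.v 3)) (.mul (.c (2000)) (.v 19))))),
  ([(.add (.c (-1)) (.v 3)), (.add (.c (2)) (.mul (.c (-1)) (.v 3)))], (.add (.c (70)) (.add (.mul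
      (.c (-77)) (.v 3)) (.mul (.c (200)) (.v 19)))))]

/-- the same as polynomials -/
def Rbp : List Rule := [
  ([[(2, 1), (3, -1)]], [(8, 1), (12, -3), (13, -1), (18, 3), (27, -1)]),
  ([[(2, -1), (3, 1)]], [(13, -1)]),
  ([[(2, 1), (5, -1)]], [(8, 1), (17, -1), (20, -3), (50, 3), (125, -1)]),
  ([[(2, -1), (5, 1)]], [(17, -1)]),
  ([], [(8, 1), (13, -1), (17, -1)]),
  ([], [(8, 1), (12, -2), (13, -1), (18, 1)]),
  ([], [(8, 1), (17, -1), (20, -2), (50, 1)]),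
  ([[(1, -17), (3, 25)], [(1, 1), (3, -1)]], [(1, -289), (3, 850), (9, -625), (19, 1250)]),
  ([[(1, -1), (3, 1)], [(1, 5), (3, -4)]], [(1, -353), (3, 1250), (9, -1025), (19, 2500)]),
  ([[(1, -5), (3, 4)], [(1, 9), (3, -5)]], [(1, 111), (3, -120), (19, 250)]),
  ([[(1, -9), (3, 5)]], [(1, -21), (19, 50)]),
  ([[(1, -7), (5, 50)], [(1, 3), (5, -5)]], [(1, -49), (5, 700), (23, 5000), (25, -2500)]),
  ([[(1, -3), (5, 5)], [(1, 3), (5, -2)]], [(1, 181), (5, 125), (23, 10000), (25, -3500)]),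
  ([[(1, -3), (5, 2)]], [(1, 69), (5, -96), (23, 100)]),
  ([[(1, -1), (3, 1)], [(1, -2), (2, -1), (3, 2), (5, 1)], [(1, -1), (2, -2), (3, 2), (5, 2)]],
      [(1, -4), (2, -6), (3, 9), (4, -3), (5, 6), (6, 9), (8, -1), (9, -6), (10, 6), (12, 3), (15,
      -9), (18, -3), (20, 3), (25, -3), (27, 1), (29, -3), (30, -6), (45, 3), (50, -3), (75, 3),
      (125, 1)]),
  ([[(1, -1), (3, 1)], [(1, -2), (2, -1), (3, 2), (5, 1)], [(1, 1), (2, 2), (3, -2), (5, -2)]],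
      [(1, -7), (2, -10), (3, 16), (4, -6), (5, 10), (6, 18), (8, -2), (9, -12), (10, 12), (12, 6),
      (15, -18), (18, -6), (20, 6), (25, -6), (27, 2), (29, -6), (30, -12), (45, 6), (50, -6), (75,
      6), (125, 2)]),
  ([[(1, -1), (3, 1)], [(1, 2), (2, 1), (3, -2), (5, -1)], [(1, -1), (2, -2), (3, 2), (5, 2)]],
      [(1, 4), (2, 6), (3, -15), (4, 3), (5, -6), (6, -15), (9, 18), (10, -6), (12, -3), (15, 15),
      (18, 9), (25, 3), (27, -7), (29, -3), (30, 6), (45, -9), (75, -3)]),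
  ([[(1, -1), (3, 1)], [(1, 2), (2, 1), (3, -2), (5, -1)], [(1, 1), (2, 2), (3, -2), (5, -2)]],
      [(1, 9), (2, 14), (3, -32), (4, 6), (5, -14), (6, -30), (9, 36), (10, -12), (12, -6), (15,
      30), (18, 18), (25, 6), (27, -14), (29, -6), (30, 12), (45, -18), (75, -6)]),
  ([[(1, -1), (5, 1)], [(1, -2), (2, -1), (3, 1), (5, 2)], [(1, -1), (2, -2), (3, 2), (5, 2)]],
      [(1, -4), (2, -6), (3, 6), (4, -3), (5, 9), (6, 6), (8, -1), (9, -3), (10, 9), (12, 3), (15,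
      -9), (18, -3), (20, 3), (25, -6), (27, 1), (30, -6), (31, -3), (45, 3), (50, -3), (75, 3),
      (125, 1)]),
  ([[(1, -1), (5, 1)], [(1, -2), (2, -1), (3, 1), (5, 2)], [(1, 1), (2, 2), (3, -2), (5, -2)]],
      [(1, -7), (2, -10), (3, 10), (4, -6), (5, 16), (6, 12), (8, -2), (9, -6), (10, 18), (12, 6),
      (15, -18), (18, -6), (20, 6), (25, -12), (27, 2), (30, -12), (31, -6), (45, 6), (50, -6),
      (75, 6), (125, 2)]),
  ([[(1, -1), (5, 1)], [(1, 2), (2, 1), (3, -1), (5, -2)], [(1, -1), (2, -2), (3, 2), (5, 2)]],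
      [(1, 4), (2, 6), (3, -6), (4, 3), (5, -15), (6, -6), (9, 3), (10, -15), (15, 15), (20, -3),
      (25, 18), (30, 6), (31, -3), (45, -3), (50, 9), (75, -9), (125, -7)]),
  ([[(1, -1), (5, 1)], [(1, 2), (2, 1), (3, -1), (5, -2)], [(1, 1), (2, 2), (3, -2), (5, -2)]],
      [(1, 9), (2, 14), (3, -14), (4, 6), (5, -32), (6, -12), (9, 6), (10, -30), (15, 30), (20,
      -6), (25, 36), (30, 12), (31, -6), (45, -6), (50, 18), (75, -18), (125, -14)]),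
  ([[(1, -1), (3, 1)], [(1, -1), (2, -2), (3, 2), (5, 2)]], [(2, 2), (3, -3), (4, 2), (5, -2), (6,
      -7), (9, 6), (10, -4), (12, -2), (15, 7), (18, 5), (25, 2), (27, -3), (29, -3), (30, 4), (45,
      -5), (75, -2)]),
  ([[(1, -1), (3, 1)], [(1, -9), (2, -20), (3, 20), (5, 20)]], [(1, 1), (2, 23), (3, -34), (4, 22),
      (5, -23), (6, -77), (9, 66), (10, -44), (12, -22), (15, 77), (18, 55), (25, 22), (27, -33),
      (29, -33), (30, 44), (45, -55), (75, -22)]),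
  ([[(1, -1), (5, 1)], [(1, -1), (2, -2), (3, 2), (5, 2)]], [(2, 2), (3, -2), (4, 2), (5, -3), (6,
      -4), (9, 2), (10, -7), (15, 7), (20, -2), (25, 6), (30, 4), (31, -3), (45, -2), (50, 5), (75,
      -5), (125, -3)]),
  ([[(1, -1), (5, 1)], [(1, -9), (2, -20), (3, 20), (5, 20)]], [(1, 1), (2, 23), (3, -23), (4, 22),
      (5, -34), (6, -44), (9, 22), (10, -77), (15, 77), (20, -22), (25, 66), (30, 44), (31, -33),
      (45, -22), (50, 55), (75, -55), (125, -33)]),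
  ([[(1, -1), (3, 1)], [(1, 9), (3, -5)]], [(1, 889), (3, -960), (19, 2000)]),
  ([[(1, -1), (3, 1)], [(1, 2), (3, -1)]], [(1, 70), (3, -77), (19, 200)])]

theorem Rb_eq : Rb.map rulePol = Rbp := by decide +kernel

/-- context (generated): hw, hA, hB, ht, w1, s, l, d, gain -/
def E_free : List Ex := [
  (.v 2),
  (.v 3),
  (.v 5),
  (.v 7),
  (.add (.c (1)) (.mul (.c (-1)) (.v 2))),
  (.add (.add (.c (1)) (.v 2)) (.add (.mul (.c (-1)) (.v 3)) (.mul (.c (-1)) (.v 5)))),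
  (.add (.mul (.c (-1)) (.v 2)) (.add (.v 3) (.v 5))),
  (.add (.add (.c (9)) (.mul (.c (20)) (.v 2))) (.add (.mul (.c (-20)) (.v 3)) (.mul (.c (-20)) (.v
      5)))),
  (.add (.add (.mul (.c (-1)) (.mul (.mul (.v 2) (.v 2)) (.v 2))) (.mul (.c (-3)) (.v 11))) (.add
      (.v 13) (.add (.v 17) (.mul (.c (3)) (.mul (.mul (.v 2) (.v 3)) (.v 5))))))]

/-- the same as polynomials -/
def P_free : List Pol := [
  [(2, 1)],
  [(3, 1)],
  [(5, 1)],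
  [(7, 1)],
  [(1, 1), (2, -1)],
  [(1, 1), (2, 1), (3, -1), (5, -1)],
  [(2, -1), (3, 1), (5, 1)],
  [(1, 9), (2, 20), (3, -20), (5, -20)],
  [(8, -1), (11, -3), (13, 1), (17, 1), (30, 3)]]

/-- context (generated): hw, hA, hB, ht, w1, s, l, d, a1, gain -/
def E_Op0 : List Ex := [
  (.v 2),
  (.v 3),
  (.v 5),
  (.v 7),
  (.add (.c (1)) (.mul (.c (-1)) (.v 2))),
  (.add (.add (.c (1)) (.v 2)) (.add (.mul (.c (-1)) (.v 3)) (.mul (.c (-1)) (.v 5)))),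
  (.add (.mul (.c (-1)) (.v 2)) (.add (.v 3) (.v 5))),
  (.add (.add (.c (-9)) (.mul (.c (-20)) (.v 2))) (.add (.mul (.c (20)) (.v 3)) (.mul (.c (20)) (.v
      5)))),
  (.add (.c (1)) (.mul (.c (-1)) (.v 3))),
  (.add (.add (.mul (.c (-1)) (.mul (.mul (.v 2) (.v 2)) (.v 2))) (.add (.mul (.c (-3)) (.v 11))
      (.v 13))) (.add (.v 17) (.add (.mul (.c (-3)) (.v 19)) (.mul (.c (3)) (.mul (.mul (.v 2) (.v
      3)) (.v 5))))))]

/-- the same as polynomials -/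
def P_Op0 : List Pol := [
  [(2, 1)],
  [(3, 1)],
  [(5, 1)],
  [(7, 1)],
  [(1, 1), (2, -1)],
  [(1, 1), (2, 1), (3, -1), (5, -1)],
  [(2, -1), (3, 1), (5, 1)],
  [(1, -9), (2, -20), (3, 20), (5, 20)],
  [(1, 1), (3, -1)],
  [(8, -1), (11, -3), (13, 1), (17, 1), (19, -3), (30, 3)]]

/-- context (generated): hw, hA, hB, ht, w1, s, l, d, a0, gain -/
def E_Op1 : List Ex := [
  (.v 2),
  (.v 3),
  (.v 5),
  (.v 7),
  (.add (.c (1)) (.mul (.c (-1)) (.v 2))),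
  (.add (.add (.c (1)) (.v 2)) (.add (.mul (.c (-1)) (.v 3)) (.mul (.c (-1)) (.v 5)))),
  (.add (.mul (.c (-1)) (.v 2)) (.add (.v 3) (.v 5))),
  (.add (.add (.c (-9)) (.mul (.c (-20)) (.v 2))) (.add (.mul (.c (20)) (.v 3)) (.mul (.c (20)) (.v
      5)))),
  (.add (.c (-1)) (.v 3)),
  (.add (.add (.mul (.c (-1)) (.mul (.mul (.v 2) (.v 2)) (.v 2))) (.add (.mul (.c (-3)) (.v 11))
      (.v 13))) (.add (.add (.v 17) (.mul (.c (-3)) (.v 19))) (.add (.mul (.c (3)) (.v 29)) (.mul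
      (.c (3)) (.mul (.mul (.v 2) (.v 3)) (.v 5))))))]

/-- the same as polynomials -/
def P_Op1 : List Pol := [
  [(2, 1)],
  [(3, 1)],
  [(5, 1)],
  [(7, 1)],
  [(1, 1), (2, -1)],
  [(1, 1), (2, 1), (3, -1), (5, -1)],
  [(2, -1), (3, 1), (5, 1)],
  [(1, -9), (2, -20), (3, 20), (5, 20)],
  [(1, -1), (3, 1)],
  [(8, -1), (11, -3), (13, 1), (17, 1), (19, -3), (29, 3), (30, 3)]]

/-- context (generated): hw, hA, hB, ht, w1, s, l, d, b, a0, gain -/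
def E_c0 : List Ex := [
  (.v 2),
  (.v 3),
  (.v 5),
  (.v 7),
  (.add (.c (1)) (.mul (.c (-1)) (.v 2))),
  (.add (.add (.c (1)) (.v 2)) (.add (.mul (.c (-1)) (.v 3)) (.mul (.c (-1)) (.v 5)))),
  (.add (.mul (.c (-1)) (.v 2)) (.add (.v 3) (.v 5))),
  (.add (.add (.c (-9)) (.mul (.c (-20)) (.v 2))) (.add (.mul (.c (20)) (.v 3)) (.mul (.c (20)) (.v
      5)))),
  (.add (.mul (.c (2)) (.v 2)) (.add (.mul (.c (-1)) (.v 3)) (.mul (.c (-1)) (.v 5)))),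
  (.add (.c (2)) (.mul (.c (-5)) (.v 3))),
  (.add (.add (.c (3)) (.add (.mul (.c (-1000)) (.mul (.mul (.v 2) (.v 2)) (.v 2))) (.mul (.c
      (-3000)) (.v 11)))) (.add (.add (.mul (.c (1000)) (.v 13)) (.mul (.c (1000)) (.v 17))) (.add
      (.mul (.c (-3000)) (.v 19)) (.mul (.c (3000)) (.mul (.mul (.v 2) (.v 3)) (.v 5))))))]

/-- the same as polynomials -/
def P_c0 : List Pol := [
  [(2, 1)],
  [(3, 1)],
  [(5, 1)],
  [(7, 1)],
  [(1, 1), (2, -1)],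
  [(1, 1), (2, 1), (3, -1), (5, -1)],
  [(2, -1), (3, 1), (5, 1)],
  [(1, -9), (2, -20), (3, 20), (5, 20)],
  [(2, 2), (3, -1), (5, -1)],
  [(1, 2), (3, -5)],
  [(1, 3), (8, -1000), (11, -3000), (13, 1000), (17, 1000), (19, -3000), (30, 3000)]]

/-- context (generated): hw, hA, hB, ht, w1, s, l, d, b, a0, gain -/
def E_c1 : List Ex := [
  (.v 2),
  (.v 3),
  (.v 5),
  (.v 7),
  (.add (.c (1)) (.mul (.c (-1)) (.v 2))),
  (.add (.add (.c (1)) (.v 2)) (.add (.mul (.c (-1)) (.v 3)) (.mul (.c (-1)) (.v 5)))),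
  (.add (.mul (.c (-1)) (.v 2)) (.add (.v 3) (.v 5))),
  (.add (.add (.c (-9)) (.mul (.c (-20)) (.v 2))) (.add (.mul (.c (20)) (.v 3)) (.mul (.c (20)) (.v
      5)))),
  (.add (.mul (.c (2)) (.v 2)) (.add (.mul (.c (-1)) (.v 3)) (.mul (.c (-1)) (.v 5)))),
  (.add (.c (2)) (.mul (.c (-5)) (.v 3))),
  (.add (.add (.add (.c (-459)) (.mul (.c (3600)) (.v 2))) (.add (.mul (.c (-1800)) (.v 3)) (.mul
      (.c (-1800)) (.v 5)))) (.add (.add (.mul (.c (-5000)) (.mul (.mul (.v 2) (.v 2)) (.v 2)))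
      (.mul (.c (-15000)) (.v 11))) (.add (.mul (.c (5000)) (.v 13)) (.add (.mul (.c (5000)) (.v
      17)) (.mul (.c (15000)) (.mul (.mul (.v 2) (.v 3)) (.v 5)))))))]

/-- the same as polynomials -/
def P_c1 : List Pol := [
  [(2, 1)],
  [(3, 1)],
  [(5, 1)],
  [(7, 1)],
  [(1, 1), (2, -1)],
  [(1, 1), (2, 1), (3, -1), (5, -1)],
  [(2, -1), (3, 1), (5, 1)],
  [(1, -9), (2, -20), (3, 20), (5, 20)],
  [(2, 2), (3, -1), (5, -1)],
  [(1, 2), (3, -5)],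
  [(1, -459), (2, 3600), (3, -1800), (5, -1800), (8, -5000), (11, -15000), (13, 5000), (17, 5000),
      (30, 15000)]]

/-- context (generated): hw, hA, hB, ht, w1, s, l, d, b, a0, a1, gain -/
def E_c2 : List Ex := [
  (.v 2),
  (.v 3),
  (.v 5),
  (.v 7),
  (.add (.c (1)) (.mul (.c (-1)) (.v 2))),
  (.add (.add (.c (1)) (.v 2)) (.add (.mul (.c (-1)) (.v 3)) (.mul (.c (-1)) (.v 5)))),
  (.add (.mul (.c (-1)) (.v 2)) (.add (.v 3) (.v 5))),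
  (.add (.add (.c (-9)) (.mul (.c (-20)) (.v 2))) (.add (.mul (.c (20)) (.v 3)) (.mul (.c (20)) (.v
      5)))),
  (.add (.mul (.c (2)) (.v 2)) (.add (.mul (.c (-1)) (.v 3)) (.mul (.c (-1)) (.v 5)))),
  (.add (.c (-2)) (.mul (.c (5)) (.v 3))),
  (.add (.c (1)) (.mul (.c (-1)) (.v 3))),
  (.add (.add (.add (.c (3)) (.add (.mul (.c (-3000)) (.mul (.mul (.v 2) (.v 2)) (.v 2))) (.mul (.c
      (-3000)) (.v 11)))) (.add (.add (.mul (.c (9000)) (.mul (.mul (.v 2) (.v 2)) (.v 3))) (.mul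
      (.c (1000)) (.v 13))) (.add (.mul (.c (1000)) (.v 17)) (.mul (.c (-6000)) (.mul (.mul (.v 2)
      (.v 3)) (.v 3)))))) (.add (.add (.add (.mul (.c (-3000)) (.v 19)) (.mul (.c (3000)) (.mul
      (.mul (.v 2) (.v 2)) (.v 5)))) (.add (.mul (.c (1000)) (.mul (.mul (.v 3) (.v 3)) (.v 3)))
      (.mul (.c (-6000)) (.mul (.mul (.v 2) (.v 3)) (.v 5))))) (.add (.add (.mul (.c (3000)) (.mul
      (.mul (.v 3) (.v 3)) (.v 5))) (.mul (.c (-1500)) (.mul (.mul (.v 2) (.v 5)) (.v 5)))) (.add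
      (.mul (.c (2250)) (.mul (.mul (.v 3) (.v 5)) (.v 5))) (.mul (.c (250)) (.mul (.mul (.v 5) (.v
      5)) (.v 5)))))))]

/-- the same as polynomials -/
def P_c2 : List Pol := [
  [(2, 1)],
  [(3, 1)],
  [(5, 1)],
  [(7, 1)],
  [(1, 1), (2, -1)],
  [(1, 1), (2, 1), (3, -1), (5, -1)],
  [(2, -1), (3, 1), (5, 1)],
  [(1, -9), (2, -20), (3, 20), (5, 20)],
  [(2, 2), (3, -1), (5, -1)],
  [(1, -2), (3, 5)],
  [(1, 1), (3, -1)],
  [(1, 3), (8, -3000), (11, -3000), (12, 9000), (13, 1000), (17, 1000), (18, -6000), (19, -3000),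
      (20, 3000), (27, 1000), (30, -6000), (45, 3000), (50, -1500), (75, 2250), (125, 250)]]

/-- context (generated): hw, hA, hB, ht, w1, s, l, d, b, a0, gain -/
def E_c3 : List Ex := [
  (.v 2),
  (.v 3),
  (.v 5),
  (.v 7),
  (.add (.c (1)) (.mul (.c (-1)) (.v 2))),
  (.add (.add (.c (1)) (.v 2)) (.add (.mul (.c (-1)) (.v 3)) (.mul (.c (-1)) (.v 5)))),
  (.add (.mul (.c (-1)) (.v 2)) (.add (.v 3) (.v 5))),
  (.add (.add (.c (-9)) (.mul (.c (-20)) (.v 2))) (.add (.mul (.c (20)) (.v 3)) (.mul (.c (20)) (.v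
      5)))),
  (.add (.mul (.c (2)) (.v 2)) (.add (.mul (.c (-1)) (.v 3)) (.mul (.c (-1)) (.v 5)))),
  (.add (.c (-1)) (.v 3)),
  (.add (.add (.add (.mul (.c (-1194)) (.v 2)) (.add (.mul (.c (597)) (.v 3)) (.mul (.c (597)) (.v
      5)))) (.add (.mul (.c (2700)) (.mul (.v 2) (.v 3))) (.add (.mul (.c (-500)) (.mul (.mul (.v
      2) (.v 2)) (.v 2))) (.mul (.c (-1350)) (.mul (.v 3) (.v 3)))))) (.add (.add (.mul (.c
      (-1500)) (.v 11)) (.add (.mul (.c (500)) (.v 13)) (.mul (.c (-1350)) (.mul (.v 3) (.v 5)))))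
      (.add (.add (.mul (.c (500)) (.v 17)) (.mul (.c (-1500)) (.v 19))) (.add (.mul (.c (1500))
      (.v 29)) (.mul (.c (1500)) (.mul (.mul (.v 2) (.v 3)) (.v 5)))))))]

/-- the same as polynomials -/
def P_c3 : List Pol := [
  [(2, 1)],
  [(3, 1)],
  [(5, 1)],
  [(7, 1)],
  [(1, 1), (2, -1)],
  [(1, 1), (2, 1), (3, -1), (5, -1)],
  [(2, -1), (3, 1), (5, 1)],
  [(1, -9), (2, -20), (3, 20), (5, 20)],
  [(2, 2), (3, -1), (5, -1)],
  [(1, -1), (3, 1)],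
  [(2, -1194), (3, 597), (5, 597), (6, 2700), (8, -500), (9, -1350), (11, -1500), (13, 500), (15,
      -1350), (17, 500), (19, -1500), (29, 1500), (30, 1500)]]

/-- context (generated): hw, hA, hB, ht, w1, s, l, d, gain -/
def E_c4 : List Ex := [
  (.v 2),
  (.v 3),
  (.v 5),
  (.v 7),
  (.add (.c (1)) (.mul (.c (-1)) (.v 2))),
  (.add (.add (.c (1)) (.v 2)) (.add (.mul (.c (-1)) (.v 3)) (.mul (.c (-1)) (.v 5)))),
  (.add (.mul (.c (-1)) (.v 2)) (.add (.v 3) (.v 5))),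
  (.add (.add (.c (-9)) (.mul (.c (-20)) (.v 2))) (.add (.mul (.c (20)) (.v 3)) (.mul (.c (20)) (.v
      5)))),
  (.add (.add (.add (.c (183)) (.mul (.c (525)) (.v 2))) (.add (.mul (.c (-525)) (.v 3)) (.mul (.c
      (-525)) (.v 5)))) (.add (.add (.mul (.c (-250)) (.mul (.mul (.v 2) (.v 2)) (.v 2))) (.mul (.c
      (-750)) (.v 11))) (.add (.mul (.c (250)) (.v 13)) (.add (.mul (.c (250)) (.v 17)) (.mul (.c
      (750)) (.mul (.mul (.v 2) (.v 3)) (.v 5)))))))]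

/-- the same as polynomials -/
def P_c4 : List Pol := [
  [(2, 1)],
  [(3, 1)],
  [(5, 1)],
  [(7, 1)],
  [(1, 1), (2, -1)],
  [(1, 1), (2, 1), (3, -1), (5, -1)],
  [(2, -1), (3, 1), (5, 1)],
  [(1, -9), (2, -20), (3, 20), (5, 20)],
  [(1, 183), (2, 525), (3, -525), (5, -525), (8, -250), (11, -750), (13, 250), (17, 250), (30,
      750)]]

/-- context (generated): hw, hA, hB, ht, w1, s, l, d, a1, b1, gain -/
def E_Tp0 : List Ex := [
  (.v 2),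
  (.v 3),
  (.v 5),
  (.v 7),
  (.add (.c (1)) (.mul (.c (-1)) (.v 2))),
  (.add (.add (.c (1)) (.v 2)) (.add (.mul (.c (-1)) (.v 3)) (.mul (.c (-1)) (.v 5)))),
  (.add (.mul (.c (-1)) (.v 2)) (.add (.v 3) (.v 5))),
  (.add (.add (.c (-9)) (.mul (.c (-20)) (.v 2))) (.add (.mul (.c (20)) (.v 3)) (.mul (.c (20)) (.v
      5)))),
  (.add (.c (1)) (.mul (.c (-1)) (.v 3))),
  (.add (.c (1)) (.mul (.c (-1)) (.v 5))),
  (.add (.add (.mul (.c (-1)) (.mul (.mul (.v 2) (.v 2)) (.v 2))) (.add (.mul (.c (-3)) (.v 11))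
      (.v 13))) (.add (.add (.v 17) (.mul (.c (-3)) (.v 19))) (.add (.mul (.c (-3)) (.v 23)) (.mul
      (.c (3)) (.mul (.mul (.v 2) (.v 3)) (.v 5))))))]

/-- the same as polynomials -/
def P_Tp0 : List Pol := [
  [(2, 1)],
  [(3, 1)],
  [(5, 1)],
  [(7, 1)],
  [(1, 1), (2, -1)],
  [(1, 1), (2, 1), (3, -1), (5, -1)],
  [(2, -1), (3, 1), (5, 1)],
  [(1, -9), (2, -20), (3, 20), (5, 20)],
  [(1, 1), (3, -1)],
  [(1, 1), (5, -1)],
  [(8, -1), (11, -3), (13, 1), (17, 1), (19, -3), (23, -3), (30, 3)]]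

/-- context (generated): hw, hA, hB, ht, w1, s, l, d, a0, gain -/
def E_TpA : List Ex := [
  (.v 2),
  (.v 3),
  (.v 5),
  (.v 7),
  (.add (.c (1)) (.mul (.c (-1)) (.v 2))),
  (.add (.add (.c (1)) (.v 2)) (.add (.mul (.c (-1)) (.v 3)) (.mul (.c (-1)) (.v 5)))),
  (.add (.mul (.c (-1)) (.v 2)) (.add (.v 3) (.v 5))),
  (.add (.add (.c (-9)) (.mul (.c (-20)) (.v 2))) (.add (.mul (.c (20)) (.v 3)) (.mul (.c (20)) (.v
      5)))),
  (.add (.c (-1)) (.v 3)),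
  (.add (.add (.add (.mul (.c (-1)) (.mul (.mul (.v 2) (.v 2)) (.v 2))) (.mul (.c (-3)) (.v 11)))
      (.add (.v 13) (.v 17))) (.add (.add (.mul (.c (-3)) (.v 19)) (.mul (.c (-3)) (.v 23))) (.add
      (.mul (.c (3)) (.v 29)) (.mul (.c (3)) (.mul (.mul (.v 2) (.v 3)) (.v 5))))))]

/-- the same as polynomials -/
def P_TpA : List Pol := [
  [(2, 1)],
  [(3, 1)],
  [(5, 1)],
  [(7, 1)],
  [(1, 1), (2, -1)],
  [(1, 1), (2, 1), (3, -1), (5, -1)],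
  [(2, -1), (3, 1), (5, 1)],
  [(1, -9), (2, -20), (3, 20), (5, 20)],
  [(1, -1), (3, 1)],
  [(8, -1), (11, -3), (13, 1), (17, 1), (19, -3), (23, -3), (29, 3), (30, 3)]]

/-- context (generated): hw, hA, hB, ht, w1, s, l, d, b0, gain -/
def E_TpB : List Ex := [
  (.v 2),
  (.v 3),
  (.v 5),
  (.v 7),
  (.add (.c (1)) (.mul (.c (-1)) (.v 2))),
  (.add (.add (.c (1)) (.v 2)) (.add (.mul (.c (-1)) (.v 3)) (.mul (.c (-1)) (.v 5)))),
  (.add (.mul (.c (-1)) (.v 2)) (.add (.v 3) (.v 5))),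
  (.add (.add (.c (-9)) (.mul (.c (-20)) (.v 2))) (.add (.mul (.c (20)) (.v 3)) (.mul (.c (20)) (.v
      5)))),
  (.add (.c (-1)) (.v 5)),
  (.add (.add (.add (.mul (.c (-1)) (.mul (.mul (.v 2) (.v 2)) (.v 2))) (.mul (.c (-3)) (.v 11)))
      (.add (.v 13) (.v 17))) (.add (.add (.mul (.c (-3)) (.v 19)) (.mul (.c (-3)) (.v 23))) (.add
      (.mul (.c (3)) (.mul (.mul (.v 2) (.v 3)) (.v 5))) (.mul (.c (3)) (.v 31)))))]

/-- the same as polynomials -/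
def P_TpB : List Pol := [
  [(2, 1)],
  [(3, 1)],
  [(5, 1)],
  [(7, 1)],
  [(1, 1), (2, -1)],
  [(1, 1), (2, 1), (3, -1), (5, -1)],
  [(2, -1), (3, 1), (5, 1)],
  [(1, -9), (2, -20), (3, 20), (5, 20)],
  [(1, -1), (5, 1)],
  [(8, -1), (11, -3), (13, 1), (17, 1), (19, -3), (23, -3), (30, 3), (31, 3)]]

end Pool.Agent.Helper62.TW
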