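import Pool.Agent.Helper51.TS.OwnRow
import Pool.Agent.Helper95.TS.ClassAbs

/-!
# The potentials of the two classes, the gains (coefficients frozen)
-/

set_option autoImplicit false

namespace Pool.Agent.Helper62.TW

open Pool.Agent.Helper51.TS Pool.Agent.Helper74.TS Pool.Agent.Helper95.TS


/-- the potential of two `O` cells, class any -/
noncomputable def OOA (x y : ℝ) : ℝ :=
  397 / 2500 * y + 397 / 2500 * x + 1443 / 5000 * y ^ 2 + 15491 / 10000 * x * y + 1443 / 5000 * x ^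
      2 + 319 / 5000 * y ^ 3 - 4153 / 2500 * x * y ^ 2 - 4153 / 2500 * x ^ 2 * y + 319 / 5000 * x ^
      3 - 131 / 10000 * y ^ 4 - 233 / 10000 * x * y ^ 3 + 3319 / 2500 * x ^ 2 * y ^ 2 - 233 / 10000
      * x ^ 3 * y - 131 / 10000 * x ^ 4

/-- the potential of a `T` cell (width `t`) and an `O` cell (width `o`) -/
noncomputable def TOA (t o : ℝ) : ℝ :=
  397 / 2500 * o + 297 / 2000 * t + 1443 / 5000 * o ^ 2 + 1079 / 2500 * t * o - 337 / 5000 * t ^ 2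
      + 319 / 5000 * o ^ 3 - 288 / 625 * t * o ^ 2 - 2141 / 10000 * t ^ 2 * o + 199 / 500 * t ^ 3 -
      131 / 10000 * o ^ 4 - 961 / 10000 * t * o ^ 3 + 299 / 1250 * t ^ 2 * o ^ 2 - 1803 / 5000 * t
      ^ 3 * o - 121 / 10000 * t ^ 4

/-- the bound of a cell in a cycle -/
noncomputable def BTA (w t : ℝ) : ℝ :=
  693 / 10000 - 2419 / 10000 * t - 2183 / 10000 * w + 2987 / 10000 * t ^ 2 + 499 / 625 * w * t +
      1141 / 2000 * w ^ 2 - 1163 / 10000 * t ^ 3 - 4523 / 10000 * w * t ^ 2 - 6741 / 10000 * w ^ 2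
      * t + 283 / 10000 * w ^ 3

/-- the bound of a cell in a cycle -/
noncomputable def BaA (w t : ℝ) : ℝ :=
  307 / 5000 - 807 / 5000 * t - 59 / 500 * w + 2009 / 10000 * t ^ 2 + 507 / 625 * w * t + 6903 /
      10000 * w ^ 2 - 987 / 10000 * t ^ 3 - 349 / 500 * w * t ^ 2 - 901 / 2000 * w ^ 2 * t - 2007 /
      10000 * w ^ 3

/-- the bound of a cell in a cycle -/
noncomputable def BbA (w t : ℝ) : ℝ :=
  11 / 5000 + 761 / 10000 * t + 1647 / 10000 * w - 377 / 2500 * t ^ 2 + 42 / 625 * w * t + 533 /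
      2000 * w ^ 2 + 187 / 2500 * t ^ 3 - 2319 / 10000 * w * t ^ 2 - 533 / 2000 * w ^ 2 * t

/-- the potential of two `O` cells, class good -/
noncomputable def OOG (x y : ℝ) : ℝ :=
  1833 / 10000 * y + 1833 / 10000 * x + 2867 / 10000 * y ^ 2 + 3053 / 5000 * x * y + 2867 / 10000 *
      x ^ 2 - 1131 / 10000 * y ^ 3 - 9059 / 10000 * x * y ^ 2 - 9059 / 10000 * x ^ 2 * y - 1131 /
      10000 * x ^ 3 - 97 / 10000 * y ^ 4 + 829 / 5000 * x * y ^ 3 + 67 / 125 * x ^ 2 * y ^ 2 + 829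
      / 5000 * x ^ 3 * y - 97 / 10000 * x ^ 4

/-- the potential of a `T` cell (width `t`) and an `O` cell (width `o`) -/
noncomputable def TOG (t o : ℝ) : ℝ :=
  1833 / 10000 * o + 1297 / 10000 * t + 2867 / 10000 * o ^ 2 + 2149 / 2500 * t * o + 781 / 5000 * t
      ^ 2 - 1131 / 10000 * o ^ 3 - 27 / 25 * t * o ^ 2 - 2593 / 2500 * t ^ 2 * o + 297 / 2500 * t ^
      3 - 97 / 10000 * o ^ 4 + 403 / 2500 * t * o ^ 3 + 721 / 1000 * t ^ 2 * o ^ 2 + 199 / 5000 * t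
      ^ 3 * o - 111 / 2000 * t ^ 4

/-- the bound of a cell in a cycle -/
noncomputable def BTG (w t : ℝ) : ℝ :=
  27 / 2000 - 127 / 2000 * t - 213 / 10000 * w + 911 / 10000 * t ^ 2 + 7801 / 10000 * w * t + 5443
      / 10000 * w ^ 2 + 11 / 625 * t ^ 3 - 1213 / 1250 * w * t ^ 2 - 10267 / 10000 * w ^ 2 * t -
      1887 / 10000 * w ^ 3 - 141 / 2500 * t ^ 4 + 529 / 2500 * w * t ^ 3 + 1201 / 2500 * w ^ 2 * t
      ^ 2 + 1969 / 10000 * w ^ 3 * t - 4 / 625 * w ^ 4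

/-- the bound of a cell in a cycle -/
noncomputable def BaG (w t : ℝ) : ℝ :=
  167 / 10000 - 871 / 5000 * t + 177 / 1000 * w + 1653 / 2500 * t ^ 2 + 1433 / 1250 * w * t + 279 /
      10000 * w ^ 2 - 4007 / 5000 * t ^ 3 - 8087 / 5000 * w * t ^ 2 - 14443 / 10000 * w ^ 2 * t +
      2119 / 5000 * w ^ 3 + 3 / 10 * t ^ 4 + 479 / 1000 * w * t ^ 3 + 7213 / 10000 * w ^ 2 * t ^ 2
      + 4039 / 10000 * w ^ 3 * t - 1509 / 5000 * w ^ 4

/-- the bound of a cell in a cycle -/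
noncomputable def BbG (w t : ℝ) : ℝ :=
  99 / 10000 - 279 / 2500 * t + 1507 / 10000 * w + 2519 / 5000 * t ^ 2 - 157 / 1000 * w * t + 3483
      / 10000 * w ^ 2 - 1369 / 2000 * t ^ 3 + 113 / 1000 * w * t ^ 2 - 627 / 2000 * w ^ 2 * t - 497
      / 2500 * w ^ 3 + 2851 / 10000 * t ^ 4 - 71 / 625 * w * t ^ 3 + 4 / 625 * w ^ 2 * t ^ 2 + 1313
      / 10000 * w ^ 3 * t + 331 / 10000 * w ^ 4

/-- a far cell: width `w`, components `A`, `B` -/
structure Cell (w A B : ℝ) : Prop where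
  w0 : 0 < w
  w1 : w ≤ 1
  A0 : 0 ≤ A
  B0 : 0 ≤ B
  lo : w ≤ A + B
  hi : A + B ≤ 1 + w

/-- the gain of an `O` cell, with the conflict forms -/
def GainC (w A B g : ℝ) : Prop :=
  GainO w A B g ∨ (1 + w - A - B < 11 / 20 ∧
    ((0 ≤ 2 * w - A - B ∧ A ≤ 2 / 5 ∧ g ≤ vl w A B - LO A + 1 / 1000) ∨
    (0 ≤ 2 * w - A - B ∧ A ≤ 2 / 5 ∧ g ≤ vl w A B + 3 / 25 * (2 * w - A - B) - 153 / 5000) ∨
    (0 ≤ 2 * w - A - B ∧ 2 / 5 ≤ A ∧ A ≤ 1 ∧ g ≤ vl w A B +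
      ((2 * w - A - B) * (2 * w - A - B + A) ^ 2 / 4 - (2 * w - A - B) ^ 3 / 3) + 1 / 1000 - LO A) ∨
    (0 ≤ 2 * w - A - B ∧ 1 ≤ A ∧ g ≤ vl w A B - LO A + hown (A - 1) (1 + w - A - B) +
      (2 * w - A - B) * (9 / 10 * A - 199 / 500)) ∨
    g ≤ vl w A B - 57 / 125 + 7 / 10 * (1 + w - A - B)))

end Pool.Agent.Helper62.TW
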