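import Pool.Agent.Helper62.TW.Atoms
import Pool.Agent.Helper62.TW.Pot

/-!
# Monotonicity of the potentials, the cycle sums (generated)
-/

set_option autoImplicit false
set_option maxRecDepth 100000
set_option linter.all false

namespace Pool.Agent.Helper62.TW

open Pool.Agent.Helper83.Cert Pool.Agent.Helper95.TS

noncomputable def cM : List Ex := [(.v 2), (.add (.mul (.c (-1)) (.v 2)) (.v 3)), (.add (.c (1))
 (.mul (.c (-1)) (.v 3))), (.v 5), (.add (.c (1)) (.mul (.c (-1)) (.v 5)))]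

def cMp : List Pol := [[(2, 1)], [(2, -1), (3, 1)], [(1, 1), (3, -1)], [(5, 1)], [(1, 1), (5, -1)]]

noncomputable def cC : List Ex := [(.v 2), (.v 3), (.v 5), (.add (.c (1)) (.mul (.c (-1)) (.v 2))),
 (.add (.c (1)) (.mul (.c (-1)) (.v 3))), (.add (.c (1)) (.mul (.c (-1)) (.v 5)))]

def cCp : List Pol := [[(2, 1)], [(3, 1)], [(5, 1)], [(1, 1), (2, -1)], [(1, 1), (3, -1)], [(1, 1),
 (5, -1)]]

theorem cM_eq : cM.map exPol = cMp := by decide +kernel

theorem cC_eq : cC.map exPol = cCp := by decide +kernel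


theorem tm_A_OO : chk [] [(1, 1588), (2, 2886), (3, 2886), (4, 638), (5, 15491), (6, 638), (8,
 -131), (9, 638), (10, -16612), (12, -131), (15, -16612), (18, -131), (20, -233), (25, -16612),
 (27, -131), (30, -233), (45, -233), (50, 13276), (75, 13276), (125, -233)]
 (.leaf 1000000 (.add (.add (.add (.mul (.pp [(1, 153130)]) (.sq [(1, -100), (2, 8), (3, 7), (5,
 93)])) (.add (.mul (.g 1) (.add (.add (.mul (.pp [(1, 11325)]) (.sq [(1, -3), (2, 20), (3, -3),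
 (5, -3)])) (.add (.mul (.pp [(1, 50288)]) (.sq [(1, -15), (2, 21), (3, 25), (5, -15)])) (.mul (.g
 4) (.add (.add (.pp [(1, 3040220000)]) (.mul (.g 1) (.pp [(1, 348290000)]))) (.add (.mul (.g 2)
 (.pp [(1, 152420000)])) (.mul (.g 3) (.pp [(1, 5125400000)]))))))) (.add (.mul (.g 1) (.add (.mul
 (.g 1) (.pp [(1, 53820000)])) (.mul (.g 2) (.pp [(1, 177830000)])))) (.add (.mul (.g 0) (.mul (.g
 0) (.pp [(1, 56950000)]))) (.mul (.g 2) (.mul (.g 2) (.pp [(1, 112180000)]))))))) (.mul (.g 2)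
 (.add (.mul (.pp [(1, 1301)]) (.sq [(1, -67), (2, 100), (3, 100), (5, -67)])) (.add (.mul (.pp
 [(1, 13779)]) (.sq [(1, -43), (2, 100), (3, 100), (5, -77)])) (.mul (.g 4) (.add (.mul (.g 2) (.pp
 [(1, 24350000)])) (.mul (.g 3) (.pp [(1, 17570460000)]))))))))) (.add (.mul (.g 0) (.add (.mul
 (.pp [(1, 277655)]) (.sq [(1, -82), (2, 1), (3, -15), (5, 100)])) (.add (.mul (.pp [(1, 6095175)])
 (.sq [(1, -20), (2, 1), (3, 1), (5, 19)])) (.mul (.g 4) (.mul (.g 4) (.pp [(1, 2278050000)]))))))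
 (.add (.mul (.g 3) (.mul (.pp [(1, 69008)]) (.sq [(1, -100), (2, 6), (3, 6), (5, 93)]))) (.mul (.g
 4) (.mul (.pp [(1, 207487500)]) (.sq [(2, 1), (3, 1), (5, -2)])))))) (.pp [(1, 1032440), (2,
 105305), (3, 95635), (4, 94160), (5, 103084), (6, 105630), (8, 104178), (9, 98480), (10, 100610),
 (12, 95692), (15, 105806), (18, 100975), (20, 105122), (25, 101550), (27, 98075), (30, 93064),
 (45, 105362), (50, 95622), (75, 96227), (125, 99808)])))
 cMp = true := by decide +kernel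

theorem m_A_OO {w A B : ℝ} (hw : 0 ≤ w) (hA : w ≤ A) (h1 : A ≤ 1) (hB : 0 ≤ B) (hB1 : B ≤ 1) :
    OOA w B ≤ OOA A B := by
  have h := tree_cert (rules := []) (R := []) (p := (.add (.add (.add (.add (.c (1588)) (.mul (.c
      (2886)) (.v 2))) (.add (.mul (.c (2886)) (.v 3)) (.add (.mul (.c (638)) (.mul (.v 2) (.v 2)))
      (.mul (.c (15491)) (.v 5))))) (.add (.add (.mul (.c (638)) (.mul (.v 2) (.v 3))) (.mul (.c
      (-131)) (.mul (.mul (.v 2) (.v 2)) (.v 2)))) (.add (.mul (.c (638)) (.mul (.v 3) (.v 3)))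
      (.add (.mul (.c (-16612)) (.mul (.v 2) (.v 5))) (.mul (.c (-131)) (.mul (.mul (.v 2) (.v 2))
      (.v 3))))))) (.add (.add (.add (.mul (.c (-16612)) (.mul (.v 3) (.v 5))) (.mul (.c (-131))
      (.mul (.mul (.v 2) (.v 3)) (.v 3)))) (.add (.mul (.c (-233)) (.mul (.mul (.v 2) (.v 2)) (.v
      5))) (.add (.mul (.c (-16612)) (.mul (.v 5) (.v 5))) (.mul (.c (-131)) (.mul (.mul (.v 3) (.v
      3)) (.v 3)))))) (.add (.add (.mul (.c (-233)) (.mul (.mul (.v 2) (.v 3)) (.v 5))) (.mul (.c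
      (-233)) (.mul (.mul (.v 3) (.v 3)) (.v 5)))) (.add (.mul (.c (13276)) (.mul (.mul (.v 2) (.v
      5)) (.v 5))) (.add (.mul (.c (13276)) (.mul (.mul (.v 3) (.v 5)) (.v 5))) (.mul (.c (-233))
      (.mul (.mul (.v 5) (.v 5)) (.v 5))))))))) (gs := cM) (G := cMp) rfl (by decide +kernel) cM_eq
      tm_A_OO
    (yw_nonneg hw (hw.trans hA) hB le_rfl le_rfl le_rfl le_rfl le_rfl le_rfl le_rfl le_rfl)
    (fun _ h => absurd h List.not_mem_nil) (by
      simp only [cM, List.forall_mem_cons, exadd, exmul, exc, exw2, exw3, exw5, exw7, exw11, exw13,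
      exw17, exw19, exw23, exw29, exw31]
      push_cast
      refine ⟨?_, ?_, ?_, ?_, ?_, fun _ h => absurd h List.not_mem_nil⟩ <;> linarith)
  simp only [exadd, exmul, exc, exw2, exw3, exw5, exw7, exw11, exw13, exw17, exw19, exw23, exw29,
      exw31] at h
  push_cast at h
  have h2 := mul_nonneg (sub_nonneg.2 hA) h
  unfold OOA
  linarith

theorem tm_A_TOt : chk [] [(1, 1485), (2, -674), (3, -674), (4, 3980), (5, 4316), (6, 3980), (8,
 -121), (9, 3980), (10, -2141), (12, -121), (15, -2141), (18, -121), (20, -3606), (25, -4608), (27,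
 -121), (30, -3606), (45, -3606), (50, 2392), (75, 2392), (125, -961)]
 (.leaf 500000 (.add (.add (.add (.mul (.pp [(1, 1121)]) (.sq [(1, -49), (2, 90), (3, 100), (5,
 -49)])) (.mul (.g 4) (.add (.add (.mul (.g 1) (.add (.add (.pp [(1, 1224105000)]) (.mul (.g 0)
 (.pp [(1, 4089115000)]))) (.add (.mul (.g 1) (.pp [(1, 1077285000)])) (.mul (.g 3) (.pp [(1,
 238630000)]))))) (.mul (.g 3) (.add (.pp [(1, 1352715000)]) (.add (.mul (.g 2) (.pp [(1,
 1441220000)])) (.mul (.g 3) (.pp [(1, 480550000)])))))) (.add (.mul (.g 0) (.add (.mul (.g 0) (.pp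
 [(1, 4814880000)])) (.mul (.g 4) (.pp [(1, 957320000)])))) (.mul (.g 2) (.mul (.g 2) (.pp [(1,
 654650000)]))))))) (.add (.mul (.g 1) (.add (.mul (.g 1) (.add (.pp [(1, 4610000)]) (.add (.mul
 (.g 1) (.pp [(1, 25495000)])) (.mul (.g 2) (.pp [(1, 7965000)]))))) (.add (.mul (.g 0) (.mul (.g
 0) (.pp [(1, 35055000)]))) (.mul (.g 2) (.mul (.g 3) (.pp [(1, 71120000)])))))) (.add (.mul (.g 2)
 (.add (.mul (.pp [(1, 54892)]) (.sq [(1, -11), (2, 50), (5, -11)])) (.add (.mul (.g 0) (.mul (.g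
 0) (.pp [(1, 26895000)]))) (.mul (.g 2) (.mul (.g 2) (.pp [(1, 78080000)])))))) (.mul (.g 0) (.mul
 (.g 0) (.pp [(1, 1125000)])))))) (.pp [(1, 436547), (2, 53420), (3, 62732), (4, 44900), (5,
 48094), (6, 45800), (8, 50000), (9, 40000), (10, 53420), (12, 50000), (15, 44664), (18, 55000),
 (20, 50000), (25, 51547), (27, 50000), (30, 43800), (45, 55000), (50, 50000), (75, 51932), (125,
 50000)])))
 cMp = true := by decide +kernel

theorem m_A_TOt {w A B : ℝ} (hw : 0 ≤ w) (hA : w ≤ A) (h1 : A ≤ 1) (hB : 0 ≤ B) (hB1 : B ≤ 1) :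
    TOA w B ≤ TOA A B := by
  have h := tree_cert (rules := []) (R := []) (p := (.add (.add (.add (.add (.c (1485)) (.mul (.c
      (-674)) (.v 2))) (.add (.mul (.c (-674)) (.v 3)) (.add (.mul (.c (3980)) (.mul (.v 2) (.v
      2))) (.mul (.c (4316)) (.v 5))))) (.add (.add (.mul (.c (3980)) (.mul (.v 2) (.v 3))) (.mul
      (.c (-121)) (.mul (.mul (.v 2) (.v 2)) (.v 2)))) (.add (.mul (.c (3980)) (.mul (.v 3) (.v
      3))) (.add (.mul (.c (-2141)) (.mul (.v 2) (.v 5))) (.mul (.c (-121)) (.mul (.mul (.v 2) (.v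
      2)) (.v 3))))))) (.add (.add (.add (.mul (.c (-2141)) (.mul (.v 3) (.v 5))) (.mul (.c (-121))
      (.mul (.mul (.v 2) (.v 3)) (.v 3)))) (.add (.mul (.c (-3606)) (.mul (.mul (.v 2) (.v 2)) (.v
      5))) (.add (.mul (.c (-4608)) (.mul (.v 5) (.v 5))) (.mul (.c (-121)) (.mul (.mul (.v 3) (.v
      3)) (.v 3)))))) (.add (.add (.mul (.c (-3606)) (.mul (.mul (.v 2) (.v 3)) (.v 5))) (.mul (.c
      (-3606)) (.mul (.mul (.v 3) (.v 3)) (.v 5)))) (.add (.mul (.c (2392)) (.mul (.mul (.v 2) (.v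
      5)) (.v 5))) (.add (.mul (.c (2392)) (.mul (.mul (.v 3) (.v 5)) (.v 5))) (.mul (.c (-961))
      (.mul (.mul (.v 5) (.v 5)) (.v 5))))))))) (gs := cM) (G := cMp) rfl (by decide +kernel) cM_eq
      tm_A_TOt
    (yw_nonneg hw (hw.trans hA) hB le_rfl le_rfl le_rfl le_rfl le_rfl le_rfl le_rfl le_rfl)
    (fun _ h => absurd h List.not_mem_nil) (by
      simp only [cM, List.forall_mem_cons, exadd, exmul, exc, exw2, exw3, exw5, exw7, exw11, exw13,
      exw17, exw19, exw23, exw29, exw31]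
      push_cast
      refine ⟨?_, ?_, ?_, ?_, ?_, fun _ h => absurd h List.not_mem_nil⟩ <;> linarith)
  simp only [exadd, exmul, exc, exw2, exw3, exw5, exw7, exw11, exw13, exw17, exw19, exw23, exw29,
      exw31] at h
  push_cast at h
  have h2 := mul_nonneg (sub_nonneg.2 hA) h
  unfold TOA
  linarith

theorem tm_A_TOo : chk [] [(1, 1588), (2, 2886), (3, 2886), (4, 638), (5, 4316), (6, 638), (8,
 -131), (9, 638), (10, -4608), (12, -131), (15, -4608), (18, -131), (20, -961), (25, -2141), (27,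
 -131), (30, -961), (45, -961), (50, 2392), (75, 2392), (125, -3606)]
 (.leaf 50 (.add (.add (.add (.mul (.g 0) (.add (.add (.mul (.g 0) (.add (.add (.pp [(1, 84)])
 (.mul (.g 1) (.pp [(1, 5296)]))) (.add (.mul (.g 2) (.pp [(1, 18406)])) (.mul (.g 4) (.pp [(1,
 53753)]))))) (.mul (.g 1) (.add (.pp [(1, 40325)]) (.add (.mul (.g 2) (.pp [(1, 2778)])) (.mul (.g
 4) (.pp [(1, 5698)])))))) (.add (.mul (.g 4) (.add (.pp [(1, 192437)]) (.mul (.g 4) (.pp [(1,
 119595)])))) (.mul (.g 2) (.mul (.g 3) (.pp [(1, 90412)])))))) (.mul (.g 1) (.add (.add (.pp [(1,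
 8872)]) (.mul (.g 1) (.add (.pp [(1, 8453)]) (.mul (.g 1) (.pp [(1, 1259)]))))) (.add (.mul (.g 2)
 (.mul (.g 3) (.pp [(1, 48055)]))) (.mul (.g 4) (.pp [(1, 158865)])))))) (.add (.mul (.g 4) (.add
 (.pp [(1, 71565)]) (.mul (.g 3) (.add (.pp [(1, 167765)]) (.add (.mul (.g 2) (.pp [(1, 119595)]))
 (.mul (.g 3) (.pp [(1, 180305)]))))))) (.mul (.g 2) (.mul (.g 2) (.mul (.g 2) (.pp [(1,
 7814)])))))) (.pp [(1, 21), (2, 5), (3, 5), (4, 5), (5, 5), (6, 5), (8, 5), (9, 5), (10, 5), (12,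
 5), (15, 5), (18, 5), (20, 5), (25, 5), (27, 5), (30, 5), (45, 5), (50, 5), (75, 5), (125, 5)])))
 cMp = true := by decide +kernel

theorem m_A_TOo {w A B : ℝ} (hw : 0 ≤ w) (hA : w ≤ A) (h1 : A ≤ 1) (hB : 0 ≤ B) (hB1 : B ≤ 1) :
    TOA B w ≤ TOA B A := by
  have h := tree_cert (rules := []) (R := []) (p := (.add (.add (.add (.add (.c (1588)) (.mul (.c
      (2886)) (.v 2))) (.add (.mul (.c (2886)) (.v 3)) (.add (.mul (.c (638)) (.mul (.v 2) (.v 2)))
      (.mul (.c (4316)) (.v 5))))) (.add (.add (.mul (.c (638)) (.mul (.v 2) (.v 3))) (.mul (.c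
      (-131)) (.mul (.mul (.v 2) (.v 2)) (.v 2)))) (.add (.mul (.c (638)) (.mul (.v 3) (.v 3)))
      (.add (.mul (.c (-4608)) (.mul (.v 2) (.v 5))) (.mul (.c (-131)) (.mul (.mul (.v 2) (.v 2))
      (.v 3))))))) (.add (.add (.add (.mul (.c (-4608)) (.mul (.v 3) (.v 5))) (.mul (.c (-131))
      (.mul (.mul (.v 2) (.v 3)) (.v 3)))) (.add (.mul (.c (-961)) (.mul (.mul (.v 2) (.v 2)) (.v
      5))) (.add (.mul (.c (-2141)) (.mul (.v 5) (.v 5))) (.mul (.c (-131)) (.mul (.mul (.v 3) (.v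
      3)) (.v 3)))))) (.add (.add (.mul (.c (-961)) (.mul (.mul (.v 2) (.v 3)) (.v 5))) (.mul (.c
      (-961)) (.mul (.mul (.v 3) (.v 3)) (.v 5)))) (.add (.mul (.c (2392)) (.mul (.mul (.v 2) (.v
      5)) (.v 5))) (.add (.mul (.c (2392)) (.mul (.mul (.v 3) (.v 5)) (.v 5))) (.mul (.c (-3606))
      (.mul (.mul (.v 5) (.v 5)) (.v 5))))))))) (gs := cM) (G := cMp) rfl (by decide +kernel) cM_eq
      tm_A_TOo
    (yw_nonneg hw (hw.trans hA) hB le_rfl le_rfl le_rfl le_rfl le_rfl le_rfl le_rfl le_rfl)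
    (fun _ h => absurd h List.not_mem_nil) (by
      simp only [cM, List.forall_mem_cons, exadd, exmul, exc, exw2, exw3, exw5, exw7, exw11, exw13,
      exw17, exw19, exw23, exw29, exw31]
      push_cast
      refine ⟨?_, ?_, ?_, ?_, ?_, fun _ h => absurd h List.not_mem_nil⟩ <;> linarith)
  simp only [exadd, exmul, exc, exw2, exw3, exw5, exw7, exw11, exw13, exw17, exw19, exw23, exw29,
      exw31] at h
  push_cast at h
  have h2 := mul_nonneg (sub_nonneg.2 hA) h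
  unfold TOA
  linarith

theorem tc_A : chk [] [(1, 3731), (2, 3797), (3, 772), (4, -7714), (5, 419), (6, -7984), (8, 704),
 (9, -5652), (10, -8112), (12, 6741), (15, -672), (18, 4523), (20, 6980), (25, -5395), (27, 1163),
 (45, 2665), (50, 4505), (75, 2319), (125, 1259)]
 (.split [(1, -1), (2, 2)]
 (.leaf 4000000 (.add (.add (.add (.mul (.g 2) (.add (.add (.add (.mul (.pp [(1, 26448)]) (.sq [(1,
 -100), (2, 66), (3, 50), (5, 45)])) (.mul (.pp [(1, 30576)]) (.sq [(1, -100), (2, 48), (3, 65),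
 (5, 42)]))) (.add (.mul (.g 3) (.add (.add (.mul (.pp [(1, 521076)]) (.sq [(1, -100), (2, 69), (3,
 58), (5, 34)])) (.mul (.pp [(1, 635488)]) (.sq [(1, -100), (2, 43), (3, 53), (5, 63)]))) (.add
 (.mul (.pp [(1, 192496)]) (.sq [(1, -98), (2, 100), (3, 18), (5, 39)])) (.mul (.g 0) (.mul (.g 0)
 (.pp [(1, 1156190000)])))))) (.mul (.g 4) (.add (.mul (.pp [(1, 444352)]) (.sq [(1, -33), (2, 50),
 (3, 7), (5, 2)])) (.add (.mul (.pp [(1, 52012)]) (.sq [(1, -95), (2, 100), (3, 30), (5, 32)]))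
 (.mul (.g 5) (.mul (.g 6) (.pp [(1, 4436640000)])))))))) (.add (.add (.mul (.g 0) (.add (.mul (.pp
 [(1, 179420)]) (.sq [(1, -100), (2, 49), (3, 65), (5, 70)])) (.mul (.pp [(1, 5066)]) (.sq [(1,
 -79), (2, 11), (3, 100), (5, 100)])))) (.mul (.g 5) (.add (.mul (.pp [(1, 384272)]) (.sq [(1,
 -50), (2, 23), (3, 5), (5, 38)])) (.mul (.pp [(1, 717520)]) (.sq [(1, -100), (2, 59), (3, 43), (5,
 56)]))))) (.add (.mul (.g 2) (.mul (.pp [(1, 336584)]) (.sq [(1, -100), (2, 50), (3, 63), (5,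
 47)]))) (.mul (.g 6) (.mul (.pp [(1, 388760)]) (.sq [(1, -100), (2, 45), (3, 68), (5, 34)])))))))
 (.mul (.g 0) (.add (.add (.mul (.pp [(1, 37664)]) (.sq [(1, -100), (2, 67), (3, 59), (5, 47)]))
 (.add (.mul (.pp [(1, 248202)]) (.sq [(1, -100), (2, 50), (3, 63), (5, 75)])) (.mul (.pp [(1,
 390864)]) (.sq [(1, -100), (2, 53), (3, 56), (5, 63)])))) (.add (.add (.mul (.pp [(1, 46726)])
 (.sq [(1, -100), (2, 49), (3, 64), (5, 56)])) (.mul (.g 0) (.add (.mul (.pp [(1, 55175)]) (.sq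
 [(1, -22), (2, -38), (3, 77), (5, 100)])) (.mul (.g 4) (.add (.pp [(1, 28880000)]) (.mul (.g 1)
 (.pp [(1, 174780000)]))))))) (.add (.mul (.g 1) (.mul (.pp [(1, 88838)]) (.sq [(1, -100), (2, 50),
 (3, 64), (5, 69)]))) (.mul (.g 4) (.mul (.pp [(1, 1283168)]) (.sq [(1, -13), (2, -5), (3,
 25)])))))))) (.add (.mul (.g 3) (.add (.add (.mul (.pp [(1, 301436)]) (.sq [(1, -100), (2, 42),
 (3, 41), (5, 71)])) (.add (.mul (.pp [(1, 68832)]) (.sq [(1, -100), (2, 55), (3, 45), (5, 62)]))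
 (.mul (.g 5) (.add (.mul (.pp [(1, 428904)]) (.sq [(1, -100), (2, 50), (3, 16), (5, 71)])) (.add
 (.mul (.pp [(1, 78024)]) (.sq [(1, -100), (2, 27), (3, 33), (5, 81)])) (.mul (.g 4) (.mul (.g 6)
 (.pp [(1, 818280000)])))))))) (.add (.mul (.g 1) (.mul (.pp [(1, 575200)]) (.sq [(1, -50), (2,
 28), (3, 23), (5, 30)]))) (.add (.mul (.g 3) (.mul (.pp [(1, 3656)]) (.sq [(1, -100), (2, 49), (3,
 33), (5, 70)]))) (.mul (.g 6) (.mul (.pp [(1, 508576)]) (.sq [(1, -100), (2, 89), (3, 51), (5,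
 6)]))))))) (.mul (.g 4) (.mul (.g 5) (.add (.mul (.pp [(1, 112256)]) (.sq [(1, -10), (2, 50), (3,
 -23), (5, -10)])) (.mul (.g 6) (.add (.pp [(1, 22305400000)]) (.mul (.g 1) (.pp [(1,
 15948360000)]))))))))) (.pp [(1, 3205092), (2, 422664), (3, 460818), (4, 343762), (5, 429600), (6,
 322528), (8, 431884), (9, 311307), (10, 392952), (12, 450902), (15, 268876), (16, 397600), (18,
 480864), (20, 405200), (24, 385188), (25, 337178), (27, 428156), (30, 508312), (36, 381812), (40,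
 398800), (45, 500620), (50, 410274), (54, 381464), (60, 356716), (75, 482760), (81, 399384), (90,
 341312), (100, 401004), (125, 434452), (135, 388872), (150, 379120), (225, 377664), (250, 399008),
 (375, 382736), (625, 394336)])))
 (.leaf 2000000 (.add (.add (.add (.mul (.g 2) (.add (.add (.mul (.g 3) (.add (.add (.mul (.pp [(1,
 138386)]) (.sq [(1, -100), (2, 68), (3, 47), (5, 39)])) (.mul (.pp [(1, 214520)]) (.sq [(1, -100),
 (2, 31), (3, 49), (5, 68)]))) (.add (.mul (.pp [(1, 264156)]) (.sq [(1, -100), (2, 95), (3, 47),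
 (5, 45)])) (.add (.mul (.pp [(1, 804530)]) (.sq [(1, -90), (2, 100), (3, 30), (5, 31)])) (.mul (.g
 0) (.mul (.g 0) (.pp [(1, 279480000)]))))))) (.mul (.g 5) (.add (.mul (.pp [(1, 320)]) (.sq [(1,
 -10), (2, 21), (3, 25), (5, -10)])) (.add (.mul (.pp [(1, 575328)]) (.sq [(1, -6), (2, 25), (5,
 -6)])) (.mul (.g 6) (.add (.mul (.g 0) (.pp [(1, 4599540000)])) (.add (.mul (.g 5) (.pp [(1,
 2128720000)])) (.mul (.g 6) (.pp [(1, 3255220000)]))))))))) (.add (.mul (.g 0) (.add (.mul (.pp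
 [(1, 160192)]) (.sq [(1, 8), (2, 25), (3, -4), (5, -20)])) (.mul (.pp [(1, 13173)]) (.sq [(1,
 -86), (2, -37), (3, 100), (5, 19)])))) (.add (.mul (.g 1) (.add (.mul (.pp [(1, 4334)]) (.sq [(1,
 -100), (2, 96), (3, 37), (5, 41)])) (.mul (.pp [(1, 135454)]) (.sq [(1, -100), (2, 53), (3, 49),
 (5, 47)])))) (.mul (.g 4) (.mul (.pp [(1, 15732)]) (.sq [(1, -100), (2, 32), (3, 63), (5,
 63)]))))))) (.mul (.g 3) (.add (.add (.mul (.pp [(1, 27798)]) (.sq [(1, -17), (2, 100), (3, -18),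
 (5, -11)])) (.mul (.g 6) (.add (.mul (.g 5) (.add (.mul (.g 0) (.pp [(1, 4495340000)])) (.add
 (.mul (.g 5) (.pp [(1, 1277020000)])) (.mul (.g 6) (.pp [(1, 2518040000)]))))) (.mul (.g 3) (.mul
 (.g 3) (.pp [(1, 6600000)])))))) (.add (.mul (.g 0) (.add (.mul (.pp [(1, 6597)]) (.sq [(1, -4),
 (2, 100), (3, -41), (5, -4)])) (.mul (.pp [(1, 11292)]) (.sq [(1, -8), (2, 50), (3, -9), (5,
 -9)])))) (.add (.mul (.g 3) (.add (.mul (.pp [(1, 402)]) (.sq [(1, -71), (2, 100), (3, 11), (5,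
 22)])) (.mul (.pp [(1, 660)]) (.sq [(1, -78), (2, -100), (3, 56), (5, 97)])))) (.mul (.g 1) (.mul
 (.pp [(1, 35642)]) (.sq [(1, -68), (2, 100), (3, 10), (5, 19)])))))))) (.add (.mul (.g 1) (.add
 (.add (.mul (.pp [(1, 8340)]) (.sq [(1, -100), (2, 55), (3, 49), (5, 43)])) (.mul (.pp [(1,
 111534)]) (.sq [(1, -44), (2, 100), (3, -5), (5, 1)]))) (.add (.mul (.g 0) (.add (.mul (.g 5)
 (.add (.mul (.g 5) (.pp [(1, 202410000)])) (.mul (.g 6) (.pp [(1, 6632490000)])))) (.add (.mul (.g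
 0) (.mul (.g 1) (.pp [(1, 10630000)]))) (.mul (.g 6) (.mul (.g 6) (.pp [(1, 5760000)])))))) (.add
 (.mul (.g 4) (.mul (.pp [(1, 41724)]) (.sq [(1, -100), (2, 32), (3, 63), (5, 63)]))) (.mul (.g 5)
 (.mul (.g 5) (.mul (.g 6) (.pp [(1, 36560000)])))))))) (.mul (.g 5) (.mul (.g 6) (.add (.pp [(1,
 6197540000)]) (.mul (.g 5) (.pp [(1, 1263940000)]))))))) (.pp [(1, 520000), (2, 210176), (3,
 196396), (4, 202800), (5, 218138), (6, 196860), (8, 192524), (9, 214896), (10, 183664), (12,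
 183251), (15, 151148), (16, 205376), (18, 194954), (20, 200232), (24, 215980), (25, 164474), (27,
 186620), (30, 253122), (36, 201088), (40, 211168), (45, 220919), (50, 206882), (54, 204152), (60,
 162100), (75, 260387), (81, 200000), (90, 189642), (100, 182156), (125, 219206), (135, 205202),
 (150, 195890), (225, 175370), (250, 208846), (375, 180376), (625, 195492)]))))
 cCp = true := by decide +kernel

/-- the cycle sum -/
theorem cycA (x y z : ℝ) (hx : 0 ≤ x) (hx1 : x ≤ 1) (hy : 0 ≤ y) (hy1 : y ≤ 1) (hz : 0 ≤ z)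
    (hz1 : z ≤ 1) : BTA x y + BbA y z + BaA z x ≤ 253 / 500 := by
  have h := tree_cert (rules := []) (R := []) (p := (.add (.add (.add (.add (.c (3731)) (.mul (.c
      (3797)) (.v 2))) (.add (.mul (.c (772)) (.v 3)) (.mul (.c (-7714)) (.mul (.v 2) (.v 2)))))
      (.add (.add (.mul (.c (419)) (.v 5)) (.mul (.c (-7984)) (.mul (.v 2) (.v 3)))) (.add (.mul
      (.c (704)) (.mul (.mul (.v 2) (.v 2)) (.v 2))) (.add (.mul (.c (-5652)) (.mul (.v 3) (.v 3)))
      (.mul (.c (-8112)) (.mul (.v 2) (.v 5))))))) (.add (.add (.add (.mul (.c (6741)) (.mul (.mul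
      (.v 2) (.v 2)) (.v 3))) (.mul (.c (-672)) (.mul (.v 3) (.v 5)))) (.add (.mul (.c (4523))
      (.mul (.mul (.v 2) (.v 3)) (.v 3))) (.add (.mul (.c (6980)) (.mul (.mul (.v 2) (.v 2)) (.v
      5))) (.mul (.c (-5395)) (.mul (.v 5) (.v 5)))))) (.add (.add (.mul (.c (1163)) (.mul (.mul
      (.v 3) (.v 3)) (.v 3))) (.mul (.c (2665)) (.mul (.mul (.v 3) (.v 3)) (.v 5)))) (.add (.mul
      (.c (4505)) (.mul (.mul (.v 2) (.v 5)) (.v 5))) (.add (.mul (.c (2319)) (.mul (.mul (.v 3)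
      (.v 5)) (.v 5))) (.mul (.c (1259)) (.mul (.mul (.v 5) (.v 5)) (.v 5))))))))) (gs := cC) (G :=
      cCp) rfl (by decide +kernel) cC_eq tc_A
    (yw_nonneg hx hy hz le_rfl le_rfl le_rfl le_rfl le_rfl le_rfl le_rfl le_rfl)
    (fun _ h => absurd h List.not_mem_nil) (by
      simp only [cC, List.forall_mem_cons, exadd, exmul, exc, exw2, exw3, exw5, exw7, exw11, exw13,
      exw17, exw19, exw23, exw29, exw31]
      push_cast
      refine ⟨?_, ?_, ?_, ?_, ?_, ?_, fun _ h => absurd h List.not_mem_nil⟩ <;> linarith)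
  simp only [exadd, exmul, exc, exw2, exw3, exw5, exw7, exw11, exw13, exw17, exw19, exw23, exw29,
      exw31] at h
  push_cast at h
  unfold BTA BbA BaA
  linarith


theorem phiA : Phi OOA TOA where
  symm x y := by unfold OOA; ring
  zero y := by unfold OOA TOA; ring
  nonneg := by unfold OOA; norm_num
  monoO x y x' y' h1 h2 h3 h4 h5 h6 := by
    have e1 := m_A_OO h1 h2 h3 h4 (h5.trans h6)
    have e2 := m_A_OO h4 h5 h6 (h1.trans h2) h3
    have e3 : OOA y x' = OOA x' y := by unfold OOA; ring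
    have e4 : OOA y' x' = OOA x' y' := by unfold OOA; ring
    linarith
  monoT x y x' y' h1 h2 h3 h4 h5 h6 := by
    have e1 := m_A_TOt h1 h2 h3 h4 (h5.trans h6)
    have e2 := m_A_TOo h4 h5 h6 (h1.trans h2) h3
    linarith

theorem tm_G_OO : chk [] [(1, 1833), (2, 2867), (3, 2867), (4, -1131), (5, 6106), (6, -1131), (8,
 -97), (9, -1131), (10, -9059), (12, -97), (15, -9059), (18, -97), (20, 1658), (25, -9059), (27,
 -97), (30, 1658), (45, 1658), (50, 5360), (75, 5360), (125, 1658)]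
 (.leaf 1000000 (.add (.add (.add (.mul (.pp [(1, 117423)]) (.sq [(1, -100), (2, 15), (3, 33), (5,
 62)])) (.add (.mul (.pp [(1, 59583)]) (.sq [(1, -100), (2, 29), (3, -12), (5, 91)])) (.mul (.g 1)
 (.add (.add (.mul (.pp [(1, 13033)]) (.sq [(1, -13), (2, 100), (3, -13), (5, -13)])) (.mul (.g 2)
 (.add (.add (.pp [(1, 7800000)]) (.mul (.g 1) (.pp [(1, 113700000)]))) (.add (.mul (.g 2) (.pp
 [(1, 125980000)])) (.mul (.g 4) (.pp [(1, 1404420000)])))))) (.add (.mul (.g 4) (.add (.pp [(1,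
 2188040000)]) (.add (.mul (.g 0) (.pp [(1, 90440000)])) (.mul (.g 3) (.pp [(1, 587090000)])))))
 (.mul (.g 0) (.mul (.g 0) (.pp [(1, 117550000)])))))))) (.add (.mul (.g 0) (.add (.add (.mul (.pp
 [(1, 359010)]) (.sq [(1, -100), (2, 20), (3, -9), (5, 97)])) (.mul (.pp [(1, 7396)]) (.sq [(1,
 -100), (2, 13), (3, 13), (5, 88)]))) (.add (.mul (.pp [(1, 26304)]) (.sq [(1, -100), (2, -15), (3,
 34), (5, 89)])) (.mul (.g 2) (.mul (.g 4) (.pp [(1, 3533050000)])))))) (.add (.mul (.g 2) (.add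
 (.mul (.pp [(1, 8438)]) (.sq [(1, -77), (2, 100), (3, 100), (5, -77)])) (.add (.mul (.pp [(1,
 2720)]) (.sq [(1, -68), (2, 100), (3, 100), (5, -99)])) (.mul (.g 3) (.mul (.g 4) (.pp [(1,
 6198860000)])))))) (.mul (.g 3) (.add (.mul (.pp [(1, 159688)]) (.sq [(1, -50), (2, 8), (3, 17),
 (5, 30)])) (.mul (.pp [(1, 191160)]) (.sq [(1, -100), (2, 31), (3, -10), (5, 89)]))))))) (.pp [(1,
 333818), (2, 80177), (3, 93405), (4, 102322), (5, 95916), (6, 123552), (8, 107676), (9, 104047),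
 (10, 117700), (12, 88032), (15, 89886), (18, 91219), (20, 100240), (25, 103543), (27, 97423), (30,
 101422), (45, 107814), (50, 87759), (75, 98085), (125, 102440)])))
 cMp = true := by decide +kernel

theorem m_G_OO {w A B : ℝ} (hw : 0 ≤ w) (hA : w ≤ A) (h1 : A ≤ 1) (hB : 0 ≤ B) (hB1 : B ≤ 1) :
    OOG w B ≤ OOG A B := by
  have h := tree_cert (rules := []) (R := []) (p := (.add (.add (.add (.add (.c (1833)) (.mul (.c
      (2867)) (.v 2))) (.add (.mul (.c (2867)) (.v 3)) (.add (.mul (.c (-1131)) (.mul (.v 2) (.v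
      2))) (.mul (.c (6106)) (.v 5))))) (.add (.add (.mul (.c (-1131)) (.mul (.v 2) (.v 3))) (.mul
      (.c (-97)) (.mul (.mul (.v 2) (.v 2)) (.v 2)))) (.add (.mul (.c (-1131)) (.mul (.v 3) (.v
      3))) (.add (.mul (.c (-9059)) (.mul (.v 2) (.v 5))) (.mul (.c (-97)) (.mul (.mul (.v 2) (.v
      2)) (.v 3))))))) (.add (.add (.add (.mul (.c (-9059)) (.mul (.v 3) (.v 5))) (.mul (.c (-97))
      (.mul (.mul (.v 2) (.v 3)) (.v 3)))) (.add (.mul (.c (1658)) (.mul (.mul (.v 2) (.v 2)) (.v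
      5))) (.add (.mul (.c (-9059)) (.mul (.v 5) (.v 5))) (.mul (.c (-97)) (.mul (.mul (.v 3) (.v
      3)) (.v 3)))))) (.add (.add (.mul (.c (1658)) (.mul (.mul (.v 2) (.v 3)) (.v 5))) (.mul (.c
      (1658)) (.mul (.mul (.v 3) (.v 3)) (.v 5)))) (.add (.mul (.c (5360)) (.mul (.mul (.v 2) (.v
      5)) (.v 5))) (.add (.mul (.c (5360)) (.mul (.mul (.v 3) (.v 5)) (.v 5))) (.mul (.c (1658))
      (.mul (.mul (.v 5) (.v 5)) (.v 5))))))))) (gs := cM) (G := cMp) rfl (by decide +kernel) cM_eq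
      tm_G_OO
    (yw_nonneg hw (hw.trans hA) hB le_rfl le_rfl le_rfl le_rfl le_rfl le_rfl le_rfl le_rfl)
    (fun _ h => absurd h List.not_mem_nil) (by
      simp only [cM, List.forall_mem_cons, exadd, exmul, exc, exw2, exw3, exw5, exw7, exw11, exw13,
      exw17, exw19, exw23, exw29, exw31]
      push_cast
      refine ⟨?_, ?_, ?_, ?_, ?_, fun _ h => absurd h List.not_mem_nil⟩ <;> linarith)
  simp only [exadd, exmul, exc, exw2, exw3, exw5, exw7, exw11, exw13, exw17, exw19, exw23, exw29,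
      exw31] at h
  push_cast at h
  have h2 := mul_nonneg (sub_nonneg.2 hA) h
  unfold OOG
  linarith

theorem tm_G_TOt : chk [] [(1, 1297), (2, 1562), (3, 1562), (4, 1188), (5, 8596), (6, 1188), (8,
 -555), (9, 1188), (10, -10372), (12, -555), (15, -10372), (18, -555), (20, 398), (25, -10800),
 (27, -555), (30, 398), (45, 398), (50, 7210), (75, 7210), (125, 1612)]
 (.leaf 1000000 (.add (.add (.add (.mul (.pp [(1, 107375)]) (.sq [(1, -100), (2, 6), (3, 6), (5,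
 95)])) (.add (.mul (.g 1) (.add (.add (.mul (.pp [(1, 43970)]) (.sq [(1, -39), (2, 100), (3, 48),
 (5, -39)])) (.mul (.g 4) (.add (.add (.pp [(1, 2325660000)]) (.mul (.g 1) (.pp [(1, 118820000)])))
 (.add (.mul (.g 2) (.pp [(1, 104780000)])) (.mul (.g 3) (.pp [(1, 1435210000)])))))) (.add (.mul
 (.g 1) (.add (.mul (.g 1) (.pp [(1, 94110000)])) (.mul (.g 2) (.pp [(1, 274800000)])))) (.add
 (.mul (.g 0) (.mul (.g 0) (.pp [(1, 25100000)]))) (.mul (.g 2) (.mul (.g 2) (.pp [(1,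
 69460000)]))))))) (.mul (.g 0) (.add (.add (.mul (.pp [(1, 118483)]) (.sq [(1, -100), (2, 5), (3,
 5), (5, 98)])) (.mul (.pp [(1, 210164)]) (.sq [(1, -87), (3, -8), (5, 100)]))) (.add (.mul (.pp
 [(1, 852236)]) (.sq [(1, -49), (2, 1), (3, 1), (5, 50)])) (.mul (.g 4) (.mul (.g 4) (.pp [(1,
 161750000)])))))))) (.add (.mul (.g 2) (.add (.add (.mul (.pp [(1, 865888)]) (.sq [(1, -14), (2,
 25), (3, 25), (5, -14)])) (.mul (.pp [(1, 750)]) (.sq [(1, -100), (2, 79), (3, 73), (5, 18)])))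
 (.add (.mul (.pp [(1, 26832)]) (.sq [(1, -11), (2, 50), (5, -11)])) (.mul (.g 3) (.mul (.g 4) (.pp
 [(1, 8441760000)])))))) (.add (.mul (.g 3) (.mul (.pp [(1, 182063)]) (.sq [(1, -100), (2, 7), (3,
 7), (5, 95)]))) (.mul (.g 4) (.mul (.pp [(1, 4222)]) (.sq [(1, -100), (2, 93), (3, 93), (5,
 -86)])))))) (.pp [(1, 569280), (2, 114418), (3, 133150), (4, 93800), (5, 115160), (6, 75704), (8,
 95689), (9, 73752), (10, 93952), (12, 94128), (15, 91912), (18, 130573), (20, 112051), (25,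
 86393), (27, 99870), (30, 93962), (45, 108071), (50, 98736), (75, 96448), (125, 107337)])))
 cMp = true := by decide +kernel

theorem m_G_TOt {w A B : ℝ} (hw : 0 ≤ w) (hA : w ≤ A) (h1 : A ≤ 1) (hB : 0 ≤ B) (hB1 : B ≤ 1) :
    TOG w B ≤ TOG A B := by
  have h := tree_cert (rules := []) (R := []) (p := (.add (.add (.add (.add (.c (1297)) (.mul (.c
      (1562)) (.v 2))) (.add (.mul (.c (1562)) (.v 3)) (.add (.mul (.c (1188)) (.mul (.v 2) (.v
      2))) (.mul (.c (8596)) (.v 5))))) (.add (.add (.mul (.c (1188)) (.mul (.v 2) (.v 3))) (.mul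
      (.c (-555)) (.mul (.mul (.v 2) (.v 2)) (.v 2)))) (.add (.mul (.c (1188)) (.mul (.v 3) (.v
      3))) (.add (.mul (.c (-10372)) (.mul (.v 2) (.v 5))) (.mul (.c (-555)) (.mul (.mul (.v 2) (.v
      2)) (.v 3))))))) (.add (.add (.add (.mul (.c (-10372)) (.mul (.v 3) (.v 5))) (.mul (.c
      (-555)) (.mul (.mul (.v 2) (.v 3)) (.v 3)))) (.add (.mul (.c (398)) (.mul (.mul (.v 2) (.v
      2)) (.v 5))) (.add (.mul (.c (-10800)) (.mul (.v 5) (.v 5))) (.mul (.c (-555)) (.mul (.mul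
      (.v 3) (.v 3)) (.v 3)))))) (.add (.add (.mul (.c (398)) (.mul (.mul (.v 2) (.v 3)) (.v 5)))
      (.mul (.c (398)) (.mul (.mul (.v 3) (.v 3)) (.v 5)))) (.add (.mul (.c (7210)) (.mul (.mul (.v
      2) (.v 5)) (.v 5))) (.add (.mul (.c (7210)) (.mul (.mul (.v 3) (.v 5)) (.v 5))) (.mul (.c
      (1612)) (.mul (.mul (.v 5) (.v 5)) (.v 5))))))))) (gs := cM) (G := cMp) rfl
      (by decide +kernel) cM_eq tm_G_TOt
    (yw_nonneg hw (hw.trans hA) hB le_rfl le_rfl le_rfl le_rfl le_rfl le_rfl le_rfl le_rfl)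
    (fun _ h => absurd h List.not_mem_nil) (by
      simp only [cM, List.forall_mem_cons, exadd, exmul, exc, exw2, exw3, exw5, exw7, exw11, exw13,
      exw17, exw19, exw23, exw29, exw31]
      push_cast
      refine ⟨?_, ?_, ?_, ?_, ?_, fun _ h => absurd h List.not_mem_nil⟩ <;> linarith)
  simp only [exadd, exmul, exc, exw2, exw3, exw5, exw7, exw11, exw13, exw17, exw19, exw23, exw29,
      exw31] at h
  push_cast at h
  have h2 := mul_nonneg (sub_nonneg.2 hA) h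
  unfold TOG
  linarith

theorem tm_G_TOo : chk [] [(1, 1833), (2, 2867), (3, 2867), (4, -1131), (5, 8596), (6, -1131), (8,
 -97), (9, -1131), (10, -10800), (12, -97), (15, -10800), (18, -97), (20, 1612), (25, -10372), (27,
 -97), (30, 1612), (45, 1612), (50, 7210), (75, 7210), (125, 398)]
 (.leaf 1000000 (.add (.add (.add (.mul (.pp [(1, 317456)]) (.sq [(1, -50), (2, 3), (3, 3), (5,
 49)])) (.add (.mul (.pp [(1, 45822)]) (.sq [(1, -100), (2, 14), (3, 14), (5, 83)])) (.mul (.g 1)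
 (.add (.add (.mul (.pp [(1, 4343)]) (.sq [(1, -67), (2, 100), (3, 79), (5, -67)])) (.mul (.pp [(1,
 7453)]) (.sq [(1, -29), (2, 100), (3, 10), (5, -29)]))) (.add (.mul (.g 4) (.add (.add (.pp [(1,
 1887130000)]) (.mul (.g 0) (.pp [(1, 771190000)]))) (.add (.mul (.g 2) (.pp [(1, 1390390000)]))
 (.mul (.g 3) (.pp [(1, 3868940000)]))))) (.mul (.g 1) (.add (.mul (.g 1) (.pp [(1, 28110000)]))
 (.add (.mul (.g 2) (.pp [(1, 29350000)])) (.mul (.g 3) (.pp [(1, 51180000)])))))))))) (.add (.add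
 (.mul (.g 2) (.add (.add (.mul (.pp [(1, 10099)]) (.sq [(1, -46), (2, 76), (3, 100), (5, -87)]))
 (.mul (.pp [(1, 22614)]) (.sq [(1, -33), (2, 100), (3, 5), (5, -57)]))) (.add (.mul (.g 4) (.add
 (.mul (.g 0) (.pp [(1, 2815520000)])) (.mul (.g 3) (.pp [(1, 10861510000)])))) (.mul (.g 2) (.mul
 (.g 2) (.pp [(1, 22160000)])))))) (.mul (.g 0) (.add (.mul (.pp [(1, 437632)]) (.sq [(1, -46), (2,
 1), (3, 1), (5, 50)])) (.mul (.pp [(1, 287204)]) (.sq [(1, -100), (2, 13), (3, 13), (5, 82)])))))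
 (.add (.mul (.g 3) (.mul (.pp [(1, 3557150)]) (.sq [(1, -20), (2, 3), (3, 3), (5, 16)]))) (.mul
 (.g 4) (.mul (.g 4) (.mul (.g 4) (.pp [(1, 512730000)]))))))) (.pp [(1, 253870), (2, 97396), (3,
 104250), (4, 98904), (5, 93336), (6, 98566), (8, 94892), (9, 90752), (10, 104584), (12, 107008),
 (15, 117052), (18, 98255), (20, 109922), (25, 104169), (27, 105387), (30, 86258), (45, 100808),
 (50, 97604), (75, 92117), (125, 99600)])))
 cMp = true := by decide +kernel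

theorem m_G_TOo {w A B : ℝ} (hw : 0 ≤ w) (hA : w ≤ A) (h1 : A ≤ 1) (hB : 0 ≤ B) (hB1 : B ≤ 1) :
    TOG B w ≤ TOG B A := by
  have h := tree_cert (rules := []) (R := []) (p := (.add (.add (.add (.add (.c (1833)) (.mul (.c
      (2867)) (.v 2))) (.add (.mul (.c (2867)) (.v 3)) (.add (.mul (.c (-1131)) (.mul (.v 2) (.v
      2))) (.mul (.c (8596)) (.v 5))))) (.add (.add (.mul (.c (-1131)) (.mul (.v 2) (.v 3))) (.mul
      (.c (-97)) (.mul (.mul (.v 2) (.v 2)) (.v 2)))) (.add (.mul (.c (-1131)) (.mul (.v 3) (.v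
      3))) (.add (.mul (.c (-10800)) (.mul (.v 2) (.v 5))) (.mul (.c (-97)) (.mul (.mul (.v 2) (.v
      2)) (.v 3))))))) (.add (.add (.add (.mul (.c (-10800)) (.mul (.v 3) (.v 5))) (.mul (.c (-97))
      (.mul (.mul (.v 2) (.v 3)) (.v 3)))) (.add (.mul (.c (1612)) (.mul (.mul (.v 2) (.v 2)) (.v
      5))) (.add (.mul (.c (-10372)) (.mul (.v 5) (.v 5))) (.mul (.c (-97)) (.mul (.mul (.v 3) (.v
      3)) (.v 3)))))) (.add (.add (.mul (.c (1612)) (.mul (.mul (.v 2) (.v 3)) (.v 5))) (.mul (.c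
      (1612)) (.mul (.mul (.v 3) (.v 3)) (.v 5)))) (.add (.mul (.c (7210)) (.mul (.mul (.v 2) (.v
      5)) (.v 5))) (.add (.mul (.c (7210)) (.mul (.mul (.v 3) (.v 5)) (.v 5))) (.mul (.c (398))
      (.mul (.mul (.v 5) (.v 5)) (.v 5))))))))) (gs := cM) (G := cMp) rfl (by decide +kernel) cM_eq
      tm_G_TOo
    (yw_nonneg hw (hw.trans hA) hB le_rfl le_rfl le_rfl le_rfl le_rfl le_rfl le_rfl le_rfl)
    (fun _ h => absurd h List.not_mem_nil) (by
      simp only [cM, List.forall_mem_cons, exadd, exmul, exc, exw2, exw3, exw5, exw7, exw11, exw13,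
      exw17, exw19, exw23, exw29, exw31]
      push_cast
      refine ⟨?_, ?_, ?_, ?_, ?_, fun _ h => absurd h List.not_mem_nil⟩ <;> linarith)
  simp only [exadd, exmul, exc, exw2, exw3, exw5, exw7, exw11, exw13, exw17, exw19, exw23, exw29,
      exw31] at h
  push_cast at h
  have h2 := mul_nonneg (sub_nonneg.2 hA) h
  unfold TOG
  linarith

theorem tc_G : chk [] [(1, 3239), (2, 1955), (3, -872), (4, -12055), (5, -654), (6, -7801), (8,
 9901), (9, -4394), (10, -11464), (12, 10267), (15, 1570), (16, -2936), (18, 9704), (20, 16174),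
 (24, -1969), (25, -5317), (27, 1812), (36, -4804), (40, -4790), (45, 3135), (50, 14443), (54,
 -2116), (75, -1130), (81, 233), (100, -7213), (125, 2607), (135, -1313), (225, -64), (250, -4039),
 (375, 1136), (625, 167)]
 (.split [(1, -1), (2, 2)]
 (.leaf 1000000 (.add (.add (.add (.mul (.pp [(1, 42724)]) (.sq [(1, -50), (2, 37), (3, 24), (5,
 24)])) (.add (.mul (.g 4) (.add (.add (.mul (.pp [(1, 140947)]) (.sq [(1, -100), (2, 62), (3, 61),
 (5, 46)])) (.add (.mul (.pp [(1, 50056)]) (.sq [(1, -50), (2, -3), (3, 44), (5, 44)])) (.mul (.g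
 3) (.add (.add (.mul (.pp [(1, 20192)]) (.sq [(1, -72), (2, 29), (3, 1), (5, 100)])) (.mul (.pp
 [(1, 144840)]) (.sq [(1, -97), (2, -1), (3, 44), (5, 100)]))) (.add (.mul (.pp [(1, 362136)]) (.sq
 [(1, -100), (2, 63), (3, 26), (5, 66)])) (.mul (.g 0) (.add (.mul (.g 0) (.pp [(1, 563822500)]))
 (.mul (.g 3) (.pp [(1, 406145000)]))))))))) (.add (.add (.mul (.g 1) (.add (.add (.mul (.pp [(1,
 84496)]) (.sq [(1, -100), (2, 88), (3, 35), (5, 44)])) (.mul (.pp [(1, 102343)]) (.sq [(1, -94),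
 (2, -8), (3, 100), (5, 65)]))) (.add (.mul (.pp [(1, 762972)]) (.sq [(1, -50), (2, 42), (3, 25),
 (5, 20)])) (.mul (.pp [(1, 648800000)]) (.sq [(1, -1), (3, 1), (5, 1)]))))) (.mul (.g 0) (.add
 (.mul (.g 0) (.mul (.g 0) (.pp [(1, 23821250)]))) (.mul (.g 4) (.mul (.g 4) (.pp [(1,
 369380000)])))))) (.add (.mul (.g 6) (.add (.mul (.pp [(1, 59667)]) (.sq [(1, -77), (2, -33), (3,
 100), (5, 47)])) (.mul (.g 5) (.mul (.g 6) (.pp [(1, 580930000)]))))) (.mul (.g 2) (.mul (.pp [(1,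
 83569)]) (.sq [(1, -100), (2, 11), (3, 95), (5, 60)]))))))) (.mul (.g 2) (.add (.add (.mul (.pp
 [(1, 17908)]) (.sq [(1, -100), (2, 81), (3, 41), (5, 53)])) (.mul (.g 2) (.add (.mul (.pp [(1,
 2890)]) (.sq [(1, -52), (2, -42), (3, 100), (5, 25)])) (.add (.mul (.pp [(1, 422376)]) (.sq [(1,
 -50), (2, 23), (3, 38), (5, 6)])) (.mul (.g 0) (.mul (.g 3) (.pp [(1, 867435000)]))))))) (.add
 (.mul (.g 3) (.add (.mul (.pp [(1, 100828)]) (.sq [(1, -100), (2, 99), (3, 9), (5, 57)])) (.mul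
 (.g 0) (.mul (.g 0) (.pp [(1, 245690000)]))))) (.mul (.g 5) (.add (.mul (.pp [(1, 259450)]) (.sq
 [(1, -100), (2, 89), (3, 30), (5, 57)])) (.mul (.pp [(1, 103581)]) (.sq [(1, -100), (2, 73), (3,
 46), (5, 65)]))))))))) (.add (.mul (.g 3) (.add (.mul (.g 3) (.add (.mul (.pp [(1, 5743)]) (.sq
 [(1, -43), (2, 100), (3, 94), (5, -66)])) (.mul (.pp [(1, 46903)]) (.sq [(1, -91), (2, 34), (3,
 100), (5, 55)])))) (.add (.mul (.g 0) (.mul (.pp [(1, 2743825)]) (.sq [(1, -17), (2, 17), (3,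
 20)]))) (.mul (.g 5) (.mul (.pp [(1, 18638)]) (.sq [(1, -45), (2, 47), (3, 100), (5, -8)]))))))
 (.add (.mul (.g 6) (.add (.add (.mul (.pp [(1, 23453)]) (.sq [(1, -100), (2, 76), (3, 45), (5,
 48)])) (.mul (.g 0) (.mul (.pp [(1, 36549)]) (.sq [(1, -67), (2, 50), (3, 23), (5, 100)])))) (.add
 (.mul (.g 1) (.mul (.pp [(1, 427624)]) (.sq [(1, -50), (2, 41), (3, 23), (5, 27)]))) (.mul (.g 5)
 (.mul (.pp [(1, 98048)]) (.sq [(1, -100), (2, 81), (3, 45), (5, 61)])))))) (.mul (.g 5) (.mul (.g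
 5) (.add (.mul (.pp [(1, 4415)]) (.sq [(1, -14), (2, 10), (3, 100), (5, -31)])) (.mul (.pp [(1,
 390)]) (.sq [(1, -75), (2, 57), (3, -82), (5, 100)])))))))) (.pp [(1, 2084978), (2, 99929), (3,
 87362), (4, 89213), (5, 94995), (6, 103068), (8, 104479), (9, 107459), (10, 104829), (12, 109212),
 (15, 114572), (16, 99584), (18, 94883), (20, 101690), (24, 99609), (25, 90714), (27, 100551), (30,
 89210), (36, 97435), (40, 100091), (45, 77888), (50, 96444), (54, 101693), (60, 100162), (75,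
 107191), (81, 99092), (90, 102604), (100, 107509), (125, 111237), (135, 114656), (150, 109840),
 (225, 99178), (250, 88289), (375, 92196), (625, 101917)])))
 (.leaf 2000000 (.add (.add (.add (.mul (.g 5) (.add (.add (.mul (.g 5) (.add (.add (.mul (.pp [(1,
 44432)]) (.sq [(1, 41), (2, -92), (3, 100), (5, -58)])) (.mul (.pp [(1, 37096)]) (.sq [(1, -7),
 (2, 100), (3, -85), (5, 11)]))) (.add (.mul (.pp [(1, 3554)]) (.sq [(1, 3), (2, 96), (3, -100),
 (5, 3)])) (.add (.mul (.pp [(1, 4540)]) (.sq [(1, -89), (2, 100), (3, -55), (5, 84)])) (.mul (.g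
 6) (.add (.mul (.g 0) (.pp [(1, 542120000)])) (.mul (.g 6) (.pp [(1, 511740000)])))))))) (.mul (.g
 2) (.add (.mul (.pp [(1, 26666)]) (.sq [(1, -84), (2, 100), (3, 21), (5, 53)])) (.add (.mul (.pp
 [(1, 32706)]) (.sq [(1, -100), (2, 32), (3, 29), (5, 84)])) (.mul (.pp [(1, 812876)]) (.sq [(1,
 -89), (2, 100), (3, 21), (5, 53)])))))) (.add (.mul (.g 0) (.mul (.pp [(1, 923700)]) (.sq [(1,
 -5), (2, 20), (3, -6), (5, 4)]))) (.add (.mul (.g 3) (.mul (.pp [(1, 132712)]) (.sq [(1, -100),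
 (2, 5), (3, 37), (5, 91)]))) (.mul (.g 4) (.mul (.pp [(1, 449502)]) (.sq [(1, -100), (2, -1), (3,
 26), (5, 96)]))))))) (.mul (.g 1) (.add (.add (.mul (.pp [(1, 124646)]) (.sq [(1, -100), (2, 95),
 (3, 46), (5, 52)])) (.mul (.g 6) (.add (.add (.mul (.pp [(1, 8802)]) (.sq [(1, -53), (2, 100), (3,
 5), (5, 17)])) (.mul (.pp [(1, 159870)]) (.sq [(1, -100), (2, 64), (3, 67), (5, 42)]))) (.add
 (.mul (.pp [(1, 2042080)]) (.sq [(1, -14), (2, 25), (5, 11)])) (.mul (.g 0) (.mul (.g 6) (.pp [(1,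
 16260000)]))))))) (.add (.mul (.g 0) (.add (.mul (.pp [(1, 14440)]) (.sq [(1, -41), (2, 100), (3,
 -41), (5, 68)])) (.mul (.pp [(1, 81933)]) (.sq [(1, -32), (2, 100), (3, -13), (5, 20)])))) (.add
 (.mul (.g 4) (.add (.mul (.pp [(1, 108284)]) (.sq [(1, -100), (2, 93), (3, 47), (5, 53)])) (.mul
 (.pp [(1, 835606)]) (.sq [(1, -100), (2, 60), (3, 56), (5, 59)])))) (.mul (.g 2) (.mul (.pp [(1,
 154202)]) (.sq [(1, -100), (2, 89), (3, 47), (5, 52)])))))))) (.add (.mul (.g 3) (.add (.add (.mul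
 (.g 2) (.add (.mul (.pp [(1, 714690)]) (.sq [(1, -100), (2, 51), (3, 43), (5, 70)])) (.add (.mul
 (.pp [(1, 257304)]) (.sq [(1, -100), (2, 92), (3, 37), (5, 66)])) (.mul (.pp [(1, 11900)]) (.sq
 [(1, -100), (2, 60), (3, 49), (5, 69)]))))) (.mul (.g 0) (.add (.mul (.pp [(1, 216292)]) (.sq [(1,
 -100), (2, 29), (3, 29), (5, 86)])) (.mul (.pp [(1, 74592)]) (.sq [(1, -100), (2, -5), (3, 33),
 (5, 97)]))))) (.add (.mul (.g 3) (.add (.mul (.pp [(1, 53264)]) (.sq [(1, -100), (2, 16), (3, 38),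
 (5, 89)])) (.mul (.pp [(1, 56718)]) (.sq [(1, -100), (2, -2), (3, 21), (5, 99)])))) (.mul (.g 6)
 (.add (.mul (.pp [(1, 232280)]) (.sq [(1, -100), (2, 83), (3, 49), (5, 50)])) (.mul (.pp [(1,
 523010)]) (.sq [(1, -80), (2, 100), (3, 63), (5, 11)]))))))) (.add (.mul (.g 2) (.add (.mul (.g 6)
 (.add (.mul (.pp [(1, 153818)]) (.sq [(1, -97), (2, 27), (3, 100), (5, 14)])) (.mul (.pp [(1,
 13742)]) (.sq [(1, -100), (2, 64), (3, 76), (5, 29)])))) (.mul (.g 2) (.mul (.pp [(1, 22706)])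
 (.sq [(1, -100), (2, 69), (3, 67), (5, 42)]))))) (.mul (.g 0) (.mul (.g 6) (.mul (.pp [(1,
 80852)]) (.sq [(1, -99), (2, 72), (3, 100), (5, -6)]))))))) (.pp [(1, 1095826), (2, 200390), (3,
 192450), (4, 182658), (5, 190160), (6, 215904), (8, 232652), (9, 200034), (10, 198062), (12,
 196788), (15, 222066), (16, 189916), (18, 189135), (20, 209748), (24, 179904), (25, 194982), (27,
 199816), (30, 184660), (36, 218144), (40, 192880), (45, 195762), (50, 203952), (54, 194690), (60,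
 190504), (75, 192412), (81, 204434), (90, 217756), (100, 200914), (125, 224630), (135, 191110),
 (150, 196484), (225, 208064), (250, 198770), (375, 193018), (625, 186948)]))))
 cCp = true := by decide +kernel

/-- the cycle sum -/
theorem cycG (x y z : ℝ) (hx : 0 ≤ x) (hx1 : x ≤ 1) (hy : 0 ≤ y) (hy1 : y ≤ 1) (hz : 0 ≤ z)
    (hz1 : z ≤ 1) : BTG x y + BbG y z + BaG z x ≤ 91 / 250 := by
  have h := tree_cert (rules := []) (R := []) (p := (.add (.add (.add (.add (.c (3239)) (.add (.mul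
      (.c (1955)) (.v 2)) (.mul (.c (-872)) (.v 3)))) (.add (.add (.mul (.c (-12055)) (.mul (.v 2)
      (.v 2))) (.mul (.c (-654)) (.v 5))) (.add (.mul (.c (-7801)) (.mul (.v 2) (.v 3))) (.mul (.c
      (9901)) (.mul (.mul (.v 2) (.v 2)) (.v 2)))))) (.add (.add (.add (.mul (.c (-4394)) (.mul (.v
      3) (.v 3))) (.mul (.c (-11464)) (.mul (.v 2) (.v 5)))) (.add (.mul (.c (10267)) (.mul (.mul
      (.v 2) (.v 2)) (.v 3))) (.mul (.c (1570)) (.mul (.v 3) (.v 5))))) (.add (.add (.mul (.c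
      (-2936)) (.mul (.mul (.mul (.v 2) (.v 2)) (.v 2)) (.v 2))) (.mul (.c (9704)) (.mul (.mul (.v
      2) (.v 3)) (.v 3)))) (.add (.mul (.c (16174)) (.mul (.mul (.v 2) (.v 2)) (.v 5))) (.mul (.c
      (-1969)) (.mul (.mul (.mul (.v 2) (.v 2)) (.v 2)) (.v 3))))))) (.add (.add (.add (.add (.mul
      (.c (-5317)) (.mul (.v 5) (.v 5))) (.mul (.c (1812)) (.mul (.mul (.v 3) (.v 3)) (.v 3))))
      (.add (.mul (.c (-4804)) (.mul (.mul (.mul (.v 2) (.v 2)) (.v 3)) (.v 3))) (.mul (.c (-4790))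
      (.mul (.mul (.mul (.v 2) (.v 2)) (.v 2)) (.v 5))))) (.add (.add (.mul (.c (3135)) (.mul (.mul
      (.v 3) (.v 3)) (.v 5))) (.mul (.c (14443)) (.mul (.mul (.v 2) (.v 5)) (.v 5)))) (.add (.mul
      (.c (-2116)) (.mul (.mul (.mul (.v 2) (.v 3)) (.v 3)) (.v 3))) (.mul (.c (-1130)) (.mul (.mul
      (.v 3) (.v 5)) (.v 5)))))) (.add (.add (.add (.mul (.c (233)) (.mul (.mul (.mul (.v 3) (.v
      3)) (.v 3)) (.v 3))) (.mul (.c (-7213)) (.mul (.mul (.mul (.v 2) (.v 2)) (.v 5)) (.v 5))))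
      (.add (.mul (.c (2607)) (.mul (.mul (.v 5) (.v 5)) (.v 5))) (.mul (.c (-1313)) (.mul (.mul
      (.mul (.v 3) (.v 3)) (.v 3)) (.v 5))))) (.add (.add (.mul (.c (-64)) (.mul (.mul (.mul (.v 3)
      (.v 3)) (.v 5)) (.v 5))) (.mul (.c (-4039)) (.mul (.mul (.mul (.v 2) (.v 5)) (.v 5)) (.v
      5)))) (.add (.mul (.c (1136)) (.mul (.mul (.mul (.v 3) (.v 5)) (.v 5)) (.v 5))) (.mul (.c
      (167)) (.mul (.mul (.mul (.v 5) (.v 5)) (.v 5)) (.v 5))))))))) (gs := cC) (G := cCp) rfl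
      (by decide +kernel) cC_eq tc_G
    (yw_nonneg hx hy hz le_rfl le_rfl le_rfl le_rfl le_rfl le_rfl le_rfl le_rfl)
    (fun _ h => absurd h List.not_mem_nil) (by
      simp only [cC, List.forall_mem_cons, exadd, exmul, exc, exw2, exw3, exw5, exw7, exw11, exw13,
      exw17, exw19, exw23, exw29, exw31]
      push_cast
      refine ⟨?_, ?_, ?_, ?_, ?_, ?_, fun _ h => absurd h List.not_mem_nil⟩ <;> linarith)
  simp only [exadd, exmul, exc, exw2, exw3, exw5, exw7, exw11, exw13, exw17, exw19, exw23, exw29,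
      exw31] at h
  push_cast at h
  unfold BTG BbG BaG
  linarith


theorem phiG : Phi OOG TOG where
  symm x y := by unfold OOG; ring
  zero y := by unfold OOG TOG; ring
  nonneg := by unfold OOG; norm_num
  monoO x y x' y' h1 h2 h3 h4 h5 h6 := by
    have e1 := m_G_OO h1 h2 h3 h4 (h5.trans h6)
    have e2 := m_G_OO h4 h5 h6 (h1.trans h2) h3
    have e3 : OOG y x' = OOG x' y := by unfold OOG; ring
    have e4 : OOG y' x' = OOG x' y' := by unfold OOG; ring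
    linarith
  monoT x y x' y' h1 h2 h3 h4 h5 h6 := by
    have e1 := m_G_TOt h1 h2 h3 h4 (h5.trans h6)
    have e2 := m_G_TOo h4 h5 h6 (h1.trans h2) h3
    linarith

end Pool.Agent.Helper62.TW
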