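import Pool.Agent.Helper62.TW.Fam
import Pool.Agent.Helper62.TW.Mono
import Pool.Agent.Helper95.TS.TwoLowEnd
import Pool.Agent.Helper59.TS.ConfCol

/-!
# The cells of the two classes
-/

set_option autoImplicit false

namespace Pool.Agent.Helper62.TW

open Pool.Agent.Helper51.TS Pool.Agent.Helper74.TS Pool.Agent.Helper95.TS

section

variable {w A B g : ℝ}

theorem Cell.swap (hc : Cell w A B) : Cell w B A :=
  ⟨hc.w0, hc.w1, hc.B0, hc.A0, by linarith [hc.lo], by linarith [hc.hi]⟩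

theorem gainT_swap (h : GainT w A B g) : GainT w B A g := by
  unfold GainT at *
  rw [vl_comm w B A, show 1 + w - B - A = 1 + w - A - B by ring]
  rcases h with h | ⟨h1, h2⟩ | ⟨h1, h2⟩
  · exact Or.inl h
  · exact Or.inr (Or.inr ⟨h1, by linarith⟩)
  · exact Or.inr (Or.inl ⟨h1, by linarith⟩)

theorem gainT_a (h : GainT w A B g) : GainTa w A B g ∨ GainTa w B A g := by
  unfold GainT at h
  unfold GainTa
  rw [vl_comm w B A, show 1 + w - B - A = 1 + w - A - B by ring]
  rcases h with h | ⟨h1, h2⟩ | ⟨h1, h2⟩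
  · exact Or.inl (Or.inl h)
  · exact Or.inl (Or.inr ⟨h1, h2⟩)
  · exact Or.inr (Or.inr ⟨h1, by linarith⟩)

/-- the `T` cell -/
theorem tcell_A (hc : Cell w A B) (h : GainT w A B g) (hg : 0 < g) :
    TCell OOA TOA BTA (253 / 500) w (1 - A) (1 - B) g := by
  have hs := gainT_swap h
  have hcs := hc.swap
  have s1 := hc.hi
  have s2 := hc.w1
  refine ⟨hc.w0.le, hc.w1, by linarith [hc.A0], by linarith [hc.B0], ?_, fun t h0 h1 => ?_,
    fun t h0 h1 => ?_, ?_, fun t h0 h1 => ?_, fun t h0 h1 => ?_⟩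
  · rcases le_total A 1 with h1 | h1
    · exact Or.inl (by linarith)
    · exact Or.inr (by linarith)
  · exact fam_A_T2 hc h0 hg.le h (by linarith)
  · exact fam_A_T2 hcs h0 hg.le hs (by linarith)
  · rcases le_total A 1 with h1 | h1
    · rcases le_total B 1 with h2 | h2
      · rw [max_eq_left (by linarith : 0 ≤ 1 - A), max_eq_left (by linarith : 0 ≤ 1 - B)]
        rcases gainT_a h with h3 | h3
        · exact fam_A_T4a hc (le_refl (0 : ℝ)) hg.le h3 h1 h2
        · rw [phiA.symm]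
          exact fam_A_T4a hcs (le_refl (0 : ℝ)) hg.le h3 h2 h1
      · rw [max_eq_left (by linarith : 0 ≤ 1 - A), max_eq_right (by linarith : 1 - B ≤ 0),
          phiA.symm]
        exact fam_A_T4b hcs (le_refl (0 : ℝ)) hg.le hs h2 h1
    · rw [max_eq_right (by linarith : 1 - A ≤ 0), max_eq_left (by linarith : 0 ≤ 1 - B)]
      exact fam_A_T4b hc (le_refl (0 : ℝ)) hg.le h h1 (by linarith)
  · exact fam_A_T6 hc h0 hg.le h (by linarith)
  · exact fam_A_T6 hcs h0 hg.le hs (by linarith)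

/-- the `O` cell -/
theorem ocell_A (hc : Cell w A B) (h : GainC w A B g) (hg : 0 < g) :
    OCell OOA TOA BaA BbA (253 / 500) w (1 - A) (1 - B) g := by
  have s1 := hc.hi
  have s2 := hc.w1
  refine ⟨hc.w0.le, hc.w1, by linarith [hc.A0], by linarith [hc.B0], ?_, fun t h0 h1 => ?_,
    fun t h0 h1 => ?_, ?_, fun t h0 h1 => ?_, fun t h0 h1 => ?_⟩
  · rcases le_total A 1 with h1 | h1
    · exact Or.inl (by linarith)
    · exact Or.inr (by linarith)
  · exact fam_A_F1 hc h0 hg.le h (by linarith)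
  · exact fam_A_F3 hc h0 hg.le h (by linarith)
  · rcases le_total A 1 with h1 | h1
    · rcases le_total B 1 with h2 | h2
      · rw [max_eq_left (by linarith : 0 ≤ 1 - A), max_eq_left (by linarith : 0 ≤ 1 - B)]
        exact fam_A_F5a hc (le_refl (0 : ℝ)) hg.le h h1 h2
      · rw [max_eq_left (by linarith : 0 ≤ 1 - A), max_eq_right (by linarith : 1 - B ≤ 0)]
        exact fam_A_F5c hc (le_refl (0 : ℝ)) hg.le h h1 h2
    · rw [max_eq_right (by linarith : 1 - A ≤ 0), max_eq_left (by linarith : 0 ≤ 1 - B)]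
      exact fam_A_F5b hc (le_refl (0 : ℝ)) hg.le h h1 (by linarith)
  · exact fam_A_F7 hc h0 hg.le h (by linarith)
  · exact fam_A_F8 hc h0 hg.le h (by linarith)

/-- the `T` cell -/
theorem tcell_G (hc : Cell w A B) (h : GainT w A B g) (hg : 0 < g) :
    TCell OOG TOG BTG (91 / 250) w (1 - A) (1 - B) g := by
  have hs := gainT_swap h
  have hcs := hc.swap
  have s1 := hc.hi
  have s2 := hc.w1
  refine ⟨hc.w0.le, hc.w1, by linarith [hc.A0], by linarith [hc.B0], ?_, fun t h0 h1 => ?_,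
    fun t h0 h1 => ?_, ?_, fun t h0 h1 => ?_, fun t h0 h1 => ?_⟩
  · rcases le_total A 1 with h1 | h1
    · exact Or.inl (by linarith)
    · exact Or.inr (by linarith)
  · exact fam_G_T2 hc h0 hg.le h (by linarith)
  · exact fam_G_T2 hcs h0 hg.le hs (by linarith)
  · rcases le_total A 1 with h1 | h1
    · rcases le_total B 1 with h2 | h2
      · rw [max_eq_left (by linarith : 0 ≤ 1 - A), max_eq_left (by linarith : 0 ≤ 1 - B)]
        rcases gainT_a h with h3 | h3
        · exact fam_G_T4a hc (le_refl (0 : ℝ)) hg.le h3 h1 h2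
        · rw [phiG.symm]
          exact fam_G_T4a hcs (le_refl (0 : ℝ)) hg.le h3 h2 h1
      · rw [max_eq_left (by linarith : 0 ≤ 1 - A), max_eq_right (by linarith : 1 - B ≤ 0),
          phiG.symm]
        exact fam_G_T4b hcs (le_refl (0 : ℝ)) hg.le hs h2 h1
    · rw [max_eq_right (by linarith : 1 - A ≤ 0), max_eq_left (by linarith : 0 ≤ 1 - B)]
      exact fam_G_T4b hc (le_refl (0 : ℝ)) hg.le h h1 (by linarith)
  · exact fam_G_T6 hc h0 hg.le h (by linarith)
  · exact fam_G_T6 hcs h0 hg.le hs (by linarith)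

/-- the `O` cell -/
theorem ocell_G (hc : Cell w A B) (hB : B ≤ 1) (h : GainC w A B g) (hg : 0 < g) :
    OCell OOG TOG BaG BbG (91 / 250) w (1 - A) (1 - B) g := by
  have s1 := hc.hi
  have s2 := hc.w1
  refine ⟨hc.w0.le, hc.w1, by linarith [hc.A0], by linarith [hc.B0], ?_, fun t h0 h1 => ?_,
    fun t h0 h1 => ?_, ?_, fun t h0 h1 => ?_, fun t h0 h1 => ?_⟩
  · rcases le_total A 1 with h1 | h1
    · exact Or.inl (by linarith)
    · exact Or.inr (by linarith)
  · exact fam_G_F1 hc h0 hg.le h (by linarith) hB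
  · exact fam_G_F3 hc h0 hg.le h (by linarith) hB
  · rcases le_total A 1 with h1 | h1
    · rw [max_eq_left (by linarith : 0 ≤ 1 - A), max_eq_left (by linarith : 0 ≤ 1 - B)]
      exact fam_G_F5a hc (le_refl (0 : ℝ)) hg.le h h1 hB
    · rw [max_eq_right (by linarith : 1 - A ≤ 0), max_eq_left (by linarith : 0 ≤ 1 - B)]
      exact fam_G_F5b hc (le_refl (0 : ℝ)) hg.le h h1 (by linarith)
  · exact fam_G_F7 hc h0 hg.le h (by linarith) hB
  · exact fam_G_F8 hc h0 hg.le h (by linarith) hB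

end

theorem certA : CertA :=
  ⟨phiA, cycA, fun _ _ _ _ hc h hg => tcell_A hc h hg, fun _ _ _ _ hc h hg => ocell_A hc h hg⟩

theorem certG : CertG :=
  ⟨phiG, cycG, fun _ _ _ _ hc h hg => tcell_G hc h hg,
    fun _ _ _ _ hc hB h hg => ocell_G hc hB h hg⟩

/-- **`CaseTwoLow` from the case `S` nonempty.** -/
theorem caseTwoLow_of_NE (hne : Pool.Agent.Helper90.TS.TwoLowNE) :
    Pool.Agent.Helper84.TS.CaseTwoLow :=
  caseTwoLow_end certA certG (Pool.Agent.Helper59.TS.colO2_of fun _ _ _ _ h => h) hne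

end Pool.Agent.Helper62.TW
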