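import Pool.Agent.Helper62.TW.Pot

/-!
# Facts on the losses and own terms behind the rules of the case trees
-/

set_option autoImplicit false

namespace Pool.Agent.Helper62.TW

open Pool.Agent.Helper51.TS Pool.Agent.Helper74.TS Pool.Agent.Helper95.TS

theorem pos3 (x : ℝ) : 0 ≤ (max x 0) ^ 3 := pow_nonneg (le_max_right _ _) 3

/-- the two cubes are at most `w ^ 3` -/
theorem cubes_le {w A B : ℝ} (w0 : 0 ≤ w) (A0 : 0 ≤ A) (B0 : 0 ≤ B) (lo : w ≤ A + B) :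
    (max (w - A) 0) ^ 3 + (max (w - B) 0) ^ 3 ≤ w ^ 3 := by
  have a1 : 0 ≤ max (w - A) 0 := le_max_right _ _
  have b1 : 0 ≤ max (w - B) 0 := le_max_right _ _
  have s : max (w - A) 0 + max (w - B) 0 ≤ w := by
    rcases le_total (w - A) 0 with h | h <;> rcases le_total (w - B) 0 with h' | h'
    · rw [max_eq_right h, max_eq_right h']; linarith
    · rw [max_eq_right h, max_eq_left h']; linarith
    · rw [max_eq_left h, max_eq_right h']; linarith
    · rw [max_eq_left h, max_eq_left h']; linarith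
  calc (max (w - A) 0) ^ 3 + (max (w - B) 0) ^ 3
      ≤ (max (w - A) 0 + max (w - B) 0) ^ 3 := by
        nlinarith [mul_nonneg (mul_nonneg a1 b1) (add_nonneg a1 b1)]
    _ ≤ w ^ 3 := pow_le_pow_left₀ (add_nonneg a1 b1) s 3

/-- one cube -/
theorem cube_le {w A : ℝ} (w0 : 0 ≤ w) (A0 : 0 ≤ A) :
    (max (w - A) 0) ^ 3 ≤ w * (w - A) ^ 2 := by
  rcases le_total (w - A) 0 with h | h
  · rw [max_eq_right h]
    have := mul_nonneg w0 (sq_nonneg (w - A))
    norm_num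
    exact this
  · rw [max_eq_left h]
    have := mul_nonneg A0 (sq_nonneg (w - A))
    nlinarith

/-! ### Losses -/

theorem LO_1 {A : ℝ} (h : 7 / 50 ≤ A) (h' : A ≤ 69 / 100) : (A - 7 / 50) ^ 2 / 2 ≤ LO A := by
  unfold LO
  rcases eq_or_lt_of_le h with h1 | h1
  · rw [← h1]; norm_num
  · rw [if_neg (not_le.2 h1), if_pos h']

theorem LO_2 {A : ℝ} (h : 69 / 100 ≤ A) (h' : A ≤ 3 / 2) :
    17 / 50 * A ^ 2 + 3 / 400 * A - 21 / 1250 ≤ LO A := by
  unfold LO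
  rcases eq_or_lt_of_le h with h1 | h1
  · rw [← h1]; norm_num
  · rw [if_neg (by linarith), if_neg (not_le.2 h1), if_pos h']

theorem LO_3 {A : ℝ} (h : 3 / 2 ≤ A) : 759 / 1000 + 24 / 25 * (A - 3 / 2) ≤ LO A := by
  unfold LO
  rcases eq_or_lt_of_le h with h1 | h1
  · rw [← h1]; norm_num
  · rw [if_neg (by linarith), if_neg (by linarith), if_neg (not_le.2 h1)]; linarith

theorem LO_nn (A : ℝ) : 0 ≤ LO A := by
  unfold LO
  split_ifs with h1 h2 h3
  · exact le_rfl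
  · positivity
  · nlinarith
  · linarith

theorem L1_1 {A : ℝ} (h : 7 / 50 ≤ A) (h' : A ≤ 3 / 5) : (A - 7 / 50) ^ 2 / 2 ≤ L1 A := by
  unfold L1
  rcases eq_or_lt_of_le h with h1 | h1
  · rw [← h1]; norm_num
  · rw [if_neg (not_le.2 h1), if_pos h']

theorem L1_2 {A : ℝ} (h : 3 / 5 ≤ A) (h' : A ≤ 3 / 2) :
    7 / 20 * A ^ 2 - 1 / 80 * A - 181 / 10000 ≤ L1 A := by
  unfold L1
  rcases eq_or_lt_of_le h with h1 | h1
  · rw [← h1]; norm_num
  · rw [if_neg (by linarith), if_neg (not_le.2 h1), if_pos h']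

theorem L1_3 {A : ℝ} (h : 3 / 2 ≤ A) : 3 / 4 + 24 / 25 * (A - 3 / 2) ≤ L1 A := by
  unfold L1
  rcases eq_or_lt_of_le h with h1 | h1
  · rw [← h1]; norm_num
  · rw [if_neg (by linarith), if_neg (by linarith), if_neg (not_le.2 h1)]

theorem L1_nn (A : ℝ) : 0 ≤ L1 A := by
  unfold L1
  split_ifs with h1 h2 h3
  · exact le_rfl
  · positivity
  · nlinarith
  · linarith

theorem L2_1 {B : ℝ} (h : 17 / 25 ≤ B) (h' : B ≤ 1) : (B - 17 / 25) ^ 2 / 2 ≤ L2 B := by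
  unfold L2
  rcases eq_or_lt_of_le h with h1 | h1
  · rw [← h1]; norm_num
  · rw [if_neg (not_le.2 h1), if_pos h']

theorem L2_2 {B : ℝ} (h : 1 ≤ B) (h' : B ≤ 5 / 4) :
    32 / 625 + 8 / 25 * (B - 1) + 41 / 100 * (B - 1) ^ 2 ≤ L2 B := by
  unfold L2
  rcases eq_or_lt_of_le h with h1 | h1
  · rw [← h1]; norm_num
  · rw [if_neg (by linarith), if_neg (not_le.2 h1), if_pos h']

theorem L2_3 {B : ℝ} (h : 5 / 4 ≤ B) (h' : B ≤ 9 / 5) : 9 / 250 + 12 / 25 * (B - 1) ≤ L2 B := by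
  unfold L2
  rcases eq_or_lt_of_le h with h1 | h1
  · rw [← h1]; norm_num
  · rw [if_neg (by linarith), if_neg (by linarith), if_neg (not_le.2 h1), if_pos h']

theorem L2_4 {B : ℝ} (h : 9 / 5 ≤ B) : 21 / 50 ≤ L2 B := by
  unfold L2
  rcases eq_or_lt_of_le h with h1 | h1
  · rw [← h1]; norm_num
  · rw [if_neg (by linarith), if_neg (by linarith), if_neg (by linarith), if_neg (not_le.2 h1)]

theorem L2_nn (B : ℝ) : 0 ≤ L2 B := by
  unfold L2
  split_ifs with h1 h2 h3 h4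
  · exact le_rfl
  · positivity
  · nlinarith
  · linarith
  · norm_num

theorem L2_m {B : ℝ} (h : 1 ≤ B) (h' : B ≤ 9 / 5) : 71 / 2000 + 12 / 25 * (B - 1) ≤ L2 B := by
  rcases le_total B (5 / 4) with h1 | h1
  · have := L2_2 h h1
    nlinarith [sq_nonneg (B - 1 - 8 / 41)]
  · have := L2_3 h1 h'
    linarith

theorem L2_n {B : ℝ} (h : 1 ≤ B) (h' : B ≤ 2) : 7 / 200 + 77 / 200 * (B - 1) ≤ L2 B := by
  rcases le_total B (9 / 5) with h1 | h1
  · have := L2_m h h1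
    linarith
  · have := L2_4 h1
    linarith

/-! ### Own terms -/

theorem hown_big {y d : ℝ} (h : d ≤ y) : hown y d = y * d - d ^ 3 / 3 + max (d - 1 / 2) 0 / 3 := by
  unfold hown
  rw [max_eq_left (by linarith : 0 ≤ y - d)]
  ring

theorem hown_small {y d : ℝ} (h : y ≤ d) :
    hown y d = y * d * (1 + y - d) - y ^ 3 / 3 + max (d - 1 / 2) 0 / 3 := by
  unfold hown
  rw [max_eq_right (by linarith : y - d ≤ 0)]
  ring

theorem hown_u {y d : ℝ} (y0 : 0 ≤ y) (d0 : 0 ≤ d) :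
    hown y d ≤ y * d + y ^ 2 * d / 3 - 2 / 3 * (y * d ^ 2) + max (d - 1 / 2) 0 / 3 := by
  have h := cube_le (w := y) (A := d) y0 d0
  unfold hown
  nlinarith

theorem half_le {d : ℝ} (d0 : 0 ≤ d) (d1 : d ≤ 11 / 20) : max (d - 1 / 2) 0 ≤ d / 11 :=
  max_le (by linarith) (by linarith)

theorem oT_lt {A δ : ℝ} (h : A < 1) : oT A δ = 0 := if_neg (not_le.2 h)

theorem oT_ge {A δ : ℝ} (h : 1 ≤ A) : oT A δ = hown (A - 1) δ := if_pos h

/-- at the corner `A = B = 1` the own term vanishes -/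
theorem oT_corner : oT 1 0 = 0 := by
  rw [oT_ge le_rfl, hown_small (by norm_num : (1 : ℝ) - 1 ≤ 0)]
  norm_num

end Pool.Agent.Helper62.TW
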