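import Pool.Agent.Helper62.TW.Atoms
import Pool.Agent.Helper62.TW.Sem

/-!
# The rules and contexts hold (generated)
-/

set_option autoImplicit false
set_option maxRecDepth 100000
set_option linter.all false

namespace Pool.Agent.Helper62.TW

open Pool.Agent.Helper83.Cert Pool.Agent.Helper51.TS Pool.Agent.Helper74.TS Pool.Agent.Helper95.TS

section

variable {w A B t g L M H K : ℝ}

theorem semF (hc : Cell w A B) :
    ∀ r ∈ RF, (∀ q ∈ r.1, 0 ≤ exVal (yw w A B t g ((max (w - A) 0) ^ 3) ((max (w - B) 0) ^ 3) L M H K) q) →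
      0 ≤ exVal (yw w A B t g ((max (w - A) 0) ^ 3) ((max (w - B) 0) ^ 3) L M H K) r.2 := by
  simp only [RF, List.forall_mem_cons, exadd, exmul, exc, exw2, exw3, exw5, exw7, exw11, exw13, exw17, exw19, exw23, exw29, exw31]
  push_cast
  refine ⟨?_, ?_, ?_, ?_, ?_, ?_, ?_, fun _ h => absurd h List.not_mem_nil⟩
  · rintro ⟨h1, -⟩; rw [max_eq_left (by linarith : 0 ≤ w - A)]; linarith
  · rintro ⟨h1, -⟩; rw [max_eq_right (by linarith : w - A ≤ 0)]; norm_num
  · rintro ⟨h1, -⟩; rw [max_eq_left (by linarith : 0 ≤ w - B)]; linarith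
  · rintro ⟨h1, -⟩; rw [max_eq_right (by linarith : w - B ≤ 0)]; norm_num
  · intro _; linarith [cubes_le hc.w0.le hc.A0 hc.B0 hc.lo]
  · intro _; linarith [cube_le hc.w0.le hc.A0]
  · intro _; linarith [cube_le hc.w0.le hc.B0]

theorem semO (hc : Cell w A B) (hH : 1 ≤ A → H ≤ hown (A - 1) (1 + w - A - B)) :
    ∀ r ∈ RO, (∀ q ∈ r.1, 0 ≤ exVal (yw w A B t g ((max (w - A) 0) ^ 3) ((max (w - B) 0) ^ 3) (LO A) M H K) q) →
      0 ≤ exVal (yw w A B t g ((max (w - A) 0) ^ 3) ((max (w - B) 0) ^ 3) (LO A) M H K) r.2 := by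
  simp only [RO, List.forall_mem_cons, exadd, exmul, exc, exw2, exw3, exw5, exw7, exw11, exw13, exw17, exw19, exw23, exw29, exw31]
  push_cast
  refine ⟨?_, ?_, ?_, ?_, ?_, ?_, ?_, ?_, ?_, ?_, ?_, ?_, ?_, ?_, ?_, ?_, fun _ h => absurd h List.not_mem_nil⟩
  · rintro ⟨h1, -⟩; rw [max_eq_left (by linarith : 0 ≤ w - A)]; linarith
  · rintro ⟨h1, -⟩; rw [max_eq_right (by linarith : w - A ≤ 0)]; norm_num
  · rintro ⟨h1, -⟩; rw [max_eq_left (by linarith : 0 ≤ w - B)]; linarith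
  · rintro ⟨h1, -⟩; rw [max_eq_right (by linarith : w - B ≤ 0)]; norm_num
  · intro _; linarith [cubes_le hc.w0.le hc.A0 hc.B0 hc.lo]
  · intro _; linarith [cube_le hc.w0.le hc.A0]
  · intro _; linarith [cube_le hc.w0.le hc.B0]
  · rintro ⟨h1, h2, -⟩; linarith [LO_1 (A := A) (by linarith) (by linarith)]
  · rintro ⟨h1, h2, -⟩; linarith [LO_2 (A := A) (by linarith) (by linarith)]
  · rintro ⟨h1, -⟩; linarith [LO_3 (A := A) (by linarith)]
  · rintro ⟨h1, h2, h3, -⟩; have e := hH (by linarith); rw [hown_big (by linarith), max_eq_right (by linarith : (1 : ℝ) + w - A - B - 1 / 2 ≤ 0)] at e; linarith [e]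
  · rintro ⟨h1, h2, h3, -⟩; have e := hH (by linarith); rw [hown_big (by linarith), max_eq_left (by linarith : (0 : ℝ) ≤ 1 + w - A - B - 1 / 2)] at e; linarith [e]
  · rintro ⟨h1, h2, h3, -⟩; have e := hH (by linarith); rw [hown_small (by linarith), max_eq_right (by linarith : (1 : ℝ) + w - A - B - 1 / 2 ≤ 0)] at e; linarith [e]
  · rintro ⟨h1, h2, h3, -⟩; have e := hH (by linarith); rw [hown_small (by linarith), max_eq_left (by linarith : (0 : ℝ) ≤ 1 + w - A - B - 1 / 2)] at e; linarith [e]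
  · rintro ⟨h1, h2, -⟩; have e := (hH (by linarith)).trans (hown_u (by linarith) (by linarith [hc.hi])); rw [max_eq_right (by linarith : (1 : ℝ) + w - A - B - 1 / 2 ≤ 0)] at e; linarith [e]
  · rintro ⟨h1, h2, -⟩; have e := (hH (by linarith)).trans (hown_u (by linarith) (by linarith [hc.hi])); have e2 := half_le (d := 1 + w - A - B) (by linarith [hc.hi]) (by linarith); linarith [e, e2]

theorem sema (hc : Cell w A B) (hH : 1 ≤ A → H ≤ hown (A - 1) (1 + w - A - B))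
    (hK : 1 ≤ B → K ≤ hown (B - 1) (1 + w - A - B)) :
    ∀ r ∈ Ra, (∀ q ∈ r.1, 0 ≤ exVal (yw w A B t g ((max (w - A) 0) ^ 3) ((max (w - B) 0) ^ 3) (L1 A) (L2 B) H K) q) →
      0 ≤ exVal (yw w A B t g ((max (w - A) 0) ^ 3) ((max (w - B) 0) ^ 3) (L1 A) (L2 B) H K) r.2 := by
  simp only [Ra, List.forall_mem_cons, exadd, exmul, exc, exw2, exw3, exw5, exw7, exw11, exw13, exw17, exw19, exw23, exw29, exw31]
  push_cast
  refine ⟨?_, ?_, ?_, ?_, ?_, ?_, ?_, ?_, ?_, ?_, ?_, ?_, ?_, ?_, ?_, ?_, ?_, ?_, ?_, ?_, ?_, ?_, ?_, ?_, ?_, ?_, ?_, ?_, fun _ h => absurd h List.not_mem_nil⟩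
  · rintro ⟨h1, -⟩; rw [max_eq_left (by linarith : 0 ≤ w - A)]; linarith
  · rintro ⟨h1, -⟩; rw [max_eq_right (by linarith : w - A ≤ 0)]; norm_num
  · rintro ⟨h1, -⟩; rw [max_eq_left (by linarith : 0 ≤ w - B)]; linarith
  · rintro ⟨h1, -⟩; rw [max_eq_right (by linarith : w - B ≤ 0)]; norm_num
  · intro _; linarith [cubes_le hc.w0.le hc.A0 hc.B0 hc.lo]
  · intro _; linarith [cube_le hc.w0.le hc.A0]
  · intro _; linarith [cube_le hc.w0.le hc.B0]
  · rintro ⟨h1, h2, -⟩; linarith [L1_1 (A := A) (by linarith) (by linarith)]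
  · rintro ⟨h1, h2, -⟩; linarith [L1_2 (A := A) (by linarith) (by linarith)]
  · rintro ⟨h1, -⟩; linarith [L1_3 (A := A) (by linarith)]
  · rintro ⟨h1, h2, -⟩; linarith [L2_1 (B := B) (by linarith) (by linarith)]
  · rintro ⟨h1, h2, -⟩; linarith [L2_2 (B := B) (by linarith) (by linarith)]
  · rintro ⟨h1, h2, -⟩; linarith [L2_3 (B := B) (by linarith) (by linarith)]
  · rintro ⟨h1, -⟩; linarith [L2_4 (B := B) (by linarith)]
  · rintro ⟨h1, h2, h3, -⟩; have e := hH (by linarith); rw [hown_big (by linarith), max_eq_right (by linarith : (1 : ℝ) + w - A - B - 1 / 2 ≤ 0)] at e; linarith [e]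
  · rintro ⟨h1, h2, h3, -⟩; have e := hH (by linarith); rw [hown_big (by linarith), max_eq_left (by linarith : (0 : ℝ) ≤ 1 + w - A - B - 1 / 2)] at e; linarith [e]
  · rintro ⟨h1, h2, h3, -⟩; have e := hH (by linarith); rw [hown_small (by linarith), max_eq_right (by linarith : (1 : ℝ) + w - A - B - 1 / 2 ≤ 0)] at e; linarith [e]
  · rintro ⟨h1, h2, h3, -⟩; have e := hH (by linarith); rw [hown_small (by linarith), max_eq_left (by linarith : (0 : ℝ) ≤ 1 + w - A - B - 1 / 2)] at e; linarith [e]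
  · rintro ⟨h1, h2, h3, -⟩; have e := hK (by linarith); rw [hown_big (by linarith), max_eq_right (by linarith : (1 : ℝ) + w - A - B - 1 / 2 ≤ 0)] at e; linarith [e]
  · rintro ⟨h1, h2, h3, -⟩; have e := hK (by linarith); rw [hown_big (by linarith), max_eq_left (by linarith : (0 : ℝ) ≤ 1 + w - A - B - 1 / 2)] at e; linarith [e]
  · rintro ⟨h1, h2, h3, -⟩; have e := hK (by linarith); rw [hown_small (by linarith), max_eq_right (by linarith : (1 : ℝ) + w - A - B - 1 / 2 ≤ 0)] at e; linarith [e]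
  · rintro ⟨h1, h2, h3, -⟩; have e := hK (by linarith); rw [hown_small (by linarith), max_eq_left (by linarith : (0 : ℝ) ≤ 1 + w - A - B - 1 / 2)] at e; linarith [e]
  · rintro ⟨h1, h2, -⟩; have e := (hH (by linarith)).trans (hown_u (by linarith) (by linarith [hc.hi])); rw [max_eq_right (by linarith : (1 : ℝ) + w - A - B - 1 / 2 ≤ 0)] at e; linarith [e]
  · rintro ⟨h1, h2, -⟩; have e := (hH (by linarith)).trans (hown_u (by linarith) (by linarith [hc.hi])); have e2 := half_le (d := 1 + w - A - B) (by linarith [hc.hi]) (by linarith); linarith [e, e2]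
  · rintro ⟨h1, h2, -⟩; have e := (hK (by linarith)).trans (hown_u (by linarith) (by linarith [hc.hi])); rw [max_eq_right (by linarith : (1 : ℝ) + w - A - B - 1 / 2 ≤ 0)] at e; linarith [e]
  · rintro ⟨h1, h2, -⟩; have e := (hK (by linarith)).trans (hown_u (by linarith) (by linarith [hc.hi])); have e2 := half_le (d := 1 + w - A - B) (by linarith [hc.hi]) (by linarith); linarith [e, e2]
  · rintro ⟨h1, h2, -⟩; linarith [L2_m (B := B) (by linarith) (by linarith)]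
  · rintro ⟨h1, h2, -⟩; linarith [L2_n (B := B) (by linarith) (by linarith)]

theorem semb (hc : Cell w A B) (hH : 1 ≤ A → H ≤ hown (A - 1) (1 + w - A - B))
    (hK : 1 ≤ B → K ≤ hown (B - 1) (1 + w - A - B)) :
    ∀ r ∈ Rb, (∀ q ∈ r.1, 0 ≤ exVal (yw w A B t g ((max (w - A) 0) ^ 3) ((max (w - B) 0) ^ 3) (L2 A) (L1 B) H K) q) →
      0 ≤ exVal (yw w A B t g ((max (w - A) 0) ^ 3) ((max (w - B) 0) ^ 3) (L2 A) (L1 B) H K) r.2 := by
  simp only [Rb, List.forall_mem_cons, exadd, exmul, exc, exw2, exw3, exw5, exw7, exw11, exw13, exw17, exw19, exw23, exw29, exw31]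
  push_cast
  refine ⟨?_, ?_, ?_, ?_, ?_, ?_, ?_, ?_, ?_, ?_, ?_, ?_, ?_, ?_, ?_, ?_, ?_, ?_, ?_, ?_, ?_, ?_, ?_, ?_, ?_, ?_, ?_, ?_, fun _ h => absurd h List.not_mem_nil⟩
  · rintro ⟨h1, -⟩; rw [max_eq_left (by linarith : 0 ≤ w - A)]; linarith
  · rintro ⟨h1, -⟩; rw [max_eq_right (by linarith : w - A ≤ 0)]; norm_num
  · rintro ⟨h1, -⟩; rw [max_eq_left (by linarith : 0 ≤ w - B)]; linarith
  · rintro ⟨h1, -⟩; rw [max_eq_right (by linarith : w - B ≤ 0)]; norm_num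
  · intro _; linarith [cubes_le hc.w0.le hc.A0 hc.B0 hc.lo]
  · intro _; linarith [cube_le hc.w0.le hc.A0]
  · intro _; linarith [cube_le hc.w0.le hc.B0]
  · rintro ⟨h1, h2, -⟩; linarith [L2_1 (B := A) (by linarith) (by linarith)]
  · rintro ⟨h1, h2, -⟩; linarith [L2_2 (B := A) (by linarith) (by linarith)]
  · rintro ⟨h1, h2, -⟩; linarith [L2_3 (B := A) (by linarith) (by linarith)]
  · rintro ⟨h1, -⟩; linarith [L2_4 (B := A) (by linarith)]
  · rintro ⟨h1, h2, -⟩; linarith [L1_1 (A := B) (by linarith) (by linarith)]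
  · rintro ⟨h1, h2, -⟩; linarith [L1_2 (A := B) (by linarith) (by linarith)]
  · rintro ⟨h1, -⟩; linarith [L1_3 (A := B) (by linarith)]
  · rintro ⟨h1, h2, h3, -⟩; have e := hH (by linarith); rw [hown_big (by linarith), max_eq_right (by linarith : (1 : ℝ) + w - A - B - 1 / 2 ≤ 0)] at e; linarith [e]
  · rintro ⟨h1, h2, h3, -⟩; have e := hH (by linarith); rw [hown_big (by linarith), max_eq_left (by linarith : (0 : ℝ) ≤ 1 + w - A - B - 1 / 2)] at e; linarith [e]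
  · rintro ⟨h1, h2, h3, -⟩; have e := hH (by linarith); rw [hown_small (by linarith), max_eq_right (by linarith : (1 : ℝ) + w - A - B - 1 / 2 ≤ 0)] at e; linarith [e]
  · rintro ⟨h1, h2, h3, -⟩; have e := hH (by linarith); rw [hown_small (by linarith), max_eq_left (by linarith : (0 : ℝ) ≤ 1 + w - A - B - 1 / 2)] at e; linarith [e]
  · rintro ⟨h1, h2, h3, -⟩; have e := hK (by linarith); rw [hown_big (by linarith), max_eq_right (by linarith : (1 : ℝ) + w - A - B - 1 / 2 ≤ 0)] at e; linarith [e]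
  · rintro ⟨h1, h2, h3, -⟩; have e := hK (by linarith); rw [hown_big (by linarith), max_eq_left (by linarith : (0 : ℝ) ≤ 1 + w - A - B - 1 / 2)] at e; linarith [e]
  · rintro ⟨h1, h2, h3, -⟩; have e := hK (by linarith); rw [hown_small (by linarith), max_eq_right (by linarith : (1 : ℝ) + w - A - B - 1 / 2 ≤ 0)] at e; linarith [e]
  · rintro ⟨h1, h2, h3, -⟩; have e := hK (by linarith); rw [hown_small (by linarith), max_eq_left (by linarith : (0 : ℝ) ≤ 1 + w - A - B - 1 / 2)] at e; linarith [e]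
  · rintro ⟨h1, h2, -⟩; have e := (hH (by linarith)).trans (hown_u (by linarith) (by linarith [hc.hi])); rw [max_eq_right (by linarith : (1 : ℝ) + w - A - B - 1 / 2 ≤ 0)] at e; linarith [e]
  · rintro ⟨h1, h2, -⟩; have e := (hH (by linarith)).trans (hown_u (by linarith) (by linarith [hc.hi])); have e2 := half_le (d := 1 + w - A - B) (by linarith [hc.hi]) (by linarith); linarith [e, e2]
  · rintro ⟨h1, h2, -⟩; have e := (hK (by linarith)).trans (hown_u (by linarith) (by linarith [hc.hi])); rw [max_eq_right (by linarith : (1 : ℝ) + w - A - B - 1 / 2 ≤ 0)] at e; linarith [e]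
  · rintro ⟨h1, h2, -⟩; have e := (hK (by linarith)).trans (hown_u (by linarith) (by linarith [hc.hi])); have e2 := half_le (d := 1 + w - A - B) (by linarith [hc.hi]) (by linarith); linarith [e, e2]
  · rintro ⟨h1, h2, -⟩; linarith [L2_m (B := A) (by linarith) (by linarith)]
  · rintro ⟨h1, h2, -⟩; linarith [L2_n (B := A) (by linarith) (by linarith)]

/-! ### Contexts -/

theorem ctx_free (hc : Cell w A B) (ht : 0 ≤ t) (hd : 11 / 20 ≤ 1 + w - A - B) (hg : g ≤ vl w A B) :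
    ∀ e ∈ E_free, 0 ≤ exVal (yw w A B t g ((max (w - A) 0) ^ 3) ((max (w - B) 0) ^ 3) L M H K) e := by
  unfold vl at hg
  have := hc.w0.le
  have := hc.w1
  have := hc.A0
  have := hc.B0
  have := hc.lo
  have := hc.hi
  simp only [E_free, List.forall_mem_cons, exadd, exmul, exc, exw2, exw3, exw5, exw7, exw11, exw13, exw17, exw19, exw23, exw29, exw31]
  push_cast
  refine ⟨?_, ?_, ?_, ?_, ?_, ?_, ?_, ?_, ?_, fun _ h => absurd h List.not_mem_nil⟩ <;> linarith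

theorem ctx_Op0 (hc : Cell w A B) (ht : 0 ≤ t) (hd : 1 + w - A - B ≤ 11 / 20) (hA : A ≤ 1) (hg : g ≤ vl w A B - L) :
    ∀ e ∈ E_Op0, 0 ≤ exVal (yw w A B t g ((max (w - A) 0) ^ 3) ((max (w - B) 0) ^ 3) L M H K) e := by
  unfold vl at hg
  have := hc.w0.le
  have := hc.w1
  have := hc.A0
  have := hc.B0
  have := hc.lo
  have := hc.hi
  simp only [E_Op0, List.forall_mem_cons, exadd, exmul, exc, exw2, exw3, exw5, exw7, exw11, exw13, exw17, exw19, exw23, exw29, exw31]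
  push_cast
  refine ⟨?_, ?_, ?_, ?_, ?_, ?_, ?_, ?_, ?_, ?_, fun _ h => absurd h List.not_mem_nil⟩ <;> linarith

theorem ctx_Op1 (hc : Cell w A B) (ht : 0 ≤ t) (hd : 1 + w - A - B ≤ 11 / 20) (hA : 1 ≤ A) (hg : g ≤ vl w A B - L + H) :
    ∀ e ∈ E_Op1, 0 ≤ exVal (yw w A B t g ((max (w - A) 0) ^ 3) ((max (w - B) 0) ^ 3) L M H K) e := by
  unfold vl at hg
  have := hc.w0.le
  have := hc.w1
  have := hc.A0
  have := hc.B0
  have := hc.lo
  have := hc.hi
  simp only [E_Op1, List.forall_mem_cons, exadd, exmul, exc, exw2, exw3, exw5, exw7, exw11, exw13, exw17, exw19, exw23, exw29, exw31]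
  push_cast
  refine ⟨?_, ?_, ?_, ?_, ?_, ?_, ?_, ?_, ?_, ?_, fun _ h => absurd h List.not_mem_nil⟩ <;> linarith

theorem ctx_c0 (hc : Cell w A B) (ht : 0 ≤ t) (hd : 1 + w - A - B ≤ 11 / 20) (hb : 0 ≤ 2 * w - A - B) (hA : A ≤ 2 / 5)
    (hg : g ≤ vl w A B - L + 1 / 1000) :
    ∀ e ∈ E_c0, 0 ≤ exVal (yw w A B t g ((max (w - A) 0) ^ 3) ((max (w - B) 0) ^ 3) L M H K) e := by
  unfold vl at hg
  have := hc.w0.le
  have := hc.w1
  have := hc.A0
  have := hc.B0
  have := hc.lo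
  have := hc.hi
  simp only [E_c0, List.forall_mem_cons, exadd, exmul, exc, exw2, exw3, exw5, exw7, exw11, exw13, exw17, exw19, exw23, exw29, exw31]
  push_cast
  refine ⟨?_, ?_, ?_, ?_, ?_, ?_, ?_, ?_, ?_, ?_, ?_, fun _ h => absurd h List.not_mem_nil⟩ <;> linarith

theorem ctx_c1 (hc : Cell w A B) (ht : 0 ≤ t) (hd : 1 + w - A - B ≤ 11 / 20) (hb : 0 ≤ 2 * w - A - B) (hA : A ≤ 2 / 5)
    (hg : g ≤ vl w A B + 3 / 25 * (2 * w - A - B) - 153 / 5000) :
    ∀ e ∈ E_c1, 0 ≤ exVal (yw w A B t g ((max (w - A) 0) ^ 3) ((max (w - B) 0) ^ 3) L M H K) e := by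
  unfold vl at hg
  have := hc.w0.le
  have := hc.w1
  have := hc.A0
  have := hc.B0
  have := hc.lo
  have := hc.hi
  simp only [E_c1, List.forall_mem_cons, exadd, exmul, exc, exw2, exw3, exw5, exw7, exw11, exw13, exw17, exw19, exw23, exw29, exw31]
  push_cast
  refine ⟨?_, ?_, ?_, ?_, ?_, ?_, ?_, ?_, ?_, ?_, ?_, fun _ h => absurd h List.not_mem_nil⟩ <;> linarith

theorem ctx_c2 (hc : Cell w A B) (ht : 0 ≤ t) (hd : 1 + w - A - B ≤ 11 / 20) (hb : 0 ≤ 2 * w - A - B) (hA : 2 / 5 ≤ A) (hA1 : A ≤ 1)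
    (hg : g ≤ vl w A B + ((2 * w - A - B) * (2 * w - A - B + A) ^ 2 / 4 - (2 * w - A - B) ^ 3 / 3) + 1 / 1000 - L) :
    ∀ e ∈ E_c2, 0 ≤ exVal (yw w A B t g ((max (w - A) 0) ^ 3) ((max (w - B) 0) ^ 3) L M H K) e := by
  unfold vl at hg
  have := hc.w0.le
  have := hc.w1
  have := hc.A0
  have := hc.B0
  have := hc.lo
  have := hc.hi
  simp only [E_c2, List.forall_mem_cons, exadd, exmul, exc, exw2, exw3, exw5, exw7, exw11, exw13, exw17, exw19, exw23, exw29, exw31]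
  push_cast
  refine ⟨?_, ?_, ?_, ?_, ?_, ?_, ?_, ?_, ?_, ?_, ?_, ?_, fun _ h => absurd h List.not_mem_nil⟩ <;> linarith

theorem ctx_c3 (hc : Cell w A B) (ht : 0 ≤ t) (hd : 1 + w - A - B ≤ 11 / 20) (hb : 0 ≤ 2 * w - A - B) (hA : 1 ≤ A)
    (hg : g ≤ vl w A B - L + H + (2 * w - A - B) * (9 / 10 * A - 199 / 500)) :
    ∀ e ∈ E_c3, 0 ≤ exVal (yw w A B t g ((max (w - A) 0) ^ 3) ((max (w - B) 0) ^ 3) L M H K) e := by
  unfold vl at hg
  have := hc.w0.le
  have := hc.w1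
  have := hc.A0
  have := hc.B0
  have := hc.lo
  have := hc.hi
  simp only [E_c3, List.forall_mem_cons, exadd, exmul, exc, exw2, exw3, exw5, exw7, exw11, exw13, exw17, exw19, exw23, exw29, exw31]
  push_cast
  refine ⟨?_, ?_, ?_, ?_, ?_, ?_, ?_, ?_, ?_, ?_, ?_, fun _ h => absurd h List.not_mem_nil⟩ <;> linarith

theorem ctx_c4 (hc : Cell w A B) (ht : 0 ≤ t) (hd : 1 + w - A - B ≤ 11 / 20) (hg : g ≤ vl w A B - 57 / 125 + 7 / 10 * (1 + w - A - B)) :
    ∀ e ∈ E_c4, 0 ≤ exVal (yw w A B t g ((max (w - A) 0) ^ 3) ((max (w - B) 0) ^ 3) L M H K) e := by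
  unfold vl at hg
  have := hc.w0.le
  have := hc.w1
  have := hc.A0
  have := hc.B0
  have := hc.lo
  have := hc.hi
  simp only [E_c4, List.forall_mem_cons, exadd, exmul, exc, exw2, exw3, exw5, exw7, exw11, exw13, exw17, exw19, exw23, exw29, exw31]
  push_cast
  refine ⟨?_, ?_, ?_, ?_, ?_, ?_, ?_, ?_, ?_, fun _ h => absurd h List.not_mem_nil⟩ <;> linarith

theorem ctx_Tp0 (hc : Cell w A B) (ht : 0 ≤ t) (hd : 1 + w - A - B ≤ 11 / 20) (hA : A ≤ 1) (hB : B ≤ 1) (hg : g ≤ vl w A B - (L + M)) :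
    ∀ e ∈ E_Tp0, 0 ≤ exVal (yw w A B t g ((max (w - A) 0) ^ 3) ((max (w - B) 0) ^ 3) L M H K) e := by
  unfold vl at hg
  have := hc.w0.le
  have := hc.w1
  have := hc.A0
  have := hc.B0
  have := hc.lo
  have := hc.hi
  simp only [E_Tp0, List.forall_mem_cons, exadd, exmul, exc, exw2, exw3, exw5, exw7, exw11, exw13, exw17, exw19, exw23, exw29, exw31]
  push_cast
  refine ⟨?_, ?_, ?_, ?_, ?_, ?_, ?_, ?_, ?_, ?_, ?_, fun _ h => absurd h List.not_mem_nil⟩ <;> linarith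

theorem ctx_TpA (hc : Cell w A B) (ht : 0 ≤ t) (hd : 1 + w - A - B ≤ 11 / 20) (hA : 1 ≤ A) (hg : g ≤ vl w A B - (L + M) + H) :
    ∀ e ∈ E_TpA, 0 ≤ exVal (yw w A B t g ((max (w - A) 0) ^ 3) ((max (w - B) 0) ^ 3) L M H K) e := by
  unfold vl at hg
  have := hc.w0.le
  have := hc.w1
  have := hc.A0
  have := hc.B0
  have := hc.lo
  have := hc.hi
  simp only [E_TpA, List.forall_mem_cons, exadd, exmul, exc, exw2, exw3, exw5, exw7, exw11, exw13, exw17, exw19, exw23, exw29, exw31]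
  push_cast
  refine ⟨?_, ?_, ?_, ?_, ?_, ?_, ?_, ?_, ?_, ?_, fun _ h => absurd h List.not_mem_nil⟩ <;> linarith

theorem ctx_TpB (hc : Cell w A B) (ht : 0 ≤ t) (hd : 1 + w - A - B ≤ 11 / 20) (hB : 1 ≤ B) (hg : g ≤ vl w A B - (L + M) + K) :
    ∀ e ∈ E_TpB, 0 ≤ exVal (yw w A B t g ((max (w - A) 0) ^ 3) ((max (w - B) 0) ^ 3) L M H K) e := by
  unfold vl at hg
  have := hc.w0.le
  have := hc.w1
  have := hc.A0
  have := hc.B0
  have := hc.lo
  have := hc.hi
  simp only [E_TpB, List.forall_mem_cons, exadd, exmul, exc, exw2, exw3, exw5, exw7, exw11, exw13, exw17, exw19, exw23, exw29, exw31]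
  push_cast
  refine ⟨?_, ?_, ?_, ?_, ?_, ?_, ?_, ?_, ?_, ?_, fun _ h => absurd h List.not_mem_nil⟩ <;> linarith

end

end Pool.Agent.Helper62.TW
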