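import Pool.Agent.Helper62.TW.Goals

/-!
# Case trees, part 1 (generated)
-/

set_option autoImplicit false
set_option maxRecDepth 100000
set_option linter.all false

namespace Pool.Agent.Helper62.TW

open Pool.Agent.Helper83.Cert

theorem t_A_F3_c4 : chk RFp gP_A_F3
 (.split [(1, 1), (2, -20)]
 (.rule 4 (.leaf 30000000 (.add (.add (.add (.add (.mul (.g 3) (.add (.add (.add (.pp [(1,
 31382400000)]) (.mul (.g 4) (.add (.add (.mul (.pp [(1, 2820)]) (.sq [(1, 15), (2, 100), (3, -28),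
 (5, -19), (7, 63)])) (.add (.mul (.pp [(1, 540)]) (.sq [(1, 57), (2, -100), (3, -88), (5, 78), (7,
 99)])) (.mul (.g 3) (.add (.mul (.g 2) (.pp [(1, 19963800000)])) (.add (.mul (.g 5) (.pp [(1,
 40500000)])) (.mul (.g 6) (.pp [(1, 13350000000)]))))))) (.add (.add (.mul (.g 5) (.add (.mul (.g
 6) (.pp [(1, 22432200000)])) (.mul (.g 9) (.pp [(1, 90000)])))) (.mul (.g 1) (.pp [(1,
 14481270000)]))) (.add (.mul (.g 4) (.mul (.g 7) (.pp [(1, 4500000)]))) (.mul (.g 11) (.pp [(1,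
 16752000000)]))))))) (.add (.mul (.g 2) (.add (.add (.mul (.pp [(1, 406770)]) (.sq [(1, 2), (2,
 21), (3, -66), (5, 100), (7, 92)])) (.add (.mul (.g 8) (.add (.mul (.g 3) (.pp [(1, 1661100000)]))
 (.add (.mul (.g 5) (.pp [(1, 1223700000)])) (.mul (.g 8) (.pp [(1, 588900000)]))))) (.mul (.g 1)
 (.mul (.g 2) (.pp [(1, 159195000)]))))) (.add (.mul (.g 3) (.mul (.g 7) (.pp [(1, 7410000000)])))
 (.add (.mul (.g 5) (.mul (.g 5) (.pp [(1, 1942800000)]))) (.mul (.g 9) (.mul (.g 9) (.pp [(1,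
 8445750)]))))))) (.mul (.g 3) (.add (.pp [(1, 3118500000)]) (.add (.mul (.g 5) (.add (.pp [(1,
 3687000000)]) (.mul (.g 5) (.pp [(1, 2400000)])))) (.mul (.g 7) (.mul (.g 9) (.pp [(1,
 60000)])))))))) (.add (.add (.mul (.g 6) (.add (.mul (.pp [(1, 865560)]) (.sq [(1, 4), (2, -43),
 (3, 27), (5, 100), (7, -79)])) (.mul (.g 7) (.mul (.g 8) (.pp [(1, 634800000)]))))) (.mul (.g 1)
 (.pp [(1, 257145000)]))) (.add (.mul (.g 7) (.mul (.pp [(1, 210)]) (.sq [(1, -35), (2, -84), (3,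
 -64), (5, -5), (7, 100)]))) (.mul (.g 11) (.pp [(1, 4072800000)])))))) (.mul (.g 5) (.add (.add
 (.mul (.g 2) (.add (.add (.pp [(1, 129117600000)]) (.add (.mul (.g 4) (.add (.mul (.g 7) (.pp [(1,
 7986000000)])) (.add (.mul (.g 8) (.pp [(1, 7977000000)])) (.mul (.g 11) (.pp [(1, 11400000)])))))
 (.mul (.g 1) (.add (.pp [(1, 6707205000)]) (.mul (.g 2) (.pp [(1, 1441755000)])))))) (.add (.mul
 (.g 11) (.add (.pp [(1, 763800000)]) (.mul (.g 6) (.pp [(1, 415500000)])))) (.add (.mul (.g 2)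
 (.mul (.g 5) (.pp [(1, 68782800000)]))) (.mul (.g 8) (.mul (.g 8) (.pp [(1, 11400000)])))))))
 (.mul (.g 11) (.add (.add (.pp [(1, 8564700000)]) (.mul (.pp [(1, 300)]) (.sq [(1, 16), (2, -76),
 (3, -57), (5, 100), (7, -11)]))) (.add (.mul (.g 5) (.add (.pp [(1, 5415300000)]) (.mul (.g 5)
 (.pp [(1, 3300000)])))) (.mul (.g 4) (.pp [(1, 16500000)])))))) (.add (.mul (.g 4) (.add (.pp [(1,
 14094000000)]) (.add (.mul (.g 7) (.mul (.g 9) (.pp [(1, 276405000)]))) (.mul (.g 8) (.mul (.g 8)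
 (.pp [(1, 5520300000)])))))) (.add (.mul (.g 1) (.mul (.g 5) (.add (.pp [(1, 3017625000)]) (.mul
 (.g 5) (.pp [(1, 5409210000)]))))) (.mul (.g 9) (.pp [(1, 646500000)]))))))) (.add (.mul (.g 4)
 (.add (.add (.mul (.g 1) (.add (.pp [(1, 401130000)]) (.add (.mul (.g 2) (.mul (.g 2) (.pp [(1,
 120000)]))) (.mul (.g 4) (.mul (.g 4) (.pp [(1, 390000)])))))) (.mul (.g 11) (.add (.pp [(1,
 24564300000)]) (.mul (.g 4) (.pp [(1, 7998000000)]))))) (.add (.mul (.g 6) (.mul (.pp [(1, 900)])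
 (.sq [(2, -36), (3, 100), (5, -18), (7, -71)]))) (.mul (.g 7) (.pp [(1, 8014800000)]))))) (.add
 (.mul (.g 11) (.add (.add (.pp [(1, 2494200000)]) (.mul (.g 11) (.add (.mul (.pp [(1, 570)]) (.sq
 [(1, -24), (2, -28), (3, -45), (5, 100), (7, -23)])) (.mul (.g 1) (.mul (.g 6) (.pp [(1,
 128295000)])))))) (.add (.mul (.g 7) (.mul (.pp [(1, 30)]) (.sq [(1, -20), (2, -47), (3, 100), (5,
 89), (7, -94)]))) (.mul (.g 8) (.mul (.pp [(1, 150)]) (.sq [(1, -22), (2, -61), (3, 12), (5, 44),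
 (7, 100)])))))) (.mul (.g 2) (.add (.pp [(1, 17349600000)]) (.mul (.g 2) (.add (.pp [(1,
 83997600000)]) (.mul (.g 2) (.add (.pp [(1, 18928200000)]) (.mul (.g 1) (.pp [(1,
 196605000)]))))))))))) (.add (.add (.mul (.g 7) (.add (.mul (.pp [(1, 4680)]) (.sq [(2, 50), (3,
 29), (5, 29), (7, 29)])) (.add (.mul (.g 8) (.mul (.pp [(1, 210)]) (.sq [(1, 36), (2, 66), (3,
 -1), (5, 100), (7, 23)]))) (.mul (.g 9) (.mul (.pp [(1, 33)]) (.sq [(1, 24), (2, -41), (3, -61),
 (5, 39), (7, -100)])))))) (.mul (.g 0) (.pp [(1, 100000000000)]))) (.add (.mul (.g 8) (.mul (.g 8)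
 (.mul (.pp [(1, 300)]) (.sq [(1, -82), (2, -63), (3, 11), (5, 11), (7, 100)])))) (.add (.mul (.g
 9) (.pp [(1, 8850960000)])) (.mul (.g 10) (.pp [(1, 400000000)])))))) (.pp [(1, 3835975752), (2,
 3272016), (3, 2942622), (4, 2881971), (5, 3084792), (6, 2466474), (7, 3014160), (8, 3109797), (9,
 3301713), (10, 3110094), (12, 3019467), (14, 2608080), (15, 3096456), (16, 2933520), (18,
 3459333), (20, 3073377), (21, 3310020), (24, 2983590), (25, 2893443), (27, 2812173), (28,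
 3443670), (30, 3438306), (35, 2921040), (36, 3217050), (40, 2976480), (42, 3590100), (45,
 2340939), (49, 3172950), (50, 2942793), (54, 2755140), (56, 3037680), (60, 2900580), (63,
 3137460), (70, 2633220), (75, 2609319), (81, 3047280), (84, 2670180), (90, 2877840), (98,
 3484050), (100, 2913240), (105, 2803140), (125, 2934633), (126, 2774760), (135, 3062580), (140,
 2745780), (147, 2632290), (150, 3082440), (175, 3056790), (189, 2826240), (196, 2892090), (210,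
 3315180), (225, 3207030), (245, 2820210), (250, 3033600), (294, 2678580), (315, 3436560), (343,
 2886960), (350, 3206970), (375, 3134880), (441, 3105330), (490, 3229680), (525, 2798790), (625,
 3067560), (686, 2732520), (735, 3311940), (875, 3010770), (1029, 3164460), (1225, 2833050), (1715,
 3196920), (2401, 3034770)]))))
 (.rule 5 (.rule 6 (.leaf 1200000000 (.add (.add (.add (.add (.mul (.g 4) (.add (.add (.pp [(1,
 575328000000)]) (.add (.mul (.g 3) (.add (.add (.mul (.g 6) (.add (.add (.pp [(1, 667512000000)])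
 (.mul (.g 5) (.pp [(1, 215544000000)]))) (.add (.mul (.g 6) (.pp [(1, 1438596000000)])) (.add
 (.mul (.g 7) (.pp [(1, 2806908000000)])) (.mul (.g 12) (.pp [(1, 305376000000)])))))) (.add (.mul
 (.g 3) (.add (.mul (.g 4) (.pp [(1, 1054128000000)])) (.add (.mul (.g 5) (.pp [(1,
 366204000000)])) (.mul (.g 12) (.pp [(1, 919212000000)]))))) (.mul (.g 9) (.add (.mul (.g 4) (.pp
 [(1, 458964000000)])) (.add (.mul (.g 7) (.pp [(1, 459012000000)])) (.mul (.g 8) (.pp [(1,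
 312408000000)]))))))) (.add (.mul (.g 5) (.mul (.g 12) (.pp [(1, 2402952000000)]))) (.add (.mul
 (.g 7) (.mul (.g 10) (.pp [(1, 22438200000)]))) (.mul (.g 8) (.pp [(1, 1709568000000)])))))) (.mul
 (.g 4) (.add (.add (.pp [(1, 444072000000)]) (.mul (.g 5) (.add (.mul (.g 6) (.pp [(1,
 301776000000)])) (.add (.mul (.g 7) (.pp [(1, 16908000000)])) (.mul (.g 8) (.pp [(1,
 8880000000)])))))) (.add (.mul (.g 6) (.add (.mul (.g 10) (.pp [(1, 15758400000)])) (.mul (.g 12)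
 (.pp [(1, 307296000000)])))) (.add (.mul (.g 4) (.mul (.g 10) (.pp [(1, 618600000)]))) (.mul (.g
 8) (.mul (.g 12) (.pp [(1, 28092000000)]))))))))) (.add (.mul (.g 5) (.add (.mul (.g 5) (.add
 (.mul (.g 6) (.pp [(1, 302136000000)])) (.mul (.g 8) (.pp [(1, 7860000000)])))) (.add (.mul (.g
 12) (.add (.mul (.g 6) (.pp [(1, 1395624000000)])) (.mul (.g 12) (.pp [(1, 1198140000000)]))))
 (.mul (.g 7) (.mul (.g 7) (.pp [(1, 1223496000000)])))))) (.add (.mul (.g 6) (.add (.pp [(1,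
 492468000000)]) (.add (.mul (.g 2) (.mul (.g 6) (.pp [(1, 117731400000)]))) (.mul (.g 8) (.mul (.g
 12) (.pp [(1, 176892000000)])))))) (.mul (.g 8) (.pp [(1, 614820000000)])))))) (.mul (.g 12) (.add
 (.add (.add (.mul (.g 5) (.add (.add (.pp [(1, 33000000000)]) (.mul (.pp [(1, 37237200)]) (.sq
 [(1, -9), (2, -60), (3, 100), (5, -78), (7, 12)]))) (.add (.mul (.g 5) (.add (.mul (.g 6) (.pp
 [(1, 62592000000)])) (.mul (.g 8) (.pp [(1, 995724000000)])))) (.mul (.g 8) (.mul (.g 8) (.pp [(1,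
 783756000000)])))))) (.mul (.g 6) (.add (.pp [(1, 1754076000000)]) (.add (.mul (.g 12) (.add (.mul
 (.g 7) (.pp [(1, 402204000000)])) (.mul (.g 12) (.pp [(1, 420000000)])))) (.mul (.g 2) (.mul (.g
 6) (.pp [(1, 90195600000)]))))))) (.add (.mul (.g 7) (.add (.mul (.pp [(1, 54523200)]) (.sq [(1,
 -100), (2, 21), (3, 84), (5, 84), (7, 99)])) (.mul (.g 9) (.mul (.g 12) (.pp [(1,
 452748000000)]))))) (.mul (.g 10) (.add (.pp [(1, 10746000000)]) (.mul (.pp [(1, 272340)]) (.sq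
 [(1, -13), (2, -83), (3, -62), (5, 3), (7, 100)])))))) (.add (.add (.mul (.g 2) (.mul (.pp [(1,
 29421840)]) (.sq [(1, -31), (2, 38), (3, 3), (5, 3), (7, -50)]))) (.mul (.g 3) (.mul (.pp [(1,
 118498800)]) (.sq [(1, 33), (2, 43), (3, -32), (5, 37), (7, 100)])))) (.add (.mul (.g 8) (.mul
 (.pp [(1, 5701200)]) (.sq [(1, 39), (2, 65), (3, 12), (5, -51), (7, 100)]))) (.add (.mul (.g 9)
 (.pp [(1, 136260000000)])) (.mul (.g 12) (.mul (.pp [(1, 758400)]) (.sq [(1, 5), (2, 100), (3,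
 -66), (5, 89), (7, 20)]))))))))) (.add (.mul (.g 10) (.add (.add (.mul (.pp [(1, 258180)]) (.sq
 [(2, -8), (3, -53), (5, 3), (7, 100)])) (.add (.mul (.g 8) (.add (.add (.pp [(1, 340800000)])
 (.mul (.pp [(1, 513180)]) (.sq [(1, 53), (2, 97), (3, 73), (5, 3), (7, 100)]))) (.add (.mul (.g 3)
 (.pp [(1, 155020200000)])) (.mul (.g 5) (.mul (.g 5) (.pp [(1, 763800000)])))))) (.mul (.g 6)
 (.add (.mul (.g 2) (.pp [(1, 5134110000)])) (.mul (.g 6) (.pp [(1, 21906000000)])))))) (.add (.mul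
 (.g 7) (.add (.pp [(1, 373267200000)]) (.mul (.g 7) (.mul (.g 7) (.pp [(1, 16795200000)])))))
 (.add (.mul (.g 3) (.mul (.pp [(1, 623220)]) (.sq [(1, 62), (2, -79), (3, 100), (5, -9), (7,
 -63)]))) (.mul (.g 10) (.mul (.pp [(1, 3807)]) (.sq [(1, -46), (2, -34), (3, 36), (5, 100), (7,
 29)]))))))) (.add (.mul (.g 2) (.add (.mul (.g 5) (.add (.mul (.g 7) (.add (.pp [(1,
 37781400000)]) (.mul (.g 3) (.pp [(1, 13329600000)])))) (.mul (.g 8) (.pp [(1, 13422000000)]))))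
 (.mul (.g 3) (.mul (.g 3) (.mul (.g 9) (.pp [(1, 20676000000)])))))) (.mul (.g 7) (.add (.mul (.pp
 [(1, 8844000)]) (.sq [(2, 100), (3, 54), (5, 93), (7, -49)])) (.mul (.g 7) (.mul (.pp [(1,
 113208000)]) (.sq [(1, -25), (2, 18), (3, 13), (5, 13), (7, 100)])))))))) (.add (.add (.mul (.g 8)
 (.mul (.g 8) (.add (.mul (.pp [(1, 14953200)]) (.sq [(1, -13), (2, -68), (3, -44), (5, -1), (7,
 100)])) (.mul (.g 3) (.mul (.g 9) (.pp [(1, 12924000000)])))))) (.mul (.g 0) (.pp [(1,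
 4000000000000)]))) (.add (.mul (.g 1) (.pp [(1, 4000000000000)])) (.add (.mul (.g 9) (.mul (.pp
 [(1, 5233200)]) (.sq [(2, 100), (3, -40), (5, -40), (7, -3)]))) (.mul (.g 11) (.pp [(1,
 16000000000)])))))) (.pp [(1, 96148040388), (2, 114208884), (3, 104249304), (4, 118197708), (5,
 105675780), (6, 154946736), (7, 103520976), (8, 142234640), (9, 112980648), (10, 117079920), (12,
 119752040), (14, 151495284), (15, 118622760), (16, 117187200), (18, 78842420), (20, 119605940),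
 (21, 141980664), (24, 130120800), (25, 112999500), (27, 135268740), (28, 110478660), (30,
 126054480), (35, 130845360), (36, 101354400), (40, 119014800), (42, 75906960), (45, 105106380),
 (49, 137628153), (50, 117644120), (54, 127358400), (56, 129013200), (60, 101102400), (63,
 134770560), (70, 123750240), (75, 134496360), (81, 120716400), (84, 112332000), (90, 118656000),
 (98, 110073900), (100, 127125600), (105, 108167760), (125, 112850820), (126, 142262400), (135,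
 141244800), (140, 106936800), (147, 116742120), (150, 134774400), (175, 135093900), (189,
 109435200), (196, 137383200), (210, 86805600), (225, 120682800), (245, 109246920), (250,
 110365200), (294, 117440400), (315, 129235200), (343, 124123200), (350, 136102800), (375,
 129578400), (441, 117526800), (490, 86475600), (525, 103881600), (625, 125419200), (686,
 124516800), (735, 133082400), (875, 119884800), (1029, 111456000), (1225, 120320400), (1715,
 118252800), (2401, 116640000)]))))))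
 (P_c4 ++ xP_A_F3) = true := by decide +kernel

theorem t_A_F3_free : chk RFp gP_A_F3
 (.split [(1, 1), (2, -20)]
 (.rule 4 (.leaf 6000 (.add (.add (.mul (.g 2) (.add (.add (.mul (.g 1) (.add (.add (.pp [(1,
 71127)]) (.mul (.g 3) (.add (.add (.pp [(1, 2041158)]) (.mul (.g 2) (.pp [(1, 30)]))) (.add (.mul
 (.g 3) (.pp [(1, 60)])) (.add (.mul (.g 4) (.pp [(1, 30)])) (.mul (.g 5) (.pp [(1, 30)])))))))
 (.add (.mul (.g 4) (.add (.add (.pp [(1, 44106)]) (.mul (.g 2) (.pp [(1, 30)]))) (.add (.mul (.g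
 4) (.pp [(1, 60)])) (.mul (.g 5) (.pp [(1, 30)]))))) (.add (.mul (.g 2) (.add (.mul (.g 2) (.pp
 [(1, 39330)])) (.mul (.g 5) (.pp [(1, 288330)])))) (.mul (.g 5) (.pp [(1, 482079)])))))) (.add
 (.mul (.g 3) (.add (.add (.mul (.g 3) (.add (.add (.pp [(1, 39984060)]) (.mul (.g 3) (.pp [(1,
 600)]))) (.add (.mul (.g 9) (.pp [(1, 30)])) (.mul (.g 11) (.pp [(1, 600)]))))) (.mul (.g 5) (.add
 (.pp [(1, 15350220)]) (.mul (.g 5) (.pp [(1, 21636000)]))))) (.add (.mul (.g 4) (.mul (.g 4) (.pp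
 [(1, 600)]))) (.mul (.g 9) (.pp [(1, 2955894)]))))) (.mul (.g 11) (.add (.add (.mul (.g 4) (.add
 (.pp [(1, 18296580)]) (.add (.mul (.g 4) (.pp [(1, 600)])) (.mul (.g 5) (.pp [(1, 600)]))))) (.mul
 (.g 5) (.add (.pp [(1, 35320140)]) (.mul (.g 5) (.pp [(1, 21636600)]))))) (.add (.mul (.g 9) (.pp
 [(1, 914769)])) (.mul (.g 11) (.pp [(1, 836940)]))))))) (.add (.mul (.g 4) (.add (.mul (.g 4)
 (.add (.pp [(1, 879960)]) (.mul (.g 9) (.pp [(1, 30)])))) (.mul (.g 9) (.pp [(1, 44076)])))) (.add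
 (.mul (.g 2) (.add (.mul (.g 2) (.pp [(1, 3788040)])) (.mul (.g 5) (.mul (.g 5) (.pp [(1,
 14351400)]))))) (.mul (.g 9) (.pp [(1, 22131)])))))) (.add (.mul (.g 0) (.pp [(1, 20000000)]))
 (.mul (.g 10) (.pp [(1, 20000000)])))) (.pp [(2, 187833), (4, 540), (6, 597), (8, 630), (10, 630),
 (12, 630), (14, 582), (16, 600), (18, 570), (20, 570), (24, 600), (28, 630), (30, 570), (36, 600),
 (40, 600), (42, 630), (50, 630), (54, 600), (56, 600), (60, 600), (70, 570), (84, 600), (90, 600),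
 (98, 600), (100, 600), (126, 600), (140, 600), (150, 600), (196, 600), (210, 600), (250, 600),
 (294, 600), (350, 600), (490, 600), (686, 600)]))))
 (.split [(2, 1), (3, -1)]
 (.split [(2, 1), (5, -1)]
 (.rule 0 (.rule 2 (.leaf 60000000 (.add (.add (.add (.add (.mul (.g 14) (.add (.add (.add (.mul
 (.pp [(1, 96720)]) (.sq [(2, 39), (3, 39), (5, 50), (7, 50)])) (.mul (.g 8) (.add (.add (.add (.pp
 [(1, 16193400000)]) (.mul (.pp [(1, 748080)]) (.sq [(1, 50), (2, 31), (3, 41), (5, 41), (7,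
 41)]))) (.add (.mul (.g 3) (.add (.pp [(1, 20573400000)]) (.mul (.g 7) (.pp [(1, 26124000000)]))))
 (.mul (.g 4) (.add (.mul (.g 8) (.pp [(1, 20906100000)])) (.mul (.g 14) (.pp [(1,
 10179090000)])))))) (.add (.add (.mul (.g 2) (.mul (.g 2) (.pp [(1, 12127200000)]))) (.mul (.g 5)
 (.mul (.g 9) (.pp [(1, 106091400000)])))) (.add (.mul (.g 6) (.mul (.g 8) (.pp [(1,
 1376400000)]))) (.mul (.g 7) (.mul (.g 7) (.pp [(1, 88063800000)])))))))) (.add (.mul (.g 7) (.add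
 (.add (.pp [(1, 18434400000)]) (.mul (.g 14) (.add (.add (.mul (.g 3) (.pp [(1, 32092800000)]))
 (.mul (.g 6) (.pp [(1, 42624600000)]))) (.add (.mul (.g 7) (.pp [(1, 85389600000)])) (.mul (.g 14)
 (.pp [(1, 1860000000)])))))) (.add (.mul (.g 5) (.mul (.g 5) (.pp [(1, 8034600000)]))) (.mul (.g
 7) (.mul (.g 7) (.pp [(1, 25888200000)])))))) (.mul (.g 6) (.add (.add (.pp [(1, 13351200000)])
 (.mul (.g 2) (.add (.mul (.g 2) (.pp [(1, 54104400000)])) (.mul (.g 6) (.pp [(1,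
 17077200000)]))))) (.add (.mul (.g 5) (.mul (.g 5) (.pp [(1, 136716600000)]))) (.mul (.g 6) (.mul
 (.g 12) (.pp [(1, 4140000)])))))))) (.add (.add (.mul (.g 2) (.add (.mul (.pp [(1, 2783580)]) (.sq
 [(1, 74), (2, 100), (3, 16), (5, 37), (7, 1)])) (.mul (.g 5) (.pp [(1, 98872200000)])))) (.mul (.g
 4) (.add (.pp [(1, 3736740000)]) (.mul (.g 4) (.mul (.g 14) (.pp [(1, 34776000)])))))) (.add (.mul
 (.g 5) (.mul (.g 5) (.pp [(1, 6282600000)]))) (.add (.mul (.g 10) (.mul (.pp [(1, 349620)]) (.sq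
 [(1, 4), (2, 4), (3, 100), (5, -32), (7, 73)]))) (.mul (.g 14) (.mul (.pp [(1, 372060)]) (.sq [(1,
 -100), (2, 45), (3, 18), (5, 58), (7, 58)])))))))) (.mul (.g 2) (.add (.add (.mul (.g 7) (.add
 (.add (.pp [(1, 75072600000)]) (.mul (.g 2) (.add (.pp [(1, 108802200000)]) (.mul (.g 6) (.pp [(1,
 36147600000)]))))) (.add (.mul (.g 3) (.mul (.g 8) (.pp [(1, 92810400000)]))) (.add (.mul (.g 6)
 (.mul (.g 6) (.pp [(1, 211228200000)]))) (.mul (.g 7) (.mul (.g 12) (.pp [(1, 126300000)])))))))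
 (.mul (.g 11) (.add (.add (.pp [(1, 1662600000)]) (.mul (.g 2) (.pp [(1, 69841200000)]))) (.add
 (.mul (.g 3) (.pp [(1, 39392400000)])) (.mul (.g 5) (.pp [(1, 75589800000)])))))) (.add (.mul (.g
 6) (.add (.pp [(1, 5586600000)]) (.add (.mul (.pp [(1, 2776080)]) (.sq [(1, -11), (2, -36), (3,
 -94), (5, 64), (7, 100)])) (.mul (.g 2) (.mul (.g 6) (.pp [(1, 122199000000)])))))) (.add (.mul
 (.g 2) (.mul (.pp [(1, 2589960)]) (.sq [(1, 3), (2, 43), (3, 100), (5, -7), (7, -90)]))) (.mul (.g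
 8) (.pp [(1, 2575800000)]))))))) (.add (.mul (.g 3) (.add (.add (.mul (.g 6) (.add (.mul (.g 8)
 (.add (.mul (.g 9) (.pp [(1, 319449000000)])) (.mul (.g 12) (.pp [(1, 23768250000)])))) (.add
 (.mul (.g 3) (.pp [(1, 206169000000)])) (.mul (.g 7) (.mul (.g 7) (.pp [(1, 4575000000)]))))))
 (.mul (.g 9) (.add (.mul (.g 4) (.add (.mul (.g 4) (.pp [(1, 19440000)])) (.mul (.g 11) (.pp [(1,
 421710000)])))) (.mul (.g 9) (.mul (.g 10) (.pp [(1, 8860800000)])))))) (.add (.mul (.g 5) (.mul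
 (.pp [(1, 2013720)]) (.sq [(1, -26), (2, -33), (3, -64), (5, -26), (7, 100)]))) (.mul (.g 11) (.pp
 [(1, 6554400000)]))))) (.add (.mul (.g 12) (.add (.add (.mul (.g 6) (.add (.mul (.g 8) (.add (.pp
 [(1, 594420000)]) (.mul (.g 6) (.pp [(1, 62864280000)])))) (.mul (.g 5) (.pp [(1, 6459810000)]))))
 (.mul (.g 7) (.add (.mul (.g 4) (.pp [(1, 112693500)])) (.add (.mul (.g 7) (.mul (.g 9) (.pp [(1,
 379380000)]))) (.mul (.g 8) (.mul (.g 11) (.pp [(1, 5698260000)]))))))) (.add (.mul (.g 4) (.pp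
 [(1, 13707000)])) (.mul (.g 11) (.mul (.pp [(1, 5559)]) (.sq [(1, 5), (2, -100), (3, -74), (5,
 -86), (7, 77)])))))) (.mul (.g 7) (.mul (.g 7) (.add (.mul (.g 8) (.add (.mul (.g 6) (.pp [(1,
 62758200000)])) (.mul (.g 11) (.pp [(1, 136424400000)])))) (.mul (.g 9) (.add (.mul (.g 4) (.pp
 [(1, 89220000)])) (.mul (.g 7) (.pp [(1, 5339400000)])))))))))) (.add (.add (.mul (.g 4) (.mul (.g
 9) (.add (.pp [(1, 9150000)]) (.mul (.g 5) (.mul (.g 10) (.pp [(1, 1152840000)])))))) (.mul (.g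
 11) (.add (.mul (.g 6) (.mul (.g 6) (.mul (.g 8) (.pp [(1, 765085200000)])))) (.mul (.g 10) (.mul
 (.pp [(1, 409080)]) (.sq [(1, -15), (2, -22), (3, -87), (5, 67), (7, 100)])))))) (.add (.mul (.g
 0) (.pp [(1, 200000000000)])) (.add (.mul (.g 1) (.pp [(1, 200000000000)])) (.mul (.g 13) (.pp
 [(1, 200000000000)])))))) (.pp [(1, 108283080), (2, 5737935), (3, 6526065), (4, 7231560), (5,
 6284445), (6, 5112900), (7, 6813840), (8, 5640400), (9, 5708160), (10, 5377020), (12, 5946120),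
 (14, 5454510), (15, 5409000), (16, 5817600), (18, 6575316), (20, 5752320), (21, 4389090), (24,
 5958840), (25, 5280960), (27, 6515324), (28, 5582520), (30, 6530328), (35, 4768290), (36,
 6481740), (40, 6223200), (42, 6827724), (45, 5859156), (49, 4867260), (50, 4959096), (54,
 6243360), (56, 6112320), (60, 6844080), (63, 7293876), (70, 7672476), (75, 7519236), (81,
 5600760), (84, 5882760), (90, 4539840), (98, 6774279), (100, 6455160), (105, 6200640), (125,
 6555224), (126, 3803280), (135, 5893920), (140, 5861040), (147, 7739361), (150, 5767980), (175,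
 6432564), (189, 6515040), (196, 5887680), (210, 5559000), (225, 5678400), (245, 6920601), (250,
 5805360), (294, 6279720), (315, 8673840), (343, 6636180), (350, 6600060), (375, 5974980), (441,
 5496840), (490, 5311920), (525, 5653800), (625, 5739360), (686, 5574720), (735, 5751240), (875,
 6122580), (1029, 5761500), (1225, 6062580), (1715, 5916720), (2401, 5912640)])))))
 (.rule 0 (.rule 3 (.leaf 12000000 (.add (.add (.add (.add (.mul (.g 6) (.add (.add (.add (.mul (.g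
 8) (.add (.add (.mul (.g 7) (.add (.add (.pp [(1, 7525080000)]) (.mul (.g 7) (.pp [(1,
 3720000)]))) (.add (.mul (.g 8) (.pp [(1, 3521640000)])) (.mul (.g 14) (.pp [(1, 1680000)])))))
 (.mul (.g 2) (.add (.mul (.g 6) (.pp [(1, 3521880000)])) (.mul (.g 14) (.pp [(1, 3521160000)])))))
 (.add (.mul (.g 4) (.add (.mul (.g 8) (.pp [(1, 1987746000)])) (.mul (.g 9) (.pp [(1,
 1257576000)])))) (.mul (.g 3) (.mul (.g 8) (.pp [(1, 1200000)])))))) (.mul (.g 6) (.add (.pp [(1,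
 3541680000)]) (.add (.mul (.g 6) (.add (.mul (.g 7) (.pp [(1, 24549240000)])) (.add (.mul (.g 9)
 (.pp [(1, 24549840000)])) (.mul (.g 14) (.pp [(1, 1200000)]))))) (.mul (.g 2) (.add (.mul (.g 2)
 (.pp [(1, 24552480000)])) (.mul (.g 12) (.pp [(1, 1227462000)])))))))) (.add (.mul (.g 5) (.add
 (.mul (.g 5) (.add (.mul (.g 5) (.pp [(1, 23708160000)])) (.mul (.g 9) (.pp [(1, 1163400000)]))))
 (.add (.mul (.g 4) (.mul (.g 9) (.pp [(1, 550986000)]))) (.mul (.g 12) (.pp [(1, 5998956000)])))))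
 (.mul (.g 7) (.add (.mul (.g 2) (.add (.mul (.g 7) (.pp [(1, 3120000)])) (.mul (.g 14) (.pp [(1,
 960000)])))) (.mul (.g 14) (.pp [(1, 11043840000)])))))) (.add (.add (.mul (.g 3) (.mul (.g 3)
 (.pp [(1, 17432880000)]))) (.mul (.g 9) (.mul (.pp [(1, 2064)]) (.sq [(1, -29), (2, 28), (5, 16),
 (7, 50)])))) (.add (.mul (.g 12) (.pp [(1, 438852000)])) (.mul (.g 14) (.mul (.g 14) (.pp [(1,
 1975680000)]))))))) (.mul (.g 14) (.add (.add (.mul (.g 8) (.add (.add (.mul (.g 7) (.add (.add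
 (.pp [(1, 240000)]) (.mul (.g 3) (.pp [(1, 960000)]))) (.add (.mul (.g 7) (.pp [(1, 1320000)]))
 (.mul (.g 8) (.pp [(1, 1200000)]))))) (.mul (.g 5) (.add (.pp [(1, 55420920000)]) (.add (.mul (.g
 8) (.pp [(1, 43273200000)])) (.mul (.g 9) (.pp [(1, 25156200000)])))))) (.add (.mul (.g 8) (.add
 (.pp [(1, 12720000)]) (.mul (.g 8) (.pp [(1, 1200000)])))) (.mul (.g 14) (.pp [(1, 10320000)])))))
 (.add (.mul (.g 3) (.add (.pp [(1, 5220600000)]) (.add (.mul (.g 5) (.add (.pp [(1, 26190000000)])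
 (.mul (.g 7) (.pp [(1, 3240000)])))) (.mul (.g 3) (.pp [(1, 3957960000)]))))) (.mul (.g 5) (.add
 (.mul (.g 5) (.mul (.g 5) (.pp [(1, 11533440000)]))) (.mul (.g 14) (.pp [(1, 11785800000)]))))))
 (.add (.mul (.g 7) (.add (.mul (.g 9) (.mul (.g 9) (.pp [(1, 120000)]))) (.mul (.g 10) (.mul (.g
 12) (.pp [(1, 60000)]))))) (.add (.mul (.g 2) (.pp [(1, 2760000)])) (.mul (.g 14) (.pp [(1,
 5760000)]))))))) (.add (.mul (.g 9) (.add (.add (.mul (.g 4) (.add (.add (.pp [(1, 28734000)])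
 (.mul (.g 2) (.mul (.g 9) (.pp [(1, 330000)])))) (.add (.mul (.g 5) (.pp [(1, 273312000)])) (.mul
 (.g 7) (.mul (.g 7) (.pp [(1, 174000)])))))) (.mul (.g 3) (.add (.pp [(1, 691680000)]) (.mul (.g
 5) (.add (.mul (.g 3) (.pp [(1, 4080000)])) (.mul (.g 7) (.pp [(1, 7200000)]))))))) (.add (.mul
 (.g 5) (.mul (.g 5) (.mul (.g 5) (.pp [(1, 1563120000)])))) (.mul (.g 7) (.mul (.g 7) (.mul (.g
 12) (.pp [(1, 42000)]))))))) (.mul (.g 12) (.add (.add (.pp [(1, 228000)]) (.mul (.pp [(1, 24)])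
 (.sq [(2, 100), (3, 77), (5, 67), (7, 67)]))) (.add (.mul (.g 7) (.add (.pp [(1, 24000)]) (.add
 (.mul (.g 5) (.add (.mul (.g 7) (.pp [(1, 216000)])) (.mul (.g 8) (.pp [(1, 168000)])))) (.mul (.g
 7) (.mul (.g 11) (.pp [(1, 66000)])))))) (.mul (.g 5) (.pp [(1, 113778000)]))))))) (.add (.add
 (.mul (.g 2) (.add (.mul (.g 2) (.mul (.pp [(1, 24)]) (.sq [(1, 41), (2, 32), (3, 100), (5, -82),
 (7, -34)]))) (.mul (.g 3) (.pp [(1, 2262480000)])))) (.mul (.g 4) (.add (.mul (.g 5) (.mul (.g 8)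
 (.mul (.g 8) (.pp [(1, 177324000)])))) (.mul (.g 10) (.mul (.pp [(1, 3)]) (.sq [(1, 95), (2, 100),
 (3, 100), (5, 17), (7, 30)])))))) (.add (.mul (.g 0) (.pp [(1, 40000000000)])) (.add (.mul (.g 1)
 (.pp [(1, 40000000000)])) (.mul (.g 13) (.pp [(1, 40000000000)])))))) (.pp [(1, 20949075), (2,
 1228575), (3, 1306101), (4, 1233156), (5, 1236615), (6, 1324860), (7, 1217100), (8, 1497024), (9,
 1092336), (10, 1336878), (12, 1085088), (14, 1118700), (15, 950214), (16, 1175424), (18, 1294080),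
 (20, 1147728), (21, 1213812), (24, 1104576), (25, 997209), (27, 1175920), (28, 1110912), (30,
 990024), (35, 1226712), (36, 1200000), (40, 1171104), (42, 1360560), (45, 1500360), (49, 1193076),
 (50, 992679), (54, 1200000), (56, 1132224), (60, 1110144), (63, 1214640), (70, 1282596), (75,
 1517109), (81, 1200000), (84, 1262400), (90, 1164000), (98, 1237980), (100, 1068804), (105,
 1318620), (125, 1361229), (126, 1080000), (135, 1200000), (140, 1260528), (147, 1138020), (150,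
 1368924), (175, 1313292), (189, 1200000), (196, 1238256), (210, 1117200), (225, 1200000), (245,
 1192020), (250, 1306044), (294, 1134000), (315, 1200000), (343, 1200000), (350, 1341072), (375,
 1113600), (441, 1200000), (490, 1069488), (525, 1123200), (625, 1158624), (686, 1200000), (735,
 1440000), (875, 1066176), (1029, 1200000), (1225, 1292256), (1715, 1200000), (2401, 1200000)]))))))
 (.split [(2, 1), (5, -1)]
 (.rule 1 (.rule 2 (.leaf 60000000 (.add (.add (.add (.add (.mul (.g 14) (.add (.add (.add (.mul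
 (.g 8) (.add (.add (.mul (.pp [(1, 3242280)]) (.sq [(1, 57), (2, -100), (3, 9), (5, -48), (7,
 -88)])) (.add (.mul (.pp [(1, 680640)]) (.sq [(1, 50), (2, 31), (3, 41), (5, 41), (7, 41)])) (.mul
 (.g 6) (.add (.pp [(1, 5560200000)]) (.add (.mul (.g 6) (.pp [(1, 18115200000)])) (.mul (.g 12)
 (.pp [(1, 1831140000)]))))))) (.add (.mul (.g 8) (.add (.pp [(1, 14979000000)]) (.add (.mul (.g 2)
 (.pp [(1, 37098600000)])) (.mul (.g 5) (.pp [(1, 13386600000)]))))) (.add (.mul (.g 4) (.add (.pp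
 [(1, 16283220000)]) (.mul (.g 9) (.pp [(1, 2595120000)])))) (.mul (.g 7) (.pp [(1,
 9040800000)])))))) (.mul (.g 5) (.add (.add (.mul (.pp [(1, 8434980)]) (.sq [(1, -3), (3, -2), (5,
 2), (7, 100)])) (.mul (.g 5) (.add (.mul (.g 5) (.pp [(1, 26685000000)])) (.mul (.g 7) (.pp [(1,
 3177000000)]))))) (.add (.mul (.g 4) (.pp [(1, 1264770000)])) (.mul (.g 7) (.pp [(1,
 95863800000)])))))) (.add (.mul (.g 6) (.add (.mul (.g 2) (.add (.mul (.g 3) (.pp [(1,
 21100200000)])) (.mul (.g 10) (.pp [(1, 29442000000)])))) (.mul (.g 14) (.mul (.g 14) (.pp [(1,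
 11666400000)]))))) (.mul (.g 7) (.add (.mul (.g 7) (.add (.pp [(1, 8571000000)]) (.mul (.g 7) (.pp
 [(1, 747600000)])))) (.mul (.g 4) (.pp [(1, 1401330000)])))))) (.add (.add (.mul (.g 12) (.add
 (.pp [(1, 259830000)]) (.mul (.pp [(1, 31218)]) (.sq [(1, -19), (2, -59), (3, 100), (5, 55), (7,
 50)])))) (.mul (.g 14) (.add (.mul (.pp [(1, 909720)]) (.sq [(1, 1), (2, 3), (3, -100), (5, 14),
 (7, 96)])) (.mul (.pp [(1, 1786260)]) (.sq [(1, 33), (2, -65), (5, -32), (7, 100)]))))) (.add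
 (.mul (.g 3) (.mul (.pp [(1, 862560)]) (.sq [(1, 21), (2, 51), (3, 100), (5, -35), (7, -42)])))
 (.mul (.g 4) (.pp [(1, 1971900000)])))))) (.mul (.g 8) (.add (.add (.mul (.pp [(1, 4407240)]) (.sq
 [(2, 1), (3, 100), (5, 21), (7, -7)])) (.mul (.g 3) (.add (.mul (.g 2) (.add (.mul (.g 6) (.pp
 [(1, 118449000000)])) (.mul (.g 8) (.pp [(1, 8511600000)])))) (.add (.mul (.g 4) (.add (.pp [(1,
 4405590000)]) (.mul (.g 8) (.pp [(1, 11349090000)])))) (.mul (.g 12) (.add (.mul (.g 10) (.pp [(1,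
 4221930000)])) (.mul (.g 11) (.pp [(1, 4018500000)])))))))) (.add (.mul (.g 6) (.add (.mul (.g 7)
 (.add (.mul (.g 9) (.pp [(1, 64332600000)])) (.mul (.g 11) (.pp [(1, 19635600000)])))) (.add (.mul
 (.g 2) (.mul (.g 10) (.pp [(1, 10085400000)]))) (.mul (.g 5) (.mul (.g 11) (.pp [(1,
 52979400000)])))))) (.add (.mul (.g 11) (.mul (.g 11) (.add (.pp [(1, 1253400000)]) (.mul (.g 11)
 (.pp [(1, 3604200000)]))))) (.mul (.g 4) (.mul (.g 4) (.mul (.g 8) (.pp [(1, 1003111500)])))))))))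
 (.add (.mul (.g 2) (.add (.add (.mul (.g 7) (.add (.pp [(1, 9312600000)]) (.add (.mul (.g 2) (.pp
 [(1, 195180000000)])) (.mul (.g 6) (.mul (.g 7) (.pp [(1, 6403200000)])))))) (.add (.mul (.g 3)
 (.add (.pp [(1, 67152600000)]) (.mul (.pp [(1, 2711940)]) (.sq [(1, 15), (2, 31), (3, -63), (5,
 24), (7, 100)])))) (.mul (.g 2) (.mul (.pp [(1, 411780)]) (.sq [(1, 72), (2, 93), (3, 100), (5,
 27), (7, 25)]))))) (.add (.add (.mul (.g 4) (.pp [(1, 7476480000)])) (.mul (.g 6) (.mul (.pp [(1,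
 112800)]) (.sq [(1, -59), (2, -50), (3, -100), (5, -27), (7, 100)])))) (.add (.mul (.g 9) (.mul
 (.pp [(1, 215520)]) (.sq [(1, 67), (2, -42), (3, -65), (5, 59), (7, 100)]))) (.mul (.g 10) (.mul
 (.pp [(1, 313320)]) (.sq [(1, -13), (2, -59), (3, -99), (5, -40), (7, 100)]))))))) (.add (.mul (.g
 4) (.add (.add (.mul (.g 6) (.mul (.g 6) (.add (.pp [(1, 1622970000)]) (.add (.mul (.g 5) (.pp
 [(1, 168480000)])) (.mul (.g 12) (.pp [(1, 55162500)])))))) (.mul (.g 7) (.add (.mul (.g 7) (.add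
 (.pp [(1, 7377900000)]) (.mul (.g 5) (.pp [(1, 300810000)])))) (.mul (.g 4) (.mul (.g 4) (.pp [(1,
 1199400)])))))) (.add (.mul (.g 3) (.add (.pp [(1, 4314840000)]) (.mul (.pp [(1, 103263)]) (.sq
 [(1, 72), (2, 15), (3, -74), (5, 51), (7, 100)])))) (.mul (.g 12) (.pp [(1, 385206000)]))))) (.mul
 (.g 9) (.add (.add (.mul (.g 7) (.add (.mul (.g 3) (.pp [(1, 67691400000)])) (.mul (.g 7) (.mul
 (.g 7) (.pp [(1, 5760000000)]))))) (.mul (.g 5) (.mul (.g 5) (.mul (.g 5) (.pp [(1,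
 8745600000)]))))) (.add (.mul (.g 10) (.mul (.pp [(1, 378720)]) (.sq [(1, 50), (2, -29), (3, -42),
 (5, -44), (7, -29)]))) (.mul (.g 12) (.mul (.pp [(1, 42468)]) (.sq [(1, -15), (2, 2), (3, 100),
 (5, 20), (7, -58)]))))))))) (.add (.add (.mul (.g 7) (.add (.mul (.g 5) (.mul (.g 12) (.pp [(1,
 18349440000)]))) (.mul (.g 10) (.mul (.pp [(1, 133020)]) (.sq [(1, -14), (2, 13), (3, -90), (5,
 82), (7, 100)]))))) (.add (.mul (.g 0) (.pp [(1, 200000000000)])) (.mul (.g 1) (.pp [(1,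
 200000000000)])))) (.add (.mul (.g 6) (.mul (.g 6) (.mul (.g 6) (.mul (.g 6) (.pp [(1,
 4356000000)]))))) (.add (.mul (.g 11) (.mul (.g 11) (.mul (.pp [(1, 110640)]) (.sq [(1, 98), (2,
 2), (3, -73), (5, -28), (7, 100)])))) (.mul (.g 13) (.pp [(1, 200000000000)])))))) (.pp [(1,
 19912158), (2, 5987124), (3, 6296994), (4, 5550270), (5, 6192540), (6, 5894772), (7, 5947962), (8,
 5882553), (9, 5353872), (10, 5779008), (12, 6224757), (14, 6619128), (15, 5529792), (16, 5941380),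
 (18, 6223992), (20, 6138150), (21, 5837520), (24, 5996760), (25, 6206070), (27, 7001388), (28,
 6340698), (30, 6651174), (35, 6370140), (36, 6220080), (40, 6358200), (42, 5107680), (45,
 6052236), (49, 5985792), (50, 5575617), (54, 5973540), (56, 5217120), (60, 6147600), (63,
 6352200), (70, 6064020), (75, 6484833), (81, 5599440), (84, 8353920), (90, 5624820), (98,
 5251008), (100, 6019320), (105, 6167280), (125, 6070520), (126, 4083120), (135, 6341100), (140,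
 7611360), (147, 6588600), (150, 6591660), (175, 5561610), (189, 6044520), (196, 5630160), (210,
 3545520), (225, 5773200), (245, 4964520), (250, 5968560), (294, 6614880), (315, 7420800), (343,
 6325920), (350, 4648080), (375, 5272680), (441, 5541000), (490, 6360840), (525, 6573240), (625,
 6185100), (686, 6040320), (735, 6010560), (875, 6480000), (1029, 5433120), (1225, 6191100), (1715,
 6329760), (2401, 5792640)])))))
 (.rule 1 (.rule 3 (.leaf 1200000000 (.add (.add (.add (.add (.mul (.pp [(1, 28206000)]) (.sq [(1,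
 -23), (2, 26), (3, 100), (5, -33), (7, 19)])) (.mul (.g 8) (.add (.add (.mul (.g 14) (.add (.add
 (.mul (.pp [(1, 19330800)]) (.sq [(1, -43), (2, -27), (3, 100), (5, 4)])) (.add (.mul (.g 5) (.add
 (.add (.pp [(1, 4050864000000)]) (.mul (.g 8) (.pp [(1, 4033368000000)]))) (.add (.mul (.g 9) (.pp
 [(1, 204288000000)])) (.mul (.g 11) (.pp [(1, 2349384000000)]))))) (.mul (.g 8) (.add (.pp [(1,
 65208000000)]) (.mul (.g 8) (.pp [(1, 180000000)])))))) (.add (.mul (.g 4) (.pp [(1,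
 113433000000)])) (.add (.mul (.g 6) (.mul (.g 12) (.pp [(1, 29793600000)]))) (.mul (.g 10) (.mul
 (.g 14) (.pp [(1, 93012000000)]))))))) (.mul (.g 3) (.add (.add (.mul (.g 5) (.add (.mul (.g 6)
 (.pp [(1, 4884780000000)])) (.mul (.g 7) (.pp [(1, 1289532000000)])))) (.mul (.g 8) (.add (.mul
 (.g 6) (.pp [(1, 171612000000)])) (.mul (.g 9) (.pp [(1, 27624000000)]))))) (.add (.mul (.g 2)
 (.mul (.g 2) (.pp [(1, 317316000000)]))) (.add (.mul (.g 4) (.mul (.g 9) (.pp [(1,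
 76714200000)]))) (.mul (.g 7) (.mul (.g 12) (.pp [(1, 42904200000)])))))))) (.add (.mul (.g 6)
 (.add (.mul (.g 6) (.add (.pp [(1, 50808000000)]) (.add (.mul (.g 7) (.pp [(1, 576816000000)]))
 (.mul (.g 12) (.pp [(1, 38182200000)]))))) (.add (.mul (.g 2) (.mul (.g 2) (.pp [(1,
 1928640000000)]))) (.mul (.g 4) (.mul (.g 8) (.pp [(1, 359029800000)])))))) (.add (.mul (.g 4)
 (.add (.mul (.g 8) (.add (.mul (.g 2) (.pp [(1, 44845200000)])) (.mul (.g 4) (.pp [(1,
 3376500000)])))) (.mul (.g 7) (.mul (.g 7) (.pp [(1, 18063000000)]))))) (.mul (.g 2) (.mul (.g 12)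
 (.mul (.g 12) (.pp [(1, 1214340000)]))))))))) (.add (.mul (.g 6) (.add (.add (.mul (.g 6) (.add
 (.mul (.g 6) (.add (.mul (.g 3) (.pp [(1, 664536000000)])) (.add (.mul (.g 4) (.pp [(1,
 38128200000)])) (.mul (.g 12) (.pp [(1, 26107800000)]))))) (.add (.mul (.g 2) (.mul (.g 2) (.pp
 [(1, 1725024000000)]))) (.mul (.g 12) (.pp [(1, 27229200000)]))))) (.add (.mul (.g 7) (.add (.add
 (.mul (.g 2) (.add (.mul (.g 2) (.pp [(1, 492864000000)])) (.mul (.g 14) (.pp [(1,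
 1328088000000)])))) (.mul (.g 3) (.mul (.g 3) (.pp [(1, 588540000000)])))) (.add (.mul (.g 4)
 (.mul (.g 4) (.pp [(1, 937590000)]))) (.mul (.g 9) (.mul (.g 12) (.pp [(1, 25380000000)]))))))
 (.mul (.g 10) (.add (.mul (.pp [(1, 650246400)]) (.sq [(1, -2), (2, 3), (3, 25), (5, -11)])) (.mul
 (.g 5) (.mul (.g 5) (.pp [(1, 970344000000)]))))))) (.add (.mul (.g 14) (.add (.mul (.g 2) (.mul
 (.g 2) (.pp [(1, 644832000000)]))) (.mul (.g 14) (.mul (.g 14) (.pp [(1, 1356000000)]))))) (.add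
 (.mul (.g 3) (.mul (.g 3) (.mul (.g 3) (.pp [(1, 305124000000)])))) (.mul (.g 12) (.pp [(1,
 31244400000)])))))) (.add (.mul (.g 12) (.add (.add (.add (.mul (.pp [(1, 2489040)]) (.sq [(1,
 -4), (2, 46), (3, 76), (5, 100), (7, -35)])) (.mul (.g 14) (.add (.add (.pp [(1, 8014200000)])
 (.mul (.pp [(1, 558960)]) (.sq [(1, 9), (2, -9), (3, -50), (5, 19), (7, 47)]))) (.add (.mul (.pp
 [(1, 345720)]) (.sq [(1, 29), (2, 21), (3, 45), (5, -5), (7, 100)])) (.mul (.g 5) (.mul (.g 7)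
 (.pp [(1, 15865200000)]))))))) (.add (.mul (.g 7) (.add (.pp [(1, 8234400000)]) (.mul (.pp [(1,
 691380)]) (.sq [(1, 76), (2, 24), (3, 100), (5, -15), (7, -37)])))) (.mul (.g 3) (.mul (.pp [(1,
 2461440)]) (.sq [(1, 36), (2, 2), (3, -41), (5, 47), (7, 100)]))))) (.add (.add (.mul (.g 4) (.pp
 [(1, 5382000000)])) (.mul (.g 5) (.mul (.g 5) (.pp [(1, 173685000000)])))) (.add (.mul (.g 10)
 (.mul (.pp [(1, 14040)]) (.sq [(1, 76), (2, 2), (3, -17), (5, 100), (7, -81)]))) (.mul (.g 12)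
 (.mul (.pp [(1, 213)]) (.sq [(1, 54), (2, -6), (3, -13), (5, -47), (7, 100)]))))))) (.mul (.g 14)
 (.add (.add (.mul (.g 4) (.add (.pp [(1, 52362000000)]) (.add (.mul (.pp [(1, 3676320)]) (.sq [(1,
 -12), (2, -38), (3, 96), (5, -100), (7, 63)])) (.mul (.g 7) (.mul (.g 9) (.pp [(1,
 69754200000)])))))) (.mul (.g 2) (.add (.pp [(1, 1068000000)]) (.mul (.g 7) (.mul (.g 7) (.pp [(1,
 469380000000)])))))) (.add (.mul (.g 5) (.mul (.g 5) (.mul (.g 5) (.pp [(1, 1754532000000)]))))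
 (.mul (.g 14) (.mul (.pp [(1, 651600)]) (.sq [(1, 27), (2, 100), (3, -36), (5, 72), (7,
 -10)]))))))))) (.add (.add (.mul (.g 3) (.add (.mul (.g 7) (.add (.mul (.g 3) (.add (.mul (.g 5)
 (.pp [(1, 2056668000000)])) (.mul (.g 9) (.pp [(1, 2726916000000)])))) (.mul (.g 2) (.mul (.g 7)
 (.pp [(1, 116112000000)]))))) (.add (.mul (.g 4) (.pp [(1, 95119800000)])) (.mul (.g 5) (.mul (.g
 10) (.mul (.g 10) (.pp [(1, 513936000000)]))))))) (.add (.mul (.g 4) (.add (.mul (.g 4) (.pp [(1,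
 5259270000)])) (.mul (.g 5) (.mul (.g 7) (.mul (.g 7) (.pp [(1, 25622400000)])))))) (.mul (.g 0)
 (.pp [(1, 4000000000000)])))) (.add (.mul (.g 1) (.pp [(1, 4000000000000)])) (.add (.mul (.g 5)
 (.mul (.g 5) (.mul (.g 5) (.mul (.g 10) (.pp [(1, 356820000000)]))))) (.mul (.g 13) (.pp [(1,
 4000000000000)])))))) (.pp [(1, 4383506292), (2, 115248984), (3, 121477572), (4, 100969092), (5,
 115157268), (6, 136346292), (7, 128867880), (8, 99956320), (9, 123482403), (10, 113792748), (12,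
 145886280), (14, 134316960), (15, 131598834), (16, 108724800), (18, 106574160), (20, 136018560),
 (21, 106576920), (24, 145500000), (25, 125877603), (27, 108949080), (28, 135502680), (30,
 116768160), (35, 113663400), (36, 99601200), (40, 137409600), (42, 99012960), (45, 118208160),
 (49, 104566440), (50, 136024440), (54, 132100800), (56, 111626400), (60, 87240000), (63,
 108892200), (70, 114315600), (75, 110510880), (81, 119929200), (84, 123301200), (90, 129223200),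
 (98, 116407560), (100, 108322800), (105, 124068480), (125, 114880020), (126, 115869600), (135,
 125997600), (140, 146983200), (147, 128883720), (150, 137424000), (175, 117441840), (189,
 136917600), (196, 116298000), (210, 88603200), (225, 127087200), (245, 135144420), (250,
 130539600), (294, 109209600), (315, 134575200), (343, 134353680), (350, 80227200), (375,
 108284400), (441, 135520800), (490, 128314800), (525, 144254400), (625, 115003200), (686,
 124334400), (735, 122605200), (875, 133924800), (1029, 109675200), (1225, 115402800), (1715,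
 111451200), (2401, 114840000)]))))))))
 (P_free ++ xP_A_F3) = true := by decide +kernel

theorem t_A_F5b_c0 : chk ROp gP_A_F5b
 (.void (.add (.mul (.g 9) (.pp [(1, 1)])) (.mul (.g 11) (.pp [(1, 5)]))))
 (P_c0 ++ xP_A_F5b) = true := by decide +kernel

theorem t_A_F5b_c3 : chk ROp gP_A_F5b
 (.split [(1, -3), (3, 2)]
 (.cut 3 [(2, -1), (3, 1)] (.add (.mul (.g 0) (.pp [(1, 1)])) (.add (.mul (.g 2) (.pp [(1, 1)]))
 (.mul (.g 5) (.pp [(1, 3)])))) (.rule 1 (.cut 3 [(2, 1), (5, -1)] (.add (.add (.mul (.g 3) (.pp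
 [(1, 1)])) (.mul (.g 1) (.pp [(1, 1)]))) (.add (.mul (.g 2) (.pp [(1, 1)])) (.mul (.g 8) (.pp [(1,
 3)])))) (.rule 2 (.rule 9 (.cut 1 [(1, -2), (2, -1), (3, 2), (5, 1)] (.add (.mul (.g 10) (.pp [(1,
 1)])) (.add (.mul (.g 5) (.pp [(1, 1)])) (.mul (.g 8) (.pp [(1, 1)])))) (.cut 1 [(1, -1), (2, -2),
 (3, 2), (5, 2)] (.add (.mul (.g 11) (.pp [(1, 1)])) (.add (.mul (.g 9) (.pp [(1, 1)])) (.mul (.g
 0) (.pp [(1, 1)])))) (.rule 10 (.leaf 9000000 (.add (.add (.add (.add (.mul (.g 11) (.add (.add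
 (.mul (.g 11) (.add (.add (.pp [(1, 17673390000)]) (.mul (.g 8) (.add (.add (.mul (.g 9) (.pp [(1,
 1175940000)])) (.mul (.g 10) (.pp [(1, 4918350000)]))) (.add (.mul (.g 17) (.pp [(1, 341715000)]))
 (.mul (.g 18) (.pp [(1, 10665810000)])))))) (.add (.mul (.g 17) (.add (.mul (.g 9) (.pp [(1,
 2295000)])) (.add (.mul (.g 10) (.pp [(1, 1673685000)])) (.mul (.g 17) (.pp [(1, 1178100000)])))))
 (.mul (.g 10) (.mul (.g 13) (.pp [(1, 17353890000)])))))) (.mul (.g 10) (.add (.add (.pp [(1,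
 42977430000)]) (.mul (.g 10) (.add (.mul (.g 13) (.pp [(1, 59974290000)])) (.mul (.g 17) (.pp [(1,
 29990250000)]))))) (.add (.mul (.g 8) (.mul (.g 8) (.pp [(1, 7497560000)]))) (.mul (.g 13) (.mul
 (.g 21) (.pp [(1, 10292850000)]))))))) (.add (.mul (.g 9) (.add (.mul (.g 9) (.add (.pp [(1,
 40286700000)]) (.mul (.g 13) (.pp [(1, 4590000)])))) (.add (.mul (.g 8) (.mul (.g 16) (.pp [(1,
 33000)]))) (.mul (.g 14) (.mul (.g 21) (.pp [(1, 4713750000)])))))) (.mul (.g 13) (.pp [(1,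
 109710360000)]))))) (.mul (.g 10) (.add (.mul (.g 8) (.add (.pp [(1, 3521220000)]) (.mul (.g 10)
 (.add (.mul (.g 14) (.pp [(1, 330000)])) (.mul (.g 17) (.pp [(1, 105000)])))))) (.add (.mul (.g
 16) (.add (.mul (.g 9) (.mul (.g 10) (.pp [(1, 220500)]))) (.add (.mul (.g 14) (.pp [(1,
 751221000)])) (.mul (.g 17) (.pp [(1, 748919250)]))))) (.mul (.g 13) (.pp [(1,
 128412360000)])))))) (.add (.mul (.g 13) (.add (.add (.mul (.g 9) (.mul (.pp [(1, 909)]) (.sq [(1,
 51), (2, -28), (3, 100), (5, 66)]))) (.mul (.g 15) (.pp [(1, 32410080000)]))) (.add (.mul (.g 16)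
 (.pp [(1, 539487000)])) (.mul (.g 17) (.mul (.pp [(1, 36)]) (.sq [(1, 35), (2, -46), (3, 50), (5,
 25)])))))) (.add (.mul (.g 8) (.add (.mul (.g 15) (.add (.pp [(1, 96660330000)]) (.mul (.g 9)
 (.mul (.g 14) (.pp [(1, 3240000)]))))) (.mul (.g 8) (.pp [(1, 6977280000)])))) (.mul (.g 17) (.add
 (.mul (.g 9) (.mul (.g 14) (.pp [(1, 14992785000)]))) (.mul (.g 17) (.pp [(1, 4202325000)])))))))
 (.add (.add (.mul (.g 0) (.pp [(1, 30000000000)])) (.mul (.g 3) (.pp [(1, 90000000)]))) (.add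
 (.mul (.g 4) (.pp [(1, 30000000000)])) (.add (.mul (.g 6) (.pp [(1, 30000000000)])) (.mul (.g 19)
 (.pp [(1, 60000000)])))))) (.pp [(1, 1480863000), (2, 994491), (3, 863100), (4, 870453), (5,
 854100), (6, 916680), (8, 1017048), (9, 888750), (10, 938592), (12, 602496), (15, 876750), (16,
 865008), (18, 1062900), (20, 737748), (24, 982224), (25, 918000), (27, 930000), (30, 1072800),
 (36, 885600), (40, 988560), (45, 915000), (50, 934596), (54, 900000), (60, 787200), (75, 832500),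
 (81, 870000), (90, 840000), (100, 847404), (125, 877500), (135, 880000), (150, 922500), (225,
 945000), (250, 922500), (375, 915000), (625, 900000)])))))))))))
 (.cut 1 [(2, -1), (3, 1)] (.add (.mul (.g 10) (.pp [(1, 1)])) (.mul (.g 5) (.pp [(1, 1)]))) (.rule
 1 (.cut 1 [(2, 1), (5, -1)] (.add (.mul (.g 11) (.pp [(1, 1)])) (.mul (.g 1) (.pp [(1, 1)])))
 (.rule 2 (.cut 11 [(1, -69), (3, 100)] (.add (.mul (.g 1) (.pp [(1, 620)])) (.add (.mul (.g 12)
 (.pp [(1, 31)])) (.mul (.g 14) (.pp [(1, 480)])))) (.rule 8 (.rule 15 (.leaf 990000000 (.add (.add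
 (.add (.add (.mul (.g 10) (.add (.add (.mul (.g 10) (.add (.add (.mul (.pp [(1, 20880090)]) (.sq
 [(1, 14), (2, 100), (3, -65), (5, 85)])) (.mul (.g 16) (.add (.mul (.g 10) (.pp [(1,
 1596780900000)])) (.mul (.g 20) (.pp [(1, 1380015450000)]))))) (.add (.mul (.g 13) (.mul (.g 20)
 (.pp [(1, 1050627600000)]))) (.mul (.g 17) (.mul (.g 17) (.pp [(1, 1402038000000)])))))) (.add
 (.mul (.g 12) (.add (.pp [(1, 4219380000000)]) (.add (.mul (.pp [(1, 774077040)]) (.sq [(1, 2),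
 (2, -16), (3, -31), (5, 50)])) (.mul (.g 7) (.mul (.g 20) (.pp [(1, 985881600000)])))))) (.mul (.g
 13) (.add (.pp [(1, 4140378000000)]) (.mul (.g 16) (.pp [(1, 2906798400000)])))))) (.add (.mul (.g
 7) (.mul (.g 8) (.mul (.g 16) (.pp [(1, 262572750000)])))) (.add (.mul (.g 9) (.mul (.g 9) (.mul
 (.g 17) (.pp [(1, 1291167900000)])))) (.mul (.g 14) (.mul (.g 20) (.mul (.g 20) (.pp [(1,
 474368400000)])))))))) (.mul (.g 15) (.add (.add (.mul (.g 9) (.add (.mul (.g 9) (.add (.mul (.g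
 17) (.pp [(1, 49256955000)])) (.mul (.g 20) (.pp [(1, 139430115000)])))) (.mul (.g 15) (.add (.pp
 [(1, 10128764250)]) (.mul (.g 7) (.pp [(1, 59738250)])))))) (.mul (.g 13) (.add (.mul (.pp [(1,
 2733489)]) (.sq [(1, 5), (2, 47), (3, -71), (5, 100)])) (.add (.mul (.pp [(1, 15655860)]) (.sq
 [(1, 11), (2, -23), (3, -26), (5, 50)])) (.mul (.g 16) (.pp [(1, 60985237500)])))))) (.add (.mul
 (.g 17) (.add (.pp [(1, 139115790000)]) (.mul (.g 14) (.mul (.g 20) (.pp [(1, 451440000)])))))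
 (.add (.mul (.g 8) (.mul (.g 12) (.pp [(1, 220703670000)]))) (.mul (.g 20) (.pp [(1,
 90745380000)]))))))) (.add (.mul (.g 12) (.add (.add (.mul (.g 8) (.add (.pp [(1, 1766209500000)])
 (.mul (.g 8) (.add (.mul (.g 8) (.pp [(1, 1286673300000)])) (.mul (.g 12) (.pp [(1,
 1379307600000)])))))) (.mul (.g 7) (.add (.mul (.pp [(1, 11489280)]) (.sq [(1, 100), (2, 60), (3,
 59), (5, 3)])) (.mul (.g 9) (.mul (.g 20) (.pp [(1, 46335300000)])))))) (.add (.mul (.g 9) (.pp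
 [(1, 3954099600000)])) (.add (.mul (.g 14) (.mul (.g 14) (.mul (.g 14) (.pp [(1,
 193673700000)])))) (.mul (.g 17) (.pp [(1, 1201365000000)])))))) (.add (.mul (.g 7) (.add (.mul
 (.g 7) (.mul (.g 7) (.mul (.g 9) (.pp [(1, 58038200000)])))) (.mul (.g 8) (.mul (.g 8) (.mul (.g
 16) (.pp [(1, 16247550000)])))))) (.mul (.g 0) (.pp [(1, 300000000000)]))))) (.add (.add (.mul (.g
 1) (.pp [(1, 990000000)])) (.mul (.g 3) (.pp [(1, 3300000000000)]))) (.add (.mul (.g 5) (.pp [(1,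
 3300000000000)])) (.add (.mul (.g 17) (.mul (.g 19) (.mul (.pp [(1, 14687640)]) (.sq [(1, 50), (2,
 42), (3, 31), (5, 1)])))) (.mul (.g 18) (.pp [(1, 6600000000)])))))) (.pp [(1, 14188076565), (2,
 107861295), (3, 112063245), (4, 95039439), (5, 97329075), (6, 95889486), (8, 94704489), (9,
 85411491), (10, 115701630), (12, 113027277), (15, 76265310), (16, 96542820), (18, 80103375), (20,
 113235111), (24, 101457840), (25, 97314360), (27, 108047379), (30, 67129194), (36, 95210280), (40,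
 102108600), (45, 124740099), (50, 74194560), (54, 103501200), (60, 91268760), (75, 116082120),
 (81, 99866140), (90, 111470040), (100, 97334820), (125, 111625800), (135, 94246680), (150,
 101134440), (225, 96628290), (250, 114642000), (375, 89248500), (625, 91599750)])))))))))))
 (P_c3 ++ xP_A_F5b) = true := by decide +kernel

theorem t_A_F5c_Op1 : chk ROp gP_A_F5c
 (.cut 1 [(2, -1), (3, 1)] (.add (.mul (.g 8) (.pp [(1, 1)])) (.mul (.g 4) (.pp [(1, 1)]))) (.rule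
 1 (.cut 1 [(2, -1), (5, 1)] (.add (.mul (.g 1) (.pp [(1, 1)])) (.add (.mul (.g 13) (.pp [(1, 1)]))
 (.mul (.g 12) (.pp [(1, 1)])))) (.rule 3 (.cut 1 [(1, -69), (3, 100)] (.add (.mul (.g 4) (.pp [(1,
 31)])) (.add (.mul (.g 3) (.pp [(1, 31)])) (.mul (.g 12) (.pp [(1, 69)])))) (.cut 1 [(1, 3), (3,
 -2)] (.add (.add (.mul (.g 5) (.pp [(1, 1)])) (.mul (.g 10) (.pp [(1, 2)]))) (.add (.mul (.g 2)
 (.pp [(1, 2)])) (.mul (.g 9) (.pp [(1, 1)])))) (.rule 8 (.cut 1 [(1, 2), (2, 1), (3, -2), (5, -1)]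
 (.add (.mul (.g 12) (.pp [(1, 2)])) (.mul (.g 4) (.pp [(1, 1)]))) (.cut 81 [(1, -1), (2, -2), (3,
 2), (5, 2)] (.add (.mul (.g 5) (.pp [(1, 162)])) (.add (.mul (.g 2) (.pp [(1, 19)])) (.mul (.g 3)
 (.pp [(1, 2)])))) (.rule 12 (.leaf 3000000 (.add (.add (.add (.add (.mul (.g 10) (.add (.add (.mul
 (.g 12) (.add (.mul (.g 15) (.add (.mul (.g 10) (.pp [(1, 1575720000)])) (.add (.mul (.g 12) (.pp
 [(1, 4708890000)])) (.mul (.g 21) (.pp [(1, 2360400000)]))))) (.mul (.g 12) (.mul (.g 14) (.pp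
 [(1, 5893680000)]))))) (.add (.mul (.g 14) (.add (.pp [(1, 24994710000)]) (.mul (.g 14) (.add
 (.mul (.g 11) (.pp [(1, 6490830000)])) (.mul (.g 14) (.pp [(1, 299940000)])))))) (.mul (.g 18)
 (.add (.pp [(1, 65227980000)]) (.mul (.g 11) (.mul (.g 11) (.pp [(1, 2860440000)]))))))) (.add
 (.mul (.g 10) (.mul (.g 21) (.pp [(1, 5524500000)]))) (.add (.mul (.g 15) (.mul (.pp [(1, 28389)])
 (.sq [(1, 85), (2, 100), (3, 96), (5, 18)]))) (.mul (.g 20) (.mul (.pp [(1, 263475)]) (.sq [(1,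
 -15), (2, 100), (3, 56), (5, -5)]))))))) (.add (.mul (.g 11) (.add (.add (.mul (.g 11) (.add (.mul
 (.g 17) (.add (.pp [(1, 370240500)]) (.mul (.g 14) (.pp [(1, 125223000)])))) (.add (.mul (.g 18)
 (.add (.pp [(1, 29824170000)]) (.mul (.g 12) (.pp [(1, 963060000)])))) (.mul (.g 15) (.mul (.g 21)
 (.pp [(1, 2284380000)])))))) (.mul (.g 15) (.add (.pp [(1, 2266140000)]) (.mul (.g 15) (.pp [(1,
 38801430000)]))))) (.add (.mul (.g 21) (.add (.mul (.pp [(1, 1981800)]) (.sq [(1, -13), (2, 46),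
 (3, -5), (5, 50)])) (.mul (.g 12) (.mul (.g 12) (.pp [(1, 16255980000)]))))) (.mul (.g 20) (.pp
 [(1, 83902860000)]))))) (.mul (.g 12) (.add (.add (.mul (.g 12) (.mul (.g 12) (.add (.mul (.g 14)
 (.pp [(1, 4642680000)])) (.add (.mul (.g 15) (.pp [(1, 6308970000)])) (.mul (.g 20) (.pp [(1,
 9579570000)])))))) (.mul (.g 14) (.pp [(1, 8775420000)]))) (.add (.mul (.g 15) (.pp [(1,
 53855340000)])) (.mul (.g 20) (.pp [(1, 9184980000)]))))))) (.add (.mul (.g 14) (.add (.pp [(1,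
 18174840000)]) (.add (.mul (.g 18) (.mul (.pp [(1, 198963)]) (.sq [(1, -36), (2, 100), (3, 7), (5,
 -44)]))) (.mul (.g 21) (.mul (.pp [(1, 195534)]) (.sq [(1, 73), (2, 83), (3, 100), (5, 24)]))))))
 (.add (.mul (.g 15) (.add (.mul (.g 15) (.mul (.pp [(1, 23316)]) (.sq [(1, 100), (2, 26), (3, 93),
 (5, -13)]))) (.mul (.g 20) (.mul (.pp [(1, 220917)]) (.sq [(2, 100), (3, 27), (5, 64)]))))) (.mul
 (.g 0) (.pp [(1, 10000000000)]))))) (.add (.add (.mul (.g 3) (.pp [(1, 3000000)])) (.add (.mul (.g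
 6) (.pp [(1, 10000000000)])) (.mul (.g 8) (.pp [(1, 10000000000)])))) (.add (.mul (.g 18) (.pp
 [(1, 59437440000)])) (.add (.mul (.g 19) (.pp [(1, 10000000000)])) (.mul (.g 21) (.mul (.g 21)
 (.mul (.pp [(1, 630474)]) (.sq [(1, -56), (2, 44), (3, -49), (5, 100)])))))))) (.pp [(1,
 1018130270), (2, 280950), (3, 318288), (4, 272109), (5, 308562), (6, 309432), (8, 326842), (9,
 300588), (10, 336417), (12, 241200), (15, 355368), (16, 288384), (18, 339408), (20, 293682), (24,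
 308256), (25, 265116), (27, 285367), (30, 326646), (36, 316428), (40, 288174), (45, 250545), (50,
 328557), (54, 320496), (60, 314592), (75, 234168), (81, 291423), (90, 299208), (100, 296904),
 (125, 319656), (135, 295275), (150, 296871), (225, 302430), (250, 296844), (375, 326448), (625,
 289596)])))))))))))))
 (P_Op1 ++ xP_A_F5c) = true := by decide +kernel

theorem t_A_T2_Tp0_a : chk Rap gP_A_T2
 (.split [(1, 1), (2, -20)]
 (.split [(1, -3), (3, 5)]
 (.cut 1 [(1, 3), (3, -2)] (.add (.add (.mul (.g 2) (.pp [(1, 18)])) (.mul (.g 7) (.pp [(1, 2)])))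
 (.add (.mul (.g 4) (.pp [(1, 2)])) (.mul (.g 1) (.pp [(1, 1)])))) (.rule 8 (.rule 4 (.leaf
 60000000 (.add (.add (.add (.add (.mul (.g 8) (.add (.add (.mul (.g 8) (.add (.add (.mul (.g 7)
 (.add (.mul (.g 5) (.pp [(1, 15000000)])) (.add (.mul (.g 6) (.pp [(1, 2926800000)])) (.mul (.g
 11) (.pp [(1, 9000000)]))))) (.mul (.g 4) (.add (.mul (.g 8) (.pp [(1, 2882550000)])) (.mul (.g 9)
 (.pp [(1, 554160000)]))))) (.add (.mul (.g 6) (.mul (.g 14) (.pp [(1, 2913000000)]))) (.add (.mul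
 (.g 9) (.mul (.g 9) (.pp [(1, 132407400000)]))) (.mul (.g 16) (.pp [(1, 2868000000)])))))) (.add
 (.mul (.g 6) (.add (.mul (.g 7) (.add (.mul (.g 6) (.pp [(1, 6000000)])) (.add (.mul (.g 7) (.pp
 [(1, 18000000)])) (.mul (.g 14) (.pp [(1, 21000000)]))))) (.add (.mul (.g 3) (.pp [(1, 7200000)]))
 (.mul (.g 6) (.mul (.g 9) (.pp [(1, 5400000)])))))) (.mul (.g 5) (.add (.pp [(1, 251952000000)])
 (.add (.mul (.g 4) (.add (.pp [(1, 6961710000)]) (.mul (.g 5) (.pp [(1, 10817640000)])))) (.mul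
 (.g 9) (.mul (.g 16) (.pp [(1, 21000000)])))))))) (.add (.add (.mul (.g 3) (.add (.pp [(1,
 27167400000)]) (.mul (.g 7) (.mul (.g 7) (.pp [(1, 4680000)]))))) (.mul (.g 10) (.add (.mul (.pp
 [(1, 180)]) (.sq [(1, -46), (2, -46), (3, -93), (5, 100), (7, 85)])) (.mul (.g 9) (.mul (.g 10)
 (.pp [(1, 3600000)])))))) (.add (.mul (.g 16) (.add (.pp [(1, 135868200000)]) (.mul (.pp [(1,
 3600)]) (.sq [(1, 50), (2, 31), (3, 41), (5, 41), (7, 41)])))) (.mul (.g 12) (.mul (.pp [(1, 3)])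
 (.sq [(1, -25), (2, -88), (3, -100), (5, -44), (7, 61)]))))))) (.add (.mul (.g 5) (.add (.add (.pp
 [(1, 87083400000)]) (.add (.mul (.g 5) (.add (.mul (.g 5) (.add (.pp [(1, 238408200000)]) (.add
 (.mul (.g 4) (.pp [(1, 362970000)])) (.mul (.g 13) (.pp [(1, 10800000)]))))) (.add (.mul (.g 7)
 (.add (.pp [(1, 28800000)]) (.mul (.g 13) (.pp [(1, 7800000)])))) (.mul (.g 6) (.mul (.g 16) (.pp
 [(1, 44400000)])))))) (.mul (.g 6) (.add (.mul (.g 6) (.add (.mul (.g 6) (.pp [(1, 6000000)]))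
 (.mul (.g 14) (.pp [(1, 30600000)])))) (.mul (.g 4) (.pp [(1, 1830000)])))))) (.add (.mul (.g 7)
 (.add (.mul (.g 13) (.mul (.g 13) (.pp [(1, 292296600000)]))) (.mul (.g 16) (.pp [(1,
 19800000)])))) (.add (.mul (.g 4) (.pp [(1, 2022270000)])) (.mul (.g 9) (.mul (.g 9) (.mul (.g 11)
 (.pp [(1, 4800000)])))))))) (.mul (.g 6) (.add (.add (.mul (.g 6) (.add (.add (.pp [(1,
 9253200000)]) (.mul (.g 4) (.add (.mul (.g 7) (.pp [(1, 15379380000)])) (.mul (.g 11) (.pp [(1,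
 2010000)]))))) (.add (.mul (.g 7) (.mul (.g 12) (.pp [(1, 1170000)]))) (.mul (.g 11) (.mul (.g 11)
 (.pp [(1, 1800000)])))))) (.add (.mul (.g 3) (.pp [(1, 40139640000)])) (.mul (.g 4) (.pp [(1,
 1890000)])))) (.add (.mul (.g 7) (.mul (.g 9) (.mul (.g 13) (.pp [(1, 15346200000)])))) (.add
 (.mul (.g 10) (.mul (.pp [(1, 1920)]) (.sq [(1, 23), (2, -51), (3, 87), (5, 100), (7, 43)])))
 (.mul (.g 14) (.pp [(1, 15398400000)])))))))) (.add (.mul (.g 7) (.add (.add (.mul (.g 4) (.add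
 (.pp [(1, 14616480000)]) (.add (.mul (.pp [(1, 156)]) (.sq [(1, 43), (2, 50), (3, 50), (5, 50),
 (7, 50)])) (.mul (.g 7) (.pp [(1, 30000)]))))) (.mul (.g 3) (.mul (.g 7) (.mul (.g 7) (.pp [(1,
 3240000)]))))) (.add (.mul (.g 14) (.pp [(1, 24000000)])) (.mul (.g 16) (.pp [(1, 21600000)])))))
 (.add (.mul (.g 16) (.add (.pp [(1, 54366600000)]) (.add (.mul (.g 10) (.add (.mul (.pp [(1,
 600)]) (.sq [(1, 18), (2, 100), (3, -21), (5, -21), (7, -86)])) (.mul (.pp [(1, 300)]) (.sq [(1,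
 7), (2, -61), (3, 89), (5, 100), (7, -100)])))) (.mul (.g 13) (.add (.mul (.pp [(1, 660)]) (.sq
 [(1, -100), (2, 81), (3, 81), (5, 81), (7, 81)])) (.mul (.pp [(1, 180)]) (.sq [(1, 37), (2, 50),
 (3, -100), (5, 48), (7, 95)]))))))) (.mul (.g 14) (.add (.add (.pp [(1, 14655000000)]) (.mul (.pp
 [(1, 600000)]) (.sq [(2, 1), (3, 1), (5, 1), (7, 1)]))) (.add (.mul (.g 3) (.mul (.pp [(1, 108)])
 (.sq [(1, -21), (2, -89), (3, -78), (5, 16), (7, 100)]))) (.mul (.g 14) (.mul (.pp [(1, 120)])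
 (.sq [(1, 13), (2, 75), (3, 93), (5, -34), (7, -100)]))))))))) (.add (.add (.mul (.g 9) (.add
 (.mul (.g 3) (.mul (.pp [(1, 84)]) (.sq [(1, 35), (2, -68), (3, -88), (5, 100), (7, -9)]))) (.add
 (.mul (.g 12) (.mul (.pp [(1, 48)]) (.sq [(1, 12), (2, -10), (3, 100), (5, 70), (7, -57)]))) (.mul
 (.g 13) (.mul (.pp [(1, 720)]) (.sq [(1, 6), (2, -18), (3, -99), (5, -99), (7, 100)])))))) (.add
 (.mul (.g 10) (.add (.mul (.g 11) (.mul (.pp [(1, 240)]) (.sq [(1, 20), (2, 50), (3, 15), (5, 14),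
 (7, 27)]))) (.mul (.g 12) (.mul (.pp [(1, 30)]) (.sq [(1, 52), (2, 40), (3, -59), (5, 100), (7,
 67)]))))) (.mul (.g 0) (.pp [(1, 200000000000)])))) (.add (.mul (.g 1) (.pp [(1, 60000000)]))
 (.add (.mul (.g 3) (.pp [(1, 30380280000)])) (.mul (.g 15) (.pp [(1, 200000000000)])))))) (.pp
 [(1, 11253382152), (2, 5437464), (3, 5170104), (4, 5694852), (5, 6279324), (6, 7472112), (7,
 5614539), (8, 5632932), (9, 6957054), (10, 5681736), (12, 5590644), (14, 6492384), (15, 6969792),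
 (16, 5664000), (18, 3627282), (20, 7747176), (21, 6706968), (23, 600000000000), (24, 6255180),
 (25, 5788812), (27, 5086290), (28, 6257160), (30, 6553224), (35, 5108280), (36, 6345120), (40,
 6456000), (42, 4686972), (45, 5137014), (49, 5984700), (50, 6215112), (54, 6825780), (56,
 6369660), (60, 4789680), (63, 5379120), (70, 6607488), (75, 5815704), (81, 6103920), (84,
 6046200), (90, 7569120), (98, 4481898), (100, 6212040), (105, 5635020), (125, 6418536), (126,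
 6506040), (135, 6089220), (140, 6389220), (147, 5281710), (150, 8000280), (175, 6651612), (189,
 5985780), (196, 5712360), (210, 6053520), (225, 5374740), (245, 6582354), (250, 6157920), (294,
 6873300), (315, 6021360), (343, 6350727), (350, 6400440), (375, 5747400), (441, 6999360), (490,
 7015200), (525, 5779140), (625, 5908320), (686, 6511560), (735, 6627360), (875, 5824680), (1029,
 5839680), (1225, 5934840), (1715, 5742840), (2401, 6051600)]))))))
 (.split [(1, -7), (3, 50)]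
 (.split [(1, -17), (5, 25)]
 (.rule 7 (.rule 10 (.rule 4 (.leaf 2850000000 (.add (.add (.add (.add (.mul (.pp [(1, 15000000)])
 (.sq [(1, -133), (2, -680), (3, 950)])) (.mul (.pp [(1, 60000000)]) (.sq [(1, -323), (2, -70), (5,
 475)]))) (.add (.mul (.g 7) (.add (.add (.add (.mul (.pp [(1, 5700000000)]) (.sq [(1, 27), (3,
 50), (5, -50)])) (.mul (.g 6) (.add (.add (.mul (.g 8) (.add (.add (.pp [(1, 19551000000)]) (.mul
 (.g 8) (.pp [(1, 721050000)]))) (.add (.mul (.g 9) (.pp [(1, 111711450000)])) (.mul (.g 10) (.pp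
 [(1, 34037550000)]))))) (.add (.mul (.g 7) (.add (.mul (.g 7) (.pp [(1, 29252400000)])) (.mul (.g
 10) (.pp [(1, 408018825000)])))) (.mul (.g 3) (.mul (.g 9) (.pp [(1, 367137000)]))))) (.add (.add
 (.mul (.g 6) (.pp [(1, 3345615000)])) (.mul (.g 10) (.pp [(1, 179950425000)]))) (.add (.mul (.g
 11) (.pp [(1, 419943225000)])) (.mul (.g 16) (.pp [(1, 9191250000)]))))))) (.add (.mul (.g 18)
 (.add (.add (.pp [(1, 1053360000000)]) (.add (.mul (.pp [(1, 1478095500000)]) (.sq [(2, 1), (7,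
 -1)])) (.mul (.g 10) (.add (.pp [(1, 15550540500000)]) (.add (.mul (.g 10) (.pp [(1,
 1261039500000)])) (.mul (.g 12) (.pp [(1, 366339000000)]))))))) (.add (.mul (.g 8) (.add (.mul (.g
 16) (.pp [(1, 332823000000)])) (.mul (.g 18) (.pp [(1, 100263000000)])))) (.add (.mul (.g 5) (.mul
 (.g 9) (.pp [(1, 25650000000)]))) (.mul (.g 16) (.pp [(1, 172254000000)])))))) (.mul (.g 4) (.add
 (.add (.mul (.pp [(1, 3046479)]) (.sq [(2, 86), (5, 100), (7, -65)])) (.mul (.g 10) (.add (.pp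
 [(1, 334282200000)]) (.add (.mul (.g 5) (.pp [(1, 3998550000)])) (.mul (.g 10) (.pp [(1,
 40031100000)])))))) (.add (.mul (.g 8) (.pp [(1, 6580080000)])) (.mul (.g 16) (.pp [(1,
 16725510000)]))))))) (.add (.add (.mul (.g 3) (.add (.mul (.pp [(1, 3242502)]) (.sq [(1, -31), (2,
 -35), (3, -21), (5, 100), (7, -43)])) (.add (.mul (.pp [(1, 19152)]) (.sq [(2, 55), (3, 100), (5,
 13), (7, 51)])) (.mul (.g 9) (.mul (.g 12) (.pp [(1, 28266300000)])))))) (.mul (.g 7) (.add (.mul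
 (.pp [(1, 187644000)]) (.sq [(2, -11), (3, -11), (5, -11), (7, 50)])) (.add (.mul (.pp [(1,
 165562200)]) (.sq [(1, 31), (2, 29), (3, 21), (5, -50)])) (.mul (.g 10) (.mul (.g 10) (.pp [(1,
 3385087500000)]))))))) (.add (.mul (.g 12) (.mul (.pp [(1, 149146200)]) (.sq [(2, 29), (3, 29),
 (5, 29), (7, -50)]))) (.add (.mul (.g 13) (.mul (.pp [(1, 56430000)]) (.sq [(1, 31), (2, 29), (3,
 21), (5, -50)]))) (.mul (.g 16) (.mul (.pp [(1, 14489400)]) (.sq [(2, 14), (3, -47), (5, -91), (7,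
 100)])))))))) (.mul (.g 6) (.add (.mul (.pp [(1, 285000000)]) (.sq [(1, -7), (3, 50)])) (.mul (.pp
 [(1, 1140000000)]) (.sq [(1, -17), (5, 25)])))))) (.add (.add (.mul (.g 0) (.pp [(1,
 9500000000000)])) (.mul (.g 1) (.pp [(1, 22800000000)]))) (.add (.mul (.g 2) (.pp [(1,
 5700000000)])) (.mul (.g 17) (.pp [(1, 9500000000000)]))))) (.pp [(2, 31007235174), (4,
 297179580), (6, 302369268), (8, 282334338), (10, 295057650), (12, 284426580), (14, 285700644),
 (16, 280941600), (18, 277928694), (20, 277468020), (24, 285114000), (28, 273242040), (30,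
 249289500), (36, 288990000), (40, 273876450), (42, 284793204), (50, 273003096), (54, 283324200),
 (56, 304380000), (60, 307201500), (70, 301644684), (84, 289161000), (90, 310732650), (98,
 270725775), (100, 288705000), (126, 248520000), (140, 294376500), (150, 302020200), (196,
 285000000), (210, 268304700), (250, 294758400), (294, 274811250), (350, 271981200), (490,
 290486250), (686, 285000000)]))))))
 (.rule 7 (.rule 4 (.leaf 60000 (.add (.add (.add (.mul (.pp [(1, 120000)]) (.sq [(1, -7), (3, 50),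
 (10, -50)])) (.mul (.g 6) (.add (.add (.mul (.g 9) (.add (.add (.mul (.g 17) (.add (.add (.pp [(1,
 265517400)]) (.mul (.g 2) (.pp [(1, 1892544)]))) (.add (.mul (.g 4) (.pp [(1, 9462720)])) (.add
 (.mul (.g 9) (.pp [(1, 57660000)])) (.mul (.g 12) (.pp [(1, 47319600)])))))) (.mul (.g 5) (.add
 (.add (.pp [(1, 4597620)]) (.mul (.g 6) (.pp [(1, 10818000)]))) (.add (.mul (.g 7) (.pp [(1,
 2366880)])) (.mul (.g 8) (.pp [(1, 300)])))))) (.add (.mul (.g 3) (.add (.pp [(1, 6474000)]) (.mul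
 (.g 9) (.pp [(1, 1153320)])))) (.add (.mul (.g 2) (.pp [(1, 240)])) (.mul (.g 6) (.mul (.g 9) (.pp
 [(1, 96182400)]))))))) (.mul (.g 5) (.add (.add (.mul (.g 7) (.add (.pp [(1, 300)]) (.add (.mul
 (.g 7) (.pp [(1, 300)])) (.mul (.g 8) (.pp [(1, 300)]))))) (.mul (.g 8) (.add (.pp [(1, 300)])
 (.mul (.g 8) (.pp [(1, 15000300)]))))) (.add (.mul (.g 5) (.pp [(1, 552357)])) (.add (.mul (.g 6)
 (.mul (.g 6) (.pp [(1, 363300)]))) (.mul (.g 10) (.pp [(1, 873900)]))))))) (.add (.mul (.g 2)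
 (.add (.add (.pp [(1, 3768960)]) (.mul (.g 8) (.add (.pp [(1, 600648)]) (.mul (.g 8) (.pp [(1,
 240)]))))) (.add (.mul (.g 6) (.mul (.g 6) (.pp [(1, 240)]))) (.mul (.g 7) (.mul (.g 7) (.pp [(1,
 240)])))))) (.add (.mul (.g 17) (.add (.pp [(1, 26408400)]) (.add (.mul (.pp [(1, 6000)]) (.sq
 [(2, 1), (7, -1)])) (.mul (.g 8) (.add (.pp [(1, 6600)]) (.mul (.g 8) (.pp [(1, 6000)])))))))
 (.mul (.g 3) (.add (.pp [(1, 527832)]) (.mul (.g 4) (.add (.pp [(1, 60)]) (.mul (.g 7) (.pp [(1,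
 24)]))))))))))) (.add (.mul (.g 0) (.pp [(1, 200000000)])) (.add (.mul (.g 1) (.pp [(1, 120000)]))
 (.mul (.g 16) (.pp [(1, 200000000)]))))) (.pp [(2, 889107), (4, 6180), (6, 5904), (8, 5820), (10,
 6084), (12, 6000), (14, 5892), (16, 6000), (18, 6180), (20, 6000), (23, 600000000), (24, 6000),
 (28, 6000), (30, 6300), (36, 6000), (40, 6000), (42, 5928), (50, 5820), (54, 6000), (56, 6000),
 (60, 6000), (70, 6300), (84, 6000), (90, 6000), (98, 6048), (100, 6000), (126, 6000), (140, 6000),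
 (150, 6000), (196, 6000), (210, 6000), (250, 6000), (294, 6000), (350, 6000), (490, 6000), (686,
 6000)]))))))
 (.split [(1, -17), (5, 25)]
 (.rule 10 (.rule 4 (.leaf 30000 (.add (.add (.add (.mul (.pp [(1, 240000)]) (.sq [(1, -17), (5,
 25), (6, -25)])) (.mul (.g 6) (.add (.add (.mul (.g 5) (.add (.add (.pp [(1, 1012020)]) (.mul (.g
 8) (.add (.add (.pp [(1, 480)]) (.mul (.g 6) (.pp [(1, 150)]))) (.add (.mul (.g 7) (.pp [(1,
 150)])) (.add (.mul (.g 8) (.pp [(1, 300)])) (.mul (.g 9) (.pp [(1, 150)]))))))) (.add (.mul (.g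
 7) (.add (.pp [(1, 150)]) (.add (.mul (.g 7) (.pp [(1, 7500150)])) (.mul (.g 9) (.pp [(1,
 150)]))))) (.add (.mul (.g 6) (.add (.mul (.g 6) (.pp [(1, 181650)])) (.mul (.g 9) (.pp [(1,
 5409150)])))) (.mul (.g 9) (.pp [(1, 3482115)])))))) (.add (.mul (.g 3) (.add (.add (.pp [(1,
 214680)]) (.mul (.g 7) (.add (.add (.pp [(1, 3713082)]) (.mul (.g 7) (.pp [(1, 60)]))) (.add (.mul
 (.g 8) (.pp [(1, 60)])) (.mul (.g 9) (.pp [(1, 257694)])))))) (.add (.mul (.g 6) (.mul (.g 6) (.pp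
 [(1, 60)]))) (.add (.mul (.g 15) (.pp [(1, 240)])) (.mul (.g 17) (.pp [(1, 2861274)])))))) (.mul
 (.g 9) (.add (.mul (.g 17) (.add (.add (.pp [(1, 159347100)]) (.mul (.g 4) (.pp [(1, 2576340)])))
 (.add (.mul (.g 8) (.pp [(1, 3000)])) (.mul (.g 9) (.pp [(1, 28833000)]))))) (.add (.mul (.g 9)
 (.add (.mul (.g 6) (.pp [(1, 71757000)])) (.mul (.g 7) (.pp [(1, 15948300)])))) (.mul (.g 8) (.mul
 (.g 15) (.pp [(1, 3000)])))))))) (.add (.add (.mul (.g 8) (.add (.mul (.g 11) (.add (.pp [(1,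
 6300)]) (.mul (.g 8) (.pp [(1, 3000)])))) (.mul (.g 17) (.pp [(1, 9000)])))) (.mul (.g 4) (.mul
 (.g 17) (.pp [(1, 7017420)])))) (.add (.mul (.g 6) (.mul (.g 6) (.pp [(1, 119214900)]))) (.mul (.g
 11) (.pp [(1, 17400)]))))))) (.add (.mul (.g 0) (.pp [(1, 100000000)])) (.add (.mul (.g 1) (.pp
 [(1, 240000)])) (.mul (.g 16) (.pp [(1, 100000000)]))))) (.pp [(2, 934962), (4, 3000), (6, 3654),
 (8, 3030), (10, 3300), (12, 3000), (14, 2943), (16, 3000), (18, 2730), (19, 300000000), (20,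
 3150), (24, 3000), (28, 3150), (30, 2730), (36, 3000), (40, 3000), (42, 3012), (50, 3000), (54,
 3000), (56, 3000), (60, 3000), (70, 2850), (84, 3000), (90, 3000), (98, 3120), (100, 3000), (126,
 3000), (140, 3000), (150, 3000), (196, 3000), (210, 3000), (250, 3000), (294, 3000), (350, 3000),
 (490, 3000), (686, 3000)])))))
 (.rule 4 (.leaf 30000 (.add (.add (.mul (.g 5) (.add (.add (.mul (.g 7) (.add (.add (.mul (.g 4)
 (.add (.add (.pp [(1, 165)]) (.mul (.g 5) (.pp [(1, 150)]))) (.add (.mul (.g 6) (.pp [(1, 150)]))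
 (.add (.mul (.g 7) (.pp [(1, 150)])) (.mul (.g 8) (.pp [(1, 150)])))))) (.mul (.g 1) (.add (.pp
 [(1, 228)]) (.add (.mul (.g 7) (.pp [(1, 120)])) (.mul (.g 8) (.pp [(1, 120)])))))) (.add (.mul
 (.g 2) (.add (.pp [(1, 275046)]) (.add (.mul (.g 6) (.pp [(1, 60)])) (.mul (.g 7) (.pp [(1,
 60)]))))) (.mul (.g 16) (.add (.pp [(1, 8100)]) (.mul (.g 8) (.pp [(1, 3000)]))))))) (.add (.mul
 (.g 8) (.add (.add (.mul (.g 4) (.add (.pp [(1, 3482115)]) (.add (.mul (.g 5) (.pp [(1,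
 5409150)])) (.mul (.g 6) (.pp [(1, 150)]))))) (.mul (.g 8) (.add (.mul (.g 5) (.pp [(1,
 71757000)])) (.add (.mul (.g 6) (.pp [(1, 15464100)])) (.mul (.g 16) (.pp [(1, 28833000)]))))))
 (.add (.mul (.g 16) (.add (.pp [(1, 159056400)]) (.mul (.g 3) (.pp [(1, 2673180)])))) (.mul (.g 2)
 (.mul (.g 6) (.pp [(1, 267378)])))))) (.mul (.g 6) (.add (.mul (.g 2) (.add (.pp [(1, 3571416)])
 (.mul (.g 6) (.pp [(1, 60)])))) (.add (.mul (.g 4) (.add (.pp [(1, 150)]) (.mul (.g 6) (.pp [(1,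
 150)])))) (.mul (.g 1) (.pp [(1, 11449716)]))))))) (.add (.add (.mul (.g 5) (.mul (.g 5) (.add
 (.pp [(1, 119214900)]) (.add (.mul (.g 2) (.pp [(1, 60)])) (.mul (.g 4) (.pp [(1, 181650)]))))))
 (.mul (.g 16) (.add (.mul (.g 2) (.pp [(1, 2872140)])) (.mul (.g 3) (.pp [(1, 6992040)]))))) (.add
 (.mul (.g 1) (.pp [(1, 77616)])) (.mul (.g 4) (.pp [(1, 1011150)])))))) (.add (.mul (.g 0) (.pp
 [(1, 100000000)])) (.mul (.g 15) (.pp [(1, 100000000)])))) (.pp [(2, 1138278), (4, 3000), (6,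
 3066), (8, 3030), (10, 2937), (12, 3000), (14, 3045), (16, 3000), (18, 3030), (19, 300000000),
 (20, 3150), (23, 300000000), (24, 3000), (28, 3150), (30, 2730), (36, 3000), (40, 3000), (42,
 2844), (50, 3090), (54, 3000), (56, 3000), (60, 3000), (70, 2910), (84, 3000), (90, 3000), (98,
 2940), (100, 3000), (126, 3000), (140, 3000), (150, 3000), (196, 3000), (210, 3000), (250, 3000),
 (294, 3000), (350, 3000), (490, 3000), (686, 3000)])))))))
 (.split [(1, -3), (3, 5)]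
 (.split [(1, -17), (5, 25)]
 (.split [(2, 1), (3, -1)]
 (.split [(2, 1), (5, -1)]
 (.rule 0 (.rule 2 (.cut 1 [(1, 3), (3, -2)] (.add (.add (.mul (.g 3) (.pp [(1, 2)])) (.mul (.g 11)
 (.pp [(1, 3)]))) (.add (.mul (.g 9) (.pp [(1, 1)])) (.mul (.g 2) (.pp [(1, 1)])))) (.rule 8 (.rule
 10 (.leaf 300000000 (.add (.add (.add (.add (.mul (.g 13) (.add (.add (.add (.mul (.g 13) (.add
 (.add (.mul (.g 13) (.add (.mul (.g 14) (.pp [(1, 28464000000)])) (.add (.mul (.g 18) (.pp [(1,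
 256434000000)])) (.mul (.g 19) (.pp [(1, 67116000000)]))))) (.add (.mul (.g 10) (.add (.mul (.g 5)
 (.pp [(1, 310419000000)])) (.mul (.g 6) (.pp [(1, 1080753000000)])))) (.mul (.g 7) (.mul (.g 16)
 (.pp [(1, 3736440000)]))))) (.add (.mul (.g 8) (.mul (.g 9) (.pp [(1, 3088320000)]))) (.add (.mul
 (.g 12) (.pp [(1, 67410000000)])) (.mul (.g 17) (.pp [(1, 21889950000)])))))) (.mul (.g 6) (.add
 (.mul (.g 12) (.add (.mul (.g 6) (.pp [(1, 9018000000)])) (.add (.mul (.g 8) (.pp [(1,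
 25792800000)])) (.mul (.g 21) (.pp [(1, 38907000000)]))))) (.add (.mul (.g 11) (.add (.mul (.g 11)
 (.pp [(1, 257514000000)])) (.mul (.g 19) (.pp [(1, 686463000000)])))) (.mul (.g 14) (.mul (.g 18)
 (.pp [(1, 577266000000)]))))))) (.add (.mul (.g 11) (.add (.mul (.g 8) (.mul (.g 21) (.pp [(1,
 54372000000)]))) (.add (.mul (.g 10) (.mul (.g 18) (.pp [(1, 698784000000)]))) (.mul (.g 11) (.mul
 (.g 19) (.pp [(1, 246738000000)])))))) (.mul (.g 21) (.add (.pp [(1, 486228000000)]) (.mul (.pp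
 [(1, 23838000)]) (.sq [(1, 50), (2, 31), (3, 41), (5, 41), (7, 41)])))))) (.add (.add (.mul (.g 5)
 (.pp [(1, 165966000000)])) (.mul (.g 8) (.pp [(1, 115528200000)]))) (.add (.mul (.g 17) (.mul (.pp
 [(1, 290700)]) (.sq [(1, 72), (2, 100), (3, 59), (5, 56), (7, 89)]))) (.mul (.g 19) (.pp [(1,
 236949000000)])))))) (.add (.mul (.g 21) (.add (.add (.mul (.g 12) (.add (.add (.mul (.pp [(1,
 4527900)]) (.sq [(1, 94), (2, 100), (3, 73), (5, 100), (7, 73)])) (.mul (.g 5) (.mul (.g 11) (.pp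
 [(1, 954657000000)])))) (.add (.mul (.g 8) (.mul (.g 8) (.pp [(1, 2262720000)]))) (.mul (.g 12)
 (.mul (.g 12) (.pp [(1, 78699000000)])))))) (.add (.mul (.g 6) (.add (.pp [(1, 83847000000)])
 (.add (.mul (.pp [(1, 13965900)]) (.sq [(1, 77), (2, 87), (3, 71), (5, 52), (7, 100)])) (.mul (.pp
 [(1, 6044400)]) (.sq [(1, -4), (2, -100), (3, 92), (5, -89), (7, 71)]))))) (.mul (.g 5) (.add
 (.mul (.pp [(1, 36915900)]) (.sq [(1, -21), (2, 47), (3, 100), (5, -62), (7, 35)])) (.mul (.g 11)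
 (.mul (.g 21) (.pp [(1, 544506000000)]))))))) (.add (.add (.mul (.g 10) (.mul (.g 10) (.mul (.g
 10) (.pp [(1, 294432000000)])))) (.mul (.g 11) (.mul (.g 11) (.mul (.g 17) (.pp [(1,
 19626000000)]))))) (.add (.mul (.g 18) (.mul (.pp [(1, 5898600)]) (.sq [(1, -100), (2, 53), (3,
 31), (5, 97), (7, 97)]))) (.mul (.g 21) (.mul (.pp [(1, 11902800)]) (.sq [(1, -100), (2, 45), (3,
 18), (5, 58), (7, 58)]))))))) (.mul (.g 8) (.add (.add (.mul (.g 11) (.add (.mul (.g 5) (.add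
 (.mul (.g 8) (.pp [(1, 15419640000)])) (.mul (.g 12) (.pp [(1, 47464800000)])))) (.add (.mul (.g
 11) (.add (.mul (.g 17) (.pp [(1, 6329700000)])) (.mul (.g 19) (.pp [(1, 25436400000)])))) (.mul
 (.g 8) (.mul (.g 12) (.pp [(1, 52198080000)])))))) (.add (.mul (.g 6) (.mul (.pp [(1, 12392100)])
 (.sq [(1, 3), (2, 68), (3, 80), (5, 100), (7, -45)]))) (.mul (.g 8) (.pp [(1, 4701360000)]))))
 (.add (.mul (.g 14) (.pp [(1, 53382000000)])) (.add (.mul (.g 15) (.mul (.pp [(1, 907320)]) (.sq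
 [(1, 61), (2, 100), (3, -71), (5, -15), (7, 8)]))) (.mul (.g 19) (.pp [(1, 106874400000)]))))))))
 (.add (.add (.mul (.g 5) (.add (.add (.pp [(1, 193458000000)]) (.mul (.g 5) (.add (.pp [(1,
 204405000000)]) (.add (.mul (.pp [(1, 1090800)]) (.sq [(1, -19), (2, -39), (3, -60), (5, -91), (7,
 100)])) (.mul (.g 12) (.pp [(1, 900258000000)])))))) (.add (.mul (.g 10) (.add (.mul (.g 11) (.pp
 [(1, 1150002000000)])) (.mul (.g 12) (.pp [(1, 950613000000)])))) (.mul (.g 19) (.pp [(1,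
 182874000000)]))))) (.mul (.g 6) (.add (.mul (.g 6) (.add (.pp [(1, 263343000000)]) (.add (.mul
 (.g 11) (.pp [(1, 724200000000)])) (.mul (.g 16) (.pp [(1, 178605000000)]))))) (.add (.mul (.g 10)
 (.mul (.g 12) (.pp [(1, 326613000000)]))) (.mul (.g 17) (.mul (.pp [(1, 1041225)]) (.sq [(1, -40),
 (2, 41), (3, -26), (5, 42), (7, 100)]))))))) (.add (.mul (.g 7) (.add (.add (.mul (.g 7) (.mul (.g
 12) (.mul (.g 12) (.pp [(1, 6427200)])))) (.mul (.g 9) (.mul (.g 9) (.mul (.g 14) (.pp [(1,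
 6126000)]))))) (.add (.mul (.g 10) (.mul (.g 10) (.mul (.g 18) (.pp [(1, 36119880000)])))) (.mul
 (.g 15) (.mul (.pp [(1, 126288)]) (.sq [(1, 58), (2, 100), (3, -18), (5, -72), (7, 7)])))))) (.mul
 (.g 14) (.add (.mul (.g 17) (.add (.mul (.pp [(1, 1010760)]) (.sq [(1, -39), (2, -26), (3, -77),
 (5, -67), (7, 100)])) (.mul (.g 14) (.mul (.g 17) (.pp [(1, 2092500)]))))) (.mul (.g 18) (.mul
 (.pp [(1, 9307800)]) (.sq [(1, 2), (2, -4), (3, -49), (5, 100), (7, -99)])))))))) (.add (.add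
 (.add (.mul (.g 19) (.mul (.g 19) (.add (.pp [(1, 868212000000)]) (.mul (.pp [(1, 12996300)]) (.sq
 [(1, -2), (2, 41), (3, 100), (5, -1), (7, -49)]))))) (.mul (.g 0) (.pp [(1, 2400000000)]))) (.add
 (.mul (.g 1) (.pp [(1, 300000000)])) (.mul (.g 3) (.pp [(1, 1000000000000)])))) (.add (.add (.mul
 (.g 4) (.pp [(1, 1000000000000)])) (.mul (.g 10) (.mul (.g 17) (.mul (.pp [(1, 1652475)]) (.sq
 [(1, 31), (2, 26), (3, 13), (5, 8), (7, 100)]))))) (.add (.mul (.g 15) (.mul (.g 15) (.mul (.pp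
 [(1, 6192600)]) (.sq [(1, 68), (2, -28), (3, -100), (5, -23), (7, 73)])))) (.mul (.g 20) (.pp [(1,
 1000000000000)])))))) (.pp [(1, 33928675644), (2, 32961759), (3, 26115168), (4, 31890120), (5,
 22972644), (6, 29894802), (7, 25860912), (8, 30704885), (9, 34930392), (10, 26823828), (12,
 24629715), (14, 32071512), (15, 31537212), (16, 30866100), (18, 27579279), (20, 34114440), (21,
 37299036), (24, 25347600), (25, 28759716), (27, 30764536), (28, 28399800), (30, 22849812), (35,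
 33766020), (36, 36068100), (40, 28085100), (42, 31072848), (45, 32346804), (49, 33118044), (50,
 26763204), (54, 28528200), (56, 32049000), (60, 30688200), (63, 23370852), (70, 31222032), (75,
 29831004), (81, 30597300), (84, 32757900), (90, 35918100), (98, 30022944), (100, 31268700), (105,
 22075920), (125, 32242336), (126, 31264500), (135, 28426500), (140, 29888100), (147, 28183956),
 (150, 33387000), (175, 26610168), (189, 32005500), (196, 31473600), (210, 31869000), (225,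
 34180200), (245, 29318256), (250, 30571800), (294, 27014400), (315, 32231700), (343, 28280100),
 (350, 27933000), (375, 28813800), (441, 35026500), (490, 34615800), (525, 40201800), (625,
 28128300), (686, 31071900), (735, 32495400), (875, 31792200), (1029, 32507400), (1225, 30273900),
 (1715, 31825200), (2401, 30658800)]))))))))
 (.rule 0 (.rule 3 (.cut 2 [(1, 3), (3, -2)] (.add (.mul (.g 3) (.pp [(1, 9)])) (.add (.mul (.g 11)
 (.pp [(1, 9)])) (.mul (.g 5) (.pp [(1, 1)])))) (.rule 8 (.rule 10 (.leaf 300000000 (.add (.add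
 (.add (.add (.mul (.g 13) (.add (.add (.mul (.g 13) (.add (.add (.mul (.g 8) (.add (.add (.mul (.g
 6) (.pp [(1, 55918800000)])) (.mul (.g 8) (.pp [(1, 12975000000)]))) (.add (.mul (.g 11) (.pp [(1,
 14410200000)])) (.mul (.g 12) (.pp [(1, 90649200000)]))))) (.mul (.g 21) (.add (.mul (.g 7) (.pp
 [(1, 1738560000)])) (.add (.mul (.g 12) (.pp [(1, 24909000000)])) (.mul (.g 21) (.pp [(1,
 63873000000)])))))) (.add (.mul (.g 5) (.add (.mul (.g 5) (.pp [(1, 277584000000)])) (.mul (.g 13)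
 (.pp [(1, 176862000000)])))) (.add (.mul (.g 6) (.mul (.g 9) (.pp [(1, 6365850000)]))) (.mul (.g
 13) (.mul (.g 17) (.pp [(1, 3181500000)]))))))) (.mul (.g 19) (.add (.add (.mul (.g 8) (.add (.mul
 (.g 7) (.pp [(1, 592776000)])) (.add (.mul (.g 11) (.pp [(1, 41972400000)])) (.mul (.g 12) (.pp
 [(1, 131260200000)]))))) (.mul (.g 5) (.mul (.g 6) (.pp [(1, 655377000000)])))) (.add (.mul (.g 7)
 (.mul (.g 11) (.pp [(1, 2024400000)]))) (.add (.mul (.g 9) (.pp [(1, 11498700000)])) (.mul (.g 21)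
 (.mul (.g 21) (.pp [(1, 133251000000)])))))))) (.add (.mul (.g 5) (.add (.mul (.g 8) (.add (.mul
 (.g 12) (.pp [(1, 162546600000)])) (.mul (.g 15) (.pp [(1, 53093400000)])))) (.mul (.g 6) (.mul
 (.g 12) (.pp [(1, 781407000000)]))))) (.add (.mul (.g 21) (.add (.mul (.pp [(1, 39800400)]) (.sq
 [(1, 50), (2, 31), (3, 41), (5, 41), (7, 41)])) (.mul (.g 21) (.pp [(1, 230460000000)])))) (.mul
 (.g 8) (.mul (.g 11) (.mul (.g 12) (.pp [(1, 22094400000)])))))))) (.add (.mul (.g 6) (.add (.add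
 (.add (.mul (.g 11) (.add (.add (.mul (.pp [(1, 5993700)]) (.sq [(1, -27), (2, 100), (3, -6), (5,
 47), (7, -56)])) (.mul (.g 10) (.add (.pp [(1, 637893000000)]) (.add (.mul (.g 6) (.pp [(1,
 132606000000)])) (.mul (.g 10) (.pp [(1, 446853000000)])))))) (.add (.mul (.g 6) (.pp [(1,
 792378000000)])) (.mul (.g 15) (.pp [(1, 190815000000)]))))) (.mul (.g 6) (.add (.pp [(1,
 623964000000)]) (.mul (.g 12) (.mul (.g 12) (.pp [(1, 184986000000)])))))) (.add (.mul (.g 10)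
 (.add (.pp [(1, 139773000000)]) (.mul (.g 10) (.mul (.g 21) (.pp [(1, 1019022000000)]))))) (.mul
 (.g 7) (.mul (.pp [(1, 1309800)]) (.sq [(1, -18), (2, -100), (3, -69), (5, -5), (7, 74)])))))
 (.add (.add (.mul (.g 8) (.pp [(1, 258066000000)])) (.mul (.g 12) (.mul (.g 12) (.mul (.g 15) (.pp
 [(1, 106509000000)]))))) (.add (.mul (.g 19) (.pp [(1, 776079000000)])) (.mul (.g 21) (.pp [(1,
 331056000000)])))))) (.mul (.g 19) (.add (.add (.mul (.g 5) (.add (.mul (.pp [(1, 29801100)]) (.sq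
 [(1, -33), (2, 32), (3, -75), (5, 28), (7, 100)])) (.add (.mul (.g 5) (.add (.mul (.g 7) (.pp [(1,
 8462160000)])) (.mul (.g 11) (.pp [(1, 587346000000)])))) (.mul (.g 12) (.mul (.g 19) (.pp [(1,
 46398000000)])))))) (.add (.mul (.g 10) (.add (.mul (.g 8) (.mul (.g 12) (.pp [(1, 5655600000)])))
 (.add (.mul (.g 10) (.mul (.g 11) (.pp [(1, 705504000000)]))) (.mul (.g 19) (.mul (.g 19) (.pp
 [(1, 73902000000)])))))) (.mul (.g 21) (.add (.pp [(1, 12807000000)]) (.add (.mul (.pp [(1,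
 11743500)]) (.sq [(1, -100), (2, 63), (3, 63), (5, 84), (7, 84)])) (.mul (.pp [(1, 5986800)]) (.sq
 [(1, 18), (2, 38), (3, 41), (5, -50), (7, 37)]))))))) (.add (.mul (.g 8) (.pp [(1,
 415863000000)])) (.add (.mul (.g 9) (.mul (.g 9) (.mul (.g 9) (.pp [(1, 60075375)])))) (.mul (.g
 19) (.pp [(1, 1308882000000)])))))))) (.add (.mul (.g 8) (.add (.add (.mul (.g 5) (.add (.mul (.g
 5) (.mul (.g 12) (.pp [(1, 13306200000)]))) (.mul (.g 14) (.mul (.g 14) (.pp [(1,
 86312400000)]))))) (.add (.mul (.g 8) (.pp [(1, 45206520000)])) (.mul (.g 9) (.mul (.g 9) (.mul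
 (.g 9) (.pp [(1, 16136100)])))))) (.add (.mul (.g 10) (.mul (.g 10) (.mul (.g 21) (.pp [(1,
 132799800000)])))) (.add (.mul (.g 12) (.mul (.g 12) (.mul (.g 15) (.pp [(1, 13701000000)]))))
 (.mul (.g 14) (.mul (.g 14) (.mul (.g 16) (.pp [(1, 35175000000)])))))))) (.add (.mul (.g 5) (.add
 (.mul (.g 11) (.add (.mul (.pp [(1, 19813500)]) (.sq [(1, -19), (2, -55), (3, -17), (5, 100), (7,
 -76)])) (.mul (.g 5) (.mul (.g 5) (.pp [(1, 221160000000)]))))) (.add (.mul (.g 7) (.mul (.g 7)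
 (.mul (.g 12) (.pp [(1, 328507200)])))) (.mul (.g 15) (.mul (.pp [(1, 3638700)]) (.sq [(2, -100),
 (3, 44), (5, 68), (7, -85)])))))) (.mul (.g 14) (.add (.mul (.g 7) (.mul (.pp [(1, 179724)]) (.sq
 [(1, -62), (2, 24), (3, -39), (5, 100), (7, -16)]))) (.add (.mul (.g 14) (.mul (.pp [(1,
 14107500)]) (.sq [(1, -27), (2, 2), (3, 38), (5, 52), (7, 100)]))) (.mul (.g 21) (.mul (.pp [(1,
 1353000)]) (.sq [(1, -88), (2, 40), (3, 51), (5, 85), (7, 100)]))))))))) (.add (.add (.mul (.g 11)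
 (.add (.mul (.g 9) (.mul (.pp [(1, 2537715)]) (.sq [(1, -45), (2, 100), (3, 4), (5, -13), (7,
 -47)]))) (.mul (.g 15) (.mul (.pp [(1, 14705100)]) (.sq [(1, -31), (2, -59), (3, -45), (5, 100),
 (7, 6)]))))) (.add (.mul (.g 21) (.add (.mul (.g 15) (.mul (.pp [(1, 2696100)]) (.sq [(1, -33),
 (2, -57), (3, -84), (5, 100), (7, -74)]))) (.mul (.g 21) (.mul (.pp [(1, 24805200)]) (.sq [(1,
 -28), (2, 100), (3, -21), (5, -20), (7, 11)]))))) (.mul (.g 0) (.pp [(1, 2400000000)])))) (.add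
 (.add (.mul (.g 1) (.pp [(1, 300000000)])) (.mul (.g 3) (.pp [(1, 1000000000000)]))) (.add (.mul
 (.g 4) (.pp [(1, 1000000000000)])) (.mul (.g 20) (.pp [(1, 1000000000000)])))))) (.pp [(1,
 7577538627), (2, 32944740), (3, 24265563), (4, 29115516), (5, 18423225), (6, 30708036), (7,
 28749972), (8, 30310092), (9, 33917268), (10, 30450000), (12, 34765776), (14, 34123884), (15,
 37052250), (16, 30570000), (18, 26106432), (20, 26148000), (21, 35337534), (24, 26313300), (25,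
 38868900), (27, 28052440), (28, 32320344), (30, 24037200), (35, 36717900), (36, 28455000), (40,
 30019200), (42, 20926416), (45, 31859940), (49, 33987648), (50, 26763600), (54, 30064800), (56,
 31728900), (60, 35013600), (63, 23517660), (70, 27822600), (75, 27118035), (81, 30825900), (84,
 26023500), (90, 32340000), (98, 26317452), (100, 31944000), (105, 27992130), (125, 29292000),
 (126, 29061000), (135, 29515500), (140, 30627600), (147, 21307635), (150, 29430600), (175,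
 26052600), (189, 31704000), (196, 30091500), (210, 37220400), (225, 28900800), (245, 26424900),
 (250, 32866200), (294, 25345800), (315, 29771700), (343, 24918000), (350, 26655000), (375,
 30198600), (441, 31767600), (490, 34150200), (525, 30308400), (625, 28411200), (686, 27020400),
 (735, 32233500), (875, 32652000), (1029, 30717600), (1225, 28167900), (1715, 33324000), (2401,
 30043200)])))))))))
 (.split [(2, 1), (5, -1)]
 (.rule 1 (.rule 2 (.cut 17 [(1, 3), (3, -2)] (.add (.add (.mul (.g 12) (.pp [(1, 34)])) (.mul (.g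
 4) (.pp [(1, 1)]))) (.add (.mul (.g 9) (.pp [(1, 9)])) (.mul (.g 11) (.pp [(1, 34)])))) (.rule 8
 (.rule 10 (.leaf 1500000 (.add (.add (.add (.add (.add (.mul (.g 13) (.add (.add (.mul (.g 13)
 (.add (.add (.mul (.g 6) (.add (.mul (.g 10) (.pp [(1, 744285000)])) (.add (.mul (.g 13) (.pp [(1,
 180000)])) (.mul (.g 18) (.pp [(1, 560100000)]))))) (.add (.mul (.g 14) (.add (.mul (.g 12) (.pp
 [(1, 274395000)])) (.add (.mul (.g 13) (.pp [(1, 136920000)])) (.mul (.g 14) (.pp [(1,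
 1258080000)]))))) (.mul (.g 21) (.add (.mul (.g 10) (.pp [(1, 1304490000)])) (.mul (.g 12) (.pp
 [(1, 210000)])))))) (.add (.mul (.g 7) (.mul (.g 19) (.pp [(1, 7200)]))) (.add (.mul (.g 11) (.mul
 (.g 11) (.pp [(1, 560250000)]))) (.mul (.g 13) (.mul (.g 17) (.pp [(1, 3000)]))))))) (.add (.mul
 (.g 11) (.add (.add (.mul (.g 10) (.add (.pp [(1, 5286975000)]) (.mul (.g 16) (.pp [(1,
 708555000)])))) (.mul (.g 19) (.add (.mul (.g 7) (.pp [(1, 6600)])) (.mul (.g 11) (.pp [(1,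
 60000)]))))) (.add (.mul (.g 8) (.mul (.g 14) (.pp [(1, 141753000)]))) (.mul (.g 21) (.mul (.g 21)
 (.pp [(1, 60000)])))))) (.mul (.g 12) (.add (.add (.mul (.g 6) (.pp [(1, 296850000)])) (.mul (.g
 7) (.mul (.g 19) (.pp [(1, 7800)])))) (.add (.mul (.g 8) (.pp [(1, 82497000)])) (.add (.mul (.g
 10) (.mul (.g 18) (.pp [(1, 1257225000)]))) (.mul (.g 17) (.pp [(1, 6855000)])))))))) (.add (.add
 (.mul (.g 21) (.add (.pp [(1, 1543665000)]) (.add (.mul (.g 10) (.add (.pp [(1, 1791390000)])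
 (.mul (.g 14) (.pp [(1, 3074040000)])))) (.mul (.g 21) (.mul (.g 21) (.pp [(1, 150000)]))))))
 (.mul (.g 5) (.pp [(1, 1036530000)]))) (.add (.mul (.g 7) (.pp [(1, 30949200)])) (.mul (.g 8) (.pp
 [(1, 279483000)])))))) (.mul (.g 10) (.add (.add (.mul (.g 6) (.add (.mul (.g 11) (.add (.mul (.g
 6) (.pp [(1, 478725000)])) (.add (.mul (.g 17) (.pp [(1, 129062250)])) (.mul (.g 18) (.pp [(1,
 4760370000)]))))) (.add (.mul (.g 8) (.mul (.g 17) (.pp [(1, 18037050)]))) (.mul (.g 14) (.mul (.g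
 19) (.pp [(1, 4748595000)])))))) (.mul (.g 10) (.add (.mul (.g 21) (.add (.mul (.g 10) (.pp [(1,
 5409090000)])) (.add (.mul (.g 11) (.pp [(1, 2365695000)])) (.mul (.g 12) (.pp [(1, 315000)])))))
 (.add (.mul (.g 7) (.mul (.g 10) (.pp [(1, 182675400)]))) (.mul (.g 12) (.mul (.g 19) (.pp [(1,
 300000)]))))))) (.add (.mul (.g 5) (.add (.pp [(1, 146700000)]) (.add (.mul (.g 11) (.mul (.g 18)
 (.pp [(1, 6592035000)]))) (.mul (.g 12) (.pp [(1, 1880070000)]))))) (.mul (.g 12) (.add (.mul (.g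
 15) (.pp [(1, 319995000)])) (.mul (.g 21) (.mul (.g 21) (.pp [(1, 274305000)]))))))))) (.add (.mul
 (.g 12) (.add (.add (.mul (.g 19) (.add (.mul (.g 11) (.add (.mul (.g 5) (.pp [(1, 195000)]))
 (.mul (.g 7) (.pp [(1, 39458400)])))) (.add (.mul (.g 12) (.add (.mul (.g 12) (.pp [(1, 165000)]))
 (.mul (.g 18) (.pp [(1, 600960000)])))) (.mul (.g 8) (.mul (.g 19) (.pp [(1, 77037000)]))))))
 (.mul (.g 11) (.add (.mul (.g 6) (.mul (.g 6) (.pp [(1, 181620000)]))) (.mul (.g 11) (.mul (.g 15)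
 (.pp [(1, 105000)])))))) (.add (.mul (.g 14) (.add (.mul (.g 12) (.mul (.g 12) (.pp [(1,
 60000)]))) (.mul (.g 17) (.pp [(1, 56838750)])))) (.mul (.g 5) (.mul (.g 5) (.pp [(1,
 5831715000)])))))) (.mul (.g 5) (.add (.add (.pp [(1, 2326395000)]) (.mul (.g 11) (.add (.pp [(1,
 1423215000)]) (.mul (.g 9) (.mul (.g 11) (.pp [(1, 571674750)])))))) (.add (.mul (.g 5) (.pp [(1,
 197220000)])) (.mul (.g 6) (.mul (.g 6) (.mul (.g 6) (.pp [(1, 181500000)]))))))))) (.add (.add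
 (.mul (.g 6) (.add (.mul (.g 6) (.add (.pp [(1, 2604150000)]) (.mul (.g 6) (.mul (.g 15) (.pp [(1,
 180000)]))))) (.mul (.g 11) (.add (.pp [(1, 2352780000)]) (.mul (.g 11) (.mul (.g 14) (.pp [(1,
 285720000)]))))))) (.mul (.g 21) (.add (.pp [(1, 179385000)]) (.mul (.pp [(1, 137505000)]) (.sq
 [(2, 1), (3, 1), (5, 1), (7, 1)]))))) (.add (.mul (.g 0) (.pp [(1, 12000000)])) (.mul (.g 1) (.pp
 [(1, 1500000)]))))) (.add (.add (.add (.mul (.g 3) (.pp [(1, 5000000000)])) (.mul (.g 4) (.pp [(1,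
 5000000000)]))) (.add (.mul (.g 7) (.mul (.g 7) (.pp [(1, 6255768)]))) (.mul (.g 8) (.mul (.g 8)
 (.mul (.g 9) (.mul (.g 9) (.pp [(1, 275106)]))))))) (.add (.add (.mul (.g 15) (.mul (.g 15) (.mul
 (.pp [(1, 3)]) (.sq [(1, 17), (2, -100), (3, -99), (5, 67), (7, 86)])))) (.mul (.g 18) (.mul (.pp
 [(1, 148470000)]) (.sq [(2, 1), (3, 1), (5, 1), (7, 1)])))) (.add (.mul (.g 19) (.mul (.g 19) (.pp
 [(1, 906855000)]))) (.mul (.g 20) (.pp [(1, 5000000000)])))))) (.pp [(1, 299866227), (2, 151626),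
 (3, 150012), (4, 158283), (5, 162450), (6, 134580), (7, 146628), (8, 150000), (9, 166884), (10,
 124116), (12, 199398), (14, 124056), (15, 129336), (16, 150000), (18, 121248), (20, 125166), (21,
 129828), (24, 195600), (25, 137334), (27, 143904), (28, 139428), (30, 119868), (35, 151572), (36,
 74397), (40, 130200), (42, 172512), (45, 162822), (49, 160212), (50, 186534), (54, 194406), (56,
 141600), (60, 108198), (63, 189060), (70, 190200), (75, 190968), (81, 150597), (84, 157884), (90,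
 200610), (98, 165624), (100, 176133), (105, 197232), (125, 151100), (126, 159432), (135, 145992),
 (140, 177228), (147, 149376), (150, 163338), (175, 137772), (189, 141084), (196, 142812), (210,
 130176), (225, 141726), (245, 146976), (250, 127134), (294, 149376), (315, 127596), (343, 162000),
 (350, 120744), (375, 132864), (441, 157812), (490, 134376), (525, 146940), (625, 151533), (686,
 150000), (735, 165624), (875, 160428), (1029, 150000), (1225, 157812), (1715, 150000), (2401,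
 150000)]))))))))
 (.rule 1 (.rule 3 (.cut 1 [(1, 3), (3, -2)] (.add (.add (.mul (.g 7) (.pp [(1, 1)])) (.mul (.g 12)
 (.pp [(1, 2)]))) (.add (.mul (.g 2) (.pp [(1, 2)])) (.mul (.g 11) (.pp [(1, 1)])))) (.rule 8
 (.rule 10 (.leaf 300000000 (.add (.add (.add (.add (.mul (.pp [(1, 30469800)]) (.sq [(1, -83), (2,
 100), (3, -55), (5, 76), (7, -33)])) (.add (.mul (.g 13) (.add (.add (.mul (.g 13) (.add (.add
 (.mul (.pp [(1, 18045300)]) (.sq [(1, 1), (2, -23), (3, -2), (5, -17), (7, 100)])) (.add (.mul (.g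
 7) (.add (.mul (.g 10) (.pp [(1, 6693000000)])) (.add (.mul (.g 11) (.pp [(1, 5168280000)])) (.mul
 (.g 19) (.pp [(1, 9752640000)]))))) (.mul (.g 13) (.add (.mul (.g 5) (.pp [(1, 199881000000)]))
 (.add (.mul (.g 6) (.pp [(1, 4911000000)])) (.mul (.g 21) (.pp [(1, 363246000000)]))))))) (.add
 (.add (.mul (.g 8) (.add (.mul (.g 12) (.pp [(1, 33567600000)])) (.mul (.g 15) (.pp [(1,
 43683600000)])))) (.mul (.g 21) (.add (.mul (.g 12) (.pp [(1, 138555000000)])) (.mul (.g 21) (.pp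
 [(1, 182763000000)]))))) (.add (.mul (.g 6) (.mul (.g 6) (.pp [(1, 180357000000)]))) (.mul (.g 9)
 (.mul (.g 9) (.pp [(1, 377025000)]))))))) (.mul (.g 6) (.add (.add (.mul (.g 15) (.add (.mul (.g
 11) (.pp [(1, 761172000000)])) (.add (.mul (.g 12) (.pp [(1, 41052000000)])) (.mul (.g 18) (.pp
 [(1, 27048000000)]))))) (.mul (.g 5) (.mul (.g 18) (.pp [(1, 228558000000)])))) (.add (.mul (.g 7)
 (.mul (.g 8) (.pp [(1, 13732248000)]))) (.add (.mul (.g 9) (.mul (.g 9) (.pp [(1, 1689652500)])))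
 (.mul (.g 10) (.mul (.g 19) (.pp [(1, 102087000000)])))))))) (.add (.mul (.g 8) (.add (.add (.mul
 (.g 8) (.add (.mul (.g 5) (.pp [(1, 4248720000)])) (.mul (.g 17) (.pp [(1, 1105014000)])))) (.mul
 (.g 12) (.add (.mul (.g 15) (.pp [(1, 63236400000)])) (.mul (.g 18) (.pp [(1, 131740200000)])))))
 (.add (.mul (.g 7) (.mul (.g 18) (.pp [(1, 4113552000)]))) (.mul (.g 11) (.mul (.g 14) (.pp [(1,
 246476400000)])))))) (.add (.mul (.g 21) (.add (.pp [(1, 120756000000)]) (.add (.mul (.g 10) (.add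
 (.pp [(1, 778509000000)]) (.mul (.g 14) (.pp [(1, 357120000000)])))) (.mul (.g 12) (.add (.pp [(1,
 199266000000)]) (.mul (.g 15) (.pp [(1, 213210000000)]))))))) (.mul (.g 11) (.add (.mul (.g 7)
 (.mul (.g 18) (.pp [(1, 18873360000)]))) (.mul (.g 15) (.mul (.g 15) (.pp [(1,
 188151000000)]))))))))) (.mul (.g 15) (.add (.add (.add (.mul (.g 8) (.add (.pp [(1,
 55002600000)]) (.add (.mul (.pp [(1, 2990400)]) (.sq [(1, -24), (2, 100), (3, 57), (5, 85), (7,
 -15)])) (.mul (.g 11) (.mul (.g 11) (.pp [(1, 80800200000)])))))) (.mul (.g 9) (.add (.mul (.pp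
 [(1, 878235)]) (.sq [(1, -19), (2, 100), (3, 45), (5, 38), (7, -22)])) (.mul (.g 9) (.pp [(1,
 1350952500)]))))) (.add (.mul (.g 15) (.add (.pp [(1, 526989000000)]) (.mul (.pp [(1, 7191300)])
 (.sq [(1, 88), (2, -39), (3, 100), (5, 47), (7, 74)])))) (.add (.mul (.g 5) (.mul (.pp [(1,
 1778700)]) (.sq [(1, 49), (2, 100), (3, -97), (5, -56), (7, -97)]))) (.mul (.g 7) (.mul (.pp [(1,
 3792)]) (.sq [(1, 61), (2, 42), (3, -100), (5, -79), (7, 98)])))))) (.add (.add (.mul (.g 10)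
 (.mul (.g 10) (.mul (.g 10) (.pp [(1, 24957000000)])))) (.mul (.g 11) (.mul (.pp [(1, 23046000)])
 (.sq [(1, -44), (2, -86), (3, 2), (5, 61), (7, 100)])))) (.add (.mul (.g 12) (.mul (.pp [(1,
 5649600)]) (.sq [(1, -26), (2, 36), (3, -56), (5, 100), (7, 5)]))) (.add (.mul (.g 14) (.mul (.pp
 [(1, 103158000)]) (.sq [(1, -44), (2, 50), (3, 34), (5, 34), (7, 25)]))) (.mul (.g 19) (.pp [(1,
 364413000000)]))))))))) (.add (.add (.mul (.g 6) (.add (.mul (.g 6) (.add (.mul (.pp [(1,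
 4089000)]) (.sq [(1, 15), (2, -10), (3, 69), (5, 63), (7, -100)])) (.mul (.g 12) (.add (.mul (.g
 10) (.pp [(1, 195108000000)])) (.add (.mul (.g 11) (.pp [(1, 88518000000)])) (.mul (.g 18) (.pp
 [(1, 161055000000)]))))))) (.mul (.g 8) (.add (.mul (.g 7) (.mul (.g 11) (.pp [(1, 2451168000)])))
 (.add (.mul (.g 8) (.mul (.g 8) (.pp [(1, 1038768000)]))) (.mul (.g 12) (.mul (.g 12) (.pp [(1,
 49378200000)])))))))) (.mul (.g 8) (.add (.mul (.g 8) (.add (.pp [(1, 13889520000)]) (.mul (.g 8)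
 (.add (.mul (.g 11) (.pp [(1, 636000000)])) (.mul (.g 12) (.pp [(1, 1888536000)])))))) (.mul (.g
 19) (.pp [(1, 316405800000)]))))) (.add (.mul (.g 10) (.add (.add (.mul (.pp [(1, 26479500)]) (.sq
 [(1, -75), (2, 100), (3, -73), (5, 84), (7, -35)])) (.mul (.pp [(1, 379706400)]) (.sq [(1, -32),
 (2, 50), (3, 16), (5, -5), (7, -9)]))) (.add (.mul (.g 10) (.mul (.pp [(1, 4621800)]) (.sq [(1,
 -72), (2, 77), (3, -75), (5, 100), (7, -9)]))) (.mul (.g 21) (.mul (.pp [(1, 6555900)]) (.sq [(1,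
 -87), (2, 100), (3, 33), (5, 20), (7, -9)])))))) (.mul (.g 11) (.add (.mul (.g 11) (.mul (.g 19)
 (.mul (.g 19) (.pp [(1, 84858000000)])))) (.add (.mul (.g 12) (.mul (.pp [(1, 8273100)]) (.sq [(1,
 -73), (2, 100), (3, -84), (5, 88), (7, -34)]))) (.mul (.g 16) (.mul (.pp [(1, 15191400)]) (.sq
 [(1, -11), (2, 47), (3, 100), (5, -95), (7, -24)]))))))))) (.add (.add (.add (.mul (.g 14) (.add
 (.mul (.g 12) (.mul (.pp [(1, 13122900)]) (.sq [(1, 77), (2, -94), (3, 97), (5, -100), (7,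
 -62)]))) (.mul (.g 19) (.mul (.g 21) (.mul (.g 21) (.pp [(1, 68088000000)])))))) (.mul (.g 0) (.pp
 [(1, 2400000000)]))) (.add (.mul (.g 1) (.pp [(1, 300000000)])) (.mul (.g 3) (.pp [(1,
 1000000000000)])))) (.add (.add (.mul (.g 4) (.pp [(1, 1000000000000)])) (.mul (.g 19) (.mul (.g
 19) (.mul (.pp [(1, 7125300)]) (.sq [(1, 100), (2, -41), (3, 75), (5, -81), (7, 23)]))))) (.add
 (.mul (.g 20) (.pp [(1, 1000000000000)])) (.mul (.g 21) (.mul (.pp [(1, 27777300)]) (.sq [(1,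
 -70), (2, 100), (3, -30), (5, 46), (7, 7)]))))))) (.pp [(1, 731354679), (2, 28219215), (3,
 35244471), (4, 25581432), (5, 27428949), (6, 40713714), (7, 27870444), (8, 30351496), (9,
 23365425), (10, 38001588), (12, 31118304), (14, 32506092), (15, 15216522), (16, 28480500), (18,
 26233275), (20, 39040800), (21, 35055156), (24, 29191200), (25, 32019036), (27, 30173325), (28,
 28865448), (30, 15249804), (35, 30960060), (36, 28194900), (40, 31536000), (42, 36667452), (45,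
 37588425), (49, 31261296), (50, 20252868), (54, 31458300), (56, 28898400), (60, 30201600), (63,
 26535300), (70, 31225656), (75, 43539936), (81, 31503000), (84, 36267000), (90, 33655200), (98,
 28063296), (100, 26195100), (105, 20591196), (125, 28255236), (126, 21549900), (135, 28890300),
 (140, 30918000), (147, 30732504), (150, 31701000), (175, 27792096), (189, 32160000), (196,
 30715200), (210, 18589200), (225, 28170900), (245, 29063304), (250, 32939400), (294, 29596200),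
 (315, 37026600), (343, 32027700), (350, 27565800), (375, 27873000), (441, 30213600), (490,
 33285600), (525, 36390000), (625, 30975000), (686, 31407900), (735, 29539500), (875, 31698600),
 (1029, 27120000), (1225, 29553300), (1715, 28020000), (2401, 30000000)]))))))))))
 (.cut 1 [(1, 3), (3, -2)] (.add (.add (.mul (.g 8) (.pp [(1, 1)])) (.mul (.g 11) (.pp [(1, 1)])))
 (.add (.mul (.g 5) (.pp [(1, 1)])) (.mul (.g 7) (.pp [(1, 1)])))) (.rule 8 (.rule 4 (.leaf
 3750000000 (.add (.add (.add (.add (.mul (.pp [(1, 592076250)]) (.sq [(1, 1), (2, 100), (3, -75),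
 (5, -16), (7, -24)])) (.add (.mul (.g 9) (.add (.add (.mul (.g 17) (.add (.add (.pp [(1,
 144600000000)]) (.add (.mul (.g 7) (.add (.pp [(1, 657712500000)]) (.add (.mul (.g 7) (.pp [(1,
 567750000000)])) (.mul (.g 17) (.pp [(1, 562800000000)]))))) (.mul (.g 3) (.add (.mul (.g 9) (.pp
 [(1, 161683500000)])) (.mul (.g 17) (.pp [(1, 119703000000)])))))) (.add (.mul (.g 6) (.add (.pp
 [(1, 14422800000000)]) (.mul (.g 6) (.pp [(1, 891262500000)])))) (.add (.mul (.g 9) (.pp [(1,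
 333600000000)])) (.mul (.g 17) (.mul (.g 17) (.pp [(1, 375000000)]))))))) (.add (.mul (.g 4) (.add
 (.add (.mul (.g 6) (.add (.add (.mul (.g 3) (.pp [(1, 17624400000)])) (.mul (.g 4) (.pp [(1,
 94020000000)]))) (.add (.mul (.g 9) (.pp [(1, 1499610000000)])) (.mul (.g 10) (.pp [(1,
 1639342500000)]))))) (.mul (.g 7) (.add (.mul (.g 8) (.pp [(1, 819592500000)])) (.mul (.g 10) (.pp
 [(1, 163942500000)]))))) (.add (.mul (.g 4) (.mul (.g 10) (.pp [(1, 2905500000)]))) (.add (.mul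
 (.g 8) (.mul (.g 9) (.pp [(1, 232740000000)]))) (.mul (.g 12) (.mul (.g 12) (.pp [(1,
 59737500000)]))))))) (.mul (.g 3) (.add (.pp [(1, 42837000000)]) (.add (.mul (.g 5) (.mul (.g 5)
 (.pp [(1, 202320000)]))) (.mul (.g 7) (.mul (.g 7) (.pp [(1, 2050500000)])))))))) (.add (.add
 (.mul (.g 7) (.add (.mul (.pp [(1, 48783750)]) (.sq [(1, -3), (2, -43), (3, -88), (5, 52), (7,
 100)])) (.mul (.g 11) (.mul (.g 13) (.pp [(1, 29285625000)]))))) (.mul (.g 5) (.mul (.g 5) (.mul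
 (.g 10) (.pp [(1, 16390312500)]))))) (.add (.mul (.g 8) (.mul (.g 9) (.mul (.g 13) (.pp [(1,
 6161250000)])))) (.mul (.g 11) (.mul (.pp [(1, 104977500)]) (.sq [(1, -28), (2, -14), (3, -11),
 (5, 7), (7, 100)]))))))) (.mul (.g 3) (.add (.add (.mul (.g 6) (.add (.add (.pp [(1,
 218736000000)]) (.mul (.g 7) (.add (.add (.mul (.g 7) (.pp [(1, 56187000000)])) (.mul (.g 8) (.pp
 [(1, 781402500000)]))) (.add (.mul (.g 10) (.pp [(1, 167265000000)])) (.mul (.g 15) (.pp [(1,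
 711285000000)])))))) (.add (.mul (.g 6) (.add (.mul (.g 4) (.pp [(1, 72259800000)])) (.mul (.g 6)
 (.pp [(1, 29308500000)])))) (.add (.mul (.g 3) (.mul (.g 3) (.pp [(1, 367200)]))) (.mul (.g 8)
 (.mul (.g 12) (.pp [(1, 9049500000)]))))))) (.add (.mul (.g 8) (.add (.pp [(1, 14973000000)])
 (.add (.mul (.g 8) (.add (.pp [(1, 20118000000)]) (.add (.mul (.g 5) (.pp [(1, 214050000)])) (.mul
 (.g 8) (.pp [(1, 2607000000)]))))) (.mul (.g 7) (.add (.mul (.g 7) (.pp [(1, 4446000000)])) (.mul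
 (.g 10) (.pp [(1, 22402500000)]))))))) (.mul (.g 7) (.add (.pp [(1, 79957500000)]) (.mul (.g 7)
 (.mul (.g 7) (.pp [(1, 16464000000)]))))))) (.add (.mul (.g 3) (.mul (.pp [(1, 46944)]) (.sq [(1,
 84), (2, 100), (3, 87), (5, 47), (7, 32)]))) (.add (.mul (.g 4) (.pp [(1, 55186500000)])) (.mul
 (.g 10) (.mul (.g 17) (.mul (.g 17) (.pp [(1, 82225500000)])))))))))) (.add (.mul (.g 4) (.add
 (.add (.mul (.g 6) (.add (.mul (.g 6) (.add (.mul (.g 6) (.pp [(1, 349147500000)])) (.mul (.g 14)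
 (.pp [(1, 306360000000)])))) (.mul (.g 10) (.mul (.g 10) (.pp [(1, 1384905000000)]))))) (.add
 (.mul (.g 4) (.add (.pp [(1, 93186000000)]) (.mul (.g 7) (.pp [(1, 4986000000)])))) (.mul (.g 5)
 (.mul (.g 5) (.mul (.g 17) (.pp [(1, 1437300000)])))))) (.add (.mul (.g 7) (.mul (.g 7) (.mul (.g
 7) (.pp [(1, 24210000000)])))) (.add (.mul (.g 8) (.mul (.pp [(1, 10914000)]) (.sq [(1, -8), (2,
 33), (3, -36), (5, 50), (7, 3)]))) (.mul (.g 10) (.mul (.g 10) (.mul (.g 12) (.pp [(1,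
 709140000000)])))))))) (.add (.mul (.g 17) (.add (.mul (.pp [(1, 1000608750)]) (.sq [(1, -6), (2,
 100), (3, -65), (7, 2)])) (.add (.mul (.g 6) (.add (.mul (.pp [(1, 615240000)]) (.sq [(1, -18),
 (2, 100), (3, -21), (5, -21), (7, -86)])) (.add (.mul (.pp [(1, 44996250)]) (.sq [(1, -87), (2,
 100), (3, 51), (5, -2), (7, 48)])) (.mul (.pp [(1, 40841250)]) (.sq [(1, -10), (2, 100), (3, -65),
 (5, 21), (7, -1)]))))) (.mul (.g 12) (.mul (.pp [(1, 8347500)]) (.sq [(1, -1), (2, -53), (3, -54),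
 (5, 100), (7, 4)])))))) (.mul (.g 5) (.add (.mul (.pp [(1, 37916625)]) (.sq [(1, -79), (2, 100),
 (3, 45), (5, -11), (7, -37)])) (.add (.mul (.pp [(1, 15023250)]) (.sq [(1, -12), (2, 100), (3,
 -76), (5, 11), (7, -23)])) (.mul (.g 12) (.mul (.pp [(1, 2270625)]) (.sq [(2, 100), (3, -56), (5,
 -41)]))))))))) (.add (.add (.mul (.g 7) (.add (.mul (.pp [(1, 578906250)]) (.sq [(1, 9), (2, 100),
 (3, -80), (5, -27), (7, -19)])) (.add (.mul (.g 6) (.mul (.pp [(1, 120195000)]) (.sq [(1, -8), (2,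
 100), (3, -75), (5, -3), (7, -15)]))) (.mul (.g 12) (.mul (.pp [(1, 39915000)]) (.sq [(1, -55),
 (2, 100), (3, -16), (5, -11), (7, 41)])))))) (.add (.mul (.g 0) (.pp [(1, 12500000000000)])) (.mul
 (.g 1) (.pp [(1, 3750000000)])))) (.add (.mul (.g 8) (.mul (.g 10) (.mul (.pp [(1, 17201250)])
 (.sq [(1, -52), (2, 74), (3, -15), (5, 28), (7, 100)])))) (.add (.mul (.g 12) (.mul (.g 14) (.mul
 (.pp [(1, 29808750)]) (.sq [(1, -1), (2, -57), (3, -60), (5, 100)])))) (.mul (.g 16) (.pp [(1,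
 12500000000000)])))))) (.pp [(1, 10025459679), (2, 360275100), (3, 366186594), (4, 414172500), (5,
 381303264), (6, 367236600), (7, 392893434), (8, 333506250), (9, 366878571), (10, 397391100), (12,
 331151250), (14, 364208850), (15, 386575152), (16, 375000000), (18, 393615000), (20, 388791750),
 (21, 318235512), (23, 37500000000000), (24, 370743750), (25, 396958731), (27, 360018750), (28,
 334875000), (30, 452883000), (35, 387179622), (36, 421916250), (40, 399045000), (42, 369652500),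
 (45, 385156350), (49, 357774291), (50, 327530625), (54, 366262500), (56, 376282500), (60,
 353951250), (63, 409631250), (70, 374758500), (75, 372811575), (81, 384570000), (84, 420993750),
 (90, 315153750), (98, 379106250), (100, 365392500), (105, 426008700), (125, 379152225), (126,
 399952500), (135, 403770000), (140, 388057500), (147, 385413750), (150, 400863750), (175,
 360101700), (189, 374587500), (196, 406590000), (210, 368805000), (225, 352245000), (245,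
 345645600), (250, 351367500), (294, 375333750), (315, 348742500), (343, 370935000), (350,
 384828750), (375, 365265000), (441, 348825000), (490, 369427500), (525, 358312500), (625,
 362940000), (686, 368681250), (735, 421695000), (875, 364177500), (1029, 396060000), (1225,
 377340000), (1715, 396060000), (2401, 375000000)])))))))
 (.split [(1, -7), (3, 50)]
 (.split [(1, -17), (5, 25)]
 (.split [(2, 1), (3, -1)]
 (.split [(2, 1), (5, -1)]
 (.rule 0 (.rule 2 (.rule 7 (.rule 10 (.leaf 300000000 (.add (.add (.add (.add (.mul (.g 13) (.add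
 (.add (.mul (.g 14) (.add (.add (.mul (.g 5) (.add (.mul (.g 10) (.pp [(1, 815913000000)])) (.add
 (.mul (.g 12) (.pp [(1, 721698000000)])) (.mul (.g 19) (.pp [(1, 835380000000)]))))) (.mul (.g 4)
 (.add (.mul (.g 12) (.pp [(1, 94512000000)])) (.mul (.g 21) (.pp [(1, 279975000000)]))))) (.add
 (.mul (.g 13) (.add (.mul (.g 11) (.pp [(1, 155808000000)])) (.mul (.g 13) (.pp [(1,
 232266000000)])))) (.add (.mul (.g 7) (.mul (.g 10) (.pp [(1, 37257060000)]))) (.mul (.g 9) (.mul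
 (.g 21) (.pp [(1, 27060900000)]))))))) (.add (.mul (.g 17) (.add (.add (.pp [(1, 1968300000)])
 (.mul (.pp [(1, 155340)]) (.sq [(1, 65), (2, 13), (3, -4), (5, 100), (7, 14)]))) (.add (.mul (.g
 12) (.add (.pp [(1, 15549450000)]) (.mul (.g 12) (.pp [(1, 525600000)])))) (.mul (.g 13) (.add
 (.mul (.g 5) (.pp [(1, 1487700000)])) (.mul (.g 13) (.pp [(1, 3177000000)]))))))) (.mul (.g 6)
 (.add (.mul (.g 10) (.add (.pp [(1, 965040000)]) (.add (.mul (.g 11) (.pp [(1, 8736000000)]))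
 (.mul (.g 19) (.pp [(1, 2692800000)]))))) (.add (.mul (.g 4) (.mul (.g 11) (.pp [(1,
 4078920000)]))) (.mul (.g 9) (.mul (.g 13) (.pp [(1, 486276000)])))))))) (.add (.add (.mul (.g 7)
 (.add (.mul (.g 7) (.add (.mul (.g 7) (.pp [(1, 1101168)])) (.mul (.g 19) (.pp [(1, 77677200)]))))
 (.mul (.g 13) (.pp [(1, 6343740000)])))) (.mul (.g 8) (.mul (.g 8) (.add (.mul (.g 5) (.pp [(1,
 3944160000)])) (.add (.mul (.g 12) (.pp [(1, 6972000000)])) (.mul (.g 19) (.pp [(1,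
 5633280000)]))))))) (.add (.mul (.g 21) (.add (.pp [(1, 285021000000)]) (.mul (.pp [(1,
 13700400)]) (.sq [(1, 50), (2, 31), (3, 41), (5, 41), (7, 41)])))) (.mul (.g 13) (.mul (.pp [(1,
 1274700)]) (.sq [(1, 6), (2, -17), (3, -12), (5, -5), (7, 100)]))))))) (.add (.mul (.g 21) (.add
 (.add (.add (.mul (.pp [(1, 40044000)]) (.sq [(2, 39), (3, 39), (5, 50), (7, 50)])) (.mul (.g 5)
 (.add (.pp [(1, 432720000000)]) (.add (.mul (.pp [(1, 1321500)]) (.sq [(1, 81), (2, -69), (3,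
 100), (5, 6), (7, 67)])) (.mul (.g 12) (.add (.pp [(1, 120291000000)]) (.mul (.g 18) (.pp [(1,
 7356000000)])))))))) (.add (.mul (.g 7) (.add (.mul (.pp [(1, 51000)]) (.sq [(1, -26), (2, -51),
 (3, -62), (5, -11), (7, 100)])) (.mul (.g 7) (.mul (.g 11) (.pp [(1, 49224000)]))))) (.mul (.g 21)
 (.add (.mul (.pp [(1, 27000)]) (.sq [(1, 85), (2, 93), (3, 89), (5, 70), (7, 100)])) (.mul (.pp
 [(1, 2967300)]) (.sq [(1, -100), (2, 45), (3, 18), (5, 58), (7, 58)])))))) (.add (.add (.mul (.g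
 6) (.pp [(1, 4029000000)])) (.mul (.g 8) (.pp [(1, 72127800000)]))) (.add (.mul (.g 10) (.mul (.g
 10) (.mul (.g 10) (.pp [(1, 150087000000)])))) (.add (.mul (.g 17) (.mul (.pp [(1, 185925)]) (.sq
 [(1, -73), (2, 20), (3, -27), (5, -80), (7, 100)]))) (.mul (.g 18) (.mul (.pp [(1, 3990300)]) (.sq
 [(1, -100), (2, 53), (3, 31), (5, 97), (7, 97)])))))))) (.mul (.g 4) (.add (.add (.mul (.g 10)
 (.add (.pp [(1, 1975791000000)]) (.mul (.g 10) (.add (.pp [(1, 492156000000)]) (.mul (.g 12) (.pp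
 [(1, 55299000000)])))))) (.mul (.g 4) (.add (.mul (.g 12) (.pp [(1, 745059000000)])) (.mul (.g 16)
 (.pp [(1, 231795000000)]))))) (.add (.mul (.g 5) (.pp [(1, 557862000000)])) (.add (.mul (.g 12)
 (.pp [(1, 554139000000)])) (.mul (.g 17) (.mul (.pp [(1, 320895)]) (.sq [(1, 25), (2, 46), (3,
 -11), (5, 22), (7, 100)]))))))))) (.add (.add (.mul (.g 5) (.add (.add (.mul (.g 5) (.add (.mul
 (.g 11) (.pp [(1, 814176000000)])) (.mul (.g 16) (.pp [(1, 153717000000)])))) (.mul (.g 6) (.pp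
 [(1, 20484720000)]))) (.add (.mul (.g 10) (.mul (.g 12) (.mul (.g 12) (.pp [(1, 101946000000)]))))
 (.add (.mul (.g 14) (.mul (.pp [(1, 3224100)]) (.sq [(1, -29), (2, 84), (3, -82), (5, 100), (7,
 95)]))) (.mul (.g 19) (.mul (.pp [(1, 1516200)]) (.sq [(1, -30), (2, 100), (3, -67), (5, 74), (7,
 84)]))))))) (.mul (.g 9) (.add (.mul (.g 7) (.mul (.g 9) (.add (.mul (.g 7) (.pp [(1, 43491)]))
 (.mul (.g 9) (.pp [(1, 169050)]))))) (.add (.mul (.g 12) (.mul (.g 12) (.mul (.g 12) (.pp [(1,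
 833250000)])))) (.mul (.g 14) (.mul (.g 14) (.pp [(1, 36619800000)]))))))) (.add (.mul (.g 6)
 (.add (.mul (.g 6) (.pp [(1, 2998204800)])) (.add (.mul (.g 8) (.pp [(1, 6919440000)])) (.mul (.g
 10) (.mul (.g 10) (.mul (.g 18) (.pp [(1, 4512960000)]))))))) (.mul (.g 11) (.add (.mul (.g 11)
 (.mul (.g 11) (.mul (.g 11) (.pp [(1, 117318000000)])))) (.add (.mul (.g 12) (.mul (.g 12) (.mul
 (.g 12) (.pp [(1, 13161000000)])))) (.mul (.g 17) (.pp [(1, 28122900000)])))))))) (.add (.add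
 (.mul (.g 17) (.add (.mul (.g 10) (.mul (.g 15) (.pp [(1, 41162100000)]))) (.mul (.g 12) (.mul
 (.pp [(1, 44190)]) (.sq [(1, 68), (2, 14), (5, 59), (7, 100)]))))) (.add (.mul (.g 0) (.pp [(1,
 2400000000)])) (.mul (.g 1) (.pp [(1, 600000000)])))) (.add (.add (.mul (.g 2) (.pp [(1,
 1000000000000)])) (.mul (.g 3) (.pp [(1, 1000000000000)]))) (.add (.mul (.g 7) (.mul (.g 19) (.mul
 (.pp [(1, 26772)]) (.sq [(1, -19), (2, -73), (3, -80), (5, 24), (7, 100)])))) (.mul (.g 20) (.pp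
 [(1, 1000000000000)])))))) (.pp [(1, 37591397160), (2, 30818331), (3, 27491085), (4, 30061416),
 (5, 30444873), (6, 30798870), (7, 27890199), (8, 30768080), (9, 29868975), (10, 34561128), (12,
 22077840), (14, 31535400), (15, 25979730), (16, 29526000), (18, 34127355), (20, 26661384), (21,
 32111250), (24, 31619100), (25, 30085092), (27, 29763775), (28, 28561440), (30, 32086320), (35,
 30624900), (36, 31041000), (40, 30381600), (42, 24386160), (45, 29983245), (49, 31778100), (50,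
 36108636), (54, 29609400), (56, 30626700), (60, 31385400), (63, 32446335), (70, 30157800), (75,
 28852980), (81, 30036000), (84, 34369800), (90, 28498200), (98, 26166240), (100, 27453600), (105,
 24226200), (125, 27593986), (126, 27948900), (135, 30684000), (140, 29128800), (147, 28019280),
 (150, 31261200), (175, 29974500), (189, 29440800), (196, 31179300), (210, 29008200), (225,
 28983600), (245, 28313400), (250, 31483800), (294, 29958600), (315, 32154900), (343, 29804460),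
 (350, 31052400), (375, 29214600), (441, 31997400), (490, 30829800), (525, 29202900), (625,
 29755800), (686, 31037100), (735, 31157400), (875, 28320000), (1029, 29201400), (1225, 30167700),
 (1715, 29517600), (2401, 31375200)])))))))
 (.rule 0 (.rule 3 (.rule 7 (.rule 10 (.leaf 1200000000 (.add (.add (.add (.add (.mul (.pp [(1,
 378434400)]) (.sq [(1, -61), (2, -28), (3, -40), (5, 100), (7, 2)])) (.add (.mul (.g 5) (.add
 (.add (.add (.mul (.g 5) (.add (.add (.mul (.pp [(1, 20084400)]) (.sq [(1, -18), (2, -24), (3, 5),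
 (5, 21), (7, 100)])) (.add (.mul (.pp [(1, 194677200)]) (.sq [(1, 86), (2, 23), (3, 27), (5, 50),
 (7, -100)])) (.mul (.pp [(1, 42504000)]) (.sq [(1, 100), (2, -45), (3, 89)])))) (.add (.mul (.g
 11) (.add (.pp [(1, 3202740000000)]) (.mul (.g 11) (.pp [(1, 16656000000)])))) (.add (.mul (.g 7)
 (.pp [(1, 67013760000)])) (.mul (.g 12) (.mul (.g 12) (.pp [(1, 80220000000)]))))))) (.mul (.g 21)
 (.add (.add (.pp [(1, 352884000000)]) (.mul (.pp [(1, 57271200)]) (.sq [(1, 100), (2, -57), (3,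
 -87), (5, -4), (7, 51)]))) (.add (.mul (.g 6) (.mul (.g 6) (.pp [(1, 959481600)]))) (.add (.mul
 (.g 11) (.mul (.g 11) (.pp [(1, 3379968000000)]))) (.mul (.g 13) (.mul (.g 14) (.pp [(1,
 2550312000000)])))))))) (.add (.mul (.g 7) (.add (.mul (.g 7) (.add (.mul (.g 7) (.pp [(1,
 29498496)])) (.mul (.g 11) (.pp [(1, 138336000)])))) (.mul (.g 13) (.mul (.g 13) (.pp [(1,
 14652240000)]))))) (.mul (.g 19) (.add (.pp [(1, 181668000000)]) (.add (.mul (.pp [(1, 51906000)])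
 (.sq [(1, -31), (2, 87), (3, -83), (5, 100), (7, -40)])) (.mul (.g 6) (.mul (.g 13) (.pp [(1,
 18284640000)])))))))) (.add (.add (.mul (.g 4) (.add (.mul (.g 6) (.mul (.g 13) (.pp [(1,
 23242560000)]))) (.mul (.g 9) (.mul (.g 9) (.pp [(1, 2977530000)]))))) (.mul (.g 17) (.add (.mul
 (.pp [(1, 1343040)]) (.sq [(1, 4), (2, -84), (3, -5), (5, 100), (7, -41)])) (.mul (.pp [(1,
 2805420)]) (.sq [(1, 35), (2, -3), (3, -5), (5, -64), (7, 100)]))))) (.add (.mul (.g 11) (.mul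
 (.pp [(1, 120942000)]) (.sq [(1, 25), (2, 54), (3, 100), (5, -8), (7, -80)]))) (.mul (.g 15) (.mul
 (.pp [(1, 27960000)]) (.sq [(1, -17), (2, -40), (3, 24), (5, 15), (7, 100)]))))))) (.mul (.g 21)
 (.add (.add (.add (.mul (.pp [(1, 84126000)]) (.sq [(1, -37), (2, -45), (3, -62), (5, 93), (7,
 -100)])) (.mul (.g 13) (.add (.add (.mul (.pp [(1, 19258800)]) (.sq [(1, -68), (2, -100), (3, 63),
 (5, -57), (7, 92)])) (.add (.mul (.g 6) (.add (.mul (.g 12) (.pp [(1, 50622240000)])) (.mul (.g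
 13) (.pp [(1, 16824000000)])))) (.mul (.g 4) (.mul (.g 12) (.pp [(1, 146940000000)]))))) (.add
 (.add (.mul (.g 7) (.mul (.g 16) (.pp [(1, 49856160000)]))) (.mul (.g 9) (.mul (.g 18) (.pp [(1,
 189493200000)])))) (.add (.mul (.g 14) (.mul (.g 21) (.pp [(1, 676356000000)]))) (.mul (.g 19)
 (.pp [(1, 459024000000)]))))))) (.add (.mul (.g 4) (.mul (.g 6) (.mul (.g 6) (.pp [(1,
 560985600)])))) (.add (.mul (.g 7) (.mul (.pp [(1, 66024)]) (.sq [(1, 62), (2, -89), (3, 43), (5,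
 -46), (7, 100)]))) (.mul (.g 10) (.mul (.pp [(1, 51792000)]) (.sq [(1, -13), (2, 99), (3, 64), (5,
 -40), (7, 100)])))))) (.add (.add (.mul (.g 11) (.mul (.pp [(1, 2781600)]) (.sq [(1, -21), (2,
 74), (3, 69), (5, -18), (7, 100)]))) (.mul (.g 15) (.mul (.pp [(1, 510993600)]) (.sq [(1, -50),
 (2, 41), (3, 21), (5, 39), (7, 25)])))) (.add (.mul (.g 16) (.mul (.pp [(1, 8828400)]) (.sq [(1,
 -7), (2, 26), (3, 100), (5, -64), (7, 99)]))) (.add (.mul (.g 19) (.mul (.pp [(1, 319200)]) (.sq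
 [(1, -29), (2, -41), (3, -82), (5, 100), (7, -78)]))) (.mul (.g 21) (.mul (.pp [(1, 16288800)])
 (.sq [(1, 36), (2, 21), (3, -80), (5, -5), (7, 100)])))))))))) (.add (.add (.mul (.g 7) (.add
 (.add (.mul (.pp [(1, 550896)]) (.sq [(1, -27), (2, 100), (3, 100), (5, -78), (7, 31)])) (.add
 (.mul (.g 7) (.add (.mul (.g 13) (.add (.mul (.g 8) (.pp [(1, 171567360)])) (.add (.mul (.g 13)
 (.pp [(1, 1012243200)])) (.mul (.g 14) (.pp [(1, 107044800)]))))) (.mul (.g 19) (.add (.mul (.g 7)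
 (.pp [(1, 19467840)])) (.mul (.g 9) (.pp [(1, 34475040)])))))) (.mul (.g 6) (.add (.mul (.g 4)
 (.mul (.g 4) (.pp [(1, 1537641600)]))) (.add (.mul (.g 6) (.mul (.g 19) (.pp [(1, 49838976)])))
 (.mul (.g 13) (.mul (.g 13) (.pp [(1, 516124800)])))))))) (.add (.mul (.g 4) (.mul (.g 4) (.mul
 (.g 4) (.pp [(1, 6968640000)])))) (.add (.mul (.g 9) (.mul (.g 13) (.mul (.g 19) (.pp [(1,
 2212368000)])))) (.mul (.g 16) (.mul (.pp [(1, 905856)]) (.sq [(1, -19), (2, 40), (3, 100), (5,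
 -60), (7, 26)]))))))) (.mul (.g 15) (.add (.add (.mul (.g 9) (.mul (.pp [(1, 438960)]) (.sq [(1,
 -53), (2, -100), (3, -63), (5, 68), (7, 65)]))) (.mul (.g 12) (.mul (.pp [(1, 14132400)]) (.sq
 [(1, -90), (2, 10), (3, 17), (5, 100)])))) (.add (.mul (.g 15) (.mul (.pp [(1, 39512400)]) (.sq
 [(1, 8), (2, 100), (3, 85), (5, -35), (7, -40)]))) (.add (.mul (.g 16) (.mul (.pp [(1, 27051600)])
 (.sq [(1, -91), (2, -12), (3, 39), (5, 100), (7, 1)]))) (.mul (.g 19) (.mul (.pp [(1, 30801600)])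
 (.sq [(1, 29), (2, -25), (3, 84), (5, -81), (7, 100)])))))))) (.add (.mul (.g 19) (.add (.mul (.g
 10) (.add (.mul (.pp [(1, 47546400)]) (.sq [(1, -14), (2, 85), (3, 100), (5, -65), (7, 25)]))
 (.mul (.g 10) (.mul (.g 10) (.pp [(1, 8880000000)]))))) (.mul (.g 19) (.add (.mul (.g 8) (.mul (.g
 13) (.pp [(1, 16118400000)]))) (.mul (.g 19) (.mul (.g 19) (.pp [(1, 161220000000)]))))))) (.mul
 (.g 6) (.mul (.g 6) (.add (.mul (.g 13) (.add (.mul (.g 8) (.pp [(1, 382160640)])) (.mul (.g 18)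
 (.pp [(1, 1492531200)])))) (.mul (.g 4) (.pp [(1, 1069286400)])))))))) (.add (.add (.mul (.g 9)
 (.add (.mul (.pp [(1, 5298180)]) (.sq [(1, -25), (2, 87), (3, 100), (5, -73), (7, 34)])) (.add
 (.mul (.g 9) (.mul (.pp [(1, 156009)]) (.sq [(1, -19), (2, 100), (3, 77), (5, -22), (7, -70)])))
 (.mul (.g 14) (.mul (.pp [(1, 563460)]) (.sq [(1, -61), (2, 100), (3, 81), (5, -35), (7,
 49)])))))) (.add (.mul (.g 0) (.pp [(1, 9600000000)])) (.mul (.g 1) (.pp [(1, 2400000000)]))))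
 (.add (.add (.mul (.g 2) (.pp [(1, 4000000000000)])) (.mul (.g 3) (.pp [(1, 4000000000000)])))
 (.add (.mul (.g 10) (.mul (.pp [(1, 17086800)]) (.sq [(1, -24), (2, 87), (3, 100), (5, -74), (7,
 37)]))) (.mul (.g 20) (.pp [(1, 4000000000000)])))))) (.pp [(1, 524939559), (2, 111683568), (3,
 132946362), (4, 124798068), (5, 87880332), (6, 149400096), (7, 108905460), (8, 107946780), (9,
 97560915), (10, 120569904), (12, 132609492), (14, 112216824), (15, 115368036), (16, 122757600),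
 (18, 93694392), (20, 107512320), (21, 165911508), (24, 134176800), (25, 170256180), (27,
 139584028), (28, 137683992), (30, 111698136), (35, 110696544), (36, 104311200), (40, 130593600),
 (42, 108218472), (45, 119556048), (49, 145534032), (50, 122008860), (54, 134647200), (56,
 120276000), (60, 114444000), (63, 86473368), (70, 116292216), (75, 113176272), (81, 110596800),
 (84, 90476400), (90, 150375600), (98, 143383308), (100, 119307600), (105, 127673568), (125,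
 86715360), (126, 119457600), (135, 122317200), (140, 115891200), (147, 64877232), (150,
 112180800), (175, 117905472), (189, 120424800), (196, 103564800), (210, 146587200), (225,
 105022800), (245, 126039792), (250, 121512000), (294, 119442000), (315, 139658400), (343,
 111384000), (350, 115920000), (375, 131702400), (441, 124376400), (490, 132235200), (525,
 103899600), (625, 128012400), (686, 107362800), (735, 124273200), (875, 125380800), (1029,
 121050000), (1225, 120348000), (1715, 116641200), (2401, 118483200)]))))))))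
 (.rule 1 (.cut 575 [(2, -1), (5, 1)] (.add (.add (.mul (.g 4) (.pp [(1, 135)])) (.mul (.g 1) (.pp
 [(1, 575)]))) (.add (.mul (.g 2) (.pp [(1, 23)])) (.mul (.g 3) (.pp [(1, 2)])))) (.rule 3 (.rule 7
 (.rule 10 (.leaf 3000000000 (.add (.add (.add (.add (.add (.mul (.pp [(1, 223134000)]) (.sq [(1,
 -49), (2, 56), (3, -100), (5, 85), (7, 7)])) (.mul (.pp [(1, 687975000)]) (.sq [(1, -59), (2,
 -21), (3, -34), (5, 100), (7, -9)]))) (.add (.mul (.g 13) (.add (.add (.mul (.g 21) (.add (.add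
 (.mul (.g 13) (.add (.add (.pp [(1, 29970000000)]) (.mul (.g 10) (.pp [(1, 2125800000000)])))
 (.add (.mul (.g 11) (.pp [(1, 291600000000)])) (.add (.mul (.g 12) (.pp [(1, 206850000000)]))
 (.mul (.g 13) (.pp [(1, 37530000000)])))))) (.mul (.g 10) (.add (.pp [(1, 389820000000)]) (.add
 (.mul (.g 12) (.pp [(1, 911640000000)])) (.mul (.g 14) (.pp [(1, 8474010000000)])))))) (.add (.mul
 (.g 6) (.add (.mul (.g 11) (.pp [(1, 34892400000)])) (.mul (.g 12) (.pp [(1, 38048400000)]))))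
 (.add (.mul (.g 9) (.pp [(1, 286309500000)])) (.mul (.g 15) (.pp [(1, 1198980000000)])))))) (.add
 (.mul (.g 6) (.add (.mul (.g 6) (.add (.add (.pp [(1, 186624000)]) (.mul (.g 8) (.pp [(1,
 315600000)]))) (.add (.mul (.g 13) (.pp [(1, 393840000)])) (.add (.mul (.g 14) (.pp [(1,
 3107424000)])) (.mul (.g 19) (.pp [(1, 779712000)])))))) (.add (.mul (.g 5) (.add (.pp [(1,
 68110800000)]) (.mul (.g 11) (.pp [(1, 151322400000)])))) (.mul (.g 7) (.mul (.g 8) (.pp [(1,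
 853003200)])))))) (.mul (.g 5) (.add (.mul (.pp [(1, 65439000)]) (.sq [(1, -7), (2, -54), (3,
 100), (5, 69), (7, -63)])) (.add (.mul (.g 9) (.add (.mul (.g 7) (.pp [(1, 13386240000)])) (.add
 (.mul (.g 10) (.pp [(1, 313798500000)])) (.mul (.g 12) (.pp [(1, 5257500000)]))))) (.mul (.g 7)
 (.mul (.g 7) (.pp [(1, 4267188000)])))))))) (.add (.mul (.g 7) (.mul (.g 8) (.add (.mul (.g 7)
 (.pp [(1, 1000588800)])) (.mul (.g 9) (.pp [(1, 371028000)]))))) (.add (.mul (.g 13) (.mul (.pp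
 [(1, 16161000)]) (.sq [(1, 12), (2, 10), (3, 100), (5, 11), (7, -48)]))) (.mul (.g 14) (.mul (.pp
 [(1, 74115000)]) (.sq [(1, 20), (2, 15), (3, 100), (5, 12), (7, -59)]))))))) (.mul (.g 6) (.add
 (.mul (.g 6) (.add (.mul (.g 8) (.add (.add (.pp [(1, 411033600)]) (.mul (.g 5) (.pp [(1,
 597600000)]))) (.add (.mul (.g 8) (.pp [(1, 25119360)])) (.mul (.g 12) (.pp [(1, 106022400)])))))
 (.mul (.g 15) (.add (.pp [(1, 3383808000)]) (.add (.mul (.g 10) (.pp [(1, 1104480000)])) (.mul (.g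
 12) (.pp [(1, 977808000)]))))))) (.add (.mul (.g 5) (.mul (.g 5) (.add (.pp [(1, 130869600000)])
 (.add (.mul (.g 5) (.pp [(1, 60212400000)])) (.mul (.g 12) (.pp [(1, 75470400000)])))))) (.mul (.g
 10) (.mul (.g 10) (.mul (.g 15) (.pp [(1, 164280000000)]))))))))) (.add (.add (.mul (.g 9) (.add
 (.add (.add (.mul (.pp [(1, 23063850)]) (.sq [(1, 38), (2, 61), (3, 51), (5, -100), (7, 8)]))
 (.mul (.pp [(1, 24232200)]) (.sq [(1, -10), (2, 100), (3, -41), (5, -10), (7, 18)]))) (.add (.mul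
 (.g 9) (.add (.mul (.pp [(1, 756045)]) (.sq [(1, -9), (2, 100), (3, 54), (5, -54), (7, -12)]))
 (.mul (.g 15) (.add (.mul (.g 10) (.pp [(1, 19261575000)])) (.mul (.g 21) (.pp [(1,
 2136150000)])))))) (.mul (.g 5) (.mul (.g 5) (.add (.mul (.g 14) (.pp [(1, 149941500000)])) (.mul
 (.g 19) (.pp [(1, 89952000000)]))))))) (.add (.add (.mul (.g 7) (.mul (.pp [(1, 84282)]) (.sq [(1,
 -6), (2, 100), (3, 66), (5, -70), (7, -15)]))) (.mul (.g 12) (.mul (.pp [(1, 7596600)]) (.sq [(1,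
 -49), (2, 100), (3, -48), (5, 57), (7, -8)])))) (.add (.mul (.g 14) (.mul (.pp [(1, 25956750)])
 (.sq [(1, 9), (2, 100), (3, 38), (5, -73), (7, 17)]))) (.mul (.g 16) (.mul (.pp [(1, 16294500)])
 (.sq [(1, -43), (2, 100), (3, -38), (5, 33), (7, 10)]))))))) (.mul (.g 7) (.add (.mul (.pp [(1,
 3703020)]) (.sq [(1, -44), (2, -71), (3, -28), (5, 100), (7, -7)])) (.add (.mul (.g 5) (.mul (.g
 5) (.add (.pp [(1, 116922600000)]) (.mul (.g 14) (.pp [(1, 34767600000)]))))) (.mul (.g 7) (.mul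
 (.g 15) (.add (.mul (.g 7) (.pp [(1, 4944480)])) (.mul (.g 11) (.pp [(1, 244512000)])))))))))
 (.add (.mul (.g 21) (.add (.add (.mul (.pp [(1, 596694000)]) (.sq [(1, -40), (2, -97), (3, 100),
 (5, 36), (7, -6)])) (.mul (.pp [(1, 94140000)]) (.sq [(1, -59), (2, 40), (3, -93), (5, 100), (7,
 4)]))) (.add (.mul (.g 15) (.add (.mul (.pp [(1, 86220000)]) (.sq [(1, -100), (2, 97), (3, 82),
 (5, 82), (7, 51)])) (.mul (.g 14) (.mul (.g 15) (.pp [(1, 522840000000)]))))) (.mul (.g 12) (.mul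
 (.pp [(1, 160041000)]) (.sq [(1, -36), (2, -98), (3, 100), (5, 31), (7, 2)])))))) (.mul (.g 16)
 (.add (.mul (.pp [(1, 205599000)]) (.sq [(1, 61), (2, 100), (3, -52), (5, -90), (7, 4)])) (.add
 (.mul (.g 11) (.mul (.pp [(1, 43068000)]) (.sq [(1, -70), (2, 10), (3, -53), (5, 100), (7, 13)])))
 (.mul (.g 16) (.mul (.pp [(1, 61083000)]) (.sq [(1, -59), (2, 37), (3, -93), (5, 100), (7,
 5)]))))))))) (.add (.add (.add (.mul (.g 14) (.add (.mul (.pp [(1, 59628000)]) (.sq [(1, -59), (2,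
 44), (3, -99), (5, 100), (7, 7)])) (.mul (.g 14) (.mul (.pp [(1, 47322000)]) (.sq [(1, -48), (2,
 -76), (3, 100), (5, 45), (7, 10)]))))) (.mul (.g 0) (.pp [(1, 24000000000)]))) (.add (.mul (.g 1)
 (.pp [(1, 6000000000)])) (.mul (.g 2) (.pp [(1, 10000000000000)])))) (.add (.add (.mul (.g 4) (.pp
 [(1, 10000000000000)])) (.mul (.g 11) (.mul (.pp [(1, 196974000)]) (.sq [(1, -58), (2, -78), (3,
 6), (5, 100), (7, 1)])))) (.add (.mul (.g 19) (.mul (.pp [(1, 600000)]) (.sq [(1, 20), (2, 44),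
 (3, 100), (5, -67), (7, 6)]))) (.mul (.g 20) (.pp [(1, 10000000000000)])))))) (.pp [(1,
 2996067561), (2, 309796590), (3, 296041368), (4, 334348590), (5, 346213260), (6, 236760780), (7,
 312463500), (8, 294121000), (9, 318482646), (10, 265404300), (12, 290043000), (14, 294107460),
 (15, 306552600), (16, 315501000), (18, 292555680), (20, 265164000), (21, 271404120), (24,
 261240000), (25, 252279330), (27, 315951600), (28, 292473000), (30, 335014200), (35, 277257180),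
 (36, 385806000), (40, 290934000), (42, 315217800), (45, 322154400), (49, 276780180), (50,
 344780550), (54, 255000000), (56, 300909000), (60, 293154000), (63, 329436000), (70, 269664300),
 (75, 282849300), (81, 311841000), (84, 276174000), (90, 312378000), (98, 323892450), (100,
 303660000), (105, 320374800), (125, 312042900), (126, 344406000), (135, 283014000), (140,
 277938000), (147, 310051500), (150, 315624000), (175, 320548800), (189, 267534000), (196,
 309534000), (210, 352740000), (225, 265893000), (245, 339608400), (250, 294522000), (294,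
 264456000), (315, 272484000), (343, 308601000), (350, 313917000), (375, 309921000), (441,
 313533000), (490, 299904000), (525, 294675000), (625, 300000000), (686, 294486000), (735,
 310008000), (875, 293121000), (1029, 289989000), (1225, 278448000), (1715, 297960000), (2401,
 295056000)])))))))))
 (.split [(2, 1), (3, -1)]
 (.split [(2, 1), (5, -1)]
 (.rule 0 (.rule 2 (.rule 7 (.leaf 300000000 (.add (.add (.add (.add (.mul (.g 12) (.add (.add
 (.mul (.g 12) (.add (.add (.mul (.g 6) (.add (.pp [(1, 447420000)]) (.add (.mul (.g 9) (.pp [(1,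
 8209320000)])) (.mul (.g 10) (.pp [(1, 166680000)]))))) (.mul (.g 13) (.add (.mul (.g 4) (.pp [(1,
 497043000000)])) (.mul (.g 17) (.pp [(1, 39822000000)]))))) (.add (.mul (.g 15) (.pp [(1,
 133923000000)])) (.mul (.g 20) (.mul (.g 20) (.pp [(1, 5235000000)])))))) (.add (.mul (.g 4) (.add
 (.mul (.g 20) (.add (.pp [(1, 270801000000)]) (.mul (.g 13) (.pp [(1, 661305000000)])))) (.add
 (.mul (.g 5) (.mul (.g 9) (.pp [(1, 9998280000)]))) (.mul (.g 6) (.mul (.g 11) (.pp [(1,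
 2101560000)])))))) (.mul (.g 13) (.add (.mul (.pp [(1, 28880400)]) (.sq [(1, -13), (2, 26), (3,
 100), (5, -44), (7, -80)])) (.mul (.pp [(1, 17334600)]) (.sq [(1, 34), (2, -55), (3, 100), (5,
 -50), (7, 67)])))))) (.add (.add (.mul (.g 20) (.add (.pp [(1, 658917000000)]) (.mul (.pp [(1,
 22677600)]) (.sq [(1, 50), (2, 31), (3, 41), (5, 41), (7, 41)])))) (.mul (.g 3) (.pp [(1,
 1280967000000)]))) (.add (.mul (.g 16) (.pp [(1, 49021350000)])) (.mul (.g 18) (.mul (.pp [(1,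
 2625300)]) (.sq [(1, -45), (2, 2), (3, -52), (5, 100), (7, 55)]))))))) (.add (.mul (.g 11) (.add
 (.add (.add (.mul (.g 3) (.add (.add (.pp [(1, 107196000000)]) (.mul (.g 10) (.add (.mul (.g 10)
 (.pp [(1, 226563000000)])) (.mul (.g 17) (.pp [(1, 294042000000)]))))) (.add (.mul (.g 11) (.add
 (.mul (.g 11) (.pp [(1, 3795000000)])) (.mul (.g 17) (.pp [(1, 300306000000)])))) (.mul (.g 3)
 (.pp [(1, 583050000000)]))))) (.mul (.g 4) (.add (.mul (.pp [(1, 37740000)]) (.sq [(1, 13), (2,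
 46), (3, 100), (5, -17), (7, -36)])) (.mul (.g 8) (.mul (.g 11) (.pp [(1, 11491650000)]))))))
 (.add (.mul (.g 6) (.mul (.g 6) (.add (.mul (.g 6) (.pp [(1, 19159344)])) (.mul (.g 20) (.pp [(1,
 10863600)]))))) (.mul (.g 7) (.add (.mul (.g 7) (.mul (.g 7) (.pp [(1, 2958744000)]))) (.mul (.g
 11) (.mul (.g 11) (.pp [(1, 54429000000)]))))))) (.add (.add (.mul (.g 5) (.pp [(1, 5263440000)]))
 (.mul (.g 8) (.mul (.g 8) (.mul (.g 20) (.pp [(1, 226237500)]))))) (.add (.mul (.g 16) (.mul (.pp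
 [(1, 1064085)]) (.sq [(1, -16), (2, 29), (3, -67), (5, 69), (7, 100)]))) (.mul (.g 18) (.mul (.pp
 [(1, 7232100)]) (.sq [(1, -29), (2, -40), (3, -71), (5, 100), (7, 90)]))))))) (.mul (.g 20) (.add
 (.add (.add (.mul (.g 8) (.mul (.g 8) (.add (.mul (.g 6) (.pp [(1, 16734750)])) (.mul (.g 8) (.pp
 [(1, 80761500)]))))) (.mul (.g 7) (.mul (.pp [(1, 2201640)]) (.sq [(1, 13), (2, -9), (3, -71), (5,
 100), (7, -12)])))) (.add (.mul (.g 9) (.mul (.pp [(1, 7896300)]) (.sq [(1, 35), (2, -4), (3,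
 100), (5, -84), (7, 34)]))) (.add (.mul (.g 10) (.mul (.g 10) (.mul (.g 10) (.pp [(1,
 38118000000)])))) (.mul (.g 13) (.mul (.pp [(1, 452400)]) (.sq [(1, -98), (2, 19), (3, 60), (5,
 84), (7, 100)])))))) (.add (.add (.mul (.g 14) (.mul (.pp [(1, 1502400)]) (.sq [(1, 5), (2, -4),
 (3, -27), (5, -58), (7, 100)]))) (.mul (.g 15) (.mul (.pp [(1, 6090000)]) (.sq [(1, 6), (2, -23),
 (3, 46), (5, 50), (7, 10)])))) (.add (.mul (.g 17) (.mul (.pp [(1, 186900)]) (.sq [(1, -100), (2,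
 53), (3, 31), (5, 97), (7, 97)]))) (.add (.mul (.g 18) (.mul (.pp [(1, 7611300)]) (.sq [(1, 20),
 (2, 100), (3, 96), (5, -69), (7, -23)]))) (.mul (.g 20) (.mul (.pp [(1, 9767100)]) (.sq [(1,
 -100), (2, 45), (3, 18), (5, 58), (7, 58)])))))))))) (.add (.mul (.g 3) (.add (.add (.mul (.g 6)
 (.add (.mul (.pp [(1, 759840)]) (.sq [(1, 5), (2, 12), (3, 100), (5, -63), (7, 3)])) (.mul (.g 6)
 (.mul (.g 6) (.pp [(1, 5549136)]))))) (.add (.mul (.g 15) (.add (.pp [(1, 141534000000)]) (.mul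
 (.pp [(1, 18072600)]) (.sq [(1, -100), (2, -67), (3, 33), (5, 67)])))) (.mul (.g 3) (.mul (.pp
 [(1, 17277000)]) (.sq [(1, 100), (2, -41), (3, 41), (5, 82)]))))) (.add (.mul (.g 10) (.pp [(1,
 718590000000)])) (.add (.mul (.g 13) (.pp [(1, 31035000000)])) (.mul (.g 16) (.mul (.pp [(1,
 564210)]) (.sq [(1, 11), (2, 49), (3, -68), (5, 72), (7, 100)]))))))) (.add (.mul (.g 4) (.add
 (.add (.mul (.g 4) (.add (.mul (.pp [(1, 12216900)]) (.sq [(1, 100), (2, -41), (3, 82), (5, 41)]))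
 (.add (.mul (.pp [(1, 42686400)]) (.sq [(1, 34), (2, 29), (3, 95), (5, -48), (7, -100)])) (.mul
 (.g 6) (.pp [(1, 4161420000)]))))) (.mul (.g 6) (.add (.mul (.pp [(1, 815694)]) (.sq [(1, 17), (2,
 -95), (3, -69), (5, -100), (7, 35)])) (.mul (.pp [(1, 65436)]) (.sq [(1, -15), (2, 54), (3, -67),
 (5, 70), (7, 100)]))))) (.add (.mul (.g 16) (.mul (.pp [(1, 5955)]) (.sq [(1, -8), (2, 40), (3,
 -47), (5, 100), (7, 89)]))) (.mul (.g 18) (.mul (.pp [(1, 8307300)]) (.sq [(1, -43), (2, 86), (3,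
 -32), (5, 100), (7, -57)])))))) (.mul (.g 5) (.add (.mul (.g 6) (.add (.pp [(1, 356589600)]) (.mul
 (.g 8) (.mul (.g 9) (.pp [(1, 39431040)]))))) (.add (.mul (.g 9) (.mul (.g 15) (.pp [(1,
 31977000000)]))) (.mul (.g 16) (.pp [(1, 1839306000)])))))))) (.add (.add (.mul (.g 16) (.add
 (.mul (.g 14) (.add (.mul (.pp [(1, 152925)]) (.sq [(1, 5), (2, 54), (3, 100), (5, -24), (7,
 -11)])) (.mul (.pp [(1, 37755)]) (.sq [(1, -9), (2, 77), (3, 9), (5, -5), (7, 100)])))) (.mul (.g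
 16) (.pp [(1, 2953267500)])))) (.add (.mul (.g 7) (.add (.mul (.g 8) (.mul (.g 15) (.pp [(1,
 10588830000)]))) (.mul (.g 13) (.mul (.pp [(1, 3388860)]) (.sq [(1, 28), (2, -35), (3, -63), (5,
 5), (7, 100)]))))) (.mul (.g 0) (.pp [(1, 600000000)])))) (.add (.add (.mul (.g 1) (.pp [(1,
 1000000000000)])) (.mul (.g 2) (.pp [(1, 1000000000000)]))) (.add (.mul (.g 6) (.mul (.g 17) (.mul
 (.pp [(1, 670572)]) (.sq [(1, 25), (2, -24), (3, -84), (5, 72), (7, 100)])))) (.mul (.g 19) (.pp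
 [(1, 1000000000000)])))))) (.pp [(1, 1173141870), (2, 29624070), (3, 29676138), (4, 28936209), (5,
 27598524), (6, 35110530), (7, 27724920), (8, 28635947), (9, 30941157), (10, 35091666), (12,
 36087897), (14, 33793590), (15, 27255306), (16, 28891200), (18, 23638050), (20, 29427450), (21,
 32339070), (23, 3000000000000), (24, 30812400), (25, 29468181), (27, 27761380), (28, 27007380),
 (30, 21902964), (35, 31013550), (36, 27083700), (40, 33852300), (42, 22638570), (45, 31114224),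
 (49, 32167005), (50, 31174155), (54, 29473200), (56, 27082200), (60, 23088300), (63, 31337010),
 (70, 33029700), (75, 32726529), (81, 31630800), (84, 34409100), (90, 35041800), (98, 21972210),
 (100, 28278600), (105, 29379600), (125, 29468410), (126, 25695600), (135, 35709000), (140,
 33766800), (147, 31104090), (150, 31442700), (175, 29992440), (189, 32262300), (196, 29366100),
 (210, 38384400), (225, 27831000), (245, 31297755), (250, 32712300), (294, 36253500), (315,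
 22363800), (343, 31439580), (350, 25318800), (375, 29424600), (441, 26437200), (490, 33463200),
 (525, 32302500), (625, 29046000), (686, 30899400), (735, 27081300), (875, 29135100), (1029,
 27660300), (1225, 28483500), (1715, 29197200), (2401, 29521200)]))))))
 (.rule 0 (.rule 3 (.rule 7 (.leaf 15000000000 (.add (.add (.add (.add (.mul (.pp [(1, 293865000)])
 (.sq [(1, -28), (2, 47), (3, 100), (5, -55), (7, 39)])) (.add (.mul (.g 12) (.add (.add (.mul (.g
 20) (.add (.add (.mul (.pp [(1, 441045000)]) (.sq [(1, 13), (2, -11), (3, 14), (5, 16), (7,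
 100)])) (.add (.mul (.g 20) (.add (.add (.mul (.g 3) (.pp [(1, 156000000000)])) (.mul (.g 5) (.pp
 [(1, 74490000000)]))) (.add (.mul (.g 12) (.pp [(1, 4408950000000)])) (.mul (.g 13) (.pp [(1,
 6229950000000)]))))) (.mul (.g 8) (.add (.pp [(1, 2024752500000)]) (.mul (.g 13) (.pp [(1,
 1568572500000)])))))) (.add (.mul (.g 9) (.add (.mul (.g 11) (.pp [(1, 7236600000000)])) (.mul (.g
 12) (.pp [(1, 5536050000000)])))) (.add (.mul (.g 6) (.mul (.g 6) (.pp [(1, 11528400000)]))) (.mul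
 (.g 12) (.mul (.g 14) (.pp [(1, 8851650000000)]))))))) (.add (.mul (.g 6) (.add (.add (.mul (.g 6)
 (.add (.mul (.g 10) (.pp [(1, 25370460000)])) (.mul (.g 17) (.pp [(1, 3743700000)])))) (.mul (.g
 3) (.mul (.g 11) (.pp [(1, 45060000000)])))) (.add (.mul (.g 8) (.mul (.g 12) (.pp [(1,
 21180450000)]))) (.mul (.g 16) (.mul (.g 18) (.pp [(1, 7660050000)])))))) (.mul (.g 4) (.add (.add
 (.mul (.pp [(1, 5610000)]) (.sq [(1, 54), (2, 8), (3, 100), (5, 7), (7, -30)])) (.mul (.g 3) (.mul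
 (.g 3) (.pp [(1, 7711800000000)])))) (.add (.mul (.g 5) (.mul (.g 5) (.pp [(1, 21256560000)])))
 (.mul (.g 11) (.mul (.g 16) (.pp [(1, 15855000000)])))))))) (.add (.add (.mul (.g 5) (.add (.mul
 (.pp [(1, 9339600)]) (.sq [(1, 8), (2, 100), (3, 31), (5, 68), (7, -48)])) (.add (.mul (.g 5)
 (.mul (.g 7) (.pp [(1, 2600448000)]))) (.mul (.g 8) (.mul (.g 10) (.pp [(1, 25952100000)]))))))
 (.mul (.g 3) (.mul (.pp [(1, 105000000)]) (.sq [(1, 26), (2, 29), (3, 100), (5, -79), (7, 8)]))))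
 (.add (.mul (.g 7) (.mul (.pp [(1, 212538000)]) (.sq [(1, 14), (2, 58), (3, 100), (5, 25), (7,
 -79)]))) (.mul (.g 18) (.mul (.pp [(1, 106275000)]) (.sq [(1, 17), (2, 100), (3, 35), (5, 52), (7,
 -88)]))))))) (.mul (.g 5) (.add (.add (.add (.mul (.g 11) (.add (.add (.mul (.g 4) (.add (.mul (.g
 7) (.pp [(1, 309511200000)])) (.mul (.g 9) (.pp [(1, 1404828000000)])))) (.mul (.g 3) (.mul (.g 8)
 (.pp [(1, 273900000)])))) (.add (.mul (.g 5) (.mul (.g 5) (.pp [(1, 84489600)]))) (.mul (.g 6)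
 (.mul (.g 10) (.pp [(1, 12807840000)])))))) (.mul (.g 3) (.add (.mul (.g 4) (.mul (.g 9) (.pp [(1,
 934860000000)]))) (.add (.mul (.g 5) (.mul (.g 20) (.pp [(1, 18469680000)]))) (.mul (.g 6) (.mul
 (.g 8) (.pp [(1, 1892940000)]))))))) (.add (.mul (.g 5) (.add (.mul (.pp [(1, 1571664)]) (.sq [(1,
 48), (2, 100), (3, 72), (5, 29), (7, -3)])) (.mul (.g 5) (.mul (.g 8) (.pp [(1, 88269120)])))))
 (.add (.mul (.g 9) (.mul (.g 10) (.add (.mul (.g 9) (.pp [(1, 1591248000000)])) (.mul (.g 10) (.pp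
 [(1, 1260792000000)]))))) (.mul (.g 16) (.add (.pp [(1, 19898400000)]) (.mul (.pp [(1, 1568250)])
 (.sq [(1, 62), (2, 5), (3, 74), (5, 10), (7, -100)]))))))) (.add (.add (.mul (.g 4) (.pp [(1,
 957516000000)])) (.mul (.g 6) (.pp [(1, 33786720000)]))) (.add (.mul (.g 13) (.mul (.pp [(1,
 35114400)]) (.sq [(1, -2), (2, 33), (3, 11), (5, 50), (7, -50)]))) (.add (.mul (.g 14) (.mul (.pp
 [(1, 18992400)]) (.sq [(1, -80), (2, 100), (3, 80), (5, 73), (7, 74)]))) (.mul (.g 20) (.mul (.pp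
 [(1, 9248400)]) (.sq [(1, -21), (2, -92), (3, 12), (5, 100), (7, 66)])))))))))) (.add (.mul (.g 4)
 (.add (.add (.mul (.g 4) (.add (.add (.mul (.pp [(1, 443805000)]) (.sq [(1, 37), (2, 23), (3,
 100), (5, 59), (7, -78)])) (.mul (.g 6) (.pp [(1, 95574000000)]))) (.add (.mul (.g 10) (.pp [(1,
 61083750000000)])) (.mul (.g 11) (.mul (.g 11) (.pp [(1, 40879800000000)])))))) (.mul (.g 3) (.add
 (.mul (.pp [(1, 500115000)]) (.sq [(1, 4), (2, -100), (3, 59), (5, -81), (7, 77)])) (.mul (.g 3)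
 (.mul (.g 3) (.pp [(1, 5276550000000)])))))) (.add (.mul (.g 16) (.add (.mul (.pp [(1, 6753750)])
 (.sq [(1, 34), (2, 20), (3, -11), (5, -20), (7, 100)])) (.mul (.pp [(1, 4104750)]) (.sq [(1, -97),
 (2, -54), (3, 100)])))) (.add (.mul (.g 6) (.mul (.g 8) (.pp [(1, 32293800000)]))) (.mul (.g 7)
 (.mul (.g 20) (.pp [(1, 5689350000000)]))))))) (.add (.mul (.g 8) (.add (.add (.mul (.g 6) (.add
 (.mul (.g 8) (.add (.mul (.g 8) (.pp [(1, 113061375)])) (.mul (.g 20) (.pp [(1, 143490000)]))))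
 (.add (.mul (.g 6) (.mul (.g 9) (.pp [(1, 682869000)]))) (.mul (.g 14) (.pp [(1, 6746550000)])))))
 (.mul (.g 8) (.mul (.g 8) (.add (.mul (.g 13) (.pp [(1, 506925000)])) (.mul (.g 20) (.pp [(1,
 4965393750)])))))) (.add (.mul (.g 14) (.mul (.pp [(1, 74939250)]) (.sq [(1, 31), (2, 100), (3,
 40), (5, -67), (7, -51)]))) (.mul (.g 20) (.mul (.pp [(1, 169833000)]) (.sq [(1, -27), (2, 50),
 (3, 31), (5, -12)])))))) (.mul (.g 6) (.add (.mul (.g 6) (.mul (.g 6) (.add (.mul (.g 10) (.pp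
 [(1, 66757200)])) (.mul (.g 20) (.pp [(1, 89350800)]))))) (.mul (.g 3) (.mul (.g 3) (.mul (.g 3)
 (.pp [(1, 188649000000)]))))))))) (.add (.add (.mul (.g 16) (.add (.mul (.g 18) (.mul (.pp [(1,
 28143000)]) (.sq [(1, 14), (2, 100), (3, -7), (5, -59), (7, 53)]))) (.mul (.g 20) (.mul (.pp [(1,
 26942250)]) (.sq [(1, -45), (2, 44), (3, -38), (5, -14), (7, 100)]))))) (.add (.mul (.g 0) (.pp
 [(1, 30000000000)])) (.mul (.g 1) (.pp [(1, 50000000000000)])))) (.add (.mul (.g 2) (.pp [(1,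
 50000000000000)])) (.add (.mul (.g 13) (.mul (.g 14) (.mul (.pp [(1, 717180000)]) (.sq [(1, -100),
 (2, 58), (3, 88), (5, 83), (7, 58)])))) (.mul (.g 19) (.pp [(1, 50000000000000)])))))) (.pp [(1,
 29889285201), (2, 1338063300), (3, 1629223998), (4, 1633469250), (5, 1636685586), (6, 1643068200),
 (7, 1482629748), (8, 1610101200), (9, 1500774936), (10, 1673894700), (12, 1382886000), (14,
 1690747500), (15, 1390226604), (16, 1489695000), (18, 1360848150), (20, 1450758750), (21,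
 1523739372), (23, 150000000000000), (24, 1534650000), (25, 1415908614), (27, 1615895450), (28,
 1466674200), (30, 1385649000), (35, 1324079904), (36, 1461645000), (40, 1489065000), (42,
 1477778400), (45, 1364991600), (49, 1608560586), (50, 1284430050), (54, 1464015000), (56,
 1437420000), (60, 1377735000), (63, 1528126200), (70, 1562979300), (75, 1329025350), (81,
 1536255000), (84, 1586655000), (90, 1548690000), (98, 1284506250), (100, 1402050000), (105,
 1468598700), (125, 1508488350), (126, 1671750000), (135, 1522050000), (140, 1385220000), (147,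
 1383066750), (150, 1785690000), (175, 1634253300), (189, 1458000000), (196, 1569195000), (210,
 1301670000), (225, 1539165000), (245, 1557087750), (250, 1649160000), (294, 1376850000), (315,
 1685895000), (343, 1440990000), (350, 1299330000), (375, 1517325000), (441, 1477200000), (490,
 1640850000), (525, 1549770000), (625, 1509780000), (686, 1572000000), (735, 1550835000), (875,
 1478760000), (1029, 1573290000), (1225, 1461570000), (1715, 1477800000), (2401, 1500000000)])))))))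
 (.split [(2, 1), (5, -1)]
 (.rule 1 (.rule 2 (.rule 7 (.leaf 300000000 (.add (.add (.add (.add (.add (.mul (.g 12) (.add
 (.add (.mul (.g 12) (.add (.add (.mul (.pp [(1, 3136200)]) (.sq [(1, 40), (2, -47), (3, -51), (5,
 -51), (7, 100)])) (.add (.mul (.g 12) (.add (.mul (.g 7) (.pp [(1, 94627200000)])) (.add (.mul (.g
 12) (.pp [(1, 13164000000)])) (.mul (.g 16) (.pp [(1, 34511250000)]))))) (.mul (.g 6) (.add (.mul
 (.g 11) (.pp [(1, 476700000)])) (.mul (.g 15) (.pp [(1, 15531120000)])))))) (.add (.mul (.g 20)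
 (.add (.mul (.g 7) (.pp [(1, 44955600000)])) (.mul (.g 16) (.pp [(1, 30416400000)])))) (.add (.mul
 (.g 3) (.mul (.g 8) (.pp [(1, 23115150000)]))) (.mul (.g 5) (.mul (.g 13) (.pp [(1,
 18152160000)]))))))) (.add (.mul (.g 20) (.add (.add (.pp [(1, 523293000000)]) (.mul (.pp [(1,
 10598700)]) (.sq [(1, 8), (2, -1), (3, 100), (5, 2), (7, -42)]))) (.add (.mul (.pp [(1,
 21576000)]) (.sq [(1, 50), (2, 31), (3, 41), (5, 41), (7, 41)])) (.add (.mul (.g 6) (.mul (.g 15)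
 (.pp [(1, 959700000)]))) (.mul (.g 10) (.mul (.g 10) (.pp [(1, 273216000000)]))))))) (.mul (.g 4)
 (.add (.mul (.pp [(1, 19525500)]) (.sq [(1, -8), (2, -20), (3, -18), (5, -17), (7, 100)])) (.add
 (.mul (.g 6) (.mul (.g 6) (.pp [(1, 133153200)]))) (.mul (.g 8) (.pp [(1, 31774800000)])))))))
 (.add (.add (.mul (.g 6) (.add (.mul (.g 7) (.mul (.g 9) (.pp [(1, 92832000)]))) (.mul (.g 11)
 (.mul (.g 11) (.pp [(1, 1708440000)]))))) (.mul (.g 3) (.pp [(1, 722007000000)]))) (.add (.mul (.g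
 8) (.pp [(1, 5349600000)])) (.mul (.g 16) (.pp [(1, 29451450000)])))))) (.mul (.g 20) (.add (.add
 (.mul (.g 4) (.add (.pp [(1, 354495000000)]) (.add (.mul (.g 4) (.mul (.g 6) (.pp [(1,
 989640000)]))) (.mul (.g 17) (.mul (.g 20) (.pp [(1, 63990000000)])))))) (.add (.mul (.g 8) (.mul
 (.g 8) (.add (.mul (.g 8) (.pp [(1, 130964250)])) (.mul (.g 11) (.pp [(1, 83512500)]))))) (.mul
 (.g 10) (.add (.mul (.g 3) (.mul (.g 3) (.pp [(1, 60519000000)]))) (.mul (.g 10) (.mul (.g 20)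
 (.pp [(1, 120891000000)]))))))) (.add (.mul (.g 13) (.add (.mul (.pp [(1, 12938400)]) (.sq [(1,
 -48), (2, 35), (3, 39), (5, 28), (7, 50)])) (.mul (.pp [(1, 3506400)]) (.sq [(1, 83), (2, -76),
 (3, -39), (5, 100), (7, -64)])))) (.add (.mul (.g 11) (.mul (.g 11) (.mul (.g 11) (.pp [(1,
 5727000000)])))) (.mul (.g 20) (.mul (.pp [(1, 4518600)]) (.sq [(1, -100), (2, 63), (3, 48), (5,
 48), (7, 48)])))))))) (.add (.mul (.g 5) (.add (.add (.mul (.g 8) (.add (.mul (.g 4) (.mul (.g 13)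
 (.pp [(1, 1023906000)]))) (.mul (.g 10) (.mul (.g 10) (.pp [(1, 3027936000)]))))) (.add (.mul (.g
 9) (.add (.mul (.g 6) (.mul (.g 7) (.pp [(1, 220200000)]))) (.mul (.g 16) (.pp [(1,
 2222880000)])))) (.mul (.g 3) (.pp [(1, 7081680000)])))) (.add (.mul (.g 5) (.mul (.g 10) (.mul
 (.g 11) (.pp [(1, 87336000)])))) (.add (.mul (.g 16) (.pp [(1, 464136000)])) (.mul (.g 18) (.mul
 (.pp [(1, 215088)]) (.sq [(1, -5), (2, -2), (3, -50), (5, -16), (7, 44)]))))))) (.mul (.g 3) (.add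
 (.add (.pp [(1, 120048000000)]) (.add (.mul (.g 3) (.mul (.g 11) (.pp [(1, 818949000000)]))) (.mul
 (.g 4) (.pp [(1, 303942000000)])))) (.add (.mul (.g 9) (.mul (.g 9) (.mul (.g 9) (.pp [(1,
 1301193000000)])))) (.add (.mul (.g 10) (.pp [(1, 1318017000000)])) (.mul (.g 15) (.mul (.pp [(1,
 2710500)]) (.sq [(1, 100), (2, 45), (5, -89)]))))))))) (.add (.add (.mul (.g 16) (.add (.add (.mul
 (.g 4) (.pp [(1, 84717150000)])) (.add (.mul (.g 9) (.mul (.g 9) (.mul (.g 9) (.pp [(1,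
 91368600000)])))) (.mul (.g 13) (.mul (.pp [(1, 175935)]) (.sq [(1, 20), (2, -64), (3, 15), (5,
 39), (7, 100)]))))) (.add (.mul (.g 14) (.mul (.pp [(1, 50055)]) (.sq [(1, -32), (2, -33), (3,
 100), (5, -66), (7, 97)]))) (.add (.mul (.g 15) (.mul (.pp [(1, 314700)]) (.sq [(1, 34), (2, -8),
 (3, 23), (5, 9), (7, 50)]))) (.mul (.g 17) (.mul (.pp [(1, 102210)]) (.sq [(1, 22), (2, 100), (3,
 -75), (5, 15), (7, 72)]))))))) (.mul (.g 11) (.add (.mul (.g 11) (.mul (.g 11) (.add (.add (.pp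
 [(1, 27771000000)]) (.mul (.g 7) (.pp [(1, 10531800000)]))) (.add (.mul (.g 11) (.pp [(1,
 17025000000)])) (.mul (.g 13) (.pp [(1, 38976000000)])))))) (.mul (.g 7) (.mul (.g 9) (.mul (.g 9)
 (.pp [(1, 94349400000)]))))))) (.add (.mul (.g 8) (.add (.mul (.g 8) (.mul (.g 8) (.add (.mul (.g
 8) (.pp [(1, 2965650)])) (.mul (.g 17) (.pp [(1, 105376875)]))))) (.add (.mul (.g 4) (.pp [(1,
 15061500000)])) (.mul (.g 7) (.pp [(1, 7036770000)]))))) (.mul (.g 6) (.mul (.g 6) (.add (.mul (.g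
 9) (.add (.mul (.g 6) (.pp [(1, 361104)])) (.mul (.g 14) (.pp [(1, 16856400)])))) (.mul (.g 10)
 (.pp [(1, 7621200)])))))))) (.add (.add (.add (.mul (.g 0) (.pp [(1, 600000000)])) (.mul (.g 1)
 (.pp [(1, 1000000000000)]))) (.add (.mul (.g 2) (.pp [(1, 1000000000000)])) (.mul (.g 4) (.mul (.g
 18) (.mul (.pp [(1, 1407300)]) (.sq [(1, 27), (2, -62), (3, 100), (5, -36), (7, -96)])))))) (.add
 (.add (.mul (.g 7) (.mul (.g 9) (.mul (.g 17) (.mul (.g 17) (.pp [(1, 55823400000)]))))) (.mul (.g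
 13) (.mul (.g 13) (.mul (.pp [(1, 21309600)]) (.sq [(1, -6), (2, -11), (3, -50), (5, -8), (7,
 49)]))))) (.add (.mul (.g 15) (.mul (.g 15) (.mul (.pp [(1, 5034000)]) (.sq [(1, 50), (2, -30),
 (3, -8), (5, 37), (7, -14)])))) (.mul (.g 19) (.pp [(1, 1000000000000)])))))) (.pp [(1,
 23286171915), (2, 27973272), (3, 32328735), (4, 26842551), (5, 33006540), (6, 36609660), (7,
 33007350), (8, 28461915), (9, 24710625), (10, 29968656), (12, 31310445), (14, 34367946), (15,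
 21842970), (16, 29487600), (18, 25334025), (20, 40351329), (21, 18969840), (23, 3000000000000),
 (24, 30718500), (25, 28978389), (27, 37436550), (28, 25002510), (30, 32182830), (35, 22250208),
 (36, 32149800), (40, 32208600), (42, 36975990), (45, 32215500), (49, 27942159), (50, 18489729),
 (54, 29064900), (56, 30400200), (60, 23667900), (63, 38611800), (70, 36716514), (75, 35731530),
 (81, 28068600), (84, 30645900), (90, 28529700), (98, 26978955), (100, 27037800), (105, 39040980),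
 (125, 32273356), (126, 27115800), (135, 28954200), (140, 26707200), (147, 37900485), (150,
 31282800), (175, 30499212), (189, 24740400), (196, 29622600), (210, 18627600), (225, 31594200),
 (245, 31586901), (250, 32839500), (294, 28285800), (315, 33799200), (343, 31644000), (350,
 32672100), (375, 29911500), (441, 23924100), (490, 29013000), (525, 29085300), (625, 27738900),
 (686, 32055600), (735, 27165000), (875, 30637200), (1029, 26617200), (1225, 30966900), (1715,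
 28461600), (2401, 28508400)]))))))
 (.rule 1 (.rule 3 (.rule 7 (.leaf 7500000000 (.add (.add (.add (.add (.mul (.pp [(1, 634792500)])
 (.sq [(1, 15), (2, 100), (3, -92), (5, -16), (7, 3)])) (.add (.mul (.g 12) (.add (.add (.mul (.g
 20) (.add (.add (.add (.mul (.g 9) (.add (.pp [(1, 18356625000000)]) (.add (.mul (.g 12) (.pp [(1,
 6358650000000)])) (.mul (.g 13) (.pp [(1, 17368200000000)]))))) (.mul (.g 7) (.add (.mul (.g 12)
 (.pp [(1, 283365000000)])) (.mul (.g 20) (.pp [(1, 168900000000)]))))) (.add (.mul (.g 14) (.add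
 (.pp [(1, 9525000000)]) (.mul (.g 13) (.pp [(1, 36675000000)])))) (.mul (.g 5) (.mul (.g 11) (.pp
 [(1, 987000000)]))))) (.add (.add (.mul (.g 6) (.mul (.g 10) (.pp [(1, 487500000)]))) (.mul (.g 8)
 (.pp [(1, 242868750000)]))) (.add (.mul (.g 12) (.mul (.g 12) (.pp [(1, 214425000000)]))) (.mul
 (.g 20) (.pp [(1, 50625000000)])))))) (.add (.mul (.g 4) (.add (.add (.mul (.g 8) (.add (.pp [(1,
 493781250000)]) (.add (.mul (.g 11) (.pp [(1, 138723750000)])) (.mul (.g 13) (.pp [(1,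
 15558750000)]))))) (.mul (.g 5) (.add (.mul (.g 10) (.pp [(1, 190488000000)])) (.mul (.g 17) (.pp
 [(1, 192321000000)]))))) (.add (.mul (.g 6) (.mul (.g 6) (.pp [(1, 347250000)]))) (.mul (.g 12)
 (.mul (.g 12) (.pp [(1, 144225000000)])))))) (.mul (.g 6) (.add (.mul (.g 8) (.add (.add (.mul (.g
 11) (.pp [(1, 6729750000)])) (.mul (.g 12) (.pp [(1, 5209950000)]))) (.add (.mul (.g 15) (.pp [(1,
 2691450000)])) (.mul (.g 18) (.pp [(1, 20534175000)]))))) (.mul (.g 3) (.mul (.g 9) (.pp [(1,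
 217515000000)]))))))) (.add (.add (.mul (.g 5) (.mul (.g 10) (.add (.mul (.g 15) (.pp [(1,
 9318000000)])) (.mul (.g 16) (.pp [(1, 12000000)]))))) (.mul (.g 3) (.mul (.pp [(1, 10530000)])
 (.sq [(1, 20), (2, 59), (3, 100), (5, 18), (7, -87)])))) (.add (.mul (.g 12) (.mul (.pp [(1,
 29580000)]) (.sq [(1, 15), (2, 94), (3, 100), (5, 16), (7, -85)]))) (.mul (.g 13) (.mul (.pp [(1,
 23325000)]) (.sq [(1, 16), (2, 59), (3, 100), (5, 18), (7, -81)]))))))) (.mul (.g 5) (.add (.add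
 (.add (.mul (.g 11) (.add (.add (.mul (.g 4) (.add (.pp [(1, 16458000000)]) (.add (.mul (.g 5)
 (.pp [(1, 123360000)])) (.mul (.g 10) (.pp [(1, 61728000000)]))))) (.mul (.g 5) (.add (.mul (.g 5)
 (.pp [(1, 1339200)])) (.mul (.g 20) (.pp [(1, 6600000)]))))) (.add (.mul (.g 6) (.add (.mul (.g
 11) (.pp [(1, 2191140000)])) (.mul (.g 18) (.pp [(1, 2061960000)])))) (.add (.mul (.g 8) (.add
 (.mul (.g 8) (.pp [(1, 64350000)])) (.mul (.g 20) (.pp [(1, 469200000)])))) (.mul (.g 10) (.mul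
 (.g 13) (.pp [(1, 9897000000)]))))))) (.mul (.g 10) (.add (.mul (.g 6) (.add (.pp [(1,
 6748200000)]) (.mul (.g 13) (.pp [(1, 4112640000)])))) (.add (.mul (.g 5) (.mul (.g 10) (.pp [(1,
 2186880000)]))) (.mul (.g 8) (.pp [(1, 69586350000)])))))) (.add (.mul (.g 5) (.mul (.g 5) (.mul
 (.g 5) (.pp [(1, 51648)])))) (.mul (.g 6) (.mul (.g 6) (.pp [(1, 223902000)]))))) (.add (.add
 (.mul (.g 8) (.pp [(1, 15994200000)])) (.mul (.g 9) (.mul (.g 9) (.mul (.g 9) (.pp [(1,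
 248733000000)]))))) (.add (.mul (.g 13) (.mul (.pp [(1, 880800)]) (.sq [(1, -50), (2, 35), (3,
 48), (5, 48), (7, 48)]))) (.add (.mul (.g 17) (.mul (.pp [(1, 1590000)]) (.sq [(1, -50), (2, 47),
 (3, 47), (5, 47), (7, 47)]))) (.mul (.g 20) (.pp [(1, 27177000000)]))))))))) (.add (.mul (.g 8)
 (.add (.add (.mul (.pp [(1, 38529750)]) (.sq [(1, -16), (2, 100), (3, 78), (5, -51), (7, 26)]))
 (.mul (.g 4) (.add (.mul (.g 4) (.add (.pp [(1, 1097921250000)]) (.mul (.g 11) (.pp [(1,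
 543345000000)])))) (.mul (.g 13) (.mul (.g 13) (.pp [(1, 9438750000)])))))) (.add (.mul (.g 8)
 (.mul (.g 8) (.add (.mul (.g 10) (.pp [(1, 3594046875)])) (.mul (.g 20) (.pp [(1,
 3322753125)]))))) (.add (.mul (.g 7) (.mul (.g 7) (.mul (.g 20) (.pp [(1, 10865850000)])))) (.mul
 (.g 15) (.mul (.pp [(1, 5400375)]) (.sq [(1, -30), (2, 100), (3, 69), (5, -28), (7, 25)])))))))
 (.add (.mul (.g 6) (.add (.mul (.g 4) (.add (.mul (.g 13) (.add (.pp [(1, 93594000000)]) (.mul (.g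
 20) (.pp [(1, 72228000000)])))) (.add (.mul (.g 7) (.mul (.g 10) (.pp [(1, 5226300000)]))) (.mul
 (.g 11) (.mul (.g 20) (.pp [(1, 1771500000)])))))) (.mul (.g 6) (.mul (.g 7) (.add (.mul (.g 6)
 (.pp [(1, 12887400)])) (.mul (.g 7) (.pp [(1, 149767200)]))))))) (.mul (.g 11) (.add (.mul (.pp
 [(1, 93705000)]) (.sq [(1, -23), (2, -63), (3, 100), (5, 1), (7, 11)])) (.mul (.g 13) (.mul (.pp
 [(1, 1642035000)]) (.sq [(1, -25), (2, -63), (3, 100), (5, 6), (7, 10)])))))))) (.add (.add (.mul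
 (.g 0) (.pp [(1, 15000000000)])) (.add (.mul (.g 1) (.pp [(1, 25000000000000)])) (.mul (.g 2) (.pp
 [(1, 25000000000000)])))) (.add (.add (.mul (.g 13) (.mul (.g 13) (.mul (.pp [(1, 263437500)])
 (.sq [(1, -18), (2, -37), (3, 100), (5, -8), (7, 6)])))) (.mul (.g 15) (.mul (.pp [(1,
 1066957500)]) (.sq [(1, 21), (2, 77), (3, -100), (5, -8), (7, -5)])))) (.add (.mul (.g 17) (.mul
 (.pp [(1, 257422500)]) (.sq [(1, -16), (2, -79), (3, 100), (5, 9), (7, -2)]))) (.mul (.g 19) (.pp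
 [(1, 25000000000000)])))))) (.pp [(1, 13169937417), (2, 711232500), (3, 674250750), (4,
 822015000), (5, 671584800), (6, 737596500), (7, 680584875), (8, 828302500), (9, 875192100), (10,
 964359000), (12, 743646000), (14, 858039000), (15, 892127700), (16, 704062500), (18, 823274025),
 (20, 556528500), (21, 909389700), (23, 75000000000000), (24, 741000000), (25, 831422850), (27,
 707205375), (28, 736971000), (30, 431827800), (35, 841871700), (36, 745207500), (40, 815415000),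
 (42, 583435050), (45, 649506375), (49, 830594100), (50, 567395400), (54, 726292500), (56,
 703005000), (60, 861570000), (63, 637083750), (70, 561193800), (75, 733717500), (81, 750000000),
 (84, 852375000), (90, 842692500), (98, 733107525), (100, 794220000), (105, 598158750), (125,
 740979000), (126, 799125000), (135, 767250000), (140, 818790000), (147, 720256875), (150,
 796440000), (175, 716925000), (189, 750000000), (196, 735727500), (210, 919965000), (225,
 784500000), (245, 742021875), (250, 801300000), (294, 679312500), (315, 784500000), (343,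
 738675000), (350, 789840000), (375, 692250000), (441, 750000000), (490, 768412500), (525,
 751500000), (625, 750000000), (686, 800295000), (735, 758250000), (875, 713280000), (1029,
 735000000), (1225, 732480000), (1715, 756030000), (2401, 709500000)])))))))))
 (.split [(1, -17), (5, 25)]
 (.rule 5 (.cut 450 [(2, -1), (5, 1)] (.add (.mul (.g 11) (.pp [(1, 310)])) (.add (.mul (.g 12)
 (.pp [(1, 7)])) (.mul (.g 2) (.pp [(1, 9)])))) (.rule 3 (.rule 10 (.leaf 1500000000 (.add (.add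
 (.add (.add (.mul (.g 19) (.add (.add (.add (.mul (.g 11) (.add (.add (.mul (.pp [(1, 90000)])
 (.sq [(1, 50), (2, 31), (3, 41), (5, 41), (7, 41)])) (.add (.mul (.g 8) (.add (.add (.pp [(1,
 3699735000000)]) (.mul (.g 6) (.pp [(1, 234192000000)]))) (.add (.mul (.g 12) (.pp [(1,
 3771900000000)])) (.mul (.g 13) (.pp [(1, 176625000000)]))))) (.mul (.g 4) (.pp [(1,
 8491800000)])))) (.add (.add (.mul (.g 5) (.mul (.g 16) (.pp [(1, 87900000)]))) (.mul (.g 7) (.mul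
 (.g 11) (.pp [(1, 75799500000)])))) (.add (.mul (.g 10) (.pp [(1, 29475000000)])) (.mul (.g 13)
 (.pp [(1, 92070000000)])))))) (.mul (.g 7) (.add (.add (.pp [(1, 19044000000)]) (.mul (.g 8) (.add
 (.mul (.g 7) (.pp [(1, 8978737500)])) (.add (.mul (.g 8) (.pp [(1, 92004750000)])) (.mul (.g 9)
 (.pp [(1, 181226250000)])))))) (.add (.mul (.g 17) (.add (.mul (.g 12) (.pp [(1, 5448750000)]))
 (.mul (.g 16) (.pp [(1, 37616250000)])))) (.mul (.g 9) (.mul (.g 9) (.pp [(1, 76799250000)])))))))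
 (.add (.mul (.g 5) (.add (.pp [(1, 4505700000)]) (.add (.mul (.g 8) (.add (.pp [(1, 64823700000)])
 (.mul (.g 10) (.pp [(1, 122955600000)])))) (.mul (.g 9) (.mul (.g 16) (.pp [(1, 80700000)]))))))
 (.mul (.g 4) (.add (.pp [(1, 6667200000)]) (.add (.mul (.pp [(1, 66420)]) (.sq [(1, -7), (2, 100),
 (3, 82), (5, -66), (7, 36)])) (.mul (.g 4) (.mul (.g 9) (.pp [(1, 895608000)])))))))) (.add (.add
 (.mul (.g 12) (.add (.mul (.pp [(1, 7036500)]) (.sq [(1, 38), (2, -20), (3, 57), (5, -66), (7,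
 100)])) (.mul (.pp [(1, 4497000)]) (.sq [(1, -41), (2, -100), (3, 81), (5, 61), (7, -25)]))))
 (.mul (.g 9) (.mul (.pp [(1, 45000)]) (.sq [(1, 70), (2, -97), (3, 43), (5, -38), (7, -100)]))))
 (.add (.mul (.g 15) (.mul (.pp [(1, 8025)]) (.sq [(1, -15), (2, -35), (3, 100), (5, -23), (7,
 93)]))) (.mul (.g 16) (.mul (.pp [(1, 17656500)]) (.sq [(1, -77), (2, -73), (3, -18), (5, 100),
 (7, -11)]))))))) (.add (.mul (.g 9) (.add (.add (.mul (.g 5) (.add (.add (.pp [(1, 692400000)])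
 (.add (.mul (.g 10) (.add (.mul (.g 6) (.pp [(1, 6943020000)])) (.add (.mul (.g 8) (.pp [(1,
 70620600000)])) (.mul (.g 14) (.pp [(1, 2618100000)]))))) (.mul (.g 9) (.add (.mul (.g 4) (.pp
 [(1, 1229460000)])) (.mul (.g 12) (.pp [(1, 19075500000)])))))) (.add (.mul (.g 11) (.add (.pp
 [(1, 909900000)]) (.mul (.g 17) (.pp [(1, 5542200000)])))) (.add (.mul (.g 6) (.mul (.g 8) (.pp
 [(1, 2119620000)]))) (.mul (.g 16) (.mul (.g 16) (.pp [(1, 3000000)]))))))) (.mul (.g 7) (.add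
 (.mul (.g 17) (.add (.mul (.g 9) (.pp [(1, 69930750000)])) (.mul (.g 11) (.pp [(1,
 219682500000)])))) (.add (.mul (.g 4) (.mul (.g 10) (.pp [(1, 1276860000)]))) (.mul (.g 7) (.mul
 (.g 7) (.pp [(1, 198800625)]))))))) (.add (.mul (.g 4) (.add (.mul (.g 4) (.mul (.g 10) (.pp [(1,
 1091640000)]))) (.mul (.g 12) (.mul (.g 15) (.pp [(1, 308310000)]))))) (.mul (.g 8) (.mul (.g 11)
 (.mul (.g 17) (.pp [(1, 771435000000)]))))))) (.mul (.g 7) (.add (.mul (.g 7) (.add (.mul (.g 7)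
 (.add (.mul (.g 8) (.pp [(1, 114028125)])) (.add (.mul (.g 12) (.pp [(1, 104810625)])) (.mul (.g
 17) (.pp [(1, 20613750)]))))) (.add (.mul (.g 5) (.mul (.g 12) (.pp [(1, 65616750)]))) (.mul (.g
 10) (.mul (.g 17) (.pp [(1, 1252912500)])))))) (.add (.mul (.g 5) (.add (.mul (.g 8) (.mul (.g 12)
 (.pp [(1, 2155755000)]))) (.add (.mul (.g 14) (.mul (.g 14) (.pp [(1, 68340000)]))) (.mul (.g 15)
 (.pp [(1, 576290250)]))))) (.mul (.g 14) (.mul (.pp [(1, 1276950)]) (.sq [(1, 7), (2, 100), (3,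
 -27), (5, -63), (7, 5)])))))))) (.add (.mul (.g 4) (.add (.add (.mul (.g 4) (.add (.pp [(1,
 9863208000)]) (.mul (.g 10) (.pp [(1, 160488000)])))) (.mul (.g 15) (.add (.mul (.pp [(1, 15285)])
 (.sq [(1, 39), (2, -78), (3, 100), (5, -49), (7, -30)])) (.mul (.pp [(1, 29829)]) (.sq [(1, -74),
 (2, -100), (3, -26), (5, 87), (7, 61)]))))) (.add (.mul (.g 11) (.mul (.pp [(1, 14760)]) (.sq [(1,
 29), (2, 51), (3, -1), (5, 94), (7, -100)]))) (.mul (.g 17) (.mul (.pp [(1, 635580)]) (.sq [(1,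
 5), (2, -78), (3, -2), (5, -49), (7, 100)])))))) (.add (.mul (.g 10) (.add (.mul (.g 12) (.mul
 (.pp [(1, 5791500)]) (.sq [(1, -54), (2, -96), (3, -39), (5, 100), (7, -2)]))) (.add (.mul (.g 13)
 (.mul (.pp [(1, 101091000)]) (.sq [(1, -75), (2, -10), (3, -28), (5, 100), (7, -10)]))) (.mul (.g
 14) (.mul (.pp [(1, 17352000)]) (.sq [(1, 38), (2, 100), (3, -1), (5, -89), (7, 13)])))))) (.mul
 (.g 17) (.mul (.g 17) (.add (.mul (.pp [(1, 76681500)]) (.sq [(1, -45), (2, -25), (3, -25), (5,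
 100), (7, -34)])) (.add (.mul (.pp [(1, 1341000)]) (.sq [(1, -83), (2, 100), (3, 100), (5, 100),
 (7, 100)])) (.mul (.g 8) (.mul (.g 8) (.pp [(1, 181485000000)])))))))))) (.add (.add (.mul (.g 0)
 (.pp [(1, 12000000000)])) (.add (.mul (.g 1) (.pp [(1, 5000000000000)])) (.mul (.g 3) (.pp [(1,
 5000000000000)])))) (.add (.add (.mul (.g 5) (.mul (.g 5) (.mul (.g 8) (.mul (.g 8) (.pp [(1,
 1456314000)]))))) (.mul (.g 12) (.mul (.pp [(1, 11161500)]) (.sq [(1, -77), (2, -60), (3, -42),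
 (5, 100), (7, 16)])))) (.add (.mul (.g 16) (.mul (.pp [(1, 54901500)]) (.sq [(1, -79), (2, -77),
 (3, -46), (5, 100), (7, 22)]))) (.mul (.g 18) (.pp [(1, 5000000000000)])))))) (.pp [(1,
 856786743), (2, 146225610), (3, 142075254), (4, 145148145), (5, 146596317), (6, 155659890), (7,
 141117561), (8, 152172900), (9, 161169888), (10, 141250530), (12, 169417975), (14, 132596940),
 (15, 159567198), (16, 150000000), (18, 144938590), (19, 15000000000000), (20, 160637760), (21,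
 171220614), (24, 153187500), (25, 163738557), (27, 139825050), (28, 143715795), (30, 137578770),
 (35, 154402002), (36, 135180000), (40, 155934000), (42, 193068330), (45, 128885490), (49,
 156131298), (50, 159656970), (54, 155491500), (56, 147787500), (60, 120847500), (63, 140989080),
 (70, 159433170), (75, 154001025), (81, 152499000), (84, 154464000), (90, 170749500), (98,
 168235440), (100, 145171500), (105, 122542050), (125, 136290780), (126, 135988500), (135,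
 154032000), (140, 147844500), (147, 144909285), (150, 153697500), (175, 140184645), (189,
 155115000), (196, 155820000), (210, 147417000), (225, 163185000), (245, 144720165), (250,
 146862000), (294, 143551500), (315, 154932000), (343, 151432035), (350, 144742500), (375,
 143641500), (441, 156924000), (490, 145777500), (525, 162310500), (625, 153004500), (686,
 154990500), (735, 161613000), (875, 153733500), (1029, 155598000), (1225, 153868500), (1715,
 152752500), (2401, 151290000)])))))))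
 (.rule 5 (.cut 450 [(2, -1), (5, 1)] (.add (.mul (.g 11) (.pp [(1, 310)])) (.add (.mul (.g 12)
 (.pp [(1, 7)])) (.mul (.g 2) (.pp [(1, 9)])))) (.rule 3 (.leaf 1500000000 (.add (.add (.add (.add
 (.mul (.g 18) (.add (.add (.mul (.g 10) (.add (.add (.mul (.g 10) (.add (.add (.mul (.g 4) (.pp
 [(1, 3410700000)])) (.mul (.g 6) (.pp [(1, 82500000)]))) (.add (.mul (.g 7) (.pp [(1,
 1555680000000)])) (.add (.mul (.g 9) (.pp [(1, 20970000000)])) (.mul (.g 10) (.pp [(1,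
 27915000000)])))))) (.mul (.g 7) (.add (.pp [(1, 3458430000000)]) (.add (.mul (.g 11) (.pp [(1,
 3062715000000)])) (.mul (.g 15) (.pp [(1, 1244595000000)])))))) (.add (.mul (.g 6) (.add (.pp [(1,
 7795500000)]) (.mul (.g 9) (.pp [(1, 1608750000)])))) (.add (.mul (.g 8) (.mul (.g 9) (.pp [(1,
 98355000000)]))) (.mul (.g 12) (.pp [(1, 76290000000)])))))) (.add (.mul (.g 3) (.add (.pp [(1,
 347400000)]) (.mul (.g 9) (.add (.pp [(1, 196800000)]) (.add (.mul (.g 11) (.pp [(1, 27000000)]))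
 (.mul (.g 13) (.pp [(1, 38400000)]))))))) (.mul (.g 7) (.add (.mul (.g 7) (.add (.mul (.g 7) (.pp
 [(1, 5412765000000)])) (.mul (.g 8) (.pp [(1, 837060000000)])))) (.add (.mul (.g 4) (.pp [(1,
 133308300000)])) (.mul (.g 13) (.pp [(1, 15030000000)]))))))) (.add (.mul (.g 18) (.add (.pp [(1,
 36330000000)]) (.mul (.pp [(1, 12049500)]) (.sq [(1, -29), (2, 100), (3, -79), (5, 18), (7,
 48)])))) (.add (.mul (.g 4) (.pp [(1, 2535300000)])) (.mul (.g 6) (.pp [(1, 43437000000)]))))))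
 (.mul (.g 3) (.add (.add (.mul (.g 8) (.add (.add (.pp [(1, 11181000000)]) (.mul (.g 7) (.add (.pp
 [(1, 139007400000)]) (.add (.mul (.g 7) (.pp [(1, 3480000000)])) (.mul (.g 15) (.pp [(1,
 55052400000)])))))) (.add (.mul (.g 8) (.add (.mul (.g 9) (.pp [(1, 54516000000)])) (.mul (.g 16)
 (.pp [(1, 19033200000)])))) (.add (.mul (.g 3) (.mul (.g 5) (.pp [(1, 71419200)]))) (.mul (.g 4)
 (.mul (.g 15) (.pp [(1, 757188000)]))))))) (.add (.mul (.g 3) (.add (.mul (.g 3) (.add (.mul (.g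
 7) (.pp [(1, 371520)])) (.mul (.g 9) (.pp [(1, 8640)])))) (.mul (.g 7) (.pp [(1, 14808000)]))))
 (.mul (.g 14) (.add (.pp [(1, 960000)]) (.add (.mul (.g 9) (.mul (.g 13) (.pp [(1, 3030000)])))
 (.mul (.g 10) (.mul (.g 10) (.pp [(1, 9420000)])))))))) (.add (.add (.mul (.g 6) (.add (.pp [(1,
 2766240000)]) (.mul (.pp [(1, 1821)]) (.sq [(1, 93), (2, 87), (3, 70), (5, 38), (7, -100)]))))
 (.mul (.g 4) (.mul (.g 10) (.mul (.g 10) (.pp [(1, 48312000)]))))) (.add (.mul (.g 7) (.mul (.g 7)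
 (.mul (.g 7) (.pp [(1, 46200000)])))) (.mul (.g 12) (.mul (.pp [(1, 1740)]) (.sq [(1, -76), (2,
 100), (3, 100), (5, 69), (7, 69)])))))))) (.add (.mul (.g 6) (.add (.add (.mul (.g 4) (.add (.mul
 (.g 7) (.pp [(1, 486105000)])) (.add (.mul (.g 13) (.pp [(1, 1750425000)])) (.mul (.g 14) (.pp
 [(1, 284127000)]))))) (.mul (.g 6) (.add (.pp [(1, 335250000)]) (.add (.mul (.g 9) (.mul (.g 9)
 (.pp [(1, 47400000)]))) (.mul (.g 10) (.mul (.g 10) (.pp [(1, 995850000)]))))))) (.add (.mul (.g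
 8) (.add (.mul (.pp [(1, 657975)]) (.sq [(1, -3), (2, 94), (3, 100), (5, 16), (7, -56)])) (.add
 (.mul (.g 10) (.mul (.g 11) (.pp [(1, 97186500000)]))) (.mul (.g 12) (.pp [(1, 31026000000)])))))
 (.add (.mul (.g 7) (.mul (.g 7) (.mul (.g 11) (.pp [(1, 28268250000)])))) (.mul (.g 9) (.mul (.g
 10) (.mul (.g 16) (.pp [(1, 947250000)])))))))) (.add (.mul (.g 8) (.add (.add (.mul (.g 8) (.add
 (.mul (.g 9) (.add (.mul (.g 10) (.pp [(1, 211920000000)])) (.mul (.g 14) (.pp [(1,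
 5768250000)])))) (.add (.mul (.g 8) (.mul (.g 8) (.pp [(1, 50370000000)]))) (.mul (.g 10) (.pp
 [(1, 73935000000)]))))) (.mul (.g 4) (.add (.mul (.pp [(1, 1142040)]) (.sq [(1, 43), (2, 50), (3,
 47), (5, 47), (7, 47)])) (.mul (.g 9) (.mul (.g 12) (.pp [(1, 22354500000)])))))) (.add (.mul (.g
 7) (.mul (.g 7) (.mul (.g 7) (.pp [(1, 5030430000000)])))) (.mul (.g 10) (.mul (.g 12) (.mul (.g
 15) (.pp [(1, 195525000000)]))))))) (.mul (.g 7) (.add (.mul (.g 14) (.add (.mul (.pp [(1,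
 42075)]) (.sq [(1, -49), (2, -48), (3, -11), (5, 100), (7, 20)])) (.mul (.g 4) (.pp [(1,
 2093010000)])))) (.mul (.g 7) (.mul (.g 7) (.mul (.g 7) (.pp [(1, 385485000000)]))))))))) (.add
 (.add (.mul (.g 10) (.add (.mul (.g 5) (.mul (.pp [(1, 4423200)]) (.sq [(1, -36), (2, -28), (3,
 -5), (5, -9), (7, 50)]))) (.mul (.g 15) (.mul (.pp [(1, 5163000)]) (.sq [(1, -63), (2, -78), (3,
 -23), (5, -34), (7, 100)]))))) (.add (.mul (.g 11) (.add (.mul (.g 4) (.mul (.pp [(1, 673740)])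
 (.sq [(2, 89), (3, 100), (5, 9), (7, -53)]))) (.mul (.g 14) (.mul (.pp [(1, 47100)]) (.sq [(1, 5),
 (2, -11), (3, 100), (5, 43), (7, -81)]))))) (.mul (.g 0) (.pp [(1, 5000000000000)])))) (.add (.mul
 (.g 2) (.pp [(1, 5000000000000)])) (.add (.mul (.g 12) (.mul (.g 12) (.mul (.pp [(1, 129000)])
 (.sq [(1, 16), (2, -21), (3, -57), (5, 100), (7, -59)])))) (.mul (.g 17) (.pp [(1,
 5000000000000)])))))) (.pp [(1, 2332646013), (2, 151568649), (3, 131758875), (4, 153336873), (5,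
 119363151), (6, 155610210), (7, 139746240), (8, 161244420), (9, 161994540), (10, 163350894), (12,
 153156700), (14, 148015560), (15, 200237340), (16, 147945000), (18, 136816675), (19,
 15000000000000), (20, 139916355), (21, 170956800), (23, 15000000000000), (24, 164073000), (25,
 185302308), (27, 127257480), (28, 146437680), (30, 112939500), (35, 175547520), (36, 155239500),
 (40, 125050500), (42, 172564200), (45, 123812460), (49, 158597400), (50, 137267640), (54,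
 144094500), (56, 151014000), (60, 139158000), (63, 128898960), (70, 125759520), (75, 122057460),
 (81, 148267500), (84, 138144000), (90, 152518500), (98, 150125340), (100, 170547000), (105,
 118094520), (125, 136515780), (126, 109830000), (135, 137772000), (140, 141420000), (147,
 140381460), (150, 174213000), (175, 134570160), (189, 149658000), (196, 157089000), (210,
 155310000), (225, 151059000), (245, 147659880), (250, 145123500), (294, 146085000), (315,
 154620000), (343, 143304000), (350, 182073000), (375, 153196500), (441, 150307500), (490,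
 140863500), (525, 153987000), (625, 152896500), (686, 154800000), (735, 152704500), (875,
 147993000), (1029, 159312000), (1225, 149809500), (1715, 148464000), (2401, 152952000)]))))))))))
 (P_Tp0 ++ xP_A_T2) = true := by decide +kernel

theorem t_A_T6_free : chk RFp gP_A_T6
 (.split [(2, 1), (3, -1)]
 (.split [(2, 1), (5, -1)]
 (.rule 0 (.rule 2 (.leaf 3000000 (.add (.add (.add (.add (.mul (.g 6) (.add (.add (.mul (.g 7)
 (.add (.add (.mul (.g 5) (.add (.add (.mul (.g 2) (.pp [(1, 115680000)])) (.mul (.g 3) (.pp [(1,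
 346590000)]))) (.add (.mul (.g 4) (.pp [(1, 192690000)])) (.mul (.g 13) (.pp [(1,
 1523400000)]))))) (.mul (.g 8) (.add (.add (.pp [(1, 1634220000)]) (.mul (.g 3) (.pp [(1,
 76620000)]))) (.add (.mul (.g 8) (.pp [(1, 76620000)])) (.mul (.g 10) (.pp [(1, 114960000)]))))))
 (.add (.mul (.g 10) (.add (.pp [(1, 118020000)]) (.mul (.g 6) (.pp [(1, 115560000)])))) (.mul (.g
 13) (.add (.mul (.g 2) (.pp [(1, 666900000)])) (.mul (.g 3) (.pp [(1, 3586560000)]))))))) (.mul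
 (.g 2) (.add (.add (.pp [(1, 128850000)]) (.add (.mul (.g 2) (.add (.pp [(1, 9649860000)]) (.add
 (.mul (.g 2) (.pp [(1, 300000)])) (.mul (.g 5) (.pp [(1, 114960000)]))))) (.mul (.g 3) (.mul (.g
 6) (.pp [(1, 600000)]))))) (.add (.mul (.g 4) (.pp [(1, 4043970000)])) (.add (.mul (.g 5) (.mul
 (.g 5) (.pp [(1, 616320000)]))) (.mul (.g 11) (.pp [(1, 11668500)]))))))) (.add (.mul (.g 13)
 (.add (.add (.mul (.pp [(1, 30)]) (.sq [(2, -19), (3, -31), (5, 60), (7, 100)])) (.mul (.g 4)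
 (.add (.pp [(1, 1109640000)]) (.mul (.g 4) (.pp [(1, 2199870000)]))))) (.add (.mul (.g 5) (.mul
 (.g 13) (.pp [(1, 346320000)]))) (.mul (.g 6) (.mul (.g 6) (.pp [(1, 115740000)])))))) (.add (.mul
 (.g 4) (.add (.mul (.g 3) (.pp [(1, 1035960000)])) (.mul (.g 4) (.mul (.g 8) (.pp [(1,
 600000)]))))) (.mul (.g 6) (.add (.mul (.g 5) (.mul (.g 5) (.pp [(1, 615900000)]))) (.mul (.g 6)
 (.mul (.g 8) (.pp [(1, 600000)]))))))))) (.mul (.g 13) (.add (.add (.mul (.pp [(1, 28896)]) (.sq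
 [(1, -63), (2, 99), (3, 100), (5, -1), (7, 73)])) (.mul (.pp [(1, 69405)]) (.sq [(1, 41), (2,
 -95), (3, 72), (5, -7), (7, -100)]))) (.add (.mul (.g 7) (.add (.add (.mul (.g 2) (.add (.pp [(1,
 99990000)]) (.add (.mul (.g 2) (.pp [(1, 666840000)])) (.mul (.g 3) (.pp [(1, 2409690000)])))))
 (.mul (.g 4) (.add (.pp [(1, 3518790000)]) (.mul (.g 7) (.pp [(1, 2641860000)]))))) (.add (.mul
 (.g 5) (.mul (.g 5) (.pp [(1, 300000)]))) (.mul (.g 7) (.mul (.g 7) (.pp [(1, 300000)])))))) (.add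
 (.mul (.g 4) (.add (.mul (.g 2) (.add (.pp [(1, 1692420000)]) (.mul (.g 4) (.pp [(1,
 1281630000)])))) (.mul (.g 3) (.pp [(1, 7912050000)])))) (.mul (.g 8) (.add (.mul (.pp [(1,
 233727)]) (.sq [(1, -69), (2, 67), (3, -49), (5, 12), (7, 100)])) (.add (.mul (.pp [(1, 23214)])
 (.sq [(1, -99), (2, 100), (3, -80), (5, 92), (7, -12)])) (.mul (.g 13) (.mul (.g 13) (.pp [(1,
 300960000)]))))))))))) (.add (.mul (.g 5) (.add (.add (.mul (.g 3) (.add (.add (.pp [(1,
 458640000)]) (.mul (.g 4) (.add (.mul (.g 5) (.pp [(1, 1905780000)])) (.mul (.g 7) (.pp [(1,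
 2339400000)]))))) (.add (.mul (.g 3) (.pp [(1, 11659140000)])) (.add (.mul (.g 5) (.mul (.g 5)
 (.pp [(1, 548190000)]))) (.mul (.g 7) (.mul (.g 8) (.pp [(1, 562770000)]))))))) (.mul (.g 2) (.add
 (.pp [(1, 500430000)]) (.add (.mul (.g 4) (.pp [(1, 5249070000)])) (.mul (.g 5) (.mul (.g 5) (.pp
 [(1, 346590000)]))))))) (.add (.mul (.g 7) (.mul (.g 8) (.add (.mul (.g 7) (.pp [(1, 765630000)]))
 (.mul (.g 8) (.pp [(1, 129450000)]))))) (.add (.mul (.g 4) (.mul (.g 11) (.pp [(1, 701038500)])))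
 (.mul (.g 5) (.mul (.g 5) (.mul (.g 5) (.pp [(1, 547890000)])))))))) (.mul (.g 4) (.add (.mul (.g
 2) (.add (.pp [(1, 505050000)]) (.mul (.g 10) (.pp [(1, 5959620000)])))) (.add (.mul (.g 3) (.add
 (.pp [(1, 791400000)]) (.mul (.g 10) (.pp [(1, 3001410000)])))) (.mul (.g 4) (.mul (.g 4) (.mul
 (.g 8) (.pp [(1, 300000)]))))))))) (.add (.add (.mul (.g 8) (.add (.mul (.pp [(1, 86403)]) (.sq
 [(1, -45), (2, 47), (3, 47), (7, 100)])) (.add (.mul (.g 7) (.add (.mul (.g 2) (.pp [(1,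
 3059910000)])) (.mul (.g 3) (.pp [(1, 1935420000)])))) (.mul (.g 10) (.pp [(1, 845820000)])))))
 (.mul (.g 0) (.pp [(1, 10000000000)]))) (.add (.mul (.g 1) (.pp [(1, 10000000000)])) (.add (.mul
 (.g 7) (.mul (.g 7) (.mul (.g 10) (.pp [(1, 502050000)])))) (.mul (.g 12) (.pp [(1,
 10000000000)])))))) (.pp [(1, 31421235), (2, 316122), (3, 348126), (4, 303717), (5, 295710), (6,
 241815), (7, 342234), (8, 304730), (9, 241380), (10, 307506), (12, 310338), (14, 247323), (15,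
 306762), (16, 300000), (18, 335538), (20, 309786), (21, 192630), (24, 289497), (25, 296775), (27,
 323647), (28, 293766), (30, 287622), (35, 307818), (36, 295482), (40, 300000), (42, 419784), (45,
 298698), (49, 257856), (50, 258384), (54, 291873), (56, 289497), (60, 320214), (63, 349527), (70,
 318282), (75, 311325), (81, 300000), (84, 297282), (90, 288372), (98, 354936), (100, 300000),
 (105, 270000), (125, 322000), (126, 265593), (135, 298830), (140, 320214), (147, 345480), (150,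
 311616), (175, 289725), (189, 300000), (196, 301800), (210, 276084), (225, 308400), (245, 296472),
 (250, 300000), (294, 260904), (315, 322830), (343, 309600), (350, 311616), (375, 288000), (441,
 300000), (490, 287712), (525, 308400), (625, 300000), (686, 287184), (735, 324000), (875, 288000),
 (1029, 300000), (1225, 300000), (1715, 300000), (2401, 300000)])))))
 (.rule 0 (.rule 3 (.leaf 12000000 (.add (.add (.add (.add (.mul (.g 5) (.add (.add (.mul (.g 7)
 (.add (.add (.mul (.g 3) (.add (.mul (.g 3) (.pp [(1, 2213400000)])) (.add (.mul (.g 6) (.pp [(1,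
 72000000)])) (.mul (.g 13) (.pp [(1, 2188920000)]))))) (.mul (.g 5) (.add (.mul (.g 5) (.pp [(1,
 1062240000)])) (.add (.mul (.g 7) (.pp [(1, 3275280000)])) (.mul (.g 13) (.pp [(1,
 5534520000)])))))) (.add (.mul (.g 6) (.add (.mul (.g 8) (.pp [(1, 8375040000)])) (.mul (.g 11)
 (.pp [(1, 77670000)])))) (.add (.mul (.g 2) (.mul (.g 4) (.pp [(1, 114000000)]))) (.mul (.g 7)
 (.mul (.g 8) (.pp [(1, 3343560000)]))))))) (.add (.mul (.g 11) (.add (.add (.pp [(1, 781410000)])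
 (.mul (.g 6) (.add (.mul (.g 5) (.pp [(1, 157614000)])) (.mul (.g 13) (.pp [(1, 74280000)])))))
 (.add (.mul (.g 3) (.pp [(1, 148710000)])) (.mul (.g 4) (.pp [(1, 3699846000)]))))) (.mul (.g 2)
 (.add (.mul (.g 2) (.add (.pp [(1, 10612800000)]) (.mul (.g 2) (.pp [(1, 1212000000)])))) (.mul
 (.g 8) (.add (.mul (.g 8) (.pp [(1, 6282600000)])) (.mul (.g 13) (.pp [(1, 3074520000)]))))))))
 (.add (.mul (.g 3) (.mul (.g 3) (.add (.pp [(1, 39654360000)]) (.add (.mul (.g 6) (.pp [(1,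
 1667880000)])) (.mul (.g 8) (.pp [(1, 5346600000)])))))) (.add (.mul (.g 4) (.add (.mul (.g 4)
 (.add (.mul (.g 4) (.pp [(1, 11817240000)])) (.mul (.g 9) (.pp [(1, 11571720000)])))) (.mul (.g 5)
 (.mul (.g 5) (.pp [(1, 4234440000)]))))) (.mul (.g 5) (.mul (.g 5) (.add (.pp [(1, 5913720000)])
 (.mul (.g 9) (.pp [(1, 840000)]))))))))) (.mul (.g 13) (.add (.add (.add (.mul (.pp [(1, 468540)])
 (.sq [(1, -82), (2, 100), (3, -39), (5, 22), (7, 80)])) (.mul (.pp [(1, 493776)]) (.sq [(1, -36),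
 (2, 50), (3, -13), (5, 15), (7, 100)]))) (.add (.mul (.g 7) (.add (.add (.mul (.pp [(1, 144)])
 (.sq [(1, -44), (2, 27), (3, -19), (5, 100), (7, -90)])) (.mul (.g 4) (.add (.add (.pp [(1,
 6834360000)]) (.mul (.g 4) (.pp [(1, 11647680000)]))) (.add (.mul (.g 7) (.pp [(1, 6022200000)]))
 (.mul (.g 11) (.pp [(1, 135834000)])))))) (.add (.mul (.g 3) (.add (.pp [(1, 9363840000)]) (.mul
 (.g 7) (.pp [(1, 4320000)])))) (.mul (.g 11) (.add (.mul (.g 8) (.pp [(1, 11580000)])) (.mul (.g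
 10) (.pp [(1, 3582000)]))))))) (.mul (.g 8) (.add (.mul (.pp [(1, 321324)]) (.sq [(1, -41), (2,
 51), (3, -9), (5, 18), (7, 100)])) (.add (.mul (.pp [(1, 324612)]) (.sq [(1, -100), (2, 16), (3,
 62), (5, 93), (7, 93)])) (.mul (.g 2) (.mul (.g 13) (.pp [(1, 4087800000)])))))))) (.add (.add
 (.mul (.g 3) (.add (.mul (.g 3) (.pp [(1, 11824080000)])) (.mul (.g 4) (.pp [(1, 26285520000)]))))
 (.mul (.g 4) (.mul (.g 4) (.mul (.g 4) (.pp [(1, 5950320000)]))))) (.add (.mul (.g 6) (.mul (.g 6)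
 (.mul (.g 11) (.pp [(1, 60000)])))) (.mul (.g 10) (.mul (.pp [(1, 456)]) (.sq [(1, 98), (2, -100),
 (3, -29), (5, 1), (7, -92)])))))))) (.add (.mul (.g 4) (.add (.add (.mul (.pp [(1, 293304)]) (.sq
 [(1, -11), (2, 100), (3, 89), (5, -15), (7, -92)])) (.mul (.g 11) (.add (.add (.pp [(1,
 105396000)]) (.mul (.pp [(1, 807)]) (.sq [(1, 94), (2, 81), (3, 100), (5, 49), (7, 49)]))) (.add
 (.mul (.g 6) (.add (.pp [(1, 154620000)]) (.mul (.g 11) (.pp [(1, 949200)])))) (.mul (.g 7) (.mul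
 (.g 8) (.pp [(1, 130398000)]))))))) (.add (.mul (.g 2) (.mul (.g 3) (.add (.mul (.g 2) (.pp [(1,
 1089120000)])) (.mul (.g 6) (.pp [(1, 173160000)]))))) (.mul (.g 8) (.add (.mul (.pp [(1,
 324912)]) (.sq [(1, -50), (2, 100), (3, 66), (5, -13), (7, -13)])) (.mul (.g 6) (.mul (.g 7) (.pp
 [(1, 1644120000)])))))))) (.add (.mul (.g 6) (.add (.mul (.g 11) (.add (.add (.pp [(1, 19746000)])
 (.mul (.pp [(1, 210)]) (.sq [(1, 20), (2, 17), (3, 17), (5, 17), (7, 17)]))) (.add (.mul (.g 7)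
 (.mul (.g 7) (.pp [(1, 3510000)]))) (.mul (.g 10) (.pp [(1, 84042000)]))))) (.mul (.g 3) (.add
 (.mul (.g 2) (.mul (.g 2) (.pp [(1, 1210800000)]))) (.mul (.g 3) (.mul (.g 6) (.pp [(1,
 1667880000)]))))))) (.mul (.g 8) (.add (.add (.mul (.pp [(1, 345912)]) (.sq [(1, -39), (2, 100),
 (3, -28), (5, -17), (7, 92)])) (.mul (.g 2) (.add (.mul (.pp [(1, 147888)]) (.sq [(1, -53), (2,
 62), (3, 62), (5, -47), (7, 100)])) (.mul (.pp [(1, 364176)]) (.sq [(1, -95), (2, 48), (3, -35),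
 (5, 58), (7, 100)]))))) (.add (.mul (.g 3) (.mul (.g 7) (.pp [(1, 5981040000)]))) (.mul (.g 8)
 (.mul (.pp [(1, 68604)]) (.sq [(1, -51), (2, 97), (3, -16), (5, 10), (7, 100)]))))))))) (.add
 (.add (.mul (.g 2) (.add (.mul (.pp [(1, 45060)]) (.sq [(1, -91), (2, 71), (3, -35), (5, 54), (7,
 100)])) (.mul (.g 3) (.mul (.g 7) (.mul (.g 7) (.pp [(1, 70080000)])))))) (.mul (.g 0) (.pp [(1,
 40000000000)]))) (.add (.mul (.g 1) (.pp [(1, 40000000000)])) (.add (.mul (.g 3) (.mul (.g 3) (.pp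
 [(1, 2460600000)]))) (.mul (.g 12) (.pp [(1, 40000000000)])))))) (.pp [(1, 34766544), (2,
 1259772), (3, 1254852), (4, 1077672), (5, 1227516), (6, 1155012), (7, 1260828), (8, 1165473), (9,
 1094928), (10, 1032516), (12, 1385820), (14, 1156440), (15, 1183992), (16, 1067448), (18, 994608),
 (20, 1149708), (21, 1070760), (24, 1135776), (25, 1218516), (27, 1317856), (28, 1456326), (30,
 1285836), (35, 1078152), (36, 1325400), (40, 1320732), (42, 1146024), (45, 1337970), (49,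
 1221948), (50, 1303785), (54, 1145532), (56, 1146684), (60, 1038240), (63, 1327512), (70,
 1112598), (75, 1278696), (81, 1223496), (84, 1056816), (90, 1326312), (98, 1212693), (100,
 1071156), (105, 1320852), (125, 1181718), (126, 1284588), (135, 1210848), (140, 1221120), (147,
 1124964), (150, 1416096), (175, 1285584), (189, 1188696), (196, 1042452), (210, 1386048), (225,
 1215408), (245, 1197990), (250, 1258596), (294, 1270584), (315, 1106760), (343, 1199268), (350,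
 1228860), (375, 1241856), (441, 1197264), (490, 1245468), (525, 1145304), (625, 1213800), (686,
 1151388), (735, 1283496), (875, 1228056), (1029, 1198464), (1225, 1129896), (1715, 1267584),
 (2401, 1166400)]))))))
 (.rule 1 (.rule 6 (.leaf 300000000 (.add (.add (.add (.add (.mul (.g 3) (.add (.add (.add (.mul
 (.pp [(1, 33327000)]) (.sq [(2, 100), (3, -36), (5, 53), (7, -36)])) (.mul (.pp [(1, 17613600)])
 (.sq [(2, 67), (3, 100), (5, -72), (7, -11)]))) (.add (.mul (.g 6) (.add (.add (.mul (.g 12) (.add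
 (.add (.pp [(1, 63480000000)]) (.mul (.g 4) (.pp [(1, 468129000000)]))) (.add (.mul (.g 6) (.pp
 [(1, 365439000000)])) (.mul (.g 9) (.pp [(1, 277956000000)]))))) (.mul (.g 2) (.add (.pp [(1,
 53847000000)]) (.add (.mul (.g 4) (.pp [(1, 940476000000)])) (.mul (.g 6) (.pp [(1,
 538578000000)])))))) (.add (.mul (.g 7) (.mul (.g 10) (.pp [(1, 10946400000)]))) (.mul (.g 8)
 (.mul (.g 9) (.pp [(1, 38733000000)])))))) (.mul (.g 10) (.add (.pp [(1, 25782300000)]) (.add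
 (.mul (.g 4) (.add (.pp [(1, 38178900000)]) (.mul (.g 7) (.pp [(1, 1630200000)])))) (.mul (.g 5)
 (.add (.pp [(1, 62992350000)]) (.mul (.g 3) (.pp [(1, 6367350000)]))))))))) (.add (.add (.mul (.g
 2) (.add (.mul (.g 4) (.add (.mul (.g 3) (.pp [(1, 73431000000)])) (.mul (.g 4) (.pp [(1,
 27138000000)])))) (.mul (.g 2) (.pp [(1, 205662000000)])))) (.mul (.g 7) (.add (.mul (.pp [(1,
 2643300)]) (.sq [(1, -50), (2, 100), (3, -13), (5, 66), (7, -13)])) (.mul (.pp [(1, 4314300)])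
 (.sq [(1, -13), (2, -40), (3, -57), (5, 100), (7, -60)]))))) (.add (.mul (.g 3) (.mul (.g 3) (.mul
 (.g 12) (.pp [(1, 82860000000)])))) (.mul (.g 5) (.mul (.g 5) (.mul (.g 5) (.pp [(1,
 126048000000)])))))))) (.add (.mul (.g 5) (.add (.add (.mul (.g 10) (.add (.add (.mul (.pp [(1,
 13680)]) (.sq [(1, 89), (2, 100), (3, 45), (5, 45), (7, 45)])) (.mul (.g 5) (.add (.add (.mul (.g
 4) (.pp [(1, 11882850000)])) (.mul (.g 5) (.pp [(1, 5504850000)]))) (.add (.mul (.g 6) (.pp [(1,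
 17250000)])) (.mul (.g 10) (.pp [(1, 279622500)])))))) (.add (.mul (.g 6) (.mul (.g 6) (.pp [(1,
 2801250000)]))) (.mul (.g 8) (.mul (.g 8) (.pp [(1, 1285350000)])))))) (.mul (.g 2) (.add (.add
 (.mul (.g 2) (.pp [(1, 197727000000)])) (.mul (.g 5) (.mul (.g 6) (.pp [(1, 93096000000)]))))
 (.add (.mul (.g 7) (.mul (.g 7) (.pp [(1, 39201000000)]))) (.mul (.g 9) (.mul (.g 12) (.pp [(1,
 85554000000)]))))))) (.add (.mul (.g 6) (.mul (.g 12) (.add (.pp [(1, 40539000000)]) (.add (.mul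
 (.g 6) (.pp [(1, 22950000000)])) (.mul (.g 12) (.pp [(1, 63126000000)])))))) (.mul (.g 4) (.add
 (.mul (.pp [(1, 9053400)]) (.sq [(2, -5), (3, -42), (5, -23), (7, 100)])) (.mul (.pp [(1,
 8886900)]) (.sq [(1, -26), (2, 38), (3, -39), (5, 100), (7, 9)]))))))) (.mul (.g 7) (.add (.add
 (.mul (.pp [(1, 25408200)]) (.sq [(1, -51), (2, 100), (3, -10), (5, 20), (7, 61)])) (.add (.mul
 (.g 12) (.add (.mul (.pp [(1, 2034600)]) (.sq [(1, -100), (2, 45), (3, 85), (5, 69), (7, 85)]))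
 (.add (.mul (.pp [(1, 31050300)]) (.sq [(1, -47), (2, 48), (3, 3), (5, 1), (7, 100)])) (.mul (.g
 2) (.add (.mul (.g 7) (.pp [(1, 13614000000)])) (.mul (.g 12) (.pp [(1, 116340000000)])))))))
 (.mul (.g 10) (.add (.mul (.pp [(1, 121845)]) (.sq [(1, -28), (2, 93), (3, 25), (5, -2), (7,
 100)])) (.mul (.pp [(1, 86790)]) (.sq [(1, -4), (2, -15), (3, -60), (5, 100), (7, 30)])))))) (.add
 (.add (.mul (.g 2) (.mul (.pp [(1, 8737200)]) (.sq [(1, -65), (2, 42), (3, 78), (5, -34), (7,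
 100)]))) (.mul (.g 4) (.mul (.pp [(1, 12692400)]) (.sq [(2, -13), (3, -41), (5, 1), (7, 50)]))))
 (.add (.mul (.g 7) (.mul (.pp [(1, 702900)]) (.sq [(1, -40), (2, 48), (3, 17), (5, -14), (7,
 100)]))) (.mul (.g 9) (.mul (.pp [(1, 28812000)]) (.sq [(1, -36), (2, 21), (3, 32), (5, -2), (7,
 50)]))))))))) (.add (.mul (.g 4) (.add (.add (.mul (.pp [(1, 2072100)]) (.sq [(1, -17), (2, 74),
 (3, 100), (5, -37), (7, -6)])) (.mul (.g 6) (.add (.mul (.pp [(1, 335700)]) (.sq [(1, 19), (2,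
 -100), (3, -61), (5, 63), (7, 63)])) (.mul (.g 10) (.add (.mul (.g 4) (.pp [(1, 6592350000)]))
 (.mul (.g 10) (.pp [(1, 39802500)]))))))) (.add (.mul (.g 2) (.add (.mul (.pp [(1, 568500)]) (.sq
 [(1, -13), (2, 30), (3, -51), (5, -17), (7, 100)])) (.mul (.g 8) (.mul (.g 12) (.pp [(1,
 46332000000)]))))) (.add (.mul (.g 4) (.mul (.pp [(1, 8946300)]) (.sq [(1, -24), (2, -28), (3,
 -23), (5, 100), (7, 93)]))) (.mul (.g 8) (.mul (.pp [(1, 1576500)]) (.sq [(1, -9), (2, 100), (3,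
 74), (5, -75), (7, -2)]))))))) (.add (.mul (.g 9) (.add (.add (.mul (.pp [(1, 4735200)]) (.sq [(1,
 -42), (2, 100), (3, -53), (5, 93), (7, 64)])) (.mul (.pp [(1, 12500400)]) (.sq [(1, -71), (2, 70),
 (3, 63), (5, 8), (7, 100)]))) (.add (.mul (.g 2) (.add (.mul (.pp [(1, 5524500)]) (.sq [(1, 72),
 (2, 9), (3, -100), (5, -35), (7, -30)])) (.mul (.g 2) (.mul (.g 12) (.pp [(1, 155568000000)])))))
 (.mul (.g 9) (.mul (.g 10) (.mul (.g 10) (.pp [(1, 60847500)]))))))) (.mul (.g 6) (.add (.mul (.g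
 10) (.add (.mul (.pp [(1, 339210)]) (.sq [(1, 10), (2, -41), (3, 100), (5, 37), (7, -82)])) (.mul
 (.g 2) (.mul (.g 6) (.pp [(1, 6856350000)]))))) (.mul (.g 12) (.mul (.g 12) (.mul (.g 12) (.pp
 [(1, 38964000000)]))))))))) (.add (.add (.mul (.g 8) (.add (.mul (.g 2) (.mul (.pp [(1,
 19311300)]) (.sq [(1, -43), (2, -4), (3, -42), (5, -1), (7, 100)]))) (.mul (.g 12) (.mul (.pp [(1,
 1015500)]) (.sq [(1, -94), (2, 100), (3, 73), (5, 100), (7, 73)]))))) (.add (.mul (.g 0) (.pp [(1,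
 1000000000000)])) (.mul (.g 1) (.pp [(1, 1000000000000)])))) (.add (.mul (.g 10) (.mul (.g 10)
 (.mul (.pp [(1, 5442)]) (.sq [(1, -65), (2, -16), (3, 100), (5, 8), (7, 16)])))) (.add (.mul (.g
 11) (.pp [(1, 1000000000000)])) (.mul (.g 12) (.mul (.g 12) (.mul (.g 12) (.mul (.g 12) (.pp [(1,
 38934000000)]))))))))) (.pp [(1, 1110936570), (2, 25819860), (3, 35481600), (4, 34957353), (5,
 30988200), (6, 34883850), (7, 31866660), (8, 24767175), (9, 18443775), (10, 31083432), (12,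
 34203270), (14, 35063724), (15, 27011100), (16, 30424200), (18, 25452225), (20, 29804480), (21,
 18552000), (24, 36962700), (25, 30034152), (27, 41923800), (28, 23795550), (30, 22050180), (35,
 26946288), (36, 21825300), (40, 32582400), (42, 28010160), (45, 35948400), (49, 27606588), (50,
 32663420), (54, 37377000), (56, 33175200), (60, 19659900), (63, 43537800), (70, 32340300), (75,
 30742680), (81, 25186500), (84, 31758000), (90, 39068100), (98, 27509520), (100, 29837400), (105,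
 34940520), (125, 27602880), (126, 28636800), (135, 22835400), (140, 25301400), (147, 37221120),
 (150, 34301700), (175, 32290410), (189, 24709200), (196, 32876100), (210, 34824600), (225,
 27210000), (245, 33195540), (250, 27952800), (294, 28119900), (315, 25730700), (343, 30952140),
 (350, 31019700), (375, 27972300), (441, 27958200), (490, 29880000), (525, 26994900), (625,
 30724800), (686, 30653700), (735, 29644800), (875, 28389000), (1029, 28968000), (1225, 28953600),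
 (1715, 29361300), (2401, 30000000)]))))))
 (P_free ++ xP_A_T6) = true := by decide +kernel

theorem t_G_F5a_c2 : chk ROp gP_G_F5a
 (.split [(1, -69), (3, 100)]
 (.split [(2, 1), (3, -1)]
 (.split [(2, 1), (5, -1)]
 (.rule 0 (.rule 2 (.cut 1 [(1, 3), (3, -2)] (.add (.add (.mul (.g 3) (.pp [(1, 2)])) (.mul (.g 9)
 (.pp [(1, 3)]))) (.add (.mul (.g 7) (.pp [(1, 1)])) (.mul (.g 2) (.pp [(1, 1)])))) (.rule 8 (.leaf
 300000000 (.add (.add (.add (.add (.mul (.g 11) (.add (.add (.add (.mul (.g 8) (.add (.pp [(1,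
 945000000)]) (.mul (.g 8) (.add (.mul (.g 8) (.pp [(1, 837228000000)])) (.add (.mul (.g 12) (.pp
 [(1, 876609000000)])) (.mul (.g 17) (.pp [(1, 508161000000)]))))))) (.mul (.g 6) (.add (.pp [(1,
 439440000)]) (.add (.mul (.pp [(1, 88377)]) (.sq [(1, -6), (2, -5), (3, 100), (5, -28)])) (.mul
 (.g 7) (.mul (.g 7) (.pp [(1, 7516980000)]))))))) (.add (.mul (.g 7) (.add (.pp [(1,
 411054000000)]) (.mul (.g 7) (.mul (.g 9) (.pp [(1, 126576000000)]))))) (.mul (.g 11) (.add (.mul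
 (.pp [(1, 6312000)]) (.sq [(1, -32), (2, 100), (3, -67), (5, 62)])) (.mul (.pp [(1, 89119200)])
 (.sq [(1, 20), (2, -39), (3, -11), (5, 50)])))))) (.add (.add (.mul (.g 4) (.pp [(1,
 377385000000)])) (.mul (.g 5) (.mul (.pp [(1, 19750200)]) (.sq [(1, 77), (2, -100), (3, 100), (5,
 63)])))) (.add (.mul (.g 9) (.mul (.g 9) (.mul (.g 17) (.pp [(1, 287397000000)])))) (.mul (.g 20)
 (.mul (.pp [(1, 5988600)]) (.sq [(1, 19), (2, 78), (3, 100), (5, -46)]))))))) (.mul (.g 14) (.add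
 (.add (.mul (.g 20) (.add (.mul (.pp [(1, 1137195)]) (.sq [(1, 53), (2, 100), (3, 20), (5, -56)]))
 (.add (.mul (.pp [(1, 3065655)]) (.sq [(1, 43), (2, 12), (3, 100), (5, -14)])) (.mul (.pp [(1,
 1255440)]) (.sq [(1, -22), (2, 100), (3, 29), (5, 56)]))))) (.add (.mul (.g 5) (.add (.mul (.g 13)
 (.pp [(1, 927000000)])) (.mul (.g 14) (.pp [(1, 909187500)])))) (.mul (.g 6) (.pp [(1,
 79251000)])))) (.add (.mul (.g 12) (.mul (.pp [(1, 62325)]) (.sq [(1, 37), (2, 31), (3, -10), (5,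
 100)]))) (.add (.mul (.g 17) (.mul (.pp [(1, 28650)]) (.sq [(1, 66), (2, 59), (3, -13), (5,
 100)]))) (.mul (.g 19) (.mul (.pp [(1, 5453940)]) (.sq [(1, -22), (2, -12), (3, 50), (5,
 29)])))))))) (.add (.mul (.g 6) (.add (.mul (.g 6) (.add (.mul (.g 5) (.mul (.g 15) (.pp [(1,
 85125300)]))) (.add (.mul (.g 6) (.mul (.g 7) (.pp [(1, 1508538)]))) (.mul (.g 8) (.mul (.g 17)
 (.pp [(1, 41133600)])))))) (.mul (.g 20) (.add (.mul (.g 8) (.add (.mul (.g 8) (.pp [(1,
 3630660000)])) (.mul (.g 9) (.pp [(1, 13161600000)])))) (.mul (.g 9) (.pp [(1, 2223030000)]))))))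
 (.mul (.g 5) (.mul (.g 5) (.add (.mul (.g 4) (.pp [(1, 261681000000)])) (.add (.mul (.g 5) (.pp
 [(1, 233985000000)])) (.mul (.g 12) (.mul (.g 20) (.pp [(1, 371088000000)]))))))))) (.add (.add
 (.mul (.g 13) (.add (.mul (.g 9) (.mul (.pp [(1, 23542200)]) (.sq [(1, -16), (2, -4), (3, 100),
 (5, -93)]))) (.mul (.g 19) (.mul (.pp [(1, 58651200)]) (.sq [(1, -14), (2, 50), (3, 3), (5,
 -43)]))))) (.mul (.g 0) (.pp [(1, 300000000)]))) (.add (.mul (.g 2) (.pp [(1, 1000000000000)]))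
 (.add (.mul (.g 3) (.pp [(1, 1000000000000)])) (.mul (.g 18) (.pp [(1, 1000000000)])))))) (.pp
 [(1, 4135116723), (2, 28687749), (3, 30929775), (4, 30242490), (5, 32781393), (6, 27082770), (8,
 32303500), (9, 29919210), (10, 29538702), (12, 26099685), (15, 33025800), (16, 29583300), (18,
 35843100), (20, 35919255), (24, 30905700), (25, 27898512), (27, 27993450), (30, 32944260), (36,
 29647500), (40, 26033400), (45, 23797140), (50, 25429128), (54, 31990200), (60, 31621200), (75,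
 28371060), (81, 29347800), (90, 23982000), (100, 28825500), (125, 30974340), (135, 32769000),
 (150, 31993800), (225, 32047200), (250, 29757000), (375, 30573000), (625, 31947000)])))))))
 (.rule 0 (.rule 3 (.cut 31 [(1, 3), (3, -2)] (.add (.mul (.g 3) (.pp [(1, 162)])) (.add (.mul (.g
 9) (.pp [(1, 162)])) (.mul (.g 4) (.pp [(1, 1)])))) (.rule 8 (.leaf 75000000 (.add (.add (.add
 (.add (.mul (.g 9) (.add (.add (.mul (.g 20) (.add (.add (.mul (.g 7) (.add (.add (.mul (.g 8)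
 (.pp [(1, 258112500000)])) (.mul (.g 11) (.pp [(1, 31903500000)]))) (.add (.mul (.g 16) (.pp [(1,
 2442450000)])) (.mul (.g 20) (.pp [(1, 194051250000)]))))) (.mul (.g 14) (.add (.mul (.g 9) (.pp
 [(1, 25243537500)])) (.mul (.g 20) (.pp [(1, 1768125000)]))))) (.add (.mul (.g 5) (.mul (.g 5)
 (.pp [(1, 540758250000)]))) (.mul (.g 13) (.mul (.g 20) (.pp [(1, 289980000000)])))))) (.mul (.g
 4) (.add (.mul (.g 7) (.add (.mul (.g 5) (.pp [(1, 373967250000)])) (.mul (.g 11) (.pp [(1,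
 30414000000)])))) (.mul (.g 9) (.add (.mul (.g 4) (.pp [(1, 186795750000)])) (.mul (.g 6) (.pp
 [(1, 586252500)]))))))) (.add (.mul (.g 5) (.add (.mul (.g 5) (.mul (.g 5) (.pp [(1,
 54360000000)]))) (.mul (.g 6) (.mul (.g 7) (.pp [(1, 2039325000)]))))) (.mul (.g 9) (.mul (.g 11)
 (.mul (.g 16) (.pp [(1, 47307750000)]))))))) (.mul (.g 5) (.add (.add (.mul (.g 8) (.add (.mul (.g
 17) (.add (.mul (.g 13) (.pp [(1, 9816000000)])) (.add (.mul (.g 14) (.pp [(1, 734325000)])) (.mul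
 (.g 16) (.pp [(1, 3423000000)]))))) (.mul (.g 4) (.pp [(1, 727220250000)])))) (.mul (.g 4) (.mul
 (.pp [(1, 750)]) (.sq [(1, -1), (2, 100), (3, -6), (5, 77)])))) (.add (.mul (.g 5) (.mul (.g 7)
 (.mul (.g 16) (.pp [(1, 14725500000)])))) (.mul (.g 15) (.pp [(1, 1093875000)])))))) (.add (.mul
 (.g 20) (.add (.add (.mul (.g 7) (.mul (.g 7) (.add (.mul (.g 4) (.pp [(1, 289190250000)])) (.mul
 (.g 20) (.pp [(1, 121662750000)]))))) (.mul (.g 6) (.pp [(1, 1492042500)]))) (.add (.mul (.g 11)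
 (.pp [(1, 77251500000)])) (.mul (.g 20) (.pp [(1, 2496750000)]))))) (.add (.mul (.g 4) (.add (.mul
 (.g 15) (.add (.pp [(1, 96213000000)]) (.mul (.g 13) (.pp [(1, 80545875000)])))) (.mul (.g 7)
 (.mul (.g 14) (.pp [(1, 13264650000)]))))) (.mul (.g 6) (.add (.mul (.g 11) (.add (.pp [(1,
 1119480000)]) (.mul (.pp [(1, 142059)]) (.sq [(2, 72), (3, -23), (5, 100)])))) (.mul (.g 6) (.pp
 [(1, 18283275)]))))))) (.add (.add (.mul (.g 0) (.pp [(1, 75000000)])) (.add (.mul (.g 2) (.pp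
 [(1, 250000000000)])) (.mul (.g 3) (.pp [(1, 250000000000)])))) (.add (.mul (.g 7) (.mul (.g 15)
 (.mul (.g 15) (.pp [(1, 85358812500)])))) (.add (.mul (.g 11) (.mul (.g 11) (.mul (.pp [(1,
 233629200)]) (.sq [(3, -18), (5, 25)])))) (.mul (.g 18) (.pp [(1, 250000000)])))))) (.pp [(1,
 2450130225), (2, 7380000), (3, 6945000), (4, 7586814), (5, 7192500), (6, 7090098), (8, 7163936),
 (9, 7884759), (10, 7696650), (12, 7857552), (15, 7629150), (16, 7500000), (18, 7495341), (20,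
 8762100), (24, 7485600), (25, 7297500), (27, 7503900), (30, 7538100), (36, 7625400), (40,
 7050000), (45, 7524000), (50, 6520500), (54, 7394100), (60, 7647000), (75, 8134500), (81,
 7500000), (90, 7626000), (100, 7896750), (125, 7835000), (135, 7527000), (150, 6296250), (225,
 7557000), (250, 7553250), (375, 7446750), (625, 7500000)]))))))))
 (.rule 1 (.cut 1 [(2, 1), (5, -1)] (.add (.mul (.g 11) (.pp [(1, 1)])) (.mul (.g 1) (.pp [(1,
 1)]))) (.rule 2 (.cut 1 [(1, 3), (3, -2)] (.add (.add (.mul (.g 10) (.pp [(1, 1)])) (.mul (.g 15)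
 (.pp [(1, 1)]))) (.add (.mul (.g 7) (.pp [(1, 1)])) (.mul (.g 9) (.pp [(1, 1)])))) (.rule 8 (.leaf
 3000000 (.add (.add (.add (.add (.mul (.g 9) (.add (.add (.mul (.g 8) (.add (.add (.mul (.g 5)
 (.add (.mul (.g 5) (.pp [(1, 10531230000)])) (.add (.mul (.g 9) (.pp [(1, 4892400000)])) (.mul (.g
 17) (.pp [(1, 4160850000)]))))) (.mul (.g 7) (.mul (.g 12) (.pp [(1, 1842420000)])))) (.add (.mul
 (.g 15) (.mul (.g 15) (.pp [(1, 1141125000)]))) (.mul (.g 20) (.mul (.g 20) (.pp [(1,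
 503250000)])))))) (.add (.mul (.g 7) (.add (.mul (.g 6) (.mul (.g 11) (.pp [(1, 144547800)])))
 (.add (.mul (.g 7) (.mul (.g 17) (.pp [(1, 7744200000)]))) (.mul (.g 15) (.mul (.g 20) (.pp [(1,
 605460000)])))))) (.mul (.g 13) (.mul (.g 13) (.add (.mul (.g 13) (.pp [(1, 290700000)])) (.mul
 (.g 17) (.pp [(1, 5201310000)]))))))) (.add (.mul (.g 15) (.add (.pp [(1, 3347700000)]) (.mul (.g
 15) (.pp [(1, 692257500)])))) (.add (.mul (.g 5) (.mul (.g 5) (.mul (.g 16) (.pp [(1,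
 1591914000)])))) (.mul (.g 11) (.mul (.g 14) (.pp [(1, 118255500)]))))))) (.mul (.g 5) (.add (.add
 (.mul (.g 8) (.add (.mul (.g 8) (.add (.mul (.g 6) (.pp [(1, 34555200)])) (.mul (.g 20) (.pp [(1,
 11352270000)])))) (.mul (.g 15) (.pp [(1, 21861480000)])))) (.mul (.g 7) (.add (.mul (.g 13) (.pp
 [(1, 10436880000)])) (.mul (.g 14) (.pp [(1, 221784000)]))))) (.add (.mul (.g 6) (.pp [(1,
 31098000)])) (.add (.mul (.g 13) (.mul (.g 15) (.pp [(1, 2975730000)]))) (.mul (.g 20) (.pp [(1,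
 972690000)]))))))) (.add (.mul (.g 8) (.add (.mul (.g 8) (.mul (.g 20) (.add (.mul (.g 14) (.pp
 [(1, 1051474500)])) (.mul (.g 17) (.pp [(1, 18511320000)]))))) (.add (.mul (.g 6) (.mul (.g 7)
 (.mul (.g 7) (.pp [(1, 11288400)])))) (.mul (.g 14) (.mul (.g 15) (.pp [(1, 43593750)])))))) (.add
 (.mul (.g 11) (.add (.mul (.g 11) (.mul (.pp [(1, 28248)]) (.sq [(1, -3), (2, 100), (3, 31), (5,
 78)]))) (.add (.mul (.g 12) (.mul (.pp [(1, 52833)]) (.sq [(2, 70), (3, 100), (5, 71)]))) (.mul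
 (.g 17) (.mul (.pp [(1, 5898)]) (.sq [(1, 5), (2, 100), (3, -8), (5, 93)])))))) (.mul (.g 13)
 (.add (.mul (.g 15) (.mul (.pp [(1, 2241)]) (.sq [(1, 100), (2, -73), (3, 64)]))) (.mul (.g 17)
 (.mul (.pp [(1, 215148)]) (.sq [(1, 28), (2, 28), (3, -91), (5, 100)])))))))) (.add (.add (.mul
 (.g 14) (.add (.mul (.g 7) (.mul (.g 7) (.mul (.g 20) (.pp [(1, 4011000)])))) (.mul (.g 15) (.pp
 [(1, 55167000)])))) (.add (.mul (.g 0) (.pp [(1, 3000000)])) (.mul (.g 2) (.pp [(1,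
 10000000000)])))) (.add (.mul (.g 4) (.pp [(1, 10000000000)])) (.add (.mul (.g 6) (.mul (.g 20)
 (.pp [(1, 8674800)]))) (.mul (.g 18) (.pp [(1, 10000000)])))))) (.pp [(1, 160159518), (2, 316746),
 (3, 286386), (4, 299532), (5, 294192), (6, 278850), (8, 327632), (9, 301350), (10, 258828), (12,
 318924), (15, 333126), (16, 286278), (18, 281436), (20, 341532), (24, 279993), (25, 307413), (27,
 311276), (30, 280584), (36, 308985), (40, 262653), (45, 299580), (50, 316086), (54, 300420), (60,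
 337974), (75, 268755), (81, 299724), (90, 318600), (100, 292590), (125, 283653), (135, 280260),
 (150, 277341), (225, 325536), (250, 308847), (375, 315000), (625, 300000)])))))))))
 (.split [(2, 1), (3, -1)]
 (.split [(2, 1), (5, -1)]
 (.rule 0 (.rule 2 (.cut 9 [(1, -7), (3, 50)] (.add (.mul (.g 6) (.pp [(1, 310)])) (.add (.mul (.g
 12) (.pp [(1, 7)])) (.mul (.g 2) (.pp [(1, 140)])))) (.rule 7 (.leaf 30000000000 (.add (.add (.add
 (.add (.mul (.g 11) (.add (.add (.mul (.g 8) (.add (.mul (.g 16) (.add (.mul (.g 9) (.pp [(1,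
 75555360000000)])) (.add (.mul (.g 12) (.pp [(1, 1341300000000)])) (.mul (.g 20) (.pp [(1,
 19743900000000)]))))) (.mul (.g 8) (.add (.mul (.g 12) (.pp [(1, 50264700000000)])) (.mul (.g 20)
 (.pp [(1, 60111300000000)])))))) (.add (.mul (.g 7) (.add (.mul (.g 11) (.add (.mul (.g 9) (.pp
 [(1, 22709400000000)])) (.mul (.g 20) (.pp [(1, 315600000000)])))) (.add (.mul (.g 5) (.mul (.g
 16) (.pp [(1, 15175500000000)]))) (.mul (.g 7) (.mul (.g 7) (.pp [(1, 3487800000000)])))))) (.mul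
 (.g 4) (.add (.pp [(1, 22474500000000)]) (.mul (.g 4) (.mul (.g 11) (.pp [(1,
 46526100000000)]))))))) (.add (.mul (.g 9) (.mul (.g 9) (.mul (.g 9) (.pp [(1, 6880200000000)]))))
 (.add (.mul (.g 12) (.mul (.pp [(1, 606990000)]) (.sq [(1, 90), (2, -100), (3, 98), (5, 9)])))
 (.mul (.g 15) (.mul (.pp [(1, 2161170000)]) (.sq [(1, 74), (2, -100), (3, 100), (5, 35)])))))))
 (.mul (.g 14) (.add (.add (.mul (.g 6) (.add (.pp [(1, 35639250000)]) (.add (.mul (.pp [(1,
 387825)]) (.sq [(1, 14), (2, 88), (3, 3), (5, 100)])) (.mul (.g 9) (.mul (.g 9) (.pp [(1,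
 17693100000)])))))) (.add (.mul (.g 14) (.add (.pp [(1, 97350000000)]) (.add (.mul (.pp [(1,
 46959600)]) (.sq [(1, -24), (2, -22), (3, 25), (5, 1)])) (.mul (.g 5) (.pp [(1,
 192952500000)]))))) (.mul (.g 4) (.add (.mul (.pp [(1, 133755000)]) (.sq [(1, -1), (2, 31), (3,
 100), (5, 54)])) (.mul (.g 4) (.mul (.g 9) (.pp [(1, 1274310000000)]))))))) (.add (.mul (.g 20)
 (.add (.mul (.pp [(1, 7530187500)]) (.sq [(1, 10), (2, 20), (3, 9), (5, -10)])) (.mul (.g 9) (.mul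
 (.g 20) (.pp [(1, 15660000000)]))))) (.add (.mul (.g 7) (.mul (.g 16) (.mul (.g 16) (.pp [(1,
 147480600000)])))) (.mul (.g 12) (.mul (.pp [(1, 68485500)]) (.sq [(1, -35), (2, 14), (3, 100),
 (5, 22)])))))))) (.add (.mul (.g 6) (.add (.mul (.g 6) (.add (.add (.pp [(1, 3767340000)]) (.mul
 (.pp [(1, 86739)]) (.sq [(1, -29), (2, 58), (3, 100), (5, 63)]))) (.add (.mul (.g 8) (.add (.mul
 (.g 6) (.pp [(1, 48057000)])) (.mul (.g 9) (.pp [(1, 9919920000)])))) (.mul (.g 5) (.mul (.g 15)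
 (.pp [(1, 5799450000)])))))) (.mul (.g 4) (.mul (.g 8) (.mul (.g 20) (.pp [(1,
 563163000000)])))))) (.mul (.g 4) (.add (.mul (.g 9) (.mul (.g 16) (.mul (.g 16) (.pp [(1,
 2652480000000)])))) (.mul (.g 20) (.mul (.g 20) (.mul (.g 20) (.pp [(1, 612900000000)]))))))))
 (.add (.add (.mul (.g 0) (.pp [(1, 60000000000)])) (.mul (.g 2) (.pp [(1, 100000000000000)])))
 (.add (.mul (.g 3) (.pp [(1, 100000000000000)])) (.add (.mul (.g 8) (.mul (.g 16) (.mul (.g 16)
 (.mul (.g 20) (.pp [(1, 5265648000000)]))))) (.mul (.g 18) (.pp [(1, 100000000000)])))))) (.pp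
 [(1, 34875264861), (2, 2419504656), (3, 3286597200), (4, 2749143444), (5, 3340283166), (6,
 4312988400), (8, 2996017000), (9, 2098807425), (10, 3668404668), (12, 3422650800), (15,
 2060674800), (16, 2855700000), (18, 2042728500), (20, 2759439000), (24, 3554100000), (25,
 2593912149), (27, 3541641000), (30, 2246481600), (36, 2367000000), (40, 3291720000), (45,
 3786396000), (50, 2891766000), (54, 3618390000), (60, 2222820000), (75, 3539323800), (81,
 2780850000), (90, 3831330000), (100, 2777550000), (125, 3209568000), (135, 2592600000), (150,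
 3745440000), (225, 2447640000), (250, 3395880000), (375, 2515200000), (625, 2822400000)])))))))
 (.rule 0 (.rule 3 (.cut 2 [(1, -7), (3, 50)] (.add (.mul (.g 6) (.pp [(1, 65)])) (.mul (.g 14)
 (.pp [(1, 7)]))) (.rule 7 (.leaf 30000000 (.add (.add (.add (.add (.mul (.g 20) (.add (.add (.mul
 (.g 9) (.add (.add (.mul (.g 7) (.add (.mul (.g 11) (.pp [(1, 44451300000)])) (.add (.mul (.g 16)
 (.pp [(1, 27139620000)])) (.mul (.g 20) (.pp [(1, 26020500000)]))))) (.mul (.g 9) (.add (.mul (.g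
 11) (.pp [(1, 47197500000)])) (.mul (.g 14) (.pp [(1, 1453725000)]))))) (.add (.mul (.g 5) (.mul
 (.g 5) (.pp [(1, 114774600000)]))) (.mul (.g 13) (.mul (.g 20) (.pp [(1, 8586900000)])))))) (.add
 (.mul (.g 7) (.add (.mul (.g 4) (.mul (.g 7) (.pp [(1, 11604000000)]))) (.mul (.g 14) (.mul (.g
 14) (.pp [(1, 186995250)]))))) (.mul (.g 16) (.add (.pp [(1, 8403900000)]) (.mul (.g 8) (.mul (.g
 13) (.pp [(1, 17718600000)]))))))) (.add (.mul (.g 6) (.mul (.g 6) (.mul (.g 6) (.pp [(1,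
 60003)])))) (.add (.mul (.g 14) (.pp [(1, 981165000)])) (.mul (.g 20) (.pp [(1,
 11816400000)])))))) (.mul (.g 4) (.add (.add (.mul (.g 5) (.add (.add (.mul (.pp [(1, 120)]) (.sq
 [(1, -1), (2, 100), (3, -6), (5, 76)])) (.mul (.g 4) (.mul (.g 9) (.pp [(1, 27874500000)]))))
 (.add (.mul (.g 8) (.pp [(1, 174975300000)])) (.mul (.g 13) (.pp [(1, 32760900000)]))))) (.mul (.g
 7) (.add (.add (.pp [(1, 982200000)]) (.mul (.pp [(1, 360)]) (.sq [(1, 11), (2, 73), (3, 82), (5,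
 -100)]))) (.add (.mul (.g 9) (.mul (.g 11) (.pp [(1, 35310000000)]))) (.mul (.g 13) (.pp [(1,
 41122200000)])))))) (.add (.mul (.g 4) (.mul (.g 9) (.mul (.g 9) (.pp [(1, 23394900000)])))) (.mul
 (.g 15) (.pp [(1, 35466750000)])))))) (.add (.mul (.g 16) (.add (.mul (.g 11) (.add (.pp [(1,
 2236860000)]) (.add (.mul (.g 7) (.add (.mul (.g 8) (.pp [(1, 3329520000)])) (.mul (.g 9) (.pp
 [(1, 23777760000)])))) (.mul (.g 8) (.pp [(1, 11721840000)]))))) (.add (.mul (.g 6) (.add (.mul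
 (.g 5) (.mul (.g 13) (.pp [(1, 33294000)]))) (.mul (.g 9) (.mul (.g 9) (.pp [(1, 25870800)])))))
 (.mul (.g 7) (.mul (.g 8) (.mul (.g 8) (.pp [(1, 7056660000)]))))))) (.add (.mul (.g 5) (.add
 (.mul (.g 5) (.mul (.g 15) (.pp [(1, 31460100000)]))) (.mul (.g 6) (.mul (.g 7) (.mul (.g 9) (.pp
 [(1, 28467000)])))))) (.mul (.g 0) (.pp [(1, 60000000)]))))) (.add (.add (.mul (.g 2) (.pp [(1,
 100000000000)])) (.mul (.g 3) (.pp [(1, 100000000000)]))) (.add (.mul (.g 6) (.mul (.g 6) (.pp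
 [(1, 318390)]))) (.add (.mul (.g 8) (.mul (.g 8) (.mul (.g 8) (.mul (.g 11) (.pp [(1,
 1992300000)]))))) (.mul (.g 18) (.pp [(1, 100000000)])))))) (.pp [(1, 668224683), (2, 2964750),
 (3, 2646900), (4, 2881680), (5, 2740527), (6, 3143880), (8, 3154160), (9, 3318000), (10, 3543570),
 (12, 2864880), (15, 2993220), (16, 3118440), (18, 2758560), (20, 2382600), (24, 2965920), (25,
 2945400), (27, 3030000), (30, 2946360), (36, 3168960), (40, 3049560), (45, 2941440), (50,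
 2580240), (54, 2995680), (60, 2996640), (75, 3395760), (81, 3000000), (90, 2940480), (100,
 2925120), (125, 3275000), (135, 3004320), (150, 3244320), (225, 2890560), (250, 3506880), (375,
 2793120), (625, 2700000)]))))))))
 (.rule 1 (.cut 1 [(2, 1), (5, -1)] (.add (.mul (.g 1) (.pp [(1, 1)])) (.mul (.g 11) (.pp [(1,
 1)]))) (.rule 2 (.cut 9 [(1, -7), (3, 50)] (.add (.add (.mul (.g 5) (.pp [(1, 310)])) (.mul (.g 3)
 (.pp [(1, 310)]))) (.add (.mul (.g 12) (.pp [(1, 7)])) (.mul (.g 1) (.pp [(1, 140)])))) (.rule 7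
 (.leaf 30000000 (.add (.add (.add (.add (.mul (.g 9) (.add (.add (.mul (.g 15) (.add (.mul (.g 7)
 (.add (.pp [(1, 9230700000)]) (.add (.mul (.g 11) (.pp [(1, 17897850000)])) (.mul (.g 20) (.pp
 [(1, 74938200000)]))))) (.add (.mul (.g 15) (.add (.pp [(1, 17088825000)]) (.mul (.g 8) (.pp [(1,
 24543600000)])))) (.mul (.g 9) (.mul (.g 16) (.pp [(1, 30720750000)])))))) (.mul (.g 11) (.add
 (.add (.mul (.pp [(1, 3099630)]) (.sq [(1, -59), (2, 100), (3, 19), (5, 6)])) (.mul (.g 9) (.mul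
 (.g 16) (.pp [(1, 19054860000)])))) (.add (.mul (.g 11) (.mul (.g 11) (.pp [(1, 9717300000)])))
 (.mul (.g 14) (.pp [(1, 5237085000)])))))) (.add (.mul (.g 5) (.add (.mul (.g 13) (.add (.mul (.g
 9) (.pp [(1, 56049600000)])) (.mul (.g 13) (.pp [(1, 15926700000)])))) (.mul (.g 8) (.mul (.g 20)
 (.pp [(1, 136443000000)]))))) (.add (.mul (.g 7) (.add (.mul (.g 6) (.mul (.g 7) (.pp [(1,
 1327896000)]))) (.mul (.g 16) (.mul (.g 20) (.pp [(1, 40847280000)]))))) (.mul (.g 13) (.mul (.g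
 13) (.mul (.g 13) (.pp [(1, 2907000000)])))))))) (.mul (.g 5) (.add (.add (.mul (.g 13) (.add
 (.add (.mul (.g 7) (.pp [(1, 35052900000)])) (.mul (.g 8) (.mul (.g 20) (.pp [(1,
 77128500000)])))) (.add (.mul (.g 15) (.pp [(1, 158326800000)])) (.mul (.g 16) (.mul (.g 16) (.pp
 [(1, 1111536000)])))))) (.mul (.g 5) (.add (.pp [(1, 54554100000)]) (.mul (.g 12) (.mul (.g 20)
 (.pp [(1, 16302600000)])))))) (.add (.mul (.g 7) (.mul (.g 20) (.pp [(1, 61500300000)]))) (.mul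
 (.g 16) (.pp [(1, 24669720000)])))))) (.add (.mul (.g 14) (.add (.add (.mul (.g 7) (.add (.pp [(1,
 1015485000)]) (.mul (.pp [(1, 89223)]) (.sq [(2, 60), (3, 100), (5, 53)])))) (.mul (.g 15) (.add
 (.pp [(1, 4127280000)]) (.mul (.g 8) (.mul (.g 8) (.pp [(1, 557070000)])))))) (.add (.mul (.g 16)
 (.pp [(1, 25014000)])) (.mul (.g 20) (.pp [(1, 167415000)]))))) (.mul (.g 11) (.add (.add (.mul
 (.g 7) (.mul (.g 7) (.mul (.g 20) (.pp [(1, 140741100000)])))) (.mul (.g 11) (.mul (.pp [(1,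
 7220040)]) (.sq [(1, 21), (2, -41), (3, -7), (5, 50)])))) (.add (.mul (.g 12) (.mul (.pp [(1,
 181980)]) (.sq [(2, 64), (3, 100), (5, 55)]))) (.mul (.g 15) (.mul (.pp [(1, 248520)]) (.sq [(1,
 74), (2, -100), (3, 100), (5, 35)])))))))) (.add (.add (.mul (.g 0) (.pp [(1, 60000000)])) (.mul
 (.g 2) (.pp [(1, 100000000000)]))) (.add (.mul (.g 4) (.pp [(1, 100000000000)])) (.add (.mul (.g
 6) (.mul (.g 15) (.pp [(1, 380541000)]))) (.mul (.g 18) (.pp [(1, 100000000)])))))) (.pp [(1,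
 1472445360), (2, 3240120), (3, 2726280), (4, 3106320), (5, 2798490), (6, 2874000), (8, 2916560),
 (9, 3170040), (10, 2719110), (12, 2879760), (15, 3204060), (16, 2958840), (18, 3001920), (20,
 3487800), (24, 3114960), (25, 3202140), (27, 2990000), (30, 2717340), (36, 2954040), (40,
 3042720), (45, 3018570), (50, 2714223), (54, 3000000), (60, 2779200), (75, 2980860), (81,
 3000000), (90, 3170430), (100, 2652840), (125, 3014820), (135, 3000000), (150, 3645000), (225,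
 2850000), (250, 3212040), (375, 2850000), (625, 3000000)]))))))))))
 (P_c2 ++ xP_G_F5a) = true := by decide +kernel

theorem t_G_F7_c4 : chk RFp gP_G_F7
 (.rule 5 (.rule 6 (.leaf 60000000 (.add (.add (.add (.add (.mul (.g 11) (.add (.add (.add (.mul
 (.g 3) (.add (.add (.pp [(1, 44541000000)]) (.add (.mul (.pp [(1, 2911200)]) (.sq [(2, 20), (3,
 100), (5, -14), (7, -67)])) (.mul (.g 5) (.add (.add (.pp [(1, 4902000000)]) (.mul (.g 2) (.pp
 [(1, 305252400000)]))) (.add (.mul (.g 4) (.pp [(1, 136327800000)])) (.mul (.g 5) (.pp [(1,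
 117698400000)]))))))) (.add (.add (.mul (.g 4) (.add (.mul (.g 11) (.pp [(1, 18429600000)])) (.mul
 (.g 12) (.pp [(1, 4420800000)])))) (.mul (.g 8) (.add (.mul (.g 8) (.pp [(1, 19378800000)])) (.mul
 (.g 11) (.pp [(1, 73971000000)]))))) (.add (.mul (.g 3) (.mul (.g 9) (.pp [(1, 3857220000)])))
 (.mul (.g 12) (.pp [(1, 65391000000)])))))) (.mul (.g 4) (.add (.mul (.g 2) (.add (.pp [(1,
 21665400000)]) (.add (.mul (.g 4) (.pp [(1, 3850800000)])) (.mul (.g 5) (.pp [(1,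
 67196400000)]))))) (.add (.mul (.g 11) (.add (.pp [(1, 43549200000)]) (.add (.mul (.g 5) (.pp [(1,
 63183000000)])) (.mul (.g 12) (.pp [(1, 3958800000)]))))) (.mul (.g 7) (.mul (.g 8) (.pp [(1,
 18782400000)]))))))) (.add (.mul (.g 5) (.add (.mul (.g 5) (.add (.mul (.g 9) (.pp [(1,
 11466930000)])) (.add (.mul (.g 11) (.pp [(1, 179991000000)])) (.mul (.g 12) (.pp [(1,
 138682800000)]))))) (.mul (.g 2) (.mul (.g 6) (.pp [(1, 441370200000)]))))) (.mul (.g 2) (.add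
 (.pp [(1, 39003000000)]) (.mul (.g 2) (.mul (.g 8) (.pp [(1, 49161000000)]))))))) (.add (.add
 (.mul (.g 11) (.add (.pp [(1, 13342200000)]) (.mul (.pp [(1, 111420)]) (.sq [(1, 79), (2, 74), (3,
 100), (5, -23), (7, 5)])))) (.mul (.g 6) (.mul (.pp [(1, 5797320)]) (.sq [(1, -65), (2, 28), (3,
 49), (5, 49), (7, 100)])))) (.add (.mul (.g 9) (.pp [(1, 4698780000)])) (.mul (.g 12) (.mul (.pp
 [(1, 2749260)]) (.sq [(1, -1), (2, -67), (3, -63), (5, -9), (7, 100)]))))))) (.mul (.g 3) (.add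
 (.add (.mul (.g 4) (.add (.mul (.g 12) (.add (.add (.mul (.g 3) (.pp [(1, 2023200000)])) (.mul (.g
 4) (.pp [(1, 1987200000)]))) (.add (.mul (.g 8) (.pp [(1, 3741600000)])) (.mul (.g 9) (.pp [(1,
 25950000)]))))) (.add (.mul (.g 5) (.add (.mul (.g 5) (.pp [(1, 5710800000)])) (.mul (.g 6) (.pp
 [(1, 67689600000)])))) (.mul (.g 7) (.add (.mul (.g 3) (.pp [(1, 34056000000)])) (.mul (.g 4) (.pp
 [(1, 3836400000)]))))))) (.mul (.g 2) (.add (.mul (.g 12) (.add (.mul (.g 3) (.pp [(1,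
 100983600000)])) (.add (.mul (.g 5) (.pp [(1, 365322000000)])) (.mul (.g 12) (.pp [(1,
 23014800000)]))))) (.mul (.g 5) (.mul (.g 9) (.pp [(1, 23052510000)])))))) (.add (.mul (.g 3)
 (.add (.mul (.pp [(1, 5895540)]) (.sq [(1, -2), (2, -41), (3, -5), (5, 79), (7, 100)])) (.mul (.g
 5) (.add (.mul (.g 6) (.pp [(1, 170960400000)])) (.mul (.g 12) (.pp [(1, 34434600000)])))))) (.add
 (.mul (.g 6) (.mul (.g 6) (.mul (.g 9) (.pp [(1, 5088600000)])))) (.mul (.g 8) (.mul (.pp [(1,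
 5068500)]) (.sq [(1, 7), (2, -9), (3, 100), (5, -22), (7, -54)])))))))) (.add (.mul (.g 9) (.add
 (.add (.mul (.g 6) (.add (.pp [(1, 8877330000)]) (.add (.mul (.pp [(1, 35199)]) (.sq [(1, -15),
 (2, -7), (3, 86), (5, 52), (7, 100)])) (.mul (.g 4) (.add (.pp [(1, 989100000)]) (.add (.mul (.g
 4) (.pp [(1, 2419380000)])) (.mul (.g 6) (.pp [(1, 3054600000)])))))))) (.mul (.g 5) (.add (.pp
 [(1, 1413570000)]) (.mul (.g 5) (.add (.mul (.g 4) (.pp [(1, 7220460000)])) (.mul (.g 12) (.pp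
 [(1, 1160100000)]))))))) (.add (.mul (.g 2) (.add (.mul (.pp [(1, 156996)]) (.sq [(1, 26), (2,
 -61), (3, -15), (5, 48), (7, 100)])) (.mul (.g 7) (.mul (.g 7) (.pp [(1, 952920000)]))))) (.add
 (.mul (.g 12) (.add (.pp [(1, 5956230000)]) (.mul (.pp [(1, 96711)]) (.sq [(1, 46), (2, 39), (3,
 -30), (5, 100), (7, 33)])))) (.mul (.g 7) (.mul (.pp [(1, 56322)]) (.sq [(1, 47), (2, 100), (3,
 16), (5, 33), (7, 84)]))))))) (.mul (.g 2) (.add (.mul (.g 6) (.add (.mul (.pp [(1, 7643940)])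
 (.sq [(1, -46), (2, 100), (3, 48), (5, 48), (7, -35)])) (.add (.mul (.g 6) (.add (.mul (.g 5) (.pp
 [(1, 116724000000)])) (.mul (.g 12) (.pp [(1, 10965600000)])))) (.mul (.g 2) (.mul (.g 2) (.pp
 [(1, 21976800000)])))))) (.mul (.g 8) (.add (.mul (.g 2) (.mul (.g 2) (.pp [(1, 40698000000)])))
 (.mul (.g 12) (.mul (.g 12) (.pp [(1, 26016600000)]))))))))) (.add (.add (.mul (.g 12) (.add (.mul
 (.g 4) (.mul (.g 12) (.add (.mul (.g 4) (.pp [(1, 20563200000)])) (.mul (.g 6) (.pp [(1,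
 1298400000)]))))) (.mul (.g 5) (.mul (.g 5) (.add (.mul (.g 6) (.pp [(1, 24131400000)])) (.mul (.g
 8) (.pp [(1, 102310200000)]))))))) (.mul (.g 0) (.pp [(1, 200000000000)]))) (.add (.mul (.g 1)
 (.pp [(1, 200000000000)])) (.mul (.g 10) (.pp [(1, 800000000)]))))) (.pp [(1, 3909841461), (2,
 6224553), (3, 6740250), (4, 5699760), (5, 5982750), (6, 5676948), (7, 6295872), (8, 5944765), (9,
 5633652), (10, 6070620), (12, 5974024), (14, 4279314), (15, 6086484), (16, 6147300), (18,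
 5964832), (20, 5381365), (21, 4725756), (24, 5379840), (25, 6329910), (27, 5748612), (28,
 5731980), (30, 6566844), (35, 5697240), (36, 6637560), (40, 5958000), (42, 7540704), (45,
 6474024), (49, 5390679), (50, 5977234), (54, 6172080), (56, 5061120), (60, 7045500), (63,
 5943756), (70, 7470006), (75, 5885970), (81, 5980140), (84, 6836400), (90, 5804880), (98,
 6748968), (100, 6643380), (105, 6926484), (125, 6073938), (126, 5512440), (135, 5291580), (140,
 6896460), (147, 6646092), (150, 5072880), (175, 6141948), (189, 6510720), (196, 6059220), (210,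
 5303520), (225, 5955120), (245, 6944061), (250, 6019920), (294, 5955120), (315, 5886060), (343,
 5779200), (350, 5842680), (375, 5742900), (441, 6485940), (490, 5534820), (525, 5697840), (625,
 5693160), (686, 5749200), (735, 5413260), (875, 5745300), (1029, 6385800), (1225, 6053040), (1715,
 5826600), (2401, 6214500)])))))
 (P_c4 ++ xP_G_F7) = true := by decide +kernel

theorem t_G_F8_free : chk RFp gP_G_F8
 (.split [(2, 1), (3, -1)]
 (.split [(2, 1), (5, -1)]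
 (.rule 0 (.rule 2 (.leaf 3000000 (.add (.add (.add (.add (.mul (.g 13) (.add (.add (.mul (.pp [(1,
 1875525)]) (.sq [(1, -3), (7, 20)])) (.add (.mul (.pp [(1, 15255)]) (.sq [(2, -22), (3, -11), (5,
 -46), (7, 100)])) (.mul (.g 7) (.add (.add (.mul (.g 2) (.add (.add (.mul (.g 3) (.pp [(1,
 4495080000)])) (.mul (.g 4) (.pp [(1, 4994610000)]))) (.add (.mul (.g 6) (.pp [(1, 11226150000)]))
 (.mul (.g 13) (.pp [(1, 3561300000)]))))) (.mul (.g 7) (.add (.add (.mul (.g 4) (.pp [(1,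
 6954990000)])) (.mul (.g 5) (.pp [(1, 1002930000)]))) (.add (.mul (.g 6) (.pp [(1, 11021250000)]))
 (.mul (.g 13) (.pp [(1, 2117520000)])))))) (.add (.mul (.g 3) (.mul (.g 14) (.pp [(1,
 960990000)]))) (.mul (.g 5) (.mul (.g 5) (.pp [(1, 246360000)])))))))) (.add (.add (.mul (.g 13)
 (.add (.add (.mul (.pp [(1, 76860)]) (.sq [(1, 33), (2, 9), (3, -62), (5, 100), (7, -92)])) (.mul
 (.pp [(1, 577197)]) (.sq [(1, -18), (2, 1), (3, 1), (7, 100)]))) (.add (.mul (.g 5) (.add (.mul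
 (.g 3) (.pp [(1, 159960000)])) (.add (.mul (.g 6) (.pp [(1, 5100930000)])) (.mul (.g 8) (.pp [(1,
 325230000)]))))) (.add (.mul (.g 4) (.add (.pp [(1, 4486470000)]) (.mul (.g 4) (.pp [(1,
 5537940000)])))) (.mul (.g 6) (.mul (.g 13) (.pp [(1, 23430000)]))))))) (.mul (.g 4) (.add (.mul
 (.g 4) (.add (.mul (.g 6) (.pp [(1, 4336680000)])) (.add (.mul (.g 8) (.pp [(1, 1704870000)]))
 (.mul (.g 10) (.pp [(1, 64080000)]))))) (.add (.mul (.g 2) (.mul (.g 8) (.pp [(1, 2239830000)])))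
 (.mul (.g 3) (.pp [(1, 4074750000)])))))) (.add (.mul (.g 6) (.add (.mul (.pp [(1, 104244)]) (.sq
 [(1, -16), (2, -7), (3, -16), (5, -4), (7, 100)])) (.add (.mul (.g 3) (.pp [(1, 4753710000)]))
 (.mul (.g 6) (.mul (.g 6) (.pp [(1, 2037150000)])))))) (.mul (.g 3) (.mul (.g 5) (.pp [(1,
 27330000)]))))))) (.mul (.g 6) (.add (.add (.mul (.g 6) (.add (.add (.mul (.pp [(1, 129336)]) (.sq
 [(1, 50), (2, -40), (3, -57), (5, 100), (7, -52)])) (.mul (.g 3) (.add (.pp [(1, 1345980000)])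
 (.add (.mul (.g 6) (.pp [(1, 2660400000)])) (.mul (.g 8) (.pp [(1, 1872150000)])))))) (.add (.mul
 (.g 7) (.add (.mul (.g 7) (.pp [(1, 1110630000)])) (.mul (.g 11) (.pp [(1, 245959500)])))) (.mul
 (.g 8) (.add (.pp [(1, 1013850000)]) (.mul (.g 6) (.pp [(1, 110190000)]))))))) (.mul (.g 11) (.add
 (.mul (.g 4) (.add (.add (.pp [(1, 207429000)]) (.mul (.g 4) (.pp [(1, 223506000)]))) (.add (.mul
 (.g 5) (.pp [(1, 17205000)])) (.mul (.g 7) (.pp [(1, 238510500)]))))) (.add (.mul (.g 2) (.pp [(1,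
 284394000)])) (.mul (.g 5) (.mul (.g 5) (.pp [(1, 12985500)]))))))) (.add (.mul (.g 7) (.add (.mul
 (.g 8) (.add (.mul (.g 3) (.pp [(1, 2810400000)])) (.add (.mul (.g 8) (.pp [(1, 646890000)]))
 (.mul (.g 10) (.pp [(1, 2308530000)]))))) (.mul (.g 2) (.mul (.g 2) (.pp [(1, 501870000)])))))
 (.add (.mul (.g 3) (.mul (.g 3) (.mul (.g 5) (.pp [(1, 259410000)])))) (.mul (.g 4) (.mul (.pp
 [(1, 34500)]) (.sq [(1, -5), (2, -65), (3, 43), (5, -81), (7, 100)])))))))) (.add (.mul (.g 3)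
 (.add (.mul (.g 5) (.add (.add (.mul (.g 7) (.add (.mul (.g 2) (.pp [(1, 600000)])) (.add (.mul
 (.g 5) (.pp [(1, 300000)])) (.mul (.g 7) (.pp [(1, 4028640000)]))))) (.mul (.g 3) (.add (.pp [(1,
 9896910000)]) (.mul (.g 3) (.pp [(1, 300000)]))))) (.add (.mul (.g 2) (.mul (.g 2) (.pp [(1,
 270180000)]))) (.mul (.g 8) (.mul (.g 8) (.pp [(1, 387480000)])))))) (.add (.mul (.g 3) (.add
 (.mul (.g 10) (.add (.pp [(1, 101580000)]) (.mul (.g 8) (.pp [(1, 1200000)])))) (.mul (.g 7) (.mul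
 (.g 7) (.pp [(1, 4136490000)]))))) (.mul (.g 4) (.mul (.g 8) (.add (.mul (.g 4) (.pp [(1,
 2634270000)])) (.mul (.g 10) (.pp [(1, 397560000)])))))))) (.mul (.g 8) (.add (.mul (.pp [(1,
 8469)]) (.sq [(1, -12), (2, -52), (3, -48), (5, -3), (7, 100)])) (.add (.mul (.g 2) (.mul (.g 2)
 (.add (.mul (.g 7) (.pp [(1, 6900000)])) (.add (.mul (.g 8) (.pp [(1, 991500000)])) (.mul (.g 10)
 (.pp [(1, 1874700000)])))))) (.mul (.g 8) (.mul (.g 10) (.add (.mul (.g 7) (.pp [(1, 63180000)]))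
 (.mul (.g 10) (.pp [(1, 257100000)])))))))))) (.add (.add (.mul (.g 4) (.mul (.g 11) (.add (.mul
 (.g 4) (.mul (.g 4) (.pp [(1, 5245500)]))) (.mul (.g 10) (.pp [(1, 487090500)]))))) (.mul (.g 0)
 (.pp [(1, 10000000000)]))) (.add (.mul (.g 1) (.pp [(1, 10000000000)])) (.add (.mul (.g 7) (.mul
 (.g 7) (.mul (.pp [(1, 1266)]) (.sq [(1, -31), (2, -11), (3, 41), (5, -70), (7, 100)])))) (.mul
 (.g 12) (.pp [(1, 10000000000)])))))) (.pp [(1, 8188371), (2, 304476), (3, 303924), (4, 307359),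
 (5, 302229), (6, 312486), (7, 296181), (8, 250676), (9, 284532), (10, 320160), (12, 337248), (14,
 296256), (15, 273516), (16, 300000), (18, 282576), (20, 364506), (21, 294696), (24, 300000), (25,
 273063), (27, 310000), (28, 291534), (30, 259104), (35, 296688), (36, 300000), (40, 307500), (42,
 318288), (45, 313965), (49, 318726), (50, 264585), (54, 300000), (56, 300000), (60, 345000), (63,
 289929), (70, 263460), (75, 315168), (81, 300000), (84, 300000), (90, 259500), (98, 277320), (100,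
 302499), (105, 299772), (125, 308908), (126, 300000), (135, 300000), (140, 322242), (147, 313944),
 (150, 266862), (175, 346032), (189, 300000), (196, 303957), (210, 293388), (225, 296763), (245,
 307080), (250, 313164), (294, 293298), (315, 312390), (343, 278400), (350, 263064), (375, 307632),
 (441, 314817), (490, 302280), (525, 328344), (625, 287904), (686, 315960), (735, 303480), (875,
 301104), (1029, 290520), (1225, 291816), (1715, 301920), (2401, 306960)])))))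
 (.rule 0 (.rule 3 (.leaf 3000000 (.add (.add (.add (.add (.mul (.g 4) (.add (.add (.mul (.g 13)
 (.add (.add (.pp [(1, 2004210000)]) (.mul (.g 13) (.add (.add (.pp [(1, 898200000)]) (.mul (.g 4)
 (.pp [(1, 3233820000)]))) (.add (.mul (.g 5) (.pp [(1, 450000)])) (.mul (.g 6) (.pp [(1,
 1879710000)])))))) (.add (.mul (.g 4) (.add (.pp [(1, 2121300000)]) (.mul (.g 8) (.pp [(1,
 1781820000)])))) (.add (.mul (.g 6) (.mul (.g 6) (.pp [(1, 7623660000)]))) (.mul (.g 7) (.mul (.g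
 7) (.pp [(1, 3396090000)]))))))) (.mul (.g 3) (.add (.add (.pp [(1, 560460000)]) (.mul (.g 2)
 (.add (.mul (.g 4) (.pp [(1, 2030070000)])) (.add (.mul (.g 6) (.pp [(1, 2780460000)])) (.mul (.g
 8) (.pp [(1, 942780000)])))))) (.add (.mul (.g 3) (.add (.pp [(1, 6332220000)]) (.mul (.g 8) (.pp
 [(1, 913620000)])))) (.add (.mul (.g 7) (.mul (.g 7) (.pp [(1, 1350000)]))) (.mul (.g 8) (.mul (.g
 8) (.pp [(1, 2904660000)])))))))) (.add (.mul (.g 11) (.add (.add (.pp [(1, 7806000)]) (.mul (.g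
 4) (.add (.mul (.g 4) (.pp [(1, 4447500)])) (.mul (.g 7) (.pp [(1, 107844000)]))))) (.add (.mul
 (.g 5) (.add (.pp [(1, 692308500)]) (.mul (.g 11) (.pp [(1, 3663525)])))) (.add (.mul (.g 6) (.mul
 (.g 7) (.pp [(1, 132663000)]))) (.mul (.g 10) (.pp [(1, 235812000)])))))) (.add (.mul (.g 2) (.add
 (.mul (.g 5) (.mul (.g 8) (.pp [(1, 1984020000)]))) (.add (.mul (.g 6) (.mul (.g 6) (.pp [(1,
 5974590000)]))) (.mul (.g 7) (.mul (.g 7) (.pp [(1, 3043230000)])))))) (.mul (.g 4) (.mul (.g 5)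
 (.mul (.g 5) (.pp [(1, 2080440000)])))))))) (.mul (.g 5) (.add (.add (.mul (.g 3) (.add (.mul (.g
 3) (.add (.pp [(1, 8533410000)]) (.add (.mul (.g 7) (.pp [(1, 300000)])) (.mul (.g 8) (.pp [(1,
 149160000)]))))) (.mul (.g 5) (.add (.mul (.g 5) (.pp [(1, 300000)])) (.mul (.g 7) (.pp [(1,
 300000)])))))) (.mul (.g 2) (.add (.mul (.g 2) (.add (.mul (.g 5) (.pp [(1, 1465710000)])) (.mul
 (.g 7) (.pp [(1, 2156280000)])))) (.add (.mul (.g 6) (.mul (.g 6) (.pp [(1, 780510000)]))) (.mul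
 (.g 8) (.mul (.g 8) (.pp [(1, 3221670000)]))))))) (.add (.mul (.g 11) (.add (.pp [(1, 90417000)])
 (.add (.mul (.g 6) (.mul (.g 6) (.pp [(1, 82384500)]))) (.mul (.g 8) (.mul (.g 10) (.pp [(1,
 7500)])))))) (.add (.mul (.g 13) (.add (.mul (.g 5) (.mul (.g 5) (.pp [(1, 300000)]))) (.add (.mul
 (.g 7) (.mul (.g 7) (.pp [(1, 300000)]))) (.mul (.g 13) (.pp [(1, 814500000)]))))) (.mul (.g 5)
 (.mul (.g 5) (.mul (.g 8) (.pp [(1, 1317000000)]))))))))) (.add (.mul (.g 6) (.add (.add (.mul (.g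
 7) (.add (.mul (.g 7) (.add (.add (.mul (.g 2) (.pp [(1, 1528230000)])) (.mul (.g 3) (.pp [(1,
 1628520000)]))) (.add (.mul (.g 6) (.pp [(1, 59550000)])) (.mul (.g 13) (.pp [(1,
 3189510000)]))))) (.add (.mul (.g 11) (.add (.mul (.g 10) (.pp [(1, 30000)])) (.mul (.g 13) (.pp
 [(1, 81441000)])))) (.mul (.g 2) (.mul (.g 3) (.pp [(1, 6964020000)])))))) (.mul (.g 6) (.add
 (.mul (.pp [(1, 807516)]) (.sq [(1, -33), (2, 12), (3, 15), (5, 11), (7, 100)])) (.add (.mul (.g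
 11) (.add (.mul (.g 2) (.pp [(1, 7813500)])) (.mul (.g 13) (.pp [(1, 8578500)])))) (.mul (.g 3)
 (.mul (.g 13) (.pp [(1, 585090000)]))))))) (.add (.mul (.g 3) (.pp [(1, 1372410000)])) (.add (.mul
 (.g 11) (.pp [(1, 2041500)])) (.mul (.g 13) (.mul (.pp [(1, 1166082)]) (.sq [(1, -18), (5, 11),
 (7, 100)]))))))) (.add (.mul (.g 13) (.add (.add (.mul (.pp [(1, 59868)]) (.sq [(1, -26), (2, 9),
 (5, 7), (7, 100)])) (.mul (.pp [(1, 93087)]) (.sq [(1, -14), (5, -7), (7, 100)]))) (.add (.mul (.g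
 13) (.add (.mul (.pp [(1, 771675)]) (.sq [(1, -15), (5, -6), (7, 100)])) (.mul (.g 7) (.mul (.g 7)
 (.pp [(1, 226140000)]))))) (.add (.mul (.g 3) (.pp [(1, 1505550000)])) (.mul (.g 11) (.pp [(1,
 6150000)])))))) (.mul (.g 7) (.add (.mul (.g 7) (.add (.mul (.pp [(1, 60981)]) (.sq [(1, -66), (2,
 -1), (5, -9), (7, 100)])) (.mul (.g 3) (.add (.pp [(1, 815100000)]) (.mul (.g 10) (.pp [(1,
 300000)])))))) (.mul (.g 10) (.mul (.g 11) (.mul (.g 14) (.pp [(1, 15000)]))))))))) (.add (.add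
 (.mul (.g 0) (.pp [(1, 10000000000)])) (.mul (.g 1) (.pp [(1, 10000000000)]))) (.add (.mul (.g 2)
 (.mul (.pp [(1, 161997)]) (.sq [(1, -18), (5, 23), (7, 100)]))) (.add (.mul (.g 3) (.mul (.g 3)
 (.pp [(1, 1807980000)]))) (.mul (.g 12) (.pp [(1, 10000000000)])))))) (.pp [(1, 9307305), (2,
 291252), (3, 297000), (4, 298692), (5, 293874), (6, 317475), (7, 301770), (8, 292500), (9,
 292500), (10, 326892), (12, 253500), (14, 325176), (15, 292500), (16, 300000), (18, 346500), (20,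
 349308), (21, 315000), (24, 330000), (25, 305262), (27, 280000), (28, 313308), (30, 286500), (35,
 302718), (36, 270000), (40, 300000), (42, 300000), (45, 300000), (49, 292689), (50, 253953), (54,
 300000), (56, 300000), (60, 300000), (63, 300000), (70, 259968), (75, 290340), (81, 300000), (84,
 300000), (90, 300000), (98, 292908), (100, 297696), (105, 285000), (125, 304704), (126, 300000),
 (135, 300000), (140, 300000), (147, 300000), (150, 294240), (175, 286623), (189, 300000), (196,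
 299019), (210, 300000), (225, 288900), (245, 280272), (250, 295776), (294, 300000), (315, 300000),
 (343, 304200), (350, 321600), (375, 309720), (441, 300000), (490, 282342), (525, 312000), (625,
 306186), (686, 286200), (735, 300000), (875, 300522), (1029, 300000), (1225, 360639), (1715,
 325800), (2401, 300000)]))))))
 (.split [(2, 1), (5, -1)]
 (.rule 1 (.rule 2 (.leaf 60000000 (.add (.add (.add (.add (.mul (.g 13) (.add (.add (.add (.mul
 (.pp [(1, 214020)]) (.sq [(1, -17), (3, 19), (7, 100)])) (.mul (.pp [(1, 2059500)]) (.sq [(1,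
 -25), (2, -57), (3, -13), (5, -17), (7, 100)]))) (.add (.mul (.g 6) (.add (.add (.mul (.pp [(1,
 1956000)]) (.sq [(1, 9), (2, -25), (3, 6), (5, 97), (7, -100)])) (.add (.mul (.g 13) (.add (.add
 (.pp [(1, 43297800000)]) (.mul (.g 4) (.pp [(1, 38847600000)]))) (.add (.mul (.g 5) (.pp [(1,
 3767400000)])) (.add (.mul (.g 6) (.pp [(1, 64594200000)])) (.mul (.g 13) (.pp [(1,
 29274000000)])))))) (.mul (.g 7) (.add (.mul (.g 2) (.pp [(1, 9138600000)])) (.add (.mul (.g 3)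
 (.pp [(1, 45273600000)])) (.mul (.g 7) (.pp [(1, 282588000000)]))))))) (.add (.add (.mul (.g 6)
 (.add (.mul (.g 6) (.pp [(1, 122921400000)])) (.mul (.g 11) (.pp [(1, 2213520000)])))) (.mul (.g
 2) (.pp [(1, 23621400000)]))) (.add (.mul (.g 3) (.mul (.g 5) (.pp [(1, 1090800000)]))) (.mul (.g
 4) (.mul (.g 11) (.pp [(1, 1360350000)]))))))) (.mul (.g 4) (.add (.add (.mul (.g 2) (.add (.pp
 [(1, 58231800000)]) (.add (.mul (.g 7) (.pp [(1, 20975400000)])) (.mul (.g 8) (.pp [(1,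
 86133600000)]))))) (.mul (.g 11) (.add (.pp [(1, 297540000)]) (.add (.mul (.g 4) (.pp [(1,
 421170000)])) (.mul (.g 7) (.pp [(1, 41760000)])))))) (.add (.mul (.g 4) (.mul (.g 13) (.pp [(1,
 29019600000)]))) (.mul (.g 7) (.mul (.g 7) (.pp [(1, 78285000000)])))))))) (.add (.add (.mul (.g
 5) (.add (.mul (.pp [(1, 870900)]) (.sq [(1, -4), (3, -9), (7, 100)])) (.add (.mul (.pp [(1,
 563820)]) (.sq [(1, -50), (3, 100), (7, 89)])) (.mul (.g 11) (.add (.mul (.g 5) (.pp [(1,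
 441270000)])) (.mul (.g 11) (.pp [(1, 7792500)]))))))) (.mul (.g 13) (.add (.mul (.pp [(1,
 56106480)]) (.sq [(1, -8), (3, 7), (7, 50)])) (.add (.mul (.pp [(1, 2796840)]) (.sq [(1, -16), (3,
 -29), (7, 100)])) (.mul (.g 7) (.mul (.g 7) (.pp [(1, 2793600000)]))))))) (.add (.mul (.g 11)
 (.add (.pp [(1, 27540000)]) (.mul (.g 7) (.mul (.g 14) (.pp [(1, 551790000)]))))) (.mul (.g 2)
 (.pp [(1, 80086800000)])))))) (.mul (.g 11) (.add (.add (.mul (.pp [(1, 165)]) (.sq [(1, 9), (2,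
 89), (3, 100), (5, 53), (7, -76)])) (.add (.mul (.g 2) (.add (.add (.pp [(1, 78870000)]) (.mul (.g
 6) (.add (.pp [(1, 405060000)]) (.add (.mul (.g 7) (.pp [(1, 2449620000)])) (.mul (.g 8) (.pp [(1,
 2306220000)])))))) (.add (.mul (.g 2) (.mul (.g 5) (.pp [(1, 27060000)]))) (.add (.mul (.g 8)
 (.mul (.g 8) (.pp [(1, 58380000)]))) (.mul (.g 10) (.pp [(1, 146520000)])))))) (.mul (.g 3) (.add
 (.pp [(1, 10770000)]) (.add (.mul (.g 3) (.add (.mul (.g 5) (.pp [(1, 300000)])) (.add (.mul (.g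
 7) (.pp [(1, 118140000)])) (.mul (.g 8) (.pp [(1, 24930000)]))))) (.mul (.g 7) (.mul (.g 7) (.pp
 [(1, 4140000)])))))))) (.add (.add (.mul (.g 4) (.add (.mul (.g 4) (.add (.mul (.g 4) (.pp [(1,
 31260000)])) (.mul (.g 6) (.pp [(1, 2186880000)])))) (.mul (.g 6) (.pp [(1, 25044330000)]))))
 (.mul (.g 5) (.mul (.g 6) (.mul (.g 6) (.pp [(1, 955500000)]))))) (.add (.mul (.g 7) (.mul (.pp
 [(1, 88884)]) (.sq [(1, -64), (2, -37), (3, -7), (5, -84), (7, 100)]))) (.mul (.g 8) (.mul (.pp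
 [(1, 1179)]) (.sq [(1, 10), (2, 100), (3, 93), (5, 52), (7, -85)])))))))) (.add (.mul (.g 6) (.add
 (.add (.mul (.pp [(1, 1685400)]) (.sq [(1, 63), (2, -12), (3, -61), (5, 100), (7, -37)])) (.mul
 (.g 6) (.add (.mul (.pp [(1, 6051120)]) (.sq [(1, -14), (2, -4), (3, -37), (7, 100)])) (.add (.mul
 (.pp [(1, 2737860)]) (.sq [(1, 34), (2, 43), (3, -42), (5, 100), (7, -66)])) (.mul (.g 6) (.add
 (.mul (.g 6) (.pp [(1, 34351200000)])) (.mul (.g 8) (.pp [(1, 8689200000)])))))))) (.add (.mul (.g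
 8) (.add (.mul (.pp [(1, 8153040)]) (.sq [(1, -14), (2, 50), (3, 13), (5, 3), (7, -17)])) (.mul
 (.g 8) (.add (.mul (.g 8) (.pp [(1, 9338400000)])) (.mul (.g 10) (.pp [(1, 6100200000)]))))))
 (.mul (.g 7) (.mul (.pp [(1, 1383840)]) (.sq [(1, -5), (2, 27), (3, 67), (5, -100), (7,
 -70)])))))) (.mul (.g 7) (.add (.add (.mul (.g 2) (.mul (.pp [(1, 15720)]) (.sq [(1, -41), (2,
 -44), (3, -25), (5, -77), (7, 100)]))) (.mul (.g 3) (.mul (.pp [(1, 716580)]) (.sq [(1, -34), (2,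
 -67), (3, -11), (5, -4), (7, 100)])))) (.add (.mul (.g 7) (.mul (.pp [(1, 16920)]) (.sq [(1, 60),
 (2, 3), (3, -62), (5, 100), (7, -39)]))) (.mul (.g 10) (.mul (.pp [(1, 557940)]) (.sq [(1, 64),
 (3, -65), (5, 100), (7, -34)])))))))) (.add (.add (.mul (.g 8) (.add (.mul (.g 8) (.add (.mul (.pp
 [(1, 1200)]) (.sq [(1, -72), (2, 70), (3, 100), (5, 43), (7, -38)])) (.add (.mul (.pp [(1,
 56700)]) (.sq [(1, -11), (2, -83), (3, -74), (5, 26), (7, 100)])) (.mul (.g 2) (.mul (.g 2) (.pp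
 [(1, 18399600000)])))))) (.mul (.g 5) (.mul (.pp [(1, 129180)]) (.sq [(1, 78), (2, 77), (3, -75),
 (5, 100), (7, -99)]))))) (.mul (.g 0) (.pp [(1, 200000000000)]))) (.add (.mul (.g 1) (.pp [(1,
 200000000000)])) (.mul (.g 12) (.pp [(1, 200000000000)]))))) (.pp [(1, 22032075), (2, 6204630),
 (3, 6490380), (4, 4873815), (5, 6837330), (6, 4783020), (7, 6264804), (8, 6875100), (9, 5809581),
 (10, 5916990), (12, 7274640), (14, 7284084), (15, 6055668), (16, 5513700), (18, 6871719), (20,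
 6441000), (21, 6451914), (24, 5193420), (25, 4843311), (27, 5863020), (28, 5168976), (30,
 5481672), (35, 4698288), (36, 5837220), (40, 5725200), (42, 4935402), (45, 5507460), (49,
 5142405), (50, 5244684), (54, 6094080), (56, 6393780), (60, 6231360), (63, 5415036), (70,
 5442864), (75, 7267740), (81, 6000000), (84, 6594900), (90, 6554580), (98, 6196095), (100,
 6271260), (105, 5655984), (125, 7252160), (126, 5793480), (135, 6342900), (140, 5594160), (147,
 5717220), (150, 6129840), (175, 7393164), (189, 6246540), (196, 6276420), (210, 6265800), (225,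
 6087720), (245, 7298820), (250, 6821040), (294, 5532720), (315, 6561780), (343, 6297600), (350,
 6491400), (375, 5208000), (441, 6404760), (490, 6514260), (525, 5306640), (625, 5004000), (686,
 5737920), (735, 5902620), (875, 5469960), (1029, 6350460), (1225, 5001840), (1715, 5781360),
 (2401, 6064680)])))))
 (.rule 1 (.rule 3 (.leaf 30000000 (.add (.add (.add (.add (.mul (.g 4) (.add (.add (.mul (.g 6)
 (.add (.add (.mul (.g 2) (.add (.pp [(1, 4993800000)]) (.add (.mul (.g 6) (.pp [(1,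
 98476800000)])) (.mul (.g 9) (.pp [(1, 55404900000)]))))) (.add (.mul (.g 6) (.add (.mul (.g 6)
 (.pp [(1, 38439900000)])) (.mul (.g 13) (.pp [(1, 48566100000)])))) (.mul (.g 7) (.add (.mul (.g
 7) (.pp [(1, 9012300000)])) (.mul (.g 11) (.pp [(1, 541410000)])))))) (.add (.add (.mul (.g 3)
 (.mul (.g 3) (.pp [(1, 25429500000)]))) (.mul (.g 4) (.mul (.g 4) (.pp [(1, 12609900000)]))))
 (.add (.mul (.g 11) (.pp [(1, 9594885000)])) (.mul (.g 13) (.mul (.g 13) (.pp [(1,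
 20403300000)]))))))) (.add (.mul (.g 13) (.add (.add (.mul (.pp [(1, 12221760)]) (.sq [(1, -1),
 (2, 25), (3, -33), (5, 50), (7, -17)])) (.add (.mul (.pp [(1, 793500)]) (.sq [(1, 20), (2, 49),
 (3, -6), (5, -6), (7, -100)])) (.mul (.g 4) (.add (.pp [(1, 50013300000)]) (.add (.mul (.g 3) (.pp
 [(1, 28588800000)])) (.mul (.g 8) (.pp [(1, 2060400000)]))))))) (.add (.mul (.g 13) (.add (.pp
 [(1, 31369200000)]) (.mul (.g 5) (.pp [(1, 26192700000)])))) (.add (.mul (.g 7) (.mul (.g 7) (.pp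
 [(1, 53482500000)]))) (.mul (.g 11) (.pp [(1, 1021035000)])))))) (.mul (.g 11) (.add (.add (.pp
 [(1, 574725000)]) (.mul (.g 4) (.add (.pp [(1, 2509005000)]) (.mul (.g 4) (.pp [(1, 600000)])))))
 (.add (.mul (.g 10) (.add (.pp [(1, 707325000)]) (.mul (.g 7) (.pp [(1, 472200000)])))) (.mul (.g
 5) (.mul (.g 5) (.pp [(1, 546030000)])))))))) (.add (.add (.mul (.g 7) (.add (.mul (.g 2) (.add
 (.mul (.g 2) (.pp [(1, 11207100000)])) (.mul (.g 7) (.pp [(1, 49755000000)])))) (.add (.mul (.g 3)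
 (.mul (.g 8) (.pp [(1, 5463000000)]))) (.mul (.g 4) (.mul (.g 4) (.pp [(1, 5938500000)]))))))
 (.mul (.g 3) (.mul (.g 5) (.add (.mul (.g 3) (.pp [(1, 9000000)])) (.mul (.g 5) (.pp [(1,
 10905600000)])))))) (.add (.mul (.g 2) (.mul (.g 2) (.pp [(1, 30540600000)]))) (.mul (.g 4) (.mul
 (.g 4) (.mul (.g 4) (.pp [(1, 9915000000)])))))))) (.mul (.g 11) (.add (.add (.mul (.pp [(1,
 2493)]) (.sq [(1, -5), (3, 100), (5, 32), (7, -40)])) (.mul (.g 5) (.add (.mul (.g 5) (.add (.mul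
 (.g 5) (.pp [(1, 150000)])) (.add (.mul (.g 7) (.pp [(1, 1006155000)])) (.mul (.g 14) (.pp [(1,
 71160000)]))))) (.add (.mul (.g 6) (.add (.mul (.g 6) (.pp [(1, 262530000)])) (.mul (.g 10) (.pp
 [(1, 39690000)])))) (.mul (.g 13) (.add (.pp [(1, 387345000)]) (.mul (.g 13) (.pp [(1,
 4740000)])))))))) (.add (.mul (.g 7) (.add (.mul (.g 7) (.add (.mul (.g 11) (.pp [(1, 4980000)]))
 (.mul (.g 13) (.pp [(1, 424260000)])))) (.add (.mul (.g 6) (.mul (.g 6) (.pp [(1, 764385000)])))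
 (.mul (.g 13) (.mul (.g 13) (.pp [(1, 40455000)])))))) (.mul (.g 6) (.add (.mul (.g 6) (.mul (.g
 6) (.pp [(1, 196830000)]))) (.mul (.g 8) (.mul (.g 11) (.pp [(1, 16044000)]))))))))) (.add (.mul
 (.g 13) (.add (.add (.mul (.g 13) (.add (.add (.mul (.pp [(1, 1871640)]) (.sq [(1, -13), (3, -34),
 (5, 3), (7, 100)])) (.mul (.pp [(1, 4969620)]) (.sq [(1, -23), (3, 26), (5, -10), (7, 100)])))
 (.add (.mul (.pp [(1, 1184010)]) (.sq [(1, -1), (2, 75), (3, -55), (5, -90), (7, 100)])) (.mul (.g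
 7) (.mul (.g 7) (.pp [(1, 4978800000)])))))) (.mul (.g 6) (.add (.mul (.pp [(1, 43189200)]) (.sq
 [(1, -1), (3, 5), (5, -13), (7, 50)])) (.mul (.pp [(1, 1813350)]) (.sq [(1, -29), (3, 20), (5,
 18), (7, 100)]))))) (.add (.mul (.g 2) (.mul (.pp [(1, 1331760)]) (.sq [(1, -15), (2, -19), (3,
 -51), (5, 36), (7, 100)]))) (.add (.mul (.g 7) (.mul (.g 7) (.pp [(1, 3502800000)]))) (.mul (.g
 10) (.mul (.pp [(1, 802710)]) (.sq [(1, -21), (2, -76), (3, 28), (5, -39), (7, 100)]))))))) (.add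
 (.mul (.g 2) (.add (.add (.mul (.pp [(1, 948270)]) (.sq [(1, -5), (3, -4), (5, -14), (7, 100)]))
 (.mul (.g 2) (.add (.mul (.g 5) (.mul (.g 14) (.pp [(1, 8022600000)]))) (.mul (.g 7) (.mul (.g 7)
 (.pp [(1, 41850000000)])))))) (.add (.mul (.g 6) (.add (.mul (.pp [(1, 431430)]) (.sq [(1, -28),
 (5, 100), (7, -59)])) (.mul (.g 3) (.mul (.g 3) (.pp [(1, 437100000)]))))) (.mul (.g 5) (.mul (.g
 7) (.mul (.g 7) (.pp [(1, 1407300000)]))))))) (.mul (.g 7) (.add (.mul (.g 3) (.add (.mul (.g 3)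
 (.mul (.g 6) (.pp [(1, 10740600000)]))) (.mul (.g 5) (.mul (.g 5) (.pp [(1, 4853700000)])))))
 (.add (.mul (.g 5) (.mul (.pp [(1, 1589580)]) (.sq [(1, -19), (3, 100), (7, -21)]))) (.mul (.g 7)
 (.mul (.pp [(1, 739500)]) (.sq [(1, -1), (2, 19), (3, 15), (5, 19), (7, -20)]))))))))) (.add (.add
 (.mul (.g 6) (.add (.mul (.g 3) (.mul (.g 3) (.mul (.g 8) (.pp [(1, 1993200000)])))) (.mul (.g 6)
 (.mul (.pp [(1, 1360110)]) (.sq [(1, -5), (3, 9), (5, -16), (7, 100)]))))) (.mul (.g 0) (.pp [(1,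
 100000000000)]))) (.add (.mul (.g 1) (.pp [(1, 100000000000)])) (.add (.mul (.g 5) (.mul (.pp [(1,
 128820)]) (.sq [(1, -48), (2, 58), (3, 100), (5, -28), (7, 55)]))) (.mul (.g 12) (.pp [(1,
 100000000000)])))))) (.pp [(1, 23018925), (2, 3041100), (3, 3016770), (4, 3105270), (5, 2979150),
 (6, 3177420), (7, 3088500), (8, 3024820), (9, 2979750), (10, 3116430), (12, 2995680), (14,
 2826810), (15, 2810970), (16, 3000000), (18, 2793840), (20, 3247860), (21, 3122010), (24,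
 3000000), (25, 3055572), (27, 2925360), (28, 3046980), (30, 2507880), (35, 3090240), (36,
 3000000), (40, 2775180), (42, 2869320), (45, 3301380), (49, 2475150), (50, 2486790), (54,
 3000000), (56, 2775180), (60, 2853840), (63, 2864460), (70, 2980500), (75, 3158430), (81,
 3000000), (84, 3153840), (90, 3096480), (98, 3239700), (100, 3066870), (105, 3116220), (125,
 2869470), (126, 3096480), (135, 2924640), (140, 2794620), (147, 2872320), (150, 3229860), (175,
 2797020), (189, 2924640), (196, 3068250), (210, 2911080), (225, 3005640), (245, 3319920), (250,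
 3135330), (294, 2966220), (315, 3041340), (343, 3783000), (350, 3540330), (375, 3026190), (441,
 3115290), (490, 2806470), (525, 2758470), (625, 3207150), (686, 2858640), (735, 2964960), (875,
 2903550), (1029, 2933220), (1225, 3050910), (1715, 2556000), (2401, 2700000)])))))))
 (P_free ++ xP_G_F8) = true := by decide +kernel

end Pool.Agent.Helper62.TW
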