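import Pool.Agent.Helper62.TW.Goals

/-!
# Case trees, part 11 (generated)
-/

set_option autoImplicit false
set_option maxRecDepth 100000
set_option linter.all false

namespace Pool.Agent.Helper62.TW

open Pool.Agent.Helper83.Cert

theorem t_A_F1_c2 : chk ROp gP_A_F1
 (.split [(1, -69), (3, 100)]
 (.rule 5 (.rule 6 (.cut 1 [(1, 3), (3, -2)] (.add (.add (.mul (.g 8) (.pp [(1, 1)])) (.mul (.g 13)
 (.pp [(1, 1)]))) (.add (.mul (.g 5) (.pp [(1, 1)])) (.mul (.g 7) (.pp [(1, 1)])))) (.rule 8 (.leaf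
 1200000000 (.add (.add (.add (.add (.mul (.g 8) (.add (.add (.mul (.g 17) (.add (.add (.pp [(1,
 2305284000000)]) (.mul (.g 7) (.add (.add (.mul (.g 5) (.pp [(1, 556320000000)])) (.mul (.g 7)
 (.pp [(1, 1024344000000)]))) (.add (.mul (.g 8) (.pp [(1, 1406172000000)])) (.mul (.g 9) (.pp [(1,
 11725656000000)])))))) (.add (.mul (.g 17) (.add (.mul (.g 5) (.pp [(1, 4375908000000)])) (.add
 (.mul (.g 8) (.pp [(1, 884280000000)])) (.mul (.g 17) (.pp [(1, 884400000000)]))))) (.mul (.g 6)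
 (.add (.mul (.g 4) (.pp [(1, 6122280000)])) (.mul (.g 6) (.pp [(1, 3819216000000)]))))))) (.add
 (.mul (.g 7) (.add (.mul (.g 7) (.add (.mul (.g 7) (.pp [(1, 153144000000)])) (.mul (.g 9) (.pp
 [(1, 10467024000000)])))) (.add (.mul (.g 15) (.add (.mul (.g 8) (.pp [(1, 3184812000000)])) (.mul
 (.g 12) (.pp [(1, 273366000000)])))) (.mul (.g 9) (.mul (.g 14) (.pp [(1, 2129464800000)]))))))
 (.mul (.g 13) (.add (.pp [(1, 591510000000)]) (.add (.mul (.g 8) (.add (.mul (.g 5) (.pp [(1,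
 111168000000)])) (.add (.mul (.g 6) (.pp [(1, 1215624000000)])) (.mul (.g 13) (.pp [(1,
 3533334000000)]))))) (.mul (.g 6) (.mul (.g 9) (.pp [(1, 1806144000000)])))))))) (.add (.add (.mul
 (.g 12) (.add (.mul (.pp [(1, 3128040)]) (.sq [(1, 9), (2, 100), (3, -35), (5, 66), (7, 98)]))
 (.add (.mul (.g 6) (.add (.mul (.g 4) (.pp [(1, 5800758000)])) (.mul (.g 6) (.pp [(1,
 189905400000)])))) (.mul (.g 8) (.mul (.g 9) (.pp [(1, 146980800000)])))))) (.mul (.g 15) (.add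
 (.mul (.pp [(1, 262304400)]) (.sq [(1, 22), (2, -28), (3, -75), (5, 100), (7, 56)])) (.mul (.g 11)
 (.mul (.g 14) (.pp [(1, 3402535200000)])))))) (.add (.mul (.g 5) (.mul (.pp [(1, 723024000)]) (.sq
 [(1, 4), (2, -3), (3, -36), (5, 50)]))) (.mul (.g 9) (.mul (.pp [(1, 163690800)]) (.sq [(1, -5),
 (2, 63), (3, 57), (5, -100), (7, -97)]))))))) (.add (.mul (.g 17) (.add (.add (.add (.mul (.g 7)
 (.add (.mul (.pp [(1, 137217600)]) (.sq [(1, -11), (2, 78), (3, -9), (5, 50), (7, 100)])) (.add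
 (.mul (.g 4) (.mul (.g 7) (.pp [(1, 29030640000)]))) (.mul (.g 9) (.mul (.g 14) (.pp [(1,
 965767200000)])))))) (.mul (.g 10) (.add (.mul (.pp [(1, 2857200)]) (.sq [(1, 62), (2, 73), (3,
 21), (5, 100), (7, -45)])) (.add (.mul (.pp [(1, 129520800)]) (.sq [(1, 3), (2, 33), (3, -44), (5,
 93), (7, 100)])) (.mul (.pp [(1, 171876000)]) (.sq [(1, 9), (2, 56), (3, -33), (5, -7), (7,
 100)])))))) (.add (.mul (.g 15) (.add (.pp [(1, 69624000000)]) (.add (.mul (.pp [(1, 1470907200)])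
 (.sq [(2, 29), (3, 50), (7, -4)])) (.mul (.g 6) (.mul (.g 14) (.pp [(1, 582842400000)])))))) (.mul
 (.g 9) (.add (.pp [(1, 1447344000000)]) (.mul (.pp [(1, 58970400)]) (.sq [(1, -73), (2, 76), (3,
 4), (5, 4), (7, 100)])))))) (.add (.add (.mul (.g 4) (.mul (.pp [(1, 9282336)]) (.sq [(1, -3), (2,
 -18), (3, 50), (5, 10), (7, 32)]))) (.mul (.g 6) (.mul (.pp [(1, 369103200)]) (.sq [(1, 69), (2,
 -72), (3, -100), (5, 31), (7, 72)])))) (.add (.mul (.g 11) (.mul (.g 14) (.mul (.g 14) (.pp [(1,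
 101786400000)])))) (.add (.mul (.g 12) (.pp [(1, 195874800000)])) (.mul (.g 13) (.mul (.pp [(1,
 62547600)]) (.sq [(1, -74), (2, -100), (3, 93), (5, 93), (7, 26)])))))))) (.mul (.g 10) (.add
 (.add (.mul (.g 12) (.add (.mul (.pp [(1, 25198140)]) (.sq [(1, 47), (2, 100), (3, -55), (5, -52),
 (7, 71)])) (.add (.mul (.pp [(1, 6022560)]) (.sq [(1, -6), (2, 57), (3, -38), (5, 100), (7, 75)]))
 (.mul (.g 10) (.mul (.g 11) (.pp [(1, 54280200000)])))))) (.mul (.g 5) (.mul (.g 9) (.mul (.g 9)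
 (.pp [(1, 454632000000)]))))) (.add (.mul (.g 7) (.mul (.pp [(1, 318019200)]) (.sq [(1, 44), (2,
 -6), (3, -100), (5, 19), (7, 97)]))) (.add (.mul (.g 10) (.mul (.pp [(1, 28741200)]) (.sq [(1,
 26), (2, 100), (3, 65), (5, 77), (7, -52)]))) (.mul (.g 15) (.mul (.pp [(1, 40222800)]) (.sq [(1,
 28), (2, 89), (3, -25), (5, 100), (7, 70)]))))))))) (.add (.mul (.g 13) (.add (.add (.mul (.g 13)
 (.add (.mul (.pp [(1, 24326400)]) (.sq [(1, -50), (2, -29), (3, 29), (5, 29)])) (.add (.mul (.g 5)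
 (.pp [(1, 34275000000)])) (.mul (.g 13) (.mul (.g 15) (.pp [(1, 2662342500000)])))))) (.mul (.g 4)
 (.mul (.g 11) (.pp [(1, 57856860000)])))) (.add (.mul (.g 5) (.mul (.g 7) (.mul (.g 7) (.pp [(1,
 1044960000000)])))) (.add (.mul (.g 9) (.pp [(1, 5015058000000)])) (.mul (.g 12) (.mul (.pp [(1,
 17433390)]) (.sq [(1, -8), (2, -18), (3, 100), (5, 7), (7, 78)]))))))) (.add (.mul (.g 4) (.add
 (.add (.mul (.g 9) (.add (.pp [(1, 6639840000)]) (.mul (.g 5) (.mul (.g 11) (.pp [(1,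
 67067040000)]))))) (.mul (.g 7) (.mul (.pp [(1, 3819408)]) (.sq [(1, 23), (2, -1), (3, -80), (5,
 19), (7, 100)])))) (.add (.mul (.g 12) (.pp [(1, 845124000)])) (.mul (.g 15) (.pp [(1,
 4078080000)]))))) (.mul (.g 5) (.mul (.g 7) (.add (.mul (.g 5) (.mul (.g 15) (.pp [(1,
 1124292000000)]))) (.mul (.g 7) (.mul (.g 7) (.pp [(1, 601644000000)]))))))))) (.add (.add (.mul
 (.g 9) (.add (.mul (.g 6) (.mul (.g 6) (.mul (.g 6) (.pp [(1, 1944456000000)])))) (.mul (.g 9)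
 (.mul (.pp [(1, 240237600)]) (.sq [(1, 28), (2, -83), (3, -37), (5, 100), (7, -68)]))))) (.add
 (.mul (.g 12) (.mul (.g 12) (.add (.mul (.pp [(1, 1336671)]) (.sq [(1, -26), (2, 60), (3, 43), (5,
 -10), (7, 100)])) (.mul (.pp [(1, 3480)]) (.sq [(1, 29), (2, 86), (3, 56), (5, 100), (7,
 -26)]))))) (.mul (.g 0) (.pp [(1, 1200000000)])))) (.add (.add (.mul (.g 2) (.pp [(1,
 4000000000000)])) (.mul (.g 3) (.pp [(1, 4000000000000)]))) (.add (.mul (.g 15) (.mul (.g 15)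
 (.mul (.pp [(1, 27703200)]) (.sq [(2, 89), (3, 100), (5, 43), (7, 100)])))) (.mul (.g 16) (.pp
 [(1, 4000000000)])))))) (.pp [(1, 102637732680), (2, 132688092), (3, 108326976), (4, 116229696),
 (5, 105282252), (6, 105436080), (7, 119792256), (8, 129318640), (9, 135686781), (10, 73821456),
 (12, 90600920), (14, 119872200), (15, 160595100), (16, 130375200), (18, 157709300), (20,
 85028696), (21, 106895400), (24, 99586800), (25, 132201828), (27, 109343180), (28, 150719424),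
 (30, 230326920), (35, 104450808), (36, 143594400), (40, 82906800), (42, 106743480), (45,
 62109180), (49, 118749564), (50, 167531204), (54, 95499600), (56, 127675200), (60, 205281600),
 (63, 147025200), (70, 64394688), (75, 94065090), (81, 121996800), (84, 104370000), (90, 37470000),
 (98, 105074508), (100, 167014800), (105, 187369920), (125, 128149442), (126, 117703200), (135,
 151676400), (140, 76789200), (147, 133593900), (150, 45411000), (175, 168135720), (189,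
 121767600), (196, 110684400), (210, 205089600), (225, 144190200), (245, 130679484), (250,
 102835800), (294, 147794400), (315, 68964000), (343, 121542624), (350, 150631200), (375,
 115368000), (441, 97455600), (490, 99790800), (525, 59814000), (625, 111631800), (686, 106845600),
 (735, 122000400), (875, 91189200), (1029, 124347600), (1225, 116436000), (1715, 118069200), (2401,
 120000000)])))))))
 (.rule 5 (.rule 6 (.cut 2 [(1, -7), (3, 50)] (.add (.mul (.g 4) (.pp [(1, 65)])) (.mul (.g 12)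
 (.pp [(1, 7)]))) (.rule 7 (.leaf 30000000 (.add (.add (.add (.add (.mul (.g 8) (.add (.add (.mul
 (.g 8) (.add (.add (.mul (.g 14) (.add (.pp [(1, 901200000)]) (.add (.mul (.g 7) (.pp [(1,
 1200000)])) (.mul (.g 17) (.pp [(1, 600000)]))))) (.add (.mul (.g 6) (.add (.pp [(1, 6058200000)])
 (.mul (.g 4) (.pp [(1, 198423000)])))) (.mul (.g 8) (.add (.mul (.g 9) (.pp [(1, 3349500000)]))
 (.mul (.g 11) (.pp [(1, 300000)])))))) (.add (.mul (.g 5) (.mul (.g 7) (.pp [(1, 8747400000)])))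
 (.add (.mul (.g 9) (.mul (.g 11) (.pp [(1, 5604900000)]))) (.mul (.g 12) (.pp [(1,
 171855000)])))))) (.add (.mul (.g 6) (.add (.mul (.g 7) (.add (.mul (.g 4) (.pp [(1, 296742000)]))
 (.add (.mul (.g 7) (.pp [(1, 841500000)])) (.mul (.g 12) (.pp [(1, 439875000)]))))) (.add (.mul
 (.g 12) (.add (.mul (.g 5) (.pp [(1, 8327385000)])) (.mul (.g 6) (.pp [(1, 51825000)])))) (.mul
 (.g 17) (.add (.mul (.g 9) (.pp [(1, 7776300000)])) (.mul (.g 15) (.pp [(1, 19842300000)])))))))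
 (.mul (.g 5) (.add (.mul (.g 9) (.add (.mul (.g 7) (.pp [(1, 386510100000)])) (.mul (.g 17) (.pp
 [(1, 390807000000)])))) (.add (.mul (.g 4) (.mul (.g 11) (.pp [(1, 1424229000)]))) (.mul (.g 17)
 (.pp [(1, 94547400000)]))))))) (.add (.add (.mul (.g 12) (.add (.pp [(1, 1173240000)]) (.mul (.pp
 [(1, 21)]) (.sq [(1, 59), (2, 46), (3, 17), (5, 22), (7, 100)])))) (.mul (.g 14) (.add (.pp [(1,
 1241760000)]) (.mul (.g 9) (.mul (.g 11) (.pp [(1, 4543800000)])))))) (.add (.mul (.g 7) (.mul (.g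
 7) (.mul (.g 15) (.pp [(1, 9210900000)])))) (.mul (.g 17) (.mul (.pp [(1, 1800)]) (.sq [(1, 50),
 (2, 31), (3, 41), (5, 41), (7, 41)]))))))) (.add (.mul (.g 7) (.add (.add (.mul (.g 7) (.add (.add
 (.mul (.g 4) (.add (.mul (.g 4) (.pp [(1, 2253120)])) (.mul (.g 6) (.pp [(1, 238050000)])))) (.mul
 (.g 9) (.add (.mul (.g 5) (.pp [(1, 4775700000)])) (.mul (.g 9) (.pp [(1, 11645700000)]))))) (.add
 (.mul (.g 17) (.add (.mul (.g 6) (.pp [(1, 422400000)])) (.mul (.g 11) (.pp [(1, 4500000)]))))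
 (.mul (.g 13) (.pp [(1, 20573100000)]))))) (.add (.mul (.g 4) (.add (.pp [(1, 139476000)]) (.add
 (.mul (.g 5) (.mul (.g 5) (.pp [(1, 60726000)]))) (.mul (.g 14) (.mul (.g 14) (.pp [(1,
 94080)])))))) (.mul (.g 5) (.add (.mul (.g 5) (.mul (.g 5) (.pp [(1, 3335700000)]))) (.mul (.g 10)
 (.mul (.g 15) (.pp [(1, 1788300000)]))))))) (.add (.mul (.g 9) (.mul (.g 11) (.add (.mul (.g 9)
 (.pp [(1, 2246100000)])) (.mul (.g 17) (.pp [(1, 1099200000)]))))) (.add (.mul (.g 13) (.pp [(1,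
 8065350000)])) (.mul (.g 17) (.pp [(1, 20072700000)])))))) (.mul (.g 6) (.add (.add (.mul (.g 6)
 (.add (.mul (.g 6) (.add (.mul (.g 9) (.pp [(1, 2655600000)])) (.mul (.g 17) (.pp [(1,
 1040100000)])))) (.add (.mul (.g 12) (.add (.pp [(1, 3391530000)]) (.mul (.g 5) (.pp [(1,
 360780000)])))) (.mul (.g 4) (.mul (.g 14) (.pp [(1, 853800)])))))) (.mul (.g 13) (.add (.mul (.g
 11) (.pp [(1, 168336150000)])) (.mul (.g 12) (.pp [(1, 658695000)]))))) (.add (.mul (.g 14) (.add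
 (.mul (.g 9) (.pp [(1, 1923240000)])) (.mul (.g 14) (.pp [(1, 417252000)])))) (.mul (.g 17) (.pp
 [(1, 21315000000)]))))))) (.add (.mul (.g 5) (.add (.add (.mul (.g 17) (.add (.add (.pp [(1,
 12347700000)]) (.mul (.pp [(1, 372030)]) (.sq [(1, -46), (2, 100), (3, -25), (5, 59), (7, -52)])))
 (.add (.mul (.pp [(1, 262680)]) (.sq [(1, 52), (2, 38), (3, 23), (5, 34), (7, 100)])) (.mul (.g 5)
 (.mul (.g 5) (.pp [(1, 2892000000)])))))) (.mul (.g 9) (.mul (.g 14) (.add (.pp [(1,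
 42985680000)]) (.mul (.g 15) (.pp [(1, 10680000)])))))) (.add (.mul (.g 12) (.mul (.g 12) (.mul
 (.g 15) (.pp [(1, 6276750)])))) (.mul (.g 13) (.mul (.g 13) (.pp [(1, 25577325000)])))))) (.add
 (.mul (.g 13) (.add (.mul (.g 13) (.mul (.g 13) (.add (.mul (.g 9) (.pp [(1, 491625000)])) (.mul
 (.g 15) (.pp [(1, 423975000)]))))) (.mul (.g 4) (.pp [(1, 619732500)])))) (.mul (.g 14) (.add
 (.mul (.g 9) (.pp [(1, 16876020000)])) (.add (.mul (.g 14) (.pp [(1, 1044072000)])) (.mul (.g 17)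
 (.pp [(1, 6517560000)])))))))) (.add (.add (.mul (.g 17) (.add (.mul (.pp [(1, 334620)]) (.sq [(2,
 46), (3, 85), (5, 85), (7, 100)])) (.mul (.g 10) (.mul (.pp [(1, 150)]) (.sq [(1, 32), (2, 65),
 (3, -50), (5, 100), (7, 94)]))))) (.add (.mul (.g 0) (.pp [(1, 60000000)])) (.mul (.g 2) (.pp [(1,
 100000000000)])))) (.add (.mul (.g 3) (.pp [(1, 100000000000)])) (.add (.mul (.g 4) (.mul (.g 4)
 (.pp [(1, 8294580)]))) (.mul (.g 16) (.pp [(1, 100000000)])))))) (.pp [(1, 5760223020), (2,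
 3198450), (3, 3392100), (4, 2900970), (5, 3259620), (6, 2867790), (7, 2969109), (8, 2956330), (9,
 2844900), (10, 3437760), (12, 3384110), (14, 2784792), (15, 2494800), (16, 3000000), (18,
 2988530), (20, 2819660), (21, 2875914), (24, 3000000), (25, 2582580), (27, 3104000), (28,
 3010914), (30, 2750940), (35, 2899824), (36, 2850000), (40, 3143670), (42, 2932716), (45,
 3211500), (49, 3022200), (50, 3102530), (54, 2925000), (56, 3132390), (60, 2605890), (63,
 2985801), (70, 2836536), (75, 3135000), (81, 2925000), (84, 2974050), (90, 3151470), (98,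
 2907600), (100, 2885370), (105, 2930532), (125, 3069500), (126, 2990970), (135, 3000000), (140,
 3115530), (147, 2781000), (150, 3043020), (175, 3102456), (189, 3103620), (196, 2782800), (210,
 2813820), (225, 3000000), (245, 3092400), (250, 2919510), (294, 3102600), (315, 3025260), (343,
 3069600), (350, 2908230), (375, 2925000), (441, 3007800), (490, 3164640), (525, 2924160), (625,
 3000000), (686, 2670120), (735, 3091800), (875, 3002520), (1029, 3226200), (1225, 3084000), (1715,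
 3252000), (2401, 3025800)]))))))))
 (P_c2 ++ xP_A_F1) = true := by decide +kernel

theorem t_A_F1_Op0 : chk ROp gP_A_F1
 (.split [(1, 1), (2, -20)]
 (.split [(1, -69), (3, 100)]
 (.cut 1 [(1, 3), (3, -2)] (.add (.add (.mul (.g 2) (.pp [(1, 18)])) (.mul (.g 7) (.pp [(1, 2)])))
 (.add (.mul (.g 4) (.pp [(1, 2)])) (.mul (.g 1) (.pp [(1, 1)])))) (.rule 8 (.rule 4 (.leaf
 1200000000 (.add (.add (.add (.add (.mul (.g 6) (.add (.add (.mul (.g 7) (.add (.add (.add (.mul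
 (.g 8) (.add (.pp [(1, 276000000)]) (.mul (.g 8) (.pp [(1, 12912000000)])))) (.mul (.g 9) (.add
 (.mul (.g 11) (.pp [(1, 12000000)])) (.mul (.g 13) (.pp [(1, 192000000)]))))) (.add (.mul (.g 3)
 (.mul (.g 3) (.pp [(1, 27600)]))) (.mul (.g 4) (.pp [(1, 600003000000)])))) (.add (.add (.mul (.g
 5) (.mul (.g 5) (.pp [(1, 60000000)]))) (.mul (.g 6) (.pp [(1, 1536000000)]))) (.add (.mul (.g 7)
 (.mul (.g 7) (.pp [(1, 444000000)]))) (.mul (.g 15) (.pp [(1, 60000000)])))))) (.add (.mul (.g 6)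
 (.add (.add (.pp [(1, 963912000000)]) (.add (.mul (.g 8) (.add (.mul (.g 3) (.pp [(1, 1320000)]))
 (.mul (.g 10) (.pp [(1, 108000000)])))) (.mul (.g 4) (.pp [(1, 15000000)])))) (.add (.mul (.g 9)
 (.mul (.g 12) (.pp [(1, 7800000)]))) (.add (.mul (.g 10) (.pp [(1, 600000000)])) (.mul (.g 15)
 (.pp [(1, 444000000)])))))) (.mul (.g 4) (.add (.add (.pp [(1, 7200000)]) (.mul (.pp [(1, 1920)])
 (.sq [(1, 43), (2, 50), (3, 50), (5, 50), (7, 50)]))) (.add (.mul (.g 5) (.pp [(1, 2400000)]))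
 (.mul (.g 8) (.pp [(1, 600000)]))))))) (.add (.add (.mul (.g 8) (.add (.mul (.g 8) (.add (.mul (.g
 5) (.pp [(1, 144000000)])) (.mul (.g 12) (.pp [(1, 9600000)])))) (.mul (.g 15) (.pp [(1,
 72000000)])))) (.mul (.g 3) (.add (.pp [(1, 31150200000)]) (.mul (.g 11) (.mul (.g 13) (.pp [(1,
 1200000)])))))) (.add (.mul (.g 15) (.add (.pp [(1, 600636000000)]) (.mul (.pp [(1, 15600)]) (.sq
 [(2, -3), (3, -95), (5, 100), (7, -85)])))) (.mul (.g 9) (.mul (.g 10) (.mul (.g 11) (.pp [(1,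
 24000000)])))))))) (.mul (.g 7) (.add (.add (.add (.pp [(1, 596412000000)]) (.mul (.g 8) (.add
 (.add (.pp [(1, 1011072000000)]) (.mul (.pp [(1, 8400)]) (.sq [(1, 20), (2, 29), (3, 100), (5,
 -36), (7, 100)]))) (.add (.mul (.g 7) (.add (.mul (.g 3) (.pp [(1, 600000)])) (.mul (.g 8) (.pp
 [(1, 13536000000)])))) (.add (.mul (.g 5) (.mul (.g 11) (.pp [(1, 84000000)]))) (.mul (.g 8) (.mul
 (.g 10) (.pp [(1, 13416000000)])))))))) (.add (.mul (.g 15) (.add (.add (.pp [(1, 252000000)])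
 (.mul (.pp [(1, 2400)]) (.sq [(1, 100), (2, 81), (3, 81), (5, 81), (7, 81)]))) (.add (.mul (.g 5)
 (.mul (.g 5) (.pp [(1, 264000000)]))) (.mul (.g 15) (.mul (.g 15) (.pp [(1, 12000000)])))))) (.mul
 (.g 4) (.add (.pp [(1, 18000000)]) (.add (.mul (.g 5) (.pp [(1, 25800000)])) (.mul (.g 7) (.pp
 [(1, 21000000)]))))))) (.add (.add (.mul (.g 5) (.mul (.g 5) (.mul (.g 5) (.pp [(1,
 279492000000)])))) (.mul (.g 7) (.mul (.g 7) (.pp [(1, 12000000)])))) (.add (.mul (.g 10) (.mul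
 (.pp [(1, 13200)]) (.sq [(1, 86), (2, 31), (3, 100), (5, 94), (7, 17)]))) (.mul (.g 12) (.mul (.pp
 [(1, 180)]) (.sq [(1, 36), (2, 100), (3, 29), (5, -89), (7, -69)])))))))) (.add (.mul (.g 8) (.add
 (.add (.mul (.g 15) (.add (.add (.pp [(1, 1011000000000)]) (.mul (.pp [(1, 38400)]) (.sq [(1, -2),
 (2, 50), (3, -18), (5, -5), (7, 46)]))) (.add (.mul (.pp [(1, 19200)]) (.sq [(1, 50), (2, 31), (3,
 41), (5, 41), (7, 41)])) (.add (.mul (.g 5) (.add (.mul (.g 8) (.pp [(1, 13272000000)])) (.mul (.g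
 9) (.pp [(1, 228000000)])))) (.mul (.g 8) (.pp [(1, 13476000000)])))))) (.mul (.g 4) (.add (.mul
 (.g 8) (.add (.pp [(1, 997386600000)]) (.mul (.g 8) (.pp [(1, 13310400000)])))) (.mul (.g 5) (.pp
 [(1, 996717600000)]))))) (.add (.mul (.g 5) (.add (.pp [(1, 17592084000000)]) (.mul (.g 5) (.mul
 (.g 8) (.pp [(1, 15930972000000)]))))) (.mul (.g 3) (.pp [(1, 6003360000)]))))) (.add (.mul (.g 5)
 (.add (.pp [(1, 1905480000000)]) (.mul (.g 5) (.add (.pp [(1, 3463104000000)]) (.mul (.g 5) (.add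
 (.add (.pp [(1, 477864000000)]) (.mul (.g 4) (.pp [(1, 7863000000)]))) (.add (.mul (.g 13) (.pp
 [(1, 156000000)])) (.mul (.g 15) (.pp [(1, 279672000000)]))))))))) (.mul (.g 0) (.pp [(1,
 4000000000000)]))))) (.add (.add (.mul (.g 1) (.pp [(1, 1200000000)])) (.add (.mul (.g 3) (.pp
 [(1, 16386000000)])) (.mul (.g 4) (.mul (.g 12) (.mul (.pp [(1, 3)]) (.sq [(1, 7), (2, -2), (3,
 65), (5, 100), (7, -80)])))))) (.add (.mul (.g 10) (.mul (.g 11) (.mul (.pp [(1, 24000)]) (.sq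
 [(1, 9), (2, 50), (3, 4), (5, 10), (7, 19)])))) (.add (.mul (.g 14) (.pp [(1, 4000000000000)]))
 (.mul (.g 15) (.pp [(1, 596952000000)])))))) (.pp [(1, 332082001323), (2, 121919724), (3,
 115127550), (4, 119498748), (5, 136563180), (6, 121402260), (7, 135656160), (8, 126631680), (9,
 130019475), (10, 121849680), (12, 115306560), (14, 127314240), (15, 128616960), (16, 119995200),
 (18, 119235600), (20, 118904160), (21, 129237600), (24, 117916800), (25, 119093040), (27,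
 120700500), (28, 120547200), (30, 121878000), (35, 111207840), (36, 119802000), (40, 107799600),
 (42, 125138400), (45, 122457720), (49, 114072000), (50, 117861600), (54, 121902000), (56,
 117216000), (60, 122193600), (63, 126007200), (70, 108547200), (75, 122742360), (81, 120384000),
 (84, 117452400), (90, 120141600), (98, 119985600), (100, 117342000), (105, 105759960), (125,
 109136820), (126, 118716000), (135, 116450400), (140, 117044400), (147, 112366800), (150,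
 117919200), (175, 108255240), (189, 120438000), (196, 115435200), (210, 107344800), (225,
 121686000), (245, 112639620), (250, 115582800), (294, 121994400), (315, 115706400), (343,
 123724800), (350, 99912000), (375, 105075600), (441, 113320800), (490, 97502400), (525,
 104875200), (625, 118266000), (686, 105446400), (735, 99428400), (875, 112680000), (1029,
 113670000), (1225, 99180000), (1715, 104162400), (2401, 113529600)]))))))
 (.split [(1, -7), (3, 50)]
 (.rule 7 (.rule 4 (.leaf 30000 (.add (.add (.add (.mul (.pp [(1, 60000)]) (.sq [(1, -7), (3, 50),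
 (10, -50)])) (.mul (.g 5) (.add (.add (.mul (.g 7) (.add (.add (.mul (.g 4) (.add (.add (.mul (.g
 5) (.pp [(1, 150)])) (.mul (.g 6) (.pp [(1, 150)]))) (.add (.mul (.g 7) (.pp [(1, 4355430)]))
 (.mul (.g 8) (.pp [(1, 11732565)]))))) (.add (.mul (.g 15) (.add (.add (.pp [(1, 4353300)]) (.mul
 (.g 5) (.pp [(1, 62894400)]))) (.add (.mul (.g 6) (.pp [(1, 3000)])) (.mul (.g 7) (.pp [(1,
 3000)]))))) (.mul (.g 8) (.add (.pp [(1, 497975700)]) (.mul (.g 8) (.pp [(1, 6990000)])))))) (.add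
 (.mul (.g 3) (.mul (.g 6) (.pp [(1, 30)]))) (.add (.mul (.g 5) (.pp [(1, 23669100)])) (.mul (.g
 10) (.pp [(1, 8100)])))))) (.add (.mul (.g 8) (.add (.add (.mul (.g 3) (.add (.pp [(1, 51)]) (.add
 (.mul (.g 6) (.pp [(1, 30)])) (.mul (.g 8) (.pp [(1, 30)]))))) (.mul (.g 4) (.add (.pp [(1,
 5729760)]) (.add (.mul (.g 5) (.pp [(1, 349650)])) (.mul (.g 6) (.pp [(1, 150)])))))) (.add (.mul
 (.g 15) (.add (.pp [(1, 207815400)]) (.add (.mul (.g 8) (.pp [(1, 6993000)])) (.mul (.g 9) (.pp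
 [(1, 297542700)]))))) (.mul (.g 5) (.mul (.g 8) (.pp [(1, 100734300)])))))) (.mul (.g 5) (.add
 (.add (.mul (.g 4) (.add (.mul (.g 5) (.pp [(1, 196650)])) (.mul (.g 6) (.pp [(1, 150)])))) (.mul
 (.g 3) (.pp [(1, 33)]))) (.add (.mul (.g 5) (.pp [(1, 18940200)])) (.mul (.g 15) (.pp [(1,
 86574900)]))))))) (.add (.mul (.g 3) (.add (.pp [(1, 66)]) (.mul (.g 6) (.add (.pp [(1, 51)])
 (.mul (.g 6) (.pp [(1, 30)])))))) (.add (.mul (.g 4) (.mul (.g 6) (.mul (.g 6) (.pp [(1, 150)]))))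
 (.mul (.g 15) (.pp [(1, 46364400)]))))))) (.add (.mul (.g 0) (.pp [(1, 100000000)])) (.add (.mul
 (.g 1) (.pp [(1, 60000)])) (.mul (.g 14) (.pp [(1, 100000000)]))))) (.pp [(2, 1271046), (4, 2823),
 (6, 3081), (8, 3150), (10, 3000), (12, 3150), (14, 3021), (16, 3000), (18, 2880), (20, 3150), (24,
 3000), (28, 3150), (30, 2880), (36, 3000), (40, 3000), (42, 2880), (50, 2970), (54, 3000), (56,
 3000), (60, 3000), (70, 3135), (84, 3000), (90, 3000), (98, 3030), (100, 3000), (126, 3000), (140,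
 3000), (150, 3000), (196, 3000), (210, 3000), (250, 3000), (294, 3000), (350, 3000), (490, 3000),
 (686, 3000)])))))
 (.rule 4 (.leaf 30000 (.add (.add (.mul (.g 4) (.add (.add (.mul (.g 6) (.add (.add (.pp [(1,
 3327000)]) (.mul (.g 3) (.add (.add (.pp [(1, 165)]) (.mul (.g 4) (.pp [(1, 150)]))) (.add (.mul
 (.g 5) (.pp [(1, 150)])) (.add (.mul (.g 6) (.pp [(1, 150)])) (.mul (.g 7) (.pp [(1, 150)])))))))
 (.add (.mul (.g 1) (.add (.add (.pp [(1, 6000072)]) (.mul (.g 5) (.pp [(1, 60)]))) (.add (.mul (.g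
 6) (.pp [(1, 60)])) (.mul (.g 7) (.pp [(1, 60)]))))) (.add (.mul (.g 7) (.add (.pp [(1,
 449169300)]) (.mul (.g 7) (.pp [(1, 6990000)])))) (.mul (.g 14) (.add (.pp [(1, 6600)]) (.mul (.g
 6) (.pp [(1, 3000)])))))))) (.add (.mul (.g 7) (.add (.add (.mul (.g 1) (.add (.pp [(1, 1123872)])
 (.add (.mul (.g 5) (.pp [(1, 60)])) (.mul (.g 7) (.pp [(1, 60)]))))) (.mul (.g 3) (.add (.pp [(1,
 22126125)]) (.add (.mul (.g 4) (.pp [(1, 349650)])) (.mul (.g 5) (.pp [(1, 150)])))))) (.add (.mul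
 (.g 7) (.add (.mul (.g 4) (.pp [(1, 398277000)])) (.mul (.g 14) (.pp [(1, 6993000)])))) (.add
 (.mul (.g 11) (.pp [(1, 2809515)])) (.mul (.g 14) (.pp [(1, 505356300)])))))) (.mul (.g 1) (.add
 (.pp [(1, 72)]) (.add (.mul (.g 4) (.add (.pp [(1, 60)]) (.mul (.g 4) (.pp [(1, 60)])))) (.mul (.g
 5) (.add (.pp [(1, 72)]) (.mul (.g 5) (.pp [(1, 60)]))))))))) (.add (.mul (.g 4) (.add (.pp [(1,
 86576700)]) (.mul (.g 4) (.add (.pp [(1, 18939900)]) (.mul (.g 3) (.pp [(1, 196650)])))))) (.add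
 (.mul (.g 3) (.mul (.g 5) (.mul (.g 5) (.pp [(1, 150)])))) (.mul (.g 14) (.pp [(1,
 45337200)])))))) (.add (.mul (.g 0) (.pp [(1, 100000000)])) (.mul (.g 13) (.pp [(1,
 100000000)])))) (.pp [(2, 2302296), (4, 2880), (6, 3096), (8, 3030), (10, 2931), (12, 3000), (14,
 3306), (16, 3000), (18, 3030), (19, 300000000), (20, 3150), (24, 3000), (28, 3150), (30, 3030),
 (36, 3000), (40, 3000), (42, 2730), (50, 3030), (54, 3000), (56, 3000), (60, 3000), (70, 2730),
 (84, 3000), (90, 3000), (98, 2880), (100, 3000), (126, 3000), (140, 3000), (150, 3000), (196,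
 3000), (210, 3000), (250, 3000), (294, 3000), (350, 3000), (490, 3000), (686, 3000)]))))))
 (.split [(1, -69), (3, 100)]
 (.rule 5 (.rule 6 (.cut 1 [(1, 3), (3, -2)] (.add (.add (.mul (.g 9) (.pp [(1, 1)])) (.mul (.g 12)
 (.pp [(1, 1)]))) (.add (.mul (.g 6) (.pp [(1, 1)])) (.mul (.g 8) (.pp [(1, 1)])))) (.rule 8 (.leaf
 600000000 (.add (.add (.add (.add (.mul (.g 9) (.add (.add (.mul (.pp [(1, 17532000)]) (.sq [(2,
 24), (5, 100), (7, -65)])) (.add (.mul (.g 16) (.add (.add (.pp [(1, 1255980000000)]) (.add (.mul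
 (.pp [(1, 2126400)]) (.sq [(1, 50), (2, 31), (3, 41), (5, 41), (7, 41)])) (.mul (.g 9) (.add (.add
 (.pp [(1, 56424000000)]) (.mul (.g 4) (.pp [(1, 668220000)]))) (.add (.mul (.g 8) (.pp [(1,
 63258000000)])) (.add (.mul (.g 11) (.pp [(1, 76488000000)])) (.mul (.g 16) (.pp [(1,
 1176000000)])))))))) (.add (.mul (.g 6) (.add (.pp [(1, 1070226000000)]) (.add (.mul (.g 8) (.pp
 [(1, 222984000000)])) (.mul (.g 10) (.pp [(1, 7774644000000)]))))) (.add (.mul (.g 4) (.mul (.g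
 16) (.pp [(1, 105840000)]))) (.mul (.g 8) (.pp [(1, 220458000000)])))))) (.mul (.g 10) (.add (.add
 (.mul (.pp [(1, 11208600)]) (.sq [(1, -30), (2, 29), (3, -27), (5, 100), (7, -50)])) (.mul (.g 5)
 (.add (.pp [(1, 50072400000)]) (.add (.mul (.g 8) (.pp [(1, 386203500000)])) (.mul (.g 10) (.pp
 [(1, 6897600000)])))))) (.add (.mul (.g 14) (.add (.mul (.g 4) (.pp [(1, 95880000)])) (.add (.mul
 (.g 6) (.pp [(1, 823524000000)])) (.mul (.g 9) (.pp [(1, 358164000000)]))))) (.mul (.g 9) (.mul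
 (.g 12) (.pp [(1, 189192000000)])))))))) (.add (.add (.mul (.g 4) (.add (.mul (.g 6) (.add (.pp
 [(1, 10782900000)]) (.mul (.g 4) (.pp [(1, 18877200)])))) (.add (.mul (.g 7) (.add (.mul (.g 13)
 (.pp [(1, 43686000)])) (.mul (.g 14) (.pp [(1, 544440000)])))) (.mul (.g 8) (.add (.pp [(1,
 2088780000)]) (.mul (.g 8) (.pp [(1, 438540000)]))))))) (.mul (.g 9) (.add (.mul (.pp [(1,
 259200)]) (.sq [(1, 9), (2, 83), (3, -6), (5, 100), (7, -95)])) (.add (.mul (.g 14) (.add (.mul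
 (.g 11) (.pp [(1, 304764000000)])) (.mul (.g 12) (.pp [(1, 268008000000)])))) (.mul (.g 13) (.pp
 [(1, 26312100000)])))))) (.add (.mul (.g 8) (.mul (.g 8) (.mul (.g 11) (.pp [(1, 16788000000)]))))
 (.mul (.g 13) (.pp [(1, 29086800000)])))))) (.add (.mul (.g 4) (.add (.add (.mul (.g 7) (.add
 (.add (.pp [(1, 13302120000)]) (.add (.mul (.g 8) (.add (.mul (.g 4) (.pp [(1, 23705400)])) (.add
 (.mul (.g 8) (.pp [(1, 2848020000)])) (.mul (.g 11) (.pp [(1, 2218020000)]))))) (.mul (.g 6) (.add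
 (.mul (.g 10) (.pp [(1, 1248660000)])) (.mul (.g 14) (.pp [(1, 74940000)])))))) (.add (.mul (.g 4)
 (.mul (.g 4) (.pp [(1, 13254)]))) (.add (.mul (.g 5) (.mul (.g 10) (.pp [(1, 314283000)]))) (.mul
 (.g 7) (.pp [(1, 93420000)])))))) (.mul (.g 8) (.add (.pp [(1, 2427660000)]) (.add (.mul (.g 8)
 (.mul (.g 14) (.pp [(1, 610620000)]))) (.mul (.g 12) (.mul (.g 16) (.pp [(1, 112560000)])))))))
 (.add (.mul (.g 10) (.add (.pp [(1, 5066160000)]) (.mul (.g 6) (.mul (.g 10) (.pp [(1,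
 6687720000)]))))) (.mul (.g 16) (.pp [(1, 6550140000)]))))) (.mul (.g 6) (.add (.mul (.g 16) (.add
 (.add (.pp [(1, 332862000000)]) (.mul (.pp [(1, 14721600)]) (.sq [(1, -37), (2, 1), (3, -79), (5,
 100), (7, -42)]))) (.add (.mul (.g 6) (.mul (.g 7) (.pp [(1, 1080732000000)]))) (.mul (.g 8) (.mul
 (.g 16) (.pp [(1, 247590000000)])))))) (.add (.mul (.g 11) (.add (.mul (.g 8) (.add (.pp [(1,
 1432818000000)]) (.mul (.g 8) (.pp [(1, 163800000000)])))) (.mul (.g 7) (.pp [(1,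
 1551942000000)])))) (.mul (.g 13) (.mul (.pp [(1, 2974980)]) (.sq [(1, -17), (2, 100), (3, 3), (5,
 -36), (7, 21)])))))))) (.add (.mul (.g 11) (.add (.add (.mul (.g 5) (.add (.pp [(1, 24202500000)])
 (.mul (.g 7) (.pp [(1, 4585800000)])))) (.mul (.g 8) (.pp [(1, 943302000000)]))) (.add (.mul (.g
 11) (.mul (.pp [(1, 2194800)]) (.sq [(1, 35), (2, 100), (3, -39), (5, -39), (7, -43)]))) (.mul (.g
 13) (.mul (.pp [(1, 83430)]) (.sq [(1, 20), (2, 7), (3, 100), (5, -53), (7, 80)])))))) (.add (.mul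
 (.g 10) (.add (.mul (.g 10) (.add (.mul (.g 12) (.add (.mul (.g 12) (.pp [(1, 129294000000)]))
 (.mul (.g 13) (.pp [(1, 27015300000)])))) (.mul (.g 8) (.mul (.g 16) (.pp [(1, 377994000000)])))))
 (.mul (.g 16) (.mul (.pp [(1, 376800)]) (.sq [(1, 42), (2, -62), (3, -27), (5, 100), (7,
 -17)]))))) (.mul (.g 5) (.mul (.g 5) (.mul (.g 5) (.add (.mul (.g 8) (.pp [(1, 25142250)])) (.mul
 (.g 13) (.pp [(1, 1098225)]))))))))) (.add (.add (.mul (.g 16) (.add (.mul (.g 7) (.mul (.pp [(1,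
 2670000)]) (.sq [(1, 90), (2, 100), (3, 71), (5, 71), (7, 71)]))) (.mul (.g 16) (.pp [(1,
 690258000000)])))) (.add (.mul (.g 0) (.pp [(1, 600000000)])) (.mul (.g 2) (.pp [(1,
 2000000000000)])))) (.add (.mul (.g 3) (.pp [(1, 2000000000000)])) (.add (.mul (.g 12) (.mul (.g
 12) (.mul (.pp [(1, 129000)]) (.sq [(1, 67), (2, 68), (3, -16), (5, -100), (7, 47)])))) (.mul (.g
 15) (.pp [(1, 2000000000000)])))))) (.pp [(1, 31606358775), (2, 59790780), (3, 60114186), (4,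
 55454430), (5, 60173550), (6, 70434960), (7, 54357600), (8, 63751630), (9, 57154800), (10,
 69567540), (12, 53175970), (14, 59050920), (15, 45183000), (16, 49265400), (18, 60534580), (20,
 53732830), (21, 52938000), (24, 77413200), (25, 50840430), (27, 58971600), (28, 63927000), (30,
 60109620), (35, 61192800), (36, 47319000), (40, 80390400), (42, 57562920), (45, 61446000), (49,
 67542000), (50, 62308690), (54, 65317200), (56, 58599000), (60, 44050800), (63, 59143800), (70,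
 64872960), (75, 69549570), (81, 60685200), (84, 57591600), (90, 63055200), (98, 56890020), (100,
 43836000), (105, 61080000), (125, 64622370), (126, 61968600), (135, 60298800), (140, 59791200),
 (147, 58851600), (150, 75003600), (175, 63471600), (189, 61726800), (196, 61210200), (210,
 72938400), (225, 57348600), (245, 55240800), (250, 64644000), (294, 60216000), (315, 58384800),
 (343, 61468800), (350, 54902400), (375, 56541600), (441, 63981000), (490, 64473600), (525,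
 66649200), (625, 58806600), (686, 62400000), (735, 69151200), (875, 63991200), (1029, 62938800),
 (1225, 61329000), (1715, 66235200), (2401, 59198400)])))))))
 (.split [(1, -7), (3, 50)]
 (.split [(2, 1), (3, -1)]
 (.split [(2, 1), (5, -1)]
 (.rule 0 (.rule 2 (.rule 7 (.leaf 300000000 (.add (.add (.add (.add (.mul (.g 11) (.add (.add
 (.mul (.g 12) (.add (.add (.mul (.pp [(1, 22467300)]) (.sq [(1, 21), (2, -58), (3, -6), (5, 100),
 (7, 83)])) (.mul (.g 3) (.add (.mul (.g 8) (.pp [(1, 31413000000)])) (.add (.mul (.g 10) (.pp [(1,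
 344502000000)])) (.mul (.g 18) (.pp [(1, 77460000000)])))))) (.add (.mul (.g 7) (.add (.mul (.g
 10) (.pp [(1, 240966600000)])) (.mul (.g 18) (.pp [(1, 204192900000)])))) (.mul (.g 11) (.add
 (.mul (.g 9) (.pp [(1, 174819000000)])) (.mul (.g 10) (.pp [(1, 18585000000)]))))))) (.add (.mul
 (.g 4) (.add (.add (.pp [(1, 216834000000)]) (.mul (.pp [(1, 892200)]) (.sq [(1, 26), (2, 12), (3,
 -73), (5, 73), (7, 100)]))) (.add (.mul (.g 6) (.add (.mul (.g 3) (.pp [(1, 513120000)])) (.mul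
 (.g 11) (.pp [(1, 2965260000)])))) (.mul (.g 16) (.mul (.g 18) (.pp [(1, 209121000000)]))))))
 (.mul (.g 3) (.add (.pp [(1, 19986000000)]) (.add (.mul (.pp [(1, 3370800)]) (.sq [(1, 40), (2,
 -100), (3, -45), (5, 74), (7, 80)])) (.mul (.g 9) (.mul (.g 9) (.pp [(1, 295857000000)]))))))))
 (.add (.add (.mul (.g 10) (.add (.mul (.g 8) (.mul (.g 8) (.pp [(1, 693153000000)]))) (.add (.mul
 (.g 9) (.mul (.g 10) (.pp [(1, 489816000000)]))) (.mul (.g 11) (.mul (.g 14) (.pp [(1,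
 125496000000)])))))) (.mul (.g 18) (.add (.pp [(1, 589206000000)]) (.add (.mul (.pp [(1, 487200)])
 (.sq [(1, 50), (2, 31), (3, 41), (5, 41), (7, 41)])) (.mul (.pp [(1, 39000)]) (.sq [(1, 8), (2,
 3), (3, 94), (5, 74), (7, -100)])))))) (.add (.mul (.g 15) (.add (.pp [(1, 20375700000)]) (.mul
 (.pp [(1, 94095)]) (.sq [(1, 16), (2, 57), (3, -28), (5, 7), (7, 100)])))) (.mul (.g 6) (.mul (.g
 14) (.mul (.g 14) (.pp [(1, 107790000)])))))))) (.add (.mul (.g 10) (.add (.add (.mul (.g 10)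
 (.add (.add (.mul (.g 6) (.add (.mul (.g 14) (.pp [(1, 2652240000)])) (.mul (.g 18) (.pp [(1,
 908340000)])))) (.mul (.g 8) (.add (.mul (.g 3) (.pp [(1, 112137000000)])) (.mul (.g 4) (.pp [(1,
 165282000000)]))))) (.add (.mul (.g 7) (.mul (.g 7) (.pp [(1, 1075567500)]))) (.mul (.g 9) (.mul
 (.g 13) (.pp [(1, 175923000000)])))))) (.mul (.g 3) (.add (.pp [(1, 231960000000)]) (.add (.mul
 (.pp [(1, 3152400)]) (.sq [(1, -8), (2, 63), (3, 79), (5, 100), (7, -56)])) (.mul (.g 3) (.pp [(1,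
 1292169000000)])))))) (.add (.mul (.g 5) (.mul (.g 8) (.mul (.g 8) (.pp [(1, 518160000)])))) (.add
 (.mul (.g 6) (.mul (.g 9) (.mul (.g 18) (.pp [(1, 6034140000)])))) (.mul (.g 7) (.mul (.g 7) (.mul
 (.g 7) (.pp [(1, 5223000)])))))))) (.mul (.g 12) (.add (.add (.add (.mul (.g 4) (.add (.mul (.pp
 [(1, 11883300)]) (.sq [(1, -28), (2, 91), (3, -64), (5, 100), (7, -53)])) (.mul (.g 12) (.mul (.g
 13) (.pp [(1, 164184000000)]))))) (.mul (.g 3) (.mul (.pp [(1, 12309600)]) (.sq [(1, 19), (2,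
 -79), (3, -56), (5, 33), (7, 100)])))) (.add (.mul (.g 5) (.mul (.g 7) (.mul (.g 16) (.pp [(1,
 210747000)])))) (.mul (.g 8) (.mul (.g 8) (.mul (.g 14) (.pp [(1, 22542000000)])))))) (.add (.add
 (.mul (.g 12) (.mul (.pp [(1, 231000)]) (.sq [(1, -11), (2, 34), (3, 100), (5, 11), (7, -44)])))
 (.mul (.g 13) (.mul (.pp [(1, 2753700)]) (.sq [(1, 47), (2, -93), (3, -97), (5, -7), (7, 100)]))))
 (.add (.mul (.g 15) (.pp [(1, 13135950000)])) (.mul (.g 18) (.mul (.pp [(1, 8678400)]) (.sq [(1,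
 -93), (2, 28), (3, 78), (5, 56), (7, 100)]))))))))) (.add (.mul (.g 18) (.add (.add (.mul (.pp
 [(1, 21230400)]) (.sq [(2, 39), (3, 50), (5, 39), (7, 50)])) (.add (.mul (.g 9) (.add (.pp [(1,
 248688000000)]) (.add (.mul (.g 8) (.mul (.g 8) (.pp [(1, 292125000000)]))) (.mul (.g 9) (.mul (.g
 9) (.pp [(1, 25509000000)])))))) (.mul (.g 8) (.mul (.pp [(1, 8179500)]) (.sq [(1, 72), (2, 97),
 (3, 100), (5, 100), (7, 43)]))))) (.add (.mul (.g 13) (.mul (.pp [(1, 2462700)]) (.sq [(1, 42),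
 (2, 22), (3, -33), (5, 100), (7, 53)]))) (.add (.mul (.g 15) (.mul (.pp [(1, 43935)]) (.sq [(1,
 69), (2, -26), (3, -92), (5, 11), (7, -100)]))) (.mul (.g 18) (.mul (.pp [(1, 1083600)]) (.sq [(1,
 6), (2, -12), (3, 100), (5, -63), (7, -33)]))))))) (.add (.mul (.g 3) (.add (.add (.pp [(1,
 116949000000)]) (.add (.mul (.g 4) (.mul (.g 14) (.pp [(1, 269772000000)]))) (.mul (.g 6) (.mul
 (.pp [(1, 178497)]) (.sq [(1, 17), (2, 38), (3, -79), (5, 100), (7, -72)]))))) (.add (.mul (.g 8)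
 (.pp [(1, 325263000000)])) (.add (.mul (.g 9) (.pp [(1, 951132000000)])) (.mul (.g 15) (.mul (.pp
 [(1, 355245)]) (.sq [(1, 46), (2, -85), (3, -100), (5, 97), (7, -77)]))))))) (.mul (.g 4) (.add
 (.mul (.g 4) (.add (.add (.pp [(1, 209412000000)]) (.mul (.pp [(1, 5538300)]) (.sq [(1, 100), (2,
 -67), (3, 67), (5, 33)]))) (.add (.mul (.g 9) (.pp [(1, 632319000000)])) (.mul (.g 14) (.pp [(1,
 279834000000)]))))) (.mul (.g 6) (.pp [(1, 6688410000)]))))))) (.add (.add (.mul (.g 13) (.add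
 (.mul (.g 15) (.add (.mul (.pp [(1, 85380)]) (.sq [(1, 45), (2, -20), (3, -100), (5, 28), (7,
 -80)])) (.mul (.pp [(1, 541560)]) (.sq [(1, 13), (2, 51), (3, -28), (5, 34), (7, 100)])))) (.mul
 (.g 13) (.mul (.pp [(1, 8338200)]) (.sq [(1, 7), (2, 58), (3, -9), (5, 100), (7, -73)]))))) (.add
 (.mul (.g 0) (.pp [(1, 600000000)])) (.mul (.g 1) (.pp [(1, 1000000000000)])))) (.add (.add (.mul
 (.g 2) (.pp [(1, 1000000000000)])) (.mul (.g 8) (.mul (.g 8) (.mul (.g 14) (.mul (.g 16) (.pp [(1,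
 424929000000)])))))) (.add (.mul (.g 9) (.mul (.g 15) (.pp [(1, 15823950000)]))) (.mul (.g 17)
 (.pp [(1, 1000000000000)])))))) (.pp [(1, 64448514975), (2, 28862283), (3, 29870580), (4,
 31903164), (5, 31299552), (6, 32024958), (7, 35362965), (8, 25663673), (9, 34707240), (10,
 27979356), (12, 29339292), (14, 28320984), (15, 28874082), (16, 30296400), (18, 24223287), (20,
 21848757), (21, 24463260), (24, 30839100), (25, 28284885), (27, 27683440), (28, 31653501), (30,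
 34167828), (35, 27447606), (36, 30823500), (40, 31643400), (42, 41174112), (45, 23758353), (49,
 28800300), (50, 31263375), (54, 30172800), (56, 33727800), (60, 30192300), (63, 31284660), (70,
 41894034), (75, 35257200), (81, 30837900), (84, 37205700), (90, 34017000), (98, 25132833), (100,
 39330000), (105, 25953168), (125, 29435020), (126, 18105300), (135, 31224600), (140, 23796900),
 (147, 35313000), (150, 35130000), (175, 22088970), (189, 33045900), (196, 29950800), (210,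
 25194000), (225, 26970000), (245, 30731067), (250, 28378800), (294, 34765200), (315, 36132300),
 (343, 30217800), (350, 27937800), (375, 25724400), (441, 24084000), (490, 24651600), (525,
 33868200), (625, 30144000), (686, 28580700), (735, 25492800), (875, 33127800), (1029, 28802100),
 (1225, 29625600), (1715, 27455700), (2401, 28942800)]))))))
 (.rule 0 (.rule 3 (.rule 7 (.leaf 300000000 (.add (.add (.add (.add (.mul (.g 11) (.add (.add
 (.add (.mul (.g 18) (.add (.add (.mul (.pp [(1, 64886400)]) (.sq [(1, 50), (2, 31), (3, 41), (5,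
 41), (7, 41)])) (.mul (.g 10) (.add (.mul (.g 10) (.pp [(1, 704151000000)])) (.add (.mul (.g 14)
 (.pp [(1, 414063000000)])) (.mul (.g 18) (.pp [(1, 833502000000)])))))) (.add (.mul (.g 3) (.add
 (.mul (.g 5) (.pp [(1, 43488120000)])) (.mul (.g 11) (.pp [(1, 432078000000)])))) (.add (.mul (.g
 6) (.add (.mul (.g 4) (.pp [(1, 32516850000)])) (.mul (.g 11) (.pp [(1, 2337750000)])))) (.mul (.g
 13) (.add (.mul (.g 9) (.pp [(1, 2917728000000)])) (.mul (.g 18) (.pp [(1, 346050000000)]))))))))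
 (.mul (.g 10) (.add (.add (.mul (.g 5) (.add (.mul (.g 6) (.pp [(1, 254011800)])) (.mul (.g 13)
 (.pp [(1, 1100340000)])))) (.mul (.g 15) (.add (.mul (.g 10) (.pp [(1, 32993250000)])) (.mul (.g
 11) (.pp [(1, 35153850000)]))))) (.add (.mul (.g 4) (.mul (.g 6) (.pp [(1, 16785930000)]))) (.mul
 (.g 7) (.mul (.g 12) (.pp [(1, 22809300000)]))))))) (.add (.mul (.g 11) (.add (.add (.mul (.g 3)
 (.add (.mul (.g 4) (.pp [(1, 175437000000)])) (.mul (.g 12) (.pp [(1, 1350132000000)])))) (.mul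
 (.g 4) (.mul (.g 7) (.pp [(1, 128219850000)])))) (.add (.mul (.g 5) (.pp [(1, 20725260000)]))
 (.mul (.g 8) (.mul (.g 15) (.pp [(1, 23070150000)])))))) (.mul (.g 3) (.add (.mul (.g 6) (.mul (.g
 8) (.pp [(1, 8195520000)]))) (.mul (.g 7) (.pp [(1, 76671750000)])))))) (.add (.add (.mul (.g 4)
 (.pp [(1, 1058649000000)])) (.mul (.g 5) (.pp [(1, 20871960000)]))) (.add (.mul (.g 9) (.mul (.g
 9) (.pp [(1, 461823000000)]))) (.add (.mul (.g 12) (.mul (.pp [(1, 36539100)]) (.sq [(1, 1), (2,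
 -19), (3, 4), (5, -63), (7, 100)]))) (.mul (.g 15) (.mul (.pp [(1, 236160)]) (.sq [(1, 77), (2,
 80), (3, 100), (5, -16), (7, -28)])))))))) (.add (.mul (.g 18) (.add (.add (.add (.mul (.g 18)
 (.add (.add (.mul (.pp [(1, 8498700)]) (.sq [(1, -5), (2, -13), (3, -3), (5, 92), (7, 100)]))
 (.mul (.pp [(1, 4514100)]) (.sq [(1, -67), (2, -100), (3, -93), (5, 35), (7, 73)]))) (.add (.mul
 (.g 18) (.add (.mul (.g 10) (.pp [(1, 58608000000)])) (.mul (.g 15) (.pp [(1, 2231250000)]))))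
 (.mul (.g 8) (.mul (.g 9) (.pp [(1, 60498000000)])))))) (.mul (.g 4) (.add (.pp [(1,
 232266000000)]) (.add (.mul (.pp [(1, 43770600)]) (.sq [(1, -27), (2, -41), (3, 37), (5, -8), (7,
 100)])) (.mul (.g 10) (.mul (.g 10) (.pp [(1, 73182000000)]))))))) (.add (.mul (.g 12) (.add (.mul
 (.pp [(1, 56350800)]) (.sq [(1, -48), (2, 35), (3, 28), (5, 39), (7, 50)])) (.mul (.g 10) (.mul
 (.g 12) (.pp [(1, 124653000000)]))))) (.mul (.g 3) (.mul (.pp [(1, 2619000)]) (.sq [(1, -23), (2,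
 50), (3, 83), (5, -72), (7, 100)]))))) (.add (.add (.mul (.g 5) (.pp [(1, 15842160000)])) (.mul
 (.g 7) (.mul (.g 7) (.mul (.g 9) (.pp [(1, 2195445000)]))))) (.add (.mul (.g 8) (.mul (.g 8) (.mul
 (.g 8) (.pp [(1, 345720000000)])))) (.mul (.g 15) (.pp [(1, 2292600000)])))))) (.mul (.g 4) (.add
 (.add (.mul (.g 4) (.add (.mul (.pp [(1, 18796500)]) (.sq [(1, 100), (2, -45), (3, 89)])) (.add
 (.mul (.g 9) (.pp [(1, 905919000000)])) (.mul (.g 12) (.mul (.g 16) (.pp [(1, 246090000000)]))))))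
 (.mul (.g 12) (.add (.mul (.pp [(1, 35944500)]) (.sq [(1, 56), (2, -87), (3, 45), (5, -38), (7,
 100)])) (.mul (.g 10) (.mul (.g 10) (.pp [(1, 38640000000)])))))) (.add (.mul (.g 13) (.add (.pp
 [(1, 234204000000)]) (.mul (.pp [(1, 19884000)]) (.sq [(1, -47), (2, -42), (3, 29), (5, -30), (7,
 100)])))) (.add (.mul (.g 6) (.pp [(1, 6408570000)])) (.mul (.g 8) (.mul (.pp [(1, 32080200)])
 (.sq [(1, 5), (2, 41), (3, -34), (5, 100), (7, -75)]))))))))) (.add (.mul (.g 12) (.add (.mul (.g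
 7) (.add (.mul (.pp [(1, 653640)]) (.sq [(1, -14), (2, 7), (3, 100), (5, -42), (7, 16)])) (.mul
 (.g 7) (.add (.mul (.g 5) (.pp [(1, 1692150)])) (.mul (.g 7) (.pp [(1, 17221125)])))))) (.add
 (.mul (.g 12) (.add (.mul (.pp [(1, 22771200)]) (.sq [(1, -17), (2, 100), (3, -28), (5, -5), (7,
 24)])) (.mul (.pp [(1, 216600)]) (.sq [(1, 1), (2, 19), (3, -16), (5, 100), (7, -87)])))) (.mul
 (.g 14) (.mul (.pp [(1, 1704900)]) (.sq [(1, -31), (2, 100), (3, -12), (5, -10), (7, 42)]))))))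
 (.add (.mul (.g 15) (.add (.add (.mul (.g 3) (.mul (.pp [(1, 86430)]) (.sq [(1, -47), (2, -24),
 (3, 93), (5, 21), (7, 100)]))) (.mul (.g 10) (.mul (.pp [(1, 39810)]) (.sq [(1, 45), (2, 26), (3,
 100), (5, -97), (7, 69)])))) (.add (.mul (.g 13) (.mul (.pp [(1, 2138760)]) (.sq [(1, 9), (2, 24),
 (3, 46), (5, -17), (7, 50)]))) (.add (.mul (.g 14) (.mul (.pp [(1, 15015)]) (.sq [(1, 100), (2,
 -56), (3, 58), (5, -18), (7, -37)]))) (.mul (.g 15) (.mul (.pp [(1, 13767)]) (.sq [(1, -100), (2,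
 61), (3, -37), (5, 24), (7, 53)]))))))) (.mul (.g 5) (.add (.mul (.g 5) (.add (.mul (.g 5) (.mul
 (.g 10) (.pp [(1, 224520)]))) (.mul (.g 6) (.mul (.g 9) (.pp [(1, 328668)]))))) (.mul (.g 7) (.mul
 (.g 13) (.pp [(1, 1573206000)])))))))) (.add (.add (.mul (.g 9) (.add (.mul (.g 8) (.mul (.g 9)
 (.mul (.g 9) (.pp [(1, 225135000000)])))) (.mul (.g 13) (.mul (.pp [(1, 4181100)]) (.sq [(1, -32),
 (2, -36), (3, -19), (5, 100), (7, -18)]))))) (.add (.mul (.g 0) (.pp [(1, 600000000)])) (.mul (.g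
 1) (.pp [(1, 1000000000000)])))) (.add (.add (.mul (.g 2) (.pp [(1, 1000000000000)])) (.mul (.g 3)
 (.mul (.g 3) (.mul (.pp [(1, 4015500)]) (.sq [(1, 63), (2, 19), (3, 53), (5, -100), (7, 67)])))))
 (.add (.mul (.g 7) (.mul (.g 10) (.mul (.pp [(1, 1511850)]) (.sq [(1, -37), (2, 100), (3, 78), (5,
 -28), (7, -14)])))) (.mul (.g 17) (.pp [(1, 1000000000000)])))))) (.pp [(1, 3672794655), (2,
 33148035), (3, 26947572), (4, 30471033), (5, 26317350), (6, 29031978), (7, 25337940), (8,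
 30978780), (9, 31741857), (10, 23517624), (12, 38010180), (14, 18960798), (15, 37260972), (16,
 29892900), (18, 16306530), (20, 27139320), (21, 35831694), (24, 27480900), (25, 32667528), (27,
 37156180), (28, 30046380), (30, 20311740), (35, 46797492), (36, 38210400), (40, 30628800), (42,
 31786620), (45, 29683770), (49, 35252517), (50, 38560710), (54, 24539400), (56, 29125500), (60,
 35209800), (63, 27548340), (70, 37480140), (75, 28542480), (81, 30161400), (84, 27732000), (90,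
 26956200), (98, 44807865), (100, 28880400), (105, 21200640), (125, 27464580), (126, 30946800),
 (135, 30600300), (140, 34010400), (147, 27343695), (150, 32478600), (175, 17373300), (189,
 31198200), (196, 28434300), (210, 31363200), (225, 32598900), (245, 8189625), (250, 26844600),
 (294, 25402200), (315, 33454200), (343, 26950560), (350, 28064100), (375, 30105000), (441,
 32543700), (490, 27073800), (525, 32199600), (625, 31187100), (686, 23697600), (735, 33403800),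
 (875, 33900000), (1029, 30757800), (1225, 40858200), (1715, 39717600), (2401, 31399500)])))))))
 (.split [(2, 1), (5, -1)]
 (.rule 1 (.rule 2 (.rule 7 (.leaf 15000000000 (.add (.add (.add (.add (.mul (.g 18) (.add (.add
 (.add (.mul (.g 11) (.add (.add (.mul (.g 12) (.add (.mul (.g 7) (.pp [(1, 2070540000000)])) (.add
 (.mul (.g 8) (.pp [(1, 111017850000000)])) (.mul (.g 18) (.pp [(1, 13474800000000)]))))) (.add
 (.mul (.g 10) (.add (.pp [(1, 503700000000)]) (.mul (.g 14) (.pp [(1, 9441300000000)])))) (.mul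
 (.g 11) (.add (.pp [(1, 28200000000)]) (.mul (.g 11) (.pp [(1, 124350000000)])))))) (.add (.mul
 (.g 4) (.mul (.g 5) (.pp [(1, 2281149000000)]))) (.add (.mul (.g 6) (.mul (.g 16) (.pp [(1,
 180439500000)]))) (.mul (.g 8) (.pp [(1, 87322200000000)])))))) (.mul (.g 10) (.add (.mul (.g 9)
 (.add (.mul (.g 4) (.pp [(1, 29184450000000)])) (.mul (.g 9) (.pp [(1, 25153950000000)])))) (.add
 (.mul (.g 7) (.mul (.g 7) (.pp [(1, 6330375000)]))) (.mul (.g 10) (.mul (.g 10) (.pp [(1,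
 67107000000000)]))))))) (.add (.mul (.g 3) (.add (.pp [(1, 25182750000000)]) (.add (.mul (.pp [(1,
 6583080000)]) (.sq [(1, 7), (2, 35), (3, 12), (5, 100), (7, 18)])) (.mul (.g 6) (.mul (.g 9) (.pp
 [(1, 17170500000)])))))) (.add (.mul (.g 5) (.add (.mul (.pp [(1, 9001200)]) (.sq [(1, -63), (2,
 -26), (3, -99), (5, 65), (7, 100)])) (.mul (.g 5) (.mul (.g 18) (.pp [(1, 8119260000)]))))) (.mul
 (.g 6) (.mul (.pp [(1, 13684050)]) (.sq [(1, -19), (2, -74), (3, 100), (5, -28), (7, 74)]))))))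
 (.add (.add (.mul (.g 7) (.pp [(1, 703125000000)])) (.mul (.g 8) (.mul (.g 8) (.mul (.g 8) (.pp
 [(1, 6614100000000)]))))) (.add (.mul (.g 12) (.mul (.pp [(1, 971865000)]) (.sq [(1, -88), (2,
 40), (3, 85), (5, 51), (7, 100)]))) (.add (.mul (.g 15) (.mul (.pp [(1, 11796750)]) (.sq [(1,
 -29), (2, -26), (3, -26), (5, 72), (7, 100)]))) (.mul (.g 18) (.mul (.pp [(1, 85125000)]) (.sq
 [(1, 20), (2, -7), (3, 100), (5, -16), (7, -38)])))))))) (.add (.mul (.g 3) (.add (.add (.mul (.g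
 3) (.add (.pp [(1, 27530100000000)]) (.add (.mul (.pp [(1, 511095000)]) (.sq [(1, 100), (2, -45),
 (5, 89)])) (.mul (.g 10) (.pp [(1, 2859600000000)]))))) (.add (.mul (.g 11) (.add (.mul (.g 9)
 (.add (.mul (.g 4) (.pp [(1, 73601850000000)])) (.mul (.g 9) (.pp [(1, 3012150000000)])))) (.mul
 (.g 8) (.mul (.g 11) (.pp [(1, 11846400000000)]))))) (.mul (.g 14) (.add (.mul (.pp [(1,
 3737310000)]) (.sq [(1, 39), (2, -10), (3, -56), (5, -66), (7, 100)])) (.mul (.pp [(1,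
 658050000)]) (.sq [(1, -26), (2, -43), (3, -51), (5, 37), (7, 100)])))))) (.add (.add (.mul (.g 5)
 (.pp [(1, 213612000000)])) (.mul (.g 7) (.pp [(1, 2448690000000)]))) (.add (.mul (.g 8) (.mul (.g
 10) (.pp [(1, 10390950000000)]))) (.mul (.g 15) (.pp [(1, 3921465000000)])))))) (.mul (.g 15)
 (.add (.add (.mul (.g 14) (.add (.mul (.pp [(1, 179967000)]) (.sq [(1, -69), (2, -41), (3, 100),
 (5, -34), (7, 57)])) (.add (.mul (.pp [(1, 6912750)]) (.sq [(1, 100), (2, -56), (3, -18), (5, 58),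
 (7, -37)])) (.mul (.pp [(1, 115497000)]) (.sq [(1, 6), (2, 11), (3, -92), (5, -34), (7, 100)])))))
 (.add (.mul (.g 5) (.mul (.g 11) (.add (.mul (.g 6) (.pp [(1, 10594500)])) (.mul (.g 16) (.pp [(1,
 42783150000)]))))) (.mul (.g 4) (.pp [(1, 1243327500000)])))) (.add (.add (.mul (.g 6) (.pp [(1,
 7978725000)])) (.mul (.g 13) (.mul (.pp [(1, 145830750)]) (.sq [(1, -17), (2, -32), (3, -70), (5,
 18), (7, 100)])))) (.add (.mul (.g 15) (.mul (.pp [(1, 2983200)]) (.sq [(1, 7), (2, 4), (3, -89),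
 (5, -40), (7, 100)]))) (.mul (.g 16) (.mul (.pp [(1, 176078250)]) (.sq [(1, -17), (2, -61), (3,
 100), (5, 46), (7, -27)]))))))))) (.add (.mul (.g 10) (.add (.add (.mul (.g 6) (.add (.mul (.g 9)
 (.add (.mul (.g 9) (.pp [(1, 187104000000)])) (.mul (.g 11) (.pp [(1, 450603000000)])))) (.mul (.g
 10) (.mul (.g 10) (.pp [(1, 7096500000)]))))) (.mul (.g 7) (.add (.mul (.g 7) (.mul (.g 7) (.pp
 [(1, 1760643750)]))) (.mul (.g 11) (.pp [(1, 8465722500000)]))))) (.add (.mul (.g 10) (.mul (.g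
 10) (.add (.mul (.g 8) (.pp [(1, 10953600000000)])) (.mul (.g 10) (.pp [(1, 1552500000000)])))))
 (.add (.mul (.g 4) (.mul (.g 5) (.mul (.g 11) (.pp [(1, 6731094000000)])))) (.mul (.g 12) (.mul
 (.g 12) (.mul (.g 14) (.pp [(1, 11784900000000)])))))))) (.add (.mul (.g 4) (.add (.add (.mul (.g
 14) (.add (.mul (.pp [(1, 440940000)]) (.sq [(1, 92), (2, 33), (3, -100), (5, -9), (7, -65)]))
 (.mul (.pp [(1, 262140000)]) (.sq [(1, -14), (2, 17), (3, -83), (5, -58), (7, 100)])))) (.mul (.g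
 4) (.mul (.pp [(1, 4508640000)]) (.sq [(1, 20), (2, -5), (3, 8), (5, 96), (7, -100)])))) (.add
 (.mul (.g 8) (.mul (.g 12) (.mul (.g 12) (.pp [(1, 4316850000000)])))) (.add (.mul (.g 11) (.mul
 (.pp [(1, 3008040000)]) (.sq [(1, 15), (2, 8), (3, -39), (5, 50), (7, -2)]))) (.mul (.g 13) (.mul
 (.pp [(1, 3068040000)]) (.sq [(1, -24), (2, -55), (3, 100), (5, 44), (7, -26)]))))))) (.mul (.g 6)
 (.add (.mul (.g 6) (.mul (.pp [(1, 11631)]) (.sq [(1, -1), (2, 10), (3, 2), (5, 100), (7,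
 -100)]))) (.add (.mul (.g 7) (.pp [(1, 24886275000)])) (.mul (.g 8) (.mul (.g 8) (.mul (.g 8) (.pp
 [(1, 38476500000)])))))))))) (.add (.add (.mul (.g 7) (.add (.mul (.g 5) (.mul (.g 9) (.mul (.g
 16) (.pp [(1, 9880500000)])))) (.mul (.g 7) (.mul (.g 7) (.mul (.g 7) (.pp [(1, 41107500)]))))))
 (.add (.mul (.g 13) (.mul (.g 13) (.add (.mul (.pp [(1, 1061610000)]) (.sq [(1, 8), (2, -11), (3,
 -84), (5, -49), (7, 100)])) (.mul (.pp [(1, 460080000)]) (.sq [(1, -41), (2, -47), (3, -16), (5,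
 84), (7, 100)]))))) (.mul (.g 0) (.pp [(1, 30000000000)])))) (.add (.add (.mul (.g 1) (.pp [(1,
 50000000000000)])) (.mul (.g 2) (.pp [(1, 50000000000000)]))) (.add (.mul (.g 16) (.mul (.g 16)
 (.mul (.pp [(1, 103170000)]) (.sq [(1, -83), (2, 100), (3, 100), (5, 100), (7, 100)])))) (.mul (.g
 17) (.pp [(1, 50000000000000)])))))) (.pp [(1, 158836694409), (2, 1402539870), (3, 1665449364),
 (4, 1427259150), (5, 1674082500), (6, 1756151460), (7, 1569156300), (8, 1314393000), (9,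
 1114651236), (10, 1700773200), (12, 1897722750), (14, 1717344900), (15, 1074477000), (16,
 1499745000), (18, 1211709000), (20, 1683319800), (21, 1459899300), (24, 1516065000), (25,
 1268745000), (27, 1782259200), (28, 1735720800), (30, 1066753800), (35, 1254115200), (36,
 1367085000), (40, 1703520000), (42, 1132518300), (45, 2041437600), (49, 1352896650), (50,
 1424917800), (54, 1586550000), (56, 1724940000), (60, 1484415000), (63, 1726296600), (70,
 995591400), (75, 1802541000), (81, 1464540000), (84, 954750000), (90, 1449555000), (98,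
 1299428850), (100, 1212585000), (105, 1692285000), (125, 1624323800), (126, 2156505000), (135,
 1351230000), (140, 894150000), (147, 1700836500), (150, 1313700000), (175, 1677000000), (189,
 1186620000), (196, 1491180000), (210, 2619180000), (225, 1577160000), (245, 1719582150), (250,
 1669095000), (294, 1567185000), (315, 774900000), (343, 1575688200), (350, 1800315000), (375,
 1425150000), (441, 1469430000), (490, 1557090000), (525, 1284300000), (625, 1472025000), (686,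
 1463580000), (735, 1424895000), (875, 1457340000), (1029, 1482060000), (1225, 1494825000), (1715,
 1429080000), (2401, 1429500000)]))))))
 (.rule 1 (.rule 3 (.rule 7 (.leaf 7500000000 (.add (.add (.add (.add (.mul (.pp [(1, 863655000)])
 (.sq [(1, -1), (2, -31), (3, 100), (5, -20), (7, -11)])) (.add (.mul (.g 11) (.add (.add (.mul (.g
 11) (.add (.add (.mul (.g 15) (.add (.mul (.g 8) (.pp [(1, 211691250000)])) (.add (.mul (.g 11)
 (.pp [(1, 22740000000)])) (.mul (.g 13) (.pp [(1, 293707500000)]))))) (.add (.mul (.g 18) (.add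
 (.pp [(1, 1545825000000)]) (.add (.mul (.g 11) (.pp [(1, 750000000)])) (.mul (.g 14) (.pp [(1,
 455550000000)]))))) (.mul (.g 5) (.add (.mul (.g 5) (.pp [(1, 1189170000)])) (.mul (.g 9) (.pp
 [(1, 29767500000)])))))) (.add (.mul (.g 3) (.mul (.g 3) (.pp [(1, 6336600000000)]))) (.add (.mul
 (.g 4) (.mul (.g 10) (.pp [(1, 344175000000)]))) (.mul (.g 7) (.mul (.g 8) (.pp [(1,
 4645931250000)]))))))) (.add (.mul (.g 18) (.add (.add (.mul (.g 5) (.add (.pp [(1,
 102099000000)]) (.mul (.g 10) (.pp [(1, 84013500000)])))) (.mul (.g 8) (.add (.pp [(1,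
 67489800000000)]) (.mul (.g 12) (.pp [(1, 10498800000000)]))))) (.add (.mul (.g 18) (.add (.mul
 (.g 10) (.pp [(1, 9825000000)])) (.mul (.g 12) (.pp [(1, 1749000000000)])))) (.add (.mul (.g 3)
 (.mul (.g 6) (.pp [(1, 146476500000)]))) (.mul (.g 7) (.pp [(1, 2305181250000)])))))) (.mul (.g 3)
 (.add (.add (.mul (.g 7) (.add (.pp [(1, 4313827500000)]) (.mul (.g 12) (.pp [(1,
 407707500000)])))) (.mul (.g 5) (.mul (.g 5) (.pp [(1, 5995290000)])))) (.add (.mul (.g 8) (.mul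
 (.g 16) (.pp [(1, 11042625000000)]))) (.mul (.g 9) (.mul (.g 15) (.pp [(1, 299610000000)]))))))))
 (.add (.mul (.g 10) (.add (.add (.mul (.g 8) (.add (.mul (.g 9) (.pp [(1, 6208800000000)])) (.mul
 (.g 14) (.pp [(1, 496125000000)])))) (.mul (.g 5) (.mul (.g 13) (.pp [(1, 107874000000)])))) (.add
 (.mul (.g 6) (.mul (.g 15) (.pp [(1, 6384300000)]))) (.mul (.g 7) (.mul (.g 16) (.pp [(1,
 160560000000)])))))) (.add (.mul (.g 5) (.add (.mul (.g 4) (.pp [(1, 126649500000)])) (.mul (.g 9)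
 (.mul (.g 9) (.pp [(1, 326082000000)]))))) (.mul (.g 7) (.pp [(1, 266280000000)])))))) (.mul (.g
 13) (.add (.add (.mul (.g 7) (.add (.mul (.g 10) (.add (.pp [(1, 684202500000)]) (.add (.mul (.g
 10) (.pp [(1, 283031250000)])) (.mul (.g 12) (.pp [(1, 324963750000)]))))) (.add (.mul (.g 18)
 (.add (.pp [(1, 450258750000)]) (.mul (.g 9) (.pp [(1, 904091250000)])))) (.mul (.g 8) (.pp [(1,
 370938750000)]))))) (.mul (.g 13) (.add (.pp [(1, 308775000000)]) (.add (.mul (.pp [(1, 2445000)])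
 (.sq [(1, 100), (2, -94), (3, 27), (5, 21)])) (.mul (.g 10) (.mul (.g 10) (.pp [(1,
 216000000000)]))))))) (.add (.mul (.g 8) (.mul (.g 8) (.add (.pp [(1, 8392650000000)]) (.mul (.g
 14) (.pp [(1, 3053850000000)]))))) (.add (.mul (.g 16) (.add (.mul (.pp [(1, 101737500)]) (.sq
 [(1, 30), (2, -56), (3, -46), (5, 25), (7, 100)])) (.mul (.pp [(1, 3262470000)]) (.sq [(1, -11),
 (2, -17), (3, 50), (5, -17), (7, -11)])))) (.mul (.g 10) (.mul (.pp [(1, 115200000)]) (.sq [(1,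
 3), (2, -22), (3, 100), (5, -72), (7, 1)]))))))))) (.add (.mul (.g 4) (.add (.mul (.g 4) (.add
 (.mul (.g 8) (.add (.mul (.g 3) (.pp [(1, 118425000000)])) (.mul (.g 10) (.pp [(1,
 4882050000000)])))) (.add (.mul (.g 5) (.mul (.g 6) (.pp [(1, 392205000)]))) (.mul (.g 9) (.mul
 (.g 10) (.pp [(1, 10333800000000)])))))) (.add (.mul (.g 5) (.add (.mul (.g 3) (.add (.pp [(1,
 108219000000)]) (.mul (.g 12) (.pp [(1, 36723000000)])))) (.mul (.g 15) (.pp [(1, 752175000)]))))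
 (.mul (.g 7) (.mul (.g 18) (.pp [(1, 22260000000)])))))) (.add (.mul (.g 7) (.add (.mul (.g 7)
 (.add (.mul (.g 7) (.add (.pp [(1, 465778125)]) (.mul (.g 9) (.pp [(1, 347137500)])))) (.mul (.g
 8) (.mul (.g 8) (.pp [(1, 8160187500)]))))) (.add (.mul (.g 3) (.mul (.g 6) (.mul (.g 12) (.pp
 [(1, 307237500)])))) (.mul (.g 14) (.mul (.pp [(1, 47433375)]) (.sq [(1, 7), (2, 34), (3, 100),
 (5, -74), (7, -9)])))))) (.mul (.g 10) (.add (.add (.mul (.pp [(1, 377430000)]) (.sq [(1, 5), (2,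
 -33), (3, 100), (5, -27), (7, -1)])) (.mul (.pp [(1, 78082500)]) (.sq [(1, -48), (2, 34), (3,
 -100), (5, 90), (7, -3)]))) (.add (.mul (.g 10) (.mul (.pp [(1, 404167500)]) (.sq [(1, 7), (2,
 -27), (3, 100), (5, -31)]))) (.mul (.g 18) (.mul (.g 18) (.mul (.g 18) (.pp [(1,
 9075000000)])))))))))) (.add (.add (.mul (.g 5) (.mul (.g 5) (.add (.mul (.g 18) (.add (.pp [(1,
 6791910000)]) (.mul (.g 9) (.pp [(1, 4712070000)])))) (.mul (.g 5) (.mul (.g 6) (.pp [(1,
 522834)])))))) (.add (.mul (.g 8) (.add (.mul (.pp [(1, 548842500)]) (.sq [(1, -55), (2, 54), (3,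
 -100), (5, 100), (7, 3)])) (.mul (.g 8) (.mul (.g 8) (.mul (.g 18) (.pp [(1,
 10482975000000)])))))) (.mul (.g 0) (.pp [(1, 15000000000)])))) (.add (.add (.mul (.g 1) (.pp [(1,
 25000000000000)])) (.mul (.g 2) (.pp [(1, 25000000000000)]))) (.add (.mul (.g 6) (.mul (.g 6)
 (.mul (.g 6) (.mul (.g 6) (.pp [(1, 1224)]))))) (.mul (.g 17) (.pp [(1, 25000000000000)]))))))
 (.pp [(1, 17139019299), (2, 751642125), (3, 707694975), (4, 765951000), (5, 713722875), (6,
 783474000), (7, 755940000), (8, 747098500), (9, 858480000), (10, 702948000), (12, 678421500), (14,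
 852860250), (15, 781288500), (16, 755610000), (18, 831120000), (20, 756154500), (21, 710304750),
 (24, 775860000), (25, 848683500), (27, 612660000), (28, 775870500), (30, 729837000), (35,
 796584750), (36, 727905000), (40, 824610000), (42, 631504500), (45, 695640000), (49, 762795000),
 (50, 865863000), (54, 749580000), (56, 740490000), (60, 720660000), (63, 789435000), (70,
 655674000), (75, 672316500), (81, 816045000), (84, 686790000), (90, 768060000), (98, 650944125),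
 (100, 725197500), (105, 773950500), (125, 646944000), (126, 795720000), (135, 781260000), (140,
 753420000), (147, 783843375), (150, 649267500), (175, 627865500), (189, 777000000), (196,
 792067500), (210, 840090000), (225, 794572500), (245, 747100875), (250, 711525000), (294,
 816802500), (315, 765720000), (343, 735000000), (350, 769890000), (375, 786412500), (441,
 716130000), (490, 742732500), (525, 724920000), (625, 788587500), (686, 750000000), (735,
 681330000), (875, 811200000), (1029, 750000000), (1225, 790200000), (1715, 750000000), (2401,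
 750000000)]))))))))
 (.rule 5 (.cut 450 [(2, -1), (5, 1)] (.add (.mul (.g 10) (.pp [(1, 310)])) (.add (.mul (.g 11)
 (.pp [(1, 7)])) (.mul (.g 1) (.pp [(1, 9)])))) (.rule 3 (.leaf 300000000 (.add (.add (.add (.add
 (.mul (.g 9) (.add (.add (.add (.mul (.pp [(1, 4291800)]) (.sq [(2, 16), (3, 4), (5, 100), (7,
 -59)])) (.mul (.g 8) (.add (.add (.mul (.g 7) (.add (.add (.mul (.g 6) (.pp [(1, 71937000000)]))
 (.mul (.g 7) (.pp [(1, 125046000000)]))) (.add (.mul (.g 8) (.pp [(1, 67599000000)])) (.mul (.g 9)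
 (.pp [(1, 67629000000)]))))) (.add (.mul (.g 5) (.add (.mul (.g 8) (.pp [(1, 7453050000)])) (.add
 (.mul (.g 9) (.pp [(1, 10136100000)])) (.mul (.g 10) (.pp [(1, 83476050000)]))))) (.mul (.g 8)
 (.add (.pp [(1, 40482000000)]) (.mul (.g 13) (.pp [(1, 40050000)])))))) (.add (.mul (.g 6) (.pp
 [(1, 1582230000000)])) (.add (.mul (.g 9) (.mul (.g 13) (.pp [(1, 372600000)]))) (.mul (.g 16)
 (.pp [(1, 86778000000)]))))))) (.add (.mul (.g 6) (.add (.add (.mul (.g 7) (.add (.mul (.g 7) (.pp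
 [(1, 244245000000)])) (.mul (.g 9) (.pp [(1, 54894000000)])))) (.mul (.g 10) (.add (.mul (.g 4)
 (.pp [(1, 10118340000)])) (.mul (.g 16) (.pp [(1, 1909416000000)]))))) (.add (.mul (.g 6) (.mul
 (.g 9) (.pp [(1, 1892652000000)]))) (.add (.mul (.g 13) (.pp [(1, 64360800000)])) (.mul (.g 16)
 (.pp [(1, 3035085000000)])))))) (.mul (.g 9) (.add (.mul (.g 4) (.add (.mul (.g 3) (.pp [(1,
 11460600)])) (.mul (.g 16) (.pp [(1, 229530000)])))) (.add (.mul (.g 10) (.add (.mul (.g 10) (.pp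
 [(1, 36249000000)])) (.mul (.g 13) (.pp [(1, 7714800000)])))) (.mul (.g 9) (.mul (.g 13) (.pp [(1,
 334050000)])))))))) (.add (.add (.mul (.g 7) (.mul (.g 7) (.add (.mul (.g 10) (.pp [(1,
 82698000000)])) (.mul (.g 12) (.pp [(1, 28722000000)]))))) (.mul (.g 3) (.pp [(1, 1991160000)])))
 (.add (.mul (.g 5) (.mul (.g 10) (.mul (.g 10) (.pp [(1, 3472050000)])))) (.add (.mul (.g 13) (.pp
 [(1, 78000000)])) (.mul (.g 16) (.mul (.g 16) (.mul (.g 16) (.pp [(1, 1269000000)]))))))))) (.mul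
 (.g 3) (.add (.add (.mul (.g 8) (.add (.add (.mul (.pp [(1, 383040)]) (.sq [(1, 23), (2, 25), (3,
 25), (5, 25), (7, 25)])) (.add (.mul (.g 3) (.add (.mul (.g 7) (.pp [(1, 546080400)])) (.mul (.g
 8) (.pp [(1, 34308000)])))) (.mul (.g 4) (.mul (.g 11) (.pp [(1, 31222800)]))))) (.add (.mul (.g
 6) (.mul (.g 6) (.pp [(1, 166905180000)]))) (.add (.mul (.g 7) (.mul (.g 7) (.pp [(1,
 25409880000)]))) (.mul (.g 8) (.mul (.g 16) (.pp [(1, 1195440000)]))))))) (.add (.mul (.g 7) (.add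
 (.pp [(1, 314940000)]) (.add (.mul (.g 14) (.add (.mul (.g 12) (.pp [(1, 2041980000)])) (.mul (.g
 14) (.pp [(1, 1061220000)])))) (.mul (.g 7) (.mul (.g 7) (.pp [(1, 981360000)])))))) (.mul (.g 6)
 (.add (.mul (.g 6) (.add (.mul (.g 5) (.pp [(1, 3660000)])) (.mul (.g 14) (.pp [(1,
 27340380000)])))) (.mul (.g 12) (.pp [(1, 27299940000)])))))) (.add (.mul (.g 5) (.pp [(1,
 402642000)])) (.add (.mul (.g 10) (.mul (.pp [(1, 78858)]) (.sq [(1, -16), (2, 54), (3, -86), (5,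
 91), (7, -100)]))) (.mul (.g 16) (.pp [(1, 1433340000)]))))))) (.add (.mul (.g 16) (.add (.add
 (.mul (.g 6) (.add (.mul (.pp [(1, 10477500)]) (.sq [(1, 51), (2, 5), (3, 100), (5, -49), (7,
 -75)])) (.add (.mul (.g 6) (.add (.mul (.g 6) (.pp [(1, 962721000000)])) (.mul (.g 7) (.pp [(1,
 851379000000)])))) (.mul (.g 5) (.mul (.g 10) (.pp [(1, 42882450000)])))))) (.mul (.g 8) (.add
 (.mul (.g 8) (.add (.mul (.g 10) (.pp [(1, 3489000000)])) (.mul (.g 11) (.pp [(1, 9306000000)]))))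
 (.mul (.g 11) (.mul (.g 11) (.pp [(1, 15189000000)])))))) (.add (.mul (.g 5) (.add (.pp [(1,
 20839500000)]) (.mul (.pp [(1, 170190)]) (.sq [(1, 76), (2, 100), (3, 84), (5, 56), (7, 27)]))))
 (.add (.mul (.g 16) (.add (.pp [(1, 11985000000)]) (.mul (.pp [(1, 585300)]) (.sq [(1, -45), (2,
 34), (3, 17), (5, 100), (7, -46)])))) (.mul (.g 7) (.mul (.pp [(1, 5703300)]) (.sq [(1, 90), (2,
 100), (3, 71), (5, 71), (7, 71)]))))))) (.mul (.g 5) (.add (.mul (.g 5) (.add (.mul (.g 5) (.add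
 (.mul (.g 8) (.pp [(1, 1330875)])) (.mul (.g 10) (.pp [(1, 4916250)])))) (.mul (.g 7) (.add (.mul
 (.g 4) (.pp [(1, 37489425)])) (.mul (.g 8) (.pp [(1, 23055637500)])))))) (.add (.mul (.g 8) (.add
 (.mul (.pp [(1, 537000)]) (.sq [(1, 60), (2, -85), (3, -20), (5, -26), (7, 100)])) (.mul (.g 10)
 (.mul (.g 10) (.pp [(1, 2554950000)]))))) (.mul (.g 14) (.add (.mul (.pp [(1, 203145)]) (.sq [(2,
 -44), (3, -59), (5, 100), (7, 19)])) (.mul (.g 12) (.mul (.g 14) (.pp [(1, 4352550000)]))))))))))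
 (.add (.add (.mul (.g 7) (.mul (.g 7) (.add (.mul (.g 6) (.mul (.g 6) (.pp [(1, 277296000000)])))
 (.mul (.g 8) (.mul (.g 8) (.pp [(1, 166779000000)])))))) (.mul (.g 0) (.pp [(1, 1000000000000)])))
 (.add (.mul (.g 2) (.pp [(1, 1000000000000)])) (.mul (.g 15) (.pp [(1, 1000000000000)]))))) (.pp
 [(1, 1301001654), (2, 30888354), (3, 29586483), (4, 30346056), (5, 29147667), (6, 32327280), (7,
 27156120), (8, 30037596), (9, 33969609), (10, 27390360), (12, 34120352), (14, 28542060), (15,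
 29673012), (16, 30000000), (18, 29253836), (19, 3000000000000), (20, 30863568), (21, 30268830),
 (24, 28278000), (25, 31242774), (27, 29555355), (28, 25966800), (30, 27893688), (35, 35754720),
 (36, 29232000), (40, 29437500), (42, 30876240), (45, 26496360), (49, 34600995), (50, 32677986),
 (54, 29266500), (56, 30937500), (60, 26998800), (63, 31608450), (70, 31590600), (75, 26605080),
 (81, 30000000), (84, 29491200), (90, 30123600), (98, 27439200), (100, 30178200), (105, 23816640),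
 (125, 29276160), (126, 27171000), (135, 28335300), (140, 31766400), (147, 30431715), (150,
 23948700), (175, 25947600), (189, 28335300), (196, 32788200), (210, 25893600), (225, 25518900),
 (245, 22672530), (250, 29514300), (294, 27096900), (315, 24037800), (343, 27043290), (350,
 31248900), (375, 30315300), (441, 28518900), (490, 27620700), (525, 26375100), (625, 30000000),
 (686, 29126100), (735, 27804300), (875, 29760000), (1029, 31744500), (1225, 33025200), (1715,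
 33770400), (2401, 30505200)])))))))))
 (P_Op0 ++ xP_A_F1) = true := by decide +kernel

theorem t_A_F3_Op1 : chk ROp gP_A_F3
 (.split [(1, 1), (2, -20)]
 (.cut 1 [(1, -69), (3, 100)] (.add (.mul (.g 2) (.pp [(1, 31)])) (.mul (.g 9) (.pp [(1, 69)])))
 (.cut 1 [(1, 3), (3, -2)] (.add (.add (.mul (.g 2) (.pp [(1, 18)])) (.mul (.g 7) (.pp [(1, 2)])))
 (.add (.mul (.g 4) (.pp [(1, 2)])) (.mul (.g 1) (.pp [(1, 1)])))) (.rule 8 (.cut 1 [(1, 2), (2,
 1), (3, -2), (5, -1)] (.add (.mul (.g 9) (.pp [(1, 1)])) (.add (.mul (.g 14) (.pp [(1, 1)])) (.mul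
 (.g 7) (.pp [(1, 1)])))) (.cut 810 [(1, -1), (2, -2), (3, 2), (5, 2)] (.add (.add (.mul (.g 4)
 (.pp [(1, 81)])) (.mul (.g 2) (.pp [(1, 140)]))) (.add (.mul (.g 7) (.pp [(1, 1620)])) (.mul (.g
 3) (.pp [(1, 19)])))) (.rule 12 (.rule 4 (.leaf 15000000 (.add (.add (.add (.add (.mul (.g 10)
 (.add (.add (.mul (.g 10) (.add (.add (.mul (.g 10) (.add (.add (.mul (.g 7) (.pp [(1,
 66708210000)])) (.mul (.g 8) (.pp [(1, 1327741950000)]))) (.add (.mul (.g 9) (.pp [(1,
 1487100000)])) (.mul (.g 10) (.pp [(1, 544500000)]))))) (.add (.mul (.g 7) (.add (.mul (.g 8) (.pp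
 [(1, 2683560000)])) (.mul (.g 16) (.pp [(1, 476805000)])))) (.mul (.g 9) (.mul (.g 18) (.pp [(1,
 3836700000)]))))) (.add (.mul (.g 11) (.mul (.g 11) (.pp [(1, 698400000)]))) (.add (.mul (.g 12)
 (.mul (.g 12) (.pp [(1, 54943500000)]))) (.mul (.g 13) (.pp [(1, 59582400000)])))))) (.add (.mul
 (.g 8) (.add (.add (.pp [(1, 40362300000)]) (.mul (.g 8) (.add (.pp [(1, 21476250000)]) (.mul (.g
 14) (.pp [(1, 22703250000)]))))) (.add (.mul (.g 7) (.mul (.g 16) (.pp [(1, 118492500)]))) (.mul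
 (.g 11) (.mul (.g 11) (.pp [(1, 15909600000)])))))) (.mul (.g 9) (.add (.mul (.g 9) (.add (.mul
 (.g 16) (.pp [(1, 33353550000)])) (.mul (.g 18) (.pp [(1, 9779100000)])))) (.mul (.g 11) (.mul (.g
 11) (.pp [(1, 12355050000)]))))))) (.add (.add (.mul (.g 13) (.add (.pp [(1, 257925000000)]) (.mul
 (.g 12) (.add (.mul (.g 12) (.pp [(1, 17087250000)])) (.mul (.g 14) (.pp [(1, 6019650000)]))))))
 (.mul (.g 11) (.add (.pp [(1, 15982050000)]) (.mul (.g 11) (.mul (.g 11) (.pp [(1,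
 9110550000)])))))) (.add (.mul (.g 18) (.add (.pp [(1, 30774000000)]) (.mul (.g 7) (.mul (.g 16)
 (.pp [(1, 155722500)]))))) (.mul (.g 14) (.mul (.pp [(1, 89340)]) (.sq [(1, -78), (2, 8), (3,
 -15), (5, 100), (7, -30)]))))))) (.add (.mul (.g 9) (.add (.add (.mul (.g 11) (.add (.add (.pp
 [(1, 243899550000)]) (.mul (.g 11) (.add (.add (.mul (.g 8) (.pp [(1, 54684150000)])) (.mul (.g 9)
 (.pp [(1, 3628950000)]))) (.add (.mul (.g 16) (.pp [(1, 4864050000)])) (.mul (.g 18) (.pp [(1,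
 16110150000)])))))) (.add (.mul (.g 18) (.add (.mul (.g 9) (.pp [(1, 31178850000)])) (.mul (.g 18)
 (.pp [(1, 25225800000)])))) (.add (.mul (.g 7) (.mul (.g 8) (.pp [(1, 331042500)]))) (.mul (.g 15)
 (.mul (.g 16) (.pp [(1, 77610000)]))))))) (.mul (.g 9) (.add (.add (.mul (.g 7) (.mul (.g 18) (.pp
 [(1, 1627380000)]))) (.mul (.g 9) (.mul (.g 9) (.pp [(1, 28344900000)])))) (.add (.mul (.g 12)
 (.mul (.g 15) (.pp [(1, 1014982500)]))) (.mul (.g 13) (.mul (.g 16) (.pp [(1, 35277750000)])))))))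
 (.add (.mul (.g 8) (.add (.mul (.g 12) (.add (.mul (.g 7) (.pp [(1, 2010667500)])) (.mul (.g 12)
 (.pp [(1, 25308300000)])))) (.mul (.g 8) (.mul (.g 18) (.pp [(1, 3854400000)]))))) (.add (.mul (.g
 13) (.add (.pp [(1, 22579050000)]) (.mul (.g 13) (.pp [(1, 223939650000)])))) (.mul (.g 18) (.add
 (.pp [(1, 250691550000)]) (.mul (.g 12) (.mul (.g 18) (.pp [(1, 31208100000)]))))))))) (.mul (.g
 8) (.add (.add (.mul (.g 7) (.add (.pp [(1, 5555385000)]) (.mul (.g 8) (.add (.pp [(1,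
 2787045000)]) (.add (.mul (.g 8) (.pp [(1, 72697500)])) (.mul (.g 16) (.pp [(1,
 1888605000)]))))))) (.mul (.g 11) (.add (.pp [(1, 24700800000)]) (.mul (.g 14) (.add (.pp [(1,
 23830200000)]) (.mul (.g 12) (.pp [(1, 11405700000)]))))))) (.add (.mul (.g 18) (.add (.mul (.pp
 [(1, 211770)]) (.sq [(1, 4), (2, 60), (3, 10), (5, 100), (7, -71)])) (.mul (.g 8) (.mul (.g 8)
 (.pp [(1, 24135900000)]))))) (.mul (.g 16) (.pp [(1, 287262750000)]))))))) (.add (.mul (.g 11)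
 (.add (.pp [(1, 8178750000)]) (.add (.mul (.g 11) (.add (.mul (.g 11) (.add (.pp [(1,
 5320950000)]) (.add (.mul (.g 7) (.pp [(1, 3108397500)])) (.mul (.g 18) (.pp [(1, 2100000)])))))
 (.mul (.g 14) (.add (.mul (.g 7) (.pp [(1, 941025000)])) (.mul (.g 18) (.pp [(1,
 9376500000)])))))) (.mul (.g 18) (.pp [(1, 9023550000)]))))) (.add (.mul (.g 18) (.add (.mul (.pp
 [(1, 818355)]) (.sq [(2, 75), (3, 59), (5, 59), (7, 100)])) (.add (.mul (.g 13) (.mul (.pp [(1,
 686505)]) (.sq [(1, 49), (2, 44), (3, 100), (5, 34), (7, -19)]))) (.mul (.g 18) (.mul (.pp [(1,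
 11835)]) (.sq [(1, -3), (2, 93), (3, 75), (5, 100), (7, 7)])))))) (.mul (.g 12) (.add (.mul (.g
 12) (.mul (.pp [(1, 1401510)]) (.sq [(1, -27), (2, 2), (3, 38), (5, 52), (7, 100)]))) (.mul (.g
 16) (.mul (.pp [(1, 1562235)]) (.sq [(1, 22), (2, -42), (3, -100), (5, 31), (7, 97)])))))))) (.add
 (.add (.mul (.g 0) (.pp [(1, 50000000000)])) (.add (.mul (.g 1) (.pp [(1, 50000000000)])) (.mul
 (.g 4) (.pp [(1, 15000000)])))) (.add (.mul (.g 13) (.mul (.g 15) (.mul (.pp [(1, 7197)]) (.sq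
 [(1, 35), (2, 60), (3, 1), (5, 100), (7, 9)])))) (.add (.mul (.g 16) (.pp [(1, 214274400000)]))
 (.mul (.g 17) (.pp [(1, 50000000000)])))))) (.pp [(1, 9919762855), (2, 1425210), (3, 1440255), (4,
 1583100), (5, 1503540), (6, 1504515), (7, 1560885), (8, 1464240), (9, 1623273), (10, 1626930),
 (12, 1619025), (14, 1370655), (15, 1425375), (16, 1527960), (18, 1404153), (20, 1665780), (21,
 1433199), (24, 1453500), (25, 1441860), (27, 1511342), (28, 1463325), (30, 1236150), (35,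
 1375305), (36, 1459305), (40, 1465680), (42, 1577154), (45, 1577037), (49, 1434543), (50,
 1325745), (54, 1619670), (56, 1496880), (60, 1402860), (63, 1468251), (70, 1326780), (75,
 1641420), (81, 1372065), (84, 1519470), (90, 1573860), (98, 1554003), (100, 1567200), (105,
 1495416), (125, 1593780), (126, 1495650), (135, 1465380), (140, 1483680), (147, 1582272), (150,
 1319055), (175, 1482015), (189, 1539420), (196, 1581465), (210, 1647990), (225, 1554660), (245,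
 1533402), (250, 1536000), (294, 1549080), (315, 1548300), (343, 1587705), (350, 1391220), (375,
 1508220), (441, 1444545), (490, 1594620), (525, 1539600), (625, 1500000), (686, 1401705), (735,
 1554435), (875, 1532220), (1029, 1535115), (1225, 1467600), (1715, 1552695), (2401,
 1520085)]))))))))))
 (.cut 1 [(2, -1), (3, 1)] (.add (.mul (.g 9) (.pp [(1, 1)])) (.mul (.g 5) (.pp [(1, 1)]))) (.rule
 1 (.cut 1 [(2, 1), (5, -1)] (.add (.mul (.g 11) (.pp [(1, 1)])) (.mul (.g 8) (.pp [(1, 1)])))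
 (.rule 2 (.cut 11 [(1, -69), (3, 100)] (.add (.mul (.g 1) (.pp [(1, 620)])) (.add (.mul (.g 12)
 (.pp [(1, 31)])) (.mul (.g 13) (.pp [(1, 480)])))) (.cut 1 [(1, 3), (3, -2)] (.add (.add (.mul (.g
 11) (.pp [(1, 1)])) (.mul (.g 16) (.pp [(1, 1)]))) (.add (.mul (.g 8) (.pp [(1, 1)])) (.add (.mul
 (.g 9) (.pp [(1, 1)])) (.mul (.g 10) (.pp [(1, 1)]))))) (.rule 8 (.rule 15 (.leaf 660000000 (.add
 (.add (.add (.add (.mul (.g 19) (.add (.add (.add (.pp [(1, 4111555800000)]) (.mul (.g 19) (.add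
 (.add (.mul (.pp [(1, 22031460)]) (.sq [(1, -60), (2, -96), (3, 6), (5, 47), (7, 100)])) (.add
 (.mul (.pp [(1, 97922880)]) (.sq [(1, -64), (2, 72), (3, 100), (5, -82), (7, 21)])) (.mul (.pp
 [(1, 20940480)]) (.sq [(1, 1), (2, 86), (3, -12), (5, 100), (7, 37)])))) (.add (.mul (.g 13) (.add
 (.add (.mul (.g 10) (.pp [(1, 436708800000)])) (.mul (.g 11) (.pp [(1, 272111400000)]))) (.add
 (.mul (.g 12) (.pp [(1, 999444600000)])) (.mul (.g 17) (.pp [(1, 1447809000000)]))))) (.add (.mul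
 (.g 11) (.add (.mul (.g 10) (.pp [(1, 11986392000000)])) (.mul (.g 12) (.pp [(1,
 2661832800000)])))) (.mul (.g 9) (.mul (.g 19) (.pp [(1, 596831400000)])))))))) (.add (.mul (.g
 11) (.add (.add (.mul (.pp [(1, 230886480)]) (.sq [(1, 100), (2, -78), (3, -89), (5, 47), (7,
 -98)])) (.mul (.g 10) (.add (.mul (.g 10) (.pp [(1, 5076766200000)])) (.add (.mul (.g 11) (.pp
 [(1, 4030237200000)])) (.mul (.g 12) (.pp [(1, 7245711000000)])))))) (.add (.mul (.g 11) (.mul (.g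
 11) (.pp [(1, 1073899200000)]))) (.mul (.g 12) (.mul (.g 17) (.pp [(1, 3615361200000)])))))) (.mul
 (.g 12) (.add (.pp [(1, 996454800000)]) (.add (.mul (.pp [(1, 173846640)]) (.sq [(1, 50), (2, 31),
 (3, 41), (5, 41), (7, 41)])) (.mul (.g 9) (.mul (.g 13) (.pp [(1, 585208800000)])))))))) (.add
 (.add (.mul (.g 10) (.add (.pp [(1, 4310677800000)]) (.mul (.g 8) (.mul (.g 9) (.pp [(1,
 532849350000)]))))) (.mul (.g 13) (.mul (.pp [(1, 16844520)]) (.sq [(1, -69), (2, 91), (3, -8),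
 (5, 100)])))) (.add (.mul (.g 14) (.mul (.pp [(1, 1881660)]) (.sq [(1, -21), (2, 61), (3, 15), (5,
 100), (7, 31)]))) (.mul (.g 17) (.mul (.pp [(1, 200003100)]) (.sq [(1, -24), (2, -59), (3, 100),
 (5, 100), (7, -24)]))))))) (.add (.mul (.g 17) (.add (.add (.pp [(1, 4573166400000)]) (.add (.mul
 (.g 9) (.add (.add (.pp [(1, 5696842800000)]) (.mul (.pp [(1, 70534200)]) (.sq [(1, 65), (2, -73),
 (3, -84), (5, 15), (7, 100)]))) (.add (.mul (.g 9) (.add (.mul (.g 10) (.pp [(1, 6211695600000)]))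
 (.mul (.g 17) (.pp [(1, 133016400000)])))) (.mul (.g 12) (.add (.mul (.g 10) (.pp [(1,
 4043490000000)])) (.mul (.g 17) (.pp [(1, 6449533200000)]))))))) (.mul (.g 11) (.add (.add (.pp
 [(1, 5768056800000)]) (.mul (.pp [(1, 457378020)]) (.sq [(1, 43), (2, -53), (3, -64), (5, 48), (7,
 100)]))) (.add (.mul (.g 11) (.add (.mul (.g 10) (.pp [(1, 2169268200000)])) (.mul (.g 17) (.pp
 [(1, 4402695000000)])))) (.mul (.g 8) (.mul (.g 12) (.pp [(1, 1092164370000)])))))))) (.add (.add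
 (.mul (.g 10) (.pp [(1, 5635297800000)])) (.mul (.g 13) (.mul (.pp [(1, 77992200)]) (.sq [(1, -8),
 (2, 100), (3, 52), (5, 52), (7, -39)])))) (.add (.mul (.g 16) (.mul (.pp [(1, 5351808)]) (.sq [(1,
 46), (2, 96), (3, -69), (5, 52), (7, -100)]))) (.mul (.g 17) (.mul (.pp [(1, 67804440)]) (.sq [(1,
 30), (2, -58), (3, -65), (5, 69), (7, 100)]))))))) (.mul (.g 14) (.add (.add (.mul (.g 14) (.add
 (.mul (.pp [(1, 260700)]) (.sq [(2, 95), (3, -8), (5, 100), (7, -34)])) (.add (.mul (.g 10) (.pp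
 [(1, 4184862000000)])) (.mul (.g 11) (.pp [(1, 1907657400000)]))))) (.add (.mul (.g 12) (.add
 (.mul (.pp [(1, 165743160)]) (.sq [(1, 50), (2, 58), (3, 100), (5, -66), (7, 9)])) (.mul (.g 10)
 (.mul (.g 12) (.pp [(1, 2134605000000)]))))) (.mul (.g 13) (.add (.pp [(1, 1169632200000)]) (.mul
 (.pp [(1, 3966600)]) (.sq [(1, -28), (2, 52), (3, 3), (5, 100), (7, -46)])))))) (.add (.add (.mul
 (.g 16) (.add (.pp [(1, 43564290000)]) (.mul (.pp [(1, 6605544)]) (.sq [(1, -2), (2, 38), (3,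
 -19), (5, -3), (7, 100)])))) (.mul (.g 8) (.mul (.pp [(1, 759396)]) (.sq [(1, 100), (2, 81), (3,
 94), (5, 94), (7, 28)])))) (.add (.mul (.g 11) (.pp [(1, 4370256000000)])) (.mul (.g 15) (.mul
 (.pp [(1, 59471280)]) (.sq [(1, -2), (2, 41), (3, -25), (5, -5), (7, 100)]))))))))) (.add (.mul
 (.g 13) (.add (.add (.mul (.g 10) (.add (.pp [(1, 680849400000)]) (.add (.mul (.g 12) (.mul (.g
 13) (.pp [(1, 5022969600000)]))) (.mul (.g 15) (.mul (.g 16) (.pp [(1, 40643130000)])))))) (.add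
 (.mul (.g 13) (.add (.mul (.pp [(1, 84852240)]) (.sq [(1, 11), (2, -23), (3, -38), (5, 76), (7,
 -100)])) (.mul (.pp [(1, 42331740)]) (.sq [(1, 14), (2, -67), (3, 100), (5, 100), (7, 66)]))))
 (.mul (.g 8) (.mul (.pp [(1, 1114443)]) (.sq [(1, 29), (2, -44), (3, 82), (5, -77), (7, 100)])))))
 (.add (.mul (.g 9) (.pp [(1, 2779286400000)])) (.add (.mul (.g 11) (.mul (.pp [(1, 53401920)])
 (.sq [(1, 31), (2, -16), (3, -100), (5, 45), (7, -82)]))) (.mul (.g 12) (.mul (.pp [(1,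
 98404680)]) (.sq [(1, 48), (2, -80), (3, 6), (5, -100), (7, 63)]))))))) (.add (.mul (.g 12) (.add
 (.mul (.pp [(1, 286228800)]) (.sq [(2, 72), (3, 100), (5, -62), (7, -7)])) (.add (.mul (.g 11)
 (.add (.pp [(1, 12069624600000)]) (.add (.mul (.pp [(1, 438786480)]) (.sq [(1, -63), (2, 38), (3,
 100), (5, -70), (7, 17)])) (.mul (.g 9) (.pp [(1, 13999101600000)]))))) (.mul (.g 9) (.mul (.pp
 [(1, 181899960)]) (.sq [(1, 100), (2, -51), (3, 84), (5, -71), (7, -13)])))))) (.mul (.g 9) (.add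
 (.mul (.g 10) (.mul (.pp [(1, 114691500)]) (.sq [(1, 95), (2, -96), (3, -50), (5, -33), (7,
 100)]))) (.mul (.g 16) (.mul (.pp [(1, 1641585)]) (.sq [(1, 100), (2, 49), (3, -66), (5, -66), (7,
 -8)])))))))) (.add (.add (.mul (.g 0) (.pp [(1, 200000000000)])) (.add (.mul (.g 1) (.pp [(1,
 660000000)])) (.mul (.g 4) (.pp [(1, 2200000000000)])))) (.add (.mul (.g 6) (.pp [(1,
 2200000000000)])) (.add (.mul (.g 10) (.mul (.g 15) (.mul (.pp [(1, 51487920)]) (.sq [(1, 7), (2,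
 -31), (3, -77), (5, 70), (7, 100)])))) (.mul (.g 18) (.pp [(1, 2200000000000)])))))) (.pp [(1,
 203877633775), (2, 67642709), (3, 40711988), (4, 96232840), (5, 47761162), (6, 71013316), (7,
 49582500), (8, 73243137), (9, 97520940), (10, 67122022), (12, 27769544), (14, 72115956), (15,
 101249324), (16, 70387020), (18, 53501140), (20, 63377952), (21, 96008484), (24, 68341680), (25,
 91880767), (27, 49608240), (28, 46981176), (30, 60222404), (35, 70210404), (36, 79348500), (40,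
 67022340), (42, 62561928), (45, 46458500), (49, 79991604), (50, 60271893), (54, 71266140), (56,
 62622780), (60, 64430520), (63, 44621676), (70, 70991448), (75, 32745152), (81, 70363260), (84,
 91354560), (90, 68320560), (98, 61378284), (100, 63719040), (105, 67025112), (125, 51516520),
 (126, 59596020), (135, 67344420), (140, 77621940), (147, 50955696), (150, 65434380), (175,
 43665336), (189, 70294620), (196, 66539880), (210, 37194960), (225, 74514660), (245, 63126756),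
 (250, 63098640), (294, 78926100), (315, 66941820), (343, 55170060), (350, 68702040), (375,
 78431760), (441, 74138460), (490, 68055240), (525, 87248040), (625, 68779920), (686, 64348020),
 (735, 71656860), (875, 69239280), (1029, 76395660), (1225, 67094940), (1715, 72108300), (2401,
 70094640)]))))))))))))
 (P_Op1 ++ xP_A_F3) = true := by decide +kernel

theorem t_A_F5b_c2 : chk ROp gP_A_F5b
 (.cut 1 [(2, -1), (3, 1)] (.add (.mul (.g 12) (.pp [(1, 1)])) (.mul (.g 4) (.pp [(1, 1)]))) (.rule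
 1 (.cut 1 [(2, 1), (5, -1)] (.add (.mul (.g 10) (.pp [(1, 1)])) (.mul (.g 1) (.pp [(1, 1)])))
 (.rule 2 (.cut 11 [(1, -69), (3, 100)] (.add (.mul (.g 1) (.pp [(1, 620)])) (.add (.mul (.g 11)
 (.pp [(1, 31)])) (.mul (.g 16) (.pp [(1, 480)])))) (.cut 1 [(1, 3), (3, -2)] (.add (.add (.mul (.g
 10) (.pp [(1, 1)])) (.mul (.g 15) (.pp [(1, 1)]))) (.add (.mul (.g 7) (.pp [(1, 1)])) (.mul (.g 9)
 (.pp [(1, 1)])))) (.rule 8 (.leaf 15000000 (.add (.add (.add (.add (.mul (.g 7) (.add (.add (.mul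
 (.g 9) (.add (.add (.mul (.g 19) (.add (.mul (.g 9) (.pp [(1, 49568400000)])) (.mul (.g 13) (.pp
 [(1, 24138750000)])))) (.mul (.g 7) (.mul (.g 12) (.pp [(1, 51804450000)])))) (.add (.mul (.g 11)
 (.mul (.g 15) (.pp [(1, 28461825000)]))) (.mul (.g 17) (.mul (.g 20) (.pp [(1, 12904500000)]))))))
 (.mul (.g 11) (.add (.pp [(1, 100004700000)]) (.add (.mul (.pp [(1, 2089815)]) (.sq [(1, 51), (2,
 -28), (3, 100), (5, 66)])) (.mul (.g 8) (.mul (.g 20) (.pp [(1, 14463450000)]))))))) (.add (.mul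
 (.g 14) (.add (.mul (.g 8) (.mul (.g 20) (.pp [(1, 3604650000)]))) (.mul (.g 14) (.pp [(1,
 78650625)])))) (.add (.mul (.g 15) (.add (.mul (.g 7) (.mul (.g 15) (.pp [(1, 409237500)]))) (.mul
 (.g 12) (.pp [(1, 25974600000)])))) (.mul (.g 19) (.add (.pp [(1, 94560450000)]) (.mul (.g 13)
 (.mul (.g 17) (.pp [(1, 4248600000)]))))))))) (.mul (.g 17) (.add (.add (.mul (.g 9) (.add (.pp
 [(1, 120371850000)]) (.mul (.g 9) (.mul (.g 9) (.pp [(1, 23792250000)]))))) (.add (.mul (.g 12)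
 (.add (.mul (.pp [(1, 604635)]) (.sq [(1, 23), (2, 34), (3, 100), (5, -50)])) (.mul (.pp [(1,
 41728500)]) (.sq [(2, 17), (3, 7), (5, 20)])))) (.mul (.g 13) (.mul (.pp [(1, 18673680)]) (.sq
 [(2, 12), (3, 25), (5, -21)]))))) (.add (.mul (.g 14) (.mul (.pp [(1, 99462)]) (.sq [(1, 37), (2,
 1), (3, -1), (5, 50)]))) (.add (.mul (.g 15) (.mul (.g 15) (.mul (.g 17) (.pp [(1,
 2253525000)])))) (.mul (.g 20) (.mul (.pp [(1, 1024050)]) (.sq [(1, -14), (2, 100), (3, 91), (5,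
 -55)])))))))) (.add (.mul (.g 8) (.add (.add (.mul (.g 8) (.add (.mul (.g 14) (.add (.mul (.g 16)
 (.pp [(1, 94903500)])) (.mul (.g 20) (.pp [(1, 1390140000)])))) (.mul (.g 8) (.mul (.g 15) (.pp
 [(1, 8163300000)]))))) (.mul (.g 9) (.mul (.g 11) (.mul (.g 20) (.pp [(1, 73811850000)]))))) (.add
 (.mul (.g 14) (.mul (.g 15) (.pp [(1, 3177273750)]))) (.mul (.g 19) (.pp [(1, 8646450000)])))))
 (.add (.mul (.g 9) (.add (.mul (.g 9) (.add (.mul (.g 11) (.add (.mul (.g 11) (.pp [(1,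
 33114000000)])) (.mul (.g 19) (.pp [(1, 95230500000)])))) (.mul (.g 9) (.mul (.g 13) (.pp [(1,
 7594650000)]))))) (.mul (.g 11) (.mul (.pp [(1, 298245)]) (.sq [(1, -11), (2, 83), (3, 41), (5,
 -100)]))))) (.mul (.g 20) (.add (.mul (.g 11) (.pp [(1, 3635100000)])) (.mul (.g 14) (.mul (.pp
 [(1, 167496)]) (.sq [(1, -45), (2, -18), (3, -50), (5, 41)])))))))) (.add (.add (.mul (.g 0) (.pp
 [(1, 15000000)])) (.mul (.g 3) (.pp [(1, 50000000000)]))) (.add (.mul (.g 5) (.pp [(1,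
 50000000000)])) (.add (.mul (.g 18) (.pp [(1, 50000000)])) (.mul (.g 19) (.pp [(1,
 6423450000)])))))) (.pp [(1, 5060870187), (2, 1570437), (3, 1393476), (4, 1439409), (5, 1421850),
 (6, 1663407), (8, 1502080), (9, 1494555), (10, 1600371), (12, 2027622), (15, 1452945), (16,
 1464960), (18, 923916), (20, 1454589), (24, 1481400), (25, 1562694), (27, 1514392), (30, 615180),
 (36, 1388580), (40, 1429485), (45, 1723905), (50, 1573464), (54, 1785780), (60, 1617870), (75,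
 1605450), (81, 1417740), (90, 1860645), (100, 1610640), (125, 1378566), (135, 1416690), (150,
 1549980), (225, 1430880), (250, 1402560), (375, 1597650), (625, 1565520)]))))))))))
 (P_c2 ++ xP_A_F5b) = true := by decide +kernel

theorem t_A_F5b_Op1 : chk ROp gP_A_F5b
 (.split [(1, -3), (3, 2)]
 (.cut 3 [(2, -1), (3, 1)] (.add (.mul (.g 0) (.pp [(1, 1)])) (.add (.mul (.g 2) (.pp [(1, 1)]))
 (.mul (.g 5) (.pp [(1, 3)])))) (.rule 1 (.cut 3 [(2, 1), (5, -1)] (.add (.add (.mul (.g 3) (.pp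
 [(1, 1)])) (.mul (.g 1) (.pp [(1, 1)]))) (.add (.mul (.g 2) (.pp [(1, 1)])) (.mul (.g 8) (.pp [(1,
 3)])))) (.rule 2 (.rule 9 (.cut 1 [(1, -2), (2, -1), (3, 2), (5, 1)] (.add (.mul (.g 10) (.pp [(1,
 1)])) (.add (.mul (.g 5) (.pp [(1, 1)])) (.mul (.g 8) (.pp [(1, 1)])))) (.cut 1 [(1, -1), (2, -2),
 (3, 2), (5, 2)] (.add (.mul (.g 11) (.pp [(1, 1)])) (.add (.mul (.g 9) (.pp [(1, 1)])) (.mul (.g
 0) (.pp [(1, 1)])))) (.rule 10 (.leaf 3000000 (.add (.add (.add (.add (.mul (.g 11) (.add (.add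
 (.mul (.g 10) (.add (.add (.pp [(1, 4456320000)]) (.mul (.g 13) (.add (.pp [(1, 22933770000)])
 (.add (.mul (.g 10) (.pp [(1, 4199730000)])) (.mul (.g 13) (.pp [(1, 256050000)])))))) (.add (.mul
 (.g 8) (.mul (.g 9) (.pp [(1, 2047870000)]))) (.mul (.g 10) (.mul (.g 20) (.pp [(1, 780000)]))))))
 (.add (.mul (.g 9) (.add (.mul (.g 9) (.add (.pp [(1, 15837930000)]) (.mul (.g 20) (.pp [(1,
 9350700000)])))) (.add (.mul (.g 11) (.mul (.g 11) (.pp [(1, 5346810000)]))) (.mul (.g 20) (.mul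
 (.g 20) (.pp [(1, 3472470000)])))))) (.mul (.g 11) (.add (.mul (.pp [(1, 26874)]) (.sq [(1, -22),
 (2, 100), (3, -33), (5, 88)])) (.mul (.g 13) (.add (.mul (.g 11) (.pp [(1, 9125580000)])) (.mul
 (.g 13) (.pp [(1, 9197580000)])))))))) (.add (.mul (.g 8) (.pp [(1, 6757700000)])) (.add (.mul (.g
 13) (.pp [(1, 24833880000)])) (.mul (.g 15) (.mul (.pp [(1, 9372)]) (.sq [(1, 100), (2, 27), (3,
 -87), (5, 64)]))))))) (.mul (.g 9) (.add (.add (.mul (.g 9) (.mul (.g 9) (.add (.mul (.g 9) (.pp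
 [(1, 1346610000)])) (.add (.mul (.g 13) (.pp [(1, 1374510000)])) (.mul (.g 14) (.pp [(1,
 1410000)])))))) (.mul (.g 10) (.add (.mul (.g 8) (.mul (.g 10) (.pp [(1, 1433700000)]))) (.mul (.g
 13) (.mul (.g 15) (.pp [(1, 76950000)])))))) (.add (.mul (.g 13) (.mul (.g 13) (.mul (.g 20) (.pp
 [(1, 71040000)])))) (.add (.mul (.g 14) (.pp [(1, 21616140000)])) (.mul (.g 16) (.mul (.g 16) (.pp
 [(1, 17700)])))))))) (.add (.mul (.g 10) (.add (.mul (.g 13) (.add (.pp [(1, 19560360000)]) (.mul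
 (.g 10) (.add (.mul (.g 8) (.pp [(1, 2700000)])) (.mul (.g 10) (.pp [(1, 2835600000)])))))) (.add
 (.mul (.g 14) (.add (.mul (.pp [(1, 1107)]) (.sq [(1, 100), (2, -8), (3, 67), (5, 67)])) (.mul (.g
 16) (.pp [(1, 216441000)])))) (.mul (.g 8) (.pp [(1, 6184430000)]))))) (.add (.mul (.g 14) (.add
 (.mul (.g 15) (.add (.mul (.pp [(1, 1761)]) (.sq [(1, -10), (2, -1), (3, 19), (5, 100)])) (.mul
 (.g 15) (.pp [(1, 8493300000)])))) (.mul (.g 14) (.mul (.pp [(1, 65520)]) (.sq [(2, 20), (3, -9),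
 (5, 50)]))))) (.mul (.g 8) (.add (.mul (.g 8) (.pp [(1, 1829950000)])) (.mul (.g 15) (.pp [(1,
 12770420000)]))))))) (.add (.add (.mul (.g 0) (.pp [(1, 10000000000)])) (.mul (.g 3) (.pp [(1,
 30000000)]))) (.add (.mul (.g 4) (.pp [(1, 10000000000)])) (.add (.mul (.g 6) (.pp [(1,
 10000000000)])) (.mul (.g 18) (.pp [(1, 10000000000)])))))) (.pp [(1, 3337450000), (2, 302400),
 (3, 312900), (4, 271320), (5, 303900), (6, 332800), (8, 280981), (9, 285360), (10, 332580), (12,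
 312453), (15, 258580), (16, 283761), (18, 299283), (20, 348399), (24, 321912), (25, 291084), (27,
 293816), (30, 235422), (36, 289350), (40, 302466), (45, 322113), (50, 239820), (54, 307053), (60,
 286866), (75, 323649), (81, 297924), (90, 315832), (100, 325605), (125, 282528), (135, 288303),
 (150, 282087), (225, 310308), (250, 303480), (375, 312195), (625, 310032)])))))))))))
 (.cut 1 [(2, -1), (3, 1)] (.add (.mul (.g 9) (.pp [(1, 1)])) (.mul (.g 5) (.pp [(1, 1)]))) (.rule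
 1 (.cut 1 [(2, 1), (5, -1)] (.add (.mul (.g 11) (.pp [(1, 1)])) (.mul (.g 8) (.pp [(1, 1)])))
 (.rule 2 (.cut 11 [(1, -69), (3, 100)] (.add (.mul (.g 1) (.pp [(1, 620)])) (.add (.mul (.g 12)
 (.pp [(1, 31)])) (.mul (.g 13) (.pp [(1, 480)])))) (.rule 8 (.rule 15 (.leaf 132000000 (.add (.add
 (.add (.add (.mul (.g 8) (.add (.add (.mul (.g 12) (.add (.mul (.g 9) (.add (.add (.mul (.g 7)
 (.pp [(1, 63961920000)])) (.mul (.g 9) (.pp [(1, 169608120000)]))) (.add (.mul (.g 12) (.pp [(1,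
 124012680000)])) (.mul (.g 19) (.pp [(1, 49585800000)]))))) (.mul (.g 12) (.add (.mul (.g 12) (.pp
 [(1, 52281240000)])) (.mul (.g 14) (.pp [(1, 35867040000)])))))) (.mul (.g 13) (.add (.mul (.g 10)
 (.add (.mul (.g 7) (.pp [(1, 48820640000)])) (.add (.mul (.g 8) (.pp [(1, 9608280000)])) (.mul (.g
 9) (.pp [(1, 214262400000)]))))) (.add (.mul (.g 8) (.mul (.g 8) (.pp [(1, 71078040000)]))) (.mul
 (.g 14) (.pp [(1, 41700120000)])))))) (.add (.mul (.g 8) (.add (.mul (.pp [(1, 4164072)]) (.sq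
 [(1, 51), (2, 64), (3, -100), (5, 48)])) (.mul (.g 7) (.mul (.g 8) (.pp [(1, 17755320000)])))))
 (.mul (.g 10) (.mul (.g 10) (.mul (.g 10) (.pp [(1, 17273520000)]))))))) (.add (.mul (.g 10) (.add
 (.add (.mul (.g 9) (.add (.mul (.g 19) (.add (.pp [(1, 205110840000)]) (.mul (.g 19) (.pp [(1,
 99319440000)])))) (.mul (.g 14) (.mul (.g 16) (.pp [(1, 531190440000)]))))) (.mul (.g 10) (.add
 (.mul (.g 7) (.mul (.g 7) (.pp [(1, 29149560000)]))) (.add (.mul (.g 10) (.mul (.g 14) (.pp [(1,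
 17278800000)]))) (.mul (.g 12) (.mul (.g 16) (.pp [(1, 116629920000)]))))))) (.add (.mul (.g 12)
 (.pp [(1, 813047400000)])) (.mul (.g 13) (.pp [(1, 762158760000)]))))) (.mul (.g 16) (.add (.add
 (.mul (.g 9) (.add (.mul (.g 9) (.pp [(1, 181849800000)])) (.mul (.g 14) (.mul (.g 19) (.pp [(1,
 414601440000)]))))) (.mul (.g 7) (.pp [(1, 90232120000)]))) (.add (.mul (.g 13) (.pp [(1,
 161367360000)])) (.mul (.g 14) (.mul (.g 14) (.mul (.g 19) (.pp [(1, 116606160000)]))))))))) (.add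
 (.mul (.g 12) (.add (.add (.pp [(1, 176569800000)]) (.mul (.g 7) (.pp [(1, 7318520000)]))) (.add
 (.mul (.g 12) (.pp [(1, 136993560000)])) (.mul (.g 14) (.mul (.pp [(1, 1320)]) (.sq [(1, -35), (2,
 -31), (3, 100), (5, -78)])))))) (.add (.mul (.g 9) (.add (.mul (.g 13) (.pp [(1, 217836960000)]))
 (.mul (.g 15) (.mul (.g 15) (.pp [(1, 671170500)]))))) (.mul (.g 0) (.pp [(1, 40000000000)])))))
 (.add (.add (.mul (.g 1) (.pp [(1, 132000000)])) (.add (.mul (.g 3) (.pp [(1, 440000000000)]))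
 (.mul (.g 5) (.pp [(1, 440000000000)])))) (.add (.mul (.g 7) (.mul (.g 15) (.mul (.pp [(1, 33)])
 (.sq [(1, -39), (2, 52), (3, 100), (5, -66)])))) (.add (.mul (.g 13) (.mul (.g 13) (.mul (.g 14)
 (.pp [(1, 338412360000)])))) (.mul (.g 17) (.pp [(1, 440000000000)])))))) (.pp [(1, 44798155211),
 (2, 11974684), (3, 15107646), (4, 13074512), (5, 14078288), (6, 14427424), (8, 11376024), (9,
 12294920), (10, 15867896), (12, 14492104), (15, 11852368), (16, 12932568), (18, 13196480), (20,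
 14931048), (24, 14964840), (25, 12000956), (27, 12804000), (30, 11006336), (36, 12017280), (40,
 13546632), (45, 13668160), (50, 12590160), (54, 13728000), (60, 14032480), (75, 14040136), (81,
 13200000), (90, 12499520), (100, 12610752), (125, 12824240), (135, 12936000), (150, 11348480),
 (225, 13405920), (250, 13310880), (375, 13669920), (625, 13200000)])))))))))))
 (P_Op1 ++ xP_A_F5b) = true := by decide +kernel

theorem t_A_T6_TpB_a : chk Rap gP_A_T6
 (.split [(1, -3), (3, 5)]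
 (.split [(1, -5), (5, 4)]
 (.cut 5 [(2, 1), (3, -1)] (.add (.mul (.g 0) (.pp [(1, 1)])) (.add (.mul (.g 4) (.pp [(1, 1)]))
 (.mul (.g 7) (.pp [(1, 5)])))) (.rule 0 (.cut 5 [(2, -1), (5, 1)] (.add (.mul (.g 2) (.pp [(1,
 1)])) (.add (.mul (.g 6) (.pp [(1, 1)])) (.mul (.g 8) (.pp [(1, 5)])))) (.rule 3 (.cut 2 [(1, 3),
 (3, -2)] (.add (.mul (.g 3) (.pp [(1, 9)])) (.add (.mul (.g 10) (.pp [(1, 9)])) (.mul (.g 5) (.pp
 [(1, 1)])))) (.rule 8 (.cut 9 [(1, 9), (5, -5)] (.add (.add (.mul (.g 13) (.pp [(1, 45)])) (.mul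
 (.g 7) (.pp [(1, 13)]))) (.add (.mul (.g 12) (.pp [(1, 45)])) (.mul (.g 1) (.pp [(1, 10)]))))
 (.rule 12 (.cut 5 [(1, -2), (2, -1), (3, 1), (5, 2)] (.add (.add (.mul (.g 5) (.pp [(1, 2)]))
 (.mul (.g 9) (.pp [(1, 1)]))) (.add (.mul (.g 8) (.pp [(1, 2)])) (.mul (.g 14) (.pp [(1, 3)]))))
 (.cut 10 [(1, -1), (2, -2), (3, 2), (5, 2)] (.add (.add (.mul (.g 6) (.pp [(1, 15)])) (.mul (.g
 10) (.pp [(1, 3)]))) (.add (.mul (.g 2) (.pp [(1, 1)])) (.mul (.g 0) (.pp [(1, 5)])))) (.rule 18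
 (.leaf 300000000 (.add (.add (.add (.add (.mul (.g 23) (.add (.add (.add (.mul (.g 13) (.add (.add
 (.mul (.pp [(1, 1278600)]) (.sq [(1, 68), (2, 91), (3, 93), (5, 100), (7, 66)])) (.mul (.g 13)
 (.add (.mul (.g 13) (.pp [(1, 176736000000)])) (.add (.mul (.g 14) (.pp [(1, 555261000000)]))
 (.mul (.g 16) (.pp [(1, 571434000000)])))))) (.add (.mul (.g 16) (.add (.mul (.g 14) (.pp [(1,
 46305000000)])) (.mul (.g 15) (.pp [(1, 5664000000)])))) (.mul (.g 18) (.mul (.g 19) (.pp [(1,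
 356484000000)])))))) (.mul (.g 12) (.add (.add (.mul (.pp [(1, 66300)]) (.sq [(1, 100), (2, 91),
 (3, 31), (5, 91), (7, 31)])) (.mul (.pp [(1, 439080)]) (.sq [(1, -58), (2, 57), (3, 100), (5,
 -93), (7, -31)]))) (.add (.mul (.g 14) (.add (.mul (.g 14) (.pp [(1, 10598400000)])) (.mul (.g 16)
 (.pp [(1, 8748000000)])))) (.mul (.g 12) (.mul (.g 16) (.pp [(1, 74003520000)]))))))) (.add (.mul
 (.g 14) (.add (.mul (.g 15) (.mul (.g 17) (.pp [(1, 239934000000)]))) (.add (.mul (.g 16) (.mul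
 (.g 16) (.pp [(1, 370224000000)]))) (.mul (.g 18) (.mul (.g 23) (.pp [(1, 796884000000)]))))))
 (.mul (.g 17) (.add (.pp [(1, 502764000000)]) (.mul (.pp [(1, 29143500)]) (.sq [(1, -100), (2,
 66), (3, 93), (5, -12), (7, 88)])))))) (.add (.add (.mul (.g 23) (.add (.pp [(1, 227901000000)])
 (.mul (.pp [(1, 8707500)]) (.sq [(1, -100), (2, 36), (3, 55), (5, 35), (7, 55)])))) (.mul (.g 11)
 (.pp [(1, 206698200000)]))) (.add (.mul (.g 16) (.mul (.pp [(1, 4019400)]) (.sq [(1, 100), (2,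
 81), (3, 81), (5, 81), (7, 81)]))) (.add (.mul (.g 18) (.mul (.pp [(1, 586521600)]) (.sq [(1,
 -13), (2, -18), (3, 13), (5, 25), (7, 5)]))) (.mul (.g 21) (.mul (.pp [(1, 22555800)]) (.sq [(1,
 10), (2, 100), (3, -83), (5, -50), (7, -90)])))))))) (.add (.mul (.g 12) (.add (.add (.mul (.g 16)
 (.add (.add (.mul (.pp [(1, 7765920)]) (.sq [(1, 86), (2, 32), (3, -100), (5, -3), (7, 61)]))
 (.mul (.g 12) (.add (.mul (.g 14) (.pp [(1, 70020960000)])) (.add (.mul (.g 16) (.pp [(1,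
 82249920000)])) (.mul (.g 18) (.pp [(1, 46443480000)])))))) (.add (.mul (.g 13) (.mul (.g 21) (.pp
 [(1, 642495600000)]))) (.add (.mul (.g 18) (.mul (.g 18) (.pp [(1, 97441800000)]))) (.mul (.g 20)
 (.mul (.g 20) (.pp [(1, 882240000)]))))))) (.add (.mul (.g 13) (.add (.mul (.g 15) (.add (.mul (.g
 11) (.pp [(1, 4490640000)])) (.mul (.g 18) (.pp [(1, 97756200000)])))) (.mul (.g 13) (.pp [(1,
 261039600000)])))) (.mul (.g 17) (.add (.pp [(1, 324402600000)]) (.mul (.pp [(1, 750780)]) (.sq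
 [(1, 46), (2, -42), (3, -65), (5, 100), (7, -22)])))))) (.add (.mul (.g 20) (.add (.mul (.pp [(1,
 313056)]) (.sq [(1, 50), (2, -3), (3, -96), (5, -60), (7, 100)])) (.mul (.pp [(1, 7279968)]) (.sq
 [(1, -23), (3, 50), (5, -17), (7, 35)])))) (.add (.mul (.g 12) (.mul (.pp [(1, 266160)]) (.sq [(1,
 -27), (2, -91), (3, -44), (5, -35), (7, 100)]))) (.mul (.g 14) (.mul (.g 14) (.mul (.g 18) (.pp
 [(1, 320129400000)])))))))) (.mul (.g 18) (.add (.add (.mul (.g 13) (.add (.mul (.pp [(1,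
 13471200)]) (.sq [(1, -99), (2, -75), (3, 50), (5, 100), (7, -17)])) (.mul (.g 13) (.add (.pp [(1,
 720414000000)]) (.mul (.g 14) (.pp [(1, 109788000000)])))))) (.add (.mul (.g 15) (.add (.mul (.g
 14) (.pp [(1, 367554000000)])) (.add (.mul (.g 17) (.mul (.g 17) (.pp [(1, 34641000000)]))) (.mul
 (.g 20) (.pp [(1, 27989400000)]))))) (.mul (.g 18) (.add (.pp [(1, 2741910000000)]) (.mul (.pp
 [(1, 787200)]) (.sq [(1, -17), (2, 16), (3, 100), (5, 28), (7, -90)])))))) (.add (.mul (.g 20)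
 (.add (.mul (.pp [(1, 1407045)]) (.sq [(1, 100), (2, -29), (3, 27), (5, 55), (7, 9)])) (.mul (.g
 14) (.mul (.g 16) (.pp [(1, 121654950000)]))))) (.add (.mul (.g 11) (.mul (.pp [(1, 11384940)])
 (.sq [(1, -21), (2, 17), (3, -70), (5, 57), (7, 100)]))) (.mul (.g 17) (.mul (.pp [(1, 7856400)])
 (.sq [(1, -6), (2, 96), (3, 13), (5, 100)]))))))))) (.add (.add (.mul (.g 11) (.add (.add (.mul
 (.g 14) (.add (.mul (.g 16) (.add (.mul (.g 17) (.pp [(1, 316128000000)])) (.mul (.g 20) (.pp [(1,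
 14350830000)])))) (.mul (.g 11) (.mul (.g 13) (.pp [(1, 19579320000)]))))) (.mul (.g 17) (.add
 (.pp [(1, 275868000000)]) (.mul (.g 13) (.mul (.g 13) (.pp [(1, 12447600000)])))))) (.add (.mul
 (.g 11) (.pp [(1, 40144440000)])) (.add (.mul (.g 15) (.pp [(1, 231435600000)])) (.mul (.g 19)
 (.pp [(1, 161910000000)])))))) (.mul (.g 16) (.add (.add (.mul (.pp [(1, 371400)]) (.sq [(2, -17),
 (3, -36), (5, 19), (7, 100)])) (.mul (.g 14) (.mul (.g 15) (.mul (.g 17) (.pp [(1,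
 1303050000000)]))))) (.add (.mul (.g 16) (.mul (.g 16) (.mul (.g 19) (.pp [(1, 137097000000)]))))
 (.mul (.g 20) (.mul (.pp [(1, 926925)]) (.sq [(1, -51), (2, -34), (3, 100), (5, 19), (7,
 -52)]))))))) (.add (.mul (.g 19) (.add (.mul (.g 13) (.mul (.g 15) (.mul (.g 17) (.pp [(1,
 239595000000)])))) (.add (.mul (.g 20) (.mul (.pp [(1, 1192815)]) (.sq [(1, -3), (2, -29), (3,
 100), (5, -18), (7, 95)]))) (.mul (.g 21) (.mul (.pp [(1, 32135100)]) (.sq [(1, -2), (2, 10), (3,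
 100), (5, -42), (7, -59)])))))) (.mul (.g 20) (.add (.mul (.pp [(1, 1472100)]) (.sq [(2, 18), (3,
 -29), (5, 20), (7, 50)])) (.mul (.g 15) (.mul (.pp [(1, 1814985)]) (.sq [(1, -1), (2, 3), (3,
 100), (5, -68), (7, -34)])))))))) (.add (.add (.add (.mul (.g 0) (.pp [(1, 1000000000000)])) (.mul
 (.g 3) (.pp [(1, 12000000000)]))) (.add (.mul (.g 5) (.pp [(1, 300000000)])) (.mul (.g 7) (.pp
 [(1, 1000000000000)])))) (.add (.add (.mul (.g 9) (.pp [(1, 1000000000000)])) (.mul (.g 17) (.mul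
 (.g 17) (.pp [(1, 1252866000000)])))) (.add (.mul (.g 21) (.mul (.g 21) (.mul (.pp [(1,
 19084800)]) (.sq [(1, 1), (2, 54), (3, -78), (5, -3), (7, 100)])))) (.mul (.g 22) (.pp [(1,
 1000000000000)])))))) (.pp [(1, 38747464396), (2, 28985325), (3, 34387275), (4, 29022447), (5,
 36178308), (6, 23457708), (7, 29484165), (8, 30344470), (9, 20863413), (10, 31646790), (12,
 29681700), (14, 22489380), (15, 21445410), (16, 30907800), (18, 36721095), (20, 27436065), (21,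
 23773140), (24, 29320800), (25, 26433861), (27, 38430135), (28, 32628000), (30, 23978970), (35,
 26975070), (36, 35749200), (40, 30984060), (42, 27362550), (45, 33625365), (49, 30802485), (50,
 28562355), (54, 28988400), (56, 28744200), (60, 31850340), (63, 43648170), (70, 24681210), (75,
 37202925), (81, 26396100), (84, 34488900), (90, 28542600), (98, 37751670), (100, 29810760), (105,
 36115080), (125, 30926015), (126, 32688300), (135, 33131400), (140, 32963400), (147, 30783330),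
 (150, 29875680), (175, 28905015), (189, 29106900), (196, 33067200), (210, 43727400), (225,
 29616000), (245, 26105910), (250, 28728240), (294, 34031400), (315, 30415800), (343, 31796820),
 (350, 31590900), (375, 28670640), (441, 33316500), (490, 28277100), (525, 27504600), (625,
 30404340), (686, 31328400), (735, 35756100), (875, 29402100), (1029, 32365500), (1225, 33321000),
 (1715, 32527800), (2401, 31095900)]))))))))))))))
 (.cut 1 [(2, 1), (3, -1)] (.add (.mul (.g 10) (.pp [(1, 1)])) (.mul (.g 7) (.pp [(1, 1)]))) (.rule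
 0 (.cut 1 [(2, -1), (5, 1)] (.add (.mul (.g 12) (.pp [(1, 1)])) (.mul (.g 8) (.pp [(1, 1)])))
 (.rule 3 (.cut 13 [(1, 3), (3, -2)] (.add (.add (.mul (.g 3) (.pp [(1, 36)])) (.mul (.g 4) (.pp
 [(1, 9)]))) (.add (.mul (.g 1) (.pp [(1, 36)])) (.mul (.g 5) (.pp [(1, 2)])))) (.rule 8 (.rule 11
 (.rule 25 (.leaf 330000000 (.add (.add (.add (.add (.mul (.g 13) (.add (.add (.mul (.g 13) (.add
 (.add (.mul (.g 8) (.add (.add (.mul (.g 13) (.pp [(1, 2535720000)])) (.mul (.g 16) (.pp [(1,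
 28630800000)]))) (.add (.mul (.g 17) (.pp [(1, 1566411000)])) (.mul (.g 18) (.pp [(1,
 52822440000)]))))) (.mul (.g 9) (.add (.add (.mul (.g 9) (.pp [(1, 6883536000)])) (.mul (.g 12)
 (.pp [(1, 81533100000)]))) (.add (.mul (.g 18) (.pp [(1, 39705600000)])) (.mul (.g 20) (.pp [(1,
 78258180000)])))))) (.add (.mul (.g 13) (.mul (.g 20) (.pp [(1, 214232700000)]))) (.mul (.g 15)
 (.mul (.g 17) (.pp [(1, 6324450000)])))))) (.mul (.g 20) (.add (.add (.mul (.g 10) (.add (.pp [(1,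
 683080200000)]) (.mul (.g 10) (.pp [(1, 269626500000)])))) (.mul (.g 11) (.add (.mul (.g 9) (.pp
 [(1, 67362900000)])) (.mul (.g 18) (.pp [(1, 692062800000)]))))) (.add (.mul (.g 12) (.mul (.g 15)
 (.pp [(1, 602121300000)]))) (.mul (.g 16) (.mul (.g 18) (.pp [(1, 49057800000)]))))))) (.add (.mul
 (.g 16) (.add (.mul (.pp [(1, 766260)]) (.sq [(1, 29), (2, -65), (3, 97), (5, -73), (7, 100)]))
 (.mul (.g 14) (.add (.mul (.g 9) (.pp [(1, 22552200000)])) (.add (.mul (.g 15) (.pp [(1,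
 217156500000)])) (.mul (.g 18) (.pp [(1, 753769500000)]))))))) (.add (.mul (.g 10) (.add (.mul (.g
 9) (.add (.mul (.g 10) (.pp [(1, 34437480000)])) (.mul (.g 12) (.pp [(1, 59254800000)])))) (.mul
 (.g 10) (.mul (.g 18) (.pp [(1, 80909400000)]))))) (.mul (.g 11) (.mul (.g 11) (.mul (.g 18) (.pp
 [(1, 216740700000)])))))))) (.add (.mul (.g 18) (.add (.add (.mul (.g 12) (.add (.mul (.g 11)
 (.add (.add (.mul (.g 10) (.pp [(1, 64072800000)])) (.mul (.g 12) (.pp [(1, 162439200000)])))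
 (.add (.mul (.g 18) (.pp [(1, 360812100000)])) (.mul (.g 20) (.pp [(1, 365372700000)]))))) (.add
 (.mul (.g 12) (.add (.mul (.g 14) (.pp [(1, 156545400000)])) (.mul (.g 16) (.pp [(1,
 155598300000)])))) (.mul (.g 14) (.mul (.g 17) (.pp [(1, 2798565000)])))))) (.add (.mul (.g 10)
 (.add (.add (.mul (.g 9) (.mul (.g 9) (.pp [(1, 3383688000)]))) (.mul (.g 11) (.mul (.g 20) (.pp
 [(1, 408919500000)])))) (.add (.mul (.g 14) (.mul (.g 14) (.pp [(1, 47477100000)]))) (.mul (.g 18)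
 (.mul (.g 18) (.pp [(1, 169233900000)])))))) (.mul (.g 18) (.add (.pp [(1, 1740957900000)]) (.mul
 (.g 11) (.mul (.g 11) (.pp [(1, 602510700000)]))))))) (.add (.mul (.g 20) (.add (.pp [(1,
 453014100000)]) (.mul (.pp [(1, 4405830)]) (.sq [(1, -2), (2, 77), (3, -66), (5, 100), (7,
 26)])))) (.add (.mul (.g 9) (.pp [(1, 105315540000)])) (.mul (.g 15) (.pp [(1,
 1882181400000)])))))) (.mul (.g 15) (.add (.add (.mul (.g 12) (.add (.mul (.pp [(1, 4374150)])
 (.sq [(1, 4), (2, 95), (3, 100), (5, -33), (7, -42)])) (.mul (.g 8) (.add (.pp [(1,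
 331255980000)]) (.mul (.g 15) (.pp [(1, 50305860000)])))))) (.add (.mul (.g 9) (.add (.pp [(1,
 465662340000)]) (.mul (.g 9) (.mul (.g 16) (.pp [(1, 3374448000)]))))) (.mul (.g 10) (.add (.mul
 (.pp [(1, 17078160)]) (.sq [(1, 4), (2, 37), (3, 100), (5, 35), (7, -28)])) (.mul (.g 10) (.pp
 [(1, 236979600000)])))))) (.add (.add (.mul (.g 15) (.add (.pp [(1, 1244522400000)]) (.mul (.g 16)
 (.pp [(1, 1085832000000)])))) (.mul (.g 14) (.mul (.pp [(1, 2735700)]) (.sq [(1, 20), (2, 100),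
 (3, -82), (5, 16), (7, 83)])))) (.add (.mul (.g 17) (.mul (.pp [(1, 88011)]) (.sq [(1, -4), (2,
 100), (3, -40), (5, 81), (7, 62)]))) (.mul (.g 20) (.mul (.pp [(1, 18488910)]) (.sq [(1, -31), (2,
 93), (3, 47), (5, 100), (7, -4)]))))))))) (.add (.add (.mul (.g 20) (.add (.add (.mul (.g 10)
 (.add (.mul (.pp [(1, 3837900)]) (.sq [(1, 20), (2, -71), (3, 37), (5, -39), (7, 100)])) (.mul (.g
 10) (.add (.mul (.g 11) (.pp [(1, 68158200000)])) (.mul (.g 20) (.pp [(1, 63967200000)]))))))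
 (.mul (.g 9) (.add (.mul (.pp [(1, 484440)]) (.sq [(1, -9), (2, -18), (3, 100), (5, 100), (7,
 -9)])) (.mul (.g 12) (.mul (.g 12) (.pp [(1, 73762920000)])))))) (.add (.mul (.g 20) (.add (.mul
 (.pp [(1, 15490530)]) (.sq [(1, -31), (2, 100), (3, -64), (5, 42), (7, -50)])) (.mul (.pp [(1,
 31195230)]) (.sq [(1, -100), (2, 43), (3, 15), (5, 15), (7, 75)])))) (.mul (.g 11) (.mul (.g 14)
 (.mul (.g 14) (.pp [(1, 100267200000)]))))))) (.mul (.g 9) (.add (.mul (.g 8) (.add (.mul (.g 11)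
 (.mul (.g 16) (.pp [(1, 3635148000)]))) (.mul (.g 12) (.mul (.g 12) (.pp [(1, 27860580000)])))))
 (.add (.mul (.g 9) (.add (.pp [(1, 48138552000)]) (.mul (.g 9) (.mul (.g 12) (.pp [(1,
 1582152000)]))))) (.mul (.g 10) (.pp [(1, 13762320000)])))))) (.add (.mul (.g 10) (.add (.mul (.pp
 [(1, 84991830)]) (.sq [(1, -19), (2, 100), (3, 24), (5, -56), (7, -37)])) (.mul (.g 8) (.mul (.pp
 [(1, 1570470)]) (.sq [(1, 7), (2, -52), (3, 100), (5, -46), (7, 84)]))))) (.mul (.g 0) (.pp [(1,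
 100000000000)]))))) (.add (.add (.mul (.g 1) (.pp [(1, 1320000000)])) (.add (.mul (.g 2) (.pp [(1,
 330000000)])) (.mul (.g 4) (.pp [(1, 1100000000000)])))) (.add (.add (.mul (.g 6) (.pp [(1,
 1100000000000)])) (.mul (.g 14) (.mul (.pp [(1, 18164520)]) (.sq [(1, -100), (2, 65), (3, -62),
 (5, 89), (7, 48)])))) (.add (.mul (.g 16) (.mul (.g 16) (.mul (.pp [(1, 6190470)]) (.sq [(1, -31),
 (2, -59), (3, 3), (5, 100), (7, -93)])))) (.mul (.g 19) (.pp [(1, 1100000000000)])))))) (.pp [(1,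
 5230625984), (2, 33252154), (3, 30227636), (4, 33260480), (5, 37054654), (6, 30019550), (7,
 29574666), (8, 34044450), (9, 39479990), (10, 33917708), (12, 32373990), (14, 35240766), (15,
 39052222), (16, 30172890), (18, 33585090), (20, 28647850), (21, 35129754), (24, 39892050), (25,
 35599311), (27, 29769080), (28, 32071380), (30, 40342720), (35, 36797310), (36, 25644300), (40,
 33968550), (42, 34476420), (45, 22171930), (49, 38646696), (50, 33673739), (54, 35797410), (56,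
 29462730), (60, 32650530), (63, 29152530), (70, 31052736), (75, 18327001), (81, 33697950), (84,
 36908850), (90, 35344980), (98, 31942086), (100, 36123120), (105, 29527344), (125, 29980731),
 (126, 27988290), (135, 35903010), (140, 33288420), (147, 28680564), (150, 27943740), (175,
 27944004), (189, 35283930), (196, 29581200), (210, 33046860), (225, 36004320), (245, 27179064),
 (250, 32618190), (294, 35107380), (315, 37006530), (343, 30717060), (350, 38478660), (375,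
 39838590), (441, 32762070), (490, 33213180), (525, 36023460), (625, 32692770), (686, 33489060),
 (735, 33514800), (875, 33335940), (1029, 33728640), (1225, 36869580), (1715, 33757020), (2401,
 33206250)]))))))))))))
 (.split [(1, -7), (3, 50)]
 (.split [(1, -9), (5, 5)]
 (.cut 35 [(2, 1), (3, -1)] (.add (.add (.mul (.g 3) (.pp [(1, 20)])) (.mul (.g 8) (.pp [(1,
 15)]))) (.add (.mul (.g 0) (.pp [(1, 3)])) (.mul (.g 2) (.pp [(1, 4)])))) (.rule 0 (.cut 115 [(2,
 -1), (5, 1)] (.add (.add (.mul (.g 9) (.pp [(1, 115)])) (.mul (.g 3) (.pp [(1, 4)]))) (.add (.mul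
 (.g 2) (.pp [(1, 23)])) (.mul (.g 4) (.pp [(1, 40)])))) (.rule 3 (.rule 7 (.rule 13 (.cut 200 [(1,
 -2), (2, -1), (3, 1), (5, 2)] (.add (.add (.mul (.g 3) (.pp [(1, 185)])) (.mul (.g 7) (.pp [(1,
 4)]))) (.add (.mul (.g 6) (.pp [(1, 43)])) (.mul (.g 13) (.pp [(1, 15)])))) (.cut 43 [(1, -1), (2,
 -2), (3, 2), (5, 2)] (.add (.add (.mul (.g 14) (.pp [(1, 36)])) (.mul (.g 8) (.pp [(1, 1)])))
 (.add (.mul (.g 4) (.pp [(1, 14)])) (.mul (.g 0) (.pp [(1, 36)])))) (.rule 18 (.leaf 450000000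
 (.add (.add (.add (.add (.mul (.g 15) (.add (.add (.add (.mul (.g 15) (.add (.add (.mul (.g 9)
 (.add (.mul (.g 11) (.pp [(1, 31705900000)])) (.add (.mul (.g 13) (.pp [(1, 231891000000)])) (.mul
 (.g 22) (.pp [(1, 7851000000)]))))) (.mul (.g 16) (.add (.mul (.g 11) (.pp [(1, 1191028500000)]))
 (.add (.mul (.g 13) (.pp [(1, 5459625000000)])) (.mul (.g 17) (.pp [(1, 562054500000)])))))) (.add
 (.mul (.g 22) (.add (.pp [(1, 21384000000)]) (.mul (.g 11) (.pp [(1, 48834900000)])))) (.add (.mul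
 (.g 10) (.pp [(1, 19269000000)])) (.mul (.g 13) (.mul (.g 18) (.pp [(1, 311553000000)])))))))
 (.mul (.g 11) (.add (.mul (.g 13) (.add (.mul (.g 9) (.pp [(1, 58019200000)])) (.add (.mul (.g 16)
 (.pp [(1, 1542189600000)])) (.mul (.g 20) (.pp [(1, 51444900000)]))))) (.add (.mul (.g 11) (.mul
 (.g 16) (.pp [(1, 255650220000)]))) (.mul (.g 12) (.mul (.g 19) (.pp [(1, 9284310000)])))))))
 (.add (.mul (.g 9) (.add (.pp [(1, 664491000000)]) (.mul (.pp [(1, 14094400)]) (.sq [(2, 43), (3,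
 100), (5, -1), (7, -66)])))) (.mul (.g 22) (.add (.pp [(1, 1942533000000)]) (.mul (.g 22) (.mul
 (.g 22) (.pp [(1, 19980000000)]))))))) (.add (.add (.mul (.g 10) (.pp [(1, 193629240000)])) (.mul
 (.g 12) (.mul (.g 12) (.mul (.g 12) (.pp [(1, 275395500000)]))))) (.add (.mul (.g 13) (.mul (.g
 18) (.mul (.g 18) (.pp [(1, 399456000000)])))) (.mul (.g 17) (.pp [(1, 3739842000000)])))))) (.add
 (.mul (.g 12) (.add (.add (.mul (.g 12) (.add (.mul (.pp [(1, 23928750)]) (.sq [(1, 24), (2, 49),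
 (3, 100), (5, -47), (7, -54)])) (.add (.mul (.g 16) (.add (.mul (.g 11) (.pp [(1, 112032000000)]))
 (.mul (.g 13) (.pp [(1, 1726317000000)])))) (.mul (.g 10) (.mul (.g 12) (.pp [(1,
 25630380000)])))))) (.add (.mul (.g 14) (.add (.mul (.g 18) (.add (.mul (.g 16) (.pp [(1,
 170964000000)])) (.mul (.g 22) (.pp [(1, 610488000000)])))) (.add (.mul (.g 9) (.mul (.g 17) (.pp
 [(1, 68484000000)]))) (.mul (.g 14) (.mul (.g 22) (.pp [(1, 312606000000)])))))) (.mul (.g 17)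
 (.add (.pp [(1, 403614000000)]) (.add (.mul (.pp [(1, 559423800)]) (.sq [(1, 5), (2, -12), (3,
 -38), (5, -11), (7, 50)])) (.mul (.pp [(1, 7260300)]) (.sq [(1, -99), (2, -74), (3, 50), (5, 100),
 (7, -17)]))))))) (.add (.mul (.g 16) (.mul (.pp [(1, 35550)]) (.sq [(1, -28), (2, 100), (3, 70),
 (5, -5), (7, -68)]))) (.add (.mul (.g 18) (.mul (.pp [(1, 107578800)]) (.sq [(1, 31), (2, -43),
 (3, -79), (5, 9), (7, 100)]))) (.mul (.g 22) (.mul (.pp [(1, 1754550)]) (.sq [(1, 68), (2, 91),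
 (3, 93), (5, 100), (7, 66)]))))))) (.mul (.g 22) (.add (.add (.mul (.pp [(1, 50070600)]) (.sq [(2,
 39), (3, 50), (5, 39), (7, 50)])) (.add (.mul (.g 10) (.add (.mul (.pp [(1, 1356660)]) (.sq [(1,
 50), (2, 50), (3, 33), (5, 50), (7, 33)])) (.add (.mul (.pp [(1, 285840)]) (.sq [(1, -47), (2,
 40), (3, 100), (5, -40), (7, 57)])) (.mul (.g 14) (.mul (.g 14) (.pp [(1, 4530600000)])))))) (.mul
 (.g 13) (.add (.mul (.pp [(1, 5473800)]) (.sq [(1, -44), (2, 15), (3, -30), (5, -14), (7, 100)]))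
 (.mul (.g 11) (.mul (.g 22) (.pp [(1, 34449300000)]))))))) (.add (.add (.mul (.g 16) (.add (.pp
 [(1, 1402789500000)]) (.mul (.pp [(1, 7956000)]) (.sq [(1, -100), (2, 66), (3, 93), (5, -12), (7,
 88)])))) (.mul (.g 17) (.mul (.pp [(1, 40486950)]) (.sq [(1, 32), (2, -85), (3, -100), (5, -66),
 (7, -10)])))) (.add (.mul (.g 20) (.mul (.pp [(1, 23673150)]) (.sq [(1, -1), (2, -79), (3, 19),
 (5, 37), (7, 100)]))) (.mul (.g 22) (.mul (.pp [(1, 3543750)]) (.sq [(1, 82), (2, -94), (3, -100),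
 (5, -66), (7, 75)]))))))))) (.add (.add (.mul (.g 17) (.add (.add (.mul (.g 17) (.add (.pp [(1,
 4742784000000)]) (.add (.mul (.pp [(1, 8071200)]) (.sq [(1, 73), (2, 59), (3, 52), (5, -45), (7,
 -100)])) (.mul (.pp [(1, 5553450)]) (.sq [(1, 64), (2, -64), (3, -17), (5, -29), (7, 100)])))))
 (.mul (.g 14) (.add (.mul (.g 13) (.pp [(1, 268087500000)])) (.mul (.g 19) (.pp [(1,
 18246150000)]))))) (.add (.mul (.g 18) (.add (.mul (.pp [(1, 25421400)]) (.sq [(1, 100), (2, -34),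
 (3, 33), (5, 60), (7, 10)])) (.mul (.g 18) (.pp [(1, 556290000000)])))) (.add (.mul (.g 9) (.mul
 (.pp [(1, 3954250)]) (.sq [(1, -6), (2, -41), (3, 100), (5, -3), (7, -40)]))) (.mul (.g 20) (.mul
 (.pp [(1, 7594200)]) (.sq [(2, -64), (3, 22), (5, 5), (7, 100)]))))))) (.mul (.g 9) (.add (.add
 (.mul (.g 9) (.pp [(1, 26439500000)])) (.mul (.g 10) (.mul (.g 10) (.mul (.g 11) (.pp [(1,
 10754760)]))))) (.add (.mul (.g 14) (.pp [(1, 352921500000)])) (.add (.mul (.g 16) (.pp [(1,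
 29416500000)])) (.mul (.g 19) (.mul (.pp [(1, 365835)]) (.sq [(1, 6), (2, 100), (3, 25), (5, 44),
 (7, -44)])))))))) (.add (.mul (.g 16) (.add (.mul (.g 14) (.add (.pp [(1, 1383178500000)]) (.mul
 (.g 11) (.mul (.g 20) (.pp [(1, 41539500000)]))))) (.add (.mul (.g 13) (.pp [(1, 1216224000000)]))
 (.mul (.g 19) (.pp [(1, 25468875000)]))))) (.mul (.g 11) (.add (.mul (.g 19) (.mul (.pp [(1,
 50877)]) (.sq [(1, -14), (2, -92), (3, -91), (5, 100), (7, 87)]))) (.mul (.g 20) (.mul (.pp [(1,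
 695430)]) (.sq [(1, -4), (2, -78), (3, -59), (5, 42), (7, 100)])))))))) (.add (.add (.add (.mul
 (.g 0) (.pp [(1, 1500000000000)])) (.mul (.g 3) (.pp [(1, 90000000000)]))) (.add (.mul (.g 4) (.pp
 [(1, 900000000)])) (.mul (.g 5) (.pp [(1, 1500000000000)])))) (.add (.add (.mul (.g 7) (.pp [(1,
 1500000000000)])) (.mul (.g 10) (.mul (.g 10) (.pp [(1, 788497200)])))) (.add (.mul (.g 13) (.mul
 (.g 20) (.mul (.pp [(1, 48865950)]) (.sq [(1, 19), (2, -13), (3, -43), (5, -23), (7, 100)]))))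
 (.mul (.g 21) (.pp [(1, 1500000000000)])))))) (.pp [(1, 246434582814), (2, 47501784), (3,
 48156192), (4, 43133886), (5, 48068370), (6, 38072736), (7, 47080926), (8, 44457630), (9,
 40024314), (10, 45173040), (12, 47814390), (14, 52831548), (15, 44890920), (16, 45702450), (18,
 49435830), (20, 44456560), (21, 43797474), (24, 42741900), (25, 43560490), (27, 53489385), (28,
 43991640), (30, 52725560), (35, 34011690), (36, 45771300), (40, 45386050), (42, 47209500), (45,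
 51496915), (49, 55246581), (50, 50194980), (54, 43942950), (56, 45004500), (60, 48810400), (63,
 46683000), (70, 43467760), (75, 46598190), (81, 41733450), (84, 50030550), (90, 43557800), (98,
 38704680), (100, 44053700), (105, 55230880), (125, 45867090), (126, 32746950), (135, 39109550),
 (140, 45408200), (147, 22387275), (150, 37528600), (175, 54819750), (189, 39373200), (196,
 42560100), (210, 28408100), (225, 39837200), (245, 40764220), (250, 45432750), (294, 45099000),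
 (315, 40196350), (343, 37900800), (350, 41844300), (375, 45482850), (441, 51371550), (490,
 44145700), (525, 38221500), (625, 44548800), (686, 47125800), (735, 50916300), (875, 42418150),
 (1029, 48712500), (1225, 45641000), (1715, 44898000), (2401, 46406250)]))))))))))))
 (.split [(1, -5), (5, 4)]
 (.cut 17 [(2, 1), (3, -1)] (.add (.add (.mul (.g 4) (.pp [(1, 5)])) (.mul (.g 0) (.pp [(1, 3)])))
 (.add (.mul (.g 3) (.pp [(1, 1)])) (.mul (.g 9) (.pp [(1, 12)])))) (.rule 0 (.cut 11 [(2, -1), (5,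
 1)] (.add (.mul (.g 10) (.pp [(1, 11)])) (.add (.mul (.g 2) (.pp [(1, 4)])) (.mul (.g 3) (.pp [(1,
 1)])))) (.rule 3 (.rule 7 (.rule 12 (.rule 25 (.leaf 44550000000 (.add (.add (.add (.add (.mul (.g
 14) (.add (.add (.mul (.g 9) (.add (.add (.mul (.g 8) (.add (.mul (.g 11) (.pp [(1,
 28076400000)])) (.add (.mul (.g 13) (.pp [(1, 17001270000)])) (.mul (.g 14) (.pp [(1,
 116568540000)]))))) (.mul (.g 10) (.add (.pp [(1, 21733272000)]) (.add (.mul (.g 10) (.pp [(1,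
 3723310800)])) (.mul (.g 13) (.pp [(1, 76255344000)])))))) (.add (.mul (.g 15) (.add (.mul (.g 12)
 (.pp [(1, 614264310000)])) (.mul (.g 13) (.pp [(1, 1211813460000)])))) (.add (.mul (.g 7) (.pp
 [(1, 62168634000)])) (.mul (.g 11) (.pp [(1, 723759300000)])))))) (.mul (.g 15) (.add (.add (.mul
 (.g 14) (.add (.mul (.g 14) (.pp [(1, 6549741000000)])) (.add (.mul (.g 16) (.pp [(1,
 25184115000000)])) (.mul (.g 17) (.pp [(1, 93888234000000)]))))) (.mul (.g 7) (.add (.mul (.g 8)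
 (.pp [(1, 2257487100000)])) (.mul (.g 13) (.pp [(1, 20301880500000)]))))) (.add (.mul (.g 10)
 (.mul (.g 11) (.pp [(1, 6698983500000)]))) (.add (.mul (.g 13) (.mul (.g 21) (.pp [(1,
 11605275000000)]))) (.mul (.g 15) (.mul (.g 19) (.pp [(1, 24938644500000)])))))))) (.add (.mul (.g
 21) (.add (.add (.mul (.pp [(1, 307216800)]) (.sq [(1, 40), (2, 100), (3, 29), (5, 75), (7,
 -48)])) (.add (.mul (.pp [(1, 618131250)]) (.sq [(1, 100), (2, 81), (3, 81), (5, 81), (7, 81)]))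
 (.mul (.g 12) (.add (.mul (.g 12) (.pp [(1, 3631270500000)])) (.mul (.g 14) (.pp [(1,
 9248580000000)])))))) (.add (.mul (.g 10) (.mul (.g 13) (.pp [(1, 5470205400000)]))) (.add (.mul
 (.g 11) (.mul (.g 16) (.pp [(1, 57245859000000)]))) (.mul (.g 14) (.mul (.g 14) (.pp [(1,
 5851197000000)]))))))) (.mul (.g 8) (.mul (.g 8) (.mul (.g 11) (.pp [(1, 529149500000)])))))))
 (.add (.mul (.g 16) (.add (.add (.mul (.g 16) (.add (.add (.pp [(1, 11140173000000)]) (.add (.mul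
 (.pp [(1, 715651200)]) (.sq [(1, 7), (2, 100), (3, 68), (5, 25), (7, -47)])) (.mul (.pp [(1,
 887079600)]) (.sq [(1, 50), (2, -17), (3, 16), (5, 16), (7, -5)])))) (.add (.mul (.pp [(1,
 206177400)]) (.sq [(1, 39), (2, 64), (3, -100), (5, 10), (7, -9)])) (.add (.mul (.pp [(1,
 259637400)]) (.sq [(2, -2), (3, 41), (5, 100), (7, 33)])) (.mul (.g 17) (.pp [(1,
 163044535500000)])))))) (.add (.mul (.g 11) (.add (.pp [(1, 8901981000000)]) (.mul (.g 11) (.add
 (.mul (.g 12) (.pp [(1, 103776552000000)])) (.mul (.g 21) (.pp [(1, 21934638000000)])))))) (.mul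
 (.g 7) (.add (.pp [(1, 21018779100000)]) (.mul (.g 13) (.mul (.g 18) (.pp [(1,
 1498367970000)]))))))) (.add (.mul (.g 21) (.add (.pp [(1, 83573127000000)]) (.mul (.pp [(1,
 228452400)]) (.sq [(1, 51), (2, 100), (3, 35), (5, 25), (7, 85)])))) (.add (.mul (.g 9) (.mul (.pp
 [(1, 15358167)]) (.sq [(1, 53), (2, 48), (3, 100), (5, 40)]))) (.mul (.g 15) (.mul (.pp [(1,
 2709352800)]) (.sq [(1, 16), (2, -100), (3, -55), (5, 79), (7, 66)]))))))) (.mul (.g 15) (.add
 (.add (.mul (.g 7) (.add (.mul (.g 11) (.add (.mul (.g 11) (.pp [(1, 47066273100000)])) (.add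
 (.mul (.g 15) (.pp [(1, 29820344400000)])) (.mul (.g 17) (.pp [(1, 5531951700000)]))))) (.add
 (.mul (.g 13) (.add (.mul (.g 13) (.pp [(1, 9132839100000)])) (.mul (.g 18) (.pp [(1,
 2171006145000)])))) (.mul (.g 12) (.mul (.g 12) (.pp [(1, 18021989700000)])))))) (.mul (.g 21)
 (.add (.mul (.pp [(1, 744653250)]) (.sq [(1, 52), (2, -74), (3, -100), (5, 13), (7, -40)])) (.add
 (.mul (.g 12) (.mul (.g 21) (.pp [(1, 16265650500000)]))) (.mul (.g 18) (.pp [(1,
 7235009100000)])))))) (.add (.mul (.g 9) (.mul (.g 10) (.add (.mul (.g 13) (.pp [(1,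
 56031426000)])) (.mul (.g 19) (.pp [(1, 452159334000)]))))) (.add (.mul (.g 15) (.mul (.pp [(1,
 1197504000)]) (.sq [(1, -30), (2, 100), (3, -37), (5, 45), (7, 36)]))) (.mul (.g 17) (.mul (.g 17)
 (.mul (.g 17) (.pp [(1, 6855354000000)])))))))))) (.add (.add (.mul (.g 13) (.add (.mul (.g 13)
 (.add (.mul (.g 7) (.add (.mul (.g 7) (.pp [(1, 2524399020000)])) (.mul (.g 18) (.pp [(1,
 952291890000)])))) (.mul (.g 21) (.add (.mul (.g 10) (.pp [(1, 1440301500000)])) (.mul (.g 21)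
 (.pp [(1, 2481435000000)])))))) (.mul (.g 19) (.add (.mul (.g 19) (.add (.mul (.g 9) (.pp [(1,
 726592680000)])) (.mul (.g 12) (.pp [(1, 109561815000000)])))) (.mul (.g 7) (.mul (.g 11) (.pp
 [(1, 9981249300000)]))))))) (.mul (.g 21) (.add (.add (.mul (.pp [(1, 779090400)]) (.sq [(2, 74),
 (3, 59), (5, 59), (7, 100)])) (.mul (.g 7) (.pp [(1, 19344233700000)]))) (.add (.mul (.g 11) (.mul
 (.g 11) (.mul (.g 11) (.pp [(1, 17400339000000)])))) (.mul (.g 21) (.mul (.pp [(1, 1886202450)])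
 (.sq [(1, -100), (2, 43), (3, 15), (5, 15), (7, 75)]))))))) (.add (.mul (.g 7) (.add (.mul (.g 7)
 (.mul (.g 9) (.mul (.g 12) (.pp [(1, 56886786000)])))) (.mul (.g 8) (.pp [(1, 989782200000)]))))
 (.mul (.g 0) (.pp [(1, 13500000000000)]))))) (.add (.add (.add (.mul (.g 1) (.pp [(1,
 1782000000000)])) (.mul (.g 2) (.pp [(1, 89100000000)]))) (.add (.mul (.g 3) (.pp [(1,
 148500000000000)])) (.mul (.g 5) (.pp [(1, 148500000000000)])))) (.add (.add (.mul (.g 8) (.mul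
 (.g 8) (.mul (.g 12) (.mul (.g 12) (.pp [(1, 2012153000000)]))))) (.mul (.g 9) (.mul (.g 17) (.mul
 (.pp [(1, 51847290)]) (.sq [(1, -20), (2, 100), (3, 19), (5, -54), (7, 2)]))))) (.add (.mul (.g
 11) (.mul (.pp [(1, 8843486850)]) (.sq [(1, -45), (2, 100), (3, 18), (5, 3), (7, -49)]))) (.mul
 (.g 20) (.pp [(1, 148500000000000)])))))) (.pp [(1, 5693255292321), (2, 4184392743), (3,
 3759756129), (4, 4826230398), (5, 4627599039), (6, 5109283278), (7, 3734715600), (8, 4615144776),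
 (9, 5359691700), (10, 5258142648), (12, 3479679324), (14, 5012944200), (15, 4374207090), (16,
 4714815600), (18, 5101037370), (20, 4054190184), (21, 5718883500), (24, 4760969400), (25,
 3918861540), (27, 3751017930), (28, 3927483450), (30, 4812231600), (35, 4800005100), (36,
 4607940150), (40, 4233319200), (42, 2977739820), (45, 3495465270), (49, 5016909150), (50,
 4359330360), (54, 4203381600), (56, 4400292600), (60, 3496818600), (63, 3681460530), (70,
 4774267080), (75, 4957259670), (81, 4502178450), (84, 5088901950), (90, 4628655900), (98,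
 3586479930), (100, 4278582000), (105, 4173711300), (125, 4845151080), (126, 4482264600), (135,
 4554970200), (140, 4849000200), (147, 3806280720), (150, 5310226350), (175, 4575857220), (189,
 4825255050), (196, 4701985200), (210, 4035408300), (225, 4392986950), (245, 4282243020), (250,
 4605400800), (294, 4429428300), (315, 4425597000), (343, 3771202050), (350, 4255805950), (375,
 3807777600), (441, 4684477050), (490, 3876562800), (525, 4369488750), (625, 4335962400), (686,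
 4695570000), (735, 4930011900), (875, 4435398000), (1029, 4688664750), (1225, 4404391200), (1715,
 4633200000), (2401, 4694857200)]))))))))))
 (.cut 1 [(2, 1), (3, -1)] (.add (.mul (.g 9) (.pp [(1, 1)])) (.mul (.g 12) (.pp [(1, 1)]))) (.rule
 0 (.cut 1 [(2, -1), (5, 1)] (.add (.mul (.g 14) (.pp [(1, 1)])) (.mul (.g 10) (.pp [(1, 1)])))
 (.rule 3 (.rule 7 (.rule 11 (.rule 25 (.leaf 9900000000 (.add (.add (.add (.add (.mul (.g 21)
 (.add (.add (.add (.mul (.pp [(1, 2719183500)]) (.sq [(1, -36), (2, 100), (3, -72), (5, 11), (7,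
 9)])) (.mul (.pp [(1, 1212037200)]) (.sq [(1, 56), (2, -100), (3, -23), (5, 7), (7, -72)]))) (.add
 (.mul (.g 14) (.add (.add (.mul (.g 14) (.add (.add (.mul (.g 8) (.pp [(1, 267520000000)])) (.mul
 (.g 11) (.pp [(1, 1309077000000)]))) (.add (.mul (.g 14) (.pp [(1, 2722500000000)])) (.add (.mul
 (.g 17) (.pp [(1, 4918419000000)])) (.mul (.g 21) (.pp [(1, 2705274000000)])))))) (.mul (.g 11)
 (.add (.pp [(1, 7332633000000)]) (.mul (.g 16) (.pp [(1, 10766250000000)]))))) (.add (.mul (.g 19)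
 (.add (.pp [(1, 7548948000000)]) (.mul (.g 17) (.pp [(1, 176814000000)])))) (.mul (.g 10) (.mul
 (.g 21) (.pp [(1, 520680600000)])))))) (.mul (.g 12) (.add (.mul (.g 12) (.add (.mul (.g 16) (.pp
 [(1, 1668645000000)])) (.mul (.g 21) (.pp [(1, 634293000000)])))) (.add (.mul (.g 10) (.mul (.g
 21) (.pp [(1, 584575200000)]))) (.mul (.g 11) (.mul (.g 19) (.pp [(1, 609840000000)])))))))) (.add
 (.add (.mul (.g 16) (.add (.pp [(1, 3286602000000)]) (.add (.mul (.pp [(1, 65201400)]) (.sq [(1,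
 5), (2, 52), (3, 40), (5, 2), (7, 100)])) (.mul (.pp [(1, 148569300)]) (.sq [(1, -64), (2, 100),
 (3, 68), (5, 61), (7, -25)]))))) (.mul (.g 10) (.add (.pp [(1, 1207186200000)]) (.mul (.pp [(1,
 30695940)]) (.sq [(1, 20), (2, 30), (3, 100), (5, 24), (7, 87)]))))) (.add (.mul (.g 19) (.add
 (.pp [(1, 11191455000000)]) (.mul (.g 13) (.mul (.g 13) (.pp [(1, 815661000000)]))))) (.mul (.g
 21) (.mul (.pp [(1, 6464700)]) (.sq [(1, 5), (2, -29), (3, 9), (5, 100), (7, -50)]))))))) (.add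
 (.mul (.g 16) (.add (.add (.mul (.g 16) (.add (.add (.pp [(1, 5191362000000)]) (.mul (.pp [(1,
 296772300)]) (.sq [(1, -50), (2, -69), (3, -16), (5, -51), (7, 100)]))) (.add (.mul (.g 9) (.add
 (.pp [(1, 191008620000)]) (.mul (.g 13) (.pp [(1, 52414560000)])))) (.mul (.g 17) (.pp [(1,
 31479921000000)]))))) (.add (.mul (.g 7) (.add (.add (.pp [(1, 1300147200000)]) (.mul (.pp [(1,
 8628840)]) (.sq [(1, 2), (2, 96), (3, 100), (5, 12), (7, 1)]))) (.add (.mul (.g 11) (.mul (.g 11)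
 (.pp [(1, 1467001800000)]))) (.mul (.g 13) (.mul (.g 14) (.pp [(1, 699890400000)])))))) (.mul (.g
 11) (.add (.mul (.g 11) (.add (.mul (.g 12) (.pp [(1, 15154425000000)])) (.mul (.g 15) (.pp [(1,
 1147707000000)])))) (.mul (.g 9) (.mul (.g 13) (.pp [(1, 74608380000)]))))))) (.add (.mul (.g 9)
 (.pp [(1, 30472200000)])) (.add (.mul (.g 13) (.mul (.pp [(1, 77101200)]) (.sq [(1, -13), (2, 84),
 (3, 100), (5, -35), (7, -50)]))) (.mul (.g 17) (.mul (.pp [(1, 245430900)]) (.sq [(1, -24), (2,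
 100), (3, 87), (5, -9), (7, -45)]))))))) (.mul (.g 19) (.add (.add (.mul (.g 15) (.add (.add (.pp
 [(1, 18112149000000)]) (.mul (.pp [(1, 71329500)]) (.sq [(1, 29), (2, -59), (3, -72), (5, 100),
 (7, 55)]))) (.add (.mul (.g 10) (.add (.mul (.g 11) (.pp [(1, 24571800000)])) (.mul (.g 12) (.pp
 [(1, 10248242400000)])))) (.add (.mul (.g 14) (.add (.mul (.g 12) (.pp [(1, 2000889000000)]))
 (.mul (.g 17) (.pp [(1, 8369361000000)])))) (.mul (.g 11) (.mul (.g 15) (.pp [(1,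
 5729427000000)]))))))) (.mul (.g 10) (.add (.mul (.g 12) (.add (.mul (.g 8) (.pp [(1,
 31836200000)])) (.mul (.g 11) (.pp [(1, 10224343800000)])))) (.mul (.g 17) (.mul (.g 17) (.pp [(1,
 816611400000)])))))) (.add (.mul (.g 19) (.add (.pp [(1, 22324797000000)]) (.add (.mul (.g 13)
 (.mul (.g 14) (.pp [(1, 695970000000)]))) (.mul (.g 17) (.pp [(1, 60515829000000)]))))) (.mul (.g
 7) (.mul (.g 17) (.mul (.g 17) (.pp [(1, 165884400000)]))))))))) (.add (.add (.mul (.g 14) (.add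
 (.add (.mul (.g 14) (.add (.mul (.g 7) (.add (.mul (.g 9) (.pp [(1, 3792096000)])) (.mul (.g 15)
 (.pp [(1, 87337800000)])))) (.add (.mul (.g 18) (.add (.pp [(1, 86733900000)]) (.mul (.g 10) (.pp
 [(1, 10125720000)])))) (.mul (.g 9) (.mul (.g 9) (.pp [(1, 795880800)])))))) (.mul (.g 9) (.mul
 (.g 9) (.add (.mul (.g 7) (.pp [(1, 397908720)])) (.mul (.g 15) (.pp [(1, 817423200)])))))) (.add
 (.mul (.g 11) (.mul (.pp [(1, 68418900)]) (.sq [(1, 19), (2, 100), (3, 98), (5, -98), (7, -15)])))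
 (.mul (.g 17) (.mul (.pp [(1, 289961100)]) (.sq [(1, -13), (2, 59), (3, -13), (5, 30), (7,
 -100)])))))) (.mul (.g 11) (.add (.mul (.pp [(1, 2362714200)]) (.sq [(1, -33), (2, 100), (3, 34),
 (5, -22), (7, -28)])) (.add (.mul (.g 7) (.mul (.g 11) (.mul (.g 11) (.pp [(1, 1331233200000)]))))
 (.mul (.g 15) (.mul (.pp [(1, 27828900)]) (.sq [(1, 45), (2, -100), (3, -6), (5, -2), (7,
 77)]))))))) (.add (.mul (.g 9) (.add (.mul (.g 10) (.mul (.g 10) (.mul (.g 13) (.pp [(1,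
 211147200)])))) (.mul (.g 17) (.mul (.pp [(1, 14810202)]) (.sq [(1, -37), (2, 100), (3, 10), (5,
 -14), (7, -35)]))))) (.mul (.g 15) (.add (.mul (.g 17) (.mul (.pp [(1, 372537000)]) (.sq [(1,
 -40), (2, 71), (3, -20), (5, -2), (7, 100)]))) (.mul (.g 18) (.mul (.pp [(1, 11310255)]) (.sq [(1,
 33), (2, -51), (3, 93), (5, -100), (7, 80)])))))))) (.add (.add (.mul (.g 0) (.pp [(1,
 3000000000000)])) (.add (.mul (.g 1) (.pp [(1, 39600000000)])) (.mul (.g 2) (.pp [(1,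
 19800000000)])))) (.add (.add (.mul (.g 3) (.pp [(1, 33000000000000)])) (.mul (.g 5) (.pp [(1,
 33000000000000)]))) (.add (.mul (.g 13) (.mul (.pp [(1, 458399700)]) (.sq [(1, -29), (2, 100), (3,
 15), (5, -26), (7, -24)]))) (.mul (.g 20) (.pp [(1, 33000000000000)])))))) (.pp [(1,
 195173623455), (2, 923771109), (3, 1086346176), (4, 932052165), (5, 1124520906), (6, 1223249280),
 (7, 906463800), (8, 974456505), (9, 839424795), (10, 1287649176), (12, 1294774470), (14,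
 952346340), (15, 820333404), (16, 1053597600), (18, 663275745), (20, 1128072000), (21,
 1083855960), (24, 938668500), (25, 833330124), (27, 1155917400), (28, 950360400), (30, 528203280),
 (35, 1130322600), (36, 930857400), (40, 918783360), (42, 1080783000), (45, 1154887580), (49,
 1058209020), (50, 796850736), (54, 1000147500), (56, 985970700), (60, 920894040), (63,
 1056983400), (70, 940119840), (75, 1078255464), (81, 952439400), (84, 1021491900), (90,
 1061606700), (98, 1068343650), (100, 984299580), (105, 863141400), (125, 1045924704), (126,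
 1057151700), (135, 999741600), (140, 849576420), (147, 842645430), (150, 1000745460), (175,
 981284040), (189, 869962500), (196, 966447900), (210, 1113940080), (225, 1018527400), (245,
 901135730), (250, 994375800), (294, 898385400), (315, 986544900), (343, 879280380), (350,
 1161901620), (375, 1044661860), (441, 1025887500), (490, 985756860), (525, 875510460), (625,
 991508760), (686, 996930000), (735, 1071422440), (875, 979559460), (1029, 1100068200), (1225,
 982462140), (1715, 985187500), (2401, 1064250000)]))))))))))))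
 (.cut 1 [(2, 1), (3, -1)] (.add (.mul (.g 7) (.pp [(1, 1)])) (.mul (.g 10) (.pp [(1, 1)]))) (.rule
 0 (.cut 450 [(2, -1), (5, 1)] (.add (.mul (.g 10) (.pp [(1, 310)])) (.add (.mul (.g 11) (.pp [(1,
 7)])) (.mul (.g 2) (.pp [(1, 9)])))) (.rule 3 (.cut 1 [(1, 2), (5, -1)] (.add (.mul (.g 11) (.pp
 [(1, 1)])) (.add (.mul (.g 7) (.pp [(1, 1)])) (.mul (.g 10) (.pp [(1, 1)])))) (.rule 27 (.rule 25
 (.leaf 3300000000 (.add (.add (.add (.add (.mul (.g 17) (.add (.add (.mul (.pp [(1, 447394200)])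
 (.sq [(1, 95), (2, 53), (3, 23), (5, -100), (7, -10)])) (.add (.mul (.g 13) (.add (.add (.mul (.pp
 [(1, 290083200)]) (.sq [(1, 12), (2, 54), (3, 100), (5, -1), (7, -39)])) (.mul (.g 7) (.add (.mul
 (.g 8) (.pp [(1, 30986076000)])) (.mul (.g 10) (.pp [(1, 152432280000)]))))) (.add (.mul (.g 9)
 (.add (.mul (.g 10) (.pp [(1, 9666030000000)])) (.mul (.g 19) (.pp [(1, 698082000000)])))) (.add
 (.mul (.g 11) (.mul (.g 16) (.pp [(1, 14637150000)]))) (.mul (.g 12) (.pp [(1,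
 8860731000000)])))))) (.mul (.g 16) (.add (.add (.mul (.g 11) (.add (.mul (.g 11) (.pp [(1,
 26802600000)])) (.mul (.g 12) (.pp [(1, 112803900000)])))) (.mul (.g 15) (.add (.mul (.g 8) (.pp
 [(1, 41438760000)])) (.mul (.g 15) (.pp [(1, 366311550000)]))))) (.add (.mul (.g 14) (.mul (.g 16)
 (.pp [(1, 17599147500)]))) (.mul (.g 17) (.pp [(1, 229171800000)]))))))) (.add (.add (.mul (.g 7)
 (.add (.mul (.g 7) (.add (.mul (.g 10) (.pp [(1, 6846074400)])) (.mul (.g 17) (.pp [(1,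
 9067502400)])))) (.add (.mul (.g 8) (.mul (.g 17) (.pp [(1, 35853972000)]))) (.mul (.g 12) (.mul
 (.g 12) (.pp [(1, 29544240000)])))))) (.mul (.g 19) (.add (.add (.pp [(1, 5770578000000)]) (.mul
 (.g 10) (.mul (.g 11) (.pp [(1, 2284788000000)])))) (.add (.mul (.g 12) (.mul (.g 12) (.pp [(1,
 2353197000000)]))) (.mul (.g 15) (.mul (.g 15) (.pp [(1, 779955000000)]))))))) (.add (.mul (.g 17)
 (.add (.mul (.pp [(1, 349743900)]) (.sq [(1, -53), (2, 100), (3, -32), (5, -59), (7, 39)])) (.mul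
 (.g 10) (.mul (.g 11) (.pp [(1, 8843406000000)]))))) (.mul (.g 9) (.mul (.pp [(1, 34336500)]) (.sq
 [(1, 100), (2, -58), (3, 15), (5, -23), (7, -11)]))))))) (.add (.mul (.g 12) (.add (.add (.mul (.g
 12) (.add (.mul (.g 13) (.add (.mul (.g 12) (.pp [(1, 344817000000)])) (.mul (.g 13) (.pp [(1,
 925122000000)])))) (.add (.mul (.g 16) (.add (.mul (.g 10) (.pp [(1, 79470600000)])) (.mul (.g 16)
 (.pp [(1, 707850000)])))) (.mul (.g 19) (.add (.mul (.g 9) (.pp [(1, 71478000000)])) (.mul (.g 14)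
 (.pp [(1, 8507895000000)]))))))) (.mul (.g 10) (.add (.mul (.pp [(1, 20892300)]) (.sq [(1, 23),
 (2, 100), (3, 47), (5, -77), (7, -92)])) (.add (.mul (.g 7) (.add (.mul (.g 13) (.pp [(1,
 25163160000)])) (.mul (.g 15) (.pp [(1, 87533160000)])))) (.mul (.g 10) (.mul (.g 16) (.pp [(1,
 285025950000)]))))))) (.add (.mul (.g 19) (.add (.add (.mul (.pp [(1, 32901000)]) (.sq [(1, 100),
 (2, 81), (3, 81), (5, 81), (7, 81)])) (.mul (.pp [(1, 210054900)]) (.sq [(1, -61), (2, -89), (3,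
 86), (5, 12), (7, 100)]))) (.add (.mul (.g 9) (.mul (.g 13) (.pp [(1, 875127000000)]))) (.mul (.g
 14) (.mul (.g 19) (.pp [(1, 850014000000)])))))) (.add (.mul (.g 9) (.mul (.g 13) (.mul (.g 13)
 (.pp [(1, 949311000000)])))) (.mul (.g 14) (.mul (.pp [(1, 464904000)]) (.sq [(1, 25), (2, 63),
 (3, -69), (5, -4), (7, -100)]))))))) (.mul (.g 19) (.add (.add (.mul (.g 9) (.add (.mul (.pp [(1,
 158505600)]) (.sq [(1, 39), (2, 100), (3, -3), (5, -59), (7, 23)])) (.mul (.g 9) (.add (.mul (.g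
 9) (.pp [(1, 2539878000000)])) (.mul (.g 11) (.pp [(1, 1221264000000)])))))) (.mul (.g 14) (.add
 (.mul (.pp [(1, 67485000)]) (.sq [(1, -44), (2, 38), (3, 100), (5, 64), (7, -17)])) (.mul (.pp
 [(1, 475632300)]) (.sq [(1, 20), (2, 100), (3, -20), (5, -5), (7, 14)]))))) (.add (.mul (.g 19)
 (.add (.mul (.pp [(1, 131442300)]) (.sq [(1, -100), (2, 43), (3, 15), (5, 15), (7, 75)])) (.mul
 (.pp [(1, 157674000)]) (.sq [(1, -36), (2, -92), (3, 11), (5, 71), (7, 100)])))) (.add (.mul (.g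
 7) (.mul (.pp [(1, 1677984)]) (.sq [(1, 70), (2, 74), (3, -55), (5, 100), (7, -43)]))) (.mul (.g
 15) (.mul (.pp [(1, 497277000)]) (.sq [(1, -73), (2, 100), (3, -33), (5, 12), (7, 69)])))))))))
 (.add (.add (.mul (.g 10) (.add (.add (.mul (.g 7) (.add (.mul (.g 11) (.add (.mul (.g 10) (.pp
 [(1, 190245000000)])) (.add (.mul (.g 11) (.pp [(1, 314793600000)])) (.mul (.g 13) (.pp [(1,
 113945700000)]))))) (.mul (.g 13) (.mul (.g 13) (.pp [(1, 84637740000)]))))) (.mul (.g 9) (.add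
 (.mul (.g 9) (.mul (.g 9) (.pp [(1, 4775397000000)]))) (.mul (.g 11) (.mul (.g 14) (.pp [(1,
 14606493000000)])))))) (.add (.mul (.g 13) (.mul (.g 15) (.mul (.g 15) (.pp [(1,
 1778040000000)])))) (.mul (.g 16) (.mul (.g 16) (.pp [(1, 4743832500)])))))) (.mul (.g 14) (.add
 (.mul (.g 14) (.add (.add (.mul (.pp [(1, 593736000)]) (.sq [(1, 50), (2, -17), (3, 16), (5, 16),
 (7, -5)])) (.mul (.g 11) (.mul (.g 14) (.pp [(1, 2505855000000)])))) (.add (.mul (.g 15) (.pp [(1,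
 1442265000000)])) (.mul (.g 16) (.pp [(1, 79726350000)]))))) (.mul (.g 7) (.mul (.g 16) (.pp [(1,
 20404494000)])))))) (.add (.mul (.g 9) (.add (.mul (.g 7) (.add (.mul (.g 7) (.pp [(1,
 5003394000)])) (.mul (.g 9) (.mul (.g 13) (.pp [(1, 31241760000)]))))) (.mul (.g 16) (.mul (.pp
 [(1, 4138035)]) (.sq [(1, 17), (2, -68), (3, -43), (5, -24), (7, 100)]))))) (.mul (.g 8) (.add
 (.mul (.g 13) (.mul (.pp [(1, 11020020)]) (.sq [(1, -68), (2, 100), (3, -13), (5, 31), (7, 66)])))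
 (.mul (.g 15) (.mul (.pp [(1, 66691680)]) (.sq [(1, -45), (2, -30), (3, 50), (5, 50), (7,
 -2)])))))))) (.add (.add (.mul (.g 0) (.pp [(1, 1000000000000)])) (.add (.mul (.g 1) (.pp [(1,
 165000000000)])) (.mul (.g 3) (.pp [(1, 11000000000000)])))) (.add (.add (.mul (.g 5) (.pp [(1,
 11000000000000)])) (.mul (.g 11) (.mul (.pp [(1, 53773500)]) (.sq [(1, 100), (2, 71), (3, 28), (5,
 -99), (7, -22)])))) (.add (.mul (.g 15) (.mul (.g 15) (.mul (.pp [(1, 31346700)]) (.sq [(1, 63),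
 (2, 82), (3, -42), (5, -100), (7, -3)])))) (.mul (.g 18) (.pp [(1, 11000000000000)])))))) (.pp
 [(1, 14679053960), (2, 374426095), (3, 398580920), (4, 255266132), (5, 332403160), (6, 292155050),
 (7, 420880020), (8, 333904560), (9, 318963260), (10, 282187400), (12, 378271608), (14, 292028352),
 (15, 301781260), (16, 320562000), (18, 327176355), (19, 33000000000000), (20, 357036460), (21,
 233445960), (24, 314160000), (25, 373117140), (27, 318180500), (28, 434597988), (30, 331414600),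
 (35, 313987080), (36, 379896000), (40, 345166800), (42, 314956488), (45, 386128600), (49,
 252284868), (50, 317711900), (54, 295706400), (56, 362300400), (60, 306939600), (63, 403394640),
 (70, 324774120), (75, 298886500), (81, 337586700), (84, 280490100), (90, 341629200), (98,
 318536988), (100, 282612000), (105, 422644200), (125, 332706000), (126, 306900000), (135,
 336164400), (140, 300286800), (147, 420651792), (150, 403431600), (175, 342813900), (189,
 309015300), (196, 284634900), (210, 341121000), (225, 284136600), (245, 334338840), (250,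
 385027500), (294, 349892400), (315, 265630200), (343, 379376712), (350, 336590100), (375,
 301610100), (441, 269362500), (490, 346483500), (525, 310325400), (625, 309068100), (686,
 325228200), (735, 272276400), (875, 325152300), (1029, 255466200), (1225, 326016900), (1715,
 307408200), (2401, 309523500)]))))))))))))
 (P_TpB ++ xP_A_T6) = true := by decide +kernel

theorem t_G_F1_c3 : chk ROp gP_G_F1
 (.split [(1, -3), (3, 2)]
 (.cut 3 [(2, -1), (3, 1)] (.add (.mul (.g 0) (.pp [(1, 1)])) (.add (.mul (.g 2) (.pp [(1, 1)]))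
 (.mul (.g 5) (.pp [(1, 3)])))) (.rule 1 (.cut 3 [(2, 1), (5, -1)] (.add (.add (.mul (.g 3) (.pp
 [(1, 1)])) (.mul (.g 1) (.pp [(1, 1)]))) (.add (.mul (.g 2) (.pp [(1, 1)])) (.mul (.g 8) (.pp [(1,
 3)])))) (.rule 2 (.rule 9 (.cut 1 [(1, -2), (2, -1), (3, 2), (5, 1)] (.add (.mul (.g 10) (.pp [(1,
 1)])) (.add (.mul (.g 5) (.pp [(1, 1)])) (.mul (.g 8) (.pp [(1, 1)])))) (.cut 1 [(1, -1), (2, -2),
 (3, 2), (5, 2)] (.add (.mul (.g 11) (.pp [(1, 1)])) (.add (.mul (.g 9) (.pp [(1, 1)])) (.mul (.g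
 0) (.pp [(1, 1)])))) (.rule 10 (.leaf 60000000 (.add (.add (.add (.add (.mul (.g 11) (.add (.add
 (.add (.mul (.g 12) (.add (.add (.pp [(1, 221913600000)]) (.add (.mul (.pp [(1, 514800)]) (.sq
 [(1, 14), (2, 5), (3, 7), (5, 5), (7, 100)])) (.mul (.g 11) (.add (.add (.mul (.g 13) (.pp [(1,
 129433200000)])) (.mul (.g 18) (.pp [(1, 11732400000)]))) (.add (.mul (.g 20) (.pp [(1,
 8913600000)])) (.mul (.g 21) (.pp [(1, 4034400000)]))))))) (.add (.add (.mul (.g 16) (.add (.mul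
 (.g 10) (.pp [(1, 2440740000)])) (.mul (.g 17) (.pp [(1, 11232375000)])))) (.mul (.g 8) (.mul (.g
 9) (.pp [(1, 32619200000)])))) (.add (.mul (.g 13) (.mul (.g 18) (.pp [(1, 117466200000)]))) (.mul
 (.g 17) (.mul (.g 21) (.pp [(1, 50156400000)]))))))) (.mul (.g 10) (.add (.mul (.g 20) (.add (.mul
 (.g 9) (.pp [(1, 195036600000)])) (.mul (.g 20) (.pp [(1, 5241000000)])))) (.mul (.g 13) (.mul (.g
 21) (.pp [(1, 147178200000)])))))) (.add (.mul (.g 11) (.add (.pp [(1, 162503400000)]) (.mul (.g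
 11) (.add (.pp [(1, 102348000000)]) (.mul (.g 20) (.pp [(1, 9511200000)])))))) (.mul (.g 8) (.add
 (.pp [(1, 26463600000)]) (.mul (.pp [(1, 410260)]) (.sq [(1, -8), (2, 87), (3, 100), (5, -10), (7,
 8)])))))) (.add (.add (.mul (.g 13) (.add (.pp [(1, 382509600000)]) (.mul (.pp [(1, 1613580)])
 (.sq [(1, -36), (2, 51), (3, -27), (5, 100), (7, 73)])))) (.mul (.g 9) (.mul (.g 17) (.pp [(1,
 193943400000)])))) (.add (.mul (.g 14) (.mul (.pp [(1, 3074040)]) (.sq [(1, 7), (2, -74), (3, 87),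
 (5, 89), (7, -100)]))) (.mul (.g 15) (.pp [(1, 220855800000)])))))) (.add (.mul (.g 20) (.add
 (.add (.add (.mul (.g 12) (.add (.pp [(1, 188627400000)]) (.add (.mul (.g 20) (.add (.add (.pp
 [(1, 875400000)]) (.mul (.g 9) (.pp [(1, 102992400000)]))) (.add (.mul (.g 20) (.pp [(1,
 412800000)])) (.mul (.g 21) (.pp [(1, 8932800000)]))))) (.mul (.g 13) (.mul (.g 21) (.pp [(1,
 10215600000)])))))) (.mul (.g 14) (.add (.mul (.pp [(1, 1341060)]) (.sq [(1, 23), (2, -97), (3,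
 4), (5, 70), (7, 100)])) (.add (.mul (.pp [(1, 5035620)]) (.sq [(1, 22), (2, -47), (3, -100), (5,
 -45), (7, 82)])) (.mul (.g 9) (.mul (.g 16) (.pp [(1, 2692530000)]))))))) (.add (.mul (.g 10)
 (.add (.mul (.pp [(1, 1750260)]) (.sq [(1, 25), (2, 100), (3, 1), (5, -47), (7, -68)])) (.mul (.g
 9) (.mul (.g 15) (.pp [(1, 28256400000)]))))) (.mul (.g 20) (.add (.mul (.pp [(1, 647640)]) (.sq
 [(1, 39), (2, 58), (3, 100), (5, -29), (7, 25)])) (.mul (.pp [(1, 2192880)]) (.sq [(1, 40), (2,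
 83), (3, -100), (5, -33), (7, 1)])))))) (.add (.add (.mul (.g 13) (.pp [(1, 93510600000)])) (.mul
 (.g 15) (.mul (.pp [(1, 843540)]) (.sq [(1, -14), (2, 44), (3, 100), (5, -50), (7, 71)])))) (.add
 (.mul (.g 16) (.mul (.pp [(1, 36177)]) (.sq [(1, 84), (2, 100), (3, 89), (5, 32), (7, 81)])))
 (.mul (.g 17) (.mul (.pp [(1, 1636890)]) (.sq [(1, -50), (2, -64), (3, 100), (5, 50), (7,
 17)]))))))) (.mul (.g 16) (.add (.add (.mul (.g 10) (.add (.mul (.pp [(1, 35763)]) (.sq [(1, -17),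
 (2, -67), (3, 8), (5, 71), (7, -100)])) (.add (.mul (.g 9) (.mul (.g 21) (.pp [(1, 6583140000)])))
 (.mul (.g 14) (.pp [(1, 2064450000)]))))) (.add (.mul (.g 14) (.add (.mul (.pp [(1, 123540)]) (.sq
 [(1, 100), (2, -32), (3, 53), (5, 26), (7, 13)])) (.mul (.g 16) (.pp [(1, 169047000)])))) (.mul
 (.g 8) (.pp [(1, 22836160000)])))) (.add (.mul (.g 13) (.pp [(1, 25838010000)])) (.add (.mul (.g
 15) (.mul (.pp [(1, 106446)]) (.sq [(1, 20), (2, -15), (3, -29), (5, 98), (7, 100)]))) (.mul (.g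
 21) (.mul (.pp [(1, 133824)]) (.sq [(1, 6), (2, -79), (3, 83), (5, 93), (7, -100)]))))))))) (.add
 (.add (.mul (.g 13) (.add (.add (.mul (.pp [(1, 8557200)]) (.sq [(2, 41), (3, 31), (5, 6), (7,
 50)])) (.add (.mul (.g 8) (.pp [(1, 37104200000)])) (.mul (.g 9) (.mul (.g 9) (.mul (.g 9) (.pp
 [(1, 57764400000)])))))) (.add (.mul (.g 10) (.pp [(1, 556377000000)])) (.add (.mul (.g 13) (.mul
 (.pp [(1, 15202080)]) (.sq [(1, -21), (2, 41), (3, 6), (5, 37), (7, 100)]))) (.mul (.g 15) (.mul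
 (.pp [(1, 458880)]) (.sq [(1, 78), (2, -88), (3, 7), (5, 100), (7, -52)]))))))) (.mul (.g 12)
 (.add (.mul (.g 9) (.add (.mul (.g 12) (.add (.mul (.g 8) (.pp [(1, 56604600000)])) (.mul (.g 10)
 (.pp [(1, 38400000)])))) (.mul (.g 17) (.mul (.g 17) (.pp [(1, 2941050000)]))))) (.add (.mul (.g
 8) (.pp [(1, 24923800000)])) (.mul (.g 14) (.mul (.pp [(1, 3345600)]) (.sq [(2, -1), (3, -14), (5,
 5), (7, 100)]))))))) (.add (.mul (.g 18) (.add (.mul (.g 14) (.add (.mul (.pp [(1, 850500)]) (.sq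
 [(1, 3), (2, 40), (3, 71), (5, -50), (7, 100)])) (.mul (.pp [(1, 246840)]) (.sq [(1, 9), (2, -1),
 (3, 100), (5, -27), (7, -21)])))) (.add (.mul (.g 9) (.mul (.pp [(1, 2165280)]) (.sq [(1, -10),
 (2, -86), (3, 18), (5, 100), (7, 89)]))) (.mul (.g 21) (.mul (.pp [(1, 167940)]) (.sq [(1, 19),
 (2, 100), (3, -12), (5, -1), (7, -66)])))))) (.mul (.g 17) (.mul (.g 17) (.add (.mul (.pp [(1,
 32310)]) (.sq [(1, 22), (2, -37), (3, 68), (5, 63), (7, -100)])) (.add (.mul (.g 8) (.mul (.g 8)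
 (.pp [(1, 2072500000)]))) (.mul (.g 17) (.pp [(1, 14722350000)]))))))))) (.add (.add (.mul (.g 0)
 (.pp [(1, 200000000000)])) (.add (.mul (.g 3) (.pp [(1, 600000000)])) (.mul (.g 4) (.pp [(1,
 200000000000)])))) (.add (.add (.mul (.g 6) (.pp [(1, 200000000000)])) (.mul (.g 8) (.mul (.g 15)
 (.pp [(1, 236873000000)])))) (.add (.mul (.g 14) (.mul (.g 14) (.mul (.pp [(1, 4060560)]) (.sq
 [(1, 16), (2, -78), (3, -29), (5, 65), (7, 100)])))) (.mul (.g 19) (.pp [(1, 400000000)]))))))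
 (.pp [(1, 9638631164), (2, 5137992), (3, 6697535), (4, 5436696), (5, 6774840), (6, 5242602), (7,
 5843436), (8, 4430210), (9, 5615713), (10, 5808564), (12, 7599453), (14, 6544980), (15, 6600506),
 (16, 5852400), (18, 5527722), (20, 10876974), (21, 6753658), (24, 5715420), (25, 6047652), (27,
 7106482), (28, 7160880), (30, 5119302), (35, 5177460), (36, 6391430), (40, 6186540), (42,
 5670120), (45, 6607973), (49, 4718109), (50, 3530628), (54, 6024460), (56, 7170600), (60,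
 6445440), (63, 5899167), (70, 4127280), (75, 6412711), (81, 5716940), (84, 4627080), (90,
 4796620), (98, 5664360), (100, 6061050), (105, 6161038), (125, 6585900), (126, 6841500), (135,
 5620340), (140, 3273000), (147, 6273156), (150, 4338180), (175, 8023596), (189, 5441640), (196,
 5808240), (210, 8305400), (225, 6372450), (245, 8702985), (250, 5357520), (294, 5895600), (315,
 4741060), (343, 6900567), (350, 8654220), (375, 6161380), (441, 6168000), (490, 6713160), (525,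
 3815480), (625, 6048990), (686, 6226140), (735, 5383030), (875, 4095180), (1029, 5839230), (1225,
 4482870), (1715, 5333310), (2401, 5832120)])))))))))))
 (.cut 1 [(2, -1), (3, 1)] (.add (.mul (.g 10) (.pp [(1, 1)])) (.mul (.g 5) (.pp [(1, 1)]))) (.rule
 1 (.cut 1 [(2, 1), (5, -1)] (.add (.mul (.g 11) (.pp [(1, 1)])) (.mul (.g 1) (.pp [(1, 1)])))
 (.rule 2 (.cut 11 [(1, -69), (3, 100)] (.add (.mul (.g 1) (.pp [(1, 620)])) (.add (.mul (.g 12)
 (.pp [(1, 31)])) (.mul (.g 14) (.pp [(1, 480)])))) (.rule 8 (.rule 15 (.leaf 5940000000 (.add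
 (.add (.add (.add (.mul (.g 12) (.add (.add (.add (.mul (.g 9) (.add (.add (.mul (.g 9) (.add
 (.mul (.g 7) (.pp [(1, 8903763000000)])) (.add (.mul (.g 9) (.pp [(1, 4878759600000)])) (.mul (.g
 10) (.pp [(1, 16168620600000)]))))) (.add (.mul (.g 8) (.add (.mul (.g 12) (.pp [(1,
 19536184800000)])) (.mul (.g 17) (.pp [(1, 38011545000000)])))) (.mul (.g 7) (.mul (.g 17) (.pp
 [(1, 13245744600000)]))))) (.add (.mul (.g 10) (.mul (.g 10) (.pp [(1, 21200929200000)]))) (.add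
 (.mul (.g 12) (.mul (.g 12) (.pp [(1, 3099195000000)]))) (.mul (.g 16) (.mul (.g 16) (.pp [(1,
 3098749500000)]))))))) (.mul (.g 10) (.add (.mul (.g 11) (.add (.add (.mul (.g 8) (.pp [(1,
 18971944200000)])) (.mul (.g 10) (.pp [(1, 18777706200000)]))) (.add (.mul (.g 11) (.pp [(1,
 24019518600000)])) (.mul (.g 20) (.pp [(1, 3759307200000)]))))) (.mul (.g 19) (.add (.mul (.g 10)
 (.pp [(1, 15775095600000)])) (.mul (.g 20) (.pp [(1, 29374547400000)]))))))) (.add (.mul (.g 8)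
 (.add (.add (.mul (.pp [(1, 173792520)]) (.sq [(1, 44), (2, -90), (3, 100), (5, 2), (7, 53)]))
 (.mul (.g 7) (.mul (.g 8) (.pp [(1, 784911600000)])))) (.add (.mul (.g 11) (.mul (.g 19) (.pp [(1,
 25133268600000)]))) (.mul (.g 12) (.mul (.g 14) (.pp [(1, 101692800000)])))))) (.mul (.g 12) (.add
 (.pp [(1, 7194052800000)]) (.add (.mul (.pp [(1, 226997100)]) (.sq [(1, 41), (2, -100), (3, 59),
 (5, 59), (7, -59)])) (.mul (.pp [(1, 345434760)]) (.sq [(1, -17), (2, 37), (3, 75), (5, -57), (7,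
 100)]))))))) (.add (.add (.mul (.g 17) (.add (.pp [(1, 4711667400000)]) (.mul (.g 16) (.mul (.g
 16) (.pp [(1, 1250800650000)]))))) (.mul (.g 19) (.add (.mul (.pp [(1, 655372080)]) (.sq [(1, 6),
 (2, 4), (3, -26), (5, 100), (7, 35)])) (.mul (.pp [(1, 320742180)]) (.sq [(1, -46), (2, 54), (3,
 17), (5, 17), (7, 100)]))))) (.add (.mul (.g 11) (.pp [(1, 3038904000000)])) (.add (.mul (.g 14)
 (.mul (.g 14) (.mul (.g 14) (.pp [(1, 455895000000)])))) (.mul (.g 20) (.pp [(1,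
 1639915200000)]))))))) (.mul (.g 19) (.add (.add (.add (.mul (.pp [(1, 1180972980)]) (.sq [(2,
 -6), (3, -35), (5, 100), (7, 44)])) (.mul (.g 10) (.add (.add (.mul (.g 10) (.add (.mul (.g 7)
 (.pp [(1, 6343147800000)])) (.add (.mul (.g 13) (.pp [(1, 10848222000000)])) (.mul (.g 20) (.pp
 [(1, 5141070000000)]))))) (.mul (.g 11) (.add (.pp [(1, 20558518200000)]) (.add (.mul (.g 19) (.pp
 [(1, 11518848000000)])) (.mul (.g 20) (.pp [(1, 1954735200000)])))))) (.add (.mul (.g 9) (.mul (.g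
 17) (.pp [(1, 13979077200000)]))) (.add (.mul (.g 13) (.mul (.g 19) (.pp [(1, 10617037200000)])))
 (.mul (.g 20) (.pp [(1, 14159059200000)]))))))) (.add (.mul (.g 11) (.add (.pp [(1,
 1893731400000)]) (.mul (.g 19) (.add (.mul (.g 9) (.pp [(1, 6014250000000)])) (.add (.mul (.g 19)
 (.pp [(1, 594000000)])) (.mul (.g 20) (.pp [(1, 5679946800000)]))))))) (.mul (.g 14) (.add (.mul
 (.pp [(1, 484638660)]) (.sq [(1, 36), (2, -6), (3, -53), (5, 68), (7, -100)])) (.mul (.g 8) (.mul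
 (.g 8) (.pp [(1, 116542800000)]))))))) (.add (.add (.mul (.g 9) (.mul (.pp [(1, 21484980)]) (.sq
 [(1, 35), (2, 76), (3, 100), (5, 100), (7, 55)]))) (.mul (.g 15) (.mul (.pp [(1, 9300852)]) (.sq
 [(1, -65), (2, -31), (3, -86), (5, 100), (7, 73)])))) (.add (.mul (.g 17) (.pp [(1,
 6596548200000)])) (.mul (.g 20) (.pp [(1, 10275843600000)]))))))) (.add (.mul (.g 15) (.add (.add
 (.mul (.pp [(1, 19013643)]) (.sq [(2, 11), (3, 60), (5, -58), (7, 100)])) (.mul (.g 17) (.add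
 (.add (.pp [(1, 1993434300000)]) (.mul (.pp [(1, 7663194)]) (.sq [(1, 13), (2, 49), (3, 31), (5,
 100), (7, -76)]))) (.add (.mul (.pp [(1, 98131176)]) (.sq [(1, -1), (2, -59), (3, 100), (5, 1),
 (7, 15)])) (.add (.mul (.pp [(1, 5243832)]) (.sq [(1, 27), (2, 84), (3, 82), (5, 1), (7, 100)]))
 (.mul (.g 14) (.mul (.g 20) (.pp [(1, 1096601220000)])))))))) (.add (.mul (.g 20) (.add (.mul (.pp
 [(1, 8144928)]) (.sq [(1, 31), (2, 16), (3, 71), (5, -100), (7, -87)])) (.mul (.g 11) (.add (.mul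
 (.g 10) (.pp [(1, 226670400000)])) (.mul (.g 20) (.pp [(1, 292850910000)])))))) (.add (.mul (.g
 16) (.add (.mul (.pp [(1, 6343029)]) (.sq [(1, -43), (2, 100), (7, -47)])) (.mul (.g 13) (.pp [(1,
 347120235000)])))) (.mul (.g 8) (.mul (.pp [(1, 9781101)]) (.sq [(1, -38), (2, -16), (3, 100), (5,
 -47), (7, 64)]))))))) (.add (.mul (.g 7) (.add (.add (.mul (.g 7) (.add (.mul (.g 7) (.mul (.g 8)
 (.pp [(1, 528827200000)]))) (.mul (.g 10) (.mul (.g 11) (.pp [(1, 3385753800000)]))))) (.mul (.g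
 11) (.mul (.pp [(1, 218997900)]) (.sq [(1, 24), (2, 6), (3, -19), (5, 100), (7, -16)])))) (.add
 (.mul (.g 13) (.mul (.pp [(1, 250291800)]) (.sq [(1, 7), (2, 51), (3, 22), (5, 100), (7, -63)])))
 (.mul (.g 17) (.mul (.g 17) (.mul (.g 17) (.pp [(1, 9822166200000)]))))))) (.mul (.g 13) (.add
 (.mul (.g 9) (.mul (.pp [(1, 344448720)]) (.sq [(1, 12), (2, 100), (3, -56), (5, 63), (7, -60)])))
 (.mul (.g 16) (.mul (.pp [(1, 46141920)]) (.sq [(1, -11), (2, -59), (3, -8), (5, -88), (7,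
 100)])))))))) (.add (.add (.mul (.g 17) (.mul (.g 17) (.add (.mul (.g 8) (.mul (.g 17) (.pp [(1,
 3532458600000)]))) (.mul (.g 10) (.mul (.g 10) (.pp [(1, 41168061000000)])))))) (.add (.mul (.g 0)
 (.pp [(1, 1800000000000)])) (.mul (.g 1) (.pp [(1, 5940000000)])))) (.add (.mul (.g 3) (.pp [(1,
 19800000000000)])) (.add (.mul (.g 5) (.pp [(1, 19800000000000)])) (.mul (.g 18) (.pp [(1,
 39600000000)])))))) (.pp [(1, 82751086062), (2, 639977994), (3, 632467125), (4, 486472833), (5,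
 675202455), (6, 738062028), (7, 639988668), (8, 682984764), (9, 489574602), (10, 742383180), (12,
 408193038), (14, 509836140), (15, 611179668), (16, 516815640), (18, 595738836), (20, 491739336),
 (21, 601399458), (24, 793690920), (25, 293790816), (27, 711148878), (28, 806467860), (30,
 769480272), (35, 457902126), (36, 455984100), (40, 715698720), (42, 619865136), (45, 536143212),
 (49, 549578304), (50, 573326721), (54, 659232200), (56, 570548880), (60, 437896800), (63,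
 510620220), (70, 500117112), (75, 621752472), (81, 575724600), (84, 515342520), (90, 683531640),
 (98, 658059930), (100, 502143840), (105, 527525856), (125, 793384020), (126, 611736840), (135,
 541745820), (140, 520736040), (147, 667494135), (150, 561462660), (175, 745321500), (189,
 570463740), (196, 516524580), (210, 513227880), (225, 544537620), (245, 745464951), (250,
 647305560), (294, 580961700), (315, 641845380), (343, 618937308), (350, 654605820), (375,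
 551651760), (441, 582110100), (490, 625226580), (525, 599813280), (625, 547335360), (686,
 595995840), (735, 452804220), (875, 565107840), (1029, 540395460), (1225, 511036020), (1715,
 552206160), (2401, 594000000)])))))))))))
 (P_c3 ++ xP_G_F1) = true := by decide +kernel

theorem t_G_F5a_Op0 : chk ROp gP_G_F5a
 (.split [(1, -69), (3, 100)]
 (.rule 5 (.rule 6 (.cut 1 [(1, 3), (3, -2)] (.add (.add (.mul (.g 8) (.pp [(1, 1)])) (.mul (.g 11)
 (.pp [(1, 1)]))) (.add (.mul (.g 5) (.pp [(1, 1)])) (.mul (.g 7) (.pp [(1, 1)])))) (.rule 8 (.leaf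
 75000000 (.add (.add (.add (.add (.mul (.g 4) (.add (.add (.mul (.g 16) (.add (.pp [(1,
 972075000)]) (.add (.mul (.g 6) (.add (.mul (.g 4) (.pp [(1, 12017175)])) (.mul (.g 5) (.pp [(1,
 2607172500)])))) (.mul (.g 11) (.add (.mul (.g 7) (.pp [(1, 927360000)])) (.mul (.g 11) (.pp [(1,
 1023487500)]))))))) (.add (.mul (.g 4) (.add (.mul (.g 4) (.pp [(1, 28533)])) (.add (.mul (.g 5)
 (.pp [(1, 3112800)])) (.mul (.g 6) (.mul (.g 9) (.pp [(1, 2340825)])))))) (.mul (.g 7) (.add (.mul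
 (.g 5) (.mul (.g 9) (.pp [(1, 773647500)]))) (.add (.mul (.g 7) (.mul (.g 7) (.pp [(1,
 412080000)]))) (.mul (.g 10) (.mul (.g 11) (.pp [(1, 115927500)])))))))) (.add (.mul (.g 13) (.add
 (.pp [(1, 803557500)]) (.mul (.pp [(1, 89226)]) (.sq [(1, 7), (2, -43), (3, 100), (5, -84)]))))
 (.add (.mul (.g 6) (.mul (.g 9) (.mul (.g 9) (.pp [(1, 1120807500)])))) (.mul (.g 15) (.mul (.pp
 [(1, 236436)]) (.sq [(1, -7), (2, -17), (3, 10), (5, 25)]))))))) (.mul (.g 16) (.add (.add (.mul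
 (.g 5) (.add (.pp [(1, 19551750000)]) (.add (.mul (.g 5) (.add (.mul (.g 5) (.pp [(1,
 109298250000)])) (.mul (.g 9) (.pp [(1, 109303500000)])))) (.mul (.g 6) (.mul (.g 11) (.pp [(1,
 168520500000)])))))) (.mul (.g 7) (.add (.pp [(1, 67788750000)]) (.add (.mul (.g 7) (.mul (.g 9)
 (.pp [(1, 7259250000)]))) (.mul (.g 12) (.mul (.g 16) (.pp [(1, 1909875000)]))))))) (.add (.mul
 (.g 6) (.add (.pp [(1, 24693750000)]) (.mul (.g 6) (.mul (.g 13) (.pp [(1, 112668000000)])))))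
 (.mul (.g 11) (.mul (.pp [(1, 75)]) (.sq [(1, 10), (2, 85), (3, 100), (5, -34)]))))))) (.add (.mul
 (.g 5) (.add (.mul (.g 10) (.add (.mul (.g 11) (.pp [(1, 14998500000)])) (.mul (.g 12) (.pp [(1,
 2613862500)])))) (.add (.mul (.g 7) (.mul (.g 7) (.mul (.g 13) (.pp [(1, 92052750000)])))) (.mul
 (.g 9) (.mul (.pp [(1, 750)]) (.sq [(1, -16), (2, 100), (3, -39), (5, 90)])))))) (.add (.mul (.g
 9) (.add (.mul (.g 6) (.mul (.g 13) (.mul (.g 13) (.pp [(1, 16934250000)])))) (.add (.mul (.g 9)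
 (.pp [(1, 65208750000)])) (.mul (.g 12) (.mul (.g 12) (.pp [(1, 456873750)])))))) (.mul (.g 10)
 (.add (.mul (.g 7) (.mul (.g 7) (.mul (.g 7) (.pp [(1, 30929250000)])))) (.mul (.g 15) (.mul (.pp
 [(1, 14207400)]) (.sq [(1, 34), (2, -25), (3, -100), (5, 57)])))))))) (.add (.add (.mul (.g 0)
 (.pp [(1, 75000000)])) (.mul (.g 2) (.pp [(1, 250000000000)]))) (.add (.mul (.g 3) (.pp [(1,
 250000000000)])) (.add (.mul (.g 11) (.mul (.g 11) (.mul (.g 11) (.mul (.g 13) (.pp [(1,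
 8866500000)]))))) (.mul (.g 14) (.pp [(1, 250000000000)])))))) (.pp [(1, 4153774869), (2,
 7818954), (3, 7702218), (4, 7937082), (5, 7280556), (6, 6937761), (8, 8016875), (9, 8099460), (10,
 7617756), (12, 5456243), (15, 7175919), (16, 7500000), (18, 9161810), (20, 6139625), (24,
 7275000), (25, 7553064), (27, 6897600), (30, 10334844), (36, 8153550), (40, 7708125), (45,
 6607200), (50, 7051100), (54, 6816000), (60, 8536875), (75, 6509736), (81, 7860000), (90,
 5807400), (100, 7050375), (125, 8124900), (135, 7980000), (150, 7034100), (225, 8373000), (250,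
 8479800), (375, 7484100), (625, 6836700)])))))))
 (.split [(1, -7), (3, 50)]
 (.split [(2, 1), (3, -1)]
 (.rule 0 (.rule 6 (.rule 7 (.leaf 3000000000 (.add (.add (.add (.add (.mul (.g 4) (.add (.add
 (.mul (.g 10) (.add (.add (.mul (.pp [(1, 7415280)]) (.sq [(1, 4), (2, -49), (3, -23), (5, 50)]))
 (.mul (.g 3) (.mul (.g 3) (.pp [(1, 172080000000)])))) (.add (.mul (.g 5) (.mul (.g 13) (.pp [(1,
 59308800)]))) (.add (.mul (.g 6) (.mul (.g 10) (.pp [(1, 17541600000)]))) (.mul (.g 12) (.mul (.g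
 14) (.pp [(1, 92191800000)]))))))) (.mul (.g 4) (.mul (.g 17) (.add (.pp [(1, 5273664000)]) (.add
 (.mul (.g 6) (.pp [(1, 596724000)])) (.mul (.g 8) (.pp [(1, 5289240000)]))))))) (.add (.mul (.g 5)
 (.mul (.g 8) (.add (.mul (.g 6) (.pp [(1, 542376000)])) (.mul (.g 8) (.pp [(1, 408648000)])))))
 (.add (.mul (.g 13) (.add (.mul (.pp [(1, 34443)]) (.sq [(1, 100), (2, -51), (3, 60), (5, 32)]))
 (.mul (.g 13) (.pp [(1, 397063500)])))) (.mul (.g 6) (.mul (.g 7) (.mul (.g 11) (.pp [(1,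
 87991200000)])))))))) (.mul (.g 17) (.add (.mul (.g 13) (.add (.mul (.g 12) (.add (.mul (.g 12)
 (.pp [(1, 60918000000)])) (.mul (.g 13) (.pp [(1, 579225000)])))) (.add (.mul (.g 6) (.mul (.g 6)
 (.pp [(1, 510931500000)]))) (.mul (.g 7) (.mul (.g 13) (.pp [(1, 4158750000)])))))) (.add (.mul
 (.g 3) (.add (.pp [(1, 189690000000)]) (.mul (.g 6) (.add (.mul (.g 3) (.pp [(1,
 10491480000000)])) (.mul (.g 10) (.pp [(1, 6515400000000)])))))) (.mul (.g 17) (.add (.mul (.pp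
 [(1, 51096000)]) (.sq [(1, -19), (2, 77), (3, -36), (5, 100)])) (.add (.mul (.g 8) (.mul (.g 8)
 (.pp [(1, 591120000000)]))) (.mul (.g 17) (.pp [(1, 116400000000)]))))))))) (.add (.mul (.g 8)
 (.add (.add (.mul (.g 3) (.mul (.g 3) (.mul (.g 13) (.pp [(1, 62542500000)])))) (.mul (.g 5) (.mul
 (.pp [(1, 5080470)]) (.sq [(1, -46), (2, 100), (3, -3), (5, 10)])))) (.add (.mul (.g 8) (.mul (.pp
 [(1, 335196000)]) (.sq [(1, -11), (2, 100), (3, -26), (5, -26)]))) (.mul (.g 12) (.mul (.pp [(1,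
 485226000)]) (.sq [(1, -15), (2, 100), (3, -16), (5, -29)])))))) (.add (.mul (.g 13) (.add (.mul
 (.pp [(1, 3650250)]) (.sq [(1, 53), (2, -100), (3, 14), (5, 2)])) (.add (.mul (.g 3) (.mul (.g 3)
 (.mul (.g 6) (.pp [(1, 145474500000)])))) (.mul (.g 10) (.mul (.g 10) (.mul (.g 13) (.pp [(1,
 168375000)]))))))) (.mul (.g 11) (.add (.mul (.g 3) (.mul (.pp [(1, 2440896000)]) (.sq [(2, 25),
 (3, 24), (5, -10)]))) (.mul (.g 5) (.mul (.pp [(1, 137820)]) (.sq [(1, -26), (2, 100), (3, 94),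
 (5, -29)])))))))) (.add (.add (.mul (.g 12) (.add (.mul (.pp [(1, 86265000)]) (.sq [(1, -47), (2,
 100), (3, -14), (5, 3)])) (.mul (.g 12) (.mul (.pp [(1, 40077000)]) (.sq [(1, -63), (2, 100), (3,
 -18), (5, 10)]))))) (.add (.mul (.g 0) (.pp [(1, 6000000000)])) (.mul (.g 1) (.pp [(1,
 10000000000000)])))) (.add (.mul (.g 2) (.pp [(1, 10000000000000)])) (.add (.mul (.g 10) (.mul (.g
 10) (.mul (.pp [(1, 91551000)]) (.sq [(1, 9), (2, 100), (3, 72), (5, -49)])))) (.mul (.g 15) (.pp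
 [(1, 10000000000000)])))))) (.pp [(1, 7995368430), (2, 289574640), (3, 328425480), (4, 322630971),
 (5, 353133960), (6, 301062600), (8, 258615020), (9, 234869520), (10, 312621336), (12, 327069930),
 (15, 245051520), (16, 300000000), (18, 235532880), (20, 331685300), (24, 288207000), (25,
 246928644), (27, 372132880), (30, 190073280), (36, 360825000), (40, 313800000), (45, 430027650),
 (50, 259180460), (54, 280356000), (60, 303861000), (75, 385517100), (81, 286404000), (90,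
 278016000), (100, 279765000), (125, 321745260), (135, 292167000), (150, 367278000), (225,
 258006000), (250, 327666000), (375, 258540000), (625, 294738000)]))))))
 (.rule 1 (.rule 6 (.rule 7 (.leaf 75000000 (.add (.add (.add (.add (.mul (.g 8) (.add (.add (.mul
 (.g 13) (.add (.add (.mul (.g 17) (.add (.mul (.g 3) (.pp [(1, 363000000)])) (.add (.mul (.g 7)
 (.pp [(1, 4650562500)])) (.mul (.g 17) (.pp [(1, 363375000)]))))) (.mul (.g 3) (.pp [(1,
 8032837500)]))) (.add (.mul (.g 5) (.mul (.g 12) (.pp [(1, 5049375)]))) (.mul (.g 8) (.mul (.g 14)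
 (.pp [(1, 313237500)])))))) (.add (.mul (.g 4) (.add (.mul (.g 17) (.add (.mul (.g 4) (.pp [(1,
 68485500)])) (.mul (.g 6) (.pp [(1, 2853525000)])))) (.mul (.g 5) (.mul (.g 8) (.pp [(1,
 41702850)]))))) (.mul (.g 3) (.add (.mul (.g 3) (.pp [(1, 155230500000)])) (.mul (.g 12) (.pp [(1,
 55547250000)])))))) (.add (.mul (.g 5) (.mul (.g 5) (.mul (.g 17) (.pp [(1, 1121625)])))) (.add
 (.mul (.g 6) (.mul (.g 7) (.mul (.g 11) (.pp [(1, 14404500000)])))) (.mul (.g 12) (.mul (.g 12)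
 (.mul (.g 14) (.pp [(1, 11539500000)])))))))) (.mul (.g 6) (.add (.mul (.g 6) (.add (.mul (.g 6)
 (.add (.pp [(1, 3910500000)]) (.add (.mul (.g 7) (.pp [(1, 37355250000)])) (.mul (.g 12) (.pp [(1,
 57653250000)]))))) (.add (.mul (.g 3) (.mul (.g 3) (.pp [(1, 49610250000)]))) (.mul (.g 7) (.mul
 (.g 10) (.pp [(1, 31083000000)])))))) (.add (.mul (.g 3) (.add (.mul (.g 7) (.mul (.g 7) (.pp [(1,
 22896000000)]))) (.mul (.g 10) (.mul (.g 17) (.pp [(1, 42392250000)]))))) (.mul (.g 11) (.pp [(1,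
 1089750000)])))))) (.add (.mul (.g 4) (.add (.mul (.g 4) (.add (.pp [(1, 15673500)]) (.add (.mul
 (.g 5) (.mul (.g 10) (.pp [(1, 98751)]))) (.mul (.g 17) (.pp [(1, 97380000)]))))) (.add (.mul (.g
 7) (.add (.mul (.g 11) (.pp [(1, 32775000)])) (.mul (.g 17) (.pp [(1, 812640000)])))) (.mul (.g 3)
 (.mul (.g 5) (.mul (.g 10) (.pp [(1, 2074050)]))))))) (.add (.mul (.g 3) (.add (.mul (.g 7) (.add
 (.mul (.g 5) (.mul (.g 10) (.pp [(1, 125355000)]))) (.mul (.g 7) (.mul (.g 7) (.pp [(1,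
 49836750000)]))))) (.mul (.g 13) (.pp [(1, 700162500)])))) (.mul (.g 10) (.add (.mul (.g 7) (.mul
 (.g 7) (.mul (.g 11) (.pp [(1, 3996000000)])))) (.mul (.g 10) (.mul (.pp [(1, 803625)]) (.sq [(1,
 -47), (2, 100), (3, 15), (5, -95)])))))))) (.add (.add (.mul (.g 0) (.pp [(1, 150000000)])) (.add
 (.mul (.g 1) (.pp [(1, 250000000000)])) (.mul (.g 2) (.pp [(1, 250000000000)])))) (.add (.mul (.g
 5) (.mul (.g 12) (.mul (.pp [(1, 82190625)]) (.sq [(2, 2), (3, 1)])))) (.add (.mul (.g 13) (.mul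
 (.g 13) (.pp [(1, 8437500)]))) (.mul (.g 15) (.pp [(1, 250000000000)])))))) (.pp [(1, 1417856244),
 (2, 7888731), (3, 7748100), (4, 6408525), (5, 7277625), (6, 7810650), (8, 8437500), (9, 7089375),
 (10, 8593125), (12, 7308750), (15, 7213125), (16, 6750000), (18, 7591875), (20, 6878750), (24,
 7875000), (25, 7156425), (27, 7096875), (30, 6187500), (36, 6684375), (40, 7875000), (45,
 7771875), (50, 6781250), (54, 8437500), (60, 8081250), (75, 8985000), (81, 7312500), (90,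
 8250000), (100, 7284375), (125, 7987500), (135, 7312500), (150, 8250000), (225, 6750000), (250,
 7500000), (375, 6750000), (625, 7500000)])))))))
 (.rule 5 (.cut 450 [(2, -1), (5, 1)] (.add (.mul (.g 9) (.pp [(1, 310)])) (.add (.mul (.g 10) (.pp
 [(1, 7)])) (.mul (.g 1) (.pp [(1, 9)])))) (.rule 3 (.leaf 150000000 (.add (.add (.add (.add (.mul
 (.g 6) (.add (.add (.mul (.g 11) (.add (.add (.mul (.g 7) (.add (.mul (.g 9) (.pp [(1,
 234448500000)])) (.mul (.g 13) (.pp [(1, 35779500000)])))) (.mul (.g 3) (.pp [(1, 16794330000)])))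
 (.add (.mul (.g 4) (.mul (.g 9) (.pp [(1, 1521975000)]))) (.add (.mul (.g 6) (.mul (.g 6) (.pp
 [(1, 86305500000)]))) (.mul (.g 11) (.pp [(1, 180319500000)])))))) (.add (.mul (.g 5) (.add (.mul
 (.g 5) (.add (.mul (.g 6) (.pp [(1, 358950000000)])) (.mul (.g 10) (.pp [(1, 217893000000)]))))
 (.add (.mul (.g 3) (.mul (.g 13) (.pp [(1, 10985130000)]))) (.mul (.g 6) (.mul (.g 6) (.pp [(1,
 122883000000)])))))) (.mul (.g 12) (.add (.pp [(1, 1182150000)]) (.mul (.g 7) (.add (.pp [(1,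
 5885625000)]) (.add (.mul (.g 4) (.pp [(1, 31185750)])) (.mul (.g 16) (.pp [(1,
 4127550000)]))))))))) (.add (.mul (.g 3) (.pp [(1, 5082210000)])) (.add (.mul (.g 6) (.mul (.g 6)
 (.mul (.g 9) (.pp [(1, 716094000000)])))) (.mul (.g 13) (.mul (.pp [(1, 18900)]) (.sq [(2, 100),
 (3, 99)]))))))) (.mul (.g 5) (.add (.mul (.g 5) (.add (.mul (.pp [(1, 2410350)]) (.sq [(1, 50),
 (2, -100), (3, -68), (5, -65)])) (.add (.mul (.g 5) (.add (.mul (.g 3) (.pp [(1, 4719750000)]))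
 (.add (.mul (.g 9) (.pp [(1, 63112500000)])) (.mul (.g 16) (.pp [(1, 52087500000)]))))) (.mul (.g
 9) (.add (.mul (.g 12) (.pp [(1, 871125000)])) (.mul (.g 16) (.pp [(1, 64054500000)]))))))) (.add
 (.mul (.g 3) (.mul (.g 12) (.pp [(1, 418848000)]))) (.mul (.g 4) (.mul (.g 9) (.mul (.g 16) (.pp
 [(1, 117795000)])))))))) (.add (.mul (.g 12) (.add (.add (.mul (.g 4) (.mul (.g 7) (.mul (.g 7)
 (.pp [(1, 6465000)])))) (.mul (.g 11) (.mul (.pp [(1, 416790)]) (.sq [(1, -25), (2, 50), (3, 4),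
 (5, 23)])))) (.add (.mul (.g 12) (.pp [(1, 70481250)])) (.add (.mul (.g 13) (.mul (.pp [(1,
 200865)]) (.sq [(2, 100), (3, 35), (5, 22)]))) (.mul (.g 16) (.pp [(1, 524400000)])))))) (.mul (.g
 7) (.add (.mul (.g 3) (.mul (.g 16) (.add (.mul (.g 3) (.pp [(1, 272811600)])) (.mul (.g 10) (.pp
 [(1, 2368680000)]))))) (.mul (.g 4) (.mul (.pp [(1, 40119)]) (.sq [(1, -51), (2, 3), (3, 100), (5,
 100)]))))))) (.add (.add (.mul (.g 10) (.add (.mul (.g 10) (.mul (.pp [(1, 760800)]) (.sq [(1,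
 -11), (2, 31), (3, 50), (5, -37)]))) (.mul (.g 16) (.mul (.pp [(1, 908400)]) (.sq [(1, -55), (2,
 14), (3, -25), (5, 100)]))))) (.mul (.g 0) (.pp [(1, 500000000000)]))) (.add (.mul (.g 2) (.pp
 [(1, 500000000000)])) (.mul (.g 14) (.pp [(1, 500000000000)]))))) (.pp [(1, 970651950), (2,
 15653250), (3, 14377350), (4, 15010200), (5, 14490939), (6, 15053400), (8, 15411600), (9,
 15387825), (10, 14446266), (12, 16718800), (15, 15724050), (16, 15871200), (18, 13104340), (19,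
 1500000000000), (20, 16440501), (24, 11697600), (25, 14902440), (27, 15339735), (30, 12021960),
 (36, 15540000), (40, 13189200), (45, 16337400), (50, 13565610), (54, 14573100), (60, 15211500),
 (75, 15841290), (81, 15558600), (90, 17083200), (100, 14072250), (125, 15743190), (135, 15011700),
 (150, 15818400), (225, 14064600), (250, 15762000), (375, 15199200), (625, 14826600)]))))))))
 (P_Op0 ++ xP_G_F5a) = true := by decide +kernel

theorem t_G_F5b_Op0 : chk ROp gP_G_F5b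
 (.cut 1 [(2, -1), (3, 1)] (.add (.mul (.g 10) (.pp [(1, 1)])) (.mul (.g 4) (.pp [(1, 1)]))) (.rule
 1 (.cut 1 [(2, 1), (5, -1)] (.add (.mul (.g 12) (.pp [(1, 1)])) (.mul (.g 7) (.pp [(1, 1)])))
 (.rule 2 (.cut 11 [(1, -69), (3, 100)] (.add (.mul (.g 1) (.pp [(1, 620)])) (.add (.mul (.g 11)
 (.pp [(1, 31)])) (.mul (.g 14) (.pp [(1, 480)])))) (.cut 1 [(1, 3), (3, -2)] (.add (.add (.mul (.g
 10) (.pp [(1, 1)])) (.mul (.g 13) (.pp [(1, 1)]))) (.add (.mul (.g 7) (.pp [(1, 1)])) (.mul (.g 9)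
 (.pp [(1, 1)])))) (.rule 8 (.leaf 3000000 (.add (.add (.add (.add (.mul (.g 8) (.add (.add (.mul
 (.g 8) (.add (.add (.mul (.g 8) (.add (.mul (.g 17) (.pp [(1, 390000)])) (.mul (.g 18) (.pp [(1,
 1549890000)])))) (.mul (.g 15) (.add (.pp [(1, 1612110000)]) (.mul (.g 13) (.pp [(1,
 2130000)]))))) (.add (.mul (.g 7) (.mul (.g 18) (.pp [(1, 72570000)]))) (.mul (.g 9) (.mul (.g 17)
 (.pp [(1, 2054940000)])))))) (.add (.mul (.g 13) (.add (.mul (.g 7) (.mul (.g 12) (.pp [(1,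
 2910000)]))) (.add (.mul (.g 9) (.mul (.g 13) (.pp [(1, 429450000)]))) (.mul (.g 17) (.pp [(1,
 42900000)]))))) (.mul (.g 18) (.add (.pp [(1, 5249820000)]) (.mul (.g 9) (.mul (.g 18) (.pp [(1,
 1998300000)]))))))) (.add (.mul (.g 11) (.pp [(1, 2437110000)])) (.add (.mul (.g 14) (.mul (.g 14)
 (.pp [(1, 10050)]))) (.mul (.g 17) (.pp [(1, 8620020000)])))))) (.mul (.g 9) (.add (.add (.mul (.g
 11) (.add (.add (.pp [(1, 7889970000)]) (.mul (.g 9) (.add (.mul (.g 9) (.pp [(1, 879000000)]))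
 (.mul (.g 13) (.pp [(1, 2016480000)]))))) (.add (.mul (.g 11) (.add (.mul (.g 7) (.pp [(1,
 3011460000)])) (.mul (.g 11) (.pp [(1, 3456600000)])))) (.mul (.g 13) (.pp [(1, 4377750000)])))))
 (.mul (.g 7) (.mul (.g 12) (.add (.pp [(1, 17512950000)]) (.mul (.g 7) (.pp [(1, 415650000)]))))))
 (.add (.mul (.g 9) (.mul (.g 9) (.add (.mul (.g 9) (.pp [(1, 233970000)])) (.mul (.g 15) (.pp [(1,
 2559690000)]))))) (.mul (.g 13) (.mul (.g 15) (.mul (.g 17) (.pp [(1, 953730000)])))))))) (.add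
 (.mul (.g 7) (.add (.mul (.g 18) (.add (.pp [(1, 1413330000)]) (.add (.mul (.g 7) (.add (.mul (.g
 11) (.pp [(1, 13140000)])) (.mul (.g 18) (.pp [(1, 1366650000)])))) (.mul (.g 13) (.mul (.g 18)
 (.pp [(1, 2992890000)])))))) (.add (.mul (.g 12) (.add (.pp [(1, 522990000)]) (.mul (.g 12) (.mul
 (.g 14) (.pp [(1, 51000)]))))) (.mul (.g 11) (.mul (.pp [(1, 75)]) (.sq [(1, -4), (2, 57), (3,
 100), (5, -20)])))))) (.add (.mul (.g 0) (.pp [(1, 3000000)])) (.mul (.g 3) (.pp [(1,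
 10000000000)]))))) (.add (.add (.mul (.g 5) (.pp [(1, 10000000000)])) (.mul (.g 11) (.mul (.g 11)
 (.pp [(1, 1019610000)])))) (.add (.mul (.g 12) (.mul (.g 12) (.mul (.pp [(1, 5673)]) (.sq [(1,
 89), (2, 13), (3, 16), (5, 100)])))) (.add (.mul (.g 16) (.pp [(1, 10000000000)])) (.mul (.g 17)
 (.pp [(1, 1230690000)])))))) (.pp [(1, 166144167), (2, 358812), (3, 300912), (4, 324186), (5,
 322266), (6, 266934), (8, 316329), (9, 313287), (10, 277710), (12, 272478), (15, 264942), (16,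
 304938), (18, 340446), (20, 308118), (24, 262506), (25, 272967), (27, 307872), (30, 297900), (36,
 298911), (40, 286674), (45, 328968), (50, 300078), (54, 304608), (60, 348462), (75, 291696), (81,
 287712), (90, 242040), (100, 310863), (125, 310600), (135, 301824), (150, 247632), (225, 340512),
 (250, 280200), (375, 326400), (625, 300000)]))))))))))
 (P_Op0 ++ xP_G_F5b) = true := by decide +kernel

theorem t_G_F7_c3 : chk ROp gP_G_F7
 (.cut 1 [(2, -1), (3, 1)] (.add (.mul (.g 9) (.pp [(1, 1)])) (.mul (.g 4) (.pp [(1, 1)]))) (.rule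
 1 (.cut 1 [(2, 1), (5, -1)] (.add (.mul (.g 10) (.pp [(1, 1)])) (.mul (.g 1) (.pp [(1, 1)])))
 (.rule 2 (.cut 11 [(1, -69), (3, 100)] (.add (.mul (.g 1) (.pp [(1, 620)])) (.add (.mul (.g 11)
 (.pp [(1, 31)])) (.mul (.g 13) (.pp [(1, 480)])))) (.cut 1 [(1, 3), (3, -2)] (.add (.add (.mul (.g
 10) (.pp [(1, 1)])) (.mul (.g 16) (.pp [(1, 1)]))) (.add (.mul (.g 7) (.pp [(1, 1)])) (.add (.mul
 (.g 8) (.pp [(1, 1)])) (.mul (.g 9) (.pp [(1, 1)]))))) (.rule 8 (.rule 15 (.leaf 660000000 (.add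
 (.add (.add (.add (.mul (.g 11) (.add (.add (.mul (.g 11) (.add (.add (.pp [(1, 37518148800000)])
 (.add (.mul (.g 13) (.add (.add (.mul (.g 8) (.pp [(1, 4200985800000)])) (.mul (.g 9) (.pp [(1,
 331964265600000)]))) (.add (.mul (.g 12) (.pp [(1, 3242764800000)])) (.mul (.g 19) (.pp [(1,
 50534589600000)]))))) (.mul (.g 8) (.add (.mul (.g 16) (.pp [(1, 24011664600000)])) (.mul (.g 20)
 (.pp [(1, 101082960000000)])))))) (.add (.mul (.g 10) (.add (.mul (.g 14) (.pp [(1,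
 68878794600000)])) (.mul (.g 15) (.pp [(1, 4794605970000)])))) (.add (.mul (.g 19) (.add (.mul (.g
 9) (.pp [(1, 39169805400000)])) (.mul (.g 14) (.pp [(1, 14950676400000)])))) (.mul (.g 17) (.mul
 (.g 17) (.pp [(1, 165550941600000)]))))))) (.add (.mul (.g 8) (.add (.add (.mul (.g 10) (.add (.pp
 [(1, 634429217400000)]) (.add (.mul (.g 17) (.pp [(1, 48362483400000)])) (.mul (.g 20) (.pp [(1,
 431940161400000)]))))) (.mul (.g 9) (.add (.mul (.g 17) (.pp [(1, 387412542000000)])) (.mul (.g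
 19) (.pp [(1, 79591248000000)]))))) (.add (.mul (.g 12) (.mul (.g 20) (.pp [(1,
 86237811000000)]))) (.add (.mul (.g 17) (.pp [(1, 43803612600000)])) (.mul (.g 19) (.mul (.g 19)
 (.pp [(1, 75262162800000)]))))))) (.mul (.g 10) (.add (.mul (.g 15) (.add (.pp [(1,
 13484623020000)]) (.mul (.g 19) (.pp [(1, 3159110790000)])))) (.mul (.g 20) (.add (.mul (.g 12)
 (.pp [(1, 392408372400000)])) (.mul (.g 16) (.pp [(1, 13166201400000)])))))))) (.add (.mul (.g 19)
 (.add (.mul (.pp [(1, 280519800)]) (.sq [(1, 100), (2, 50), (3, 87), (5, 87), (7, 50)])) (.add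
 (.mul (.pp [(1, 2921703840)]) (.sq [(1, -34), (2, 100), (3, 87), (5, -80), (7, -8)])) (.mul (.g 9)
 (.mul (.g 16) (.pp [(1, 71294671800000)])))))) (.add (.mul (.g 13) (.mul (.pp [(1, 1980433620)])
 (.sq [(1, -14), (2, -81), (3, -100), (5, 77), (7, 88)]))) (.mul (.g 20) (.mul (.pp [(1,
 7650303540)]) (.sq [(1, 40), (2, 100), (3, 75), (5, -37), (7, -69)]))))))) (.add (.mul (.g 19)
 (.add (.add (.add (.pp [(1, 46686987600000)]) (.mul (.g 19) (.add (.add (.mul (.pp [(1,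
 817196820)]) (.sq [(1, 71), (2, -100), (3, -76), (5, 59), (7, 35)])) (.mul (.pp [(1, 314919000)])
 (.sq [(1, -37), (2, -100), (3, 21), (5, -51), (7, 77)]))) (.add (.mul (.g 9) (.add (.mul (.g 8)
 (.pp [(1, 27660877200000)])) (.mul (.g 12) (.pp [(1, 35766159000000)])))) (.add (.mul (.g 10)
 (.mul (.g 15) (.pp [(1, 1066642830000)]))) (.mul (.g 12) (.mul (.g 17) (.pp [(1,
 7414077000000)])))))))) (.add (.mul (.g 8) (.add (.pp [(1, 219236001600000)]) (.add (.mul (.pp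
 [(1, 492259680)]) (.sq [(1, 69), (2, 100), (3, 100), (5, 100), (7, 31)])) (.mul (.g 10) (.add
 (.mul (.g 12) (.pp [(1, 2811646200000)])) (.mul (.g 20) (.pp [(1, 15886873200000)]))))))) (.mul
 (.g 9) (.add (.pp [(1, 13774351800000)]) (.mul (.pp [(1, 1151667660)]) (.sq [(1, 36), (2, 76), (3,
 100), (5, 100), (7, 55)])))))) (.add (.add (.mul (.g 10) (.pp [(1, 323118015000000)])) (.mul (.g
 15) (.mul (.pp [(1, 45740541)]) (.sq [(1, 8), (2, -3), (3, -64), (5, 100), (7, 76)])))) (.add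
 (.mul (.g 16) (.mul (.pp [(1, 2468313540)]) (.sq [(1, -52), (3, 47), (5, -65), (7, 100)]))) (.add
 (.mul (.g 17) (.mul (.pp [(1, 963190800)]) (.sq [(1, -12), (2, -29), (3, 50), (5, 50), (7,
 -12)]))) (.mul (.g 20) (.mul (.pp [(1, 1423171860)]) (.sq [(1, 24), (2, 100), (3, 78), (5, -13),
 (7, -38)])))))))) (.mul (.g 17) (.add (.add (.pp [(1, 47917788600000)]) (.add (.mul (.pp [(1,
 97886725200)]) (.sq [(2, -21), (3, -12), (5, -6), (7, 50)])) (.mul (.g 9) (.add (.pp [(1,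
 41491777800000)]) (.mul (.g 9) (.mul (.g 10) (.pp [(1, 13219668000000)]))))))) (.add (.add (.mul
 (.g 8) (.pp [(1, 218808994800000)])) (.mul (.g 10) (.pp [(1, 313896943800000)]))) (.add (.mul (.g
 13) (.mul (.pp [(1, 763342800)]) (.sq [(1, -5), (2, -34), (3, -6), (5, -27), (7, 100)]))) (.mul
 (.g 17) (.mul (.pp [(1, 5043980700)]) (.sq [(1, 22), (2, -55), (3, -44), (5, -3), (7,
 100)]))))))))) (.add (.mul (.g 15) (.add (.add (.mul (.g 13) (.add (.mul (.pp [(1, 13035924)])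
 (.sq [(1, -14), (2, 34), (3, -72), (5, 59), (7, 100)])) (.mul (.g 13) (.mul (.g 13) (.pp [(1,
 58755840000)]))))) (.mul (.g 20) (.add (.pp [(1, 68361810000)]) (.mul (.pp [(1, 7472454)]) (.sq
 [(1, -54), (2, -37), (3, -48), (5, 35), (7, 100)]))))) (.add (.mul (.g 8) (.mul (.pp [(1,
 2748504)]) (.sq [(1, 100), (2, 57), (3, -64), (5, -64), (7, -24)]))) (.mul (.g 15) (.mul (.pp [(1,
 2206512)]) (.sq [(1, -35), (2, -25), (3, -13), (5, 66), (7, 100)])))))) (.add (.mul (.g 12) (.add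
 (.add (.mul (.g 9) (.add (.pp [(1, 1256475000000)]) (.mul (.g 14) (.mul (.g 14) (.pp [(1,
 1745040000000)]))))) (.mul (.g 8) (.mul (.pp [(1, 88846560)]) (.sq [(1, -46), (2, 100), (3, 48),
 (5, 48), (7, -35)])))) (.add (.mul (.g 12) (.pp [(1, 848166000000)])) (.mul (.g 20) (.pp [(1,
 1103117400000)]))))) (.mul (.g 20) (.add (.mul (.g 20) (.add (.mul (.pp [(1, 79200)]) (.sq [(1,
 -10), (2, 96), (3, 15), (5, 12), (7, 100)])) (.mul (.g 14) (.mul (.g 16) (.pp [(1,
 1578947700000)]))))) (.mul (.g 8) (.mul (.pp [(1, 326649180)]) (.sq [(1, -30), (2, -23), (3, -42),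
 (5, 35), (7, 100)])))))))) (.add (.add (.mul (.g 0) (.pp [(1, 200000000000)])) (.add (.mul (.g 1)
 (.pp [(1, 660000000)])) (.mul (.g 4) (.pp [(1, 2200000000000)])))) (.add (.mul (.g 6) (.pp [(1,
 2200000000000)])) (.add (.mul (.g 10) (.mul (.g 16) (.mul (.g 16) (.pp [(1, 913227150000)]))))
 (.mul (.g 18) (.pp [(1, 4400000000)])))))) (.pp [(1, 9629495548), (2, 56047928), (3, 56823512),
 (4, 48160519), (5, 72621976), (6, 84564832), (7, 57013968), (8, 54797160), (9, 72991644), (10,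
 95689396), (12, 92300351), (14, 61851768), (15, 49343888), (16, 62752800), (18, 47638360), (20,
 85330806), (21, 90693240), (24, 83584380), (25, 52395046), (27, 69440052), (28, 62537343), (30,
 12129128), (35, 64649640), (36, 46980120), (40, 75164100), (42, 80883000), (45, 89857988), (49,
 72250200), (50, 41933100), (54, 83013480), (56, 64126920), (60, 34799820), (63, 48538908), (70,
 54452112), (75, 87148820), (81, 60892260), (84, 80859240), (90, 109825320), (98, 76656360), (100,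
 51965760), (105, 53445480), (125, 73119574), (126, 61687560), (135, 45118260), (140, 81069120),
 (147, 57547908), (150, 96495960), (175, 60745740), (189, 65588820), (196, 71538720), (210,
 76154760), (225, 50573820), (245, 69711840), (250, 76122420), (294, 72388800), (315, 65258160),
 (343, 59220876), (350, 59890380), (375, 59323440), (441, 55249920), (490, 73487040), (525,
 68774640), (625, 62738280), (686, 60698880), (735, 58588200), (875, 70712400), (1029, 72582180),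
 (1225, 66272580), (1715, 65772300), (2401, 67690260)])))))))))))
 (P_c3 ++ xP_G_F7) = true := by decide +kernel

theorem t_G_F7_Op0 : chk ROp gP_G_F7
 (.split [(1, -69), (3, 100)]
 (.split [(2, 1), (3, -1)]
 (.split [(2, 1), (5, -1)]
 (.rule 0 (.rule 2 (.cut 1 [(1, 3), (3, -2)] (.add (.add (.mul (.g 3) (.pp [(1, 2)])) (.mul (.g 9)
 (.pp [(1, 3)]))) (.add (.mul (.g 7) (.pp [(1, 1)])) (.mul (.g 2) (.pp [(1, 1)])))) (.rule 8 (.leaf
 3000000 (.add (.add (.add (.add (.mul (.g 10) (.add (.add (.mul (.g 4) (.add (.add (.mul (.g 7)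
 (.add (.mul (.g 7) (.pp [(1, 9779370000)])) (.mul (.g 10) (.pp [(1, 11498100000)])))) (.mul (.g 8)
 (.add (.mul (.g 8) (.pp [(1, 3431400000)])) (.mul (.g 11) (.pp [(1, 10977330000)]))))) (.add (.mul
 (.g 18) (.add (.mul (.g 13) (.pp [(1, 1770000)])) (.mul (.g 17) (.pp [(1, 3266940000)])))) (.add
 (.mul (.g 4) (.mul (.g 4) (.pp [(1, 1470000)]))) (.mul (.g 10) (.mul (.g 10) (.pp [(1,
 2711370000)]))))))) (.add (.mul (.g 6) (.add (.add (.mul (.g 8) (.add (.pp [(1, 51089400)]) (.add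
 (.mul (.g 7) (.pp [(1, 29689200)])) (.mul (.g 8) (.pp [(1, 61076100)]))))) (.mul (.g 9) (.add
 (.mul (.g 11) (.pp [(1, 42554400)])) (.mul (.g 15) (.pp [(1, 34897500)]))))) (.add (.mul (.g 6)
 (.mul (.g 15) (.pp [(1, 229794)]))) (.mul (.g 10) (.pp [(1, 129381900)]))))) (.mul (.g 11) (.add
 (.mul (.g 5) (.add (.mul (.g 15) (.pp [(1, 3172710000)])) (.add (.mul (.g 17) (.pp [(1,
 8867190000)])) (.mul (.g 18) (.pp [(1, 9781500000)]))))) (.add (.mul (.g 18) (.add (.mul (.g 8)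
 (.pp [(1, 7432800000)])) (.mul (.g 15) (.pp [(1, 15691410000)])))) (.mul (.g 7) (.pp [(1,
 18399030000)]))))))) (.add (.add (.mul (.g 10) (.add (.mul (.g 10) (.add (.mul (.g 5) (.pp [(1,
 7374450000)])) (.mul (.g 10) (.pp [(1, 5434950000)])))) (.add (.mul (.g 14) (.add (.pp [(1,
 630087000)]) (.mul (.g 18) (.pp [(1, 343423500)])))) (.mul (.g 18) (.mul (.g 18) (.pp [(1,
 10238340000)])))))) (.mul (.g 17) (.add (.pp [(1, 2446590000)]) (.add (.mul (.pp [(1, 204648)])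
 (.sq [(1, 100), (2, 50), (3, 87), (5, 87), (7, 50)])) (.mul (.g 15) (.mul (.g 15) (.pp [(1,
 3773880000)]))))))) (.add (.mul (.g 5) (.mul (.g 7) (.mul (.g 7) (.pp [(1, 2335860000)])))) (.mul
 (.g 8) (.mul (.g 18) (.mul (.g 18) (.pp [(1, 6738180000)])))))))) (.add (.mul (.g 17) (.add (.add
 (.mul (.pp [(1, 597828)]) (.sq [(2, -9), (3, 76), (5, -100), (7, 90)])) (.add (.mul (.g 9) (.add
 (.mul (.g 9) (.add (.mul (.g 6) (.pp [(1, 24506400)])) (.add (.mul (.g 7) (.pp [(1, 1950000)]))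
 (.mul (.g 9) (.pp [(1, 600000)]))))) (.add (.mul (.g 8) (.add (.mul (.g 11) (.pp [(1,
 3547920000)])) (.mul (.g 17) (.pp [(1, 1925160000)])))) (.mul (.g 15) (.mul (.g 18) (.pp [(1,
 2364390000)])))))) (.mul (.g 17) (.add (.mul (.pp [(1, 549252)]) (.sq [(1, -100), (2, 57), (3,
 17), (5, 50), (7, 85)])) (.add (.mul (.pp [(1, 10800)]) (.sq [(1, -81), (2, -7), (3, 54), (5,
 -82), (7, 100)])) (.mul (.g 8) (.mul (.g 17) (.pp [(1, 190530000)])))))))) (.add (.mul (.g 7)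
 (.add (.pp [(1, 3250710000)]) (.mul (.g 7) (.mul (.g 8) (.pp [(1, 1785480000)]))))) (.add (.mul
 (.g 4) (.pp [(1, 9037470000)])) (.mul (.g 18) (.pp [(1, 9639600000)])))))) (.mul (.g 18) (.add
 (.add (.mul (.g 6) (.add (.pp [(1, 205624500)]) (.mul (.g 7) (.add (.mul (.g 5) (.pp [(1, 8700)]))
 (.mul (.g 6) (.pp [(1, 332124)])))))) (.mul (.g 8) (.mul (.g 8) (.add (.mul (.g 4) (.pp [(1,
 3370200000)])) (.mul (.g 8) (.pp [(1, 2764110000)])))))) (.add (.mul (.g 9) (.add (.pp [(1,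
 2627970000)]) (.mul (.g 9) (.mul (.g 9) (.pp [(1, 300000)]))))) (.add (.mul (.g 5) (.mul (.pp [(1,
 57)]) (.sq [(1, 35), (2, -24), (3, 100), (5, -93), (7, 77)]))) (.mul (.g 14) (.pp [(1,
 37059000)])))))))) (.add (.mul (.g 7) (.add (.mul (.g 7) (.add (.mul (.g 6) (.add (.pp [(1,
 4114500)]) (.mul (.g 11) (.pp [(1, 300)])))) (.mul (.g 7) (.mul (.g 11) (.pp [(1,
 9054420000)]))))) (.add (.mul (.g 4) (.add (.mul (.g 8) (.pp [(1, 7335660000)])) (.mul (.g 9) (.pp
 [(1, 10005240000)])))) (.mul (.g 5) (.mul (.g 9) (.pp [(1, 3653670000)])))))) (.add (.mul (.g 11)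
 (.add (.add (.mul (.g 8) (.mul (.g 8) (.mul (.g 8) (.pp [(1, 1056600000)])))) (.mul (.g 9) (.pp
 [(1, 1237860000)]))) (.add (.mul (.g 11) (.mul (.g 13) (.mul (.g 13) (.pp [(1, 120000)])))) (.mul
 (.g 14) (.pp [(1, 107047500)]))))) (.mul (.g 5) (.add (.mul (.g 5) (.add (.mul (.g 8) (.pp [(1,
 5062920000)])) (.mul (.g 14) (.pp [(1, 317026500)])))) (.mul (.g 9) (.mul (.g 9) (.mul (.g 13)
 (.pp [(1, 180000)]))))))))) (.add (.add (.mul (.g 4) (.add (.mul (.g 4) (.mul (.g 9) (.pp [(1,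
 9998790000)]))) (.mul (.g 6) (.pp [(1, 5679000)])))) (.add (.mul (.g 0) (.pp [(1, 3000000)]))
 (.mul (.g 2) (.pp [(1, 10000000000)])))) (.add (.mul (.g 3) (.pp [(1, 10000000000)])) (.add (.mul
 (.g 6) (.mul (.g 6) (.pp [(1, 49419)]))) (.mul (.g 16) (.pp [(1, 10000000000)])))))) (.pp [(1,
 43786341), (2, 286911), (3, 234825), (4, 312744), (5, 300300), (6, 301068), (7, 192366), (8,
 296468), (9, 387144), (10, 328059), (12, 348396), (14, 331050), (15, 275505), (16, 300000), (18,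
 224448), (20, 339492), (21, 555744), (24, 270000), (25, 332400), (27, 262984), (28, 312636), (30,
 248508), (35, 252300), (36, 311052), (40, 272832), (42, 214776), (45, 295200), (49, 456300), (50,
 245937), (54, 314424), (56, 300000), (60, 323568), (63, 131772), (70, 282384), (75, 280863), (81,
 303372), (84, 292104), (90, 358800), (98, 250047), (100, 314448), (105, 359892), (125, 310000),
 (126, 314568), (135, 296400), (140, 299328), (147, 80553), (150, 275352), (175, 296088), (189,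
 349176), (196, 281052), (210, 386472), (225, 321000), (245, 348900), (250, 312993), (294, 318264),
 (315, 224424), (343, 202200), (350, 263646), (375, 287007), (441, 359424), (490, 330753), (525,
 318666), (625, 300000), (686, 288120), (735, 243471), (875, 300000), (1029, 367920), (1225,
 301512), (1715, 285600), (2401, 324300)])))))))
 (.rule 0 (.rule 3 (.cut 31 [(1, 3), (3, -2)] (.add (.mul (.g 3) (.pp [(1, 162)])) (.add (.mul (.g
 9) (.pp [(1, 162)])) (.mul (.g 4) (.pp [(1, 1)])))) (.rule 8 (.leaf 300000000 (.add (.add (.add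
 (.add (.mul (.g 5) (.add (.add (.mul (.g 7) (.add (.add (.mul (.g 7) (.add (.add (.mul (.g 4) (.pp
 [(1, 18897000000)])) (.mul (.g 10) (.pp [(1, 607176000000)]))) (.add (.mul (.g 11) (.pp [(1,
 900180000000)])) (.mul (.g 17) (.pp [(1, 443379000000)]))))) (.add (.mul (.g 5) (.mul (.g 13) (.pp
 [(1, 2196000000)]))) (.mul (.g 6) (.pp [(1, 14556540000)])))) (.add (.mul (.g 8) (.mul (.g 17)
 (.pp [(1, 224667000000)]))) (.add (.mul (.g 9) (.mul (.g 18) (.pp [(1, 46788000000)]))) (.mul (.g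
 10) (.mul (.g 14) (.pp [(1, 4204350000)]))))))) (.add (.mul (.g 5) (.add (.add (.pp [(1,
 1076382000000)]) (.mul (.pp [(1, 2128800)]) (.sq [(1, -75), (2, -76), (3, 26), (5, -9), (7,
 100)]))) (.add (.mul (.g 8) (.add (.mul (.g 9) (.pp [(1, 377376000000)])) (.mul (.g 15) (.pp [(1,
 50982000000)])))) (.add (.mul (.g 9) (.mul (.g 18) (.pp [(1, 64725000000)]))) (.mul (.g 13) (.pp
 [(1, 432456000000)])))))) (.mul (.g 10) (.add (.add (.mul (.g 4) (.add (.mul (.g 4) (.pp [(1,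
 1185591000000)])) (.mul (.g 18) (.pp [(1, 2953428000000)])))) (.mul (.g 9) (.mul (.g 14) (.pp [(1,
 5368800000)])))) (.add (.mul (.g 10) (.mul (.g 10) (.pp [(1, 369246000000)]))) (.mul (.g 18) (.mul
 (.g 18) (.pp [(1, 927540000000)])))))))) (.add (.mul (.g 17) (.add (.add (.pp [(1, 258837000000)])
 (.mul (.pp [(1, 13042800)]) (.sq [(1, 51), (2, 84), (3, 100), (5, 79), (7, 26)]))) (.add (.mul (.g
 8) (.pp [(1, 270588000000)])) (.mul (.g 9) (.mul (.g 18) (.pp [(1, 6552000000)])))))) (.add (.mul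
 (.g 6) (.add (.pp [(1, 8643720000)]) (.mul (.g 8) (.mul (.g 9) (.pp [(1, 6574890000)]))))) (.mul
 (.g 18) (.pp [(1, 401892000000)])))))) (.mul (.g 18) (.add (.add (.mul (.g 9) (.add (.add (.mul
 (.g 9) (.add (.mul (.g 6) (.pp [(1, 2673060000)])) (.add (.mul (.g 7) (.pp [(1, 190863000000)]))
 (.mul (.g 9) (.pp [(1, 12429000000)]))))) (.mul (.g 7) (.mul (.g 7) (.pp [(1, 70440000000)]))))
 (.add (.mul (.g 13) (.pp [(1, 124242000000)])) (.add (.mul (.g 17) (.mul (.g 17) (.pp [(1,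
 90054000000)]))) (.mul (.g 18) (.mul (.g 18) (.pp [(1, 131925000000)]))))))) (.add (.mul (.g 8)
 (.add (.mul (.pp [(1, 3543000)]) (.sq [(1, -27), (2, -17), (3, -48), (5, 79), (7, 100)])) (.add
 (.mul (.g 8) (.add (.mul (.g 8) (.pp [(1, 620952000000)])) (.mul (.g 17) (.pp [(1,
 425475000000)])))) (.mul (.g 7) (.mul (.g 7) (.pp [(1, 848070000000)])))))) (.mul (.g 10) (.add
 (.pp [(1, 5058000000)]) (.add (.mul (.g 10) (.mul (.g 17) (.pp [(1, 88545000000)]))) (.mul (.g 13)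
 (.mul (.g 13) (.pp [(1, 149877000000)])))))))) (.add (.add (.mul (.g 4) (.add (.mul (.g 11) (.mul
 (.g 15) (.pp [(1, 278082000000)]))) (.mul (.g 17) (.mul (.g 17) (.pp [(1, 88047000000)]))))) (.mul
 (.g 18) (.add (.pp [(1, 281622000000)]) (.mul (.pp [(1, 12410400)]) (.sq [(1, -83), (2, 100), (3,
 100), (5, 100), (7, 100)]))))) (.add (.mul (.g 6) (.pp [(1, 7977300000)])) (.mul (.g 7) (.pp [(1,
 840666000000)]))))))) (.add (.mul (.g 10) (.add (.mul (.g 10) (.add (.mul (.g 17) (.add (.add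
 (.mul (.g 6) (.pp [(1, 3502170000)])) (.mul (.g 8) (.pp [(1, 698607000000)]))) (.add (.mul (.g 11)
 (.pp [(1, 995157000000)])) (.mul (.g 17) (.pp [(1, 877077000000)]))))) (.add (.mul (.g 6) (.add
 (.mul (.g 6) (.pp [(1, 14699100)])) (.mul (.g 11) (.pp [(1, 12769050000)])))) (.mul (.g 11) (.mul
 (.g 11) (.pp [(1, 984576000000)])))))) (.add (.mul (.g 12) (.add (.mul (.pp [(1, 5068200)]) (.sq
 [(1, -20), (2, -30), (3, 2), (5, -9), (7, 100)])) (.add (.mul (.g 6) (.add (.mul (.g 7) (.pp [(1,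
 4495620000)])) (.mul (.g 9) (.pp [(1, 2167140000)])))) (.mul (.g 4) (.mul (.g 4) (.pp [(1,
 43308000000)])))))) (.mul (.g 7) (.mul (.g 17) (.add (.pp [(1, 1087128000000)]) (.mul (.g 11) (.pp
 [(1, 1198170000000)])))))))) (.add (.mul (.g 6) (.add (.mul (.g 6) (.add (.pp [(1, 1974600)])
 (.mul (.g 8) (.mul (.g 14) (.pp [(1, 1646775)]))))) (.add (.mul (.g 17) (.add (.mul (.pp [(1,
 349191)]) (.sq [(1, -17), (2, -46), (3, -28), (5, 8), (7, 100)])) (.mul (.g 8) (.mul (.g 8) (.pp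
 [(1, 3867330000)]))))) (.mul (.g 4) (.mul (.g 11) (.mul (.g 11) (.pp [(1, 3449490000)])))))))
 (.mul (.g 17) (.mul (.g 17) (.add (.pp [(1, 147678000000)]) (.add (.mul (.pp [(1, 3168300)]) (.sq
 [(1, -100), (2, 57), (3, 17), (5, 50), (7, 85)])) (.mul (.g 9) (.mul (.g 17) (.pp [(1,
 64824000000)])))))))))) (.add (.add (.mul (.g 0) (.pp [(1, 300000000)])) (.add (.mul (.g 2) (.pp
 [(1, 1000000000000)])) (.mul (.g 3) (.pp [(1, 1000000000000)])))) (.add (.mul (.g 8) (.mul (.g 14)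
 (.mul (.pp [(1, 33045)]) (.sq [(1, -37), (2, 100), (3, 65), (5, -78), (7, -72)])))) (.add (.mul
 (.g 13) (.mul (.g 13) (.mul (.pp [(1, 3692100)]) (.sq [(1, 26), (2, 31), (3, 6), (5, -74), (7,
 100)])))) (.mul (.g 16) (.pp [(1, 1000000000000)])))))) (.pp [(1, 1217601531), (2, 26103156), (3,
 32765997), (4, 31286064), (5, 25624512), (6, 33780348), (7, 27033669), (8, 32208000), (9,
 29266878), (10, 38311056), (12, 29000436), (14, 32667444), (15, 37411956), (16, 28943100), (18,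
 24271296), (20, 28419600), (21, 36373332), (24, 29667000), (25, 36032256), (27, 32167789), (28,
 23880636), (30, 25214544), (35, 41861088), (36, 29598000), (40, 30372600), (42, 33237696), (45,
 23567292), (49, 33396000), (50, 27458400), (54, 32523900), (56, 26356800), (60, 32185200), (63,
 28050264), (70, 27375744), (75, 24267564), (81, 28648800), (84, 37039800), (90, 27759600), (98,
 30843600), (100, 31809900), (105, 12639552), (125, 24700800), (126, 27072600), (135, 34220700),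
 (140, 29553600), (147, 22746120), (150, 27396000), (175, 23560344), (189, 30406800), (196,
 31343700), (210, 32191200), (225, 32337600), (245, 23373600), (250, 30234000), (294, 26628600),
 (315, 33663600), (343, 25515000), (350, 32238600), (375, 31653000), (441, 33341400), (490,
 29072400), (525, 34087800), (625, 32060400), (686, 31105800), (735, 36942000), (875, 30604200),
 (1029, 33745200), (1225, 32490000), (1715, 30450000), (2401, 32032500)]))))))))
 (.split [(2, 1), (5, -1)]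
 (.rule 1 (.rule 2 (.cut 1 [(1, 3), (3, -2)] (.add (.add (.mul (.g 10) (.pp [(1, 1)])) (.mul (.g
 13) (.pp [(1, 1)]))) (.add (.mul (.g 7) (.pp [(1, 1)])) (.mul (.g 9) (.pp [(1, 1)])))) (.rule 8
 (.leaf 150000000 (.add (.add (.add (.add (.mul (.g 10) (.add (.add (.mul (.g 7) (.add (.add (.mul
 (.g 9) (.add (.add (.mul (.g 5) (.pp [(1, 918234000000)])) (.mul (.g 8) (.pp [(1, 81123000000)])))
 (.add (.mul (.g 9) (.pp [(1, 284308500000)])) (.mul (.g 15) (.pp [(1, 767553000000)]))))) (.add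
 (.mul (.g 11) (.add (.mul (.g 11) (.pp [(1, 754192500000)])) (.mul (.g 17) (.pp [(1,
 149185500000)])))) (.mul (.g 14) (.add (.mul (.g 7) (.pp [(1, 7282200000)])) (.mul (.g 12) (.pp
 [(1, 2938275000)])))))) (.add (.mul (.g 5) (.mul (.g 18) (.pp [(1, 507670500000)]))) (.add (.mul
 (.g 10) (.mul (.g 10) (.pp [(1, 631963500000)]))) (.mul (.g 17) (.pp [(1, 504891000000)]))))))
 (.add (.mul (.g 10) (.add (.add (.mul (.g 17) (.add (.pp [(1, 1110249000000)]) (.add (.mul (.g 11)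
 (.pp [(1, 70207500000)])) (.mul (.g 17) (.pp [(1, 10830000000)]))))) (.mul (.g 6) (.add (.mul (.g
 8) (.pp [(1, 12389865000)])) (.mul (.g 15) (.pp [(1, 12356745000)]))))) (.add (.mul (.g 9) (.add
 (.mul (.g 8) (.pp [(1, 178212000000)])) (.mul (.g 10) (.pp [(1, 16299000000)])))) (.add (.mul (.g
 10) (.mul (.g 10) (.pp [(1, 439155000000)]))) (.mul (.g 11) (.mul (.g 11) (.pp [(1,
 901761000000)]))))))) (.mul (.g 4) (.add (.add (.mul (.g 15) (.add (.mul (.g 4) (.pp [(1,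
 307783500000)])) (.mul (.g 18) (.pp [(1, 327561000000)])))) (.mul (.g 5) (.mul (.g 5) (.pp [(1,
 53755500000)])))) (.add (.mul (.g 8) (.mul (.g 18) (.pp [(1, 479283000000)]))) (.mul (.g 9) (.mul
 (.g 9) (.pp [(1, 66799500000)])))))))) (.add (.mul (.g 17) (.add (.pp [(1, 266419500000)]) (.add
 (.mul (.g 9) (.add (.mul (.g 5) (.pp [(1, 29841000000)])) (.mul (.g 6) (.pp [(1, 1182210000)]))))
 (.mul (.g 12) (.mul (.g 18) (.pp [(1, 2352000000)])))))) (.add (.mul (.g 6) (.add (.pp [(1,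
 2910135000)]) (.mul (.g 5) (.mul (.g 18) (.pp [(1, 507915000)]))))) (.mul (.g 14) (.add (.mul (.pp
 [(1, 399030)]) (.sq [(1, -1), (2, -46), (3, -98), (5, 100)])) (.mul (.g 8) (.mul (.g 9) (.pp [(1,
 17282325000)]))))))))) (.add (.mul (.g 4) (.add (.add (.add (.pp [(1, 26043000000)]) (.mul (.g 9)
 (.add (.pp [(1, 547615500000)]) (.add (.mul (.g 4) (.pp [(1, 43363500000)])) (.mul (.g 18) (.mul
 (.g 18) (.pp [(1, 2233500000)]))))))) (.add (.mul (.g 4) (.mul (.g 13) (.pp [(1, 474736500000)])))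
 (.mul (.g 7) (.pp [(1, 420483000000)])))) (.add (.add (.mul (.g 8) (.pp [(1, 187690500000)]))
 (.mul (.g 15) (.mul (.pp [(1, 9580800)]) (.sq [(1, 2), (2, -40), (3, -24), (5, 27), (7, 50)]))))
 (.add (.mul (.g 17) (.mul (.pp [(1, 1125750)]) (.sq [(1, -27), (2, -92), (3, -63), (5, 100), (7,
 -69)]))) (.mul (.g 18) (.mul (.pp [(1, 7387500)]) (.sq [(2, 37), (3, 100), (5, -25), (7,
 -97)]))))))) (.mul (.g 5) (.add (.add (.mul (.g 7) (.add (.mul (.g 6) (.mul (.g 7) (.pp [(1,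
 477675000)]))) (.add (.mul (.g 11) (.mul (.g 11) (.pp [(1, 335419500000)]))) (.mul (.g 18) (.mul
 (.g 18) (.pp [(1, 1231500000)])))))) (.mul (.g 8) (.add (.pp [(1, 238210500000)]) (.add (.mul (.g
 5) (.mul (.g 15) (.pp [(1, 7708500000)]))) (.mul (.g 8) (.mul (.g 9) (.pp [(1,
 71880000000)]))))))) (.add (.mul (.g 5) (.mul (.pp [(1, 111750)]) (.sq [(1, -10), (2, -32), (3,
 31), (5, 94), (7, -100)]))) (.add (.mul (.g 6) (.pp [(1, 3652785000)])) (.mul (.g 9) (.pp [(1,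
 364023000000)])))))))) (.add (.mul (.g 17) (.add (.add (.pp [(1, 4524000000)]) (.mul (.g 9) (.add
 (.mul (.g 9) (.add (.pp [(1, 503266500000)]) (.mul (.g 9) (.pp [(1, 20761500000)])))) (.mul (.g 7)
 (.pp [(1, 164628000000)]))))) (.add (.mul (.g 13) (.mul (.pp [(1, 2167350)]) (.sq [(1, 70), (2,
 90), (3, 53), (5, 40), (7, 100)]))) (.mul (.g 18) (.pp [(1, 332950500000)]))))) (.add (.mul (.g 7)
 (.add (.mul (.g 7) (.mul (.g 7) (.add (.mul (.g 9) (.pp [(1, 6148500000)])) (.add (.mul (.g 11)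
 (.pp [(1, 122701500000)])) (.mul (.g 15) (.pp [(1, 263785500000)])))))) (.mul (.g 13) (.mul (.g
 18) (.mul (.g 18) (.pp [(1, 45516000000)])))))) (.mul (.g 12) (.add (.mul (.pp [(1, 3022350)])
 (.sq [(2, 100), (3, 67), (5, 77), (7, 67)])) (.add (.mul (.g 6) (.mul (.pp [(1, 14133)]) (.sq [(1,
 -75), (2, 26), (3, 100), (5, 24), (7, -14)]))) (.mul (.g 15) (.mul (.pp [(1, 2773050)]) (.sq [(1,
 21), (2, -53), (3, -100), (5, 90), (7, 94)]))))))))) (.add (.add (.mul (.g 8) (.mul (.g 15) (.add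
 (.mul (.g 11) (.pp [(1, 77338500000)])) (.mul (.g 15) (.pp [(1, 16312500000)]))))) (.add (.mul (.g
 14) (.add (.mul (.g 13) (.mul (.pp [(1, 48315)]) (.sq [(1, -100), (2, 74), (3, 9), (5, -53), (7,
 73)]))) (.mul (.g 18) (.mul (.pp [(1, 197235)]) (.sq [(1, 2), (2, 76), (3, -77), (5, 36), (7,
 100)]))))) (.mul (.g 0) (.pp [(1, 150000000)])))) (.add (.add (.mul (.g 2) (.pp [(1,
 500000000000)])) (.mul (.g 3) (.pp [(1, 500000000000)]))) (.add (.mul (.g 6) (.mul (.g 18) (.pp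
 [(1, 4862940000)]))) (.mul (.g 16) (.pp [(1, 500000000000)])))))) (.pp [(1, 2187916035), (2,
 14993385), (3, 17287755), (4, 12289242), (5, 15485475), (6, 16254540), (7, 15822570), (8,
 14717442), (9, 9897735), (10, 19068816), (12, 15247788), (14, 16910334), (15, 13583160), (16,
 15109200), (18, 14325735), (20, 14599554), (21, 14303520), (24, 16081650), (25, 13191882), (27,
 19240335), (28, 12400524), (30, 17440134), (35, 12411606), (36, 15155700), (40, 15263100), (42,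
 11658726), (45, 14367660), (49, 11690742), (50, 15960471), (54, 16329900), (56, 16157400), (60,
 10699350), (63, 13462170), (70, 16315782), (75, 13293183), (81, 13424100), (84, 17426400), (90,
 11888700), (98, 13361277), (100, 13793400), (105, 18951204), (125, 16174973), (126, 15186900),
 (135, 14404500), (140, 15022200), (147, 19442973), (150, 19299000), (175, 16786014), (189,
 15545550), (196, 16809300), (210, 12108000), (225, 16966500), (245, 16998723), (250, 15960300),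
 (294, 15844650), (315, 14154900), (343, 16500000), (350, 13566000), (375, 13303800), (441,
 12834300), (490, 13440900), (525, 14481000), (625, 14307000), (686, 15195750), (735, 11755350),
 (875, 14954400), (1029, 13500000), (1225, 14749800), (1715, 14804250), (2401, 15000000)])))))))
 (.rule 1 (.rule 3 (.cut 1 [(1, 3), (3, -2)] (.add (.add (.mul (.g 5) (.pp [(1, 1)])) (.mul (.g 10)
 (.pp [(1, 2)]))) (.add (.mul (.g 2) (.pp [(1, 2)])) (.mul (.g 9) (.pp [(1, 1)])))) (.rule 8 (.leaf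
 300000000 (.add (.add (.add (.add (.mul (.g 17) (.add (.add (.mul (.g 10) (.add (.add (.pp [(1,
 22752000000)]) (.mul (.g 10) (.add (.pp [(1, 812832000000)]) (.add (.mul (.g 11) (.pp [(1,
 962169000000)])) (.mul (.g 13) (.pp [(1, 285744000000)])))))) (.add (.mul (.g 7) (.add (.pp [(1,
 476127000000)]) (.mul (.g 11) (.pp [(1, 891096000000)])))) (.add (.mul (.g 18) (.add (.mul (.g 12)
 (.pp [(1, 174321000000)])) (.mul (.g 15) (.pp [(1, 774936000000)])))) (.mul (.g 9) (.pp [(1,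
 301824000000)])))))) (.add (.mul (.g 17) (.add (.mul (.pp [(1, 1581300)]) (.sq [(1, -2), (3, 46),
 (5, -15), (7, 100)])) (.add (.mul (.g 11) (.add (.mul (.g 11) (.pp [(1, 180927000000)])) (.add
 (.mul (.g 17) (.pp [(1, 34779000000)])) (.mul (.g 18) (.pp [(1, 6093000000)]))))) (.mul (.g 18)
 (.add (.mul (.g 17) (.pp [(1, 268803000000)])) (.mul (.g 18) (.pp [(1, 110808000000)]))))))) (.mul
 (.g 5) (.add (.mul (.pp [(1, 12115500)]) (.sq [(1, -14), (2, 100), (3, 71), (5, 73), (7, -52)]))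
 (.add (.mul (.pp [(1, 18915600)]) (.sq [(1, -100), (2, 69), (3, -42), (5, -30), (7, 87)])) (.mul
 (.g 9) (.mul (.g 11) (.pp [(1, 241746000000)])))))))) (.add (.add (.mul (.g 4) (.add (.pp [(1,
 12792000000)]) (.mul (.g 4) (.mul (.g 8) (.pp [(1, 129918000000)]))))) (.mul (.g 7) (.add (.mul
 (.g 6) (.mul (.g 8) (.pp [(1, 1225740000)]))) (.mul (.g 7) (.mul (.g 7) (.pp [(1,
 78684000000)])))))) (.add (.mul (.g 12) (.mul (.pp [(1, 6220500)]) (.sq [(1, 71), (2, 100), (3,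
 27), (5, 86), (7, 59)]))) (.mul (.g 15) (.pp [(1, 34533000000)])))))) (.add (.mul (.g 5) (.add
 (.add (.mul (.g 7) (.add (.add (.mul (.g 10) (.add (.pp [(1, 1223784000000)]) (.add (.mul (.g 8)
 (.pp [(1, 35688000000)])) (.mul (.g 11) (.pp [(1, 1136598000000)]))))) (.mul (.g 7) (.add (.mul
 (.g 7) (.pp [(1, 321930000000)])) (.mul (.g 18) (.pp [(1, 281802000000)]))))) (.add (.mul (.g 4)
 (.pp [(1, 195744000000)])) (.add (.mul (.g 8) (.mul (.g 8) (.pp [(1, 529008000000)]))) (.mul (.g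
 11) (.mul (.g 11) (.pp [(1, 578340000000)]))))))) (.mul (.g 9) (.add (.add (.mul (.g 5) (.add
 (.mul (.g 5) (.pp [(1, 283293000000)])) (.mul (.g 8) (.pp [(1, 366768000000)])))) (.mul (.g 4)
 (.pp [(1, 333519000000)]))) (.add (.mul (.g 6) (.mul (.g 15) (.pp [(1, 8037150000)]))) (.mul (.g
 8) (.mul (.g 10) (.pp [(1, 506604000000)]))))))) (.add (.mul (.g 8) (.add (.mul (.g 5) (.mul (.g
 5) (.pp [(1, 29895000000)]))) (.mul (.g 11) (.mul (.g 11) (.pp [(1, 389616000000)]))))) (.add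
 (.mul (.g 6) (.pp [(1, 1020390000)])) (.mul (.g 10) (.mul (.g 10) (.mul (.g 11) (.pp [(1,
 1065243000000)])))))))) (.mul (.g 18) (.add (.add (.mul (.g 7) (.add (.add (.mul (.g 10) (.add
 (.pp [(1, 416394000000)]) (.mul (.g 4) (.pp [(1, 188640000000)])))) (.mul (.g 6) (.mul (.g 7) (.pp
 [(1, 17799450000)])))) (.add (.mul (.g 8) (.mul (.g 18) (.pp [(1, 133395000000)]))) (.mul (.g 11)
 (.mul (.g 13) (.pp [(1, 87000000)])))))) (.mul (.g 9) (.add (.add (.mul (.g 6) (.add (.mul (.g 9)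
 (.pp [(1, 3223890000)])) (.mul (.g 10) (.pp [(1, 58260000)])))) (.mul (.g 8) (.mul (.g 11) (.pp
 [(1, 493137000000)])))) (.add (.mul (.g 9) (.mul (.g 9) (.pp [(1, 60000000)]))) (.mul (.g 14)
 (.mul (.g 18) (.pp [(1, 1500000)]))))))) (.add (.mul (.g 6) (.pp [(1, 16515330000)])) (.add (.mul
 (.g 10) (.pp [(1, 43599000000)])) (.mul (.g 12) (.pp [(1, 103320000000)])))))))) (.add (.mul (.g
 6) (.add (.add (.mul (.g 11) (.add (.mul (.pp [(1, 120147)]) (.sq [(1, -25), (2, 54), (3, 100),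
 (5, -22), (7, -42)])) (.add (.mul (.g 6) (.mul (.g 6) (.pp [(1, 282576)]))) (.mul (.g 7) (.mul (.g
 12) (.pp [(1, 2830680000)])))))) (.mul (.g 4) (.add (.mul (.pp [(1, 3132)]) (.sq [(1, 6), (2,
 -100), (3, -62), (5, 89), (7, 47)])) (.mul (.g 4) (.mul (.g 4) (.pp [(1, 2139690000)])))))) (.add
 (.mul (.g 10) (.add (.mul (.g 9) (.mul (.g 15) (.pp [(1, 3824940000)]))) (.mul (.g 10) (.mul (.g
 10) (.pp [(1, 3938130000)]))))) (.mul (.g 13) (.mul (.pp [(1, 72240)]) (.sq [(1, 62), (2, -11),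
 (3, -71), (5, -33), (7, 100)])))))) (.add (.mul (.g 12) (.add (.pp [(1, 465624000000)]) (.add
 (.mul (.g 7) (.add (.pp [(1, 433389000000)]) (.mul (.g 7) (.pp [(1, 890670000000)])))) (.mul (.g
 9) (.mul (.g 9) (.add (.pp [(1, 21678000000)]) (.mul (.g 10) (.pp [(1, 46038000000)])))))))) (.mul
 (.g 0) (.pp [(1, 300000000)]))))) (.add (.add (.mul (.g 2) (.pp [(1, 1000000000000)])) (.add (.mul
 (.g 3) (.pp [(1, 1000000000000)])) (.mul (.g 7) (.mul (.g 11) (.mul (.pp [(1, 516000)]) (.sq [(1,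
 -51), (2, 100), (3, -15), (5, -15), (7, -46)])))))) (.add (.mul (.g 8) (.mul (.g 13) (.mul (.pp
 [(1, 7197900)]) (.sq [(1, -29), (2, -48), (3, -53), (5, 85), (7, 100)])))) (.add (.mul (.g 10)
 (.mul (.g 10) (.mul (.g 10) (.mul (.g 10) (.pp [(1, 884157000000)]))))) (.mul (.g 16) (.pp [(1,
 1000000000000)])))))) (.pp [(1, 1017002859), (2, 32978313), (3, 22010940), (4, 29298528), (5,
 25232328), (6, 29885052), (7, 23662200), (8, 27172852), (9, 36140460), (10, 29731668), (12,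
 33578640), (14, 23591640), (15, 35894088), (16, 30000000), (18, 24554808), (20, 34819368), (21,
 43855500), (24, 31759200), (25, 33958536), (27, 27103260), (28, 34181448), (30, 28168608), (35,
 39989676), (36, 29866800), (40, 30000000), (42, 30481224), (45, 29163972), (49, 35235552), (50,
 29053140), (54, 35195700), (56, 31628400), (60, 25891200), (63, 21603300), (70, 28111008), (75,
 23446212), (81, 30493500), (84, 25676400), (90, 26019600), (98, 32798076), (100, 29100000), (105,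
 18397176), (125, 28495308), (126, 34426800), (135, 29421600), (140, 29964000), (147, 19113000),
 (150, 34614000), (175, 26214528), (189, 30558000), (196, 28262400), (210, 28891800), (225,
 33053700), (245, 24150072), (250, 30000000), (294, 31025100), (315, 33641100), (343, 26050500),
 (350, 28678500), (375, 30561300), (441, 34407300), (490, 30042000), (525, 36369300), (625,
 30000000), (686, 29072100), (735, 33119700), (875, 31182000), (1029, 35967900), (1225, 31573500),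
 (1715, 31339500), (2401, 30000000)])))))))))
 (.split [(1, -7), (3, 50)]
 (.split [(2, 1), (3, -1)]
 (.split [(2, 1), (5, -1)]
 (.rule 0 (.rule 2 (.rule 7 (.leaf 7500000000 (.add (.add (.add (.add (.mul (.g 10) (.add (.add
 (.mul (.g 10) (.add (.add (.mul (.g 14) (.add (.pp [(1, 1695416250000)]) (.add (.mul (.g 17) (.pp
 [(1, 953092500000)])) (.mul (.g 18) (.pp [(1, 440681250000)]))))) (.mul (.g 3) (.mul (.g 7) (.pp
 [(1, 12361350000000)])))) (.add (.mul (.g 4) (.mul (.g 10) (.pp [(1, 13891275000000)]))) (.add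
 (.mul (.g 5) (.mul (.g 17) (.pp [(1, 171195000000)]))) (.mul (.g 6) (.pp [(1, 304931250000)]))))))
 (.add (.mul (.g 4) (.add (.mul (.g 11) (.add (.mul (.g 13) (.pp [(1, 25836975000000)])) (.add
 (.mul (.g 17) (.pp [(1, 31281750000000)])) (.mul (.g 18) (.pp [(1, 25692675000000)]))))) (.add
 (.mul (.g 7) (.mul (.g 7) (.pp [(1, 1692675000000)]))) (.mul (.g 17) (.pp [(1,
 15708000000000)]))))) (.mul (.g 3) (.add (.pp [(1, 12415050000000)]) (.add (.mul (.g 6) (.add (.pp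
 [(1, 409722750000)]) (.mul (.g 9) (.pp [(1, 60877500000)])))) (.mul (.g 13) (.mul (.g 18) (.pp
 [(1, 102375000000)])))))))) (.add (.mul (.g 14) (.add (.pp [(1, 880016250000)]) (.add (.mul (.g 5)
 (.mul (.g 11) (.pp [(1, 2636325000)]))) (.mul (.g 9) (.mul (.g 9) (.pp [(1, 22518750000)]))))))
 (.add (.mul (.g 18) (.add (.pp [(1, 4912950000000)]) (.add (.mul (.pp [(1, 481282500)]) (.sq [(1,
 5), (2, -29), (3, 100), (5, -46), (7, 65)])) (.mul (.g 15) (.mul (.g 18) (.pp [(1,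
 14441325000000)])))))) (.mul (.g 17) (.add (.pp [(1, 47042550000000)]) (.mul (.g 17) (.pp [(1,
 13404150000000)])))))))) (.add (.mul (.g 7) (.add (.add (.mul (.g 7) (.add (.add (.mul (.g 5)
 (.add (.mul (.g 6) (.pp [(1, 2058855000)])) (.mul (.g 11) (.pp [(1, 1500000)])))) (.mul (.g 7)
 (.add (.mul (.g 11) (.pp [(1, 11259225000000)])) (.mul (.g 14) (.pp [(1, 136563750000)]))))) (.add
 (.mul (.g 8) (.mul (.g 17) (.pp [(1, 2613825000000)]))) (.mul (.g 9) (.mul (.g 18) (.pp [(1,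
 29325000000)])))))) (.mul (.g 3) (.add (.mul (.g 8) (.pp [(1, 26470350000000)])) (.add (.mul (.g
 9) (.pp [(1, 10768500000000)])) (.mul (.g 13) (.pp [(1, 11215500000000)])))))) (.add (.mul (.g 11)
 (.add (.mul (.pp [(1, 350542500)]) (.sq [(1, -46), (2, 100), (3, 48), (5, 48), (7, -35)])) (.mul
 (.g 11) (.add (.mul (.g 11) (.pp [(1, 3952875000000)])) (.mul (.g 13) (.pp [(1,
 1503300000000)])))))) (.mul (.g 9) (.mul (.g 18) (.mul (.g 18) (.pp [(1, 326700000000)])))))))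
 (.mul (.g 9) (.add (.add (.mul (.g 8) (.add (.mul (.g 8) (.add (.mul (.g 3) (.pp [(1,
 598650000000)])) (.add (.mul (.g 14) (.pp [(1, 127162500000)])) (.mul (.g 18) (.pp [(1,
 1028025000000)]))))) (.mul (.g 5) (.mul (.g 14) (.pp [(1, 2471175000)]))))) (.mul (.g 17) (.add
 (.mul (.g 9) (.add (.mul (.g 5) (.pp [(1, 208102500000)])) (.mul (.g 12) (.pp [(1,
 580125000000)])))) (.mul (.g 18) (.add (.mul (.g 4) (.pp [(1, 1979700000000)])) (.mul (.g 17) (.pp
 [(1, 1989000000000)]))))))) (.add (.mul (.g 3) (.mul (.g 3) (.pp [(1, 25257675000000)]))) (.mul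
 (.g 9) (.mul (.g 9) (.mul (.g 18) (.pp [(1, 45750000000)]))))))))) (.add (.add (.mul (.g 14) (.add
 (.add (.pp [(1, 170433750000)]) (.add (.mul (.g 13) (.add (.mul (.pp [(1, 2625)]) (.sq [(1, -32),
 (2, -18), (3, 77), (5, 100), (7, 37)])) (.mul (.pp [(1, 2471250)]) (.sq [(1, 100), (2, -80), (3,
 30), (5, 30), (7, -39)])))) (.mul (.g 4) (.mul (.g 4) (.pp [(1, 648877500000)]))))) (.add (.mul
 (.g 6) (.pp [(1, 1597462500)])) (.add (.mul (.g 11) (.pp [(1, 1909436250000)])) (.mul (.g 18) (.pp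
 [(1, 461415000000)])))))) (.mul (.g 17) (.add (.mul (.g 17) (.add (.add (.mul (.pp [(1,
 1546725000)]) (.sq [(1, -100), (2, 57), (3, 17), (5, 50), (7, 85)])) (.mul (.pp [(1, 169470000)])
 (.sq [(1, -75), (2, -49), (3, 60), (5, -64), (7, 100)]))) (.add (.mul (.pp [(1, 138120000)]) (.sq
 [(1, 62), (2, 73), (3, -75), (5, -10), (7, 100)])) (.mul (.pp [(1, 824827500)]) (.sq [(1, -80),
 (2, -75), (3, -48), (5, 63), (7, 100)]))))) (.add (.mul (.g 4) (.pp [(1, 18539925000000)])) (.mul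
 (.g 5) (.mul (.g 8) (.mul (.g 8) (.pp [(1, 77356500000)])))))))) (.add (.mul (.g 8) (.add (.mul
 (.g 8) (.mul (.g 8) (.add (.mul (.g 11) (.pp [(1, 6101175000000)])) (.mul (.g 18) (.pp [(1,
 1394550000000)]))))) (.add (.mul (.g 3) (.pp [(1, 23442300000000)])) (.mul (.g 18) (.mul (.pp [(1,
 475470000)]) (.sq [(1, -2), (2, -11), (3, 27), (5, -40), (7, 100)])))))) (.mul (.g 3) (.add (.pp
 [(1, 7644900000000)]) (.mul (.g 11) (.pp [(1, 23085075000000)]))))))) (.add (.add (.mul (.g 5)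
 (.add (.mul (.g 4) (.mul (.g 4) (.pp [(1, 174916500000)]))) (.mul (.g 5) (.mul (.g 5) (.mul (.g 5)
 (.pp [(1, 14064)])))))) (.add (.mul (.g 0) (.pp [(1, 15000000000)])) (.mul (.g 1) (.pp [(1,
 25000000000000)])))) (.add (.add (.mul (.g 2) (.pp [(1, 25000000000000)])) (.mul (.g 6) (.mul (.g
 15) (.mul (.pp [(1, 8284650)]) (.sq [(1, -3), (2, -50), (5, -39), (7, 100)]))))) (.add (.mul (.g
 16) (.pp [(1, 25000000000000)])) (.mul (.g 18) (.mul (.g 18) (.pp [(1, 3014100000000)]))))))) (.pp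
 [(1, 601462647186), (2, 688383000), (3, 742915050), (4, 788131500), (5, 782483100), (6,
 899445000), (7, 658282500), (8, 635115500), (9, 750636000), (10, 751536000), (12, 866973000), (14,
 844224000), (15, 750099900), (16, 762990000), (18, 576313875), (20, 847984500), (21, 1133136000),
 (24, 767550000), (25, 805339650), (27, 833757625), (28, 837981000), (30, 677071500), (35,
 694198500), (36, 782415000), (40, 736020000), (42, 551171250), (45, 663452625), (49, 961470000),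
 (50, 746175000), (54, 734625000), (56, 710430000), (60, 755130000), (63, 407180250), (70,
 497686500), (75, 516302850), (81, 708142500), (84, 785370000), (90, 693660000), (98, 774938625),
 (100, 772410000), (105, 906260250), (125, 739375000), (126, 771570000), (135, 855405000), (140,
 810922500), (147, 253333875), (150, 644130000), (175, 687585000), (189, 802935000), (196,
 664102500), (210, 804120000), (225, 977295000), (245, 767008875), (250, 744000000), (294,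
 783645000), (315, 781350000), (343, 687187500), (350, 737640000), (375, 838500000), (441,
 953992500), (490, 811305000), (525, 825420000), (625, 742500000), (686, 776250000), (735,
 760725000), (875, 784770000), (1029, 817500000), (1225, 794385000), (1715, 735562500), (2401,
 736875000)]))))))
 (.rule 0 (.rule 3 (.rule 7 (.leaf 300000000 (.add (.add (.add (.add (.mul (.pp [(1, 1337400)])
 (.sq [(1, -6), (2, 100), (3, -99), (5, -7), (7, -16)])) (.add (.mul (.g 17) (.add (.add (.mul (.pp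
 [(1, 9418200)]) (.sq [(1, -26), (2, 60), (3, 91), (5, -65), (7, 100)])) (.add (.mul (.g 10) (.add
 (.add (.mul (.g 10) (.add (.add (.mul (.g 3) (.pp [(1, 32697000000)])) (.mul (.g 8) (.pp [(1,
 856650000000)]))) (.add (.mul (.g 9) (.pp [(1, 13755000000)])) (.add (.mul (.g 11) (.pp [(1,
 443880000000)])) (.mul (.g 17) (.pp [(1, 879693000000)])))))) (.mul (.g 4) (.add (.pp [(1,
 771144000000)]) (.add (.mul (.g 3) (.pp [(1, 1369896000000)])) (.mul (.g 17) (.pp [(1,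
 953805000000)])))))) (.add (.mul (.g 7) (.add (.mul (.g 8) (.pp [(1, 191409000000)])) (.add (.mul
 (.g 14) (.pp [(1, 43209450000)])) (.mul (.g 18) (.pp [(1, 1987950000000)]))))) (.mul (.g 5) (.mul
 (.g 15) (.pp [(1, 31942020000)])))))) (.mul (.g 18) (.add (.add (.mul (.pp [(1, 4642200)]) (.sq
 [(1, 36), (2, 2), (3, 34), (5, 7), (7, -100)])) (.mul (.g 9) (.add (.pp [(1, 11199000000)]) (.add
 (.mul (.g 7) (.pp [(1, 136818000000)])) (.mul (.g 9) (.pp [(1, 13557000000)])))))) (.add (.mul (.g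
 8) (.add (.mul (.g 8) (.pp [(1, 1087131000000)])) (.mul (.g 17) (.pp [(1, 145899000000)])))) (.mul
 (.g 17) (.pp [(1, 91824000000)]))))))) (.add (.add (.mul (.g 4) (.add (.add (.pp [(1,
 70194000000)]) (.mul (.g 7) (.add (.pp [(1, 361707000000)]) (.add (.mul (.g 8) (.pp [(1,
 609066000000)])) (.mul (.g 11) (.pp [(1, 10899000000)])))))) (.add (.mul (.g 4) (.mul (.g 13) (.pp
 [(1, 311469000000)]))) (.mul (.g 6) (.pp [(1, 6672510000)]))))) (.mul (.g 5) (.add (.mul (.pp [(1,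
 30258)]) (.sq [(1, -51), (2, 98), (3, 100), (5, -52)])) (.add (.mul (.g 5) (.mul (.g 5) (.pp [(1,
 275904)]))) (.mul (.g 6) (.mul (.g 6) (.pp [(1, 600018)]))))))) (.add (.mul (.g 7) (.mul (.g 7)
 (.mul (.g 12) (.pp [(1, 227952000000)])))) (.mul (.g 17) (.mul (.g 17) (.mul (.g 17) (.pp [(1,
 20277000000)])))))))) (.mul (.g 18) (.add (.add (.mul (.g 7) (.add (.add (.mul (.g 18) (.add (.add
 (.mul (.g 3) (.pp [(1, 4869000000)])) (.mul (.g 8) (.pp [(1, 409719000000)]))) (.add (.mul (.g 9)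
 (.pp [(1, 119703000000)])) (.mul (.g 18) (.pp [(1, 144078000000)]))))) (.mul (.g 5) (.add (.pp
 [(1, 14825940000)]) (.mul (.g 7) (.pp [(1, 21962460000)]))))) (.add (.mul (.g 7) (.mul (.g 7) (.pp
 [(1, 632085000000)]))) (.add (.mul (.g 8) (.mul (.g 12) (.pp [(1, 67527000000)]))) (.mul (.g 10)
 (.mul (.g 14) (.pp [(1, 7086900000)]))))))) (.add (.mul (.g 10) (.add (.add (.mul (.g 10) (.add
 (.mul (.g 3) (.pp [(1, 162177000000)])) (.add (.mul (.g 5) (.pp [(1, 22450560000)])) (.mul (.g 18)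
 (.pp [(1, 166386000000)]))))) (.mul (.g 4) (.add (.mul (.g 3) (.pp [(1, 458889000000)])) (.mul (.g
 18) (.pp [(1, 417681000000)]))))) (.add (.mul (.g 5) (.mul (.g 5) (.pp [(1, 785314800)]))) (.mul
 (.g 9) (.mul (.g 14) (.pp [(1, 850800000)])))))) (.mul (.g 9) (.add (.mul (.g 5) (.mul (.g 13)
 (.pp [(1, 1046280000)]))) (.add (.mul (.g 8) (.mul (.g 8) (.pp [(1, 236136000000)]))) (.mul (.g
 14) (.mul (.g 14) (.pp [(1, 3450000)])))))))) (.add (.mul (.g 3) (.mul (.g 5) (.mul (.g 11) (.pp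
 [(1, 2861940000)])))) (.add (.mul (.g 8) (.mul (.g 8) (.mul (.g 8) (.pp [(1, 573384000000)]))))
 (.mul (.g 14) (.pp [(1, 2810400000)])))))))) (.add (.mul (.g 4) (.add (.add (.mul (.g 4) (.mul (.g
 5) (.add (.pp [(1, 23962680000)]) (.mul (.g 8) (.pp [(1, 14167620000)]))))) (.mul (.g 11) (.mul
 (.pp [(1, 11132700)]) (.sq [(1, -24), (2, 100), (3, -26), (5, 28), (7, -77)])))) (.add (.mul (.g
 13) (.mul (.pp [(1, 44114100)]) (.sq [(1, -22), (2, 100), (3, 66), (5, -24), (7, -43)]))) (.mul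
 (.g 15) (.mul (.pp [(1, 14438700)]) (.sq [(1, 12), (2, -55), (3, -90), (5, -12), (7, 100)]))))))
 (.add (.mul (.g 7) (.add (.add (.mul (.g 3) (.mul (.pp [(1, 11871300)]) (.sq [(1, -37), (2, 100),
 (3, 66), (5, -51), (7, 21)]))) (.mul (.g 10) (.mul (.pp [(1, 732134400)]) (.sq [(1, -9), (2, 25),
 (3, -10), (5, -3), (7, 3)])))) (.add (.mul (.g 11) (.mul (.pp [(1, 8419500)]) (.sq [(1, -47), (2,
 100), (3, 56), (5, -11), (7, -39)]))) (.mul (.g 14) (.mul (.pp [(1, 750270)]) (.sq [(1, -31), (2,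
 100), (3, 10), (5, -24), (7, -31)])))))) (.mul (.g 9) (.add (.add (.mul (.g 3) (.mul (.pp [(1,
 24303000)]) (.sq [(1, -17), (2, 100), (3, -68), (5, -4), (7, -8)]))) (.mul (.g 5) (.mul (.pp [(1,
 90000)]) (.sq [(1, -31), (2, 100), (3, 16), (5, -20), (7, -38)])))) (.add (.mul (.g 14) (.mul (.pp
 [(1, 979305)]) (.sq [(1, -23), (2, 100), (3, -49), (5, -7), (7, -6)]))) (.mul (.g 15) (.mul (.pp
 [(1, 12839100)]) (.sq [(1, -8), (2, 100), (3, -82), (5, -3), (7, -26)]))))))))) (.add (.add (.mul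
 (.g 5) (.mul (.g 13) (.add (.mul (.pp [(1, 461142)]) (.sq [(1, -27), (2, 100), (3, 18), (5, -34),
 (7, -1)])) (.mul (.pp [(1, 316878)]) (.sq [(1, -26), (2, 100), (3, -3), (5, -26), (7, -36)])))))
 (.add (.mul (.g 0) (.pp [(1, 600000000)])) (.mul (.g 1) (.pp [(1, 1000000000000)])))) (.add (.mul
 (.g 2) (.pp [(1, 1000000000000)])) (.add (.mul (.g 6) (.mul (.g 10) (.mul (.pp [(1, 56430)]) (.sq
 [(1, 17), (2, 8), (3, 100), (5, -9), (7, -73)])))) (.mul (.g 16) (.pp [(1, 1000000000000)]))))))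
 (.pp [(1, 903801564), (2, 30911832), (3, 25717758), (4, 30795024), (5, 30586851), (6, 29292468),
 (7, 26795406), (8, 31432500), (9, 37458108), (10, 28761912), (12, 21353076), (14, 27704208), (15,
 29174790), (16, 30000000), (18, 35530830), (20, 29474400), (21, 45191388), (24, 34507500), (25,
 33192390), (27, 26664370), (28, 32355096), (30, 30899832), (35, 28314204), (36, 34373700), (40,
 27360000), (42, 32887848), (45, 29559435), (49, 34014540), (50, 32804220), (54, 23891100), (56,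
 29040000), (60, 28767600), (63, 14912952), (70, 30116568), (75, 24859926), (81, 31454100), (84,
 30842400), (90, 29866500), (98, 29836380), (100, 32799600), (105, 35664516), (125, 25924965),
 (126, 23047200), (135, 29444400), (140, 29692800), (147, 14799510), (150, 29173800), (175,
 28051590), (189, 33741600), (196, 29081400), (210, 29620800), (225, 31506900), (245, 32686050),
 (250, 27423600), (294, 27882000), (315, 30172800), (343, 28632570), (350, 30340200), (375,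
 33706200), (441, 39419400), (490, 31387200), (525, 28572600), (625, 31433100), (686, 28790400),
 (735, 29213400), (875, 30907800), (1029, 32547000), (1225, 29588400), (1715, 30000000), (2401,
 30000000)])))))))
 (.split [(2, 1), (5, -1)]
 (.rule 1 (.rule 2 (.rule 7 (.leaf 600000000 (.add (.add (.add (.add (.mul (.g 10) (.add (.add
 (.mul (.g 10) (.add (.add (.add (.mul (.g 8) (.add (.mul (.g 7) (.pp [(1, 993366000000)])) (.add
 (.mul (.g 14) (.pp [(1, 83019600000)])) (.mul (.g 17) (.pp [(1, 854664000000)]))))) (.mul (.g 3)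
 (.add (.mul (.g 7) (.pp [(1, 416220000000)])) (.mul (.g 10) (.pp [(1, 323058000000)]))))) (.add
 (.mul (.g 11) (.add (.mul (.g 11) (.pp [(1, 139344000000)])) (.mul (.g 17) (.pp [(1,
 2742114000000)])))) (.mul (.g 12) (.add (.mul (.g 5) (.pp [(1, 23818920000)])) (.mul (.g 14) (.pp
 [(1, 157884000000)])))))) (.add (.add (.mul (.g 4) (.mul (.g 4) (.pp [(1, 186960000000)]))) (.mul
 (.g 10) (.mul (.g 10) (.pp [(1, 1456308000000)])))) (.add (.mul (.g 13) (.mul (.g 14) (.pp [(1,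
 158350500000)]))) (.mul (.g 17) (.pp [(1, 1309038000000)])))))) (.add (.mul (.g 7) (.add (.add
 (.mul (.g 17) (.add (.pp [(1, 198210000000)]) (.add (.mul (.g 8) (.pp [(1, 2897796000000)])) (.mul
 (.g 11) (.pp [(1, 3232416000000)]))))) (.mul (.g 3) (.mul (.g 7) (.pp [(1, 81834000000)])))) (.add
 (.mul (.g 4) (.mul (.g 8) (.pp [(1, 2986878000000)]))) (.mul (.g 11) (.mul (.g 11) (.pp [(1,
 2367834000000)])))))) (.mul (.g 18) (.add (.mul (.g 4) (.add (.mul (.g 3) (.pp [(1,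
 484728000000)])) (.mul (.g 9) (.pp [(1, 480834000000)])))) (.add (.mul (.g 6) (.mul (.g 18) (.pp
 [(1, 3777120000)]))) (.mul (.g 8) (.mul (.g 14) (.pp [(1, 13677600000)])))))))) (.add (.mul (.g 9)
 (.add (.mul (.g 5) (.mul (.g 9) (.pp [(1, 24098520000)]))) (.mul (.g 17) (.pp [(1,
 2554446000000)])))) (.add (.mul (.g 14) (.add (.pp [(1, 6709200000)]) (.mul (.pp [(1, 1708080)])
 (.sq [(1, 6), (2, -9), (3, 54), (5, 100), (7, -84)])))) (.mul (.g 3) (.pp [(1,
 1327164000000)])))))) (.add (.mul (.g 14) (.add (.add (.add (.mul (.g 4) (.add (.pp [(1,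
 123661800000)]) (.add (.mul (.pp [(1, 708330)]) (.sq [(1, 27), (2, -27), (3, 20), (5, -40), (7,
 100)])) (.mul (.pp [(1, 280260)]) (.sq [(1, 74), (2, -6), (3, 100), (5, 57), (7, -6)]))))) (.mul
 (.g 9) (.add (.mul (.g 9) (.mul (.g 9) (.pp [(1, 360900000)]))) (.mul (.g 11) (.pp [(1,
 53805300000)]))))) (.add (.mul (.g 18) (.add (.pp [(1, 22457100000)]) (.mul (.g 7) (.pp [(1,
 40892700000)])))) (.mul (.g 5) (.mul (.pp [(1, 19641)]) (.sq [(1, 37), (2, 35), (3, -66), (5,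
 100), (7, 54)]))))) (.add (.add (.mul (.g 6) (.pp [(1, 501015000)])) (.mul (.g 12) (.mul (.pp [(1,
 383610)]) (.sq [(1, -74), (2, -75), (3, -12), (5, 100), (7, 7)])))) (.add (.mul (.g 13) (.mul (.pp
 [(1, 626250)]) (.sq [(1, -100), (2, 74), (3, 9), (5, -53), (7, 73)]))) (.mul (.g 17) (.mul (.pp
 [(1, 96780)]) (.sq [(1, 76), (2, 100), (3, 30), (5, -7), (7, 98)]))))))) (.mul (.g 17) (.add (.add
 (.mul (.g 8) (.add (.mul (.g 8) (.pp [(1, 261306000000)])) (.add (.mul (.g 9) (.mul (.g 9) (.pp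
 [(1, 555768000000)]))) (.mul (.g 11) (.mul (.g 11) (.pp [(1, 95772000000)])))))) (.mul (.g 17)
 (.add (.pp [(1, 649290000000)]) (.add (.mul (.pp [(1, 9636000)]) (.sq [(1, 30), (2, 65), (3, -55),
 (5, 100), (7, 52)])) (.mul (.pp [(1, 31757400)]) (.sq [(2, -1), (7, 100)])))))) (.add (.mul (.g 9)
 (.add (.pp [(1, 578964000000)]) (.mul (.g 9) (.pp [(1, 148728000000)])))) (.add (.mul (.g 3) (.mul
 (.pp [(1, 1018800)]) (.sq [(1, -24), (2, 93), (3, 100), (5, 5), (7, -18)]))) (.mul (.g 7) (.mul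
 (.pp [(1, 13449000)]) (.sq [(1, -16), (2, 86), (3, 100), (5, 2), (7, -45)]))))))))) (.add (.mul
 (.g 4) (.add (.add (.mul (.g 7) (.add (.pp [(1, 388650000000)]) (.add (.mul (.g 11) (.mul (.g 11)
 (.pp [(1, 997722000000)]))) (.mul (.g 18) (.mul (.g 18) (.pp [(1, 27306000000)])))))) (.mul (.g 4)
 (.add (.mul (.pp [(1, 10887600)]) (.sq [(1, 78), (2, 11), (3, 100), (5, 74), (7, -8)])) (.mul (.g
 8) (.pp [(1, 23712000000)]))))) (.add (.mul (.g 5) (.mul (.g 5) (.mul (.g 6) (.pp [(1,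
 1134120)])))) (.mul (.g 9) (.mul (.g 9) (.mul (.g 9) (.pp [(1, 73158000000)]))))))) (.add (.mul
 (.g 3) (.add (.add (.pp [(1, 1459212000000)]) (.mul (.g 9) (.add (.pp [(1, 783180000000)]) (.add
 (.mul (.g 3) (.mul (.g 15) (.pp [(1, 31656000000)]))) (.mul (.g 12) (.pp [(1, 151824000000)]))))))
 (.add (.mul (.g 3) (.mul (.g 13) (.pp [(1, 905988000000)]))) (.mul (.g 8) (.pp [(1,
 2244744000000)]))))) (.mul (.g 7) (.add (.mul (.g 5) (.add (.mul (.g 5) (.pp [(1, 124672800)]))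
 (.mul (.g 8) (.mul (.g 8) (.pp [(1, 9047400000)]))))) (.mul (.g 7) (.mul (.g 7) (.add (.mul (.g
 11) (.pp [(1, 850416000000)])) (.mul (.g 15) (.pp [(1, 815040000000)])))))))))) (.add (.add (.mul
 (.g 9) (.add (.mul (.g 5) (.mul (.g 18) (.mul (.g 18) (.pp [(1, 13535640000)])))) (.mul (.g 6)
 (.mul (.g 9) (.mul (.g 9) (.pp [(1, 11224680000)])))))) (.add (.mul (.g 0) (.pp [(1,
 1200000000)])) (.mul (.g 1) (.pp [(1, 2000000000000)])))) (.add (.mul (.g 2) (.pp [(1,
 2000000000000)])) (.add (.mul (.g 16) (.pp [(1, 2000000000000)])) (.mul (.g 18) (.mul (.g 18)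
 (.mul (.pp [(1, 40743000)]) (.sq [(1, -5), (2, 9), (3, 100), (5, 29), (7, -99)])))))))) (.pp [(1,
 35506109433), (2, 60557760), (3, 63571812), (4, 61871655), (5, 59843340), (6, 47490180), (7,
 62188212), (8, 49900980), (9, 58092012), (10, 69278160), (12, 84220470), (14, 63327240), (15,
 67357920), (16, 60586800), (18, 47783670), (20, 79116810), (21, 55409304), (24, 57564600), (25,
 48083580), (27, 67025730), (28, 64869540), (30, 35329140), (35, 59160120), (36, 59380200), (40,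
 62976600), (42, 58453440), (45, 61560630), (49, 62616582), (50, 33639690), (54, 53420400), (56,
 59868000), (60, 62671200), (63, 55666020), (70, 62709360), (75, 75723630), (81, 62575800), (84,
 48492000), (90, 47684400), (98, 64047120), (100, 55663800), (105, 59314080), (125, 71647850),
 (126, 68437200), (135, 70365600), (140, 49168800), (147, 50299200), (150, 61393200), (175,
 61995120), (189, 62530800), (196, 60138600), (210, 70183200), (225, 61906800), (245, 59133720),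
 (250, 70558800), (294, 61749000), (315, 65281200), (343, 51804240), (350, 70276800), (375,
 52239600), (441, 62524800), (490, 52284000), (525, 49190400), (625, 56412000), (686, 59183400),
 (735, 62373600), (875, 59210400), (1029, 67684800), (1225, 60690600), (1715, 58761600), (2401,
 62256000)]))))))
 (.rule 1 (.rule 3 (.rule 7 (.leaf 7500000000 (.add (.add (.add (.add (.mul (.g 7) (.add (.add
 (.add (.mul (.pp [(1, 200227500)]) (.sq [(1, -37), (2, 75), (3, 100), (5, -61), (7, -38)])) (.mul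
 (.g 10) (.add (.add (.mul (.g 4) (.add (.add (.mul (.g 8) (.pp [(1, 36013500000000)])) (.mul (.g
 11) (.pp [(1, 27365325000000)]))) (.add (.mul (.g 15) (.pp [(1, 23489700000000)])) (.mul (.g 18)
 (.pp [(1, 1520025000000)]))))) (.mul (.g 17) (.add (.pp [(1, 14368950000000)]) (.add (.mul (.g 11)
 (.pp [(1, 33455550000000)])) (.mul (.g 17) (.pp [(1, 1202850000000)])))))) (.add (.mul (.g 18)
 (.add (.mul (.g 3) (.pp [(1, 32100000000)])) (.add (.mul (.g 5) (.pp [(1, 74373000000)])) (.mul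
 (.g 8) (.pp [(1, 4019025000000)]))))) (.mul (.g 5) (.mul (.g 5) (.pp [(1, 130530000)]))))))) (.add
 (.mul (.g 4) (.add (.add (.mul (.g 4) (.add (.mul (.g 3) (.pp [(1, 8882400000000)])) (.mul (.g 11)
 (.pp [(1, 6058950000000)])))) (.mul (.g 5) (.mul (.g 5) (.pp [(1, 12770580000)])))) (.add (.mul
 (.g 6) (.mul (.g 11) (.pp [(1, 57165000000)]))) (.add (.mul (.g 7) (.mul (.g 7) (.pp [(1,
 5734125000000)]))) (.mul (.g 18) (.pp [(1, 26256975000000)])))))) (.mul (.g 12) (.add (.mul (.g 9)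
 (.add (.add (.pp [(1, 8265675000000)]) (.mul (.g 6) (.pp [(1, 12079500000)]))) (.add (.mul (.g 9)
 (.pp [(1, 1280100000000)])) (.mul (.g 11) (.pp [(1, 3014250000000)]))))) (.add (.mul (.g 7) (.pp
 [(1, 32238750000000)])) (.mul (.g 8) (.mul (.g 18) (.pp [(1, 2540475000000)])))))))) (.add (.add
 (.mul (.g 18) (.add (.mul (.g 7) (.add (.mul (.g 5) (.pp [(1, 53809500000)])) (.mul (.g 7) (.pp
 [(1, 10924275000000)])))) (.mul (.g 18) (.pp [(1, 9554400000000)])))) (.mul (.g 6) (.mul (.g 6)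
 (.mul (.g 6) (.pp [(1, 20295450)]))))) (.add (.mul (.g 13) (.mul (.pp [(1, 217200000)]) (.sq [(1,
 -18), (2, 95), (3, 100), (5, -75), (7, -10)]))) (.mul (.g 17) (.mul (.pp [(1, 312030000)]) (.sq
 [(1, -18), (2, 61), (3, 100), (5, -56)]))))))) (.add (.mul (.g 17) (.add (.add (.add (.mul (.pp
 [(1, 34320000)]) (.sq [(1, -10), (2, -12), (3, 100), (5, -33), (7, 55)])) (.mul (.pp [(1,
 186990000)]) (.sq [(1, -30), (2, 27), (3, 73), (5, -21), (7, 100)]))) (.add (.mul (.g 17) (.add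
 (.add (.mul (.pp [(1, 930795000)]) (.sq [(1, 1), (2, 51), (3, -55), (5, -2), (7, 100)])) (.mul
 (.pp [(1, 739020000)]) (.sq [(1, -27), (2, 8), (3, -8), (5, 12), (7, 100)]))) (.add (.mul (.pp
 [(1, 233490000)]) (.sq [(1, -7), (2, -55), (3, 100), (5, -21), (7, -16)])) (.mul (.pp [(1,
 476107500)]) (.sq [(1, -10), (2, 25), (3, 26), (5, -18), (7, 100)]))))) (.add (.mul (.g 5) (.add
 (.mul (.g 10) (.add (.mul (.g 9) (.pp [(1, 20247000000)])) (.mul (.g 10) (.pp [(1,
 281688000000)])))) (.mul (.g 4) (.mul (.g 5) (.pp [(1, 2279130000)]))))) (.mul (.g 18) (.add (.mul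
 (.pp [(1, 161167500)]) (.sq [(1, -29), (2, -6), (3, -30), (5, 2), (7, 100)])) (.add (.mul (.pp
 [(1, 532965000)]) (.sq [(1, -37), (2, 38), (3, 46), (5, 14), (7, 100)])) (.mul (.g 14) (.mul (.g
 18) (.pp [(1, 24787500000)]))))))))) (.add (.add (.mul (.g 11) (.add (.mul (.pp [(1, 118897500)])
 (.sq [(1, -21), (2, -86), (3, 100), (5, 16), (7, -70)])) (.mul (.pp [(1, 289912500)]) (.sq [(1,
 -9), (2, 29), (3, -72), (5, 5), (7, 100)])))) (.add (.mul (.g 4) (.mul (.pp [(1, 1075117500)])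
 (.sq [(1, -31), (2, -9), (3, -5), (5, 12), (7, 100)]))) (.mul (.g 9) (.mul (.pp [(1, 35865000)])
 (.sq [(1, -4), (2, -27), (3, 100), (5, -34), (7, 24)]))))) (.add (.mul (.g 12) (.mul (.pp [(1,
 101955000)]) (.sq [(1, 9), (2, -1), (3, 45), (5, -97), (7, 100)]))) (.add (.mul (.g 13) (.mul (.pp
 [(1, 807135000)]) (.sq [(1, -17), (2, 54), (3, -20), (5, -2), (7, 100)]))) (.mul (.g 14) (.mul
 (.pp [(1, 1885875)]) (.sq [(1, -90), (2, 36), (3, -47), (5, 100), (7, 77)])))))))) (.mul (.g 5)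
 (.add (.mul (.g 4) (.add (.mul (.g 4) (.add (.mul (.g 9) (.pp [(1, 63786000000)])) (.add (.mul (.g
 11) (.pp [(1, 330277500000)])) (.mul (.g 15) (.pp [(1, 10116000000)]))))) (.add (.mul (.g 3) (.mul
 (.g 11) (.pp [(1, 273444000000)]))) (.mul (.g 10) (.mul (.g 10) (.pp [(1, 367449000000)]))))))
 (.add (.mul (.g 5) (.add (.mul (.pp [(1, 36393)]) (.sq [(1, -48), (2, 95), (3, 100), (5, -55), (7,
 -47)])) (.add (.mul (.g 12) (.add (.pp [(1, 937080000)]) (.mul (.g 9) (.pp [(1, 427680000)]))))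
 (.mul (.g 18) (.pp [(1, 7733400000)]))))) (.mul (.g 10) (.mul (.g 10) (.mul (.g 18) (.pp [(1,
 93000000)]))))))))) (.add (.mul (.g 18) (.add (.mul (.g 18) (.add (.mul (.pp [(1, 17392500)]) (.sq
 [(1, 8), (2, 11), (3, 100), (5, -17), (7, -69)])) (.add (.mul (.pp [(1, 10342500)]) (.sq [(1,
 -16), (2, -15), (3, 35), (5, -61), (7, 100)])) (.mul (.g 14) (.mul (.g 18) (.pp [(1,
 2212500000)])))))) (.mul (.g 11) (.mul (.pp [(1, 18405000)]) (.sq [(1, -27), (2, -1), (3, 26), (5,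
 7), (7, 100)]))))) (.add (.mul (.g 9) (.add (.mul (.pp [(1, 334942500)]) (.sq [(1, -22), (2, -74),
 (3, 100), (5, 7), (7, -15)])) (.mul (.pp [(1, 37845000)]) (.sq [(1, -5), (2, -51), (3, 100), (5,
 -25), (7, 29)])))) (.mul (.g 10) (.add (.mul (.g 10) (.mul (.pp [(1, 98025000)]) (.sq [(1, -52),
 (2, -13), (3, -63), (5, 26), (7, 100)]))) (.mul (.g 12) (.mul (.g 14) (.mul (.g 14) (.pp [(1,
 155437500)]))))))))) (.add (.add (.mul (.g 0) (.pp [(1, 15000000000)])) (.add (.mul (.g 1) (.pp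
 [(1, 25000000000000)])) (.mul (.g 2) (.pp [(1, 25000000000000)])))) (.add (.add (.mul (.g 4) (.mul
 (.g 11) (.mul (.pp [(1, 704985000)]) (.sq [(1, -15), (3, 6), (5, -5), (7, 100)])))) (.mul (.g 12)
 (.mul (.g 12) (.mul (.g 14) (.pp [(1, 1286250000)]))))) (.add (.mul (.g 15) (.mul (.pp [(1,
 320242500)]) (.sq [(1, -25), (2, -49), (3, 100), (5, -1), (7, 30)]))) (.mul (.g 16) (.pp [(1,
 25000000000000)])))))) (.pp [(1, 13467633372), (2, 707339790), (3, 784970100), (4, 649839075), (5,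
 785895540), (6, 769153500), (7, 756619416), (8, 818012500), (9, 684513375), (10, 963220650), (12,
 1002879000), (14, 661439010), (15, 676132500), (16, 705000000), (18, 700584000), (20, 781050000),
 (21, 725577750), (24, 731205000), (25, 678667575), (27, 870199125), (28, 696886500), (30,
 536130000), (35, 812771310), (36, 742762500), (40, 776595000), (42, 816732000), (45, 798577500),
 (49, 709311162), (50, 637410000), (54, 683205000), (56, 731205000), (60, 755985000), (63,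
 781533375), (70, 821670000), (75, 787687500), (81, 690195000), (84, 756052500), (90, 787665000),
 (98, 908578500), (100, 701490000), (105, 716532000), (125, 799912500), (126, 735915000), (135,
 756802500), (140, 795825000), (147, 799151775), (150, 697942500), (175, 704602500), (189,
 759105000), (196, 722542500), (210, 824790000), (225, 781890000), (245, 687015000), (250,
 776175000), (294, 653287500), (315, 657292500), (343, 786694125), (350, 688927500), (375,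
 760050000), (441, 731460000), (490, 774270000), (525, 794355000), (625, 739125000), (686,
 669292500), (735, 754432500), (875, 763770000), (1029, 706177500), (1225, 756247500), (1715,
 782017500), (2401, 751560000)]))))))))
 (.rule 5 (.cut 450 [(2, -1), (5, 1)] (.add (.mul (.g 9) (.pp [(1, 310)])) (.add (.mul (.g 10) (.pp
 [(1, 7)])) (.mul (.g 1) (.pp [(1, 9)])))) (.rule 3 (.leaf 75000000 (.add (.add (.add (.add (.mul
 (.pp [(1, 1427550)]) (.sq [(1, -25), (2, -51), (3, 100), (5, 2), (7, 47)])) (.mul (.g 5) (.add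
 (.add (.mul (.pp [(1, 2445000)]) (.sq [(1, -27), (2, 50), (3, -20), (5, 15), (7, -11)])) (.add
 (.mul (.g 15) (.add (.add (.mul (.g 5) (.add (.add (.pp [(1, 134540250000)]) (.mul (.g 6) (.pp
 [(1, 223839750000)]))) (.add (.mul (.g 9) (.pp [(1, 4770750000)])) (.mul (.g 16) (.pp [(1,
 67640250000)]))))) (.mul (.g 8) (.add (.add (.mul (.g 6) (.pp [(1, 643871250000)])) (.mul (.g 7)
 (.pp [(1, 29922000000)]))) (.add (.mul (.g 9) (.pp [(1, 590160750000)])) (.mul (.g 15) (.pp [(1,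
 258003000000)])))))) (.add (.mul (.g 3) (.add (.pp [(1, 6556620000)]) (.add (.mul (.g 6) (.pp [(1,
 7605990000)])) (.mul (.g 7) (.pp [(1, 3267690000)]))))) (.add (.mul (.g 15) (.add (.mul (.g 13)
 (.pp [(1, 23910000000)])) (.mul (.g 16) (.pp [(1, 33978000000)])))) (.mul (.g 7) (.mul (.g 7) (.pp
 [(1, 3264000000)]))))))) (.mul (.g 16) (.add (.add (.mul (.g 9) (.add (.add (.mul (.g 6) (.pp [(1,
 77595750000)])) (.mul (.g 9) (.pp [(1, 12879750000)]))) (.add (.mul (.g 12) (.pp [(1,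
 6325500000)])) (.mul (.g 16) (.pp [(1, 58295250000)]))))) (.mul (.g 16) (.add (.mul (.g 7) (.pp
 [(1, 50777250000)])) (.add (.mul (.g 8) (.pp [(1, 202450500000)])) (.mul (.g 16) (.pp [(1,
 55479000000)])))))) (.add (.mul (.g 5) (.add (.mul (.g 5) (.pp [(1, 122778000000)])) (.mul (.g 6)
 (.pp [(1, 421540500000)])))) (.mul (.g 8) (.mul (.g 12) (.pp [(1, 14613825000)])))))))) (.add
 (.add (.mul (.g 3) (.add (.add (.mul (.g 12) (.add (.pp [(1, 117548250)]) (.add (.mul (.g 9) (.pp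
 [(1, 286056750)])) (.mul (.g 11) (.pp [(1, 19137750)]))))) (.mul (.g 6) (.add (.mul (.g 6) (.pp
 [(1, 6765345000)])) (.mul (.g 7) (.pp [(1, 2570475000)]))))) (.add (.mul (.g 3) (.pp [(1,
 40331400)])) (.mul (.g 5) (.mul (.g 5) (.pp [(1, 403275000)])))))) (.mul (.g 8) (.mul (.g 12)
 (.mul (.g 12) (.pp [(1, 151921875)]))))) (.add (.mul (.g 9) (.mul (.pp [(1, 1803675)]) (.sq [(1,
 -9), (2, 100), (3, -34), (5, 24), (7, -69)]))) (.mul (.g 11) (.mul (.pp [(1, 20832075)]) (.sq [(1,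
 3), (2, 100), (3, -24), (5, -15), (7, -51)])))))))) (.add (.mul (.g 15) (.add (.add (.add (.mul
 (.pp [(1, 408000)]) (.sq [(1, -31), (2, 2), (3, 86), (5, -11), (7, 100)])) (.mul (.g 3) (.add
 (.add (.pp [(1, 2280000)]) (.mul (.g 6) (.add (.mul (.g 3) (.pp [(1, 10511700)])) (.mul (.g 8)
 (.pp [(1, 6213165000)]))))) (.add (.mul (.g 15) (.add (.mul (.g 7) (.pp [(1, 63375000)])) (.mul
 (.g 16) (.pp [(1, 88380000)])))) (.mul (.g 16) (.mul (.g 16) (.pp [(1, 113760000)]))))))) (.add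
 (.mul (.g 15) (.add (.mul (.pp [(1, 11735700)]) (.sq [(1, -20), (2, 34), (3, -21), (5, 13), (7,
 50)])) (.add (.mul (.pp [(1, 31474500)]) (.sq [(1, -8), (3, -7), (5, 2), (7, 50)])) (.mul (.pp
 [(1, 11696700)]) (.sq [(1, -16), (2, 1), (3, -42), (5, -9), (7, 100)]))))) (.mul (.g 6) (.add
 (.mul (.pp [(1, 7856850)]) (.sq [(1, -30), (3, -5), (5, 23), (7, 100)])) (.mul (.g 8) (.mul (.g 8)
 (.pp [(1, 206053500000)]))))))) (.add (.add (.mul (.g 9) (.add (.mul (.pp [(1, 547950)]) (.sq [(1,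
 -3), (3, 29), (5, -26), (7, 100)])) (.mul (.pp [(1, 3307800)]) (.sq [(1, -15), (3, -11), (5, 2),
 (7, 100)])))) (.mul (.g 10) (.add (.mul (.pp [(1, 334650)]) (.sq [(1, -29), (3, -13), (5, 100),
 (7, -85)])) (.mul (.g 12) (.pp [(1, 103387500)]))))) (.add (.mul (.g 11) (.mul (.pp [(1,
 2285925)]) (.sq [(1, -5), (3, -51), (5, -9), (7, 100)]))) (.mul (.g 16) (.mul (.pp [(1, 1993650)])
 (.sq [(1, -21), (3, 54), (5, -5), (7, 100)]))))))) (.mul (.g 16) (.add (.add (.mul (.g 6) (.add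
 (.mul (.g 8) (.add (.mul (.g 6) (.pp [(1, 56502000000)])) (.add (.mul (.g 8) (.pp [(1,
 11676000000)])) (.mul (.g 12) (.pp [(1, 131062500)]))))) (.mul (.g 3) (.add (.mul (.g 4) (.pp [(1,
 744000)])) (.mul (.g 6) (.pp [(1, 7425000)])))))) (.mul (.g 12) (.add (.mul (.g 16) (.add (.mul
 (.g 3) (.pp [(1, 1159500)])) (.mul (.g 16) (.pp [(1, 132300000)])))) (.add (.mul (.g 8) (.mul (.g
 8) (.pp [(1, 23887500)]))) (.mul (.g 10) (.pp [(1, 7087500)])))))) (.add (.mul (.g 3) (.mul (.g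
 16) (.mul (.g 16) (.pp [(1, 45495000)])))) (.mul (.g 10) (.mul (.pp [(1, 263850)]) (.sq [(1, -12),
 (3, -82), (5, 100), (7, -61)])))))))) (.add (.add (.mul (.g 3) (.add (.mul (.g 3) (.add (.mul (.g
 3) (.mul (.g 8) (.pp [(1, 2109786)]))) (.mul (.g 6) (.mul (.g 6) (.pp [(1, 2002800)]))))) (.mul
 (.g 9) (.mul (.g 10) (.pp [(1, 3465000)]))))) (.mul (.g 6) (.add (.mul (.pp [(1, 7395600)]) (.sq
 [(1, -24), (2, -99), (3, 12), (5, 10), (7, 100)])) (.mul (.g 6) (.mul (.g 8) (.mul (.g 12) (.pp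
 [(1, 2186887500)]))))))) (.add (.mul (.g 0) (.pp [(1, 250000000000)])) (.add (.mul (.g 2) (.pp
 [(1, 250000000000)])) (.mul (.g 14) (.pp [(1, 250000000000)])))))) (.pp [(1, 74232300), (2,
 7724250), (3, 6733575), (4, 9047400), (5, 6845175), (6, 6597900), (7, 7558752), (8, 6225000), (9,
 8038425), (10, 6648525), (12, 8253500), (14, 6491250), (15, 9317625), (16, 7500000), (18,
 7053275), (19, 750000000000), (20, 6055650), (21, 6866175), (24, 7800000), (25, 8391000), (27,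
 7701525), (28, 7603200), (30, 8121750), (35, 7636125), (36, 7617600), (40, 8415000), (42,
 7463100), (45, 6876375), (49, 7578750), (50, 9205275), (54, 7122375), (56, 7620000), (60,
 7931400), (63, 8331450), (70, 7896900), (75, 5503875), (81, 7133325), (84, 7095900), (90,
 7972650), (98, 7882125), (100, 7608675), (105, 8565000), (125, 7106325), (126, 7171875), (135,
 7790925), (140, 7218150), (147, 7913550), (150, 6493800), (175, 7038000), (189, 7248825), (196,
 7607850), (210, 8292300), (225, 7922325), (245, 7624350), (250, 7033125), (294, 6843075), (315,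
 6349425), (343, 7286250), (350, 6899925), (375, 8208675), (441, 7919250), (490, 7825575), (525,
 7445325), (625, 7500000), (686, 7376250), (735, 6854400), (875, 7788675), (1029, 7803750), (1225,
 7335150), (1715, 7653750), (2401, 7500000)]))))))))
 (P_Op0 ++ xP_G_F7) = true := by decide +kernel

theorem t_G_T4a_free : chk RFp gP_G_T4a
 (.split [(2, 1), (3, -1)]
 (.split [(2, 1), (5, -1)]
 (.rule 0 (.rule 2 (.leaf 60000000 (.add (.add (.add (.add (.mul (.g 11) (.add (.add (.mul (.pp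
 [(1, 31002)]) (.sq [(1, -82), (2, 68), (3, 41), (5, 100)])) (.mul (.g 4) (.add (.add (.mul (.pp
 [(1, 13506)]) (.sq [(1, -32), (2, 95), (3, 45), (5, 100)])) (.mul (.pp [(1, 414525)]) (.sq [(1,
 -20), (2, 16), (3, 18), (5, 11)]))) (.add (.mul (.g 2) (.mul (.g 6) (.pp [(1, 7388160000)])))
 (.add (.mul (.g 3) (.mul (.g 5) (.pp [(1, 2276610000)]))) (.mul (.g 4) (.mul (.g 10) (.pp [(1,
 1332720000)])))))))) (.add (.mul (.g 5) (.add (.mul (.pp [(1, 36657)]) (.sq [(1, -86), (2, 73),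
 (3, 100), (5, 42)])) (.add (.mul (.g 5) (.add (.mul (.g 3) (.pp [(1, 4993470000)])) (.mul (.g 6)
 (.pp [(1, 7383810000)])))) (.mul (.g 6) (.mul (.g 6) (.pp [(1, 3949440000)])))))) (.add (.mul (.g
 6) (.add (.mul (.pp [(1, 109905)]) (.sq [(1, -100), (2, 80), (3, 69), (5, 84)])) (.mul (.g 2)
 (.mul (.g 6) (.pp [(1, 1069260000)]))))) (.mul (.g 3) (.mul (.g 10) (.pp [(1, 2749800000)])))))))
 (.mul (.g 8) (.add (.add (.mul (.g 2) (.add (.mul (.g 2) (.add (.mul (.g 4) (.pp [(1,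
 4985400000)])) (.add (.mul (.g 6) (.pp [(1, 58011600000)])) (.mul (.g 14) (.pp [(1,
 8691000000)]))))) (.mul (.g 3) (.add (.mul (.g 4) (.pp [(1, 39393000000)])) (.mul (.g 6) (.pp [(1,
 83776200000)])))))) (.mul (.g 8) (.add (.mul (.pp [(1, 1143240)]) (.sq [(1, -1), (2, 8), (3, 100),
 (5, -87)])) (.add (.mul (.g 3) (.mul (.g 3) (.pp [(1, 13167000000)]))) (.mul (.g 8) (.mul (.g 10)
 (.pp [(1, 2600400000)]))))))) (.add (.mul (.g 5) (.add (.mul (.pp [(1, 2075760)]) (.sq [(1, -50),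
 (2, 42), (3, 31), (5, 24)])) (.mul (.g 3) (.mul (.g 3) (.pp [(1, 7100400000)]))))) (.mul (.g 10)
 (.mul (.g 10) (.mul (.g 10) (.pp [(1, 50245200000)])))))))) (.add (.mul (.g 3) (.add (.mul (.g 3)
 (.add (.mul (.g 13) (.add (.mul (.g 5) (.pp [(1, 39025200000)])) (.mul (.g 10) (.pp [(1,
 47698800000)])))) (.mul (.g 6) (.mul (.g 14) (.pp [(1, 14512200000)]))))) (.mul (.g 2) (.mul (.pp
 [(1, 1175160)]) (.sq [(1, 3), (2, 18), (3, -82), (5, 100)]))))) (.add (.mul (.g 6) (.add (.mul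
 (.pp [(1, 77820)]) (.sq [(1, -9), (2, 35), (3, 65), (5, -100)])) (.add (.mul (.g 2) (.mul (.g 2)
 (.mul (.g 2) (.pp [(1, 18424200000)])))) (.mul (.g 10) (.mul (.pp [(1, 1836300)]) (.sq [(1, -24),
 (2, 35), (3, 81), (5, -100)])))))) (.mul (.g 10) (.add (.mul (.pp [(1, 3737220)]) (.sq [(1, 4),
 (2, -4), (3, 100), (5, -99)])) (.mul (.g 2) (.mul (.g 2) (.pp [(1, 34497600000)])))))))) (.add
 (.add (.mul (.g 0) (.pp [(1, 200000000000)])) (.mul (.g 1) (.pp [(1, 200000000000)]))) (.add (.mul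
 (.g 4) (.mul (.g 5) (.mul (.pp [(1, 690120)]) (.sq [(1, -25), (2, 11), (3, 100), (5, -68)]))))
 (.add (.mul (.g 12) (.pp [(1, 200000000000)])) (.mul (.g 13) (.mul (.g 14) (.mul (.pp [(1, 3480)])
 (.sq [(1, 3), (2, 16), (3, -84), (5, 100)])))))))) (.pp [(1, 42708408), (2, 6138240), (3,
 6067164), (4, 5463648), (5, 6114780), (6, 5961900), (8, 6478990), (9, 6200022), (10, 7372920),
 (12, 7387803), (15, 5076552), (16, 6079800), (18, 4188810), (20, 4447620), (24, 4820220), (25,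
 4997880), (27, 6328760), (30, 6044424), (36, 6164940), (40, 5658420), (45, 5938875), (50,
 5647575), (54, 6340200), (60, 6342720), (75, 7100688), (81, 6000000), (90, 7269960), (100,
 6586440), (125, 6719660), (135, 6235080), (150, 6542700), (225, 5547960), (250, 6120900), (375,
 5687760), (625, 5793600)])))))
 (.rule 0 (.rule 3 (.leaf 15000000 (.add (.add (.add (.add (.mul (.g 5) (.add (.add (.mul (.g 2)
 (.add (.add (.mul (.g 3) (.add (.mul (.g 4) (.pp [(1, 20239800000)])) (.mul (.g 6) (.pp [(1,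
 860550000)])))) (.mul (.g 5) (.add (.mul (.g 5) (.pp [(1, 3959100000)])) (.mul (.g 14) (.pp [(1,
 32372700000)]))))) (.add (.mul (.g 2) (.pp [(1, 50422650000)])) (.mul (.g 10) (.pp [(1,
 7290900000)]))))) (.add (.mul (.g 11) (.add (.add (.mul (.pp [(1, 207273)]) (.sq [(1, -19), (2,
 100), (3, -33), (5, 13)])) (.mul (.g 4) (.add (.mul (.g 5) (.pp [(1, 1100947500)])) (.mul (.g 6)
 (.pp [(1, 1572082500)]))))) (.add (.mul (.g 3) (.pp [(1, 518985000)])) (.add (.mul (.g 5) (.mul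
 (.g 6) (.pp [(1, 722572500)]))) (.mul (.g 11) (.mul (.g 14) (.pp [(1, 18645375)]))))))) (.mul (.g
 3) (.mul (.g 3) (.add (.pp [(1, 19881900000)]) (.add (.mul (.g 5) (.pp [(1, 4432350000)])) (.mul
 (.g 8) (.pp [(1, 14688600000)])))))))) (.add (.mul (.g 4) (.mul (.pp [(1, 1755195)]) (.sq [(1,
 14), (2, -14), (3, 100), (5, -65)]))) (.add (.mul (.g 8) (.mul (.pp [(1, 15360)]) (.sq [(1, -100),
 (2, 98), (3, -35), (5, 92)]))) (.mul (.g 10) (.mul (.g 10) (.mul (.g 14) (.pp [(1,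
 6838800000)])))))))) (.mul (.g 2) (.add (.add (.mul (.g 3) (.add (.mul (.g 3) (.pp [(1,
 7119300000)])) (.add (.mul (.g 6) (.mul (.g 8) (.pp [(1, 4012800000)]))) (.mul (.g 13) (.mul (.g
 13) (.pp [(1, 593100000)])))))) (.mul (.g 4) (.add (.mul (.pp [(1, 210345)]) (.sq [(1, -100), (2,
 81), (3, 5), (5, 80)])) (.mul (.g 2) (.mul (.g 8) (.pp [(1, 5959800000)])))))) (.add (.mul (.g 10)
 (.add (.mul (.pp [(1, 183330)]) (.sq [(1, -43), (2, 100), (3, 57), (5, -38)])) (.mul (.g 10) (.pp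
 [(1, 233850000)])))) (.add (.mul (.g 6) (.mul (.pp [(1, 319770)]) (.sq [(1, -99), (2, 96), (3, 1),
 (5, 100)]))) (.mul (.g 11) (.mul (.g 11) (.pp [(1, 5142000)])))))))) (.add (.mul (.g 3) (.add
 (.mul (.g 3) (.mul (.g 14) (.mul (.g 14) (.pp [(1, 2127600000)])))) (.add (.mul (.g 8) (.mul (.pp
 [(1, 8205)]) (.sq [(1, -82), (2, 100), (3, 83), (5, 12)]))) (.mul (.g 13) (.mul (.pp [(1,
 147525)]) (.sq [(1, -81), (2, 100), (3, 34), (5, 38)])))))) (.add (.mul (.g 11) (.add (.mul (.g 4)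
 (.mul (.g 4) (.mul (.g 4) (.pp [(1, 192232500)])))) (.mul (.g 11) (.pp [(1, 2713125)])))) (.mul
 (.g 0) (.pp [(1, 50000000000)]))))) (.add (.add (.mul (.g 1) (.pp [(1, 50000000000)])) (.mul (.g
 6) (.mul (.g 14) (.mul (.pp [(1, 692745)]) (.sq [(1, -47), (2, -12), (3, 100), (5, 65)]))))) (.add
 (.mul (.g 8) (.mul (.g 8) (.mul (.pp [(1, 103485)]) (.sq [(1, -47), (2, 100), (3, -96), (5,
 15)])))) (.add (.mul (.g 9) (.mul (.g 9) (.mul (.pp [(1, 136500)]) (.sq [(1, -9), (2, 72), (3,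
 100), (5, -82)])))) (.mul (.g 12) (.pp [(1, 50000000000)])))))) (.pp [(1, 20582010), (2, 1441785),
 (3, 1465953), (4, 1649385), (5, 1502145), (6, 1363035), (8, 1375500), (9, 1718037), (10, 1491390),
 (12, 1690560), (15, 1587483), (16, 1507545), (18, 1516935), (20, 1405530), (24, 1613670), (25,
 1554090), (27, 1289012), (30, 1699560), (36, 1301340), (40, 1416975), (45, 1065126), (50,
 1570230), (54, 1557885), (60, 1427730), (75, 1337787), (81, 1517040), (90, 1535445), (100,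
 1702635), (125, 1331985), (135, 1757490), (150, 1199565), (225, 1802580), (250, 1434840), (375,
 1668780), (625, 1593105)]))))))
 (.split [(2, 1), (5, -1)]
 (.rule 1 (.rule 2 (.leaf 60000000 (.add (.add (.add (.add (.mul (.pp [(1, 27420)]) (.sq [(1, 9),
 (2, -52), (3, -27), (5, 100)])) (.mul (.g 6) (.add (.add (.mul (.g 11) (.add (.add (.mul (.pp [(1,
 46722)]) (.sq [(1, -59), (2, 76), (3, 92), (5, 100)])) (.mul (.g 4) (.add (.mul (.g 4) (.pp [(1,
 11222190000)])) (.mul (.g 5) (.pp [(1, 189240000)]))))) (.add (.mul (.g 11) (.add (.pp [(1,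
 27730500)]) (.mul (.g 13) (.pp [(1, 20142000)])))) (.mul (.g 2) (.pp [(1, 2327340000)]))))) (.mul
 (.g 3) (.add (.mul (.g 2) (.add (.mul (.g 2) (.pp [(1, 3375000000)])) (.mul (.g 4) (.pp [(1,
 189669600000)])))) (.add (.mul (.g 3) (.add (.pp [(1, 236438400000)]) (.mul (.g 13) (.pp [(1,
 8152200000)])))) (.mul (.g 6) (.mul (.g 13) (.pp [(1, 200058000000)]))))))) (.add (.mul (.g 2)
 (.mul (.g 2) (.add (.pp [(1, 97584000000)]) (.mul (.g 8) (.pp [(1, 20585400000)]))))) (.mul (.g 6)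
 (.mul (.g 6) (.add (.mul (.g 6) (.pp [(1, 15158400000)])) (.mul (.g 13) (.pp [(1,
 31213200000)]))))))))) (.add (.mul (.g 3) (.add (.add (.mul (.g 3) (.add (.pp [(1, 5105400000)])
 (.add (.mul (.g 4) (.add (.pp [(1, 1902000000)]) (.mul (.g 5) (.pp [(1, 3189600000)])))) (.mul (.g
 5) (.mul (.g 5) (.pp [(1, 7110000000)])))))) (.mul (.g 5) (.add (.mul (.pp [(1, 1408980)]) (.sq
 [(1, -97), (2, 99), (3, 100), (5, -24)])) (.mul (.g 2) (.mul (.g 5) (.pp [(1, 8421000000)]))))))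
 (.add (.mul (.g 4) (.mul (.pp [(1, 762120)]) (.sq [(1, -100), (2, 85), (3, 83), (5, 7)]))) (.mul
 (.g 11) (.mul (.g 14) (.mul (.g 14) (.pp [(1, 342660000)]))))))) (.add (.mul (.g 8) (.add (.add
 (.mul (.pp [(1, 369180)]) (.sq [(1, 4), (2, -45), (3, -20), (5, 100)])) (.mul (.g 8) (.add (.mul
 (.g 2) (.mul (.g 2) (.pp [(1, 8568600000)]))) (.mul (.g 13) (.mul (.g 13) (.pp [(1,
 501600000)])))))) (.add (.mul (.g 4) (.mul (.pp [(1, 306840)]) (.sq [(1, -89), (2, 100), (3, 14),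
 (5, 60)]))) (.mul (.g 14) (.mul (.pp [(1, 2197680)]) (.sq [(2, -51), (3, -10), (5, 100)]))))))
 (.mul (.g 11) (.add (.mul (.g 5) (.add (.mul (.pp [(1, 148620)]) (.sq [(1, -67), (2, 75), (3, 73),
 (5, 100)])) (.add (.mul (.pp [(1, 2373)]) (.sq [(1, -96), (3, 73), (5, 100)])) (.mul (.g 11) (.pp
 [(1, 3786000)]))))) (.mul (.g 11) (.pp [(1, 4645500)]))))))) (.add (.add (.mul (.g 0) (.pp [(1,
 200000000000)])) (.mul (.g 1) (.pp [(1, 200000000000)]))) (.add (.mul (.g 4) (.mul (.g 14) (.mul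
 (.pp [(1, 20700)]) (.sq [(1, -83), (2, 100), (3, 39), (5, 28)])))) (.add (.mul (.g 12) (.pp [(1,
 200000000000)])) (.mul (.g 13) (.mul (.g 13) (.mul (.g 13) (.mul (.g 13) (.pp [(1,
 707400000)]))))))))) (.pp [(1, 326586600), (2, 6154860), (3, 5746188), (4, 5647980), (5, 6253962),
 (6, 5952180), (8, 5763180), (9, 6080232), (10, 5935524), (12, 6410940), (15, 5223288), (16,
 6117000), (18, 5759700), (20, 6521952), (24, 6411180), (25, 5222040), (27, 6420567), (30,
 6631368), (36, 5833140), (40, 5911680), (45, 7173048), (50, 5902080), (54, 6097380), (60,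
 5771760), (75, 7382160), (81, 5633940), (90, 6235020), (100, 6061320), (125, 7028000), (135,
 4994100), (150, 5598360), (225, 4579680), (250, 5716800), (375, 4896000), (625, 6000000)])))))
 (.rule 1 (.rule 3 (.leaf 15000000 (.add (.add (.add (.add (.mul (.g 6) (.add (.add (.mul (.g 2)
 (.add (.add (.mul (.g 2) (.add (.mul (.g 11) (.pp [(1, 537420000)])) (.mul (.g 14) (.pp [(1,
 3388350000)])))) (.mul (.g 4) (.add (.mul (.g 6) (.pp [(1, 1632750000)])) (.mul (.g 10) (.pp [(1,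
 14842350000)]))))) (.add (.mul (.g 5) (.mul (.g 6) (.pp [(1, 23499150000)]))) (.mul (.g 8) (.mul
 (.g 14) (.pp [(1, 2971350000)])))))) (.add (.mul (.g 3) (.add (.mul (.g 10) (.pp [(1,
 29701350000)])) (.mul (.g 14) (.mul (.g 14) (.pp [(1, 2321400000)]))))) (.mul (.g 11) (.add (.mul
 (.g 4) (.mul (.g 6) (.pp [(1, 4002487500)]))) (.mul (.g 11) (.mul (.g 13) (.pp [(1,
 15492750)]))))))) (.add (.mul (.g 5) (.mul (.pp [(1, 2394900)]) (.sq [(1, -8), (2, -7), (3, 50),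
 (5, -37)]))) (.add (.mul (.g 10) (.mul (.pp [(1, 2101755)]) (.sq [(1, -28), (2, 100), (3, -78),
 (5, 73)]))) (.mul (.g 13) (.mul (.pp [(1, 832725)]) (.sq [(1, -47), (2, -11), (3, 100), (5,
 100)]))))))) (.mul (.g 4) (.add (.add (.mul (.g 2) (.add (.mul (.g 2) (.add (.pp [(1,
 33769950000)]) (.add (.mul (.g 10) (.pp [(1, 2595300000)])) (.mul (.g 14) (.pp [(1,
 4690800000)]))))) (.mul (.g 14) (.mul (.g 14) (.pp [(1, 7445400000)]))))) (.mul (.g 4) (.mul (.g
 4) (.add (.mul (.g 8) (.pp [(1, 69300000)])) (.mul (.g 14) (.pp [(1, 3071550000)])))))) (.add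
 (.mul (.g 9) (.mul (.pp [(1, 120840)]) (.sq [(1, -65), (2, 100), (3, 53), (5, 49)]))) (.mul (.g
 14) (.mul (.pp [(1, 32685)]) (.sq [(1, -89), (2, 100), (3, 70), (5, 37)]))))))) (.add (.mul (.g
 11) (.add (.add (.mul (.g 5) (.add (.mul (.g 5) (.add (.pp [(1, 294652500)]) (.add (.mul (.g 5)
 (.pp [(1, 371332500)])) (.mul (.g 10) (.pp [(1, 322762500)]))))) (.mul (.g 11) (.mul (.g 14) (.pp
 [(1, 20821875)]))))) (.mul (.g 14) (.add (.mul (.pp [(1, 17637)]) (.sq [(1, 1), (2, 87), (3,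
 -100), (5, 73)])) (.mul (.g 11) (.mul (.g 14) (.pp [(1, 3651750)])))))) (.add (.mul (.g 3) (.mul
 (.pp [(1, 25815)]) (.sq [(1, -100), (2, 27), (3, 63), (5, 83)]))) (.mul (.g 13) (.mul (.pp [(1,
 2352)]) (.sq [(1, -55), (2, -47), (3, 83), (5, 100)])))))) (.add (.mul (.g 3) (.add (.mul (.g 2)
 (.pp [(1, 8860950000)])) (.add (.mul (.g 3) (.mul (.pp [(1, 1146660)]) (.sq [(1, 24), (2, 31), (3,
 -20), (5, 50)]))) (.mul (.g 5) (.mul (.g 5) (.mul (.g 5) (.pp [(1, 12232500000)]))))))) (.mul (.g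
 0) (.pp [(1, 50000000000)]))))) (.add (.add (.mul (.g 1) (.pp [(1, 50000000000)])) (.mul (.g 2)
 (.mul (.g 2) (.mul (.pp [(1, 72135)]) (.sq [(1, -100), (2, -89), (3, -56), (5, 99)]))))) (.add
 (.mul (.g 5) (.mul (.g 14) (.mul (.pp [(1, 163785)]) (.sq [(1, -47), (2, -11), (3, 100), (5,
 100)])))) (.add (.mul (.g 9) (.mul (.g 9) (.mul (.pp [(1, 436935)]) (.sq [(1, -16), (2, 19), (3,
 100), (5, -28)])))) (.mul (.g 12) (.pp [(1, 50000000000)])))))) (.pp [(1, 8160957), (2, 1512033),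
 (3, 1502160), (4, 1419156), (5, 1508640), (6, 1520346), (8, 1578125), (9, 1497588), (10, 1255881),
 (12, 1718352), (15, 1570995), (16, 1527570), (18, 1425609), (20, 1337352), (24, 1605870), (25,
 1666611), (27, 1523097), (30, 1631820), (36, 1555245), (40, 1476510), (45, 1398030), (50,
 2039166), (54, 1450800), (60, 1018020), (75, 1125165), (81, 1522140), (90, 1473780), (100,
 1545015), (125, 1307337), (135, 1566120), (150, 1560600), (225, 1784220), (250, 1435440), (375,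
 1513485), (625, 1493970)])))))))
 (P_free ++ xP_G_T4a) = true := by decide +kernel

end Pool.Agent.Helper62.TW
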