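import Pool.Agent.Helper62.TW.Goals

/-!
# Case trees, part 12 (generated)
-/

set_option autoImplicit false
set_option maxRecDepth 100000
set_option linter.all false

namespace Pool.Agent.Helper62.TW

open Pool.Agent.Helper83.Cert

theorem t_A_F1_c0 : chk ROp gP_A_F1
 (.cut 50 [(2, 1), (3, -1)] (.add (.add (.mul (.g 8) (.pp [(1, 45)])) (.mul (.g 7) (.pp [(1, 2)])))
 (.add (.mul (.g 2) (.pp [(1, 5)])) (.mul (.g 9) (.pp [(1, 9)])))) (.rule 0 (.cut 60 [(2, -1), (5,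
 1)] (.add (.add (.mul (.g 11) (.pp [(1, 11)])) (.mul (.g 9) (.pp [(1, 3)]))) (.add (.mul (.g 1)
 (.pp [(1, 5)])) (.mul (.g 6) (.pp [(1, 5)])))) (.rule 3 (.leaf 30000000 (.add (.add (.add (.add
 (.mul (.g 7) (.add (.add (.mul (.g 6) (.add (.add (.mul (.g 9) (.add (.mul (.g 5) (.pp [(1,
 33890400000)])) (.add (.mul (.g 7) (.pp [(1, 33479700000)])) (.mul (.g 9) (.pp [(1,
 15828600000)]))))) (.mul (.g 12) (.add (.mul (.g 5) (.pp [(1, 7291050000)])) (.add (.mul (.g 10)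
 (.pp [(1, 235796400000)])) (.mul (.g 13) (.pp [(1, 57990810000)])))))) (.add (.mul (.g 6) (.add
 (.mul (.g 8) (.pp [(1, 276693900000)])) (.mul (.g 11) (.pp [(1, 11272770000)])))) (.add (.mul (.g
 4) (.mul (.g 13) (.pp [(1, 5799060000)]))) (.mul (.g 15) (.pp [(1, 43977000000)])))))) (.add (.mul
 (.g 15) (.add (.add (.pp [(1, 6835200000)]) (.add (.mul (.pp [(1, 134040)]) (.sq [(1, 50), (2,
 31), (3, 41), (5, 41), (7, 41)])) (.mul (.g 4) (.add (.pp [(1, 40220100000)]) (.add (.mul (.g 8)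
 (.pp [(1, 335540400000)])) (.mul (.g 10) (.pp [(1, 147439800000)]))))))) (.add (.mul (.g 5) (.pp
 [(1, 5247300000)])) (.add (.mul (.g 7) (.pp [(1, 270900000)])) (.mul (.g 12) (.mul (.g 13) (.pp
 [(1, 5622690000)]))))))) (.mul (.g 5) (.add (.add (.pp [(1, 24579300000)]) (.mul (.g 5) (.add
 (.mul (.g 4) (.pp [(1, 11652300000)])) (.mul (.g 5) (.pp [(1, 33321600000)]))))) (.add (.mul (.g
 9) (.mul (.g 11) (.pp [(1, 2525340000)]))) (.mul (.g 10) (.mul (.g 10) (.pp [(1,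
 53117700000)])))))))) (.add (.mul (.g 7) (.add (.add (.pp [(1, 4058100000)]) (.mul (.pp [(1,
 146130)]) (.sq [(1, 31), (2, 78), (3, 6), (5, 100), (7, -39)]))) (.add (.mul (.g 4) (.mul (.g 11)
 (.pp [(1, 11954595000)]))) (.mul (.g 12) (.mul (.g 12) (.pp [(1, 37951575000)])))))) (.add (.mul
 (.g 12) (.add (.pp [(1, 19191750000)]) (.mul (.g 12) (.mul (.g 12) (.pp [(1, 20062500)]))))) (.mul
 (.g 13) (.mul (.pp [(1, 976512)]) (.sq [(1, 25), (2, 22), (3, 22), (5, 22), (7, 22)]))))))) (.mul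
 (.g 4) (.add (.add (.mul (.g 4) (.add (.add (.mul (.g 4) (.add (.mul (.g 8) (.pp [(1,
 8601900000)])) (.add (.mul (.g 9) (.pp [(1, 4546200000)])) (.mul (.g 15) (.pp [(1,
 5950200000)]))))) (.mul (.g 6) (.add (.mul (.g 9) (.pp [(1, 5316600000)])) (.mul (.g 13) (.pp [(1,
 642480000)]))))) (.add (.mul (.g 8) (.mul (.g 13) (.pp [(1, 490500000)]))) (.mul (.g 15) (.pp [(1,
 14709000000)]))))) (.add (.mul (.g 5) (.add (.add (.mul (.g 6) (.mul (.g 13) (.pp [(1,
 324600000)]))) (.mul (.g 8) (.mul (.g 8) (.pp [(1, 2118900000)])))) (.add (.mul (.g 12) (.pp [(1,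
 4784100000)])) (.mul (.g 15) (.pp [(1, 6634500000)]))))) (.mul (.g 6) (.add (.mul (.pp [(1,
 2110320)]) (.sq [(1, -7), (2, -51), (3, -41), (5, -60), (7, 100)])) (.add (.mul (.g 6) (.mul (.g
 13) (.pp [(1, 1918680000)]))) (.mul (.g 15) (.pp [(1, 11735700000)]))))))) (.add (.mul (.g 12)
 (.add (.pp [(1, 33366300000)]) (.mul (.pp [(1, 31665)]) (.sq [(1, 38), (2, 44), (3, 9), (5, 100),
 (7, -71)])))) (.add (.mul (.g 10) (.mul (.g 13) (.pp [(1, 6256800000)]))) (.mul (.g 15) (.mul (.pp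
 [(1, 559290)]) (.sq [(2, 36), (3, -25), (5, 100), (7, -3)])))))))) (.add (.mul (.g 5) (.add (.add
 (.mul (.g 5) (.add (.mul (.g 15) (.add (.pp [(1, 101703000000)]) (.add (.mul (.g 5) (.pp [(1,
 33577500000)])) (.mul (.g 10) (.pp [(1, 2054700000)]))))) (.mul (.g 5) (.mul (.g 8) (.pp [(1,
 3300000)]))))) (.mul (.g 13) (.add (.pp [(1, 14521860000)]) (.mul (.g 13) (.add (.mul (.g 6) (.pp
 [(1, 1342080000)])) (.mul (.g 9) (.pp [(1, 120000)]))))))) (.add (.mul (.g 11) (.add (.mul (.g 6)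
 (.mul (.g 6) (.pp [(1, 6795000)]))) (.mul (.g 8) (.mul (.g 8) (.pp [(1, 840000)]))))) (.mul (.g
 12) (.mul (.g 12) (.pp [(1, 66436200000)])))))) (.add (.mul (.g 6) (.add (.mul (.g 6) (.add (.mul
 (.g 9) (.add (.mul (.g 11) (.pp [(1, 91530000)])) (.mul (.g 13) (.pp [(1, 12393180000)])))) (.mul
 (.g 10) (.mul (.g 13) (.pp [(1, 12853020000)]))))) (.add (.mul (.g 15) (.add (.mul (.pp [(1,
 45510)]) (.sq [(1, -32), (2, -71), (3, 23), (5, 48), (7, 100)])) (.mul (.pp [(1, 93210)]) (.sq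
 [(1, 100), (2, 81), (3, 81), (5, 81), (7, 81)])))) (.mul (.g 13) (.pp [(1, 438360000)]))))) (.mul
 (.g 11) (.add (.mul (.g 8) (.pp [(1, 833655000)])) (.add (.mul (.g 13) (.pp [(1, 294534000)]))
 (.mul (.g 15) (.pp [(1, 1237515000)])))))))) (.add (.add (.mul (.g 12) (.add (.pp [(1,
 46655400000)]) (.mul (.g 15) (.mul (.pp [(1, 287910)]) (.sq [(1, 7), (2, -12), (3, -85), (5, -94),
 (7, 100)]))))) (.mul (.g 0) (.pp [(1, 100000000000)]))) (.add (.mul (.g 2) (.pp [(1,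
 100000000000)])) (.add (.mul (.g 13) (.mul (.g 15) (.pp [(1, 9765780000)]))) (.mul (.g 14) (.pp
 [(1, 100000000)])))))) (.pp [(1, 4110582000), (2, 2849820), (3, 2977590), (4, 3189240), (5,
 3250350), (6, 2781180), (7, 2985000), (8, 3166560), (9, 3167100), (10, 2944560), (12, 3338280),
 (14, 3156780), (15, 3338670), (16, 3093120), (18, 2739510), (19, 300000000000), (20, 3067920),
 (21, 2666010), (24, 2746080), (25, 3219810), (27, 3049750), (28, 2889504), (30, 3174060), (35,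
 3170250), (36, 3148950), (40, 2615040), (42, 2360328), (45, 3038850), (49, 2978670), (50,
 3538380), (54, 2864865), (56, 3143760), (60, 3070200), (63, 3064044), (70, 3134328), (75,
 2505600), (81, 3000000), (84, 2593620), (90, 2933295), (98, 3111798), (100, 2839200), (105,
 3054408), (125, 2601750), (126, 2794560), (135, 3050250), (140, 2940480), (147, 2795928), (150,
 2530800), (175, 2492364), (189, 2771790), (196, 3136350), (210, 3106590), (225, 3274050), (245,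
 2885478), (250, 2524020), (294, 3130845), (315, 2520870), (343, 3221484), (350, 2731320), (375,
 3313140), (441, 2723640), (490, 2841855), (525, 2577780), (625, 3033090), (686, 3018210), (735,
 2772660), (875, 2922450), (1029, 3090360), (1225, 3045150), (1715, 3328530), (2401,
 3057510)])))))))
 (P_c0 ++ xP_A_F1) = true := by decide +kernel

theorem t_A_F1_c3 : chk ROp gP_A_F1
 (.split [(1, -3), (3, 2)]
 (.cut 3 [(2, -1), (3, 1)] (.add (.mul (.g 0) (.pp [(1, 1)])) (.add (.mul (.g 2) (.pp [(1, 1)]))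
 (.mul (.g 5) (.pp [(1, 3)])))) (.rule 1 (.cut 3 [(2, 1), (5, -1)] (.add (.add (.mul (.g 3) (.pp
 [(1, 1)])) (.mul (.g 1) (.pp [(1, 1)]))) (.add (.mul (.g 2) (.pp [(1, 1)])) (.mul (.g 8) (.pp [(1,
 3)])))) (.rule 2 (.rule 9 (.cut 1 [(1, -2), (2, -1), (3, 2), (5, 1)] (.add (.mul (.g 10) (.pp [(1,
 1)])) (.add (.mul (.g 5) (.pp [(1, 1)])) (.mul (.g 8) (.pp [(1, 1)])))) (.cut 1 [(1, -1), (2, -2),
 (3, 2), (5, 2)] (.add (.mul (.g 11) (.pp [(1, 1)])) (.add (.mul (.g 9) (.pp [(1, 1)])) (.mul (.g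
 0) (.pp [(1, 1)])))) (.rule 10 (.leaf 180000000 (.add (.add (.add (.add (.mul (.g 11) (.add (.add
 (.mul (.g 11) (.add (.add (.pp [(1, 124174800000)]) (.mul (.g 9) (.add (.mul (.g 12) (.pp [(1,
 1278383400000)])) (.add (.mul (.g 14) (.pp [(1, 681246000000)])) (.mul (.g 15) (.pp [(1,
 1487536200000)])))))) (.add (.mul (.g 10) (.add (.mul (.g 11) (.pp [(1, 54000000)])) (.add (.mul
 (.g 16) (.pp [(1, 29132100000)])) (.mul (.g 17) (.pp [(1, 491620500000)]))))) (.add (.mul (.g 12)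
 (.add (.mul (.g 13) (.pp [(1, 859590000000)])) (.mul (.g 15) (.pp [(1, 61637400000)])))) (.mul (.g
 17) (.add (.mul (.g 15) (.pp [(1, 923985000000)])) (.mul (.g 17) (.pp [(1, 1045102050000)]))))))))
 (.add (.mul (.g 20) (.add (.add (.mul (.g 9) (.add (.mul (.g 10) (.pp [(1, 1050229800000)])) (.add
 (.mul (.g 12) (.pp [(1, 1957518000000)])) (.mul (.g 17) (.pp [(1, 596174400000)]))))) (.mul (.g
 10) (.mul (.g 10) (.pp [(1, 199580400000)])))) (.add (.mul (.g 12) (.mul (.g 20) (.pp [(1,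
 14522400000)]))) (.mul (.g 17) (.mul (.g 17) (.pp [(1, 71102700000)])))))) (.mul (.g 8) (.add (.pp
 [(1, 316228200000)]) (.add (.mul (.g 13) (.add (.mul (.g 12) (.pp [(1, 151693800000)])) (.mul (.g
 17) (.pp [(1, 30032700000)])))) (.mul (.g 8) (.mul (.g 9) (.pp [(1, 96935800000)])))))))) (.add
 (.add (.mul (.g 13) (.add (.pp [(1, 3075211800000)]) (.mul (.pp [(1, 78042240)]) (.sq [(1, 6), (2,
 14), (3, -50), (5, 41), (7, -36)])))) (.mul (.g 9) (.mul (.g 12) (.mul (.g 12) (.pp [(1,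
 1993674600000)]))))) (.add (.mul (.g 14) (.mul (.g 15) (.mul (.g 15) (.pp [(1, 26152200000)]))))
 (.mul (.g 17) (.mul (.g 17) (.mul (.g 17) (.pp [(1, 36829125000)])))))))) (.add (.mul (.g 20)
 (.add (.add (.add (.mul (.g 12) (.add (.add (.pp [(1, 1126528200000)]) (.mul (.g 20) (.add (.mul
 (.g 9) (.pp [(1, 88867800000)])) (.mul (.g 20) (.pp [(1, 4631400000)]))))) (.add (.mul (.g 8)
 (.mul (.g 18) (.pp [(1, 99844200000)]))) (.mul (.g 10) (.mul (.g 13) (.pp [(1,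
 509500800000)])))))) (.mul (.g 9) (.add (.mul (.pp [(1, 24781500)]) (.sq [(1, 43), (2, -100), (3,
 37), (5, -75), (7, 61)])) (.add (.mul (.g 9) (.mul (.g 9) (.pp [(1, 255657600000)]))) (.mul (.g
 10) (.mul (.g 20) (.pp [(1, 41121000000)]))))))) (.add (.mul (.g 13) (.add (.pp [(1,
 379166400000)]) (.mul (.pp [(1, 7598880)]) (.sq [(1, -88), (2, 81), (3, -8), (5, 75), (7,
 100)])))) (.mul (.g 16) (.add (.mul (.pp [(1, 39375)]) (.sq [(1, 22), (2, 87), (3, -78), (5, 36),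
 (7, 100)])) (.mul (.pp [(1, 172602)]) (.sq [(1, 100), (2, 90), (3, 100), (5, 35), (7, 68)]))))))
 (.add (.add (.mul (.g 17) (.add (.mul (.pp [(1, 828540)]) (.sq [(1, 42), (2, -100), (3, 18), (5,
 -96), (7, 85)])) (.mul (.pp [(1, 10064880)]) (.sq [(1, -25), (2, -47), (3, 50), (5, 25), (7,
 16)])))) (.mul (.g 20) (.add (.mul (.pp [(1, 62249040)]) (.sq [(1, 9), (2, 50), (3, -47), (5, -7),
 (7, -7)])) (.mul (.pp [(1, 31893120)]) (.sq [(1, 12), (2, -50), (3, -49), (5, 7), (7, 7)])))))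
 (.add (.mul (.g 8) (.pp [(1, 96993600000)])) (.mul (.g 14) (.pp [(1, 313200000000)])))))) (.mul
 (.g 13) (.add (.add (.add (.mul (.g 10) (.add (.pp [(1, 1716678000000)]) (.mul (.g 12) (.mul (.g
 18) (.pp [(1, 105008400000)]))))) (.mul (.g 13) (.add (.mul (.pp [(1, 6309360)]) (.sq [(1, -59),
 (2, 57), (3, -1), (5, -100), (7, 82)])) (.mul (.pp [(1, 123859980)]) (.sq [(1, -33), (2, 17), (5,
 50), (7, 100)]))))) (.add (.mul (.g 16) (.add (.pp [(1, 46536660000)]) (.mul (.pp [(1, 922482)])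
 (.sq [(1, 37), (2, -11), (3, 74), (5, 97), (7, -100)])))) (.mul (.g 8) (.pp [(1,
 132997200000)])))) (.add (.add (.mul (.g 9) (.mul (.pp [(1, 4800780)]) (.sq [(1, 61), (2, 100),
 (3, 65), (5, 25), (7, 36)]))) (.mul (.g 12) (.mul (.pp [(1, 5923800)]) (.sq [(1, 1), (2, -50), (3,
 -29), (5, -34), (7, 100)])))) (.add (.mul (.g 17) (.mul (.pp [(1, 2256570)]) (.sq [(1, 69), (2,
 -91), (3, 100), (5, 57)]))) (.mul (.g 18) (.mul (.pp [(1, 366300)]) (.sq [(1, 26), (2, -15), (3,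
 -67), (5, 100), (7, -48)]))))))))) (.add (.mul (.g 16) (.add (.add (.mul (.g 10) (.add (.mul (.g
 12) (.add (.mul (.g 14) (.pp [(1, 19538910000)])) (.mul (.g 15) (.pp [(1, 21862350000)])))) (.mul
 (.g 14) (.pp [(1, 20856060000)])))) (.mul (.g 8) (.add (.pp [(1, 48554160000)]) (.mul (.pp [(1,
 144510)]) (.sq [(1, -12), (2, 85), (3, 100), (5, -7), (7, -19)]))))) (.add (.mul (.g 14) (.mul (.g
 16) (.pp [(1, 831757500)]))) (.mul (.g 17) (.mul (.pp [(1, 75636)]) (.sq [(1, 50), (2, -26), (3,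
 32), (5, 15)])))))) (.add (.mul (.g 8) (.add (.mul (.g 15) (.add (.pp [(1, 938437200000)]) (.mul
 (.g 8) (.mul (.g 15) (.pp [(1, 709400000)]))))) (.add (.mul (.g 9) (.mul (.g 10) (.mul (.g 10)
 (.pp [(1, 27048600000)])))) (.mul (.g 14) (.mul (.pp [(1, 2955540)]) (.sq [(1, -40), (2, 43), (3,
 100), (5, -72), (7, 9)])))))) (.mul (.g 9) (.add (.mul (.g 9) (.mul (.g 12) (.mul (.g 12) (.pp
 [(1, 45995400000)])))) (.add (.mul (.g 14) (.mul (.pp [(1, 6304320)]) (.sq [(1, 41), (2, 29), (3,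
 62), (5, 100), (7, -89)]))) (.mul (.g 17) (.mul (.g 17) (.pp [(1, 13641750000)]))))))))) (.add
 (.add (.mul (.g 0) (.pp [(1, 600000000000)])) (.add (.mul (.g 3) (.pp [(1, 1800000000)])) (.mul
 (.g 4) (.pp [(1, 600000000000)])))) (.add (.mul (.g 6) (.pp [(1, 600000000000)])) (.add (.mul (.g
 12) (.mul (.g 12) (.mul (.g 12) (.mul (.g 14) (.pp [(1, 3823200000)]))))) (.mul (.g 19) (.pp [(1,
 1200000000)])))))) (.pp [(1, 27918308022), (2, 21643326), (3, 14898318), (4, 18575235), (5,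
 16679574), (6, 18316878), (7, 18901980), (8, 20954670), (9, 20873568), (10, 15109254), (12,
 17649678), (14, 11858220), (15, 21731508), (16, 17325360), (18, 19930620), (20, 14629203), (21,
 18805080), (24, 17713890), (25, 18791622), (27, 16010244), (28, 17154585), (30, 16309188), (35,
 18842220), (36, 16765660), (40, 18599130), (42, 20195100), (45, 13292724), (49, 16810722), (50,
 22088538), (54, 18101500), (56, 16655220), (60, 13920600), (63, 15306300), (70, 21706920), (75,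
 17357850), (81, 18225280), (84, 13975260), (90, 22991100), (98, 23042880), (100, 15074640), (105,
 14741880), (125, 18157860), (126, 20952900), (135, 17097800), (140, 17073180), (147, 18984060),
 (150, 21109830), (175, 18057510), (189, 17567040), (196, 19010880), (210, 22421520), (225,
 17848600), (245, 18712728), (250, 19116450), (294, 14825760), (315, 21417840), (343, 17911728),
 (350, 18590220), (375, 17209920), (441, 20566200), (490, 14563980), (525, 18361320), (625,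
 17345520), (686, 18062100), (735, 18114060), (875, 16990200), (1029, 16434180), (1225, 17606340),
 (1715, 17558820), (2401, 18434160)])))))))))))
 (.cut 1 [(2, -1), (3, 1)] (.add (.mul (.g 10) (.pp [(1, 1)])) (.mul (.g 5) (.pp [(1, 1)]))) (.rule
 1 (.cut 1 [(2, 1), (5, -1)] (.add (.mul (.g 11) (.pp [(1, 1)])) (.mul (.g 1) (.pp [(1, 1)])))
 (.rule 2 (.cut 11 [(1, -69), (3, 100)] (.add (.mul (.g 1) (.pp [(1, 620)])) (.add (.mul (.g 12)
 (.pp [(1, 31)])) (.mul (.g 14) (.pp [(1, 480)])))) (.rule 8 (.rule 15 (.leaf 99000000 (.add (.add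
 (.add (.add (.mul (.g 11) (.add (.add (.mul (.g 10) (.add (.add (.mul (.g 10) (.add (.add (.mul
 (.g 10) (.pp [(1, 13274910000)])) (.mul (.g 11) (.pp [(1, 24812370000)]))) (.add (.mul (.g 16)
 (.pp [(1, 13288275000)])) (.mul (.g 17) (.pp [(1, 20368260000)]))))) (.add (.mul (.g 9) (.add
 (.mul (.g 11) (.pp [(1, 24843060000)])) (.add (.mul (.g 14) (.pp [(1, 6826050000)])) (.mul (.g 17)
 (.pp [(1, 32979870000)]))))) (.mul (.g 8) (.add (.mul (.g 12) (.pp [(1, 1285047720000)])) (.mul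
 (.g 19) (.pp [(1, 327575160000)])))))) (.add (.mul (.g 11) (.add (.pp [(1, 24750000)]) (.mul (.g
 16) (.pp [(1, 24824745000)])))) (.add (.mul (.g 7) (.mul (.g 15) (.pp [(1, 339603000)]))) (.mul
 (.g 19) (.mul (.g 19) (.pp [(1, 6930000)]))))))) (.mul (.g 19) (.add (.add (.pp [(1,
 89231670000)]) (.mul (.pp [(1, 1980)]) (.sq [(1, 50), (2, 31), (3, 41), (5, 41), (7, 41)]))) (.add
 (.mul (.g 11) (.add (.add (.mul (.g 7) (.pp [(1, 3960000)])) (.mul (.g 8) (.pp [(1,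
 324065610000)]))) (.add (.mul (.g 9) (.pp [(1, 7920000)])) (.mul (.g 11) (.pp [(1, 6930000)])))))
 (.add (.mul (.g 8) (.add (.mul (.g 12) (.pp [(1, 1188259380000)])) (.mul (.g 19) (.pp [(1,
 300993660000)])))) (.mul (.g 7) (.mul (.g 9) (.pp [(1, 2640000)])))))))) (.add (.mul (.g 12) (.add
 (.mul (.g 9) (.add (.pp [(1, 2092860000)]) (.add (.mul (.g 7) (.pp [(1, 7917030000)])) (.mul (.g
 8) (.pp [(1, 38903040000)]))))) (.add (.mul (.g 7) (.mul (.g 13) (.pp [(1, 7911090000)]))) (.mul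
 (.g 11) (.mul (.g 12) (.pp [(1, 89206920000)])))))) (.mul (.g 15) (.add (.pp [(1, 21835489500)])
 (.add (.mul (.g 8) (.mul (.g 8) (.pp [(1, 1153845000)]))) (.mul (.g 11) (.mul (.g 16) (.pp [(1,
 49500)]))))))))) (.add (.mul (.g 9) (.add (.add (.mul (.g 12) (.add (.add (.pp [(1,
 314253720000)]) (.mul (.g 8) (.add (.pp [(1, 228451410000)]) (.mul (.g 12) (.pp [(1,
 176914980000)]))))) (.add (.mul (.g 7) (.mul (.g 12) (.pp [(1, 24750000)]))) (.add (.mul (.g 10)
 (.mul (.g 19) (.pp [(1, 9262440000)]))) (.mul (.g 14) (.mul (.g 14) (.pp [(1, 36197370000)])))))))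
 (.mul (.g 10) (.add (.add (.mul (.pp [(1, 1668348)]) (.sq [(1, -21), (2, -54), (3, 100), (5, -91),
 (7, 1)])) (.mul (.g 9) (.mul (.g 19) (.pp [(1, 26535960000)])))) (.add (.mul (.g 10) (.mul (.g 16)
 (.pp [(1, 4760910000)]))) (.mul (.g 17) (.mul (.g 17) (.pp [(1, 1415700000)]))))))) (.add (.mul
 (.g 15) (.add (.mul (.g 17) (.add (.pp [(1, 32694849000)]) (.mul (.g 9) (.pp [(1, 451737000)]))))
 (.add (.mul (.g 14) (.pp [(1, 811602000)])) (.mul (.g 15) (.pp [(1, 486132075)]))))) (.mul (.g 19)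
 (.add (.mul (.pp [(1, 990)]) (.sq [(1, 35), (2, 76), (3, 100), (5, 100), (7, 55)])) (.mul (.g 8)
 (.pp [(1, 211082850000)]))))))) (.mul (.g 10) (.add (.add (.mul (.g 10) (.add (.mul (.g 7) (.add
 (.mul (.g 7) (.pp [(1, 22200970000)])) (.mul (.g 8) (.pp [(1, 22079970000)])))) (.add (.mul (.g
 10) (.add (.pp [(1, 39929670000)]) (.mul (.g 13) (.pp [(1, 9900000)])))) (.mul (.g 8) (.mul (.g
 12) (.pp [(1, 31953240000)])))))) (.mul (.g 16) (.add (.pp [(1, 218153925000)]) (.add (.mul (.g 8)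
 (.mul (.g 8) (.pp [(1, 4948020000)]))) (.mul (.g 16) (.pp [(1, 187729987500)])))))) (.add (.mul
 (.g 12) (.add (.mul (.g 8) (.mul (.g 12) (.pp [(1, 167018940000)]))) (.mul (.g 14) (.mul (.g 14)
 (.pp [(1, 19800000)]))))) (.mul (.g 13) (.pp [(1, 299468070000)]))))))) (.add (.mul (.g 19) (.add
 (.add (.mul (.g 8) (.add (.mul (.g 8) (.mul (.g 19) (.pp [(1, 36851760000)]))) (.add (.mul (.g 16)
 (.pp [(1, 174259305000)])) (.mul (.g 17) (.mul (.g 17) (.pp [(1, 6930000)])))))) (.mul (.g 12)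
 (.pp [(1, 166459590000)]))) (.add (.mul (.g 15) (.pp [(1, 15729763500)])) (.mul (.g 17) (.pp [(1,
 108431730000)]))))) (.add (.mul (.g 12) (.add (.mul (.g 8) (.add (.mul (.g 8) (.mul (.g 15) (.pp
 [(1, 8845254000)]))) (.mul (.g 12) (.mul (.g 12) (.pp [(1, 189883980000)]))))) (.mul (.g 17) (.pp
 [(1, 144774630000)])))) (.mul (.g 16) (.mul (.g 16) (.add (.mul (.g 14) (.add (.pp [(1,
 27396517500)]) (.mul (.g 7) (.pp [(1, 4522237500)])))) (.mul (.g 15) (.pp [(1,
 3066859125)])))))))) (.add (.add (.mul (.g 0) (.pp [(1, 30000000000)])) (.add (.mul (.g 1) (.pp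
 [(1, 99000000)])) (.mul (.g 3) (.pp [(1, 330000000000)])))) (.add (.mul (.g 5) (.pp [(1,
 330000000000)])) (.add (.mul (.g 15) (.mul (.g 17) (.pp [(1, 20081605500)]))) (.mul (.g 18) (.pp
 [(1, 660000000)])))))) (.pp [(1, 948192000), (2, 9210000), (3, 10407675), (4, 9784500), (5,
 8758500), (6, 11744700), (7, 9504000), (8, 9504000), (9, 9145125), (10, 9586500), (12, 10781760),
 (14, 11682000), (15, 9695532), (16, 9900000), (18, 7804500), (20, 11880000), (21, 10073250), (24,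
 9570000), (25, 10267125), (27, 10840500), (28, 9482220), (30, 6685536), (35, 9603000), (36,
 10560000), (40, 9900000), (42, 9282240), (45, 11886600), (49, 9702000), (50, 9157500), (54,
 9735000), (56, 9900000), (60, 10295472), (63, 9871620), (70, 8529840), (75, 11631444), (81,
 9735000), (84, 9678240), (90, 9926400), (98, 8925840), (100, 9900000), (105, 10399356), (125,
 10230000), (126, 10098000), (135, 9405000), (140, 9822780), (147, 9752490), (150, 8798856), (175,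
 10729620), (189, 9900000), (196, 9822780), (210, 10209144), (225, 10148600), (245, 10123740),
 (250, 9900000), (294, 10339560), (315, 9228780), (343, 9739620), (350, 9983160), (375, 9595212),
 (441, 9928380), (490, 11056320), (525, 9171096), (625, 9900000), (686, 9983160), (735, 9194922),
 (875, 9763380), (1029, 9651510), (1225, 9490140), (1715, 9985140), (2401, 10258380)])))))))))))
 (P_c3 ++ xP_A_F1) = true := by decide +kernel

theorem t_A_F3_c0 : chk ROp gP_A_F3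
 (.split [(1, -7), (3, 50)]
 (.cut 50 [(2, 1), (3, -1)] (.add (.add (.mul (.g 9) (.pp [(1, 45)])) (.mul (.g 8) (.pp [(1, 2)])))
 (.add (.mul (.g 3) (.pp [(1, 5)])) (.mul (.g 10) (.pp [(1, 9)])))) (.rule 0 (.cut 60 [(2, -1), (5,
 1)] (.add (.add (.mul (.g 12) (.pp [(1, 11)])) (.mul (.g 10) (.pp [(1, 3)]))) (.add (.mul (.g 1)
 (.pp [(1, 5)])) (.mul (.g 7) (.pp [(1, 5)])))) (.rule 3 (.cut 3 [(1, 69), (3, -100)] (.add (.mul
 (.g 3) (.pp [(1, 145)])) (.add (.mul (.g 14) (.pp [(1, 31)])) (.mul (.g 9) (.pp [(1, 145)]))))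
 (.rule 7 (.leaf 600000000 (.add (.add (.add (.add (.mul (.g 18) (.add (.add (.add (.mul (.g 10)
 (.add (.add (.pp [(1, 141072000000)]) (.add (.mul (.pp [(1, 9000)]) (.sq [(1, -20), (2, -80), (3,
 100), (5, -41), (7, 82)])) (.mul (.g 9) (.add (.add (.pp [(1, 199440000000)]) (.mul (.g 9) (.pp
 [(1, 10962000000)]))) (.add (.mul (.g 10) (.pp [(1, 40452000000)])) (.mul (.g 15) (.pp [(1,
 252390000000)]))))))) (.add (.add (.mul (.g 7) (.add (.pp [(1, 525036000000)]) (.add (.mul (.g 10)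
 (.pp [(1, 1548150000000)])) (.mul (.g 11) (.pp [(1, 1676142000000)]))))) (.mul (.g 10) (.add (.pp
 [(1, 337908000000)]) (.mul (.g 15) (.pp [(1, 461583000000)]))))) (.add (.mul (.g 8) (.mul (.g 15)
 (.pp [(1, 343791000000)]))) (.mul (.g 12) (.mul (.g 18) (.pp [(1, 382812000000)]))))))) (.mul (.g
 7) (.add (.add (.mul (.pp [(1, 24990000)]) (.sq [(1, -5), (2, -22), (3, -86), (5, 100), (7, 74)]))
 (.mul (.g 7) (.add (.mul (.g 7) (.pp [(1, 280854000000)])) (.mul (.g 15) (.pp [(1,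
 309075000000)]))))) (.add (.mul (.g 9) (.pp [(1, 109134000000)])) (.add (.mul (.g 14) (.pp [(1,
 46227300000)])) (.mul (.g 15) (.pp [(1, 962454000000)]))))))) (.add (.mul (.g 8) (.add (.mul (.g
 6) (.mul (.g 8) (.pp [(1, 4766280000)]))) (.mul (.g 9) (.mul (.g 16) (.pp [(1, 90730800000)])))))
 (.mul (.g 13) (.add (.mul (.pp [(1, 6997200)]) (.sq [(1, 12), (2, 75), (3, 100), (5, -64), (7,
 -48)])) (.mul (.pp [(1, 6621600)]) (.sq [(1, -100), (2, 61), (3, -71), (5, 87), (7, -8)]))))))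
 (.add (.add (.mul (.g 14) (.add (.pp [(1, 15214500000)]) (.mul (.pp [(1, 2464680)]) (.sq [(1, 12),
 (2, 73), (3, 100), (5, -65), (7, -47)])))) (.mul (.g 15) (.add (.pp [(1, 661413000000)]) (.mul (.g
 9) (.mul (.g 18) (.pp [(1, 94239000000)])))))) (.add (.mul (.g 11) (.mul (.pp [(1, 31734600)])
 (.sq [(1, -22), (2, -27), (3, -80), (5, 100), (7, 27)]))) (.add (.mul (.g 12) (.mul (.pp [(1,
 11761800)]) (.sq [(1, -5), (2, -33), (3, -84), (5, 100), (7, 86)]))) (.mul (.g 16) (.pp [(1,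
 321734400000)]))))))) (.mul (.g 11) (.add (.add (.add (.mul (.g 15) (.add (.add (.pp [(1,
 8982000000)]) (.add (.mul (.pp [(1, 411900)]) (.sq [(1, 54), (2, 56), (3, 12), (5, 100), (7,
 31)])) (.mul (.pp [(1, 2183700)]) (.sq [(1, 77), (2, -100), (3, -81)])))) (.add (.mul (.g 8) (.add
 (.mul (.g 7) (.pp [(1, 378834000000)])) (.mul (.g 10) (.pp [(1, 475974000000)])))) (.add (.mul (.g
 9) (.mul (.g 9) (.pp [(1, 47040000000)]))) (.mul (.g 10) (.pp [(1, 234966000000)])))))) (.mul (.g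
 6) (.add (.pp [(1, 45096840000)]) (.mul (.g 7) (.add (.mul (.g 10) (.pp [(1, 15180000000)])) (.mul
 (.g 11) (.pp [(1, 22388400000)]))))))) (.add (.mul (.g 8) (.add (.mul (.g 8) (.mul (.g 8) (.pp
 [(1, 136848000000)]))) (.mul (.g 9) (.mul (.g 9) (.pp [(1, 410532000000)]))))) (.mul (.g 10) (.mul
 (.g 10) (.add (.mul (.g 11) (.pp [(1, 91908000000)])) (.mul (.g 16) (.pp [(1,
 180567600000)]))))))) (.add (.add (.mul (.g 12) (.add (.mul (.pp [(1, 2973000)]) (.sq [(1, -39),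
 (2, 72), (3, 25), (5, 100), (7, -79)])) (.mul (.g 9) (.pp [(1, 39948000000)])))) (.mul (.g 14)
 (.add (.pp [(1, 42233400000)]) (.mul (.pp [(1, 442560)]) (.sq [(1, 100), (2, -17), (3, 11), (5,
 -81), (7, -33)]))))) (.add (.mul (.g 7) (.mul (.g 7) (.mul (.g 16) (.pp [(1, 34629600000)]))))
 (.mul (.g 13) (.mul (.pp [(1, 9698400)]) (.sq [(1, 100), (2, 8), (3, 24), (5, -70), (7,
 -51)])))))))) (.add (.mul (.g 6) (.add (.add (.mul (.g 7) (.add (.mul (.g 7) (.mul (.g 16) (.pp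
 [(1, 2652264000)]))) (.add (.mul (.g 10) (.mul (.g 10) (.pp [(1, 3538800000)]))) (.mul (.g 12)
 (.pp [(1, 47592720000)]))))) (.mul (.g 10) (.add (.mul (.g 9) (.mul (.g 16) (.pp [(1,
 2775816000)]))) (.mul (.g 10) (.mul (.g 15) (.pp [(1, 14874840000)])))))) (.add (.mul (.g 6) (.mul
 (.g 6) (.mul (.g 8) (.pp [(1, 20512464)])))) (.mul (.g 13) (.mul (.pp [(1, 816108)]) (.sq [(1,
 -19), (2, -52), (3, -62), (5, 89), (7, -100)])))))) (.add (.mul (.g 15) (.add (.add (.pp [(1,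
 522906000000)]) (.mul (.g 14) (.add (.mul (.pp [(1, 310725)]) (.sq [(1, -94), (2, -45), (3,
 100)])) (.mul (.pp [(1, 199440)]) (.sq [(1, 17), (2, -10), (3, 34), (5, 100), (7, -88)]))))) (.add
 (.mul (.g 7) (.mul (.g 8) (.pp [(1, 2672103000000)]))) (.add (.mul (.g 12) (.pp [(1,
 128922000000)])) (.mul (.g 13) (.mul (.pp [(1, 1473300)]) (.sq [(1, 13), (2, 7), (3, 35), (5,
 100), (7, -81)]))))))) (.mul (.g 16) (.add (.add (.mul (.g 8) (.add (.mul (.pp [(1, 517440)]) (.sq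
 [(1, 63), (2, 100), (3, 48), (5, 75), (7, 75)])) (.mul (.g 16) (.mul (.g 16) (.pp [(1,
 14962128000)]))))) (.mul (.g 7) (.mul (.g 14) (.pp [(1, 5883780000)])))) (.add (.mul (.g 10) (.mul
 (.pp [(1, 1037760)]) (.sq [(1, 23), (2, 100), (3, 20), (5, 36), (7, -88)]))) (.mul (.g 16) (.pp
 [(1, 62074080000)])))))))) (.add (.add (.mul (.g 12) (.add (.mul (.g 8) (.mul (.pp [(1, 5301000)])
 (.sq [(1, 29), (2, 78), (3, 90), (5, -100), (7, 38)]))) (.mul (.g 12) (.mul (.pp [(1, 5455800)])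
 (.sq [(1, -37), (2, -33), (3, -58), (5, 100), (7, 69)]))))) (.mul (.g 0) (.pp [(1, 1200000000)])))
 (.add (.mul (.g 2) (.pp [(1, 2000000000000)])) (.add (.mul (.g 4) (.pp [(1, 2000000000000)]))
 (.mul (.g 17) (.pp [(1, 2000000000)])))))) (.pp [(1, 9123970680), (2, 56146404), (3, 60373428),
 (4, 66582984), (5, 61812276), (6, 56836740), (7, 56162280), (8, 68461866), (9, 60230676), (10,
 52633908), (12, 49436691), (14, 50499960), (15, 62338704), (16, 60276600), (18, 59488104), (20,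
 35264475), (21, 67796040), (24, 51604200), (25, 65935548), (27, 54339284), (28, 52708440), (30,
 58752648), (35, 61023240), (36, 63172200), (40, 56457000), (42, 65637000), (45, 67255788), (49,
 68684160), (50, 81969348), (54, 55911600), (56, 56497200), (60, 73983600), (63, 60345240), (70,
 85465560), (75, 52453860), (81, 68810100), (84, 56344800), (90, 84199800), (98, 71477760), (100,
 69081600), (105, 58596240), (125, 49795476), (126, 58410000), (135, 54923400), (140, 77007600),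
 (147, 42669780), (150, 49344000), (175, 54982680), (189, 65761800), (196, 62217600), (210,
 63016200), (225, 52710300), (245, 50420580), (250, 52183200), (294, 51880200), (315, 52746000),
 (343, 57630240), (350, 38367000), (375, 67528200), (441, 67477500), (490, 54034800), (525,
 58587600), (625, 63000000), (686, 52015800), (735, 66891000), (875, 66501600), (1029, 63804000),
 (1225, 61119300), (1715, 65104800), (2401, 60516000)])))))))))
 (.cut 450 [(2, 1), (3, -1)] (.add (.add (.mul (.g 1) (.pp [(1, 310)])) (.mul (.g 9) (.pp [(1,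
 140)]))) (.add (.mul (.g 8) (.pp [(1, 7)])) (.mul (.g 0) (.pp [(1, 9)])))) (.rule 0 (.cut 450 [(2,
 -1), (5, 1)] (.add (.mul (.g 9) (.pp [(1, 310)])) (.add (.mul (.g 10) (.pp [(1, 7)])) (.mul (.g 2)
 (.pp [(1, 9)])))) (.rule 3 (.leaf 30000000 (.add (.add (.add (.add (.mul (.g 16) (.add (.add (.mul
 (.g 8) (.add (.add (.mul (.g 7) (.add (.add (.pp [(1, 6000000)]) (.mul (.g 7) (.pp [(1,
 3000000)]))) (.add (.mul (.g 8) (.pp [(1, 3000000)])) (.add (.mul (.g 11) (.pp [(1, 3000000)]))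
 (.mul (.g 13) (.pp [(1, 3000000)])))))) (.mul (.g 5) (.add (.pp [(1, 163928100000)]) (.add (.mul
 (.g 8) (.pp [(1, 108183000000)])) (.mul (.g 9) (.pp [(1, 7386300000)])))))) (.add (.mul (.g 8)
 (.add (.pp [(1, 6000000)]) (.mul (.g 8) (.pp [(1, 3000000)])))) (.add (.mul (.g 4) (.pp [(1,
 155472000)])) (.mul (.g 14) (.pp [(1, 11160000)])))))) (.add (.mul (.g 5) (.add (.add (.pp [(1,
 40387200000)]) (.mul (.g 5) (.add (.mul (.g 5) (.pp [(1, 17678700000)])) (.add (.mul (.g 14) (.pp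
 [(1, 6634920000)])) (.mul (.g 16) (.pp [(1, 64370700000)])))))) (.add (.mul (.g 4) (.add (.mul (.g
 6) (.pp [(1, 9588000)])) (.mul (.g 7) (.pp [(1, 11718000)])))) (.add (.mul (.g 6) (.pp [(1,
 169500000)])) (.mul (.g 7) (.mul (.g 9) (.pp [(1, 58200000)]))))))) (.mul (.g 7) (.add (.mul (.g
 6) (.add (.pp [(1, 3591900000)]) (.mul (.g 14) (.pp [(1, 92220000)])))) (.add (.mul (.g 4) (.mul
 (.g 7) (.pp [(1, 49362000)]))) (.mul (.g 10) (.pp [(1, 330600000)]))))))) (.add (.add (.mul (.g 4)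
 (.pp [(1, 99234000)])) (.mul (.g 6) (.mul (.g 6) (.mul (.g 6) (.pp [(1, 2160000000)]))))) (.add
 (.mul (.g 13) (.pp [(1, 725100000)])) (.mul (.g 14) (.pp [(1, 209460000)])))))) (.mul (.g 6) (.add
 (.add (.mul (.g 8) (.add (.add (.mul (.g 5) (.add (.mul (.g 8) (.pp [(1, 100311300000)])) (.mul
 (.g 9) (.pp [(1, 170122500000)])))) (.mul (.g 6) (.add (.mul (.g 8) (.pp [(1, 299400000)])) (.mul
 (.g 13) (.pp [(1, 2773500000)]))))) (.add (.mul (.g 7) (.add (.mul (.g 9) (.pp [(1, 3042000000)]))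
 (.mul (.g 10) (.pp [(1, 2465100000)])))) (.mul (.g 10) (.mul (.g 14) (.pp [(1, 1075860000)]))))))
 (.add (.mul (.g 4) (.add (.add (.mul (.pp [(1, 699)]) (.sq [(1, 56), (2, 100), (3, 69), (5, 93),
 (7, 93)])) (.mul (.g 5) (.mul (.g 5) (.pp [(1, 1943970000)])))) (.add (.mul (.g 7) (.mul (.g 7)
 (.pp [(1, 43068000)]))) (.mul (.g 14) (.mul (.g 14) (.pp [(1, 8214240)])))))) (.mul (.g 5) (.add
 (.mul (.g 10) (.pp [(1, 37818600000)])) (.mul (.g 13) (.pp [(1, 180238200000)])))))) (.add (.mul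
 (.g 6) (.mul (.g 6) (.add (.mul (.g 6) (.pp [(1, 228444900000)])) (.mul (.g 14) (.pp [(1,
 43170660000)]))))) (.add (.mul (.g 9) (.add (.pp [(1, 5465400000)]) (.mul (.g 7) (.mul (.g 7) (.pp
 [(1, 24600000)]))))) (.mul (.g 13) (.mul (.g 13) (.pp [(1, 2090550000)])))))))) (.add (.mul (.g 7)
 (.add (.mul (.g 7) (.add (.mul (.g 13) (.add (.add (.pp [(1, 32550000)]) (.mul (.g 4) (.pp [(1,
 366000)]))) (.add (.mul (.g 8) (.pp [(1, 3000000)])) (.mul (.g 11) (.pp [(1, 3000000)]))))) (.add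
 (.mul (.g 9) (.add (.mul (.g 5) (.pp [(1, 9000000)])) (.mul (.g 11) (.pp [(1, 12000000)])))) (.mul
 (.g 10) (.pp [(1, 3900000)]))))) (.add (.mul (.g 9) (.add (.mul (.g 8) (.add (.mul (.g 12) (.pp
 [(1, 44835000)])) (.mul (.g 13) (.pp [(1, 887850000)])))) (.mul (.g 5) (.mul (.g 5) (.pp [(1,
 3000000)]))))) (.mul (.g 13) (.add (.mul (.g 4) (.mul (.g 13) (.pp [(1, 306000)]))) (.mul (.g 10)
 (.pp [(1, 21900000)]))))))) (.add (.mul (.g 5) (.add (.mul (.g 9) (.add (.mul (.g 5) (.add (.mul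
 (.g 4) (.pp [(1, 353514000)])) (.add (.mul (.g 5) (.pp [(1, 3933000000)])) (.mul (.g 8) (.pp [(1,
 9519300000)]))))) (.mul (.g 8) (.mul (.g 13) (.pp [(1, 817500000)]))))) (.add (.mul (.g 4) (.add
 (.mul (.g 11) (.pp [(1, 1191558000)])) (.mul (.g 12) (.pp [(1, 12966000)])))) (.mul (.g 13) (.pp
 [(1, 5944500000)]))))) (.mul (.g 4) (.add (.mul (.g 8) (.mul (.g 8) (.mul (.g 9) (.pp [(1,
 157374000)])))) (.mul (.g 12) (.pp [(1, 3872700)]))))))) (.add (.add (.mul (.g 0) (.pp [(1,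
 100000000000)])) (.mul (.g 2) (.pp [(1, 100000000000)]))) (.add (.mul (.g 9) (.mul (.g 12) (.pp
 [(1, 236460000)]))) (.add (.mul (.g 13) (.pp [(1, 4879800000)])) (.mul (.g 15) (.pp [(1,
 100000000)])))))) (.pp [(1, 958562100), (2, 3096000), (3, 2621832), (4, 2808000), (5, 2922000),
 (6, 2936400), (7, 2934000), (8, 2898000), (9, 3231696), (10, 2928000), (12, 3720000), (14,
 3000000), (15, 3394512), (16, 3000000), (18, 2832600), (19, 300000000000), (20, 2832000), (21,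
 3238512), (24, 3000000), (25, 3066000), (27, 3196027), (28, 3240000), (30, 2884200), (35,
 3015000), (36, 2700000), (40, 3000000), (42, 3286200), (45, 2940438), (49, 3006000), (50,
 3144000), (54, 2910000), (56, 3000000), (60, 3000000), (63, 2862438), (70, 2811000), (75,
 3016443), (81, 2596950), (84, 2700000), (90, 2970000), (98, 3018000), (100, 3000000), (105,
 2870886), (125, 2970000), (126, 2970000), (135, 2748300), (140, 3300000), (147, 2980443), (150,
 3000000), (175, 3084000), (189, 2748300), (196, 3000000), (210, 2850000), (225, 2882550), (245,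
 3000000), (250, 3000000), (294, 3000000), (315, 2765100), (343, 3000000), (350, 2850000), (375,
 3000000), (441, 2882550), (490, 3000000), (525, 3000000), (625, 3000000), (686, 3000000), (735,
 3000000), (875, 3000000), (1029, 3000000), (1225, 3000000), (1715, 3000000), (2401,
 3000000)]))))))))
 (P_c0 ++ xP_A_F3) = true := by decide +kernel

theorem t_A_F5a_c3 : chk ROp gP_A_F5a
 (.cut 1 [(2, -1), (3, 1)] (.add (.mul (.g 9) (.pp [(1, 1)])) (.mul (.g 4) (.pp [(1, 1)]))) (.rule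
 1 (.cut 1 [(2, 1), (5, -1)] (.add (.mul (.g 10) (.pp [(1, 1)])) (.mul (.g 1) (.pp [(1, 1)])))
 (.rule 2 (.cut 11 [(1, -69), (3, 100)] (.add (.mul (.g 1) (.pp [(1, 620)])) (.add (.mul (.g 11)
 (.pp [(1, 31)])) (.mul (.g 13) (.pp [(1, 480)])))) (.cut 1 [(1, 3), (3, -2)] (.add (.add (.mul (.g
 10) (.pp [(1, 1)])) (.mul (.g 16) (.pp [(1, 1)]))) (.add (.mul (.g 7) (.pp [(1, 1)])) (.mul (.g 9)
 (.pp [(1, 1)])))) (.rule 8 (.rule 15 (.leaf 33000000 (.add (.add (.add (.add (.mul (.g 9) (.add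
 (.add (.mul (.g 10) (.add (.add (.mul (.g 9) (.add (.mul (.g 17) (.pp [(1, 107456580000)])) (.mul
 (.g 20) (.pp [(1, 22256520000)])))) (.mul (.g 13) (.add (.pp [(1, 33609840000)]) (.mul (.g 12)
 (.pp [(1, 53131320000)]))))) (.add (.mul (.g 19) (.add (.pp [(1, 18717930000)]) (.mul (.g 10) (.pp
 [(1, 59259420000)])))) (.mul (.g 20) (.mul (.g 20) (.pp [(1, 33430650000)])))))) (.add (.mul (.g
 12) (.add (.mul (.pp [(1, 2940729)]) (.sq [(1, 49), (2, -20), (3, 100), (5, 100)])) (.add (.mul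
 (.g 9) (.mul (.g 9) (.pp [(1, 5416290000)]))) (.mul (.g 14) (.mul (.g 14) (.pp [(1,
 23014860000)])))))) (.mul (.g 13) (.add (.mul (.g 8) (.mul (.g 19) (.pp [(1, 66825990000)])))
 (.mul (.g 16) (.pp [(1, 6639270000)])))))) (.add (.mul (.g 9) (.mul (.g 17) (.pp [(1,
 111743610000)]))) (.add (.mul (.g 15) (.mul (.g 15) (.pp [(1, 334539975)]))) (.mul (.g 19) (.pp
 [(1, 38834400000)])))))) (.add (.mul (.g 8) (.add (.add (.mul (.g 12) (.add (.add (.pp [(1,
 177942270000)]) (.mul (.g 12) (.add (.pp [(1, 9459450000)]) (.mul (.g 14) (.pp [(1,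
 7247790000)]))))) (.add (.mul (.g 8) (.mul (.g 16) (.pp [(1, 2635380000)]))) (.mul (.g 14) (.pp
 [(1, 9470010000)]))))) (.mul (.g 8) (.mul (.g 16) (.mul (.g 20) (.pp [(1, 8478030000)]))))) (.add
 (.mul (.g 13) (.mul (.g 15) (.pp [(1, 1103850000)]))) (.mul (.g 19) (.pp [(1, 91761780000)])))))
 (.mul (.g 10) (.add (.add (.mul (.g 10) (.add (.mul (.g 10) (.mul (.g 14) (.pp [(1,
 4319700000)]))) (.mul (.g 19) (.pp [(1, 124769370000)])))) (.mul (.g 16) (.add (.pp [(1,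
 67193280000)]) (.mul (.g 16) (.pp [(1, 80321340000)]))))) (.add (.mul (.g 12) (.mul (.g 13) (.mul
 (.g 14) (.pp [(1, 4316400000)])))) (.add (.mul (.g 17) (.pp [(1, 233721510000)])) (.mul (.g 19)
 (.mul (.pp [(1, 552123)]) (.sq [(1, 25), (2, 100), (3, 53), (5, 97)]))))))))) (.add (.mul (.g 17)
 (.add (.mul (.g 13) (.mul (.pp [(1, 238590)]) (.sq [(1, 23), (2, 41), (3, 100), (5, -87)]))) (.mul
 (.g 14) (.mul (.pp [(1, 1420221)]) (.sq [(1, 100), (2, -16), (3, 67), (5, 26)]))))) (.add (.mul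
 (.g 0) (.pp [(1, 10000000000)])) (.mul (.g 1) (.pp [(1, 33000000)]))))) (.add (.add (.mul (.g 4)
 (.pp [(1, 110000000000)])) (.add (.mul (.g 6) (.pp [(1, 110000000000)])) (.mul (.g 12) (.mul (.g
 12) (.mul (.pp [(1, 1251525)]) (.sq [(1, -34), (2, 100), (3, 57), (5, 11)])))))) (.add (.mul (.g
 15) (.mul (.g 20) (.pp [(1, 11938707000)]))) (.add (.mul (.g 18) (.pp [(1, 220000000)])) (.mul (.g
 19) (.pp [(1, 79945140000)])))))) (.pp [(1, 11199674210), (2, 3170650), (3, 3378376), (4,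
 3624830), (5, 3229535), (6, 3039179), (8, 3503214), (9, 3159585), (10, 3223220), (12, 3321340),
 (15, 2634445), (16, 3300000), (18, 3793097), (20, 3290298), (24, 3103386), (25, 3293015), (27,
 2814669), (30, 3960880), (36, 3250665), (40, 3135000), (45, 3622696), (50, 3938352), (54,
 3313893), (60, 3242052), (75, 2811424), (81, 3527931), (90, 3524400), (100, 3335475), (125,
 3316379), (135, 3345474), (150, 2920698), (225, 3171036), (250, 3300000), (375, 3393621), (625,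
 3300000)])))))))))))
 (P_c3 ++ xP_A_F5a) = true := by decide +kernel

theorem t_A_F5a_Op1 : chk ROp gP_A_F5a
 (.cut 1 [(2, -1), (3, 1)] (.add (.mul (.g 8) (.pp [(1, 1)])) (.mul (.g 4) (.pp [(1, 1)]))) (.rule
 1 (.cut 1 [(2, 1), (5, -1)] (.add (.mul (.g 10) (.pp [(1, 1)])) (.mul (.g 7) (.pp [(1, 1)])))
 (.rule 2 (.cut 11 [(1, -69), (3, 100)] (.add (.mul (.g 1) (.pp [(1, 620)])) (.add (.mul (.g 11)
 (.pp [(1, 31)])) (.mul (.g 12) (.pp [(1, 480)])))) (.cut 1 [(1, 3), (3, -2)] (.add (.add (.mul (.g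
 10) (.pp [(1, 1)])) (.mul (.g 15) (.pp [(1, 1)]))) (.add (.mul (.g 7) (.pp [(1, 1)])) (.mul (.g 9)
 (.pp [(1, 1)])))) (.rule 8 (.rule 15 (.leaf 66000 (.add (.add (.add (.add (.mul (.g 10) (.add
 (.add (.mul (.g 9) (.add (.add (.mul (.g 9) (.add (.mul (.g 12) (.pp [(1, 453261600)])) (.add
 (.mul (.g 16) (.pp [(1, 230010000)])) (.mul (.g 19) (.pp [(1, 157878600)]))))) (.mul (.g 12) (.add
 (.mul (.g 12) (.pp [(1, 26289780)])) (.mul (.g 14) (.pp [(1, 14917320)]))))) (.add (.mul (.g 8)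
 (.mul (.g 16) (.pp [(1, 237673920)]))) (.mul (.g 19) (.mul (.g 19) (.pp [(1, 33733920)]))))))
 (.mul (.g 10) (.add (.mul (.g 10) (.add (.mul (.g 14) (.pp [(1, 8639400)])) (.mul (.g 16) (.pp
 [(1, 21046080)])))) (.mul (.g 12) (.add (.mul (.g 14) (.pp [(1, 20741820)])) (.mul (.g 18) (.pp
 [(1, 35652540)]))))))) (.add (.mul (.g 8) (.add (.mul (.g 8) (.mul (.g 18) (.pp [(1, 33363000)])))
 (.add (.mul (.g 16) (.mul (.g 16) (.pp [(1, 230498400)]))) (.mul (.g 19) (.mul (.g 19) (.pp [(1,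
 29374620)])))))) (.add (.mul (.g 13) (.add (.pp [(1, 75257160)]) (.mul (.g 13) (.pp [(1,
 164396100)])))) (.mul (.g 18) (.pp [(1, 220604340)])))))) (.mul (.g 8) (.add (.add (.mul (.g 8)
 (.add (.mul (.g 8) (.add (.add (.pp [(1, 1453320)]) (.mul (.g 8) (.pp [(1, 71526180)]))) (.add
 (.mul (.g 18) (.pp [(1, 13200)])) (.mul (.g 19) (.pp [(1, 20755020)]))))) (.add (.mul (.g 14)
 (.mul (.g 18) (.pp [(1, 6600)]))) (.mul (.g 15) (.mul (.g 19) (.pp [(1, 1037421)])))))) (.mul (.g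
 16) (.add (.pp [(1, 509353680)]) (.mul (.g 16) (.add (.mul (.g 9) (.pp [(1, 638520300)])) (.mul
 (.g 16) (.pp [(1, 22185900)]))))))) (.add (.mul (.g 12) (.add (.mul (.g 9) (.mul (.g 19) (.pp [(1,
 12904320)]))) (.mul (.g 12) (.mul (.g 12) (.pp [(1, 71532780)]))))) (.mul (.g 13) (.mul (.g 14)
 (.pp [(1, 216071460)]))))))) (.add (.mul (.g 9) (.add (.mul (.g 9) (.add (.mul (.g 9) (.add (.mul
 (.g 12) (.pp [(1, 193070460)])) (.mul (.g 14) (.pp [(1, 7979400)])))) (.mul (.g 12) (.mul (.g 16)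
 (.pp [(1, 459662940)]))))) (.add (.mul (.g 13) (.pp [(1, 96586380)])) (.mul (.g 18) (.pp [(1,
 537575280)]))))) (.mul (.g 0) (.pp [(1, 20000000)])))) (.add (.add (.mul (.g 1) (.pp [(1,
 66000)])) (.mul (.g 4) (.pp [(1, 220000000)]))) (.add (.mul (.g 6) (.pp [(1, 220000000)])) (.add
 (.mul (.g 16) (.pp [(1, 52365720)])) (.mul (.g 17) (.pp [(1, 220000000)])))))) (.pp [(1,
 22399720), (2, 6800), (3, 6620), (4, 6589), (5, 6400), (6, 6160), (8, 6600), (9, 6600), (10,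
 6160), (12, 6380), (15, 6380), (16, 6600), (18, 6820), (20, 6171), (24, 6600), (25, 6820), (27,
 6600), (30, 7040), (36, 6600), (40, 6600), (45, 6380), (50, 7260), (54, 6600), (60, 6600), (75,
 7040), (81, 6600), (90, 6600), (100, 6600), (125, 6160), (135, 6600), (150, 6600), (225, 6600),
 (250, 6600), (375, 6600), (625, 6600)])))))))))))
 (P_Op1 ++ xP_A_F5a) = true := by decide +kernel

theorem t_A_F7_c3 : chk ROp gP_A_F7
 (.cut 1 [(2, -1), (3, 1)] (.add (.mul (.g 9) (.pp [(1, 1)])) (.mul (.g 4) (.pp [(1, 1)]))) (.rule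
 1 (.cut 1 [(2, 1), (5, -1)] (.add (.mul (.g 10) (.pp [(1, 1)])) (.mul (.g 1) (.pp [(1, 1)])))
 (.rule 2 (.cut 11 [(1, -69), (3, 100)] (.add (.mul (.g 1) (.pp [(1, 620)])) (.add (.mul (.g 11)
 (.pp [(1, 31)])) (.mul (.g 13) (.pp [(1, 480)])))) (.cut 1 [(1, 3), (3, -2)] (.add (.add (.mul (.g
 10) (.pp [(1, 1)])) (.mul (.g 16) (.pp [(1, 1)]))) (.add (.mul (.g 7) (.pp [(1, 1)])) (.add (.mul
 (.g 8) (.pp [(1, 1)])) (.mul (.g 9) (.pp [(1, 1)]))))) (.rule 8 (.rule 15 (.leaf 660000000 (.add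
 (.add (.add (.add (.mul (.g 11) (.add (.add (.add (.mul (.g 9) (.add (.add (.mul (.pp [(1,
 165000000)]) (.sq [(1, 50), (2, -8), (3, 22), (5, -45), (7, 33)])) (.mul (.g 10) (.add (.add (.pp
 [(1, 57010800000)]) (.mul (.g 9) (.pp [(1, 716053800000)]))) (.add (.mul (.g 10) (.pp [(1,
 2468221800000)])) (.mul (.g 13) (.pp [(1, 712885800000)])))))) (.add (.mul (.g 12) (.add (.mul (.g
 8) (.pp [(1, 302227200000)])) (.mul (.g 11) (.pp [(1, 193063200000)])))) (.add (.mul (.g 19) (.add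
 (.pp [(1, 6330350400000)]) (.mul (.g 13) (.pp [(1, 71385600000)])))) (.mul (.g 9) (.pp [(1,
 1634186400000)])))))) (.mul (.g 10) (.add (.add (.mul (.pp [(1, 77491920)]) (.sq [(1, 41), (2,
 -4), (3, 100), (5, -59), (7, 11)])) (.mul (.g 19) (.add (.pp [(1, 3290449800000)]) (.mul (.g 13)
 (.pp [(1, 184621800000)]))))) (.add (.mul (.g 14) (.pp [(1, 579763800000)])) (.mul (.g 17) (.pp
 [(1, 6481200000)])))))) (.add (.mul (.g 11) (.add (.add (.pp [(1, 2787015000000)]) (.mul (.g 12)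
 (.mul (.g 13) (.pp [(1, 358743000000)])))) (.add (.mul (.g 14) (.pp [(1, 2391899400000)])) (.mul
 (.g 17) (.mul (.g 19) (.pp [(1, 299442000000)])))))) (.mul (.g 8) (.add (.mul (.g 14) (.add (.pp
 [(1, 1539885600000)]) (.mul (.g 12) (.pp [(1, 14935800000)])))) (.mul (.g 8) (.mul (.g 17) (.pp
 [(1, 897692400000)]))))))) (.add (.add (.mul (.g 19) (.mul (.g 19) (.add (.pp [(1, 91918200000)])
 (.mul (.g 19) (.pp [(1, 66000000)]))))) (.mul (.g 13) (.mul (.pp [(1, 7015800)]) (.sq [(1, -63),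
 (2, 55), (3, 39), (5, 100), (7, -44)])))) (.add (.mul (.g 15) (.mul (.pp [(1, 408375)]) (.sq [(1,
 95), (2, -33), (3, -38), (5, -100), (7, 73)]))) (.add (.mul (.g 16) (.pp [(1, 1861008600000)]))
 (.mul (.g 17) (.mul (.pp [(1, 11342760)]) (.sq [(1, 94), (2, -15), (3, -50), (5, -81), (7,
 100)])))))))) (.add (.mul (.g 10) (.add (.add (.add (.mul (.g 17) (.add (.pp [(1, 3123054000000)])
 (.add (.mul (.g 10) (.add (.mul (.g 8) (.pp [(1, 150183000000)])) (.add (.mul (.g 9) (.pp [(1,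
 692181600000)])) (.mul (.g 17) (.pp [(1, 1084941000000)]))))) (.mul (.g 9) (.mul (.g 9) (.pp [(1,
 1475443200000)])))))) (.mul (.g 13) (.add (.pp [(1, 1298563200000)]) (.mul (.pp [(1, 5093220)])
 (.sq [(1, -100), (2, -57), (3, 91), (5, 91), (7, -14)]))))) (.add (.mul (.g 16) (.add (.pp [(1,
 1432992000000)]) (.mul (.g 16) (.pp [(1, 614344500000)])))) (.mul (.g 19) (.add (.mul (.pp [(1,
 13020480)]) (.sq [(1, 36), (2, 76), (3, 100), (5, 100), (7, 55)])) (.mul (.g 19) (.pp [(1,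
 2390005200000)])))))) (.add (.add (.mul (.g 8) (.mul (.g 8) (.mul (.g 10) (.pp [(1,
 79101000000)])))) (.mul (.g 9) (.mul (.pp [(1, 588901500)]) (.sq [(1, 12), (2, -9), (3, 6), (5,
 -16), (7, 20)])))) (.add (.mul (.g 12) (.mul (.pp [(1, 27725940)]) (.sq [(1, 3), (2, 32), (3,
 100), (5, -86), (7, 45)]))) (.mul (.g 15) (.mul (.pp [(1, 749463)]) (.sq [(1, 63), (2, -51), (3,
 -62), (5, -64), (7, 100)]))))))) (.mul (.g 9) (.add (.add (.mul (.g 12) (.add (.pp [(1,
 2670861600000)]) (.add (.mul (.pp [(1, 103884000)]) (.sq [(1, 51), (2, -21), (3, 100), (5, 100),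
 (7, 11)])) (.mul (.g 14) (.mul (.g 14) (.pp [(1, 45797400000)])))))) (.mul (.g 17) (.add (.pp [(1,
 2674775400000)]) (.add (.mul (.g 9) (.mul (.g 14) (.pp [(1, 825099000000)]))) (.mul (.g 13) (.mul
 (.g 15) (.pp [(1, 47965500000)]))))))) (.add (.mul (.g 19) (.add (.mul (.pp [(1, 828960)]) (.sq
 [(1, 100), (2, -56), (3, 42), (5, -100), (7, 41)])) (.mul (.g 19) (.pp [(1, 2124988800000)]))))
 (.add (.mul (.g 9) (.mul (.g 9) (.mul (.g 15) (.pp [(1, 26858370000)])))) (.mul (.g 16) (.mul (.g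
 16) (.pp [(1, 29874900000)]))))))))) (.add (.mul (.g 13) (.add (.add (.mul (.g 13) (.add (.mul (.g
 14) (.pp [(1, 1214822400000)])) (.mul (.g 15) (.mul (.g 16) (.pp [(1, 665775000)]))))) (.mul (.g
 8) (.pp [(1, 1212532200000)]))) (.add (.mul (.g 12) (.mul (.g 12) (.mul (.g 16) (.pp [(1,
 13315500000)])))) (.add (.mul (.g 15) (.mul (.pp [(1, 161337)]) (.sq [(1, 24), (2, -18), (3, -29),
 (5, -43), (7, 100)]))) (.mul (.g 17) (.mul (.pp [(1, 217800)]) (.sq [(1, 27), (2, 31), (3, -98),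
 (5, 74), (7, 100)]))))))) (.add (.mul (.g 19) (.add (.add (.pp [(1, 963032400000)]) (.mul (.pp
 [(1, 91582920)]) (.sq [(2, 74), (3, 59), (5, 59), (7, 100)]))) (.add (.mul (.g 8) (.add (.pp [(1,
 278447400000)]) (.mul (.g 12) (.mul (.g 17) (.pp [(1, 274645800000)]))))) (.add (.mul (.g 12)
 (.mul (.pp [(1, 7469550000)]) (.sq [(1, -2), (3, 1), (5, 1), (7, 2)]))) (.mul (.g 17) (.mul (.pp
 [(1, 153376080)]) (.sq [(1, -12), (2, -29), (3, 50), (5, 50), (7, -12)]))))))) (.mul (.g 8) (.mul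
 (.g 16) (.add (.pp [(1, 404741700000)]) (.mul (.g 14) (.pp [(1, 7751700000)])))))))) (.add (.add
 (.mul (.g 17) (.add (.pp [(1, 1003734600000)]) (.mul (.pp [(1, 250746540)]) (.sq [(2, -7), (3,
 28), (5, -34), (7, 100)])))) (.add (.mul (.g 0) (.pp [(1, 200000000000)])) (.mul (.g 1) (.pp [(1,
 660000000)])))) (.add (.add (.mul (.g 4) (.pp [(1, 2200000000000)])) (.mul (.g 6) (.pp [(1,
 2200000000000)]))) (.add (.mul (.g 12) (.mul (.g 12) (.mul (.pp [(1, 39337320)]) (.sq [(1, -4),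
 (2, 5), (3, 100), (5, 1), (7, -99)])))) (.mul (.g 18) (.pp [(1, 4400000000)])))))) (.pp [(1,
 127635905608), (2, 65578856), (3, 58836776), (4, 61782160), (5, 63203083), (6, 71650348), (7,
 68853015), (8, 60433692), (9, 70962969), (10, 68064502), (12, 71692940), (14, 63248130), (15,
 60578606), (16, 62030760), (18, 68244121), (20, 79704339), (21, 54580680), (24, 79407240), (25,
 62394541), (27, 59474547), (28, 71543175), (30, 37202594), (35, 72823740), (36, 50679420), (40,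
 79248840), (42, 58405380), (45, 74425373), (49, 52845210), (50, 46932369), (54, 72926040), (56,
 63495300), (60, 35210340), (63, 79409220), (70, 72192120), (75, 79527173), (81, 67024980), (84,
 67880340), (90, 106549740), (98, 75206010), (100, 49567980), (105, 60830880), (125, 68595175),
 (126, 71307720), (135, 59767620), (140, 65138700), (147, 79575540), (150, 96439200), (175,
 51460200), (189, 62817480), (196, 70783680), (210, 74545680), (225, 54880980), (245, 75252540),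
 (250, 78161820), (294, 57489960), (315, 82245240), (343, 74129055), (350, 69975840), (375,
 60751020), (441, 65743920), (490, 63742140), (525, 79610520), (625, 62688120), (686, 63818700),
 (735, 75947520), (875, 73465920), (1029, 65018580), (1225, 67523280), (1715, 68410980), (2401,
 66000000)])))))))))))
 (P_c3 ++ xP_A_F7) = true := by decide +kernel

theorem t_A_F7_Op0 : chk ROp gP_A_F7
 (.split [(1, -69), (3, 100)]
 (.split [(2, 1), (3, -1)]
 (.split [(2, 1), (5, -1)]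
 (.rule 0 (.rule 2 (.cut 1 [(1, 3), (3, -2)] (.add (.add (.mul (.g 3) (.pp [(1, 2)])) (.mul (.g 9)
 (.pp [(1, 3)]))) (.add (.mul (.g 7) (.pp [(1, 1)])) (.mul (.g 2) (.pp [(1, 1)])))) (.rule 8 (.leaf
 60000000 (.add (.add (.add (.add (.mul (.g 10) (.add (.add (.mul (.g 8) (.add (.add (.mul (.g 9)
 (.add (.add (.mul (.g 4) (.pp [(1, 68857800000)])) (.mul (.g 8) (.pp [(1, 684600000)]))) (.add
 (.mul (.g 9) (.pp [(1, 68197800000)])) (.mul (.g 10) (.pp [(1, 183599400000)]))))) (.add (.mul (.g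
 7) (.add (.pp [(1, 183937800000)]) (.add (.mul (.g 11) (.pp [(1, 106703400000)])) (.mul (.g 17)
 (.pp [(1, 35851200000)]))))) (.mul (.g 5) (.add (.mul (.g 8) (.pp [(1, 184200000)])) (.mul (.g 11)
 (.pp [(1, 139179600000)])))))) (.add (.mul (.g 8) (.pp [(1, 25198800000)])) (.add (.mul (.g 10)
 (.mul (.g 11) (.pp [(1, 312045600000)]))) (.mul (.g 14) (.pp [(1, 6691470000)])))))) (.add (.mul
 (.g 17) (.add (.add (.pp [(1, 104650800000)]) (.mul (.pp [(1, 69000)]) (.sq [(1, 100), (2, 81),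
 (3, 81), (5, 81), (7, 81)]))) (.add (.mul (.g 7) (.add (.mul (.g 7) (.pp [(1, 58539000000)]))
 (.mul (.g 11) (.pp [(1, 153913800000)])))) (.add (.mul (.g 4) (.mul (.g 10) (.pp [(1,
 1855200000)]))) (.mul (.g 5) (.mul (.g 15) (.pp [(1, 808200000)]))))))) (.mul (.g 9) (.add (.mul
 (.g 9) (.add (.pp [(1, 21520800000)]) (.add (.mul (.g 7) (.pp [(1, 35704800000)])) (.mul (.g 9)
 (.pp [(1, 11400000)]))))) (.mul (.g 10) (.add (.pp [(1, 16188600000)]) (.mul (.g 11) (.pp [(1,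
 51553800000)])))))))) (.add (.mul (.g 4) (.add (.pp [(1, 9199800000)]) (.mul (.g 10) (.add (.mul
 (.g 5) (.pp [(1, 93158400000)])) (.mul (.g 6) (.pp [(1, 2758134000)])))))) (.add (.mul (.g 5)
 (.add (.pp [(1, 163068600000)]) (.mul (.g 7) (.mul (.g 11) (.pp [(1, 13629600000)]))))) (.mul (.g
 6) (.pp [(1, 3866502000)])))))) (.add (.mul (.g 11) (.add (.add (.add (.mul (.g 6) (.add (.pp [(1,
 499548000)]) (.mul (.g 5) (.mul (.g 17) (.pp [(1, 583158000)]))))) (.mul (.g 7) (.add (.mul (.pp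
 [(1, 3235800)]) (.sq [(1, -13), (2, 38), (3, 100), (5, -45), (7, -73)])) (.mul (.g 7) (.mul (.g
 13) (.pp [(1, 11661600000)])))))) (.add (.mul (.g 9) (.add (.pp [(1, 45115200000)]) (.mul (.g 9)
 (.mul (.g 9) (.pp [(1, 11168400000)]))))) (.mul (.g 12) (.add (.mul (.pp [(1, 9679500)]) (.sq [(1,
 46), (2, -39), (3, 33), (5, -21), (7, 100)])) (.mul (.pp [(1, 5897880)]) (.sq [(1, 17), (2, -66),
 (3, 75), (5, -7), (7, -100)])))))) (.add (.add (.mul (.g 8) (.pp [(1, 33132000000)])) (.mul (.g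
 13) (.mul (.g 13) (.pp [(1, 74679000000)])))) (.add (.mul (.g 15) (.mul (.pp [(1, 1300320)]) (.sq
 [(1, -23), (2, 97), (3, -44), (5, 30), (7, 100)]))) (.mul (.g 17) (.mul (.pp [(1, 501600)]) (.sq
 [(1, -29), (2, 100), (3, -22), (5, 33), (7, -93)]))))))) (.mul (.g 4) (.add (.add (.pp [(1,
 571800000)]) (.add (.mul (.g 7) (.add (.pp [(1, 192468600000)]) (.mul (.g 13) (.add (.pp [(1,
 32443800000)]) (.mul (.g 15) (.pp [(1, 16622400000)])))))) (.mul (.g 4) (.add (.mul (.g 9) (.pp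
 [(1, 169923000000)])) (.mul (.g 13) (.pp [(1, 23458200000)])))))) (.add (.mul (.g 8) (.add (.pp
 [(1, 200571000000)]) (.mul (.g 6) (.mul (.g 8) (.pp [(1, 706980000)]))))) (.add (.mul (.g 9) (.pp
 [(1, 154439400000)])) (.mul (.g 14) (.mul (.pp [(1, 261)]) (.sq [(1, -45), (2, -8), (3, -86), (7,
 100)]))))))))) (.add (.mul (.g 5) (.add (.mul (.g 5) (.add (.mul (.pp [(1, 106740)]) (.sq [(1,
 43), (2, -82), (3, 49), (5, -23), (7, 100)])) (.add (.mul (.pp [(1, 8754720)]) (.sq [(1, 100), (2,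
 -67), (3, 67), (5, 33)])) (.mul (.g 14) (.add (.pp [(1, 1517010000)]) (.mul (.g 15) (.pp [(1,
 1180290000)]))))))) (.add (.mul (.g 12) (.add (.mul (.g 13) (.pp [(1, 1828800000)])) (.mul (.g 14)
 (.pp [(1, 768780000)])))) (.mul (.g 17) (.mul (.pp [(1, 99600)]) (.sq [(1, 29), (2, 100), (3, 27),
 (5, 25), (7, 96)])))))) (.add (.mul (.g 8) (.add (.mul (.g 6) (.add (.pp [(1, 1073808000)]) (.mul
 (.g 6) (.mul (.g 9) (.pp [(1, 8151540)]))))) (.add (.mul (.g 8) (.add (.mul (.g 12) (.mul (.g 14)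
 (.pp [(1, 505500000)]))) (.mul (.g 13) (.mul (.g 15) (.pp [(1, 6046200000)]))))) (.mul (.g 14)
 (.mul (.pp [(1, 123)]) (.sq [(1, 5), (2, 4), (3, 63), (5, -59), (7, 100)])))))) (.mul (.g 17)
 (.add (.mul (.pp [(1, 21148080)]) (.sq [(2, 39), (3, 39), (5, 50), (7, 50)])) (.add (.mul (.g 7)
 (.add (.mul (.pp [(1, 424740)]) (.sq [(1, 70), (2, 100), (3, 95), (5, 95), (7, 67)])) (.mul (.g 7)
 (.mul (.g 9) (.pp [(1, 7726800000)]))))) (.mul (.g 17) (.mul (.pp [(1, 86160)]) (.sq [(1, -37),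
 (2, 100), (3, -37), (5, -77), (7, 72)]))))))))) (.add (.add (.mul (.g 12) (.mul (.g 14) (.add
 (.mul (.pp [(1, 60)]) (.sq [(1, 40), (2, 29), (3, 15), (5, 70), (7, 100)])) (.mul (.g 7) (.mul (.g
 12) (.pp [(1, 329880000)])))))) (.add (.mul (.g 0) (.pp [(1, 60000000)])) (.mul (.g 2) (.pp [(1,
 200000000000)])))) (.add (.mul (.g 3) (.pp [(1, 200000000000)])) (.add (.mul (.g 6) (.mul (.g 6)
 (.pp [(1, 5505660)]))) (.mul (.g 16) (.pp [(1, 200000000000)])))))) (.pp [(1, 11603251500), (2,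
 5679165), (3, 6372195), (4, 5725200), (5, 6446355), (6, 6817740), (7, 6203760), (8, 6611116), (9,
 5536410), (10, 5984760), (12, 5546256), (14, 5901000), (15, 6893910), (16, 5865420), (18,
 6094812), (20, 6394104), (21, 6258600), (24, 6507420), (25, 6074400), (27, 5940923), (28,
 5119080), (30, 7190592), (35, 5916840), (36, 4926840), (40, 6275340), (42, 6588360), (45,
 4681158), (49, 5764560), (50, 6542460), (54, 5987700), (56, 5841600), (60, 4457040), (63,
 5755920), (70, 7417800), (75, 5567967), (81, 5724000), (84, 3633000), (90, 5549940), (98,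
 4454340), (100, 5412240), (105, 5798040), (125, 6249620), (126, 6081900), (135, 6611460), (140,
 5310000), (147, 6391200), (150, 6309660), (175, 6010680), (189, 5880600), (196, 5683200), (210,
 6307200), (225, 6073320), (245, 6801360), (250, 6256380), (294, 6644460), (315, 4992720), (343,
 5996760), (350, 6362100), (375, 5716740), (441, 5601480), (490, 6123000), (525, 5217720), (625,
 5880000), (686, 6147060), (735, 4500480), (875, 5400000), (1029, 5967000), (1225, 6066360), (1715,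
 5560080), (2401, 6055560)])))))))
 (.rule 0 (.rule 3 (.cut 31 [(1, 3), (3, -2)] (.add (.mul (.g 3) (.pp [(1, 162)])) (.add (.mul (.g
 9) (.pp [(1, 162)])) (.mul (.g 4) (.pp [(1, 1)])))) (.rule 8 (.leaf 6000000000 (.add (.add (.add
 (.add (.mul (.pp [(1, 15860736000)]) (.sq [(1, 3), (2, 3), (3, 25), (5, -19)])) (.add (.mul (.g
 10) (.add (.add (.add (.mul (.g 10) (.add (.add (.mul (.g 10) (.add (.pp [(1, 2488560000000)])
 (.add (.mul (.g 8) (.pp [(1, 2239680000000)])) (.mul (.g 17) (.pp [(1, 600000000)]))))) (.mul (.g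
 9) (.add (.mul (.g 6) (.pp [(1, 64999200000)])) (.mul (.g 14) (.pp [(1, 91302000000)]))))) (.add
 (.mul (.g 11) (.add (.mul (.g 8) (.pp [(1, 6172380000000)])) (.mul (.g 13) (.pp [(1,
 2583000000000)])))) (.mul (.g 17) (.add (.pp [(1, 10515180000000)]) (.mul (.g 7) (.pp [(1,
 137460000000)]))))))) (.mul (.g 5) (.add (.mul (.g 4) (.add (.mul (.g 4) (.pp [(1,
 2719680000000)])) (.mul (.g 8) (.pp [(1, 4264380000000)])))) (.add (.mul (.g 11) (.add (.pp [(1,
 22093200000000)]) (.mul (.g 13) (.pp [(1, 178860000000)])))) (.mul (.g 5) (.mul (.g 17) (.pp [(1,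
 342240000000)]))))))) (.add (.mul (.g 12) (.add (.add (.pp [(1, 273900000000)]) (.mul (.pp [(1,
 217704000)]) (.sq [(1, 8), (2, -1), (3, 50), (5, 38), (7, -44)]))) (.add (.mul (.g 4) (.mul (.g 7)
 (.pp [(1, 805740000000)]))) (.mul (.g 8) (.mul (.g 8) (.pp [(1, 3202860000000)])))))) (.mul (.g 6)
 (.add (.pp [(1, 225919800000)]) (.mul (.g 9) (.pp [(1, 87972600000)])))))) (.add (.add (.mul (.g
 17) (.add (.mul (.g 7) (.pp [(1, 29292000000000)])) (.mul (.g 9) (.pp [(1, 3559260000000)]))))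
 (.mul (.g 4) (.mul (.pp [(1, 82812000)]) (.sq [(1, 10), (2, 27), (3, -76), (5, 12), (7, 100)]))))
 (.add (.mul (.g 8) (.mul (.g 8) (.mul (.g 13) (.pp [(1, 2215320000000)])))) (.add (.mul (.g 11)
 (.pp [(1, 7470000000000)])) (.mul (.g 15) (.mul (.pp [(1, 181818000)]) (.sq [(1, -3), (2, -31),
 (3, -70), (5, 38), (7, 100)])))))))) (.mul (.g 12) (.add (.add (.add (.mul (.g 9) (.add (.add (.pp
 [(1, 1351740000000)]) (.mul (.g 4) (.add (.mul (.g 7) (.pp [(1, 4564020000000)])) (.add (.mul (.g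
 9) (.pp [(1, 218520000000)])) (.mul (.g 12) (.pp [(1, 2583660000000)])))))) (.add (.mul (.g 9)
 (.add (.mul (.g 9) (.pp [(1, 1697280000000)])) (.mul (.g 13) (.pp [(1, 2371200000000)])))) (.mul
 (.g 7) (.mul (.g 12) (.pp [(1, 11713860000000)])))))) (.mul (.g 7) (.add (.pp [(1, 186180000000)])
 (.add (.mul (.g 4) (.mul (.g 14) (.pp [(1, 15849000000)]))) (.mul (.g 8) (.pp [(1,
 38381520000000)])))))) (.add (.mul (.g 5) (.add (.pp [(1, 10495740000000)]) (.mul (.g 8) (.pp [(1,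
 7296660000000)])))) (.mul (.g 4) (.mul (.g 4) (.mul (.g 12) (.pp [(1, 1378920000000)])))))) (.add
 (.add (.mul (.g 6) (.pp [(1, 23226000000)])) (.mul (.g 11) (.mul (.pp [(1, 11346000)]) (.sq [(1,
 -100), (2, 34), (3, 96), (5, 94), (7, 95)])))) (.add (.mul (.g 13) (.mul (.pp [(1, 34110000)])
 (.sq [(2, -19), (3, 65), (5, 48), (7, 100)]))) (.mul (.g 14) (.mul (.pp [(1, 14138400)]) (.sq [(1,
 9), (2, -32), (3, 56), (5, 13), (7, -100)]))))))))) (.add (.add (.mul (.g 11) (.add (.add (.mul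
 (.pp [(1, 254442000)]) (.sq [(1, -28), (2, 40), (3, -33), (5, 50), (7, 100)])) (.add (.mul (.g 5)
 (.add (.mul (.g 7) (.add (.mul (.g 5) (.pp [(1, 10572360000000)])) (.add (.mul (.g 7) (.pp [(1,
 4413960000000)])) (.mul (.g 11) (.pp [(1, 14954340000000)]))))) (.mul (.g 5) (.pp [(1,
 4325880000000)])))) (.mul (.g 11) (.add (.pp [(1, 9160980000000)]) (.add (.mul (.g 4) (.mul (.g 8)
 (.pp [(1, 7055640000000)]))) (.mul (.g 7) (.mul (.g 14) (.pp [(1, 70686000000)])))))))) (.add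
 (.mul (.g 6) (.add (.pp [(1, 90387600000)]) (.mul (.g 9) (.mul (.g 9) (.pp [(1,
 117971400000)]))))) (.add (.mul (.g 13) (.mul (.pp [(1, 97458000)]) (.sq [(1, -28), (2, -21), (3,
 -24), (5, 23), (7, 100)]))) (.mul (.g 17) (.mul (.pp [(1, 15420000)]) (.sq [(1, -100), (2, 21),
 (3, 61), (5, 94), (7, 94)]))))))) (.mul (.g 6) (.add (.mul (.g 5) (.add (.mul (.g 5) (.mul (.g 13)
 (.pp [(1, 36222600000)]))) (.mul (.g 9) (.mul (.g 17) (.pp [(1, 2361600000)]))))) (.add (.mul (.g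
 6) (.mul (.g 6) (.add (.mul (.g 6) (.pp [(1, 32469)])) (.mul (.g 7) (.pp [(1, 7698840)]))))) (.mul
 (.g 8) (.mul (.g 8) (.add (.mul (.g 4) (.pp [(1, 29895600000)])) (.mul (.g 15) (.pp [(1,
 94531200000)]))))))))) (.add (.mul (.g 7) (.add (.mul (.pp [(1, 1055712000)]) (.sq [(1, 3), (2,
 3), (3, 25), (5, -19)])) (.add (.mul (.g 5) (.mul (.g 9) (.mul (.g 17) (.pp [(1,
 177840000000)])))) (.mul (.g 8) (.mul (.pp [(1, 5480640000)]) (.sq [(1, 3), (2, 3), (3, 25), (5,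
 -19)])))))) (.mul (.g 13) (.add (.mul (.pp [(1, 10085280000)]) (.sq [(1, 3), (2, 3), (3, 25), (5,
 -19)])) (.mul (.g 13) (.mul (.pp [(1, 1247040000)]) (.sq [(1, 3), (2, 3), (3, 25), (5,
 -19)])))))))) (.add (.add (.mul (.g 0) (.pp [(1, 6000000000)])) (.add (.mul (.g 2) (.pp [(1,
 20000000000000)])) (.mul (.g 3) (.pp [(1, 20000000000000)])))) (.add (.add (.mul (.g 4) (.mul (.g
 17) (.mul (.pp [(1, 40722000)]) (.sq [(1, 17), (2, 51), (3, 77), (5, -51), (7, 100)])))) (.mul (.g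
 5) (.mul (.g 5) (.mul (.pp [(1, 7302000)]) (.sq [(1, -6), (2, 37), (3, 90), (5, -100), (7,
 31)]))))) (.add (.mul (.g 8) (.mul (.g 8) (.mul (.pp [(1, 277572000)]) (.sq [(1, 12), (2, 12), (3,
 100), (5, -75)])))) (.mul (.g 16) (.pp [(1, 20000000000000)])))))) (.pp [(1, 18797389851), (2,
 617467560), (3, 515343600), (4, 564244800), (5, 509422800), (6, 731910000), (7, 499902000), (8,
 549260400), (9, 661714800), (10, 720964800), (12, 758923200), (14, 737442000), (15, 739364400),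
 (16, 585342000), (18, 311022000), (20, 767060400), (21, 736818000), (24, 611904000), (25,
 648672000), (27, 647452400), (28, 617958000), (30, 415411200), (35, 724506000), (36, 613314000),
 (40, 679242000), (42, 485400000), (45, 525544800), (49, 665646000), (50, 368553600), (54,
 642186000), (56, 599274000), (60, 448830000), (63, 538644000), (70, 510072000), (75, 510642000),
 (81, 568998000), (84, 676662000), (90, 636756000), (98, 567744000), (100, 444600000), (105,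
 458004000), (125, 602505600), (126, 578406000), (135, 671742000), (140, 562242000), (147,
 464514000), (150, 836736000), (175, 512676000), (189, 631440000), (196, 604716000), (210,
 560424000), (225, 587118000), (245, 539250000), (250, 673386000), (294, 631866000), (315,
 649266000), (343, 616176000), (350, 653826000), (375, 594114000), (441, 653178000), (490,
 613038000), (525, 665868000), (625, 615792000), (686, 633936000), (735, 598224000), (875,
 616770000), (1029, 574944000), (1225, 624624000), (1715, 574944000), (2401, 600000000)]))))))))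
 (.rule 1 (.rule 6 (.cut 1 [(1, 3), (3, -2)] (.add (.add (.mul (.g 9) (.pp [(1, 1)])) (.mul (.g 12)
 (.pp [(1, 1)]))) (.add (.mul (.g 6) (.pp [(1, 1)])) (.mul (.g 8) (.pp [(1, 1)])))) (.rule 8 (.leaf
 60000000 (.add (.add (.add (.add (.mul (.g 9) (.add (.add (.mul (.g 9) (.add (.add (.pp [(1,
 60444600000)]) (.add (.mul (.g 9) (.add (.add (.mul (.g 4) (.pp [(1, 60516600000)])) (.mul (.g 10)
 (.pp [(1, 294000000)]))) (.add (.mul (.g 12) (.pp [(1, 10200000)])) (.mul (.g 16) (.pp [(1,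
 6000000)]))))) (.mul (.g 8) (.add (.mul (.g 4) (.pp [(1, 26400000)])) (.add (.mul (.g 10) (.pp
 [(1, 13800000)])) (.mul (.g 13) (.pp [(1, 480000)]))))))) (.add (.mul (.g 16) (.add (.pp [(1,
 59542200000)]) (.mul (.g 4) (.pp [(1, 60807600000)])))) (.add (.mul (.g 5) (.mul (.g 6) (.pp [(1,
 707988000)]))) (.mul (.g 7) (.mul (.g 7) (.pp [(1, 60260400000)]))))))) (.add (.mul (.g 6) (.add
 (.add (.pp [(1, 35403000000)]) (.mul (.g 4) (.add (.mul (.g 7) (.pp [(1, 309318000000)])) (.add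
 (.mul (.g 8) (.pp [(1, 1296000000)])) (.mul (.g 14) (.pp [(1, 176992800000)])))))) (.add (.mul (.g
 6) (.add (.mul (.g 5) (.pp [(1, 1311606000)])) (.mul (.g 13) (.pp [(1, 40830000)])))) (.mul (.g
 16) (.add (.pp [(1, 309029400000)]) (.mul (.g 7) (.pp [(1, 131692200000)]))))))) (.mul (.g 8)
 (.add (.add (.mul (.g 8) (.add (.mul (.g 11) (.pp [(1, 7800000)])) (.mul (.g 16) (.pp [(1,
 12600000)])))) (.mul (.g 5) (.pp [(1, 112674000)]))) (.add (.mul (.g 7) (.mul (.g 11) (.pp [(1,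
 3600000)]))) (.mul (.g 16) (.pp [(1, 16200000)]))))))) (.add (.add (.mul (.g 5) (.add (.pp [(1,
 1397898000)]) (.add (.mul (.g 10) (.mul (.g 12) (.pp [(1, 12978000)]))) (.mul (.g 16) (.pp [(1,
 7350000)]))))) (.mul (.g 11) (.add (.pp [(1, 480000000)]) (.mul (.pp [(1, 1620)]) (.sq [(1, 9),
 (2, -80), (3, 81), (5, -32), (7, 100)]))))) (.add (.mul (.g 4) (.mul (.pp [(1, 900)]) (.sq [(1,
 7), (2, 30), (3, 18), (5, -9), (7, 100)]))) (.mul (.g 7) (.mul (.g 16) (.mul (.g 16) (.pp [(1,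
 288000000)])))))))) (.mul (.g 6) (.add (.mul (.g 11) (.add (.add (.pp [(1, 210459000000)]) (.mul
 (.g 8) (.add (.add (.pp [(1, 95893200000)]) (.mul (.g 6) (.pp [(1, 1436400000)]))) (.add (.mul (.g
 8) (.pp [(1, 12600000)])) (.mul (.g 14) (.pp [(1, 23400000)])))))) (.add (.mul (.g 6) (.mul (.g
 10) (.pp [(1, 11629200000)]))) (.add (.mul (.g 7) (.mul (.g 7) (.pp [(1, 18600000)]))) (.mul (.g
 12) (.pp [(1, 101279400000)])))))) (.add (.mul (.g 5) (.add (.add (.mul (.g 4) (.mul (.g 16) (.pp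
 [(1, 2076000)]))) (.mul (.g 5) (.mul (.g 14) (.pp [(1, 60840)])))) (.add (.mul (.g 7) (.pp [(1,
 1105014000)])) (.mul (.g 10) (.pp [(1, 3070662000)]))))) (.mul (.g 6) (.add (.mul (.g 4) (.add
 (.mul (.g 6) (.pp [(1, 3085800000)])) (.mul (.g 7) (.pp [(1, 4200000)])))) (.mul (.g 10) (.mul (.g
 12) (.pp [(1, 12963600000)]))))))))) (.add (.mul (.g 4) (.add (.add (.mul (.g 4) (.add (.pp [(1,
 81524400000)]) (.add (.mul (.g 4) (.mul (.g 16) (.pp [(1, 276000000)]))) (.mul (.g 8) (.pp [(1,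
 100707000000)]))))) (.add (.mul (.g 12) (.add (.mul (.g 7) (.add (.mul (.g 7) (.pp [(1,
 89646000000)])) (.mul (.g 14) (.pp [(1, 78658800000)])))) (.mul (.g 5) (.mul (.g 14) (.pp [(1,
 109866000)]))))) (.mul (.g 5) (.pp [(1, 1209216000)])))) (.add (.mul (.g 8) (.mul (.g 10) (.mul
 (.g 10) (.pp [(1, 3255000000)])))) (.add (.mul (.g 11) (.mul (.pp [(1, 1200000)]) (.sq [(1, 1),
 (2, 1), (5, -1)]))) (.mul (.g 16) (.pp [(1, 139659600000)])))))) (.add (.mul (.g 5) (.add (.add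
 (.mul (.g 5) (.add (.pp [(1, 7312740)]) (.mul (.g 7) (.mul (.g 14) (.pp [(1, 5212980)]))))) (.mul
 (.g 7) (.mul (.g 7) (.mul (.g 7) (.pp [(1, 523998000)]))))) (.add (.mul (.g 8) (.mul (.g 16) (.pp
 [(1, 125172000)]))) (.add (.mul (.g 11) (.pp [(1, 135900000)])) (.mul (.g 12) (.mul (.pp [(1, 9)])
 (.sq [(1, 19), (2, -75), (3, -15), (5, 100), (7, 51)]))))))) (.mul (.g 11) (.add (.add (.mul (.pp
 [(1, 600)]) (.sq [(2, 77), (3, 67), (5, 100), (7, 67)])) (.mul (.g 7) (.mul (.g 7) (.pp [(1,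
 185416800000)])))) (.add (.mul (.g 8) (.pp [(1, 1423200000)])) (.add (.mul (.g 12) (.mul (.pp [(1,
 420)]) (.sq [(1, 26), (2, 59), (3, 43), (5, 100), (7, 67)]))) (.mul (.g 13) (.mul (.pp [(1, 57)])
 (.sq [(1, 22), (2, -15), (3, 15), (5, -40), (7, 100)])))))))))) (.add (.add (.mul (.g 0) (.pp [(1,
 60000000)])) (.mul (.g 2) (.pp [(1, 200000000000)]))) (.add (.mul (.g 3) (.pp [(1,
 200000000000)])) (.add (.mul (.g 10) (.mul (.g 10) (.mul (.pp [(1, 174840)]) (.sq [(1, -69), (2,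
 100), (3, -58), (5, 90), (7, 15)])))) (.mul (.g 15) (.pp [(1, 200000000000)])))))) (.pp [(1,
 488979912), (2, 7154451), (3, 4877649), (4, 5195895), (5, 6318129), (6, 5984490), (7, 6156780),
 (8, 7511580), (9, 6862755), (10, 4952130), (12, 5052600), (14, 6209262), (15, 7207470), (16,
 5918520), (18, 6516840), (20, 6689260), (21, 5697978), (24, 5787540), (25, 5737560), (27,
 5473140), (28, 6512250), (30, 5851500), (35, 6239358), (36, 6516180), (40, 5166960), (42,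
 5986680), (45, 5332860), (49, 6231600), (50, 7209160), (54, 5529420), (56, 6422520), (60,
 7363980), (63, 6499050), (70, 6996390), (75, 4940520), (81, 6230580), (84, 5500800), (90,
 5181000), (98, 5220759), (100, 6290520), (105, 4782510), (125, 5542800), (126, 5824020), (135,
 6207660), (140, 5626560), (147, 6905241), (150, 4630080), (175, 5457480), (189, 5554260), (196,
 5266380), (210, 5261640), (225, 6445080), (245, 5897241), (250, 5676000), (294, 7246140), (315,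
 6507420), (343, 6000000), (350, 5792940), (375, 6492000), (441, 5148480), (490, 6057240), (525,
 6863940), (625, 6024000), (686, 6000000), (735, 5725860), (875, 5966880), (1029, 6000000), (1225,
 5917380), (1715, 6000000), (2401, 6000000)]))))))))
 (.split [(1, -7), (3, 50)]
 (.split [(2, 1), (3, -1)]
 (.split [(2, 1), (5, -1)]
 (.rule 0 (.rule 2 (.rule 7 (.leaf 300000000 (.add (.add (.add (.add (.mul (.g 10) (.add (.add
 (.add (.mul (.g 9) (.add (.add (.mul (.g 14) (.add (.add (.mul (.g 9) (.pp [(1, 5416500000)]))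
 (.mul (.g 10) (.pp [(1, 72016950000)]))) (.add (.mul (.g 12) (.pp [(1, 3506400000)])) (.mul (.g
 15) (.pp [(1, 5605200000)]))))) (.mul (.g 5) (.add (.pp [(1, 1439340000)]) (.add (.mul (.g 8) (.pp
 [(1, 14545140000)])) (.mul (.g 9) (.pp [(1, 1665240000)])))))) (.add (.mul (.g 6) (.add (.mul (.g
 4) (.pp [(1, 507990000)])) (.mul (.g 10) (.pp [(1, 6778650000)])))) (.mul (.g 10) (.mul (.g 11)
 (.pp [(1, 691962000000)])))))) (.mul (.g 10) (.add (.mul (.g 3) (.add (.mul (.g 5) (.pp [(1,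
 18142560000)])) (.add (.mul (.g 14) (.pp [(1, 75394950000)])) (.mul (.g 15) (.pp [(1,
 1408827000000)]))))) (.add (.mul (.g 11) (.add (.mul (.g 11) (.pp [(1, 886296000000)])) (.mul (.g
 13) (.pp [(1, 729693000000)])))) (.mul (.g 6) (.mul (.g 14) (.pp [(1, 29713500)]))))))) (.add
 (.mul (.g 4) (.add (.pp [(1, 1018971000000)]) (.add (.mul (.g 11) (.add (.pp [(1, 178986000000)])
 (.mul (.g 11) (.pp [(1, 266025000000)])))) (.mul (.g 4) (.mul (.g 8) (.pp [(1,
 239991000000)])))))) (.mul (.g 17) (.add (.pp [(1, 811887000000)]) (.add (.mul (.pp [(1,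
 1224900)]) (.sq [(1, 17), (2, -47), (3, -23), (5, -4), (7, 100)])) (.mul (.pp [(1, 3943500)]) (.sq
 [(1, 100), (2, 81), (3, 81), (5, 81), (7, 81)]))))))) (.add (.add (.mul (.g 8) (.add (.mul (.g 5)
 (.mul (.g 12) (.pp [(1, 6820380000)]))) (.mul (.g 8) (.mul (.g 8) (.pp [(1, 143433000000)])))))
 (.mul (.g 14) (.add (.pp [(1, 83104800000)]) (.mul (.g 7) (.pp [(1, 15723600000)]))))) (.add (.mul
 (.g 3) (.pp [(1, 1954332000000)])) (.mul (.g 12) (.mul (.pp [(1, 3006900)]) (.sq [(1, 63), (2, 3),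
 (3, -92), (5, -100), (7, 92)]))))))) (.mul (.g 11) (.add (.add (.mul (.g 4) (.add (.add (.mul (.g
 4) (.add (.pp [(1, 163440000000)]) (.mul (.g 9) (.pp [(1, 23847000000)])))) (.mul (.g 3) (.mul (.g
 11) (.pp [(1, 126471000000)])))) (.add (.mul (.g 7) (.pp [(1, 510666000000)])) (.mul (.g 9) (.mul
 (.g 9) (.pp [(1, 4398000000)])))))) (.add (.mul (.g 7) (.add (.mul (.g 5) (.add (.pp [(1,
 8702220000)]) (.mul (.g 11) (.pp [(1, 1180140000)])))) (.mul (.g 7) (.mul (.g 14) (.pp [(1,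
 557700000)]))))) (.mul (.g 11) (.add (.mul (.pp [(1, 1034100)]) (.sq [(1, -72), (2, 100), (3, 81),
 (5, 65), (7, 28)])) (.mul (.g 11) (.mul (.g 12) (.pp [(1, 147993000000)]))))))) (.add (.mul (.g
 14) (.add (.pp [(1, 41661150000)]) (.mul (.g 13) (.pp [(1, 2320200000)])))) (.add (.mul (.g 17)
 (.add (.pp [(1, 259254000000)]) (.mul (.pp [(1, 186000)]) (.sq [(1, -73), (2, 100), (3, -9), (5,
 73), (7, -7)])))) (.mul (.g 9) (.mul (.g 9) (.mul (.g 9) (.pp [(1, 60000000)]))))))))) (.add (.mul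
 (.g 3) (.add (.add (.pp [(1, 499143000000)]) (.add (.mul (.g 8) (.add (.pp [(1, 1417983000000)])
 (.mul (.g 8) (.add (.mul (.g 3) (.pp [(1, 125814000000)])) (.add (.mul (.g 8) (.pp [(1,
 128418000000)])) (.mul (.g 9) (.pp [(1, 132462000000)]))))))) (.mul (.g 7) (.add (.mul (.g 7) (.pp
 [(1, 445041000000)])) (.add (.mul (.g 13) (.pp [(1, 830700000000)])) (.mul (.g 14) (.mul (.g 15)
 (.pp [(1, 3871800000)])))))))) (.add (.mul (.g 9) (.add (.pp [(1, 163074000000)]) (.add (.mul (.g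
 3) (.pp [(1, 876624000000)])) (.mul (.g 9) (.mul (.g 9) (.pp [(1, 30000000)])))))) (.add (.mul (.g
 3) (.mul (.g 13) (.pp [(1, 123255000000)]))) (.mul (.g 15) (.mul (.pp [(1, 15376200)]) (.sq [(1,
 37), (2, -14), (3, -80), (5, 23), (7, 100)]))))))) (.add (.mul (.g 17) (.add (.add (.mul (.pp [(1,
 32811600)]) (.sq [(2, 39), (3, 39), (5, 50), (7, 50)])) (.add (.mul (.g 7) (.add (.mul (.pp [(1,
 7182000)]) (.sq [(1, 70), (2, 100), (3, 95), (5, 95), (7, 67)])) (.mul (.g 7) (.mul (.g 12) (.pp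
 [(1, 201912000000)]))))) (.mul (.g 5) (.mul (.g 5) (.mul (.g 8) (.pp [(1, 5155200)])))))) (.add
 (.mul (.g 6) (.mul (.pp [(1, 25107)]) (.sq [(1, -16), (2, 66), (3, 60), (5, 100), (7, -61)])))
 (.add (.mul (.g 9) (.mul (.g 9) (.mul (.g 9) (.pp [(1, 8163000000)])))) (.mul (.g 17) (.mul (.pp
 [(1, 10581600)]) (.sq [(1, -100), (2, 37), (3, 19), (5, 60), (7, 60)]))))))) (.mul (.g 4) (.add
 (.mul (.g 4) (.add (.mul (.g 8) (.pp [(1, 614898000000)])) (.mul (.g 13) (.pp [(1,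
 486444000000)])))) (.mul (.g 6) (.add (.pp [(1, 3821400000)]) (.mul (.g 9) (.mul (.g 15) (.pp [(1,
 242760000)])))))))))) (.add (.add (.mul (.g 14) (.add (.mul (.g 6) (.mul (.g 7) (.mul (.g 7) (.pp
 [(1, 55645500)])))) (.mul (.g 8) (.pp [(1, 32514900000)])))) (.mul (.g 0) (.pp [(1, 600000000)])))
 (.add (.mul (.g 1) (.pp [(1, 1000000000000)])) (.add (.mul (.g 2) (.pp [(1, 1000000000000)]))
 (.mul (.g 16) (.pp [(1, 1000000000000)])))))) (.pp [(1, 68691891552), (2, 27967896), (3,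
 26912208), (4, 33029952), (5, 29207400), (6, 34865544), (7, 30489432), (8, 33774800), (9,
 35254140), (10, 35284800), (12, 25745148), (14, 31742520), (15, 36111600), (16, 27000000), (18,
 25590360), (20, 24594000), (21, 33965016), (24, 31315200), (25, 33435900), (27, 28507600), (28,
 31518048), (30, 33553200), (35, 33979500), (36, 28938300), (40, 35700000), (42, 22247844), (45,
 20712000), (49, 35232873), (50, 30506400), (54, 29690400), (56, 28977900), (60, 23319000), (63,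
 27291840), (70, 30116400), (75, 26835600), (81, 29522400), (84, 26910900), (90, 29856000), (98,
 23862084), (100, 28927500), (105, 25893600), (125, 32009800), (126, 27987600), (135, 31872000),
 (140, 25478100), (147, 22597083), (150, 28638600), (175, 28802100), (189, 28518000), (196,
 31554000), (210, 29748600), (225, 31656000), (245, 24046800), (250, 30000000), (294, 24126600),
 (315, 26074200), (343, 27686043), (350, 27216000), (375, 28990200), (441, 29735100), (490,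
 24586200), (525, 31821900), (625, 30000000), (686, 30725400), (735, 31364400), (875, 30000000),
 (1029, 28889400), (1225, 32181900), (1715, 29568600), (2401, 28543500)]))))))
 (.rule 0 (.rule 3 (.rule 7 (.leaf 300000000 (.add (.add (.add (.add (.mul (.pp [(1, 818700)]) (.sq
 [(1, 32), (2, 2), (3, 100), (5, -71), (7, 35)])) (.add (.mul (.g 12) (.add (.add (.add (.mul (.g
 4) (.add (.add (.add (.pp [(1, 185577000000)]) (.mul (.pp [(1, 400500000)]) (.sq [(1, 2), (2, -1),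
 (3, 1)]))) (.add (.mul (.pp [(1, 2206800)]) (.sq [(1, 5), (2, -54), (3, 40), (5, -58), (7, 100)]))
 (.mul (.g 3) (.add (.mul (.g 8) (.pp [(1, 278937000000)])) (.mul (.g 12) (.pp [(1,
 64368000000)])))))) (.add (.add (.mul (.g 11) (.add (.mul (.g 9) (.pp [(1, 82488000000)])) (.mul
 (.g 10) (.pp [(1, 349662000000)])))) (.mul (.g 7) (.mul (.g 7) (.pp [(1, 168816000000)])))) (.add
 (.mul (.g 8) (.pp [(1, 1859148000000)])) (.mul (.g 17) (.pp [(1, 722319000000)])))))) (.mul (.g 5)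
 (.add (.add (.mul (.pp [(1, 47670)]) (.sq [(1, -71), (2, -90), (3, -65), (5, 31), (7, 100)]))
 (.mul (.g 5) (.add (.pp [(1, 241804800)]) (.mul (.g 3) (.pp [(1, 67824000)]))))) (.add (.mul (.g
 8) (.add (.mul (.g 8) (.pp [(1, 175080000)])) (.mul (.g 9) (.pp [(1, 1786440000)])))) (.add (.mul
 (.g 7) (.pp [(1, 33890640000)])) (.mul (.g 9) (.mul (.g 10) (.pp [(1, 266100000)])))))))) (.add
 (.mul (.g 9) (.add (.mul (.g 9) (.add (.mul (.g 14) (.pp [(1, 1868100000)])) (.mul (.g 17) (.pp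
 [(1, 233328000000)])))) (.mul (.g 14) (.pp [(1, 1258950000)])))) (.mul (.g 3) (.add (.mul (.g 3)
 (.mul (.g 3) (.pp [(1, 6150000000)]))) (.mul (.g 14) (.pp [(1, 2676900000)])))))) (.add (.add
 (.mul (.g 10) (.add (.mul (.g 10) (.mul (.g 12) (.pp [(1, 21156000000)]))) (.mul (.g 17) (.pp [(1,
 36657000000)])))) (.mul (.g 15) (.add (.mul (.pp [(1, 3710400)]) (.sq [(1, -20), (2, 32), (3, -1),
 (5, 100), (7, -89)])) (.mul (.pp [(1, 3937800)]) (.sq [(1, -3), (2, -46), (3, -56), (5, 100), (7,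
 11)]))))) (.add (.mul (.g 12) (.mul (.pp [(1, 1320000)]) (.sq [(1, 1), (2, 2), (3, 20), (5, -9),
 (7, -13)]))) (.mul (.g 17) (.mul (.pp [(1, 1933200)]) (.sq [(1, 19), (2, -79), (3, 100), (5, -79),
 (7, 73)]))))))) (.mul (.g 17) (.add (.add (.add (.mul (.pp [(1, 25462800)]) (.sq [(1, 67), (2,
 -45), (3, 100), (5, -82), (7, -14)])) (.mul (.g 10) (.add (.add (.mul (.g 4) (.add (.add (.pp [(1,
 1883559000000)]) (.mul (.g 4) (.pp [(1, 5700000000)]))) (.add (.mul (.g 7) (.pp [(1,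
 145461000000)])) (.mul (.g 9) (.pp [(1, 6000000)]))))) (.mul (.g 10) (.add (.add (.pp [(1,
 278598000000)]) (.mul (.g 8) (.pp [(1, 13233000000)]))) (.add (.mul (.g 9) (.pp [(1,
 9843000000)])) (.mul (.g 10) (.pp [(1, 30000000)])))))) (.add (.mul (.g 5) (.add (.pp [(1,
 36297840000)]) (.mul (.g 9) (.pp [(1, 1029240000)])))) (.add (.mul (.g 7) (.add (.pp [(1,
 47181000000)]) (.mul (.g 17) (.pp [(1, 20106000000)])))) (.mul (.g 8) (.mul (.g 8) (.pp [(1,
 122322000000)])))))))) (.add (.mul (.g 3) (.add (.mul (.pp [(1, 1312500)]) (.sq [(1, 89), (2,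
 -100), (3, -94), (5, 2), (7, -55)])) (.mul (.pp [(1, 3862500)]) (.sq [(1, -90), (2, 100), (3,
 -23), (5, 19), (7, -6)])))) (.mul (.g 6) (.add (.mul (.pp [(1, 34572)]) (.sq [(1, -66), (2, 54),
 (3, 100), (5, -55), (7, 32)])) (.mul (.g 4) (.mul (.g 4) (.pp [(1, 300540000)]))))))) (.add (.add
 (.mul (.g 5) (.mul (.pp [(1, 722592)]) (.sq [(1, 15), (2, -11), (3, 25), (5, -19)]))) (.mul (.g 7)
 (.mul (.pp [(1, 21524700)]) (.sq [(1, 59), (2, -29), (3, 100), (5, -83), (7, 26)])))) (.add (.mul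
 (.g 11) (.mul (.pp [(1, 23988000)]) (.sq [(1, -34), (2, 50), (3, 5), (5, -11)]))) (.add (.mul (.g
 13) (.mul (.pp [(1, 8896500)]) (.sq [(1, 56), (2, -53), (3, 100), (5, -68), (7, -5)]))) (.mul (.g
 14) (.mul (.pp [(1, 771015)]) (.sq [(1, -79), (2, -34), (3, -27), (5, 100), (7, 5)]))))))))))
 (.add (.mul (.g 11) (.add (.add (.mul (.g 4) (.add (.mul (.g 4) (.add (.mul (.g 4) (.pp [(1,
 83364000000)])) (.add (.mul (.g 7) (.pp [(1, 366981000000)])) (.mul (.g 9) (.pp [(1,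
 21300000000)]))))) (.mul (.g 10) (.add (.mul (.g 5) (.pp [(1, 8084400000)])) (.mul (.g 11) (.pp
 [(1, 24396000000)])))))) (.add (.mul (.g 5) (.mul (.g 5) (.mul (.g 10) (.pp [(1, 56145600)]))))
 (.mul (.g 7) (.mul (.pp [(1, 4302900)]) (.sq [(1, -53), (2, 100), (3, 55), (5, -7), (7, 14)])))))
 (.add (.mul (.g 9) (.mul (.pp [(1, 8428500)]) (.sq [(1, -66), (2, 100), (3, 26), (5, -1), (7,
 19)]))) (.add (.mul (.g 11) (.mul (.pp [(1, 36661800)]) (.sq [(1, -52), (2, 100), (3, -84), (5,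
 27), (7, 27)]))) (.mul (.g 13) (.mul (.pp [(1, 6049500)]) (.sq [(1, 43), (2, -30), (3, 100), (5,
 -52), (7, -21)]))))))) (.add (.mul (.g 5) (.add (.mul (.pp [(1, 1706556)]) (.sq [(1, 24), (2, 9),
 (3, 100), (5, -72), (7, 53)])) (.add (.mul (.g 5) (.mul (.g 5) (.mul (.g 10) (.pp [(1, 80016)]))))
 (.mul (.g 7) (.mul (.pp [(1, 349542)]) (.sq [(1, 59), (2, -44), (3, 100), (5, -70), (7, 75)]))))))
 (.mul (.g 9) (.add (.mul (.g 8) (.mul (.pp [(1, 1875000)]) (.sq [(1, 41), (2, 6), (3, 100), (5,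
 -82), (7, 21)]))) (.mul (.g 10) (.mul (.pp [(1, 1691400)]) (.sq [(1, -41), (2, -19), (3, -100),
 (5, 36), (7, 50)])))))))) (.add (.add (.mul (.g 13) (.add (.mul (.pp [(1, 15291600)]) (.sq [(1,
 57), (2, 9), (3, 100), (5, -96), (7, 28)])) (.mul (.g 13) (.mul (.pp [(1, 4337400)]) (.sq [(1,
 16), (2, 61), (3, 97), (5, -100), (7, 59)]))))) (.add (.mul (.g 0) (.pp [(1, 600000000)])) (.mul
 (.g 1) (.pp [(1, 1000000000000)])))) (.add (.mul (.g 2) (.pp [(1, 1000000000000)])) (.add (.mul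
 (.g 6) (.mul (.g 7) (.mul (.pp [(1, 89172)]) (.sq [(1, -20), (2, 50), (3, 40), (5, -23), (7,
 11)])))) (.mul (.g 16) (.pp [(1, 1000000000000)])))))) (.pp [(1, 145356609), (2, 28248852), (3,
 31007493), (4, 35361600), (5, 29501718), (6, 23502756), (7, 29992791), (8, 27197184), (9,
 31019055), (10, 27896400), (12, 39348504), (14, 32452176), (15, 32054040), (16, 33175800), (18,
 24147690), (20, 23604540), (21, 23309358), (24, 27280200), (25, 29149182), (27, 30524935), (28,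
 25272204), (30, 24755508), (35, 32305176), (36, 29747400), (40, 22754400), (42, 36599808), (45,
 29979450), (49, 30250089), (50, 36751818), (54, 26370900), (56, 30743400), (60, 28781700), (63,
 33224835), (70, 27391896), (75, 35461026), (81, 31058400), (84, 30029100), (90, 40716000), (98,
 33960330), (100, 39736500), (105, 29670240), (125, 30114510), (126, 24254400), (135, 29841300),
 (140, 29014500), (147, 28259007), (150, 35245500), (175, 31010916), (189, 30155700), (196,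
 32997900), (210, 34819200), (225, 24644100), (245, 27908940), (250, 23591700), (294, 20781300),
 (315, 27960600), (343, 29972457), (350, 34347600), (375, 25215600), (441, 32821800), (490,
 26934600), (525, 27853800), (625, 31080000), (686, 29437500), (735, 36085500), (875, 27312900),
 (1029, 28724400), (1225, 31439400), (1715, 29759700), (2401, 30000000)])))))))
 (.split [(2, 1), (5, -1)]
 (.rule 1 (.rule 2 (.rule 7 (.leaf 300000000 (.add (.add (.add (.add (.mul (.g 10) (.add (.add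
 (.mul (.g 4) (.add (.add (.mul (.pp [(1, 13800)]) (.sq [(1, 33), (2, 100), (3, -63), (5, 75), (7,
 42)])) (.mul (.g 7) (.add (.mul (.g 8) (.pp [(1, 571119000000)])) (.add (.mul (.g 10) (.pp [(1,
 203562000000)])) (.mul (.g 15) (.pp [(1, 342270000000)])))))) (.add (.mul (.g 10) (.add (.mul (.g
 9) (.pp [(1, 14778000000)])) (.mul (.g 15) (.pp [(1, 183312000000)])))) (.mul (.g 4) (.mul (.g 4)
 (.pp [(1, 110481000000)])))))) (.mul (.g 17) (.add (.add (.mul (.pp [(1, 4800)]) (.sq [(1, -8),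
 (2, -94), (3, 100), (5, 1), (7, 69)])) (.add (.mul (.pp [(1, 1200)]) (.sq [(1, 20), (2, -42), (3,
 -100), (5, 90), (7, -77)])) (.mul (.g 3) (.mul (.g 8) (.pp [(1, 299940000000)]))))) (.add (.mul
 (.g 5) (.mul (.g 14) (.pp [(1, 320124000)]))) (.add (.mul (.g 7) (.pp [(1, 1753239000000)])) (.mul
 (.g 10) (.pp [(1, 296109000000)]))))))) (.add (.mul (.g 7) (.add (.pp [(1, 514413000000)]) (.add
 (.mul (.g 5) (.mul (.g 10) (.pp [(1, 2862600000)]))) (.mul (.g 8) (.mul (.g 8) (.pp [(1,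
 605094000000)])))))) (.add (.mul (.g 9) (.add (.pp [(1, 87747000000)]) (.mul (.g 8) (.add (.mul
 (.g 9) (.pp [(1, 242076000000)])) (.mul (.g 13) (.pp [(1, 34203000000)])))))) (.mul (.g 10) (.add
 (.mul (.g 3) (.mul (.g 5) (.pp [(1, 5580300000)]))) (.mul (.g 12) (.mul (.g 14) (.pp [(1,
 313500000)]))))))))) (.add (.mul (.g 17) (.add (.add (.mul (.g 4) (.add (.pp [(1, 134796000000)])
 (.mul (.g 4) (.add (.mul (.g 4) (.pp [(1, 301272000000)])) (.add (.mul (.g 5) (.pp [(1,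
 449400000)])) (.mul (.g 17) (.pp [(1, 179268000000)]))))))) (.add (.mul (.g 9) (.add (.mul (.pp
 [(1, 19800)]) (.sq [(1, 94), (2, 100), (3, 73), (5, 100), (7, 73)])) (.add (.mul (.g 7) (.add (.pp
 [(1, 380970000000)]) (.mul (.g 7) (.pp [(1, 182631000000)])))) (.mul (.g 9) (.pp [(1,
 112962000000)]))))) (.mul (.g 11) (.add (.pp [(1, 7554000000)]) (.mul (.g 8) (.mul (.g 17) (.pp
 [(1, 196392000000)]))))))) (.add (.add (.mul (.g 5) (.mul (.g 7) (.pp [(1, 6443160000)]))) (.mul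
 (.g 6) (.pp [(1, 579600000)]))) (.add (.mul (.g 12) (.mul (.pp [(1, 36000)]) (.sq [(1, 39), (2,
 100), (3, -82), (5, 27), (7, -41)]))) (.mul (.g 17) (.pp [(1, 171849000000)])))))) (.mul (.g 3)
 (.add (.add (.mul (.g 7) (.add (.add (.pp [(1, 82965000000)]) (.mul (.pp [(1, 9062100)]) (.sq [(1,
 63), (2, 100), (3, 83), (5, -5), (7, -35)]))) (.add (.mul (.g 7) (.add (.mul (.g 6) (.pp [(1,
 1775940000)])) (.mul (.g 11) (.pp [(1, 177267000000)])))) (.mul (.g 11) (.pp [(1,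
 863121000000)]))))) (.add (.mul (.g 3) (.add (.mul (.pp [(1, 1608600)]) (.sq [(1, 65), (2, 100),
 (3, 93), (5, 45), (7, -12)])) (.mul (.g 9) (.add (.pp [(1, 320265000000)]) (.mul (.g 8) (.pp [(1,
 62025000000)])))))) (.mul (.g 8) (.pp [(1, 1698351000000)])))) (.add (.mul (.g 9) (.pp [(1,
 2081652000000)])) (.add (.mul (.g 12) (.mul (.g 13) (.pp [(1, 72720000000)]))) (.mul (.g 14) (.mul
 (.pp [(1, 20625)]) (.sq [(1, -100), (2, -83), (5, 83)]))))))))) (.add (.add (.mul (.g 4) (.add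
 (.add (.mul (.g 14) (.add (.pp [(1, 14513550000)]) (.mul (.pp [(1, 176805)]) (.sq [(1, -53), (2,
 -82), (3, 65), (5, -38), (7, 100)])))) (.add (.mul (.g 4) (.mul (.pp [(1, 6378900)]) (.sq [(1,
 53), (2, -8), (3, 100), (5, 15), (7, -79)]))) (.mul (.g 5) (.pp [(1, 14873820000)])))) (.add (.add
 (.mul (.g 7) (.pp [(1, 43383000000)])) (.mul (.g 9) (.mul (.g 11) (.mul (.g 11) (.pp [(1,
 462000000)]))))) (.add (.mul (.g 12) (.mul (.pp [(1, 7164000000)]) (.sq [(1, -1), (2, -1), (5,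
 1)]))) (.mul (.g 13) (.mul (.pp [(1, 55581600)]) (.sq [(1, -23), (2, -31), (3, 23), (5, -20), (7,
 50)]))))))) (.mul (.g 14) (.add (.mul (.g 11) (.add (.pp [(1, 25535850000)]) (.mul (.g 9) (.add
 (.pp [(1, 95548500000)]) (.mul (.g 11) (.pp [(1, 1669050000)])))))) (.add (.mul (.g 12) (.add
 (.mul (.pp [(1, 9720)]) (.sq [(1, 63), (2, 98), (3, 78), (5, 76), (7, 100)])) (.mul (.pp [(1,
 270)]) (.sq [(1, 11), (2, -10), (3, 36), (5, -39), (7, 100)])))) (.mul (.g 7) (.mul (.pp [(1,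
 1007250)]) (.sq [(1, 38), (2, -33), (3, 54), (5, -24), (7, 100)]))))))) (.add (.mul (.g 6) (.add
 (.mul (.g 6) (.pp [(1, 31194900)])) (.add (.mul (.g 9) (.pp [(1, 6152250000)])) (.mul (.g 12)
 (.mul (.pp [(1, 45786)]) (.sq [(1, -16), (2, -86), (3, 51), (5, -73), (7, 100)])))))) (.mul (.g
 15) (.add (.mul (.g 9) (.mul (.g 9) (.mul (.g 9) (.pp [(1, 649173000000)])))) (.add (.mul (.g 11)
 (.mul (.pp [(1, 6282000)]) (.sq [(1, -81), (2, 68), (3, 100), (5, 68), (7, 100)]))) (.mul (.g 12)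
 (.mul (.pp [(1, 25609200)]) (.sq [(2, -38), (3, 12), (5, -37), (7, 50)]))))))))) (.add (.add (.mul
 (.g 0) (.pp [(1, 600000000)])) (.add (.mul (.g 1) (.pp [(1, 1000000000000)])) (.mul (.g 2) (.pp
 [(1, 1000000000000)])))) (.add (.add (.mul (.g 5) (.mul (.g 7) (.mul (.g 7) (.mul (.g 7) (.pp [(1,
 207900000)]))))) (.mul (.g 8) (.mul (.g 9) (.mul (.g 9) (.mul (.g 9) (.pp [(1,
 492513000000)])))))) (.add (.mul (.g 13) (.mul (.g 13) (.mul (.pp [(1, 2673900)]) (.sq [(1, -91),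
 (2, -100), (3, 90), (5, 16), (7, 56)])))) (.mul (.g 16) (.pp [(1, 1000000000000)])))))) (.pp [(1,
 33776111346), (2, 28023513), (3, 36591447), (4, 28217388), (5, 30636870), (6, 37776894), (7,
 31227600), (8, 33311151), (9, 21850128), (10, 35668560), (12, 28578312), (14, 35721600), (15,
 27290760), (16, 33271500), (18, 33573453), (20, 33785205), (21, 25256400), (24, 26243700), (25,
 29898708), (27, 28363359), (28, 32925600), (30, 17761080), (35, 30906000), (36, 43981200), (40,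
 29415000), (42, 30701400), (45, 27087330), (49, 29210400), (50, 27945243), (54, 17205600), (56,
 24530400), (60, 21854100), (63, 28461600), (70, 27761400), (75, 34831452), (81, 34721700), (84,
 45033000), (90, 23149800), (98, 29086800), (100, 24144000), (105, 19051200), (125, 31505851),
 (126, 10554600), (135, 34524300), (140, 28417200), (147, 33805200), (150, 30905100), (175,
 26925600), (189, 35587800), (196, 33473400), (210, 19987800), (225, 33028500), (245, 29653800),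
 (250, 31756500), (294, 24297000), (315, 38056800), (343, 30553200), (350, 26565600), (375,
 33273900), (441, 31104300), (490, 23591700), (525, 34553400), (625, 30846900), (686, 30355200),
 (735, 32416200), (875, 30175200), (1029, 29828400), (1225, 29520000), (1715, 29028600), (2401,
 29967600)]))))))
 (.rule 1 (.rule 3 (.rule 7 (.leaf 300000000 (.add (.add (.add (.add (.mul (.g 12) (.add (.add
 (.add (.mul (.g 7) (.add (.add (.pp [(1, 110961000000)]) (.add (.mul (.g 7) (.add (.pp [(1,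
 794583000000)]) (.add (.mul (.g 7) (.pp [(1, 15234000000)])) (.mul (.g 17) (.pp [(1,
 46794000000)]))))) (.mul (.g 8) (.add (.pp [(1, 557844000000)]) (.add (.mul (.g 8) (.pp [(1,
 496464000000)])) (.mul (.g 11) (.pp [(1, 415239000000)]))))))) (.add (.mul (.g 3) (.add (.mul (.g
 10) (.pp [(1, 196413000000)])) (.mul (.g 17) (.pp [(1, 127374000000)])))) (.add (.mul (.g 5) (.mul
 (.g 10) (.pp [(1, 671640000)]))) (.mul (.g 9) (.mul (.g 13) (.pp [(1, 58248000000)]))))))) (.mul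
 (.g 9) (.add (.mul (.pp [(1, 583500)]) (.sq [(1, -20), (2, 1), (3, -60), (5, 100), (7, -47)]))
 (.add (.mul (.g 3) (.mul (.g 17) (.pp [(1, 29217000000)]))) (.mul (.g 9) (.mul (.g 12) (.pp [(1,
 9300000000)]))))))) (.add (.mul (.g 5) (.mul (.g 5) (.add (.pp [(1, 287242800)]) (.mul (.g 10)
 (.pp [(1, 44738400)]))))) (.add (.mul (.g 11) (.add (.mul (.pp [(1, 136200)]) (.sq [(1, -89), (2,
 100), (3, 69), (5, 69), (7, 69)])) (.mul (.pp [(1, 1988100)]) (.sq [(1, -17), (2, -31), (3, -100),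
 (5, 97), (7, 36)])))) (.mul (.g 17) (.add (.mul (.pp [(1, 4903800)]) (.sq [(1, 49), (2, 28), (3,
 -70), (5, 100), (7, 74)])) (.mul (.pp [(1, 886200)]) (.sq [(1, -90), (2, 100), (3, 71), (5, 71),
 (7, 71)]))))))) (.add (.add (.mul (.g 3) (.mul (.pp [(1, 2998200)]) (.sq [(1, 20), (2, 100), (3,
 46), (5, -65), (7, -38)]))) (.mul (.g 4) (.mul (.g 10) (.mul (.g 10) (.pp [(1, 143385000000)])))))
 (.add (.mul (.g 8) (.mul (.g 8) (.mul (.g 8) (.pp [(1, 75669000000)])))) (.add (.mul (.g 12) (.pp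
 [(1, 11055000000)])) (.mul (.g 13) (.mul (.pp [(1, 742800)]) (.sq [(1, -74), (2, -33), (3, -100),
 (5, -1), (7, 65)])))))))) (.add (.mul (.g 17) (.add (.add (.mul (.g 10) (.add (.mul (.g 10) (.add
 (.add (.pp [(1, 32313000000)]) (.mul (.g 6) (.pp [(1, 713280000)]))) (.add (.mul (.g 7) (.pp [(1,
 241713000000)])) (.add (.mul (.g 9) (.pp [(1, 28824000000)])) (.mul (.g 10) (.pp [(1,
 20112000000)])))))) (.mul (.g 7) (.add (.pp [(1, 1145016000000)]) (.add (.mul (.g 7) (.pp [(1,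
 362961000000)])) (.mul (.g 9) (.pp [(1, 25377000000)]))))))) (.add (.mul (.g 4) (.add (.mul (.pp
 [(1, 11190000)]) (.sq [(1, 11), (2, -8), (3, 6), (5, -60), (7, 100)])) (.add (.mul (.g 4) (.add
 (.pp [(1, 842748000000)]) (.add (.mul (.g 8) (.pp [(1, 442050000000)])) (.mul (.g 9) (.pp [(1,
 142713000000)]))))) (.mul (.g 11) (.mul (.g 17) (.pp [(1, 245772000000)])))))) (.mul (.g 6) (.add
 (.mul (.pp [(1, 6741)]) (.sq [(1, 5), (2, -48), (3, 46), (5, -68), (7, 100)])) (.mul (.g 6) (.mul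
 (.g 7) (.pp [(1, 2023200)]))))))) (.add (.add (.mul (.g 11) (.add (.mul (.pp [(1, 512400)]) (.sq
 [(1, 12), (2, -28), (3, 100), (5, -75), (7, -29)])) (.mul (.g 17) (.mul (.g 17) (.pp [(1,
 88707000000)]))))) (.mul (.g 3) (.mul (.pp [(1, 99600)]) (.sq [(1, -6), (2, -49), (3, -95), (5,
 100), (7, -9)])))) (.add (.mul (.g 13) (.mul (.pp [(1, 8330400)]) (.sq [(1, -100), (2, 60), (3,
 -9), (5, 88), (7, 68)]))) (.mul (.g 17) (.mul (.pp [(1, 17946000000)]) (.sq [(1, 2), (2, -1), (3,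
 -1), (5, -1), (7, -1)]))))))) (.mul (.g 4) (.add (.add (.mul (.g 4) (.add (.add (.mul (.g 7) (.add
 (.pp [(1, 4059000000)]) (.mul (.g 8) (.pp [(1, 329865000000)])))) (.mul (.g 9) (.add (.mul (.g 4)
 (.pp [(1, 31449000000)])) (.mul (.g 15) (.pp [(1, 368751000000)]))))) (.add (.mul (.g 10) (.mul
 (.g 10) (.pp [(1, 111195000000)]))) (.mul (.g 14) (.pp [(1, 14502750000)]))))) (.mul (.g 5) (.mul
 (.g 5) (.add (.mul (.g 6) (.pp [(1, 2315496)])) (.add (.mul (.g 9) (.pp [(1, 170359200)])) (.mul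
 (.g 10) (.pp [(1, 202867200)]))))))) (.add (.mul (.g 6) (.mul (.g 10) (.mul (.g 10) (.pp [(1,
 13440000)])))) (.add (.mul (.g 8) (.mul (.g 8) (.mul (.g 8) (.pp [(1, 1091676000000)])))) (.mul
 (.g 11) (.mul (.pp [(1, 9490800)]) (.sq [(1, -35), (2, 25), (3, 81), (5, 1), (7, 100)])))))))))
 (.add (.mul (.g 5) (.add (.mul (.g 5) (.add (.mul (.g 10) (.add (.pp [(1, 215364000)]) (.mul (.g
 11) (.pp [(1, 24472800)])))) (.mul (.g 5) (.pp [(1, 1119888)])))) (.mul (.g 15) (.mul (.pp [(1,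
 28818)]) (.sq [(1, -17), (2, 100), (3, 91), (5, -52), (7, 29)]))))) (.add (.mul (.g 9) (.add (.mul
 (.pp [(1, 42547200)]) (.sq [(1, -22), (2, 31), (3, 50), (5, -17), (7, 25)])) (.mul (.g 13) (.add
 (.mul (.pp [(1, 3672900)]) (.sq [(1, 12), (2, -45), (3, 100), (5, -46), (7, 3)])) (.mul (.pp [(1,
 5470500)]) (.sq [(1, -52), (2, 53), (3, 100), (5, -16), (7, 40)])))))) (.mul (.g 8) (.add (.mul
 (.pp [(1, 3559500)]) (.sq [(1, 23), (2, 100), (3, 75), (5, -91), (7, 25)])) (.mul (.g 15) (.mul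
 (.pp [(1, 2497800)]) (.sq [(1, -19), (2, 100), (3, 95), (5, -59), (7, 36)])))))))) (.add (.add
 (.mul (.g 11) (.add (.mul (.g 11) (.mul (.pp [(1, 1306500)]) (.sq [(1, -71), (2, 98), (3, -55),
 (5, 40), (7, 100)]))) (.mul (.g 14) (.mul (.pp [(1, 94635)]) (.sq [(1, -3), (2, -13), (3, 100),
 (5, -70), (7, 90)]))))) (.add (.mul (.g 0) (.pp [(1, 600000000)])) (.mul (.g 1) (.pp [(1,
 1000000000000)])))) (.add (.add (.mul (.g 2) (.pp [(1, 1000000000000)])) (.mul (.g 7) (.mul (.pp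
 [(1, 69548400)]) (.sq [(1, -17), (2, -35), (3, -46), (5, 50), (7, -10)])))) (.add (.mul (.g 10)
 (.mul (.g 10) (.mul (.pp [(1, 1334100)]) (.sq [(1, 18), (2, 23), (3, 100), (5, -1), (7, -40)]))))
 (.mul (.g 16) (.pp [(1, 1000000000000)])))))) (.pp [(1, 1152063408), (2, 25443531), (3, 24234951),
 (4, 35117649), (5, 28682388), (6, 36231144), (7, 20967489), (8, 30185665), (9, 36167526), (10,
 29423088), (12, 26721816), (14, 39496080), (15, 36064272), (16, 30231000), (18, 25892736), (20,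
 29196000), (21, 45001704), (24, 26401800), (25, 32519808), (27, 30680958), (28, 25333116), (30,
 32806512), (35, 35784264), (36, 31061700), (40, 33494700), (42, 21133536), (45, 20918040), (49,
 40407666), (50, 28922100), (54, 28630800), (56, 29824800), (60, 28269900), (63, 23586336), (70,
 30084912), (75, 22207992), (81, 28990500), (84, 32527200), (90, 34344600), (98, 23138700), (100,
 27609600), (105, 19626792), (125, 29273100), (126, 30681000), (135, 33581400), (140, 30998400),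
 (147, 20581434), (150, 32976900), (175, 25231896), (189, 31444800), (196, 29486100), (210,
 25227600), (225, 32756400), (245, 24896100), (250, 30064500), (294, 36051600), (315, 37650600),
 (343, 24185400), (350, 32117400), (375, 29463600), (441, 33072300), (490, 30201000), (525,
 36195000), (625, 30833400), (686, 30521400), (735, 33955200), (875, 29887800), (1029, 31026600),
 (1225, 31530900), (1715, 32566200), (2401, 31440000)]))))))))
 (.split [(2, 1), (3, -1)]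
 (.rule 0 (.cut 450 [(2, -1), (5, 1)] (.add (.mul (.g 10) (.pp [(1, 310)])) (.add (.mul (.g 11)
 (.pp [(1, 7)])) (.mul (.g 2) (.pp [(1, 9)])))) (.rule 3 (.leaf 30000000 (.add (.add (.add (.add
 (.mul (.g 16) (.add (.add (.add (.mul (.pp [(1, 4259640)]) (.sq [(1, -39), (2, 100), (3, -18), (5,
 -6), (7, 35)])) (.mul (.g 9) (.add (.add (.mul (.g 6) (.add (.add (.pp [(1, 136297200000)]) (.mul
 (.g 3) (.pp [(1, 135900000)]))) (.add (.mul (.g 8) (.pp [(1, 592500000)])) (.mul (.g 9) (.pp [(1,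
 297600000)]))))) (.mul (.g 9) (.add (.pp [(1, 14940300000)]) (.add (.mul (.g 7) (.pp [(1,
 3600000)])) (.mul (.g 9) (.pp [(1, 3000000)])))))) (.add (.mul (.g 8) (.add (.pp [(1,
 1259100000)]) (.mul (.g 7) (.pp [(1, 4500000)])))) (.add (.mul (.g 3) (.pp [(1, 42377100000)]))
 (.mul (.g 4) (.mul (.g 4) (.pp [(1, 2160)])))))))) (.add (.mul (.g 8) (.add (.add (.mul (.pp [(1,
 60)]) (.sq [(1, -48), (2, 31), (3, 8), (5, -11), (7, 100)])) (.mul (.pp [(1, 240)]) (.sq [(1,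
 -59), (2, -39), (3, 56), (5, 63), (7, 100)]))) (.add (.mul (.g 3) (.add (.mul (.g 3) (.pp [(1,
 315900000)])) (.mul (.g 6) (.pp [(1, 136800000)])))) (.add (.mul (.g 4) (.mul (.g 6) (.pp [(1,
 383466000)]))) (.mul (.g 11) (.pp [(1, 386400000)])))))) (.add (.mul (.g 6) (.add (.mul (.g 3)
 (.pp [(1, 16161900000)])) (.add (.mul (.g 4) (.pp [(1, 73752000)])) (.mul (.g 6) (.mul (.g 7) (.pp
 [(1, 155100000)])))))) (.mul (.g 7) (.add (.pp [(1, 11043000000)]) (.mul (.g 10) (.mul (.g 16)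
 (.pp [(1, 521100000)])))))))) (.add (.add (.mul (.g 3) (.mul (.g 3) (.pp [(1, 79547400000)])))
 (.mul (.g 10) (.mul (.pp [(1, 33330)]) (.sq [(1, -100), (2, 21), (3, 61), (5, 94), (7, 94)]))))
 (.add (.mul (.g 11) (.pp [(1, 1368900000)])) (.add (.mul (.g 14) (.mul (.pp [(1, 390)]) (.sq [(1,
 -100), (2, 53), (3, 31), (5, 97), (7, 97)]))) (.mul (.g 16) (.mul (.g 16) (.pp [(1,
 9159300000)])))))))) (.mul (.g 7) (.add (.add (.mul (.g 4) (.add (.add (.pp [(1, 2020200000)])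
 (.mul (.g 8) (.add (.mul (.g 3) (.pp [(1, 405642000)])) (.add (.mul (.g 7) (.pp [(1, 400500000)]))
 (.mul (.g 8) (.pp [(1, 1680000)])))))) (.add (.mul (.g 3) (.pp [(1, 1529130000)])) (.mul (.g 14)
 (.mul (.g 14) (.pp [(1, 696726000)])))))) (.mul (.g 11) (.add (.add (.pp [(1, 801000000)]) (.mul
 (.pp [(1, 6300)]) (.sq [(1, -48), (2, -55), (3, -62), (5, 100)]))) (.add (.mul (.g 6) (.add (.pp
 [(1, 279442800000)]) (.mul (.g 9) (.pp [(1, 19110000000)])))) (.add (.mul (.g 3) (.pp [(1,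
 569100000)])) (.mul (.g 7) (.mul (.g 9) (.pp [(1, 300000)])))))))) (.add (.mul (.g 7) (.add (.mul
 (.g 6) (.add (.mul (.g 7) (.pp [(1, 413400000)])) (.mul (.g 9) (.pp [(1, 443400000)])))) (.add
 (.mul (.g 7) (.mul (.g 7) (.pp [(1, 34857300000)]))) (.mul (.g 9) (.pp [(1, 49197000000)])))))
 (.add (.mul (.g 3) (.mul (.g 3) (.pp [(1, 37997100000)]))) (.mul (.g 10) (.mul (.g 10) (.mul (.g
 12) (.pp [(1, 410100000)]))))))))) (.add (.mul (.g 11) (.add (.add (.mul (.g 8) (.add (.mul (.g 8)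
 (.add (.add (.mul (.g 3) (.pp [(1, 66900000)])) (.mul (.g 9) (.pp [(1, 2100000)]))) (.add (.mul
 (.g 10) (.pp [(1, 59700000)])) (.mul (.g 13) (.pp [(1, 150000)]))))) (.add (.mul (.g 4) (.pp [(1,
 1962000)])) (.mul (.g 6) (.mul (.g 9) (.pp [(1, 139800000)])))))) (.mul (.g 6) (.mul (.g 6) (.add
 (.mul (.g 6) (.pp [(1, 600000)])) (.mul (.g 9) (.pp [(1, 906600000)])))))) (.add (.mul (.g 3)
 (.mul (.g 9) (.mul (.g 10) (.pp [(1, 916500000)])))) (.mul (.g 13) (.pp [(1, 2355000)]))))) (.add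
 (.mul (.g 4) (.add (.mul (.g 6) (.add (.mul (.g 3) (.add (.mul (.g 9) (.pp [(1, 399546000)]))
 (.mul (.g 10) (.pp [(1, 7596000)])))) (.add (.mul (.g 8) (.mul (.g 8) (.pp [(1, 7296000)]))) (.mul
 (.g 13) (.pp [(1, 2523600)]))))) (.mul (.g 4) (.mul (.g 9) (.add (.pp [(1, 3966960)]) (.mul (.g 8)
 (.pp [(1, 124680)]))))))) (.mul (.g 10) (.add (.mul (.pp [(1, 560400)]) (.sq [(1, 43), (2, -50),
 (3, -1), (5, -13), (7, -13)])) (.add (.mul (.g 3) (.add (.mul (.g 3) (.pp [(1, 58040400000)]))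
 (.mul (.g 6) (.mul (.g 6) (.pp [(1, 15000000)]))))) (.mul (.g 13) (.add (.mul (.pp [(1, 57)]) (.sq
 [(1, -57), (2, 100), (3, -42), (5, 39), (7, -33)])) (.mul (.g 8) (.mul (.g 9) (.pp [(1,
 8190000)]))))))))))) (.add (.add (.mul (.g 0) (.pp [(1, 100000000000)])) (.add (.mul (.g 2) (.pp
 [(1, 100000000000)])) (.mul (.g 3) (.mul (.g 3) (.pp [(1, 6819300000)]))))) (.add (.mul (.g 12)
 (.mul (.pp [(1, 21480)]) (.sq [(1, -25), (2, 100), (3, -62), (7, 2)]))) (.add (.mul (.g 13) (.mul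
 (.pp [(1, 2424)]) (.sq [(1, -42), (2, 100), (3, -31), (5, 32), (7, -34)]))) (.mul (.g 15) (.pp
 [(1, 100000000000)])))))) (.pp [(1, 100853121), (2, 2507643), (3, 2641608), (4, 3138300), (5,
 3113214), (6, 3542856), (7, 2176362), (8, 2536530), (9, 3466548), (10, 3347838), (12, 2964390),
 (14, 3959034), (15, 3114768), (16, 3000000), (18, 3219018), (19, 300000000000), (20, 3219180),
 (21, 4439904), (24, 3119970), (25, 2879307), (27, 2640910), (28, 2766000), (30, 2789628), (35,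
 3619062), (36, 2817570), (40, 3108000), (42, 1732164), (45, 2560320), (49, 3756603), (50,
 3174507), (54, 3157290), (56, 2725470), (60, 2844000), (63, 2135160), (70, 2212002), (75,
 2837760), (81, 2842410), (84, 3142110), (90, 3005340), (98, 2403903), (100, 2958060), (105,
 2609100), (125, 3012720), (126, 3419190), (135, 3308220), (140, 3446220), (147, 2413140), (150,
 2875140), (175, 3034470), (189, 2979750), (196, 3071700), (210, 3160980), (225, 2993370), (245,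
 2619720), (250, 2933940), (294, 3299160), (315, 2856000), (343, 2832390), (350, 2841480), (375,
 3059820), (441, 2985030), (490, 3233700), (525, 3005370), (625, 3000000), (686, 3096120), (735,
 2944980), (875, 3059820), (1029, 2930490), (1225, 2892000), (1715, 3000000), (2401, 3000000)]))))))
 (.rule 1 (.cut 450 [(2, -1), (5, 1)] (.add (.add (.mul (.g 11) (.pp [(1, 7)])) (.mul (.g 1) (.pp
 [(1, 310)]))) (.add (.mul (.g 6) (.pp [(1, 310)])) (.mul (.g 2) (.pp [(1, 9)])))) (.rule 3 (.leaf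
 15000000000 (.add (.add (.add (.add (.mul (.g 6) (.add (.add (.mul (.g 8) (.add (.add (.mul (.g 4)
 (.add (.add (.pp [(1, 1054929000000)]) (.mul (.g 6) (.pp [(1, 975105000000)]))) (.add (.mul (.g 7)
 (.pp [(1, 1151862000000)])) (.add (.mul (.g 8) (.pp [(1, 160017000000)])) (.mul (.g 16) (.pp [(1,
 330282000000)])))))) (.mul (.g 6) (.add (.mul (.g 6) (.pp [(1, 6135450000000)])) (.add (.mul (.g
 8) (.pp [(1, 1734900000000)])) (.mul (.g 13) (.pp [(1, 232972500000)])))))) (.add (.mul (.g 16)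
 (.add (.pp [(1, 6512700000000)]) (.mul (.g 16) (.pp [(1, 2742300000000)])))) (.mul (.g 11) (.mul
 (.g 12) (.pp [(1, 2092200000000)])))))) (.add (.mul (.g 9) (.add (.mul (.g 3) (.add (.pp [(1,
 26366700000000)]) (.add (.mul (.g 9) (.pp [(1, 11043750000000)])) (.mul (.g 14) (.pp [(1,
 5538450000000)]))))) (.add (.mul (.g 16) (.add (.pp [(1, 89697600000000)]) (.mul (.g 9) (.pp [(1,
 7595700000000)])))) (.mul (.g 7) (.pp [(1, 3242250000000)]))))) (.mul (.g 6) (.add (.mul (.g 6)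
 (.add (.mul (.g 7) (.pp [(1, 40989150000000)])) (.add (.mul (.g 10) (.pp [(1, 10025550000000)]))
 (.mul (.g 16) (.pp [(1, 8825100000000)]))))) (.add (.mul (.g 3) (.mul (.g 10) (.pp [(1,
 5784450000000)]))) (.mul (.g 11) (.mul (.g 14) (.pp [(1, 22722900000000)])))))))) (.add (.mul (.g
 7) (.add (.mul (.g 7) (.add (.pp [(1, 90685650000000)]) (.mul (.g 4) (.pp [(1, 604017000000)]))))
 (.mul (.g 11) (.mul (.g 14) (.pp [(1, 30745050000000)]))))) (.add (.mul (.g 10) (.add (.mul (.pp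
 [(1, 1044990000)]) (.sq [(1, -74), (2, 9), (3, -100), (5, 79), (7, 39)])) (.mul (.g 13) (.mul (.g
 16) (.pp [(1, 17040000000)]))))) (.mul (.g 11) (.pp [(1, 15996900000000)])))))) (.mul (.g 16)
 (.add (.add (.add (.mul (.pp [(1, 107580000)]) (.sq [(1, -74), (2, -19), (3, -37), (5, 39), (7,
 100)])) (.add (.mul (.g 10) (.add (.add (.mul (.pp [(1, 159120000)]) (.sq [(1, -50), (2, 31), (3,
 41), (5, 41), (7, 41)])) (.mul (.pp [(1, 608400000)]) (.sq [(1, -39), (2, -25), (3, -33), (5,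
 -16), (7, 100)]))) (.add (.mul (.g 10) (.mul (.g 11) (.pp [(1, 205650000000)]))) (.mul (.g 16)
 (.mul (.g 16) (.pp [(1, 1053000000000)])))))) (.mul (.g 4) (.add (.pp [(1, 587424000000)]) (.add
 (.mul (.pp [(1, 5313300)]) (.sq [(1, 29), (2, 43), (3, -4), (5, -23), (7, 100)])) (.mul (.g 7)
 (.mul (.g 7) (.pp [(1, 251937000000)])))))))) (.add (.mul (.g 8) (.add (.mul (.g 3) (.mul (.g 9)
 (.pp [(1, 2704500000000)]))) (.add (.mul (.g 7) (.pp [(1, 3557850000000)])) (.mul (.g 11) (.mul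
 (.g 16) (.pp [(1, 1664400000000)])))))) (.add (.mul (.g 11) (.add (.mul (.pp [(1, 63090000)]) (.sq
 [(1, 3), (2, -6), (3, -45), (5, 41), (7, 100)])) (.mul (.pp [(1, 126870000)]) (.sq [(1, -90), (2,
 100), (3, 71), (5, 71), (7, 71)])))) (.mul (.g 3) (.pp [(1, 19481550000000)]))))) (.add (.add
 (.mul (.g 7) (.mul (.pp [(1, 287250000)]) (.sq [(1, -12), (2, 17), (3, 52), (5, -93), (7, 100)])))
 (.add (.mul (.g 9) (.mul (.g 9) (.mul (.g 9) (.pp [(1, 1571250000000)])))) (.mul (.g 12) (.mul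
 (.pp [(1, 112350000)]) (.sq [(1, -20), (2, 100), (3, -14), (5, -25), (7, 77)]))))) (.add (.mul (.g
 13) (.mul (.pp [(1, 30464250)]) (.sq [(1, -51), (2, 39), (3, 100), (5, 15), (7, 45)]))) (.add
 (.mul (.g 14) (.mul (.pp [(1, 103365000)]) (.sq [(1, -63), (2, -21), (3, -76), (5, 29), (7,
 100)]))) (.mul (.g 16) (.mul (.pp [(1, 627900000)]) (.sq [(1, -42), (2, -7), (3, -28), (5, 10),
 (7, 50)]))))))))) (.add (.mul (.g 11) (.add (.add (.mul (.g 13) (.add (.add (.mul (.pp [(1,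
 900750)]) (.sq [(1, -16), (2, 99), (3, 45), (5, -54), (7, 100)])) (.mul (.pp [(1, 3369000)]) (.sq
 [(1, -84), (2, -100), (3, 16), (5, 77), (7, 22)]))) (.add (.mul (.g 9) (.add (.mul (.g 4) (.pp
 [(1, 2891550000)])) (.mul (.g 5) (.pp [(1, 341925000)])))) (.mul (.g 8) (.mul (.g 8) (.pp [(1,
 1365000000)])))))) (.mul (.g 11) (.add (.mul (.pp [(1, 42345000)]) (.sq [(1, -24), (2, -89), (3,
 -65), (5, -100), (7, 80)])) (.mul (.g 3) (.mul (.g 9) (.pp [(1, 4020600000000)])))))) (.add (.mul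
 (.g 7) (.mul (.pp [(1, 155835000)]) (.sq [(1, -39), (2, -28), (3, -22), (5, 100), (7, 3)]))) (.mul
 (.g 14) (.mul (.pp [(1, 76500000)]) (.sq [(1, 39), (2, 90), (3, 100), (5, 35), (7, -88)]))))))
 (.mul (.g 3) (.add (.add (.mul (.g 4) (.add (.pp [(1, 1375245000000)]) (.mul (.g 9) (.mul (.g 9)
 (.pp [(1, 34176000000)]))))) (.add (.mul (.g 3) (.pp [(1, 50751450000000)])) (.mul (.g 7) (.mul
 (.g 8) (.mul (.g 9) (.pp [(1, 1595850000000)])))))) (.add (.mul (.g 10) (.mul (.pp [(1,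
 1122570000)]) (.sq [(1, -83), (2, 57), (3, -64), (5, 6), (7, 100)]))) (.add (.mul (.g 12) (.mul
 (.pp [(1, 151770000)]) (.sq [(1, -16), (2, 15), (3, 96), (5, 41), (7, -100)]))) (.mul (.g 13) (.pp
 [(1, 82170000000)])))))))) (.add (.add (.mul (.g 4) (.add (.add (.mul (.g 4) (.mul (.g 9) (.mul
 (.g 9) (.pp [(1, 3882060000)])))) (.mul (.g 5) (.mul (.pp [(1, 26361)]) (.sq [(1, -22), (2, 62),
 (3, 2), (5, 100), (7, -45)])))) (.add (.mul (.g 7) (.mul (.g 7) (.mul (.g 7) (.pp [(1,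
 199338000000)])))) (.mul (.g 10) (.mul (.pp [(1, 10297800)]) (.sq [(1, -22), (2, 100), (3, 31),
 (5, 95), (7, -43)])))))) (.mul (.g 13) (.add (.mul (.g 10) (.mul (.pp [(1, 1767000)]) (.sq [(1,
 -27), (2, 100), (3, 18), (5, -41), (7, 67)]))) (.mul (.g 13) (.mul (.pp [(1, 201075)]) (.sq [(1,
 -65), (2, 100), (3, 48), (5, 26), (7, 41)])))))) (.add (.mul (.g 0) (.pp [(1, 50000000000000)]))
 (.add (.mul (.g 2) (.pp [(1, 50000000000000)])) (.mul (.g 15) (.pp [(1, 50000000000000)]))))))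
 (.pp [(1, 39871725183), (2, 1370590764), (3, 1634684994), (4, 1313035728), (5, 1383447600), (6,
 1392157176), (7, 1642169160), (8, 1467986750), (9, 1565822898), (10, 1621934100), (12,
 1875783000), (14, 1522159140), (15, 1796529300), (16, 1616280000), (18, 1682632650), (19,
 150000000000000), (20, 1532672250), (21, 1404893040), (24, 1340805000), (25, 1582630650), (27,
 1468290450), (28, 1812178650), (30, 1478383200), (35, 1882241700), (36, 1573515000), (40,
 1451130000), (42, 1757701500), (45, 1144981650), (49, 1370971200), (50, 1407918000), (54,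
 1306230000), (56, 1465215000), (60, 1385145000), (63, 1062210600), (70, 1427579700), (75,
 1450066650), (81, 1471110000), (84, 1281555000), (90, 1598370000), (98, 1929282900), (100,
 1625370000), (105, 487806900), (125, 1512045000), (126, 1198710000), (135, 1591140000), (140,
 1241895000), (147, 1529380500), (150, 1602045000), (175, 1234444650), (189, 1771380000), (196,
 1505130000), (210, 1494270000), (225, 1508535000), (245, 1154230500), (250, 1472370000), (294,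
 1171680000), (315, 2160510000), (343, 1532433750), (350, 1757175000), (375, 1461345000), (441,
 1597545000), (490, 1252080000), (525, 1795485000), (625, 1507080000), (686, 1275675000), (735,
 1869270000), (875, 1466595000), (1029, 1543605000), (1225, 1707000000), (1715, 1573605000), (2401,
 1500000000)])))))))))
 (P_Op0 ++ xP_A_F7) = true := by decide +kernel

theorem t_A_T4b_free : chk RFp gP_A_T4b
 (.cut 1 [(2, -1), (3, 1)] (.add (.mul (.g 9) (.pp [(1, 1)])) (.mul (.g 4) (.pp [(1, 1)]))) (.rule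
 1 (.cut 20 [(2, 1), (5, -1)] (.add (.add (.mul (.g 2) (.pp [(1, 11)])) (.mul (.g 1) (.pp [(1,
 11)]))) (.add (.mul (.g 11) (.pp [(1, 9)])) (.mul (.g 9) (.pp [(1, 1)])))) (.rule 2 (.leaf
 60000000 (.add (.add (.add (.mul (.g 6) (.add (.add (.pp [(1, 14223000000)]) (.add (.mul (.g 4)
 (.add (.add (.mul (.g 4) (.add (.mul (.g 11) (.pp [(1, 480000)])) (.mul (.g 14) (.pp [(1,
 15600000)])))) (.mul (.g 8) (.mul (.g 8) (.pp [(1, 28200000)])))) (.add (.mul (.g 11) (.pp [(1,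
 29996100000)])) (.mul (.g 14) (.pp [(1, 12000000)]))))) (.mul (.g 6) (.mul (.g 6) (.add (.add (.pp
 [(1, 206813400000)]) (.mul (.g 6) (.pp [(1, 7862400000)]))) (.add (.mul (.g 8) (.pp [(1,
 13800000)])) (.mul (.g 11) (.pp [(1, 750000)])))))))) (.add (.add (.mul (.g 5) (.add (.mul (.g 5)
 (.mul (.g 5) (.pp [(1, 8400000)]))) (.add (.mul (.g 8) (.pp [(1, 25200000)])) (.mul (.g 14) (.pp
 [(1, 7200000)]))))) (.mul (.g 8) (.pp [(1, 269901600000)]))) (.add (.mul (.g 11) (.pp [(1,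
 1140000)])) (.mul (.g 14) (.pp [(1, 240845400000)])))))) (.add (.mul (.g 11) (.add (.add (.pp [(1,
 450000)]) (.mul (.pp [(1, 210000)]) (.sq [(2, 1), (3, 1), (5, 1)]))) (.add (.mul (.g 4) (.add (.pp
 [(1, 3870000)]) (.mul (.g 13) (.add (.mul (.g 8) (.pp [(1, 900000)])) (.mul (.g 14) (.pp [(1,
 300000)])))))) (.add (.mul (.g 5) (.add (.pp [(1, 360000)]) (.add (.mul (.pp [(1, 39)]) (.sq [(1,
 100), (2, 92), (3, 91), (5, 92)])) (.mul (.g 5) (.mul (.g 14) (.pp [(1, 60000)])))))) (.mul (.g 9)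
 (.mul (.pp [(1, 120)]) (.sq [(1, 15), (2, 22), (3, 11), (5, 50)]))))))) (.mul (.g 8) (.add (.pp
 [(1, 154800000)]) (.add (.mul (.g 4) (.add (.pp [(1, 147600000)]) (.add (.mul (.g 4) (.mul (.g 4)
 (.pp [(1, 31200000)]))) (.mul (.g 5) (.mul (.g 5) (.pp [(1, 30000000)])))))) (.mul (.g 8) (.mul
 (.pp [(1, 2400)]) (.sq [(1, -47), (2, 100), (3, 14), (5, -96)])))))))) (.add (.add (.mul (.g 10)
 (.mul (.g 10) (.add (.mul (.g 4) (.pp [(1, 18000000)])) (.mul (.g 10) (.pp [(1, 10200000)])))))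
 (.mul (.g 0) (.pp [(1, 200000000000)]))) (.add (.mul (.g 2) (.pp [(1, 200000000000)])) (.mul (.g
 12) (.pp [(1, 200000000000)]))))) (.pp [(1, 4575605400), (2, 5837400), (3, 5835000), (4, 6428880),
 (5, 6245400), (6, 6030480), (8, 6091680), (9, 6189120), (10, 5796000), (12, 4951536), (15,
 5713200), (16, 6038400), (18, 6082896), (20, 7458720), (24, 5839680), (25, 6171600), (27,
 6118449), (30, 5784192), (36, 5942400), (40, 5323200), (45, 5475936), (50, 5608800), (54,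
 6020340), (60, 5369280), (75, 5117136), (81, 6168780), (90, 6661440), (100, 6480000), (125,
 5150000), (135, 6698700), (150, 6160320), (225, 6891840), (250, 5520000), (375, 6961920), (625,
 6600000)])))))))
 (P_free ++ xP_A_T4b) = true := by decide +kernel

theorem t_G_F3_c0 : chk ROp gP_G_F3
 (.cut 50 [(2, 1), (3, -1)] (.add (.add (.mul (.g 8) (.pp [(1, 45)])) (.mul (.g 7) (.pp [(1, 2)])))
 (.add (.mul (.g 2) (.pp [(1, 5)])) (.mul (.g 9) (.pp [(1, 9)])))) (.rule 0 (.cut 60 [(2, -1), (5,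
 1)] (.add (.add (.mul (.g 11) (.pp [(1, 11)])) (.mul (.g 9) (.pp [(1, 3)]))) (.add (.mul (.g 1)
 (.pp [(1, 5)])) (.mul (.g 6) (.pp [(1, 5)])))) (.rule 3 (.leaf 15000000 (.add (.add (.add (.add
 (.mul (.g 7) (.add (.add (.mul (.g 16) (.add (.add (.mul (.g 4) (.add (.mul (.g 5) (.pp [(1,
 27835200000)])) (.add (.mul (.g 8) (.pp [(1, 14296800000)])) (.mul (.g 11) (.pp [(1,
 875820000)]))))) (.add (.mul (.g 5) (.add (.mul (.g 5) (.pp [(1, 5932950000)])) (.mul (.g 12) (.pp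
 [(1, 20856000000)])))) (.mul (.g 7) (.add (.mul (.g 8) (.pp [(1, 5803800000)])) (.mul (.g 10) (.pp
 [(1, 990300000)])))))) (.add (.mul (.g 15) (.add (.pp [(1, 7376550000)]) (.mul (.g 15) (.pp [(1,
 5965500000)])))) (.add (.mul (.g 8) (.mul (.g 12) (.pp [(1, 15824775000)]))) (.mul (.g 13) (.mul
 (.g 13) (.pp [(1, 820224000)]))))))) (.add (.mul (.g 4) (.add (.add (.mul (.g 5) (.add (.mul (.g
 8) (.pp [(1, 709200000)])) (.mul (.g 13) (.pp [(1, 5546850000)])))) (.mul (.g 15) (.add (.pp [(1,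
 53611950000)]) (.mul (.g 8) (.pp [(1, 83867700000)]))))) (.add (.mul (.g 4) (.mul (.g 13) (.pp
 [(1, 139650000)]))) (.mul (.g 7) (.mul (.g 12) (.pp [(1, 12626775000)])))))) (.mul (.g 7) (.add
 (.mul (.g 12) (.add (.mul (.g 11) (.pp [(1, 76803750)])) (.mul (.g 12) (.pp [(1, 524887500)]))))
 (.mul (.g 15) (.add (.mul (.g 7) (.pp [(1, 1500000)])) (.mul (.g 8) (.pp [(1, 5968500000)]))))))))
 (.add (.mul (.g 5) (.add (.mul (.g 13) (.add (.mul (.g 12) (.pp [(1, 2335005000)])) (.mul (.g 13)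
 (.pp [(1, 179208000)])))) (.mul (.g 15) (.pp [(1, 3497550000)])))) (.add (.mul (.g 6) (.mul (.g
 15) (.mul (.g 15) (.pp [(1, 8076900000)])))) (.mul (.g 10) (.mul (.g 10) (.mul (.g 12) (.pp [(1,
 12846075000)])))))))) (.mul (.g 6) (.add (.add (.mul (.g 6) (.add (.mul (.g 12) (.add (.add (.mul
 (.g 8) (.pp [(1, 1943775000)])) (.mul (.g 11) (.pp [(1, 608640000)]))) (.add (.mul (.g 15) (.pp
 [(1, 1400625000)])) (.mul (.g 16) (.pp [(1, 12843075000)]))))) (.add (.mul (.g 5) (.mul (.g 13)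
 (.pp [(1, 572940000)]))) (.mul (.g 9) (.mul (.g 15) (.pp [(1, 13066050000)])))))) (.mul (.g 16)
 (.add (.add (.mul (.g 4) (.add (.mul (.g 11) (.pp [(1, 1305075000)])) (.mul (.g 16) (.pp [(1,
 11980500000)])))) (.mul (.g 11) (.mul (.g 11) (.pp [(1, 1679625)])))) (.add (.mul (.g 12) (.pp
 [(1, 11108775000)])) (.mul (.g 16) (.pp [(1, 4008150000)])))))) (.add (.mul (.g 15) (.add (.mul
 (.pp [(1, 198555)]) (.sq [(1, -29), (2, -38), (3, -8), (5, -66), (7, 100)])) (.add (.mul (.pp [(1,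
 75720)]) (.sq [(2, -78), (3, 94), (5, -100), (7, -41)])) (.mul (.g 5) (.mul (.g 13) (.pp [(1,
 5956440000)])))))) (.mul (.g 8) (.mul (.g 8) (.mul (.g 12) (.pp [(1, 2072175000)])))))))) (.add
 (.mul (.g 5) (.add (.add (.mul (.g 4) (.add (.mul (.g 4) (.add (.mul (.g 15) (.pp [(1,
 12425400000)])) (.mul (.g 16) (.pp [(1, 8173050000)])))) (.mul (.g 8) (.add (.mul (.g 12) (.pp
 [(1, 1827825000)])) (.mul (.g 13) (.pp [(1, 1020660000)])))))) (.mul (.g 13) (.add (.pp [(1,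
 5329110000)]) (.mul (.g 13) (.add (.mul (.g 10) (.pp [(1, 58380000)])) (.mul (.g 13) (.pp [(1,
 33397200)]))))))) (.add (.mul (.g 5) (.add (.mul (.pp [(1, 271365)]) (.sq [(1, 17), (2, -14), (3,
 100), (5, -10), (7, -61)])) (.mul (.g 5) (.mul (.g 16) (.pp [(1, 30018750000)]))))) (.add (.mul
 (.g 12) (.add (.mul (.g 9) (.pp [(1, 3583425000)])) (.mul (.g 12) (.pp [(1, 8090850000)])))) (.mul
 (.g 16) (.pp [(1, 18895200000)])))))) (.add (.mul (.g 12) (.add (.add (.mul (.g 4) (.add (.mul (.g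
 4) (.mul (.g 8) (.pp [(1, 728250000)]))) (.mul (.g 15) (.pp [(1, 8182275000)])))) (.mul (.g 12)
 (.add (.pp [(1, 11937787500)]) (.mul (.g 10) (.pp [(1, 5758762500)]))))) (.add (.mul (.g 15) (.pp
 [(1, 23689350000)])) (.mul (.g 16) (.pp [(1, 11519775000)]))))) (.mul (.g 13) (.add (.mul (.g 8)
 (.add (.mul (.pp [(1, 84966)]) (.sq [(1, -33), (2, 46), (3, -30), (5, 100), (7, -84)])) (.mul (.pp
 [(1, 70812)]) (.sq [(1, 3), (2, 100), (3, 72), (5, -16), (7, -57)])))) (.add (.mul (.g 11) (.add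
 (.pp [(1, 238980000)]) (.mul (.g 4) (.pp [(1, 742669500)])))) (.mul (.g 15) (.pp [(1,
 2884530000)])))))))) (.add (.add (.mul (.g 15) (.add (.mul (.g 15) (.add (.pp [(1, 3576900000)])
 (.mul (.g 8) (.mul (.g 16) (.pp [(1, 2297550000)]))))) (.mul (.g 4) (.mul (.g 4) (.mul (.g 9) (.pp
 [(1, 1513650000)])))))) (.mul (.g 16) (.add (.mul (.g 4) (.mul (.g 4) (.mul (.g 9) (.pp [(1,
 4874100000)])))) (.mul (.g 11) (.pp [(1, 854137500)]))))) (.add (.mul (.g 0) (.pp [(1,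
 50000000000)])) (.add (.mul (.g 2) (.pp [(1, 50000000000)])) (.mul (.g 14) (.pp [(1,
 50000000)])))))) (.pp [(1, 9036936), (2, 1570716), (3, 1266882), (4, 1574736), (5, 1450224), (6,
 1566858), (7, 1346400), (8, 1616112), (9, 1624719), (10, 1565076), (12, 1381440), (14, 1395696),
 (15, 1671171), (16, 1500000), (18, 1340736), (19, 150000000000), (20, 1133700), (21, 1684512),
 (24, 1509720), (25, 1457841), (27, 1385540), (28, 1601904), (30, 1419924), (35, 1510179), (36,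
 1504260), (40, 1500000), (42, 1648248), (45, 1432440), (49, 1623432), (50, 2114364), (54,
 1527960), (56, 1500000), (60, 1599900), (63, 1499730), (70, 1412676), (75, 1102320), (81,
 1500000), (84, 1245240), (90, 1565400), (98, 1444068), (100, 1575000), (105, 1494720), (125,
 1456920), (126, 1489860), (135, 1549440), (140, 1368900), (147, 1457670), (150, 1169520), (175,
 1365540), (189, 1503000), (196, 1350000), (210, 1664040), (225, 1676580), (245, 1611930), (250,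
 1275000), (294, 1658580), (315, 1516380), (343, 1500000), (350, 1358880), (375, 1655580), (441,
 1438335), (490, 1737120), (525, 1666080), (625, 1575000), (686, 1500000), (735, 1372560), (875,
 1505580), (1029, 1500000), (1225, 1465500), (1715, 1435320), (2401, 1500000)])))))))
 (P_c0 ++ xP_G_F3) = true := by decide +kernel

theorem t_G_F3_c4 : chk RFp gP_G_F3
 (.split [(1, 1), (2, -20)]
 (.split [(1, -1), (3, 2)]
 (.split [(1, -9), (5, 32)]
 (.rule 4 (.leaf 15000000 (.add (.add (.add (.add (.mul (.g 7) (.add (.add (.mul (.g 7) (.add (.add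
 (.mul (.g 13) (.add (.add (.pp [(1, 1200000)]) (.mul (.g 6) (.pp [(1, 1050000)]))) (.add (.mul (.g
 7) (.pp [(1, 1500000)])) (.add (.mul (.g 8) (.pp [(1, 1500000)])) (.mul (.g 10) (.pp [(1,
 450000)])))))) (.mul (.g 2) (.add (.mul (.g 7) (.pp [(1, 375000)])) (.mul (.g 8) (.pp [(1,
 600000)]))))) (.add (.mul (.g 3) (.add (.pp [(1, 7779007500)]) (.mul (.g 10) (.pp [(1, 30000)]))))
 (.add (.mul (.g 4) (.add (.mul (.g 4) (.pp [(1, 108147150000)])) (.mul (.g 7) (.pp [(1,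
 5966550000)])))) (.mul (.g 5) (.mul (.g 6) (.pp [(1, 750000)]))))))) (.add (.mul (.g 6) (.add
 (.add (.mul (.g 6) (.add (.add (.pp [(1, 1650000)]) (.mul (.g 8) (.pp [(1, 1500000)]))) (.add
 (.mul (.g 13) (.pp [(1, 1500000)])) (.mul (.g 14) (.pp [(1, 1500000)]))))) (.mul (.g 2) (.mul (.g
 10) (.pp [(1, 825000)])))) (.add (.mul (.g 3) (.pp [(1, 165000)])) (.mul (.g 13) (.pp [(1,
 2250000)]))))) (.mul (.g 4) (.add (.add (.pp [(1, 120838500000)]) (.mul (.g 4) (.add (.mul (.g 4)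
 (.pp [(1, 24178500000)])) (.mul (.g 9) (.pp [(1, 150000)]))))) (.add (.mul (.g 3) (.pp [(1,
 8100007500)])) (.mul (.g 10) (.mul (.g 13) (.pp [(1, 900000)])))))))) (.add (.mul (.g 5) (.add
 (.add (.mul (.g 9) (.add (.mul (.g 10) (.pp [(1, 300000)])) (.mul (.g 11) (.pp [(1, 7500)]))))
 (.mul (.g 3) (.pp [(1, 45000)]))) (.add (.mul (.g 5) (.mul (.g 5) (.pp [(1, 1500000)]))) (.mul (.g
 10) (.mul (.g 14) (.pp [(1, 900000)])))))) (.add (.mul (.g 2) (.pp [(1, 3894225000)])) (.mul (.g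
 13) (.pp [(1, 7783350000)])))))) (.mul (.g 6) (.add (.add (.pp [(1, 103190250000)]) (.add (.mul
 (.g 3) (.add (.add (.pp [(1, 82500)]) (.mul (.g 4) (.add (.pp [(1, 22500)]) (.mul (.g 10) (.pp
 [(1, 7500)]))))) (.add (.mul (.g 5) (.add (.pp [(1, 7500007500)]) (.mul (.g 10) (.pp [(1,
 157500)])))) (.mul (.g 6) (.pp [(1, 217500)]))))) (.mul (.g 6) (.add (.mul (.g 14) (.add (.mul (.g
 4) (.pp [(1, 1200000)])) (.add (.mul (.g 5) (.pp [(1, 1650000)])) (.mul (.g 6) (.pp [(1,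
 1800000)]))))) (.add (.mul (.g 9) (.mul (.g 10) (.pp [(1, 1350000)]))) (.mul (.g 13) (.pp [(1,
 4650000)]))))))) (.add (.mul (.g 5) (.add (.mul (.g 9) (.mul (.g 14) (.pp [(1, 1200000)]))) (.mul
 (.g 13) (.pp [(1, 1500000)])))) (.add (.mul (.g 13) (.pp [(1, 6000000)])) (.mul (.g 14) (.pp [(1,
 9450000)]))))))) (.add (.mul (.g 5) (.add (.mul (.g 13) (.add (.pp [(1, 5100000)]) (.add (.mul
 (.pp [(1, 60)]) (.sq [(1, 100), (2, 81), (3, 81), (5, 81), (7, 81)])) (.mul (.g 5) (.add (.pp [(1,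
 1800000)]) (.mul (.g 5) (.pp [(1, 1500000)]))))))) (.add (.mul (.g 3) (.add (.pp [(1, 120000)])
 (.add (.mul (.g 4) (.pp [(1, 15000)])) (.mul (.g 5) (.pp [(1, 112500)]))))) (.mul (.g 14) (.pp
 [(1, 3909900000)]))))) (.add (.mul (.g 4) (.add (.mul (.g 4) (.add (.pp [(1, 42152400000)]) (.add
 (.mul (.g 3) (.add (.pp [(1, 851865000)]) (.mul (.g 4) (.pp [(1, 72787500)])))) (.mul (.g 10)
 (.mul (.g 13) (.pp [(1, 450000)])))))) (.mul (.g 3) (.mul (.pp [(1, 6)]) (.sq [(1, 83), (2, 80),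
 (3, 100), (5, 100), (7, 38)]))))) (.mul (.g 2) (.add (.pp [(1, 50694000000)]) (.mul (.g 14) (.pp
 [(1, 1792800000)]))))))) (.add (.add (.mul (.g 0) (.pp [(1, 50000000000)])) (.add (.mul (.g 3)
 (.pp [(1, 3875325000)])) (.mul (.g 9) (.mul (.g 9) (.mul (.pp [(1, 165)]) (.sq [(1, -2), (2, 7),
 (3, -46), (5, 100)])))))) (.add (.mul (.g 12) (.pp [(1, 200000000)])) (.add (.mul (.g 13) (.pp
 [(1, 3890700000)])) (.mul (.g 14) (.mul (.pp [(1, 540)]) (.sq [(3, -44), (5, 50), (7, 39)])))))))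
 (.pp [(1, 8120774340), (2, 1461966), (3, 1350960), (4, 1482495), (5, 1484820), (6, 1351020), (7,
 1575000), (8, 1506150), (9, 1480980), (10, 1420980), (12, 1541430), (14, 1454652), (15, 1641900),
 (16, 1509915), (18, 1529220), (20, 1514430), (21, 1503780), (24, 1592430), (25, 1449840), (27,
 1546260), (28, 1620480), (30, 1416120), (35, 1479000), (36, 1473915), (40, 1555170), (42,
 1556580), (45, 1440180), (49, 1421160), (50, 1467120), (54, 1591860), (56, 1629600), (60,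
 1601310), (63, 1539180), (70, 1529400), (75, 1488480), (81, 1544520), (84, 1455660), (90,
 1581120), (98, 1521336), (100, 1503915), (105, 1488900), (125, 1566000), (126, 1574640), (135,
 1607040), (140, 1512000), (147, 1598340), (150, 1558260), (175, 1431000), (189, 1630980), (196,
 1523280), (210, 1537320), (225, 1580520), (245, 1541340), (250, 1569000), (294, 1537320), (315,
 1724640), (343, 1575000), (350, 1500000), (375, 1368000), (441, 1630980), (490, 1500000), (525,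
 1593660), (625, 1500000), (686, 1500000), (735, 1537320), (875, 1500000), (1029, 1593660), (1225,
 1500000), (1715, 1500000), (2401, 1500000)]))))
 (.rule 4 (.leaf 2400000000 (.add (.add (.add (.add (.mul (.g 7) (.add (.add (.mul (.g 4) (.add
 (.add (.pp [(1, 19334040000000)]) (.add (.mul (.g 4) (.add (.mul (.g 4) (.pp [(1,
 3868560000000)])) (.mul (.g 7) (.pp [(1, 17303592000000)])))) (.mul (.g 1) (.pp [(1, 750000)]))))
 (.add (.add (.mul (.g 3) (.pp [(1, 1296010800000)])) (.mul (.g 6) (.mul (.g 6) (.pp [(1,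
 48000000)])))) (.add (.mul (.g 7) (.mul (.g 7) (.pp [(1, 954768000000)]))) (.mul (.g 10) (.mul (.g
 13) (.pp [(1, 144000000)]))))))) (.add (.mul (.g 7) (.add (.add (.mul (.g 13) (.add (.pp [(1,
 312000000)]) (.mul (.g 10) (.pp [(1, 120000000)])))) (.mul (.g 2) (.pp [(1, 24000000)]))) (.add
 (.mul (.g 3) (.pp [(1, 1244647200000)])) (.mul (.g 7) (.mul (.g 9) (.pp [(1, 72000000)]))))))
 (.mul (.g 6) (.add (.mul (.g 6) (.add (.mul (.g 2) (.pp [(1, 48000000)])) (.mul (.g 5) (.pp [(1,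
 48000000)])))) (.add (.mul (.g 10) (.mul (.g 10) (.pp [(1, 552000000)]))) (.mul (.g 13) (.pp [(1,
 288000000)]))))))) (.add (.add (.mul (.g 1) (.add (.mul (.pp [(1, 600)]) (.sq [(1, 50), (2, 49),
 (3, 49), (5, 49), (7, 49)])) (.add (.mul (.g 5) (.pp [(1, 3750000)])) (.mul (.g 10) (.mul (.g 10)
 (.pp [(1, 17250000)])))))) (.mul (.g 2) (.add (.pp [(1, 622764000000)]) (.mul (.g 5) (.mul (.g 9)
 (.pp [(1, 36000000)])))))) (.add (.mul (.g 3) (.mul (.g 3) (.mul (.g 9) (.pp [(1, 180000)]))))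
 (.mul (.g 13) (.pp [(1, 1245264000000)])))))) (.mul (.g 5) (.add (.add (.pp [(1, 2134368000000)])
 (.mul (.g 3) (.add (.add (.pp [(1, 28800000)]) (.add (.mul (.pp [(1, 240)]) (.sq [(1, -4), (2,
 -100), (3, -98), (5, 59), (7, 78)])) (.mul (.g 3) (.mul (.g 13) (.pp [(1, 360000)]))))) (.add
 (.mul (.g 4) (.pp [(1, 15600000)])) (.add (.mul (.g 5) (.pp [(1, 20400000)])) (.mul (.g 6) (.pp
 [(1, 1200008400000)]))))))) (.add (.mul (.g 13) (.add (.pp [(1, 744000000)]) (.add (.mul (.pp [(1,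
 7200)]) (.sq [(1, 100), (2, 81), (3, 81), (5, 81), (7, 81)])) (.mul (.g 5) (.add (.pp [(1,
 240000000)]) (.mul (.g 5) (.pp [(1, 72000000)]))))))) (.add (.mul (.g 1) (.add (.pp [(1,
 37496250000)]) (.add (.mul (.g 5) (.pp [(1, 3000000)])) (.mul (.g 6) (.pp [(1, 1500000)])))))
 (.mul (.g 9) (.mul (.pp [(1, 12000)]) (.sq [(1, 35), (2, 78), (3, 100), (5, 7), (7, -13)]))))))))
 (.add (.mul (.g 6) (.add (.add (.pp [(1, 16798992000000)]) (.mul (.g 1) (.add (.pp [(1, 7500000)])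
 (.add (.mul (.pp [(1, 1500)]) (.sq [(1, 50), (2, 49), (3, 49), (5, 49), (7, 49)])) (.mul (.g 6)
 (.mul (.g 6) (.pp [(1, 3000000)]))))))) (.add (.mul (.g 3) (.add (.pp [(1, 22800000)]) (.mul (.g
 4) (.pp [(1, 3600000)])))) (.mul (.g 13) (.pp [(1, 720000000)]))))) (.add (.mul (.g 13) (.add
 (.add (.pp [(1, 622632000000)]) (.mul (.g 1) (.mul (.pp [(1, 75)]) (.sq [(2, 55), (3, -55), (5,
 100), (7, -21)])))) (.add (.mul (.g 8) (.mul (.g 13) (.mul (.g 14) (.pp [(1, 48000000)])))) (.add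
 (.mul (.g 9) (.mul (.pp [(1, 38400)]) (.sq [(1, 7), (2, -25), (3, 22), (5, -15), (7, 15)]))) (.mul
 (.g 10) (.mul (.pp [(1, 2400)]) (.sq [(1, 2), (2, -75), (3, 100), (5, -60), (7, 51)]))))))) (.mul
 (.g 3) (.add (.pp [(1, 620048400000)]) (.mul (.g 4) (.add (.mul (.pp [(1, 720)]) (.sq [(1, 83),
 (2, 80), (3, 100), (5, 100), (7, 38)])) (.mul (.g 4) (.add (.pp [(1, 136306800000)]) (.mul (.g 4)
 (.pp [(1, 11648400000)]))))))))))) (.add (.add (.mul (.g 0) (.pp [(1, 8000000000000)])) (.mul (.g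
 2) (.pp [(1, 7474908000000)]))) (.add (.mul (.g 4) (.mul (.g 4) (.pp [(1, 6744336000000)]))) (.add
 (.mul (.g 11) (.mul (.g 11) (.mul (.pp [(1, 12)]) (.sq [(1, -50), (2, 64), (3, 9), (5, 9), (7,
 100)])))) (.mul (.g 12) (.pp [(1, 32000000000)])))))) (.pp [(1, 376175288400), (2, 218028720), (3,
 221487360), (4, 245184813), (5, 233560800), (6, 280161606), (7, 217857600), (8, 276749280), (9,
 279060033), (10, 283961256), (12, 196852755), (14, 264443490), (15, 302522016), (16, 240499200),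
 (18, 253085370), (20, 233264580), (21, 280500510), (24, 249684000), (25, 255005268), (27,
 208111635), (28, 229908075), (30, 215251440), (35, 264373800), (36, 289396800), (40, 264192000),
 (42, 198358200), (45, 192766620), (49, 243746325), (50, 223479720), (54, 203851200), (56,
 204612000), (60, 262723200), (63, 212264445), (70, 256735200), (75, 189534120), (81, 244264800),
 (84, 265195200), (90, 177235200), (98, 216647070), (100, 250257600), (105, 223569240), (125,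
 204456420), (126, 162408000), (135, 224421600), (140, 331219200), (147, 257845965), (150,
 211864800), (175, 210219600), (189, 250428000), (196, 226353600), (210, 198792000), (225,
 200486400), (245, 270702300), (250, 225744000), (294, 255355200), (315, 238634400), (343,
 235972275), (350, 196934400), (375, 205528800), (441, 212484000), (490, 297590400), (525,
 233445600), (625, 210859200), (686, 242397600), (735, 205432800), (875, 243955200), (1029,
 236841600), (1225, 172118400), (1715, 234643200)])))))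
 (.split [(1, -1), (5, 2)]
 (.rule 4 (.leaf 30000000 (.add (.add (.add (.add (.mul (.g 3) (.add (.add (.pp [(1, 7750635000)])
 (.mul (.g 4) (.add (.add (.mul (.g 4) (.add (.add (.pp [(1, 1703940000)]) (.mul (.g 4) (.pp [(1,
 145650000)]))) (.add (.mul (.g 5) (.pp [(1, 105000)])) (.mul (.g 6) (.pp [(1, 105000)]))))) (.mul
 (.g 5) (.add (.pp [(1, 135000)]) (.mul (.g 5) (.pp [(1, 45000)]))))) (.add (.mul (.g 6) (.pp [(1,
 75000)])) (.mul (.g 7) (.pp [(1, 16200270000)])))))) (.add (.mul (.g 6) (.add (.add (.pp [(1,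
 300000)]) (.mul (.pp [(1, 18)]) (.sq [(1, 43), (2, 50), (3, 50), (5, 50), (7, 50)]))) (.add (.mul
 (.g 5) (.pp [(1, 14999940000)])) (.mul (.g 6) (.pp [(1, 15000)]))))) (.add (.mul (.g 7) (.add
 (.mul (.g 3) (.mul (.g 9) (.pp [(1, 2250)]))) (.add (.mul (.g 5) (.pp [(1, 15000)])) (.mul (.g 7)
 (.pp [(1, 15558195000)]))))) (.mul (.g 5) (.pp [(1, 375000)])))))) (.mul (.g 7) (.add (.add (.mul
 (.g 7) (.add (.mul (.g 4) (.add (.mul (.g 4) (.pp [(1, 216295200000)])) (.add (.mul (.g 7) (.pp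
 [(1, 11935800000)])) (.mul (.g 9) (.pp [(1, 1200000)]))))) (.add (.mul (.g 13) (.add (.pp [(1,
 1200000)]) (.mul (.g 10) (.pp [(1, 600000)])))) (.mul (.g 7) (.mul (.g 9) (.pp [(1, 600000)]))))))
 (.mul (.g 4) (.add (.pp [(1, 241671600000)]) (.mul (.g 4) (.mul (.g 4) (.pp [(1,
 48355800000)])))))) (.add (.mul (.g 13) (.add (.pp [(1, 15565200000)]) (.mul (.pp [(1, 90)]) (.sq
 [(1, 100), (2, 45), (3, 85), (5, 85), (7, 69)])))) (.add (.mul (.g 5) (.pp [(1, 15556500000)]))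
 (.mul (.g 9) (.mul (.pp [(1, 30)]) (.sq [(1, 49), (2, 100), (3, 11), (5, 11), (7, 100)]))))))))
 (.add (.mul (.g 13) (.add (.add (.pp [(1, 15567600000)]) (.mul (.g 5) (.add (.mul (.pp [(1, 30)])
 (.sq [(1, 100), (2, 81), (3, 81), (5, 81), (7, 81)])) (.mul (.g 5) (.pp [(1, 300000)]))))) (.add
 (.mul (.g 6) (.add (.pp [(1, 7200000)]) (.mul (.g 6) (.pp [(1, 1500000)])))) (.add (.mul (.g 8)
 (.mul (.g 13) (.add (.mul (.g 13) (.pp [(1, 300000)])) (.mul (.g 14) (.pp [(1, 300000)]))))) (.mul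
 (.g 1) (.mul (.pp [(1, 37500)]) (.sq [(1, 2), (2, 1), (3, 1), (5, 1), (7, 1)]))))))) (.add (.mul
 (.g 2) (.add (.mul (.g 5) (.add (.pp [(1, 2700000)]) (.mul (.pp [(1, 45)]) (.sq [(1, 100), (2,
 81), (3, 81), (5, 81), (7, 81)])))) (.add (.mul (.g 4) (.mul (.pp [(1, 45)]) (.sq [(1, 100), (2,
 81), (3, 81), (5, 81), (7, 81)]))) (.mul (.g 6) (.pp [(1, 7499850000)]))))) (.mul (.g 6) (.add
 (.pp [(1, 5760900000)]) (.mul (.g 14) (.pp [(1, 5700000)]))))))) (.add (.add (.mul (.g 0) (.pp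
 [(1, 100000000000)])) (.add (.mul (.g 1) (.pp [(1, 98361600000)])) (.mul (.g 4) (.mul (.g 4) (.pp
 [(1, 84301500000)]))))) (.add (.mul (.g 5) (.pp [(1, 225562200000)])) (.add (.mul (.g 12) (.pp
 [(1, 400000000)])) (.mul (.g 14) (.mul (.pp [(1, 900000)]) (.sq [(2, 1), (3, 1), (5, 1), (7,
 1)]))))))) (.pp [(1, 1842915000), (2, 3000000), (3, 3075000), (4, 2968500), (5, 2966718), (6,
 2946000), (7, 2925720), (8, 2854755), (9, 2872500), (10, 3459240), (12, 2932935), (14, 2937720),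
 (15, 3192600), (16, 3000000), (18, 3202605), (20, 3132510), (21, 2756940), (24, 2690490), (25,
 2945100), (27, 2014425), (28, 3185760), (30, 2616360), (35, 3159540), (36, 2868300), (40,
 3000000), (42, 3146520), (45, 2264850), (49, 2956500), (50, 3112755), (54, 1865130), (56,
 3000000), (60, 3055980), (63, 3441810), (70, 2759670), (75, 2830425), (81, 787320), (84, 2694060),
 (90, 3505620), (98, 3486855), (100, 1800000), (105, 2398770), (125, 780000), (126, 3000150), (135,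
 1649640), (140, 3009000), (147, 3325725), (150, 2540490), (175, 2700960), (189, 2425350), (196,
 3182250), (210, 3887880), (225, 937320), (245, 1407300), (250, 900000), (294, 2465550), (315,
 3504690), (343, 1376010), (350, 2012370), (375, 75000), (441, 3552930), (490, 3172500), (525,
 1157970), (686, 2958900), (735, 3706860), (875, 78630), (1029, 3181020), (1225, 866250), (1715,
 2630700), (2401, 428490)]))))
 (.split [(1, -1), (7, 2)]
 (.rule 4 (.leaf 1200000000 (.add (.add (.add (.add (.mul (.g 5) (.add (.add (.mul (.g 5) (.add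
 (.add (.pp [(1, 1754316000000)]) (.add (.mul (.g 4) (.add (.add (.mul (.g 6) (.pp [(1,
 5833800000)])) (.mul (.g 7) (.pp [(1, 19765800000)]))) (.add (.mul (.g 10) (.pp [(1,
 5824200000)])) (.mul (.g 15) (.pp [(1, 13914600000)]))))) (.mul (.g 1) (.add (.mul (.g 1) (.pp
 [(1, 1664940000000)])) (.mul (.g 5) (.pp [(1, 967128000000)])))))) (.add (.mul (.g 8) (.mul (.g 8)
 (.pp [(1, 1991844000000)]))) (.add (.mul (.g 9) (.mul (.g 15) (.pp [(1, 240000000)]))) (.mul (.g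
 14) (.pp [(1, 684000000)])))))) (.add (.mul (.g 8) (.add (.add (.pp [(1, 46920000000)]) (.add
 (.mul (.g 14) (.add (.pp [(1, 11968344000000)]) (.mul (.g 9) (.pp [(1, 252000000)])))) (.mul (.g
 1) (.mul (.g 1) (.pp [(1, 119220000000)]))))) (.add (.mul (.g 3) (.mul (.g 12) (.pp [(1,
 314948700000)]))) (.add (.mul (.g 6) (.mul (.g 11) (.pp [(1, 12598332000000)]))) (.mul (.g 7)
 (.mul (.g 7) (.pp [(1, 276000000)]))))))) (.mul (.g 14) (.add (.mul (.g 6) (.pp [(1, 696000000)]))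
 (.mul (.g 7) (.pp [(1, 6299436000000)])))))) (.add (.mul (.g 1) (.pp [(1, 507618000000)])) (.add
 (.mul (.g 2) (.pp [(1, 1183104000000)])) (.mul (.g 3) (.pp [(1, 348000000)])))))) (.mul (.g 7)
 (.add (.add (.mul (.g 6) (.add (.add (.mul (.g 6) (.add (.mul (.g 8) (.pp [(1, 72000000)])) (.add
 (.mul (.g 9) (.pp [(1, 11400180000000)])) (.mul (.g 11) (.pp [(1, 156000000)]))))) (.mul (.g 3)
 (.mul (.g 9) (.pp [(1, 5700108000000)])))) (.add (.mul (.g 8) (.mul (.g 8) (.pp [(1,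
 324000000)]))) (.mul (.g 11) (.mul (.g 11) (.pp [(1, 132000000)])))))) (.add (.mul (.g 4) (.add
 (.pp [(1, 196702200000)]) (.add (.mul (.pp [(1, 2160)]) (.sq [(1, 43), (2, 50), (3, 50), (5, 50),
 (7, 50)])) (.mul (.g 4) (.mul (.g 11) (.pp [(1, 2250000)])))))) (.mul (.g 8) (.mul (.g 15) (.add
 (.mul (.g 11) (.pp [(1, 156000000)])) (.mul (.g 12) (.pp [(1, 1800000)]))))))) (.add (.mul (.g 14)
 (.add (.pp [(1, 1188000000)]) (.mul (.g 7) (.pp [(1, 36000000)])))) (.add (.mul (.g 3) (.pp [(1,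
 1325832000000)])) (.mul (.g 11) (.mul (.pp [(1, 3600)]) (.sq [(1, 50), (2, 100), (3, 41), (5,
 -61), (7, 54)])))))))) (.add (.mul (.g 14) (.add (.add (.pp [(1, 264000000)]) (.mul (.g 8) (.add
 (.add (.pp [(1, 276000000)]) (.mul (.pp [(1, 10800)]) (.sq [(1, 100), (2, 45), (3, 85), (5, 85),
 (7, 69)]))) (.add (.mul (.g 3) (.mul (.g 3) (.pp [(1, 39000000)]))) (.mul (.g 8) (.mul (.g 9) (.pp
 [(1, 72000000)]))))))) (.add (.mul (.g 6) (.add (.pp [(1, 396000000)]) (.add (.mul (.g 6) (.pp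
 [(1, 132000000)])) (.mul (.g 14) (.mul (.g 14) (.pp [(1, 84000000)])))))) (.add (.mul (.g 1) (.add
 (.mul (.g 1) (.mul (.g 4) (.pp [(1, 7350000)]))) (.mul (.g 14) (.mul (.g 14) (.pp [(1,
 36000000)]))))) (.mul (.g 3) (.mul (.pp [(1, 17400)]) (.sq [(1, -17), (2, -100), (3, 73), (5, -4),
 (7, 100)]))))))) (.add (.mul (.g 10) (.add (.add (.mul (.g 11) (.add (.mul (.pp [(1, 1200)]) (.sq
 [(1, 24), (2, 100), (3, -41), (5, -51), (7, 41)])) (.mul (.pp [(1, 18000)]) (.sq [(1, -31), (2,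
 32), (3, -56), (5, 100), (7, -49)])))) (.mul (.g 12) (.add (.mul (.pp [(1, 660)]) (.sq [(1, 12),
 (2, 23), (3, 100), (5, 49), (7, 71)])) (.mul (.pp [(1, 180)]) (.sq [(1, 41), (2, 54), (3, 81), (5,
 100)]))))) (.add (.mul (.g 15) (.add (.mul (.pp [(1, 6000)]) (.sq [(1, -46), (2, -60), (3, -28),
 (5, 100), (7, -65)])) (.mul (.pp [(1, 6000)]) (.sq [(1, -83), (2, 100), (3, 100), (5, 100), (7,
 100)])))) (.mul (.g 6) (.mul (.pp [(1, 1200)]) (.sq [(1, -24), (2, -70), (3, 100), (5, 90), (7,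
 -89)])))))) (.mul (.g 2) (.add (.add (.mul (.pp [(1, 12000000)]) (.sq [(2, 1), (3, 1), (5, 1), (7,
 1)])) (.mul (.g 6) (.pp [(1, 1523628000000)]))) (.add (.mul (.g 9) (.mul (.pp [(1, 15000)]) (.sq
 [(1, -16), (2, 100), (3, 50), (5, -19), (7, -41)]))) (.add (.mul (.g 11) (.mul (.pp [(1, 21600)])
 (.sq [(1, 2), (2, 100), (3, -17), (5, 13), (7, 17)]))) (.mul (.g 12) (.pp [(1, 15000000)])))))))))
 (.add (.add (.mul (.g 12) (.add (.pp [(1, 343792800000)]) (.add (.mul (.g 8) (.pp [(1,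
 32400000)])) (.mul (.g 12) (.mul (.pp [(1, 3)]) (.sq [(1, -50), (2, 64), (3, 9), (5, 9), (7,
 100)])))))) (.mul (.g 3) (.add (.mul (.g 6) (.mul (.pp [(1, 10800)]) (.sq [(1, -14), (2, 100), (3,
 9), (5, 99), (7, -50)]))) (.mul (.g 15) (.mul (.pp [(1, 3600)]) (.sq [(1, -1), (2, -100), (3, 94),
 (5, -3), (7, -14)])))))) (.add (.mul (.g 11) (.add (.mul (.g 1) (.mul (.g 4) (.mul (.g 8) (.pp
 [(1, 3000000)])))) (.mul (.g 15) (.mul (.pp [(1, 264000)]) (.sq [(1, 1), (2, 50), (3, -10), (5,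
 5), (7, 13)]))))) (.add (.mul (.g 0) (.pp [(1, 4000000000000)])) (.mul (.g 13) (.pp [(1,
 16000000000)])))))) (.pp [(1, 165974918880), (2, 112588020), (3, 115736760), (4, 121571892), (5,
 100159320), (6, 143278824), (7, 110029560), (8, 116510100), (9, 131538897), (10, 142904424), (12,
 150140700), (14, 116862600), (15, 167168754), (16, 126997200), (18, 103168140), (20, 135113700),
 (21, 112724040), (24, 116604000), (25, 158678217), (27, 112929660), (28, 102587640), (30,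
 53324040), (35, 137046960), (36, 114708000), (40, 117816000), (42, 120834360), (45, 97890420),
 (49, 138242940), (50, 96638460), (54, 106663200), (56, 125143200), (60, 91480800), (63,
 154513800), (70, 125753280), (75, 78989700), (81, 126288000), (84, 108661200), (90, 143374800),
 (98, 133775340), (100, 117453600), (105, 100972680), (125, 91255140), (126, 144096000), (135,
 127803600), (140, 123580800), (147, 116193660), (150, 155064000), (175, 70229880), (189,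
 103730400), (196, 145646400), (210, 145279200), (225, 127280400), (245, 95653260), (250,
 125680800), (294, 96630000), (315, 113685600), (343, 121021200), (350, 115137600), (375,
 136611600), (441, 135915600), (490, 99384000), (525, 129949200), (625, 131222400), (686,
 127068000), (735, 155484000), (875, 135398400), (1029, 130102800), (1225, 139059600), (1715,
 126684000), (2401, 123418800)]))))
 (.rule 4 (.leaf 30000000 (.add (.add (.add (.add (.mul (.g 7) (.add (.add (.mul (.g 6) (.add (.add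
 (.pp [(1, 7715400000)]) (.add (.mul (.g 6) (.add (.add (.mul (.g 2) (.pp [(1, 48627600000)]))
 (.mul (.g 6) (.pp [(1, 1077300000)]))) (.add (.mul (.g 7) (.pp [(1, 2826900000)])) (.mul (.g 8)
 (.pp [(1, 81398100000)]))))) (.mul (.g 1) (.add (.mul (.g 1) (.pp [(1, 5503800000)])) (.mul (.g
 12) (.pp [(1, 1758247500)])))))) (.add (.mul (.g 2) (.mul (.g 14) (.pp [(1, 45891900000)]))) (.add
 (.mul (.g 7) (.mul (.g 7) (.pp [(1, 64128900000)]))) (.mul (.g 8) (.mul (.g 8) (.pp [(1,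
 236100000)]))))))) (.add (.mul (.g 4) (.add (.add (.mul (.pp [(1, 123144)]) (.sq [(1, 43), (2,
 50), (3, 50), (5, 50), (7, 50)])) (.mul (.g 5) (.mul (.g 10) (.pp [(1, 2684640000)])))) (.add
 (.mul (.g 11) (.pp [(1, 1355055000)])) (.mul (.g 12) (.pp [(1, 55358250)]))))) (.mul (.g 2) (.add
 (.pp [(1, 17944200000)]) (.add (.mul (.pp [(1, 682575)]) (.sq [(1, 7), (3, -95), (5, 100), (7,
 38)])) (.mul (.g 2) (.mul (.g 3) (.pp [(1, 929062500)])))))))) (.add (.add (.mul (.g 5) (.add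
 (.mul (.pp [(1, 4667640)]) (.sq [(1, 29), (2, 20), (3, -35), (5, 61), (7, 100)])) (.add (.mul (.g
 3) (.mul (.g 9) (.pp [(1, 16139850000)]))) (.mul (.g 14) (.pp [(1, 103083300000)]))))) (.mul (.g
 1) (.mul (.g 1) (.add (.mul (.g 1) (.pp [(1, 3448687500)])) (.mul (.g 15) (.pp [(1,
 10122225000)])))))) (.add (.mul (.g 7) (.add (.mul (.g 3) (.mul (.g 7) (.pp [(1, 26616000000)])))
 (.mul (.g 8) (.mul (.g 8) (.pp [(1, 8306100000)]))))) (.mul (.g 14) (.mul (.pp [(1, 432330)]) (.sq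
 [(1, 100), (2, 81), (3, 81), (5, 81), (7, 81)]))))))) (.mul (.g 8) (.add (.add (.mul (.g 8) (.add
 (.add (.mul (.g 1) (.add (.add (.mul (.g 1) (.pp [(1, 12941025000)])) (.mul (.g 2) (.pp [(1,
 7582125000)]))) (.add (.mul (.g 6) (.pp [(1, 48750000)])) (.mul (.g 8) (.pp [(1,
 25883550000)]))))) (.mul (.g 6) (.add (.mul (.g 3) (.pp [(1, 449850000)])) (.mul (.g 15) (.pp [(1,
 15314400000)]))))) (.add (.mul (.g 9) (.add (.mul (.g 8) (.pp [(1, 57499800000)])) (.mul (.g 14)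
 (.pp [(1, 13565400000)])))) (.mul (.g 2) (.mul (.g 2) (.pp [(1, 1407375000)])))))) (.mul (.g 5)
 (.add (.pp [(1, 5898300000)]) (.add (.mul (.g 9) (.add (.mul (.g 9) (.pp [(1, 41135400000)]))
 (.mul (.g 14) (.pp [(1, 2118300000)])))) (.mul (.g 11) (.add (.mul (.g 1) (.pp [(1,
 16474650000)])) (.mul (.g 4) (.pp [(1, 563250000)])))))))) (.add (.mul (.g 6) (.add (.pp [(1,
 8859000000)]) (.add (.mul (.g 3) (.mul (.g 11) (.pp [(1, 4025100000)]))) (.mul (.g 6) (.mul (.g 6)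
 (.pp [(1, 5607900000)])))))) (.add (.mul (.g 1) (.pp [(1, 43225800000)])) (.mul (.g 12) (.pp [(1,
 744225000)]))))))) (.add (.mul (.g 5) (.add (.add (.pp [(1, 21173400000)]) (.add (.mul (.g 5)
 (.add (.mul (.g 11) (.add (.mul (.g 2) (.pp [(1, 23401350000)])) (.add (.mul (.g 6) (.pp [(1,
 6268800000)])) (.mul (.g 11) (.pp [(1, 3819000000)]))))) (.add (.mul (.g 12) (.mul (.g 12) (.pp
 [(1, 1695000)]))) (.mul (.g 14) (.pp [(1, 35748000000)]))))) (.mul (.g 4) (.add (.pp [(1,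
 166920000)]) (.mul (.pp [(1, 2925)]) (.sq [(1, 83), (2, 80), (3, 100), (5, 100), (7, 38)]))))))
 (.add (.mul (.g 10) (.mul (.g 11) (.add (.mul (.g 6) (.pp [(1, 719400000)])) (.mul (.g 10) (.pp
 [(1, 7035900000)]))))) (.add (.mul (.g 2) (.pp [(1, 48506400000)])) (.mul (.g 3) (.pp [(1,
 14048850000)])))))) (.add (.mul (.g 6) (.add (.mul (.g 3) (.add (.pp [(1, 8680500000)]) (.mul (.g
 3) (.add (.mul (.g 3) (.pp [(1, 247237500)])) (.mul (.g 14) (.pp [(1, 43275000)])))))) (.add (.mul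
 (.g 6) (.add (.mul (.pp [(1, 75300)]) (.sq [(2, -30), (3, -92), (5, 100), (7, -25)])) (.mul (.g 2)
 (.mul (.g 6) (.pp [(1, 624000000)]))))) (.mul (.g 4) (.mul (.g 11) (.mul (.g 11) (.pp [(1,
 25215000)]))))))) (.mul (.g 1) (.mul (.g 1) (.add (.mul (.g 4) (.add (.mul (.g 1) (.pp [(1,
 215970000)])) (.add (.mul (.g 9) (.pp [(1, 2077995000)])) (.mul (.g 14) (.pp [(1, 267633750)])))))
 (.mul (.g 9) (.mul (.g 9) (.pp [(1, 3473550000)]))))))))) (.add (.add (.mul (.g 15) (.add (.mul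
 (.g 2) (.mul (.pp [(1, 979110)]) (.sq [(1, 2), (2, -24), (3, 11), (5, -34), (7, 100)]))) (.mul (.g
 15) (.mul (.pp [(1, 1539300)]) (.sq [(1, -40), (2, -81), (3, -100), (5, 86), (7, 95)]))))) (.mul
 (.g 0) (.pp [(1, 100000000000)]))) (.add (.mul (.g 10) (.mul (.g 14) (.mul (.pp [(1, 368790)])
 (.sq [(1, 20), (2, 100), (3, -64), (5, -61), (7, -16)])))) (.add (.mul (.g 12) (.pp [(1,
 9508755000)])) (.mul (.g 13) (.pp [(1, 400000000)])))))) (.pp [(1, 3729333810), (2, 3104235), (3,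
 3174810), (4, 3342840), (5, 2925699), (6, 3330480), (7, 2971350), (8, 3210000), (9, 3043050), (10,
 2614680), (12, 3207000), (14, 2678700), (15, 2442930), (16, 3300000), (18, 2729760), (20,
 2439150), (21, 2946480), (24, 2700000), (25, 3090240), (27, 2965080), (28, 3222000), (30,
 2706780), (35, 3520620), (36, 3318000), (40, 2544000), (42, 2632080), (45, 3004905), (49,
 3066660), (50, 3596310), (54, 3219840), (56, 3180000), (60, 3875130), (63, 3055680), (70,
 3144060), (75, 3692820), (81, 3096960), (84, 2760000), (90, 3137580), (98, 3092460), (100,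
 3676380), (105, 3726240), (125, 2681460), (126, 3335760), (135, 2660970), (140, 2819130), (147,
 3063000), (150, 3042810), (175, 2646810), (189, 3174240), (196, 2946000), (210, 3316920), (225,
 3288480), (245, 2309490), (250, 2724120), (294, 3020160), (315, 2815230), (343, 3105240), (350,
 3014850), (375, 2708100), (441, 2945340), (490, 3140340), (525, 2743530), (625, 3134880), (686,
 2910240), (735, 3081150), (875, 3123540), (1029, 3089760), (1225, 3350280), (1715, 3106890),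
 (2401, 3000000)])))))))
 (.rule 5 (.rule 6 (.leaf 15000000 (.add (.add (.add (.add (.mul (.g 6) (.add (.add (.add (.mul
 (.pp [(1, 30645)]) (.sq [(1, -34), (2, -80), (3, -83), (5, -23), (7, 100)])) (.mul (.g 4) (.add
 (.add (.mul (.g 4) (.add (.add (.pp [(1, 6531150000)]) (.mul (.g 3) (.pp [(1, 6128700000)])))
 (.add (.mul (.g 9) (.pp [(1, 1421100000)])) (.add (.mul (.g 12) (.pp [(1, 280500000)])) (.mul (.g
 13) (.pp [(1, 101550000)])))))) (.add (.mul (.g 2) (.add (.pp [(1, 984045000)]) (.mul (.g 7) (.pp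
 [(1, 4297275000)])))) (.mul (.g 3) (.add (.mul (.g 12) (.pp [(1, 13503000000)])) (.mul (.g 13)
 (.pp [(1, 4638750000)])))))) (.add (.mul (.g 5) (.mul (.g 6) (.pp [(1, 4334700000)]))) (.add (.mul
 (.g 7) (.mul (.g 12) (.pp [(1, 10091100000)]))) (.mul (.g 10) (.mul (.g 13) (.pp [(1,
 80100000)])))))))) (.add (.mul (.g 12) (.add (.add (.mul (.pp [(1, 4650)]) (.sq [(1, -65), (2,
 -24), (3, -65), (5, -25), (7, 100)])) (.mul (.g 3) (.add (.mul (.g 5) (.pp [(1, 55491900000)]))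
 (.add (.mul (.g 7) (.pp [(1, 104129550000)])) (.mul (.g 13) (.pp [(1, 32302500000)])))))) (.add
 (.mul (.g 6) (.mul (.g 10) (.pp [(1, 8070000)]))) (.mul (.g 12) (.pp [(1, 3183600000)]))))) (.mul
 (.g 5) (.add (.mul (.g 10) (.add (.mul (.g 3) (.pp [(1, 338887500)])) (.mul (.g 5) (.pp [(1,
 49957500)])))) (.add (.mul (.g 2) (.mul (.g 7) (.pp [(1, 482220000)]))) (.mul (.g 6) (.mul (.g 6)
 (.pp [(1, 216450000)])))))))) (.add (.add (.mul (.g 6) (.add (.mul (.g 6) (.pp [(1, 1129050000)]))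
 (.add (.mul (.g 9) (.mul (.g 13) (.pp [(1, 4424100000)]))) (.mul (.g 10) (.pp [(1,
 161460000)]))))) (.mul (.g 7) (.mul (.g 13) (.add (.mul (.g 3) (.pp [(1, 12085950000)])) (.mul (.g
 13) (.pp [(1, 6835500000)])))))) (.add (.mul (.g 2) (.mul (.pp [(1, 25887)]) (.sq [(1, -71), (2,
 100), (3, -4), (5, 39), (7, 42)]))) (.mul (.g 10) (.pp [(1, 680797500)])))))) (.mul (.g 12) (.add
 (.add (.mul (.g 4) (.add (.add (.pp [(1, 5601150000)]) (.mul (.g 4) (.add (.pp [(1, 2089500000)])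
 (.add (.mul (.g 7) (.pp [(1, 58500000)])) (.mul (.g 9) (.pp [(1, 533100000)])))))) (.add (.mul (.g
 5) (.mul (.g 5) (.pp [(1, 8484300000)]))) (.add (.mul (.g 7) (.mul (.g 12) (.pp [(1,
 207450000)]))) (.mul (.g 9) (.mul (.g 13) (.pp [(1, 3369600000)]))))))) (.mul (.g 3) (.add (.mul
 (.g 5) (.add (.mul (.g 3) (.pp [(1, 32277000000)])) (.add (.mul (.g 7) (.pp [(1, 14704800000)]))
 (.mul (.g 12) (.pp [(1, 10096800000)]))))) (.add (.mul (.g 2) (.mul (.g 13) (.pp [(1,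
 1681575000)]))) (.mul (.g 3) (.mul (.g 9) (.pp [(1, 6959400000)]))))))) (.add (.mul (.g 7) (.add
 (.pp [(1, 5028000000)]) (.mul (.pp [(1, 470175)]) (.sq [(1, -7), (2, 21), (3, -40), (5, 52), (7,
 100)])))) (.mul (.g 12) (.add (.mul (.pp [(1, 16005)]) (.sq [(1, 22), (2, 100), (3, 33), (5, -47),
 (7, 53)])) (.mul (.g 5) (.mul (.g 5) (.pp [(1, 4164900000)]))))))))) (.add (.mul (.g 13) (.add
 (.mul (.g 5) (.add (.add (.pp [(1, 10040550000)]) (.mul (.g 3) (.add (.mul (.g 3) (.pp [(1,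
 4318350000)])) (.mul (.g 13) (.pp [(1, 1274100000)]))))) (.add (.mul (.g 4) (.add (.mul (.g 9)
 (.pp [(1, 752250000)])) (.mul (.g 10) (.pp [(1, 149242500)])))) (.mul (.g 5) (.add (.mul (.g 5)
 (.pp [(1, 1113300000)])) (.mul (.g 7) (.pp [(1, 355800000)]))))))) (.add (.mul (.g 3) (.add (.mul
 (.g 3) (.add (.mul (.g 4) (.pp [(1, 14417250000)])) (.mul (.g 9) (.pp [(1, 5808000000)])))) (.mul
 (.g 13) (.pp [(1, 19486950000)])))) (.mul (.g 4) (.add (.pp [(1, 1551600000)]) (.mul (.g 4) (.mul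
 (.g 4) (.pp [(1, 5328600000)])))))))) (.mul (.g 7) (.add (.add (.mul (.g 7) (.add (.pp [(1,
 236550000)]) (.mul (.g 5) (.add (.mul (.g 5) (.pp [(1, 2388600000)])) (.mul (.g 7) (.pp [(1,
 49350000)])))))) (.mul (.g 3) (.mul (.g 3) (.add (.mul (.g 4) (.pp [(1, 7611000000)])) (.mul (.g
 10) (.pp [(1, 560932500)])))))) (.add (.mul (.g 4) (.pp [(1, 6158850000)])) (.add (.mul (.g 8)
 (.mul (.pp [(1, 1270020)]) (.sq [(1, -16), (2, 100), (3, 3), (5, 27), (7, -46)]))) (.mul (.g 10)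
 (.pp [(1, 3817665000)])))))))) (.add (.add (.mul (.g 10) (.add (.pp [(1, 1019910000)]) (.add (.mul
 (.g 3) (.mul (.g 8) (.pp [(1, 2589832500)]))) (.mul (.g 9) (.mul (.pp [(1, 5559)]) (.sq [(1, 30),
 (2, -15), (3, 68), (5, 100), (7, -45)])))))) (.mul (.g 0) (.pp [(1, 50000000000)]))) (.add (.mul
 (.g 1) (.pp [(1, 50000000000)])) (.add (.mul (.g 3) (.mul (.g 3) (.mul (.g 4) (.mul (.g 4) (.pp
 [(1, 5844450000)]))))) (.mul (.g 11) (.pp [(1, 200000000)])))))) (.pp [(1, 1317714885), (2,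
 1616625), (3, 1519095), (4, 1447395), (5, 1436040), (6, 1383975), (7, 1485312), (8, 1395700), (9,
 1483035), (10, 1742880), (12, 1608520), (14, 1344135), (15, 1499970), (16, 1534500), (18,
 1500136), (20, 1524895), (21, 1528956), (24, 1553025), (25, 1523895), (27, 1508754), (28,
 1498815), (30, 1376760), (35, 1414764), (36, 1485960), (40, 1479000), (42, 1295610), (45,
 1504884), (49, 1647717), (50, 1477480), (54, 1506660), (56, 1575825), (60, 1337640), (63,
 1325487), (70, 1572630), (75, 1425810), (81, 1574235), (84, 1545480), (90, 1444620), (98,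
 1451385), (100, 1591080), (105, 1588566), (125, 1574580), (126, 1614480), (135, 1506870), (140,
 1326120), (147, 1447053), (150, 1542180), (175, 1414782), (189, 1723470), (196, 1550220), (210,
 1502880), (225, 1552635), (245, 1554927), (250, 1395420), (294, 1726320), (315, 1557630), (343,
 1327098), (350, 1460940), (375, 1452000), (441, 1598280), (490, 1507440), (525, 1607760), (625,
 1500000), (686, 1583640), (735, 1504830), (875, 1470000), (1029, 1548420), (1225, 1611705), (1715,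
 1436910), (2401, 1541955)]))))))
 (P_c4 ++ xP_G_F3) = true := by decide +kernel

theorem t_G_F3_Op1 : chk ROp gP_G_F3
 (.split [(1, 1), (2, -20)]
 (.cut 1 [(1, -69), (3, 100)] (.add (.mul (.g 2) (.pp [(1, 31)])) (.mul (.g 9) (.pp [(1, 69)])))
 (.cut 1 [(1, 3), (3, -2)] (.add (.add (.mul (.g 2) (.pp [(1, 18)])) (.mul (.g 7) (.pp [(1, 2)])))
 (.add (.mul (.g 4) (.pp [(1, 2)])) (.mul (.g 1) (.pp [(1, 1)])))) (.rule 8 (.cut 1 [(1, 2), (2,
 1), (3, -2), (5, -1)] (.add (.mul (.g 9) (.pp [(1, 1)])) (.add (.mul (.g 14) (.pp [(1, 1)])) (.mul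
 (.g 7) (.pp [(1, 1)])))) (.cut 810 [(1, -1), (2, -2), (3, 2), (5, 2)] (.add (.add (.mul (.g 4)
 (.pp [(1, 81)])) (.mul (.g 2) (.pp [(1, 140)]))) (.add (.mul (.g 7) (.pp [(1, 1620)])) (.mul (.g
 3) (.pp [(1, 19)])))) (.rule 12 (.rule 4 (.leaf 60000000 (.add (.add (.add (.add (.mul (.g 11)
 (.add (.add (.add (.mul (.g 11) (.add (.add (.mul (.g 9) (.add (.mul (.g 10) (.pp [(1,
 16498200000)])) (.add (.mul (.g 13) (.pp [(1, 69056400000)])) (.mul (.g 18) (.pp [(1,
 19788000000)]))))) (.add (.mul (.g 7) (.add (.mul (.g 14) (.pp [(1, 6670380000)])) (.mul (.g 19)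
 (.pp [(1, 7367130000)])))) (.mul (.g 15) (.add (.pp [(1, 3198660000)]) (.mul (.g 18) (.pp [(1,
 305490000)])))))) (.add (.mul (.g 11) (.mul (.g 12) (.pp [(1, 116944200000)]))) (.add (.mul (.g
 14) (.mul (.g 19) (.pp [(1, 8800800000)]))) (.mul (.g 16) (.pp [(1, 21429600000)])))))) (.mul (.g
 9) (.add (.add (.pp [(1, 1124364000000)]) (.mul (.g 19) (.add (.mul (.g 7) (.pp [(1,
 4631130000)])) (.mul (.g 10) (.pp [(1, 6883800000)]))))) (.add (.mul (.g 8) (.mul (.g 8) (.pp [(1,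
 850963200000)]))) (.mul (.g 18) (.mul (.g 18) (.pp [(1, 45910800000)]))))))) (.add (.mul (.g 10)
 (.add (.add (.pp [(1, 163433400000)]) (.mul (.g 7) (.mul (.g 7) (.pp [(1, 1089255000)])))) (.add
 (.mul (.g 8) (.mul (.g 19) (.pp [(1, 38962800000)]))) (.mul (.g 10) (.mul (.g 10) (.pp [(1,
 9816000000)])))))) (.mul (.g 7) (.add (.mul (.g 7) (.mul (.g 7) (.pp [(1, 57809775)]))) (.mul (.g
 8) (.mul (.g 14) (.pp [(1, 21216810000)]))))))) (.add (.add (.mul (.g 18) (.add (.pp [(1,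
 201157800000)]) (.mul (.pp [(1, 1124640)]) (.sq [(1, -98), (2, -36), (3, 100), (5, -55), (7,
 99)])))) (.mul (.g 8) (.pp [(1, 114471000000)]))) (.add (.mul (.g 12) (.mul (.g 12) (.mul (.g 13)
 (.pp [(1, 50201400000)])))) (.mul (.g 16) (.pp [(1, 139949400000)])))))) (.add (.mul (.g 9) (.add
 (.add (.mul (.g 9) (.add (.add (.mul (.g 8) (.add (.mul (.g 8) (.pp [(1, 577432200000)])) (.mul
 (.g 19) (.pp [(1, 188633400000)])))) (.mul (.g 9) (.add (.mul (.g 10) (.pp [(1, 49345200000)]))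
 (.mul (.g 14) (.pp [(1, 125099400000)]))))) (.add (.mul (.g 10) (.mul (.g 10) (.pp [(1,
 37556400000)]))) (.mul (.g 13) (.mul (.g 16) (.pp [(1, 268941000000)])))))) (.add (.mul (.g 7)
 (.add (.mul (.pp [(1, 159876)]) (.sq [(1, 35), (2, 100), (3, 73), (5, -54), (7, -80)])) (.add
 (.mul (.g 7) (.mul (.g 18) (.pp [(1, 1596727500)]))) (.mul (.g 8) (.pp [(1, 39392280000)])))))
 (.mul (.g 13) (.add (.pp [(1, 287501400000)]) (.add (.mul (.pp [(1, 2632740)]) (.sq [(1, 1), (2,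
 100), (3, 41), (5, -2), (7, -5)])) (.mul (.g 13) (.pp [(1, 772899000000)]))))))) (.add (.mul (.g
 14) (.add (.mul (.g 19) (.add (.mul (.g 10) (.pp [(1, 69599400000)])) (.mul (.g 16) (.pp [(1,
 248140200000)])))) (.mul (.g 12) (.mul (.g 15) (.pp [(1, 1956660000)]))))) (.add (.mul (.g 8)
 (.mul (.g 8) (.mul (.g 10) (.pp [(1, 34392600000)])))) (.mul (.g 18) (.pp [(1,
 1100401800000)])))))) (.mul (.g 10) (.add (.add (.mul (.pp [(1, 5109780)]) (.sq [(3, -34), (5,
 100), (7, 15)])) (.add (.mul (.g 8) (.add (.pp [(1, 429115800000)]) (.add (.mul (.g 10) (.add (.pp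
 [(1, 70315200000)]) (.add (.mul (.g 10) (.pp [(1, 12501000000)])) (.mul (.g 14) (.pp [(1,
 1860000000)]))))) (.mul (.g 8) (.add (.pp [(1, 50859000000)]) (.mul (.g 12) (.pp [(1,
 21120000000)]))))))) (.mul (.g 13) (.add (.pp [(1, 827042400000)]) (.mul (.g 19) (.mul (.g 19)
 (.pp [(1, 50966400000)]))))))) (.add (.mul (.g 7) (.mul (.pp [(1, 359772)]) (.sq [(1, 41), (2,
 48), (3, 50), (5, 49), (7, 48)]))) (.add (.mul (.g 10) (.mul (.g 10) (.mul (.g 10) (.pp [(1,
 11569200000)])))) (.mul (.g 14) (.mul (.g 18) (.pp [(1, 139802400000)]))))))))) (.add (.mul (.g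
 16) (.add (.add (.pp [(1, 479958600000)]) (.mul (.g 8) (.pp [(1, 1038880800000)]))) (.add (.mul
 (.g 12) (.mul (.pp [(1, 6364800)]) (.sq [(1, -4), (2, -13), (3, -41), (5, 50), (7, 22)]))) (.add
 (.mul (.g 14) (.mul (.pp [(1, 7740300)]) (.sq [(1, -3), (2, 60), (3, 100), (5, 65), (7, -68)])))
 (.mul (.g 19) (.pp [(1, 420253800000)])))))) (.add (.mul (.g 18) (.add (.add (.mul (.g 18) (.add
 (.mul (.pp [(1, 963240)]) (.sq [(1, 41), (2, 100), (3, 40), (5, 54), (7, 67)])) (.mul (.pp [(1,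
 6145680)]) (.sq [(1, 2), (2, 77), (3, -100), (5, -98), (7, 33)])))) (.mul (.g 8) (.mul (.pp [(1,
 372960)]) (.sq [(1, 83), (2, 52), (3, 100), (5, 81), (7, 46)])))) (.add (.mul (.g 12) (.mul (.pp
 [(1, 10997820)]) (.sq [(1, -47), (2, 61), (3, 14), (5, 33), (7, 100)]))) (.mul (.g 13) (.mul (.pp
 [(1, 4059840)]) (.sq [(1, 33), (2, 59), (3, 44), (5, 100), (7, -81)])))))) (.mul (.g 7) (.add
 (.mul (.g 12) (.add (.mul (.pp [(1, 183789)]) (.sq [(1, -93), (2, -55), (3, -100), (5, 83), (7,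
 88)])) (.mul (.pp [(1, 274575)]) (.sq [(1, -58), (2, 86), (3, -53), (5, 15), (7, 100)])))) (.mul
 (.g 8) (.pp [(1, 34258770000)]))))))) (.add (.add (.mul (.g 0) (.pp [(1, 200000000000)])) (.add
 (.mul (.g 1) (.pp [(1, 200000000000)])) (.mul (.g 4) (.pp [(1, 60000000)])))) (.add (.mul (.g 8)
 (.mul (.g 8) (.mul (.g 8) (.mul (.g 14) (.pp [(1, 57560400000)]))))) (.add (.mul (.g 13) (.mul (.g
 19) (.mul (.pp [(1, 3939120)]) (.sq [(1, -67), (2, -11), (3, 10), (5, 100), (7, -64)])))) (.mul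
 (.g 17) (.pp [(1, 200000000000)])))))) (.pp [(1, 39679126459), (2, 5727111), (3, 6534720), (4,
 6569085), (5, 6427650), (6, 6288660), (7, 5648877), (8, 5798145), (9, 5445045), (10, 7552236),
 (12, 6843000), (14, 7295328), (15, 5720250), (16, 6031500), (18, 5307675), (20, 6020562), (21,
 5912220), (24, 6163860), (25, 4691088), (27, 6043376), (28, 5094660), (30, 5336430), (35,
 6599016), (36, 5854260), (40, 6328680), (42, 4876800), (45, 5641584), (49, 5991504), (50,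
 5569188), (54, 5385180), (56, 6249060), (60, 6005760), (63, 6320160), (70, 5952456), (75,
 6765264), (81, 6401700), (84, 4974000), (90, 6259680), (98, 5051856), (100, 6616320), (105,
 5759160), (125, 6962928), (126, 6188280), (135, 6687540), (140, 6574920), (147, 6076380), (150,
 5787840), (175, 5550492), (189, 5499480), (196, 6442320), (210, 6272640), (225, 6231540), (245,
 5793372), (250, 6115440), (294, 5947260), (315, 5306280), (343, 6078480), (350, 5785380), (375,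
 5723460), (441, 5901900), (490, 6542880), (525, 6131280), (625, 6000000), (686, 5797920), (735,
 5785860), (875, 6336000), (1029, 6120240), (1225, 5689920), (1715, 6113760), (2401,
 5966760)]))))))))))
 (.cut 1 [(2, -1), (3, 1)] (.add (.mul (.g 9) (.pp [(1, 1)])) (.mul (.g 5) (.pp [(1, 1)]))) (.rule
 1 (.cut 1 [(2, 1), (5, -1)] (.add (.mul (.g 11) (.pp [(1, 1)])) (.mul (.g 8) (.pp [(1, 1)])))
 (.rule 2 (.cut 11 [(1, -69), (3, 100)] (.add (.mul (.g 1) (.pp [(1, 620)])) (.add (.mul (.g 12)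
 (.pp [(1, 31)])) (.mul (.g 13) (.pp [(1, 480)])))) (.cut 1 [(1, 3), (3, -2)] (.add (.add (.mul (.g
 11) (.pp [(1, 1)])) (.mul (.g 16) (.pp [(1, 1)]))) (.add (.mul (.g 8) (.pp [(1, 1)])) (.add (.mul
 (.g 9) (.pp [(1, 1)])) (.mul (.g 10) (.pp [(1, 1)]))))) (.rule 8 (.rule 15 (.leaf 33000000 (.add
 (.add (.add (.add (.mul (.g 12) (.add (.add (.mul (.g 10) (.add (.add (.mul (.g 17) (.add (.add
 (.mul (.g 10) (.pp [(1, 14277450000)])) (.mul (.g 12) (.pp [(1, 65665050000)]))) (.add (.mul (.g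
 15) (.pp [(1, 46899930000)])) (.mul (.g 17) (.pp [(1, 156618660000)]))))) (.mul (.g 9) (.add (.mul
 (.g 9) (.pp [(1, 184031100000)])) (.mul (.g 13) (.pp [(1, 357720660000)]))))) (.add (.mul (.g 12)
 (.add (.mul (.g 13) (.pp [(1, 28504740000)])) (.mul (.g 20) (.pp [(1, 8382660000)])))) (.add (.mul
 (.g 10) (.mul (.g 20) (.pp [(1, 75123510000)]))) (.mul (.g 11) (.mul (.g 11) (.pp [(1,
 40949700000)]))))))) (.add (.mul (.g 11) (.add (.add (.pp [(1, 7077510000)]) (.add (.mul (.g 11)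
 (.add (.mul (.g 14) (.pp [(1, 50435880000)])) (.add (.mul (.g 15) (.pp [(1, 3520770000)])) (.mul
 (.g 19) (.pp [(1, 85286520000)]))))) (.mul (.g 17) (.add (.mul (.g 14) (.pp [(1, 5543340000)]))
 (.mul (.g 20) (.pp [(1, 50738490000)])))))) (.add (.mul (.g 9) (.mul (.g 9) (.pp [(1,
 79571910000)]))) (.add (.mul (.g 15) (.pp [(1, 3272610000)])) (.mul (.g 19) (.mul (.g 20) (.pp
 [(1, 49743870000)]))))))) (.mul (.g 12) (.add (.mul (.g 12) (.add (.pp [(1, 66427680000)]) (.mul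
 (.g 19) (.pp [(1, 30956970000)])))) (.mul (.g 16) (.pp [(1, 3007719000)])))))) (.add (.add (.mul
 (.g 9) (.add (.mul (.g 9) (.mul (.g 17) (.pp [(1, 17274180000)]))) (.mul (.g 13) (.mul (.g 19)
 (.pp [(1, 226704720000)]))))) (.mul (.g 15) (.mul (.pp [(1, 29106)]) (.sq [(1, -38), (2, 50), (3,
 7), (5, 100), (7, -35)])))) (.add (.mul (.g 17) (.pp [(1, 21748650000)])) (.mul (.g 19) (.pp [(1,
 78392490000)])))))) (.add (.mul (.g 19) (.add (.add (.pp [(1, 9792090000)]) (.add (.mul (.pp [(1,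
 938157)]) (.sq [(2, 75), (3, 59), (5, 59), (7, 100)])) (.mul (.g 9) (.add (.pp [(1, 71406060000)])
 (.add (.mul (.g 9) (.add (.mul (.g 9) (.pp [(1, 73438860000)])) (.add (.mul (.g 15) (.pp [(1,
 119393340000)])) (.mul (.g 20) (.pp [(1, 47049750000)]))))) (.mul (.g 13) (.mul (.g 17) (.pp [(1,
 67341120000)])))))))) (.add (.add (.mul (.g 19) (.add (.add (.mul (.pp [(1, 4148496)]) (.sq [(1,
 50), (2, -33), (3, -7), (5, -7), (7, -41)])) (.mul (.pp [(1, 2398011)]) (.sq [(1, -14), (2, 9),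
 (3, 47), (5, -10), (7, 100)]))) (.add (.mul (.g 10) (.add (.mul (.g 11) (.pp [(1, 20060370000)]))
 (.mul (.g 19) (.pp [(1, 58287570000)])))) (.mul (.g 11) (.mul (.g 11) (.pp [(1,
 40117770000)])))))) (.mul (.g 11) (.add (.pp [(1, 29461740000)]) (.mul (.g 11) (.mul (.g 14) (.pp
 [(1, 23935560000)])))))) (.add (.mul (.g 10) (.mul (.g 20) (.mul (.g 20) (.pp [(1,
 59183520000)])))) (.mul (.g 14) (.mul (.pp [(1, 237567)]) (.sq [(1, -29), (2, -70), (3, -44), (5,
 26), (7, 100)]))))))) (.mul (.g 10) (.add (.add (.mul (.g 17) (.add (.add (.pp [(1, 39431370000)])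
 (.mul (.pp [(1, 18675360)]) (.sq [(1, 15), (2, 8), (3, 50), (5, 12), (7, -35)]))) (.add (.mul (.g
 15) (.add (.mul (.g 10) (.pp [(1, 18013710000)])) (.mul (.g 20) (.pp [(1, 42427440000)])))) (.mul
 (.g 11) (.mul (.g 11) (.pp [(1, 101657160000)])))))) (.mul (.g 14) (.add (.pp [(1, 136266570000)])
 (.mul (.pp [(1, 1646733)]) (.sq [(1, -26), (2, -100), (3, 87), (5, -77), (7, 45)]))))) (.add (.mul
 (.g 20) (.add (.pp [(1, 61503750000)]) (.mul (.g 11) (.mul (.g 20) (.pp [(1, 39005340000)])))))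
 (.add (.mul (.g 13) (.mul (.g 15) (.mul (.g 15) (.pp [(1, 44237160000)])))) (.mul (.g 16) (.mul
 (.g 16) (.pp [(1, 23767425)]))))))))) (.add (.mul (.g 20) (.add (.add (.mul (.g 11) (.add (.pp
 [(1, 59092440000)]) (.add (.mul (.g 15) (.mul (.g 17) (.pp [(1, 28686240000)]))) (.mul (.g 16)
 (.mul (.g 16) (.pp [(1, 27033600)])))))) (.mul (.g 15) (.add (.mul (.pp [(1, 913506)]) (.sq [(2,
 -27), (3, -16), (5, -53), (7, 100)])) (.mul (.g 15) (.mul (.g 17) (.pp [(1, 27805470000)]))))))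
 (.add (.mul (.g 9) (.mul (.g 9) (.mul (.g 9) (.pp [(1, 3217500000)])))) (.mul (.g 17) (.pp [(1,
 37097280000)]))))) (.add (.mul (.g 13) (.add (.mul (.g 9) (.add (.pp [(1, 13066020000)]) (.add
 (.mul (.g 9) (.mul (.g 17) (.pp [(1, 15813930000)]))) (.mul (.g 13) (.pp [(1, 27243150000)])))))
 (.mul (.g 15) (.add (.mul (.g 8) (.mul (.g 13) (.pp [(1, 451555500)]))) (.mul (.g 11) (.mul (.g
 15) (.pp [(1, 12486210000)]))))))) (.mul (.g 14) (.add (.mul (.g 14) (.add (.mul (.pp [(1,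
 1337622)]) (.sq [(1, 1), (2, 66), (3, 8), (5, 100), (7, 48)])) (.mul (.g 15) (.pp [(1,
 68488200000)])))) (.mul (.g 11) (.pp [(1, 36644190000)]))))))) (.add (.add (.mul (.g 0) (.pp [(1,
 10000000000)])) (.add (.mul (.g 1) (.pp [(1, 33000000)])) (.mul (.g 4) (.pp [(1,
 110000000000)])))) (.add (.mul (.g 6) (.pp [(1, 110000000000)])) (.add (.mul (.g 9) (.mul (.g 17)
 (.pp [(1, 132901230000)]))) (.mul (.g 18) (.pp [(1, 110000000000)])))))) (.pp [(1, 718808375), (2,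
 3542857), (3, 3548557), (4, 3635258), (5, 3683747), (6, 3175139), (7, 3285447), (8, 3263106), (9,
 2868855), (10, 3525566), (12, 2836801), (14, 3118995), (15, 3082255), (16, 3428568), (18,
 3820322), (20, 3545850), (21, 3146253), (24, 3082332), (25, 3070529), (27, 3141798), (28,
 3050619), (30, 3305962), (35, 4055733), (36, 3312969), (40, 3406590), (42, 3261390), (45,
 3014836), (49, 3440580), (50, 3124506), (54, 3187041), (56, 3190308), (60, 2536710), (63,
 3857073), (70, 3755466), (75, 2617582), (81, 3561954), (84, 3632838), (90, 4107906), (98,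
 3513708), (100, 2831070), (105, 2507604), (125, 3376538), (126, 3052104), (135, 3239379), (140,
 3260004), (147, 3785727), (150, 4125363), (175, 2503941), (189, 2784078), (196, 3638877), (210,
 3245418), (225, 3215487), (245, 2863344), (250, 3575418), (294, 2672901), (315, 3195258), (343,
 3317952), (350, 3189780), (375, 3283995), (441, 2984190), (490, 3154404), (525, 4077810), (625,
 3258354), (686, 3074874), (735, 2945613), (875, 3559908), (1029, 3211494), (1225, 3375108), (1715,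
 3460446), (2401, 3238224)]))))))))))))
 (P_Op1 ++ xP_G_F3) = true := by decide +kernel

theorem t_G_F5a_c1 : chk RFp gP_G_F5a
 (.cut 50 [(2, 1), (3, -1)] (.add (.add (.mul (.g 8) (.pp [(1, 45)])) (.mul (.g 7) (.pp [(1, 2)])))
 (.add (.mul (.g 2) (.pp [(1, 5)])) (.mul (.g 9) (.pp [(1, 9)])))) (.rule 0 (.cut 60 [(2, -1), (5,
 1)] (.add (.add (.mul (.g 11) (.pp [(1, 11)])) (.mul (.g 9) (.pp [(1, 3)]))) (.add (.mul (.g 1)
 (.pp [(1, 5)])) (.mul (.g 6) (.pp [(1, 5)])))) (.rule 3 (.leaf 300000000 (.add (.add (.add (.add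
 (.mul (.g 5) (.add (.add (.mul (.g 11) (.add (.add (.mul (.pp [(1, 654735)]) (.sq [(1, 100), (2,
 -57), (3, 65), (5, 38)])) (.mul (.pp [(1, 40305)]) (.sq [(1, -27), (2, 100), (3, 89), (5, 26)])))
 (.add (.mul (.g 5) (.add (.pp [(1, 5928000000)]) (.mul (.g 16) (.pp [(1, 994500000)])))) (.add
 (.mul (.g 6) (.add (.mul (.g 15) (.pp [(1, 18538500000)])) (.mul (.g 16) (.pp [(1,
 16737750000)])))) (.mul (.g 10) (.pp [(1, 3492750000)])))))) (.mul (.g 6) (.add (.mul (.g 6) (.add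
 (.mul (.g 13) (.pp [(1, 314082000000)])) (.mul (.g 16) (.pp [(1, 201345000000)])))) (.mul (.g 13)
 (.pp [(1, 130438200000)]))))) (.add (.mul (.g 4) (.mul (.g 13) (.mul (.g 15) (.pp [(1,
 9408600000)])))) (.add (.mul (.g 5) (.mul (.g 16) (.pp [(1, 307197000000)]))) (.mul (.g 12) (.mul
 (.g 12) (.pp [(1, 600098250000)]))))))) (.mul (.g 8) (.add (.mul (.g 8) (.add (.add (.pp [(1,
 108441000000)]) (.mul (.pp [(1, 272100)]) (.sq [(1, 100), (2, 72), (3, -82), (5, 95)]))) (.add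
 (.mul (.g 4) (.add (.mul (.g 8) (.pp [(1, 77883000000)])) (.mul (.g 13) (.pp [(1,
 29166600000)])))) (.mul (.g 16) (.add (.pp [(1, 88158000000)]) (.mul (.g 8) (.pp [(1,
 41526000000)]))))))) (.add (.mul (.g 4) (.add (.mul (.g 12) (.add (.mul (.g 12) (.pp [(1,
 2910750000)])) (.mul (.g 15) (.pp [(1, 141523500000)])))) (.mul (.g 15) (.mul (.g 16) (.pp [(1,
 232134000000)]))))) (.mul (.g 13) (.pp [(1, 33868800000)])))))) (.add (.mul (.g 11) (.add (.add
 (.pp [(1, 16443150000)]) (.mul (.g 6) (.add (.mul (.g 4) (.mul (.g 15) (.pp [(1, 15959100000)])))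
 (.mul (.g 10) (.pp [(1, 2548200000)]))))) (.add (.mul (.g 16) (.add (.pp [(1, 2058600000)]) (.mul
 (.pp [(1, 103320)]) (.sq [(1, 45), (2, 100), (3, 3), (5, 41)])))) (.mul (.g 13) (.pp [(1,
 2847660000)]))))) (.add (.mul (.g 4) (.add (.mul (.g 4) (.mul (.g 4) (.add (.mul (.g 12) (.pp [(1,
 39603000000)])) (.mul (.g 13) (.pp [(1, 12474600000)]))))) (.mul (.g 6) (.mul (.g 9) (.mul (.g 16)
 (.pp [(1, 140808000000)])))))) (.mul (.g 0) (.pp [(1, 1000000000000)]))))) (.add (.add (.mul (.g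
 2) (.pp [(1, 1000000000000)])) (.mul (.g 6) (.mul (.g 6) (.mul (.g 12) (.mul (.g 12) (.pp [(1,
 21027000000)])))))) (.add (.mul (.g 9) (.mul (.g 9) (.mul (.pp [(1, 1712700)]) (.sq [(1, -9), (2,
 72), (3, 100), (5, -82)])))) (.add (.mul (.g 13) (.mul (.g 13) (.mul (.pp [(1, 350532)]) (.sq [(1,
 17), (2, -61), (3, -100), (5, -77)])))) (.mul (.g 14) (.pp [(1, 200000000)])))))) (.pp [(1,
 11929093308), (2, 32155272), (3, 31166265), (4, 31348212), (5, 29373504), (6, 29845740), (8,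
 27878400), (9, 31587750), (10, 32343768), (12, 32549175), (15, 29216280), (16, 30796800), (18,
 29587050), (20, 27469200), (24, 32030700), (25, 29162568), (27, 29250520), (30, 20801580), (36,
 27706200), (40, 28507200), (45, 32880240), (50, 35398200), (54, 29232600), (60, 29920500), (75,
 32320560), (81, 29774400), (90, 32160000), (100, 32612700), (125, 28713720), (135, 29383200),
 (150, 31249200), (225, 28572300), (250, 26812800), (375, 30172800), (625, 30423600)])))))))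
 (P_c1 ++ xP_G_F5a) = true := by decide +kernel

theorem t_G_F8_Op0 : chk ROp gP_G_F8
 (.split [(1, -69), (3, 100)]
 (.split [(2, 1), (3, -1)]
 (.split [(2, 1), (5, -1)]
 (.rule 0 (.rule 2 (.cut 1 [(1, 3), (3, -2)] (.add (.add (.mul (.g 3) (.pp [(1, 2)])) (.mul (.g 9)
 (.pp [(1, 3)]))) (.add (.mul (.g 7) (.pp [(1, 1)])) (.mul (.g 2) (.pp [(1, 1)])))) (.rule 8 (.leaf
 1500000 (.add (.add (.add (.add (.mul (.g 10) (.add (.add (.mul (.g 10) (.add (.add (.mul (.g 9)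
 (.add (.add (.mul (.g 7) (.pp [(1, 3343965000)])) (.mul (.g 8) (.pp [(1, 7276050000)]))) (.add
 (.mul (.g 13) (.pp [(1, 4232700000)])) (.mul (.g 15) (.pp [(1, 7928220000)]))))) (.mul (.g 6)
 (.add (.mul (.g 5) (.pp [(1, 1424550)])) (.mul (.g 10) (.pp [(1, 28948650)]))))) (.add (.mul (.g
 17) (.add (.mul (.g 7) (.pp [(1, 5964420000)])) (.mul (.g 13) (.pp [(1, 4997100000)])))) (.add
 (.mul (.g 18) (.add (.mul (.g 11) (.pp [(1, 530910000)])) (.mul (.g 14) (.pp [(1, 34283250)]))))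
 (.mul (.g 10) (.mul (.g 10) (.pp [(1, 2160120000)]))))))) (.add (.mul (.g 6) (.add (.add (.mul (.g
 7) (.add (.pp [(1, 56934600)]) (.mul (.g 6) (.pp [(1, 15270)])))) (.mul (.g 8) (.add (.mul (.g 9)
 (.pp [(1, 26773050)])) (.mul (.g 18) (.pp [(1, 6283050)]))))) (.add (.mul (.g 5) (.mul (.g 9) (.pp
 [(1, 22746000)]))) (.mul (.g 13) (.pp [(1, 2231100)]))))) (.mul (.g 11) (.add (.mul (.g 4) (.add
 (.mul (.g 15) (.pp [(1, 1154190000)])) (.add (.mul (.g 17) (.pp [(1, 24255000)])) (.mul (.g 18)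
 (.pp [(1, 481335000)]))))) (.mul (.g 12) (.mul (.g 18) (.pp [(1, 1323660000)]))))))) (.add (.add
 (.mul (.g 14) (.add (.mul (.g 8) (.add (.pp [(1, 23895750)]) (.mul (.g 8) (.pp [(1, 4164000)]))))
 (.mul (.g 9) (.add (.pp [(1, 95485500)]) (.mul (.g 17) (.pp [(1, 111197250)])))))) (.mul (.g 5)
 (.add (.pp [(1, 2275380000)]) (.add (.mul (.g 7) (.mul (.g 7) (.pp [(1, 168390000)]))) (.mul (.g
 17) (.mul (.g 17) (.pp [(1, 366255000)]))))))) (.add (.mul (.g 9) (.mul (.g 9) (.mul (.g 9) (.pp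
 [(1, 1430805000)])))) (.mul (.g 17) (.pp [(1, 4226445000)])))))) (.mul (.g 7) (.add (.add (.mul
 (.g 7) (.add (.mul (.g 17) (.add (.mul (.g 8) (.pp [(1, 596115000)])) (.add (.mul (.g 9) (.pp [(1,
 1027695000)])) (.mul (.g 11) (.pp [(1, 1342665000)]))))) (.add (.mul (.g 7) (.add (.mul (.g 11)
 (.pp [(1, 117735000)])) (.mul (.g 15) (.pp [(1, 825000)])))) (.mul (.g 13) (.mul (.g 15) (.pp [(1,
 202440000)])))))) (.add (.mul (.g 13) (.add (.mul (.g 12) (.add (.pp [(1, 471000000)]) (.mul (.g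
 15) (.pp [(1, 82980000)])))) (.add (.mul (.g 4) (.mul (.g 17) (.pp [(1, 437175000)]))) (.mul (.g
 5) (.pp [(1, 2180730000)]))))) (.mul (.g 4) (.add (.pp [(1, 31860000)]) (.mul (.g 5) (.mul (.g 11)
 (.pp [(1, 714045000)]))))))) (.add (.mul (.g 17) (.add (.pp [(1, 170385000)]) (.mul (.g 8) (.pp
 [(1, 5145570000)])))) (.add (.mul (.g 6) (.mul (.g 11) (.mul (.g 18) (.pp [(1, 12105450)]))))
 (.mul (.g 12) (.mul (.g 14) (.pp [(1, 35655750)])))))))) (.add (.mul (.g 8) (.add (.add (.mul (.g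
 17) (.add (.pp [(1, 1560840000)]) (.add (.mul (.pp [(1, 5001)]) (.sq [(1, 94), (2, 100), (3, 100),
 (5, 73), (7, 73)])) (.mul (.g 4) (.add (.pp [(1, 887655000)]) (.mul (.g 11) (.pp [(1,
 114030000)]))))))) (.mul (.g 5) (.add (.mul (.g 8) (.add (.mul (.g 4) (.pp [(1, 83280000)])) (.mul
 (.g 8) (.pp [(1, 150000)])))) (.mul (.g 5) (.pp [(1, 4916415000)]))))) (.add (.mul (.g 6) (.pp
 [(1, 2668350)])) (.mul (.g 8) (.mul (.g 9) (.mul (.g 11) (.pp [(1, 13275000)]))))))) (.add (.mul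
 (.g 4) (.add (.mul (.g 4) (.add (.mul (.g 11) (.add (.mul (.g 11) (.pp [(1, 614295000)])) (.mul
 (.g 13) (.pp [(1, 428850000)])))) (.mul (.g 9) (.pp [(1, 5362410000)])))) (.add (.mul (.g 5) (.mul
 (.g 13) (.pp [(1, 1136115000)]))) (.mul (.g 9) (.pp [(1, 1167405000)]))))) (.mul (.g 17) (.add
 (.add (.mul (.g 9) (.pp [(1, 2543100000)])) (.mul (.g 12) (.mul (.pp [(1, 6402)]) (.sq [(1, 89),
 (2, 15), (3, -84), (5, 78), (7, 100)])))) (.add (.mul (.g 13) (.mul (.pp [(1, 16479)]) (.sq [(1,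
 36), (2, -37), (3, 100), (5, 78), (7, 34)]))) (.add (.mul (.g 15) (.mul (.pp [(1, 12216)]) (.sq
 [(1, 34), (2, 95), (3, -84), (5, 52), (7, 100)]))) (.mul (.g 17) (.mul (.pp [(1, 211623)]) (.sq
 [(1, -91), (2, -25), (3, 55), (5, 17), (7, 100)])))))))))) (.add (.add (.mul (.g 5) (.add (.pp
 [(1, 1794945000)]) (.mul (.g 5) (.add (.pp [(1, 3398355000)]) (.mul (.g 11) (.mul (.g 11) (.pp
 [(1, 284970000)]))))))) (.add (.mul (.g 6) (.add (.mul (.g 11) (.pp [(1, 5260050)])) (.mul (.g 18)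
 (.pp [(1, 22877100)])))) (.mul (.g 0) (.pp [(1, 1500000)])))) (.add (.mul (.g 2) (.pp [(1,
 5000000000)])) (.add (.mul (.g 3) (.pp [(1, 5000000000)])) (.mul (.g 16) (.pp [(1,
 5000000000)])))))) (.pp [(1, 20681349), (2, 157542), (3, 139194), (4, 128079), (5, 146040), (6,
 183360), (7, 141264), (8, 114301), (9, 143721), (10, 147540), (12, 193539), (14, 132480), (15,
 161352), (16, 165000), (18, 131688), (20, 206277), (21, 173310), (24, 150000), (25, 162924), (27,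
 153608), (28, 149832), (30, 109356), (35, 166494), (36, 150000), (40, 135699), (42, 155004), (45,
 150582), (49, 171387), (50, 127854), (54, 150000), (56, 150699), (60, 151461), (63, 147654), (70,
 176856), (75, 134673), (81, 150000), (84, 151461), (90, 153312), (98, 154032), (100, 152394),
 (105, 107886), (125, 153716), (126, 138312), (135, 151392), (140, 150183), (147, 130743), (150,
 135534), (175, 147672), (189, 151392), (196, 147789), (210, 111420), (225, 155697), (245, 133530),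
 (250, 148614), (294, 140886), (315, 170322), (343, 135450), (350, 142584), (375, 155931), (441,
 149625), (490, 159246), (525, 166395), (625, 149421), (686, 150276), (735, 167517), (875, 145590),
 (1029, 157053), (1225, 147693), (1715, 151524), (2401, 150000)])))))))
 (.rule 0 (.rule 3 (.cut 31 [(1, 3), (3, -2)] (.add (.mul (.g 3) (.pp [(1, 162)])) (.add (.mul (.g
 9) (.pp [(1, 162)])) (.mul (.g 4) (.pp [(1, 1)])))) (.rule 8 (.leaf 7500000000 (.add (.add (.add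
 (.add (.mul (.pp [(1, 1204710000)]) (.sq [(1, -43), (2, 50), (3, 50), (5, -43)])) (.add (.mul (.g
 10) (.add (.add (.mul (.g 10) (.add (.add (.add (.mul (.g 9) (.add (.add (.mul (.g 7) (.pp [(1,
 6288750000000)])) (.mul (.g 8) (.pp [(1, 2583450000000)]))) (.add (.mul (.g 9) (.pp [(1,
 1291725000000)])) (.mul (.g 17) (.pp [(1, 375000000)]))))) (.mul (.g 5) (.add (.pp [(1,
 51680325000000)]) (.mul (.g 7) (.pp [(1, 2112975000000)]))))) (.add (.mul (.g 13) (.add (.pp [(1,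
 16008300000000)]) (.mul (.g 12) (.pp [(1, 1291050000000)])))) (.mul (.g 17) (.add (.pp [(1,
 51338100000000)]) (.mul (.g 7) (.pp [(1, 8439000000000)])))))) (.add (.add (.mul (.g 6) (.pp [(1,
 3433500000)])) (.mul (.g 8) (.mul (.g 8) (.pp [(1, 1291200000000)])))) (.add (.mul (.g 10) (.mul
 (.g 10) (.pp [(1, 21381750000000)]))) (.mul (.g 14) (.pp [(1, 1701888750000)])))))) (.mul (.g 5)
 (.add (.add (.mul (.g 9) (.add (.mul (.g 6) (.pp [(1, 118562250000)])) (.add (.mul (.g 8) (.pp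
 [(1, 3108600000000)])) (.mul (.g 9) (.pp [(1, 726825000000)]))))) (.mul (.g 15) (.add (.mul (.g 4)
 (.pp [(1, 8115000000000)])) (.mul (.g 13) (.pp [(1, 938100000000)]))))) (.add (.mul (.g 7) (.mul
 (.g 14) (.pp [(1, 53797500000)]))) (.mul (.g 8) (.mul (.g 18) (.pp [(1, 1905825000000)])))))))
 (.add (.mul (.g 6) (.add (.pp [(1, 63349500000)]) (.add (.mul (.g 8) (.add (.mul (.g 9) (.pp [(1,
 200433750000)])) (.mul (.g 18) (.pp [(1, 42986250000)])))) (.mul (.g 9) (.mul (.g 9) (.pp [(1,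
 3000000)])))))) (.add (.mul (.g 8) (.add (.mul (.g 4) (.mul (.g 15) (.pp [(1, 13192500000000)])))
 (.mul (.g 12) (.mul (.g 12) (.pp [(1, 727350000000)]))))) (.mul (.g 7) (.mul (.g 11) (.mul (.g 11)
 (.pp [(1, 2226675000000)])))))))) (.mul (.g 7) (.add (.add (.mul (.g 7) (.add (.add (.mul (.pp
 [(1, 38058000000)]) (.sq [(1, -4), (2, 5), (3, 5), (5, -4)])) (.mul (.g 5) (.add (.mul (.g 7) (.pp
 [(1, 6231450000000)])) (.mul (.g 11) (.pp [(1, 4327200000000)]))))) (.add (.mul (.g 8) (.add (.mul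
 (.g 17) (.pp [(1, 10953975000000)])) (.mul (.g 18) (.pp [(1, 5960025000000)])))) (.add (.mul (.g
 11) (.mul (.g 17) (.pp [(1, 9052950000000)]))) (.mul (.g 18) (.mul (.g 18) (.pp [(1,
 2482200000000)]))))))) (.mul (.g 4) (.add (.mul (.g 4) (.mul (.g 4) (.pp [(1, 373575000000)])))
 (.mul (.g 5) (.mul (.g 9) (.pp [(1, 8525100000000)])))))) (.add (.mul (.g 17) (.add (.pp [(1,
 13930350000000)]) (.mul (.pp [(1, 67005000)]) (.sq [(1, 83), (2, 73), (3, 100), (5, 75), (7,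
 35)])))) (.add (.mul (.g 5) (.mul (.g 9) (.mul (.g 18) (.pp [(1, 9531000000000)])))) (.mul (.g 8)
 (.mul (.g 12) (.pp [(1, 19765875000000)]))))))))) (.add (.mul (.g 6) (.add (.add (.mul (.g 6)
 (.add (.pp [(1, 76965000)]) (.mul (.g 6) (.add (.mul (.g 6) (.pp [(1, 14421)])) (.mul (.g 14) (.pp
 [(1, 47640)])))))) (.mul (.g 11) (.add (.mul (.g 9) (.add (.mul (.g 11) (.pp [(1, 75605250000)]))
 (.mul (.g 15) (.pp [(1, 63759750000)])))) (.mul (.g 14) (.mul (.g 15) (.pp [(1, 476025000)]))))))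
 (.add (.mul (.g 8) (.mul (.g 8) (.mul (.g 15) (.pp [(1, 23956500000)])))) (.mul (.g 18) (.pp [(1,
 85511250000)]))))) (.add (.mul (.g 17) (.add (.add (.mul (.pp [(1, 150000)]) (.sq [(2, 39), (3,
 50), (5, 50), (7, 39)])) (.mul (.g 8) (.add (.pp [(1, 4097925000000)]) (.add (.mul (.pp [(1,
 67500)]) (.sq [(1, 94), (2, 100), (3, 100), (5, 73), (7, 73)])) (.mul (.g 8) (.mul (.g 8) (.pp
 [(1, 1665450000000)]))))))) (.add (.mul (.g 9) (.add (.pp [(1, 4001025000000)]) (.mul (.g 9) (.mul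
 (.g 15) (.pp [(1, 75000000)]))))) (.add (.mul (.g 14) (.mul (.pp [(1, 1875)]) (.sq [(1, 29), (2,
 -32), (3, -15), (5, 89), (7, 100)]))) (.mul (.g 17) (.pp [(1, 1999725000000)])))))) (.mul (.g 5)
 (.add (.add (.mul (.g 5) (.add (.pp [(1, 13829925000000)]) (.add (.mul (.g 8) (.add (.pp [(1,
 14701200000000)]) (.mul (.g 9) (.pp [(1, 3328650000000)])))) (.mul (.g 13) (.pp [(1,
 8790075000000)]))))) (.mul (.g 4) (.pp [(1, 3477975000000)]))) (.add (.mul (.g 8) (.mul (.g 12)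
 (.pp [(1, 510375000000)]))) (.mul (.g 15) (.pp [(1, 1644300000000)])))))))) (.add (.add (.mul (.g
 4) (.add (.mul (.g 11) (.mul (.g 18) (.add (.mul (.g 4) (.pp [(1, 2025000000)])) (.mul (.g 11)
 (.pp [(1, 228000000000)]))))) (.mul (.g 12) (.mul (.pp [(1, 52500)]) (.sq [(1, 100), (2, -91), (3,
 17), (5, -97), (7, 12)]))))) (.add (.mul (.g 0) (.pp [(1, 7500000000)])) (.mul (.g 2) (.pp [(1,
 25000000000000)])))) (.add (.mul (.g 3) (.pp [(1, 25000000000000)])) (.add (.mul (.g 8) (.mul (.g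
 8) (.mul (.g 8) (.mul (.g 18) (.pp [(1, 2616075000000)]))))) (.mul (.g 16) (.pp [(1,
 25000000000000)])))))) (.pp [(1, 25780691094), (2, 724422300), (3, 798475050), (4, 908940000), (5,
 750424575), (6, 844890000), (7, 649183125), (8, 618007500), (9, 808621875), (10, 670282500), (12,
 901665000), (14, 752377500), (15, 613282500), (16, 809752500), (18, 700110000), (20, 831142500),
 (21, 539403750), (24, 752812500), (25, 744230625), (27, 795062500), (28, 700350000), (30,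
 608340000), (35, 793428750), (36, 777607500), (40, 808575000), (42, 683745000), (45, 748093125),
 (49, 927975000), (50, 861345000), (54, 734827500), (56, 741585000), (60, 655042500), (63,
 734578125), (70, 842985000), (75, 733901250), (81, 750000000), (84, 711480000), (90, 682927500),
 (98, 747285000), (100, 578805000), (105, 874286250), (125, 725398125), (126, 756142500), (135,
 773610000), (140, 749400000), (147, 894787500), (150, 699742500), (175, 799753125), (189,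
 683437500), (196, 718110000), (210, 590745000), (225, 735840000), (245, 778965000), (250,
 731377500), (294, 760440000), (315, 738232500), (343, 659400000), (350, 566017500), (375,
 802447500), (441, 723000000), (490, 709755000), (525, 830235000), (625, 791010000), (686,
 706125000), (735, 666682500), (875, 842317500), (1029, 734707500), (1225, 750060000), (1715,
 750000000), (2401, 750000000)]))))))))
 (.split [(2, 1), (5, -1)]
 (.rule 1 (.rule 2 (.cut 1 [(1, 3), (3, -2)] (.add (.add (.mul (.g 10) (.pp [(1, 1)])) (.mul (.g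
 13) (.pp [(1, 1)]))) (.add (.mul (.g 7) (.pp [(1, 1)])) (.mul (.g 9) (.pp [(1, 1)])))) (.rule 8
 (.leaf 300000000 (.add (.add (.add (.add (.mul (.g 9) (.add (.add (.mul (.g 5) (.add (.add (.mul
 (.g 8) (.add (.mul (.g 10) (.pp [(1, 764466000000)])) (.add (.mul (.g 11) (.pp [(1,
 117270000000)])) (.mul (.g 18) (.pp [(1, 285855000000)]))))) (.mul (.g 17) (.add (.mul (.g 7) (.pp
 [(1, 95406000000)])) (.add (.mul (.g 9) (.pp [(1, 113688000000)])) (.mul (.g 18) (.pp [(1,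
 307068000000)])))))) (.add (.mul (.g 10) (.add (.mul (.g 6) (.pp [(1, 7578540000)])) (.mul (.g 12)
 (.pp [(1, 546093000000)])))) (.mul (.g 5) (.pp [(1, 204507000000)]))))) (.add (.mul (.g 9) (.add
 (.mul (.g 9) (.add (.mul (.g 15) (.pp [(1, 717762000000)])) (.mul (.g 17) (.pp [(1,
 996105000000)])))) (.add (.mul (.g 10) (.add (.mul (.g 10) (.pp [(1, 877203000000)])) (.mul (.g
 11) (.pp [(1, 892149000000)])))) (.mul (.g 17) (.mul (.g 17) (.pp [(1, 1042170000000)])))))) (.mul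
 (.g 7) (.add (.add (.mul (.g 4) (.pp [(1, 260826000000)])) (.mul (.g 7) (.mul (.g 7) (.pp [(1,
 16545000000)])))) (.add (.mul (.g 10) (.mul (.g 18) (.pp [(1, 119853000000)]))) (.mul (.g 12) (.pp
 [(1, 273255000000)]))))))) (.add (.add (.mul (.g 4) (.add (.pp [(1, 246828000000)]) (.mul (.g 12)
 (.pp [(1, 1116402000000)])))) (.mul (.g 11) (.add (.mul (.pp [(1, 22774200)]) (.sq [(2, -64), (3,
 -3), (5, -61), (7, 100)])) (.mul (.g 11) (.mul (.g 13) (.pp [(1, 149610000000)])))))) (.add (.mul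
 (.g 17) (.add (.mul (.pp [(1, 106114800)]) (.sq [(1, -30), (2, 23), (3, -27), (5, 50), (7, 48)]))
 (.mul (.g 15) (.mul (.g 15) (.pp [(1, 273744000000)]))))) (.mul (.g 6) (.mul (.g 10) (.mul (.g 12)
 (.pp [(1, 3101910000)])))))))) (.add (.mul (.g 10) (.add (.add (.mul (.g 7) (.add (.add (.mul (.g
 10) (.add (.mul (.g 4) (.pp [(1, 190335000000)])) (.add (.mul (.g 15) (.pp [(1, 176289000000)]))
 (.mul (.g 17) (.pp [(1, 531879000000)]))))) (.mul (.g 4) (.mul (.g 7) (.pp [(1, 489000000)]))))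
 (.add (.mul (.g 6) (.mul (.g 15) (.pp [(1, 2863530000)]))) (.mul (.g 11) (.mul (.g 11) (.pp [(1,
 289752000000)])))))) (.add (.mul (.g 8) (.add (.mul (.g 6) (.add (.mul (.g 4) (.pp [(1,
 4931160000)])) (.add (.mul (.g 15) (.pp [(1, 747810000)])) (.mul (.g 18) (.pp [(1,
 1373610000)]))))) (.add (.mul (.g 8) (.mul (.g 17) (.pp [(1, 445986000000)]))) (.mul (.g 14) (.mul
 (.g 18) (.pp [(1, 30534900000)])))))) (.mul (.g 17) (.add (.pp [(1, 1031457000000)]) (.add (.mul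
 (.pp [(1, 1095600)]) (.sq [(1, 100), (2, 69), (3, 97), (5, 97), (7, 90)])) (.mul (.g 4) (.mul (.g
 17) (.pp [(1, 370584000000)])))))))) (.add (.mul (.g 10) (.add (.mul (.g 10) (.mul (.g 10) (.pp
 [(1, 265056000000)]))) (.mul (.g 12) (.mul (.g 14) (.pp [(1, 12380700000)]))))) (.add (.mul (.g 5)
 (.mul (.g 14) (.mul (.g 14) (.pp [(1, 254767500)])))) (.mul (.g 6) (.mul (.pp [(1, 133581)]) (.sq
 [(2, -1), (3, 3), (5, -4), (7, 100)]))))))) (.mul (.g 17) (.add (.add (.mul (.g 17) (.add (.mul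
 (.pp [(1, 20367900)]) (.sq [(1, -6), (2, 54), (3, -45), (5, 100), (7, -47)])) (.add (.mul (.pp
 [(1, 26870100)]) (.sq [(1, -34), (2, -31), (3, -100), (5, -62), (7, 72)])) (.mul (.pp [(1,
 41480100)]) (.sq [(1, -91), (2, -25), (3, 55), (5, 17), (7, 100)]))))) (.add (.mul (.g 6) (.add
 (.pp [(1, 4561230000)]) (.mul (.pp [(1, 17115)]) (.sq [(1, 100), (2, 74), (3, 30), (5, 45), (7,
 55)])))) (.mul (.g 7) (.add (.pp [(1, 147060000000)]) (.mul (.g 5) (.mul (.g 7) (.pp [(1,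
 105492000000)]))))))) (.add (.mul (.g 4) (.pp [(1, 200832000000)])) (.add (.mul (.g 12) (.mul (.pp
 [(1, 903600)]) (.sq [(1, 4), (2, -30), (3, 34), (5, 50), (7, -11)]))) (.mul (.g 14) (.mul (.pp
 [(1, 1324605)]) (.sq [(1, -11), (2, -10), (3, -44), (5, 41), (7, 100)]))))))))) (.add (.mul (.g 5)
 (.add (.add (.mul (.g 5) (.add (.mul (.pp [(1, 8628300)]) (.sq [(1, 83), (2, 48), (5, 100), (7,
 16)])) (.add (.mul (.pp [(1, 370800)]) (.sq [(1, 4), (2, 5), (3, 2), (5, 100), (7, -86)])) (.mul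
 (.g 5) (.mul (.g 7) (.pp [(1, 4380000000)])))))) (.mul (.g 6) (.pp [(1, 3723570000)]))) (.add
 (.mul (.g 14) (.mul (.pp [(1, 247905)]) (.sq [(1, -32), (2, -15), (3, 63), (5, 85), (7, -100)])))
 (.mul (.g 18) (.mul (.pp [(1, 652500)]) (.sq [(1, 2), (2, -61), (3, -96), (5, -61), (7,
 100)])))))) (.add (.mul (.g 4) (.add (.add (.mul (.g 7) (.add (.pp [(1, 652083000000)]) (.mul (.g
 13) (.pp [(1, 87942000000)])))) (.mul (.g 6) (.pp [(1, 2147550000)]))) (.add (.mul (.g 11) (.mul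
 (.pp [(1, 5476500)]) (.sq [(1, 9), (2, 55), (3, 100), (5, -4), (7, 98)]))) (.mul (.g 14) (.mul
 (.pp [(1, 379785)]) (.sq [(1, -100), (2, -69), (5, 87), (7, 15)])))))) (.mul (.g 15) (.add (.mul
 (.g 15) (.add (.mul (.pp [(1, 3091500)]) (.sq [(1, -83), (2, 100), (3, 100), (5, 100), (7, 100)]))
 (.mul (.pp [(1, 8820000)]) (.sq [(2, 1), (5, 49), (7, -50)])))) (.add (.mul (.g 6) (.mul (.pp [(1,
 28872)]) (.sq [(1, 7), (2, 100), (3, 84), (5, -1), (7, 100)]))) (.mul (.g 13) (.mul (.pp [(1,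
 4499100)]) (.sq [(1, 31), (2, 1), (3, -82), (5, -64), (7, 100)]))))))))) (.add (.add (.mul (.g 0)
 (.pp [(1, 300000000)])) (.add (.mul (.g 2) (.pp [(1, 1000000000000)])) (.mul (.g 3) (.pp [(1,
 1000000000000)])))) (.add (.mul (.g 6) (.mul (.g 18) (.pp [(1, 1579920000)]))) (.add (.mul (.g 11)
 (.mul (.g 11) (.mul (.pp [(1, 13537500)]) (.sq [(1, -34), (2, 100), (3, 23), (5, -50), (7,
 42)])))) (.mul (.g 16) (.pp [(1, 1000000000000)])))))) (.pp [(1, 4135871877), (2, 33141120), (3,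
 33872976), (4, 33923160), (5, 32702913), (6, 20764740), (7, 28310955), (8, 29901540), (9,
 27173220), (10, 21628500), (12, 28032675), (14, 26443800), (15, 25997508), (16, 30094500), (18,
 40060245), (20, 29579535), (21, 21613140), (24, 33657600), (25, 32168478), (27, 32660697), (28,
 28880979), (30, 36195900), (35, 33446940), (36, 22780200), (40, 27146100), (42, 35242866), (45,
 30345954), (49, 37104375), (50, 37735350), (54, 28916400), (56, 28120200), (60, 28650600), (63,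
 37812981), (70, 31036212), (75, 21674217), (81, 28849500), (84, 34199700), (90, 31149900), (98,
 37241325), (100, 32480700), (105, 37718424), (125, 23115895), (126, 22805400), (135, 29116500),
 (140, 40267800), (147, 33579000), (150, 29371500), (175, 19226904), (189, 27606300), (196,
 28609500), (210, 22015200), (225, 32337300), (245, 13232550), (250, 25011900), (294, 32122500),
 (315, 33804000), (343, 22800225), (350, 23292900), (375, 36230700), (441, 29421600), (490,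
 23014800), (525, 33304200), (625, 32660100), (686, 26774400), (735, 28916400), (875, 35063700),
 (1029, 29250900), (1225, 36735300), (1715, 33293400), (2401, 30070500)])))))))
 (.rule 1 (.rule 3 (.cut 1 [(1, 3), (3, -2)] (.add (.add (.mul (.g 5) (.pp [(1, 1)])) (.mul (.g 10)
 (.pp [(1, 2)]))) (.add (.mul (.g 2) (.pp [(1, 2)])) (.mul (.g 9) (.pp [(1, 1)])))) (.rule 8 (.leaf
 75000000 (.add (.add (.add (.add (.mul (.g 17) (.add (.add (.add (.mul (.g 7) (.add (.add (.mul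
 (.pp [(1, 732150)]) (.sq [(1, 100), (2, 78), (3, 96), (5, 96), (7, 47)])) (.mul (.g 7) (.pp [(1,
 174576750000)]))) (.add (.mul (.g 9) (.pp [(1, 38262750000)])) (.add (.mul (.g 10) (.mul (.g 10)
 (.pp [(1, 182949750000)]))) (.mul (.g 11) (.mul (.g 18) (.pp [(1, 149740500000)]))))))) (.mul (.g
 9) (.add (.add (.mul (.g 6) (.pp [(1, 30502500)])) (.mul (.g 8) (.mul (.g 18) (.pp [(1,
 48786000000)])))) (.add (.mul (.g 9) (.pp [(1, 47535000000)])) (.mul (.g 11) (.mul (.g 11) (.pp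
 [(1, 26553000000)]))))))) (.add (.mul (.g 10) (.add (.pp [(1, 4473000000)]) (.add (.mul (.g 8)
 (.pp [(1, 131610000000)])) (.mul (.g 10) (.pp [(1, 186488250000)]))))) (.add (.mul (.g 17) (.add
 (.mul (.pp [(1, 2799600)]) (.sq [(1, 100), (2, 55), (3, 59), (5, 67), (7, 48)])) (.mul (.pp [(1,
 5332350)]) (.sq [(1, -20), (2, -34), (3, -20), (5, 3), (7, 100)])))) (.mul (.g 4) (.mul (.pp [(1,
 1127325)]) (.sq [(1, -37), (2, -62), (3, -29), (5, 75), (7, 100)])))))) (.add (.add (.mul (.g 5)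
 (.pp [(1, 40719750000)])) (.add (.mul (.g 6) (.mul (.g 8) (.pp [(1, 493425000)]))) (.mul (.g 12)
 (.mul (.pp [(1, 2370600)]) (.sq [(1, -33), (2, 100), (3, 45), (5, 45), (7, -60)]))))) (.add (.mul
 (.g 13) (.mul (.pp [(1, 6629175)]) (.sq [(1, -33), (2, -38), (3, 13), (5, 41), (7, 100)]))) (.add
 (.mul (.g 14) (.mul (.pp [(1, 263265)]) (.sq [(1, -31), (2, -37), (3, 14), (5, 46), (7, 100)])))
 (.mul (.g 18) (.mul (.pp [(1, 3184575)]) (.sq [(1, -100), (2, 63), (3, 84), (5, 84), (7,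
 63)])))))))) (.add (.mul (.g 5) (.add (.add (.mul (.g 5) (.add (.add (.pp [(1, 31182750000)])
 (.mul (.pp [(1, 77025000)]) (.sq [(1, 9), (2, 20), (7, 16)]))) (.add (.mul (.g 5) (.add (.mul (.g
 7) (.pp [(1, 4809750000)])) (.add (.mul (.g 9) (.pp [(1, 91788750000)])) (.mul (.g 10) (.pp [(1,
 17852250000)]))))) (.mul (.g 9) (.mul (.g 9) (.pp [(1, 186072000000)])))))) (.add (.mul (.g 9)
 (.add (.add (.mul (.g 4) (.mul (.g 13) (.pp [(1, 51252000000)]))) (.mul (.g 6) (.mul (.g 9) (.pp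
 [(1, 124432500)])))) (.add (.mul (.g 10) (.mul (.g 12) (.pp [(1, 66245250000)]))) (.mul (.g 11)
 (.mul (.g 11) (.pp [(1, 1568250000)])))))) (.mul (.g 7) (.add (.mul (.g 4) (.add (.mul (.g 7) (.pp
 [(1, 43551750000)])) (.mul (.g 10) (.pp [(1, 80492250000)])))) (.mul (.g 10) (.mul (.g 11) (.pp
 [(1, 58099500000)]))))))) (.add (.mul (.g 6) (.pp [(1, 947430000)])) (.add (.mul (.g 10) (.mul (.g
 10) (.mul (.g 14) (.pp [(1, 112312500)])))) (.mul (.g 12) (.mul (.pp [(1, 673575)]) (.sq [(1,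
 -38), (2, 82), (3, -79), (5, -39), (7, -100)]))))))) (.mul (.g 12) (.add (.add (.mul (.g 7) (.add
 (.mul (.g 7) (.add (.add (.mul (.g 7) (.pp [(1, 46929750000)])) (.mul (.g 10) (.pp [(1,
 54506250000)]))) (.add (.mul (.g 12) (.pp [(1, 12339750000)])) (.mul (.g 15) (.pp [(1,
 80509500000)]))))) (.mul (.g 6) (.mul (.g 11) (.pp [(1, 320392500)]))))) (.add (.mul (.g 9) (.add
 (.mul (.pp [(1, 1852950)]) (.sq [(1, -58), (2, -83), (3, 19), (5, -54), (7, 100)])) (.add (.mul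
 (.g 10) (.mul (.g 10) (.pp [(1, 125414250000)]))) (.mul (.g 12) (.mul (.g 13) (.pp [(1,
 71301000000)])))))) (.mul (.g 4) (.add (.mul (.pp [(1, 621300)]) (.sq [(1, 3), (2, -11), (3, -65),
 (5, 70), (7, 100)])) (.mul (.g 4) (.mul (.g 8) (.pp [(1, 191062500000)]))))))) (.add (.mul (.g 6)
 (.mul (.pp [(1, 21876)]) (.sq [(1, 19), (2, 50), (3, 33), (5, -25), (7, 18)]))) (.add (.mul (.g
 12) (.pp [(1, 18246750000)])) (.mul (.g 13) (.mul (.pp [(1, 6001800)]) (.sq [(1, -68), (2, 61),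
 (3, 100), (5, 87), (7, -27)]))))))))) (.add (.mul (.g 10) (.add (.mul (.g 10) (.add (.add (.mul
 (.pp [(1, 64650)]) (.sq [(1, 28), (2, 86), (3, 93), (5, 100), (7, -76)])) (.mul (.pp [(1,
 61468200)]) (.sq [(1, -35), (3, 19), (5, -5), (7, 50)]))) (.add (.mul (.g 4) (.add (.mul (.g 14)
 (.pp [(1, 19219275000)])) (.mul (.g 18) (.pp [(1, 135387000000)])))) (.mul (.g 7) (.mul (.g 15)
 (.pp [(1, 58647750000)])))))) (.add (.mul (.g 6) (.add (.pp [(1, 72082500)]) (.mul (.g 8) (.mul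
 (.g 15) (.pp [(1, 396757500)]))))) (.mul (.g 4) (.mul (.g 7) (.mul (.g 11) (.pp [(1,
 175782000000)]))))))) (.add (.mul (.g 18) (.add (.add (.mul (.g 4) (.add (.mul (.pp [(1,
 12227100)]) (.sq [(1, -41), (2, 50), (3, -24), (5, 44), (7, -20)])) (.mul (.g 4) (.mul (.g 8) (.pp
 [(1, 23513250000)]))))) (.mul (.g 6) (.pp [(1, 1442445000)]))) (.add (.mul (.g 9) (.mul (.g 18)
 (.mul (.g 18) (.pp [(1, 15471750000)])))) (.mul (.g 15) (.mul (.pp [(1, 1018650)]) (.sq [(1, 38),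
 (2, -33), (3, -50), (5, -34), (7, 100)])))))) (.mul (.g 11) (.add (.mul (.g 15) (.add (.mul (.pp
 [(1, 1824300)]) (.sq [(1, 33), (2, -48), (3, 4), (5, -33), (7, 100)])) (.mul (.pp [(1, 51600)])
 (.sq [(1, -26), (2, 100), (3, -16), (5, 59), (7, -20)])))) (.mul (.g 11) (.mul (.pp [(1, 554850)])
 (.sq [(1, -45), (2, 100), (3, 67), (5, -11), (7, -18)])))))))) (.add (.add (.mul (.g 6) (.mul (.g
 6) (.add (.pp [(1, 2032725)]) (.mul (.g 6) (.mul (.g 13) (.pp [(1, 66597)])))))) (.add (.mul (.g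
 0) (.pp [(1, 75000000)])) (.mul (.g 2) (.pp [(1, 250000000000)])))) (.add (.add (.mul (.g 3) (.pp
 [(1, 250000000000)])) (.mul (.g 4) (.mul (.g 4) (.mul (.pp [(1, 1044900)]) (.sq [(1, 30), (2, 27),
 (3, -99), (5, -100), (7, 35)]))))) (.add (.mul (.g 7) (.mul (.g 13) (.mul (.pp [(1, 32056050)])
 (.sq [(1, 25), (2, 51), (5, -70), (7, 100)])))) (.mul (.g 16) (.pp [(1, 250000000000)])))))) (.pp
 [(1, 78719994), (2, 8154801), (3, 6566610), (4, 7647840), (5, 6444384), (6, 7627566), (7,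
 7867611), (8, 7650700), (9, 7533600), (10, 5736720), (12, 6974850), (14, 7349556), (15, 8687709),
 (16, 8047350), (18, 7491591), (20, 7537485), (21, 8600931), (24, 7843950), (25, 9776280), (27,
 8001234), (28, 7745910), (30, 9501210), (35, 9221424), (36, 6921225), (40, 6376500), (42,
 6729732), (45, 7706424), (49, 7699281), (50, 10053015), (54, 8201850), (56, 8378700), (60,
 6980550), (63, 8247618), (70, 9214740), (75, 7378320), (81, 7077975), (84, 4256400), (90,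
 7981875), (98, 8554956), (100, 9786300), (105, 5338998), (125, 5146140), (126, 9582000), (135,
 6823950), (140, 7253925), (147, 6408444), (150, 3672900), (175, 4958340), (189, 6998175), (196,
 8204100), (210, 7305300), (225, 8172525), (245, 5541294), (250, 4669125), (294, 6683400), (315,
 6862650), (343, 7785375), (350, 4959150), (375, 8038350), (441, 7603950), (490, 5046600), (525,
 7846575), (625, 8611350), (686, 6426150), (735, 9033600), (875, 8222400), (1029, 7368000), (1225,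
 8976375), (1715, 7047825), (2401, 7303200)])))))))))
 (.split [(1, -7), (3, 50)]
 (.split [(2, 1), (3, -1)]
 (.split [(2, 1), (5, -1)]
 (.rule 0 (.rule 2 (.rule 7 (.leaf 3000000 (.add (.add (.add (.add (.mul (.g 10) (.add (.add (.mul
 (.g 10) (.add (.add (.pp [(1, 1408710000)]) (.add (.mul (.g 17) (.add (.add (.mul (.g 7) (.pp [(1,
 6824070000)])) (.mul (.g 9) (.pp [(1, 17105700000)]))) (.add (.mul (.g 11) (.pp [(1,
 3309660000)])) (.add (.mul (.g 15) (.pp [(1, 120240000)])) (.mul (.g 17) (.pp [(1,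
 8552700000)])))))) (.mul (.g 8) (.add (.mul (.g 3) (.pp [(1, 54540000)])) (.add (.mul (.g 7) (.pp
 [(1, 89760000)])) (.mul (.g 8) (.pp [(1, 83340000)]))))))) (.add (.mul (.g 9) (.add (.pp [(1,
 115890000)]) (.add (.mul (.g 9) (.pp [(1, 8552700000)])) (.mul (.g 11) (.pp [(1, 839610000)])))))
 (.add (.mul (.g 4) (.mul (.g 10) (.pp [(1, 106110000)]))) (.mul (.g 7) (.pp [(1, 18270000)]))))))
 (.add (.mul (.g 3) (.add (.add (.mul (.g 9) (.add (.mul (.g 6) (.pp [(1, 76579800)])) (.add (.mul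
 (.g 7) (.pp [(1, 4647150000)])) (.mul (.g 8) (.pp [(1, 8204580000)]))))) (.mul (.g 3) (.mul (.g 8)
 (.pp [(1, 510120000)])))) (.add (.mul (.g 5) (.mul (.g 15) (.pp [(1, 128615400)]))) (.mul (.g 7)
 (.mul (.g 17) (.pp [(1, 4452420000)])))))) (.mul (.g 6) (.add (.mul (.g 5) (.add (.mul (.g 9) (.pp
 [(1, 1212954)])) (.mul (.g 12) (.pp [(1, 16242)])))) (.add (.mul (.g 18) (.add (.pp [(1,
 15131400)]) (.mul (.g 6) (.pp [(1, 36675)])))) (.mul (.g 4) (.mul (.g 7) (.pp [(1,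
 62952000)])))))))) (.add (.mul (.g 9) (.add (.mul (.g 11) (.mul (.g 18) (.pp [(1, 184980000)])))
 (.mul (.g 14) (.pp [(1, 42643500)])))) (.add (.mul (.g 5) (.mul (.g 7) (.mul (.g 7) (.pp [(1,
 52042800)])))) (.mul (.g 14) (.pp [(1, 123672000)])))))) (.add (.mul (.g 7) (.add (.add (.mul (.g
 7) (.add (.add (.mul (.g 17) (.add (.add (.mul (.g 7) (.pp [(1, 4709520000)])) (.mul (.g 9) (.pp
 [(1, 9008490000)]))) (.add (.mul (.g 11) (.pp [(1, 8643810000)])) (.mul (.g 17) (.pp [(1,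
 4494750000)]))))) (.mul (.g 4) (.add (.mul (.g 9) (.pp [(1, 5634570000)])) (.mul (.g 11) (.pp [(1,
 2295120000)]))))) (.add (.mul (.g 3) (.mul (.g 8) (.pp [(1, 2601750000)]))) (.add (.mul (.g 7)
 (.mul (.g 11) (.pp [(1, 1897950000)]))) (.mul (.g 13) (.mul (.g 15) (.pp [(1, 66240000)])))))))
 (.mul (.g 3) (.add (.pp [(1, 182730000)]) (.mul (.g 11) (.add (.mul (.g 11) (.pp [(1,
 187890000)])) (.mul (.g 13) (.pp [(1, 4423230000)]))))))) (.add (.mul (.g 4) (.mul (.pp [(1,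
 5070)]) (.sq [(1, -43), (2, -60), (3, 90), (5, -100), (7, 100)]))) (.add (.mul (.g 12) (.mul (.g
 14) (.pp [(1, 354105000)]))) (.mul (.g 17) (.pp [(1, 1500210000)])))))) (.mul (.g 8) (.add (.add
 (.mul (.g 17) (.add (.add (.pp [(1, 382950000)]) (.mul (.pp [(1, 2706)]) (.sq [(1, 94), (2, 100),
 (3, 100), (5, 73), (7, 73)]))) (.add (.mul (.g 9) (.add (.mul (.g 11) (.pp [(1, 3600750000)]))
 (.mul (.g 17) (.pp [(1, 21570000)])))) (.add (.mul (.g 3) (.mul (.g 11) (.pp [(1, 3436590000)])))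
 (.mul (.g 8) (.mul (.g 8) (.pp [(1, 14490000)]))))))) (.mul (.g 3) (.pp [(1, 8217540000)]))) (.add
 (.mul (.g 4) (.mul (.g 4) (.pp [(1, 9924780000)]))) (.mul (.g 14) (.pp [(1, 91614000)])))))))
 (.add (.mul (.g 13) (.add (.mul (.g 11) (.add (.mul (.pp [(1, 57192)]) (.sq [(1, -29), (2, -3),
 (3, -33), (5, -8), (7, 50)])) (.add (.mul (.g 3) (.mul (.g 3) (.pp [(1, 4080000)]))) (.mul (.g 14)
 (.pp [(1, 144165000)]))))) (.add (.mul (.g 4) (.add (.mul (.pp [(1, 4431)]) (.sq [(1, 13), (2,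
 -93), (3, 48), (5, -41), (7, 100)])) (.mul (.g 4) (.pp [(1, 8910000)])))) (.mul (.g 3) (.mul (.g
 3) (.pp [(1, 245490000)])))))) (.add (.mul (.g 3) (.add (.pp [(1, 965130000)]) (.add (.mul (.g 3)
 (.mul (.g 9) (.pp [(1, 7415370000)]))) (.mul (.g 4) (.mul (.g 11) (.mul (.g 11) (.pp [(1,
 590130000)]))))))) (.mul (.g 17) (.add (.mul (.g 9) (.add (.mul (.g 9) (.mul (.g 9) (.pp [(1,
 300000)]))) (.mul (.g 17) (.pp [(1, 2330790000)])))) (.mul (.g 17) (.pp [(1, 1722210000)])))))))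
 (.add (.add (.mul (.g 4) (.add (.mul (.g 4) (.pp [(1, 1589730000)])) (.mul (.g 6) (.pp [(1,
 84959700)])))) (.add (.mul (.g 0) (.pp [(1, 6000000)])) (.mul (.g 1) (.pp [(1, 10000000000)]))))
 (.add (.add (.mul (.g 2) (.pp [(1, 10000000000)])) (.mul (.g 11) (.mul (.g 14) (.pp [(1,
 167466000)])))) (.add (.mul (.g 15) (.mul (.g 15) (.mul (.pp [(1, 4683)]) (.sq [(1, -29), (2,
 100), (3, 46), (5, 79), (7, 6)])))) (.mul (.g 16) (.pp [(1, 10000000000)])))))) (.pp [(1,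
 372045597), (2, 286572), (3, 322662), (4, 267345), (5, 284034), (6, 310104), (7, 266295), (8,
 297962), (9, 294432), (10, 293913), (12, 356412), (14, 326286), (15, 318279), (16, 296991), (18,
 306426), (20, 323520), (21, 301302), (24, 321306), (25, 306309), (27, 320500), (28, 323400), (30,
 283566), (35, 329187), (36, 281607), (40, 256599), (42, 324300), (45, 311772), (49, 311412), (50,
 255606), (54, 287472), (56, 291000), (60, 343515), (63, 283416), (70, 290400), (75, 318966), (81,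
 299796), (84, 256800), (90, 250710), (98, 300000), (100, 312633), (105, 218508), (125, 309712),
 (126, 315000), (135, 282564), (140, 338400), (147, 314046), (150, 319464), (175, 289800), (189,
 292584), (196, 300000), (210, 322200), (225, 289092), (245, 330000), (250, 291777), (294, 267600),
 (315, 319116), (343, 300000), (350, 330600), (375, 298785), (441, 309012), (490, 270000), (525,
 266622), (625, 300000), (686, 300000), (735, 300822), (875, 300000), (1029, 290274), (1225,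
 300000), (1715, 300000), (2401, 300000)]))))))
 (.rule 0 (.rule 3 (.rule 7 (.leaf 7500000000 (.add (.add (.add (.add (.mul (.g 4) (.add (.add
 (.add (.mul (.g 10) (.add (.add (.mul (.pp [(1, 854625000)]) (.sq [(1, 6), (2, 58), (3, 82), (5,
 -29), (7, -100)])) (.mul (.g 10) (.add (.pp [(1, 12050550000000)]) (.add (.mul (.g 7) (.pp [(1,
 9493275000000)])) (.mul (.g 9) (.pp [(1, 15232275000000)])))))) (.add (.mul (.g 5) (.mul (.g 17)
 (.pp [(1, 187410000000)]))) (.add (.mul (.g 8) (.mul (.g 9) (.pp [(1, 5455650000000)]))) (.mul (.g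
 11) (.mul (.g 15) (.pp [(1, 3839475000000)]))))))) (.mul (.g 7) (.add (.add (.mul (.g 7) (.add
 (.mul (.g 7) (.pp [(1, 4745325000000)])) (.mul (.g 8) (.pp [(1, 600975000000)])))) (.mul (.g 3)
 (.mul (.g 12) (.pp [(1, 584400000000)])))) (.add (.mul (.g 4) (.mul (.g 11) (.pp [(1,
 4581450000000)]))) (.mul (.g 5) (.pp [(1, 112102500000)])))))) (.add (.mul (.g 9) (.add (.mul (.g
 9) (.add (.mul (.g 6) (.pp [(1, 94460250000)])) (.add (.mul (.g 14) (.pp [(1, 243236250000)]))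
 (.mul (.g 17) (.pp [(1, 6144675000000)]))))) (.mul (.g 4) (.mul (.g 8) (.pp [(1,
 3915825000000)]))))) (.add (.mul (.g 4) (.add (.pp [(1, 18976575000000)]) (.mul (.g 13) (.pp [(1,
 16643475000000)])))) (.mul (.g 12) (.add (.mul (.pp [(1, 62760000)]) (.sq [(1, -67), (2, 79), (3,
 -15), (7, 100)])) (.mul (.g 11) (.mul (.g 11) (.pp [(1, 1649775000000)])))))))) (.add (.add (.mul
 (.g 3) (.pp [(1, 3311925000000)])) (.mul (.g 14) (.mul (.pp [(1, 3393750)]) (.sq [(1, -23), (3,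
 -29), (5, 100), (7, -40)])))) (.add (.mul (.g 15) (.mul (.pp [(1, 312345000)]) (.sq [(1, 18), (2,
 -60), (3, 35), (5, -6), (7, 100)]))) (.add (.mul (.g 17) (.pp [(1, 25534650000000)])) (.mul (.g
 18) (.mul (.pp [(1, 223717500)]) (.sq [(1, -16), (2, -66), (3, 100), (5, -58), (7, 15)]))))))))
 (.add (.mul (.g 17) (.add (.add (.add (.mul (.g 13) (.add (.add (.mul (.pp [(1, 1256152500)]) (.sq
 [(1, -24), (2, -12), (3, 70), (5, -21), (7, 100)])) (.mul (.pp [(1, 87480000)]) (.sq [(1, -54),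
 (2, -25), (3, -44), (5, 63), (7, 100)]))) (.add (.mul (.pp [(1, 310620000)]) (.sq [(1, -30), (2,
 5), (3, 81), (5, 100), (7, -29)])) (.add (.mul (.g 7) (.mul (.g 7) (.pp [(1, 423150000000)])))
 (.mul (.g 9) (.mul (.g 17) (.pp [(1, 1260825000000)]))))))) (.mul (.g 17) (.add (.add (.mul (.pp
 [(1, 14872500)]) (.sq [(1, -100), (2, -35), (3, 53), (5, 53), (7, 98)])) (.mul (.pp [(1,
 269010000)]) (.sq [(1, 41), (2, -26), (3, 100), (5, 32), (7, -52)]))) (.add (.mul (.pp [(1,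
 306667500)]) (.sq [(1, 40), (2, 39), (3, -29), (5, 66), (7, -100)])) (.mul (.g 10) (.mul (.g 10)
 (.pp [(1, 8476650000000)]))))))) (.add (.mul (.g 5) (.add (.pp [(1, 358326000000)]) (.mul (.pp
 [(1, 1667250)]) (.sq [(1, 100), (2, 99), (3, 95), (5, 66), (7, 70)])))) (.add (.mul (.g 6) (.add
 (.mul (.g 3) (.mul (.g 3) (.pp [(1, 68955000000)]))) (.mul (.g 10) (.mul (.g 10) (.pp [(1,
 125862750000)]))))) (.mul (.g 7) (.add (.mul (.g 7) (.mul (.g 8) (.pp [(1, 16005600000000)])))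
 (.mul (.g 10) (.mul (.g 10) (.pp [(1, 28882950000000)])))))))) (.add (.add (.mul (.g 15) (.add
 (.mul (.pp [(1, 136050000)]) (.sq [(1, -100), (2, 44), (3, 64), (5, 87), (7, 71)])) (.mul (.pp
 [(1, 721725000)]) (.sq [(1, 6), (2, -39), (3, -33), (5, -31), (7, 100)])))) (.mul (.g 8) (.mul (.g
 8) (.mul (.g 8) (.pp [(1, 4554975000000)]))))) (.add (.mul (.g 11) (.mul (.pp [(1, 346605000)])
 (.sq [(1, -81), (2, 100), (3, 40), (5, 78), (7, 34)]))) (.add (.mul (.g 14) (.mul (.pp [(1,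
 13834125)]) (.sq [(1, 100), (2, -13), (3, 71), (5, -84), (7, 9)]))) (.mul (.g 18) (.mul (.pp [(1,
 436905000)]) (.sq [(1, 24), (2, 62), (3, 100), (5, -85), (7, 60)])))))))) (.mul (.g 5) (.add (.add
 (.mul (.pp [(1, 556200)]) (.sq [(1, -25), (2, 100), (3, 81), (5, -77), (7, 48)])) (.mul (.g 7)
 (.add (.mul (.g 7) (.add (.mul (.g 6) (.pp [(1, 36690000)])) (.mul (.g 18) (.pp [(1,
 86452500000)])))) (.mul (.g 12) (.pp [(1, 249474000000)]))))) (.add (.mul (.g 10) (.add (.mul (.g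
 10) (.add (.mul (.g 5) (.pp [(1, 1056540000)])) (.mul (.g 9) (.pp [(1, 689613000000)])))) (.mul
 (.g 8) (.mul (.g 8) (.pp [(1, 393541500000)]))))) (.add (.mul (.g 5) (.mul (.g 5) (.mul (.g 6)
 (.pp [(1, 75528)])))) (.mul (.g 9) (.mul (.pp [(1, 5737950)]) (.sq [(1, -26), (2, 100), (3, 81),
 (5, -83), (7, 55)]))))))))) (.add (.add (.mul (.g 14) (.add (.add (.mul (.pp [(1, 18694875)]) (.sq
 [(1, 15), (2, 43), (3, 31), (5, -84), (7, 100)])) (.mul (.g 3) (.mul (.pp [(1, 17247000)]) (.sq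
 [(1, -20), (2, 49), (3, 1), (7, 50)])))) (.add (.mul (.g 10) (.mul (.g 10) (.mul (.g 15) (.pp [(1,
 804510000000)])))) (.mul (.g 18) (.mul (.g 18) (.pp [(1, 48600000000)])))))) (.mul (.g 9) (.add
 (.mul (.pp [(1, 109770000)]) (.sq [(1, -61), (2, -27), (3, -56), (5, 100), (7, 90)])) (.add (.mul
 (.g 13) (.mul (.pp [(1, 262402500)]) (.sq [(1, 23), (2, -19), (3, 100), (5, -59), (7, 24)])))
 (.mul (.g 18) (.mul (.g 18) (.mul (.g 18) (.pp [(1, 2709075000000)])))))))) (.add (.mul (.g 12)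
 (.add (.mul (.g 18) (.add (.mul (.pp [(1, 132810000)]) (.sq [(1, -53), (2, 63), (3, 63), (5, 63),
 (7, 100)])) (.mul (.pp [(1, 210202500)]) (.sq [(1, 13), (2, -9), (3, 100), (5, -74), (7, 37)]))))
 (.mul (.g 12) (.mul (.pp [(1, 9382500)]) (.sq [(1, -36), (2, 59), (3, 25), (5, 25), (7, 100)])))))
 (.mul (.g 10) (.mul (.g 10) (.add (.mul (.pp [(1, 896820000)]) (.sq [(1, -23), (2, -3), (3, 17),
 (5, -44), (7, 100)])) (.mul (.g 6) (.mul (.g 6) (.pp [(1, 158295000)]))))))))) (.add (.add (.mul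
 (.g 0) (.pp [(1, 15000000000)])) (.add (.mul (.g 1) (.pp [(1, 25000000000000)])) (.mul (.g 2) (.pp
 [(1, 25000000000000)])))) (.add (.add (.mul (.g 3) (.mul (.pp [(1, 363570000)]) (.sq [(1, 14), (2,
 5), (3, 4), (5, -35), (7, 50)]))) (.mul (.g 7) (.mul (.pp [(1, 217267500)]) (.sq [(1, -27), (2,
 100), (3, 93), (5, -84), (7, 51)])))) (.add (.mul (.g 15) (.mul (.g 15) (.mul (.pp [(1,
 183990000)]) (.sq [(1, 44), (2, -83), (3, -57), (5, -9), (7, 100)])))) (.mul (.g 16) (.pp [(1,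
 25000000000000)])))))) (.pp [(1, 46273300551), (2, 599415000), (3, 869324400), (4, 924834750), (5,
 864366900), (6, 829593000), (7, 839220000), (8, 751879500), (9, 745797150), (10, 957804000), (12,
 553116000), (14, 840507750), (15, 545667600), (16, 703417500), (18, 841328250), (20, 599083125),
 (21, 564054150), (24, 792930000), (25, 572937000), (27, 751678750), (28, 586270125), (30,
 668939250), (35, 655690200), (36, 787590000), (40, 808852500), (42, 687965250), (45, 900086775),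
 (49, 687873225), (50, 586780500), (54, 770385000), (56, 728197500), (60, 828540000), (63,
 984904125), (70, 676700250), (75, 947034600), (81, 791677500), (84, 772035000), (90, 637732500),
 (98, 679307250), (100, 743467500), (105, 991272750), (125, 891109350), (126, 706147500), (135,
 734527500), (140, 987772500), (147, 725136750), (150, 766290000), (175, 782737500), (189,
 677070000), (196, 693285000), (210, 681060000), (225, 542572500), (245, 870344625), (250,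
 842940000), (294, 856770000), (315, 510262500), (343, 768127875), (350, 736102500), (375,
 700162500), (441, 712125000), (490, 888697500), (525, 565432500), (625, 688800000), (686,
 777727500), (735, 554445000), (875, 734602500), (1029, 689872500), (1225, 664927500), (1715,
 779392500), (2401, 736470000)])))))))
 (.split [(2, 1), (5, -1)]
 (.rule 1 (.rule 2 (.rule 7 (.leaf 300000000 (.add (.add (.add (.add (.mul (.g 9) (.add (.add (.add
 (.mul (.pp [(1, 2148300)]) (.sq [(2, 47), (3, -55), (5, 100), (7, -100)])) (.mul (.g 9) (.add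
 (.add (.mul (.g 9) (.add (.add (.mul (.g 6) (.pp [(1, 3909480000)])) (.mul (.g 9) (.pp [(1,
 224568000000)]))) (.add (.mul (.g 13) (.pp [(1, 46302000000)])) (.mul (.g 17) (.pp [(1,
 342957000000)]))))) (.mul (.g 6) (.add (.mul (.g 7) (.pp [(1, 338220000)])) (.mul (.g 10) (.pp
 [(1, 1768170000)]))))) (.add (.mul (.g 7) (.mul (.g 7) (.pp [(1, 85110000000)]))) (.add (.mul (.g
 10) (.mul (.g 10) (.pp [(1, 807432000000)]))) (.mul (.g 17) (.mul (.g 17) (.pp [(1,
 60921000000)])))))))) (.add (.mul (.g 10) (.add (.mul (.g 3) (.add (.pp [(1, 108675000000)]) (.mul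
 (.g 18) (.pp [(1, 204465000000)])))) (.add (.mul (.g 4) (.add (.mul (.g 4) (.pp [(1,
 93903000000)])) (.mul (.g 5) (.pp [(1, 597360000)])))) (.mul (.g 10) (.add (.mul (.g 7) (.pp [(1,
 104370000000)])) (.mul (.g 17) (.pp [(1, 1658070000000)]))))))) (.mul (.g 6) (.add (.mul (.g 8)
 (.add (.mul (.g 8) (.pp [(1, 1853640000)])) (.mul (.g 15) (.pp [(1, 317820000)])))) (.add (.mul
 (.g 5) (.mul (.g 6) (.pp [(1, 298560)]))) (.mul (.g 7) (.mul (.g 7) (.pp [(1, 2273130000)]))))))))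
 (.add (.add (.mul (.g 17) (.add (.mul (.pp [(1, 2238300)]) (.sq [(1, 1), (2, -31), (3, 66), (5,
 -47), (7, 100)])) (.add (.mul (.g 7) (.mul (.g 7) (.pp [(1, 145173000000)]))) (.mul (.g 17) (.pp
 [(1, 142581000000)]))))) (.mul (.g 5) (.add (.mul (.g 4) (.pp [(1, 4824660000)])) (.mul (.g 18)
 (.mul (.g 18) (.pp [(1, 5132280000)])))))) (.add (.mul (.g 3) (.mul (.g 12) (.pp [(1,
 512214000000)]))) (.add (.mul (.g 7) (.mul (.g 7) (.mul (.g 7) (.pp [(1, 103578000000)])))) (.mul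
 (.g 11) (.mul (.g 14) (.pp [(1, 62894100000)])))))))) (.add (.mul (.g 7) (.add (.add (.mul (.g 4)
 (.add (.mul (.g 11) (.add (.mul (.g 4) (.pp [(1, 11160000000)])) (.add (.mul (.g 8) (.pp [(1,
 16794000000)])) (.mul (.g 11) (.pp [(1, 124809000000)]))))) (.add (.mul (.g 4) (.pp [(1,
 19338000000)])) (.mul (.g 10) (.mul (.g 12) (.pp [(1, 49989000000)])))))) (.mul (.g 7) (.add (.mul
 (.g 6) (.add (.pp [(1, 3731010000)]) (.mul (.g 7) (.pp [(1, 191070000)])))) (.add (.mul (.g 3)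
 (.mul (.g 7) (.pp [(1, 118257000000)]))) (.mul (.g 13) (.mul (.g 17) (.pp [(1,
 39015000000)]))))))) (.add (.mul (.g 10) (.add (.mul (.g 10) (.add (.mul (.g 6) (.pp [(1,
 1324260000)])) (.mul (.g 17) (.pp [(1, 308871000000)])))) (.add (.mul (.g 3) (.mul (.g 17) (.pp
 [(1, 252516000000)]))) (.mul (.g 11) (.mul (.g 11) (.pp [(1, 175752000000)])))))) (.add (.mul (.g
 3) (.mul (.g 13) (.pp [(1, 543966000000)]))) (.mul (.g 17) (.pp [(1, 570489000000)])))))) (.mul
 (.g 17) (.add (.add (.mul (.pp [(1, 10782000)]) (.sq [(1, 6), (2, 62), (3, -33), (5, 95), (7,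
 -100)])) (.add (.mul (.g 17) (.add (.mul (.pp [(1, 5457000)]) (.sq [(1, -91), (2, -25), (3, 55),
 (5, 17), (7, 100)])) (.add (.mul (.pp [(1, 5240100)]) (.sq [(1, -37), (2, -100), (3, -92), (5,
 -54), (7, 86)])) (.mul (.g 10) (.mul (.g 10) (.pp [(1, 761943000000)])))))) (.mul (.g 3) (.add
 (.pp [(1, 212247000000)]) (.mul (.g 10) (.pp [(1, 58587000000)])))))) (.add (.mul (.g 6) (.mul
 (.pp [(1, 21240)]) (.sq [(1, 89), (2, 17), (3, -100), (5, 79), (7, 94)]))) (.add (.mul (.g 11)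
 (.mul (.pp [(1, 12111300)]) (.sq [(1, -47), (2, 100), (3, 25), (7, 84)]))) (.mul (.g 15) (.mul
 (.pp [(1, 484200)]) (.sq [(1, 66), (2, 100), (3, 71), (5, 66), (7, -92)]))))))))) (.add (.mul (.g
 14) (.add (.add (.mul (.g 18) (.add (.pp [(1, 6338400000)]) (.mul (.pp [(1, 31125)]) (.sq [(1, 3),
 (2, 17), (3, 92), (5, -20), (7, 100)])))) (.add (.mul (.g 3) (.pp [(1, 40480050000)])) (.mul (.g
 4) (.pp [(1, 51751050000)])))) (.add (.mul (.g 8) (.mul (.g 11) (.mul (.g 13) (.pp [(1,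
 293400000)])))) (.add (.mul (.g 10) (.pp [(1, 1518300000)])) (.mul (.g 12) (.mul (.pp [(1,
 73185)]) (.sq [(1, -11), (2, 16), (3, 81), (5, 19), (7, 100)]))))))) (.add (.mul (.g 3) (.add
 (.add (.mul (.g 8) (.add (.mul (.g 10) (.mul (.g 18) (.pp [(1, 93564000000)]))) (.mul (.g 11)
 (.mul (.g 12) (.pp [(1, 18576000000)]))))) (.mul (.g 4) (.pp [(1, 75657000000)]))) (.add (.mul (.g
 5) (.pp [(1, 33898260000)])) (.mul (.g 10) (.mul (.g 11) (.mul (.g 18) (.pp [(1,
 43764000000)]))))))) (.mul (.g 4) (.add (.mul (.g 4) (.pp [(1, 346797000000)])) (.add (.mul (.g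
 10) (.pp [(1, 8247000000)])) (.mul (.g 11) (.mul (.pp [(1, 11735400)]) (.sq [(1, -29), (2, 100),
 (5, -62), (7, 48)]))))))))) (.add (.add (.mul (.g 10) (.add (.mul (.g 6) (.mul (.g 6) (.mul (.g
 18) (.pp [(1, 9605700)])))) (.mul (.g 10) (.pp [(1, 47541000000)])))) (.add (.mul (.g 0) (.pp [(1,
 600000000)])) (.mul (.g 1) (.pp [(1, 1000000000000)])))) (.add (.mul (.g 2) (.pp [(1,
 1000000000000)])) (.add (.mul (.g 5) (.mul (.g 5) (.mul (.g 5) (.mul (.g 13) (.pp [(1,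
 76584)]))))) (.mul (.g 16) (.pp [(1, 1000000000000)])))))) (.pp [(1, 23004816030), (2, 29113563),
 (3, 30347217), (4, 35223345), (5, 29363112), (6, 28229130), (7, 30087840), (8, 21495540), (9,
 31207095), (10, 26681280), (12, 40869540), (14, 35432700), (15, 34962570), (16, 32707200), (18,
 29073585), (20, 34032495), (21, 24241800), (24, 26496000), (25, 29614995), (27, 31522035), (28,
 23986440), (30, 22430670), (35, 30125520), (36, 32222100), (40, 30572700), (42, 25178400), (45,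
 26585565), (49, 31324260), (50, 22747605), (54, 28239000), (56, 33000000), (60, 28429500), (63,
 25911300), (70, 32407320), (75, 31462965), (81, 30335700), (84, 28764000), (90, 27279300), (98,
 29388960), (100, 32949900), (105, 28196400), (125, 32497495), (126, 25357500), (135, 28927800),
 (140, 32897100), (147, 36105600), (150, 31281000), (175, 35425080), (189, 31087800), (196,
 33173400), (210, 35787600), (225, 31989600), (245, 27794880), (250, 30614400), (294, 32787600),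
 (315, 34778400), (343, 28245360), (350, 29626200), (375, 30564000), (441, 34157400), (490,
 26017200), (525, 33519600), (625, 30595800), (686, 28387200), (735, 27565200), (875, 28284300),
 (1029, 26409600), (1225, 28493400), (1715, 31689600), (2401, 31220400)]))))))
 (.rule 1 (.rule 3 (.rule 7 (.leaf 300000000 (.add (.add (.add (.add (.mul (.pp [(1, 79020000)])
 (.sq [(1, 17), (2, 76), (3, -100), (5, -3), (7, -2)])) (.add (.mul (.pp [(1, 32904900)]) (.sq [(1,
 25), (2, 100), (3, -92), (5, -26), (7, 11)])) (.mul (.g 7) (.add (.add (.add (.mul (.pp [(1,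
 28531500)]) (.sq [(1, 5), (2, 10), (3, 100), (5, -66), (7, 56)])) (.mul (.g 17) (.add (.add (.mul
 (.g 8) (.add (.pp [(1, 1221999000000)]) (.mul (.g 18) (.pp [(1, 428583000000)])))) (.add (.mul (.g
 10) (.add (.mul (.g 10) (.pp [(1, 1249923000000)])) (.mul (.g 15) (.pp [(1, 370098000000)]))))
 (.mul (.g 17) (.add (.pp [(1, 17319000000)]) (.mul (.g 9) (.pp [(1, 95154000000)])))))) (.add
 (.mul (.g 5) (.pp [(1, 2106540000)])) (.add (.mul (.g 7) (.mul (.g 11) (.pp [(1, 41871000000)])))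
 (.mul (.g 18) (.mul (.g 18) (.pp [(1, 43218000000)])))))))) (.add (.mul (.g 4) (.add (.mul (.g 10)
 (.add (.mul (.g 6) (.pp [(1, 1808100000)])) (.add (.mul (.g 11) (.pp [(1, 226941000000)])) (.mul
 (.g 18) (.pp [(1, 442077000000)]))))) (.add (.mul (.g 4) (.add (.mul (.g 3) (.pp [(1,
 267234000000)])) (.mul (.g 9) (.pp [(1, 45477000000)])))) (.mul (.g 18) (.mul (.g 18) (.pp [(1,
 51264000000)])))))) (.mul (.g 12) (.add (.mul (.g 7) (.add (.pp [(1, 366615000000)]) (.add (.mul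
 (.g 7) (.pp [(1, 289263000000)])) (.mul (.g 9) (.pp [(1, 54444000000)]))))) (.add (.mul (.g 9)
 (.mul (.g 9) (.pp [(1, 60390000000)]))) (.mul (.g 14) (.pp [(1, 7309950000)]))))))) (.add (.add
 (.mul (.g 10) (.mul (.g 10) (.add (.mul (.g 5) (.pp [(1, 1282740000)])) (.mul (.g 7) (.pp [(1,
 192285000000)]))))) (.mul (.g 6) (.mul (.g 6) (.mul (.g 6) (.pp [(1, 91266)]))))) (.add (.mul (.g
 8) (.mul (.pp [(1, 12905400)]) (.sq [(1, -1), (2, 22), (3, 100), (5, -72), (7, 67)]))) (.mul (.g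
 9) (.mul (.pp [(1, 7646700)]) (.sq [(1, 29), (2, -19), (3, 90), (5, -71), (7, 100)]))))))))) (.add
 (.add (.mul (.g 5) (.add (.add (.mul (.g 5) (.add (.add (.mul (.g 12) (.add (.pp [(1, 16488000)])
 (.add (.mul (.g 8) (.pp [(1, 970800)])) (.mul (.g 9) (.pp [(1, 71370000)]))))) (.mul (.g 17) (.add
 (.pp [(1, 77449200)]) (.mul (.g 6) (.pp [(1, 9384)]))))) (.add (.mul (.g 4) (.mul (.g 18) (.pp
 [(1, 39166800)]))) (.mul (.g 10) (.mul (.g 10) (.pp [(1, 62025600)])))))) (.mul (.g 4) (.add (.mul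
 (.g 4) (.add (.mul (.g 3) (.pp [(1, 829440000)])) (.add (.mul (.g 4) (.pp [(1, 52080000)])) (.mul
 (.g 9) (.pp [(1, 2502720000)]))))) (.mul (.g 8) (.mul (.g 17) (.pp [(1, 556260000)])))))) (.add
 (.mul (.g 9) (.add (.mul (.pp [(1, 147882)]) (.sq [(1, 12), (2, 58), (3, 50), (5, -71), (7,
 100)])) (.mul (.g 17) (.add (.mul (.g 9) (.pp [(1, 260400000)])) (.mul (.g 17) (.pp [(1,
 1737480000)])))))) (.add (.mul (.g 11) (.mul (.pp [(1, 5088)]) (.sq [(1, 45), (2, -93), (3, -100),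
 (5, 18), (7, -27)]))) (.mul (.g 17) (.mul (.g 17) (.pp [(1, 840060000)]))))))) (.mul (.g 14) (.add
 (.add (.mul (.pp [(1, 1348620)]) (.sq [(1, 9), (2, 26), (3, -4), (5, -25), (7, 50)])) (.add (.mul
 (.pp [(1, 277800)]) (.sq [(1, 19), (2, -2), (3, 54), (5, -49), (7, 100)])) (.mul (.g 10) (.add
 (.mul (.g 10) (.add (.pp [(1, 1970850000)]) (.add (.mul (.g 12) (.pp [(1, 6809400000)])) (.mul (.g
 17) (.pp [(1, 38216100000)]))))) (.mul (.g 12) (.add (.pp [(1, 908250000)]) (.mul (.g 6) (.pp [(1,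
 10591500)])))))))) (.add (.mul (.g 9) (.mul (.pp [(1, 368925)]) (.sq [(1, 20), (2, -5), (3, 57),
 (5, -51), (7, 100)]))) (.add (.mul (.g 12) (.mul (.pp [(1, 16635)]) (.sq [(1, 12), (2, 55), (3,
 -25), (5, 72), (7, 100)]))) (.mul (.g 17) (.mul (.g 17) (.mul (.g 17) (.pp [(1,
 1395450000)]))))))))) (.add (.mul (.g 17) (.add (.add (.mul (.g 9) (.add (.mul (.pp [(1,
 13960200)]) (.sq [(1, 15), (2, -77), (5, -67), (7, 100)])) (.mul (.pp [(1, 4405800)]) (.sq [(1,
 -38), (2, 46), (3, -68), (5, 57), (7, 100)])))) (.mul (.g 17) (.add (.mul (.pp [(1, 5353800)])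
 (.sq [(1, -28), (2, 13), (3, 17), (5, 100), (7, -98)])) (.mul (.g 10) (.mul (.g 10) (.pp [(1,
 415119000000)])))))) (.add (.mul (.g 6) (.mul (.pp [(1, 432003)]) (.sq [(1, -13), (2, -29), (3,
 -4), (5, -14), (7, 100)]))) (.add (.mul (.g 11) (.mul (.pp [(1, 11495400)]) (.sq [(1, -18), (2,
 -33), (3, -20), (5, 5), (7, 100)]))) (.mul (.g 15) (.mul (.pp [(1, 75899700)]) (.sq [(1, -15), (2,
 -31), (3, -5), (5, -11), (7, 100)]))))))) (.mul (.g 3) (.add (.mul (.g 3) (.mul (.pp [(1,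
 54259200)]) (.sq [(2, 38), (3, -50), (5, 5), (7, 28)]))) (.add (.mul (.g 9) (.mul (.pp [(1,
 18669000)]) (.sq [(1, -25), (2, 7), (3, -19), (5, 19), (7, 100)]))) (.mul (.g 12) (.mul (.pp [(1,
 4102800)]) (.sq [(1, 5), (2, -5), (3, -50), (5, 43), (7, 18)]))))))))) (.add (.add (.add (.mul (.g
 9) (.mul (.g 9) (.add (.mul (.pp [(1, 25828800)]) (.sq [(1, -14), (2, -62), (3, 83), (5, -19), (7,
 100)])) (.mul (.pp [(1, 15013800)]) (.sq [(1, -35), (2, 10), (3, -27), (5, 40), (7, 100)])))))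
 (.mul (.g 11) (.add (.mul (.pp [(1, 11176200)]) (.sq [(1, -7), (2, -60), (3, 100), (5, -16), (7,
 -8)])) (.mul (.g 18) (.mul (.pp [(1, 2359800)]) (.sq [(1, 6), (2, 18), (3, 100), (5, -39), (7,
 -39)])))))) (.add (.mul (.g 0) (.pp [(1, 600000000)])) (.mul (.g 1) (.pp [(1, 1000000000000)]))))
 (.add (.add (.mul (.g 2) (.pp [(1, 1000000000000)])) (.mul (.g 10) (.mul (.g 10) (.mul (.pp [(1,
 38873400)]) (.sq [(1, -43), (2, 2), (3, -49), (5, 19), (7, 100)]))))) (.add (.mul (.g 15) (.mul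
 (.g 18) (.mul (.pp [(1, 10202400)]) (.sq [(1, 7), (2, 21), (3, 100), (5, -41), (7, -45)])))) (.mul
 (.g 16) (.pp [(1, 1000000000000)])))))) (.pp [(1, 312462453), (2, 30495108), (3, 30883752), (4,
 26385072), (5, 29695575), (6, 25386486), (7, 30011007), (8, 29018791), (9, 30304743), (10,
 29875734), (12, 36040575), (14, 32201010), (15, 30748224), (16, 29702700), (18, 34440825), (20,
 32022441), (21, 28046028), (24, 31122000), (25, 29863104), (27, 28713525), (28, 32117835), (30,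
 34540824), (35, 34321296), (36, 27885000), (40, 27597600), (42, 27581424), (45, 25914162), (49,
 27733764), (50, 30322146), (54, 25200000), (56, 27127800), (60, 29456700), (63, 30129012), (70,
 29229636), (75, 30334974), (81, 30937500), (84, 31809600), (90, 28392900), (98, 24907536), (100,
 32658000), (105, 31099584), (125, 30600771), (126, 26603400), (135, 32461200), (140, 32157000),
 (147, 34173600), (150, 29731800), (175, 23571072), (189, 31802700), (196, 29448600), (210,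
 30477000), (225, 31414800), (245, 25966200), (250, 28785000), (294, 33096600), (315, 29002200),
 (343, 32496000), (350, 29866200), (375, 28635900), (441, 28658400), (490, 34141800), (525,
 29355900), (625, 29831700), (686, 30122400), (735, 26821200), (875, 33680400), (1029, 29181600),
 (1225, 33301800), (1715, 32769600), (2401, 29104800)]))))))))
 (.rule 5 (.cut 450 [(2, -1), (5, 1)] (.add (.mul (.g 9) (.pp [(1, 310)])) (.add (.mul (.g 10) (.pp
 [(1, 7)])) (.mul (.g 1) (.pp [(1, 9)])))) (.rule 3 (.leaf 300000000 (.add (.add (.add (.add (.mul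
 (.g 5) (.add (.add (.mul (.g 5) (.add (.add (.add (.pp [(1, 188055000000)]) (.mul (.g 6) (.add
 (.add (.mul (.g 3) (.pp [(1, 7077480000)])) (.mul (.g 7) (.pp [(1, 559500000000)]))) (.add (.mul
 (.g 9) (.pp [(1, 122472000000)])) (.mul (.g 15) (.pp [(1, 534723000000)])))))) (.add (.mul (.g 9)
 (.add (.mul (.g 9) (.pp [(1, 84813000000)])) (.add (.mul (.g 11) (.pp [(1, 194472000000)])) (.mul
 (.g 13) (.pp [(1, 136899000000)]))))) (.mul (.g 5) (.add (.mul (.g 8) (.pp [(1, 380130000000)]))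
 (.mul (.g 12) (.pp [(1, 9000750000)])))))) (.add (.add (.mul (.g 15) (.add (.pp [(1,
 648462000000)]) (.mul (.g 11) (.pp [(1, 13740000000)])))) (.mul (.g 4) (.mul (.g 13) (.pp [(1,
 3538440000)])))) (.add (.mul (.g 7) (.mul (.g 16) (.pp [(1, 425385000000)]))) (.mul (.g 8) (.mul
 (.g 8) (.pp [(1, 82425000000)]))))))) (.mul (.g 8) (.add (.add (.mul (.g 3) (.add (.mul (.g 8)
 (.pp [(1, 11032980000)])) (.mul (.g 12) (.pp [(1, 183816000)])))) (.add (.mul (.g 15) (.add (.mul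
 (.g 8) (.pp [(1, 886872000000)])) (.mul (.g 16) (.pp [(1, 50526000000)])))) (.mul (.g 4) (.mul (.g
 12) (.pp [(1, 182307000)]))))) (.add (.mul (.g 6) (.mul (.g 6) (.pp [(1, 1416099000000)]))) (.add
 (.mul (.g 7) (.mul (.g 7) (.pp [(1, 290526000000)]))) (.mul (.g 16) (.mul (.g 16) (.pp [(1,
 181200000000)])))))))) (.add (.mul (.g 15) (.add (.pp [(1, 280872000000)]) (.add (.mul (.g 6)
 (.add (.pp [(1, 2178000000)]) (.mul (.g 6) (.pp [(1, 851961000000)])))) (.mul (.g 15) (.add (.pp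
 [(1, 182145000000)]) (.mul (.g 7) (.pp [(1, 107031000000)]))))))) (.add (.mul (.g 3) (.add (.pp
 [(1, 4642140000)]) (.add (.mul (.g 7) (.add (.mul (.g 13) (.pp [(1, 16092780000)])) (.mul (.g 16)
 (.pp [(1, 6269160000)])))) (.mul (.g 11) (.pp [(1, 36634260000)]))))) (.mul (.g 7) (.mul (.g 7)
 (.mul (.g 10) (.pp [(1, 176058000000)])))))))) (.mul (.g 3) (.add (.add (.mul (.pp [(1, 56196)])
 (.sq [(1, -60), (5, 100), (7, -23)])) (.mul (.g 6) (.add (.add (.pp [(1, 8280000)]) (.mul (.g 6)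
 (.add (.mul (.g 6) (.pp [(1, 1200000)])) (.add (.mul (.g 8) (.pp [(1, 1044060000)])) (.mul (.g 15)
 (.pp [(1, 455520000)])))))) (.add (.mul (.g 8) (.add (.mul (.g 15) (.pp [(1, 7310760000)])) (.mul
 (.g 16) (.pp [(1, 6615060000)])))) (.add (.mul (.g 11) (.add (.mul (.g 4) (.pp [(1, 727800)]))
 (.mul (.g 13) (.pp [(1, 89520000)])))) (.mul (.g 15) (.pp [(1, 248880000)]))))))) (.add (.mul (.g
 7) (.add (.mul (.g 12) (.add (.mul (.g 7) (.pp [(1, 24942000)])) (.mul (.g 12) (.pp [(1,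
 1168650)])))) (.mul (.g 3) (.mul (.g 8) (.pp [(1, 11908800)]))))) (.add (.mul (.g 3) (.mul (.g 8)
 (.mul (.g 8) (.pp [(1, 99744000)])))) (.mul (.g 15) (.pp [(1, 818640000)]))))))) (.add (.mul (.g
 8) (.add (.mul (.g 8) (.add (.add (.mul (.pp [(1, 10800)]) (.sq [(1, -12), (2, 1), (3, 1), (5,
 -16), (7, 100)])) (.mul (.pp [(1, 12434100)]) (.sq [(1, -38), (2, -4), (3, -45), (5, 5), (7,
 100)]))) (.add (.mul (.g 12) (.add (.add (.mul (.g 6) (.pp [(1, 653550000)])) (.mul (.g 10) (.pp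
 [(1, 3252750000)]))) (.add (.mul (.g 13) (.pp [(1, 282900000)])) (.mul (.g 15) (.pp [(1,
 27132150000)]))))) (.add (.mul (.g 8) (.mul (.g 8) (.pp [(1, 17199000000)]))) (.mul (.g 15) (.mul
 (.g 15) (.pp [(1, 563685000000)]))))))) (.mul (.g 6) (.mul (.g 12) (.mul (.g 15) (.pp [(1,
 20359350000)])))))) (.mul (.g 15) (.add (.add (.mul (.pp [(1, 10407600)]) (.sq [(1, -17), (2,
 -10), (3, -16), (5, 97), (7, -100)])) (.mul (.g 15) (.add (.mul (.pp [(1, 12213300)]) (.sq [(1,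
 -29), (3, 3), (5, 40), (7, 100)])) (.add (.mul (.pp [(1, 2780100)]) (.sq [(1, 11), (2, 24), (3,
 72), (5, -75), (7, 100)])) (.mul (.g 12) (.pp [(1, 1192950000)])))))) (.add (.mul (.g 7) (.mul
 (.pp [(1, 95302500)]) (.sq [(1, -22), (3, -16), (5, 13), (7, 100)]))) (.mul (.g 13) (.mul (.pp
 [(1, 60715800)]) (.sq [(1, -22), (3, -15), (5, 11), (7, 100)])))))))) (.add (.add (.mul (.g 7)
 (.add (.mul (.g 7) (.add (.mul (.pp [(1, 11793000)]) (.sq [(1, -53), (2, 21), (3, 9), (5, 48), (7,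
 100)])) (.add (.mul (.pp [(1, 23349000)]) (.sq [(1, -9), (2, 26), (3, -49), (5, -11), (7, 100)]))
 (.mul (.pp [(1, 63629100)]) (.sq [(1, -11), (2, -63), (3, 15), (5, -1), (7, 100)]))))) (.mul (.g
 6) (.mul (.pp [(1, 1276500)]) (.sq [(1, -1), (2, -20), (3, 2), (5, -22), (7, 100)]))))) (.mul (.g
 12) (.add (.mul (.g 16) (.add (.mul (.pp [(1, 10755)]) (.sq [(1, -70), (2, -1), (3, 18), (5, 100),
 (7, -37)])) (.mul (.pp [(1, 283845)]) (.sq [(1, 27), (2, 11), (3, 100), (5, -91), (7, 84)]))))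
 (.mul (.g 13) (.mul (.pp [(1, 295335)]) (.sq [(1, -55), (3, -37), (5, 100), (7, 36)])))))) (.add
 (.mul (.g 0) (.pp [(1, 1000000000000)])) (.add (.mul (.g 2) (.pp [(1, 1000000000000)])) (.mul (.g
 14) (.pp [(1, 1000000000000)])))))) (.pp [(1, 665007720), (2, 31747470), (3, 30232275), (4,
 27759000), (5, 28896735), (6, 29053080), (7, 29418660), (8, 30870000), (9, 28665465), (10,
 27381420), (12, 27316400), (14, 27921870), (15, 30564000), (16, 30000000), (18, 32249300), (19,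
 3000000000000), (20, 29524800), (21, 32717700), (24, 30000000), (25, 31172475), (27, 28146765),
 (28, 30163800), (30, 30998820), (35, 29874180), (36, 30000000), (40, 29880000), (42, 33744600),
 (45, 29582520), (49, 31099887), (50, 31840710), (54, 28727700), (56, 30000000), (60, 31083600),
 (63, 30170760), (70, 33525330), (75, 28746900), (81, 31272300), (84, 33000000), (90, 30444000),
 (98, 30211500), (100, 32421300), (105, 23060940), (125, 31285995), (126, 27448800), (135,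
 31223700), (140, 30496200), (147, 28258260), (150, 26634000), (175, 29645040), (189, 30496200),
 (196, 29706000), (210, 26130600), (225, 30190800), (245, 35125065), (250, 29450700), (294,
 25593600), (315, 28735800), (343, 28650000), (350, 26515800), (375, 31298100), (441, 32461800),
 (490, 28431300), (525, 33703800), (625, 28258800), (686, 29640000), (735, 33740100), (875,
 29670300), (1029, 28320000), (1225, 27418500), (1715, 25560000), (2401, 33000000)]))))))))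
 (P_Op0 ++ xP_G_F8) = true := by decide +kernel

theorem t_G_T4b_Tp0_a : chk Rap gP_G_T4b
 (.cut 1 [(2, -1), (3, 1)] (.add (.mul (.g 11) (.pp [(1, 1)])) (.mul (.g 4) (.pp [(1, 1)]))) (.rule
 1 (.cut 1 [(2, 1), (5, -1)] (.add (.mul (.g 13) (.pp [(1, 1)])) (.mul (.g 7) (.pp [(1, 1)])))
 (.rule 2 (.cut 11 [(1, -3), (3, 5)] (.add (.mul (.g 1) (.pp [(1, 40)])) (.add (.mul (.g 11) (.pp
 [(1, 2)])) (.mul (.g 15) (.pp [(1, 15)])))) (.cut 1 [(1, 3), (3, -2)] (.add (.add (.mul (.g 10)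
 (.pp [(1, 1)])) (.mul (.g 13) (.pp [(1, 1)]))) (.add (.mul (.g 7) (.pp [(1, 1)])) (.mul (.g 9)
 (.pp [(1, 1)])))) (.rule 8 (.leaf 60000000 (.add (.add (.add (.add (.mul (.g 9) (.add (.add (.mul
 (.g 11) (.add (.add (.pp [(1, 39258600000)]) (.add (.mul (.g 11) (.add (.mul (.g 7) (.pp [(1,
 237963000000)])) (.add (.mul (.g 11) (.pp [(1, 192414000000)])) (.mul (.g 13) (.pp [(1,
 65701800000)]))))) (.mul (.g 7) (.mul (.g 15) (.pp [(1, 141796800000)]))))) (.add (.mul (.g 9)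
 (.mul (.g 9) (.pp [(1, 58728600000)]))) (.add (.mul (.g 12) (.mul (.g 18) (.pp [(1,
 19112400000)]))) (.mul (.g 13) (.pp [(1, 20815200000)])))))) (.mul (.g 7) (.add (.mul (.g 12)
 (.add (.pp [(1, 149755200000)]) (.mul (.g 15) (.pp [(1, 12969600000)])))) (.mul (.g 7) (.mul (.g
 15) (.pp [(1, 187382400000)])))))) (.add (.mul (.g 9) (.mul (.g 9) (.add (.mul (.g 9) (.pp [(1,
 6052800000)])) (.mul (.g 15) (.pp [(1, 10458000000)]))))) (.add (.mul (.g 12) (.mul (.pp [(1,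
 6636240)]) (.sq [(1, 39), (2, 50), (3, 9), (5, -9)]))) (.mul (.g 16) (.mul (.pp [(1, 23391120)])
 (.sq [(1, 28), (2, 50), (3, 11), (5, -11)]))))))) (.mul (.g 7) (.add (.add (.mul (.g 13) (.add
 (.mul (.pp [(1, 86280)]) (.sq [(1, -4), (2, -95), (3, -100), (5, 80)])) (.add (.mul (.g 16) (.add
 (.mul (.g 8) (.pp [(1, 983400000)])) (.mul (.g 16) (.pp [(1, 43510800000)])))) (.mul (.g 7) (.mul
 (.g 18) (.pp [(1, 11176800000)])))))) (.mul (.g 7) (.add (.mul (.g 12) (.mul (.g 15) (.pp [(1,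
 751800000)]))) (.mul (.g 16) (.mul (.g 16) (.pp [(1, 25065000000)])))))) (.add (.mul (.g 12) (.mul
 (.pp [(1, 735600)]) (.sq [(1, 44), (2, 17), (3, 13), (5, 50)]))) (.add (.mul (.g 16) (.pp [(1,
 5516400000)])) (.mul (.g 18) (.pp [(1, 7164600000)]))))))) (.add (.mul (.g 11) (.add (.add (.mul
 (.g 8) (.pp [(1, 41001000000)])) (.mul (.g 13) (.mul (.pp [(1, 2454600)]) (.sq [(1, -29), (2, 6),
 (3, 71), (5, 100)])))) (.add (.mul (.g 14) (.mul (.g 14) (.mul (.g 15) (.pp [(1, 28734000)]))))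
 (.mul (.g 18) (.mul (.pp [(1, 1140)]) (.sq [(1, -16), (2, 100), (3, 63), (5, -54)])))))) (.add
 (.mul (.g 16) (.add (.mul (.g 8) (.pp [(1, 153774000000)])) (.add (.mul (.g 12) (.mul (.pp [(1,
 70500)]) (.sq [(1, -88), (2, 87), (3, 100), (5, 62)]))) (.mul (.g 19) (.mul (.pp [(1, 1084200)])
 (.sq [(1, -24), (2, 100), (3, 23), (5, 47)])))))) (.mul (.g 18) (.add (.pp [(1, 6244800000)])
 (.mul (.g 8) (.pp [(1, 194937000000)]))))))) (.add (.add (.mul (.g 0) (.pp [(1, 60000000)])) (.add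
 (.mul (.g 3) (.pp [(1, 200000000000)])) (.mul (.g 5) (.pp [(1, 200000000000)])))) (.add (.mul (.g
 12) (.mul (.g 14) (.mul (.pp [(1, 99)]) (.sq [(1, 1), (2, 91), (3, 100), (5, 3)])))) (.add (.mul
 (.g 13) (.mul (.g 13) (.mul (.pp [(1, 82320)]) (.sq [(1, 100), (2, -77), (3, -13), (5, 75)]))))
 (.mul (.g 17) (.pp [(1, 200000000000)])))))) (.pp [(1, 1967187531), (2, 5540193), (3, 5869449),
 (4, 6554253), (5, 5488275), (6, 7587318), (8, 6941811), (9, 5821680), (10, 7304790), (12,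
 4234029), (15, 6452094), (16, 6044100), (18, 5905860), (20, 4922175), (23, 600000000000), (24,
 6131760), (25, 6773133), (27, 6154740), (30, 6455394), (36, 6689700), (40, 5830380), (45,
 4896360), (50, 6044313), (54, 5535180), (60, 4445220), (75, 3646521), (81, 5887920), (90,
 6198960), (100, 6178260), (125, 4405481), (135, 6023280), (150, 7767000), (225, 6328020), (250,
 7134000), (375, 6218760), (625, 6028980)]))))))))))
 (P_Tp0 ++ xP_G_T4b) = true := by decide +kernel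

theorem t_G_T4b_Tp0_b : chk Rbp gP_G_T4b
 (.split [(1, -3), (5, 5)]
 (.cut 1 [(2, -1), (3, 1)] (.add (.mul (.g 12) (.pp [(1, 1)])) (.mul (.g 5) (.pp [(1, 1)]))) (.rule
 1 (.cut 1 [(2, 1), (5, -1)] (.add (.mul (.g 14) (.pp [(1, 1)])) (.mul (.g 8) (.pp [(1, 1)])))
 (.rule 2 (.cut 2 [(1, 5), (3, -4)] (.add (.add (.mul (.g 10) (.pp [(1, 5)])) (.mul (.g 13) (.pp
 [(1, 3)]))) (.add (.mul (.g 4) (.pp [(1, 1)])) (.mul (.g 9) (.pp [(1, 5)])))) (.rule 8 (.cut 13
 [(1, 3), (5, -2)] (.add (.add (.mul (.g 3) (.pp [(1, 36)])) (.mul (.g 6) (.pp [(1, 2)]))) (.add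
 (.mul (.g 5) (.pp [(1, 36)])) (.mul (.g 1) (.pp [(1, 9)])))) (.rule 12 (.leaf 60000000 (.add (.add
 (.add (.add (.mul (.g 13) (.add (.add (.mul (.g 8) (.add (.pp [(1, 11302800000)]) (.add (.mul (.g
 10) (.add (.mul (.g 10) (.pp [(1, 16873560000)])) (.add (.mul (.g 16) (.pp [(1, 249558000)]))
 (.mul (.g 20) (.pp [(1, 1139400000)]))))) (.mul (.g 13) (.mul (.g 15) (.pp [(1, 9933240000)]))))))
 (.add (.mul (.g 13) (.add (.pp [(1, 30116400000)]) (.add (.mul (.g 9) (.mul (.g 17) (.pp [(1,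
 50052000000)]))) (.mul (.g 11) (.mul (.g 15) (.pp [(1, 49327200000)])))))) (.mul (.g 10) (.mul (.g
 10) (.mul (.g 20) (.pp [(1, 106378800000)])))))) (.add (.add (.mul (.g 11) (.mul (.pp [(1,
 3741540)]) (.sq [(1, 81), (2, -100), (3, 29), (5, 100)]))) (.mul (.g 15) (.mul (.g 15) (.pp [(1,
 28857600000)])))) (.add (.mul (.g 16) (.pp [(1, 2142600000)])) (.mul (.g 17) (.mul (.pp [(1,
 6459780)]) (.sq [(1, -75), (2, 59), (3, 100), (5, 60)]))))))) (.add (.mul (.g 9) (.add (.mul (.g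
 14) (.add (.pp [(1, 2685600000)]) (.add (.mul (.pp [(1, 2952240)]) (.sq [(1, 44), (2, 17), (3,
 13), (5, 50)])) (.mul (.g 9) (.add (.mul (.g 9) (.pp [(1, 1374600000)])) (.mul (.g 11) (.pp [(1,
 113520600000)]))))))) (.add (.mul (.g 10) (.add (.mul (.g 16) (.add (.mul (.g 10) (.pp [(1,
 666870000)])) (.mul (.g 15) (.pp [(1, 815610000)])))) (.mul (.g 20) (.pp [(1, 54373800000)]))))
 (.mul (.g 17) (.add (.pp [(1, 102010200000)]) (.mul (.g 9) (.mul (.g 20) (.pp [(1,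
 7816800000)])))))))) (.mul (.g 11) (.add (.mul (.g 11) (.mul (.g 11) (.add (.pp [(1, 9165600000)])
 (.mul (.g 11) (.pp [(1, 11032200000)]))))) (.mul (.g 17) (.add (.pp [(1, 292030800000)]) (.mul
 (.pp [(1, 1283460)]) (.sq [(1, 81), (2, 100), (3, 29), (5, 100)])))))))) (.add (.mul (.g 14) (.add
 (.mul (.g 8) (.mul (.pp [(1, 456492)]) (.sq [(1, 65), (2, 100), (3, 6), (5, -51)]))) (.add (.mul
 (.g 16) (.mul (.pp [(1, 33201)]) (.sq [(1, 97), (2, -58), (3, 100), (5, -16)]))) (.mul (.g 21)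
 (.mul (.pp [(1, 788580)]) (.sq [(1, -89), (2, 87), (3, 100), (5, 62)])))))) (.add (.mul (.g 20)
 (.add (.mul (.g 10) (.pp [(1, 174180600000)])) (.mul (.g 20) (.mul (.pp [(1, 663420)]) (.sq [(1,
 49), (2, 63), (3, -100), (5, 49)]))))) (.mul (.g 21) (.add (.mul (.g 8) (.mul (.pp [(1, 281772)])
 (.sq [(1, 43), (2, 100), (3, 2), (5, -39)]))) (.mul (.g 17) (.mul (.pp [(1, 1319520)]) (.sq [(1,
 -32), (2, 100), (3, -91), (5, 44)])))))))) (.add (.add (.mul (.g 0) (.pp [(1, 60000000)])) (.add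
 (.mul (.g 2) (.pp [(1, 240000000)])) (.mul (.g 4) (.pp [(1, 200000000000)])))) (.add (.add (.mul
 (.g 6) (.pp [(1, 200000000000)])) (.mul (.g 15) (.mul (.pp [(1, 31664400000)]) (.sq [(2, -1), (5,
 1)])))) (.add (.mul (.g 18) (.mul (.g 18) (.pp [(1, 67599000000)]))) (.mul (.g 19) (.pp [(1,
 200000000000)])))))) (.pp [(1, 4050254685), (2, 5840373), (3, 6831591), (4, 6192768), (5,
 7604235), (6, 5143488), (8, 5827476), (9, 5234640), (10, 5640216), (12, 5589684), (15, 3316116),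
 (16, 5965920), (18, 6894216), (20, 5961228), (24, 6054540), (25, 5210916), (27, 6057984), (30,
 7179504), (36, 5270820), (40, 6245940), (45, 7288152), (50, 6039156), (54, 6388560), (60,
 6073980), (75, 7906668), (81, 6000000), (90, 6069180), (100, 6249180), (125, 7046864), (135,
 5865300), (150, 5388480), (225, 5120340), (250, 5664900), (375, 5460780), (625,
 6042120)])))))))))))
 (.split [(1, -7), (5, 50)]
 (.cut 1 [(2, -1), (3, 1)] (.add (.mul (.g 13) (.pp [(1, 1)])) (.mul (.g 6) (.pp [(1, 1)]))) (.rule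
 1 (.cut 1 [(2, 1), (5, -1)] (.add (.mul (.g 9) (.pp [(1, 1)])) (.mul (.g 15) (.pp [(1, 1)])))
 (.rule 2 (.cut 43 [(1, 5), (3, -4)] (.add (.add (.mul (.g 11) (.pp [(1, 50)])) (.mul (.g 14) (.pp
 [(1, 122)]))) (.add (.mul (.g 4) (.pp [(1, 1)])) (.mul (.g 10) (.pp [(1, 50)])))) (.rule 8 (.rule
 11 (.leaf 3000000 (.add (.add (.add (.add (.mul (.g 9) (.add (.add (.mul (.g 9) (.add (.mul (.g 9)
 (.add (.mul (.g 7) (.pp [(1, 10599000)])) (.mul (.g 14) (.pp [(1, 85200000)])))) (.add (.mul (.g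
 11) (.add (.mul (.g 8) (.pp [(1, 39186000)])) (.mul (.g 14) (.pp [(1, 1492830000)])))) (.mul (.g
 17) (.add (.mul (.g 10) (.pp [(1, 244950000)])) (.mul (.g 20) (.pp [(1, 62910000)]))))))) (.mul
 (.g 8) (.add (.add (.pp [(1, 224646000)]) (.mul (.g 10) (.mul (.g 10) (.pp [(1, 279636000)]))))
 (.add (.mul (.g 15) (.pp [(1, 375192000)])) (.mul (.g 16) (.mul (.g 18) (.pp [(1, 6369300)])))))))
 (.add (.mul (.g 11) (.mul (.g 14) (.pp [(1, 7289100000)]))) (.mul (.g 17) (.pp [(1,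
 2420910000)]))))) (.add (.mul (.g 11) (.add (.add (.mul (.g 11) (.mul (.g 11) (.add (.pp [(1,
 3914340000)]) (.add (.mul (.g 13) (.pp [(1, 44550000)])) (.mul (.g 17) (.pp [(1,
 1157700000)])))))) (.mul (.g 13) (.mul (.g 16) (.add (.pp [(1, 740434500)]) (.mul (.g 13) (.pp
 [(1, 98913000)])))))) (.add (.mul (.g 17) (.add (.pp [(1, 16224630000)]) (.mul (.g 17) (.mul (.g
 17) (.pp [(1, 190440000)]))))) (.add (.mul (.g 10) (.mul (.g 10) (.mul (.g 20) (.pp [(1,
 481920000)])))) (.mul (.g 15) (.mul (.pp [(1, 10194)]) (.sq [(1, 100), (2, -81), (3, -23), (5,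
 82)]))))))) (.mul (.g 10) (.add (.add (.mul (.g 20) (.add (.pp [(1, 12004800000)]) (.add (.mul (.g
 7) (.mul (.g 10) (.pp [(1, 11510400)]))) (.mul (.g 15) (.mul (.g 17) (.pp [(1, 469800000)]))))))
 (.mul (.g 8) (.mul (.g 10) (.mul (.g 14) (.pp [(1, 65190000)]))))) (.add (.mul (.g 15) (.mul (.g
 15) (.mul (.g 17) (.pp [(1, 6180000)])))) (.mul (.g 16) (.mul (.pp [(1, 17481)]) (.sq [(1, 7), (2,
 8), (3, -32), (5, 50)])))))))) (.add (.mul (.g 13) (.add (.mul (.g 13) (.pp [(1, 1370910000)]))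
 (.mul (.g 14) (.mul (.pp [(1, 8871)]) (.sq [(1, -34), (2, 100), (3, -27), (5, 16)]))))) (.add
 (.mul (.g 15) (.add (.mul (.pp [(1, 81240000)]) (.sq [(2, -1), (5, 1)])) (.mul (.g 15) (.mul (.pp
 [(1, 22215)]) (.sq [(1, 18), (2, 12), (3, -43), (5, 100)]))))) (.mul (.g 17) (.add (.pp [(1,
 2777220000)]) (.mul (.pp [(1, 37170000)]) (.sq [(2, 1), (3, 1), (5, 1)]))))))) (.add (.add (.mul
 (.g 0) (.pp [(1, 6000000)])) (.add (.mul (.g 1) (.pp [(1, 12000000)])) (.mul (.g 3) (.pp [(1,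
 10000000000)])))) (.add (.add (.mul (.g 5) (.pp [(1, 10000000000)])) (.mul (.g 8) (.mul (.g 8)
 (.pp [(1, 52078800)])))) (.add (.mul (.g 19) (.pp [(1, 10000000000)])) (.mul (.g 20) (.mul (.g 20)
 (.mul (.pp [(1, 7659)]) (.sq [(1, -79), (2, 100), (3, 100), (5, 100)])))))))) (.pp [(1,
 359106105), (2, 278100), (3, 308679), (4, 321216), (5, 340224), (6, 304872), (8, 313320), (9,
 280746), (10, 262344), (12, 289032), (15, 219252), (16, 311040), (18, 289476), (20, 209112), (24,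
 286080), (25, 259716), (27, 315435), (30, 413052), (36, 312984), (40, 321954), (45, 333615), (50,
 410868), (54, 286311), (60, 273306), (75, 276552), (81, 303585), (90, 311637), (100, 296886),
 (125, 285376), (135, 308424), (150, 295932), (225, 305607), (250, 294576), (375, 306312), (625,
 305544)]))))))))))
 (.split [(1, -3), (2, 8)]
 (.cut 450 [(2, -1), (3, 1)] (.add (.mul (.g 10) (.pp [(1, 7)])) (.add (.mul (.g 9) (.pp [(1,
 310)])) (.mul (.g 1) (.pp [(1, 9)])))) (.rule 1 (.cut 920 [(2, 1), (5, -1)] (.add (.mul (.g 2)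
 (.pp [(1, 115)])) (.add (.mul (.g 3) (.pp [(1, 9)])) (.mul (.g 4) (.pp [(1, 94)])))) (.rule 2
 (.cut 1 [(1, 5), (3, -4)] (.add (.add (.mul (.g 12) (.pp [(1, 1)])) (.mul (.g 15) (.pp [(1, 3)])))
 (.add (.mul (.g 9) (.pp [(1, 1)])) (.mul (.g 11) (.pp [(1, 1)])))) (.rule 8 (.leaf 150000000 (.add
 (.add (.add (.add (.mul (.g 11) (.add (.add (.mul (.g 11) (.add (.add (.pp [(1, 163072500000)])
 (.mul (.pp [(1, 2444100)]) (.sq [(1, 16), (2, 100), (3, 9), (5, 74)]))) (.add (.mul (.g 11) (.add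
 (.mul (.g 9) (.pp [(1, 220152000000)])) (.add (.mul (.g 13) (.pp [(1, 259143000000)])) (.mul (.g
 17) (.pp [(1, 5370000000)]))))) (.mul (.g 10) (.mul (.g 16) (.pp [(1, 48825000)])))))) (.mul (.g
 9) (.add (.mul (.g 7) (.add (.mul (.g 9) (.pp [(1, 594210000)])) (.mul (.g 18) (.pp [(1,
 123990000)])))) (.add (.mul (.g 6) (.mul (.g 6) (.pp [(1, 11109375)]))) (.mul (.g 14) (.pp [(1,
 1194540000000)])))))) (.add (.mul (.g 10) (.add (.mul (.g 10) (.add (.pp [(1, 259500000)]) (.mul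
 (.g 10) (.pp [(1, 1086000000)])))) (.mul (.g 7) (.mul (.g 14) (.pp [(1, 4710000)]))))) (.add (.mul
 (.g 13) (.pp [(1, 567631500000)])) (.mul (.g 15) (.mul (.pp [(1, 171150)]) (.sq [(1, 100), (2,
 -80), (3, -23), (5, 82)]))))))) (.mul (.g 10) (.add (.add (.mul (.g 10) (.add (.mul (.g 16) (.add
 (.pp [(1, 5775000)]) (.mul (.g 9) (.pp [(1, 900000)])))) (.add (.mul (.g 10) (.mul (.g 17) (.pp
 [(1, 75000000)]))) (.mul (.g 14) (.mul (.g 20) (.pp [(1, 52500000)])))))) (.mul (.g 7) (.add (.pp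
 [(1, 860040000)]) (.mul (.pp [(1, 1182)]) (.sq [(1, 87), (2, 100), (3, 100), (5, 100)]))))) (.add
 (.mul (.g 16) (.pp [(1, 2124450000)])) (.mul (.g 20) (.pp [(1, 572064000000)])))))) (.add (.mul
 (.g 9) (.add (.mul (.g 7) (.add (.pp [(1, 13375590000)]) (.add (.mul (.g 9) (.add (.mul (.g 13)
 (.pp [(1, 7080000)])) (.mul (.g 18) (.pp [(1, 38280000)])))) (.mul (.g 15) (.pp [(1,
 6034740000)]))))) (.mul (.g 16) (.add (.mul (.pp [(1, 150)]) (.sq [(1, -14), (2, 50), (3, 24), (5,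
 -1)])) (.mul (.g 13) (.mul (.g 13) (.pp [(1, 375000)]))))))) (.add (.mul (.g 17) (.add (.pp [(1,
 164782500000)]) (.add (.mul (.pp [(1, 75000000)]) (.sq [(2, 1), (3, 1), (5, 1)])) (.mul (.g 14)
 (.mul (.pp [(1, 388800)]) (.sq [(1, 7), (2, -2), (3, -17), (5, 50)])))))) (.mul (.g 13) (.add (.pp
 [(1, 9990000000)]) (.mul (.g 13) (.pp [(1, 41830500000)]))))))) (.add (.add (.mul (.g 0) (.pp [(1,
 600000000)])) (.mul (.g 2) (.pp [(1, 500000000000)]))) (.add (.mul (.g 4) (.pp [(1,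
 500000000000)])) (.add (.mul (.g 16) (.mul (.g 20) (.mul (.pp [(1, 105)]) (.sq [(1, 11), (2, 100),
 (3, -4), (5, -5)])))) (.mul (.g 19) (.pp [(1, 500000000000)])))))) (.pp [(1, 20377834455), (2,
 15011700), (3, 14732499), (4, 14869200), (5, 15749250), (6, 14125500), (8, 14554800), (9,
 15487020), (10, 13865025), (12, 15219600), (15, 14773050), (16, 15000000), (18, 15004800), (20,
 15904200), (23, 1500000000000), (24, 14755200), (25, 15215775), (27, 14254320), (30, 15132000),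
 (36, 14731200), (40, 15060000), (45, 17008800), (50, 16574850), (54, 15410400), (60, 16012800),
 (75, 16295325), (81, 15103200), (90, 17347950), (100, 14955000), (125, 14563700), (135, 15440850),
 (150, 16751700), (225, 15890850), (250, 15117600), (375, 16171500), (625, 15295800)])))))))))
 (.cut 450 [(2, -1), (3, 1)] (.add (.mul (.g 10) (.pp [(1, 7)])) (.add (.mul (.g 9) (.pp [(1,
 310)])) (.mul (.g 1) (.pp [(1, 9)])))) (.rule 1 (.cut 1 [(2, 1), (5, -1)] (.add (.mul (.g 10) (.pp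
 [(1, 1)])) (.mul (.g 16) (.pp [(1, 1)]))) (.rule 2 (.cut 3 [(1, 5), (3, -4)] (.add (.add (.mul (.g
 12) (.pp [(1, 8)])) (.mul (.g 15) (.pp [(1, 4)]))) (.add (.mul (.g 9) (.pp [(1, 8)])) (.mul (.g 4)
 (.pp [(1, 1)])))) (.rule 8 (.leaf 1500000000 (.add (.add (.add (.add (.mul (.g 11) (.add (.add
 (.pp [(1, 82485000000)]) (.mul (.g 11) (.add (.add (.pp [(1, 1617240000000)]) (.mul (.pp [(1,
 5640000)]) (.sq [(1, 43), (2, 100), (3, 19), (5, 80)]))) (.add (.mul (.g 11) (.add (.mul (.g 9)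
 (.pp [(1, 2018100000000)])) (.add (.mul (.g 13) (.pp [(1, 2395995000000)])) (.mul (.g 17) (.pp
 [(1, 185235000000)]))))) (.add (.mul (.g 6) (.mul (.g 6) (.pp [(1, 3187734375)]))) (.mul (.g 10)
 (.mul (.g 15) (.pp [(1, 50745000000)])))))))) (.add (.mul (.g 9) (.add (.mul (.g 9) (.add (.mul
 (.g 6) (.pp [(1, 125625000)])) (.add (.mul (.g 7) (.pp [(1, 8991300000)])) (.mul (.g 17) (.pp [(1,
 600000000)]))))) (.mul (.g 14) (.pp [(1, 14988855000000)])))) (.add (.mul (.g 10) (.add (.pp [(1,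
 5565000000)]) (.add (.mul (.g 7) (.add (.mul (.g 10) (.pp [(1, 2318100000)])) (.mul (.g 14) (.pp
 [(1, 323400000)])))) (.mul (.g 10) (.mul (.g 17) (.pp [(1, 420000000)])))))) (.mul (.g 6) (.pp
 [(1, 1868328750000)])))))) (.mul (.g 10) (.add (.add (.mul (.g 6) (.add (.pp [(1, 253125000)])
 (.add (.mul (.g 9) (.add (.mul (.g 9) (.pp [(1, 18750000)])) (.add (.mul (.g 10) (.pp [(1,
 46875000)])) (.mul (.g 18) (.pp [(1, 41250000)]))))) (.mul (.g 10) (.mul (.g 14) (.pp [(1,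
 5625000)])))))) (.mul (.g 9) (.mul (.g 14) (.add (.mul (.g 13) (.pp [(1, 180000000)])) (.mul (.g
 15) (.pp [(1, 120000000)])))))) (.add (.mul (.g 7) (.mul (.g 7) (.mul (.g 15) (.pp [(1,
 15108000)])))) (.add (.mul (.g 17) (.mul (.pp [(1, 15000)]) (.sq [(1, -22), (2, 22), (3, 100), (5,
 -89)]))) (.mul (.g 20) (.pp [(1, 6148635000000)]))))))) (.add (.mul (.g 6) (.add (.pp [(1,
 652500000)]) (.mul (.g 9) (.add (.pp [(1, 551250000)]) (.add (.mul (.g 9) (.mul (.g 18) (.pp [(1,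
 69375000)]))) (.mul (.g 15) (.mul (.g 15) (.pp [(1, 18750000)])))))))) (.add (.mul (.g 0) (.pp
 [(1, 6000000000)])) (.mul (.g 2) (.pp [(1, 5000000000000)]))))) (.add (.add (.mul (.g 4) (.pp [(1,
 5000000000000)])) (.mul (.g 7) (.mul (.g 7) (.mul (.pp [(1, 30264)]) (.sq [(1, 23), (2, 50), (3,
 11), (5, 38)]))))) (.add (.mul (.g 14) (.mul (.pp [(1, 345000000)]) (.sq [(2, 1), (3, 1), (5,
 1)]))) (.add (.mul (.g 17) (.pp [(1, 1353030000000)])) (.mul (.g 19) (.pp [(1,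
 5000000000000)])))))) (.pp [(1, 1014228026856), (2, 155497200), (3, 147999384), (4, 149535000),
 (5, 143337072), (6, 154832400), (8, 153750000), (9, 156657744), (10, 174883200), (12, 153990000),
 (15, 161942304), (16, 150000000), (18, 155730000), (20, 166650000), (23, 15000000000000), (24,
 150000000), (25, 162561441), (27, 145875000), (30, 138870000), (36, 157260000), (40, 150000000),
 (45, 133675800), (50, 135240000), (54, 141000000), (60, 150000000), (75, 136357800), (81,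
 150000000), (90, 136260000), (100, 150000000), (125, 148971200), (135, 153000000), (150,
 147000000), (225, 147915000), (250, 147000000), (375, 152640000), (625, 150960000)]))))))))))))
 (P_Tp0 ++ xP_G_T4b) = true := by decide +kernel

end Pool.Agent.Helper62.TW
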