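import Pool.Agent.Helper62.TW.Goals

/-!
# Case trees, part 2 (generated)
-/

set_option autoImplicit false
set_option maxRecDepth 100000
set_option linter.all false

namespace Pool.Agent.Helper62.TW

open Pool.Agent.Helper83.Cert

theorem t_A_F1_c4 : chk RFp gP_A_F1
 (.split [(1, 1), (2, -20)]
 (.rule 4 (.leaf 240000000 (.add (.add (.add (.add (.mul (.g 2) (.add (.add (.mul (.g 5) (.add
 (.add (.pp [(1, 2685237600000)]) (.add (.mul (.pp [(1, 446640)]) (.sq [(1, -17), (2, -67), (3,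
 -100), (5, 91), (7, 70)])) (.mul (.g 8) (.add (.mul (.g 4) (.pp [(1, 900057600000)])) (.add (.mul
 (.g 8) (.pp [(1, 147124800000)])) (.mul (.g 11) (.pp [(1, 638361600000)]))))))) (.add (.mul (.g 1)
 (.add (.pp [(1, 157365240000)]) (.mul (.g 2) (.pp [(1, 3417840000)])))) (.add (.mul (.g 11) (.add
 (.pp [(1, 1093317600000)]) (.mul (.g 6) (.pp [(1, 12112800000)])))) (.mul (.g 4) (.mul (.g 5) (.pp
 [(1, 530630400000)]))))))) (.mul (.g 4) (.add (.mul (.g 4) (.add (.mul (.g 3) (.pp [(1,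
 482330400000)])) (.add (.mul (.g 7) (.pp [(1, 131779200000)])) (.mul (.g 8) (.pp [(1,
 61209600000)]))))) (.add (.mul (.g 1) (.add (.pp [(1, 1247760000)]) (.mul (.g 2) (.pp [(1,
 1578000000)])))) (.mul (.g 7) (.add (.mul (.g 8) (.pp [(1, 95743200000)])) (.mul (.g 9) (.pp [(1,
 7268280000)])))))))) (.add (.mul (.g 3) (.add (.mul (.g 1) (.add (.pp [(1, 1644720000)]) (.add
 (.mul (.g 2) (.pp [(1, 1565040000)])) (.mul (.g 3) (.pp [(1, 12960000)]))))) (.add (.mul (.g 7)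
 (.mul (.g 8) (.pp [(1, 133629600000)]))) (.mul (.g 11) (.pp [(1, 353644800000)]))))) (.add (.mul
 (.g 2) (.add (.pp [(1, 312060000000)]) (.mul (.g 2) (.add (.pp [(1, 194738400000)]) (.mul (.g 7)
 (.pp [(1, 712800000)])))))) (.mul (.g 8) (.mul (.pp [(1, 3311520)]) (.sq [(1, 1), (2, -17), (3,
 100), (5, -31), (7, 78)]))))))) (.mul (.g 5) (.add (.add (.mul (.g 11) (.add (.add (.pp [(1,
 128025600000)]) (.mul (.pp [(1, 1680)]) (.sq [(1, -16), (2, 76), (3, -100), (5, 56), (7, 11)])))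
 (.add (.mul (.g 5) (.add (.pp [(1, 2954400000)]) (.mul (.g 5) (.pp [(1, 24000000)])))) (.add (.mul
 (.g 1) (.mul (.g 3) (.pp [(1, 27132720000)]))) (.mul (.g 4) (.pp [(1, 24235200000)])))))) (.add
 (.mul (.g 3) (.add (.mul (.g 9) (.add (.mul (.g 4) (.pp [(1, 9120000)])) (.add (.mul (.g 7) (.pp
 [(1, 1437960000)])) (.mul (.g 8) (.pp [(1, 1158360000)]))))) (.mul (.g 4) (.mul (.g 6) (.pp [(1,
 526197600000)]))))) (.mul (.g 1) (.mul (.g 5) (.add (.mul (.g 1) (.pp [(1, 16968000)])) (.add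
 (.mul (.g 5) (.pp [(1, 2906400000)])) (.mul (.g 6) (.pp [(1, 131758560000)])))))))) (.add (.mul
 (.g 4) (.mul (.g 4) (.pp [(1, 40737600000)]))) (.add (.mul (.g 8) (.mul (.pp [(1, 10800)]) (.sq
 [(1, 27), (2, 63), (3, 15), (5, 100), (7, -34)]))) (.mul (.g 9) (.pp [(1, 29313240000)])))))))
 (.add (.mul (.g 9) (.add (.add (.pp [(1, 32879880000)]) (.add (.mul (.g 7) (.add (.add (.pp [(1,
 1023480000)]) (.mul (.pp [(1, 47196)]) (.sq [(1, 25), (2, -39), (3, 40), (5, -60), (7, -100)])))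
 (.add (.mul (.pp [(1, 55740)]) (.sq [(1, -22), (2, -71), (3, 38), (5, -21), (7, 100)])) (.mul (.g
 4) (.add (.mul (.g 3) (.pp [(1, 817440000)])) (.mul (.g 4) (.pp [(1, 156240000)]))))))) (.mul (.g
 6) (.add (.pp [(1, 20495880000)]) (.mul (.pp [(1, 60996)]) (.sq [(1, 7), (2, -30), (3, 81), (5,
 100), (7, -74)])))))) (.add (.add (.mul (.g 1) (.mul (.g 4) (.mul (.g 4) (.pp [(1, 238944000)]))))
 (.mul (.g 8) (.mul (.g 8) (.mul (.g 8) (.pp [(1, 122520000)]))))) (.add (.mul (.g 9) (.mul (.pp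
 [(1, 1371)]) (.sq [(1, -89), (2, -93), (3, 29), (5, 29), (7, 100)]))) (.mul (.g 11) (.pp [(1,
 14994960000)])))))) (.mul (.g 4) (.add (.add (.mul (.g 3) (.add (.add (.mul (.pp [(1, 960)]) (.sq
 [(1, 57), (2, -100), (3, 77), (5, -87), (7, 98)])) (.mul (.g 1) (.pp [(1, 99029400000)]))) (.add
 (.mul (.g 4) (.mul (.g 6) (.pp [(1, 482364000000)]))) (.mul (.g 11) (.pp [(1, 482352000000)])))))
 (.mul (.g 4) (.pp [(1, 449330400000)]))) (.add (.mul (.g 8) (.mul (.g 8) (.mul (.g 8) (.pp [(1,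
 3895200000)])))) (.mul (.g 11) (.pp [(1, 160072800000)]))))))) (.add (.add (.mul (.g 11) (.add
 (.add (.mul (.g 3) (.add (.pp [(1, 288974400000)]) (.mul (.pp [(1, 4320)]) (.sq [(1, 100), (2,
 81), (3, 81), (5, 81), (7, 81)])))) (.mul (.g 1) (.pp [(1, 4276200000)]))) (.add (.mul (.g 8)
 (.mul (.pp [(1, 4800)]) (.sq [(1, -11), (2, -31), (3, 22), (5, 6), (7, 50)]))) (.mul (.g 11) (.mul
 (.pp [(1, 240)]) (.sq [(1, -24), (2, -28), (3, 100), (5, -45), (7, -23)])))))) (.mul (.g 1) (.mul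
 (.g 7) (.add (.mul (.pp [(1, 2188980)]) (.sq [(1, -11), (2, -33), (3, 50), (5, 100), (7, -45)]))
 (.mul (.g 1) (.mul (.g 7) (.pp [(1, 22992000)]))))))) (.add (.mul (.g 0) (.pp [(1,
 800000000000)])) (.add (.mul (.g 8) (.mul (.g 8) (.mul (.pp [(1, 1517280)]) (.sq [(1, -82), (2,
 -63), (3, 11), (5, 11), (7, 100)])))) (.mul (.g 10) (.pp [(1, 3200000000)])))))) (.pp [(1,
 34039148385), (2, 24794910), (3, 24821238), (4, 27172545), (5, 22179102), (6, 20621598), (7,
 24468336), (8, 25406124), (9, 26250753), (10, 19074894), (12, 20740596), (14, 26107944), (15,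
 27242538), (16, 25298880), (18, 26630436), (20, 21753516), (21, 23588688), (24, 20379600), (25,
 27807849), (27, 23497800), (28, 21010200), (30, 26500920), (35, 23478000), (36, 28545840), (40,
 19276080), (42, 25561992), (45, 22575720), (49, 24130524), (50, 23759100), (54, 20927760), (56,
 22485600), (60, 32254560), (63, 25272720), (70, 28710120), (75, 20983500), (81, 24847920), (84,
 24387120), (90, 13938480), (98, 23735916), (100, 25437840), (105, 20346000), (125, 24379020),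
 (126, 24337680), (135, 27843360), (140, 25413840), (147, 21487860), (150, 23178240), (175,
 24631200), (189, 22620720), (196, 25907280), (210, 18951840), (225, 26076240), (245, 23238900),
 (250, 24877920), (294, 20970480), (315, 22718160), (343, 23194320), (350, 19747920), (375,
 26136960), (441, 23063040), (490, 18463920), (525, 26760480), (625, 23830320), (686, 22448640),
 (735, 28362720), (875, 24996480), (1029, 25266720), (1225, 24451680), (1715, 25037520), (2401,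
 24076320)]))))
 (.rule 5 (.rule 6 (.leaf 60000000 (.add (.add (.add (.add (.mul (.g 5) (.add (.add (.mul (.g 6)
 (.add (.add (.mul (.g 3) (.add (.add (.pp [(1, 101008800000)]) (.mul (.g 4) (.pp [(1,
 13971000000)]))) (.add (.mul (.g 7) (.pp [(1, 810573600000)])) (.add (.mul (.g 9) (.pp [(1,
 64002000000)])) (.mul (.g 12) (.pp [(1, 165045600000)])))))) (.mul (.g 5) (.add (.add (.pp [(1,
 24000000)]) (.mul (.g 6) (.pp [(1, 4200000)]))) (.add (.mul (.g 8) (.pp [(1, 3000000)])) (.mul (.g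
 12) (.pp [(1, 11400000)])))))) (.add (.mul (.g 4) (.add (.pp [(1, 30000000)]) (.add (.mul (.g 4)
 (.pp [(1, 16800000)])) (.mul (.g 12) (.pp [(1, 600000)]))))) (.mul (.g 6) (.add (.mul (.g 6) (.pp
 [(1, 5400000)])) (.mul (.g 7) (.pp [(1, 20400000)]))))))) (.add (.mul (.g 3) (.add (.add (.mul (.g
 3) (.add (.mul (.g 3) (.pp [(1, 16647000000)])) (.mul (.g 12) (.pp [(1, 24071400000)])))) (.mul
 (.g 5) (.add (.pp [(1, 121890600000)]) (.mul (.g 8) (.pp [(1, 24000000)]))))) (.add (.mul (.g 4)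
 (.mul (.g 4) (.pp [(1, 43800000)]))) (.add (.mul (.g 7) (.mul (.g 7) (.pp [(1, 7392000000)])))
 (.mul (.g 8) (.pp [(1, 127082400000)])))))) (.mul (.g 4) (.add (.add (.pp [(1, 48600000)]) (.mul
 (.g 4) (.add (.mul (.g 7) (.pp [(1, 42000000)])) (.mul (.g 12) (.pp [(1, 9000000)]))))) (.add
 (.mul (.g 5) (.mul (.g 12) (.pp [(1, 3000000)]))) (.mul (.g 7) (.mul (.g 7) (.pp [(1,
 5080800000)])))))))) (.add (.mul (.g 12) (.add (.pp [(1, 6600000)]) (.add (.mul (.g 5) (.mul (.g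
 9) (.pp [(1, 15000000)]))) (.mul (.g 10) (.mul (.g 12) (.pp [(1, 540000)])))))) (.add (.mul (.g 7)
 (.pp [(1, 5823600000)])) (.mul (.g 9) (.pp [(1, 28200000)])))))) (.mul (.g 12) (.add (.add (.pp
 [(1, 27000000)]) (.mul (.g 3) (.add (.add (.pp [(1, 56251800000)]) (.mul (.g 4) (.add (.add (.mul
 (.g 3) (.pp [(1, 96981600000)])) (.mul (.g 6) (.pp [(1, 78021600000)]))) (.add (.mul (.g 7) (.pp
 [(1, 67818000000)])) (.mul (.g 12) (.pp [(1, 25200000)])))))) (.add (.mul (.g 6) (.add (.mul (.g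
 6) (.pp [(1, 115045200000)])) (.add (.mul (.g 7) (.pp [(1, 874556400000)])) (.mul (.g 12) (.pp
 [(1, 101058600000)]))))) (.mul (.g 3) (.add (.pp [(1, 77904600000)]) (.mul (.g 8) (.pp [(1,
 24072000000)])))))))) (.add (.mul (.g 4) (.add (.pp [(1, 5101200000)]) (.add (.mul (.pp [(1,
 180)]) (.sq [(1, 90), (2, 100), (3, 71), (5, 71), (7, 71)])) (.mul (.g 4) (.add (.mul (.g 8) (.pp
 [(1, 23400000)])) (.mul (.g 9) (.pp [(1, 22800000)]))))))) (.mul (.g 6) (.add (.pp [(1,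
 18000000)]) (.add (.mul (.pp [(1, 1680)]) (.sq [(1, 50), (2, 31), (3, 41), (5, 41), (7, 41)]))
 (.mul (.g 6) (.add (.mul (.g 6) (.pp [(1, 3000000)])) (.mul (.g 7) (.pp [(1, 4800000)])))))))))))
 (.add (.mul (.g 7) (.add (.add (.mul (.g 4) (.add (.add (.pp [(1, 696600000)]) (.mul (.pp [(1,
 1020)]) (.sq [(1, 53), (2, -100), (3, -75), (5, 64), (7, -63)]))) (.add (.mul (.pp [(1, 120)])
 (.sq [(1, -21), (2, -87), (3, -29), (5, -1), (7, 100)])) (.mul (.g 6) (.mul (.g 7) (.pp [(1,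
 5093400000)])))))) (.mul (.g 6) (.add (.mul (.g 3) (.mul (.g 7) (.pp [(1, 10092000000)]))) (.mul
 (.g 6) (.mul (.g 10) (.pp [(1, 204690000)])))))) (.add (.mul (.g 2) (.mul (.g 2) (.mul (.g 2) (.pp
 [(1, 982200)])))) (.add (.mul (.g 9) (.pp [(1, 86450400000)])) (.mul (.g 10) (.pp [(1,
 13425180000)])))))) (.mul (.g 8) (.add (.mul (.g 3) (.add (.mul (.g 4) (.add (.pp [(1,
 5243400000)]) (.mul (.g 9) (.pp [(1, 6000000)])))) (.mul (.g 10) (.add (.pp [(1, 9740670000)])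
 (.mul (.g 8) (.pp [(1, 180000)])))))) (.add (.mul (.g 4) (.add (.mul (.g 4) (.pp [(1, 15600000)]))
 (.mul (.g 9) (.mul (.g 9) (.pp [(1, 600000)]))))) (.mul (.g 10) (.add (.pp [(1, 2130000)]) (.mul
 (.pp [(1, 27)]) (.sq [(1, 46), (2, 95), (3, 100), (5, -62), (7, 53)]))))))))) (.add (.add (.mul
 (.g 10) (.add (.pp [(1, 2958870000)]) (.mul (.g 6) (.mul (.g 6) (.add (.mul (.g 2) (.pp [(1,
 205233000)])) (.mul (.g 6) (.pp [(1, 30000)]))))))) (.mul (.g 0) (.pp [(1, 200000000000)]))) (.add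
 (.mul (.g 1) (.pp [(1, 200000000000)])) (.mul (.g 11) (.pp [(1, 800000000)]))))) (.pp [(1,
 1050116388), (2, 6266448), (3, 5232672), (4, 6021135), (5, 5447100), (6, 5273520), (7, 5984868),
 (8, 5766175), (9, 5631480), (10, 6072528), (12, 6017425), (14, 5856918), (15, 6767592), (16,
 6073500), (18, 5932240), (20, 5550325), (21, 6143052), (24, 6221280), (25, 7022964), (27,
 5992200), (28, 5903370), (30, 6384900), (35, 6777096), (36, 6259020), (40, 6091800), (42,
 7082790), (45, 6405720), (49, 6307587), (50, 6533512), (54, 5898420), (56, 5437800), (60,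
 6218280), (63, 6451800), (70, 6640674), (75, 5722008), (81, 6000000), (84, 5612400), (90,
 5921760), (98, 5206887), (100, 5871660), (105, 5387316), (125, 5369988), (126, 6088800), (135,
 6211380), (140, 5790000), (147, 6045033), (150, 5712120), (175, 4762836), (189, 6031380), (196,
 6131340), (210, 5858640), (225, 6098520), (245, 6048393), (250, 5687280), (294, 6041220), (315,
 5952720), (343, 6133920), (350, 5406120), (375, 6162900), (441, 6155700), (490, 6107400), (525,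
 6996540), (625, 6275760), (686, 6670560), (735, 6852180), (875, 7075200), (1029, 5955540), (1225,
 6389100), (1715, 5472240), (2401, 5824080)]))))))
 (P_c4 ++ xP_A_F1) = true := by decide +kernel

theorem t_A_F5a_c0 : chk ROp gP_A_F5a
 (.cut 50 [(2, 1), (3, -1)] (.add (.add (.mul (.g 8) (.pp [(1, 45)])) (.mul (.g 7) (.pp [(1, 2)])))
 (.add (.mul (.g 2) (.pp [(1, 5)])) (.mul (.g 9) (.pp [(1, 9)])))) (.rule 0 (.cut 60 [(2, -1), (5,
 1)] (.add (.add (.mul (.g 11) (.pp [(1, 11)])) (.mul (.g 9) (.pp [(1, 3)]))) (.add (.mul (.g 1)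
 (.pp [(1, 5)])) (.mul (.g 6) (.pp [(1, 5)])))) (.rule 3 (.leaf 60000000 (.add (.add (.add (.add
 (.mul (.g 5) (.add (.add (.mul (.g 4) (.add (.add (.mul (.g 5) (.add (.pp [(1, 49626600000)])
 (.add (.mul (.g 12) (.pp [(1, 117900000)])) (.mul (.g 16) (.pp [(1, 145642200000)]))))) (.mul (.g
 4) (.mul (.g 16) (.pp [(1, 955200000)])))) (.add (.mul (.g 9) (.pp [(1, 141844200000)])) (.mul (.g
 12) (.pp [(1, 39981900000)]))))) (.add (.mul (.g 6) (.add (.add (.pp [(1, 58095000000)]) (.mul (.g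
 13) (.add (.mul (.g 9) (.pp [(1, 11641680000)])) (.mul (.g 15) (.pp [(1, 37467600000)]))))) (.add
 (.mul (.g 15) (.mul (.g 15) (.pp [(1, 173662200000)]))) (.mul (.g 16) (.mul (.g 16) (.pp [(1,
 45706200000)])))))) (.mul (.g 5) (.add (.mul (.g 5) (.mul (.g 11) (.pp [(1, 4200000)]))) (.add
 (.mul (.g 10) (.mul (.g 16) (.pp [(1, 202933800000)]))) (.mul (.g 13) (.mul (.g 15) (.pp [(1,
 1385160000)])))))))) (.add (.mul (.g 8) (.add (.mul (.g 10) (.pp [(1, 25199400000)])) (.mul (.g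
 11) (.pp [(1, 17647230000)])))) (.add (.mul (.g 11) (.mul (.pp [(1, 2421)]) (.sq [(1, -100), (2,
 -64), (3, -71), (5, 92)]))) (.mul (.g 13) (.pp [(1, 76097040000)])))))) (.mul (.g 4) (.add (.add
 (.mul (.g 8) (.add (.mul (.g 4) (.add (.mul (.g 4) (.pp [(1, 80059800000)])) (.add (.mul (.g 8)
 (.pp [(1, 48550200000)])) (.mul (.g 15) (.pp [(1, 198600000)]))))) (.add (.mul (.g 6) (.mul (.g 6)
 (.pp [(1, 6000000)]))) (.mul (.g 8) (.mul (.g 11) (.pp [(1, 1574580000)])))))) (.mul (.g 4) (.mul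
 (.g 4) (.mul (.g 12) (.pp [(1, 31497600000)]))))) (.add (.mul (.g 9) (.mul (.g 11) (.pp [(1,
 1578930000)]))) (.mul (.g 16) (.pp [(1, 37966800000)])))))) (.add (.mul (.g 6) (.add (.mul (.g 16)
 (.add (.pp [(1, 10807800000)]) (.add (.mul (.g 6) (.add (.mul (.g 15) (.pp [(1, 10214400000)]))
 (.mul (.g 16) (.pp [(1, 7848000000)])))) (.mul (.g 11) (.mul (.g 16) (.pp [(1, 813540000)]))))))
 (.add (.mul (.g 6) (.mul (.g 6) (.mul (.g 9) (.pp [(1, 16264800000)])))) (.mul (.g 11) (.pp [(1,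
 1222470000)]))))) (.mul (.g 11) (.add (.pp [(1, 458040000)]) (.mul (.g 8) (.pp [(1, 150000)]))))))
 (.add (.add (.mul (.g 0) (.pp [(1, 200000000000)])) (.mul (.g 2) (.pp [(1, 200000000000)]))) (.add
 (.mul (.g 14) (.pp [(1, 200000000)])) (.mul (.g 15) (.mul (.g 16) (.mul (.pp [(1, 131700)]) (.sq
 [(1, -44), (2, 37), (3, 54), (5, 100)]))))))) (.pp [(1, 4288738800), (2, 6055200), (3, 5889600),
 (4, 6032700), (5, 6421200), (6, 5170800), (8, 5820000), (9, 6208200), (10, 6034800), (12,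
 6721044), (15, 6592800), (16, 6000000), (18, 5779632), (19, 600000000000), (20, 6297300), (24,
 5728320), (25, 5520000), (27, 6431549), (30, 6317136), (36, 5912640), (40, 6000000), (45,
 6508104), (50, 5580000), (54, 5944260), (60, 6380460), (75, 5430096), (81, 6114780), (90,
 6020880), (100, 6000000), (125, 6060000), (135, 5636460), (150, 5440800), (225, 5772000), (250,
 6000000), (375, 6573120), (625, 6000000)])))))))
 (P_c0 ++ xP_A_F5a) = true := by decide +kernel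

theorem t_A_F5a_c4 : chk RFp gP_A_F5a
 (.rule 5 (.rule 6 (.leaf 6000 (.add (.add (.add (.add (.mul (.g 4) (.add (.add (.mul (.g 3) (.add
 (.mul (.g 6) (.add (.pp [(1, 13713600)]) (.add (.mul (.g 11) (.pp [(1, 4711800)])) (.mul (.g 12)
 (.pp [(1, 4712400)]))))) (.add (.mul (.g 11) (.add (.pp [(1, 16440540)]) (.mul (.g 11) (.pp [(1,
 21125580)])))) (.mul (.g 12) (.add (.mul (.g 3) (.pp [(1, 14352900)])) (.mul (.g 12) (.pp [(1,
 5764800)]))))))) (.mul (.g 2) (.add (.mul (.g 2) (.add (.mul (.g 6) (.pp [(1, 537720)])) (.add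
 (.mul (.g 11) (.pp [(1, 1846860)])) (.mul (.g 12) (.pp [(1, 900)]))))) (.add (.mul (.g 7) (.pp
 [(1, 4892940)])) (.mul (.g 9) (.mul (.g 11) (.pp [(1, 235620)]))))))) (.add (.mul (.g 4) (.add
 (.mul (.g 12) (.add (.mul (.g 4) (.pp [(1, 3511800)])) (.mul (.g 12) (.pp [(1, 4296900)])))) (.mul
 (.g 7) (.mul (.g 7) (.pp [(1, 300)]))))) (.add (.mul (.g 6) (.add (.pp [(1, 1621020)]) (.mul (.g
 9) (.pp [(1, 359397)])))) (.mul (.g 12) (.pp [(1, 4975740)])))))) (.mul (.g 2) (.add (.mul (.g 2)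
 (.add (.mul (.g 3) (.add (.mul (.g 6) (.pp [(1, 537720)])) (.add (.mul (.g 11) (.pp [(1, 600)]))
 (.mul (.g 12) (.pp [(1, 2866140)]))))) (.mul (.g 9) (.add (.pp [(1, 249000)]) (.mul (.g 2) (.pp
 [(1, 26856)])))))) (.add (.mul (.g 7) (.add (.mul (.g 3) (.pp [(1, 116760)])) (.add (.mul (.g 8)
 (.pp [(1, 4664700)])) (.mul (.g 9) (.pp [(1, 398400)]))))) (.mul (.g 3) (.mul (.g 11) (.mul (.g
 11) (.pp [(1, 509220)])))))))) (.add (.mul (.g 3) (.add (.mul (.g 3) (.add (.mul (.g 3) (.mul (.g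
 9) (.pp [(1, 25491)]))) (.mul (.g 11) (.mul (.g 11) (.pp [(1, 215580)]))))) (.add (.mul (.g 6)
 (.mul (.g 9) (.pp [(1, 311637)]))) (.mul (.g 11) (.pp [(1, 6286920)]))))) (.mul (.g 6) (.add (.mul
 (.g 6) (.add (.pp [(1, 1822620)]) (.mul (.g 6) (.mul (.g 6) (.pp [(1, 536520)]))))) (.mul (.g 9)
 (.pp [(1, 670842)])))))) (.add (.add (.mul (.g 0) (.pp [(1, 20000000)])) (.mul (.g 1) (.pp [(1,
 20000000)]))) (.add (.mul (.g 9) (.pp [(1, 1262217)])) (.mul (.g 10) (.pp [(1, 80000)]))))) (.pp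
 [(1, 500391), (2, 522), (3, 633), (4, 720), (5, 633), (6, 567), (8, 484), (9, 600), (10, 567),
 (12, 640), (15, 600), (16, 600), (18, 640), (20, 640), (24, 600), (25, 600), (27, 579), (30, 600),
 (36, 600), (40, 600), (45, 600), (50, 580), (54, 600), (60, 600), (75, 600), (81, 600), (90, 600),
 (100, 600), (125, 600), (135, 600), (150, 600), (225, 600), (250, 600), (375, 600), (625,
 600)])))))
 (P_c4 ++ xP_A_F5a) = true := by decide +kernel

theorem t_A_F8_Op0 : chk ROp gP_A_F8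
 (.split [(1, -69), (3, 100)]
 (.rule 5 (.rule 6 (.cut 1 [(1, 3), (3, -2)] (.add (.add (.mul (.g 8) (.pp [(1, 1)])) (.mul (.g 11)
 (.pp [(1, 1)]))) (.add (.mul (.g 5) (.pp [(1, 1)])) (.mul (.g 7) (.pp [(1, 1)])))) (.rule 8 (.leaf
 6000000000 (.add (.add (.add (.add (.mul (.g 8) (.add (.add (.mul (.g 7) (.add (.add (.mul (.g 4)
 (.add (.add (.mul (.g 5) (.pp [(1, 9854400000)])) (.mul (.g 6) (.pp [(1, 145562400000)]))) (.add
 (.mul (.g 8) (.pp [(1, 1558800000)])) (.add (.mul (.g 13) (.pp [(1, 175072800000)])) (.mul (.g 15)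
 (.pp [(1, 1537200000)])))))) (.add (.mul (.g 15) (.add (.mul (.g 5) (.pp [(1, 3489480000000)]))
 (.add (.mul (.g 7) (.pp [(1, 62280000000)])) (.mul (.g 11) (.pp [(1, 149100000000)]))))) (.mul (.g
 8) (.add (.mul (.g 8) (.pp [(1, 2685540000000)])) (.mul (.g 12) (.pp [(1, 10350000000)]))))))
 (.add (.mul (.g 5) (.mul (.g 7) (.pp [(1, 1354920000000)]))) (.add (.mul (.g 9) (.mul (.g 9) (.pp
 [(1, 249120000000)]))) (.mul (.g 12) (.pp [(1, 13944000000)])))))) (.add (.mul (.g 5) (.add (.add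
 (.mul (.pp [(1, 3060000)]) (.sq [(1, 2), (2, 23), (3, 23), (5, 100), (7, -89)])) (.mul (.g 4)
 (.add (.mul (.g 5) (.pp [(1, 39765000000)])) (.mul (.g 6) (.pp [(1, 15076200000)]))))) (.add (.mul
 (.g 9) (.add (.mul (.g 6) (.pp [(1, 6541680000000)])) (.mul (.g 13) (.pp [(1, 1366020000000)]))))
 (.mul (.g 15) (.add (.pp [(1, 10224480000000)]) (.mul (.g 15) (.pp [(1, 1778640000000)])))))))
 (.mul (.g 8) (.add (.mul (.g 8) (.add (.add (.mul (.g 8) (.pp [(1, 2685540000000)])) (.mul (.g 9)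
 (.pp [(1, 1800660000000)]))) (.add (.mul (.g 13) (.pp [(1, 3060000000)])) (.mul (.g 15) (.pp [(1,
 2686140000000)]))))) (.add (.mul (.g 9) (.add (.mul (.g 11) (.pp [(1, 51900000000)])) (.mul (.g
 12) (.pp [(1, 2163000000)])))) (.mul (.g 10) (.mul (.g 11) (.pp [(1, 76620000000)])))))))) (.add
 (.add (.mul (.g 4) (.add (.pp [(1, 108406200000)]) (.mul (.g 6) (.mul (.g 13) (.pp [(1,
 1870800000)]))))) (.mul (.g 6) (.mul (.g 6) (.mul (.g 13) (.pp [(1, 360000000)]))))) (.add (.mul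
 (.g 12) (.pp [(1, 771399000000)])) (.mul (.g 15) (.pp [(1, 14413080000000)])))))) (.mul (.g 15)
 (.add (.add (.mul (.g 5) (.add (.mul (.pp [(1, 606000)]) (.sq [(1, 70), (2, 100), (3, 95), (5,
 95), (7, 68)])) (.add (.mul (.g 4) (.add (.mul (.g 7) (.pp [(1, 165207000000)])) (.add (.mul (.g
 9) (.pp [(1, 46903800000)])) (.mul (.g 11) (.pp [(1, 15383400000)]))))) (.mul (.g 5) (.add (.mul
 (.g 6) (.pp [(1, 12977040000000)])) (.add (.mul (.g 7) (.pp [(1, 289680000000)])) (.mul (.g 13)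
 (.pp [(1, 8283300000000)])))))))) (.add (.mul (.g 7) (.add (.mul (.g 6) (.add (.mul (.g 9) (.pp
 [(1, 17046300000000)])) (.mul (.g 13) (.pp [(1, 2542560000000)])))) (.mul (.g 7) (.add (.mul (.g
 9) (.pp [(1, 291900000000)])) (.mul (.g 15) (.pp [(1, 78720000000)])))))) (.mul (.g 4) (.pp [(1,
 264653400000)])))) (.add (.add (.mul (.g 6) (.pp [(1, 126180000000)])) (.mul (.g 9) (.pp [(1,
 2986560000000)]))) (.add (.mul (.g 13) (.mul (.pp [(1, 480000)]) (.sq [(1, 25), (2, 28), (3, -80),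
 (5, 100), (7, 72)]))) (.mul (.g 15) (.pp [(1, 5276400000000)]))))))) (.add (.mul (.g 10) (.add
 (.add (.mul (.g 5) (.add (.add (.pp [(1, 1884240000000)]) (.mul (.g 6) (.pp [(1,
 12928560000000)]))) (.add (.mul (.g 7) (.pp [(1, 23633760000000)])) (.add (.mul (.g 9) (.pp [(1,
 10427940000000)])) (.mul (.g 10) (.mul (.g 11) (.pp [(1, 2820000000)]))))))) (.add (.mul (.g 10)
 (.add (.pp [(1, 1525320000000)]) (.mul (.pp [(1, 45852000)]) (.sq [(1, 2), (2, -7), (3, 100), (5,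
 -97), (7, -6)])))) (.mul (.g 4) (.pp [(1, 9562200000)])))) (.add (.mul (.g 6) (.mul (.g 6) (.mul
 (.g 6) (.pp [(1, 572760000000)])))) (.add (.mul (.g 7) (.mul (.g 7) (.mul (.g 7) (.pp [(1,
 510720000000)])))) (.mul (.g 13) (.mul (.pp [(1, 41880000)]) (.sq [(1, -43), (2, 42), (3, 50), (5,
 50), (7, 36)]))))))) (.add (.mul (.g 4) (.add (.mul (.g 7) (.mul (.g 7) (.add (.mul (.g 6) (.pp
 [(1, 123812400000)])) (.add (.mul (.g 12) (.pp [(1, 175770000)])) (.mul (.g 13) (.pp [(1,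
 149207400000)])))))) (.add (.mul (.g 4) (.pp [(1, 1606116000)])) (.mul (.g 12) (.mul (.pp [(1,
 9861)]) (.sq [(1, -100), (2, 69), (3, 62), (5, 62), (7, 36)])))))) (.mul (.g 9) (.add (.mul (.g
 12) (.mul (.g 12) (.add (.pp [(1, 4609500000)]) (.mul (.g 13) (.pp [(1, 543600000)]))))) (.add
 (.mul (.g 5) (.mul (.g 5) (.mul (.g 7) (.pp [(1, 60840000000)])))) (.mul (.g 13) (.mul (.pp [(1,
 4296000)]) (.sq [(1, 31), (2, -48), (3, -74), (5, 35), (7, 100)]))))))))) (.add (.add (.mul (.g 0)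
 (.pp [(1, 6000000000)])) (.add (.mul (.g 2) (.pp [(1, 20000000000000)])) (.mul (.g 3) (.pp [(1,
 20000000000000)])))) (.add (.mul (.g 6) (.mul (.g 6) (.mul (.g 6) (.mul (.g 13) (.pp [(1,
 66900000000)]))))) (.add (.mul (.g 11) (.mul (.pp [(1, 764382000)]) (.sq [(2, 100), (3, -40), (5,
 -40), (7, -3)]))) (.mul (.g 14) (.pp [(1, 20000000000000)])))))) (.pp [(1, 49192230000), (2,
 627529800), (3, 461804400), (4, 645834759), (5, 510236400), (6, 637433364), (7, 602431200), (8,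
 603479020), (9, 701506236), (10, 654893364), (12, 655403800), (14, 640416792), (15, 843428472),
 (16, 573252000), (18, 601982560), (20, 692164900), (21, 777056016), (24, 661074000), (25,
 663940236), (27, 526655520), (28, 534953760), (30, 329424720), (35, 593888016), (36, 533538000),
 (40, 666480000), (42, 567625920), (45, 489858960), (49, 563237424), (50, 559794160), (54,
 561840000), (56, 589692000), (60, 440646000), (63, 519717120), (70, 762066720), (75, 516735360),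
 (81, 628632000), (84, 671352000), (90, 721686000), (98, 690108720), (100, 519816000), (105,
 379256640), (125, 614755920), (126, 588234000), (135, 642696000), (140, 571008000), (147,
 523657680), (150, 685740000), (175, 632339520), (189, 583392000), (196, 578568000), (210,
 474972000), (225, 662028000), (245, 595307280), (250, 605070000), (294, 519336000), (315,
 748656000), (343, 628320000), (350, 510558000), (375, 554496000), (441, 662736000), (490,
 421008000), (525, 579936000), (625, 578532000), (686, 583884000), (735, 642144000), (875,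
 568272000), (1029, 571680000), (1225, 629328000), (1715, 600000000), (2401, 600000000)])))))))
 (.split [(1, -7), (3, 50)]
 (.split [(2, 1), (3, -1)]
 (.split [(2, 1), (5, -1)]
 (.rule 0 (.rule 2 (.rule 7 (.leaf 300000000 (.add (.add (.add (.add (.mul (.g 10) (.add (.add
 (.add (.mul (.g 10) (.add (.add (.mul (.g 11) (.add (.mul (.g 9) (.pp [(1, 67959000000)])) (.add
 (.mul (.g 10) (.pp [(1, 241557000000)])) (.mul (.g 14) (.pp [(1, 33135150000)]))))) (.mul (.g 3)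
 (.add (.mul (.g 3) (.pp [(1, 478212000000)])) (.mul (.g 14) (.pp [(1, 23235000000)]))))) (.add
 (.mul (.g 6) (.mul (.g 8) (.pp [(1, 3150330000)]))) (.mul (.g 7) (.mul (.g 14) (.pp [(1,
 4121400000)])))))) (.mul (.g 13) (.add (.add (.mul (.pp [(1, 18506100)]) (.sq [(1, 27), (2, 7),
 (3, 58), (5, 100), (7, -59)])) (.mul (.pp [(1, 1584300)]) (.sq [(1, 44), (2, 92), (3, 25), (5, 1),
 (7, 100)]))) (.add (.mul (.g 4) (.mul (.g 15) (.pp [(1, 184347000000)]))) (.add (.mul (.g 6) (.mul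
 (.g 9) (.pp [(1, 2817450000)]))) (.mul (.g 7) (.pp [(1, 525375000000)]))))))) (.add (.mul (.g 17)
 (.add (.add (.pp [(1, 687717000000)]) (.mul (.g 3) (.pp [(1, 73515000000)]))) (.add (.mul (.g 4)
 (.mul (.g 11) (.pp [(1, 128307000000)]))) (.mul (.g 17) (.mul (.g 17) (.pp [(1, 5907000000)]))))))
 (.mul (.g 14) (.add (.pp [(1, 83550000)]) (.add (.mul (.pp [(1, 41475)]) (.sq [(1, 46), (2, 100),
 (3, -3), (5, 1), (7, 94)])) (.mul (.g 7) (.mul (.g 15) (.pp [(1, 6038250000)])))))))) (.add (.add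
 (.mul (.g 3) (.add (.mul (.pp [(1, 45070800)]) (.sq [(1, 20), (2, -30), (3, -7), (5, 50), (7,
 32)])) (.mul (.g 7) (.mul (.g 11) (.pp [(1, 387777000000)]))))) (.mul (.g 4) (.mul (.g 6) (.add
 (.mul (.g 6) (.pp [(1, 70137300)])) (.mul (.g 8) (.pp [(1, 1791630000)])))))) (.add (.mul (.g 5)
 (.add (.mul (.g 5) (.mul (.g 5) (.pp [(1, 2057424)]))) (.mul (.g 9) (.mul (.g 12) (.pp [(1,
 5369280000)]))))) (.add (.mul (.g 9) (.mul (.pp [(1, 13523400)]) (.sq [(1, 78), (2, -100), (3,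
 25), (7, 97)]))) (.mul (.g 12) (.mul (.pp [(1, 21543300)]) (.sq [(1, -16), (2, 89), (3, 21), (5,
 100), (7, -90)])))))))) (.add (.mul (.g 4) (.add (.add (.pp [(1, 456489000000)]) (.add (.mul (.g
 8) (.add (.add (.mul (.pp [(1, 6762000)]) (.sq [(1, 9), (2, 20), (3, -92), (5, 100), (7, -59)]))
 (.mul (.g 3) (.mul (.g 8) (.pp [(1, 12372000000)])))) (.add (.mul (.g 4) (.pp [(1,
 1009287000000)])) (.mul (.g 9) (.mul (.g 9) (.pp [(1, 71604000000)])))))) (.mul (.g 12) (.add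
 (.mul (.pp [(1, 3518400)]) (.sq [(1, 31), (2, -40), (3, 18), (5, -52), (7, 100)])) (.add (.mul (.g
 11) (.mul (.g 11) (.pp [(1, 72390000000)]))) (.mul (.g 13) (.pp [(1, 18177000000)]))))))) (.add
 (.add (.mul (.g 4) (.add (.pp [(1, 413730000000)]) (.mul (.pp [(1, 2699400)]) (.sq [(1, 15), (2,
 -14), (3, -100), (5, -65), (7, 71)])))) (.mul (.g 6) (.pp [(1, 6430560000)]))) (.add (.mul (.g 9)
 (.mul (.pp [(1, 22683600)]) (.sq [(1, -5), (2, -13), (3, -18), (5, -48), (7, 50)]))) (.mul (.g 15)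
 (.mul (.pp [(1, 10629600)]) (.sq [(1, 8), (2, 9), (3, -48), (5, 96), (7, -100)]))))))) (.mul (.g
 3) (.add (.add (.add (.mul (.g 9) (.add (.pp [(1, 197286000000)]) (.add (.mul (.g 3) (.pp [(1,
 684492000000)])) (.mul (.g 5) (.mul (.g 5) (.pp [(1, 7705200)])))))) (.mul (.g 14) (.add (.pp [(1,
 8533800000)]) (.mul (.pp [(1, 31440)]) (.sq [(1, 83), (2, -85), (3, -77), (5, 30), (7, -100)])))))
 (.add (.mul (.g 3) (.mul (.pp [(1, 10120500)]) (.sq [(1, 100), (2, -67), (3, 33), (5, 67)])))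
 (.mul (.g 5) (.pp [(1, 2140560000)])))) (.add (.add (.mul (.g 7) (.pp [(1, 1079217000000)])) (.mul
 (.g 11) (.mul (.pp [(1, 14089500)]) (.sq [(1, 28), (2, -41), (3, 12), (5, 9), (7, 100)])))) (.add
 (.mul (.g 12) (.mul (.g 13) (.pp [(1, 347655000000)]))) (.mul (.g 17) (.pp [(1,
 65361000000)])))))))) (.add (.mul (.g 17) (.add (.add (.mul (.g 5) (.add (.pp [(1, 11346240000)])
 (.add (.mul (.pp [(1, 36168)]) (.sq [(1, 100), (2, 100), (3, 94), (5, 69), (7, 69)])) (.mul (.g 7)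
 (.mul (.g 7) (.pp [(1, 4645140000)])))))) (.add (.mul (.g 7) (.add (.pp [(1, 587376000000)]) (.mul
 (.g 7) (.mul (.g 9) (.pp [(1, 177606000000)]))))) (.mul (.g 8) (.mul (.g 8) (.mul (.g 8) (.pp [(1,
 48573000000)])))))) (.add (.mul (.g 11) (.mul (.pp [(1, 10726800)]) (.sq [(1, 60), (2, -100), (3,
 -24), (5, 66), (7, 89)]))) (.add (.mul (.g 15) (.mul (.pp [(1, 323280000)]) (.sq [(1, 20), (2,
 -10), (3, -13), (5, -13), (7, -13)]))) (.mul (.g 17) (.mul (.pp [(1, 13323900)]) (.sq [(1, 100),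
 (2, -42), (3, -73), (5, -21), (7, -21)]))))))) (.add (.mul (.g 12) (.add (.add (.mul (.g 7) (.add
 (.mul (.g 8) (.pp [(1, 48816000000)])) (.mul (.g 14) (.pp [(1, 14792250000)])))) (.mul (.g 6)
 (.mul (.pp [(1, 59589)]) (.sq [(1, 27), (2, 36), (3, 25), (5, -92), (7, 100)])))) (.add (.mul (.g
 9) (.mul (.pp [(1, 6254400)]) (.sq [(1, -9), (2, -5), (3, -66), (5, -100), (7, 94)]))) (.mul (.g
 12) (.mul (.pp [(1, 3339000)]) (.sq [(1, -100), (2, 81), (3, 16), (5, 16), (7, 38)])))))) (.mul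
 (.g 14) (.add (.pp [(1, 23511000000)]) (.add (.mul (.g 6) (.mul (.g 7) (.mul (.g 7) (.pp [(1,
 56251500)])))) (.mul (.g 11) (.pp [(1, 5392650000)])))))))) (.add (.add (.mul (.g 0) (.pp [(1,
 600000000)])) (.add (.mul (.g 1) (.pp [(1, 1000000000000)])) (.mul (.g 2) (.pp [(1,
 1000000000000)])))) (.add (.mul (.g 7) (.mul (.g 7) (.mul (.g 7) (.mul (.g 13) (.pp [(1,
 117687000000)]))))) (.add (.mul (.g 9) (.mul (.g 9) (.mul (.g 9) (.mul (.g 9) (.pp [(1,
 10920000000)]))))) (.mul (.g 16) (.pp [(1, 1000000000000)])))))) (.pp [(1, 40533423711), (2,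
 30290247), (3, 35058639), (4, 33235860), (5, 33541737), (6, 23446734), (7, 30574932), (8,
 32544164), (9, 27437661), (10, 30422976), (12, 25031736), (14, 33978600), (15, 22874154), (16,
 27903600), (18, 33255015), (20, 25709220), (21, 25294572), (24, 30517800), (25, 25403124), (27,
 30125125), (28, 25121700), (30, 36510816), (35, 29417472), (36, 31677300), (40, 32927100), (42,
 27184800), (45, 33624849), (49, 31065636), (50, 28158492), (54, 29961300), (56, 26538000), (60,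
 32686200), (63, 37355439), (70, 27738000), (75, 35944152), (81, 29911500), (84, 29376600), (90,
 25365000), (98, 26406600), (100, 30979500), (105, 37240806), (125, 32476588), (126, 36853500),
 (135, 30878700), (140, 36559200), (147, 35295228), (150, 28453800), (175, 27853467), (189,
 25752300), (196, 28772400), (210, 29550600), (225, 26682600), (245, 29312892), (250, 30447300),
 (294, 32674200), (315, 31686300), (343, 27519564), (350, 24504600), (375, 28483200), (441,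
 28604700), (490, 33988200), (525, 35646000), (625, 28371600), (686, 25624500), (735, 26009400),
 (875, 34482600), (1029, 32928900), (1225, 30657000), (1715, 37002900), (2401, 31160100)]))))))
 (.rule 0 (.rule 3 (.rule 7 (.leaf 1500000000 (.add (.add (.add (.add (.mul (.g 10) (.add (.add
 (.add (.mul (.g 14) (.add (.add (.pp [(1, 30596250000)]) (.add (.mul (.pp [(1, 344850)]) (.sq [(1,
 -82), (2, -32), (3, 100), (5, -75), (7, 33)])) (.mul (.g 8) (.add (.mul (.g 6) (.pp [(1,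
 463357500)])) (.mul (.g 8) (.pp [(1, 243324750000)])))))) (.add (.mul (.g 4) (.mul (.g 15) (.pp
 [(1, 49041750000)]))) (.add (.mul (.g 9) (.pp [(1, 33787500000)])) (.mul (.g 10) (.pp [(1,
 37378500000)])))))) (.mul (.g 17) (.add (.add (.pp [(1, 2445915000000)]) (.add (.mul (.pp [(1,
 6747000)]) (.sq [(1, -68), (2, -100), (3, -21), (5, -1), (7, 24)])) (.mul (.pp [(1, 46288500)])
 (.sq [(1, 11), (2, -82), (3, -59), (5, 100), (7, -81)])))) (.add (.mul (.g 7) (.pp [(1,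
 2569815000000)])) (.add (.mul (.g 9) (.mul (.g 9) (.pp [(1, 596490000000)]))) (.mul (.g 10) (.mul
 (.g 10) (.pp [(1, 1139145000000)])))))))) (.add (.mul (.g 5) (.add (.mul (.g 5) (.add (.mul (.g 4)
 (.pp [(1, 635700000)])) (.add (.mul (.g 5) (.pp [(1, 26687160)])) (.mul (.g 8) (.pp [(1,
 562698000)]))))) (.add (.mul (.g 7) (.mul (.g 10) (.pp [(1, 31971000000)]))) (.mul (.g 13) (.mul
 (.g 15) (.pp [(1, 62867400000)])))))) (.mul (.g 3) (.add (.mul (.g 3) (.add (.mul (.g 3) (.pp [(1,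
 779655000000)])) (.mul (.g 7) (.pp [(1, 1145925000000)])))) (.mul (.g 7) (.mul (.g 9) (.pp [(1,
 817575000000)]))))))) (.add (.add (.mul (.g 12) (.add (.mul (.pp [(1, 21388500)]) (.sq [(1, 6),
 (2, -85), (3, -34), (5, 100), (7, -28)])) (.mul (.pp [(1, 15312000)]) (.sq [(1, -57), (2, -72),
 (3, -7), (5, -42), (7, 100)])))) (.mul (.g 4) (.pp [(1, 682875000000)]))) (.add (.mul (.g 7) (.mul
 (.pp [(1, 43509000)]) (.sq [(1, 10), (2, 82), (3, -43), (5, 54), (7, -100)]))) (.mul (.g 10) (.mul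
 (.g 10) (.mul (.g 10) (.pp [(1, 1056960000000)])))))))) (.mul (.g 17) (.add (.add (.mul (.g 17)
 (.add (.add (.mul (.pp [(1, 28060500)]) (.sq [(1, 84), (2, -17), (3, 100), (5, -12), (7, 79)]))
 (.mul (.pp [(1, 21712500)]) (.sq [(1, -12), (2, 100), (3, 64), (5, -59), (7, 60)]))) (.add (.mul
 (.pp [(1, 4363500)]) (.sq [(1, 59), (2, 95), (3, 100), (5, -53), (7, -74)])) (.add (.mul (.pp [(1,
 11244000)]) (.sq [(1, 14), (2, 52), (3, 1), (5, 46), (7, 100)])) (.mul (.g 3) (.mul (.g 11) (.pp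
 [(1, 151365000000)]))))))) (.add (.mul (.g 5) (.add (.add (.pp [(1, 40115400000)]) (.mul (.pp [(1,
 988260)]) (.sq [(1, 100), (2, 96), (3, 96), (5, 67), (7, 70)]))) (.add (.mul (.g 3) (.mul (.g 3)
 (.pp [(1, 21689700000)]))) (.mul (.g 8) (.mul (.g 8) (.pp [(1, 43884900000)])))))) (.mul (.g 4)
 (.add (.mul (.pp [(1, 9814500)]) (.sq [(1, -66), (2, -90), (3, 100), (5, -87), (7, 18)])) (.mul
 (.pp [(1, 61444500)]) (.sq [(1, -66), (2, -21), (3, -3), (5, 100), (7, -47)])))))) (.add (.add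
 (.mul (.g 12) (.add (.mul (.pp [(1, 29926500)]) (.sq [(1, 41), (2, 100), (3, -45), (5, 77), (7,
 -70)])) (.mul (.pp [(1, 10764000)]) (.sq [(1, -18), (2, 29), (3, 50), (5, -12), (7, -14)]))))
 (.mul (.g 11) (.mul (.pp [(1, 8008500)]) (.sq [(1, 100), (2, -63), (3, -63), (5, -86), (7,
 -63)])))) (.add (.mul (.g 14) (.mul (.pp [(1, 20655750000)]) (.sq [(2, 1), (3, -1)]))) (.mul (.g
 15) (.mul (.pp [(1, 8580000)]) (.sq [(1, -7), (2, 100), (3, 36), (5, -90), (7, -23)])))))))) (.add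
 (.mul (.g 4) (.add (.add (.mul (.g 4) (.add (.add (.pp [(1, 1337265000000)]) (.add (.mul (.pp [(1,
 23445000)]) (.sq [(1, 2), (2, -75), (3, -86), (5, -100), (7, 98)])) (.mul (.g 3) (.pp [(1,
 1449690000000)])))) (.add (.mul (.g 7) (.pp [(1, 80175000000)])) (.add (.mul (.g 8) (.pp [(1,
 1581780000000)])) (.mul (.g 14) (.mul (.g 15) (.pp [(1, 51183750000)]))))))) (.mul (.g 7) (.add
 (.mul (.g 7) (.add (.mul (.g 11) (.pp [(1, 381375000000)])) (.mul (.g 15) (.pp [(1,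
 109845000000)])))) (.mul (.g 5) (.pp [(1, 42968100000)]))))) (.add (.mul (.g 12) (.add (.pp [(1,
 2376195000000)]) (.mul (.pp [(1, 86380500)]) (.sq [(1, -5), (2, 31), (3, 100), (5, 57), (7,
 -51)])))) (.mul (.g 6) (.pp [(1, 24359850000)]))))) (.add (.mul (.g 12) (.add (.add (.mul (.g 7)
 (.add (.mul (.g 7) (.add (.mul (.g 11) (.pp [(1, 703635000000)])) (.mul (.g 12) (.pp [(1,
 200355000000)])))) (.mul (.g 5) (.pp [(1, 132134100000)])))) (.mul (.g 12) (.add (.mul (.pp [(1,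
 26709000)]) (.sq [(1, 20), (2, 93), (3, -25), (5, 66), (7, -100)])) (.mul (.pp [(1, 45454500)])
 (.sq [(1, -96), (2, 100), (3, 42), (5, 71), (7, 71)]))))) (.add (.mul (.g 14) (.add (.mul (.pp
 [(1, 7042500)]) (.sq [(1, -5), (2, 33), (3, 19), (5, -25), (7, 50)])) (.mul (.pp [(1, 6280650)])
 (.sq [(1, -67), (2, 1), (3, 24), (5, 100), (7, -21)])))) (.add (.mul (.g 6) (.mul (.pp [(1,
 1559985)]) (.sq [(1, 3), (2, -65), (3, -32), (5, 100), (7, 24)]))) (.mul (.g 13) (.mul (.pp [(1,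
 55173000)]) (.sq [(1, -11), (2, 65), (3, 36), (5, -53), (7, 100)]))))))) (.mul (.g 6) (.add (.mul
 (.g 8) (.add (.mul (.pp [(1, 1165200)]) (.sq [(3, 50), (5, -35), (7, 31)])) (.mul (.g 3) (.mul (.g
 6) (.pp [(1, 215734500)]))))) (.mul (.g 13) (.mul (.pp [(1, 149220)]) (.sq [(1, -15), (2, 40), (3,
 83), (5, -73), (7, 100)])))))))) (.add (.add (.mul (.g 5) (.mul (.g 5) (.add (.mul (.g 5) (.mul
 (.g 14) (.pp [(1, 121218)]))) (.mul (.g 7) (.mul (.g 7) (.pp [(1, 979158000)])))))) (.add (.mul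
 (.g 13) (.add (.mul (.g 13) (.mul (.pp [(1, 59790000)]) (.sq [(1, -65), (2, -66), (3, -14), (5,
 100), (7, -68)]))) (.mul (.g 14) (.mul (.pp [(1, 1304775)]) (.sq [(1, -58), (2, -65), (3, -12),
 (5, 100), (7, -57)]))))) (.mul (.g 0) (.pp [(1, 3000000000)])))) (.add (.mul (.g 1) (.pp [(1,
 5000000000000)])) (.add (.mul (.g 2) (.pp [(1, 5000000000000)])) (.mul (.g 16) (.pp [(1,
 5000000000000)])))))) (.pp [(1, 1565822499), (2, 141493035), (3, 172238295), (4, 131867295), (5,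
 140414415), (6, 211208970), (7, 155916420), (8, 129316350), (9, 148380780), (10, 153494730), (12,
 205370250), (14, 170412840), (15, 92457000), (16, 132534000), (18, 104792460), (20, 121158330),
 (21, 136071000), (24, 176908500), (25, 157499280), (27, 180951440), (28, 195976830), (30,
 93606120), (35, 152931360), (36, 122194500), (40, 133642500), (42, 72115050), (45, 157656060),
 (49, 137884710), (50, 174008940), (54, 184698000), (56, 185653500), (60, 153787500), (63,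
 134911740), (70, 81263370), (75, 223977540), (81, 133665000), (84, 86832000), (90, 183988500),
 (98, 145362135), (100, 197386500), (105, 192379080), (125, 148263300), (126, 143602500), (135,
 100839000), (140, 122707500), (147, 153282165), (150, 149544000), (175, 171709170), (189,
 160929000), (196, 133822500), (210, 202977000), (225, 140215500), (245, 136680165), (250,
 131881500), (294, 152760000), (315, 159435000), (343, 145826850), (350, 199647000), (375,
 113293500), (441, 149139000), (490, 136999500), (525, 101907000), (625, 151134000), (686,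
 151452000), (735, 166146000), (875, 131566500), (1029, 149845500), (1225, 154093500), (1715,
 165622500), (2401, 145014000)])))))))
 (.split [(2, 1), (5, -1)]
 (.rule 1 (.rule 2 (.rule 7 (.leaf 300000000 (.add (.add (.add (.add (.mul (.g 9) (.add (.add (.mul
 (.g 10) (.add (.add (.mul (.g 9) (.add (.add (.mul (.g 3) (.pp [(1, 30000000)])) (.mul (.g 7) (.pp
 [(1, 99192000000)]))) (.add (.mul (.g 8) (.pp [(1, 125091000000)])) (.mul (.g 11) (.pp [(1,
 99213000000)]))))) (.add (.mul (.g 7) (.add (.mul (.g 7) (.pp [(1, 803202000000)])) (.mul (.g 11)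
 (.pp [(1, 565284000000)])))) (.mul (.g 8) (.add (.mul (.g 8) (.pp [(1, 125136000000)])) (.mul (.g
 17) (.pp [(1, 125256000000)])))))) (.add (.mul (.g 10) (.add (.mul (.g 4) (.pp [(1, 81000000)]))
 (.mul (.g 10) (.pp [(1, 3000000)])))) (.add (.mul (.g 14) (.mul (.g 15) (.pp [(1, 6252750000)])))
 (.mul (.g 17) (.pp [(1, 448482000000)])))))) (.add (.mul (.g 7) (.add (.add (.mul (.g 7) (.add
 (.mul (.g 7) (.pp [(1, 309231000000)])) (.mul (.g 17) (.pp [(1, 39000000)])))) (.mul (.g 4) (.mul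
 (.g 4) (.pp [(1, 309543000000)])))) (.add (.mul (.g 6) (.mul (.g 8) (.pp [(1, 3093540000)])))
 (.mul (.g 12) (.pp [(1, 813672000000)]))))) (.mul (.g 11) (.add (.mul (.g 4) (.add (.mul (.g 8)
 (.pp [(1, 198000000)])) (.mul (.g 11) (.pp [(1, 380871000000)])))) (.add (.mul (.g 14) (.add (.pp
 [(1, 9322800000)]) (.mul (.g 15) (.pp [(1, 1350000)])))) (.mul (.g 9) (.mul (.g 9) (.pp [(1,
 39000000)])))))))) (.add (.mul (.g 3) (.add (.pp [(1, 65241000000)]) (.add (.mul (.g 3) (.pp [(1,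
 818310000000)])) (.mul (.g 12) (.pp [(1, 181551000000)]))))) (.add (.mul (.g 17) (.add (.mul (.g
 8) (.pp [(1, 181545000000)])) (.add (.mul (.g 9) (.mul (.g 9) (.pp [(1, 18000000)]))) (.mul (.g
 17) (.mul (.g 17) (.pp [(1, 3000000)])))))) (.mul (.g 6) (.mul (.g 9) (.mul (.g 9) (.pp [(1,
 240000)])))))))) (.add (.mul (.g 7) (.add (.add (.mul (.g 17) (.add (.add (.pp [(1,
 309198000000)]) (.mul (.g 8) (.add (.pp [(1, 867699000000)]) (.add (.mul (.g 4) (.pp [(1,
 237987000000)])) (.mul (.g 6) (.pp [(1, 2379030000)])))))) (.add (.mul (.g 7) (.mul (.g 7) (.pp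
 [(1, 237957000000)]))) (.mul (.g 10) (.pp [(1, 678192000000)]))))) (.mul (.g 10) (.add (.mul (.g
 10) (.add (.mul (.g 5) (.pp [(1, 2502120000)])) (.mul (.g 14) (.pp [(1, 450000)])))) (.add (.mul
 (.g 4) (.pp [(1, 668703000000)])) (.mul (.g 11) (.mul (.g 14) (.pp [(1, 11895600000)]))))))) (.add
 (.mul (.g 3) (.add (.mul (.g 11) (.add (.mul (.g 7) (.pp [(1, 396000000)])) (.mul (.g 11) (.pp
 [(1, 303000000)])))) (.mul (.g 4) (.pp [(1, 237675000000)])))) (.mul (.g 12) (.add (.mul (.g 7)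
 (.mul (.g 7) (.pp [(1, 66000000)]))) (.mul (.g 14) (.pp [(1, 7650000)]))))))) (.mul (.g 10) (.add
 (.add (.mul (.g 17) (.add (.add (.pp [(1, 4038000000)]) (.mul (.g 8) (.add (.mul (.g 3) (.pp [(1,
 125226000000)])) (.mul (.g 14) (.pp [(1, 2250000)]))))) (.add (.mul (.g 10) (.mul (.g 10) (.pp
 [(1, 30000000)]))) (.mul (.g 17) (.pp [(1, 224211000000)]))))) (.mul (.g 10) (.mul (.g 10) (.add
 (.mul (.g 8) (.pp [(1, 69000000)])) (.add (.mul (.g 11) (.pp [(1, 30000000)])) (.mul (.g 15) (.pp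
 [(1, 99000000)]))))))) (.add (.mul (.g 4) (.pp [(1, 48000000)])) (.mul (.g 8) (.mul (.g 12) (.mul
 (.g 14) (.pp [(1, 600000)]))))))))) (.add (.mul (.g 3) (.add (.add (.mul (.g 4) (.pp [(1,
 389916000000)])) (.mul (.g 5) (.pp [(1, 20596920000)]))) (.add (.mul (.g 8) (.pp [(1,
 224874000000)])) (.add (.mul (.g 14) (.mul (.pp [(1, 135)]) (.sq [(1, 9), (2, -31), (3, 100), (5,
 -59), (7, 89)]))) (.mul (.g 17) (.pp [(1, 60276000000)])))))) (.add (.mul (.g 6) (.add (.mul (.g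
 6) (.add (.pp [(1, 1229100)]) (.mul (.g 4) (.mul (.g 8) (.pp [(1, 6000)]))))) (.add (.mul (.g 5)
 (.mul (.g 8) (.mul (.g 8) (.pp [(1, 19200)])))) (.mul (.g 13) (.mul (.pp [(1, 27)]) (.sq [(1,
 -25), (2, 73), (3, 53), (5, 100), (7, -73)])))))) (.mul (.g 4) (.add (.mul (.g 4) (.pp [(1,
 591840000000)])) (.mul (.g 14) (.pp [(1, 29872650000)]))))))) (.add (.add (.mul (.g 8) (.add (.mul
 (.g 5) (.mul (.g 17) (.pp [(1, 3360000)]))) (.mul (.g 14) (.pp [(1, 14908200000)])))) (.add (.mul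
 (.g 0) (.pp [(1, 600000000)])) (.mul (.g 1) (.pp [(1, 1000000000000)])))) (.add (.mul (.g 2) (.pp
 [(1, 1000000000000)])) (.add (.mul (.g 15) (.mul (.g 15) (.mul (.pp [(1, 3000)]) (.sq [(1, -34),
 (2, 48), (3, 63), (5, 88), (7, -100)])))) (.mul (.g 16) (.pp [(1, 1000000000000)])))))) (.pp [(1,
 30144786900), (2, 30494790), (3, 31373625), (4, 27678780), (5, 28599210), (6, 33061800), (7,
 30600000), (8, 24588942), (9, 30253050), (10, 35891190), (12, 33000567), (14, 27946380), (15,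
 29133150), (16, 29594700), (18, 27687273), (20, 32694528), (21, 25930050), (24, 32277000), (25,
 29592030), (27, 27397833), (28, 32365176), (30, 27261906), (35, 29803620), (36, 30323700), (40,
 31687200), (42, 28756560), (45, 28554033), (49, 30000000), (50, 25443345), (54, 28164300), (56,
 30101400), (60, 26306400), (63, 33870894), (70, 28949694), (75, 31915800), (81, 31677300), (84,
 28735200), (90, 33468600), (98, 30441942), (100, 31240200), (105, 31169094), (125, 30713185),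
 (126, 32856000), (135, 29940300), (140, 34441800), (147, 29822073), (150, 32877900), (175,
 29285130), (189, 28907400), (196, 30386700), (210, 29980200), (225, 27528000), (245, 31448058),
 (250, 30079200), (294, 30225000), (315, 28547400), (343, 30000000), (350, 32812200), (375,
 28538700), (441, 29388300), (490, 29226600), (525, 31284600), (625, 30398700), (686, 30000000),
 (735, 29775000), (875, 28644600), (1029, 30000000), (1225, 30386700), (1715, 30000000), (2401,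
 30000000)]))))))
 (.rule 1 (.rule 3 (.rule 7 (.leaf 300000000 (.add (.add (.add (.add (.mul (.pp [(1, 6880200)])
 (.sq [(1, -24), (2, -31), (3, 100), (5, 3), (7, 6)])) (.mul (.g 10) (.add (.add (.mul (.pp [(1,
 886500)]) (.sq [(2, 15), (3, 20), (5, 100), (7, -63)])) (.add (.mul (.g 17) (.add (.add (.mul (.g
 17) (.add (.pp [(1, 220761000000)]) (.add (.mul (.g 11) (.pp [(1, 30000000)])) (.mul (.g 15) (.pp
 [(1, 4632000000)]))))) (.mul (.g 7) (.add (.pp [(1, 796350000000)]) (.mul (.g 7) (.pp [(1,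
 5823000000)]))))) (.add (.mul (.g 9) (.add (.pp [(1, 452925000000)]) (.mul (.g 9) (.pp [(1,
 459000000)])))) (.add (.mul (.g 10) (.add (.mul (.g 10) (.pp [(1, 30000000)])) (.mul (.g 15) (.pp
 [(1, 4602000000)])))) (.mul (.g 8) (.mul (.g 8) (.pp [(1, 213708000000)]))))))) (.mul (.g 3) (.add
 (.add (.mul (.g 6) (.add (.mul (.g 6) (.pp [(1, 9540900)])) (.mul (.g 7) (.pp [(1,
 3239610000)])))) (.mul (.g 9) (.add (.pp [(1, 143190000000)]) (.mul (.g 12) (.pp [(1,
 1185000000)]))))) (.add (.mul (.g 3) (.mul (.g 8) (.pp [(1, 9546000000)]))) (.mul (.g 7) (.pp [(1,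
 210471000000)]))))))) (.add (.add (.mul (.g 5) (.add (.mul (.g 4) (.add (.mul (.g 6) (.pp [(1,
 68482800)])) (.add (.mul (.g 8) (.pp [(1, 7071420000)])) (.mul (.g 10) (.pp [(1, 66480000)])))))
 (.mul (.g 5) (.add (.pp [(1, 265923600)]) (.add (.mul (.g 10) (.pp [(1, 54348000)])) (.mul (.g 11)
 (.pp [(1, 96529200)]))))))) (.mul (.g 14) (.add (.mul (.g 9) (.add (.pp [(1, 2514600000)]) (.mul
 (.g 11) (.pp [(1, 582900000)])))) (.mul (.g 10) (.add (.mul (.g 11) (.pp [(1, 289650000)])) (.mul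
 (.g 15) (.pp [(1, 630900000)]))))))) (.add (.mul (.g 4) (.mul (.g 7) (.add (.mul (.g 7) (.pp [(1,
 1623000000)])) (.mul (.g 13) (.pp [(1, 24597000000)]))))) (.mul (.g 9) (.mul (.g 9) (.mul (.g 10)
 (.pp [(1, 5763000000)]))))))))) (.add (.mul (.g 7) (.add (.add (.mul (.pp [(1, 51123000)]) (.sq
 [(1, 8), (2, 18), (3, 100), (5, -59), (7, 1)])) (.add (.mul (.g 12) (.add (.mul (.g 7) (.add (.add
 (.pp [(1, 457047000000)]) (.mul (.g 7) (.pp [(1, 271371000000)]))) (.add (.mul (.g 9) (.pp [(1,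
 183078000000)])) (.mul (.g 17) (.pp [(1, 23004000000)]))))) (.add (.mul (.g 9) (.add (.pp [(1,
 587814000000)]) (.add (.mul (.g 6) (.pp [(1, 2369220000)])) (.mul (.g 9) (.pp [(1,
 51570000000)]))))) (.mul (.g 17) (.add (.pp [(1, 354066000000)]) (.mul (.g 8) (.pp [(1,
 305292000000)]))))))) (.mul (.g 4) (.mul (.g 4) (.add (.mul (.g 3) (.pp [(1, 79878000000)])) (.add
 (.mul (.g 11) (.pp [(1, 185283000000)])) (.mul (.g 13) (.pp [(1, 22863000000)])))))))) (.add (.add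
 (.mul (.g 9) (.add (.mul (.pp [(1, 17424000)]) (.sq [(1, -13), (2, 22), (3, 100), (5, -37), (7,
 -4)])) (.mul (.g 6) (.add (.mul (.g 6) (.pp [(1, 17725500)])) (.mul (.g 7) (.pp [(1,
 1836270000)])))))) (.mul (.g 7) (.mul (.g 7) (.mul (.g 7) (.pp [(1, 16620000000)]))))) (.add (.mul
 (.g 15) (.mul (.pp [(1, 1464900)]) (.sq [(1, 8), (2, 7), (3, 100), (5, -66), (7, 6)]))) (.mul (.g
 17) (.mul (.g 17) (.pp [(1, 113994000000)]))))))) (.add (.mul (.g 5) (.add (.mul (.g 17) (.add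
 (.mul (.g 17) (.add (.pp [(1, 612420000)]) (.add (.mul (.g 8) (.pp [(1, 1672500000)])) (.mul (.g
 9) (.pp [(1, 386340000)]))))) (.mul (.g 5) (.add (.pp [(1, 487044000)]) (.mul (.g 6) (.pp [(1,
 19944)])))))) (.add (.mul (.g 4) (.add (.mul (.g 4) (.add (.pp [(1, 1796700000)]) (.mul (.g 9)
 (.pp [(1, 13744260000)])))) (.add (.mul (.g 3) (.mul (.g 11) (.pp [(1, 6531660000)]))) (.mul (.g
 6) (.mul (.g 9) (.pp [(1, 70657200)])))))) (.mul (.g 12) (.add (.mul (.g 5) (.mul (.g 9) (.pp [(1,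
 81878400)]))) (.mul (.g 8) (.mul (.g 8) (.pp [(1, 1030560000)])))))))) (.mul (.g 9) (.add (.mul
 (.pp [(1, 47293800)]) (.sq [(1, -15), (2, -35), (3, 100), (5, -8), (7, -1)])) (.add (.mul (.g 12)
 (.add (.mul (.pp [(1, 252000)]) (.sq [(1, 17), (2, 19), (3, -72), (5, 100), (7, -2)])) (.add (.mul
 (.pp [(1, 13027800)]) (.sq [(1, -30), (3, 100), (5, -16), (7, 13)])) (.mul (.g 17) (.mul (.g 17)
 (.pp [(1, 3342000000)])))))) (.mul (.g 9) (.add (.mul (.pp [(1, 8418300)]) (.sq [(1, 5), (2, -35),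
 (3, 100), (5, -33), (7, -5)])) (.mul (.g 4) (.mul (.g 4) (.pp [(1, 125664000000)]))))))))))) (.add
 (.add (.mul (.g 12) (.add (.mul (.g 6) (.mul (.g 6) (.mul (.g 6) (.pp [(1, 32697)])))) (.mul (.g
 15) (.mul (.pp [(1, 1880400)]) (.sq [(1, -15), (2, -22), (3, 100), (5, -7), (7, -43)]))))) (.mul
 (.g 0) (.pp [(1, 600000000)]))) (.add (.mul (.g 1) (.pp [(1, 1000000000000)])) (.add (.mul (.g 2)
 (.pp [(1, 1000000000000)])) (.mul (.g 16) (.pp [(1, 1000000000000)])))))) (.pp [(1, 1227009363),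
 (2, 31224027), (3, 33044673), (4, 30977400), (5, 30305637), (6, 30236700), (7, 31301064), (8,
 27634300), (9, 23994900), (10, 25619700), (12, 34080000), (14, 28366500), (15, 27885300), (16,
 33000000), (18, 24186000), (20, 29259000), (21, 27963600), (24, 24893700), (25, 30434700), (27,
 38070000), (28, 30431100), (30, 33132000), (35, 29429100), (36, 33986400), (40, 31812000), (42,
 33660000), (45, 32982000), (49, 28291200), (50, 32629200), (54, 32760000), (56, 30000000), (60,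
 31326000), (63, 29544000), (70, 29050800), (75, 27787200), (81, 27000000), (84, 32768400), (90,
 28516800), (98, 29556000), (100, 27226500), (105, 29349600), (125, 30126600), (126, 28723200),
 (135, 26928000), (140, 28776000), (147, 32059200), (150, 29668800), (175, 31519800), (189,
 28440000), (196, 30000000), (210, 26275200), (225, 31028400), (245, 29139600), (250, 30754200),
 (294, 28596000), (315, 33295200), (343, 30481500), (350, 31303800), (375, 30997200), (441,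
 30140400), (490, 29509800), (525, 31790400), (625, 29588100), (686, 30000000), (735, 30846600),
 (875, 29596200), (1029, 30000000), (1225, 30248700), (1715, 30000000), (2401, 30000000)]))))))))
 (.rule 5 (.cut 450 [(2, -1), (5, 1)] (.add (.mul (.g 9) (.pp [(1, 310)])) (.add (.mul (.g 10) (.pp
 [(1, 7)])) (.mul (.g 1) (.pp [(1, 9)])))) (.rule 3 (.leaf 3750000 (.add (.add (.add (.add (.mul
 (.g 5) (.add (.add (.mul (.g 5) (.add (.add (.pp [(1, 9903862500)]) (.mul (.g 5) (.add (.mul (.g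
 7) (.pp [(1, 87637500)])) (.add (.mul (.g 11) (.pp [(1, 375000)])) (.mul (.g 15) (.pp [(1,
 88762500)])))))) (.add (.mul (.g 6) (.add (.pp [(1, 12408712500)]) (.add (.mul (.g 3) (.pp [(1,
 7500)])) (.mul (.g 9) (.pp [(1, 750000)]))))) (.mul (.g 15) (.add (.pp [(1, 178275000)]) (.mul (.g
 11) (.pp [(1, 375000)]))))))) (.add (.mul (.g 8) (.add (.add (.mul (.g 8) (.add (.mul (.g 3) (.pp
 [(1, 7500)])) (.add (.mul (.g 9) (.pp [(1, 375000)])) (.mul (.g 15) (.pp [(1, 375000)]))))) (.add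
 (.mul (.g 7) (.add (.mul (.g 3) (.pp [(1, 7500)])) (.mul (.g 7) (.pp [(1, 375000)])))) (.mul (.g
 9) (.mul (.g 9) (.pp [(1, 88012500)]))))) (.add (.mul (.g 11) (.pp [(1, 4175062500)])) (.add (.mul
 (.g 12) (.pp [(1, 273238125)])) (.mul (.g 15) (.pp [(1, 8697412500)])))))) (.mul (.g 7) (.add
 (.mul (.g 7) (.add (.pp [(1, 1029937500)]) (.add (.mul (.g 13) (.pp [(1, 375000)])) (.mul (.g 15)
 (.pp [(1, 750000)]))))) (.add (.mul (.g 3) (.add (.mul (.g 6) (.pp [(1, 305426250)])) (.mul (.g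
 13) (.pp [(1, 305411250)])))) (.mul (.g 15) (.pp [(1, 942675000)]))))))) (.add (.add (.mul (.g 6)
 (.add (.mul (.g 4) (.mul (.g 6) (.pp [(1, 10125)]))) (.add (.mul (.g 10) (.pp [(1, 12412200000)]))
 (.mul (.g 15) (.pp [(1, 9640162500)]))))) (.mul (.g 3) (.pp [(1, 442830750)]))) (.add (.mul (.g
 10) (.mul (.g 11) (.pp [(1, 88762500)]))) (.mul (.g 15) (.pp [(1, 3169725000)])))))) (.mul (.g 8)
 (.add (.add (.mul (.g 7) (.add (.add (.mul (.g 7) (.add (.pp [(1, 2509425000)]) (.add (.mul (.g 4)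
 (.pp [(1, 3750)])) (.mul (.g 15) (.pp [(1, 375000)]))))) (.mul (.g 3) (.mul (.g 8) (.pp [(1,
 7500)])))) (.add (.mul (.g 4) (.mul (.g 6) (.pp [(1, 3750)]))) (.add (.mul (.g 12) (.pp [(1,
 5625)])) (.mul (.g 15) (.pp [(1, 5019187500)])))))) (.mul (.g 15) (.add (.add (.pp [(1,
 636600000)]) (.mul (.g 6) (.add (.pp [(1, 375000)]) (.mul (.g 6) (.pp [(1, 375000)]))))) (.add
 (.mul (.g 8) (.mul (.g 8) (.pp [(1, 375000)]))) (.mul (.g 15) (.pp [(1, 2509387500)])))))) (.add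
 (.mul (.g 3) (.add (.pp [(1, 12753750)]) (.add (.mul (.g 3) (.mul (.g 3) (.pp [(1, 6)]))) (.mul
 (.g 8) (.mul (.g 8) (.pp [(1, 7500)])))))) (.add (.mul (.g 12) (.add (.pp [(1, 31848750)]) (.mul
 (.g 6) (.mul (.g 6) (.pp [(1, 18750)]))))) (.mul (.g 8) (.mul (.g 8) (.pp [(1, 294825000)]))))))))
 (.add (.mul (.g 6) (.add (.mul (.g 6) (.add (.add (.mul (.g 7) (.add (.mul (.g 6) (.pp [(1,
 150000)])) (.add (.mul (.g 10) (.pp [(1, 375000)])) (.mul (.g 13) (.pp [(1, 150000)]))))) (.mul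
 (.g 3) (.mul (.g 9) (.pp [(1, 12750)])))) (.add (.mul (.g 4) (.mul (.g 6) (.pp [(1, 3750)])))
 (.mul (.g 15) (.pp [(1, 900000)]))))) (.add (.mul (.g 3) (.pp [(1, 27000)])) (.mul (.g 7) (.mul
 (.g 15) (.pp [(1, 375000)])))))) (.add (.mul (.g 7) (.add (.mul (.g 7) (.add (.mul (.g 7) (.mul
 (.g 10) (.pp [(1, 375000)]))) (.mul (.g 15) (.pp [(1, 750000)])))) (.add (.mul (.g 3) (.pp [(1,
 15000)])) (.mul (.g 15) (.pp [(1, 1125000)]))))) (.mul (.g 0) (.pp [(1, 12500000000)]))))) (.add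
 (.add (.mul (.g 2) (.pp [(1, 12500000000)])) (.mul (.g 3) (.pp [(1, 1884000)]))) (.add (.mul (.g
 12) (.pp [(1, 4681875)])) (.add (.mul (.g 14) (.pp [(1, 12500000000)])) (.mul (.g 15) (.pp [(1,
 95250000)])))))) (.pp [(1, 16198875), (2, 347250), (3, 373500), (4, 375000), (5, 382500), (6,
 412500), (7, 372942), (8, 375000), (9, 360750), (10, 408750), (12, 385000), (14, 418125), (15,
 375000), (16, 375000), (18, 353125), (19, 37500000000), (20, 375000), (21, 381600), (24, 375000),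
 (25, 375000), (27, 378750), (28, 375000), (30, 345000), (35, 388125), (36, 375000), (40, 375000),
 (42, 337500), (45, 375000), (49, 375000), (50, 375000), (54, 375000), (56, 375000), (60, 375000),
 (63, 378750), (70, 322500), (75, 375000), (81, 375000), (84, 375000), (90, 375000), (98, 360000),
 (100, 375000), (105, 378750), (125, 375000), (126, 375000), (135, 375000), (140, 375000), (147,
 375000), (150, 375000), (175, 378750), (189, 375000), (196, 375000), (210, 375000), (225, 375000),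
 (245, 360000), (250, 375000), (294, 375000), (315, 375000), (343, 360000), (350, 375000), (375,
 375000), (441, 375000), (490, 375000), (525, 375000), (625, 375000), (686, 375000), (735, 375000),
 (875, 375000), (1029, 375000), (1225, 375000), (1715, 375000), (2401, 375000)]))))))))
 (P_Op0 ++ xP_A_F8) = true := by decide +kernel

theorem t_A_T4a_Tp0_a : chk Rap gP_A_T4a
 (.split [(1, -3), (3, 5)]
 (.rule 5 (.rule 6 (.cut 1 [(1, 3), (3, -2)] (.add (.add (.mul (.g 8) (.pp [(1, 1)])) (.mul (.g 11)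
 (.pp [(1, 1)]))) (.add (.mul (.g 5) (.pp [(1, 1)])) (.mul (.g 7) (.pp [(1, 1)])))) (.rule 8 (.leaf
 3000 (.add (.add (.add (.add (.mul (.g 7) (.add (.add (.mul (.g 4) (.add (.add (.pp [(1, 34434)])
 (.mul (.g 7) (.add (.mul (.g 7) (.pp [(1, 149808)])) (.mul (.g 14) (.pp [(1, 88608)]))))) (.add
 (.mul (.g 6) (.mul (.g 14) (.pp [(1, 6979752)]))) (.mul (.g 13) (.mul (.g 13) (.pp [(1,
 1047108)])))))) (.mul (.g 6) (.add (.mul (.g 9) (.add (.mul (.g 11) (.pp [(1, 515490)])) (.mul (.g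
 13) (.pp [(1, 583080)])))) (.add (.mul (.g 11) (.mul (.g 13) (.pp [(1, 4929540)]))) (.mul (.g 12)
 (.pp [(1, 55134)])))))) (.add (.mul (.g 5) (.add (.mul (.g 7) (.add (.mul (.g 5) (.pp [(1,
 515190)])) (.mul (.g 7) (.pp [(1, 347370)])))) (.mul (.g 10) (.pp [(1, 2563110)])))) (.add (.mul
 (.g 14) (.add (.pp [(1, 2233980)]) (.mul (.g 9) (.add (.mul (.g 11) (.pp [(1, 515190)])) (.mul (.g
 14) (.pp [(1, 470160)])))))) (.mul (.g 7) (.mul (.g 7) (.mul (.g 12) (.pp [(1, 19635)]))))))))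
 (.mul (.g 5) (.add (.mul (.g 5) (.add (.mul (.g 9) (.add (.mul (.g 5) (.pp [(1, 1719450)])) (.add
 (.mul (.g 9) (.pp [(1, 1718550)])) (.mul (.g 11) (.pp [(1, 600)]))))) (.add (.mul (.g 14) (.add
 (.mul (.g 4) (.pp [(1, 103038)])) (.mul (.g 12) (.pp [(1, 15)])))) (.mul (.g 11) (.mul (.g 13)
 (.pp [(1, 300)])))))) (.add (.mul (.g 6) (.add (.mul (.g 6) (.mul (.g 14) (.pp [(1, 4997400)])))
 (.mul (.g 10) (.pp [(1, 2708580)])))) (.mul (.g 10) (.mul (.g 11) (.pp [(1, 4821510)]))))))) (.add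
 (.mul (.g 6) (.add (.mul (.g 6) (.add (.mul (.g 6) (.add (.mul (.g 9) (.pp [(1, 3191640)])) (.mul
 (.g 12) (.pp [(1, 19635)])))) (.mul (.g 9) (.mul (.g 13) (.pp [(1, 3584040)]))))) (.add (.mul (.g
 4) (.pp [(1, 713352)])) (.mul (.g 11) (.mul (.g 11) (.pp [(1, 163770)])))))) (.add (.mul (.g 4)
 (.add (.pp [(1, 141780)]) (.mul (.g 9) (.pp [(1, 141318)])))) (.mul (.g 11) (.mul (.g 11) (.add
 (.mul (.g 9) (.pp [(1, 3411900)])) (.mul (.g 11) (.pp [(1, 48030)])))))))) (.add (.add (.mul (.g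
 0) (.pp [(1, 3000)])) (.mul (.g 2) (.pp [(1, 10000000)]))) (.add (.mul (.g 3) (.pp [(1,
 10000000)])) (.add (.mul (.g 12) (.mul (.g 14) (.pp [(1, 21213)]))) (.mul (.g 15) (.pp [(1,
 10000000)])))))) (.pp [(1, 560211), (2, 306), (3, 306), (4, 309), (5, 309), (6, 300), (8, 290),
 (9, 300), (10, 270), (12, 350), (15, 294), (16, 300), (18, 260), (20, 341), (23, 30000000), (24,
 300), (25, 294), (27, 315), (30, 210), (36, 300), (40, 300), (45, 384), (50, 290), (54, 300), (60,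
 300), (75, 324), (81, 300), (90, 270), (100, 300), (125, 315), (135, 300), (150, 300), (225, 300),
 (250, 300), (375, 300), (625, 300)])))))))
 (.split [(1, -7), (3, 50)]
 (.rule 5 (.rule 6 (.rule 7 (.leaf 1200000000 (.add (.add (.add (.add (.mul (.g 14) (.add (.add
 (.mul (.g 3) (.add (.mul (.pp [(1, 1268472)]) (.sq [(1, 18), (2, 33), (3, 100), (5, -9)])) (.mul
 (.g 3) (.add (.mul (.g 4) (.pp [(1, 234638400)])) (.mul (.g 7) (.pp [(1, 5862216000)])))))) (.add
 (.mul (.g 12) (.add (.pp [(1, 45232800000)]) (.mul (.g 5) (.add (.mul (.g 5) (.pp [(1,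
 20754000000)])) (.mul (.g 10) (.pp [(1, 7564200000)])))))) (.mul (.g 14) (.add (.mul (.pp [(1,
 15037200)]) (.sq [(1, -4), (2, 11), (3, 100), (5, -85)])) (.mul (.g 4) (.mul (.g 7) (.pp [(1,
 149124000000)]))))))) (.add (.mul (.g 6) (.mul (.g 6) (.mul (.g 6) (.pp [(1, 2882664000000)]))))
 (.add (.mul (.g 9) (.pp [(1, 119436000000)])) (.mul (.g 13) (.mul (.pp [(1, 538608000000)]) (.sq
 [(3, 1), (5, -1)]))))))) (.add (.mul (.g 3) (.add (.mul (.g 7) (.add (.mul (.g 4) (.add (.mul (.g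
 6) (.pp [(1, 18338544000)])) (.add (.mul (.g 11) (.pp [(1, 1521168000)])) (.mul (.g 13) (.pp [(1,
 19072608000)]))))) (.add (.mul (.g 7) (.mul (.g 7) (.pp [(1, 12368400000)]))) (.mul (.g 12) (.pp
 [(1, 2546724000)]))))) (.mul (.g 5) (.add (.pp [(1, 22905600000)]) (.mul (.g 3) (.mul (.g 6) (.pp
 [(1, 53659200)]))))))) (.mul (.g 12) (.add (.mul (.g 12) (.add (.add (.mul (.pp [(1, 11925)]) (.sq
 [(1, 100), (2, -39), (3, 71), (5, 71)])) (.mul (.g 6) (.pp [(1, 553140000)]))) (.add (.mul (.g 9)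
 (.pp [(1, 4313400000)])) (.mul (.g 12) (.pp [(1, 34464000)]))))) (.add (.mul (.g 5) (.mul (.g 10)
 (.mul (.g 13) (.pp [(1, 1791600000)])))) (.mul (.g 9) (.mul (.g 9) (.mul (.g 11) (.pp [(1,
 25600200000)]))))))))) (.add (.mul (.g 5) (.mul (.g 5) (.add (.pp [(1, 581556000000)]) (.add (.mul
 (.g 11) (.add (.mul (.g 5) (.pp [(1, 540300000000)])) (.mul (.g 13) (.pp [(1, 535380000000)]))))
 (.mul (.g 7) (.mul (.g 7) (.pp [(1, 74256000000)]))))))) (.add (.mul (.g 10) (.add (.mul (.g 4)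
 (.mul (.pp [(1, 268320)]) (.sq [(1, -20), (2, 20), (3, 100), (5, -41)]))) (.add (.mul (.g 10)
 (.mul (.pp [(1, 24396000000)]) (.sq [(3, 1), (5, -1)]))) (.mul (.g 16) (.mul (.pp [(1, 35707200)])
 (.sq [(1, -12), (2, 11), (3, 50), (5, -26)])))))) (.mul (.g 6) (.add (.mul (.g 6) (.mul (.pp [(1,
 596400)]) (.sq [(1, 15), (2, 94), (3, 100), (5, -80)]))) (.mul (.g 7) (.mul (.g 9) (.mul (.g 11)
 (.pp [(1, 179256000000)]))))))))) (.add (.add (.mul (.g 0) (.pp [(1, 2400000000)])) (.add (.mul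
 (.g 1) (.pp [(1, 4000000000000)])) (.mul (.g 2) (.pp [(1, 4000000000000)])))) (.add (.mul (.g 9)
 (.mul (.g 9) (.mul (.g 11) (.mul (.g 11) (.pp [(1, 20928000000)]))))) (.add (.mul (.g 13) (.mul
 (.g 17) (.mul (.pp [(1, 174436800)]) (.sq [(1, -16), (2, 3), (3, 50), (5, -6)])))) (.mul (.g 15)
 (.pp [(1, 4000000000000)])))))) (.pp [(1, 14563618896), (2, 116922552), (3, 122819400), (4,
 119471331), (5, 110296008), (6, 130895850), (8, 143991800), (9, 105985275), (10, 119850522), (12,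
 75343400), (15, 121315350), (16, 112830000), (18, 135045800), (20, 62866544), (23,
 12000000000000), (24, 135811200), (25, 125752035), (27, 138453000), (30, 206617200), (36,
 100058400), (40, 126600000), (45, 83650200), (50, 147022616), (54, 146760000), (60, 113895600),
 (75, 92280360), (81, 110430000), (90, 121358400), (100, 111238800), (125, 115763136), (135,
 111960000), (150, 128505600), (225, 123763200), (250, 134964000), (375, 106410000), (625,
 114660000)]))))))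
 (.rule 5 (.cut 450 [(2, -1), (5, 1)] (.add (.mul (.g 9) (.pp [(1, 310)])) (.add (.mul (.g 10) (.pp
 [(1, 7)])) (.mul (.g 1) (.pp [(1, 9)])))) (.rule 3 (.leaf 24000000 (.add (.add (.add (.add (.mul
 (.g 6) (.add (.add (.mul (.g 7) (.add (.add (.mul (.g 9) (.add (.mul (.g 3) (.pp [(1, 99590400)]))
 (.add (.mul (.g 9) (.pp [(1, 26622960000)])) (.mul (.g 12) (.pp [(1, 114876000)]))))) (.mul (.g 3)
 (.mul (.g 13) (.pp [(1, 175401600)])))) (.add (.mul (.g 4) (.mul (.g 7) (.pp [(1, 33973776000)])))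
 (.add (.mul (.g 6) (.mul (.g 14) (.pp [(1, 55146480000)]))) (.mul (.g 12) (.pp [(1,
 2443332000)])))))) (.add (.mul (.g 3) (.add (.pp [(1, 210216000)]) (.add (.mul (.g 6) (.add (.mul
 (.g 4) (.pp [(1, 24281280)])) (.mul (.g 11) (.pp [(1, 67516800)])))) (.mul (.g 11) (.pp [(1,
 1119470400)]))))) (.mul (.g 5) (.mul (.g 5) (.add (.mul (.g 6) (.pp [(1, 28815600000)])) (.add
 (.mul (.g 13) (.pp [(1, 34328160000)])) (.mul (.g 14) (.pp [(1, 34368720000)])))))))) (.add (.add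
 (.mul (.g 11) (.add (.mul (.g 9) (.mul (.g 11) (.pp [(1, 2788560000)]))) (.mul (.g 12) (.pp [(1,
 2177760000)])))) (.mul (.g 6) (.mul (.g 6) (.pp [(1, 11224560000)])))) (.add (.mul (.g 12) (.pp
 [(1, 950520000)])) (.mul (.g 14) (.pp [(1, 8748720000)])))))) (.mul (.g 12) (.add (.add (.mul (.g
 7) (.add (.mul (.pp [(1, 14766)]) (.sq [(1, 58), (2, -100), (3, -31), (5, -70)])) (.mul (.g 7)
 (.mul (.g 7) (.pp [(1, 57732000)]))))) (.mul (.g 9) (.mul (.g 14) (.add (.mul (.g 9) (.pp [(1,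
 21084000)])) (.mul (.g 14) (.pp [(1, 6036000)])))))) (.add (.mul (.g 12) (.add (.pp [(1,
 7271400)]) (.mul (.pp [(1, 135)]) (.sq [(1, -4), (2, 31), (3, 91), (5, -100)])))) (.mul (.g 3)
 (.mul (.g 5) (.pp [(1, 23349120)]))))))) (.add (.mul (.g 5) (.add (.mul (.g 5) (.add (.mul (.pp
 [(1, 21744)]) (.sq [(1, -13), (2, 64), (5, 100)])) (.mul (.g 5) (.add (.pp [(1, 1743120000)])
 (.add (.mul (.g 5) (.pp [(1, 2485200000)])) (.mul (.g 11) (.pp [(1, 2675280000)]))))))) (.mul (.g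
 3) (.mul (.g 11) (.pp [(1, 387412800)]))))) (.mul (.g 3) (.mul (.g 7) (.mul (.g 14) (.add (.mul
 (.g 3) (.pp [(1, 37679328)])) (.mul (.g 7) (.pp [(1, 32179200)])))))))) (.add (.add (.mul (.g 0)
 (.pp [(1, 80000000000)])) (.mul (.g 2) (.pp [(1, 80000000000)]))) (.add (.mul (.g 9) (.mul (.g 9)
 (.mul (.pp [(1, 4680)]) (.sq [(1, -47), (2, 100), (3, -96), (5, 15)])))) (.add (.mul (.g 11) (.mul
 (.pp [(1, 125760)]) (.sq [(1, -88), (2, 97), (3, -8), (5, 100)]))) (.mul (.g 15) (.pp [(1,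
 80000000000)])))))) (.pp [(1, 148583520), (2, 2342520), (3, 2372520), (4, 2791089), (5, 2411304),
 (6, 1908570), (8, 2297256), (9, 2481825), (10, 2313000), (12, 2551720), (15, 2594016), (16,
 2322576), (18, 2380120), (19, 240000000000), (20, 2313960), (23, 240000000000), (24, 2256000),
 (25, 2349912), (27, 2339160), (30, 2716800), (36, 2577120), (40, 2464800), (45, 2043414), (50,
 2259600), (54, 2400000), (60, 2810400), (75, 2199480), (81, 2346000), (90, 2150520), (100,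
 2253000), (125, 2501400), (135, 2409480), (150, 2356800), (225, 2614680), (250, 2748000), (375,
 2443200), (625, 2292000)]))))))))
 (P_Tp0 ++ xP_A_T4a) = true := by decide +kernel

theorem t_G_F1_c2 : chk ROp gP_G_F1
 (.split [(1, -69), (3, 100)]
 (.rule 5 (.rule 6 (.cut 1 [(1, 3), (3, -2)] (.add (.add (.mul (.g 8) (.pp [(1, 1)])) (.mul (.g 13)
 (.pp [(1, 1)]))) (.add (.mul (.g 5) (.pp [(1, 1)])) (.mul (.g 7) (.pp [(1, 1)])))) (.rule 8 (.leaf
 30000000000 (.add (.add (.add (.add (.mul (.g 9) (.add (.add (.add (.mul (.g 5) (.add (.add (.mul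
 (.g 6) (.add (.pp [(1, 16936200000000)]) (.add (.mul (.g 8) (.pp [(1, 106696200000000)])) (.mul
 (.g 17) (.pp [(1, 6927300000000)]))))) (.mul (.g 5) (.add (.mul (.g 5) (.pp [(1,
 13492500000000)])) (.mul (.g 8) (.pp [(1, 41496000000000)]))))) (.add (.mul (.g 4) (.mul (.g 10)
 (.pp [(1, 112641000000)]))) (.mul (.g 8) (.mul (.g 15) (.pp [(1, 25144200000000)])))))) (.mul (.g
 7) (.add (.add (.pp [(1, 11890500000000)]) (.mul (.pp [(1, 111720000)]) (.sq [(1, 47), (2, -100),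
 (3, -75), (5, 74), (7, -60)]))) (.add (.mul (.g 17) (.add (.mul (.g 6) (.pp [(1, 8861700000000)]))
 (.mul (.g 7) (.pp [(1, 33502500000000)])))) (.mul (.g 8) (.mul (.g 15) (.pp [(1,
 16056900000000)]))))))) (.add (.mul (.g 6) (.mul (.g 6) (.add (.mul (.g 10) (.pp [(1,
 28323900000000)])) (.add (.mul (.g 13) (.pp [(1, 59542800000000)])) (.mul (.g 17) (.pp [(1,
 53612400000000)])))))) (.add (.mul (.g 4) (.add (.pp [(1, 69603000000)]) (.mul (.pp [(1,
 22713600)]) (.sq [(1, -4), (2, -58), (3, -29), (5, -87), (7, 100)])))) (.mul (.g 9) (.add (.mul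
 (.pp [(1, 2240190000)]) (.sq [(1, 17), (2, -40), (3, -32), (5, 100), (7, -66)])) (.mul (.pp [(1,
 100470000)]) (.sq [(1, 58), (2, -58), (3, -72), (5, -49), (7, 100)]))))))) (.add (.add (.mul (.g
 13) (.add (.pp [(1, 107185500000000)]) (.mul (.g 11) (.mul (.g 11) (.pp [(1, 8298450000000)])))))
 (.mul (.g 17) (.add (.pp [(1, 1532700000000)]) (.mul (.pp [(1, 7809390000)]) (.sq [(1, -55), (2,
 75), (3, 3), (5, 3), (7, 100)]))))) (.add (.mul (.g 8) (.mul (.g 8) (.mul (.g 8) (.pp [(1,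
 6382200000000)])))) (.add (.mul (.g 12) (.mul (.pp [(1, 479125500)]) (.sq [(1, -29), (2, 49), (3,
 100), (5, -44), (7, 35)]))) (.mul (.g 15) (.mul (.pp [(1, 2467920000)]) (.sq [(1, -52), (2, 27),
 (3, 100), (5, 12), (7, -59)])))))))) (.add (.mul (.g 17) (.add (.add (.add (.mul (.g 8) (.add (.pp
 [(1, 102008700000000)]) (.add (.mul (.g 8) (.add (.mul (.g 8) (.pp [(1, 12063300000000)])) (.add
 (.mul (.g 13) (.pp [(1, 13216050000000)])) (.mul (.g 15) (.pp [(1, 36853800000000)]))))) (.mul (.g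
 17) (.add (.pp [(1, 80073900000000)]) (.mul (.g 6) (.pp [(1, 27559800000000)]))))))) (.mul (.g 7)
 (.add (.mul (.pp [(1, 1738260000)]) (.sq [(1, 25), (2, 100), (3, 88), (5, -33), (7, 86)])) (.add
 (.mul (.g 5) (.add (.mul (.g 7) (.pp [(1, 7143600000000)])) (.mul (.g 14) (.pp [(1,
 4122660000000)])))) (.mul (.g 17) (.add (.mul (.g 14) (.pp [(1, 246540000000)])) (.mul (.g 18)
 (.pp [(1, 28346700000000)])))))))) (.add (.mul (.g 6) (.add (.pp [(1, 8697300000000)]) (.mul (.g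
 5) (.mul (.g 15) (.pp [(1, 32026500000000)]))))) (.mul (.g 12) (.add (.mul (.pp [(1, 53001000)])
 (.sq [(1, -16), (2, 38), (3, 100), (5, -33), (7, 78)])) (.mul (.pp [(1, 14364000)]) (.sq [(1, 70),
 (2, 100), (3, 71), (5, 71), (7, 70)])))))) (.add (.add (.mul (.g 17) (.add (.mul (.pp [(1,
 4397400000000)]) (.sq [(1, -1), (2, 1), (7, 1)])) (.mul (.pp [(1, 1437930000)]) (.sq [(1, -75),
 (2, -58), (3, -100), (5, 39), (7, 73)])))) (.mul (.g 4) (.pp [(1, 64005000000)]))) (.add (.mul (.g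
 13) (.mul (.pp [(1, 701040000)]) (.sq [(1, 19), (2, -6), (5, 2), (7, 50)]))) (.mul (.g 15) (.mul
 (.pp [(1, 113430000)]) (.sq [(1, 61), (2, 29), (3, -27), (5, 100), (7, 46)]))))))) (.mul (.g 15)
 (.add (.add (.mul (.g 15) (.add (.pp [(1, 2279700000000)]) (.add (.mul (.pp [(1, 776220000)]) (.sq
 [(1, -46), (2, -100), (3, 85), (5, 85), (7, 22)])) (.mul (.g 6) (.add (.mul (.g 10) (.pp [(1,
 13020900000000)])) (.mul (.g 15) (.pp [(1, 9447000000000)]))))))) (.mul (.g 10) (.add (.mul (.g 5)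
 (.mul (.g 5) (.pp [(1, 56454600000000)]))) (.mul (.g 13) (.mul (.g 13) (.pp [(1,
 10900875000000)])))))) (.add (.mul (.g 8) (.mul (.g 8) (.mul (.g 8) (.pp [(1, 47286900000000)]))))
 (.mul (.g 11) (.mul (.g 11) (.mul (.g 18) (.pp [(1, 171900000000)]))))))))) (.add (.mul (.g 18)
 (.add (.mul (.g 12) (.add (.pp [(1, 5142870000000)]) (.add (.mul (.pp [(1, 64479000)]) (.sq [(1,
 -35), (2, -55), (3, -89), (5, -51), (7, 100)])) (.mul (.g 13) (.mul (.g 14) (.pp [(1,
 107746500000)])))))) (.add (.mul (.g 8) (.add (.mul (.g 4) (.mul (.g 5) (.pp [(1,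
 190452000000)]))) (.mul (.g 8) (.mul (.g 8) (.pp [(1, 11016000000000)]))))) (.mul (.g 13) (.mul
 (.pp [(1, 3126720000)]) (.sq [(1, -37), (2, 44), (3, -67), (5, 100), (7, 40)])))))) (.add (.mul
 (.g 4) (.add (.mul (.g 4) (.add (.mul (.pp [(1, 28707)]) (.sq [(1, 14), (2, 100), (3, 36), (5,
 72), (7, 65)])) (.add (.mul (.g 4) (.mul (.g 14) (.pp [(1, 7629660)]))) (.mul (.g 6) (.mul (.g 10)
 (.pp [(1, 3431550000)])))))) (.mul (.g 6) (.mul (.g 8) (.mul (.g 14) (.pp [(1, 13887000000)]))))))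
 (.mul (.g 8) (.add (.mul (.g 10) (.mul (.pp [(1, 348750000)]) (.sq [(1, -34), (2, 6), (3, -48),
 (5, 23), (7, 100)]))) (.mul (.g 12) (.pp [(1, 5717100000000)]))))))) (.add (.add (.mul (.g 13)
 (.add (.mul (.g 12) (.mul (.g 14) (.pp [(1, 845793000000)]))) (.mul (.g 13) (.mul (.g 13) (.pp
 [(1, 1984500000000)]))))) (.add (.mul (.g 0) (.pp [(1, 30000000000)])) (.mul (.g 2) (.pp [(1,
 100000000000000)])))) (.add (.add (.mul (.g 3) (.pp [(1, 100000000000000)])) (.mul (.g 5) (.mul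
 (.g 7) (.mul (.pp [(1, 2103660000)]) (.sq [(1, -9), (2, 6), (3, -84), (5, 100), (7, 48)])))))
 (.add (.mul (.g 10) (.mul (.g 10) (.mul (.pp [(1, 1094520000)]) (.sq [(1, -5), (2, 15), (3, -40),
 (5, 50), (7, -18)])))) (.mul (.g 16) (.pp [(1, 100000000000)])))))) (.pp [(1, 571064119728), (2,
 2915765100), (3, 2995003884), (4, 3190429500), (5, 3260236968), (6, 3586424400), (7, 3163837860),
 (8, 2838832900), (9, 3038975208), (10, 3029721600), (12, 3530422400), (14, 2524245000), (15,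
 2003536032), (16, 3241410000), (18, 1639895600), (20, 2719410200), (21, 2011175640), (24,
 2646030000), (25, 2864659632), (27, 3369923600), (28, 3143259000), (30, 1849323600), (35,
 3569375280), (36, 3147000000), (40, 2677980000), (42, 2696460000), (45, 3286307400), (49,
 2986633425), (50, 2902510400), (54, 3662760000), (56, 2912550000), (60, 3965250000), (63,
 3033132000), (70, 3265440000), (75, 4038044400), (81, 2760780000), (84, 2689770000), (90,
 2695290000), (98, 3319960500), (100, 3185490000), (105, 4071084000), (125, 2899022000), (126,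
 3050790000), (135, 2896230000), (140, 3129720000), (147, 3745485000), (150, 2802420000), (175,
 1743015000), (189, 3048810000), (196, 2920050000), (210, 3850500000), (225, 3225840000), (245,
 2409546000), (250, 3131970000), (294, 3308310000), (315, 3301800000), (343, 2734164000), (350,
 2632800000), (375, 2908800000), (441, 3149610000), (490, 2697510000), (525, 2958930000), (625,
 3007290000), (686, 2857560000), (735, 2519640000), (875, 3501990000), (1029, 2743800000), (1225,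
 3369300000), (1715, 3323280000), (2401, 3171030000)])))))))
 (.rule 5 (.rule 6 (.cut 2 [(1, -7), (3, 50)] (.add (.mul (.g 4) (.pp [(1, 65)])) (.mul (.g 12)
 (.pp [(1, 7)]))) (.rule 7 (.leaf 600000000 (.add (.add (.add (.add (.mul (.g 17) (.add (.add (.add
 (.mul (.g 7) (.add (.add (.mul (.g 5) (.add (.mul (.g 5) (.pp [(1, 1436952000000)])) (.mul (.g 14)
 (.pp [(1, 145930800000)])))) (.mul (.g 9) (.add (.mul (.g 7) (.pp [(1, 909348000000)])) (.mul (.g
 18) (.pp [(1, 869424000000)]))))) (.add (.mul (.g 6) (.mul (.g 6) (.pp [(1, 24048000000)]))) (.mul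
 (.g 11) (.mul (.g 18) (.pp [(1, 71400000000)])))))) (.mul (.g 8) (.add (.pp [(1, 2779908000000)])
 (.add (.mul (.g 17) (.add (.add (.mul (.g 6) (.pp [(1, 26778000000)])) (.mul (.g 11) (.pp [(1,
 45186000000)]))) (.add (.mul (.g 17) (.pp [(1, 97506000000)])) (.mul (.g 18) (.pp [(1,
 283170000000)]))))) (.mul (.g 8) (.mul (.g 13) (.pp [(1, 293478000000)]))))))) (.add (.mul (.g 6)
 (.add (.mul (.g 6) (.add (.mul (.g 4) (.pp [(1, 1347000000)])) (.mul (.g 6) (.pp [(1,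
 122016000000)])))) (.mul (.g 5) (.mul (.g 18) (.pp [(1, 271764000000)]))))) (.mul (.g 17) (.add
 (.mul (.pp [(1, 6005400)]) (.sq [(1, 21), (2, 100), (3, -60), (5, 74), (7, 90)])) (.mul (.pp [(1,
 1419000)]) (.sq [(1, -83), (2, -100), (3, 96), (5, 96), (7, 17)])))))) (.add (.add (.mul (.g 18)
 (.add (.pp [(1, 81864000000)]) (.mul (.pp [(1, 13779000)]) (.sq [(1, -51), (2, -61), (3, -100),
 (5, 15), (7, 93)])))) (.mul (.g 9) (.mul (.pp [(1, 141461400)]) (.sq [(1, -55), (2, 75), (3, 3),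
 (5, 3), (7, 100)])))) (.add (.mul (.g 12) (.mul (.pp [(1, 101610)]) (.sq [(1, -16), (2, 38), (3,
 100), (5, -33), (7, 78)]))) (.mul (.g 14) (.pp [(1, 459834000000)])))))) (.mul (.g 8) (.add (.add
 (.mul (.g 8) (.add (.add (.mul (.pp [(1, 5143200)]) (.sq [(1, 8), (2, 24), (3, 100), (5, -3), (7,
 97)])) (.mul (.g 8) (.add (.pp [(1, 626844000000)]) (.add (.mul (.g 10) (.pp [(1, 53970000000)]))
 (.mul (.g 15) (.pp [(1, 343098000000)])))))) (.add (.mul (.g 5) (.mul (.g 5) (.pp [(1,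
 422586000000)]))) (.add (.mul (.g 7) (.mul (.g 9) (.pp [(1, 681990000000)]))) (.mul (.g 12) (.mul
 (.g 15) (.pp [(1, 7306200000)]))))))) (.add (.mul (.g 7) (.add (.mul (.g 4) (.pp [(1,
 3442440000)])) (.add (.mul (.g 7) (.mul (.g 14) (.pp [(1, 76870800000)]))) (.mul (.g 9) (.mul (.g
 15) (.pp [(1, 372918000000)])))))) (.mul (.g 4) (.pp [(1, 1438860000)])))) (.add (.add (.mul (.g
 5) (.mul (.pp [(1, 2356200)]) (.sq [(1, -16), (2, 21), (3, -85), (5, 100), (7, -99)]))) (.mul (.g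
 11) (.mul (.pp [(1, 17090400)]) (.sq [(1, 38), (2, 21), (3, 45), (5, 50), (7, -16)])))) (.add
 (.mul (.g 12) (.pp [(1, 190228800000)])) (.mul (.g 13) (.pp [(1, 1019610000000)]))))))) (.add
 (.mul (.g 9) (.add (.add (.mul (.g 6) (.add (.mul (.g 6) (.add (.mul (.g 12) (.pp [(1,
 110477100000)])) (.mul (.g 13) (.pp [(1, 3822336000000)])))) (.add (.mul (.g 14) (.add (.mul (.g
 5) (.pp [(1, 127078800000)])) (.mul (.g 11) (.pp [(1, 281086800000)])))) (.mul (.g 7) (.mul (.g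
 18) (.pp [(1, 1113024000000)])))))) (.mul (.g 9) (.add (.mul (.pp [(1, 85802400)]) (.sq [(1, 17),
 (2, -40), (3, -32), (5, 100), (7, -66)])) (.add (.mul (.pp [(1, 67249800)]) (.sq [(1, -1), (2,
 38), (3, 100), (5, -20), (7, -38)])) (.mul (.g 5) (.mul (.g 9) (.pp [(1, 157890000000)])))))))
 (.add (.mul (.g 13) (.add (.pp [(1, 672657000000)]) (.mul (.pp [(1, 6790200)]) (.sq [(1, 75), (2,
 -100), (3, 95), (5, 95), (7, 21)])))) (.add (.mul (.g 4) (.mul (.g 5) (.mul (.g 14) (.pp [(1,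
 6664308000)])))) (.mul (.g 7) (.mul (.pp [(1, 3407400)]) (.sq [(1, 47), (2, -100), (3, -75), (5,
 74), (7, -60)]))))))) (.add (.mul (.g 12) (.add (.add (.mul (.pp [(1, 952350)]) (.sq [(2, 37), (3,
 100), (5, -26), (7, 39)])) (.add (.mul (.g 18) (.add (.pp [(1, 23507400000)]) (.add (.mul (.pp
 [(1, 1035720)]) (.sq [(1, 30), (2, 27), (3, 100), (5, -25), (7, 39)])) (.mul (.g 5) (.mul (.g 11)
 (.pp [(1, 16494300000)])))))) (.mul (.g 6) (.add (.mul (.g 13) (.pp [(1, 119445450000)])) (.mul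
 (.g 14) (.mul (.g 14) (.pp [(1, 520116000)]))))))) (.add (.mul (.g 12) (.add (.mul (.pp [(1,
 29220)]) (.sq [(1, -47), (2, -44), (3, -9), (5, -19), (7, 100)])) (.mul (.g 5) (.mul (.g 15) (.pp
 [(1, 84945000)]))))) (.add (.mul (.g 7) (.mul (.g 10) (.pp [(1, 6688500000)]))) (.mul (.g 13)
 (.mul (.pp [(1, 71295)]) (.sq [(1, 8), (2, 87), (3, 100), (5, -17), (7, 21)]))))))) (.mul (.g 4)
 (.add (.mul (.g 4) (.add (.pp [(1, 120567000)]) (.add (.mul (.g 6) (.add (.pp [(1, 16028400)])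
 (.mul (.g 4) (.pp [(1, 246804)])))) (.mul (.g 5) (.mul (.g 5) (.pp [(1, 23119800)])))))) (.add
 (.mul (.g 13) (.add (.pp [(1, 18369330000)]) (.mul (.g 5) (.mul (.g 5) (.pp [(1, 4847640000)])))))
 (.mul (.g 7) (.mul (.pp [(1, 59910)]) (.sq [(1, 29), (2, 100), (3, 69), (5, 49), (7, -5)])))))))))
 (.add (.add (.mul (.g 13) (.add (.mul (.g 7) (.mul (.g 7) (.mul (.g 7) (.pp [(1,
 111186000000)])))) (.add (.mul (.g 13) (.mul (.g 13) (.pp [(1, 106059750000)]))) (.mul (.g 18)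
 (.mul (.pp [(1, 371700)]) (.sq [(1, -21), (2, 55), (3, -51), (5, 100), (7, 32)])))))) (.add (.mul
 (.g 0) (.pp [(1, 1200000000)])) (.mul (.g 2) (.pp [(1, 2000000000000)])))) (.add (.mul (.g 3) (.pp
 [(1, 2000000000000)])) (.add (.mul (.g 7) (.mul (.g 18) (.mul (.pp [(1, 286800)]) (.sq [(1, -40),
 (2, 64), (3, -100), (5, 77), (7, 100)])))) (.mul (.g 16) (.pp [(1, 2000000000)])))))) (.pp [(1,
 30498319260), (2, 57664680), (3, 60844224), (4, 62931630), (5, 61882470), (6, 73125000), (7,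
 57814320), (8, 49598390), (9, 62328780), (10, 60549000), (12, 61400005), (14, 58377900), (15,
 38127240), (16, 58755000), (18, 65022400), (20, 67787545), (21, 55432320), (24, 66224700), (25,
 63061230), (27, 58213900), (28, 59761980), (30, 59203290), (35, 57723300), (36, 53005500), (40,
 62475900), (42, 53286630), (45, 55458510), (49, 64203630), (50, 43279600), (54, 64665000), (56,
 60858000), (60, 53540700), (63, 58153200), (70, 61406610), (75, 75668925), (81, 58272000), (84,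
 57993000), (90, 64515600), (98, 59570790), (100, 61993200), (105, 82013370), (125, 58930705),
 (126, 61827000), (135, 59547300), (140, 51378000), (147, 64550145), (150, 63829500), (175,
 57942480), (189, 57120000), (196, 54600600), (210, 59586600), (225, 60503400), (245, 49794075),
 (250, 68234700), (294, 64744500), (315, 63478200), (343, 54235440), (350, 71784000), (375,
 53079000), (441, 56373900), (490, 61941300), (525, 51085800), (625, 58370700), (686, 56782200),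
 (735, 52347600), (875, 62989800), (1029, 63386400), (1225, 69319500), (1715, 70327800), (2401,
 59800200)]))))))))
 (P_c2 ++ xP_G_F1) = true := by decide +kernel

theorem t_G_F3_c1 : chk RFp gP_G_F3
 (.cut 50 [(2, 1), (3, -1)] (.add (.add (.mul (.g 8) (.pp [(1, 45)])) (.mul (.g 7) (.pp [(1, 2)])))
 (.add (.mul (.g 2) (.pp [(1, 5)])) (.mul (.g 9) (.pp [(1, 9)])))) (.rule 0 (.cut 60 [(2, -1), (5,
 1)] (.add (.add (.mul (.g 11) (.pp [(1, 11)])) (.mul (.g 9) (.pp [(1, 3)]))) (.add (.mul (.g 1)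
 (.pp [(1, 5)])) (.mul (.g 6) (.pp [(1, 5)])))) (.rule 3 (.leaf 3000000 (.add (.add (.add (.add
 (.mul (.g 7) (.add (.add (.mul (.g 15) (.add (.add (.pp [(1, 780450000)]) (.add (.mul (.pp [(1,
 41544)]) (.sq [(1, -26), (2, -32), (3, 8), (5, -21), (7, 50)])) (.mul (.g 4) (.add (.pp [(1,
 8003460000)]) (.add (.mul (.g 5) (.pp [(1, 979260000)])) (.mul (.g 8) (.pp [(1,
 19930200000)]))))))) (.add (.add (.mul (.g 5) (.add (.mul (.g 5) (.pp [(1, 65430000)])) (.mul (.g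
 15) (.pp [(1, 272760000)])))) (.mul (.g 7) (.mul (.g 8) (.pp [(1, 113520000)])))) (.add (.mul (.g
 9) (.mul (.g 16) (.pp [(1, 156300000)]))) (.mul (.g 12) (.mul (.g 13) (.pp [(1, 11547000)])))))))
 (.add (.mul (.g 16) (.add (.add (.mul (.g 8) (.add (.add (.mul (.g 4) (.pp [(1, 4234770000)]))
 (.mul (.g 12) (.pp [(1, 177510000)]))) (.add (.mul (.g 13) (.pp [(1, 51630000)])) (.mul (.g 16)
 (.pp [(1, 972630000)]))))) (.mul (.g 5) (.add (.mul (.g 4) (.pp [(1, 8388780000)])) (.mul (.g 5)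
 (.pp [(1, 6182880000)]))))) (.add (.mul (.g 11) (.add (.mul (.g 6) (.pp [(1, 8319000)])) (.mul (.g
 7) (.pp [(1, 6336000)])))) (.mul (.g 13) (.pp [(1, 327972000)]))))) (.mul (.g 7) (.add (.mul (.g
 12) (.add (.mul (.g 5) (.pp [(1, 396870000)])) (.add (.mul (.g 7) (.pp [(1, 360540000)])) (.mul
 (.g 12) (.pp [(1, 126855000)]))))) (.add (.mul (.g 5) (.mul (.g 7) (.pp [(1, 148260000)]))) (.mul
 (.g 8) (.mul (.g 8) (.pp [(1, 1111110000)])))))))) (.add (.mul (.g 4) (.add (.mul (.g 5) (.mul (.g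
 13) (.pp [(1, 1436256000)]))) (.mul (.g 12) (.mul (.g 12) (.pp [(1, 1150755000)]))))) (.add (.mul
 (.g 11) (.add (.pp [(1, 128529000)]) (.mul (.g 6) (.mul (.g 6) (.pp [(1, 8341500)]))))) (.mul (.g
 5) (.mul (.g 8) (.mul (.g 12) (.pp [(1, 6142500000)])))))))) (.mul (.g 15) (.add (.add (.mul (.g
 4) (.add (.add (.pp [(1, 2835750000)]) (.mul (.g 4) (.add (.pp [(1, 613920000)]) (.add (.mul (.g
 5) (.pp [(1, 3014250000)])) (.mul (.g 10) (.pp [(1, 232680000)])))))) (.add (.mul (.g 5) (.mul (.g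
 13) (.pp [(1, 157950000)]))) (.mul (.g 12) (.pp [(1, 3457530000)]))))) (.add (.mul (.g 6) (.add
 (.mul (.g 6) (.add (.mul (.g 10) (.pp [(1, 62460000)])) (.mul (.g 13) (.pp [(1, 538890000)]))))
 (.add (.mul (.g 5) (.mul (.g 13) (.pp [(1, 1271562000)]))) (.mul (.g 10) (.mul (.g 12) (.pp [(1,
 49365000)])))))) (.mul (.g 16) (.add (.pp [(1, 281850000)]) (.add (.mul (.pp [(1, 14685)]) (.sq
 [(1, -56), (2, 100), (3, -51), (5, 29), (7, -6)])) (.mul (.g 5) (.mul (.g 16) (.pp [(1,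
 2866830000)])))))))) (.add (.mul (.g 13) (.add (.pp [(1, 636900000)]) (.mul (.g 5) (.mul (.g 13)
 (.pp [(1, 3961200)]))))) (.add (.mul (.g 12) (.pp [(1, 330030000)])) (.mul (.g 15) (.mul (.pp [(1,
 17928)]) (.sq [(1, 40), (2, 83), (3, -48), (5, 100), (7, 76)])))))))) (.add (.mul (.g 5) (.add
 (.add (.mul (.g 4) (.add (.mul (.g 4) (.add (.mul (.g 13) (.pp [(1, 611520000)])) (.mul (.g 16)
 (.pp [(1, 6193920000)])))) (.mul (.g 8) (.mul (.g 12) (.pp [(1, 2625375000)]))))) (.add (.mul (.g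
 5) (.mul (.g 5) (.add (.mul (.g 5) (.pp [(1, 1128360000)])) (.add (.mul (.g 11) (.pp [(1,
 32361000)])) (.mul (.g 16) (.pp [(1, 6920790000)])))))) (.mul (.g 13) (.add (.pp [(1, 782496000)])
 (.mul (.g 13) (.mul (.g 13) (.pp [(1, 13745040)]))))))) (.add (.mul (.g 8) (.mul (.g 8) (.mul (.g
 10) (.pp [(1, 3555360000)])))) (.add (.mul (.g 12) (.mul (.g 12) (.pp [(1, 1319797500)]))) (.mul
 (.g 16) (.pp [(1, 1421040000)])))))) (.add (.mul (.g 16) (.add (.mul (.g 6) (.add (.pp [(1,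
 1784760000)]) (.add (.mul (.g 10) (.add (.pp [(1, 2250000)]) (.mul (.g 16) (.pp [(1, 450000)]))))
 (.mul (.g 16) (.mul (.g 16) (.pp [(1, 750000)])))))) (.add (.mul (.g 4) (.mul (.g 4) (.mul (.g 4)
 (.pp [(1, 291600000)])))) (.mul (.g 8) (.pp [(1, 403200000)]))))) (.mul (.g 4) (.add (.mul (.g 11)
 (.add (.mul (.g 4) (.mul (.g 4) (.pp [(1, 14565000)]))) (.add (.mul (.g 12) (.pp [(1, 210000)]))
 (.mul (.g 13) (.pp [(1, 178872300)]))))) (.mul (.g 4) (.mul (.g 8) (.mul (.g 13) (.pp [(1,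
 1656366000)]))))))))) (.add (.add (.mul (.g 8) (.add (.mul (.g 6) (.mul (.g 6) (.mul (.g 12) (.pp
 [(1, 150000)])))) (.mul (.g 11) (.pp [(1, 138979500)])))) (.mul (.g 0) (.pp [(1, 10000000000)])))
 (.add (.mul (.g 2) (.pp [(1, 10000000000)])) (.add (.mul (.g 12) (.mul (.g 12) (.pp [(1,
 466927500)]))) (.mul (.g 14) (.pp [(1, 2000000)])))))) (.pp [(1, 135228540), (2, 295980), (3,
 307440), (4, 304008), (5, 305040), (6, 313644), (7, 294456), (8, 297000), (9, 270783), (10,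
 298200), (12, 291984), (14, 266976), (15, 307710), (16, 300000), (18, 305472), (20, 300000), (21,
 347196), (24, 300000), (25, 275535), (27, 302929), (28, 290928), (30, 357600), (35, 285012), (36,
 289008), (40, 300000), (42, 341592), (45, 279135), (49, 349356), (50, 288000), (54, 320304), (56,
 300000), (60, 285000), (63, 290433), (70, 307464), (75, 341235), (81, 273888), (84, 279072), (90,
 277200), (98, 373392), (100, 300000), (105, 295002), (125, 305085), (126, 315432), (135, 308115),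
 (140, 330000), (147, 247896), (150, 312000), (175, 338181), (189, 284280), (196, 305064), (210,
 259536), (225, 268230), (245, 307608), (250, 300000), (294, 229680), (315, 310311), (343, 276276),
 (350, 297000), (375, 294915), (441, 301152), (490, 252336), (525, 269514), (625, 300000), (686,
 279552), (735, 295536), (875, 294915), (1029, 313632), (1225, 316284), (1715, 263340), (2401,
 307872)])))))))
 (P_c1 ++ xP_G_F3) = true := by decide +kernel

theorem t_G_F3_c2 : chk ROp gP_G_F3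
 (.split [(1, -69), (3, 100)]
 (.split [(2, 1), (3, -1)]
 (.rule 0 (.rule 6 (.cut 31 [(1, 3), (3, -2)] (.add (.mul (.g 2) (.pp [(1, 162)])) (.add (.mul (.g
 8) (.pp [(1, 162)])) (.mul (.g 3) (.pp [(1, 1)])))) (.rule 8 (.leaf 300000000 (.add (.add (.add
 (.add (.mul (.g 9) (.add (.add (.mul (.g 10) (.add (.add (.mul (.g 19) (.add (.add (.mul (.g 6)
 (.pp [(1, 874245000000)])) (.mul (.g 7) (.pp [(1, 15525000000)]))) (.add (.mul (.g 9) (.pp [(1,
 242802000000)])) (.add (.mul (.g 14) (.pp [(1, 278323500000)])) (.mul (.g 15) (.pp [(1,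
 271798200000)])))))) (.mul (.g 7) (.add (.mul (.g 12) (.pp [(1, 873777000000)])) (.add (.mul (.g
 13) (.pp [(1, 41757600000)])) (.mul (.g 14) (.pp [(1, 1867215000000)])))))) (.add (.mul (.g 5)
 (.mul (.g 12) (.pp [(1, 3251760000)]))) (.add (.mul (.g 6) (.mul (.g 18) (.pp [(1,
 887454000000)]))) (.mul (.g 9) (.mul (.g 13) (.pp [(1, 28908750000)]))))))) (.mul (.g 18) (.add
 (.add (.pp [(1, 530199000000)]) (.mul (.g 8) (.add (.mul (.g 7) (.pp [(1, 1318674000000)])) (.add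
 (.mul (.g 18) (.pp [(1, 134301000000)])) (.mul (.g 19) (.pp [(1, 11778000000)])))))) (.add (.mul
 (.g 19) (.add (.mul (.g 4) (.pp [(1, 406722000000)])) (.mul (.g 7) (.pp [(1, 550041000000)]))))
 (.mul (.g 9) (.mul (.g 9) (.pp [(1, 30000000)]))))))) (.add (.mul (.g 5) (.add (.mul (.g 9) (.add
 (.mul (.g 4) (.pp [(1, 4953480000)])) (.add (.mul (.g 8) (.pp [(1, 3811230000)])) (.mul (.g 15)
 (.pp [(1, 858546000)]))))) (.mul (.g 14) (.add (.mul (.g 6) (.pp [(1, 4102905000)])) (.mul (.g 14)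
 (.pp [(1, 390277500)])))))) (.add (.mul (.g 19) (.add (.mul (.pp [(1, 47724000)]) (.sq [(1, -15),
 (2, -1), (3, -21), (5, 7), (7, 50)])) (.add (.mul (.g 6) (.mul (.g 6) (.pp [(1, 237903000000)])))
 (.mul (.g 7) (.mul (.g 8) (.pp [(1, 173289000000)])))))) (.mul (.g 4) (.mul (.g 4) (.add (.mul (.g
 6) (.pp [(1, 422178000000)])) (.mul (.g 9) (.pp [(1, 102891000000)]))))))))) (.add (.mul (.g 10)
 (.add (.add (.mul (.g 7) (.add (.mul (.g 7) (.add (.mul (.g 5) (.pp [(1, 1710390000)])) (.add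
 (.mul (.g 7) (.pp [(1, 316104000000)])) (.mul (.g 14) (.pp [(1, 133024500000)]))))) (.mul (.g 6)
 (.mul (.g 14) (.pp [(1, 4204500000)]))))) (.add (.mul (.g 19) (.add (.add (.pp [(1,
 584712000000)]) (.mul (.pp [(1, 728400)]) (.sq [(1, 35), (2, 84), (3, 65), (5, -100)]))) (.add
 (.mul (.pp [(1, 30851700)]) (.sq [(1, -2), (2, 91), (3, 54), (5, 20), (7, -100)])) (.mul (.g 6)
 (.mul (.g 19) (.pp [(1, 106449000000)])))))) (.mul (.g 5) (.add (.pp [(1, 4507230000)]) (.mul (.pp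
 [(1, 139389)]) (.sq [(1, 24), (2, 100), (3, 49), (5, 24)])))))) (.add (.add (.mul (.g 8) (.mul (.g
 8) (.add (.mul (.g 4) (.pp [(1, 432861000000)])) (.mul (.g 10) (.pp [(1, 273507000000)]))))) (.mul
 (.g 14) (.add (.pp [(1, 674809500000)]) (.mul (.pp [(1, 19168350)]) (.sq [(1, 28), (2, 99), (3,
 100), (7, -12)]))))) (.add (.mul (.g 10) (.mul (.pp [(1, 34660800)]) (.sq [(1, -11), (2, 100), (3,
 70), (5, -63), (7, -36)]))) (.mul (.g 18) (.mul (.pp [(1, 24361200)]) (.sq [(1, 9), (2, -95), (3,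
 -38), (5, 100), (7, -70)]))))))) (.mul (.g 19) (.add (.add (.mul (.g 7) (.add (.mul (.g 8) (.add
 (.mul (.g 6) (.pp [(1, 366129000000)])) (.add (.mul (.g 7) (.pp [(1, 319071000000)])) (.mul (.g 8)
 (.pp [(1, 173016000000)]))))) (.mul (.g 7) (.mul (.g 7) (.pp [(1, 607335000000)]))))) (.mul (.g
 13) (.add (.add (.pp [(1, 51399900000)]) (.mul (.pp [(1, 264015)]) (.sq [(1, 50), (2, 36), (3,
 100), (5, -62), (7, 25)]))) (.add (.mul (.pp [(1, 21015)]) (.sq [(1, 45), (2, 64), (3, 100), (5,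
 -15), (7, -85)])) (.mul (.g 11) (.mul (.g 13) (.pp [(1, 50902500)]))))))) (.add (.mul (.g 6) (.add
 (.mul (.g 6) (.mul (.g 18) (.pp [(1, 171855000000)]))) (.mul (.g 8) (.mul (.g 8) (.pp [(1,
 3339000000)]))))) (.mul (.g 14) (.mul (.g 14) (.mul (.g 16) (.pp [(1, 93000000000)]))))))))) (.add
 (.mul (.g 18) (.add (.mul (.g 6) (.add (.mul (.g 6) (.add (.mul (.g 8) (.pp [(1, 153561000000)]))
 (.mul (.g 18) (.pp [(1, 231045000000)])))) (.add (.mul (.g 7) (.mul (.g 11) (.pp [(1,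
 212943000000)]))) (.mul (.g 8) (.mul (.g 14) (.pp [(1, 128635500000)])))))) (.add (.mul (.g 8)
 (.add (.mul (.pp [(1, 4623600)]) (.sq [(1, -23), (2, 100), (3, 49), (5, -53), (7, 57)])) (.mul (.g
 7) (.mul (.g 18) (.pp [(1, 509412000000)]))))) (.mul (.g 14) (.pp [(1, 220252500000)]))))) (.add
 (.mul (.g 13) (.add (.mul (.g 13) (.add (.mul (.g 11) (.add (.pp [(1, 128197500)]) (.mul (.g 16)
 (.pp [(1, 25800000)])))) (.mul (.g 14) (.pp [(1, 293482500)])))) (.mul (.g 7) (.mul (.g 14) (.pp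
 [(1, 10216425000)]))))) (.mul (.g 0) (.pp [(1, 300000000)]))))) (.add (.add (.mul (.g 2) (.pp [(1,
 1000000000000)])) (.add (.mul (.g 3) (.pp [(1, 1000000000000)])) (.mul (.g 4) (.mul (.g 14) (.mul
 (.g 14) (.pp [(1, 341808750000)])))))) (.add (.mul (.g 5) (.mul (.g 5) (.pp [(1, 24707700)])))
 (.add (.mul (.g 12) (.mul (.g 16) (.mul (.pp [(1, 3684600)]) (.sq [(1, 58), (2, -81), (3, -53),
 (5, 82), (7, -100)])))) (.mul (.g 17) (.pp [(1, 1000000000)])))))) (.pp [(1, 5936011791), (2,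
 28514484), (3, 30794832), (4, 33851820), (5, 29886807), (6, 24339768), (7, 29290350), (8,
 32844400), (9, 30302841), (10, 25019328), (12, 19416750), (14, 35157600), (15, 37955832), (16,
 29996700), (18, 41416359), (20, 18597530), (21, 27909000), (24, 29971050), (25, 33500781), (27,
 29561700), (28, 30757200), (30, 49037568), (35, 26589600), (36, 30291000), (40, 30745950), (42,
 25109400), (45, 20292600), (49, 31597950), (50, 39579524), (54, 27660300), (56, 31930800), (60,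
 33015000), (63, 32460300), (70, 30900000), (75, 17732100), (81, 30041400), (84, 32007600), (90,
 24438000), (98, 25885800), (100, 31269600), (105, 31507800), (125, 26913185), (126, 29143200),
 (135, 32761800), (140, 26398800), (147, 30701400), (150, 29582400), (175, 30243750), (189,
 29010000), (196, 31128000), (210, 20784000), (225, 31108800), (245, 29917050), (250, 27044100),
 (294, 31293600), (315, 35197200), (343, 29880000), (350, 33345000), (375, 31363500), (441,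
 30000000), (490, 30342600), (525, 33419400), (625, 31040700), (686, 30120000), (735, 29961000),
 (875, 29003400), (1029, 30000000), (1225, 29863800), (1715, 31076400), (2401, 30000000)])))))))
 (.rule 1 (.cut 1 [(2, 1), (5, -1)] (.add (.mul (.g 11) (.pp [(1, 1)])) (.mul (.g 1) (.pp [(1,
 1)]))) (.rule 2 (.cut 1 [(1, 3), (3, -2)] (.add (.add (.mul (.g 10) (.pp [(1, 1)])) (.mul (.g 15)
 (.pp [(1, 1)]))) (.add (.mul (.g 7) (.pp [(1, 1)])) (.mul (.g 9) (.pp [(1, 1)])))) (.rule 8 (.leaf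
 60000000 (.add (.add (.add (.add (.mul (.g 10) (.add (.add (.mul (.g 9) (.add (.add (.add (.pp
 [(1, 15246000000)]) (.mul (.pp [(1, 108180)]) (.sq [(1, 10), (2, 100), (3, 9), (5, 37), (7,
 90)]))) (.add (.mul (.g 10) (.add (.mul (.g 10) (.pp [(1, 296318400000)])) (.add (.mul (.g 16)
 (.pp [(1, 408000000)])) (.mul (.g 19) (.pp [(1, 304063200000)]))))) (.mul (.g 5) (.pp [(1,
 95859000000)])))) (.add (.add (.mul (.g 7) (.mul (.g 12) (.pp [(1, 78925200000)]))) (.mul (.g 8)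
 (.mul (.g 20) (.pp [(1, 36110400000)])))) (.add (.mul (.g 9) (.mul (.g 9) (.pp [(1,
 103905000000)]))) (.mul (.g 15) (.mul (.g 15) (.pp [(1, 15342000000)]))))))) (.add (.mul (.g 8)
 (.add (.mul (.g 8) (.add (.mul (.g 11) (.pp [(1, 25753200000)])) (.add (.mul (.g 19) (.pp [(1,
 415800000)])) (.mul (.g 20) (.pp [(1, 152465400000)]))))) (.add (.mul (.g 11) (.add (.mul (.g 15)
 (.pp [(1, 105060000000)])) (.mul (.g 17) (.pp [(1, 350616600000)])))) (.mul (.g 16) (.add (.mul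
 (.g 6) (.pp [(1, 37828800)])) (.mul (.g 20) (.pp [(1, 9052800000)]))))))) (.mul (.g 10) (.add
 (.add (.mul (.g 5) (.add (.mul (.g 11) (.pp [(1, 285640800000)])) (.mul (.g 19) (.pp [(1,
 7957800000)])))) (.mul (.g 7) (.add (.mul (.g 6) (.pp [(1, 2877942000)])) (.mul (.g 7) (.pp [(1,
 97456200000)]))))) (.add (.mul (.g 10) (.add (.pp [(1, 30724800000)]) (.mul (.g 19) (.pp [(1,
 7963800000)])))) (.mul (.g 17) (.mul (.g 20) (.pp [(1, 338444400000)])))))))) (.add (.add (.mul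
 (.g 5) (.mul (.g 11) (.add (.mul (.g 6) (.pp [(1, 4774680000)])) (.mul (.g 15) (.pp [(1,
 119117400000)]))))) (.mul (.g 6) (.pp [(1, 4444578000)]))) (.add (.mul (.g 15) (.pp [(1,
 26031000000)])) (.mul (.g 19) (.pp [(1, 392785800000)])))))) (.add (.mul (.g 7) (.add (.add (.mul
 (.g 7) (.add (.add (.mul (.g 5) (.add (.mul (.g 6) (.pp [(1, 2269296000)])) (.add (.mul (.g 7)
 (.pp [(1, 52065000000)])) (.mul (.g 14) (.pp [(1, 3960000)]))))) (.mul (.g 11) (.add (.mul (.g 9)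
 (.pp [(1, 152670600000)])) (.add (.mul (.g 11) (.pp [(1, 355654200000)])) (.mul (.g 15) (.pp [(1,
 155954400000)])))))) (.add (.mul (.g 19) (.add (.mul (.g 7) (.pp [(1, 159442800000)])) (.mul (.g
 20) (.pp [(1, 72967800000)])))) (.mul (.g 9) (.mul (.g 20) (.pp [(1, 1201200000)])))))) (.mul (.g
 5) (.add (.pp [(1, 250188000000)]) (.add (.mul (.g 5) (.mul (.g 8) (.pp [(1, 156949800000)])))
 (.mul (.g 13) (.pp [(1, 88389000000)])))))) (.add (.mul (.g 13) (.add (.mul (.pp [(1, 968640)])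
 (.sq [(1, 7), (2, 18), (5, -86), (7, 100)])) (.mul (.g 16) (.mul (.g 17) (.pp [(1,
 9268440000)]))))) (.add (.mul (.g 15) (.add (.mul (.g 9) (.pp [(1, 261380100000)])) (.mul (.g 12)
 (.pp [(1, 76500000)])))) (.mul (.g 14) (.mul (.pp [(1, 21747)]) (.sq [(1, 7), (2, 18), (3, -1),
 (5, -90), (7, 100)]))))))) (.mul (.g 20) (.add (.add (.mul (.g 19) (.add (.pp [(1, 16331400000)])
 (.add (.mul (.pp [(1, 2978580)]) (.sq [(1, -77), (2, -1), (3, -14), (5, 100), (7, 48)])) (.mul (.g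
 8) (.mul (.g 8) (.pp [(1, 121110000000)])))))) (.add (.mul (.g 6) (.pp [(1, 1049814000)])) (.mul
 (.g 8) (.mul (.g 17) (.mul (.g 17) (.pp [(1, 84353400000)])))))) (.add (.mul (.g 14) (.mul (.pp
 [(1, 201411)]) (.sq [(1, -72), (2, -59), (3, -83), (5, 85), (7, 100)]))) (.add (.mul (.g 15) (.pp
 [(1, 22809600000)])) (.mul (.g 20) (.mul (.pp [(1, 1194120)]) (.sq [(1, 2), (2, -5), (3, 100), (5,
 23), (7, -94)]))))))))) (.add (.mul (.g 5) (.add (.add (.mul (.g 15) (.add (.mul (.g 5) (.pp [(1,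
 24405600000)])) (.mul (.g 13) (.pp [(1, 148624800000)])))) (.mul (.g 6) (.pp [(1, 1071234000)])))
 (.add (.mul (.g 8) (.pp [(1, 119209200000)])) (.mul (.g 9) (.pp [(1, 59041800000)]))))) (.add
 (.mul (.g 19) (.add (.add (.pp [(1, 28344000000)]) (.mul (.g 8) (.mul (.g 8) (.mul (.g 8) (.pp
 [(1, 13995600000)]))))) (.add (.mul (.g 9) (.mul (.g 9) (.mul (.g 9) (.pp [(1, 82375800000)]))))
 (.mul (.g 19) (.mul (.pp [(1, 7957800000)]) (.sq [(1, -1), (2, 1), (7, 1)])))))) (.mul (.g 11)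
 (.add (.mul (.g 8) (.mul (.g 8) (.mul (.g 8) (.pp [(1, 41659200000)])))) (.add (.mul (.g 13) (.mul
 (.pp [(1, 2246040)]) (.sq [(1, 16), (2, -25), (3, -85), (5, 56), (7, -100)]))) (.mul (.g 14) (.mul
 (.pp [(1, 163524)]) (.sq [(1, 15), (2, -19), (3, -88), (5, 56), (7, -100)]))))))))) (.add (.add
 (.mul (.g 15) (.add (.pp [(1, 21177000000)]) (.add (.mul (.g 6) (.mul (.g 6) (.mul (.g 15) (.pp
 [(1, 158970)])))) (.mul (.g 8) (.mul (.g 13) (.pp [(1, 119163900000)])))))) (.add (.mul (.g 0)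
 (.pp [(1, 60000000)])) (.mul (.g 2) (.pp [(1, 200000000000)])))) (.add (.mul (.g 4) (.pp [(1,
 200000000000)])) (.add (.mul (.g 13) (.mul (.g 13) (.mul (.pp [(1, 11386320)]) (.sq [(1, -9), (2,
 -5), (3, -33), (5, 50), (7, 6)])))) (.mul (.g 18) (.pp [(1, 200000000)])))))) (.pp [(1,
 1187356416), (2, 5838711), (3, 5391828), (4, 5949531), (5, 5539524), (6, 7098768), (7, 5321700),
 (8, 5651836), (9, 6731385), (10, 5643558), (12, 7354548), (14, 7149000), (15, 6369006), (16,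
 6083640), (18, 4277679), (20, 6040029), (21, 7102440), (24, 5275800), (25, 6454641), (27,
 5569900), (28, 4711140), (30, 4146750), (35, 6679860), (36, 6622500), (40, 5678940), (42,
 4413240), (45, 6165249), (49, 7194000), (50, 6935514), (54, 6120540), (56, 6043200), (60,
 5935200), (63, 5532720), (70, 7508880), (75, 6247110), (81, 6197520), (84, 6244320), (90,
 6820920), (98, 4924320), (100, 6739740), (105, 5481480), (125, 5348625), (126, 6929760), (135,
 6056940), (140, 7099020), (147, 4636800), (150, 6373080), (175, 5241720), (189, 5982720), (196,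
 5892480), (210, 5672400), (225, 5556900), (245, 5254320), (250, 5202780), (294, 6815040), (315,
 5768700), (343, 5248320), (350, 4442400), (375, 6009300), (441, 5892480), (490, 5718720), (525,
 6150840), (625, 6400020), (686, 6600000), (735, 6496560), (875, 6224460), (1029, 6000000), (1225,
 6201360), (1715, 5893680), (2401, 6000000)])))))))))
 (.split [(2, 1), (3, -1)]
 (.rule 0 (.rule 6 (.cut 2 [(1, -7), (3, 50)] (.add (.mul (.g 5) (.pp [(1, 65)])) (.mul (.g 13)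
 (.pp [(1, 7)]))) (.rule 7 (.leaf 30000000 (.add (.add (.add (.add (.mul (.g 19) (.add (.add (.mul
 (.g 8) (.add (.add (.mul (.g 4) (.add (.add (.mul (.g 4) (.pp [(1, 12130800000)])) (.mul (.g 6)
 (.pp [(1, 4192500000)]))) (.add (.mul (.g 8) (.pp [(1, 29942400000)])) (.mul (.g 9) (.pp [(1,
 38808600000)]))))) (.mul (.g 7) (.add (.mul (.g 9) (.pp [(1, 57895500000)])) (.mul (.g 15) (.pp
 [(1, 635940000)]))))) (.add (.mul (.g 18) (.add (.mul (.g 11) (.pp [(1, 2101800000)])) (.mul (.g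
 18) (.pp [(1, 768600000)])))) (.add (.mul (.g 8) (.mul (.g 15) (.pp [(1, 8135940000)]))) (.mul (.g
 9) (.mul (.g 19) (.pp [(1, 13270500000)]))))))) (.add (.mul (.g 9) (.add (.add (.mul (.pp [(1,
 25890)]) (.sq [(1, -16), (2, -21), (3, -19), (5, -3), (7, 100)])) (.mul (.g 6) (.add (.mul (.g 10)
 (.pp [(1, 43906500000)])) (.mul (.g 16) (.pp [(1, 9609600000)]))))) (.add (.mul (.g 19) (.add (.pp
 [(1, 30984600000)]) (.mul (.g 10) (.pp [(1, 11627100000)])))) (.add (.mul (.g 4) (.mul (.g 9) (.pp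
 [(1, 739500000)]))) (.mul (.g 7) (.mul (.g 15) (.pp [(1, 7231260000)]))))))) (.mul (.g 10) (.add
 (.mul (.pp [(1, 1359660)]) (.sq [(1, -53), (2, 90), (3, -31), (5, 100), (7, 20)])) (.add (.mul (.g
 6) (.pp [(1, 26791800000)])) (.mul (.g 14) (.pp [(1, 42988500000)]))))))) (.add (.add (.mul (.g
 13) (.add (.pp [(1, 5388690000)]) (.mul (.pp [(1, 226074)]) (.sq [(1, 35), (2, 14), (3, 100), (5,
 -49), (7, -29)])))) (.mul (.g 15) (.add (.pp [(1, 32387280000)]) (.mul (.g 7) (.mul (.g 7) (.pp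
 [(1, 3607920000)])))))) (.add (.mul (.g 19) (.add (.pp [(1, 5732400000)]) (.mul (.pp [(1,
 1085310)]) (.sq [(1, -20), (3, -61), (5, 100), (7, 40)])))) (.mul (.g 4) (.mul (.g 4) (.mul (.g 6)
 (.pp [(1, 16041300000)])))))))) (.mul (.g 18) (.add (.add (.add (.mul (.g 9) (.add (.add (.pp [(1,
 74557800000)]) (.mul (.pp [(1, 557910)]) (.sq [(1, 4), (2, 39), (3, 95), (5, 3), (7, -100)])))
 (.add (.mul (.g 9) (.add (.mul (.g 10) (.pp [(1, 7598400000)])) (.add (.mul (.g 15) (.pp [(1,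
 3996480000)])) (.mul (.g 18) (.pp [(1, 5521200000)]))))) (.add (.mul (.g 18) (.add (.pp [(1,
 5699400000)]) (.mul (.g 7) (.pp [(1, 4829400000)])))) (.mul (.g 6) (.mul (.g 10) (.pp [(1,
 137663700000)]))))))) (.mul (.g 5) (.add (.mul (.g 6) (.add (.mul (.g 6) (.pp [(1, 527280000)]))
 (.mul (.g 15) (.pp [(1, 52629600)])))) (.mul (.g 7) (.mul (.g 7) (.pp [(1, 116031000)])))))) (.add
 (.mul (.g 10) (.add (.mul (.g 10) (.add (.pp [(1, 97506000000)]) (.mul (.g 10) (.pp [(1,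
 15802200000)])))) (.mul (.g 14) (.mul (.g 14) (.pp [(1, 8684325000)]))))) (.add (.mul (.g 4) (.pp
 [(1, 7161300000)])) (.mul (.g 6) (.mul (.pp [(1, 97950)]) (.sq [(1, 19), (2, 38), (3, 100), (5,
 100), (7, 26)])))))) (.add (.add (.mul (.g 7) (.mul (.pp [(1, 210330)]) (.sq [(1, 70), (2, 100),
 (3, 95), (5, 95), (7, 67)]))) (.add (.mul (.g 11) (.mul (.pp [(1, 182670)]) (.sq [(1, 11), (2,
 20), (3, 16), (5, -7), (7, 100)]))) (.mul (.g 12) (.mul (.pp [(1, 1411770)]) (.sq [(1, -65), (2,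
 65), (3, 100), (5, -69), (7, -2)]))))) (.add (.mul (.g 13) (.mul (.pp [(1, 12603)]) (.sq [(1,
 -34), (2, -13), (3, 8), (5, -34), (7, 100)]))) (.add (.mul (.g 14) (.pp [(1, 72206250000)])) (.mul
 (.g 18) (.mul (.pp [(1, 190170)]) (.sq [(1, -83), (2, -100), (3, 96), (5, 96), (7, 17)])))))))))
 (.add (.mul (.g 10) (.add (.add (.mul (.g 9) (.add (.mul (.g 6) (.add (.mul (.g 11) (.pp [(1,
 7937700000)])) (.mul (.g 15) (.pp [(1, 20864160000)])))) (.mul (.g 10) (.add (.mul (.g 9) (.pp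
 [(1, 79415100000)])) (.mul (.g 15) (.pp [(1, 2120280000)])))))) (.mul (.g 14) (.add (.pp [(1,
 71812650000)]) (.add (.mul (.pp [(1, 346335)]) (.sq [(1, 52), (2, 56), (3, 100), (5, -33), (7,
 1)])) (.mul (.g 6) (.mul (.g 6) (.pp [(1, 372150000)]))))))) (.add (.mul (.g 15) (.add (.pp [(1,
 686580000)]) (.mul (.pp [(1, 1027062)]) (.sq [(1, 43), (2, 100), (3, 34), (5, -17), (7, 16)]))))
 (.mul (.g 13) (.mul (.pp [(1, 19476)]) (.sq [(1, -25), (2, -3), (3, 100), (5, -53), (7,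
 -17)])))))) (.add (.mul (.g 5) (.add (.mul (.g 5) (.add (.mul (.g 7) (.mul (.g 11) (.pp [(1,
 625110)]))) (.mul (.g 15) (.mul (.g 16) (.pp [(1, 143754)]))))) (.add (.mul (.g 6) (.mul (.g 9)
 (.add (.mul (.g 14) (.pp [(1, 305847000)])) (.mul (.g 15) (.pp [(1, 73492800)]))))) (.mul (.g 14)
 (.pp [(1, 176335500)]))))) (.mul (.g 13) (.add (.mul (.g 7) (.add (.mul (.g 14) (.pp [(1,
 1473052500)])) (.mul (.g 15) (.mul (.g 15) (.pp [(1, 44084400)]))))) (.mul (.g 13) (.add (.mul (.g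
 4) (.pp [(1, 35445750)])) (.mul (.g 14) (.pp [(1, 107692500)]))))))))) (.add (.add (.mul (.g 0)
 (.pp [(1, 60000000)])) (.add (.mul (.g 2) (.pp [(1, 100000000000)])) (.mul (.g 3) (.pp [(1,
 100000000000)])))) (.add (.mul (.g 8) (.mul (.g 15) (.mul (.g 15) (.mul (.g 15) (.pp [(1,
 361987200)]))))) (.add (.mul (.g 12) (.mul (.g 16) (.mul (.pp [(1, 597660)]) (.sq [(1, -58), (2,
 51), (3, 100), (5, -25), (7, -20)])))) (.mul (.g 17) (.pp [(1, 100000000)])))))) (.pp [(1,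
 559777686), (2, 2711112), (3, 3614478), (4, 3353235), (5, 3157206), (6, 3604290), (7, 3000702),
 (8, 2545414), (9, 1772820), (10, 3255156), (12, 2938287), (14, 3376614), (15, 2277294), (16,
 3007440), (18, 2060232), (20, 3032882), (21, 2243040), (24, 3132870), (25, 3325980), (27,
 4044342), (28, 3008649), (30, 2288616), (35, 3157680), (36, 3231330), (40, 3117360), (42,
 2379684), (45, 3868908), (49, 2657346), (50, 1937510), (54, 3413760), (56, 3229410), (60,
 2995710), (63, 3757872), (70, 2813892), (75, 3139833), (81, 2789850), (84, 2894100), (90,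
 3317400), (98, 2703870), (100, 3178110), (105, 3805518), (125, 2969189), (126, 3786180), (135,
 2882820), (140, 2780160), (147, 3865185), (150, 3304635), (175, 2682696), (189, 2910900), (196,
 2847900), (210, 3381210), (225, 2855460), (245, 3245709), (250, 3258825), (294, 3524325), (315,
 2768910), (343, 3120000), (350, 3506610), (375, 2856480), (441, 2579490), (490, 3238485), (525,
 2939880), (625, 2973480), (686, 3147120), (735, 2836680), (875, 2966670), (1029, 2495310), (1225,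
 2927670), (1715, 2986200), (2401, 2940870)])))))))
 (.rule 1 (.cut 1 [(2, 1), (5, -1)] (.add (.mul (.g 1) (.pp [(1, 1)])) (.mul (.g 11) (.pp [(1,
 1)]))) (.rule 2 (.cut 9 [(1, -7), (3, 50)] (.add (.add (.mul (.g 5) (.pp [(1, 310)])) (.mul (.g 3)
 (.pp [(1, 310)]))) (.add (.mul (.g 12) (.pp [(1, 7)])) (.mul (.g 1) (.pp [(1, 140)])))) (.rule 7
 (.leaf 300000000 (.add (.add (.add (.add (.mul (.g 10) (.add (.add (.mul (.g 9) (.add (.add (.mul
 (.g 14) (.add (.mul (.g 5) (.pp [(1, 25921350000)])) (.add (.mul (.g 15) (.pp [(1, 28125300000)]))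
 (.mul (.g 19) (.pp [(1, 3315600000)]))))) (.mul (.g 12) (.add (.mul (.g 12) (.pp [(1,
 47580000000)])) (.mul (.g 15) (.pp [(1, 238692000000)]))))) (.add (.mul (.g 7) (.mul (.g 15) (.pp
 [(1, 190165500000)]))) (.add (.mul (.g 9) (.mul (.g 9) (.pp [(1, 53028000000)]))) (.mul (.g 16)
 (.mul (.g 20) (.pp [(1, 361200000)]))))))) (.add (.mul (.g 10) (.add (.add (.mul (.pp [(1,
 16229100)]) (.sq [(1, 44), (2, 45), (3, 100), (5, 6), (7, 75)])) (.mul (.g 10) (.add (.add (.mul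
 (.g 5) (.pp [(1, 643611000000)])) (.mul (.g 6) (.pp [(1, 6020310000)]))) (.add (.mul (.g 19) (.pp
 [(1, 44694000000)])) (.mul (.g 20) (.pp [(1, 137862000000)])))))) (.add (.mul (.g 6) (.add (.mul
 (.g 5) (.pp [(1, 5407560000)])) (.mul (.g 6) (.pp [(1, 37424700)])))) (.mul (.g 8) (.mul (.g 12)
 (.pp [(1, 272568000000)])))))) (.mul (.g 16) (.add (.pp [(1, 99013800000)]) (.add (.mul (.g 5)
 (.add (.mul (.g 16) (.pp [(1, 164125680000)])) (.mul (.g 17) (.pp [(1, 898857000000)])))) (.mul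
 (.g 16) (.mul (.g 16) (.pp [(1, 9417912000)])))))))) (.add (.add (.mul (.g 8) (.add (.mul (.g 8)
 (.mul (.g 12) (.pp [(1, 710841000000)]))) (.mul (.g 15) (.mul (.g 17) (.pp [(1,
 1636450500000)]))))) (.mul (.g 19) (.add (.pp [(1, 2343486000000)]) (.mul (.g 19) (.mul (.g 19)
 (.pp [(1, 420720000000)])))))) (.add (.mul (.g 5) (.pp [(1, 422073000000)])) (.mul (.g 14) (.pp
 [(1, 50858700000)])))))) (.add (.mul (.g 5) (.add (.add (.mul (.g 7) (.add (.pp [(1,
 1377687000000)]) (.add (.mul (.g 8) (.mul (.g 8) (.pp [(1, 975825000000)]))) (.mul (.g 13) (.pp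
 [(1, 1421883000000)]))))) (.add (.mul (.g 9) (.add (.pp [(1, 344811000000)]) (.add (.mul (.pp [(1,
 1449600)]) (.sq [(1, -35), (2, 36), (3, -57), (5, 100)])) (.mul (.g 9) (.mul (.g 9) (.pp [(1,
 85995000000)])))))) (.mul (.g 5) (.add (.mul (.pp [(1, 16081800)]) (.sq [(1, -88), (2, -5), (3,
 -14), (5, -65), (7, 100)])) (.mul (.g 12) (.mul (.g 20) (.pp [(1, 39876000000)]))))))) (.add (.mul
 (.g 6) (.mul (.g 19) (.add (.mul (.g 6) (.pp [(1, 14268600)])) (.mul (.g 17) (.pp [(1,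
 1363890000)]))))) (.add (.mul (.g 8) (.add (.pp [(1, 703152000000)]) (.mul (.g 8) (.pp [(1,
 323676000000)])))) (.mul (.g 11) (.mul (.pp [(1, 68979600)]) (.sq [(1, -20), (2, 32), (3, -61),
 (5, -19), (7, 100)]))))))) (.mul (.g 15) (.add (.add (.pp [(1, 949060500000)]) (.add (.mul (.g 6)
 (.add (.pp [(1, 1954140000)]) (.mul (.g 15) (.pp [(1, 4049452500)])))) (.mul (.g 9) (.add (.pp
 [(1, 190374000000)]) (.mul (.g 7) (.pp [(1, 612591000000)])))))) (.add (.add (.mul (.g 13) (.add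
 (.mul (.g 8) (.pp [(1, 794319000000)])) (.mul (.g 16) (.mul (.g 17) (.pp [(1, 27318300000)])))))
 (.mul (.g 11) (.mul (.pp [(1, 23433600)]) (.sq [(1, 35), (2, -50), (3, 50), (5, 25), (7, 12)]))))
 (.add (.mul (.g 14) (.mul (.pp [(1, 661335)]) (.sq [(1, 10), (2, -13), (3, 28), (5, 100), (7,
 -73)]))) (.mul (.g 19) (.mul (.pp [(1, 8988150)]) (.sq [(1, -75), (2, -73), (3, 100), (5, 59), (7,
 18)]))))))))) (.add (.mul (.g 19) (.add (.add (.mul (.g 8) (.add (.mul (.g 7) (.mul (.g 9) (.pp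
 [(1, 766800000000)]))) (.mul (.g 8) (.mul (.g 16) (.pp [(1, 109089000000)]))))) (.mul (.g 12)
 (.add (.mul (.pp [(1, 28106400)]) (.sq [(1, 1), (2, 48), (3, 100), (5, -25), (7, -54)])) (.mul
 (.pp [(1, 22164000)]) (.sq [(1, 29), (2, 43), (3, -70), (5, 100), (7, -73)]))))) (.add (.mul (.g
 19) (.add (.mul (.pp [(1, 9971100)]) (.sq [(1, 74), (2, 100), (3, -77), (5, 87), (7, -46)])) (.mul
 (.pp [(1, 352998000000)]) (.sq [(1, -1), (2, 1), (7, 1)])))) (.add (.mul (.g 11) (.mul (.pp [(1,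
 24506700)]) (.sq [(1, -55), (2, 74), (3, 3), (5, 4), (7, 100)]))) (.mul (.g 20) (.mul (.pp [(1,
 5879100)]) (.sq [(1, -22), (2, 100), (3, 3), (5, 84), (7, 3)]))))))) (.add (.mul (.g 14) (.add
 (.add (.pp [(1, 5897100000)]) (.mul (.g 7) (.mul (.g 8) (.mul (.g 8) (.pp [(1, 5181000000)])))))
 (.add (.mul (.g 12) (.mul (.pp [(1, 1960350)]) (.sq [(1, 100), (2, -36), (3, 61), (7, 15)])))
 (.add (.mul (.g 16) (.mul (.pp [(1, 460203)]) (.sq [(1, 12), (2, -21), (3, 77), (5, -50), (7,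
 -100)]))) (.mul (.g 20) (.mul (.pp [(1, 859020)]) (.sq [(1, -70), (2, -93), (3, -20), (5, 81), (7,
 100)]))))))) (.mul (.g 17) (.add (.add (.mul (.g 9) (.mul (.g 9) (.mul (.g 9) (.pp [(1,
 522846000000)])))) (.mul (.g 12) (.mul (.pp [(1, 140140800)]) (.sq [(1, 2), (2, 6), (3, -11), (5,
 25), (7, -23)])))) (.add (.mul (.g 13) (.mul (.pp [(1, 18953400)]) (.sq [(1, 57), (2, -6), (3,
 -53), (5, 100), (7, -72)]))) (.mul (.g 17) (.mul (.pp [(1, 1288200)]) (.sq [(1, -17), (2, 22), (3,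
 100), (5, -39)]))))))))) (.add (.add (.mul (.g 13) (.mul (.g 13) (.add (.mul (.pp [(1, 11885100)])
 (.sq [(1, 46), (2, -71), (3, 36), (5, 96), (7, -100)])) (.mul (.pp [(1, 16968300)]) (.sq [(1, -5),
 (2, 27), (3, 47), (5, -87), (7, -100)]))))) (.add (.mul (.g 0) (.pp [(1, 600000000)])) (.mul (.g
 2) (.pp [(1, 1000000000000)])))) (.add (.add (.mul (.g 4) (.pp [(1, 1000000000000)])) (.mul (.g 6)
 (.mul (.g 16) (.pp [(1, 2005182000)])))) (.add (.mul (.g 18) (.pp [(1, 1000000000)])) (.mul (.g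
 20) (.mul (.g 20) (.mul (.pp [(1, 19363800)]) (.sq [(1, 1), (2, 1), (3, 100), (5, 19), (7,
 -96)])))))))) (.pp [(1, 65112209124), (2, 29370936), (3, 30876078), (4, 32532786), (5, 28282530),
 (6, 34710756), (7, 30325500), (8, 28177250), (9, 25747974), (10, 27311040), (12, 32650110), (14,
 34381200), (15, 29279910), (16, 31061400), (18, 21821640), (20, 31657515), (21, 22870650), (24,
 27945900), (25, 34935780), (27, 34904585), (28, 27375540), (30, 21061740), (35, 28792350), (36,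
 34344750), (40, 26220900), (42, 23085090), (45, 36192270), (49, 28342950), (50, 29903880), (54,
 29168400), (56, 32508300), (60, 36924150), (63, 42077820), (70, 32603430), (75, 29346750), (81,
 28335900), (84, 28088850), (90, 26543100), (98, 29342820), (100, 35208600), (105, 31920720), (125,
 27332370), (126, 34677300), (135, 29821800), (140, 23302650), (147, 35676015), (150, 25314000),
 (175, 27952500), (189, 24088200), (196, 29646900), (210, 43022700), (225, 31567950), (245,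
 27779415), (250, 25290000), (294, 30683700), (315, 22528500), (343, 33624300), (350, 39743400),
 (375, 34916250), (441, 24878400), (490, 30053700), (525, 20185050), (625, 31128300), (686,
 30234600), (735, 32382300), (875, 26122650), (1029, 26153400), (1225, 29598000), (1715, 29203500),
 (2401, 28464900)]))))))))))
 (P_c2 ++ xP_G_F3) = true := by decide +kernel

theorem t_G_F5a_c3 : chk ROp gP_G_F5a
 (.cut 1 [(2, -1), (3, 1)] (.add (.mul (.g 9) (.pp [(1, 1)])) (.mul (.g 4) (.pp [(1, 1)]))) (.rule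
 1 (.cut 1 [(2, 1), (5, -1)] (.add (.mul (.g 10) (.pp [(1, 1)])) (.mul (.g 1) (.pp [(1, 1)])))
 (.rule 2 (.cut 11 [(1, -69), (3, 100)] (.add (.mul (.g 1) (.pp [(1, 620)])) (.add (.mul (.g 11)
 (.pp [(1, 31)])) (.mul (.g 13) (.pp [(1, 480)])))) (.cut 1 [(1, 3), (3, -2)] (.add (.add (.mul (.g
 10) (.pp [(1, 1)])) (.mul (.g 16) (.pp [(1, 1)]))) (.add (.mul (.g 7) (.pp [(1, 1)])) (.mul (.g 9)
 (.pp [(1, 1)])))) (.rule 8 (.rule 15 (.leaf 165000000 (.add (.add (.add (.add (.mul (.g 8) (.add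
 (.add (.mul (.g 12) (.add (.add (.pp [(1, 196803750000)]) (.mul (.pp [(1, 1485)]) (.sq [(1, 15),
 (2, 100), (3, -67), (5, 72)]))) (.add (.mul (.g 9) (.add (.mul (.g 9) (.pp [(1, 350999550000)]))
 (.add (.mul (.g 12) (.pp [(1, 204006000000)])) (.mul (.g 17) (.pp [(1, 1523666100000)]))))) (.add
 (.mul (.g 8) (.mul (.g 10) (.pp [(1, 3300000)]))) (.mul (.g 14) (.mul (.g 19) (.pp [(1,
 663098700000)]))))))) (.mul (.g 17) (.add (.mul (.g 9) (.add (.mul (.g 9) (.pp [(1,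
 350867550000)])) (.add (.mul (.g 14) (.pp [(1, 1488999600000)])) (.mul (.g 19) (.pp [(1,
 136252050000)]))))) (.mul (.g 8) (.mul (.g 8) (.pp [(1, 467958150000)])))))) (.add (.mul (.g 19)
 (.add (.pp [(1, 1102954050000)]) (.mul (.g 8) (.mul (.g 10) (.pp [(1, 696133350000)]))))) (.mul
 (.g 13) (.mul (.g 15) (.pp [(1, 6676642500)])))))) (.mul (.g 9) (.add (.add (.mul (.g 9) (.add
 (.mul (.g 17) (.add (.mul (.g 10) (.pp [(1, 9343950000)])) (.mul (.g 14) (.pp [(1,
 199914000000)])))) (.mul (.g 9) (.mul (.g 15) (.pp [(1, 3323182500)]))))) (.mul (.g 12) (.add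
 (.mul (.pp [(1, 22240845)]) (.sq [(1, 49), (2, -20), (3, 100), (5, 100)])) (.mul (.g 19) (.add
 (.mul (.g 12) (.pp [(1, 83308500000)])) (.mul (.g 16) (.pp [(1, 1363180500000)]))))))) (.add (.mul
 (.g 16) (.mul (.g 16) (.pp [(1, 154403700000)]))) (.mul (.g 19) (.mul (.pp [(1, 40132290)]) (.sq
 [(1, -51), (2, -28), (3, 66), (5, 100)]))))))) (.add (.mul (.g 10) (.add (.add (.mul (.g 10) (.mul
 (.g 20) (.add (.mul (.g 13) (.pp [(1, 21450000)])) (.mul (.g 20) (.pp [(1, 15968700000)])))))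
 (.mul (.g 16) (.add (.mul (.g 13) (.pp [(1, 46446675000)])) (.mul (.g 16) (.pp [(1,
 269432212500)]))))) (.add (.mul (.g 17) (.pp [(1, 532095300000)])) (.mul (.g 19) (.mul (.pp [(1,
 23685585)]) (.sq [(1, -49), (2, -20), (3, 100), (5, 100)])))))) (.add (.mul (.g 20) (.add (.add
 (.mul (.g 12) (.pp [(1, 229482000000)])) (.mul (.g 14) (.mul (.g 14) (.mul (.g 17) (.pp [(1,
 52273650000)]))))) (.add (.mul (.g 15) (.pp [(1, 42077557500)])) (.mul (.g 19) (.mul (.pp [(1,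
 47747040)]) (.sq [(1, 5), (2, -11), (3, 100), (5, -22)])))))) (.mul (.g 16) (.add (.mul (.g 14)
 (.mul (.g 16) (.pp [(1, 15409350000)]))) (.mul (.g 15) (.mul (.pp [(1, 264)]) (.sq [(1, -9), (2,
 13), (3, 25), (5, -13)])))))))) (.add (.add (.mul (.g 0) (.pp [(1, 50000000000)])) (.add (.mul (.g
 1) (.pp [(1, 165000000)])) (.mul (.g 4) (.pp [(1, 550000000000)])))) (.add (.mul (.g 6) (.pp [(1,
 550000000000)])) (.add (.mul (.g 18) (.pp [(1, 1100000000)])) (.mul (.g 19) (.pp [(1,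
 66443850000)])))))) (.pp [(1, 9138491500), (2, 17357687), (3, 16288409), (4, 16963177), (5,
 16875259), (6, 19505299), (8, 17637048), (9, 15168450), (10, 16556452), (12, 13688246), (15,
 14584361), (16, 16634640), (18, 14888995), (20, 14851320), (24, 15176040), (25, 16013536), (27,
 16699980), (30, 15547928), (36, 18247845), (40, 18437760), (45, 18020420), (50, 15198216), (54,
 16088160), (60, 17413440), (75, 17370056), (81, 16905240), (90, 16299360), (100, 15729120), (125,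
 17963836), (135, 16896000), (150, 16724400), (225, 16204320), (250, 16988400), (375, 16835280),
 (625, 15742320)])))))))))))
 (P_c3 ++ xP_G_F5a) = true := by decide +kernel

theorem t_G_F5a_free : chk RFp gP_G_F5a
 (.split [(2, 1), (3, -1)]
 (.split [(2, 1), (5, -1)]
 (.rule 0 (.rule 2 (.leaf 15000000 (.add (.add (.add (.add (.mul (.g 6) (.add (.add (.mul (.g 2)
 (.add (.mul (.g 2) (.add (.mul (.g 2) (.pp [(1, 1746150000)])) (.mul (.g 8) (.pp [(1,
 650850000)])))) (.add (.mul (.g 3) (.add (.mul (.g 3) (.pp [(1, 10516500000)])) (.mul (.g 13) (.pp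
 [(1, 12143100000)])))) (.mul (.g 11) (.pp [(1, 359820000)]))))) (.mul (.g 5) (.add (.mul (.pp [(1,
 645840)]) (.sq [(1, -5), (2, 3), (3, 100), (5, -100)])) (.add (.mul (.g 11) (.add (.mul (.g 4)
 (.pp [(1, 597217500)])) (.add (.mul (.g 5) (.pp [(1, 1137562500)])) (.mul (.g 6) (.pp [(1,
 634147500)]))))) (.mul (.g 3) (.mul (.g 8) (.pp [(1, 3027600000)]))))))) (.add (.mul (.g 8) (.add
 (.mul (.g 8) (.mul (.g 8) (.pp [(1, 2324700000)]))) (.mul (.g 10) (.mul (.g 10) (.pp [(1,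
 14768100000)]))))) (.add (.mul (.g 10) (.mul (.g 10) (.mul (.g 13) (.pp [(1, 9302100000)]))))
 (.mul (.g 11) (.mul (.pp [(1, 65151)]) (.sq [(1, -35), (2, 46), (3, 100), (5, 11)]))))))) (.mul
 (.g 8) (.add (.add (.mul (.g 5) (.add (.mul (.pp [(1, 17925)]) (.sq [(1, -98), (2, 84), (3, 53),
 (5, 100)])) (.add (.mul (.g 3) (.add (.mul (.g 3) (.pp [(1, 19458150000)])) (.mul (.g 4) (.pp [(1,
 10450950000)])))) (.mul (.g 8) (.mul (.g 8) (.pp [(1, 169650000)])))))) (.mul (.g 8) (.add (.mul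
 (.pp [(1, 429690)]) (.sq [(2, -4), (3, 100), (5, -91)])) (.add (.mul (.g 2) (.mul (.g 3) (.pp [(1,
 6281550000)]))) (.mul (.g 8) (.mul (.g 8) (.pp [(1, 177300000)]))))))) (.add (.mul (.g 2) (.mul
 (.g 2) (.mul (.g 14) (.pp [(1, 1722000000)])))) (.mul (.g 4) (.mul (.pp [(1, 63045)]) (.sq [(1,
 -88), (2, 77), (3, 50), (5, 100)]))))))) (.add (.mul (.g 10) (.add (.mul (.g 2) (.add (.mul (.g 2)
 (.pp [(1, 5051700000)])) (.mul (.g 11) (.pp [(1, 960967500)])))) (.add (.mul (.g 4) (.add (.mul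
 (.pp [(1, 2277135)]) (.sq [(1, -9), (2, -18), (3, 100), (5, -77)])) (.mul (.g 4) (.mul (.g 11)
 (.pp [(1, 524227500)]))))) (.mul (.g 3) (.mul (.g 3) (.pp [(1, 8003550000)])))))) (.add (.mul (.g
 5) (.add (.mul (.g 3) (.add (.mul (.g 3) (.mul (.g 13) (.pp [(1, 27854400000)]))) (.mul (.g 5)
 (.mul (.g 11) (.pp [(1, 1280160000)]))))) (.add (.mul (.g 11) (.mul (.pp [(1, 13500)]) (.sq [(1,
 -40), (2, 51), (3, 32), (5, 100)]))) (.mul (.g 14) (.mul (.pp [(1, 46695)]) (.sq [(1, -100), (2,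
 56), (3, 77), (5, 56)])))))) (.mul (.g 0) (.pp [(1, 50000000000)]))))) (.add (.add (.mul (.g 1)
 (.pp [(1, 50000000000)])) (.mul (.g 2) (.mul (.g 2) (.mul (.pp [(1, 353580)]) (.sq [(1, -51), (2,
 27), (3, 100), (5, -55)]))))) (.add (.mul (.g 3) (.mul (.g 11) (.mul (.pp [(1, 54255)]) (.sq [(1,
 2), (2, 67), (3, 100), (5, -7)])))) (.add (.mul (.g 12) (.pp [(1, 50000000000)])) (.mul (.g 14)
 (.mul (.g 14) (.mul (.pp [(1, 228765)]) (.sq [(1, -34), (2, -14), (3, 23), (5, 100)])))))))) (.pp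
 [(1, 38247660), (2, 1242060), (3, 1589940), (4, 1833735), (5, 1516905), (6, 1415985), (8,
 1305940), (9, 1408815), (10, 1507605), (12, 1411095), (15, 1437420), (16, 1636785), (18, 1633920),
 (20, 1736016), (24, 1485360), (25, 1552620), (27, 1428020), (30, 1351920), (36, 1708800), (40,
 1254780), (45, 1704990), (50, 1071747), (54, 1211325), (60, 1498560), (75, 1659495), (81,
 1680000), (90, 1395480), (100, 1800225), (125, 1543361), (135, 1424655), (150, 1723125), (225,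
 1495095), (250, 1360905), (375, 1286040), (625, 1585920)])))))
 (.rule 0 (.rule 3 (.leaf 3000000 (.add (.add (.add (.add (.mul (.g 5) (.add (.add (.mul (.g 3)
 (.add (.add (.mul (.pp [(1, 108612)]) (.sq [(1, 5), (2, -46), (3, 100), (5, -87)])) (.mul (.g 11)
 (.add (.pp [(1, 244410000)]) (.add (.mul (.g 4) (.pp [(1, 43609500)])) (.mul (.g 5) (.pp [(1,
 137541000)])))))) (.add (.mul (.g 3) (.pp [(1, 3942900000)])) (.add (.mul (.g 5) (.mul (.g 14)
 (.pp [(1, 2065080000)]))) (.mul (.g 6) (.mul (.g 13) (.pp [(1, 7154130000)]))))))) (.mul (.g 2)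
 (.add (.add (.mul (.g 6) (.add (.mul (.g 6) (.pp [(1, 1426680000)])) (.mul (.g 8) (.pp [(1,
 869670000)])))) (.mul (.g 2) (.pp [(1, 10622040000)]))) (.add (.mul (.g 4) (.mul (.g 13) (.pp [(1,
 1508880000)]))) (.add (.mul (.g 5) (.mul (.g 9) (.pp [(1, 170850000)]))) (.mul (.g 10) (.pp [(1,
 4299780000)]))))))) (.add (.mul (.g 6) (.mul (.g 11) (.add (.mul (.g 4) (.pp [(1, 300762000)]))
 (.mul (.g 5) (.pp [(1, 491589000)]))))) (.add (.mul (.g 8) (.mul (.pp [(1, 35187)]) (.sq [(1,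
 -66), (2, 27), (3, -14), (5, 100)]))) (.mul (.g 10) (.mul (.g 10) (.mul (.g 14) (.pp [(1,
 5051100000)])))))))) (.mul (.g 6) (.add (.add (.mul (.g 2) (.add (.mul (.g 4) (.add (.mul (.g 2)
 (.pp [(1, 362970000)])) (.mul (.g 4) (.pp [(1, 1589010000)])))) (.add (.mul (.g 6) (.mul (.g 10)
 (.pp [(1, 803160000)]))) (.mul (.g 8) (.mul (.g 11) (.pp [(1, 4386000)])))))) (.mul (.g 11) (.add
 (.mul (.g 4) (.mul (.g 4) (.pp [(1, 37239000)]))) (.mul (.g 8) (.mul (.g 8) (.pp [(1,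
 2734500)])))))) (.add (.mul (.g 9) (.mul (.pp [(1, 27576)]) (.sq [(1, -51), (2, 100), (3, 4), (5,
 4)]))) (.mul (.g 14) (.mul (.pp [(1, 138909)]) (.sq [(1, -47), (2, -12), (3, 100), (5, 65)])))))))
 (.add (.mul (.g 8) (.add (.mul (.g 14) (.add (.mul (.pp [(1, 36189)]) (.sq [(1, 31), (2, -1), (3,
 100), (5, -91)])) (.add (.mul (.g 2) (.mul (.g 2) (.pp [(1, 557160000)]))) (.mul (.g 14) (.mul (.g
 14) (.pp [(1, 3660000)])))))) (.add (.mul (.g 3) (.mul (.pp [(1, 951936)]) (.sq [(1, -16), (2,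
 13), (3, 50), (5, 7)]))) (.mul (.g 11) (.pp [(1, 1522500)]))))) (.mul (.g 2) (.add (.mul (.g 2)
 (.mul (.g 4) (.mul (.g 4) (.pp [(1, 160590000)])))) (.mul (.g 11) (.pp [(1, 27327000)])))))) (.add
 (.add (.mul (.g 14) (.mul (.g 14) (.add (.mul (.pp [(1, 57756)]) (.sq [(1, -17), (2, 24), (3,
 -50), (5, 36)])) (.mul (.g 3) (.mul (.g 3) (.pp [(1, 542580000)])))))) (.mul (.g 0) (.pp [(1,
 10000000000)]))) (.add (.mul (.g 1) (.pp [(1, 10000000000)])) (.add (.mul (.g 11) (.mul (.g 11)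
 (.pp [(1, 202725)]))) (.mul (.g 12) (.pp [(1, 10000000000)])))))) (.pp [(1, 10747662), (2,
 329127), (3, 295044), (4, 313629), (5, 314622), (6, 246348), (8, 313629), (9, 332124), (10,
 243093), (12, 308589), (15, 309120), (16, 287184), (18, 284328), (20, 292005), (24, 277947), (25,
 296760), (27, 304348), (30, 385464), (36, 305220), (40, 326163), (45, 233136), (50, 311013), (54,
 306252), (60, 289200), (75, 290616), (81, 300000), (90, 310032), (100, 323106), (125, 301266),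
 (135, 292416), (150, 242676), (225, 357876), (250, 248067), (375, 322248), (625, 319965)]))))))
 (.split [(2, 1), (5, -1)]
 (.rule 1 (.rule 2 (.leaf 30000000 (.add (.add (.add (.add (.mul (.g 6) (.add (.add (.mul (.pp [(1,
 1305000)]) (.sq [(1, 7), (2, -15), (3, -28), (5, 50)])) (.add (.mul (.g 3) (.add (.add (.mul (.g
 3) (.add (.pp [(1, 62022000000)]) (.add (.mul (.g 3) (.pp [(1, 7031100000)])) (.mul (.g 14) (.pp
 [(1, 12109200000)]))))) (.mul (.g 6) (.add (.mul (.g 11) (.pp [(1, 3444705000)])) (.mul (.g 13)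
 (.pp [(1, 53175000000)]))))) (.add (.mul (.g 2) (.mul (.g 2) (.pp [(1, 99438900000)]))) (.add
 (.mul (.g 8) (.mul (.g 10) (.pp [(1, 38408100000)]))) (.mul (.g 13) (.mul (.g 13) (.pp [(1,
 35700000)]))))))) (.mul (.g 2) (.add (.mul (.g 11) (.add (.pp [(1, 1252845000)]) (.mul (.g 13)
 (.pp [(1, 820335000)])))) (.mul (.g 2) (.mul (.g 14) (.pp [(1, 8708100000)]))))))) (.add (.mul (.g
 4) (.add (.mul (.pp [(1, 2252790)]) (.sq [(1, 3), (2, -1), (3, -67), (5, 100)])) (.mul (.g 4)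
 (.mul (.g 11) (.pp [(1, 8634930000)]))))) (.add (.mul (.g 13) (.add (.mul (.pp [(1, 977520)]) (.sq
 [(1, -49), (2, -20), (3, 100), (5, 100)])) (.mul (.g 6) (.mul (.g 6) (.pp [(1, 25705500000)])))))
 (.mul (.g 14) (.mul (.pp [(1, 2760960)]) (.sq [(1, -25), (2, 25), (3, 22), (5, -21)]))))))) (.mul
 (.g 2) (.add (.add (.mul (.g 11) (.add (.pp [(1, 87030000)]) (.add (.mul (.pp [(1, 38181)]) (.sq
 [(1, 18), (2, 37), (5, 100)])) (.mul (.g 8) (.mul (.g 8) (.pp [(1, 5610000)])))))) (.mul (.g 3)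
 (.add (.mul (.pp [(1, 1038750)]) (.sq [(1, -19), (2, 71), (3, 17), (5, 100)])) (.mul (.g 3) (.mul
 (.g 13) (.pp [(1, 2854200000)])))))) (.add (.mul (.g 8) (.mul (.pp [(1, 261390)]) (.sq [(1, -100),
 (2, 54), (3, 25), (5, 84)]))) (.mul (.g 14) (.mul (.pp [(1, 267840)]) (.sq [(1, -50), (2, 40), (3,
 33), (5, 19)]))))))) (.add (.mul (.g 5) (.add (.add (.mul (.g 3) (.add (.mul (.g 3) (.mul (.g 11)
 (.pp [(1, 27705000)]))) (.mul (.g 8) (.mul (.g 13) (.pp [(1, 1339200000)]))))) (.mul (.g 5) (.mul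
 (.pp [(1, 273090)]) (.sq [(1, -82), (2, 84), (3, 100), (5, -29)])))) (.add (.mul (.g 8) (.mul (.pp
 [(1, 426600)]) (.sq [(1, -1), (2, -60), (3, 100), (5, -85)]))) (.mul (.g 14) (.mul (.pp [(1,
 1946280)]) (.sq [(1, -47), (2, -12), (3, 65), (5, 100)])))))) (.add (.mul (.g 3) (.add (.mul (.g
 3) (.mul (.g 4) (.pp [(1, 1825500000)]))) (.mul (.g 11) (.mul (.g 14) (.mul (.g 14) (.pp [(1,
 245580000)])))))) (.mul (.g 10) (.add (.mul (.pp [(1, 775140)]) (.sq [(1, -37), (2, 15), (3, 100),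
 (5, -87)])) (.mul (.g 10) (.mul (.pp [(1, 860100)]) (.sq [(1, -100), (2, 75), (3, 98), (5,
 -77)])))))))) (.add (.add (.mul (.g 0) (.pp [(1, 100000000000)])) (.mul (.g 1) (.pp [(1,
 100000000000)]))) (.add (.mul (.g 11) (.mul (.pp [(1, 2109)]) (.sq [(1, -95), (2, 79), (3, 68),
 (5, 100)]))) (.add (.mul (.g 12) (.pp [(1, 100000000000)])) (.mul (.g 13) (.mul (.g 13) (.mul (.pp
 [(1, 620970)]) (.sq [(1, -34), (2, 25), (3, 100), (5, -40)])))))))) (.pp [(1, 70855155), (2,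
 2670174), (3, 3041880), (4, 3063771), (5, 3133716), (6, 4010226), (8, 2984439), (9, 2802576), (10,
 3853248), (12, 2728380), (15, 2468190), (16, 2893710), (18, 2191230), (20, 2076261), (24,
 3067530), (25, 2278200), (27, 3094320), (30, 2639340), (36, 3372810), (40, 3502860), (45,
 3312450), (50, 3694620), (54, 3070050), (60, 3323730), (75, 3610740), (81, 3099600), (90,
 2443530), (100, 2593380), (125, 2962060), (135, 3042150), (150, 3170160), (225, 3121290), (250,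
 2630400), (375, 2865000), (625, 3260220)])))))
 (.rule 1 (.rule 3 (.leaf 600000000 (.add (.add (.add (.add (.mul (.g 2) (.add (.add (.mul (.g 3)
 (.add (.add (.pp [(1, 311130000000)]) (.mul (.g 5) (.add (.mul (.g 8) (.pp [(1, 1114350000000)]))
 (.mul (.g 14) (.pp [(1, 35616000000)]))))) (.add (.mul (.g 6) (.add (.mul (.g 2) (.pp [(1,
 216480000000)])) (.mul (.g 13) (.pp [(1, 378504000000)])))) (.mul (.g 4) (.mul (.g 8) (.pp [(1,
 77790000000)])))))) (.mul (.g 5) (.add (.mul (.g 5) (.add (.mul (.g 8) (.pp [(1, 655908000000)]))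
 (.mul (.g 13) (.pp [(1, 21336000000)])))) (.add (.mul (.g 2) (.pp [(1, 1431672000000)])) (.mul (.g
 6) (.mul (.g 13) (.pp [(1, 1392750000000)]))))))) (.add (.mul (.g 4) (.add (.mul (.g 14) (.add
 (.mul (.g 2) (.pp [(1, 33828000000)])) (.mul (.g 8) (.pp [(1, 346764000000)])))) (.mul (.g 6)
 (.mul (.g 6) (.pp [(1, 468936000000)]))))) (.mul (.g 6) (.mul (.g 6) (.mul (.g 6) (.pp [(1,
 640506000000)]))))))) (.mul (.g 3) (.add (.add (.mul (.g 5) (.add (.mul (.g 5) (.add (.mul (.g 5)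
 (.pp [(1, 405384000000)])) (.mul (.g 6) (.pp [(1, 368694000000)])))) (.add (.mul (.g 3) (.mul (.g
 13) (.pp [(1, 55026000000)]))) (.mul (.g 4) (.mul (.g 8) (.pp [(1, 1508946000000)])))))) (.mul (.g
 4) (.add (.mul (.g 3) (.pp [(1, 453474000000)])) (.mul (.g 13) (.mul (.g 13) (.pp [(1,
 227100000000)])))))) (.add (.mul (.g 6) (.mul (.g 6) (.mul (.g 8) (.pp [(1, 133620000000)]))))
 (.mul (.g 13) (.mul (.pp [(1, 5334000)]) (.sq [(1, 13), (2, 23), (3, -77), (5, 100)]))))))) (.add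
 (.mul (.g 6) (.add (.mul (.g 11) (.add (.mul (.g 6) (.add (.pp [(1, 33189600000)]) (.mul (.g 6)
 (.pp [(1, 37954800000)])))) (.mul (.g 4) (.mul (.g 4) (.pp [(1, 36710700000)]))))) (.add (.mul (.g
 13) (.add (.mul (.pp [(1, 78795000)]) (.sq [(1, -47), (2, -11), (3, 100), (5, 100)])) (.mul (.g 4)
 (.mul (.g 4) (.pp [(1, 100008000000)]))))) (.mul (.g 5) (.mul (.pp [(1, 131277600)]) (.sq [(1, 1),
 (2, 1), (3, 46), (5, -50)])))))) (.add (.mul (.g 4) (.mul (.g 4) (.add (.mul (.g 4) (.add (.mul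
 (.g 13) (.pp [(1, 344544000000)])) (.mul (.g 14) (.pp [(1, 75720000000)])))) (.mul (.g 11) (.pp
 [(1, 28373100000)]))))) (.mul (.g 5) (.add (.mul (.g 5) (.mul (.g 11) (.pp [(1, 29687700000)])))
 (.mul (.g 14) (.mul (.pp [(1, 22812000)]) (.sq [(1, -47), (2, -12), (3, 65), (5, 100)]))))))))
 (.add (.add (.mul (.g 0) (.pp [(1, 2000000000000)])) (.mul (.g 1) (.pp [(1, 2000000000000)])))
 (.add (.mul (.g 9) (.mul (.g 9) (.mul (.pp [(1, 10231800)]) (.sq [(1, -40), (2, 61), (3, -15), (5,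
 100)])))) (.add (.mul (.g 11) (.mul (.g 11) (.mul (.pp [(1, 18603)]) (.sq [(1, -38), (2, -73), (3,
 -40), (5, 100)])))) (.mul (.g 12) (.pp [(1, 2000000000000)])))))) (.pp [(1, 653238708), (2,
 60321516), (3, 60226800), (4, 54333213), (5, 60595320), (6, 61983120), (8, 53297480), (9,
 58500600), (10, 63903240), (12, 69640920), (15, 53019000), (16, 63317400), (18, 50577600), (20,
 69855120), (24, 57265200), (25, 57589200), (27, 63576000), (30, 53950800), (36, 58784400), (40,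
 54925200), (45, 79042800), (50, 61118400), (54, 61422000), (60, 62788200), (75, 62952000), (81,
 59211000), (90, 63622800), (100, 66197400), (125, 63120000), (135, 54548400), (150, 54666000),
 (225, 54885000), (250, 55560000), (375, 57000000), (625, 60000000)])))))))
 (P_free ++ xP_G_F5a) = true := by decide +kernel

theorem t_G_T2_Tp0_a : chk Rap gP_G_T2
 (.split [(1, 1), (2, -20)]
 (.split [(1, -3), (3, 5)]
 (.cut 1 [(1, 3), (3, -2)] (.add (.add (.mul (.g 2) (.pp [(1, 18)])) (.mul (.g 7) (.pp [(1, 2)])))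
 (.add (.mul (.g 4) (.pp [(1, 2)])) (.mul (.g 1) (.pp [(1, 1)])))) (.rule 8 (.rule 4 (.leaf
 1200000000 (.add (.add (.add (.add (.mul (.g 8) (.add (.add (.add (.mul (.g 5) (.add (.add (.mul
 (.g 7) (.add (.pp [(1, 504060000000)]) (.add (.mul (.g 7) (.pp [(1, 732000000)])) (.mul (.g 8)
 (.pp [(1, 396000000)]))))) (.add (.mul (.g 8) (.add (.mul (.g 5) (.pp [(1, 7248612000000)])) (.mul
 (.g 8) (.pp [(1, 1933692000000)])))) (.mul (.g 4) (.mul (.g 6) (.pp [(1, 11400000)]))))) (.add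
 (.mul (.g 9) (.mul (.g 9) (.pp [(1, 476916000000)]))) (.add (.mul (.g 11) (.pp [(1,
 11486940000000)])) (.mul (.g 16) (.pp [(1, 11484108000000)])))))) (.mul (.g 16) (.add (.add (.pp
 [(1, 67992000000)]) (.add (.mul (.pp [(1, 12000)]) (.sq [(1, 100), (2, 45), (3, 85), (5, 85), (7,
 69)])) (.mul (.pp [(1, 14400)]) (.sq [(1, -20), (2, -41), (3, -47), (5, 100), (7, 24)])))) (.add
 (.add (.mul (.g 6) (.add (.pp [(1, 5352000000)]) (.mul (.g 12) (.pp [(1, 226800000)])))) (.mul (.g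
 7) (.pp [(1, 2244000000)]))) (.add (.mul (.g 8) (.mul (.g 9) (.pp [(1, 204000000)]))) (.mul (.g
 16) (.mul (.g 16) (.pp [(1, 120000000)])))))))) (.add (.mul (.g 8) (.add (.mul (.g 6) (.add (.mul
 (.g 6) (.pp [(1, 36000000)])) (.mul (.g 12) (.pp [(1, 417600000)])))) (.add (.mul (.g 10) (.add
 (.mul (.g 3) (.pp [(1, 981600000)])) (.mul (.g 7) (.pp [(1, 372000000)])))) (.mul (.g 4) (.mul (.g
 9) (.pp [(1, 70089600000)])))))) (.mul (.g 4) (.add (.pp [(1, 82240200000)]) (.mul (.g 6) (.mul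
 (.g 14) (.pp [(1, 1800000)]))))))) (.add (.add (.mul (.g 11) (.add (.mul (.g 6) (.mul (.g 12) (.pp
 [(1, 169800000)]))) (.mul (.g 9) (.mul (.g 10) (.pp [(1, 1116000000)]))))) (.mul (.g 3) (.pp [(1,
 12804000000)]))) (.add (.mul (.g 7) (.mul (.g 7) (.pp [(1, 2268000000)]))) (.add (.mul (.g 12)
 (.mul (.pp [(1, 20400)]) (.sq [(1, 40), (2, 50), (3, 46), (5, -31), (7, -5)]))) (.mul (.g 14)
 (.mul (.g 14) (.mul (.g 14) (.pp [(1, 396000000)]))))))))) (.mul (.g 7) (.add (.add (.mul (.g 16)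
 (.add (.add (.pp [(1, 3960000000)]) (.mul (.pp [(1, 1200)]) (.sq [(1, 100), (2, 81), (3, 81), (5,
 81), (7, 81)]))) (.add (.mul (.g 5) (.pp [(1, 11997084000000)])) (.add (.mul (.g 6) (.pp [(1,
 1008000000)])) (.mul (.g 7) (.pp [(1, 1212000000)])))))) (.mul (.g 4) (.add (.pp [(1,
 599854800000)]) (.add (.mul (.pp [(1, 2400)]) (.sq [(1, 43), (2, 50), (3, 50), (5, 50), (7, 50)]))
 (.mul (.g 5) (.mul (.g 7) (.pp [(1, 1800000)]))))))) (.add (.mul (.g 10) (.add (.mul (.pp [(1,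
 22800)]) (.sq [(1, -19), (2, 5), (3, -21), (5, 68), (7, 100)])) (.add (.mul (.pp [(1, 9600)]) (.sq
 [(1, 96), (2, 46), (3, 100), (5, 61), (7, -4)])) (.mul (.g 11) (.pp [(1, 48000000)]))))) (.add
 (.mul (.g 3) (.pp [(1, 597600000)])) (.mul (.g 14) (.pp [(1, 1896000000)]))))))) (.add (.mul (.g
 5) (.add (.add (.pp [(1, 1556880000000)]) (.mul (.g 5) (.add (.pp [(1, 1872684000000)]) (.add
 (.mul (.g 5) (.add (.pp [(1, 1392144000000)]) (.add (.mul (.g 4) (.pp [(1, 33304800000)])) (.mul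
 (.g 13) (.pp [(1, 324000000)]))))) (.mul (.g 16) (.pp [(1, 240000000)])))))) (.add (.mul (.g 11)
 (.add (.mul (.pp [(1, 20400)]) (.sq [(1, 44), (2, -13), (3, 81), (5, 6), (7, 100)])) (.mul (.g 9)
 (.mul (.g 9) (.pp [(1, 24000000)]))))) (.mul (.g 16) (.mul (.pp [(1, 2400)]) (.sq [(1, 100), (2,
 69), (3, 85), (5, 85), (7, 45)])))))) (.add (.mul (.g 6) (.add (.add (.mul (.g 16) (.add (.mul (.g
 4) (.mul (.g 9) (.pp [(1, 23400000)]))) (.add (.mul (.g 6) (.mul (.g 6) (.pp [(1, 72000000)])))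
 (.mul (.g 11) (.mul (.g 11) (.pp [(1, 708000000)])))))) (.add (.mul (.g 3) (.pp [(1,
 644152800000)])) (.mul (.g 4) (.pp [(1, 36000000)])))) (.add (.mul (.g 6) (.pp [(1,
 978660000000)])) (.add (.mul (.g 10) (.mul (.pp [(1, 40800)]) (.sq [(1, -21), (2, -72), (3, 11),
 (5, 57), (7, 100)]))) (.mul (.g 11) (.mul (.pp [(1, 97200)]) (.sq [(1, -4), (2, -51), (3, 45), (5,
 21), (7, 100)]))))))) (.mul (.g 14) (.add (.add (.pp [(1, 603756000000)]) (.mul (.g 10) (.mul (.pp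
 [(1, 40800)]) (.sq [(1, 21), (2, 39), (3, 100), (5, -31), (7, -95)])))) (.add (.mul (.g 11) (.mul
 (.pp [(1, 6000)]) (.sq [(1, 75), (2, 94), (3, 25), (5, -77), (7, 100)]))) (.mul (.g 13) (.mul (.pp
 [(1, 22800)]) (.sq [(1, -44), (2, -15), (3, 11), (5, 100), (7, -83)]))))))))) (.add (.add (.mul
 (.g 16) (.add (.pp [(1, 112104000000)]) (.add (.mul (.g 4) (.mul (.pp [(1, 3780)]) (.sq [(1,
 -100), (2, 64), (3, 10), (5, 10), (7, 99)]))) (.mul (.g 16) (.mul (.pp [(1, 33600)]) (.sq [(1, 4),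
 (2, 100), (3, -92), (5, -29), (7, -45)])))))) (.add (.mul (.g 0) (.pp [(1, 4000000000000)])) (.mul
 (.g 1) (.pp [(1, 1200000000)])))) (.add (.mul (.g 3) (.pp [(1, 378871200000)])) (.add (.mul (.g
 12) (.mul (.g 12) (.mul (.pp [(1, 63)]) (.sq [(1, 64), (2, -24), (3, 85), (5, 28), (7, -100)]))))
 (.mul (.g 15) (.pp [(1, 4000000000000)])))))) (.pp [(1, 203432226912), (2, 115113936), (3,
 116642640), (4, 101308752), (5, 114959328), (6, 166444080), (7, 123194400), (8, 109403520), (9,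
 115062825), (10, 152993952), (12, 143142960), (14, 125137440), (15, 88766040), (16, 108932400),
 (18, 82728600), (20, 158569200), (21, 99892200), (23, 12000000000000), (24, 128515200), (25,
 105819168), (27, 121789800), (28, 94219680), (30, 67584480), (35, 118782000), (36, 123142800),
 (40, 140426400), (42, 88572960), (45, 134460600), (49, 122763420), (50, 79103760), (54,
 118545600), (56, 115768800), (60, 121473600), (63, 160041600), (70, 157569600), (75, 144217920),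
 (81, 121646400), (84, 111511200), (90, 110650800), (98, 104610960), (100, 108572400), (105,
 143787600), (125, 128627520), (126, 155877600), (135, 135099600), (140, 152622000), (147,
 123757380), (150, 139762800), (175, 121646400), (189, 91552800), (196, 113407200), (210,
 142572000), (225, 144415200), (245, 112230000), (250, 136311600), (294, 133414800), (315,
 88825200), (343, 120163380), (350, 108446400), (375, 129478800), (441, 105616800), (490,
 115564800), (525, 109648800), (625, 117757200), (686, 126685200), (735, 136922400), (875,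
 125588400), (1029, 109212000), (1225, 131642400), (1715, 119857200), (2401, 117386400)]))))))
 (.split [(1, -7), (3, 50)]
 (.split [(1, -17), (5, 25)]
 (.rule 7 (.rule 10 (.rule 4 (.leaf 2850000000 (.add (.add (.add (.add (.mul (.pp [(1, 15000000)])
 (.sq [(1, -133), (2, -680), (3, 950)])) (.mul (.pp [(1, 60000000)]) (.sq [(1, -323), (2, -70), (5,
 475)]))) (.add (.mul (.g 7) (.add (.add (.add (.mul (.pp [(1, 5700000000)]) (.sq [(1, 27), (3,
 50), (5, -50)])) (.add (.mul (.g 9) (.add (.add (.mul (.pp [(1, 308392800)]) (.sq [(1, 25), (2,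
 25), (3, 20), (5, -24), (7, -21)])) (.mul (.g 6) (.add (.add (.pp [(1, 18935400000)]) (.mul (.g 7)
 (.pp [(1, 30029025000)]))) (.add (.mul (.g 8) (.pp [(1, 25752600000)])) (.add (.mul (.g 9) (.pp
 [(1, 1469175000)])) (.mul (.g 10) (.pp [(1, 33910725000)]))))))) (.add (.mul (.g 9) (.add (.mul
 (.g 5) (.pp [(1, 2234400000)])) (.mul (.g 12) (.pp [(1, 319399500000)])))) (.add (.mul (.g 18)
 (.add (.pp [(1, 344964000000)]) (.mul (.g 10) (.pp [(1, 575472000000)])))) (.mul (.g 4) (.pp [(1,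
 1671240000)])))))) (.mul (.g 10) (.add (.add (.mul (.pp [(1, 419103900)]) (.sq [(1, -57), (2, 8),
 (3, -8), (7, 100)])) (.add (.mul (.pp [(1, 42442200)]) (.sq [(1, -5), (2, 100), (3, 90), (5, 39),
 (7, -4)])) (.mul (.g 7) (.add (.mul (.g 7) (.pp [(1, 796974000000)])) (.mul (.g 10) (.pp [(1,
 20350881000000)])))))) (.add (.add (.mul (.g 4) (.pp [(1, 510991890000)])) (.mul (.g 6) (.pp [(1,
 1453998750000)]))) (.add (.mul (.g 10) (.mul (.g 10) (.pp [(1, 402192000000)]))) (.mul (.g 18)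
 (.pp [(1, 25760950500000)])))))))) (.add (.mul (.g 8) (.add (.mul (.g 8) (.add (.mul (.g 5) (.pp
 [(1, 37198200000)])) (.add (.mul (.g 6) (.pp [(1, 29820975000)])) (.mul (.g 18) (.pp [(1,
 74755500000)]))))) (.add (.mul (.g 4) (.pp [(1, 3528300000)])) (.mul (.g 6) (.mul (.g 7) (.pp [(1,
 17605875000)])))))) (.add (.mul (.g 4) (.add (.pp [(1, 14962500000)]) (.add (.mul (.pp [(1,
 741342)]) (.sq [(2, 100), (3, 80), (5, -95), (7, -84)])) (.mul (.g 7) (.pp [(1, 12993720000)])))))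
 (.mul (.g 6) (.add (.pp [(1, 145445475000)]) (.mul (.g 7) (.mul (.g 7) (.pp [(1,
 78731250000)])))))))) (.add (.add (.mul (.g 3) (.mul (.pp [(1, 8216664)]) (.sq [(2, 41), (3, 50),
 (5, 14), (7, 8)]))) (.add (.mul (.g 7) (.mul (.g 7) (.pp [(1, 3596842500000)]))) (.mul (.g 12)
 (.pp [(1, 221274000000)])))) (.add (.mul (.g 14) (.mul (.pp [(1, 2196495)]) (.sq [(2, 13), (3,
 23), (5, -48), (7, 100)]))) (.add (.mul (.g 16) (.mul (.g 16) (.pp [(1, 161965500000)]))) (.mul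
 (.g 18) (.pp [(1, 502426500000)]))))))) (.mul (.g 6) (.add (.mul (.pp [(1, 285000000)]) (.sq [(1,
 -7), (3, 50)])) (.mul (.pp [(1, 1140000000)]) (.sq [(1, -17), (5, 25)])))))) (.add (.add (.mul (.g
 0) (.pp [(1, 9500000000000)])) (.mul (.g 1) (.pp [(1, 22800000000)]))) (.add (.mul (.g 2) (.pp
 [(1, 5700000000)])) (.mul (.g 17) (.pp [(1, 9500000000000)]))))) (.pp [(2, 56876025000), (4,
 291540000), (6, 273600000), (8, 268666023), (10, 258780000), (12, 261445890), (14, 290853900),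
 (16, 299153100), (18, 291779295), (20, 274871784), (24, 292427100), (28, 288357528), (30,
 285665760), (36, 314736900), (40, 281027100), (42, 267291240), (50, 292710618), (54, 278142900),
 (56, 299090400), (60, 283255800), (70, 280789752), (84, 272779200), (90, 279602100), (98,
 277916496), (100, 276108000), (126, 255314400), (140, 279710400), (150, 297500100), (196,
 305520000), (210, 303012000), (250, 289104000), (294, 280166400), (350, 299193000), (490,
 267079200), (686, 289924800)]))))))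
 (.rule 7 (.rule 4 (.leaf 300000000 (.add (.add (.add (.mul (.pp [(1, 600000000)]) (.sq [(1, -7),
 (3, 50), (10, -50)])) (.mul (.g 6) (.add (.add (.add (.mul (.g 6) (.add (.add (.mul (.g 2) (.add
 (.pp [(1, 27562920000)]) (.add (.mul (.g 7) (.pp [(1, 457320000)])) (.mul (.g 8) (.pp [(1,
 39852720000)]))))) (.mul (.g 5) (.add (.mul (.g 6) (.pp [(1, 7704150000)])) (.add (.mul (.g 7)
 (.pp [(1, 687900000)])) (.mul (.g 8) (.pp [(1, 636450000)])))))) (.add (.mul (.g 6) (.add (.pp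
 [(1, 357729000000)]) (.mul (.g 9) (.pp [(1, 90144000000)])))) (.add (.mul (.g 7) (.pp [(1,
 7350000000)])) (.mul (.g 9) (.mul (.g 9) (.pp [(1, 2112279000000)]))))))) (.mul (.g 8) (.add (.add
 (.mul (.pp [(1, 1363200)]) (.sq [(1, 82), (2, 89), (3, 68), (5, -58), (7, -100)])) (.mul (.g 2)
 (.add (.pp [(1, 683400000)]) (.mul (.g 12) (.pp [(1, 514920000)]))))) (.add (.mul (.g 5) (.add
 (.mul (.g 8) (.pp [(1, 25239900000)])) (.mul (.g 9) (.pp [(1, 1324950000)])))) (.add (.mul (.g 17)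
 (.add (.pp [(1, 17106000000)]) (.mul (.g 9) (.pp [(1, 34518000000)])))) (.mul (.g 4) (.mul (.g 8)
 (.pp [(1, 404400000)])))))))) (.add (.mul (.g 9) (.add (.add (.mul (.pp [(1, 41890800)]) (.sq [(1,
 -57), (2, 9), (3, -6), (7, 100)])) (.add (.mul (.pp [(1, 15298800)]) (.sq [(1, -2), (2, 43), (3,
 50), (5, 20), (7, -2)])) (.mul (.g 3) (.pp [(1, 54408120000)])))) (.add (.mul (.g 5) (.pp [(1,
 153634650000)])) (.add (.mul (.g 9) (.mul (.g 9) (.pp [(1, 64602000000)]))) (.mul (.g 17) (.pp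
 [(1, 2748291000000)])))))) (.mul (.g 7) (.add (.mul (.g 7) (.add (.mul (.g 4) (.pp [(1,
 4078200000)])) (.add (.mul (.g 5) (.pp [(1, 2491500000)])) (.mul (.g 17) (.pp [(1,
 5508000000)]))))) (.mul (.g 2) (.pp [(1, 289680000)])))))) (.add (.add (.mul (.g 3) (.add (.pp
 [(1, 1276380000)]) (.add (.mul (.pp [(1, 62436)]) (.sq [(2, 89), (3, 68), (5, -58), (7, -100)]))
 (.mul (.g 4) (.pp [(1, 52392000)]))))) (.mul (.g 13) (.add (.mul (.pp [(1, 61965)]) (.sq [(2,
 100), (3, 93), (5, 47), (7, 1)])) (.mul (.pp [(1, 110400)]) (.sq [(2, -5), (3, -18), (5, 50), (7,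
 -100)]))))) (.add (.mul (.g 2) (.pp [(1, 18316800000)])) (.mul (.g 17) (.pp [(1,
 78465000000)]))))))) (.add (.mul (.g 0) (.pp [(1, 1000000000000)])) (.add (.mul (.g 1) (.pp [(1,
 600000000)])) (.mul (.g 16) (.pp [(1, 1000000000000)]))))) (.pp [(2, 9284292000), (4, 30360000),
 (6, 28920000), (8, 30428892), (10, 30043200), (12, 29526408), (14, 31785600), (16, 31200000), (18,
 30172413), (20, 29996952), (23, 3000000000000), (24, 30442200), (28, 29965800), (30, 31289694),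
 (36, 29410500), (40, 28312800), (42, 28235010), (50, 31187493), (54, 29699100), (56, 31224000),
 (60, 28011000), (70, 29659590), (84, 30856200), (90, 27663300), (98, 30807285), (100, 28870500),
 (126, 30101400), (140, 30658200), (150, 29012100), (196, 30192900), (210, 31236000), (250,
 29581500), (294, 29480700), (350, 30865800), (490, 28664700), (686, 28804800)]))))))
 (.rule 4 (.leaf 1500000 (.add (.add (.mul (.g 4) (.add (.add (.add (.mul (.g 3) (.add (.add (.mul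
 (.g 5) (.add (.add (.pp [(1, 569296500)]) (.mul (.g 5) (.pp [(1, 7500)]))) (.add (.mul (.g 6) (.pp
 [(1, 7500)])) (.mul (.g 7) (.pp [(1, 15000)]))))) (.mul (.g 6) (.add (.mul (.g 4) (.pp [(1,
 7500)])) (.add (.mul (.g 6) (.pp [(1, 7500)])) (.mul (.g 7) (.pp [(1, 7500)])))))) (.add (.mul (.g
 4) (.mul (.g 4) (.pp [(1, 41632500)]))) (.mul (.g 7) (.pp [(1, 657004500)]))))) (.mul (.g 15)
 (.add (.add (.mul (.g 6) (.add (.pp [(1, 300000)]) (.mul (.g 6) (.pp [(1, 150000)])))) (.mul (.g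
 7) (.add (.pp [(1, 13202010000)]) (.mul (.g 10) (.pp [(1, 150000)]))))) (.add (.mul (.g 1) (.pp
 [(1, 262018500)])) (.add (.mul (.g 2) (.pp [(1, 20154000)])) (.mul (.g 4) (.pp [(1,
 2268000000)]))))))) (.add (.mul (.g 1) (.add (.add (.mul (.g 5) (.add (.mul (.g 5) (.pp [(1,
 3000)])) (.mul (.g 6) (.pp [(1, 3000)])))) (.mul (.g 1) (.pp [(1, 195762)]))) (.add (.mul (.g 4)
 (.mul (.g 4) (.pp [(1, 3000)]))) (.mul (.g 6) (.mul (.g 6) (.pp [(1, 5226000)])))))) (.mul (.g 4)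
 (.add (.mul (.g 4) (.add (.pp [(1, 1702695000)]) (.mul (.g 7) (.pp [(1, 590805000)])))) (.add
 (.mul (.g 7) (.mul (.g 7) (.pp [(1, 10572915000)]))) (.mul (.g 9) (.pp [(1, 37500000)])))))))
 (.add (.add (.mul (.g 5) (.add (.mul (.g 13) (.add (.pp [(1, 748650000)]) (.mul (.g 13) (.pp [(1,
 261300000)])))) (.mul (.g 9) (.pp [(1, 13691280000)])))) (.mul (.g 9) (.add (.pp [(1, 37350000)])
 (.mul (.g 6) (.pp [(1, 37335000)]))))) (.add (.mul (.g 7) (.mul (.pp [(1, 241785)]) (.sq [(1,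
 -62), (2, 5), (7, 100)]))) (.mul (.g 13) (.mul (.g 13) (.mul (.g 13) (.pp [(1, 150000)]))))))))
 (.add (.mul (.g 0) (.pp [(1, 5000000000)])) (.mul (.g 14) (.pp [(1, 5000000000)])))) (.pp [(2,
 3816162), (4, 150000), (6, 143400), (8, 151500), (10, 165000), (12, 150000), (14, 155460), (16,
 150000), (18, 151500), (19, 15000000000), (20, 157500), (23, 15000000000), (24, 150000), (28,
 146700), (30, 136500), (36, 150000), (40, 150000), (42, 150000), (50, 145500), (54, 150000), (56,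
 150375), (60, 150000), (70, 142500), (84, 150000), (90, 150000), (98, 144000), (100, 150000),
 (126, 150000), (140, 150000), (150, 150000), (196, 150000), (210, 150000), (250, 150000), (294,
 150000), (350, 150000), (490, 150000), (686, 150000)]))))))
 (.split [(1, -3), (3, 5)]
 (.split [(1, -17), (5, 25)]
 (.split [(2, 1), (3, -1)]
 (.split [(2, 1), (5, -1)]
 (.rule 0 (.rule 2 (.cut 1 [(1, 3), (3, -2)] (.add (.add (.mul (.g 3) (.pp [(1, 2)])) (.mul (.g 11)
 (.pp [(1, 3)]))) (.add (.mul (.g 9) (.pp [(1, 1)])) (.mul (.g 2) (.pp [(1, 1)])))) (.rule 8 (.rule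
 10 (.leaf 300000000 (.add (.add (.add (.add (.mul (.g 13) (.add (.add (.add (.mul (.pp [(1,
 19215000)]) (.sq [(2, -8), (5, 3), (7, 100)])) (.mul (.g 11) (.add (.add (.mul (.pp [(1,
 20128200)]) (.sq [(2, 1), (3, 23), (5, 24), (7, 100)])) (.mul (.g 5) (.add (.mul (.g 11) (.pp [(1,
 338745000000)])) (.add (.mul (.g 12) (.pp [(1, 326262000000)])) (.mul (.g 19) (.pp [(1,
 1737408000000)])))))) (.add (.mul (.g 8) (.add (.mul (.g 12) (.pp [(1, 61506000000)])) (.mul (.g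
 15) (.pp [(1, 192240600000)])))) (.add (.mul (.g 11) (.add (.mul (.g 15) (.pp [(1, 77724000000)]))
 (.mul (.g 19) (.pp [(1, 80808000000)])))) (.mul (.g 18) (.mul (.g 19) (.pp [(1,
 210033000000)])))))))) (.add (.mul (.g 12) (.add (.mul (.g 19) (.add (.add (.mul (.g 6) (.pp [(1,
 368763000000)])) (.mul (.g 8) (.pp [(1, 211409400000)]))) (.add (.mul (.g 16) (.pp [(1,
 381843000000)])) (.mul (.g 21) (.pp [(1, 130029000000)]))))) (.add (.mul (.g 18) (.add (.mul (.g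
 5) (.pp [(1, 1081206000000)])) (.mul (.g 7) (.pp [(1, 9062640000)])))) (.mul (.g 13) (.mul (.g 13)
 (.pp [(1, 73269000000)])))))) (.add (.mul (.g 21) (.add (.add (.pp [(1, 1234104000000)]) (.mul
 (.pp [(1, 2014200)]) (.sq [(1, 81), (2, 17), (3, 56), (5, 25), (7, -100)]))) (.add (.mul (.g 6)
 (.mul (.g 19) (.pp [(1, 381000000000)]))) (.mul (.g 15) (.mul (.g 21) (.pp [(1,
 14514000000)])))))) (.mul (.g 17) (.add (.pp [(1, 39431700000)]) (.mul (.pp [(1, 3382560)]) (.sq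
 [(1, -27), (2, 26), (3, 100), (5, -19), (7, -27)]))))))) (.add (.add (.mul (.g 6) (.mul (.pp [(1,
 23078100)]) (.sq [(1, -85), (2, 25), (3, -78), (5, 100), (7, 35)]))) (.mul (.g 8) (.pp [(1,
 26752200000)]))) (.add (.mul (.g 14) (.pp [(1, 160740000000)])) (.add (.mul (.g 16) (.mul (.pp
 [(1, 738000)]) (.sq [(1, 10), (2, -20), (3, 35), (5, 21), (7, 100)]))) (.mul (.g 19) (.mul (.pp
 [(1, 41106900)]) (.sq [(1, -4), (3, -23), (5, 9), (7, 100)])))))))) (.add (.mul (.g 21) (.add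
 (.add (.add (.mul (.g 5) (.add (.mul (.pp [(1, 14854200)]) (.sq [(1, 30), (2, 28), (3, 100), (5,
 -75), (7, 56)])) (.add (.mul (.pp [(1, 51749700)]) (.sq [(1, 2), (2, -85), (3, 38), (5, 29), (7,
 100)])) (.mul (.g 10) (.mul (.g 16) (.pp [(1, 466965000000)])))))) (.mul (.g 11) (.add (.mul (.g
 11) (.add (.mul (.g 7) (.pp [(1, 803400000)])) (.mul (.g 11) (.pp [(1, 11280000000)])))) (.mul (.g
 9) (.mul (.g 10) (.pp [(1, 48694650000)])))))) (.add (.mul (.g 6) (.add (.pp [(1, 3480000000)])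
 (.mul (.pp [(1, 11907900)]) (.sq [(1, -29), (2, 10), (3, -41), (5, 100), (7, -47)])))) (.mul (.g
 12) (.add (.mul (.g 9) (.mul (.g 10) (.pp [(1, 19348950000)]))) (.mul (.g 12) (.mul (.g 21) (.pp
 [(1, 101247000000)]))))))) (.add (.add (.mul (.g 14) (.mul (.pp [(1, 75702000)]) (.sq [(1, -54),
 (2, 46), (3, 28), (5, 37), (7, 100)]))) (.mul (.g 17) (.mul (.pp [(1, 1573725)]) (.sq [(1, -32),
 (3, -33), (5, 61), (7, 100)])))) (.add (.mul (.g 19) (.mul (.pp [(1, 11297700)]) (.sq [(1, 24),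
 (2, 11), (3, 100), (5, -60), (7, 40)]))) (.mul (.g 21) (.mul (.pp [(1, 2011200)]) (.sq [(1, 63),
 (2, 23), (3, 76), (5, 45), (7, 100)]))))))) (.mul (.g 14) (.add (.add (.mul (.g 14) (.add (.mul
 (.pp [(1, 23398500)]) (.sq [(1, 41), (2, -100), (3, 59), (5, 59), (7, -59)])) (.add (.mul (.g 6)
 (.add (.mul (.g 5) (.pp [(1, 269661000000)])) (.mul (.g 15) (.pp [(1, 117306000000)])))) (.mul (.g
 9) (.mul (.g 14) (.pp [(1, 1979100000)])))))) (.mul (.g 9) (.add (.mul (.g 6) (.mul (.g 9) (.pp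
 [(1, 895582500)]))) (.mul (.g 7) (.mul (.g 10) (.pp [(1, 209628000)])))))) (.add (.mul (.g 5) (.pp
 [(1, 647622000000)])) (.add (.mul (.g 8) (.pp [(1, 5533200000)])) (.mul (.g 11) (.pp [(1,
 279111000000)])))))))) (.add (.add (.mul (.g 5) (.add (.add (.mul (.g 5) (.add (.mul (.pp [(1,
 25986600)]) (.sq [(1, -26), (2, -74), (3, -95), (5, 29), (7, 100)])) (.mul (.g 12) (.pp [(1,
 1227696000000)])))) (.mul (.g 6) (.mul (.pp [(1, 6904800)]) (.sq [(1, 100), (2, -96), (3, 37), (5,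
 37), (7, -58)])))) (.add (.mul (.g 9) (.mul (.g 9) (.pp [(1, 1009905000)]))) (.add (.mul (.g 16)
 (.mul (.pp [(1, 56748600)]) (.sq [(1, 3), (2, 100), (3, 61), (5, 2), (7, -12)]))) (.mul (.g 19)
 (.pp [(1, 461097000000)])))))) (.mul (.g 6) (.add (.mul (.g 6) (.mul (.g 11) (.pp [(1,
 1202235000000)]))) (.add (.mul (.g 9) (.mul (.g 9) (.pp [(1, 33885000)]))) (.mul (.g 17) (.mul
 (.pp [(1, 331185)]) (.sq [(1, 19), (2, -100), (3, 80), (5, -82), (7, -25)]))))))) (.add (.mul (.g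
 7) (.add (.mul (.g 10) (.add (.mul (.g 7) (.mul (.g 12) (.pp [(1, 381993600)]))) (.mul (.g 10)
 (.mul (.g 10) (.pp [(1, 2316000000)]))))) (.mul (.g 15) (.mul (.pp [(1, 106944)]) (.sq [(1, 49),
 (2, 100), (3, -19), (5, -56), (7, 4)]))))) (.mul (.g 19) (.add (.mul (.g 8) (.pp [(1,
 129297600000)])) (.add (.mul (.g 17) (.mul (.pp [(1, 1762815)]) (.sq [(1, -1), (2, -20), (3, 36),
 (5, -81), (7, 100)]))) (.mul (.g 19) (.pp [(1, 566142000000)])))))))) (.add (.add (.add (.mul (.g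
 15) (.add (.mul (.g 15) (.mul (.pp [(1, 22762500)]) (.sq [(1, -13), (2, 41), (3, -59), (5, 100),
 (7, -84)]))) (.mul (.g 17) (.mul (.pp [(1, 147465)]) (.sq [(1, -14), (2, 7), (3, -42), (5, 57),
 (7, 100)]))))) (.mul (.g 0) (.pp [(1, 2400000000)]))) (.add (.mul (.g 1) (.pp [(1, 300000000)]))
 (.mul (.g 3) (.pp [(1, 1000000000000)])))) (.add (.add (.mul (.g 4) (.pp [(1, 1000000000000)]))
 (.mul (.g 8) (.mul (.g 8) (.pp [(1, 20990160000)])))) (.add (.mul (.g 16) (.mul (.g 18) (.mul (.pp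
 [(1, 3072900)]) (.sq [(1, -30), (2, 3), (3, 76), (5, -7), (7, 100)])))) (.mul (.g 20) (.pp [(1,
 1000000000000)])))))) (.pp [(1, 31445935443), (2, 29664813), (3, 31044591), (4, 32177205), (5,
 27595443), (6, 31515864), (7, 34431576), (8, 30060965), (9, 26336469), (10, 31855866), (12,
 30141255), (14, 34557906), (15, 29362554), (16, 29494800), (18, 28865448), (20, 25084965), (21,
 22255038), (24, 30017400), (25, 32560167), (27, 32552407), (28, 29812740), (30, 26146914), (35,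
 28340520), (36, 28896300), (40, 29501400), (42, 19421904), (45, 30634158), (49, 23849988), (50,
 30001323), (54, 31894800), (56, 27739200), (60, 37223700), (63, 37372671), (70, 23654076), (75,
 31302378), (81, 28912500), (84, 32941500), (90, 28846800), (98, 21278133), (100, 30691800), (105,
 32676750), (125, 28747972), (126, 33896400), (135, 30300300), (140, 34105800), (147, 32486907),
 (150, 27126900), (175, 30853119), (189, 28265400), (196, 31749600), (210, 31745400), (225,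
 28366800), (245, 29659272), (250, 29900100), (294, 32606100), (315, 27552000), (343, 31886160),
 (350, 31678800), (375, 30476400), (441, 35968800), (490, 30335100), (525, 26981100), (625,
 30533400), (686, 32574600), (735, 33150900), (875, 29613900), (1029, 34116600), (1225, 30139800),
 (1715, 33384000), (2401, 30000000)]))))))))
 (.rule 0 (.rule 3 (.cut 2 [(1, 3), (3, -2)] (.add (.mul (.g 3) (.pp [(1, 9)])) (.add (.mul (.g 11)
 (.pp [(1, 9)])) (.mul (.g 5) (.pp [(1, 1)])))) (.rule 8 (.rule 10 (.leaf 3000000 (.add (.add (.add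
 (.add (.mul (.g 6) (.add (.add (.mul (.g 6) (.add (.add (.pp [(1, 5944050000)]) (.add (.mul (.pp
 [(1, 66912)]) (.sq [(1, -29), (2, -30), (3, 55), (5, -7), (7, 100)])) (.mul (.pp [(1, 121860)])
 (.sq [(1, 100), (2, -63), (3, 86), (7, -47)])))) (.add (.add (.mul (.g 12) (.add (.mul (.g 12)
 (.pp [(1, 5213160000)])) (.mul (.g 19) (.pp [(1, 7472490000)])))) (.mul (.g 5) (.mul (.g 10) (.pp
 [(1, 74490000)])))) (.add (.mul (.g 8) (.mul (.g 18) (.pp [(1, 718392000)]))) (.mul (.g 11) (.pp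
 [(1, 4476960000)])))))) (.add (.mul (.g 21) (.add (.add (.pp [(1, 6974130000)]) (.mul (.pp [(1,
 468780)]) (.sq [(1, 6), (2, -33), (3, 50), (7, 43)]))) (.add (.mul (.g 10) (.add (.mul (.g 10)
 (.pp [(1, 14007510000)])) (.mul (.g 14) (.pp [(1, 4955850000)])))) (.add (.mul (.g 11) (.mul (.g
 13) (.pp [(1, 4964340000)]))) (.mul (.g 12) (.mul (.g 12) (.pp [(1, 983580000)]))))))) (.mul (.g
 5) (.add (.mul (.g 5) (.mul (.g 13) (.pp [(1, 712350000)]))) (.add (.mul (.g 9) (.mul (.g 12) (.pp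
 [(1, 148800000)]))) (.mul (.g 10) (.mul (.g 10) (.pp [(1, 203670000)])))))))) (.add (.add (.mul
 (.g 8) (.add (.pp [(1, 2617380000)]) (.mul (.g 10) (.add (.mul (.g 10) (.pp [(1, 2961456000)]))
 (.mul (.g 12) (.pp [(1, 591000000)])))))) (.mul (.g 11) (.add (.mul (.g 7) (.mul (.g 12) (.pp [(1,
 1032000)]))) (.mul (.g 15) (.pp [(1, 519900000)]))))) (.add (.mul (.g 13) (.add (.mul (.g 9) (.mul
 (.g 13) (.pp [(1, 717195000)]))) (.mul (.g 14) (.mul (.g 14) (.pp [(1, 10282290000)]))))) (.mul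
 (.g 19) (.pp [(1, 6061860000)])))))) (.add (.mul (.g 13) (.add (.add (.mul (.g 21) (.add (.add
 (.pp [(1, 7032510000)]) (.add (.mul (.pp [(1, 44211)]) (.sq [(1, 100), (2, 45), (3, 85), (5, 85),
 (7, 69)])) (.mul (.g 11) (.add (.mul (.g 8) (.pp [(1, 505446000)])) (.mul (.g 11) (.pp [(1,
 3643830000)])))))) (.add (.mul (.g 13) (.add (.mul (.g 7) (.pp [(1, 4424400)])) (.mul (.g 13) (.pp
 [(1, 1080630000)])))) (.add (.mul (.g 10) (.mul (.g 21) (.pp [(1, 8423310000)]))) (.mul (.g 19)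
 (.mul (.g 19) (.pp [(1, 3781350000)]))))))) (.mul (.g 8) (.add (.add (.mul (.g 19) (.add (.pp [(1,
 1251984000)]) (.add (.mul (.g 5) (.pp [(1, 643170000)])) (.mul (.g 11) (.pp [(1, 51948000)])))))
 (.mul (.g 5) (.mul (.g 12) (.pp [(1, 1034022000)])))) (.add (.mul (.g 8) (.mul (.g 18) (.pp [(1,
 11670000)]))) (.mul (.g 13) (.pp [(1, 1383624000)])))))) (.add (.mul (.g 5) (.add (.mul (.g 11)
 (.mul (.g 19) (.pp [(1, 1147710000)]))) (.mul (.g 13) (.mul (.g 13) (.pp [(1, 1037010000)])))))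
 (.add (.mul (.g 14) (.add (.mul (.pp [(1, 605100)]) (.sq [(1, 7), (2, -10), (3, -14), (5, 4), (7,
 100)])) (.mul (.g 13) (.mul (.g 18) (.pp [(1, 55590000)]))))) (.mul (.g 11) (.mul (.g 19) (.mul
 (.g 19) (.pp [(1, 7324170000)])))))))) (.mul (.g 21) (.add (.add (.mul (.g 10) (.mul (.g 10) (.add
 (.mul (.g 8) (.pp [(1, 802836000)])) (.mul (.g 15) (.pp [(1, 163290000)]))))) (.add (.mul (.g 21)
 (.add (.mul (.pp [(1, 101232)]) (.sq [(1, -100), (2, 57), (3, 17), (5, 53), (7, 69)])) (.mul (.pp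
 [(1, 80883)]) (.sq [(1, 40), (2, -73), (3, 80), (5, 35), (7, -100)])))) (.mul (.g 5) (.mul (.g 7)
 (.mul (.g 11) (.pp [(1, 62727600)])))))) (.add (.mul (.g 14) (.mul (.pp [(1, 208221)]) (.sq [(1,
 -58), (2, 44), (3, 31), (5, 55), (7, 100)]))) (.add (.mul (.g 15) (.mul (.pp [(1, 14466)]) (.sq
 [(1, -11), (2, -42), (3, -36), (5, 100), (7, 83)]))) (.mul (.g 16) (.mul (.pp [(1, 68199)]) (.sq
 [(1, -63), (2, 44), (3, 61), (5, -45), (7, 100)]))))))))) (.add (.add (.mul (.g 8) (.add (.add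
 (.mul (.g 8) (.add (.pp [(1, 115261200)]) (.mul (.g 11) (.mul (.g 11) (.pp [(1, 49627200)])))))
 (.mul (.g 14) (.mul (.g 14) (.add (.mul (.g 5) (.pp [(1, 81384000)])) (.mul (.g 16) (.pp [(1,
 794490000)])))))) (.add (.mul (.g 15) (.mul (.pp [(1, 4731)]) (.sq [(1, 39), (2, 98), (3, 100),
 (5, 88), (7, 1)]))) (.mul (.g 19) (.pp [(1, 2897934000)]))))) (.mul (.g 19) (.add (.mul (.g 11)
 (.add (.mul (.pp [(1, 37962)]) (.sq [(1, 29), (2, 28), (3, 44), (5, -86), (7, -100)])) (.mul (.g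
 9) (.mul (.g 10) (.pp [(1, 656689500)]))))) (.add (.mul (.g 19) (.add (.pp [(1, 11977110000)])
 (.mul (.pp [(1, 284640)]) (.sq [(2, 12), (3, 100), (7, -99)])))) (.mul (.g 7) (.mul (.g 12) (.mul
 (.g 12) (.pp [(1, 1161600)])))))))) (.add (.mul (.g 5) (.add (.mul (.g 5) (.add (.mul (.pp [(1,
 7557)]) (.sq [(1, 5), (3, 100), (5, -16), (7, -93)])) (.add (.mul (.pp [(1, 9543)]) (.sq [(1, 24),
 (2, 69), (3, 100), (5, -53), (7, 29)])) (.mul (.g 10) (.mul (.g 14) (.pp [(1, 2234250000)]))))))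
 (.mul (.g 12) (.mul (.g 14) (.mul (.g 14) (.pp [(1, 1036020000)])))))) (.mul (.g 0) (.pp [(1,
 24000000)]))))) (.add (.add (.mul (.g 1) (.pp [(1, 3000000)])) (.add (.mul (.g 3) (.pp [(1,
 10000000000)])) (.mul (.g 4) (.pp [(1, 10000000000)])))) (.add (.add (.mul (.g 10) (.mul (.g 10)
 (.mul (.pp [(1, 56469)]) (.sq [(1, -33), (2, 72), (3, 100), (5, -62), (7, -100)])))) (.mul (.g 11)
 (.mul (.g 12) (.mul (.pp [(1, 330180)]) (.sq [(1, -36), (2, 100), (3, 18), (5, -42), (7,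
 -63)]))))) (.add (.mul (.g 14) (.mul (.g 15) (.mul (.pp [(1, 18882)]) (.sq [(1, -100), (2, 43),
 (3, 88), (5, 82), (7, 43)])))) (.mul (.g 20) (.pp [(1, 10000000000)])))))) (.pp [(1, 61170123),
 (2, 297774), (3, 301059), (4, 257361), (5, 288534), (6, 338814), (7, 309900), (8, 343440), (9,
 257373), (10, 295182), (12, 242928), (14, 328413), (15, 325824), (16, 270159), (18, 420750), (20,
 365514), (21, 216993), (24, 267702), (25, 309561), (27, 261340), (28, 305673), (30, 268530), (35,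
 213951), (36, 287841), (40, 321186), (42, 313254), (45, 279249), (49, 255393), (50, 226092), (54,
 277020), (56, 295554), (60, 321732), (63, 369966), (70, 262164), (75, 325788), (81, 307935), (84,
 361857), (90, 332550), (98, 278745), (100, 262914), (105, 374130), (125, 308313), (126, 230790),
 (135, 314721), (140, 300390), (147, 390576), (150, 342972), (175, 355356), (189, 326106), (196,
 276330), (210, 284442), (225, 252678), (245, 400761), (250, 316692), (294, 299337), (315, 296343),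
 (343, 301407), (350, 313050), (375, 294927), (441, 309198), (490, 325782), (525, 268734), (625,
 299121), (686, 298092), (735, 272397), (875, 288525), (1029, 319731), (1225, 262716), (1715,
 298908), (2401, 323019)])))))))))
 (.split [(2, 1), (5, -1)]
 (.rule 1 (.rule 2 (.cut 17 [(1, 3), (3, -2)] (.add (.add (.mul (.g 12) (.pp [(1, 34)])) (.mul (.g
 4) (.pp [(1, 1)]))) (.add (.mul (.g 9) (.pp [(1, 9)])) (.mul (.g 11) (.pp [(1, 34)])))) (.rule 8
 (.rule 10 (.leaf 300000000 (.add (.add (.add (.add (.add (.mul (.g 13) (.add (.add (.add (.mul (.g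
 13) (.add (.add (.mul (.g 13) (.add (.pp [(1, 484317000000)]) (.add (.mul (.g 5) (.pp [(1,
 30000000)])) (.mul (.g 21) (.pp [(1, 30000000)]))))) (.add (.mul (.g 18) (.add (.mul (.g 6) (.pp
 [(1, 447882000000)])) (.add (.mul (.g 8) (.pp [(1, 4248000000)])) (.mul (.g 17) (.pp [(1,
 143550000)]))))) (.mul (.g 14) (.add (.mul (.g 14) (.pp [(1, 578013000000)])) (.mul (.g 21) (.pp
 [(1, 484263000000)])))))) (.add (.mul (.g 6) (.mul (.g 6) (.pp [(1, 463899000000)]))) (.add (.mul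
 (.g 11) (.mul (.g 17) (.pp [(1, 471750000)]))) (.mul (.g 15) (.mul (.g 21) (.pp [(1,
 267000000)]))))))) (.mul (.g 10) (.add (.add (.mul (.g 14) (.add (.mul (.g 10) (.pp [(1,
 1579803000000)])) (.add (.mul (.g 14) (.pp [(1, 1496223000000)])) (.mul (.g 21) (.pp [(1,
 1106034000000)]))))) (.mul (.g 6) (.add (.mul (.g 19) (.pp [(1, 1063878000000)])) (.mul (.g 21)
 (.pp [(1, 2226000000)]))))) (.add (.mul (.g 5) (.mul (.g 18) (.pp [(1, 239859000000)]))) (.mul (.g
 11) (.mul (.g 17) (.pp [(1, 365100000)]))))))) (.add (.mul (.g 5) (.add (.add (.pp [(1,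
 625176000000)]) (.mul (.g 6) (.mul (.g 7) (.pp [(1, 944760000)])))) (.add (.mul (.g 9) (.mul (.g
 9) (.pp [(1, 853942500)]))) (.add (.mul (.g 12) (.pp [(1, 92577000000)])) (.mul (.g 18) (.pp [(1,
 8571000000)])))))) (.mul (.g 11) (.add (.mul (.g 11) (.add (.mul (.g 15) (.pp [(1, 18000000)]))
 (.mul (.g 16) (.pp [(1, 2481000000)])))) (.mul (.g 7) (.mul (.g 7) (.pp [(1, 49872000)])))))))
 (.add (.add (.mul (.g 6) (.add (.pp [(1, 503373000000)]) (.mul (.g 16) (.mul (.g 21) (.pp [(1,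
 2457000000)]))))) (.mul (.g 7) (.pp [(1, 28108920000)]))) (.add (.mul (.g 12) (.mul (.g 12) (.pp
 [(1, 390690000000)]))) (.mul (.g 21) (.pp [(1, 1068864000000)])))))) (.mul (.g 5) (.add (.add (.pp
 [(1, 1516647000000)]) (.add (.mul (.g 11) (.add (.pp [(1, 40812000000)]) (.add (.mul (.pp [(1,
 432600)]) (.sq [(1, -63), (2, -47), (3, -53), (5, 16), (7, 100)])) (.mul (.g 10) (.add (.mul (.g
 11) (.pp [(1, 783762000000)])) (.mul (.g 21) (.pp [(1, 802467000000)]))))))) (.mul (.g 5) (.add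
 (.pp [(1, 442092000000)]) (.mul (.g 12) (.pp [(1, 702048000000)])))))) (.add (.mul (.g 19) (.add
 (.pp [(1, 90981000000)]) (.mul (.pp [(1, 445500)]) (.sq [(1, 40), (2, -5), (3, 92), (5, -6), (7,
 -100)])))) (.add (.mul (.g 12) (.mul (.g 15) (.pp [(1, 294537000000)]))) (.mul (.g 16) (.mul (.pp
 [(1, 1212000)]) (.sq [(1, -2), (2, 100), (3, 4), (5, -11), (7, 52)])))))))) (.add (.mul (.g 21)
 (.add (.add (.pp [(1, 9342000000)]) (.add (.mul (.g 12) (.add (.mul (.g 10) (.mul (.g 10) (.pp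
 [(1, 643884000000)]))) (.mul (.g 12) (.pp [(1, 299523000000)])))) (.mul (.g 9) (.mul (.pp [(1,
 35295)]) (.sq [(1, 93), (2, 92), (3, 71), (5, 100), (7, 32)]))))) (.add (.mul (.g 15) (.mul (.pp
 [(1, 112500)]) (.sq [(1, 17), (2, 27), (3, 100), (5, -52), (7, -5)]))) (.add (.mul (.g 17) (.mul
 (.pp [(1, 7005)]) (.sq [(1, -30), (2, -47), (3, 100), (5, -13), (7, -44)]))) (.mul (.g 18) (.pp
 [(1, 596604000000)])))))) (.mul (.g 6) (.add (.add (.pp [(1, 165168000000)]) (.mul (.g 19) (.add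
 (.pp [(1, 1172010000000)]) (.add (.mul (.g 8) (.mul (.g 12) (.pp [(1, 243600000)]))) (.mul (.g 10)
 (.mul (.g 14) (.pp [(1, 359451000000)]))))))) (.add (.mul (.g 6) (.pp [(1, 430737000000)])) (.mul
 (.g 7) (.mul (.g 14) (.mul (.g 14) (.pp [(1, 9324000000)]))))))))) (.add (.add (.mul (.g 10) (.add
 (.mul (.g 10) (.add (.mul (.g 10) (.add (.mul (.g 14) (.pp [(1, 317229000000)])) (.mul (.g 18)
 (.pp [(1, 140121000000)])))) (.mul (.g 7) (.mul (.g 19) (.pp [(1, 1265280000)]))))) (.mul (.g 11)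
 (.mul (.g 11) (.mul (.g 11) (.pp [(1, 465000000)])))))) (.mul (.g 12) (.add (.mul (.g 12) (.mul
 (.g 12) (.add (.mul (.g 14) (.pp [(1, 3012000000)])) (.mul (.g 18) (.pp [(1, 582000000)])))))
 (.mul (.g 14) (.mul (.g 17) (.pp [(1, 45559950000)])))))) (.add (.mul (.g 7) (.add (.mul (.g 9)
 (.mul (.g 9) (.mul (.g 9) (.pp [(1, 1919745)])))) (.mul (.g 19) (.mul (.pp [(1, 6492)]) (.sq [(1,
 69), (2, -27), (3, 74), (5, -100), (7, -74)]))))) (.mul (.g 8) (.add (.mul (.g 9) (.mul (.g 11)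
 (.pp [(1, 540750000)]))) (.mul (.g 18) (.mul (.pp [(1, 53940)]) (.sq [(1, 17), (2, -18), (3, -25),
 (5, 30), (7, 100)])))))))) (.add (.add (.add (.mul (.g 15) (.add (.mul (.g 16) (.mul (.pp [(1,
 88800)]) (.sq [(1, -14), (2, -31), (3, 4), (5, 4), (7, 50)]))) (.mul (.g 19) (.mul (.pp [(1,
 172500)]) (.sq [(1, 34), (2, -75), (3, 93), (5, -100), (7, -6)]))))) (.mul (.g 0) (.pp [(1,
 2400000000)]))) (.add (.mul (.g 1) (.pp [(1, 300000000)])) (.mul (.g 3) (.pp [(1,
 1000000000000)])))) (.add (.add (.mul (.g 4) (.pp [(1, 1000000000000)])) (.mul (.g 11) (.mul (.g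
 17) (.mul (.pp [(1, 14430)]) (.sq [(1, 2), (2, -12), (3, -38), (5, 1), (7, 100)]))))) (.add (.mul
 (.g 14) (.mul (.g 14) (.mul (.pp [(1, 16290300)]) (.sq [(1, -12), (2, 100), (3, 41), (5, 56), (7,
 -37)])))) (.mul (.g 20) (.pp [(1, 1000000000000)])))))) (.pp [(1, 31677854574), (2, 29889336), (3,
 26084583), (4, 31009521), (5, 31786521), (6, 34268076), (7, 27529617), (8, 27936000), (9,
 29088849), (10, 35812554), (12, 24024915), (14, 27812784), (15, 31892712), (16, 31336800), (18,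
 27903360), (20, 31823844), (21, 33883242), (24, 30658200), (25, 26745705), (27, 30568485), (28,
 32160015), (30, 30112674), (35, 25795548), (36, 29200500), (40, 32994000), (42, 28574640), (45,
 30813216), (49, 31617624), (50, 29579700), (54, 29837700), (56, 28009200), (60, 30228900), (63,
 29590425), (70, 27486066), (75, 29311965), (81, 29244900), (84, 29338800), (90, 27038100), (98,
 31792620), (100, 26970300), (105, 28423248), (125, 29982700), (126, 32228100), (135, 30681300),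
 (140, 28631400), (147, 28608720), (150, 29584500), (175, 35208195), (189, 30000000), (196,
 29337900), (210, 25460400), (225, 29753400), (245, 29368356), (250, 30660000), (294, 26990700),
 (315, 28676400), (343, 27615300), (350, 28562100), (375, 30905100), (441, 30041100), (490,
 31528200), (525, 32015700), (625, 30034800), (686, 28420500), (735, 30853500), (875, 28908900),
 (1029, 31421100), (1225, 28567200), (1715, 31421100), (2401, 30000000)]))))))))
 (.rule 1 (.rule 3 (.cut 1 [(1, 3), (3, -2)] (.add (.add (.mul (.g 7) (.pp [(1, 1)])) (.mul (.g 12)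
 (.pp [(1, 2)]))) (.add (.mul (.g 2) (.pp [(1, 2)])) (.mul (.g 11) (.pp [(1, 1)])))) (.rule 8
 (.rule 10 (.leaf 150000000 (.add (.add (.add (.add (.mul (.g 13) (.add (.add (.mul (.pp [(1,
 4502400)]) (.sq [(1, -42), (2, -18), (3, -43), (5, 54), (7, 100)])) (.add (.mul (.g 21) (.add
 (.add (.mul (.pp [(1, 2678850)]) (.sq [(1, -42), (2, -36), (3, -41), (5, -46), (7, 100)])) (.add
 (.mul (.g 13) (.add (.mul (.g 8) (.pp [(1, 25253700000)])) (.add (.mul (.g 13) (.pp [(1,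
 4141500000)])) (.mul (.g 14) (.pp [(1, 175269000000)]))))) (.mul (.g 10) (.add (.pp [(1,
 391452000000)]) (.mul (.g 14) (.pp [(1, 939283500000)])))))) (.add (.add (.mul (.g 11) (.add (.mul
 (.g 8) (.pp [(1, 15574800000)])) (.mul (.g 11) (.pp [(1, 38064000000)])))) (.mul (.g 21) (.add
 (.pp [(1, 133411500000)]) (.mul (.g 16) (.pp [(1, 14952000000)]))))) (.add (.mul (.g 7) (.mul (.g
 12) (.pp [(1, 8156160000)]))) (.mul (.g 19) (.pp [(1, 34701000000)])))))) (.mul (.g 19) (.add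
 (.add (.mul (.g 6) (.add (.mul (.g 10) (.pp [(1, 668671500000)])) (.mul (.g 12) (.pp [(1,
 318250500000)])))) (.mul (.g 7) (.add (.mul (.g 7) (.pp [(1, 227301600)])) (.mul (.g 13) (.pp [(1,
 3861960000)]))))) (.add (.mul (.g 5) (.mul (.g 14) (.pp [(1, 39930000000)]))) (.mul (.g 8) (.mul
 (.g 12) (.pp [(1, 128020500000)])))))))) (.add (.add (.mul (.g 6) (.add (.mul (.pp [(1, 5836650)])
 (.sq [(1, 65), (2, 100), (3, 88), (5, 20), (7, -16)])) (.add (.mul (.g 6) (.mul (.g 7) (.pp [(1,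
 311700000)]))) (.mul (.g 9) (.mul (.g 12) (.pp [(1, 29578425000)])))))) (.mul (.g 8) (.mul (.g 18)
 (.add (.mul (.g 11) (.pp [(1, 33228600000)])) (.mul (.g 13) (.pp [(1, 20771700000)])))))) (.add
 (.mul (.g 14) (.add (.mul (.g 7) (.mul (.g 9) (.pp [(1, 46809000)]))) (.mul (.g 12) (.mul (.g 15)
 (.pp [(1, 109698000000)]))))) (.mul (.g 5) (.mul (.g 13) (.mul (.g 15) (.pp [(1,
 35169000000)])))))))) (.add (.mul (.g 15) (.add (.add (.add (.mul (.g 7) (.add (.mul (.pp [(1,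
 1123152)]) (.sq [(1, 36), (2, 26), (3, -22), (5, -50), (7, 33)])) (.mul (.pp [(1, 274704)]) (.sq
 [(1, 12), (2, 63), (3, 100), (5, 46), (7, -53)])))) (.mul (.g 8) (.add (.pp [(1, 204415500000)])
 (.mul (.pp [(1, 6758460)]) (.sq [(1, -2), (2, -80), (3, -100), (5, 72), (7, 87)]))))) (.add (.mul
 (.g 15) (.add (.pp [(1, 355570500000)]) (.mul (.pp [(1, 2097150)]) (.sq [(1, 97), (2, -40), (3,
 100), (5, -11), (7, -91)])))) (.add (.mul (.g 18) (.add (.mul (.pp [(1, 643084800)]) (.sq [(1,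
 -2), (2, 4), (3, 19), (5, -25), (7, -1)])) (.mul (.pp [(1, 28155600)]) (.sq [(1, 28), (2, -28),
 (3, -66), (5, 27), (7, 100)])))) (.mul (.g 21) (.add (.mul (.pp [(1, 963150)]) (.sq [(1, 68), (2,
 55), (3, 35), (5, 68), (7, 100)])) (.mul (.pp [(1, 1339200)]) (.sq [(1, 100), (2, -69), (3, -85),
 (5, -85), (7, -45)]))))))) (.add (.add (.mul (.g 5) (.mul (.pp [(1, 1926450)]) (.sq [(1, 44), (2,
 100), (3, 48), (5, -65), (7, 39)]))) (.mul (.g 9) (.mul (.g 9) (.pp [(1, 466552500)])))) (.add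
 (.mul (.g 14) (.mul (.pp [(1, 12183000)]) (.sq [(1, -93), (2, 100), (3, 72), (5, 72), (7, 23)])))
 (.add (.mul (.g 16) (.mul (.pp [(1, 5917650)]) (.sq [(1, -68), (2, 16), (3, -5), (5, 59), (7,
 -100)]))) (.mul (.g 19) (.pp [(1, 448291500000)]))))))) (.mul (.g 8) (.add (.add (.mul (.g 8)
 (.add (.mul (.g 8) (.add (.mul (.g 9) (.pp [(1, 175159800)])) (.mul (.g 10) (.pp [(1,
 4743156000)])))) (.add (.mul (.g 9) (.mul (.g 12) (.pp [(1, 118143000)]))) (.mul (.g 10) (.mul (.g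
 21) (.pp [(1, 39620640000)])))))) (.mul (.g 5) (.mul (.g 5) (.add (.mul (.g 5) (.pp [(1,
 10267800000)])) (.mul (.g 18) (.pp [(1, 4529400000)])))))) (.add (.mul (.g 6) (.add (.mul (.g 6)
 (.mul (.g 14) (.pp [(1, 40576200000)]))) (.mul (.g 11) (.mul (.g 12) (.pp [(1, 32844300000)])))))
 (.mul (.g 19) (.add (.pp [(1, 36885000000)]) (.mul (.g 10) (.mul (.g 11) (.pp [(1,
 68211000000)])))))))))) (.add (.add (.mul (.g 6) (.add (.mul (.g 6) (.add (.add (.pp [(1,
 151510500000)]) (.mul (.pp [(1, 190336800)]) (.sq [(1, 11), (2, 20), (7, 25)]))) (.add (.mul (.pp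
 [(1, 2003250)]) (.sq [(1, 50), (2, 100), (3, 75), (5, 98), (7, -9)])) (.mul (.g 11) (.add (.mul
 (.g 9) (.pp [(1, 25730700000)])) (.mul (.g 18) (.pp [(1, 106576500000)]))))))) (.mul (.g 9) (.mul
 (.g 14) (.mul (.g 14) (.pp [(1, 3909150000)])))))) (.mul (.g 21) (.add (.mul (.g 7) (.add (.mul
 (.pp [(1, 1218894)]) (.sq [(1, -22), (2, -7), (3, -53), (5, 100), (7, -74)])) (.mul (.g 9) (.mul
 (.g 9) (.pp [(1, 18255900)]))))) (.add (.mul (.g 19) (.mul (.pp [(1, 7031250)]) (.sq [(1, 54), (2,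
 -69), (3, 61), (5, -86), (7, 100)]))) (.mul (.g 21) (.mul (.pp [(1, 8308050)]) (.sq [(1, -100),
 (2, 75), (3, 44), (5, 44), (7, 61)]))))))) (.add (.mul (.g 11) (.add (.mul (.g 5) (.mul (.pp [(1,
 19736400)]) (.sq [(1, -29), (2, 20), (3, -48), (5, 50), (7, 49)]))) (.add (.mul (.g 14) (.mul (.pp
 [(1, 13705800)]) (.sq [(1, -69), (2, 100), (3, -94), (5, 74), (7, 50)]))) (.mul (.g 18) (.mul (.pp
 [(1, 2054850)]) (.sq [(1, -34), (2, 54), (3, -71), (5, 46), (7, 100)])))))) (.mul (.g 9) (.add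
 (.mul (.g 7) (.mul (.g 7) (.pp [(1, 4198800)]))) (.mul (.g 14) (.mul (.pp [(1, 753540)]) (.sq [(1,
 -1), (3, 100), (5, -96)])))))))) (.add (.add (.mul (.g 16) (.add (.mul (.g 16) (.mul (.pp [(1,
 5283450)]) (.sq [(1, -70), (2, 59), (3, -88), (5, 100), (7, 61)]))) (.mul (.g 17) (.mul (.pp [(1,
 301815)]) (.sq [(1, -54), (2, -57), (3, 4), (5, 100), (7, 88)]))))) (.add (.mul (.g 0) (.pp [(1,
 1200000000)])) (.mul (.g 1) (.pp [(1, 150000000)])))) (.add (.add (.mul (.g 3) (.pp [(1,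
 500000000000)])) (.mul (.g 4) (.pp [(1, 500000000000)]))) (.add (.mul (.g 12) (.mul (.g 14) (.mul
 (.g 19) (.mul (.g 19) (.pp [(1, 20920500000)]))))) (.mul (.g 20) (.pp [(1, 500000000000)]))))))
 (.pp [(1, 367699998), (2, 15663024), (3, 17467632), (4, 16788882), (5, 15358596), (6, 13776396),
 (7, 15655704), (8, 14186411), (9, 12656088), (10, 14038776), (12, 16341951), (14, 12297222), (15,
 11451504), (16, 16130250), (18, 12489516), (20, 14581917), (21, 16070982), (24, 12530250), (25,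
 15374316), (27, 17239572), (28, 12450858), (30, 14051208), (35, 14541984), (36, 19995150), (40,
 14317500), (42, 17220588), (45, 17952504), (49, 14870268), (50, 17378040), (54, 12475050), (56,
 15276450), (60, 14302350), (63, 14334564), (70, 19635012), (75, 12969942), (81, 15171300), (84,
 9887550), (90, 11889600), (98, 14319690), (100, 16899000), (105, 14156736), (125, 13491492), (126,
 20461650), (135, 16862550), (140, 16554150), (147, 12147072), (150, 15004950), (175, 13056528),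
 (189, 14222400), (196, 15660750), (210, 14859600), (225, 15452550), (245, 18726582), (250,
 12335700), (294, 13300950), (315, 14673450), (343, 13377852), (350, 12030300), (375, 17390550),
 (441, 15156450), (490, 14685900), (525, 15684300), (625, 16177350), (686, 14184900), (735,
 16707750), (875, 17256000), (1029, 16247100), (1225, 13270050), (1715, 15676200), (2401,
 15745950)]))))))))))
 (.rule 5 (.rule 6 (.cut 1 [(1, 3), (3, -2)] (.add (.add (.mul (.g 10) (.pp [(1, 1)])) (.mul (.g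
 13) (.pp [(1, 1)]))) (.add (.mul (.g 7) (.pp [(1, 1)])) (.mul (.g 9) (.pp [(1, 1)])))) (.rule 8
 (.leaf 1500000000 (.add (.add (.add (.add (.mul (.g 10) (.add (.add (.add (.mul (.g 8) (.add (.add
 (.mul (.g 5) (.add (.pp [(1, 601350000000)]) (.add (.mul (.g 9) (.pp [(1, 717864000000)])) (.mul
 (.g 12) (.pp [(1, 38121000000)]))))) (.mul (.g 18) (.add (.mul (.g 8) (.pp [(1, 959925000000)]))
 (.add (.mul (.g 10) (.pp [(1, 6318330000000)])) (.mul (.g 18) (.pp [(1, 6317910000000)]))))))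
 (.add (.mul (.g 9) (.add (.mul (.g 4) (.pp [(1, 164255400000)])) (.mul (.g 10) (.pp [(1,
 716385000000)])))) (.mul (.g 8) (.mul (.g 12) (.pp [(1, 4869615000000)])))))) (.mul (.g 9) (.add
 (.mul (.g 4) (.add (.mul (.g 4) (.pp [(1, 2969352000)])) (.mul (.g 9) (.pp [(1, 135874200000)]))))
 (.add (.mul (.g 10) (.add (.mul (.g 9) (.pp [(1, 821280000000)])) (.mul (.g 10) (.pp [(1,
 960195000000)])))) (.mul (.g 6) (.mul (.g 14) (.pp [(1, 4167225000)]))))))) (.add (.mul (.g 18)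
 (.add (.mul (.pp [(1, 28500)]) (.sq [(1, -48), (2, 29), (3, 100), (5, 18), (7, -72)])) (.add (.mul
 (.g 7) (.add (.pp [(1, 4943820000000)]) (.add (.mul (.g 11) (.pp [(1, 8933565000000)])) (.mul (.g
 13) (.pp [(1, 2288940000000)]))))) (.mul (.g 10) (.pp [(1, 1446690000000)]))))) (.mul (.g 11)
 (.add (.mul (.pp [(1, 220086000)]) (.sq [(1, -20), (2, 11), (3, 100), (5, -3), (7, -47)])) (.add
 (.mul (.g 6) (.mul (.g 16) (.pp [(1, 78902250000)]))) (.mul (.g 15) (.mul (.g 15) (.pp [(1,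
 2688285000000)])))))))) (.add (.add (.mul (.g 5) (.add (.pp [(1, 1017957000000)]) (.mul (.g 10)
 (.mul (.g 15) (.pp [(1, 1118883000000)]))))) (.mul (.g 4) (.mul (.g 4) (.mul (.g 13) (.pp [(1,
 1835064000)]))))) (.add (.mul (.g 7) (.mul (.g 10) (.mul (.g 10) (.pp [(1, 2903895000000)]))))
 (.mul (.g 16) (.mul (.pp [(1, 96042000)]) (.sq [(1, 2), (2, -45), (3, -4), (5, -11), (7,
 100)]))))))) (.add (.mul (.g 4) (.add (.add (.mul (.g 9) (.add (.add (.pp [(1, 16640400000)])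
 (.mul (.pp [(1, 116580)]) (.sq [(1, 61), (2, 74), (3, -56), (5, 100), (7, 59)]))) (.add (.mul (.g
 8) (.add (.mul (.g 8) (.pp [(1, 35266800000)])) (.add (.mul (.g 9) (.pp [(1, 3965400000)])) (.mul
 (.g 18) (.pp [(1, 75772800000)]))))) (.add (.mul (.g 7) (.mul (.g 15) (.pp [(1, 171000000)])))
 (.mul (.g 9) (.mul (.g 18) (.pp [(1, 14208000000)]))))))) (.add (.mul (.g 6) (.add (.mul (.g 8)
 (.add (.mul (.g 8) (.pp [(1, 1225860000)])) (.mul (.g 13) (.pp [(1, 5233470000)])))) (.mul (.g 7)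
 (.mul (.g 11) (.pp [(1, 4910970000)]))))) (.mul (.g 14) (.add (.pp [(1, 5403000000)]) (.mul (.pp
 [(1, 67101)]) (.sq [(1, -49), (2, -27), (3, -45), (5, -73), (7, 100)])))))) (.add (.mul (.g 18)
 (.add (.mul (.g 8) (.mul (.g 8) (.pp [(1, 30215400000)]))) (.mul (.g 13) (.pp [(1,
 41759400000)])))) (.add (.mul (.g 4) (.mul (.g 7) (.mul (.g 7) (.pp [(1, 1067064000)])))) (.mul
 (.g 5) (.pp [(1, 51321840000)])))))) (.mul (.g 12) (.add (.add (.add (.mul (.g 11) (.add (.mul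
 (.pp [(1, 149946000)]) (.sq [(1, 29), (2, -25), (3, -77), (5, 8), (7, 100)])) (.mul (.g 12) (.add
 (.pp [(1, 173580000000)]) (.mul (.g 18) (.pp [(1, 877635000000)])))))) (.mul (.g 5) (.mul (.pp
 [(1, 726600)]) (.sq [(1, 36), (2, -23), (3, -100), (5, -41), (7, -78)])))) (.add (.mul (.g 6) (.pp
 [(1, 38054250000)])) (.mul (.g 7) (.mul (.g 13) (.mul (.g 18) (.pp [(1, 289890000000)])))))) (.add
 (.add (.mul (.g 8) (.mul (.pp [(1, 78418500)]) (.sq [(1, -3), (2, -42), (3, -81), (5, -3), (7,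
 100)]))) (.mul (.g 9) (.mul (.pp [(1, 12901500)]) (.sq [(1, -10), (2, -69), (3, -44), (5, 100),
 (7, -1)])))) (.add (.mul (.g 12) (.pp [(1, 2747625000000)])) (.mul (.g 16) (.mul (.pp [(1,
 28011000)]) (.sq [(1, 64), (2, -100), (3, -15), (5, -72), (7, 70)]))))))))) (.add (.mul (.g 5)
 (.add (.add (.pp [(1, 58962000000)]) (.mul (.g 7) (.add (.pp [(1, 706608000000)]) (.mul (.g 7)
 (.add (.mul (.g 5) (.pp [(1, 112443600000)])) (.add (.mul (.g 7) (.pp [(1, 97155000000)])) (.mul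
 (.g 8) (.pp [(1, 76902000000)])))))))) (.add (.mul (.g 5) (.mul (.g 8) (.mul (.g 11) (.pp [(1,
 14947800000)])))) (.mul (.g 15) (.pp [(1, 214641000000)]))))) (.add (.mul (.g 6) (.add (.mul (.g
 6) (.mul (.g 18) (.add (.mul (.g 7) (.pp [(1, 7942162500)])) (.mul (.g 8) (.pp [(1,
 8247412500)]))))) (.mul (.g 11) (.mul (.pp [(1, 6061050)]) (.sq [(1, 23), (2, -100), (3, 67), (5,
 -80), (7, 81)]))))) (.mul (.g 13) (.add (.mul (.g 13) (.mul (.pp [(1, 30753000)]) (.sq [(1, -42),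
 (2, 40), (3, -64), (5, 63), (7, 100)]))) (.add (.mul (.g 14) (.mul (.pp [(1, 3676650)]) (.sq [(1,
 -42), (2, 38), (3, -76), (5, 73), (7, 100)]))) (.mul (.g 16) (.mul (.pp [(1, 181029000)]) (.sq
 [(1, -32), (2, 22), (3, -22), (5, 43), (7, 100)]))))))))) (.add (.add (.mul (.g 14) (.add (.mul
 (.pp [(1, 24206475)]) (.sq [(2, 100), (3, -40), (5, -40), (7, -3)])) (.mul (.g 16) (.mul (.pp [(1,
 1284300)]) (.sq [(1, -19), (2, 9), (3, -1), (5, 22), (7, 50)]))))) (.add (.mul (.g 0) (.pp [(1,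
 1500000000)])) (.mul (.g 2) (.pp [(1, 5000000000000)])))) (.add (.add (.mul (.g 3) (.pp [(1,
 5000000000000)])) (.mul (.g 7) (.mul (.g 7) (.mul (.pp [(1, 405474000)]) (.sq [(1, -8), (2, 28),
 (3, 50), (5, -36), (7, -39)]))))) (.add (.mul (.g 16) (.mul (.g 16) (.mul (.pp [(1, 11734500)])
 (.sq [(1, -1), (2, 100), (3, 31), (5, -46), (7, -25)])))) (.mul (.g 17) (.pp [(1,
 5000000000000)])))))) (.pp [(1, 26600474103), (2, 145995228), (3, 171726690), (4, 151164177), (5,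
 163795737), (6, 155347050), (7, 155879100), (8, 162394660), (9, 128184975), (10, 156427116), (12,
 132122140), (14, 142356600), (15, 114801120), (16, 148182000), (18, 160310650), (20, 156828535),
 (21, 141120000), (23, 15000000000000), (24, 155031000), (25, 139496727), (27, 170334600), (28,
 135441900), (30, 146009850), (35, 138575520), (36, 168336000), (40, 137676000), (42, 169182900),
 (45, 162171915), (49, 151686225), (50, 146493580), (54, 141421500), (56, 140622000), (60,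
 150582000), (63, 143880000), (70, 148286880), (75, 159056640), (81, 142882500), (84, 135898500),
 (90, 137914500), (98, 150814650), (100, 140247000), (105, 171295080), (125, 151219665), (126,
 143604000), (135, 141651000), (140, 176115000), (147, 148551300), (150, 152905500), (175,
 167608200), (189, 155100000), (196, 155071500), (210, 150885000), (225, 160744500), (245,
 150772140), (250, 155539500), (294, 149712000), (315, 153072000), (343, 149274000), (350,
 149895000), (375, 158574000), (441, 152772000), (490, 147004500), (525, 126369000), (625,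
 150019500), (686, 155958000), (735, 147301500), (875, 140112000), (1029, 157344000), (1225,
 157147500), (1715, 151128000), (2401, 147744000)]))))))))
 (.split [(1, -7), (3, 50)]
 (.split [(1, -17), (5, 25)]
 (.split [(2, 1), (3, -1)]
 (.split [(2, 1), (5, -1)]
 (.rule 0 (.rule 2 (.rule 7 (.rule 10 (.leaf 1200000000 (.add (.add (.add (.add (.mul (.g 13) (.add
 (.add (.mul (.g 13) (.add (.add (.mul (.g 8) (.add (.mul (.g 8) (.pp [(1, 231407520000)])) (.add
 (.mul (.g 17) (.pp [(1, 94172520000)])) (.mul (.g 19) (.pp [(1, 1396903200000)]))))) (.mul (.g 21)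
 (.add (.mul (.g 5) (.pp [(1, 948648000000)])) (.add (.mul (.g 13) (.pp [(1, 973800000000)])) (.mul
 (.g 16) (.pp [(1, 1428444000000)])))))) (.add (.mul (.g 17) (.add (.pp [(1, 147152400000)]) (.mul
 (.g 14) (.pp [(1, 75456000000)])))) (.add (.mul (.g 19) (.add (.mul (.g 5) (.pp [(1,
 757152000000)])) (.mul (.g 16) (.pp [(1, 317520000000)])))) (.mul (.g 6) (.mul (.g 7) (.pp [(1,
 1945804800)]))))))) (.add (.mul (.g 21) (.add (.add (.pp [(1, 4178184000000)]) (.mul (.g 11) (.add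
 (.mul (.g 6) (.pp [(1, 105440160000)])) (.mul (.g 21) (.pp [(1, 2439936000000)]))))) (.add (.mul
 (.g 5) (.mul (.g 14) (.pp [(1, 333372000000)]))) (.add (.mul (.g 8) (.mul (.g 19) (.pp [(1,
 181401600000)]))) (.mul (.g 18) (.mul (.g 21) (.pp [(1, 3935688000000)]))))))) (.mul (.g 11) (.add
 (.mul (.pp [(1, 30795600)]) (.sq [(1, -60), (2, -100), (3, -62), (5, 34), (7, 95)])) (.add (.mul
 (.g 7) (.mul (.g 10) (.pp [(1, 1476960000)]))) (.mul (.g 11) (.mul (.g 11) (.pp [(1,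
 617568000000)])))))))) (.add (.add (.mul (.g 19) (.add (.pp [(1, 471132000000)]) (.mul (.g 10)
 (.mul (.g 12) (.pp [(1, 29424000000)]))))) (.mul (.g 4) (.pp [(1, 8445936000000)]))) (.add (.mul
 (.g 5) (.mul (.pp [(1, 1063248000)]) (.sq [(1, -45), (2, 22), (3, 4), (5, 22), (7, 50)]))) (.mul
 (.g 17) (.pp [(1, 237901200000)])))))) (.add (.mul (.g 4) (.add (.add (.add (.mul (.g 8) (.add
 (.pp [(1, 928809600000)]) (.add (.mul (.g 11) (.add (.mul (.g 12) (.pp [(1, 1335832800000)]))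
 (.mul (.g 19) (.pp [(1, 391533600000)])))) (.mul (.g 8) (.mul (.g 12) (.pp [(1,
 171228000000)])))))) (.mul (.g 4) (.add (.mul (.pp [(1, 13650000)]) (.sq [(1, -3), (2, 72), (3,
 97), (5, -26), (7, -100)])) (.mul (.g 12) (.pp [(1, 6082020000000)]))))) (.add (.mul (.g 11) (.mul
 (.pp [(1, 81387600)]) (.sq [(1, -11), (2, -43), (3, -100), (5, -99), (7, 76)]))) (.mul (.g 14)
 (.pp [(1, 147876000000)])))) (.add (.add (.mul (.g 15) (.mul (.pp [(1, 315400800)]) (.sq [(1,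
 -10), (2, 33), (3, 100), (5, 36), (7, -69)]))) (.mul (.g 16) (.mul (.pp [(1, 240638400)]) (.sq
 [(1, -7), (2, 49), (3, 100), (5, 53), (7, -56)])))) (.add (.mul (.g 18) (.mul (.pp [(1,
 67982400)]) (.sq [(1, -1), (2, -71), (3, -16), (5, 17), (7, 100)]))) (.add (.mul (.g 19) (.pp [(1,
 1971564000000)])) (.mul (.g 21) (.mul (.pp [(1, 9900000)]) (.sq [(1, -1), (2, 100), (3, -77), (5,
 -24), (7, -100)])))))))) (.mul (.g 21) (.add (.add (.add (.mul (.g 10) (.add (.mul (.g 9) (.add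
 (.mul (.g 11) (.pp [(1, 180886200000)])) (.mul (.g 12) (.pp [(1, 99626400000)])))) (.mul (.g 10)
 (.mul (.g 21) (.pp [(1, 193392000000)]))))) (.mul (.g 5) (.mul (.pp [(1, 311593200)]) (.sq [(1,
 -39), (2, -58), (3, 23), (5, 41), (7, 100)])))) (.add (.mul (.g 6) (.pp [(1, 15851520000)])) (.mul
 (.g 8) (.pp [(1, 147938400000)])))) (.add (.add (.mul (.g 12) (.mul (.g 12) (.mul (.g 12) (.pp
 [(1, 199896000000)])))) (.mul (.g 14) (.mul (.pp [(1, 18895200)]) (.sq [(1, -54), (2, 46), (3,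
 28), (5, 37), (7, 100)])))) (.add (.mul (.g 17) (.mul (.pp [(1, 2180100)]) (.sq [(1, -30), (2, 1),
 (3, 100), (5, 5), (7, -70)]))) (.add (.mul (.g 19) (.mul (.pp [(1, 46072800)]) (.sq [(1, 16), (2,
 3), (3, 100), (5, -87), (7, -32)]))) (.mul (.g 21) (.mul (.pp [(1, 204511200)]) (.sq [(1, -100),
 (2, 57), (3, 17), (5, 53), (7, 69)])))))))))) (.add (.add (.mul (.g 17) (.add (.add (.mul (.g 5)
 (.add (.mul (.pp [(1, 6579300)]) (.sq [(1, 100), (2, 92), (3, -62), (5, -33), (7, -17)])) (.mul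
 (.pp [(1, 4219560)]) (.sq [(1, -15), (2, 42), (3, 56), (5, 100), (7, -52)])))) (.add (.mul (.g 19)
 (.add (.mul (.pp [(1, 9996960)]) (.sq [(1, 12), (2, 8), (3, 100), (5, 55), (7, -50)])) (.mul (.g
 11) (.mul (.g 11) (.pp [(1, 58599000000)]))))) (.mul (.g 14) (.pp [(1, 74442000000)])))) (.add
 (.mul (.g 15) (.mul (.pp [(1, 6290760)]) (.sq [(1, -23), (2, 3), (3, 30), (5, 11), (7, 100)])))
 (.add (.mul (.g 16) (.mul (.pp [(1, 2534280)]) (.sq [(1, -11), (2, 13), (3, 98), (5, 100), (7,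
 -43)]))) (.mul (.g 17) (.mul (.pp [(1, 116601)]) (.sq [(1, 100), (2, -76), (3, 17), (5, 17), (7,
 -39)]))))))) (.mul (.g 8) (.add (.mul (.g 12) (.add (.mul (.g 8) (.add (.mul (.g 12) (.pp [(1,
 21648960000)])) (.mul (.g 19) (.pp [(1, 180924000000)])))) (.mul (.g 5) (.mul (.g 12) (.pp [(1,
 261525600000)]))))) (.add (.mul (.g 6) (.pp [(1, 35778720000)])) (.mul (.g 15) (.mul (.pp [(1,
 32795520)]) (.sq [(1, -10), (2, 8), (3, 39), (5, 100), (7, -27)]))))))) (.add (.mul (.g 19) (.add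
 (.add (.mul (.g 5) (.mul (.pp [(1, 31964400)]) (.sq [(1, -6), (2, 61), (3, -98), (5, 100), (7,
 -1)]))) (.mul (.g 7) (.mul (.g 12) (.mul (.g 16) (.pp [(1, 3600960000)]))))) (.add (.mul (.g 15)
 (.mul (.pp [(1, 223468800)]) (.sq [(1, -13), (2, 17), (3, 50), (5, 40), (7, -23)]))) (.mul (.g 19)
 (.pp [(1, 2665032000000)]))))) (.mul (.g 6) (.mul (.g 6) (.add (.pp [(1, 1052140800)]) (.mul (.g
 11) (.mul (.g 11) (.pp [(1, 6946099200)]))))))))) (.add (.add (.mul (.g 0) (.pp [(1,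
 9600000000)])) (.add (.mul (.g 1) (.pp [(1, 2400000000)])) (.mul (.g 2) (.pp [(1,
 4000000000000)])))) (.add (.add (.mul (.g 3) (.pp [(1, 4000000000000)])) (.mul (.g 5) (.mul (.g 5)
 (.mul (.pp [(1, 1338489600)]) (.sq [(1, 25), (2, -19), (3, 16), (5, 8), (7, -9)]))))) (.add (.mul
 (.g 15) (.mul (.g 18) (.mul (.pp [(1, 3335500800)]) (.sq [(2, -6), (3, 1), (5, 4), (7, 25)]))))
 (.mul (.g 20) (.pp [(1, 4000000000000)])))))) (.pp [(1, 49761114120), (2, 117178200), (3,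
 108179760), (4, 135359724), (5, 104831160), (6, 114566184), (7, 109432200), (8, 126837440), (9,
 138209511), (10, 124163424), (12, 101719260), (14, 147439032), (15, 134237502), (16, 126482400),
 (18, 114054360), (20, 110204640), (21, 119953086), (24, 96297600), (25, 122196771), (27,
 118464040), (28, 101047980), (30, 112633800), (35, 134600526), (36, 156354000), (40, 119343600),
 (42, 75330240), (45, 120297960), (49, 136663959), (50, 140963220), (54, 100441200), (56,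
 119468400), (60, 150003600), (63, 116126880), (70, 112008960), (75, 121022280), (81, 122181600),
 (84, 131194800), (90, 96187200), (98, 107870580), (100, 108177600), (105, 130833960), (125,
 114799600), (126, 137965200), (135, 138360000), (140, 105063600), (147, 112151820), (150,
 108279600), (175, 111462540), (189, 107746800), (196, 118423200), (210, 129506400), (225,
 102595200), (245, 102146880), (250, 116974800), (294, 145058400), (315, 110462400), (343,
 110343600), (350, 141566400), (375, 127678800), (441, 119445600), (490, 123206400), (525,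
 115826400), (625, 120992400), (686, 129100800), (735, 128215200), (875, 112021200), (1029,
 116588400), (1225, 119384400), (1715, 120336000), (2401, 122176800)])))))))
 (.rule 0 (.rule 3 (.rule 7 (.rule 10 (.leaf 600000000 (.add (.add (.add (.add (.add (.mul (.pp
 [(1, 197401800)]) (.sq [(1, -66), (2, -20), (3, -35), (5, 100), (7, 2)])) (.mul (.g 13) (.add
 (.add (.mul (.g 21) (.add (.add (.add (.mul (.pp [(1, 25353000)]) (.sq [(1, 73), (2, 100), (3,
 85), (5, -19), (7, -20)])) (.mul (.g 10) (.add (.add (.mul (.g 14) (.pp [(1, 1294380000000)]))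
 (.mul (.g 16) (.pp [(1, 239808000000)]))) (.add (.mul (.g 18) (.pp [(1, 516636000000)])) (.mul (.g
 21) (.pp [(1, 920352000000)])))))) (.add (.mul (.g 11) (.add (.mul (.g 4) (.pp [(1,
 352860000000)])) (.add (.mul (.g 8) (.pp [(1, 224233200000)])) (.mul (.g 11) (.pp [(1,
 1557858000000)]))))) (.mul (.g 13) (.add (.mul (.g 6) (.pp [(1, 8344320000)])) (.add (.mul (.g 17)
 (.pp [(1, 6686400000)])) (.mul (.g 21) (.pp [(1, 120000000)]))))))) (.add (.add (.mul (.g 5) (.mul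
 (.g 14) (.pp [(1, 1883280000000)]))) (.mul (.g 7) (.mul (.g 8) (.pp [(1, 1385664000)])))) (.add
 (.mul (.g 19) (.mul (.g 19) (.pp [(1, 739536000000)]))) (.mul (.g 21) (.pp [(1,
 51090000000)])))))) (.mul (.g 19) (.add (.mul (.g 17) (.add (.mul (.g 5) (.pp [(1, 45407100000)]))
 (.add (.mul (.g 7) (.pp [(1, 612552000)])) (.mul (.g 12) (.pp [(1, 324300000)]))))) (.add (.mul
 (.g 5) (.mul (.g 19) (.pp [(1, 439194000000)]))) (.mul (.g 7) (.mul (.g 11) (.pp [(1,
 19902840000)]))))))) (.add (.mul (.g 6) (.add (.mul (.g 6) (.add (.mul (.g 5) (.pp [(1,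
 521606400)])) (.mul (.g 8) (.pp [(1, 203329920)])))) (.mul (.g 4) (.mul (.g 7) (.pp [(1,
 1281388800)]))))) (.add (.mul (.g 14) (.add (.mul (.g 7) (.mul (.g 7) (.pp [(1, 247912800)])))
 (.mul (.g 9) (.mul (.g 17) (.pp [(1, 1631355000)]))))) (.mul (.g 4) (.mul (.pp [(1, 11490000)])
 (.sq [(1, 3), (2, 100), (3, 91), (5, -1), (7, -71)])))))))) (.add (.mul (.g 5) (.add (.add (.mul
 (.g 5) (.add (.add (.mul (.pp [(1, 61736400)]) (.sq [(1, 100), (2, -63), (3, 86), (7, -47)]))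
 (.mul (.pp [(1, 54975600)]) (.sq [(1, -98), (2, -58), (3, 27), (5, -8), (7, 100)]))) (.add (.mul
 (.g 7) (.add (.pp [(1, 16516800000)]) (.mul (.g 8) (.pp [(1, 1358400000)])))) (.add (.mul (.g 8)
 (.mul (.g 11) (.pp [(1, 357892800000)]))) (.mul (.g 12) (.mul (.g 12) (.pp [(1,
 486900000000)]))))))) (.add (.mul (.g 21) (.add (.add (.pp [(1, 596778000000)]) (.mul (.pp [(1,
 18645000)]) (.sq [(1, -23), (2, 41), (3, -56), (5, 100), (7, 39)]))) (.add (.mul (.pp [(1,
 2746800)]) (.sq [(1, 36), (2, 43), (3, 100), (5, 42), (7, -39)])) (.mul (.g 7) (.mul (.g 11) (.pp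
 [(1, 13761600000)])))))) (.mul (.g 11) (.add (.mul (.pp [(1, 30696600)]) (.sq [(1, 9), (2, 100),
 (3, 20), (5, 14), (7, -92)])) (.mul (.g 11) (.mul (.g 15) (.pp [(1, 476412000000)]))))))) (.add
 (.add (.mul (.g 12) (.add (.mul (.pp [(1, 19855200)]) (.sq [(1, -10), (2, 100), (3, 69), (5, -57),
 (7, -55)])) (.mul (.g 9) (.mul (.g 19) (.pp [(1, 10679400000)]))))) (.mul (.g 4) (.mul (.pp [(1,
 32544000)]) (.sq [(1, 45), (2, 26), (3, -36), (5, -100), (7, 70)])))) (.add (.mul (.g 15) (.mul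
 (.pp [(1, 27303000)]) (.sq [(1, 8), (2, 16), (3, 100), (5, 35), (7, -64)]))) (.mul (.g 17) (.mul
 (.pp [(1, 5620980)]) (.sq [(1, 21), (2, 100), (3, 5), (5, -4), (7, -43)]))))))) (.mul (.g 19)
 (.add (.add (.add (.mul (.g 6) (.mul (.g 6) (.mul (.g 12) (.pp [(1, 267340800)])))) (.mul (.g 9)
 (.mul (.pp [(1, 2130720)]) (.sq [(1, 79), (2, 75), (3, 48), (5, -100), (7, -3)])))) (.add (.mul
 (.g 10) (.mul (.g 10) (.mul (.g 10) (.pp [(1, 1134258000000)])))) (.mul (.g 11) (.mul (.g 11)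
 (.mul (.g 11) (.pp [(1, 1302252000000)])))))) (.add (.add (.mul (.g 15) (.mul (.pp [(1,
 134822400)]) (.sq [(1, 9), (2, -19), (3, 50), (5, -38), (7, 34)]))) (.mul (.g 16) (.mul (.pp [(1,
 1850400)]) (.sq [(1, 34), (2, 11), (3, 89), (5, -100), (7, 62)])))) (.add (.mul (.g 17) (.mul (.pp
 [(1, 494520)]) (.sq [(1, -3), (2, 33), (3, -41), (5, -32), (7, 50)]))) (.mul (.g 21) (.mul (.pp
 [(1, 40862400)]) (.sq [(1, -100), (2, 63), (3, 63), (5, 84), (7, 84)]))))))))) (.add (.add (.mul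
 (.g 7) (.add (.mul (.g 8) (.add (.mul (.g 7) (.mul (.g 14) (.pp [(1, 14896320)]))) (.mul (.g 8)
 (.mul (.g 9) (.pp [(1, 13195920)]))))) (.add (.mul (.g 4) (.mul (.g 12) (.mul (.g 17) (.pp [(1,
 118974000)])))) (.mul (.g 9) (.mul (.g 9) (.mul (.g 21) (.pp [(1, 1283700)]))))))) (.mul (.g 6)
 (.add (.mul (.g 6) (.add (.mul (.g 8) (.pp [(1, 43802880)])) (.mul (.g 14) (.mul (.g 18) (.pp [(1,
 321619200)]))))) (.mul (.g 4) (.mul (.g 11) (.mul (.g 21) (.pp [(1, 52673040000)]))))))) (.add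
 (.mul (.g 10) (.add (.mul (.pp [(1, 16729800)]) (.sq [(1, -15), (2, 100), (3, 72), (5, -47), (7,
 -40)])) (.mul (.g 21) (.mul (.pp [(1, 169159200)]) (.sq [(1, -25), (2, 50), (3, 28), (5, -14), (7,
 -26)]))))) (.add (.mul (.g 14) (.mul (.g 15) (.add (.mul (.pp [(1, 942600)]) (.sq [(1, 65), (2,
 -88), (3, -43), (5, -26), (7, 100)])) (.mul (.pp [(1, 1612800)]) (.sq [(1, -100), (2, 43), (3,
 88), (5, 82), (7, 43)]))))) (.mul (.g 16) (.add (.mul (.g 16) (.mul (.pp [(1, 10778400)]) (.sq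
 [(1, -20), (2, -51), (3, 100), (5, 5), (7, 15)]))) (.mul (.g 17) (.mul (.pp [(1, 268020)]) (.sq
 [(1, -100), (2, 74), (3, -53), (5, 9), (7, 73)]))))))))) (.add (.add (.add (.mul (.g 0) (.pp [(1,
 4800000000)])) (.mul (.g 1) (.pp [(1, 1200000000)]))) (.add (.mul (.g 2) (.pp [(1,
 2000000000000)])) (.add (.mul (.g 3) (.pp [(1, 2000000000000)])) (.mul (.g 4) (.mul (.g 4) (.mul
 (.g 4) (.mul (.g 11) (.pp [(1, 283350000000)])))))))) (.add (.add (.mul (.g 9) (.mul (.g 9) (.mul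
 (.pp [(1, 80175)]) (.sq [(1, -11), (2, 100), (3, 22), (5, -21), (7, -67)])))) (.mul (.g 12) (.mul
 (.pp [(1, 35394000)]) (.sq [(1, -53), (2, -21), (3, -54), (5, 100), (7, -4)])))) (.add (.mul (.g
 17) (.mul (.g 17) (.mul (.pp [(1, 2367)]) (.sq [(1, -100), (2, 94), (3, -23), (5, 17), (7,
 100)])))) (.add (.mul (.g 20) (.pp [(1, 2000000000000)])) (.mul (.g 21) (.mul (.g 21) (.mul (.pp
 [(1, 2092200)]) (.sq [(1, -100), (2, 57), (3, 17), (5, 53), (7, 69)]))))))))) (.pp [(1,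
 3014406405), (2, 61586820), (3, 72686940), (4, 59647548), (5, 71000070), (6, 44045868), (7,
 69005430), (8, 60912600), (9, 49106277), (10, 54105228), (12, 50862600), (14, 64001280), (15,
 43798134), (16, 63954000), (18, 84636600), (20, 56395800), (21, 40944660), (24, 55205400), (25,
 46751682), (27, 60018800), (28, 66965280), (30, 91077720), (35, 47117430), (36, 69629400), (40,
 59356800), (42, 66208560), (45, 60529380), (49, 40226505), (50, 70796700), (54, 45100200), (56,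
 48946200), (60, 60852000), (63, 57323160), (70, 40529880), (75, 62431260), (81, 65916600), (84,
 80022600), (90, 48216600), (98, 67730160), (100, 64531800), (105, 92007360), (125, 65992140),
 (126, 40374000), (135, 65920800), (140, 69652800), (147, 71000040), (150, 45877200), (175,
 73066320), (189, 63669000), (196, 58235400), (210, 47076000), (225, 59990400), (245, 76907940),
 (250, 54591000), (294, 48099000), (315, 62394000), (343, 66382800), (350, 63421200), (375,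
 62886600), (441, 62840400), (490, 58156800), (525, 49354200), (625, 58946400), (686, 60391800),
 (735, 52957200), (875, 56811600), (1029, 61842600), (1225, 55206000), (1715, 55744800), (2401,
 60235800)]))))))))
 (.rule 1 (.cut 575 [(2, -1), (5, 1)] (.add (.add (.mul (.g 4) (.pp [(1, 135)])) (.mul (.g 1) (.pp
 [(1, 575)]))) (.add (.mul (.g 2) (.pp [(1, 23)])) (.mul (.g 3) (.pp [(1, 2)])))) (.rule 3 (.rule 7
 (.rule 10 (.leaf 600000000 (.add (.add (.add (.add (.add (.mul (.pp [(1, 9415800)]) (.sq [(1,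
 -47), (2, -97), (3, 100), (5, 46)])) (.mul (.pp [(1, 68629800)]) (.sq [(1, -59), (2, 10), (3,
 -84), (5, 100), (7, 5)]))) (.add (.mul (.pp [(1, 3366000)]) (.sq [(1, 19), (2, 5), (3, 100), (5,
 -80), (7, 17)])) (.mul (.g 13) (.add (.add (.mul (.g 21) (.add (.add (.mul (.g 10) (.add (.add
 (.pp [(1, 1978350000000)]) (.mul (.g 5) (.pp [(1, 1805172000000)]))) (.add (.mul (.g 14) (.pp [(1,
 2618826000000)])) (.mul (.g 21) (.pp [(1, 980238000000)]))))) (.add (.mul (.g 12) (.add (.mul (.g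
 17) (.pp [(1, 476100000)])) (.mul (.g 21) (.pp [(1, 1326000000)])))) (.mul (.g 13) (.add (.mul (.g
 13) (.pp [(1, 60000000)])) (.mul (.g 14) (.pp [(1, 576000000)])))))) (.add (.mul (.g 7) (.pp [(1,
 2048520000)])) (.add (.mul (.g 9) (.pp [(1, 7791900000)])) (.mul (.g 14) (.mul (.g 19) (.pp [(1,
 83142000000)]))))))) (.mul (.g 5) (.add (.mul (.g 6) (.add (.mul (.g 11) (.pp [(1, 13241520000)]))
 (.add (.mul (.g 13) (.pp [(1, 2317920000)])) (.mul (.g 14) (.pp [(1, 19760880000)]))))) (.add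
 (.mul (.g 9) (.add (.pp [(1, 102445500000)]) (.add (.mul (.g 11) (.pp [(1, 53550300000)])) (.mul
 (.g 16) (.pp [(1, 30268200000)]))))) (.mul (.g 7) (.mul (.g 7) (.pp [(1, 293683200)]))))))) (.add
 (.mul (.g 7) (.add (.mul (.g 8) (.add (.mul (.g 11) (.pp [(1, 2856432000)])) (.mul (.g 13) (.pp
 [(1, 627192000)])))) (.add (.mul (.g 6) (.mul (.g 14) (.pp [(1, 298416000)]))) (.mul (.g 11) (.mul
 (.g 13) (.pp [(1, 4152120000)])))))) (.add (.mul (.g 6) (.add (.mul (.g 6) (.mul (.g 10) (.pp [(1,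
 177283200)]))) (.mul (.g 9) (.mul (.g 13) (.pp [(1, 301452000)]))))) (.mul (.g 8) (.mul (.g 9)
 (.mul (.g 9) (.pp [(1, 427062000)])))))))))) (.add (.add (.mul (.g 6) (.add (.add (.mul (.g 6)
 (.add (.add (.pp [(1, 568963200)]) (.mul (.g 12) (.add (.pp [(1, 367180800)]) (.add (.mul (.g 18)
 (.pp [(1, 24355200)])) (.mul (.g 19) (.pp [(1, 19910400)])))))) (.add (.mul (.g 8) (.pp [(1,
 988692480)])) (.add (.mul (.g 10) (.pp [(1, 753744000)])) (.mul (.g 14) (.mul (.g 14) (.pp [(1,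
 23020800)]))))))) (.mul (.g 5) (.add (.mul (.g 5) (.pp [(1, 41537040000)])) (.mul (.g 14) (.mul
 (.g 14) (.pp [(1, 1419360000)])))))) (.add (.mul (.g 7) (.mul (.g 8) (.mul (.g 12) (.pp [(1,
 64909440)])))) (.mul (.g 21) (.mul (.pp [(1, 453912)]) (.sq [(1, -5), (2, 100), (3, -53), (5, 7),
 (7, -10)])))))) (.mul (.g 9) (.add (.add (.mul (.pp [(1, 519660)]) (.sq [(1, -37), (2, 100), (3,
 82), (5, -30), (7, 2)])) (.add (.mul (.g 8) (.add (.mul (.g 5) (.mul (.g 5) (.pp [(1,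
 3473640000)]))) (.mul (.g 7) (.mul (.g 8) (.pp [(1, 41960880)]))))) (.mul (.g 9) (.add (.mul (.g
 9) (.mul (.g 9) (.pp [(1, 742275)]))) (.mul (.g 15) (.pp [(1, 4281150000)])))))) (.add (.mul (.g
 15) (.mul (.pp [(1, 420570)]) (.sq [(1, -69), (2, -27), (3, -95), (5, 49), (7, 100)]))) (.add
 (.mul (.g 16) (.mul (.pp [(1, 919230)]) (.sq [(1, 5), (2, 100), (3, -6), (5, -52), (7, 6)])))
 (.mul (.g 21) (.mul (.pp [(1, 2255250)]) (.sq [(1, -49), (2, 100), (3, 83), (5, -30), (7,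
 18)])))))))) (.add (.mul (.g 21) (.add (.add (.mul (.pp [(1, 2183400)]) (.sq [(1, -42), (2, 27),
 (3, -100), (5, 83), (7, -7)])) (.add (.mul (.pp [(1, 29931600)]) (.sq [(1, -35), (2, -99), (3,
 100), (5, 28)])) (.mul (.g 12) (.add (.mul (.pp [(1, 10995000)]) (.sq [(1, -35), (2, -100), (3,
 100), (5, 29), (7, -4)])) (.mul (.pp [(1, 1590600)]) (.sq [(1, -4), (2, 100), (3, -62), (5, 1),
 (7, -7)])))))) (.add (.mul (.g 5) (.mul (.g 7) (.mul (.g 8) (.pp [(1, 974448000)])))) (.add (.mul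
 (.g 14) (.mul (.pp [(1, 26130600)]) (.sq [(1, -36), (2, -81), (3, 100), (5, 29), (7, 6)]))) (.mul
 (.g 19) (.mul (.pp [(1, 1107600)]) (.sq [(1, 42), (2, 45), (3, 94), (5, -100), (7, 1)])))))))
 (.add (.mul (.g 5) (.add (.mul (.g 5) (.add (.mul (.g 5) (.add (.mul (.g 10) (.pp [(1,
 352050000000)])) (.mul (.g 12) (.pp [(1, 123930000000)])))) (.mul (.g 7) (.mul (.g 14) (.pp [(1,
 12251160000)]))))) (.mul (.g 7) (.mul (.g 8) (.pp [(1, 1760952000)]))))) (.mul (.g 15) (.add (.mul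
 (.pp [(1, 29219400)]) (.sq [(1, 20), (2, 48), (3, 100), (5, -68), (7, -29)])) (.add (.mul (.g 15)
 (.add (.mul (.pp [(1, 8575200)]) (.sq [(1, 18), (2, -17), (3, 50), (5, 16), (7, -17)])) (.mul (.pp
 [(1, 6888600)]) (.sq [(1, 63), (2, 100), (3, 14), (5, -13), (7, -21)])))) (.mul (.g 11) (.mul (.pp
 [(1, 106586400)]) (.sq [(1, -3), (2, 28), (3, 50), (5, -21), (7, 23)])))))))))) (.add (.add (.add
 (.mul (.g 19) (.add (.mul (.pp [(1, 60404400)]) (.sq [(1, 22), (2, -4), (3, 100), (5, -60), (7,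
 23)])) (.add (.mul (.g 11) (.mul (.g 11) (.mul (.g 19) (.pp [(1, 205056000000)])))) (.mul (.g 14)
 (.mul (.pp [(1, 8818800)]) (.sq [(1, 35), (2, 7), (3, 100), (5, -76), (7, 15)])))))) (.mul (.g 12)
 (.add (.mul (.pp [(1, 150080400)]) (.sq [(1, -36), (2, -93), (3, 100), (5, 32)])) (.mul (.g 12)
 (.mul (.pp [(1, 5114400)]) (.sq [(1, -42), (2, -97), (3, 100), (5, 42), (7, -1)])))))) (.add (.mul
 (.g 0) (.pp [(1, 4800000000)])) (.mul (.g 1) (.pp [(1, 1200000000)])))) (.add (.add (.mul (.g 2)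
 (.pp [(1, 2000000000000)])) (.mul (.g 4) (.pp [(1, 2000000000000)]))) (.add (.mul (.g 11) (.mul
 (.pp [(1, 339816000)]) (.sq [(1, 19), (3, 50), (5, -45), (7, 12)]))) (.add (.mul (.g 14) (.mul (.g
 17) (.mul (.pp [(1, 47730)]) (.sq [(1, -42), (2, -83), (3, -9), (5, 100), (7, -28)])))) (.mul (.g
 20) (.pp [(1, 2000000000000)]))))))) (.pp [(1, 776602365), (2, 66833400), (3, 57340290), (4,
 69632640), (5, 53558280), (6, 49607640), (7, 58292910), (8, 69416000), (9, 71242326), (10,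
 51473220), (12, 45311190), (14, 58303920), (15, 57674052), (16, 59617200), (18, 69702900), (20,
 50616450), (21, 62242980), (24, 57597000), (25, 69588606), (27, 40142844), (28, 47651040), (30,
 65166300), (35, 66841920), (36, 64431600), (40, 50847600), (42, 61856880), (45, 59629218), (49,
 57696720), (50, 62222070), (54, 54718200), (56, 64887000), (60, 75794400), (63, 48492414), (70,
 66652320), (75, 63825474), (81, 65834400), (84, 55099200), (90, 53774400), (98, 59606640), (100,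
 66721200), (105, 61737048), (125, 51610350), (126, 65118600), (135, 68842200), (140, 61095600),
 (147, 57934440), (150, 50311200), (175, 54079584), (189, 65056800), (196, 62277000), (210,
 64905600), (225, 60411000), (245, 56951640), (250, 58673400), (294, 58904400), (315, 63227400),
 (343, 62444400), (350, 59914200), (375, 62351400), (441, 60100200), (490, 57568800), (525,
 54518400), (625, 62773800), (686, 59318400), (735, 66606600), (875, 61770600), (1029, 60000000),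
 (1225, 60499800), (1715, 61531800), (2401, 60000000)])))))))))
 (.split [(2, 1), (3, -1)]
 (.split [(2, 1), (5, -1)]
 (.rule 0 (.rule 2 (.rule 7 (.leaf 1500000000 (.add (.add (.add (.add (.mul (.g 12) (.add (.add
 (.add (.mul (.g 10) (.add (.add (.mul (.g 5) (.add (.mul (.g 3) (.pp [(1, 333013200000)])) (.add
 (.mul (.g 7) (.pp [(1, 17647320000)])) (.mul (.g 11) (.pp [(1, 54612000000)]))))) (.mul (.g 7)
 (.add (.mul (.g 7) (.pp [(1, 30496800000)])) (.mul (.g 12) (.pp [(1, 277407000000)]))))) (.add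
 (.mul (.g 6) (.mul (.g 11) (.pp [(1, 4037400000)]))) (.add (.mul (.g 10) (.mul (.g 16) (.pp [(1,
 18837000000)]))) (.mul (.g 20) (.mul (.g 20) (.pp [(1, 115155000000)]))))))) (.mul (.g 12) (.add
 (.mul (.g 15) (.add (.mul (.g 5) (.pp [(1, 66652800000)])) (.mul (.g 12) (.pp [(1,
 2307360000000)])))) (.add (.mul (.g 16) (.add (.pp [(1, 171383250000)]) (.mul (.g 13) (.pp [(1,
 123868500000)])))) (.mul (.g 4) (.mul (.g 8) (.pp [(1, 33533250000)]))))))) (.add (.mul (.g 7)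
 (.add (.mul (.g 3) (.pp [(1, 145575000000)])) (.add (.mul (.g 5) (.mul (.g 18) (.pp [(1,
 9109920000)]))) (.mul (.g 7) (.pp [(1, 162833400000)]))))) (.mul (.g 20) (.add (.pp [(1,
 5427075000000)]) (.add (.mul (.pp [(1, 15000)]) (.sq [(1, 90), (2, -1), (3, 83), (5, -23), (7,
 -100)])) (.mul (.g 20) (.pp [(1, 93615000000)]))))))) (.add (.add (.mul (.g 3) (.pp [(1,
 6963600000000)])) (.mul (.g 13) (.mul (.pp [(1, 135963000)]) (.sq [(1, -1), (2, 100), (3, 17), (5,
 68), (7, -99)])))) (.add (.mul (.g 14) (.mul (.pp [(1, 259459500)]) (.sq [(1, -5), (3, -12), (5,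
 -30), (7, 100)]))) (.mul (.g 16) (.pp [(1, 162406500000)])))))) (.add (.mul (.g 3) (.add (.add
 (.pp [(1, 1140705000000)]) (.add (.mul (.g 10) (.add (.add (.pp [(1, 1854525000000)]) (.mul (.pp
 [(1, 117357000)]) (.sq [(1, -57), (2, -24), (3, -46), (5, 42), (7, 100)]))) (.add (.mul (.g 10)
 (.add (.mul (.g 10) (.pp [(1, 1232850000000)])) (.mul (.g 11) (.pp [(1, 1033620000000)])))) (.mul
 (.g 9) (.mul (.g 11) (.pp [(1, 1897410000000)])))))) (.mul (.g 3) (.add (.mul (.pp [(1,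
 11694000)]) (.sq [(1, -34), (2, -52), (3, -68), (5, 27), (7, 100)])) (.mul (.g 11) (.pp [(1,
 6611460000000)])))))) (.add (.add (.mul (.g 9) (.mul (.g 15) (.add (.pp [(1, 286785000000)]) (.mul
 (.g 20) (.pp [(1, 1591590000000)]))))) (.mul (.g 13) (.add (.pp [(1, 920490000000)]) (.mul (.g 13)
 (.mul (.g 14) (.pp [(1, 485100000000)])))))) (.add (.mul (.g 5) (.pp [(1, 81340800000)])) (.mul
 (.g 18) (.mul (.pp [(1, 132112500)]) (.sq [(1, 16), (2, 41), (3, 87), (5, -14), (7, -100)])))))))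
 (.mul (.g 20) (.add (.add (.mul (.g 13) (.add (.pp [(1, 55575000000)]) (.add (.mul (.pp [(1,
 9849000)]) (.sq [(1, -21), (2, 27), (3, -43), (5, 80), (7, 100)])) (.mul (.pp [(1, 365185500)])
 (.sq [(1, -54), (2, 46), (3, 28), (5, 37), (7, 100)]))))) (.mul (.g 6) (.add (.mul (.pp [(1,
 250260)]) (.sq [(1, 97), (2, -71), (3, -100), (5, -23), (7, -96)])) (.mul (.g 10) (.mul (.g 10)
 (.pp [(1, 6569400000)])))))) (.add (.mul (.g 9) (.add (.mul (.g 8) (.mul (.g 10) (.pp [(1,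
 206511750000)]))) (.mul (.g 9) (.mul (.g 11) (.pp [(1, 768885000000)]))))) (.add (.mul (.g 14)
 (.add (.mul (.pp [(1, 74166000)]) (.sq [(1, -45), (2, -100), (3, 12), (5, 98), (7, 49)])) (.mul
 (.pp [(1, 22911000)]) (.sq [(1, 15), (2, 87), (3, 13), (5, 100), (7, -69)])))) (.mul (.g 7) (.pp
 [(1, 153645000000)])))))))) (.add (.add (.mul (.g 5) (.add (.add (.mul (.g 15) (.add (.mul (.pp
 [(1, 194340)]) (.sq [(1, 16), (2, 35), (3, 82), (5, 100), (7, -30)])) (.mul (.pp [(1, 1164900)])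
 (.sq [(1, 62), (2, 100), (3, -13), (5, -43), (7, 15)])))) (.mul (.g 16) (.add (.pp [(1,
 11651880000)]) (.mul (.pp [(1, 201414)]) (.sq [(1, -13), (2, 18), (3, 32), (5, 34), (7, 100)])))))
 (.add (.mul (.g 4) (.pp [(1, 24210600000)])) (.add (.mul (.g 5) (.mul (.g 18) (.mul (.g 18) (.pp
 [(1, 449664000)])))) (.mul (.g 8) (.pp [(1, 9437670000)])))))) (.mul (.g 4) (.add (.add (.mul (.g
 4) (.add (.mul (.pp [(1, 1818888000)]) (.sq [(1, 25), (2, -19), (3, 16), (5, 8), (7, -9)])) (.mul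
 (.g 15) (.pp [(1, 3030030000000)])))) (.mul (.g 11) (.mul (.g 11) (.mul (.g 11) (.pp [(1,
 231930000000)]))))) (.add (.mul (.g 13) (.mul (.pp [(1, 91962000)]) (.sq [(1, 81), (2, -100), (3,
 -44), (5, -29), (7, 95)]))) (.mul (.g 14) (.mul (.pp [(1, 110170500)]) (.sq [(1, 12), (2, 83), (3,
 32), (5, 65), (7, -100)]))))))) (.add (.mul (.g 7) (.add (.mul (.g 6) (.mul (.pp [(1, 436194)])
 (.sq [(1, 47), (2, -7), (3, -54), (5, -9), (7, 100)]))) (.add (.mul (.g 10) (.mul (.g 11) (.mul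
 (.g 11) (.pp [(1, 446232000000)])))) (.mul (.g 18) (.mul (.pp [(1, 4234800)]) (.sq [(1, -9), (2,
 5), (3, -74), (5, 52), (7, 100)])))))) (.mul (.g 13) (.add (.mul (.g 8) (.mul (.g 8) (.mul (.g 8)
 (.pp [(1, 29737500)])))) (.add (.mul (.g 13) (.mul (.pp [(1, 6877500)]) (.sq [(1, 41), (2, -100),
 (3, 59), (5, 59), (7, -59)]))) (.mul (.g 18) (.mul (.pp [(1, 17601000)]) (.sq [(1, 32), (2, -27),
 (3, 100), (5, -77), (7, 20)]))))))))) (.add (.add (.add (.mul (.g 15) (.add (.mul (.g 8) (.mul (.g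
 8) (.mul (.g 8) (.pp [(1, 209525625)])))) (.mul (.g 18) (.mul (.pp [(1, 70677000)]) (.sq [(1,
 -12), (2, 10), (3, 16), (5, 37), (7, 100)]))))) (.mul (.g 0) (.pp [(1, 3000000000)]))) (.add (.mul
 (.g 1) (.pp [(1, 5000000000000)])) (.mul (.g 2) (.pp [(1, 5000000000000)])))) (.add (.add (.mul
 (.g 6) (.mul (.g 9) (.mul (.g 9) (.mul (.g 9) (.pp [(1, 12897600000)]))))) (.mul (.g 10) (.mul (.g
 16) (.pp [(1, 201279750000)])))) (.add (.mul (.g 14) (.mul (.g 17) (.mul (.pp [(1, 39748500)])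
 (.sq [(1, 12), (2, -55), (3, -67), (5, -42), (7, 100)])))) (.mul (.g 19) (.pp [(1,
 5000000000000)])))))) (.pp [(1, 224767517244), (2, 152557767), (3, 154636947), (4, 163383474), (5,
 122917983), (6, 141283608), (7, 149532840), (8, 168436240), (9, 156586932), (10, 122242392), (12,
 93527250), (14, 163379220), (15, 172668540), (16, 146281500), (18, 171632100), (20, 70821900),
 (21, 156776580), (23, 15000000000000), (24, 152125500), (25, 185933166), (27, 137488100), (28,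
 139207380), (30, 250678140), (35, 154230660), (36, 143559000), (40, 150388500), (42, 119549160),
 (45, 130578900), (49, 162060300), (50, 194328420), (54, 161389500), (56, 156624000), (60,
 186754500), (63, 127866600), (70, 198080880), (75, 150383910), (81, 152626500), (84, 159306000),
 (90, 139617000), (98, 126130260), (100, 160821000), (105, 129840480), (125, 128089940), (126,
 146697000), (135, 137397000), (140, 163656000), (147, 156562380), (150, 118648500), (175,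
 143856720), (189, 168402000), (196, 151693500), (210, 114129000), (225, 136602000), (245,
 134581380), (250, 145578000), (294, 174459000), (315, 191682000), (343, 148700880), (350,
 129631500), (375, 137652000), (441, 142296000), (490, 164275500), (525, 152922000), (625,
 147631500), (686, 148200000), (735, 147367500), (875, 149061000), (1029, 148971000), (1225,
 152683500), (1715, 152163000), (2401, 150000000)]))))))
 (.rule 0 (.rule 3 (.rule 7 (.leaf 300000000 (.add (.add (.add (.add (.mul (.g 12) (.add (.add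
 (.mul (.pp [(1, 19196100)]) (.sq [(1, -44), (2, -53), (3, -57), (5, -4), (7, 100)])) (.add (.mul
 (.g 5) (.add (.add (.mul (.g 10) (.add (.mul (.g 3) (.pp [(1, 11185320000)])) (.add (.mul (.g 10)
 (.pp [(1, 36039360000)])) (.mul (.g 11) (.pp [(1, 16444440000)]))))) (.mul (.g 4) (.add (.mul (.g
 11) (.pp [(1, 7749720000)])) (.mul (.g 18) (.pp [(1, 6684720000)]))))) (.add (.mul (.g 6) (.add
 (.mul (.g 12) (.pp [(1, 448404000)])) (.mul (.g 20) (.pp [(1, 350071200)])))) (.add (.mul (.g 11)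
 (.mul (.g 20) (.pp [(1, 110760000)]))) (.mul (.g 12) (.mul (.g 12) (.pp [(1, 1200000)])))))))
 (.mul (.g 6) (.add (.add (.mul (.g 6) (.add (.mul (.g 11) (.pp [(1, 212024400)])) (.mul (.g 13)
 (.pp [(1, 189206400)])))) (.mul (.g 12) (.add (.mul (.g 3) (.pp [(1, 5135100000)])) (.mul (.g 16)
 (.pp [(1, 377796000)]))))) (.add (.mul (.g 4) (.mul (.g 17) (.pp [(1, 8655420000)]))) (.mul (.g
 20) (.pp [(1, 515700000)]))))))) (.add (.add (.mul (.g 20) (.add (.mul (.g 8) (.add (.pp [(1,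
 7439100000)]) (.mul (.g 13) (.pp [(1, 94935000000)])))) (.add (.mul (.g 9) (.add (.mul (.g 15)
 (.pp [(1, 507585000000)])) (.mul (.g 20) (.pp [(1, 291528000000)])))) (.mul (.g 12) (.mul (.g 12)
 (.pp [(1, 30000000)])))))) (.mul (.g 16) (.add (.mul (.g 12) (.add (.mul (.g 4) (.pp [(1,
 29476800000)])) (.mul (.g 10) (.pp [(1, 4033500000)])))) (.mul (.g 7) (.mul (.g 11) (.pp [(1,
 478770000)])))))) (.add (.mul (.g 3) (.mul (.g 9) (.mul (.g 9) (.pp [(1, 220011000000)])))) (.mul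
 (.g 4) (.mul (.g 8) (.mul (.g 8) (.pp [(1, 560580000)])))))))) (.add (.mul (.g 5) (.add (.add
 (.mul (.g 5) (.add (.add (.pp [(1, 97185600)]) (.mul (.g 3) (.add (.mul (.g 17) (.pp [(1,
 78998400)])) (.mul (.g 20) (.pp [(1, 5400000)]))))) (.add (.mul (.g 5) (.mul (.g 10) (.pp [(1,
 6265152)]))) (.mul (.g 9) (.mul (.g 9) (.pp [(1, 1836768000)])))))) (.add (.mul (.g 9) (.add (.mul
 (.g 9) (.add (.mul (.g 9) (.pp [(1, 3522000000)])) (.add (.mul (.g 10) (.pp [(1, 19434120000)]))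
 (.mul (.g 11) (.pp [(1, 35109840000)]))))) (.mul (.g 11) (.mul (.g 20) (.pp [(1,
 28476360000)]))))) (.mul (.g 10) (.add (.mul (.g 6) (.pp [(1, 417679200)])) (.add (.mul (.g 10)
 (.pp [(1, 18919080000)])) (.mul (.g 11) (.mul (.g 16) (.pp [(1, 765384000)])))))))) (.add (.mul
 (.g 3) (.mul (.g 14) (.pp [(1, 296640000)]))) (.add (.mul (.g 4) (.pp [(1, 25924320000)])) (.mul
 (.g 6) (.pp [(1, 391260000)])))))) (.mul (.g 4) (.add (.add (.mul (.pp [(1, 16965600)]) (.sq [(1,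
 -19), (2, 100), (3, 4), (5, 8), (7, -25)])) (.add (.mul (.g 4) (.add (.add (.mul (.pp [(1,
 1272900)]) (.sq [(2, 21), (3, -39), (5, 100), (7, -15)])) (.mul (.pp [(1, 51054300)]) (.sq [(1,
 100), (2, -63), (3, 86), (7, -47)]))) (.add (.mul (.pp [(1, 1797300)]) (.sq [(1, -79), (2, -45),
 (3, -60), (5, -48), (7, 100)])) (.add (.mul (.g 11) (.add (.mul (.g 11) (.pp [(1, 444633000000)]))
 (.mul (.g 18) (.pp [(1, 781605000000)])))) (.mul (.g 9) (.mul (.g 13) (.pp [(1,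
 394071000000)]))))))) (.mul (.g 8) (.mul (.pp [(1, 602925)]) (.sq [(1, -57), (2, -83), (3, -64),
 (5, -52), (7, 100)]))))) (.add (.mul (.g 11) (.mul (.g 11) (.mul (.g 20) (.pp [(1,
 703596000000)])))) (.add (.mul (.g 13) (.mul (.g 13) (.mul (.g 13) (.pp [(1, 110361000000)]))))
 (.mul (.g 16) (.pp [(1, 4029900000)])))))))) (.add (.mul (.g 6) (.add (.add (.mul (.g 10) (.add
 (.mul (.g 10) (.add (.mul (.g 7) (.pp [(1, 1544136000)])) (.mul (.g 8) (.pp [(1, 582135000)]))))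
 (.mul (.g 6) (.mul (.g 9) (.pp [(1, 252170400)]))))) (.mul (.g 3) (.mul (.g 3) (.mul (.g 11) (.pp
 [(1, 9139680000)]))))) (.add (.mul (.g 6) (.pp [(1, 36766800)])) (.add (.mul (.g 8) (.mul (.g 14)
 (.pp [(1, 379419000)]))) (.mul (.g 9) (.mul (.g 9) (.mul (.g 20) (.pp [(1, 21476040000)]))))))))
 (.add (.mul (.g 13) (.add (.mul (.g 20) (.add (.mul (.pp [(1, 1246800)]) (.sq [(1, -58), (2, 44),
 (3, 31), (5, 55), (7, 100)])) (.mul (.pp [(1, 17957400)]) (.sq [(1, 43), (2, 11), (3, -93), (5,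
 -18), (7, 100)])))) (.add (.mul (.g 3) (.mul (.pp [(1, 1139100)]) (.sq [(1, -42), (2, -5), (3,
 -33), (5, -5), (7, 100)]))) (.mul (.g 15) (.mul (.pp [(1, 3108300)]) (.sq [(1, -82), (2, 100), (3,
 26), (5, -28), (7, 85)])))))) (.mul (.g 3) (.mul (.g 11) (.add (.mul (.g 3) (.mul (.g 10) (.pp
 [(1, 76731000000)]))) (.mul (.g 15) (.mul (.g 16) (.pp [(1, 48450000)]))))))))) (.add (.add (.mul
 (.g 20) (.add (.mul (.g 7) (.pp [(1, 388200000)])) (.mul (.g 8) (.mul (.g 8) (.mul (.g 10) (.pp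
 [(1, 252682500)])))))) (.add (.mul (.g 0) (.pp [(1, 600000000)])) (.mul (.g 1) (.pp [(1,
 1000000000000)])))) (.add (.add (.mul (.g 2) (.pp [(1, 1000000000000)])) (.mul (.g 9) (.mul (.g 9)
 (.mul (.pp [(1, 1688100)]) (.sq [(1, 39), (2, 100), (3, 76), (5, 46), (7, -78)]))))) (.add (.mul
 (.g 16) (.mul (.g 18) (.mul (.pp [(1, 23610)]) (.sq [(1, 7), (2, 100), (3, -31), (5, -46), (7,
 77)])))) (.mul (.g 19) (.pp [(1, 1000000000000)])))))) (.pp [(1, 4864139610), (2, 29366325), (3,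
 28389939), (4, 33491850), (5, 31839630), (6, 28771350), (7, 28081620), (8, 28046025), (9,
 28725690), (10, 26787600), (12, 32217075), (14, 33799200), (15, 31148940), (16, 33117900), (18,
 38036100), (20, 28130100), (21, 31782240), (23, 3000000000000), (24, 31450500), (25, 28723800),
 (27, 27827200), (28, 31339500), (30, 34060200), (35, 29755020), (36, 27129900), (40, 27994500),
 (42, 16248000), (45, 29767410), (49, 30748410), (50, 30803700), (54, 32011800), (56, 29872200),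
 (60, 30228000), (63, 33135300), (70, 30102000), (75, 30918720), (81, 30036300), (84, 28881000),
 (90, 29134500), (98, 28971300), (100, 34147500), (105, 31260060), (125, 30524460), (126,
 31164600), (135, 29956200), (140, 25332000), (147, 29228700), (150, 32905800), (175, 29413560),
 (189, 30268200), (196, 30660900), (210, 31197600), (225, 29519400), (245, 28865490), (250,
 28969500), (294, 32649900), (315, 29497200), (343, 30600000), (350, 29569200), (375, 26889600),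
 (441, 31648800), (490, 29633700), (525, 31652400), (625, 30175200), (686, 30000000), (735,
 30673800), (875, 29935200), (1029, 30000000), (1225, 30673800), (1715, 30000000), (2401,
 30000000)])))))))
 (.split [(2, 1), (5, -1)]
 (.rule 1 (.rule 2 (.rule 7 (.leaf 6000000000 (.add (.add (.add (.add (.mul (.g 12) (.add (.add
 (.mul (.g 4) (.add (.add (.mul (.pp [(1, 5952000)]) (.sq [(1, -5), (2, 10), (3, 100), (5, 22), (7,
 -96)])) (.mul (.g 12) (.add (.add (.mul (.g 4) (.pp [(1, 24617760000000)])) (.mul (.g 7) (.pp [(1,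
 12173508000000)]))) (.add (.mul (.g 14) (.pp [(1, 5562000000000)])) (.mul (.g 20) (.pp [(1,
 6574560000000)])))))) (.add (.mul (.g 8) (.add (.mul (.g 5) (.pp [(1, 63120000)])) (.add (.mul (.g
 10) (.pp [(1, 1094421000000)])) (.mul (.g 20) (.pp [(1, 482364000000)]))))) (.mul (.g 4) (.mul (.g
 11) (.pp [(1, 2215380000000)])))))) (.add (.mul (.g 20) (.add (.add (.pp [(1, 11222400000000)])
 (.mul (.g 10) (.add (.mul (.g 9) (.pp [(1, 3126300000000)])) (.mul (.g 15) (.pp [(1,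
 2820840000000)]))))) (.add (.mul (.g 20) (.add (.mul (.g 14) (.pp [(1, 6000240000000)])) (.mul (.g
 20) (.pp [(1, 668040000000)])))) (.mul (.g 7) (.mul (.g 12) (.pp [(1, 854112000000)])))))) (.mul
 (.g 12) (.add (.mul (.g 3) (.mul (.g 12) (.pp [(1, 31860000000)]))) (.add (.mul (.g 7) (.mul (.g
 7) (.pp [(1, 1547200800000)]))) (.mul (.g 10) (.mul (.g 16) (.pp [(1, 527520000000)])))))))) (.add
 (.add (.mul (.g 13) (.add (.mul (.g 8) (.add (.pp [(1, 1060779000000)]) (.mul (.g 13) (.pp [(1,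
 389043000000)])))) (.mul (.g 10) (.mul (.g 11) (.pp [(1, 2829480000000)]))))) (.mul (.g 3) (.pp
 [(1, 6476220000000)]))) (.add (.mul (.g 6) (.mul (.pp [(1, 6480240)]) (.sq [(1, 2), (2, -12), (3,
 100), (5, 41), (7, -97)]))) (.mul (.g 15) (.mul (.pp [(1, 502878000)]) (.sq [(1, 65), (2, 60), (3,
 -81), (5, 13), (7, -100)]))))))) (.add (.mul (.g 20) (.add (.add (.add (.pp [(1, 440160000000)])
 (.mul (.pp [(1, 1039920000000)]) (.sq [(2, 1), (3, 1), (5, 1), (7, 1)]))) (.add (.mul (.g 3) (.add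
 (.mul (.pp [(1, 96144000)]) (.sq [(1, 39), (2, 80), (3, 100), (5, 70), (7, -4)])) (.add (.mul (.pp
 [(1, 79026000)]) (.sq [(1, 57), (2, 77), (3, 100), (5, -66), (7, 20)])) (.mul (.g 11) (.pp [(1,
 3046860000000)]))))) (.mul (.g 11) (.add (.mul (.g 8) (.mul (.g 8) (.pp [(1, 5298150000)]))) (.mul
 (.g 11) (.mul (.g 11) (.pp [(1, 1047300000000)]))))))) (.add (.add (.mul (.g 20) (.add (.mul (.pp
 [(1, 3066000)]) (.sq [(1, -53), (2, -44), (3, 92), (5, -83), (7, -100)])) (.mul (.pp [(1,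
 171138000)]) (.sq [(1, -100), (2, 75), (3, 44), (5, 44), (7, 61)])))) (.mul (.g 5) (.pp [(1,
 80666400000)]))) (.add (.mul (.g 6) (.mul (.pp [(1, 3581640)]) (.sq [(1, -19), (2, 82), (3, 100),
 (5, -14), (7, -11)]))) (.add (.mul (.g 7) (.pp [(1, 2615520000000)])) (.mul (.g 13) (.mul (.pp
 [(1, 58866000)]) (.sq [(1, -70), (2, 71), (3, 54), (5, 35), (7, 100)])))))))) (.mul (.g 8) (.add
 (.add (.mul (.g 5) (.add (.mul (.g 4) (.mul (.g 13) (.pp [(1, 10704360000)]))) (.add (.mul (.g 8)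
 (.mul (.g 11) (.pp [(1, 72774000)]))) (.mul (.g 10) (.mul (.g 10) (.pp [(1, 24043680000)]))))))
 (.add (.mul (.g 6) (.add (.mul (.pp [(1, 100584)]) (.sq [(1, 40), (2, 100), (3, 59), (5, 63), (7,
 -81)])) (.mul (.g 9) (.mul (.g 10) (.pp [(1, 3534660000)]))))) (.mul (.g 7) (.add (.pp [(1,
 9001200000)]) (.mul (.g 9) (.mul (.g 9) (.pp [(1, 10724400000)]))))))) (.add (.mul (.g 8) (.mul
 (.g 8) (.add (.mul (.g 11) (.pp [(1, 557842500)])) (.mul (.g 13) (.pp [(1, 436920000)]))))) (.add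
 (.mul (.g 4) (.pp [(1, 452463000000)])) (.mul (.g 10) (.mul (.g 10) (.mul (.g 10) (.pp [(1,
 38079000000)])))))))))) (.add (.mul (.g 16) (.add (.add (.mul (.g 5) (.add (.pp [(1,
 41498400000)]) (.mul (.g 9) (.pp [(1, 66432480000)])))) (.add (.mul (.g 15) (.add (.mul (.pp [(1,
 3819900)]) (.sq [(1, -100), (2, 74), (3, 9), (5, -53), (7, 73)])) (.mul (.pp [(1, 6500400)]) (.sq
 [(1, -13), (2, -32), (3, -8), (5, 20), (7, 100)])))) (.mul (.g 4) (.pp [(1, 1628502000000)]))))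
 (.add (.add (.mul (.g 7) (.pp [(1, 196244400000)])) (.mul (.g 14) (.mul (.pp [(1, 3330000)]) (.sq
 [(1, -59), (2, -98), (3, 100), (5, 37), (7, -39)])))) (.add (.mul (.g 16) (.mul (.pp [(1, 5865)])
 (.sq [(1, 6), (2, 10), (3, 86), (5, 100), (7, -15)]))) (.mul (.g 18) (.mul (.pp [(1, 2175900)])
 (.sq [(1, 8), (2, -39), (3, 90), (5, -37), (7, 100)]))))))) (.add (.mul (.g 3) (.add (.add (.pp
 [(1, 23144520000000)]) (.mul (.g 3) (.add (.pp [(1, 9639180000000)]) (.mul (.g 11) (.pp [(1,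
 13240260000000)]))))) (.add (.mul (.g 5) (.pp [(1, 469029600000)])) (.add (.mul (.g 14) (.mul (.pp
 [(1, 35268000)]) (.sq [(1, -16), (2, 37), (3, 64), (5, 100), (7, -37)]))) (.mul (.g 15) (.mul (.pp
 [(1, 10206000)]) (.sq [(1, -100), (2, -51), (5, 88), (7, 16)]))))))) (.mul (.g 11) (.add (.mul (.g
 11) (.mul (.g 11) (.add (.add (.mul (.g 9) (.pp [(1, 3500940000000)])) (.mul (.g 11) (.pp [(1,
 3064020000000)]))) (.add (.mul (.g 17) (.pp [(1, 3119880000000)])) (.mul (.g 18) (.pp [(1,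
 6042540000000)])))))) (.mul (.g 5) (.mul (.g 5) (.mul (.g 15) (.pp [(1, 4103904000)])))))))))
 (.add (.add (.mul (.g 0) (.pp [(1, 12000000000)])) (.add (.mul (.g 1) (.pp [(1, 20000000000000)]))
 (.mul (.g 2) (.pp [(1, 20000000000000)])))) (.add (.mul (.g 4) (.mul (.g 4) (.mul (.pp [(1,
 523572000)]) (.sq [(1, -37), (2, -21), (3, 22), (5, -28), (7, 100)])))) (.add (.mul (.g 7) (.mul
 (.g 7) (.mul (.pp [(1, 7254480)]) (.sq [(1, 51), (2, 19), (3, 100), (5, -5)])))) (.mul (.g 19)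
 (.pp [(1, 20000000000000)])))))) (.pp [(1, 540475853220), (2, 639671160), (3, 579498480), (4,
 699047400), (5, 578644740), (6, 470061480), (7, 640411020), (8, 704688000), (9, 690398532), (10,
 490088520), (12, 435420480), (14, 616725420), (15, 743220048), (16, 636822000), (18, 741579060),
 (20, 322743300), (21, 592846164), (23, 60000000000000), (24, 463446000), (25, 653263908), (27,
 523649100), (28, 680100000), (30, 999133320), (35, 623407128), (36, 654834000), (40, 592998000),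
 (42, 475686840), (45, 363345300), (49, 570305607), (50, 817812540), (54, 468708000), (56,
 570648000), (60, 769086000), (63, 602095800), (70, 533310600), (75, 380555220), (81, 657594000),
 (84, 496608000), (90, 385152000), (98, 625101420), (100, 677646000), (105, 573886560), (125,
 521756000), (126, 607722000), (135, 744312000), (140, 664542000), (147, 606601020), (150,
 302982000), (175, 591844200), (189, 616782000), (196, 556506000), (210, 763716000), (225,
 746280000), (245, 547244340), (250, 494538000), (294, 520332000), (315, 640602000), (343,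
 643394040), (350, 579900000), (375, 763758000), (441, 574872000), (490, 634584000), (525,
 510714000), (625, 621624000), (686, 568836000), (735, 622956000), (875, 626982000), (1029,
 583002000), (1225, 583890000), (1715, 606912000), (2401, 575502000)]))))))
 (.rule 1 (.rule 3 (.rule 7 (.leaf 75000000 (.add (.add (.add (.add (.mul (.pp [(1, 7430475)]) (.sq
 [(1, -29), (2, -63), (3, 100), (5, 18), (7, 12)])) (.add (.mul (.g 12) (.add (.add (.mul (.pp [(1,
 55950)]) (.sq [(1, -79), (2, -13), (3, -100), (5, 99), (7, 83)])) (.add (.mul (.g 5) (.add (.add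
 (.mul (.g 9) (.add (.add (.mul (.g 4) (.pp [(1, 14316630000)])) (.mul (.g 6) (.pp [(1,
 45948000)]))) (.add (.mul (.g 15) (.pp [(1, 830490000)])) (.mul (.g 20) (.pp [(1,
 3113700000)]))))) (.add (.mul (.g 12) (.add (.mul (.g 4) (.pp [(1, 124320000)])) (.add (.mul (.g
 7) (.pp [(1, 29028000)])) (.mul (.g 15) (.pp [(1, 20940000)]))))) (.mul (.g 3) (.add (.mul (.g 10)
 (.pp [(1, 21090000)])) (.mul (.g 20) (.pp [(1, 20670000)])))))) (.add (.add (.mul (.g 4) (.mul (.g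
 4) (.pp [(1, 120000)]))) (.mul (.g 5) (.mul (.g 5) (.pp [(1, 960)])))) (.add (.mul (.g 6) (.pp
 [(1, 4785000)])) (.mul (.g 8) (.mul (.g 10) (.pp [(1, 39754500)]))))))) (.mul (.g 20) (.add (.mul
 (.g 9) (.add (.pp [(1, 148812000000)]) (.add (.mul (.g 13) (.pp [(1, 516743250000)])) (.mul (.g
 20) (.pp [(1, 9032250000)]))))) (.add (.mul (.g 12) (.add (.mul (.g 3) (.pp [(1, 7500000)])) (.add
 (.mul (.g 4) (.pp [(1, 2286000000)])) (.mul (.g 7) (.pp [(1, 460200000)]))))) (.mul (.g 20) (.add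
 (.pp [(1, 1890750000)]) (.mul (.g 20) (.pp [(1, 7500000)]))))))))) (.add (.add (.mul (.g 8) (.add
 (.add (.mul (.g 4) (.add (.mul (.g 4) (.pp [(1, 22612500)])) (.add (.mul (.g 10) (.pp [(1,
 25225537500)])) (.mul (.g 11) (.pp [(1, 15160387500)]))))) (.mul (.g 6) (.mul (.g 7) (.pp [(1,
 104330250)])))) (.add (.mul (.g 8) (.mul (.g 9) (.pp [(1, 62336250)]))) (.mul (.g 12) (.mul (.g
 12) (.pp [(1, 880012500)])))))) (.mul (.g 6) (.mul (.g 6) (.add (.pp [(1, 236400)]) (.mul (.g 10)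
 (.pp [(1, 4209600)])))))) (.add (.mul (.g 7) (.mul (.g 7) (.mul (.g 7) (.pp [(1, 84132000)]))))
 (.mul (.g 9) (.mul (.pp [(1, 9196575)]) (.sq [(1, -38), (2, 13), (3, -11), (5, -44), (7,
 100)]))))))) (.mul (.g 5) (.add (.add (.mul (.g 11) (.add (.pp [(1, 7410000)]) (.add (.mul (.g 11)
 (.add (.mul (.g 9) (.pp [(1, 900000)])) (.add (.mul (.g 15) (.pp [(1, 180000)])) (.mul (.g 20)
 (.pp [(1, 103080000)]))))) (.mul (.g 3) (.mul (.g 4) (.pp [(1, 300000)])))))) (.add (.mul (.g 9)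
 (.add (.mul (.g 4) (.add (.mul (.g 8) (.pp [(1, 8170500)])) (.mul (.g 20) (.pp [(1,
 2513520000)])))) (.mul (.g 10) (.pp [(1, 18814920000)])))) (.mul (.g 3) (.add (.mul (.g 5) (.mul
 (.g 20) (.pp [(1, 4110000)]))) (.mul (.g 7) (.mul (.g 17) (.pp [(1, 23808000)]))))))) (.add (.mul
 (.g 6) (.add (.mul (.g 6) (.pp [(1, 1198452)])) (.mul (.g 10) (.pp [(1, 98864400)])))) (.add (.mul
 (.g 16) (.add (.pp [(1, 4707000)]) (.mul (.g 18) (.mul (.g 18) (.pp [(1, 6000)]))))) (.mul (.g 8)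
 (.pp [(1, 13203000)])))))))) (.add (.add (.mul (.g 4) (.add (.mul (.g 6) (.add (.add (.pp [(1,
 645705000)]) (.mul (.g 11) (.add (.mul (.g 11) (.pp [(1, 59295000)])) (.mul (.g 13) (.pp [(1,
 1380630000)]))))) (.add (.mul (.g 4) (.mul (.g 13) (.pp [(1, 1871610000)]))) (.mul (.g 10) (.mul
 (.g 20) (.pp [(1, 150000)])))))) (.mul (.g 4) (.mul (.g 9) (.add (.mul (.g 4) (.pp [(1,
 41632500000)])) (.mul (.g 10) (.pp [(1, 186097500000)]))))))) (.mul (.g 8) (.add (.add (.mul (.g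
 9) (.add (.mul (.g 9) (.add (.mul (.g 17) (.pp [(1, 11016225000)])) (.mul (.g 18) (.pp [(1,
 204637500)])))) (.mul (.g 14) (.pp [(1, 5917912500)])))) (.mul (.g 7) (.mul (.g 7) (.mul (.g 7)
 (.pp [(1, 56330700)]))))) (.add (.mul (.g 8) (.mul (.g 10) (.mul (.g 10) (.pp [(1, 515295000)]))))
 (.mul (.g 14) (.mul (.g 20) (.pp [(1, 1485487500)]))))))) (.add (.mul (.g 20) (.add (.mul (.pp
 [(1, 1245075)]) (.sq [(1, -33), (2, -61), (3, 100), (5, 23), (7, 6)])) (.add (.mul (.g 11) (.mul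
 (.pp [(1, 750)]) (.sq [(1, -1), (2, -79), (3, 100), (5, -23), (7, -22)]))) (.mul (.g 13) (.mul
 (.pp [(1, 666150)]) (.sq [(1, -33), (2, -66), (3, 100), (5, 24), (7, -1)])))))) (.mul (.g 6) (.mul
 (.g 6) (.add (.mul (.g 7) (.pp [(1, 6457440)])) (.mul (.g 9) (.mul (.g 9) (.pp [(1,
 45040200)]))))))))) (.add (.add (.mul (.g 0) (.pp [(1, 150000000)])) (.add (.mul (.g 1) (.pp [(1,
 250000000000)])) (.mul (.g 2) (.pp [(1, 250000000000)])))) (.add (.add (.mul (.g 11) (.mul (.pp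
 [(1, 13667700)]) (.sq [(1, -14), (2, -73), (3, 100), (5, -2), (7, 11)]))) (.mul (.g 13) (.mul (.pp
 [(1, 5646975)]) (.sq [(1, -12), (2, -45), (3, 100), (5, -18)])))) (.add (.mul (.g 14) (.mul (.pp
 [(1, 80775)]) (.sq [(1, -9), (2, 64), (3, 100), (5, -29), (7, -36)]))) (.mul (.g 19) (.pp [(1,
 250000000000)])))))) (.pp [(1, 204341529), (2, 6536775), (3, 7876500), (4, 7344375), (5, 8528625),
 (6, 8321700), (7, 7370445), (8, 7219375), (9, 6900000), (10, 9542700), (12, 8048475), (14,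
 8027850), (15, 6280350), (16, 7500000), (18, 6615000), (20, 7758450), (21, 8933250), (23,
 750000000000), (24, 8250600), (25, 5554200), (27, 7612500), (28, 8050125), (30, 6792150), (35,
 6957600), (36, 6180000), (40, 7500000), (42, 7350600), (45, 8040000), (49, 7454850), (50,
 6444825), (54, 8250000), (56, 7279425), (60, 6793950), (63, 7297500), (70, 6682050), (75,
 8473350), (81, 7500000), (84, 7468650), (90, 8130000), (98, 7442850), (100, 7500000), (105,
 6296700), (125, 8664225), (126, 7444425), (135, 7500000), (140, 6675750), (147, 6863250), (150,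
 7523100), (175, 8303625), (189, 7500000), (196, 7723200), (210, 8427600), (225, 7800000), (245,
 7755900), (250, 7500000), (294, 7028850), (315, 7200000), (343, 7411800), (350, 7953900), (375,
 7146750), (441, 7500000), (490, 7192200), (525, 7809000), (625, 7500000), (686, 7583850), (735,
 7563000), (875, 7146750), (1029, 7500000), (1225, 7509000), (1715, 7863000), (2401,
 7500000)])))))))))
 (.rule 5 (.cut 450 [(2, -1), (5, 1)] (.add (.mul (.g 10) (.pp [(1, 310)])) (.add (.mul (.g 11)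
 (.pp [(1, 7)])) (.mul (.g 1) (.pp [(1, 9)])))) (.rule 3 (.leaf 12000000 (.add (.add (.add (.add
 (.mul (.g 6) (.add (.add (.mul (.g 17) (.add (.add (.mul (.g 9) (.add (.add (.mul (.g 7) (.pp [(1,
 39324960000)])) (.mul (.g 8) (.pp [(1, 4424280000)]))) (.add (.mul (.g 10) (.pp [(1,
 87251520000)])) (.add (.mul (.g 15) (.pp [(1, 3663240000)])) (.mul (.g 17) (.pp [(1,
 19340400000)])))))) (.mul (.g 3) (.add (.pp [(1, 1550472000)]) (.add (.mul (.g 7) (.pp [(1,
 69945600)])) (.mul (.g 8) (.pp [(1, 84115200)])))))) (.add (.mul (.g 5) (.add (.pp [(1,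
 172608000)]) (.mul (.g 7) (.pp [(1, 4004922000)])))) (.mul (.g 8) (.mul (.g 11) (.pp [(1,
 5762520000)])))))) (.mul (.g 15) (.add (.add (.mul (.g 7) (.add (.pp [(1, 53951760000)]) (.add
 (.mul (.g 9) (.pp [(1, 5402160000)])) (.mul (.g 15) (.pp [(1, 47040000)]))))) (.mul (.g 6) (.add
 (.mul (.g 6) (.pp [(1, 5638200000)])) (.mul (.g 8) (.pp [(1, 377880000)]))))) (.add (.mul (.g 9)
 (.add (.mul (.g 10) (.pp [(1, 3996360000)])) (.mul (.g 13) (.pp [(1, 288690000)])))) (.add (.mul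
 (.g 5) (.mul (.g 8) (.pp [(1, 47346000)]))) (.mul (.g 15) (.pp [(1, 5322840000)]))))))) (.add
 (.mul (.g 3) (.add (.add (.mul (.g 3) (.add (.mul (.g 6) (.pp [(1, 11374176)])) (.mul (.g 9) (.pp
 [(1, 5539392)])))) (.mul (.g 7) (.add (.pp [(1, 444758400)]) (.mul (.g 10) (.pp [(1,
 1007239200)]))))) (.add (.mul (.g 5) (.mul (.g 5) (.pp [(1, 443856)]))) (.add (.mul (.g 12) (.mul
 (.g 12) (.pp [(1, 113752800)]))) (.mul (.g 13) (.pp [(1, 48670560)])))))) (.mul (.g 5) (.mul (.g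
 5) (.mul (.g 5) (.pp [(1, 66810)]))))))) (.mul (.g 9) (.add (.add (.mul (.g 9) (.add (.add (.mul
 (.g 17) (.add (.mul (.g 8) (.pp [(1, 1200000)])) (.add (.mul (.g 9) (.pp [(1, 1200000)])) (.mul
 (.g 10) (.pp [(1, 2400000)]))))) (.mul (.g 13) (.add (.mul (.g 12) (.pp [(1, 3006000)])) (.mul (.g
 15) (.pp [(1, 5988000)]))))) (.add (.mul (.g 3) (.mul (.g 4) (.pp [(1, 198720)]))) (.mul (.g 15)
 (.pp [(1, 30480000)]))))) (.mul (.g 15) (.add (.add (.pp [(1, 185400000)]) (.mul (.g 8) (.add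
 (.mul (.g 8) (.pp [(1, 1200000)])) (.mul (.g 17) (.pp [(1, 58440000)]))))) (.add (.mul (.g 4)
 (.mul (.g 10) (.pp [(1, 10608000)]))) (.mul (.g 7) (.mul (.g 7) (.pp [(1, 1680000)]))))))) (.add
 (.mul (.g 3) (.add (.mul (.g 3) (.add (.pp [(1, 46512)]) (.mul (.g 7) (.pp [(1, 43056)])))) (.mul
 (.g 10) (.mul (.g 13) (.pp [(1, 57600)]))))) (.add (.mul (.g 8) (.add (.mul (.g 10) (.mul (.g 13)
 (.pp [(1, 7926000)]))) (.mul (.g 17) (.pp [(1, 4800000)])))) (.mul (.g 7) (.mul (.g 7) (.mul (.g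
 17) (.pp [(1, 110400000)]))))))))) (.add (.mul (.g 15) (.add (.mul (.g 15) (.add (.add (.pp [(1,
 72840000)]) (.mul (.g 7) (.add (.mul (.g 7) (.pp [(1, 16320000)])) (.mul (.g 17) (.pp [(1,
 59160000)]))))) (.add (.mul (.g 8) (.mul (.g 15) (.pp [(1, 1200000)]))) (.mul (.g 13) (.pp [(1,
 2790000)]))))) (.add (.mul (.g 5) (.add (.pp [(1, 170196000)]) (.add (.mul (.g 8) (.add (.mul (.g
 8) (.pp [(1, 3552000)])) (.mul (.g 17) (.pp [(1, 31470000)])))) (.mul (.g 7) (.pp [(1,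
 237672000)]))))) (.mul (.g 11) (.add (.mul (.g 7) (.mul (.g 8) (.pp [(1, 40920000)]))) (.mul (.g
 13) (.pp [(1, 3054000)]))))))) (.mul (.g 3) (.add (.mul (.g 3) (.add (.pp [(1, 39312)]) (.mul (.g
 7) (.pp [(1, 44400)])))) (.add (.mul (.g 8) (.add (.mul (.g 4) (.mul (.g 17) (.pp [(1, 2880)])))
 (.mul (.g 8) (.mul (.g 8) (.pp [(1, 840000)]))))) (.mul (.g 5) (.pp [(1, 8640840)]))))))) (.add
 (.add (.mul (.g 5) (.add (.mul (.g 5) (.add (.mul (.g 5) (.pp [(1, 119295)])) (.mul (.g 17) (.pp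
 [(1, 54834000)])))) (.add (.mul (.g 10) (.mul (.pp [(1, 1068)]) (.sq [(1, -46), (2, 100), (3, 56),
 (5, -12), (7, -39)]))) (.mul (.g 12) (.mul (.pp [(1, 34911)]) (.sq [(1, -29), (2, 100), (3, -56),
 (5, 10), (7, -33)])))))) (.mul (.g 11) (.add (.mul (.pp [(1, 88392)]) (.sq [(1, 6), (2, 100), (3,
 -5), (5, -38), (7, -14)])) (.add (.mul (.g 7) (.mul (.pp [(1, 120)]) (.sq [(1, -72), (2, -68), (3,
 -100), (5, 30), (7, 69)]))) (.mul (.g 17) (.pp [(1, 143640000)])))))) (.add (.mul (.g 0) (.pp [(1,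
 40000000000)])) (.add (.mul (.g 2) (.pp [(1, 40000000000)])) (.mul (.g 16) (.pp [(1,
 40000000000)])))))) (.pp [(1, 9234663), (2, 1063887), (3, 1282167), (4, 1200636), (5, 1289607),
 (6, 1299708), (7, 1281552), (8, 1047600), (9, 1200936), (10, 1409400), (12, 1134320), (14,
 1220730), (15, 1185684), (16, 1320000), (18, 1123976), (19, 120000000000), (20, 1243440), (21,
 1146870), (23, 120000000000), (24, 1173120), (25, 1158612), (27, 1218696), (28, 1257360), (30,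
 1181472), (35, 1124838), (36, 1349760), (40, 1176000), (42, 1230288), (45, 1016136), (49,
 1138476), (50, 1036020), (54, 1174080), (56, 1140000), (60, 1194240), (63, 1248816), (70,
 1158684), (75, 1181388), (81, 1200000), (84, 1218720), (90, 1250880), (98, 1210101), (100,
 1257840), (105, 1151844), (125, 1217148), (126, 1108800), (135, 1200000), (140, 1259760), (147,
 1228791), (150, 1186800), (175, 1197828), (189, 1104000), (196, 1210140), (210, 1261200), (225,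
 1308000), (245, 1264911), (250, 1218000), (294, 1067100), (315, 1240800), (343, 1200000), (350,
 1225200), (375, 1188000), (441, 1171320), (490, 1158420), (525, 1216800), (625, 1200000), (686,
 1200000), (735, 1291320), (875, 1200000), (1029, 1200000), (1225, 1200000), (1715, 1200000),
 (2401, 1200000)])))))))))
 (P_Tp0 ++ xP_G_T2) = true := by decide +kernel

theorem t_G_T4b_TpB_a : chk Rap gP_G_T4b
 (.cut 1 [(2, -1), (3, 1)] (.add (.mul (.g 10) (.pp [(1, 1)])) (.mul (.g 4) (.pp [(1, 1)]))) (.rule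
 1 (.cut 1 [(2, -1), (5, 1)] (.add (.mul (.g 10) (.pp [(1, 1)])) (.mul (.g 6) (.pp [(1, 1)])))
 (.rule 3 (.cut 1 [(1, -3), (3, 5)] (.add (.mul (.g 4) (.pp [(1, 2)])) (.add (.mul (.g 3) (.pp [(1,
 2)])) (.mul (.g 14) (.pp [(1, 3)])))) (.cut 1 [(1, 3), (3, -2)] (.add (.add (.mul (.g 5) (.pp [(1,
 1)])) (.mul (.g 10) (.pp [(1, 2)]))) (.add (.mul (.g 2) (.pp [(1, 2)])) (.mul (.g 9) (.pp [(1,
 1)])))) (.rule 8 (.cut 9 [(1, 5), (5, -4)] (.add (.add (.mul (.g 12) (.pp [(1, 36)])) (.mul (.g 2)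
 (.pp [(1, 2)]))) (.add (.mul (.g 6) (.pp [(1, 36)])) (.mul (.g 1) (.pp [(1, 5)])))) (.rule 11
 (.cut 1 [(1, 2), (2, 1), (3, -1), (5, -2)] (.add (.mul (.g 14) (.pp [(1, 2)])) (.mul (.g 8) (.pp
 [(1, 1)]))) (.cut 9 [(1, -1), (2, -2), (3, 2), (5, 2)] (.add (.mul (.g 7) (.pp [(1, 18)])) (.add
 (.mul (.g 4) (.pp [(1, 1)])) (.mul (.g 5) (.pp [(1, 4)])))) (.rule 20 (.leaf 3000000 (.add (.add
 (.add (.add (.mul (.g 12) (.add (.add (.mul (.g 13) (.add (.mul (.g 17) (.add (.mul (.g 12) (.pp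
 [(1, 1951860000)])) (.add (.mul (.g 13) (.pp [(1, 1681530000)])) (.mul (.g 22) (.pp [(1,
 7575390000)]))))) (.mul (.g 13) (.mul (.g 16) (.pp [(1, 8252610000)]))))) (.add (.mul (.g 16)
 (.add (.pp [(1, 17041710000)]) (.mul (.g 16) (.add (.mul (.g 14) (.pp [(1, 6636000000)])) (.mul
 (.g 16) (.pp [(1, 223440000)])))))) (.mul (.g 20) (.add (.pp [(1, 62901510000)]) (.mul (.g 14)
 (.mul (.g 14) (.pp [(1, 2872110000)]))))))) (.add (.mul (.g 22) (.add (.pp [(1, 3549930000)])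
 (.mul (.g 12) (.pp [(1, 11189850000)])))) (.add (.mul (.g 17) (.mul (.pp [(1, 21456)]) (.sq [(1,
 85), (2, 100), (3, 18), (5, 96)]))) (.mul (.g 23) (.mul (.pp [(1, 307545)]) (.sq [(1, -15), (2,
 100), (3, -5), (5, 56)]))))))) (.add (.mul (.g 14) (.add (.add (.mul (.g 14) (.add (.mul (.g 19)
 (.add (.pp [(1, 147477000)]) (.mul (.g 16) (.pp [(1, 135271500)])))) (.add (.mul (.g 20) (.add
 (.pp [(1, 16004370000)]) (.mul (.g 13) (.pp [(1, 1713930000)])))) (.mul (.g 17) (.mul (.g 22) (.pp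
 [(1, 3013200000)])))))) (.mul (.g 22) (.add (.mul (.pp [(1, 2846508)]) (.sq [(1, -13), (2, 46),
 (3, 50), (5, -5)])) (.mul (.g 13) (.mul (.g 13) (.pp [(1, 25433970000)])))))) (.add (.mul (.g 17)
 (.mul (.g 17) (.pp [(1, 36621900000)]))) (.mul (.g 23) (.pp [(1, 64427970000)]))))) (.mul (.g 13)
 (.add (.mul (.g 13) (.mul (.g 13) (.add (.mul (.g 16) (.pp [(1, 10234440000)])) (.add (.mul (.g
 17) (.pp [(1, 10458840000)])) (.mul (.g 23) (.pp [(1, 12835020000)])))))) (.add (.mul (.g 16) (.pp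
 [(1, 24308280000)])) (.mul (.g 17) (.pp [(1, 53816550000)]))))))) (.add (.mul (.g 16) (.add (.pp
 [(1, 5562870000)]) (.add (.mul (.g 20) (.mul (.pp [(1, 131958)]) (.sq [(1, -36), (2, 100), (3,
 -44), (5, 7)]))) (.mul (.g 22) (.mul (.pp [(1, 259707)]) (.sq [(1, 73), (2, 83), (3, 24), (5,
 100)])))))) (.add (.mul (.g 17) (.add (.mul (.g 17) (.mul (.pp [(1, 12684)]) (.sq [(1, 100), (2,
 26), (3, -13), (5, 93)]))) (.mul (.g 23) (.mul (.pp [(1, 248286)]) (.sq [(2, 100), (3, 64), (5,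
 27)]))))) (.mul (.g 20) (.add (.pp [(1, 43622400000)]) (.mul (.g 18) (.mul (.g 18) (.pp [(1,
 4558470000)])))))))) (.add (.add (.mul (.g 0) (.pp [(1, 10000000000)])) (.add (.mul (.g 3) (.pp
 [(1, 12000000)])) (.mul (.g 5) (.pp [(1, 3000000)])))) (.add (.add (.mul (.g 8) (.pp [(1,
 10000000000)])) (.mul (.g 10) (.pp [(1, 10000000000)]))) (.add (.mul (.g 21) (.pp [(1,
 10000000000)])) (.mul (.g 22) (.mul (.g 22) (.mul (.pp [(1, 1045641)]) (.sq [(1, -56), (2, 44),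
 (3, 100), (5, -49)])))))))) (.pp [(1, 405555995), (2, 260478), (3, 345621), (4, 334137), (5,
 267444), (6, 303171), (8, 250909), (9, 250164), (10, 303105), (12, 356343), (15, 350988), (16,
 305616), (18, 305943), (20, 217728), (24, 303075), (25, 351663), (27, 353016), (30, 311238), (36,
 284820), (40, 303744), (45, 241800), (50, 333672), (54, 283752), (60, 307560), (75, 259104), (81,
 286404), (90, 318753), (100, 317652), (125, 273178), (135, 305064), (150, 306744), (225, 306399),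
 (250, 309660), (375, 292470), (625, 295590)])))))))))))))))
 (P_TpB ++ xP_G_T4b) = true := by decide +kernel

end Pool.Agent.Helper62.TW
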