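import Pool.Agent.Helper62.TW.Goals

/-!
# Case trees, part 3 (generated)
-/

set_option autoImplicit false
set_option maxRecDepth 100000
set_option linter.all false

namespace Pool.Agent.Helper62.TW

open Pool.Agent.Helper83.Cert

theorem t_A_F1_c1 : chk RFp gP_A_F1
 (.cut 50 [(2, 1), (3, -1)] (.add (.add (.mul (.g 8) (.pp [(1, 45)])) (.mul (.g 7) (.pp [(1, 2)])))
 (.add (.mul (.g 2) (.pp [(1, 5)])) (.mul (.g 9) (.pp [(1, 9)])))) (.rule 0 (.cut 60 [(2, -1), (5,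
 1)] (.add (.add (.mul (.g 11) (.pp [(1, 11)])) (.mul (.g 9) (.pp [(1, 3)]))) (.add (.mul (.g 1)
 (.pp [(1, 5)])) (.mul (.g 6) (.pp [(1, 5)])))) (.rule 3 (.leaf 120000000 (.add (.add (.add (.add
 (.mul (.g 7) (.add (.add (.add (.mul (.g 6) (.add (.add (.pp [(1, 34082400000)]) (.add (.mul (.g
 5) (.add (.mul (.g 5) (.pp [(1, 3309600000)])) (.add (.mul (.g 10) (.pp [(1, 20906400000)])) (.mul
 (.g 11) (.pp [(1, 839580000)]))))) (.mul (.g 7) (.add (.mul (.g 9) (.pp [(1, 18439200000)])) (.add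
 (.mul (.g 12) (.pp [(1, 4382400000)])) (.mul (.g 15) (.pp [(1, 6946800000)]))))))) (.add (.mul (.g
 4) (.add (.mul (.g 8) (.pp [(1, 1340767200000)])) (.mul (.g 10) (.pp [(1, 257114400000)])))) (.add
 (.mul (.g 6) (.pp [(1, 19533600000)])) (.mul (.g 15) (.pp [(1, 50580000000)])))))) (.mul (.g 15)
 (.add (.add (.pp [(1, 158929200000)]) (.mul (.pp [(1, 768960)]) (.sq [(1, 50), (2, 31), (3, 41),
 (5, 41), (7, 41)]))) (.add (.mul (.g 4) (.add (.pp [(1, 339555600000)]) (.add (.mul (.g 8) (.pp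
 [(1, 1351317600000)])) (.mul (.g 10) (.pp [(1, 207946800000)]))))) (.mul (.g 9) (.mul (.g 15) (.pp
 [(1, 1358400000)]))))))) (.add (.mul (.g 7) (.add (.add (.mul (.g 4) (.mul (.g 10) (.pp [(1,
 414082800000)]))) (.mul (.g 8) (.mul (.g 8) (.pp [(1, 139806000000)])))) (.add (.mul (.g 9) (.mul
 (.g 11) (.pp [(1, 611700000)]))) (.mul (.g 12) (.mul (.g 12) (.pp [(1, 52517100000)])))))) (.mul
 (.g 13) (.add (.pp [(1, 28990560000)]) (.mul (.pp [(1, 3240960)]) (.sq [(1, 25), (2, 22), (3, 22),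
 (5, 22), (7, 22)])))))) (.add (.add (.mul (.g 4) (.mul (.g 5) (.mul (.g 5) (.pp [(1,
 15500400000)])))) (.mul (.g 10) (.mul (.pp [(1, 211800)]) (.sq [(1, 45), (2, 28), (3, 42), (5,
 100), (7, -46)])))) (.add (.mul (.g 11) (.pp [(1, 12469140000)])) (.mul (.g 12) (.pp [(1,
 122310000000)])))))) (.mul (.g 15) (.add (.add (.add (.pp [(1, 29503200000)]) (.mul (.g 6) (.add
 (.add (.pp [(1, 7608000000)]) (.mul (.g 6) (.add (.pp [(1, 3915600000)]) (.mul (.g 13) (.pp [(1,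
 521760000)]))))) (.add (.mul (.g 8) (.mul (.g 8) (.pp [(1, 15591600000)]))) (.mul (.g 15) (.mul
 (.g 15) (.pp [(1, 1284000000)]))))))) (.add (.mul (.g 5) (.add (.pp [(1, 24920400000)]) (.add
 (.mul (.g 5) (.add (.pp [(1, 8192400000)]) (.mul (.g 5) (.pp [(1, 3729600000)])))) (.mul (.g 4)
 (.pp [(1, 102372000000)]))))) (.mul (.g 4) (.mul (.g 4) (.add (.pp [(1, 226552800000)]) (.mul (.g
 13) (.pp [(1, 1304160000)]))))))) (.add (.add (.mul (.g 8) (.pp [(1, 54224400000)])) (.mul (.g 11)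
 (.mul (.pp [(1, 6378)]) (.sq [(1, -33), (2, -63), (3, -19), (5, 54), (7, 100)])))) (.add (.mul (.g
 12) (.mul (.pp [(1, 15060240)]) (.sq [(2, 50), (3, 24), (7, -31)]))) (.mul (.g 15) (.mul (.pp [(1,
 148080)]) (.sq [(1, -24), (2, 27), (3, -68), (5, -100), (7, 93)])))))))) (.add (.mul (.g 4) (.add
 (.add (.mul (.g 4) (.add (.mul (.pp [(1, 388200)]) (.sq [(1, -72), (2, -33), (3, 74), (5, -87),
 (7, 100)])) (.add (.mul (.g 6) (.add (.pp [(1, 138042000000)]) (.mul (.g 12) (.pp [(1,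
 39955200000)])))) (.mul (.g 13) (.add (.pp [(1, 51867600000)]) (.mul (.g 5) (.pp [(1,
 27178560000)]))))))) (.mul (.g 13) (.add (.pp [(1, 72706560000)]) (.add (.mul (.pp [(1, 191184)])
 (.sq [(1, 48), (2, 95), (3, 100), (5, 77), (7, 77)])) (.mul (.g 10) (.pp [(1, 1973040000)]))))))
 (.add (.mul (.g 5) (.add (.mul (.g 8) (.mul (.g 8) (.pp [(1, 113510400000)]))) (.mul (.g 12) (.pp
 [(1, 686521800000)])))) (.mul (.g 6) (.mul (.pp [(1, 701400)]) (.sq [(1, -24), (2, -71), (3, 31),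
 (5, -18), (7, 100)])))))) (.add (.mul (.g 5) (.add (.add (.mul (.g 5) (.mul (.g 5) (.add (.pp [(1,
 375348000000)]) (.mul (.g 8) (.pp [(1, 14295600000)]))))) (.mul (.g 8) (.mul (.g 8) (.mul (.g 11)
 (.pp [(1, 6761400000)]))))) (.add (.mul (.g 12) (.mul (.g 12) (.pp [(1, 18918600000)]))) (.mul (.g
 13) (.pp [(1, 38750640000)]))))) (.mul (.g 11) (.add (.pp [(1, 7504980000)]) (.add (.mul (.g 12)
 (.add (.mul (.pp [(1, 23592)]) (.sq [(1, -94), (2, -45), (3, 100)])) (.mul (.pp [(1, 6477)]) (.sq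
 [(1, -37), (2, -84), (3, -4), (5, 36), (7, 100)])))) (.mul (.g 13) (.mul (.pp [(1, 498)]) (.sq
 [(1, 94), (2, 100), (3, -61), (5, 25), (7, 25)]))))))))) (.add (.add (.mul (.g 6) (.add (.mul (.g
 13) (.add (.pp [(1, 14100000000)]) (.mul (.pp [(1, 4594176)]) (.sq [(1, 25), (2, 22), (3, 22), (5,
 22), (7, 22)])))) (.mul (.g 12) (.mul (.pp [(1, 598200)]) (.sq [(1, -42), (2, -63), (3, -14), (5,
 -40), (7, 100)]))))) (.add (.mul (.g 8) (.add (.mul (.g 8) (.mul (.pp [(1, 3235680)]) (.sq [(1,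
 -59), (2, 97), (3, 100), (5, -75), (7, 73)]))) (.mul (.g 12) (.mul (.pp [(1, 2105640)]) (.sq [(1,
 77), (2, -100), (3, -81)]))))) (.mul (.g 10) (.add (.mul (.g 9) (.mul (.pp [(1, 81960)]) (.sq [(1,
 6), (2, 100), (3, 30), (5, -63), (7, 57)]))) (.mul (.g 10) (.mul (.pp [(1, 496800)]) (.sq [(1,
 -16), (2, 12), (3, 100), (5, 57), (7, 26)]))))))) (.add (.mul (.g 0) (.pp [(1, 400000000000)]))
 (.add (.mul (.g 2) (.pp [(1, 400000000000)])) (.mul (.g 14) (.pp [(1, 80000000)])))))) (.pp [(1,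
 9330240522), (2, 12478014), (3, 10708791), (4, 12280194), (5, 11285169), (6, 14384856), (7,
 12071622), (8, 12052056), (9, 12409218), (10, 10043688), (12, 10819824), (14, 8883108), (15,
 12288972), (16, 12618360), (18, 11342040), (20, 11014998), (21, 13426572), (24, 12660240), (25,
 12314232), (27, 12377542), (28, 10035222), (30, 12724236), (35, 15248328), (36, 13024560), (40,
 10058400), (42, 10813452), (45, 13377066), (49, 12292740), (50, 12176400), (54, 13815120), (56,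
 11182200), (60, 13394880), (63, 11277738), (70, 15318648), (75, 13975974), (81, 11542440), (84,
 13519800), (90, 15760440), (98, 16651848), (100, 14634480), (105, 10497348), (125, 12562512),
 (126, 12594360), (135, 11356800), (140, 13525080), (147, 7709070), (150, 13585800), (175,
 9601032), (189, 11880120), (196, 13503960), (210, 12476160), (225, 11197800), (245, 8470632),
 (250, 11363280), (294, 10658040), (315, 12966360), (343, 12961920), (350, 9408000), (375,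
 11182200), (441, 11326800), (490, 9264720), (525, 14640720), (625, 11364840), (686, 10988640),
 (735, 15832200), (875, 13258800), (1029, 14223120), (1225, 15765960), (1715, 14406000), (2401,
 11877840)])))))))
 (P_c1 ++ xP_A_F1) = true := by decide +kernel

theorem t_A_F1_free : chk RFp gP_A_F1
 (.split [(1, 1), (2, -20)]
 (.rule 4 (.leaf 6000 (.add (.add (.mul (.g 2) (.add (.add (.mul (.g 1) (.add (.add (.pp [(1,
 106434)]) (.mul (.g 3) (.add (.add (.pp [(1, 108)]) (.mul (.g 2) (.pp [(1, 30)]))) (.add (.mul (.g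
 3) (.pp [(1, 60)])) (.add (.mul (.g 4) (.pp [(1, 30)])) (.mul (.g 5) (.pp [(1, 30)]))))))) (.add
 (.mul (.g 4) (.add (.add (.pp [(1, 2027853)]) (.mul (.g 2) (.pp [(1, 30)]))) (.add (.mul (.g 4)
 (.pp [(1, 60)])) (.mul (.g 5) (.pp [(1, 2974854)]))))) (.add (.mul (.g 2) (.add (.mul (.g 2) (.pp
 [(1, 39330)])) (.mul (.g 5) (.pp [(1, 69930)])))) (.mul (.g 5) (.pp [(1, 1040229)])))))) (.mul (.g
 11) (.add (.add (.mul (.g 5) (.add (.add (.pp [(1, 41992080)]) (.mul (.g 3) (.pp [(1, 600)])))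
 (.add (.mul (.g 5) (.pp [(1, 1398600)])) (.mul (.g 6) (.pp [(1, 59496480)]))))) (.mul (.g 3) (.add
 (.pp [(1, 19442700)]) (.mul (.g 3) (.pp [(1, 600)]))))) (.add (.mul (.g 4) (.mul (.g 4) (.pp [(1,
 600)]))) (.add (.mul (.g 9) (.pp [(1, 972072)])) (.mul (.g 11) (.pp [(1, 417360)]))))))) (.add
 (.mul (.g 4) (.add (.add (.mul (.g 4) (.add (.pp [(1, 40137480)]) (.add (.mul (.g 4) (.pp [(1,
 600)])) (.mul (.g 9) (.pp [(1, 30)]))))) (.mul (.g 5) (.add (.pp [(1, 78236880)]) (.mul (.g 5)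
 (.pp [(1, 1398000)]))))) (.add (.mul (.g 3) (.mul (.g 3) (.pp [(1, 600)]))) (.mul (.g 9) (.pp [(1,
 2999895)]))))) (.add (.mul (.g 9) (.add (.pp [(1, 132)]) (.mul (.g 3) (.add (.pp [(1, 75)]) (.mul
 (.g 3) (.pp [(1, 30)])))))) (.mul (.g 2) (.add (.mul (.g 2) (.pp [(1, 3788040)])) (.mul (.g 5)
 (.mul (.g 5) (.pp [(1, 20158920)]))))))))) (.add (.mul (.g 0) (.pp [(1, 20000000)])) (.mul (.g 10)
 (.pp [(1, 20000000)])))) (.pp [(2, 254370), (4, 600), (6, 597), (8, 630), (10, 540), (12, 630),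
 (14, 579), (16, 600), (18, 570), (20, 570), (24, 600), (28, 570), (30, 630), (36, 600), (40, 600),
 (42, 630), (50, 690), (54, 600), (56, 600), (60, 600), (70, 666), (84, 600), (90, 600), (98, 600),
 (100, 600), (126, 600), (140, 600), (150, 600), (196, 600), (210, 600), (250, 600), (294, 600),
 (350, 600), (490, 600), (686, 600)]))))
 (.split [(2, 1), (3, -1)]
 (.rule 0 (.rule 6 (.leaf 30000000 (.add (.add (.add (.add (.mul (.g 7) (.add (.add (.mul (.g 8)
 (.add (.add (.mul (.g 13) (.add (.add (.mul (.g 2) (.pp [(1, 22932300000)])) (.mul (.g 3) (.pp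
 [(1, 10134780000)]))) (.add (.mul (.g 4) (.pp [(1, 147122700000)])) (.add (.mul (.g 6) (.pp [(1,
 48687000000)])) (.mul (.g 13) (.pp [(1, 19712400000)])))))) (.mul (.g 6) (.add (.mul (.g 2) (.pp
 [(1, 88500000)])) (.add (.mul (.g 3) (.pp [(1, 22354095000)])) (.mul (.g 6) (.pp [(1,
 12247500000)])))))) (.add (.mul (.g 2) (.mul (.g 8) (.pp [(1, 29925900000)]))) (.add (.mul (.g 5)
 (.mul (.g 9) (.pp [(1, 456900000)]))) (.mul (.g 7) (.mul (.g 7) (.pp [(1, 210300000)]))))))) (.add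
 (.mul (.g 10) (.add (.add (.pp [(1, 9327600000)]) (.mul (.g 5) (.add (.add (.pp [(1,
 44790600000)]) (.mul (.g 2) (.pp [(1, 43563900000)]))) (.add (.mul (.g 4) (.pp [(1,
 41866200000)])) (.mul (.g 6) (.pp [(1, 2240100000)])))))) (.add (.mul (.g 2) (.add (.mul (.g 4)
 (.pp [(1, 9677100000)])) (.mul (.g 11) (.pp [(1, 1501995000)])))) (.add (.mul (.g 6) (.mul (.g 6)
 (.pp [(1, 3466500000)]))) (.mul (.g 7) (.pp [(1, 12843000000)])))))) (.mul (.g 2) (.add (.mul (.g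
 6) (.add (.mul (.g 2) (.pp [(1, 1098000000)])) (.add (.mul (.g 6) (.pp [(1, 53925900000)])) (.mul
 (.g 13) (.pp [(1, 8056200000)]))))) (.mul (.g 4) (.mul (.g 7) (.pp [(1, 188400000)]))))))) (.add
 (.mul (.g 13) (.add (.mul (.pp [(1, 204480)]) (.sq [(1, 50), (2, 31), (3, 41), (5, 41), (7, 41)]))
 (.add (.mul (.g 3) (.pp [(1, 5945580000)])) (.mul (.g 7) (.mul (.g 13) (.pp [(1, 273600000)]))))))
 (.add (.mul (.g 3) (.mul (.pp [(1, 19341)]) (.sq [(1, 31), (2, -37), (3, -35), (5, 100), (7,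
 -14)]))) (.mul (.g 6) (.mul (.g 7) (.mul (.g 7) (.pp [(1, 253200000)])))))))) (.mul (.g 2) (.add
 (.add (.mul (.g 5) (.add (.add (.pp [(1, 17676000000)]) (.mul (.g 2) (.add (.pp [(1,
 103726800000)]) (.mul (.g 2) (.pp [(1, 5418600000)]))))) (.add (.mul (.g 4) (.pp [(1,
 17328300000)])) (.mul (.g 5) (.mul (.g 5) (.pp [(1, 4002300000)])))))) (.add (.mul (.g 10) (.add
 (.add (.mul (.pp [(1, 42000)]) (.sq [(1, -100), (2, -80), (3, 53), (5, 27)])) (.mul (.g 4) (.add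
 (.pp [(1, 75573900000)]) (.mul (.g 8) (.pp [(1, 8435400000)]))))) (.add (.mul (.g 9) (.pp [(1,
 5368200000)])) (.mul (.g 11) (.pp [(1, 252435000)]))))) (.mul (.g 6) (.add (.mul (.pp [(1,
 665700)]) (.sq [(1, -23), (2, 19), (3, -36), (5, 72), (7, -100)])) (.add (.mul (.g 13) (.add (.mul
 (.g 6) (.pp [(1, 4690200000)])) (.mul (.g 13) (.pp [(1, 8035500000)])))) (.mul (.g 4) (.pp [(1,
 21605700000)]))))))) (.add (.mul (.g 2) (.add (.mul (.pp [(1, 130740)]) (.sq [(1, 31), (2, 21),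
 (3, -24), (5, -100), (7, 97)])) (.mul (.pp [(1, 946050)]) (.sq [(1, -90), (2, 3), (3, 100), (5,
 -7), (7, 88)])))) (.add (.mul (.g 3) (.pp [(1, 3864585000)])) (.mul (.g 13) (.mul (.g 13) (.mul
 (.g 13) (.pp [(1, 3488100000)]))))))))) (.add (.mul (.g 13) (.add (.add (.mul (.g 5) (.add (.pp
 [(1, 3224700000)]) (.add (.mul (.pp [(1, 507450)]) (.sq [(1, 94), (2, 100), (3, 100), (5, 73), (7,
 73)])) (.mul (.g 13) (.add (.mul (.g 4) (.pp [(1, 22492200000)])) (.mul (.g 6) (.pp [(1,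
 8651400000)]))))))) (.add (.mul (.g 3) (.add (.pp [(1, 2457735000)]) (.add (.mul (.pp [(1,
 10134)]) (.sq [(1, 74), (2, 98), (3, 100), (5, 100), (7, 39)])) (.mul (.g 3) (.mul (.g 10) (.pp
 [(1, 15136500)])))))) (.mul (.g 6) (.add (.mul (.g 6) (.mul (.g 10) (.pp [(1, 390000000)]))) (.mul
 (.g 13) (.mul (.g 13) (.pp [(1, 738000000)]))))))) (.add (.add (.mul (.g 8) (.mul (.pp [(1,
 1861020)]) (.sq [(1, -14), (2, 31), (3, 65), (5, -35), (7, 100)]))) (.mul (.g 9) (.mul (.pp [(1,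
 229050)]) (.sq [(1, -42), (2, 100), (3, 100), (5, -19), (7, -45)])))) (.add (.mul (.g 11) (.mul
 (.pp [(1, 18051)]) (.sq [(1, 88), (2, 100), (3, -27), (5, -8), (7, 15)]))) (.mul (.g 13) (.mul
 (.pp [(1, 298410)]) (.sq [(1, 39), (2, -100), (3, -72), (5, 32), (7, 15)]))))))) (.mul (.g 3)
 (.add (.mul (.g 8) (.add (.mul (.pp [(1, 29790)]) (.sq [(1, -34), (2, 100), (3, -30), (5, -24),
 (7, -25)])) (.add (.mul (.g 3) (.mul (.g 11) (.pp [(1, 807525)]))) (.mul (.g 4) (.mul (.g 5) (.pp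
 [(1, 51285000)])))))) (.add (.mul (.g 6) (.add (.mul (.pp [(1, 13455)]) (.sq [(1, 5), (2, 33), (3,
 65), (5, -79), (7, 100)])) (.mul (.g 11) (.pp [(1, 246287250)])))) (.mul (.g 9) (.mul (.pp [(1,
 14988)]) (.sq [(1, 10), (2, -29), (3, -86), (5, 25), (7, 100)])))))))) (.add (.add (.mul (.g 5)
 (.add (.mul (.g 5) (.mul (.g 5) (.mul (.g 6) (.pp [(1, 3998400000)])))) (.mul (.g 11) (.pp [(1,
 50910000)])))) (.mul (.g 10) (.add (.mul (.g 6) (.mul (.pp [(1, 117300)]) (.sq [(1, 8), (2, 71),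
 (3, 52), (5, -78), (7, 100)]))) (.mul (.g 11) (.pp [(1, 288570000)]))))) (.add (.mul (.g 0) (.pp
 [(1, 100000000000)])) (.add (.mul (.g 1) (.pp [(1, 100000000000)])) (.mul (.g 12) (.pp [(1,
 100000000000)])))))) (.pp [(1, 61128873), (2, 2743101), (3, 2892648), (4, 3262464), (5, 3152949),
 (6, 3059244), (7, 2895741), (8, 2542568), (9, 3503877), (10, 3058614), (12, 2930436), (14,
 3494706), (15, 3392934), (16, 3331050), (18, 3327144), (20, 2972351), (21, 3103752), (24,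
 2532780), (25, 2505222), (27, 2873452), (28, 2081313), (30, 2335326), (35, 2297820), (36,
 3607050), (40, 2852460), (42, 2602110), (45, 2463378), (49, 2823903), (50, 3421100), (54,
 2577360), (56, 3200760), (60, 3248280), (63, 2489916), (70, 3060444), (75, 2436858), (81,
 3071760), (84, 3153360), (90, 2922840), (98, 2482560), (100, 3407850), (105, 2668098), (125,
 3346491), (126, 2715540), (135, 3084420), (140, 3766200), (147, 3089490), (150, 3357540), (175,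
 4101906), (189, 3061860), (196, 3662820), (210, 3968400), (225, 2993490), (245, 4130181), (250,
 2646930), (294, 3316080), (315, 2987580), (343, 3238467), (350, 3015690), (375, 3202560), (441,
 3075780), (490, 2953050), (525, 3039600), (625, 2982630), (686, 3133470), (735, 3120900), (875,
 2670570), (1029, 3072660), (1225, 2844900), (1715, 2978790), (2401, 2988630)])))))
 (.rule 1 (.rule 6 (.leaf 60000000 (.add (.add (.add (.add (.mul (.g 6) (.add (.add (.mul (.g 6)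
 (.add (.add (.pp [(1, 1101000000)]) (.add (.mul (.g 6) (.add (.add (.pp [(1, 1623000000)]) (.mul
 (.g 4) (.pp [(1, 4537800000)]))) (.add (.mul (.g 5) (.pp [(1, 597600000)])) (.add (.mul (.g 7)
 (.pp [(1, 609000000)])) (.mul (.g 13) (.pp [(1, 190800000)])))))) (.mul (.g 7) (.add (.add (.pp
 [(1, 2220600000)]) (.mul (.g 4) (.pp [(1, 1657200000)]))) (.add (.mul (.g 5) (.pp [(1,
 723600000)])) (.mul (.g 7) (.pp [(1, 464400000)]))))))) (.add (.mul (.g 4) (.add (.pp [(1,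
 172785000000)]) (.mul (.g 11) (.pp [(1, 316320000)])))) (.add (.mul (.g 8) (.add (.mul (.g 3) (.pp
 [(1, 7110000)])) (.mul (.g 9) (.pp [(1, 1290600000)])))) (.mul (.g 5) (.mul (.g 11) (.pp [(1,
 24150000)]))))))) (.add (.mul (.g 7) (.add (.add (.mul (.g 4) (.add (.add (.pp [(1, 22981200000)])
 (.mul (.g 5) (.pp [(1, 1411200000)]))) (.add (.mul (.g 7) (.pp [(1, 13020600000)])) (.mul (.g 8)
 (.pp [(1, 777076200000)]))))) (.add (.mul (.g 7) (.add (.mul (.g 11) (.pp [(1, 35700000)])) (.mul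
 (.g 13) (.pp [(1, 66600000)])))) (.mul (.g 3) (.mul (.g 8) (.pp [(1, 1134900000)]))))) (.add (.mul
 (.g 5) (.mul (.g 10) (.pp [(1, 516600000)]))) (.add (.mul (.g 11) (.pp [(1, 185250000)])) (.mul
 (.g 13) (.pp [(1, 274800000)])))))) (.mul (.g 4) (.add (.mul (.g 10) (.mul (.g 10) (.pp [(1,
 160200000)]))) (.mul (.g 11) (.pp [(1, 28403160000)])))))) (.add (.add (.mul (.g 5) (.add (.mul
 (.g 5) (.mul (.g 8) (.pp [(1, 4509600000)]))) (.mul (.g 9) (.mul (.g 10) (.pp [(1, 42600000)])))))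
 (.mul (.g 3) (.mul (.g 3) (.mul (.g 3) (.pp [(1, 3842775)]))))) (.add (.mul (.g 8) (.pp [(1,
 442200000)])) (.mul (.g 11) (.pp [(1, 166320000)])))))) (.mul (.g 13) (.add (.add (.mul (.g 4)
 (.add (.add (.mul (.g 7) (.add (.add (.pp [(1, 213507600000)]) (.mul (.g 7) (.pp [(1,
 13560000000)]))) (.add (.mul (.g 8) (.pp [(1, 797547000000)])) (.mul (.g 10) (.pp [(1,
 1350600000)]))))) (.mul (.g 4) (.add (.pp [(1, 11868600000)]) (.mul (.g 4) (.pp [(1,
 15315600000)]))))) (.add (.mul (.g 2) (.mul (.g 8) (.pp [(1, 663600000)]))) (.add (.mul (.g 5)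
 (.pp [(1, 179596800000)])) (.mul (.g 11) (.pp [(1, 8924610000)])))))) (.mul (.g 5) (.add (.add
 (.mul (.pp [(1, 25860)]) (.sq [(1, 11), (2, 74), (3, 100), (5, -74), (7, 53)])) (.mul (.g 11)
 (.add (.mul (.g 5) (.pp [(1, 157020000)])) (.mul (.g 9) (.pp [(1, 22470000)]))))) (.add (.mul (.g
 2) (.mul (.g 10) (.pp [(1, 2269800000)]))) (.mul (.g 3) (.pp [(1, 94710000)])))))) (.add (.mul (.g
 7) (.add (.mul (.g 7) (.add (.mul (.g 3) (.pp [(1, 17970000)])) (.add (.mul (.g 7) (.pp [(1,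
 6000000)])) (.mul (.g 11) (.pp [(1, 3330000)]))))) (.add (.mul (.g 3) (.pp [(1, 12720000)])) (.mul
 (.g 11) (.pp [(1, 32700000)]))))) (.add (.mul (.g 3) (.pp [(1, 157290000)])) (.mul (.g 11) (.pp
 [(1, 57000000)]))))))) (.add (.mul (.g 3) (.add (.add (.mul (.pp [(1, 53031)]) (.sq [(1, 45), (2,
 26), (3, -66), (5, 100), (7, 5)])) (.mul (.g 8) (.add (.pp [(1, 263940000)]) (.add (.mul (.pp [(1,
 2169)]) (.sq [(1, 88), (2, 60), (3, -100), (5, 29), (7, 99)])) (.mul (.pp [(1, 48696)]) (.sq [(1,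
 -49), (2, 100), (3, -14), (5, 65), (7, -9)])))))) (.add (.mul (.g 10) (.add (.mul (.pp [(1,
 10413)]) (.sq [(1, 73), (2, -37), (3, -38), (5, -9), (7, 100)])) (.mul (.g 7) (.pp [(1,
 60390000)])))) (.mul (.g 5) (.mul (.g 11) (.pp [(1, 1413000)])))))) (.add (.mul (.g 5) (.add (.add
 (.mul (.pp [(1, 87600)]) (.sq [(1, -85), (2, 17), (3, 100), (5, -54), (7, -20)])) (.mul (.g 8)
 (.add (.mul (.pp [(1, 45120)]) (.sq [(1, 77), (2, -21), (3, -96), (5, 100), (7, 23)])) (.mul (.g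
 2) (.mul (.g 10) (.pp [(1, 207000000)])))))) (.add (.mul (.g 11) (.add (.mul (.g 5) (.pp [(1,
 114810000)])) (.mul (.g 11) (.mul (.g 11) (.pp [(1, 6750)]))))) (.mul (.g 10) (.mul (.pp [(1,
 10200)]) (.sq [(1, 23), (2, -31), (3, -59), (5, 100), (7, 49)])))))) (.mul (.g 9) (.add (.mul (.g
 4) (.mul (.g 4) (.mul (.g 4) (.pp [(1, 1681200000)])))) (.mul (.g 9) (.mul (.pp [(1, 253200)])
 (.sq [(1, -11), (2, 50), (3, 7), (5, 27), (7, -31)])))))))) (.add (.add (.mul (.g 0) (.pp [(1,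
 200000000000)])) (.mul (.g 1) (.pp [(1, 200000000000)]))) (.add (.mul (.g 2) (.mul (.g 2) (.mul
 (.g 10) (.pp [(1, 1835400000)])))) (.add (.mul (.g 11) (.mul (.pp [(1, 4239)]) (.sq [(2, -39), (3,
 100), (5, 10), (7, -35)]))) (.mul (.g 12) (.pp [(1, 200000000000)])))))) (.pp [(1, 118696407), (2,
 5713131), (3, 6111159), (4, 6766251), (5, 5794908), (6, 5576694), (7, 6054078), (8, 5854983), (9,
 5597808), (10, 7410540), (12, 6779181), (14, 6304062), (15, 6169014), (16, 6275940), (18,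
 5121288), (20, 5575399), (21, 5896392), (24, 5643300), (25, 6265347), (27, 5999652), (28,
 4636440), (30, 4524162), (35, 5288178), (36, 6295080), (40, 5875620), (42, 6722568), (45,
 6054864), (49, 6048345), (50, 5722336), (54, 5866680), (56, 5294400), (60, 6696720), (63,
 5926320), (70, 6523362), (75, 5832105), (81, 6087000), (84, 7536480), (90, 6127920), (98,
 6590955), (100, 5959680), (105, 6965520), (125, 5687853), (126, 5407680), (135, 6330600), (140,
 6474360), (147, 5839440), (150, 6567180), (175, 6714600), (189, 6265200), (196, 5729700), (210,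
 5519520), (225, 5623200), (245, 6135900), (250, 6456540), (294, 5854920), (315, 5638800), (343,
 6000000), (350, 5474400), (375, 6134160), (441, 6300600), (490, 6050400), (525, 5605920), (625,
 6217200), (686, 6000000), (735, 6054300), (875, 5656800), (1029, 6040740), (1225, 6274800), (1715,
 6000000), (2401, 6000000)])))))))
 (P_free ++ xP_A_F1) = true := by decide +kernel

theorem t_A_F5b_c1 : chk RFp gP_A_F5b
 (.void (.add (.mul (.g 9) (.pp [(1, 1)])) (.mul (.g 11) (.pp [(1, 5)]))))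
 (P_c1 ++ xP_A_F5b) = true := by decide +kernel

theorem t_A_F5b_c4 : chk RFp gP_A_F5b
 (.split [(1, -1), (2, 2)]
 (.cut 1 [(2, -1), (3, 1)] (.add (.mul (.g 10) (.pp [(1, 1)])) (.mul (.g 5) (.pp [(1, 1)]))) (.rule
 1 (.cut 1 [(2, 1), (5, -1)] (.add (.mul (.g 12) (.pp [(1, 1)])) (.mul (.g 8) (.pp [(1, 1)])))
 (.rule 2 (.leaf 3000000 (.add (.add (.add (.add (.mul (.g 7) (.add (.add (.mul (.g 9) (.add (.add
 (.pp [(1, 25995030000)]) (.add (.mul (.g 9) (.add (.mul (.g 5) (.pp [(1, 6683580000)])) (.add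
 (.mul (.g 9) (.pp [(1, 5723520000)])) (.mul (.g 11) (.pp [(1, 959010000)]))))) (.mul (.g 6) (.add
 (.pp [(1, 5781150000)]) (.mul (.g 6) (.pp [(1, 963960000)])))))) (.add (.mul (.g 7) (.add (.mul
 (.g 7) (.pp [(1, 45360000)])) (.mul (.g 11) (.pp [(1, 1640850000)])))) (.add (.mul (.g 10) (.mul
 (.g 14) (.pp [(1, 963600000)]))) (.mul (.g 11) (.pp [(1, 676020000)])))))) (.mul (.g 7) (.add
 (.mul (.pp [(1, 21228)]) (.sq [(1, 71), (2, -38), (3, -38), (5, 100)])) (.mul (.g 7) (.add (.pp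
 [(1, 7952850000)]) (.mul (.g 7) (.pp [(1, 244710000)]))))))) (.add (.mul (.g 10) (.add (.mul (.pp
 [(1, 102)]) (.sq [(1, -52), (2, 27), (3, 100), (5, -15)])) (.mul (.g 5) (.add (.pp [(1,
 17158890000)]) (.mul (.g 15) (.pp [(1, 1217730000)])))))) (.add (.mul (.g 14) (.pp [(1,
 4238010000)])) (.mul (.g 15) (.mul (.pp [(1, 567468)]) (.sq [(1, 28), (2, 50), (3, 11), (5,
 -11)]))))))) (.mul (.g 9) (.add (.add (.mul (.g 5) (.add (.mul (.g 5) (.add (.mul (.g 10) (.pp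
 [(1, 1650000)])) (.mul (.g 15) (.pp [(1, 360000)])))) (.mul (.g 6) (.add (.mul (.g 6) (.pp [(1,
 1500000)])) (.mul (.g 15) (.pp [(1, 2340000)])))))) (.mul (.g 4) (.mul (.g 10) (.mul (.g 11) (.pp
 [(1, 675000)]))))) (.add (.mul (.g 6) (.pp [(1, 2912610000)])) (.mul (.g 9) (.pp [(1,
 2841900000)])))))) (.add (.mul (.g 15) (.add (.mul (.g 12) (.add (.pp [(1, 699309000)]) (.mul (.g
 5) (.add (.pp [(1, 142377000)]) (.mul (.g 6) (.pp [(1, 19500)])))))) (.add (.mul (.g 10) (.mul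
 (.pp [(1, 141)]) (.sq [(1, -89), (2, 87), (3, 100), (5, 62)]))) (.mul (.g 15) (.mul (.pp [(1,
 3444)]) (.sq [(1, -51), (2, 35), (3, 100), (5, 27)])))))) (.mul (.g 14) (.add (.pp [(1,
 4063920000)]) (.add (.mul (.g 10) (.add (.pp [(1, 38910000)]) (.mul (.pp [(1, 54)]) (.sq [(1, 27),
 (2, -97), (3, -79), (5, -100)])))) (.mul (.g 4) (.mul (.g 11) (.mul (.g 11) (.pp [(1,
 105000)]))))))))) (.add (.add (.mul (.g 0) (.pp [(1, 10000000000)])) (.mul (.g 2) (.pp [(1,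
 10000000000)]))) (.add (.mul (.g 10) (.mul (.g 10) (.mul (.pp [(1, 132)]) (.sq [(1, 89), (2, 13),
 (3, 16), (5, 100)])))) (.mul (.g 13) (.pp [(1, 40000000)]))))) (.pp [(1, 460630089), (2, 329667),
 (3, 306573), (4, 318855), (5, 294120), (6, 314208), (8, 335793), (9, 279816), (10, 326157), (12,
 242865), (15, 263841), (16, 277692), (18, 296382), (20, 258708), (24, 321618), (25, 287679), (27,
 302256), (30, 293262), (36, 304206), (40, 334287), (45, 309306), (50, 297186), (54, 293262), (60,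
 279423), (75, 306696), (81, 303222), (90, 298764), (100, 272817), (125, 311266), (135, 310230),
 (150, 299496), (225, 320604), (250, 300966), (375, 312090), (625, 323898)])))))))
 (.cut 2 [(2, -1), (3, 1)] (.add (.mul (.g 10) (.pp [(1, 1)])) (.add (.mul (.g 2) (.pp [(1, 1)]))
 (.mul (.g 0) (.pp [(1, 1)])))) (.rule 1 (.cut 1 [(2, 1), (5, -1)] (.add (.mul (.g 12) (.pp [(1,
 1)])) (.mul (.g 8) (.pp [(1, 1)]))) (.rule 2 (.leaf 24000000 (.add (.add (.add (.add (.mul (.g 7)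
 (.add (.add (.pp [(1, 63978240000)]) (.add (.mul (.g 4) (.add (.add (.pp [(1, 6840000)]) (.mul (.g
 6) (.pp [(1, 119993760000)]))) (.add (.mul (.g 7) (.pp [(1, 119988240000)])) (.mul (.g 9) (.mul
 (.g 11) (.pp [(1, 1440000)])))))) (.mul (.g 7) (.add (.mul (.pp [(1, 336)]) (.sq [(1, 71), (2,
 -38), (3, -38), (5, 100)])) (.mul (.g 7) (.add (.pp [(1, 82725360000)]) (.mul (.g 7) (.pp [(1,
 3138000000)])))))))) (.add (.add (.mul (.g 15) (.add (.pp [(1, 216326640000)]) (.mul (.pp [(1,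
 1248)]) (.sq [(1, 28), (2, 50), (3, 11), (5, -11)])))) (.mul (.g 5) (.mul (.g 5) (.pp [(1,
 239973600000)])))) (.add (.mul (.g 10) (.mul (.pp [(1, 1440)]) (.sq [(1, 39), (2, 50), (3, 9), (5,
 -9)]))) (.mul (.g 11) (.mul (.pp [(1, 72)]) (.sq [(1, 100), (2, -80), (3, -23), (5, 82)])))))))
 (.mul (.g 4) (.add (.add (.pp [(1, 84002520000)]) (.mul (.g 5) (.add (.add (.pp [(1, 2520000)])
 (.mul (.pp [(1, 72)]) (.sq [(1, 38), (2, 100), (3, 67), (5, 78)]))) (.add (.mul (.g 5) (.pp [(1,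
 720000)])) (.mul (.g 6) (.pp [(1, 2400000)])))))) (.add (.mul (.g 6) (.add (.pp [(1, 4920000)])
 (.mul (.pp [(1, 768)]) (.sq [(1, 25), (2, 22), (3, 22), (5, 22)])))) (.mul (.g 12) (.mul (.pp [(1,
 3)]) (.sq [(1, 93), (2, -34), (3, 25), (5, 100)]))))))) (.add (.mul (.g 10) (.add (.add (.mul (.pp
 [(1, 960000)]) (.sq [(2, 1), (3, 1), (5, 1)])) (.mul (.g 5) (.mul (.pp [(1, 24)]) (.sq [(1, 88),
 (2, 34), (3, 27), (5, 100)])))) (.add (.mul (.g 6) (.pp [(1, 4320000)])) (.mul (.g 14) (.mul (.pp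
 [(1, 480000)]) (.sq [(2, 1), (5, -1)])))))) (.mul (.g 14) (.add (.pp [(1, 47990160000)]) (.mul (.g
 15) (.pp [(1, 97682640000)])))))) (.add (.add (.mul (.g 0) (.pp [(1, 80000000000)])) (.mul (.g 2)
 (.pp [(1, 80000000000)]))) (.add (.mul (.g 6) (.mul (.g 15) (.pp [(1, 22314480000)]))) (.mul (.g
 13) (.pp [(1, 320000000)]))))) (.pp [(1, 5006513523), (2, 2111322), (3, 2606610), (4, 2126652),
 (5, 2454588), (6, 2419704), (8, 1928856), (9, 2253075), (10, 2341320), (12, 2555400), (15,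
 1905792), (16, 1273536), (18, 2343270), (20, 2379408), (24, 2519424), (25, 2168544), (27, 550788),
 (30, 2367600), (36, 2360832), (40, 2806464), (45, 2873508), (50, 2580288), (54, 835920), (60,
 2117760), (75, 2915808), (90, 2301432), (100, 2028672), (125, 2520704), (135, 78552), (150,
 2516832), (225, 262680), (250, 2636928), (375, 2402400), (625, 2423520)]))))))))
 (P_c4 ++ xP_A_F5b) = true := by decide +kernel

theorem t_A_F5c_c1 : chk RFp gP_A_F5c
 (.cut 50 [(2, 1), (3, -1)] (.add (.add (.mul (.g 8) (.pp [(1, 45)])) (.mul (.g 7) (.pp [(1, 2)])))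
 (.add (.mul (.g 2) (.pp [(1, 5)])) (.mul (.g 9) (.pp [(1, 9)])))) (.rule 0 (.cut 60 [(2, -1), (5,
 1)] (.add (.add (.mul (.g 11) (.pp [(1, 11)])) (.mul (.g 9) (.pp [(1, 3)]))) (.add (.mul (.g 1)
 (.pp [(1, 5)])) (.mul (.g 6) (.pp [(1, 5)])))) (.rule 3 (.leaf 3000000 (.add (.add (.add (.add
 (.mul (.g 5) (.add (.add (.mul (.g 4) (.add (.add (.mul (.g 9) (.add (.pp [(1, 12059730000)])
 (.mul (.g 15) (.pp [(1, 780000)])))) (.mul (.g 4) (.mul (.g 8) (.pp [(1, 150000)])))) (.add (.mul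
 (.g 12) (.pp [(1, 8963940000)])) (.mul (.g 13) (.pp [(1, 1793616000)]))))) (.mul (.g 5) (.add
 (.mul (.g 5) (.add (.pp [(1, 3420000000)]) (.add (.mul (.g 5) (.pp [(1, 362700000)])) (.mul (.g 8)
 (.pp [(1, 1110000)]))))) (.mul (.g 13) (.mul (.g 16) (.pp [(1, 60000)])))))) (.add (.mul (.g 6)
 (.add (.mul (.g 8) (.add (.pp [(1, 8963160000)]) (.mul (.g 10) (.pp [(1, 1800000)])))) (.add (.mul
 (.g 13) (.pp [(1, 426000)])) (.mul (.g 16) (.mul (.g 16) (.pp [(1, 300000)])))))) (.add (.mul (.g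
 13) (.add (.pp [(1, 1887144000)]) (.mul (.g 13) (.pp [(1, 682652400)])))) (.mul (.g 8) (.pp [(1,
 24188850000)])))))) (.mul (.g 4) (.add (.add (.mul (.g 4) (.add (.mul (.g 4) (.add (.mul (.g 8)
 (.pp [(1, 390000)])) (.mul (.g 12) (.pp [(1, 2160000)])))) (.add (.mul (.g 13) (.add (.mul (.g 13)
 (.pp [(1, 18000)])) (.mul (.g 16) (.pp [(1, 198000)])))) (.mul (.g 8) (.mul (.g 12) (.pp [(1,
 2175000)])))))) (.mul (.g 6) (.mul (.g 8) (.pp [(1, 7770000)])))) (.add (.mul (.g 9) (.mul (.g 11)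
 (.pp [(1, 310500)]))) (.mul (.g 12) (.mul (.g 13) (.mul (.g 16) (.pp [(1, 147000)])))))))) (.add
 (.mul (.g 8) (.add (.pp [(1, 3767970000)]) (.add (.mul (.g 6) (.add (.pp [(1, 13740000)]) (.mul
 (.g 16) (.mul (.g 16) (.pp [(1, 1110000)]))))) (.mul (.g 8) (.pp [(1, 8460000)]))))) (.add (.mul
 (.g 9) (.add (.mul (.pp [(1, 2208)]) (.sq [(2, -23), (5, 25)])) (.mul (.g 15) (.mul (.pp [(1, 3)])
 (.sq [(1, -89), (2, 87), (3, 62), (5, 100)]))))) (.mul (.g 10) (.add (.mul (.g 6) (.mul (.g 6)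
 (.mul (.g 12) (.pp [(1, 345000)])))) (.mul (.g 10) (.mul (.pp [(1, 9)]) (.sq [(1, 9), (2, 100),
 (3, 14), (5, -73)])))))))) (.add (.add (.mul (.g 13) (.add (.mul (.g 11) (.pp [(1, 85314600)]))
 (.mul (.g 16) (.pp [(1, 86652000)])))) (.mul (.g 0) (.pp [(1, 10000000000)]))) (.add (.mul (.g 2)
 (.pp [(1, 10000000000)])) (.add (.mul (.g 14) (.pp [(1, 2000000)])) (.mul (.g 16) (.mul (.g 16)
 (.pp [(1, 510000)]))))))) (.pp [(1, 20003037), (2, 291195), (3, 332034), (4, 311490), (5, 359163),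
 (6, 282549), (8, 263061), (9, 245760), (10, 276900), (12, 279756), (15, 205671), (16, 330000),
 (18, 309882), (20, 262965), (24, 312507), (25, 245871), (27, 333904), (30, 360906), (36, 298293),
 (40, 296400), (45, 389730), (50, 347148), (54, 287496), (60, 315489), (75, 351984), (81, 286704),
 (90, 285372), (100, 289239), (125, 311826), (135, 266136), (150, 304530), (225, 264867), (250,
 302322), (375, 282474), (625, 297039)])))))))
 (P_c1 ++ xP_A_F5c) = true := by decide +kernel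

theorem t_A_F7_c0 : chk ROp gP_A_F7
 (.split [(1, -7), (3, 50)]
 (.cut 50 [(2, 1), (3, -1)] (.add (.add (.mul (.g 9) (.pp [(1, 45)])) (.mul (.g 8) (.pp [(1, 2)])))
 (.add (.mul (.g 3) (.pp [(1, 5)])) (.mul (.g 10) (.pp [(1, 9)])))) (.rule 0 (.cut 60 [(2, -1), (5,
 1)] (.add (.add (.mul (.g 12) (.pp [(1, 11)])) (.mul (.g 10) (.pp [(1, 3)]))) (.add (.mul (.g 1)
 (.pp [(1, 5)])) (.mul (.g 7) (.pp [(1, 5)])))) (.rule 3 (.cut 3 [(1, 69), (3, -100)] (.add (.mul
 (.g 3) (.pp [(1, 145)])) (.add (.mul (.g 14) (.pp [(1, 31)])) (.mul (.g 9) (.pp [(1, 145)]))))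
 (.rule 7 (.leaf 15000000000 (.add (.add (.add (.add (.mul (.g 18) (.add (.add (.add (.mul (.g 10)
 (.add (.add (.mul (.g 10) (.add (.add (.pp [(1, 8672100000000)]) (.mul (.g 7) (.pp [(1,
 1191750000000)]))) (.add (.mul (.g 8) (.pp [(1, 1018200000000)])) (.add (.mul (.g 10) (.pp [(1,
 1500000000)])) (.mul (.g 15) (.pp [(1, 4232775000000)])))))) (.mul (.g 9) (.add (.mul (.g 9) (.pp
 [(1, 10330650000000)])) (.mul (.g 15) (.pp [(1, 561000000000)]))))) (.add (.mul (.g 7) (.pp [(1,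
 79701600000000)])) (.add (.mul (.g 8) (.mul (.g 15) (.pp [(1, 13921650000000)]))) (.mul (.g 16)
 (.pp [(1, 777300000000)])))))) (.mul (.g 9) (.mul (.g 9) (.add (.pp [(1, 1546800000000)]) (.add
 (.mul (.g 9) (.pp [(1, 792900000000)])) (.mul (.g 18) (.pp [(1, 2925450000000)]))))))) (.add (.mul
 (.g 11) (.add (.mul (.pp [(1, 41655000)]) (.sq [(1, 1), (2, 100), (3, 8), (5, 90), (7, -74)]))
 (.add (.mul (.pp [(1, 480420000)]) (.sq [(1, -90), (2, 78), (3, -87), (5, 33), (7, 100)])) (.mul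
 (.pp [(1, 78735000)]) (.sq [(1, -100), (2, 21), (3, 61), (5, 94), (7, 94)]))))) (.mul (.g 16)
 (.add (.pp [(1, 987690000000)]) (.add (.mul (.pp [(1, 226587000)]) (.sq [(1, 2), (2, 100), (3,
 57), (5, 15), (7, -30)])) (.mul (.g 7) (.mul (.g 7) (.pp [(1, 5413560000000)])))))))) (.add (.add
 (.mul (.g 15) (.add (.pp [(1, 6833550000000)]) (.mul (.pp [(1, 299295000)]) (.sq [(1, 100), (2,
 82), (3, -30), (5, 87), (7, 32)])))) (.mul (.g 6) (.mul (.g 8) (.mul (.g 8) (.pp [(1,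
 392568000000)]))))) (.add (.mul (.g 13) (.mul (.pp [(1, 454080000)]) (.sq [(1, 1), (2, -40), (3,
 45), (5, -57), (7, 100)]))) (.mul (.g 18) (.pp [(1, 3976500000000)])))))) (.mul (.g 11) (.add
 (.add (.add (.mul (.pp [(1, 66990000)]) (.sq [(1, -26), (2, 43), (3, -36), (5, 20), (7, 100)]))
 (.mul (.g 9) (.add (.add (.mul (.g 7) (.add (.mul (.g 7) (.pp [(1, 69300000000)])) (.mul (.g 16)
 (.pp [(1, 1260360000000)])))) (.mul (.g 9) (.add (.mul (.g 6) (.pp [(1, 110226000000)])) (.mul (.g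
 14) (.pp [(1, 690000000)]))))) (.add (.mul (.g 14) (.mul (.g 16) (.pp [(1, 49233000000)]))) (.mul
 (.g 15) (.pp [(1, 28824600000000)])))))) (.add (.mul (.g 10) (.add (.add (.mul (.g 6) (.add (.mul
 (.g 14) (.pp [(1, 4688250000)])) (.mul (.g 16) (.pp [(1, 77384400000)])))) (.mul (.g 7) (.mul (.g
 8) (.pp [(1, 43583550000000)])))) (.add (.mul (.g 10) (.pp [(1, 1601550000000)])) (.mul (.g 15)
 (.pp [(1, 14883750000000)]))))) (.mul (.g 8) (.add (.mul (.g 8) (.mul (.g 8) (.pp [(1,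
 19317150000000)]))) (.mul (.g 11) (.mul (.g 14) (.pp [(1, 17880000000)]))))))) (.add (.add (.mul
 (.g 6) (.pp [(1, 167499000000)])) (.mul (.g 11) (.mul (.pp [(1, 6060000)]) (.sq [(1, -40), (2,
 100), (3, 22), (5, 1), (7, -21)])))) (.add (.mul (.g 12) (.mul (.pp [(1, 41865000)]) (.sq [(1,
 17), (2, 6), (3, -76), (5, 24), (7, 100)]))) (.mul (.g 14) (.pp [(1, 615900000000)]))))))) (.add
 (.mul (.g 6) (.add (.add (.mul (.g 10) (.add (.mul (.g 6) (.add (.mul (.g 6) (.pp [(1,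
 16834800)])) (.mul (.g 10) (.pp [(1, 97620000)])))) (.add (.mul (.g 12) (.add (.mul (.g 7) (.pp
 [(1, 61023000000)])) (.mul (.g 9) (.pp [(1, 94848000000)])))) (.mul (.g 10) (.mul (.g 15) (.pp
 [(1, 312879000000)])))))) (.mul (.g 16) (.add (.mul (.g 9) (.add (.mul (.g 9) (.pp [(1,
 51243600000)])) (.mul (.g 15) (.pp [(1, 87149700000)])))) (.mul (.g 7) (.mul (.g 7) (.pp [(1,
 139305000000)])))))) (.add (.mul (.g 12) (.add (.pp [(1, 703530000000)]) (.mul (.g 7) (.pp [(1,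
 1212534000000)])))) (.add (.mul (.g 6) (.mul (.pp [(1, 35928)]) (.sq [(1, 59), (2, 14), (3, 40),
 (5, -62), (7, 100)]))) (.mul (.g 8) (.mul (.pp [(1, 18229800)]) (.sq [(1, 56), (2, 17), (3, 46),
 (5, -65), (7, 100)]))))))) (.add (.mul (.g 15) (.add (.add (.mul (.g 8) (.add (.add (.pp [(1,
 4753950000000)]) (.mul (.g 7) (.pp [(1, 21099075000000)]))) (.add (.mul (.g 8) (.mul (.g 9) (.pp
 [(1, 17886750000000)]))) (.mul (.g 15) (.pp [(1, 10289887500000)]))))) (.add (.mul (.g 9) (.mul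
 (.g 10) (.add (.mul (.g 14) (.pp [(1, 44681250000)])) (.mul (.g 15) (.pp [(1, 896250000000)])))))
 (.mul (.g 7) (.mul (.g 13) (.pp [(1, 2705025000000)]))))) (.add (.mul (.g 12) (.pp [(1,
 2194275000000)])) (.add (.mul (.g 14) (.mul (.pp [(1, 211875)]) (.sq [(1, -100), (2, -83), (3,
 83)]))) (.mul (.g 15) (.pp [(1, 24090300000000)])))))) (.mul (.g 12) (.add (.mul (.g 7) (.mul (.g
 14) (.add (.pp [(1, 1207747500000)]) (.mul (.g 9) (.pp [(1, 562500000)]))))) (.mul (.g 13) (.mul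
 (.pp [(1, 345000)]) (.sq [(1, -100), (2, 81), (3, -95), (5, 66), (7, 29)])))))))) (.add (.add
 (.mul (.g 8) (.add (.mul (.g 8) (.mul (.g 8) (.mul (.g 8) (.pp [(1, 17373150000000)])))) (.mul (.g
 16) (.mul (.g 16) (.mul (.g 16) (.pp [(1, 22537200000)])))))) (.add (.mul (.g 0) (.pp [(1,
 30000000000)])) (.mul (.g 2) (.pp [(1, 50000000000000)])))) (.add (.mul (.g 4) (.pp [(1,
 50000000000000)])) (.add (.mul (.g 16) (.mul (.g 16) (.pp [(1, 2822358000000)]))) (.mul (.g 17)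
 (.pp [(1, 50000000000)])))))) (.pp [(1, 175176220968), (2, 1549055256), (3, 1547673360), (4,
 1528777488), (5, 1481788152), (6, 1452699960), (7, 1558987800), (8, 1473693750), (9, 1590960000),
 (10, 1550449392), (12, 1349207625), (14, 1473773400), (15, 1648904520), (16, 1554960000), (18,
 1513809900), (20, 1475053125), (21, 1521276000), (24, 1310122500), (25, 1667515632), (27,
 1480926725), (28, 1532085000), (30, 1328322150), (35, 1481272800), (36, 1847047500), (40,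
 1473217500), (42, 1383270000), (45, 1417219125), (49, 1653780000), (50, 1369290000), (54,
 1337077500), (56, 1554555000), (60, 1820910000), (63, 1389531000), (70, 1435230000), (75,
 1306277400), (81, 1521607500), (84, 1594200000), (90, 1429927500), (98, 1502865000), (100,
 1332082500), (105, 1565640000), (125, 1415355000), (126, 1425855000), (135, 1544775000), (140,
 1605360000), (147, 1209855000), (150, 1640085000), (175, 1351020000), (189, 1475835000), (196,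
 1404225000), (210, 1460040000), (225, 1538842500), (245, 1463655000), (250, 1618860000), (294,
 1572210000), (315, 1520250000), (343, 1461840000), (350, 1552680000), (375, 1521405000), (441,
 1549665000), (490, 1558350000), (525, 1575000000), (625, 1502820000), (686, 1450920000), (735,
 1448550000), (875, 1537725000), (1029, 1605420000), (1225, 1503585000), (1715, 1546920000), (2401,
 1500000000)])))))))))
 (.cut 450 [(2, 1), (3, -1)] (.add (.add (.mul (.g 1) (.pp [(1, 310)])) (.mul (.g 9) (.pp [(1,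
 140)]))) (.add (.mul (.g 8) (.pp [(1, 7)])) (.mul (.g 0) (.pp [(1, 9)])))) (.rule 0 (.cut 450 [(2,
 -1), (5, 1)] (.add (.mul (.g 9) (.pp [(1, 310)])) (.add (.mul (.g 10) (.pp [(1, 7)])) (.mul (.g 2)
 (.pp [(1, 9)])))) (.rule 3 (.leaf 300000000 (.add (.add (.add (.add (.mul (.g 6) (.add (.add (.add
 (.mul (.g 5) (.add (.add (.mul (.g 4) (.add (.mul (.g 8) (.pp [(1, 19466520000)])) (.mul (.g 16)
 (.pp [(1, 75497400000)])))) (.add (.mul (.g 9) (.add (.mul (.g 9) (.pp [(1, 148014000000)])) (.mul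
 (.g 13) (.pp [(1, 61989000000)])))) (.mul (.g 5) (.mul (.g 16) (.pp [(1, 1900959000000)])))))
 (.add (.mul (.g 8) (.mul (.g 8) (.pp [(1, 166650000000)]))) (.add (.mul (.g 10) (.pp [(1,
 1408911000000)])) (.mul (.g 13) (.pp [(1, 790497000000)])))))) (.mul (.g 6) (.add (.mul (.g 8)
 (.add (.mul (.g 7) (.pp [(1, 17610000000)])) (.add (.mul (.g 9) (.pp [(1, 180219000000)])) (.mul
 (.g 13) (.pp [(1, 192873000000)]))))) (.add (.mul (.g 6) (.add (.mul (.g 4) (.pp [(1,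
 268920000)])) (.mul (.g 9) (.pp [(1, 1352325000000)])))) (.mul (.g 16) (.add (.mul (.g 9) (.pp
 [(1, 456663000000)])) (.mul (.g 13) (.pp [(1, 134217000000)])))))))) (.add (.mul (.g 4) (.add (.pp
 [(1, 12908820000)]) (.add (.mul (.pp [(1, 14610)]) (.sq [(1, 56), (2, 100), (3, 69), (5, 93), (7,
 93)])) (.mul (.g 4) (.mul (.g 10) (.pp [(1, 84351600)])))))) (.mul (.g 7) (.add (.mul (.pp [(1,
 387300)]) (.sq [(1, 34), (2, 11), (3, 22), (5, -19), (7, 100)])) (.add (.mul (.g 7) (.mul (.g 9)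
 (.pp [(1, 87345000000)]))) (.mul (.g 8) (.pp [(1, 64113000000)]))))))) (.add (.add (.mul (.g 8)
 (.mul (.g 8) (.add (.mul (.g 12) (.pp [(1, 11479050000)])) (.mul (.g 13) (.pp [(1,
 290784000000)]))))) (.mul (.g 9) (.mul (.g 16) (.mul (.g 16) (.pp [(1, 188484000000)]))))) (.add
 (.mul (.g 10) (.pp [(1, 207516000000)])) (.mul (.g 13) (.pp [(1, 168163500000)])))))) (.mul (.g
 16) (.add (.add (.add (.mul (.g 8) (.add (.add (.mul (.pp [(1, 364500)]) (.sq [(1, -41), (2, -72),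
 (3, 76), (5, 56), (7, 100)])) (.mul (.g 8) (.add (.pp [(1, 50307000000)]) (.mul (.g 11) (.pp [(1,
 162537000000)]))))) (.add (.mul (.g 5) (.pp [(1, 1886997000000)])) (.mul (.g 11) (.mul (.g 13)
 (.pp [(1, 104707500000)])))))) (.mul (.g 13) (.add (.mul (.pp [(1, 71850)]) (.sq [(1, 1), (2, -7),
 (3, 100), (5, -96), (7, 7)])) (.add (.mul (.pp [(1, 24458550)]) (.sq [(1, 2), (2, -34), (3, 39),
 (5, 18), (7, 100)])) (.mul (.g 7) (.mul (.g 7) (.pp [(1, 148411500000)]))))))) (.add (.mul (.g 16)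
 (.add (.pp [(1, 79041000000)]) (.add (.mul (.pp [(1, 643500)]) (.sq [(1, -100), (2, 37), (3, 19),
 (5, 60), (7, 60)])) (.mul (.pp [(1, 129900)]) (.sq [(1, 17), (2, 26), (3, 88), (5, -43), (7,
 100)]))))) (.mul (.g 4) (.add (.pp [(1, 7872240000)]) (.mul (.g 5) (.mul (.g 14) (.pp [(1,
 10034292000)]))))))) (.add (.add (.mul (.g 9) (.add (.mul (.pp [(1, 20801700)]) (.sq [(1, -9), (2,
 -26), (3, -38), (7, 100)])) (.mul (.pp [(1, 3017100)]) (.sq [(1, -100), (2, 21), (3, 61), (5, 94),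
 (7, 94)])))) (.mul (.g 11) (.add (.mul (.pp [(1, 8787300)]) (.sq [(1, -33), (2, -24), (3, 17), (5,
 18), (7, 100)])) (.mul (.pp [(1, 11674200)]) (.sq [(1, -87), (2, 35), (3, -3), (5, 100)])))))
 (.add (.mul (.g 5) (.mul (.g 5) (.mul (.g 14) (.pp [(1, 321922800000)])))) (.mul (.g 10) (.mul
 (.pp [(1, 4439400)]) (.sq [(1, -3), (2, -33), (3, 100), (5, -88), (7, -30)])))))))) (.add (.mul
 (.g 9) (.add (.add (.mul (.g 5) (.add (.mul (.pp [(1, 3793500)]) (.sq [(1, 51), (2, -10), (3, 13),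
 (5, 10), (7, 100)])) (.add (.mul (.g 9) (.add (.mul (.g 5) (.pp [(1, 79698000000)])) (.mul (.g 12)
 (.pp [(1, 3708450000)])))) (.mul (.g 13) (.add (.mul (.g 7) (.pp [(1, 62782500000)])) (.mul (.g
 10) (.pp [(1, 74697000000)]))))))) (.add (.mul (.g 7) (.add (.mul (.pp [(1, 22028400)]) (.sq [(1,
 -28), (2, -99), (3, -2), (5, 100), (7, -9)])) (.mul (.g 7) (.add (.mul (.g 12) (.pp [(1,
 5764500000)])) (.mul (.g 13) (.pp [(1, 260191500000)])))))) (.mul (.g 12) (.add (.pp [(1,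
 12243150000)]) (.mul (.pp [(1, 849210)]) (.sq [(1, -38), (2, 3), (3, -25), (5, 16), (7,
 100)])))))) (.add (.mul (.g 8) (.mul (.pp [(1, 156900)]) (.sq [(1, 48), (2, 100), (3, 18), (5,
 97), (7, 68)]))) (.add (.mul (.g 9) (.mul (.pp [(1, 61262400)]) (.sq [(1, -26), (2, 50), (3, -42),
 (5, 13), (7, 13)]))) (.mul (.g 10) (.mul (.pp [(1, 8333100)]) (.sq [(1, -100), (2, 34), (3, 96),
 (5, 94), (7, 95)]))))))) (.add (.mul (.g 13) (.add (.add (.pp [(1, 17380500000)]) (.mul (.g 8)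
 (.add (.pp [(1, 48853500000)]) (.add (.mul (.g 4) (.mul (.g 14) (.pp [(1, 720630000)]))) (.mul (.g
 8) (.mul (.g 12) (.pp [(1, 14224200000)]))))))) (.add (.mul (.g 13) (.add (.pp [(1, 88274250000)])
 (.mul (.g 11) (.pp [(1, 43531500000)])))) (.mul (.g 10) (.pp [(1, 38436000000)]))))) (.mul (.g 7)
 (.add (.mul (.g 4) (.mul (.pp [(1, 36744)]) (.sq [(1, -4), (2, -100), (3, -3), (5, -81), (7,
 96)]))) (.add (.mul (.g 7) (.mul (.g 10) (.mul (.g 12) (.pp [(1, 838800000)])))) (.mul (.g 8)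
 (.mul (.pp [(1, 1405800)]) (.sq [(1, -59), (2, -31), (3, -9), (5, 100), (7, -41)]))))))))) (.add
 (.add (.mul (.g 0) (.pp [(1, 1000000000000)])) (.mul (.g 2) (.pp [(1, 1000000000000)]))) (.add
 (.mul (.g 10) (.mul (.g 10) (.mul (.pp [(1, 11010000)]) (.sq [(1, 7), (2, -7), (3, -34), (5, -39),
 (7, 100)])))) (.add (.mul (.g 12) (.mul (.g 14) (.mul (.pp [(1, 89043)]) (.sq [(1, -30), (2, 21),
 (3, 3), (5, 100), (7, -3)])))) (.mul (.g 15) (.pp [(1, 1000000000)])))))) (.pp [(1, 6068193960),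
 (2, 33380880), (3, 30670710), (4, 26012364), (5, 30952182), (6, 27605124), (7, 31038120), (8,
 32832510), (9, 29730906), (10, 26265780), (12, 28277715), (14, 27937776), (15, 30150738), (16,
 29065800), (18, 37533000), (19, 3000000000000), (20, 35717490), (21, 29038098), (24, 31940100),
 (25, 30750756), (27, 27145585), (28, 31812780), (30, 25067580), (35, 29959494), (36, 28355250),
 (40, 27534600), (42, 30965970), (45, 32555118), (49, 27308466), (50, 27798960), (54, 26868600),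
 (56, 31031400), (60, 27982950), (63, 31510410), (70, 32992920), (75, 30912282), (81, 30883050),
 (84, 30868350), (90, 34565400), (98, 26907180), (100, 33028800), (105, 25745808), (125, 31122912),
 (126, 24152400), (135, 28406850), (140, 30446550), (147, 35751525), (150, 29895000), (175,
 24301716), (189, 30976350), (196, 29544600), (210, 32511300), (225, 27336600), (245, 29413242),
 (250, 28143600), (294, 32605800), (315, 31065750), (343, 30690000), (350, 30234900), (375,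
 30245700), (441, 24255450), (490, 32959800), (525, 32097000), (625, 29790000), (686, 31491300),
 (735, 27594450), (875, 32131800), (1029, 26299350), (1225, 30381300), (1715, 28709550), (2401,
 29400000)]))))))))
 (P_c0 ++ xP_A_F7) = true := by decide +kernel

theorem t_A_F7_c4 : chk RFp gP_A_F7
 (.rule 5 (.rule 6 (.leaf 3000000 (.add (.add (.add (.add (.mul (.g 3) (.add (.add (.mul (.g 3)
 (.add (.add (.pp [(1, 2556240000)]) (.add (.mul (.g 3) (.add (.add (.pp [(1, 332790000)]) (.mul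
 (.g 2) (.pp [(1, 1260000)]))) (.add (.mul (.g 5) (.pp [(1, 270000)])) (.add (.mul (.g 7) (.pp [(1,
 690000)])) (.mul (.g 11) (.pp [(1, 630000)])))))) (.mul (.g 2) (.add (.pp [(1, 1107930000)]) (.add
 (.mul (.g 2) (.pp [(1, 1375170000)])) (.mul (.g 7) (.pp [(1, 90000)]))))))) (.add (.mul (.g 4)
 (.mul (.g 4) (.pp [(1, 960000)]))) (.add (.mul (.g 7) (.mul (.g 7) (.pp [(1, 1020000)]))) (.mul
 (.g 11) (.pp [(1, 664230000)])))))) (.mul (.g 4) (.add (.add (.mul (.g 4) (.add (.mul (.g 7) (.pp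
 [(1, 330000)])) (.add (.mul (.g 8) (.pp [(1, 630000)])) (.mul (.g 11) (.pp [(1, 660000)])))))
 (.mul (.g 5) (.add (.mul (.g 2) (.pp [(1, 1110000)])) (.add (.mul (.g 5) (.pp [(1, 1590000)]))
 (.mul (.g 11) (.pp [(1, 990000)])))))) (.add (.mul (.g 6) (.mul (.g 6) (.pp [(1, 2078190000)])))
 (.mul (.g 7) (.mul (.g 9) (.pp [(1, 84000)]))))))) (.add (.mul (.g 2) (.add (.mul (.g 2) (.add
 (.pp [(1, 232710000)]) (.mul (.g 6) (.pp [(1, 3453270000)])))) (.add (.mul (.g 5) (.add (.pp [(1,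
 13955760000)]) (.mul (.g 6) (.pp [(1, 700410000)])))) (.mul (.g 7) (.pp [(1, 4663560000)])))))
 (.add (.mul (.g 5) (.add (.mul (.pp [(1, 15)]) (.sq [(1, -25), (2, -9), (3, -87), (5, -100), (7,
 48)])) (.mul (.g 5) (.pp [(1, 2629230000)])))) (.mul (.g 11) (.add (.pp [(1, 2326410000)]) (.mul
 (.g 11) (.pp [(1, 331890000)])))))))) (.mul (.g 11) (.add (.add (.mul (.g 2) (.add (.add (.mul
 (.pp [(1, 12)]) (.sq [(1, 70), (2, 100), (3, 95), (5, 95), (7, 67)])) (.mul (.g 2) (.add (.mul (.g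
 2) (.pp [(1, 2509320000)])) (.add (.mul (.g 4) (.pp [(1, 700590000)])) (.mul (.g 6) (.pp [(1,
 2869170000)])))))) (.add (.mul (.g 5) (.add (.pp [(1, 20007000000)]) (.add (.mul (.g 4) (.pp [(1,
 570000)])) (.mul (.g 5) (.pp [(1, 210000)]))))) (.mul (.g 4) (.pp [(1, 4810020000)]))))) (.add
 (.mul (.g 5) (.add (.mul (.pp [(1, 12)]) (.sq [(1, -39), (2, 40), (3, 50), (5, 10), (7, 21)]))
 (.add (.mul (.g 5) (.add (.pp [(1, 2961630000)]) (.add (.mul (.g 4) (.pp [(1, 300000)])) (.mul (.g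
 5) (.pp [(1, 300000)]))))) (.mul (.g 4) (.pp [(1, 930000)]))))) (.mul (.g 4) (.mul (.g 4) (.add
 (.pp [(1, 1050000)]) (.mul (.g 11) (.pp [(1, 30000)]))))))) (.add (.mul (.g 6) (.mul (.g 6) (.mul
 (.g 6) (.pp [(1, 340470000)])))) (.add (.mul (.g 9) (.pp [(1, 27130500)])) (.mul (.g 11) (.pp [(1,
 1766280000)]))))))) (.add (.mul (.g 7) (.add (.mul (.g 4) (.add (.add (.mul (.pp [(1, 60)]) (.sq
 [(1, 3), (3, 100), (5, -65), (7, -38)])) (.mul (.g 8) (.add (.mul (.g 4) (.pp [(1, 690000)]))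
 (.mul (.g 7) (.pp [(1, 630000)]))))) (.add (.mul (.g 2) (.pp [(1, 727320000)])) (.mul (.g 5) (.mul
 (.g 5) (.pp [(1, 120000)])))))) (.add (.mul (.g 9) (.add (.pp [(1, 72766500)]) (.mul (.g 2) (.add
 (.pp [(1, 322338000)]) (.mul (.g 2) (.pp [(1, 68818500)])))))) (.mul (.g 5) (.mul (.g 5) (.mul (.g
 8) (.pp [(1, 120000)]))))))) (.mul (.g 6) (.add (.add (.mul (.pp [(1, 93342)]) (.sq [(1, -65), (2,
 88), (5, 29), (7, 100)])) (.mul (.g 4) (.add (.mul (.g 2) (.mul (.g 2) (.pp [(1, 1377570000)])))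
 (.add (.mul (.g 4) (.mul (.g 5) (.pp [(1, 480000)]))) (.mul (.g 6) (.mul (.g 9) (.pp [(1,
 68742000)]))))))) (.add (.mul (.g 2) (.mul (.g 5) (.pp [(1, 2316120000)]))) (.add (.mul (.g 6)
 (.mul (.g 6) (.mul (.g 6) (.pp [(1, 1376070000)])))) (.mul (.g 9) (.pp [(1, 924321000)]))))))))
 (.add (.add (.mul (.g 9) (.add (.pp [(1, 41551500)]) (.mul (.g 2) (.add (.mul (.g 2) (.add (.pp
 [(1, 32572500)]) (.mul (.g 5) (.pp [(1, 35026500)])))) (.mul (.g 5) (.pp [(1, 267526500)]))))))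
 (.mul (.g 0) (.pp [(1, 10000000000)]))) (.add (.mul (.g 1) (.pp [(1, 10000000000)])) (.add (.mul
 (.g 5) (.mul (.g 5) (.pp [(1, 365400000)]))) (.mul (.g 10) (.pp [(1, 40000000)])))))) (.pp [(1,
 236735550), (2, 275130), (3, 267000), (4, 390072), (5, 288300), (6, 277200), (7, 283248), (8,
 266948), (9, 360000), (10, 254952), (12, 273500), (14, 316980), (15, 330540), (16, 300000), (18,
 311300), (20, 261068), (21, 295677), (24, 330000), (25, 303318), (27, 270000), (28, 275700), (30,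
 303000), (35, 319440), (36, 318000), (40, 300000), (42, 327210), (45, 300000), (49, 307908), (50,
 345722), (54, 288300), (56, 330000), (60, 318000), (63, 307950), (70, 314520), (75, 306600), (81,
 300000), (84, 286785), (90, 276600), (98, 331092), (100, 330000), (105, 285960), (125, 293100),
 (126, 285570), (135, 300000), (140, 288000), (147, 334344), (150, 228300), (175, 318720), (189,
 276465), (196, 300000), (210, 267960), (225, 330000), (245, 288960), (250, 256500), (294, 257748),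
 (315, 285000), (343, 305052), (350, 291900), (375, 343500), (441, 300480), (490, 285720), (525,
 291600), (625, 313500), (686, 284028), (735, 307680), (875, 296400), (1029, 295932), (1225,
 297840), (1715, 305040), (2401, 305292)])))))
 (P_c4 ++ xP_A_F7) = true := by decide +kernel

theorem t_A_T2_Tp0_b : chk Rbp gP_A_T2
 (.split [(1, 1), (2, -20)]
 (.split [(1, -17), (3, 25)]
 (.split [(1, -7), (5, 50)]
 (.rule 7 (.cut 5 [(1, 3), (5, -5)] (.add (.add (.mul (.g 4) (.pp [(1, 115)])) (.mul (.g 2) (.pp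
 [(1, 1)]))) (.add (.mul (.g 9) (.pp [(1, 25)])) (.mul (.g 3) (.pp [(1, 7)])))) (.rule 11 (.rule 4
 (.leaf 570000 (.add (.add (.add (.add (.mul (.pp [(1, 12000)]) (.sq [(1, -323), (2, -70), (3,
 475)])) (.mul (.pp [(1, 3000)]) (.sq [(1, -133), (2, -680), (5, 950)]))) (.add (.mul (.g 7) (.add
 (.add (.add (.mul (.pp [(1, 1140000)]) (.sq [(1, -27), (3, 50), (5, -50)])) (.mul (.g 6) (.add
 (.add (.pp [(1, 91511790)]) (.mul (.g 8) (.add (.add (.pp [(1, 3135)]) (.mul (.g 7) (.pp [(1,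
 2850)]))) (.add (.mul (.g 8) (.pp [(1, 2850)])) (.add (.mul (.g 9) (.pp [(1, 2850)])) (.mul (.g
 10) (.pp [(1, 2850)]))))))) (.add (.mul (.g 9) (.add (.add (.pp [(1, 3135)]) (.mul (.g 7) (.pp
 [(1, 2850)]))) (.add (.mul (.g 9) (.pp [(1, 2850)])) (.mul (.g 10) (.pp [(1, 2850)]))))) (.add
 (.mul (.g 7) (.add (.mul (.g 7) (.pp [(1, 3451350)])) (.mul (.g 10) (.pp [(1, 102773850)]))))
 (.mul (.g 10) (.pp [(1, 66160185)]))))))) (.add (.mul (.g 10) (.add (.add (.mul (.g 18) (.add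
 (.add (.pp [(1, 2801920500)]) (.mul (.g 8) (.pp [(1, 57000)]))) (.add (.mul (.g 9) (.pp [(1,
 57000)])) (.mul (.g 10) (.pp [(1, 547827000)]))))) (.mul (.g 5) (.add (.pp [(1, 23990616)]) (.mul
 (.g 10) (.pp [(1, 21913080)]))))) (.add (.mul (.g 7) (.mul (.g 10) (.pp [(1, 1363383000)]))) (.mul
 (.g 8) (.pp [(1, 2202035400)]))))) (.mul (.g 9) (.add (.add (.mul (.g 9) (.add (.mul (.g 16) (.pp
 [(1, 57000)])) (.mul (.g 18) (.pp [(1, 57000)])))) (.mul (.g 8) (.mul (.g 15) (.pp [(1,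
 57000)])))) (.add (.mul (.g 16) (.pp [(1, 171000)])) (.mul (.g 18) (.pp [(1, 114000)]))))))) (.add
 (.add (.mul (.g 8) (.mul (.g 15) (.add (.pp [(1, 114000)]) (.mul (.g 8) (.pp [(1, 57000)])))))
 (.mul (.g 7) (.mul (.g 7) (.pp [(1, 2265088800)])))) (.add (.mul (.g 16) (.pp [(1, 353400)]))
 (.mul (.g 18) (.pp [(1, 176700)])))))) (.mul (.g 6) (.add (.mul (.pp [(1, 228000)]) (.sq [(1,
 -17), (3, 25)])) (.mul (.pp [(1, 57000)]) (.sq [(1, -7), (5, 50)])))))) (.add (.add (.mul (.g 0)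
 (.pp [(1, 1900000000)])) (.mul (.g 1) (.pp [(1, 1140000)]))) (.add (.mul (.g 3) (.pp [(1,
 4560000)])) (.mul (.g 17) (.pp [(1, 1900000000)]))))) (.pp [(2, 211768110), (4, 55800), (6,
 59565), (8, 59850), (10, 65265), (12, 59850), (14, 56487), (16, 57000), (18, 54150), (20, 59850),
 (24, 57000), (28, 59850), (30, 54150), (36, 57000), (40, 57000), (42, 59850), (50, 54150), (54,
 57000), (56, 57000), (60, 57000), (70, 54150), (84, 57000), (90, 57000), (98, 55860), (100,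
 57000), (126, 57000), (140, 57000), (150, 57000), (196, 57000), (210, 57000), (250, 57000), (294,
 57000), (350, 57000), (490, 57000), (686, 57000)])))))))
 (.rule 7 (.rule 4 (.leaf 30000 (.add (.add (.add (.mul (.pp [(1, 240000)]) (.sq [(1, -17), (3,
 25), (10, -25)])) (.mul (.g 5) (.add (.add (.mul (.g 8) (.add (.add (.mul (.g 2) (.add (.add (.pp
 [(1, 72)]) (.mul (.g 6) (.pp [(1, 60)]))) (.add (.mul (.g 7) (.pp [(1, 60)])) (.mul (.g 8) (.pp
 [(1, 60)]))))) (.add (.mul (.g 4) (.add (.add (.pp [(1, 3482115)]) (.mul (.g 5) (.pp [(1,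
 5409150)]))) (.add (.mul (.g 6) (.pp [(1, 150)])) (.mul (.g 7) (.pp [(1, 150)]))))) (.mul (.g 8)
 (.add (.mul (.g 3) (.pp [(1, 1153320)])) (.add (.mul (.g 5) (.pp [(1, 71757000)])) (.mul (.g 16)
 (.pp [(1, 28833000)]))))))) (.add (.mul (.g 6) (.add (.pp [(1, 115896600)]) (.mul (.g 16) (.pp
 [(1, 3000)])))) (.add (.mul (.g 3) (.pp [(1, 1262664)])) (.mul (.g 16) (.pp [(1, 147470100)]))))))
 (.add (.mul (.g 6) (.add (.mul (.g 4) (.add (.add (.pp [(1, 165)]) (.mul (.g 5) (.pp [(1, 150)])))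
 (.add (.mul (.g 6) (.pp [(1, 150)])) (.mul (.g 7) (.pp [(1, 150)]))))) (.add (.mul (.g 2) (.add
 (.pp [(1, 72)]) (.add (.mul (.g 6) (.pp [(1, 60)])) (.mul (.g 7) (.pp [(1, 60)]))))) (.mul (.g 13)
 (.add (.pp [(1, 6600)]) (.mul (.g 6) (.pp [(1, 3000)]))))))) (.mul (.g 2) (.add (.pp [(1,
 4101072)]) (.add (.mul (.g 7) (.add (.pp [(1, 150072)]) (.mul (.g 7) (.pp [(1, 60)])))) (.mul (.g
 5) (.mul (.g 5) (.pp [(1, 60)])))))))) (.add (.mul (.g 4) (.add (.pp [(1, 1011150)]) (.add (.mul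
 (.g 7) (.add (.pp [(1, 150)]) (.mul (.g 7) (.pp [(1, 7500150)])))) (.mul (.g 5) (.mul (.g 5) (.pp
 [(1, 181650)])))))) (.add (.mul (.g 5) (.mul (.g 5) (.pp [(1, 119214900)]))) (.mul (.g 16) (.pp
 [(1, 10200)]))))))) (.add (.mul (.g 0) (.pp [(1, 100000000)])) (.add (.mul (.g 1) (.pp [(1,
 240000)])) (.mul (.g 15) (.pp [(1, 100000000)]))))) (.pp [(2, 14821146), (4, 3000), (6, 2931), (8,
 3030), (10, 2946), (12, 3150), (14, 2769), (16, 3000), (18, 3030), (20, 3000), (23, 300000000),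
 (24, 3000), (28, 3150), (30, 3030), (36, 3000), (40, 3000), (42, 3330), (50, 3030), (54, 3000),
 (56, 3000), (60, 3000), (70, 3030), (84, 3000), (90, 3000), (98, 3120), (100, 3000), (126, 3000),
 (140, 3000), (150, 3000), (196, 3000), (210, 3000), (250, 3000), (294, 3000), (350, 3000), (490,
 3000), (686, 3000)]))))))
 (.split [(1, -3), (5, 5)]
 (.cut 1 [(1, 3), (5, -2)] (.add (.add (.mul (.g 3) (.pp [(1, 18)])) (.mul (.g 4) (.pp [(1, 2)])))
 (.add (.mul (.g 8) (.pp [(1, 2)])) (.mul (.g 2) (.pp [(1, 1)])))) (.rule 12 (.rule 4 (.leaf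
 300000000 (.add (.add (.add (.add (.mul (.g 9) (.add (.add (.add (.mul (.g 6) (.add (.add (.pp
 [(1, 835458000000)]) (.add (.mul (.g 7) (.add (.mul (.g 3) (.pp [(1, 1659000000)])) (.add (.mul
 (.g 8) (.pp [(1, 283575000000)])) (.mul (.g 12) (.pp [(1, 144558000000)]))))) (.mul (.g 6) (.add
 (.mul (.g 9) (.pp [(1, 120678000000)])) (.mul (.g 10) (.pp [(1, 918054000000)])))))) (.add (.mul
 (.g 17) (.add (.pp [(1, 282936000000)]) (.mul (.g 10) (.pp [(1, 456579000000)])))) (.add (.mul (.g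
 8) (.mul (.g 12) (.pp [(1, 617565000000)]))) (.mul (.g 9) (.mul (.g 11) (.pp [(1,
 117534000000)]))))))) (.mul (.g 7) (.add (.add (.pp [(1, 70641000000)]) (.mul (.g 9) (.add (.pp
 [(1, 12180000000)]) (.add (.mul (.g 7) (.pp [(1, 16719000000)])) (.mul (.g 8) (.pp [(1,
 6561000000)])))))) (.add (.mul (.g 7) (.mul (.g 8) (.pp [(1, 19128000000)]))) (.mul (.g 11) (.mul
 (.g 13) (.pp [(1, 896850000)]))))))) (.add (.mul (.g 17) (.add (.pp [(1, 72774000000)]) (.add
 (.mul (.pp [(1, 22800)]) (.sq [(1, -29), (2, 100), (3, -28), (5, 53), (7, 46)])) (.mul (.g 9) (.pp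
 [(1, 14547000000)]))))) (.mul (.g 5) (.add (.mul (.pp [(1, 744015)]) (.sq [(1, 83), (2, 67), (3,
 100), (5, 100), (7, 67)])) (.mul (.pp [(1, 1106130)]) (.sq [(1, 18), (2, -27), (3, -82), (5, 37),
 (7, 100)])))))) (.add (.add (.mul (.g 3) (.pp [(1, 14850000000)])) (.mul (.g 9) (.mul (.pp [(1,
 9000)]) (.sq [(1, -7), (2, 69), (3, 100), (5, -50), (7, -45)])))) (.add (.mul (.g 11) (.mul (.g
 13) (.mul (.g 13) (.pp [(1, 2182500)])))) (.mul (.g 12) (.mul (.pp [(1, 1868700)]) (.sq [(1, 57),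
 (2, 93), (3, 100), (5, 27), (7, -30)]))))))) (.mul (.g 7) (.add (.add (.mul (.g 7) (.add (.add
 (.mul (.g 4) (.add (.mul (.g 4) (.pp [(1, 6643200)])) (.mul (.g 14) (.pp [(1, 659400000)]))))
 (.mul (.g 8) (.add (.mul (.g 5) (.pp [(1, 66549600000)])) (.mul (.g 12) (.pp [(1,
 30567000000)]))))) (.add (.mul (.g 3) (.mul (.g 10) (.pp [(1, 822000000)]))) (.mul (.g 6) (.mul
 (.g 15) (.pp [(1, 581982000000)])))))) (.add (.mul (.g 5) (.add (.pp [(1, 26371500000)]) (.add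
 (.mul (.g 8) (.add (.mul (.g 12) (.pp [(1, 5217900000)])) (.mul (.g 14) (.pp [(1,
 88927050000)])))) (.mul (.g 6) (.pp [(1, 13494450000)]))))) (.mul (.g 4) (.add (.pp [(1,
 2426040000)]) (.mul (.g 12) (.mul (.g 12) (.pp [(1, 823560000)]))))))) (.add (.mul (.g 3) (.mul
 (.g 8) (.pp [(1, 24980400000)]))) (.add (.mul (.g 10) (.mul (.pp [(1, 2676900)]) (.sq [(1, 8), (2,
 -5), (3, -96), (5, 100), (7, 90)]))) (.mul (.g 14) (.mul (.pp [(1, 1099500)]) (.sq [(1, 35), (2,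
 -83), (3, -38), (5, 100), (7, 69)])))))))) (.add (.mul (.g 6) (.add (.add (.pp [(1,
 586080000000)]) (.add (.mul (.g 6) (.add (.mul (.pp [(1, 818400)]) (.sq [(1, -6), (2, 100), (3,
 53), (5, 61), (7, -38)])) (.add (.mul (.g 6) (.add (.pp [(1, 1146477000000)]) (.add (.mul (.g 5)
 (.pp [(1, 1642050000)])) (.mul (.g 15) (.pp [(1, 33780000000)]))))) (.mul (.g 17) (.pp [(1,
 215328000000)]))))) (.mul (.g 8) (.add (.mul (.g 4) (.mul (.g 12) (.pp [(1, 11695920000)]))) (.mul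
 (.g 17) (.pp [(1, 392769000000)])))))) (.add (.mul (.g 10) (.add (.mul (.g 10) (.mul (.g 12) (.pp
 [(1, 14556000000)]))) (.mul (.g 13) (.mul (.g 15) (.pp [(1, 8179350000)]))))) (.add (.mul (.g 5)
 (.pp [(1, 8724450000)])) (.mul (.g 11) (.mul (.pp [(1, 3705300)]) (.sq [(1, 20), (2, 31), (3, 51),
 (5, -100), (7, -83)]))))))) (.add (.mul (.g 8) (.add (.add (.mul (.g 8) (.add (.pp [(1,
 281082000000)]) (.mul (.g 17) (.pp [(1, 62247000000)])))) (.add (.mul (.g 3) (.pp [(1,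
 137377200000)])) (.mul (.g 4) (.pp [(1, 3060480000)])))) (.add (.add (.mul (.g 5) (.pp [(1,
 38260200000)])) (.mul (.g 10) (.mul (.pp [(1, 11975100)]) (.sq [(1, 16), (2, -37), (3, 100), (5,
 -30), (7, -55)])))) (.add (.mul (.g 12) (.mul (.g 12) (.mul (.g 14) (.pp [(1, 3912000000)]))))
 (.mul (.g 17) (.pp [(1, 84237000000)])))))) (.mul (.g 15) (.add (.add (.mul (.g 4) (.mul (.pp [(1,
 139344)]) (.sq [(1, -50), (2, 47), (3, 47), (5, 47), (7, 47)]))) (.mul (.g 5) (.mul (.pp [(1,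
 2709915)]) (.sq [(1, -23), (2, -64), (3, 97), (5, 31), (7, -100)])))) (.add (.mul (.g 10) (.mul
 (.g 17) (.mul (.g 17) (.pp [(1, 8559000000)])))) (.mul (.g 15) (.mul (.pp [(1, 251700)]) (.sq [(1,
 31), (2, -67), (3, -87), (5, -54), (7, 100)]))))))))) (.add (.add (.mul (.g 11) (.add (.mul (.g 5)
 (.mul (.g 10) (.mul (.g 17) (.pp [(1, 1800150000)])))) (.add (.mul (.g 11) (.mul (.pp [(1,
 261000)]) (.sq [(1, 23), (2, 68), (3, 81), (5, -87), (7, -100)]))) (.mul (.g 12) (.mul (.pp [(1,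
 273900)]) (.sq [(1, 51), (2, 83), (3, 9), (5, 100), (7, 34)])))))) (.add (.mul (.g 17) (.add (.pp
 [(1, 16707000000)]) (.mul (.g 12) (.mul (.pp [(1, 164100)]) (.sq [(1, -30), (2, -71), (3, 33), (5,
 54), (7, 100)]))))) (.mul (.g 0) (.pp [(1, 1000000000000)])))) (.add (.mul (.g 1) (.pp [(1,
 300000000)])) (.add (.mul (.g 3) (.pp [(1, 46302600000)])) (.mul (.g 16) (.pp [(1,
 1000000000000)])))))) (.pp [(1, 49806032265), (2, 29196240), (3, 28355130), (4, 33730728), (5,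
 27368925), (6, 30864576), (7, 29323845), (8, 24728100), (9, 31092033), (10, 30353916), (12,
 36597600), (14, 27965166), (15, 36905196), (16, 32239800), (18, 28254600), (19, 3000000000000),
 (20, 34541772), (21, 31894896), (24, 30253500), (25, 32629863), (27, 31601400), (28, 27794895),
 (30, 24010224), (35, 29345976), (36, 28004700), (40, 32674200), (42, 33629160), (45, 26384067),
 (49, 31626138), (50, 25073844), (54, 32265000), (56, 27005700), (60, 29086500), (63, 28474080),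
 (70, 34082604), (75, 30424074), (81, 28147800), (84, 30492000), (90, 37067400), (98, 28548630),
 (100, 29308800), (105, 33197304), (125, 29833947), (126, 29168100), (135, 26168700), (140,
 33039600), (147, 31649100), (150, 32790600), (175, 33762894), (189, 32688900), (196, 29365500),
 (210, 29223000), (225, 25069800), (245, 26260332), (250, 32632500), (294, 33570900), (315,
 33575700), (343, 31071465), (350, 26977500), (375, 28806000), (441, 27750300), (490, 33824400),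
 (525, 29532900), (625, 29533800), (686, 30146700), (735, 26320800), (875, 28713300), (1029,
 29682000), (1225, 30747600), (1715, 29842800), (2401, 30019800)]))))))
 (.split [(1, -7), (5, 50)]
 (.rule 11 (.rule 4 (.leaf 30000 (.add (.add (.add (.mul (.pp [(1, 60000)]) (.sq [(1, -7), (5, 50),
 (6, -50)])) (.mul (.g 6) (.add (.add (.mul (.g 5) (.add (.add (.pp [(1, 1011810)]) (.mul (.g 7)
 (.add (.add (.pp [(1, 165)]) (.mul (.g 6) (.pp [(1, 150)]))) (.add (.mul (.g 7) (.pp [(1,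
 7500150)])) (.add (.mul (.g 8) (.pp [(1, 150)])) (.mul (.g 9) (.pp [(1, 150)]))))))) (.add (.mul
 (.g 8) (.add (.add (.pp [(1, 165)]) (.mul (.g 6) (.pp [(1, 150)]))) (.add (.mul (.g 8) (.pp [(1,
 150)])) (.mul (.g 9) (.pp [(1, 150)]))))) (.add (.mul (.g 6) (.add (.mul (.g 6) (.pp [(1,
 181650)])) (.mul (.g 9) (.pp [(1, 5409150)])))) (.mul (.g 9) (.pp [(1, 3482115)])))))) (.add (.mul
 (.g 9) (.add (.add (.mul (.g 7) (.add (.pp [(1, 156985500)]) (.add (.mul (.g 4) (.pp [(1, 120)]))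
 (.mul (.g 9) (.pp [(1, 28830000)]))))) (.mul (.g 17) (.add (.pp [(1, 167076000)]) (.add (.mul (.g
 8) (.pp [(1, 3000)])) (.mul (.g 9) (.pp [(1, 28833000)])))))) (.add (.mul (.g 3) (.pp [(1, 180)]))
 (.mul (.g 6) (.mul (.g 9) (.pp [(1, 71757000)])))))) (.mul (.g 4) (.add (.pp [(1, 111384)]) (.add
 (.mul (.g 7) (.add (.pp [(1, 703620)]) (.add (.mul (.g 7) (.pp [(1, 120)])) (.mul (.g 8) (.pp [(1,
 120)]))))) (.mul (.g 17) (.pp [(1, 403404)]))))))) (.add (.add (.mul (.g 8) (.add (.mul (.g 3)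
 (.add (.pp [(1, 1560)]) (.mul (.g 8) (.pp [(1, 600)])))) (.mul (.g 17) (.add (.pp [(1, 5100)])
 (.mul (.g 8) (.pp [(1, 3000)])))))) (.mul (.g 6) (.mul (.g 6) (.pp [(1, 119215200)])))) (.add
 (.mul (.g 11) (.pp [(1, 13200)])) (.mul (.g 17) (.pp [(1, 34223700)]))))))) (.add (.mul (.g 0)
 (.pp [(1, 100000000)])) (.add (.mul (.g 1) (.pp [(1, 60000)])) (.mul (.g 16) (.pp [(1,
 100000000)]))))) (.pp [(2, 549894), (4, 3000), (6, 2763), (8, 3150), (10, 3255), (12, 3150), (14,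
 2913), (16, 3000), (18, 3210), (19, 300000000), (20, 3150), (24, 3000), (28, 3150), (30, 2910),
 (36, 3000), (40, 3000), (42, 3210), (50, 2850), (54, 3000), (56, 3000), (60, 3000), (70, 2850),
 (84, 3000), (90, 3000), (98, 3000), (100, 3000), (126, 3000), (140, 3000), (150, 3000), (196,
 3000), (210, 3000), (250, 3000), (294, 3000), (350, 3000), (490, 3000), (686, 3000)])))))
 (.rule 4 (.leaf 30000 (.add (.add (.mul (.g 5) (.add (.add (.mul (.g 8) (.add (.add (.mul (.g 6)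
 (.add (.add (.pp [(1, 160649100)]) (.mul (.g 1) (.pp [(1, 60)]))) (.add (.mul (.g 3) (.pp [(1,
 120)])) (.add (.mul (.g 4) (.pp [(1, 150)])) (.mul (.g 8) (.pp [(1, 28830000)])))))) (.add (.mul
 (.g 1) (.add (.pp [(1, 33288)]) (.add (.mul (.g 7) (.pp [(1, 60)])) (.mul (.g 8) (.pp [(1,
 60)]))))) (.mul (.g 4) (.add (.pp [(1, 3399060)]) (.add (.mul (.g 5) (.pp [(1, 5409150)])) (.mul
 (.g 7) (.pp [(1, 150)]))))))) (.add (.mul (.g 8) (.add (.mul (.g 5) (.pp [(1, 71757000)])) (.mul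
 (.g 16) (.pp [(1, 28833000)])))) (.add (.mul (.g 12) (.pp [(1, 83055)])) (.mul (.g 16) (.pp [(1,
 167076300)])))))) (.add (.mul (.g 6) (.add (.mul (.g 4) (.add (.add (.pp [(1, 165)]) (.mul (.g 5)
 (.pp [(1, 150)]))) (.add (.mul (.g 6) (.pp [(1, 150)])) (.mul (.g 7) (.pp [(1, 150)]))))) (.add
 (.mul (.g 1) (.add (.pp [(1, 6000072)]) (.add (.mul (.g 6) (.pp [(1, 60)])) (.mul (.g 7) (.pp [(1,
 60)]))))) (.mul (.g 3) (.add (.pp [(1, 190644)]) (.mul (.g 6) (.pp [(1, 120)]))))))) (.mul (.g 1)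
 (.add (.pp [(1, 72)]) (.add (.mul (.g 7) (.add (.pp [(1, 72)]) (.mul (.g 7) (.pp [(1, 60)]))))
 (.mul (.g 5) (.mul (.g 5) (.pp [(1, 60)])))))))) (.add (.mul (.g 4) (.add (.pp [(1, 1011150)])
 (.add (.mul (.g 7) (.add (.pp [(1, 150)]) (.mul (.g 7) (.pp [(1, 150)])))) (.mul (.g 5) (.mul (.g
 5) (.pp [(1, 181650)])))))) (.add (.mul (.g 16) (.add (.pp [(1, 37246800)]) (.mul (.g 3) (.pp [(1,
 190428)])))) (.mul (.g 5) (.mul (.g 5) (.pp [(1, 119214900)]))))))) (.add (.mul (.g 0) (.pp [(1,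
 100000000)])) (.mul (.g 15) (.pp [(1, 100000000)])))) (.pp [(2, 3054270), (4, 3000), (6, 3159),
 (8, 3030), (10, 2946), (12, 3150), (14, 3195), (16, 3000), (18, 2790), (19, 300000000), (20,
 3000), (23, 300000000), (24, 3000), (28, 3150), (30, 3030), (36, 3000), (40, 3000), (42, 2790),
 (50, 3030), (54, 3000), (56, 3000), (60, 3000), (70, 2730), (84, 3000), (90, 3000), (98, 2880),
 (100, 3000), (126, 3000), (140, 3000), (150, 3000), (196, 3000), (210, 3000), (250, 3000), (294,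
 3000), (350, 3000), (490, 3000), (686, 3000)])))))))
 (.split [(1, -17), (3, 25)]
 (.split [(1, -3), (5, 5)]
 (.split [(2, 1), (3, -1)]
 (.rule 0 (.rule 6 (.rule 7 (.cut 17 [(1, 3), (5, -2)] (.add (.add (.mul (.g 12) (.pp [(1, 34)]))
 (.mul (.g 8) (.pp [(1, 9)]))) (.add (.mul (.g 5) (.pp [(1, 1)])) (.mul (.g 11) (.pp [(1, 34)]))))
 (.rule 12 (.leaf 15000000 (.add (.add (.add (.add (.mul (.g 12) (.add (.add (.mul (.g 12) (.add
 (.add (.mul (.g 5) (.add (.mul (.g 7) (.pp [(1, 1218102000)])) (.add (.mul (.g 9) (.pp [(1,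
 3491250000)])) (.mul (.g 20) (.pp [(1, 6900000000)]))))) (.add (.mul (.g 11) (.add (.mul (.g 8)
 (.pp [(1, 1630912500)])) (.mul (.g 16) (.pp [(1, 25530000)])))) (.mul (.g 12) (.add (.mul (.g 13)
 (.pp [(1, 12343050000)])) (.mul (.g 16) (.pp [(1, 36525000)])))))) (.add (.mul (.g 10) (.mul (.g
 10) (.pp [(1, 36029550000)]))) (.add (.mul (.g 13) (.mul (.g 15) (.pp [(1, 31501800000)]))) (.mul
 (.g 17) (.mul (.g 18) (.pp [(1, 3044400000)]))))))) (.add (.mul (.g 11) (.add (.add (.mul (.g 13)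
 (.add (.mul (.g 7) (.pp [(1, 77244000)])) (.mul (.g 11) (.pp [(1, 23127900000)])))) (.mul (.g 20)
 (.add (.mul (.g 10) (.pp [(1, 48554700000)])) (.mul (.g 17) (.pp [(1, 13550100000)]))))) (.add
 (.mul (.g 6) (.mul (.g 6) (.pp [(1, 391044000)]))) (.mul (.g 14) (.mul (.g 18) (.pp [(1,
 428250000)])))))) (.mul (.g 13) (.add (.mul (.g 5) (.add (.pp [(1, 46366800000)]) (.mul (.g 17)
 (.pp [(1, 5881950000)])))) (.mul (.g 8) (.add (.mul (.g 9) (.pp [(1, 991635000)])) (.mul (.g 10)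
 (.pp [(1, 232972500)])))))))) (.add (.add (.mul (.g 20) (.add (.add (.pp [(1, 20598150000)]) (.mul
 (.pp [(1, 1188780)]) (.sq [(1, 50), (2, 31), (3, 41), (5, 41), (7, 41)]))) (.add (.mul (.g 5)
 (.mul (.g 20) (.pp [(1, 5864700000)]))) (.mul (.g 10) (.mul (.g 18) (.pp [(1, 31625100000)]))))))
 (.mul (.g 6) (.mul (.g 6) (.mul (.g 18) (.pp [(1, 408558000)]))))) (.add (.mul (.g 7) (.pp [(1,
 1085976000)])) (.mul (.g 10) (.mul (.g 16) (.pp [(1, 1464322500)]))))))) (.add (.mul (.g 5) (.add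
 (.add (.mul (.g 9) (.add (.add (.pp [(1, 5375700000)]) (.mul (.g 10) (.add (.pp [(1,
 50285100000)]) (.mul (.g 9) (.pp [(1, 105750000)]))))) (.add (.mul (.g 5) (.mul (.g 13) (.pp [(1,
 1893600000)]))) (.mul (.g 11) (.pp [(1, 61459500000)]))))) (.add (.mul (.g 10) (.add (.mul (.g 5)
 (.pp [(1, 34772850000)])) (.add (.mul (.g 10) (.mul (.g 20) (.pp [(1, 642600000)]))) (.mul (.g 11)
 (.mul (.g 14) (.pp [(1, 14537850000)])))))) (.mul (.g 7) (.add (.pp [(1, 1758918000)]) (.mul (.g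
 11) (.mul (.g 11) (.pp [(1, 585270000)]))))))) (.add (.mul (.g 5) (.pp [(1, 38749650000)])) (.add
 (.mul (.g 18) (.pp [(1, 51555000000)])) (.mul (.g 20) (.pp [(1, 6537750000)])))))) (.mul (.g 11)
 (.add (.add (.mul (.g 11) (.add (.mul (.g 20) (.add (.mul (.g 10) (.pp [(1, 1801500000)])) (.add
 (.mul (.g 13) (.pp [(1, 23579400000)])) (.mul (.g 18) (.pp [(1, 1350000)]))))) (.mul (.g 6) (.mul
 (.g 13) (.pp [(1, 210000)]))))) (.mul (.g 6) (.add (.mul (.pp [(1, 141)]) (.sq [(1, 84), (2, 6),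
 (3, 21), (5, -49), (7, -100)])) (.mul (.g 20) (.pp [(1, 1613010000)]))))) (.add (.mul (.g 9) (.add
 (.mul (.g 9) (.mul (.g 18) (.pp [(1, 25350000)]))) (.mul (.g 13) (.mul (.g 17) (.pp [(1,
 30730350000)]))))) (.add (.mul (.g 8) (.mul (.g 14) (.pp [(1, 536955000)]))) (.mul (.g 10) (.mul
 (.g 13) (.mul (.g 16) (.pp [(1, 369195000)])))))))))) (.add (.add (.mul (.g 18) (.add (.add (.mul
 (.g 7) (.add (.pp [(1, 1267008000)]) (.mul (.g 9) (.mul (.g 9) (.pp [(1, 2768922000)]))))) (.mul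
 (.g 6) (.mul (.pp [(1, 63)]) (.sq [(1, -60), (2, 54), (3, 21), (5, 100)])))) (.add (.mul (.g 10)
 (.mul (.g 10) (.mul (.g 10) (.pp [(1, 17362350000)])))) (.add (.mul (.g 13) (.mul (.pp [(1,
 9285)]) (.sq [(1, -4), (2, 100), (3, 30), (5, -19), (7, 68)]))) (.mul (.g 18) (.pp [(1,
 18361500000)])))))) (.mul (.g 20) (.add (.add (.mul (.g 17) (.add (.pp [(1, 9350100000)]) (.mul
 (.pp [(1, 358545)]) (.sq [(1, 50), (2, 7), (3, 100), (5, 34), (7, 37)])))) (.mul (.g 20) (.add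
 (.mul (.pp [(1, 406770)]) (.sq [(1, -100), (2, 45), (3, 18), (5, 58), (7, 58)])) (.mul (.pp [(1,
 62835)]) (.sq [(1, -5), (2, -47), (3, 88), (5, -42), (7, -100)]))))) (.add (.mul (.g 6) (.pp [(1,
 4431510000)])) (.mul (.g 9) (.mul (.g 9) (.mul (.g 9) (.pp [(1, 33960450000)])))))))) (.add (.mul
 (.g 7) (.add (.mul (.g 9) (.add (.mul (.g 6) (.mul (.g 10) (.pp [(1, 401499600)]))) (.mul (.g 9)
 (.mul (.g 9) (.pp [(1, 1195806000)]))))) (.mul (.g 7) (.pp [(1, 108860640)])))) (.mul (.g 13)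
 (.add (.mul (.g 13) (.add (.mul (.pp [(1, 106530)]) (.sq [(1, -17), (2, -14), (3, -95), (5, -6),
 (7, 100)])) (.mul (.g 15) (.mul (.g 16) (.pp [(1, 2805000)]))))) (.mul (.g 6) (.mul (.g 10) (.mul
 (.g 15) (.pp [(1, 3255960000)]))))))))) (.add (.add (.mul (.g 0) (.pp [(1, 15000000)])) (.add
 (.mul (.g 2) (.pp [(1, 120000000)])) (.mul (.g 3) (.pp [(1, 50000000000)])))) (.add (.add (.mul
 (.g 4) (.pp [(1, 50000000000)])) (.mul (.g 9) (.mul (.g 14) (.mul (.g 16) (.pp [(1,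
 282795000)]))))) (.add (.mul (.g 10) (.mul (.g 10) (.mul (.g 10) (.mul (.g 17) (.pp [(1,
 4848000000)]))))) (.mul (.g 19) (.pp [(1, 50000000000)])))))) (.pp [(1, 2630452335), (2, 1399950),
 (3, 1546770), (4, 1711164), (5, 1539708), (6, 1408272), (7, 1277790), (8, 1408480), (9, 1718904),
 (10, 1499064), (12, 1643640), (14, 1741650), (15, 1526484), (16, 1620120), (18, 1247610), (20,
 1373524), (21, 1642590), (24, 1180200), (25, 1421499), (27, 1292240), (28, 1499655), (30,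
 1195224), (35, 1465620), (36, 1736280), (40, 1452960), (42, 1308120), (45, 1489959), (49,
 1847400), (50, 1443961), (54, 1440720), (56, 1434000), (60, 1795800), (63, 1493880), (70,
 1369620), (75, 1543206), (81, 1562280), (84, 1395345), (90, 1514100), (98, 907740), (100,
 1591080), (105, 1103880), (125, 1651068), (126, 1658490), (135, 1534560), (140, 1560000), (147,
 1585230), (150, 1521660), (175, 1596240), (189, 1540980), (196, 1555815), (210, 1604580), (225,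
 1534770), (245, 1231620), (250, 1514655), (294, 1958130), (315, 1691700), (343, 1327485), (350,
 1588440), (375, 1423890), (441, 1344915), (490, 1682940), (525, 1641720), (625, 1457295), (686,
 1740360), (735, 1772940), (875, 1341000), (1029, 1481115), (1225, 1473960), (1715, 1615800),
 (2401, 1614900)]))))))))
 (.rule 1 (.rule 6 (.rule 7 (.cut 1 [(1, 3), (5, -2)] (.add (.add (.mul (.g 7) (.pp [(1, 1)]))
 (.mul (.g 3) (.pp [(1, 2)]))) (.add (.mul (.g 12) (.pp [(1, 2)])) (.mul (.g 11) (.pp [(1, 1)]))))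
 (.rule 12 (.leaf 60000000 (.add (.add (.add (.add (.mul (.pp [(1, 13007100)]) (.sq [(1, -38), (2,
 32), (3, 96), (5, -100), (7, 17)])) (.add (.mul (.g 12) (.add (.add (.mul (.g 12) (.add (.add
 (.mul (.g 11) (.add (.add (.pp [(1, 8842800000)]) (.mul (.g 9) (.pp [(1, 11832000000)]))) (.add
 (.mul (.g 15) (.pp [(1, 6336600000)])) (.add (.mul (.g 18) (.pp [(1, 4561800000)])) (.mul (.g 20)
 (.pp [(1, 6000000)])))))) (.mul (.g 20) (.add (.pp [(1, 5986800000)]) (.add (.mul (.g 9) (.pp [(1,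
 51687600000)])) (.mul (.g 12) (.pp [(1, 6000000)])))))) (.add (.mul (.g 10) (.add (.mul (.g 9)
 (.pp [(1, 54177600000)])) (.mul (.g 10) (.pp [(1, 4780200000)])))) (.add (.mul (.g 13) (.add (.mul
 (.g 12) (.pp [(1, 5978400000)])) (.mul (.g 13) (.pp [(1, 40062000000)])))) (.mul (.g 6) (.pp [(1,
 10071480000)])))))) (.add (.mul (.g 5) (.add (.add (.mul (.g 9) (.add (.mul (.g 9) (.pp [(1,
 56567400000)])) (.add (.mul (.g 14) (.pp [(1, 6749400000)])) (.mul (.g 17) (.pp [(1,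
 96399600000)]))))) (.mul (.g 10) (.add (.mul (.g 6) (.pp [(1, 8409720000)])) (.add (.mul (.g 8)
 (.pp [(1, 10919310000)])) (.mul (.g 14) (.pp [(1, 8119200000)])))))) (.add (.mul (.g 7) (.mul (.g
 7) (.pp [(1, 61136640)]))) (.mul (.g 11) (.mul (.g 11) (.pp [(1, 697200000)])))))) (.mul (.g 13)
 (.add (.mul (.g 6) (.add (.pp [(1, 7084080000)]) (.mul (.g 11) (.pp [(1, 4696200000)])))) (.add
 (.mul (.g 7) (.mul (.g 7) (.pp [(1, 112764480)]))) (.mul (.g 9) (.mul (.g 20) (.pp [(1,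
 30429600000)])))))))) (.add (.mul (.g 20) (.add (.pp [(1, 18576600000)]) (.add (.mul (.g 9) (.pp
 [(1, 224068200000)])) (.mul (.g 11) (.pp [(1, 67722600000)]))))) (.add (.mul (.g 10) (.mul (.g 17)
 (.add (.mul (.g 9) (.pp [(1, 68429400000)])) (.mul (.g 15) (.pp [(1, 37315200000)]))))) (.mul (.g
 11) (.mul (.g 11) (.mul (.g 16) (.pp [(1, 72750000)])))))))) (.mul (.g 6) (.add (.add (.mul (.g 6)
 (.add (.add (.pp [(1, 167160000)]) (.mul (.g 11) (.add (.mul (.g 6) (.pp [(1, 901564800)])) (.add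
 (.mul (.g 10) (.pp [(1, 430272000)])) (.mul (.g 11) (.pp [(1, 1172928000)])))))) (.add (.mul (.g
 5) (.mul (.g 6) (.pp [(1, 1051060800)]))) (.add (.mul (.g 7) (.pp [(1, 226824960)])) (.mul (.g 9)
 (.mul (.g 10) (.pp [(1, 3196872000)]))))))) (.add (.mul (.g 11) (.add (.add (.mul (.g 7) (.mul (.g
 13) (.pp [(1, 422044800)]))) (.mul (.g 8) (.mul (.g 8) (.pp [(1, 28581000)])))) (.add (.mul (.g
 11) (.mul (.g 14) (.pp [(1, 29259600000)]))) (.mul (.g 17) (.mul (.g 17) (.pp [(1,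
 4106280000)])))))) (.mul (.g 13) (.add (.mul (.g 5) (.mul (.g 13) (.pp [(1, 8703240000)]))) (.add
 (.mul (.g 8) (.mul (.g 8) (.pp [(1, 43769100)]))) (.mul (.g 10) (.mul (.g 17) (.pp [(1,
 11160000)])))))))) (.add (.mul (.g 14) (.add (.pp [(1, 6658320000)]) (.mul (.g 9) (.pp [(1,
 70331160000)])))) (.add (.mul (.g 17) (.add (.pp [(1, 1828200000)]) (.mul (.g 5) (.mul (.g 5) (.pp
 [(1, 429960000)]))))) (.mul (.g 20) (.pp [(1, 6478080000)])))))))) (.add (.mul (.g 14) (.add (.add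
 (.mul (.g 9) (.add (.mul (.g 11) (.add (.pp [(1, 52678800000)]) (.mul (.g 8) (.pp [(1,
 1338960000)])))) (.mul (.g 9) (.pp [(1, 116403000000)])))) (.add (.mul (.g 5) (.mul (.pp [(1,
 458100)]) (.sq [(1, 70), (2, 55), (3, -100), (5, 4), (7, 81)]))) (.mul (.g 8) (.mul (.pp [(1,
 66186)]) (.sq [(1, -9), (2, 17), (3, 82), (5, 95), (7, -100)]))))) (.add (.add (.mul (.g 14) (.pp
 [(1, 155715000000)])) (.mul (.g 15) (.mul (.pp [(1, 335340)]) (.sq [(1, -37), (2, 100), (3, 31),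
 (5, -35), (7, 28)])))) (.add (.mul (.g 16) (.mul (.pp [(1, 9405)]) (.sq [(1, -25), (2, 100), (3,
 -49), (5, -3), (7, -96)]))) (.mul (.g 20) (.pp [(1, 18518400000)])))))) (.add (.mul (.g 9) (.add
 (.mul (.g 9) (.mul (.pp [(1, 6605040)]) (.sq [(1, 25), (2, -97), (3, 21), (5, -3), (7, 100)])))
 (.add (.mul (.g 13) (.mul (.pp [(1, 3103680)]) (.sq [(1, -43), (2, 100), (3, 21), (5, -43), (7,
 10)]))) (.mul (.g 15) (.mul (.pp [(1, 3236820)]) (.sq [(1, -41), (2, 100), (3, 24), (5, -40), (7,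
 19)])))))) (.mul (.g 10) (.add (.mul (.pp [(1, 14920980)]) (.sq [(1, -47), (2, 100), (3, 20), (5,
 -36)])) (.mul (.g 11) (.add (.mul (.pp [(1, 193080)]) (.sq [(1, -27), (2, 42), (3, 78), (5, -100),
 (7, 9)])) (.mul (.pp [(1, 537120)]) (.sq [(1, -55), (2, 53), (3, 100), (5, -75), (7,
 -20)]))))))))) (.add (.add (.mul (.g 15) (.add (.mul (.g 15) (.mul (.pp [(1, 512040)]) (.sq [(1,
 -39), (2, 21), (3, 100), (5, -94), (7, 20)]))) (.mul (.g 16) (.mul (.pp [(1, 4572)]) (.sq [(1,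
 -21), (2, 7), (3, 50), (5, -42), (7, 11)]))))) (.add (.mul (.g 0) (.pp [(1, 60000000)])) (.mul (.g
 2) (.pp [(1, 480000000)])))) (.add (.add (.mul (.g 3) (.pp [(1, 200000000000)])) (.mul (.g 4) (.pp
 [(1, 200000000000)]))) (.add (.mul (.g 19) (.pp [(1, 200000000000)])) (.mul (.g 20) (.mul (.pp
 [(1, 3297780)]) (.sq [(1, -63), (2, 100), (3, 69), (5, -78), (7, 1)]))))))) (.pp [(1, 38609151),
 (2, 5421627), (3, 6609351), (4, 5821770), (5, 6428667), (6, 6690666), (7, 5878380), (8, 5608122),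
 (9, 5565735), (10, 5911002), (12, 6238446), (14, 6077976), (15, 5283018), (16, 5485860), (18,
 5712861), (20, 6241222), (21, 6370464), (24, 7276080), (25, 6133797), (27, 6282471), (28,
 5100648), (30, 5945058), (35, 5500344), (36, 5058780), (40, 6250740), (42, 6247752), (45,
 5340621), (49, 6318360), (50, 5631019), (54, 6557280), (56, 6359640), (60, 5197140), (63,
 5973420), (70, 6257424), (75, 6436707), (81, 5889840), (84, 6913200), (90, 6586560), (98,
 5187672), (100, 5526480), (105, 6243408), (125, 6298377), (126, 6009720), (135, 6214560), (140,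
 6249480), (147, 6191748), (150, 6722280), (175, 6205248), (189, 5831040), (196, 5810040), (210,
 5612760), (225, 6013440), (245, 6740748), (250, 6394440), (294, 6407940), (315, 5766720), (343,
 5697780), (350, 6145920), (375, 5440800), (441, 5950020), (490, 6602040), (525, 5564160), (625,
 5998800), (686, 6000000), (735, 5618460), (875, 5840160), (1029, 6000000), (1225, 5755920), (1715,
 6000000), (2401, 6000000)])))))))))
 (.split [(1, -7), (5, 50)]
 (.split [(2, 1), (3, -1)]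
 (.rule 0 (.cut 575 [(2, 1), (5, -1)] (.add (.add (.mul (.g 2) (.pp [(1, 2)])) (.mul (.g 4) (.pp
 [(1, 23)]))) (.add (.mul (.g 1) (.pp [(1, 575)])) (.mul (.g 3) (.pp [(1, 135)])))) (.rule 2 (.rule
 7 (.rule 11 (.leaf 3000000000 (.add (.add (.add (.add (.mul (.g 13) (.add (.add (.add (.mul (.g
 13) (.add (.add (.mul (.g 7) (.add (.pp [(1, 572100000000)]) (.add (.mul (.g 7) (.pp [(1,
 88748400000)])) (.mul (.g 18) (.pp [(1, 1804032000000)]))))) (.add (.mul (.g 11) (.add (.mul (.g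
 8) (.pp [(1, 194242800000)])) (.mul (.g 11) (.pp [(1, 3157890000000)])))) (.mul (.g 13) (.add
 (.mul (.g 13) (.pp [(1, 124350000000)])) (.mul (.g 14) (.pp [(1, 2242140000000)])))))) (.add (.add
 (.mul (.g 16) (.add (.mul (.g 14) (.pp [(1, 1872990000000)])) (.mul (.g 18) (.pp [(1,
 6965940000000)])))) (.mul (.g 5) (.mul (.g 10) (.pp [(1, 6459570000000)])))) (.add (.mul (.g 12)
 (.mul (.g 21) (.pp [(1, 212850000000)]))) (.mul (.g 17) (.pp [(1, 157035000000)])))))) (.mul (.g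
 5) (.add (.add (.pp [(1, 4384800000000)]) (.mul (.g 5) (.add (.mul (.g 5) (.pp [(1,
 6312030000000)])) (.mul (.g 8) (.pp [(1, 296984400000)]))))) (.add (.mul (.g 10) (.mul (.g 11)
 (.pp [(1, 10491780000000)]))) (.add (.mul (.g 12) (.mul (.g 14) (.pp [(1, 1439640000000)]))) (.mul
 (.g 16) (.mul (.g 18) (.pp [(1, 419100000000)])))))))) (.add (.mul (.g 21) (.add (.pp [(1,
 7895970000000)]) (.add (.mul (.pp [(1, 212460000)]) (.sq [(1, 50), (2, 31), (3, 41), (5, 41), (7,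
 41)])) (.mul (.g 7) (.add (.pp [(1, 329004000000)]) (.mul (.g 19) (.pp [(1, 226998000000)])))))))
 (.mul (.g 10) (.add (.pp [(1, 4890120000000)]) (.add (.mul (.g 7) (.mul (.g 19) (.pp [(1,
 255564000000)]))) (.mul (.g 8) (.mul (.g 11) (.pp [(1, 479595600000)])))))))) (.add (.add (.mul
 (.g 12) (.add (.pp [(1, 1255320000000)]) (.mul (.g 12) (.add (.mul (.g 12) (.pp [(1,
 7142550000000)])) (.mul (.g 17) (.pp [(1, 61500000)])))))) (.mul (.g 6) (.mul (.g 6) (.mul (.g 6)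
 (.pp [(1, 22597680)]))))) (.add (.mul (.g 8) (.pp [(1, 442604400000)])) (.mul (.g 11) (.mul (.g
 11) (.mul (.g 14) (.pp [(1, 5921370000000)])))))))) (.add (.mul (.g 5) (.add (.add (.pp [(1,
 3871050000000)]) (.add (.mul (.g 10) (.add (.add (.pp [(1, 9226350000000)]) (.mul (.g 10) (.mul
 (.g 14) (.pp [(1, 298560000000)])))) (.add (.mul (.g 11) (.pp [(1, 4868910000000)])) (.mul (.g 12)
 (.pp [(1, 5527260000000)]))))) (.mul (.g 5) (.add (.mul (.g 11) (.pp [(1, 6910110000000)])) (.add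
 (.mul (.g 12) (.mul (.g 12) (.pp [(1, 3667350000000)]))) (.mul (.g 16) (.pp [(1,
 3599010000000)]))))))) (.add (.mul (.g 8) (.mul (.g 12) (.add (.mul (.g 8) (.pp [(1, 531504000)]))
 (.mul (.g 12) (.pp [(1, 749504400000)]))))) (.add (.mul (.g 7) (.pp [(1, 1249950000000)])) (.mul
 (.g 11) (.pp [(1, 2182830000000)])))))) (.mul (.g 7) (.add (.add (.mul (.g 10) (.add (.mul (.g 9)
 (.mul (.g 9) (.pp [(1, 112005000)]))) (.add (.mul (.g 10) (.mul (.g 12) (.pp [(1,
 692304000000)]))) (.mul (.g 16) (.pp [(1, 3491202000000)]))))) (.mul (.g 11) (.add (.mul (.pp [(1,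
 153000)]) (.sq [(1, -16), (2, -55), (3, -97), (5, -48), (7, 100)])) (.add (.mul (.g 7) (.mul (.g
 11) (.pp [(1, 3534000000)]))) (.mul (.g 12) (.mul (.g 15) (.pp [(1, 116790000000)]))))))) (.add
 (.mul (.g 6) (.mul (.g 6) (.mul (.g 6) (.pp [(1, 76416)])))) (.add (.mul (.g 7) (.pp [(1,
 473670000000)])) (.mul (.g 8) (.pp [(1, 79831440000)])))))))) (.add (.mul (.g 21) (.add (.add
 (.mul (.g 10) (.mul (.g 10) (.mul (.g 10) (.pp [(1, 16485690000000)])))) (.add (.mul (.g 11) (.mul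
 (.g 11) (.mul (.g 11) (.pp [(1, 354330000000)])))) (.mul (.g 12) (.mul (.g 12) (.mul (.g 12) (.pp
 [(1, 10451010000000)])))))) (.add (.mul (.g 14) (.pp [(1, 616590000000)])) (.add (.mul (.g 15)
 (.mul (.pp [(1, 50115000)]) (.sq [(1, -29), (2, -14), (3, 77), (5, 100), (7, -96)]))) (.mul (.g
 21) (.mul (.pp [(1, 69111000)]) (.sq [(1, -100), (2, 45), (3, 18), (5, 58), (7, 58)]))))))) (.add
 (.mul (.g 8) (.add (.mul (.g 8) (.add (.pp [(1, 24220128000)]) (.mul (.g 12) (.mul (.g 12) (.pp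
 [(1, 7180944000)]))))) (.add (.mul (.g 10) (.mul (.g 10) (.add (.mul (.g 10) (.pp [(1,
 889122000000)])) (.mul (.g 19) (.pp [(1, 38378400000)]))))) (.mul (.g 9) (.mul (.g 9) (.mul (.g
 14) (.pp [(1, 602685000)]))))))) (.mul (.g 17) (.add (.add (.mul (.g 10) (.mul (.pp [(1,
 19215600)]) (.sq [(1, 17), (2, 17), (3, -2), (5, -18), (7, 50)]))) (.mul (.g 11) (.mul (.g 12)
 (.mul (.g 12) (.pp [(1, 364141500000)]))))) (.add (.mul (.g 14) (.pp [(1, 219721500000)])) (.add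
 (.mul (.g 16) (.mul (.pp [(1, 1594800)]) (.sq [(1, 50), (2, -38), (3, 15), (5, 15), (7, -8)])))
 (.mul (.g 17) (.mul (.pp [(1, 10065)]) (.sq [(1, -9), (2, 8), (3, 45), (5, 100), (7,
 -14)])))))))))) (.add (.add (.mul (.g 11) (.add (.mul (.g 15) (.mul (.pp [(1, 26871000)]) (.sq
 [(1, -11), (2, -40), (3, 78), (5, -58), (7, 100)]))) (.mul (.g 16) (.mul (.pp [(1, 202944000)])
 (.sq [(2, -17), (3, -30), (5, 100), (7, 11)]))))) (.add (.mul (.g 0) (.pp [(1, 6000000000)]))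
 (.mul (.g 1) (.pp [(1, 24000000000)])))) (.add (.mul (.g 2) (.pp [(1, 10000000000000)])) (.add
 (.mul (.g 4) (.pp [(1, 10000000000000)])) (.mul (.g 20) (.pp [(1, 10000000000000)])))))) (.pp [(1,
 676661473599), (2, 298623360), (3, 338260050), (4, 288870840), (5, 326861160), (6, 297929400), (7,
 298352460), (8, 286197200), (9, 252225375), (10, 302814600), (12, 306586200), (14, 255997560),
 (15, 258123000), (16, 310680000), (18, 333327600), (20, 304773600), (21, 295097700), (24,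
 304068000), (25, 283512000), (27, 282172000), (28, 283314000), (30, 319132800), (35, 298927800),
 (36, 300735000), (40, 295704000), (42, 384150000), (45, 330396000), (49, 269484060), (50,
 294699600), (54, 292443000), (56, 321996000), (60, 300657000), (63, 281385000), (70, 330036000),
 (75, 304434000), (81, 310515000), (84, 296982000), (90, 302466000), (98, 312328800), (100,
 294264000), (105, 316698000), (125, 291070000), (126, 273027000), (135, 304338000), (140,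
 313188000), (147, 344215200), (150, 280644000), (175, 296208000), (189, 334329000), (196,
 322965000), (210, 267588000), (225, 302262000), (245, 309007200), (250, 275952000), (294,
 265644000), (315, 302181000), (343, 326988000), (350, 296976000), (375, 336204000), (441,
 290532000), (490, 267660000), (525, 272532000), (625, 323400000), (686, 313740000), (735,
 340872000), (875, 297840000), (1029, 293364000), (1225, 313416000), (1715, 301872000), (2401,
 305856000)]))))))))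
 (.rule 1 (.rule 6 (.rule 7 (.rule 11 (.leaf 300000000 (.add (.add (.add (.add (.add (.mul (.pp
 [(1, 45904500)]) (.sq [(1, -44), (2, 51), (3, 87), (5, -100), (7, 17)])) (.mul (.pp [(1,
 3797400)]) (.sq [(1, -43), (2, 17), (3, 96), (5, -100), (7, -59)]))) (.add (.mul (.g 12) (.add
 (.add (.mul (.g 12) (.add (.add (.mul (.g 12) (.add (.add (.mul (.g 13) (.pp [(1, 27297000000)]))
 (.mul (.g 17) (.pp [(1, 143091000000)]))) (.add (.mul (.g 18) (.pp [(1, 30000000)])) (.mul (.g 20)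
 (.pp [(1, 30000000)]))))) (.mul (.g 5) (.add (.pp [(1, 2027400000)]) (.add (.mul (.g 6) (.pp [(1,
 132000)])) (.mul (.g 7) (.pp [(1, 95844000)])))))) (.add (.mul (.g 9) (.add (.mul (.g 9) (.pp [(1,
 828111000000)])) (.add (.mul (.g 14) (.pp [(1, 20058000000)])) (.mul (.g 20) (.pp [(1,
 261033000000)]))))) (.add (.mul (.g 7) (.mul (.g 8) (.pp [(1, 227310000)]))) (.mul (.g 20) (.pp
 [(1, 170478000000)])))))) (.add (.mul (.g 5) (.add (.add (.mul (.g 5) (.add (.pp [(1, 15782400)])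
 (.add (.mul (.g 10) (.pp [(1, 19798800)])) (.mul (.g 13) (.pp [(1, 1392000)]))))) (.mul (.g 4)
 (.add (.pp [(1, 7405560000)]) (.mul (.g 17) (.pp [(1, 5160000)]))))) (.add (.mul (.g 7) (.pp [(1,
 19500000)])) (.add (.mul (.g 9) (.mul (.g 13) (.pp [(1, 11711700000)]))) (.mul (.g 10) (.pp [(1,
 32460000)])))))) (.mul (.g 7) (.add (.mul (.g 7) (.add (.mul (.g 7) (.pp [(1, 39734400)])) (.mul
 (.g 13) (.pp [(1, 859387200)])))) (.add (.mul (.g 4) (.mul (.g 13) (.pp [(1, 4951800000)]))) (.mul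
 (.g 16) (.mul (.g 17) (.pp [(1, 614112000)])))))))) (.add (.mul (.g 8) (.add (.mul (.g 4) (.add
 (.mul (.g 6) (.pp [(1, 5194260000)])) (.mul (.g 9) (.pp [(1, 13123650000)])))) (.add (.mul (.g 8)
 (.mul (.g 13) (.pp [(1, 1231020000)]))) (.mul (.g 17) (.pp [(1, 7274400000)]))))) (.add (.mul (.g
 10) (.add (.mul (.g 20) (.add (.mul (.g 15) (.pp [(1, 93726000000)])) (.add (.mul (.g 16) (.pp
 [(1, 4361400000)])) (.mul (.g 20) (.pp [(1, 143091000000)]))))) (.mul (.g 9) (.mul (.g 16) (.pp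
 [(1, 4978050000)]))))) (.mul (.g 9) (.mul (.g 20) (.pp [(1, 1951248000000)]))))))) (.mul (.g 14)
 (.add (.add (.mul (.pp [(1, 25756200)]) (.sq [(1, -44), (2, -74), (3, 100), (5, -83), (7, 13)]))
 (.add (.mul (.g 8) (.add (.mul (.g 5) (.add (.mul (.g 5) (.pp [(1, 1724400)])) (.add (.mul (.g 9)
 (.pp [(1, 99834000)])) (.mul (.g 11) (.pp [(1, 69864000)]))))) (.add (.mul (.g 8) (.add (.mul (.g
 8) (.pp [(1, 21325875)])) (.mul (.g 20) (.pp [(1, 969930000)])))) (.mul (.g 7) (.pp [(1,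
 168864000)]))))) (.mul (.g 7) (.add (.mul (.g 14) (.add (.pp [(1, 221760000)]) (.mul (.g 11) (.pp
 [(1, 84000000)])))) (.mul (.g 9) (.mul (.g 9) (.pp [(1, 20896200000)]))))))) (.add (.mul (.g 5)
 (.mul (.g 5) (.mul (.g 5) (.pp [(1, 25536)])))) (.add (.mul (.g 10) (.mul (.pp [(1, 45300)]) (.sq
 [(1, -34), (2, -93), (3, 100), (5, -95), (7, 48)]))) (.mul (.g 13) (.mul (.g 14) (.pp [(1,
 75564000000)]))))))))) (.add (.add (.mul (.g 8) (.add (.add (.mul (.pp [(1, 177630)]) (.sq [(1,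
 -49), (2, 100), (3, -17), (5, 35), (7, -2)])) (.add (.mul (.pp [(1, 4632120)]) (.sq [(1, 30), (2,
 100), (3, -89), (5, 26), (7, -50)])) (.mul (.g 10) (.mul (.pp [(1, 125880)]) (.sq [(1, 22), (2,
 100), (3, -75), (5, 12), (7, -55)]))))) (.add (.mul (.g 11) (.mul (.pp [(1, 976080)]) (.sq [(1,
 -23), (2, 100), (3, -4), (5, -11), (7, 10)]))) (.add (.mul (.g 13) (.mul (.pp [(1, 446865)]) (.sq
 [(1, -36), (2, 93), (3, -28), (5, 57), (7, 100)]))) (.mul (.g 15) (.mul (.pp [(1, 1925370)]) (.sq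
 [(1, 22), (2, 100), (3, -75), (5, 9), (7, -33)]))))))) (.mul (.g 13) (.add (.add (.mul (.pp [(1,
 6741000)]) (.sq [(1, -44), (2, 42), (3, 88), (5, -100), (7, 25)])) (.mul (.g 18) (.add (.mul (.pp
 [(1, 15035700)]) (.sq [(1, -75), (2, -64), (3, 100), (5, 44), (7, 6)])) (.mul (.pp [(1,
 20718300)]) (.sq [(1, -25), (2, -89), (3, 15), (5, 100), (7, -20)]))))) (.add (.mul (.g 5) (.mul
 (.pp [(1, 201186)]) (.sq [(1, -64), (2, 100), (3, 73), (5, -92), (7, 57)]))) (.mul (.g 13) (.mul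
 (.pp [(1, 176894400)]) (.sq [(1, -39), (2, -38), (3, 50), (5, 35), (7, 2)]))))))) (.add (.mul (.g
 10) (.add (.mul (.g 10) (.add (.mul (.pp [(1, 16429200)]) (.sq [(1, -40), (2, 75), (3, 71), (5,
 -100), (7, -48)])) (.mul (.pp [(1, 52503300)]) (.sq [(1, 20), (2, 100), (3, -28), (5, -69), (7,
 40)])))) (.add (.mul (.g 17) (.mul (.pp [(1, 42300)]) (.sq [(1, -33), (2, 34), (3, 76), (5, -100),
 (7, -4)]))) (.mul (.g 18) (.mul (.pp [(1, 1236900)]) (.sq [(1, -34), (2, -100), (3, 41), (5, 76),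
 (7, -40)])))))) (.mul (.g 7) (.add (.mul (.g 17) (.add (.mul (.pp [(1, 2063736)]) (.sq [(1, -4),
 (2, -100), (5, 93), (7, -75)])) (.mul (.g 7) (.mul (.g 7) (.pp [(1, 8427072)]))))) (.mul (.g 15)
 (.mul (.pp [(1, 1305816)]) (.sq [(1, -17), (2, 100), (3, -16), (5, -20), (7, 44)])))))))) (.add
 (.add (.add (.mul (.g 11) (.add (.mul (.pp [(1, 33389400)]) (.sq [(1, -53), (2, 72), (3, 86), (5,
 -100), (7, 15)])) (.mul (.g 11) (.mul (.pp [(1, 307800)]) (.sq [(1, -36), (2, 58), (3, 71), (5,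
 -100)]))))) (.mul (.g 0) (.pp [(1, 600000000)]))) (.add (.mul (.g 1) (.pp [(1, 2400000000)]))
 (.mul (.g 2) (.pp [(1, 1000000000000)])))) (.add (.add (.mul (.g 3) (.pp [(1, 1000000000000)]))
 (.mul (.g 5) (.mul (.g 15) (.mul (.pp [(1, 168)]) (.sq [(1, -60), (2, 68), (3, 93), (5, -100), (7,
 18)]))))) (.add (.mul (.g 18) (.mul (.pp [(1, 36728100)]) (.sq [(1, -69), (2, -57), (3, 100), (5,
 16), (7, 7)]))) (.mul (.g 19) (.pp [(1, 1000000000000)])))))) (.pp [(1, 135662613), (2, 31172463),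
 (3, 29466789), (4, 32077785), (5, 31918749), (6, 26026260), (7, 29616288), (8, 34168191), (9,
 31152816), (10, 16602798), (12, 19999596), (14, 26620704), (15, 29462772), (16, 30194100), (18,
 36455124), (20, 32915894), (21, 32677572), (24, 28461900), (25, 34007031), (27, 29127606), (28,
 35150952), (30, 48421212), (35, 27591312), (36, 33716700), (40, 24638700), (42, 29714232), (45,
 29555166), (49, 29922318), (50, 27918017), (54, 27403800), (56, 25888800), (60, 29219700), (63,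
 26465772), (70, 36411924), (75, 22425522), (81, 30918000), (84, 31268400), (90, 28587000), (98,
 34928856), (100, 32108700), (105, 34156272), (125, 32624850), (126, 28942800), (135, 27527700),
 (140, 26101200), (147, 28841946), (150, 31092300), (175, 30491100), (189, 31704000), (196,
 30981000), (210, 31393800), (225, 31351200), (245, 30512346), (250, 29307000), (294, 28824600),
 (315, 29022000), (343, 30000000), (350, 29756400), (375, 30006900), (441, 30271800), (490,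
 28063500), (525, 27532800), (625, 30000000), (686, 30000000), (735, 28195200), (875, 30240000),
 (1029, 30000000), (1225, 30278400), (1715, 30000000), (2401, 30000000)]))))))))
 (.cut 450 [(2, -1), (3, 1)] (.add (.mul (.g 11) (.pp [(1, 7)])) (.add (.mul (.g 10) (.pp [(1,
 310)])) (.mul (.g 0) (.pp [(1, 9)])))) (.rule 1 (.rule 6 (.rule 7 (.leaf 300000000 (.add (.add
 (.add (.add (.mul (.g 11) (.add (.add (.add (.mul (.g 9) (.add (.add (.mul (.g 6) (.add (.add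
 (.mul (.g 8) (.pp [(1, 30442200000)])) (.mul (.g 9) (.pp [(1, 481800000)]))) (.add (.mul (.g 11)
 (.pp [(1, 360000)])) (.add (.mul (.g 16) (.pp [(1, 481800000)])) (.mul (.g 17) (.pp [(1,
 1560000)])))))) (.mul (.g 7) (.add (.mul (.g 5) (.pp [(1, 2418180000)])) (.mul (.g 14) (.pp [(1,
 12090150000)]))))) (.add (.mul (.g 19) (.add (.mul (.g 8) (.pp [(1, 1002699000000)])) (.mul (.g
 15) (.pp [(1, 1050000)])))) (.add (.mul (.g 9) (.mul (.g 10) (.pp [(1, 42000000)]))) (.mul (.g 11)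
 (.mul (.g 12) (.pp [(1, 90000000)]))))))) (.mul (.g 11) (.add (.add (.mul (.g 19) (.add (.mul (.g
 8) (.pp [(1, 288402000000)])) (.add (.mul (.g 11) (.pp [(1, 30000000)])) (.mul (.g 12) (.pp [(1,
 78000000)]))))) (.mul (.g 6) (.mul (.g 8) (.pp [(1, 51643080000)])))) (.add (.mul (.g 10) (.mul
 (.g 15) (.pp [(1, 750000)]))) (.add (.mul (.g 11) (.mul (.g 17) (.pp [(1, 30000000)]))) (.mul (.g
 12) (.mul (.g 12) (.pp [(1, 75234000000)])))))))) (.add (.mul (.g 8) (.add (.add (.pp [(1,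
 451953000000)]) (.mul (.g 5) (.mul (.g 17) (.pp [(1, 1800000)])))) (.add (.mul (.g 10) (.mul (.g
 10) (.pp [(1, 42000000)]))) (.mul (.g 12) (.mul (.g 19) (.pp [(1, 642327000000)])))))) (.mul (.g
 4) (.add (.pp [(1, 1140000)]) (.add (.mul (.pp [(1, 192)]) (.sq [(1, 23), (2, 25), (3, 25), (5,
 25), (7, 25)])) (.mul (.g 10) (.mul (.g 17) (.pp [(1, 480000)])))))))) (.add (.add (.mul (.g 10)
 (.mul (.g 10) (.add (.pp [(1, 39000000)]) (.mul (.g 14) (.pp [(1, 12000000)]))))) (.mul (.g 6)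
 (.pp [(1, 3175920000)]))) (.add (.mul (.g 7) (.pp [(1, 10022850000)])) (.add (.mul (.g 14) (.mul
 (.pp [(1, 600)]) (.sq [(1, 17), (2, -79), (3, -55), (5, -37), (7, 100)]))) (.mul (.g 19) (.pp [(1,
 75360000000)]))))))) (.add (.mul (.g 8) (.add (.add (.mul (.g 8) (.add (.add (.mul (.g 10) (.add
 (.add (.mul (.g 8) (.pp [(1, 451923000000)])) (.mul (.g 10) (.pp [(1, 96018000000)]))) (.add (.mul
 (.g 17) (.pp [(1, 96018000000)])) (.mul (.g 19) (.pp [(1, 24000000)]))))) (.mul (.g 9) (.add (.mul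
 (.g 6) (.pp [(1, 12982800000)])) (.add (.mul (.g 8) (.pp [(1, 571182000000)])) (.mul (.g 19) (.pp
 [(1, 400539000000)])))))) (.add (.mul (.g 6) (.mul (.g 6) (.pp [(1, 121449600)]))) (.mul (.g 8)
 (.mul (.g 19) (.pp [(1, 1081827000000)])))))) (.add (.mul (.g 4) (.add (.mul (.g 9) (.add (.pp
 [(1, 39999780000)]) (.add (.mul (.g 5) (.pp [(1, 24000)])) (.mul (.g 9) (.pp [(1, 480000)])))))
 (.add (.mul (.g 12) (.mul (.g 12) (.pp [(1, 8651340000)]))) (.mul (.g 14) (.pp [(1,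
 12746820000)]))))) (.mul (.g 12) (.add (.mul (.g 5) (.mul (.g 12) (.pp [(1, 3877200000)]))) (.mul
 (.g 7) (.mul (.g 7) (.pp [(1, 90825000)]))))))) (.add (.mul (.g 9) (.mul (.g 9) (.mul (.g 19) (.pp
 [(1, 186000000)])))) (.add (.mul (.g 10) (.mul (.g 13) (.pp [(1, 362664000000)]))) (.mul (.g 16)
 (.pp [(1, 229137000000)])))))) (.mul (.g 4) (.add (.add (.pp [(1, 660000)]) (.mul (.pp [(1, 6)])
 (.sq [(2, -15), (3, -80), (5, 100), (7, 96)]))) (.add (.mul (.g 9) (.add (.pp [(1, 1620000)])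
 (.mul (.g 4) (.pp [(1, 18000)])))) (.mul (.g 10) (.add (.pp [(1, 480000)]) (.mul (.pp [(1, 216)])
 (.sq [(1, 43), (2, 50), (3, 47), (5, 47), (7, 47)]))))))))) (.add (.mul (.g 7) (.add (.mul (.g 9)
 (.add (.mul (.g 6) (.mul (.g 6) (.pp [(1, 8880)]))) (.mul (.g 7) (.mul (.g 7) (.pp [(1,
 63825375)]))))) (.add (.mul (.g 10) (.mul (.g 10) (.mul (.g 10) (.pp [(1, 1500000)])))) (.mul (.g
 16) (.pp [(1, 7201950000)]))))) (.add (.mul (.g 16) (.add (.mul (.g 12) (.mul (.pp [(1, 2700)])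
 (.sq [(1, 57), (2, 74), (3, 100), (5, -3), (7, -14)]))) (.add (.mul (.g 13) (.mul (.pp [(1,
 1200)]) (.sq [(1, -28), (2, 50), (3, 33), (5, 50), (7, 33)]))) (.mul (.g 19) (.pp [(1,
 11376000000)]))))) (.mul (.g 9) (.add (.mul (.g 9) (.mul (.g 9) (.mul (.g 13) (.pp [(1,
 27000000)])))) (.mul (.g 19) (.mul (.pp [(1, 600)]) (.sq [(1, 100), (2, 81), (3, 81), (5, 81), (7,
 81)])))))))) (.add (.add (.mul (.g 0) (.pp [(1, 2400000000)])) (.add (.mul (.g 1) (.pp [(1,
 1000000000000)])) (.mul (.g 2) (.pp [(1, 1000000000000)])))) (.add (.add (.mul (.g 6) (.mul (.g 6)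
 (.pp [(1, 2381702400)]))) (.mul (.g 10) (.mul (.g 17) (.mul (.pp [(1, 900)]) (.sq [(1, -63), (2,
 65), (3, -82), (5, 84), (7, 100)]))))) (.add (.mul (.g 18) (.pp [(1, 1000000000000)])) (.mul (.g
 19) (.mul (.pp [(1, 12000000)]) (.sq [(2, 1), (3, 1), (5, 1), (7, 1)]))))))) (.pp [(1,
 1099623300), (2, 30609300), (3, 27351195), (4, 30933150), (5, 28496412), (6, 31929600), (7,
 27325824), (8, 30805200), (9, 33560400), (10, 32530800), (12, 29921400), (14, 31891560), (15,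
 31999896), (16, 30000000), (18, 31382400), (20, 35286200), (21, 34518120), (23, 3000000000000),
 (24, 30214800), (25, 32151096), (27, 28164600), (28, 26994000), (30, 27879000), (35, 31017096),
 (36, 27936600), (40, 30000000), (42, 28350000), (45, 31559592), (49, 32231328), (50, 29258900),
 (54, 26220000), (56, 30744600), (60, 28198800), (63, 23433600), (70, 29173200), (75, 30278484),
 (81, 29629800), (84, 29960400), (90, 27493200), (98, 26942400), (100, 30802500), (105, 29263584),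
 (125, 31937592), (126, 24561000), (135, 29606400), (140, 29763000), (147, 25876200), (150,
 32141700), (175, 31548384), (189, 28381200), (196, 29520000), (210, 28366800), (225, 26885400),
 (245, 29801592), (250, 30588000), (294, 26530800), (315, 28915800), (343, 29160000), (350,
 32773800), (375, 32316000), (441, 29103000), (490, 32040000), (525, 29667600), (625, 30207600),
 (686, 30000000), (735, 35606400), (875, 32013000), (1029, 27936600), (1225, 34297200), (1715,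
 30000000), (2401, 30000000)])))))))))
 (.split [(1, -3), (5, 5)]
 (.cut 1 [(1, 3), (5, -2)] (.add (.add (.mul (.g 8) (.pp [(1, 1)])) (.mul (.g 4) (.pp [(1, 1)])))
 (.add (.mul (.g 12) (.pp [(1, 1)])) (.mul (.g 7) (.pp [(1, 1)])))) (.rule 12 (.rule 4 (.leaf
 150000000 (.add (.add (.add (.add (.mul (.pp [(1, 25431600)]) (.sq [(1, 23), (2, 99), (3, -22),
 (5, -100), (7, -30)])) (.mul (.g 9) (.add (.add (.mul (.g 17) (.add (.add (.mul (.pp [(1,
 5451150)]) (.sq [(1, -28), (2, -26), (3, 100), (5, -68), (7, 53)])) (.mul (.g 9) (.add (.mul (.g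
 3) (.pp [(1, 7724100000)])) (.add (.mul (.g 8) (.pp [(1, 685500000)])) (.mul (.g 17) (.pp [(1,
 15297000000)])))))) (.add (.mul (.g 6) (.add (.pp [(1, 589153500000)]) (.mul (.g 10) (.pp [(1,
 49584000000)])))) (.add (.mul (.g 7) (.add (.pp [(1, 53874000000)]) (.mul (.g 17) (.pp [(1,
 27243000000)])))) (.mul (.g 15) (.add (.mul (.g 8) (.pp [(1, 55042500000)])) (.mul (.g 10) (.pp
 [(1, 1209000000)])))))))) (.add (.mul (.g 4) (.add (.add (.mul (.g 7) (.add (.pp [(1,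
 1090800000)]) (.mul (.g 4) (.pp [(1, 26282400)])))) (.mul (.g 3) (.mul (.g 6) (.pp [(1,
 1180128000)])))) (.add (.mul (.g 5) (.mul (.g 5) (.pp [(1, 11534700)]))) (.mul (.g 8) (.mul (.g
 13) (.pp [(1, 44478000)])))))) (.mul (.g 9) (.add (.mul (.g 11) (.add (.mul (.g 7) (.pp [(1,
 13161000000)])) (.mul (.g 13) (.pp [(1, 1473525000)])))) (.add (.mul (.g 6) (.mul (.g 13) (.pp
 [(1, 3485850000)]))) (.mul (.g 10) (.mul (.g 10) (.pp [(1, 4083000000)])))))))) (.add (.mul (.g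
 10) (.add (.mul (.pp [(1, 26401800)]) (.sq [(1, -34), (2, 100), (3, 57), (5, -10)])) (.add (.mul
 (.g 5) (.mul (.g 5) (.pp [(1, 112882500)]))) (.mul (.g 6) (.mul (.g 15) (.pp [(1,
 142269000000)])))))) (.add (.mul (.g 13) (.add (.mul (.g 3) (.mul (.g 8) (.pp [(1, 573075000)])))
 (.mul (.g 7) (.mul (.g 11) (.pp [(1, 2820825000)]))))) (.mul (.g 15) (.mul (.g 15) (.add (.mul (.g
 6) (.pp [(1, 27588000000)])) (.mul (.g 15) (.pp [(1, 58446000000)])))))))))) (.add (.mul (.g 4)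
 (.add (.add (.mul (.g 7) (.add (.add (.mul (.g 7) (.add (.mul (.g 7) (.pp [(1, 154620000)])) (.add
 (.mul (.g 8) (.pp [(1, 1220220000)])) (.mul (.g 17) (.pp [(1, 129300000)]))))) (.mul (.g 3) (.add
 (.mul (.g 8) (.pp [(1, 258816000)])) (.mul (.g 17) (.pp [(1, 780564000)]))))) (.add (.mul (.g 6)
 (.mul (.g 10) (.pp [(1, 19338960000)]))) (.mul (.g 8) (.mul (.g 17) (.pp [(1, 4114800000)]))))))
 (.mul (.g 6) (.add (.mul (.g 6) (.add (.add (.mul (.g 4) (.pp [(1, 294060000)])) (.mul (.g 6) (.pp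
 [(1, 20987580000)]))) (.add (.mul (.g 12) (.pp [(1, 11246040000)])) (.mul (.g 13) (.pp [(1,
 900678000)]))))) (.mul (.g 14) (.mul (.g 17) (.pp [(1, 9402780000)])))))) (.add (.mul (.g 8) (.add
 (.mul (.g 3) (.add (.pp [(1, 882348000)]) (.mul (.g 8) (.pp [(1, 5832000)])))) (.add (.mul (.g 5)
 (.mul (.g 10) (.pp [(1, 1738665000)]))) (.mul (.g 8) (.mul (.g 17) (.pp [(1, 2714940000)]))))))
 (.add (.mul (.g 17) (.add (.pp [(1, 3082860000)]) (.mul (.pp [(1, 301056)]) (.sq [(1, 42), (2,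
 50), (3, 100), (5, -3), (7, 45)])))) (.mul (.g 3) (.pp [(1, 1852584000)])))))) (.add (.mul (.g 3)
 (.add (.add (.mul (.g 10) (.add (.add (.mul (.g 3) (.add (.mul (.g 10) (.pp [(1, 298800000)]))
 (.mul (.g 14) (.pp [(1, 515340000)])))) (.mul (.g 13) (.add (.pp [(1, 730275000)]) (.mul (.g 7)
 (.pp [(1, 433695000)]))))) (.add (.mul (.g 8) (.mul (.g 17) (.pp [(1, 3618300000)]))) (.mul (.g
 10) (.mul (.g 10) (.pp [(1, 13910400000)])))))) (.mul (.g 17) (.add (.pp [(1, 16783500000)]) (.add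
 (.mul (.g 6) (.mul (.g 6) (.pp [(1, 46932900000)]))) (.mul (.g 8) (.pp [(1, 3541200000)]))))))
 (.add (.mul (.g 3) (.mul (.g 3) (.mul (.g 3) (.pp [(1, 1464000)])))) (.mul (.g 12) (.mul (.g 12)
 (.mul (.g 15) (.pp [(1, 21000000)]))))))) (.mul (.g 6) (.add (.add (.mul (.pp [(1, 6391050)]) (.sq
 [(1, -66), (2, 100), (3, -61), (5, 72), (7, -36)])) (.mul (.pp [(1, 39018150)]) (.sq [(1, -18),
 (2, 100), (3, -5), (5, -48), (7, -21)]))) (.add (.mul (.g 6) (.mul (.pp [(1, 2085000)]) (.sq [(1,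
 -54), (2, 100), (3, -53), (5, 47), (7, -66)]))) (.add (.mul (.g 12) (.mul (.pp [(1, 3901500)])
 (.sq [(1, -35), (2, 100), (3, -17), (5, -14), (7, -42)]))) (.mul (.g 17) (.mul (.pp [(1,
 23230200)]) (.sq [(1, -18), (2, 100), (3, -21), (5, -21), (7, -86)])))))))))) (.add (.add (.mul
 (.g 7) (.add (.add (.mul (.pp [(1, 15577350)]) (.sq [(1, 6), (2, 100), (3, -1), (5, -98), (7,
 -37)])) (.mul (.pp [(1, 2304300)]) (.sq [(1, -28), (2, 100), (3, -15), (5, -32), (7, -6)]))) (.add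
 (.mul (.g 7) (.mul (.pp [(1, 4057800)]) (.sq [(1, 4), (2, 83), (3, 17), (5, -100), (7, -23)])))
 (.mul (.g 13) (.mul (.g 13) (.mul (.g 17) (.pp [(1, 189547500)]))))))) (.add (.mul (.g 17) (.add
 (.mul (.pp [(1, 30519750)]) (.sq [(1, -43), (2, 100), (3, -22), (5, 3), (7, 6)])) (.add (.mul (.g
 5) (.mul (.g 5) (.mul (.g 5) (.pp [(1, 682875)])))) (.mul (.g 10) (.mul (.pp [(1, 1923750)]) (.sq
 [(1, -15), (2, -20), (3, -55), (5, 100), (7, -81)])))))) (.mul (.g 0) (.pp [(1, 500000000000)]))))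
 (.add (.mul (.g 1) (.pp [(1, 150000000)])) (.add (.mul (.g 8) (.mul (.g 15) (.mul (.pp [(1,
 330000)]) (.sq [(1, -21), (2, 30), (3, -28), (5, 50), (7, -34)])))) (.mul (.g 16) (.pp [(1,
 500000000000)])))))) (.pp [(1, 497032647), (2, 15212250), (3, 14919153), (4, 15099900), (5,
 14947404), (6, 12753750), (7, 14439093), (8, 13140000), (9, 15099450), (10, 16692900), (12,
 17325000), (14, 12717150), (15, 14169996), (16, 15000000), (18, 16454250), (19, 1500000000000),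
 (20, 16290000), (21, 16554660), (24, 15900000), (25, 16262682), (27, 15017100), (28, 16992600),
 (30, 15785400), (35, 16382436), (36, 14094300), (40, 13800000), (42, 18444000), (45, 14916000),
 (49, 15392310), (50, 13191000), (54, 14029350), (56, 15900000), (60, 14544000), (63, 12601350),
 (70, 15513600), (75, 14304318), (81, 15295800), (84, 13799400), (90, 14538900), (98, 14399100),
 (100, 15129000), (105, 14013360), (125, 14280000), (126, 12550950), (135, 15360000), (140,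
 16164000), (147, 12906900), (150, 15310200), (175, 11516718), (189, 16599600), (196, 13073400),
 (210, 13147200), (225, 15482400), (245, 15777360), (250, 15306000), (294, 16309950), (315,
 15948000), (343, 14694000), (350, 13834200), (375, 15000000), (441, 17053800), (490, 16252800),
 (525, 17700000), (625, 15000000), (686, 15466050), (735, 12598800), (875, 16500000), (1029,
 16510350), (1225, 15597600), (1715, 14110800), (2401, 15280350)]))))))
 (.split [(1, -7), (5, 50)]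
 (.split [(2, 1), (3, -1)]
 (.rule 0 (.rule 6 (.rule 11 (.leaf 240000000 (.add (.add (.add (.add (.mul (.g 11) (.add (.add
 (.mul (.g 19) (.add (.add (.mul (.pp [(1, 12847680)]) (.sq [(1, 100), (2, -7), (3, 4), (5, 17),
 (7, -45)])) (.add (.mul (.pp [(1, 24112320)]) (.sq [(1, 50), (2, 31), (3, 41), (5, 41), (7, 41)]))
 (.mul (.g 9) (.add (.mul (.g 9) (.pp [(1, 26546400000)])) (.add (.mul (.g 10) (.pp [(1,
 99907200000)])) (.mul (.g 11) (.pp [(1, 123811200000)]))))))) (.add (.mul (.g 19) (.add (.pp [(1,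
 210475200000)]) (.add (.mul (.g 5) (.pp [(1, 17533440000)])) (.mul (.g 11) (.pp [(1,
 12072000000)]))))) (.add (.mul (.g 7) (.mul (.g 11) (.pp [(1, 6802440000)]))) (.mul (.g 10) (.mul
 (.g 10) (.pp [(1, 94473600000)]))))))) (.add (.mul (.g 5) (.add (.add (.mul (.g 3) (.add (.pp [(1,
 76761120000)]) (.mul (.g 16) (.pp [(1, 2172960000)])))) (.mul (.g 4) (.add (.mul (.g 10) (.pp [(1,
 213436800)])) (.mul (.g 13) (.pp [(1, 207494400)]))))) (.add (.mul (.g 8) (.mul (.g 9) (.pp [(1,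
 60280800000)]))) (.mul (.g 10) (.mul (.g 10) (.pp [(1, 6295200000)])))))) (.mul (.g 11) (.add
 (.mul (.g 8) (.add (.mul (.g 3) (.pp [(1, 345528000000)])) (.mul (.g 15) (.pp [(1, 639120000)]))))
 (.add (.mul (.g 7) (.mul (.g 7) (.pp [(1, 239334000)]))) (.mul (.g 11) (.mul (.g 11) (.pp [(1,
 54453600000)])))))))) (.add (.add (.mul (.g 6) (.add (.mul (.g 3) (.mul (.g 10) (.pp [(1,
 7565376000)]))) (.mul (.g 9) (.mul (.g 9) (.pp [(1, 1961856000)]))))) (.mul (.g 7) (.pp [(1,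
 12999000000)]))) (.add (.mul (.g 9) (.mul (.g 9) (.mul (.g 16) (.pp [(1, 194966400000)])))) (.mul
 (.g 15) (.mul (.pp [(1, 744360)]) (.sq [(1, 40), (2, 99), (3, 53), (5, 46), (7, 100)]))))))) (.add
 (.mul (.g 3) (.add (.add (.pp [(1, 258448800000)]) (.add (.mul (.g 3) (.add (.add (.pp [(1,
 38692800000)]) (.mul (.g 5) (.mul (.g 19) (.pp [(1, 8106240000)])))) (.add (.mul (.g 9) (.pp [(1,
 443294400000)])) (.mul (.g 14) (.pp [(1, 12516000000)]))))) (.mul (.g 8) (.add (.add (.mul (.g 5)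
 (.mul (.g 10) (.pp [(1, 17882400000)]))) (.mul (.g 9) (.pp [(1, 751406400000)]))) (.add (.mul (.g
 14) (.pp [(1, 444331200000)])) (.mul (.g 17) (.mul (.g 19) (.pp [(1, 109975200000)])))))))) (.add
 (.mul (.g 6) (.add (.pp [(1, 11102784000)]) (.mul (.g 10) (.mul (.g 10) (.pp [(1,
 5535552000)]))))) (.add (.mul (.g 19) (.add (.pp [(1, 561199200000)]) (.mul (.pp [(1, 1839120)])
 (.sq [(1, 55), (2, 66), (3, -61), (5, 78), (7, -100)])))) (.mul (.g 9) (.mul (.pp [(1, 10942800)])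
 (.sq [(1, 9), (2, 38), (3, -86), (5, 100), (7, 81)]))))))) (.mul (.g 19) (.add (.add (.mul (.g 4)
 (.add (.mul (.g 4) (.mul (.g 9) (.pp [(1, 42163200)]))) (.mul (.g 8) (.mul (.g 8) (.pp [(1,
 943104000)]))))) (.add (.mul (.g 7) (.add (.mul (.pp [(1, 650472)]) (.sq [(1, 50), (2, -49), (3,
 -100), (5, 93), (7, 60)])) (.mul (.g 7) (.mul (.g 7) (.pp [(1, 84285300)]))))) (.mul (.g 12) (.add
 (.mul (.pp [(1, 12556800)]) (.sq [(1, -21), (2, 63), (5, -40), (7, 100)])) (.mul (.pp [(1,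
 6348480)]) (.sq [(1, -98), (2, 19), (3, 60), (5, 84), (7, 100)])))))) (.add (.mul (.g 13) (.mul
 (.pp [(1, 79440)]) (.sq [(1, -99), (2, 83), (3, 42), (5, 100), (7, 48)]))) (.add (.mul (.g 15)
 (.pp [(1, 17160960000)])) (.mul (.g 16) (.mul (.pp [(1, 7991040)]) (.sq [(1, -100), (2, 53), (3,
 31), (5, 97), (7, 97)]))))))))) (.add (.add (.mul (.g 15) (.add (.add (.mul (.g 15) (.add (.pp
 [(1, 911832000)]) (.add (.mul (.pp [(1, 5415)]) (.sq [(1, 100), (2, -81), (3, 20), (5, -6), (7,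
 -21)])) (.mul (.g 12) (.mul (.g 12) (.pp [(1, 113184000)])))))) (.mul (.g 6) (.pp [(1,
 1812528000)]))) (.add (.mul (.g 10) (.mul (.g 10) (.mul (.g 12) (.pp [(1, 150720000)])))) (.add
 (.mul (.g 16) (.mul (.pp [(1, 1368)]) (.sq [(1, -6), (2, 7), (3, 100), (5, 4), (7, -90)]))) (.mul
 (.g 17) (.mul (.pp [(1, 7104)]) (.sq [(1, 41), (2, 100), (3, -48), (5, -31), (7, 5)]))))))) (.mul
 (.g 7) (.add (.mul (.g 7) (.add (.mul (.g 7) (.add (.mul (.g 9) (.pp [(1, 79511400)])) (.mul (.g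
 14) (.pp [(1, 11808600)])))) (.mul (.g 5) (.mul (.g 8) (.pp [(1, 3492000)]))))) (.add (.mul (.g 6)
 (.add (.pp [(1, 253833600)]) (.mul (.g 14) (.pp [(1, 346896000)])))) (.mul (.g 5) (.mul (.g 14)
 (.pp [(1, 7586664000)]))))))) (.add (.mul (.g 9) (.add (.mul (.g 9) (.add (.mul (.pp [(1,
 33907200)]) (.sq [(1, 19), (2, -14), (3, 44), (5, -50), (7, 11)])) (.add (.mul (.g 5) (.mul (.g 5)
 (.pp [(1, 8245152000)]))) (.mul (.g 9) (.mul (.g 10) (.pp [(1, 276050400000)])))))) (.mul (.g 6)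
 (.add (.mul (.g 4) (.mul (.g 4) (.pp [(1, 4824960)]))) (.mul (.g 6) (.mul (.g 17) (.pp [(1,
 620225280)]))))))) (.mul (.g 0) (.pp [(1, 480000000)]))))) (.add (.add (.mul (.g 1) (.pp [(1,
 800000000000)])) (.add (.mul (.g 2) (.pp [(1, 800000000000)])) (.mul (.g 4) (.mul (.g 6) (.mul (.g
 8) (.mul (.g 8) (.pp [(1, 373764480)]))))))) (.add (.add (.mul (.g 5) (.mul (.g 5) (.pp [(1,
 22391136000)]))) (.mul (.g 12) (.mul (.g 12) (.mul (.pp [(1, 18068880)]) (.sq [(1, -26), (2, -18),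
 (3, -64), (5, -43), (7, 100)]))))) (.add (.mul (.g 13) (.mul (.g 13) (.mul (.pp [(1, 24960)]) (.sq
 [(1, -35), (2, 50), (3, 19), (5, 37), (7, 28)])))) (.mul (.g 18) (.pp [(1, 800000000000)]))))))
 (.pp [(1, 13043829108), (2, 23958672), (3, 18984732), (4, 19287225), (5, 16878936), (6, 26974968),
 (7, 21848340), (8, 20695960), (9, 30227424), (10, 28431804), (12, 38350200), (14, 24726090), (15,
 38367648), (16, 27356880), (18, 13182960), (19, 2400000000000), (20, 32778280), (21, 29998680),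
 (24, 18018480), (25, 30543708), (27, 23083760), (28, 26703168), (30, 5043216), (35, 31053420),
 (36, 25207200), (40, 20321760), (42, 24703200), (45, 15510336), (49, 27202065), (50, 16896640),
 (54, 24072720), (56, 25589040), (60, 28560240), (63, 19575720), (70, 28549728), (75, 18478584),
 (81, 23911920), (84, 19810320), (90, 25999680), (98, 23228520), (100, 26072640), (105, 13312320),
 (125, 22778784), (126, 23530320), (135, 27008640), (140, 22858320), (147, 18269880), (150,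
 24202080), (175, 20037912), (189, 24003600), (196, 26443920), (210, 22915200), (225, 26246400),
 (245, 23857560), (250, 23553600), (294, 23458320), (315, 24969120), (343, 22296000), (350,
 22694400), (375, 25860480), (441, 22283040), (490, 19707360), (525, 27107520), (625, 24392640),
 (686, 23769600), (735, 21157920), (875, 24290880), (1029, 23091840), (1225, 23302800), (1715,
 20839680), (2401, 23761920)]))))))
 (.rule 1 (.rule 6 (.rule 11 (.leaf 300000000 (.add (.add (.add (.add (.mul (.pp [(1, 34736100)])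
 (.sq [(1, -28), (2, -71), (3, 12), (5, 100), (7, 19)])) (.add (.mul (.g 11) (.add (.add (.mul (.g
 11) (.add (.add (.mul (.pp [(1, 42900)]) (.sq [(1, -25), (2, -50), (3, -27), (5, -37), (7, 100)]))
 (.add (.mul (.g 19) (.add (.add (.mul (.g 8) (.pp [(1, 286956000000)])) (.mul (.g 9) (.pp [(1,
 60000000)]))) (.add (.mul (.g 10) (.pp [(1, 654000000)])) (.mul (.g 11) (.pp [(1, 459000000)])))))
 (.mul (.g 4) (.add (.mul (.g 3) (.pp [(1, 3780000)])) (.mul (.g 9) (.pp [(1, 17880000)]))))))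
 (.add (.mul (.g 11) (.add (.mul (.g 6) (.pp [(1, 8760000)])) (.mul (.g 15) (.pp [(1,
 47100000)])))) (.add (.mul (.g 7) (.mul (.g 7) (.pp [(1, 1483080000)]))) (.mul (.g 15) (.pp [(1,
 290100000)])))))) (.add (.mul (.g 8) (.add (.mul (.g 9) (.add (.mul (.g 3) (.pp [(1,
 1226796000000)])) (.add (.mul (.g 6) (.pp [(1, 15522720000)])) (.mul (.g 13) (.pp [(1,
 20841000000)]))))) (.add (.mul (.g 19) (.add (.pp [(1, 1270983000000)]) (.add (.mul (.g 6) (.pp
 [(1, 10487040000)])) (.mul (.g 12) (.pp [(1, 152139000000)]))))) (.mul (.g 3) (.mul (.g 16) (.pp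
 [(1, 1203150000000)])))))) (.mul (.g 3) (.add (.mul (.g 9) (.add (.mul (.g 7) (.pp [(1,
 3595500000)])) (.mul (.g 13) (.pp [(1, 30000000)])))) (.mul (.g 12) (.add (.mul (.g 13) (.pp [(1,
 16149000000)])) (.mul (.g 19) (.pp [(1, 24633000000)])))))))) (.add (.mul (.g 19) (.add (.pp [(1,
 42399000000)]) (.mul (.g 10) (.add (.mul (.g 6) (.pp [(1, 6840000)])) (.mul (.g 10) (.pp [(1,
 90000000)])))))) (.add (.mul (.g 12) (.add (.mul (.g 6) (.mul (.g 15) (.pp [(1, 20604000)])))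
 (.mul (.g 7) (.mul (.g 7) (.pp [(1, 1729492500)]))))) (.mul (.g 4) (.mul (.g 4) (.mul (.g 17) (.pp
 [(1, 12000)])))))))) (.mul (.g 6) (.add (.add (.mul (.g 9) (.add (.add (.mul (.g 6) (.add (.mul
 (.g 4) (.pp [(1, 313632)])) (.add (.mul (.g 7) (.pp [(1, 626880)])) (.mul (.g 15) (.pp [(1,
 3825120)]))))) (.mul (.g 9) (.add (.mul (.g 5) (.pp [(1, 155736000)])) (.mul (.g 15) (.pp [(1,
 95688000)]))))) (.add (.mul (.g 7) (.pp [(1, 865818000)])) (.mul (.g 8) (.mul (.g 15) (.pp [(1,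
 15792000)])))))) (.mul (.g 10) (.add (.add (.mul (.g 8) (.add (.mul (.g 8) (.pp [(1,
 5046720000)])) (.mul (.g 10) (.pp [(1, 78720000)])))) (.mul (.g 4) (.pp [(1, 234544800)]))) (.add
 (.mul (.g 6) (.mul (.g 10) (.pp [(1, 54734400)]))) (.mul (.g 7) (.pp [(1, 1330152000)])))))) (.add
 (.mul (.g 4) (.add (.mul (.g 3) (.mul (.g 15) (.pp [(1, 1170240)]))) (.add (.mul (.g 8) (.pp [(1,
 1343428800)])) (.mul (.g 19) (.pp [(1, 106557600)]))))) (.add (.mul (.g 7) (.mul (.g 19) (.pp [(1,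
 636756000)]))) (.mul (.g 15) (.pp [(1, 16464000)])))))))) (.add (.add (.mul (.g 4) (.add (.mul (.g
 4) (.add (.add (.mul (.g 5) (.add (.pp [(1, 10217040)]) (.add (.mul (.g 10) (.pp [(1, 4800)]))
 (.mul (.g 13) (.pp [(1, 2400)]))))) (.mul (.g 8) (.add (.mul (.g 8) (.pp [(1, 1670400)])) (.mul
 (.g 19) (.pp [(1, 12000)]))))) (.add (.mul (.g 9) (.add (.mul (.g 4) (.pp [(1, 91152)])) (.mul (.g
 19) (.pp [(1, 2266800)])))) (.mul (.g 12) (.mul (.g 12) (.pp [(1, 36952800)])))))) (.add (.mul (.g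
 12) (.mul (.g 15) (.add (.mul (.g 3) (.pp [(1, 49968000)])) (.mul (.g 12) (.pp [(1,
 24285000)]))))) (.mul (.g 8) (.mul (.g 8) (.mul (.g 19) (.pp [(1, 623820000)]))))))) (.mul (.g 7)
 (.add (.mul (.g 7) (.add (.mul (.g 7) (.add (.add (.mul (.g 10) (.pp [(1, 29271000)])) (.mul (.g
 12) (.pp [(1, 37192500)]))) (.add (.mul (.g 14) (.pp [(1, 45714375)])) (.mul (.g 19) (.pp [(1,
 59870625)]))))) (.mul (.g 8) (.mul (.g 8) (.pp [(1, 2578200000)]))))) (.mul (.g 12) (.mul (.pp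
 [(1, 2021775)]) (.sq [(1, -49), (2, 100), (3, -14), (5, 65), (7, -9)])))))) (.add (.mul (.g 9)
 (.add (.mul (.pp [(1, 5435700)]) (.sq [(1, -39), (2, -100), (3, 42), (5, 97), (7, 20)])) (.mul (.g
 17) (.mul (.pp [(1, 1145400)]) (.sq [(2, 99), (3, 3), (5, -100), (7, 25)]))))) (.mul (.g 12) (.add
 (.mul (.pp [(1, 33789600)]) (.sq [(1, -28), (2, -73), (3, 15), (5, 100), (7, 18)])) (.mul (.pp
 [(1, 6175200)]) (.sq [(1, -4), (2, -47), (3, -30), (5, 100), (7, -26)]))))))) (.add (.add (.mul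
 (.g 0) (.pp [(1, 600000000)])) (.add (.mul (.g 1) (.pp [(1, 1000000000000)])) (.mul (.g 2) (.pp
 [(1, 1000000000000)])))) (.add (.add (.mul (.g 5) (.mul (.pp [(1, 4404120)]) (.sq [(1, -7), (2,
 -90), (3, -2), (5, 100), (7, -27)]))) (.mul (.g 14) (.mul (.pp [(1, 44168400)]) (.sq [(1, 6), (2,
 -70), (3, -27), (5, 100), (7, -19)])))) (.add (.mul (.g 17) (.mul (.pp [(1, 9378900)]) (.sq [(1,
 4), (2, 99), (3, -3), (5, -100), (7, 26)]))) (.mul (.g 18) (.pp [(1, 1000000000000)])))))) (.pp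
 [(1, 912223380), (2, 30251190), (3, 29955942), (4, 32512200), (5, 30831225), (6, 29478300), (7,
 31062345), (8, 29635200), (9, 29915160), (10, 28835850), (12, 31182600), (14, 30175050), (15,
 27640500), (16, 30000000), (18, 28958100), (19, 3000000000000), (20, 23588900), (21, 29683620),
 (24, 30600000), (25, 29825775), (27, 30273000), (28, 30720000), (30, 27777900), (35, 29148450),
 (36, 29358000), (40, 31500000), (42, 29567100), (45, 33405300), (49, 29826735), (50, 36033125),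
 (54, 30000000), (56, 29100000), (60, 27455400), (63, 28935600), (70, 29320950), (75, 33998700),
 (81, 30000000), (84, 28746000), (90, 32367600), (98, 32188725), (100, 28987500), (105, 29262000),
 (125, 27600000), (126, 33000000), (135, 28308600), (140, 30465000), (147, 29757600), (150,
 31080000), (175, 30000000), (189, 30000000), (196, 30025500), (210, 29730000), (225, 26760000),
 (245, 29276400), (250, 30000000), (294, 31170000), (315, 30810000), (343, 30480000), (350,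
 30000000), (375, 30000000), (441, 28725900), (490, 30270000), (525, 30000000), (625, 30000000),
 (686, 27000000), (735, 30160800), (875, 30000000), (1029, 27660000), (1225, 31269900), (1715,
 29460000), (2401, 30000000)])))))))
 (.cut 450 [(2, -1), (3, 1)] (.add (.mul (.g 11) (.pp [(1, 7)])) (.add (.mul (.g 10) (.pp [(1,
 310)])) (.mul (.g 0) (.pp [(1, 9)])))) (.rule 1 (.rule 6 (.leaf 300000000 (.add (.add (.add (.add
 (.mul (.g 10) (.add (.add (.mul (.g 18) (.add (.add (.pp [(1, 35913000000)]) (.add (.mul (.pp [(1,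
 7200)]) (.sq [(1, 50), (2, 31), (3, 41), (5, 41), (7, 41)])) (.mul (.g 10) (.add (.mul (.g 7) (.pp
 [(1, 288315000000)])) (.add (.mul (.g 10) (.pp [(1, 51000000)])) (.mul (.g 18) (.pp [(1,
 39000000)]))))))) (.add (.add (.mul (.g 5) (.pp [(1, 3120000)])) (.mul (.g 6) (.mul (.g 11) (.pp
 [(1, 35878350000)])))) (.add (.mul (.g 7) (.pp [(1, 917292000000)])) (.mul (.g 18) (.mul (.g 18)
 (.pp [(1, 3000000)]))))))) (.add (.mul (.g 8) (.add (.mul (.g 7) (.add (.add (.pp [(1,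
 944829000000)]) (.mul (.g 10) (.pp [(1, 288321000000)]))) (.add (.mul (.g 11) (.pp [(1,
 553746000000)])) (.mul (.g 16) (.pp [(1, 66000000)]))))) (.add (.mul (.g 6) (.add (.mul (.g 8)
 (.pp [(1, 1950000)])) (.mul (.g 11) (.pp [(1, 8195700000)])))) (.mul (.g 9) (.mul (.g 9) (.pp [(1,
 3000000)])))))) (.mul (.g 3) (.add (.pp [(1, 89460000)]) (.add (.mul (.g 5) (.add (.pp [(1,
 16800)]) (.mul (.g 10) (.pp [(1, 31200)])))) (.mul (.g 9) (.pp [(1, 240000)]))))))) (.add (.mul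
 (.g 14) (.add (.pp [(1, 219300000)]) (.add (.mul (.g 10) (.add (.pp [(1, 600000)]) (.mul (.g 10)
 (.pp [(1, 150000)])))) (.mul (.g 7) (.mul (.g 9) (.pp [(1, 5250000)])))))) (.add (.mul (.g 9)
 (.mul (.g 9) (.add (.mul (.g 7) (.pp [(1, 1562430000000)])) (.mul (.g 16) (.pp [(1, 9000000)])))))
 (.mul (.g 6) (.mul (.g 6) (.mul (.g 13) (.pp [(1, 157500)])))))))) (.add (.mul (.g 7) (.add (.add
 (.mul (.g 7) (.add (.add (.mul (.g 4) (.add (.mul (.g 4) (.pp [(1, 16429320000)])) (.add (.mul (.g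
 7) (.pp [(1, 32986800000)])) (.mul (.g 9) (.pp [(1, 138144600000)]))))) (.mul (.g 3) (.add (.mul
 (.g 11) (.pp [(1, 3298200000)])) (.mul (.g 16) (.pp [(1, 5599560000)]))))) (.add (.mul (.g 7)
 (.add (.mul (.g 8) (.pp [(1, 579822000000)])) (.mul (.g 11) (.pp [(1, 36330000000)])))) (.add
 (.mul (.g 6) (.mul (.g 18) (.pp [(1, 32964450000)]))) (.mul (.g 8) (.mul (.g 12) (.pp [(1,
 39000000)]))))))) (.mul (.g 18) (.add (.add (.pp [(1, 293286000000)]) (.mul (.g 6) (.mul (.g 6)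
 (.pp [(1, 1056217500)])))) (.add (.mul (.g 8) (.mul (.g 8) (.pp [(1, 78000000)]))) (.mul (.g 9)
 (.mul (.g 9) (.pp [(1, 1562481000000)]))))))) (.add (.mul (.g 3) (.add (.pp [(1, 9829020000)])
 (.add (.mul (.g 3) (.mul (.g 8) (.pp [(1, 625000800)]))) (.mul (.g 13) (.pp [(1,
 48165720000)]))))) (.mul (.g 9) (.mul (.g 12) (.pp [(1, 154215000000)])))))) (.mul (.g 8) (.add
 (.add (.mul (.g 8) (.add (.mul (.g 11) (.add (.mul (.g 14) (.pp [(1, 450000)])) (.mul (.g 18) (.pp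
 [(1, 42000000)])))) (.mul (.g 5) (.mul (.g 14) (.pp [(1, 48000)]))))) (.add (.mul (.g 3) (.add
 (.pp [(1, 1320000)]) (.mul (.g 3) (.pp [(1, 8400)])))) (.mul (.g 9) (.mul (.g 9) (.add (.mul (.g
 9) (.pp [(1, 21000000)])) (.mul (.g 18) (.pp [(1, 9000000)]))))))) (.add (.mul (.g 5) (.pp [(1,
 159240000)])) (.add (.mul (.g 6) (.mul (.g 6) (.mul (.g 6) (.pp [(1, 62734875)])))) (.mul (.g 18)
 (.mul (.pp [(1, 300)]) (.sq [(1, 100), (2, 81), (3, 81), (5, 81), (7, 81)]))))))))) (.add (.mul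
 (.g 3) (.add (.add (.pp [(1, 960000)]) (.mul (.pp [(1, 12)]) (.sq [(2, -17), (3, -83), (5, 99),
 (7, 100)]))) (.add (.mul (.g 9) (.add (.pp [(1, 780000)]) (.mul (.pp [(1, 168)]) (.sq [(1, 43),
 (2, 50), (3, 47), (5, 47), (7, 47)])))) (.mul (.g 13) (.mul (.pp [(1, 18)]) (.sq [(1, 53), (2,
 -13), (3, -15), (5, 100), (7, -91)])))))) (.add (.mul (.g 18) (.add (.mul (.g 5) (.pp [(1,
 156240000)])) (.add (.mul (.g 6) (.pp [(1, 3864750000)])) (.mul (.g 14) (.mul (.pp [(1, 45)]) (.sq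
 [(1, 100), (2, 80), (3, 49), (5, 14), (7, 84)])))))) (.mul (.g 9) (.add (.mul (.g 9) (.mul (.g 9)
 (.pp [(1, 15000000)]))) (.mul (.g 14) (.mul (.pp [(1, 60)]) (.sq [(1, -9), (2, -59), (3, 44), (5,
 -1), (7, 100)])))))))) (.add (.add (.mul (.g 0) (.pp [(1, 1000000000000)])) (.add (.mul (.g 1)
 (.pp [(1, 1000000000000)])) (.mul (.g 5) (.mul (.pp [(1, 960000)]) (.sq [(2, 1), (3, 1), (5, 1),
 (7, 1)]))))) (.add (.mul (.g 6) (.pp [(1, 252450000)])) (.add (.mul (.g 12) (.mul (.g 13) (.mul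
 (.pp [(1, 300)]) (.sq [(1, 88), (2, 51), (3, 8), (5, 100), (7, -99)])))) (.mul (.g 17) (.pp [(1,
 1000000000000)])))))) (.pp [(1, 1458450000), (2, 28799634), (3, 28575141), (4, 30480096), (5,
 29866182), (6, 25480440), (7, 30874800), (8, 30254394), (9, 24919869), (10, 25165752), (12,
 30564846), (14, 29991204), (15, 27900684), (16, 30780300), (18, 33304710), (19, 3000000000000),
 (20, 29428946), (21, 29430456), (23, 3000000000000), (24, 28924200), (25, 28342524), (27,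
 38833245), (28, 27776316), (30, 31143780), (35, 30035064), (36, 30982200), (40, 29524500), (42,
 36099864), (45, 39067746), (49, 26750880), (50, 28424720), (54, 30038100), (56, 30210600), (60,
 27568500), (63, 35279055), (70, 33775884), (75, 27568632), (81, 28148400), (84, 31079100), (90,
 32027100), (98, 28138506), (100, 29116800), (105, 29648232), (125, 32598156), (126, 30678900),
 (135, 29730000), (140, 29573400), (147, 35779554), (150, 26418600), (175, 28234452), (189,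
 30102600), (196, 30763500), (210, 32219400), (225, 30199200), (245, 32469150), (250, 25059600),
 (294, 26997600), (315, 30007500), (343, 33909120), (350, 28599600), (375, 29172000), (441,
 28914000), (490, 26948100), (525, 24112500), (625, 30554400), (686, 29952000), (735, 30558900),
 (875, 24207600), (1029, 23628300), (1225, 31168800), (1715, 27556800), (2401, 27103200)]))))))))))
 (P_Tp0 ++ xP_A_T2) = true := by decide +kernel

theorem t_A_T2_TpB_b : chk Rbp gP_A_T2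
 (.split [(1, 1), (2, -20)]
 (.cut 1 [(1, -3), (5, 5)] (.add (.mul (.g 3) (.pp [(1, 2)])) (.mul (.g 9) (.pp [(1, 3)]))) (.cut 1
 [(1, 3), (5, -2)] (.add (.add (.mul (.g 2) (.pp [(1, 18)])) (.mul (.g 3) (.pp [(1, 2)]))) (.add
 (.mul (.g 7) (.pp [(1, 2)])) (.mul (.g 1) (.pp [(1, 1)])))) (.rule 12 (.rule 25 (.rule 4 (.leaf
 33000000 (.add (.add (.add (.add (.mul (.g 7) (.add (.add (.mul (.g 7) (.add (.add (.mul (.g 7)
 (.add (.add (.mul (.g 6) (.pp [(1, 291446760000)])) (.mul (.g 8) (.pp [(1, 245789610000)]))) (.add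
 (.mul (.g 10) (.pp [(1, 149375490000)])) (.mul (.g 12) (.pp [(1, 16629030000)]))))) (.mul (.g 5)
 (.add (.mul (.g 11) (.pp [(1, 19513362000)])) (.mul (.g 12) (.pp [(1, 18424461000)]))))) (.add
 (.mul (.g 8) (.add (.mul (.g 14) (.pp [(1, 15677310000)])) (.mul (.g 16) (.pp [(1,
 445222470000)])))) (.add (.mul (.g 9) (.add (.mul (.g 11) (.pp [(1, 128923410000)])) (.mul (.g 12)
 (.pp [(1, 4516710000)])))) (.mul (.g 10) (.add (.mul (.g 6) (.pp [(1, 123105840000)])) (.mul (.g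
 16) (.pp [(1, 73292340000)])))))))) (.add (.mul (.g 8) (.add (.add (.mul (.g 9) (.add (.mul (.g 9)
 (.pp [(1, 200114640000)])) (.add (.mul (.g 12) (.pp [(1, 153148050000)])) (.mul (.g 16) (.pp [(1,
 275993190000)]))))) (.mul (.g 16) (.add (.mul (.g 5) (.pp [(1, 13987611000)])) (.mul (.g 16) (.pp
 [(1, 175529310000)]))))) (.add (.mul (.g 8) (.mul (.g 8) (.pp [(1, 57633180000)]))) (.add (.mul
 (.g 10) (.mul (.g 12) (.pp [(1, 28444020000)]))) (.mul (.g 11) (.mul (.g 14) (.pp [(1,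
 1258290000)]))))))) (.mul (.g 9) (.add (.pp [(1, 82518480000)]) (.add (.mul (.g 9) (.mul (.g 11)
 (.pp [(1, 5293530000)]))) (.mul (.g 14) (.mul (.g 16) (.pp [(1, 45466080000)])))))))) (.add (.mul
 (.g 5) (.add (.pp [(1, 5154105000)]) (.mul (.g 16) (.pp [(1, 2086540500)])))) (.add (.mul (.g 6)
 (.add (.mul (.g 6) (.pp [(1, 45358830000)])) (.mul (.g 13) (.mul (.g 16) (.pp [(1,
 3558538500)]))))) (.mul (.g 11) (.add (.pp [(1, 335588880000)]) (.mul (.pp [(1, 9994842)]) (.sq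
 [(1, 20), (2, 100), (3, 71), (5, 3), (7, -45)])))))))) (.mul (.g 16) (.add (.add (.add (.mul (.pp
 [(1, 2811204)]) (.sq [(2, 100), (3, 83), (5, 59), (7, 100)])) (.mul (.g 16) (.add (.add (.pp [(1,
 15572040000)]) (.add (.mul (.pp [(1, 218130)]) (.sq [(1, -100), (2, 75), (3, 55), (5, -2), (7,
 54)])) (.mul (.pp [(1, 76659)]) (.sq [(1, 78), (2, -83), (3, -92), (5, -30), (7, 100)])))) (.add
 (.mul (.g 9) (.add (.pp [(1, 7275510000)]) (.mul (.g 10) (.pp [(1, 7640160000)])))) (.add (.mul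
 (.g 8) (.mul (.g 8) (.pp [(1, 1601160000)]))) (.mul (.g 12) (.mul (.g 12) (.pp [(1,
 30002280000)])))))))) (.add (.mul (.g 8) (.add (.mul (.g 5) (.mul (.g 6) (.pp [(1, 3453648000)])))
 (.add (.mul (.g 8) (.mul (.g 8) (.pp [(1, 15444660000)]))) (.mul (.g 12) (.mul (.g 14) (.pp [(1,
 64076760000)])))))) (.mul (.g 9) (.add (.pp [(1, 32186550000)]) (.add (.mul (.pp [(1, 836352)])
 (.sq [(1, 50), (2, 31), (3, 41), (5, 41), (7, 41)])) (.mul (.g 12) (.mul (.g 14) (.pp [(1,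
 41925510000)])))))))) (.add (.add (.mul (.g 11) (.add (.mul (.pp [(1, 278718)]) (.sq [(1, 2), (2,
 64), (3, 64), (5, 100), (7, -59)])) (.mul (.pp [(1, 383262)]) (.sq [(1, 75), (2, -48), (3, -76),
 (5, 100), (7, 38)])))) (.mul (.g 5) (.pp [(1, 1968681000)]))) (.add (.mul (.g 6) (.mul (.g 6)
 (.mul (.g 6) (.pp [(1, 104636730000)])))) (.add (.mul (.g 10) (.mul (.pp [(1, 112629)]) (.sq [(1,
 -89), (2, 76), (3, 68), (5, 19), (7, 100)]))) (.mul (.g 14) (.pp [(1, 464310000)])))))))) (.add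
 (.mul (.g 8) (.add (.add (.mul (.g 9) (.add (.mul (.pp [(1, 24614370)]) (.sq [(1, 7), (2, -11),
 (3, 100), (5, -32), (7, -8)])) (.add (.mul (.g 5) (.mul (.g 6) (.pp [(1, 2909527500)]))) (.mul (.g
 8) (.mul (.g 13) (.pp [(1, 2512554000)])))))) (.mul (.g 11) (.add (.pp [(1, 221302620000)]) (.add
 (.mul (.g 11) (.pp [(1, 71945610000)])) (.mul (.g 14) (.mul (.g 14) (.pp [(1, 14355330000)])))))))
 (.add (.mul (.g 8) (.mul (.g 10) (.mul (.g 13) (.pp [(1, 338794500)])))) (.mul (.g 14) (.pp [(1,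
 55482240000)]))))) (.add (.mul (.g 14) (.add (.add (.pp [(1, 90287670000)]) (.mul (.g 6) (.add
 (.pp [(1, 104721540000)]) (.mul (.pp [(1, 1752168)]) (.sq [(1, 22), (2, -52), (3, -5), (5, -93),
 (7, 100)]))))) (.add (.mul (.g 9) (.mul (.pp [(1, 1787940)]) (.sq [(1, 2), (2, -11), (3, 50), (5,
 -16), (7, 11)]))) (.add (.mul (.g 10) (.mul (.pp [(1, 2790051)]) (.sq [(1, -33), (2, 100), (3,
 -28), (5, 21), (7, -25)]))) (.mul (.g 12) (.mul (.g 12) (.pp [(1, 119189070000)]))))))) (.mul (.g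
 5) (.add (.pp [(1, 6365584500)]) (.add (.mul (.g 6) (.pp [(1, 9286447500)])) (.mul (.g 9) (.mul
 (.g 9) (.mul (.g 12) (.pp [(1, 301108500)])))))))))) (.add (.add (.mul (.g 11) (.add (.mul (.g 6)
 (.mul (.pp [(1, 205359)]) (.sq [(1, 91), (2, 100), (3, 19), (5, 97), (7, 32)]))) (.add (.mul (.g
 11) (.mul (.pp [(1, 3029037)]) (.sq [(1, 100), (2, 10), (3, 1), (5, 71), (7, -6)]))) (.mul (.g 12)
 (.mul (.pp [(1, 635283)]) (.sq [(1, 31), (2, 100), (3, 38), (5, -38), (7, -9)])))))) (.add (.mul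
 (.g 0) (.pp [(1, 110000000000)])) (.mul (.g 1) (.pp [(1, 10000000000)])))) (.add (.mul (.g 2) (.pp
 [(1, 33000000)])) (.add (.mul (.g 9) (.mul (.g 10) (.mul (.pp [(1, 3360423)]) (.sq [(1, -18), (2,
 67), (3, 100), (5, 17), (7, -81)])))) (.mul (.g 15) (.pp [(1, 110000000000)])))))) (.pp [(1,
 17923878752), (2, 3345880), (3, 3613226), (4, 3509099), (5, 3201232), (6, 3153260), (7, 2542749),
 (8, 3082200), (9, 2365550), (10, 3446894), (12, 2878920), (14, 3201033), (15, 2884684), (16,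
 3336300), (18, 3447081), (19, 330000000000), (20, 2919994), (21, 4296732), (24, 3372732), (25,
 2984058), (27, 4018872), (28, 3012009), (30, 3479872), (35, 3360456), (36, 3463383), (40,
 3037188), (42, 3007356), (45, 3911050), (49, 3943665), (50, 2572229), (54, 3260895), (56,
 3465759), (60, 3494040), (63, 2501862), (70, 3706428), (75, 3920917), (81, 2972871), (84,
 3686694), (90, 3250467), (98, 2739000), (100, 3763188), (105, 3270696), (125, 3757743), (126,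
 3520308), (135, 3052566), (140, 3336300), (147, 2451867), (150, 3735468), (175, 3295050), (189,
 3534960), (196, 3313992), (210, 3094212), (225, 3034284), (245, 3170178), (250, 3364680), (294,
 3674154), (315, 3735072), (343, 3286371), (350, 3545388), (375, 3139290), (441, 4217433), (490,
 3362403), (525, 3135396), (625, 3303135), (686, 3946173), (735, 4073322), (875, 2985576), (1029,
 3594690), (1225, 3403323), (1715, 3577398), (2401, 3250632)]))))))))
 (.split [(1, -17), (3, 25)]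
 (.cut 1 [(2, 1), (3, -1)] (.add (.mul (.g 10) (.pp [(1, 1)])) (.mul (.g 7) (.pp [(1, 1)]))) (.rule
 0 (.cut 1 [(2, -1), (5, 1)] (.add (.mul (.g 12) (.pp [(1, 1)])) (.mul (.g 8) (.pp [(1, 1)])))
 (.rule 3 (.cut 1 [(1, 1), (3, -1)] (.add (.mul (.g 3) (.pp [(1, 1)])) (.mul (.g 10) (.pp [(1,
 1)]))) (.rule 7 (.cut 4 [(1, -3), (5, 5)] (.add (.add (.mul (.g 5) (.pp [(1, 20)])) (.mul (.g 6)
 (.pp [(1, 1)]))) (.add (.mul (.g 1) (.pp [(1, 5)])) (.mul (.g 3) (.pp [(1, 20)])))) (.cut 8 [(1,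
 3), (5, -2)] (.add (.add (.mul (.g 14) (.pp [(1, 16)])) (.mul (.g 7) (.pp [(1, 1)]))) (.add (.mul
 (.g 13) (.pp [(1, 16)])) (.mul (.g 2) (.pp [(1, 9)])))) (.rule 12 (.rule 25 (.leaf 3300000000
 (.add (.add (.add (.add (.mul (.g 15) (.add (.add (.mul (.g 15) (.add (.add (.add (.pp [(1,
 1468236000000)]) (.mul (.g 20) (.add (.add (.mul (.g 13) (.pp [(1, 858858000000)])) (.mul (.g 14)
 (.pp [(1, 1138335000000)]))) (.add (.mul (.g 17) (.pp [(1, 7861854000000)])) (.mul (.g 20) (.pp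
 [(1, 2695704000000)])))))) (.add (.mul (.g 15) (.add (.mul (.g 16) (.pp [(1, 88044000000)])) (.add
 (.mul (.g 19) (.pp [(1, 186450000)])) (.mul (.g 22) (.pp [(1, 26070000000)]))))) (.mul (.g 10)
 (.add (.mul (.g 10) (.pp [(1, 13979011200)])) (.mul (.g 12) (.pp [(1, 605592240000)])))))) (.add
 (.add (.mul (.g 11) (.mul (.g 11) (.pp [(1, 8779815000)]))) (.mul (.g 12) (.mul (.g 22) (.pp [(1,
 3130776000000)])))) (.add (.mul (.g 13) (.mul (.g 16) (.pp [(1, 893871000000)]))) (.mul (.g 18)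
 (.mul (.g 18) (.pp [(1, 3739626000000)]))))))) (.add (.mul (.g 13) (.add (.add (.mul (.g 12) (.add
 (.mul (.g 16) (.pp [(1, 17747400000000)])) (.add (.mul (.g 17) (.pp [(1, 3890931000000)])) (.mul
 (.g 20) (.pp [(1, 20823066000000)]))))) (.mul (.g 13) (.add (.mul (.g 10) (.pp [(1,
 498571920000)])) (.mul (.g 22) (.pp [(1, 12452121000000)]))))) (.add (.mul (.g 16) (.add (.mul (.g
 14) (.pp [(1, 5500605000000)])) (.mul (.g 16) (.pp [(1, 1827309000000)])))) (.mul (.g 20) (.add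
 (.mul (.g 20) (.pp [(1, 1905156000000)])) (.mul (.g 22) (.pp [(1, 644358000000)]))))))) (.mul (.g
 14) (.add (.mul (.g 12) (.mul (.g 16) (.pp [(1, 8295012000000)]))) (.add (.mul (.g 18) (.mul (.g
 20) (.pp [(1, 2516877000000)]))) (.mul (.g 22) (.pp [(1, 9450573000000)]))))))) (.add (.mul (.g
 17) (.add (.pp [(1, 1701183000000)]) (.mul (.g 12) (.mul (.g 18) (.pp [(1, 1255320000000)])))))
 (.add (.mul (.g 10) (.mul (.g 11) (.mul (.g 11) (.pp [(1, 1275149700)])))) (.mul (.g 20) (.pp [(1,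
 5625048000000)])))))) (.add (.mul (.g 16) (.add (.add (.mul (.g 16) (.add (.mul (.g 12) (.add
 (.mul (.g 19) (.pp [(1, 231165000000)])) (.mul (.g 22) (.pp [(1, 1627296000000)])))) (.add (.mul
 (.g 10) (.pp [(1, 91206720000)])) (.mul (.g 13) (.pp [(1, 5305179000000)]))))) (.add (.mul (.g 14)
 (.add (.mul (.g 12) (.mul (.g 22) (.pp [(1, 4513212000000)]))) (.mul (.g 18) (.mul (.g 18) (.pp
 [(1, 1678182000000)]))))) (.mul (.g 20) (.add (.mul (.pp [(1, 532210800)]) (.sq [(1, -9), (2, -9),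
 (3, -28), (5, 50), (7, -23)])) (.mul (.pp [(1, 799022400)]) (.sq [(1, -4), (2, 50), (3, 26), (5,
 26), (7, -19)])))))) (.add (.add (.mul (.g 10) (.mul (.g 10) (.mul (.g 10) (.pp [(1, 2855424)]))))
 (.mul (.g 13) (.mul (.pp [(1, 1691434800)]) (.sq [(1, 9), (2, -28), (3, 39), (5, -50), (7,
 -46)])))) (.add (.mul (.g 17) (.pp [(1, 2806221000000)])) (.mul (.g 22) (.pp [(1,
 9372396000000)])))))) (.mul (.g 17) (.add (.add (.mul (.g 13) (.add (.add (.pp [(1,
 2538129000000)]) (.mul (.g 10) (.mul (.g 18) (.pp [(1, 84094560000)])))) (.add (.mul (.g 12) (.mul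
 (.g 12) (.pp [(1, 953205000000)]))) (.mul (.g 14) (.mul (.g 22) (.pp [(1, 1921986000000)]))))))
 (.add (.mul (.g 18) (.add (.mul (.g 17) (.pp [(1, 8304714000000)])) (.mul (.g 20) (.mul (.g 20)
 (.pp [(1, 4571688000000)]))))) (.mul (.g 11) (.mul (.pp [(1, 8872215)]) (.sq [(1, 100), (2, 81),
 (3, 94), (5, 94), (7, 28)]))))) (.add (.mul (.g 12) (.mul (.g 12) (.mul (.g 12) (.pp [(1,
 3009963000000)])))) (.add (.mul (.g 14) (.pp [(1, 2404479000000)])) (.mul (.g 20) (.mul (.pp [(1,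
 481159800)]) (.sq [(1, -70), (2, 38), (3, -12), (5, 100), (7, 15)]))))))))) (.add (.mul (.g 20)
 (.add (.add (.mul (.g 14) (.add (.mul (.g 12) (.add (.mul (.g 10) (.pp [(1, 606574320000)])) (.mul
 (.g 14) (.pp [(1, 5062629000000)])))) (.mul (.g 14) (.mul (.g 18) (.pp [(1, 8309235000000)])))))
 (.mul (.g 13) (.mul (.g 13) (.add (.mul (.g 11) (.pp [(1, 32080950000)])) (.mul (.g 20) (.pp [(1,
 1354650000000)])))))) (.add (.mul (.g 18) (.mul (.pp [(1, 219126600)]) (.sq [(1, 20), (2, -44),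
 (3, 100), (5, 70), (7, -35)]))) (.add (.mul (.g 20) (.pp [(1, 1860540000000)])) (.mul (.g 22) (.pp
 [(1, 13131459000000)])))))) (.add (.mul (.g 10) (.add (.add (.mul (.g 10) (.pp [(1,
 28859740800)])) (.mul (.g 11) (.mul (.g 11) (.mul (.g 11) (.pp [(1, 43226205)]))))) (.add (.mul
 (.g 13) (.mul (.g 13) (.mul (.g 13) (.pp [(1, 83743440000)])))) (.mul (.g 14) (.mul (.pp [(1,
 2027124)]) (.sq [(1, -20), (2, 100), (3, 55), (5, -83), (7, 13)])))))) (.mul (.g 22) (.add (.mul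
 (.g 22) (.add (.mul (.pp [(1, 4283400)]) (.sq [(1, -14), (2, 100), (3, 40), (5, 92), (7, -67)]))
 (.mul (.pp [(1, 45144000)]) (.sq [(1, -64), (2, 100), (3, -6), (5, 45), (7, 12)])))) (.add (.mul
 (.g 12) (.mul (.g 12) (.mul (.g 12) (.pp [(1, 9781794000000)])))) (.mul (.g 13) (.mul (.g 14)
 (.mul (.g 14) (.pp [(1, 2612445000000)])))))))))) (.add (.add (.mul (.g 12) (.add (.mul (.g 12)
 (.mul (.pp [(1, 4950000)]) (.sq [(1, -19), (2, 100), (3, -15), (5, -24), (7, -41)]))) (.mul (.g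
 14) (.mul (.pp [(1, 48840000)]) (.sq [(1, -48), (2, 81), (3, 89), (5, -100), (7, -5)]))))) (.add
 (.mul (.g 0) (.pp [(1, 1000000000000)])) (.mul (.g 1) (.pp [(1, 3300000000)])))) (.add (.add (.mul
 (.g 4) (.pp [(1, 26400000000)])) (.mul (.g 6) (.pp [(1, 11000000000000)]))) (.add (.mul (.g 8)
 (.pp [(1, 11000000000000)])) (.mul (.g 21) (.pp [(1, 11000000000000)])))))) (.pp [(1,
 664494234227), (2, 344304388), (3, 297517925), (4, 340850015), (5, 352001200), (6, 328560320), (7,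
 319311300), (8, 421349115), (9, 365960540), (10, 405235820), (12, 307820205), (14, 304282440),
 (15, 322113880), (16, 324947700), (18, 305818920), (20, 263873005), (21, 314734860), (24,
 332135100), (25, 279612300), (27, 332790260), (28, 370335240), (30, 311373040), (35, 311110800),
 (36, 311612400), (40, 355433100), (42, 380266920), (45, 278784880), (49, 313979160), (50,
 321016520), (54, 363765600), (56, 312655200), (60, 336045600), (63, 336576240), (70, 296658120),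
 (75, 336311140), (81, 299376000), (84, 343094400), (90, 355225200), (98, 355235760), (100,
 304603200), (105, 370248120), (125, 349198872), (126, 312892800), (135, 313694700), (140,
 379816800), (147, 347981040), (150, 293607600), (175, 330675576), (189, 325512000), (196,
 336718800), (210, 310041600), (225, 345846600), (245, 360694092), (250, 332653200), (294,
 294888000), (315, 325096200), (343, 327412800), (350, 317328000), (375, 341309100), (441,
 324977400), (490, 338500800), (525, 315156600), (625, 330660000), (686, 300960000), (735,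
 320677500), (875, 322740000), (1029, 342922800), (1225, 348572400), (1715, 321235200), (2401,
 341081400)])))))))))))))
 (.split [(1, -3), (5, 2)]
 (.cut 226 [(2, 1), (3, -1)] (.add (.add (.mul (.g 2) (.pp [(1, 5)])) (.mul (.g 8) (.pp [(1,
 126)]))) (.add (.mul (.g 0) (.pp [(1, 63)])) (.mul (.g 1) (.pp [(1, 4)])))) (.rule 0 (.cut 34 [(2,
 -1), (5, 1)] (.add (.add (.mul (.g 9) (.pp [(1, 34)])) (.mul (.g 6) (.pp [(1, 25)]))) (.add (.mul
 (.g 2) (.pp [(1, 17)])) (.mul (.g 3) (.pp [(1, 1)])))) (.rule 3 (.rule 13 (.cut 1 [(1, -2), (2,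
 -1), (3, 1), (5, 2)] (.add (.mul (.g 12) (.pp [(1, 1)])) (.add (.mul (.g 9) (.pp [(1, 1)])) (.mul
 (.g 5) (.pp [(1, 1)])))) (.cut 1 [(1, -1), (2, -2), (3, 2), (5, 2)] (.add (.mul (.g 10) (.pp [(1,
 1)])) (.add (.mul (.g 13) (.pp [(1, 1)])) (.mul (.g 0) (.pp [(1, 1)])))) (.rule 18 (.leaf
 225000000 (.add (.add (.add (.add (.mul (.g 14) (.add (.add (.mul (.g 14) (.add (.add (.add (.mul
 (.pp [(1, 1740375)]) (.sq [(1, 100), (2, -2), (3, 40), (5, 24), (7, 91)])) (.mul (.g 12) (.add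
 (.mul (.g 12) (.pp [(1, 252456750000)])) (.add (.mul (.g 13) (.pp [(1, 252605250000)])) (.mul (.g
 19) (.pp [(1, 382695750000)])))))) (.add (.mul (.g 18) (.add (.mul (.g 9) (.pp [(1, 990211500)]))
 (.add (.mul (.g 14) (.pp [(1, 1850062500)])) (.mul (.g 17) (.pp [(1, 3322687500)]))))) (.mul (.g
 8) (.mul (.g 8) (.pp [(1, 49928000000)]))))) (.add (.add (.mul (.g 10) (.mul (.g 21) (.pp [(1,
 5345662500)]))) (.mul (.g 13) (.mul (.g 16) (.pp [(1, 345366000000)])))) (.add (.mul (.g 14) (.mul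
 (.g 15) (.pp [(1, 25789500000)]))) (.mul (.g 17) (.mul (.g 17) (.pp [(1, 91383750000)])))))))
 (.mul (.g 12) (.add (.add (.mul (.g 12) (.add (.pp [(1, 34195500000)]) (.add (.mul (.g 13) (.pp
 [(1, 124510500000)])) (.mul (.g 16) (.pp [(1, 130648500000)]))))) (.mul (.g 10) (.add (.mul (.g
 13) (.pp [(1, 10800900000)])) (.mul (.g 15) (.pp [(1, 22040437500)]))))) (.add (.mul (.g 8) (.mul
 (.g 15) (.pp [(1, 92745750000)]))) (.add (.mul (.g 9) (.mul (.g 21) (.pp [(1, 4988520000)])))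
 (.mul (.g 13) (.mul (.g 19) (.pp [(1, 9011250000)])))))))) (.add (.mul (.g 13) (.add (.mul (.g 9)
 (.add (.mul (.g 9) (.pp [(1, 134434800)])) (.mul (.g 15) (.pp [(1, 7070670000)])))) (.add (.mul
 (.g 11) (.mul (.g 18) (.pp [(1, 2923762500)]))) (.mul (.g 15) (.mul (.g 16) (.pp [(1,
 1201500000)])))))) (.add (.mul (.g 21) (.add (.pp [(1, 751684500000)]) (.mul (.pp [(1, 16165800)])
 (.sq [(1, 50), (2, 31), (3, 41), (5, 41), (7, 41)])))) (.mul (.g 16) (.pp [(1,
 157626000000)])))))) (.add (.mul (.g 12) (.add (.add (.mul (.g 9) (.add (.add (.mul (.g 13) (.add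
 (.mul (.g 11) (.pp [(1, 32223330000)])) (.add (.mul (.g 15) (.pp [(1, 22159530000)])) (.mul (.g
 16) (.pp [(1, 11173950000)]))))) (.mul (.g 8) (.mul (.g 15) (.pp [(1, 5433600000)])))) (.add (.mul
 (.g 9) (.mul (.g 9) (.pp [(1, 14527008)]))) (.mul (.g 11) (.mul (.g 19) (.pp [(1,
 22306050000)])))))) (.add (.mul (.g 12) (.add (.mul (.g 16) (.add (.mul (.g 11) (.pp [(1,
 608436000000)])) (.add (.mul (.g 13) (.pp [(1, 632893500000)])) (.mul (.g 16) (.pp [(1,
 135175500000)]))))) (.mul (.g 18) (.mul (.g 18) (.pp [(1, 196070625)]))))) (.mul (.g 8) (.add (.pp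
 [(1, 204851250000)]) (.mul (.g 13) (.mul (.g 18) (.pp [(1, 962175000)]))))))) (.add (.mul (.g 10)
 (.mul (.g 10) (.pp [(1, 423236250)]))) (.add (.mul (.g 11) (.mul (.g 11) (.mul (.g 11) (.pp [(1,
 996678000000)])))) (.mul (.g 15) (.pp [(1, 2168885250000)])))))) (.mul (.g 15) (.add (.add (.mul
 (.g 13) (.mul (.g 13) (.add (.mul (.g 13) (.pp [(1, 130623750000)])) (.mul (.g 21) (.pp [(1,
 47434500000)]))))) (.add (.mul (.g 16) (.add (.mul (.pp [(1, 11536650)]) (.sq [(1, -40), (2, 50),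
 (3, 100), (5, 51), (7, -41)])) (.mul (.pp [(1, 1046925)]) (.sq [(1, 90), (2, -100), (3, 46), (5,
 99), (7, -6)])))) (.mul (.g 8) (.pp [(1, 165002250000)])))) (.add (.add (.mul (.g 15) (.mul (.pp
 [(1, 41180175)]) (.sq [(1, -33), (2, 17), (3, 50), (7, 100)]))) (.mul (.g 17) (.mul (.pp [(1,
 336375)]) (.sq [(1, 43), (2, -22), (3, 100), (5, 45), (7, -82)])))) (.add (.mul (.g 18) (.pp [(1,
 55941975000)])) (.mul (.g 21) (.pp [(1, 128652750000)])))))))) (.add (.mul (.g 21) (.add (.add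
 (.mul (.pp [(1, 2231100)]) (.sq [(2, 39), (3, 50), (5, 39), (7, 50)])) (.mul (.g 11) (.add (.mul
 (.g 10) (.mul (.g 10) (.pp [(1, 2497218750)]))) (.mul (.g 13) (.mul (.g 17) (.pp [(1,
 59670000000)])))))) (.add (.mul (.g 21) (.add (.mul (.pp [(1, 1494450)]) (.sq [(1, 100), (2, -5),
 (3, 76), (5, -30), (7, 72)])) (.mul (.pp [(1, 1341450)]) (.sq [(1, 15), (2, -24), (3, -60), (5,
 100), (7, 61)])))) (.add (.mul (.g 9) (.pp [(1, 34178040000)])) (.mul (.g 17) (.mul (.pp [(1,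
 24525)]) (.sq [(1, 82), (2, 100), (3, 64), (5, 93), (7, 87)]))))))) (.add (.mul (.g 8) (.add (.mul
 (.g 11) (.add (.mul (.g 13) (.add (.mul (.g 13) (.pp [(1, 35580000000)])) (.mul (.g 19) (.pp [(1,
 10113000000)])))) (.mul (.g 16) (.mul (.g 18) (.pp [(1, 9975000)]))))) (.add (.mul (.g 17) (.pp
 [(1, 654715500000)])) (.mul (.g 18) (.pp [(1, 25672387500)]))))) (.mul (.g 16) (.add (.mul (.g 13)
 (.mul (.g 18) (.pp [(1, 43361887500)]))) (.add (.mul (.g 16) (.pp [(1, 806060250000)])) (.mul (.g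
 19) (.mul (.pp [(1, 39375)]) (.sq [(1, -9), (2, 3), (3, -70), (5, -24), (7, 100)]))))))))) (.add
 (.add (.mul (.g 9) (.add (.mul (.g 9) (.mul (.g 10) (.mul (.g 17) (.pp [(1, 73510740)])))) (.mul
 (.g 19) (.mul (.pp [(1, 329949)]) (.sq [(1, -13), (2, 100), (3, -78), (5, 68), (7, 10)]))))) (.add
 (.mul (.g 0) (.pp [(1, 750000000000)])) (.mul (.g 3) (.pp [(1, 22500000000)])))) (.add (.add (.mul
 (.g 4) (.pp [(1, 750000000000)])) (.mul (.g 6) (.pp [(1, 750000000000)]))) (.add (.mul (.g 11)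
 (.mul (.g 18) (.mul (.g 18) (.pp [(1, 1630125000)])))) (.mul (.g 20) (.pp [(1,
 750000000000)])))))) (.pp [(1, 151011246027), (2, 21504690), (3, 23897655), (4, 21365550), (5,
 24104514), (6, 24512175), (7, 22521420), (8, 23878875), (9, 15770097), (10, 25224750), (12,
 19598625), (14, 23346450), (15, 19108362), (16, 21998925), (18, 20830500), (19, 2250000000000),
 (20, 20408250), (21, 22356720), (24, 24723000), (25, 19538286), (27, 28126800), (28, 22277700),
 (30, 25660800), (35, 22212360), (36, 18559350), (40, 24398625), (42, 21523500), (45, 24315828),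
 (49, 20633850), (50, 23658300), (54, 27078300), (56, 22059000), (60, 18412275), (63, 20791800),
 (70, 20494350), (75, 22908339), (81, 20041200), (84, 22569300), (90, 29038200), (98, 19926225),
 (100, 20781075), (105, 21172530), (125, 23481483), (126, 22518000), (135, 19922400), (140,
 22236300), (147, 23015925), (150, 24273675), (175, 22129470), (189, 25601400), (196, 21363300),
 (210, 24501750), (225, 21320025), (245, 26702025), (250, 21820800), (294, 26814825), (315,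
 23300550), (343, 25990200), (350, 22992975), (375, 22201125), (441, 25148475), (490, 27273600),
 (525, 23391675), (625, 22680000), (686, 24099975), (735, 20055375), (875, 23116725), (1029,
 25203825), (1225, 19862350), (1715, 22175325), (2401, 23900175)])))))))))))
 (.cut 1 [(2, 1), (3, -1)] (.add (.mul (.g 11) (.pp [(1, 1)])) (.mul (.g 8) (.pp [(1, 1)]))) (.rule
 0 (.cut 1 [(2, -1), (5, 1)] (.add (.mul (.g 13) (.pp [(1, 1)])) (.mul (.g 9) (.pp [(1, 1)])))
 (.rule 3 (.cut 11 [(1, -3), (5, 5)] (.add (.mul (.g 14) (.pp [(1, 2)])) (.add (.mul (.g 3) (.pp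
 [(1, 40)])) (.mul (.g 15) (.pp [(1, 15)])))) (.rule 12 (.rule 25 (.leaf 6600000000 (.add (.add
 (.add (.add (.mul (.g 13) (.add (.add (.mul (.g 11) (.add (.add (.mul (.g 8) (.add (.add (.mul (.g
 13) (.pp [(1, 61548960000)])) (.mul (.g 16) (.pp [(1, 593918160000)]))) (.add (.mul (.g 17) (.pp
 [(1, 1961256000)])) (.mul (.g 18) (.pp [(1, 60701520000)]))))) (.mul (.g 14) (.add (.add (.mul (.g
 10) (.pp [(1, 6195222000000)])) (.mul (.g 11) (.pp [(1, 5718504000000)]))) (.add (.mul (.g 12)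
 (.pp [(1, 2290728000000)])) (.mul (.g 13) (.pp [(1, 24277044000000)])))))) (.add (.mul (.g 11)
 (.add (.pp [(1, 4995738000000)]) (.mul (.g 12) (.pp [(1, 3552714000000)])))) (.mul (.g 20) (.add
 (.mul (.g 13) (.pp [(1, 1918818000000)])) (.mul (.g 15) (.pp [(1, 12530496000000)]))))))) (.add
 (.mul (.g 20) (.add (.add (.pp [(1, 10181952000000)]) (.add (.mul (.pp [(1, 49031400)]) (.sq [(1,
 -21), (2, 14), (3, -6), (5, -81), (7, 100)])) (.mul (.pp [(1, 424406400)]) (.sq [(1, 50), (2, 31),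
 (3, 41), (5, 41), (7, 41)])))) (.add (.mul (.g 10) (.add (.mul (.g 8) (.pp [(1, 607862640000)]))
 (.mul (.g 12) (.pp [(1, 5187600000000)])))) (.add (.mul (.g 13) (.mul (.g 14) (.pp [(1,
 3318942000000)]))) (.mul (.g 20) (.pp [(1, 3334386000000)])))))) (.mul (.g 8) (.mul (.g 13) (.add
 (.mul (.g 14) (.pp [(1, 775848480000)])) (.mul (.g 17) (.pp [(1, 18679980000)]))))))) (.add (.add
 (.mul (.g 16) (.add (.mul (.pp [(1, 148704600)]) (.sq [(1, 56), (2, 100), (3, 62), (5, -68), (7,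
 -57)])) (.mul (.g 7) (.mul (.g 9) (.pp [(1, 175381800000)]))))) (.mul (.g 10) (.mul (.g 12) (.mul
 (.g 17) (.pp [(1, 777460200000)]))))) (.add (.mul (.g 14) (.mul (.pp [(1, 320106600)]) (.sq [(1,
 -10), (2, -25), (3, -16), (5, -42), (7, 100)]))) (.mul (.g 15) (.mul (.pp [(1, 19991400)]) (.sq
 [(1, 65), (2, -28), (3, -100), (5, -84), (7, 81)]))))))) (.add (.mul (.g 15) (.add (.add (.add
 (.mul (.g 15) (.add (.add (.mul (.pp [(1, 329214600)]) (.sq [(1, 13), (2, 100), (3, 79), (5, 34),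
 (7, 35)])) (.mul (.g 7) (.add (.mul (.g 11) (.pp [(1, 937684000000)])) (.mul (.g 12) (.pp [(1,
 4946942000000)]))))) (.add (.mul (.g 12) (.mul (.g 12) (.pp [(1, 9868122000000)]))) (.mul (.g 17)
 (.pp [(1, 772457400000)]))))) (.mul (.g 17) (.add (.mul (.pp [(1, 860640)]) (.sq [(1, 100), (2,
 -93), (3, -69), (5, 30), (7, -86)])) (.add (.mul (.pp [(1, 3645840)]) (.sq [(1, -6), (2, 38), (3,
 -91), (5, 68), (7, 100)])) (.mul (.g 8) (.mul (.g 8) (.pp [(1, 11663520)]))))))) (.add (.mul (.g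
 16) (.add (.mul (.pp [(1, 5253600)]) (.sq [(1, 89), (2, -100), (3, -41), (5, 23), (7, -58)]))
 (.mul (.g 8) (.mul (.g 8) (.pp [(1, 2119075200)]))))) (.mul (.g 9) (.mul (.pp [(1, 6357780)]) (.sq
 [(1, 100), (2, 81), (3, 94), (5, 94), (7, 28)]))))) (.add (.add (.mul (.g 10) (.mul (.pp [(1,
 125928000)]) (.sq [(1, -46), (2, -67), (3, -18), (5, 50), (7, 100)]))) (.mul (.g 11) (.pp [(1,
 3996168000000)]))) (.add (.mul (.g 14) (.mul (.pp [(1, 237045600)]) (.sq [(1, -3), (2, 100), (3,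
 -53), (5, 48), (7, 77)]))) (.mul (.g 20) (.mul (.pp [(1, 103395600)]) (.sq [(1, 40), (2, 54), (3,
 -9), (5, 17), (7, 100)]))))))) (.mul (.g 18) (.add (.add (.mul (.g 12) (.add (.add (.mul (.g 11)
 (.add (.mul (.g 12) (.pp [(1, 3262644000000)])) (.mul (.g 16) (.pp [(1, 17619492000000)])))) (.mul
 (.g 14) (.add (.mul (.g 12) (.pp [(1, 20801088000000)])) (.mul (.g 18) (.pp [(1,
 567534000000)]))))) (.add (.mul (.g 8) (.mul (.g 17) (.pp [(1, 42632832000)]))) (.mul (.g 10)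
 (.mul (.g 18) (.pp [(1, 17544978000000)])))))) (.mul (.g 18) (.add (.pp [(1, 177342000000)]) (.mul
 (.g 11) (.mul (.g 11) (.pp [(1, 2764212000000)])))))) (.add (.mul (.g 20) (.add (.mul (.pp [(1,
 14269200)]) (.sq [(1, 34), (2, -53), (3, 67), (5, -54), (7, 100)])) (.mul (.g 10) (.mul (.g 14)
 (.pp [(1, 6475722000000)]))))) (.mul (.g 8) (.pp [(1, 824340000000)]))))))) (.add (.mul (.g 20)
 (.add (.add (.mul (.g 9) (.add (.mul (.pp [(1, 343200)]) (.sq [(1, 48), (2, 100), (3, 77), (5,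
 77), (7, 20)])) (.add (.mul (.pp [(1, 24486330)]) (.sq [(1, -22), (2, -100), (3, 80), (5, -43),
 (7, 92)])) (.mul (.g 12) (.mul (.g 16) (.pp [(1, 84103800000)])))))) (.mul (.g 8) (.add (.pp [(1,
 145284480000)]) (.mul (.g 10) (.mul (.g 14) (.pp [(1, 392208960000)])))))) (.add (.mul (.g 12)
 (.mul (.pp [(1, 43018800)]) (.sq [(1, 36), (2, 76), (3, 100), (5, 100), (7, 55)]))) (.add (.mul
 (.g 14) (.pp [(1, 14347080000000)])) (.mul (.g 20) (.mul (.pp [(1, 120304800)]) (.sq [(1, 3), (2,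
 12), (3, 29), (5, -20), (7, 100)]))))))) (.add (.mul (.g 11) (.add (.mul (.g 8) (.add (.pp [(1,
 93263280000)]) (.mul (.g 12) (.pp [(1, 1265394240000)])))) (.add (.mul (.g 9) (.mul (.g 9) (.mul
 (.g 11) (.pp [(1, 2525325000)])))) (.mul (.g 14) (.mul (.g 16) (.mul (.g 16) (.pp [(1,
 3154404000000)]))))))) (.mul (.g 14) (.add (.mul (.g 14) (.add (.mul (.pp [(1, 493495200)]) (.sq
 [(1, 25), (2, -44), (3, 100), (5, -61), (7, 41)])) (.mul (.g 10) (.mul (.g 14) (.pp [(1,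
 9367116000000)]))))) (.mul (.g 17) (.pp [(1, 15576000000)]))))))) (.add (.add (.mul (.g 9) (.add
 (.mul (.g 9) (.mul (.pp [(1, 1489191)]) (.sq [(1, -1), (2, -97), (3, -67), (5, -11), (7, 100)])))
 (.mul (.g 16) (.mul (.pp [(1, 13659030)]) (.sq [(1, -5), (2, -5), (3, -66), (5, 100), (7,
 -65)]))))) (.add (.mul (.g 0) (.pp [(1, 2000000000000)])) (.mul (.g 1) (.pp [(1, 6600000000)]))))
 (.add (.add (.mul (.g 3) (.pp [(1, 22000000000000)])) (.mul (.g 5) (.pp [(1, 22000000000000)])))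
 (.add (.mul (.g 8) (.mul (.g 17) (.pp [(1, 6909672000)]))) (.mul (.g 19) (.pp [(1,
 22000000000000)])))))) (.pp [(1, 1643370665209), (2, 814842356), (3, 706566676), (4, 877907041),
 (5, 601656068), (6, 364773442), (7, 711165840), (8, 813581670), (9, 737765281), (10, 581570506),
 (12, 712404330), (14, 775981140), (15, 702412546), (16, 672243000), (18, 583193160), (19,
 66000000000000), (20, 465195170), (21, 737714340), (24, 787267800), (25, 768291139), (27,
 667940680), (28, 826741740), (30, 905706120), (35, 623993700), (36, 570721800), (40, 716806200),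
 (42, 558967860), (45, 587631880), (49, 768731040), (50, 520056240), (54, 725128800), (56,
 569995800), (60, 575841200), (63, 519373800), (70, 623847180), (75, 523729910), (81, 641764200),
 (84, 729537600), (90, 590704400), (98, 468257130), (100, 632143600), (105, 571556040), (125,
 636438880), (126, 458977200), (135, 685876400), (140, 715836000), (147, 443392950), (150,
 561864600), (175, 651310110), (189, 813463200), (196, 606474000), (210, 504424800), (225,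
 772039400), (245, 775761030), (250, 756817600), (294, 894557400), (315, 816314400), (343,
 507169080), (350, 666540600), (375, 690989200), (441, 683515800), (490, 742071000), (525,
 727775400), (625, 627880000), (686, 646681200), (735, 494023200), (875, 667986000), (1029,
 778285200), (1225, 612717600), (1715, 655036800), (2401, 693158400)])))))))))))))
 (P_TpB ++ xP_A_T2) = true := by decide +kernel

theorem t_A_T4b_TpB_a : chk Rap gP_A_T4b
 (.cut 1 [(2, -1), (3, 1)] (.add (.mul (.g 10) (.pp [(1, 1)])) (.mul (.g 4) (.pp [(1, 1)]))) (.rule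
 1 (.cut 1 [(2, -1), (5, 1)] (.add (.mul (.g 10) (.pp [(1, 1)])) (.mul (.g 6) (.pp [(1, 1)])))
 (.rule 3 (.cut 1 [(1, -3), (3, 5)] (.add (.mul (.g 4) (.pp [(1, 2)])) (.add (.mul (.g 3) (.pp [(1,
 2)])) (.mul (.g 14) (.pp [(1, 3)])))) (.cut 1 [(1, 3), (3, -2)] (.add (.add (.mul (.g 5) (.pp [(1,
 1)])) (.mul (.g 10) (.pp [(1, 2)]))) (.add (.mul (.g 2) (.pp [(1, 2)])) (.mul (.g 9) (.pp [(1,
 1)])))) (.rule 8 (.cut 9 [(1, 5), (5, -4)] (.add (.add (.mul (.g 12) (.pp [(1, 36)])) (.mul (.g 2)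
 (.pp [(1, 2)]))) (.add (.mul (.g 6) (.pp [(1, 36)])) (.mul (.g 1) (.pp [(1, 5)])))) (.rule 11
 (.cut 1 [(1, 2), (2, 1), (3, -1), (5, -2)] (.add (.mul (.g 14) (.pp [(1, 2)])) (.mul (.g 8) (.pp
 [(1, 1)]))) (.cut 9 [(1, -1), (2, -2), (3, 2), (5, 2)] (.add (.mul (.g 7) (.pp [(1, 18)])) (.add
 (.mul (.g 4) (.pp [(1, 1)])) (.mul (.g 5) (.pp [(1, 4)])))) (.rule 20 (.leaf 3000000 (.add (.add
 (.add (.add (.mul (.g 12) (.add (.add (.mul (.g 13) (.add (.mul (.g 17) (.add (.mul (.g 12) (.pp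
 [(1, 1395990000)])) (.add (.mul (.g 13) (.pp [(1, 5711850000)])) (.mul (.g 22) (.pp [(1,
 672180000)]))))) (.mul (.g 13) (.mul (.g 16) (.pp [(1, 5152230000)]))))) (.add (.mul (.g 16) (.add
 (.pp [(1, 26616090000)]) (.mul (.g 16) (.add (.mul (.g 14) (.pp [(1, 6026310000)])) (.mul (.g 16)
 (.pp [(1, 426300000)])))))) (.mul (.g 20) (.add (.pp [(1, 68471040000)]) (.mul (.g 14) (.mul (.g
 14) (.pp [(1, 2061450000)]))))))) (.add (.mul (.g 22) (.add (.pp [(1, 8410920000)]) (.mul (.g 12)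
 (.pp [(1, 3150660000)])))) (.add (.mul (.g 17) (.mul (.pp [(1, 42279)]) (.sq [(1, 85), (2, 100),
 (3, 18), (5, 96)]))) (.mul (.g 23) (.mul (.pp [(1, 258105)]) (.sq [(1, -15), (2, 100), (3, -5),
 (5, 56)]))))))) (.add (.mul (.g 14) (.add (.add (.mul (.g 14) (.add (.mul (.g 19) (.add (.pp [(1,
 457294500)]) (.mul (.g 16) (.pp [(1, 114019500)])))) (.add (.mul (.g 20) (.add (.pp [(1,
 18986760000)]) (.mul (.g 13) (.pp [(1, 802890000)])))) (.mul (.g 17) (.mul (.g 22) (.pp [(1,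
 1864860000)])))))) (.mul (.g 22) (.add (.mul (.pp [(1, 1730052)]) (.sq [(1, -13), (2, 46), (3,
 50), (5, -5)])) (.mul (.g 13) (.mul (.g 13) (.pp [(1, 12848760000)])))))) (.add (.mul (.g 17)
 (.mul (.g 17) (.pp [(1, 38442180000)]))) (.add (.mul (.g 20) (.mul (.pp [(1, 140844)]) (.sq [(1,
 14), (2, 50), (3, 9), (5, 38)]))) (.mul (.g 23) (.pp [(1, 76019820000)])))))) (.mul (.g 13) (.add
 (.mul (.g 13) (.mul (.g 13) (.add (.mul (.g 16) (.pp [(1, 2608770000)])) (.add (.mul (.g 17) (.pp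
 [(1, 4843260000)])) (.mul (.g 23) (.pp [(1, 8409240000)])))))) (.add (.mul (.g 17) (.pp [(1,
 37736400000)])) (.mul (.g 23) (.pp [(1, 30735300000)]))))))) (.add (.mul (.g 16) (.add (.pp [(1,
 8700660000)]) (.add (.mul (.g 20) (.mul (.pp [(1, 181620)]) (.sq [(1, -36), (2, 100), (3, -44),
 (5, 7)]))) (.mul (.g 22) (.mul (.pp [(1, 162009)]) (.sq [(1, 73), (2, 83), (3, 24), (5,
 100)])))))) (.add (.mul (.g 17) (.add (.mul (.g 17) (.mul (.pp [(1, 4740)]) (.sq [(1, 100), (2,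
 26), (3, -13), (5, 93)]))) (.mul (.g 23) (.mul (.pp [(1, 203484)]) (.sq [(2, 100), (3, 64), (5,
 27)]))))) (.mul (.g 0) (.pp [(1, 10000000000)]))))) (.add (.add (.mul (.g 3) (.pp [(1,
 12000000)])) (.add (.mul (.g 5) (.pp [(1, 3000000)])) (.mul (.g 8) (.pp [(1, 10000000000)]))))
 (.add (.add (.mul (.g 10) (.pp [(1, 10000000000)])) (.mul (.g 20) (.pp [(1, 46495350000)]))) (.add
 (.mul (.g 21) (.pp [(1, 10000000000)])) (.mul (.g 22) (.mul (.g 22) (.mul (.pp [(1, 484215)]) (.sq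
 [(1, -56), (2, 44), (3, 100), (5, -49)])))))))) (.pp [(1, 1257517241), (2, 289701), (3, 334215),
 (4, 294684), (5, 313692), (6, 331344), (8, 340519), (9, 270204), (10, 324768), (12, 319305), (15,
 319476), (16, 305760), (18, 298551), (20, 322152), (24, 288321), (25, 302901), (27, 317400), (30,
 307794), (36, 285840), (40, 299040), (45, 285636), (50, 318780), (54, 269940), (60, 278184), (75,
 317322), (81, 308940), (90, 293229), (100, 275916), (125, 300832), (135, 305736), (150, 287832),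
 (225, 291573), (250, 288840), (375, 269664), (625, 285168)])))))))))))))))
 (P_TpB ++ xP_A_T4b) = true := by decide +kernel

theorem t_A_T6_TpA_b : chk Rbp gP_A_T6
 (.split [(1, -3), (5, 5)]
 (.cut 1 [(2, -1), (3, 1)] (.add (.mul (.g 9) (.pp [(1, 1)])) (.mul (.g 5) (.pp [(1, 1)]))) (.rule
 1 (.cut 1 [(2, 1), (5, -1)] (.add (.mul (.g 11) (.pp [(1, 1)])) (.mul (.g 8) (.pp [(1, 1)])))
 (.rule 2 (.cut 2 [(1, 5), (3, -4)] (.add (.add (.mul (.g 10) (.pp [(1, 5)])) (.mul (.g 15) (.pp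
 [(1, 3)]))) (.add (.mul (.g 4) (.pp [(1, 1)])) (.add (.mul (.g 8) (.pp [(1, 3)])) (.mul (.g 9)
 (.pp [(1, 5)]))))) (.rule 8 (.cut 13 [(1, 3), (5, -2)] (.add (.add (.mul (.g 3) (.pp [(1, 36)]))
 (.mul (.g 6) (.pp [(1, 2)]))) (.add (.mul (.g 5) (.pp [(1, 36)])) (.mul (.g 1) (.pp [(1, 9)]))))
 (.rule 12 (.cut 1 [(1, 2), (2, 1), (3, -2), (5, -1)] (.add (.mul (.g 14) (.pp [(1, 1)])) (.add
 (.mul (.g 12) (.pp [(1, 1)])) (.mul (.g 19) (.pp [(1, 1)])))) (.cut 9 [(1, -1), (2, -2), (3, 2),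
 (5, 2)] (.add (.mul (.g 8) (.pp [(1, 18)])) (.add (.mul (.g 2) (.pp [(1, 1)])) (.mul (.g 9) (.pp
 [(1, 4)])))) (.rule 16 (.leaf 15000000 (.add (.add (.add (.add (.mul (.g 13) (.add (.add (.mul (.g
 15) (.add (.add (.pp [(1, 281861100000)]) (.add (.mul (.g 22) (.add (.mul (.g 13) (.pp [(1,
 4284300000)])) (.add (.mul (.g 17) (.pp [(1, 31884600000)])) (.mul (.g 20) (.pp [(1,
 12717900000)]))))) (.mul (.g 12) (.add (.mul (.g 11) (.pp [(1, 9308010000)])) (.mul (.g 19) (.pp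
 [(1, 2706922500)])))))) (.add (.mul (.g 13) (.mul (.g 13) (.pp [(1, 10855800000)]))) (.add (.mul
 (.g 14) (.mul (.g 16) (.pp [(1, 11567250000)]))) (.mul (.g 15) (.mul (.g 15) (.pp [(1,
 7266750000)]))))))) (.mul (.g 20) (.add (.add (.mul (.g 13) (.add (.mul (.g 11) (.pp [(1,
 33616140000)])) (.add (.mul (.g 13) (.pp [(1, 96447600000)])) (.mul (.g 16) (.pp [(1,
 77904900000)]))))) (.mul (.g 14) (.add (.mul (.g 14) (.pp [(1, 88629000000)])) (.mul (.g 16) (.pp
 [(1, 47104050000)]))))) (.add (.mul (.g 20) (.add (.pp [(1, 88428450000)]) (.mul (.g 22) (.pp [(1,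
 9245250000)])))) (.mul (.g 16) (.mul (.g 18) (.pp [(1, 77995950000)]))))))) (.add (.mul (.g 11)
 (.add (.mul (.g 11) (.add (.mul (.g 14) (.pp [(1, 740844000)])) (.mul (.g 18) (.pp [(1,
 326310000)])))) (.add (.mul (.g 12) (.mul (.g 12) (.pp [(1, 7186350000)]))) (.mul (.g 14) (.mul
 (.g 16) (.pp [(1, 766980000)])))))) (.add (.mul (.g 22) (.add (.pp [(1, 306399450000)]) (.add
 (.mul (.pp [(1, 726525)]) (.sq [(1, -62), (2, 69), (3, -89), (5, 78), (7, 100)])) (.mul (.g 14)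
 (.add (.mul (.g 13) (.pp [(1, 26132400000)])) (.mul (.g 14) (.pp [(1, 14581800000)]))))))) (.mul
 (.g 17) (.mul (.g 17) (.mul (.g 17) (.pp [(1, 7755450000)])))))))) (.add (.mul (.g 12) (.add (.add
 (.mul (.g 15) (.add (.add (.pp [(1, 96512850000)]) (.mul (.g 17) (.add (.mul (.g 19) (.pp [(1,
 746377500)])) (.mul (.g 20) (.pp [(1, 17994600000)]))))) (.add (.mul (.g 15) (.mul (.g 20) (.pp
 [(1, 21364350000)]))) (.mul (.g 16) (.mul (.g 16) (.pp [(1, 21748800000)])))))) (.add (.mul (.g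
 12) (.add (.mul (.g 22) (.add (.pp [(1, 3733650000)]) (.add (.mul (.g 12) (.pp [(1, 8971200000)]))
 (.mul (.g 14) (.pp [(1, 30080700000)]))))) (.mul (.g 12) (.mul (.g 16) (.pp [(1, 40200000)])))))
 (.mul (.g 17) (.add (.pp [(1, 19346250000)]) (.mul (.pp [(1, 621975)]) (.sq [(1, 100), (2, 94),
 (3, 97), (5, 97), (7, 20)])))))) (.add (.add (.mul (.g 11) (.pp [(1, 1710000)])) (.mul (.g 16)
 (.mul (.g 16) (.mul (.g 19) (.pp [(1, 330330000)]))))) (.add (.mul (.g 20) (.pp [(1,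
 276657450000)])) (.mul (.g 22) (.mul (.pp [(1, 65625)]) (.sq [(1, 2), (2, 4), (3, 3), (5, 3), (7,
 2)]))))))) (.mul (.g 14) (.add (.add (.mul (.g 14) (.add (.mul (.g 14) (.add (.mul (.g 15) (.pp
 [(1, 19610550000)])) (.mul (.g 22) (.pp [(1, 19447650000)])))) (.mul (.g 20) (.add (.mul (.g 16)
 (.pp [(1, 9112950000)])) (.mul (.g 18) (.pp [(1, 5105550000)])))))) (.mul (.g 11) (.add (.mul (.g
 16) (.add (.mul (.g 17) (.pp [(1, 2299740000)])) (.mul (.g 22) (.pp [(1, 3427440000)])))) (.mul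
 (.g 11) (.mul (.g 11) (.pp [(1, 261600)])))))) (.add (.mul (.g 15) (.add (.pp [(1, 200080350000)])
 (.add (.mul (.g 17) (.mul (.g 20) (.pp [(1, 579150000)]))) (.mul (.g 18) (.pp [(1,
 42046500000)]))))) (.mul (.g 22) (.pp [(1, 243016200000)]))))))) (.add (.add (.mul (.g 17) (.add
 (.add (.mul (.g 16) (.add (.mul (.g 15) (.mul (.g 15) (.pp [(1, 70650000)]))) (.mul (.g 16) (.mul
 (.g 16) (.pp [(1, 4439400000)]))))) (.add (.mul (.g 17) (.add (.pp [(1, 27888450000)]) (.mul (.g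
 18) (.pp [(1, 36902850000)])))) (.mul (.g 20) (.add (.mul (.pp [(1, 2017080)]) (.sq [(1, -16), (2,
 22), (3, 59), (5, -48), (7, 100)])) (.mul (.g 18) (.mul (.g 20) (.pp [(1, 66533700000)])))))))
 (.add (.mul (.g 11) (.pp [(1, 7665390000)])) (.add (.mul (.g 19) (.mul (.pp [(1, 1068)]) (.sq [(1,
 9), (2, 47), (3, -74), (5, 40), (7, 100)]))) (.mul (.g 22) (.mul (.pp [(1, 9330)]) (.sq [(1, 22),
 (2, 23), (3, -31), (5, 60), (7, 100)]))))))) (.mul (.g 15) (.add (.mul (.g 15) (.add (.pp [(1,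
 47593950000)]) (.mul (.g 15) (.mul (.g 22) (.pp [(1, 750000)]))))) (.add (.mul (.g 20) (.pp [(1,
 42761400000)])) (.mul (.g 22) (.mul (.pp [(1, 105)]) (.sq [(1, 100), (2, 81), (3, 81), (5, 81),
 (7, 81)]))))))) (.add (.mul (.g 18) (.add (.mul (.g 16) (.mul (.g 18) (.mul (.g 19) (.pp [(1,
 281805000)])))) (.mul (.g 22) (.mul (.pp [(1, 9330)]) (.sq [(1, 73), (2, -42), (3, -57), (5, 54),
 (7, -100)]))))) (.mul (.g 0) (.pp [(1, 50000000000)]))))) (.add (.add (.add (.mul (.g 3) (.pp [(1,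
 15000000)])) (.mul (.g 5) (.pp [(1, 60000000)]))) (.add (.mul (.g 7) (.pp [(1, 50000000000)]))
 (.mul (.g 9) (.pp [(1, 50000000000)])))) (.add (.add (.mul (.g 11) (.mul (.g 11) (.pp [(1,
 991032000)]))) (.mul (.g 20) (.pp [(1, 189276450000)]))) (.add (.mul (.g 21) (.pp [(1,
 50000000000)])) (.mul (.g 22) (.mul (.pp [(1, 1735305)]) (.sq [(2, 75), (3, 59), (5, 59), (7,
 100)]))))))) (.pp [(1, 398117332), (2, 1658034), (3, 1501974), (4, 1753065), (5, 1432458), (6,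
 1577112), (7, 1459320), (8, 1600878), (9, 1292451), (10, 1232058), (12, 1421700), (14, 1557510),
 (15, 1515444), (16, 1513140), (18, 1082304), (20, 1365642), (21, 1416630), (24, 1797090), (25,
 1674735), (27, 1780838), (28, 1453110), (30, 1316742), (35, 1359450), (36, 1318740), (40,
 1680120), (42, 1281180), (45, 1790658), (49, 1371000), (50, 1614480), (54, 1772250), (56,
 1635450), (60, 1005960), (63, 1786290), (70, 1746900), (75, 1240005), (81, 1374405), (84,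
 1656360), (90, 1946295), (98, 1428690), (100, 1306365), (105, 1674180), (125, 1363400), (126,
 1707465), (135, 1193940), (140, 1444230), (147, 1727190), (150, 1761150), (175, 1336320), (189,
 1369470), (196, 1744905), (210, 1482480), (225, 1470660), (245, 1742190), (250, 1524375), (294,
 1486620), (315, 1347870), (343, 1612095), (350, 1537665), (375, 1571400), (441, 1379715), (490,
 1283310), (525, 1647405), (625, 1476000), (686, 1640310), (735, 1429620), (875, 1598280), (1029,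
 1316715), (1225, 1564905), (1715, 1377810), (2401, 1438905)]))))))))))))))
 (.split [(1, -7), (5, 50)]
 (.cut 1 [(2, -1), (3, 1)] (.add (.mul (.g 10) (.pp [(1, 1)])) (.mul (.g 6) (.pp [(1, 1)]))) (.rule
 1 (.cut 1 [(2, 1), (5, -1)] (.add (.mul (.g 9) (.pp [(1, 1)])) (.mul (.g 12) (.pp [(1, 1)])))
 (.rule 2 (.cut 43 [(1, 5), (3, -4)] (.add (.add (.mul (.g 11) (.pp [(1, 50)])) (.mul (.g 16) (.pp
 [(1, 122)]))) (.add (.mul (.g 4) (.pp [(1, 1)])) (.add (.mul (.g 9) (.pp [(1, 122)])) (.mul (.g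
 10) (.pp [(1, 50)]))))) (.rule 8 (.rule 11 (.rule 23 (.leaf 165000000 (.add (.add (.add (.add
 (.mul (.pp [(1, 7427475)]) (.sq [(1, -40), (2, 100), (3, -40), (5, 47)])) (.add (.mul (.g 13)
 (.add (.add (.mul (.g 11) (.add (.add (.mul (.g 13) (.add (.add (.pp [(1, 1216625850000)]) (.mul
 (.g 8) (.pp [(1, 9471000)]))) (.add (.mul (.g 11) (.pp [(1, 60058350000)])) (.mul (.g 14) (.pp
 [(1, 209899800000)]))))) (.add (.mul (.g 9) (.add (.mul (.g 11) (.pp [(1, 176207460000)])) (.mul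
 (.g 14) (.pp [(1, 31345710000)])))) (.mul (.g 10) (.add (.pp [(1, 387627900000)]) (.mul (.g 11)
 (.pp [(1, 62945850000)])))))) (.add (.mul (.g 18) (.add (.mul (.g 12) (.pp [(1, 876176400000)]))
 (.mul (.g 20) (.pp [(1, 118511250000)])))) (.add (.mul (.g 14) (.mul (.g 17) (.pp [(1,
 2355292500)]))) (.mul (.g 20) (.pp [(1, 2345965050000)])))))) (.add (.mul (.g 13) (.add (.add (.pp
 [(1, 302420250000)]) (.mul (.g 16) (.add (.pp [(1, 240487500000)]) (.add (.mul (.g 12) (.pp [(1,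
 2484900000)])) (.mul (.g 20) (.pp [(1, 292050000)])))))) (.add (.mul (.g 10) (.add (.mul (.g 17)
 (.pp [(1, 318862500)])) (.mul (.g 18) (.pp [(1, 204618150000)])))) (.mul (.g 13) (.mul (.g 14)
 (.pp [(1, 305250000)])))))) (.mul (.g 10) (.add (.pp [(1, 564087150000)]) (.add (.mul (.g 14)
 (.add (.mul (.g 9) (.pp [(1, 5769060000)])) (.mul (.g 16) (.pp [(1, 33990000000)])))) (.mul (.g
 16) (.pp [(1, 531337950000)]))))))) (.add (.mul (.g 12) (.add (.pp [(1, 223492500000)]) (.mul (.g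
 16) (.pp [(1, 291078150000)])))) (.add (.mul (.g 18) (.add (.pp [(1, 60546750000)]) (.mul (.pp
 [(1, 28545)]) (.sq [(1, 64), (2, 38), (3, -77), (5, 3), (7, 100)])))) (.mul (.g 20) (.mul (.pp
 [(1, 1650)]) (.sq [(1, 40), (2, 11), (3, -18), (5, 23), (7, 100)]))))))) (.mul (.g 20) (.add (.add
 (.add (.pp [(1, 337665900000)]) (.mul (.pp [(1, 3888555)]) (.sq [(2, 83), (3, -6), (5, 100), (7,
 27)]))) (.add (.mul (.pp [(1, 18892995)]) (.sq [(2, 75), (3, 59), (5, 59), (7, 100)])) (.mul (.g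
 11) (.add (.mul (.g 9) (.add (.pp [(1, 196281690000)]) (.add (.mul (.g 9) (.pp [(1, 205260000)]))
 (.mul (.g 14) (.pp [(1, 17606820000)]))))) (.add (.mul (.g 20) (.add (.pp [(1, 971234550000)])
 (.mul (.g 11) (.pp [(1, 59162400000)])))) (.mul (.g 10) (.mul (.g 10) (.pp [(1,
 438799350000)])))))))) (.add (.add (.mul (.g 10) (.add (.mul (.g 10) (.add (.mul (.g 10) (.pp [(1,
 49211250000)])) (.mul (.g 20) (.pp [(1, 4743750000)])))) (.mul (.g 14) (.mul (.g 18) (.pp [(1,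
 415651500000)]))))) (.mul (.g 12) (.add (.pp [(1, 472333950000)]) (.mul (.g 12) (.pp [(1,
 178627350000)]))))) (.add (.mul (.g 8) (.mul (.g 8) (.mul (.g 16) (.pp [(1, 2216940)])))) (.mul
 (.g 9) (.mul (.pp [(1, 156618)]) (.sq [(1, 65), (2, -77), (3, -100), (5, -84), (7, 19)])))))))))
 (.add (.add (.mul (.g 15) (.add (.add (.mul (.g 10) (.add (.mul (.pp [(1, 4043820)]) (.sq [(1,
 100), (2, 94), (3, 97), (5, 97), (7, 20)])) (.add (.mul (.g 10) (.add (.mul (.g 10) (.pp [(1,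
 149986650000)])) (.add (.mul (.g 12) (.pp [(1, 228171900000)])) (.mul (.g 15) (.pp [(1,
 40043850000)]))))) (.mul (.g 9) (.mul (.g 9) (.pp [(1, 1514172000)])))))) (.mul (.g 15) (.add (.pp
 [(1, 194312250000)]) (.mul (.g 16) (.pp [(1, 515956650000)]))))) (.add (.mul (.g 12) (.mul (.g 12)
 (.mul (.g 12) (.pp [(1, 14630550000)])))) (.mul (.g 16) (.mul (.g 18) (.mul (.g 18) (.pp [(1,
 89141250000)]))))))) (.mul (.g 18) (.add (.add (.mul (.g 12) (.add (.mul (.g 9) (.add (.pp [(1,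
 10436250000)]) (.mul (.g 14) (.pp [(1, 11256630000)])))) (.add (.mul (.g 11) (.mul (.g 11) (.pp
 [(1, 206698800000)]))) (.mul (.g 12) (.mul (.g 18) (.pp [(1, 107733450000)])))))) (.mul (.g 9)
 (.pp [(1, 89911470000)]))) (.add (.mul (.g 10) (.pp [(1, 871092750000)])) (.mul (.g 11) (.pp [(1,
 911811450000)])))))) (.add (.mul (.g 9) (.mul (.g 9) (.add (.pp [(1, 3555684000)]) (.mul (.g 9)
 (.add (.mul (.g 10) (.pp [(1, 220836000)])) (.mul (.g 16) (.pp [(1, 103263600)]))))))) (.mul (.g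
 11) (.add (.mul (.g 11) (.mul (.pp [(1, 2324685)]) (.sq [(1, -40), (2, 100), (3, -40), (5, 47)])))
 (.add (.mul (.g 16) (.mul (.pp [(1, 15611310)]) (.sq [(1, -41), (2, 100), (3, -41), (5, 42)])))
 (.mul (.g 17) (.mul (.g 17) (.pp [(1, 60938625)]))))))))) (.add (.add (.add (.mul (.g 8) (.add
 (.mul (.g 8) (.pp [(1, 20229000)])) (.mul (.g 12) (.mul (.g 12) (.mul (.g 12) (.pp [(1,
 550440000)])))))) (.mul (.g 0) (.pp [(1, 50000000000)]))) (.add (.mul (.g 1) (.pp [(1,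
 330000000)])) (.mul (.g 2) (.pp [(1, 660000000)])))) (.add (.add (.mul (.g 4) (.pp [(1,
 550000000000)])) (.mul (.g 6) (.pp [(1, 550000000000)]))) (.add (.mul (.g 10) (.mul (.g 16) (.mul
 (.pp [(1, 90311760)]) (.sq [(1, -19), (2, 50), (3, -19), (5, 29)])))) (.mul (.g 19) (.pp [(1,
 550000000000)])))))) (.pp [(1, 4389789850), (2, 14115800), (3, 14659265), (4, 19314724), (5,
 14679670), (6, 17586580), (7, 16524090), (8, 18696480), (9, 20241375), (10, 16134646), (12,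
 13365836), (14, 15776574), (15, 23939630), (16, 17706480), (18, 16057690), (20, 13341570), (21,
 17742120), (24, 15048000), (25, 18953506), (27, 15227355), (28, 17222766), (30, 17125394), (35,
 17112678), (36, 18496500), (40, 15246000), (42, 16405356), (45, 11817410), (49, 15781491), (50,
 17617380), (54, 16091130), (56, 16486800), (60, 17442150), (63, 14739780), (70, 16749414), (75,
 10693859), (81, 16741890), (84, 18222270), (90, 18282660), (98, 18334206), (100, 16635300), (105,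
 15267252), (125, 14703040), (126, 16413540), (135, 16355130), (140, 16500990), (147, 18469869),
 (150, 18371100), (175, 15800994), (189, 17741295), (196, 16171650), (210, 17505180), (225,
 17509635), (245, 17250222), (250, 16412220), (294, 15912600), (315, 17563590), (343, 16223889),
 (350, 17619360), (375, 17016120), (441, 16737600), (490, 17334240), (525, 18177225), (625,
 16500000), (686, 16830000), (735, 15743310), (875, 16866960), (1029, 17160000), (1225, 15596130),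
 (1715, 16944510), (2401, 16500000)])))))))))))
 (.cut 450 [(2, -1), (3, 1)] (.add (.mul (.g 9) (.pp [(1, 7)])) (.add (.mul (.g 8) (.pp [(1,
 310)])) (.mul (.g 0) (.pp [(1, 9)])))) (.rule 1 (.cut 1 [(2, 1), (5, -1)] (.add (.mul (.g 9) (.pp
 [(1, 1)])) (.mul (.g 12) (.pp [(1, 1)]))) (.rule 2 (.cut 1 [(1, 5), (3, -4)] (.add (.add (.mul (.g
 11) (.pp [(1, 1)])) (.mul (.g 16) (.pp [(1, 3)]))) (.add (.mul (.g 8) (.pp [(1, 1)])) (.add (.mul
 (.g 9) (.pp [(1, 3)])) (.mul (.g 10) (.pp [(1, 1)]))))) (.rule 8 (.rule 23 (.leaf 33000000 (.add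
 (.add (.add (.add (.mul (.g 10) (.add (.add (.add (.mul (.g 12) (.add (.add (.pp [(1,
 16118850000)]) (.mul (.g 9) (.add (.pp [(1, 51120960000)]) (.add (.mul (.g 13) (.pp [(1,
 36375570000)])) (.mul (.g 15) (.pp [(1, 6238980000)])))))) (.add (.mul (.g 10) (.add (.mul (.g 8)
 (.pp [(1, 3391080000)])) (.mul (.g 16) (.pp [(1, 565504500)])))) (.add (.mul (.g 11) (.add (.pp
 [(1, 10391040000)]) (.mul (.g 15) (.pp [(1, 5651910000)])))) (.mul (.g 19) (.add (.mul (.g 12)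
 (.pp [(1, 72415200000)])) (.mul (.g 19) (.pp [(1, 34183380000)])))))))) (.mul (.g 17) (.add (.add
 (.mul (.g 10) (.add (.mul (.g 10) (.pp [(1, 67438800000)])) (.add (.mul (.g 11) (.pp [(1,
 172541820000)])) (.mul (.g 19) (.pp [(1, 14493930000)]))))) (.mul (.g 8) (.add (.mul (.g 15) (.pp
 [(1, 8204064000)])) (.mul (.g 16) (.pp [(1, 916693800)]))))) (.add (.mul (.g 7) (.mul (.g 9) (.pp
 [(1, 1304648400)]))) (.add (.mul (.g 11) (.mul (.g 11) (.pp [(1, 153243750000)]))) (.mul (.g 17)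
 (.mul (.g 19) (.pp [(1, 33022110000)])))))))) (.add (.mul (.g 7) (.add (.pp [(1, 1492174200)])
 (.add (.mul (.g 11) (.add (.pp [(1, 1458045600)]) (.mul (.g 13) (.pp [(1, 883984200)])))) (.mul
 (.g 9) (.mul (.g 10) (.pp [(1, 195525000)])))))) (.mul (.g 9) (.mul (.g 9) (.add (.mul (.g 9) (.pp
 [(1, 48420900000)])) (.mul (.g 19) (.pp [(1, 66792990000)]))))))) (.add (.add (.mul (.g 8) (.mul
 (.g 8) (.mul (.g 11) (.pp [(1, 49988400)])))) (.mul (.g 13) (.mul (.g 15) (.mul (.g 15) (.pp [(1,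
 14208150000)]))))) (.add (.mul (.g 16) (.mul (.g 16) (.pp [(1, 73183275)]))) (.mul (.g 19) (.pp
 [(1, 25596120000)])))))) (.add (.mul (.g 12) (.add (.add (.mul (.g 12) (.add (.add (.mul (.g 13)
 (.add (.pp [(1, 149114790000)]) (.add (.mul (.g 14) (.pp [(1, 6600000)])) (.mul (.g 19) (.pp [(1,
 153780000)]))))) (.mul (.g 9) (.add (.mul (.g 16) (.pp [(1, 50440500)])) (.mul (.g 17) (.pp [(1,
 4202220000)]))))) (.add (.mul (.g 12) (.add (.mul (.g 17) (.pp [(1, 36209250000)])) (.mul (.g 19)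
 (.pp [(1, 3300000)])))) (.mul (.g 11) (.mul (.g 19) (.pp [(1, 3300000)])))))) (.mul (.g 11) (.add
 (.pp [(1, 56767920000)]) (.add (.mul (.g 11) (.add (.mul (.g 13) (.pp [(1, 24406470000)])) (.mul
 (.g 19) (.pp [(1, 3300000)])))) (.mul (.g 7) (.mul (.g 17) (.pp [(1, 112840200)]))))))) (.add
 (.mul (.g 9) (.add (.pp [(1, 145193070000)]) (.mul (.g 15) (.pp [(1, 34401180000)])))) (.add (.mul
 (.g 17) (.add (.pp [(1, 39882150000)]) (.mul (.g 19) (.mul (.g 19) (.pp [(1, 2022570000)])))))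
 (.mul (.g 19) (.pp [(1, 50553690000)])))))) (.mul (.g 9) (.add (.add (.mul (.g 19) (.add (.mul
 (.pp [(1, 39249375)]) (.sq [(1, 2), (2, 4), (3, 3), (5, 3), (7, 2)])) (.add (.mul (.g 9) (.add
 (.pp [(1, 86522370000)]) (.add (.mul (.g 9) (.pp [(1, 5981250000)])) (.mul (.g 19) (.pp [(1,
 1164900000)]))))) (.mul (.g 13) (.mul (.g 17) (.pp [(1, 86172240000)])))))) (.add (.mul (.g 7)
 (.pp [(1, 33620400)])) (.mul (.g 9) (.mul (.g 9) (.mul (.g 15) (.pp [(1, 9790770000)])))))) (.add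
 (.add (.mul (.g 11) (.mul (.g 11) (.mul (.g 11) (.pp [(1, 16579530000)])))) (.mul (.g 13) (.mul
 (.pp [(1, 726000)]) (.sq [(1, -47), (2, 100), (3, 54), (5, 54), (7, -10)])))) (.add (.mul (.g 14)
 (.mul (.pp [(1, 1369863)]) (.sq [(1, 100), (2, 94), (3, 97), (5, 97), (7, 20)]))) (.mul (.g 17)
 (.pp [(1, 74095230000)])))))))) (.add (.mul (.g 14) (.add (.mul (.g 15) (.add (.mul (.g 7) (.add
 (.pp [(1, 597267000)]) (.mul (.g 8) (.pp [(1, 2498760)])))) (.add (.mul (.g 14) (.add (.pp [(1,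
 6011940000)]) (.mul (.g 19) (.pp [(1, 3300000)])))) (.mul (.g 17) (.mul (.g 17) (.pp [(1,
 19922760000)])))))) (.mul (.g 14) (.mul (.g 16) (.pp [(1, 3404379000)]))))) (.add (.mul (.g 11)
 (.add (.mul (.g 7) (.pp [(1, 140969400)])) (.add (.mul (.g 11) (.mul (.g 11) (.mul (.g 11) (.pp
 [(1, 621390000)])))) (.mul (.g 19) (.pp [(1, 89420760000)]))))) (.mul (.g 13) (.add (.mul (.g 7)
 (.mul (.g 8) (.mul (.g 19) (.pp [(1, 120246720)])))) (.add (.mul (.g 15) (.mul (.g 15) (.mul (.g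
 16) (.pp [(1, 247170000)])))) (.mul (.g 17) (.mul (.pp [(1, 2760648)]) (.sq [(1, -8), (2, 100),
 (3, 52), (5, 52), (7, -39)]))))))))) (.add (.add (.mul (.g 0) (.pp [(1, 10000000000)])) (.add
 (.mul (.g 1) (.pp [(1, 132000000)])) (.mul (.g 3) (.pp [(1, 110000000000)])))) (.add (.mul (.g 5)
 (.pp [(1, 110000000000)])) (.add (.mul (.g 18) (.pp [(1, 110000000000)])) (.mul (.g 19) (.pp [(1,
 84231510000)])))))) (.pp [(1, 3524401352), (2, 2973508), (3, 3378277), (4, 2780360), (5, 3493304),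
 (6, 3446168), (7, 3365472), (8, 3036132), (9, 3066888), (10, 3457916), (12, 3513532), (14,
 3620628), (15, 2994640), (16, 3260532), (18, 3539030), (20, 3339732), (21, 3297360), (23,
 330000000000), (24, 3187800), (25, 2886752), (27, 3437808), (28, 3347520), (30, 3365296), (35,
 3189912), (36, 3530901), (40, 3517800), (42, 3075600), (45, 3294016), (49, 3325608), (50,
 2989866), (54, 3207534), (56, 3255120), (60, 3517602), (63, 3208788), (70, 3315048), (75,
 3908608), (81, 3300000), (84, 3857040), (90, 3346035), (98, 3261192), (100, 3286701), (105,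
 3066888), (125, 3469400), (126, 3327027), (135, 3300000), (140, 3421440), (147, 3274392), (150,
 3339468), (175, 3300000), (189, 3300000), (196, 3154800), (210, 3559842), (225, 3300000), (245,
 3300000), (250, 3530967), (294, 3470808), (315, 3300000), (343, 3300000), (350, 3202815), (375,
 2970000), (441, 3300000), (490, 3527700), (525, 3300000), (625, 3300000), (686, 3217500), (735,
 3300000), (875, 3300000), (1029, 3300000), (1225, 3300000), (1715, 3300000), (2401,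
 3300000)]))))))))))))
 (P_TpA ++ xP_A_T6) = true := by decide +kernel

theorem t_G_F7_c0 : chk ROp gP_G_F7
 (.split [(1, -7), (3, 50)]
 (.cut 50 [(2, 1), (3, -1)] (.add (.add (.mul (.g 9) (.pp [(1, 45)])) (.mul (.g 8) (.pp [(1, 2)])))
 (.add (.mul (.g 3) (.pp [(1, 5)])) (.mul (.g 10) (.pp [(1, 9)])))) (.rule 0 (.cut 60 [(2, -1), (5,
 1)] (.add (.add (.mul (.g 12) (.pp [(1, 11)])) (.mul (.g 10) (.pp [(1, 3)]))) (.add (.mul (.g 1)
 (.pp [(1, 5)])) (.mul (.g 7) (.pp [(1, 5)])))) (.rule 3 (.cut 3 [(1, 69), (3, -100)] (.add (.mul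
 (.g 3) (.pp [(1, 145)])) (.add (.mul (.g 14) (.pp [(1, 31)])) (.mul (.g 9) (.pp [(1, 145)]))))
 (.rule 7 (.leaf 30000000 (.add (.add (.add (.add (.mul (.g 10) (.add (.add (.mul (.g 18) (.add
 (.add (.mul (.g 10) (.add (.add (.mul (.g 8) (.pp [(1, 173477100000)])) (.mul (.g 11) (.pp [(1,
 46763400000)]))) (.add (.mul (.g 18) (.pp [(1, 89997000000)])) (.mul (.g 19) (.pp [(1,
 14754900000)]))))) (.mul (.g 7) (.add (.pp [(1, 14334600000)]) (.add (.mul (.g 11) (.pp [(1,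
 159200700000)])) (.mul (.g 18) (.pp [(1, 76745100000)])))))) (.add (.mul (.g 8) (.add (.mul (.g 9)
 (.pp [(1, 43786200000)])) (.mul (.g 15) (.pp [(1, 76267950000)])))) (.add (.mul (.g 16) (.add
 (.mul (.g 16) (.pp [(1, 1446432000)])) (.mul (.g 19) (.pp [(1, 2146080000)])))) (.mul (.g 6) (.mul
 (.g 9) (.pp [(1, 876876000)]))))))) (.mul (.g 15) (.add (.add (.mul (.pp [(1, 1591755)]) (.sq [(1,
 -100), (2, 61), (3, -56), (5, 20), (7, 64)])) (.mul (.g 6) (.add (.mul (.g 11) (.pp [(1,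
 242994000)])) (.mul (.g 16) (.pp [(1, 88445400)]))))) (.add (.mul (.g 7) (.mul (.g 7) (.pp [(1,
 1521600000)]))) (.add (.mul (.g 8) (.mul (.g 19) (.pp [(1, 1404450000)]))) (.mul (.g 11) (.mul (.g
 11) (.pp [(1, 47502450000)])))))))) (.add (.mul (.g 19) (.add (.mul (.g 7) (.add (.mul (.g 14)
 (.pp [(1, 1724325000)])) (.mul (.g 19) (.pp [(1, 45060600000)])))) (.add (.mul (.g 10) (.mul (.g
 10) (.pp [(1, 8238000000)]))) (.mul (.g 16) (.mul (.g 19) (.pp [(1, 324000000)])))))) (.add (.mul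
 (.g 6) (.add (.mul (.g 6) (.mul (.g 16) (.pp [(1, 3943584)]))) (.add (.mul (.g 7) (.mul (.g 14)
 (.pp [(1, 24409200)]))) (.mul (.g 8) (.mul (.g 10) (.pp [(1, 639204000)])))))) (.mul (.g 11) (.add
 (.mul (.pp [(1, 227220)]) (.sq [(1, -64), (2, 85), (3, 6), (5, 96), (7, -100)])) (.mul (.g 10)
 (.mul (.g 11) (.pp [(1, 13478400000)]))))))))) (.mul (.g 7) (.add (.add (.mul (.g 6) (.add (.mul
 (.g 19) (.add (.mul (.g 7) (.pp [(1, 1100772000)])) (.add (.mul (.g 9) (.pp [(1, 1033326000)]))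
 (.mul (.g 19) (.pp [(1, 1338648000)]))))) (.add (.mul (.g 15) (.add (.pp [(1, 821760000)]) (.mul
 (.g 11) (.pp [(1, 899472000)])))) (.mul (.g 16) (.add (.mul (.g 16) (.pp [(1, 15811440)])) (.mul
 (.g 18) (.pp [(1, 282908400)]))))))) (.add (.mul (.g 7) (.add (.mul (.g 15) (.add (.mul (.g 14)
 (.pp [(1, 1785337500)])) (.mul (.g 19) (.pp [(1, 40974150000)])))) (.add (.mul (.g 7) (.mul (.g
 19) (.pp [(1, 14894100000)]))) (.mul (.g 8) (.mul (.g 18) (.pp [(1, 26142000000)])))))) (.mul (.g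
 18) (.add (.mul (.g 8) (.mul (.g 15) (.pp [(1, 1001850000)]))) (.add (.mul (.g 9) (.mul (.g 9)
 (.pp [(1, 7128600000)]))) (.mul (.g 14) (.pp [(1, 1843140000)]))))))) (.add (.mul (.g 11) (.add
 (.mul (.pp [(1, 745740)]) (.sq [(1, -79), (2, 100), (3, -43), (5, 42), (7, -40)])) (.mul (.g 15)
 (.mul (.g 15) (.pp [(1, 2918025000)]))))) (.add (.mul (.g 14) (.mul (.g 16) (.pp [(1, 4458000)])))
 (.mul (.g 19) (.mul (.pp [(1, 809430)]) (.sq [(1, -71), (2, 100), (3, 7), (5, 31), (7,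
 -67)])))))))) (.add (.mul (.g 15) (.add (.add (.mul (.g 9) (.add (.mul (.g 9) (.add (.mul (.g 14)
 (.pp [(1, 13957500)])) (.mul (.g 18) (.pp [(1, 1942350000)])))) (.add (.mul (.g 8) (.mul (.g 19)
 (.pp [(1, 2521650000)]))) (.mul (.g 15) (.mul (.g 15) (.pp [(1, 534562500)])))))) (.mul (.g 15)
 (.add (.pp [(1, 29123025000)]) (.mul (.g 8) (.pp [(1, 2207325000)]))))) (.add (.mul (.g 6) (.pp
 [(1, 745536000)])) (.add (.mul (.g 11) (.mul (.g 11) (.mul (.g 19) (.pp [(1, 5935500000)]))))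
 (.mul (.g 18) (.pp [(1, 71309250000)])))))) (.add (.mul (.g 6) (.add (.add (.mul (.g 8) (.add
 (.mul (.g 8) (.add (.mul (.g 11) (.pp [(1, 1932066000)])) (.mul (.g 18) (.pp [(1, 158700000)]))))
 (.mul (.g 6) (.mul (.g 13) (.pp [(1, 3172800)]))))) (.mul (.g 6) (.pp [(1, 673560)]))) (.add (.mul
 (.g 11) (.mul (.g 11) (.mul (.g 14) (.pp [(1, 42210300)])))) (.mul (.g 19) (.pp [(1,
 1724964000)]))))) (.mul (.g 18) (.add (.add (.mul (.g 9) (.mul (.g 9) (.add (.mul (.g 8) (.pp [(1,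
 34992900000)])) (.mul (.g 16) (.pp [(1, 6097020000)]))))) (.mul (.g 11) (.mul (.pp [(1, 1303920)])
 (.sq [(1, -73), (2, 73), (3, -100), (5, 16), (7, 85)])))) (.add (.mul (.g 16) (.pp [(1,
 10128600000)])) (.mul (.g 18) (.pp [(1, 10858500000)])))))))) (.add (.add (.mul (.g 19) (.add
 (.mul (.g 19) (.add (.mul (.pp [(1, 151890)]) (.sq [(1, -24), (2, 68), (3, -100), (5, 47), (7,
 79)])) (.mul (.pp [(1, 312390)]) (.sq [(1, 22), (2, -3), (3, 36), (5, -39), (7, 100)])))) (.add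
 (.mul (.g 8) (.mul (.g 8) (.mul (.g 8) (.pp [(1, 7400400000)])))) (.mul (.g 14) (.pp [(1,
 2422740000)]))))) (.add (.mul (.g 0) (.pp [(1, 60000000)])) (.mul (.g 2) (.pp [(1,
 100000000000)])))) (.add (.mul (.g 4) (.pp [(1, 100000000000)])) (.add (.mul (.g 9) (.mul (.g 9)
 (.mul (.g 11) (.mul (.g 14) (.pp [(1, 215700000)]))))) (.mul (.g 17) (.pp [(1, 100000000)]))))))
 (.pp [(1, 534179580), (2, 2611230), (3, 3226920), (4, 3148530), (5, 3285000), (6, 3249060), (7,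
 2835408), (8, 2722680), (9, 2994360), (10, 3156870), (12, 3350100), (14, 3372300), (15, 2572320),
 (16, 3000000), (18, 2879670), (20, 2994720), (21, 3063840), (24, 3196320), (25, 2925720), (27,
 3235000), (28, 2774940), (30, 2856600), (35, 3113340), (36, 2680260), (40, 3066000), (42,
 2559780), (45, 2930880), (49, 2957310), (50, 3173790), (54, 2850000), (56, 3214110), (60,
 2982000), (63, 3061080), (70, 2736840), (75, 3289020), (81, 3000000), (84, 3005475), (90,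
 2981070), (98, 3185130), (100, 2975490), (105, 3225960), (125, 2797980), (126, 2912400), (135,
 2962500), (140, 2930835), (147, 2970000), (150, 2969340), (175, 2801160), (189, 3043680), (196,
 2850720), (210, 3118140), (225, 2880060), (245, 3121380), (250, 3057090), (294, 3276720), (315,
 2862480), (343, 2922000), (350, 3089820), (375, 2944620), (441, 3050160), (490, 2882310), (525,
 2824800), (625, 3042300), (686, 3221040), (735, 2742960), (875, 3058860), (1029, 2928480), (1225,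
 3047310), (1715, 2928480), (2401, 3000000)])))))))))
 (.cut 450 [(2, 1), (3, -1)] (.add (.add (.mul (.g 1) (.pp [(1, 310)])) (.mul (.g 9) (.pp [(1,
 140)]))) (.add (.mul (.g 8) (.pp [(1, 7)])) (.mul (.g 0) (.pp [(1, 9)])))) (.rule 0 (.cut 450 [(2,
 -1), (5, 1)] (.add (.mul (.g 9) (.pp [(1, 310)])) (.add (.mul (.g 10) (.pp [(1, 7)])) (.mul (.g 2)
 (.pp [(1, 9)])))) (.rule 3 (.leaf 75000000 (.add (.add (.add (.add (.mul (.g 8) (.add (.add (.add
 (.mul (.g 16) (.add (.add (.mul (.g 8) (.add (.mul (.g 12) (.pp [(1, 16867125000)])) (.add (.mul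
 (.g 16) (.pp [(1, 224992500000)])) (.mul (.g 17) (.pp [(1, 356995500000)]))))) (.add (.mul (.g 5)
 (.add (.pp [(1, 157401000000)]) (.mul (.g 9) (.pp [(1, 423793500000)])))) (.mul (.g 6) (.add (.mul
 (.g 7) (.pp [(1, 156463500000)])) (.mul (.g 13) (.pp [(1, 153808500000)])))))) (.add (.mul (.g 16)
 (.add (.mul (.g 4) (.pp [(1, 313905000)])) (.mul (.g 14) (.pp [(1, 15010950000)])))) (.add (.mul
 (.g 7) (.mul (.g 12) (.pp [(1, 447712500)]))) (.mul (.g 10) (.mul (.g 17) (.pp [(1,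
 687000000)]))))))) (.mul (.g 17) (.add (.add (.pp [(1, 7840500000)]) (.mul (.g 5) (.add (.mul (.g
 12) (.pp [(1, 12900525000)])) (.mul (.g 17) (.pp [(1, 190427250000)]))))) (.add (.mul (.g 13)
 (.add (.mul (.g 9) (.pp [(1, 48901875000)])) (.mul (.g 14) (.pp [(1, 36924150000)])))) (.add (.mul
 (.g 4) (.mul (.g 12) (.pp [(1, 357468000)]))) (.mul (.g 7) (.mul (.g 17) (.pp [(1,
 60455250000)])))))))) (.add (.mul (.g 6) (.add (.mul (.g 6) (.add (.mul (.g 6) (.pp [(1,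
 840855000000)])) (.add (.mul (.g 13) (.pp [(1, 62953500000)])) (.mul (.g 14) (.pp [(1,
 68496150000)]))))) (.mul (.g 8) (.mul (.g 12) (.pp [(1, 1574287500)]))))) (.mul (.g 7) (.add (.mul
 (.pp [(1, 712875)]) (.sq [(1, -80), (2, 90), (3, -31), (5, 100), (7, -62)])) (.mul (.g 13) (.mul
 (.g 13) (.pp [(1, 20847000000)]))))))) (.add (.add (.mul (.g 10) (.add (.mul (.pp [(1, 2190000)])
 (.sq [(1, -49), (2, -22), (3, -18), (5, -37), (7, 100)])) (.mul (.g 11) (.mul (.g 12) (.pp [(1,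
 2214000000)]))))) (.mul (.g 4) (.mul (.g 4) (.mul (.g 4) (.pp [(1, 530592)]))))) (.add (.mul (.g
 5) (.mul (.g 13) (.mul (.g 13) (.pp [(1, 49888125000)])))) (.mul (.g 8) (.mul (.g 12) (.pp [(1,
 266887500)]))))))) (.mul (.g 6) (.add (.add (.mul (.g 4) (.add (.add (.pp [(1, 3220455000)]) (.mul
 (.g 5) (.add (.mul (.g 5) (.pp [(1, 77550000)])) (.mul (.g 7) (.pp [(1, 736455000)]))))) (.add
 (.mul (.g 6) (.add (.mul (.g 6) (.pp [(1, 8910195000)])) (.mul (.g 14) (.pp [(1, 292881000)]))))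
 (.mul (.g 7) (.mul (.g 7) (.pp [(1, 1534695000)])))))) (.add (.mul (.g 13) (.add (.mul (.g 5)
 (.add (.mul (.g 9) (.pp [(1, 64097250000)])) (.mul (.g 17) (.pp [(1, 37425750000)])))) (.add (.mul
 (.g 7) (.mul (.g 17) (.pp [(1, 46636875000)]))) (.mul (.g 13) (.pp [(1, 41815500000)]))))) (.mul
 (.g 6) (.add (.mul (.pp [(1, 37228200)]) (.sq [(1, 17), (3, 100), (5, 8), (7, -52)])) (.mul (.g 6)
 (.add (.mul (.g 9) (.pp [(1, 7500000)])) (.mul (.g 17) (.pp [(1, 50150250000)])))))))) (.add (.mul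
 (.g 5) (.mul (.g 5) (.mul (.g 16) (.pp [(1, 72101250000)])))) (.add (.mul (.g 7) (.mul (.g 7)
 (.mul (.g 12) (.pp [(1, 429975000)])))) (.mul (.g 17) (.mul (.pp [(1, 6644400)]) (.sq [(1, -50),
 (2, -3), (3, -36), (5, 46), (7, 100)])))))))) (.add (.mul (.g 17) (.add (.add (.mul (.g 5) (.add
 (.mul (.g 5) (.add (.mul (.g 5) (.pp [(1, 121788750000)])) (.mul (.g 13) (.pp [(1,
 1633500000)])))) (.add (.mul (.g 4) (.mul (.g 7) (.pp [(1, 802395000)]))) (.mul (.g 17) (.mul (.g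
 17) (.pp [(1, 16226250000)])))))) (.add (.mul (.g 7) (.add (.mul (.g 9) (.add (.mul (.g 12) (.pp
 [(1, 965550000)])) (.mul (.g 17) (.pp [(1, 6826500000)])))) (.mul (.g 12) (.pp [(1,
 1248825000)])))) (.mul (.g 9) (.mul (.pp [(1, 150720000)]) (.sq [(1, -4), (2, 2), (3, 4), (5, 5),
 (7, 5)]))))) (.add (.mul (.g 11) (.mul (.pp [(1, 900)]) (.sq [(1, -50), (2, 25), (3, 3), (5, -90),
 (7, 100)]))) (.add (.mul (.g 12) (.pp [(1, 3505200000)])) (.mul (.g 17) (.pp [(1,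
 18637500000)])))))) (.mul (.g 16) (.add (.add (.mul (.g 7) (.add (.mul (.pp [(1, 258750)]) (.sq
 [(1, -13), (2, 54), (3, 56), (5, 100), (7, -44)])) (.mul (.g 7) (.mul (.g 7) (.pp [(1,
 38589750000)]))))) (.add (.mul (.g 4) (.pp [(1, 115185000)])) (.mul (.g 5) (.mul (.g 5) (.mul (.g
 10) (.pp [(1, 38350500000)])))))) (.add (.mul (.g 12) (.pp [(1, 4471275000)])) (.add (.mul (.g 13)
 (.pp [(1, 247804500000)])) (.mul (.g 16) (.pp [(1, 24119250000)])))))))) (.add (.add (.mul (.g 9)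
 (.add (.mul (.g 5) (.mul (.g 13) (.add (.mul (.g 5) (.pp [(1, 55965000000)])) (.mul (.g 13) (.pp
 [(1, 33184875000)]))))) (.add (.mul (.g 7) (.mul (.pp [(1, 450600)]) (.sq [(1, -46), (2, 100), (3,
 7), (5, 10), (7, -17)]))) (.mul (.g 9) (.mul (.pp [(1, 12681000)]) (.sq [(1, -55), (2, 38), (3,
 -23), (5, -62), (7, 100)])))))) (.mul (.g 12) (.add (.mul (.g 4) (.add (.pp [(1, 18574500)]) (.mul
 (.g 5) (.pp [(1, 500014500)])))) (.mul (.g 13) (.pp [(1, 2828306250)]))))) (.add (.mul (.g 0) (.pp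
 [(1, 250000000000)])) (.add (.mul (.g 2) (.pp [(1, 250000000000)])) (.mul (.g 15) (.pp [(1,
 250000000)])))))) (.pp [(1, 398878500), (2, 7026000), (3, 7533750), (4, 7581000), (5, 7340400),
 (6, 8418000), (7, 6685944), (8, 7000500), (9, 7252200), (10, 7476600), (12, 7986900), (14,
 9015000), (15, 6513150), (16, 8136000), (18, 7325700), (19, 750000000000), (20, 7738500), (21,
 7456200), (24, 6888000), (25, 7638000), (27, 7289500), (28, 6750000), (30, 6741000), (35,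
 6263850), (36, 7626000), (40, 6679500), (42, 7905000), (45, 7365900), (49, 8332500), (50,
 7056000), (54, 7500000), (56, 7440000), (60, 7850100), (63, 7332600), (70, 8033400), (75,
 7986600), (81, 7500000), (84, 7830000), (90, 7796700), (98, 6750000), (100, 8023500), (105,
 7305300), (125, 7500000), (126, 6795000), (135, 7720500), (140, 8077500), (147, 8242500), (150,
 8250600), (175, 8079000), (189, 7590000), (196, 7500000), (210, 6554700), (225, 7039500), (245,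
 7964100), (250, 7470000), (294, 8250000), (315, 8109525), (343, 7140000), (350, 6456000), (375,
 7229400), (441, 6697200), (490, 8078400), (525, 8835000), (625, 7290000), (686, 7500000), (735,
 6028500), (875, 8160000), (1029, 7500000), (1225, 6900000), (1715, 7648500), (2401,
 7500000)]))))))))
 (P_c0 ++ xP_G_F7) = true := by decide +kernel

theorem t_G_F8_c0 : chk ROp gP_G_F8
 (.cut 50 [(2, 1), (3, -1)] (.add (.add (.mul (.g 8) (.pp [(1, 45)])) (.mul (.g 7) (.pp [(1, 2)])))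
 (.add (.mul (.g 2) (.pp [(1, 5)])) (.mul (.g 9) (.pp [(1, 9)])))) (.rule 0 (.cut 60 [(2, -1), (5,
 1)] (.add (.add (.mul (.g 11) (.pp [(1, 11)])) (.mul (.g 9) (.pp [(1, 3)]))) (.add (.mul (.g 1)
 (.pp [(1, 5)])) (.mul (.g 6) (.pp [(1, 5)])))) (.rule 3 (.leaf 300000000 (.add (.add (.add (.add
 (.mul (.g 15) (.add (.add (.add (.mul (.g 7) (.add (.add (.mul (.g 7) (.add (.add (.pp [(1,
 297486000000)]) (.mul (.g 4) (.pp [(1, 380814000000)]))) (.add (.mul (.g 6) (.pp [(1,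
 900351000000)])) (.mul (.g 15) (.pp [(1, 821688000000)]))))) (.mul (.g 16) (.add (.mul (.g 5) (.pp
 [(1, 281016000000)])) (.add (.mul (.g 13) (.pp [(1, 21627000000)])) (.mul (.g 15) (.pp [(1,
 30729000000)])))))) (.add (.mul (.g 5) (.mul (.g 15) (.pp [(1, 128934000000)]))) (.mul (.g 8)
 (.mul (.g 13) (.pp [(1, 62969400000)])))))) (.mul (.g 6) (.add (.add (.mul (.pp [(1, 51445800)])
 (.sq [(1, -28), (2, -9), (3, 100), (5, -67), (7, 64)])) (.mul (.pp [(1, 32367900)]) (.sq [(1,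
 -14), (2, -19), (3, -43), (5, 8), (7, 100)]))) (.add (.mul (.g 6) (.add (.pp [(1, 28053000000)])
 (.add (.mul (.g 6) (.pp [(1, 54087000000)])) (.mul (.g 13) (.pp [(1, 87275400000)]))))) (.mul (.g
 5) (.pp [(1, 303021000000)])))))) (.add (.mul (.g 4) (.add (.mul (.pp [(1, 31653000)]) (.sq [(1,
 -5), (2, 11), (3, -19), (5, 100), (7, -44)])) (.mul (.g 4) (.add (.mul (.g 4) (.pp [(1,
 68487000000)])) (.mul (.g 5) (.pp [(1, 249480000000)])))))) (.add (.mul (.g 15) (.add (.pp [(1,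
 77574000000)]) (.add (.mul (.pp [(1, 14414700)]) (.sq [(1, 45), (2, 19), (3, -6), (5, 100), (7,
 -38)])) (.mul (.pp [(1, 3795600)]) (.sq [(1, -51), (2, 100), (3, 38), (5, 38), (7, -58)])))))
 (.mul (.g 8) (.add (.mul (.pp [(1, 9774600)]) (.sq [(1, -81), (2, 100), (3, 40), (5, 78), (7,
 34)])) (.mul (.pp [(1, 16298400)]) (.sq [(1, -28), (2, 80), (3, 22), (5, -100), (7, 47)])))))))
 (.add (.add (.mul (.g 5) (.mul (.g 5) (.mul (.g 5) (.pp [(1, 319569000000)])))) (.add (.mul (.g 9)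
 (.mul (.pp [(1, 917700)]) (.sq [(1, 23), (2, 56), (3, 100), (5, -63), (7, 55)]))) (.mul (.g 10)
 (.mul (.pp [(1, 12005100)]) (.sq [(1, -7), (2, -43), (3, -51), (5, -46), (7, 100)]))))) (.add
 (.mul (.g 11) (.mul (.pp [(1, 191325)]) (.sq [(1, -61), (2, 44), (3, -100), (5, -31), (7, -20)])))
 (.add (.mul (.g 12) (.pp [(1, 261561000000)])) (.mul (.g 13) (.pp [(1, 92212200000)]))))))) (.mul
 (.g 13) (.add (.add (.mul (.g 6) (.add (.add (.mul (.g 7) (.add (.mul (.g 5) (.pp [(1,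
 702517200000)])) (.add (.mul (.g 8) (.pp [(1, 78459000000)])) (.mul (.g 13) (.pp [(1,
 188526000000)]))))) (.mul (.g 4) (.add (.mul (.g 4) (.pp [(1, 21474600000)])) (.mul (.g 6) (.pp
 [(1, 41067600000)]))))) (.add (.mul (.g 5) (.mul (.g 13) (.pp [(1, 15717240000)]))) (.add (.mul
 (.g 6) (.mul (.g 6) (.pp [(1, 47251800000)]))) (.mul (.g 16) (.mul (.g 16) (.pp [(1,
 266042400000)]))))))) (.add (.mul (.g 7) (.add (.mul (.g 5) (.add (.mul (.g 11) (.pp [(1,
 7500540000)])) (.mul (.g 13) (.pp [(1, 32179440000)])))) (.add (.mul (.g 8) (.mul (.g 13) (.pp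
 [(1, 5838600000)]))) (.mul (.g 12) (.pp [(1, 37331400000)]))))) (.mul (.g 4) (.add (.mul (.g 4)
 (.add (.mul (.g 5) (.pp [(1, 34606800000)])) (.mul (.g 8) (.pp [(1, 33282000000)])))) (.mul (.g
 11) (.pp [(1, 9296610000)])))))) (.add (.mul (.g 13) (.add (.mul (.pp [(1, 36312)]) (.sq [(1,
 -21), (2, 100), (3, 79), (5, 23), (7, -49)])) (.mul (.g 8) (.mul (.g 8) (.pp [(1,
 2457600000)]))))) (.add (.mul (.g 11) (.pp [(1, 19609620000)])) (.mul (.g 12) (.pp [(1,
 319329300000)]))))))) (.add (.mul (.g 11) (.add (.add (.mul (.pp [(1, 10975200000)]) (.sq [(2, 1),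
 (3, -1)])) (.mul (.g 5) (.add (.mul (.pp [(1, 1578780)]) (.sq [(1, 47), (2, -4), (3, -17), (5,
 -44), (7, 50)])) (.add (.mul (.g 7) (.add (.mul (.g 8) (.pp [(1, 3121350000)])) (.mul (.g 16) (.pp
 [(1, 26262000000)])))) (.mul (.g 5) (.mul (.g 10) (.pp [(1, 8857200000)]))))))) (.add (.mul (.g 7)
 (.add (.pp [(1, 5023200000)]) (.mul (.g 6) (.mul (.g 8) (.pp [(1, 9660750000)]))))) (.add (.mul
 (.g 9) (.add (.mul (.pp [(1, 221490)]) (.sq [(1, 96), (2, -92), (3, -41), (5, -98), (7, 100)]))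
 (.mul (.pp [(1, 937440)]) (.sq [(1, 57), (2, 5), (3, -100), (5, -2), (7, 97)])))) (.mul (.g 8)
 (.mul (.g 8) (.mul (.g 10) (.pp [(1, 875700000)])))))))) (.mul (.g 12) (.add (.add (.pp [(1,
 35218500000)]) (.mul (.g 4) (.add (.add (.pp [(1, 462732000000)]) (.mul (.g 4) (.mul (.g 4) (.pp
 [(1, 1831500000)])))) (.add (.mul (.g 5) (.pp [(1, 520896000000)])) (.mul (.g 7) (.mul (.g 7) (.pp
 [(1, 13698000000)]))))))) (.add (.mul (.g 7) (.mul (.g 7) (.add (.pp [(1, 21732000000)]) (.mul (.g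
 16) (.pp [(1, 208077000000)]))))) (.add (.mul (.g 6) (.pp [(1, 55852500000)])) (.mul (.g 12) (.mul
 (.pp [(1, 2901375)]) (.sq [(1, -60), (2, 100), (3, -32), (7, 75)]))))))))) (.add (.add (.mul (.g
 6) (.add (.mul (.pp [(1, 29019000)]) (.sq [(2, -5), (3, 100), (5, -66), (7, 98)])) (.mul (.g 6)
 (.mul (.pp [(1, 8471400)]) (.sq [(1, -11), (2, 30), (3, 3), (5, 100), (7, 6)]))))) (.mul (.g 0)
 (.pp [(1, 1000000000000)]))) (.add (.mul (.g 2) (.pp [(1, 1000000000000)])) (.add (.mul (.g 14)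
 (.pp [(1, 1000000000)])) (.mul (.g 16) (.mul (.g 16) (.mul (.pp [(1, 301966800)]) (.sq [(1, -11),
 (2, 2), (3, 50), (5, 20), (7, -35)])))))))) (.pp [(1, 6975872757), (2, 26982060), (3, 31397064),
 (4, 29762700), (5, 34180353), (6, 31881840), (7, 31648071), (8, 31595940), (9, 26089482), (10,
 35189820), (12, 28202220), (14, 27714180), (15, 21929628), (16, 30547200), (18, 27924390), (19,
 3000000000000), (20, 29291880), (21, 35347356), (24, 29426400), (25, 23051403), (27, 33293110),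
 (28, 29366400), (30, 27448440), (35, 30611382), (36, 31908600), (40, 26209500), (42, 35912400),
 (45, 40672110), (49, 24351792), (50, 23411760), (54, 29282400), (56, 29142300), (60, 35187300),
 (63, 24603120), (70, 32683920), (75, 40826640), (81, 28557600), (84, 31124100), (90, 29194500),
 (98, 28812540), (100, 33416100), (105, 22049520), (125, 37224495), (126, 27921900), (135,
 26238300), (140, 31633800), (147, 35401500), (150, 29140800), (175, 29291655), (189, 32492700),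
 (196, 28995000), (210, 21573600), (225, 27123600), (245, 38586960), (250, 29619600), (294,
 35011500), (315, 34257000), (343, 32830500), (350, 27776400), (375, 28248000), (441, 26101425),
 (490, 34587000), (525, 36858600), (625, 26676600), (686, 29834100), (735, 21938550), (875,
 28766400), (1029, 29459100), (1225, 22916925), (1715, 26828700), (2401, 28774800)])))))))
 (P_c0 ++ xP_G_F8) = true := by decide +kernel

theorem t_G_T4b_TpA_b : chk Rbp gP_G_T4b
 (.split [(1, -9), (3, 5)]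
 (.cut 9 [(2, -1), (3, 1)] (.add (.mul (.g 0) (.pp [(1, 1)])) (.add (.mul (.g 2) (.pp [(1, 4)]))
 (.mul (.g 5) (.pp [(1, 9)])))) (.rule 1 (.cut 9 [(2, 1), (5, -1)] (.add (.add (.mul (.g 3) (.pp
 [(1, 4)])) (.mul (.g 1) (.pp [(1, 4)]))) (.add (.mul (.g 2) (.pp [(1, 1)])) (.mul (.g 8) (.pp [(1,
 9)])))) (.rule 2 (.rule 10 (.cut 4 [(1, -2), (2, -1), (3, 2), (5, 1)] (.add (.add (.mul (.g 4)
 (.pp [(1, 3)])) (.mul (.g 5) (.pp [(1, 1)]))) (.add (.mul (.g 8) (.pp [(1, 4)])) (.mul (.g 10)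
 (.pp [(1, 1)])))) (.cut 1 [(1, -1), (2, -2), (3, 2), (5, 2)] (.add (.mul (.g 11) (.pp [(1, 1)]))
 (.add (.mul (.g 9) (.pp [(1, 1)])) (.mul (.g 0) (.pp [(1, 1)])))) (.rule 14 (.leaf 405000000 (.add
 (.add (.add (.add (.mul (.g 11) (.add (.add (.mul (.pp [(1, 54928125)]) (.sq [(2, 100), (3, -29),
 (5, 51)])) (.add (.mul (.g 10) (.add (.add (.pp [(1, 180071100000)]) (.mul (.g 10) (.add (.mul (.g
 15) (.pp [(1, 142106400000)])) (.mul (.g 16) (.pp [(1, 29041132500)]))))) (.add (.mul (.g 13)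
 (.add (.mul (.g 13) (.pp [(1, 1055677050000)])) (.mul (.g 20) (.pp [(1, 1029643650000)])))) (.mul
 (.g 11) (.mul (.g 17) (.pp [(1, 2251800000)])))))) (.mul (.g 13) (.add (.pp [(1, 9041989500000)])
 (.add (.mul (.g 9) (.mul (.g 9) (.pp [(1, 1056231900000)]))) (.mul (.g 20) (.mul (.g 20) (.pp [(1,
 821834100000)])))))))) (.add (.mul (.g 14) (.add (.mul (.pp [(1, 84938220)]) (.sq [(1, 86), (2,
 35), (3, 100), (5, 16)])) (.add (.mul (.pp [(1, 32046030)]) (.sq [(1, 100), (2, 86), (3, -1), (5,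
 59)])) (.mul (.g 9) (.mul (.g 14) (.pp [(1, 590988150000)])))))) (.add (.mul (.g 8) (.pp [(1,
 1055740050000)])) (.mul (.g 11) (.pp [(1, 4426957800000)])))))) (.mul (.g 9) (.add (.add (.mul (.g
 16) (.add (.add (.mul (.pp [(1, 486)]) (.sq [(1, 100), (2, -64), (3, 60), (5, 11)])) (.mul (.g 8)
 (.mul (.g 14) (.pp [(1, 1440000)])))) (.add (.mul (.g 16) (.pp [(1, 3684173625)])) (.mul (.g 20)
 (.mul (.g 20) (.pp [(1, 7728007500)])))))) (.mul (.g 13) (.add (.mul (.g 10) (.add (.mul (.g 10)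
 (.pp [(1, 202500000)])) (.mul (.g 20) (.pp [(1, 417425400000)])))) (.mul (.g 13) (.mul (.g 20)
 (.pp [(1, 9096300000)])))))) (.add (.mul (.g 8) (.mul (.g 9) (.mul (.g 20) (.pp [(1,
 81601650000)])))) (.mul (.g 14) (.pp [(1, 2582834850000)])))))) (.add (.mul (.g 10) (.add (.mul
 (.g 14) (.add (.mul (.g 10) (.mul (.g 10) (.pp [(1, 52650000)]))) (.mul (.g 16) (.pp [(1,
 61182540000)])))) (.add (.mul (.g 8) (.pp [(1, 77585400000)])) (.mul (.g 13) (.pp [(1,
 2098143000000)]))))) (.add (.mul (.g 20) (.add (.mul (.g 20) (.add (.mul (.pp [(1, 4611330)]) (.sq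
 [(1, -38), (2, 23), (3, 24), (5, 100)])) (.mul (.pp [(1, 1015335)]) (.sq [(2, 100), (3, -100), (5,
 1)])))) (.add (.mul (.g 13) (.mul (.pp [(1, 72113895)]) (.sq [(1, -75), (2, 60), (3, -59), (5,
 100)]))) (.mul (.g 14) (.mul (.g 15) (.mul (.g 15) (.pp [(1, 126424800000)]))))))) (.mul (.g 8)
 (.add (.mul (.g 8) (.pp [(1, 80969450000)])) (.mul (.g 15) (.pp [(1, 704646900000)]))))))) (.add
 (.add (.mul (.g 0) (.pp [(1, 1350000000000)])) (.add (.mul (.g 3) (.pp [(1, 81000000000)])) (.mul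
 (.g 4) (.pp [(1, 1350000000000)])))) (.add (.mul (.g 6) (.pp [(1, 1350000000000)])) (.add (.mul
 (.g 16) (.mul (.g 19) (.mul (.pp [(1, 5508)]) (.sq [(2, 11), (3, 11), (5, 25)])))) (.mul (.g 18)
 (.pp [(1, 1350000000000)])))))) (.pp [(1, 198215130105), (2, 34173090), (3, 44155170), (4,
 36999018), (5, 38288295), (6, 46635606), (8, 40442544), (9, 39847213), (10, 54968625), (12,
 42205932), (15, 36605430), (16, 39813120), (18, 36950679), (20, 37429128), (23, 4050000000000),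
 (24, 42866640), (25, 52190325), (27, 42277572), (30, 44555850), (36, 37470960), (40, 39571740),
 (45, 38973960), (50, 29661714), (54, 43028640), (60, 40635540), (75, 38244150), (81, 39320640),
 (90, 41727195), (100, 45266850), (125, 31706235), (135, 39128670), (150, 35377380), (225,
 40954410), (250, 42392970), (375, 42720210), (625, 42299415)])))))))))))
 (.split [(1, -5), (3, 4)]
 (.split [(1, -3), (5, 5)]
 (.cut 11 [(2, -1), (3, 1)] (.add (.mul (.g 7) (.pp [(1, 11)])) (.add (.mul (.g 1) (.pp [(1, 4)]))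
 (.mul (.g 2) (.pp [(1, 1)])))) (.rule 1 (.cut 11 [(2, 1), (5, -1)] (.add (.mul (.g 10) (.pp [(1,
 11)])) (.add (.mul (.g 3) (.pp [(1, 4)])) (.mul (.g 4) (.pp [(1, 1)])))) (.rule 2 (.rule 9 (.cut 4
 [(1, 3), (5, -2)] (.add (.add (.mul (.g 2) (.pp [(1, 8)])) (.mul (.g 4) (.pp [(1, 5)]))) (.add
 (.mul (.g 12) (.pp [(1, 3)])) (.mul (.g 7) (.pp [(1, 1)])))) (.rule 12 (.cut 5 [(1, -2), (2, -1),
 (3, 2), (5, 1)] (.add (.add (.mul (.g 6) (.pp [(1, 2)])) (.mul (.g 8) (.pp [(1, 2)]))) (.add (.mul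
 (.g 7) (.pp [(1, 1)])) (.mul (.g 14) (.pp [(1, 3)])))) (.cut 9 [(1, -1), (2, -2), (3, 2), (5, 2)]
 (.add (.mul (.g 7) (.pp [(1, 18)])) (.add (.mul (.g 2) (.pp [(1, 1)])) (.mul (.g 8) (.pp [(1,
 4)])))) (.rule 14 (.leaf 45000000 (.add (.add (.add (.add (.mul (.g 13) (.add (.add (.mul (.g 10)
 (.add (.add (.mul (.g 10) (.add (.mul (.g 10) (.pp [(1, 23176800)])) (.add (.mul (.g 14) (.pp [(1,
 1486620000)])) (.mul (.g 17) (.pp [(1, 1130454000)]))))) (.mul (.g 12) (.mul (.g 13) (.pp [(1,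
 614450000)])))) (.add (.mul (.g 14) (.mul (.g 18) (.pp [(1, 1665900000)]))) (.mul (.g 15) (.mul
 (.g 17) (.pp [(1, 55304640000)])))))) (.mul (.g 11) (.add (.mul (.g 11) (.mul (.g 13) (.pp [(1,
 670410000)]))) (.add (.mul (.g 14) (.mul (.g 17) (.pp [(1, 17067960000)]))) (.mul (.g 18) (.mul
 (.g 19) (.pp [(1, 15045480000)]))))))) (.add (.mul (.g 17) (.add (.mul (.g 14) (.mul (.g 19) (.pp
 [(1, 58492800000)]))) (.mul (.g 17) (.mul (.g 24) (.pp [(1, 11590200000)]))))) (.add (.mul (.g 18)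
 (.mul (.pp [(1, 708930)]) (.sq [(1, 12), (2, 63), (3, -45), (5, 100)]))) (.mul (.g 21) (.mul (.g
 21) (.mul (.g 21) (.pp [(1, 38780100000)])))))))) (.add (.mul (.g 14) (.add (.add (.mul (.g 14)
 (.add (.mul (.g 11) (.add (.mul (.g 11) (.pp [(1, 512712000)])) (.mul (.g 18) (.pp [(1,
 1144620000)])))) (.mul (.g 17) (.add (.mul (.g 12) (.pp [(1, 1588800000)])) (.mul (.g 15) (.pp
 [(1, 25499700000)])))))) (.mul (.g 18) (.add (.mul (.pp [(1, 63441000)]) (.sq [(1, 1), (2, 1), (3,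
 -10), (5, 20)])) (.mul (.g 20) (.pp [(1, 4169115000)]))))) (.add (.mul (.g 10) (.mul (.g 24) (.mul
 (.g 24) (.pp [(1, 10779300000)])))) (.add (.mul (.g 12) (.mul (.g 15) (.mul (.g 17) (.pp [(1,
 27179800000)])))) (.mul (.g 23) (.mul (.pp [(1, 335160)]) (.sq [(1, -23), (2, -2), (3, 90), (5,
 -100)]))))))) (.mul (.g 17) (.add (.add (.mul (.g 15) (.mul (.g 15) (.add (.mul (.g 15) (.pp [(1,
 14344650000)])) (.mul (.g 17) (.pp [(1, 332164350000)]))))) (.mul (.g 11) (.pp [(1,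
 144016830000)]))) (.add (.mul (.g 17) (.pp [(1, 174038850000)])) (.mul (.g 18) (.mul (.pp [(1,
 281835)]) (.sq [(1, 90), (2, -100), (3, 100), (5, 47)])))))))) (.add (.mul (.g 10) (.add (.mul (.g
 11) (.pp [(1, 6781986000)])) (.add (.mul (.g 12) (.mul (.pp [(1, 140363)]) (.sq [(1, 14), (2,
 100), (3, -49), (5, 55)]))) (.mul (.g 19) (.mul (.g 24) (.mul (.g 24) (.pp [(1,
 5326110000)]))))))) (.add (.mul (.g 18) (.add (.mul (.g 15) (.mul (.g 15) (.mul (.g 19) (.pp [(1,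
 22270050000)])))) (.add (.mul (.g 18) (.pp [(1, 167085900000)])) (.mul (.g 20) (.mul (.g 20) (.pp
 [(1, 135547875)])))))) (.mul (.g 11) (.add (.mul (.g 11) (.pp [(1, 23786010000)])) (.mul (.g 20)
 (.pp [(1, 1512864000)]))))))) (.add (.add (.mul (.g 0) (.pp [(1, 150000000000)])) (.add (.mul (.g
 3) (.pp [(1, 45000000)])) (.mul (.g 5) (.pp [(1, 1800000000)])))) (.add (.mul (.g 6) (.pp [(1,
 150000000000)])) (.add (.mul (.g 8) (.pp [(1, 150000000000)])) (.mul (.g 22) (.pp [(1,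
 150000000000)])))))) (.pp [(1, 1596039621), (2, 4381605), (3, 4511823), (4, 4386420), (5,
 4624155), (6, 4117740), (8, 4574670), (9, 4261701), (10, 4134420), (12, 4977300), (15, 4564730),
 (16, 4606830), (18, 4323030), (20, 4366260), (24, 4005270), (25, 4897710), (27, 4964955), (30,
 4698500), (36, 4994010), (40, 3826170), (45, 4830315), (50, 3573900), (54, 4310850), (60,
 5713900), (75, 4742540), (81, 4392000), (90, 3875250), (100, 5290515), (125, 4540140), (135,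
 4349075), (150, 3992485), (225, 4535750), (250, 4726485), (375, 4401875), (625,
 4500000)])))))))))))))
 (.split [(1, -7), (5, 50)]
 (.cut 92 [(2, -1), (3, 1)] (.add (.add (.mul (.g 8) (.pp [(1, 92)])) (.mul (.g 2) (.pp [(1,
 23)]))) (.add (.mul (.g 0) (.pp [(1, 1)])) (.mul (.g 1) (.pp [(1, 10)])))) (.rule 1 (.cut 17 [(2,
 1), (5, -1)] (.add (.add (.mul (.g 6) (.pp [(1, 5)])) (.mul (.g 4) (.pp [(1, 3)]))) (.add (.mul
 (.g 11) (.pp [(1, 12)])) (.mul (.g 3) (.pp [(1, 1)])))) (.rule 2 (.rule 9 (.rule 11 (.rule 23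
 (.leaf 123750000000 (.add (.add (.add (.add (.mul (.g 15) (.add (.add (.add (.mul (.g 9) (.add
 (.pp [(1, 74165602500000)]) (.mul (.g 11) (.add (.mul (.g 11) (.pp [(1, 208305405000000)])) (.mul
 (.g 15) (.pp [(1, 89124997500000)])))))) (.mul (.g 13) (.add (.mul (.pp [(1, 12866287500)]) (.sq
 [(1, 3), (2, -7), (3, -53), (5, 100)])) (.mul (.g 13) (.mul (.g 13) (.pp [(1,
 516676050000000)])))))) (.add (.mul (.g 15) (.add (.mul (.pp [(1, 16646478750)]) (.sq [(1, -19),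
 (2, 100), (3, 79), (5, -18)])) (.mul (.g 11) (.mul (.g 15) (.pp [(1, 113363662500000)]))))) (.mul
 (.g 7) (.pp [(1, 5215122000000)])))) (.add (.add (.mul (.g 8) (.mul (.pp [(1, 377734500)]) (.sq
 [(1, -26), (2, 100), (3, 49), (5, -18)]))) (.mul (.g 10) (.mul (.pp [(1, 18881500000)]) (.sq [(1,
 -3), (2, 25), (3, 15), (5, -1)])))) (.add (.mul (.g 17) (.mul (.g 17) (.mul (.g 17) (.pp [(1,
 74861325000000)])))) (.add (.mul (.g 18) (.pp [(1, 5208885000000)])) (.mul (.g 22) (.mul (.pp [(1,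
 25217651250)]) (.sq [(1, -1), (2, 22), (3, -20), (5, 100)])))))))) (.mul (.g 16) (.add (.add (.mul
 (.g 16) (.add (.add (.mul (.pp [(1, 10383615000)]) (.sq [(1, 9), (2, -30), (3, 100), (5, 15)]))
 (.mul (.g 10) (.mul (.g 18) (.pp [(1, 1476358125000)])))) (.add (.mul (.g 13) (.mul (.g 13) (.pp
 [(1, 264046612500000)]))) (.mul (.g 17) (.pp [(1, 90174150000000)]))))) (.add (.mul (.g 7) (.add
 (.mul (.pp [(1, 616146300)]) (.sq [(1, 13), (2, -34), (3, -40), (5, 100)])) (.add (.mul (.pp [(1,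
 93136725)]) (.sq [(1, -99), (2, -72), (3, 100), (5, 79)])) (.mul (.g 13) (.mul (.g 22) (.pp [(1,
 5767121250000)])))))) (.mul (.g 17) (.add (.mul (.pp [(1, 6127481250)]) (.sq [(1, -72), (2, 100),
 (3, 27), (5, -87)])) (.mul (.pp [(1, 32137256250)]) (.sq [(1, -1), (2, 35), (3, -51), (5,
 100)])))))) (.add (.mul (.g 12) (.mul (.pp [(1, 859815000)]) (.sq [(1, -100), (2, -57), (3, 92),
 (5, 92)]))) (.add (.mul (.g 13) (.mul (.g 13) (.mul (.g 13) (.pp [(1, 178764300000000)])))) (.mul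
 (.g 18) (.mul (.pp [(1, 733540500)]) (.sq [(1, -37), (2, 50), (3, 18), (5, -45)])))))))) (.add
 (.mul (.g 8) (.add (.mul (.g 8) (.add (.mul (.pp [(1, 208593000)]) (.sq [(1, -17), (2, -73), (3,
 47), (5, 100)])) (.add (.mul (.g 7) (.mul (.g 17) (.pp [(1, 61354260000)]))) (.mul (.g 13) (.mul
 (.g 18) (.pp [(1, 363287925000)])))))) (.mul (.g 18) (.mul (.g 18) (.mul (.g 19) (.pp [(1,
 117574256250)])))))) (.add (.mul (.g 9) (.add (.mul (.g 9) (.add (.pp [(1, 1887286500000)]) (.mul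
 (.g 12) (.add (.pp [(1, 15103044000000)]) (.mul (.g 10) (.pp [(1, 1180008500000)])))))) (.mul (.g
 18) (.mul (.pp [(1, 297843975)]) (.sq [(1, 21), (2, -29), (3, 100), (5, 26)]))))) (.mul (.g 7)
 (.mul (.g 7) (.add (.mul (.pp [(1, 11536866)]) (.sq [(1, -7), (2, 50), (3, -11), (5, 43)])) (.mul
 (.pp [(1, 271953)]) (.sq [(1, 20), (2, -93), (3, -6), (5, 100)])))))))) (.add (.add (.mul (.g 0)
 (.pp [(1, 37500000000000)])) (.add (.mul (.g 1) (.pp [(1, 247500000000)])) (.mul (.g 2) (.pp [(1,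
 4950000000000)])))) (.add (.mul (.g 3) (.pp [(1, 412500000000000)])) (.add (.mul (.g 5) (.pp [(1,
 412500000000000)])) (.mul (.g 20) (.pp [(1, 412500000000000)])))))) (.pp [(1, 1653995527284), (2,
 10365123165), (3, 12869289069), (4, 15772332972), (5, 13815586443), (6, 14522747448), (8,
 9793312650), (9, 11880322894), (10, 9592636350), (12, 10109417450), (15, 12334342614), (16,
 12272906250), (18, 10217278500), (20, 12383905050), (24, 14240578000), (25, 13694017359), (27,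
 13368047000), (30, 15224363000), (36, 12664047000), (40, 15165810000), (45, 12505171800), (50,
 13269413025), (54, 13052902500), (60, 8994898000), (75, 10201673075), (81, 11916437500), (90,
 12502644000), (100, 9205020000), (125, 11551611225), (135, 11947072500), (150, 13668622000), (225,
 13128810750), (250, 14294981250), (375, 12383918250), (625, 12359407500)]))))))))))
 (.cut 11 [(2, -1), (3, 1)] (.add (.mul (.g 8) (.pp [(1, 11)])) (.add (.mul (.g 2) (.pp [(1, 4)]))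
 (.mul (.g 3) (.pp [(1, 1)])))) (.rule 1 (.cut 78 [(2, 1), (5, -1)] (.add (.add (.mul (.g 6) (.pp
 [(1, 50)])) (.mul (.g 4) (.pp [(1, 7)]))) (.add (.mul (.g 11) (.pp [(1, 28)])) (.mul (.g 2) (.pp
 [(1, 1)])))) (.rule 2 (.rule 9 (.rule 23 (.leaf 9900000000 (.add (.add (.add (.add (.mul (.g 14)
 (.add (.add (.mul (.g 10) (.add (.mul (.g 14) (.add (.mul (.g 8) (.pp [(1, 8229038400000)])) (.add
 (.mul (.g 11) (.pp [(1, 16938108000000)])) (.mul (.g 14) (.pp [(1, 8134731000000)]))))) (.mul (.g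
 8) (.mul (.g 10) (.pp [(1, 10926273600000)]))))) (.add (.mul (.g 12) (.add (.pp [(1,
 3949704000000)]) (.mul (.g 12) (.mul (.g 15) (.pp [(1, 17704566000000)]))))) (.mul (.g 16) (.add
 (.mul (.pp [(1, 56261700)]) (.sq [(1, -3), (2, -1), (3, 89), (5, -100)])) (.mul (.g 16) (.mul (.g
 16) (.pp [(1, 1638153000000)]))))))) (.add (.add (.mul (.g 6) (.mul (.pp [(1, 2468664)]) (.sq [(1,
 1), (2, 86), (3, 100), (5, -55)]))) (.mul (.g 8) (.pp [(1, 1847874600000)]))) (.add (.mul (.g 15)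
 (.pp [(1, 5839515000000)])) (.mul (.g 17) (.mul (.pp [(1, 14805450)]) (.sq [(1, 88), (2, -100),
 (3, -92), (5, -33)]))))))) (.add (.mul (.g 12) (.add (.add (.mul (.g 6) (.add (.pp [(1,
 33493680000)]) (.add (.mul (.g 10) (.add (.mul (.g 10) (.pp [(1, 11038500000)])) (.add (.mul (.g
 15) (.pp [(1, 44320320000)])) (.mul (.g 16) (.pp [(1, 323821080000)]))))) (.mul (.g 11) (.pp [(1,
 794455200000)]))))) (.mul (.g 10) (.add (.mul (.pp [(1, 59598000)]) (.sq [(2, 41), (3, 50), (5,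
 -24)])) (.mul (.g 11) (.mul (.g 11) (.pp [(1, 547470000000)])))))) (.add (.mul (.g 9) (.pp [(1,
 1403127000000)])) (.mul (.g 12) (.mul (.g 17) (.mul (.g 17) (.pp [(1, 4295857500)]))))))) (.mul
 (.g 17) (.add (.add (.mul (.g 8) (.add (.mul (.pp [(1, 3535686)]) (.sq [(1, 62), (2, 19), (3,
 100), (5, 87)])) (.add (.mul (.pp [(1, 5110281)]) (.sq [(1, 9), (2, 45), (3, 100), (5, -55)]))
 (.mul (.g 16) (.mul (.g 21) (.pp [(1, 58245660000)])))))) (.mul (.g 17) (.add (.mul (.g 11) (.pp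
 [(1, 60569685000)])) (.mul (.g 17) (.pp [(1, 331909875)]))))) (.add (.mul (.g 9) (.mul (.pp [(1,
 5739195)]) (.sq [(1, -72), (2, 18), (3, 100), (5, -69)]))) (.mul (.g 15) (.pp [(1,
 421957800000)]))))))) (.add (.mul (.g 8) (.add (.mul (.g 8) (.add (.mul (.g 11) (.mul (.g 11) (.pp
 [(1, 59958360000)]))) (.mul (.g 18) (.pp [(1, 1141176960000)])))) (.mul (.g 6) (.pp [(1,
 187373736000)])))) (.add (.mul (.g 16) (.add (.mul (.g 6) (.mul (.pp [(1, 6072264)]) (.sq [(1, 7),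
 (2, -35), (3, -44), (5, 50)]))) (.mul (.g 15) (.mul (.g 15) (.pp [(1, 25992153000000)]))))) (.mul
 (.g 0) (.pp [(1, 3000000000000)]))))) (.add (.add (.mul (.g 1) (.pp [(1, 396000000000)])) (.add
 (.mul (.g 2) (.pp [(1, 33000000000000)])) (.mul (.g 4) (.pp [(1, 33000000000000)])))) (.add (.mul
 (.g 9) (.mul (.g 20) (.mul (.pp [(1, 171028000)]) (.sq [(1, -15), (2, -36), (3, 50), (5, 50)]))))
 (.add (.mul (.g 10) (.mul (.g 10) (.mul (.pp [(1, 1413759600)]) (.sq [(1, -10), (2, 50), (3, -21),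
 (5, 32)])))) (.mul (.g 19) (.pp [(1, 33000000000000)])))))) (.pp [(1, 392021320182), (2,
 952399434), (3, 996309768), (4, 985170813), (5, 1069123938), (6, 906596988), (8, 929213208), (9,
 920194968), (10, 963583170), (12, 1142053176), (15, 803578776), (16, 1032738300), (18,
 1047283908), (20, 1045527120), (23, 99000000000000), (24, 968419980), (25, 920832990), (27,
 1099010572), (30, 1038972396), (36, 924420420), (40, 980446500), (45, 1242863732), (50,
 925753950), (54, 1002437700), (60, 706325400), (75, 1185189709), (81, 937640000), (90,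
 1130063220), (100, 992514600), (125, 1039453800), (135, 852623200), (150, 1210478940), (225,
 807093980), (250, 997623000), (375, 915870780), (625, 990000000)])))))))))))
 (.split [(1, -3), (5, 5)]
 (.cut 1 [(2, -1), (3, 1)] (.add (.mul (.g 11) (.pp [(1, 1)])) (.mul (.g 7) (.pp [(1, 1)]))) (.rule
 1 (.cut 1 [(2, 1), (5, -1)] (.add (.mul (.g 13) (.pp [(1, 1)])) (.mul (.g 10) (.pp [(1, 1)])))
 (.rule 2 (.rule 8 (.cut 13 [(1, 3), (5, -2)] (.add (.add (.mul (.g 2) (.pp [(1, 36)])) (.mul (.g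
 4) (.pp [(1, 36)]))) (.add (.mul (.g 6) (.pp [(1, 9)])) (.mul (.g 5) (.pp [(1, 2)])))) (.rule 12
 (.rule 23 (.leaf 33000000 (.add (.add (.add (.add (.mul (.g 15) (.add (.add (.mul (.g 11) (.add
 (.mul (.g 11) (.add (.mul (.g 8) (.pp [(1, 3911688000)])) (.add (.mul (.g 15) (.pp [(1,
 2986500000)])) (.mul (.g 19) (.pp [(1, 165639870000)]))))) (.add (.mul (.g 15) (.add (.mul (.g 12)
 (.pp [(1, 114252600000)])) (.mul (.g 19) (.pp [(1, 27565560000)])))) (.mul (.g 17) (.add (.mul (.g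
 8) (.pp [(1, 11548416000)])) (.mul (.g 19) (.pp [(1, 43350450000)]))))))) (.add (.mul (.g 19)
 (.add (.pp [(1, 46716450000)]) (.add (.mul (.g 17) (.add (.mul (.g 17) (.pp [(1, 25150620000)]))
 (.mul (.g 18) (.pp [(1, 832821000)])))) (.mul (.g 12) (.mul (.g 12) (.pp [(1, 583770000)]))))))
 (.mul (.g 8) (.pp [(1, 27438972000)])))) (.add (.add (.mul (.g 13) (.mul (.g 13) (.mul (.g 22)
 (.pp [(1, 39063090000)])))) (.mul (.g 15) (.pp [(1, 76694310000)]))) (.add (.mul (.g 16) (.mul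
 (.pp [(1, 1022835)]) (.sq [(1, -43), (2, 89), (3, -100), (5, 99)]))) (.mul (.g 17) (.mul (.g 17)
 (.mul (.g 17) (.pp [(1, 7820340000)])))))))) (.mul (.g 16) (.add (.add (.mul (.g 8) (.add (.pp
 [(1, 8157138000)]) (.add (.mul (.g 13) (.mul (.g 22) (.pp [(1, 3747084000)]))) (.mul (.g 17) (.mul
 (.g 19) (.pp [(1, 8917062000)])))))) (.mul (.g 9) (.add (.mul (.g 12) (.pp [(1, 27878532000)]))
 (.mul (.g 16) (.mul (.g 18) (.pp [(1, 65963700)])))))) (.add (.mul (.g 17) (.add (.mul (.pp [(1,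
 964161)]) (.sq [(1, -6), (2, 53), (3, -78), (5, 100)])) (.mul (.g 16) (.pp [(1, 98967330000)]))))
 (.add (.mul (.g 11) (.mul (.g 13) (.mul (.g 13) (.pp [(1, 22051920000)])))) (.mul (.g 12) (.mul
 (.pp [(1, 234498)]) (.sq [(1, -100), (2, -57), (3, 92), (5, 92)])))))))) (.add (.mul (.g 9) (.add
 (.mul (.g 9) (.add (.pp [(1, 5643620400)]) (.add (.mul (.g 13) (.add (.mul (.g 12) (.pp [(1,
 76612800)])) (.mul (.g 13) (.pp [(1, 6545972400)])))) (.mul (.g 11) (.mul (.g 11) (.pp [(1,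
 517347600)])))))) (.mul (.g 8) (.pp [(1, 1841452800)])))) (.add (.mul (.g 12) (.add (.mul (.pp
 [(1, 4824171)]) (.sq [(1, -47), (2, -36), (3, 100), (5, -50)])) (.mul (.g 19) (.mul (.g 19) (.add
 (.mul (.g 12) (.pp [(1, 13124760000)])) (.mul (.g 13) (.pp [(1, 61833420000)]))))))) (.mul (.g 13)
 (.mul (.g 22) (.add (.mul (.pp [(1, 835659)]) (.sq [(1, 45), (2, -68), (3, 100), (5, -84)])) (.mul
 (.g 19) (.mul (.g 22) (.pp [(1, 23311860000)]))))))))) (.add (.add (.mul (.g 0) (.pp [(1,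
 10000000000)])) (.add (.mul (.g 1) (.pp [(1, 33000000)])) (.mul (.g 3) (.pp [(1, 132000000)]))))
 (.add (.mul (.g 4) (.pp [(1, 110000000000)])) (.add (.mul (.g 6) (.pp [(1, 110000000000)])) (.mul
 (.g 20) (.pp [(1, 110000000000)])))))) (.pp [(1, 585896585), (2, 2724886), (3, 3714580), (4,
 3068780), (5, 3539834), (6, 5126231), (8, 2666763), (9, 2158200), (10, 4841309), (12, 3949198),
 (15, 1169806), (16, 3364284), (18, 1986908), (20, 3940662), (24, 3661317), (25, 3219986), (27,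
 4055700), (30, 1096348), (36, 2838495), (40, 3352437), (45, 5362324), (50, 2415468), (54,
 3711708), (60, 3136650), (75, 4589959), (81, 3082596), (90, 3927264), (100, 3359730), (125,
 2902691), (135, 2745864), (150, 3363921), (225, 3055140), (250, 3239181), (375, 3154272), (625,
 3599904)])))))))))))
 (.split [(1, -7), (5, 50)]
 (.cut 1 [(2, -1), (3, 1)] (.add (.mul (.g 12) (.pp [(1, 1)])) (.mul (.g 8) (.pp [(1, 1)]))) (.rule
 1 (.cut 1 [(2, 1), (5, -1)] (.add (.mul (.g 11) (.pp [(1, 1)])) (.mul (.g 14) (.pp [(1, 1)])))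
 (.rule 2 (.rule 8 (.rule 11 (.rule 23 (.leaf 9900000000 (.add (.add (.add (.add (.mul (.g 15)
 (.add (.add (.mul (.g 12) (.add (.mul (.g 15) (.add (.mul (.g 7) (.pp [(1, 41609700000)])) (.add
 (.mul (.g 9) (.pp [(1, 2580336000000)])) (.mul (.g 11) (.pp [(1, 13791888000000)]))))) (.mul (.g
 19) (.add (.mul (.g 11) (.pp [(1, 2272446000000)])) (.add (.mul (.g 18) (.pp [(1,
 1511977500000)])) (.mul (.g 19) (.pp [(1, 20938104000000)]))))))) (.add (.mul (.g 11) (.add (.mul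
 (.g 15) (.add (.mul (.g 13) (.pp [(1, 51876000000)])) (.mul (.g 15) (.pp [(1, 32373000000)]))))
 (.mul (.g 19) (.mul (.g 19) (.pp [(1, 24600411000000)]))))) (.mul (.g 19) (.add (.mul (.pp [(1,
 1346281200)]) (.sq [(1, -5), (2, 100), (3, 31), (5, 10)])) (.mul (.g 17) (.mul (.g 19) (.pp [(1,
 11262042000000)]))))))) (.add (.mul (.g 7) (.mul (.g 7) (.mul (.g 8) (.pp [(1, 1344309120)]))))
 (.add (.mul (.g 9) (.mul (.g 9) (.mul (.g 15) (.pp [(1, 1276189200000)])))) (.mul (.g 13) (.mul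
 (.g 13) (.mul (.g 13) (.pp [(1, 3070188000000)])))))))) (.add (.mul (.g 9) (.add (.add (.mul (.g
 9) (.add (.mul (.pp [(1, 66905784)]) (.sq [(1, 43), (2, 41), (3, -17), (5, 100)])) (.mul (.g 12)
 (.add (.mul (.g 11) (.pp [(1, 3733250400000)])) (.mul (.g 12) (.pp [(1, 255119040000)])))))) (.add
 (.mul (.g 11) (.add (.mul (.pp [(1, 180603720)]) (.sq [(1, -79), (2, 62), (3, 89), (5, -100)]))
 (.mul (.g 11) (.mul (.g 16) (.pp [(1, 171230400000)]))))) (.mul (.g 7) (.pp [(1, 50994108000)]))))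
 (.add (.mul (.g 10) (.mul (.g 13) (.mul (.g 13) (.pp [(1, 416941800000)])))) (.add (.mul (.g 12)
 (.mul (.pp [(1, 80683020)]) (.sq [(1, -67), (2, -47), (3, 100), (5, -78)]))) (.mul (.g 16) (.mul
 (.pp [(1, 50222700)]) (.sq [(1, 3), (2, 15), (3, 100), (5, -94)]))))))) (.mul (.g 8) (.add (.mul
 (.g 7) (.add (.mul (.g 13) (.add (.mul (.g 13) (.pp [(1, 1938816000)])) (.mul (.g 16) (.pp [(1,
 5827536000)])))) (.add (.mul (.g 7) (.mul (.g 11) (.pp [(1, 985050000)]))) (.mul (.g 12) (.mul (.g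
 12) (.pp [(1, 21913056000)])))))) (.mul (.g 19) (.pp [(1, 5130694800000)])))))) (.add (.mul (.g
 16) (.mul (.g 16) (.add (.mul (.pp [(1, 3138300)]) (.sq [(1, 3), (2, 100), (3, 76), (5, -5)]))
 (.add (.mul (.g 17) (.add (.pp [(1, 6409062000000)]) (.mul (.g 22) (.pp [(1, 12870000000)]))))
 (.mul (.g 10) (.mul (.g 18) (.pp [(1, 31920350000)]))))))) (.add (.mul (.g 0) (.pp [(1,
 3000000000000)])) (.mul (.g 1) (.pp [(1, 19800000000)]))))) (.add (.add (.mul (.g 2) (.pp [(1,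
 39600000000)])) (.add (.mul (.g 3) (.pp [(1, 33000000000000)])) (.mul (.g 5) (.pp [(1,
 33000000000000)])))) (.add (.add (.mul (.g 11) (.mul (.pp [(1, 1805492700)]) (.sq [(1, -15), (2,
 100), (3, -51), (5, 3)]))) (.mul (.g 12) (.mul (.g 13) (.mul (.g 19) (.mul (.g 19) (.pp [(1,
 9927126000000)])))))) (.add (.mul (.g 18) (.mul (.g 18) (.mul (.g 18) (.pp [(1, 2987065125)]))))
 (.mul (.g 20) (.pp [(1, 33000000000000)])))))) (.pp [(1, 388502463885), (2, 899562540), (3,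
 897985740), (4, 1195675800), (5, 978928800), (6, 919642240), (8, 752984100), (9, 1274103644), (10,
 950829000), (12, 775390880), (15, 1035326600), (16, 990000000), (18, 1143058796), (20, 931936500),
 (24, 1037668720), (25, 993319800), (27, 748803968), (30, 1268623400), (36, 1062923136), (40,
 1158300000), (45, 977089960), (50, 1036856700), (54, 981233616), (60, 960630000), (75, 960759800),
 (81, 1043993984), (90, 1024251360), (100, 871942500), (125, 1107150000), (135, 873708000), (150,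
 996223800), (225, 960403620), (250, 1018215000), (375, 918084200), (625, 911542500)]))))))))))
 (.cut 450 [(2, -1), (3, 1)] (.add (.mul (.g 11) (.pp [(1, 7)])) (.add (.mul (.g 10) (.pp [(1,
 310)])) (.mul (.g 0) (.pp [(1, 9)])))) (.rule 1 (.cut 1 [(2, 1), (5, -1)] (.add (.mul (.g 11) (.pp
 [(1, 1)])) (.mul (.g 14) (.pp [(1, 1)]))) (.rule 2 (.rule 8 (.rule 23 (.leaf 9900000000 (.add
 (.add (.add (.add (.mul (.g 10) (.add (.add (.mul (.g 6) (.add (.mul (.g 10) (.add (.mul (.g 12)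
 (.pp [(1, 750101220000)])) (.mul (.g 21) (.pp [(1, 240672960000)])))) (.add (.mul (.g 6) (.mul (.g
 21) (.pp [(1, 15802459200)]))) (.mul (.g 12) (.mul (.g 17) (.pp [(1, 35206776000)])))))) (.add
 (.mul (.g 14) (.add (.mul (.g 14) (.add (.mul (.g 11) (.pp [(1, 4993857000000)])) (.mul (.g 14)
 (.pp [(1, 1557765000000)])))) (.mul (.g 18) (.mul (.g 21) (.pp [(1, 5609340000000)]))))) (.mul (.g
 10) (.mul (.g 10) (.add (.mul (.g 8) (.pp [(1, 3103155000000)])) (.mul (.g 10) (.pp [(1,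
 1556775000000)]))))))) (.add (.mul (.g 7) (.mul (.pp [(1, 78390180)]) (.sq [(1, -5), (2, 100), (3,
 -74), (5, 40)]))) (.add (.mul (.g 11) (.mul (.pp [(1, 719215200)]) (.sq [(1, -21), (2, 100), (3,
 -33), (5, 63)]))) (.mul (.g 12) (.mul (.g 12) (.mul (.g 12) (.pp [(1, 21118086000000)]))))))))
 (.add (.mul (.g 17) (.add (.add (.mul (.g 12) (.add (.pp [(1, 189773100000)]) (.add (.mul (.g 12)
 (.mul (.g 17) (.pp [(1, 18094725000)]))) (.mul (.g 16) (.pp [(1, 899221950000)]))))) (.add (.mul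
 (.g 9) (.add (.mul (.pp [(1, 13692415)]) (.sq [(1, -69), (2, 11), (3, 100), (5, -79)])) (.mul (.g
 15) (.mul (.g 15) (.pp [(1, 3111350000)]))))) (.mul (.g 18) (.add (.mul (.pp [(1, 67184370)]) (.sq
 [(1, 46), (2, -14), (3, 100), (5, 83)])) (.mul (.g 16) (.mul (.g 21) (.pp [(1,
 1409755050000)]))))))) (.add (.add (.mul (.g 6) (.mul (.pp [(1, 627858)]) (.sq [(1, -14), (2, 79),
 (3, 99), (5, -100)]))) (.mul (.g 8) (.pp [(1, 197945550000)]))) (.add (.mul (.g 15) (.pp [(1,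
 179902800000)])) (.mul (.g 17) (.mul (.g 17) (.pp [(1, 1554720750)]))))))) (.mul (.g 12) (.add
 (.mul (.g 6) (.add (.mul (.g 11) (.add (.pp [(1, 960888060000)]) (.mul (.g 21) (.pp [(1,
 158819760000)])))) (.mul (.g 12) (.mul (.g 14) (.pp [(1, 1049958360000)]))))) (.add (.mul (.g 8)
 (.add (.pp [(1, 9855113400000)]) (.mul (.g 12) (.pp [(1, 2125114200000)])))) (.mul (.g 11) (.mul
 (.g 14) (.mul (.g 14) (.pp [(1, 2118105000000)]))))))))) (.add (.mul (.g 15) (.add (.mul (.g 15)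
 (.mul (.g 16) (.pp [(1, 8948313000000)]))) (.mul (.g 18) (.mul (.pp [(1, 149658300)]) (.sq [(1,
 -58), (2, 9), (3, 100), (5, -72)]))))) (.add (.mul (.g 20) (.add (.mul (.g 9) (.mul (.pp [(1,
 225702400)]) (.sq [(1, -15), (2, -36), (3, 50), (5, 50)]))) (.mul (.g 20) (.mul (.pp [(1,
 488357100)]) (.sq [(1, 1), (2, -5), (3, 100), (5, -35)]))))) (.mul (.g 0) (.pp [(1,
 3000000000000)]))))) (.add (.add (.mul (.g 1) (.pp [(1, 39600000000)])) (.add (.mul (.g 2) (.pp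
 [(1, 33000000000000)])) (.mul (.g 4) (.pp [(1, 33000000000000)])))) (.add (.mul (.g 8) (.mul (.g
 8) (.pp [(1, 970853400000)]))) (.add (.mul (.g 18) (.mul (.g 18) (.pp [(1, 4669236000000)])))
 (.mul (.g 19) (.pp [(1, 33000000000000)])))))) (.pp [(1, 582174512169), (2, 987751542), (3,
 1033332897), (4, 1018247109), (5, 958017030), (6, 963762778), (8, 911639520), (9, 992965094), (10,
 898736190), (12, 1000426625), (15, 1135662770), (16, 990000000), (18, 1022465840), (20,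
 1082012580), (23, 99000000000000), (24, 1038186600), (25, 1044240945), (27, 980243880), (30,
 1004888390), (36, 964797900), (40, 1047222000), (45, 860245980), (50, 916235100), (54,
 1000507200), (60, 990281600), (75, 981298395), (81, 968000000), (90, 935976800), (100, 972378000),
 (125, 945908700), (135, 1019898000), (150, 849682900), (225, 1103680600), (250, 1085040000), (375,
 1061930100), (625, 990000000)])))))))))))))
 (P_TpA ++ xP_G_T4b) = true := by decide +kernel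

end Pool.Agent.Helper62.TW
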