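import Pool.Agent.Helper62.TW.Goals

/-!
# Case trees, part 4 (generated)
-/

set_option autoImplicit false
set_option maxRecDepth 100000
set_option linter.all false

namespace Pool.Agent.Helper62.TW

open Pool.Agent.Helper83.Cert

theorem t_A_F1_Op1 : chk ROp gP_A_F1
 (.split [(1, 1), (2, -20)]
 (.cut 1 [(1, -69), (3, 100)] (.add (.mul (.g 2) (.pp [(1, 31)])) (.mul (.g 9) (.pp [(1, 69)])))
 (.cut 1 [(1, 3), (3, -2)] (.add (.add (.mul (.g 2) (.pp [(1, 18)])) (.mul (.g 7) (.pp [(1, 2)])))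
 (.add (.mul (.g 4) (.pp [(1, 2)])) (.mul (.g 1) (.pp [(1, 1)])))) (.rule 8 (.rule 15 (.rule 4
 (.leaf 660000000 (.add (.add (.add (.add (.mul (.g 7) (.add (.add (.mul (.g 7) (.add (.add (.mul
 (.g 9) (.add (.mul (.g 13) (.pp [(1, 10020780000)])) (.add (.mul (.g 14) (.pp [(1,
 115387800000)])) (.mul (.g 16) (.pp [(1, 95594400000)]))))) (.mul (.g 7) (.add (.mul (.g 8) (.pp
 [(1, 316740600000)])) (.mul (.g 16) (.pp [(1, 315994800000)]))))) (.add (.mul (.g 13) (.add (.pp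
 [(1, 83698560000)]) (.mul (.g 10) (.pp [(1, 2640000)])))) (.add (.mul (.g 8) (.mul (.g 16) (.pp
 [(1, 104662800000)]))) (.mul (.g 11) (.mul (.g 14) (.pp [(1, 66000000)]))))))) (.add (.mul (.g 6)
 (.add (.add (.mul (.g 5) (.add (.pp [(1, 6806580000)]) (.add (.mul (.g 9) (.pp [(1,
 236286930000)])) (.mul (.g 10) (.pp [(1, 9030780000)]))))) (.mul (.g 16) (.add (.pp [(1,
 6072547800000)]) (.mul (.g 6) (.pp [(1, 514800000)]))))) (.add (.mul (.g 9) (.mul (.g 10) (.pp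
 [(1, 6237719400000)]))) (.mul (.g 11) (.pp [(1, 106576800000)]))))) (.mul (.g 14) (.add (.pp [(1,
 268144800000)]) (.add (.mul (.g 9) (.add (.pp [(1, 109474200000)]) (.add (.mul (.g 9) (.pp [(1,
 95997000000)])) (.mul (.g 12) (.pp [(1, 250800000)]))))) (.mul (.g 8) (.mul (.g 11) (.pp [(1,
 613800000)])))))))) (.add (.add (.mul (.g 16) (.add (.pp [(1, 328990200000)]) (.add (.mul (.pp
 [(1, 15180)]) (.sq [(1, 41), (2, 2), (3, -74), (5, 67), (7, -100)])) (.mul (.g 8) (.add (.mul (.g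
 10) (.pp [(1, 132000000)])) (.mul (.g 12) (.pp [(1, 198000000)]))))))) (.mul (.g 5) (.add (.pp
 [(1, 63286740000)]) (.mul (.pp [(1, 396)]) (.sq [(1, 53), (2, 72), (3, 100), (5, 100), (7,
 95)]))))) (.add (.mul (.g 11) (.add (.pp [(1, 1251346800000)]) (.mul (.g 11) (.pp [(1,
 4609644600000)])))) (.mul (.g 8) (.mul (.g 10) (.mul (.g 13) (.pp [(1, 16500000)])))))))) (.mul
 (.g 9) (.add (.add (.mul (.g 9) (.add (.add (.mul (.g 5) (.add (.add (.mul (.g 9) (.pp [(1,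
 95869620000)])) (.mul (.g 10) (.pp [(1, 342869340000)]))) (.add (.mul (.g 12) (.pp [(1,
 95236680000)])) (.mul (.g 16) (.pp [(1, 87772740000)]))))) (.mul (.g 6) (.add (.mul (.g 8) (.pp
 [(1, 141418200000)])) (.mul (.g 14) (.pp [(1, 1904443200000)]))))) (.add (.mul (.g 8) (.mul (.g
 12) (.pp [(1, 165000000)]))) (.add (.mul (.g 9) (.mul (.g 13) (.pp [(1, 11550000)]))) (.mul (.g
 10) (.mul (.g 16) (.pp [(1, 8190600000)]))))))) (.mul (.g 16) (.add (.add (.pp [(1,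
 438649200000)]) (.add (.mul (.pp [(1, 1980)]) (.sq [(1, -60), (2, 100), (3, -62), (5, 45), (7,
 -65)])) (.mul (.pp [(1, 7920)]) (.sq [(1, 50), (2, 31), (3, 41), (5, 41), (7, 41)])))) (.add (.mul
 (.g 8) (.mul (.g 8) (.pp [(1, 118800000)]))) (.add (.mul (.g 12) (.mul (.g 14) (.pp [(1,
 79200000)]))) (.mul (.g 16) (.mul (.g 16) (.pp [(1, 46200000)])))))))) (.add (.mul (.g 14) (.add
 (.pp [(1, 438860400000)]) (.add (.mul (.pp [(1, 2640)]) (.sq [(1, 25), (2, 82), (3, 50), (5, -60),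
 (7, 100)])) (.mul (.g 6) (.add (.mul (.g 6) (.pp [(1, 10963986000000)])) (.mul (.g 14) (.pp [(1,
 200686200000)]))))))) (.add (.mul (.g 6) (.pp [(1, 10023076800000)])) (.mul (.g 8) (.pp [(1,
 438834000000)]))))))) (.add (.mul (.g 8) (.add (.add (.mul (.g 6) (.add (.pp [(1, 4199896800000)])
 (.add (.mul (.g 6) (.add (.mul (.g 6) (.pp [(1, 153991200000)])) (.mul (.g 16) (.pp [(1,
 39600000)])))) (.mul (.g 10) (.mul (.g 11) (.pp [(1, 145200000)])))))) (.mul (.g 8) (.add (.pp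
 [(1, 94630800000)]) (.mul (.g 14) (.add (.mul (.g 8) (.pp [(1, 151800000)])) (.mul (.g 14) (.pp
 [(1, 105190800000)]))))))) (.add (.mul (.g 5) (.add (.mul (.pp [(1, 924)]) (.sq [(1, 41), (2, 48),
 (3, 50), (5, 49), (7, 48)])) (.mul (.g 10) (.mul (.g 14) (.pp [(1, 3960000)]))))) (.add (.mul (.g
 10) (.mul (.pp [(1, 14520)]) (.sq [(1, -20), (2, 38), (3, -100), (5, 77), (7, -82)]))) (.mul (.g
 11) (.pp [(1, 4599922800000)])))))) (.add (.mul (.g 6) (.add (.mul (.g 6) (.add (.mul (.g 6) (.add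
 (.mul (.g 10) (.pp [(1, 86526000000)])) (.mul (.g 16) (.pp [(1, 153846000000)])))) (.mul (.g 5)
 (.mul (.g 14) (.pp [(1, 9032100000)]))))) (.mul (.g 5) (.pp [(1, 124313640000)])))) (.mul (.g 14)
 (.add (.pp [(1, 864204000000)]) (.mul (.g 11) (.mul (.pp [(1, 660)]) (.sq [(1, 21), (2, 36), (3,
 23), (5, -42), (7, 100)])))))))) (.add (.add (.mul (.g 0) (.pp [(1, 2200000000000)])) (.add (.mul
 (.g 1) (.pp [(1, 200000000000)])) (.mul (.g 2) (.pp [(1, 660000000)])))) (.add (.mul (.g 5) (.pp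
 [(1, 183812970000)])) (.add (.mul (.g 13) (.mul (.g 16) (.mul (.pp [(1, 627)]) (.sq [(1, 53), (3,
 -61), (5, 72), (7, -100)])))) (.mul (.g 15) (.pp [(1, 2200000000000)])))))) (.pp [(1,
 369527172247), (2, 62273840), (3, 74172998), (4, 66753280), (5, 64334785), (6, 71935468), (7,
 66827013), (8, 66855360), (9, 57360963), (10, 63668836), (12, 66396176), (14, 67207140), (15,
 59622266), (16, 66000000), (18, 60167800), (20, 64319904), (21, 57925758), (24, 66601920), (25,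
 70242964), (27, 70792260), (28, 61092240), (30, 58613720), (35, 74287620), (36, 61010400), (40,
 63544800), (42, 65243640), (45, 68465837), (49, 70177800), (50, 57875664), (54, 66743820), (56,
 66000000), (60, 55711920), (63, 74225877), (70, 69002208), (75, 64692452), (81, 66349140), (84,
 72702960), (90, 68017620), (98, 55239360), (100, 66300960), (105, 61185432), (125, 63772764),
 (126, 59593380), (135, 62861040), (140, 61678320), (147, 78718860), (150, 57203520), (175,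
 57280212), (189, 66823020), (196, 67011120), (210, 55125840), (225, 69674220), (245, 53375784),
 (250, 65452200), (294, 69302640), (315, 65893740), (343, 55276980), (350, 57092640), (375,
 70363260), (441, 55376640), (490, 62731680), (525, 69729660), (625, 65007360), (686, 66992640),
 (735, 56844480), (875, 66754380), (1029, 62385840), (1225, 69591060), (1715, 69723060), (2401,
 67879020)]))))))))
 (.split [(1, -3), (3, 2)]
 (.cut 3 [(2, -1), (3, 1)] (.add (.mul (.g 0) (.pp [(1, 1)])) (.add (.mul (.g 3) (.pp [(1, 1)]))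
 (.mul (.g 6) (.pp [(1, 3)])))) (.rule 1 (.cut 3 [(2, 1), (5, -1)] (.add (.add (.mul (.g 4) (.pp
 [(1, 1)])) (.mul (.g 1) (.pp [(1, 1)]))) (.add (.mul (.g 2) (.pp [(1, 1)])) (.mul (.g 9) (.pp [(1,
 3)])))) (.rule 2 (.rule 9 (.cut 1 [(1, -2), (2, -1), (3, 2), (5, 1)] (.add (.mul (.g 11) (.pp [(1,
 1)])) (.add (.mul (.g 5) (.pp [(1, 1)])) (.mul (.g 9) (.pp [(1, 1)])))) (.cut 1 [(1, -1), (2, -2),
 (3, 2), (5, 2)] (.add (.mul (.g 12) (.pp [(1, 1)])) (.add (.mul (.g 10) (.pp [(1, 1)])) (.mul (.g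
 0) (.pp [(1, 1)])))) (.rule 10 (.leaf 45000000 (.add (.add (.add (.add (.mul (.g 12) (.add (.add
 (.mul (.g 10) (.add (.add (.mul (.g 13) (.add (.mul (.g 12) (.pp [(1, 2581650000)])) (.add (.mul
 (.g 14) (.pp [(1, 561876750000)])) (.mul (.g 20) (.pp [(1, 44073900000)]))))) (.mul (.g 15) (.add
 (.pp [(1, 154276200000)]) (.add (.mul (.g 10) (.pp [(1, 100561950000)])) (.mul (.g 12) (.pp [(1,
 210348000000)])))))) (.add (.mul (.g 8) (.add (.mul (.g 8) (.pp [(1, 836600000)])) (.mul (.g 11)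
 (.pp [(1, 5300100000)])))) (.mul (.g 20) (.add (.mul (.g 10) (.pp [(1, 4617000000)])) (.mul (.g
 11) (.pp [(1, 4297500000)]))))))) (.add (.mul (.g 12) (.add (.add (.mul (.g 12) (.add (.pp [(1,
 221217750000)]) (.mul (.g 12) (.pp [(1, 55350000)])))) (.mul (.g 13) (.add (.mul (.g 9) (.pp [(1,
 3598042500)])) (.mul (.g 17) (.pp [(1, 78007500)]))))) (.add (.mul (.g 15) (.add (.mul (.g 11)
 (.pp [(1, 1557000000)])) (.mul (.g 14) (.pp [(1, 221634900000)])))) (.mul (.g 18) (.mul (.g 18)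
 (.pp [(1, 5327550000)])))))) (.mul (.g 11) (.add (.add (.mul (.pp [(1, 153000)]) (.sq [(1, 2), (2,
 -100), (3, 67), (5, -67), (7, 84)])) (.mul (.g 9) (.mul (.g 9) (.pp [(1, 377620875)])))) (.add
 (.mul (.g 11) (.mul (.g 15) (.pp [(1, 693000000)]))) (.mul (.g 20) (.mul (.g 20) (.pp [(1,
 4978800000)])))))))) (.add (.add (.mul (.g 13) (.add (.pp [(1, 82583550000)]) (.add (.mul (.g 13)
 (.add (.mul (.g 9) (.pp [(1, 4998172500)])) (.mul (.g 13) (.pp [(1, 3868200000)])))) (.mul (.g 16)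
 (.mul (.g 20) (.pp [(1, 4666950000)])))))) (.mul (.g 14) (.add (.pp [(1, 651649050000)]) (.mul (.g
 14) (.mul (.g 14) (.pp [(1, 119696850000)])))))) (.add (.mul (.g 8) (.pp [(1, 150469350000)]))
 (.mul (.g 16) (.mul (.g 16) (.mul (.g 20) (.pp [(1, 1750050000)])))))))) (.add (.mul (.g 14) (.add
 (.add (.mul (.g 11) (.add (.add (.pp [(1, 28211400000)]) (.mul (.g 11) (.add (.add (.mul (.g 8)
 (.pp [(1, 14855850000)])) (.mul (.g 11) (.pp [(1, 48745350000)]))) (.add (.mul (.g 13) (.pp [(1,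
 5163750000)])) (.mul (.g 14) (.pp [(1, 29865600000)])))))) (.add (.mul (.g 10) (.add (.mul (.g 13)
 (.pp [(1, 35740800000)])) (.mul (.g 16) (.pp [(1, 78401250000)])))) (.add (.mul (.g 8) (.mul (.g
 20) (.pp [(1, 5294700000)]))) (.mul (.g 13) (.mul (.g 15) (.pp [(1, 6988050000)]))))))) (.add
 (.mul (.g 8) (.add (.pp [(1, 69370500000)]) (.mul (.g 10) (.mul (.g 10) (.pp [(1,
 23530200000)]))))) (.mul (.g 13) (.mul (.g 13) (.add (.mul (.g 14) (.pp [(1, 67036050000)])) (.mul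
 (.g 17) (.pp [(1, 170280000)]))))))) (.add (.add (.mul (.g 14) (.mul (.pp [(1, 35219340)]) (.sq
 [(1, -33), (2, 17), (5, 50), (7, 100)]))) (.mul (.g 15) (.mul (.pp [(1, 1607580)]) (.sq [(1, -20),
 (2, 100), (3, 97), (5, 1), (7, -39)])))) (.add (.mul (.g 17) (.pp [(1, 1149750000)])) (.mul (.g
 20) (.pp [(1, 199818000000)])))))) (.mul (.g 13) (.add (.add (.mul (.g 13) (.add (.mul (.g 13)
 (.add (.add (.mul (.g 8) (.pp [(1, 2870850000)])) (.mul (.g 10) (.pp [(1, 21583800000)]))) (.add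
 (.mul (.g 15) (.pp [(1, 5381100000)])) (.mul (.g 20) (.pp [(1, 45450000)]))))) (.mul (.g 9) (.mul
 (.g 9) (.pp [(1, 162219375)]))))) (.mul (.g 10) (.add (.mul (.g 11) (.add (.mul (.g 17) (.pp [(1,
 292972500)])) (.mul (.g 20) (.pp [(1, 28100700000)])))) (.mul (.g 10) (.mul (.g 17) (.pp [(1,
 4314172500)])))))) (.add (.mul (.g 20) (.add (.pp [(1, 412596000000)]) (.mul (.g 20) (.mul (.g 20)
 (.pp [(1, 587700000)]))))) (.mul (.g 15) (.pp [(1, 11406600000)]))))))) (.add (.mul (.g 15) (.add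
 (.add (.mul (.g 10) (.add (.pp [(1, 128928600000)]) (.mul (.g 8) (.mul (.g 16) (.pp [(1,
 8121900000)]))))) (.mul (.g 11) (.mul (.g 17) (.pp [(1, 10666485000)])))) (.add (.mul (.g 15) (.pp
 [(1, 136617750000)])) (.add (.mul (.g 16) (.mul (.pp [(1, 900)]) (.sq [(1, 22), (2, -46), (3, 71),
 (5, -20), (7, 100)]))) (.mul (.g 20) (.mul (.pp [(1, 2115)]) (.sq [(1, 70), (2, 96), (3, 100), (5,
 -1), (7, -52)]))))))) (.add (.mul (.g 8) (.add (.mul (.g 10) (.mul (.g 11) (.mul (.g 11) (.pp [(1,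
 39778050000)])))) (.add (.mul (.g 16) (.pp [(1, 153477000000)])) (.mul (.g 17) (.pp [(1,
 3252112500)]))))) (.mul (.g 20) (.add (.mul (.g 9) (.mul (.pp [(1, 282474)]) (.sq [(1, 82), (2,
 100), (3, 33), (5, 2), (7, -71)]))) (.add (.mul (.g 16) (.mul (.pp [(1, 1530)]) (.sq [(1, 82), (2,
 100), (3, 93), (5, 64), (7, 87)]))) (.mul (.g 20) (.mul (.pp [(1, 3207690)]) (.sq [(1, -14), (2,
 100), (3, 4), (5, -23), (7, -14)]))))))))) (.add (.add (.mul (.g 0) (.pp [(1, 150000000000)]))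
 (.add (.mul (.g 3) (.pp [(1, 450000000)])) (.mul (.g 4) (.pp [(1, 150000000000)])))) (.add (.mul
 (.g 6) (.pp [(1, 150000000000)])) (.add (.mul (.g 10) (.mul (.g 17) (.mul (.g 17) (.pp [(1,
 201731625)])))) (.mul (.g 19) (.pp [(1, 150000000000)])))))) (.pp [(1, 50029853676), (2, 4716675),
 (3, 4823148), (4, 5104080), (5, 4815396), (6, 6049800), (7, 4797468), (8, 4698960), (9, 4143966),
 (10, 4349520), (12, 3905040), (14, 3697020), (15, 3475965), (16, 4315140), (18, 3782550), (20,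
 2694960), (21, 3884328), (24, 4514400), (25, 4445739), (27, 4561950), (28, 3924900), (30,
 3125880), (35, 4209768), (36, 4917120), (40, 4577040), (42, 4533480), (45, 4375404), (49,
 4198455), (50, 5341545), (54, 4077180), (56, 4281840), (60, 4777080), (63, 5082714), (70,
 5882940), (75, 4407147), (81, 4536900), (84, 4889880), (90, 5196610), (98, 5298210), (100,
 5304060), (105, 4963356), (125, 4501674), (126, 4011030), (135, 4783770), (140, 5098680), (147,
 4310694), (150, 4230420), (175, 4629195), (189, 4862970), (196, 4075020), (210, 4573260), (225,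
 5314950), (245, 4415292), (250, 4025655), (294, 4539240), (315, 4669470), (343, 4667526), (350,
 3882195), (375, 4762845), (441, 4431420), (490, 4043610), (525, 5212665), (625, 4456755), (686,
 4799070), (735, 4753710), (875, 4544505), (1029, 4522890), (1225, 4649760), (1715, 4144770),
 (2401, 4442760)])))))))))))
 (.cut 1 [(2, -1), (3, 1)] (.add (.mul (.g 10) (.pp [(1, 1)])) (.mul (.g 6) (.pp [(1, 1)]))) (.rule
 1 (.cut 1 [(2, 1), (5, -1)] (.add (.mul (.g 12) (.pp [(1, 1)])) (.mul (.g 9) (.pp [(1, 1)])))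
 (.rule 2 (.cut 11 [(1, -69), (3, 100)] (.add (.mul (.g 1) (.pp [(1, 620)])) (.add (.mul (.g 13)
 (.pp [(1, 31)])) (.mul (.g 14) (.pp [(1, 480)])))) (.rule 8 (.rule 15 (.leaf 13200000000 (.add
 (.add (.add (.add (.mul (.g 12) (.add (.add (.mul (.g 19) (.add (.add (.mul (.g 10) (.add (.add
 (.mul (.g 9) (.pp [(1, 36488364000000)])) (.mul (.g 10) (.pp [(1, 31158468000000)]))) (.add (.mul
 (.g 11) (.pp [(1, 41739324000000)])) (.add (.mul (.g 12) (.pp [(1, 1335576000000)])) (.mul (.g 13)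
 (.pp [(1, 4644552000000)])))))) (.mul (.g 12) (.add (.mul (.g 11) (.pp [(1, 4624620000000)]))
 (.add (.mul (.g 14) (.pp [(1, 4630428000000)])) (.mul (.g 17) (.pp [(1, 3300792000000)]))))))
 (.add (.mul (.g 9) (.add (.mul (.g 7) (.pp [(1, 37279484000000)])) (.mul (.g 13) (.pp [(1,
 81969096000000)])))) (.add (.mul (.g 19) (.add (.pp [(1, 2868096000000)]) (.mul (.g 19) (.pp [(1,
 1980000000)])))) (.mul (.g 11) (.mul (.g 17) (.pp [(1, 35169816000000)]))))))) (.mul (.g 17) (.add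
 (.add (.mul (.g 12) (.add (.add (.mul (.g 10) (.pp [(1, 4238784000000)])) (.mul (.g 11) (.pp [(1,
 77541684000000)]))) (.add (.mul (.g 15) (.pp [(1, 15003120000000)])) (.mul (.g 17) (.pp [(1,
 12287088000000)]))))) (.mul (.g 9) (.mul (.g 9) (.pp [(1, 50811684000000)])))) (.add (.mul (.g 10)
 (.mul (.g 13) (.pp [(1, 7482948000000)]))) (.mul (.g 11) (.mul (.g 16) (.pp [(1,
 5657572800000)]))))))) (.add (.mul (.g 11) (.add (.mul (.g 7) (.add (.mul (.g 10) (.pp [(1,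
 54096240000000)])) (.mul (.g 11) (.pp [(1, 23297340000000)])))) (.add (.mul (.g 8) (.mul (.g 12)
 (.pp [(1, 1732407600000)]))) (.mul (.g 11) (.mul (.g 13) (.pp [(1, 27746136000000)])))))) (.add
 (.mul (.g 16) (.add (.mul (.g 8) (.pp [(1, 80505150000)])) (.mul (.g 12) (.mul (.g 14) (.pp [(1,
 669385200000)]))))) (.mul (.g 13) (.mul (.pp [(1, 1838918400)]) (.sq [(1, -11), (2, 14), (3, -15),
 (5, 50), (7, -34)]))))))) (.add (.mul (.g 13) (.add (.add (.mul (.g 10) (.add (.add (.mul (.g 19)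
 (.add (.mul (.g 7) (.pp [(1, 935352000000)])) (.mul (.g 11) (.pp [(1, 20535636000000)])))) (.mul
 (.g 8) (.mul (.g 13) (.pp [(1, 1730216400000)])))) (.add (.mul (.g 10) (.mul (.g 17) (.pp [(1,
 8601516000000)]))) (.mul (.g 15) (.mul (.g 15) (.pp [(1, 6214428000000)])))))) (.add (.mul (.g 16)
 (.add (.mul (.pp [(1, 256422540)]) (.sq [(2, 19), (3, -11), (5, -33), (7, 100)])) (.add (.mul (.g
 9) (.mul (.g 13) (.pp [(1, 613272000000)]))) (.mul (.g 15) (.mul (.g 15) (.pp [(1,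
 423489000000)])))))) (.mul (.g 19) (.add (.pp [(1, 8582244000000)]) (.mul (.pp [(1, 670533600)])
 (.sq [(1, 29), (2, -100), (3, -69), (5, 17), (7, -74)])))))) (.add (.add (.mul (.g 7) (.mul (.pp
 [(1, 329133200)]) (.sq [(1, -37), (2, 51), (3, 100), (5, -21), (7, 24)]))) (.mul (.g 11) (.mul
 (.pp [(1, 1268902800)]) (.sq [(1, -3), (2, 26), (3, 29), (5, -68), (7, 100)])))) (.add (.mul (.g
 13) (.mul (.g 13) (.mul (.g 14) (.pp [(1, 4574592000000)])))) (.mul (.g 17) (.mul (.pp [(1,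
 2438000400)]) (.sq [(1, -8), (2, 100), (3, 52), (5, 52), (7, -39)]))))))) (.mul (.g 14) (.add
 (.add (.mul (.pp [(1, 1836252000)]) (.sq [(2, -65), (3, -9), (5, -51), (7, 100)])) (.add (.mul (.g
 11) (.add (.add (.pp [(1, 39054708000000)]) (.mul (.pp [(1, 721393200)]) (.sq [(1, -58), (2, 100),
 (3, 30), (5, 12), (7, -11)]))) (.add (.mul (.pp [(1, 238748400)]) (.sq [(1, -10), (2, -19), (3,
 -29), (5, -66), (7, 100)])) (.mul (.g 14) (.mul (.g 14) (.pp [(1, 3851496000000)])))))) (.mul (.g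
 7) (.add (.mul (.pp [(1, 491453600)]) (.sq [(1, 75), (2, 28), (3, 100), (5, 8), (7, 9)])) (.add
 (.mul (.pp [(1, 22294800)]) (.sq [(1, -6), (2, 96), (3, 30), (5, 100), (7, 37)])) (.mul (.g 10)
 (.mul (.g 14) (.pp [(1, 12686432000000)])))))))) (.add (.mul (.g 14) (.add (.mul (.g 15) (.pp [(1,
 23231076000000)])) (.mul (.g 16) (.pp [(1, 242530200000)])))) (.add (.mul (.g 17) (.add (.pp [(1,
 25258860000000)]) (.mul (.pp [(1, 732930000)]) (.sq [(1, -100), (2, 54), (3, 32), (5, -5), (7,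
 62)])))) (.mul (.g 9) (.mul (.pp [(1, 37514400)]) (.sq [(1, -55), (2, -44), (3, 6), (5, 23), (7,
 100)]))))))))) (.add (.mul (.g 19) (.add (.mul (.g 19) (.add (.add (.pp [(1, 236544000000)]) (.mul
 (.pp [(1, 2362800)]) (.sq [(1, 22), (2, 100), (3, 60), (5, -35), (7, 16)]))) (.add (.mul (.g 10)
 (.add (.mul (.g 10) (.pp [(1, 8507136000000)])) (.mul (.g 11) (.pp [(1, 5963364000000)])))) (.mul
 (.g 11) (.mul (.g 15) (.pp [(1, 3156252000000)])))))) (.add (.mul (.g 9) (.mul (.g 9) (.add (.mul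
 (.g 10) (.pp [(1, 39155556000000)])) (.mul (.g 11) (.pp [(1, 25161444000000)]))))) (.mul (.g 10)
 (.mul (.g 10) (.mul (.g 10) (.pp [(1, 9709392000000)]))))))) (.add (.mul (.g 17) (.add (.add (.mul
 (.g 11) (.add (.mul (.g 10) (.mul (.g 10) (.pp [(1, 38121864000000)]))) (.mul (.g 11) (.mul (.g
 17) (.pp [(1, 25825536000000)]))))) (.mul (.g 15) (.mul (.pp [(1, 641836800)]) (.sq [(1, 6), (2,
 -24), (3, 30), (5, -27), (7, 100)])))) (.add (.mul (.g 16) (.mul (.pp [(1, 78375660)]) (.sq [(1,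
 27), (2, -12), (3, 100), (5, 2), (7, 22)]))) (.mul (.g 17) (.pp [(1, 782100000000)]))))) (.mul (.g
 8) (.add (.mul (.g 8) (.mul (.pp [(1, 10825683)]) (.sq [(1, 31), (2, -33), (3, -23), (7, 100)])))
 (.mul (.g 11) (.mul (.g 11) (.mul (.g 11) (.pp [(1, 439263000000)]))))))))) (.add (.add (.mul (.g
 0) (.pp [(1, 4000000000000)])) (.add (.mul (.g 1) (.pp [(1, 13200000000)])) (.mul (.g 3) (.pp [(1,
 44000000000000)])))) (.add (.mul (.g 5) (.pp [(1, 44000000000000)])) (.add (.mul (.g 11) (.mul (.g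
 11) (.mul (.pp [(1, 1270658400)]) (.sq [(1, 46), (2, -39), (3, -42), (5, -38), (7, 100)])))) (.mul
 (.g 18) (.pp [(1, 44000000000000)])))))) (.pp [(1, 3796757895377), (2, 1315668658), (3,
 1312107218), (4, 1128423593), (5, 1425693680), (6, 1578931486), (7, 1473013080), (8, 1297195020),
 (9, 1307703353), (10, 1394820680), (12, 1626726200), (14, 1314972120), (15, 1223819080), (16,
 1385868000), (18, 1057223420), (20, 1600258440), (21, 1271755320), (24, 1138046800), (25,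
 1383102380), (27, 1304991600), (28, 1554036000), (30, 765236120), (35, 1376105280), (36,
 1547902400), (40, 1139186400), (42, 1228749280), (45, 1511809200), (49, 1324767840), (50,
 1307421060), (54, 1211922800), (56, 1308806400), (60, 1496814000), (63, 1272928800), (70,
 1439776800), (75, 1329637760), (81, 1396560000), (84, 1127702400), (90, 1064716400), (98,
 1309888800), (100, 1527530400), (105, 1241217120), (125, 1203356000), (126, 1263002400), (135,
 1369460400), (140, 1293600000), (147, 1453290960), (150, 1115268000), (175, 1132718400), (189,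
 1357488000), (196, 1248403200), (210, 1522664000), (225, 1501491200), (245, 788647200), (250,
 1198494000), (294, 1419321200), (315, 1372377600), (343, 1198665600), (350, 1198692000), (375,
 1406886800), (441, 1217805600), (490, 1343086800), (525, 1245868800), (625, 1387491600), (686,
 1214716800), (735, 1371070800), (875, 1410631200), (1029, 1403424000), (1225, 1565942400), (1715,
 1568582400), (2401, 1375123200)]))))))))))))
 (P_Op1 ++ xP_A_F1) = true := by decide +kernel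

theorem t_A_F3_c1 : chk RFp gP_A_F3
 (.cut 50 [(2, 1), (3, -1)] (.add (.add (.mul (.g 8) (.pp [(1, 45)])) (.mul (.g 7) (.pp [(1, 2)])))
 (.add (.mul (.g 2) (.pp [(1, 5)])) (.mul (.g 9) (.pp [(1, 9)])))) (.rule 0 (.cut 60 [(2, -1), (5,
 1)] (.add (.add (.mul (.g 11) (.pp [(1, 11)])) (.mul (.g 9) (.pp [(1, 3)]))) (.add (.mul (.g 1)
 (.pp [(1, 5)])) (.mul (.g 6) (.pp [(1, 5)])))) (.rule 3 (.leaf 30000000 (.add (.add (.add (.add
 (.mul (.g 5) (.add (.add (.add (.mul (.g 4) (.add (.add (.mul (.g 4) (.add (.mul (.g 9) (.pp [(1,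
 5370900000)])) (.mul (.g 13) (.pp [(1, 4055760000)])))) (.mul (.g 8) (.add (.mul (.g 7) (.pp [(1,
 79910700000)])) (.mul (.g 13) (.pp [(1, 696780000)]))))) (.add (.mul (.g 12) (.add (.pp [(1,
 83268450000)]) (.mul (.g 15) (.pp [(1, 64379850000)])))) (.add (.mul (.g 9) (.pp [(1,
 81735900000)])) (.mul (.g 15) (.mul (.g 15) (.pp [(1, 37684800000)]))))))) (.mul (.g 6) (.add
 (.mul (.g 13) (.add (.add (.mul (.g 5) (.pp [(1, 3649440000)])) (.mul (.g 6) (.pp [(1,
 6152820000)]))) (.add (.mul (.g 7) (.pp [(1, 20723520000)])) (.mul (.g 15) (.pp [(1,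
 21328800000)]))))) (.add (.mul (.g 8) (.add (.mul (.g 6) (.pp [(1, 160200000)])) (.mul (.g 7) (.pp
 [(1, 28032300000)])))) (.mul (.g 12) (.add (.mul (.g 5) (.pp [(1, 3358500000)])) (.mul (.g 15)
 (.pp [(1, 19019700000)])))))))) (.add (.mul (.g 5) (.add (.mul (.g 7) (.add (.mul (.g 12) (.pp
 [(1, 16176150000)])) (.add (.mul (.g 13) (.pp [(1, 13706340000)])) (.mul (.g 15) (.pp [(1,
 92479800000)]))))) (.mul (.g 5) (.add (.mul (.g 8) (.pp [(1, 47645100000)])) (.mul (.g 9) (.pp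
 [(1, 11443500000)])))))) (.mul (.g 7) (.add (.mul (.g 7) (.mul (.g 9) (.pp [(1, 24508200000)])))
 (.mul (.g 12) (.mul (.g 15) (.pp [(1, 114068700000)]))))))) (.add (.add (.mul (.g 8) (.add (.pp
 [(1, 47411100000)]) (.mul (.g 10) (.pp [(1, 4608300000)])))) (.mul (.g 9) (.mul (.g 13) (.mul (.g
 13) (.pp [(1, 2502360000)]))))) (.add (.mul (.g 12) (.mul (.g 12) (.pp [(1, 37274325000)]))) (.mul
 (.g 15) (.mul (.g 15) (.mul (.g 15) (.pp [(1, 12262500000)])))))))) (.mul (.g 15) (.add (.add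
 (.mul (.g 7) (.add (.add (.mul (.pp [(1, 4290360)]) (.sq [(1, 50), (2, 31), (3, 41), (5, 41), (7,
 41)])) (.add (.mul (.g 13) (.add (.mul (.g 4) (.pp [(1, 46411980000)])) (.add (.mul (.g 12) (.pp
 [(1, 5227740000)])) (.mul (.g 13) (.pp [(1, 2083860000)]))))) (.mul (.g 4) (.pp [(1,
 30487200000)])))) (.add (.mul (.g 6) (.mul (.g 9) (.pp [(1, 8728500000)]))) (.add (.mul (.g 7)
 (.mul (.g 11) (.pp [(1, 969645000)]))) (.mul (.g 15) (.mul (.g 15) (.pp [(1, 10953600000)])))))))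
 (.add (.mul (.g 12) (.add (.add (.pp [(1, 614700000)]) (.mul (.pp [(1, 1407240)]) (.sq [(1, -4),
 (2, -3), (3, 97), (5, -43), (7, -100)]))) (.add (.mul (.pp [(1, 1806690)]) (.sq [(2, -1), (3,
 100), (5, -62), (7, 76)])) (.mul (.g 6) (.mul (.g 15) (.pp [(1, 877350000)])))))) (.mul (.g 4)
 (.add (.mul (.pp [(1, 684690)]) (.sq [(1, -67), (2, 100), (3, 10), (5, -43), (7, -95)])) (.add
 (.mul (.g 4) (.mul (.g 4) (.pp [(1, 15033300000)]))) (.mul (.g 6) (.mul (.g 15) (.pp [(1,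
 34903200000)])))))))) (.add (.add (.mul (.g 13) (.add (.pp [(1, 6718800000)]) (.mul (.pp [(1,
 1690770)]) (.sq [(1, -2), (2, 100), (3, 24), (5, -83), (7, 36)])))) (.mul (.g 15) (.add (.pp [(1,
 7181400000)]) (.mul (.pp [(1, 5549130)]) (.sq [(1, -5), (2, -100), (3, 95), (5, 16), (7, 45)])))))
 (.add (.mul (.g 6) (.mul (.g 11) (.mul (.g 11) (.pp [(1, 23829000)])))) (.mul (.g 8) (.mul (.pp
 [(1, 115980)]) (.sq [(1, -88), (2, 40), (3, 51), (5, 85), (7, 100)])))))))) (.add (.mul (.g 8)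
 (.add (.add (.mul (.g 4) (.add (.mul (.g 4) (.add (.mul (.g 4) (.pp [(1, 3945000000)])) (.mul (.g
 13) (.pp [(1, 5154360000)])))) (.add (.mul (.g 7) (.mul (.g 12) (.pp [(1, 3569850000)]))) (.mul
 (.g 10) (.mul (.g 13) (.pp [(1, 1882320000)])))))) (.mul (.g 6) (.add (.mul (.g 12) (.add (.pp
 [(1, 121500000)]) (.mul (.g 10) (.pp [(1, 2250000)])))) (.mul (.g 6) (.mul (.g 11) (.pp [(1,
 765000)])))))) (.add (.mul (.g 7) (.add (.pp [(1, 3980400000)]) (.mul (.g 7) (.mul (.g 13) (.pp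
 [(1, 7192740000)]))))) (.add (.mul (.g 8) (.pp [(1, 584700000)])) (.mul (.g 11) (.pp [(1,
 686940000)])))))) (.mul (.g 7) (.add (.mul (.g 6) (.add (.mul (.pp [(1, 248280)]) (.sq [(1, 16),
 (2, 29), (3, 100), (5, -65), (7, 21)])) (.mul (.g 11) (.add (.mul (.g 12) (.pp [(1, 3217500)]))
 (.mul (.g 13) (.pp [(1, 299685000)])))))) (.add (.mul (.g 7) (.add (.mul (.pp [(1, 1029990)]) (.sq
 [(1, 18), (2, 89), (3, 100), (5, -21), (7, -82)])) (.mul (.g 11) (.mul (.g 13) (.pp [(1,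
 203175000)]))))) (.mul (.g 9) (.mul (.pp [(1, 936600)]) (.sq [(1, 4), (2, -6), (3, 49), (5, -33),
 (7, 50)])))))))) (.add (.add (.mul (.g 9) (.add (.mul (.g 11) (.add (.pp [(1, 774750000)]) (.mul
 (.pp [(1, 39)]) (.sq [(1, 23), (2, -25), (3, 20), (5, 100), (7, -90)])))) (.mul (.g 4) (.mul (.g
 4) (.mul (.g 4) (.pp [(1, 12600000)])))))) (.mul (.g 0) (.pp [(1, 100000000000)]))) (.add (.mul
 (.g 2) (.pp [(1, 100000000000)])) (.add (.mul (.g 10) (.mul (.g 11) (.mul (.pp [(1, 24)]) (.sq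
 [(1, 65), (2, -1), (3, 96), (5, -100), (7, -31)])))) (.mul (.g 14) (.pp [(1, 20000000)])))))) (.pp
 [(1, 81292149), (2, 2901279), (3, 2948061), (4, 3282705), (5, 2696061), (6, 2955900), (7,
 3051300), (8, 2776359), (9, 2932260), (10, 3042990), (12, 2742543), (14, 3209910), (15, 3373920),
 (16, 2887020), (18, 3245292), (20, 2907231), (21, 2603820), (24, 3413820), (25, 3187740), (27,
 3168076), (28, 2549028), (30, 2709228), (35, 3306060), (36, 2857410), (40, 3129960), (42,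
 3221064), (45, 2872056), (49, 2826240), (50, 2977530), (54, 2874540), (56, 3038340), (60,
 3052830), (63, 3520788), (70, 2389212), (75, 2729250), (81, 2951310), (84, 3523470), (90,
 3075720), (98, 2890014), (100, 2929020), (105, 2483868), (125, 2931120), (126, 2468940), (135,
 2876760), (140, 3219150), (147, 3440556), (150, 3193230), (175, 2978340), (189, 2789160), (196,
 3506130), (210, 3379980), (225, 3109350), (245, 2682036), (250, 3054000), (294, 2484810), (315,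
 3154320), (343, 3167160), (350, 2959110), (375, 3032880), (441, 3256860), (490, 3280320), (525,
 3149430), (625, 3000000), (686, 2809290), (735, 3553200), (875, 3005280), (1029, 2752440), (1225,
 3005970), (1715, 3224640), (2401, 3054150)])))))))
 (P_c1 ++ xP_A_F3) = true := by decide +kernel

theorem t_A_F3_c2 : chk ROp gP_A_F3
 (.split [(1, -69), (3, 100)]
 (.split [(2, 1), (3, -1)]
 (.split [(2, 1), (5, -1)]
 (.rule 0 (.rule 2 (.cut 1 [(1, 3), (3, -2)] (.add (.add (.mul (.g 3) (.pp [(1, 2)])) (.mul (.g 9)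
 (.pp [(1, 3)]))) (.add (.mul (.g 7) (.pp [(1, 1)])) (.mul (.g 2) (.pp [(1, 1)])))) (.rule 8 (.leaf
 60000000 (.add (.add (.add (.add (.mul (.g 10) (.add (.add (.mul (.g 8) (.add (.add (.mul (.g 4)
 (.add (.mul (.g 10) (.pp [(1, 500220600000)])) (.add (.mul (.g 16) (.pp [(1, 100239720000)]))
 (.mul (.g 19) (.pp [(1, 891400200000)]))))) (.mul (.g 10) (.add (.mul (.g 15) (.pp [(1,
 102399300000)])) (.mul (.g 19) (.pp [(1, 178107600000)]))))) (.add (.mul (.g 11) (.add (.mul (.g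
 9) (.pp [(1, 389685000000)])) (.mul (.g 17) (.pp [(1, 324633600000)])))) (.mul (.g 6) (.pp [(1,
 2812890000)]))))) (.add (.mul (.g 10) (.add (.add (.mul (.g 4) (.add (.mul (.g 7) (.pp [(1,
 528642600000)])) (.mul (.g 11) (.pp [(1, 184009200000)])))) (.mul (.g 10) (.mul (.g 19) (.pp [(1,
 6000000)])))) (.add (.mul (.g 11) (.mul (.g 17) (.pp [(1, 99292200000)]))) (.mul (.g 15) (.mul (.g
 16) (.pp [(1, 8558400000)])))))) (.mul (.g 9) (.add (.add (.mul (.g 5) (.pp [(1, 86289000000)]))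
 (.mul (.g 9) (.mul (.g 9) (.pp [(1, 17592000000)])))) (.add (.mul (.g 11) (.mul (.g 19) (.pp [(1,
 95392200000)]))) (.mul (.g 14) (.pp [(1, 973800000)]))))))) (.add (.add (.mul (.g 11) (.add (.mul
 (.pp [(1, 5172840)]) (.sq [(1, -14), (2, 39), (3, 100), (5, -24), (7, -86)])) (.mul (.g 6) (.mul
 (.g 17) (.pp [(1, 2590416000)]))))) (.mul (.g 5) (.pp [(1, 166104000000)]))) (.add (.mul (.g 14)
 (.mul (.pp [(1, 449874)]) (.sq [(1, 40), (2, 100), (3, 54), (5, 20), (7, 97)]))) (.mul (.g 19)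
 (.pp [(1, 99010800000)])))))) (.add (.mul (.g 11) (.add (.add (.mul (.g 8) (.add (.pp [(1,
 105828000000)]) (.add (.mul (.g 8) (.add (.add (.mul (.g 4) (.pp [(1, 106732800000)])) (.mul (.g
 7) (.pp [(1, 115689600000)]))) (.add (.mul (.g 11) (.pp [(1, 23811600000)])) (.mul (.g 19) (.pp
 [(1, 107698800000)]))))) (.mul (.g 7) (.mul (.g 17) (.pp [(1, 28095600000)])))))) (.add (.mul (.g
 14) (.add (.mul (.pp [(1, 355290)]) (.sq [(1, 40), (2, -68), (3, 25), (5, 100), (7, -24)])) (.add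
 (.mul (.g 5) (.mul (.g 11) (.pp [(1, 795090000)]))) (.mul (.g 9) (.mul (.g 13) (.pp [(1,
 1773390000)])))))) (.mul (.g 4) (.add (.pp [(1, 720600000)]) (.mul (.g 4) (.mul (.g 13) (.pp [(1,
 26661600000)]))))))) (.add (.add (.mul (.g 5) (.mul (.pp [(1, 5309640)]) (.sq [(1, 33), (2, -66),
 (3, -45), (5, -19), (7, 100)]))) (.mul (.g 6) (.pp [(1, 856530000)]))) (.add (.mul (.g 7) (.mul
 (.g 16) (.mul (.g 17) (.pp [(1, 34340280000)])))) (.mul (.g 12) (.mul (.pp [(1, 2386980)]) (.sq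
 [(1, 28), (2, -86), (3, -100), (5, -25), (7, 91)]))))))) (.mul (.g 4) (.add (.add (.mul (.g 9)
 (.add (.mul (.g 9) (.add (.mul (.g 4) (.pp [(1, 40299000000)])) (.mul (.g 9) (.pp [(1,
 32830800000)])))) (.mul (.g 7) (.mul (.g 12) (.pp [(1, 170399400000)]))))) (.add (.mul (.g 13)
 (.add (.pp [(1, 16824000000)]) (.add (.mul (.pp [(1, 4992960)]) (.sq [(1, 100), (2, -55), (3,
 83)])) (.mul (.g 8) (.pp [(1, 328830000000)]))))) (.mul (.g 5) (.add (.mul (.g 4) (.pp [(1,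
 90513600000)])) (.mul (.g 5) (.pp [(1, 52651800000)])))))) (.add (.mul (.g 6) (.pp [(1,
 708864000)])) (.add (.mul (.g 14) (.mul (.pp [(1, 38079)]) (.sq [(1, 100), (2, 66), (3, -53), (5,
 -59), (7, -80)]))) (.mul (.g 19) (.pp [(1, 113353800000)])))))))) (.add (.mul (.g 19) (.add (.add
 (.mul (.g 9) (.add (.mul (.pp [(1, 2280840)]) (.sq [(1, 76), (2, 76), (3, 93), (5, 100), (7,
 71)])) (.add (.mul (.pp [(1, 763320)]) (.sq [(1, -19), (2, -28), (3, -28), (5, -58), (7, 100)]))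
 (.mul (.g 19) (.mul (.g 19) (.pp [(1, 65706600000)])))))) (.mul (.g 6) (.add (.pp [(1,
 984552000)]) (.mul (.g 8) (.mul (.g 8) (.pp [(1, 2275140000)])))))) (.add (.mul (.g 7) (.mul (.g
 7) (.add (.mul (.g 7) (.pp [(1, 31398000000)])) (.mul (.g 12) (.pp [(1, 57645600000)]))))) (.add
 (.mul (.g 5) (.mul (.pp [(1, 9327600)]) (.sq [(1, 68), (2, -5), (3, 73), (5, -65), (7, 100)])))
 (.mul (.g 12) (.mul (.pp [(1, 436620)]) (.sq [(1, 33), (2, 43), (3, 100), (5, 44), (7,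
 -20)]))))))) (.add (.mul (.g 6) (.add (.add (.mul (.g 8) (.add (.pp [(1, 156324000)]) (.mul (.g 8)
 (.add (.mul (.g 6) (.pp [(1, 3970140)])) (.mul (.g 8) (.pp [(1, 1024356000)])))))) (.mul (.g 5)
 (.mul (.g 7) (.mul (.g 7) (.pp [(1, 717456000)]))))) (.add (.mul (.g 6) (.pp [(1, 21195660)]))
 (.mul (.g 9) (.mul (.g 9) (.mul (.g 9) (.pp [(1, 377652000)]))))))) (.mul (.g 5) (.add (.mul (.g
 5) (.add (.mul (.g 5) (.mul (.g 8) (.pp [(1, 128471400000)]))) (.mul (.g 12) (.mul (.g 17) (.pp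
 [(1, 37409400000)]))))) (.mul (.g 15) (.mul (.pp [(1, 3545160)]) (.sq [(1, 54), (2, -33), (3,
 100), (5, -53), (7, 18)])))))))) (.add (.add (.mul (.g 9) (.add (.mul (.g 7) (.mul (.g 9) (.add
 (.mul (.g 9) (.pp [(1, 4252200000)])) (.mul (.g 14) (.pp [(1, 138120000)]))))) (.mul (.g 12) (.mul
 (.pp [(1, 622800)]) (.sq [(1, 44), (2, -37), (3, -100), (5, -88), (7, 96)]))))) (.add (.mul (.g 0)
 (.pp [(1, 60000000)])) (.mul (.g 2) (.pp [(1, 200000000000)])))) (.add (.mul (.g 3) (.pp [(1,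
 200000000000)])) (.add (.mul (.g 13) (.mul (.g 15) (.mul (.g 16) (.mul (.g 17) (.pp [(1,
 17381880000)]))))) (.mul (.g 18) (.pp [(1, 200000000)])))))) (.pp [(1, 18211425240), (2, 6300180),
 (3, 7073040), (4, 6035220), (5, 5941860), (6, 5449980), (7, 6481260), (8, 6162416), (9, 5259570),
 (10, 6180960), (12, 4957284), (14, 5289060), (15, 5447700), (16, 5664720), (18, 6576429), (20,
 4489116), (21, 5858820), (24, 7126020), (25, 6432180), (27, 6639600), (28, 6225420), (30,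
 7139190), (35, 5506980), (36, 5212920), (40, 6634920), (42, 7086600), (45, 7454241), (49,
 5857020), (50, 7239579), (54, 6976740), (56, 6215220), (60, 6100500), (63, 5766216), (70,
 7287240), (75, 6396666), (81, 5019600), (84, 6368340), (90, 5169720), (98, 6109680), (100,
 5325480), (105, 6662520), (125, 5990949), (126, 6146160), (135, 5171700), (140, 6065580), (147,
 5958396), (150, 5810160), (175, 5484840), (189, 5311920), (196, 6603780), (210, 3868440), (225,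
 5147580), (245, 6867180), (250, 6497340), (294, 5897820), (315, 4827480), (343, 6103554), (350,
 5191560), (375, 5582220), (441, 5539680), (490, 4804860), (525, 5633520), (625, 5823180), (686,
 6261960), (735, 5060760), (875, 6406560), (1029, 5662680), (1225, 5481600), (1715, 5577120),
 (2401, 6000000)])))))))
 (.rule 0 (.rule 3 (.cut 31 [(1, 3), (3, -2)] (.add (.mul (.g 3) (.pp [(1, 162)])) (.add (.mul (.g
 9) (.pp [(1, 162)])) (.mul (.g 4) (.pp [(1, 1)])))) (.rule 8 (.leaf 6000000 (.add (.add (.add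
 (.add (.mul (.g 10) (.add (.mul (.g 19) (.add (.add (.pp [(1, 188220000)]) (.mul (.g 10) (.add
 (.add (.pp [(1, 103260000)]) (.mul (.g 7) (.pp [(1, 16591140000)]))) (.add (.mul (.g 8) (.pp [(1,
 117240000)])) (.add (.mul (.g 9) (.pp [(1, 45960000)])) (.mul (.g 10) (.pp [(1, 600000)])))))))
 (.add (.mul (.g 9) (.add (.pp [(1, 2189100000)]) (.add (.mul (.g 5) (.pp [(1, 1163340000)])) (.mul
 (.g 8) (.pp [(1, 905580000)]))))) (.mul (.g 7) (.add (.mul (.g 7) (.pp [(1, 10506720000)])) (.mul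
 (.g 11) (.pp [(1, 20370900000)]))))))) (.add (.mul (.g 11) (.add (.add (.pp [(1, 672780000)])
 (.mul (.g 8) (.add (.add (.mul (.g 7) (.pp [(1, 22531320000)])) (.mul (.g 10) (.pp [(1,
 223980000)]))) (.add (.mul (.g 15) (.pp [(1, 6668190000)])) (.mul (.g 17) (.pp [(1,
 2391900000)])))))) (.add (.mul (.g 10) (.add (.mul (.g 9) (.pp [(1, 2367780000)])) (.mul (.g 10)
 (.pp [(1, 151680000)])))) (.add (.mul (.g 11) (.mul (.g 14) (.pp [(1, 95145000)]))) (.mul (.g 15)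
 (.mul (.g 17) (.pp [(1, 9105510000)]))))))) (.mul (.g 6) (.add (.mul (.g 7) (.add (.add (.mul (.g
 4) (.pp [(1, 51641400)])) (.mul (.g 6) (.pp [(1, 978756)]))) (.add (.mul (.g 7) (.pp [(1,
 15946200)])) (.mul (.g 10) (.pp [(1, 263404200)]))))) (.mul (.g 10) (.mul (.g 10) (.pp [(1,
 718800)])))))))) (.add (.mul (.g 8) (.add (.add (.mul (.g 9) (.add (.mul (.g 11) (.add (.mul (.g
 5) (.pp [(1, 3657180000)])) (.add (.mul (.g 8) (.pp [(1, 32982420000)])) (.mul (.g 17) (.pp [(1,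
 40853580000)]))))) (.add (.mul (.g 15) (.add (.mul (.g 8) (.pp [(1, 72660000)])) (.mul (.g 19)
 (.pp [(1, 948810000)])))) (.mul (.g 7) (.mul (.g 19) (.pp [(1, 3983520000)])))))) (.mul (.g 4)
 (.add (.add (.mul (.g 4) (.add (.mul (.g 8) (.pp [(1, 3216180000)])) (.mul (.g 19) (.pp [(1,
 1241820000)])))) (.mul (.g 5) (.pp [(1, 7145280000)]))) (.add (.mul (.g 8) (.mul (.g 19) (.pp [(1,
 707400000)]))) (.mul (.g 15) (.pp [(1, 34767210000)])))))) (.add (.mul (.g 12) (.add (.pp [(1,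
 16628340000)]) (.mul (.g 8) (.mul (.g 8) (.pp [(1, 4800000)]))))) (.add (.mul (.g 15) (.add (.pp
 [(1, 22689180000)]) (.mul (.g 13) (.pp [(1, 6060000)])))) (.mul (.g 6) (.pp [(1, 145505400)]))))))
 (.mul (.g 4) (.add (.add (.mul (.g 4) (.add (.mul (.g 9) (.add (.mul (.g 4) (.pp [(1, 97320000)]))
 (.add (.mul (.g 6) (.pp [(1, 32548200)])) (.mul (.g 19) (.pp [(1, 82860000)]))))) (.mul (.g 15)
 (.pp [(1, 2712780000)])))) (.mul (.g 5) (.add (.mul (.pp [(1, 45132)]) (.sq [(2, -100), (3, 60),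
 (5, -33), (7, 85)])) (.mul (.g 14) (.pp [(1, 204831000)]))))) (.add (.mul (.g 15) (.add (.pp [(1,
 423780000)]) (.mul (.g 7) (.mul (.g 11) (.pp [(1, 69810000)]))))) (.mul (.g 12) (.mul (.pp [(1,
 2082)]) (.sq [(1, 1), (2, -58), (3, 100), (5, -66), (7, 80)])))))))) (.add (.add (.mul (.g 7)
 (.add (.add (.mul (.g 19) (.add (.pp [(1, 635640000)]) (.add (.mul (.pp [(1, 310080)]) (.sq [(1,
 -2), (2, 100), (3, -32), (5, 35), (7, -94)])) (.mul (.g 19) (.mul (.g 19) (.pp [(1,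
 2063220000)])))))) (.mul (.g 5) (.mul (.g 6) (.mul (.g 9) (.pp [(1, 42630000)]))))) (.add (.mul
 (.g 13) (.mul (.pp [(1, 584304)]) (.sq [(1, -10), (2, 31), (3, -50), (5, 7), (7, 46)]))) (.mul (.g
 15) (.mul (.g 15) (.pp [(1, 7686930000)])))))) (.mul (.g 9) (.add (.mul (.g 9) (.add (.mul (.g 11)
 (.add (.mul (.g 5) (.pp [(1, 880980000)])) (.mul (.g 17) (.pp [(1, 437700000)])))) (.mul (.g 15)
 (.add (.mul (.g 6) (.pp [(1, 30876900)])) (.mul (.g 9) (.pp [(1, 91860000)])))))) (.mul (.g 13)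
 (.mul (.g 15) (.pp [(1, 2229330000)])))))) (.add (.mul (.g 6) (.add (.mul (.g 6) (.pp [(1,
 4810836)])) (.add (.mul (.g 11) (.pp [(1, 523651800)])) (.mul (.g 12) (.pp [(1, 78854400)])))))
 (.mul (.g 11) (.add (.mul (.g 11) (.pp [(1, 16874640000)])) (.mul (.g 12) (.pp [(1,
 494880000)]))))))) (.add (.add (.mul (.g 15) (.mul (.g 19) (.add (.pp [(1, 4942140000)]) (.mul
 (.pp [(1, 4533)]) (.sq [(1, 27), (2, 81), (3, 17), (5, 79), (7, -100)]))))) (.add (.mul (.g 0)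
 (.pp [(1, 6000000)])) (.mul (.g 2) (.pp [(1, 20000000000)])))) (.add (.add (.mul (.g 3) (.pp [(1,
 20000000000)])) (.mul (.g 5) (.mul (.g 5) (.mul (.pp [(1, 234)]) (.sq [(1, -6), (2, -25), (3,
 -91), (7, 100)]))))) (.add (.mul (.g 12) (.mul (.g 12) (.mul (.pp [(1, 9348)]) (.sq [(1, -3), (2,
 100), (3, 10), (5, 18), (7, 95)])))) (.mul (.g 18) (.pp [(1, 20000000)])))))) (.pp [(1,
 230933472), (2, 712584), (3, 549501), (4, 534330), (5, 546723), (6, 480138), (7, 633360), (8,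
 510430), (9, 627621), (10, 671142), (12, 713277), (14, 466278), (15, 646725), (16, 593742), (18,
 597270), (20, 736593), (21, 589323), (24, 666234), (25, 562632), (27, 583695), (28, 569724), (30,
 453738), (35, 627243), (36, 510147), (40, 612288), (42, 712326), (45, 624507), (49, 594300), (50,
 612852), (54, 607320), (56, 610074), (60, 563775), (63, 616266), (70, 633654), (75, 614301), (81,
 617409), (84, 653103), (90, 637740), (98, 690000), (100, 520812), (105, 626088), (125, 583225),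
 (126, 532392), (135, 624645), (140, 625743), (147, 579600), (150, 573312), (175, 628542), (189,
 599763), (196, 531864), (210, 546684), (225, 634677), (245, 574800), (250, 666468), (294, 558996),
 (315, 543765), (343, 577200), (350, 573516), (375, 612303), (441, 616500), (490, 601236), (525,
 599349), (625, 580440), (686, 566880), (735, 575700), (875, 613467), (1029, 630000), (1225,
 580500), (1715, 630000), (2401, 600000)]))))))))
 (.rule 1 (.cut 1 [(2, 1), (5, -1)] (.add (.mul (.g 11) (.pp [(1, 1)])) (.mul (.g 1) (.pp [(1,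
 1)]))) (.rule 2 (.cut 1 [(1, 3), (3, -2)] (.add (.add (.mul (.g 10) (.pp [(1, 1)])) (.mul (.g 15)
 (.pp [(1, 1)]))) (.add (.mul (.g 7) (.pp [(1, 1)])) (.mul (.g 9) (.pp [(1, 1)])))) (.rule 8 (.leaf
 3000000 (.add (.add (.add (.add (.mul (.g 10) (.add (.add (.mul (.g 10) (.add (.add (.mul (.g 10)
 (.add (.add (.mul (.g 5) (.pp [(1, 180000)])) (.mul (.g 11) (.pp [(1, 4770300000)]))) (.add (.mul
 (.g 12) (.pp [(1, 180000)])) (.mul (.g 19) (.pp [(1, 300000)]))))) (.add (.mul (.g 7) (.add (.mul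
 (.g 13) (.pp [(1, 63390000)])) (.add (.mul (.g 16) (.pp [(1, 1032468000)])) (.mul (.g 19) (.pp
 [(1, 10704450000)]))))) (.mul (.g 5) (.add (.mul (.g 5) (.pp [(1, 529710000)])) (.mul (.g 11) (.pp
 [(1, 5877900000)])))))) (.add (.add (.mul (.g 8) (.add (.pp [(1, 468780000)]) (.mul (.g 17) (.pp
 [(1, 530100000)])))) (.mul (.g 6) (.pp [(1, 58483500)]))) (.add (.mul (.g 11) (.mul (.g 15) (.pp
 [(1, 3289200000)]))) (.mul (.g 13) (.mul (.g 16) (.pp [(1, 18000)]))))))) (.add (.mul (.g 8) (.add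
 (.add (.mul (.g 11) (.add (.mul (.g 6) (.pp [(1, 199425300)])) (.mul (.g 12) (.pp [(1,
 10964220000)])))) (.mul (.g 15) (.add (.mul (.g 8) (.pp [(1, 3797190000)])) (.mul (.g 13) (.pp
 [(1, 150450000)]))))) (.add (.mul (.g 5) (.mul (.g 9) (.pp [(1, 1171470000)]))) (.add (.mul (.g 7)
 (.mul (.g 17) (.pp [(1, 12990000)]))) (.mul (.g 16) (.mul (.g 16) (.pp [(1, 157893600)])))))))
 (.mul (.g 9) (.add (.add (.pp [(1, 5287470000)]) (.mul (.g 5) (.add (.pp [(1, 6857640000)]) (.mul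
 (.g 5) (.pp [(1, 2926770000)]))))) (.add (.mul (.g 9) (.add (.mul (.g 14) (.pp [(1, 30172500)]))
 (.mul (.g 17) (.pp [(1, 452610000)])))) (.mul (.g 7) (.mul (.g 16) (.pp [(1, 434898000)]))))))))
 (.add (.mul (.g 6) (.mul (.g 7) (.mul (.g 17) (.pp [(1, 45977700)])))) (.add (.mul (.g 15) (.pp
 [(1, 552525000)])) (.mul (.g 19) (.pp [(1, 4327590000)])))))) (.add (.mul (.g 9) (.add (.add (.mul
 (.pp [(1, 48555)]) (.sq [(1, 5), (2, 3), (3, 98), (5, -100), (7, -52)])) (.add (.mul (.g 9) (.add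
 (.mul (.g 9) (.add (.add (.mul (.g 5) (.pp [(1, 600000)])) (.mul (.g 12) (.pp [(1, 300000)])))
 (.add (.mul (.g 17) (.pp [(1, 6410100000)])) (.mul (.g 19) (.pp [(1, 603540000)]))))) (.add (.mul
 (.g 17) (.add (.pp [(1, 3223680000)]) (.add (.mul (.g 5) (.pp [(1, 14000490000)])) (.mul (.g 17)
 (.pp [(1, 6987450000)]))))) (.mul (.g 8) (.mul (.g 14) (.pp [(1, 350662500)])))))) (.mul (.g 7)
 (.add (.mul (.g 8) (.add (.mul (.g 15) (.pp [(1, 7958805000)])) (.mul (.g 19) (.pp [(1,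
 1602870000)])))) (.add (.mul (.g 5) (.mul (.g 6) (.pp [(1, 104344800)]))) (.mul (.g 7) (.mul (.g
 11) (.pp [(1, 279540000)])))))))) (.add (.add (.mul (.g 5) (.add (.pp [(1, 14880990000)]) (.mul
 (.g 5) (.pp [(1, 3944250000)])))) (.mul (.g 15) (.add (.pp [(1, 9792600000)]) (.mul (.g 8) (.mul
 (.g 8) (.pp [(1, 120000)])))))) (.add (.mul (.g 12) (.pp [(1, 1424700000)])) (.mul (.g 19) (.mul
 (.pp [(1, 21)]) (.sq [(1, 76), (2, 76), (3, 93), (5, 100), (7, 71)]))))))) (.mul (.g 5) (.add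
 (.add (.mul (.g 8) (.add (.pp [(1, 5981760000)]) (.add (.mul (.g 8) (.add (.pp [(1, 8448600000)])
 (.mul (.g 7) (.pp [(1, 2611170000)])))) (.mul (.g 15) (.pp [(1, 2631405000)]))))) (.mul (.g 5)
 (.add (.mul (.g 7) (.mul (.g 11) (.pp [(1, 119790000)]))) (.mul (.g 15) (.pp [(1,
 4206210000)]))))) (.add (.mul (.g 13) (.add (.mul (.g 7) (.pp [(1, 10720860000)])) (.mul (.g 11)
 (.mul (.g 15) (.pp [(1, 368115000)]))))) (.mul (.g 6) (.pp [(1, 6577200)]))))))) (.add (.mul (.g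
 8) (.add (.mul (.g 8) (.add (.mul (.g 8) (.add (.mul (.g 11) (.pp [(1, 7321050000)])) (.mul (.g
 17) (.pp [(1, 300000)])))) (.mul (.g 11) (.mul (.g 17) (.pp [(1, 3268620000)]))))) (.add (.mul (.g
 13) (.mul (.g 15) (.pp [(1, 14140245000)]))) (.mul (.g 19) (.pp [(1, 3234420000)]))))) (.add (.mul
 (.g 11) (.add (.mul (.g 6) (.pp [(1, 32401500)])) (.add (.mul (.g 11) (.mul (.pp [(1, 67170)])
 (.sq [(1, 31), (2, -83), (3, -100), (5, 74), (7, -28)]))) (.mul (.g 19) (.mul (.pp [(1, 465645)])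
 (.sq [(1, -38), (2, 79), (3, 48), (5, -36), (7, 100)])))))) (.mul (.g 7) (.add (.mul (.g 7) (.mul
 (.g 7) (.mul (.g 19) (.pp [(1, 6101610000)])))) (.mul (.g 15) (.pp [(1, 856515000)]))))))) (.add
 (.add (.mul (.g 0) (.pp [(1, 3000000)])) (.add (.mul (.g 2) (.pp [(1, 10000000000)])) (.mul (.g 4)
 (.pp [(1, 10000000000)])))) (.add (.mul (.g 15) (.pp [(1, 3008535000)])) (.add (.mul (.g 18) (.pp
 [(1, 10000000)])) (.mul (.g 19) (.mul (.pp [(1, 11463)]) (.sq [(2, 46), (3, 85), (5, 85), (7,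
 100)]))))))) (.pp [(1, 964761750), (2, 281220), (3, 310140), (4, 293127), (5, 319149), (6,
 325740), (7, 310500), (8, 305525), (9, 280785), (10, 326778), (12, 253413), (14, 314340), (15,
 300030), (16, 285870), (18, 331380), (20, 278229), (21, 296340), (24, 342555), (25, 286785), (27,
 311255), (28, 289173), (30, 367656), (35, 328464), (36, 268320), (40, 311280), (42, 246900), (45,
 249237), (49, 308220), (50, 310560), (54, 298920), (56, 313395), (60, 271056), (63, 291255), (70,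
 299340), (75, 315195), (81, 300000), (84, 325320), (90, 290976), (98, 275160), (100, 292080),
 (105, 296952), (125, 300000), (126, 301920), (135, 301629), (140, 292536), (147, 249000), (150,
 293280), (175, 287595), (189, 300000), (196, 327720), (210, 256608), (225, 300600), (245, 291051),
 (250, 300000), (294, 288000), (315, 308955), (343, 300000), (350, 293280), (375, 300000), (441,
 300000), (490, 280632), (525, 298800), (625, 300000), (686, 300000), (735, 293187), (875, 300000),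
 (1029, 300000), (1225, 298200), (1715, 285861), (2401, 300000)])))))))))
 (.split [(2, 1), (3, -1)]
 (.split [(2, 1), (5, -1)]
 (.rule 0 (.rule 2 (.cut 9 [(1, -7), (3, 50)] (.add (.mul (.g 6) (.pp [(1, 310)])) (.add (.mul (.g
 12) (.pp [(1, 7)])) (.mul (.g 2) (.pp [(1, 140)])))) (.rule 7 (.leaf 15000000 (.add (.add (.add
 (.add (.mul (.g 10) (.add (.add (.mul (.g 9) (.add (.add (.mul (.g 19) (.add (.add (.mul (.g 5)
 (.pp [(1, 4463100000)])) (.mul (.g 6) (.pp [(1, 695157000)]))) (.add (.mul (.g 8) (.pp [(1,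
 62244900000)])) (.mul (.g 19) (.pp [(1, 2135850000)]))))) (.add (.mul (.g 4) (.add (.mul (.g 4)
 (.pp [(1, 44179500000)])) (.add (.mul (.g 9) (.pp [(1, 3163500000)])) (.mul (.g 10) (.pp [(1,
 633750000)]))))) (.mul (.g 11) (.add (.mul (.g 7) (.pp [(1, 16988850000)])) (.mul (.g 8) (.pp [(1,
 1624350000)])))))) (.add (.mul (.g 16) (.add (.mul (.g 6) (.pp [(1, 31608600)])) (.mul (.g 12)
 (.pp [(1, 244140000)])))) (.add (.mul (.g 9) (.mul (.g 15) (.pp [(1, 33242550000)]))) (.mul (.g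
 14) (.pp [(1, 4248397500)])))))) (.add (.mul (.g 10) (.add (.add (.mul (.g 19) (.add (.add (.pp
 [(1, 19900200000)]) (.mul (.g 7) (.pp [(1, 21714450000)]))) (.add (.mul (.g 10) (.pp [(1,
 956250000)])) (.mul (.g 16) (.pp [(1, 86880000)]))))) (.mul (.g 7) (.add (.mul (.g 4) (.pp [(1,
 16490100000)])) (.mul (.g 16) (.pp [(1, 5896380000)]))))) (.add (.mul (.g 10) (.mul (.g 11) (.pp
 [(1, 22102650000)]))) (.mul (.g 16) (.mul (.g 16) (.pp [(1, 187056000)])))))) (.mul (.g 8) (.add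
 (.add (.mul (.g 11) (.add (.mul (.g 5) (.pp [(1, 44897250000)])) (.add (.mul (.g 8) (.pp [(1,
 21697200000)])) (.mul (.g 16) (.pp [(1, 11016270000)]))))) (.mul (.g 6) (.add (.pp [(1,
 362011500)]) (.mul (.g 19) (.pp [(1, 66661500)]))))) (.add (.mul (.g 4) (.mul (.g 16) (.pp [(1,
 6023940000)]))) (.mul (.g 19) (.pp [(1, 44254200000)]))))))) (.add (.mul (.g 5) (.add (.mul (.g 6)
 (.pp [(1, 355801500)])) (.mul (.g 19) (.pp [(1, 14560350000)])))) (.add (.mul (.g 4) (.pp [(1,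
 40924800000)])) (.mul (.g 6) (.mul (.g 16) (.pp [(1, 25728600)]))))))) (.add (.mul (.g 4) (.add
 (.add (.mul (.g 4) (.add (.mul (.g 5) (.pp [(1, 5308650000)])) (.add (.mul (.g 9) (.mul (.g 9)
 (.pp [(1, 860850000)]))) (.mul (.g 11) (.mul (.g 19) (.pp [(1, 13927500000)])))))) (.add (.mul (.g
 8) (.add (.pp [(1, 32520600000)]) (.mul (.g 13) (.add (.pp [(1, 43723650000)]) (.mul (.g 8) (.pp
 [(1, 4798800000)])))))) (.mul (.g 5) (.add (.mul (.g 5) (.pp [(1, 31329150000)])) (.mul (.g 7)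
 (.pp [(1, 24100200000)])))))) (.add (.mul (.g 9) (.pp [(1, 5688450000)])) (.add (.mul (.g 13) (.pp
 [(1, 18375750000)])) (.mul (.g 14) (.mul (.pp [(1, 340905)]) (.sq [(1, 11), (2, 12), (3, 50), (5,
 -16), (7, -14)]))))))) (.mul (.g 11) (.add (.add (.mul (.g 5) (.add (.add (.pp [(1, 1279500000)])
 (.mul (.g 5) (.mul (.g 9) (.pp [(1, 1972500000)])))) (.add (.mul (.g 6) (.mul (.g 7) (.pp [(1,
 145896000)]))) (.mul (.g 11) (.mul (.g 13) (.pp [(1, 1307550000)])))))) (.mul (.g 7) (.add (.pp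
 [(1, 25037100000)]) (.mul (.g 8) (.mul (.g 8) (.pp [(1, 9328800000)])))))) (.add (.mul (.g 13)
 (.add (.mul (.pp [(1, 207225)]) (.sq [(1, 41), (2, -47), (3, -68), (5, 96), (7, 100)])) (.mul (.g
 9) (.mul (.g 13) (.pp [(1, 2238150000)]))))) (.add (.mul (.g 8) (.mul (.g 8) (.mul (.g 19) (.pp
 [(1, 17753400000)])))) (.mul (.g 16) (.pp [(1, 5413530000)])))))))) (.add (.mul (.g 19) (.add
 (.add (.mul (.pp [(1, 39165)]) (.sq [(2, 46), (3, 85), (5, 85), (7, 100)])) (.add (.mul (.g 16)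
 (.add (.mul (.pp [(1, 56316)]) (.sq [(1, 100), (2, 64), (3, -31), (5, 83), (7, -100)])) (.mul (.g
 8) (.mul (.g 8) (.pp [(1, 1984950000)]))))) (.mul (.g 7) (.mul (.g 7) (.mul (.g 7) (.pp [(1,
 23098200000)])))))) (.add (.mul (.g 9) (.mul (.g 9) (.mul (.g 9) (.pp [(1, 7576500000)])))) (.add
 (.mul (.g 12) (.mul (.pp [(1, 467115)]) (.sq [(1, -11), (2, 100), (3, 90), (5, 58), (7, -86)])))
 (.mul (.g 19) (.mul (.pp [(1, 1217805)]) (.sq [(1, -19), (2, 100), (3, 17), (5, 82), (7,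
 -28)]))))))) (.add (.mul (.g 14) (.add (.add (.pp [(1, 191550000)]) (.mul (.pp [(1, 807150)]) (.sq
 [(2, 14), (3, 21), (5, -38), (7, 50)]))) (.add (.mul (.g 7) (.pp [(1, 10620000)])) (.add (.mul (.g
 9) (.mul (.g 9) (.mul (.g 9) (.pp [(1, 57375000)])))) (.mul (.g 12) (.mul (.pp [(1, 269889)]) (.sq
 [(1, -13), (2, -5), (3, 50), (5, 7), (7, -17)]))))))) (.mul (.g 8) (.add (.mul (.g 7) (.add (.mul
 (.g 5) (.mul (.g 9) (.pp [(1, 10176600000)]))) (.mul (.g 6) (.mul (.g 7) (.pp [(1,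
 272184000)]))))) (.mul (.g 8) (.mul (.g 16) (.pp [(1, 2076240000)])))))))) (.add (.add (.mul (.g
 0) (.pp [(1, 30000000)])) (.add (.mul (.g 2) (.pp [(1, 50000000000)])) (.mul (.g 3) (.pp [(1,
 50000000000)])))) (.add (.mul (.g 6) (.mul (.g 15) (.mul (.g 15) (.mul (.g 17) (.pp [(1,
 195527250)]))))) (.add (.mul (.g 16) (.mul (.g 16) (.pp [(1, 2869296000)]))) (.mul (.g 18) (.pp
 [(1, 50000000)])))))) (.pp [(1, 3434498649), (2, 1487574), (3, 1445856), (4, 1609512), (5,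
 1536294), (6, 1378944), (7, 1455267), (8, 1479380), (9, 1638822), (10, 1407081), (12, 1687188),
 (14, 1417347), (15, 1293165), (16, 1540875), (18, 1266816), (20, 1585710), (21, 1767273), (24,
 1462425), (25, 1483404), (27, 1394763), (28, 1547478), (30, 1210062), (35, 1409085), (36,
 1549980), (40, 1361625), (42, 1870566), (45, 1928442), (49, 1603644), (50, 1436199), (54,
 1583460), (56, 1506000), (60, 1508400), (63, 1179663), (70, 1352544), (75, 1642518), (81,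
 1496235), (84, 1459080), (90, 1572720), (98, 1577769), (100, 1731720), (105, 1611120), (125,
 1497711), (126, 1454460), (135, 1382880), (140, 1454160), (147, 1254201), (150, 1499220), (175,
 1600155), (189, 1536150), (196, 1528020), (210, 1557360), (225, 1426560), (245, 1404051), (250,
 1290960), (294, 1410900), (315, 1494900), (343, 1426260), (350, 1527540), (375, 1527180), (441,
 1558035), (490, 1524720), (525, 1496280), (625, 1574820), (686, 1590540), (735, 1614120), (875,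
 1512300), (1029, 1499580), (1225, 1474440), (1715, 1528020), (2401, 1490880)])))))))
 (.rule 0 (.rule 3 (.cut 2 [(1, -7), (3, 50)] (.add (.mul (.g 6) (.pp [(1, 65)])) (.mul (.g 14)
 (.pp [(1, 7)]))) (.rule 7 (.leaf 600000000 (.add (.add (.add (.add (.mul (.g 19) (.add (.add (.add
 (.mul (.g 5) (.add (.add (.mul (.pp [(1, 5361360)]) (.sq [(1, -11), (2, 79), (3, -43), (5, 100),
 (7, -67)])) (.mul (.pp [(1, 30923220)]) (.sq [(1, -74), (2, -100), (3, 93), (5, 93), (7, 26)])))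
 (.add (.mul (.g 5) (.add (.mul (.g 8) (.pp [(1, 232564200000)])) (.mul (.g 9) (.pp [(1,
 345330600000)])))) (.mul (.g 7) (.add (.mul (.g 9) (.pp [(1, 137224800000)])) (.mul (.g 10) (.pp
 [(1, 954083400000)]))))))) (.mul (.g 10) (.add (.add (.mul (.pp [(1, 913200)]) (.sq [(3, 11), (5,
 -9), (7, 100)])) (.mul (.pp [(1, 7796700)]) (.sq [(1, 23), (2, 100), (3, 76), (5, -26), (7,
 46)]))) (.add (.mul (.g 4) (.pp [(1, 22476000000)])) (.add (.mul (.g 7) (.mul (.g 10) (.pp [(1,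
 3595573800000)]))) (.mul (.g 19) (.pp [(1, 1793399400000)]))))))) (.add (.mul (.g 4) (.add (.mul
 (.pp [(1, 8123940)]) (.sq [(2, 50), (3, 99), (5, -100), (7, 18)])) (.mul (.g 4) (.mul (.g 8) (.pp
 [(1, 854868000000)]))))) (.add (.mul (.g 6) (.add (.pp [(1, 5529024000)]) (.mul (.g 7) (.mul (.g
 9) (.pp [(1, 2294886000)]))))) (.mul (.g 11) (.add (.mul (.pp [(1, 41139780)]) (.sq [(1, -6), (2,
 -3), (3, 100), (5, -79), (7, 48)])) (.mul (.pp [(1, 221202060)]) (.sq [(1, -23), (2, 49), (3, 1),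
 (5, -13), (7, 100)]))))))) (.add (.add (.mul (.g 19) (.add (.pp [(1, 546721800000)]) (.mul (.pp
 [(1, 25623600000)]) (.sq [(1, -2), (2, -2), (3, 2), (5, 2), (7, 1)])))) (.add (.mul (.g 8) (.mul
 (.pp [(1, 3755880)]) (.sq [(1, 70), (2, 100), (3, 95), (5, 95), (7, 67)]))) (.mul (.g 12) (.mul
 (.pp [(1, 31939620)]) (.sq [(1, 16), (2, -94), (3, -100), (5, -36), (7, -59)]))))) (.add (.mul (.g
 14) (.mul (.pp [(1, 2001201)]) (.sq [(1, 28), (2, 21), (3, -11), (5, -25), (7, 100)]))) (.add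
 (.mul (.g 15) (.mul (.pp [(1, 19954740)]) (.sq [(1, -12), (2, -12), (3, -100), (5, 93), (7,
 -92)]))) (.mul (.g 17) (.mul (.pp [(1, 8182380)]) (.sq [(1, -16), (2, 100), (3, 71), (5, -54), (7,
 50)])))))))) (.add (.mul (.g 11) (.add (.add (.mul (.g 10) (.add (.add (.pp [(1, 391249200000)])
 (.add (.mul (.pp [(1, 194368860)]) (.sq [(1, -3), (2, 2), (3, 100), (5, 36), (7, -56)])) (.mul (.g
 12) (.add (.mul (.g 5) (.pp [(1, 245889000000)])) (.add (.mul (.g 12) (.pp [(1, 153504000000)]))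
 (.mul (.g 17) (.pp [(1, 570546000000)]))))))) (.add (.mul (.g 8) (.add (.mul (.g 8) (.pp [(1,
 868915200000)])) (.mul (.g 17) (.pp [(1, 301379400000)])))) (.add (.mul (.g 4) (.mul (.g 6) (.pp
 [(1, 17208990000)]))) (.mul (.g 10) (.mul (.g 16) (.pp [(1, 418262040000)]))))))) (.add (.mul (.g
 9) (.add (.mul (.pp [(1, 8258580)]) (.sq [(1, 65), (2, 39), (3, 58), (5, -46), (7, 100)])) (.add
 (.mul (.g 9) (.add (.mul (.g 9) (.pp [(1, 2931000000)])) (.mul (.g 15) (.pp [(1,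
 115574700000)])))) (.mul (.g 8) (.mul (.g 8) (.pp [(1, 1644718200000)])))))) (.mul (.g 7) (.add
 (.pp [(1, 6468000000)]) (.mul (.pp [(1, 52824960)]) (.sq [(1, 25), (2, 17), (3, 24), (5, -2), (7,
 100)])))))) (.add (.mul (.g 11) (.add (.mul (.pp [(1, 19027920)]) (.sq [(1, 12), (2, -36), (3,
 100), (5, -16), (7, -47)])) (.mul (.g 16) (.mul (.g 16) (.pp [(1, 16517616000)]))))) (.add (.mul
 (.g 5) (.mul (.pp [(1, 11202660)]) (.sq [(1, 79), (2, -100), (3, 100), (5, 100)]))) (.mul (.g 16)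
 (.pp [(1, 472801200000)])))))) (.mul (.g 15) (.add (.add (.pp [(1, 337241700000)]) (.add (.mul (.g
 9) (.add (.add (.pp [(1, 113646000000)]) (.mul (.pp [(1, 28576650)]) (.sq [(1, 37), (2, 34), (3,
 100), (5, -29), (7, -65)]))) (.add (.mul (.g 7) (.mul (.g 14) (.pp [(1, 5174295000)]))) (.mul (.g
 9) (.mul (.g 16) (.pp [(1, 40128360000)])))))) (.mul (.g 4) (.add (.pp [(1, 298336200000)]) (.add
 (.mul (.g 4) (.pp [(1, 339796500000)])) (.mul (.g 8) (.pp [(1, 2310914100000)]))))))) (.add (.add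
 (.mul (.g 10) (.add (.mul (.g 10) (.add (.mul (.g 5) (.pp [(1, 346805100000)])) (.mul (.g 16) (.pp
 [(1, 263736900000)])))) (.mul (.g 8) (.mul (.g 8) (.pp [(1, 2142328500000)]))))) (.mul (.g 7)
 (.add (.mul (.g 12) (.pp [(1, 377587800000)])) (.mul (.g 15) (.pp [(1, 616907700000)]))))) (.add
 (.mul (.g 5) (.mul (.g 5) (.pp [(1, 47948700000)]))) (.mul (.g 8) (.mul (.g 13) (.pp [(1,
 926898000000)]))))))))) (.add (.mul (.g 12) (.add (.add (.mul (.g 8) (.add (.pp [(1,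
 27985200000)]) (.mul (.g 13) (.pp [(1, 4321800000)])))) (.mul (.g 7) (.mul (.g 16) (.pp [(1,
 182273160000)])))) (.add (.mul (.g 9) (.mul (.g 13) (.pp [(1, 147699000000)]))) (.add (.mul (.g
 10) (.pp [(1, 36528600000)])) (.mul (.g 12) (.mul (.g 12) (.mul (.g 12) (.pp [(1,
 24027000000)])))))))) (.add (.mul (.g 16) (.add (.mul (.pp [(1, 29751864)]) (.sq [(1, 53), (2, 6),
 (3, 100), (5, -66), (7, -29)])) (.mul (.g 16) (.add (.mul (.g 6) (.mul (.g 8) (.pp [(1,
 236968800)]))) (.mul (.g 16) (.pp [(1, 9308198400)])))))) (.mul (.g 0) (.pp [(1, 1200000000)])))))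
 (.add (.add (.mul (.g 2) (.pp [(1, 2000000000000)])) (.add (.mul (.g 3) (.pp [(1,
 2000000000000)])) (.mul (.g 5) (.mul (.g 8) (.mul (.pp [(1, 21079800)]) (.sq [(1, -28), (2, 8),
 (3, -69), (5, 8), (7, 100)])))))) (.add (.mul (.g 7) (.mul (.pp [(1, 32748480)]) (.sq [(1, 51),
 (2, 32), (3, 100), (5, -97), (7, -4)]))) (.add (.mul (.g 9) (.mul (.g 17) (.mul (.pp [(1,
 32281500)]) (.sq [(1, 3), (2, 70), (3, 100), (5, -67), (7, -30)])))) (.mul (.g 18) (.pp [(1,
 2000000000)])))))) (.pp [(1, 1809939108), (2, 6069192), (3, 4714680), (4, 5865117), (5, 6113472),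
 (6, 6469698), (7, 5525652), (8, 6374260), (9, 7822953), (10, 6143094), (12, 4322691), (14,
 5266632), (15, 6231300), (16, 5829120), (18, 7911078), (20, 6147240), (21, 7869444), (24,
 6332460), (25, 5675883), (27, 4214091), (28, 5051751), (30, 6823530), (35, 6518904), (36,
 6357060), (40, 6424260), (42, 7162758), (45, 6307530), (49, 6279528), (50, 6159000), (54,
 4779600), (56, 5906460), (60, 4619220), (63, 3591711), (70, 7177050), (75, 6457215), (81,
 6389220), (84, 7282260), (90, 6090120), (98, 6047700), (100, 5582280), (105, 5778150), (125,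
 6061600), (126, 4630680), (135, 5314440), (140, 5302620), (147, 5682000), (150, 6198840), (175,
 5238435), (189, 6187980), (196, 6488640), (210, 5528880), (225, 5622060), (245, 6586620), (250,
 6276180), (294, 5900100), (315, 4859400), (343, 5785380), (350, 5825280), (375, 5964870), (441,
 5849940), (490, 5252460), (525, 5894880), (625, 5962650), (686, 6472980), (735, 5065590), (875,
 6089220), (1029, 6200580), (1225, 6205770), (1715, 5753580), (2401, 6217200)]))))))))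
 (.rule 1 (.cut 1 [(2, 1), (5, -1)] (.add (.mul (.g 1) (.pp [(1, 1)])) (.mul (.g 11) (.pp [(1,
 1)]))) (.rule 2 (.cut 9 [(1, -7), (3, 50)] (.add (.add (.mul (.g 5) (.pp [(1, 310)])) (.mul (.g 3)
 (.pp [(1, 310)]))) (.add (.mul (.g 12) (.pp [(1, 7)])) (.mul (.g 1) (.pp [(1, 140)])))) (.rule 7
 (.leaf 60000000 (.add (.add (.add (.add (.mul (.g 10) (.add (.add (.add (.mul (.g 10) (.add (.add
 (.mul (.g 6) (.add (.mul (.g 11) (.pp [(1, 6611220000)])) (.mul (.g 16) (.pp [(1, 14487600)]))))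
 (.add (.mul (.g 7) (.add (.mul (.g 17) (.pp [(1, 136482000000)])) (.mul (.g 19) (.pp [(1,
 227295000000)])))) (.mul (.g 10) (.mul (.g 12) (.pp [(1, 10984200000)]))))) (.add (.mul (.g 11)
 (.mul (.g 14) (.pp [(1, 10941240000)]))) (.add (.mul (.g 13) (.mul (.g 15) (.pp [(1,
 135749100000)]))) (.mul (.g 16) (.pp [(1, 97822200000)])))))) (.mul (.g 9) (.add (.mul (.pp [(1,
 3402960)]) (.sq [(1, -1), (2, 100), (3, -2), (5, 96), (7, 63)])) (.add (.mul (.g 9) (.add (.mul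
 (.g 7) (.pp [(1, 7540200000)])) (.mul (.g 9) (.pp [(1, 12662400000)])))) (.mul (.g 19) (.add (.mul
 (.g 5) (.pp [(1, 24189600000)])) (.mul (.g 11) (.pp [(1, 71891400000)])))))))) (.add (.mul (.g 14)
 (.add (.pp [(1, 13656660000)]) (.mul (.pp [(1, 178335)]) (.sq [(1, 96), (2, -22), (3, 100), (5,
 70), (7, -29)])))) (.mul (.g 16) (.add (.mul (.pp [(1, 413844)]) (.sq [(1, 93), (2, -60), (3,
 -100), (5, 34), (7, 91)])) (.mul (.g 8) (.mul (.g 16) (.pp [(1, 1847352000)]))))))) (.add (.add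
 (.mul (.g 19) (.add (.pp [(1, 234499200000)]) (.mul (.pp [(1, 3600)]) (.sq [(1, 50), (2, 31), (3,
 41), (5, 41), (7, 41)])))) (.mul (.g 5) (.pp [(1, 278689800000)]))) (.add (.mul (.g 13) (.mul (.pp
 [(1, 1234200)]) (.sq [(1, 83), (2, -21), (3, 100), (5, 69), (7, -32)]))) (.mul (.g 15) (.pp [(1,
 443898000000)])))))) (.add (.mul (.g 19) (.add (.add (.mul (.g 8) (.add (.mul (.g 19) (.add (.mul
 (.g 6) (.pp [(1, 18966000)])) (.mul (.g 17) (.pp [(1, 62001000000)])))) (.mul (.g 11) (.mul (.g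
 16) (.pp [(1, 15813840000)]))))) (.add (.mul (.g 9) (.add (.mul (.pp [(1, 1458000)]) (.sq [(1,
 76), (2, 76), (3, 93), (5, 100), (7, 71)])) (.add (.mul (.g 7) (.mul (.g 19) (.pp [(1,
 17232600000)]))) (.mul (.g 9) (.mul (.g 9) (.pp [(1, 69381000000)])))))) (.mul (.g 5) (.add (.mul
 (.pp [(1, 13995600)]) (.sq [(1, 14), (2, -25), (3, 50), (5, 2), (7, -28)])) (.mul (.g 17) (.mul
 (.g 17) (.pp [(1, 16735200000)]))))))) (.add (.add (.mul (.g 12) (.add (.mul (.pp [(1, 4435380)])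
 (.sq [(1, 10), (2, 100), (3, 14), (5, 41), (7, 4)])) (.mul (.pp [(1, 4322220)]) (.sq [(1, -72),
 (2, -90), (3, 100), (5, 65), (7, 34)])))) (.mul (.g 7) (.mul (.pp [(1, 5136600)]) (.sq [(1, 31),
 (2, 63), (3, 100), (5, 76), (7, 33)])))) (.add (.mul (.g 14) (.mul (.pp [(1, 97830)]) (.sq [(1,
 24), (2, -51), (3, 100), (5, 11), (7, -51)]))) (.mul (.g 15) (.mul (.pp [(1, 657150)]) (.sq [(1,
 -77), (2, -100), (3, 100), (5, 59), (7, 30)]))))))) (.mul (.g 15) (.add (.add (.pp [(1,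
 37676400000)]) (.add (.mul (.g 7) (.add (.pp [(1, 118185900000)]) (.add (.mul (.g 9) (.add (.pp
 [(1, 54844800000)]) (.mul (.g 11) (.pp [(1, 3210900000)])))) (.mul (.g 12) (.pp [(1,
 35534400000)]))))) (.mul (.g 5) (.add (.mul (.pp [(1, 4446180)]) (.sq [(1, 100), (2, -62), (3,
 62), (5, 47)])) (.mul (.g 5) (.pp [(1, 130031100000)])))))) (.add (.mul (.g 8) (.add (.pp [(1,
 79504800000)]) (.mul (.g 8) (.mul (.g 9) (.pp [(1, 100095000000)]))))) (.add (.mul (.g 6) (.mul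
 (.g 15) (.pp [(1, 1394766000)]))) (.mul (.g 9) (.pp [(1, 264416700000)])))))))) (.add (.mul (.g 5)
 (.add (.add (.mul (.g 8) (.add (.pp [(1, 158710200000)]) (.mul (.pp [(1, 1864260)]) (.sq [(1,
 -50), (2, 23), (3, -28), (5, -48), (7, 100)])))) (.add (.mul (.g 13) (.add (.mul (.pp [(1,
 4297200)]) (.sq [(1, -21), (2, 23), (3, -43), (5, -43), (7, 100)])) (.mul (.g 12) (.pp [(1,
 32553600000)])))) (.mul (.g 5) (.mul (.pp [(1, 420000)]) (.sq [(1, -35), (2, 9), (3, -33), (5,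
 -51), (7, 100)]))))) (.add (.mul (.g 7) (.pp [(1, 636292800000)])) (.add (.mul (.g 9) (.mul (.g
 11) (.mul (.g 11) (.pp [(1, 4664400000)])))) (.mul (.g 16) (.pp [(1, 18264240000)])))))) (.add
 (.mul (.g 12) (.add (.mul (.g 14) (.add (.mul (.pp [(1, 94989)]) (.sq [(1, 98), (2, 69), (3, -33),
 (5, -100), (7, 90)])) (.add (.mul (.pp [(1, 40314)]) (.sq [(1, 27), (2, 100), (3, -22), (5, -56),
 (7, -66)])) (.mul (.pp [(1, 34884)]) (.sq [(1, -46), (2, -3), (3, 100), (5, -21), (7, 43)])))))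
 (.add (.mul (.g 12) (.add (.mul (.pp [(1, 453420)]) (.sq [(1, -50), (2, 100), (3, 7), (5, 3), (7,
 -33)])) (.mul (.pp [(1, 2762460)]) (.sq [(1, -26), (2, 37), (3, -44), (5, -53), (7, 100)]))))
 (.mul (.g 13) (.add (.mul (.pp [(1, 1610880)]) (.sq [(1, 13), (2, 50), (3, -24), (5, -18), (7,
 -34)])) (.mul (.g 7) (.mul (.g 11) (.pp [(1, 10983600000)])))))))) (.mul (.g 14) (.add (.mul (.g
 13) (.add (.mul (.pp [(1, 225576)]) (.sq [(1, 88), (2, -45), (3, 25), (5, 38), (7, 100)])) (.mul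
 (.pp [(1, 294798)]) (.sq [(1, -16), (2, 32), (3, -51), (5, -37), (7, 100)])))) (.add (.mul (.g 6)
 (.pp [(1, 32088000)])) (.mul (.g 8) (.mul (.pp [(1, 304473)]) (.sq [(1, 100), (2, 19), (3, 88),
 (5, -67), (7, 49)]))))))))) (.add (.add (.mul (.g 11) (.add (.mul (.g 6) (.mul (.g 9) (.mul (.g 9)
 (.pp [(1, 1874556000)])))) (.add (.mul (.g 11) (.mul (.pp [(1, 2451180)]) (.sq [(1, -25), (2, 66),
 (3, 100), (5, -56), (7, 49)]))) (.mul (.g 17) (.mul (.pp [(1, 3315420)]) (.sq [(1, -26), (2, 59),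
 (3, 7), (5, -52), (7, 100)])))))) (.add (.mul (.g 16) (.mul (.g 16) (.add (.mul (.g 8) (.mul (.g
 8) (.pp [(1, 1257096000)]))) (.mul (.g 9) (.mul (.g 9) (.pp [(1, 444456000)])))))) (.mul (.g 0)
 (.pp [(1, 120000000)])))) (.add (.mul (.g 2) (.pp [(1, 200000000000)])) (.add (.mul (.g 4) (.pp
 [(1, 200000000000)])) (.mul (.g 18) (.pp [(1, 200000000)])))))) (.pp [(1, 5228988114), (2,
 5451246), (3, 6459468), (4, 4752783), (5, 6189432), (6, 7224738), (7, 5788512), (8, 6320977), (9,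
 5262843), (10, 7656576), (12, 7342224), (14, 5322612), (15, 5068146), (16, 5885880), (18,
 6683025), (20, 6950355), (21, 6585834), (24, 6223380), (25, 4730214), (27, 5855017), (28,
 5669082), (30, 4023648), (35, 6835398), (36, 4286400), (40, 6078600), (42, 7319946), (45,
 5881389), (49, 5929518), (50, 4895346), (54, 6688860), (56, 6075720), (60, 4682820), (63,
 5546844), (70, 7499064), (75, 6956019), (81, 5555280), (84, 4992720), (90, 7401600), (98,
 6276600), (100, 5306400), (105, 4548918), (125, 6285552), (126, 6290280), (135, 6006600), (140,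
 5924280), (147, 6489627), (150, 7969020), (175, 4982202), (189, 5999640), (196, 5264520), (210,
 5955360), (225, 5775930), (245, 5700984), (250, 6560580), (294, 6777420), (315, 6815160), (343,
 5760273), (350, 6271020), (375, 5549250), (441, 5213280), (490, 7266840), (525, 6903210), (625,
 5861040), (686, 5779500), (735, 6104700), (875, 6114570), (1029, 6508080), (1225, 6330300), (1715,
 6546660), (2401, 6051600)]))))))))))
 (P_c2 ++ xP_A_F3) = true := by decide +kernel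

theorem t_A_F5c_c2 : chk ROp gP_A_F5c
 (.split [(1, -69), (3, 100)]
 (.cut 2 [(2, 1), (3, -1)] (.add (.mul (.g 9) (.pp [(1, 1)])) (.add (.mul (.g 14) (.pp [(1, 1)]))
 (.mul (.g 11) (.pp [(1, 1)])))) (.rule 0 (.cut 1 [(2, -1), (5, 1)] (.add (.mul (.g 16) (.pp [(1,
 1)])) (.mul (.g 7) (.pp [(1, 1)]))) (.rule 3 (.cut 31 [(1, 3), (3, -2)] (.add (.mul (.g 3) (.pp
 [(1, 162)])) (.add (.mul (.g 9) (.pp [(1, 162)])) (.mul (.g 4) (.pp [(1, 1)])))) (.rule 8 (.leaf
 3000000 (.add (.add (.add (.add (.mul (.g 7) (.add (.add (.mul (.g 7) (.add (.mul (.g 7) (.add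
 (.mul (.g 11) (.pp [(1, 900000)])) (.mul (.g 15) (.pp [(1, 300000)])))) (.add (.mul (.g 9) (.add
 (.mul (.g 11) (.pp [(1, 4900020000)])) (.mul (.g 15) (.pp [(1, 976440000)])))) (.mul (.g 6) (.mul
 (.g 6) (.pp [(1, 1031565)])))))) (.mul (.g 8) (.add (.mul (.g 6) (.add (.mul (.g 6) (.pp [(1,
 1680951)])) (.mul (.g 8) (.pp [(1, 65596800)])))) (.mul (.g 8) (.mul (.g 11) (.pp [(1,
 10315950000)])))))) (.add (.mul (.g 20) (.add (.mul (.g 13) (.add (.mul (.g 12) (.pp [(1,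
 488160000)])) (.mul (.g 17) (.pp [(1, 12120000)])))) (.mul (.g 9) (.mul (.g 20) (.pp [(1,
 487410000)]))))) (.add (.mul (.g 11) (.add (.pp [(1, 5411760000)]) (.mul (.g 9) (.mul (.g 11) (.pp
 [(1, 3435300000)]))))) (.mul (.g 15) (.mul (.g 15) (.pp [(1, 4877670000)]))))))) (.mul (.g 9)
 (.add (.add (.mul (.g 6) (.add (.mul (.g 9) (.add (.mul (.g 15) (.pp [(1, 4668600)])) (.mul (.g
 16) (.pp [(1, 1823700)])))) (.mul (.g 17) (.mul (.g 17) (.pp [(1, 5825400)]))))) (.add (.mul (.g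
 12) (.add (.mul (.g 8) (.mul (.g 8) (.pp [(1, 543090000)]))) (.mul (.g 13) (.pp [(1,
 452790000)])))) (.mul (.g 9) (.mul (.g 20) (.pp [(1, 868830000)]))))) (.add (.mul (.g 11) (.pp
 [(1, 2968380000)])) (.add (.mul (.g 13) (.mul (.g 15) (.pp [(1, 3301260000)]))) (.mul (.g 19)
 (.mul (.pp [(1, 6189)]) (.sq [(1, -4), (2, 45), (3, 79), (5, -100)])))))))) (.add (.mul (.g 8)
 (.add (.add (.mul (.g 8) (.add (.mul (.g 6) (.add (.mul (.g 8) (.pp [(1, 3627000)])) (.mul (.g 11)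
 (.pp [(1, 59883600)])))) (.mul (.g 8) (.mul (.g 11) (.pp [(1, 17381130000)]))))) (.mul (.g 11)
 (.pp [(1, 10922490000)]))) (.add (.mul (.g 12) (.pp [(1, 3420210000)])) (.add (.mul (.g 13) (.mul
 (.g 15) (.pp [(1, 12632685000)]))) (.mul (.g 20) (.mul (.g 20) (.mul (.g 20) (.pp [(1,
 527580000)])))))))) (.add (.mul (.g 12) (.add (.pp [(1, 2247060000)]) (.mul (.g 20) (.mul (.pp
 [(1, 114)]) (.sq [(1, 25), (2, 12), (3, 100), (5, -51)]))))) (.mul (.g 0) (.pp [(1, 3000000)])))))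
 (.add (.add (.mul (.g 2) (.pp [(1, 10000000000)])) (.add (.mul (.g 4) (.pp [(1, 10000000000)]))
 (.mul (.g 6) (.mul (.g 17) (.pp [(1, 138675600)]))))) (.add (.mul (.g 11) (.pp [(1, 7659000000)]))
 (.add (.mul (.g 18) (.pp [(1, 10000000)])) (.mul (.g 20) (.mul (.g 20) (.pp [(1,
 160080000)]))))))) (.pp [(1, 138547650), (2, 319650), (3, 262350), (4, 283851), (5, 260376), (6,
 327489), (8, 276416), (9, 308400), (10, 329754), (12, 344184), (15, 304422), (16, 300000), (18,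
 246000), (20, 396507), (24, 300000), (25, 287364), (27, 318000), (30, 221106), (36, 300000), (40,
 283584), (45, 278403), (50, 252486), (54, 300000), (60, 275541), (75, 353886), (81, 300000), (90,
 327390), (100, 275952), (125, 312872), (135, 315549), (150, 315864), (225, 291000), (250, 313950),
 (375, 303714), (625, 296514)])))))))))
 (.cut 1580 [(2, 1), (3, -1)] (.add (.add (.mul (.g 9) (.pp [(1, 1100)])) (.mul (.g 14) (.pp [(1,
 480)]))) (.add (.mul (.g 8) (.pp [(1, 31)])) (.mul (.g 0) (.pp [(1, 11)])))) (.rule 0 (.cut 1 [(2,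
 -1), (5, 1)] (.add (.mul (.g 16) (.pp [(1, 1)])) (.mul (.g 7) (.pp [(1, 1)]))) (.rule 3 (.cut 2
 [(1, -7), (3, 50)] (.add (.mul (.g 6) (.pp [(1, 65)])) (.mul (.g 14) (.pp [(1, 7)]))) (.rule 7
 (.leaf 600000000 (.add (.add (.add (.add (.mul (.g 15) (.add (.add (.mul (.g 7) (.add (.add (.mul
 (.g 8) (.add (.mul (.g 6) (.pp [(1, 4604670000)])) (.mul (.g 11) (.pp [(1, 477570000000)]))))
 (.mul (.g 7) (.mul (.g 16) (.pp [(1, 305943000000)])))) (.add (.mul (.g 12) (.pp [(1,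
 479592000000)])) (.mul (.g 15) (.pp [(1, 764256000000)]))))) (.add (.mul (.g 9) (.add (.add (.pp
 [(1, 156042000000)]) (.mul (.g 6) (.mul (.g 8) (.pp [(1, 582270000)])))) (.add (.mul (.g 9) (.mul
 (.g 16) (.pp [(1, 185437200000)]))) (.mul (.g 13) (.pp [(1, 233265000000)]))))) (.mul (.g 13)
 (.add (.mul (.g 13) (.add (.pp [(1, 83214000000)]) (.mul (.g 17) (.pp [(1, 316623000000)]))))
 (.mul (.g 8) (.pp [(1, 2566800000000)])))))) (.add (.mul (.g 6) (.mul (.pp [(1, 441291)]) (.sq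
 [(1, -12), (2, 17), (3, -100), (5, 95)]))) (.add (.mul (.g 11) (.mul (.g 11) (.mul (.g 14) (.pp
 [(1, 739350000)])))) (.mul (.g 17) (.mul (.pp [(1, 5852400)]) (.sq [(1, -13), (2, 18), (3, -100),
 (5, 95)]))))))) (.mul (.g 11) (.add (.add (.pp [(1, 337560000000)]) (.mul (.g 7) (.add (.pp [(1,
 641958000000)]) (.add (.mul (.g 7) (.add (.mul (.g 8) (.pp [(1, 4317066000000)])) (.add (.mul (.g
 11) (.pp [(1, 6438000000)])) (.mul (.g 16) (.pp [(1, 151036800000)]))))) (.mul (.g 8) (.mul (.g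
 11) (.pp [(1, 3640944000000)]))))))) (.add (.mul (.g 8) (.add (.pp [(1, 5480580000000)]) (.add
 (.mul (.g 8) (.mul (.g 16) (.pp [(1, 505796400000)]))) (.mul (.g 9) (.mul (.g 17) (.pp [(1,
 78000000)])))))) (.add (.mul (.g 9) (.add (.mul (.pp [(1, 8593800)]) (.sq [(1, -17), (2, 72), (3,
 95), (5, -100)])) (.mul (.g 6) (.mul (.g 16) (.pp [(1, 27480000)]))))) (.mul (.g 12) (.mul (.pp
 [(1, 5937600)]) (.sq [(1, -16), (2, 28), (3, -3), (5, 100)])))))))) (.add (.mul (.g 6) (.mul (.g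
 6) (.add (.mul (.g 6) (.mul (.g 8) (.pp [(1, 856842)]))) (.mul (.g 7) (.mul (.g 9) (.pp [(1,
 33365400)])))))) (.add (.mul (.g 12) (.add (.mul (.g 12) (.mul (.pp [(1, 6366600)]) (.sq [(1,
 -11), (2, 66), (3, -6), (5, 100)]))) (.mul (.g 20) (.mul (.pp [(1, 9031800)]) (.sq [(1, 19), (2,
 4), (3, 100), (5, -84)]))))) (.mul (.g 16) (.mul (.g 16) (.mul (.g 16) (.add (.pp [(1,
 6418464000)]) (.mul (.g 7) (.pp [(1, 35529936000)]))))))))) (.add (.add (.mul (.g 0) (.pp [(1,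
 1200000000)])) (.add (.mul (.g 2) (.pp [(1, 2000000000000)])) (.mul (.g 4) (.pp [(1,
 2000000000000)])))) (.add (.mul (.g 8) (.mul (.g 8) (.mul (.pp [(1, 11271600)]) (.sq [(1, 49), (2,
 31), (3, 100), (5, -83)])))) (.add (.mul (.g 9) (.mul (.g 19) (.mul (.pp [(1, 27370800)]) (.sq
 [(1, -5), (2, 15), (3, 100), (5, -42)])))) (.mul (.g 18) (.pp [(1, 2000000000)])))))) (.pp [(1,
 1557807600), (2, 59331048), (3, 62126598), (4, 58922664), (5, 61052376), (6, 60748968), (8,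
 63680338), (9, 59058000), (10, 64083408), (12, 67801431), (15, 58759680), (16, 58168800), (18,
 54406200), (20, 64153491), (24, 55546200), (25, 57169080), (27, 64532400), (30, 41713770), (36,
 58498500), (40, 66931200), (45, 60615600), (50, 62527620), (54, 65964000), (60, 51640500), (75,
 68091375), (81, 58802400), (90, 73168800), (100, 54928800), (125, 56609575), (135, 53584800),
 (150, 57603600), (225, 59092500), (250, 57129600), (375, 64114500), (625, 62380800)]))))))))))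
 (P_c2 ++ xP_A_F5c) = true := by decide +kernel

theorem t_A_F5c_c3 : chk ROp gP_A_F5c
 (.cut 1 [(2, -1), (3, 1)] (.add (.mul (.g 9) (.pp [(1, 1)])) (.mul (.g 4) (.pp [(1, 1)]))) (.rule
 1 (.cut 1 [(2, -1), (5, 1)] (.add (.mul (.g 1) (.pp [(1, 1)])) (.add (.mul (.g 14) (.pp [(1, 1)]))
 (.mul (.g 13) (.pp [(1, 1)])))) (.rule 3 (.cut 11 [(1, -69), (3, 100)] (.add (.add (.mul (.g 12)
 (.pp [(1, 620)])) (.mul (.g 3) (.pp [(1, 620)]))) (.add (.mul (.g 11) (.pp [(1, 31)])) (.mul (.g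
 13) (.pp [(1, 480)])))) (.cut 1 [(1, 3), (3, -2)] (.add (.add (.mul (.g 5) (.pp [(1, 1)])) (.mul
 (.g 10) (.pp [(1, 2)]))) (.add (.mul (.g 2) (.pp [(1, 2)])) (.mul (.g 9) (.pp [(1, 1)])))) (.rule
 8 (.cut 1 [(1, 2), (2, 1), (3, -2), (5, -1)] (.add (.mul (.g 12) (.pp [(1, 2)])) (.mul (.g 4) (.pp
 [(1, 1)]))) (.cut 81 [(1, -1), (2, -2), (3, 2), (5, 2)] (.add (.mul (.g 5) (.pp [(1, 162)])) (.add
 (.mul (.g 2) (.pp [(1, 19)])) (.mul (.g 3) (.pp [(1, 2)])))) (.rule 12 (.leaf 30000000 (.add (.add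
 (.add (.add (.mul (.g 10) (.add (.add (.mul (.g 10) (.add (.add (.mul (.g 14) (.add (.mul (.g 10)
 (.pp [(1, 478220400000)])) (.add (.mul (.g 12) (.pp [(1, 53166300000)])) (.mul (.g 14) (.pp [(1,
 583476600000)]))))) (.mul (.g 19) (.add (.mul (.g 11) (.pp [(1, 390085800000)])) (.mul (.g 12)
 (.pp [(1, 967361400000)]))))) (.add (.mul (.g 21) (.add (.mul (.g 10) (.pp [(1, 531429300000)]))
 (.mul (.g 22) (.pp [(1, 954591600000)])))) (.mul (.g 22) (.mul (.g 22) (.pp [(1,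
 17236800000)])))))) (.mul (.g 12) (.add (.mul (.g 12) (.add (.mul (.g 14) (.pp [(1,
 18468900000)])) (.add (.mul (.g 21) (.pp [(1, 518835000000)])) (.mul (.g 22) (.pp [(1,
 909600000)]))))) (.mul (.g 14) (.mul (.g 21) (.pp [(1, 121121400000)])))))) (.add (.mul (.g 22)
 (.add (.pp [(1, 17986500000)]) (.mul (.g 11) (.mul (.g 22) (.pp [(1, 19183200000)]))))) (.mul (.g
 19) (.pp [(1, 177541500000)]))))) (.mul (.g 11) (.add (.add (.mul (.g 11) (.add (.mul (.g 22)
 (.add (.mul (.g 15) (.pp [(1, 282494100000)])) (.mul (.g 22) (.pp [(1, 136161600000)])))) (.add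
 (.mul (.g 14) (.mul (.g 16) (.pp [(1, 300270000000)]))) (.mul (.g 17) (.pp [(1, 3702405000)])))))
 (.mul (.g 15) (.mul (.g 15) (.pp [(1, 278420100000)])))) (.add (.mul (.g 18) (.mul (.pp [(1,
 14181675)]) (.sq [(1, -19), (2, 100), (3, -46), (5, 67)]))) (.mul (.g 21) (.pp [(1,
 941286300000)])))))) (.add (.mul (.g 12) (.add (.mul (.g 12) (.add (.mul (.g 19) (.add (.mul (.g
 12) (.pp [(1, 132534600000)])) (.add (.mul (.g 14) (.pp [(1, 234111300000)])) (.mul (.g 18) (.pp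
 [(1, 428312400000)]))))) (.mul (.g 22) (.pp [(1, 68985000000)])))) (.add (.mul (.g 18) (.pp [(1,
 163888200000)])) (.mul (.g 21) (.pp [(1, 515153700000)]))))) (.add (.mul (.g 19) (.add (.pp [(1,
 521074800000)]) (.add (.mul (.g 16) (.mul (.pp [(1, 2824230)]) (.sq [(2, 31), (3, 19), (5,
 100)]))) (.mul (.g 17) (.mul (.pp [(1, 1668267)]) (.sq [(2, 41), (3, 26), (5, 100)])))))) (.mul
 (.g 14) (.add (.mul (.g 14) (.pp [(1, 105951000000)])) (.mul (.g 18) (.mul (.pp [(1, 7338780)])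
 (.sq [(1, 34), (2, -85), (3, 100), (5, 1)])))))))) (.add (.add (.mul (.g 15) (.add (.mul (.g 15)
 (.mul (.pp [(1, 1163250)]) (.sq [(1, 100), (2, 26), (3, 93), (5, -13)]))) (.mul (.g 22) (.mul (.pp
 [(1, 19950)]) (.sq [(1, -39), (2, -15), (3, -40), (5, 100)]))))) (.add (.mul (.g 0) (.pp [(1,
 100000000000)])) (.mul (.g 3) (.pp [(1, 30000000)])))) (.add (.mul (.g 6) (.pp [(1,
 100000000000)])) (.add (.mul (.g 8) (.pp [(1, 100000000000)])) (.mul (.g 20) (.pp [(1,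
 200000000)])))))) (.pp [(1, 10181643950), (2, 2526090), (3, 2879730), (4, 2717967), (5, 3081780),
 (6, 3302874), (8, 3485380), (9, 3323997), (10, 3313290), (12, 2738343), (15, 3134565), (16,
 2814000), (18, 3408846), (20, 3309750), (24, 3053070), (25, 2581740), (27, 2849698), (30,
 3127380), (36, 2904000), (40, 3011550), (45, 2509320), (50, 2665800), (54, 3031950), (60,
 2630280), (75, 2807730), (81, 2958180), (90, 2893080), (100, 3048660), (125, 3257280), (135,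
 3080730), (150, 2886570), (225, 3310875), (250, 3246720), (375, 3099075), (625,
 2910750)])))))))))))))
 (P_c3 ++ xP_A_F5c) = true := by decide +kernel

theorem t_A_F8_c0 : chk ROp gP_A_F8
 (.cut 50 [(2, 1), (3, -1)] (.add (.add (.mul (.g 8) (.pp [(1, 45)])) (.mul (.g 7) (.pp [(1, 2)])))
 (.add (.mul (.g 2) (.pp [(1, 5)])) (.mul (.g 9) (.pp [(1, 9)])))) (.rule 0 (.cut 60 [(2, -1), (5,
 1)] (.add (.add (.mul (.g 11) (.pp [(1, 11)])) (.mul (.g 9) (.pp [(1, 3)]))) (.add (.mul (.g 1)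
 (.pp [(1, 5)])) (.mul (.g 6) (.pp [(1, 5)])))) (.rule 3 (.leaf 15000000 (.add (.add (.add (.add
 (.mul (.g 7) (.add (.add (.add (.mul (.g 6) (.add (.add (.mul (.g 5) (.add (.mul (.g 7) (.pp [(1,
 150000)])) (.mul (.g 8) (.pp [(1, 1350000)])))) (.add (.mul (.g 13) (.add (.mul (.g 13) (.pp [(1,
 24000)])) (.mul (.g 15) (.pp [(1, 90000)])))) (.mul (.g 4) (.pp [(1, 510000000)])))) (.add (.mul
 (.g 7) (.mul (.g 7) (.pp [(1, 600000)]))) (.add (.mul (.g 11) (.pp [(1, 52500)])) (.mul (.g 15)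
 (.pp [(1, 2100000)])))))) (.mul (.g 7) (.add (.mul (.g 7) (.add (.add (.pp [(1, 11215050000)])
 (.mul (.g 8) (.pp [(1, 1350000)]))) (.add (.mul (.g 13) (.pp [(1, 120000)])) (.mul (.g 15) (.pp
 [(1, 1500000)]))))) (.mul (.g 10) (.mul (.g 10) (.pp [(1, 3000000)])))))) (.add (.mul (.g 4) (.add
 (.mul (.g 11) (.add (.pp [(1, 1714185000)]) (.mul (.g 4) (.pp [(1, 90000)])))) (.add (.mul (.g 8)
 (.mul (.g 13) (.pp [(1, 30000)]))) (.mul (.g 15) (.pp [(1, 34786650000)]))))) (.mul (.g 13) (.add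
 (.pp [(1, 4524240000)]) (.add (.mul (.pp [(1, 72)]) (.sq [(1, 45), (2, 39), (3, 39), (5, 39), (7,
 50)])) (.mul (.g 10) (.mul (.g 13) (.pp [(1, 114000)])))))))) (.add (.add (.mul (.g 5) (.add (.mul
 (.g 5) (.mul (.g 5) (.pp [(1, 12450000)]))) (.mul (.g 15) (.pp [(1, 1500000)])))) (.mul (.g 11)
 (.pp [(1, 1755810000)]))) (.add (.mul (.g 12) (.pp [(1, 12497250000)])) (.mul (.g 15) (.pp [(1,
 22622100000)])))))) (.add (.mul (.g 5) (.add (.add (.mul (.g 4) (.add (.add (.mul (.g 8) (.add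
 (.mul (.g 4) (.pp [(1, 300000)])) (.add (.mul (.g 12) (.pp [(1, 375000)])) (.mul (.g 13) (.pp [(1,
 6855870000)]))))) (.mul (.g 4) (.mul (.g 13) (.pp [(1, 6856110000)])))) (.add (.mul (.g 12) (.pp
 [(1, 115699800000)])) (.mul (.g 15) (.pp [(1, 34281900000)]))))) (.add (.mul (.g 5) (.add (.mul
 (.g 5) (.add (.add (.pp [(1, 49974000000)]) (.mul (.g 5) (.pp [(1, 2100000)]))) (.add (.mul (.g 8)
 (.pp [(1, 1200000)])) (.mul (.g 15) (.pp [(1, 13200000)]))))) (.mul (.g 15) (.add (.pp [(1,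
 1350000)]) (.mul (.g 10) (.pp [(1, 900000)])))))) (.mul (.g 13) (.add (.mul (.pp [(1, 15)]) (.sq
 [(1, 63), (2, 100), (3, 48), (5, 75), (7, 75)])) (.mul (.g 13) (.add (.mul (.g 6) (.pp [(1,
 522000)])) (.mul (.g 13) (.pp [(1, 24000)])))))))) (.add (.mul (.g 6) (.mul (.g 15) (.pp [(1,
 3000000)]))) (.add (.mul (.g 9) (.mul (.pp [(1, 75)]) (.sq [(1, -79), (2, 8), (3, 72), (5, -44),
 (7, 100)]))) (.mul (.g 12) (.mul (.g 12) (.pp [(1, 4087500)]))))))) (.mul (.g 6) (.add (.add (.add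
 (.mul (.g 6) (.add (.mul (.g 13) (.add (.mul (.g 8) (.pp [(1, 300000)])) (.mul (.g 15) (.pp [(1,
 120000)])))) (.add (.mul (.g 9) (.pp [(1, 900000)])) (.mul (.g 10) (.mul (.g 15) (.pp [(1,
 600000)])))))) (.mul (.g 4) (.mul (.g 4) (.pp [(1, 5685150000)])))) (.add (.mul (.g 8) (.mul (.pp
 [(1, 60)]) (.sq [(1, -7), (2, 100), (3, 93), (5, 82), (7, -40)]))) (.mul (.g 9) (.mul (.pp [(1,
 90)]) (.sq [(1, -89), (2, -47), (3, 9), (5, -53), (7, 100)]))))) (.add (.add (.mul (.g 10) (.mul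
 (.pp [(1, 15)]) (.sq [(1, -39), (2, 69), (3, 14), (5, -45), (7, 100)]))) (.mul (.g 12) (.pp [(1,
 3975000)]))) (.add (.mul (.g 13) (.pp [(1, 720000)])) (.mul (.g 15) (.mul (.pp [(1, 90)]) (.sq
 [(1, 100), (2, 81), (3, 81), (5, 81), (7, 81)]))))))))) (.add (.mul (.g 4) (.add (.add (.mul (.g
 4) (.add (.mul (.g 4) (.mul (.g 8) (.pp [(1, 1800000)]))) (.add (.mul (.g 13) (.pp [(1,
 16285380000)])) (.mul (.g 15) (.pp [(1, 5694600000)]))))) (.mul (.g 12) (.add (.pp [(1,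
 853875000)]) (.mul (.g 10) (.pp [(1, 1275000)]))))) (.add (.mul (.g 13) (.pp [(1, 9428640000)]))
 (.mul (.g 15) (.mul (.pp [(1, 45)]) (.sq [(1, 94), (2, 100), (3, 100), (5, 73), (7, 73)]))))))
 (.add (.mul (.g 10) (.add (.mul (.pp [(1, 300000)]) (.sq [(2, 1), (3, -1)])) (.add (.mul (.g 8)
 (.mul (.g 8) (.mul (.g 11) (.pp [(1, 15000)])))) (.mul (.g 12) (.mul (.pp [(1, 195)]) (.sq [(1,
 -35), (2, -10), (3, 15), (5, -2), (7, 100)])))))) (.mul (.g 15) (.add (.pp [(1, 3614100000)])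
 (.mul (.g 8) (.pp [(1, 840900000)]))))))) (.add (.add (.mul (.g 0) (.pp [(1, 50000000000)])) (.add
 (.mul (.g 2) (.pp [(1, 50000000000)])) (.mul (.g 11) (.pp [(1, 779400000)])))) (.add (.mul (.g 12)
 (.pp [(1, 11137275000)])) (.add (.mul (.g 13) (.pp [(1, 890550000)])) (.mul (.g 14) (.pp [(1,
 50000000)])))))) (.pp [(1, 958500000), (2, 1537380), (3, 1380855), (4, 1491750), (5, 1354170), (6,
 1451100), (7, 1418400), (8, 1338000), (9, 1466385), (10, 1604340), (12, 1701000), (14, 1485600),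
 (15, 1482300), (16, 1539000), (18, 1179750), (19, 150000000000), (20, 1787130), (21, 1419060),
 (24, 1469700), (25, 1525770), (27, 1650230), (28, 1409976), (30, 1418460), (35, 1295460), (36,
 1476150), (40, 1479705), (42, 1794552), (45, 1424430), (49, 1452000), (50, 1420395), (54,
 1427475), (56, 1470000), (60, 1498815), (63, 1537326), (70, 1534122), (75, 1486170), (81,
 1505475), (84, 1717560), (90, 1387545), (98, 1466175), (100, 1515015), (105, 1619472), (125,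
 1574970), (126, 1515120), (135, 1584000), (140, 1691490), (147, 1639650), (150, 1548330), (175,
 1483596), (189, 1552560), (196, 1557000), (210, 1799700), (225, 1541010), (245, 1589910), (250,
 1548780), (294, 1461000), (315, 1611360), (343, 1500000), (350, 1697775), (375, 1471515), (441,
 1525875), (490, 1396395), (525, 1529520), (625, 1413705), (686, 1589805), (735, 1384980), (875,
 1474470), (1029, 1500000), (1225, 1471470), (1715, 1490490), (2401, 1500000)])))))))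
 (P_c0 ++ xP_A_F8) = true := by decide +kernel

theorem t_A_F8_Op1 : chk ROp gP_A_F8
 (.split [(1, -3), (3, 2)]
 (.cut 3 [(2, -1), (3, 1)] (.add (.mul (.g 0) (.pp [(1, 1)])) (.add (.mul (.g 2) (.pp [(1, 1)]))
 (.mul (.g 5) (.pp [(1, 3)])))) (.rule 1 (.cut 3 [(2, 1), (5, -1)] (.add (.add (.mul (.g 3) (.pp
 [(1, 1)])) (.mul (.g 1) (.pp [(1, 1)]))) (.add (.mul (.g 2) (.pp [(1, 1)])) (.mul (.g 8) (.pp [(1,
 3)])))) (.rule 2 (.rule 9 (.cut 1 [(1, -2), (2, -1), (3, 2), (5, 1)] (.add (.mul (.g 10) (.pp [(1,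
 1)])) (.add (.mul (.g 5) (.pp [(1, 1)])) (.mul (.g 8) (.pp [(1, 1)])))) (.cut 1 [(1, -1), (2, -2),
 (3, 2), (5, 2)] (.add (.mul (.g 11) (.pp [(1, 1)])) (.add (.mul (.g 9) (.pp [(1, 1)])) (.mul (.g
 0) (.pp [(1, 1)])))) (.rule 10 (.leaf 9000000 (.add (.add (.add (.add (.mul (.g 11) (.add (.add
 (.add (.mul (.g 12) (.add (.add (.pp [(1, 41453100000)]) (.add (.mul (.g 8) (.add (.mul (.g 8)
 (.pp [(1, 40910000)])) (.mul (.g 10) (.pp [(1, 25782780000)])))) (.mul (.g 9) (.add (.mul (.g 11)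
 (.pp [(1, 20804310000)])) (.mul (.g 19) (.pp [(1, 14978340000)])))))) (.add (.add (.mul (.g 11)
 (.mul (.g 16) (.pp [(1, 477378000)]))) (.mul (.g 12) (.mul (.g 12) (.pp [(1, 345690000)])))) (.add
 (.mul (.g 13) (.mul (.g 15) (.pp [(1, 7660980000)]))) (.mul (.g 14) (.mul (.g 17) (.pp [(1,
 3505860000)]))))))) (.mul (.g 10) (.add (.add (.mul (.pp [(1, 53595)]) (.sq [(1, 6), (2, 65), (3,
 -97), (5, 72), (7, -100)])) (.mul (.g 9) (.add (.mul (.g 8) (.pp [(1, 22589340000)])) (.mul (.g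
 11) (.pp [(1, 6074010000)]))))) (.add (.mul (.g 10) (.mul (.g 13) (.pp [(1, 25372620000)]))) (.mul
 (.g 14) (.pp [(1, 92263410000)])))))) (.add (.mul (.g 11) (.add (.add (.pp [(1, 71099010000)])
 (.mul (.g 9) (.mul (.g 9) (.pp [(1, 2001240000)])))) (.add (.mul (.g 15) (.mul (.g 19) (.pp [(1,
 3286080000)]))) (.mul (.g 16) (.mul (.g 16) (.pp [(1, 14989500)])))))) (.mul (.g 13) (.add (.pp
 [(1, 43747470000)]) (.add (.mul (.pp [(1, 445482)]) (.sq [(1, -51), (2, 100), (3, -91), (5, 32),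
 (7, 51)])) (.mul (.g 15) (.mul (.g 19) (.pp [(1, 2832120000)])))))))) (.add (.add (.mul (.g 15)
 (.add (.mul (.pp [(1, 614304)]) (.sq [(1, -6), (2, 1), (3, 43), (5, -50), (7, 40)])) (.mul (.g 15)
 (.mul (.g 19) (.pp [(1, 3998970000)]))))) (.mul (.g 8) (.pp [(1, 17990550000)]))) (.add (.mul (.g
 9) (.mul (.g 9) (.mul (.g 9) (.pp [(1, 14599530000)])))) (.mul (.g 14) (.mul (.pp [(1, 30528)])
 (.sq [(1, -82), (2, -33), (3, 100), (5, -90), (7, 98)]))))))) (.add (.mul (.g 12) (.add (.add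
 (.mul (.g 19) (.add (.add (.pp [(1, 14494500000)]) (.mul (.pp [(1, 372150000)]) (.sq [(1, 1), (2,
 1), (3, 1), (5, 1), (7, 1)]))) (.add (.mul (.g 19) (.add (.add (.mul (.g 9) (.pp [(1,
 9295200000)])) (.mul (.g 10) (.pp [(1, 37350000)]))) (.add (.mul (.g 12) (.pp [(1, 371250000)]))
 (.add (.mul (.g 15) (.pp [(1, 27360000)])) (.mul (.g 17) (.pp [(1, 1349910000)])))))) (.add (.mul
 (.g 10) (.mul (.g 10) (.pp [(1, 543600000)]))) (.mul (.g 15) (.mul (.g 17) (.pp [(1,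
 2253870000)]))))))) (.mul (.g 13) (.add (.add (.mul (.g 9) (.add (.mul (.g 12) (.pp [(1,
 850230000)])) (.mul (.g 15) (.pp [(1, 18588690000)])))) (.mul (.g 10) (.mul (.g 10) (.pp [(1,
 1585800000)])))) (.add (.mul (.g 12) (.mul (.g 12) (.pp [(1, 8524530000)]))) (.add (.mul (.g 13)
 (.mul (.g 14) (.pp [(1, 2942730000)]))) (.mul (.g 16) (.mul (.g 16) (.pp [(1, 30797550)]))))))))
 (.add (.mul (.g 10) (.mul (.g 14) (.mul (.g 15) (.pp [(1, 9596250000)])))) (.mul (.g 17) (.mul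
 (.pp [(1, 1707831)]) (.sq [(1, 30), (2, 3), (3, -80), (5, 100), (7, -1)])))))) (.mul (.g 10) (.add
 (.add (.mul (.g 9) (.add (.mul (.g 13) (.add (.pp [(1, 17710380000)]) (.add (.mul (.g 9) (.pp [(1,
 8407080000)])) (.mul (.g 15) (.pp [(1, 8945370000)]))))) (.add (.mul (.g 8) (.add (.mul (.g 10)
 (.pp [(1, 2811390000)])) (.mul (.g 14) (.pp [(1, 18480570000)])))) (.mul (.g 16) (.mul (.g 19)
 (.pp [(1, 284391000)])))))) (.mul (.g 10) (.add (.mul (.g 13) (.add (.mul (.g 13) (.pp [(1,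
 11796120000)])) (.mul (.g 14) (.pp [(1, 34289820000)])))) (.mul (.g 10) (.mul (.g 14) (.pp [(1,
 900000)])))))) (.add (.mul (.g 8) (.pp [(1, 3340290000)])) (.add (.mul (.g 13) (.mul (.g 13) (.mul
 (.g 14) (.pp [(1, 1445580000)])))) (.mul (.g 19) (.pp [(1, 2663730000)])))))))) (.add (.mul (.g 9)
 (.add (.mul (.g 9) (.add (.mul (.g 9) (.add (.mul (.g 13) (.pp [(1, 204930000)])) (.mul (.g 19)
 (.pp [(1, 9638370000)])))) (.mul (.g 14) (.pp [(1, 18970200000)])))) (.add (.mul (.g 14) (.pp [(1,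
 33777540000)])) (.mul (.g 19) (.pp [(1, 19087470000)]))))) (.add (.mul (.g 13) (.add (.mul (.g 15)
 (.add (.pp [(1, 36993150000)]) (.mul (.pp [(1, 22140)]) (.sq [(1, 48), (2, -96), (3, 44), (5, 79),
 (7, -100)])))) (.add (.mul (.g 13) (.pp [(1, 10989720000)])) (.mul (.g 17) (.mul (.pp [(1,
 291033)]) (.sq [(1, 44), (2, -74), (3, -100), (5, -63), (7, 63)])))))) (.mul (.g 19) (.add (.pp
 [(1, 9986940000)]) (.add (.mul (.g 17) (.mul (.pp [(1, 133479)]) (.sq [(1, 42), (2, 99), (3, 100),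
 (5, 37), (7, -71)]))) (.mul (.g 19) (.mul (.pp [(1, 1000080000)]) (.sq [(2, 1), (3, -1)])))))))))
 (.add (.add (.mul (.g 8) (.add (.mul (.g 8) (.pp [(1, 1445030000)])) (.mul (.g 15) (.pp [(1,
 55347030000)])))) (.add (.mul (.g 0) (.pp [(1, 30000000000)])) (.mul (.g 3) (.pp [(1,
 90000000)])))) (.add (.add (.mul (.g 4) (.pp [(1, 30000000000)])) (.mul (.g 6) (.pp [(1,
 30000000000)]))) (.add (.mul (.g 14) (.mul (.g 14) (.pp [(1, 16795440000)]))) (.mul (.g 18) (.pp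
 [(1, 30000000000)])))))) (.pp [(1, 8929526844), (2, 985140), (3, 965796), (4, 948483), (5,
 869310), (6, 689580), (7, 877590), (8, 887772), (9, 827440), (10, 769212), (12, 917757), (14,
 1001340), (15, 860040), (16, 887760), (18, 1038120), (20, 1066293), (21, 832860), (24, 907668),
 (25, 976032), (27, 936960), (28, 894492), (30, 825750), (35, 728784), (36, 896640), (40, 891072),
 (42, 789930), (45, 1082682), (49, 856512), (50, 831825), (54, 833040), (56, 882000), (60, 908208),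
 (63, 860400), (70, 678618), (75, 920016), (81, 900000), (84, 995508), (90, 882864), (98, 810819),
 (100, 923508), (105, 1360824), (125, 942021), (126, 935280), (135, 846549), (140, 895824), (147,
 1048248), (150, 892359), (175, 940491), (189, 921600), (196, 900000), (210, 1055430), (225,
 884664), (245, 1045233), (250, 1059228), (294, 899181), (315, 628840), (343, 870192), (350,
 849744), (375, 836271), (441, 885240), (490, 1054170), (525, 857205), (625, 766800), (686,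
 990000), (735, 719685), (875, 982080), (1029, 839808), (1225, 784512), (1715, 900000), (2401,
 900000)])))))))))))
 (.cut 1 [(2, -1), (3, 1)] (.add (.mul (.g 9) (.pp [(1, 1)])) (.mul (.g 5) (.pp [(1, 1)]))) (.rule
 1 (.cut 1 [(2, 1), (5, -1)] (.add (.mul (.g 11) (.pp [(1, 1)])) (.mul (.g 8) (.pp [(1, 1)])))
 (.rule 2 (.cut 11 [(1, -69), (3, 100)] (.add (.mul (.g 1) (.pp [(1, 620)])) (.add (.mul (.g 12)
 (.pp [(1, 31)])) (.mul (.g 13) (.pp [(1, 480)])))) (.rule 8 (.rule 15 (.leaf 33000000 (.add (.add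
 (.add (.add (.mul (.g 11) (.add (.add (.mul (.g 10) (.add (.add (.pp [(1, 16167030000)]) (.mul (.g
 18) (.add (.add (.mul (.g 8) (.pp [(1, 43641180000)])) (.mul (.g 9) (.pp [(1, 32881860000)])))
 (.add (.mul (.g 10) (.pp [(1, 4290000)])) (.add (.mul (.g 11) (.pp [(1, 12210000)])) (.mul (.g 18)
 (.pp [(1, 4950000)]))))))) (.add (.mul (.g 9) (.add (.mul (.g 9) (.pp [(1, 27962550000)])) (.add
 (.mul (.g 10) (.pp [(1, 16444890000)])) (.mul (.g 16) (.pp [(1, 10230000)]))))) (.add (.mul (.g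
 10) (.add (.mul (.g 12) (.pp [(1, 2640000)])) (.mul (.g 14) (.pp [(1, 1980000)])))) (.mul (.g 8)
 (.mul (.g 8) (.pp [(1, 4620000)]))))))) (.add (.mul (.g 8) (.add (.add (.mul (.g 7) (.add (.mul
 (.g 12) (.pp [(1, 10318330000)])) (.mul (.g 15) (.pp [(1, 727281500)])))) (.mul (.g 9) (.add (.mul
 (.g 12) (.pp [(1, 105584490000)])) (.mul (.g 15) (.pp [(1, 1454425500)]))))) (.add (.mul (.g 11)
 (.add (.mul (.g 16) (.pp [(1, 32882520000)])) (.mul (.g 18) (.pp [(1, 43653720000)])))) (.add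
 (.mul (.g 8) (.mul (.g 16) (.pp [(1, 84952890000)]))) (.mul (.g 18) (.mul (.g 18) (.pp [(1,
 43645470000)]))))))) (.mul (.g 9) (.add (.mul (.g 18) (.add (.mul (.g 9) (.pp [(1, 12870000)]))
 (.mul (.g 18) (.pp [(1, 16439940000)])))) (.add (.mul (.g 7) (.mul (.g 14) (.pp [(1, 990000)])))
 (.mul (.g 11) (.mul (.g 12) (.pp [(1, 32883510000)])))))))) (.add (.add (.mul (.g 11) (.mul (.g
 11) (.add (.mul (.g 7) (.pp [(1, 8224150000)])) (.mul (.g 14) (.pp [(1, 1320000)]))))) (.mul (.g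
 18) (.add (.pp [(1, 49760370000)]) (.mul (.pp [(1, 330)]) (.sq [(1, 77), (2, 94), (3, 71), (5,
 92), (7, -100)]))))) (.add (.mul (.g 15) (.pp [(1, 1679304000)])) (.mul (.g 16) (.pp [(1,
 26161410000)])))))) (.add (.mul (.g 12) (.add (.add (.mul (.g 8) (.add (.add (.mul (.g 12) (.add
 (.pp [(1, 11859870000)]) (.add (.mul (.g 12) (.pp [(1, 2970000)])) (.mul (.g 14) (.pp [(1,
 330000)]))))) (.mul (.g 9) (.add (.mul (.g 16) (.pp [(1, 6930000)])) (.mul (.g 18) (.pp [(1,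
 128588130000)]))))) (.add (.mul (.g 16) (.pp [(1, 11927190000)])) (.mul (.g 18) (.mul (.g 18) (.pp
 [(1, 330000)])))))) (.mul (.g 10) (.add (.mul (.g 12) (.add (.pp [(1, 17191680000)]) (.mul (.g 18)
 (.pp [(1, 3960000)])))) (.add (.mul (.g 10) (.mul (.g 10) (.pp [(1, 9315570000)]))) (.mul (.g 14)
 (.mul (.g 14) (.pp [(1, 330000)]))))))) (.add (.mul (.g 9) (.add (.mul (.g 9) (.mul (.g 16) (.pp
 [(1, 6270000)]))) (.mul (.g 14) (.mul (.g 14) (.pp [(1, 3630000)]))))) (.add (.mul (.g 12) (.pp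
 [(1, 39195750000)])) (.mul (.g 18) (.pp [(1, 791010000)])))))) (.mul (.g 10) (.add (.add (.mul (.g
 10) (.add (.add (.mul (.g 7) (.mul (.g 7) (.pp [(1, 4198260000)]))) (.mul (.g 8) (.mul (.g 10)
 (.pp [(1, 9308640000)])))) (.add (.mul (.g 15) (.mul (.g 18) (.pp [(1, 165000)]))) (.mul (.g 16)
 (.mul (.g 16) (.pp [(1, 11177760000)])))))) (.mul (.g 9) (.add (.mul (.g 9) (.add (.mul (.g 16)
 (.pp [(1, 4620000)])) (.mul (.g 18) (.pp [(1, 27981030000)])))) (.mul (.g 18) (.mul (.g 18) (.pp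
 [(1, 330000)])))))) (.add (.mul (.g 8) (.mul (.pp [(1, 66)]) (.sq [(1, -16), (2, 38), (3, -47),
 (5, 100), (7, -52)]))) (.add (.mul (.g 13) (.pp [(1, 94770720000)])) (.mul (.g 15) (.mul (.g 15)
 (.pp [(1, 61746300)]))))))))) (.add (.mul (.g 18) (.add (.mul (.g 9) (.add (.add (.pp [(1,
 58780260000)]) (.mul (.pp [(1, 132)]) (.sq [(1, 20), (2, 100), (3, 99), (5, -52), (7, -83)])))
 (.add (.mul (.g 8) (.mul (.g 8) (.pp [(1, 57004860000)]))) (.mul (.g 9) (.mul (.g 18) (.pp [(1,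
 9240000)])))))) (.add (.mul (.g 8) (.mul (.g 8) (.add (.mul (.g 8) (.pp [(1, 3300000)])) (.mul (.g
 16) (.pp [(1, 71592840000)]))))) (.mul (.g 16) (.pp [(1, 17413770000)]))))) (.add (.mul (.g 13)
 (.add (.mul (.g 8) (.add (.mul (.g 8) (.pp [(1, 116779080000)])) (.mul (.g 14) (.pp [(1,
 52677570000)])))) (.add (.mul (.g 13) (.mul (.g 14) (.pp [(1, 75977550000)]))) (.mul (.g 16) (.pp
 [(1, 20428320000)]))))) (.mul (.g 16) (.add (.mul (.g 7) (.add (.pp [(1, 7790310000)]) (.mul (.g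
 14) (.mul (.g 14) (.pp [(1, 1650000)]))))) (.mul (.g 9) (.mul (.g 15) (.pp [(1,
 11930704500)])))))))) (.add (.add (.mul (.g 0) (.pp [(1, 10000000000)])) (.add (.mul (.g 1) (.pp
 [(1, 33000000)])) (.mul (.g 3) (.pp [(1, 110000000000)])))) (.add (.mul (.g 5) (.pp [(1,
 110000000000)])) (.add (.mul (.g 9) (.mul (.g 15) (.mul (.g 15) (.pp [(1, 38463975)])))) (.mul (.g
 17) (.pp [(1, 110000000000)])))))) (.pp [(1, 6408260000), (2, 3400000), (3, 3254725), (4,
 2750000), (5, 3559700), (6, 3641000), (7, 3059430), (8, 3300000), (9, 2958780), (10, 3525104),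
 (12, 3850000), (14, 3093420), (15, 2956360), (16, 3300000), (18, 3436400), (20, 4040256), (21,
 3482820), (24, 3300000), (25, 2783000), (27, 3326268), (28, 3354120), (30, 3011536), (35,
 3551130), (36, 2970000), (40, 3204696), (42, 3456860), (45, 3421792), (49, 3408570), (50,
 3181200), (54, 3300000), (56, 3300000), (60, 3205752), (63, 3668478), (70, 3249576), (75,
 3548512), (81, 3300000), (84, 3080000), (90, 3457806), (98, 3391080), (100, 3128400), (105,
 3384876), (125, 3245000), (126, 3383600), (135, 3273732), (140, 3176712), (147, 3316632), (150,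
 3537600), (175, 3367320), (189, 3273732), (196, 3245880), (210, 3268232), (225, 2930928), (245,
 3355440), (250, 3300000), (294, 3203640), (315, 2755170), (343, 3168000), (350, 3424080), (375,
 3326928), (441, 3124242), (490, 3285216), (525, 3497472), (625, 3300000), (686, 3366000), (735,
 3323892), (875, 3453120), (1029, 3263348), (1225, 3321120), (1715, 3168000), (2401,
 3300000)])))))))))))
 (P_Op1 ++ xP_A_F8) = true := by decide +kernel

theorem t_A_T4b_TpB_b : chk Rbp gP_A_T4b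
 (.cut 1 [(2, -1), (3, 1)] (.add (.mul (.g 10) (.pp [(1, 1)])) (.mul (.g 4) (.pp [(1, 1)]))) (.rule
 1 (.cut 1 [(2, -1), (5, 1)] (.add (.mul (.g 10) (.pp [(1, 1)])) (.mul (.g 6) (.pp [(1, 1)])))
 (.rule 3 (.cut 1 [(1, 5), (3, -4)] (.add (.add (.mul (.g 4) (.pp [(1, 1)])) (.mul (.g 9) (.pp [(1,
 4)]))) (.add (.mul (.g 1) (.pp [(1, 4)])) (.mul (.g 8) (.pp [(1, 1)])))) (.rule 8 (.cut 1 [(1,
 -3), (5, 5)] (.add (.mul (.g 6) (.pp [(1, 2)])) (.add (.mul (.g 3) (.pp [(1, 2)])) (.mul (.g 14)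
 (.pp [(1, 3)])))) (.cut 5 [(1, 3), (5, -2)] (.add (.add (.mul (.g 7) (.pp [(1, 4)])) (.mul (.g 6)
 (.pp [(1, 14)]))) (.add (.mul (.g 12) (.pp [(1, 10)])) (.mul (.g 2) (.pp [(1, 1)])))) (.rule 12
 (.cut 1 [(1, 2), (2, 1), (3, -1), (5, -2)] (.add (.mul (.g 14) (.pp [(1, 2)])) (.mul (.g 8) (.pp
 [(1, 1)]))) (.cut 4 [(1, -1), (2, -2), (3, 2), (5, 2)] (.add (.mul (.g 9) (.pp [(1, 9)])) (.add
 (.mul (.g 0) (.pp [(1, 1)])) (.mul (.g 3) (.pp [(1, 2)])))) (.rule 20 (.leaf 3000000 (.add (.add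
 (.add (.add (.mul (.g 12) (.add (.add (.mul (.g 13) (.add (.mul (.g 17) (.add (.mul (.g 12) (.pp
 [(1, 1389270000)])) (.add (.mul (.g 13) (.pp [(1, 5673900000)])) (.mul (.g 22) (.pp [(1,
 745320000)]))))) (.mul (.g 13) (.mul (.g 16) (.pp [(1, 5189460000)]))))) (.add (.mul (.g 16) (.add
 (.pp [(1, 26676600000)]) (.mul (.g 16) (.add (.mul (.g 14) (.pp [(1, 5941830000)])) (.mul (.g 16)
 (.pp [(1, 446310000)])))))) (.mul (.g 20) (.add (.pp [(1, 53876010000)]) (.mul (.g 14) (.mul (.g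
 14) (.pp [(1, 1896690000)]))))))) (.add (.mul (.g 22) (.add (.pp [(1, 10144260000)]) (.mul (.g 12)
 (.pp [(1, 3117750000)])))) (.add (.mul (.g 17) (.mul (.pp [(1, 44601)]) (.sq [(1, 85), (2, 100),
 (3, 18), (5, 96)]))) (.mul (.g 23) (.mul (.pp [(1, 260538)]) (.sq [(1, -15), (2, 100), (3, -5),
 (5, 56)]))))))) (.add (.mul (.g 14) (.add (.add (.mul (.g 14) (.add (.mul (.g 19) (.add (.pp [(1,
 457294500)]) (.mul (.g 16) (.pp [(1, 112509000)])))) (.add (.mul (.g 20) (.add (.pp [(1,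
 18942270000)]) (.mul (.g 13) (.pp [(1, 830910000)])))) (.mul (.g 17) (.mul (.g 22) (.pp [(1,
 1836930000)])))))) (.mul (.g 17) (.add (.pp [(1, 14424570000)]) (.mul (.g 17) (.pp [(1,
 38560920000)]))))) (.add (.mul (.g 22) (.add (.mul (.pp [(1, 1747968)]) (.sq [(1, -13), (2, 46),
 (3, 50), (5, -5)])) (.mul (.g 13) (.mul (.g 13) (.pp [(1, 12885780000)]))))) (.add (.mul (.g 20)
 (.mul (.pp [(1, 169920)]) (.sq [(1, 14), (2, 50), (3, 9), (5, 38)]))) (.mul (.g 23) (.pp [(1,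
 63333450000)])))))) (.mul (.g 13) (.add (.mul (.g 13) (.mul (.g 13) (.add (.mul (.g 16) (.pp [(1,
 2640210000)])) (.add (.mul (.g 17) (.pp [(1, 4875630000)])) (.mul (.g 23) (.pp [(1,
 8430360000)])))))) (.add (.mul (.g 17) (.pp [(1, 35988180000)])) (.mul (.g 23) (.pp [(1,
 17784000000)]))))))) (.add (.mul (.g 16) (.add (.pp [(1, 21459570000)]) (.add (.mul (.g 20) (.mul
 (.pp [(1, 172605)]) (.sq [(1, -36), (2, 100), (3, -44), (5, 7)]))) (.mul (.g 22) (.mul (.pp [(1,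
 160275)]) (.sq [(1, 73), (2, 83), (3, 24), (5, 100)])))))) (.add (.mul (.g 0) (.pp [(1,
 10000000000)])) (.mul (.g 3) (.pp [(1, 3000000)]))))) (.add (.add (.mul (.g 6) (.pp [(1,
 12000000)])) (.add (.mul (.g 8) (.pp [(1, 10000000000)])) (.mul (.g 10) (.pp [(1,
 10000000000)])))) (.add (.add (.mul (.g 17) (.mul (.g 23) (.mul (.pp [(1, 202101)]) (.sq [(2,
 100), (3, 64), (5, 27)])))) (.mul (.g 20) (.pp [(1, 59238240000)]))) (.add (.mul (.g 21) (.pp [(1,
 10000000000)])) (.mul (.g 22) (.mul (.g 22) (.mul (.pp [(1, 487533)]) (.sq [(1, -56), (2, 44), (3,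
 100), (5, -49)])))))))) (.pp [(1, 1257568067), (2, 284244), (3, 307341), (4, 288912), (5, 275808),
 (6, 342402), (8, 268525), (9, 279696), (10, 285963), (12, 323691), (15, 337080), (16, 300000),
 (18, 331734), (20, 246768), (24, 310875), (25, 320103), (27, 316896), (30, 255504), (36, 294588),
 (40, 280800), (45, 263184), (50, 297822), (54, 278724), (60, 317256), (75, 287487), (81, 300000),
 (90, 310902), (100, 324384), (125, 284413), (135, 307704), (150, 318048), (225, 316995), (250,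
 327858), (375, 302835), (625, 303891)])))))))))))))))
 (P_TpB ++ xP_A_T4b) = true := by decide +kernel

theorem t_A_T6_TpB_b : chk Rbp gP_A_T6
 (.split [(1, -17), (3, 25)]
 (.cut 1 [(2, 1), (3, -1)] (.add (.mul (.g 9) (.pp [(1, 1)])) (.mul (.g 6) (.pp [(1, 1)]))) (.rule
 0 (.cut 1 [(2, -1), (5, 1)] (.add (.mul (.g 11) (.pp [(1, 1)])) (.mul (.g 7) (.pp [(1, 1)])))
 (.rule 3 (.cut 1 [(1, 1), (3, -1)] (.add (.mul (.g 3) (.pp [(1, 1)])) (.mul (.g 9) (.pp [(1,
 1)]))) (.rule 7 (.cut 4 [(1, -3), (5, 5)] (.add (.add (.mul (.g 5) (.pp [(1, 20)])) (.mul (.g 6)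
 (.pp [(1, 1)]))) (.add (.mul (.g 1) (.pp [(1, 5)])) (.mul (.g 3) (.pp [(1, 20)])))) (.cut 8 [(1,
 3), (5, -2)] (.add (.add (.mul (.g 13) (.pp [(1, 16)])) (.mul (.g 7) (.pp [(1, 1)]))) (.add (.mul
 (.g 12) (.pp [(1, 16)])) (.mul (.g 2) (.pp [(1, 9)])))) (.rule 12 (.rule 25 (.leaf 1650000000
 (.add (.add (.add (.add (.mul (.g 14) (.add (.add (.mul (.g 14) (.add (.add (.pp [(1,
 648120000000)]) (.mul (.g 10) (.add (.mul (.g 10) (.pp [(1, 4971093600)])) (.add (.mul (.g 16)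
 (.pp [(1, 299269740000)])) (.mul (.g 19) (.pp [(1, 101849880000)])))))) (.add (.mul (.g 13) (.add
 (.mul (.g 18) (.pp [(1, 24674925000)])) (.mul (.g 19) (.pp [(1, 596887500000)])))) (.add (.mul (.g
 14) (.add (.mul (.g 14) (.pp [(1, 382651500000)])) (.mul (.g 17) (.pp [(1, 289822500000)]))))
 (.mul (.g 12) (.mul (.g 18) (.pp [(1, 370536375000)]))))))) (.add (.mul (.g 12) (.add (.mul (.pp
 [(1, 20275200)]) (.sq [(1, 84), (2, 83), (3, 43), (5, -70), (7, -100)])) (.add (.mul (.g 21) (.add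
 (.mul (.g 12) (.pp [(1, 155298000000)])) (.add (.mul (.g 13) (.pp [(1, 1678627500000)])) (.mul (.g
 17) (.pp [(1, 620845500000)]))))) (.mul (.g 19) (.add (.mul (.g 11) (.pp [(1, 2492094000000)]))
 (.mul (.g 15) (.pp [(1, 1410156000000)]))))))) (.mul (.g 10) (.add (.add (.mul (.pp [(1,
 3373524)]) (.sq [(1, 62), (2, 81), (3, -13), (5, -73), (7, -100)])) (.mul (.g 10) (.pp [(1,
 2222088000)]))) (.add (.mul (.g 13) (.mul (.g 17) (.pp [(1, 28592520000)]))) (.mul (.g 15) (.mul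
 (.g 19) (.pp [(1, 26101680000)])))))))) (.add (.add (.mul (.g 13) (.add (.mul (.g 15) (.mul (.g
 16) (.pp [(1, 4837618500000)]))) (.add (.mul (.g 17) (.mul (.g 19) (.pp [(1, 665758500000)])))
 (.mul (.g 21) (.mul (.g 21) (.pp [(1, 663316500000)])))))) (.mul (.g 11) (.add (.mul (.g 15) (.pp
 [(1, 5822305500000)])) (.mul (.g 17) (.mul (.g 21) (.pp [(1, 365607000000)])))))) (.add (.mul (.g
 19) (.add (.pp [(1, 1195771500000)]) (.mul (.g 15) (.mul (.g 17) (.pp [(1, 4598187000000)])))))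
 (.mul (.g 21) (.mul (.pp [(1, 58347300)]) (.sq [(1, 100), (2, 81), (3, 81), (5, 81), (7,
 81)]))))))) (.add (.mul (.g 19) (.add (.add (.mul (.g 13) (.add (.add (.mul (.g 11) (.mul (.g 21)
 (.pp [(1, 146685000000)]))) (.mul (.g 12) (.mul (.g 17) (.pp [(1, 4644255000000)])))) (.add (.mul
 (.g 13) (.pp [(1, 4372582500000)])) (.mul (.g 16) (.mul (.g 18) (.pp [(1, 19121025000)]))))))
 (.add (.mul (.g 19) (.add (.add (.pp [(1, 809919000000)]) (.mul (.pp [(1, 13394700)]) (.sq [(1,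
 -23), (2, -100), (3, 49), (7, 93)]))) (.add (.mul (.g 12) (.mul (.g 12) (.pp [(1,
 2997753000000)]))) (.mul (.g 16) (.mul (.g 17) (.pp [(1, 1247482500000)])))))) (.mul (.g 15) (.add
 (.mul (.pp [(1, 112992000)]) (.sq [(1, -4), (2, 50), (3, 26), (5, 26), (7, -19)])) (.add (.mul (.g
 10) (.mul (.g 12) (.pp [(1, 14204520000)]))) (.mul (.g 11) (.pp [(1, 3235617000000)]))))))) (.add
 (.mul (.g 16) (.add (.pp [(1, 1621455000000)]) (.mul (.g 10) (.mul (.g 17) (.pp [(1,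
 86534580000)]))))) (.add (.mul (.g 18) (.mul (.pp [(1, 8148690)]) (.sq [(1, 47), (2, 30), (3, 11),
 (5, 100), (7, 8)]))) (.mul (.g 21) (.pp [(1, 3517222500000)])))))) (.mul (.g 11) (.add (.add (.mul
 (.g 10) (.add (.mul (.pp [(1, 2873772)]) (.sq [(2, 100), (3, -61), (5, 79), (7, 46)])) (.mul (.g
 12) (.add (.mul (.g 11) (.pp [(1, 68021580000)])) (.mul (.g 13) (.pp [(1, 27145140000)]))))))
 (.mul (.g 16) (.add (.pp [(1, 1107678000000)]) (.add (.mul (.pp [(1, 64615650)]) (.sq [(1, 100),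
 (2, 94), (3, 97), (5, 97), (7, 20)])) (.mul (.g 11) (.mul (.g 11) (.pp [(1, 309028500000)])))))))
 (.add (.mul (.g 15) (.add (.mul (.pp [(1, 88014300)]) (.sq [(1, -47), (2, 100), (3, 54), (5, 54),
 (7, -10)])) (.mul (.g 13) (.mul (.g 15) (.pp [(1, 2805066000000)]))))) (.mul (.g 21) (.add (.pp
 [(1, 707883000000)]) (.mul (.g 11) (.mul (.g 11) (.pp [(1, 419149500000)])))))))))) (.add (.add
 (.mul (.g 13) (.add (.add (.mul (.g 10) (.add (.mul (.g 12) (.mul (.g 12) (.pp [(1,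
 82980480000)]))) (.mul (.g 16) (.mul (.g 18) (.pp [(1, 546876000)]))))) (.mul (.g 13) (.add (.mul
 (.g 12) (.mul (.g 21) (.pp [(1, 1544614500000)]))) (.mul (.g 13) (.mul (.g 15) (.pp [(1,
 199848000000)])))))) (.add (.mul (.g 15) (.mul (.g 17) (.mul (.g 17) (.pp [(1, 1723870500000)]))))
 (.add (.mul (.g 16) (.pp [(1, 4796022000000)])) (.mul (.g 21) (.pp [(1, 377470500000)])))))) (.mul
 (.g 12) (.add (.mul (.g 16) (.add (.pp [(1, 41893500000)]) (.mul (.pp [(1, 146912700)]) (.sq [(1,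
 -31), (2, -49), (3, -32), (5, -8), (7, 100)])))) (.add (.mul (.g 10) (.mul (.g 12) (.mul (.g 12)
 (.pp [(1, 23562000000)])))) (.mul (.g 15) (.mul (.g 21) (.mul (.g 21) (.pp [(1,
 110104500000)])))))))) (.add (.mul (.g 21) (.add (.mul (.g 15) (.mul (.pp [(1, 216909000000)])
 (.sq [(1, -2), (3, 1), (5, 1), (7, 2)]))) (.add (.mul (.g 18) (.mul (.pp [(1, 4633365)]) (.sq [(1,
 -38), (3, -60), (5, 100), (7, 45)]))) (.mul (.g 21) (.pp [(1, 2671251000000)]))))) (.mul (.g 10)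
 (.mul (.g 10) (.add (.pp [(1, 5283722400)]) (.mul (.g 16) (.mul (.g 17) (.pp [(1,
 168273600)]))))))))) (.add (.add (.add (.mul (.g 0) (.pp [(1, 500000000000)])) (.mul (.g 1) (.pp
 [(1, 1650000000)]))) (.add (.mul (.g 4) (.pp [(1, 13200000000)])) (.mul (.g 6) (.pp [(1,
 5500000000000)])))) (.add (.add (.mul (.g 8) (.pp [(1, 5500000000000)])) (.mul (.g 15) (.mul (.g
 15) (.pp [(1, 3056377500000)])))) (.add (.mul (.g 16) (.mul (.g 16) (.mul (.g 17) (.pp [(1,
 3695208000000)])))) (.mul (.g 20) (.pp [(1, 5500000000000)])))))) (.pp [(1, 259031407750), (2,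
 149754500), (3, 186404620), (4, 161514100), (5, 190010090), (6, 183399700), (7, 173844792), (8,
 169296600), (9, 142120990), (10, 205143400), (12, 186413700), (14, 200684352), (15, 122503040),
 (16, 170616600), (18, 151012554), (20, 185174000), (21, 170024844), (24, 164937300), (25,
 125739900), (27, 178043800), (28, 165525888), (30, 102859988), (35, 180473304), (36, 163166850),
 (40, 156750000), (42, 166485264), (45, 198043010), (49, 174208485), (50, 122389234), (54,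
 166852950), (56, 166056000), (60, 168966600), (63, 144815352), (70, 165915024), (75, 232034000),
 (81, 161884800), (84, 159086400), (90, 157111350), (98, 148709484), (100, 172621350), (105,
 143568744), (125, 198363000), (126, 147325200), (135, 165257400), (140, 164802000), (147,
 155501775), (150, 160916250), (175, 174375432), (189, 175731600), (196, 164805300), (210,
 142665600), (225, 149750700), (245, 154214940), (250, 158942850), (294, 138939900), (315,
 171732000), (343, 151627575), (350, 174702000), (375, 148552800), (441, 138428400), (490,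
 163765800), (525, 163435800), (625, 165000000), (686, 168488100), (735, 138220500), (875,
 156420000), (1029, 145688400), (1225, 155251800), (1715, 145553100), (2401,
 165135300)])))))))))))))
 (.split [(1, -3), (5, 2)]
 (.cut 59 [(2, 1), (3, -1)] (.add (.add (.mul (.g 2) (.pp [(1, 25)])) (.mul (.g 7) (.pp [(1,
 34)]))) (.add (.mul (.g 0) (.pp [(1, 17)])) (.mul (.g 1) (.pp [(1, 1)])))) (.rule 0 (.cut 34 [(2,
 -1), (5, 1)] (.add (.add (.mul (.g 8) (.pp [(1, 34)])) (.mul (.g 5) (.pp [(1, 25)]))) (.add (.mul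
 (.g 2) (.pp [(1, 17)])) (.mul (.g 3) (.pp [(1, 1)])))) (.rule 3 (.rule 13 (.cut 1 [(1, -2), (2,
 -1), (3, 1), (5, 2)] (.add (.mul (.g 11) (.pp [(1, 1)])) (.add (.mul (.g 8) (.pp [(1, 1)])) (.mul
 (.g 5) (.pp [(1, 1)])))) (.cut 1 [(1, -1), (2, -2), (3, 2), (5, 2)] (.add (.mul (.g 9) (.pp [(1,
 1)])) (.add (.mul (.g 12) (.pp [(1, 1)])) (.mul (.g 0) (.pp [(1, 1)])))) (.rule 18 (.leaf
 300000000 (.add (.add (.add (.add (.mul (.g 13) (.add (.add (.add (.mul (.g 11) (.add (.add (.mul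
 (.g 10) (.add (.add (.mul (.g 8) (.pp [(1, 217962000000)])) (.mul (.g 14) (.pp [(1,
 151179000000)]))) (.add (.mul (.g 15) (.pp [(1, 949047000000)])) (.mul (.g 16) (.pp [(1,
 1010643000000)]))))) (.mul (.g 12) (.add (.pp [(1, 15414000000)]) (.add (.mul (.g 11) (.pp [(1,
 2115000000)])) (.mul (.g 13) (.pp [(1, 60876000000)])))))) (.add (.mul (.g 13) (.add (.pp [(1,
 363222000000)]) (.mul (.g 14) (.pp [(1, 293346000000)])))) (.add (.mul (.g 8) (.mul (.g 14) (.pp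
 [(1, 127789000000)]))) (.mul (.g 11) (.pp [(1, 537597000000)])))))) (.mul (.g 13) (.add (.add (.pp
 [(1, 151797000000)]) (.mul (.g 12) (.add (.mul (.g 14) (.pp [(1, 219162000000)])) (.mul (.g 15)
 (.pp [(1, 27882000000)]))))) (.add (.mul (.g 13) (.add (.mul (.g 8) (.pp [(1, 3606000000)])) (.mul
 (.g 17) (.pp [(1, 886200000)])))) (.add (.mul (.g 10) (.mul (.g 17) (.pp [(1, 18200700000)])))
 (.mul (.g 14) (.mul (.g 14) (.pp [(1, 219693000000)])))))))) (.add (.mul (.g 8) (.add (.pp [(1,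
 2549000000)]) (.mul (.g 12) (.add (.mul (.g 9) (.pp [(1, 1521760000)])) (.mul (.g 15) (.pp [(1,
 732000000)])))))) (.mul (.g 10) (.add (.mul (.g 14) (.mul (.g 14) (.pp [(1, 809106000000)])))
 (.mul (.g 20) (.pp [(1, 286191000000)])))))) (.add (.add (.mul (.g 14) (.mul (.g 17) (.mul (.g 17)
 (.pp [(1, 73177500)])))) (.mul (.g 15) (.pp [(1, 89454000000)]))) (.add (.mul (.g 16) (.mul (.g
 18) (.pp [(1, 132057000000)]))) (.mul (.g 20) (.mul (.pp [(1, 3618600)]) (.sq [(1, 100), (2, 81),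
 (3, 81), (5, 81), (7, 81)]))))))) (.add (.mul (.g 11) (.add (.add (.mul (.g 11) (.add (.add (.pp
 [(1, 476652000000)]) (.mul (.g 11) (.add (.add (.mul (.g 9) (.pp [(1, 13626720000)])) (.mul (.g
 14) (.pp [(1, 714456000000)]))) (.add (.mul (.g 15) (.pp [(1, 626109000000)])) (.mul (.g 20) (.pp
 [(1, 45474000000)])))))) (.add (.mul (.g 9) (.mul (.g 9) (.pp [(1, 1549857600)]))) (.mul (.g 10)
 (.mul (.g 10) (.pp [(1, 817998000000)])))))) (.mul (.g 12) (.add (.mul (.g 9) (.add (.mul (.g 9)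
 (.pp [(1, 945542400)])) (.add (.mul (.g 12) (.pp [(1, 2466360000)])) (.mul (.g 14) (.pp [(1,
 32562360000)]))))) (.mul (.g 15) (.pp [(1, 104514000000)]))))) (.add (.mul (.g 8) (.add (.pp [(1,
 605643000000)]) (.mul (.g 10) (.mul (.g 16) (.pp [(1, 35583000000)]))))) (.add (.mul (.g 10) (.mul
 (.g 10) (.mul (.g 15) (.pp [(1, 716970000000)])))) (.mul (.g 14) (.pp [(1, 589149000000)]))))))
 (.mul (.g 12) (.add (.add (.mul (.g 10) (.add (.mul (.g 17) (.add (.pp [(1, 30629700000)]) (.mul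
 (.g 9) (.pp [(1, 1650144000)])))) (.add (.mul (.g 12) (.mul (.g 20) (.pp [(1, 22203000000)])))
 (.mul (.g 14) (.mul (.g 16) (.pp [(1, 174399000000)])))))) (.mul (.g 14) (.add (.pp [(1,
 379734000000)]) (.mul (.g 9) (.add (.mul (.g 12) (.pp [(1, 4975080000)])) (.mul (.g 18) (.pp [(1,
 27382440000)]))))))) (.add (.mul (.g 15) (.add (.mul (.pp [(1, 200400)]) (.sq [(1, 2), (2, -12),
 (3, -20), (5, -49), (7, 100)])) (.mul (.g 17) (.pp [(1, 47014950000)])))) (.mul (.g 8) (.pp [(1,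
 535184000000)]))))))) (.add (.mul (.g 20) (.add (.add (.mul (.pp [(1, 50872800)]) (.sq [(2, 39),
 (3, 50), (5, 39), (7, 50)])) (.mul (.g 20) (.add (.add (.pp [(1, 68172000000)]) (.mul (.pp [(1,
 1888200)]) (.sq [(1, 52), (2, 26), (3, 100), (5, -9), (7, -66)]))) (.add (.mul (.pp [(1,
 45789000000)]) (.sq [(2, 1), (5, -1)])) (.mul (.pp [(1, 5119200)]) (.sq [(1, -100), (2, 36), (3,
 55), (5, 36), (7, 55)])))))) (.add (.mul (.g 14) (.add (.pp [(1, 507825000000)]) (.mul (.pp [(1,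
 7282200)]) (.sq [(1, -22), (2, 100), (3, -75), (5, -45), (7, 84)])))) (.mul (.g 10) (.mul (.g 10)
 (.mul (.g 10) (.pp [(1, 808920000000)]))))))) (.add (.mul (.g 15) (.add (.mul (.g 10) (.add (.pp
 [(1, 1367283000000)]) (.mul (.g 8) (.mul (.g 17) (.pp [(1, 1472250000)]))))) (.add (.mul (.g 15)
 (.add (.pp [(1, 1668435000000)]) (.mul (.pp [(1, 7642800)]) (.sq [(1, -18), (2, 50), (3, 26), (5,
 5), (7, -11)])))) (.mul (.g 14) (.mul (.pp [(1, 5916300)]) (.sq [(1, 8), (2, 72), (3, -19), (5,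
 100), (7, 39)])))))) (.mul (.g 17) (.add (.mul (.g 17) (.add (.mul (.pp [(1, 2889)]) (.sq [(1,
 -26), (2, 100), (3, 59), (5, -15), (7, -9)])) (.mul (.g 10) (.pp [(1, 596055000)])))) (.mul (.g
 14) (.pp [(1, 53752500000)]))))))) (.add (.add (.mul (.g 0) (.pp [(1, 1000000000000)])) (.add
 (.mul (.g 3) (.pp [(1, 30000000000)])) (.mul (.g 4) (.pp [(1, 1000000000000)])))) (.add (.add
 (.mul (.g 6) (.pp [(1, 1000000000000)])) (.mul (.g 8) (.mul (.g 16) (.pp [(1, 573929000000)]))))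
 (.add (.mul (.g 10) (.mul (.g 14) (.mul (.pp [(1, 5400)]) (.sq [(1, 61), (2, 67), (3, -88), (5,
 100), (7, 72)])))) (.mul (.g 19) (.pp [(1, 1000000000000)])))))) (.pp [(1, 314405121916), (2,
 32721360), (3, 23030652), (4, 27577800), (5, 28409220), (6, 30960120), (7, 27572688), (8,
 32236600), (9, 34851051), (10, 27235000), (12, 30780000), (14, 21262980), (15, 31219610), (16,
 31339800), (18, 27330960), (19, 3000000000000), (20, 34279200), (21, 36556878), (24, 25867200),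
 (25, 29007175), (27, 27445740), (28, 31215000), (30, 30540000), (35, 25037090), (36, 32235900),
 (40, 30523200), (42, 32870880), (45, 30850740), (49, 28158171), (50, 26482800), (54, 29161500),
 (56, 28200000), (60, 26966400), (63, 29773320), (70, 31800000), (75, 28932000), (81, 33243600),
 (84, 29144400), (90, 29513700), (98, 38657160), (100, 29587200), (105, 34183720), (125, 32046200),
 (126, 35799600), (135, 31819200), (140, 32095200), (147, 29875140), (150, 31595400), (175,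
 30609200), (189, 32483400), (196, 30071700), (210, 27800600), (225, 31828200), (245, 29054340),
 (250, 29070000), (294, 34996500), (315, 31465200), (343, 31651800), (350, 29133000), (375,
 30068400), (441, 34522200), (490, 29484900), (525, 31580600), (625, 30080400), (686, 32336400),
 (735, 36074400), (875, 28776000), (1029, 32825400), (1225, 32824800), (1715, 32055600), (2401,
 31055400)])))))))))))
 (.cut 1 [(2, 1), (3, -1)] (.add (.mul (.g 7) (.pp [(1, 1)])) (.mul (.g 10) (.pp [(1, 1)]))) (.rule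
 0 (.cut 1 [(2, -1), (5, 1)] (.add (.mul (.g 12) (.pp [(1, 1)])) (.mul (.g 8) (.pp [(1, 1)])))
 (.rule 3 (.cut 11 [(1, -3), (5, 5)] (.add (.mul (.g 13) (.pp [(1, 2)])) (.add (.mul (.g 3) (.pp
 [(1, 40)])) (.mul (.g 14) (.pp [(1, 15)])))) (.rule 12 (.rule 25 (.leaf 825000000 (.add (.add
 (.add (.add (.mul (.g 10) (.add (.add (.mul (.g 19) (.add (.add (.mul (.g 13) (.add (.mul (.g 10)
 (.pp [(1, 122166000000)])) (.add (.mul (.g 11) (.pp [(1, 7598250000)])) (.mul (.g 13) (.pp [(1,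
 644803500000)]))))) (.add (.mul (.g 8) (.add (.mul (.g 8) (.pp [(1, 2230800)])) (.mul (.g 17) (.pp
 [(1, 835890000)])))) (.mul (.g 7) (.mul (.g 11) (.pp [(1, 18623000000)]))))) (.add (.mul (.g 9)
 (.mul (.g 17) (.pp [(1, 46777500000)]))) (.add (.mul (.g 12) (.mul (.g 12) (.pp [(1,
 1411278000000)]))) (.mul (.g 19) (.pp [(1, 51818250000)])))))) (.add (.mul (.g 10) (.add (.add
 (.mul (.g 10) (.add (.mul (.g 9) (.pp [(1, 77929500000)])) (.mul (.g 10) (.pp [(1,
 393434250000)])))) (.mul (.g 12) (.add (.mul (.g 12) (.pp [(1, 1270500000)])) (.mul (.g 17) (.pp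
 [(1, 8357250000)]))))) (.add (.mul (.g 8) (.mul (.g 8) (.pp [(1, 861181200)]))) (.add (.mul (.g
 13) (.mul (.g 13) (.pp [(1, 1156996500000)]))) (.mul (.g 17) (.mul (.g 17) (.pp [(1,
 920254500000)]))))))) (.mul (.g 9) (.add (.mul (.g 9) (.add (.mul (.g 8) (.pp [(1, 24681690000)]))
 (.add (.mul (.g 9) (.pp [(1, 153656250000)])) (.mul (.g 14) (.pp [(1, 1770062250000)]))))) (.add
 (.mul (.g 7) (.mul (.g 12) (.pp [(1, 58737250000)]))) (.mul (.g 13) (.mul (.g 14) (.pp [(1,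
 236948250000)])))))))) (.add (.add (.mul (.g 11) (.add (.mul (.g 17) (.add (.mul (.g 11) (.pp [(1,
 2263981500000)])) (.mul (.g 15) (.pp [(1, 4110942000000)])))) (.mul (.g 12) (.mul (.g 12) (.pp
 [(1, 8043750000)]))))) (.mul (.g 13) (.add (.mul (.g 12) (.mul (.g 12) (.pp [(1, 525137250000)])))
 (.mul (.g 13) (.mul (.g 13) (.pp [(1, 246254250000)])))))) (.add (.mul (.g 8) (.mul (.g 8) (.mul
 (.g 8) (.pp [(1, 59733696)])))) (.mul (.g 14) (.pp [(1, 3379827000000)])))))) (.add (.mul (.g 9)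
 (.add (.add (.mul (.g 12) (.add (.add (.mul (.g 19) (.add (.add (.pp [(1, 936292500000)]) (.mul
 (.g 11) (.pp [(1, 898845750000)]))) (.add (.mul (.g 12) (.pp [(1, 165000000)])) (.mul (.g 13) (.pp
 [(1, 523701750000)]))))) (.mul (.g 16) (.add (.mul (.g 12) (.pp [(1, 26966362500)])) (.mul (.g 14)
 (.pp [(1, 2322375000)]))))) (.add (.mul (.g 9) (.mul (.g 17) (.pp [(1, 840402750000)]))) (.mul (.g
 13) (.pp [(1, 4323519750000)]))))) (.mul (.g 8) (.add (.mul (.g 9) (.mul (.g 14) (.pp [(1,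
 15139740000)]))) (.add (.mul (.g 11) (.mul (.g 19) (.pp [(1, 45834690000)]))) (.mul (.g 13) (.mul
 (.g 16) (.pp [(1, 3304504500)]))))))) (.add (.mul (.g 9) (.add (.mul (.g 11) (.mul (.g 19) (.pp
 [(1, 840939000000)]))) (.mul (.g 14) (.mul (.g 15) (.pp [(1, 206126250000)]))))) (.add (.mul (.g
 17) (.add (.pp [(1, 303063750000)]) (.mul (.g 13) (.pp [(1, 1981254000000)])))) (.mul (.g 14)
 (.mul (.pp [(1, 23318625)]) (.sq [(1, 100), (2, 94), (3, 97), (5, 97), (7, 20)]))))))) (.mul (.g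
 11) (.add (.add (.mul (.g 17) (.add (.mul (.g 8) (.add (.mul (.g 11) (.pp [(1, 53214480000)]))
 (.add (.mul (.g 15) (.pp [(1, 56956020000)])) (.mul (.g 16) (.pp [(1, 5539858500)]))))) (.add
 (.mul (.g 11) (.mul (.g 16) (.pp [(1, 42528337500)]))) (.mul (.g 12) (.mul (.g 19) (.pp [(1,
 6591750000)])))))) (.mul (.g 14) (.add (.pp [(1, 50721000000)]) (.mul (.g 7) (.mul (.g 14) (.pp
 [(1, 425326000000)])))))) (.add (.mul (.g 13) (.mul (.g 15) (.mul (.g 15) (.pp [(1,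
 631364250000)])))) (.add (.mul (.g 16) (.mul (.g 16) (.pp [(1, 1226754375)]))) (.mul (.g 19) (.pp
 [(1, 255750000)])))))))) (.add (.mul (.g 12) (.mul (.g 12) (.add (.add (.mul (.g 12) (.add (.mul
 (.g 14) (.pp [(1, 313500000)])) (.mul (.g 19) (.pp [(1, 82500000)])))) (.mul (.g 13) (.add (.pp
 [(1, 1110804750000)]) (.mul (.g 7) (.pp [(1, 184159250000)]))))) (.add (.mul (.g 8) (.mul (.g 19)
 (.pp [(1, 56454420000)]))) (.add (.mul (.g 16) (.pp [(1, 19031100000)])) (.mul (.g 17) (.mul (.g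
 17) (.pp [(1, 13200000000)])))))))) (.add (.mul (.g 19) (.add (.add (.pp [(1, 772175250000)])
 (.mul (.g 8) (.pp [(1, 29359770000)]))) (.add (.mul (.g 13) (.pp [(1, 724457250000)])) (.add (.mul
 (.g 14) (.mul (.pp [(1, 4776750)]) (.sq [(1, -14), (2, 93), (3, 25), (5, 100), (7, -7)]))) (.mul
 (.g 15) (.mul (.g 15) (.mul (.g 17) (.pp [(1, 47850000000)])))))))) (.mul (.g 13) (.add (.mul (.g
 13) (.pp [(1, 188083500000)])) (.mul (.g 17) (.mul (.pp [(1, 18150)]) (.sq [(1, -8), (2, 100), (3,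
 52), (5, 52), (7, -39)])))))))) (.add (.add (.mul (.g 14) (.add (.mul (.g 14) (.mul (.g 15) (.pp
 [(1, 1627320750000)]))) (.mul (.g 17) (.pp [(1, 2254923000000)])))) (.add (.mul (.g 0) (.pp [(1,
 250000000000)])) (.mul (.g 1) (.pp [(1, 825000000)])))) (.add (.mul (.g 3) (.pp [(1,
 2750000000000)])) (.add (.mul (.g 5) (.pp [(1, 2750000000000)])) (.mul (.g 18) (.pp [(1,
 2750000000000)])))))) (.pp [(1, 242555828600), (2, 85900900), (3, 90980552), (4, 104447750), (5,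
 82925725), (6, 86259800), (7, 84915600), (8, 85758750), (9, 67161050), (10, 69865400), (12,
 65439000), (14, 83400900), (15, 92075500), (16, 82879500), (18, 97793025), (19, 8250000000000),
 (20, 77250250), (21, 71085300), (24, 96285750), (25, 90556400), (27, 90942500), (28, 81947250),
 (30, 116223250), (35, 75108000), (36, 75029625), (40, 98175000), (42, 97244400), (45, 62146150),
 (49, 77048400), (50, 95223975), (54, 83023875), (56, 83580750), (60, 70455000), (63, 87045750),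
 (70, 99280500), (75, 63352300), (81, 75281250), (84, 86963250), (90, 64467975), (98, 83810100),
 (100, 72012875), (105, 78615900), (125, 71069900), (126, 78812250), (135, 83531250), (140,
 84884250), (147, 90156000), (150, 69683075), (175, 86816400), (189, 80643750), (196, 78721500),
 (210, 62354600), (225, 88000000), (245, 87511600), (250, 81020225), (294, 83976750), (315,
 85593750), (343, 88200750), (350, 70098600), (375, 88000000), (441, 84801750), (490, 86934650),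
 (525, 81950000), (625, 85250000), (686, 85560750), (735, 81501750), (875, 82500000), (1029,
 79439250), (1225, 79200000), (1715, 79439250), (2401, 82500000)]))))))))))))
 (P_TpB ++ xP_A_T6) = true := by decide +kernel

theorem t_G_F1_free : chk RFp gP_G_F1
 (.split [(1, 1), (2, -20)]
 (.rule 4 (.leaf 6000 (.add (.add (.mul (.g 2) (.add (.add (.mul (.g 4) (.add (.add (.mul (.g 1)
 (.add (.add (.pp [(1, 2081667)]) (.mul (.g 2) (.pp [(1, 30)]))) (.add (.mul (.g 3) (.pp [(1,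
 30)])) (.add (.mul (.g 4) (.pp [(1, 75417)])) (.mul (.g 5) (.pp [(1, 30)])))))) (.mul (.g 4) (.add
 (.add (.pp [(1, 32964840)]) (.mul (.g 4) (.pp [(1, 8278260)]))) (.add (.mul (.g 5) (.pp [(1,
 16718520)])) (.mul (.g 9) (.pp [(1, 75387)])))))) (.add (.mul (.g 5) (.add (.pp [(1, 17965500)])
 (.mul (.g 11) (.pp [(1, 19895400)])))) (.add (.mul (.g 3) (.mul (.g 3) (.pp [(1, 600)]))) (.mul
 (.g 9) (.pp [(1, 2849178)])))))) (.add (.mul (.g 3) (.add (.add (.mul (.g 1) (.add (.add (.pp [(1,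
 108)]) (.mul (.g 2) (.pp [(1, 30)]))) (.add (.mul (.g 3) (.pp [(1, 60)])) (.mul (.g 5) (.pp [(1,
 30)]))))) (.mul (.g 11) (.add (.pp [(1, 1200)]) (.add (.mul (.g 3) (.pp [(1, 600)])) (.mul (.g 5)
 (.pp [(1, 600)])))))) (.add (.mul (.g 9) (.add (.pp [(1, 75)]) (.mul (.g 3) (.pp [(1, 30)]))))
 (.mul (.g 12) (.mul (.g 12) (.pp [(1, 1507140)])))))) (.mul (.g 2) (.add (.mul (.g 1) (.add (.pp
 [(1, 340788)]) (.mul (.g 2) (.pp [(1, 29130)])))) (.add (.mul (.g 5) (.add (.mul (.g 2) (.pp [(1,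
 9947400)])) (.mul (.g 5) (.pp [(1, 32159400)])))) (.mul (.g 11) (.pp [(1, 15350820)]))))))) (.add
 (.mul (.g 11) (.add (.mul (.g 5) (.add (.pp [(1, 34459800)]) (.mul (.g 11) (.pp [(1, 9947400)]))))
 (.mul (.g 12) (.add (.pp [(1, 2950920)]) (.mul (.g 12) (.pp [(1, 6771120)])))))) (.add (.mul (.g
 1) (.mul (.g 5) (.pp [(1, 1950189)]))) (.mul (.g 9) (.pp [(1, 75489)])))))) (.add (.mul (.g 0)
 (.pp [(1, 20000000)])) (.mul (.g 10) (.pp [(1, 20000000)])))) (.pp [(2, 596559), (4, 612), (6,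
 657), (8, 630), (10, 711), (12, 630), (14, 651), (16, 600), (18, 570), (20, 570), (24, 600), (28,
 600), (30, 510), (36, 600), (40, 600), (42, 570), (50, 540), (54, 600), (56, 600), (60, 600), (70,
 510), (84, 600), (90, 600), (98, 600), (100, 600), (126, 600), (140, 600), (150, 600), (196, 600),
 (210, 600), (250, 600), (294, 600), (350, 600), (490, 600), (686, 600)]))))
 (.split [(2, 1), (3, -1)]
 (.split [(2, 1), (5, -1)]
 (.rule 0 (.rule 2 (.leaf 3000000 (.add (.add (.add (.add (.mul (.g 14) (.add (.add (.mul (.g 8)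
 (.add (.add (.pp [(1, 24750000)]) (.mul (.g 5) (.add (.add (.pp [(1, 1128150000)]) (.mul (.g 7)
 (.pp [(1, 9097980000)]))) (.add (.mul (.g 9) (.pp [(1, 15090300000)])) (.mul (.g 14) (.pp [(1,
 4973100000)])))))) (.add (.mul (.g 8) (.add (.add (.mul (.g 8) (.pp [(1, 600000)])) (.mul (.g 9)
 (.pp [(1, 300000)]))) (.add (.mul (.g 11) (.pp [(1, 300000)])) (.mul (.g 14) (.pp [(1,
 300000)]))))) (.add (.mul (.g 6) (.mul (.g 9) (.pp [(1, 988800000)]))) (.mul (.g 7) (.pp [(1,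
 963930000)])))))) (.add (.mul (.g 6) (.add (.add (.mul (.g 7) (.add (.mul (.g 6) (.pp [(1,
 213120000)])) (.add (.mul (.g 7) (.pp [(1, 244800000)])) (.mul (.g 14) (.pp [(1, 114990000)])))))
 (.mul (.g 3) (.mul (.g 15) (.pp [(1, 15540000)])))) (.add (.mul (.g 4) (.pp [(1, 236728500)]))
 (.mul (.g 5) (.pp [(1, 1011000000)]))))) (.mul (.g 3) (.add (.pp [(1, 642000000)]) (.add (.mul (.g
 4) (.add (.pp [(1, 106108500)]) (.mul (.g 14) (.pp [(1, 85500)])))) (.mul (.g 3) (.mul (.g 3) (.pp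
 [(1, 10680000)])))))))) (.add (.add (.mul (.g 2) (.add (.pp [(1, 3184980000)]) (.mul (.g 5) (.mul
 (.g 11) (.pp [(1, 955080000)]))))) (.mul (.g 7) (.mul (.g 15) (.add (.pp [(1, 3560880000)]) (.mul
 (.g 15) (.pp [(1, 300000)])))))) (.add (.mul (.g 12) (.add (.mul (.g 4) (.pp [(1, 4325325)]))
 (.mul (.g 5) (.pp [(1, 107074500)])))) (.mul (.g 9) (.mul (.pp [(1, 382452)]) (.sq [(1, 7), (2,
 50), (3, 43), (5, -12)]))))))) (.mul (.g 9) (.add (.add (.mul (.g 7) (.add (.add (.mul (.g 6)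
 (.add (.mul (.g 5) (.pp [(1, 2004870000)])) (.add (.mul (.g 6) (.pp [(1, 414480000)])) (.mul (.g
 12) (.pp [(1, 230061000)]))))) (.mul (.g 4) (.add (.mul (.g 8) (.pp [(1, 486426000)])) (.mul (.g
 15) (.pp [(1, 64698000)]))))) (.add (.mul (.g 7) (.add (.pp [(1, 2867370000)]) (.mul (.g 7) (.pp
 [(1, 1075020000)])))) (.mul (.g 2) (.mul (.g 8) (.pp [(1, 2408100000)])))))) (.add (.mul (.g 4)
 (.add (.add (.mul (.g 4) (.pp [(1, 1704000)])) (.mul (.g 5) (.mul (.g 5) (.pp [(1, 14580000)]))))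
 (.add (.mul (.g 6) (.mul (.g 6) (.pp [(1, 15000)]))) (.mul (.g 8) (.mul (.g 9) (.pp [(1,
 64339500)])))))) (.mul (.g 6) (.add (.mul (.g 2) (.pp [(1, 65970000)])) (.add (.mul (.g 6) (.mul
 (.g 6) (.pp [(1, 600000)]))) (.mul (.g 8) (.mul (.g 11) (.pp [(1, 686370000)])))))))) (.add (.add
 (.mul (.g 3) (.add (.mul (.g 5) (.mul (.g 5) (.pp [(1, 973530000)]))) (.mul (.g 8) (.mul (.g 9)
 (.pp [(1, 1408230000)]))))) (.mul (.g 11) (.add (.pp [(1, 403680000)]) (.mul (.g 8) (.mul (.g 8)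
 (.pp [(1, 987960000)])))))) (.add (.mul (.g 2) (.mul (.g 9) (.mul (.g 12) (.pp [(1, 48691500)]))))
 (.mul (.g 15) (.mul (.pp [(1, 2946)]) (.sq [(1, -36), (2, 100), (3, 69), (5, 67), (7,
 -90)])))))))) (.add (.mul (.g 3) (.add (.add (.mul (.g 7) (.add (.pp [(1, 3145680000)]) (.add
 (.mul (.pp [(1, 11439)]) (.sq [(1, -44), (2, -39), (3, 31), (5, -67), (7, 100)])) (.mul (.g 8)
 (.add (.mul (.g 3) (.pp [(1, 310290000)])) (.mul (.g 7) (.pp [(1, 516990000)]))))))) (.mul (.g 6)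
 (.add (.pp [(1, 705930000)]) (.add (.mul (.g 3) (.pp [(1, 6931260000)])) (.mul (.g 6) (.mul (.g 6)
 (.pp [(1, 300000)]))))))) (.add (.mul (.g 11) (.add (.mul (.g 3) (.pp [(1, 3078540000)])) (.mul
 (.g 5) (.pp [(1, 4659720000)])))) (.mul (.g 4) (.pp [(1, 66450000)]))))) (.mul (.g 12) (.add (.mul
 (.g 7) (.add (.mul (.g 2) (.add (.mul (.g 6) (.pp [(1, 9042000)])) (.mul (.g 8) (.pp [(1,
 18909000)])))) (.add (.mul (.g 4) (.pp [(1, 33517650)])) (.mul (.g 5) (.mul (.g 6) (.pp [(1,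
 236697000)])))))) (.add (.mul (.g 8) (.add (.mul (.g 6) (.mul (.g 6) (.pp [(1, 549000)]))) (.mul
 (.g 8) (.mul (.g 11) (.pp [(1, 15000)]))))) (.mul (.g 2) (.mul (.g 11) (.pp [(1,
 77683500)])))))))) (.add (.add (.mul (.g 2) (.mul (.g 2) (.add (.mul (.g 2) (.mul (.g 8) (.pp [(1,
 378180000)]))) (.add (.mul (.g 7) (.pp [(1, 2617470000)])) (.mul (.g 11) (.pp [(1,
 1260090000)])))))) (.mul (.g 0) (.pp [(1, 10000000000)]))) (.add (.mul (.g 1) (.pp [(1,
 10000000000)])) (.mul (.g 13) (.pp [(1, 10000000000)]))))) (.pp [(1, 14665761), (2, 314964), (3,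
 297624), (4, 323700), (5, 287529), (6, 250476), (7, 311643), (8, 336500), (9, 305346), (10,
 274692), (12, 248400), (14, 268332), (15, 335028), (16, 300000), (18, 354654), (20, 203652), (21,
 312924), (24, 300000), (25, 325878), (27, 280000), (28, 275100), (30, 348516), (35, 319404), (36,
 300000), (40, 271281), (42, 328176), (45, 304062), (49, 287400), (50, 364278), (54, 300000), (56,
 270000), (60, 379821), (63, 302748), (70, 319896), (75, 255096), (81, 300000), (84, 356400), (90,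
 247965), (98, 293100), (100, 345786), (105, 296016), (125, 267682), (126, 276252), (135, 312879),
 (140, 324600), (147, 319500), (150, 239568), (175, 275328), (189, 300000), (196, 330000), (210,
 263784), (225, 302394), (245, 297600), (250, 292647), (294, 270000), (315, 271800), (343, 300000),
 (350, 268272), (375, 319671), (441, 300000), (490, 287400), (525, 347400), (625, 300000), (686,
 300000), (735, 300000), (875, 300000), (1029, 300000), (1225, 300000), (1715, 300000), (2401,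
 300000)])))))
 (.rule 0 (.rule 3 (.leaf 3000000 (.add (.add (.add (.add (.mul (.g 8) (.add (.add (.mul (.g 5)
 (.add (.add (.mul (.g 6) (.add (.add (.mul (.g 3) (.pp [(1, 61350000)])) (.mul (.g 6) (.pp [(1,
 145410000)]))) (.add (.mul (.g 7) (.pp [(1, 162570000)])) (.mul (.g 8) (.pp [(1, 3468810000)])))))
 (.mul (.g 14) (.add (.add (.pp [(1, 10314180000)]) (.mul (.g 7) (.pp [(1, 9911370000)]))) (.add
 (.mul (.g 9) (.pp [(1, 6532800000)])) (.mul (.g 14) (.pp [(1, 4986060000)])))))) (.add (.mul (.g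
 2) (.add (.pp [(1, 15432870000)]) (.add (.mul (.g 7) (.pp [(1, 4282290000)])) (.mul (.g 9) (.pp
 [(1, 2094030000)]))))) (.add (.mul (.g 3) (.mul (.g 8) (.pp [(1, 6152040000)]))) (.mul (.g 7)
 (.mul (.g 7) (.pp [(1, 247560000)]))))))) (.mul (.g 3) (.add (.add (.mul (.g 6) (.add (.mul (.g 7)
 (.pp [(1, 5160000)])) (.add (.mul (.g 8) (.pp [(1, 300000)])) (.mul (.g 15) (.pp [(1,
 4860000)]))))) (.mul (.g 8) (.add (.mul (.g 4) (.pp [(1, 172074000)])) (.mul (.g 8) (.pp [(1,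
 150000)]))))) (.add (.mul (.g 14) (.add (.pp [(1, 137010000)]) (.mul (.g 14) (.pp [(1,
 150000)])))) (.add (.mul (.g 2) (.pp [(1, 118380000)])) (.mul (.g 7) (.mul (.g 7) (.pp [(1,
 494640000)])))))))) (.add (.mul (.g 14) (.add (.add (.mul (.g 7) (.mul (.g 7) (.pp [(1,
 300000)]))) (.mul (.g 8) (.mul (.g 8) (.pp [(1, 300000)])))) (.add (.mul (.g 12) (.pp [(1,
 82500)])) (.mul (.g 14) (.pp [(1, 150000)]))))) (.add (.mul (.g 2) (.mul (.g 7) (.mul (.g 15) (.pp
 [(1, 490440000)])))) (.mul (.g 4) (.mul (.g 6) (.mul (.g 8) (.pp [(1, 309343500)])))))))) (.mul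
 (.g 6) (.add (.add (.mul (.g 6) (.add (.mul (.g 6) (.add (.add (.mul (.g 3) (.pp [(1, 300000)]))
 (.mul (.g 7) (.pp [(1, 7655670000)]))) (.add (.mul (.g 9) (.pp [(1, 15240000)])) (.add (.mul (.g
 14) (.pp [(1, 300000)])) (.mul (.g 15) (.pp [(1, 7874640000)])))))) (.mul (.g 4) (.add (.mul (.g
 4) (.pp [(1, 701775)])) (.mul (.g 7) (.pp [(1, 20863500)])))))) (.add (.mul (.g 7) (.add (.mul (.g
 2) (.add (.mul (.g 5) (.pp [(1, 1094100000)])) (.add (.mul (.g 12) (.pp [(1, 10963500)])) (.mul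
 (.g 15) (.pp [(1, 275520000)]))))) (.add (.mul (.g 3) (.mul (.g 12) (.pp [(1, 10948500)]))) (.mul
 (.g 9) (.mul (.g 15) (.pp [(1, 83370000)])))))) (.mul (.g 5) (.add (.mul (.g 5) (.mul (.g 9) (.pp
 [(1, 1477350000)]))) (.add (.mul (.g 12) (.pp [(1, 1254885000)])) (.mul (.g 15) (.mul (.g 15) (.pp
 [(1, 703890000)])))))))) (.add (.mul (.g 2) (.pp [(1, 1095180000)])) (.add (.mul (.g 3) (.mul (.g
 3) (.pp [(1, 2124150000)]))) (.mul (.g 12) (.pp [(1, 24385500)]))))))) (.add (.mul (.g 5) (.add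
 (.add (.mul (.g 12) (.add (.pp [(1, 101620500)]) (.add (.mul (.g 7) (.mul (.g 7) (.pp [(1,
 125010000)]))) (.mul (.g 11) (.pp [(1, 45052500)]))))) (.mul (.g 14) (.add (.pp [(1, 3509100000)])
 (.add (.mul (.pp [(1, 7905)]) (.sq [(1, 93), (2, 73), (3, 100), (5, 77), (7, 40)])) (.mul (.g 5)
 (.mul (.g 9) (.pp [(1, 2970240000)]))))))) (.add (.mul (.g 2) (.add (.mul (.g 2) (.mul (.g 5) (.pp
 [(1, 919380000)]))) (.mul (.g 7) (.mul (.g 7) (.pp [(1, 3085860000)]))))) (.mul (.g 3) (.pp [(1,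
 7240620000)]))))) (.add (.mul (.g 7) (.add (.mul (.g 7) (.add (.mul (.g 7) (.add (.mul (.g 9) (.pp
 [(1, 44610000)])) (.add (.mul (.g 14) (.pp [(1, 4080000)])) (.mul (.g 15) (.pp [(1,
 490740000)]))))) (.mul (.g 10) (.mul (.g 14) (.pp [(1, 494490000)]))))) (.add (.mul (.g 12) (.add
 (.pp [(1, 24627000)]) (.mul (.g 14) (.pp [(1, 196500)])))) (.mul (.g 2) (.mul (.g 11) (.pp [(1,
 446130000)])))))) (.mul (.g 3) (.add (.mul (.g 3) (.pp [(1, 400710000)])) (.add (.mul (.g 9) (.mul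
 (.pp [(1, 121068)]) (.sq [(1, 32), (2, 100), (3, -11), (5, 45), (7, 2)]))) (.mul (.g 14) (.pp [(1,
 149820000)])))))))) (.add (.add (.mul (.g 4) (.add (.mul (.g 2) (.pp [(1, 276543000)])) (.mul (.g
 12) (.pp [(1, 2835225)])))) (.mul (.g 14) (.add (.mul (.pp [(1, 750000)]) (.sq [(2, 1), (3, 1),
 (5, 1), (7, 1)])) (.mul (.g 12) (.pp [(1, 133500)]))))) (.add (.mul (.g 0) (.pp [(1,
 10000000000)])) (.add (.mul (.g 1) (.pp [(1, 10000000000)])) (.mul (.g 13) (.pp [(1,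
 10000000000)])))))) (.pp [(1, 24315525), (2, 302523), (3, 289632), (4, 316842), (5, 298500), (6,
 242940), (7, 309000), (8, 319455), (9, 316353), (10, 266595), (12, 249528), (14, 300441), (15,
 315840), (16, 300000), (18, 304044), (20, 289920), (21, 316704), (24, 320400), (25, 328500), (27,
 319228), (28, 308394), (30, 324480), (35, 291000), (36, 288828), (40, 257745), (42, 310488), (45,
 292680), (49, 292500), (50, 343965), (54, 290772), (56, 282945), (60, 343680), (63, 283008), (70,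
 321570), (75, 271200), (81, 300000), (84, 308808), (90, 307320), (98, 314928), (100, 310710),
 (105, 282240), (125, 240000), (126, 316992), (135, 300000), (140, 345450), (147, 293772), (150,
 324300), (175, 270000), (189, 300000), (196, 329472), (210, 314760), (225, 300000), (245, 300000),
 (250, 308745), (294, 295728), (315, 300000), (343, 300000), (350, 283545), (375, 300000), (441,
 300000), (490, 292800), (525, 300000), (625, 330000), (686, 288000), (735, 300000), (875, 330000),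
 (1029, 300000), (1225, 300000), (1715, 300000), (2401, 300000)]))))))
 (.split [(2, 1), (5, -1)]
 (.rule 1 (.rule 2 (.leaf 1200000000 (.add (.add (.add (.add (.mul (.g 14) (.add (.add (.mul (.g 8)
 (.add (.add (.mul (.g 14) (.add (.add (.pp [(1, 7020000000)]) (.mul (.g 2) (.pp [(1,
 1839204000000)]))) (.add (.mul (.g 7) (.pp [(1, 1839468000000)])) (.mul (.g 14) (.pp [(1,
 120000000)]))))) (.add (.mul (.g 5) (.add (.mul (.g 7) (.pp [(1, 3623784000000)])) (.mul (.g 9)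
 (.pp [(1, 6349404000000)])))) (.mul (.g 2) (.pp [(1, 681780000000)])))) (.add (.mul (.g 3) (.mul
 (.g 6) (.pp [(1, 276000000)]))) (.add (.mul (.g 7) (.pp [(1, 1971660000000)])) (.mul (.g 12) (.pp
 [(1, 5400000)])))))) (.add (.mul (.g 5) (.add (.add (.pp [(1, 112980000000)]) (.mul (.g 2) (.add
 (.pp [(1, 1499256000000)]) (.add (.mul (.g 5) (.pp [(1, 42780000000)])) (.mul (.g 11) (.pp [(1,
 775608000000)])))))) (.add (.mul (.g 12) (.add (.pp [(1, 1259400000)]) (.mul (.g 5) (.pp [(1,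
 30530400000)])))) (.mul (.g 6) (.mul (.g 7) (.pp [(1, 882588000000)])))))) (.mul (.g 14) (.add
 (.pp [(1, 6276000000)]) (.mul (.g 7) (.add (.pp [(1, 1267176000000)]) (.mul (.g 15) (.pp [(1,
 264000000)])))))))) (.add (.add (.mul (.g 2) (.add (.pp [(1, 1876956000000)]) (.mul (.g 2) (.mul
 (.g 9) (.pp [(1, 169812000000)]))))) (.mul (.g 4) (.add (.pp [(1, 10562400000)]) (.mul (.g 4)
 (.mul (.g 9) (.pp [(1, 3450240000)])))))) (.add (.mul (.g 11) (.add (.mul (.pp [(1, 7200)]) (.sq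
 [(2, -33), (3, 33), (5, 100), (7, 33)])) (.mul (.pp [(1, 6000)]) (.sq [(1, -30), (2, 50), (3,
 100), (5, -12), (7, -25)])))) (.mul (.g 3) (.mul (.pp [(1, 9600)]) (.sq [(1, 42), (2, 60), (3,
 72), (5, -7), (7, -100)]))))))) (.mul (.g 12) (.add (.add (.pp [(1, 2400000)]) (.add (.mul (.g 5)
 (.add (.add (.pp [(1, 1534800000)]) (.mul (.pp [(1, 28620)]) (.sq [(1, 57), (2, 98), (3, 100), (5,
 49), (7, -90)]))) (.add (.mul (.g 8) (.add (.mul (.g 6) (.pp [(1, 1640400000)])) (.mul (.g 8) (.pp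
 [(1, 198000000)])))) (.add (.mul (.g 5) (.mul (.g 5) (.pp [(1, 5424000000)]))) (.mul (.g 7) (.pp
 [(1, 523990200000)])))))) (.mul (.g 2) (.add (.add (.mul (.pp [(1, 2580)]) (.sq [(1, 81), (2, 35),
 (3, -100), (5, 40), (7, 5)])) (.mul (.pp [(1, 780)]) (.sq [(1, 100), (2, -73), (5, 55), (7,
 -47)]))) (.add (.mul (.g 6) (.mul (.g 8) (.pp [(1, 7200000)]))) (.mul (.g 7) (.pp [(1,
 13563600000)]))))))) (.add (.add (.mul (.g 6) (.add (.mul (.g 6) (.add (.mul (.g 7) (.pp [(1,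
 13800000)])) (.mul (.g 11) (.pp [(1, 6000000)])))) (.mul (.g 7) (.mul (.g 15) (.pp [(1,
 13200000)]))))) (.mul (.g 8) (.add (.pp [(1, 77400000)]) (.mul (.g 8) (.add (.mul (.g 4) (.pp [(1,
 103050000)])) (.mul (.g 8) (.pp [(1, 600000)]))))))) (.add (.mul (.g 4) (.mul (.pp [(1, 2397)])
 (.sq [(1, 57), (2, 96), (3, 100), (5, 52), (7, -89)]))) (.mul (.g 7) (.pp [(1,
 33215400000)]))))))) (.add (.mul (.g 9) (.add (.mul (.g 7) (.add (.add (.pp [(1, 316152000000)])
 (.mul (.g 7) (.add (.mul (.g 7) (.pp [(1, 1382076000000)])) (.mul (.g 10) (.pp [(1,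
 271620000000)]))))) (.add (.mul (.g 8) (.add (.mul (.g 2) (.pp [(1, 1081272000000)])) (.mul (.g 4)
 (.pp [(1, 152305200000)])))) (.add (.mul (.g 5) (.mul (.g 5) (.pp [(1, 772476000000)]))) (.mul (.g
 9) (.mul (.g 11) (.pp [(1, 712788000000)]))))))) (.add (.mul (.g 9) (.add (.mul (.g 2) (.add (.mul
 (.g 2) (.pp [(1, 283440000000)])) (.add (.mul (.g 3) (.pp [(1, 50136000000)])) (.mul (.g 8) (.pp
 [(1, 472860000000)]))))) (.mul (.g 4) (.mul (.g 9) (.pp [(1, 4867200000)]))))) (.mul (.g 4) (.add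
 (.mul (.g 4) (.mul (.g 4) (.pp [(1, 36727500)]))) (.mul (.g 6) (.mul (.g 6) (.pp [(1,
 469800000)])))))))) (.mul (.g 3) (.add (.mul (.g 3) (.add (.mul (.g 4) (.mul (.g 6) (.pp [(1,
 773400000)]))) (.add (.mul (.g 5) (.mul (.g 5) (.pp [(1, 4932000000)]))) (.mul (.g 8) (.pp [(1,
 912000000)]))))) (.mul (.g 2) (.mul (.g 5) (.mul (.g 5) (.pp [(1, 130728000000)])))))))) (.add
 (.add (.mul (.g 7) (.add (.mul (.g 7) (.mul (.g 7) (.add (.pp [(1, 1519368000000)]) (.add (.mul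
 (.g 7) (.pp [(1, 84000000)])) (.mul (.g 8) (.pp [(1, 444000000)])))))) (.mul (.g 5) (.mul (.pp
 [(1, 16900800)]) (.sq [(1, 35), (2, 69), (3, -43), (5, 100), (7, -82)]))))) (.mul (.g 4) (.add
 (.mul (.g 5) (.mul (.pp [(1, 1452180)]) (.sq [(1, 34), (2, 39), (3, -41), (5, 100), (7, -63)])))
 (.mul (.g 8) (.mul (.pp [(1, 750780)]) (.sq [(1, -61), (2, -30), (3, 19), (5, -37), (7,
 100)])))))) (.add (.mul (.g 0) (.pp [(1, 4000000000000)])) (.add (.mul (.g 1) (.pp [(1,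
 4000000000000)])) (.mul (.g 13) (.pp [(1, 4000000000000)])))))) (.pp [(1, 5788578177), (2,
 125731572), (3, 115840740), (4, 107522088), (5, 102514104), (6, 117585600), (7, 129412722), (8,
 143394660), (9, 116953200), (10, 124069632), (12, 86331720), (14, 126958776), (15, 119802480),
 (16, 120711600), (18, 128971380), (20, 93806040), (21, 112066200), (24, 106605600), (25,
 140763072), (27, 122392800), (28, 122965800), (30, 179199840), (35, 122760672), (36, 136508400),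
 (40, 106924800), (42, 137341800), (45, 106720800), (49, 111413733), (50, 128033280), (54,
 120000000), (56, 116812800), (60, 133224000), (63, 110982780), (70, 110165880), (75, 103007040),
 (81, 120000000), (84, 122121600), (90, 117516000), (98, 118225620), (100, 127977600), (105,
 120685560), (125, 102245740), (126, 119583600), (135, 117607200), (140, 132024000), (147,
 125000460), (150, 123076800), (175, 107589060), (189, 117607200), (196, 114588000), (210,
 110880000), (225, 120084000), (245, 116992140), (250, 107161200), (294, 118242000), (315,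
 122325600), (343, 122400000), (350, 113115600), (375, 125504400), (441, 123441600), (490,
 130224000), (525, 124308000), (625, 123114000), (686, 120409200), (735, 122082000), (875,
 123996000), (1029, 119590800), (1225, 122960400), (1715, 119590800), (2401, 120000000)])))))
 (.rule 1 (.rule 3 (.leaf 60000000 (.add (.add (.add (.add (.mul (.g 8) (.add (.add (.mul (.g 14)
 (.add (.add (.mul (.g 6) (.add (.add (.pp [(1, 43371000000)]) (.mul (.g 3) (.pp [(1,
 5112000000)]))) (.add (.mul (.g 4) (.pp [(1, 4809360000)])) (.mul (.g 7) (.pp [(1,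
 104824800000)]))))) (.add (.mul (.g 8) (.add (.mul (.g 2) (.pp [(1, 1325400000)])) (.add (.mul (.g
 8) (.pp [(1, 6000000)])) (.mul (.g 9) (.pp [(1, 10800000)]))))) (.mul (.g 5) (.add (.mul (.g 9)
 (.pp [(1, 6605400000)])) (.mul (.g 14) (.pp [(1, 99463200000)])))))) (.add (.mul (.g 7) (.add
 (.mul (.g 7) (.pp [(1, 82722600000)])) (.mul (.g 12) (.pp [(1, 3373740000)])))) (.add (.mul (.g 4)
 (.pp [(1, 15904920000)])) (.mul (.g 9) (.mul (.g 12) (.pp [(1, 2142990000)]))))))) (.mul (.g 4)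
 (.add (.add (.mul (.g 4) (.add (.mul (.g 4) (.pp [(1, 10977675)])) (.add (.mul (.g 8) (.pp [(1,
 621408000)])) (.mul (.g 12) (.pp [(1, 38086350)]))))) (.mul (.g 3) (.add (.mul (.g 6) (.pp [(1,
 7032900000)])) (.mul (.g 8) (.pp [(1, 2741160000)]))))) (.add (.mul (.g 2) (.pp [(1,
 11655720000)])) (.mul (.g 6) (.mul (.g 12) (.pp [(1, 374340000)]))))))) (.add (.mul (.g 2) (.add
 (.mul (.pp [(1, 52877760)]) (.sq [(1, -16), (2, -25), (3, 24), (5, -1), (7, 5)])) (.add (.mul (.g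
 8) (.add (.mul (.g 10) (.pp [(1, 598200000)])) (.mul (.g 12) (.pp [(1, 202050000)])))) (.mul (.g
 5) (.mul (.g 10) (.pp [(1, 99703800000)])))))) (.add (.mul (.g 3) (.add (.mul (.g 6) (.mul (.g 6)
 (.pp [(1, 419400000)]))) (.mul (.g 12) (.pp [(1, 95070000)])))) (.mul (.g 12) (.mul (.pp [(1,
 4326)]) (.sq [(1, -72), (2, 13), (3, -16), (5, -23), (7, 100)]))))))) (.mul (.g 7) (.add (.add
 (.mul (.g 7) (.add (.add (.mul (.g 2) (.pp [(1, 4827000000)])) (.mul (.g 3) (.mul (.g 3) (.pp [(1,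
 25222800000)])))) (.add (.mul (.g 4) (.mul (.g 9) (.pp [(1, 1880280000)]))) (.add (.mul (.g 5)
 (.mul (.g 7) (.pp [(1, 95376600000)]))) (.mul (.g 12) (.mul (.g 14) (.pp [(1, 1379670000)])))))))
 (.add (.mul (.g 2) (.add (.mul (.g 2) (.mul (.g 14) (.pp [(1, 13551600000)]))) (.add (.mul (.g 4)
 (.pp [(1, 1423800000)])) (.mul (.g 5) (.mul (.g 5) (.pp [(1, 94961400000)])))))) (.mul (.g 5)
 (.add (.mul (.g 4) (.mul (.g 6) (.pp [(1, 9043800000)]))) (.mul (.g 5) (.mul (.g 12) (.pp [(1,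
 414420000)]))))))) (.add (.mul (.g 3) (.mul (.g 3) (.pp [(1, 21788400000)]))) (.add (.mul (.g 6)
 (.mul (.g 14) (.mul (.g 14) (.pp [(1, 2568600000)])))) (.mul (.g 12) (.mul (.pp [(1, 276294)])
 (.sq [(1, 7), (2, 100), (3, 33), (5, 55), (7, -5)])))))))) (.add (.mul (.g 6) (.add (.add (.mul
 (.g 14) (.add (.mul (.pp [(1, 64140)]) (.sq [(1, 10), (2, 14), (3, 100), (5, -95), (7, 12)]))
 (.add (.mul (.g 14) (.add (.mul (.g 4) (.pp [(1, 1547580000)])) (.mul (.g 5) (.pp [(1,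
 131538000000)])))) (.mul (.g 2) (.mul (.g 3) (.pp [(1, 45165000000)])))))) (.mul (.g 4) (.add
 (.mul (.g 5) (.mul (.g 5) (.pp [(1, 126480000)]))) (.mul (.g 6) (.mul (.g 6) (.pp [(1,
 1313370000)])))))) (.add (.mul (.g 2) (.mul (.pp [(1, 1936980)]) (.sq [(1, 100), (2, -52), (3,
 -94), (5, -1), (7, 17)]))) (.add (.mul (.g 10) (.mul (.pp [(1, 249960)]) (.sq [(1, 9), (2, 66),
 (3, 100), (5, -24), (7, 13)]))) (.mul (.g 15) (.mul (.pp [(1, 277620)]) (.sq [(1, -14), (2, -26),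
 (3, -100), (5, 93), (7, -11)]))))))) (.add (.mul (.g 12) (.add (.add (.mul (.g 2) (.add (.pp [(1,
 1431870000)]) (.mul (.g 15) (.mul (.g 15) (.pp [(1, 262230000)]))))) (.add (.mul (.g 5) (.add
 (.mul (.pp [(1, 459735)]) (.sq [(1, 36), (2, 100), (3, 8), (5, 77), (7, -73)])) (.mul (.g 5) (.pp
 [(1, 899220000)])))) (.mul (.g 14) (.add (.pp [(1, 513150000)]) (.mul (.pp [(1, 12477)]) (.sq [(1,
 48), (2, 33), (3, 46), (5, 100), (7, 59)])))))) (.add (.mul (.g 3) (.pp [(1, 575760000)])) (.add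
 (.mul (.g 4) (.pp [(1, 524896500)])) (.mul (.g 15) (.mul (.pp [(1, 108384)]) (.sq [(1, -32), (2,
 50), (3, 23), (5, 23), (7, 23)]))))))) (.mul (.g 3) (.add (.add (.mul (.g 3) (.add (.mul (.pp [(1,
 221760)]) (.sq [(1, 44), (2, 100), (3, -19), (5, 34), (7, -86)])) (.mul (.pp [(1, 21435840)]) (.sq
 [(1, 5), (2, -6), (3, -10), (5, 25), (7, 4)])))) (.mul (.g 2) (.mul (.pp [(1, 439980)]) (.sq [(1,
 -17), (2, -66), (3, 53), (5, -41), (7, 100)])))) (.add (.mul (.g 4) (.mul (.g 5) (.mul (.g 5) (.pp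
 [(1, 5429730000)])))) (.add (.mul (.g 9) (.mul (.pp [(1, 60120)]) (.sq [(1, 68), (2, -100), (3,
 -85), (5, 62), (7, 9)]))) (.mul (.g 11) (.mul (.pp [(1, 168780)]) (.sq [(1, -30), (2, -77), (3,
 40), (5, -27), (7, 100)])))))))))) (.add (.add (.mul (.g 2) (.add (.mul (.g 2) (.mul (.pp [(1,
 1621680)]) (.sq [(1, 80), (2, -36), (3, 100), (5, 29), (7, 14)]))) (.add (.mul (.g 4) (.pp [(1,
 8053650000)])) (.mul (.g 11) (.mul (.pp [(1, 1316280)]) (.sq [(1, -35), (2, -41), (3, 37), (5,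
 -46), (7, 100)])))))) (.add (.mul (.g 4) (.mul (.g 14) (.add (.pp [(1, 1424430000)]) (.mul (.g 5)
 (.pp [(1, 4897560000)]))))) (.mul (.g 0) (.pp [(1, 200000000000)])))) (.add (.mul (.g 1) (.pp [(1,
 200000000000)])) (.add (.mul (.g 13) (.pp [(1, 200000000000)])) (.mul (.g 15) (.mul (.g 15) (.mul
 (.pp [(1, 1002900)]) (.sq [(1, -3), (2, 100), (3, 83), (5, -11), (7, -55)])))))))) (.pp [(1,
 263532384), (2, 6066336), (3, 5814864), (4, 5265543), (5, 5848074), (6, 6899472), (7, 5906421),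
 (8, 6499820), (9, 6301968), (10, 6553764), (12, 6191820), (14, 5918190), (15, 6543936), (16,
 5496300), (18, 5342400), (20, 4409097), (21, 5842140), (24, 6263040), (25, 6361404), (27,
 5899080), (28, 6054831), (30, 6336348), (35, 6619644), (36, 5799480), (40, 6119160), (42,
 5786772), (45, 5784318), (49, 5778495), (50, 7109865), (54, 5792940), (56, 6452940), (60,
 5841600), (63, 6111204), (70, 6481464), (75, 4349628), (81, 5912640), (84, 5684100), (90,
 6245460), (98, 6149427), (100, 5694120), (105, 4902408), (125, 5166954), (126, 5750880), (135,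
 6250260), (140, 5477460), (147, 6216564), (150, 7591140), (175, 5105022), (189, 5934000), (196,
 6531060), (210, 5019240), (225, 5324040), (245, 5561307), (250, 6393420), (294, 5214600), (315,
 7140000), (343, 6351933), (350, 7316760), (375, 6367140), (441, 5901720), (490, 4728960), (525,
 5972940), (625, 6052020), (686, 5992740), (735, 7447020), (875, 5742720), (1029, 5787420), (1225,
 6987360), (1715, 6007260), (2401, 6000000)]))))))))
 (P_free ++ xP_G_F1) = true := by decide +kernel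

theorem t_G_F5b_c0 : chk ROp gP_G_F5b
 (.void (.add (.mul (.g 9) (.pp [(1, 1)])) (.mul (.g 11) (.pp [(1, 5)]))))
 (P_c0 ++ xP_G_F5b) = true := by decide +kernel

theorem t_G_F8_c1 : chk RFp gP_G_F8
 (.cut 50 [(2, 1), (3, -1)] (.add (.add (.mul (.g 8) (.pp [(1, 45)])) (.mul (.g 7) (.pp [(1, 2)])))
 (.add (.mul (.g 2) (.pp [(1, 5)])) (.mul (.g 9) (.pp [(1, 9)])))) (.rule 0 (.cut 60 [(2, -1), (5,
 1)] (.add (.add (.mul (.g 11) (.pp [(1, 11)])) (.mul (.g 9) (.pp [(1, 3)]))) (.add (.mul (.g 1)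
 (.pp [(1, 5)])) (.mul (.g 6) (.pp [(1, 5)])))) (.rule 3 (.leaf 300000000 (.add (.add (.add (.add
 (.mul (.g 7) (.add (.add (.mul (.g 13) (.add (.add (.pp [(1, 34609800000)]) (.mul (.g 13) (.add
 (.add (.mul (.g 5) (.pp [(1, 32723520000)])) (.mul (.g 6) (.pp [(1, 73756080000)]))) (.add (.mul
 (.g 8) (.pp [(1, 4037760000)])) (.add (.mul (.g 15) (.pp [(1, 5507520000)])) (.mul (.g 16) (.pp
 [(1, 17208120000)]))))))) (.add (.mul (.g 16) (.add (.mul (.g 8) (.pp [(1, 8026800000)])) (.mul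
 (.g 15) (.pp [(1, 166003200000)])))) (.add (.mul (.g 4) (.mul (.g 7) (.pp [(1, 12466200000)])))
 (.mul (.g 5) (.mul (.g 6) (.pp [(1, 213799200000)]))))))) (.mul (.g 7) (.add (.add (.mul (.pp [(1,
 6135000)]) (.sq [(1, 75), (2, 97), (3, 77), (5, 100), (7, -87)])) (.mul (.pp [(1, 28227000)]) (.sq
 [(1, 7), (2, -19), (3, 3), (5, -18), (7, 100)]))) (.add (.mul (.g 15) (.add (.add (.pp [(1,
 857241000000)]) (.mul (.g 4) (.pp [(1, 187791000000)]))) (.add (.mul (.g 6) (.pp [(1,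
 503466000000)])) (.mul (.g 15) (.pp [(1, 485121000000)]))))) (.add (.mul (.g 6) (.pp [(1,
 200247000000)])) (.mul (.g 12) (.mul (.g 16) (.pp [(1, 22458000000)])))))))) (.add (.mul (.g 5)
 (.add (.mul (.g 15) (.add (.pp [(1, 318471000000)]) (.add (.mul (.g 15) (.pp [(1, 147912000000)]))
 (.mul (.g 16) (.pp [(1, 439086000000)]))))) (.mul (.g 9) (.mul (.g 11) (.pp [(1, 3523200000)])))))
 (.add (.mul (.g 8) (.add (.mul (.g 4) (.mul (.g 8) (.pp [(1, 272733000000)]))) (.mul (.g 6) (.mul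
 (.g 11) (.pp [(1, 2329800000)]))))) (.mul (.g 11) (.pp [(1, 30545250000)])))))) (.mul (.g 6) (.add
 (.add (.mul (.pp [(1, 15402600)]) (.sq [(2, -5), (3, 100), (5, -66), (7, 98)])) (.mul (.g 6) (.add
 (.add (.mul (.g 15) (.add (.add (.pp [(1, 197871000000)]) (.mul (.g 4) (.pp [(1, 116955000000)])))
 (.add (.mul (.g 6) (.pp [(1, 419808000000)])) (.mul (.g 13) (.pp [(1, 51973200000)]))))) (.mul (.g
 6) (.add (.mul (.g 6) (.pp [(1, 196227000000)])) (.mul (.g 13) (.pp [(1, 20980200000)]))))) (.add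
 (.mul (.g 4) (.mul (.g 13) (.pp [(1, 32097600000)]))) (.mul (.g 8) (.mul (.g 12) (.pp [(1,
 5035500000)]))))))) (.add (.mul (.g 13) (.add (.add (.pp [(1, 30112800000)]) (.mul (.g 5) (.add
 (.mul (.g 9) (.pp [(1, 30743400000)])) (.mul (.g 13) (.pp [(1, 24070440000)]))))) (.add (.mul (.g
 4) (.mul (.g 4) (.pp [(1, 70149000000)]))) (.mul (.g 16) (.mul (.g 16) (.pp [(1,
 39088200000)])))))) (.mul (.g 15) (.add (.mul (.pp [(1, 8661600)]) (.sq [(1, -28), (2, -9), (3,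
 100), (5, -67), (7, 64)])) (.add (.mul (.g 5) (.pp [(1, 39144000000)])) (.mul (.g 8) (.mul (.g 10)
 (.pp [(1, 8565000000)])))))))))) (.add (.mul (.g 4) (.add (.mul (.g 4) (.add (.mul (.g 13) (.add
 (.pp [(1, 79221600000)]) (.add (.mul (.g 5) (.pp [(1, 119800200000)])) (.mul (.g 8) (.pp [(1,
 138466800000)]))))) (.mul (.g 15) (.add (.pp [(1, 286938000000)]) (.mul (.g 8) (.pp [(1,
 108003000000)])))))) (.add (.mul (.g 5) (.add (.mul (.g 12) (.add (.pp [(1, 895278000000)]) (.mul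
 (.g 16) (.pp [(1, 143448000000)])))) (.add (.mul (.g 13) (.mul (.g 13) (.pp [(1, 252240000)])))
 (.mul (.g 15) (.pp [(1, 69159000000)]))))) (.mul (.g 12) (.add (.pp [(1, 5671500000)]) (.mul (.g
 8) (.mul (.g 10) (.pp [(1, 32916000000)])))))))) (.add (.mul (.g 11) (.add (.add (.mul (.pp [(1,
 5848800000)]) (.sq [(2, 1), (3, -1)])) (.mul (.g 8) (.mul (.g 8) (.add (.mul (.g 5) (.pp [(1,
 26066400000)])) (.mul (.g 10) (.pp [(1, 875700000)])))))) (.add (.mul (.g 16) (.add (.pp [(1,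
 13381200000)]) (.mul (.pp [(1, 73200000)]) (.sq [(2, 1), (3, -1)])))) (.add (.mul (.g 11) (.mul
 (.pp [(1, 3981)]) (.sq [(1, -53), (2, -100), (3, 17), (5, -78), (7, 57)]))) (.mul (.g 13) (.pp
 [(1, 1281570000)])))))) (.mul (.g 15) (.add (.add (.mul (.g 5) (.add (.pp [(1, 75690000000)])
 (.mul (.g 5) (.mul (.g 5) (.pp [(1, 726471000000)]))))) (.mul (.g 15) (.add (.pp [(1,
 180846000000)]) (.mul (.pp [(1, 27249000)]) (.sq [(1, 46), (2, 19), (3, -5), (5, 100), (7,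
 -39)]))))) (.add (.mul (.g 8) (.mul (.pp [(1, 2193000)]) (.sq [(1, -28), (2, 80), (3, 21), (5,
 -100), (7, 47)]))) (.mul (.g 10) (.mul (.pp [(1, 9330900)]) (.sq [(1, -7), (2, -43), (3, -51), (5,
 -46), (7, 100)]))))))))) (.add (.add (.mul (.g 5) (.add (.mul (.g 13) (.add (.pp [(1,
 84717600000)]) (.mul (.g 13) (.mul (.g 13) (.pp [(1, 3912000)]))))) (.mul (.g 12) (.mul (.g 12)
 (.pp [(1, 133485000000)]))))) (.mul (.g 0) (.pp [(1, 1000000000000)]))) (.add (.mul (.g 2) (.pp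
 [(1, 1000000000000)])) (.add (.mul (.g 12) (.mul (.g 12) (.pp [(1, 50946750000)]))) (.mul (.g 14)
 (.pp [(1, 200000000)])))))) (.pp [(1, 23869071051), (2, 31581060), (3, 28069062), (4, 30115200),
 (5, 30910392), (6, 27183720), (7, 32827362), (8, 32294100), (9, 29572251), (10, 33130020), (12,
 22202100), (14, 29608020), (15, 27179832), (16, 30000000), (18, 36879660), (20, 25688700), (21,
 29971962), (24, 32160000), (25, 26114256), (27, 31217140), (28, 28341000), (30, 36991320), (35,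
 28585392), (36, 30476400), (40, 27525900), (42, 31859520), (45, 29861220), (49, 28556211), (50,
 28671960), (54, 28567200), (56, 29325900), (60, 33631500), (63, 28350480), (70, 27448920), (75,
 33818520), (81, 28796400), (84, 30235500), (90, 26741100), (98, 31040160), (100, 33212700), (105,
 34811160), (125, 33272640), (126, 30045900), (135, 29308500), (140, 31886100), (147, 29634840),
 (150, 27828600), (175, 32017680), (189, 30599700), (196, 29621400), (210, 29203800), (225,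
 29753100), (245, 31441440), (250, 27928800), (294, 29431200), (315, 29102100), (343, 32157000),
 (350, 30058800), (375, 31048800), (441, 29429400), (490, 29223000), (525, 28407600), (625,
 28945200), (686, 29811000), (735, 22900800), (875, 29766000), (1029, 30420000), (1225, 27167400),
 (1715, 27855600), (2401, 27456000)])))))))
 (P_c1 ++ xP_G_F8) = true := by decide +kernel

theorem t_G_F8_Op1 : chk ROp gP_G_F8
 (.split [(1, -3), (3, 2)]
 (.cut 3 [(2, -1), (3, 1)] (.add (.mul (.g 0) (.pp [(1, 1)])) (.add (.mul (.g 2) (.pp [(1, 1)]))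
 (.mul (.g 5) (.pp [(1, 3)])))) (.rule 1 (.cut 3 [(2, 1), (5, -1)] (.add (.add (.mul (.g 3) (.pp
 [(1, 1)])) (.mul (.g 1) (.pp [(1, 1)]))) (.add (.mul (.g 2) (.pp [(1, 1)])) (.mul (.g 8) (.pp [(1,
 3)])))) (.rule 2 (.rule 9 (.cut 1 [(1, -2), (2, -1), (3, 2), (5, 1)] (.add (.mul (.g 10) (.pp [(1,
 1)])) (.add (.mul (.g 5) (.pp [(1, 1)])) (.mul (.g 8) (.pp [(1, 1)])))) (.cut 1 [(1, -1), (2, -2),
 (3, 2), (5, 2)] (.add (.mul (.g 11) (.pp [(1, 1)])) (.add (.mul (.g 9) (.pp [(1, 1)])) (.mul (.g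
 0) (.pp [(1, 1)])))) (.rule 10 (.leaf 48000000 (.add (.add (.add (.add (.mul (.g 11) (.add (.add
 (.add (.mul (.g 11) (.add (.add (.mul (.g 11) (.add (.pp [(1, 137316960000)]) (.add (.mul (.g 13)
 (.pp [(1, 201206400000)])) (.mul (.g 17) (.pp [(1, 13108800000)]))))) (.mul (.g 14) (.add (.mul
 (.g 12) (.pp [(1, 25931040000)])) (.add (.mul (.g 16) (.pp [(1, 4370016000)])) (.mul (.g 20) (.pp
 [(1, 35359680000)])))))) (.add (.mul (.g 13) (.add (.mul (.g 12) (.pp [(1, 42386880000)])) (.mul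
 (.g 20) (.pp [(1, 145170240000)])))) (.mul (.g 20) (.mul (.g 20) (.pp [(1, 193194720000)]))))))
 (.mul (.g 12) (.add (.mul (.g 20) (.add (.add (.pp [(1, 81888480000)]) (.mul (.g 14) (.pp [(1,
 3088800000)]))) (.add (.mul (.g 19) (.pp [(1, 52067520000)])) (.mul (.g 20) (.pp [(1,
 55232640000)]))))) (.mul (.g 8) (.mul (.g 14) (.pp [(1, 10547360000)])))))) (.add (.mul (.g 8)
 (.add (.pp [(1, 10724960000)]) (.mul (.g 9) (.add (.mul (.g 10) (.pp [(1, 47506400000)])) (.mul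
 (.g 13) (.pp [(1, 113607520000)])))))) (.mul (.g 10) (.mul (.g 13) (.add (.mul (.g 13) (.pp [(1,
 124640640000)])) (.mul (.g 17) (.pp [(1, 25417920000)]))))))) (.add (.add (.mul (.g 19) (.add
 (.mul (.pp [(1, 18400992)]) (.sq [(1, -39), (2, 17), (3, -9), (5, 100), (7, -68)])) (.mul (.pp
 [(1, 5285232)]) (.sq [(1, -65), (2, -43), (3, -23), (5, 46), (7, 100)])))) (.mul (.g 9) (.mul (.g
 9) (.mul (.g 9) (.pp [(1, 30769920000)]))))) (.add (.mul (.g 14) (.mul (.pp [(1, 1609296)]) (.sq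
 [(1, -100), (2, -93), (3, 2), (5, -30), (7, 80)]))) (.mul (.g 15) (.mul (.pp [(1, 1283184)]) (.sq
 [(1, -17), (2, 100), (3, 15), (5, -43), (7, 2)]))))))) (.add (.mul (.g 13) (.add (.add (.add (.mul
 (.g 9) (.add (.mul (.g 9) (.add (.pp [(1, 33617760000)]) (.mul (.g 14) (.pp [(1, 7272960000)]))))
 (.add (.mul (.g 10) (.add (.mul (.g 16) (.pp [(1, 16728000)])) (.mul (.g 20) (.pp [(1,
 28690080000)])))) (.mul (.g 17) (.mul (.g 19) (.pp [(1, 43305120000)])))))) (.mul (.g 19) (.add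
 (.pp [(1, 15355200000)]) (.add (.mul (.pp [(1, 382608)]) (.sq [(1, -90), (2, 100), (3, -31), (5,
 100), (7, 31)])) (.mul (.pp [(1, 774048)]) (.sq [(1, -11), (2, 55), (3, 98), (5, -49), (7,
 100)])))))) (.add (.mul (.g 20) (.add (.mul (.pp [(1, 946944)]) (.sq [(1, 29), (2, -57), (3,
 -100), (5, -6), (7, 82)])) (.mul (.pp [(1, 2143248)]) (.sq [(1, -3), (2, -22), (3, -12), (5, 100),
 (7, -62)])))) (.mul (.g 8) (.pp [(1, 22416960000)])))) (.add (.add (.mul (.g 10) (.pp [(1,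
 94973760000)])) (.mul (.g 13) (.pp [(1, 32524320000)]))) (.add (.mul (.g 14) (.mul (.pp [(1,
 121440)]) (.sq [(1, 86), (2, -81), (3, 100), (5, 50), (7, 19)]))) (.add (.mul (.g 15) (.mul (.pp
 [(1, 2109792)]) (.sq [(1, 56), (2, 100), (3, 30), (5, 19), (7, 58)]))) (.mul (.g 16) (.pp [(1,
 9661512000)]))))))) (.mul (.g 19) (.add (.add (.mul (.pp [(1, 1997424)]) (.sq [(2, 46), (3, 85),
 (5, 100), (7, 85)])) (.add (.mul (.g 19) (.add (.add (.mul (.pp [(1, 443712)]) (.sq [(1, -10), (2,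
 48), (3, 100), (5, -17), (7, 48)])) (.mul (.pp [(1, 9490656)]) (.sq [(1, -81), (2, -83), (3, 77),
 (5, 38), (7, 100)]))) (.add (.mul (.pp [(1, 4630416)]) (.sq [(1, -5), (2, 21), (3, 51), (5, 100),
 (7, -94)])) (.mul (.g 12) (.add (.mul (.g 14) (.pp [(1, 102956640000)])) (.mul (.g 20) (.pp [(1,
 14304480000)]))))))) (.mul (.g 12) (.add (.mul (.g 8) (.mul (.g 10) (.pp [(1, 8035040000)])))
 (.mul (.g 14) (.mul (.g 14) (.pp [(1, 101518080000)]))))))) (.add (.mul (.g 9) (.mul (.pp [(1,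
 1221120)]) (.sq [(1, 39), (2, 41), (3, 100), (5, 86), (7, 42)]))) (.add (.mul (.g 15) (.mul (.pp
 [(1, 790320)]) (.sq [(1, -59), (2, -26), (3, 18), (5, 100), (7, -60)]))) (.mul (.g 17) (.mul (.pp
 [(1, 222696000)]) (.sq [(1, -4), (2, 4), (3, 10), (5, -2), (7, -1)]))))))))) (.add (.mul (.g 14)
 (.add (.add (.mul (.g 10) (.add (.mul (.g 16) (.add (.pp [(1, 7850688000)]) (.mul (.g 20) (.pp
 [(1, 26640000)])))) (.mul (.g 8) (.mul (.g 9) (.pp [(1, 9483520000)]))))) (.add (.mul (.g 9) (.pp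
 [(1, 100629600000)])) (.mul (.g 12) (.pp [(1, 21479520000)])))) (.add (.mul (.g 14) (.pp [(1,
 80317440000)])) (.add (.mul (.g 15) (.mul (.pp [(1, 198576)]) (.sq [(1, 100), (2, -30), (3, 62),
 (5, 33), (7, 12)]))) (.mul (.g 20) (.mul (.pp [(1, 3301488)]) (.sq [(1, 17), (2, -100), (3, -81),
 (5, 16), (7, 77)]))))))) (.add (.mul (.g 9) (.add (.mul (.g 10) (.add (.mul (.g 10) (.add (.mul
 (.g 8) (.pp [(1, 7932000000)])) (.mul (.g 12) (.pp [(1, 21468960000)])))) (.mul (.g 16) (.mul (.g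
 20) (.pp [(1, 4090176000)]))))) (.add (.mul (.g 12) (.mul (.pp [(1, 1170768)]) (.sq [(1, 21), (2,
 100), (3, 71), (5, 64), (7, -80)]))) (.mul (.g 16) (.mul (.g 16) (.pp [(1, 173052000)])))))) (.mul
 (.g 8) (.add (.mul (.g 12) (.pp [(1, 3512640000)])) (.add (.mul (.g 15) (.pp [(1, 102475200000)]))
 (.mul (.g 16) (.pp [(1, 8583872000)])))))))) (.add (.add (.mul (.g 12) (.add (.mul (.g 10) (.mul
 (.g 10) (.mul (.g 17) (.pp [(1, 11980320000)])))) (.mul (.g 12) (.pp [(1, 8945280000)])))) (.add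
 (.mul (.g 0) (.pp [(1, 160000000000)])) (.mul (.g 3) (.pp [(1, 480000000)])))) (.add (.add (.mul
 (.g 4) (.pp [(1, 160000000000)])) (.mul (.g 6) (.pp [(1, 160000000000)]))) (.add (.mul (.g 16)
 (.mul (.g 16) (.mul (.pp [(1, 9675)]) (.sq [(1, -15), (2, 28), (3, 14), (5, 8), (7, 100)]))))
 (.mul (.g 18) (.pp [(1, 160000000000)])))))) (.pp [(1, 47212713493), (2, 4793616), (3, 4424388),
 (4, 5590320), (5, 3430968), (6, 3729488), (7, 4035336), (8, 4899808), (9, 4970308), (10, 5327424),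
 (12, 4403424), (14, 5308704), (15, 5317776), (16, 4446240), (18, 4835008), (20, 2971776), (21,
 5517408), (24, 5492640), (25, 5887584), (27, 4630544), (28, 4368960), (30, 6781024), (35,
 6760608), (36, 4197184), (40, 6018288), (42, 5922912), (45, 4965264), (49, 6192912), (50,
 5226000), (54, 5057792), (56, 4836960), (60, 3895184), (63, 4281920), (70, 3762432), (75,
 3484752), (81, 4806144), (84, 4428288), (90, 5343568), (98, 5391936), (100, 4937088), (105,
 3246656), (125, 4348080), (126, 5299296), (135, 4826976), (140, 5169072), (147, 3714672), (150,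
 4366368), (175, 3348480), (189, 4824768), (196, 5048688), (210, 3978080), (225, 4600464), (245,
 2207424), (250, 4437456), (294, 4415136), (315, 4729040), (343, 4194816), (350, 5696928), (375,
 5276688), (441, 4812304), (490, 4700544), (525, 4958560), (625, 4838400), (686, 4329264), (735,
 5357712), (875, 4419840), (1029, 5179008), (1225, 5514576), (1715, 5295744), (2401,
 4771776)])))))))))))
 (.cut 1 [(2, -1), (3, 1)] (.add (.mul (.g 9) (.pp [(1, 1)])) (.mul (.g 5) (.pp [(1, 1)]))) (.rule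
 1 (.cut 1 [(2, 1), (5, -1)] (.add (.mul (.g 11) (.pp [(1, 1)])) (.mul (.g 8) (.pp [(1, 1)])))
 (.rule 2 (.cut 11 [(1, -69), (3, 100)] (.add (.mul (.g 1) (.pp [(1, 620)])) (.add (.mul (.g 12)
 (.pp [(1, 31)])) (.mul (.g 13) (.pp [(1, 480)])))) (.rule 8 (.rule 15 (.leaf 33000000 (.add (.add
 (.add (.add (.mul (.g 18) (.add (.add (.pp [(1, 574200000)]) (.add (.mul (.g 11) (.add (.add (.pp
 [(1, 76690680000)]) (.mul (.g 9) (.add (.add (.mul (.g 8) (.pp [(1, 27450060000)])) (.mul (.g 9)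
 (.pp [(1, 616770000)]))) (.add (.mul (.g 10) (.pp [(1, 113231580000)])) (.mul (.g 19) (.pp [(1,
 5060220000)])))))) (.add (.mul (.g 18) (.add (.add (.mul (.g 8) (.pp [(1, 27718350000)])) (.mul
 (.g 12) (.pp [(1, 16666650000)]))) (.add (.mul (.g 13) (.pp [(1, 10507860000)])) (.mul (.g 19)
 (.pp [(1, 49581180000)]))))) (.add (.mul (.g 8) (.mul (.g 19) (.pp [(1, 36620760000)]))) (.mul (.g
 10) (.mul (.g 11) (.pp [(1, 137271090000)]))))))) (.mul (.g 8) (.add (.add (.pp [(1, 7356690000)])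
 (.mul (.pp [(1, 612975)]) (.sq [(1, 66), (2, 79), (3, 100), (5, 100), (7, 39)]))) (.add (.mul (.g
 8) (.add (.mul (.g 14) (.pp [(1, 12053910000)])) (.mul (.g 15) (.pp [(1, 28215000)])))) (.mul (.g
 18) (.add (.mul (.g 9) (.pp [(1, 36352140000)])) (.mul (.g 10) (.pp [(1, 32010660000)])))))))))
 (.add (.add (.mul (.g 10) (.add (.pp [(1, 50036580000)]) (.add (.mul (.g 9) (.add (.mul (.g 9)
 (.pp [(1, 2618550000)])) (.mul (.g 19) (.pp [(1, 51188280000)])))) (.mul (.g 14) (.mul (.g 18)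
 (.pp [(1, 23933910000)])))))) (.mul (.g 18) (.add (.mul (.pp [(1, 9407970)]) (.sq [(1, -62), (2,
 -35), (3, 9), (5, 9), (7, 100)])) (.mul (.g 9) (.mul (.g 12) (.pp [(1, 28779300000)])))))) (.add
 (.mul (.g 15) (.mul (.pp [(1, 154737)]) (.sq [(1, -7), (2, -2), (3, 46), (5, -36), (7, 50)])))
 (.mul (.g 16) (.mul (.pp [(1, 1858230)]) (.sq [(1, -32), (2, -73), (3, 100), (5, 100), (7,
 -41)]))))))) (.add (.mul (.g 16) (.add (.add (.mul (.g 10) (.add (.add (.mul (.pp [(1, 1158927)])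
 (.sq [(1, 38), (2, 34), (3, 89), (5, -94), (7, 100)])) (.mul (.g 8) (.add (.mul (.g 11) (.pp [(1,
 23057100000)])) (.mul (.g 12) (.pp [(1, 14072850000)]))))) (.add (.mul (.g 9) (.mul (.g 12) (.pp
 [(1, 195690000)]))) (.add (.mul (.g 10) (.mul (.g 16) (.pp [(1, 78480930000)]))) (.mul (.g 11)
 (.mul (.g 19) (.pp [(1, 1951950000)]))))))) (.add (.mul (.g 11) (.add (.mul (.pp [(1, 1116390)])
 (.sq [(1, 1), (2, -34), (3, -38), (5, 100), (7, -63)])) (.mul (.g 8) (.mul (.g 8) (.pp [(1,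
 27475800000)]))))) (.mul (.g 13) (.add (.pp [(1, 53161350000)]) (.mul (.pp [(1, 120747)]) (.sq
 [(1, 87), (2, 19), (3, -100), (5, 100), (7, -13)])))))) (.add (.add (.mul (.g 14) (.add (.mul (.pp
 [(1, 1037289)]) (.sq [(1, -8), (2, -23), (3, 86), (5, -37), (7, 100)])) (.mul (.g 9) (.mul (.g 9)
 (.pp [(1, 70043820000)]))))) (.mul (.g 19) (.add (.mul (.pp [(1, 39204)]) (.sq [(1, 14), (2, 13),
 (3, -63), (5, 90), (7, -100)])) (.mul (.pp [(1, 1786290)]) (.sq [(1, -39), (2, -52), (3, 100), (5,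
 100), (7, -23)]))))) (.add (.mul (.g 7) (.mul (.pp [(1, 1759406)]) (.sq [(1, -33), (2, -58), (3,
 100), (5, 100), (7, -24)]))) (.mul (.g 12) (.mul (.pp [(1, 1111605)]) (.sq [(1, -40), (2, 24), (3,
 53), (5, -11), (7, 100)]))))))) (.mul (.g 13) (.add (.add (.mul (.g 8) (.add (.pp [(1,
 8363520000)]) (.add (.mul (.pp [(1, 2220504)]) (.sq [(1, 5), (2, 41), (3, 17), (5, 17), (7, 50)]))
 (.mul (.g 7) (.mul (.g 8) (.pp [(1, 24252140000)])))))) (.mul (.g 10) (.add (.pp [(1,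
 28116000000)]) (.add (.mul (.pp [(1, 8418828)]) (.sq [(1, 8), (2, 23), (3, -2), (5, 50), (7,
 -35)])) (.mul (.g 10) (.mul (.g 11) (.pp [(1, 36211560000)]))))))) (.add (.mul (.g 9) (.add (.pp
 [(1, 14023350000)]) (.mul (.pp [(1, 3912117)]) (.sq [(1, 64), (2, 52), (3, -100), (5, 86), (7,
 -17)])))) (.add (.mul (.g 11) (.add (.mul (.g 11) (.mul (.g 15) (.pp [(1, 848908500)]))) (.mul (.g
 19) (.mul (.g 19) (.pp [(1, 8798790000)]))))) (.mul (.g 13) (.add (.mul (.pp [(1, 329274)]) (.sq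
 [(1, 65), (2, 4), (3, 33), (5, 33), (7, 100)])) (.mul (.g 14) (.pp [(1, 109740840000)]))))))))))
 (.add (.mul (.g 12) (.add (.add (.mul (.g 8) (.add (.mul (.pp [(1, 358776)]) (.sq [(1, -16), (2,
 57), (3, -79), (5, 98), (7, -100)])) (.add (.mul (.g 11) (.mul (.g 19) (.pp [(1, 18950580000)])))
 (.mul (.g 12) (.mul (.g 12) (.pp [(1, 8202480000)])))))) (.mul (.g 9) (.add (.mul (.g 9) (.add
 (.mul (.g 9) (.pp [(1, 36152490000)])) (.mul (.g 10) (.pp [(1, 26081220000)])))) (.mul (.g 11)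
 (.mul (.g 11) (.pp [(1, 11846010000)])))))) (.add (.mul (.g 12) (.add (.pp [(1, 12016290000)])
 (.mul (.pp [(1, 1688577)]) (.sq [(1, -45), (2, 99), (3, 100), (5, -26), (7, 63)])))) (.mul (.g 7)
 (.mul (.g 11) (.mul (.g 11) (.pp [(1, 16204430000)]))))))) (.add (.mul (.g 10) (.add (.mul (.g 11)
 (.mul (.g 11) (.add (.mul (.g 7) (.pp [(1, 9655580000)])) (.add (.mul (.g 8) (.pp [(1,
 151579890000)])) (.mul (.g 14) (.pp [(1, 125395380000)])))))) (.mul (.g 7) (.mul (.pp [(1,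
 261393)]) (.sq [(1, -12), (2, -13), (3, 64), (5, -95), (7, 100)]))))) (.mul (.g 9) (.add (.mul (.g
 8) (.mul (.pp [(1, 278256)]) (.sq [(1, 41), (2, 30), (3, -100), (5, 48), (7, -8)]))) (.mul (.g 9)
 (.mul (.g 11) (.mul (.g 19) (.pp [(1, 9450210000)]))))))))) (.add (.add (.mul (.g 0) (.pp [(1,
 10000000000)])) (.add (.mul (.g 1) (.pp [(1, 33000000)])) (.mul (.g 3) (.pp [(1,
 110000000000)])))) (.add (.mul (.g 5) (.pp [(1, 110000000000)])) (.add (.mul (.g 7) (.mul (.g 14)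
 (.mul (.pp [(1, 276903)]) (.sq [(1, 100), (2, -70), (3, -68), (5, 95), (7, 3)])))) (.mul (.g 17)
 (.pp [(1, 110000000000)])))))) (.pp [(1, 455251301), (2, 3127057), (3, 2652706), (4, 3950441), (5,
 3412454), (6, 3380201), (7, 2773881), (8, 2849055), (9, 4290462), (10, 3535994), (12, 3227719),
 (14, 3448698), (15, 3321307), (16, 3464439), (18, 3589597), (20, 3198063), (21, 3918882), (24,
 3188350), (25, 3230975), (27, 2768843), (28, 3330756), (30, 2514402), (35, 3637194), (36,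
 3464076), (40, 3360951), (42, 1888854), (45, 3935261), (49, 3798498), (50, 4028739), (54,
 3228841), (56, 3146517), (60, 3070760), (63, 3525126), (70, 3686232), (75, 2784771), (81,
 3370114), (84, 3225024), (90, 3632596), (98, 1918455), (100, 3316236), (105, 3358740), (125,
 2785937), (126, 3811302), (135, 2949749), (140, 2866182), (147, 3500200), (150, 2974554), (175,
 2465562), (189, 3013032), (196, 3304587), (210, 3804042), (225, 3053347), (245, 3337356), (250,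
 3071112), (294, 4133426), (315, 2573604), (343, 3222780), (350, 3032040), (375, 3864795), (441,
 3135132), (490, 3602775), (525, 3585912), (625, 3318084), (686, 3714975), (735, 3073510), (875,
 3745500), (1029, 3096720), (1225, 3722730), (1715, 3234000), (2401, 3300000)])))))))))))
 (P_Op1 ++ xP_G_F8) = true := by decide +kernel

theorem t_G_T2_Tp0_b : chk Rbp gP_G_T2
 (.split [(1, 1), (2, -20)]
 (.split [(1, -17), (3, 25)]
 (.split [(1, -7), (5, 50)]
 (.rule 7 (.cut 5 [(1, 3), (5, -5)] (.add (.add (.mul (.g 4) (.pp [(1, 115)])) (.mul (.g 2) (.pp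
 [(1, 1)]))) (.add (.mul (.g 9) (.pp [(1, 25)])) (.mul (.g 3) (.pp [(1, 7)])))) (.rule 11 (.rule 4
 (.leaf 570000000 (.add (.add (.add (.add (.mul (.pp [(1, 12000000)]) (.sq [(1, -323), (2, -70),
 (3, 475)])) (.mul (.pp [(1, 3000000)]) (.sq [(1, -133), (2, -680), (5, 950)]))) (.add (.mul (.g 7)
 (.add (.add (.add (.mul (.pp [(1, 1140000000)]) (.sq [(1, -27), (3, 50), (5, -50)])) (.mul (.g 8)
 (.add (.add (.mul (.g 6) (.add (.add (.pp [(1, 3705000)]) (.mul (.g 7) (.pp [(1, 4845000)])))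
 (.add (.mul (.g 8) (.pp [(1, 2565000)])) (.add (.mul (.g 9) (.pp [(1, 1710000)])) (.mul (.g 10)
 (.pp [(1, 285000)])))))) (.mul (.g 10) (.add (.pp [(1, 3873953700000)]) (.add (.mul (.g 16) (.pp
 [(1, 5700000)])) (.mul (.g 18) (.pp [(1, 5700000)])))))) (.add (.mul (.g 18) (.add (.mul (.g 8)
 (.pp [(1, 57000000)])) (.mul (.g 9) (.pp [(1, 51300000)])))) (.add (.mul (.g 15) (.pp [(1,
 119700000)])) (.mul (.g 16) (.pp [(1, 57000000)]))))))) (.add (.mul (.g 10) (.add (.add (.mul (.g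
 10) (.add (.mul (.g 7) (.pp [(1, 4109591700000)])) (.add (.mul (.g 10) (.pp [(1, 918783000000)]))
 (.mul (.g 12) (.pp [(1, 68400000)]))))) (.mul (.g 5) (.pp [(1, 91283904000)]))) (.add (.mul (.g 6)
 (.pp [(1, 295606275000)])) (.add (.mul (.g 7) (.mul (.g 7) (.pp [(1, 226757400000)]))) (.mul (.g
 18) (.pp [(1, 6156119700000)])))))) (.mul (.g 9) (.add (.mul (.g 6) (.add (.pp [(1, 3705000)])
 (.add (.mul (.g 7) (.pp [(1, 4560000)])) (.mul (.g 9) (.pp [(1, 1995000)]))))) (.add (.mul (.g 18)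
 (.add (.pp [(1, 62700000)]) (.mul (.g 9) (.pp [(1, 51300000)])))) (.mul (.g 16) (.pp [(1,
 114000000)]))))))) (.add (.add (.mul (.g 6) (.add (.pp [(1, 27785790000)]) (.mul (.g 7) (.mul (.g
 7) (.pp [(1, 15818640000)]))))) (.mul (.g 16) (.add (.pp [(1, 239400000)]) (.mul (.pp [(1,
 5700000)]) (.sq [(2, 1), (3, 1), (5, 1), (7, 1)]))))) (.add (.mul (.g 7) (.mul (.g 7) (.pp [(1,
 661296900000)]))) (.add (.mul (.g 14) (.mul (.pp [(1, 171)]) (.sq [(2, 100), (3, -11), (5, -10),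
 (7, -66)]))) (.mul (.g 18) (.pp [(1, 239400000)]))))))) (.mul (.g 6) (.add (.mul (.pp [(1,
 228000000)]) (.sq [(1, -17), (3, 25)])) (.mul (.pp [(1, 57000000)]) (.sq [(1, -7), (5, 50)]))))))
 (.add (.add (.mul (.g 0) (.pp [(1, 1900000000000)])) (.mul (.g 1) (.pp [(1, 1140000000)]))) (.add
 (.mul (.g 3) (.pp [(1, 4560000000)])) (.mul (.g 17) (.pp [(1, 1900000000000)]))))) (.pp [(2,
 168385410000), (4, 55800000), (6, 58995000), (8, 54150000), (10, 58995000), (12, 54469200), (14,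
 59793000), (16, 57000000), (18, 54621219), (20, 55062000), (24, 55176000), (28, 53785200), (30,
 55628580), (36, 59237820), (40, 55860000), (42, 47549628), (50, 55158900), (54, 56586180), (56,
 57456000), (60, 60716400), (70, 53331480), (84, 55809840), (90, 55833780), (98, 52303884), (100,
 58482000), (126, 57734160), (140, 61058400), (150, 61605600), (196, 54797520), (210, 58919760),
 (250, 5358000), (294, 59202480), (350, 58185600), (490, 59202480), (686, 57000000)])))))))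
 (.rule 7 (.rule 4 (.leaf 15000 (.add (.add (.add (.mul (.pp [(1, 120000)]) (.sq [(1, -17), (3,
 25), (10, -25)])) (.mul (.g 5) (.add (.add (.mul (.g 8) (.add (.add (.mul (.g 2) (.add (.pp [(1,
 36)]) (.add (.mul (.g 6) (.pp [(1, 30)])) (.mul (.g 7) (.pp [(1, 30)]))))) (.add (.mul (.g 4)
 (.add (.pp [(1, 7779075)]) (.add (.mul (.g 6) (.pp [(1, 75)])) (.mul (.g 7) (.pp [(1, 75)])))))
 (.mul (.g 8) (.add (.mul (.g 5) (.pp [(1, 108147000)])) (.add (.mul (.g 8) (.pp [(1, 24178500)]))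
 (.mul (.g 10) (.pp [(1, 1500)]))))))) (.add (.add (.mul (.g 3) (.pp [(1, 2402280)])) (.mul (.g 5)
 (.mul (.g 5) (.pp [(1, 5968500)])))) (.add (.mul (.g 6) (.pp [(1, 101944350)])) (.mul (.g 16) (.pp
 [(1, 162003000)])))))) (.add (.mul (.g 6) (.add (.add (.mul (.g 4) (.add (.add (.pp [(1, 75)])
 (.mul (.g 5) (.pp [(1, 75)]))) (.add (.mul (.g 6) (.pp [(1, 75)])) (.mul (.g 7) (.pp [(1,
 75)]))))) (.mul (.g 2) (.add (.pp [(1, 36)]) (.add (.mul (.g 6) (.pp [(1, 30)])) (.mul (.g 7) (.pp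
 [(1, 30)])))))) (.add (.mul (.g 6) (.mul (.g 16) (.pp [(1, 1500)]))) (.mul (.g 13) (.pp [(1,
 3300)]))))) (.mul (.g 2) (.add (.pp [(1, 2050536)]) (.add (.mul (.g 5) (.add (.pp [(1, 30)]) (.mul
 (.g 5) (.pp [(1, 30)])))) (.mul (.g 7) (.add (.pp [(1, 75036)]) (.mul (.g 7) (.pp [(1,
 30)]))))))))) (.add (.mul (.g 5) (.add (.pp [(1, 23428350)]) (.mul (.g 5) (.add (.pp [(1,
 17401950)]) (.mul (.g 4) (.pp [(1, 416325)])))))) (.add (.mul (.g 4) (.mul (.g 7) (.mul (.g 7)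
 (.pp [(1, 3750075)])))) (.mul (.g 16) (.pp [(1, 5100)]))))))) (.add (.mul (.g 0) (.pp [(1,
 50000000)])) (.add (.mul (.g 1) (.pp [(1, 120000)])) (.mul (.g 15) (.pp [(1, 50000000)]))))) (.pp
 [(2, 5096148), (4, 1440), (6, 1473), (8, 1515), (10, 1548), (12, 1425), (14, 1533), (16, 1500),
 (18, 1515), (20, 1500), (23, 150000000), (24, 1500), (28, 1500), (30, 1515), (36, 1500), (40,
 1500), (42, 1365), (50, 1515), (54, 1500), (56, 1500), (60, 1500), (70, 1515), (84, 1500), (90,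
 1500), (98, 1500), (100, 1500), (126, 1500), (140, 1500), (150, 1500), (196, 1500), (210, 1500),
 (250, 1500), (294, 1500), (350, 1500), (490, 1500), (686, 1500)]))))))
 (.split [(1, -3), (5, 5)]
 (.cut 1 [(1, 3), (5, -2)] (.add (.add (.mul (.g 3) (.pp [(1, 18)])) (.mul (.g 4) (.pp [(1, 2)])))
 (.add (.mul (.g 8) (.pp [(1, 2)])) (.mul (.g 2) (.pp [(1, 1)])))) (.rule 12 (.rule 4 (.leaf
 3000000 (.add (.add (.add (.add (.mul (.g 9) (.add (.add (.mul (.g 7) (.add (.add (.pp [(1,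
 1081500000)]) (.add (.mul (.g 7) (.add (.add (.mul (.g 6) (.pp [(1, 9687060000)])) (.mul (.g 8)
 (.pp [(1, 870000)]))) (.add (.mul (.g 10) (.pp [(1, 90000)])) (.mul (.g 11) (.pp [(1,
 360000)]))))) (.mul (.g 8) (.add (.mul (.g 8) (.pp [(1, 150000)])) (.add (.mul (.g 9) (.pp [(1,
 1140000)])) (.mul (.g 15) (.pp [(1, 1140000)]))))))) (.add (.add (.mul (.g 6) (.add (.mul (.g 12)
 (.pp [(1, 780000)])) (.mul (.g 14) (.pp [(1, 9687630000)])))) (.mul (.g 9) (.mul (.g 9) (.pp [(1,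
 180000)])))) (.add (.mul (.g 12) (.mul (.g 12) (.pp [(1, 210000)]))) (.mul (.g 17) (.mul (.g 17)
 (.pp [(1, 240000)]))))))) (.add (.mul (.g 17) (.add (.add (.pp [(1, 1082130000)]) (.add (.mul (.pp
 [(1, 9)]) (.sq [(1, -22), (2, 61), (3, 100), (5, -63), (7, 35)])) (.mul (.pp [(1, 27)]) (.sq [(1,
 100), (2, 45), (3, 85), (5, 85), (7, 69)])))) (.add (.mul (.g 9) (.add (.pp [(1, 120000)]) (.add
 (.mul (.g 9) (.pp [(1, 150000)])) (.mul (.g 10) (.pp [(1, 120000)]))))) (.add (.mul (.g 6) (.pp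
 [(1, 9688770000)])) (.mul (.g 8) (.pp [(1, 150000)])))))) (.mul (.g 6) (.add (.add (.pp [(1,
 173340000)]) (.mul (.pp [(1, 6)]) (.sq [(3, -1), (5, 9), (7, 100)]))) (.add (.mul (.g 5) (.mul (.g
 6) (.pp [(1, 736576500)]))) (.add (.mul (.g 9) (.mul (.g 9) (.pp [(1, 4835730000)]))) (.mul (.g
 10) (.mul (.g 10) (.pp [(1, 15925500000)]))))))))) (.add (.mul (.g 8) (.mul (.g 15) (.add (.mul
 (.g 4) (.pp [(1, 44400)])) (.mul (.g 8) (.pp [(1, 30000)]))))) (.add (.mul (.g 3) (.pp [(1,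
 299700000)])) (.mul (.g 5) (.mul (.g 9) (.mul (.g 10) (.pp [(1, 1081492500)])))))))) (.mul (.g 6)
 (.add (.add (.pp [(1, 3890820000)]) (.add (.mul (.g 6) (.add (.add (.pp [(1, 4684350000)]) (.mul
 (.g 6) (.add (.add (.pp [(1, 3479790000)]) (.mul (.g 4) (.pp [(1, 36000)]))) (.add (.mul (.g 5)
 (.pp [(1, 83247000)])) (.mul (.g 15) (.pp [(1, 330000)])))))) (.add (.mul (.g 11) (.pp [(1,
 240000)])) (.mul (.g 17) (.pp [(1, 1530000)]))))) (.mul (.g 7) (.add (.mul (.g 8) (.add (.mul (.g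
 5) (.pp [(1, 1499826000)])) (.mul (.g 13) (.pp [(1, 169500)])))) (.add (.mul (.g 3) (.mul (.g 12)
 (.pp [(1, 216000)]))) (.mul (.g 4) (.mul (.g 7) (.pp [(1, 15600)])))))))) (.add (.mul (.g 8) (.mul
 (.g 17) (.pp [(1, 240000)]))) (.add (.mul (.g 10) (.mul (.g 13) (.mul (.g 14) (.pp [(1, 3000)]))))
 (.mul (.g 12) (.mul (.g 12) (.mul (.g 12) (.pp [(1, 90000)]))))))))) (.add (.mul (.g 7) (.add
 (.add (.pp [(1, 182520000)]) (.mul (.g 5) (.add (.pp [(1, 39000)]) (.add (.mul (.g 8) (.add (.mul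
 (.g 10) (.pp [(1, 1499853000)])) (.mul (.g 12) (.pp [(1, 235500)])))) (.mul (.g 12) (.mul (.g 17)
 (.pp [(1, 6000)]))))))) (.add (.mul (.g 7) (.add (.mul (.g 7) (.add (.mul (.g 3) (.pp [(1,
 30000)])) (.mul (.g 4) (.pp [(1, 10800)])))) (.mul (.g 17) (.pp [(1, 600000)])))) (.add (.mul (.g
 15) (.add (.mul (.pp [(1, 63)]) (.sq [(1, -8), (2, 26), (3, 54), (5, -25), (7, 100)])) (.mul (.pp
 [(1, 12)]) (.sq [(1, -42), (2, -53), (3, -84), (5, 36), (7, 100)])))) (.mul (.g 4) (.pp [(1,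
 37200)])))))) (.add (.mul (.g 8) (.add (.add (.mul (.g 5) (.add (.pp [(1, 28500)]) (.add (.mul
 (.pp [(1, 6)]) (.sq [(1, 43), (2, 50), (3, 50), (5, 50), (7, 50)])) (.mul (.g 4) (.mul (.g 12)
 (.pp [(1, 1140)])))))) (.mul (.g 8) (.add (.pp [(1, 3824520000)]) (.mul (.g 15) (.add (.mul (.g 8)
 (.pp [(1, 90000)])) (.mul (.g 14) (.pp [(1, 330000)]))))))) (.add (.mul (.g 3) (.pp [(1,
 1334922000)])) (.mul (.g 17) (.pp [(1, 1500360000)]))))) (.mul (.g 11) (.add (.mul (.g 11) (.mul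
 (.pp [(1, 12)]) (.sq [(1, -3), (2, -4), (3, -12), (5, 50), (7, -39)]))) (.mul (.g 12) (.mul (.pp
 [(1, 30)]) (.sq [(1, 52), (2, 100), (3, 28), (5, 89), (7, 49)])))))))) (.add (.add (.mul (.g 0)
 (.pp [(1, 10000000000)])) (.mul (.g 1) (.pp [(1, 3000000)]))) (.add (.mul (.g 3) (.pp [(1,
 425796000)])) (.add (.mul (.g 16) (.pp [(1, 10000000000)])) (.mul (.g 17) (.pp [(1,
 183600000)])))))) (.pp [(1, 550787892), (2, 287616), (3, 301632), (4, 305244), (5, 309102), (6,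
 282816), (7, 292836), (8, 332328), (9, 287412), (10, 301692), (12, 281856), (14, 314676), (15,
 298020), (16, 329808), (18, 266136), (19, 30000000000), (20, 315240), (21, 288060), (24, 257232),
 (25, 260952), (27, 310452), (28, 301920), (30, 272904), (35, 344988), (36, 317904), (40, 299184),
 (42, 309294), (45, 312804), (49, 294864), (50, 256782), (54, 303264), (56, 320256), (60, 298536),
 (63, 381741), (70, 357228), (75, 320091), (81, 291792), (84, 268740), (90, 364824), (98, 280770),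
 (100, 299838), (105, 215226), (125, 328650), (126, 284424), (135, 325884), (140, 327948), (147,
 332904), (150, 373656), (175, 258816), (189, 266163), (196, 291942), (210, 279300), (225, 314586),
 (245, 306402), (250, 333540), (294, 296094), (315, 276186), (343, 309168), (350, 272850), (375,
 304107), (441, 238563), (490, 319020), (525, 360204), (625, 297630), (686, 296100), (735, 271326),
 (875, 338460), (1029, 249282), (1225, 284574), (1715, 277020), (2401, 289572)]))))))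
 (.split [(1, -7), (5, 50)]
 (.rule 11 (.rule 4 (.leaf 15000 (.add (.add (.add (.mul (.pp [(1, 30000)]) (.sq [(1, -7), (5, 50),
 (6, -50)])) (.mul (.g 6) (.add (.add (.mul (.g 9) (.add (.add (.mul (.g 7) (.add (.add (.pp [(1,
 114876150)]) (.mul (.g 3) (.pp [(1, 300)]))) (.add (.mul (.g 5) (.pp [(1, 75)])) (.mul (.g 17)
 (.pp [(1, 66964950)]))))) (.add (.mul (.g 9) (.add (.mul (.g 6) (.pp [(1, 108147000)])) (.add
 (.mul (.g 9) (.pp [(1, 1856400)])) (.mul (.g 11) (.pp [(1, 1500)]))))) (.mul (.g 5) (.add (.pp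
 [(1, 7778955)]) (.mul (.g 8) (.pp [(1, 75)])))))) (.add (.mul (.g 17) (.add (.pp [(1, 117358800)])
 (.mul (.g 17) (.pp [(1, 22322100)])))) (.add (.mul (.g 3) (.pp [(1, 30)])) (.mul (.g 6) (.mul (.g
 6) (.pp [(1, 5968500)]))))))) (.add (.mul (.g 6) (.add (.add (.pp [(1, 23425050)]) (.mul (.g 5)
 (.add (.mul (.g 6) (.pp [(1, 416325)])) (.add (.mul (.g 7) (.pp [(1, 75)])) (.mul (.g 8) (.pp [(1,
 75)])))))) (.add (.mul (.g 3) (.add (.pp [(1, 330)]) (.mul (.g 7) (.pp [(1, 300)])))) (.add (.mul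
 (.g 6) (.pp [(1, 17402100)])) (.mul (.g 17) (.pp [(1, 2550)])))))) (.mul (.g 7) (.add (.mul (.g 7)
 (.add (.add (.pp [(1, 909000)]) (.mul (.g 3) (.pp [(1, 300)]))) (.add (.mul (.g 4) (.pp [(1,
 892884)])) (.mul (.g 5) (.pp [(1, 3750075)]))))) (.mul (.g 17) (.mul (.g 17) (.pp [(1,
 22320600)]))))))) (.add (.mul (.g 8) (.add (.mul (.g 8) (.add (.mul (.g 3) (.pp [(1, 300)])) (.add
 (.mul (.g 5) (.pp [(1, 75)])) (.mul (.g 17) (.pp [(1, 1500)]))))) (.add (.mul (.g 3) (.pp [(1,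
 780)])) (.mul (.g 17) (.pp [(1, 1500)]))))) (.add (.mul (.g 17) (.add (.pp [(1, 1656900)]) (.mul
 (.g 4) (.pp [(1, 992028)])))) (.mul (.g 3) (.pp [(1, 1080)]))))))) (.add (.mul (.g 0) (.pp [(1,
 50000000)])) (.add (.mul (.g 1) (.pp [(1, 30000)])) (.mul (.g 16) (.pp [(1, 50000000)]))))) (.pp
 [(2, 930384), (4, 1410), (6, 1476), (8, 1575), (10, 1560), (12, 1575), (14, 1431), (16, 1500),
 (18, 1497), (19, 150000000), (20, 1575), (24, 1500), (28, 1650), (30, 1500), (36, 1500), (40,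
 1500), (42, 1425), (50, 1425), (54, 1500), (56, 1500), (60, 1500), (70, 1575), (84, 1500), (90,
 1500), (98, 1500), (100, 1500), (126, 1650), (140, 1500), (150, 1500), (196, 1500), (210, 1500),
 (250, 1500), (294, 1650), (350, 1500), (490, 1500), (686, 1500)])))))
 (.rule 4 (.leaf 15000 (.add (.add (.mul (.g 5) (.add (.add (.mul (.g 8) (.add (.add (.mul (.g 1)
 (.add (.pp [(1, 1245780)]) (.add (.mul (.g 6) (.pp [(1, 30)])) (.mul (.g 7) (.pp [(1, 30)])))))
 (.add (.mul (.g 4) (.add (.pp [(1, 4664625)]) (.add (.mul (.g 6) (.pp [(1, 75)])) (.mul (.g 7)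
 (.pp [(1, 75)]))))) (.mul (.g 8) (.add (.mul (.g 5) (.pp [(1, 108147000)])) (.add (.mul (.g 8)
 (.pp [(1, 24178500)])) (.mul (.g 10) (.pp [(1, 1500)]))))))) (.add (.add (.mul (.g 5) (.mul (.g 5)
 (.pp [(1, 5968500)]))) (.mul (.g 6) (.pp [(1, 91640100)]))) (.add (.mul (.g 12) (.pp [(1,
 3114360)])) (.mul (.g 16) (.pp [(1, 162003000)])))))) (.add (.mul (.g 1) (.add (.add (.pp [(1,
 36)]) (.mul (.g 6) (.add (.add (.pp [(1, 3000033)]) (.mul (.g 5) (.pp [(1, 30)]))) (.add (.mul (.g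
 6) (.pp [(1, 30)])) (.mul (.g 7) (.pp [(1, 30)])))))) (.add (.mul (.g 5) (.add (.pp [(1, 30)])
 (.mul (.g 5) (.pp [(1, 30)])))) (.mul (.g 7) (.add (.pp [(1, 36)]) (.mul (.g 7) (.pp [(1,
 30)]))))))) (.mul (.g 5) (.add (.add (.pp [(1, 23426550)]) (.mul (.g 4) (.add (.mul (.g 5) (.pp
 [(1, 416325)])) (.mul (.g 6) (.pp [(1, 75)]))))) (.add (.mul (.g 5) (.pp [(1, 17401950)])) (.mul
 (.g 16) (.pp [(1, 1800)]))))))) (.add (.mul (.g 6) (.add (.mul (.g 6) (.add (.mul (.g 4) (.pp [(1,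
 75)])) (.mul (.g 16) (.pp [(1, 1500)])))) (.mul (.g 3) (.pp [(1, 323088)])))) (.add (.mul (.g 16)
 (.add (.pp [(1, 12930000)]) (.mul (.g 3) (.pp [(1, 322956)])))) (.mul (.g 4) (.mul (.g 7) (.mul
 (.g 7) (.pp [(1, 75)])))))))) (.add (.mul (.g 0) (.pp [(1, 50000000)])) (.mul (.g 15) (.pp [(1,
 50000000)])))) (.pp [(2, 1034496), (4, 1440), (6, 1425), (8, 1515), (10, 1548), (12, 1515), (14,
 1407), (16, 1500), (18, 1515), (19, 150000000), (20, 1500), (23, 150000000), (24, 1500), (28,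
 1500), (30, 1440), (36, 1500), (40, 1500), (42, 1515), (50, 1515), (54, 1500), (56, 1500), (60,
 1500), (70, 1515), (84, 1500), (90, 1500), (98, 1500), (100, 1500), (126, 1500), (140, 1500),
 (150, 1500), (196, 1500), (210, 1500), (250, 1500), (294, 1500), (350, 1500), (490, 1500), (686,
 1500)])))))))
 (.split [(1, -17), (3, 25)]
 (.split [(1, -3), (5, 5)]
 (.split [(2, 1), (3, -1)]
 (.rule 0 (.rule 6 (.rule 7 (.cut 17 [(1, 3), (5, -2)] (.add (.add (.mul (.g 12) (.pp [(1, 34)]))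
 (.mul (.g 8) (.pp [(1, 9)]))) (.add (.mul (.g 5) (.pp [(1, 1)])) (.mul (.g 11) (.pp [(1, 34)]))))
 (.rule 12 (.leaf 300000000 (.add (.add (.add (.add (.mul (.g 12) (.add (.add (.mul (.g 12) (.add
 (.add (.mul (.g 12) (.add (.add (.mul (.g 6) (.pp [(1, 240003000000)])) (.mul (.g 14) (.pp [(1,
 38643000000)]))) (.add (.mul (.g 17) (.pp [(1, 17589000000)])) (.mul (.g 20) (.pp [(1,
 27894000000)]))))) (.mul (.g 10) (.add (.mul (.g 5) (.pp [(1, 1985379000000)])) (.add (.mul (.g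
 18) (.pp [(1, 1751310000000)])) (.mul (.g 20) (.pp [(1, 214842000000)])))))) (.add (.mul (.g 11)
 (.add (.mul (.g 16) (.pp [(1, 10282500000)])) (.mul (.g 17) (.pp [(1, 312945000000)])))) (.add
 (.mul (.g 5) (.mul (.g 5) (.pp [(1, 1888875000000)]))) (.mul (.g 17) (.mul (.g 17) (.pp [(1,
 2004972000000)]))))))) (.add (.mul (.g 20) (.add (.add (.pp [(1, 1278132000000)]) (.mul (.g 17)
 (.add (.mul (.g 5) (.pp [(1, 600435000000)])) (.add (.mul (.g 9) (.pp [(1, 378459000000)])) (.mul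
 (.g 11) (.pp [(1, 1211691000000)])))))) (.add (.mul (.g 10) (.add (.mul (.g 11) (.pp [(1,
 947904000000)])) (.mul (.g 18) (.pp [(1, 199668000000)])))) (.mul (.g 9) (.mul (.g 20) (.pp [(1,
 214905000000)])))))) (.mul (.g 18) (.add (.add (.mul (.pp [(1, 645000)]) (.sq [(1, -30), (2, -32),
 (3, -92), (5, 100), (7, -65)])) (.mul (.pp [(1, 101749800)]) (.sq [(1, -13), (2, 8), (3, -49), (5,
 25), (7, 100)]))) (.add (.mul (.g 5) (.mul (.g 18) (.pp [(1, 498807000000)]))) (.mul (.g 9) (.mul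
 (.g 11) (.pp [(1, 257436000000)])))))))) (.add (.add (.mul (.g 7) (.add (.mul (.pp [(1, 1568388)])
 (.sq [(1, 52), (2, 27), (3, -72), (5, 78), (7, 100)])) (.add (.mul (.g 6) (.pp [(1, 977280000)]))
 (.mul (.g 10) (.mul (.g 13) (.pp [(1, 14590800000)])))))) (.mul (.g 10) (.add (.mul (.g 6) (.pp
 [(1, 77273400000)])) (.mul (.g 10) (.mul (.g 13) (.pp [(1, 926211000000)])))))) (.add (.mul (.g
 16) (.add (.mul (.pp [(1, 604425)]) (.sq [(1, 62), (2, 31), (3, 12), (5, 91), (7, 100)])) (.mul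
 (.g 5) (.mul (.g 9) (.pp [(1, 30328050000)]))))) (.mul (.g 11) (.mul (.g 11) (.mul (.g 13) (.pp
 [(1, 100473000000)])))))))) (.add (.mul (.g 5) (.add (.add (.add (.mul (.g 5) (.add (.mul (.pp
 [(1, 31650000)]) (.sq [(1, -71), (2, -6), (3, -71), (5, -30), (7, 100)])) (.add (.mul (.pp [(1,
 75652800)]) (.sq [(1, 25), (2, -19), (3, 16), (5, 8), (7, -9)])) (.mul (.g 10) (.pp [(1,
 379362000000)]))))) (.mul (.g 15) (.add (.pp [(1, 256557000000)]) (.mul (.g 9) (.mul (.g 20) (.pp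
 [(1, 102768000000)])))))) (.add (.mul (.g 6) (.mul (.pp [(1, 3864360)]) (.sq [(1, 26), (2, 51),
 (3, 6), (5, 8), (7, 100)]))) (.mul (.g 7) (.pp [(1, 13043040000)])))) (.add (.add (.mul (.g 8)
 (.mul (.pp [(1, 468810)]) (.sq [(1, -100), (2, -62), (3, -79), (5, -38), (7, 64)]))) (.mul (.g 10)
 (.pp [(1, 461517000000)]))) (.add (.mul (.g 13) (.pp [(1, 640776000000)])) (.mul (.g 20) (.pp [(1,
 1177920000000)])))))) (.mul (.g 20) (.add (.add (.mul (.g 8) (.mul (.g 9) (.add (.mul (.g 10) (.pp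
 [(1, 16957350000)])) (.mul (.g 11) (.pp [(1, 7549650000)]))))) (.add (.mul (.g 16) (.add (.mul
 (.pp [(1, 1793400)]) (.sq [(1, -38), (2, -41), (3, -18), (5, -49), (7, 100)])) (.mul (.pp [(1,
 118920)]) (.sq [(1, -60), (2, 11), (3, 30), (5, 96), (7, 100)])))) (.mul (.g 17) (.add (.pp [(1,
 654054000000)]) (.mul (.pp [(1, 2270700)]) (.sq [(1, -100), (2, 53), (3, 31), (5, 97), (7,
 97)])))))) (.add (.mul (.g 10) (.mul (.g 10) (.mul (.g 10) (.pp [(1, 38880000000)])))) (.add (.mul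
 (.g 14) (.mul (.pp [(1, 12432600)]) (.sq [(1, 19), (2, 59), (3, -36), (5, 100), (7, -79)]))) (.mul
 (.g 20) (.mul (.pp [(1, 5852700)]) (.sq [(1, -100), (2, 57), (3, 17), (5, 53), (7, 69)])))))))))
 (.add (.mul (.g 18) (.add (.add (.mul (.g 18) (.add (.pp [(1, 227178000000)]) (.add (.mul (.pp
 [(1, 1429800)]) (.sq [(1, 41), (2, 21), (3, 100), (5, -38), (7, 98)])) (.mul (.pp [(1,
 47205000000)]) (.sq [(3, 1), (7, -1)]))))) (.mul (.g 9) (.mul (.g 9) (.add (.mul (.g 9) (.pp [(1,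
 352152000000)])) (.mul (.g 15) (.pp [(1, 460563000000)])))))) (.add (.mul (.g 7) (.pp [(1,
 29301120000)])) (.mul (.g 15) (.mul (.pp [(1, 5982000)]) (.sq [(1, 38), (2, 100), (3, -37), (5,
 -25), (7, 6)])))))) (.add (.mul (.g 7) (.add (.mul (.g 14) (.add (.mul (.pp [(1, 667116)]) (.sq
 [(1, -11), (2, -37), (3, -51), (5, 29), (7, 100)])) (.mul (.pp [(1, 29388)]) (.sq [(1, 50), (2,
 100), (3, -57), (5, -15), (7, 4)])))) (.add (.mul (.g 9) (.mul (.g 10) (.mul (.g 10) (.pp [(1,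
 13781520000)])))) (.mul (.g 17) (.mul (.pp [(1, 2297196)]) (.sq [(1, 16), (2, -17), (3, -34), (5,
 10), (7, 100)])))))) (.mul (.g 13) (.mul (.g 13) (.add (.mul (.pp [(1, 72932400)]) (.sq [(1, 41),
 (2, -100), (3, 59), (5, 59), (7, -59)])) (.add (.mul (.g 16) (.add (.mul (.g 8) (.pp [(1,
 2417917500)])) (.mul (.g 16) (.pp [(1, 530002500)])))) (.mul (.g 9) (.mul (.g 13) (.pp [(1,
 154458000000)])))))))))) (.add (.add (.mul (.g 6) (.add (.mul (.g 6) (.pp [(1, 8347560000)]))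
 (.add (.mul (.g 8) (.mul (.g 11) (.mul (.g 11) (.pp [(1, 57540000)])))) (.mul (.g 17) (.pp [(1,
 21741600000)]))))) (.add (.mul (.g 16) (.add (.mul (.g 14) (.mul (.pp [(1, 573450)]) (.sq [(1,
 13), (2, 67), (3, -55), (5, 20), (7, 100)]))) (.mul (.g 15) (.mul (.pp [(1, 31155)]) (.sq [(1,
 20), (2, -35), (3, -30), (5, 100), (7, 67)]))))) (.mul (.g 0) (.pp [(1, 300000000)])))) (.add
 (.add (.mul (.g 2) (.pp [(1, 2400000000)])) (.mul (.g 3) (.pp [(1, 1000000000000)]))) (.add (.mul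
 (.g 4) (.pp [(1, 1000000000000)])) (.mul (.g 19) (.pp [(1, 1000000000000)])))))) (.pp [(1,
 11518209654), (2, 30097242), (3, 19588434), (4, 29040414), (5, 25110642), (6, 39134904), (7,
 22540884), (8, 33679763), (9, 36765090), (10, 36867204), (12, 23905257), (14, 22655268), (15,
 36872856), (16, 28869900), (18, 25328976), (20, 25013645), (21, 44580576), (24, 33215700), (25,
 31240368), (27, 30068392), (28, 30166119), (30, 25091208), (35, 39192732), (36, 28802700), (40,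
 30648000), (42, 33612966), (45, 22339530), (49, 39235536), (50, 30638624), (54, 31512600), (56,
 26919300), (60, 28956300), (63, 20870160), (70, 31912932), (75, 25346424), (81, 28960200), (84,
 35708700), (90, 34239600), (98, 36219141), (100, 31576500), (105, 23366364), (125, 28510248),
 (126, 29066400), (135, 30574200), (140, 33655500), (147, 14431659), (150, 28654800), (175,
 24541029), (189, 28802700), (196, 29128200), (210, 26944800), (225, 34434600), (245, 21452619),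
 (250, 28035600), (294, 28341600), (315, 34792800), (343, 28827300), (350, 26276100), (375,
 32349000), (441, 34167600), (490, 31323600), (525, 32986200), (625, 30718800), (686, 27518400),
 (735, 36836400), (875, 32169300), (1029, 33283500), (1225, 28482600), (1715, 31620600), (2401,
 29295300)]))))))))
 (.rule 1 (.rule 6 (.rule 7 (.cut 1 [(1, 3), (5, -2)] (.add (.add (.mul (.g 7) (.pp [(1, 1)]))
 (.mul (.g 3) (.pp [(1, 2)]))) (.add (.mul (.g 12) (.pp [(1, 2)])) (.mul (.g 11) (.pp [(1, 1)]))))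
 (.rule 12 (.leaf 600000000 (.add (.add (.add (.add (.mul (.pp [(1, 326124000)]) (.sq [(1, -27),
 (2, 50), (3, 23), (5, -33), (7, -3)])) (.add (.mul (.pp [(1, 14697600)]) (.sq [(1, 32), (2, -87),
 (3, 100), (5, -88), (7, -3)])) (.mul (.g 12) (.add (.add (.mul (.g 12) (.add (.add (.mul (.g 12)
 (.add (.add (.mul (.g 8) (.pp [(1, 59680500000)])) (.mul (.g 11) (.pp [(1, 94980000000)]))) (.add
 (.mul (.g 12) (.pp [(1, 36318000000)])) (.mul (.g 17) (.pp [(1, 93156000000)]))))) (.mul (.g 5)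
 (.add (.mul (.g 5) (.pp [(1, 43710000000)])) (.mul (.g 13) (.pp [(1, 2215194000000)]))))) (.add
 (.mul (.g 7) (.add (.mul (.g 9) (.pp [(1, 142761600000)])) (.mul (.g 13) (.pp [(1,
 4700400000)])))) (.add (.mul (.g 11) (.mul (.g 11) (.pp [(1, 12192000000)]))) (.mul (.g 20) (.pp
 [(1, 1064688000000)])))))) (.add (.mul (.g 20) (.add (.add (.pp [(1, 1260552000000)]) (.add (.mul
 (.pp [(1, 22392000)]) (.sq [(2, 23), (3, 50), (5, -19), (7, -35)])) (.mul (.pp [(1, 1879800)])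
 (.sq [(1, 100), (2, 45), (3, 85), (5, 85), (7, 69)])))) (.add (.mul (.g 9) (.add (.pp [(1,
 1086300000000)]) (.mul (.g 13) (.pp [(1, 1140804000000)])))) (.add (.mul (.g 11) (.add (.pp [(1,
 270810000000)]) (.mul (.g 7) (.pp [(1, 2154000000)])))) (.mul (.g 10) (.pp [(1,
 96006000000)])))))) (.mul (.g 6) (.add (.pp [(1, 92364000000)]) (.add (.mul (.g 10) (.add (.mul
 (.g 17) (.pp [(1, 88047600000)])) (.mul (.g 18) (.pp [(1, 42183600000)])))) (.mul (.g 11) (.add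
 (.pp [(1, 181246800000)]) (.mul (.g 6) (.pp [(1, 183360000)]))))))))) (.add (.mul (.g 13) (.add
 (.mul (.pp [(1, 100374600)]) (.sq [(1, -1), (2, -2), (3, -56), (5, 4), (7, 100)])) (.add (.mul (.g
 8) (.mul (.g 13) (.pp [(1, 150339300000)]))) (.mul (.g 9) (.mul (.g 9) (.pp [(1,
 1983798000000)])))))) (.add (.mul (.g 5) (.add (.mul (.pp [(1, 27422400)]) (.sq [(1, 30), (2,
 100), (3, 17), (5, -4), (7, -71)])) (.mul (.g 8) (.mul (.g 10) (.pp [(1, 32079000000)]))))) (.mul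
 (.g 9) (.mul (.pp [(1, 85998600)]) (.sq [(2, 13), (3, -68), (5, 28), (7, 100)]))))))))) (.add
 (.mul (.g 14) (.add (.add (.add (.mul (.g 9) (.add (.add (.mul (.g 9) (.add (.add (.mul (.g 9)
 (.pp [(1, 200646000000)])) (.mul (.g 10) (.pp [(1, 69648000000)]))) (.add (.mul (.g 15) (.pp [(1,
 731886000000)])) (.add (.mul (.g 16) (.pp [(1, 440700000)])) (.mul (.g 20) (.pp [(1,
 743850000000)])))))) (.mul (.g 5) (.mul (.g 14) (.pp [(1, 26886000000)])))) (.add (.mul (.g 6)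
 (.pp [(1, 159489600000)])) (.mul (.g 7) (.mul (.g 10) (.pp [(1, 16272720000)])))))) (.mul (.g 6)
 (.add (.pp [(1, 136976400000)]) (.mul (.g 11) (.mul (.g 11) (.pp [(1, 18117600000)])))))) (.add
 (.mul (.g 10) (.add (.mul (.pp [(1, 7941600)]) (.sq [(1, -42), (2, 70), (3, 41), (5, 100), (7,
 -97)])) (.mul (.g 7) (.mul (.g 10) (.pp [(1, 3314640000)]))))) (.mul (.g 14) (.add (.pp [(1,
 1103592000000)]) (.mul (.pp [(1, 7786200)]) (.sq [(1, 49), (2, -18), (3, 45), (5, 100), (7,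
 34)])))))) (.add (.add (.mul (.g 20) (.add (.pp [(1, 345768000000)]) (.mul (.pp [(1, 6659400)])
 (.sq [(1, 1), (2, 40), (3, -60), (5, 100), (7, -58)])))) (.mul (.g 8) (.mul (.g 11) (.pp [(1,
 35164500000)])))) (.add (.mul (.g 16) (.mul (.pp [(1, 410070)]) (.sq [(1, 44), (2, 72), (3, -14),
 (5, -31), (7, 100)]))) (.add (.mul (.g 17) (.mul (.pp [(1, 55435200)]) (.sq [(1, -28), (2, 50),
 (3, 33), (5, 50), (7, 33)]))) (.mul (.g 18) (.mul (.pp [(1, 4426200)]) (.sq [(1, 30), (2, 1), (3,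
 100), (5, -57), (7, 62)])))))))) (.add (.mul (.g 20) (.add (.add (.mul (.g 6) (.add (.mul (.pp
 [(1, 3280464000)]) (.sq [(1, 5), (2, 4), (3, 2), (5, 2), (7, 2)])) (.add (.mul (.g 6) (.mul (.g
 10) (.pp [(1, 1413120000)]))) (.mul (.g 11) (.mul (.g 11) (.pp [(1, 32060400000)])))))) (.add
 (.mul (.g 11) (.add (.mul (.g 17) (.mul (.g 17) (.pp [(1, 344742000000)]))) (.mul (.g 20) (.pp
 [(1, 503562000000)])))) (.mul (.g 5) (.mul (.pp [(1, 16589400)]) (.sq [(1, -83), (2, 33), (5,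
 100), (7, 62)]))))) (.add (.add (.mul (.g 8) (.mul (.g 8) (.mul (.g 8) (.pp [(1, 25617000)]))))
 (.mul (.g 9) (.mul (.pp [(1, 45432000)]) (.sq [(1, -32), (2, 8), (3, 50), (5, -28), (7, 15)]))))
 (.add (.mul (.g 10) (.mul (.pp [(1, 30246000)]) (.sq [(1, 63), (2, -100), (3, -78), (5, 48), (7,
 -28)]))) (.mul (.g 17) (.pp [(1, 416874000000)])))))) (.mul (.g 6) (.add (.mul (.g 6) (.add (.pp
 [(1, 18870240000)]) (.mul (.g 9) (.add (.mul (.g 9) (.pp [(1, 25538880000)])) (.mul (.g 18) (.pp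
 [(1, 568560000)])))))) (.add (.mul (.g 5) (.mul (.g 13) (.mul (.g 13) (.pp [(1, 191512800000)]))))
 (.mul (.g 17) (.pp [(1, 153700800000)])))))))) (.add (.add (.mul (.g 10) (.add (.mul (.pp [(1,
 41465400)]) (.sq [(1, -9), (2, 15), (3, 88), (5, -100), (7, -4)])) (.mul (.g 7) (.add (.mul (.g 5)
 (.mul (.g 17) (.pp [(1, 32259360000)]))) (.mul (.g 7) (.mul (.g 7) (.pp [(1, 62898048)])))))))
 (.add (.mul (.g 0) (.pp [(1, 600000000)])) (.mul (.g 2) (.pp [(1, 4800000000)])))) (.add (.add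
 (.mul (.g 3) (.pp [(1, 2000000000000)])) (.mul (.g 4) (.pp [(1, 2000000000000)]))) (.add (.mul (.g
 16) (.mul (.g 16) (.mul (.pp [(1, 68469)]) (.sq [(1, -86), (2, 100), (3, 14), (5, 15), (7,
 100)])))) (.mul (.g 19) (.pp [(1, 2000000000000)])))))) (.pp [(1, 7811941236), (2, 51581520), (3,
 70586736), (4, 61563600), (5, 62591340), (6, 62823600), (7, 63071400), (8, 58715520), (9,
 61029876), (10, 68600760), (12, 57789000), (14, 67078200), (15, 54154140), (16, 57328800), (18,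
 65805720), (20, 53613760), (21, 60217200), (24, 56675400), (25, 65598945), (27, 52044360), (28,
 69629400), (30, 71909640), (35, 52530000), (36, 67608000), (40, 64239000), (42, 51079200), (45,
 52852320), (49, 60418800), (50, 66461950), (54, 55729200), (56, 65035200), (60, 65214600), (63,
 54592200), (70, 56767200), (75, 53166330), (81, 64170600), (84, 42272400), (90, 45711600), (98,
 70856400), (100, 66710400), (105, 51268800), (125, 52548570), (126, 73904400), (135, 63171600),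
 (140, 47080800), (147, 61885200), (150, 45840000), (175, 56671800), (189, 64085400), (196,
 57075000), (210, 60824400), (225, 66015600), (245, 54514800), (250, 53110200), (294, 59700000),
 (315, 68420400), (343, 64465800), (350, 62976000), (375, 66130200), (441, 63417000), (490,
 49568400), (525, 64102200), (625, 64611600), (686, 63524400), (735, 69921600), (875, 60021600),
 (1029, 57959400), (1225, 63507000), (1715, 58472400), (2401, 61927800)])))))))))
 (.split [(1, -7), (5, 50)]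
 (.split [(2, 1), (3, -1)]
 (.rule 0 (.cut 575 [(2, 1), (5, -1)] (.add (.add (.mul (.g 2) (.pp [(1, 2)])) (.mul (.g 4) (.pp
 [(1, 23)]))) (.add (.mul (.g 1) (.pp [(1, 575)])) (.mul (.g 3) (.pp [(1, 135)])))) (.rule 2 (.rule
 7 (.rule 11 (.leaf 15000000000 (.add (.add (.add (.add (.add (.mul (.g 13) (.add (.add (.mul (.g
 21) (.add (.add (.pp [(1, 115527750000000)]) (.mul (.pp [(1, 1050075000)]) (.sq [(1, 34), (2, 39),
 (3, -49), (5, 100), (7, -17)]))) (.add (.mul (.g 11) (.add (.mul (.g 12) (.pp [(1,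
 4189650000000)])) (.add (.mul (.g 13) (.pp [(1, 138734700000000)])) (.mul (.g 21) (.pp [(1,
 30324600000000)]))))) (.add (.mul (.g 5) (.add (.mul (.g 14) (.pp [(1, 71919450000000)])) (.mul
 (.g 19) (.pp [(1, 2378550000000)])))) (.mul (.g 13) (.add (.mul (.g 13) (.pp [(1,
 1715550000000)])) (.mul (.g 18) (.pp [(1, 100732350000000)])))))))) (.mul (.g 8) (.add (.add (.pp
 [(1, 4025532000000)]) (.mul (.g 5) (.add (.mul (.g 5) (.pp [(1, 29034000000)])) (.mul (.g 10) (.pp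
 [(1, 238452000000)]))))) (.add (.mul (.g 7) (.mul (.g 11) (.pp [(1, 310675200000)]))) (.add (.mul
 (.g 12) (.mul (.g 18) (.pp [(1, 456474000000)]))) (.mul (.g 13) (.mul (.g 15) (.pp [(1,
 1592862000000)])))))))) (.add (.mul (.g 13) (.add (.mul (.pp [(1, 1970310000)]) (.sq [(1, 23), (2,
 22), (3, 100), (5, 36), (7, 32)])) (.add (.mul (.g 13) (.add (.pp [(1, 108961500000000)]) (.mul
 (.g 7) (.pp [(1, 1389240000000)])))) (.mul (.g 6) (.mul (.g 11) (.pp [(1, 199323000000)]))))))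
 (.add (.mul (.g 6) (.add (.mul (.g 6) (.mul (.g 6) (.pp [(1, 123658800)]))) (.mul (.g 11) (.mul
 (.g 16) (.pp [(1, 533889000000)]))))) (.mul (.g 7) (.pp [(1, 3546060000000)])))))) (.mul (.g 5)
 (.add (.add (.add (.mul (.g 14) (.add (.add (.pp [(1, 12893700000000)]) (.mul (.pp [(1,
 3863160000)]) (.sq [(1, -17), (2, 50), (3, -8), (5, 20), (7, -16)]))) (.add (.mul (.g 9) (.mul (.g
 9) (.pp [(1, 109717500000)]))) (.add (.mul (.g 12) (.mul (.g 19) (.pp [(1, 7393500000000)])))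
 (.mul (.g 14) (.mul (.g 15) (.pp [(1, 10184700000000)]))))))) (.mul (.g 5) (.add (.mul (.pp [(1,
 16836960000)]) (.sq [(1, 25), (2, -19), (3, 16), (5, 8), (7, -9)])) (.add (.mul (.pp [(1,
 364635000)]) (.sq [(1, 21), (2, 29), (3, -73), (5, 100), (7, 63)])) (.mul (.g 11) (.pp [(1,
 23526600000000)])))))) (.add (.mul (.g 7) (.add (.pp [(1, 4733010000000)]) (.add (.mul (.g 7)
 (.mul (.g 11) (.pp [(1, 305754000000)]))) (.mul (.g 12) (.mul (.g 18) (.pp [(1,
 2129580000000)])))))) (.mul (.g 10) (.add (.mul (.pp [(1, 871500000)]) (.sq [(1, 58), (2, 100),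
 (3, -17), (5, 78), (7, -72)])) (.mul (.g 16) (.mul (.g 21) (.pp [(1, 3442200000000)]))))))) (.add
 (.add (.mul (.g 8) (.mul (.g 12) (.mul (.g 12) (.pp [(1, 279330000000)])))) (.mul (.g 11) (.pp
 [(1, 51419550000000)]))) (.add (.mul (.g 17) (.mul (.pp [(1, 8772750)]) (.sq [(1, 66), (2, -45),
 (3, 100), (5, -22), (7, 65)]))) (.mul (.g 21) (.pp [(1, 13846350000000)]))))))) (.add (.mul (.g
 17) (.add (.add (.mul (.g 14) (.add (.pp [(1, 701017500000)]) (.add (.mul (.g 14) (.mul (.g 17)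
 (.pp [(1, 13873500000)]))) (.mul (.g 16) (.pp [(1, 852697500000)]))))) (.mul (.g 16) (.add (.mul
 (.pp [(1, 16104000)]) (.sq [(1, 10), (2, -20), (3, 18), (5, 50), (7, 7)])) (.mul (.pp [(1,
 29583750)]) (.sq [(1, -32), (2, 5), (3, -36), (5, -8), (7, 100)]))))) (.add (.mul (.g 19) (.add
 (.mul (.g 9) (.mul (.g 15) (.pp [(1, 7756875000)]))) (.mul (.g 10) (.mul (.g 10) (.pp [(1,
 1220242500000)]))))) (.add (.mul (.g 18) (.pp [(1, 160230000000)])) (.mul (.g 21) (.mul (.pp [(1,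
 41638500)]) (.sq [(1, 60), (2, -47), (3, 100), (5, -39), (7, 29)]))))))) (.mul (.g 11) (.add (.add
 (.mul (.g 11) (.add (.mul (.pp [(1, 505665000)]) (.sq [(1, -11), (2, -5), (3, -77), (5, 100), (7,
 5)])) (.add (.mul (.g 7) (.mul (.g 21) (.pp [(1, 4584990000000)]))) (.mul (.g 8) (.mul (.g 19)
 (.pp [(1, 1141122000000)])))))) (.mul (.g 6) (.mul (.g 6) (.add (.mul (.g 8) (.pp [(1,
 640958400)])) (.mul (.g 21) (.pp [(1, 4537560000)])))))) (.add (.mul (.g 9) (.mul (.g 10) (.mul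
 (.g 21) (.pp [(1, 2109780000000)])))) (.mul (.g 12) (.mul (.pp [(1, 1308210000)]) (.sq [(1, 9),
 (2, 2), (3, 100), (5, -95), (7, 34)])))))))) (.add (.add (.mul (.g 7) (.add (.mul (.g 7) (.add
 (.pp [(1, 3072030000000)]) (.mul (.g 12) (.mul (.g 19) (.pp [(1, 843252000000)]))))) (.add (.mul
 (.g 8) (.add (.pp [(1, 734100000000)]) (.mul (.g 10) (.mul (.g 10) (.pp [(1, 17696400000)])))))
 (.mul (.g 6) (.mul (.g 9) (.pp [(1, 17637090000)])))))) (.mul (.g 21) (.add (.add (.mul (.g 12)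
 (.mul (.g 12) (.mul (.g 12) (.pp [(1, 13788600000000)])))) (.mul (.g 14) (.mul (.pp [(1,
 1884675000)]) (.sq [(1, -54), (2, 46), (3, 28), (5, 37), (7, 100)])))) (.add (.mul (.g 16) (.mul
 (.pp [(1, 46470000)]) (.sq [(1, -51), (2, 42), (3, 30), (5, 35), (7, 100)]))) (.mul (.g 18) (.pp
 [(1, 29155500000000)])))))) (.add (.mul (.g 6) (.add (.mul (.g 6) (.mul (.g 6) (.mul (.g 6) (.pp
 [(1, 3225528)])))) (.mul (.g 9) (.mul (.g 9) (.mul (.g 9) (.pp [(1, 22291875)])))))) (.mul (.g 0)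
 (.pp [(1, 30000000000)]))))) (.add (.add (.add (.mul (.g 1) (.pp [(1, 120000000000)])) (.mul (.g
 2) (.pp [(1, 50000000000000)]))) (.add (.mul (.g 4) (.pp [(1, 50000000000000)])) (.mul (.g 8)
 (.mul (.g 8) (.pp [(1, 51290880000)]))))) (.add (.add (.mul (.g 9) (.mul (.g 9) (.mul (.pp [(1,
 1821825)]) (.sq [(1, -3), (2, 99), (3, 62), (5, -45), (7, -100)])))) (.mul (.g 14) (.mul (.g 14)
 (.mul (.pp [(1, 745395000)]) (.sq [(1, 41), (2, -100), (3, 59), (5, 59), (7, -59)]))))) (.add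
 (.mul (.g 15) (.mul (.g 19) (.mul (.pp [(1, 174825000)]) (.sq [(1, 19), (2, 100), (3, -96), (5,
 -21), (7, -51)])))) (.mul (.g 20) (.pp [(1, 50000000000000)])))))) (.pp [(1, 2678886262722), (2,
 1225319550), (3, 1483835100), (4, 1591224675), (5, 1593961800), (6, 1604175300), (7, 1313753400),
 (8, 1484698000), (9, 1471979700), (10, 1801170750), (12, 1228234500), (14, 1814271000), (15,
 1251757500), (16, 1439175000), (18, 1763418000), (20, 1335198750), (21, 1561485000), (24,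
 1707270000), (25, 1271575875), (27, 1509464000), (28, 1199049000), (30, 1829016000), (35,
 1345182000), (36, 1451580000), (40, 1364415000), (42, 1442224500), (45, 1535364000), (49,
 1679326500), (50, 1461594000), (54, 1592070000), (56, 1481730000), (60, 1814445000), (63,
 1627047000), (70, 1476636000), (75, 1566484500), (81, 1418820000), (84, 1404825000), (90,
 1063320000), (98, 1147218750), (100, 1519560000), (105, 1822560000), (125, 1525220000), (126,
 1661760000), (135, 1636800000), (140, 1633170000), (147, 1638303750), (150, 1242765000), (175,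
 1481038500), (189, 1319175000), (196, 1685400000), (210, 1665870000), (225, 1481580000), (245,
 1614267000), (250, 1321005000), (294, 1507590000), (315, 1140480000), (343, 1513498500), (350,
 1418475000), (375, 1818465000), (441, 1294350000), (490, 1607970000), (525, 1531770000), (625,
 1584975000), (686, 1594500000), (735, 1110780000), (875, 1567770000), (1029, 1272195000), (1225,
 1540755000), (1715, 1410330000), (2401, 1424235000)]))))))))
 (.rule 1 (.rule 6 (.rule 7 (.rule 11 (.leaf 7500000000 (.add (.add (.add (.add (.add (.mul (.pp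
 [(1, 796237500)]) (.sq [(1, -57), (2, -35), (3, 100), (5, -28), (7, -1)])) (.mul (.pp [(1,
 1256430000)]) (.sq [(1, -15), (2, 53), (3, 39), (5, -100), (7, 10)]))) (.add (.mul (.g 12) (.add
 (.add (.mul (.g 10) (.add (.add (.mul (.g 20) (.add (.add (.mul (.g 9) (.pp [(1, 7792650000000)]))
 (.mul (.g 10) (.pp [(1, 6144975000000)]))) (.add (.mul (.g 12) (.pp [(1, 7010175000000)])) (.mul
 (.g 20) (.pp [(1, 10814250000000)]))))) (.mul (.g 5) (.add (.mul (.g 16) (.pp [(1, 693300000)]))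
 (.mul (.g 17) (.pp [(1, 150946500000)]))))) (.add (.mul (.g 6) (.add (.mul (.g 8) (.pp [(1,
 106797750000)])) (.mul (.g 14) (.pp [(1, 504780000000)])))) (.add (.mul (.g 7) (.add (.mul (.g 9)
 (.pp [(1, 584424000000)])) (.mul (.g 10) (.pp [(1, 174498000000)])))) (.mul (.g 8) (.mul (.g 13)
 (.pp [(1, 1461663750000)]))))))) (.add (.mul (.g 12) (.add (.add (.mul (.pp [(1, 26160000)]) (.sq
 [(1, -29), (2, -27), (3, -10), (5, -58), (7, 100)])) (.mul (.g 12) (.add (.add (.pp [(1,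
 8804325000000)]) (.mul (.g 9) (.pp [(1, 6392325000000)]))) (.add (.mul (.g 17) (.pp [(1,
 3210375000000)])) (.mul (.g 20) (.pp [(1, 262350000000)])))))) (.add (.mul (.g 5) (.add (.mul (.g
 14) (.pp [(1, 26974500000)])) (.mul (.g 18) (.pp [(1, 17082000000)])))) (.mul (.g 7) (.mul (.g 17)
 (.pp [(1, 332781000000)])))))) (.mul (.g 11) (.add (.mul (.g 7) (.add (.mul (.g 17) (.pp [(1,
 978345000000)])) (.mul (.g 20) (.pp [(1, 10761000000)])))) (.add (.mul (.g 4) (.mul (.g 17) (.pp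
 [(1, 5294475000000)]))) (.mul (.g 16) (.pp [(1, 135960000000)]))))))) (.add (.add (.mul (.g 9)
 (.mul (.g 20) (.add (.pp [(1, 2169075000000)]) (.add (.mul (.g 13) (.pp [(1, 55210050000000)]))
 (.mul (.g 20) (.pp [(1, 6140850000000)])))))) (.mul (.g 4) (.mul (.g 8) (.add (.mul (.g 4) (.pp
 [(1, 225123750000)])) (.mul (.g 13) (.pp [(1, 436301250000)])))))) (.add (.mul (.g 7) (.pp [(1,
 313872000000)])) (.mul (.g 16) (.pp [(1, 8276250000)])))))) (.mul (.g 14) (.add (.add (.mul (.g 8)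
 (.add (.add (.mul (.pp [(1, 579000)]) (.sq [(1, 28), (2, 100), (3, 58), (5, 32), (7, -93)])) (.add
 (.mul (.g 4) (.mul (.g 13) (.pp [(1, 39093750000)]))) (.mul (.g 5) (.pp [(1, 20505600000)]))))
 (.add (.mul (.g 11) (.mul (.g 11) (.pp [(1, 336123750000)]))) (.add (.mul (.g 14) (.mul (.g 16)
 (.pp [(1, 255375000)]))) (.mul (.g 20) (.pp [(1, 412785000000)])))))) (.mul (.g 14) (.add (.mul
 (.pp [(1, 33285000)]) (.sq [(1, -21), (2, -45), (3, -22), (5, 79), (7, 100)])) (.add (.mul (.g 13)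
 (.add (.mul (.g 14) (.pp [(1, 2309925000000)])) (.mul (.g 17) (.pp [(1, 250350000000)])))) (.mul
 (.g 6) (.mul (.g 6) (.pp [(1, 28383000000)]))))))) (.add (.mul (.g 5) (.mul (.g 5) (.mul (.g 11)
 (.pp [(1, 598890000)])))) (.add (.mul (.g 18) (.mul (.pp [(1, 57915000)]) (.sq [(1, -86), (2, 97),
 (3, 68), (5, 100), (7, 68)]))) (.mul (.g 20) (.mul (.pp [(1, 189180000)]) (.sq [(1, 93), (2, -73),
 (3, -77), (5, -100), (7, -40)]))))))))) (.add (.add (.mul (.g 7) (.add (.mul (.g 7) (.add (.add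
 (.mul (.pp [(1, 411636)]) (.sq [(1, -9), (2, 55), (3, 10), (5, 89), (7, -100)])) (.mul (.g 15)
 (.add (.mul (.g 7) (.pp [(1, 24326400)])) (.mul (.g 10) (.pp [(1, 3488640000)]))))) (.add (.mul
 (.g 6) (.mul (.g 11) (.pp [(1, 3541704000)]))) (.mul (.g 13) (.mul (.g 13) (.pp [(1,
 27647400000)])))))) (.add (.mul (.g 4) (.mul (.g 5) (.mul (.g 6) (.pp [(1, 1368576000)])))) (.mul
 (.g 17) (.mul (.pp [(1, 10536600)]) (.sq [(1, 47), (2, -87), (3, -83), (5, 100), (7, -57)]))))))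
 (.mul (.g 8) (.add (.add (.mul (.g 6) (.add (.mul (.g 4) (.mul (.g 13) (.pp [(1, 1456500000)])))
 (.mul (.g 8) (.mul (.g 8) (.pp [(1, 12296250)]))))) (.mul (.g 8) (.mul (.g 8) (.mul (.g 20) (.pp
 [(1, 1424803125)]))))) (.add (.mul (.g 10) (.mul (.pp [(1, 31718250)]) (.sq [(1, -8), (2, -100),
 (3, 99), (5, -76), (7, 9)]))) (.add (.mul (.g 13) (.mul (.pp [(1, 16218375)]) (.sq [(1, -46), (2,
 100), (3, -12), (5, 56), (7, -39)]))) (.mul (.g 17) (.mul (.g 17) (.mul (.g 17) (.pp [(1,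
 202668750000)]))))))))) (.add (.mul (.g 10) (.add (.add (.mul (.pp [(1, 735067500)]) (.sq [(1,
 -53), (2, -100), (3, 58), (5, 91), (7, -11)])) (.mul (.g 10) (.mul (.pp [(1, 1216260000)]) (.sq
 [(1, -17), (2, 89), (3, 44), (5, -100), (7, -7)])))) (.add (.mul (.g 11) (.mul (.pp [(1,
 677947500)]) (.sq [(1, 12), (2, 100), (3, -7), (5, -89), (7, 7)]))) (.add (.mul (.g 18) (.mul (.pp
 [(1, 194715000)]) (.sq [(1, -69), (2, -92), (3, 75), (5, 100), (7, -12)]))) (.mul (.g 20) (.mul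
 (.pp [(1, 503865000)]) (.sq [(1, 62), (2, -100), (3, -92), (5, 97), (7, -34)]))))))) (.mul (.g 5)
 (.add (.mul (.g 5) (.mul (.g 5) (.mul (.g 20) (.pp [(1, 25648800)])))) (.add (.mul (.g 9) (.mul
 (.pp [(1, 8702250)]) (.sq [(1, 10), (3, -42), (5, 100), (7, 5)]))) (.mul (.g 11) (.mul (.g 11)
 (.mul (.g 17) (.pp [(1, 34905000000)])))))))))) (.add (.add (.add (.mul (.g 13) (.add (.mul (.pp
 [(1, 659152500)]) (.sq [(1, -45), (2, -92), (3, 43), (5, 100), (7, -11)])) (.mul (.g 13) (.mul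
 (.pp [(1, 71310000)]) (.sq [(1, 49), (2, 86), (3, -48), (5, -100), (7, 12)]))))) (.mul (.g 0) (.pp
 [(1, 15000000000)]))) (.add (.mul (.g 1) (.pp [(1, 60000000000)])) (.mul (.g 2) (.pp [(1,
 25000000000000)])))) (.add (.add (.mul (.g 3) (.pp [(1, 25000000000000)])) (.mul (.g 11) (.mul (.g
 17) (.mul (.pp [(1, 883897500)]) (.sq [(1, 64), (2, 9), (3, -100), (5, 47), (7, 80)]))))) (.add
 (.mul (.g 19) (.pp [(1, 25000000000000)])) (.mul (.g 20) (.mul (.pp [(1, 1182345000)]) (.sq [(1,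
 -38), (2, -56), (3, 66), (5, -17), (7, -100)]))))))) (.pp [(1, 7658240451), (2, 678297660), (3,
 819896295), (4, 615172200), (5, 759569958), (6, 1020614100), (7, 717641175), (8, 739245000), (9,
 617683800), (10, 1005279840), (12, 908233200), (14, 822129600), (15, 549631680), (16, 764115000),
 (18, 519398100), (20, 1018842500), (21, 830643000), (24, 715530000), (25, 761811516), (27,
 851526450), (28, 784905000), (30, 250428000), (35, 755713200), (36, 746797500), (40, 668835000),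
 (42, 658049400), (45, 1040013000), (49, 758357175), (50, 400277000), (54, 803355000), (56,
 767880000), (60, 765112500), (63, 628937100), (70, 765054000), (75, 858143100), (81, 714525000),
 (84, 757680000), (90, 810405000), (98, 707841375), (100, 727815000), (105, 726159000), (125,
 769276500), (126, 848220000), (135, 658477500), (140, 712380000), (147, 666796950), (150,
 957195000), (175, 725553000), (189, 818670000), (196, 779467500), (210, 667470000), (225,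
 716962500), (245, 786609000), (250, 776640000), (294, 803055000), (315, 719355000), (343,
 816000000), (350, 735660000), (375, 723720000), (441, 833175000), (490, 747247500), (525,
 775650000), (625, 768315000), (686, 777000000), (735, 698632500), (875, 753000000), (1029,
 749940000), (1225, 733800000), (1715, 768000000), (2401, 750000000)]))))))))
 (.cut 450 [(2, -1), (3, 1)] (.add (.mul (.g 11) (.pp [(1, 7)])) (.add (.mul (.g 10) (.pp [(1,
 310)])) (.mul (.g 0) (.pp [(1, 9)])))) (.rule 1 (.rule 6 (.rule 7 (.leaf 6000000000 (.add (.add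
 (.add (.add (.mul (.g 19) (.add (.add (.add (.mul (.g 11) (.add (.add (.pp [(1, 180120000000)])
 (.add (.mul (.pp [(1, 124368000)]) (.sq [(1, 100), (2, 45), (3, 85), (5, 85), (7, 69)])) (.mul (.g
 19) (.add (.pp [(1, 940800000000)]) (.add (.mul (.g 8) (.pp [(1, 9361980000000)])) (.mul (.g 9)
 (.pp [(1, 3700260000000)]))))))) (.add (.add (.mul (.g 7) (.add (.mul (.g 5) (.pp [(1,
 341386200000)])) (.mul (.g 12) (.pp [(1, 1246422000000)])))) (.mul (.g 4) (.mul (.g 12) (.pp [(1,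
 225500400000)])))) (.add (.mul (.g 9) (.mul (.g 9) (.pp [(1, 5738940000000)]))) (.mul (.g 10)
 (.mul (.g 14) (.pp [(1, 11591280000000)]))))))) (.mul (.g 4) (.add (.add (.mul (.g 4) (.mul (.g
 15) (.pp [(1, 42758400)]))) (.mul (.g 10) (.mul (.g 13) (.pp [(1, 111852000000)])))) (.add (.mul
 (.g 12) (.mul (.g 14) (.pp [(1, 46252800000)]))) (.mul (.g 19) (.mul (.g 19) (.pp [(1,
 38775600000)]))))))) (.add (.mul (.g 10) (.add (.mul (.pp [(1, 3810000)]) (.sq [(1, 90), (2, 100),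
 (3, 71), (5, 71), (7, 71)])) (.mul (.g 8) (.mul (.g 8) (.pp [(1, 26971680000000)]))))) (.mul (.g
 19) (.add (.mul (.pp [(1, 317262000)]) (.sq [(1, -63), (2, -80), (3, 100), (5, 37), (7, -37)]))
 (.mul (.pp [(1, 89100000)]) (.sq [(1, -52), (2, 43), (3, 100), (5, -67), (7, -42)])))))) (.add
 (.add (.mul (.g 6) (.mul (.pp [(1, 8585280)]) (.sq [(1, 27), (2, -66), (3, -64), (5, 100), (7,
 -24)]))) (.mul (.g 7) (.mul (.pp [(1, 4286700)]) (.sq [(1, 93), (2, 92), (3, 71), (5, 100), (7,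
 32)])))) (.add (.mul (.g 13) (.mul (.pp [(1, 311730000)]) (.sq [(1, 93), (2, -73), (3, -77), (5,
 -100), (7, -40)]))) (.mul (.g 16) (.pp [(1, 35280000000)])))))) (.mul (.g 7) (.add (.add (.add
 (.mul (.g 10) (.add (.mul (.g 7) (.add (.mul (.g 5) (.pp [(1, 1429860000)])) (.mul (.g 7) (.pp
 [(1, 573600000)])))) (.add (.mul (.g 11) (.add (.mul (.g 13) (.pp [(1, 1794300000000)])) (.mul (.g
 14) (.pp [(1, 1793889000000)])))) (.mul (.g 13) (.pp [(1, 382431000000)]))))) (.mul (.g 11) (.add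
 (.pp [(1, 315918000000)]) (.mul (.g 17) (.add (.mul (.g 5) (.pp [(1, 345531600000)])) (.mul (.g
 15) (.pp [(1, 96475950000)]))))))) (.add (.mul (.g 7) (.add (.pp [(1, 9874800000)]) (.mul (.g 8)
 (.mul (.g 12) (.pp [(1, 7410000000)]))))) (.mul (.g 13) (.add (.pp [(1, 304827000000)]) (.mul (.pp
 [(1, 67283400)]) (.sq [(1, 8), (2, 20), (3, 17), (5, 100), (7, -81)])))))) (.add (.add (.mul (.g
 16) (.add (.mul (.pp [(1, 83360400)]) (.sq [(1, -51), (2, -6), (3, 100), (5, -47), (7, -35)]))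
 (.mul (.g 16) (.mul (.g 16) (.pp [(1, 79569000000)]))))) (.mul (.g 4) (.pp [(1, 41343000000)])))
 (.add (.mul (.g 6) (.mul (.g 9) (.pp [(1, 7836960000)]))) (.mul (.g 8) (.mul (.g 8) (.mul (.g 17)
 (.pp [(1, 104907000000)]))))))))) (.add (.mul (.g 4) (.add (.add (.mul (.g 10) (.add (.mul (.g 6)
 (.add (.mul (.g 5) (.pp [(1, 422899200)])) (.add (.mul (.g 15) (.pp [(1, 1344873600)])) (.mul (.g
 17) (.pp [(1, 18616752000)]))))) (.add (.mul (.g 15) (.add (.mul (.g 4) (.pp [(1, 822331200)]))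
 (.mul (.g 9) (.pp [(1, 21296100000)])))) (.mul (.g 10) (.mul (.g 16) (.pp [(1,
 114517200000)])))))) (.add (.mul (.g 11) (.add (.mul (.pp [(1, 15390720)]) (.sq [(1, 23), (2, 25),
 (3, 25), (5, 25), (7, 25)])) (.add (.mul (.g 12) (.mul (.g 13) (.pp [(1, 30564000000)]))) (.mul
 (.g 16) (.mul (.g 16) (.pp [(1, 288344400000)])))))) (.mul (.g 4) (.mul (.g 9) (.add (.mul (.g 6)
 (.pp [(1, 367048320)])) (.mul (.g 13) (.pp [(1, 2564424000)]))))))) (.add (.mul (.g 6) (.mul (.g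
 16) (.mul (.g 16) (.pp [(1, 6446592000)])))) (.add (.mul (.g 13) (.mul (.pp [(1, 42238800)]) (.sq
 [(1, 3), (2, 100), (3, -46), (5, -82), (7, -85)]))) (.mul (.g 15) (.mul (.pp [(1, 5248788)]) (.sq
 [(1, -6), (2, -40), (3, -20), (5, 100), (7, 15)]))))))) (.add (.mul (.g 6) (.add (.add (.mul (.g
 6) (.add (.add (.pp [(1, 38661792000)]) (.mul (.pp [(1, 882096)]) (.sq [(1, 64), (2, -86), (3,
 -83), (5, -48), (7, 100)]))) (.add (.mul (.g 9) (.mul (.g 14) (.pp [(1, 7410144000)]))) (.mul (.g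
 11) (.mul (.g 12) (.pp [(1, 31351488000)])))))) (.mul (.g 9) (.mul (.g 10) (.mul (.g 10) (.pp [(1,
 157303200000)]))))) (.add (.mul (.g 11) (.pp [(1, 179719200000)])) (.mul (.g 13) (.mul (.pp [(1,
 73185600)]) (.sq [(1, -19), (2, 15), (3, 50), (5, -21), (7, -10)])))))) (.mul (.g 13) (.add (.mul
 (.g 14) (.add (.mul (.pp [(1, 392814000)]) (.sq [(1, 31), (2, -51), (3, -47), (5, 100), (7, 11)]))
 (.mul (.pp [(1, 564804000)]) (.sq [(1, -66), (2, -23), (3, 65), (5, 33), (7, 100)])))) (.add (.mul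
 (.g 11) (.mul (.pp [(1, 11190000)]) (.sq [(1, 49), (2, 100), (3, 11), (5, 11), (7, 100)]))) (.mul
 (.g 15) (.mul (.pp [(1, 2581800)]) (.sq [(1, 77), (2, 100), (3, 14), (5, -77), (7, -19)])))))))))
 (.add (.add (.mul (.g 16) (.add (.mul (.g 16) (.add (.mul (.pp [(1, 155736000)]) (.sq [(1, -83),
 (2, 100), (3, 100), (5, 100), (7, 100)])) (.mul (.g 8) (.mul (.g 16) (.pp [(1,
 3040320000000)]))))) (.add (.mul (.g 12) (.mul (.pp [(1, 50466000)]) (.sq [(1, -49), (2, 39), (3,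
 100), (5, -4), (7, -68)]))) (.mul (.g 15) (.mul (.pp [(1, 37863300)]) (.sq [(1, 70), (2, 40), (3,
 -100), (5, -53), (7, 56)])))))) (.add (.mul (.g 15) (.add (.mul (.g 12) (.mul (.pp [(1,
 67759500)]) (.sq [(1, 6), (2, 13), (3, -8), (5, 2), (7, 100)]))) (.mul (.g 15) (.mul (.pp [(1,
 504855)]) (.sq [(1, 33), (2, 59), (3, -44), (5, -100), (7, 95)]))))) (.mul (.g 0) (.pp [(1,
 48000000000)])))) (.add (.mul (.g 1) (.pp [(1, 20000000000000)])) (.add (.mul (.g 2) (.pp [(1,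
 20000000000000)])) (.mul (.g 18) (.pp [(1, 20000000000000)])))))) (.pp [(1, 15397047405), (2,
 620842182), (3, 574751076), (4, 548366781), (5, 653489016), (6, 595730136), (7, 532973970), (8,
 546020700), (9, 526601724), (10, 682206936), (12, 700827240), (14, 443737770), (15, 469371408),
 (16, 596118000), (18, 560184120), (20, 764783800), (21, 532033440), (23, 60000000000000), (24,
 616602000), (25, 606980124), (27, 738893340), (28, 668672640), (30, 540964800), (35, 499494600),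
 (36, 551064000), (40, 696702000), (42, 818989440), (45, 780897000), (49, 653783445), (50,
 445870600), (54, 629472000), (56, 609738000), (60, 413958000), (63, 779006820), (70, 430891200),
 (75, 642616500), (81, 534882000), (84, 506694000), (90, 571092000), (98, 602557320), (100,
 449892000), (105, 695328000), (125, 632129400), (126, 521478000), (135, 485004000), (140,
 504102000), (147, 697110120), (150, 778170000), (175, 581356800), (189, 563688000), (196,
 544284000), (210, 586128000), (225, 567294000), (245, 653906400), (250, 740448000), (294,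
 696996000), (315, 507330000), (343, 612421440), (350, 609810000), (375, 569268000), (441,
 594414000), (490, 606708000), (525, 506442000), (625, 576840000), (686, 643056000), (735,
 518838000), (875, 542736000), (1029, 623364000), (1225, 542982000), (1715, 563406000), (2401,
 611970000)])))))))))
 (.split [(1, -3), (5, 5)]
 (.rule 5 (.rule 6 (.cut 1 [(1, 3), (5, -2)] (.add (.add (.mul (.g 10) (.pp [(1, 1)])) (.mul (.g 6)
 (.pp [(1, 1)]))) (.add (.mul (.g 14) (.pp [(1, 1)])) (.mul (.g 9) (.pp [(1, 1)])))) (.rule 12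
 (.leaf 300000000 (.add (.add (.add (.add (.mul (.g 10) (.add (.add (.mul (.g 18) (.add (.add (.add
 (.pp [(1, 37236000000)]) (.mul (.pp [(1, 24694800)]) (.sq [(1, 50), (2, 45), (3, 31), (5, 8), (7,
 -11)]))) (.add (.mul (.pp [(1, 12171600)]) (.sq [(1, -72), (2, -27), (3, 5), (5, -61), (7, 100)]))
 (.mul (.g 7) (.add (.mul (.g 9) (.pp [(1, 256824000000)])) (.add (.mul (.g 11) (.pp [(1,
 1597749000000)])) (.mul (.g 13) (.pp [(1, 57882000000)]))))))) (.add (.add (.mul (.g 8) (.add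
 (.mul (.g 8) (.pp [(1, 157944000000)])) (.mul (.g 9) (.pp [(1, 226482000000)])))) (.mul (.g 10)
 (.add (.mul (.g 10) (.pp [(1, 9510000000)])) (.mul (.g 18) (.pp [(1, 134154000000)]))))) (.add
 (.mul (.g 9) (.mul (.g 9) (.pp [(1, 5751000000)]))) (.mul (.g 18) (.pp [(1, 31356000000)]))))))
 (.mul (.g 4) (.add (.mul (.g 8) (.add (.mul (.g 5) (.pp [(1, 2243520000)])) (.mul (.g 8) (.pp [(1,
 89370600000)])))) (.add (.mul (.g 7) (.mul (.g 10) (.pp [(1, 103966200000)]))) (.mul (.g 9) (.pp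
 [(1, 17367000000)])))))) (.add (.mul (.g 10) (.add (.mul (.g 5) (.mul (.g 8) (.pp [(1,
 1051920000)]))) (.add (.mul (.g 10) (.mul (.g 12) (.pp [(1, 151356000000)]))) (.mul (.g 11) (.mul
 (.g 14) (.pp [(1, 16148850000)])))))) (.add (.mul (.g 11) (.add (.mul (.g 5) (.mul (.g 5) (.pp
 [(1, 213945600)]))) (.mul (.g 6) (.mul (.g 8) (.pp [(1, 99494700000)]))))) (.mul (.g 14) (.pp [(1,
 1774950000)])))))) (.add (.mul (.g 4) (.add (.add (.mul (.g 8) (.add (.add (.mul (.pp [(1,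
 246840)]) (.sq [(1, 1), (3, -2), (5, 91), (7, 100)])) (.mul (.g 8) (.add (.mul (.g 8) (.pp [(1,
 18232800000)])) (.mul (.g 13) (.pp [(1, 5967000000)]))))) (.add (.mul (.g 4) (.mul (.g 9) (.pp
 [(1, 26092080000)]))) (.mul (.g 6) (.mul (.g 16) (.pp [(1, 825570000)])))))) (.add (.mul (.g 9)
 (.add (.mul (.g 9) (.add (.mul (.g 5) (.pp [(1, 5240256000)])) (.mul (.g 16) (.pp [(1,
 113883600000)])))) (.add (.mul (.g 6) (.mul (.g 11) (.pp [(1, 446370000)]))) (.mul (.g 16) (.mul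
 (.g 16) (.pp [(1, 113896800000)])))))) (.mul (.g 18) (.add (.pp [(1, 102674400000)]) (.add (.mul
 (.pp [(1, 31200)]) (.sq [(1, -18), (2, -49), (3, -21), (5, 100), (7, -41)])) (.mul (.g 7) (.mul
 (.g 11) (.pp [(1, 122063400000)])))))))) (.add (.add (.mul (.g 5) (.add (.pp [(1, 5441112000)])
 (.mul (.g 7) (.mul (.g 7) (.pp [(1, 587520000)]))))) (.mul (.g 12) (.mul (.pp [(1, 71940)]) (.sq
 [(1, 29), (2, -8), (3, 100), (5, -88), (7, -25)])))) (.add (.mul (.g 13) (.mul (.pp [(1, 246420)])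
 (.sq [(1, 46), (2, -100), (3, 39), (5, -33), (7, 99)]))) (.mul (.g 16) (.pp [(1,
 18772800000)])))))) (.mul (.g 5) (.add (.add (.mul (.g 8) (.add (.add (.mul (.pp [(1, 320148)])
 (.sq [(1, 2), (2, 8), (3, 100), (5, 79), (7, -59)])) (.mul (.g 9) (.add (.mul (.g 5) (.pp [(1,
 1331808000)])) (.add (.mul (.g 8) (.pp [(1, 35109480000)])) (.mul (.g 13) (.pp [(1,
 541320000)])))))) (.add (.mul (.g 13) (.add (.mul (.g 5) (.pp [(1, 138052800)])) (.mul (.g 8) (.pp
 [(1, 3826920000)])))) (.mul (.g 11) (.mul (.g 16) (.pp [(1, 6177360000)])))))) (.mul (.g 6) (.add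
 (.mul (.g 11) (.pp [(1, 160368000)])) (.mul (.g 16) (.mul (.g 16) (.pp [(1, 35934000)])))))) (.add
 (.mul (.g 18) (.add (.pp [(1, 189120000)]) (.mul (.pp [(1, 230184)]) (.sq [(1, 49), (2, -4), (3,
 100), (5, 46), (7, 45)])))) (.mul (.g 14) (.pp [(1, 954012000)]))))))) (.add (.mul (.g 6) (.add
 (.mul (.g 6) (.add (.mul (.g 6) (.add (.add (.pp [(1, 22011375)]) (.mul (.g 8) (.pp [(1,
 22311750)]))) (.add (.mul (.g 9) (.pp [(1, 1828875)])) (.mul (.g 11) (.pp [(1, 13221000)])))))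
 (.mul (.g 9) (.mul (.g 18) (.pp [(1, 1761135000)]))))) (.add (.mul (.g 11) (.mul (.pp [(1,
 3271980)]) (.sq [(1, -23), (2, 50), (3, 35), (5, -27), (7, -21)]))) (.mul (.g 12) (.pp [(1,
 14913900000)]))))) (.add (.mul (.g 12) (.add (.mul (.g 12) (.add (.pp [(1, 113619000000)]) (.add
 (.mul (.pp [(1, 2721300)]) (.sq [(1, 100), (2, 98), (3, 97), (5, -20), (7, -69)])) (.mul (.g 11)
 (.pp [(1, 288516000000)]))))) (.add (.mul (.g 7) (.mul (.pp [(1, 1171800)]) (.sq [(1, -1), (2,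
 100), (3, 77), (5, -19), (7, -39)]))) (.mul (.g 18) (.pp [(1, 254460000000)]))))) (.mul (.g 13)
 (.add (.mul (.pp [(1, 36697500)]) (.sq [(2, 100), (3, -40), (5, -40), (7, -3)])) (.mul (.g 13)
 (.mul (.pp [(1, 2128200)]) (.sq [(1, -59), (2, 100), (3, 4), (5, 11), (7, 78)])))))))) (.add (.add
 (.mul (.g 14) (.add (.mul (.pp [(1, 2402310)]) (.sq [(2, 100), (3, -40), (5, -40), (7, -3)]))
 (.mul (.pp [(1, 1092270)]) (.sq [(1, -63), (2, 94), (3, 30), (5, -7), (7, 100)])))) (.add (.mul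
 (.g 18) (.add (.mul (.g 11) (.mul (.pp [(1, 24396600)]) (.sq [(1, -59), (2, 41), (3, 41), (5, 41),
 (7, 100)]))) (.mul (.g 18) (.mul (.pp [(1, 3208500)]) (.sq [(1, -37), (2, 100), (3, -44), (5, 65),
 (7, -3)]))))) (.mul (.g 0) (.pp [(1, 300000000)])))) (.add (.add (.mul (.g 2) (.pp [(1,
 1000000000000)])) (.mul (.g 3) (.pp [(1, 1000000000000)]))) (.add (.mul (.g 7) (.mul (.g 7) (.mul
 (.pp [(1, 4370100)]) (.sq [(1, 8), (2, 100), (3, 51), (5, -71), (7, -53)])))) (.mul (.g 17) (.pp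
 [(1, 1000000000000)])))))) (.pp [(1, 7012638057), (2, 28590516), (3, 30970074), (4, 28808832), (5,
 28841031), (6, 27983712), (7, 31236528), (8, 25371080), (9, 29998500), (10, 32526384), (12,
 36777944), (14, 38611944), (15, 34630308), (16, 30634800), (18, 30385040), (19, 3000000000000),
 (20, 40468880), (21, 30334536), (24, 25990200), (25, 33764442), (27, 30113340), (28, 24612648),
 (30, 23649552), (35, 23870904), (36, 32494800), (40, 26505600), (42, 30976704), (45, 29923140),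
 (49, 33532170), (50, 25085360), (54, 28927800), (56, 32196600), (60, 31885800), (63, 26444520),
 (70, 31272216), (75, 23867232), (81, 30581100), (84, 27285600), (90, 30773700), (98, 24872280),
 (100, 30048300), (105, 34414752), (125, 25113060), (126, 28359000), (135, 30431700), (140,
 24551400), (147, 25053864), (150, 27936600), (175, 29693808), (189, 27901800), (196, 31813200),
 (210, 34369800), (225, 32105400), (245, 33556680), (250, 31377900), (294, 25668000), (315,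
 26847000), (343, 24817800), (350, 31861200), (375, 33353100), (441, 31455300), (490, 31158000),
 (525, 30804000), (625, 31727700), (686, 28608000), (735, 27058200), (875, 30442200), (1029,
 33955200), (1225, 31800600), (1715, 29746200), (2401, 31194300)])))))))
 (.split [(1, -7), (5, 50)]
 (.split [(2, 1), (3, -1)]
 (.rule 0 (.rule 6 (.rule 11 (.leaf 750000000 (.add (.add (.add (.add (.mul (.g 11) (.add (.add
 (.mul (.g 9) (.add (.add (.mul (.g 7) (.add (.mul (.g 11) (.pp [(1, 131552625000)])) (.add (.mul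
 (.g 12) (.pp [(1, 29872875000)])) (.mul (.g 16) (.pp [(1, 65570250000)]))))) (.mul (.g 9) (.add
 (.mul (.g 9) (.pp [(1, 824460000000)])) (.add (.mul (.g 12) (.pp [(1, 304260000000)])) (.mul (.g
 19) (.pp [(1, 57990000000)])))))) (.add (.mul (.g 4) (.mul (.g 12) (.pp [(1, 9203400000)]))) (.add
 (.mul (.g 10) (.mul (.g 19) (.pp [(1, 5885002500000)]))) (.mul (.g 11) (.mul (.g 11) (.pp [(1,
 69742500000)]))))))) (.add (.mul (.g 11) (.add (.add (.mul (.pp [(1, 292763250)]) (.sq [(1, 32),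
 (2, -92), (3, 71), (5, -100), (7, -1)])) (.mul (.g 5) (.add (.mul (.g 3) (.pp [(1,
 1862089500000)])) (.add (.mul (.g 12) (.pp [(1, 325807500000)])) (.mul (.g 15) (.pp [(1,
 29909175000)])))))) (.add (.mul (.g 3) (.mul (.g 17) (.pp [(1, 177315000000)]))) (.add (.mul (.g
 6) (.mul (.g 15) (.pp [(1, 4353210000)]))) (.mul (.g 11) (.mul (.g 19) (.pp [(1,
 367500000)]))))))) (.mul (.g 19) (.add (.pp [(1, 112920000000)]) (.add (.mul (.g 10) (.add (.mul
 (.g 3) (.pp [(1, 6566640000000)])) (.add (.mul (.g 12) (.pp [(1, 84000000000)])) (.mul (.g 19)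
 (.pp [(1, 940305000000)]))))) (.mul (.g 17) (.add (.mul (.g 8) (.pp [(1, 5860942500000)])) (.mul
 (.g 19) (.pp [(1, 1464337500000)]))))))))) (.add (.mul (.g 3) (.mul (.g 5) (.pp [(1,
 54726000000)]))) (.add (.mul (.g 4) (.mul (.g 4) (.pp [(1, 33159000)]))) (.mul (.g 17) (.mul (.pp
 [(1, 375750)]) (.sq [(1, 38), (2, 80), (3, 100), (5, -35), (7, -56)]))))))) (.add (.mul (.g 3)
 (.add (.add (.mul (.pp [(1, 86773500)]) (.sq [(2, 100), (3, 6), (5, 51), (7, -52)])) (.add (.mul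
 (.g 8) (.add (.mul (.pp [(1, 9330000)]) (.sq [(1, -100), (2, -64), (3, -79), (5, -39), (7, 63)]))
 (.add (.mul (.g 14) (.add (.pp [(1, 1852155000000)]) (.mul (.g 19) (.pp [(1, 1012462500000)]))))
 (.mul (.g 15) (.pp [(1, 82648125000)]))))) (.mul (.g 3) (.add (.mul (.pp [(1, 45246750)]) (.sq
 [(1, -71), (2, -6), (3, -71), (5, -30), (7, 100)])) (.add (.mul (.pp [(1, 489012000)]) (.sq [(1,
 25), (2, -19), (3, 16), (5, 8), (7, -9)])) (.mul (.g 14) (.pp [(1, 391522500000)]))))))) (.add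
 (.add (.mul (.g 13) (.add (.mul (.pp [(1, 645750)]) (.sq [(1, -19), (2, 2), (3, -58), (5, -83),
 (7, 100)])) (.mul (.g 14) (.pp [(1, 35295000000)])))) (.mul (.g 4) (.pp [(1, 29460600000)])))
 (.add (.mul (.g 15) (.pp [(1, 122903625000)])) (.mul (.g 19) (.pp [(1, 1988587500000)])))))) (.mul
 (.g 5) (.add (.add (.mul (.g 4) (.add (.mul (.pp [(1, 22566)]) (.sq [(1, -45), (2, 21), (3, -16),
 (5, 42), (7, 100)])) (.mul (.g 5) (.add (.mul (.g 8) (.pp [(1, 1838844000)])) (.mul (.g 9) (.pp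
 [(1, 764916000)])))))) (.add (.mul (.g 10) (.mul (.g 10) (.add (.mul (.g 9) (.pp [(1,
 607326000000)])) (.add (.mul (.g 10) (.pp [(1, 389053500000)])) (.mul (.g 19) (.pp [(1,
 31606500000)])))))) (.mul (.g 5) (.pp [(1, 19115400000)])))) (.add (.mul (.g 8) (.mul (.g 8) (.mul
 (.g 8) (.pp [(1, 70216500000)])))) (.add (.mul (.g 9) (.mul (.g 9) (.mul (.g 9) (.pp [(1,
 61870500000)])))) (.mul (.g 19) (.mul (.pp [(1, 9889200)]) (.sq [(1, 2), (2, -86), (3, 94), (5,
 13), (7, -100)]))))))))) (.add (.mul (.g 15) (.add (.add (.mul (.g 10) (.mul (.g 10) (.add (.mul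
 (.g 9) (.pp [(1, 34175250000)])) (.mul (.g 10) (.pp [(1, 69328500000)]))))) (.add (.mul (.g 19)
 (.add (.pp [(1, 73979250000)]) (.mul (.pp [(1, 14378850)]) (.sq [(1, 22), (2, 50), (3, -13), (5,
 -5), (7, 18)])))) (.mul (.g 4) (.pp [(1, 578775000)])))) (.add (.mul (.g 6) (.pp [(1,
 3046770000)])) (.add (.mul (.g 8) (.mul (.g 12) (.mul (.g 12) (.pp [(1, 16107375000)])))) (.mul
 (.g 15) (.pp [(1, 6046575000)])))))) (.add (.mul (.g 9) (.add (.add (.mul (.g 6) (.add (.mul (.g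
 4) (.mul (.g 4) (.pp [(1, 1708320)]))) (.mul (.g 9) (.mul (.g 9) (.pp [(1, 8843400000)]))))) (.mul
 (.g 8) (.add (.mul (.g 7) (.mul (.g 19) (.pp [(1, 11673375000)]))) (.mul (.g 8) (.mul (.g 8) (.pp
 [(1, 287040000000)])))))) (.add (.mul (.g 9) (.mul (.g 9) (.mul (.g 17) (.pp [(1,
 937800000000)])))) (.mul (.g 16) (.mul (.pp [(1, 23402250)]) (.sq [(1, 56), (2, -36), (3, -68),
 (5, 100), (7, -71)])))))) (.mul (.g 12) (.add (.mul (.g 12) (.add (.mul (.pp [(1, 7948500)]) (.sq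
 [(1, 41), (2, -100), (3, 59), (5, 59), (7, -59)])) (.mul (.g 7) (.mul (.g 12) (.pp [(1,
 31329375000)]))))) (.mul (.g 19) (.mul (.pp [(1, 112717500)]) (.sq [(1, -54), (2, 46), (3, 28),
 (5, 37), (7, 100)])))))))) (.add (.add (.mul (.g 8) (.mul (.g 8) (.add (.mul (.g 10) (.mul (.g 19)
 (.pp [(1, 516427500000)]))) (.mul (.g 14) (.mul (.g 17) (.pp [(1, 712687500000)])))))) (.add (.mul
 (.g 13) (.add (.mul (.g 13) (.mul (.pp [(1, 23655000)]) (.sq [(1, -46), (2, -100), (3, 22), (5,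
 -5), (7, 96)]))) (.mul (.g 19) (.mul (.pp [(1, 134909250)]) (.sq [(1, 37), (2, 100), (3, -9), (5,
 4), (7, -22)]))))) (.mul (.g 0) (.pp [(1, 1500000000)])))) (.add (.add (.mul (.g 1) (.pp [(1,
 2500000000000)])) (.mul (.g 2) (.pp [(1, 2500000000000)]))) (.add (.mul (.g 4) (.mul (.g 14) (.mul
 (.pp [(1, 1135965)]) (.sq [(1, -30), (2, -31), (3, -64), (5, 100), (7, -8)])))) (.mul (.g 18) (.pp
 [(1, 2500000000000)])))))) (.pp [(1, 25209252600), (2, 69513360), (3, 75855930), (4, 51740826),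
 (5, 77202720), (6, 92955858), (7, 72839850), (8, 53956445), (9, 71513166), (10, 83658954), (12,
 116266815), (14, 99586650), (15, 78740316), (16, 69522000), (18, 68010810), (19, 7500000000000),
 (20, 91019945), (21, 77468850), (24, 83265000), (25, 74319054), (27, 74895730), (28, 100797120),
 (30, 60801360), (35, 75564750), (36, 58869750), (40, 80348250), (42, 31491060), (45, 71190870),
 (49, 77538300), (50, 66736310), (54, 82014750), (56, 93786000), (60, 60975750), (63, 79274820),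
 (70, 55517880), (75, 78035640), (81, 72606000), (84, 51921000), (90, 84558000), (98, 61954680),
 (100, 70296000), (105, 61136520), (125, 73438560), (126, 87671250), (135, 81000750), (140,
 57501000), (147, 66962670), (150, 78207000), (175, 74889900), (189, 76176750), (196, 72601500),
 (210, 89214000), (225, 70130250), (245, 77386320), (250, 74577750), (294, 88800000), (315,
 80232750), (343, 71846400), (350, 84139500), (375, 77705250), (441, 75519000), (490, 74460000),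
 (525, 74169000), (625, 75231000), (686, 77691000), (735, 89442000), (875, 76896750), (1029,
 76252500), (1225, 73140000), (1715, 77073000), (2401, 74736750)]))))))
 (.rule 1 (.rule 6 (.rule 11 (.leaf 150000000 (.add (.add (.add (.add (.mul (.pp [(1, 7342950)])
 (.sq [(1, -3), (2, -42), (3, -35), (5, 100), (7, -19)])) (.add (.mul (.pp [(1, 50300400)]) (.sq
 [(1, -23), (2, -73), (3, 16), (5, 100), (7, -4)])) (.mul (.g 11) (.add (.add (.add (.mul (.pp [(1,
 23080800)]) (.sq [(1, -46), (2, -9), (3, 20), (5, -33), (7, 100)])) (.mul (.g 19) (.add (.add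
 (.mul (.pp [(1, 1500)]) (.sq [(1, -65), (2, -13), (5, -45), (7, 100)])) (.mul (.g 8) (.add (.add
 (.mul (.g 3) (.pp [(1, 173364000000)])) (.mul (.g 5) (.pp [(1, 115150500000)]))) (.add (.mul (.g
 10) (.pp [(1, 547335000000)])) (.mul (.g 12) (.pp [(1, 116967000000)])))))) (.add (.mul (.g 9)
 (.add (.mul (.g 9) (.pp [(1, 204000000)])) (.mul (.g 10) (.pp [(1, 265500000)])))) (.add (.mul (.g
 12) (.add (.mul (.g 7) (.pp [(1, 36023625000)])) (.mul (.g 11) (.pp [(1, 230872500000)])))) (.mul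
 (.g 4) (.mul (.g 19) (.pp [(1, 750000)])))))))) (.add (.mul (.g 3) (.add (.mul (.g 7) (.add (.add
 (.pp [(1, 46798200000)]) (.mul (.g 3) (.pp [(1, 2669700000)]))) (.add (.mul (.g 5) (.pp [(1,
 388095000)])) (.mul (.g 9) (.pp [(1, 5973600000)]))))) (.add (.mul (.g 4) (.mul (.g 17) (.pp [(1,
 722430000)]))) (.mul (.g 6) (.mul (.g 10) (.pp [(1, 5880000)])))))) (.mul (.g 8) (.add (.mul (.pp
 [(1, 1084200)]) (.sq [(1, -35), (2, 76), (3, -16), (5, -20), (7, 100)])) (.add (.mul (.g 6) (.add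
 (.mul (.g 7) (.pp [(1, 962514000)])) (.mul (.g 8) (.pp [(1, 9589620000)])))) (.mul (.g 15) (.add
 (.mul (.g 11) (.pp [(1, 4237650000)])) (.mul (.g 17) (.pp [(1, 1826100000)]))))))))) (.add (.add
 (.mul (.g 4) (.add (.pp [(1, 369660000)]) (.add (.mul (.g 11) (.add (.pp [(1, 300930000)]) (.mul
 (.g 17) (.pp [(1, 420000)])))) (.mul (.g 4) (.mul (.g 5) (.pp [(1, 9480)])))))) (.mul (.g 9) (.add
 (.mul (.g 5) (.mul (.g 7) (.pp [(1, 143745000)]))) (.mul (.g 6) (.mul (.g 9) (.pp [(1,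
 2280000)])))))) (.add (.mul (.g 15) (.add (.pp [(1, 1490700000)]) (.mul (.g 11) (.mul (.g 12) (.pp
 [(1, 6943425000)]))))) (.mul (.g 13) (.mul (.pp [(1, 6600)]) (.sq [(1, -60), (2, 66), (3, 5), (5,
 -21), (7, 100)]))))))))) (.add (.add (.mul (.g 7) (.add (.add (.mul (.g 7) (.add (.add (.mul (.g
 7) (.add (.mul (.g 9) (.pp [(1, 3811500)])) (.add (.mul (.g 12) (.pp [(1, 10408125)])) (.mul (.g
 17) (.pp [(1, 11738250)]))))) (.mul (.g 4) (.mul (.g 12) (.pp [(1, 11669250)])))) (.add (.mul (.g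
 8) (.mul (.g 10) (.pp [(1, 921832500)]))) (.mul (.g 9) (.mul (.g 19) (.pp [(1, 152441250)]))))))
 (.mul (.g 5) (.add (.mul (.g 5) (.add (.add (.pp [(1, 88605000)]) (.mul (.g 3) (.pp [(1,
 30000)]))) (.add (.mul (.g 5) (.pp [(1, 24600)])) (.mul (.g 9) (.pp [(1, 190491000)]))))) (.mul
 (.g 3) (.mul (.g 12) (.pp [(1, 414570000)])))))) (.add (.mul (.g 10) (.add (.mul (.g 19) (.add
 (.mul (.g 8) (.pp [(1, 3084750000)])) (.mul (.g 19) (.pp [(1, 1506525000)])))) (.add (.mul (.g 6)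
 (.pp [(1, 1716393000)])) (.mul (.g 13) (.pp [(1, 22652925000)]))))) (.add (.mul (.g 6) (.add (.mul
 (.g 6) (.mul (.g 9) (.pp [(1, 2285400)]))) (.mul (.g 19) (.pp [(1, 33711000)])))) (.mul (.g 3)
 (.mul (.g 9) (.mul (.g 13) (.pp [(1, 1525200000)])))))))) (.mul (.g 6) (.add (.add (.mul (.g 4)
 (.add (.pp [(1, 72516000)]) (.add (.mul (.g 4) (.add (.mul (.g 9) (.pp [(1, 577032)])) (.mul (.g
 19) (.pp [(1, 578736)])))) (.mul (.g 5) (.pp [(1, 6631440)]))))) (.mul (.g 8) (.add (.mul (.g 6)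
 (.mul (.g 9) (.pp [(1, 2544000)]))) (.mul (.g 10) (.mul (.g 10) (.pp [(1, 3806400000)])))))) (.add
 (.mul (.g 19) (.add (.pp [(1, 660300000)]) (.mul (.pp [(1, 297600)]) (.sq [(1, -5), (2, 3), (3,
 3), (5, 3), (7, 3)])))) (.add (.mul (.g 10) (.mul (.g 10) (.mul (.g 10) (.pp [(1, 3780000)]))))
 (.mul (.g 15) (.pp [(1, 93393000)]))))))) (.add (.mul (.g 4) (.add (.mul (.g 4) (.add (.mul (.g 5)
 (.mul (.g 5) (.pp [(1, 504)]))) (.add (.mul (.g 10) (.mul (.g 13) (.pp [(1, 18600)]))) (.mul (.g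
 19) (.pp [(1, 201600)]))))) (.mul (.g 8) (.mul (.g 8) (.mul (.g 19) (.pp [(1, 206400000)]))))))
 (.mul (.g 12) (.add (.mul (.pp [(1, 5527500)]) (.sq [(1, -21), (2, -91), (3, 20), (5, 100), (7,
 -11)])) (.mul (.pp [(1, 10082100)]) (.sq [(1, -4), (2, -48), (3, -25), (5, 100), (7, -24)])))))))
 (.add (.add (.mul (.g 0) (.pp [(1, 300000000)])) (.add (.mul (.g 1) (.pp [(1, 500000000000)]))
 (.mul (.g 2) (.pp [(1, 500000000000)])))) (.add (.add (.mul (.g 9) (.mul (.g 14) (.mul (.pp [(1,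
 3150)]) (.sq [(1, -22), (2, 88), (3, 53), (5, -100), (7, 15)])))) (.mul (.g 15) (.mul (.g 16)
 (.mul (.pp [(1, 450)]) (.sq [(1, -71), (2, -48), (3, 100), (5, 35), (7, -23)]))))) (.add (.mul (.g
 17) (.mul (.g 19) (.mul (.pp [(1, 10650)]) (.sq [(1, 2), (2, -33), (3, -53), (5, 100), (7,
 -9)])))) (.mul (.g 18) (.pp [(1, 500000000000)])))))) (.pp [(1, 363650853), (2, 15749325), (3,
 17402532), (4, 14532150), (5, 15294630), (6, 13649100), (7, 16380828), (8, 14271900), (9,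
 11382150), (10, 13975200), (12, 16522650), (14, 13423500), (15, 12794700), (16, 15000000), (18,
 14476800), (19, 1500000000000), (20, 14511850), (21, 12136650), (24, 15657600), (25, 14883450),
 (27, 17829450), (28, 15684150), (30, 17133900), (35, 14004300), (36, 13665600), (40, 15000000),
 (42, 17439600), (45, 18220050), (49, 13906650), (50, 15745000), (54, 15645150), (56, 14911200),
 (60, 13544550), (63, 17842350), (70, 15121500), (75, 15191550), (81, 14191650), (84, 13405500),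
 (90, 15353100), (98, 15274800), (100, 15000000), (105, 16125000), (125, 15240000), (126,
 14760300), (135, 13705800), (140, 14914950), (147, 16877700), (150, 15465000), (175, 14785500),
 (189, 13876500), (196, 14293500), (210, 14910000), (225, 15345000), (245, 15040650), (250,
 15000000), (294, 15087750), (315, 14414550), (343, 15645450), (350, 15904200), (375, 14025000),
 (441, 13772250), (490, 14568900), (525, 15122100), (625, 15000000), (686, 15600000), (735,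
 14989500), (875, 14910600), (1029, 14040000), (1225, 15487500), (1715, 14137350), (2401,
 15000000)])))))))
 (.cut 450 [(2, -1), (3, 1)] (.add (.mul (.g 11) (.pp [(1, 7)])) (.add (.mul (.g 10) (.pp [(1,
 310)])) (.mul (.g 0) (.pp [(1, 9)])))) (.rule 1 (.rule 6 (.leaf 1500000000 (.add (.add (.add (.add
 (.mul (.g 10) (.add (.add (.add (.mul (.g 7) (.add (.add (.mul (.pp [(1, 138798000)]) (.sq [(1,
 -63), (2, -15), (3, -23), (5, -38), (7, 100)])) (.mul (.g 9) (.add (.mul (.g 5) (.pp [(1,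
 158093400000)])) (.add (.mul (.g 7) (.pp [(1, 291975000000)])) (.mul (.g 10) (.pp [(1,
 505800000000)])))))) (.add (.mul (.g 18) (.add (.pp [(1, 297060000000)]) (.add (.mul (.g 8) (.pp
 [(1, 622095000000)])) (.mul (.g 11) (.pp [(1, 12126450000000)]))))) (.add (.mul (.g 3) (.mul (.g
 8) (.pp [(1, 5830800000)]))) (.mul (.g 11) (.mul (.g 11) (.pp [(1, 1475940000000)]))))))) (.mul
 (.g 11) (.add (.mul (.g 3) (.add (.mul (.g 5) (.pp [(1, 167640000)])) (.add (.mul (.g 10) (.pp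
 [(1, 5032200000)])) (.mul (.g 15) (.pp [(1, 12026100000)]))))) (.add (.mul (.g 6) (.mul (.g 8)
 (.pp [(1, 540015000000)]))) (.mul (.g 10) (.mul (.g 18) (.pp [(1, 737100000000)]))))))) (.add
 (.mul (.g 18) (.add (.pp [(1, 59535000000)]) (.add (.mul (.pp [(1, 20637000)]) (.sq [(1, -49), (2,
 -52), (3, -21), (5, -29), (7, 100)])) (.mul (.g 18) (.add (.mul (.g 15) (.pp [(1, 82800000000)]))
 (.mul (.g 18) (.pp [(1, 16680000000)]))))))) (.add (.mul (.g 8) (.add (.mul (.g 13) (.add (.mul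
 (.g 6) (.pp [(1, 54971250000)])) (.mul (.g 9) (.pp [(1, 714495000000)])))) (.mul (.g 10) (.mul (.g
 10) (.pp [(1, 366495000000)]))))) (.mul (.g 14) (.add (.pp [(1, 31182000000)]) (.mul (.pp [(1,
 1236150)]) (.sq [(1, 25), (2, 100), (3, -10), (5, -26), (7, 85)]))))))) (.add (.add (.mul (.g 3)
 (.mul (.pp [(1, 216240)]) (.sq [(1, 6), (2, 99), (3, -100), (5, 58), (7, 10)]))) (.mul (.g 9)
 (.mul (.g 13) (.mul (.g 15) (.pp [(1, 25410000000)]))))) (.add (.mul (.g 10) (.mul (.g 10) (.mul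
 (.g 10) (.pp [(1, 222900000000)])))) (.add (.mul (.g 12) (.mul (.pp [(1, 25005000)]) (.sq [(1,
 -34), (2, -7), (3, -54), (5, -24), (7, 100)]))) (.mul (.g 16) (.mul (.pp [(1, 466500)]) (.sq [(1,
 -30), (2, -29), (3, -31), (5, -1), (7, 100)])))))))) (.mul (.g 3) (.add (.add (.mul (.g 8) (.add
 (.add (.mul (.pp [(1, 7432320)]) (.sq [(1, 23), (2, 25), (3, 25), (5, 25), (7, 25)])) (.mul (.g 3)
 (.add (.mul (.g 9) (.pp [(1, 261636000)])) (.mul (.g 12) (.pp [(1, 226254000)]))))) (.add (.mul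
 (.g 4) (.add (.mul (.g 6) (.pp [(1, 8703000)])) (.mul (.g 7) (.pp [(1, 4663500000)])))) (.mul (.g
 9) (.mul (.g 13) (.pp [(1, 9410700000)])))))) (.mul (.g 13) (.add (.add (.mul (.pp [(1, 249810)])
 (.sq [(1, 32), (2, 17), (3, -84), (5, -20), (7, 100)])) (.mul (.g 3) (.mul (.g 18) (.pp [(1,
 7752000)])))) (.add (.mul (.g 7) (.pp [(1, 105615000000)])) (.mul (.g 9) (.mul (.g 15) (.pp [(1,
 7172400000)]))))))) (.add (.mul (.g 3) (.pp [(1, 85458000)])) (.add (.mul (.g 5) (.pp [(1,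
 274500000)])) (.mul (.g 6) (.pp [(1, 5205600000)]))))))) (.add (.mul (.g 6) (.add (.add (.mul (.g
 6) (.add (.pp [(1, 6771187500)]) (.mul (.g 9) (.add (.mul (.g 11) (.pp [(1, 7700700000)])) (.mul
 (.g 16) (.pp [(1, 743700000)])))))) (.add (.mul (.g 18) (.add (.pp [(1, 37261500000)]) (.add (.mul
 (.pp [(1, 1755750)]) (.sq [(1, 93), (2, 92), (3, 71), (5, 100), (7, 32)])) (.mul (.g 4) (.mul (.g
 8) (.pp [(1, 5673900000)])))))) (.mul (.g 4) (.mul (.g 8) (.mul (.g 8) (.pp [(1,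
 12378900000)])))))) (.add (.mul (.g 5) (.pp [(1, 1417140000)])) (.add (.mul (.g 7) (.mul (.g 7)
 (.mul (.g 11) (.pp [(1, 30743250000)])))) (.mul (.g 12) (.mul (.pp [(1, 47100)]) (.sq [(1, 13),
 (2, 7), (3, 53), (5, 100), (7, -94)]))))))) (.add (.mul (.g 14) (.add (.add (.mul (.g 9) (.add
 (.mul (.g 8) (.add (.mul (.g 13) (.pp [(1, 19528500000)])) (.mul (.g 14) (.pp [(1, 413175000)]))))
 (.add (.mul (.g 9) (.mul (.g 18) (.pp [(1, 6409500000)]))) (.mul (.g 13) (.mul (.g 13) (.pp [(1,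
 2226000000)])))))) (.mul (.g 5) (.mul (.pp [(1, 131463)]) (.sq [(1, 3), (2, 46), (3, 100), (5,
 -22), (7, -38)])))) (.add (.mul (.g 7) (.mul (.pp [(1, 1276425)]) (.sq [(1, 38), (2, 100), (3,
 -37), (5, 13), (7, 90)]))) (.add (.mul (.g 16) (.mul (.pp [(1, 393450)]) (.sq [(1, -37), (2, -37),
 (3, 77), (5, 100), (7, -57)]))) (.mul (.g 18) (.mul (.pp [(1, 213375)]) (.sq [(1, -29), (2, -36),
 (3, 69), (5, 63), (7, 100)]))))))) (.mul (.g 5) (.add (.mul (.g 8) (.add (.pp [(1, 2271600000)])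
 (.mul (.g 8) (.add (.mul (.g 5) (.pp [(1, 814680000)])) (.mul (.g 15) (.pp [(1, 521400000)]))))))
 (.add (.mul (.g 15) (.mul (.pp [(1, 516480)]) (.sq [(1, 35), (2, 64), (3, 100), (5, -1), (7,
 -65)]))) (.mul (.g 18) (.pp [(1, 3482400000)])))))))) (.add (.add (.mul (.g 7) (.add (.mul (.g 7)
 (.mul (.g 7) (.add (.mul (.g 9) (.pp [(1, 4252065000000)])) (.add (.mul (.g 15) (.pp [(1,
 154950000000)])) (.mul (.g 16) (.pp [(1, 1092705000000)])))))) (.mul (.g 9) (.mul (.g 15) (.mul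
 (.g 18) (.pp [(1, 3976665000000)])))))) (.mul (.g 13) (.add (.mul (.g 9) (.mul (.pp [(1,
 17131500)]) (.sq [(1, 9), (2, 81), (3, -76), (5, 35), (7, 100)]))) (.mul (.g 13) (.mul (.pp [(1,
 5184000)]) (.sq [(1, 13), (2, 85), (3, -71), (5, -59), (7, 100)])))))) (.add (.mul (.g 0) (.pp
 [(1, 5000000000000)])) (.add (.mul (.g 1) (.pp [(1, 5000000000000)])) (.mul (.g 17) (.pp [(1,
 5000000000000)])))))) (.pp [(1, 6048653526), (2, 142244424), (3, 147329130), (4, 149558394), (5,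
 149325492), (6, 164392500), (7, 150565353), (8, 134753250), (9, 149785845), (10, 153612924), (12,
 161219490), (14, 161699856), (15, 140625360), (16, 149442000), (18, 130510665), (19,
 15000000000000), (20, 148457620), (21, 136567110), (23, 15000000000000), (24, 175800000), (25,
 133983831), (27, 124649955), (28, 129114900), (30, 127117170), (35, 155460738), (36, 128080500),
 (40, 178134000), (42, 158362620), (45, 176274180), (49, 134576466), (50, 104086885), (54,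
 170937000), (56, 142557000), (60, 100311000), (63, 176210775), (70, 184319640), (75, 201558105),
 (81, 170023500), (84, 189123000), (90, 211138500), (98, 136731180), (100, 110461500), (105,
 137645010), (125, 182744220), (126, 135871500), (135, 138097500), (140, 186019500), (147,
 178436220), (150, 238236000), (175, 141727965), (189, 141664500), (196, 144906000), (210,
 112614000), (225, 107719500), (245, 156800670), (250, 192354000), (294, 173304000), (315,
 165891000), (343, 160047750), (350, 125065500), (375, 109566000), (441, 130203000), (490,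
 154173000), (525, 180910500), (625, 134608500), (686, 151635000), (735, 141393000), (875,
 151974000), (1029, 140925000), (1225, 142878000), (1715, 152925000), (2401, 150000000)]))))))))))
 (P_Tp0 ++ xP_G_T2) = true := by decide +kernel

end Pool.Agent.Helper62.TW
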