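import Pool.Agent.Helper62.TW.Goals

/-!
# Case trees, part 5 (generated)
-/

set_option autoImplicit false
set_option maxRecDepth 100000
set_option linter.all false

namespace Pool.Agent.Helper62.TW

open Pool.Agent.Helper83.Cert

theorem t_A_F3_c3 : chk ROp gP_A_F3
 (.cut 1 [(2, -1), (3, 1)] (.add (.mul (.g 9) (.pp [(1, 1)])) (.mul (.g 4) (.pp [(1, 1)]))) (.rule
 1 (.cut 1 [(2, 1), (5, -1)] (.add (.mul (.g 10) (.pp [(1, 1)])) (.mul (.g 1) (.pp [(1, 1)])))
 (.rule 2 (.cut 11 [(1, -69), (3, 100)] (.add (.mul (.g 1) (.pp [(1, 620)])) (.add (.mul (.g 11)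
 (.pp [(1, 31)])) (.mul (.g 13) (.pp [(1, 480)])))) (.cut 1 [(1, 3), (3, -2)] (.add (.add (.mul (.g
 10) (.pp [(1, 1)])) (.mul (.g 16) (.pp [(1, 1)]))) (.add (.mul (.g 7) (.pp [(1, 1)])) (.add (.mul
 (.g 8) (.pp [(1, 1)])) (.mul (.g 9) (.pp [(1, 1)]))))) (.rule 8 (.rule 15 (.leaf 660000000 (.add
 (.add (.add (.add (.mul (.g 10) (.add (.add (.mul (.g 11) (.add (.mul (.pp [(1, 134634060)]) (.sq
 [(1, -10), (2, -14), (3, 100), (5, -87), (7, -3)])) (.add (.mul (.g 9) (.add (.add (.mul (.g 9)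
 (.pp [(1, 362029800000)])) (.mul (.g 10) (.pp [(1, 6195195600000)]))) (.add (.mul (.g 11) (.pp
 [(1, 28139746800000)])) (.mul (.g 19) (.pp [(1, 34768800000000)]))))) (.mul (.g 12) (.add (.add
 (.mul (.g 8) (.pp [(1, 3256908600000)])) (.mul (.g 12) (.pp [(1, 10003164600000)]))) (.add (.mul
 (.g 14) (.pp [(1, 5847877200000)])) (.mul (.g 17) (.pp [(1, 8137833000000)])))))))) (.add (.mul
 (.g 19) (.add (.add (.pp [(1, 2246488200000)]) (.add (.mul (.pp [(1, 95143620)]) (.sq [(1, 100),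
 (2, -100), (3, -30), (5, 61), (7, -82)])) (.mul (.pp [(1, 97892520)]) (.sq [(1, 8), (2, -17), (3,
 -78), (5, 75), (7, 100)])))) (.add (.mul (.g 12) (.add (.pp [(1, 755977200000)]) (.mul (.g 14)
 (.pp [(1, 2461800000)])))) (.add (.mul (.g 8) (.mul (.g 8) (.pp [(1, 1507974600000)]))) (.mul (.g
 9) (.mul (.g 10) (.pp [(1, 14296807800000)]))))))) (.mul (.g 9) (.add (.mul (.pp [(1, 10129680)])
 (.sq [(1, 8), (2, -15), (3, 100), (5, -58), (7, -73)])) (.add (.mul (.g 9) (.mul (.g 17) (.pp [(1,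
 22673224200000)]))) (.mul (.g 10) (.mul (.g 15) (.pp [(1, 76532610000)])))))))) (.add (.add (.mul
 (.g 12) (.add (.mul (.g 8) (.add (.mul (.g 8) (.pp [(1, 123439800000)])) (.mul (.g 16) (.pp [(1,
 123604800000)])))) (.mul (.g 14) (.mul (.g 14) (.pp [(1, 792376200000)]))))) (.mul (.g 13) (.add
 (.pp [(1, 2413468200000)]) (.add (.mul (.pp [(1, 422400)]) (.sq [(1, 1), (2, 11), (3, -53), (5,
 100), (7, 51)])) (.mul (.g 16) (.pp [(1, 783684000000)])))))) (.add (.mul (.g 17) (.add (.pp [(1,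
 3951189000000)]) (.mul (.g 10) (.mul (.g 17) (.pp [(1, 870282600000)]))))) (.mul (.g 16) (.pp [(1,
 726280500000)])))))) (.add (.mul (.g 9) (.add (.add (.mul (.g 11) (.add (.add (.mul (.pp [(1,
 336080580)]) (.sq [(1, -11), (2, -38), (3, 100), (5, -98), (7, -38)])) (.mul (.g 12) (.add (.mul
 (.g 12) (.pp [(1, 17767464000000)])) (.mul (.g 16) (.pp [(1, 18508947600000)]))))) (.add (.mul (.g
 8) (.mul (.g 8) (.pp [(1, 23825940600000)]))) (.add (.mul (.g 15) (.pp [(1, 742843860000)])) (.mul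
 (.g 16) (.mul (.g 19) (.pp [(1, 61571400000)]))))))) (.add (.mul (.g 8) (.add (.mul (.g 8) (.add
 (.mul (.g 16) (.pp [(1, 36857700000)])) (.mul (.g 19) (.pp [(1, 9021375000000)])))) (.add (.mul
 (.g 12) (.mul (.g 12) (.pp [(1, 1935417000000)]))) (.mul (.g 16) (.mul (.g 17) (.pp [(1,
 8154481500000)])))))) (.mul (.g 9) (.add (.mul (.g 12) (.add (.mul (.g 14) (.pp [(1,
 114100800000)])) (.mul (.g 15) (.pp [(1, 131092500000)])))) (.mul (.g 16) (.mul (.g 17) (.pp [(1,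
 215565900000)]))))))) (.add (.add (.mul (.g 17) (.add (.pp [(1, 4107457200000)]) (.mul (.pp [(1,
 1719788400)]) (.sq [(1, 7), (2, -9), (3, -46), (5, 100), (7, 56)])))) (.mul (.g 12) (.pp [(1,
 3834441600000)]))) (.add (.mul (.g 13) (.pp [(1, 217800000000)])) (.mul (.g 19) (.pp [(1,
 2149613400000)])))))) (.mul (.g 19) (.add (.add (.pp [(1, 6740230200000)]) (.add (.mul (.g 11)
 (.add (.mul (.pp [(1, 119338560)]) (.sq [(1, 50), (2, 31), (3, 41), (5, 41), (7, 41)])) (.add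
 (.mul (.g 12) (.add (.mul (.g 8) (.pp [(1, 11375126400000)])) (.mul (.g 12) (.pp [(1,
 6607728600000)])))) (.mul (.g 16) (.pp [(1, 3766920300000)]))))) (.mul (.g 13) (.add (.mul (.pp
 [(1, 183330840)]) (.sq [(1, 36), (2, 29), (3, -100), (5, -84), (7, -84)])) (.mul (.g 13) (.mul (.g
 14) (.pp [(1, 2297017800000)]))))))) (.add (.add (.mul (.g 17) (.add (.mul (.pp [(1, 22284900)])
 (.sq [(1, -43), (2, -42), (3, -14), (5, 31), (7, 100)])) (.mul (.pp [(1, 754641360)]) (.sq [(1,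
 18), (2, -25), (3, -29), (5, 38), (7, -50)])))) (.mul (.g 8) (.mul (.g 8) (.mul (.g 8) (.pp [(1,
 4021670400000)]))))) (.add (.mul (.g 16) (.mul (.pp [(1, 59336970)]) (.sq [(1, -74), (2, -68), (3,
 -63), (5, 100), (7, 68)]))) (.mul (.g 19) (.mul (.pp [(1, 25317600)]) (.sq [(1, 28), (2, 52), (3,
 -57), (5, -100), (7, -89)]))))))))) (.add (.mul (.g 12) (.add (.mul (.g 16) (.add (.mul (.pp [(1,
 142599270)]) (.sq [(1, 26), (2, -42), (3, -77), (5, 93), (7, 100)])) (.mul (.g 11) (.mul (.g 17)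
 (.pp [(1, 3166482000000)]))))) (.add (.mul (.g 12) (.mul (.pp [(1, 287266320)]) (.sq [(1, 2), (2,
 -2), (3, -10), (5, 45), (7, -50)]))) (.mul (.g 14) (.mul (.g 14) (.mul (.g 15) (.pp [(1,
 22176990000)]))))))) (.add (.mul (.g 8) (.add (.mul (.g 17) (.add (.pp [(1, 94195200000)]) (.mul
 (.g 8) (.mul (.g 8) (.pp [(1, 2677626600000)]))))) (.mul (.g 13) (.pp [(1, 2023705200000)]))))
 (.mul (.g 11) (.add (.mul (.g 11) (.pp [(1, 7832622600000)])) (.mul (.g 16) (.pp [(1,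
 4000339200000)]))))))) (.add (.add (.mul (.g 13) (.add (.mul (.g 15) (.mul (.pp [(1, 14996949)])
 (.sq [(1, -16), (2, -11), (3, 94), (5, 5), (7, -100)]))) (.mul (.g 16) (.mul (.pp [(1, 4855620)])
 (.sq [(1, 100), (2, -29), (3, 49), (5, 49)]))))) (.add (.mul (.g 0) (.pp [(1, 200000000000)]))
 (.mul (.g 1) (.pp [(1, 660000000)])))) (.add (.add (.mul (.g 4) (.pp [(1, 2200000000000)])) (.mul
 (.g 6) (.pp [(1, 2200000000000)]))) (.add (.mul (.g 17) (.pp [(1, 7203009000000)])) (.mul (.g 18)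
 (.pp [(1, 4400000000)])))))) (.pp [(1, 213565518916), (2, 66057488), (3, 69325496), (4, 66507133),
 (5, 75603064), (6, 71695492), (7, 70030620), (8, 64634361), (9, 56904144), (10, 58328578), (12,
 68469071), (14, 73897560), (15, 46811468), (16, 66823020), (18, 55958584), (20, 66680229), (21,
 51441720), (24, 61956180), (25, 66177265), (27, 75681144), (28, 55041360), (30, 58670678), (35,
 41444040), (36, 61941660), (40, 57272820), (42, 49063080), (45, 83131664), (49, 58029840), (50,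
 56432475), (54, 74998770), (56, 66891000), (60, 77395560), (63, 79734600), (70, 86415120), (75,
 79355705), (81, 61437090), (84, 78338040), (90, 84440730), (98, 49613520), (100, 76989000), (105,
 90416040), (125, 71281045), (126, 71048340), (135, 53757990), (140, 67367520), (147, 93624960),
 (150, 58869690), (175, 63239220), (189, 67258950), (196, 72716160), (210, 63185760), (225,
 59674560), (245, 83569200), (250, 64659870), (294, 86058720), (315, 59098710), (343, 74321280),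
 (350, 70538160), (375, 64860180), (441, 55527120), (490, 68785200), (525, 61346340), (625,
 64130880), (686, 69030720), (735, 56847120), (875, 64827840), (1029, 66055440), (1225, 65021880),
 (1715, 65596740), (2401, 67409760)])))))))))))
 (P_c3 ++ xP_A_F3) = true := by decide +kernel

theorem t_A_F5c_c4 : chk RFp gP_A_F5c
 (.cut 1 [(2, 1), (3, -1)] (.add (.mul (.g 10) (.pp [(1, 1)])) (.mul (.g 5) (.pp [(1, 1)]))) (.rule
 0 (.cut 1 [(2, -1), (5, 1)] (.add (.mul (.g 12) (.pp [(1, 1)])) (.mul (.g 6) (.pp [(1, 1)])))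
 (.rule 3 (.leaf 60000000 (.add (.add (.add (.add (.mul (.g 5) (.add (.add (.mul (.pp [(1,
 129693600000)]) (.sq [(2, 1), (3, -1)])) (.add (.mul (.g 8) (.add (.add (.pp [(1, 368895600000)])
 (.mul (.g 5) (.mul (.g 5) (.pp [(1, 6857400000)])))) (.add (.mul (.g 6) (.pp [(1, 359028600000)]))
 (.mul (.g 8) (.mul (.g 8) (.pp [(1, 116872800000)])))))) (.mul (.g 9) (.add (.pp [(1,
 113814000000)]) (.add (.mul (.g 10) (.add (.mul (.g 10) (.pp [(1, 9981600000)])) (.mul (.g 11)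
 (.pp [(1, 368910000)])))) (.mul (.g 4) (.mul (.g 4) (.pp [(1, 39893400000)])))))))) (.add (.mul
 (.g 5) (.add (.mul (.pp [(1, 4641480)]) (.sq [(1, 71), (2, -38), (3, 100), (5, -38)])) (.mul (.g
 5) (.pp [(1, 57169200000)])))) (.add (.mul (.g 13) (.add (.pp [(1, 182695800000)]) (.mul (.pp [(1,
 3991500)]) (.sq [(1, 32), (2, 9), (3, -49), (5, 100)])))) (.mul (.g 4) (.mul (.g 4) (.mul (.g 4)
 (.pp [(1, 69337800000)])))))))) (.mul (.g 11) (.add (.add (.mul (.g 13) (.add (.pp [(1,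
 6944580000)]) (.add (.mul (.pp [(1, 215328)]) (.sq [(1, 64), (2, 100), (3, -59), (5, 7)])) (.mul
 (.g 6) (.mul (.g 6) (.pp [(1, 854550000)])))))) (.mul (.g 9) (.add (.pp [(1, 2235870000)]) (.mul
 (.pp [(1, 3023316)]) (.sq [(1, 100), (2, -97), (3, -9), (5, -3)]))))) (.add (.mul (.g 14) (.add
 (.mul (.pp [(1, 137226)]) (.sq [(1, -100), (2, 84), (3, 85), (5, 84)])) (.mul (.g 4) (.mul (.g 11)
 (.pp [(1, 58362000)]))))) (.add (.mul (.g 6) (.mul (.pp [(1, 86445)]) (.sq [(1, 31), (2, 14), (3,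
 100), (5, -72)]))) (.mul (.g 8) (.pp [(1, 922980000)]))))))) (.add (.mul (.g 6) (.add (.mul (.g
 14) (.add (.mul (.g 4) (.add (.pp [(1, 1654800000)]) (.mul (.g 9) (.pp [(1, 45239400000)]))))
 (.mul (.g 6) (.add (.mul (.g 9) (.pp [(1, 38037600000)])) (.mul (.g 13) (.pp [(1,
 3100200000)])))))) (.mul (.g 8) (.add (.pp [(1, 37513200000)]) (.mul (.g 4) (.mul (.g 6) (.pp [(1,
 30000000)]))))))) (.mul (.g 8) (.add (.mul (.g 8) (.add (.mul (.g 9) (.mul (.g 9) (.pp [(1,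
 404026800000)]))) (.mul (.g 10) (.mul (.g 10) (.pp [(1, 140638800000)]))))) (.add (.mul (.g 13)
 (.mul (.pp [(1, 2657580)]) (.sq [(2, 100), (3, 33), (5, 38)]))) (.mul (.g 14) (.pp [(1,
 192018600000)]))))))) (.add (.add (.mul (.g 0) (.pp [(1, 200000000000)])) (.mul (.g 2) (.pp [(1,
 200000000000)]))) (.add (.mul (.g 9) (.mul (.g 9) (.mul (.pp [(1, 2425560)]) (.sq [(1, -86), (2,
 100), (3, 54), (5, 65)])))) (.add (.mul (.g 12) (.pp [(1, 800000000)])) (.mul (.g 13) (.mul (.g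
 13) (.mul (.pp [(1, 821340)]) (.sq [(1, -51), (2, 35), (3, 27), (5, 100)])))))))) (.pp [(1,
 3532874292), (2, 5757240), (3, 6003984), (4, 5265432), (5, 5645157), (6, 6326304), (8, 5317956),
 (9, 6211710), (10, 7096320), (12, 7937568), (15, 6192012), (16, 6404880), (18, 5259840), (20,
 7238136), (24, 5736960), (25, 6124680), (27, 5638724), (30, 4354584), (36, 5603280), (40,
 5706000), (45, 6063702), (50, 5105436), (54, 6233220), (60, 5706000), (75, 5427540), (81,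
 5808960), (90, 6634680), (100, 5580600), (125, 6100428), (135, 5899800), (150, 6204480), (225,
 6308160), (250, 6453360), (375, 6246960), (625, 5855160)])))))))
 (P_c4 ++ xP_A_F5c) = true := by decide +kernel

theorem t_A_F7_c2 : chk ROp gP_A_F7
 (.split [(1, -69), (3, 100)]
 (.split [(2, 1), (3, -1)]
 (.split [(2, 1), (5, -1)]
 (.rule 0 (.rule 2 (.cut 1 [(1, 3), (3, -2)] (.add (.add (.mul (.g 3) (.pp [(1, 2)])) (.mul (.g 9)
 (.pp [(1, 3)]))) (.add (.mul (.g 7) (.pp [(1, 1)])) (.mul (.g 2) (.pp [(1, 1)])))) (.rule 8 (.leaf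
 60000000 (.add (.add (.add (.add (.mul (.g 10) (.add (.add (.add (.mul (.g 9) (.add (.add (.mul
 (.g 9) (.add (.add (.mul (.g 8) (.pp [(1, 41823600000)])) (.mul (.g 10) (.pp [(1, 17446200000)])))
 (.add (.mul (.g 12) (.pp [(1, 10800000)])) (.mul (.g 17) (.pp [(1, 29348400000)]))))) (.mul (.g 5)
 (.add (.mul (.g 8) (.pp [(1, 57219600000)])) (.mul (.g 15) (.pp [(1, 112505400000)]))))) (.add
 (.mul (.g 6) (.add (.mul (.g 8) (.pp [(1, 1012182000)])) (.mul (.g 15) (.pp [(1, 843117000)]))))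
 (.add (.mul (.g 7) (.mul (.g 19) (.pp [(1, 35506800000)]))) (.mul (.g 10) (.mul (.g 10) (.pp [(1,
 898800000)]))))))) (.mul (.g 10) (.add (.add (.mul (.g 19) (.add (.mul (.g 8) (.pp [(1,
 292987800000)])) (.add (.mul (.g 10) (.pp [(1, 6000000)])) (.mul (.g 17) (.pp [(1,
 74439000000)]))))) (.mul (.g 6) (.add (.pp [(1, 876426000)]) (.mul (.g 5) (.pp [(1,
 166938000)]))))) (.add (.mul (.g 11) (.add (.pp [(1, 263053200000)]) (.mul (.g 7) (.pp [(1,
 95749200000)])))) (.mul (.g 10) (.mul (.g 16) (.pp [(1, 11005080000)]))))))) (.add (.mul (.g 8)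
 (.add (.add (.mul (.g 19) (.add (.mul (.g 8) (.pp [(1, 110691000000)])) (.mul (.g 19) (.pp [(1,
 163522800000)])))) (.mul (.g 4) (.mul (.g 14) (.pp [(1, 2446050000)])))) (.add (.mul (.g 5) (.mul
 (.g 13) (.pp [(1, 46294200000)]))) (.mul (.g 7) (.mul (.g 11) (.pp [(1, 265726800000)])))))) (.mul
 (.g 5) (.add (.pp [(1, 119319000000)]) (.add (.mul (.g 6) (.mul (.g 7) (.pp [(1, 1505760000)])))
 (.mul (.g 11) (.mul (.g 17) (.pp [(1, 252042600000)])))))))) (.add (.add (.mul (.g 19) (.add (.pp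
 [(1, 173828400000)]) (.mul (.g 7) (.add (.mul (.g 7) (.pp [(1, 26926800000)])) (.mul (.g 19) (.pp
 [(1, 37211400000)])))))) (.mul (.g 4) (.pp [(1, 26286600000)]))) (.add (.mul (.g 6) (.pp [(1,
 3670608000)])) (.mul (.g 11) (.mul (.pp [(1, 3902880)]) (.sq [(1, -4), (2, 97), (3, 84), (5, 82),
 (7, -100)]))))))) (.add (.mul (.g 11) (.add (.add (.mul (.g 5) (.add (.pp [(1, 48401400000)])
 (.add (.mul (.pp [(1, 2249700)]) (.sq [(1, -6), (2, 76), (3, -54), (5, 100), (7, -65)])) (.mul (.g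
 11) (.mul (.g 14) (.pp [(1, 694710000)])))))) (.add (.mul (.g 8) (.add (.mul (.pp [(1, 9483420)])
 (.sq [(1, -2), (2, -24), (3, -31), (5, -4), (7, 100)])) (.mul (.g 8) (.add (.pp [(1,
 117193200000)]) (.mul (.g 8) (.pp [(1, 182839200000)])))))) (.mul (.g 9) (.add (.pp [(1,
 60036600000)]) (.mul (.g 9) (.mul (.g 12) (.pp [(1, 36787200000)]))))))) (.add (.add (.mul (.g 11)
 (.add (.mul (.pp [(1, 3654480)]) (.sq [(1, 20), (2, -40), (3, -15), (5, 50), (7, -4)])) (.mul (.pp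
 [(1, 2740860)]) (.sq [(1, -42), (2, 100), (3, 3), (5, 59), (7, 22)])))) (.mul (.g 19) (.add (.pp
 [(1, 9144000000)]) (.mul (.pp [(1, 754320)]) (.sq [(1, -10), (2, 84), (3, -83), (5, 100), (7,
 49)]))))) (.add (.mul (.g 12) (.mul (.pp [(1, 11268240)]) (.sq [(1, -1), (2, 31), (3, 20), (5,
 50), (7, -33)]))) (.mul (.g 13) (.mul (.pp [(1, 7603860)]) (.sq [(1, 24), (2, -44), (3, -2), (5,
 -71), (7, 100)]))))))) (.mul (.g 4) (.add (.add (.pp [(1, 19155000000)]) (.add (.mul (.g 9) (.add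
 (.pp [(1, 45373800000)]) (.mul (.g 5) (.mul (.g 19) (.pp [(1, 26929800000)]))))) (.mul (.g 13)
 (.add (.mul (.pp [(1, 1260900)]) (.sq [(1, 12), (2, 100), (3, 95), (5, -20), (7, -70)])) (.mul (.g
 8) (.pp [(1, 355234800000)])))))) (.add (.add (.mul (.g 14) (.add (.mul (.pp [(1, 92841)]) (.sq
 [(1, 9), (2, 100), (3, 88), (5, -20), (7, -52)])) (.mul (.pp [(1, 217899)]) (.sq [(1, 100), (2,
 -45), (3, 78), (5, -13)])))) (.mul (.g 4) (.mul (.pp [(1, 4924560)]) (.sq [(1, 100), (2, -81), (3,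
 9), (5, 58), (7, -12)])))) (.add (.mul (.g 7) (.pp [(1, 93691800000)])) (.mul (.g 17) (.pp [(1,
 64529400000)])))))))) (.add (.mul (.g 5) (.add (.mul (.g 5) (.add (.mul (.g 12) (.add (.pp [(1,
 167802600000)]) (.mul (.g 17) (.pp [(1, 57430200000)])))) (.mul (.g 5) (.pp [(1, 15939000000)]))))
 (.add (.mul (.g 7) (.add (.mul (.g 8) (.mul (.g 17) (.pp [(1, 93860400000)]))) (.mul (.g 9) (.mul
 (.g 19) (.pp [(1, 77812200000)]))))) (.mul (.g 6) (.pp [(1, 491004000)]))))) (.add (.mul (.g 8)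
 (.add (.mul (.g 9) (.add (.mul (.g 7) (.mul (.g 19) (.pp [(1, 45396000000)]))) (.mul (.g 9) (.mul
 (.g 14) (.pp [(1, 4174650000)]))))) (.add (.mul (.g 6) (.mul (.g 16) (.mul (.g 17) (.pp [(1,
 115364400)])))) (.mul (.g 14) (.mul (.pp [(1, 116472)]) (.sq [(1, 12), (2, 52), (3, -23), (5,
 -44), (7, 100)])))))) (.mul (.g 9) (.add (.mul (.g 9) (.mul (.g 9) (.mul (.g 17) (.pp [(1,
 72773400000)])))) (.mul (.g 19) (.mul (.pp [(1, 179520)]) (.sq [(1, 76), (2, 76), (3, 93), (5,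
 100), (7, 71)])))))))) (.add (.add (.mul (.g 0) (.pp [(1, 60000000)])) (.add (.mul (.g 2) (.pp
 [(1, 200000000000)])) (.mul (.g 3) (.pp [(1, 200000000000)])))) (.add (.mul (.g 7) (.mul (.g 16)
 (.mul (.g 17) (.mul (.g 19) (.pp [(1, 40703400000)]))))) (.add (.mul (.g 12) (.mul (.g 14) (.mul
 (.pp [(1, 72942)]) (.sq [(1, -36), (2, -42), (3, 26), (5, 100), (7, -55)])))) (.mul (.g 18) (.pp
 [(1, 200000000)])))))) (.pp [(1, 11483426208), (2, 5783409), (3, 5891088), (4, 5071644), (5,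
 5858703), (6, 6514380), (7, 5546640), (8, 6741107), (9, 5265468), (10, 6143928), (12, 6069828),
 (14, 6401856), (15, 5043132), (16, 5869980), (18, 6230604), (20, 6208563), (21, 6376200), (24,
 6626820), (25, 5632920), (27, 6422244), (28, 5486520), (30, 5515056), (35, 6503544), (36,
 5588040), (40, 5869200), (42, 5944992), (45, 6989244), (49, 6618750), (50, 5398689), (54,
 5499480), (56, 5579520), (60, 4840620), (63, 5934600), (70, 5575320), (75, 7086576), (81,
 5902080), (84, 5567760), (90, 5885400), (98, 5545026), (100, 5480520), (105, 5554608), (125,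
 6330561), (126, 7476720), (135, 6514740), (140, 7953840), (147, 5284350), (150, 7463760), (175,
 5271240), (189, 5541600), (196, 6119340), (210, 7610400), (225, 6289140), (245, 6285354), (250,
 6591060), (294, 5403420), (315, 5414160), (343, 5482320), (350, 5711040), (375, 5508300), (441,
 6591000), (490, 5887200), (525, 6089520), (625, 5766780), (686, 6277680), (735, 6534720), (875,
 6453120), (1029, 6600000), (1225, 6089640), (1715, 6160320), (2401, 6000000)])))))))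
 (.rule 0 (.rule 3 (.cut 31 [(1, 3), (3, -2)] (.add (.mul (.g 3) (.pp [(1, 162)])) (.add (.mul (.g
 9) (.pp [(1, 162)])) (.mul (.g 4) (.pp [(1, 1)])))) (.rule 8 (.leaf 3000000 (.add (.add (.add
 (.add (.mul (.pp [(1, 5304)]) (.sq [(1, 12), (2, 12), (3, 100), (5, -75)])) (.add (.mul (.g 10)
 (.add (.add (.mul (.g 10) (.add (.add (.mul (.g 19) (.add (.add (.pp [(1, 2961420000)]) (.mul (.g
 9) (.pp [(1, 600000)]))) (.add (.mul (.g 10) (.pp [(1, 600000)])) (.mul (.g 13) (.pp [(1,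
 180000)]))))) (.add (.mul (.g 11) (.add (.pp [(1, 3947910000)]) (.add (.mul (.g 8) (.pp [(1,
 1467900000)])) (.mul (.g 11) (.pp [(1, 1290000)]))))) (.mul (.g 6) (.add (.mul (.g 7) (.pp [(1,
 100671000)])) (.mul (.g 8) (.pp [(1, 19645500)])))))) (.add (.mul (.g 4) (.pp [(1, 1962030000)]))
 (.add (.mul (.g 10) (.mul (.g 10) (.pp [(1, 300000)]))) (.mul (.g 14) (.mul (.g 17) (.pp [(1,
 98305500)]))))))) (.add (.mul (.g 9) (.add (.mul (.g 11) (.add (.add (.mul (.g 8) (.pp [(1,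
 8136510000)])) (.mul (.g 9) (.pp [(1, 2260260000)]))) (.add (.mul (.g 12) (.pp [(1, 6774960000)]))
 (.add (.mul (.g 17) (.pp [(1, 4457790000)])) (.mul (.g 19) (.pp [(1, 1963260000)])))))) (.add
 (.mul (.g 4) (.add (.mul (.g 6) (.pp [(1, 37800)])) (.mul (.g 8) (.pp [(1, 2838390000)])))) (.mul
 (.g 19) (.add (.mul (.g 9) (.pp [(1, 1965450000)])) (.mul (.g 12) (.pp [(1, 1965060000)])))))))
 (.mul (.g 7) (.add (.mul (.g 8) (.add (.mul (.g 4) (.pp [(1, 160800000)])) (.add (.mul (.g 6) (.pp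
 [(1, 77193000)])) (.mul (.g 19) (.pp [(1, 10565910000)]))))) (.add (.mul (.g 4) (.mul (.g 6) (.pp
 [(1, 469200)]))) (.mul (.g 19) (.pp [(1, 6114450000)]))))))) (.add (.add (.mul (.g 11) (.add (.mul
 (.g 8) (.mul (.g 17) (.pp [(1, 3638430000)]))) (.add (.mul (.g 11) (.mul (.g 15) (.pp [(1,
 2258085000)]))) (.mul (.g 12) (.mul (.g 12) (.pp [(1, 4516260000)])))))) (.mul (.g 15) (.add (.pp
 [(1, 3898710000)]) (.mul (.g 4) (.mul (.g 8) (.pp [(1, 2843385000)])))))) (.add (.mul (.g 5) (.mul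
 (.g 5) (.mul (.g 5) (.pp [(1, 990000)])))) (.mul (.g 6) (.pp [(1, 115484400)])))))) (.mul (.g 11)
 (.add (.add (.mul (.g 9) (.add (.add (.mul (.g 7) (.add (.pp [(1, 4322340000)]) (.mul (.g 12) (.pp
 [(1, 570000)])))) (.mul (.g 9) (.add (.mul (.g 4) (.pp [(1, 150000)])) (.mul (.g 9) (.pp [(1,
 1830000)]))))) (.add (.mul (.g 6) (.mul (.g 19) (.pp [(1, 399600)]))) (.mul (.g 8) (.mul (.g 8)
 (.pp [(1, 920940000)])))))) (.add (.mul (.g 8) (.add (.mul (.g 8) (.add (.pp [(1, 5292720000)])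
 (.mul (.g 8) (.pp [(1, 10613550000)])))) (.mul (.g 6) (.pp [(1, 26703000)])))) (.mul (.g 7) (.mul
 (.g 7) (.add (.pp [(1, 9397770000)]) (.mul (.g 5) (.pp [(1, 300000)]))))))) (.add (.mul (.g 6)
 (.pp [(1, 41262300)])) (.add (.mul (.g 11) (.pp [(1, 2508540000)])) (.mul (.g 19) (.pp [(1,
 1389690000)])))))))) (.add (.mul (.g 7) (.add (.add (.mul (.pp [(1, 134469)]) (.sq [(1, 12), (2,
 12), (3, 100), (5, -75)])) (.mul (.g 15) (.add (.add (.pp [(1, 4172580000)]) (.mul (.g 4) (.mul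
 (.g 4) (.pp [(1, 105000)])))) (.add (.mul (.g 5) (.pp [(1, 5679435000)])) (.mul (.g 15) (.pp [(1,
 2999025000)])))))) (.add (.mul (.g 6) (.mul (.g 6) (.add (.mul (.g 5) (.pp [(1, 87651)])) (.mul
 (.g 8) (.pp [(1, 1061196)]))))) (.mul (.g 9) (.mul (.pp [(1, 159)]) (.sq [(1, 12), (2, 12), (3,
 100), (5, -75)])))))) (.add (.mul (.g 8) (.add (.add (.mul (.pp [(1, 324846)]) (.sq [(1, 12), (2,
 12), (3, 100), (5, -75)])) (.mul (.g 8) (.mul (.g 12) (.add (.mul (.g 9) (.pp [(1, 876030000)]))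
 (.mul (.g 19) (.pp [(1, 874950000)])))))) (.add (.mul (.g 15) (.add (.mul (.g 4) (.pp [(1,
 2513025000)])) (.mul (.g 13) (.pp [(1, 12986790000)])))) (.mul (.g 5) (.mul (.g 5) (.mul (.g 19)
 (.pp [(1, 875760000)]))))))) (.mul (.g 9) (.add (.add (.mul (.pp [(1, 248004)]) (.sq [(1, 12), (2,
 12), (3, 100), (5, -75)])) (.mul (.g 4) (.mul (.g 15) (.pp [(1, 3896940000)])))) (.add (.mul (.g
 6) (.mul (.g 6) (.mul (.g 9) (.pp [(1, 87546)])))) (.mul (.g 12) (.mul (.pp [(1, 39)]) (.sq [(1,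
 96), (2, 4), (3, 27), (5, -47), (7, -100)]))))))))) (.add (.add (.mul (.g 12) (.add (.mul (.g 4)
 (.add (.mul (.pp [(1, 102)]) (.sq [(1, 100), (2, -43), (3, 43), (5, 43)])) (.mul (.pp [(1, 9)])
 (.sq [(1, -38), (2, 26), (3, -91), (5, 48), (7, 100)])))) (.mul (.g 19) (.mul (.pp [(1, 111)])
 (.sq [(1, -25), (2, 100), (3, 66), (5, 40), (7, 66)]))))) (.add (.mul (.g 0) (.pp [(1, 3000000)]))
 (.mul (.g 2) (.pp [(1, 10000000000)])))) (.add (.mul (.g 3) (.pp [(1, 10000000000)])) (.add (.mul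
 (.g 6) (.mul (.g 6) (.pp [(1, 52776)]))) (.mul (.g 18) (.pp [(1, 10000000)])))))) (.pp [(1,
 4769013), (2, 298833), (3, 273426), (4, 315753), (5, 305979), (6, 321330), (7, 289275), (8,
 326162), (9, 314109), (10, 303936), (12, 269820), (14, 357075), (15, 325845), (16, 284682), (18,
 294867), (20, 317178), (21, 309693), (24, 300534), (25, 266082), (27, 253332), (28, 293400), (30,
 306588), (35, 246045), (36, 288111), (40, 327384), (42, 272568), (45, 289038), (49, 279684), (50,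
 267573), (54, 285189), (56, 256800), (60, 296154), (63, 270180), (70, 215520), (75, 288792), (81,
 326484), (84, 394800), (90, 328263), (98, 264384), (100, 274968), (105, 297072), (125, 312047),
 (126, 198948), (135, 301962), (140, 327000), (147, 320364), (150, 291348), (175, 373680), (189,
 349452), (196, 265200), (210, 236160), (225, 297468), (245, 355896), (250, 316410), (294, 315348),
 (315, 377892), (343, 303516), (350, 325800), (375, 317475), (441, 289452), (490, 350880), (525,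
 333840), (625, 295485), (686, 303516), (735, 273372), (875, 275400), (1029, 296484), (1225,
 283920), (1715, 296484), (2401, 300000)]))))))))
 (.rule 1 (.cut 1 [(2, 1), (5, -1)] (.add (.mul (.g 11) (.pp [(1, 1)])) (.mul (.g 1) (.pp [(1,
 1)]))) (.rule 2 (.cut 1 [(1, 3), (3, -2)] (.add (.add (.mul (.g 10) (.pp [(1, 1)])) (.mul (.g 15)
 (.pp [(1, 1)]))) (.add (.mul (.g 7) (.pp [(1, 1)])) (.mul (.g 9) (.pp [(1, 1)])))) (.rule 8 (.leaf
 30000000 (.add (.add (.add (.add (.mul (.g 10) (.add (.add (.add (.mul (.g 5) (.add (.add (.mul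
 (.g 7) (.add (.mul (.g 5) (.pp [(1, 50332500000)])) (.add (.mul (.g 7) (.pp [(1, 35659200000)]))
 (.mul (.g 11) (.pp [(1, 53083500000)]))))) (.mul (.g 9) (.add (.mul (.g 5) (.pp [(1,
 1158300000)])) (.mul (.g 9) (.pp [(1, 81552900000)]))))) (.add (.mul (.g 10) (.add (.pp [(1,
 43152600000)]) (.mul (.g 17) (.pp [(1, 18662100000)])))) (.mul (.g 12) (.mul (.g 14) (.pp [(1,
 509070000)])))))) (.mul (.g 9) (.add (.add (.pp [(1, 73447800000)]) (.mul (.g 9) (.add (.mul (.g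
 8) (.pp [(1, 5478900000)])) (.add (.mul (.g 17) (.pp [(1, 58481700000)])) (.mul (.g 19) (.pp [(1,
 40488600000)])))))) (.add (.mul (.g 7) (.mul (.g 15) (.pp [(1, 4603200000)]))) (.mul (.g 8) (.mul
 (.g 12) (.pp [(1, 6977400000)]))))))) (.add (.mul (.g 10) (.add (.mul (.g 11) (.add (.pp [(1,
 54135600000)]) (.add (.mul (.g 11) (.pp [(1, 28769700000)])) (.mul (.g 17) (.pp [(1,
 39299100000)]))))) (.mul (.g 10) (.add (.mul (.g 10) (.pp [(1, 2937300000)])) (.mul (.g 13) (.pp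
 [(1, 1092000000)])))))) (.mul (.g 7) (.add (.add (.pp [(1, 4083300000)]) (.mul (.g 6) (.mul (.g 7)
 (.pp [(1, 269487000)])))) (.add (.mul (.g 11) (.mul (.g 17) (.pp [(1, 59958000000)]))) (.mul (.g
 15) (.mul (.g 16) (.pp [(1, 6196620000)])))))))) (.add (.add (.mul (.g 19) (.add (.pp [(1,
 88675200000)]) (.mul (.pp [(1, 509040)]) (.sq [(1, 100), (2, 81), (3, 81), (5, 81), (7, 81)]))))
 (.mul (.g 6) (.pp [(1, 2059875000)]))) (.add (.mul (.g 8) (.mul (.g 8) (.mul (.g 13) (.pp [(1,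
 18631800000)])))) (.mul (.g 15) (.pp [(1, 72976500000)])))))) (.mul (.g 9) (.add (.add (.mul (.g
 9) (.add (.add (.mul (.g 9) (.add (.add (.mul (.g 5) (.pp [(1, 9000000)])) (.mul (.g 15) (.pp [(1,
 3000000)]))) (.add (.mul (.g 17) (.pp [(1, 74994000000)])) (.mul (.g 19) (.pp [(1,
 3088200000)]))))) (.mul (.g 5) (.add (.mul (.g 7) (.pp [(1, 1500000)])) (.mul (.g 19) (.pp [(1,
 83519700000)]))))) (.add (.mul (.g 8) (.mul (.g 14) (.pp [(1, 1679040000)]))) (.mul (.g 19) (.mul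
 (.g 19) (.pp [(1, 51410400000)])))))) (.add (.mul (.g 5) (.add (.pp [(1, 37293600000)]) (.mul (.g
 8) (.add (.mul (.g 5) (.pp [(1, 31790700000)])) (.mul (.g 11) (.pp [(1, 22541100000)])))))) (.mul
 (.g 7) (.add (.mul (.g 11) (.add (.mul (.g 6) (.pp [(1, 654666000)])) (.mul (.g 7) (.pp [(1,
 7500000)])))) (.mul (.g 15) (.pp [(1, 74032800000)])))))) (.add (.mul (.g 6) (.pp [(1,
 22830000)])) (.add (.mul (.g 8) (.mul (.pp [(1, 178680)]) (.sq [(1, -14), (2, -43), (3, -50), (5,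
 72), (7, -100)]))) (.mul (.g 15) (.pp [(1, 58490700000)]))))))) (.add (.mul (.g 8) (.add (.add
 (.mul (.g 8) (.add (.mul (.g 11) (.add (.add (.mul (.g 7) (.pp [(1, 77160000000)])) (.mul (.g 8)
 (.pp [(1, 18729000000)]))) (.add (.mul (.g 15) (.pp [(1, 34192050000)])) (.mul (.g 17) (.pp [(1,
 176955900000)]))))) (.add (.mul (.g 5) (.pp [(1, 41502000000)])) (.mul (.g 16) (.mul (.g 19) (.pp
 [(1, 3111840000)])))))) (.mul (.g 5) (.add (.mul (.g 7) (.add (.mul (.g 7) (.pp [(1,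
 156531000000)])) (.mul (.g 11) (.pp [(1, 58515900000)])))) (.mul (.g 11) (.mul (.g 16) (.pp [(1,
 38858160000)])))))) (.add (.mul (.g 13) (.mul (.g 15) (.pp [(1, 144882600000)]))) (.mul (.g 14)
 (.mul (.pp [(1, 202404)]) (.sq [(1, -30), (2, -1), (3, -45), (5, 100), (7, 34)])))))) (.add (.mul
 (.g 19) (.add (.add (.mul (.pp [(1, 406290)]) (.sq [(2, 46), (3, 85), (5, 85), (7, 100)])) (.add
 (.mul (.g 5) (.pp [(1, 27119700000)])) (.mul (.g 7) (.mul (.g 7) (.mul (.g 7) (.pp [(1,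
 87627300000)])))))) (.add (.add (.mul (.g 11) (.mul (.pp [(1, 1732620)]) (.sq [(1, -6), (2, 78),
 (3, 96), (5, 19), (7, -100)]))) (.mul (.g 12) (.mul (.pp [(1, 155820)]) (.sq [(1, 13), (2, 34),
 (3, 100), (5, -54), (7, 97)])))) (.add (.mul (.g 15) (.mul (.pp [(1, 586095)]) (.sq [(1, 12), (2,
 24), (3, 96), (5, -67), (7, 100)]))) (.mul (.g 19) (.mul (.pp [(1, 825030)]) (.sq [(1, -29), (2,
 100), (3, 22), (5, -48), (7, 22)]))))))) (.mul (.g 7) (.add (.mul (.g 6) (.add (.pp [(1,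
 31113000)]) (.add (.mul (.g 5) (.mul (.g 11) (.pp [(1, 1759500000)]))) (.mul (.g 13) (.mul (.g 17)
 (.pp [(1, 12966000)])))))) (.add (.mul (.g 5) (.mul (.g 13) (.pp [(1, 183248400000)]))) (.mul (.g
 15) (.pp [(1, 31260300000)])))))))) (.add (.add (.mul (.g 0) (.pp [(1, 30000000)])) (.add (.mul
 (.g 2) (.pp [(1, 100000000000)])) (.mul (.g 4) (.pp [(1, 100000000000)])))) (.add (.mul (.g 5)
 (.mul (.g 11) (.mul (.g 13) (.mul (.g 15) (.pp [(1, 1500000)]))))) (.add (.mul (.g 6) (.mul (.g 6)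
 (.pp [(1, 1377000)]))) (.mul (.g 18) (.pp [(1, 100000000)])))))) (.pp [(1, 5741544870), (2,
 2903820), (3, 3096540), (4, 3189720), (5, 2926380), (6, 3010020), (7, 2799600), (8, 2750720), (9,
 2750100), (10, 2844600), (12, 2944956), (14, 2334420), (15, 3331800), (16, 3000000), (18,
 3248400), (20, 2984400), (21, 2678520), (24, 2997360), (25, 2926650), (27, 3362030), (28,
 2925120), (30, 3253800), (35, 2944860), (36, 3170880), (40, 3000000), (42, 3707472), (45,
 2746620), (49, 3022350), (50, 3091230), (54, 2828160), (56, 3149280), (60, 3118200), (63,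
 3741810), (70, 2947560), (75, 2830845), (81, 2871960), (84, 3306480), (90, 2827680), (98,
 3127500), (100, 3000000), (105, 2914380), (125, 3151575), (126, 2762160), (135, 3151920), (140,
 2961600), (147, 3785016), (150, 2811330), (175, 2887710), (189, 2894640), (196, 2984160), (210,
 3104160), (225, 3077385), (245, 3072900), (250, 3000000), (294, 3255900), (315, 3335640), (343,
 3214260), (350, 2908770), (375, 2971305), (441, 3074340), (490, 3105840), (525, 3395025), (625,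
 3000000), (686, 3301260), (735, 3306300), (875, 2848425), (1029, 3115860), (1225, 3185640), (1715,
 3025860), (2401, 3196920)])))))))))
 (.split [(2, 1), (3, -1)]
 (.split [(2, 1), (5, -1)]
 (.rule 0 (.rule 2 (.cut 9 [(1, -7), (3, 50)] (.add (.mul (.g 6) (.pp [(1, 310)])) (.add (.mul (.g
 12) (.pp [(1, 7)])) (.mul (.g 2) (.pp [(1, 140)])))) (.rule 7 (.leaf 1200000000 (.add (.add (.add
 (.add (.mul (.g 10) (.add (.add (.add (.mul (.g 8) (.add (.add (.mul (.g 11) (.add (.mul (.g 7)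
 (.pp [(1, 9294984000000)])) (.add (.mul (.g 10) (.pp [(1, 995124000000)])) (.mul (.g 16) (.pp [(1,
 317865600000)]))))) (.add (.mul (.g 4) (.add (.mul (.g 4) (.pp [(1, 1133484000000)])) (.mul (.g
 10) (.pp [(1, 1043988000000)])))) (.mul (.g 6) (.mul (.g 7) (.pp [(1, 18583560000)]))))) (.add
 (.mul (.g 8) (.mul (.g 14) (.pp [(1, 167593200000)]))) (.add (.mul (.g 9) (.mul (.g 9) (.pp [(1,
 71124000000)]))) (.mul (.g 13) (.mul (.g 16) (.pp [(1, 269940000000)]))))))) (.mul (.g 10) (.add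
 (.mul (.g 14) (.add (.add (.mul (.g 5) (.pp [(1, 59978400000)])) (.mul (.g 7) (.pp [(1,
 15767400000)]))) (.add (.mul (.g 11) (.pp [(1, 13644000000)])) (.mul (.g 15) (.pp [(1,
 20254500000)]))))) (.add (.mul (.g 5) (.add (.mul (.g 5) (.pp [(1, 140352000000)])) (.mul (.g 16)
 (.pp [(1, 310401600000)])))) (.mul (.g 11) (.mul (.g 16) (.pp [(1, 51760800000)]))))))) (.add
 (.mul (.g 11) (.add (.mul (.g 5) (.add (.mul (.g 7) (.pp [(1, 2605584000000)])) (.mul (.g 11) (.pp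
 [(1, 2587404000000)])))) (.add (.mul (.g 6) (.mul (.g 7) (.pp [(1, 91121640000)]))) (.mul (.g 9)
 (.mul (.g 14) (.pp [(1, 112314600000)])))))) (.mul (.g 14) (.add (.pp [(1, 539092800000)]) (.mul
 (.g 9) (.pp [(1, 37012800000)])))))) (.add (.add (.mul (.g 19) (.add (.pp [(1, 3016080000000)])
 (.mul (.pp [(1, 3040800)]) (.sq [(1, 100), (2, 81), (3, 81), (5, 81), (7, 81)])))) (.mul (.g 4)
 (.pp [(1, 11343396000000)]))) (.add (.mul (.g 5) (.pp [(1, 2555832000000)])) (.add (.mul (.g 12)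
 (.mul (.pp [(1, 1572000)]) (.sq [(1, 11), (2, -22), (3, 100), (5, 19), (7, -82)]))) (.mul (.g 17)
 (.mul (.pp [(1, 1971600)]) (.sq [(1, 73), (2, -92), (3, -72), (5, -22), (7, 100)])))))))) (.add
 (.mul (.g 11) (.add (.add (.add (.mul (.g 5) (.add (.mul (.pp [(1, 166800)]) (.sq [(1, 24), (2,
 -33), (3, 4), (5, -27), (7, 100)])) (.mul (.g 11) (.mul (.g 14) (.pp [(1, 43457400000)]))))) (.mul
 (.g 8) (.add (.mul (.pp [(1, 427118400)]) (.sq [(2, -41), (3, -31), (5, -6), (7, 100)])) (.mul (.g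
 8) (.mul (.g 16) (.pp [(1, 534948000000)])))))) (.add (.mul (.g 13) (.add (.mul (.pp [(1,
 14710800)]) (.sq [(1, 57), (2, -78), (3, -46), (5, 100), (7, -30)])) (.mul (.pp [(1, 186177600)])
 (.sq [(1, 16), (2, -58), (3, 3), (5, -13), (7, 100)])))) (.mul (.g 17) (.add (.mul (.pp [(1,
 404452800)]) (.sq [(1, 20), (2, -26), (3, -45), (5, -21), (7, 100)])) (.mul (.pp [(1, 14701200)])
 (.sq [(1, -32), (2, 92), (3, 100), (5, -44), (7, 63)])))))) (.add (.add (.mul (.g 19) (.add (.pp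
 [(1, 1347000000000)]) (.mul (.pp [(1, 6278400)]) (.sq [(1, 19), (2, -24), (3, 44), (5, -26), (7,
 100)])))) (.mul (.g 4) (.pp [(1, 3333876000000)]))) (.add (.mul (.g 12) (.mul (.pp [(1,
 21066000)]) (.sq [(1, 17), (2, -31), (3, -45), (5, -29), (7, 100)]))) (.mul (.g 14) (.pp [(1,
 155712600000)])))))) (.mul (.g 4) (.add (.add (.mul (.g 8) (.add (.add (.pp [(1, 961044000000)])
 (.mul (.pp [(1, 32179200)]) (.sq [(1, -9), (2, -7), (3, -52), (5, 4), (7, 100)]))) (.add (.mul (.g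
 19) (.add (.mul (.g 4) (.pp [(1, 2580192000000)])) (.mul (.g 17) (.pp [(1, 2178240000000)]))))
 (.mul (.g 13) (.pp [(1, 7536972000000)]))))) (.mul (.g 4) (.add (.mul (.pp [(1, 4539600)]) (.sq
 [(1, 25), (2, 5), (3, 17), (5, 100), (7, 37)])) (.add (.mul (.g 5) (.pp [(1, 1592832000000)]))
 (.mul (.g 9) (.mul (.g 9) (.pp [(1, 679092000000)]))))))) (.add (.mul (.g 13) (.add (.pp [(1,
 958476000000)]) (.mul (.g 7) (.mul (.g 19) (.pp [(1, 1643184000000)]))))) (.mul (.g 16) (.pp [(1,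
 703555200000)]))))))) (.add (.mul (.g 14) (.add (.add (.mul (.g 14) (.add (.mul (.pp [(1, 26451)])
 (.sq [(1, 30), (2, 2), (3, 38), (5, 100), (7, 27)])) (.mul (.pp [(1, 117675)]) (.sq [(1, 100), (2,
 -64), (3, -5), (5, 80), (7, -90)])))) (.mul (.g 8) (.mul (.pp [(1, 14194620)]) (.sq [(1, 2), (2,
 -10), (3, -44), (5, 11), (7, 100)])))) (.add (.mul (.g 12) (.mul (.pp [(1, 22632960)]) (.sq [(1,
 -12), (2, -14), (3, -34), (5, 50), (7, -17)]))) (.add (.mul (.g 16) (.pp [(1, 21593760000)]))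
 (.mul (.g 19) (.mul (.pp [(1, 5982360)]) (.sq [(1, -14), (3, 100), (5, -39), (7, 11)]))))))) (.add
 (.mul (.g 5) (.add (.mul (.g 5) (.add (.pp [(1, 344904000000)]) (.add (.mul (.pp [(1, 82536000)])
 (.sq [(1, 50), (2, 29), (3, -29), (5, -29)])) (.mul (.g 12) (.mul (.g 17) (.pp [(1,
 1440600000000)])))))) (.add (.mul (.g 6) (.pp [(1, 9638760000)])) (.mul (.g 7) (.mul (.g 12) (.pp
 [(1, 892956000000)])))))) (.mul (.g 19) (.add (.mul (.pp [(1, 101329200)]) (.sq [(2, 46), (3, 85),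
 (5, 85), (7, 100)])) (.add (.mul (.g 16) (.add (.mul (.g 6) (.mul (.g 7) (.pp [(1, 5997288000)])))
 (.mul (.g 8) (.mul (.g 8) (.pp [(1, 81888000000)]))))) (.mul (.g 19) (.mul (.pp [(1, 7334400)])
 (.sq [(1, -100), (2, -63), (3, 85), (5, 85), (7, 52)]))))))))) (.add (.add (.mul (.g 6) (.add
 (.mul (.g 7) (.mul (.g 8) (.mul (.g 9) (.pp [(1, 8010360000)])))) (.mul (.g 15) (.mul (.g 15) (.pp
 [(1, 19075470000)]))))) (.add (.mul (.g 0) (.pp [(1, 2400000000)])) (.mul (.g 2) (.pp [(1,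
 4000000000000)])))) (.add (.mul (.g 3) (.pp [(1, 4000000000000)])) (.add (.mul (.g 8) (.mul (.g
 16) (.mul (.g 16) (.pp [(1, 47844960000)])))) (.mul (.g 18) (.pp [(1, 4000000000)])))))) (.pp [(1,
 192232166100), (2, 116911080), (3, 133408080), (4, 117219156), (5, 126639120), (6, 138817368), (7,
 135806340), (8, 99950800), (9, 105728481), (10, 124710960), (12, 163722960), (14, 114606012), (15,
 95512800), (16, 126013200), (18, 63444840), (20, 140845200), (21, 89231928), (24, 109759200), (25,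
 107669640), (27, 146705880), (28, 116163360), (30, 79836240), (35, 102064680), (36, 112834800),
 (40, 110461200), (42, 104705760), (45, 152517960), (49, 106035921), (50, 109479600), (54,
 143720400), (56, 119373600), (60, 131726400), (63, 151321680), (70, 120491040), (75, 141661140),
 (81, 111685200), (84, 120624000), (90, 142755600), (98, 113085720), (100, 114337200), (105,
 172071600), (125, 126860400), (126, 152304000), (135, 102976800), (140, 120292800), (147,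
 156060240), (150, 126106800), (175, 134600760), (189, 98301600), (196, 104964000), (210,
 135604800), (225, 104334000), (245, 138976200), (250, 141668400), (294, 116084400), (315,
 86601600), (343, 127548360), (350, 131690400), (375, 108318000), (441, 114325200), (490,
 130257600), (525, 101606400), (625, 108000000), (686, 124927200), (735, 118939200), (875,
 111043200), (1029, 114974400), (1225, 117684000), (1715, 112720800), (2401, 118471200)])))))))
 (.rule 0 (.rule 3 (.cut 2 [(1, -7), (3, 50)] (.add (.mul (.g 6) (.pp [(1, 65)])) (.mul (.g 14)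
 (.pp [(1, 7)]))) (.rule 7 (.leaf 15000000 (.add (.add (.add (.add (.mul (.pp [(1, 33285)]) (.sq
 [(1, 14), (2, 14), (3, 100), (5, -72), (7, 57)])) (.add (.mul (.g 10) (.add (.add (.mul (.g 19)
 (.add (.add (.mul (.g 10) (.add (.add (.pp [(1, 11682300000)]) (.mul (.g 4) (.pp [(1,
 3124200000)]))) (.add (.mul (.g 8) (.pp [(1, 3125700000)])) (.add (.mul (.g 9) (.pp [(1,
 3000000)])) (.mul (.g 10) (.pp [(1, 1500000)])))))) (.mul (.g 5) (.add (.mul (.g 8) (.pp [(1,
 9562950000)])) (.add (.mul (.g 9) (.pp [(1, 17255550000)])) (.mul (.g 11) (.pp [(1,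
 6703950000)])))))) (.add (.mul (.g 16) (.add (.pp [(1, 4589520000)]) (.mul (.g 6) (.pp [(1,
 9761700)])))) (.add (.mul (.g 7) (.pp [(1, 72132150000)])) (.mul (.g 9) (.pp [(1,
 3210150000)])))))) (.mul (.g 11) (.add (.add (.mul (.g 9) (.add (.mul (.g 5) (.pp [(1,
 8622750000)])) (.add (.mul (.g 12) (.pp [(1, 5171400000)])) (.mul (.g 16) (.pp [(1,
 15206520000)]))))) (.add (.mul (.g 10) (.add (.mul (.g 8) (.pp [(1, 14930100000)])) (.mul (.g 11)
 (.pp [(1, 10478250000)])))) (.mul (.g 4) (.mul (.g 6) (.pp [(1, 220698000)]))))) (.add (.mul (.g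
 5) (.mul (.g 17) (.pp [(1, 40116300000)]))) (.add (.mul (.g 11) (.mul (.g 15) (.pp [(1,
 9071175000)]))) (.mul (.g 12) (.mul (.g 12) (.pp [(1, 10205850000)])))))))) (.add (.mul (.g 10)
 (.add (.mul (.g 16) (.add (.mul (.g 12) (.pp [(1, 4481250000)])) (.mul (.g 16) (.pp [(1,
 112980000)])))) (.mul (.g 4) (.mul (.g 15) (.pp [(1, 3259275000)]))))) (.mul (.g 8) (.mul (.g 15)
 (.add (.mul (.g 4) (.pp [(1, 12876300000)])) (.mul (.g 8) (.pp [(1, 20835900000)])))))))) (.mul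
 (.g 9) (.add (.add (.mul (.g 9) (.add (.mul (.pp [(1, 54840)]) (.sq [(1, 7), (2, 7), (3, 50), (5,
 -36), (7, 35)])) (.add (.mul (.g 11) (.add (.pp [(1, 11608950000)]) (.add (.mul (.g 8) (.pp [(1,
 7297500000)])) (.mul (.g 9) (.pp [(1, 293400000)]))))) (.mul (.g 15) (.add (.mul (.g 16) (.pp [(1,
 719040000)])) (.mul (.g 19) (.pp [(1, 383625000)]))))))) (.add (.mul (.g 16) (.add (.mul (.pp [(1,
 85437)]) (.sq [(1, 19), (2, 45), (3, 100), (5, -87), (7, -14)])) (.add (.mul (.g 6) (.mul (.g 6)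
 (.pp [(1, 125532)]))) (.mul (.g 11) (.mul (.g 19) (.pp [(1, 2700270000)])))))) (.mul (.g 15) (.add
 (.pp [(1, 8896725000)]) (.mul (.g 4) (.pp [(1, 11518725000)])))))) (.add (.mul (.g 6) (.mul (.g 7)
 (.mul (.g 19) (.pp [(1, 139452000)])))) (.add (.mul (.g 8) (.mul (.g 8) (.mul (.g 11) (.pp [(1,
 34301700000)])))) (.mul (.g 13) (.mul (.pp [(1, 45030)]) (.sq [(1, 14), (2, 14), (3, 100), (5,
 -72), (7, 65)]))))))))) (.add (.mul (.g 12) (.add (.add (.mul (.pp [(1, 38910)]) (.sq [(2, -67),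
 (3, -52), (5, -70), (7, 100)])) (.add (.mul (.g 8) (.add (.mul (.pp [(1, 772620)]) (.sq [(1, -1),
 (2, -7), (3, 50), (5, -38), (7, 31)])) (.add (.mul (.g 8) (.mul (.g 8) (.pp [(1, 8033550000)])))
 (.mul (.g 16) (.pp [(1, 4570140000)]))))) (.mul (.g 4) (.add (.pp [(1, 5844300000)]) (.mul (.pp
 [(1, 101175)]) (.sq [(1, -20), (2, 41), (3, -65), (5, 55), (7, 100)])))))) (.add (.add (.mul (.g
 19) (.add (.pp [(1, 21142200000)]) (.mul (.pp [(1, 696285)]) (.sq [(1, -25), (2, 100), (3, 63),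
 (5, 43), (7, 67)])))) (.mul (.g 5) (.mul (.g 5) (.pp [(1, 2786250000)])))) (.add (.mul (.g 7)
 (.mul (.g 15) (.pp [(1, 38813175000)]))) (.mul (.g 16) (.pp [(1, 5946150000)])))))) (.add (.mul
 (.g 8) (.add (.add (.mul (.pp [(1, 563025)]) (.sq [(1, 47), (2, 18), (3, 100), (5, -85), (7,
 12)])) (.mul (.pp [(1, 74565)]) (.sq [(1, 14), (2, 14), (3, 100), (5, -71), (7, 38)]))) (.add
 (.mul (.g 16) (.add (.mul (.pp [(1, 144000)]) (.sq [(1, 15), (2, 15), (3, 100), (5, -70), (7,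
 1)])) (.add (.mul (.g 7) (.mul (.g 15) (.pp [(1, 705555000)]))) (.mul (.g 11) (.pp [(1,
 7102530000)]))))) (.add (.mul (.g 4) (.mul (.g 15) (.pp [(1, 106783200000)]))) (.mul (.g 8) (.mul
 (.g 8) (.mul (.g 11) (.pp [(1, 16577250000)])))))))) (.mul (.g 11) (.add (.mul (.g 4) (.add (.pp
 [(1, 6987750000)]) (.mul (.pp [(1, 10140)]) (.sq [(1, 16), (2, 100), (3, 63), (5, -55), (7,
 -5)])))) (.add (.mul (.g 11) (.add (.pp [(1, 809550000)]) (.mul (.pp [(1, 17220)]) (.sq [(1, 100),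
 (2, -71), (3, 62), (5, -47), (7, -10)])))) (.mul (.g 5) (.mul (.g 5) (.pp [(1,
 15256500000)]))))))))) (.add (.add (.mul (.g 7) (.add (.mul (.pp [(1, 14892900)]) (.sq [(1, 7),
 (2, 7), (3, 50), (5, -36), (7, 28)])) (.add (.mul (.g 7) (.mul (.g 15) (.mul (.g 16) (.pp [(1,
 649875000)])))) (.mul (.g 13) (.mul (.pp [(1, 100065)]) (.sq [(1, 14), (2, 14), (3, 100), (5,
 -72), (7, 57)])))))) (.add (.mul (.g 15) (.add (.mul (.g 16) (.pp [(1, 3650760000)])) (.mul (.g
 19) (.pp [(1, 2582475000)])))) (.mul (.g 0) (.pp [(1, 30000000)])))) (.add (.add (.mul (.g 2) (.pp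
 [(1, 50000000000)])) (.mul (.g 3) (.pp [(1, 50000000000)]))) (.add (.mul (.g 16) (.mul (.pp [(1,
 23712)]) (.sq [(1, 58), (2, 23), (3, 100), (5, -86)]))) (.mul (.g 18) (.pp [(1, 50000000)]))))))
 (.pp [(1, 16182351), (2, 1304127), (3, 1545975), (4, 1821126), (5, 1339989), (6, 1527615), (7,
 1554615), (8, 1592605), (9, 1671510), (10, 1671606), (12, 1372740), (14, 1400415), (15, 1555920),
 (16, 1481895), (18, 1556400), (20, 1269915), (21, 1626435), (24, 1313835), (25, 1610685), (27,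
 1458720), (28, 1687140), (30, 1342950), (35, 1422117), (36, 1614165), (40, 1644720), (42,
 1286550), (45, 1026450), (49, 1732320), (50, 1672680), (54, 1340790), (56, 1376340), (60,
 1514610), (63, 1267665), (70, 1428300), (75, 1404840), (81, 1544835), (84, 1370340), (90,
 1603380), (98, 1654785), (100, 1453050), (105, 1477530), (125, 1412236), (126, 1628055), (135,
 1831080), (140, 1494540), (147, 1118670), (150, 1549020), (175, 1468749), (189, 1628865), (196,
 1454685), (210, 1583760), (225, 1493310), (245, 1210089), (250, 1382400), (294, 1368330), (315,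
 1672845), (343, 1423365), (350, 1468485), (375, 1517655), (441, 1756485), (490, 1394235), (525,
 1663155), (625, 1546215), (686, 1423365), (735, 1777305), (875, 1546635), (1029, 1576635), (1225,
 1600080), (1715, 1576635), (2401, 1500000)]))))))))
 (.rule 1 (.cut 1 [(2, 1), (5, -1)] (.add (.mul (.g 1) (.pp [(1, 1)])) (.mul (.g 11) (.pp [(1,
 1)]))) (.rule 2 (.cut 9 [(1, -7), (3, 50)] (.add (.add (.mul (.g 5) (.pp [(1, 310)])) (.mul (.g 3)
 (.pp [(1, 310)]))) (.add (.mul (.g 12) (.pp [(1, 7)])) (.mul (.g 1) (.pp [(1, 140)])))) (.rule 7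
 (.leaf 3000000000 (.add (.add (.add (.add (.mul (.g 19) (.add (.add (.add (.mul (.pp [(1,
 183804000)]) (.sq [(2, 46), (3, 85), (5, 85), (7, 100)])) (.mul (.pp [(1, 429330000)]) (.sq [(3,
 100), (5, -45), (7, 39)]))) (.add (.mul (.g 16) (.add (.mul (.pp [(1, 3851400)]) (.sq [(1, -13),
 (2, -3), (3, -66), (5, 25), (7, 100)])) (.add (.mul (.g 16) (.add (.mul (.g 11) (.pp [(1,
 154070400000)])) (.mul (.g 19) (.pp [(1, 292852800000)])))) (.mul (.g 10) (.mul (.g 17) (.pp [(1,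
 9668748000000)])))))) (.add (.mul (.g 9) (.add (.mul (.pp [(1, 70035000)]) (.sq [(1, 76), (2, 76),
 (3, 93), (5, 100), (7, 71)])) (.mul (.g 9) (.add (.mul (.g 9) (.pp [(1, 3277680000000)])) (.mul
 (.g 11) (.pp [(1, 2965260000000)])))))) (.mul (.g 5) (.add (.pp [(1, 27594990000000)]) (.mul (.pp
 [(1, 177834000)]) (.sq [(1, 56), (2, -23), (3, 100), (5, -23), (7, -44)]))))))) (.add (.add (.mul
 (.g 10) (.add (.pp [(1, 1133190000000)]) (.mul (.pp [(1, 45000)]) (.sq [(1, 100), (2, 81), (3,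
 81), (5, 81), (7, 81)])))) (.add (.mul (.g 12) (.add (.mul (.pp [(1, 105222000)]) (.sq [(1, 25),
 (2, 100), (3, 1), (5, 62), (7, 45)])) (.mul (.pp [(1, 35343000)]) (.sq [(1, 52), (2, -37), (3,
 -100), (5, 74), (7, -63)])))) (.mul (.g 7) (.mul (.g 7) (.mul (.g 7) (.pp [(1,
 2620080000000)])))))) (.add (.mul (.g 11) (.mul (.pp [(1, 115518000)]) (.sq [(1, -11), (2, 39),
 (3, -3), (5, 100), (7, 9)]))) (.add (.mul (.g 15) (.pp [(1, 71775000000)])) (.mul (.g 17) (.mul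
 (.pp [(1, 66960000)]) (.sq [(1, 57), (2, -23), (3, -100), (5, 46), (7, -61)])))))))) (.add (.mul
 (.g 5) (.add (.add (.mul (.g 15) (.add (.add (.pp [(1, 60544155000000)]) (.mul (.pp [(1,
 293602500)]) (.sq [(1, 100), (2, -62), (3, 62), (5, 47)]))) (.add (.mul (.pp [(1, 148372500)])
 (.sq [(1, 17), (2, -15), (3, 100), (5, -18), (7, -60)])) (.add (.mul (.g 5) (.pp [(1,
 42435000000)])) (.mul (.g 8) (.pp [(1, 6482745000000)])))))) (.add (.mul (.g 5) (.add (.pp [(1,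
 40477140000000)]) (.mul (.pp [(1, 30360000)]) (.sq [(1, 44), (2, -70), (3, 23), (5, 46), (7,
 100)])))) (.mul (.g 6) (.add (.mul (.pp [(1, 22616700)]) (.sq [(1, 77), (2, -34), (3, -28), (5,
 15), (7, 100)])) (.mul (.g 13) (.mul (.g 17) (.pp [(1, 3399900000)]))))))) (.add (.add (.mul (.g
 10) (.mul (.g 11) (.add (.mul (.g 8) (.pp [(1, 2240460000000)])) (.mul (.g 16) (.pp [(1,
 3482478000000)]))))) (.mul (.g 12) (.add (.mul (.pp [(1, 304494000)]) (.sq [(1, 31), (2, 31), (3,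
 -3), (5, -4), (7, 100)])) (.mul (.pp [(1, 321528000)]) (.sq [(1, 35), (2, -55), (3, -34), (5, 32),
 (7, 100)]))))) (.add (.mul (.g 14) (.add (.pp [(1, 4026595500000)]) (.mul (.g 7) (.pp [(1,
 489837000000)])))) (.mul (.g 13) (.mul (.pp [(1, 920562000)]) (.sq [(1, -51), (2, 64), (3, -49),
 (5, -16), (7, 100)]))))))) (.mul (.g 10) (.add (.add (.mul (.g 16) (.add (.mul (.g 11) (.add (.mul
 (.g 8) (.pp [(1, 7722768000000)])) (.add (.mul (.g 10) (.pp [(1, 2040624000000)])) (.mul (.g 17)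
 (.pp [(1, 7701840000000)]))))) (.add (.mul (.g 16) (.add (.mul (.g 8) (.pp [(1, 1390896000000)]))
 (.mul (.g 17) (.pp [(1, 8694584400000)])))) (.mul (.g 6) (.mul (.g 10) (.pp [(1,
 63058500000)])))))) (.mul (.g 9) (.mul (.g 9) (.add (.mul (.g 9) (.pp [(1, 3225780000000)])) (.mul
 (.g 10) (.pp [(1, 972270000000)])))))) (.add (.mul (.g 6) (.mul (.g 6) (.mul (.g 8) (.pp [(1,
 9467388000)])))) (.add (.mul (.g 14) (.pp [(1, 215626500000)])) (.mul (.g 17) (.mul (.pp [(1,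
 254037000)]) (.sq [(1, -42), (2, 21), (3, 100), (5, -59), (7, -16)]))))))))) (.add (.add (.mul (.g
 15) (.add (.add (.mul (.g 9) (.add (.pp [(1, 19079925000000)]) (.mul (.g 9) (.add (.mul (.g 9)
 (.pp [(1, 1426635000000)])) (.mul (.g 11) (.pp [(1, 765045000000)])))))) (.add (.mul (.g 6) (.mul
 (.g 15) (.pp [(1, 50672625000)]))) (.mul (.g 8) (.pp [(1, 6493800000000)])))) (.add (.mul (.g 11)
 (.mul (.pp [(1, 1027068000)]) (.sq [(1, 35), (2, -46), (3, 50), (5, 25)]))) (.add (.mul (.g 14)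
 (.mul (.pp [(1, 6373200)]) (.sq [(1, 38), (2, 23), (3, -9), (7, 100)]))) (.mul (.g 16) (.pp [(1,
 957750000000)])))))) (.mul (.g 12) (.add (.add (.mul (.g 14) (.add (.mul (.pp [(1, 22141500)])
 (.sq [(1, 41), (2, 38), (3, -19), (5, 2), (7, 100)])) (.add (.mul (.g 8) (.mul (.g 16) (.pp [(1,
 192698400000)]))) (.mul (.g 9) (.mul (.g 14) (.pp [(1, 1641525000)])))))) (.mul (.g 12) (.add
 (.mul (.pp [(1, 128061000)]) (.sq [(1, 56), (2, -37), (3, 18), (5, -4), (7, 100)])) (.mul (.pp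
 [(1, 118242000)]) (.sq [(1, -14), (2, 100), (3, 31), (5, -17), (7, -33)]))))) (.add (.mul (.g 8)
 (.mul (.pp [(1, 41580000)]) (.sq [(1, 40), (2, -35), (3, -72), (5, 17), (7, 100)]))) (.mul (.g 13)
 (.mul (.pp [(1, 342273000)]) (.sq [(1, 21), (2, 75), (3, -6), (5, -43), (7, -100)]))))))) (.add
 (.mul (.g 6) (.add (.mul (.g 13) (.mul (.g 13) (.mul (.g 17) (.pp [(1, 166641300000)])))) (.add
 (.mul (.g 14) (.pp [(1, 356220000)])) (.mul (.g 16) (.mul (.pp [(1, 1650564)]) (.sq [(1, 56), (2,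
 -18), (3, -61), (5, 13), (7, 100)])))))) (.mul (.g 11) (.add (.mul (.g 7) (.mul (.g 7) (.mul (.g
 14) (.pp [(1, 117970500000)])))) (.mul (.g 16) (.mul (.pp [(1, 175491000)]) (.sq [(1, 3), (2, 2),
 (3, -79), (5, 19), (7, 100)])))))))) (.add (.add (.add (.mul (.g 0) (.pp [(1, 6000000000)])) (.mul
 (.g 2) (.pp [(1, 10000000000000)]))) (.add (.mul (.g 4) (.pp [(1, 10000000000000)])) (.mul (.g 8)
 (.mul (.g 9) (.mul (.g 9) (.mul (.g 9) (.pp [(1, 2223540000000)]))))))) (.add (.add (.mul (.g 13)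
 (.mul (.g 13) (.mul (.pp [(1, 135096000)]) (.sq [(1, -1), (2, -26), (3, -33), (5, 100), (7,
 -94)])))) (.mul (.g 14) (.mul (.g 14) (.mul (.pp [(1, 1571805)]) (.sq [(1, 76), (2, -68), (3, 41),
 (5, 46), (7, 100)]))))) (.add (.mul (.g 17) (.mul (.g 17) (.mul (.pp [(1, 70122000)]) (.sq [(1,
 15), (2, -25), (3, -78), (5, 79), (7, 100)])))) (.mul (.g 18) (.pp [(1, 10000000000)])))))) (.pp
 [(1, 24477947772), (2, 298278768), (3, 332887536), (4, 286359648), (5, 296682132), (6, 309261132),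
 (7, 315253200), (8, 291374000), (9, 234220827), (10, 264861804), (12, 301977480), (14, 333416400),
 (15, 324347808), (16, 298527000), (18, 335211420), (20, 299497800), (21, 322546800), (24,
 316027500), (25, 317512428), (27, 363937520), (28, 324955800), (30, 412956840), (35, 321739200),
 (36, 262672500), (40, 290665500), (42, 276343200), (45, 251190780), (49, 282879000), (50,
 309834900), (54, 325773000), (56, 350055000), (60, 309373500), (63, 167722200), (70, 322242000),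
 (75, 248092680), (81, 254856000), (84, 177624000), (90, 266334000), (98, 300585000), (100,
 346812000), (105, 313278000), (125, 296143800), (126, 391320000), (135, 293841000), (140,
 208425000), (147, 320124000), (150, 244249500), (175, 292506000), (189, 307683000), (196,
 320865000), (210, 374364000), (225, 325744500), (245, 311976000), (250, 239407500), (294,
 243981000), (315, 254865000), (343, 289248000), (350, 366918000), (375, 328018500), (441,
 276708000), (490, 259944000), (525, 257001000), (625, 322431000), (686, 297825000), (735,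
 262104000), (875, 261840000), (1029, 266754000), (1225, 287823000), (1715, 286008000), (2401,
 295245000)]))))))))))
 (P_c2 ++ xP_A_F7) = true := by decide +kernel

theorem t_A_F7_free : chk RFp gP_A_F7
 (.split [(2, 1), (3, -1)]
 (.split [(2, 1), (5, -1)]
 (.rule 0 (.rule 2 (.leaf 3000000 (.add (.add (.add (.add (.mul (.g 5) (.add (.add (.mul (.g 7)
 (.add (.add (.mul (.g 5) (.add (.add (.pp [(1, 6949110000)]) (.mul (.g 2) (.pp [(1, 361320000)])))
 (.add (.mul (.g 11) (.pp [(1, 256576500)])) (.mul (.g 13) (.pp [(1, 347850000)]))))) (.mul (.g 6)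
 (.add (.pp [(1, 5446290000)]) (.add (.mul (.g 7) (.pp [(1, 8310000)])) (.mul (.g 8) (.pp [(1,
 1556310000)])))))) (.add (.mul (.g 4) (.add (.mul (.g 10) (.pp [(1, 609240000)])) (.mul (.g 13)
 (.pp [(1, 857880000)])))) (.add (.mul (.g 8) (.add (.mul (.g 2) (.pp [(1, 4080510000)])) (.mul (.g
 3) (.pp [(1, 9625200000)])))) (.mul (.g 13) (.pp [(1, 11428920000)])))))) (.add (.mul (.g 13)
 (.add (.add (.pp [(1, 1417170000)]) (.mul (.g 5) (.add (.pp [(1, 2505960000)]) (.add (.mul (.g 5)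
 (.pp [(1, 326370000)])) (.mul (.g 8) (.pp [(1, 3486270000)])))))) (.add (.mul (.g 3) (.add (.pp
 [(1, 10026060000)]) (.mul (.g 8) (.pp [(1, 9705510000)])))) (.mul (.g 6) (.mul (.g 13) (.pp [(1,
 501930000)])))))) (.mul (.g 3) (.add (.pp [(1, 1972140000)]) (.add (.mul (.g 3) (.pp [(1,
 12834390000)])) (.mul (.g 5) (.mul (.g 6) (.pp [(1, 347460000)])))))))) (.add (.add (.mul (.g 2)
 (.mul (.g 5) (.add (.mul (.g 2) (.pp [(1, 2506080000)])) (.mul (.g 6) (.pp [(1, 1890090000)])))))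
 (.mul (.g 4) (.add (.mul (.g 4) (.mul (.g 8) (.pp [(1, 5927460000)]))) (.mul (.g 11) (.pp [(1,
 628242000)]))))) (.add (.mul (.g 8) (.mul (.pp [(1, 11853)]) (.sq [(1, 14), (2, -19), (3, 78), (5,
 -71), (7, -100)]))) (.mul (.g 11) (.pp [(1, 37548000)])))))) (.mul (.g 13) (.add (.add (.add (.mul
 (.pp [(1, 128412)]) (.sq [(2, 39), (3, -100), (5, 89), (7, -88)])) (.mul (.g 7) (.add (.mul (.pp
 [(1, 18498)]) (.sq [(1, 100), (2, 81), (3, 81), (5, 81), (7, 81)])) (.add (.mul (.g 6) (.add (.mul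
 (.g 2) (.pp [(1, 1474980000)])) (.add (.mul (.g 6) (.pp [(1, 1707420000)])) (.mul (.g 7) (.pp [(1,
 726930000)]))))) (.mul (.g 3) (.add (.pp [(1, 18710880000)]) (.mul (.g 8) (.pp [(1,
 311160000)])))))))) (.add (.mul (.g 3) (.add (.mul (.g 3) (.add (.pp [(1, 8562840000)]) (.mul (.g
 8) (.pp [(1, 5887500000)])))) (.mul (.g 6) (.mul (.g 8) (.pp [(1, 15930000)]))))) (.mul (.g 13)
 (.add (.pp [(1, 152520000)]) (.add (.mul (.pp [(1, 19242)]) (.sq [(1, 100), (2, -37), (3, -19),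
 (5, -60), (7, -60)])) (.mul (.pp [(1, 61572)]) (.sq [(1, 43), (2, -28), (3, 50), (5, 5), (7,
 -29)]))))))) (.add (.add (.mul (.g 2) (.mul (.pp [(1, 59229)]) (.sq [(1, 29), (2, -14), (3, -33),
 (5, 72), (7, 100)]))) (.mul (.g 6) (.mul (.g 6) (.mul (.g 6) (.pp [(1, 647010000)]))))) (.add
 (.mul (.g 8) (.mul (.pp [(1, 116946)]) (.sq [(1, -100), (2, -12), (3, 66), (5, 93), (7, 88)])))
 (.add (.mul (.g 9) (.mul (.pp [(1, 26691)]) (.sq [(1, -65), (2, 40), (3, 83), (5, -100), (7,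
 98)]))) (.mul (.g 10) (.pp [(1, 1070040000)])))))))) (.add (.mul (.g 2) (.add (.add (.mul (.g 6)
 (.add (.add (.pp [(1, 1244100000)]) (.mul (.pp [(1, 21360)]) (.sq [(1, 13), (2, 14), (3, 100), (5,
 -16), (7, -51)]))) (.add (.mul (.g 2) (.pp [(1, 8513460000)])) (.mul (.g 11) (.pp [(1,
 69852000)]))))) (.mul (.g 2) (.add (.mul (.pp [(1, 816)]) (.sq [(1, 100), (2, -67), (3, 33), (5,
 67)])) (.mul (.g 8) (.mul (.g 10) (.pp [(1, 2910000)])))))) (.add (.mul (.g 4) (.add (.pp [(1,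
 4479660000)]) (.mul (.g 10) (.pp [(1, 9885210000)])))) (.mul (.g 7) (.add (.pp [(1, 1194060000)])
 (.mul (.g 8) (.mul (.g 11) (.pp [(1, 2964000)])))))))) (.add (.mul (.g 10) (.add (.add (.pp [(1,
 299130000)]) (.mul (.g 3) (.add (.mul (.pp [(1, 7185)]) (.sq [(1, 100), (2, 80), (3, -53), (5,
 -27)])) (.add (.mul (.g 3) (.mul (.g 7) (.pp [(1, 5114490000)]))) (.mul (.g 4) (.pp [(1,
 138210000)])))))) (.add (.mul (.g 6) (.mul (.g 7) (.add (.pp [(1, 1757460000)]) (.mul (.g 6) (.pp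
 [(1, 100440000)]))))) (.mul (.g 8) (.add (.pp [(1, 961980000)]) (.mul (.pp [(1, 1722)]) (.sq [(1,
 6), (2, -18), (3, 41), (5, -94), (7, -100)]))))))) (.mul (.g 8) (.add (.mul (.g 3) (.mul (.g 7)
 (.add (.mul (.g 3) (.pp [(1, 718950000)])) (.mul (.g 6) (.pp [(1, 5305950000)]))))) (.add (.mul
 (.g 4) (.mul (.g 4) (.mul (.g 6) (.pp [(1, 1500000)])))) (.mul (.g 8) (.pp [(1, 37860000)]))))))))
 (.add (.add (.mul (.g 0) (.pp [(1, 10000000000)])) (.mul (.g 1) (.pp [(1, 10000000000)]))) (.add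
 (.mul (.g 3) (.mul (.g 4) (.pp [(1, 1073250000)]))) (.add (.mul (.g 9) (.mul (.g 9) (.mul (.pp
 [(1, 5874)]) (.sq [(1, -100), (2, 81), (3, 16), (5, 16), (7, 38)])))) (.mul (.g 12) (.pp [(1,
 10000000000)])))))) (.pp [(1, 4383897), (2, 268704), (3, 254916), (4, 286668), (5, 286512), (6,
 303624), (7, 222639), (8, 260192), (9, 345960), (10, 339276), (12, 396627), (14, 250980), (15,
 324672), (16, 313734), (18, 297546), (20, 404232), (21, 440295), (24, 287565), (25, 308310), (27,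
 268942), (28, 294162), (30, 157218), (35, 312852), (36, 262707), (40, 256236), (42, 382584), (45,
 294918), (49, 375672), (50, 236610), (54, 313296), (56, 334716), (60, 300600), (63, 166719), (70,
 308616), (75, 329169), (81, 298260), (84, 203682), (90, 345501), (98, 325164), (100, 344175),
 (105, 276000), (125, 301672), (126, 331344), (135, 299319), (140, 250908), (147, 201660), (150,
 277131), (175, 264732), (189, 333423), (196, 294768), (210, 392256), (225, 306555), (245, 280500),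
 (250, 284463), (294, 304308), (315, 342096), (343, 266010), (350, 278070), (375, 319401), (441,
 358992), (490, 308820), (525, 306834), (625, 301392), (686, 303888), (735, 372048), (875, 333600),
 (1029, 336306), (1225, 316182), (1715, 343872), (2401, 312126)])))))
 (.rule 0 (.rule 3 (.leaf 60000000 (.add (.add (.add (.add (.mul (.g 5) (.add (.add (.mul (.g 7)
 (.add (.add (.mul (.g 7) (.add (.add (.pp [(1, 25251000000)]) (.mul (.g 3) (.pp [(1,
 14191800000)]))) (.add (.mul (.g 4) (.pp [(1, 18640200000)])) (.mul (.g 11) (.pp [(1,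
 250050000)]))))) (.mul (.g 6) (.add (.mul (.g 2) (.pp [(1, 9044400000)])) (.add (.mul (.g 3) (.pp
 [(1, 189000000)])) (.mul (.g 11) (.pp [(1, 462660000)])))))) (.add (.mul (.g 4) (.add (.pp [(1,
 187123800000)]) (.mul (.g 13) (.pp [(1, 50998200000)])))) (.mul (.g 5) (.pp [(1,
 40914000000)]))))) (.add (.mul (.g 5) (.add (.mul (.g 5) (.add (.add (.pp [(1, 166777800000)])
 (.mul (.g 5) (.pp [(1, 19782600000)]))) (.add (.mul (.g 8) (.pp [(1, 28786800000)])) (.add (.mul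
 (.g 9) (.pp [(1, 835200000)])) (.mul (.g 13) (.pp [(1, 18434400000)])))))) (.mul (.g 2) (.mul (.g
 2) (.pp [(1, 4367400000)]))))) (.mul (.g 3) (.add (.add (.pp [(1, 28466400000)]) (.mul (.g 3) (.pp
 [(1, 20187600000)]))) (.add (.mul (.g 4) (.pp [(1, 123177600000)])) (.mul (.g 6) (.mul (.g 6) (.pp
 [(1, 2328600000)])))))))) (.add (.add (.mul (.g 4) (.add (.mul (.g 4) (.add (.mul (.g 9) (.pp [(1,
 724800000)])) (.mul (.g 13) (.pp [(1, 4006800000)])))) (.mul (.g 11) (.pp [(1, 28391310000)]))))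
 (.mul (.g 13) (.add (.pp [(1, 64636800000)]) (.mul (.pp [(1, 561480)]) (.sq [(1, -52), (2, 21),
 (3, -64), (5, 50), (7, 100)]))))) (.add (.mul (.g 8) (.mul (.pp [(1, 684840)]) (.sq [(1, -9), (2,
 1), (3, -44), (5, 30), (7, 100)]))) (.mul (.g 11) (.mul (.pp [(1, 16275)]) (.sq [(1, 85), (2,
 100), (3, 6), (5, 42), (7, 42)]))))))) (.mul (.g 13) (.add (.add (.add (.mul (.g 13) (.add (.add
 (.mul (.pp [(1, 789000)]) (.sq [(1, -29), (2, 100), (3, -3), (5, -10), (7, -38)])) (.mul (.pp [(1,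
 1721220)]) (.sq [(1, 100), (2, -37), (3, -19), (5, -60), (7, -60)]))) (.add (.mul (.g 2) (.add
 (.pp [(1, 9728400000)]) (.mul (.g 8) (.pp [(1, 6669600000)])))) (.mul (.g 6) (.add (.mul (.g 8)
 (.pp [(1, 9796200000)])) (.mul (.g 11) (.pp [(1, 226290000)]))))))) (.mul (.g 4) (.add (.mul (.g
 3) (.pp [(1, 147019800000)])) (.add (.mul (.g 4) (.mul (.g 10) (.pp [(1, 34973400000)]))) (.mul
 (.g 7) (.pp [(1, 299727000000)])))))) (.add (.mul (.g 11) (.add (.mul (.pp [(1, 58281)]) (.sq [(1,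
 50), (2, 100), (3, -1), (5, 30), (7, 38)])) (.add (.mul (.pp [(1, 48060)]) (.sq [(1, -6), (2,
 -63), (3, -69), (5, 100), (7, 58)])) (.mul (.pp [(1, 8421)]) (.sq [(2, -69), (3, 82), (5, -87),
 (7, 100)]))))) (.mul (.g 7) (.add (.mul (.pp [(1, 734160)]) (.sq [(1, -60), (2, 63), (3, 75), (5,
 27), (7, 100)])) (.mul (.g 7) (.pp [(1, 25473000000)])))))) (.add (.add (.mul (.g 10) (.add (.mul
 (.pp [(1, 1254180)]) (.sq [(1, -62), (3, -45), (5, 100), (7, 8)])) (.mul (.pp [(1, 1613820)]) (.sq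
 [(1, 83), (2, -74), (3, 45), (5, -25), (7, -100)])))) (.mul (.g 2) (.pp [(1, 7930200000)]))) (.add
 (.mul (.g 3) (.mul (.pp [(1, 3366000)]) (.sq [(1, 49), (2, 100), (3, 6), (5, -11), (7, 65)])))
 (.add (.mul (.g 8) (.mul (.pp [(1, 1447080)]) (.sq [(1, -100), (2, 21), (3, 61), (5, 94), (7,
 94)]))) (.mul (.g 9) (.mul (.pp [(1, 2860800)]) (.sq [(1, -2), (2, -18), (3, -18), (5, 25), (7,
 14)]))))))))) (.add (.mul (.g 3) (.add (.add (.mul (.g 4) (.add (.pp [(1, 12147000000)]) (.add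
 (.mul (.g 8) (.add (.add (.pp [(1, 96123600000)]) (.mul (.g 3) (.pp [(1, 11815200000)]))) (.add
 (.mul (.g 4) (.pp [(1, 233400000)])) (.mul (.g 6) (.pp [(1, 3556200000)]))))) (.mul (.g 2) (.pp
 [(1, 16885200000)]))))) (.mul (.g 6) (.mul (.g 6) (.add (.mul (.g 8) (.pp [(1, 1915800000)]))
 (.mul (.g 10) (.pp [(1, 432000000)])))))) (.add (.mul (.g 11) (.add (.pp [(1, 728490000)]) (.mul
 (.pp [(1, 4971)]) (.sq [(1, 100), (2, 97), (3, -37), (5, -56), (7, -30)])))) (.mul (.g 2) (.mul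
 (.g 7) (.mul (.g 7) (.pp [(1, 1585800000)]))))))) (.add (.mul (.g 11) (.add (.add (.mul (.pp [(1,
 28656)]) (.sq [(1, 14), (2, 100), (3, 1), (5, 6), (7, -34)])) (.mul (.g 2) (.mul (.g 7) (.mul (.g
 7) (.pp [(1, 216060000)]))))) (.add (.mul (.g 4) (.pp [(1, 41400000)])) (.mul (.g 6) (.mul (.pp
 [(1, 1452)]) (.sq [(1, 100), (2, 21), (3, 3), (5, -91), (7, -21)])))))) (.mul (.g 8) (.add (.mul
 (.g 4) (.mul (.g 4) (.mul (.g 4) (.pp [(1, 148800000)])))) (.add (.mul (.g 8) (.mul (.pp [(1,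
 1093680)]) (.sq [(1, -52), (2, 100), (3, -84), (5, 27), (7, 27)]))) (.mul (.g 10) (.mul (.pp [(1,
 285600)]) (.sq [(1, -41), (2, 31), (3, -11), (5, -3), (7, 100)]))))))))) (.add (.add (.mul (.g 2)
 (.add (.mul (.g 2) (.pp [(1, 2154000000)])) (.mul (.g 7) (.mul (.g 10) (.mul (.g 10) (.pp [(1,
 470400000)])))))) (.add (.mul (.g 9) (.add (.mul (.g 4) (.mul (.pp [(1, 16200)]) (.sq [(1, -58),
 (2, -34), (3, 27), (5, 100), (7, 19)]))) (.mul (.g 9) (.mul (.pp [(1, 38520)]) (.sq [(1, -3), (2,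
 -26), (3, -45), (5, -78), (7, 100)]))))) (.mul (.g 0) (.pp [(1, 200000000000)])))) (.add (.mul (.g
 1) (.pp [(1, 200000000000)])) (.add (.mul (.g 7) (.mul (.g 10) (.mul (.pp [(1, 6120)]) (.sq [(1,
 -10), (2, -9), (3, 97), (5, 100), (7, -61)])))) (.mul (.g 12) (.pp [(1, 200000000000)])))))) (.pp
 [(1, 146907276), (2, 5432700), (3, 5807073), (4, 4919811), (5, 6026988), (6, 8831484), (7,
 6179628), (8, 7014369), (9, 5919171), (10, 6229626), (12, 3027942), (14, 7437420), (15, 5935164),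
 (16, 5928900), (18, 6589623), (20, 5898048), (21, 5876496), (24, 6193620), (25, 6550335), (27,
 5594396), (28, 5695029), (30, 5527134), (35, 5572932), (36, 6766920), (40, 5375340), (42,
 4692516), (45, 6091392), (49, 5804700), (50, 6889512), (54, 5461740), (56, 5271540), (60,
 6674880), (63, 5421321), (70, 5228910), (75, 5575173), (81, 5699580), (84, 8384580), (90,
 6618540), (98, 5712420), (100, 6651840), (105, 6594936), (125, 5393292), (126, 4620900), (135,
 6055560), (140, 6787500), (147, 6305112), (150, 5458800), (175, 5717025), (189, 6815580), (196,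
 6447060), (210, 4646640), (225, 5931720), (245, 6459012), (250, 5354640), (294, 4967760), (315,
 6879660), (343, 6070116), (350, 5025120), (375, 6512040), (441, 6403620), (490, 6663960), (525,
 7182960), (625, 6124560), (686, 5404200), (735, 4939680), (875, 6911400), (1029, 5906520), (1225,
 5383680), (1715, 6186120), (2401, 5892000)]))))))
 (.rule 1 (.rule 6 (.leaf 60000000 (.add (.add (.add (.add (.mul (.pp [(1, 1213980)]) (.sq [(1,
 -47), (2, 100), (3, 71), (5, -29), (7, 39)])) (.add (.mul (.g 3) (.add (.add (.mul (.g 6) (.add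
 (.add (.mul (.g 4) (.add (.add (.pp [(1, 130299000000)]) (.mul (.g 4) (.pp [(1, 75426600000)])))
 (.add (.mul (.g 5) (.pp [(1, 291000000)])) (.mul (.g 6) (.pp [(1, 5330400000)]))))) (.mul (.g 3)
 (.add (.mul (.g 2) (.pp [(1, 17418600000)])) (.add (.mul (.g 7) (.pp [(1, 40522800000)])) (.mul
 (.g 10) (.pp [(1, 36000000)])))))) (.add (.mul (.g 12) (.add (.pp [(1, 306048600000)]) (.add (.mul
 (.g 5) (.pp [(1, 592800000)])) (.mul (.g 6) (.pp [(1, 6000000)]))))) (.add (.mul (.g 2) (.mul (.g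
 6) (.pp [(1, 101533800000)]))) (.mul (.g 5) (.mul (.g 7) (.pp [(1, 99600000)]))))))) (.mul (.g 3)
 (.add (.add (.pp [(1, 8128200000)]) (.mul (.g 3) (.add (.mul (.g 7) (.pp [(1, 10676400000)]))
 (.add (.mul (.g 9) (.pp [(1, 350400000)])) (.mul (.g 12) (.pp [(1, 16557600000)])))))) (.add (.mul
 (.g 5) (.add (.pp [(1, 140596800000)]) (.mul (.g 10) (.pp [(1, 720000)])))) (.add (.mul (.g 7)
 (.pp [(1, 70561800000)])) (.mul (.g 12) (.pp [(1, 80279400000)]))))))) (.add (.mul (.g 4) (.add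
 (.mul (.g 4) (.add (.mul (.g 2) (.pp [(1, 13002600000)])) (.add (.mul (.g 4) (.pp [(1,
 36068400000)])) (.mul (.g 8) (.pp [(1, 323400000)]))))) (.add (.mul (.g 2) (.pp [(1,
 153021600000)])) (.mul (.g 10) (.pp [(1, 14120730000)]))))) (.add (.mul (.g 5) (.add (.mul (.g 8)
 (.mul (.g 12) (.pp [(1, 1200000)]))) (.mul (.g 10) (.pp [(1, 9998790000)])))) (.mul (.g 10) (.pp
 [(1, 4065300000)])))))) (.mul (.g 4) (.add (.add (.mul (.g 4) (.add (.add (.mul (.g 4) (.add (.add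
 (.pp [(1, 4927200000)]) (.mul (.g 4) (.pp [(1, 975600000)]))) (.add (.mul (.g 8) (.pp [(1,
 652800000)])) (.mul (.g 12) (.pp [(1, 329400000)]))))) (.mul (.g 2) (.pp [(1, 26462400000)])))
 (.add (.mul (.g 5) (.mul (.g 9) (.pp [(1, 24600000)]))) (.add (.mul (.g 6) (.mul (.g 6) (.pp [(1,
 613200000)]))) (.mul (.g 10) (.pp [(1, 2851290000)])))))) (.mul (.g 5) (.add (.mul (.g 5) (.add
 (.mul (.g 5) (.pp [(1, 27600000)])) (.add (.mul (.g 6) (.pp [(1, 1579200000)])) (.mul (.g 8) (.pp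
 [(1, 20400000)]))))) (.add (.mul (.g 6) (.mul (.g 10) (.pp [(1, 94830000)]))) (.mul (.g 12) (.mul
 (.g 12) (.pp [(1, 625200000)]))))))) (.add (.mul (.g 6) (.mul (.g 8) (.mul (.g 10) (.pp [(1,
 16170000)])))) (.mul (.g 7) (.mul (.g 12) (.mul (.g 12) (.pp [(1, 9604200000)]))))))))) (.add
 (.mul (.g 5) (.add (.mul (.g 10) (.add (.add (.pp [(1, 167430000)]) (.mul (.pp [(1, 75)]) (.sq
 [(1, 89), (2, 100), (3, 45), (5, 45), (7, 45)]))) (.add (.mul (.g 5) (.add (.mul (.g 5) (.pp [(1,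
 90000)])) (.mul (.g 9) (.pp [(1, 60000)])))) (.mul (.g 6) (.mul (.g 6) (.pp [(1, 150000)]))))))
 (.add (.mul (.g 2) (.add (.mul (.g 2) (.pp [(1, 58609200000)])) (.add (.mul (.g 7) (.mul (.g 7)
 (.pp [(1, 904200000)]))) (.mul (.g 9) (.pp [(1, 25200000)]))))) (.mul (.g 6) (.mul (.g 6) (.mul
 (.g 12) (.pp [(1, 6000000)]))))))) (.add (.mul (.g 12) (.add (.add (.mul (.pp [(1, 10620)]) (.sq
 [(1, -65), (2, 100), (3, -14), (5, 38), (7, 87)])) (.mul (.g 7) (.add (.mul (.g 2) (.add (.mul (.g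
 7) (.pp [(1, 39059400000)])) (.mul (.g 12) (.pp [(1, 36557400000)])))) (.mul (.g 12) (.pp [(1,
 6146400000)]))))) (.add (.mul (.g 6) (.mul (.g 6) (.add (.pp [(1, 34381800000)]) (.mul (.g 6) (.pp
 [(1, 6000000)]))))) (.add (.mul (.g 10) (.pp [(1, 138900000)])) (.mul (.g 12) (.mul (.g 12) (.pp
 [(1, 24769800000)]))))))) (.mul (.g 7) (.add (.mul (.g 2) (.add (.mul (.pp [(1, 2369940)]) (.sq
 [(1, -76), (2, 64), (3, -37), (5, 2), (7, 100)])) (.mul (.g 6) (.mul (.g 6) (.pp [(1,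
 38203200000)]))))) (.add (.mul (.g 6) (.mul (.g 6) (.mul (.g 9) (.pp [(1, 38400000)])))) (.mul (.g
 7) (.mul (.pp [(1, 1459440)]) (.sq [(1, -30), (2, 30), (3, -22), (5, -1), (7, 50)]))))))))) (.add
 (.add (.mul (.g 10) (.add (.mul (.pp [(1, 24)]) (.sq [(2, 77), (3, 67), (5, 100), (7, 67)])) (.mul
 (.g 10) (.pp [(1, 5809500)])))) (.add (.mul (.g 0) (.pp [(1, 200000000000)])) (.mul (.g 1) (.pp
 [(1, 200000000000)])))) (.add (.mul (.g 2) (.mul (.g 6) (.mul (.g 6) (.mul (.g 8) (.pp [(1,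
 619200000)]))))) (.add (.mul (.g 9) (.mul (.pp [(1, 2580)]) (.sq [(1, -51), (2, 100), (3, -77),
 (5, 55), (7, 87)]))) (.mul (.g 11) (.pp [(1, 200000000000)])))))) (.pp [(1, 163083180), (2,
 5020020), (3, 6418800), (4, 6477576), (5, 6079665), (6, 7415352), (7, 6052380), (8, 6188640), (9,
 4819236), (10, 6118740), (12, 5149920), (14, 7336392), (15, 5643750), (16, 6029760), (18,
 5854920), (20, 5971120), (21, 4346952), (24, 5570880), (25, 5836650), (27, 6691560), (28,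
 5619360), (30, 5247240), (35, 5878290), (36, 6347340), (40, 5261760), (42, 5094360), (45,
 7042065), (49, 5871816), (50, 5765140), (54, 5647860), (56, 6048000), (60, 6140400), (63,
 7773480), (70, 5829240), (75, 6291870), (81, 6600000), (84, 6156000), (90, 6511380), (98,
 5961300), (100, 6160800), (105, 6702690), (125, 6293625), (126, 5844000), (135, 6037500), (140,
 5268000), (147, 6539160), (150, 6404760), (175, 6357930), (189, 6000000), (196, 6000000), (210,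
 6201000), (225, 6112500), (245, 5729265), (250, 6262500), (294, 6000000), (315, 5475000), (343,
 5982780), (350, 6225000), (375, 6112500), (441, 6000000), (490, 5962500), (525, 6150000), (625,
 6037500), (686, 6000000), (735, 6037500), (875, 6075000), (1029, 6000000), (1225, 6037500), (1715,
 6000000), (2401, 6000000)]))))))
 (P_free ++ xP_A_F7) = true := by decide +kernel

theorem t_A_F8_c1 : chk RFp gP_A_F8
 (.cut 50 [(2, 1), (3, -1)] (.add (.add (.mul (.g 8) (.pp [(1, 45)])) (.mul (.g 7) (.pp [(1, 2)])))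
 (.add (.mul (.g 2) (.pp [(1, 5)])) (.mul (.g 9) (.pp [(1, 9)])))) (.rule 0 (.cut 60 [(2, -1), (5,
 1)] (.add (.add (.mul (.g 11) (.pp [(1, 11)])) (.mul (.g 9) (.pp [(1, 3)]))) (.add (.mul (.g 1)
 (.pp [(1, 5)])) (.mul (.g 6) (.pp [(1, 5)])))) (.rule 3 (.leaf 30000000 (.add (.add (.add (.add
 (.mul (.g 6) (.add (.add (.add (.pp [(1, 546300000)]) (.mul (.g 7) (.add (.add (.pp [(1,
 26277900000)]) (.add (.mul (.g 13) (.add (.mul (.g 13) (.pp [(1, 60000)])) (.mul (.g 15) (.pp [(1,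
 180000)])))) (.mul (.g 4) (.pp [(1, 1919700000)])))) (.add (.add (.mul (.g 5) (.mul (.g 8) (.pp
 [(1, 3000000)]))) (.mul (.g 7) (.mul (.g 7) (.pp [(1, 1200000)])))) (.add (.mul (.g 10) (.pp [(1,
 1800000)])) (.mul (.g 15) (.pp [(1, 4200000)]))))))) (.add (.mul (.g 13) (.add (.add (.pp [(1,
 2220000)]) (.mul (.g 6) (.add (.mul (.g 8) (.pp [(1, 540000)])) (.mul (.g 15) (.pp [(1,
 240000)]))))) (.add (.mul (.g 4) (.mul (.g 12) (.pp [(1, 30000)]))) (.mul (.g 5) (.mul (.g 13)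
 (.pp [(1, 48000)])))))) (.mul (.g 15) (.add (.add (.pp [(1, 7200000)]) (.mul (.pp [(1, 180)]) (.sq
 [(1, 100), (2, 81), (3, 81), (5, 81), (7, 81)]))) (.add (.mul (.g 5) (.pp [(1, 6600000)])) (.mul
 (.g 6) (.mul (.g 10) (.pp [(1, 1200000)])))))))) (.add (.add (.mul (.g 8) (.add (.pp [(1,
 10500000)]) (.add (.mul (.pp [(1, 120)]) (.sq [(1, -7), (2, 100), (3, 93), (5, 82), (7, -40)]))
 (.mul (.g 4) (.mul (.g 4) (.pp [(1, 900000)])))))) (.mul (.g 9) (.add (.mul (.pp [(1, 210)]) (.sq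
 [(1, -89), (2, -47), (3, 9), (5, -53), (7, 100)])) (.mul (.g 6) (.pp [(1, 1500000)]))))) (.add
 (.mul (.g 4) (.mul (.g 4) (.pp [(1, 12270300000)]))) (.mul (.g 10) (.mul (.pp [(1, 30)]) (.sq [(1,
 -39), (2, 69), (3, 14), (5, -45), (7, 100)]))))))) (.add (.mul (.g 5) (.add (.add (.mul (.g 5)
 (.add (.mul (.g 5) (.add (.add (.pp [(1, 99980400000)]) (.mul (.g 8) (.pp [(1, 2400000)]))) (.add
 (.mul (.g 13) (.pp [(1, 360000)])) (.mul (.g 15) (.pp [(1, 1500000)]))))) (.add (.mul (.g 15)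
 (.add (.pp [(1, 22200000)]) (.mul (.g 10) (.pp [(1, 1500000)])))) (.mul (.g 7) (.pp [(1,
 19500000)]))))) (.add (.mul (.g 4) (.add (.add (.mul (.g 8) (.add (.mul (.g 12) (.pp [(1,
 1350000)])) (.mul (.g 13) (.pp [(1, 13531860000)])))) (.mul (.g 4) (.mul (.g 13) (.pp [(1,
 13532400000)])))) (.add (.mul (.g 12) (.pp [(1, 232299750000)])) (.mul (.g 15) (.pp [(1,
 67663800000)]))))) (.mul (.g 13) (.add (.pp [(1, 4380000)]) (.mul (.pp [(1, 36)]) (.sq [(1, 63),
 (2, 100), (3, 48), (5, 75), (7, 75)])))))) (.add (.mul (.g 7) (.mul (.g 15) (.pp [(1, 3000000)])))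
 (.add (.mul (.g 9) (.mul (.pp [(1, 150)]) (.sq [(1, -79), (2, 8), (3, 72), (5, -44), (7, 100)])))
 (.mul (.g 12) (.mul (.g 12) (.pp [(1, 8400000)]))))))) (.mul (.g 7) (.add (.add (.mul (.g 4) (.add
 (.add (.mul (.pp [(1, 30)]) (.sq [(1, 52), (2, 40), (3, 99), (5, 100), (7, -73)])) (.mul (.g 11)
 (.add (.pp [(1, 3383385000)]) (.mul (.g 4) (.pp [(1, 195000)]))))) (.add (.mul (.g 8) (.mul (.g
 13) (.pp [(1, 60000)]))) (.mul (.g 15) (.pp [(1, 69573300000)]))))) (.mul (.g 7) (.add (.mul (.g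
 7) (.add (.add (.pp [(1, 22430100000)]) (.mul (.g 8) (.pp [(1, 2700000)]))) (.add (.mul (.g 13)
 (.pp [(1, 240000)])) (.mul (.g 15) (.pp [(1, 3000000)]))))) (.mul (.g 10) (.mul (.g 10) (.pp [(1,
 6300000)])))))) (.add (.mul (.g 13) (.add (.pp [(1, 3794220000)]) (.add (.mul (.pp [(1, 144)])
 (.sq [(1, 45), (2, 39), (3, 39), (5, 39), (7, 50)])) (.mul (.g 10) (.mul (.g 13) (.pp [(1,
 228000)])))))) (.add (.mul (.g 11) (.pp [(1, 948315000)])) (.mul (.g 15) (.pp [(1,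
 45244200000)])))))))) (.add (.mul (.g 4) (.add (.add (.mul (.g 4) (.add (.mul (.g 4) (.mul (.g 8)
 (.pp [(1, 3300000)]))) (.add (.mul (.g 13) (.pp [(1, 32930760000)])) (.mul (.g 15) (.pp [(1,
 12289200000)]))))) (.mul (.g 10) (.mul (.g 12) (.pp [(1, 3000000)])))) (.add (.mul (.g 13) (.pp
 [(1, 18946980000)])) (.mul (.g 15) (.mul (.pp [(1, 90)]) (.sq [(1, 94), (2, 100), (3, 100), (5,
 73), (7, 73)])))))) (.add (.mul (.g 8) (.mul (.g 8) (.add (.pp [(1, 1795800000)]) (.mul (.g 10)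
 (.mul (.g 11) (.pp [(1, 15000)])))))) (.mul (.g 0) (.pp [(1, 100000000000)]))))) (.add (.add (.mul
 (.g 2) (.pp [(1, 100000000000)])) (.add (.mul (.g 10) (.mul (.g 12) (.mul (.pp [(1, 405)]) (.sq
 [(1, -35), (2, -10), (3, 15), (5, -2), (7, 100)])))) (.mul (.g 11) (.pp [(1, 2844825000)]))))
 (.add (.mul (.g 13) (.pp [(1, 4181880000)])) (.add (.mul (.g 14) (.pp [(1, 20000000)])) (.mul (.g
 15) (.pp [(1, 21471300000)])))))) (.pp [(1, 3812565000), (2, 3209760), (3, 3053082), (4, 2750250),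
 (5, 3025710), (6, 2875875), (7, 2911800), (8, 2832000), (9, 2817639), (10, 2784945), (12,
 2814000), (14, 2725080), (15, 3107640), (16, 3081000), (18, 2680050), (20, 2524710), (21,
 3024720), (24, 2925900), (25, 2994525), (27, 3093502), (28, 2920152), (30, 3253290), (35,
 3031920), (36, 3274050), (40, 3189840), (42, 3115224), (45, 2996070), (49, 2904000), (50,
 2753490), (54, 3128325), (56, 3132000), (60, 3402180), (63, 3166752), (70, 3587244), (75,
 2931870), (81, 3083445), (84, 3077520), (90, 3331455), (98, 3160110), (100, 3246660), (105,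
 3145944), (125, 3050790), (126, 3321210), (135, 3092280), (140, 3202980), (147, 3211800), (150,
 3398580), (175, 2946192), (189, 3066120), (196, 3289200), (210, 2792400), (225, 2926215), (245,
 2879820), (250, 3163170), (294, 3505620), (315, 3098220), (343, 3000000), (350, 3119550), (375,
 2997900), (441, 3070500), (490, 3080790), (525, 2828040), (625, 2911740), (686, 3019740), (735,
 3069960), (875, 2624940), (1029, 3000000), (1225, 3092940), (1715, 2980980), (2401,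
 3000000)])))))))
 (P_c1 ++ xP_A_F8) = true := by decide +kernel

theorem t_A_F8_c2 : chk ROp gP_A_F8
 (.split [(1, -69), (3, 100)]
 (.rule 5 (.rule 6 (.cut 1 [(1, 3), (3, -2)] (.add (.add (.mul (.g 8) (.pp [(1, 1)])) (.mul (.g 13)
 (.pp [(1, 1)]))) (.add (.mul (.g 5) (.pp [(1, 1)])) (.mul (.g 7) (.pp [(1, 1)])))) (.rule 8 (.leaf
 6000000000 (.add (.add (.add (.add (.mul (.g 8) (.add (.add (.add (.mul (.pp [(1, 609030000)])
 (.sq [(3, 87), (5, -46), (7, -100)])) (.mul (.g 7) (.add (.add (.mul (.g 6) (.add (.mul (.g 15)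
 (.pp [(1, 22487040000000)])) (.mul (.g 17) (.pp [(1, 1814280000000)])))) (.add (.mul (.g 7) (.add
 (.mul (.g 7) (.pp [(1, 1059360000000)])) (.mul (.g 9) (.pp [(1, 1714560000000)])))) (.mul (.g 8)
 (.add (.mul (.g 8) (.pp [(1, 1159020000000)])) (.mul (.g 12) (.pp [(1, 101637000000)])))))) (.add
 (.mul (.g 4) (.mul (.g 4) (.pp [(1, 972768000)]))) (.add (.mul (.g 5) (.mul (.g 5) (.pp [(1,
 829320000000)]))) (.mul (.g 9) (.mul (.g 17) (.pp [(1, 704100000000)])))))))) (.add (.mul (.g 6)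
 (.add (.add (.mul (.g 5) (.add (.mul (.g 9) (.pp [(1, 4190820000000)])) (.mul (.g 12) (.pp [(1,
 920304000000)])))) (.mul (.g 8) (.add (.mul (.g 4) (.pp [(1, 241420200000)])) (.mul (.g 9) (.pp
 [(1, 10983300000000)]))))) (.add (.mul (.g 6) (.mul (.g 12) (.pp [(1, 830241000000)]))) (.mul (.g
 17) (.pp [(1, 6645240000000)]))))) (.mul (.g 8) (.add (.mul (.g 12) (.add (.mul (.g 10) (.pp [(1,
 14577000000)])) (.mul (.g 11) (.pp [(1, 133545000000)])))) (.mul (.g 15) (.add (.mul (.g 4) (.pp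
 [(1, 243600000000)])) (.mul (.g 9) (.pp [(1, 8492400000000)])))))))) (.add (.add (.mul (.g 17)
 (.add (.pp [(1, 13134300000000)]) (.add (.mul (.pp [(1, 151980000000)]) (.sq [(1, 1), (2, 1), (3,
 1), (5, 1), (7, 1)])) (.mul (.g 4) (.mul (.g 9) (.pp [(1, 123358200000)])))))) (.mul (.g 5) (.add
 (.mul (.g 5) (.mul (.g 15) (.pp [(1, 5981520000000)]))) (.mul (.g 9) (.mul (.g 14) (.pp [(1,
 1093116000000)])))))) (.add (.mul (.g 12) (.add (.pp [(1, 38070000000)]) (.mul (.pp [(1, 595800)])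
 (.sq [(1, 4), (2, -81), (3, -77), (5, 100), (7, 56)])))) (.mul (.g 11) (.mul (.pp [(1, 71256000)])
 (.sq [(1, 44), (2, -18), (3, 76), (5, 100), (7, -97)]))))))) (.add (.mul (.g 17) (.add (.add (.add
 (.mul (.g 17) (.add (.add (.mul (.pp [(1, 3408000)]) (.sq [(1, 92), (2, 86), (3, -100), (5, -100),
 (7, -17)])) (.mul (.pp [(1, 18834000)]) (.sq [(1, 22), (2, 57), (3, 100), (5, 44), (7, 18)])))
 (.add (.mul (.pp [(1, 47712000)]) (.sq [(1, -9), (2, 100), (3, 8), (5, -24), (7, -55)])) (.mul (.g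
 7) (.mul (.g 17) (.pp [(1, 1276260000000)])))))) (.mul (.g 6) (.add (.pp [(1, 2009760000000)])
 (.mul (.g 6) (.add (.mul (.g 6) (.pp [(1, 6591480000000)])) (.mul (.g 14) (.pp [(1,
 863628000000)]))))))) (.add (.mul (.g 7) (.add (.pp [(1, 2409540000000)]) (.mul (.pp [(1,
 103470000)]) (.sq [(1, -60), (2, 39), (3, -13), (5, 100), (7, -67)])))) (.add (.mul (.g 12) (.add
 (.mul (.pp [(1, 2055600)]) (.sq [(1, 100), (2, 81), (3, 83), (5, 83), (7, 46)])) (.mul (.pp [(1,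
 1391400)]) (.sq [(1, -66), (2, -11), (3, -34), (5, 100), (7, -44)])))) (.mul (.g 4) (.pp [(1,
 27979200000)]))))) (.add (.add (.mul (.g 5) (.mul (.g 5) (.mul (.g 15) (.pp [(1,
 24310800000000)])))) (.mul (.g 9) (.mul (.pp [(1, 505374000)]) (.sq [(1, -29), (2, -51), (3,
 -100), (5, 78), (7, 52)])))) (.add (.mul (.g 11) (.pp [(1, 4777260000000)])) (.add (.mul (.g 13)
 (.mul (.pp [(1, 75864000)]) (.sq [(1, -79), (2, -100), (3, 100), (5, 100)]))) (.mul (.g 14) (.mul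
 (.pp [(1, 28447200)]) (.sq [(1, 79), (2, 100), (3, 89), (5, 89), (7, 46)])))))))) (.mul (.g 13)
 (.add (.add (.mul (.g 7) (.add (.mul (.g 5) (.add (.mul (.g 9) (.pp [(1, 1507590000000)])) (.mul
 (.g 15) (.pp [(1, 21516510000000)])))) (.add (.mul (.g 12) (.pp [(1, 168618000000)])) (.mul (.g
 13) (.pp [(1, 6213900000000)]))))) (.add (.mul (.g 12) (.add (.pp [(1, 10497000000)]) (.add (.mul
 (.g 6) (.pp [(1, 1262830500000)])) (.mul (.g 11) (.pp [(1, 401824500000)]))))) (.mul (.g 4) (.pp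
 [(1, 47420700000)])))) (.add (.mul (.g 5) (.mul (.g 5) (.mul (.g 5) (.pp [(1, 984660000000)]))))
 (.add (.mul (.g 9) (.pp [(1, 11955720000000)])) (.mul (.g 11) (.mul (.g 11) (.mul (.g 15) (.pp
 [(1, 1117440000000)])))))))))) (.add (.mul (.g 6) (.add (.mul (.g 6) (.add (.mul (.g 4) (.add
 (.mul (.g 12) (.pp [(1, 556080000)])) (.mul (.g 15) (.pp [(1, 212041200000)])))) (.add (.mul (.g
 5) (.mul (.g 12) (.pp [(1, 25779000000)]))) (.mul (.g 7) (.mul (.g 9) (.pp [(1,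
 29578440000000)])))))) (.mul (.g 14) (.mul (.g 15) (.mul (.g 15) (.pp [(1, 392628000000)]))))))
 (.add (.mul (.g 7) (.add (.mul (.g 5) (.mul (.g 5) (.mul (.g 15) (.pp [(1, 959580000000)]))))
 (.add (.mul (.g 7) (.mul (.pp [(1, 205452000)]) (.sq [(1, -9), (2, 20), (3, -45), (5, 100), (7,
 25)]))) (.mul (.g 9) (.pp [(1, 240240000000)]))))) (.mul (.g 4) (.add (.mul (.g 4) (.mul (.g 14)
 (.mul (.g 14) (.pp [(1, 23106240)])))) (.mul (.g 12) (.mul (.pp [(1, 481851)]) (.sq [(1, 12), (2,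
 55), (3, 100), (5, -17), (7, -25)])))))))) (.add (.add (.mul (.g 9) (.add (.mul (.g 9) (.mul (.g
 10) (.mul (.g 11) (.pp [(1, 1969140000000)])))) (.mul (.g 15) (.mul (.pp [(1, 221706000)]) (.sq
 [(1, 23), (2, -100), (3, -97), (5, -92), (7, 29)]))))) (.add (.mul (.g 0) (.pp [(1, 6000000000)]))
 (.mul (.g 2) (.pp [(1, 20000000000000)])))) (.add (.add (.mul (.g 3) (.pp [(1, 20000000000000)]))
 (.mul (.g 10) (.mul (.g 12) (.mul (.pp [(1, 1517700)]) (.sq [(1, -2), (2, -5), (3, -75), (5, -36),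
 (7, 100)]))))) (.add (.mul (.g 15) (.mul (.g 15) (.mul (.pp [(1, 176796000)]) (.sq [(1, -11), (2,
 48), (3, 100), (5, 36), (7, -32)])))) (.mul (.g 16) (.pp [(1, 20000000000)])))))) (.pp [(1,
 500605590816), (2, 568269960), (3, 607755120), (4, 587548125), (5, 605279688), (6, 603844800), (7,
 641227800), (8, 581207000), (9, 664544100), (10, 553473810), (12, 645533500), (14, 652984050),
 (15, 735324360), (16, 578850000), (18, 549299500), (20, 644614600), (21, 672699000), (24,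
 646350000), (25, 673354641), (27, 607649500), (28, 690934200), (30, 487246200), (35, 586470450),
 (36, 578166000), (40, 668946000), (42, 666441600), (45, 691821900), (49, 617426625), (50,
 644339980), (54, 647646000), (56, 613026000), (60, 462654000), (63, 569434200), (70, 704748000),
 (75, 522408120), (81, 581250000), (84, 569172000), (90, 659376000), (98, 637642500), (100,
 560802000), (105, 455785200), (125, 547469020), (126, 490980000), (135, 570792000), (140,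
 621762000), (147, 568547400), (150, 670578000), (175, 672023400), (189, 670872000), (196,
 566334000), (210, 399300000), (225, 488286000), (245, 608233500), (250, 606096000), (294,
 596076000), (315, 586518000), (343, 588676800), (350, 401292000), (375, 550158000), (441,
 496602000), (490, 563796000), (525, 620484000), (625, 614616000), (686, 526608000), (735,
 341550000), (875, 549192000), (1029, 580056000), (1225, 350826000), (1715, 496758000), (2401,
 564072000)])))))))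
 (.rule 5 (.rule 6 (.cut 2 [(1, -7), (3, 50)] (.add (.mul (.g 4) (.pp [(1, 65)])) (.mul (.g 12)
 (.pp [(1, 7)]))) (.rule 7 (.leaf 60000000 (.add (.add (.add (.add (.mul (.g 8) (.add (.add (.mul
 (.g 8) (.add (.add (.mul (.g 8) (.add (.add (.mul (.g 5) (.pp [(1, 27903000000)])) (.mul (.g 8)
 (.pp [(1, 4355400000)]))) (.add (.mul (.g 9) (.pp [(1, 36551400000)])) (.mul (.g 15) (.pp [(1,
 2481000000)]))))) (.mul (.g 6) (.add (.pp [(1, 4685400000)]) (.add (.mul (.g 9) (.pp [(1,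
 86959800000)])) (.mul (.g 14) (.pp [(1, 1626240000)])))))) (.add (.mul (.g 9) (.add (.mul (.g 11)
 (.pp [(1, 6162600000)])) (.mul (.g 15) (.pp [(1, 102318000000)])))) (.mul (.g 4) (.mul (.g 7) (.pp
 [(1, 26520000)])))))) (.add (.mul (.g 7) (.add (.add (.mul (.pp [(1, 176160)]) (.sq [(1, 18), (2,
 -29), (3, 71), (5, 100), (7, -69)])) (.mul (.g 4) (.add (.mul (.g 4) (.pp [(1, 1579680)])) (.add
 (.mul (.g 6) (.pp [(1, 624648000)])) (.mul (.g 11) (.pp [(1, 354360000)])))))) (.add (.mul (.g 7)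
 (.add (.mul (.g 13) (.pp [(1, 3993600000)])) (.mul (.g 17) (.pp [(1, 2855400000)])))) (.add (.mul
 (.g 6) (.mul (.g 12) (.pp [(1, 3314730000)]))) (.mul (.g 13) (.mul (.g 13) (.pp [(1,
 1543050000)]))))))) (.mul (.g 12) (.add (.pp [(1, 21141330000)]) (.add (.mul (.g 6) (.add (.mul
 (.g 13) (.pp [(1, 878610000)])) (.mul (.g 14) (.pp [(1, 551892000)])))) (.mul (.g 11) (.mul (.g
 13) (.pp [(1, 5325000)])))))))) (.add (.mul (.g 17) (.add (.pp [(1, 185148600000)]) (.add (.mul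
 (.pp [(1, 763800000)]) (.sq [(1, 1), (2, 1), (3, 1), (5, 1), (7, 1)])) (.mul (.pp [(1, 586140)])
 (.sq [(1, -26), (2, -100), (3, -77), (5, -36), (7, 81)]))))) (.add (.mul (.g 13) (.pp [(1,
 229921500000)])) (.mul (.g 15) (.mul (.pp [(1, 478800)]) (.sq [(1, 32), (2, 34), (3, -64), (5,
 100), (7, -73)]))))))) (.add (.mul (.g 5) (.add (.add (.mul (.g 5) (.add (.mul (.g 4) (.add (.mul
 (.g 4) (.pp [(1, 6197160)])) (.add (.mul (.g 5) (.pp [(1, 2573496000)])) (.mul (.g 17) (.pp [(1,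
 362418000)]))))) (.add (.mul (.g 5) (.add (.mul (.g 13) (.pp [(1, 24900000)])) (.mul (.g 17) (.pp
 [(1, 129415800000)])))) (.mul (.g 9) (.mul (.g 17) (.pp [(1, 129170400000)])))))) (.mul (.g 14)
 (.add (.mul (.g 9) (.add (.pp [(1, 8567520000)]) (.mul (.g 15) (.pp [(1, 2754840000)])))) (.add
 (.mul (.g 4) (.mul (.g 4) (.pp [(1, 927000)]))) (.mul (.g 7) (.mul (.g 14) (.pp [(1,
 1409448000)]))))))) (.add (.mul (.g 12) (.mul (.g 12) (.add (.pp [(1, 7839000)]) (.mul (.g 15)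
 (.pp [(1, 10527000)]))))) (.add (.mul (.g 6) (.mul (.g 9) (.mul (.g 9) (.pp [(1, 57696600000)]))))
 (.mul (.g 7) (.mul (.g 13) (.pp [(1, 45657900000)]))))))) (.mul (.g 6) (.add (.add (.mul (.g 6)
 (.add (.mul (.g 17) (.add (.mul (.g 6) (.pp [(1, 13840200000)])) (.add (.mul (.g 7) (.pp [(1,
 9435000000)])) (.mul (.g 14) (.pp [(1, 4350000000)]))))) (.add (.mul (.g 4) (.mul (.g 14) (.pp
 [(1, 143648400)]))) (.mul (.g 6) (.mul (.g 12) (.pp [(1, 3393210000)])))))) (.mul (.g 4) (.add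
 (.mul (.g 4) (.mul (.g 10) (.pp [(1, 3890100)]))) (.mul (.g 14) (.mul (.g 15) (.pp [(1,
 81500400)])))))) (.add (.mul (.g 9) (.mul (.g 9) (.add (.mul (.g 7) (.pp [(1, 39559800000)]))
 (.mul (.g 13) (.pp [(1, 110781900000)]))))) (.add (.mul (.g 12) (.mul (.g 13) (.pp [(1,
 15083355000)]))) (.mul (.g 17) (.pp [(1, 71407200000)])))))))) (.add (.mul (.g 7) (.add (.mul (.g
 7) (.add (.mul (.g 7) (.add (.mul (.g 7) (.pp [(1, 317400000)])) (.add (.mul (.g 9) (.pp [(1,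
 6507000000)])) (.mul (.g 13) (.pp [(1, 2132100000)]))))) (.mul (.g 4) (.add (.mul (.g 9) (.pp [(1,
 225726000)])) (.mul (.g 13) (.pp [(1, 20295000)])))))) (.add (.mul (.g 13) (.add (.mul (.g 11)
 (.pp [(1, 15689400000)])) (.mul (.g 12) (.pp [(1, 1867965000)])))) (.mul (.g 17) (.pp [(1,
 34699800000)]))))) (.add (.mul (.g 12) (.add (.mul (.pp [(1, 64761)]) (.sq [(2, 46), (3, 100), (5,
 -71), (7, 98)])) (.add (.mul (.g 10) (.mul (.pp [(1, 522)]) (.sq [(1, -6), (2, 73), (3, 98), (5,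
 -100), (7, -17)]))) (.mul (.g 14) (.pp [(1, 944508000)]))))) (.mul (.g 13) (.add (.mul (.g 4) (.pp
 [(1, 279807000)])) (.add (.mul (.g 9) (.pp [(1, 26350200000)])) (.mul (.g 13) (.mul (.g 13) (.mul
 (.g 15) (.pp [(1, 2205450000)])))))))))) (.add (.add (.mul (.g 17) (.add (.mul (.pp [(1, 835440)])
 (.sq [(2, 23), (3, 50), (5, 50), (7, 43)])) (.add (.mul (.g 14) (.pp [(1, 24723240000)])) (.mul
 (.g 17) (.mul (.pp [(1, 191280)]) (.sq [(1, -16), (2, 49), (3, -55), (5, 100), (7, 36)]))))))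
 (.add (.mul (.g 0) (.pp [(1, 120000000)])) (.mul (.g 2) (.pp [(1, 200000000000)])))) (.add (.mul
 (.g 3) (.pp [(1, 200000000000)])) (.add (.mul (.g 14) (.mul (.g 14) (.pp [(1, 8035296000)])))
 (.mul (.g 16) (.pp [(1, 200000000)])))))) (.pp [(1, 6855353448), (2, 6238560), (3, 6149484), (4,
 6247278), (5, 6046992), (6, 5379804), (7, 5816472), (8, 5586482), (9, 5222820), (10, 6142260),
 (12, 4284022), (14, 5407260), (15, 4923468), (16, 5834760), (18, 7036288), (20, 5587438), (21,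
 4676352), (24, 6606000), (25, 5793369), (27, 6537208), (28, 5434284), (30, 8006136), (35,
 5738124), (36, 6249480), (40, 6606480), (42, 5520660), (45, 5930568), (49, 5541198), (50,
 5385460), (54, 5544000), (56, 6487920), (60, 6042480), (63, 6152916), (70, 5829276), (75,
 7215540), (81, 5615760), (84, 5630880), (90, 5843520), (98, 6526002), (100, 5619480), (105,
 7369896), (125, 5744980), (126, 6522480), (135, 6557520), (140, 6143040), (147, 7367958), (150,
 5874720), (175, 5588280), (189, 6078720), (196, 6353880), (210, 6377280), (225, 5945760), (245,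
 6469998), (250, 7032000), (294, 6757680), (315, 7091340), (343, 6269460), (350, 7708080), (375,
 5406000), (441, 6126420), (490, 7297680), (525, 6122880), (625, 6300000), (686, 5696160), (735,
 5837400), (875, 6967440), (1029, 6083640), (1225, 6963240), (1715, 6984540), (2401,
 6165660)]))))))))
 (P_c2 ++ xP_A_F8) = true := by decide +kernel

theorem t_A_T6_TpA_a : chk Rap gP_A_T6
 (.cut 1 [(2, -1), (3, 1)] (.add (.mul (.g 8) (.pp [(1, 1)])) (.mul (.g 4) (.pp [(1, 1)]))) (.rule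
 1 (.cut 1 [(2, 1), (5, -1)] (.add (.mul (.g 10) (.pp [(1, 1)])) (.mul (.g 7) (.pp [(1, 1)])))
 (.rule 2 (.cut 11 [(1, -3), (3, 5)] (.add (.mul (.g 1) (.pp [(1, 40)])) (.add (.mul (.g 11) (.pp
 [(1, 2)])) (.mul (.g 12) (.pp [(1, 15)])))) (.cut 1 [(1, 3), (3, -2)] (.add (.add (.mul (.g 10)
 (.pp [(1, 1)])) (.mul (.g 15) (.pp [(1, 1)]))) (.add (.mul (.g 7) (.pp [(1, 1)])) (.add (.mul (.g
 8) (.pp [(1, 1)])) (.mul (.g 9) (.pp [(1, 1)]))))) (.rule 8 (.rule 23 (.leaf 66000000 (.add (.add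
 (.add (.add (.mul (.g 9) (.add (.add (.mul (.g 11) (.add (.add (.mul (.g 9) (.add (.mul (.g 10)
 (.pp [(1, 255270180000)])) (.add (.mul (.g 12) (.pp [(1, 257766960000)])) (.mul (.g 13) (.pp [(1,
 315747300000)]))))) (.mul (.g 10) (.add (.pp [(1, 91269420000)]) (.mul (.g 10) (.pp [(1,
 343304280000)]))))) (.add (.mul (.g 11) (.add (.mul (.g 11) (.pp [(1, 241839180000)])) (.mul (.g
 18) (.pp [(1, 258704160000)])))) (.add (.mul (.g 12) (.add (.mul (.g 8) (.pp [(1, 379449840000)]))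
 (.mul (.g 14) (.pp [(1, 7023060000)])))) (.mul (.g 14) (.mul (.g 18) (.pp [(1,
 24474780000)]))))))) (.add (.mul (.g 18) (.add (.add (.pp [(1, 334477440000)]) (.mul (.g 9) (.add
 (.mul (.g 12) (.pp [(1, 176880660000)])) (.mul (.g 13) (.pp [(1, 137780940000)]))))) (.add (.mul
 (.g 10) (.add (.mul (.g 10) (.pp [(1, 316978860000)])) (.mul (.g 14) (.pp [(1, 8691540000)]))))
 (.add (.mul (.g 16) (.mul (.g 16) (.pp [(1, 89139600000)]))) (.mul (.g 18) (.pp [(1,
 239187960000)])))))) (.mul (.g 12) (.add (.mul (.pp [(1, 6121170)]) (.sq [(1, 1), (2, -45), (3,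
 87), (5, -42), (7, 100)])) (.add (.mul (.g 8) (.mul (.g 12) (.pp [(1, 252347700000)]))) (.mul (.g
 14) (.mul (.g 14) (.pp [(1, 89554740000)])))))))) (.add (.add (.mul (.g 13) (.add (.pp [(1,
 154876260000)]) (.add (.mul (.g 13) (.pp [(1, 289080000000)])) (.mul (.g 15) (.mul (.g 16) (.pp
 [(1, 3192651000)])))))) (.mul (.g 8) (.mul (.g 10) (.mul (.g 10) (.pp [(1, 31009440000)])))))
 (.add (.mul (.g 9) (.mul (.g 15) (.pp [(1, 2062467000)]))) (.mul (.g 16) (.pp [(1,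
 552969780000)])))))) (.add (.mul (.g 8) (.add (.add (.mul (.g 11) (.add (.add (.pp [(1,
 205617720000)]) (.mul (.g 11) (.add (.mul (.g 15) (.pp [(1, 8534427000)])) (.mul (.g 16) (.pp [(1,
 79423740000)]))))) (.add (.mul (.g 8) (.mul (.g 16) (.pp [(1, 105660060000)]))) (.mul (.g 14)
 (.mul (.g 18) (.pp [(1, 74512680000)])))))) (.add (.mul (.g 8) (.mul (.g 18) (.add (.pp [(1,
 88497420000)]) (.add (.mul (.g 8) (.pp [(1, 757680000)])) (.mul (.g 10) (.pp [(1,
 210540000)])))))) (.mul (.g 13) (.add (.pp [(1, 43959960000)]) (.add (.mul (.pp [(1, 42240)]) (.sq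
 [(1, 100), (2, 94), (3, 97), (5, 97), (7, 20)])) (.mul (.g 14) (.pp [(1, 137759820000)])))))))
 (.add (.mul (.g 14) (.add (.mul (.pp [(1, 53592)]) (.sq [(1, 90), (2, -67), (3, 10), (5, -100),
 (7, 76)])) (.mul (.pp [(1, 60258)]) (.sq [(1, 100), (2, 45), (3, -57), (5, -57), (7, -6)]))))
 (.add (.mul (.g 16) (.add (.pp [(1, 510973980000)]) (.mul (.g 10) (.mul (.g 10) (.pp [(1,
 42542940000)]))))) (.mul (.g 12) (.mul (.pp [(1, 1254)]) (.sq [(1, 54), (2, -93), (3, 100), (5,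
 -71), (7, 61)]))))))) (.mul (.g 16) (.add (.add (.pp [(1, 82179240000)]) (.mul (.g 10) (.add (.add
 (.pp [(1, 156837780000)]) (.mul (.pp [(1, 2150016)]) (.sq [(1, 49), (2, -51), (3, -46), (5, -100),
 (7, 40)]))) (.add (.mul (.g 10) (.mul (.g 16) (.pp [(1, 412381200000)]))) (.mul (.g 13) (.mul (.g
 14) (.pp [(1, 21475740000)]))))))) (.add (.mul (.g 11) (.add (.mul (.g 11) (.add (.mul (.g 11)
 (.pp [(1, 16870920000)])) (.mul (.g 16) (.pp [(1, 262136820000)])))) (.add (.mul (.g 14) (.pp [(1,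
 21927180000)])) (.mul (.g 16) (.mul (.g 16) (.pp [(1, 327372540000)])))))) (.add (.mul (.g 12)
 (.mul (.pp [(1, 14221350)]) (.sq [(1, -8), (2, 100), (3, 52), (5, 52), (7, -39)]))) (.mul (.g 14)
 (.mul (.pp [(1, 2105334)]) (.sq [(1, 52), (2, -64), (3, -85), (5, -1), (7, 100)]))))))))) (.add
 (.mul (.g 18) (.add (.add (.mul (.pp [(1, 5987388)]) (.sq [(2, 75), (3, 59), (5, 59), (7, 100)]))
 (.mul (.g 11) (.add (.pp [(1, 104606040000)]) (.add (.mul (.pp [(1, 924)]) (.sq [(1, 100), (2,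
 81), (3, 81), (5, 81), (7, 81)])) (.mul (.pp [(1, 198)]) (.sq [(1, 46), (2, -25), (3, -100), (5,
 -45), (7, 47)])))))) (.add (.mul (.g 10) (.add (.mul (.g 10) (.mul (.g 12) (.pp [(1,
 915420000)]))) (.mul (.g 14) (.mul (.g 15) (.pp [(1, 330000)]))))) (.mul (.g 12) (.mul (.pp [(1,
 2640000)]) (.sq [(1, -2), (3, 1), (5, 1), (7, 2)])))))) (.add (.mul (.g 13) (.add (.add (.mul (.pp
 [(1, 355740)]) (.sq [(2, 100), (3, -42), (5, 95), (7, -61)])) (.mul (.g 10) (.add (.pp [(1,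
 393019440000)]) (.mul (.g 13) (.pp [(1, 222840420000)]))))) (.add (.mul (.g 11) (.pp [(1,
 72001380000)])) (.mul (.g 15) (.mul (.g 15) (.mul (.g 15) (.pp [(1, 825)]))))))) (.mul (.g 12)
 (.add (.mul (.g 14) (.add (.mul (.g 10) (.mul (.g 14) (.pp [(1, 367620000)]))) (.mul (.g 11) (.mul
 (.g 11) (.pp [(1, 96475500000)]))))) (.mul (.g 12) (.pp [(1, 83419380000)]))))))) (.add (.add
 (.mul (.g 0) (.pp [(1, 20000000000)])) (.add (.mul (.g 1) (.pp [(1, 66000000)])) (.mul (.g 4) (.pp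
 [(1, 220000000000)])))) (.add (.mul (.g 6) (.pp [(1, 220000000000)])) (.add (.mul (.g 11) (.mul
 (.g 11) (.mul (.g 11) (.mul (.g 14) (.pp [(1, 5280000)]))))) (.mul (.g 17) (.pp [(1,
 220000000000)])))))) (.pp [(1, 13452067825), (2, 6744725), (3, 6302441), (4, 6700144), (5,
 6717427), (6, 7348462), (7, 7263432), (8, 6518754), (9, 7711836), (10, 7466536), (12, 6656870),
 (14, 7387248), (15, 6969248), (16, 6810144), (18, 5664274), (20, 5958612), (21, 5543208), (23,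
 660000000000), (24, 6723156), (25, 5417236), (27, 5078568), (28, 7400382), (30, 6970700), (35,
 6879840), (36, 6471498), (40, 7136646), (42, 6532152), (45, 5444186), (49, 6458826), (50,
 6922344), (54, 6909078), (56, 6309468), (60, 5463876), (63, 6498624), (70, 7846080), (75,
 7142498), (81, 7241850), (84, 6117474), (90, 7224030), (98, 7152948), (100, 6222876), (105,
 6114768), (125, 6928834), (126, 6189216), (135, 7001214), (140, 6147372), (147, 5582214), (150,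
 6631416), (175, 6502914), (189, 6920364), (196, 6032928), (210, 5868324), (225, 6340686), (245,
 6174432), (250, 6957918), (294, 5666826), (315, 6810408), (343, 6685206), (350, 6013128), (375,
 6474666), (441, 7085892), (490, 6829548), (525, 6978114), (625, 6600000), (686, 6379428), (735,
 6608316), (875, 6600000), (1029, 5543274), (1225, 6463314), (1715, 6007188), (2401,
 6499746)])))))))))))
 (P_TpA ++ xP_A_T6) = true := by decide +kernel

theorem t_G_F1_Op1 : chk ROp gP_G_F1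
 (.split [(1, 1), (2, -20)]
 (.cut 1 [(1, -69), (3, 100)] (.add (.mul (.g 2) (.pp [(1, 31)])) (.mul (.g 9) (.pp [(1, 69)])))
 (.cut 1 [(1, 3), (3, -2)] (.add (.add (.mul (.g 2) (.pp [(1, 18)])) (.mul (.g 7) (.pp [(1, 2)])))
 (.add (.mul (.g 4) (.pp [(1, 2)])) (.mul (.g 1) (.pp [(1, 1)])))) (.rule 8 (.rule 15 (.rule 4
 (.leaf 660000000 (.add (.add (.add (.add (.mul (.g 8) (.add (.add (.add (.mul (.g 9) (.add (.add
 (.pp [(1, 31053000000)]) (.add (.mul (.g 6) (.add (.mul (.g 8) (.pp [(1, 1628081400000)])) (.add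
 (.mul (.g 12) (.pp [(1, 1875099600000)])) (.mul (.g 17) (.pp [(1, 5332674600000)]))))) (.mul (.g
 16) (.add (.mul (.g 5) (.pp [(1, 79217820000)])) (.add (.mul (.g 11) (.pp [(1, 1102299000000)]))
 (.mul (.g 13) (.pp [(1, 51952230000)]))))))) (.add (.mul (.g 8) (.add (.mul (.g 8) (.pp [(1,
 44569800000)])) (.mul (.g 13) (.pp [(1, 35039070000)])))) (.add (.mul (.g 10) (.add (.mul (.g 12)
 (.pp [(1, 808453800000)])) (.mul (.g 17) (.pp [(1, 2686530000000)])))) (.mul (.g 7) (.mul (.g 9)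
 (.pp [(1, 146031600000)]))))))) (.mul (.g 7) (.add (.add (.mul (.g 13) (.add (.mul (.g 7) (.pp
 [(1, 16270320000)])) (.add (.mul (.g 14) (.pp [(1, 223096170000)])) (.mul (.g 16) (.pp [(1,
 2009370000)]))))) (.mul (.g 7) (.mul (.g 7) (.pp [(1, 151186200000)])))) (.add (.mul (.g 8) (.mul
 (.g 16) (.pp [(1, 146605800000)]))) (.mul (.g 12) (.mul (.g 17) (.pp [(1, 4057752600000)])))))))
 (.add (.mul (.g 8) (.add (.pp [(1, 868975800000)]) (.add (.mul (.g 12) (.mul (.g 16) (.pp [(1,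
 756386400000)]))) (.mul (.g 13) (.mul (.g 14) (.pp [(1, 200168760000)])))))) (.mul (.g 5) (.add
 (.mul (.pp [(1, 548196)]) (.sq [(1, 41), (2, 48), (3, 50), (5, 49), (7, 48)])) (.mul (.g 12) (.mul
 (.g 17) (.pp [(1, 98073360000)]))))))) (.add (.add (.mul (.g 16) (.add (.mul (.g 10) (.mul (.g 16)
 (.pp [(1, 910681200000)]))) (.mul (.g 17) (.pp [(1, 1415033400000)])))) (.mul (.g 6) (.pp [(1,
 2937244200000)]))) (.add (.mul (.g 11) (.pp [(1, 1684353000000)])) (.mul (.g 12) (.mul (.g 12)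
 (.mul (.g 12) (.pp [(1, 751152600000)])))))))) (.add (.mul (.g 9) (.add (.add (.mul (.g 9) (.add
 (.add (.mul (.g 17) (.add (.mul (.g 13) (.pp [(1, 25059540000)])) (.add (.mul (.g 16) (.pp [(1,
 192145800000)])) (.mul (.g 17) (.pp [(1, 337642800000)]))))) (.mul (.g 5) (.mul (.g 12) (.pp [(1,
 120531840000)])))) (.add (.mul (.g 6) (.mul (.g 14) (.pp [(1, 2685711600000)]))) (.mul (.g 9)
 (.mul (.g 11) (.pp [(1, 122991000000)])))))) (.add (.mul (.g 14) (.add (.mul (.g 13) (.add (.mul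
 (.g 5) (.pp [(1, 218377500)])) (.mul (.g 10) (.pp [(1, 9992400000)])))) (.mul (.g 6) (.mul (.g 6)
 (.pp [(1, 1256541000000)]))))) (.mul (.g 16) (.add (.pp [(1, 6006000000)]) (.add (.mul (.pp [(1,
 10594320)]) (.sq [(1, -73), (2, -58), (3, -21), (5, 99), (7, 100)])) (.mul (.g 16) (.pp [(1,
 159786000000)]))))))) (.add (.mul (.g 5) (.mul (.g 6) (.mul (.g 12) (.pp [(1, 13563660000)]))))
 (.add (.mul (.g 7) (.mul (.g 7) (.mul (.g 7) (.pp [(1, 3940200000)])))) (.mul (.g 11) (.mul (.pp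
 [(1, 1232220)]) (.sq [(1, 24), (2, -44), (3, 59), (5, -68), (7, 100)]))))))) (.mul (.g 7) (.add
 (.add (.mul (.g 12) (.add (.mul (.g 10) (.add (.mul (.g 7) (.pp [(1, 794065800000)])) (.mul (.g
 13) (.pp [(1, 8059590000)])))) (.add (.mul (.g 5) (.pp [(1, 94314000000)])) (.mul (.g 14) (.mul
 (.g 17) (.pp [(1, 6084005400000)])))))) (.mul (.g 11) (.add (.pp [(1, 6176042400000)]) (.mul (.g
 7) (.add (.mul (.g 5) (.pp [(1, 45949200000)])) (.mul (.g 17) (.pp [(1, 1670427000000)])))))))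
 (.add (.mul (.g 6) (.mul (.g 16) (.add (.mul (.g 6) (.pp [(1, 2552121000000)])) (.mul (.g 10) (.pp
 [(1, 242781000000)]))))) (.add (.mul (.g 5) (.mul (.pp [(1, 80454)]) (.sq [(1, 3), (2, 100), (3,
 100), (5, 5), (7, -7)]))) (.mul (.g 14) (.pp [(1, 652165800000)])))))))) (.add (.mul (.g 16) (.add
 (.add (.mul (.pp [(1, 45610620)]) (.sq [(2, 100), (3, 59), (5, 83), (7, 100)])) (.mul (.g 5) (.add
 (.add (.pp [(1, 107510700000)]) (.mul (.pp [(1, 424380)]) (.sq [(1, 16), (2, -45), (3, -70), (5,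
 100), (7, 73)]))) (.add (.mul (.pp [(1, 3617988)]) (.sq [(1, -61), (2, 100), (3, -44), (5, 1), (7,
 80)])) (.add (.mul (.pp [(1, 646833)]) (.sq [(1, 30), (2, -21), (3, -62), (5, 79), (7, -100)]))
 (.mul (.g 6) (.mul (.g 14) (.pp [(1, 85504320000)])))))))) (.add (.mul (.g 14) (.pp [(1,
 42345600000)])) (.mul (.g 16) (.mul (.pp [(1, 26675880)]) (.sq [(1, 100), (2, 59), (3, 27), (5,
 14), (7, 63)])))))) (.add (.mul (.g 6) (.add (.mul (.g 12) (.add (.mul (.pp [(1, 21692880)]) (.sq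
 [(2, 29), (3, -17), (5, 100), (7, -59)])) (.mul (.g 12) (.mul (.g 12) (.pp [(1, 45817200000)])))))
 (.add (.mul (.g 5) (.pp [(1, 221969220000)])) (.mul (.g 14) (.pp [(1, 6606600000)]))))) (.mul (.g
 14) (.mul (.g 17) (.add (.pp [(1, 1123095600000)]) (.mul (.g 12) (.mul (.g 12) (.pp [(1,
 1276143000000)]))))))))) (.add (.add (.mul (.g 0) (.pp [(1, 2200000000000)])) (.add (.mul (.g 1)
 (.pp [(1, 200000000000)])) (.mul (.g 2) (.pp [(1, 660000000)])))) (.add (.mul (.g 5) (.pp [(1,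
 67803780000)])) (.add (.mul (.g 11) (.mul (.g 13) (.mul (.pp [(1, 1485)]) (.sq [(2, 28), (3, -47),
 (5, 44), (7, 100)])))) (.mul (.g 15) (.pp [(1, 2200000000000)])))))) (.pp [(1, 398334595672), (2,
 67972940), (3, 67194290), (4, 70629427), (5, 76232968), (6, 59272708), (7, 65258028), (8,
 63820020), (9, 64763325), (10, 66698698), (12, 74762600), (14, 77817300), (15, 73190216), (16,
 64196880), (18, 63392065), (20, 58795869), (21, 68265912), (24, 73368240), (25, 64824595), (27,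
 70529415), (28, 54989253), (30, 82981052), (35, 72165588), (36, 71454900), (40, 73417740), (42,
 67251492), (45, 62166335), (49, 82882140), (50, 70076622), (54, 68572680), (56, 64449660), (60,
 49634640), (63, 64404780), (70, 71246538), (75, 53153078), (81, 65607300), (84, 61430160), (90,
 67477080), (98, 54582000), (100, 61345680), (105, 58925328), (125, 65312445), (126, 61750260),
 (135, 61175400), (140, 73989960), (147, 66738474), (150, 59324760), (175, 59965257), (189,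
 69977820), (196, 70605480), (210, 63613440), (225, 72311580), (245, 39826116), (250, 67345740),
 (294, 73205880), (315, 71086620), (343, 54549660), (350, 48364140), (375, 67393920), (441,
 62574600), (490, 52213920), (525, 61335120), (625, 62826720), (686, 64711680), (735, 63824640),
 (875, 61678320), (1029, 65712240), (1225, 71529480), (1715, 68748240), (2401, 66632280)]))))))))
 (.split [(1, -3), (3, 2)]
 (.cut 3 [(2, -1), (3, 1)] (.add (.mul (.g 0) (.pp [(1, 1)])) (.add (.mul (.g 3) (.pp [(1, 1)]))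
 (.mul (.g 6) (.pp [(1, 3)])))) (.rule 1 (.cut 3 [(2, 1), (5, -1)] (.add (.add (.mul (.g 4) (.pp
 [(1, 1)])) (.mul (.g 1) (.pp [(1, 1)]))) (.add (.mul (.g 2) (.pp [(1, 1)])) (.mul (.g 9) (.pp [(1,
 3)])))) (.rule 2 (.rule 9 (.cut 1 [(1, -2), (2, -1), (3, 2), (5, 1)] (.add (.mul (.g 11) (.pp [(1,
 1)])) (.add (.mul (.g 5) (.pp [(1, 1)])) (.mul (.g 9) (.pp [(1, 1)])))) (.cut 1 [(1, -1), (2, -2),
 (3, 2), (5, 2)] (.add (.mul (.g 12) (.pp [(1, 1)])) (.add (.mul (.g 10) (.pp [(1, 1)])) (.mul (.g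
 0) (.pp [(1, 1)])))) (.rule 10 (.leaf 60000000 (.add (.add (.add (.add (.mul (.g 12) (.add (.add
 (.mul (.g 12) (.add (.add (.mul (.g 15) (.add (.mul (.g 10) (.pp [(1, 365388000000)])) (.add (.mul
 (.g 15) (.pp [(1, 24442800000)])) (.mul (.g 16) (.pp [(1, 59925000000)]))))) (.add (.mul (.g 9)
 (.add (.mul (.g 9) (.pp [(1, 194577000)])) (.mul (.g 18) (.pp [(1, 6558390000)])))) (.mul (.g 13)
 (.add (.mul (.g 14) (.pp [(1, 130980000000)])) (.mul (.g 21) (.pp [(1, 72150600000)])))))) (.add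
 (.mul (.g 8) (.mul (.g 16) (.pp [(1, 27255800000)]))) (.add (.mul (.g 10) (.mul (.g 10) (.pp [(1,
 34611600000)]))) (.mul (.g 12) (.pp [(1, 286220400000)])))))) (.add (.mul (.g 13) (.add (.add
 (.mul (.pp [(1, 4922340)]) (.sq [(1, -41), (2, 78), (3, -17), (5, 100), (7, -76)])) (.mul (.g 14)
 (.add (.mul (.g 10) (.pp [(1, 59871600000)])) (.add (.mul (.g 13) (.pp [(1, 135474000000)])) (.mul
 (.g 15) (.pp [(1, 83686800000)])))))) (.add (.mul (.g 16) (.add (.mul (.g 11) (.pp [(1,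
 29306400000)])) (.mul (.g 20) (.pp [(1, 21430200000)])))) (.mul (.g 13) (.pp [(1,
 431218200000)]))))) (.mul (.g 14) (.add (.pp [(1, 690318000000)]) (.add (.mul (.g 21) (.add (.mul
 (.g 14) (.pp [(1, 36969000000)])) (.mul (.g 21) (.pp [(1, 11737200000)])))) (.mul (.g 9) (.mul (.g
 9) (.pp [(1, 295869000)])))))))) (.add (.mul (.g 20) (.add (.add (.pp [(1, 32017800000)]) (.mul
 (.pp [(1, 2043540)]) (.sq [(1, 34), (2, 3), (3, 100), (5, -64), (7, -1)]))) (.add (.mul (.g 10)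
 (.mul (.g 10) (.pp [(1, 129466800000)]))) (.mul (.g 11) (.mul (.g 11) (.pp [(1,
 111973800000)])))))) (.add (.mul (.g 21) (.add (.mul (.pp [(1, 508020)]) (.sq [(1, 28), (2, -5),
 (3, 100), (5, -63), (7, -9)])) (.mul (.g 10) (.mul (.g 15) (.pp [(1, 420451200000)]))))) (.mul (.g
 8) (.pp [(1, 110635600000)])))))) (.add (.mul (.g 11) (.add (.add (.mul (.g 11) (.add (.mul (.g
 13) (.add (.mul (.g 9) (.pp [(1, 546570000)])) (.mul (.g 17) (.pp [(1, 387540000)])))) (.add (.mul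
 (.g 11) (.mul (.g 14) (.pp [(1, 25020000000)]))) (.mul (.g 20) (.mul (.g 21) (.pp [(1,
 10703400000)])))))) (.add (.mul (.g 8) (.add (.pp [(1, 11945800000)]) (.add (.mul (.pp [(1,
 65080)]) (.sq [(2, 90), (3, 100), (5, 22), (7, 19)])) (.mul (.g 16) (.mul (.g 16) (.pp [(1,
 3621400000)])))))) (.mul (.g 15) (.add (.mul (.pp [(1, 2412900)]) (.sq [(1, 3), (2, 20), (3, 100),
 (5, 31), (7, -81)])) (.mul (.g 17) (.add (.pp [(1, 4795350000)]) (.mul (.g 21) (.pp [(1,
 1145610000)])))))))) (.add (.mul (.g 10) (.add (.mul (.g 16) (.mul (.g 20) (.pp [(1,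
 7778400000)]))) (.mul (.g 17) (.mul (.g 21) (.pp [(1, 1591830000)]))))) (.add (.mul (.g 13) (.mul
 (.g 13) (.mul (.g 13) (.pp [(1, 12893400000)])))) (.mul (.g 14) (.pp [(1, 179430600000)]))))))
 (.mul (.g 15) (.add (.add (.mul (.pp [(1, 3819540)]) (.sq [(2, -73), (3, -33), (5, -76), (7,
 100)])) (.add (.mul (.g 13) (.add (.pp [(1, 41972400000)]) (.add (.mul (.pp [(1, 356640)]) (.sq
 [(1, 35), (2, -48), (3, 10), (5, -6), (7, 50)])) (.mul (.pp [(1, 104100)]) (.sq [(1, 49), (2,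
 100), (3, 11), (5, 11), (7, 100)]))))) (.mul (.g 15) (.add (.pp [(1, 305046600000)]) (.mul (.pp
 [(1, 514440)]) (.sq [(1, -31), (2, -100), (3, -3), (5, -22), (7, 88)])))))) (.add (.mul (.g 16)
 (.add (.mul (.g 10) (.mul (.g 18) (.pp [(1, 28550400000)]))) (.mul (.g 16) (.pp [(1,
 88954800000)])))) (.add (.mul (.g 9) (.mul (.pp [(1, 58293)]) (.sq [(1, 2), (2, 17), (3, -10), (5,
 100), (7, -40)]))) (.mul (.g 14) (.mul (.pp [(1, 2235060)]) (.sq [(1, 86), (2, -100), (3, 100),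
 (5, 49), (7, 20)]))))))))) (.add (.mul (.g 20) (.add (.add (.pp [(1, 49379400000)]) (.add (.mul
 (.g 13) (.add (.pp [(1, 372676200000)]) (.mul (.pp [(1, 564420)]) (.sq [(1, -62), (2, 76), (3,
 -23), (5, 32), (7, -100)])))) (.mul (.g 20) (.add (.mul (.pp [(1, 4348080)]) (.sq [(1, -63), (2,
 -85), (3, -46), (5, 100), (7, -36)])) (.mul (.pp [(1, 3353520)]) (.sq [(1, 40), (2, 83), (3,
 -100), (5, -33), (7, 1)])))))) (.add (.mul (.g 14) (.mul (.pp [(1, 8222700)]) (.sq [(1, -64), (2,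
 79), (3, -4), (5, 51), (7, 100)]))) (.add (.mul (.g 16) (.mul (.pp [(1, 521040)]) (.sq [(1, 65),
 (2, 100), (3, 78), (5, 54), (7, 90)]))) (.mul (.g 18) (.mul (.pp [(1, 4966740)]) (.sq [(1, 38),
 (2, 100), (3, -58), (5, 53), (7, -60)]))))))) (.add (.mul (.g 14) (.add (.add (.mul (.g 17) (.add
 (.pp [(1, 6269010000)]) (.mul (.pp [(1, 176124)]) (.sq [(1, 1), (2, 3), (3, -8), (5, 100), (7,
 -93)])))) (.mul (.g 8) (.pp [(1, 4700800000)]))) (.add (.mul (.g 13) (.mul (.pp [(1, 6211200)])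
 (.sq [(1, -27), (2, 38), (3, 5), (5, 100), (7, -63)]))) (.mul (.g 14) (.mul (.pp [(1, 6550860)])
 (.sq [(1, -21), (2, 41), (3, 6), (5, 37), (7, 100)])))))) (.mul (.g 13) (.add (.mul (.pp [(1,
 38770560)]) (.sq [(2, 20), (3, 13), (5, 50), (7, -28)])) (.add (.mul (.g 8) (.pp [(1,
 71756400000)])) (.mul (.g 13) (.mul (.g 21) (.mul (.g 21) (.pp [(1, 109114200000)])))))))))) (.add
 (.add (.mul (.g 0) (.pp [(1, 200000000000)])) (.add (.mul (.g 3) (.pp [(1, 600000000)])) (.mul (.g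
 4) (.pp [(1, 200000000000)])))) (.add (.add (.mul (.g 6) (.pp [(1, 200000000000)])) (.mul (.g 8)
 (.mul (.g 16) (.pp [(1, 297606200000)])))) (.add (.mul (.g 17) (.mul (.g 18) (.mul (.pp [(1,
 158913)]) (.sq [(1, 4), (2, 100), (3, 70), (5, 12), (7, -61)])))) (.mul (.g 19) (.pp [(1,
 200000000000)])))))) (.pp [(1, 38431246796), (2, 5485716), (3, 6354544), (4, 5943549), (5,
 6009996), (6, 6173604), (7, 6737100), (8, 6290333), (9, 5479944), (10, 4245996), (12, 4743411),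
 (14, 6044628), (15, 5946612), (16, 5568480), (18, 7025676), (20, 5208123), (21, 5894952), (24,
 7260180), (25, 6877272), (27, 5316100), (28, 8002308), (30, 8764860), (35, 5844528), (36,
 5474920), (40, 6319920), (42, 4172472), (45, 4601400), (49, 4908987), (50, 8001900), (54,
 5574640), (56, 5968980), (60, 3827040), (63, 5870220), (70, 6892320), (75, 4734948), (81,
 6496040), (84, 4788000), (90, 6821440), (98, 6213216), (100, 6801240), (105, 4339752), (125,
 5697000), (126, 7196940), (135, 6479920), (140, 4367820), (147, 7075017), (150, 5914600), (175,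
 4828260), (189, 5957540), (196, 6374160), (210, 7839840), (225, 6595660), (245, 6906540), (250,
 4975320), (294, 5441280), (315, 6541460), (343, 6130080), (350, 6439680), (375, 6749720), (441,
 6333220), (490, 5178840), (525, 6822120), (625, 6451620), (686, 6110880), (735, 6414000), (875,
 6523740), (1029, 6083040), (1225, 5925960), (1715, 6121620), (2401, 5734800)])))))))))))
 (.cut 1 [(2, -1), (3, 1)] (.add (.mul (.g 10) (.pp [(1, 1)])) (.mul (.g 6) (.pp [(1, 1)]))) (.rule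
 1 (.cut 1 [(2, 1), (5, -1)] (.add (.mul (.g 12) (.pp [(1, 1)])) (.mul (.g 9) (.pp [(1, 1)])))
 (.rule 2 (.cut 11 [(1, -69), (3, 100)] (.add (.mul (.g 1) (.pp [(1, 620)])) (.add (.mul (.g 13)
 (.pp [(1, 31)])) (.mul (.g 14) (.pp [(1, 480)])))) (.rule 8 (.rule 15 (.leaf 660000000 (.add (.add
 (.add (.add (.mul (.g 12) (.add (.add (.mul (.g 13) (.add (.add (.mul (.g 9) (.add (.add (.mul (.g
 9) (.pp [(1, 1201035000000)])) (.mul (.g 10) (.pp [(1, 818353800000)]))) (.add (.mul (.g 15) (.pp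
 [(1, 189994200000)])) (.mul (.g 19) (.pp [(1, 361831800000)]))))) (.mul (.g 11) (.add (.mul (.g
 12) (.pp [(1, 166980000000)])) (.mul (.g 17) (.pp [(1, 1887250200000)]))))) (.add (.mul (.g 13)
 (.add (.mul (.g 10) (.pp [(1, 386595000000)])) (.mul (.g 12) (.pp [(1, 1113472800000)])))) (.mul
 (.g 7) (.mul (.g 8) (.pp [(1, 58101120000)])))))) (.add (.mul (.g 12) (.add (.add (.mul (.g 12)
 (.add (.mul (.g 12) (.pp [(1, 9451200000)])) (.mul (.g 14) (.pp [(1, 177361800000)])))) (.mul (.g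
 17) (.add (.mul (.g 9) (.pp [(1, 298716000000)])) (.mul (.g 19) (.pp [(1, 378635400000)])))))
 (.add (.mul (.g 7) (.mul (.g 16) (.pp [(1, 17315870000)]))) (.mul (.g 14) (.mul (.g 20) (.pp [(1,
 241645800000)])))))) (.mul (.g 19) (.add (.add (.pp [(1, 460653600000)]) (.mul (.pp [(1,
 26003340)]) (.sq [(1, -52), (2, 1), (3, -25), (5, -58), (7, 100)]))) (.add (.mul (.g 9) (.mul (.g
 15) (.pp [(1, 1403305200000)]))) (.mul (.g 19) (.mul (.g 20) (.pp [(1, 284611800000)]))))))))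
 (.add (.mul (.g 11) (.add (.mul (.g 9) (.add (.mul (.g 10) (.pp [(1, 688630800000)])) (.mul (.g
 17) (.pp [(1, 959600400000)])))) (.mul (.g 10) (.mul (.g 11) (.pp [(1, 472573200000)]))))) (.add
 (.mul (.g 7) (.mul (.pp [(1, 1281940)]) (.sq [(1, 11), (2, -20), (3, -5), (5, -65), (7, 100)])))
 (.mul (.g 14) (.mul (.pp [(1, 12942600)]) (.sq [(1, 35), (2, -24), (3, -35), (5, -66), (7,
 100)]))))))) (.add (.mul (.g 19) (.add (.add (.add (.mul (.g 17) (.add (.add (.pp [(1,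
 1333761000000)]) (.mul (.pp [(1, 217293120)]) (.sq [(1, 25), (2, -25), (3, -19), (5, -5), (7,
 12)]))) (.add (.mul (.g 11) (.add (.mul (.g 11) (.pp [(1, 1626207000000)])) (.mul (.g 20) (.pp
 [(1, 963864000000)])))) (.mul (.g 9) (.mul (.g 13) (.pp [(1, 633138000000)])))))) (.mul (.g 7)
 (.add (.mul (.pp [(1, 17657200)]) (.sq [(1, 81), (2, 57), (3, 54), (5, -13), (7, 100)])) (.mul (.g
 10) (.add (.pp [(1, 192460400000)]) (.mul (.g 13) (.pp [(1, 314045600000)]))))))) (.add (.mul (.g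
 9) (.mul (.g 9) (.add (.mul (.g 15) (.pp [(1, 481509600000)])) (.mul (.g 16) (.pp [(1,
 35836020000)]))))) (.mul (.g 13) (.add (.mul (.pp [(1, 32013960)]) (.sq [(1, 55), (2, 26), (3,
 -58), (5, 100), (7, 68)])) (.mul (.pp [(1, 55801020)]) (.sq [(1, -46), (2, 54), (3, 17), (5, 17),
 (7, 100)])))))) (.add (.add (.mul (.g 20) (.add (.pp [(1, 541186800000)]) (.mul (.g 10) (.mul (.g
 11) (.pp [(1, 194304000000)]))))) (.mul (.g 14) (.pp [(1, 892181400000)]))) (.add (.mul (.g 15)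
 (.mul (.pp [(1, 1906740)]) (.sq [(1, 90), (2, 64), (3, -65), (5, 100), (7, 82)]))) (.add (.mul (.g
 16) (.mul (.pp [(1, 171897)]) (.sq [(1, 33), (2, 100), (3, 76), (5, 76), (7, 63)]))) (.mul (.g 19)
 (.mul (.pp [(1, 25051620)]) (.sq [(1, 32), (2, 12), (3, 57), (5, 15), (7, 100)])))))))) (.mul (.g
 17) (.add (.add (.mul (.g 10) (.add (.mul (.g 9) (.add (.mul (.g 13) (.pp [(1, 400785000000)]))
 (.mul (.g 17) (.pp [(1, 2726922000000)])))) (.add (.mul (.g 11) (.add (.mul (.g 11) (.pp [(1,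
 687165600000)])) (.mul (.g 15) (.pp [(1, 824524800000)])))) (.mul (.g 10) (.mul (.g 13) (.pp [(1,
 2846243400000)])))))) (.add (.mul (.g 17) (.add (.pp [(1, 1449049800000)]) (.mul (.g 9) (.mul (.g
 9) (.pp [(1, 400098600000)]))))) (.mul (.g 7) (.mul (.pp [(1, 17561060)]) (.sq [(1, -33), (2,
 -58), (3, 100), (5, 100), (7, -24)]))))) (.add (.mul (.g 14) (.pp [(1, 3047523600000)])) (.add
 (.mul (.g 16) (.mul (.pp [(1, 1306305)]) (.sq [(1, 4), (2, 77), (3, 100), (5, 33), (7, 3)])))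
 (.mul (.g 20) (.pp [(1, 11418000000)])))))))) (.add (.mul (.g 11) (.add (.mul (.g 20) (.add (.mul
 (.g 20) (.add (.mul (.g 10) (.pp [(1, 1323768600000)])) (.mul (.g 11) (.pp [(1, 240253200000)]))))
 (.mul (.g 16) (.mul (.g 16) (.pp [(1, 214615500)]))))) (.add (.mul (.g 14) (.add (.pp [(1,
 2631875400000)]) (.mul (.pp [(1, 45968340)]) (.sq [(1, -13), (2, -41), (3, 10), (5, -67), (7,
 100)])))) (.mul (.g 13) (.pp [(1, 527082600000)]))))) (.add (.mul (.g 8) (.add (.mul (.g 13) (.add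
 (.mul (.g 10) (.add (.mul (.g 10) (.pp [(1, 20680770000)])) (.mul (.g 13) (.pp [(1,
 82181550000)])))) (.mul (.g 8) (.mul (.g 8) (.pp [(1, 139050450)]))))) (.mul (.g 15) (.mul (.pp
 [(1, 1389564)]) (.sq [(1, -50), (2, 100), (3, -3), (5, -3), (7, -73)]))))) (.mul (.g 14) (.add
 (.mul (.g 14) (.add (.mul (.pp [(1, 686400)]) (.sq [(1, 19), (2, 100), (3, 84), (5, -13), (7,
 44)])) (.add (.mul (.pp [(1, 108484860)]) (.sq [(1, 100), (2, -43), (3, 28), (5, 28), (7, -28)]))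
 (.mul (.g 15) (.pp [(1, 1651049400000)]))))) (.mul (.g 9) (.mul (.g 9) (.mul (.g 9) (.pp [(1,
 1118779200000)]))))))))) (.add (.add (.mul (.g 16) (.add (.mul (.g 10) (.mul (.g 16) (.add (.pp
 [(1, 52915500)]) (.mul (.g 20) (.pp [(1, 2240650500)]))))) (.mul (.g 13) (.pp [(1,
 32596080000)])))) (.add (.mul (.g 0) (.pp [(1, 200000000000)])) (.mul (.g 1) (.pp [(1,
 660000000)])))) (.add (.mul (.g 3) (.pp [(1, 2200000000000)])) (.add (.mul (.g 5) (.pp [(1,
 2200000000000)])) (.mul (.g 18) (.pp [(1, 2200000000000)])))))) (.pp [(1, 14372103847), (2,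
 70351250), (3, 71475248), (4, 69105355), (5, 64907731), (6, 57721840), (7, 67536777), (8,
 69055140), (9, 67967768), (10, 59991910), (12, 54769165), (14, 74928150), (15, 69672548), (16,
 64693860), (18, 69020204), (20, 59237640), (21, 66955460), (24, 67314060), (25, 67431595), (27,
 66872696), (28, 64003500), (30, 76477258), (35, 66591096), (36, 69873760), (40, 63429300), (42,
 51796118), (45, 72750700), (49, 59777058), (50, 75945804), (54, 64506640), (56, 64693200), (60,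
 69344880), (63, 66334884), (70, 62728248), (75, 62318817), (81, 64831360), (84, 78706760), (90,
 63196760), (98, 57105444), (100, 66554400), (105, 65964910), (125, 69981208), (126, 63670640),
 (135, 65017700), (140, 69618780), (147, 71626093), (150, 73552380), (175, 68689896), (189,
 66881540), (196, 68414940), (210, 70982560), (225, 54627100), (245, 67796091), (250, 61447320),
 (294, 77160380), (315, 57614920), (343, 68905023), (350, 61407060), (375, 62881720), (441,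
 60982020), (490, 62390460), (525, 59979040), (625, 65073360), (686, 60125340), (735, 60176600),
 (875, 67849320), (1029, 69144900), (1225, 70189680), (1715, 73099620), (2401,
 66000000)]))))))))))))
 (P_Op1 ++ xP_G_F1) = true := by decide +kernel

theorem t_G_F5b_c1 : chk RFp gP_G_F5b
 (.void (.add (.mul (.g 9) (.pp [(1, 1)])) (.mul (.g 11) (.pp [(1, 5)]))))
 (P_c1 ++ xP_G_F5b) = true := by decide +kernel

theorem t_G_F5b_Op1 : chk ROp gP_G_F5b
 (.split [(1, -3), (3, 2)]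
 (.cut 3 [(2, -1), (3, 1)] (.add (.mul (.g 0) (.pp [(1, 1)])) (.add (.mul (.g 2) (.pp [(1, 1)]))
 (.mul (.g 5) (.pp [(1, 3)])))) (.rule 1 (.cut 3 [(2, 1), (5, -1)] (.add (.add (.mul (.g 3) (.pp
 [(1, 1)])) (.mul (.g 1) (.pp [(1, 1)]))) (.add (.mul (.g 2) (.pp [(1, 1)])) (.mul (.g 8) (.pp [(1,
 3)])))) (.rule 2 (.rule 9 (.cut 1 [(1, -2), (2, -1), (3, 2), (5, 1)] (.add (.mul (.g 10) (.pp [(1,
 1)])) (.add (.mul (.g 5) (.pp [(1, 1)])) (.mul (.g 8) (.pp [(1, 1)])))) (.cut 1 [(1, -1), (2, -2),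
 (3, 2), (5, 2)] (.add (.mul (.g 11) (.pp [(1, 1)])) (.add (.mul (.g 9) (.pp [(1, 1)])) (.mul (.g
 0) (.pp [(1, 1)])))) (.rule 10 (.leaf 9000000 (.add (.add (.add (.add (.mul (.g 11) (.add (.add
 (.mul (.g 8) (.add (.pp [(1, 28630380000)]) (.add (.mul (.g 17) (.add (.mul (.g 11) (.pp [(1,
 6329550000)])) (.mul (.g 17) (.pp [(1, 3072450000)])))) (.mul (.g 9) (.mul (.g 16) (.pp [(1,
 186651000)])))))) (.add (.mul (.g 10) (.add (.mul (.g 10) (.mul (.g 20) (.pp [(1, 10287090000)])))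
 (.add (.mul (.g 11) (.mul (.g 14) (.pp [(1, 2932740000)]))) (.mul (.g 15) (.mul (.g 17) (.pp [(1,
 1150020000)])))))) (.mul (.g 11) (.add (.pp [(1, 51855300000)]) (.mul (.g 14) (.pp [(1,
 7056090000)])))))) (.add (.mul (.g 13) (.add (.pp [(1, 74747070000)]) (.mul (.g 15) (.mul (.g 20)
 (.pp [(1, 2674800000)]))))) (.add (.mul (.g 9) (.mul (.g 9) (.pp [(1, 6430320000)]))) (.mul (.g
 14) (.mul (.pp [(1, 605880)]) (.sq [(1, 86), (2, 35), (3, 100), (5, 16)]))))))) (.add (.mul (.g 9)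
 (.add (.add (.mul (.pp [(1, 946980)]) (.sq [(2, 37), (3, -19), (5, 50)])) (.mul (.g 13) (.add
 (.add (.mul (.g 10) (.add (.mul (.g 14) (.pp [(1, 6872400000)])) (.mul (.g 15) (.pp [(1,
 25509150000)])))) (.mul (.g 8) (.mul (.g 9) (.pp [(1, 406020000)])))) (.add (.mul (.g 13) (.mul
 (.g 13) (.pp [(1, 900000)]))) (.mul (.g 20) (.pp [(1, 2385090000)])))))) (.add (.mul (.g 8) (.add
 (.mul (.g 9) (.mul (.g 15) (.pp [(1, 8912940000)]))) (.mul (.g 10) (.mul (.g 14) (.pp [(1,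
 405570000)]))))) (.add (.mul (.g 10) (.mul (.g 10) (.mul (.g 17) (.pp [(1, 808470000)])))) (.mul
 (.g 14) (.pp [(1, 48586860000)])))))) (.mul (.g 10) (.add (.mul (.g 14) (.add (.mul (.pp [(1,
 297)]) (.sq [(1, 13), (2, 28), (3, -55), (5, 100)])) (.add (.mul (.g 15) (.mul (.g 20) (.pp [(1,
 2465190000)]))) (.mul (.g 16) (.pp [(1, 1562080500)]))))) (.add (.mul (.g 10) (.mul (.g 10) (.mul
 (.g 20) (.pp [(1, 4526190000)])))) (.mul (.g 13) (.pp [(1, 23309640000)]))))))) (.add (.mul (.g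
 15) (.add (.mul (.g 8) (.pp [(1, 44910270000)])) (.add (.mul (.g 13) (.pp [(1, 23615460000)]))
 (.mul (.g 14) (.mul (.g 15) (.mul (.g 20) (.pp [(1, 821610000)]))))))) (.add (.mul (.g 20) (.add
 (.mul (.g 13) (.mul (.pp [(1, 21816)]) (.sq [(1, -75), (2, 60), (3, -59), (5, 100)]))) (.mul (.g
 20) (.mul (.pp [(1, 20556)]) (.sq [(1, -38), (2, 23), (3, 24), (5, 100)]))))) (.mul (.g 0) (.pp
 [(1, 30000000000)]))))) (.add (.add (.mul (.g 3) (.pp [(1, 90000000)])) (.add (.mul (.g 4) (.pp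
 [(1, 30000000000)])) (.mul (.g 6) (.pp [(1, 30000000000)])))) (.add (.mul (.g 8) (.mul (.g 8) (.pp
 [(1, 5302190000)]))) (.add (.mul (.g 16) (.mul (.g 16) (.pp [(1, 50738400)]))) (.mul (.g 18) (.pp
 [(1, 30000000000)])))))) (.pp [(1, 8240081736), (2, 966888), (3, 910851), (4, 804276), (5,
 1051848), (6, 843147), (8, 931980), (9, 898651), (10, 644544), (12, 817536), (15, 909285), (16,
 900000), (18, 1077402), (20, 985248), (24, 937152), (25, 802656), (27, 896865), (30, 1002384),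
 (36, 877608), (40, 869400), (45, 882498), (50, 1139328), (54, 856815), (60, 959928), (75, 866904),
 (81, 898425), (90, 763944), (100, 921276), (125, 892080), (135, 901425), (150, 817776), (225,
 978744), (250, 792720), (375, 942480), (625, 935280)])))))))))))
 (.cut 1 [(2, -1), (3, 1)] (.add (.mul (.g 9) (.pp [(1, 1)])) (.mul (.g 5) (.pp [(1, 1)]))) (.rule
 1 (.cut 1 [(2, 1), (5, -1)] (.add (.mul (.g 11) (.pp [(1, 1)])) (.mul (.g 8) (.pp [(1, 1)])))
 (.rule 2 (.cut 11 [(1, -69), (3, 100)] (.add (.mul (.g 1) (.pp [(1, 620)])) (.add (.mul (.g 12)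
 (.pp [(1, 31)])) (.mul (.g 13) (.pp [(1, 480)])))) (.rule 8 (.rule 15 (.leaf 165000000 (.add (.add
 (.add (.add (.mul (.g 12) (.add (.add (.pp [(1, 334261950000)]) (.add (.mul (.g 9) (.add (.add
 (.pp [(1, 68234100000)]) (.mul (.pp [(1, 4358640)]) (.sq [(1, 49), (2, -20), (3, 100), (5,
 100)]))) (.add (.mul (.g 8) (.add (.mul (.g 7) (.pp [(1, 25323100000)])) (.mul (.g 19) (.pp [(1,
 90109800000)])))) (.mul (.g 10) (.add (.mul (.g 14) (.pp [(1, 26718450000)])) (.mul (.g 15) (.pp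
 [(1, 14806935000)]))))))) (.mul (.g 10) (.add (.pp [(1, 502491000000)]) (.add (.mul (.g 10) (.mul
 (.g 19) (.pp [(1, 15297150000)]))) (.mul (.g 13) (.mul (.g 14) (.pp [(1, 30556350000)]))))))))
 (.add (.mul (.g 8) (.add (.pp [(1, 22070400000)]) (.mul (.g 12) (.mul (.g 14) (.pp [(1,
 134244000000)]))))) (.add (.mul (.g 16) (.mul (.pp [(1, 47176140)]) (.sq [(1, 17), (2, 50), (3,
 -28), (5, 14)]))) (.mul (.g 19) (.mul (.pp [(1, 1732335)]) (.sq [(1, -12), (2, -81), (3, -85), (5,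
 100)]))))))) (.mul (.g 13) (.add (.add (.mul (.g 8) (.add (.mul (.g 7) (.mul (.g 10) (.pp [(1,
 100836450000)]))) (.add (.mul (.g 8) (.mul (.g 8) (.pp [(1, 151144950000)]))) (.mul (.g 14) (.pp
 [(1, 106053750000)]))))) (.add (.mul (.g 9) (.add (.pp [(1, 312109050000)]) (.mul (.pp [(1,
 7693125)]) (.sq [(1, -19), (2, 100), (3, -49), (5, 62)])))) (.mul (.g 10) (.add (.pp [(1,
 525932550000)]) (.mul (.g 10) (.mul (.g 13) (.pp [(1, 38156250000)]))))))) (.add (.add (.mul (.g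
 14) (.add (.mul (.pp [(1, 2287230)]) (.sq [(1, -14), (2, 86), (3, -83), (5, 100)])) (.mul (.g 13)
 (.pp [(1, 424403100000)])))) (.mul (.g 7) (.mul (.pp [(1, 974160)]) (.sq [(1, -4), (2, 95), (3,
 12), (5, 100)])))) (.add (.mul (.g 16) (.pp [(1, 358064850000)])) (.mul (.g 18) (.mul (.pp [(1,
 5300625)]) (.sq [(1, -47), (2, 45), (3, 100), (5, -57)])))))))) (.add (.mul (.g 9) (.add (.mul (.g
 14) (.mul (.g 16) (.add (.mul (.g 9) (.pp [(1, 86936850000)])) (.add (.mul (.g 10) (.pp [(1,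
 910725750000)])) (.mul (.g 19) (.pp [(1, 901716750000)])))))) (.mul (.g 19) (.add (.mul (.g 10)
 (.mul (.g 19) (.pp [(1, 125794350000)]))) (.mul (.g 15) (.mul (.g 15) (.pp [(1, 401729625)])))))))
 (.add (.mul (.g 10) (.add (.mul (.g 7) (.mul (.g 10) (.add (.pp [(1, 1002100000)]) (.mul (.g 7)
 (.pp [(1, 35445850000)]))))) (.mul (.g 15) (.mul (.pp [(1, 97647)]) (.sq [(1, 34), (2, -100), (3,
 95), (5, -19)]))))) (.mul (.g 0) (.pp [(1, 50000000000)]))))) (.add (.add (.mul (.g 1) (.pp [(1,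
 165000000)])) (.mul (.g 3) (.pp [(1, 550000000000)]))) (.add (.mul (.g 5) (.pp [(1,
 550000000000)])) (.add (.mul (.g 16) (.mul (.g 19) (.pp [(1, 10287750000)]))) (.mul (.g 17) (.pp
 [(1, 550000000000)])))))) (.pp [(1, 9137419165), (2, 16889615), (3, 15492020), (4, 15543220), (5,
 17686993), (6, 16094980), (8, 16486800), (9, 19369185), (10, 18858730), (12, 17921090), (15,
 16023755), (16, 15403080), (18, 15797265), (20, 15204420), (24, 18126735), (25, 13320439), (27,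
 14915835), (30, 15896210), (36, 14716735), (40, 15799905), (45, 17875220), (50, 16663515), (54,
 17338695), (60, 18954045), (75, 18769630), (81, 16762515), (90, 14690115), (100, 19990080), (125,
 18228958), (135, 16517985), (150, 10756185), (225, 17253995), (250, 15245340), (375, 17587185),
 (625, 16038660)])))))))))))
 (P_Op1 ++ xP_G_F5b) = true := by decide +kernel

theorem t_G_F7_c2 : chk ROp gP_G_F7
 (.split [(1, -69), (3, 100)]
 (.split [(2, 1), (3, -1)]
 (.rule 0 (.rule 6 (.cut 31 [(1, 3), (3, -2)] (.add (.mul (.g 2) (.pp [(1, 162)])) (.add (.mul (.g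
 8) (.pp [(1, 162)])) (.mul (.g 3) (.pp [(1, 1)])))) (.rule 8 (.leaf 1500000000 (.add (.add (.add
 (.add (.mul (.g 9) (.add (.add (.mul (.g 18) (.add (.add (.pp [(1, 137535000000)]) (.mul (.g 7)
 (.add (.add (.mul (.g 7) (.pp [(1, 1624920000000)])) (.mul (.g 8) (.pp [(1, 5261340000000)])))
 (.add (.mul (.g 9) (.pp [(1, 3413940000000)])) (.mul (.g 19) (.pp [(1, 8250315000000)])))))) (.add
 (.mul (.g 4) (.add (.pp [(1, 4162125000000)]) (.mul (.g 10) (.pp [(1, 3969645000000)])))) (.add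
 (.mul (.g 8) (.add (.mul (.g 8) (.pp [(1, 1064415000000)])) (.mul (.g 16) (.pp [(1,
 457035000000)])))) (.mul (.g 9) (.add (.mul (.g 18) (.pp [(1, 4435320000000)])) (.mul (.g 19) (.pp
 [(1, 2367345000000)])))))))) (.mul (.g 9) (.add (.add (.mul (.g 5) (.add (.mul (.g 7) (.pp [(1,
 35860800000)])) (.mul (.g 11) (.pp [(1, 31801350000)])))) (.mul (.g 19) (.add (.mul (.g 10) (.pp
 [(1, 6016230000000)])) (.mul (.g 16) (.pp [(1, 654645000000)]))))) (.add (.mul (.g 4) (.mul (.g 9)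
 (.pp [(1, 4430145000000)]))) (.mul (.g 14) (.mul (.g 14) (.pp [(1, 1355726250000)]))))))) (.add
 (.mul (.g 8) (.add (.mul (.g 5) (.add (.mul (.g 4) (.pp [(1, 46195500000)])) (.mul (.g 14) (.pp
 [(1, 5078550000)])))) (.mul (.g 19) (.add (.mul (.g 7) (.pp [(1, 98640000000)])) (.mul (.g 12)
 (.pp [(1, 404370000000)])))))) (.add (.mul (.g 6) (.mul (.g 10) (.add (.mul (.g 13) (.pp [(1,
 388943250000)])) (.mul (.g 19) (.pp [(1, 7783455000000)]))))) (.mul (.g 5) (.mul (.pp [(1,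
 695460)]) (.sq [(1, 83), (2, 27), (3, 78), (5, -96), (7, 100)]))))))) (.add (.mul (.g 10) (.add
 (.add (.mul (.g 6) (.add (.add (.mul (.g 6) (.add (.mul (.g 6) (.pp [(1, 706650000000)])) (.mul
 (.g 14) (.pp [(1, 535462500000)])))) (.mul (.g 8) (.add (.mul (.g 4) (.pp [(1, 630600000000)]))
 (.mul (.g 19) (.pp [(1, 571815000000)]))))) (.add (.mul (.g 7) (.mul (.g 14) (.pp [(1,
 1087980000000)]))) (.mul (.g 12) (.mul (.g 19) (.pp [(1, 1631850000000)])))))) (.add (.mul (.g 5)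
 (.add (.pp [(1, 42731100000)]) (.add (.mul (.g 8) (.add (.mul (.g 11) (.pp [(1, 22008300000)]))
 (.mul (.g 14) (.pp [(1, 41791800000)])))) (.mul (.g 7) (.mul (.g 7) (.pp [(1, 35065350000)]))))))
 (.mul (.g 12) (.add (.mul (.pp [(1, 31084500)]) (.sq [(1, 33), (2, -78), (3, -21), (5, 83), (7,
 100)])) (.mul (.g 8) (.mul (.g 10) (.pp [(1, 45300000000)]))))))) (.add (.add (.mul (.g 14) (.add
 (.pp [(1, 5493382500000)]) (.mul (.pp [(1, 92772750)]) (.sq [(1, -1), (2, 100), (3, 33), (5, 23),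
 (7, 12)])))) (.mul (.g 19) (.add (.pp [(1, 3341085000000)]) (.mul (.pp [(1, 30270000)]) (.sq [(1,
 57), (2, 81), (3, 100), (5, 85), (7, -27)]))))) (.add (.mul (.g 4) (.mul (.pp [(1, 108052500)])
 (.sq [(1, 75), (2, -100), (3, 95), (5, 95), (7, 21)]))) (.mul (.g 18) (.pp [(1,
 1498515000000)])))))) (.mul (.g 19) (.add (.add (.mul (.g 8) (.add (.mul (.g 8) (.add (.add (.mul
 (.g 5) (.pp [(1, 19333800000)])) (.mul (.g 6) (.pp [(1, 281220000000)]))) (.add (.mul (.g 7) (.pp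
 [(1, 548460000000)])) (.mul (.g 19) (.pp [(1, 97320000000)]))))) (.mul (.g 6) (.add (.mul (.g 4)
 (.pp [(1, 823230000000)])) (.mul (.g 6) (.pp [(1, 1647600000000)])))))) (.mul (.g 7) (.add (.mul
 (.g 7) (.add (.mul (.g 7) (.pp [(1, 1468425000000)])) (.mul (.g 12) (.pp [(1, 2967345000000)]))))
 (.mul (.g 19) (.mul (.g 19) (.pp [(1, 770505000000)])))))) (.add (.mul (.g 5) (.pp [(1,
 10234350000)])) (.add (.mul (.g 13) (.pp [(1, 290354250000)])) (.mul (.g 14) (.mul (.g 14) (.mul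
 (.g 16) (.pp [(1, 2905451250000)])))))))))) (.add (.mul (.g 18) (.add (.add (.mul (.g 6) (.add
 (.mul (.g 6) (.add (.mul (.g 4) (.pp [(1, 1203045000000)])) (.mul (.g 11) (.pp [(1,
 2127855000000)])))) (.mul (.g 12) (.mul (.g 14) (.pp [(1, 1077240000000)]))))) (.mul (.g 7) (.add
 (.mul (.g 8) (.add (.mul (.g 4) (.pp [(1, 3023115000000)])) (.mul (.g 13) (.pp [(1,
 56894250000)])))) (.mul (.g 5) (.mul (.g 7) (.pp [(1, 156450000)])))))) (.add (.mul (.g 12) (.mul
 (.pp [(1, 210936000)]) (.sq [(1, -41), (3, -14), (5, 3), (7, 100)]))) (.mul (.g 18) (.mul (.pp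
 [(1, 161335500)]) (.sq [(1, -27), (2, 100), (3, 40), (5, -40), (7, 20)])))))) (.add (.mul (.g 5)
 (.add (.add (.mul (.g 5) (.add (.mul (.g 5) (.mul (.g 5) (.pp [(1, 54027)]))) (.mul (.g 7) (.mul
 (.g 16) (.pp [(1, 559930500)]))))) (.mul (.g 8) (.mul (.g 12) (.mul (.g 14) (.pp [(1,
 1484850000)]))))) (.add (.mul (.g 11) (.mul (.pp [(1, 1147650)]) (.sq [(1, 19), (2, 22), (3, 13),
 (5, -50), (7, 100)]))) (.mul (.g 13) (.mul (.pp [(1, 2277)]) (.sq [(2, 51), (3, 100), (7,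
 -40)])))))) (.mul (.g 0) (.pp [(1, 1500000000)]))))) (.add (.add (.mul (.g 2) (.pp [(1,
 5000000000000)])) (.add (.mul (.g 3) (.pp [(1, 5000000000000)])) (.mul (.g 4) (.mul (.g 4) (.mul
 (.g 14) (.pp [(1, 1389967500000)])))))) (.add (.mul (.g 7) (.mul (.g 8) (.mul (.pp [(1,
 108862500)]) (.sq [(1, -67), (2, 13), (3, -55), (5, 100), (7, -1)])))) (.add (.mul (.g 11) (.mul
 (.g 13) (.mul (.pp [(1, 2115150)]) (.sq [(1, 31), (2, 8), (3, -27), (5, -48), (7, 100)])))) (.mul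
 (.g 17) (.pp [(1, 5000000000)])))))) (.pp [(1, 17987690433), (2, 150429900), (3, 151028250), (4,
 161072283), (5, 158364450), (6, 173932650), (7, 140410860), (8, 147881540), (9, 160317300), (10,
 140823150), (12, 109517760), (14, 148829040), (15, 124134300), (16, 144294000), (18, 136843800),
 (20, 130156660), (21, 179117520), (24, 162090000), (25, 144997500), (27, 144094950), (28,
 138307260), (30, 170475000), (35, 151821360), (36, 142366500), (40, 167046000), (42, 139744080),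
 (45, 149586750), (49, 148317300), (50, 137678200), (54, 159296250), (56, 146700000), (60,
 153580500), (63, 127289160), (70, 166550040), (75, 153016650), (81, 150828000), (84, 162957000),
 (90, 153770250), (98, 138955500), (100, 147517500), (105, 150185760), (125, 153174850), (126,
 166719000), (135, 151054500), (140, 172671000), (147, 157678500), (150, 161217750), (175,
 146007840), (189, 144192000), (196, 149704500), (210, 117582000), (225, 149751000), (245,
 159684000), (250, 162657750), (294, 170371500), (315, 150453000), (343, 163140000), (350,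
 125418000), (375, 146274000), (441, 139350000), (490, 156294000), (525, 165564000), (625,
 146112000), (686, 153000000), (735, 128437500), (875, 159624000), (1029, 139800000), (1225,
 143550000), (1715, 151800000), (2401, 145800000)])))))))
 (.rule 1 (.cut 1 [(2, 1), (5, -1)] (.add (.mul (.g 11) (.pp [(1, 1)])) (.mul (.g 1) (.pp [(1,
 1)]))) (.rule 2 (.cut 1 [(1, 3), (3, -2)] (.add (.add (.mul (.g 10) (.pp [(1, 1)])) (.mul (.g 15)
 (.pp [(1, 1)]))) (.add (.mul (.g 7) (.pp [(1, 1)])) (.mul (.g 9) (.pp [(1, 1)])))) (.rule 8 (.leaf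
 300000000 (.add (.add (.add (.add (.mul (.g 10) (.add (.add (.mul (.g 8) (.add (.add (.mul (.g 8)
 (.add (.pp [(1, 166293000000)]) (.add (.mul (.g 17) (.pp [(1, 220323000000)])) (.mul (.g 20) (.pp
 [(1, 822774000000)]))))) (.mul (.g 9) (.add (.pp [(1, 203544000000)]) (.add (.mul (.g 13) (.pp
 [(1, 517227000000)])) (.mul (.g 20) (.pp [(1, 820284000000)])))))) (.add (.mul (.g 10) (.add (.pp
 [(1, 488880000000)]) (.mul (.g 19) (.pp [(1, 450231000000)])))) (.add (.mul (.g 11) (.add (.mul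
 (.g 15) (.pp [(1, 683935500000)])) (.mul (.g 17) (.pp [(1, 97311000000)])))) (.mul (.g 6) (.pp
 [(1, 2133420000)])))))) (.mul (.g 5) (.add (.mul (.g 11) (.add (.mul (.g 6) (.pp [(1,
 7588320000)])) (.add (.mul (.g 10) (.pp [(1, 724725000000)])) (.mul (.g 15) (.pp [(1,
 370939500000)]))))) (.add (.mul (.g 9) (.pp [(1, 67578000000)])) (.mul (.g 17) (.pp [(1,
 819438000000)])))))) (.add (.mul (.g 10) (.add (.add (.mul (.g 6) (.pp [(1, 224220000)])) (.mul
 (.g 10) (.mul (.g 10) (.pp [(1, 472419000000)])))) (.add (.mul (.g 11) (.mul (.g 14) (.pp [(1,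
 10748250000)]))) (.mul (.g 13) (.mul (.g 19) (.pp [(1, 19995000000)])))))) (.add (.mul (.g 9)
 (.mul (.g 9) (.add (.pp [(1, 232590000000)]) (.mul (.g 7) (.pp [(1, 339699000000)]))))) (.mul (.g
 19) (.pp [(1, 1051554000000)])))))) (.add (.mul (.g 9) (.add (.add (.mul (.g 20) (.add (.mul (.g
 20) (.add (.pp [(1, 105234000000)]) (.add (.mul (.g 8) (.pp [(1, 485679000000)])) (.mul (.g 20)
 (.pp [(1, 90939000000)]))))) (.add (.mul (.g 5) (.mul (.g 9) (.pp [(1, 252768000000)]))) (.mul (.g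
 7) (.mul (.g 7) (.pp [(1, 246648000000)])))))) (.add (.mul (.g 9) (.add (.mul (.g 9) (.add (.mul
 (.g 17) (.pp [(1, 82104000000)])) (.mul (.g 19) (.pp [(1, 131562000000)])))) (.mul (.g 13) (.mul
 (.g 17) (.pp [(1, 77064000000)]))))) (.mul (.g 7) (.add (.mul (.g 8) (.mul (.g 19) (.pp [(1,
 627876000000)]))) (.mul (.g 15) (.pp [(1, 1065433500000)])))))) (.add (.mul (.g 11) (.mul (.g 11)
 (.mul (.g 11) (.pp [(1, 196566000000)])))) (.add (.mul (.g 17) (.pp [(1, 53469000000)])) (.mul (.g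
 19) (.pp [(1, 267888000000)])))))) (.mul (.g 5) (.add (.add (.mul (.g 7) (.add (.mul (.g 7) (.add
 (.mul (.g 7) (.pp [(1, 329163000000)])) (.mul (.g 8) (.pp [(1, 449463000000)])))) (.mul (.g 13)
 (.pp [(1, 2672115000000)])))) (.mul (.g 6) (.add (.pp [(1, 8348100000)]) (.mul (.pp [(1, 120222)])
 (.sq [(1, 55), (2, -100), (3, -14), (5, -42), (7, 92)]))))) (.add (.mul (.g 8) (.mul (.g 8) (.add
 (.mul (.g 8) (.pp [(1, 164598000000)])) (.mul (.g 17) (.pp [(1, 402759000000)]))))) (.add (.mul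
 (.g 15) (.pp [(1, 192027000000)])) (.mul (.g 20) (.pp [(1, 404187000000)])))))))) (.add (.add
 (.mul (.g 11) (.add (.add (.mul (.g 7) (.add (.mul (.g 7) (.add (.mul (.g 6) (.pp [(1,
 4302210000)])) (.mul (.g 15) (.pp [(1, 295006500000)])))) (.mul (.g 11) (.mul (.g 17) (.pp [(1,
 153936000000)]))))) (.mul (.g 8) (.mul (.g 8) (.add (.mul (.g 15) (.pp [(1, 227545500000)])) (.mul
 (.g 16) (.pp [(1, 133422000000)])))))) (.add (.mul (.g 19) (.add (.mul (.pp [(1, 95536500)]) (.sq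
 [(1, -55), (2, 74), (3, 3), (5, 4), (7, 100)])) (.mul (.pp [(1, 32037300)]) (.sq [(1, 5), (2,
 -39), (3, -60), (5, -1), (7, 100)])))) (.add (.mul (.g 6) (.pp [(1, 8842320000)])) (.mul (.g 15)
 (.pp [(1, 176647500000)])))))) (.mul (.g 19) (.add (.add (.mul (.pp [(1, 14055000)]) (.sq [(2,
 46), (3, 85), (5, 85), (7, 100)])) (.mul (.g 19) (.add (.mul (.pp [(1, 10340400)]) (.sq [(1, -73),
 (2, 93), (3, -12), (5, -12), (7, 100)])) (.add (.mul (.pp [(1, 10798800)]) (.sq [(1, -22), (2,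
 -44), (3, -27), (5, -49), (7, 100)])) (.mul (.pp [(1, 21615900)]) (.sq [(1, 7), (2, -13), (3,
 -16), (5, 58), (7, 100)])))))) (.add (.mul (.g 8) (.mul (.pp [(1, 15997200)]) (.sq [(1, -34), (2,
 1), (3, -100), (5, 63), (7, 91)]))) (.add (.mul (.g 12) (.mul (.pp [(1, 14361600)]) (.sq [(1, 70),
 (2, 57), (3, 100), (7, 35)]))) (.mul (.g 14) (.mul (.pp [(1, 588645)]) (.sq [(1, -12), (2, -1),
 (3, -23), (5, 45), (7, 100)])))))))) (.add (.mul (.g 8) (.add (.mul (.g 15) (.add (.mul (.g 13)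
 (.pp [(1, 590079000000)])) (.mul (.g 14) (.pp [(1, 37908300000)])))) (.mul (.g 6) (.mul (.pp [(1,
 221565)]) (.sq [(1, -11), (2, 1), (3, 100), (5, -70)]))))) (.mul (.g 12) (.add (.mul (.g 14) (.mul
 (.pp [(1, 231945)]) (.sq [(1, 16), (2, -33), (3, 5), (5, 100), (7, -55)]))) (.mul (.g 17) (.mul
 (.pp [(1, 1157400)]) (.sq [(1, 36), (2, -67), (3, -67), (5, -22), (7, 100)])))))))) (.add (.add
 (.mul (.g 20) (.add (.mul (.g 15) (.pp [(1, 120264000000)])) (.mul (.g 20) (.pp [(1,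
 181281000000)])))) (.add (.mul (.g 0) (.pp [(1, 300000000)])) (.mul (.g 2) (.pp [(1,
 1000000000000)])))) (.add (.add (.mul (.g 4) (.pp [(1, 1000000000000)])) (.mul (.g 6) (.mul (.g 7)
 (.mul (.g 7) (.mul (.g 17) (.pp [(1, 2218530000)])))))) (.add (.mul (.g 13) (.mul (.g 13) (.mul
 (.pp [(1, 13729500)]) (.sq [(1, 2), (2, -37), (3, -35), (5, 100), (7, 38)])))) (.mul (.g 18) (.pp
 [(1, 1000000000)])))))) (.pp [(1, 3775899900), (2, 31651770), (3, 29082495), (4, 30249870), (5,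
 29509920), (6, 27884790), (7, 26020080), (8, 30645845), (9, 30946890), (10, 32201790), (12,
 28742085), (14, 36411870), (15, 31997190), (16, 32076600), (18, 29434617), (20, 24180855), (21,
 37960650), (24, 28131600), (25, 31658025), (27, 31263158), (28, 28059645), (30, 35389632), (35,
 30885600), (36, 29632500), (40, 28906800), (42, 18658038), (45, 28815093), (49, 34204725), (50,
 30948048), (54, 29421000), (56, 30019200), (60, 31821900), (63, 26645637), (70, 26030004), (75,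
 27777327), (81, 30266100), (84, 31398300), (90, 28581000), (98, 26086773), (100, 34956600), (105,
 28976796), (125, 27689100), (126, 32530200), (135, 30070500), (140, 28256100), (147, 21669027),
 (150, 25100400), (175, 31304175), (189, 30039900), (196, 31695000), (210, 33205800), (225,
 30209700), (245, 28055475), (250, 25560000), (294, 30967800), (315, 28688700), (343, 27210000),
 (350, 31456200), (375, 32340900), (441, 33353700), (490, 27371400), (525, 27993300), (625,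
 33000000), (686, 30300000), (735, 34014600), (875, 30022500), (1029, 34213200), (1225, 30550500),
 (1715, 31800000), (2401, 30000000)])))))))))
 (.split [(2, 1), (3, -1)]
 (.split [(2, 1), (5, -1)]
 (.rule 0 (.rule 2 (.cut 9 [(1, -7), (3, 50)] (.add (.mul (.g 6) (.pp [(1, 310)])) (.add (.mul (.g
 12) (.pp [(1, 7)])) (.mul (.g 2) (.pp [(1, 140)])))) (.rule 7 (.leaf 1200000000 (.add (.add (.add
 (.add (.mul (.g 10) (.add (.add (.mul (.g 20) (.add (.add (.mul (.g 5) (.add (.mul (.g 8) (.pp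
 [(1, 1558932000000)])) (.add (.mul (.g 9) (.pp [(1, 242208000000)])) (.mul (.g 20) (.pp [(1,
 703164000000)]))))) (.mul (.g 4) (.add (.mul (.g 8) (.pp [(1, 5695740000000)])) (.mul (.g 16) (.pp
 [(1, 42780000000)]))))) (.add (.mul (.g 9) (.add (.mul (.g 16) (.pp [(1, 937063200000)])) (.mul
 (.g 19) (.pp [(1, 580572000000)])))) (.add (.mul (.g 6) (.mul (.g 20) (.pp [(1, 14979360000)])))
 (.mul (.g 8) (.mul (.g 8) (.pp [(1, 2204388000000)]))))))) (.add (.mul (.g 10) (.add (.add (.mul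
 (.pp [(1, 77738400)]) (.sq [(1, -10), (2, -22), (3, -9), (5, -1), (7, 100)])) (.mul (.g 4) (.add
 (.pp [(1, 578916000000)]) (.mul (.g 9) (.pp [(1, 667908000000)]))))) (.add (.mul (.g 8) (.mul (.g
 11) (.pp [(1, 5098992000000)]))) (.mul (.g 19) (.mul (.g 19) (.pp [(1, 2822496000000)])))))) (.mul
 (.g 8) (.add (.mul (.g 4) (.mul (.g 11) (.pp [(1, 6317148000000)]))) (.add (.mul (.g 6) (.mul (.g
 19) (.pp [(1, 15344040000)]))) (.mul (.g 14) (.mul (.g 16) (.pp [(1, 5779080000)])))))))) (.add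
 (.add (.mul (.g 7) (.add (.mul (.pp [(1, 48717600)]) (.sq [(1, -39), (2, 15), (3, -14), (5, -18),
 (7, 100)])) (.mul (.g 19) (.mul (.g 19) (.pp [(1, 684936000000)]))))) (.mul (.g 9) (.mul (.pp [(1,
 1543200)]) (.sq [(1, -28), (2, 10), (3, -12), (5, -27), (7, 100)])))) (.add (.mul (.g 17) (.mul
 (.pp [(1, 140460000)]) (.sq [(1, -39), (2, 8), (3, -22), (5, -10), (7, 100)]))) (.mul (.g 19) (.pp
 [(1, 4694940000000)])))))) (.add (.mul (.g 11) (.add (.add (.add (.mul (.g 5) (.add (.add (.pp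
 [(1, 476484000000)]) (.mul (.pp [(1, 1366656000)]) (.sq [(1, -11), (2, 31), (3, 50), (5, 11), (7,
 -13)]))) (.add (.mul (.g 8) (.add (.mul (.g 16) (.pp [(1, 110004000000)])) (.mul (.g 20) (.pp [(1,
 30264000000)])))) (.add (.mul (.g 11) (.mul (.g 14) (.pp [(1, 64645200000)]))) (.mul (.g 20) (.pp
 [(1, 1450500000000)])))))) (.mul (.g 7) (.add (.mul (.g 16) (.add (.pp [(1, 132444000000)]) (.add
 (.mul (.g 7) (.pp [(1, 607212000000)])) (.mul (.g 20) (.pp [(1, 44690400000)]))))) (.mul (.g 11)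
 (.add (.mul (.g 8) (.pp [(1, 1030356000000)])) (.mul (.g 11) (.pp [(1, 1200180000000)])))))))
 (.add (.mul (.g 8) (.mul (.g 8) (.add (.mul (.g 8) (.pp [(1, 2497884000000)])) (.mul (.g 16) (.pp
 [(1, 451020000000)]))))) (.mul (.g 14) (.add (.pp [(1, 54546000000)]) (.mul (.pp [(1, 1075980)])
 (.sq [(1, 44), (2, -47), (3, 59), (5, 100), (7, -89)])))))) (.add (.add (.mul (.g 19) (.add (.mul
 (.pp [(1, 4910400)]) (.sq [(1, 82), (2, -100), (3, -69), (5, 26), (7, 15)])) (.mul (.pp [(1,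
 491671200)]) (.sq [(1, -55), (2, 74), (3, 3), (5, 4), (7, 100)])))) (.mul (.g 9) (.mul (.g 9)
 (.mul (.g 9) (.pp [(1, 314616000000)]))))) (.add (.mul (.g 11) (.mul (.pp [(1, 37755600)]) (.sq
 [(2, 21), (3, -31), (5, 57), (7, 100)]))) (.mul (.g 13) (.mul (.pp [(1, 19797600)]) (.sq [(1, 10),
 (2, -15), (3, -9), (5, 100), (7, 72)]))))))) (.mul (.g 19) (.add (.add (.mul (.pp [(1,
 314770800)]) (.sq [(2, 13), (3, 100), (5, -53), (7, 43)])) (.add (.mul (.g 8) (.add (.mul (.pp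
 [(1, 15862800)]) (.sq [(1, -45), (2, -19), (3, -100), (5, 70), (7, 79)])) (.add (.mul (.g 19)
 (.add (.mul (.g 16) (.pp [(1, 759012000000)])) (.mul (.g 19) (.pp [(1, 3304668000000)])))) (.mul
 (.g 4) (.mul (.g 20) (.pp [(1, 697716000000)])))))) (.mul (.g 5) (.add (.pp [(1, 3004020000000)])
 (.mul (.g 9) (.mul (.g 9) (.pp [(1, 437112000000)]))))))) (.add (.mul (.g 4) (.pp [(1,
 2576880000000)])) (.add (.mul (.g 6) (.pp [(1, 17436480000)])) (.mul (.g 16) (.mul (.pp [(1,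
 13938000)]) (.sq [(1, -23), (2, -16), (3, -79), (5, 56), (7, 100)]))))))))) (.add (.mul (.g 20)
 (.add (.add (.mul (.g 8) (.add (.mul (.g 8) (.add (.mul (.g 8) (.pp [(1, 1395612000000)])) (.mul
 (.g 16) (.pp [(1, 64800000000)])))) (.mul (.g 9) (.mul (.g 20) (.pp [(1, 1008444000000)])))))
 (.mul (.g 5) (.mul (.g 5) (.mul (.g 12) (.pp [(1, 776364000000)]))))) (.add (.mul (.g 9) (.mul (.g
 20) (.pp [(1, 244536000000)]))) (.add (.mul (.g 13) (.mul (.pp [(1, 62919600)]) (.sq [(1, -46),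
 (2, -31), (3, -8), (5, 77), (7, 100)]))) (.mul (.g 16) (.pp [(1, 1010035200000)])))))) (.add (.mul
 (.g 4) (.add (.add (.mul (.g 4) (.add (.pp [(1, 51984000000)]) (.mul (.g 9) (.mul (.g 9) (.pp [(1,
 787428000000)]))))) (.mul (.g 14) (.add (.mul (.pp [(1, 3438300)]) (.sq [(1, 100), (2, 53), (3,
 -13), (5, -86), (7, 59)])) (.mul (.g 8) (.pp [(1, 442599000000)]))))) (.add (.mul (.g 5) (.mul (.g
 5) (.pp [(1, 3611136000000)]))) (.mul (.g 12) (.mul (.pp [(1, 716217600)]) (.sq [(1, -25), (2,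
 14), (3, 13), (5, -4), (7, 25)])))))) (.mul (.g 7) (.add (.mul (.g 9) (.mul (.pp [(1, 26226000)])
 (.sq [(1, -6), (2, -19), (3, 10), (5, -34), (7, 100)]))) (.mul (.g 16) (.mul (.g 16) (.mul (.g 16)
 (.pp [(1, 13125504000)]))))))))) (.add (.add (.mul (.g 14) (.mul (.g 14) (.add (.pp [(1,
 1031640000)]) (.mul (.pp [(1, 129099)]) (.sq [(1, -63), (2, 55), (3, -38), (5, 40), (7, 100)])))))
 (.add (.mul (.g 0) (.pp [(1, 2400000000)])) (.mul (.g 2) (.pp [(1, 4000000000000)])))) (.add (.mul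
 (.g 3) (.pp [(1, 4000000000000)])) (.add (.mul (.g 5) (.mul (.g 12) (.mul (.pp [(1, 6536400)])
 (.sq [(1, -42), (2, 44), (3, -66), (5, 25), (7, 100)])))) (.mul (.g 18) (.pp [(1,
 4000000000)])))))) (.pp [(1, 1971901509), (2, 105170670), (3, 108020028), (4, 139601025), (5,
 125034120), (6, 168065940), (7, 126902760), (8, 119315320), (9, 126287904), (10, 99266400), (12,
 88634520), (14, 129838560), (15, 108007680), (16, 119724000), (18, 86133120), (20, 88653900), (21,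
 138595560), (24, 126751200), (25, 127016400), (27, 115697760), (28, 123488880), (30, 136933800),
 (35, 116810400), (36, 138318000), (40, 122617200), (42, 85254240), (45, 139918260), (49,
 95443020), (50, 168374400), (54, 117379200), (56, 128959200), (60, 110803200), (63, 99348000),
 (70, 129757800), (75, 113116800), (81, 131149200), (84, 95744400), (90, 128221200), (98,
 139562880), (100, 134334000), (105, 102347400), (125, 101613600), (126, 152572800), (135,
 105994800), (140, 112759200), (147, 121280400), (150, 114026400), (175, 108108000), (189,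
 125130000), (196, 119054400), (210, 149131200), (225, 116248800), (245, 116106900), (250,
 93801600), (294, 101916000), (315, 106183200), (343, 136849200), (350, 106596000), (375,
 123036000), (441, 128684400), (490, 112016400), (525, 135074400), (625, 132802800), (686,
 120120000), (735, 133402800), (875, 126199200), (1029, 104854800), (1225, 129987600), (1715,
 115680000), (2401, 120000000)])))))))
 (.rule 0 (.rule 3 (.cut 2 [(1, -7), (3, 50)] (.add (.mul (.g 6) (.pp [(1, 65)])) (.mul (.g 14)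
 (.pp [(1, 7)]))) (.rule 7 (.leaf 300000000 (.add (.add (.add (.add (.mul (.g 19) (.add (.add (.add
 (.mul (.g 10) (.add (.add (.pp [(1, 217155000000)]) (.add (.mul (.g 10) (.add (.add (.mul (.g 8)
 (.pp [(1, 2865813000000)])) (.mul (.g 11) (.pp [(1, 926646000000)]))) (.add (.mul (.g 19) (.pp
 [(1, 798726000000)])) (.mul (.g 20) (.pp [(1, 1803999000000)]))))) (.mul (.g 19) (.add (.pp [(1,
 442875000000)]) (.add (.mul (.g 7) (.pp [(1, 995499000000)])) (.mul (.g 20) (.pp [(1,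
 1172745000000)]))))))) (.add (.mul (.g 4) (.mul (.g 9) (.pp [(1, 207642000000)]))) (.add (.mul (.g
 7) (.mul (.g 17) (.pp [(1, 605601000000)]))) (.mul (.g 8) (.mul (.g 16) (.pp [(1,
 58606200000)]))))))) (.mul (.g 20) (.add (.add (.pp [(1, 355233000000)]) (.mul (.pp [(1,
 2499600)]) (.sq [(1, 26), (2, 22), (3, -85), (5, 100), (7, -96)]))) (.add (.mul (.pp [(1,
 993600)]) (.sq [(1, -9), (2, 77), (3, 33), (5, 100), (7, 45)])) (.add (.mul (.g 9) (.add (.mul (.g
 12) (.pp [(1, 121251000000)])) (.mul (.g 17) (.pp [(1, 95754000000)])))) (.mul (.g 4) (.mul (.g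
 19) (.pp [(1, 1219944000000)])))))))) (.add (.mul (.g 5) (.add (.mul (.pp [(1, 36309900)]) (.sq
 [(1, 62), (2, -55), (3, 100), (5, -72), (7, 84)])) (.add (.mul (.pp [(1, 3150300)]) (.sq [(1, 19),
 (2, 100), (3, 69), (5, 93), (7, 38)])) (.mul (.g 8) (.mul (.g 9) (.pp [(1, 1582311000000)]))))))
 (.mul (.g 19) (.add (.mul (.pp [(1, 13442100)]) (.sq [(1, -29), (2, 51), (3, -34), (5, 100), (7,
 -7)])) (.add (.mul (.pp [(1, 6715800)]) (.sq [(1, -14), (2, 31), (3, -100), (5, 65), (7, 60)]))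
 (.mul (.pp [(1, 55813800)]) (.sq [(1, -100), (2, -93), (3, 100), (5, 100), (7, 37)]))))))) (.add
 (.add (.mul (.g 6) (.mul (.g 6) (.add (.mul (.g 8) (.pp [(1, 121409400)])) (.mul (.g 16) (.pp [(1,
 94560)]))))) (.mul (.g 4) (.mul (.pp [(1, 55342500)]) (.sq [(1, 12), (2, -77), (3, -77), (5, 100),
 (7, -51)])))) (.add (.mul (.g 13) (.mul (.pp [(1, 88410300)]) (.sq [(1, -41), (2, -40), (3, 100),
 (5, 33), (7, -2)]))) (.mul (.g 15) (.pp [(1, 87583500000)])))))) (.add (.mul (.g 20) (.add (.add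
 (.mul (.g 10) (.add (.add (.mul (.pp [(1, 95862000)]) (.sq [(1, -12), (2, -11), (3, 3), (5, 1),
 (7, 100)])) (.mul (.g 20) (.add (.mul (.g 10) (.pp [(1, 741207000000)])) (.add (.mul (.g 15) (.pp
 [(1, 650059500000)])) (.mul (.g 17) (.pp [(1, 169185000000)])))))) (.add (.mul (.g 5) (.mul (.g 5)
 (.pp [(1, 209538000000)]))) (.add (.mul (.g 6) (.mul (.g 9) (.pp [(1, 1958280000)]))) (.mul (.g
 11) (.mul (.g 15) (.pp [(1, 866956500000)]))))))) (.add (.mul (.g 15) (.add (.add (.pp [(1,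
 217234500000)]) (.mul (.pp [(1, 975900)]) (.sq [(2, 100), (3, -70), (5, 91), (7, 64)]))) (.add
 (.mul (.g 12) (.mul (.g 15) (.pp [(1, 153460500000)]))) (.mul (.g 13) (.mul (.g 14) (.pp [(1,
 5414850000)])))))) (.mul (.g 9) (.add (.mul (.g 9) (.add (.mul (.g 7) (.pp [(1, 182601000000)]))
 (.mul (.g 8) (.pp [(1, 316434000000)])))) (.mul (.g 11) (.mul (.g 16) (.pp [(1,
 195034200000)]))))))) (.add (.add (.mul (.g 14) (.add (.mul (.pp [(1, 6800055)]) (.sq [(1, 37),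
 (2, 52), (3, -3), (5, -54), (7, 100)])) (.mul (.pp [(1, 351900)]) (.sq [(1, 40), (2, 88), (3, -3),
 (5, 100), (7, 2)])))) (.mul (.g 20) (.add (.pp [(1, 65253000000)]) (.mul (.pp [(1, 10994400)])
 (.sq [(1, -13), (2, 61), (3, 100), (5, 59), (7, 66)]))))) (.add (.mul (.g 4) (.mul (.pp [(1,
 2535000)]) (.sq [(1, 3), (2, 20), (3, 18), (5, -13), (7, -3)]))) (.mul (.g 16) (.pp [(1,
 441249600000)])))))) (.mul (.g 16) (.add (.add (.mul (.g 4) (.add (.mul (.pp [(1, 2747760)]) (.sq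
 [(1, -5), (2, -86), (3, -73), (5, 100)])) (.add (.mul (.g 4) (.mul (.g 4) (.pp [(1,
 64873800000)]))) (.mul (.g 8) (.mul (.g 10) (.pp [(1, 227634000000)])))))) (.mul (.g 11) (.add
 (.pp [(1, 18345600000)]) (.add (.mul (.g 7) (.mul (.g 7) (.pp [(1, 246703200000)]))) (.mul (.g 9)
 (.mul (.g 9) (.pp [(1, 54708000000)]))))))) (.add (.mul (.g 10) (.mul (.pp [(1, 199440)]) (.sq
 [(1, -2), (2, -11), (3, -35), (5, -8), (7, 100)]))) (.add (.mul (.g 16) (.mul (.g 16) (.mul (.g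
 16) (.pp [(1, 1843896000)])))) (.mul (.g 17) (.mul (.pp [(1, 517740)]) (.sq [(1, -51), (2, 9), (3,
 100), (5, -5), (7, -2)]))))))))) (.add (.mul (.g 11) (.add (.mul (.g 5) (.add (.mul (.pp [(1,
 27752700)]) (.sq [(1, 3), (2, 100), (3, 20), (5, -10), (7, -85)])) (.mul (.g 5) (.mul (.g 7) (.pp
 [(1, 691707000000)]))))) (.add (.mul (.g 10) (.add (.mul (.g 4) (.mul (.g 4) (.pp [(1,
 67362000000)]))) (.mul (.g 10) (.mul (.g 11) (.pp [(1, 333915000000)]))))) (.mul (.g 15) (.mul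
 (.pp [(1, 14482950)]) (.sq [(1, 75), (2, -100), (3, 95), (5, 95), (7, 21)])))))) (.add (.mul (.g
 14) (.add (.mul (.g 14) (.add (.mul (.pp [(1, 77172)]) (.sq [(1, 86), (2, -100), (3, 53), (5,
 -39), (7, -97)])) (.mul (.g 15) (.pp [(1, 1594586250)])))) (.mul (.g 4) (.mul (.pp [(1, 2252685)])
 (.sq [(1, 71), (2, -29), (3, -31), (5, -48), (7, 100)]))))) (.mul (.g 8) (.add (.mul (.g 4) (.mul
 (.g 8) (.mul (.g 15) (.pp [(1, 253920000000)])))) (.mul (.g 10) (.mul (.pp [(1, 45664200)]) (.sq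
 [(1, -6), (2, -14), (3, -31), (5, -6), (7, 100)])))))))) (.add (.add (.mul (.g 0) (.pp [(1,
 600000000)])) (.add (.mul (.g 2) (.pp [(1, 1000000000000)])) (.mul (.g 3) (.pp [(1,
 1000000000000)])))) (.add (.add (.mul (.g 5) (.mul (.g 5) (.mul (.pp [(1, 6979800)]) (.sq [(1,
 46), (2, -1), (3, 90), (5, -100), (7, 21)])))) (.mul (.g 6) (.mul (.g 13) (.mul (.pp [(1,
 195318)]) (.sq [(1, -52), (2, -31), (3, 100), (5, 30), (7, -1)]))))) (.add (.mul (.g 12) (.mul (.g
 12) (.mul (.pp [(1, 1733100)]) (.sq [(1, 100), (2, -63), (3, 74), (5, -70), (7, -92)])))) (.mul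
 (.g 18) (.pp [(1, 1000000000)])))))) (.pp [(1, 196324683), (2, 27104403), (3, 36574650), (4,
 34758138), (5, 40762698), (6, 25078452), (7, 36091608), (8, 31134377), (9, 23038587), (10,
 30445152), (12, 29569068), (14, 38957088), (15, 19355928), (16, 29184600), (18, 23881575), (20,
 31126563), (21, 19706556), (24, 29574900), (25, 21877008), (27, 38727630), (28, 30963084), (30,
 39873990), (35, 15130200), (36, 22681800), (40, 29382000), (42, 21046416), (45, 32209140), (49,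
 28170732), (50, 27483120), (54, 38223750), (56, 27401400), (60, 33729000), (63, 38021460), (70,
 18815736), (75, 35607150), (81, 25059300), (84, 34073700), (90, 34691850), (98, 23335962), (100,
 29959500), (105, 42543000), (125, 31654010), (126, 30738900), (135, 29788500), (140, 31350300),
 (147, 33233868), (150, 21608550), (175, 44655060), (189, 27254700), (196, 26448900), (210,
 23223600), (225, 25541100), (245, 31276188), (250, 30097050), (294, 41427450), (315, 36964500),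
 (343, 30595200), (350, 35489100), (375, 33668400), (441, 24455700), (490, 30541050), (525,
 20191200), (625, 29828700), (686, 32658900), (735, 31613700), (875, 27409500), (1029, 28723800),
 (1225, 26982000), (1715, 30710100), (2401, 29364900)]))))))))
 (.rule 1 (.cut 1 [(2, 1), (5, -1)] (.add (.mul (.g 1) (.pp [(1, 1)])) (.mul (.g 11) (.pp [(1,
 1)]))) (.rule 2 (.cut 9 [(1, -7), (3, 50)] (.add (.add (.mul (.g 5) (.pp [(1, 310)])) (.mul (.g 3)
 (.pp [(1, 310)]))) (.add (.mul (.g 12) (.pp [(1, 7)])) (.mul (.g 1) (.pp [(1, 140)])))) (.rule 7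
 (.leaf 60000000 (.add (.add (.add (.add (.mul (.g 10) (.add (.add (.add (.mul (.g 8) (.add (.add
 (.mul (.g 8) (.add (.mul (.g 19) (.pp [(1, 139220400000)])) (.mul (.g 20) (.pp [(1,
 55153800000)])))) (.add (.mul (.g 10) (.add (.mul (.g 13) (.pp [(1, 150816600000)])) (.mul (.g 20)
 (.pp [(1, 47739600000)])))) (.mul (.g 6) (.mul (.g 6) (.pp [(1, 6416220)]))))) (.add (.mul (.g 9)
 (.mul (.g 14) (.pp [(1, 12750000)]))) (.add (.mul (.g 15) (.mul (.g 17) (.pp [(1, 48609600000)])))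
 (.mul (.g 16) (.pp [(1, 13407600000)])))))) (.mul (.g 5) (.add (.add (.mul (.g 6) (.add (.pp [(1,
 2397444000)]) (.mul (.g 19) (.pp [(1, 1679016000)])))) (.mul (.g 9) (.add (.mul (.g 15) (.pp [(1,
 39087900000)])) (.mul (.g 20) (.pp [(1, 100815000000)]))))) (.add (.mul (.g 10) (.add (.mul (.g
 14) (.pp [(1, 3329520000)])) (.mul (.g 20) (.pp [(1, 121876800000)])))) (.mul (.g 11) (.mul (.g
 15) (.pp [(1, 124275300000)]))))))) (.add (.mul (.g 9) (.add (.add (.pp [(1, 10705800000)]) (.mul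
 (.g 9) (.mul (.g 13) (.pp [(1, 106356000000)])))) (.add (.mul (.g 14) (.mul (.g 15) (.pp [(1,
 228900000)]))) (.mul (.g 16) (.mul (.g 20) (.pp [(1, 12877560000)])))))) (.mul (.g 10) (.add (.mul
 (.pp [(1, 2289180)]) (.sq [(1, 3), (2, -44), (3, -53), (5, 5), (7, 100)])) (.add (.mul (.g 10)
 (.mul (.g 10) (.pp [(1, 68523000000)]))) (.mul (.g 13) (.mul (.g 14) (.pp [(1,
 2956170000)])))))))) (.add (.add (.mul (.g 14) (.add (.pp [(1, 748470000)]) (.mul (.pp [(1,
 154857)]) (.sq [(1, 3), (2, -2), (3, 58), (5, 100), (7, -62)])))) (.mul (.g 16) (.mul (.g 16)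
 (.add (.pp [(1, 2138016000)]) (.mul (.g 16) (.pp [(1, 729748800)])))))) (.add (.mul (.g 19) (.add
 (.pp [(1, 114763800000)]) (.mul (.g 17) (.mul (.g 17) (.pp [(1, 218947800000)]))))) (.mul (.g 13)
 (.mul (.pp [(1, 1723200)]) (.sq [(1, 5), (2, -1), (3, 67), (5, 100), (7, -64)]))))))) (.add (.mul
 (.g 7) (.add (.add (.mul (.g 7) (.add (.add (.mul (.g 7) (.add (.mul (.g 5) (.pp [(1,
 92208600000)])) (.add (.mul (.g 6) (.pp [(1, 1484646000)])) (.mul (.g 19) (.pp [(1,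
 88894800000)]))))) (.mul (.g 9) (.add (.mul (.g 5) (.pp [(1, 20502600000)])) (.mul (.g 20) (.pp
 [(1, 6000000)]))))) (.add (.mul (.g 6) (.mul (.g 16) (.pp [(1, 71967600)]))) (.add (.mul (.g 11)
 (.mul (.g 15) (.pp [(1, 20496600000)]))) (.mul (.g 19) (.mul (.g 20) (.pp [(1,
 28194600000)]))))))) (.mul (.g 5) (.add (.add (.pp [(1, 228060000000)]) (.mul (.g 9) (.add (.mul
 (.g 8) (.pp [(1, 179846400000)])) (.mul (.g 19) (.pp [(1, 170766600000)]))))) (.add (.mul (.g 11)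
 (.mul (.g 11) (.pp [(1, 41955600000)]))) (.mul (.g 13) (.pp [(1, 402940800000)])))))) (.add (.mul
 (.g 6) (.add (.mul (.g 8) (.mul (.g 15) (.pp [(1, 161310000)]))) (.mul (.g 9) (.mul (.g 9) (.pp
 [(1, 1798134000)]))))) (.add (.mul (.g 9) (.mul (.g 15) (.pp [(1, 299235000000)]))) (.mul (.g 11)
 (.mul (.g 11) (.mul (.g 11) (.pp [(1, 5928600000)])))))))) (.mul (.g 9) (.add (.add (.mul (.g 9)
 (.add (.mul (.g 9) (.add (.add (.mul (.g 5) (.pp [(1, 6000000)])) (.mul (.g 8) (.pp [(1,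
 149976000000)]))) (.add (.mul (.g 19) (.pp [(1, 149988000000)])) (.mul (.g 20) (.pp [(1,
 6000000)]))))) (.mul (.g 6) (.add (.mul (.g 11) (.pp [(1, 1773066000)])) (.mul (.g 17) (.pp [(1,
 16620000)])))))) (.mul (.g 5) (.pp [(1, 208269600000)]))) (.add (.mul (.g 6) (.mul (.g 11) (.mul
 (.g 11) (.pp [(1, 506652000)])))) (.mul (.g 15) (.pp [(1, 124740000000)]))))))) (.add (.mul (.g 8)
 (.add (.add (.mul (.g 8) (.mul (.g 16) (.add (.mul (.g 12) (.pp [(1, 3767640000)])) (.mul (.g 16)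
 (.pp [(1, 3134112000)]))))) (.mul (.g 19) (.add (.mul (.pp [(1, 10669680)]) (.sq [(1, 33), (2,
 -31), (3, -43), (5, 8), (7, 100)])) (.mul (.g 19) (.mul (.g 19) (.pp [(1, 32229000000)]))))))
 (.add (.mul (.g 5) (.mul (.g 12) (.pp [(1, 57755400000)]))) (.mul (.g 13) (.mul (.g 15) (.pp [(1,
 255368700000)])))))) (.add (.mul (.g 19) (.add (.add (.mul (.pp [(1, 2031060)]) (.sq [(2, 46), (3,
 85), (5, 85), (7, 100)])) (.mul (.g 5) (.mul (.pp [(1, 1167780)]) (.sq [(1, -21), (2, 21), (3,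
 -87), (5, 44), (7, 100)])))) (.add (.mul (.g 11) (.mul (.pp [(1, 15006780)]) (.sq [(1, -55), (2,
 74), (3, 3), (5, 4), (7, 100)]))) (.mul (.g 19) (.mul (.pp [(1, 8857920)]) (.sq [(1, -73), (2,
 93), (3, -12), (5, -12), (7, 100)])))))) (.mul (.g 6) (.add (.mul (.g 14) (.pp [(1, 14613000)]))
 (.mul (.g 16) (.pp [(1, 533216400)]))))))) (.add (.add (.mul (.g 0) (.pp [(1, 120000000)])) (.add
 (.mul (.g 2) (.pp [(1, 200000000000)])) (.mul (.g 4) (.pp [(1, 200000000000)])))) (.add (.add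
 (.mul (.g 5) (.mul (.g 16) (.pp [(1, 126140880000)]))) (.mul (.g 14) (.mul (.g 20) (.pp [(1,
 747210000)])))) (.add (.mul (.g 15) (.pp [(1, 85716300000)])) (.mul (.g 18) (.pp [(1,
 200000000)])))))) (.pp [(1, 12084061020), (2, 5707440), (3, 6391920), (4, 6157320), (5, 6189360),
 (6, 6790680), (7, 6532677), (8, 5744260), (9, 5036820), (10, 6309840), (12, 5388300), (14,
 5340504), (15, 5374200), (16, 6000000), (18, 5663520), (20, 5683200), (21, 4425864), (24,
 6481740), (25, 5808540), (27, 6685780), (28, 5718732), (30, 6021600), (35, 5926020), (36,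
 6261180), (40, 6000000), (42, 7055184), (45, 6382920), (49, 5236464), (50, 6238560), (54,
 5988360), (56, 6193500), (60, 5728800), (63, 7712892), (70, 6373200), (75, 5996340), (81,
 6024660), (84, 5634060), (90, 6334560), (98, 6900024), (100, 6000000), (105, 5987640), (125,
 6000000), (126, 5886840), (135, 5855520), (140, 6221040), (147, 7345584), (150, 5869440), (175,
 6023940), (189, 5448420), (196, 5837760), (210, 5369280), (225, 6141120), (245, 6149640), (250,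
 6000000), (294, 6227520), (315, 6706800), (343, 6356772), (350, 5065440), (375, 6000000), (441,
 4942980), (490, 6472320), (525, 7196640), (625, 6000000), (686, 5505360), (735, 5042520), (875,
 6600000), (1029, 5882640), (1225, 5326020), (1715, 6194640), (2401, 6000000)]))))))))))
 (P_c2 ++ xP_G_F7) = true := by decide +kernel

theorem t_G_F8_c2 : chk ROp gP_G_F8
 (.split [(1, -69), (3, 100)]
 (.rule 5 (.rule 6 (.cut 1 [(1, 3), (3, -2)] (.add (.add (.mul (.g 8) (.pp [(1, 1)])) (.mul (.g 13)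
 (.pp [(1, 1)]))) (.add (.mul (.g 5) (.pp [(1, 1)])) (.mul (.g 7) (.pp [(1, 1)])))) (.rule 8 (.leaf
 60000000 (.add (.add (.add (.add (.mul (.g 9) (.add (.add (.mul (.g 7) (.add (.add (.mul (.g 8)
 (.add (.add (.mul (.g 5) (.pp [(1, 38167200000)])) (.mul (.g 7) (.pp [(1, 23881800000)]))) (.add
 (.mul (.g 15) (.pp [(1, 91295400000)])) (.mul (.g 17) (.pp [(1, 154882200000)]))))) (.mul (.g 18)
 (.add (.mul (.g 7) (.pp [(1, 32394600000)])) (.add (.mul (.g 15) (.pp [(1, 85268400000)])) (.mul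
 (.g 18) (.pp [(1, 12538800000)])))))) (.add (.mul (.g 4) (.mul (.g 5) (.pp [(1, 3807684000)])))
 (.mul (.g 14) (.mul (.g 15) (.pp [(1, 7449000000)])))))) (.add (.mul (.g 6) (.add (.add (.mul (.g
 4) (.add (.mul (.g 8) (.pp [(1, 155718000)])) (.mul (.g 18) (.pp [(1, 1084428000)])))) (.mul (.g
 5) (.add (.mul (.g 17) (.pp [(1, 49759200000)])) (.mul (.g 18) (.pp [(1, 80080800000)]))))) (.add
 (.mul (.g 6) (.mul (.g 13) (.pp [(1, 67101000000)]))) (.add (.mul (.g 8) (.mul (.g 9) (.pp [(1,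
 64860000000)]))) (.mul (.g 15) (.mul (.g 15) (.pp [(1, 64094400000)]))))))) (.mul (.g 5) (.add
 (.mul (.g 5) (.add (.pp [(1, 45824400000)]) (.add (.mul (.g 9) (.pp [(1, 16730400000)])) (.mul (.g
 17) (.pp [(1, 113766600000)]))))) (.mul (.g 4) (.mul (.g 8) (.pp [(1, 4907478000)]))))))) (.add
 (.mul (.g 8) (.add (.mul (.g 4) (.mul (.g 8) (.pp [(1, 1524504000)]))) (.mul (.g 17) (.mul (.g 18)
 (.pp [(1, 97156800000)]))))) (.add (.mul (.g 13) (.add (.pp [(1, 146589900000)]) (.mul (.pp [(1,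
 980670)]) (.sq [(1, 40), (2, 83), (3, 100), (5, 34), (7, 2)])))) (.mul (.g 15) (.mul (.pp [(1,
 17349240)]) (.sq [(1, -5), (2, 88), (3, 4), (5, -24), (7, 100)]))))))) (.mul (.g 17) (.add (.add
 (.add (.mul (.g 7) (.add (.add (.mul (.pp [(1, 4489080)]) (.sq [(1, -22), (2, -79), (3, 10), (5,
 -67), (7, 100)])) (.mul (.g 6) (.add (.mul (.g 4) (.pp [(1, 299718000)])) (.mul (.g 6) (.pp [(1,
 35005200000)]))))) (.add (.mul (.g 7) (.add (.mul (.g 7) (.pp [(1, 63364200000)])) (.mul (.g 13)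
 (.pp [(1, 42532500000)])))) (.add (.mul (.g 8) (.mul (.g 8) (.pp [(1, 279882000000)]))) (.mul (.g
 17) (.pp [(1, 21340200000)])))))) (.mul (.g 8) (.add (.mul (.g 6) (.add (.mul (.g 6) (.pp [(1,
 51950400000)])) (.add (.mul (.g 8) (.pp [(1, 82776000000)])) (.mul (.g 15) (.pp [(1,
 61489200000)]))))) (.add (.mul (.g 5) (.add (.mul (.g 8) (.pp [(1, 65085000000)])) (.mul (.g 13)
 (.pp [(1, 21664500000)])))) (.mul (.g 8) (.mul (.g 17) (.pp [(1, 166653000000)]))))))) (.add (.mul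
 (.g 5) (.mul (.g 5) (.add (.mul (.g 15) (.pp [(1, 22158600000)])) (.mul (.g 17) (.pp [(1,
 46180800000)]))))) (.mul (.g 4) (.pp [(1, 745308000)])))) (.add (.add (.mul (.g 6) (.mul (.g 6)
 (.mul (.g 6) (.pp [(1, 16630200000)])))) (.mul (.g 12) (.pp [(1, 4044000000)]))) (.add (.mul (.g
 15) (.mul (.pp [(1, 7766460)]) (.sq [(2, -28), (3, -9), (5, -38), (7, 100)]))) (.mul (.g 17) (.pp
 [(1, 113599800000)]))))))) (.add (.mul (.g 12) (.add (.add (.mul (.pp [(1, 165789)]) (.sq [(1,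
 -28), (2, -28), (3, -38), (5, 100), (7, -45)])) (.add (.mul (.g 8) (.add (.mul (.g 6) (.add (.mul
 (.g 6) (.pp [(1, 1396080000)])) (.add (.mul (.g 7) (.pp [(1, 1174500000)])) (.mul (.g 8) (.pp [(1,
 339900000)]))))) (.add (.mul (.g 8) (.add (.pp [(1, 2910480000)]) (.mul (.g 7) (.pp [(1,
 4581600000)])))) (.mul (.g 5) (.mul (.g 12) (.pp [(1, 6051000)])))))) (.mul (.g 18) (.add (.pp
 [(1, 4161000000)]) (.add (.mul (.g 5) (.add (.mul (.g 12) (.pp [(1, 407520000)])) (.mul (.g 18)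
 (.pp [(1, 15725940000)])))) (.mul (.g 4) (.mul (.g 13) (.pp [(1, 3459000)])))))))) (.add (.mul (.g
 4) (.add (.pp [(1, 7889400)]) (.mul (.g 10) (.mul (.g 10) (.pp [(1, 2149200)]))))) (.add (.mul (.g
 13) (.add (.mul (.g 12) (.pp [(1, 281203500)])) (.mul (.g 14) (.pp [(1, 486591000)])))) (.mul (.g
 5) (.mul (.pp [(1, 203235)]) (.sq [(1, -9), (2, -33), (3, -73), (5, 100), (7, -46)]))))))) (.add
 (.mul (.g 15) (.add (.mul (.g 7) (.add (.mul (.pp [(1, 3873900)]) (.sq [(1, 17), (2, -50), (3,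
 -55), (5, 100), (7, 52)])) (.mul (.pp [(1, 1730160)]) (.sq [(1, -9), (2, -78), (3, 100), (5, -73),
 (7, 69)])))) (.add (.mul (.g 5) (.mul (.pp [(1, 98820)]) (.sq [(1, -30), (2, -35), (3, 100), (5,
 -78), (7, 27)]))) (.mul (.g 11) (.mul (.pp [(1, 4121280)]) (.sq [(1, -13), (2, -15), (3, 88), (5,
 -100), (7, 39)])))))) (.mul (.g 10) (.add (.mul (.g 5) (.mul (.pp [(1, 318240)]) (.sq [(1, -30),
 (2, -16), (3, 97), (5, -100), (7, 43)]))) (.add (.mul (.g 7) (.mul (.pp [(1, 246360)]) (.sq [(1,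
 -33), (2, -32), (3, 100), (5, -67), (7, 31)]))) (.mul (.g 10) (.mul (.pp [(1, 4208340)]) (.sq [(1,
 -18), (2, -8), (3, 81), (5, -100), (7, 24)]))))))))) (.add (.add (.mul (.g 0) (.pp [(1,
 60000000)])) (.add (.mul (.g 2) (.pp [(1, 200000000000)])) (.mul (.g 3) (.pp [(1,
 200000000000)])))) (.add (.mul (.g 5) (.mul (.g 5) (.mul (.pp [(1, 8284440)]) (.sq [(1, -27), (2,
 -50), (3, 100), (5, -18), (7, 27)])))) (.add (.mul (.g 8) (.mul (.g 8) (.mul (.pp [(1, 440100)])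
 (.sq [(1, -3), (2, 35), (3, -58), (5, 97), (7, -100)])))) (.mul (.g 16) (.pp [(1,
 200000000)])))))) (.pp [(1, 70055424), (2, 6043083), (3, 6126348), (4, 5950314), (5, 5283360), (6,
 6479058), (7, 5888280), (8, 5750675), (9, 5638284), (10, 6800820), (12, 7678420), (14, 5699700),
 (15, 5409660), (16, 5826360), (18, 5343595), (20, 5889430), (21, 6205500), (24, 5689170), (25,
 6982320), (27, 5936740), (28, 6720540), (30, 4034280), (35, 6001800), (36, 5195040), (40,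
 6049350), (42, 5939100), (45, 6752400), (49, 5635785), (50, 5858200), (54, 6520620), (56,
 6482880), (60, 5176560), (63, 5481420), (70, 4931400), (75, 5955240), (81, 5873580), (84,
 4785360), (90, 7941660), (98, 6679140), (100, 6420480), (105, 5828400), (125, 6013720), (126,
 6595920), (135, 5599080), (140, 5485440), (147, 5526180), (150, 6957240), (175, 6115680), (189,
 5956740), (196, 6041700), (210, 6941520), (225, 5758620), (245, 6829860), (250, 5484000), (294,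
 5660460), (315, 6271440), (343, 6540000), (350, 5981520), (375, 5781240), (441, 6794640), (490,
 6210600), (525, 5655360), (625, 5690160), (686, 5700000), (735, 6189720), (875, 6160680), (1029,
 6240000), (1225, 5975220), (1715, 4740000), (2401, 6000000)])))))))
 (.rule 5 (.rule 6 (.cut 2 [(1, -7), (3, 50)] (.add (.mul (.g 4) (.pp [(1, 65)])) (.mul (.g 12)
 (.pp [(1, 7)]))) (.rule 7 (.leaf 30000000000 (.add (.add (.add (.add (.mul (.g 17) (.add (.add
 (.add (.mul (.g 8) (.add (.add (.mul (.pp [(1, 1014030000)]) (.sq [(1, 73), (2, -13), (3, 54), (5,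
 -18), (7, 100)])) (.mul (.g 8) (.add (.add (.pp [(1, 22819800000000)]) (.mul (.g 5) (.pp [(1,
 15512100000000)]))) (.add (.mul (.g 7) (.pp [(1, 170038200000000)])) (.mul (.g 17) (.pp [(1,
 93567300000000)])))))) (.add (.mul (.g 17) (.add (.mul (.g 6) (.pp [(1, 19682700000000)])) (.add
 (.mul (.g 9) (.pp [(1, 14769600000000)])) (.mul (.g 11) (.pp [(1, 4183800000000)]))))) (.add (.mul
 (.g 5) (.mul (.g 6) (.pp [(1, 59994600000000)]))) (.mul (.g 7) (.mul (.g 18) (.pp [(1,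
 4777200000000)]))))))) (.mul (.g 7) (.add (.add (.pp [(1, 25556400000000)]) (.mul (.pp [(1,
 433560000)]) (.sq [(1, -8), (2, 6), (3, -7), (5, 100), (7, -74)]))) (.add (.mul (.g 13) (.add
 (.mul (.g 7) (.pp [(1, 42566400000000)])) (.mul (.g 18) (.pp [(1, 19958700000000)])))) (.mul (.g
 11) (.mul (.g 11) (.pp [(1, 22796100000000)]))))))) (.add (.mul (.g 5) (.add (.mul (.pp [(1,
 2536080000)]) (.sq [(1, 7), (2, 50), (3, -2), (5, 23), (7, -37)])) (.mul (.g 5) (.mul (.g 9) (.pp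
 [(1, 31407900000000)]))))) (.add (.mul (.g 12) (.add (.pp [(1, 911580000000)]) (.mul (.pp [(1,
 73216500)]) (.sq [(1, 85), (2, 100), (3, 73), (5, 73), (7, 68)])))) (.mul (.g 17) (.add (.pp [(1,
 28098600000000)]) (.mul (.pp [(1, 1380810000)]) (.sq [(1, 15), (2, 69), (3, 100), (5, 74), (7,
 -39)]))))))) (.add (.add (.mul (.g 6) (.mul (.g 6) (.mul (.g 9) (.pp [(1, 13935600000000)]))))
 (.mul (.g 10) (.mul (.pp [(1, 931860000)]) (.sq [(1, -7), (2, 100), (3, 55), (5, 83), (7,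
 -12)])))) (.add (.mul (.g 11) (.mul (.pp [(1, 201210000)]) (.sq [(1, 3), (2, 99), (3, 48), (5,
 -34), (7, -100)]))) (.add (.mul (.g 13) (.pp [(1, 27829200000000)])) (.mul (.g 14) (.mul (.pp [(1,
 43446000)]) (.sq [(1, -63), (2, -68), (3, 100), (5, 81), (7, 99)])))))))) (.add (.mul (.g 9) (.add
 (.add (.mul (.g 7) (.add (.add (.mul (.pp [(1, 626700000)]) (.sq [(1, -5), (2, 66), (3, 100), (5,
 -35), (7, 10)])) (.mul (.g 14) (.add (.mul (.g 6) (.pp [(1, 10970580000000)])) (.mul (.g 14) (.pp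
 [(1, 5218032000000)]))))) (.add (.mul (.g 5) (.mul (.g 5) (.pp [(1, 8325600000000)]))) (.mul (.g
 7) (.mul (.g 13) (.pp [(1, 7951200000000)])))))) (.mul (.g 13) (.add (.pp [(1, 30156750000000)])
 (.add (.mul (.g 6) (.add (.pp [(1, 38852100000000)]) (.mul (.g 6) (.pp [(1, 15520500000000)]))))
 (.mul (.g 5) (.mul (.g 9) (.pp [(1, 5331450000000)]))))))) (.add (.mul (.g 14) (.add (.mul (.g 18)
 (.add (.mul (.g 6) (.pp [(1, 17234280000000)])) (.mul (.g 14) (.pp [(1, 2447448000000)])))) (.mul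
 (.g 5) (.mul (.g 11) (.pp [(1, 15088200000000)]))))) (.mul (.g 9) (.add (.mul (.pp [(1,
 552960000)]) (.sq [(1, 15), (2, -29), (3, -66), (5, 100), (7, -32)])) (.mul (.pp [(1,
 1574760000)]) (.sq [(1, -13), (2, 8), (3, -27), (5, -4), (7, 100)]))))))) (.mul (.g 12) (.add
 (.add (.mul (.g 7) (.add (.mul (.pp [(1, 22884000)]) (.sq [(1, -5), (2, 29), (3, 22), (5, 50), (7,
 -24)])) (.add (.mul (.g 8) (.add (.mul (.g 6) (.pp [(1, 3542535000000)])) (.mul (.g 8) (.pp [(1,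
 59400000000)])))) (.mul (.g 12) (.mul (.g 18) (.pp [(1, 3126000000)])))))) (.mul (.g 13) (.add
 (.mul (.g 11) (.add (.pp [(1, 1187685000000)]) (.mul (.g 18) (.pp [(1, 328177500000)])))) (.add
 (.mul (.g 6) (.pp [(1, 3970140000000)])) (.mul (.g 14) (.pp [(1, 243385500000)])))))) (.add (.mul
 (.g 8) (.add (.mul (.g 5) (.mul (.g 8) (.pp [(1, 2632230000000)]))) (.mul (.g 6) (.mul (.g 18)
 (.pp [(1, 3555855000000)]))))) (.add (.mul (.g 10) (.add (.mul (.pp [(1, 18480000)]) (.sq [(1,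
 -8), (2, 60), (3, 97), (5, 40), (7, -100)])) (.mul (.g 4) (.mul (.g 12) (.pp [(1, 85665000)])))))
 (.mul (.g 18) (.pp [(1, 1342830000000)])))))))) (.add (.mul (.g 4) (.add (.mul (.g 5) (.add (.mul
 (.g 5) (.add (.mul (.g 4) (.pp [(1, 3807090000)])) (.add (.mul (.g 7) (.pp [(1, 137496000000)]))
 (.mul (.g 13) (.pp [(1, 168360000000)]))))) (.add (.mul (.g 13) (.add (.pp [(1, 352051500000)])
 (.mul (.g 13) (.pp [(1, 81806250000)])))) (.mul (.g 4) (.mul (.g 7) (.pp [(1, 8101500000)]))))))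
 (.add (.mul (.g 4) (.add (.mul (.pp [(1, 7623)]) (.sq [(1, -10), (2, 100), (3, 23), (5, 83), (7,
 8)])) (.mul (.g 14) (.pp [(1, 908232000)])))) (.mul (.g 8) (.mul (.g 18) (.add (.mul (.g 6) (.pp
 [(1, 256665000000)])) (.mul (.g 15) (.pp [(1, 40449000000)])))))))) (.add (.mul (.g 8) (.add (.mul
 (.g 8) (.add (.mul (.g 7) (.mul (.g 7) (.pp [(1, 82903500000000)]))) (.mul (.g 11) (.pp [(1,
 14998200000000)])))) (.mul (.g 14) (.mul (.pp [(1, 172614000)]) (.sq [(1, -3), (2, -16), (3, -4),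
 (5, -8), (7, 100)]))))) (.mul (.g 11) (.add (.mul (.g 11) (.mul (.pp [(1, 799020000)]) (.sq [(1,
 -22), (2, -6), (3, 3), (5, -1), (7, 100)]))) (.mul (.g 18) (.mul (.g 18) (.mul (.g 18) (.pp [(1,
 7290300000000)]))))))))) (.add (.add (.mul (.g 0) (.pp [(1, 60000000000)])) (.add (.mul (.g 2)
 (.pp [(1, 100000000000000)])) (.mul (.g 3) (.pp [(1, 100000000000000)])))) (.add (.mul (.g 5)
 (.mul (.pp [(1, 2472810000)]) (.sq [(1, 31), (2, -87), (3, 100), (5, -46), (7, 81)]))) (.add (.mul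
 (.g 15) (.mul (.g 15) (.mul (.pp [(1, 374910000)]) (.sq [(2, 31), (3, -1), (5, -100), (7, 99)]))))
 (.mul (.g 16) (.pp [(1, 100000000000)])))))) (.pp [(1, 546600019200), (2, 2995887000), (3,
 2690167380), (4, 2803968000), (5, 2707308480), (6, 2342386200), (7, 2674129980), (8, 2729320000),
 (9, 3720851013), (10, 2838562200), (12, 2858330000), (14, 3042559200), (15, 4082446746), (16,
 3071280000), (18, 3447620000), (20, 3456098000), (21, 3424209096), (24, 2433600000), (25,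
 3421698933), (27, 2813294600), (28, 3549030000), (30, 3474456000), (35, 3497052216), (36,
 3870750000), (40, 3358710000), (42, 3206244000), (45, 2646470700), (49, 3271845408), (50,
 3270752000), (54, 2669700000), (56, 3255030000), (60, 3641250000), (63, 2216054700), (70,
 2663616000), (75, 2762835600), (81, 3074640000), (84, 3111930000), (90, 2118210000), (98,
 2694678000), (100, 2254380000), (105, 2108962200), (125, 3056601500), (126, 2437710000), (135,
 3171210000), (140, 2724780000), (147, 3047055600), (150, 3073500000), (175, 3170839500), (189,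
 3144330000), (196, 3013620000), (210, 2278260000), (225, 2699100000), (245, 3386076000), (250,
 3498390000), (294, 2989560000), (315, 3525330000), (343, 3171204000), (350, 3454590000), (375,
 2167800000), (441, 3157290000), (490, 3831480000), (525, 2990700000), (625, 2625210000), (686,
 3460860000), (735, 2603010000), (875, 2489070000), (1029, 2687310000), (1225, 2179110000), (1715,
 2351940000), (2401, 2787990000)]))))))))
 (P_c2 ++ xP_G_F8) = true := by decide +kernel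

theorem t_G_F8_c4 : chk RFp gP_G_F8
 (.rule 5 (.rule 6 (.leaf 600000000 (.add (.add (.add (.add (.mul (.g 4) (.add (.add (.mul (.pp
 [(1, 513000)]) (.sq [(2, 44), (3, -100), (5, 86), (7, 81)])) (.mul (.g 4) (.add (.add (.mul (.pp
 [(1, 1432200)]) (.sq [(1, 13), (2, -35), (3, 11), (5, -84), (7, 100)])) (.add (.mul (.g 4) (.add
 (.add (.mul (.g 4) (.pp [(1, 556008000000)])) (.mul (.g 6) (.pp [(1, 121680000000)]))) (.add (.mul
 (.g 7) (.pp [(1, 260100000000)])) (.mul (.g 11) (.pp [(1, 1195362000000)]))))) (.mul (.g 2) (.add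
 (.mul (.g 7) (.pp [(1, 295926000000)])) (.mul (.g 11) (.pp [(1, 1134126000000)])))))) (.add (.mul
 (.g 5) (.add (.mul (.g 5) (.pp [(1, 1099944000000)])) (.mul (.g 7) (.pp [(1, 426894000000)]))))
 (.add (.mul (.g 6) (.add (.mul (.g 3) (.pp [(1, 182580000000)])) (.mul (.g 12) (.pp [(1,
 556578000000)])))) (.mul (.g 11) (.mul (.g 11) (.pp [(1, 797334000000)])))))))) (.add (.mul (.g 6)
 (.add (.mul (.g 3) (.add (.add (.pp [(1, 560136000000)]) (.mul (.g 3) (.pp [(1, 332868000000)])))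
 (.add (.mul (.g 5) (.pp [(1, 120252000000)])) (.mul (.g 6) (.pp [(1, 49248000000)]))))) (.add
 (.mul (.g 5) (.add (.mul (.g 5) (.pp [(1, 36804000000)])) (.mul (.g 7) (.pp [(1,
 200100000000)])))) (.mul (.g 2) (.mul (.g 2) (.pp [(1, 419538000000)])))))) (.add (.mul (.g 11)
 (.add (.mul (.g 2) (.add (.mul (.g 2) (.pp [(1, 347148000000)])) (.add (.mul (.g 11) (.pp [(1,
 497406000000)])) (.mul (.g 12) (.pp [(1, 113166000000)]))))) (.add (.mul (.g 11) (.add (.pp [(1,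
 774282000000)]) (.mul (.g 3) (.pp [(1, 250170000000)])))) (.mul (.g 5) (.mul (.g 5) (.pp [(1,
 3477990000000)])))))) (.mul (.g 2) (.mul (.pp [(1, 18768600)]) (.sq [(1, 44), (2, -15), (3, -37),
 (5, 100), (7, -18)]))))))) (.mul (.g 6) (.add (.add (.mul (.pp [(1, 3698400)]) (.sq [(1, 79), (2,
 -88), (3, -80), (7, 100)])) (.mul (.g 2) (.add (.mul (.g 2) (.add (.add (.mul (.g 3) (.pp [(1,
 68790000000)])) (.mul (.g 6) (.pp [(1, 310122000000)]))) (.add (.mul (.g 7) (.pp [(1,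
 334398000000)])) (.mul (.g 11) (.pp [(1, 419910000000)]))))) (.add (.mul (.g 5) (.mul (.g 6) (.pp
 [(1, 371232000000)]))) (.mul (.g 7) (.mul (.g 8) (.pp [(1, 45012000000)]))))))) (.add (.mul (.g 5)
 (.add (.mul (.g 7) (.add (.mul (.g 5) (.pp [(1, 61068000000)])) (.add (.mul (.g 6) (.pp [(1,
 356226000000)])) (.mul (.g 7) (.pp [(1, 313698000000)]))))) (.mul (.g 5) (.mul (.g 11) (.pp [(1,
 577134000000)]))))) (.add (.mul (.g 9) (.add (.pp [(1, 176557500000)]) (.add (.mul (.pp [(1,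
 394260)]) (.sq [(2, -17), (3, 1), (5, 100), (7, 80)])) (.mul (.g 6) (.mul (.g 6) (.pp [(1,
 8495700000)])))))) (.mul (.g 3) (.add (.mul (.pp [(1, 9587400)]) (.sq [(1, 6), (2, -3), (3, -64),
 (5, 100), (7, 67)])) (.mul (.g 3) (.mul (.g 11) (.pp [(1, 215514000000)])))))))))) (.add (.mul (.g
 11) (.add (.add (.mul (.g 3) (.add (.mul (.g 2) (.add (.mul (.g 2) (.pp [(1, 305166000000)]))
 (.add (.mul (.g 11) (.pp [(1, 136302000000)])) (.mul (.g 12) (.pp [(1, 605484000000)]))))) (.add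
 (.mul (.g 3) (.add (.mul (.g 5) (.pp [(1, 64782000000)])) (.add (.mul (.g 7) (.pp [(1,
 28668000000)])) (.mul (.g 12) (.pp [(1, 22290000000)]))))) (.mul (.g 11) (.mul (.g 11) (.pp [(1,
 56910000000)])))))) (.mul (.g 5) (.add (.mul (.g 5) (.add (.mul (.g 2) (.pp [(1, 1244388000000)]))
 (.mul (.g 11) (.pp [(1, 1664280000000)])))) (.mul (.g 9) (.pp [(1, 13168500000)]))))) (.add (.mul
 (.g 11) (.add (.pp [(1, 356130000000)]) (.mul (.pp [(1, 6402600)]) (.sq [(1, -100), (2, -15), (3,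
 54), (5, 54), (7, 85)])))) (.mul (.g 8) (.mul (.pp [(1, 770400)]) (.sq [(1, -32), (2, 25), (3,
 -3), (5, 50), (7, 50)])))))) (.add (.mul (.g 9) (.add (.add (.mul (.g 5) (.add (.pp [(1,
 37666200000)]) (.add (.mul (.g 3) (.mul (.g 3) (.pp [(1, 393600000)]))) (.mul (.g 5) (.mul (.g 12)
 (.pp [(1, 16644300000)])))))) (.mul (.g 7) (.add (.pp [(1, 17486100000)]) (.add (.mul (.g 2) (.pp
 [(1, 87307200000)])) (.mul (.g 3) (.mul (.g 3) (.pp [(1, 880200000)]))))))) (.add (.mul (.g 2)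
 (.mul (.pp [(1, 68280)]) (.sq [(1, 24), (2, -1), (3, -61), (5, 100), (7, -8)]))) (.add (.mul (.g
 9) (.mul (.pp [(1, 6927)]) (.sq [(1, -57), (2, -45), (3, -69), (5, 38), (7, 100)]))) (.mul (.g 12)
 (.pp [(1, 3945900000)])))))) (.mul (.g 7) (.add (.mul (.pp [(1, 2532600)]) (.sq [(1, -42), (2,
 46), (3, 87), (5, -100), (7, -82)])) (.add (.mul (.g 5) (.mul (.g 5) (.mul (.g 7) (.pp [(1,
 17952000000)])))) (.mul (.g 12) (.mul (.pp [(1, 7120800)]) (.sq [(1, 4), (2, 65), (3, -44), (5,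
 100), (7, -42)]))))))))) (.add (.add (.mul (.g 0) (.pp [(1, 2000000000000)])) (.mul (.g 1) (.pp
 [(1, 2000000000000)]))) (.add (.mul (.g 2) (.mul (.pp [(1, 1901400)]) (.sq [(1, -54), (2, -35),
 (3, 65), (5, -100), (7, 61)]))) (.add (.mul (.g 3) (.mul (.g 8) (.mul (.pp [(1, 3177000)]) (.sq
 [(1, 56), (2, -53), (3, -37), (5, 100), (7, -7)])))) (.mul (.g 10) (.pp [(1, 8000000000)]))))))
 (.pp [(1, 4124674737), (2, 58377330), (3, 57707538), (4, 71253525), (5, 54807564), (6, 56517690),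
 (7, 54211800), (8, 51464260), (9, 59797653), (10, 42900180), (12, 54928600), (14, 55316520), (15,
 65877108), (16, 61672800), (18, 66935260), (20, 55168600), (21, 57219000), (24, 67708800), (25,
 69239532), (27, 55485120), (28, 70233120), (30, 73168080), (35, 77463600), (36, 59062200), (40,
 60838200), (42, 65610720), (45, 60791040), (49, 69227400), (50, 69088720), (54, 54486600), (56,
 55293600), (60, 49504200), (63, 61202400), (70, 67605600), (75, 59838000), (81, 62908200), (84,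
 60499200), (90, 51678600), (98, 64850280), (100, 64552800), (105, 59176800), (125, 49937280),
 (126, 60242400), (135, 68069400), (140, 61484400), (147, 58911000), (150, 62826000), (175,
 34644000), (189, 58287600), (196, 63533400), (210, 60846000), (225, 62843400), (245, 47317800),
 (250, 58682400), (294, 50725200), (315, 56367600), (343, 55770000), (350, 55782000), (375,
 54667200), (441, 65225400), (490, 49418400), (525, 58048800), (625, 61380000), (686, 54630000),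
 (735, 64416600), (875, 67768800), (1029, 60132000), (1225, 72406200), (1715, 62562000), (2401,
 61215000)])))))
 (P_c4 ++ xP_G_F8) = true := by decide +kernel

theorem t_G_T6_Tp0_a : chk Rap gP_G_T6
 (.split [(1, -3), (3, 5)]
 (.split [(1, -17), (5, 25)]
 (.split [(2, 1), (3, -1)]
 (.split [(2, 1), (5, -1)]
 (.rule 0 (.rule 2 (.cut 1 [(1, 3), (3, -2)] (.add (.add (.mul (.g 3) (.pp [(1, 2)])) (.mul (.g 10)
 (.pp [(1, 3)]))) (.add (.mul (.g 8) (.pp [(1, 1)])) (.mul (.g 2) (.pp [(1, 1)])))) (.rule 8 (.rule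
 10 (.leaf 3000000 (.add (.add (.add (.add (.mul (.g 12) (.add (.add (.add (.mul (.g 12) (.add
 (.add (.mul (.g 12) (.add (.mul (.g 10) (.pp [(1, 4327380000)])) (.add (.mul (.g 14) (.pp [(1,
 1529610000)])) (.mul (.g 20) (.pp [(1, 1703820000)]))))) (.mul (.g 13) (.add (.mul (.g 16) (.pp
 [(1, 611383500)])) (.add (.mul (.g 17) (.pp [(1, 7329270000)])) (.mul (.g 20) (.pp [(1,
 902850000)])))))) (.add (.mul (.g 18) (.add (.pp [(1, 9462330000)]) (.mul (.g 20) (.pp [(1,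
 2612790000)])))) (.add (.mul (.g 7) (.mul (.g 9) (.pp [(1, 538137600)]))) (.mul (.g 10) (.mul (.g
 14) (.pp [(1, 103800000)]))))))) (.mul (.g 8) (.add (.add (.pp [(1, 3915012000)]) (.mul (.g 8)
 (.add (.mul (.g 6) (.pp [(1, 224191200)])) (.add (.mul (.g 8) (.pp [(1, 46430640)])) (.mul (.g 10)
 (.pp [(1, 349399200)])))))) (.add (.mul (.g 11) (.add (.pp [(1, 839460000)]) (.add (.mul (.g 18)
 (.pp [(1, 2000604000)])) (.mul (.g 20) (.pp [(1, 472836000)]))))) (.mul (.g 5) (.mul (.g 5) (.pp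
 [(1, 2013144000)]))))))) (.add (.mul (.g 13) (.add (.add (.mul (.g 7) (.add (.mul (.g 7) (.pp [(1,
 551184)])) (.mul (.g 11) (.pp [(1, 8890800)])))) (.mul (.g 5) (.mul (.g 10) (.pp [(1,
 16573320000)])))) (.add (.mul (.g 6) (.mul (.g 17) (.pp [(1, 14323800000)]))) (.mul (.g 9) (.mul
 (.g 11) (.pp [(1, 1955790000)])))))) (.mul (.g 9) (.add (.mul (.g 11) (.mul (.g 16) (.pp [(1,
 33414000)]))) (.mul (.g 20) (.mul (.g 20) (.pp [(1, 2741880000)]))))))) (.add (.add (.mul (.g 6)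
 (.mul (.g 17) (.mul (.g 17) (.pp [(1, 1742850000)])))) (.mul (.g 7) (.mul (.g 10) (.mul (.g 10)
 (.pp [(1, 104540400)]))))) (.add (.mul (.g 14) (.mul (.pp [(1, 113166)]) (.sq [(1, 31), (2, 64),
 (3, 6), (5, 6), (7, 100)]))) (.mul (.g 20) (.pp [(1, 13855770000)])))))) (.add (.mul (.g 9) (.add
 (.add (.mul (.g 9) (.add (.mul (.g 18) (.add (.mul (.g 8) (.pp [(1, 958212000)])) (.mul (.g 16)
 (.pp [(1, 12693000)])))) (.add (.mul (.g 20) (.add (.mul (.g 11) (.pp [(1, 5298570000)])) (.mul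
 (.g 15) (.pp [(1, 1598070000)])))) (.mul (.g 9) (.mul (.g 13) (.pp [(1, 1961190000)])))))) (.mul
 (.g 5) (.add (.mul (.g 10) (.add (.mul (.g 8) (.pp [(1, 7626000)])) (.mul (.g 10) (.pp [(1,
 577920000)])))) (.mul (.g 15) (.pp [(1, 7625700000)]))))) (.add (.mul (.g 6) (.add (.mul (.g 16)
 (.add (.pp [(1, 10119000)]) (.mul (.g 18) (.pp [(1, 15054000)])))) (.mul (.g 15) (.mul (.g 20)
 (.pp [(1, 2187630000)]))))) (.mul (.g 7) (.mul (.g 13) (.mul (.g 20) (.pp [(1, 461986800)])))))))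
 (.mul (.g 20) (.add (.add (.mul (.pp [(1, 38256)]) (.sq [(2, 77), (3, 77), (5, 100), (7, 77)]))
 (.add (.mul (.g 10) (.add (.mul (.g 6) (.mul (.g 13) (.pp [(1, 169380000)]))) (.mul (.g 10) (.mul
 (.g 10) (.pp [(1, 6519120000)]))))) (.mul (.g 5) (.pp [(1, 8128650000)])))) (.add (.mul (.g 17)
 (.pp [(1, 1619760000)])) (.add (.mul (.g 18) (.pp [(1, 675450000)])) (.mul (.g 20) (.mul (.pp [(1,
 11238)]) (.sq [(1, 100), (2, -58), (3, -20), (5, -67), (7, -32)]))))))))) (.add (.add (.mul (.g 5)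
 (.add (.mul (.g 5) (.add (.pp [(1, 5740470000)]) (.add (.mul (.pp [(1, 4224)]) (.sq [(1, 25), (2,
 -19), (3, 8), (5, 16), (7, -9)])) (.mul (.g 11) (.pp [(1, 10009590000)]))))) (.mul (.g 10) (.add
 (.pp [(1, 7713420000)]) (.mul (.g 10) (.mul (.g 10) (.pp [(1, 645240000)]))))))) (.mul (.g 8)
 (.add (.mul (.g 8) (.add (.pp [(1, 5571600)]) (.mul (.g 10) (.mul (.g 10) (.pp [(1,
 235980000)]))))) (.add (.mul (.g 11) (.mul (.g 11) (.add (.mul (.g 7) (.pp [(1, 122640)])) (.mul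
 (.g 17) (.pp [(1, 57042000)]))))) (.mul (.g 18) (.pp [(1, 1240314000)])))))) (.add (.mul (.g 6)
 (.add (.mul (.g 6) (.add (.pp [(1, 2469570000)]) (.add (.mul (.pp [(1, 2401680)]) (.sq [(1, 25),
 (2, -19), (3, 16), (5, 8), (7, -9)])) (.mul (.g 10) (.pp [(1, 8750040000)]))))) (.mul (.g 13)
 (.mul (.g 13) (.mul (.g 14) (.pp [(1, 553980000)])))))) (.mul (.g 18) (.add (.mul (.g 18) (.add
 (.pp [(1, 5945700000)]) (.add (.mul (.pp [(1, 7875)]) (.sq [(2, 9), (3, 100), (5, -8), (7,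
 -100)])) (.mul (.pp [(1, 594)]) (.sq [(1, 33), (2, -73), (3, 54), (5, -64), (7, 100)]))))) (.mul
 (.g 11) (.mul (.g 11) (.mul (.g 11) (.pp [(1, 4320000)]))))))))) (.add (.add (.mul (.g 13) (.add
 (.mul (.g 13) (.add (.pp [(1, 928530000)]) (.mul (.pp [(1, 50280)]) (.sq [(1, -44), (2, 83), (3,
 62), (5, 88), (7, 100)])))) (.mul (.g 16) (.mul (.g 16) (.pp [(1, 3885525)]))))) (.add (.mul (.g
 0) (.pp [(1, 24000000)])) (.mul (.g 1) (.pp [(1, 3000000)])))) (.add (.add (.mul (.g 3) (.pp [(1,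
 10000000000)])) (.mul (.g 4) (.pp [(1, 10000000000)]))) (.add (.mul (.g 7) (.mul (.g 7) (.pp [(1,
 1744896)]))) (.mul (.g 19) (.pp [(1, 10000000000)])))))) (.pp [(1, 269986185), (2, 296097), (3,
 239664), (4, 314403), (5, 268908), (6, 325968), (7, 285378), (8, 331760), (9, 342552), (10,
 309864), (12, 258288), (14, 315258), (15, 335760), (16, 299736), (18, 321408), (20, 229602), (21,
 324486), (24, 296736), (25, 313656), (27, 278224), (28, 282864), (30, 291600), (35, 311430), (36,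
 289272), (40, 278400), (42, 297576), (45, 259488), (49, 308364), (50, 292404), (54, 319440), (56,
 304896), (60, 343584), (63, 266928), (70, 310920), (75, 325092), (81, 294720), (84, 326400), (90,
 309816), (98, 315060), (100, 318267), (105, 265920), (125, 291904), (126, 275496), (135, 292080),
 (140, 306096), (147, 312576), (150, 289920), (175, 312540), (189, 322776), (196, 322344), (210,
 301200), (225, 302658), (245, 260688), (250, 314544), (294, 284688), (315, 309624), (343, 308448),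
 (350, 287280), (375, 294384), (441, 290928), (490, 298152), (525, 320220), (625, 301632), (686,
 284544), (735, 293472), (875, 293688), (1029, 309936), (1225, 319674), (1715, 291456), (2401,
 312288)]))))))))
 (.rule 0 (.rule 3 (.cut 2 [(1, 3), (3, -2)] (.add (.mul (.g 3) (.pp [(1, 9)])) (.add (.mul (.g 10)
 (.pp [(1, 9)])) (.mul (.g 5) (.pp [(1, 1)])))) (.rule 8 (.rule 10 (.leaf 3000000 (.add (.add (.add
 (.add (.mul (.g 12) (.add (.add (.mul (.g 20) (.add (.add (.mul (.g 9) (.add (.add (.pp [(1,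
 6794100000)]) (.mul (.g 10) (.pp [(1, 5954640000)]))) (.add (.mul (.g 13) (.pp [(1, 6171720000)]))
 (.mul (.g 20) (.pp [(1, 6096060000)]))))) (.mul (.g 11) (.add (.mul (.g 10) (.pp [(1, 840000)]))
 (.add (.mul (.g 11) (.pp [(1, 300000)])) (.mul (.g 20) (.pp [(1, 2460000)])))))) (.add (.mul (.g
 12) (.add (.mul (.g 5) (.pp [(1, 11820000)])) (.add (.mul (.g 12) (.pp [(1, 1692300000)])) (.mul
 (.g 18) (.pp [(1, 7170000)]))))) (.mul (.g 10) (.mul (.g 20) (.pp [(1, 4920000)])))))) (.add (.mul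
 (.g 12) (.add (.add (.mul (.g 12) (.add (.mul (.g 6) (.pp [(1, 239820000)])) (.add (.mul (.g 7)
 (.pp [(1, 75600)])) (.mul (.g 8) (.pp [(1, 385380000)]))))) (.mul (.g 6) (.mul (.g 9) (.pp [(1,
 6268680000)])))) (.add (.mul (.g 8) (.mul (.g 17) (.pp [(1, 2076000)]))) (.mul (.g 13) (.mul (.g
 13) (.pp [(1, 1971240000)])))))) (.mul (.g 6) (.add (.mul (.g 7) (.mul (.g 7) (.pp [(1, 576)])))
 (.add (.mul (.g 9) (.mul (.g 9) (.pp [(1, 1565940000)]))) (.mul (.g 13) (.mul (.g 13) (.pp [(1,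
 1564350000)])))))))) (.add (.mul (.g 11) (.add (.mul (.g 5) (.mul (.g 8) (.pp [(1, 300000)])))
 (.mul (.g 15) (.mul (.g 18) (.pp [(1, 300000)]))))) (.add (.mul (.g 7) (.mul (.g 10) (.mul (.g 18)
 (.pp [(1, 72000)])))) (.mul (.g 9) (.mul (.g 13) (.mul (.g 13) (.pp [(1, 2776380000)]))))))))
 (.add (.mul (.g 6) (.add (.add (.mul (.g 6) (.add (.add (.pp [(1, 7736220000)]) (.mul (.g 10)
 (.add (.pp [(1, 6476640000)]) (.add (.mul (.g 13) (.pp [(1, 1012650000)])) (.mul (.g 18) (.pp [(1,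
 507300000)])))))) (.add (.mul (.g 5) (.add (.pp [(1, 2385990000)]) (.mul (.g 11) (.pp [(1,
 1171740000)])))) (.mul (.g 13) (.pp [(1, 2980590000)]))))) (.add (.mul (.g 9) (.add (.add (.mul
 (.g 9) (.add (.mul (.g 5) (.pp [(1, 192300000)])) (.mul (.g 11) (.pp [(1, 979170000)])))) (.mul
 (.g 8) (.pp [(1, 127872000)]))) (.add (.mul (.g 10) (.pp [(1, 1256640000)])) (.add (.mul (.g 11)
 (.mul (.g 18) (.pp [(1, 2007990000)]))) (.mul (.g 20) (.pp [(1, 15948180000)])))))) (.mul (.g 5)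
 (.mul (.g 5) (.mul (.g 11) (.pp [(1, 300000)])))))) (.add (.mul (.g 8) (.pp [(1, 213756000)]))
 (.add (.mul (.g 18) (.pp [(1, 13513920000)])) (.mul (.g 20) (.mul (.pp [(1, 96)]) (.sq [(1, 36),
 (2, -8), (3, 87), (5, 100), (7, 13)]))))))) (.mul (.g 10) (.add (.add (.mul (.g 8) (.add (.mul (.g
 8) (.add (.pp [(1, 13531200)]) (.mul (.g 11) (.pp [(1, 170918400)])))) (.mul (.g 14) (.add (.mul
 (.g 10) (.pp [(1, 48174000)])) (.mul (.g 11) (.pp [(1, 313440000)])))))) (.mul (.g 20) (.add (.mul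
 (.g 7) (.add (.mul (.g 9) (.pp [(1, 6310800)])) (.mul (.g 10) (.pp [(1, 486000)])))) (.add (.mul
 (.g 9) (.mul (.g 9) (.pp [(1, 2882430000)]))) (.mul (.g 11) (.mul (.g 17) (.pp [(1,
 420000)]))))))) (.add (.mul (.g 10) (.add (.mul (.pp [(1, 39423)]) (.sq [(1, -10), (2, 88), (3,
 78), (5, -100), (7, -1)])) (.mul (.g 10) (.mul (.g 18) (.pp [(1, 1332810000)]))))) (.mul (.g 9)
 (.mul (.pp [(1, 33555)]) (.sq [(1, -12), (2, 99), (3, 83), (5, -100), (7, -24)])))))))) (.add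
 (.mul (.g 18) (.add (.mul (.g 18) (.add (.pp [(1, 14432220000)]) (.add (.mul (.g 18) (.add (.pp
 [(1, 960000)]) (.mul (.g 13) (.pp [(1, 420000)])))) (.mul (.g 9) (.mul (.g 9) (.pp [(1,
 3559050000)])))))) (.add (.mul (.g 11) (.add (.mul (.g 7) (.mul (.g 11) (.pp [(1, 25200)]))) (.add
 (.mul (.g 8) (.pp [(1, 187932000)])) (.mul (.g 9) (.mul (.g 9) (.pp [(1, 2723520000)])))))) (.mul
 (.g 8) (.pp [(1, 3009750000)]))))) (.add (.mul (.g 20) (.add (.add (.pp [(1, 344820000)]) (.mul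
 (.g 11) (.add (.pp [(1, 2790000)]) (.mul (.g 9) (.mul (.g 9) (.pp [(1, 420000)])))))) (.add (.mul
 (.g 5) (.mul (.pp [(1, 48)]) (.sq [(1, 10), (2, 25), (3, -10), (7, 17)]))) (.add (.mul (.g 17)
 (.pp [(1, 39450000)])) (.mul (.g 20) (.pp [(1, 760530000)])))))) (.mul (.g 8) (.add (.mul (.g 9)
 (.add (.mul (.g 9) (.mul (.g 9) (.pp [(1, 98232000)]))) (.mul (.g 14) (.pp [(1, 4503882000)]))))
 (.mul (.g 8) (.pp [(1, 24277200)]))))))) (.add (.add (.mul (.g 0) (.pp [(1, 24000000)])) (.add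
 (.mul (.g 1) (.pp [(1, 3000000)])) (.mul (.g 3) (.pp [(1, 10000000000)])))) (.add (.mul (.g 4)
 (.pp [(1, 10000000000)])) (.add (.mul (.g 5) (.mul (.g 5) (.mul (.g 5) (.mul (.g 11) (.pp [(1,
 330000)]))))) (.mul (.g 19) (.pp [(1, 10000000000)])))))) (.pp [(1, 30355200), (2, 294384), (3,
 341616), (4, 301296), (5, 331200), (6, 253056), (7, 330000), (8, 299856), (9, 314628), (10,
 298800), (12, 353160), (14, 269616), (15, 300000), (16, 300000), (18, 265224), (20, 303600), (21,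
 275904), (24, 293589), (25, 272400), (27, 291160), (28, 341472), (30, 313200), (35, 318480), (36,
 279642), (40, 300000), (42, 295056), (45, 328800), (49, 288000), (50, 300000), (54, 276117), (56,
 306144), (60, 275400), (63, 315492), (70, 314400), (75, 300000), (81, 293844), (84, 276816), (90,
 367800), (98, 311184), (100, 330000), (105, 267840), (125, 321600), (126, 310464), (135, 283200),
 (140, 296400), (147, 328368), (150, 300000), (175, 300000), (189, 286212), (196, 299232), (210,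
 296400), (225, 270000), (245, 272448), (250, 270000), (294, 308112), (315, 293880), (343, 295200),
 (350, 300000), (375, 300000), (441, 267201), (490, 290400), (525, 300000), (625, 300000), (686,
 302352), (735, 317952), (875, 300000), (1029, 283776), (1225, 300000), (1715, 313872), (2401,
 300000)])))))))))
 (.split [(2, 1), (5, -1)]
 (.rule 1 (.rule 2 (.cut 17 [(1, 3), (3, -2)] (.add (.add (.mul (.g 11) (.pp [(1, 34)])) (.mul (.g
 4) (.pp [(1, 1)]))) (.add (.mul (.g 8) (.pp [(1, 9)])) (.mul (.g 10) (.pp [(1, 34)])))) (.rule 8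
 (.rule 10 (.leaf 60000000 (.add (.add (.add (.add (.mul (.g 12) (.add (.add (.add (.mul (.g 11)
 (.add (.add (.mul (.g 11) (.add (.add (.mul (.g 6) (.pp [(1, 39000000)])) (.mul (.g 16) (.pp [(1,
 720000)]))) (.add (.mul (.g 17) (.pp [(1, 68365200000)])) (.mul (.g 20) (.pp [(1, 9600000)])))))
 (.mul (.g 7) (.add (.mul (.g 8) (.pp [(1, 1420972800)])) (.mul (.g 17) (.pp [(1, 7102416000)])))))
 (.add (.mul (.g 5) (.mul (.g 20) (.pp [(1, 7200000)]))) (.add (.mul (.g 12) (.mul (.g 12) (.pp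
 [(1, 126930600000)]))) (.mul (.g 14) (.mul (.g 16) (.pp [(1, 840000)]))))))) (.mul (.g 12) (.add
 (.add (.mul (.g 10) (.add (.mul (.g 7) (.pp [(1, 20629224000)])) (.add (.mul (.g 17) (.pp [(1,
 7428000000)])) (.mul (.g 18) (.pp [(1, 515749800000)]))))) (.mul (.g 12) (.add (.mul (.g 5) (.pp
 [(1, 126936600000)])) (.add (.mul (.g 8) (.pp [(1, 5283000000)])) (.mul (.g 20) (.pp [(1,
 33846000000)])))))) (.add (.mul (.g 13) (.mul (.g 13) (.pp [(1, 196534800000)]))) (.mul (.g 17)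
 (.mul (.g 20) (.pp [(1, 7443000000)]))))))) (.add (.mul (.g 9) (.add (.add (.mul (.g 13) (.add
 (.mul (.g 13) (.pp [(1, 142107000000)])) (.mul (.g 20) (.pp [(1, 91672200000)])))) (.mul (.g 6)
 (.mul (.g 10) (.pp [(1, 157647600000)])))) (.add (.mul (.g 7) (.mul (.g 9) (.pp [(1,
 2731920000)]))) (.mul (.g 20) (.pp [(1, 97482000000)]))))) (.mul (.g 5) (.add (.pp [(1,
 193518000000)]) (.mul (.g 7) (.mul (.g 17) (.pp [(1, 1032000)]))))))) (.add (.add (.mul (.g 8)
 (.add (.pp [(1, 34105800000)]) (.mul (.g 8) (.mul (.g 13) (.pp [(1, 6303240000)]))))) (.mul (.g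
 10) (.add (.mul (.g 10) (.mul (.g 17) (.pp [(1, 7800000)]))) (.mul (.g 20) (.pp [(1,
 157607400000)]))))) (.add (.mul (.g 7) (.pp [(1, 7737888000)])) (.mul (.g 20) (.pp [(1,
 149336400000)])))))) (.add (.mul (.g 9) (.add (.add (.mul (.g 9) (.add (.mul (.g 20) (.add (.add
 (.mul (.g 9) (.pp [(1, 85822200000)])) (.mul (.g 11) (.pp [(1, 134183400000)]))) (.add (.mul (.g
 13) (.pp [(1, 127747200000)])) (.mul (.g 14) (.pp [(1, 65897400000)]))))) (.add (.mul (.g 7) (.add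
 (.mul (.g 9) (.pp [(1, 324504000)])) (.mul (.g 18) (.pp [(1, 432000)])))) (.mul (.g 10) (.mul (.g
 17) (.pp [(1, 53913000000)])))))) (.mul (.g 5) (.add (.pp [(1, 174955800000)]) (.mul (.g 13) (.mul
 (.g 13) (.pp [(1, 8125200000)])))))) (.add (.mul (.g 6) (.add (.mul (.g 6) (.mul (.g 6) (.pp [(1,
 11959200000)]))) (.mul (.g 10) (.mul (.g 14) (.pp [(1, 11968200000)]))))) (.mul (.g 14) (.mul (.g
 15) (.pp [(1, 102173400000)])))))) (.mul (.g 11) (.add (.add (.mul (.g 5) (.add (.mul (.g 5) (.pp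
 [(1, 5587200000)])) (.add (.mul (.g 10) (.mul (.g 10) (.pp [(1, 68274600000)]))) (.mul (.g 14)
 (.pp [(1, 194386800000)]))))) (.mul (.g 11) (.add (.mul (.g 20) (.add (.mul (.g 14) (.pp [(1,
 4200000)])) (.mul (.g 17) (.pp [(1, 68272200000)])))) (.mul (.g 11) (.mul (.g 13) (.pp [(1,
 12000000)])))))) (.add (.mul (.g 6) (.add (.mul (.g 6) (.mul (.g 10) (.pp [(1, 56342400000)])))
 (.mul (.g 8) (.mul (.g 17) (.pp [(1, 11269080000)]))))) (.add (.mul (.g 7) (.mul (.g 20) (.pp [(1,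
 2843160000)]))) (.mul (.g 13) (.mul (.g 16) (.pp [(1, 4232460000)]))))))))) (.add (.add (.mul (.g
 5) (.add (.pp [(1, 330600000)]) (.add (.mul (.g 5) (.add (.pp [(1, 50371800000)]) (.add (.mul (.g
 6) (.pp [(1, 13227000000)])) (.mul (.g 16) (.mul (.g 18) (.pp [(1, 90000)])))))) (.mul (.g 10)
 (.add (.pp [(1, 99160200000)]) (.mul (.g 10) (.pp [(1, 90174000000)]))))))) (.mul (.g 6) (.add
 (.add (.pp [(1, 13117800000)]) (.mul (.g 6) (.pp [(1, 1646400000)]))) (.add (.mul (.g 8) (.mul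
 (.pp [(1, 36)]) (.sq [(1, 56), (2, 66), (3, -81), (5, 100), (7, -44)]))) (.add (.mul (.g 10) (.pp
 [(1, 198023400000)])) (.mul (.g 20) (.mul (.pp [(1, 69000)]) (.sq [(2, 20), (5, -9), (7,
 16)])))))))) (.add (.mul (.g 14) (.add (.mul (.g 13) (.mul (.pp [(1, 1380)]) (.sq [(1, 2), (2,
 78), (3, -67), (5, 12), (7, 100)]))) (.mul (.g 16) (.mul (.pp [(1, 21)]) (.sq [(1, 38), (2, -88),
 (3, 3), (5, -100), (7, -90)]))))) (.mul (.g 17) (.add (.mul (.g 10) (.mul (.g 10) (.mul (.g 10)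
 (.pp [(1, 7200000)])))) (.mul (.g 20) (.pp [(1, 10312200000)]))))))) (.add (.add (.add (.mul (.g
 0) (.pp [(1, 480000000)])) (.mul (.g 1) (.pp [(1, 60000000)]))) (.add (.mul (.g 3) (.pp [(1,
 200000000000)])) (.mul (.g 4) (.pp [(1, 200000000000)])))) (.add (.add (.mul (.g 7) (.mul (.g 7)
 (.pp [(1, 296887680)]))) (.mul (.g 18) (.mul (.g 18) (.pp [(1, 34448400000)])))) (.add (.mul (.g
 19) (.pp [(1, 200000000000)])) (.mul (.g 20) (.mul (.pp [(1, 900)]) (.sq [(2, 26), (3, -71), (5,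
 100), (7, -16)]))))))) (.pp [(1, 5399127876), (2, 6046116), (3, 6477744), (4, 5953968), (5,
 5411484), (6, 6013284), (7, 6291240), (8, 6235248), (9, 5823513), (10, 6110112), (12, 5835696),
 (14, 6085224), (15, 6014148), (16, 5648400), (18, 6322989), (20, 5440224), (21, 5530476), (24,
 6637680), (25, 6002400), (27, 5963547), (28, 6161424), (30, 6026712), (35, 6242760), (36,
 6009720), (40, 5874480), (42, 5686452), (45, 6149619), (49, 6100500), (50, 6392760), (54,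
 5681400), (56, 5980800), (60, 5949840), (63, 5802624), (70, 5155440), (75, 6657840), (81,
 6022800), (84, 6842160), (90, 6337140), (98, 5439012), (100, 6483840), (105, 6502860), (125,
 6506720), (126, 5486880), (135, 5671560), (140, 5678400), (147, 6095388), (150, 5497560), (175,
 6757200), (189, 6290160), (196, 6042000), (210, 6667200), (225, 5688780), (245, 5987100), (250,
 5393280), (294, 6240480), (315, 5618400), (343, 6230400), (350, 6631800), (375, 5748000), (441,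
 5717520), (490, 6468000), (525, 4882200), (625, 6000000), (686, 5736000), (735, 6132000), (875,
 5760000), (1029, 5664000), (1225, 5802000), (1715, 6000000), (2401, 6000000)]))))))))
 (.rule 1 (.rule 3 (.cut 1 [(1, 3), (3, -2)] (.add (.add (.mul (.g 6) (.pp [(1, 1)])) (.mul (.g 11)
 (.pp [(1, 2)]))) (.add (.mul (.g 2) (.pp [(1, 2)])) (.mul (.g 10) (.pp [(1, 1)])))) (.rule 8
 (.rule 10 (.leaf 300000000 (.add (.add (.add (.add (.mul (.pp [(1, 1441500)]) (.sq [(1, -80), (2,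
 71), (3, -75), (5, 100), (7, 22)])) (.add (.mul (.g 14) (.add (.add (.add (.mul (.g 7) (.add (.mul
 (.g 11) (.add (.mul (.g 7) (.pp [(1, 170558400)])) (.add (.mul (.g 17) (.pp [(1, 1271520000)]))
 (.mul (.g 20) (.pp [(1, 5220600000)]))))) (.add (.mul (.g 9) (.mul (.g 13) (.pp [(1,
 5196720000)]))) (.mul (.g 12) (.mul (.g 12) (.pp [(1, 6670560000)])))))) (.mul (.g 8) (.add (.pp
 [(1, 211857600000)]) (.add (.mul (.g 5) (.add (.mul (.g 6) (.pp [(1, 28242000000)])) (.mul (.g 8)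
 (.pp [(1, 854760000)])))) (.mul (.g 10) (.mul (.g 10) (.pp [(1, 56310600000)]))))))) (.add (.mul
 (.g 12) (.add (.mul (.g 12) (.add (.mul (.g 5) (.pp [(1, 990000000)])) (.mul (.g 12) (.pp [(1,
 63474000000)])))) (.mul (.g 20) (.pp [(1, 215937000000)])))) (.add (.mul (.g 14) (.add (.pp [(1,
 729609000000)]) (.add (.mul (.pp [(1, 5099700)]) (.sq [(1, -4), (2, -69), (3, -100), (5, 64), (7,
 88)])) (.mul (.pp [(1, 5866500)]) (.sq [(1, 60), (2, 44), (3, -43), (5, 100), (7, -49)]))))) (.mul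
 (.g 9) (.add (.mul (.pp [(1, 8005200)]) (.sq [(1, 26), (2, 34), (3, 100), (5, 56), (7, -51)]))
 (.mul (.g 9) (.mul (.g 9) (.pp [(1, 158685000000)])))))))) (.add (.add (.mul (.g 18) (.add (.pp
 [(1, 594120000000)]) (.mul (.g 10) (.mul (.g 10) (.pp [(1, 162147000000)]))))) (.mul (.g 20) (.add
 (.mul (.pp [(1, 3097500)]) (.sq [(1, 100), (2, -73), (3, -86), (5, -86), (7, -35)])) (.mul (.pp
 [(1, 7322400)]) (.sq [(1, 48), (2, 49), (3, 11), (5, 100), (7, 29)]))))) (.add (.mul (.g 6) (.mul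
 (.pp [(1, 14326200)]) (.sq [(1, 66), (2, 31), (3, -36), (5, 26), (7, 100)]))) (.add (.mul (.g 13)
 (.mul (.g 13) (.mul (.g 13) (.pp [(1, 223599000000)])))) (.mul (.g 16) (.mul (.pp [(1, 284310)])
 (.sq [(1, 43), (2, 100), (3, 82), (5, -50), (7, 46)])))))))) (.mul (.g 20) (.add (.add (.mul (.pp
 [(1, 49416600)]) (.sq [(1, -54), (2, 100), (3, -49), (5, 45), (7, -8)])) (.add (.mul (.g 12) (.add
 (.add (.mul (.pp [(1, 2855100)]) (.sq [(1, 64), (2, 61), (3, 48), (5, 7), (7, -100)])) (.mul (.g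
 9) (.add (.add (.pp [(1, 471954000000)]) (.mul (.g 13) (.pp [(1, 553011000000)]))) (.add (.mul (.g
 15) (.pp [(1, 553482000000)])) (.mul (.g 20) (.pp [(1, 374934000000)])))))) (.add (.mul (.g 8)
 (.add (.mul (.g 10) (.pp [(1, 99665400000)])) (.mul (.g 20) (.pp [(1, 36443400000)])))) (.add
 (.mul (.g 12) (.add (.mul (.g 12) (.pp [(1, 140679000000)])) (.mul (.g 13) (.pp [(1,
 171480000000)])))) (.mul (.g 18) (.pp [(1, 59331000000)])))))) (.mul (.g 5) (.add (.mul (.g 10)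
 (.add (.mul (.g 5) (.pp [(1, 137856000000)])) (.add (.mul (.g 7) (.pp [(1, 4733400000)])) (.mul
 (.g 16) (.pp [(1, 498600000)]))))) (.mul (.g 7) (.mul (.g 11) (.pp [(1, 2964000000)]))))))) (.add
 (.mul (.g 13) (.mul (.g 18) (.add (.mul (.g 13) (.pp [(1, 40602000000)])) (.mul (.g 20) (.pp [(1,
 160149000000)]))))) (.add (.mul (.g 17) (.add (.mul (.pp [(1, 6129300)]) (.sq [(1, -49), (2, 100),
 (3, -46), (5, 59), (7, -12)])) (.mul (.pp [(1, 12708000)]) (.sq [(1, 50), (2, -41), (3, -41), (5,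
 -41), (7, -31)])))) (.mul (.g 7) (.mul (.g 9) (.pp [(1, 3537120000)]))))))))) (.add (.add (.mul
 (.g 6) (.add (.add (.mul (.g 6) (.add (.add (.pp [(1, 599757000000)]) (.mul (.pp [(1, 109180800)])
 (.sq [(1, 11), (2, 20), (7, 25)]))) (.add (.mul (.pp [(1, 15007800)]) (.sq [(1, -11), (2, 43), (3,
 -89), (5, 100), (7, 9)])) (.mul (.g 6) (.mul (.g 11) (.pp [(1, 470256000000)])))))) (.mul (.g 12)
 (.add (.mul (.g 9) (.add (.mul (.g 10) (.pp [(1, 426099000000)])) (.mul (.g 13) (.pp [(1,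
 760086000000)])))) (.add (.mul (.g 8) (.mul (.g 10) (.pp [(1, 76015200000)]))) (.mul (.g 12) (.mul
 (.g 13) (.pp [(1, 394374000000)]))))))) (.add (.mul (.g 8) (.add (.mul (.g 7) (.mul (.g 9) (.pp
 [(1, 1180248000)]))) (.mul (.g 8) (.mul (.g 11) (.pp [(1, 11258880000)]))))) (.mul (.g 18) (.mul
 (.pp [(1, 25858200)]) (.sq [(1, -29), (2, -83), (3, 100), (5, 37)])))))) (.mul (.g 18) (.add (.mul
 (.g 18) (.add (.mul (.pp [(1, 5078400)]) (.sq [(1, -51), (2, -33), (3, -95), (5, 100), (7, 99)]))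
 (.add (.mul (.pp [(1, 11643600)]) (.sq [(1, 25), (2, 33), (3, 28), (5, -46), (7, 100)])) (.mul (.g
 18) (.add (.mul (.g 11) (.pp [(1, 34188000000)])) (.mul (.g 12) (.pp [(1, 223656000000)])))))))
 (.mul (.g 8) (.add (.pp [(1, 283222200000)]) (.mul (.g 9) (.mul (.g 10) (.pp [(1,
 190159800000)])))))))) (.add (.mul (.g 8) (.add (.mul (.g 8) (.pp [(1, 12891360000)])) (.add (.mul
 (.g 9) (.mul (.g 9) (.mul (.g 9) (.pp [(1, 1287600000)])))) (.mul (.g 16) (.mul (.pp [(1, 99201)])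
 (.sq [(1, 61), (2, -48), (3, -100), (5, 57), (7, 76)])))))) (.mul (.g 11) (.add (.mul (.pp [(1,
 21113700)]) (.sq [(1, 35), (2, -75), (3, 100), (5, -77), (7, 14)])) (.mul (.g 9) (.mul (.pp [(1,
 19596600)]) (.sq [(1, 26), (2, -75), (3, -33), (5, 22), (7, 100)])))))))) (.add (.add (.mul (.g
 12) (.add (.mul (.pp [(1, 12419700)]) (.sq [(1, -33), (2, -20), (3, -12), (5, 17), (7, 100)]))
 (.mul (.g 7) (.mul (.pp [(1, 824544)]) (.sq [(1, 6), (2, 8), (3, 25), (5, -50), (7, 49)])))))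
 (.add (.mul (.g 0) (.pp [(1, 2400000000)])) (.mul (.g 1) (.pp [(1, 300000000)])))) (.add (.add
 (.mul (.g 3) (.pp [(1, 1000000000000)])) (.mul (.g 4) (.pp [(1, 1000000000000)]))) (.add (.mul (.g
 17) (.mul (.g 17) (.mul (.pp [(1, 1210500)]) (.sq [(1, -61), (2, 100), (3, -15), (5, 48), (7,
 -46)])))) (.mul (.g 19) (.pp [(1, 1000000000000)])))))) (.pp [(1, 1854837243), (2, 29813562), (3,
 34161075), (4, 23579652), (5, 27070092), (6, 31494900), (7, 27925824), (8, 25038460), (9,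
 37189680), (10, 26016144), (12, 48891120), (14, 32610720), (15, 34205190), (16, 30509100), (18,
 15213360), (20, 31382160), (21, 35329380), (24, 29459700), (25, 33968817), (27, 24768840), (28,
 34160232), (30, 30024840), (35, 41965152), (36, 25143300), (40, 25252800), (42, 28691280), (45,
 17060040), (49, 29826312), (50, 30671340), (54, 32802600), (56, 29441100), (60, 30401100), (63,
 15965640), (70, 31516800), (75, 27378945), (81, 32592000), (84, 31561200), (90, 36342000), (98,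
 24199212), (100, 33969900), (105, 23025360), (125, 33914640), (126, 26994600), (135, 33053400),
 (140, 27098100), (147, 28827240), (150, 29814900), (175, 15362940), (189, 35026200), (196,
 26611800), (210, 30477600), (225, 34713300), (245, 29875020), (250, 32668200), (294, 38935500),
 (315, 38917200), (343, 29577948), (350, 30609600), (375, 25863300), (441, 28391400), (490,
 29190600), (525, 29516400), (625, 27271200), (686, 32355900), (735, 31847100), (875, 34849200),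
 (1029, 30456900), (1225, 28727400), (1715, 31030500), (2401, 30000000)]))))))))))
 (.rule 5 (.rule 6 (.cut 1 [(1, 3), (3, -2)] (.add (.add (.mul (.g 9) (.pp [(1, 1)])) (.mul (.g 12)
 (.pp [(1, 1)]))) (.add (.mul (.g 6) (.pp [(1, 1)])) (.mul (.g 8) (.pp [(1, 1)])))) (.rule 8 (.leaf
 1500000000 (.add (.add (.add (.add (.mul (.g 9) (.add (.add (.mul (.g 6) (.add (.add (.mul (.g 10)
 (.add (.add (.mul (.g 7) (.pp [(1, 1154850000000)])) (.mul (.g 14) (.pp [(1, 387300000000)])))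
 (.add (.mul (.g 15) (.pp [(1, 3451770000000)])) (.mul (.g 17) (.pp [(1, 7915860000000)]))))) (.mul
 (.g 5) (.add (.pp [(1, 2150862000000)]) (.add (.mul (.g 5) (.pp [(1, 20122800000)])) (.mul (.g 17)
 (.pp [(1, 75900000000)])))))) (.add (.mul (.g 17) (.add (.pp [(1, 4053540000000)]) (.mul (.g 8)
 (.pp [(1, 1634145000000)])))) (.mul (.g 9) (.mul (.g 9) (.pp [(1, 3147045000000)])))))) (.mul (.g
 9) (.add (.add (.mul (.g 4) (.add (.mul (.g 5) (.pp [(1, 11175360000)])) (.add (.mul (.g 7) (.pp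
 [(1, 15880200000)])) (.mul (.g 9) (.pp [(1, 70446600000)]))))) (.mul (.g 9) (.add (.mul (.g 7)
 (.pp [(1, 830610000000)])) (.mul (.g 17) (.pp [(1, 857145000000)]))))) (.add (.mul (.g 13) (.add
 (.pp [(1, 14087250000)]) (.mul (.g 15) (.pp [(1, 19974750000)])))) (.mul (.g 15) (.mul (.g 17)
 (.pp [(1, 1564170000000)]))))))) (.add (.mul (.g 5) (.add (.add (.pp [(1, 171924000000)]) (.mul
 (.g 5) (.mul (.g 17) (.pp [(1, 9555600000)])))) (.add (.mul (.g 8) (.mul (.g 8) (.pp [(1,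
 246987000000)]))) (.mul (.g 10) (.mul (.g 14) (.pp [(1, 127611000000)])))))) (.add (.mul (.g 4)
 (.add (.pp [(1, 15250200000)]) (.add (.mul (.g 4) (.mul (.g 11) (.pp [(1, 94536000)]))) (.mul (.g
 8) (.mul (.g 13) (.pp [(1, 2836560000)])))))) (.mul (.g 11) (.add (.mul (.g 8) (.mul (.g 13) (.pp
 [(1, 57958500000)]))) (.mul (.g 17) (.pp [(1, 1769985000000)])))))))) (.add (.mul (.g 4) (.add
 (.add (.mul (.g 6) (.add (.add (.mul (.g 7) (.add (.mul (.g 5) (.pp [(1, 11209920000)])) (.mul (.g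
 17) (.pp [(1, 2406600000)])))) (.mul (.g 8) (.add (.mul (.g 4) (.pp [(1, 2065320000)])) (.mul (.g
 6) (.pp [(1, 84454800000)]))))) (.add (.mul (.g 12) (.add (.mul (.g 12) (.pp [(1, 33064200000)]))
 (.mul (.g 13) (.pp [(1, 1994790000)])))) (.mul (.g 11) (.mul (.g 13) (.pp [(1, 6957570000)]))))))
 (.add (.mul (.g 8) (.add (.add (.mul (.pp [(1, 3934860)]) (.sq [(1, 92), (2, -48), (3, 100), (5,
 6), (7, -67)])) (.mul (.g 4) (.add (.mul (.g 8) (.pp [(1, 178584000)])) (.mul (.g 15) (.pp [(1,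
 750792000)]))))) (.add (.mul (.g 5) (.mul (.g 7) (.pp [(1, 5804760000)]))) (.mul (.g 12) (.mul (.g
 12) (.pp [(1, 2290800000)])))))) (.mul (.g 5) (.add (.pp [(1, 65944440000)]) (.mul (.pp [(1,
 799236)]) (.sq [(1, 39), (2, 10), (3, -10), (5, 100), (7, 1)])))))) (.add (.mul (.g 10) (.mul (.g
 10) (.mul (.g 17) (.pp [(1, 1234800000)])))) (.add (.mul (.g 12) (.mul (.pp [(1, 4743660)]) (.sq
 [(1, 14), (2, -100), (3, -83), (5, 90), (7, -2)]))) (.mul (.g 13) (.pp [(1, 7009950000)]))))))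
 (.mul (.g 5) (.add (.add (.mul (.g 7) (.add (.mul (.g 5) (.mul (.g 14) (.pp [(1, 13133400000)])))
 (.add (.mul (.g 6) (.mul (.g 6) (.pp [(1, 963123000000)]))) (.mul (.g 7) (.pp [(1,
 80949000000)]))))) (.add (.mul (.g 10) (.add (.pp [(1, 19902000000)]) (.mul (.g 8) (.mul (.g 8)
 (.pp [(1, 734769000000)]))))) (.mul (.g 6) (.mul (.g 6) (.mul (.g 11) (.pp [(1,
 327453000000)])))))) (.add (.mul (.g 12) (.mul (.pp [(1, 2929800)]) (.sq [(1, 2), (2, 100), (3,
 21), (5, -79), (7, -16)]))) (.add (.mul (.g 13) (.pp [(1, 2846850000)])) (.mul (.g 17) (.mul (.pp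
 [(1, 35950800)]) (.sq [(1, 44), (2, 50), (3, 15), (5, 15), (7, 20)]))))))))) (.add (.mul (.g 11)
 (.add (.add (.mul (.g 11) (.add (.pp [(1, 3205635000000)]) (.mul (.pp [(1, 30345000)]) (.sq [(1,
 -15), (2, -13), (3, -48), (5, 100), (7, 45)])))) (.add (.mul (.g 8) (.mul (.pp [(1, 43315500)])
 (.sq [(1, -76), (2, -48), (3, 35), (5, -8), (7, 100)]))) (.mul (.g 10) (.mul (.pp [(1,
 107908500)]) (.sq [(1, 16), (2, -100), (3, -45), (5, -7), (7, 96)]))))) (.add (.mul (.g 14) (.mul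
 (.pp [(1, 2646000)]) (.sq [(1, 26), (2, 21), (3, -67), (5, 100), (7, 40)]))) (.add (.mul (.g 15)
 (.mul (.pp [(1, 713916000)]) (.sq [(1, 13), (2, 50), (3, 9), (5, -27), (7, -14)]))) (.mul (.g 17)
 (.mul (.pp [(1, 29215500)]) (.sq [(1, 100), (2, -65), (3, -89), (5, -89), (7, -32)]))))))) (.add
 (.mul (.g 17) (.add (.add (.mul (.g 6) (.mul (.g 6) (.add (.mul (.g 7) (.pp [(1, 4081575000000)]))
 (.mul (.g 8) (.pp [(1, 116790000000)]))))) (.mul (.g 15) (.add (.mul (.pp [(1, 27805500)]) (.sq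
 [(1, 100), (2, -50), (3, -85), (5, -85), (7, -63)])) (.mul (.pp [(1, 45237000)]) (.sq [(1, -63),
 (2, 100), (3, -53), (5, 61), (7, 15)]))))) (.add (.mul (.g 10) (.mul (.pp [(1, 4308000)]) (.sq
 [(1, 76), (2, -100), (3, -40), (5, 54), (7, -61)]))) (.mul (.g 17) (.mul (.pp [(1, 15072000)])
 (.sq [(1, 100), (2, -50), (3, -57), (5, -57), (7, -27)])))))) (.mul (.g 10) (.add (.mul (.pp [(1,
 414520500)]) (.sq [(1, -27), (2, 100), (3, -7), (5, -7), (7, 19)])) (.mul (.g 13) (.mul (.pp [(1,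
 4889025)]) (.sq [(1, -4), (2, 100), (3, -29), (5, -52), (7, 51)])))))))) (.add (.add (.mul (.g 0)
 (.pp [(1, 1500000000)])) (.add (.mul (.g 2) (.pp [(1, 5000000000000)])) (.mul (.g 3) (.pp [(1,
 5000000000000)])))) (.add (.mul (.g 8) (.mul (.g 8) (.mul (.pp [(1, 348598500)]) (.sq [(1, -17),
 (2, 100), (3, 29), (5, -40), (7, -37)])))) (.add (.mul (.g 13) (.mul (.pp [(1, 12384900)]) (.sq
 [(2, 100), (3, -40), (5, -40), (7, -3)]))) (.mul (.g 16) (.pp [(1, 5000000000000)])))))) (.pp [(1,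
 9970235256), (2, 126904500), (3, 177119940), (4, 172400100), (5, 182692500), (6, 161437920), (7,
 150016608), (8, 132416500), (9, 116723505), (10, 172883040), (12, 136183000), (14, 167071800),
 (15, 72000180), (16, 151695000), (18, 139895455), (20, 163940020), (21, 131401770), (23,
 15000000000000), (24, 156823500), (25, 103102620), (27, 173587320), (28, 141256500), (30,
 165406800), (35, 101234280), (36, 152764500), (40, 153798000), (42, 132299190), (45, 188539920),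
 (49, 151834161), (50, 129041320), (54, 156475500), (56, 154837500), (60, 133930500), (63,
 164235360), (70, 123323160), (75, 212151000), (81, 141763500), (84, 153886500), (90, 137499000),
 (98, 151875255), (100, 131983500), (105, 243046560), (125, 173735580), (126, 173011500), (135,
 145551000), (140, 151045500), (147, 143159460), (150, 155538000), (175, 204002880), (189,
 147202500), (196, 147910500), (210, 147198000), (225, 137538000), (245, 151196640), (250,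
 157897500), (294, 170710500), (315, 129360000), (343, 140710500), (350, 165088500), (375,
 137385000), (441, 143823000), (490, 147826500), (525, 94114500), (625, 152352000), (686,
 147204000), (735, 153975000), (875, 131928000), (1029, 153336000), (1225, 145491000), (1715,
 148357500), (2401, 157512000)]))))))))
 (.split [(1, -7), (3, 50)]
 (.split [(1, -17), (5, 25)]
 (.split [(2, 1), (3, -1)]
 (.split [(2, 1), (5, -1)]
 (.rule 0 (.rule 2 (.rule 7 (.rule 10 (.leaf 300000000 (.add (.add (.add (.add (.mul (.g 20) (.add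
 (.add (.add (.mul (.pp [(1, 2534400)]) (.sq [(2, 77), (3, 77), (5, 100), (7, 77)])) (.mul (.g 12)
 (.add (.add (.pp [(1, 14751000000)]) (.add (.mul (.g 10) (.add (.mul (.g 10) (.pp [(1,
 1009947000000)])) (.add (.mul (.g 17) (.pp [(1, 961653000000)])) (.mul (.g 20) (.pp [(1,
 67680000000)]))))) (.mul (.g 13) (.add (.mul (.g 5) (.pp [(1, 1185522000000)])) (.mul (.g 17) (.pp
 [(1, 23985000000)])))))) (.add (.mul (.g 4) (.mul (.g 17) (.pp [(1, 46713000000)]))) (.add (.mul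
 (.g 9) (.mul (.g 20) (.pp [(1, 633099000000)]))) (.mul (.g 12) (.mul (.g 12) (.pp [(1,
 176970000000)])))))))) (.add (.mul (.g 10) (.add (.mul (.g 8) (.add (.pp [(1, 25828200000)]) (.mul
 (.g 20) (.pp [(1, 11064000000)])))) (.add (.mul (.g 9) (.mul (.g 9) (.pp [(1, 475917000000)])))
 (.mul (.g 10) (.mul (.g 13) (.pp [(1, 395673000000)])))))) (.add (.mul (.g 20) (.add (.mul (.pp
 [(1, 1318500)]) (.sq [(1, -63), (2, 100), (3, -41), (5, 93), (7, -44)])) (.mul (.pp [(1,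
 5064000)]) (.sq [(1, 100), (2, -58), (3, -20), (5, -67), (7, -32)])))) (.mul (.g 6) (.pp [(1,
 20007960000)]))))) (.add (.add (.mul (.g 8) (.pp [(1, 39987000000)])) (.mul (.g 9) (.mul (.pp [(1,
 10665600)]) (.sq [(1, 38), (2, 39), (3, 50), (5, 50), (7, 19)])))) (.add (.mul (.g 11) (.mul (.g
 11) (.mul (.g 11) (.pp [(1, 51948000000)])))) (.add (.mul (.g 14) (.mul (.pp [(1, 88200)]) (.sq
 [(1, 1), (2, -67), (3, -32), (5, 15), (7, 100)]))) (.mul (.g 17) (.mul (.pp [(1, 8166300)]) (.sq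
 [(1, 11), (2, -44), (3, -51), (7, 100)])))))))) (.add (.mul (.g 13) (.add (.add (.mul (.g 9) (.add
 (.add (.mul (.g 5) (.add (.mul (.g 5) (.pp [(1, 300447000000)])) (.add (.mul (.g 6) (.pp [(1,
 45228120000)])) (.mul (.g 9) (.pp [(1, 194508000000)]))))) (.mul (.g 6) (.pp [(1, 31886160000)])))
 (.add (.mul (.g 9) (.mul (.g 18) (.pp [(1, 180453000000)]))) (.mul (.g 11) (.mul (.g 13) (.pp [(1,
 595536000000)])))))) (.mul (.g 12) (.add (.add (.pp [(1, 73002000000)]) (.mul (.pp [(1,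
 31702200)]) (.sq [(1, -19), (2, 13), (3, 100), (5, -22), (7, 5)]))) (.add (.mul (.g 8) (.mul (.g
 10) (.pp [(1, 60320400000)]))) (.mul (.g 17) (.mul (.g 17) (.pp [(1, 221802000000)]))))))) (.add
 (.mul (.g 6) (.mul (.g 11) (.add (.mul (.g 11) (.pp [(1, 3245880000)])) (.mul (.g 13) (.pp [(1,
 5068440000)]))))) (.add (.mul (.g 16) (.add (.mul (.pp [(1, 55230)]) (.sq [(1, 17), (2, -30), (3,
 10), (5, 73), (7, 100)])) (.mul (.g 16) (.pp [(1, 653632500)])))) (.mul (.g 13) (.mul (.pp [(1,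
 54487800)]) (.sq [(1, 41), (2, -100), (3, 59), (5, 59), (7, -59)]))))))) (.mul (.g 5) (.add (.add
 (.mul (.g 5) (.add (.mul (.pp [(1, 266932800)]) (.sq [(1, 25), (2, -19), (3, 16), (5, 8), (7,
 -9)])) (.add (.mul (.g 11) (.add (.mul (.g 9) (.pp [(1, 487467000000)])) (.mul (.g 18) (.pp [(1,
 225231000000)])))) (.mul (.g 7) (.pp [(1, 16377300000)]))))) (.mul (.g 6) (.add (.mul (.g 6) (.add
 (.mul (.g 9) (.pp [(1, 648220800)])) (.mul (.g 12) (.pp [(1, 610632000)])))) (.mul (.g 11) (.add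
 (.mul (.g 9) (.pp [(1, 264720000)])) (.mul (.g 18) (.pp [(1, 1206120000)]))))))) (.add (.mul (.g
 12) (.mul (.g 18) (.mul (.g 18) (.pp [(1, 40641000000)])))) (.mul (.g 15) (.mul (.pp [(1,
 10967400)]) (.sq [(1, -35), (2, 100), (3, 28), (5, -8), (7, -46)])))))))) (.add (.add (.mul (.g 4)
 (.add (.add (.pp [(1, 788769000000)]) (.mul (.g 4) (.add (.pp [(1, 33177000000)]) (.add (.mul (.g
 11) (.pp [(1, 597681000000)])) (.mul (.g 15) (.pp [(1, 309381000000)])))))) (.add (.mul (.g 10)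
 (.pp [(1, 1447773000000)])) (.add (.mul (.g 14) (.mul (.pp [(1, 10837200)]) (.sq [(1, 69), (2,
 -26), (3, -56), (5, -7), (7, 100)]))) (.mul (.g 18) (.pp [(1, 5394000000)])))))) (.mul (.g 6)
 (.add (.add (.mul (.g 12) (.add (.mul (.g 7) (.mul (.g 10) (.pp [(1, 671107200)]))) (.mul (.g 12)
 (.mul (.g 12) (.pp [(1, 165240000)]))))) (.mul (.g 18) (.add (.mul (.pp [(1, 71676)]) (.sq [(1,
 10), (2, -11), (3, 100), (5, -13), (7, 98)])) (.mul (.g 11) (.mul (.g 18) (.pp [(1,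
 722280000)])))))) (.add (.mul (.g 8) (.mul (.g 9) (.mul (.g 9) (.pp [(1, 2245728000)])))) (.mul
 (.g 16) (.pp [(1, 181920000)])))))) (.add (.mul (.g 16) (.add (.add (.mul (.g 7) (.pp [(1,
 577959000)])) (.mul (.g 9) (.mul (.g 9) (.mul (.g 18) (.pp [(1, 13742550000)]))))) (.add (.mul (.g
 12) (.pp [(1, 40391100000)])) (.mul (.g 14) (.mul (.pp [(1, 390645)]) (.sq [(1, 13), (2, -93), (3,
 -62), (5, 62), (7, -100)])))))) (.mul (.g 18) (.add (.mul (.g 7) (.mul (.pp [(1, 202848)]) (.sq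
 [(1, 22), (2, 14), (3, 100), (5, -37), (7, 98)]))) (.add (.mul (.g 12) (.mul (.pp [(1, 39911700)])
 (.sq [(1, 9), (2, 18), (3, 100), (5, -39), (7, -20)]))) (.mul (.g 18) (.pp [(1,
 679407000000)])))))))) (.add (.add (.mul (.g 8) (.mul (.g 8) (.add (.pp [(1, 1452240000)]) (.mul
 (.g 7) (.mul (.g 12) (.pp [(1, 224332800)])))))) (.add (.mul (.g 0) (.pp [(1, 2400000000)])) (.mul
 (.g 1) (.pp [(1, 600000000)])))) (.add (.add (.mul (.g 2) (.pp [(1, 1000000000000)])) (.mul (.g 3)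
 (.pp [(1, 1000000000000)]))) (.add (.mul (.g 14) (.mul (.g 14) (.mul (.pp [(1, 1479300)]) (.sq
 [(1, 11), (2, -48), (3, -3), (5, 89), (7, 100)])))) (.mul (.g 19) (.pp [(1, 1000000000000)]))))))
 (.pp [(1, 26920348899), (2, 26971461), (3, 30300795), (4, 29790543), (5, 28352103), (6, 35295690),
 (7, 29473752), (8, 24271745), (9, 29645580), (10, 28509030), (12, 30433515), (14, 40394832), (15,
 36496560), (16, 33636900), (18, 36766560), (20, 39913707), (21, 36911700), (24, 28726800), (25,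
 29866650), (27, 25563580), (28, 28044600), (30, 18774960), (35, 34076460), (36, 29103600), (40,
 27059400), (42, 22361400), (45, 24197820), (49, 31902612), (50, 28986834), (54, 30569400), (56,
 31101600), (60, 27137400), (63, 19722300), (70, 21422568), (75, 25396020), (81, 30257100), (84,
 35205000), (90, 38002200), (98, 27249600), (100, 32957100), (105, 14859600), (125, 35860948),
 (126, 25267200), (135, 29825400), (140, 31333800), (147, 27814200), (150, 29392200), (175,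
 28630788), (189, 36975900), (196, 34959000), (210, 39781200), (225, 31527900), (245, 21258888),
 (250, 24559800), (294, 24722400), (315, 32696400), (343, 29442600), (350, 28282200), (375,
 30562200), (441, 32915100), (490, 29685600), (525, 36783600), (625, 30060600), (686, 31068600),
 (735, 34413000), (875, 28669500), (1029, 29628000), (1225, 35057100), (1715, 27852000), (2401,
 31848000)])))))))
 (.rule 0 (.rule 3 (.rule 7 (.rule 10 (.leaf 15000000 (.add (.add (.add (.add (.mul (.pp [(1,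
 821655)]) (.sq [(1, -73), (2, 71), (3, -100), (5, 91), (7, 6)])) (.add (.mul (.pp [(1, 2117835)])
 (.sq [(1, -61), (2, -70), (3, 6), (5, 100), (7, 2)])) (.mul (.g 20) (.add (.add (.mul (.g 12)
 (.add (.add (.mul (.g 18) (.add (.add (.pp [(1, 1405200000)]) (.mul (.g 9) (.pp [(1,
 6064950000)]))) (.add (.mul (.g 12) (.pp [(1, 7449450000)])) (.mul (.g 18) (.pp [(1,
 8347950000)]))))) (.add (.mul (.g 5) (.add (.pp [(1, 8498550000)]) (.add (.mul (.g 12) (.pp [(1,
 3156450000)])) (.mul (.g 13) (.pp [(1, 67832700000)]))))) (.mul (.g 7) (.add (.pp [(1,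
 589374000)]) (.add (.mul (.g 11) (.pp [(1, 381216000)])) (.mul (.g 20) (.pp [(1, 40602000)])))))))
 (.add (.mul (.g 10) (.add (.mul (.g 10) (.pp [(1, 23775450000)])) (.mul (.g 20) (.pp [(1,
 6453600000)])))) (.add (.mul (.g 9) (.mul (.g 20) (.pp [(1, 32961300000)]))) (.mul (.g 12) (.mul
 (.g 12) (.pp [(1, 10936050000)]))))))) (.add (.mul (.g 5) (.add (.add (.pp [(1, 3945000000)])
 (.mul (.g 9) (.add (.add (.mul (.g 9) (.pp [(1, 30960150000)])) (.mul (.g 13) (.pp [(1,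
 31797750000)]))) (.add (.mul (.g 15) (.pp [(1, 20214300000)])) (.mul (.g 18) (.pp [(1,
 10622700000)])))))) (.add (.mul (.g 5) (.add (.pp [(1, 14304750000)]) (.mul (.g 11) (.pp [(1,
 13421250000)])))) (.mul (.g 11) (.mul (.g 18) (.pp [(1, 8756700000)])))))) (.mul (.g 7) (.add
 (.mul (.g 7) (.add (.mul (.g 8) (.pp [(1, 324024)])) (.add (.mul (.g 13) (.pp [(1, 3485460)]))
 (.mul (.g 18) (.pp [(1, 368160)]))))) (.mul (.g 9) (.mul (.g 9) (.pp [(1, 346059000)]))))))) (.add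
 (.mul (.g 6) (.add (.pp [(1, 83316000)]) (.mul (.g 6) (.add (.mul (.g 10) (.pp [(1, 1776480)]))
 (.mul (.g 11) (.pp [(1, 15100320)])))))) (.add (.mul (.g 13) (.mul (.pp [(1, 823170)]) (.sq [(1,
 -42), (2, 100), (3, 31), (5, -10), (7, 1)]))) (.mul (.g 17) (.mul (.pp [(1, 588330)]) (.sq [(1,
 99), (2, -53), (3, -30), (5, -100), (7, -69)]))))))))) (.add (.add (.mul (.g 5) (.add (.add (.mul
 (.g 5) (.add (.add (.mul (.pp [(1, 251100)]) (.sq [(1, -54), (2, 1), (3, -58), (5, -6), (7,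
 100)])) (.mul (.g 7) (.add (.pp [(1, 708696000)]) (.mul (.g 4) (.pp [(1, 392844000)]))))) (.add
 (.mul (.g 9) (.add (.mul (.g 5) (.pp [(1, 4408500000)])) (.mul (.g 18) (.pp [(1, 3992400000)]))))
 (.add (.mul (.g 6) (.mul (.g 12) (.pp [(1, 958290000)]))) (.mul (.g 16) (.pp [(1,
 2069527500)])))))) (.mul (.g 13) (.add (.mul (.pp [(1, 211470)]) (.sq [(1, -20), (2, 100), (3, 1),
 (5, -4), (7, -9)])) (.mul (.g 13) (.mul (.g 13) (.pp [(1, 3311550000)])))))) (.add (.mul (.g 6)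
 (.mul (.g 11) (.mul (.g 18) (.pp [(1, 153174000)])))) (.mul (.g 10) (.mul (.pp [(1, 576675)]) (.sq
 [(1, 13), (2, 72), (3, 97), (5, 8), (7, -100)])))))) (.mul (.g 18) (.add (.add (.mul (.pp [(1,
 2519580)]) (.sq [(1, -43), (2, 43), (3, -39), (5, 50), (7, -2)])) (.mul (.pp [(1, 725400)]) (.sq
 [(1, 14), (2, 46), (3, 50), (5, -43), (7, -10)]))) (.add (.mul (.g 7) (.add (.mul (.g 7) (.add
 (.mul (.g 9) (.pp [(1, 5173560)])) (.add (.mul (.g 15) (.pp [(1, 2374140)])) (.mul (.g 18) (.pp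
 [(1, 11212620)]))))) (.mul (.g 10) (.mul (.g 10) (.pp [(1, 372063000)]))))) (.add (.mul (.g 6)
 (.mul (.g 6) (.add (.pp [(1, 5169600)]) (.mul (.g 11) (.pp [(1, 1211520)]))))) (.mul (.g 17) (.mul
 (.pp [(1, 1458570)]) (.sq [(1, 17), (2, 43), (3, 100), (5, -62), (7, -16)])))))))) (.add (.mul (.g
 6) (.mul (.g 6) (.add (.add (.mul (.g 8) (.add (.pp [(1, 6914016)]) (.mul (.g 9) (.pp [(1,
 1954848)])))) (.mul (.g 13) (.add (.pp [(1, 16363680)]) (.mul (.g 13) (.pp [(1, 6399120)])))))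
 (.add (.mul (.g 4) (.mul (.g 4) (.pp [(1, 1209120)]))) (.mul (.g 12) (.mul (.g 16) (.pp [(1,
 754896)]))))))) (.mul (.g 9) (.add (.add (.mul (.pp [(1, 2352915)]) (.sq [(1, -55), (2, -77), (3,
 -7), (5, 100)])) (.mul (.g 9) (.mul (.pp [(1, 2242440)]) (.sq [(1, -30), (2, -5), (3, -43), (5,
 50), (7, 8)])))) (.add (.mul (.g 10) (.mul (.pp [(1, 1090260)]) (.sq [(1, 37), (2, 47), (3, 95),
 (5, -100), (7, -1)]))) (.add (.mul (.g 11) (.mul (.pp [(1, 594675)]) (.sq [(1, -53), (2, -93), (3,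
 -4), (5, 100), (7, 8)]))) (.mul (.g 17) (.mul (.pp [(1, 1303290)]) (.sq [(1, -16), (2, 79), (3,
 100), (5, -63), (7, 14)])))))))))) (.add (.add (.mul (.g 12) (.add (.mul (.pp [(1, 1806540)]) (.sq
 [(1, -41), (2, 39), (3, -50), (5, 44), (7, 9)])) (.add (.mul (.g 12) (.add (.mul (.pp [(1,
 649740)]) (.sq [(1, -42), (2, -47), (3, -3), (5, 100), (7, -28)])) (.mul (.pp [(1, 196515)]) (.sq
 [(1, -8), (2, -12), (3, 92), (5, 97), (7, -100)])))) (.mul (.g 13) (.mul (.pp [(1, 24900)]) (.sq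
 [(1, -9), (2, -8), (3, 91), (5, 97), (7, -100)])))))) (.add (.mul (.g 11) (.add (.mul (.pp [(1,
 567195)]) (.sq [(1, -66), (2, -66), (3, 7), (5, 100), (7, 9)])) (.mul (.g 13) (.mul (.pp [(1,
 60750)]) (.sq [(1, -72), (2, -57), (3, 19), (5, 100), (7, 10)]))))) (.mul (.g 0) (.pp [(1,
 120000000)])))) (.add (.add (.mul (.g 1) (.pp [(1, 30000000)])) (.mul (.g 2) (.pp [(1,
 50000000000)]))) (.add (.mul (.g 3) (.pp [(1, 50000000000)])) (.mul (.g 19) (.pp [(1,
 50000000000)])))))) (.pp [(1, 38812950), (2, 1471539), (3, 1427778), (4, 1445535), (5, 1404000),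
 (6, 2001555), (7, 1375554), (8, 1732875), (9, 1352595), (10, 1465815), (12, 1171500), (14,
 1713300), (15, 1747110), (16, 1437900), (18, 1238415), (20, 1427490), (21, 1419210), (24,
 1489950), (25, 1465185), (27, 1649990), (28, 1391550), (30, 1527780), (35, 1710480), (36,
 1863240), (40, 1489875), (42, 1234620), (45, 1347315), (49, 1506000), (50, 1468830), (54,
 1475985), (56, 1522800), (60, 1621350), (63, 1772610), (70, 1510620), (75, 1208160), (81,
 1437675), (84, 1608810), (90, 1083510), (98, 1309680), (100, 1498920), (105, 1178310), (125,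
 1567680), (126, 1411830), (135, 1704000), (140, 1510440), (147, 1691220), (150, 1514730), (175,
 1451340), (189, 1531800), (196, 1545090), (210, 1460520), (225, 1635600), (245, 1410645), (250,
 1500000), (294, 1618620), (315, 1530000), (343, 1534080), (350, 1487100), (375, 1606920), (441,
 1474050), (490, 1512120), (525, 1647120), (625, 1500000), (686, 1575150), (735, 1446360), (875,
 1500000), (1029, 1580550), (1225, 1540365), (1715, 1485000), (2401, 1503840)]))))))))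
 (.rule 1 (.cut 575 [(2, -1), (5, 1)] (.add (.add (.mul (.g 4) (.pp [(1, 135)])) (.mul (.g 1) (.pp
 [(1, 575)]))) (.add (.mul (.g 2) (.pp [(1, 23)])) (.mul (.g 3) (.pp [(1, 2)])))) (.rule 3 (.rule 7
 (.rule 10 (.leaf 75000000 (.add (.add (.add (.add (.add (.mul (.pp [(1, 15188025)]) (.sq [(1,
 -60), (2, 1), (3, -58), (5, 100), (7, -3)])) (.mul (.pp [(1, 1767675)]) (.sq [(1, 50), (2, 100),
 (3, -54), (5, -73), (7, 1)]))) (.add (.mul (.g 12) (.add (.add (.mul (.pp [(1, 442275)]) (.sq [(1,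
 40), (2, 90), (3, 73), (5, -19), (7, -100)])) (.add (.mul (.g 20) (.add (.add (.mul (.pp [(1,
 2072475)]) (.sq [(1, -51), (3, -11), (5, 12), (7, 100)])) (.add (.mul (.pp [(1, 109425)]) (.sq
 [(1, -30), (3, 39), (5, 86), (7, -100)])) (.mul (.pp [(1, 1326675)]) (.sq [(1, -7), (2, -70), (3,
 -64), (5, -14), (7, 100)])))) (.add (.mul (.g 9) (.add (.add (.pp [(1, 92913750000)]) (.mul (.g 5)
 (.pp [(1, 322539750000)]))) (.add (.mul (.g 10) (.pp [(1, 9093000000)])) (.add (.mul (.g 15) (.pp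
 [(1, 13803750000)])) (.mul (.g 20) (.pp [(1, 153365250000)])))))) (.add (.mul (.g 7) (.add (.pp
 [(1, 209385000)]) (.add (.mul (.g 10) (.pp [(1, 199875000)])) (.mul (.g 18) (.pp [(1,
 46695000)]))))) (.mul (.g 12) (.mul (.g 12) (.pp [(1, 7221750000)]))))))) (.mul (.g 5) (.add (.add
 (.mul (.pp [(1, 2428500)]) (.sq [(2, -21), (3, -27), (5, -11), (7, 50)])) (.mul (.g 9) (.add (.add
 (.mul (.g 5) (.pp [(1, 122783250000)])) (.mul (.g 10) (.pp [(1, 76098000000)]))) (.add (.mul (.g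
 11) (.pp [(1, 17771250000)])) (.mul (.g 13) (.pp [(1, 36768750000)])))))) (.add (.mul (.g 12)
 (.add (.mul (.g 6) (.pp [(1, 28620000)])) (.mul (.g 12) (.pp [(1, 13834500000)])))) (.mul (.g 7)
 (.mul (.g 7) (.pp [(1, 5626800)])))))))) (.add (.mul (.g 6) (.add (.mul (.g 6) (.add (.add (.mul
 (.g 10) (.pp [(1, 2462400)])) (.mul (.g 11) (.pp [(1, 38530800)]))) (.add (.mul (.g 12) (.pp [(1,
 1389600)])) (.add (.mul (.g 13) (.pp [(1, 7582800)])) (.mul (.g 18) (.pp [(1, 38389200)]))))))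
 (.mul (.g 8) (.mul (.g 9) (.pp [(1, 256152000)]))))) (.add (.mul (.g 13) (.mul (.pp [(1, 352575)])
 (.sq [(1, 37), (2, 73), (3, 78), (5, -17), (7, -100)]))) (.mul (.g 18) (.mul (.pp [(1, 375000)])
 (.sq [(1, -12), (2, 25), (3, 50), (5, 16), (7, -41)]))))))) (.mul (.g 6) (.add (.mul (.g 6) (.add
 (.add (.mul (.g 8) (.add (.pp [(1, 45835200)]) (.add (.mul (.g 10) (.pp [(1, 2391360)])) (.mul (.g
 11) (.pp [(1, 78720)]))))) (.mul (.g 6) (.add (.pp [(1, 130944)]) (.mul (.g 18) (.pp [(1,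
 480)]))))) (.add (.mul (.g 13) (.add (.pp [(1, 27756000)]) (.mul (.g 13) (.pp [(1, 59176800)]))))
 (.mul (.g 9) (.mul (.g 18) (.pp [(1, 12000)])))))) (.add (.mul (.g 5) (.add (.mul (.g 5) (.add
 (.mul (.g 9) (.pp [(1, 8700750000)])) (.add (.mul (.g 11) (.pp [(1, 341070000)])) (.mul (.g 13)
 (.pp [(1, 10510650000)]))))) (.mul (.g 7) (.mul (.g 8) (.pp [(1, 189840)]))))) (.mul (.g 9) (.add
 (.mul (.g 8) (.mul (.g 20) (.pp [(1, 44184000)]))) (.mul (.g 9) (.mul (.g 14) (.pp [(1,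
 1137360000)])))))))))) (.add (.add (.mul (.g 9) (.add (.add (.mul (.pp [(1, 15074025)]) (.sq [(1,
 48), (2, 100), (3, -8), (5, -91)])) (.mul (.g 9) (.add (.mul (.g 9) (.add (.mul (.g 14) (.pp [(1,
 21234750000)])) (.add (.mul (.g 18) (.pp [(1, 4148250000)])) (.mul (.g 20) (.pp [(1,
 14952750000)]))))) (.mul (.g 10) (.mul (.g 14) (.pp [(1, 62457000000)])))))) (.add (.mul (.g 7)
 (.mul (.g 7) (.mul (.g 7) (.pp [(1, 152256)])))) (.add (.mul (.g 10) (.mul (.g 14) (.mul (.g 14)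
 (.pp [(1, 12669750000)])))) (.mul (.g 13) (.mul (.pp [(1, 2604225)]) (.sq [(1, -29), (2, -100),
 (3, -23), (5, 81), (7, -8)]))))))) (.mul (.g 20) (.add (.add (.mul (.pp [(1, 6739050)]) (.sq [(1,
 -19), (2, 100), (3, -45), (5, 7), (7, 63)])) (.mul (.pp [(1, 104627700)]) (.sq [(1, 2), (2, 50),
 (3, -24), (5, -7), (7, 14)]))) (.add (.mul (.pp [(1, 1432500)]) (.sq [(1, -25), (2, 70), (3, 100),
 (5, -32), (7, 40)])) (.add (.mul (.pp [(1, 4720875)]) (.sq [(1, -48), (2, 100), (3, -65), (5, 63),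
 (7, 8)])) (.mul (.g 13) (.mul (.pp [(1, 1018500)]) (.sq [(1, -94), (2, 100), (3, 73), (5, 73), (7,
 100)])))))))) (.add (.mul (.g 7) (.add (.mul (.pp [(1, 6612)]) (.sq [(1, 46), (2, 27), (3, 98),
 (5, -100), (7, -36)])) (.add (.mul (.g 5) (.mul (.g 5) (.add (.mul (.g 13) (.pp [(1, 743040000)]))
 (.mul (.g 17) (.pp [(1, 150000)]))))) (.mul (.g 11) (.mul (.pp [(1, 2358)]) (.sq [(1, -6), (2,
 99), (3, 100), (5, -45), (7, -12)])))))) (.mul (.g 14) (.add (.mul (.pp [(1, 1653525)]) (.sq [(1,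
 -43), (2, 100), (3, 87), (5, 26), (7, -24)])) (.add (.mul (.pp [(1, 1074300)]) (.sq [(1, -15), (2,
 76), (3, 100), (5, -32), (7, -20)])) (.mul (.g 5) (.mul (.g 14) (.pp [(1, 2313750000)])))))))))
 (.add (.add (.add (.mul (.g 10) (.add (.mul (.pp [(1, 5064525)]) (.sq [(1, -55), (2, -15), (3,
 -72), (5, 100), (7, 11)])) (.mul (.pp [(1, 11625600)]) (.sq [(1, -47), (2, -8), (3, -76), (5,
 100), (7, -13)])))) (.mul (.g 13) (.add (.mul (.pp [(1, 2965275)]) (.sq [(1, -66), (3, -37), (5,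
 100)])) (.mul (.pp [(1, 23888400)]) (.sq [(1, -34), (2, -71), (3, 100), (5, 23), (7, 10)])))))
 (.add (.mul (.g 0) (.pp [(1, 600000000)])) (.mul (.g 1) (.pp [(1, 150000000)])))) (.add (.add
 (.mul (.g 2) (.pp [(1, 250000000000)])) (.mul (.g 4) (.pp [(1, 250000000000)]))) (.add (.mul (.g
 11) (.mul (.pp [(1, 160875)]) (.sq [(1, 7), (2, 100), (3, -99), (5, 13), (7, -17)]))) (.mul (.g
 19) (.pp [(1, 250000000000)])))))) (.pp [(1, 206052081), (2, 7845594), (3, 8407644), (4, 6249036),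
 (5, 8677986), (6, 6428778), (7, 7795917), (8, 6562600), (9, 6284361), (10, 7583622), (12,
 9299025), (14, 5786979), (15, 6133050), (16, 7500000), (18, 7059825), (20, 7733856), (21,
 6368346), (24, 7185000), (25, 6440190), (27, 8779950), (28, 8892375), (30, 9055650), (35,
 7352514), (36, 7535025), (40, 8055000), (42, 8666250), (45, 7064400), (49, 7650264), (50,
 7254090), (54, 7663500), (56, 7350675), (60, 6519750), (63, 8124900), (70, 8117844), (75,
 8995575), (81, 7500000), (84, 6786900), (90, 8907000), (98, 8570700), (100, 8070225), (105,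
 7189050), (125, 7702875), (126, 7845300), (135, 7500000), (140, 7325250), (147, 8398875), (150,
 6652500), (175, 7560705), (189, 7639200), (196, 6432900), (210, 6673500), (225, 7350000), (245,
 7560189), (250, 7500000), (294, 7188000), (315, 7472100), (343, 7039650), (350, 7406175), (375,
 7252500), (441, 7565700), (490, 8088000), (525, 7591500), (625, 7500000), (686, 7800000), (735,
 8053500), (875, 7500000), (1029, 7350000), (1225, 7272000), (1715, 7515000), (2401,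
 7500000)])))))))))
 (.split [(2, 1), (3, -1)]
 (.split [(2, 1), (5, -1)]
 (.rule 0 (.rule 2 (.rule 7 (.leaf 300000000 (.add (.add (.add (.add (.mul (.g 11) (.add (.add
 (.mul (.g 11) (.add (.add (.mul (.g 7) (.add (.add (.pp [(1, 122171400000)]) (.mul (.g 9) (.pp
 [(1, 89530800000)]))) (.add (.mul (.g 10) (.pp [(1, 27842400000)])) (.mul (.g 12) (.pp [(1,
 60297000000)]))))) (.mul (.g 11) (.add (.mul (.g 3) (.pp [(1, 377133000000)])) (.add (.mul (.g 4)
 (.pp [(1, 38790000000)])) (.mul (.g 19) (.pp [(1, 21369000000)])))))) (.add (.mul (.g 5) (.mul (.g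
 19) (.pp [(1, 11637960000)]))) (.mul (.g 15) (.pp [(1, 27580950000)]))))) (.add (.mul (.g 19)
 (.add (.add (.pp [(1, 378372000000)]) (.mul (.pp [(1, 15316500)]) (.sq [(1, 13), (2, 64), (3, 64),
 (5, 61), (7, -100)]))) (.add (.mul (.g 4) (.add (.pp [(1, 321483000000)]) (.mul (.g 12) (.pp [(1,
 1534677000000)])))) (.add (.mul (.g 6) (.mul (.g 16) (.pp [(1, 4955940000)]))) (.mul (.g 9) (.mul
 (.g 12) (.pp [(1, 1089726000000)]))))))) (.mul (.g 5) (.add (.add (.pp [(1, 4210560000)]) (.mul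
 (.pp [(1, 491712)]) (.sq [(1, 14), (2, -18), (3, 73), (5, -42), (7, 100)]))) (.add (.mul (.g 5)
 (.mul (.g 16) (.pp [(1, 487920000)]))) (.mul (.g 7) (.mul (.g 12) (.pp [(1, 809664000)]))))))))
 (.add (.add (.mul (.g 10) (.add (.add (.mul (.g 4) (.mul (.g 17) (.pp [(1, 305259000000)]))) (.mul
 (.g 6) (.mul (.g 6) (.pp [(1, 87421200)])))) (.add (.mul (.g 10) (.mul (.g 10) (.pp [(1,
 299970000000)]))) (.mul (.g 15) (.pp [(1, 5314950000)]))))) (.mul (.g 3) (.add (.pp [(1,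
 954132000000)]) (.mul (.g 9) (.pp [(1, 225108000000)]))))) (.add (.mul (.g 12) (.add (.mul (.g 4)
 (.mul (.g 17) (.pp [(1, 736776000000)]))) (.mul (.g 9) (.mul (.g 9) (.pp [(1, 37059000000)])))))
 (.mul (.g 15) (.pp [(1, 67749750000)])))))) (.add (.mul (.g 3) (.add (.add (.mul (.g 9) (.add (.pp
 [(1, 887664000000)]) (.add (.mul (.g 9) (.add (.mul (.g 7) (.pp [(1, 52764600000)])) (.mul (.g 9)
 (.pp [(1, 349854000000)])))) (.mul (.g 5) (.mul (.g 10) (.pp [(1, 10308000000)])))))) (.add (.mul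
 (.g 3) (.add (.mul (.pp [(1, 6669600)]) (.sq [(1, -51), (2, -79), (3, -38), (7, 100)])) (.add
 (.mul (.g 10) (.pp [(1, 731196000000)])) (.mul (.g 14) (.pp [(1, 447264000000)]))))) (.mul (.g 4)
 (.mul (.pp [(1, 705900)]) (.sq [(1, 100), (2, -96), (3, 37), (5, 37), (7, -58)]))))) (.add (.add
 (.mul (.g 8) (.pp [(1, 696558000000)])) (.mul (.g 10) (.pp [(1, 463305000000)]))) (.add (.mul (.g
 14) (.mul (.pp [(1, 5388000)]) (.sq [(1, 87), (2, -59), (3, 17), (5, 69), (7, 100)]))) (.mul (.g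
 15) (.mul (.pp [(1, 299205)]) (.sq [(1, 70), (2, -35), (3, -11), (5, 62), (7, 100)]))))))) (.mul
 (.g 4) (.add (.add (.mul (.g 4) (.add (.mul (.pp [(1, 121579200)]) (.sq [(1, 25), (2, -19), (3,
 16), (5, 8), (7, -9)])) (.add (.mul (.g 9) (.pp [(1, 477216000000)])) (.mul (.g 14) (.pp [(1,
 149898000000)]))))) (.add (.mul (.g 5) (.mul (.g 10) (.mul (.g 10) (.pp [(1, 16324320000)]))))
 (.mul (.g 7) (.pp [(1, 35949600000)])))) (.add (.mul (.g 8) (.mul (.g 14) (.mul (.g 19) (.pp [(1,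
 105195000000)])))) (.add (.mul (.g 12) (.mul (.pp [(1, 3140100)]) (.sq [(1, -13), (2, 57), (3,
 -66), (5, 99), (7, -100)]))) (.mul (.g 13) (.mul (.pp [(1, 24922200)]) (.sq [(1, 100), (2, -75),
 (3, 31), (5, 8), (7, -38)]))))))))) (.add (.mul (.g 19) (.add (.add (.mul (.g 8) (.mul (.g 8)
 (.add (.mul (.g 9) (.pp [(1, 694737000000)])) (.mul (.g 10) (.pp [(1, 568794000000)]))))) (.add
 (.mul (.g 6) (.mul (.g 9) (.mul (.g 9) (.pp [(1, 1979520000)])))) (.mul (.g 10) (.mul (.g 10)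
 (.mul (.g 10) (.pp [(1, 270927000000)])))))) (.add (.mul (.g 12) (.mul (.pp [(1, 15819000)]) (.sq
 [(1, -37), (2, 100), (3, 68), (5, 91), (7, -15)]))) (.add (.mul (.g 17) (.mul (.pp [(1, 126900)])
 (.sq [(1, -31), (2, 100), (3, 77), (5, 53)]))) (.mul (.g 19) (.mul (.pp [(1, 5181900)]) (.sq [(1,
 100), (2, -58), (3, -20), (5, -67), (7, -32)]))))))) (.add (.mul (.g 5) (.add (.add (.mul (.g 10)
 (.mul (.g 10) (.add (.mul (.g 14) (.pp [(1, 3051000000)])) (.mul (.g 17) (.pp [(1,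
 13796760000)]))))) (.mul (.g 5) (.mul (.g 12) (.mul (.g 12) (.pp [(1, 146097600)]))))) (.add (.mul
 (.g 6) (.pp [(1, 511831200)])) (.add (.mul (.g 14) (.mul (.pp [(1, 880068)]) (.sq [(1, -8), (2,
 12), (3, 11), (5, 100), (7, -32)]))) (.mul (.g 15) (.pp [(1, 464406000)])))))) (.mul (.g 12) (.add
 (.add (.mul (.g 8) (.mul (.g 8) (.mul (.g 13) (.pp [(1, 299814000000)])))) (.mul (.g 9) (.mul (.g
 9) (.mul (.g 9) (.pp [(1, 122694000000)]))))) (.add (.mul (.g 12) (.mul (.pp [(1, 8466300)]) (.sq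
 [(1, 41), (2, -100), (3, 59), (5, 59), (7, -59)]))) (.mul (.g 14) (.mul (.g 15) (.pp [(1,
 11988750000)]))))))))) (.add (.add (.mul (.g 7) (.add (.mul (.g 7) (.add (.pp [(1, 2592120000)])
 (.mul (.pp [(1, 316224)]) (.sq [(1, 52), (2, 83), (3, 100), (5, 5), (7, -2)])))) (.mul (.g 6)
 (.mul (.g 6) (.mul (.g 9) (.pp [(1, 2980560)])))))) (.add (.mul (.g 15) (.add (.mul (.g 8) (.mul
 (.g 8) (.mul (.g 17) (.pp [(1, 607050000)])))) (.mul (.g 9) (.pp [(1, 32186100000)])))) (.mul (.g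
 0) (.pp [(1, 600000000)])))) (.add (.mul (.g 1) (.pp [(1, 1000000000000)])) (.add (.mul (.g 2)
 (.pp [(1, 1000000000000)])) (.mul (.g 18) (.pp [(1, 1000000000000)])))))) (.pp [(1, 40786104936),
 (2, 28861872), (3, 32866176), (4, 31162524), (5, 31068096), (6, 27641736), (7, 32355744), (8,
 30198689), (9, 28628856), (10, 29853972), (12, 29667750), (14, 30423000), (15, 26540856), (16,
 31321200), (18, 29808537), (20, 24582111), (21, 24430692), (23, 3000000000000), (24, 27646800),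
 (25, 30891900), (27, 31936024), (28, 30426096), (30, 38674386), (35, 22668852), (36, 29250900),
 (40, 30199800), (42, 32378856), (45, 31262379), (49, 28002336), (50, 29114580), (54, 30271800),
 (56, 30571200), (60, 30014100), (63, 34084308), (70, 32689560), (75, 30073980), (81, 29730600),
 (84, 35632200), (90, 31771800), (98, 26678544), (100, 31779600), (105, 36146352), (125, 31121920),
 (126, 24027600), (135, 26634000), (140, 26121000), (147, 31547736), (150, 28506000), (175,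
 33714744), (189, 30784800), (196, 29062500), (210, 24421200), (225, 28985100), (245, 35273256),
 (250, 31091100), (294, 30411000), (315, 28825500), (343, 33346200), (350, 32688600), (375,
 29964000), (441, 30300000), (490, 31858800), (525, 28114500), (625, 28148400), (686, 31312200),
 (735, 28782000), (875, 31397100), (1029, 27436800), (1225, 26368200), (1715, 30712800), (2401,
 27734400)]))))))
 (.rule 0 (.rule 3 (.rule 7 (.leaf 7500000000 (.add (.add (.add (.add (.mul (.g 4) (.add (.add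
 (.add (.mul (.g 19) (.add (.add (.pp [(1, 1062450000000)]) (.mul (.pp [(1, 127545000)]) (.sq [(1,
 48), (2, -23), (3, 100), (5, -49), (7, 96)]))) (.add (.mul (.g 11) (.add (.pp [(1,
 1046250000000)]) (.add (.mul (.g 12) (.pp [(1, 22679325000000)])) (.mul (.g 14) (.pp [(1,
 540975000000)]))))) (.mul (.g 8) (.add (.pp [(1, 30506100000000)]) (.mul (.g 15) (.pp [(1,
 85807500000)]))))))) (.mul (.g 4) (.add (.add (.pp [(1, 157650000000)]) (.mul (.pp [(1,
 323707500)]) (.sq [(1, 100), (2, -81), (3, 67), (7, -41)]))) (.add (.mul (.g 9) (.pp [(1,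
 8425425000000)])) (.add (.mul (.g 12) (.mul (.g 12) (.pp [(1, 4043250000000)]))) (.mul (.g 14)
 (.pp [(1, 15577800000000)]))))))) (.add (.mul (.g 5) (.add (.pp [(1, 650751000000)]) (.add (.mul
 (.pp [(1, 54079800)]) (.sq [(1, -52), (2, 35), (3, -33), (5, 100), (7, 22)])) (.mul (.g 5) (.add
 (.mul (.g 10) (.pp [(1, 33355800000)])) (.mul (.g 11) (.pp [(1, 174120000)]))))))) (.mul (.g 6)
 (.add (.mul (.g 8) (.pp [(1, 481771500000)])) (.mul (.g 11) (.mul (.g 11) (.pp [(1,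
 21894000000)]))))))) (.add (.add (.mul (.g 12) (.add (.mul (.pp [(1, 670117500)]) (.sq [(1, -32),
 (2, 100), (3, -17), (5, -7), (7, -15)])) (.mul (.g 3) (.mul (.g 10) (.pp [(1, 234825000000)])))))
 (.mul (.g 13) (.add (.mul (.pp [(1, 63075000)]) (.sq [(1, 100), (2, -68), (3, 42), (7, -57)]))
 (.mul (.g 9) (.pp [(1, 997200000000)]))))) (.add (.mul (.g 8) (.mul (.g 8) (.mul (.g 8) (.pp [(1,
 8170275000000)])))) (.mul (.g 15) (.mul (.pp [(1, 41609625)]) (.sq [(1, -64), (2, 100), (3, -6),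
 (5, 41), (7, -29)]))))))) (.mul (.g 11) (.add (.add (.mul (.pp [(1, 282795000)]) (.sq [(1, 29),
 (2, 100), (3, -2), (5, 19), (7, -90)])) (.add (.mul (.g 19) (.add (.add (.add (.mul (.pp [(1,
 297195000)]) (.sq [(1, 89), (2, 72), (3, 41), (5, -14), (7, -100)])) (.mul (.pp [(1, 98077500)])
 (.sq [(1, 28), (2, 65), (3, -37), (5, 100), (7, -81)]))) (.add (.mul (.g 5) (.add (.mul (.g 12)
 (.pp [(1, 277881000000)])) (.mul (.g 17) (.pp [(1, 45270000000)])))) (.mul (.g 11) (.add (.mul (.g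
 11) (.pp [(1, 1434075000000)])) (.mul (.g 19) (.pp [(1, 571125000000)])))))) (.add (.add (.mul (.g
 8) (.pp [(1, 2751300000000)])) (.mul (.g 9) (.mul (.g 9) (.pp [(1, 3745650000000)])))) (.add (.mul
 (.g 10) (.mul (.g 15) (.pp [(1, 154117500000)]))) (.mul (.g 17) (.mul (.g 17) (.pp [(1,
 7700925000000)]))))))) (.mul (.g 5) (.add (.mul (.g 6) (.add (.mul (.g 5) (.pp [(1, 720919200)]))
 (.mul (.g 8) (.pp [(1, 5087880000)])))) (.mul (.g 3) (.mul (.g 3) (.pp [(1, 82341000000)])))))))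
 (.add (.add (.mul (.g 6) (.mul (.pp [(1, 5071800)]) (.sq [(1, 19), (2, 34), (3, 50), (5, -22), (7,
 -41)]))) (.mul (.g 8) (.mul (.pp [(1, 31177500)]) (.sq [(1, -47), (2, 27), (3, 17), (5, -87), (7,
 100)])))) (.add (.mul (.g 11) (.mul (.pp [(1, 202117500)]) (.sq [(1, -17), (2, 100), (3, 30), (5,
 -79), (7, 35)]))) (.mul (.g 17) (.mul (.pp [(1, 55492500)]) (.sq [(1, -78), (2, -93), (3, -91),
 (5, 60), (7, 100)])))))))) (.add (.mul (.g 5) (.add (.add (.mul (.g 6) (.add (.pp [(1,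
 18479160000)]) (.add (.mul (.g 3) (.add (.mul (.g 6) (.pp [(1, 40888800)])) (.mul (.g 8) (.pp [(1,
 5303820000)])))) (.mul (.g 9) (.pp [(1, 13441080000)]))))) (.add (.mul (.g 5) (.add (.mul (.pp
 [(1, 1947852)]) (.sq [(2, 11), (3, 100), (7, -100)])) (.mul (.g 3) (.mul (.g 3) (.pp [(1,
 3456120000)]))))) (.mul (.g 10) (.add (.mul (.pp [(1, 3331500)]) (.sq [(1, -20), (2, 7), (3, 3),
 (5, 100), (7, -84)])) (.mul (.pp [(1, 29101200)]) (.sq [(1, 35), (2, -50), (3, 27), (5, -28), (7,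
 -15)])))))) (.add (.add (.mul (.g 8) (.mul (.g 8) (.mul (.g 9) (.pp [(1, 1612335000000)])))) (.mul
 (.g 13) (.mul (.pp [(1, 633900)]) (.sq [(1, 10), (2, -100), (3, 26), (5, -55), (7, 94)])))) (.add
 (.mul (.g 15) (.pp [(1, 11245350000)])) (.mul (.g 19) (.mul (.pp [(1, 3336900)]) (.sq [(1, 63),
 (2, 100), (3, 30), (5, 50), (7, -56)]))))))) (.add (.mul (.g 6) (.add (.mul (.g 6) (.add (.pp [(1,
 4081170000)]) (.add (.mul (.g 8) (.add (.pp [(1, 5673930000)]) (.mul (.g 8) (.pp [(1,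
 5124600000)])))) (.mul (.g 7) (.mul (.g 9) (.pp [(1, 167022000)])))))) (.add (.mul (.g 3) (.mul
 (.g 3) (.mul (.g 3) (.pp [(1, 156148500000)])))) (.mul (.g 8) (.mul (.g 8) (.mul (.g 19) (.pp [(1,
 360388500000)]))))))) (.mul (.g 13) (.add (.add (.mul (.g 15) (.add (.mul (.pp [(1, 4342125)])
 (.sq [(1, 100), (2, -13), (3, -35), (5, -86), (7, 36)])) (.mul (.pp [(1, 4252500)]) (.sq [(1, 29),
 (2, -13), (3, 100), (5, -27), (7, -69)])))) (.mul (.g 8) (.mul (.pp [(1, 392700000)]) (.sq [(1,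
 -69), (2, -9), (3, -55), (5, 100), (7, 27)])))) (.add (.mul (.g 14) (.mul (.pp [(1, 10117500)])
 (.sq [(1, -30), (2, -94), (3, -59), (5, 100), (7, 4)]))) (.mul (.g 19) (.mul (.pp [(1, 26925000)])
 (.sq [(1, -37), (2, 94), (3, 100), (5, 44), (7, 34)]))))))))) (.add (.add (.mul (.g 19) (.add
 (.mul (.g 12) (.add (.mul (.pp [(1, 334110000)]) (.sq [(1, 3), (2, -34), (3, -100), (5, 90), (7,
 -89)])) (.add (.mul (.pp [(1, 739035000)]) (.sq [(1, -74), (2, 71), (3, 37), (5, 75), (7, 100)]))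
 (.mul (.g 9) (.mul (.g 15) (.pp [(1, 23985000000)])))))) (.mul (.g 17) (.mul (.pp [(1,
 156817500)]) (.sq [(1, 100), (2, -63), (3, -63), (5, -86), (7, -63)]))))) (.add (.mul (.g 0) (.pp
 [(1, 15000000000)])) (.mul (.g 1) (.pp [(1, 25000000000000)])))) (.add (.mul (.g 2) (.pp [(1,
 25000000000000)])) (.add (.mul (.g 15) (.mul (.pp [(1, 786750)]) (.sq [(1, -39), (2, 9), (3, -41),
 (5, 40), (7, 100)]))) (.mul (.g 18) (.pp [(1, 25000000000000)])))))) (.pp [(1, 19603244550), (2,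
 715686000), (3, 711896100), (4, 755920287), (5, 691854600), (6, 664260450), (7, 729518700), (8,
 757027125), (9, 889400775), (10, 871705500), (12, 785515125), (14, 753131100), (15, 919851000),
 (16, 710655000), (18, 737993175), (20, 676267575), (21, 683295000), (23, 75000000000000), (24,
 741090000), (25, 801937500), (27, 682244575), (28, 773978100), (30, 967047750), (35, 787422900),
 (36, 811380000), (40, 840180000), (42, 705864300), (45, 497556075), (49, 787089300), (50,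
 559174125), (54, 730732500), (56, 742957500), (60, 735397500), (63, 711340200), (70, 727650150),
 (75, 553941675), (81, 747742500), (84, 620467500), (90, 720585000), (98, 751457625), (100,
 634912500), (105, 866524650), (125, 737690400), (126, 920062500), (135, 820057500), (140,
 838980000), (147, 713545875), (150, 824917500), (175, 719117400), (189, 645427500), (196,
 659835000), (210, 756015000), (225, 839865000), (245, 662863200), (250, 860865000), (294,
 868102500), (315, 822075000), (343, 689258400), (350, 813337500), (375, 805125000), (441,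
 683377500), (490, 703957500), (525, 679380000), (625, 708412500), (686, 783135000), (735,
 753105000), (875, 812610000), (1029, 827452500), (1225, 777022500), (1715, 778357500), (2401,
 792540000)])))))))
 (.split [(2, 1), (5, -1)]
 (.rule 1 (.rule 2 (.rule 7 (.leaf 300000000 (.add (.add (.add (.add (.mul (.g 11) (.add (.add
 (.mul (.g 3) (.add (.add (.pp [(1, 241521000000)]) (.add (.mul (.g 7) (.add (.mul (.g 3) (.pp [(1,
 64057200000)])) (.mul (.g 13) (.pp [(1, 30825600000)])))) (.mul (.g 8) (.add (.mul (.g 8) (.pp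
 [(1, 32217000000)])) (.mul (.g 10) (.pp [(1, 133425000000)])))))) (.add (.add (.mul (.g 5) (.mul
 (.g 9) (.pp [(1, 28092000000)]))) (.mul (.g 10) (.mul (.g 16) (.pp [(1, 809607000000)])))) (.add
 (.mul (.g 11) (.mul (.g 11) (.pp [(1, 285912000000)]))) (.mul (.g 17) (.mul (.g 19) (.pp [(1,
 62235000000)]))))))) (.add (.mul (.g 10) (.add (.mul (.g 10) (.add (.add (.mul (.g 7) (.pp [(1,
 150601200000)])) (.mul (.g 10) (.pp [(1, 41082000000)]))) (.add (.mul (.g 15) (.pp [(1,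
 12082500000)])) (.mul (.g 19) (.pp [(1, 8442000000)]))))) (.add (.mul (.g 4) (.mul (.g 17) (.pp
 [(1, 45690000000)]))) (.mul (.g 5) (.mul (.g 15) (.pp [(1, 787632000)])))))) (.mul (.g 11) (.add
 (.mul (.g 7) (.add (.mul (.g 7) (.pp [(1, 526440000)])) (.mul (.g 11) (.pp [(1, 116227200000)]))))
 (.add (.mul (.g 16) (.add (.mul (.g 15) (.pp [(1, 10916550000)])) (.mul (.g 19) (.pp [(1,
 142128000000)])))) (.mul (.g 4) (.pp [(1, 790476000000)]))))))) (.add (.mul (.g 8) (.add (.mul (.g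
 4) (.add (.pp [(1, 480981000000)]) (.mul (.g 9) (.pp [(1, 911457000000)])))) (.mul (.g 12) (.add
 (.mul (.g 12) (.pp [(1, 524256000000)])) (.mul (.g 19) (.pp [(1, 1296612000000)])))))) (.add (.mul
 (.g 15) (.add (.pp [(1, 19730550000)]) (.mul (.g 9) (.mul (.g 9) (.pp [(1, 20338350000)])))))
 (.mul (.g 19) (.add (.pp [(1, 87417000000)]) (.mul (.pp [(1, 50340600)]) (.sq [(1, -19), (2, 38),
 (3, 100), (5, 23), (7, -67)])))))))) (.add (.mul (.g 10) (.add (.add (.mul (.g 3) (.add (.add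
 (.mul (.g 3) (.add (.mul (.g 12) (.pp [(1, 1470000000)])) (.mul (.g 16) (.pp [(1,
 34263000000)])))) (.mul (.g 13) (.add (.pp [(1, 287949000000)]) (.mul (.g 17) (.pp [(1,
 30000000)]))))) (.add (.mul (.g 5) (.pp [(1, 28200720000)])) (.mul (.g 19) (.mul (.g 19) (.pp [(1,
 81000000)])))))) (.mul (.g 8) (.add (.mul (.g 8) (.add (.mul (.g 8) (.pp [(1, 129093000000)]))
 (.add (.mul (.g 12) (.pp [(1, 543198000000)])) (.mul (.g 19) (.pp [(1, 58110000000)]))))) (.mul
 (.g 13) (.pp [(1, 627891000000)]))))) (.add (.mul (.g 4) (.add (.mul (.g 4) (.mul (.g 9) (.pp [(1,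
 238314000000)]))) (.mul (.g 6) (.mul (.g 19) (.pp [(1, 4300620000)]))))) (.add (.mul (.g 10) (.add
 (.mul (.g 10) (.mul (.g 16) (.pp [(1, 55503000000)]))) (.mul (.g 19) (.mul (.g 19) (.pp [(1,
 151500000000)]))))) (.mul (.g 12) (.mul (.g 12) (.mul (.g 14) (.pp [(1, 9579000000)])))))))) (.mul
 (.g 19) (.add (.add (.add (.mul (.pp [(1, 6927600)]) (.sq [(2, 100), (3, 100), (5, 100), (7,
 79)])) (.mul (.g 4) (.add (.pp [(1, 463734000000)]) (.mul (.pp [(1, 414547500)]) (.sq [(2, 20),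
 (5, -9), (7, 16)]))))) (.add (.mul (.g 5) (.add (.mul (.pp [(1, 310248)]) (.sq [(1, 10), (2, 49),
 (3, 100), (5, -88), (7, 78)])) (.mul (.pp [(1, 160284)]) (.sq [(1, -55), (2, -4), (3, -27), (5,
 100), (7, 75)])))) (.mul (.g 7) (.pp [(1, 14154000000)])))) (.add (.add (.mul (.g 12) (.mul (.pp
 [(1, 794400)]) (.sq [(1, -75), (2, 100), (3, 58), (5, 30), (7, 85)]))) (.mul (.g 13) (.mul (.pp
 [(1, 84600)]) (.sq [(1, 47), (2, 100), (3, 31), (5, 60), (7, -23)])))) (.add (.mul (.g 17) (.mul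
 (.pp [(1, 1402200)]) (.sq [(1, 9), (2, 49), (3, 100), (5, -87), (7, 79)]))) (.mul (.g 19) (.mul
 (.pp [(1, 5674800)]) (.sq [(1, -29), (2, -17), (3, -15), (5, 46), (7, 100)]))))))))) (.add (.mul
 (.g 3) (.add (.add (.mul (.g 3) (.add (.pp [(1, 464478000000)]) (.mul (.g 4) (.pp [(1,
 10281000000)])))) (.mul (.g 4) (.mul (.pp [(1, 8174100)]) (.sq [(1, 71), (2, 61), (3, 99), (5,
 -13), (7, 100)])))) (.add (.mul (.g 8) (.pp [(1, 119433000000)])) (.add (.mul (.g 9) (.pp [(1,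
 1761732000000)])) (.mul (.g 14) (.mul (.pp [(1, 1371600)]) (.sq [(1, 20), (2, 100), (3, 87), (7,
 -14)]))))))) (.add (.mul (.g 15) (.add (.add (.mul (.pp [(1, 520215)]) (.sq [(2, 42), (3, -41),
 (5, 48), (7, 100)])) (.mul (.g 5) (.add (.pp [(1, 125562000)]) (.mul (.g 8) (.pp [(1,
 2058132000)]))))) (.add (.mul (.g 4) (.pp [(1, 84520350000)])) (.mul (.g 9) (.pp [(1,
 6285300000)]))))) (.mul (.g 6) (.add (.mul (.g 6) (.mul (.g 6) (.pp [(1, 1054320)]))) (.add (.mul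
 (.g 8) (.mul (.g 9) (.mul (.g 12) (.pp [(1, 899820000)])))) (.mul (.g 13) (.mul (.pp [(1, 88686)])
 (.sq [(1, -20), (2, -34), (3, -77), (5, 67), (7, 100)]))))))))) (.add (.add (.mul (.g 4) (.add
 (.mul (.g 4) (.mul (.pp [(1, 2490300)]) (.sq [(1, 55), (2, 100), (3, -100), (5, 79), (7, -86)])))
 (.mul (.g 5) (.mul (.g 8) (.pp [(1, 18888000000)]))))) (.add (.mul (.g 0) (.pp [(1, 600000000)]))
 (.mul (.g 1) (.pp [(1, 1000000000000)])))) (.add (.mul (.g 2) (.pp [(1, 1000000000000)])) (.add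
 (.mul (.g 8) (.mul (.g 8) (.mul (.g 12) (.mul (.g 17) (.pp [(1, 314967000000)]))))) (.mul (.g 18)
 (.pp [(1, 1000000000000)])))))) (.pp [(1, 28947445860), (2, 31366920), (3, 31976700), (4,
 26942508), (5, 32552700), (6, 20254824), (7, 31255740), (8, 32986512), (9, 29328081), (10,
 25951812), (12, 33417024), (14, 24204696), (15, 27559044), (16, 28826100), (18, 31784934), (20,
 27513576), (21, 27042720), (23, 3000000000000), (24, 29742900), (25, 26417274), (27, 31197954),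
 (28, 37108464), (30, 40576620), (35, 24786588), (36, 26893500), (40, 28311300), (42, 34811952),
 (45, 32505378), (49, 29268516), (50, 33953790), (54, 33306600), (56, 26700000), (60, 32765100),
 (63, 35450412), (70, 34775616), (75, 29986962), (81, 29834100), (84, 25094400), (90, 30243300),
 (98, 36940104), (100, 30583200), (105, 33098952), (125, 31537222), (126, 35637000), (135,
 27627300), (140, 30944400), (147, 28723644), (150, 26467500), (175, 33416304), (189, 27699000),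
 (196, 27024000), (210, 28810800), (225, 29948700), (245, 31498452), (250, 28577100), (294,
 28590600), (315, 29148900), (343, 30517044), (350, 27538500), (375, 30171000), (441, 32717400),
 (490, 30027600), (525, 31732500), (625, 30000000), (686, 29038200), (735, 32957100), (875,
 31175400), (1029, 30720000), (1225, 27885000), (1715, 29568900), (2401, 30953400)]))))))
 (.rule 1 (.rule 3 (.rule 7 (.leaf 375000000 (.add (.add (.add (.add (.mul (.pp [(1, 28689375)])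
 (.sq [(1, -18), (2, -75), (3, 100), (5, 4), (7, 3)])) (.add (.mul (.pp [(1, 1066500)]) (.sq [(1,
 -10), (2, 100), (3, 83), (5, -50), (7, 10)])) (.mul (.g 8) (.add (.add (.mul (.g 5) (.add (.add
 (.pp [(1, 11683500000)]) (.mul (.g 8) (.add (.add (.pp [(1, 20878650000)]) (.mul (.g 4) (.pp [(1,
 10501350000)]))) (.add (.mul (.g 9) (.pp [(1, 24870300000)])) (.add (.mul (.g 10) (.pp [(1,
 544350000)])) (.mul (.g 11) (.pp [(1, 373500000)]))))))) (.add (.mul (.g 9) (.add (.mul (.g 5)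
 (.pp [(1, 347322000)])) (.add (.mul (.g 11) (.pp [(1, 58765500000)])) (.mul (.g 19) (.pp [(1,
 50319900000)]))))) (.add (.mul (.g 10) (.add (.mul (.g 10) (.pp [(1, 959700000)])) (.add (.mul (.g
 11) (.pp [(1, 2170500000)])) (.mul (.g 17) (.pp [(1, 927600000)]))))) (.mul (.g 6) (.mul (.g 11)
 (.pp [(1, 65385000)]))))))) (.mul (.g 11) (.add (.mul (.g 19) (.add (.add (.pp [(1,
 246405000000)]) (.mul (.g 3) (.pp [(1, 96052500000)]))) (.add (.mul (.g 4) (.pp [(1,
 1302795000000)])) (.add (.mul (.g 9) (.pp [(1, 437932500000)])) (.mul (.g 19) (.pp [(1,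
 716730000000)])))))) (.add (.mul (.g 4) (.add (.pp [(1, 315033750000)]) (.add (.mul (.g 4) (.pp
 [(1, 616818750000)])) (.mul (.g 9) (.pp [(1, 325320000000)]))))) (.mul (.g 6) (.mul (.g 12) (.pp
 [(1, 1823100000)]))))))) (.add (.mul (.g 8) (.add (.mul (.g 6) (.add (.add (.mul (.g 6) (.pp [(1,
 260478000)])) (.mul (.g 8) (.pp [(1, 15747000000)]))) (.add (.mul (.g 16) (.pp [(1,
 13742625000)])) (.mul (.g 19) (.pp [(1, 384825000)]))))) (.mul (.g 8) (.add (.mul (.g 13) (.pp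
 [(1, 360393750000)])) (.mul (.g 19) (.pp [(1, 106188750000)])))))) (.add (.mul (.g 6) (.mul (.g 6)
 (.pp [(1, 55951500)]))) (.mul (.g 12) (.mul (.pp [(1, 40558500)]) (.sq [(1, -19), (2, 100), (3,
 53), (5, -18), (7, -1)]))))))))) (.add (.mul (.g 5) (.add (.add (.mul (.g 6) (.add (.add (.mul (.g
 6) (.add (.pp [(1, 27359340)]) (.mul (.g 10) (.pp [(1, 3804060)])))) (.mul (.g 9) (.add (.mul (.g
 9) (.pp [(1, 442581000)])) (.mul (.g 11) (.pp [(1, 44250000)]))))) (.add (.mul (.g 5) (.mul (.g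
 11) (.pp [(1, 541800)]))) (.mul (.g 10) (.mul (.g 10) (.pp [(1, 1071000)])))))) (.mul (.g 15)
 (.add (.add (.pp [(1, 12345000)]) (.mul (.g 19) (.add (.pp [(1, 243577500)]) (.mul (.g 11) (.pp
 [(1, 80047500)]))))) (.add (.mul (.g 3) (.mul (.g 10) (.pp [(1, 1455000)]))) (.add (.mul (.g 5)
 (.mul (.g 5) (.pp [(1, 12)]))) (.mul (.g 7) (.pp [(1, 6076500)]))))))) (.add (.mul (.g 11) (.add
 (.mul (.g 4) (.mul (.g 19) (.pp [(1, 965850000)]))) (.mul (.g 11) (.mul (.g 11) (.pp [(1,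
 590400000)]))))) (.add (.mul (.g 13) (.mul (.pp [(1, 3585)]) (.sq [(1, -28), (3, 13), (5, -88),
 (7, 100)]))) (.mul (.g 19) (.mul (.pp [(1, 221700)]) (.sq [(1, -43), (3, -30), (5, 17), (7,
 100)]))))))) (.add (.mul (.g 11) (.add (.add (.mul (.g 19) (.add (.add (.mul (.pp [(1, 1729875)])
 (.sq [(1, -34), (2, 8), (3, -100), (5, 98), (7, 91)])) (.mul (.pp [(1, 11190750)]) (.sq [(1, -23),
 (3, -53), (5, -39), (7, 100)]))) (.add (.mul (.pp [(1, 9902625)]) (.sq [(1, -63), (2, -63), (3,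
 -27), (5, 59), (7, 100)])) (.mul (.g 6) (.mul (.g 6) (.pp [(1, 85002000)])))))) (.mul (.g 6) (.mul
 (.g 6) (.add (.pp [(1, 7270500)]) (.mul (.g 9) (.pp [(1, 107527500)])))))) (.add (.mul (.g 11)
 (.add (.mul (.pp [(1, 7419375)]) (.sq [(1, 9), (2, 100), (3, 90), (5, -35), (7, -43)])) (.mul (.g
 4) (.mul (.g 11) (.pp [(1, 84318750000)]))))) (.mul (.g 16) (.mul (.pp [(1, 263625)]) (.sq [(1,
 10), (2, 78), (3, 93), (5, 31), (7, -100)])))))) (.mul (.g 4) (.add (.add (.mul (.pp [(1,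
 35736000)]) (.sq [(1, -27), (2, 35), (3, -12), (5, 13), (7, 50)])) (.mul (.g 6) (.add (.mul (.g 3)
 (.add (.mul (.g 9) (.pp [(1, 922950000)])) (.mul (.g 10) (.pp [(1, 4865025000)])))) (.mul (.g 6)
 (.add (.mul (.g 9) (.pp [(1, 216000)])) (.mul (.g 10) (.pp [(1, 121021500)]))))))) (.add (.mul (.g
 4) (.mul (.g 9) (.mul (.g 10) (.pp [(1, 402941250000)])))) (.mul (.g 12) (.mul (.pp [(1,
 16323750)]) (.sq [(1, -24), (2, 36), (3, 24), (5, -41), (7, 100)]))))))))) (.add (.add (.mul (.g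
 19) (.add (.add (.mul (.pp [(1, 117388125)]) (.sq [(2, 100), (3, -19), (5, -21), (7, 42)])) (.mul
 (.pp [(1, 29152875)]) (.sq [(1, -7), (2, -83), (3, 100), (5, -23), (7, -17)]))) (.add (.mul (.g
 12) (.mul (.pp [(1, 9999000)]) (.sq [(1, -94), (2, 100), (3, 73), (5, 73), (7, 100)]))) (.mul (.g
 14) (.mul (.pp [(1, 261750)]) (.sq [(1, -25), (2, 89), (3, -47), (5, 15), (7, 100)])))))) (.add
 (.mul (.g 10) (.add (.mul (.pp [(1, 134255250)]) (.sq [(1, -12), (2, -78), (3, 100), (5, -3), (7,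
 3)])) (.mul (.g 6) (.mul (.g 6) (.mul (.g 7) (.pp [(1, 16260000)])))))) (.mul (.g 0) (.pp [(1,
 750000000)])))) (.add (.mul (.g 1) (.pp [(1, 1250000000000)])) (.add (.mul (.g 2) (.pp [(1,
 1250000000000)])) (.mul (.g 18) (.pp [(1, 1250000000000)])))))) (.pp [(1, 332317029), (2,
 33364740), (3, 38967945), (4, 35508750), (5, 40184220), (6, 45222960), (7, 36846750), (8,
 40091750), (9, 32898960), (10, 44963790), (12, 35842125), (14, 40682250), (15, 32209110), (16,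
 35670000), (18, 34731045), (20, 34308750), (21, 38582625), (23, 3750000000000), (24, 37418250),
 (25, 32069280), (27, 38636580), (28, 37616250), (30, 35011410), (35, 33884700), (36, 41508750),
 (40, 37110000), (42, 27471750), (45, 39572670), (49, 40770000), (50, 35152920), (54, 37302750),
 (56, 38978250), (60, 39611250), (63, 40089375), (70, 28540500), (75, 43559520), (81, 38205750),
 (84, 40746375), (90, 36304125), (98, 42042000), (100, 36980250), (105, 42948750), (125, 40096080),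
 (126, 39874500), (135, 39491625), (140, 41405250), (147, 34085625), (150, 37969500), (175,
 44595600), (189, 36678750), (196, 36889125), (210, 40542750), (225, 35591625), (245, 36756000),
 (250, 37806000), (294, 36953250), (315, 37472250), (343, 32543250), (350, 40407750), (375,
 38117250), (441, 34417875), (490, 39204750), (525, 32532750), (625, 37194000), (686, 33498000),
 (735, 38060250), (875, 34511250), (1029, 39957375), (1225, 37903500), (1715, 37356750), (2401,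
 40420500)])))))))))
 (.split [(1, -17), (5, 25)]
 (.rule 5 (.cut 450 [(2, -1), (5, 1)] (.add (.mul (.g 10) (.pp [(1, 310)])) (.add (.mul (.g 11)
 (.pp [(1, 7)])) (.mul (.g 2) (.pp [(1, 9)])))) (.rule 3 (.rule 10 (.leaf 75000000 (.add (.add
 (.add (.add (.mul (.pp [(1, 2237250)]) (.sq [(1, -69), (2, -45), (3, -7), (5, 100), (7, 1)]))
 (.add (.mul (.g 7) (.add (.add (.mul (.g 18) (.add (.add (.mul (.g 10) (.add (.add (.mul (.g 11)
 (.pp [(1, 110742750000)])) (.mul (.g 14) (.pp [(1, 10342125000)]))) (.add (.mul (.g 16) (.pp [(1,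
 207837750000)])) (.mul (.g 18) (.pp [(1, 121947000000)]))))) (.mul (.g 4) (.add (.mul (.g 11) (.pp
 [(1, 308670000)])) (.add (.mul (.g 13) (.pp [(1, 252930000)])) (.mul (.g 14) (.pp [(1,
 3489000)])))))) (.add (.mul (.g 5) (.add (.pp [(1, 9643830000)]) (.add (.mul (.g 8) (.pp [(1,
 2981805000)])) (.mul (.g 9) (.pp [(1, 1191585000)]))))) (.mul (.g 7) (.add (.mul (.g 8) (.pp [(1,
 395091750000)])) (.add (.mul (.g 14) (.pp [(1, 6520237500)])) (.mul (.g 16) (.pp [(1,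
 107883000000)])))))))) (.mul (.g 5) (.add (.add (.mul (.g 14) (.add (.pp [(1, 347022750)]) (.add
 (.mul (.g 11) (.pp [(1, 27255000)])) (.mul (.g 13) (.pp [(1, 37395750)]))))) (.mul (.g 8) (.add
 (.mul (.g 8) (.pp [(1, 8028330000)])) (.mul (.g 15) (.pp [(1, 5579250000)]))))) (.add (.mul (.g 4)
 (.mul (.g 9) (.pp [(1, 522578400)]))) (.mul (.g 5) (.mul (.g 7) (.pp [(1, 24485100)]))))))) (.add
 (.mul (.g 4) (.add (.mul (.g 4) (.add (.mul (.g 8) (.pp [(1, 1124998800)])) (.add (.mul (.g 13)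
 (.pp [(1, 14312400)])) (.mul (.g 16) (.pp [(1, 39649200)]))))) (.mul (.g 9) (.mul (.g 11) (.pp
 [(1, 57330000)]))))) (.mul (.g 7) (.add (.mul (.g 8) (.add (.mul (.g 8) (.pp [(1, 286713000000)]))
 (.mul (.g 16) (.pp [(1, 80559000000)])))) (.add (.mul (.g 7) (.mul (.g 14) (.pp [(1, 18000000)])))
 (.mul (.g 12) (.mul (.g 16) (.pp [(1, 27002250000)]))))))))) (.mul (.g 4) (.add (.mul (.g 4) (.add
 (.add (.pp [(1, 304760400)]) (.mul (.g 9) (.add (.mul (.g 8) (.pp [(1, 31014000)])) (.add (.mul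
 (.g 11) (.pp [(1, 40344000)])) (.mul (.g 16) (.pp [(1, 13707600)])))))) (.add (.mul (.g 10) (.add
 (.mul (.g 4) (.pp [(1, 255168)])) (.mul (.g 10) (.pp [(1, 4642800)])))) (.add (.mul (.g 8) (.mul
 (.g 11) (.pp [(1, 182131200)]))) (.mul (.g 16) (.pp [(1, 4158000)])))))) (.add (.mul (.g 8) (.add
 (.mul (.g 5) (.add (.mul (.g 5) (.pp [(1, 108360)])) (.mul (.g 9) (.pp [(1, 9727800)])))) (.mul
 (.g 10) (.add (.mul (.g 8) (.pp [(1, 1365960000)])) (.mul (.g 11) (.pp [(1, 1259670000)]))))))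
 (.mul (.g 18) (.add (.mul (.pp [(1, 684)]) (.sq [(1, 80), (2, 4), (3, -100), (5, -90), (7, -87)]))
 (.add (.mul (.g 5) (.mul (.g 18) (.pp [(1, 29148600)]))) (.mul (.g 10) (.mul (.g 10) (.pp [(1,
 723030000)]))))))))))) (.add (.mul (.g 18) (.add (.add (.add (.mul (.pp [(1, 33517650)]) (.sq [(1,
 -5), (2, 100), (3, -14), (5, -10), (7, 18)])) (.mul (.pp [(1, 609300)]) (.sq [(1, -45), (2, 100),
 (3, -17), (5, 4), (7, 91)]))) (.add (.mul (.g 5) (.add (.mul (.g 8) (.add (.mul (.g 13) (.pp [(1,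
 163335000)])) (.mul (.g 18) (.pp [(1, 284775000)])))) (.mul (.g 10) (.mul (.g 10) (.pp [(1,
 518085000)]))))) (.mul (.g 11) (.add (.mul (.pp [(1, 609975)]) (.sq [(1, -6), (2, 100), (3, -14),
 (5, -11), (7, 20)])) (.mul (.pp [(1, 1577550)]) (.sq [(1, -79), (2, 66), (3, 55), (5, 78), (7,
 100)])))))) (.add (.add (.mul (.g 15) (.add (.mul (.pp [(1, 843300)]) (.sq [(1, 100), (2, -50),
 (3, -85), (5, -85), (7, -63)])) (.mul (.pp [(1, 746850)]) (.sq [(1, 10), (2, -100), (3, -15), (5,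
 44), (7, -92)])))) (.mul (.g 6) (.mul (.pp [(1, 81705)]) (.sq [(1, -49), (2, -12), (3, 73), (5,
 100), (7, -92)])))) (.add (.mul (.g 10) (.mul (.pp [(1, 4230750)]) (.sq [(1, -3), (2, -8), (3,
 -14), (5, -38), (7, 100)]))) (.mul (.g 13) (.mul (.pp [(1, 1395675)]) (.sq [(1, -8), (2, 68), (3,
 -41), (5, -11), (7, 100)]))))))) (.add (.mul (.g 8) (.add (.add (.mul (.g 5) (.add (.mul (.pp [(1,
 28464)]) (.sq [(1, -43), (2, 37), (3, 7), (5, -87), (7, 100)])) (.add (.mul (.g 10) (.add (.mul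
 (.g 5) (.pp [(1, 48600)])) (.mul (.g 10) (.pp [(1, 995925000)])))) (.mul (.g 8) (.mul (.g 16) (.pp
 [(1, 118500000)])))))) (.mul (.g 10) (.mul (.pp [(1, 537975)]) (.sq [(1, -1), (2, -76), (3, -64),
 (5, -7), (7, 100)])))) (.add (.mul (.g 11) (.mul (.pp [(1, 3848700)]) (.sq [(1, -10), (2, -93),
 (3, -2), (5, -33), (7, 100)]))) (.mul (.g 13) (.mul (.pp [(1, 4759725)]) (.sq [(1, 16), (2, 100),
 (3, 3), (5, 14), (7, -82)])))))) (.mul (.g 11) (.add (.mul (.g 12) (.mul (.pp [(1, 1473750)]) (.sq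
 [(1, -69), (2, -73), (3, -38), (5, 100), (7, 5)]))) (.add (.mul (.g 13) (.mul (.pp [(1, 915375)])
 (.sq [(1, -8), (2, -61), (3, 100), (5, -6), (7, 29)]))) (.mul (.g 15) (.mul (.pp [(1, 10649100)])
 (.sq [(1, -70), (2, -31), (3, -4), (5, 100)]))))))))) (.add (.add (.mul (.g 10) (.add (.mul (.pp
 [(1, 1936875)]) (.sq [(1, -80), (2, -94), (3, 15), (5, 100), (7, 26)])) (.mul (.pp [(1, 4428600)])
 (.sq [(2, 50), (3, -28), (5, 9), (7, -21)])))) (.add (.mul (.g 0) (.pp [(1, 600000000)])) (.mul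
 (.g 1) (.pp [(1, 250000000000)])))) (.add (.add (.mul (.g 3) (.pp [(1, 250000000000)])) (.mul (.g
 15) (.mul (.pp [(1, 637650)]) (.sq [(1, -70), (2, -43), (3, -7), (5, 100), (7, 2)])))) (.add (.mul
 (.g 16) (.mul (.g 16) (.mul (.pp [(1, 2026050)]) (.sq [(1, 43), (2, -100), (3, 76), (5, -65), (7,
 14)])))) (.mul (.g 17) (.pp [(1, 250000000000)])))))) (.pp [(1, 35944035), (2, 6889380), (3,
 6429228), (4, 7849638), (5, 6161850), (6, 9316686), (7, 6005349), (8, 6600975), (9, 8161476), (10,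
 7959540), (12, 7019525), (14, 9326862), (15, 9559464), (16, 7503375), (18, 5183081), (19,
 750000000000), (20, 7675575), (21, 10713720), (24, 8148825), (25, 8222625), (27, 8379483), (28,
 6140862), (30, 6525834), (35, 10243080), (36, 7564800), (40, 7942125), (42, 3784878), (45,
 6586839), (49, 9166122), (50, 7789650), (54, 8212800), (56, 7850250), (60, 7329900), (63,
 6436230), (70, 5860110), (75, 5481138), (81, 7115475), (84, 7889550), (90, 7849950), (98,
 6487383), (100, 7101000), (105, 4879470), (125, 7941825), (126, 9848775), (135, 7108500), (140,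
 8086050), (147, 4475523), (150, 7634250), (175, 5864775), (189, 7136100), (196, 7791375), (210,
 8550150), (225, 8344425), (245, 5772195), (250, 7303500), (294, 9743325), (315, 7530825), (343,
 6653928), (350, 7649850), (375, 8104575), (441, 7888200), (490, 8405025), (525, 8618850), (625,
 7188750), (686, 7560000), (735, 8406600), (875, 7797675), (1029, 7998300), (1225, 7648200), (1715,
 8229900), (2401, 7500000)])))))))
 (.rule 5 (.cut 450 [(2, -1), (5, 1)] (.add (.mul (.g 10) (.pp [(1, 310)])) (.add (.mul (.g 11)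
 (.pp [(1, 7)])) (.mul (.g 2) (.pp [(1, 9)])))) (.rule 3 (.leaf 1875000000 (.add (.add (.add (.add
 (.mul (.pp [(1, 115685625)]) (.sq [(1, 12), (2, 100), (3, -40), (5, -23), (7, -10)])) (.mul (.pp
 [(1, 2480625)]) (.sq [(1, 12), (2, 100), (3, -70), (5, -13), (7, -8)]))) (.add (.mul (.g 6) (.add
 (.add (.mul (.g 3) (.add (.add (.pp [(1, 26031750000)]) (.add (.mul (.g 9) (.add (.add (.mul (.g
 7) (.pp [(1, 90981000000)])) (.mul (.g 10) (.pp [(1, 38236500000)]))) (.add (.mul (.g 13) (.pp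
 [(1, 1878750000)])) (.mul (.g 17) (.pp [(1, 52266000000)]))))) (.mul (.g 6) (.add (.pp [(1,
 52416750000)]) (.add (.mul (.g 6) (.pp [(1, 5604000000)])) (.mul (.g 15) (.pp [(1,
 32724000000)]))))))) (.add (.mul (.g 3) (.add (.mul (.g 8) (.pp [(1, 215430000)])) (.mul (.g 12)
 (.pp [(1, 1218390000)])))) (.add (.mul (.g 8) (.mul (.g 17) (.pp [(1, 21667500000)]))) (.mul (.g
 15) (.mul (.g 15) (.pp [(1, 37343250000)]))))))) (.mul (.g 4) (.add (.mul (.g 6) (.add (.mul (.g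
 4) (.pp [(1, 1003455000)])) (.add (.mul (.g 5) (.pp [(1, 11945100000)])) (.mul (.g 6) (.pp [(1,
 74415375000)]))))) (.add (.mul (.g 17) (.add (.pp [(1, 145745250000)]) (.add (.mul (.g 12) (.pp
 [(1, 5655750000)])) (.mul (.g 17) (.pp [(1, 45312000000)]))))) (.mul (.g 13) (.add (.pp [(1,
 14565543750)]) (.mul (.g 8) (.pp [(1, 1837556250)])))))))) (.add (.mul (.g 6) (.add (.mul (.g 17)
 (.add (.mul (.g 7) (.pp [(1, 4785731250000)])) (.add (.mul (.g 11) (.pp [(1, 3628987500000)]))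
 (.mul (.g 12) (.pp [(1, 4802737500000)]))))) (.add (.mul (.g 6) (.mul (.g 13) (.pp [(1,
 6009375000)]))) (.mul (.g 7) (.mul (.g 7) (.pp [(1, 2589956250000)])))))) (.add (.mul (.g 9) (.add
 (.mul (.g 17) (.add (.mul (.g 10) (.pp [(1, 5840287500000)])) (.mul (.g 17) (.pp [(1,
 2717531250000)])))) (.mul (.g 7) (.mul (.g 7) (.pp [(1, 879337500000)]))))) (.mul (.g 7) (.mul (.g
 11) (.pp [(1, 1114387500000)]))))))) (.add (.mul (.g 17) (.add (.add (.mul (.pp [(1, 266996250)])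
 (.sq [(1, -15), (2, 100), (3, 13), (5, -4), (7, 44)])) (.add (.mul (.g 4) (.add (.mul (.g 7) (.add
 (.pp [(1, 2344500000)]) (.add (.mul (.g 7) (.pp [(1, 6276750000)])) (.mul (.g 8) (.pp [(1,
 24730875000)]))))) (.add (.mul (.g 9) (.add (.mul (.g 3) (.pp [(1, 911085000)])) (.mul (.g 4) (.pp
 [(1, 159832500)])))) (.mul (.g 8) (.mul (.g 8) (.pp [(1, 8088750000)])))))) (.mul (.g 10) (.add
 (.mul (.pp [(1, 90043125)]) (.sq [(1, -18), (2, 100), (3, 13), (5, -5), (7, 51)])) (.add (.mul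
 (.pp [(1, 9631875)]) (.sq [(1, -79), (2, 66), (3, 55), (5, 78), (7, 100)])) (.mul (.pp [(1,
 80351250)]) (.sq [(1, -40), (2, 100), (3, -46), (5, 21), (7, 46)]))))))) (.add (.add (.mul (.g 12)
 (.add (.mul (.pp [(1, 75159375)]) (.sq [(1, -1), (2, 100), (3, -69), (5, -29), (7, 82)])) (.add
 (.mul (.pp [(1, 11896875)]) (.sq [(1, -79), (2, 11), (3, 63), (5, 60), (7, 100)])) (.mul (.pp [(1,
 1901250)]) (.sq [(1, -25), (2, 100), (3, 19), (5, 6), (7, 46)]))))) (.mul (.g 9) (.add (.mul (.pp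
 [(1, 89722500)]) (.sq [(1, -13), (3, -43), (5, -24), (7, 100)])) (.mul (.pp [(1, 18451875)]) (.sq
 [(1, -33), (2, -70), (3, 11), (5, -30), (7, 100)]))))) (.add (.mul (.g 3) (.mul (.g 7) (.mul (.g
 8) (.pp [(1, 2066250000)])))) (.mul (.g 15) (.mul (.pp [(1, 296970000)]) (.sq [(1, 7), (2, 12),
 (3, 25), (5, -8), (7, -11)]))))))) (.mul (.g 3) (.add (.add (.mul (.pp [(1, 4364700)]) (.sq [(2,
 -50), (3, 4), (5, -33), (7, 45)])) (.mul (.g 13) (.add (.add (.pp [(1, 325537500)]) (.mul (.g 3)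
 (.add (.pp [(1, 6814500)]) (.add (.mul (.g 8) (.pp [(1, 1380000)])) (.mul (.g 9) (.pp [(1,
 1020000)])))))) (.add (.mul (.g 7) (.pp [(1, 28200000)])) (.mul (.g 9) (.mul (.g 9) (.pp [(1,
 291600000)]))))))) (.add (.mul (.g 7) (.mul (.g 9) (.add (.mul (.g 4) (.pp [(1, 150075000)]))
 (.add (.mul (.g 8) (.pp [(1, 8624250000)])) (.mul (.g 15) (.pp [(1, 11982750000)])))))) (.add
 (.mul (.g 3) (.mul (.g 3) (.mul (.g 4) (.pp [(1, 110016)])))) (.mul (.g 12) (.mul (.pp [(1,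
 315600)]) (.sq [(1, -30), (2, 50), (3, -25), (5, -47), (7, 100)])))))))))) (.add (.add (.mul (.g
 7) (.add (.mul (.g 4) (.add (.add (.pp [(1, 3470625000)]) (.mul (.g 7) (.add (.mul (.g 4) (.pp
 [(1, 290947500)])) (.mul (.g 12) (.pp [(1, 12771375000)]))))) (.add (.mul (.g 8) (.mul (.g 15)
 (.pp [(1, 2968500000)]))) (.mul (.g 9) (.mul (.g 9) (.pp [(1, 19789500000)])))))) (.add (.mul (.g
 9) (.mul (.pp [(1, 87305625)]) (.sq [(1, -20), (2, -59), (3, -30), (5, -25), (7, 100)]))) (.mul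
 (.g 12) (.mul (.pp [(1, 116445000)]) (.sq [(1, -23), (2, 28), (3, -5), (5, -13), (7, 100)]))))))
 (.add (.mul (.g 10) (.add (.mul (.pp [(1, 39530625)]) (.sq [(1, 12), (2, 100), (3, -41), (5, -24),
 (7, -8)])) (.mul (.g 4) (.mul (.g 4) (.mul (.g 13) (.pp [(1, 5080125)])))))) (.mul (.g 0) (.pp
 [(1, 6250000000000)])))) (.add (.mul (.g 2) (.pp [(1, 6250000000000)])) (.add (.mul (.g 9) (.mul
 (.g 9) (.mul (.pp [(1, 19635000)]) (.sq [(1, 39), (2, 100), (3, -77), (5, -37), (7, -35)]))))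
 (.mul (.g 16) (.pp [(1, 6250000000000)])))))) (.pp [(1, 3930986244), (2, 200418000), (3,
 175357275), (4, 192603750), (5, 175340100), (6, 188810625), (7, 188651250), (8, 198969375), (9,
 197528475), (10, 149127750), (12, 147138125), (14, 194248125), (15, 216722100), (16, 187500000),
 (18, 195554375), (19, 18750000000000), (20, 171253125), (21, 216229125), (23, 18750000000000),
 (24, 178160625), (25, 194265525), (27, 182576250), (28, 182276250), (30, 230651250), (35,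
 205506750), (36, 219560625), (40, 187500000), (42, 166323750), (45, 166901250), (49, 185756250),
 (50, 219178050), (54, 164381250), (56, 179030625), (60, 198091875), (63, 151366875), (70,
 184061250), (75, 170525700), (81, 190207500), (84, 209347500), (90, 167658750), (98, 186553125),
 (100, 201750000), (105, 134321250), (125, 201131325), (126, 184140000), (135, 201536250), (140,
 181681875), (147, 155735625), (150, 163368750), (175, 169985625), (189, 202621875), (196,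
 186187500), (210, 194861250), (225, 192853125), (245, 176066250), (250, 181740000), (294,
 179675625), (315, 223601250), (343, 181198125), (350, 190203750), (375, 191454375), (441,
 218244375), (490, 197456250), (525, 198772500), (625, 179010000), (686, 179904375), (735,
 221985000), (875, 184149375), (1029, 198907500), (1225, 193815000), (1715, 196162500), (2401,
 190875000)])))))))))
 (P_Tp0 ++ xP_G_T6) = true := by decide +kernel

end Pool.Agent.Helper62.TW
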