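import Pool.Agent.Helper62.TW.Goals

/-!
# Case trees, part 6 (generated)
-/

set_option autoImplicit false
set_option maxRecDepth 100000
set_option linter.all false

namespace Pool.Agent.Helper62.TW

open Pool.Agent.Helper83.Cert

theorem t_A_F5a_c1 : chk RFp gP_A_F5a
 (.cut 50 [(2, 1), (3, -1)] (.add (.add (.mul (.g 8) (.pp [(1, 45)])) (.mul (.g 7) (.pp [(1, 2)])))
 (.add (.mul (.g 2) (.pp [(1, 5)])) (.mul (.g 9) (.pp [(1, 9)])))) (.rule 0 (.cut 60 [(2, -1), (5,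
 1)] (.add (.add (.mul (.g 11) (.pp [(1, 11)])) (.mul (.g 9) (.pp [(1, 3)]))) (.add (.mul (.g 1)
 (.pp [(1, 5)])) (.mul (.g 6) (.pp [(1, 5)])))) (.rule 3 (.leaf 3000000 (.add (.add (.add (.add
 (.mul (.g 5) (.add (.add (.mul (.g 4) (.add (.add (.mul (.g 4) (.add (.mul (.g 8) (.pp [(1,
 310110000)])) (.add (.mul (.g 13) (.pp [(1, 3593142000)])) (.mul (.g 16) (.pp [(1,
 256380000)]))))) (.mul (.g 5) (.add (.mul (.g 5) (.pp [(1, 7116900000)])) (.mul (.g 12) (.pp [(1,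
 7117200000)]))))) (.add (.mul (.g 8) (.mul (.g 8) (.pp [(1, 310110000)]))) (.mul (.g 9) (.pp [(1,
 10274790000)]))))) (.mul (.g 5) (.add (.mul (.g 5) (.add (.mul (.g 5) (.pp [(1, 362700000)]))
 (.mul (.g 16) (.pp [(1, 2552790000)])))) (.mul (.g 10) (.mul (.g 16) (.pp [(1, 7116900000)]))))))
 (.add (.mul (.g 6) (.add (.mul (.g 15) (.add (.mul (.g 13) (.pp [(1, 3104580000)])) (.mul (.g 15)
 (.pp [(1, 4964490000)])))) (.mul (.g 16) (.mul (.g 16) (.pp [(1, 3934800000)]))))) (.add (.mul (.g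
 8) (.add (.mul (.g 10) (.pp [(1, 12816060000)])) (.add (.mul (.g 11) (.pp [(1, 74050500)])) (.mul
 (.g 13) (.pp [(1, 1231428000)]))))) (.mul (.g 13) (.pp [(1, 1611846000)])))))) (.mul (.g 4) (.add
 (.mul (.g 4) (.add (.add (.mul (.g 4) (.add (.mul (.g 8) (.pp [(1, 1789110000)])) (.mul (.g 12)
 (.pp [(1, 573345000)])))) (.mul (.g 8) (.mul (.g 8) (.pp [(1, 1215150000)])))) (.add (.mul (.g 12)
 (.mul (.g 12) (.pp [(1, 128040000)]))) (.mul (.g 13) (.mul (.g 15) (.pp [(1, 720588000)]))))))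
 (.mul (.g 11) (.add (.mul (.g 8) (.mul (.g 8) (.pp [(1, 54261000)]))) (.add (.mul (.g 9) (.pp [(1,
 52057500)])) (.mul (.g 13) (.pp [(1, 34275300)])))))))) (.add (.mul (.g 6) (.add (.mul (.g 6)
 (.add (.mul (.g 9) (.add (.mul (.g 6) (.pp [(1, 1198140000)])) (.mul (.g 11) (.pp [(1,
 2026500)])))) (.mul (.g 16) (.add (.mul (.g 12) (.pp [(1, 425610000)])) (.mul (.g 16) (.pp [(1,
 1728090000)])))))) (.add (.mul (.g 16) (.add (.pp [(1, 2947830000)]) (.mul (.pp [(1, 52233)]) (.sq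
 [(1, 42), (2, 41), (3, 19), (5, 100)])))) (.mul (.g 11) (.pp [(1, 207304500)]))))) (.mul (.g 0)
 (.pp [(1, 10000000000)])))) (.add (.add (.mul (.g 2) (.pp [(1, 10000000000)])) (.mul (.g 8) (.mul
 (.g 8) (.pp [(1, 332550000)])))) (.add (.mul (.g 11) (.pp [(1, 248067000)])) (.add (.mul (.g 13)
 (.mul (.g 16) (.pp [(1, 1261950000)]))) (.mul (.g 14) (.pp [(1, 2000000)])))))) (.pp [(1,
 345153000), (2, 261900), (3, 316500), (4, 325500), (5, 331488), (6, 283500), (8, 249000), (9,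
 300000), (10, 300048), (12, 312000), (15, 276132), (16, 330000), (18, 300000), (20, 336327), (24,
 285000), (25, 270312), (27, 310000), (30, 310986), (36, 330000), (40, 285000), (45, 283887), (50,
 278352), (54, 300000), (60, 300000), (75, 319968), (81, 300000), (90, 300000), (100, 293673),
 (125, 308700), (135, 300000), (150, 319014), (225, 286113), (250, 330600), (375, 275400), (625,
 300000)])))))))
 (P_c1 ++ xP_A_F5a) = true := by decide +kernel

theorem t_A_F5a_Op0 : chk ROp gP_A_F5a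
 (.split [(1, -69), (3, 100)]
 (.rule 5 (.rule 6 (.cut 1 [(1, 3), (3, -2)] (.add (.add (.mul (.g 8) (.pp [(1, 1)])) (.mul (.g 11)
 (.pp [(1, 1)]))) (.add (.mul (.g 5) (.pp [(1, 1)])) (.mul (.g 7) (.pp [(1, 1)])))) (.rule 8 (.leaf
 60000000 (.add (.add (.add (.add (.mul (.g 6) (.add (.add (.mul (.g 5) (.add (.add (.mul (.g 5)
 (.add (.mul (.g 9) (.pp [(1, 59069400000)])) (.mul (.g 16) (.pp [(1, 79455600000)])))) (.mul (.g
 10) (.add (.pp [(1, 5891400000)]) (.mul (.g 7) (.pp [(1, 59088000000)]))))) (.add (.mul (.g 4)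
 (.mul (.g 4) (.pp [(1, 14557140)]))) (.mul (.g 11) (.mul (.g 16) (.pp [(1, 684000000)])))))) (.mul
 (.g 6) (.mul (.g 16) (.add (.add (.mul (.g 6) (.pp [(1, 110812800000)])) (.mul (.g 7) (.pp [(1,
 46630800000)]))) (.add (.mul (.g 12) (.pp [(1, 1143420000)])) (.mul (.g 13) (.pp [(1,
 151857000000)]))))))) (.add (.mul (.g 4) (.mul (.g 4) (.add (.mul (.g 12) (.pp [(1, 740319)]))
 (.mul (.g 13) (.pp [(1, 14080980)]))))) (.mul (.g 7) (.add (.mul (.g 7) (.mul (.g 13) (.pp [(1,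
 159799200000)]))) (.mul (.g 9) (.mul (.g 9) (.pp [(1, 138056400000)])))))))) (.mul (.g 7) (.add
 (.add (.mul (.g 7) (.add (.mul (.g 13) (.add (.pp [(1, 84377400000)]) (.add (.mul (.g 7) (.pp [(1,
 464400000)])) (.mul (.g 11) (.pp [(1, 19333200000)]))))) (.mul (.g 12) (.mul (.g 12) (.pp [(1,
 1645500)]))))) (.mul (.g 16) (.add (.pp [(1, 225886800000)]) (.mul (.pp [(1, 514800)]) (.sq [(1,
 -75), (2, 42), (3, -73), (5, 100)]))))) (.add (.mul (.g 4) (.pp [(1, 1640604000)])) (.mul (.g 5)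
 (.mul (.g 5) (.mul (.g 13) (.pp [(1, 61597200000)])))))))) (.add (.mul (.g 5) (.add (.mul (.g 5)
 (.add (.mul (.g 11) (.add (.mul (.g 13) (.pp [(1, 56571600000)])) (.mul (.g 16) (.pp [(1,
 89400000)])))) (.add (.mul (.g 4) (.mul (.g 4) (.pp [(1, 6153780)]))) (.mul (.g 5) (.mul (.g 12)
 (.pp [(1, 300000)])))))) (.mul (.g 10) (.mul (.g 12) (.pp [(1, 2728290000)]))))) (.add (.mul (.g
 9) (.add (.mul (.g 12) (.add (.mul (.g 11) (.pp [(1, 4215180000)])) (.mul (.g 12) (.pp [(1,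
 5221500)])))) (.mul (.g 10) (.mul (.g 10) (.mul (.g 13) (.pp [(1, 2485800000)])))))) (.mul (.g 16)
 (.add (.mul (.g 10) (.mul (.pp [(1, 50040)]) (.sq [(1, -35), (2, 45), (3, 78), (5, 100)]))) (.add
 (.mul (.g 15) (.mul (.pp [(1, 79696320)]) (.sq [(1, -12), (2, 8), (3, 25), (5, 25)]))) (.mul (.g
 16) (.mul (.pp [(1, 4737360)]) (.sq [(1, -17), (2, 12), (3, 37), (5, 50)]))))))))) (.add (.add
 (.mul (.g 4) (.add (.pp [(1, 233532000)]) (.mul (.g 13) (.pp [(1, 355776000)])))) (.mul (.g 0)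
 (.pp [(1, 60000000)]))) (.add (.mul (.g 2) (.pp [(1, 200000000000)])) (.add (.mul (.g 3) (.pp [(1,
 200000000000)])) (.mul (.g 14) (.pp [(1, 200000000000)])))))) (.pp [(1, 15786844380), (2,
 6254820), (3, 4977411), (4, 5774100), (5, 5732160), (6, 5976120), (8, 6169000), (9, 6955200), (10,
 6097800), (12, 5978680), (15, 7041180), (16, 6000000), (18, 5453440), (20, 5692960), (24,
 6000000), (25, 6092460), (27, 5673360), (30, 5559600), (36, 5400000), (40, 5931000), (45,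
 5307600), (50, 5760880), (54, 6600000), (60, 6385320), (75, 5921280), (81, 6000000), (90,
 6634560), (100, 6156360), (125, 6372000), (135, 5756640), (150, 6325920), (225, 5856000), (250,
 5928000), (375, 5664000), (625, 6000000)])))))))
 (.split [(1, -7), (3, 50)]
 (.rule 5 (.rule 6 (.rule 7 (.leaf 300000000 (.add (.add (.add (.add (.mul (.g 3) (.add (.add (.mul
 (.g 4) (.add (.mul (.g 3) (.add (.mul (.g 10) (.pp [(1, 964200)])) (.mul (.g 16) (.pp [(1,
 4579560)])))) (.add (.mul (.g 5) (.mul (.g 9) (.pp [(1, 138233400)]))) (.mul (.g 13) (.mul (.g 13)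
 (.pp [(1, 79046400)])))))) (.mul (.g 6) (.add (.mul (.g 9) (.add (.mul (.g 5) (.pp [(1,
 5906520000)])) (.mul (.g 10) (.pp [(1, 3293940000)])))) (.add (.mul (.g 6) (.mul (.g 16) (.pp [(1,
 11007660000)]))) (.mul (.g 10) (.mul (.g 13) (.pp [(1, 4904100000)]))))))) (.add (.mul (.g 7)
 (.add (.pp [(1, 10694940000)]) (.mul (.g 9) (.mul (.g 9) (.pp [(1, 10652880000)]))))) (.add (.mul
 (.g 5) (.mul (.g 5) (.mul (.g 16) (.pp [(1, 37716060000)])))) (.mul (.g 15) (.mul (.pp [(1,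
 814176)]) (.sq [(1, -54), (2, 1), (3, 100), (5, -21)]))))))) (.mul (.g 12) (.add (.add (.mul (.g
 9) (.add (.mul (.pp [(1, 2524050)]) (.sq [(3, 100), (5, -29)])) (.add (.mul (.g 11) (.add (.pp
 [(1, 2749050000)]) (.mul (.g 9) (.pp [(1, 6625650000)])))) (.mul (.g 12) (.pp [(1,
 997200000)]))))) (.mul (.g 16) (.add (.pp [(1, 9164850000)]) (.add (.mul (.pp [(1, 274830)]) (.sq
 [(1, -3), (2, 100), (3, 70), (5, -64)])) (.mul (.g 5) (.add (.mul (.g 6) (.pp [(1, 19061550000)]))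
 (.mul (.g 10) (.pp [(1, 3250650000)])))))))) (.add (.mul (.g 7) (.mul (.g 7) (.mul (.g 7) (.pp
 [(1, 3517200000)])))) (.mul (.g 10) (.mul (.pp [(1, 2131575)]) (.sq [(1, -31), (2, 56), (3, 100),
 (5, 27)]))))))) (.add (.mul (.g 5) (.add (.mul (.g 5) (.add (.mul (.g 4) (.add (.mul (.g 4) (.pp
 [(1, 15798000)])) (.add (.mul (.g 6) (.pp [(1, 1293270000)])) (.mul (.g 11) (.pp [(1,
 2440620000)]))))) (.mul (.g 5) (.mul (.g 5) (.pp [(1, 1149000000)]))))) (.add (.mul (.g 6) (.add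
 (.mul (.pp [(1, 23102700)]) (.sq [(1, -3), (2, 100), (3, -80), (5, 79)])) (.mul (.g 6) (.mul (.g
 9) (.pp [(1, 709491000000)]))))) (.mul (.g 7) (.mul (.g 10) (.pp [(1, 117300000000)])))))) (.add
 (.mul (.g 16) (.add (.mul (.g 7) (.add (.pp [(1, 565731000000)]) (.mul (.g 4) (.mul (.g 7) (.pp
 [(1, 4890930000)]))))) (.add (.mul (.g 11) (.mul (.pp [(1, 18144600)]) (.sq [(1, 26), (2, -19),
 (3, 100), (5, 11)]))) (.mul (.g 16) (.mul (.pp [(1, 9885600)]) (.sq [(1, -17), (2, 12), (3, 37),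
 (5, 50)])))))) (.mul (.g 0) (.pp [(1, 600000000)]))))) (.add (.add (.mul (.g 1) (.pp [(1,
 1000000000000)])) (.mul (.g 2) (.pp [(1, 1000000000000)]))) (.add (.mul (.g 4) (.mul (.g 15) (.mul
 (.pp [(1, 778650)]) (.sq [(1, -37), (2, 20), (3, 100), (5, 72)])))) (.add (.mul (.g 6) (.mul (.g
 7) (.mul (.g 9) (.mul (.g 9) (.pp [(1, 347052000000)]))))) (.mul (.g 14) (.pp [(1,
 1000000000000)])))))) (.pp [(1, 14314626507), (2, 30612819), (3, 25855263), (4, 29138532), (5,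
 25913961), (6, 29967156), (8, 25519400), (9, 38057700), (10, 31227906), (12, 36340568), (15,
 37125174), (16, 30384000), (18, 21669200), (20, 41663600), (24, 25032000), (25, 36666027), (27,
 27390000), (30, 16304544), (36, 32692800), (40, 29687400), (45, 32400600), (50, 20999825), (54,
 35280000), (60, 32376600), (75, 27068613), (81, 30000000), (90, 34994400), (100, 27511500), (125,
 27713205), (135, 24480000), (150, 31955700), (225, 28521900), (250, 33237000), (375, 31261200),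
 (625, 29933700)]))))))
 (.rule 5 (.cut 450 [(2, -1), (5, 1)] (.add (.mul (.g 9) (.pp [(1, 310)])) (.add (.mul (.g 10) (.pp
 [(1, 7)])) (.mul (.g 1) (.pp [(1, 9)])))) (.rule 3 (.leaf 1500000000 (.add (.add (.add (.add (.mul
 (.g 5) (.add (.add (.mul (.g 5) (.add (.add (.mul (.g 6) (.add (.mul (.g 4) (.pp [(1,
 4184550000)])) (.mul (.g 16) (.pp [(1, 14811420000000)])))) (.mul (.g 5) (.pp [(1,
 1036845000000)]))) (.add (.mul (.g 10) (.mul (.g 10) (.pp [(1, 719700000000)]))) (.mul (.g 13)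
 (.mul (.g 16) (.pp [(1, 937815000000)])))))) (.add (.mul (.g 3) (.add (.pp [(1, 11011200000)])
 (.mul (.g 11) (.pp [(1, 9264300000)])))) (.mul (.g 6) (.add (.mul (.pp [(1, 53743500)]) (.sq [(1,
 -11), (2, 87), (3, -36), (5, 100)])) (.mul (.g 9) (.mul (.g 16) (.pp [(1, 10724250000000)])))))))
 (.add (.mul (.g 7) (.mul (.g 7) (.pp [(1, 135360000000)]))) (.add (.mul (.g 12) (.pp [(1,
 51032250000)])) (.mul (.g 16) (.pp [(1, 2190585000000)])))))) (.mul (.g 6) (.add (.add (.mul (.g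
 4) (.mul (.g 4) (.add (.mul (.g 7) (.pp [(1, 821203500)])) (.mul (.g 11) (.pp [(1, 64536000)])))))
 (.add (.mul (.g 3) (.pp [(1, 268413300000)])) (.mul (.g 6) (.mul (.g 6) (.mul (.g 11) (.pp [(1,
 751695000000)])))))) (.add (.add (.mul (.g 7) (.pp [(1, 1645680000000)])) (.mul (.g 9) (.pp [(1,
 3125175000000)]))) (.add (.mul (.g 10) (.mul (.pp [(1, 89989500)]) (.sq [(1, 75), (2, 100), (3,
 7), (5, 10)]))) (.mul (.g 12) (.pp [(1, 603534000000)]))))))) (.add (.mul (.g 10) (.add (.add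
 (.mul (.g 7) (.mul (.g 7) (.add (.mul (.g 11) (.pp [(1, 143595000000)])) (.mul (.g 16) (.pp [(1,
 170400000000)]))))) (.mul (.g 9) (.mul (.pp [(1, 74256000)]) (.sq [(1, -82), (2, 15), (3, 100),
 (5, 61)])))) (.add (.mul (.g 11) (.mul (.pp [(1, 163771500)]) (.sq [(1, 3), (2, -74), (3, -100),
 (5, -21)]))) (.mul (.g 12) (.mul (.pp [(1, 1011225)]) (.sq [(1, 75), (2, 100), (3, -34), (5,
 13)])))))) (.add (.mul (.g 3) (.add (.add (.mul (.g 3) (.mul (.g 3) (.mul (.g 3) (.pp [(1,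
 73452)])))) (.mul (.g 7) (.mul (.g 7) (.mul (.g 16) (.pp [(1, 46164300000)]))))) (.add (.mul (.g
 11) (.mul (.pp [(1, 429120)]) (.sq [(1, 20), (2, 61), (3, 20), (5, 100)]))) (.mul (.g 12) (.mul
 (.pp [(1, 121101)]) (.sq [(1, 80), (2, 100), (3, 8), (5, 19)])))))) (.mul (.g 12) (.add (.pp [(1,
 29691000000)]) (.add (.mul (.g 7) (.mul (.g 7) (.mul (.g 7) (.pp [(1, 4078500000)])))) (.mul (.g
 16) (.pp [(1, 15385500000)])))))))) (.add (.add (.mul (.g 0) (.pp [(1, 5000000000000)])) (.add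
 (.mul (.g 2) (.pp [(1, 5000000000000)])) (.mul (.g 9) (.mul (.g 9) (.mul (.pp [(1, 13539000)])
 (.sq [(1, -47), (2, 100), (3, -95), (5, 15)])))))) (.add (.mul (.g 11) (.mul (.g 11) (.mul (.pp
 [(1, 41745000)]) (.sq [(1, 100), (2, -79), (3, 13), (5, -61)])))) (.add (.mul (.g 14) (.pp [(1,
 5000000000000)])) (.mul (.g 16) (.mul (.g 16) (.mul (.pp [(1, 828000)]) (.sq [(1, -36), (2, 42),
 (3, 75), (5, 100)])))))))) (.pp [(1, 755247573), (2, 135620625), (3, 160867215), (4, 132975600),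
 (5, 154842645), (6, 193284900), (8, 142466640), (9, 127621932), (10, 186696150), (12, 175351960),
 (15, 119414202), (16, 144789000), (18, 123701260), (19, 15000000000000), (20, 158262360), (24,
 155524500), (25, 147255918), (27, 157902840), (30, 126283860), (36, 145191000), (40, 156714000),
 (45, 170501880), (50, 145470765), (54, 157210500), (60, 145452000), (75, 158696325), (81,
 151966500), (90, 159120000), (100, 147021000), (125, 143252235), (135, 138229500), (150,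
 153789000), (225, 137613000), (250, 149382000), (375, 146877000), (625, 153027000)]))))))))
 (P_Op0 ++ xP_A_F5a) = true := by decide +kernel

theorem t_A_F5c_free : chk RFp gP_A_F5c
 (.cut 20 [(2, 1), (3, -1)] (.add (.mul (.g 10) (.pp [(1, 9)])) (.add (.mul (.g 2) (.pp [(1, 11)]))
 (.mul (.g 7) (.pp [(1, 1)])))) (.rule 0 (.cut 1 [(2, -1), (5, 1)] (.add (.mul (.g 12) (.pp [(1,
 1)])) (.mul (.g 6) (.pp [(1, 1)]))) (.rule 3 (.leaf 60000000 (.add (.add (.add (.add (.mul (.g 5)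
 (.add (.add (.mul (.g 4) (.add (.add (.mul (.g 4) (.add (.mul (.g 11) (.pp [(1, 480000)])) (.mul
 (.g 13) (.pp [(1, 13200000)])))) (.mul (.g 8) (.mul (.g 8) (.pp [(1, 24000000)])))) (.add (.mul
 (.g 11) (.pp [(1, 29996370000)])) (.mul (.g 13) (.mul (.g 13) (.pp [(1, 5400000)])))))) (.add
 (.mul (.g 5) (.mul (.g 5) (.add (.add (.pp [(1, 409723200000)]) (.mul (.g 5) (.pp [(1,
 7261800000)]))) (.add (.mul (.g 8) (.pp [(1, 18600000)])) (.mul (.g 11) (.pp [(1, 720000)]))))))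
 (.mul (.g 6) (.add (.mul (.g 6) (.add (.mul (.g 6) (.pp [(1, 1800000)])) (.mul (.g 14) (.pp [(1,
 6000000)])))) (.add (.mul (.g 8) (.pp [(1, 15000000)])) (.mul (.g 13) (.pp [(1, 19800000)])))))))
 (.add (.add (.mul (.g 8) (.pp [(1, 612003000000)])) (.mul (.g 11) (.pp [(1, 17106600000)]))) (.add
 (.mul (.g 13) (.pp [(1, 290293200000)])) (.mul (.g 14) (.pp [(1, 342106800000)])))))) (.mul (.g
 11) (.add (.add (.pp [(1, 390000)]) (.mul (.g 4) (.add (.pp [(1, 4230000)]) (.mul (.g 14) (.add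
 (.mul (.g 8) (.pp [(1, 930000)])) (.mul (.g 13) (.pp [(1, 390000)]))))))) (.add (.mul (.g 6) (.add
 (.pp [(1, 450000)]) (.add (.mul (.pp [(1, 45)]) (.sq [(1, 100), (2, 92), (3, 92), (5, 91)])) (.mul
 (.g 6) (.mul (.g 13) (.pp [(1, 120000)])))))) (.mul (.g 9) (.mul (.pp [(1, 132)]) (.sq [(1, 15),
 (2, 22), (3, 50), (5, 11)]))))))) (.add (.mul (.g 8) (.add (.add (.pp [(1, 156000000)]) (.mul (.g
 4) (.add (.pp [(1, 146400000)]) (.add (.mul (.g 4) (.mul (.g 4) (.pp [(1, 29400000)]))) (.mul (.g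
 6) (.mul (.g 6) (.pp [(1, 32400000)]))))))) (.add (.mul (.g 6) (.mul (.g 6) (.mul (.g 14) (.pp
 [(1, 1200000)])))) (.mul (.g 8) (.mul (.pp [(1, 2220)]) (.sq [(1, -47), (2, 100), (3, -96), (5,
 14)])))))) (.mul (.g 10) (.mul (.g 10) (.add (.mul (.g 4) (.pp [(1, 19200000)])) (.mul (.g 10)
 (.pp [(1, 11400000)]))))))) (.add (.add (.mul (.g 0) (.pp [(1, 200000000000)])) (.mul (.g 2) (.pp
 [(1, 200000000000)]))) (.add (.mul (.g 12) (.pp [(1, 200000000000)])) (.add (.mul (.g 13) (.pp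
 [(1, 18586800000)])) (.mul (.g 14) (.mul (.g 14) (.mul (.pp [(1, 120)]) (.sq [(1, -79), (2, 99),
 (3, 100), (5, 99)])))))))) (.pp [(1, 4647769800), (2, 6517620), (3, 6742020), (4, 6118428), (5,
 6465660), (6, 4633440), (8, 5872848), (9, 5718480), (10, 4578888), (12, 5754672), (15, 5257800),
 (16, 5922240), (18, 6948240), (20, 5101440), (24, 5771520), (25, 5160252), (27, 5930000), (30,
 8312592), (36, 6078720), (40, 6044160), (45, 6121680), (50, 7640004), (54, 6192000), (60,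
 5861760), (75, 7058268), (81, 6000000), (90, 5931840), (100, 5695080), (125, 6647463), (135,
 5913600), (150, 5542560), (225, 6359760), (250, 5825580), (375, 6403620), (625, 5957340)])))))))
 (P_free ++ xP_A_F5c) = true := by decide +kernel

theorem t_A_F8_c3 : chk ROp gP_A_F8
 (.split [(1, -3), (3, 2)]
 (.cut 3 [(2, -1), (3, 1)] (.add (.mul (.g 0) (.pp [(1, 1)])) (.add (.mul (.g 2) (.pp [(1, 1)]))
 (.mul (.g 5) (.pp [(1, 3)])))) (.rule 1 (.cut 3 [(2, 1), (5, -1)] (.add (.add (.mul (.g 3) (.pp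
 [(1, 1)])) (.mul (.g 1) (.pp [(1, 1)]))) (.add (.mul (.g 2) (.pp [(1, 1)])) (.mul (.g 8) (.pp [(1,
 3)])))) (.rule 2 (.rule 9 (.cut 1 [(1, -2), (2, -1), (3, 2), (5, 1)] (.add (.mul (.g 10) (.pp [(1,
 1)])) (.add (.mul (.g 5) (.pp [(1, 1)])) (.mul (.g 8) (.pp [(1, 1)])))) (.cut 1 [(1, -1), (2, -2),
 (3, 2), (5, 2)] (.add (.mul (.g 11) (.pp [(1, 1)])) (.add (.mul (.g 9) (.pp [(1, 1)])) (.mul (.g
 0) (.pp [(1, 1)])))) (.rule 10 (.leaf 180000000 (.add (.add (.add (.add (.mul (.g 11) (.add (.add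
 (.add (.mul (.g 11) (.add (.add (.mul (.pp [(1, 19250460)]) (.sq [(1, 30), (2, 37), (3, -29), (5,
 100)])) (.add (.mul (.g 10) (.add (.mul (.g 16) (.pp [(1, 13134060000)])) (.mul (.g 17) (.pp [(1,
 573563700000)])))) (.mul (.g 12) (.pp [(1, 33829200000)])))) (.add (.mul (.g 15) (.mul (.g 18)
 (.pp [(1, 711000000)]))) (.add (.mul (.g 16) (.mul (.g 16) (.pp [(1, 98091000)]))) (.mul (.g 17)
 (.mul (.g 17) (.pp [(1, 55047150000)]))))))) (.mul (.g 12) (.add (.pp [(1, 706800600000)]) (.add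
 (.mul (.g 17) (.add (.mul (.g 10) (.pp [(1, 482082300000)])) (.add (.mul (.g 15) (.pp [(1,
 19759500000)])) (.mul (.g 17) (.pp [(1, 237267900000)]))))) (.mul (.g 16) (.add (.mul (.g 8) (.pp
 [(1, 6560010000)])) (.mul (.g 9) (.pp [(1, 54130950000)])))))))) (.add (.mul (.g 20) (.add (.add
 (.mul (.pp [(1, 3220380)]) (.sq [(1, 94), (2, 100), (3, 100), (5, 73), (7, 73)])) (.mul (.pp [(1,
 6859800)]) (.sq [(1, 67), (2, 38), (3, -77), (5, 100), (7, 1)]))) (.add (.mul (.g 9) (.mul (.g 10)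
 (.pp [(1, 148239000000)]))) (.mul (.g 20) (.mul (.g 20) (.pp [(1, 11185200000)])))))) (.mul (.g
 13) (.add (.pp [(1, 84231000000)]) (.add (.mul (.pp [(1, 19382040)]) (.sq [(1, -34), (2, 19), (3,
 100), (5, -53), (7, 71)])) (.mul (.g 9) (.mul (.g 9) (.pp [(1, 70981200000)])))))))) (.add (.add
 (.mul (.g 8) (.add (.pp [(1, 894894000000)]) (.mul (.g 9) (.mul (.g 10) (.pp [(1,
 343492200000)]))))) (.mul (.g 10) (.pp [(1, 274534200000)]))) (.add (.mul (.g 14) (.mul (.pp [(1,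
 18803700)]) (.sq [(1, 17), (2, -17), (3, 65), (5, -100), (7, -42)]))) (.mul (.g 18) (.mul (.pp
 [(1, 10921500)]) (.sq [(1, 7), (2, -85), (3, -8), (5, 93), (7, -100)]))))))) (.add (.mul (.g 20)
 (.add (.add (.add (.pp [(1, 107465400000)]) (.mul (.g 12) (.add (.add (.pp [(1, 215301600000)])
 (.mul (.pp [(1, 10236600000)]) (.sq [(1, 1), (2, 1), (3, 1), (5, 1), (7, 1)]))) (.add (.mul (.g
 20) (.add (.mul (.g 9) (.pp [(1, 192220200000)])) (.mul (.g 15) (.pp [(1, 67402800000)])))) (.mul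
 (.g 12) (.mul (.g 12) (.pp [(1, 8249400000)]))))))) (.add (.mul (.g 9) (.add (.mul (.pp [(1,
 2669760)]) (.sq [(1, 68), (2, 91), (3, 100), (5, 93), (7, 66)])) (.mul (.g 10) (.add (.mul (.g 10)
 (.pp [(1, 124419600000)])) (.mul (.g 15) (.pp [(1, 122018400000)])))))) (.mul (.g 10) (.mul (.pp
 [(1, 563760)]) (.sq [(1, -32), (2, -6), (3, -50), (5, 19), (7, 48)]))))) (.add (.add (.mul (.g 16)
 (.mul (.pp [(1, 486198)]) (.sq [(1, -5), (2, 55), (3, 6), (5, -14), (7, 100)]))) (.mul (.g 17)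
 (.pp [(1, 19910700000)]))) (.add (.mul (.g 18) (.mul (.pp [(1, 5823900)]) (.sq [(1, -51), (2, 5),
 (3, -33), (5, 11), (7, 100)]))) (.mul (.g 20) (.mul (.pp [(1, 5531400000)]) (.sq [(2, 1), (3,
 -1)]))))))) (.mul (.g 8) (.add (.add (.mul (.g 10) (.add (.mul (.g 10) (.add (.mul (.g 9) (.pp
 [(1, 54117000000)])) (.mul (.g 17) (.pp [(1, 47354700000)])))) (.mul (.g 13) (.mul (.g 14) (.pp
 [(1, 17871000000)]))))) (.add (.mul (.g 8) (.add (.pp [(1, 455596400000)]) (.mul (.g 15) (.mul (.g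
 15) (.pp [(1, 23525400000)]))))) (.mul (.g 12) (.add (.pp [(1, 87357000000)]) (.mul (.pp [(1,
 1577160)]) (.sq [(1, 38), (2, -43), (3, -38), (5, 100), (7, -34)])))))) (.add (.mul (.g 13) (.add
 (.pp [(1, 1164771000000)]) (.mul (.pp [(1, 227040)]) (.sq [(1, 20), (2, 100), (3, 14), (5, 22),
 (7, -17)])))) (.add (.mul (.g 9) (.mul (.pp [(1, 7568400)]) (.sq [(1, 22), (2, -29), (3, -100),
 (5, 85), (7, -71)]))) (.mul (.g 16) (.pp [(1, 23259750000)])))))))) (.add (.mul (.g 13) (.add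
 (.add (.mul (.g 10) (.add (.pp [(1, 931316400000)]) (.mul (.g 10) (.add (.pp [(1, 139590000000)])
 (.add (.mul (.g 9) (.pp [(1, 155667600000)])) (.mul (.g 10) (.pp [(1, 221932800000)]))))))) (.mul
 (.g 12) (.mul (.g 12) (.mul (.g 12) (.pp [(1, 92844000000)]))))) (.add (.mul (.g 14) (.mul (.pp
 [(1, 27640080)]) (.sq [(1, -52), (2, -3), (3, -5), (5, 100), (7, -70)]))) (.add (.mul (.g 16) (.pp
 [(1, 51470370000)])) (.mul (.g 18) (.mul (.pp [(1, 10367640)]) (.sq [(1, 12), (2, 4), (3, -87),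
 (5, 100), (7, -45)]))))))) (.add (.mul (.g 16) (.add (.add (.mul (.g 10) (.add (.mul (.pp [(1,
 123264)]) (.sq [(1, 2), (2, -25), (3, -15), (5, 100), (7, -63)])) (.add (.mul (.g 12) (.pp [(1,
 842760000)])) (.mul (.g 14) (.pp [(1, 36567450000)]))))) (.mul (.g 9) (.mul (.pp [(1, 118233)])
 (.sq [(1, 47), (2, 41), (3, 67), (5, -100), (7, 89)])))) (.add (.mul (.g 12) (.mul (.pp [(1,
 485649)]) (.sq [(1, 31), (2, -10), (3, -22), (5, 44), (7, 100)]))) (.mul (.g 16) (.pp [(1,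
 2648583000)]))))) (.mul (.g 12) (.add (.mul (.g 12) (.mul (.g 12) (.add (.mul (.g 12) (.pp [(1,
 18466200000)])) (.mul (.g 18) (.pp [(1, 9054000000)]))))) (.mul (.g 17) (.mul (.g 17) (.mul (.g
 17) (.pp [(1, 5788125000)]))))))))) (.add (.add (.mul (.g 9) (.add (.mul (.g 14) (.mul (.pp [(1,
 10881900)]) (.sq [(1, 14), (2, 14), (3, 29), (5, 100), (7, -77)]))) (.mul (.g 17) (.mul (.g 17)
 (.pp [(1, 157335750000)]))))) (.add (.mul (.g 0) (.pp [(1, 600000000000)])) (.mul (.g 3) (.pp [(1,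
 1800000000)])))) (.add (.add (.mul (.g 4) (.pp [(1, 600000000000)])) (.mul (.g 6) (.pp [(1,
 600000000000)]))) (.add (.mul (.g 14) (.mul (.g 14) (.mul (.pp [(1, 207360)]) (.sq [(1, -23), (2,
 100), (3, 13), (5, 20), (7, -8)])))) (.mul (.g 19) (.pp [(1, 1200000000)])))))) (.pp [(1,
 27499133850), (2, 18253773), (3, 17460444), (4, 18524628), (5, 20930310), (6, 15509646), (7,
 17611191), (8, 15637857), (9, 18253732), (10, 15152580), (12, 16722978), (14, 16039242), (15,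
 18653604), (16, 17301780), (18, 19958613), (20, 19590750), (21, 17393724), (24, 19137300), (25,
 17336232), (27, 18160860), (28, 17411796), (30, 21549360), (35, 16697268), (36, 17635920), (40,
 20428920), (42, 12972342), (45, 18356328), (49, 16103520), (50, 18432720), (54, 17263680), (56,
 18876240), (60, 17558220), (63, 17025432), (70, 20139840), (75, 17386836), (81, 18068160), (84,
 17569740), (90, 17139060), (98, 17774397), (100, 17883360), (105, 20058240), (125, 20705508),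
 (126, 21647400), (135, 17783280), (140, 17719920), (147, 20365944), (150, 20564880), (175,
 19069524), (189, 17645940), (196, 19644840), (210, 21955800), (225, 16131480), (245, 22077540),
 (250, 17762040), (294, 20681520), (315, 18577800), (343, 18380880), (350, 19648080), (375,
 16507440), (441, 18545760), (490, 18773280), (525, 18611460), (625, 16407180), (686, 19474560),
 (735, 17736480), (875, 15214140), (1029, 17709120), (1225, 17578620), (1715, 19664820), (2401,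
 19800000)])))))))))))
 (.cut 1 [(2, -1), (3, 1)] (.add (.mul (.g 10) (.pp [(1, 1)])) (.mul (.g 5) (.pp [(1, 1)]))) (.rule
 1 (.cut 1 [(2, 1), (5, -1)] (.add (.mul (.g 11) (.pp [(1, 1)])) (.mul (.g 1) (.pp [(1, 1)])))
 (.rule 2 (.cut 11 [(1, -69), (3, 100)] (.add (.mul (.g 1) (.pp [(1, 620)])) (.add (.mul (.g 12)
 (.pp [(1, 31)])) (.mul (.g 14) (.pp [(1, 480)])))) (.rule 8 (.rule 15 (.leaf 990000000 (.add (.add
 (.add (.add (.mul (.g 10) (.add (.add (.mul (.g 10) (.add (.add (.mul (.g 7) (.add (.mul (.g 7)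
 (.pp [(1, 193859600000)])) (.add (.mul (.g 10) (.pp [(1, 6461400000)])) (.mul (.g 12) (.pp [(1,
 28409700000)]))))) (.mul (.g 8) (.add (.mul (.g 13) (.pp [(1, 1069051500000)])) (.mul (.g 16) (.pp
 [(1, 53301600000)]))))) (.add (.mul (.g 11) (.add (.mul (.g 11) (.pp [(1, 202187700000)])) (.mul
 (.g 19) (.pp [(1, 207900000)])))) (.add (.mul (.g 12) (.mul (.g 16) (.pp [(1, 850479300000)])))
 (.mul (.g 13) (.mul (.g 13) (.pp [(1, 752400000)]))))))) (.add (.mul (.g 11) (.add (.add (.mul (.g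
 8) (.add (.mul (.g 12) (.pp [(1, 469398600000)])) (.mul (.g 19) (.pp [(1, 1357547400000)]))))
 (.mul (.g 11) (.add (.mul (.g 16) (.pp [(1, 202059000000)])) (.mul (.g 17) (.pp [(1,
 207801000000)]))))) (.add (.mul (.g 9) (.mul (.g 9) (.pp [(1, 275566500000)]))) (.add (.mul (.g
 12) (.pp [(1, 255123000000)])) (.mul (.g 19) (.pp [(1, 1297365300000)])))))) (.mul (.g 19) (.add
 (.add (.pp [(1, 53885700000)]) (.mul (.g 9) (.add (.mul (.g 9) (.pp [(1, 323601300000)])) (.mul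
 (.g 12) (.pp [(1, 253113300000)]))))) (.add (.mul (.g 8) (.mul (.g 19) (.pp [(1, 972447300000)])))
 (.mul (.g 12) (.mul (.g 13) (.pp [(1, 445203000000)])))))))) (.add (.mul (.g 16) (.add (.pp [(1,
 1075783500000)]) (.mul (.g 13) (.pp [(1, 1489766850000)])))) (.add (.mul (.g 9) (.mul (.g 17)
 (.mul (.g 17) (.pp [(1, 507483900000)])))) (.mul (.g 12) (.mul (.pp [(1, 32164110)]) (.sq [(1,
 11), (2, 15), (3, 100), (5, -89), (7, -25)]))))))) (.mul (.g 19) (.add (.add (.mul (.g 11) (.add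
 (.add (.pp [(1, 15176700000)]) (.add (.mul (.pp [(1, 11880)]) (.sq [(1, 17), (2, 19), (3, 87), (5,
 45), (7, -100)])) (.mul (.g 7) (.mul (.g 11) (.pp [(1, 415800000)]))))) (.add (.mul (.g 8) (.pp
 [(1, 2292820200000)])) (.add (.mul (.g 14) (.mul (.g 17) (.pp [(1, 5781600000)]))) (.mul (.g 19)
 (.pp [(1, 740341800000)])))))) (.mul (.g 9) (.add (.pp [(1, 194554800000)]) (.add (.mul (.g 8)
 (.add (.mul (.g 8) (.pp [(1, 2484286200000)])) (.add (.mul (.g 12) (.pp [(1, 2557952100000)]))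
 (.mul (.g 13) (.pp [(1, 73953000000)]))))) (.mul (.g 9) (.mul (.g 9) (.pp [(1,
 34828200000)]))))))) (.add (.mul (.g 14) (.add (.pp [(1, 198485100000)]) (.add (.mul (.pp [(1,
 35640)]) (.sq [(1, 49), (2, 100), (3, 44), (5, 44), (7, 51)])) (.mul (.pp [(1, 47520)]) (.sq [(1,
 100), (2, -68), (3, 76), (5, 75), (7, 72)]))))) (.add (.mul (.g 17) (.add (.pp [(1,
 288792900000)]) (.mul (.pp [(1, 202950)]) (.sq [(1, -59), (2, -4), (3, 100), (5, -85), (7,
 -60)])))) (.mul (.g 19) (.mul (.pp [(1, 46530)]) (.sq [(1, 5), (2, -11), (3, -35), (5, 100), (7,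
 22)])))))))) (.add (.mul (.g 15) (.add (.add (.mul (.g 9) (.add (.add (.mul (.pp [(1, 80685)])
 (.sq [(1, 5), (2, -63), (3, 100), (5, 1), (7, 34)])) (.mul (.g 8) (.mul (.g 11) (.pp [(1,
 1051875000)])))) (.add (.mul (.g 9) (.mul (.g 9) (.pp [(1, 22375485000)]))) (.mul (.g 17) (.pp
 [(1, 306699030000)]))))) (.mul (.g 11) (.add (.pp [(1, 32948685000)]) (.add (.mul (.g 8) (.pp [(1,
 129035115000)])) (.mul (.g 16) (.pp [(1, 1326600000)])))))) (.add (.mul (.g 13) (.add (.mul (.g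
 13) (.add (.pp [(1, 59855400000)]) (.mul (.g 13) (.pp [(1, 49005000)])))) (.mul (.g 16) (.pp [(1,
 37836315000)])))) (.add (.mul (.g 12) (.add (.pp [(1, 175305240000)]) (.mul (.pp [(1, 17622)])
 (.sq [(1, -3), (2, 50), (3, 12), (5, 100), (7, 2)])))) (.mul (.g 17) (.add (.pp [(1,
 207436185000)]) (.mul (.pp [(1, 408375)]) (.sq [(1, 53), (2, -17), (3, 100), (5, 47), (7,
 16)])))))))) (.add (.mul (.g 12) (.add (.add (.mul (.g 8) (.add (.mul (.g 12) (.add (.pp [(1,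
 838797300000)]) (.mul (.g 9) (.pp [(1, 1888524000000)])))) (.add (.mul (.g 8) (.mul (.g 17) (.pp
 [(1, 1873842300000)]))) (.mul (.g 11) (.mul (.g 13) (.pp [(1, 742500000)])))))) (.mul (.g 9) (.add
 (.pp [(1, 2690156700000)]) (.add (.mul (.pp [(1, 21494880)]) (.sq [(1, 51), (2, -21), (3, 100),
 (5, 100), (7, 11)])) (.mul (.g 9) (.mul (.g 14) (.pp [(1, 434283300000)]))))))) (.add (.mul (.g
 11) (.mul (.g 11) (.mul (.g 11) (.pp [(1, 455400000)])))) (.add (.mul (.g 12) (.pp [(1,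
 1553220900000)])) (.mul (.g 17) (.pp [(1, 5798736900000)])))))) (.mul (.g 7) (.add (.mul (.g 7)
 (.add (.pp [(1, 480840800000)]) (.mul (.g 8) (.mul (.g 8) (.pp [(1, 29744000000)]))))) (.add (.mul
 (.g 9) (.mul (.g 13) (.mul (.g 16) (.pp [(1, 74900100000)])))) (.mul (.g 14) (.mul (.g 14) (.mul
 (.g 17) (.pp [(1, 197320200000)])))))))))) (.add (.add (.mul (.g 0) (.pp [(1, 300000000000)]))
 (.mul (.g 1) (.pp [(1, 990000000)]))) (.add (.mul (.g 3) (.pp [(1, 3300000000000)])) (.add (.mul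
 (.g 5) (.pp [(1, 3300000000000)])) (.mul (.g 18) (.pp [(1, 6600000000)])))))) (.pp [(1,
 2545444707), (2, 115110768), (3, 88501014), (4, 101544135), (5, 82675590), (6, 94889256), (7,
 100499454), (8, 108406980), (9, 92844862), (10, 93285060), (12, 78203400), (14, 103730616), (15,
 117924510), (16, 99000000), (18, 115897848), (20, 79929630), (21, 98390754), (24, 100496880), (25,
 98986965), (27, 98794080), (28, 101354220), (30, 122185800), (35, 84247020), (36, 88477840), (40,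
 97092270), (42, 93507876), (45, 90765180), (49, 86987142), (50, 95586480), (54, 104871360), (56,
 95879520), (60, 100346400), (63, 110272140), (70, 87662520), (75, 89410530), (81, 99000000), (84,
 105739920), (90, 93989280), (98, 93801708), (100, 92500650), (105, 100940400), (125, 108034080),
 (126, 97154640), (135, 99934560), (140, 101550240), (147, 98798040), (150, 105055500), (175,
 125865630), (189, 92014560), (196, 99036630), (210, 86450760), (225, 106890190), (245, 130271130),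
 (250, 105210270), (294, 96071580), (315, 107171460), (343, 115192440), (350, 92305620), (375,
 102827670), (441, 102814470), (490, 94656870), (525, 109653390), (625, 98699040), (686, 93733200),
 (735, 99946440), (875, 106092360), (1029, 103007520), (1225, 111264120), (1715, 101150280), (2401,
 96279480)])))))))))))
 (P_c3 ++ xP_A_F8) = true := by decide +kernel

theorem t_A_F8_free : chk RFp gP_A_F8
 (.split [(2, 1), (3, -1)]
 (.rule 0 (.rule 6 (.leaf 3000000 (.add (.add (.add (.add (.mul (.g 6) (.add (.add (.mul (.g 5)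
 (.add (.add (.mul (.g 2) (.add (.add (.mul (.g 4) (.pp [(1, 2790000)])) (.mul (.g 5) (.pp [(1,
 5056740000)]))) (.add (.mul (.g 6) (.pp [(1, 4356750000)])) (.mul (.g 12) (.pp [(1,
 4355370000)]))))) (.add (.mul (.g 3) (.add (.mul (.g 5) (.pp [(1, 2129700000)])) (.add (.mul (.g
 9) (.pp [(1, 116520000)])) (.mul (.g 12) (.pp [(1, 115710000)]))))) (.mul (.g 4) (.add (.pp [(1,
 3268920000)]) (.mul (.g 7) (.pp [(1, 107550000)])))))) (.add (.mul (.g 5) (.add (.mul (.g 7) (.pp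
 [(1, 2187960000)])) (.mul (.g 10) (.pp [(1, 15000)])))) (.add (.mul (.g 6) (.mul (.g 10) (.pp [(1,
 15000)]))) (.mul (.g 12) (.pp [(1, 4811910000)])))))) (.mul (.g 4) (.add (.add (.mul (.pp [(1,
 393)]) (.sq [(1, -13), (2, 73), (3, 100), (5, -17), (7, -21)])) (.mul (.g 9) (.add (.pp [(1,
 168300000)]) (.add (.mul (.g 3) (.pp [(1, 106260000)])) (.mul (.g 6) (.pp [(1, 1350000)]))))))
 (.add (.mul (.g 4) (.mul (.g 4) (.pp [(1, 39450000)]))) (.mul (.g 6) (.mul (.g 12) (.pp [(1,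
 480000)]))))))) (.add (.mul (.g 12) (.add (.add (.pp [(1, 85830000)]) (.mul (.g 3) (.add (.pp [(1,
 6238590000)]) (.mul (.g 12) (.pp [(1, 55740000)]))))) (.add (.mul (.g 6) (.mul (.g 6) (.pp [(1,
 300000)]))) (.mul (.g 12) (.pp [(1, 2251110000)]))))) (.add (.mul (.g 9) (.add (.pp [(1,
 194850000)]) (.mul (.g 3) (.add (.pp [(1, 417810000)]) (.mul (.g 6) (.pp [(1, 2250000)]))))))
 (.mul (.g 7) (.add (.mul (.g 2) (.mul (.g 10) (.pp [(1, 5616000)]))) (.mul (.g 6) (.mul (.g 6)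
 (.pp [(1, 56040000)]))))))))) (.mul (.g 3) (.add (.add (.mul (.g 3) (.add (.mul (.g 7) (.add (.add
 (.mul (.g 5) (.pp [(1, 195150000)])) (.mul (.g 7) (.pp [(1, 81030000)]))) (.add (.mul (.g 9) (.pp
 [(1, 1594200000)])) (.mul (.g 12) (.pp [(1, 112020000)]))))) (.mul (.g 12) (.add (.pp [(1,
 4880250000)]) (.add (.mul (.g 4) (.pp [(1, 120750000)])) (.mul (.g 12) (.pp [(1, 1950000)])))))))
 (.add (.mul (.g 2) (.add (.mul (.g 5) (.pp [(1, 6511350000)])) (.add (.mul (.g 7) (.mul (.g 8)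
 (.pp [(1, 1700670000)]))) (.mul (.g 9) (.pp [(1, 8104650000)]))))) (.mul (.g 7) (.add (.pp [(1,
 27270000)]) (.mul (.g 7) (.mul (.g 8) (.pp [(1, 25920000)]))))))) (.add (.mul (.g 10) (.add (.mul
 (.g 5) (.pp [(1, 641721000)])) (.mul (.g 12) (.pp [(1, 59866500)])))) (.add (.mul (.g 8) (.mul (.g
 8) (.mul (.g 9) (.pp [(1, 750000)])))) (.mul (.g 12) (.pp [(1, 4082220000)]))))))) (.add (.mul (.g
 4) (.add (.add (.mul (.g 2) (.add (.add (.pp [(1, 951060000)]) (.mul (.g 2) (.add (.pp [(1,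
 9588720000)]) (.add (.mul (.g 2) (.pp [(1, 40590000)])) (.mul (.g 5) (.pp [(1, 1260000)]))))))
 (.add (.mul (.g 5) (.mul (.g 12) (.pp [(1, 5070000)]))) (.mul (.g 10) (.pp [(1, 14239500)])))))
 (.mul (.g 4) (.mul (.g 4) (.add (.mul (.g 7) (.pp [(1, 82530000)])) (.add (.mul (.g 9) (.pp [(1,
 40290000)])) (.mul (.g 12) (.pp [(1, 43680000)]))))))) (.add (.mul (.g 5) (.add (.mul (.pp [(1,
 183)]) (.sq [(1, -3), (2, -1), (3, 100), (5, -79), (7, -34)])) (.mul (.g 5) (.mul (.g 10) (.pp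
 [(1, 124500)]))))) (.add (.mul (.g 7) (.mul (.g 9) (.add (.pp [(1, 199050000)]) (.mul (.g 7) (.pp
 [(1, 1824390000)]))))) (.mul (.g 12) (.mul (.g 12) (.pp [(1, 266190000)]))))))) (.mul (.g 5) (.add
 (.mul (.g 5) (.add (.mul (.g 2) (.add (.mul (.g 5) (.pp [(1, 698910000)])) (.mul (.g 12) (.pp [(1,
 700260000)])))) (.mul (.g 5) (.mul (.g 8) (.pp [(1, 300000)]))))) (.add (.mul (.g 7) (.add (.pp
 [(1, 7950000)]) (.mul (.g 9) (.pp [(1, 45090000)])))) (.mul (.g 12) (.mul (.g 12) (.pp [(1,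
 166530000)])))))))) (.add (.add (.mul (.g 2) (.add (.mul (.g 7) (.pp [(1, 145950000)])) (.mul (.g
 9) (.pp [(1, 1224420000)])))) (.mul (.g 12) (.add (.mul (.pp [(1, 144576)]) (.sq [(2, 100), (3,
 44), (5, -34), (7, 21)])) (.mul (.g 10) (.pp [(1, 6027000)]))))) (.add (.mul (.g 0) (.pp [(1,
 10000000000)])) (.add (.mul (.g 1) (.pp [(1, 10000000000)])) (.mul (.g 11) (.pp [(1,
 10000000000)])))))) (.pp [(1, 11757000), (2, 301500), (3, 300000), (4, 300000), (5, 303000), (6,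
 335700), (7, 303000), (8, 350000), (9, 296364), (10, 306300), (12, 240000), (14, 315300), (15,
 299745), (16, 270000), (18, 330000), (20, 230000), (21, 291135), (24, 330000), (25, 300144), (27,
 280000), (28, 294000), (30, 327702), (35, 264528), (36, 300000), (40, 330000), (42, 270714), (45,
 288936), (49, 291984), (50, 303200), (54, 300000), (56, 300000), (60, 269817), (63, 300936), (70,
 272400), (75, 291366), (81, 300000), (84, 275703), (90, 306600), (98, 289200), (100, 300000),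
 (105, 294018), (125, 299856), (126, 322200), (135, 300000), (140, 300000), (147, 291870), (150,
 301086), (175, 320328), (189, 300000), (196, 300000), (210, 332982), (225, 311400), (245, 328488),
 (250, 300000), (294, 304938), (315, 300600), (343, 308016), (350, 300000), (375, 297897), (441,
 300600), (490, 300000), (525, 313347), (625, 300000), (686, 300000), (735, 317850), (875, 300000),
 (1029, 306687), (1225, 300000), (1715, 300000), (2401, 300000)])))))
 (.split [(2, 1), (5, -1)]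
 (.rule 1 (.rule 2 (.leaf 3000000 (.add (.add (.add (.add (.mul (.pp [(1, 7692)]) (.sq [(1, 18),
 (2, 100), (3, -3), (5, 4), (7, -98)])) (.add (.mul (.g 13) (.add (.add (.pp [(1, 28110000)]) (.add
 (.mul (.g 7) (.add (.add (.pp [(1, 124560000)]) (.add (.mul (.g 5) (.add (.pp [(1, 90000)]) (.add
 (.mul (.g 7) (.pp [(1, 1710000)])) (.mul (.g 11) (.pp [(1, 223500)]))))) (.mul (.g 4) (.add (.pp
 [(1, 7384440000)]) (.mul (.g 4) (.pp [(1, 10080000)])))))) (.add (.mul (.g 6) (.add (.pp [(1,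
 5128620000)]) (.mul (.g 10) (.pp [(1, 2970000)])))) (.add (.mul (.g 7) (.add (.mul (.g 7) (.pp
 [(1, 150000)])) (.mul (.g 11) (.pp [(1, 100500)])))) (.mul (.g 13) (.add (.pp [(1, 2242290000)])
 (.mul (.g 13) (.pp [(1, 150000)])))))))) (.mul (.g 6) (.add (.add (.mul (.g 5) (.add (.pp [(1,
 2910000)]) (.add (.mul (.g 5) (.pp [(1, 56250000)])) (.mul (.g 11) (.pp [(1, 2662500)]))))) (.mul
 (.g 6) (.add (.mul (.g 2) (.pp [(1, 53310000)])) (.add (.mul (.g 8) (.pp [(1, 2520000)])) (.mul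
 (.g 10) (.pp [(1, 54330000)])))))) (.add (.mul (.g 4) (.mul (.g 4) (.pp [(1, 6300000)]))) (.mul
 (.g 13) (.pp [(1, 644130000)]))))))) (.add (.mul (.g 2) (.add (.add (.pp [(1, 854670000)]) (.mul
 (.g 4) (.add (.pp [(1, 6551220000)]) (.add (.mul (.g 5) (.pp [(1, 83790000)])) (.mul (.g 13) (.pp
 [(1, 3510000)])))))) (.add (.mul (.g 2) (.pp [(1, 425940000)])) (.mul (.g 3) (.mul (.g 8) (.pp
 [(1, 25200000)])))))) (.add (.mul (.g 4) (.add (.pp [(1, 4194840000)]) (.mul (.g 5) (.mul (.g 11)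
 (.pp [(1, 97500)]))))) (.mul (.g 5) (.mul (.g 11) (.pp [(1, 211500)]))))))) (.mul (.g 6) (.add
 (.add (.mul (.g 4) (.add (.add (.mul (.g 4) (.add (.mul (.g 4) (.pp [(1, 402390000)])) (.add (.mul
 (.g 6) (.pp [(1, 66060000)])) (.mul (.g 9) (.pp [(1, 215610000)]))))) (.mul (.g 5) (.add (.mul (.g
 6) (.pp [(1, 1620000)])) (.mul (.g 11) (.pp [(1, 141000)]))))) (.add (.mul (.g 2) (.pp [(1,
 3794760000)])) (.mul (.g 11) (.pp [(1, 1471060500)]))))) (.mul (.g 6) (.add (.mul (.pp [(1, 105)])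
 (.sq [(1, 55), (2, -11), (3, -36), (5, 84), (7, 100)])) (.add (.mul (.g 7) (.add (.pp [(1,
 2018550000)]) (.add (.mul (.g 6) (.pp [(1, 2100000)])) (.mul (.g 8) (.pp [(1, 990000)]))))) (.mul
 (.g 6) (.pp [(1, 7886520000)])))))) (.add (.mul (.g 11) (.add (.pp [(1, 13539000)]) (.mul (.g 5)
 (.mul (.g 9) (.pp [(1, 72000)]))))) (.add (.mul (.g 2) (.mul (.g 2) (.pp [(1, 1896810000)])))
 (.mul (.g 3) (.mul (.g 8) (.mul (.g 8) (.pp [(1, 283440000)])))))))))) (.add (.mul (.g 8) (.add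
 (.add (.mul (.g 11) (.add (.mul (.g 7) (.add (.pp [(1, 507000)]) (.add (.mul (.g 3) (.pp [(1,
 27000)])) (.mul (.g 4) (.pp [(1, 2451000)]))))) (.mul (.g 2) (.mul (.g 8) (.pp [(1, 2100000)])))))
 (.mul (.g 2) (.mul (.g 2) (.add (.pp [(1, 123420000)]) (.mul (.g 5) (.pp [(1, 4920000)]))))))
 (.add (.mul (.g 8) (.add (.mul (.pp [(1, 11760)]) (.sq [(1, -52), (2, 100), (3, 27), (5, -84), (7,
 27)])) (.mul (.g 8) (.mul (.g 10) (.pp [(1, 22410000)]))))) (.add (.mul (.g 4) (.mul (.g 4) (.mul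
 (.g 4) (.pp [(1, 186270000)])))) (.mul (.g 10) (.mul (.pp [(1, 1206)]) (.sq [(1, -100), (2, 65),
 (3, 44), (5, -11), (7, 55)]))))))) (.add (.mul (.g 3) (.add (.mul (.g 11) (.add (.mul (.g 7) (.add
 (.pp [(1, 564000)]) (.add (.mul (.g 5) (.pp [(1, 61500)])) (.mul (.g 7) (.pp [(1, 151500)])))))
 (.mul (.g 5) (.mul (.g 10) (.pp [(1, 15000)]))))) (.mul (.g 2) (.add (.mul (.g 2) (.pp [(1,
 60000)])) (.mul (.g 3) (.mul (.g 3) (.pp [(1, 1140000)]))))))) (.mul (.g 9) (.add (.mul (.pp [(1,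
 45)]) (.sq [(1, 26), (2, 100), (3, -10), (5, 5), (7, -87)])) (.add (.mul (.pp [(1, 276)]) (.sq
 [(1, 9), (2, 21), (3, 100), (5, 72), (7, -89)])) (.mul (.g 7) (.mul (.pp [(1, 171)]) (.sq [(1,
 -17), (2, -85), (3, -9), (5, -2), (7, 100)]))))))))) (.add (.add (.mul (.g 0) (.pp [(1,
 10000000000)])) (.add (.mul (.g 1) (.pp [(1, 10000000000)])) (.mul (.g 2) (.mul (.g 2) (.pp [(1,
 19410000)]))))) (.add (.add (.mul (.g 4) (.mul (.pp [(1, 44826)]) (.sq [(1, 37), (2, 97), (3, -7),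
 (5, 11), (7, -100)]))) (.mul (.g 5) (.mul (.g 7) (.mul (.pp [(1, 111)]) (.sq [(1, -29), (2, -39),
 (3, -93), (5, 25), (7, 100)]))))) (.add (.mul (.g 11) (.mul (.g 11) (.pp [(1, 9000)]))) (.mul (.g
 12) (.pp [(1, 10000000000)])))))) (.pp [(1, 2816976), (2, 272982), (3, 298692), (4, 333888), (5,
 309372), (6, 330336), (7, 302769), (8, 277800), (9, 309432), (10, 202764), (12, 259074), (14,
 331251), (15, 313464), (16, 304650), (18, 298002), (20, 330918), (21, 312534), (24, 303030), (25,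
 345030), (27, 294684), (28, 284403), (30, 320160), (35, 308313), (36, 310464), (40, 297930), (42,
 306864), (45, 289992), (49, 293091), (50, 321645), (54, 294816), (56, 317625), (60, 314508), (63,
 274701), (70, 318420), (75, 309591), (81, 300000), (84, 274794), (90, 297408), (98, 289329), (100,
 278229), (105, 294102), (125, 295783), (126, 329625), (135, 300000), (140, 282855), (147, 286851),
 (150, 305358), (175, 308838), (189, 283812), (196, 285810), (210, 317844), (225, 283920), (245,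
 290151), (250, 309966), (294, 324750), (315, 296157), (343, 304500), (350, 329196), (375, 275040),
 (441, 316800), (490, 329550), (525, 273465), (625, 279120), (686, 300000), (735, 298800), (875,
 276684), (1029, 300000), (1225, 291600), (1715, 300000), (2401, 300000)])))))
 (.rule 1 (.rule 3 (.leaf 3000000 (.add (.add (.add (.add (.mul (.g 5) (.add (.add (.mul (.g 5)
 (.add (.add (.mul (.g 7) (.add (.add (.pp [(1, 43110000)]) (.mul (.g 4) (.pp [(1, 341820000)])))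
 (.add (.mul (.g 6) (.pp [(1, 300000)])) (.add (.mul (.g 9) (.pp [(1, 750000)])) (.mul (.g 13) (.pp
 [(1, 300000)])))))) (.mul (.g 5) (.add (.mul (.g 2) (.pp [(1, 900000)])) (.add (.mul (.g 6) (.pp
 [(1, 113730000)])) (.mul (.g 11) (.pp [(1, 15000)])))))) (.add (.mul (.g 13) (.add (.pp [(1,
 51450000)]) (.add (.mul (.g 4) (.pp [(1, 342720000)])) (.mul (.g 11) (.pp [(1, 22500)]))))) (.mul
 (.g 3) (.mul (.g 4) (.pp [(1, 300000)])))))) (.add (.mul (.g 6) (.add (.add (.mul (.g 13) (.add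
 (.pp [(1, 264960000)]) (.add (.mul (.g 7) (.pp [(1, 225690000)])) (.mul (.g 13) (.pp [(1,
 112410000)]))))) (.mul (.g 3) (.add (.mul (.g 6) (.pp [(1, 227040000)])) (.mul (.g 11) (.pp [(1,
 5754000)]))))) (.add (.mul (.g 2) (.mul (.g 11) (.pp [(1, 5635500)]))) (.mul (.g 7) (.mul (.g 7)
 (.pp [(1, 112710000)])))))) (.mul (.g 4) (.add (.add (.mul (.g 7) (.add (.mul (.g 3) (.pp [(1,
 300000)])) (.mul (.g 13) (.pp [(1, 300000)])))) (.mul (.g 4) (.mul (.g 4) (.pp [(1,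
 113430000)])))) (.add (.mul (.g 11) (.pp [(1, 54391500)])) (.mul (.g 13) (.pp [(1,
 7230060000)]))))))) (.add (.mul (.g 2) (.mul (.g 2) (.add (.pp [(1, 286920000)]) (.mul (.g 8) (.pp
 [(1, 113730000)]))))) (.add (.mul (.g 11) (.pp [(1, 2598000)])) (.mul (.g 13) (.mul (.g 13) (.pp
 [(1, 39150000)]))))))) (.mul (.g 7) (.add (.add (.mul (.pp [(1, 13611)]) (.sq [(3, 23), (5, 100),
 (7, -63)])) (.add (.mul (.g 13) (.add (.add (.pp [(1, 170400000)]) (.add (.mul (.g 4) (.add (.pp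
 [(1, 6957900000)]) (.mul (.g 7) (.pp [(1, 600000)])))) (.mul (.g 2) (.mul (.g 2) (.pp [(1,
 300000)]))))) (.add (.mul (.g 6) (.pp [(1, 4207290000)])) (.add (.mul (.g 7) (.mul (.g 7) (.pp
 [(1, 300000)]))) (.mul (.g 13) (.pp [(1, 2189250000)])))))) (.mul (.g 2) (.add (.pp [(1,
 230400000)]) (.add (.mul (.g 4) (.add (.mul (.g 4) (.pp [(1, 766140000)])) (.mul (.g 8) (.pp [(1,
 766140000)])))) (.mul (.g 6) (.pp [(1, 914520000)]))))))) (.add (.mul (.g 6) (.add (.mul (.g 6)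
 (.pp [(1, 843330000)])) (.add (.mul (.g 7) (.mul (.g 7) (.pp [(1, 300000)]))) (.mul (.g 10) (.pp
 [(1, 123900000)]))))) (.add (.mul (.g 3) (.pp [(1, 16260000)])) (.mul (.g 7) (.mul (.g 7) (.mul
 (.g 11) (.pp [(1, 15000)]))))))))) (.add (.mul (.g 4) (.add (.add (.mul (.g 6) (.add (.mul (.g 6)
 (.add (.mul (.g 8) (.pp [(1, 300000)])) (.mul (.g 13) (.pp [(1, 300000)])))) (.add (.mul (.g 2)
 (.pp [(1, 20774430000)])) (.mul (.g 11) (.pp [(1, 1400404500)]))))) (.add (.mul (.g 4) (.mul (.g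
 4) (.add (.pp [(1, 9252480000)]) (.add (.mul (.g 8) (.pp [(1, 300000)])) (.mul (.g 13) (.pp [(1,
 300000)])))))) (.mul (.g 11) (.add (.pp [(1, 27118500)]) (.mul (.g 13) (.pp [(1, 361473000)]))))))
 (.add (.mul (.g 2) (.mul (.g 2) (.pp [(1, 2250000)]))) (.add (.mul (.g 3) (.mul (.g 3) (.pp [(1,
 744390000)]))) (.mul (.g 13) (.pp [(1, 1380540000)])))))) (.add (.mul (.g 6) (.add (.mul (.g 11)
 (.add (.pp [(1, 15495000)]) (.mul (.g 6) (.mul (.g 6) (.pp [(1, 15000)]))))) (.mul (.g 13) (.add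
 (.mul (.g 3) (.mul (.g 13) (.pp [(1, 300000)]))) (.mul (.g 10) (.pp [(1, 420000)])))))) (.mul (.g
 11) (.add (.pp [(1, 54000)]) (.mul (.g 13) (.pp [(1, 3087000)]))))))) (.add (.add (.mul (.g 0)
 (.pp [(1, 10000000000)])) (.mul (.g 1) (.pp [(1, 10000000000)]))) (.add (.mul (.g 2) (.mul (.g 2)
 (.pp [(1, 222870000)]))) (.add (.mul (.g 12) (.pp [(1, 10000000000)])) (.mul (.g 13) (.mul (.g 13)
 (.pp [(1, 24570000)]))))))) (.pp [(1, 13161000), (2, 316500), (3, 288000), (4, 300000), (5,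
 288000), (6, 286500), (7, 273000), (8, 280000), (9, 307500), (10, 286500), (12, 300000), (14,
 297000), (15, 330000), (16, 300000), (18, 270000), (20, 300000), (21, 300000), (24, 300000), (25,
 300000), (27, 315000), (28, 300000), (30, 325500), (35, 330000), (36, 300000), (40, 300000), (42,
 300000), (45, 316500), (49, 330000), (50, 330000), (54, 300000), (56, 300000), (60, 330000), (63,
 292281), (70, 300000), (75, 280500), (81, 300000), (84, 300000), (90, 300000), (98, 300000), (100,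
 300000), (105, 299400), (125, 285000), (126, 300000), (135, 300000), (140, 300000), (147, 294678),
 (150, 270000), (175, 300000), (189, 300000), (196, 300000), (210, 300000), (225, 300000), (245,
 288600), (250, 300000), (294, 300000), (315, 300000), (343, 292941), (350, 300000), (375, 300000),
 (441, 300000), (490, 300000), (525, 270000), (625, 300000), (686, 300000), (735, 270000), (875,
 300000), (1029, 300000), (1225, 300000), (1715, 300000), (2401, 300000)])))))))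
 (P_free ++ xP_A_F8) = true := by decide +kernel

theorem t_A_T6_Tp0_a : chk Rap gP_A_T6
 (.split [(1, -3), (3, 5)]
 (.split [(1, -17), (5, 25)]
 (.split [(2, 1), (3, -1)]
 (.split [(2, 1), (5, -1)]
 (.rule 0 (.rule 2 (.cut 1 [(1, 3), (3, -2)] (.add (.add (.mul (.g 3) (.pp [(1, 2)])) (.mul (.g 10)
 (.pp [(1, 3)]))) (.add (.mul (.g 8) (.pp [(1, 1)])) (.mul (.g 2) (.pp [(1, 1)])))) (.rule 8 (.rule
 10 (.leaf 15000000 (.add (.add (.add (.add (.add (.mul (.g 12) (.add (.add (.mul (.g 13) (.add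
 (.add (.mul (.g 5) (.add (.mul (.g 10) (.pp [(1, 8825850000)])) (.mul (.g 17) (.pp [(1,
 38908650000)])))) (.mul (.g 6) (.add (.pp [(1, 32951250000)]) (.mul (.g 13) (.pp [(1,
 2801550000)]))))) (.add (.mul (.g 9) (.add (.mul (.g 10) (.pp [(1, 46683750000)])) (.mul (.g 20)
 (.pp [(1, 2128650000)])))) (.mul (.g 15) (.add (.mul (.g 7) (.pp [(1, 272664000)])) (.mul (.g 12)
 (.pp [(1, 21458250000)]))))))) (.add (.mul (.g 8) (.add (.add (.pp [(1, 3821850000)]) (.mul (.pp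
 [(1, 4782)]) (.sq [(1, 51), (2, -100), (3, -46), (5, 22), (7, 78)]))) (.add (.mul (.g 9) (.add
 (.pp [(1, 283680000)]) (.add (.mul (.g 8) (.pp [(1, 63444000)])) (.mul (.g 9) (.pp [(1,
 3755490000)]))))) (.mul (.g 5) (.mul (.g 12) (.pp [(1, 465780000)])))))) (.mul (.g 6) (.add (.add
 (.mul (.g 6) (.add (.mul (.g 12) (.pp [(1, 857550000)])) (.mul (.g 18) (.pp [(1, 11824650000)]))))
 (.mul (.g 7) (.mul (.g 15) (.pp [(1, 269406000)])))) (.add (.mul (.g 10) (.mul (.g 17) (.pp [(1,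
 616650000)]))) (.mul (.g 20) (.pp [(1, 17168550000)]))))))) (.add (.add (.mul (.g 12) (.add (.add
 (.pp [(1, 17647650000)]) (.mul (.g 9) (.mul (.g 16) (.pp [(1, 1123230000)])))) (.add (.mul (.g 11)
 (.mul (.g 20) (.pp [(1, 183000000)]))) (.mul (.g 15) (.mul (.g 15) (.pp [(1, 198000000)]))))))
 (.mul (.g 10) (.add (.mul (.g 11) (.add (.mul (.g 15) (.pp [(1, 48600000)])) (.mul (.g 16) (.pp
 [(1, 215062500)])))) (.mul (.g 7) (.mul (.g 10) (.pp [(1, 527766000)])))))) (.add (.mul (.g 20)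
 (.add (.mul (.pp [(1, 70740)]) (.sq [(1, -27), (2, 100), (3, 20), (5, -41), (7, -66)])) (.add
 (.mul (.pp [(1, 261150)]) (.sq [(1, 100), (2, 81), (3, 81), (5, 81), (7, 81)])) (.mul (.g 9) (.mul
 (.g 9) (.pp [(1, 431250000)])))))) (.mul (.g 7) (.pp [(1, 543030000)])))))) (.mul (.g 9) (.add
 (.add (.mul (.g 9) (.add (.add (.mul (.g 9) (.add (.pp [(1, 5571600000)]) (.mul (.g 10) (.pp [(1,
 2598900000)])))) (.mul (.g 20) (.add (.mul (.g 6) (.pp [(1, 2615850000)])) (.mul (.g 10) (.pp [(1,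
 3106800000)]))))) (.add (.mul (.g 7) (.mul (.g 14) (.pp [(1, 43878000)]))) (.mul (.g 8) (.mul (.g
 18) (.pp [(1, 3103890000)])))))) (.mul (.g 20) (.add (.mul (.g 11) (.add (.pp [(1, 9265950000)])
 (.mul (.g 13) (.pp [(1, 12809550000)])))) (.mul (.g 6) (.pp [(1, 21501750000)]))))) (.add (.mul
 (.g 5) (.pp [(1, 90774450000)])) (.mul (.g 14) (.mul (.g 16) (.pp [(1, 2009647500)]))))))) (.add
 (.mul (.g 10) (.add (.add (.mul (.g 10) (.add (.mul (.g 18) (.add (.mul (.g 8) (.pp [(1,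
 73920000)])) (.add (.mul (.g 15) (.pp [(1, 663000000)])) (.mul (.g 16) (.pp [(1, 19897500)])))))
 (.mul (.g 10) (.mul (.g 20) (.pp [(1, 74400000)]))))) (.mul (.g 5) (.pp [(1, 12583500000)])))
 (.add (.mul (.g 6) (.mul (.g 6) (.pp [(1, 49588500000)]))) (.add (.mul (.g 8) (.pp [(1,
 1599090000)])) (.mul (.g 20) (.mul (.pp [(1, 43035)]) (.sq [(1, 73), (2, 100), (3, 68), (5, 69),
 (7, 69)]))))))) (.mul (.g 6) (.add (.mul (.g 6) (.add (.pp [(1, 31983750000)]) (.add (.mul (.pp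
 [(1, 18570)]) (.sq [(1, 100), (2, -67), (3, 67), (5, 33)])) (.mul (.g 15) (.pp [(1,
 4772400000)]))))) (.add (.mul (.g 15) (.add (.mul (.pp [(1, 19290)]) (.sq [(1, -63), (2, 95), (3,
 -27), (5, 100), (7, 63)])) (.mul (.g 5) (.pp [(1, 8276400000)])))) (.mul (.g 18) (.mul (.pp [(1,
 85770)]) (.sq [(1, -3), (2, -94), (3, 100), (5, -23), (7, -89)])))))))) (.add (.add (.mul (.g 11)
 (.add (.mul (.g 14) (.add (.mul (.pp [(1, 42705)]) (.sq [(1, 5), (2, 9), (3, 100), (5, -27), (7,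
 -53)])) (.mul (.pp [(1, 13290)]) (.sq [(1, -39), (2, -16), (3, 5), (5, -80), (7, 100)])))) (.add
 (.mul (.g 5) (.mul (.g 5) (.pp [(1, 49726200000)]))) (.mul (.g 20) (.mul (.pp [(1, 9195)]) (.sq
 [(1, 94), (2, 100), (3, 73), (5, 100), (7, 73)])))))) (.mul (.g 13) (.add (.mul (.g 13) (.pp [(1,
 4984500000)])) (.add (.mul (.g 14) (.mul (.pp [(1, 2550)]) (.sq [(1, 74), (2, -100), (3, -21), (5,
 -61), (7, 86)]))) (.mul (.g 18) (.mul (.pp [(1, 39165)]) (.sq [(1, 51), (2, -100), (3, -35), (5,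
 -71), (7, -73)]))))))) (.add (.mul (.g 20) (.add (.mul (.pp [(1, 1588140)]) (.sq [(2, 39), (3,
 39), (5, 50), (7, 50)])) (.add (.mul (.pp [(1, 26670)]) (.sq [(2, 100), (3, -20), (5, 97), (7,
 -76)])) (.mul (.g 20) (.mul (.pp [(1, 561120)]) (.sq [(1, -100), (2, 37), (3, 19), (5, 60), (7,
 60)])))))) (.mul (.g 8) (.add (.pp [(1, 1435020000)]) (.mul (.g 18) (.pp [(1, 1806720000)])))))))
 (.add (.add (.add (.mul (.g 0) (.pp [(1, 120000000)])) (.mul (.g 1) (.pp [(1, 15000000)]))) (.add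
 (.mul (.g 3) (.pp [(1, 50000000000)])) (.mul (.g 4) (.pp [(1, 50000000000)])))) (.add (.add (.mul
 (.g 5) (.mul (.g 5) (.mul (.pp [(1, 25560)]) (.sq [(1, 100), (2, -67), (3, 33), (5, 67)])))) (.mul
 (.g 7) (.mul (.g 7) (.pp [(1, 87903840)])))) (.add (.mul (.g 18) (.mul (.g 18) (.pp [(1,
 12825000000)]))) (.mul (.g 19) (.pp [(1, 50000000000)])))))) (.pp [(1, 3144478275), (2, 1434735),
 (3, 1372665), (4, 1707810), (5, 1501560), (6, 1433310), (7, 1310676), (8, 1712980), (9, 1587210),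
 (10, 1711380), (12, 1308000), (14, 1459230), (15, 1557405), (16, 1492680), (18, 1184385), (20,
 1235985), (21, 1890873), (24, 1487040), (25, 1622790), (27, 1632350), (28, 1656090), (30,
 1254690), (35, 1665054), (36, 1612110), (40, 1502025), (42, 1262250), (45, 1415280), (49,
 1730871), (50, 1980375), (54, 1577130), (56, 1341300), (60, 1572495), (63, 1386096), (70,
 1154520), (75, 1299315), (81, 1531200), (84, 1530810), (90, 1549965), (98, 1375815), (100,
 1382835), (105, 1092786), (125, 1476620), (126, 1626120), (135, 1499115), (140, 1421310), (147,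
 961449), (150, 1466610), (175, 1347834), (189, 1585050), (196, 1453680), (210, 1782420), (225,
 1416315), (245, 1187937), (250, 1588200), (294, 1877460), (315, 1591935), (343, 1379754), (350,
 1358310), (375, 1400295), (441, 1774575), (490, 1660230), (525, 1476615), (625, 1449105), (686,
 1669500), (735, 1627080), (875, 1531710), (1029, 1608885), (1225, 1392435), (1715, 1591335),
 (2401, 1516590)]))))))))
 (.rule 0 (.rule 3 (.cut 2 [(1, 3), (3, -2)] (.add (.mul (.g 3) (.pp [(1, 9)])) (.add (.mul (.g 10)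
 (.pp [(1, 9)])) (.mul (.g 5) (.pp [(1, 1)])))) (.rule 8 (.rule 10 (.leaf 600000000 (.add (.add
 (.add (.add (.mul (.g 8) (.add (.add (.add (.mul (.g 9) (.add (.add (.mul (.g 9) (.add (.mul (.g
 9) (.pp [(1, 77446800000)])) (.add (.mul (.g 10) (.pp [(1, 110796000000)])) (.mul (.g 20) (.pp
 [(1, 116149200000)]))))) (.mul (.g 7) (.add (.mul (.g 6) (.pp [(1, 23837520000)])) (.mul (.g 12)
 (.pp [(1, 16313136000)]))))) (.add (.mul (.g 10) (.mul (.g 18) (.pp [(1, 192799200000)]))) (.mul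
 (.g 14) (.pp [(1, 635290800000)]))))) (.mul (.g 5) (.add (.add (.mul (.pp [(1, 495600)]) (.sq [(1,
 -1), (2, -63), (3, -27), (5, 100), (7, -66)])) (.mul (.g 5) (.mul (.g 11) (.pp [(1,
 220822800000)])))) (.add (.mul (.g 12) (.mul (.g 17) (.pp [(1, 112080000000)]))) (.mul (.g 13)
 (.mul (.g 13) (.pp [(1, 87052800000)]))))))) (.add (.mul (.g 10) (.add (.mul (.g 18) (.add (.mul
 (.g 11) (.pp [(1, 127444800000)])) (.mul (.g 12) (.pp [(1, 52269600000)])))) (.mul (.g 10) (.mul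
 (.g 20) (.pp [(1, 22630800000)]))))) (.mul (.g 6) (.add (.pp [(1, 1156616400000)]) (.mul (.pp [(1,
 3925920)]) (.sq [(1, 1), (2, 77), (3, -53), (5, 100), (7, 25)])))))) (.add (.add (.mul (.g 11)
 (.add (.mul (.g 11) (.mul (.g 14) (.pp [(1, 207058800000)]))) (.mul (.g 12) (.mul (.g 13) (.pp
 [(1, 160976400000)]))))) (.mul (.g 8) (.pp [(1, 89574480000)]))) (.add (.mul (.g 16) (.mul (.pp
 [(1, 163974)]) (.sq [(1, 9), (2, -30), (3, -65), (5, -37), (7, 100)]))) (.mul (.g 18) (.pp [(1,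
 987584400000)])))))) (.add (.mul (.g 6) (.add (.add (.add (.mul (.g 10) (.add (.mul (.g 10) (.add
 (.mul (.g 14) (.pp [(1, 655050000000)])) (.mul (.g 18) (.pp [(1, 276930000000)])))) (.add (.mul
 (.g 11) (.add (.mul (.g 7) (.pp [(1, 2032800000)])) (.mul (.g 20) (.pp [(1, 1369182000000)]))))
 (.mul (.g 6) (.mul (.g 18) (.pp [(1, 1973724000000)])))))) (.mul (.g 12) (.add (.add (.pp [(1,
 868086000000)]) (.mul (.g 7) (.add (.mul (.g 9) (.pp [(1, 75453840000)])) (.mul (.g 12) (.pp [(1,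
 12502080000)]))))) (.add (.mul (.g 5) (.pp [(1, 2567862000000)])) (.mul (.g 11) (.mul (.g 20) (.pp
 [(1, 1878000000000)]))))))) (.add (.mul (.g 18) (.add (.pp [(1, 4093938000000)]) (.mul (.pp [(1,
 23144400)]) (.sq [(1, 16), (2, -67), (3, 35), (5, -42), (7, 100)])))) (.mul (.g 5) (.mul (.pp [(1,
 30357600)]) (.sq [(1, -6), (2, -39), (3, -15), (5, 50), (7, 31)]))))) (.add (.add (.mul (.g 6)
 (.pp [(1, 5275398000000)])) (.mul (.g 9) (.pp [(1, 339996000000)]))) (.add (.mul (.g 15) (.mul (.g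
 17) (.mul (.g 17) (.pp [(1, 726996000000)])))) (.mul (.g 20) (.mul (.pp [(1, 121467000)]) (.sq
 [(1, 10), (2, 58), (3, -19), (5, 100), (7, -46)]))))))) (.mul (.g 18) (.add (.add (.mul (.g 12)
 (.add (.mul (.g 12) (.add (.mul (.g 10) (.pp [(1, 1101642000000)])) (.add (.mul (.g 17) (.pp [(1,
 486546000000)])) (.mul (.g 20) (.pp [(1, 53550000000)]))))) (.mul (.g 13) (.mul (.g 14) (.pp [(1,
 46962000000)]))))) (.add (.mul (.g 13) (.add (.mul (.pp [(1, 9800400)]) (.sq [(2, -100), (3, -51),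
 (5, 100), (7, -33)])) (.mul (.g 9) (.mul (.g 14) (.pp [(1, 126294000000)]))))) (.mul (.g 18) (.add
 (.pp [(1, 2871804000000)]) (.mul (.pp [(1, 9803400)]) (.sq [(1, -83), (2, 100), (3, 100), (5,
 100), (7, 100)])))))) (.add (.mul (.g 20) (.add (.pp [(1, 448386000000)]) (.mul (.pp [(1,
 5691000)]) (.sq [(1, 15), (2, -73), (3, 31), (5, -47), (7, 100)])))) (.add (.mul (.g 5) (.mul (.pp
 [(1, 37536600)]) (.sq [(1, -15), (2, 4), (3, 24), (5, 100), (7, -72)]))) (.mul (.g 7) (.mul (.pp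
 [(1, 499296)]) (.sq [(1, -16), (2, -3), (3, 57), (5, 100), (7, -69)]))))))))) (.add (.mul (.g 20)
 (.add (.add (.mul (.g 12) (.add (.mul (.pp [(1, 4535400)]) (.sq [(1, -63), (2, -49), (3, 62), (5,
 49), (7, 100)])) (.add (.mul (.g 12) (.add (.pp [(1, 438306000000)]) (.mul (.g 10) (.pp [(1,
 118110000000)])))) (.mul (.g 9) (.pp [(1, 2010120000000)]))))) (.mul (.g 20) (.add (.pp [(1,
 288750000000)]) (.mul (.pp [(1, 12581400)]) (.sq [(1, -100), (2, 37), (3, 19), (5, 60), (7,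
 60)]))))) (.add (.mul (.g 14) (.mul (.pp [(1, 3856200)]) (.sq [(1, -24), (2, -65), (3, -78), (5,
 100), (7, -51)]))) (.mul (.g 15) (.mul (.pp [(1, 16668600)]) (.sq [(1, -35), (2, -16), (3, -7),
 (5, 36), (7, 100)])))))) (.add (.mul (.g 14) (.add (.mul (.g 14) (.add (.mul (.pp [(1, 75595200)])
 (.sq [(1, -20), (2, 50), (3, 27), (5, 25), (7, 25)])) (.add (.mul (.pp [(1, 29164200)]) (.sq [(1,
 21), (2, -43), (3, -40), (5, -21), (7, 100)])) (.mul (.pp [(1, 12566400)]) (.sq [(1, -6), (2,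
 100), (3, 50), (5, -81), (7, 26)]))))) (.add (.mul (.g 16) (.add (.mul (.pp [(1, 1462350)]) (.sq
 [(1, 6), (2, 100), (3, 34), (5, -65), (7, -43)])) (.mul (.g 12) (.mul (.g 12) (.pp [(1,
 42515700000)]))))) (.mul (.g 15) (.mul (.pp [(1, 21322200)]) (.sq [(1, 6), (2, 100), (3, 35), (5,
 -66), (7, -45)])))))) (.mul (.g 5) (.add (.add (.mul (.g 5) (.mul (.g 5) (.mul (.g 5) (.pp [(1,
 168264000000)])))) (.mul (.g 7) (.mul (.pp [(1, 563688)]) (.sq [(1, -3), (2, 100), (3, 23), (5,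
 -86), (7, 55)])))) (.add (.mul (.g 9) (.mul (.g 12) (.mul (.g 12) (.pp [(1, 112560000000)]))))
 (.mul (.g 11) (.mul (.pp [(1, 21826200)]) (.sq [(1, -3), (2, 100), (3, 21), (5, -93), (7,
 64)]))))))))) (.add (.add (.mul (.g 0) (.pp [(1, 4800000000)])) (.add (.mul (.g 1) (.pp [(1,
 600000000)])) (.mul (.g 3) (.pp [(1, 2000000000000)])))) (.add (.add (.mul (.g 4) (.pp [(1,
 2000000000000)])) (.mul (.g 11) (.mul (.g 15) (.mul (.pp [(1, 63624000)]) (.sq [(1, 37), (2, -55),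
 (3, -10), (5, -15), (7, 100)]))))) (.add (.mul (.g 16) (.mul (.g 16) (.mul (.pp [(1, 41571)]) (.sq
 [(1, 19), (2, -30), (3, -40), (5, 5), (7, 100)])))) (.mul (.g 19) (.pp [(1, 2000000000000)]))))))
 (.pp [(1, 2712277443), (2, 67235028), (3, 65277882), (4, 58573428), (5, 67772250), (6, 62463504),
 (7, 64913856), (8, 61458840), (9, 56793378), (10, 38548572), (12, 62995440), (14, 57900528), (15,
 47097720), (16, 59743800), (18, 50012376), (20, 60743712), (21, 54869088), (24, 54981000), (25,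
 49289409), (27, 56019710), (28, 54549000), (30, 61738320), (35, 46591764), (36, 61839600), (40,
 72622800), (42, 54921720), (45, 63556116), (49, 59178702), (50, 86669574), (54, 65099400), (56,
 60834600), (60, 59168400), (63, 60309600), (70, 77129412), (75, 74212104), (81, 60865800), (84,
 62197200), (90, 70236000), (98, 62392350), (100, 35220600), (105, 65411892), (125, 67615026),
 (126, 60814800), (135, 56634600), (140, 61518000), (147, 54541650), (150, 46515000), (175,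
 67621740), (189, 63727200), (196, 58698000), (210, 62287200), (225, 64269600), (245, 65818098),
 (250, 70240200), (294, 57397800), (315, 58633200), (343, 58816200), (350, 48370800), (375,
 55776000), (441, 64268400), (490, 60960600), (525, 59052600), (625, 51690600), (686, 59812200),
 (735, 57703800), (875, 61738200), (1029, 63139800), (1225, 55707600), (1715, 56863800), (2401,
 60960000)])))))))))
 (.split [(2, 1), (5, -1)]
 (.rule 1 (.rule 2 (.cut 17 [(1, 3), (3, -2)] (.add (.add (.mul (.g 11) (.pp [(1, 34)])) (.mul (.g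
 4) (.pp [(1, 1)]))) (.add (.mul (.g 8) (.pp [(1, 9)])) (.mul (.g 10) (.pp [(1, 34)])))) (.rule 8
 (.rule 10 (.leaf 3000000 (.add (.add (.add (.add (.mul (.g 12) (.add (.add (.mul (.g 10) (.add
 (.add (.mul (.pp [(1, 69)]) (.sq [(1, 9), (2, -17), (3, 100), (5, 51), (7, -94)])) (.mul (.g 10)
 (.add (.add (.mul (.g 7) (.pp [(1, 7200)])) (.mul (.g 11) (.pp [(1, 1779150000)]))) (.add (.mul
 (.g 12) (.pp [(1, 2190000)])) (.mul (.g 20) (.pp [(1, 390000)])))))) (.add (.mul (.g 11) (.add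
 (.mul (.g 11) (.pp [(1, 890040000)])) (.add (.mul (.g 12) (.pp [(1, 330000)])) (.mul (.g 14) (.pp
 [(1, 889740000)]))))) (.mul (.g 6) (.add (.mul (.g 5) (.pp [(1, 240000)])) (.mul (.g 12) (.pp [(1,
 60000)]))))))) (.add (.mul (.g 9) (.add (.add (.pp [(1, 3197250000)]) (.add (.mul (.g 6) (.add
 (.mul (.g 11) (.pp [(1, 7409640000)])) (.add (.mul (.g 12) (.pp [(1, 150000)])) (.mul (.g 18) (.pp
 [(1, 10080150000)]))))) (.mul (.g 11) (.add (.mul (.g 11) (.pp [(1, 2060460000)])) (.mul (.g 18)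
 (.pp [(1, 315600000)])))))) (.add (.mul (.g 5) (.mul (.g 8) (.pp [(1, 1329090000)]))) (.add (.mul
 (.g 7) (.mul (.g 9) (.pp [(1, 20822400)]))) (.mul (.g 20) (.pp [(1, 10080330000)])))))) (.mul (.g
 12) (.add (.add (.pp [(1, 5471490000)]) (.mul (.g 6) (.add (.pp [(1, 3488730000)]) (.mul (.g 11)
 (.pp [(1, 150000)]))))) (.add (.mul (.g 8) (.mul (.g 11) (.pp [(1, 126000)]))) (.add (.mul (.g 15)
 (.mul (.g 18) (.pp [(1, 150000)]))) (.mul (.g 20) (.pp [(1, 3489540000)])))))))) (.add (.add (.mul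
 (.g 20) (.add (.mul (.pp [(1, 24)]) (.sq [(1, 100), (2, 81), (3, 81), (5, 81), (7, 81)])) (.mul
 (.g 20) (.mul (.g 20) (.pp [(1, 150000)]))))) (.mul (.g 5) (.pp [(1, 10673730000)]))) (.add (.mul
 (.g 7) (.pp [(1, 426921600)])) (.mul (.g 11) (.mul (.g 11) (.mul (.g 13) (.pp [(1,
 450000)])))))))) (.add (.mul (.g 9) (.add (.add (.mul (.g 9) (.add (.mul (.g 9) (.add (.mul (.g
 11) (.pp [(1, 2534610000)])) (.add (.mul (.g 17) (.pp [(1, 2400000)])) (.mul (.g 20) (.pp [(1,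
 300000)]))))) (.add (.mul (.g 20) (.add (.pp [(1, 5802060000)]) (.mul (.g 11) (.pp [(1,
 2301300000)])))) (.mul (.g 10) (.mul (.g 14) (.pp [(1, 2100000)])))))) (.mul (.g 5) (.add (.pp
 [(1, 18904050000)]) (.mul (.g 10) (.add (.mul (.g 10) (.pp [(1, 6646860000)])) (.mul (.g 20) (.pp
 [(1, 6644760000)]))))))) (.add (.mul (.g 6) (.add (.mul (.g 13) (.add (.mul (.g 13) (.pp [(1,
 300000)])) (.mul (.g 18) (.pp [(1, 470100000)])))) (.mul (.g 18) (.mul (.g 18) (.pp [(1,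
 1744410000)]))))) (.add (.mul (.g 11) (.mul (.g 20) (.add (.pp [(1, 4303470000)]) (.mul (.g 11)
 (.pp [(1, 1744710000)]))))) (.mul (.g 7) (.mul (.g 14) (.pp [(1, 385784400)]))))))) (.mul (.g 11)
 (.add (.add (.mul (.g 20) (.add (.mul (.g 11) (.add (.pp [(1, 900000)]) (.mul (.g 11) (.pp [(1,
 300000)])))) (.add (.mul (.g 6) (.mul (.g 6) (.pp [(1, 890040000)]))) (.mul (.g 10) (.pp [(1,
 890040000)]))))) (.mul (.g 5) (.add (.mul (.g 5) (.add (.pp [(1, 9306390000)]) (.mul (.g 13) (.pp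
 [(1, 231210000)])))) (.mul (.g 18) (.mul (.g 18) (.pp [(1, 230910000)])))))) (.add (.mul (.g 6)
 (.mul (.g 6) (.mul (.g 10) (.pp [(1, 889440000)])))) (.add (.mul (.g 11) (.mul (.g 11) (.mul (.g
 11) (.pp [(1, 230610000)])))) (.mul (.g 13) (.mul (.g 13) (.mul (.g 15) (.pp [(1,
 1281690000)])))))))))) (.add (.mul (.g 10) (.add (.mul (.g 5) (.add (.pp [(1, 2723940000)]) (.add
 (.mul (.g 5) (.mul (.g 20) (.pp [(1, 600000)]))) (.mul (.g 10) (.mul (.g 14) (.pp [(1,
 300000)])))))) (.add (.mul (.g 6) (.add (.pp [(1, 8749590000)]) (.mul (.g 6) (.pp [(1,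
 300000)])))) (.mul (.g 10) (.mul (.g 20) (.add (.pp [(1, 900000)]) (.mul (.g 10) (.pp [(1,
 300000)])))))))) (.add (.mul (.g 6) (.add (.mul (.g 6) (.pp [(1, 1749210000)])) (.mul (.g 7) (.mul
 (.g 13) (.mul (.g 13) (.pp [(1, 22076400)])))))) (.mul (.g 0) (.pp [(1, 24000000)]))))) (.add
 (.add (.mul (.g 1) (.pp [(1, 3000000)])) (.add (.mul (.g 3) (.pp [(1, 10000000000)])) (.mul (.g 4)
 (.pp [(1, 10000000000)])))) (.add (.add (.mul (.g 7) (.mul (.g 7) (.pp [(1, 18739296)]))) (.mul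
 (.g 13) (.mul (.g 13) (.pp [(1, 183120000)])))) (.add (.mul (.g 18) (.mul (.g 18) (.pp [(1,
 2235960000)]))) (.mul (.g 19) (.pp [(1, 10000000000)])))))) (.pp [(1, 637263456), (2, 276000), (3,
 298800), (4, 302400), (5, 321600), (6, 327600), (7, 277200), (8, 301200), (9, 300000), (10,
 325200), (12, 298800), (14, 301200), (15, 300000), (16, 300000), (18, 300000), (20, 330000), (21,
 295611), (24, 300000), (25, 300000), (27, 300000), (28, 303336), (30, 240000), (35, 301200), (36,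
 300000), (40, 300000), (42, 274986), (45, 300000), (49, 271200), (50, 300000), (54, 300000), (56,
 300000), (60, 300000), (63, 289536), (70, 285072), (75, 300000), (81, 300000), (84, 287523), (90,
 300000), (98, 283872), (100, 300000), (105, 310530), (125, 280000), (126, 309528), (135, 300000),
 (140, 270000), (147, 339420), (150, 300000), (175, 292536), (189, 307464), (196, 307464), (210,
 374574), (225, 300000), (245, 301872), (250, 300000), (294, 319332), (315, 301128), (343, 321336),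
 (350, 300000), (375, 300000), (441, 359592), (490, 314928), (525, 277995), (625, 300000), (686,
 314928), (735, 331428), (875, 300000), (1029, 312708), (1225, 307464), (1715, 314928), (2401,
 307464)]))))))))
 (.rule 1 (.rule 3 (.cut 1 [(1, 3), (3, -2)] (.add (.add (.mul (.g 6) (.pp [(1, 1)])) (.mul (.g 11)
 (.pp [(1, 2)]))) (.add (.mul (.g 2) (.pp [(1, 2)])) (.mul (.g 10) (.pp [(1, 1)])))) (.rule 8
 (.rule 10 (.leaf 75000000 (.add (.add (.add (.add (.mul (.pp [(1, 6224025)]) (.sq [(1, -85), (2,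
 100), (3, -75), (5, 90), (7, -14)])) (.add (.mul (.g 8) (.add (.add (.add (.mul (.g 12) (.add
 (.add (.mul (.g 12) (.add (.mul (.g 7) (.pp [(1, 204498000)])) (.add (.mul (.g 12) (.pp [(1,
 694350000)])) (.mul (.g 14) (.pp [(1, 30150000)]))))) (.add (.mul (.g 6) (.add (.mul (.g 7) (.pp
 [(1, 221262000)])) (.mul (.g 11) (.pp [(1, 18052500000)])))) (.mul (.g 13) (.add (.mul (.g 5) (.pp
 [(1, 10846950000)])) (.mul (.g 17) (.pp [(1, 3821700000)])))))) (.add (.mul (.g 10) (.mul (.g 14)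
 (.pp [(1, 7056300000)]))) (.add (.mul (.g 11) (.mul (.g 18) (.pp [(1, 6583800000)]))) (.mul (.g
 20) (.pp [(1, 1710600000)])))))) (.mul (.g 8) (.add (.add (.pp [(1, 3514230000)]) (.add (.mul (.pp
 [(1, 176928)]) (.sq [(1, 49), (2, 100), (3, -9), (5, 90)])) (.mul (.g 6) (.add (.mul (.g 13) (.pp
 [(1, 1505970000)])) (.mul (.g 17) (.pp [(1, 1723590000)])))))) (.add (.add (.mul (.g 18) (.add
 (.pp [(1, 2468970000)]) (.mul (.g 13) (.pp [(1, 2315550000)])))) (.mul (.g 8) (.mul (.g 11) (.pp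
 [(1, 129726000)])))) (.add (.mul (.g 9) (.mul (.g 9) (.pp [(1, 2196960000)]))) (.mul (.g 10) (.pp
 [(1, 408750000)]))))))) (.add (.mul (.g 9) (.add (.mul (.g 9) (.add (.mul (.g 18) (.pp [(1,
 73397700000)])) (.mul (.g 20) (.pp [(1, 5083950000)])))) (.mul (.g 13) (.mul (.g 14) (.pp [(1,
 53994750000)]))))) (.mul (.g 11) (.add (.mul (.g 6) (.add (.mul (.g 11) (.pp [(1, 1195650000)]))
 (.mul (.g 13) (.pp [(1, 18402150000)])))) (.mul (.g 11) (.mul (.g 18) (.pp [(1,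
 3921000000)]))))))) (.add (.add (.mul (.g 14) (.add (.pp [(1, 63326400000)]) (.mul (.pp [(1,
 735975)]) (.sq [(1, 13), (2, 100), (3, 72), (5, 43), (7, -14)])))) (.mul (.g 5) (.mul (.g 13)
 (.mul (.g 13) (.pp [(1, 3718650000)]))))) (.add (.mul (.g 18) (.pp [(1, 20741700000)])) (.mul (.g
 20) (.mul (.pp [(1, 294885)]) (.sq [(1, -3), (2, -87), (3, -100), (5, 85), (7, 5)]))))))) (.mul
 (.g 20) (.add (.add (.mul (.pp [(1, 13827900)]) (.sq [(1, -44), (2, 100), (3, -16), (5, -2), (7,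
 89)])) (.add (.mul (.g 12) (.add (.mul (.g 20) (.add (.add (.pp [(1, 1196250000)]) (.mul (.g 17)
 (.pp [(1, 11827500000)]))) (.add (.mul (.g 18) (.pp [(1, 26163750000)])) (.mul (.g 20) (.pp [(1,
 7500000)]))))) (.mul (.g 6) (.mul (.g 12) (.pp [(1, 7018500000)]))))) (.mul (.g 13) (.add (.mul
 (.pp [(1, 1014300)]) (.sq [(1, -85), (2, 100), (3, -41), (5, 56), (7, 91)])) (.add (.mul (.g 6)
 (.mul (.g 6) (.pp [(1, 211634250000)]))) (.mul (.g 13) (.mul (.g 18) (.pp [(1,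
 2716500000)])))))))) (.add (.mul (.g 14) (.add (.pp [(1, 15117000000)]) (.mul (.pp [(1, 2535450)])
 (.sq [(1, 28), (2, 100), (3, 7), (5, 4), (7, 78)])))) (.add (.mul (.g 11) (.mul (.pp [(1,
 1417875)]) (.sq [(1, -80), (2, 100), (3, -36), (5, 57), (7, 72)]))) (.mul (.g 18) (.mul (.g 18)
 (.mul (.g 20) (.pp [(1, 20707500000)])))))))))) (.add (.add (.mul (.g 14) (.add (.add (.mul (.g 9)
 (.add (.mul (.g 9) (.add (.pp [(1, 192250500000)]) (.mul (.g 9) (.pp [(1, 47922750000)])))) (.add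
 (.mul (.g 7) (.mul (.g 11) (.pp [(1, 571830000)]))) (.mul (.g 12) (.mul (.g 13) (.pp [(1,
 3487500000)])))))) (.mul (.g 14) (.add (.add (.pp [(1, 216467250000)]) (.mul (.pp [(1, 818175)])
 (.sq [(1, 66), (2, -39), (3, 67), (5, 100), (7, 43)]))) (.add (.mul (.pp [(1, 30075)]) (.sq [(1,
 8), (2, -29), (3, -60), (5, -47), (7, 100)])) (.mul (.g 12) (.mul (.g 12) (.pp [(1,
 10113750000)]))))))) (.add (.mul (.g 5) (.mul (.pp [(1, 26925)]) (.sq [(1, 41), (2, 100), (3,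
 -51), (5, -34), (7, -5)]))) (.mul (.g 6) (.mul (.g 10) (.mul (.g 12) (.pp [(1,
 145446750000)]))))))) (.mul (.g 6) (.add (.mul (.pp [(1, 1379925)]) (.sq [(1, -70), (2, 46), (3,
 -80), (5, 100), (7, 19)])) (.add (.mul (.g 6) (.add (.mul (.g 6) (.add (.mul (.g 9) (.pp [(1,
 88560750000)])) (.add (.mul (.g 10) (.pp [(1, 72639000000)])) (.mul (.g 12) (.pp [(1,
 191160750000)]))))) (.mul (.g 7) (.mul (.g 18) (.pp [(1, 2960640000)]))))) (.mul (.g 18) (.mul
 (.pp [(1, 2253825)]) (.sq [(1, -17), (2, -32), (3, -45), (5, 19), (7, 100)]))))))) (.add (.mul (.g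
 13) (.add (.add (.mul (.pp [(1, 2571225)]) (.sq [(1, -67), (2, 64), (3, -85), (5, 100), (7, 47)]))
 (.mul (.g 10) (.mul (.pp [(1, 2024550)]) (.sq [(1, -76), (2, 61), (3, -65), (5, 100), (7, 12)]))))
 (.add (.mul (.g 15) (.mul (.pp [(1, 932925)]) (.sq [(1, 21), (2, -100), (3, 74), (5, 11), (7,
 -88)]))) (.mul (.g 18) (.mul (.g 18) (.mul (.g 18) (.pp [(1, 34493250000)]))))))) (.mul (.g 9)
 (.add (.mul (.pp [(1, 8528250)]) (.sq [(1, -63), (2, 100), (3, 19), (5, 10), (7, -35)])) (.add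
 (.mul (.pp [(1, 9921600)]) (.sq [(1, -74), (2, 86), (3, -89), (5, 100), (7, -17)])) (.mul (.g 9)
 (.mul (.pp [(1, 3357375)]) (.sq [(1, -78), (2, 95), (3, -83), (5, 100), (7, -24)]))))))))) (.add
 (.add (.mul (.g 12) (.add (.mul (.pp [(1, 897600)]) (.sq [(1, 9), (2, -35), (3, 6), (5, -30), (7,
 100)])) (.mul (.g 11) (.mul (.pp [(1, 1808025)]) (.sq [(1, -30), (2, 59), (3, -27), (5, 57), (7,
 -100)]))))) (.add (.mul (.g 0) (.pp [(1, 600000000)])) (.mul (.g 1) (.pp [(1, 75000000)])))) (.add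
 (.add (.mul (.g 3) (.pp [(1, 250000000000)])) (.mul (.g 4) (.pp [(1, 250000000000)]))) (.add (.mul
 (.g 15) (.mul (.g 18) (.mul (.pp [(1, 822450)]) (.sq [(1, -69), (2, 40), (3, -76), (5, 100), (7,
 49)])))) (.mul (.g 19) (.pp [(1, 250000000000)])))))) (.pp [(1, 208284618), (2, 6005835), (3,
 9071784), (4, 9089445), (5, 9290535), (6, 7447665), (7, 6235305), (8, 6704800), (9, 7958883), (10,
 7389750), (12, 7251780), (14, 9660390), (15, 6434865), (16, 7953375), (18, 7981125), (20,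
 5990550), (21, 8699325), (24, 7405350), (25, 6776400), (27, 6421215), (28, 5738355), (30,
 9406200), (35, 8336850), (36, 7366650), (40, 8138250), (42, 5552400), (45, 6426225), (49,
 10550625), (50, 8202525), (54, 7177575), (56, 7318950), (60, 5789100), (63, 7656900), (70,
 4622850), (75, 8218950), (81, 7898175), (84, 7321725), (90, 8756475), (98, 6386175), (100,
 7223550), (105, 8290650), (125, 7379625), (126, 8687700), (135, 7426350), (140, 8430375), (147,
 3215625), (150, 8680800), (175, 7531275), (189, 7324200), (196, 7708350), (210, 10119600), (225,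
 6433125), (245, 5586525), (250, 7664400), (294, 7446675), (315, 6036525), (343, 5825625), (350,
 8237400), (375, 7050225), (441, 8746350), (490, 8333850), (525, 6737175), (625, 7439625), (686,
 7759500), (735, 9686175), (875, 7399950), (1029, 7932825), (1225, 7852200), (1715, 8086200),
 (2401, 7500000)]))))))))))
 (.rule 5 (.rule 6 (.cut 1 [(1, 3), (3, -2)] (.add (.add (.mul (.g 9) (.pp [(1, 1)])) (.mul (.g 12)
 (.pp [(1, 1)]))) (.add (.mul (.g 6) (.pp [(1, 1)])) (.mul (.g 8) (.pp [(1, 1)])))) (.rule 8 (.leaf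
 300000000 (.add (.add (.add (.add (.mul (.pp [(1, 9330000)]) (.sq [(1, -36), (2, 100), (3, -13),
 (5, -14), (7, 46)])) (.add (.mul (.g 5) (.add (.add (.add (.mul (.g 8) (.add (.add (.mul (.g 5)
 (.add (.mul (.g 8) (.pp [(1, 3542280000)])) (.mul (.g 10) (.pp [(1, 1296480000)])))) (.mul (.g 17)
 (.add (.mul (.g 8) (.pp [(1, 2476800000)])) (.mul (.g 12) (.pp [(1, 11524800000)]))))) (.add (.mul
 (.g 6) (.mul (.g 6) (.pp [(1, 179493600000)]))) (.mul (.g 10) (.mul (.g 10) (.pp [(1,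
 46049400000)])))))) (.mul (.g 7) (.add (.add (.mul (.g 7) (.add (.mul (.g 14) (.pp [(1,
 1171200000)])) (.mul (.g 17) (.pp [(1, 19421400000)])))) (.mul (.g 5) (.mul (.g 5) (.pp [(1,
 674592000)])))) (.add (.mul (.g 11) (.mul (.g 17) (.pp [(1, 4840200000)]))) (.mul (.g 15) (.mul
 (.g 15) (.pp [(1, 57601200000)]))))))) (.add (.mul (.g 9) (.add (.mul (.g 9) (.add (.mul (.g 6)
 (.pp [(1, 32773200000)])) (.add (.mul (.g 13) (.pp [(1, 4018800000)])) (.mul (.g 14) (.pp [(1,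
 7938600000)]))))) (.add (.mul (.g 5) (.mul (.g 5) (.pp [(1, 241824000)]))) (.mul (.g 6) (.mul (.g
 6) (.pp [(1, 106485600000)])))))) (.mul (.g 6) (.add (.pp [(1, 101372400000)]) (.mul (.g 6) (.mul
 (.g 6) (.pp [(1, 95015400000)]))))))) (.add (.add (.mul (.g 4) (.pp [(1, 12891264000)])) (.mul (.g
 11) (.pp [(1, 22541400000)]))) (.add (.mul (.g 14) (.pp [(1, 48519000000)])) (.mul (.g 17) (.pp
 [(1, 16544400000)])))))) (.mul (.g 4) (.add (.add (.mul (.g 8) (.add (.mul (.g 10) (.add (.add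
 (.mul (.g 7) (.pp [(1, 4308360000)])) (.mul (.g 10) (.pp [(1, 6259920000)]))) (.add (.mul (.g 12)
 (.pp [(1, 2335680000)])) (.mul (.g 17) (.pp [(1, 2771160000)]))))) (.add (.mul (.g 8) (.add (.mul
 (.g 7) (.pp [(1, 2659200000)])) (.add (.mul (.g 8) (.pp [(1, 90480000)])) (.mul (.g 9) (.pp [(1,
 1750080000)]))))) (.mul (.g 7) (.mul (.g 7) (.pp [(1, 12261360000)])))))) (.add (.mul (.g 9) (.add
 (.mul (.g 9) (.add (.mul (.g 7) (.pp [(1, 3782280000)])) (.mul (.g 12) (.pp [(1, 445440000)]))))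
 (.add (.mul (.g 4) (.mul (.g 13) (.pp [(1, 838080)]))) (.mul (.g 6) (.mul (.g 10) (.pp [(1,
 316440000)])))))) (.mul (.g 6) (.mul (.g 6) (.add (.mul (.g 6) (.pp [(1, 7599000000)])) (.mul (.g
 7) (.pp [(1, 31574160000)]))))))) (.add (.mul (.g 13) (.add (.pp [(1, 1877856000)]) (.mul (.g 10)
 (.pp [(1, 148428000)])))) (.add (.mul (.g 14) (.mul (.pp [(1, 87324)]) (.sq [(2, -8), (3, 100),
 (5, -95), (7, -44)]))) (.mul (.g 17) (.mul (.pp [(1, 40992)]) (.sq [(1, 12), (2, 1), (3, 100), (5,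
 6), (7, -47)]))))))))) (.add (.add (.mul (.g 17) (.add (.add (.mul (.pp [(1, 154799400)]) (.sq
 [(1, -37), (2, 100), (3, -10), (5, 10), (7, 36)])) (.mul (.g 9) (.add (.mul (.g 9) (.add (.add
 (.mul (.g 7) (.pp [(1, 879000000)])) (.mul (.g 9) (.pp [(1, 9567000000)]))) (.add (.mul (.g 11)
 (.pp [(1, 130194000000)])) (.mul (.g 12) (.pp [(1, 135468000000)]))))) (.mul (.g 6) (.mul (.g 6)
 (.pp [(1, 7605000000)])))))) (.add (.mul (.g 17) (.add (.pp [(1, 61161000000)]) (.add (.mul (.pp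
 [(1, 933900)]) (.sq [(1, -39), (2, -30), (3, -1), (5, 16), (7, 100)])) (.mul (.pp [(1, 36900)])
 (.sq [(1, -40), (2, -56), (3, 100), (5, 2), (7, -73)]))))) (.add (.mul (.g 7) (.mul (.pp [(1,
 8210100)]) (.sq [(1, -36), (2, 100), (3, -19), (5, 19), (7, 18)]))) (.mul (.g 8) (.mul (.g 8)
 (.mul (.g 11) (.pp [(1, 43023000000)])))))))) (.mul (.g 11) (.add (.mul (.g 6) (.add (.mul (.pp
 [(1, 307500)]) (.sq [(1, -36), (2, -87), (3, 23), (5, -12), (7, 100)])) (.mul (.g 6) (.add (.add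
 (.pp [(1, 426129000000)]) (.mul (.g 7) (.pp [(1, 49050000000)]))) (.add (.mul (.g 8) (.pp [(1,
 192702000000)])) (.mul (.g 10) (.pp [(1, 4350000000)]))))))) (.mul (.g 11) (.add (.pp [(1,
 460773000000)]) (.mul (.g 10) (.pp [(1, 641829000000)]))))))) (.add (.mul (.g 12) (.add (.mul (.pp
 [(1, 5212800)]) (.sq [(2, 100), (3, -40), (5, -40), (7, -3)])) (.add (.mul (.g 12) (.mul (.pp [(1,
 354600)]) (.sq [(1, -51), (2, 75), (5, -27), (7, 100)]))) (.mul (.g 14) (.mul (.pp [(1,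
 13327200)]) (.sq [(1, -14), (2, -5), (3, -15), (5, -4), (7, 100)])))))) (.mul (.g 13) (.add (.mul
 (.pp [(1, 2518125)]) (.sq [(2, 100), (3, -40), (5, -40), (7, -3)])) (.add (.mul (.pp [(1,
 670995)]) (.sq [(1, -41), (2, 100), (3, -14), (5, 18), (7, 44)])) (.mul (.g 9) (.mul (.g 9) (.mul
 (.g 14) (.pp [(1, 11887650000)])))))))))) (.add (.add (.add (.mul (.g 8) (.add (.mul (.pp [(1,
 44429400)]) (.sq [(1, -40), (2, 100), (3, -2), (5, -11), (7, 27)])) (.mul (.g 8) (.mul (.pp [(1,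
 40303500)]) (.sq [(1, -35), (2, 100), (3, -6), (5, -7), (7, 14)]))))) (.mul (.g 0) (.pp [(1,
 300000000)]))) (.add (.mul (.g 2) (.pp [(1, 1000000000000)])) (.mul (.g 3) (.pp [(1,
 1000000000000)])))) (.add (.add (.mul (.g 6) (.mul (.pp [(1, 14518200)]) (.sq [(1, -19), (2, 100),
 (3, -18), (5, 8), (7, -25)]))) (.mul (.g 7) (.mul (.g 10) (.mul (.pp [(1, 52129800)]) (.sq [(1,
 -37), (2, 100), (3, -12), (5, 10), (7, 41)]))))) (.add (.mul (.g 9) (.mul (.g 9) (.mul (.g 14)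
 (.mul (.g 15) (.pp [(1, 75804000000)]))))) (.mul (.g 16) (.pp [(1, 1000000000000)])))))) (.pp [(1,
 4686890439), (2, 29635164), (3, 32712456), (4, 31119624), (5, 30089304), (6, 30939336), (7,
 30623448), (8, 25422500), (9, 28725180), (10, 30376272), (12, 29049176), (14, 28980120), (15,
 30549096), (16, 27907500), (18, 29802500), (20, 28062800), (21, 30528648), (23, 3000000000000),
 (24, 35152500), (25, 29446716), (27, 29786700), (28, 33593664), (30, 32514528), (35, 30559152),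
 (36, 29444100), (40, 33787500), (42, 28664016), (45, 28643400), (49, 33098349), (50, 28846400),
 (54, 29684700), (56, 31500000), (60, 29623800), (63, 29247000), (70, 31212768), (75, 27215304),
 (81, 30532200), (84, 30103200), (90, 29999100), (98, 31434684), (100, 29391600), (105, 28883184),
 (125, 33206700), (126, 29354400), (135, 29316600), (140, 28315200), (147, 21206964), (150,
 31230000), (175, 30016704), (189, 30189900), (196, 27771600), (210, 28284000), (225, 32829900),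
 (245, 25980804), (250, 30316800), (294, 29211000), (315, 31440600), (343, 26599176), (350,
 29222400), (375, 28364100), (441, 34830000), (490, 32140800), (525, 30813300), (625, 28625100),
 (686, 27705600), (735, 34278000), (875, 30433200), (1029, 34312200), (1225, 29275200), (1715,
 32511600), (2401, 31359900)]))))))))
 (.split [(1, -7), (3, 50)]
 (.split [(1, -17), (5, 25)]
 (.split [(2, 1), (3, -1)]
 (.split [(2, 1), (5, -1)]
 (.rule 0 (.rule 2 (.rule 7 (.rule 10 (.leaf 75000000 (.add (.add (.add (.add (.mul (.g 12) (.add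
 (.add (.mul (.g 12) (.add (.add (.mul (.g 8) (.add (.mul (.g 4) (.pp [(1, 4818750000)])) (.add
 (.mul (.g 11) (.pp [(1, 4417200000)])) (.mul (.g 13) (.pp [(1, 9342000000)]))))) (.mul (.g 12)
 (.add (.mul (.g 7) (.pp [(1, 63660000)])) (.mul (.g 9) (.pp [(1, 6873750000)]))))) (.add (.mul (.g
 15) (.add (.mul (.g 15) (.pp [(1, 132746250000)])) (.mul (.g 18) (.pp [(1, 211405500000)]))))
 (.add (.mul (.g 16) (.add (.mul (.g 5) (.pp [(1, 9544050000)])) (.mul (.g 16) (.pp [(1,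
 159995625)])))) (.mul (.g 4) (.mul (.g 20) (.pp [(1, 7500000)]))))))) (.add (.mul (.g 13) (.add
 (.mul (.g 9) (.add (.pp [(1, 46890000000)]) (.add (.mul (.g 8) (.pp [(1, 1218900000)])) (.mul (.g
 13) (.pp [(1, 1661250000)]))))) (.add (.mul (.g 4) (.add (.pp [(1, 89506500000)]) (.mul (.g 8)
 (.pp [(1, 13996200000)])))) (.mul (.g 5) (.add (.pp [(1, 292944750000)]) (.mul (.g 14) (.pp [(1,
 1060500000)]))))))) (.mul (.g 4) (.add (.mul (.g 17) (.add (.mul (.g 8) (.pp [(1, 1611600000)]))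
 (.mul (.g 18) (.pp [(1, 81702750000)])))) (.mul (.g 10) (.mul (.g 18) (.pp [(1,
 14518500000)]))))))) (.add (.add (.mul (.g 7) (.add (.mul (.g 7) (.mul (.g 11) (.pp [(1,
 49041000)]))) (.mul (.g 10) (.mul (.g 18) (.pp [(1, 2609880000)]))))) (.mul (.g 6) (.mul (.g 11)
 (.mul (.g 17) (.pp [(1, 731370000)]))))) (.add (.mul (.g 16) (.pp [(1, 3845587500)])) (.mul (.g
 20) (.mul (.pp [(1, 1318050)]) (.sq [(1, 100), (2, 81), (3, 81), (5, 81), (7, 81)]))))))) (.add
 (.mul (.g 4) (.add (.add (.pp [(1, 73132500000)]) (.add (.mul (.g 10) (.add (.pp [(1,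
 59131500000)]) (.add (.mul (.g 10) (.add (.mul (.g 10) (.pp [(1, 93766500000)])) (.add (.mul (.g
 17) (.pp [(1, 19138500000)])) (.mul (.g 20) (.pp [(1, 5470500000)]))))) (.mul (.g 5) (.mul (.g 7)
 (.pp [(1, 1432950000)])))))) (.mul (.g 9) (.add (.pp [(1, 492582750000)]) (.add (.mul (.g 15) (.pp
 [(1, 42780000000)])) (.mul (.g 16) (.mul (.g 18) (.pp [(1, 3337500)])))))))) (.add (.mul (.g 11)
 (.add (.pp [(1, 23699250000)]) (.mul (.g 4) (.pp [(1, 250269000000)])))) (.add (.mul (.g 5) (.mul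
 (.g 15) (.pp [(1, 138291000000)]))) (.mul (.g 13) (.mul (.g 13) (.mul (.g 14) (.pp [(1,
 273000000)])))))))) (.mul (.g 9) (.add (.add (.mul (.g 9) (.add (.mul (.g 9) (.add (.pp [(1,
 19959750000)]) (.mul (.g 10) (.pp [(1, 801000000)])))) (.mul (.g 10) (.mul (.g 20) (.pp [(1,
 74658750000)]))))) (.mul (.g 14) (.mul (.g 16) (.add (.pp [(1, 3390675000)]) (.mul (.g 18) (.pp
 [(1, 14737500)])))))) (.add (.mul (.g 20) (.add (.mul (.pp [(1, 52275)]) (.sq [(1, 70), (2, 100),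
 (3, 95), (5, 95), (7, 67)])) (.mul (.g 5) (.pp [(1, 12820500000)])))) (.mul (.g 6) (.pp [(1,
 416790000)]))))))) (.add (.add (.mul (.g 8) (.add (.mul (.g 11) (.add (.mul (.g 11) (.add (.mul
 (.g 10) (.pp [(1, 25840950000)])) (.mul (.g 20) (.pp [(1, 21365250000)])))) (.add (.mul (.g 5)
 (.mul (.g 17) (.pp [(1, 12434550000)]))) (.mul (.g 7) (.mul (.g 8) (.pp [(1, 54319200)]))))))
 (.add (.mul (.g 8) (.pp [(1, 1541040000)])) (.mul (.g 10) (.mul (.pp [(1, 21780)]) (.sq [(1, -5),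
 (2, 1), (3, -97), (5, -100), (7, 50)])))))) (.mul (.g 18) (.add (.add (.mul (.g 6) (.mul (.g 11)
 (.mul (.g 11) (.pp [(1, 8640000)])))) (.add (.mul (.g 10) (.mul (.g 10) (.mul (.g 10) (.pp [(1,
 12037500000)])))) (.mul (.g 14) (.mul (.pp [(1, 133725)]) (.sq [(1, 21), (2, 13), (3, -76), (5,
 -39), (7, 100)]))))) (.add (.mul (.g 15) (.mul (.pp [(1, 13425)]) (.sq [(1, 5), (2, 4), (3, 100),
 (5, -35), (7, -46)]))) (.add (.mul (.g 17) (.mul (.pp [(1, 2325)]) (.sq [(1, 30), (2, 17), (3,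
 -36), (5, -61), (7, 100)]))) (.mul (.g 18) (.mul (.pp [(1, 1362300)]) (.sq [(2, 3), (3, 100), (5,
 -4), (7, -99)])))))))) (.add (.mul (.g 5) (.add (.mul (.g 5) (.mul (.g 10) (.pp [(1,
 266155500000)]))) (.add (.mul (.g 6) (.pp [(1, 10681860000)])) (.mul (.g 7) (.mul (.pp [(1,
 10824)]) (.sq [(2, -11), (3, -25), (5, -25), (7, 14)])))))) (.mul (.g 13) (.add (.mul (.g 13)
 (.mul (.pp [(1, 6300)]) (.sq [(1, -37), (2, 68), (3, 75), (5, 100), (7, 13)]))) (.add (.mul (.g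
 14) (.mul (.pp [(1, 33900)]) (.sq [(1, -57), (2, 100), (3, 52), (5, 20), (7, -8)]))) (.mul (.g 15)
 (.mul (.pp [(1, 19350)]) (.sq [(1, 18), (2, -39), (3, 66), (5, 40), (7, 100)]))))))))) (.add (.add
 (.add (.mul (.g 20) (.add (.mul (.pp [(1, 11199900)]) (.sq [(2, 39), (3, 39), (5, 50), (7, 50)]))
 (.mul (.g 20) (.add (.pp [(1, 41899500000)]) (.mul (.pp [(1, 2400150)]) (.sq [(1, -100), (2, 37),
 (3, 19), (5, 60), (7, 60)])))))) (.mul (.g 10) (.mul (.g 16) (.add (.pp [(1, 10957237500)]) (.mul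
 (.g 10) (.mul (.g 10) (.pp [(1, 24450000)]))))))) (.add (.mul (.g 0) (.pp [(1, 600000000)])) (.mul
 (.g 1) (.pp [(1, 150000000)])))) (.add (.add (.mul (.g 2) (.pp [(1, 250000000000)])) (.mul (.g 3)
 (.pp [(1, 250000000000)]))) (.add (.mul (.g 6) (.mul (.g 6) (.pp [(1, 475063200)]))) (.mul (.g 19)
 (.pp [(1, 250000000000)])))))) (.pp [(1, 15481544175), (2, 7882950), (3, 8051700), (4, 7582950),
 (5, 8166675), (6, 5295450), (7, 8136300), (8, 8385953), (9, 7206750), (10, 6565200), (12,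
 7207632), (14, 7238100), (15, 6410700), (16, 7437450), (18, 9572985), (20, 6828225), (21,
 6575100), (24, 7609950), (25, 6499200), (27, 7605940), (28, 7549806), (30, 11745900), (35,
 6209700), (36, 6369450), (40, 7608075), (42, 8202294), (45, 7078800), (49, 6917775), (50,
 9668625), (54, 7077375), (56, 7551600), (60, 6475950), (63, 8284950), (70, 9299250), (75,
 7847925), (81, 7435950), (84, 6165150), (90, 6528750), (98, 9099153), (100, 7144425), (105,
 9407700), (125, 7653550), (126, 6472125), (135, 7909200), (140, 6632400), (147, 7698672), (150,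
 7295475), (175, 8565150), (189, 7305750), (196, 6510600), (210, 6867000), (225, 7156200), (245,
 7309800), (250, 7383450), (294, 6589725), (315, 6698100), (343, 7933950), (350, 7727175), (375,
 7541775), (441, 6325200), (490, 6919950), (525, 6194550), (625, 7253100), (686, 7198575), (735,
 6559500), (875, 7341900), (1029, 6756150), (1225, 7441050), (1715, 6872100), (2401,
 7186050)])))))))
 (.rule 0 (.rule 3 (.rule 7 (.rule 10 (.leaf 150000000 (.add (.add (.add (.add (.add (.mul (.pp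
 [(1, 8564250)]) (.sq [(1, -34), (2, -76), (3, -49), (5, 100), (7, -32)])) (.mul (.pp [(1,
 60448200)]) (.sq [(1, -43), (2, 27), (3, -28), (5, 50), (7, 5)]))) (.add (.mul (.pp [(1,
 12741150)]) (.sq [(1, -50), (2, -57), (3, -37), (5, 100), (7, 12)])) (.mul (.g 5) (.add (.add
 (.add (.mul (.pp [(1, 10036650)]) (.sq [(1, 17), (2, 86), (3, 61), (5, -20), (7, -100)])) (.mul
 (.g 9) (.add (.add (.mul (.pp [(1, 988350)]) (.sq [(1, -32), (2, -100), (3, -71), (5, -10), (7,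
 96)])) (.mul (.g 4) (.add (.mul (.g 9) (.pp [(1, 112132500000)])) (.add (.mul (.g 12) (.pp [(1,
 31542000000)])) (.mul (.g 20) (.pp [(1, 41704500000)])))))) (.add (.mul (.g 7) (.pp [(1,
 6458460000)])) (.add (.mul (.g 9) (.mul (.g 9) (.pp [(1, 39486000000)]))) (.mul (.g 13) (.mul (.g
 20) (.pp [(1, 8290500000)])))))))) (.add (.mul (.g 5) (.add (.add (.pp [(1, 26968500000)]) (.mul
 (.g 11) (.add (.mul (.g 11) (.pp [(1, 3759000000)])) (.mul (.g 13) (.pp [(1, 54858000000)])))))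
 (.add (.mul (.g 10) (.pp [(1, 815683500000)])) (.mul (.g 20) (.pp [(1, 423321000000)]))))) (.mul
 (.g 12) (.add (.add (.mul (.g 4) (.mul (.g 12) (.pp [(1, 3556500000)]))) (.mul (.g 6) (.mul (.g 6)
 (.pp [(1, 4264800)])))) (.add (.mul (.g 13) (.mul (.g 18) (.pp [(1, 12000000000)]))) (.mul (.g 20)
 (.pp [(1, 476103000000)]))))))) (.add (.add (.mul (.g 13) (.add (.mul (.g 14) (.add (.pp [(1,
 65704500000)]) (.mul (.g 13) (.pp [(1, 63537000000)])))) (.mul (.g 7) (.mul (.g 7) (.pp [(1,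
 8655600)]))))) (.mul (.g 10) (.add (.mul (.g 10) (.mul (.g 10) (.pp [(1, 3448500000)]))) (.mul (.g
 14) (.pp [(1, 197433000000)]))))) (.add (.mul (.g 4) (.mul (.g 18) (.mul (.g 18) (.pp [(1,
 1000500000)])))) (.mul (.g 6) (.mul (.g 20) (.pp [(1, 2078100000)]))))))))) (.add (.add (.mul (.g
 20) (.add (.add (.add (.mul (.pp [(1, 18118350)]) (.sq [(1, -57), (2, 100), (3, -14), (5, 20), (7,
 40)])) (.mul (.pp [(1, 6524700)]) (.sq [(1, -84), (2, 66), (3, 76), (5, 9), (7, 100)]))) (.add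
 (.mul (.g 7) (.add (.mul (.g 9) (.add (.mul (.g 9) (.pp [(1, 1035870000)])) (.add (.mul (.g 12)
 (.pp [(1, 2075520000)])) (.mul (.g 18) (.pp [(1, 42990000)]))))) (.add (.mul (.g 7) (.mul (.g 18)
 (.pp [(1, 227400)]))) (.mul (.g 12) (.mul (.g 12) (.pp [(1, 1074300000)])))))) (.add (.mul (.g 12)
 (.add (.mul (.g 12) (.add (.mul (.g 12) (.pp [(1, 16518000000)])) (.mul (.g 14) (.pp [(1,
 28522500000)])))) (.mul (.g 9) (.mul (.g 9) (.pp [(1, 14965500000)]))))) (.mul (.g 17) (.add (.mul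
 (.pp [(1, 5776350)]) (.sq [(1, -51), (2, 100), (3, -25), (5, 12), (7, 64)])) (.mul (.pp [(1,
 1107900)]) (.sq [(1, 6), (2, -13), (3, -9), (5, -39), (7, 100)]))))))) (.add (.add (.mul (.g 9)
 (.mul (.pp [(1, 2182200)]) (.sq [(1, -41), (2, 10), (3, -94), (5, 100), (7, -69)]))) (.mul (.g 11)
 (.mul (.pp [(1, 2884200)]) (.sq [(1, -26), (2, 3), (3, 7), (5, -6), (7, 100)])))) (.add (.mul (.g
 13) (.mul (.pp [(1, 2573850)]) (.sq [(1, 22), (2, -19), (3, 100), (5, -82), (7, 86)]))) (.add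
 (.mul (.g 14) (.mul (.pp [(1, 7650)]) (.sq [(1, 34), (2, 35), (3, 100), (5, -82), (7, 68)])))
 (.mul (.g 20) (.mul (.pp [(1, 1594950)]) (.sq [(1, -54), (2, 100), (3, 5), (5, 4), (7,
 66)])))))))) (.mul (.g 18) (.add (.add (.mul (.pp [(1, 8206200)]) (.sq [(1, -14), (2, 55), (3,
 100), (5, -40), (7, 29)])) (.mul (.g 18) (.add (.mul (.g 7) (.add (.mul (.g 7) (.pp [(1,
 70417200)])) (.mul (.g 9) (.pp [(1, 165450000)])))) (.mul (.g 18) (.add (.pp [(1, 64374000000)])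
 (.mul (.g 12) (.pp [(1, 19539000000)]))))))) (.add (.mul (.g 9) (.add (.mul (.g 6) (.mul (.g 6)
 (.pp [(1, 672000)]))) (.mul (.g 7) (.mul (.g 9) (.pp [(1, 567600000)]))))) (.mul (.g 17) (.mul
 (.pp [(1, 904800)]) (.sq [(1, 44), (2, -60), (3, 1), (5, -60), (7, 100)]))))))) (.add (.mul (.g 6)
 (.add (.mul (.g 6) (.add (.mul (.g 8) (.add (.pp [(1, 104934240)]) (.mul (.g 10) (.pp [(1,
 57237600)])))) (.add (.mul (.g 11) (.add (.mul (.g 4) (.pp [(1, 686400)])) (.mul (.g 12) (.pp [(1,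
 27376800)])))) (.mul (.g 13) (.pp [(1, 83258400)]))))) (.mul (.g 7) (.mul (.g 8) (.mul (.g 8) (.pp
 [(1, 128160)])))))) (.mul (.g 12) (.add (.add (.mul (.pp [(1, 868050)]) (.sq [(1, -17), (2, -33),
 (3, -83), (5, 8), (7, 100)])) (.mul (.g 7) (.mul (.g 7) (.mul (.g 7) (.pp [(1, 123600)]))))) (.add
 (.mul (.g 9) (.mul (.pp [(1, 209250)]) (.sq [(1, -13), (2, -32), (3, -68), (5, -15), (7, 100)])))
 (.mul (.g 12) (.mul (.pp [(1, 955500)]) (.sq [(1, -28), (2, -17), (3, -42), (5, -3), (7,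
 100)]))))))))) (.add (.add (.add (.mul (.g 7) (.add (.mul (.pp [(1, 297441)]) (.sq [(1, -25), (2,
 -89), (3, -38), (5, 100), (7, -5)])) (.mul (.g 7) (.mul (.g 7) (.mul (.g 8) (.pp [(1, 612)]))))))
 (.mul (.g 9) (.add (.mul (.pp [(1, 14233500)]) (.sq [(1, 20), (2, 100), (3, 96), (5, -97), (7,
 -41)])) (.mul (.g 15) (.mul (.pp [(1, 109050)]) (.sq [(1, -28), (2, -85), (3, -66), (5, 100), (7,
 -22)])))))) (.add (.mul (.g 10) (.add (.mul (.pp [(1, 8362650)]) (.sq [(1, -37), (2, -75), (3,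
 -25), (5, 100), (7, -10)])) (.mul (.pp [(1, 2044200)]) (.sq [(1, -28), (2, -96), (3, -55), (5,
 100), (7, -28)])))) (.mul (.g 11) (.add (.mul (.pp [(1, 8011800)]) (.sq [(1, -49), (2, -75), (3,
 -7), (5, 100), (7, -18)])) (.mul (.g 14) (.mul (.pp [(1, 342450)]) (.sq [(1, 29), (2, -69), (3,
 -72), (5, -36), (7, 100)]))))))) (.add (.add (.mul (.g 0) (.pp [(1, 1200000000)])) (.mul (.g 1)
 (.pp [(1, 300000000)]))) (.add (.mul (.g 2) (.pp [(1, 500000000000)])) (.add (.mul (.g 3) (.pp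
 [(1, 500000000000)])) (.mul (.g 19) (.pp [(1, 500000000000)]))))))) (.pp [(1, 983013783), (2,
 15213300), (3, 13988820), (4, 14327577), (5, 16416750), (6, 18434868), (7, 14143800), (8,
 15643200), (9, 15944478), (10, 13646250), (12, 14051850), (14, 17419680), (15, 14525850), (16,
 13886250), (18, 14034450), (20, 16255500), (21, 17142810), (24, 15516150), (25, 13630650), (27,
 15170300), (28, 14940750), (30, 12145500), (35, 15186600), (36, 16316100), (40, 13659300), (42,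
 11502000), (45, 14131200), (49, 15485175), (50, 14616600), (54, 13671150), (56, 15326400), (60,
 15592200), (63, 14955000), (70, 14060700), (75, 17784300), (81, 14667600), (84, 15902850), (90,
 17000400), (98, 13362300), (100, 16127850), (105, 11991000), (125, 15396600), (126, 12354600),
 (135, 15408000), (140, 14353950), (147, 15321750), (150, 13800000), (175, 16120200), (189,
 15626850), (196, 16026900), (210, 18967200), (225, 13916700), (245, 13413000), (250, 15476400),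
 (294, 14367000), (315, 16179600), (343, 15565800), (350, 14019750), (375, 14688600), (441,
 14384850), (490, 16562400), (525, 14252700), (625, 14815200), (686, 13993200), (735, 16574400),
 (875, 15252600), (1029, 14525400), (1225, 14654100), (1715, 15292800), (2401, 15397800)]))))))))
 (.rule 1 (.cut 575 [(2, -1), (5, 1)] (.add (.add (.mul (.g 4) (.pp [(1, 135)])) (.mul (.g 1) (.pp
 [(1, 575)]))) (.add (.mul (.g 2) (.pp [(1, 23)])) (.mul (.g 3) (.pp [(1, 2)])))) (.rule 3 (.rule 7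
 (.rule 10 (.leaf 75000000 (.add (.add (.add (.add (.add (.mul (.pp [(1, 1388025)]) (.sq [(1, 30),
 (2, 39), (3, 76), (5, -100), (7, 27)])) (.mul (.pp [(1, 459300)]) (.sq [(1, -69), (2, -1), (3,
 -47), (5, 100), (7, 9)]))) (.add (.mul (.pp [(1, 8175675)]) (.sq [(1, -26), (2, 47), (3, -100),
 (5, 71), (7, -21)])) (.mul (.pp [(1, 1587825)]) (.sq [(1, -56), (2, -100), (3, 30), (5, 92), (7,
 9)])))) (.add (.add (.mul (.g 5) (.add (.mul (.g 5) (.add (.add (.mul (.g 7) (.add (.add (.mul (.g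
 8) (.pp [(1, 126192000)])) (.mul (.g 12) (.pp [(1, 222915000)]))) (.add (.mul (.g 13) (.pp [(1,
 29565000)])) (.mul (.g 18) (.pp [(1, 650730000)]))))) (.mul (.g 6) (.add (.mul (.g 8) (.pp [(1,
 270246000)])) (.add (.mul (.g 12) (.pp [(1, 2790240000)])) (.mul (.g 13) (.pp [(1,
 8229330000)])))))) (.add (.mul (.g 5) (.add (.mul (.g 11) (.pp [(1, 18913500000)])) (.mul (.g 13)
 (.pp [(1, 75111750000)])))) (.add (.mul (.g 9) (.mul (.g 14) (.pp [(1, 1940250000)]))) (.mul (.g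
 20) (.mul (.g 20) (.pp [(1, 20082000000)]))))))) (.add (.mul (.g 6) (.add (.mul (.g 12) (.add
 (.mul (.g 6) (.pp [(1, 100274400)])) (.add (.mul (.g 8) (.pp [(1, 71598000)])) (.mul (.g 12) (.pp
 [(1, 123600000)]))))) (.add (.mul (.g 6) (.mul (.g 8) (.pp [(1, 54508320)]))) (.mul (.g 18) (.mul
 (.g 18) (.pp [(1, 314130000)])))))) (.mul (.g 9) (.mul (.g 12) (.mul (.g 12) (.pp [(1,
 23453250000)]))))))) (.mul (.g 14) (.add (.add (.add (.mul (.pp [(1, 4504200)]) (.sq [(1, -19),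
 (2, 15), (3, 100), (5, -31), (7, 9)])) (.mul (.g 14) (.add (.add (.mul (.pp [(1, 2108700)]) (.sq
 [(1, -23), (2, 100), (3, 71), (5, -9), (7, -71)])) (.mul (.g 20) (.add (.pp [(1, 12398250000)])
 (.mul (.g 12) (.pp [(1, 31041000000)]))))) (.add (.mul (.g 8) (.mul (.g 13) (.pp [(1,
 690750000)]))) (.add (.mul (.g 9) (.mul (.g 9) (.pp [(1, 52076250000)]))) (.mul (.g 14) (.pp [(1,
 67911750000)]))))))) (.add (.mul (.g 6) (.mul (.g 6) (.add (.mul (.g 8) (.pp [(1, 7219680)]))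
 (.add (.mul (.g 9) (.pp [(1, 10278000)])) (.mul (.g 12) (.pp [(1, 3813600)])))))) (.mul (.g 9)
 (.mul (.pp [(1, 29402700)]) (.sq [(1, -7), (2, 50), (3, 27), (5, -2), (7, -26)]))))) (.add (.add
 (.mul (.g 11) (.mul (.pp [(1, 3876225)]) (.sq [(1, -35), (2, 100), (3, 3), (5, 23), (7, -14)])))
 (.mul (.g 13) (.mul (.pp [(1, 541875)]) (.sq [(1, -51), (2, 100), (3, 63), (5, 26), (7, -56)]))))
 (.add (.mul (.g 18) (.mul (.g 18) (.mul (.g 18) (.pp [(1, 269250000)])))) (.mul (.g 20) (.mul (.pp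
 [(1, 108075)]) (.sq [(1, -30), (2, 100), (3, 88), (5, -43), (7, 70)])))))))) (.add (.mul (.g 20)
 (.add (.add (.add (.mul (.pp [(1, 6569025)]) (.sq [(1, -33), (2, 100), (3, -30), (5, -11), (7,
 70)])) (.mul (.pp [(1, 51000)]) (.sq [(1, 31), (2, 66), (3, 77), (5, -100), (7, 23)]))) (.add
 (.mul (.pp [(1, 3244500)]) (.sq [(1, -58), (2, 100), (3, -43), (5, 38), (7, 44)])) (.add (.mul
 (.pp [(1, 9944475)]) (.sq [(1, -55), (2, 100), (3, -25), (5, 30), (7, 59)])) (.mul (.pp [(1,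
 1282425)]) (.sq [(1, -10), (2, -51), (3, 100), (5, -26), (7, 12)]))))) (.add (.add (.mul (.g 12)
 (.add (.mul (.pp [(1, 429975)]) (.sq [(1, -49), (2, -43), (3, -76), (5, 100), (7, 14)])) (.mul
 (.pp [(1, 87150)]) (.sq [(1, -44), (2, 100), (3, 30), (5, -21), (7, 68)])))) (.mul (.g 18) (.add
 (.mul (.pp [(1, 2165775)]) (.sq [(1, -22), (2, 82), (3, 100), (5, -57), (7, 63)])) (.mul (.pp [(1,
 3429450)]) (.sq [(1, -43), (2, 100), (3, -47), (5, 11), (7, 69)]))))) (.add (.mul (.g 9) (.mul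
 (.pp [(1, 879225)]) (.sq [(1, -46), (2, 100), (3, -7), (5, 20), (7, -14)]))) (.add (.mul (.g 11)
 (.mul (.pp [(1, 40067700)]) (.sq [(1, -13), (2, 50), (3, 1), (5, -9), (7, 21)]))) (.mul (.g 15)
 (.mul (.pp [(1, 923400)]) (.sq [(1, 8), (2, 100), (3, -3), (5, -61), (7, 54)])))))))) (.add (.mul
 (.g 9) (.add (.add (.mul (.pp [(1, 4491975)]) (.sq [(1, -38), (2, 69), (3, -100), (5, 76), (7,
 -16)])) (.add (.mul (.pp [(1, 2497125)]) (.sq [(1, 22), (2, 70), (3, 93), (5, -100), (7, -13)]))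
 (.mul (.pp [(1, 3472125)]) (.sq [(1, -43), (2, 100), (3, -25), (5, 25), (7, -4)])))) (.add (.mul
 (.g 15) (.add (.mul (.pp [(1, 5800125)]) (.sq [(1, 32), (2, 72), (3, 75), (5, -100), (7, -26)]))
 (.mul (.pp [(1, 19764900)]) (.sq [(1, 14), (2, 100), (3, -43), (5, -32), (7, -16)])))) (.add (.mul
 (.g 11) (.mul (.pp [(1, 1128600)]) (.sq [(1, 22), (2, 70), (3, 90), (5, -100), (7, -19)]))) (.mul
 (.g 12) (.mul (.pp [(1, 330600)]) (.sq [(1, -3), (2, 100), (3, -8), (5, -21), (7, -39)])))))))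
 (.mul (.g 12) (.add (.add (.mul (.pp [(1, 535350)]) (.sq [(1, -100), (2, -13), (3, 82), (5, 55),
 (7, 90)])) (.mul (.g 12) (.add (.mul (.pp [(1, 48000)]) (.sq [(1, -61), (3, 26), (5, 20), (7,
 100)])) (.mul (.g 6) (.mul (.g 6) (.pp [(1, 38910000)])))))) (.add (.mul (.g 15) (.mul (.pp [(1,
 183375)]) (.sq [(1, -85), (3, 77), (5, 31), (7, 100)]))) (.mul (.g 18) (.mul (.pp [(1, 713175)])
 (.sq [(1, -75), (2, 40), (3, -100), (5, 77), (7, 93)])))))))))) (.add (.add (.add (.mul (.g 13)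
 (.add (.add (.mul (.pp [(1, 2330700)]) (.sq [(1, -79), (2, 46), (3, -55), (5, 100), (7, 35)]))
 (.mul (.pp [(1, 5563800)]) (.sq [(1, -61), (2, -15), (3, -46), (5, 100), (7, -4)]))) (.add (.mul
 (.g 13) (.add (.mul (.pp [(1, 2659500)]) (.sq [(1, -76), (2, 17), (3, -37), (5, 100), (7, 25)]))
 (.mul (.pp [(1, 859200)]) (.sq [(1, -100), (2, 66), (3, 21), (5, 57), (7, 85)])))) (.mul (.g 15)
 (.mul (.pp [(1, 7830000)]) (.sq [(1, -63), (2, -25), (3, -32), (5, 100), (7, -2)])))))) (.mul (.g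
 10) (.add (.mul (.pp [(1, 22461825)]) (.sq [(1, -44), (2, -66), (3, -26), (5, 100), (7, -9)]))
 (.mul (.pp [(1, 20267325)]) (.sq [(1, -1), (2, 100), (3, -52), (5, -21), (7, 22)]))))) (.add (.mul
 (.g 0) (.pp [(1, 600000000)])) (.add (.mul (.g 1) (.pp [(1, 150000000)])) (.mul (.g 2) (.pp [(1,
 250000000000)]))))) (.add (.add (.mul (.g 4) (.pp [(1, 250000000000)])) (.mul (.g 6) (.mul (.g 6)
 (.mul (.g 8) (.mul (.g 8) (.pp [(1, 4063728)])))))) (.add (.mul (.g 11) (.mul (.g 11) (.mul (.pp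
 [(1, 11133975)]) (.sq [(1, 1), (2, 86), (3, -100), (5, 12), (7, 1)])))) (.add (.mul (.g 15) (.mul
 (.pp [(1, 3091275)]) (.sq [(1, -13), (2, 100), (3, -96), (5, 16), (7, 18)]))) (.mul (.g 19) (.pp
 [(1, 250000000000)]))))))) (.pp [(1, 135137487), (2, 6453330), (3, 10040205), (4, 5958150), (5,
 10045935), (6, 8403375), (7, 8161350), (8, 7511125), (9, 5332800), (10, 10078500), (12, 9619575),
 (14, 6303525), (15, 3099375), (16, 8577300), (18, 6753975), (20, 9225600), (21, 6959550), (24,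
 6855600), (25, 4639200), (27, 8700300), (28, 6683700), (30, 6184050), (35, 6955350), (36,
 7277400), (40, 5881200), (42, 7880550), (45, 9079950), (49, 6302250), (50, 5201550), (54,
 7200825), (56, 7413000), (60, 6351600), (63, 9390225), (70, 10098450), (75, 10190925), (81,
 7421100), (84, 9316875), (90, 7460475), (98, 9148125), (100, 7544700), (105, 6756750), (125,
 9216225), (126, 7014000), (135, 7557675), (140, 6638100), (147, 6618525), (150, 9623925), (175,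
 7227150), (189, 6615825), (196, 8563275), (210, 6338850), (225, 7065300), (245, 8773575), (250,
 7902675), (294, 6561900), (315, 6707925), (343, 8406525), (350, 7471350), (375, 6349275), (441,
 7577400), (490, 4908600), (525, 8649000), (625, 7175925), (686, 7718700), (735, 8980275), (875,
 7326300), (1029, 7558800), (1225, 7402575), (1715, 6880350), (2401, 7256700)])))))))))
 (.split [(2, 1), (3, -1)]
 (.split [(2, 1), (5, -1)]
 (.rule 0 (.rule 2 (.rule 7 (.leaf 75000000 (.add (.add (.add (.add (.mul (.g 11) (.add (.add (.add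
 (.mul (.g 11) (.add (.add (.mul (.g 8) (.add (.mul (.g 7) (.pp [(1, 5912250000)])) (.add (.mul (.g
 15) (.pp [(1, 234600000)])) (.mul (.g 19) (.pp [(1, 35984250000)]))))) (.mul (.g 12) (.add (.mul
 (.g 9) (.pp [(1, 95971500000)])) (.add (.mul (.g 16) (.pp [(1, 127468500000)])) (.mul (.g 19) (.pp
 [(1, 39404250000)])))))) (.add (.mul (.g 4) (.mul (.g 4) (.pp [(1, 2015250000)]))) (.add (.mul (.g
 6) (.mul (.g 17) (.pp [(1, 414135000)]))) (.mul (.g 15) (.pp [(1, 5638387500)])))))) (.mul (.g 12)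
 (.add (.add (.mul (.g 4) (.add (.pp [(1, 420233250000)]) (.mul (.g 12) (.pp [(1, 18353250000)]))))
 (.mul (.g 6) (.add (.mul (.g 12) (.pp [(1, 1410750000)])) (.mul (.g 16) (.pp [(1, 555765000)])))))
 (.add (.mul (.g 3) (.mul (.g 7) (.pp [(1, 2265150000)]))) (.mul (.g 8) (.mul (.g 19) (.pp [(1,
 4973250000)]))))))) (.add (.mul (.g 10) (.add (.mul (.g 3) (.add (.mul (.g 10) (.pp [(1,
 32816250000)])) (.mul (.g 17) (.pp [(1, 24337500000)])))) (.add (.mul (.g 6) (.mul (.g 6) (.pp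
 [(1, 4073100)]))) (.mul (.g 10) (.mul (.g 10) (.pp [(1, 6927000000)])))))) (.mul (.g 4) (.add
 (.mul (.g 6) (.mul (.g 16) (.pp [(1, 160485000)]))) (.mul (.g 19) (.pp [(1, 82155750000)]))))))
 (.add (.add (.mul (.g 7) (.mul (.g 8) (.add (.pp [(1, 23950500000)]) (.mul (.g 17) (.pp [(1,
 3948150000)]))))) (.mul (.g 3) (.pp [(1, 243059250000)]))) (.add (.mul (.g 9) (.mul (.pp [(1,
 243300)]) (.sq [(1, 74), (2, -100), (3, -21), (5, 4), (7, 82)]))) (.add (.mul (.g 15) (.pp [(1,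
 11680350000)])) (.mul (.g 19) (.mul (.pp [(1, 678000)]) (.sq [(1, 100), (2, 81), (3, 81), (5, 81),
 (7, 81)])))))))) (.add (.mul (.g 3) (.add (.add (.mul (.g 3) (.add (.mul (.pp [(1, 224475)]) (.sq
 [(1, -8), (2, -45), (3, -60), (5, 100), (7, 70)])) (.add (.mul (.g 10) (.pp [(1, 80604000000)]))
 (.mul (.g 14) (.pp [(1, 117114750000)]))))) (.add (.mul (.g 9) (.add (.pp [(1, 80604750000)])
 (.add (.mul (.pp [(1, 2179200)]) (.sq [(1, 5), (2, 52), (3, 100), (5, 31), (7, -45)])) (.mul (.g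
 5) (.mul (.g 10) (.pp [(1, 411540000)])))))) (.mul (.g 14) (.add (.mul (.pp [(1, 55275)]) (.sq
 [(1, 13), (2, -31), (3, -8), (5, -92), (7, 100)])) (.mul (.g 13) (.pp [(1, 62673750000)]))))))
 (.add (.mul (.g 8) (.pp [(1, 511878750000)])) (.add (.mul (.g 10) (.pp [(1, 115910250000)])) (.mul
 (.g 12) (.mul (.pp [(1, 90825)]) (.sq [(1, -34), (2, 93), (3, 100), (5, -46), (7, -61)])))))))
 (.mul (.g 19) (.add (.add (.mul (.pp [(1, 7040100)]) (.sq [(2, 39), (3, 39), (5, 50), (7, 50)]))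
 (.add (.mul (.g 8) (.add (.mul (.g 8) (.add (.mul (.g 6) (.pp [(1, 1578705000)])) (.mul (.g 10)
 (.pp [(1, 22839750000)])))) (.mul (.g 12) (.mul (.g 14) (.pp [(1, 18370500000)]))))) (.mul (.g 19)
 (.add (.pp [(1, 3491250000)]) (.mul (.pp [(1, 1233600)]) (.sq [(1, -100), (2, 37), (3, 19), (5,
 60), (7, 60)])))))) (.add (.add (.mul (.g 4) (.pp [(1, 55784250000)])) (.mul (.g 6) (.mul (.g 6)
 (.mul (.g 9) (.pp [(1, 2616600)]))))) (.add (.mul (.g 7) (.pp [(1, 13531950000)])) (.mul (.g 13)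
 (.mul (.pp [(1, 1275)]) (.sq [(1, -100), (2, 75), (3, 42), (5, 77), (7, 77)]))))))))) (.add (.mul
 (.g 4) (.add (.mul (.g 4) (.add (.add (.pp [(1, 19190250000)]) (.mul (.pp [(1, 1309800)]) (.sq
 [(1, 100), (2, -67), (3, 67), (5, 33)]))) (.add (.mul (.g 9) (.pp [(1, 228495750000)])) (.mul (.g
 14) (.pp [(1, 21205500000)]))))) (.add (.mul (.g 8) (.mul (.g 15) (.add (.pp [(1, 398287500)])
 (.mul (.g 17) (.pp [(1, 369300000)]))))) (.mul (.g 10) (.mul (.g 10) (.add (.mul (.g 5) (.pp [(1,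
 476730000)])) (.mul (.g 10) (.pp [(1, 17725500000)])))))))) (.add (.mul (.g 5) (.add (.add (.mul
 (.g 5) (.pp [(1, 252316800)])) (.mul (.g 10) (.mul (.pp [(1, 8043)]) (.sq [(1, -4), (2, -1), (3,
 100), (5, -95), (7, -64)])))) (.add (.mul (.g 15) (.pp [(1, 241525500)])) (.mul (.g 16) (.mul (.pp
 [(1, 83187)]) (.sq [(1, 61), (2, -41), (3, -77), (5, -23), (7, 100)])))))) (.mul (.g 13) (.add
 (.add (.mul (.pp [(1, 2330775)]) (.sq [(2, -92), (3, -11), (5, -72), (7, 100)])) (.mul (.g 8)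
 (.mul (.g 15) (.pp [(1, 1798237500)])))) (.add (.mul (.g 13) (.mul (.pp [(1, 26175)]) (.sq [(1,
 50), (2, 11), (3, -81), (5, -34), (7, 100)]))) (.mul (.g 16) (.mul (.pp [(1, 137250)]) (.sq [(1,
 9), (2, -91), (3, -16), (5, -73), (7, 100)]))))))))) (.add (.add (.mul (.g 7) (.mul (.g 10) (.mul
 (.g 10) (.add (.mul (.g 10) (.pp [(1, 34303200000)])) (.mul (.g 17) (.pp [(1, 33300300000)]))))))
 (.add (.mul (.g 8) (.mul (.g 8) (.mul (.g 8) (.add (.mul (.g 6) (.pp [(1, 752715000)])) (.mul (.g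
 12) (.pp [(1, 5506500000)])))))) (.mul (.g 15) (.add (.pp [(1, 5252775000)]) (.mul (.g 9) (.pp
 [(1, 8104575000)])))))) (.add (.add (.mul (.g 0) (.pp [(1, 150000000)])) (.mul (.g 1) (.pp [(1,
 250000000000)]))) (.add (.mul (.g 2) (.pp [(1, 250000000000)])) (.mul (.g 18) (.pp [(1,
 250000000000)])))))) (.pp [(1, 8859256491), (2, 6832908), (3, 8644185), (4, 7012776), (5,
 8254203), (6, 9478161), (7, 7906200), (8, 6183050), (9, 5728083), (10, 6829908), (12, 7847049),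
 (14, 7320450), (15, 5851908), (16, 7743450), (18, 6998481), (20, 9482394), (21, 7698300), (23,
 750000000000), (24, 9156450), (25, 5978949), (27, 7826416), (28, 7476075), (30, 7316844), (35,
 8103378), (36, 6155925), (40, 7653525), (42, 10614900), (45, 9544368), (49, 7238025), (50,
 6471435), (54, 8582400), (56, 7823925), (60, 5322075), (63, 6516600), (70, 9272532), (75,
 9994341), (81, 7358925), (84, 6549075), (90, 8748450), (98, 7003950), (100, 7057800), (105,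
 5876100), (125, 8109625), (126, 6860850), (135, 6712875), (140, 7489725), (147, 7691850), (150,
 7841775), (175, 7518765), (189, 7784700), (196, 6818175), (210, 5515650), (225, 6877650), (245,
 8452074), (250, 8232450), (294, 8942325), (315, 8707950), (343, 7421475), (350, 7453425), (375,
 6147300), (441, 6187425), (490, 7819875), (525, 8352075), (625, 7541175), (686, 7091475), (735,
 6084075), (875, 7542525), (1029, 7037325), (1225, 6954750), (1715, 7236525), (2401, 7398000)]))))))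
 (.rule 0 (.rule 3 (.rule 7 (.leaf 15000000 (.add (.add (.add (.add (.mul (.pp [(1, 66750)]) (.sq
 [(1, -43), (2, 100), (3, 89), (5, -42), (7, 25)])) (.add (.mul (.g 5) (.add (.add (.add (.mul (.g
 10) (.add (.add (.mul (.g 6) (.add (.mul (.g 3) (.pp [(1, 44754720)])) (.add (.mul (.g 11) (.pp
 [(1, 12250200)])) (.mul (.g 17) (.pp [(1, 51096840)]))))) (.mul (.g 4) (.add (.mul (.g 4) (.pp
 [(1, 1391718000)])) (.mul (.g 8) (.pp [(1, 156666000)]))))) (.add (.mul (.g 9) (.add (.mul (.g 14)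
 (.pp [(1, 220098000)])) (.mul (.g 15) (.pp [(1, 290400)])))) (.add (.mul (.g 10) (.add (.mul (.g
 11) (.pp [(1, 91278000)])) (.mul (.g 15) (.pp [(1, 9483600)])))) (.mul (.g 5) (.mul (.g 8) (.pp
 [(1, 5186880)]))))))) (.mul (.g 11) (.add (.mul (.g 4) (.add (.add (.pp [(1, 1572780000)]) (.mul
 (.g 4) (.pp [(1, 75528000)]))) (.add (.mul (.g 8) (.pp [(1, 2352000)])) (.mul (.g 11) (.pp [(1,
 814170000)]))))) (.add (.mul (.g 9) (.add (.mul (.g 5) (.pp [(1, 48637920)])) (.mul (.g 8) (.pp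
 [(1, 597678000)])))) (.mul (.g 6) (.mul (.g 11) (.pp [(1, 11959920)]))))))) (.add (.mul (.g 8)
 (.mul (.g 8) (.add (.mul (.g 6) (.pp [(1, 4715760)])) (.add (.mul (.g 9) (.pp [(1, 4075812000)]))
 (.mul (.g 12) (.pp [(1, 22602000)])))))) (.mul (.g 3) (.add (.mul (.g 5) (.mul (.g 7) (.pp [(1,
 6716928)]))) (.mul (.g 19) (.pp [(1, 479370000)])))))) (.add (.add (.mul (.g 4) (.pp [(1,
 320778000)])) (.mul (.g 6) (.pp [(1, 13438800)]))) (.add (.mul (.g 9) (.mul (.g 9) (.mul (.g 9)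
 (.pp [(1, 408828000)])))) (.mul (.g 19) (.pp [(1, 174564000)])))))) (.mul (.g 19) (.add (.add
 (.add (.mul (.pp [(1, 296715)]) (.sq [(2, -42), (3, 76), (5, -89), (7, 100)])) (.mul (.pp [(1,
 195540)]) (.sq [(1, -29), (2, 3), (3, -3), (5, 10), (7, 100)]))) (.add (.mul (.pp [(1, 5084955)])
 (.sq [(1, -22), (2, 100), (3, 17), (5, -32), (7, 29)])) (.add (.mul (.g 11) (.add (.mul (.g 11)
 (.add (.mul (.g 4) (.pp [(1, 2195100000)])) (.add (.mul (.g 6) (.pp [(1, 95379000)])) (.mul (.g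
 11) (.pp [(1, 1577250000)]))))) (.add (.mul (.g 4) (.pp [(1, 31726800000)])) (.mul (.g 6) (.mul
 (.g 8) (.pp [(1, 116895000)])))))) (.mul (.g 8) (.add (.mul (.pp [(1, 225825)]) (.sq [(1, -29),
 (2, 33), (3, 26), (5, -14), (7, 100)])) (.add (.mul (.g 4) (.pp [(1, 13127850000)])) (.mul (.g 6)
 (.mul (.g 8) (.pp [(1, 28266000)]))))))))) (.add (.add (.mul (.g 4) (.pp [(1, 3800400000)])) (.mul
 (.g 6) (.mul (.g 6) (.mul (.g 9) (.pp [(1, 382440)]))))) (.add (.mul (.g 10) (.mul (.pp [(1,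
 275565)]) (.sq [(1, -14), (2, -7), (3, -10), (5, 7), (7, 100)]))) (.add (.mul (.g 12) (.mul (.pp
 [(1, 290025)]) (.sq [(1, -100), (2, 16), (3, 62), (5, 93), (7, 93)]))) (.mul (.g 19) (.mul (.pp
 [(1, 437715)]) (.sq [(1, -100), (2, 37), (3, 19), (5, 60), (7, 60)])))))))))) (.add (.mul (.g 11)
 (.add (.add (.mul (.pp [(1, 353130)]) (.sq [(1, -3), (2, 80), (3, 100), (5, -76), (7, -8)])) (.mul
 (.g 3) (.add (.mul (.g 4) (.add (.pp [(1, 20945700000)]) (.add (.mul (.g 12) (.pp [(1,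
 211200000)])) (.mul (.g 16) (.pp [(1, 1180800000)]))))) (.mul (.g 6) (.mul (.g 11) (.pp [(1,
 306000)])))))) (.add (.mul (.g 15) (.add (.mul (.g 11) (.add (.mul (.g 16) (.pp [(1, 59760000)]))
 (.mul (.g 17) (.pp [(1, 540390000)])))) (.mul (.g 4) (.pp [(1, 935445000)])))) (.add (.mul (.g 6)
 (.mul (.g 6) (.pp [(1, 1906020)]))) (.mul (.g 17) (.mul (.pp [(1, 343860)]) (.sq [(1, 19), (2,
 -19), (3, -50), (5, -21), (7, 34)]))))))) (.add (.mul (.g 6) (.add (.add (.mul (.g 6) (.add (.pp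
 [(1, 1095840)]) (.add (.mul (.g 7) (.mul (.g 9) (.pp [(1, 4728)]))) (.mul (.g 8) (.pp [(1,
 14006040)]))))) (.mul (.g 4) (.add (.mul (.g 8) (.pp [(1, 1377498000)])) (.mul (.g 10) (.mul (.g
 10) (.pp [(1, 79443000)])))))) (.add (.mul (.g 3) (.mul (.g 3) (.mul (.g 3) (.pp [(1,
 756240000)])))) (.mul (.g 8) (.mul (.g 8) (.mul (.g 8) (.pp [(1, 757638000)]))))))) (.mul (.g 17)
 (.add (.add (.mul (.g 9) (.mul (.pp [(1, 576240)]) (.sq [(1, -50), (2, -57), (3, -33), (5, 100),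
 (7, -9)]))) (.mul (.g 12) (.mul (.pp [(1, 147390)]) (.sq [(1, 10), (2, -9), (3, 99), (5, 3), (7,
 -100)])))) (.add (.mul (.g 13) (.mul (.pp [(1, 3546600)]) (.sq [(1, 8), (2, 12), (3, 50), (5,
 -36), (7, -9)]))) (.mul (.g 17) (.mul (.pp [(1, 880035)]) (.sq [(2, -7), (3, 98), (7,
 -100)]))))))))) (.add (.add (.mul (.g 4) (.mul (.g 4) (.add (.pp [(1, 30111750000)]) (.add (.mul
 (.g 9) (.pp [(1, 57946350000)])) (.mul (.g 10) (.mul (.g 10) (.pp [(1, 34846950000)]))))))) (.add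
 (.mul (.g 13) (.add (.mul (.g 12) (.mul (.pp [(1, 1575)]) (.sq [(1, -100), (2, 60), (3, 89), (5,
 84), (7, 84)]))) (.mul (.g 13) (.mul (.pp [(1, 85575)]) (.sq [(1, 4), (2, 7), (3, 100), (5, -41),
 (7, -21)]))))) (.mul (.g 0) (.pp [(1, 30000000)])))) (.add (.add (.mul (.g 1) (.pp [(1,
 50000000000)])) (.mul (.g 2) (.pp [(1, 50000000000)]))) (.add (.mul (.g 8) (.mul (.pp [(1,
 464895)]) (.sq [(1, -25), (2, 92), (3, 100), (5, -54), (7, 32)]))) (.mul (.g 18) (.pp [(1,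
 50000000000)])))))) (.pp [(1, 157704330), (2, 1472376), (3, 1392264), (4, 1347255), (5, 1416204),
 (6, 1640595), (7, 1417830), (8, 1621335), (9, 1485375), (10, 1588830), (12, 1713450), (14,
 1527435), (15, 1831140), (16, 1476825), (18, 1386510), (20, 1547745), (21, 1704090), (23,
 150000000000), (24, 1509375), (25, 1510515), (27, 1589240), (28, 1708620), (30, 1045920), (35,
 1776120), (36, 1495665), (40, 1434210), (42, 1477560), (45, 1259685), (49, 1414035), (50,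
 1465275), (54, 1593735), (56, 1512075), (60, 1339275), (63, 1581795), (70, 1557150), (75,
 1558830), (81, 1434885), (84, 1443330), (90, 1536165), (98, 1400115), (100, 1466895), (105,
 514410), (125, 1414575), (126, 1543770), (135, 1506660), (140, 1363995), (147, 1643220), (150,
 1930515), (175, 1510800), (189, 1494570), (196, 1473390), (210, 1533990), (225, 1495185), (245,
 1451640), (250, 1439490), (294, 1522935), (315, 1644510), (343, 1545900), (350, 1530735), (375,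
 1480935), (441, 1541910), (490, 1513380), (525, 1711800), (625, 1554825), (686, 1469175), (735,
 1583490), (875, 1537995), (1029, 1561800), (1225, 1421745), (1715, 1604160), (2401,
 1476000)])))))))
 (.split [(2, 1), (5, -1)]
 (.rule 1 (.rule 2 (.rule 7 (.leaf 300000000 (.add (.add (.add (.add (.mul (.g 11) (.add (.add
 (.mul (.g 9) (.add (.add (.mul (.g 11) (.add (.mul (.g 9) (.pp [(1, 207612000000)])) (.add (.mul
 (.g 12) (.pp [(1, 205122000000)])) (.mul (.g 16) (.pp [(1, 65727000000)]))))) (.mul (.g 3) (.add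
 (.mul (.g 6) (.pp [(1, 1622160000)])) (.mul (.g 9) (.pp [(1, 270447000000)]))))) (.add (.mul (.g
 15) (.add (.mul (.g 8) (.pp [(1, 30627000000)])) (.mul (.g 12) (.pp [(1, 5936100000)])))) (.mul
 (.g 4) (.mul (.g 10) (.pp [(1, 283554000000)])))))) (.add (.mul (.g 4) (.add (.mul (.g 8) (.add
 (.mul (.g 13) (.pp [(1, 1319925000000)])) (.mul (.g 14) (.pp [(1, 1470921000000)])))) (.add (.mul
 (.g 11) (.add (.mul (.g 10) (.pp [(1, 86844000000)])) (.mul (.g 11) (.pp [(1, 30957000000)]))))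
 (.mul (.g 3) (.mul (.g 13) (.pp [(1, 101886000000)])))))) (.mul (.g 19) (.add (.add (.mul (.pp
 [(1, 4500)]) (.sq [(1, 100), (2, 81), (3, 81), (5, 81), (7, 81)])) (.mul (.g 3) (.mul (.g 13) (.pp
 [(1, 89223000000)])))) (.add (.mul (.g 8) (.pp [(1, 1112904000000)])) (.add (.mul (.g 10) (.mul
 (.g 15) (.pp [(1, 262650000)]))) (.mul (.g 11) (.pp [(1, 340941000000)])))))))) (.add (.add (.mul
 (.g 3) (.add (.mul (.g 7) (.mul (.g 8) (.pp [(1, 62028600000)]))) (.mul (.g 16) (.mul (.g 17) (.pp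
 [(1, 151062000000)]))))) (.mul (.g 11) (.add (.pp [(1, 170325000000)]) (.mul (.g 11) (.mul (.g 15)
 (.pp [(1, 1337100000)])))))) (.add (.mul (.g 7) (.mul (.g 8) (.mul (.g 14) (.pp [(1,
 194074800000)])))) (.mul (.g 15) (.mul (.pp [(1, 81540)]) (.sq [(1, 29), (2, -22), (3, -14), (7,
 100)]))))))) (.add (.mul (.g 10) (.add (.add (.mul (.g 7) (.add (.mul (.g 8) (.add (.mul (.g 8)
 (.pp [(1, 46019400000)])) (.mul (.g 14) (.pp [(1, 29826600000)])))) (.mul (.g 9) (.add (.mul (.g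
 7) (.pp [(1, 882240000)])) (.mul (.g 15) (.pp [(1, 698820000)])))))) (.mul (.g 10) (.mul (.g 10)
 (.add (.add (.mul (.g 10) (.pp [(1, 621276000000)])) (.mul (.g 12) (.pp [(1, 17160000000)])))
 (.add (.mul (.g 17) (.pp [(1, 620832000000)])) (.mul (.g 19) (.pp [(1, 5622000000)]))))))) (.add
 (.mul (.g 4) (.mul (.g 4) (.add (.mul (.g 4) (.pp [(1, 1764000000)])) (.add (.mul (.g 9) (.pp [(1,
 223683000000)])) (.mul (.g 16) (.pp [(1, 102813000000)])))))) (.add (.mul (.g 3) (.add (.mul (.g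
 3) (.pp [(1, 116391000000)])) (.mul (.g 8) (.pp [(1, 147237000000)])))) (.mul (.g 5) (.mul (.g 8)
 (.mul (.g 8) (.pp [(1, 198480000)])))))))) (.mul (.g 19) (.add (.add (.mul (.g 8) (.add (.mul (.g
 8) (.add (.pp [(1, 156816000000)]) (.mul (.g 8) (.pp [(1, 65256000000)])))) (.mul (.g 3) (.mul (.g
 9) (.pp [(1, 61455000000)]))))) (.add (.mul (.g 15) (.add (.pp [(1, 6990600000)]) (.mul (.pp [(1,
 370185)]) (.sq [(1, -21), (2, 64), (3, 25), (5, -35), (7, 100)])))) (.mul (.g 4) (.pp [(1,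
 711768000000)])))) (.add (.add (.mul (.g 5) (.mul (.pp [(1, 4846464)]) (.sq [(1, -25), (2, 11),
 (3, 16), (5, 11), (7, 16)]))) (.mul (.g 6) (.mul (.pp [(1, 1644)]) (.sq [(1, -19), (2, 3), (3,
 79), (5, -69), (7, 100)])))) (.add (.mul (.g 16) (.mul (.pp [(1, 4659900)]) (.sq [(1, 13), (2,
 77), (3, -100), (5, 90), (7, 14)]))) (.mul (.g 19) (.pp [(1, 289200000000)])))))))) (.add (.add
 (.mul (.g 3) (.add (.add (.pp [(1, 311667000000)]) (.mul (.g 3) (.add (.pp [(1, 158820000000)])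
 (.mul (.g 14) (.pp [(1, 257490000000)]))))) (.add (.mul (.g 9) (.add (.pp [(1, 1598550000000)])
 (.mul (.pp [(1, 2080500)]) (.sq [(1, -24), (2, -73), (3, -33), (5, 52), (7, 100)])))) (.add (.mul
 (.g 8) (.pp [(1, 606783000000)])) (.mul (.g 14) (.mul (.pp [(1, 3308700)]) (.sq [(1, 51), (2, 18),
 (3, 100), (5, -12)]))))))) (.mul (.g 4) (.add (.mul (.g 4) (.add (.pp [(1, 195504000000)]) (.mul
 (.pp [(1, 778200)]) (.sq [(1, 44), (2, 100), (3, 16), (5, 73), (7, 45)])))) (.mul (.g 15) (.add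
 (.pp [(1, 86541450000)]) (.mul (.pp [(1, 27120)]) (.sq [(1, 15), (2, 32), (3, -50), (5,
 49)]))))))) (.add (.mul (.g 7) (.mul (.g 7) (.add (.mul (.pp [(1, 2820)]) (.sq [(1, 85), (2, 100),
 (3, 86), (5, 81), (7, 36)])) (.mul (.g 6) (.add (.pp [(1, 72655200)]) (.mul (.g 7) (.pp [(1,
 6778080)]))))))) (.mul (.g 8) (.add (.mul (.g 8) (.mul (.g 8) (.add (.mul (.g 9) (.pp [(1,
 338739000000)])) (.mul (.g 16) (.pp [(1, 289173000000)]))))) (.mul (.g 5) (.mul (.g 15) (.pp [(1,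
 3526398000)])))))))) (.add (.add (.add (.mul (.g 12) (.add (.mul (.g 13) (.mul (.pp [(1,
 2026200)]) (.sq [(1, 100), (2, -60), (3, -84), (5, -89), (7, -84)]))) (.mul (.g 16) (.mul (.pp
 [(1, 1870080000)]) (.sq [(1, -4), (2, 2), (3, 5), (5, 4), (7, 5)]))))) (.mul (.g 0) (.pp [(1,
 600000000)]))) (.add (.mul (.g 1) (.pp [(1, 1000000000000)])) (.mul (.g 2) (.pp [(1,
 1000000000000)])))) (.add (.add (.mul (.g 5) (.mul (.g 15) (.pp [(1, 706938000)]))) (.mul (.g 9)
 (.mul (.g 13) (.mul (.pp [(1, 1333500)]) (.sq [(1, -27), (2, -70), (3, -30), (5, 48), (7,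
 100)]))))) (.add (.mul (.g 14) (.mul (.g 16) (.mul (.pp [(1, 27300)]) (.sq [(1, -29), (2, -66),
 (3, -6), (5, 50), (7, 100)])))) (.mul (.g 18) (.pp [(1, 1000000000000)])))))) (.pp [(1,
 23860813773), (2, 24828168), (3, 32717781), (4, 30815364), (5, 32470326), (6, 37414248), (7,
 31578507), (8, 27365280), (9, 30620811), (10, 35142792), (12, 29047356), (14, 38394396), (15,
 27468972), (16, 28921200), (18, 31836684), (20, 27792720), (21, 30044130), (23, 3000000000000),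
 (24, 33423900), (25, 29804085), (27, 27837975), (28, 26396676), (30, 30536088), (35, 30312438),
 (36, 26140500), (40, 28831200), (42, 28299120), (45, 30780042), (49, 28323192), (50, 29064420),
 (54, 28885800), (56, 30048000), (60, 34654500), (63, 30844791), (70, 24176808), (75, 27496215),
 (81, 28818300), (84, 28028400), (90, 30132000), (98, 23815176), (100, 30538800), (105, 27626718),
 (125, 27452500), (126, 27280500), (135, 26139600), (140, 27142800), (147, 35221584), (150,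
 31672500), (175, 30607335), (189, 25286400), (196, 30656700), (210, 38875200), (225, 27835800),
 (245, 30991776), (250, 30508200), (294, 30656400), (315, 32098500), (343, 30297228), (350,
 31041900), (375, 30555300), (441, 21230100), (490, 27078600), (525, 28879800), (625, 32452800),
 (686, 29049000), (735, 29521200), (875, 30978900), (1029, 27233100), (1225, 30741300), (1715,
 28679400), (2401, 29524500)]))))))
 (.rule 1 (.rule 3 (.rule 7 (.leaf 300000000 (.add (.add (.add (.add (.mul (.g 5) (.add (.add (.mul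
 (.pp [(1, 580092)]) (.sq [(1, -43), (2, 46), (3, -20), (5, -35), (7, 100)])) (.mul (.g 8) (.add
 (.add (.pp [(1, 9758160000)]) (.mul (.g 11) (.add (.add (.pp [(1, 8947440000)]) (.mul (.g 3) (.pp
 [(1, 938160000)]))) (.add (.mul (.g 6) (.pp [(1, 541118400)])) (.add (.mul (.g 8) (.pp [(1,
 4479000000)])) (.mul (.g 11) (.pp [(1, 6231360000)]))))))) (.add (.mul (.g 8) (.add (.mul (.g 4)
 (.pp [(1, 684120000)])) (.add (.mul (.g 8) (.pp [(1, 6161040000)])) (.mul (.g 19) (.pp [(1,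
 4553880000)]))))) (.add (.mul (.g 10) (.add (.mul (.g 5) (.pp [(1, 637488000)])) (.mul (.g 10)
 (.pp [(1, 15698520000)])))) (.mul (.g 9) (.mul (.g 9) (.pp [(1, 11267520000)])))))))) (.add (.mul
 (.g 5) (.add (.add (.pp [(1, 31713600)]) (.mul (.g 10) (.add (.mul (.g 4) (.pp [(1, 24633600)]))
 (.mul (.g 19) (.pp [(1, 3182400)]))))) (.add (.mul (.g 5) (.mul (.g 13) (.pp [(1, 138048)])))
 (.add (.mul (.g 12) (.mul (.g 19) (.pp [(1, 66009600)]))) (.mul (.g 15) (.pp [(1, 4723680)]))))))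
 (.add (.mul (.g 6) (.add (.mul (.g 6) (.add (.pp [(1, 12730752)]) (.add (.mul (.g 4) (.pp [(1,
 6152592)])) (.mul (.g 14) (.pp [(1, 456096)]))))) (.mul (.g 9) (.pp [(1, 602659200)])))) (.mul (.g
 19) (.add (.mul (.g 12) (.mul (.g 19) (.pp [(1, 6430080000)]))) (.mul (.g 15) (.pp [(1,
 43890000)])))))))) (.add (.mul (.g 4) (.add (.add (.mul (.g 4) (.add (.add (.mul (.pp [(1,
 1059000)]) (.sq [(1, -33), (2, 10), (3, -42), (5, -77), (7, 100)])) (.mul (.g 10) (.add (.add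
 (.mul (.g 6) (.pp [(1, 15610380000)])) (.mul (.g 8) (.pp [(1, 128418000000)]))) (.add (.mul (.g 9)
 (.pp [(1, 846927000000)])) (.mul (.g 10) (.pp [(1, 13032000000)])))))) (.add (.mul (.g 19) (.add
 (.mul (.g 14) (.pp [(1, 56616000000)])) (.mul (.g 16) (.pp [(1, 204579000000)])))) (.add (.mul (.g
 3) (.mul (.g 8) (.pp [(1, 457719000000)]))) (.mul (.g 4) (.mul (.g 9) (.pp [(1,
 244878000000)]))))))) (.mul (.g 6) (.add (.mul (.g 15) (.add (.mul (.g 7) (.pp [(1, 123025800)]))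
 (.mul (.g 16) (.pp [(1, 3444000)])))) (.mul (.g 3) (.mul (.g 12) (.pp [(1, 5530380000)]))))))
 (.add (.mul (.g 19) (.add (.mul (.pp [(1, 1626000)]) (.sq [(1, -47), (2, -4), (3, 10), (5, -24),
 (7, 100)])) (.mul (.g 12) (.mul (.g 19) (.pp [(1, 32049000000)]))))) (.mul (.g 11) (.mul (.pp [(1,
 353100)]) (.sq [(1, -6), (2, -60), (3, 100), (5, 56), (7, -83)])))))) (.mul (.g 19) (.add (.add
 (.add (.mul (.pp [(1, 19310400)]) (.sq [(1, -49), (2, 100), (3, 55), (5, -38), (7, 87)])) (.mul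
 (.pp [(1, 107652600)]) (.sq [(1, -10), (2, 100), (3, -22), (5, -11), (7, 29)]))) (.add (.mul (.pp
 [(1, 10980300)]) (.sq [(1, -39), (2, 53), (3, -69), (5, 35), (7, 100)])) (.add (.mul (.g 13) (.add
 (.mul (.pp [(1, 3518400)]) (.sq [(1, 5), (2, -20), (3, 50), (5, -19), (7, -39)])) (.mul (.pp [(1,
 547500)]) (.sq [(1, -24), (2, 100), (3, 38), (5, -55), (7, 37)])))) (.mul (.g 7) (.mul (.pp [(1,
 3919500)]) (.sq [(1, -20), (2, 11), (3, 11), (5, 11), (7, 11)])))))) (.add (.add (.mul (.g 8)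
 (.mul (.pp [(1, 5980200)]) (.sq [(1, -18), (2, 100), (3, 38), (5, -47), (7, 28)]))) (.mul (.g 9)
 (.mul (.pp [(1, 6145200)]) (.sq [(1, 3), (2, 73), (3, 100), (5, -83), (7, -6)])))) (.add (.mul (.g
 10) (.mul (.pp [(1, 919800)]) (.sq [(1, -38), (2, 67), (3, -80), (5, 45), (7, 100)]))) (.add (.mul
 (.g 11) (.mul (.g 19) (.mul (.g 19) (.pp [(1, 30000000)])))) (.mul (.g 16) (.mul (.pp [(1,
 256800)]) (.sq [(1, -28), (2, 61), (3, -98), (5, 38), (7, 100)])))))))))) (.add (.mul (.g 8) (.add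
 (.mul (.pp [(1, 62864100)]) (.sq [(1, -20), (2, 100), (3, 56), (5, -35), (7, -6)])) (.add (.mul
 (.g 6) (.add (.mul (.g 6) (.add (.add (.mul (.g 6) (.pp [(1, 1335792)])) (.mul (.g 8) (.pp [(1,
 33505200)]))) (.add (.mul (.g 10) (.pp [(1, 165547200)])) (.mul (.g 11) (.pp [(1, 143158800)])))))
 (.mul (.g 11) (.mul (.g 11) (.pp [(1, 250800000)]))))) (.mul (.g 8) (.mul (.g 8) (.mul (.g 13)
 (.pp [(1, 460371000000)]))))))) (.add (.mul (.g 16) (.add (.add (.mul (.g 7) (.mul (.pp [(1,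
 5417040)]) (.sq [(1, -4), (2, -63), (3, 100), (5, -20), (7, -22)]))) (.mul (.g 10) (.mul (.pp [(1,
 72965700)]) (.sq [(1, 11), (2, 100), (3, -86), (5, 4), (7, -11)])))) (.add (.mul (.g 12) (.mul
 (.pp [(1, 3036300)]) (.sq [(1, 19), (2, 100), (3, -99), (5, -6), (7, -8)]))) (.add (.mul (.g 14)
 (.mul (.pp [(1, 1533600)]) (.sq [(1, -46), (2, -19), (3, 100), (5, 11), (7, 17)]))) (.mul (.g 15)
 (.mul (.pp [(1, 22650)]) (.sq [(1, -47), (2, 100), (3, -3), (5, -23), (7, 86)]))))))) (.mul (.g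
 14) (.add (.mul (.pp [(1, 20306400)]) (.sq [(1, -57), (2, 100), (3, 2), (5, -3), (7, 93)])) (.add
 (.mul (.g 13) (.mul (.pp [(1, 1413000)]) (.sq [(1, 9), (2, 100), (3, -31), (5, -45), (7, 44)])))
 (.mul (.g 14) (.mul (.pp [(1, 1686900)]) (.sq [(1, -60), (2, 82), (3, 100), (5, -20), (7,
 81)]))))))))) (.add (.add (.mul (.g 11) (.add (.mul (.pp [(1, 2660700)]) (.sq [(1, -32), (2, -66),
 (3, 100), (5, -19), (7, 58)])) (.mul (.g 15) (.mul (.pp [(1, 29595)]) (.sq [(2, -37), (3, 100),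
 (5, 36), (7, -72)]))))) (.add (.mul (.g 0) (.pp [(1, 600000000)])) (.mul (.g 1) (.pp [(1,
 1000000000000)])))) (.add (.add (.mul (.g 2) (.pp [(1, 1000000000000)])) (.mul (.g 12) (.mul (.pp
 [(1, 1360500)]) (.sq [(1, -50), (2, 100), (3, -17), (5, -23), (7, 98)])))) (.add (.mul (.g 13)
 (.mul (.pp [(1, 14007900)]) (.sq [(1, -19), (2, 100), (3, 80), (5, -57), (7, 4)]))) (.mul (.g 18)
 (.pp [(1, 1000000000000)])))))) (.pp [(1, 728581434), (2, 34231440), (3, 36049110), (4, 21793296),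
 (5, 31235616), (6, 22798740), (7, 36525780), (8, 33421600), (9, 22189350), (10, 32943480), (12,
 30699180), (14, 18236160), (15, 24953700), (16, 29384400), (18, 35559600), (20, 26818200), (21,
 21485520), (23, 3000000000000), (24, 26745600), (25, 26508450), (27, 33378750), (28, 37815195),
 (30, 41043600), (35, 25687800), (36, 39668700), (40, 29323200), (42, 33729240), (45, 32844900),
 (49, 24238320), (50, 30636000), (54, 23097300), (56, 31435500), (60, 34631400), (63, 38376600),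
 (70, 32017680), (75, 33571950), (81, 31299300), (84, 25870200), (90, 19737000), (98, 34810140),
 (100, 30974400), (105, 32893200), (125, 33173100), (126, 34963200), (135, 28563600), (140,
 29504700), (147, 33791280), (150, 27187500), (175, 34740480), (189, 26568300), (196, 29460300),
 (210, 27529200), (225, 30904200), (245, 34082280), (250, 28902000), (294, 31517100), (315,
 26388600), (343, 31236120), (350, 29639700), (375, 27918900), (441, 28549500), (490, 27868800),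
 (525, 27739200), (625, 29565000), (686, 30406200), (735, 30246000), (875, 28238700), (1029,
 30000300), (1225, 28482900), (1715, 28576500), (2401, 30000000)])))))))))
 (.rule 5 (.cut 450 [(2, -1), (5, 1)] (.add (.mul (.g 9) (.pp [(1, 310)])) (.add (.mul (.g 10) (.pp
 [(1, 7)])) (.mul (.g 1) (.pp [(1, 9)])))) (.rule 3 (.leaf 15000000 (.add (.add (.add (.add (.mul
 (.pp [(1, 252540)]) (.sq [(1, 28), (2, 100), (3, -39), (5, -38), (7, -13)])) (.add (.mul (.g 5)
 (.add (.add (.mul (.g 5) (.add (.add (.mul (.g 5) (.add (.add (.pp [(1, 3755550000)]) (.mul (.g 6)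
 (.pp [(1, 35455650000)]))) (.add (.mul (.g 7) (.pp [(1, 3033600000)])) (.add (.mul (.g 9) (.pp
 [(1, 6421950000)])) (.mul (.g 16) (.pp [(1, 12134400000)])))))) (.mul (.g 16) (.add (.add (.pp
 [(1, 11786400000)]) (.mul (.g 4) (.pp [(1, 82230000)]))) (.add (.mul (.g 7) (.pp [(1,
 2142450000)])) (.mul (.g 8) (.pp [(1, 1526400000)])))))) (.add (.mul (.g 6) (.mul (.g 14) (.pp
 [(1, 49725450000)]))) (.mul (.g 10) (.mul (.g 10) (.pp [(1, 832050000)])))))) (.mul (.g 8) (.add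
 (.mul (.g 14) (.add (.add (.pp [(1, 5878650000)]) (.mul (.g 6) (.pp [(1, 39892650000)]))) (.add
 (.mul (.g 8) (.pp [(1, 6891750000)])) (.add (.mul (.g 9) (.pp [(1, 535050000)])) (.mul (.g 14)
 (.pp [(1, 750000000)])))))) (.add (.mul (.g 8) (.add (.mul (.g 3) (.pp [(1, 81564000)])) (.add
 (.mul (.g 12) (.pp [(1, 218212500)])) (.mul (.g 16) (.pp [(1, 780750000)]))))) (.mul (.g 3) (.mul
 (.g 6) (.pp [(1, 930000)]))))))) (.add (.mul (.g 3) (.add (.mul (.g 7) (.add (.mul (.g 6) (.pp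
 [(1, 745092000)])) (.add (.mul (.g 9) (.pp [(1, 977364000)])) (.mul (.g 16) (.pp [(1,
 708615000)]))))) (.add (.mul (.g 9) (.mul (.g 9) (.pp [(1, 531774000)]))) (.mul (.g 11) (.pp [(1,
 1152963000)]))))) (.mul (.g 10) (.add (.mul (.g 16) (.add (.pp [(1, 3708000000)]) (.mul (.g 7)
 (.pp [(1, 277500000)])))) (.add (.mul (.g 6) (.pp [(1, 17867700000)])) (.mul (.g 11) (.mul (.g 11)
 (.pp [(1, 126750000)]))))))))) (.mul (.g 8) (.add (.mul (.g 6) (.add (.mul (.g 3) (.add (.mul (.g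
 7) (.pp [(1, 227973000)])) (.add (.mul (.g 11) (.pp [(1, 213000)])) (.mul (.g 14) (.pp [(1,
 110283000)]))))) (.add (.mul (.g 8) (.add (.mul (.g 6) (.pp [(1, 474300000)])) (.add (.mul (.g 8)
 (.pp [(1, 458400000)])) (.mul (.g 14) (.pp [(1, 3876150000)]))))) (.mul (.g 4) (.mul (.g 14) (.pp
 [(1, 894240000)])))))) (.add (.mul (.g 8) (.add (.mul (.g 8) (.add (.mul (.g 8) (.pp [(1,
 456900000)])) (.add (.mul (.g 12) (.pp [(1, 3855000)])) (.mul (.g 16) (.pp [(1, 458400000)])))))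
 (.mul (.g 12) (.mul (.g 13) (.pp [(1, 33195000)]))))) (.mul (.g 3) (.mul (.g 7) (.add (.mul (.g
 10) (.pp [(1, 393000)])) (.add (.mul (.g 13) (.pp [(1, 6735000)])) (.mul (.g 16) (.pp [(1,
 87042000)]))))))))))) (.add (.mul (.g 9) (.add (.add (.mul (.g 14) (.add (.mul (.pp [(1, 502575)])
 (.sq [(1, 43), (2, -100), (5, 28), (7, -69)])) (.add (.mul (.g 16) (.add (.mul (.g 9) (.pp [(1,
 1854750000)])) (.mul (.g 16) (.pp [(1, 1731150000)])))) (.mul (.g 7) (.mul (.g 14) (.pp [(1,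
 187350000)])))))) (.add (.mul (.g 3) (.mul (.g 6) (.mul (.g 10) (.pp [(1, 2820000)])))) (.mul (.g
 9) (.mul (.pp [(1, 246870)]) (.sq [(1, -5), (2, 100), (5, -37), (7, 39)]))))) (.add (.mul (.g 11)
 (.mul (.pp [(1, 283800)]) (.sq [(1, -15), (2, 100), (3, -16), (5, -19), (7, 32)]))) (.add (.mul
 (.g 13) (.mul (.pp [(1, 2125440)]) (.sq [(1, -11), (2, 25), (3, 1), (7, 18)]))) (.mul (.g 16)
 (.mul (.pp [(1, 809385)]) (.sq [(1, -10), (2, 100), (3, -19), (5, -22), (7, 31)]))))))) (.add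
 (.mul (.g 7) (.add (.add (.mul (.pp [(1, 213960)]) (.sq [(1, 30), (2, 100), (3, -40), (5, -37),
 (7, -22)])) (.mul (.g 3) (.add (.mul (.g 10) (.add (.mul (.g 7) (.pp [(1, 32730000)])) (.mul (.g
 13) (.pp [(1, 1971000)])))) (.mul (.g 3) (.mul (.g 16) (.pp [(1, 1310160)])))))) (.add (.mul (.g
 12) (.add (.mul (.pp [(1, 204)]) (.sq [(2, 100), (3, -23), (5, -38), (7, 46)])) (.mul (.g 6) (.mul
 (.g 14) (.pp [(1, 79747500)]))))) (.mul (.g 14) (.mul (.g 14) (.mul (.g 14) (.pp [(1,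
 17100000)]))))))) (.mul (.g 6) (.add (.mul (.g 6) (.add (.mul (.g 6) (.add (.pp [(1, 4645350000)])
 (.mul (.g 6) (.pp [(1, 54750000)])))) (.mul (.g 3) (.mul (.g 14) (.pp [(1, 66294000)]))))) (.mul
 (.g 3) (.mul (.g 3) (.pp [(1, 389760)])))))))) (.add (.add (.mul (.g 11) (.add (.mul (.g 11) (.mul
 (.pp [(1, 15480)]) (.sq [(1, -77), (2, 100), (3, -25), (5, 25), (7, 89)]))) (.mul (.g 16) (.mul
 (.pp [(1, 11130)]) (.sq [(1, -100), (2, 44), (3, -77), (5, 71), (7, 84)]))))) (.add (.mul (.g 14)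
 (.add (.mul (.pp [(1, 684870)]) (.sq [(1, -62), (3, -29), (5, 3), (7, 100)])) (.mul (.g 12) (.pp
 [(1, 58837500)])))) (.mul (.g 0) (.pp [(1, 50000000000)])))) (.add (.add (.mul (.g 2) (.pp [(1,
 50000000000)])) (.mul (.g 3) (.mul (.g 3) (.pp [(1, 2940)])))) (.add (.mul (.g 15) (.pp [(1,
 50000000000)])) (.mul (.g 16) (.mul (.pp [(1, 5450415)]) (.sq [(1, -24), (2, 100), (3, -20), (5,
 -15), (7, 56)]))))))) (.pp [(1, 94873095), (2, 1403415), (3, 1470360), (4, 1638330), (5, 1556175),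
 (6, 1344720), (7, 1432470), (8, 1441680), (9, 1543665), (10, 1488465), (12, 1214440), (14,
 1487910), (15, 1482180), (16, 1650000), (18, 1651255), (19, 150000000000), (20, 1071660), (21,
 1526970), (23, 150000000000), (24, 1162320), (25, 1455105), (27, 1590855), (28, 1483140), (30,
 1737480), (35, 1560630), (36, 1817760), (40, 1278000), (42, 1696350), (45, 1615224), (49,
 1479690), (50, 1780890), (54, 1432725), (56, 1552320), (60, 2183040), (63, 1519455), (70,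
 1512390), (75, 1530453), (81, 1564770), (84, 1426800), (90, 1252440), (98, 1496340), (100,
 1780170), (105, 1413744), (125, 1422444), (126, 1518495), (135, 1386030), (140, 1542060), (147,
 1644375), (150, 1151610), (175, 1528419), (189, 1548090), (196, 1472490), (210, 1469100), (225,
 1470750), (245, 1505091), (250, 1382520), (294, 1356705), (315, 1444590), (343, 1615425), (350,
 1468890), (375, 1532970), (441, 1538520), (490, 1584525), (525, 1530510), (625, 1533480), (686,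
 1497735), (735, 1396800), (875, 1484010), (1029, 1433280), (1225, 1508280), (1715, 1433280),
 (2401, 1500000)]))))))))
 (P_Tp0 ++ xP_A_T6) = true := by decide +kernel

theorem t_G_F3_c3 : chk ROp gP_G_F3
 (.cut 1 [(2, -1), (3, 1)] (.add (.mul (.g 9) (.pp [(1, 1)])) (.mul (.g 4) (.pp [(1, 1)]))) (.rule
 1 (.cut 1 [(2, 1), (5, -1)] (.add (.mul (.g 10) (.pp [(1, 1)])) (.mul (.g 1) (.pp [(1, 1)])))
 (.rule 2 (.cut 11 [(1, -69), (3, 100)] (.add (.mul (.g 1) (.pp [(1, 620)])) (.add (.mul (.g 11)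
 (.pp [(1, 31)])) (.mul (.g 13) (.pp [(1, 480)])))) (.cut 1 [(1, 3), (3, -2)] (.add (.add (.mul (.g
 10) (.pp [(1, 1)])) (.mul (.g 16) (.pp [(1, 1)]))) (.add (.mul (.g 7) (.pp [(1, 1)])) (.add (.mul
 (.g 8) (.pp [(1, 1)])) (.mul (.g 9) (.pp [(1, 1)]))))) (.rule 8 (.rule 15 (.leaf 165000000 (.add
 (.add (.add (.add (.mul (.g 19) (.add (.add (.add (.mul (.g 9) (.add (.add (.pp [(1,
 7412610150000)]) (.add (.mul (.g 8) (.add (.mul (.g 11) (.pp [(1, 1016914800000)])) (.mul (.g 16)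
 (.pp [(1, 808683975000)])))) (.mul (.g 20) (.add (.mul (.g 9) (.pp [(1, 489093000000)])) (.mul (.g
 20) (.pp [(1, 1453890900000)])))))) (.add (.mul (.g 10) (.mul (.g 19) (.pp [(1, 872968800000)])))
 (.add (.mul (.g 11) (.mul (.g 14) (.pp [(1, 1018998750000)]))) (.mul (.g 12) (.mul (.g 16) (.pp
 [(1, 1094269275000)]))))))) (.mul (.g 11) (.add (.add (.mul (.pp [(1, 3304455)]) (.sq [(1, -52),
 (2, -3), (3, -15), (5, -4), (7, 100)])) (.mul (.g 12) (.add (.mul (.g 8) (.pp [(1,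
 1088483550000)])) (.mul (.g 17) (.pp [(1, 1033901550000)]))))) (.add (.mul (.g 10) (.mul (.g 10)
 (.pp [(1, 93564900000)]))) (.mul (.g 19) (.mul (.g 19) (.pp [(1, 18597150000)]))))))) (.add (.mul
 (.g 10) (.add (.pp [(1, 1947026400000)]) (.add (.mul (.pp [(1, 7917525)]) (.sq [(1, 38), (3, -83),
 (5, 100), (7, -57)])) (.mul (.g 10) (.mul (.g 14) (.pp [(1, 218258700000)])))))) (.mul (.g 16)
 (.add (.mul (.pp [(1, 1359435)]) (.sq [(1, 23), (2, 77), (3, 100), (5, -43), (7, 55)])) (.add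
 (.mul (.g 13) (.mul (.g 14) (.pp [(1, 69589575000)]))) (.mul (.g 15) (.mul (.g 16) (.pp [(1,
 126101250)])))))))) (.add (.add (.mul (.g 8) (.add (.pp [(1, 48399450000)]) (.mul (.pp [(1,
 27384720)]) (.sq [(1, 38), (2, 39), (3, 50), (5, 50), (7, 19)])))) (.mul (.g 19) (.add (.mul (.pp
 [(1, 30707160)]) (.sq [(1, -50), (2, 33), (3, 7), (5, 7), (7, 41)])) (.mul (.pp [(1, 729135)])
 (.sq [(1, 72), (2, -97), (3, -53), (5, 100), (7, 3)]))))) (.add (.mul (.g 13) (.mul (.pp [(1,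
 5255745)]) (.sq [(1, 41), (2, -8), (3, 57), (5, 100), (7, 13)]))) (.mul (.g 17) (.mul (.pp [(1,
 4673790)]) (.sq [(1, -4), (2, 72), (3, 99), (5, -99), (7, 100)]))))))) (.add (.mul (.g 11) (.add
 (.add (.mul (.g 9) (.add (.mul (.g 10) (.add (.mul (.g 10) (.pp [(1, 1534044600000)])) (.add (.mul
 (.g 11) (.pp [(1, 232176450000)])) (.mul (.g 16) (.pp [(1, 8225465325000)]))))) (.add (.mul (.g
 12) (.add (.mul (.g 8) (.pp [(1, 16799549250000)])) (.add (.mul (.g 14) (.pp [(1,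
 6433716300000)])) (.mul (.g 15) (.pp [(1, 483668542500)]))))) (.mul (.g 8) (.mul (.g 14) (.pp [(1,
 441323850000)])))))) (.add (.mul (.g 17) (.add (.add (.mul (.pp [(1, 811148250)]) (.sq [(1, 41),
 (2, -59), (3, -48), (5, 100)])) (.mul (.g 8) (.mul (.g 8) (.pp [(1, 17286401550000)])))) (.add
 (.mul (.g 10) (.mul (.g 17) (.pp [(1, 11748793650000)]))) (.mul (.g 12) (.mul (.g 16) (.pp [(1,
 10163024025000)])))))) (.mul (.g 10) (.mul (.g 10) (.add (.mul (.g 13) (.pp [(1, 7944027300000)]))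
 (.mul (.g 14) (.pp [(1, 8446305450000)]))))))) (.add (.mul (.g 11) (.add (.pp [(1, 652146000000)])
 (.mul (.g 11) (.pp [(1, 59766300000)])))) (.add (.mul (.g 16) (.pp [(1, 7069421700000)])) (.mul
 (.g 20) (.pp [(1, 3794366400000)])))))) (.mul (.g 17) (.add (.add (.pp [(1, 278501850000)]) (.add
 (.mul (.g 10) (.add (.pp [(1, 669522150000)]) (.add (.mul (.pp [(1, 89555895)]) (.sq [(1, 28), (2,
 -18), (3, -24), (5, 73), (7, 100)])) (.mul (.g 12) (.mul (.g 20) (.pp [(1, 308810700000)]))))))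
 (.mul (.g 20) (.add (.mul (.pp [(1, 203190735)]) (.sq [(1, 24), (2, -19), (3, -66), (5, 66), (7,
 100)])) (.mul (.g 16) (.mul (.g 16) (.pp [(1, 24016575000)]))))))) (.add (.add (.mul (.g 9) (.pp
 [(1, 9555103800000)])) (.mul (.g 13) (.mul (.pp [(1, 17505180)]) (.sq [(1, 31), (2, -18), (3,
 -84), (5, 43), (7, 100)])))) (.add (.mul (.g 14) (.mul (.pp [(1, 120308760)]) (.sq [(1, 33), (2,
 -32), (3, -40), (5, 67), (7, 100)]))) (.mul (.g 17) (.mul (.pp [(1, 19649685)]) (.sq [(1, 11), (2,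
 -12), (3, 1), (5, 100), (7, 46)]))))))))) (.add (.add (.mul (.g 20) (.add (.add (.pp [(1,
 64044750000)]) (.mul (.g 10) (.add (.pp [(1, 563229150000)]) (.mul (.g 9) (.mul (.g 20) (.pp [(1,
 183036150000)])))))) (.add (.mul (.g 15) (.add (.mul (.pp [(1, 367521)]) (.sq [(1, 24), (2, 51),
 (3, 21), (5, 62), (7, 100)])) (.mul (.g 16) (.mul (.g 16) (.pp [(1, 722700000)]))))) (.add (.mul
 (.g 8) (.pp [(1, 5167800000)])) (.mul (.g 20) (.mul (.pp [(1, 5460840)]) (.sq [(1, 34), (2, -9),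
 (3, -100), (5, -58), (7, 89)]))))))) (.mul (.g 8) (.add (.add (.mul (.g 12) (.mul (.pp [(1,
 11262900)]) (.sq [(1, 25), (2, -41), (3, 72), (5, -84), (7, 100)]))) (.mul (.g 14) (.mul (.pp [(1,
 214995)]) (.sq [(1, 100), (2, 75), (3, -47), (5, -47), (7, -28)])))) (.add (.mul (.g 15) (.mul
 (.pp [(1, 247632)]) (.sq [(1, 100), (2, 81), (3, -56), (5, -56), (7, -28)]))) (.mul (.g 16) (.pp
 [(1, 41216175000)])))))) (.add (.mul (.g 13) (.add (.mul (.g 13) (.add (.mul (.pp [(1, 17010840)])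
 (.sq [(1, 100), (2, -43), (3, 28), (5, 28), (7, -28)])) (.mul (.pp [(1, 1098570)]) (.sq [(1, -27),
 (2, 63), (3, 35), (5, 100), (7, -62)])))) (.mul (.g 10) (.mul (.g 16) (.pp [(1, 65419200000)])))))
 (.mul (.g 9) (.add (.mul (.g 12) (.pp [(1, 1178538900000)])) (.mul (.g 16) (.mul (.g 16) (.pp [(1,
 38632687500)])))))))) (.add (.add (.mul (.g 0) (.pp [(1, 50000000000)])) (.add (.mul (.g 1) (.pp
 [(1, 165000000)])) (.mul (.g 4) (.pp [(1, 550000000000)])))) (.add (.add (.mul (.g 6) (.pp [(1,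
 550000000000)])) (.mul (.g 10) (.mul (.g 16) (.mul (.g 16) (.pp [(1, 223455375000)]))))) (.add
 (.mul (.g 12) (.mul (.g 12) (.mul (.pp [(1, 22251900)]) (.sq [(2, 6), (3, -47), (5, 72), (7,
 100)])))) (.mul (.g 18) (.pp [(1, 1100000000)])))))) (.pp [(1, 3595207204), (2, 15610337), (3,
 13896767), (4, 18173749), (5, 16380160), (6, 22101343), (7, 14031765), (8, 17889498), (9,
 18800859), (10, 15156394), (12, 14278154), (14, 19813695), (15, 13390124), (16, 17216925), (18,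
 11044363), (20, 16565835), (21, 22192830), (24, 14120205), (25, 17689012), (27, 15664440), (28,
 16059417), (30, 18057578), (35, 15547620), (36, 18459375), (40, 15744135), (42, 9792288), (45,
 20710811), (49, 18631470), (50, 12710412), (54, 16903920), (56, 15169110), (60, 17102910), (63,
 13357410), (70, 18337968), (75, 17025899), (81, 16996815), (84, 16667640), (90, 15458685), (98,
 11716947), (100, 17991435), (105, 19392450), (125, 18648454), (126, 19222005), (135, 15515940),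
 (140, 17024865), (147, 16426905), (150, 16567815), (175, 14615040), (189, 17676450), (196,
 17474820), (210, 16005660), (225, 16172145), (245, 17946555), (250, 16039485), (294, 17889795),
 (315, 12902010), (343, 16654935), (350, 18227880), (375, 15840990), (441, 15854355), (490,
 15425850), (525, 17197785), (625, 16550160), (686, 16795185), (735, 17712915), (875, 14539965),
 (1029, 15381960), (1225, 16660710), (1715, 16572105), (2401, 16401825)])))))))))))
 (P_c3 ++ xP_G_F3) = true := by decide +kernel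

theorem t_G_F3_free : chk RFp gP_G_F3
 (.split [(1, 1), (2, -20)]
 (.rule 4 (.leaf 6000 (.add (.add (.mul (.g 2) (.add (.add (.mul (.g 3) (.add (.add (.mul (.g 1)
 (.add (.add (.pp [(1, 1768017)]) (.mul (.g 2) (.pp [(1, 30)]))) (.add (.mul (.g 3) (.pp [(1,
 30)])) (.add (.mul (.g 4) (.pp [(1, 30)])) (.mul (.g 5) (.pp [(1, 173550)])))))) (.mul (.g 3)
 (.add (.add (.pp [(1, 29665800)]) (.mul (.g 5) (.pp [(1, 2388000)]))) (.add (.mul (.g 11) (.pp
 [(1, 600)])) (.mul (.g 12) (.pp [(1, 7779540)])))))) (.add (.mul (.g 5) (.add (.pp [(1,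
 34732920)]) (.add (.mul (.g 11) (.pp [(1, 4775400)])) (.mul (.g 12) (.pp [(1, 7778940)]))))) (.add
 (.mul (.g 9) (.pp [(1, 2610885)])) (.mul (.g 12) (.mul (.g 12) (.pp [(1, 600)]))))))) (.add (.mul
 (.g 4) (.add (.mul (.g 1) (.add (.add (.pp [(1, 108)]) (.mul (.g 2) (.pp [(1, 30)]))) (.add (.mul
 (.g 4) (.pp [(1, 60)])) (.mul (.g 5) (.pp [(1, 30)]))))) (.add (.mul (.g 11) (.add (.mul (.g 4)
 (.pp [(1, 600)])) (.add (.mul (.g 5) (.pp [(1, 7779540)])) (.mul (.g 11) (.pp [(1, 7778940)])))))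
 (.mul (.g 9) (.add (.pp [(1, 75)]) (.mul (.g 4) (.pp [(1, 30)]))))))) (.mul (.g 5) (.add (.mul (.g
 11) (.add (.pp [(1, 60980820)]) (.add (.mul (.g 6) (.pp [(1, 3470400)])) (.mul (.g 11) (.pp [(1,
 2387400)]))))) (.add (.mul (.g 2) (.add (.mul (.g 2) (.pp [(1, 9671400)])) (.mul (.g 5) (.pp [(1,
 39789000)])))) (.mul (.g 1) (.pp [(1, 2223612)]))))))) (.add (.mul (.g 2) (.add (.mul (.g 1) (.add
 (.pp [(1, 340788)]) (.mul (.g 2) (.pp [(1, 29130)])))) (.mul (.g 11) (.pp [(1, 9080280)])))) (.add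
 (.mul (.g 9) (.add (.pp [(1, 132)]) (.mul (.g 11) (.pp [(1, 388887)])))) (.mul (.g 11) (.mul (.g
 11) (.pp [(1, 6993420)]))))))) (.add (.mul (.g 0) (.pp [(1, 20000000)])) (.mul (.g 10) (.pp [(1,
 20000000)])))) (.pp [(2, 503409), (4, 552), (6, 621), (8, 630), (10, 657), (12, 630), (14, 591),
 (16, 600), (18, 570), (20, 630), (24, 600), (28, 660), (30, 510), (36, 600), (40, 600), (42, 630),
 (50, 570), (54, 600), (56, 600), (60, 600), (70, 570), (84, 600), (90, 600), (98, 600), (100,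
 600), (126, 600), (140, 600), (150, 600), (196, 600), (210, 600), (250, 600), (294, 600), (350,
 600), (490, 600), (686, 600)]))))
 (.split [(2, 1), (3, -1)]
 (.split [(2, 1), (5, -1)]
 (.rule 0 (.rule 2 (.leaf 60000000 (.add (.add (.add (.add (.mul (.g 14) (.add (.add (.mul (.g 8)
 (.add (.add (.add (.pp [(1, 3807600000)]) (.mul (.g 5) (.add (.add (.mul (.g 6) (.pp [(1,
 20990400000)])) (.mul (.g 8) (.pp [(1, 143597400000)]))) (.add (.mul (.g 14) (.pp [(1,
 166293600000)])) (.mul (.g 15) (.pp [(1, 167683800000)])))))) (.add (.mul (.g 3) (.add (.mul (.g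
 6) (.pp [(1, 7087800000)])) (.mul (.g 9) (.pp [(1, 258129600000)])))) (.mul (.g 14) (.add (.pp
 [(1, 40800000)]) (.mul (.g 15) (.pp [(1, 6000000)])))))) (.add (.add (.mul (.g 2) (.mul (.g 15)
 (.pp [(1, 22200000)]))) (.mul (.g 6) (.pp [(1, 258114000000)]))) (.add (.mul (.g 7) (.mul (.g 9)
 (.pp [(1, 8824800000)]))) (.mul (.g 8) (.mul (.g 8) (.pp [(1, 6000000)]))))))) (.add (.mul (.g 5)
 (.add (.add (.mul (.g 5) (.add (.mul (.g 7) (.pp [(1, 72304200000)])) (.add (.mul (.g 11) (.pp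
 [(1, 59074200000)])) (.mul (.g 15) (.pp [(1, 113922600000)]))))) (.mul (.g 2) (.add (.pp [(1,
 46928400000)]) (.mul (.g 11) (.pp [(1, 9091200000)]))))) (.add (.mul (.g 3) (.mul (.g 11) (.pp
 [(1, 39137400000)]))) (.mul (.g 7) (.mul (.g 15) (.pp [(1, 19626000000)])))))) (.mul (.g 6) (.add
 (.mul (.g 6) (.add (.mul (.g 2) (.pp [(1, 28119600000)])) (.mul (.g 6) (.pp [(1, 11723400000)]))))
 (.add (.mul (.g 7) (.add (.mul (.g 7) (.pp [(1, 21534600000)])) (.mul (.g 15) (.pp [(1,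
 44412000000)])))) (.mul (.g 3) (.mul (.g 14) (.pp [(1, 37931400000)])))))))) (.add (.add (.mul (.g
 3) (.pp [(1, 25276200000)])) (.mul (.g 4) (.mul (.g 12) (.pp [(1, 465303000)])))) (.add (.mul (.g
 7) (.mul (.g 7) (.mul (.g 7) (.pp [(1, 13960200000)])))) (.mul (.g 14) (.pp [(1,
 3940800000)])))))) (.mul (.g 2) (.add (.add (.mul (.g 2) (.add (.add (.pp [(1, 2556600000)]) (.mul
 (.g 7) (.add (.pp [(1, 159470400000)]) (.mul (.g 2) (.pp [(1, 3432000000)]))))) (.add (.mul (.g 5)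
 (.mul (.g 9) (.pp [(1, 6300600000)]))) (.mul (.g 11) (.pp [(1, 24388200000)]))))) (.mul (.g 8)
 (.add (.mul (.g 8) (.add (.mul (.g 4) (.pp [(1, 8565540000)])) (.add (.mul (.g 6) (.pp [(1,
 93560400000)])) (.mul (.g 7) (.pp [(1, 407400000)]))))) (.add (.mul (.g 5) (.mul (.g 9) (.pp [(1,
 35805600000)]))) (.mul (.g 6) (.mul (.g 15) (.pp [(1, 218037000000)]))))))) (.add (.mul (.g 6)
 (.mul (.g 6) (.add (.mul (.g 6) (.pp [(1, 34567200000)])) (.mul (.g 7) (.pp [(1, 7294200000)])))))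
 (.add (.mul (.g 15) (.add (.pp [(1, 18090000000)]) (.mul (.pp [(1, 175440)]) (.sq [(1, 20), (2,
 100), (3, -1), (5, 50), (7, -11)])))) (.mul (.g 5) (.mul (.g 5) (.mul (.g 9) (.pp [(1,
 32203200000)]))))))))) (.add (.mul (.g 8) (.add (.add (.mul (.g 11) (.add (.add (.pp [(1,
 175800000)]) (.mul (.g 5) (.mul (.g 15) (.pp [(1, 24492600000)])))) (.add (.mul (.g 6) (.mul (.g
 8) (.pp [(1, 92763000000)]))) (.mul (.g 7) (.mul (.g 7) (.pp [(1, 16659000000)])))))) (.mul (.g 4)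
 (.add (.mul (.pp [(1, 24531)]) (.sq [(1, -19), (2, 54), (3, -48), (5, 100), (7, -49)])) (.add
 (.mul (.g 7) (.mul (.g 7) (.pp [(1, 74280000)]))) (.mul (.g 9) (.mul (.g 15) (.pp [(1,
 157290000)]))))))) (.add (.mul (.g 6) (.add (.mul (.g 6) (.mul (.g 6) (.pp [(1, 27023400000)])))
 (.mul (.g 7) (.mul (.g 15) (.pp [(1, 250578600000)]))))) (.mul (.g 3) (.mul (.g 9) (.mul (.g 15)
 (.pp [(1, 20071800000)]))))))) (.add (.mul (.g 6) (.add (.add (.mul (.g 3) (.add (.mul (.pp [(1,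
 6767520)]) (.sq [(1, 29), (2, -30), (3, -55), (5, 9), (7, 100)])) (.mul (.g 7) (.mul (.g 7) (.pp
 [(1, 9765600000)]))))) (.mul (.g 6) (.add (.mul (.g 6) (.mul (.g 6) (.pp [(1, 50830200000)])))
 (.mul (.g 7) (.mul (.g 12) (.pp [(1, 1402920000)])))))) (.add (.mul (.g 5) (.mul (.g 12) (.pp [(1,
 11051220000)]))) (.mul (.g 9) (.pp [(1, 11748000000)]))))) (.mul (.g 11) (.add (.add (.mul (.g 5)
 (.add (.mul (.g 9) (.add (.mul (.g 5) (.pp [(1, 139116000000)])) (.mul (.g 9) (.pp [(1,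
 118276200000)])))) (.mul (.g 12) (.pp [(1, 9294090000)])))) (.mul (.g 3) (.mul (.g 3) (.pp [(1,
 38428800000)])))) (.add (.mul (.g 11) (.mul (.pp [(1, 392460)]) (.sq [(1, -7), (2, -48), (3, 78),
 (5, 100), (7, -32)]))) (.mul (.g 12) (.pp [(1, 878940000)])))))))) (.add (.add (.mul (.g 0) (.pp
 [(1, 200000000000)])) (.add (.mul (.g 1) (.pp [(1, 200000000000)])) (.mul (.g 3) (.mul (.g 3)
 (.mul (.pp [(1, 66024960)]) (.sq [(1, 25), (2, -19), (3, 16), (5, 8), (7, -9)])))))) (.add (.mul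
 (.g 5) (.mul (.g 5) (.mul (.g 5) (.mul (.g 9) (.pp [(1, 12901200000)]))))) (.add (.mul (.g 7)
 (.mul (.g 15) (.mul (.g 15) (.mul (.g 15) (.pp [(1, 937200000)]))))) (.mul (.g 13) (.pp [(1,
 200000000000)])))))) (.pp [(1, 246927000), (2, 5604000), (3, 5553000), (4, 6419460), (5, 6456000),
 (6, 6084360), (7, 5618691), (8, 5778880), (9, 5913780), (10, 5707080), (12, 5013360), (14,
 6132168), (15, 6181320), (16, 5961600), (18, 7510800), (20, 6486240), (21, 5804544), (24,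
 6624960), (25, 5273460), (27, 5209520), (28, 6062556), (30, 6274080), (35, 5958600), (36,
 4964880), (40, 5459520), (42, 6844896), (45, 5933520), (49, 6076722), (50, 6098880), (54,
 6816960), (56, 5978640), (60, 5862720), (63, 6145344), (70, 5847360), (75, 6127920), (81,
 6231600), (84, 5789760), (90, 6029040), (98, 6359268), (100, 6942720), (105, 5917920), (125,
 6764000), (126, 5940480), (135, 5936160), (140, 5748480), (147, 6193824), (150, 5694240), (175,
 5777520), (189, 6628800), (196, 6060240), (210, 6004320), (225, 6117600), (245, 5884440), (250,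
 5016000), (294, 5925120), (315, 5594880), (343, 6098931), (350, 6458880), (375, 6168000), (441,
 5899200), (490, 5662320), (525, 6188640), (625, 6000000), (686, 5821380), (735, 5641920), (875,
 5928000), (1029, 6000000), (1225, 6492720), (1715, 6000000), (2401, 6000000)])))))
 (.rule 0 (.rule 3 (.leaf 1200000000 (.add (.add (.add (.add (.mul (.g 14) (.add (.add (.add (.mul
 (.g 6) (.add (.add (.mul (.pp [(1, 30222000)]) (.sq [(1, -40), (2, 9), (3, -61), (5, 100), (7,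
 69)])) (.add (.mul (.pp [(1, 43628400)]) (.sq [(1, -64), (2, 8), (3, 72), (5, -33), (7, 100)]))
 (.mul (.g 8) (.add (.add (.mul (.g 3) (.pp [(1, 4484844000000)])) (.mul (.g 6) (.pp [(1,
 4748232000000)]))) (.add (.mul (.g 8) (.pp [(1, 2292012000000)])) (.mul (.g 14) (.pp [(1,
 3484656000000)]))))))) (.add (.add (.mul (.g 3) (.mul (.g 14) (.pp [(1, 906396000000)]))) (.mul
 (.g 4) (.mul (.g 4) (.pp [(1, 2241840000)])))) (.add (.mul (.g 6) (.mul (.g 6) (.pp [(1,
 1531644000000)]))) (.mul (.g 15) (.mul (.g 15) (.pp [(1, 87252000000)]))))))) (.mul (.g 3) (.add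
 (.add (.mul (.pp [(1, 153883200)]) (.sq [(1, -6), (2, -5), (3, 68), (5, -30), (7, 100)])) (.mul
 (.g 4) (.add (.pp [(1, 84471000000)]) (.mul (.g 11) (.pp [(1, 49821000000)]))))) (.add (.mul (.g
 7) (.add (.mul (.g 8) (.pp [(1, 1564236000000)])) (.mul (.g 9) (.pp [(1, 1009284000000)])))) (.mul
 (.g 8) (.mul (.g 14) (.pp [(1, 2467836000000)]))))))) (.add (.mul (.g 8) (.add (.add (.mul (.pp
 [(1, 1191600)]) (.sq [(1, 100), (2, 45), (3, 85), (5, 85), (7, 69)])) (.mul (.pp [(1, 21320400)])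
 (.sq [(1, -42), (2, 6), (3, 100), (5, -45), (7, 43)]))) (.add (.mul (.g 4) (.mul (.g 9) (.pp [(1,
 440257200000)]))) (.mul (.g 14) (.mul (.g 14) (.pp [(1, 295848000000)])))))) (.add (.mul (.g 7)
 (.add (.mul (.g 7) (.add (.mul (.g 2) (.pp [(1, 285408000000)])) (.mul (.g 12) (.pp [(1,
 889800000)])))) (.mul (.g 9) (.mul (.g 12) (.pp [(1, 3516000000)]))))) (.mul (.g 10) (.add (.mul
 (.pp [(1, 6178800)]) (.sq [(1, -46), (2, -72), (3, -35), (5, 100), (7, 80)])) (.mul (.pp [(1,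
 47643600)]) (.sq [(1, -3), (2, 55), (3, 96), (5, 15), (7, 100)]))))))) (.add (.add (.mul (.g 11)
 (.add (.mul (.pp [(1, 18163200)]) (.sq [(1, -69), (2, 16), (3, 24), (5, 74), (7, 100)])) (.mul
 (.pp [(1, 76819200)]) (.sq [(2, -33), (3, 100), (5, 33), (7, 33)])))) (.mul (.g 4) (.pp [(1,
 70207800000)]))) (.add (.mul (.g 12) (.mul (.pp [(1, 1211760)]) (.sq [(1, 57), (2, 81), (3, 18),
 (5, 100), (7, 9)]))) (.add (.mul (.g 14) (.mul (.pp [(1, 33841200)]) (.sq [(1, 30), (2, -29), (3,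
 -2), (5, -47), (7, 100)]))) (.mul (.g 15) (.mul (.pp [(1, 7540800)]) (.sq [(1, 8), (2, 77), (3,
 29), (5, 100), (7, 11)])))))))) (.mul (.g 6) (.add (.add (.mul (.g 8) (.add (.add (.mul (.pp [(1,
 85352400)]) (.sq [(1, 69), (2, 8), (3, 100), (5, -60), (7, -80)])) (.mul (.g 6) (.add (.mul (.g 8)
 (.pp [(1, 3802152000000)])) (.add (.mul (.g 9) (.pp [(1, 2184948000000)])) (.mul (.g 15) (.pp [(1,
 4316304000000)])))))) (.add (.mul (.g 3) (.add (.mul (.g 8) (.pp [(1, 2198316000000)])) (.mul (.g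
 15) (.pp [(1, 5893032000000)])))) (.mul (.g 7) (.add (.mul (.g 2) (.pp [(1, 32868000000)])) (.mul
 (.g 7) (.pp [(1, 485676000000)]))))))) (.mul (.g 12) (.add (.add (.mul (.pp [(1, 6636240)]) (.sq
 [(1, -44), (2, -30), (3, -47), (5, 33), (7, 100)])) (.mul (.g 7) (.add (.mul (.g 7) (.pp [(1,
 159366000000)])) (.mul (.g 15) (.pp [(1, 131357400000)]))))) (.add (.mul (.g 4) (.pp [(1,
 9327570000)])) (.mul (.g 5) (.pp [(1, 160531800000)])))))) (.add (.mul (.g 15) (.add (.add (.mul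
 (.pp [(1, 83154000)]) (.sq [(1, -9), (2, 15), (5, 100), (7, -38)])) (.mul (.g 5) (.mul (.g 6) (.pp
 [(1, 12324000000)])))) (.add (.mul (.g 7) (.mul (.g 7) (.pp [(1, 66264000000)]))) (.mul (.g 15)
 (.mul (.g 15) (.pp [(1, 153708000000)])))))) (.add (.mul (.g 6) (.mul (.g 6) (.add (.mul (.g 6)
 (.pp [(1, 2145840000000)])) (.mul (.g 9) (.pp [(1, 356844000000)]))))) (.mul (.g 2) (.mul (.g 7)
 (.mul (.g 7) (.pp [(1, 1685520000000)]))))))))) (.add (.mul (.g 3) (.add (.add (.mul (.g 8) (.add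
 (.mul (.pp [(1, 107817600)]) (.sq [(1, -49), (2, 17), (3, -30), (5, 50), (7, 12)])) (.mul (.g 2)
 (.mul (.g 15) (.pp [(1, 636504000000)]))))) (.add (.mul (.g 3) (.mul (.pp [(1, 23263200)]) (.sq
 [(1, 100), (2, -81), (3, 67), (7, -41)]))) (.mul (.g 9) (.mul (.pp [(1, 29875200)]) (.sq [(1, -1),
 (2, 45), (3, -32), (5, 50), (7, -42)]))))) (.add (.mul (.g 10) (.mul (.pp [(1, 5467200)]) (.sq
 [(1, 100), (2, -68), (3, 42), (7, -57)]))) (.add (.mul (.g 11) (.mul (.pp [(1, 22821600)]) (.sq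
 [(1, 46), (2, -100), (3, 48), (5, 42), (7, 77)]))) (.mul (.g 12) (.mul (.pp [(1, 5290680)]) (.sq
 [(1, 100), (2, -73), (3, 55), (7, -47)]))))))) (.add (.mul (.g 12) (.add (.mul (.g 2) (.add (.mul
 (.g 2) (.mul (.g 7) (.pp [(1, 2218800000)]))) (.mul (.g 8) (.mul (.g 15) (.pp [(1,
 1007400000)]))))) (.add (.mul (.g 12) (.add (.mul (.pp [(1, 12567)]) (.sq [(1, 47), (2, 78), (3,
 19), (5, -61), (7, -100)])) (.mul (.pp [(1, 38238)]) (.sq [(1, -15), (2, -38), (3, 100), (5, 45),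
 (7, -18)])))) (.mul (.g 4) (.mul (.g 4) (.mul (.g 9) (.pp [(1, 92788500)]))))))) (.mul (.g 15)
 (.add (.mul (.g 4) (.add (.pp [(1, 14044800000)]) (.mul (.g 5) (.pp [(1, 265800000)])))) (.mul (.g
 10) (.mul (.pp [(1, 6930000)]) (.sq [(1, -4), (2, 100), (3, 49), (5, 44), (7, -23)])))))))) (.add
 (.add (.mul (.g 2) (.add (.mul (.g 2) (.mul (.pp [(1, 33142800)]) (.sq [(1, 55), (2, 57), (3,
 100), (5, -7), (7, -39)]))) (.mul (.g 9) (.mul (.pp [(1, 3320400)]) (.sq [(1, -41), (2, 61), (3,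
 40), (5, 100), (7, -62)]))))) (.add (.mul (.g 0) (.pp [(1, 4000000000000)])) (.mul (.g 1) (.pp
 [(1, 4000000000000)])))) (.add (.mul (.g 7) (.mul (.g 10) (.mul (.pp [(1, 2046000)]) (.sq [(1,
 -36), (2, -51), (3, -34), (5, 100), (7, 1)])))) (.add (.mul (.g 8) (.mul (.g 8) (.mul (.pp [(1,
 241200)]) (.sq [(1, -37), (2, 6), (3, -6), (5, -85), (7, 100)])))) (.mul (.g 13) (.pp [(1,
 4000000000000)])))))) (.pp [(1, 485236647), (2, 109041576), (3, 127487778), (4, 120430620), (5,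
 128185398), (6, 113655012), (7, 128412000), (8, 106666920), (9, 127383633), (10, 127696812), (12,
 138213240), (14, 143450736), (15, 93517266), (16, 124932000), (18, 114768000), (20, 133056720),
 (21, 116597160), (24, 107197200), (25, 95412003), (27, 119542240), (28, 122662560), (30,
 109289520), (35, 99292560), (36, 135984000), (40, 115771200), (42, 141083040), (45, 150145080),
 (49, 101864328), (50, 115111560), (54, 99918000), (56, 114754800), (60, 126349200), (63,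
 72595920), (70, 103134240), (75, 169512120), (81, 128346000), (84, 149305200), (90, 127530000),
 (98, 109785720), (100, 117556800), (105, 125366400), (125, 147837720), (126, 72354000), (135,
 104359200), (140, 135546000), (147, 121631400), (150, 128610000), (175, 142854000), (189,
 162694800), (196, 120378000), (210, 91262400), (225, 93021600), (245, 145867920), (250,
 117544800), (294, 98935200), (315, 135824400), (343, 133977840), (350, 110622000), (375,
 85388400), (441, 154224000), (490, 132998400), (525, 123352800), (625, 118020000), (686,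
 116210400), (735, 117547200), (875, 104797200), (1029, 119509200), (1225, 110329200), (1715,
 107500800), (2401, 118627200)]))))))
 (.rule 1 (.rule 6 (.leaf 6000000 (.add (.add (.add (.add (.mul (.g 7) (.add (.add (.mul (.g 13)
 (.add (.add (.mul (.pp [(1, 1170)]) (.sq [(1, -46), (2, -32), (3, -55), (5, -44), (7, 100)]))
 (.add (.mul (.g 5) (.add (.mul (.g 4) (.pp [(1, 292020000)])) (.add (.mul (.g 5) (.pp [(1,
 363960000)])) (.mul (.g 13) (.pp [(1, 225480000)]))))) (.mul (.g 6) (.add (.pp [(1, 53760000)])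
 (.mul (.g 11) (.pp [(1, 18501000)])))))) (.add (.add (.mul (.g 13) (.add (.mul (.g 13) (.pp [(1,
 22920000)])) (.mul (.g 14) (.pp [(1, 42900000)])))) (.mul (.g 2) (.mul (.g 7) (.pp [(1,
 280980000)])))) (.add (.mul (.g 4) (.pp [(1, 57536760000)])) (.mul (.g 8) (.mul (.g 11) (.pp [(1,
 1341000)]))))))) (.mul (.g 2) (.add (.add (.mul (.g 4) (.add (.pp [(1, 36294180000)]) (.add (.mul
 (.g 5) (.pp [(1, 3725880000)])) (.mul (.g 8) (.pp [(1, 9670800000)]))))) (.mul (.g 5) (.add (.mul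
 (.g 5) (.pp [(1, 109980000)])) (.mul (.g 7) (.pp [(1, 88080000)]))))) (.add (.mul (.g 3) (.pp [(1,
 103425000)])) (.mul (.g 7) (.mul (.g 14) (.pp [(1, 3180000)]))))))) (.add (.mul (.g 3) (.add (.add
 (.mul (.g 5) (.add (.mul (.g 8) (.pp [(1, 322698000)])) (.mul (.g 14) (.pp [(1, 1242000)]))))
 (.mul (.g 7) (.add (.mul (.g 3) (.pp [(1, 108049650)])) (.mul (.g 7) (.pp [(1, 102768000)])))))
 (.add (.mul (.g 6) (.mul (.g 6) (.pp [(1, 30000)]))) (.mul (.g 10) (.pp [(1, 125295000)])))))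
 (.add (.mul (.g 11) (.add (.add (.mul (.g 4) (.mul (.g 4) (.pp [(1, 60000)]))) (.mul (.g 5) (.mul
 (.g 5) (.pp [(1, 1062000)])))) (.add (.mul (.g 6) (.mul (.g 7) (.pp [(1, 9180000)]))) (.mul (.g
 10) (.mul (.g 14) (.pp [(1, 30000)])))))) (.mul (.g 4) (.mul (.g 5) (.mul (.g 5) (.pp [(1,
 16419600000)])))))))) (.mul (.g 6) (.add (.add (.mul (.g 6) (.add (.add (.mul (.g 6) (.add (.mul
 (.g 6) (.pp [(1, 897600000)])) (.mul (.g 11) (.pp [(1, 65208000)])))) (.add (.mul (.g 2) (.mul (.g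
 10) (.pp [(1, 898800000)]))) (.mul (.g 4) (.mul (.g 4) (.pp [(1, 3600300000)]))))) (.add (.mul (.g
 5) (.pp [(1, 37320000)])) (.add (.mul (.g 11) (.mul (.g 14) (.pp [(1, 20298000)]))) (.mul (.g 13)
 (.pp [(1, 3900000)])))))) (.mul (.g 4) (.add (.add (.mul (.g 11) (.add (.pp [(1, 647469000)])
 (.mul (.g 5) (.pp [(1, 1091049000)])))) (.mul (.g 2) (.mul (.g 2) (.pp [(1, 1933500000)])))) (.add
 (.mul (.g 3) (.mul (.g 8) (.pp [(1, 38523000)]))) (.mul (.g 13) (.pp [(1, 2482560000)])))))) (.add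
 (.mul (.g 13) (.add (.pp [(1, 227700000)]) (.add (.mul (.g 11) (.mul (.g 13) (.pp [(1,
 9615000)]))) (.mul (.g 14) (.mul (.g 14) (.pp [(1, 1200000)])))))) (.add (.mul (.g 5) (.mul (.g 5)
 (.add (.mul (.g 5) (.pp [(1, 166140000)])) (.mul (.g 14) (.pp [(1, 714600000)]))))) (.mul (.g 2)
 (.mul (.g 8) (.mul (.g 8) (.pp [(1, 1163640000)]))))))))) (.add (.mul (.g 4) (.add (.add (.mul (.g
 5) (.add (.mul (.g 5) (.add (.mul (.g 2) (.pp [(1, 19256400000)])) (.add (.mul (.g 10) (.pp [(1,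
 555840000)])) (.mul (.g 13) (.pp [(1, 72360000)]))))) (.add (.mul (.g 2) (.mul (.g 13) (.pp [(1,
 19797720000)]))) (.mul (.g 11) (.mul (.g 14) (.pp [(1, 955914000)])))))) (.mul (.g 13) (.add (.pp
 [(1, 441480000)]) (.mul (.g 4) (.add (.pp [(1, 14207700000)]) (.mul (.g 4) (.pp [(1,
 600000)]))))))) (.add (.mul (.g 11) (.add (.pp [(1, 493827000)]) (.mul (.g 10) (.pp [(1,
 372861000)])))) (.mul (.g 2) (.mul (.g 14) (.mul (.g 14) (.pp [(1, 4499700000)]))))))) (.add (.mul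
 (.g 5) (.add (.mul (.g 5) (.add (.add (.mul (.g 2) (.mul (.g 13) (.pp [(1, 22380000)]))) (.mul (.g
 3) (.pp [(1, 281085000)]))) (.add (.mul (.g 5) (.pp [(1, 1143840000)])) (.mul (.g 11) (.pp [(1,
 57606000)]))))) (.mul (.g 11) (.pp [(1, 46734000)])))) (.mul (.g 13) (.add (.mul (.g 13) (.add
 (.pp [(1, 99780000)]) (.mul (.pp [(1, 3402)]) (.sq [(1, 53), (2, 64), (3, 80), (5, 47), (7,
 100)])))) (.add (.mul (.g 3) (.pp [(1, 269544000)])) (.mul (.g 11) (.pp [(1, 18651000)]))))))))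
 (.add (.add (.mul (.g 3) (.add (.mul (.g 3) (.mul (.g 3) (.mul (.g 8) (.pp [(1, 72825)])))) (.mul
 (.g 11) (.pp [(1, 2000400)])))) (.mul (.g 0) (.pp [(1, 20000000000)]))) (.add (.mul (.g 1) (.pp
 [(1, 20000000000)])) (.add (.mul (.g 2) (.mul (.g 2) (.pp [(1, 250260000)]))) (.mul (.g 12) (.pp
 [(1, 20000000000)])))))) (.pp [(1, 10425207), (2, 591507), (3, 544476), (4, 613908), (5, 628236),
 (6, 566856), (7, 561516), (8, 630000), (9, 619902), (10, 566568), (12, 569184), (14, 587256), (15,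
 604488), (16, 600000), (18, 573792), (20, 517000), (21, 610404), (24, 600000), (25, 602982), (27,
 596640), (28, 631104), (30, 657864), (35, 608568), (36, 585408), (40, 600000), (42, 524904), (45,
 602316), (49, 585252), (50, 640000), (54, 623520), (56, 600000), (60, 660000), (63, 593430), (70,
 588144), (75, 570036), (81, 607200), (84, 628896), (90, 593568), (98, 601512), (100, 600000),
 (105, 526512), (125, 570000), (126, 699840), (135, 576960), (140, 600000), (147, 618840), (150,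
 600000), (175, 584916), (189, 601650), (196, 583488), (210, 641856), (225, 584982), (245, 534996),
 (250, 600000), (294, 642720), (315, 637920), (343, 622800), (350, 600000), (375, 600000), (441,
 672450), (490, 588288), (525, 615084), (625, 600000), (686, 626400), (735, 686160), (875, 600000),
 (1029, 618000), (1225, 630102), (1715, 625200), (2401, 600000)])))))))
 (P_free ++ xP_G_F3) = true := by decide +kernel

theorem t_G_F5b_c2 : chk ROp gP_G_F5b
 (.cut 1 [(2, -1), (3, 1)] (.add (.mul (.g 12) (.pp [(1, 1)])) (.mul (.g 4) (.pp [(1, 1)]))) (.rule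
 1 (.cut 1 [(2, 1), (5, -1)] (.add (.mul (.g 10) (.pp [(1, 1)])) (.mul (.g 1) (.pp [(1, 1)])))
 (.rule 2 (.cut 11 [(1, -69), (3, 100)] (.add (.mul (.g 1) (.pp [(1, 620)])) (.add (.mul (.g 11)
 (.pp [(1, 31)])) (.mul (.g 16) (.pp [(1, 480)])))) (.cut 1 [(1, 3), (3, -2)] (.add (.add (.mul (.g
 10) (.pp [(1, 1)])) (.mul (.g 15) (.pp [(1, 1)]))) (.add (.mul (.g 7) (.pp [(1, 1)])) (.mul (.g 9)
 (.pp [(1, 1)])))) (.rule 8 (.leaf 15000000 (.add (.add (.add (.add (.mul (.g 7) (.add (.add (.mul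
 (.g 11) (.add (.add (.pp [(1, 20568900000)]) (.mul (.pp [(1, 2940660)]) (.sq [(1, 51), (2, -28),
 (3, 100), (5, 66)]))) (.add (.mul (.g 20) (.add (.mul (.g 8) (.pp [(1, 28210350000)])) (.mul (.g
 20) (.pp [(1, 10747950000)])))) (.mul (.g 9) (.mul (.g 15) (.pp [(1, 4712175000)])))))) (.mul (.g
 9) (.add (.mul (.g 19) (.add (.mul (.g 9) (.pp [(1, 6066450000)])) (.mul (.g 13) (.pp [(1,
 89269800000)])))) (.mul (.g 7) (.mul (.g 12) (.pp [(1, 1066650000)])))))) (.add (.mul (.g 15)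
 (.add (.mul (.g 7) (.mul (.g 15) (.pp [(1, 576000000)]))) (.mul (.g 12) (.pp [(1,
 19745475000)])))) (.add (.mul (.g 8) (.mul (.g 14) (.mul (.g 20) (.pp [(1, 5450745000)])))) (.mul
 (.g 19) (.pp [(1, 23421750000)])))))) (.add (.mul (.g 9) (.add (.mul (.g 9) (.add (.mul (.g 9)
 (.add (.mul (.g 13) (.pp [(1, 1757100000)])) (.add (.mul (.g 14) (.pp [(1, 131460000)])) (.mul (.g
 17) (.pp [(1, 1453500000)]))))) (.mul (.g 11) (.add (.mul (.g 11) (.pp [(1, 20610450000)])) (.mul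
 (.g 19) (.pp [(1, 50923650000)])))))) (.add (.mul (.g 11) (.add (.mul (.pp [(1, 112320)]) (.sq
 [(1, -11), (2, 83), (3, 41), (5, -100)])) (.mul (.g 8) (.mul (.g 20) (.pp [(1, 34329900000)])))))
 (.mul (.g 17) (.pp [(1, 111301950000)]))))) (.mul (.g 17) (.add (.add (.mul (.g 12) (.add (.mul
 (.pp [(1, 47056500)]) (.sq [(2, 17), (3, 7), (5, 20)])) (.mul (.pp [(1, 1515855)]) (.sq [(1, 23),
 (2, 34), (3, 100), (5, -50)])))) (.mul (.g 13) (.add (.mul (.pp [(1, 8166240)]) (.sq [(2, 12), (3,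
 25), (5, -21)])) (.mul (.g 8) (.mul (.g 8) (.pp [(1, 13336650000)])))))) (.add (.mul (.g 14) (.mul
 (.pp [(1, 523314)]) (.sq [(1, 37), (2, 1), (3, -1), (5, 50)]))) (.mul (.g 15) (.mul (.g 15) (.mul
 (.g 17) (.pp [(1, 7823062500)]))))))))) (.add (.mul (.g 8) (.add (.mul (.g 8) (.add (.mul (.g 8)
 (.mul (.g 15) (.pp [(1, 6837825000)]))) (.mul (.g 14) (.mul (.g 20) (.pp [(1, 554992500)])))))
 (.add (.mul (.g 14) (.mul (.g 15) (.pp [(1, 1828305000)]))) (.mul (.g 19) (.pp [(1,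
 36963000000)]))))) (.add (.mul (.g 11) (.add (.mul (.g 15) (.pp [(1, 18641550000)])) (.mul (.g 20)
 (.pp [(1, 36519150000)])))) (.mul (.g 0) (.pp [(1, 15000000)]))))) (.add (.add (.mul (.g 3) (.pp
 [(1, 50000000000)])) (.add (.mul (.g 5) (.pp [(1, 50000000000)])) (.mul (.g 14) (.mul (.g 20)
 (.mul (.pp [(1, 87234)]) (.sq [(1, -45), (2, -18), (3, -50), (5, 41)])))))) (.add (.mul (.g 15)
 (.mul (.g 15) (.mul (.g 15) (.pp [(1, 4525462500)])))) (.add (.mul (.g 18) (.pp [(1, 50000000)]))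
 (.mul (.g 19) (.pp [(1, 30234300000)])))))) (.pp [(1, 800854149), (2, 1321989), (3, 1475352), (4,
 1448010), (5, 1674165), (6, 1401399), (8, 1371880), (9, 1569195), (10, 1637544), (12, 1542714),
 (15, 1477185), (16, 1477440), (18, 1549212), (20, 2010816), (24, 1556040), (25, 1309026), (27,
 1610674), (30, 1716840), (36, 1547520), (40, 1516800), (45, 1297680), (50, 1042356), (54,
 1452660), (60, 1457160), (75, 1443480), (81, 1460280), (90, 1364400), (100, 1401960), (125,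
 1688694), (135, 1497780), (150, 1396020), (225, 1623840), (250, 1545240), (375, 1593420), (625,
 1507080)]))))))))))
 (P_c2 ++ xP_G_F5b) = true := by decide +kernel

theorem t_G_F7_free : chk RFp gP_G_F7
 (.split [(2, 1), (3, -1)]
 (.split [(2, 1), (5, -1)]
 (.rule 0 (.rule 2 (.leaf 3000000 (.add (.add (.add (.add (.mul (.g 13) (.add (.add (.mul (.g 7)
 (.add (.add (.mul (.g 6) (.add (.add (.mul (.g 5) (.pp [(1, 14721360000)])) (.mul (.g 6) (.pp [(1,
 1689840000)]))) (.add (.mul (.g 13) (.pp [(1, 11304900000)])) (.mul (.g 14) (.pp [(1,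
 7159380000)]))))) (.mul (.g 2) (.add (.pp [(1, 6604170000)]) (.add (.mul (.g 8) (.pp [(1,
 13291530000)])) (.mul (.g 13) (.pp [(1, 8400480000)])))))) (.add (.mul (.g 5) (.add (.mul (.g 3)
 (.pp [(1, 11852250000)])) (.mul (.g 9) (.pp [(1, 2428440000)])))) (.mul (.g 7) (.add (.mul (.g 10)
 (.pp [(1, 11291010000)])) (.mul (.g 13) (.pp [(1, 398820000)]))))))) (.add (.mul (.g 5) (.add
 (.add (.mul (.g 3) (.add (.mul (.g 3) (.pp [(1, 6601920000)])) (.mul (.g 6) (.pp [(1,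
 2149260000)])))) (.mul (.g 4) (.mul (.g 4) (.pp [(1, 709110000)])))) (.add (.mul (.g 5) (.mul (.g
 5) (.pp [(1, 836940000)]))) (.add (.mul (.g 6) (.mul (.g 13) (.pp [(1, 10487280000)]))) (.mul (.g
 14) (.mul (.g 14) (.pp [(1, 277410000)]))))))) (.mul (.g 2) (.add (.pp [(1, 3350430000)]) (.add
 (.mul (.pp [(1, 38034)]) (.sq [(1, 100), (2, 71), (3, -89), (5, 38), (7, -59)])) (.mul (.g 2)
 (.add (.mul (.g 2) (.pp [(1, 736320000)])) (.mul (.g 14) (.pp [(1, 29100000)]))))))))) (.add (.add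
 (.mul (.g 6) (.add (.mul (.g 3) (.add (.mul (.g 13) (.pp [(1, 2759130000)])) (.mul (.g 14) (.pp
 [(1, 1448310000)])))) (.mul (.g 9) (.mul (.g 13) (.pp [(1, 5323800000)]))))) (.mul (.g 4) (.add
 (.mul (.pp [(1, 745086)]) (.sq [(1, 33), (2, -17), (3, 14), (5, -21), (7, 100)])) (.mul (.g 4)
 (.mul (.g 14) (.pp [(1, 4316100000)])))))) (.add (.mul (.g 8) (.add (.mul (.pp [(1, 25017)]) (.sq
 [(1, -60), (2, 32), (3, 34), (5, 45), (7, 100)])) (.mul (.pp [(1, 321246)]) (.sq [(1, -24), (2,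
 68), (3, 1), (5, 29), (7, 100)])))) (.mul (.g 13) (.mul (.pp [(1, 860088)]) (.sq [(1, -15), (2,
 -26), (3, -39), (5, 67), (7, 100)]))))))) (.mul (.g 5) (.add (.add (.mul (.g 5) (.add (.add (.mul
 (.g 5) (.add (.mul (.g 5) (.pp [(1, 298980000)])) (.add (.mul (.g 8) (.pp [(1, 2117340000)]))
 (.mul (.g 14) (.pp [(1, 1303110000)]))))) (.mul (.g 7) (.add (.mul (.g 3) (.pp [(1, 2291820000)]))
 (.add (.mul (.g 8) (.pp [(1, 6147900000)])) (.mul (.g 11) (.pp [(1, 15562500)])))))) (.add (.mul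
 (.g 2) (.add (.mul (.g 8) (.pp [(1, 1152510000)])) (.mul (.g 14) (.pp [(1, 3427440000)])))) (.add
 (.mul (.g 3) (.mul (.g 3) (.pp [(1, 5786340000)]))) (.mul (.g 14) (.mul (.g 14) (.pp [(1,
 84120000)]))))))) (.mul (.g 6) (.add (.mul (.g 6) (.add (.mul (.g 3) (.pp [(1, 143070000)])) (.mul
 (.g 11) (.pp [(1, 87900000)])))) (.mul (.g 9) (.mul (.g 11) (.pp [(1, 34198500)])))))) (.add (.mul
 (.g 4) (.add (.mul (.g 7) (.mul (.g 8) (.pp [(1, 8195400000)]))) (.mul (.g 11) (.pp [(1,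
 157873500)])))) (.add (.mul (.g 2) (.mul (.g 7) (.pp [(1, 7592370000)]))) (.mul (.g 3) (.mul (.g
 3) (.mul (.g 8) (.pp [(1, 1007670000)]))))))))) (.add (.mul (.g 2) (.add (.add (.mul (.g 4) (.add
 (.add (.mul (.g 3) (.mul (.g 8) (.pp [(1, 5379630000)]))) (.mul (.g 4) (.mul (.g 14) (.pp [(1,
 1613700000)])))) (.add (.mul (.g 6) (.mul (.g 11) (.pp [(1, 12639000)]))) (.add (.mul (.g 7) (.mul
 (.g 7) (.pp [(1, 581730000)]))) (.mul (.g 10) (.pp [(1, 1939290000)])))))) (.mul (.g 2) (.add (.pp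
 [(1, 2151540000)]) (.add (.mul (.g 3) (.pp [(1, 3354540000)])) (.mul (.g 6) (.pp [(1,
 10446750000)])))))) (.add (.mul (.g 7) (.add (.mul (.g 14) (.add (.mul (.g 6) (.pp [(1,
 579660000)])) (.mul (.g 14) (.pp [(1, 1400280000)])))) (.mul (.g 7) (.mul (.g 7) (.pp [(1,
 3271290000)]))))) (.add (.mul (.g 3) (.pp [(1, 3805110000)])) (.mul (.g 6) (.mul (.g 14) (.mul (.g
 14) (.pp [(1, 300000)])))))))) (.add (.mul (.g 8) (.add (.mul (.g 4) (.add (.mul (.pp [(1,
 402933)]) (.sq [(1, -46), (2, 100), (3, 48), (5, 48), (7, -35)])) (.add (.mul (.g 7) (.mul (.g 10)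
 (.pp [(1, 8954220000)]))) (.mul (.g 8) (.mul (.g 8) (.pp [(1, 231810000)])))))) (.add (.mul (.g 6)
 (.mul (.g 7) (.mul (.g 10) (.pp [(1, 535260000)])))) (.mul (.g 8) (.mul (.pp [(1, 87468)]) (.sq
 [(1, 18), (2, -50), (3, 45), (5, 45), (7, -45)])))))) (.mul (.g 3) (.add (.mul (.pp [(1, 75717)])
 (.sq [(1, -78), (2, 100), (3, 1), (5, 74), (7, -44)])) (.add (.mul (.g 6) (.mul (.g 6) (.mul (.g
 7) (.pp [(1, 42630000)])))) (.mul (.g 9) (.mul (.pp [(1, 36783)]) (.sq [(1, -71), (2, 100), (3,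
 35), (5, 83), (7, -57)]))))))))) (.add (.add (.mul (.g 10) (.add (.mul (.g 4) (.mul (.g 11) (.pp
 [(1, 688347000)]))) (.mul (.g 7) (.mul (.g 7) (.mul (.g 14) (.pp [(1, 3836460000)])))))) (.mul (.g
 0) (.pp [(1, 10000000000)]))) (.add (.mul (.g 1) (.pp [(1, 10000000000)])) (.add (.mul (.g 6)
 (.mul (.pp [(1, 68058)]) (.sq [(1, -92), (2, 100), (3, -19), (5, 74), (7, -32)]))) (.mul (.g 12)
 (.pp [(1, 10000000000)])))))) (.pp [(1, 4041672), (2, 293931), (3, 301875), (4, 292161), (5,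
 272040), (6, 312186), (7, 285456), (8, 397064), (9, 283041), (10, 324009), (12, 228318), (14,
 297144), (15, 323151), (16, 270000), (18, 367752), (20, 156060), (21, 344442), (24, 302136), (25,
 311085), (27, 292036), (28, 351690), (30, 417480), (35, 349704), (36, 287193), (40, 285000), (42,
 209610), (45, 252762), (49, 314700), (50, 326304), (54, 292158), (56, 289536), (60, 337524), (63,
 297306), (70, 285972), (75, 281412), (81, 286977), (84, 326586), (90, 262287), (98, 281802), (100,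
 294645), (105, 165960), (125, 305488), (126, 310872), (135, 314169), (140, 355356), (147, 313119),
 (150, 292851), (175, 297207), (189, 302874), (196, 287118), (210, 243978), (225, 309627), (245,
 271242), (250, 318087), (294, 328092), (315, 355110), (343, 294000), (350, 264501), (375, 290817),
 (441, 290985), (490, 287955), (525, 387114), (625, 300000), (686, 303954), (735, 324099), (875,
 278904), (1029, 296400), (1225, 329424), (1715, 304446), (2401, 300000)])))))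
 (.rule 0 (.rule 3 (.leaf 30000000 (.add (.add (.add (.add (.mul (.g 5) (.add (.add (.mul (.g 7)
 (.add (.add (.mul (.g 5) (.add (.add (.mul (.g 3) (.pp [(1, 13916100000)])) (.mul (.g 6) (.pp [(1,
 18187200000)]))) (.add (.mul (.g 7) (.pp [(1, 62072700000)])) (.add (.mul (.g 13) (.pp [(1,
 133492200000)])) (.mul (.g 14) (.pp [(1, 36661500000)])))))) (.mul (.g 7) (.add (.mul (.g 8) (.pp
 [(1, 15056100000)])) (.add (.mul (.g 13) (.pp [(1, 124083900000)])) (.mul (.g 14) (.pp [(1,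
 1203000000)])))))) (.add (.mul (.g 3) (.add (.mul (.g 8) (.pp [(1, 90086100000)])) (.mul (.g 13)
 (.pp [(1, 217242600000)])))) (.add (.mul (.g 2) (.mul (.g 11) (.pp [(1, 866790000)]))) (.mul (.g
 4) (.mul (.g 14) (.pp [(1, 37100700000)]))))))) (.add (.mul (.g 13) (.add (.add (.mul (.g 6) (.add
 (.mul (.g 2) (.pp [(1, 30332100000)])) (.add (.mul (.g 6) (.pp [(1, 11768400000)])) (.mul (.g 11)
 (.pp [(1, 2261565000)]))))) (.mul (.g 3) (.mul (.g 9) (.pp [(1, 14096400000)])))) (.add (.mul (.g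
 4) (.mul (.g 4) (.pp [(1, 58163700000)]))) (.add (.mul (.g 8) (.mul (.g 13) (.pp [(1,
 21199500000)]))) (.mul (.g 14) (.mul (.g 14) (.pp [(1, 2989200000)]))))))) (.mul (.g 14) (.add
 (.mul (.g 14) (.add (.mul (.g 3) (.pp [(1, 12141000000)])) (.add (.mul (.g 4) (.pp [(1,
 8027700000)])) (.mul (.g 14) (.pp [(1, 140700000)]))))) (.add (.mul (.g 4) (.mul (.g 4) (.pp [(1,
 60579900000)]))) (.mul (.g 5) (.mul (.g 5) (.pp [(1, 29967000000)])))))))) (.add (.add (.mul (.g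
 8) (.add (.add (.mul (.g 2) (.mul (.g 6) (.pp [(1, 15492900000)]))) (.mul (.g 3) (.mul (.g 3) (.pp
 [(1, 7024800000)])))) (.add (.mul (.g 4) (.mul (.g 11) (.pp [(1, 2064870000)]))) (.mul (.g 5)
 (.mul (.g 8) (.pp [(1, 61839000000)])))))) (.mul (.g 11) (.add (.pp [(1, 311085000)]) (.add (.mul
 (.g 3) (.pp [(1, 725220000)])) (.mul (.g 4) (.pp [(1, 9387840000)])))))) (.add (.mul (.g 2) (.mul
 (.g 6) (.mul (.g 6) (.pp [(1, 1875600000)])))) (.mul (.g 5) (.mul (.g 5) (.mul (.g 5) (.pp [(1,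
 14007900000)])))))))) (.mul (.g 13) (.add (.add (.add (.mul (.pp [(1, 1486200)]) (.sq [(1, -9),
 (2, 3), (3, 4), (5, -44), (7, 100)])) (.mul (.g 4) (.add (.add (.mul (.g 7) (.add (.mul (.g 8)
 (.pp [(1, 220154400000)])) (.add (.mul (.g 10) (.pp [(1, 14205600000)])) (.mul (.g 13) (.pp [(1,
 64695600000)]))))) (.mul (.g 3) (.mul (.g 8) (.pp [(1, 47357400000)])))) (.add (.mul (.g 6) (.pp
 [(1, 30196500000)])) (.mul (.g 11) (.pp [(1, 2410740000)])))))) (.add (.mul (.g 6) (.add (.mul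
 (.pp [(1, 361380)]) (.sq [(1, -2), (2, -7), (3, 2), (5, -25), (7, 100)])) (.add (.mul (.g 6) (.add
 (.mul (.g 3) (.pp [(1, 6100200000)])) (.mul (.g 11) (.pp [(1, 394365000)])))) (.mul (.g 11) (.mul
 (.g 14) (.pp [(1, 447195000)])))))) (.mul (.g 13) (.add (.mul (.pp [(1, 2377110)]) (.sq [(1, -11),
 (2, 1), (3, 6), (5, -41), (7, 100)])) (.add (.mul (.pp [(1, 6622590)]) (.sq [(1, -20), (5, 21),
 (7, 100)])) (.mul (.g 3) (.mul (.g 7) (.pp [(1, 58764300000)])))))))) (.add (.add (.mul (.g 2)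
 (.mul (.pp [(1, 471060)]) (.sq [(1, -21), (5, 31), (7, 100)]))) (.mul (.g 3) (.pp [(1,
 18898800000)]))) (.add (.mul (.g 7) (.mul (.g 11) (.mul (.g 14) (.pp [(1, 58275000)])))) (.mul (.g
 8) (.mul (.pp [(1, 1384800)]) (.sq [(1, -37), (5, 26), (7, 100)])))))))) (.add (.mul (.g 4) (.add
 (.add (.mul (.pp [(1, 614310)]) (.sq [(1, -51), (2, 100), (3, -21), (5, 22), (7, -28)])) (.mul (.g
 8) (.add (.mul (.pp [(1, 528360)]) (.sq [(1, -43), (2, 100), (3, -40), (5, 27), (7, -29)])) (.add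
 (.mul (.pp [(1, 8361570)]) (.sq [(1, -35), (2, 100), (3, -2), (5, -2), (7, -35)])) (.mul (.g 8)
 (.add (.mul (.g 2) (.pp [(1, 3219900000)])) (.mul (.g 8) (.pp [(1, 1728600000)])))))))) (.add
 (.mul (.g 7) (.add (.mul (.pp [(1, 1103670)]) (.sq [(1, -50), (2, 100), (3, -17), (5, 28), (7,
 -33)])) (.mul (.g 2) (.mul (.g 14) (.pp [(1, 1250400000)]))))) (.mul (.g 11) (.mul (.g 11) (.add
 (.mul (.g 4) (.pp [(1, 8262000)])) (.mul (.g 6) (.pp [(1, 2461500)])))))))) (.mul (.g 11) (.add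
 (.add (.mul (.pp [(1, 6321)]) (.sq [(1, 23), (2, 90), (3, 55), (5, 96), (7, -100)])) (.mul (.pp
 [(1, 3765)]) (.sq [(1, -1), (2, 100), (3, 2), (5, 48), (7, -95)]))) (.add (.mul (.g 2) (.add (.pp
 [(1, 11580000)]) (.mul (.g 14) (.add (.mul (.g 6) (.pp [(1, 5025000)])) (.mul (.g 7) (.pp [(1,
 25650000)])))))) (.mul (.g 6) (.mul (.pp [(1, 17928)]) (.sq [(1, -37), (2, -73), (5, -17), (7,
 100)])))))))) (.add (.add (.mul (.g 7) (.add (.mul (.g 2) (.mul (.g 2) (.mul (.g 3) (.pp [(1,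
 1174500000)])))) (.add (.mul (.g 7) (.mul (.g 10) (.mul (.g 14) (.pp [(1, 1055100000)])))) (.mul
 (.g 9) (.mul (.pp [(1, 300)]) (.sq [(1, -6), (2, 100), (3, -28), (5, 13), (7, -64)])))))) (.mul
 (.g 0) (.pp [(1, 100000000000)]))) (.add (.mul (.g 1) (.pp [(1, 100000000000)])) (.add (.mul (.g
 6) (.mul (.pp [(1, 241350)]) (.sq [(1, 26), (2, 100), (3, -16), (5, -25), (7, -74)]))) (.mul (.g
 12) (.pp [(1, 100000000000)])))))) (.pp [(1, 27032124), (2, 2863740), (3, 3083790), (4, 2864280),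
 (5, 2888328), (6, 2811660), (7, 2953470), (8, 3192000), (9, 3211725), (10, 2799936), (12,
 2792220), (14, 3190200), (15, 3196380), (16, 3000000), (18, 2839170), (20, 2358732), (21,
 2943240), (24, 2892000), (25, 3359700), (27, 2931340), (28, 3240360), (30, 3941160), (35,
 3013620), (36, 3145170), (40, 2849760), (42, 2968920), (45, 2941080), (49, 3192165), (50,
 3685356), (54, 2974680), (56, 2922000), (60, 3308820), (63, 2645760), (70, 2913000), (75,
 2681280), (81, 2924040), (84, 2718780), (90, 3004380), (98, 3055470), (100, 3341040), (105,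
 2908680), (125, 2745762), (126, 3151530), (135, 3083640), (140, 3159660), (147, 3044220), (150,
 2315460), (175, 2662380), (189, 2951280), (196, 2958900), (210, 3299640), (225, 3177900), (245,
 3254880), (250, 2722080), (294, 2797740), (315, 3214560), (343, 2773200), (350, 2749560), (375,
 3375000), (441, 2835240), (490, 3100380), (525, 2894100), (625, 3123840), (686, 2952570), (735,
 3114120), (875, 3097860), (1029, 2896800), (1225, 2888700), (1715, 3052800), (2401, 3000000)]))))))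
 (.rule 1 (.rule 6 (.leaf 3000000 (.add (.add (.add (.add (.mul (.g 3) (.add (.add (.mul (.g 6)
 (.add (.add (.mul (.g 2) (.add (.add (.mul (.g 3) (.pp [(1, 10363140000)])) (.mul (.g 4) (.pp [(1,
 5841390000)]))) (.add (.mul (.g 7) (.pp [(1, 22480140000)])) (.mul (.g 13) (.pp [(1,
 66930000)]))))) (.mul (.g 12) (.add (.add (.pp [(1, 16521540000)]) (.mul (.g 7) (.pp [(1,
 13610100000)]))) (.add (.mul (.g 9) (.pp [(1, 8351520000)])) (.mul (.g 12) (.pp [(1,
 1565940000)])))))) (.add (.mul (.g 6) (.add (.mul (.g 3) (.pp [(1, 1551690000)])) (.add (.mul (.g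
 5) (.pp [(1, 5679990000)])) (.mul (.g 6) (.pp [(1, 2498580000)]))))) (.add (.mul (.g 4) (.add
 (.mul (.g 4) (.pp [(1, 3530400000)])) (.mul (.g 5) (.pp [(1, 4485750000)])))) (.mul (.g 9) (.mul
 (.g 13) (.pp [(1, 250050000)]))))))) (.add (.mul (.g 3) (.add (.add (.mul (.g 3) (.add (.add (.pp
 [(1, 1974720000)]) (.mul (.g 7) (.pp [(1, 9054300000)]))) (.add (.mul (.g 12) (.pp [(1,
 131520000)])) (.mul (.g 13) (.pp [(1, 300000)]))))) (.mul (.g 12) (.add (.pp [(1, 556230000)])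
 (.add (.mul (.g 4) (.pp [(1, 1552710000)])) (.mul (.g 13) (.pp [(1, 1380000)])))))) (.add (.mul
 (.g 4) (.mul (.g 4) (.pp [(1, 971640000)]))) (.mul (.g 10) (.pp [(1, 84204000)]))))) (.mul (.g 10)
 (.add (.pp [(1, 562890000)]) (.add (.mul (.g 4) (.add (.mul (.g 4) (.pp [(1, 74175000)])) (.add
 (.mul (.g 5) (.pp [(1, 15849000)])) (.mul (.g 12) (.pp [(1, 52243500)]))))) (.mul (.g 5) (.pp [(1,
 486834000)]))))))) (.add (.mul (.g 2) (.mul (.g 13) (.add (.pp [(1, 11618370000)]) (.mul (.g 13)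
 (.pp [(1, 5730000)]))))) (.add (.mul (.g 5) (.add (.mul (.g 5) (.mul (.g 8) (.pp [(1, 5430000)])))
 (.mul (.g 12) (.pp [(1, 6292920000)])))) (.mul (.g 12) (.pp [(1, 404460000)])))))) (.mul (.g 12)
 (.add (.add (.mul (.pp [(1, 56784)]) (.sq [(1, -43), (3, 6), (5, 45), (7, 100)])) (.add (.mul (.g
 4) (.add (.mul (.pp [(1, 866376)]) (.sq [(1, -23), (3, 11), (5, -2), (7, 100)])) (.add (.mul (.g
 5) (.add (.mul (.g 2) (.pp [(1, 1095060000)])) (.mul (.g 12) (.pp [(1, 496500000)])))) (.mul (.g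
 10) (.add (.mul (.g 4) (.pp [(1, 12058500)])) (.mul (.g 6) (.pp [(1, 11559000)]))))))) (.mul (.g
 12) (.add (.add (.mul (.pp [(1, 202449)]) (.sq [(1, -21), (3, -30), (5, 36), (7, 100)])) (.mul
 (.pp [(1, 541452)]) (.sq [(1, -17), (5, -2), (7, 100)]))) (.add (.mul (.pp [(1, 116793)]) (.sq
 [(1, -17), (5, -31), (7, 100)])) (.mul (.g 6) (.mul (.g 6) (.pp [(1, 181470000)])))))))) (.add
 (.add (.mul (.g 10) (.add (.pp [(1, 3388500)]) (.add (.mul (.g 5) (.pp [(1, 23394000)])) (.mul (.g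
 6) (.pp [(1, 712500)]))))) (.mul (.g 2) (.add (.mul (.pp [(1, 669504)]) (.sq [(1, -6), (2, -14),
 (3, -32), (5, 17), (7, 100)])) (.mul (.g 6) (.mul (.g 6) (.pp [(1, 549810000)])))))) (.add (.mul
 (.g 9) (.add (.mul (.pp [(1, 41529)]) (.sq [(1, -23), (3, -21), (5, 49), (7, 100)])) (.mul (.pp
 [(1, 3855)]) (.sq [(1, -14), (3, -1), (5, -7), (7, 100)])))) (.mul (.g 7) (.mul (.pp [(1,
 260646)]) (.sq [(1, -17), (5, -19), (7, 100)])))))))) (.add (.mul (.g 4) (.add (.mul (.g 4) (.add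
 (.add (.mul (.pp [(1, 164940)]) (.sq [(1, -10), (2, -17), (3, -45), (5, 37), (7, 100)])) (.mul (.g
 5) (.add (.add (.mul (.g 2) (.pp [(1, 475380000)])) (.mul (.g 4) (.pp [(1, 447660000)]))) (.add
 (.mul (.g 6) (.pp [(1, 822450000)])) (.mul (.g 10) (.pp [(1, 17340000)])))))) (.add (.mul (.g 6)
 (.add (.mul (.g 6) (.pp [(1, 3117120000)])) (.mul (.g 10) (.pp [(1, 28197000)])))) (.mul (.g 7)
 (.mul (.g 10) (.pp [(1, 18709500)])))))) (.add (.mul (.g 5) (.mul (.g 5) (.add (.mul (.g 5) (.pp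
 [(1, 39150000)])) (.mul (.g 6) (.pp [(1, 492990000)]))))) (.mul (.g 9) (.mul (.pp [(1, 226923)])
 (.sq [(1, -40), (3, 15), (5, -17), (7, 100)])))))) (.mul (.g 5) (.add (.mul (.g 5) (.add (.mul (.g
 5) (.add (.mul (.g 6) (.pp [(1, 99600000)])) (.mul (.g 10) (.pp [(1, 15000)])))) (.add (.mul (.g
 6) (.mul (.g 6) (.pp [(1, 19770000)]))) (.mul (.g 10) (.pp [(1, 5017500)]))))) (.mul (.g 10) (.pp
 [(1, 3529500)])))))) (.add (.add (.mul (.g 2) (.add (.mul (.pp [(1, 206418)]) (.sq [(1, -19), (3,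
 6), (5, -3), (7, 100)])) (.mul (.g 13) (.mul (.pp [(1, 98379)]) (.sq [(1, -18), (3, 4), (5, -7),
 (7, 100)]))))) (.mul (.g 0) (.pp [(1, 10000000000)]))) (.add (.mul (.g 1) (.pp [(1,
 10000000000)])) (.add (.mul (.g 6) (.mul (.g 6) (.mul (.pp [(1, 21129)]) (.sq [(1, -48), (5, -15),
 (7, 100)])))) (.mul (.g 11) (.pp [(1, 10000000000)])))))) (.pp [(1, 10670376), (2, 304953), (3,
 296079), (4, 330672), (5, 295173), (6, 269979), (7, 287538), (8, 302784), (9, 298113), (10,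
 300078), (12, 286128), (14, 265341), (15, 324369), (16, 300000), (18, 306750), (20, 266096), (21,
 337677), (24, 297216), (25, 304695), (27, 316170), (28, 262128), (30, 343710), (35, 295797), (36,
 309540), (40, 300000), (42, 345882), (45, 287034), (49, 332070), (50, 266711), (54, 294819), (56,
 297216), (60, 323904), (63, 283878), (70, 311286), (75, 314013), (81, 286461), (84, 308400), (90,
 278886), (98, 318600), (100, 300000), (105, 292284), (125, 314976), (126, 287544), (135, 301695),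
 (140, 323904), (147, 223860), (150, 290085), (175, 318390), (189, 297336), (196, 301200), (210,
 281760), (225, 299586), (245, 313170), (250, 309429), (294, 307200), (315, 282816), (343, 277200),
 (350, 300714), (375, 289848), (441, 302700), (490, 294000), (525, 288702), (625, 300000), (686,
 330000), (735, 296640), (875, 300024), (1029, 324000), (1225, 285390), (1715, 291600), (2401,
 300000)]))))))
 (P_free ++ xP_G_F7) = true := by decide +kernel

theorem t_G_F8_c3 : chk ROp gP_G_F8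
 (.split [(1, -3), (3, 2)]
 (.cut 3 [(2, -1), (3, 1)] (.add (.mul (.g 0) (.pp [(1, 1)])) (.add (.mul (.g 2) (.pp [(1, 1)]))
 (.mul (.g 5) (.pp [(1, 3)])))) (.rule 1 (.cut 3 [(2, 1), (5, -1)] (.add (.add (.mul (.g 3) (.pp
 [(1, 1)])) (.mul (.g 1) (.pp [(1, 1)]))) (.add (.mul (.g 2) (.pp [(1, 1)])) (.mul (.g 8) (.pp [(1,
 3)])))) (.rule 2 (.rule 9 (.cut 1 [(1, -2), (2, -1), (3, 2), (5, 1)] (.add (.mul (.g 10) (.pp [(1,
 1)])) (.add (.mul (.g 5) (.pp [(1, 1)])) (.mul (.g 8) (.pp [(1, 1)])))) (.cut 1 [(1, -1), (2, -2),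
 (3, 2), (5, 2)] (.add (.mul (.g 11) (.pp [(1, 1)])) (.add (.mul (.g 9) (.pp [(1, 1)])) (.mul (.g
 0) (.pp [(1, 1)])))) (.rule 10 (.leaf 360000000 (.add (.add (.add (.add (.mul (.g 11) (.add (.add
 (.add (.mul (.g 12) (.add (.add (.mul (.g 10) (.add (.mul (.g 8) (.pp [(1, 2373426000000)])) (.add
 (.mul (.g 11) (.pp [(1, 1258988400000)])) (.mul (.g 14) (.pp [(1, 647582400000)]))))) (.add (.mul
 (.g 11) (.add (.pp [(1, 1371290400000)]) (.mul (.g 12) (.pp [(1, 2750151600000)])))) (.mul (.g 20)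
 (.add (.mul (.g 8) (.pp [(1, 24274800000)])) (.mul (.g 15) (.pp [(1, 1366527600000)])))))) (.add
 (.mul (.g 21) (.add (.mul (.g 14) (.pp [(1, 935712000000)])) (.mul (.g 21) (.pp [(1,
 1974528000000)])))) (.add (.mul (.g 12) (.mul (.g 16) (.pp [(1, 87176160000)]))) (.mul (.g 18)
 (.mul (.g 18) (.pp [(1, 40114800000)]))))))) (.mul (.g 9) (.add (.add (.mul (.g 9) (.add (.mul (.g
 11) (.pp [(1, 514947600000)])) (.mul (.g 13) (.pp [(1, 187873200000)])))) (.mul (.g 8) (.mul (.g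
 16) (.pp [(1, 8772540000)])))) (.add (.mul (.g 14) (.mul (.g 14) (.pp [(1, 646387200000)]))) (.mul
 (.g 17) (.mul (.g 17) (.pp [(1, 2034000000)]))))))) (.add (.mul (.g 11) (.add (.pp [(1,
 1329390000000)]) (.add (.mul (.g 10) (.mul (.g 17) (.pp [(1, 196493400000)]))) (.mul (.g 11) (.mul
 (.g 14) (.pp [(1, 128613600000)])))))) (.mul (.g 20) (.add (.mul (.pp [(1, 15880320)]) (.sq [(1,
 94), (2, 100), (3, 100), (5, 73), (7, 73)])) (.add (.mul (.g 10) (.mul (.g 18) (.pp [(1,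
 2788448400000)]))) (.mul (.g 20) (.mul (.g 20) (.pp [(1, 125431200000)])))))))) (.add (.add (.mul
 (.g 8) (.pp [(1, 600573600000)])) (.mul (.g 13) (.pp [(1, 1604635200000)]))) (.add (.mul (.g 15)
 (.mul (.pp [(1, 42874200)]) (.sq [(1, -19), (2, 100), (3, -24), (5, 11), (7, 42)]))) (.mul (.g 16)
 (.mul (.pp [(1, 2213280)]) (.sq [(1, 21), (2, -11), (3, -30), (5, 94), (7, 100)]))))))) (.add
 (.mul (.g 20) (.add (.add (.add (.mul (.g 12) (.add (.add (.mul (.g 20) (.add (.mul (.g 14) (.pp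
 [(1, 30661200000)])) (.add (.mul (.g 17) (.pp [(1, 1141689600000)])) (.mul (.g 21) (.pp [(1,
 1103209200000)]))))) (.mul (.g 8) (.add (.mul (.g 8) (.pp [(1, 158896400000)])) (.mul (.g 10) (.pp
 [(1, 914904000000)]))))) (.add (.mul (.g 9) (.mul (.g 12) (.pp [(1, 1368334800000)]))) (.mul (.g
 10) (.mul (.g 16) (.pp [(1, 12239460000)])))))) (.mul (.g 10) (.add (.mul (.g 20) (.add (.mul (.g
 8) (.pp [(1, 866721600000)])) (.mul (.g 14) (.pp [(1, 358477200000)])))) (.mul (.g 9) (.mul (.g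
 10) (.pp [(1, 142192800000)])))))) (.add (.mul (.g 8) (.mul (.pp [(1, 4039560)]) (.sq [(1, 2), (2,
 8), (3, -93), (5, 100), (7, 87)]))) (.mul (.g 13) (.mul (.pp [(1, 13350600)]) (.sq [(1, -37), (2,
 100), (3, 85), (5, 17), (7, 12)]))))) (.add (.add (.mul (.g 14) (.mul (.pp [(1, 5761440)]) (.sq
 [(1, 2), (2, -44), (3, -100), (5, -58), (7, -3)]))) (.mul (.g 15) (.mul (.pp [(1, 28616040)]) (.sq
 [(1, -44), (2, -55), (3, -44), (5, 79), (7, 100)])))) (.add (.mul (.g 16) (.mul (.pp [(1,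
 304812)]) (.sq [(1, -39), (2, -49), (3, -40), (5, 85), (7, 100)]))) (.mul (.g 20) (.mul (.pp [(1,
 102632400)]) (.sq [(1, -81), (2, -83), (3, 77), (5, 38), (7, 100)]))))))) (.mul (.g 16) (.add
 (.add (.mul (.g 10) (.add (.mul (.g 12) (.add (.mul (.g 14) (.pp [(1, 15316020000)])) (.mul (.g
 21) (.pp [(1, 11121660000)])))) (.add (.mul (.g 14) (.pp [(1, 19955700000)])) (.mul (.g 17) (.mul
 (.g 21) (.pp [(1, 15271020000)])))))) (.add (.mul (.g 17) (.add (.mul (.pp [(1, 216099)]) (.sq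
 [(1, -42), (2, -39), (3, 84), (5, -10), (7, 100)])) (.mul (.pp [(1, 109080)]) (.sq [(1, -42), (2,
 -36), (3, -66), (5, 3), (7, 100)])))) (.mul (.g 8) (.pp [(1, 146087100000)])))) (.add (.add (.mul
 (.g 9) (.mul (.g 16) (.pp [(1, 1550790000)]))) (.mul (.g 12) (.mul (.g 18) (.mul (.g 21) (.pp [(1,
 28656540000)]))))) (.add (.mul (.g 13) (.pp [(1, 138961980000)])) (.mul (.g 14) (.mul (.pp [(1,
 1335978)]) (.sq [(1, -29), (2, -1), (3, -80), (5, -23), (7, 100)]))))))))) (.add (.mul (.g 8)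
 (.add (.add (.mul (.g 10) (.add (.mul (.g 9) (.mul (.g 9) (.pp [(1, 8001600000)]))) (.add (.mul
 (.g 12) (.mul (.g 21) (.pp [(1, 585657600000)]))) (.mul (.g 14) (.mul (.g 17) (.pp [(1,
 21822000000)])))))) (.add (.mul (.g 8) (.add (.mul (.g 17) (.mul (.g 17) (.pp [(1,
 14128100000)]))) (.mul (.g 18) (.mul (.g 18) (.pp [(1, 27703200000)]))))) (.mul (.g 12) (.pp [(1,
 82308000000)])))) (.add (.mul (.g 13) (.pp [(1, 428322000000)])) (.add (.mul (.g 15) (.pp [(1,
 267730800000)])) (.mul (.g 18) (.mul (.pp [(1, 12237120)]) (.sq [(2, 1), (5, 100), (7,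
 -100)]))))))) (.add (.mul (.g 13) (.add (.mul (.g 10) (.add (.pp [(1, 4286278800000)]) (.mul (.g
 9) (.mul (.g 13) (.pp [(1, 188395200000)]))))) (.add (.mul (.g 15) (.mul (.pp [(1, 9171360)]) (.sq
 [(1, -50), (2, 100), (3, -42), (5, -76), (7, 79)]))) (.mul (.g 18) (.mul (.pp [(1, 10256400)])
 (.sq [(1, -26), (2, 57), (3, 100), (5, -37), (7, -71)])))))) (.mul (.g 14) (.add (.mul (.g 9)
 (.add (.mul (.g 9) (.mul (.g 9) (.pp [(1, 46238400000)]))) (.mul (.g 17) (.pp [(1,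
 121465800000)])))) (.mul (.g 21) (.mul (.pp [(1, 3435840)]) (.sq [(1, 14), (2, -2), (3, -75), (5,
 59), (7, 100)])))))))) (.add (.add (.mul (.g 0) (.pp [(1, 1200000000000)])) (.add (.mul (.g 3)
 (.pp [(1, 3600000000)])) (.mul (.g 4) (.pp [(1, 1200000000000)])))) (.add (.mul (.g 6) (.pp [(1,
 1200000000000)])) (.add (.mul (.g 18) (.mul (.g 18) (.mul (.pp [(1, 37937880)]) (.sq [(2, 1), (5,
 100), (7, -100)])))) (.mul (.g 19) (.pp [(1, 2400000000)])))))) (.pp [(1, 54905091870), (2,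
 35992062), (3, 32188674), (4, 41677938), (5, 36436914), (6, 36391896), (7, 35537292), (8,
 38242704), (9, 42469896), (10, 39256992), (12, 26172123), (14, 38143584), (15, 44377908), (16,
 36889920), (18, 31459344), (20, 28017891), (21, 41036400), (24, 36403020), (25, 34037730), (27,
 33992544), (28, 38406132), (30, 48641880), (35, 37683000), (36, 34604620), (40, 38350260), (42,
 34983720), (45, 35294784), (49, 34257240), (50, 39153186), (54, 41169440), (56, 38226600), (60,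
 36384720), (63, 33355120), (70, 26269200), (75, 29639202), (81, 34924480), (84, 34862040), (90,
 40065080), (98, 27583920), (100, 36211860), (105, 23773440), (125, 37707102), (126, 37180440),
 (135, 33556880), (140, 35569800), (147, 37909920), (150, 30185040), (175, 36170460), (189,
 36130320), (196, 33310800), (210, 29244960), (225, 34311880), (245, 43127640), (250, 32375880),
 (294, 41541840), (315, 42883520), (343, 37450440), (350, 28733040), (375, 33643440), (441,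
 35244560), (490, 41856480), (525, 32833080), (625, 34095960), (686, 38806560), (735, 25347600),
 (875, 35422200), (1029, 33646320), (1225, 29799360), (1715, 34132320), (2401, 36000000)])))))))))))
 (.cut 1 [(2, -1), (3, 1)] (.add (.mul (.g 10) (.pp [(1, 1)])) (.mul (.g 5) (.pp [(1, 1)]))) (.rule
 1 (.cut 1 [(2, 1), (5, -1)] (.add (.mul (.g 11) (.pp [(1, 1)])) (.mul (.g 1) (.pp [(1, 1)])))
 (.rule 2 (.cut 11 [(1, -69), (3, 100)] (.add (.mul (.g 1) (.pp [(1, 620)])) (.add (.mul (.g 12)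
 (.pp [(1, 31)])) (.mul (.g 14) (.pp [(1, 480)])))) (.rule 8 (.rule 15 (.leaf 1980000000 (.add
 (.add (.add (.add (.mul (.g 10) (.add (.add (.mul (.g 10) (.add (.add (.mul (.pp [(1, 44676720)])
 (.sq [(1, -33), (2, -31), (3, 100), (5, -54), (7, 23)])) (.mul (.g 11) (.add (.mul (.g 11) (.pp
 [(1, 3805639200000)])) (.mul (.g 17) (.pp [(1, 113137200000)]))))) (.add (.mul (.g 16) (.add (.mul
 (.g 10) (.pp [(1, 35204400000)])) (.mul (.g 16) (.pp [(1, 211419450000)])))) (.add (.mul (.g 12)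
 (.mul (.g 20) (.pp [(1, 755785800000)]))) (.mul (.g 17) (.mul (.g 17) (.pp [(1,
 4934120400000)]))))))) (.add (.mul (.g 7) (.add (.add (.mul (.g 7) (.add (.mul (.g 13) (.pp [(1,
 1411911600000)])) (.mul (.g 16) (.pp [(1, 151695500000)])))) (.mul (.g 8) (.mul (.g 19) (.pp [(1,
 2490675000000)])))) (.add (.mul (.g 11) (.mul (.g 17) (.pp [(1, 85899000000)]))) (.add (.mul (.g
 12) (.mul (.g 12) (.pp [(1, 370814400000)]))) (.mul (.g 16) (.mul (.g 16) (.pp [(1,
 175629300000)]))))))) (.mul (.g 19) (.add (.mul (.g 11) (.add (.mul (.g 11) (.pp [(1,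
 11747874600000)])) (.add (.mul (.g 17) (.pp [(1, 2864188800000)])) (.mul (.g 20) (.pp [(1,
 2643003000000)]))))) (.mul (.g 19) (.add (.pp [(1, 1651300200000)]) (.mul (.g 19) (.pp [(1,
 623125800000)])))))))) (.add (.mul (.g 9) (.add (.mul (.pp [(1, 277534620)]) (.sq [(1, -57), (2,
 -32), (3, 100), (5, -12), (7, -44)])) (.add (.mul (.g 12) (.add (.mul (.g 9) (.pp [(1,
 7141721400000)])) (.mul (.g 17) (.pp [(1, 6814368000000)])))) (.mul (.g 17) (.mul (.g 17) (.pp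
 [(1, 406810800000)])))))) (.add (.mul (.g 8) (.add (.mul (.pp [(1, 505234620)]) (.sq [(1, -40),
 (2, -52), (3, 100), (5, -16), (7, -31)])) (.mul (.g 12) (.add (.mul (.g 13) (.pp [(1,
 1304226000000)])) (.mul (.g 17) (.pp [(1, 2710184400000)])))))) (.mul (.g 11) (.mul (.g 11) (.mul
 (.g 15) (.pp [(1, 100438470000)])))))))) (.add (.mul (.g 19) (.add (.add (.mul (.g 11) (.add (.add
 (.mul (.g 9) (.add (.mul (.g 11) (.pp [(1, 1706304600000)])) (.add (.mul (.g 12) (.pp [(1,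
 1351706400000)])) (.mul (.g 17) (.pp [(1, 4590392400000)]))))) (.mul (.g 11) (.add (.pp [(1,
 1826411400000)]) (.mul (.g 19) (.pp [(1, 5463136800000)]))))) (.add (.mul (.g 13) (.mul (.g 17)
 (.pp [(1, 3578374800000)]))) (.mul (.g 20) (.pp [(1, 270626400000)]))))) (.add (.mul (.g 8) (.add
 (.mul (.pp [(1, 118419840)]) (.sq [(1, 2), (2, 100), (3, 7), (5, 4), (7, -47)])) (.mul (.g 8)
 (.add (.mul (.g 7) (.pp [(1, 2001483000000)])) (.mul (.g 15) (.pp [(1, 205903170000)])))))) (.mul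
 (.g 9) (.mul (.g 19) (.add (.pp [(1, 2476623600000)]) (.mul (.g 17) (.pp [(1,
 2144696400000)]))))))) (.add (.add (.mul (.g 16) (.add (.pp [(1, 5068800000)]) (.mul (.pp [(1,
 4213440)]) (.sq [(1, 9), (2, 100), (3, 7), (5, 9), (7, -47)])))) (.mul (.g 7) (.pp [(1,
 25674000000)]))) (.add (.mul (.g 13) (.pp [(1, 6573600000)])) (.mul (.g 15) (.mul (.pp [(1,
 472329)]) (.sq [(1, 39), (2, 100), (3, 86), (5, 85), (7, 54)]))))))) (.mul (.g 12) (.add (.add
 (.mul (.g 12) (.add (.pp [(1, 4485234600000)]) (.add (.mul (.g 8) (.add (.add (.mul (.g 8) (.pp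
 [(1, 2029915800000)])) (.mul (.g 9) (.pp [(1, 3566039400000)]))) (.add (.mul (.g 12) (.pp [(1,
 2435914800000)])) (.mul (.g 20) (.pp [(1, 647004600000)]))))) (.mul (.g 9) (.mul (.g 17) (.pp [(1,
 3533270400000)])))))) (.mul (.g 9) (.add (.pp [(1, 4613479200000)]) (.add (.mul (.g 8) (.mul (.g
 20) (.pp [(1, 1236034800000)]))) (.mul (.g 9) (.mul (.g 9) (.pp [(1, 2411719200000)]))))))) (.add
 (.mul (.g 11) (.add (.mul (.g 7) (.mul (.g 13) (.pp [(1, 362333400000)]))) (.mul (.g 11) (.mul (.g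
 17) (.pp [(1, 115493400000)]))))) (.add (.mul (.g 14) (.mul (.g 14) (.mul (.g 14) (.pp [(1,
 952617600000)])))) (.mul (.g 17) (.pp [(1, 4222092600000)])))))))) (.add (.mul (.g 15) (.add (.add
 (.mul (.pp [(1, 18529731)]) (.sq [(1, -28), (2, -16), (3, 100), (5, -67), (7, 39)])) (.mul (.g 17)
 (.add (.pp [(1, 512922960000)]) (.add (.mul (.g 17) (.add (.pp [(1, 27422010000)]) (.mul (.g 8)
 (.pp [(1, 306410940000)])))) (.mul (.g 9) (.mul (.g 9) (.pp [(1, 180188910000)]))))))) (.add (.mul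
 (.g 11) (.mul (.g 11) (.add (.mul (.g 7) (.pp [(1, 17194320000)])) (.add (.mul (.g 11) (.pp [(1,
 89123760000)])) (.mul (.g 16) (.pp [(1, 28235295000)])))))) (.add (.mul (.g 8) (.mul (.pp [(1,
 5904558)]) (.sq [(1, -38), (2, 16), (3, 92), (5, -100), (7, 51)]))) (.mul (.g 16) (.mul (.g 16)
 (.pp [(1, 52669980000)]))))))) (.add (.mul (.g 13) (.mul (.g 13) (.add (.mul (.pp [(1,
 151794720)]) (.sq [(1, 11), (2, 26), (3, -11), (5, 50), (7, -31)])) (.mul (.pp [(1, 10052460)])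
 (.sq [(1, -100), (2, 60), (3, -22), (5, -22), (7, 77)]))))) (.mul (.g 0) (.pp [(1,
 600000000000)]))))) (.add (.add (.mul (.g 1) (.pp [(1, 1980000000)])) (.add (.mul (.g 3) (.pp [(1,
 6600000000000)])) (.mul (.g 5) (.pp [(1, 6600000000000)])))) (.add (.mul (.g 7) (.mul (.g 17)
 (.mul (.g 17) (.mul (.g 17) (.pp [(1, 1813607400000)]))))) (.add (.mul (.g 11) (.mul (.g 11) (.mul
 (.pp [(1, 18164520)]) (.sq [(1, 3), (2, 59), (3, 16), (5, 88), (7, -100)])))) (.mul (.g 18) (.pp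
 [(1, 13200000000)])))))) (.pp [(1, 6275782497), (2, 179933892), (3, 240742848), (4, 178888512),
 (5, 218880777), (6, 233260896), (7, 214626555), (8, 196840512), (9, 170814996), (10, 223287636),
 (12, 173329728), (14, 200891196), (15, 135732432), (16, 190650240), (18, 187393008), (20,
 203401440), (21, 144009360), (24, 211685760), (25, 192733266), (27, 197144640), (28, 197613504),
 (30, 178551120), (35, 138779784), (36, 194016240), (40, 220334400), (42, 223260048), (45,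
 246642924), (49, 188440263), (50, 184670640), (54, 202799520), (56, 211131360), (60, 177466080),
 (63, 219155244), (70, 203508360), (75, 227282220), (81, 204048240), (84, 225923280), (90,
 219330320), (98, 189141282), (100, 210450240), (105, 272906172), (125, 200189055), (126,
 171185520), (135, 190554320), (140, 198594000), (147, 228997692), (150, 213209040), (175,
 264118635), (189, 194182560), (196, 198219780), (210, 170002800), (225, 165870320), (245,
 246216564), (250, 181504620), (294, 197524800), (315, 167125200), (343, 201749724), (350,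
 199934460), (375, 195078180), (441, 186300180), (490, 210242340), (525, 148608900), (625,
 191495700), (686, 194713200), (735, 159156360), (875, 167165460), (1029, 194602320), (1225,
 156623940), (1715, 185890320), (2401, 198000000)])))))))))))
 (P_c3 ++ xP_G_F8) = true := by decide +kernel

theorem t_G_T4b_TpB_b : chk Rbp gP_G_T4b
 (.cut 1 [(2, -1), (3, 1)] (.add (.mul (.g 10) (.pp [(1, 1)])) (.mul (.g 4) (.pp [(1, 1)]))) (.rule
 1 (.cut 1 [(2, -1), (5, 1)] (.add (.mul (.g 10) (.pp [(1, 1)])) (.mul (.g 6) (.pp [(1, 1)])))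
 (.rule 3 (.cut 1 [(1, 5), (3, -4)] (.add (.add (.mul (.g 4) (.pp [(1, 1)])) (.mul (.g 9) (.pp [(1,
 4)]))) (.add (.mul (.g 1) (.pp [(1, 4)])) (.mul (.g 8) (.pp [(1, 1)])))) (.rule 8 (.cut 1 [(1,
 -3), (5, 5)] (.add (.mul (.g 6) (.pp [(1, 2)])) (.add (.mul (.g 3) (.pp [(1, 2)])) (.mul (.g 14)
 (.pp [(1, 3)])))) (.cut 5 [(1, 3), (5, -2)] (.add (.add (.mul (.g 7) (.pp [(1, 4)])) (.mul (.g 6)
 (.pp [(1, 14)]))) (.add (.mul (.g 12) (.pp [(1, 10)])) (.mul (.g 2) (.pp [(1, 1)])))) (.rule 12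
 (.cut 1 [(1, 2), (2, 1), (3, -1), (5, -2)] (.add (.mul (.g 14) (.pp [(1, 2)])) (.mul (.g 8) (.pp
 [(1, 1)]))) (.cut 4 [(1, -1), (2, -2), (3, 2), (5, 2)] (.add (.mul (.g 9) (.pp [(1, 9)])) (.add
 (.mul (.g 0) (.pp [(1, 1)])) (.mul (.g 3) (.pp [(1, 2)])))) (.rule 20 (.leaf 3000000 (.add (.add
 (.add (.add (.mul (.g 13) (.add (.add (.mul (.g 13) (.add (.mul (.g 13) (.add (.mul (.g 16) (.pp
 [(1, 10234440000)])) (.add (.mul (.g 17) (.pp [(1, 10458840000)])) (.mul (.g 23) (.pp [(1,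
 12835020000)]))))) (.add (.mul (.g 12) (.add (.mul (.g 16) (.pp [(1, 8252610000)])) (.mul (.g 17)
 (.pp [(1, 1681530000)])))) (.mul (.g 14) (.mul (.g 22) (.pp [(1, 25433970000)])))))) (.mul (.g 17)
 (.add (.pp [(1, 56575020000)]) (.mul (.g 12) (.add (.mul (.g 12) (.pp [(1, 1951860000)])) (.mul
 (.g 22) (.pp [(1, 7575390000)]))))))) (.add (.mul (.g 16) (.add (.pp [(1, 4966680000)]) (.mul (.g
 16) (.pp [(1, 4716600000)])))) (.mul (.g 20) (.add (.pp [(1, 2758470000)]) (.mul (.g 14) (.mul (.g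
 14) (.pp [(1, 1713930000)])))))))) (.add (.mul (.g 14) (.add (.add (.mul (.g 14) (.add (.mul (.g
 19) (.add (.pp [(1, 147477000)]) (.mul (.g 16) (.pp [(1, 135271500)])))) (.add (.mul (.g 20) (.add
 (.pp [(1, 16004370000)]) (.mul (.g 12) (.pp [(1, 2872110000)])))) (.mul (.g 17) (.mul (.g 22) (.pp
 [(1, 3013200000)])))))) (.mul (.g 16) (.add (.pp [(1, 18387870000)]) (.mul (.g 12) (.mul (.g 16)
 (.pp [(1, 6636000000)])))))) (.add (.mul (.g 17) (.mul (.g 17) (.pp [(1, 41180370000)]))) (.add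
 (.mul (.g 22) (.mul (.pp [(1, 2846508)]) (.sq [(1, -13), (2, 46), (3, 50), (5, -5)]))) (.mul (.g
 23) (.pp [(1, 61669500000)])))))) (.mul (.g 12) (.add (.add (.mul (.g 16) (.add (.pp [(1,
 26316780000)]) (.mul (.g 16) (.mul (.g 16) (.pp [(1, 223440000)]))))) (.mul (.g 12) (.mul (.g 22)
 (.pp [(1, 6473250000)])))) (.add (.mul (.g 17) (.mul (.pp [(1, 21456)]) (.sq [(1, 85), (2, 100),
 (3, 18), (5, 96)]))) (.add (.mul (.g 20) (.pp [(1, 81289380000)])) (.mul (.g 23) (.mul (.pp [(1,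
 307545)]) (.sq [(1, -15), (2, 100), (3, -5), (5, 56)]))))))))) (.add (.mul (.g 16) (.add (.mul (.g
 20) (.mul (.pp [(1, 131958)]) (.sq [(1, -36), (2, 100), (3, -44), (5, 7)]))) (.mul (.g 22) (.mul
 (.pp [(1, 259707)]) (.sq [(1, 73), (2, 83), (3, 24), (5, 100)]))))) (.add (.mul (.g 17) (.add
 (.mul (.g 17) (.mul (.pp [(1, 12684)]) (.sq [(1, 100), (2, 26), (3, -13), (5, 93)]))) (.mul (.g
 23) (.mul (.pp [(1, 248286)]) (.sq [(2, 100), (3, 64), (5, 27)]))))) (.mul (.g 0) (.pp [(1,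
 10000000000)]))))) (.add (.add (.mul (.g 3) (.pp [(1, 3000000)])) (.add (.mul (.g 6) (.pp [(1,
 12000000)])) (.mul (.g 8) (.pp [(1, 10000000000)])))) (.add (.add (.mul (.g 10) (.pp [(1,
 10000000000)])) (.mul (.g 20) (.pp [(1, 38059530000)]))) (.add (.mul (.g 21) (.pp [(1,
 10000000000)])) (.mul (.g 22) (.mul (.g 22) (.mul (.pp [(1, 1045641)]) (.sq [(1, -56), (2, 44),
 (3, 100), (5, -49)])))))))) (.pp [(1, 405555995), (2, 260478), (3, 345621), (4, 334137), (5,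
 267444), (6, 303171), (8, 250909), (9, 250164), (10, 303105), (12, 356343), (15, 350988), (16,
 305616), (18, 305943), (20, 217728), (24, 303075), (25, 351663), (27, 353016), (30, 311238), (36,
 284820), (40, 303744), (45, 241800), (50, 333672), (54, 283752), (60, 307560), (75, 259104), (81,
 286404), (90, 318753), (100, 317652), (125, 273178), (135, 305064), (150, 306744), (225, 306399),
 (250, 309660), (375, 292470), (625, 295590)])))))))))))))))
 (P_TpB ++ xP_G_T4b) = true := by decide +kernel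

theorem t_G_T6_TpB_a : chk Rap gP_G_T6
 (.split [(1, -3), (3, 5)]
 (.split [(1, -5), (5, 4)]
 (.cut 5 [(2, 1), (3, -1)] (.add (.mul (.g 0) (.pp [(1, 1)])) (.add (.mul (.g 4) (.pp [(1, 1)]))
 (.mul (.g 7) (.pp [(1, 5)])))) (.rule 0 (.cut 5 [(2, -1), (5, 1)] (.add (.mul (.g 2) (.pp [(1,
 1)])) (.add (.mul (.g 6) (.pp [(1, 1)])) (.mul (.g 8) (.pp [(1, 5)])))) (.rule 3 (.cut 2 [(1, 3),
 (3, -2)] (.add (.mul (.g 3) (.pp [(1, 9)])) (.add (.mul (.g 10) (.pp [(1, 9)])) (.mul (.g 5) (.pp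
 [(1, 1)])))) (.rule 8 (.cut 9 [(1, 9), (5, -5)] (.add (.add (.mul (.g 13) (.pp [(1, 45)])) (.mul
 (.g 7) (.pp [(1, 13)]))) (.add (.mul (.g 12) (.pp [(1, 45)])) (.mul (.g 1) (.pp [(1, 10)]))))
 (.rule 12 (.cut 5 [(1, -2), (2, -1), (3, 1), (5, 2)] (.add (.add (.mul (.g 5) (.pp [(1, 2)]))
 (.mul (.g 9) (.pp [(1, 1)]))) (.add (.mul (.g 8) (.pp [(1, 2)])) (.mul (.g 14) (.pp [(1, 3)]))))
 (.cut 10 [(1, -1), (2, -2), (3, 2), (5, 2)] (.add (.add (.mul (.g 6) (.pp [(1, 15)])) (.mul (.g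
 10) (.pp [(1, 3)]))) (.add (.mul (.g 2) (.pp [(1, 1)])) (.mul (.g 0) (.pp [(1, 5)])))) (.rule 18
 (.leaf 60000000 (.add (.add (.add (.add (.mul (.g 17) (.add (.add (.mul (.g 23) (.add (.add (.pp
 [(1, 135849600000)]) (.add (.mul (.pp [(1, 1036080)]) (.sq [(1, -84), (2, 100), (3, 69), (5, -10),
 (7, 98)])) (.mul (.g 14) (.add (.add (.mul (.g 14) (.pp [(1, 70320000000)])) (.mul (.g 15) (.pp
 [(1, 119706000000)]))) (.add (.mul (.g 17) (.pp [(1, 65298600000)])) (.mul (.g 19) (.pp [(1,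
 54924600000)]))))))) (.add (.mul (.g 11) (.mul (.g 21) (.pp [(1, 25051920000)]))) (.add (.mul (.g
 12) (.mul (.g 23) (.pp [(1, 32115240000)]))) (.mul (.g 15) (.mul (.g 16) (.pp [(1,
 57018000000)]))))))) (.add (.mul (.g 12) (.add (.add (.pp [(1, 23351040000)]) (.mul (.pp [(1,
 642936)]) (.sq [(1, 15), (2, -54), (3, -100), (5, 88), (7, 80)]))) (.add (.mul (.g 16) (.add (.mul
 (.g 15) (.pp [(1, 65272200000)])) (.mul (.g 19) (.pp [(1, 6135960000)])))) (.mul (.g 13) (.mul (.g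
 13) (.pp [(1, 6221760000)])))))) (.mul (.g 13) (.add (.mul (.g 13) (.add (.mul (.g 16) (.pp [(1,
 68330400000)])) (.mul (.g 18) (.pp [(1, 23875800000)])))) (.add (.mul (.g 14) (.mul (.g 16) (.pp
 [(1, 44506800000)]))) (.mul (.g 18) (.mul (.g 21) (.pp [(1, 35770800000)])))))))) (.add (.add
 (.mul (.g 11) (.add (.pp [(1, 207165000000)]) (.add (.mul (.pp [(1, 2066892)]) (.sq [(1, 30), (2,
 100), (3, 35), (5, -16), (7, 7)])) (.mul (.g 14) (.mul (.g 16) (.pp [(1, 6468960000)])))))) (.mul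
 (.g 17) (.add (.pp [(1, 310191000000)]) (.mul (.pp [(1, 12183000)]) (.sq [(1, -21), (2, 41), (3,
 37), (5, 6), (7, 100)]))))) (.add (.mul (.g 18) (.add (.mul (.pp [(1, 2845320)]) (.sq [(1, 86),
 (2, -100), (3, 49), (5, 100), (7, 20)])) (.mul (.g 15) (.mul (.g 15) (.pp [(1, 113032800000)])))))
 (.mul (.g 19) (.mul (.pp [(1, 5699220)]) (.sq [(1, -57), (2, 64), (3, -83), (5, 26), (7,
 100)]))))))) (.add (.mul (.g 18) (.add (.add (.add (.mul (.g 15) (.add (.mul (.g 13) (.add (.mul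
 (.g 11) (.pp [(1, 23974800000)])) (.mul (.g 12) (.pp [(1, 26640600000)])))) (.mul (.g 20) (.pp
 [(1, 2294640000)])))) (.mul (.g 18) (.add (.pp [(1, 326840400000)]) (.add (.mul (.pp [(1,
 959220)]) (.sq [(1, -12), (2, 49), (3, 27), (5, 19), (7, 100)])) (.mul (.pp [(1, 603660)]) (.sq
 [(1, -12), (2, -62), (3, -59), (5, -68), (7, 100)])))))) (.add (.mul (.g 16) (.add (.mul (.pp [(1,
 1498860)]) (.sq [(1, -17), (2, -4), (3, 6), (5, 100), (7, -34)])) (.mul (.g 16) (.mul (.g 16) (.pp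
 [(1, 9918000000)]))))) (.mul (.g 20) (.add (.mul (.pp [(1, 32232)]) (.sq [(1, -16), (2, -26), (3,
 49), (5, 100), (7, -74)])) (.mul (.g 20) (.pp [(1, 22968000)])))))) (.add (.add (.mul (.g 23)
 (.add (.pp [(1, 467725200000)]) (.mul (.pp [(1, 1321500)]) (.sq [(1, -55), (2, -63), (3, 54), (5,
 100), (7, 25)])))) (.mul (.g 11) (.mul (.pp [(1, 5019216)]) (.sq [(1, -6), (2, 21), (3, -28), (5,
 50), (7, 42)])))) (.add (.mul (.g 12) (.mul (.pp [(1, 2053584)]) (.sq [(1, 4), (2, -4), (3, -2),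
 (5, 100), (7, 35)]))) (.mul (.g 14) (.mul (.pp [(1, 1004580)]) (.sq [(1, -52), (2, 5), (3, -59),
 (5, 4), (7, 100)]))))))) (.mul (.g 23) (.add (.add (.mul (.g 16) (.add (.add (.pp [(1,
 174608400000)]) (.mul (.pp [(1, 2400000)]) (.sq [(1, 62), (2, 42), (3, 11), (5, 63), (7, -100)])))
 (.add (.mul (.pp [(1, 1392060)]) (.sq [(1, -36), (2, 68), (3, 100), (5, -43), (7, -78)])) (.add
 (.mul (.g 12) (.mul (.g 13) (.pp [(1, 8503080000)]))) (.mul (.g 16) (.mul (.g 16) (.pp [(1,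
 12687000000)]))))))) (.mul (.g 23) (.add (.mul (.pp [(1, 264720)]) (.sq [(1, 47), (2, 77), (3,
 -38), (5, -100), (7, 7)])) (.add (.mul (.pp [(1, 9222000)]) (.sq [(1, 100), (2, -93), (3, -58),
 (5, -4), (7, -35)])) (.mul (.g 14) (.mul (.g 23) (.pp [(1, 33819000000)]))))))) (.add (.mul (.g
 15) (.add (.mul (.pp [(1, 1229520)]) (.sq [(1, 2), (2, -76), (3, 29), (5, -51), (7, 100)])) (.mul
 (.g 13) (.mul (.g 14) (.pp [(1, 68779200000)]))))) (.add (.mul (.g 11) (.pp [(1, 110275080000)]))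
 (.mul (.g 12) (.mul (.pp [(1, 541260)]) (.sq [(1, 100), (2, 88), (3, 31), (5, 88), (7,
 40)]))))))))) (.add (.mul (.g 11) (.add (.add (.mul (.g 20) (.add (.add (.pp [(1, 582378000)])
 (.mul (.pp [(1, 453)]) (.sq [(1, 16), (2, -26), (3, 9), (5, -78), (7, 100)]))) (.add (.mul (.g 11)
 (.mul (.g 20) (.pp [(1, 6401400)]))) (.mul (.g 15) (.mul (.g 16) (.pp [(1, 986598000)])))))) (.mul
 (.g 13) (.add (.mul (.pp [(1, 358056)]) (.sq [(1, -27), (2, 13), (3, -8), (5, 100), (7, -22)]))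
 (.add (.mul (.g 12) (.mul (.g 16) (.pp [(1, 12143784000)]))) (.mul (.g 15) (.mul (.g 19) (.pp [(1,
 2915520000)]))))))) (.add (.mul (.g 11) (.add (.pp [(1, 29528064000)]) (.mul (.g 21) (.mul (.g 21)
 (.pp [(1, 579096000)]))))) (.mul (.g 12) (.pp [(1, 1164240000)]))))) (.add (.mul (.g 12) (.add
 (.mul (.g 16) (.add (.mul (.pp [(1, 263256)]) (.sq [(1, -77), (2, 100), (3, -77), (5, 16), (7,
 74)])) (.mul (.g 12) (.pp [(1, 10053792000)])))) (.add (.mul (.g 13) (.mul (.pp [(1, 794832)])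
 (.sq [(1, 8), (2, 4), (3, -69), (5, 54), (7, 100)]))) (.mul (.g 21) (.mul (.pp [(1, 240708)]) (.sq
 [(1, -66), (2, -95), (3, 55), (5, 100), (7, 28)])))))) (.mul (.g 16) (.mul (.g 16) (.mul (.g 16)
 (.add (.pp [(1, 31308000000)]) (.mul (.g 13) (.pp [(1, 10931400000)]))))))))) (.add (.add (.mul
 (.g 0) (.pp [(1, 200000000000)])) (.add (.mul (.g 3) (.pp [(1, 2400000000)])) (.mul (.g 5) (.pp
 [(1, 60000000)])))) (.add (.add (.mul (.g 7) (.pp [(1, 200000000000)])) (.mul (.g 9) (.pp [(1,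
 200000000000)]))) (.add (.mul (.g 19) (.mul (.g 20) (.mul (.pp [(1, 17202)]) (.sq [(1, -25), (2,
 -37), (3, -100), (5, 94), (7, 92)])))) (.mul (.g 22) (.pp [(1, 200000000000)])))))) (.pp [(1,
 544256636), (2, 5540286), (3, 5776254), (4, 6747384), (5, 5173338), (6, 4475736), (7, 5214000),
 (8, 6375266), (9, 5350047), (10, 6303672), (12, 6732018), (14, 6034248), (15, 9258120), (16,
 6601500), (18, 7220844), (20, 5604234), (21, 6089064), (24, 4842360), (25, 6070488), (27,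
 6849744), (28, 3333708), (30, 6978912), (35, 5975256), (36, 6461520), (40, 5026560), (42,
 7551336), (45, 2798880), (49, 6803064), (50, 5437608), (54, 4839720), (56, 6582780), (60,
 8044740), (63, 6593868), (70, 7070832), (75, 3690000), (81, 5980080), (84, 6279660), (90,
 4000164), (98, 6609816), (100, 6556224), (105, 6713304), (125, 6011632), (126, 6181080), (135,
 7361496), (140, 5725092), (147, 6447456), (150, 3619296), (175, 6761892), (189, 5206740), (196,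
 7521720), (210, 6732696), (225, 8368236), (245, 5351556), (250, 5884128), (294, 3993540), (315,
 4997472), (343, 5661948), (350, 7103424), (375, 7489440), (441, 5705700), (490, 3939000), (525,
 4650012), (625, 6040140), (686, 5782380), (735, 7387956), (875, 5466480), (1029, 5700900), (1225,
 6397116), (1715, 6331140), (2401, 6371760)]))))))))))))))
 (.cut 1 [(2, 1), (3, -1)] (.add (.mul (.g 10) (.pp [(1, 1)])) (.mul (.g 7) (.pp [(1, 1)]))) (.rule
 0 (.cut 1 [(2, -1), (5, 1)] (.add (.mul (.g 12) (.pp [(1, 1)])) (.mul (.g 8) (.pp [(1, 1)])))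
 (.rule 3 (.cut 13 [(1, 3), (3, -2)] (.add (.add (.mul (.g 3) (.pp [(1, 36)])) (.mul (.g 4) (.pp
 [(1, 9)]))) (.add (.mul (.g 1) (.pp [(1, 36)])) (.mul (.g 5) (.pp [(1, 2)])))) (.rule 8 (.rule 11
 (.rule 25 (.leaf 825000000 (.add (.add (.add (.add (.add (.mul (.pp [(1, 205384575)]) (.sq [(1,
 59), (2, 23), (3, 43), (5, -100), (7, 11)])) (.mul (.g 20) (.add (.add (.add (.mul (.g 13) (.add
 (.add (.mul (.pp [(1, 10409850)]) (.sq [(1, -29), (2, -26), (3, -1), (5, -53), (7, 100)])) (.mul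
 (.g 10) (.add (.add (.mul (.g 8) (.pp [(1, 317002950000)])) (.mul (.g 11) (.pp [(1,
 2729982750000)]))) (.add (.mul (.g 14) (.pp [(1, 2137682250000)])) (.mul (.g 20) (.pp [(1,
 1767975000000)])))))) (.add (.mul (.g 13) (.add (.mul (.g 8) (.pp [(1, 10853700000)])) (.add (.mul
 (.g 13) (.pp [(1, 723360000000)])) (.mul (.g 20) (.pp [(1, 139845750000)]))))) (.add (.mul (.g 18)
 (.add (.mul (.g 14) (.pp [(1, 345873000000)])) (.mul (.g 20) (.pp [(1, 64003500000)])))) (.mul (.g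
 11) (.mul (.g 12) (.pp [(1, 834916500000)]))))))) (.mul (.g 9) (.add (.add (.pp [(1, 369600000)])
 (.mul (.pp [(1, 187605)]) (.sq [(1, -10), (2, -19), (3, 100), (5, 100), (7, -11)]))) (.add (.mul
 (.g 10) (.mul (.g 10) (.pp [(1, 205187400000)]))) (.add (.mul (.g 12) (.mul (.g 12) (.pp [(1,
 151004700000)]))) (.mul (.g 20) (.mul (.g 20) (.pp [(1, 104354250000)])))))))) (.add (.mul (.g 15)
 (.add (.add (.pp [(1, 2939318250000)]) (.mul (.pp [(1, 17386050)]) (.sq [(1, 24), (2, 100), (3,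
 -68), (5, 51), (7, -71)]))) (.add (.mul (.pp [(1, 20636550)]) (.sq [(1, -14), (2, 72), (3, 100),
 (5, -7), (7, -52)])) (.add (.mul (.g 10) (.mul (.g 10) (.pp [(1, 1131842250000)]))) (.mul (.g 15)
 (.mul (.g 16) (.pp [(1, 293997000000)]))))))) (.mul (.g 18) (.add (.mul (.pp [(1, 61132500)]) (.sq
 [(1, -6), (2, -25), (3, -74), (5, 100), (7, 49)])) (.add (.mul (.pp [(1, 29681025)]) (.sq [(1,
 -72), (2, -100), (3, -46), (5, -78), (7, 39)])) (.mul (.g 10) (.add (.mul (.g 12) (.pp [(1,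
 757795500000)])) (.mul (.g 14) (.pp [(1, 2710405500000)]))))))))) (.add (.add (.mul (.g 20) (.add
 (.mul (.pp [(1, 22218075)]) (.sq [(1, 14), (2, -7), (3, 13), (5, -33), (7, 100)])) (.mul (.pp [(1,
 48998400)]) (.sq [(1, -7), (2, 100), (3, 79), (5, -72), (7, 1)])))) (.mul (.g 10) (.mul (.pp [(1,
 28303275)]) (.sq [(1, -1), (2, 100), (3, -9), (5, 1), (7, -1)])))) (.add (.mul (.g 14) (.mul (.pp
 [(1, 22324500)]) (.sq [(1, 100), (2, -49), (3, 27), (5, 45), (7, -57)]))) (.mul (.g 17) (.mul (.pp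
 [(1, 389070)]) (.sq [(1, 22), (2, 68), (3, 100), (5, -72), (7, -45)])))))))) (.add (.mul (.g 15)
 (.add (.add (.mul (.g 15) (.add (.add (.mul (.pp [(1, 17057700)]) (.sq [(1, 45), (2, 27), (3, 36),
 (5, 100), (7, 8)])) (.add (.mul (.pp [(1, 189603150)]) (.sq [(1, -9), (2, 13), (3, 100), (5, 21),
 (7, 40)])) (.mul (.pp [(1, 17327475)]) (.sq [(1, -12), (2, -51), (3, 68), (5, 4), (7, -100)]))))
 (.add (.mul (.g 15) (.add (.mul (.g 17) (.pp [(1, 18762562500)])) (.mul (.g 18) (.pp [(1,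
 867075000000)])))) (.add (.mul (.g 10) (.mul (.g 14) (.pp [(1, 1500683250000)]))) (.mul (.g 17)
 (.pp [(1, 78202162500)])))))) (.mul (.g 9) (.add (.pp [(1, 364595550000)]) (.add (.mul (.g 10)
 (.add (.mul (.g 9) (.pp [(1, 42846540000)])) (.mul (.g 10) (.pp [(1, 161802300000)])))) (.mul (.g
 11) (.add (.mul (.g 11) (.pp [(1, 452286450000)])) (.mul (.g 14) (.pp [(1, 453718650000)]))))))))
 (.add (.mul (.g 8) (.add (.mul (.pp [(1, 54780)]) (.sq [(1, 43), (2, 15), (3, 25), (5, 100), (7,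
 23)])) (.mul (.g 10) (.mul (.g 10) (.pp [(1, 645778650000)]))))) (.add (.mul (.g 14) (.mul (.g 14)
 (.add (.mul (.g 10) (.pp [(1, 1322788500000)])) (.mul (.g 13) (.pp [(1, 2230140000000)]))))) (.mul
 (.g 12) (.mul (.pp [(1, 6476250)]) (.sq [(1, -11), (2, 36), (3, 100), (5, -44), (7, -71)])))))))
 (.mul (.g 14) (.add (.mul (.pp [(1, 22255200)]) (.sq [(2, 2), (3, -4), (5, -19), (7, 100)])) (.add
 (.mul (.g 18) (.add (.mul (.pp [(1, 86695950)]) (.sq [(1, -8), (2, -75), (3, -19), (5, 100), (7,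
 4)])) (.mul (.g 18) (.add (.mul (.g 8) (.pp [(1, 141801000000)])) (.add (.mul (.g 11) (.pp [(1,
 1833653250000)])) (.mul (.g 17) (.pp [(1, 19307887500)]))))))) (.mul (.g 14) (.add (.mul (.pp [(1,
 39001875)]) (.sq [(1, 41), (2, -100), (3, 59), (5, 59), (7, -59)])) (.add (.mul (.pp [(1,
 23898600)]) (.sq [(1, -2), (2, -29), (3, -1), (5, -18), (7, 100)])) (.mul (.pp [(1, 1668150)])
 (.sq [(1, -9), (2, 19), (3, -100), (5, 90), (7, 54)])))))))))) (.add (.add (.mul (.g 9) (.add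
 (.add (.mul (.g 9) (.mul (.pp [(1, 923769)]) (.sq [(1, -15), (2, -51), (3, 100), (5, -28), (7,
 -1)]))) (.mul (.g 11) (.mul (.g 18) (.mul (.g 18) (.pp [(1, 257418150000)]))))) (.add (.mul (.g
 12) (.mul (.pp [(1, 57393600)]) (.sq [(1, -6), (2, 15), (3, 50), (5, -40), (7, -5)]))) (.add (.mul
 (.g 13) (.mul (.g 13) (.mul (.g 13) (.pp [(1, 85966650000)])))) (.mul (.g 16) (.mul (.pp [(1,
 47492775)]) (.sq [(1, -15), (2, 100), (3, -44), (5, -47), (7, 22)]))))))) (.mul (.g 8) (.add (.mul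
 (.g 18) (.add (.mul (.pp [(1, 7938315)]) (.sq [(1, -2), (2, 63), (3, 100), (5, -59), (7, -72)]))
 (.mul (.pp [(1, 7323690)]) (.sq [(1, 100), (2, -74), (3, 63), (5, -86), (7, 29)])))) (.mul (.g 8)
 (.mul (.pp [(1, 1064250)]) (.sq [(1, 1), (2, -10), (3, 100), (5, -42), (7, -31)])))))) (.add (.mul
 (.g 16) (.add (.mul (.pp [(1, 94235625)]) (.sq [(1, 66), (2, 19), (3, 33), (5, -100), (7, 17)]))
 (.add (.mul (.g 11) (.mul (.pp [(1, 66157575)]) (.sq [(1, 35), (2, 31), (3, 62), (5, -100), (7,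
 15)]))) (.mul (.g 12) (.mul (.pp [(1, 129528300)]) (.sq [(1, 60), (2, 66), (3, -8), (5, -100), (7,
 -19)])))))) (.mul (.g 0) (.pp [(1, 250000000000)]))))) (.add (.add (.add (.mul (.g 1) (.pp [(1,
 3300000000)])) (.mul (.g 2) (.pp [(1, 825000000)]))) (.add (.mul (.g 4) (.pp [(1,
 2750000000000)])) (.mul (.g 6) (.pp [(1, 2750000000000)])))) (.add (.add (.mul (.g 11) (.mul (.pp
 [(1, 35868525)]) (.sq [(1, 25), (2, 82), (3, 24), (5, -100), (7, -9)]))) (.mul (.g 12) (.mul (.pp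
 [(1, 62871600)]) (.sq [(1, 47), (2, 45), (3, 32), (5, -100), (7, 5)])))) (.add (.mul (.g 13) (.mul
 (.g 18) (.mul (.pp [(1, 91437225)]) (.sq [(1, 12), (2, -37), (3, 100), (5, -64), (7, -1)]))))
 (.mul (.g 19) (.pp [(1, 2750000000000)])))))) (.pp [(1, 228645095), (2, 58639930), (3, 109700330),
 (4, 74171339), (5, 95268385), (6, 92584415), (7, 85311600), (8, 75465225), (9, 74193350), (10,
 122848814), (12, 85723935), (14, 116498943), (15, 31958410), (16, 79567125), (18, 86847750), (20,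
 114319150), (21, 89205600), (24, 81236925), (25, 67859781), (27, 72377525), (28, 86852040), (30,
 95464270), (35, 67317294), (36, 93378450), (40, 97815300), (42, 53520720), (45, 89202685), (49,
 87943119), (50, 38221040), (54, 69386625), (56, 91320900), (60, 70482225), (63, 75541950), (70,
 67790910), (75, 106459045), (81, 90981825), (84, 67332375), (90, 65232750), (98, 73037580), (100,
 61252950), (105, 85250220), (125, 93612090), (126, 102427875), (135, 94431150), (140, 71901225),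
 (147, 71652405), (150, 76120110), (175, 88708620), (189, 83542800), (196, 83247450), (210,
 94738050), (225, 82466340), (245, 84835080), (250, 98487840), (294, 81745950), (315, 72035700),
 (343, 85108485), (350, 85083735), (375, 82955565), (441, 93484050), (490, 87405780), (525,
 83525640), (625, 80592270), (686, 82382025), (735, 78818520), (875, 77961180), (1029, 81317775),
 (1225, 84643845), (1715, 77914650), (2401, 83001600)]))))))))))))
 (.split [(1, -7), (3, 50)]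
 (.split [(1, -9), (5, 5)]
 (.cut 35 [(2, 1), (3, -1)] (.add (.add (.mul (.g 3) (.pp [(1, 20)])) (.mul (.g 8) (.pp [(1,
 15)]))) (.add (.mul (.g 0) (.pp [(1, 3)])) (.mul (.g 2) (.pp [(1, 4)])))) (.rule 0 (.cut 115 [(2,
 -1), (5, 1)] (.add (.add (.mul (.g 9) (.pp [(1, 115)])) (.mul (.g 3) (.pp [(1, 4)]))) (.add (.mul
 (.g 2) (.pp [(1, 23)])) (.mul (.g 4) (.pp [(1, 40)])))) (.rule 3 (.rule 7 (.rule 13 (.cut 200 [(1,
 -2), (2, -1), (3, 1), (5, 2)] (.add (.add (.mul (.g 3) (.pp [(1, 185)])) (.mul (.g 7) (.pp [(1,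
 4)]))) (.add (.mul (.g 6) (.pp [(1, 43)])) (.mul (.g 13) (.pp [(1, 15)])))) (.cut 43 [(1, -1), (2,
 -2), (3, 2), (5, 2)] (.add (.add (.mul (.g 14) (.pp [(1, 36)])) (.mul (.g 8) (.pp [(1, 1)])))
 (.add (.mul (.g 4) (.pp [(1, 14)])) (.mul (.g 0) (.pp [(1, 36)])))) (.rule 18 (.leaf 8100000000
 (.add (.add (.add (.add (.mul (.g 12) (.add (.add (.mul (.g 14) (.add (.add (.mul (.g 14) (.add
 (.mul (.g 9) (.pp [(1, 810432000000)])) (.add (.mul (.g 16) (.pp [(1, 3311766000000)])) (.mul (.g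
 22) (.pp [(1, 1415961000000)]))))) (.mul (.g 22) (.add (.mul (.g 10) (.pp [(1, 486283500000)]))
 (.mul (.g 13) (.pp [(1, 14032926000000)]))))) (.add (.mul (.g 9) (.mul (.g 17) (.pp [(1,
 3585258000000)]))) (.mul (.g 16) (.mul (.g 18) (.pp [(1, 8436798000000)])))))) (.add (.mul (.g 12)
 (.add (.add (.mul (.g 16) (.add (.mul (.g 13) (.pp [(1, 5222151000000)])) (.mul (.g 17) (.pp [(1,
 347895000000)])))) (.mul (.g 9) (.mul (.g 19) (.pp [(1, 71630100000)])))) (.add (.mul (.g 10) (.pp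
 [(1, 263527020000)])) (.mul (.g 17) (.pp [(1, 10017999000000)]))))) (.mul (.g 13) (.add (.mul (.g
 15) (.add (.mul (.g 15) (.pp [(1, 35802729000000)])) (.mul (.g 16) (.pp [(1, 1765071000000)]))))
 (.mul (.g 9) (.mul (.g 20) (.pp [(1, 912141000000)]))))))) (.add (.add (.mul (.g 10) (.add (.mul
 (.pp [(1, 8060796)]) (.sq [(1, 8), (3, -67), (5, 57), (7, 100)])) (.mul (.g 11) (.mul (.g 15) (.pp
 [(1, 134538408000)]))))) (.mul (.g 16) (.add (.pp [(1, 35024238000000)]) (.mul (.pp [(1,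
 154612800)]) (.sq [(1, 6), (2, 100), (3, 1), (5, 55), (7, 4)]))))) (.add (.mul (.g 17) (.add (.pp
 [(1, 103600458000000)]) (.mul (.pp [(1, 147590100)]) (.sq [(1, -58), (2, -59), (3, -100), (5, 17),
 (7, 81)])))) (.mul (.g 22) (.add (.pp [(1, 14338134000000)]) (.mul (.pp [(1, 361786500)]) (.sq
 [(1, 56), (2, -100), (3, -66), (5, 52), (7, 27)])))))))) (.add (.mul (.g 15) (.add (.add (.add
 (.mul (.pp [(1, 2934208800)]) (.sq [(2, 15), (3, 100), (5, -9), (7, -57)])) (.mul (.g 13) (.add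
 (.add (.mul (.g 11) (.add (.mul (.g 9) (.pp [(1, 17591400000)])) (.mul (.g 16) (.pp [(1,
 27880345800000)])))) (.mul (.g 13) (.add (.mul (.g 16) (.pp [(1, 100595034000000)])) (.mul (.g 19)
 (.pp [(1, 553311000000)]))))) (.add (.mul (.g 15) (.mul (.g 15) (.pp [(1, 6713199000000)]))) (.mul
 (.g 18) (.mul (.g 19) (.pp [(1, 250209000000)]))))))) (.add (.mul (.g 15) (.add (.mul (.g 15)
 (.add (.mul (.g 17) (.pp [(1, 1666818000000)])) (.mul (.g 22) (.pp [(1, 4843233000000)])))) (.add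
 (.mul (.g 11) (.mul (.g 11) (.pp [(1, 146383200000)]))) (.mul (.g 17) (.pp [(1,
 7962624000000)]))))) (.mul (.g 10) (.add (.pp [(1, 581124780000)]) (.mul (.g 16) (.mul (.g 19)
 (.pp [(1, 28012878000)]))))))) (.add (.add (.mul (.g 9) (.pp [(1, 2898963000000)])) (.mul (.g 11)
 (.mul (.g 18) (.mul (.g 18) (.pp [(1, 1112000400000)]))))) (.add (.mul (.g 16) (.pp [(1,
 16968123000000)])) (.add (.mul (.g 17) (.mul (.pp [(1, 34627500)]) (.sq [(1, 31), (2, 64), (3, 6),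
 (5, 6), (7, 100)]))) (.mul (.g 22) (.pp [(1, 45805257000000)]))))))) (.mul (.g 16) (.add (.add
 (.mul (.g 13) (.add (.pp [(1, 23966280000000)]) (.add (.mul (.pp [(1, 977443200)]) (.sq [(1, -34),
 (2, 55), (3, -70), (5, -6), (7, 100)])) (.mul (.g 22) (.add (.mul (.g 13) (.pp [(1,
 20434275000000)])) (.add (.mul (.g 18) (.pp [(1, 43709220000000)])) (.mul (.g 22) (.pp [(1,
 49671468000000)])))))))) (.mul (.g 14) (.add (.pp [(1, 62452458000000)]) (.mul (.g 14) (.mul (.g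
 17) (.pp [(1, 11930571000000)])))))) (.add (.mul (.g 10) (.mul (.pp [(1, 33297318)]) (.sq [(1,
 -37), (2, 57), (3, -68), (5, -6), (7, 100)]))) (.add (.mul (.g 16) (.mul (.pp [(1, 554858100)])
 (.sq [(1, -21), (2, 41), (3, 37), (5, 6), (7, 100)]))) (.mul (.g 22) (.mul (.pp [(1, 1581970500)])
 (.sq [(1, -84), (2, 100), (3, 69), (5, -10), (7, 98)]))))))))) (.add (.add (.mul (.g 10) (.add
 (.add (.mul (.g 11) (.add (.mul (.g 14) (.mul (.g 14) (.pp [(1, 7841448000)]))) (.mul (.g 22)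
 (.mul (.g 22) (.pp [(1, 18011808000)]))))) (.mul (.g 18) (.add (.mul (.pp [(1, 2666358)]) (.sq
 [(1, 48), (2, -56), (3, 100), (5, 35), (7, 79)])) (.mul (.pp [(1, 948996)]) (.sq [(1, -13), (2,
 -7), (3, -77), (5, 100), (7, -1)]))))) (.add (.mul (.g 13) (.pp [(1, 2469178080000)])) (.mul (.g
 14) (.pp [(1, 856505340000)]))))) (.mul (.g 9) (.add (.add (.mul (.g 9) (.add (.pp [(1,
 1572880000000)]) (.mul (.g 14) (.mul (.g 14) (.pp [(1, 30993000000)]))))) (.mul (.g 13) (.pp [(1,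
 17752356000000)]))) (.add (.mul (.g 14) (.pp [(1, 12971061000000)])) (.mul (.g 18) (.pp [(1,
 4694319000000)])))))) (.add (.mul (.g 17) (.add (.mul (.g 14) (.add (.mul (.g 13) (.pp [(1,
 42399450000000)])) (.mul (.g 19) (.pp [(1, 530456850000)])))) (.add (.mul (.g 22) (.add (.mul (.pp
 [(1, 126789300)]) (.sq [(1, 40), (2, -4), (3, 100), (5, 45), (7, -53)])) (.mul (.pp [(1,
 689666400)]) (.sq [(1, -2), (2, -3), (3, -24), (5, 50), (7, -8)])))) (.mul (.g 19) (.mul (.pp [(1,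
 6220395)]) (.sq [(1, 37), (2, -24), (3, 53), (5, 79), (7, 100)])))))) (.mul (.g 0) (.pp [(1,
 27000000000000)]))))) (.add (.add (.add (.mul (.g 3) (.pp [(1, 1620000000000)])) (.mul (.g 4) (.pp
 [(1, 16200000000)]))) (.add (.mul (.g 5) (.pp [(1, 27000000000000)])) (.mul (.g 7) (.pp [(1,
 27000000000000)])))) (.add (.add (.mul (.g 13) (.mul (.g 18) (.mul (.pp [(1, 272030400)]) (.sq
 [(1, 36), (2, -83), (3, 60), (5, 5), (7, -100)])))) (.mul (.g 20) (.mul (.g 20) (.mul (.pp [(1,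
 48956400)]) (.sq [(1, -4), (2, 100), (3, 81), (5, -4), (7, 38)]))))) (.add (.mul (.g 21) (.pp [(1,
 27000000000000)])) (.mul (.g 22) (.mul (.g 22) (.mul (.pp [(1, 237062700)]) (.sq [(1, 73), (2,
 37), (3, -50), (5, 100), (7, 34)])))))))) (.pp [(1, 4401209406789), (2, 733418469), (3,
 821203839), (4, 819928494), (5, 860465871), (6, 958491306), (7, 760209300), (8, 744279462), (9,
 895034853), (10, 838182474), (12, 829009080), (14, 877424724), (15, 812092050), (16, 804346200),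
 (18, 825962427), (20, 783664308), (21, 896864076), (24, 863460000), (25, 850561721), (27,
 740757393), (28, 786986280), (30, 669422394), (35, 805841676), (36, 826272900), (40, 821835900),
 (42, 983443032), (45, 740508723), (49, 808218000), (50, 843546537), (54, 846101700), (56,
 823462200), (60, 801153000), (63, 610525188), (70, 768539340), (75, 673841025), (81, 797890500),
 (84, 763797600), (90, 818051400), (98, 837444582), (100, 878716800), (105, 736951068), (125,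
 751585095), (126, 811255500), (135, 762226200), (140, 853286400), (147, 909377118), (150,
 895562100), (175, 738677880), (189, 804556800), (196, 856072800), (210, 825665400), (225,
 858583800), (245, 790768818), (250, 763494300), (294, 726602400), (315, 783370800), (343,
 873803700), (350, 787311900), (375, 847389600), (441, 785554200), (490, 773606700), (525,
 917333100), (625, 821401500), (686, 844716600), (735, 812786400), (875, 859823100), (1029,
 761424300), (1225, 830039400), (1715, 776846700), (2401, 788518800)]))))))))))))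
 (.split [(1, -5), (5, 4)]
 (.cut 17 [(2, 1), (3, -1)] (.add (.add (.mul (.g 4) (.pp [(1, 5)])) (.mul (.g 0) (.pp [(1, 3)])))
 (.add (.mul (.g 3) (.pp [(1, 1)])) (.mul (.g 9) (.pp [(1, 12)])))) (.rule 0 (.cut 11 [(2, -1), (5,
 1)] (.add (.mul (.g 10) (.pp [(1, 11)])) (.add (.mul (.g 2) (.pp [(1, 4)])) (.mul (.g 3) (.pp [(1,
 1)])))) (.rule 3 (.rule 7 (.rule 12 (.rule 25 (.leaf 89100000000 (.add (.add (.add (.add (.mul (.g
 21) (.add (.add (.add (.mul (.g 14) (.add (.add (.mul (.pp [(1, 226759500)]) (.sq [(1, 2), (2,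
 -87), (3, -70), (5, 100), (7, 25)])) (.mul (.pp [(1, 206533800)]) (.sq [(1, -7), (2, 29), (3,
 -40), (5, -87), (7, 100)]))) (.add (.mul (.g 11) (.add (.add (.mul (.g 12) (.pp [(1,
 391863582000000)])) (.mul (.g 15) (.pp [(1, 367250598000000)]))) (.add (.mul (.g 18) (.pp [(1,
 3883334400000)])) (.mul (.g 21) (.pp [(1, 149879565000000)]))))) (.add (.mul (.g 14) (.add (.mul
 (.g 14) (.pp [(1, 68256837000000)])) (.mul (.g 18) (.pp [(1, 1370001600000)])))) (.mul (.g 13)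
 (.mul (.g 16) (.pp [(1, 66784905000000)]))))))) (.mul (.g 9) (.add (.pp [(1, 2577395700000)])
 (.mul (.g 13) (.add (.mul (.g 10) (.pp [(1, 233673660000)])) (.mul (.g 13) (.pp [(1,
 719037000000)]))))))) (.add (.mul (.g 16) (.add (.pp [(1, 221842962000000)]) (.add (.mul (.pp [(1,
 2922925500)]) (.sq [(1, -2), (2, 47), (3, 34), (5, 100), (7, -13)])) (.mul (.g 12) (.mul (.g 12)
 (.pp [(1, 4505787000000)])))))) (.mul (.g 21) (.add (.pp [(1, 25635852000000)]) (.add (.mul (.pp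
 [(1, 556696800)]) (.sq [(2, 44), (3, 90), (5, 37), (7, 100)])) (.mul (.pp [(1, 1463556600)]) (.sq
 [(1, -19), (2, -25), (3, 76), (5, -69), (7, -100)]))))))) (.add (.add (.mul (.g 7) (.add (.pp [(1,
 63898421400000)]) (.mul (.pp [(1, 23379840)]) (.sq [(1, -27), (2, -65), (3, 100), (5, 100), (7,
 -39)])))) (.mul (.g 10) (.add (.mul (.pp [(1, 988974360)]) (.sq [(2, 37), (3, 54), (5, -8), (7,
 100)])) (.mul (.g 12) (.mul (.g 17) (.pp [(1, 4621973400000)])))))) (.add (.mul (.g 11) (.add (.pp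
 [(1, 36106884000000)]) (.mul (.g 13) (.mul (.g 15) (.pp [(1, 16232238000000)]))))) (.mul (.g 17)
 (.mul (.pp [(1, 65310300)]) (.sq [(1, -29), (2, 10), (3, 100), (5, -83), (7, -44)]))))))) (.add
 (.mul (.g 15) (.add (.add (.mul (.g 7) (.add (.add (.pp [(1, 77171648400000)]) (.mul (.g 11) (.add
 (.pp [(1, 5284164600000)]) (.add (.mul (.g 10) (.pp [(1, 8601999120000)])) (.mul (.g 11) (.pp [(1,
 106952432400000)])))))) (.add (.mul (.g 17) (.add (.mul (.g 7) (.pp [(1, 8240181840000)])) (.add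
 (.mul (.g 13) (.pp [(1, 86512536000000)])) (.mul (.g 14) (.pp [(1, 13034973600000)]))))) (.add
 (.mul (.g 13) (.mul (.g 18) (.pp [(1, 1117581300000)]))) (.mul (.g 14) (.mul (.g 15) (.pp [(1,
 21141648000000)]))))))) (.add (.mul (.g 15) (.add (.add (.pp [(1, 100959210000000)]) (.add (.mul
 (.pp [(1, 7322059800)]) (.sq [(1, 41), (2, -100), (3, 59), (5, 59), (7, -59)])) (.mul (.pp [(1,
 1991295900)]) (.sq [(1, -30), (2, 63), (3, -61), (5, 91), (7, 100)])))) (.add (.mul (.g 11) (.mul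
 (.g 11) (.pp [(1, 49579695000000)]))) (.add (.mul (.g 13) (.mul (.g 16) (.pp [(1,
 110672001000000)]))) (.mul (.g 15) (.pp [(1, 50105385000000)])))))) (.mul (.g 9) (.add (.mul (.pp
 [(1, 95361948)]) (.sq [(1, -9), (2, 100), (3, 43), (5, -52), (7, -93)])) (.mul (.g 13) (.mul (.g
 18) (.pp [(1, 26533089000)]))))))) (.add (.mul (.g 10) (.pp [(1, 270864000000)])) (.add (.mul (.g
 11) (.mul (.g 12) (.mul (.g 14) (.pp [(1, 241068960000000)])))) (.mul (.g 17) (.mul (.g 17) (.mul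
 (.g 17) (.pp [(1, 42806313000000)])))))))) (.mul (.g 16) (.add (.add (.mul (.g 16) (.add (.mul
 (.pp [(1, 296168400)]) (.sq [(1, 49), (2, 27), (3, 80), (5, 100), (7, -53)])) (.add (.mul (.g 16)
 (.mul (.g 19) (.pp [(1, 49717800000000)]))) (.mul (.g 17) (.pp [(1, 216445284000000)]))))) (.add
 (.mul (.g 13) (.add (.mul (.pp [(1, 2035489500)]) (.sq [(1, 100), (2, -44), (3, 40), (5, -43), (7,
 10)])) (.mul (.g 9) (.mul (.g 11) (.pp [(1, 404478360000)]))))) (.mul (.g 10) (.mul (.pp [(1,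
 252081720)]) (.sq [(1, 42), (2, -82), (3, -57), (5, -7), (7, 100)]))))) (.add (.mul (.g 12) (.mul
 (.pp [(1, 662280300)]) (.sq [(1, -6), (2, -30), (3, -81), (5, 29), (7, 100)]))) (.add (.mul (.g
 17) (.mul (.pp [(1, 17757540900)]) (.sq [(1, -29), (2, 100), (3, 17), (5, -36), (7, -22)]))) (.mul
 (.g 18) (.mul (.pp [(1, 292034160)]) (.sq [(1, 4), (2, 7), (3, 96), (5, -30), (7, 100)])))))))))
 (.add (.add (.mul (.g 7) (.add (.mul (.g 7) (.add (.mul (.pp [(1, 85749840)]) (.sq [(1, -3), (2,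
 53), (3, -9), (5, 100), (7, -29)])) (.add (.mul (.g 11) (.add (.mul (.g 9) (.pp [(1,
 422897824800)])) (.mul (.g 13) (.pp [(1, 14545076040000)])))) (.mul (.g 13) (.mul (.g 13) (.pp
 [(1, 3805924320000)])))))) (.add (.mul (.g 9) (.add (.mul (.g 13) (.mul (.g 13) (.pp [(1,
 250887780000)]))) (.mul (.g 14) (.mul (.g 14) (.pp [(1, 190360368000)]))))) (.mul (.g 18) (.mul
 (.pp [(1, 33379533)]) (.sq [(1, 15), (2, 96), (3, 9), (5, 100), (7, -24)])))))) (.mul (.g 9) (.add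
 (.mul (.g 8) (.mul (.g 8) (.mul (.g 12) (.pp [(1, 71768840000)])))) (.add (.mul (.g 10) (.mul (.g
 11) (.mul (.g 11) (.pp [(1, 70830936000)])))) (.mul (.g 14) (.mul (.g 14) (.mul (.g 14) (.pp [(1,
 340468920000)])))))))) (.add (.mul (.g 12) (.add (.mul (.g 10) (.mul (.pp [(1, 426985020)]) (.sq
 [(1, 11), (2, -44), (3, -14), (5, 76), (7, -100)]))) (.mul (.g 13) (.mul (.pp [(1, 10492326900)])
 (.sq [(1, -27), (2, 100), (3, -15), (5, -17), (7, -47)]))))) (.mul (.g 18) (.add (.mul (.g 14)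
 (.mul (.pp [(1, 12830400)]) (.sq [(1, -11), (2, 32), (3, 100), (5, -12), (7, -39)]))) (.mul (.g
 19) (.mul (.pp [(1, 36914130)]) (.sq [(1, 39), (2, -100), (3, 65), (5, 6), (7, 52)])))))))) (.add
 (.add (.add (.mul (.g 0) (.pp [(1, 27000000000000)])) (.mul (.g 1) (.pp [(1, 3564000000000)])))
 (.add (.mul (.g 2) (.pp [(1, 178200000000)])) (.mul (.g 3) (.pp [(1, 297000000000000)])))) (.add
 (.add (.mul (.g 5) (.pp [(1, 297000000000000)])) (.mul (.g 8) (.mul (.g 19) (.mul (.pp [(1,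
 521779500)]) (.sq [(1, 100), (2, 23), (3, 54), (5, -93), (7, -27)]))))) (.add (.mul (.g 11) (.mul
 (.g 17) (.mul (.pp [(1, 157439700)]) (.sq [(1, 92), (2, -100), (3, 70), (5, -42), (7, 49)]))))
 (.mul (.g 20) (.pp [(1, 297000000000000)])))))) (.pp [(1, 1503435290121), (2, 8794147104), (3,
 9618127326), (4, 6760456560), (5, 9470041146), (6, 13368935844), (7, 9642031344), (8,
 11822875020), (9, 6600307329), (10, 13280891184), (12, 7436571120), (14, 7534898316), (15,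
 6089495148), (16, 7633286100), (18, 9257201316), (20, 9653063508), (21, 8849244492), (24,
 10591049700), (25, 7317616284), (27, 9229827420), (28, 9259378920), (30, 4872631896), (35,
 6038994852), (36, 6802517700), (40, 9169138440), (42, 8592169608), (45, 9898523118), (49,
 8877713724), (50, 5970975516), (54, 8393665500), (56, 8745432300), (60, 8950789980), (63,
 10988952480), (70, 10362672144), (75, 9821254520), (81, 9340709400), (84, 9695683800), (90,
 8306008920), (98, 10468266336), (100, 8621217000), (105, 12604855824), (125, 8423181360), (126,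
 10159360200), (135, 10047949560), (140, 8209299780), (147, 8813415600), (150, 7860259440), (175,
 11010479040), (189, 6832900800), (196, 8336552400), (210, 8671247640), (225, 10315776020), (245,
 9952780068), (250, 9248431500), (294, 7514337600), (315, 6074374680), (343, 9086774400), (350,
 9235197180), (375, 10435926600), (441, 8757371700), (490, 8257912740), (525, 7707595500), (625,
 9510355800), (686, 8614811700), (735, 8450172720), (875, 8140086900), (1029, 8454520800), (1225,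
 9515185020), (1715, 7912489860), (2401, 8965687500)]))))))))))
 (.cut 1 [(2, 1), (3, -1)] (.add (.mul (.g 9) (.pp [(1, 1)])) (.mul (.g 12) (.pp [(1, 1)]))) (.rule
 0 (.cut 1 [(2, -1), (5, 1)] (.add (.mul (.g 14) (.pp [(1, 1)])) (.mul (.g 10) (.pp [(1, 1)])))
 (.rule 3 (.rule 7 (.rule 11 (.rule 25 (.leaf 9900000000 (.add (.add (.add (.add (.add (.mul (.pp
 [(1, 1400612400)]) (.sq [(1, 68), (2, 77), (3, -33), (5, -100), (7, 2)])) (.mul (.g 21) (.add
 (.add (.mul (.g 11) (.add (.add (.mul (.g 14) (.add (.add (.mul (.g 12) (.pp [(1,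
 31598721000000)])) (.mul (.g 15) (.pp [(1, 30636738000000)]))) (.add (.mul (.g 16) (.pp [(1,
 5452326000000)])) (.add (.mul (.g 17) (.pp [(1, 4432032000000)])) (.mul (.g 21) (.pp [(1,
 22029975000000)])))))) (.mul (.g 15) (.add (.mul (.g 16) (.pp [(1, 15077601000000)])) (.mul (.g
 19) (.pp [(1, 27189756000000)]))))) (.add (.mul (.g 9) (.mul (.g 10) (.pp [(1, 32087880000)])))
 (.add (.mul (.g 11) (.mul (.g 11) (.pp [(1, 12297780000000)]))) (.mul (.g 12) (.mul (.g 19) (.pp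
 [(1, 5945346000000)]))))))) (.mul (.g 19) (.add (.add (.pp [(1, 5719923000000)]) (.mul (.g 13)
 (.add (.mul (.g 12) (.pp [(1, 2666763000000)])) (.add (.mul (.g 13) (.pp [(1, 1275912000000)]))
 (.mul (.g 17) (.pp [(1, 589743000000)])))))) (.add (.mul (.g 12) (.pp [(1, 15761295000000)]))
 (.mul (.g 14) (.mul (.g 15) (.pp [(1, 14965830000000)]))))))) (.add (.mul (.g 14) (.add (.mul (.g
 14) (.add (.mul (.g 10) (.pp [(1, 882981000000)])) (.add (.mul (.g 14) (.pp [(1, 5584590000000)]))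
 (.mul (.g 16) (.pp [(1, 2532717000000)]))))) (.mul (.g 15) (.mul (.g 16) (.pp [(1,
 17053146000000)]))))) (.add (.mul (.g 17) (.add (.mul (.pp [(1, 953964000)]) (.sq [(1, 26), (2,
 -37), (3, 50), (5, -41), (7, 11)])) (.add (.mul (.pp [(1, 132580800)]) (.sq [(1, 8), (2, -100),
 (3, -73), (5, 67), (7, -97)])) (.mul (.pp [(1, 124997400)]) (.sq [(1, -66), (2, -100), (3, 90),
 (5, 90), (7, -27)]))))) (.mul (.g 16) (.add (.pp [(1, 10665072000000)]) (.mul (.pp [(1,
 246094200)]) (.sq [(1, 1), (2, 43), (3, 29), (5, 100), (7, -4)]))))))))) (.add (.mul (.g 16) (.add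
 (.add (.add (.mul (.g 16) (.add (.add (.mul (.pp [(1, 435758400)]) (.sq [(1, 21), (2, -51), (3,
 100), (5, 82), (7, -74)])) (.mul (.pp [(1, 284120100)]) (.sq [(1, 100), (2, -43), (3, 28), (5,
 28), (7, -28)]))) (.add (.mul (.g 8) (.mul (.g 18) (.pp [(1, 67185800000)]))) (.add (.mul (.g 13)
 (.mul (.g 15) (.pp [(1, 997524000000)]))) (.mul (.g 17) (.pp [(1, 11773278000000)])))))) (.mul (.g
 7) (.add (.mul (.g 9) (.mul (.g 13) (.pp [(1, 64271988000)]))) (.mul (.g 12) (.mul (.g 12) (.pp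
 [(1, 1029817800000)])))))) (.add (.mul (.g 9) (.mul (.g 10) (.mul (.g 14) (.pp [(1,
 21507552000)])))) (.mul (.g 11) (.mul (.pp [(1, 153618300)]) (.sq [(1, 48), (2, 47), (3, 100), (5,
 -40), (7, -74)]))))) (.add (.add (.mul (.g 13) (.mul (.pp [(1, 351657900)]) (.sq [(1, -12), (2,
 100), (3, 10), (5, -19), (7, -74)]))) (.mul (.g 15) (.mul (.pp [(1, 305434800)]) (.sq [(1, -25),
 (2, -80), (3, -32), (5, 48), (7, 100)])))) (.add (.mul (.g 17) (.mul (.pp [(1, 133551000)]) (.sq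
 [(1, -1), (2, 95), (3, 36), (5, -27), (7, -100)]))) (.mul (.g 18) (.mul (.pp [(1, 5587065)]) (.sq
 [(2, -73), (3, -38), (5, 19), (7, 100)]))))))) (.mul (.g 19) (.add (.add (.mul (.g 19) (.add (.add
 (.mul (.g 15) (.add (.mul (.g 12) (.pp [(1, 27612189000000)])) (.add (.mul (.g 13) (.pp [(1,
 19538838000000)])) (.mul (.g 15) (.pp [(1, 17716347000000)]))))) (.mul (.g 19) (.add (.mul (.g 7)
 (.pp [(1, 2755209600000)])) (.add (.mul (.g 8) (.pp [(1, 174163000000)])) (.mul (.g 14) (.pp [(1,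
 6690024000000)])))))) (.add (.mul (.g 11) (.mul (.g 18) (.pp [(1, 1453735800000)]))) (.mul (.g 12)
 (.pp [(1, 23015322000000)]))))) (.mul (.g 15) (.add (.mul (.g 12) (.add (.mul (.g 10) (.pp [(1,
 1868169600000)])) (.mul (.g 15) (.pp [(1, 2314026000000)])))) (.mul (.g 14) (.mul (.g 18) (.pp
 [(1, 1169719650000)])))))) (.add (.mul (.g 10) (.mul (.g 17) (.mul (.g 17) (.pp [(1,
 3274860600000)])))) (.mul (.g 14) (.mul (.g 18) (.mul (.g 18) (.pp [(1, 16026615000)])))))))))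
 (.add (.add (.mul (.g 14) (.add (.mul (.g 9) (.add (.mul (.pp [(1, 383724)]) (.sq [(1, 23), (2,
 35), (3, 100), (5, -58), (7, -67)])) (.mul (.g 10) (.add (.mul (.g 7) (.pp [(1, 5609577600)]))
 (.add (.mul (.g 10) (.pp [(1, 4630348800)])) (.mul (.g 11) (.pp [(1, 15935436000)]))))))) (.add
 (.mul (.g 7) (.add (.mul (.pp [(1, 44524260)]) (.sq [(1, 3), (2, 64), (3, 100), (5, -61), (7,
 -78)])) (.mul (.g 14) (.mul (.g 15) (.pp [(1, 254449800000)]))))) (.mul (.g 10) (.mul (.g 14)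
 (.mul (.g 18) (.pp [(1, 30206880000)]))))))) (.mul (.g 11) (.add (.mul (.pp [(1, 769269600)]) (.sq
 [(1, 15), (2, 50), (3, -13), (5, -38), (7, -8)])) (.add (.mul (.g 7) (.add (.mul (.pp [(1,
 298524600)]) (.sq [(1, 16), (2, 100), (3, 77), (5, -88), (7, -3)])) (.mul (.g 7) (.mul (.g 11)
 (.pp [(1, 596708640000)]))))) (.mul (.g 13) (.mul (.pp [(1, 960844500)]) (.sq [(1, 31), (2, 62),
 (3, 73), (5, -100), (7, -2)]))))))) (.add (.mul (.g 13) (.add (.mul (.g 13) (.add (.mul (.pp [(1,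
 149094000)]) (.sq [(1, -41), (2, -9), (3, -77), (5, 100), (7, -56)])) (.mul (.pp [(1,
 1423016100)]) (.sq [(1, -65), (2, -75), (3, 28), (5, 100), (7, -1)])))) (.mul (.g 12) (.mul (.pp
 [(1, 5522655600)]) (.sq [(1, -26), (2, -48), (3, 18), (5, 50), (7, -1)]))))) (.mul (.g 10) (.mul
 (.g 10) (.add (.mul (.g 9) (.mul (.g 10) (.pp [(1, 55978560)]))) (.mul (.g 15) (.mul (.g 15) (.pp
 [(1, 151937280000)]))))))))) (.add (.add (.add (.mul (.g 0) (.pp [(1, 3000000000000)])) (.mul (.g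
 1) (.pp [(1, 39600000000)]))) (.add (.mul (.g 2) (.pp [(1, 19800000000)])) (.mul (.g 3) (.pp [(1,
 33000000000000)])))) (.add (.add (.mul (.g 5) (.pp [(1, 33000000000000)])) (.mul (.g 7) (.mul (.g
 7) (.mul (.g 8) (.mul (.g 12) (.pp [(1, 90484240000)])))))) (.add (.mul (.g 15) (.mul (.g 15)
 (.mul (.pp [(1, 112285800)]) (.sq [(1, 41), (2, -100), (3, 59), (5, 59), (7, -59)])))) (.mul (.g
 20) (.pp [(1, 33000000000000)])))))) (.pp [(1, 163015761840), (2, 1063084800), (3, 1037358600),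
 (4, 1138368165), (5, 967664800), (6, 750494580), (7, 900160272), (8, 989429265), (9, 1033777140),
 (10, 824984710), (12, 953952615), (14, 945937080), (15, 1014178660), (16, 1003394700), (18,
 1146225960), (20, 887261045), (21, 1002672000), (24, 1078614900), (25, 969724085), (27,
 1065841260), (28, 913086900), (30, 1466167670), (35, 1119023136), (36, 970972200), (40,
 975294100), (42, 870863400), (45, 675336200), (49, 950179824), (50, 1167441275), (54, 923412600),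
 (56, 1030530600), (60, 976212600), (63, 1192851000), (70, 879151680), (75, 718847855), (81,
 915175800), (84, 883000800), (90, 746912100), (98, 977894280), (100, 1013872200), (105,
 1092069000), (125, 1019290415), (126, 1259735400), (135, 1126802600), (140, 855752040), (147,
 1097058600), (150, 763085400), (175, 878287212), (189, 760537800), (196, 1053973800), (210,
 1012413600), (225, 1254036300), (245, 1104763176), (250, 930854100), (294, 1120422600), (315,
 888287400), (343, 1037277252), (350, 1218939480), (375, 1081813700), (441, 765091800), (490,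
 828883440), (525, 1087218000), (625, 988550200), (686, 1074011400), (735, 889119000), (875,
 964355040), (1029, 909136800), (1225, 1055365740), (1715, 893379960), (2401,
 990000000)]))))))))))))
 (.split [(1, -9), (5, 5)]
 (.cut 235 [(2, 1), (3, -1)] (.add (.add (.mul (.g 3) (.pp [(1, 200)])) (.mul (.g 8) (.pp [(1,
 35)]))) (.add (.mul (.g 0) (.pp [(1, 7)])) (.mul (.g 1) (.pp [(1, 4)])))) (.rule 0 (.cut 35 [(2,
 -1), (5, 1)] (.add (.add (.mul (.g 9) (.pp [(1, 35)])) (.mul (.g 6) (.pp [(1, 200)]))) (.add (.mul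
 (.g 2) (.pp [(1, 7)])) (.mul (.g 3) (.pp [(1, 4)])))) (.rule 3 (.rule 13 (.cut 4 [(1, -2), (2,
 -1), (3, 1), (5, 2)] (.add (.add (.mul (.g 2) (.pp [(1, 3)])) (.mul (.g 9) (.pp [(1, 4)]))) (.add
 (.mul (.g 5) (.pp [(1, 1)])) (.mul (.g 12) (.pp [(1, 1)])))) (.cut 1 [(1, -1), (2, -2), (3, 2),
 (5, 2)] (.add (.mul (.g 10) (.pp [(1, 1)])) (.add (.mul (.g 13) (.pp [(1, 1)])) (.mul (.g 0) (.pp
 [(1, 1)])))) (.rule 18 (.leaf 10800000000 (.add (.add (.add (.add (.mul (.g 14) (.add (.add (.mul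
 (.g 12) (.add (.add (.mul (.pp [(1, 68698800)]) (.sq [(1, -44), (2, 100), (3, -100), (5, -39), (7,
 84)])) (.mul (.g 9) (.add (.add (.mul (.g 11) (.pp [(1, 911576160000)])) (.mul (.g 13) (.pp [(1,
 809773200000)]))) (.add (.mul (.g 15) (.pp [(1, 11947795920000)])) (.mul (.g 17) (.pp [(1,
 687633840000)])))))) (.add (.mul (.g 11) (.mul (.g 18) (.pp [(1, 10030710600000)]))) (.add (.mul
 (.g 12) (.mul (.g 15) (.pp [(1, 544282416000000)]))) (.mul (.g 14) (.mul (.g 16) (.pp [(1,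
 37194552000000)]))))))) (.add (.mul (.g 14) (.add (.mul (.g 14) (.add (.mul (.g 16) (.pp [(1,
 8319240000000)])) (.mul (.g 21) (.pp [(1, 6127704000000)])))) (.add (.mul (.g 8) (.mul (.g 11)
 (.pp [(1, 5660556000000)]))) (.mul (.g 15) (.mul (.g 21) (.pp [(1, 19423800000000)])))))) (.mul
 (.g 16) (.add (.mul (.pp [(1, 240235200)]) (.sq [(1, 31), (2, 64), (3, 6), (5, 6), (7, 100)]))
 (.add (.mul (.g 9) (.mul (.g 15) (.pp [(1, 3211047360000)]))) (.mul (.g 10) (.mul (.g 17) (.pp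
 [(1, 6798708000000)])))))))) (.add (.add (.mul (.g 8) (.add (.pp [(1, 366468000000)]) (.mul (.g
 15) (.mul (.g 15) (.pp [(1, 1793088000000)]))))) (.mul (.g 17) (.add (.mul (.pp [(1, 249706800)])
 (.sq [(1, -51), (2, 100), (3, -12), (5, 90), (7, -38)])) (.mul (.pp [(1, 2106972000)]) (.sq [(1,
 3), (2, -84), (3, -54), (5, 100), (7, -88)]))))) (.add (.mul (.g 13) (.mul (.pp [(1, 948909600)])
 (.sq [(1, 5), (2, 53), (3, 100), (5, -22), (7, -47)]))) (.mul (.g 21) (.pp [(1,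
 20984076000000)])))))) (.add (.mul (.g 15) (.add (.add (.add (.mul (.g 11) (.add (.mul (.pp [(1,
 642783600)]) (.sq [(1, 67), (2, -67), (3, 67), (5, 100), (7, 34)])) (.add (.mul (.g 13) (.add
 (.mul (.g 17) (.pp [(1, 11222388000000)])) (.mul (.g 18) (.pp [(1, 26854200000)])))) (.mul (.g 15)
 (.mul (.g 15) (.pp [(1, 5223312000000)])))))) (.mul (.g 15) (.add (.pp [(1, 99452664000000)])
 (.add (.mul (.pp [(1, 476496000)]) (.sq [(1, -23), (2, 53), (3, -83), (5, 33), (7, 100)])) (.mul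
 (.pp [(1, 714268800)]) (.sq [(1, -21), (2, 41), (3, 37), (5, 6), (7, 100)])))))) (.add (.mul (.g
 8) (.add (.pp [(1, 32265756000000)]) (.mul (.g 13) (.mul (.g 21) (.pp [(1, 465996000000)])))))
 (.mul (.g 12) (.add (.pp [(1, 20909556000000)]) (.mul (.pp [(1, 316483200)]) (.sq [(1, -51), (2,
 100), (3, -5), (5, 54), (7, -23)])))))) (.add (.add (.mul (.g 10) (.mul (.pp [(1, 79619760)]) (.sq
 [(1, 50), (2, 98), (3, -15), (5, 100), (7, -54)]))) (.mul (.g 16) (.mul (.pp [(1, 702853200)])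
 (.sq [(1, 72), (2, 74), (3, 11), (5, 100), (7, 10)])))) (.add (.mul (.g 17) (.mul (.pp [(1,
 562172400)]) (.sq [(1, 66), (2, 77), (3, 15), (5, 13), (7, 100)]))) (.mul (.g 21) (.mul (.pp [(1,
 895946400)]) (.sq [(1, -84), (2, 100), (3, 69), (5, -10), (7, 98)]))))))) (.mul (.g 21) (.add
 (.add (.mul (.g 11) (.add (.mul (.g 9) (.add (.mul (.g 10) (.pp [(1, 13020480000)])) (.mul (.g 17)
 (.pp [(1, 424690560000)])))) (.mul (.g 13) (.add (.mul (.g 12) (.pp [(1, 32793444000000)])) (.mul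
 (.g 13) (.pp [(1, 11730744000000)])))))) (.add (.mul (.g 12) (.add (.mul (.g 17) (.add (.mul (.g
 10) (.pp [(1, 24412838400000)])) (.mul (.g 17) (.pp [(1, 46649088000000)])))) (.mul (.g 12) (.mul
 (.g 18) (.pp [(1, 6847475400000)]))))) (.mul (.g 8) (.mul (.pp [(1, 140827200)]) (.sq [(1, -23),
 (2, 9), (3, 7), (5, 4), (7, 100)]))))) (.add (.mul (.g 9) (.pp [(1, 1453161600000)])) (.add (.mul
 (.g 16) (.pp [(1, 1141668000000)])) (.mul (.g 21) (.mul (.pp [(1, 722336400)]) (.sq [(1, 47), (2,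
 77), (3, -38), (5, -100), (7, 7)]))))))))) (.add (.add (.mul (.g 16) (.add (.add (.mul (.g 18)
 (.add (.mul (.pp [(1, 23347440)]) (.sq [(1, 12), (2, 25), (3, 36), (5, 100), (7, 1)])) (.add (.mul
 (.g 13) (.pp [(1, 607203000000)])) (.mul (.g 18) (.pp [(1, 26004510000)]))))) (.add (.mul (.g 16)
 (.add (.pp [(1, 32917428000000)]) (.mul (.pp [(1, 491864400)]) (.sq [(1, 18), (2, 41), (3, 100),
 (5, 19), (7, -66)])))) (.mul (.g 9) (.mul (.pp [(1, 55247616)]) (.sq [(1, -86), (2, -73), (3, 29),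
 (5, 100), (7, 20)]))))) (.add (.mul (.g 11) (.mul (.g 11) (.pp [(1, 882468000000)]))) (.add (.mul
 (.g 12) (.mul (.g 13) (.pp [(1, 31596804000000)]))) (.mul (.g 19) (.mul (.pp [(1, 827982000)])
 (.sq [(1, -13), (2, -54), (3, 94), (5, -16), (7, 100)]))))))) (.mul (.g 8) (.add (.add (.mul (.pp
 [(1, 98300400)]) (.sq [(2, 26), (3, 11), (5, 62), (7, 100)])) (.mul (.g 8) (.pp [(1,
 3901804000000)]))) (.add (.mul (.g 12) (.pp [(1, 744276000000)])) (.mul (.g 17) (.pp [(1,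
 4239576000000)])))))) (.add (.mul (.g 12) (.add (.mul (.g 9) (.pp [(1, 1565693280000)])) (.add
 (.mul (.g 10) (.mul (.pp [(1, 434758320)]) (.sq [(1, 24), (2, -88), (3, -17), (5, 59), (7,
 -100)]))) (.mul (.g 11) (.mul (.pp [(1, 103820400)]) (.sq [(1, 2), (3, -62), (5, 31), (7,
 100)])))))) (.mul (.g 18) (.add (.mul (.g 18) (.add (.mul (.pp [(1, 45516492)]) (.sq [(1, 11), (2,
 5), (3, 50), (5, -16), (7, 42)])) (.mul (.pp [(1, 811917)]) (.sq [(1, -36), (2, 100), (3, -2), (5,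
 -10), (7, 21)])))) (.mul (.g 17) (.mul (.pp [(1, 5704020)]) (.sq [(1, -35), (2, 100), (3, 1), (5,
 -5), (7, 18)])))))))) (.add (.add (.add (.mul (.g 13) (.add (.mul (.g 9) (.mul (.g 9) (.mul (.g
 13) (.pp [(1, 3785745600)])))) (.mul (.g 19) (.mul (.pp [(1, 24948000)]) (.sq [(1, -1), (2, 74),
 (3, 100), (5, -11), (7, -34)]))))) (.mul (.g 0) (.pp [(1, 36000000000000)]))) (.add (.mul (.g 3)
 (.pp [(1, 2160000000000)])) (.mul (.g 4) (.pp [(1, 36000000000000)])))) (.add (.add (.mul (.g 6)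
 (.pp [(1, 36000000000000)])) (.mul (.g 11) (.mul (.g 11) (.mul (.pp [(1, 317217600)]) (.sq [(1,
 -6), (3, -1), (5, 9), (7, 50)]))))) (.add (.mul (.g 17) (.mul (.g 17) (.mul (.pp [(1, 896389200)])
 (.sq [(1, 27), (2, -4), (3, 100), (5, 2), (7, -69)])))) (.mul (.g 20) (.pp [(1,
 36000000000000)])))))) (.pp [(1, 3937869431604), (2, 998827956), (3, 1220613300), (4, 1131882660),
 (5, 1155320916), (6, 914742936), (7, 1114555896), (8, 1153830672), (9, 1063839204), (10,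
 1095068232), (12, 1412310816), (14, 865830600), (15, 1017934344), (16, 1148223600), (18,
 988749180), (19, 108000000000000), (20, 1217917248), (21, 895558788), (24, 930085200), (25,
 1042536548), (27, 1058477652), (28, 1102122720), (30, 912301032), (35, 1232108148), (36,
 1115683200), (40, 1034629200), (42, 1435106160), (45, 1146909852), (49, 1123761195), (50,
 919002780), (54, 1050980400), (56, 1009065600), (60, 1095314400), (63, 1114635600), (70,
 1098093840), (75, 1229466060), (81, 1138255200), (84, 793432800), (90, 893764800), (98,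
 1114483320), (100, 1089331200), (105, 985149120), (125, 1180190820), (126, 1474113600), (135,
 1235100000), (140, 1097892000), (147, 1100138760), (150, 954386400), (175, 952083120), (189,
 901800000), (196, 1112691600), (210, 1482148800), (225, 1180996800), (245, 1011081960), (250,
 1067115600), (294, 834753600), (315, 753796800), (343, 1016841600), (350, 1192396800), (375,
 1077132000), (441, 1236632400), (490, 959496000), (525, 1030544400), (625, 1066608000), (686,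
 1027922400), (735, 1243195200), (875, 1085534400), (1029, 1083477600), (1225, 1139488800), (1715,
 1113866400), (2401, 1109516400)])))))))))))
 (.split [(1, -5), (5, 4)]
 (.cut 78 [(2, 1), (3, -1)] (.add (.add (.mul (.g 4) (.pp [(1, 50)])) (.mul (.g 0) (.pp [(1, 7)])))
 (.add (.mul (.g 2) (.pp [(1, 1)])) (.mul (.g 9) (.pp [(1, 28)])))) (.rule 0 (.cut 11 [(2, -1), (5,
 1)] (.add (.mul (.g 10) (.pp [(1, 11)])) (.add (.mul (.g 2) (.pp [(1, 4)])) (.mul (.g 3) (.pp [(1,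
 1)])))) (.rule 3 (.rule 12 (.rule 25 (.leaf 16038000000000 (.add (.add (.add (.add (.mul (.g 13)
 (.add (.add (.mul (.g 20) (.add (.add (.mul (.g 10) (.add (.add (.pp [(1, 10803838320000000)])
 (.mul (.g 7) (.pp [(1, 909372420000000)]))) (.add (.mul (.g 11) (.pp [(1, 59045821560000000)]))
 (.add (.mul (.g 14) (.pp [(1, 71837409600000000)])) (.mul (.g 20) (.pp [(1,
 22897773360000000)])))))) (.mul (.g 13) (.add (.add (.mul (.g 6) (.pp [(1, 1655923500000000)]))
 (.mul (.g 8) (.pp [(1, 186050422800000)]))) (.add (.mul (.g 13) (.pp [(1, 9047035800000000)]))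
 (.mul (.g 14) (.pp [(1, 11037030840000000)])))))) (.add (.mul (.g 20) (.add (.mul (.g 6) (.pp [(1,
 532750284000000)])) (.mul (.g 12) (.pp [(1, 4889184300000000)])))) (.mul (.g 15) (.pp [(1,
 2602486260000000)]))))) (.mul (.g 11) (.add (.add (.mul (.g 10) (.add (.mul (.g 14) (.pp [(1,
 82230995880000000)])) (.mul (.g 15) (.pp [(1, 2764951200000000)])))) (.mul (.g 11) (.add (.mul (.g
 6) (.pp [(1, 1348731648000000)])) (.mul (.g 11) (.pp [(1, 17553591000000000)]))))) (.add (.mul (.g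
 13) (.add (.mul (.g 7) (.pp [(1, 303866640000000)])) (.mul (.g 15) (.pp [(1,
 8240164020000000)])))) (.mul (.g 8) (.mul (.g 16) (.pp [(1, 330796580400000)]))))))) (.add (.mul
 (.g 14) (.add (.mul (.g 13) (.add (.mul (.g 15) (.pp [(1, 321882660000000)])) (.mul (.g 16) (.pp
 [(1, 5979447540000000)])))) (.add (.mul (.g 9) (.mul (.g 15) (.pp [(1, 537818292000000)]))) (.mul
 (.g 10) (.mul (.g 14) (.pp [(1, 32837163480000000)])))))) (.mul (.g 8) (.add (.mul (.g 6) (.mul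
 (.g 12) (.pp [(1, 36498638880000)]))) (.mul (.g 8) (.mul (.g 10) (.pp [(1,
 10696768632000)])))))))) (.add (.mul (.g 10) (.add (.add (.mul (.g 14) (.add (.mul (.g 6) (.add
 (.mul (.g 7) (.pp [(1, 738065196000000)])) (.add (.mul (.g 10) (.pp [(1, 10007391240000000)]))
 (.mul (.g 14) (.pp [(1, 7289687988000000)]))))) (.add (.mul (.g 8) (.add (.mul (.g 12) (.pp [(1,
 150167001600000)])) (.mul (.g 15) (.pp [(1, 63632368800000)])))) (.mul (.g 14) (.add (.mul (.g 9)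
 (.pp [(1, 613517652000000)])) (.mul (.g 14) (.pp [(1, 576084960000000)]))))))) (.mul (.g 20) (.add
 (.pp [(1, 22010070060000000)]) (.add (.mul (.g 10) (.add (.pp [(1, 19560425940000000)]) (.add
 (.mul (.g 7) (.pp [(1, 184009320000000)])) (.mul (.g 8) (.pp [(1, 103727368800000)]))))) (.mul (.g
 12) (.mul (.g 15) (.pp [(1, 225975420000000)]))))))) (.add (.mul (.g 7) (.mul (.g 10) (.mul (.g
 11) (.pp [(1, 2560787460000000)])))) (.mul (.g 12) (.mul (.pp [(1, 404783082000)]) (.sq [(1, 17),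
 (2, 100), (3, 57), (5, -42), (7, -46)])))))) (.mul (.g 6) (.add (.add (.mul (.g 12) (.add (.mul
 (.g 17) (.add (.pp [(1, 692073379800000)]) (.mul (.g 12) (.pp [(1, 100880623800000)])))) (.mul (.g
 14) (.mul (.g 16) (.pp [(1, 1459297620000000)]))))) (.mul (.g 7) (.add (.pp [(1,
 423246384000000)]) (.mul (.g 7) (.mul (.g 7) (.pp [(1, 11421344000000)])))))) (.add (.mul (.g 20)
 (.add (.pp [(1, 402938712000000)]) (.mul (.pp [(1, 9949975200)]) (.sq [(2, -30), (3, 16), (5, 55),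
 (7, 100)])))) (.add (.mul (.g 8) (.pp [(1, 126622576080000)])) (.mul (.g 15) (.pp [(1,
 1113646644000000)])))))))) (.add (.mul (.g 15) (.add (.add (.mul (.g 14) (.add (.mul (.pp [(1,
 354503952000)]) (.sq [(2, -1), (3, 7), (5, -11), (7, 50)])) (.add (.mul (.g 8) (.mul (.g 12) (.pp
 [(1, 441558216000000)]))) (.mul (.g 14) (.mul (.g 14) (.pp [(1, 2500805340000000)])))))) (.mul (.g
 15) (.add (.mul (.pp [(1, 103445100000)]) (.sq [(1, 36), (2, 100), (3, 72), (5, 30), (7, -71)]))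
 (.add (.mul (.g 15) (.mul (.g 18) (.pp [(1, 4661765460000000)]))) (.mul (.g 16) (.pp [(1,
 14788479420000000)])))))) (.add (.mul (.g 16) (.mul (.pp [(1, 128737026000)]) (.sq [(1, 53), (2,
 2), (3, 100), (5, -39), (7, 27)]))) (.mul (.g 17) (.pp [(1, 108448956000000)]))))) (.add (.mul (.g
 11) (.add (.mul (.g 20) (.add (.add (.pp [(1, 9323691300000000)]) (.mul (.pp [(1, 111544290000)])
 (.sq [(1, 15), (2, -71), (3, -81), (5, 100), (7, -48)]))) (.add (.mul (.g 9) (.mul (.g 16) (.pp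
 [(1, 345586824000000)]))) (.mul (.g 12) (.mul (.g 20) (.pp [(1, 1299078000000000)])))))) (.add
 (.mul (.g 8) (.mul (.g 12) (.pp [(1, 1856754543600000)]))) (.mul (.g 11) (.pp [(1,
 24326598780000000)]))))) (.mul (.g 17) (.add (.mul (.g 17) (.add (.mul (.pp [(1, 600743385)]) (.sq
 [(1, 2), (2, 65), (5, 100), (7, 6)])) (.add (.mul (.g 12) (.pp [(1, 16050028500000)])) (.mul (.g
 17) (.pp [(1, 4535646637500)]))))) (.mul (.g 8) (.add (.pp [(1, 46714363740000)]) (.mul (.pp [(1,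
 37577034)]) (.sq [(1, -7), (2, -32), (3, -81), (5, 22), (7, 100)]))))))))) (.add (.add (.mul (.g
 8) (.add (.mul (.g 8) (.pp [(1, 4614709968000)])) (.mul (.g 12) (.mul (.g 12) (.mul (.g 20) (.pp
 [(1, 212041605600000)])))))) (.add (.mul (.g 0) (.pp [(1, 4860000000000000)])) (.mul (.g 1) (.pp
 [(1, 641520000000000)])))) (.add (.add (.mul (.g 2) (.pp [(1, 53460000000000000)])) (.mul (.g 4)
 (.pp [(1, 53460000000000000)]))) (.add (.mul (.g 19) (.pp [(1, 53460000000000000)])) (.mul (.g 20)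
 (.mul (.g 20) (.pp [(1, 6614231580000000)]))))))) (.pp [(1, 1200009282572718), (2, 1527721582356),
 (3, 1404415150488), (4, 2164391800263), (5, 1268799155424), (6, 1343444069088), (7,
 1779095660760), (8, 1483306185240), (9, 1898055638622), (10, 1227609414504), (12, 1187698901400),
 (14, 1621678360500), (15, 2079270096552), (16, 1620431406000), (18, 1852118599320), (19,
 160380000000000000), (20, 892172092680), (21, 1444799268000), (24, 1638153396000), (25,
 2109513026808), (27, 1670273714340), (28, 1748206152000), (30, 2236573944000), (35,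
 1353565501200), (36, 1705801680000), (40, 1621538028000), (42, 1560818160000), (45,
 1332188878680), (49, 1414775009340), (50, 2237649487920), (54, 1465921314000), (56,
 1600207488000), (60, 1821777804000), (63, 1806424092000), (70, 1479530448000), (75,
 1172664345600), (81, 1561748364000), (84, 1584602514000), (90, 1393397478000), (98,
 1596323084400), (100, 1856630160000), (105, 1871987436000), (125, 1272597618160), (126,
 1431648108000), (135, 1733075902800), (140, 1664092188000), (147, 1880394555600), (150,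
 1138216860000), (175, 1713916908000), (189, 1569077730000), (196, 1569238110000), (210,
 1701638928000), (225, 1752039234000), (245, 1899960915600), (250, 1322718012000), (294,
 1436844420000), (315, 1728056008800), (343, 1671159600000), (350, 1551259512000), (375,
 1866598668000), (441, 1511501310000), (490, 1658817468000), (525, 1476971496000), (625,
 1722442546000), (686, 1603800000000), (735, 1509870780000), (875, 1593824364000), (1029,
 1512704160000), (1225, 1530746910000), (1715, 1507572000000), (2401, 1603800000000)])))))))))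
 (.cut 1 [(2, 1), (3, -1)] (.add (.mul (.g 9) (.pp [(1, 1)])) (.mul (.g 12) (.pp [(1, 1)]))) (.rule
 0 (.cut 450 [(2, -1), (5, 1)] (.add (.mul (.g 12) (.pp [(1, 310)])) (.add (.mul (.g 13) (.pp [(1,
 7)])) (.mul (.g 4) (.pp [(1, 9)])))) (.rule 3 (.rule 11 (.rule 25 (.leaf 990000000 (.add (.add
 (.add (.add (.mul (.g 20) (.add (.add (.mul (.g 13) (.add (.add (.mul (.g 13) (.add (.add (.mul
 (.g 7) (.pp [(1, 78794100000)])) (.mul (.g 13) (.pp [(1, 558459000000)]))) (.add (.mul (.g 15)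
 (.pp [(1, 637352100000)])) (.mul (.g 18) (.pp [(1, 1080921600000)]))))) (.mul (.g 10) (.add (.mul
 (.g 11) (.pp [(1, 2174792400000)])) (.add (.mul (.g 14) (.pp [(1, 4151446200000)])) (.mul (.g 20)
 (.pp [(1, 2684889900000)])))))) (.add (.mul (.g 18) (.add (.mul (.g 11) (.pp [(1, 395158500000)]))
 (.mul (.g 20) (.pp [(1, 103682700000)])))) (.mul (.g 8) (.mul (.g 20) (.pp [(1, 1089594000)]))))))
 (.add (.mul (.g 8) (.add (.pp [(1, 26209656000)]) (.add (.mul (.g 11) (.add (.mul (.g 10) (.pp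
 [(1, 46473174000)])) (.add (.mul (.g 12) (.pp [(1, 11519046000)])) (.mul (.g 16) (.pp [(1,
 577170000)]))))) (.mul (.g 10) (.mul (.g 20) (.pp [(1, 47145780000)])))))) (.mul (.g 10) (.mul (.g
 10) (.add (.mul (.g 7) (.pp [(1, 448636100000)])) (.add (.mul (.g 10) (.pp [(1, 912215700000)]))
 (.mul (.g 16) (.pp [(1, 2224025100000)])))))))) (.add (.add (.mul (.g 12) (.add (.mul (.pp [(1,
 5240070)]) (.sq [(1, -45), (2, -100), (3, -65), (5, 47), (7, 62)])) (.add (.mul (.pp [(1,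
 1006830)]) (.sq [(1, -21), (2, -9), (3, 61), (5, -71), (7, 100)])) (.mul (.g 11) (.mul (.g 20)
 (.pp [(1, 319601700000)])))))) (.mul (.g 14) (.mul (.pp [(1, 4907430)]) (.sq [(1, 74), (2, -71),
 (3, 100), (5, -41), (7, -68)])))) (.add (.mul (.g 16) (.mul (.pp [(1, 2895750)]) (.sq [(1, 36),
 (2, -27), (3, -100), (5, 37), (7, -92)]))) (.mul (.g 18) (.pp [(1, 52905600000)])))))) (.add (.mul
 (.g 10) (.add (.mul (.g 10) (.add (.add (.mul (.pp [(1, 9930690)]) (.sq [(1, -31), (2, -100), (3,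
 -82), (5, 35), (7, 66)])) (.mul (.g 8) (.add (.mul (.g 12) (.pp [(1, 17344008000)])) (.add (.mul
 (.g 14) (.pp [(1, 13714272000)])) (.mul (.g 17) (.pp [(1, 1624926600)])))))) (.add (.mul (.g 10)
 (.add (.mul (.g 6) (.pp [(1, 70777080000)])) (.mul (.g 17) (.pp [(1, 689040000)])))) (.mul (.g 11)
 (.mul (.g 15) (.pp [(1, 2359407600000)])))))) (.add (.mul (.g 14) (.add (.mul (.g 17) (.add (.mul
 (.g 8) (.pp [(1, 6080114700)])) (.add (.mul (.g 13) (.pp [(1, 1098405000)])) (.mul (.g 14) (.pp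
 [(1, 14652495000)]))))) (.add (.mul (.g 11) (.mul (.g 13) (.pp [(1, 1335935700000)]))) (.mul (.g
 14) (.mul (.g 14) (.pp [(1, 193554900000)])))))) (.mul (.g 11) (.add (.mul (.g 6) (.add (.mul (.g
 11) (.pp [(1, 392731020000)])) (.mul (.g 12) (.pp [(1, 577558080000)])))) (.mul (.g 8) (.mul (.g
 12) (.pp [(1, 10715760000)])))))))) (.mul (.g 18) (.add (.add (.mul (.g 18) (.add (.add (.mul (.g
 11) (.add (.mul (.g 11) (.pp [(1, 2173950900000)])) (.mul (.g 12) (.pp [(1, 1131787800000)]))))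
 (.mul (.g 6) (.mul (.g 12) (.pp [(1, 833580000)])))) (.add (.mul (.g 14) (.pp [(1,
 148212900000)])) (.add (.mul (.g 16) (.pp [(1, 5826407400000)])) (.mul (.g 17) (.pp [(1,
 3966435000)])))))) (.mul (.g 9) (.add (.mul (.g 17) (.add (.mul (.g 16) (.pp [(1, 9591615000)]))
 (.mul (.g 17) (.pp [(1, 76927950)])))) (.mul (.g 11) (.mul (.g 13) (.pp [(1, 221761980000)]))))))
 (.add (.mul (.g 16) (.add (.mul (.g 6) (.mul (.g 16) (.pp [(1, 602218980000)]))) (.mul (.g 12)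
 (.mul (.g 17) (.pp [(1, 120841875000)]))))) (.mul (.g 8) (.pp [(1, 26641692000)]))))))) (.add
 (.mul (.g 13) (.add (.add (.mul (.g 8) (.add (.mul (.g 11) (.add (.mul (.g 14) (.pp [(1,
 39656034000)])) (.mul (.g 17) (.pp [(1, 1254993300)])))) (.add (.mul (.g 6) (.mul (.g 12) (.pp
 [(1, 109810800)]))) (.mul (.g 8) (.mul (.g 16) (.pp [(1, 545101920)])))))) (.mul (.g 13) (.add
 (.mul (.g 6) (.add (.mul (.g 14) (.pp [(1, 30917700000)])) (.mul (.g 17) (.pp [(1, 128502000)]))))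
 (.add (.mul (.g 9) (.mul (.g 11) (.pp [(1, 90139500000)]))) (.mul (.g 14) (.mul (.g 17) (.pp [(1,
 10989990000)]))))))) (.add (.mul (.g 12) (.mul (.pp [(1, 8545680)]) (.sq [(1, 14), (2, 61), (3,
 100), (5, -49), (7, -8)]))) (.mul (.g 14) (.mul (.g 14) (.mul (.g 15) (.pp [(1,
 105207300000)]))))))) (.add (.mul (.g 8) (.add (.mul (.g 11) (.add (.pp [(1, 56153394000)]) (.mul
 (.g 8) (.mul (.g 12) (.pp [(1, 90660240)]))))) (.add (.mul (.g 15) (.mul (.g 16) (.pp [(1,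
 16950186000)]))) (.mul (.g 17) (.pp [(1, 285842700)]))))) (.mul (.g 6) (.add (.mul (.g 15) (.add
 (.pp [(1, 221625360000)]) (.mul (.g 15) (.mul (.g 16) (.pp [(1, 1182060000)]))))) (.mul (.g 14)
 (.mul (.pp [(1, 3404808)]) (.sq [(1, -15), (2, 23), (3, -19), (5, -11), (7, 50)])))))))) (.add
 (.add (.mul (.g 0) (.pp [(1, 300000000000)])) (.add (.mul (.g 1) (.pp [(1, 3960000000)])) (.mul
 (.g 2) (.pp [(1, 3300000000000)])))) (.add (.add (.mul (.g 4) (.pp [(1, 3300000000000)])) (.mul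
 (.g 14) (.mul (.g 14) (.mul (.pp [(1, 33761970)]) (.sq [(1, -66), (2, 100), (3, -59), (5, 5), (7,
 91)]))))) (.add (.mul (.g 17) (.mul (.g 17) (.mul (.g 17) (.pp [(1, 170703225)])))) (.mul (.g 19)
 (.pp [(1, 3300000000000)])))))) (.pp [(1, 50191662975), (2, 112101960), (3, 87360270), (4,
 92651460), (5, 109763310), (6, 103749360), (7, 106539840), (8, 95184540), (9, 99726990), (10,
 81973320), (12, 105035040), (14, 91765080), (15, 105074310), (16, 99000000), (18, 90923580), (19,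
 9900000000000), (20, 101149048), (21, 98588160), (24, 105373620), (25, 94972680), (27, 103290000),
 (28, 114219270), (30, 98908392), (35, 91733400), (36, 104680620), (40, 97666272), (42, 85745880),
 (45, 97500612), (49, 82210590), (50, 112543728), (54, 94050000), (56, 93097620), (60, 99457688),
 (63, 115533000), (70, 94279680), (75, 83545176), (81, 99000000), (84, 103050090), (90, 112245408),
 (98, 105429060), (100, 105326892), (105, 115481520), (125, 100795662), (126, 90684000), (135,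
 97200180), (140, 102016640), (147, 114016320), (150, 89091684), (175, 90882990), (189, 99000000),
 (196, 100810710), (210, 102833280), (225, 104782590), (245, 116788320), (250, 90512928), (294,
 97249680), (315, 83755980), (343, 105898320), (350, 97920900), (375, 106186410), (441, 96228000),
 (490, 88704000), (525, 111122550), (625, 100980000), (686, 100615680), (735, 80300880), (875,
 96848730), (1029, 96228000), (1225, 108222840), (1715, 90133560), (2401, 99000000)])))))))))))))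
 (P_TpB ++ xP_G_T6) = true := by decide +kernel

end Pool.Agent.Helper62.TW
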