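import Pool.Agent.Helper62.TW.Goals

/-!
# Case trees, part 7 (generated)
-/

set_option autoImplicit false
set_option maxRecDepth 100000
set_option linter.all false

namespace Pool.Agent.Helper62.TW

open Pool.Agent.Helper83.Cert

theorem t_A_F5a_free : chk RFp gP_A_F5a
 (.split [(2, 1), (3, -1)]
 (.rule 0 (.rule 6 (.leaf 3000000 (.add (.add (.add (.add (.mul (.g 4) (.add (.add (.mul (.g 5)
 (.add (.mul (.g 12) (.add (.add (.pp [(1, 1959750000)]) (.mul (.g 5) (.pp [(1, 8523690000)])))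
 (.add (.mul (.g 7) (.pp [(1, 10935930000)])) (.mul (.g 12) (.pp [(1, 11009520000)]))))) (.add
 (.mul (.g 13) (.add (.mul (.g 3) (.pp [(1, 7569510000)])) (.add (.mul (.g 7) (.pp [(1,
 10732260000)])) (.mul (.g 8) (.pp [(1, 1661490000)]))))) (.mul (.g 4) (.add (.mul (.g 7) (.pp [(1,
 11732820000)])) (.mul (.g 10) (.pp [(1, 35341500)]))))))) (.mul (.g 2) (.add (.pp [(1,
 624210000)]) (.add (.mul (.g 2) (.add (.pp [(1, 9483660000)]) (.mul (.g 2) (.pp [(1,
 95430000)])))) (.mul (.g 3) (.add (.pp [(1, 2125350000)]) (.mul (.g 13) (.pp [(1,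
 89760000)])))))))) (.add (.mul (.g 4) (.add (.mul (.pp [(1, 1086)]) (.sq [(1, -79), (2, 100), (3,
 100)])) (.mul (.g 4) (.add (.mul (.g 3) (.pp [(1, 206730000)])) (.mul (.g 9) (.pp [(1,
 515010000)])))))) (.mul (.g 12) (.add (.pp [(1, 62820000)]) (.mul (.g 12) (.mul (.g 12) (.pp [(1,
 67740000)])))))))) (.mul (.g 7) (.add (.mul (.g 9) (.add (.mul (.g 9) (.add (.pp [(1, 354600000)])
 (.mul (.g 7) (.pp [(1, 275160000)])))) (.mul (.g 5) (.mul (.g 13) (.pp [(1, 785100000)]))))) (.add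
 (.mul (.g 10) (.add (.mul (.g 2) (.pp [(1, 6756000)])) (.add (.mul (.g 3) (.mul (.g 3) (.pp [(1,
 13773000)]))) (.mul (.g 10) (.pp [(1, 498150)]))))) (.mul (.g 12) (.mul (.pp [(1, 17913)]) (.sq
 [(1, -5), (2, 100), (5, -52)]))))))) (.add (.mul (.g 3) (.add (.mul (.g 13) (.add (.mul (.g 3)
 (.add (.mul (.g 5) (.pp [(1, 1158180000)])) (.mul (.g 9) (.pp [(1, 274560000)])))) (.mul (.g 2)
 (.mul (.g 13) (.pp [(1, 1549680000)]))))) (.mul (.g 10) (.add (.mul (.g 5) (.pp [(1, 119565000)]))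
 (.mul (.g 9) (.pp [(1, 378070500)])))))) (.mul (.g 5) (.add (.mul (.g 5) (.add (.mul (.g 10) (.mul
 (.g 10) (.pp [(1, 981750)]))) (.mul (.g 12) (.mul (.g 13) (.pp [(1, 435810000)]))))) (.mul (.g 9)
 (.mul (.g 13) (.pp [(1, 979890000)]))))))) (.add (.add (.mul (.g 0) (.pp [(1, 10000000000)]))
 (.mul (.g 1) (.pp [(1, 10000000000)]))) (.add (.mul (.g 9) (.mul (.pp [(1, 89742)]) (.sq [(1,
 -45), (2, 100), (5, -12)]))) (.mul (.g 11) (.pp [(1, 10000000000)]))))) (.pp [(1, 10202025), (2,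
 300525), (3, 298275), (4, 274500), (5, 291690), (6, 294675), (8, 317000), (9, 332274), (10,
 305820), (12, 333000), (15, 293400), (16, 300000), (18, 298800), (20, 284000), (24, 300000), (25,
 300138), (27, 278800), (30, 300840), (36, 270000), (40, 300000), (45, 316500), (50, 310400), (54,
 270000), (60, 295200), (75, 293904), (81, 300000), (90, 300000), (100, 300000), (125, 307152),
 (135, 300000), (150, 283248), (225, 330000), (250, 300000), (375, 300000), (625, 300000)])))))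
 (.rule 1 (.rule 6 (.leaf 6000 (.add (.add (.add (.add (.mul (.g 5) (.add (.add (.mul (.g 4) (.add
 (.add (.mul (.g 4) (.add (.mul (.g 2) (.pp [(1, 14353200)])) (.mul (.g 10) (.pp [(1, 717630)]))))
 (.mul (.g 7) (.add (.pp [(1, 22859100)]) (.mul (.g 13) (.pp [(1, 8224800)]))))) (.add (.mul (.g
 12) (.add (.pp [(1, 12239100)]) (.mul (.g 12) (.pp [(1, 21634800)])))) (.add (.mul (.g 3) (.mul
 (.g 10) (.pp [(1, 30)]))) (.mul (.g 13) (.mul (.g 13) (.pp [(1, 2253000)]))))))) (.mul (.g 3)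
 (.add (.mul (.g 3) (.add (.pp [(1, 11080020)]) (.add (.mul (.g 7) (.pp [(1, 1200)])) (.mul (.g 13)
 (.pp [(1, 600)]))))) (.add (.mul (.g 5) (.mul (.g 12) (.pp [(1, 8224800)]))) (.mul (.g 10) (.pp
 [(1, 1411269)])))))) (.add (.mul (.g 5) (.add (.pp [(1, 2212200)]) (.add (.mul (.g 13) (.add (.mul
 (.g 12) (.pp [(1, 3511800)])) (.mul (.g 13) (.pp [(1, 785400)])))) (.mul (.g 2) (.mul (.g 5) (.pp
 [(1, 600)])))))) (.add (.mul (.g 2) (.add (.pp [(1, 11985840)]) (.mul (.g 7) (.pp [(1,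
 692760)])))) (.mul (.g 7) (.pp [(1, 23400)])))))) (.mul (.g 4) (.add (.add (.mul (.g 4) (.add
 (.mul (.g 2) (.add (.mul (.g 3) (.pp [(1, 1320)])) (.mul (.g 4) (.pp [(1, 4680)])))) (.add (.mul
 (.g 12) (.add (.mul (.g 7) (.pp [(1, 2160)])) (.mul (.g 12) (.pp [(1, 328920)])))) (.mul (.g 4)
 (.mul (.g 4) (.pp [(1, 391800)])))))) (.mul (.g 2) (.mul (.g 3) (.mul (.g 3) (.pp [(1, 3360)])))))
 (.add (.mul (.g 7) (.pp [(1, 60)])) (.mul (.g 12) (.pp [(1, 169920)])))))) (.add (.mul (.g 3)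
 (.add (.mul (.g 3) (.mul (.g 12) (.add (.mul (.g 2) (.pp [(1, 960)])) (.mul (.g 12) (.pp [(1,
 120)]))))) (.mul (.g 7) (.pp [(1, 1020)])))) (.mul (.g 7) (.add (.pp [(1, 1620)]) (.mul (.g 2)
 (.mul (.g 2) (.mul (.g 10) (.pp [(1, 30)])))))))) (.add (.add (.mul (.g 0) (.pp [(1, 20000000)]))
 (.mul (.g 1) (.pp [(1, 20000000)]))) (.add (.mul (.g 11) (.pp [(1, 20000000)])) (.mul (.g 12) (.pp
 [(1, 26580)]))))) (.pp [(1, 73800), (2, 600), (3, 600), (4, 630), (5, 600), (6, 600), (8, 630),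
 (9, 570), (10, 579), (12, 540), (15, 600), (16, 600), (18, 630), (20, 640), (24, 600), (25, 600),
 (27, 600), (30, 570), (36, 600), (40, 600), (45, 630), (50, 580), (54, 600), (60, 600), (75, 600),
 (81, 600), (90, 600), (100, 600), (125, 600), (135, 600), (150, 600), (225, 600), (250, 600),
 (375, 600), (625, 600)]))))))
 (P_free ++ xP_A_F5a) = true := by decide +kernel

theorem t_A_F5b_free : chk RFp gP_A_F5b
 (.cut 1 [(2, -1), (3, 1)] (.add (.mul (.g 9) (.pp [(1, 1)])) (.mul (.g 4) (.pp [(1, 1)]))) (.rule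
 1 (.cut 20 [(2, 1), (5, -1)] (.add (.add (.mul (.g 2) (.pp [(1, 11)])) (.mul (.g 1) (.pp [(1,
 11)]))) (.add (.mul (.g 11) (.pp [(1, 9)])) (.mul (.g 9) (.pp [(1, 1)])))) (.rule 2 (.leaf
 60000000 (.add (.add (.add (.mul (.g 6) (.add (.add (.pp [(1, 14223000000)]) (.add (.mul (.g 4)
 (.add (.add (.mul (.g 4) (.add (.mul (.g 11) (.pp [(1, 480000)])) (.mul (.g 14) (.pp [(1,
 15600000)])))) (.mul (.g 8) (.mul (.g 8) (.pp [(1, 28200000)])))) (.add (.mul (.g 11) (.pp [(1,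
 29996100000)])) (.mul (.g 14) (.pp [(1, 12000000)]))))) (.mul (.g 6) (.mul (.g 6) (.add (.add (.pp
 [(1, 206813400000)]) (.mul (.g 6) (.pp [(1, 7862400000)]))) (.add (.mul (.g 8) (.pp [(1,
 13800000)])) (.mul (.g 11) (.pp [(1, 750000)])))))))) (.add (.add (.mul (.g 5) (.add (.mul (.g 5)
 (.mul (.g 5) (.pp [(1, 8400000)]))) (.add (.mul (.g 8) (.pp [(1, 25200000)])) (.mul (.g 14) (.pp
 [(1, 7200000)]))))) (.mul (.g 8) (.pp [(1, 269901600000)]))) (.add (.mul (.g 11) (.pp [(1,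
 1140000)])) (.mul (.g 14) (.pp [(1, 240845400000)])))))) (.add (.mul (.g 11) (.add (.add (.pp [(1,
 450000)]) (.mul (.pp [(1, 210000)]) (.sq [(2, 1), (3, 1), (5, 1)]))) (.add (.mul (.g 4) (.add (.pp
 [(1, 3870000)]) (.mul (.g 13) (.add (.mul (.g 8) (.pp [(1, 900000)])) (.mul (.g 14) (.pp [(1,
 300000)])))))) (.add (.mul (.g 5) (.add (.pp [(1, 360000)]) (.add (.mul (.pp [(1, 39)]) (.sq [(1,
 100), (2, 92), (3, 91), (5, 92)])) (.mul (.g 5) (.mul (.g 14) (.pp [(1, 60000)])))))) (.mul (.g 9)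
 (.mul (.pp [(1, 120)]) (.sq [(1, 15), (2, 22), (3, 11), (5, 50)]))))))) (.mul (.g 8) (.add (.pp
 [(1, 154800000)]) (.add (.mul (.g 4) (.add (.pp [(1, 147600000)]) (.add (.mul (.g 4) (.mul (.g 4)
 (.pp [(1, 31200000)]))) (.mul (.g 5) (.mul (.g 5) (.pp [(1, 30000000)])))))) (.mul (.g 8) (.mul
 (.pp [(1, 2400)]) (.sq [(1, -47), (2, 100), (3, 14), (5, -96)])))))))) (.add (.add (.mul (.g 10)
 (.mul (.g 10) (.add (.mul (.g 4) (.pp [(1, 18000000)])) (.mul (.g 10) (.pp [(1, 10200000)])))))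
 (.mul (.g 0) (.pp [(1, 200000000000)]))) (.add (.mul (.g 2) (.pp [(1, 200000000000)])) (.mul (.g
 12) (.pp [(1, 200000000000)]))))) (.pp [(1, 4575605400), (2, 5837400), (3, 5835000), (4, 6428880),
 (5, 6245400), (6, 6030480), (8, 6091680), (9, 6189120), (10, 5796000), (12, 4951536), (15,
 5713200), (16, 6038400), (18, 6082896), (20, 7458720), (24, 5839680), (25, 6171600), (27,
 6118449), (30, 5784192), (36, 5942400), (40, 5323200), (45, 5475936), (50, 5608800), (54,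
 6020340), (60, 5369280), (75, 5117136), (81, 6168780), (90, 6661440), (100, 6480000), (125,
 5150000), (135, 6698700), (150, 6160320), (225, 6891840), (250, 5520000), (375, 6961920), (625,
 6600000)])))))))
 (P_free ++ xP_A_F5b) = true := by decide +kernel

theorem t_A_F5c_c0 : chk ROp gP_A_F5c
 (.split [(1, -7), (3, 50)]
 (.cut 50 [(2, 1), (3, -1)] (.add (.add (.mul (.g 9) (.pp [(1, 45)])) (.mul (.g 8) (.pp [(1, 2)])))
 (.add (.mul (.g 3) (.pp [(1, 5)])) (.mul (.g 10) (.pp [(1, 9)])))) (.rule 0 (.cut 60 [(2, -1), (5,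
 1)] (.add (.add (.mul (.g 12) (.pp [(1, 11)])) (.mul (.g 10) (.pp [(1, 3)]))) (.add (.mul (.g 1)
 (.pp [(1, 5)])) (.mul (.g 7) (.pp [(1, 5)])))) (.rule 3 (.cut 3 [(1, 69), (3, -100)] (.add (.mul
 (.g 3) (.pp [(1, 145)])) (.add (.mul (.g 14) (.pp [(1, 31)])) (.mul (.g 9) (.pp [(1, 145)]))))
 (.rule 7 (.leaf 300000000 (.add (.add (.add (.add (.mul (.g 11) (.add (.add (.pp [(1,
 165768000000)]) (.add (.mul (.g 7) (.add (.pp [(1, 140502000000)]) (.add (.mul (.g 7) (.add (.mul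
 (.g 6) (.pp [(1, 18105420000)])) (.add (.mul (.g 11) (.pp [(1, 51021000000)])) (.mul (.g 12) (.pp
 [(1, 369342000000)]))))) (.mul (.g 8) (.mul (.g 11) (.pp [(1, 419928000000)])))))) (.mul (.g 9)
 (.add (.add (.mul (.g 9) (.mul (.g 12) (.pp [(1, 191283000000)]))) (.mul (.g 13) (.mul (.g 13)
 (.pp [(1, 117246000000)])))) (.add (.mul (.g 14) (.mul (.g 14) (.pp [(1, 67402500)]))) (.mul (.g
 15) (.mul (.g 19) (.pp [(1, 62766000000)])))))))) (.add (.add (.mul (.g 8) (.add (.pp [(1,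
 2146614000000)]) (.mul (.g 12) (.mul (.g 19) (.pp [(1, 239991000000)]))))) (.mul (.g 6) (.mul (.g
 6) (.mul (.g 6) (.pp [(1, 4690560)]))))) (.add (.mul (.g 12) (.pp [(1, 40974000000)])) (.mul (.g
 19) (.mul (.pp [(1, 4921800)]) (.sq [(1, 27), (2, -84), (3, 53), (5, -100)]))))))) (.mul (.g 6)
 (.add (.mul (.g 12) (.add (.add (.pp [(1, 16785360000)]) (.mul (.pp [(1, 408468)]) (.sq [(1, -22),
 (2, -39), (3, -91), (5, 100)]))) (.add (.mul (.pp [(1, 859320)]) (.sq [(1, 76), (2, 100), (3,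
 -27), (5, 14)])) (.mul (.g 7) (.mul (.g 7) (.pp [(1, 2013900000)])))))) (.add (.mul (.g 7) (.mul
 (.g 15) (.add (.pp [(1, 7808400000)]) (.mul (.g 18) (.pp [(1, 17209140000)]))))) (.mul (.g 16)
 (.add (.pp [(1, 2034396000)]) (.mul (.g 9) (.mul (.g 9) (.pp [(1, 1890468000)]))))))))) (.add
 (.mul (.g 8) (.add (.mul (.g 8) (.add (.mul (.g 8) (.add (.pp [(1, 364101000000)]) (.mul (.g 8)
 (.pp [(1, 76251000000)])))) (.mul (.g 16) (.mul (.g 19) (.pp [(1, 86527200000)]))))) (.mul (.g 14)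
 (.mul (.pp [(1, 1662120)]) (.sq [(1, 100), (2, -71), (3, 62), (5, -27)]))))) (.add (.mul (.g 15)
 (.add (.mul (.g 15) (.add (.mul (.g 9) (.mul (.g 9) (.pp [(1, 27834750000)]))) (.mul (.g 13) (.pp
 [(1, 47776500000)])))) (.add (.mul (.g 7) (.mul (.g 7) (.mul (.g 7) (.pp [(1, 150396000000)]))))
 (.mul (.g 18) (.mul (.pp [(1, 15930900)]) (.sq [(1, 4), (2, -58), (3, 49), (5, 100)])))))) (.mul
 (.g 12) (.add (.mul (.g 12) (.add (.pp [(1, 138387000000)]) (.mul (.pp [(1, 2283600)]) (.sq [(1,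
 62), (2, 100), (3, 8), (5, 47)])))) (.mul (.g 14) (.mul (.pp [(1, 317415)]) (.sq [(1, 100), (2,
 -29), (3, 30), (5, -72)])))))))) (.add (.add (.mul (.g 0) (.pp [(1, 600000000)])) (.mul (.g 2)
 (.pp [(1, 1000000000000)]))) (.add (.mul (.g 4) (.pp [(1, 1000000000000)])) (.add (.mul (.g 7)
 (.mul (.g 7) (.mul (.g 16) (.mul (.g 16) (.pp [(1, 67675680000)]))))) (.mul (.g 17) (.pp [(1,
 1000000000)])))))) (.pp [(1, 5364025704), (2, 32003760), (3, 30874320), (4, 29857947), (5,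
 31922196), (6, 32274876), (8, 30057231), (9, 26442072), (10, 28091364), (12, 25886997), (15,
 27150096), (16, 31920300), (18, 31944348), (20, 34573329), (24, 30399600), (25, 27851760), (27,
 32525404), (30, 26264172), (36, 26895300), (40, 28041000), (45, 34157484), (50, 31939920), (54,
 30355200), (60, 32199600), (75, 29695080), (81, 30832500), (90, 32437800), (100, 26953500), (125,
 30455520), (135, 27788100), (150, 30788400), (225, 28023600), (250, 29431200), (375, 31432800),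
 (625, 30364800)])))))))))
 (.split [(1, -3), (5, 2)]
 (.cut 64 [(2, 1), (3, -1)] (.add (.add (.mul (.g 2) (.pp [(1, 50)])) (.mul (.g 7) (.pp [(1,
 14)]))) (.add (.mul (.g 0) (.pp [(1, 7)])) (.mul (.g 1) (.pp [(1, 1)])))) (.rule 0 (.cut 14 [(2,
 -1), (5, 1)] (.add (.add (.mul (.g 8) (.pp [(1, 14)])) (.mul (.g 5) (.pp [(1, 50)]))) (.add (.mul
 (.g 2) (.pp [(1, 7)])) (.mul (.g 3) (.pp [(1, 1)])))) (.rule 3 (.leaf 150000000 (.add (.add (.add
 (.add (.mul (.g 7) (.add (.add (.pp [(1, 326890500000)]) (.add (.mul (.g 6) (.add (.add (.mul (.g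
 6) (.add (.mul (.g 5) (.pp [(1, 67590000)])) (.mul (.g 6) (.pp [(1, 4492500000)])))) (.mul (.g 4)
 (.mul (.g 13) (.pp [(1, 43050000)])))) (.add (.mul (.g 7) (.mul (.g 7) (.pp [(1, 1411500000)])))
 (.add (.mul (.g 11) (.pp [(1, 1488568500000)])) (.mul (.g 14) (.mul (.g 17) (.pp [(1,
 660000000)]))))))) (.mul (.g 7) (.add (.mul (.g 7) (.add (.pp [(1, 1021756500000)]) (.add (.mul
 (.g 7) (.pp [(1, 18103500000)])) (.mul (.g 8) (.pp [(1, 673500000)]))))) (.mul (.g 4) (.mul (.g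
 15) (.pp [(1, 87800000)]))))))) (.add (.mul (.g 10) (.add (.pp [(1, 1192513500000)]) (.add (.mul
 (.g 5) (.mul (.g 5) (.pp [(1, 370200)]))) (.mul (.g 8) (.mul (.g 8) (.pp [(1, 622500000)]))))))
 (.add (.mul (.g 5) (.pp [(1, 31662360000)])) (.mul (.g 8) (.mul (.g 8) (.mul (.g 17) (.pp [(1,
 174000000)])))))))) (.mul (.g 10) (.add (.add (.pp [(1, 44395500000)]) (.add (.mul (.g 10) (.add
 (.mul (.pp [(1, 9300)]) (.sq [(1, -47), (2, 100), (3, -96), (5, 14)])) (.mul (.g 14) (.mul (.g 15)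
 (.pp [(1, 376650000)]))))) (.mul (.g 6) (.mul (.g 6) (.mul (.g 11) (.pp [(1, 430500000)]))))))
 (.add (.add (.mul (.g 8) (.pp [(1, 1161000000)])) (.mul (.g 12) (.mul (.pp [(1, 57300)]) (.sq [(1,
 69), (2, -75), (3, 100), (5, 12)])))) (.add (.mul (.g 17) (.mul (.pp [(1, 144000)]) (.sq [(2, 50),
 (3, 27), (5, 24)]))) (.mul (.g 18) (.mul (.pp [(1, 5100)]) (.sq [(1, 37), (2, 95), (3, 26), (5,
 100)])))))))) (.add (.mul (.g 6) (.add (.mul (.g 5) (.add (.pp [(1, 5865960000)]) (.mul (.pp [(1,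
 1869)]) (.sq [(1, 40), (2, 75), (3, 100), (5, 93)])))) (.add (.mul (.g 6) (.mul (.g 15) (.mul (.g
 15) (.pp [(1, 117000000)])))) (.mul (.g 11) (.pp [(1, 901500000)]))))) (.mul (.g 8) (.add (.add
 (.mul (.g 5) (.pp [(1, 55830000)])) (.mul (.g 8) (.mul (.g 12) (.mul (.g 14) (.pp [(1,
 15000000)]))))) (.add (.mul (.g 11) (.pp [(1, 645000000)])) (.mul (.g 15) (.mul (.pp [(1, 21750)])
 (.sq [(1, 20), (2, 19), (3, 19), (5, 19)])))))))) (.add (.add (.mul (.g 11) (.add (.pp [(1,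
 1533000000)]) (.mul (.g 17) (.mul (.pp [(1, 11550)]) (.sq [(1, -89), (2, 87), (3, 62), (5,
 100)]))))) (.mul (.g 0) (.pp [(1, 500000000000)]))) (.add (.mul (.g 2) (.pp [(1, 500000000000)]))
 (.add (.mul (.g 12) (.mul (.g 15) (.mul (.pp [(1, 8850)]) (.sq [(1, 84), (2, 100), (3, -17), (5,
 37)])))) (.mul (.g 16) (.pp [(1, 500000000)])))))) (.pp [(1, 10966450650), (2, 14197950), (3,
 16273800), (4, 19433850), (5, 14467950), (6, 11120250), (8, 12146175), (9, 14674650), (10,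
 13842780), (12, 18379500), (15, 12545850), (16, 15187500), (18, 11891400), (19, 1500000000000),
 (20, 15468600), (24, 14450700), (25, 14431200), (27, 17744900), (30, 14051700), (36, 16120650),
 (40, 14940000), (45, 18128200), (50, 16869033), (54, 13082550), (60, 14666700), (75, 18299100),
 (81, 14890050), (90, 12346200), (100, 13686000), (125, 16314000), (135, 13262300), (150,
 13015500), (225, 13709250), (250, 14251200), (375, 14337000), (625, 15000000)])))))))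
 (.cut 450 [(2, 1), (3, -1)] (.add (.add (.mul (.g 2) (.pp [(1, 310)])) (.mul (.g 10) (.pp [(1,
 140)]))) (.add (.mul (.g 9) (.pp [(1, 7)])) (.mul (.g 1) (.pp [(1, 9)])))) (.rule 0 (.cut 450 [(2,
 -1), (5, 1)] (.add (.mul (.g 10) (.pp [(1, 310)])) (.add (.mul (.g 11) (.pp [(1, 7)])) (.mul (.g
 3) (.pp [(1, 9)])))) (.rule 3 (.leaf 150000000 (.add (.add (.add (.add (.mul (.g 7) (.add (.add
 (.pp [(1, 330870000000)]) (.add (.mul (.g 6) (.add (.mul (.g 6) (.add (.mul (.g 4) (.pp [(1,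
 1836500000)])) (.add (.mul (.g 5) (.pp [(1, 167550000)])) (.mul (.g 6) (.pp [(1, 1008000000)])))))
 (.add (.mul (.g 11) (.add (.pp [(1, 1483798500000)]) (.mul (.g 4) (.pp [(1, 748500000)])))) (.mul
 (.g 7) (.mul (.g 7) (.pp [(1, 651000000)])))))) (.mul (.g 7) (.add (.mul (.g 7) (.add (.pp [(1,
 1022986500000)]) (.add (.mul (.g 4) (.pp [(1, 57500000)])) (.mul (.g 7) (.pp [(1,
 18115500000)]))))) (.mul (.g 15) (.mul (.g 18) (.pp [(1, 37800000)]))))))) (.add (.mul (.g 8)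
 (.add (.mul (.g 8) (.add (.mul (.g 10) (.pp [(1, 649500000)])) (.mul (.g 17) (.pp [(1,
 285000000)])))) (.mul (.g 10) (.mul (.g 17) (.pp [(1, 244500000)]))))) (.add (.mul (.g 5) (.pp
 [(1, 31716510000)])) (.mul (.g 10) (.pp [(1, 1187209500000)])))))) (.mul (.g 10) (.add (.add (.pp
 [(1, 43035000000)]) (.add (.mul (.g 6) (.mul (.g 6) (.add (.mul (.g 5) (.pp [(1, 135750000)]))
 (.mul (.g 11) (.pp [(1, 667500000)]))))) (.mul (.g 10) (.add (.mul (.pp [(1, 367500)]) (.sq [(1,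
 -5), (2, 16), (3, 20), (5, 5)])) (.mul (.g 14) (.mul (.g 15) (.pp [(1, 746700000)]))))))) (.add
 (.mul (.g 8) (.pp [(1, 1003500000)])) (.add (.mul (.g 12) (.mul (.pp [(1, 99300)]) (.sq [(1, 69),
 (2, -75), (3, 100), (5, 12)]))) (.mul (.g 18) (.mul (.pp [(1, 6750)]) (.sq [(1, 19), (2, 87), (3,
 30), (5, 100)])))))))) (.add (.mul (.g 6) (.add (.mul (.g 5) (.add (.pp [(1, 5851680000)]) (.mul
 (.pp [(1, 219)]) (.sq [(1, 40), (2, 75), (3, 100), (5, 93)])))) (.add (.mul (.g 6) (.mul (.g 15)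
 (.mul (.g 17) (.pp [(1, 696000000)])))) (.mul (.g 14) (.pp [(1, 986250000)]))))) (.add (.mul (.g
 8) (.add (.mul (.g 4) (.pp [(1, 363500000)])) (.add (.mul (.g 5) (.pp [(1, 117060000)])) (.mul (.g
 14) (.mul (.pp [(1, 2325)]) (.sq [(1, 47), (2, -100), (3, -23), (5, 80)])))))) (.mul (.g 11) (.add
 (.mul (.pp [(1, 1050)]) (.sq [(2, 100), (3, 100), (5, 99)])) (.mul (.g 17) (.mul (.pp [(1,
 12150)]) (.sq [(1, -89), (2, 87), (3, 62), (5, 100)])))))))) (.add (.add (.mul (.g 0) (.pp [(1,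
 500000000000)])) (.mul (.g 2) (.pp [(1, 500000000000)]))) (.add (.mul (.g 4) (.pp [(1,
 910500000)])) (.add (.mul (.g 12) (.mul (.g 15) (.mul (.pp [(1, 19050)]) (.sq [(1, 84), (2, 100),
 (3, -17), (5, 37)])))) (.mul (.g 16) (.pp [(1, 500000000)])))))) (.pp [(1, 11130509100), (2,
 14556600), (3, 14491800), (4, 15309000), (5, 13477500), (6, 18374250), (8, 15550275), (9,
 15613050), (10, 15271680), (12, 8720100), (15, 14410575), (16, 14857500), (18, 16831200), (19,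
 1500000000000), (20, 14679450), (24, 17919600), (25, 15466975), (27, 13951700), (30, 17868600),
 (36, 14210850), (40, 15593250), (45, 13109250), (50, 17100933), (54, 15753150), (60, 13384150),
 (75, 13694100), (81, 15322650), (90, 16800450), (100, 12873300), (125, 15316950), (135, 15568075),
 (150, 15475500), (225, 16086675), (250, 14839200), (375, 15221250), (625, 14880000)])))))))))
 (P_c0 ++ xP_A_F5c) = true := by decide +kernel

theorem t_A_T2_TpA_a : chk Rap gP_A_T2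
 (.split [(1, 1), (2, -20)]
 (.cut 1 [(1, -3), (3, 5)] (.add (.mul (.g 2) (.pp [(1, 2)])) (.mul (.g 9) (.pp [(1, 3)]))) (.cut 1
 [(1, 3), (3, -2)] (.add (.add (.mul (.g 2) (.pp [(1, 18)])) (.mul (.g 7) (.pp [(1, 2)]))) (.add
 (.mul (.g 4) (.pp [(1, 2)])) (.mul (.g 1) (.pp [(1, 1)])))) (.rule 8 (.cut 1 [(1, 2), (2, 1), (3,
 -2), (5, -1)] (.add (.mul (.g 9) (.pp [(1, 1)])) (.add (.mul (.g 14) (.pp [(1, 1)])) (.mul (.g 7)
 (.pp [(1, 1)])))) (.cut 90 [(1, -1), (2, -2), (3, 2), (5, 2)] (.add (.add (.mul (.g 4) (.pp [(1,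
 9)])) (.mul (.g 2) (.pp [(1, 5)]))) (.add (.mul (.g 7) (.pp [(1, 180)])) (.mul (.g 3) (.pp [(1,
 38)])))) (.rule 16 (.rule 4 (.leaf 60000000 (.add (.add (.add (.add (.mul (.g 9) (.add (.add (.mul
 (.g 18) (.add (.add (.pp [(1, 479080800000)]) (.add (.mul (.g 9) (.add (.add (.mul (.g 10) (.pp
 [(1, 185853000000)])) (.mul (.g 11) (.pp [(1, 1100672400000)]))) (.add (.mul (.g 12) (.pp [(1,
 136131000000)])) (.mul (.g 18) (.pp [(1, 60526200000)]))))) (.mul (.g 10) (.add (.mul (.g 12) (.pp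
 [(1, 93672600000)])) (.mul (.g 18) (.pp [(1, 351820200000)])))))) (.add (.mul (.g 8) (.mul (.g 8)
 (.pp [(1, 172825800000)]))) (.add (.mul (.g 14) (.mul (.g 16) (.pp [(1, 41529600000)]))) (.mul (.g
 18) (.pp [(1, 759211200000)])))))) (.add (.mul (.g 13) (.add (.add (.pp [(1, 394628400000)]) (.add
 (.mul (.g 11) (.add (.mul (.g 9) (.pp [(1, 343254600000)])) (.add (.mul (.g 10) (.pp [(1,
 101062800000)])) (.mul (.g 11) (.pp [(1, 165070200000)]))))) (.mul (.g 8) (.pp [(1,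
 371935200000)])))) (.add (.mul (.g 10) (.mul (.g 16) (.pp [(1, 5208600000)]))) (.add (.mul (.g 13)
 (.pp [(1, 490893000000)])) (.mul (.g 15) (.mul (.g 15) (.pp [(1, 870000)]))))))) (.mul (.g 11)
 (.add (.pp [(1, 477232800000)]) (.add (.mul (.g 16) (.add (.mul (.g 11) (.pp [(1,
 1230200400000)])) (.mul (.g 16) (.pp [(1, 1227345600000)])))) (.mul (.g 7) (.mul (.g 9) (.pp [(1,
 18513450000)])))))))) (.add (.mul (.g 8) (.add (.pp [(1, 25871400000)]) (.mul (.g 7) (.add (.pp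
 [(1, 13531470000)]) (.mul (.g 12) (.pp [(1, 10693890000)])))))) (.add (.mul (.g 15) (.add (.mul
 (.g 9) (.add (.pp [(1, 2865240000)]) (.mul (.g 12) (.pp [(1, 11037270000)])))) (.mul (.g 12) (.mul
 (.g 15) (.pp [(1, 2272500)]))))) (.mul (.g 10) (.mul (.g 14) (.pp [(1, 124864800000)]))))))) (.add
 (.mul (.g 11) (.add (.add (.pp [(1, 117997200000)]) (.add (.mul (.g 10) (.add (.add (.pp [(1,
 441281400000)]) (.mul (.g 12) (.add (.mul (.g 13) (.pp [(1, 36642600000)])) (.mul (.g 16) (.pp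
 [(1, 189622200000)]))))) (.add (.mul (.g 14) (.pp [(1, 126834000000)])) (.add (.mul (.g 16) (.mul
 (.g 16) (.pp [(1, 82294200000)]))) (.mul (.g 18) (.pp [(1, 1067129400000)])))))) (.mul (.g 11)
 (.add (.mul (.g 14) (.add (.pp [(1, 212026200000)]) (.mul (.g 7) (.pp [(1, 7450830000)])))) (.add
 (.mul (.g 18) (.add (.mul (.g 13) (.pp [(1, 57912000000)])) (.mul (.g 16) (.pp [(1,
 56562000000)])))) (.mul (.g 15) (.pp [(1, 3603540000)]))))))) (.add (.add (.mul (.g 7) (.add (.mul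
 (.pp [(1, 1029)]) (.sq [(1, 48), (2, 10), (3, -100), (5, 90), (7, -91)])) (.mul (.pp [(1, 4740)])
 (.sq [(1, 83), (2, 67), (3, 100), (5, 100), (7, 67)])))) (.mul (.g 18) (.add (.mul (.pp [(1,
 17400)]) (.sq [(1, -80), (2, -20), (3, 62), (5, 83), (7, 100)])) (.mul (.g 12) (.mul (.g 18) (.pp
 [(1, 3008400000)])))))) (.add (.mul (.g 8) (.pp [(1, 203738400000)])) (.mul (.g 16) (.mul (.g 16)
 (.mul (.g 16) (.pp [(1, 85167000000)])))))))) (.mul (.g 8) (.add (.add (.mul (.g 8) (.add (.mul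
 (.g 16) (.add (.mul (.g 7) (.pp [(1, 79410000)])) (.mul (.g 16) (.pp [(1, 8287200000)])))) (.mul
 (.g 18) (.add (.pp [(1, 22746600000)]) (.mul (.g 8) (.pp [(1, 191673600000)])))))) (.mul (.g 10)
 (.add (.pp [(1, 467824200000)]) (.mul (.pp [(1, 4516080)]) (.sq [(1, -34), (2, -13), (3, 24), (5,
 -18), (7, 100)]))))) (.add (.mul (.g 7) (.pp [(1, 29855700000)])) (.add (.mul (.g 12) (.mul (.pp
 [(1, 332760)]) (.sq [(1, -42), (2, 100), (3, -60), (5, 100), (7, 13)]))) (.mul (.g 16) (.pp [(1,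
 1146427800000)])))))))) (.add (.mul (.g 10) (.add (.add (.mul (.g 18) (.mul (.g 18) (.add (.pp
 [(1, 676896000000)]) (.mul (.g 18) (.pp [(1, 61745400000)]))))) (.mul (.g 12) (.mul (.pp [(1,
 78000)]) (.sq [(1, 50), (2, 13), (3, 100), (5, 66), (7, 13)])))) (.add (.mul (.g 13) (.pp [(1,
 620706000000)])) (.mul (.g 16) (.pp [(1, 131883600000)]))))) (.add (.mul (.g 13) (.add (.add (.mul
 (.g 12) (.mul (.pp [(1, 592560)]) (.sq [(1, 8), (2, -15), (3, -43), (5, 56), (7, 100)]))) (.mul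
 (.g 13) (.mul (.pp [(1, 1794180)]) (.sq [(1, -35), (2, -11), (3, 34), (5, 69), (7, 100)])))) (.add
 (.mul (.g 14) (.mul (.pp [(1, 4478040)]) (.sq [(1, -8), (2, 24), (3, -41), (5, 27), (7, 100)])))
 (.mul (.g 15) (.mul (.pp [(1, 62526)]) (.sq [(1, -78), (2, -34), (3, 100), (5, 65), (7, -7)]))))))
 (.mul (.g 12) (.add (.mul (.g 12) (.mul (.pp [(1, 743400)]) (.sq [(1, -27), (2, 2), (3, 38), (5,
 52), (7, 100)]))) (.mul (.g 16) (.mul (.pp [(1, 4768860)]) (.sq [(1, -33), (2, 100), (3, 21), (5,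
 -28), (7, -25)])))))))) (.add (.add (.mul (.g 18) (.add (.mul (.g 15) (.mul (.pp [(1, 14520)])
 (.sq [(1, -53), (2, -44), (3, 100), (5, 77), (7, -17)]))) (.mul (.g 18) (.mul (.pp [(1, 2625360)])
 (.sq [(1, 44), (2, -88), (3, 29), (5, -100), (7, -8)]))))) (.add (.mul (.g 0) (.pp [(1,
 200000000000)])) (.mul (.g 1) (.pp [(1, 200000000000)])))) (.add (.mul (.g 4) (.pp [(1,
 60000000)])) (.add (.mul (.g 16) (.pp [(1, 848059800000)])) (.mul (.g 17) (.pp [(1,
 200000000000)])))))) (.pp [(1, 38323412416), (2, 5652012), (3, 6651504), (4, 5811240), (5,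
 6410544), (6, 7898544), (7, 5716452), (8, 6003624), (9, 4494240), (10, 7313904), (12, 6439776),
 (14, 7439472), (15, 3320880), (16, 5808780), (18, 4128780), (20, 7031856), (21, 6078552), (23,
 600000000000), (24, 6360360), (25, 5422710), (27, 6722540), (28, 5956464), (30, 2396040), (35,
 5874852), (36, 6179700), (40, 5804400), (42, 5133096), (45, 8976240), (49, 6456810), (50,
 4973670), (54, 5842860), (56, 6172320), (60, 6205800), (63, 6019080), (70, 3525756), (75,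
 6918450), (81, 6185400), (84, 6907680), (90, 6780120), (98, 4010406), (100, 5628120), (105,
 8097060), (125, 6514530), (126, 6202920), (135, 5161200), (140, 5956560), (147, 6992094), (150,
 6721320), (175, 6218160), (189, 6357120), (196, 6504480), (210, 8672640), (225, 5675700), (245,
 7381014), (250, 6402240), (294, 7207020), (315, 4412400), (343, 5933991), (350, 7147920), (375,
 5562840), (441, 5469960), (490, 7452240), (525, 5580600), (625, 5847180), (686, 6347700), (735,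
 4106160), (875, 5540400), (1029, 5806560), (1225, 5876880), (1715, 5589600), (2401,
 5976960)]))))))))))
 (.cut 1 [(2, -1), (3, 1)] (.add (.mul (.g 9) (.pp [(1, 1)])) (.mul (.g 5) (.pp [(1, 1)]))) (.rule
 1 (.cut 1 [(2, 1), (5, -1)] (.add (.mul (.g 11) (.pp [(1, 1)])) (.mul (.g 8) (.pp [(1, 1)])))
 (.rule 2 (.cut 11 [(1, -3), (3, 5)] (.add (.mul (.g 1) (.pp [(1, 40)])) (.add (.mul (.g 12) (.pp
 [(1, 2)])) (.mul (.g 13) (.pp [(1, 15)])))) (.cut 1 [(1, 3), (3, -2)] (.add (.add (.mul (.g 11)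
 (.pp [(1, 1)])) (.mul (.g 16) (.pp [(1, 1)]))) (.add (.mul (.g 8) (.pp [(1, 1)])) (.add (.mul (.g
 9) (.pp [(1, 1)])) (.mul (.g 10) (.pp [(1, 1)]))))) (.rule 8 (.rule 23 (.leaf 13200000000 (.add
 (.add (.add (.add (.mul (.g 10) (.add (.add (.add (.mul (.g 19) (.add (.add (.pp [(1,
 29814576000000)]) (.add (.mul (.g 10) (.add (.mul (.g 12) (.pp [(1, 65396760000000)])) (.add (.mul
 (.g 13) (.pp [(1, 40242180000000)])) (.mul (.g 14) (.pp [(1, 21070632000000)]))))) (.mul (.g 11)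
 (.add (.mul (.g 11) (.pp [(1, 67523016000000)])) (.mul (.g 13) (.pp [(1, 32222388000000)]))))))
 (.add (.add (.mul (.g 12) (.add (.mul (.g 12) (.pp [(1, 1021020000000)])) (.mul (.g 15) (.pp [(1,
 53570352000000)])))) (.mul (.g 9) (.mul (.g 9) (.pp [(1, 34646172000000)])))) (.add (.mul (.g 17)
 (.mul (.g 17) (.pp [(1, 23494680000000)]))) (.mul (.g 19) (.pp [(1, 41951976000000)])))))) (.mul
 (.g 12) (.add (.add (.mul (.g 10) (.add (.mul (.g 13) (.pp [(1, 88588764000000)])) (.mul (.g 14)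
 (.pp [(1, 1665444000000)])))) (.mul (.g 12) (.add (.mul (.g 13) (.pp [(1, 26288064000000)])) (.mul
 (.g 17) (.pp [(1, 113073576000000)]))))) (.add (.mul (.g 8) (.mul (.g 11) (.pp [(1,
 455723400000)]))) (.add (.mul (.g 14) (.pp [(1, 31666536000000)])) (.mul (.g 17) (.mul (.g 17)
 (.pp [(1, 127125636000000)])))))))) (.add (.mul (.g 11) (.add (.mul (.pp [(1, 5839838400)]) (.sq
 [(1, 33), (2, -13), (3, 12), (5, -40), (7, 50)])) (.add (.mul (.pp [(1, 713103600)]) (.sq [(1,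
 -28), (2, 14), (3, -32), (5, 100), (7, 73)])) (.mul (.g 11) (.mul (.g 17) (.pp [(1,
 78774036000000)])))))) (.mul (.g 9) (.add (.mul (.g 9) (.mul (.g 17) (.pp [(1, 52061460000000)])))
 (.mul (.g 13) (.mul (.g 13) (.pp [(1, 37592280000000)]))))))) (.add (.add (.mul (.g 8) (.mul (.g
 8) (.mul (.g 8) (.pp [(1, 548757000)])))) (.mul (.g 13) (.mul (.g 15) (.mul (.g 15) (.pp [(1,
 11539440000000)]))))) (.add (.mul (.g 14) (.mul (.g 14) (.pp [(1, 82138980000000)]))) (.add (.mul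
 (.g 16) (.mul (.pp [(1, 4220700)]) (.sq [(1, 32), (2, -30), (3, -86), (5, 87), (7, 100)]))) (.mul
 (.g 17) (.pp [(1, 84590880000000)]))))))) (.add (.mul (.g 12) (.add (.add (.mul (.g 12) (.add
 (.mul (.g 17) (.add (.mul (.g 11) (.pp [(1, 44365728000000)])) (.add (.mul (.g 17) (.pp [(1,
 17106936000000)])) (.mul (.g 19) (.pp [(1, 9785028000000)]))))) (.add (.mul (.g 15) (.add (.pp
 [(1, 5334516000000)]) (.mul (.g 13) (.pp [(1, 7419588000000)])))) (.mul (.g 16) (.pp [(1,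
 3242230200000)]))))) (.add (.mul (.g 11) (.add (.pp [(1, 13866336000000)]) (.add (.mul (.g 9)
 (.mul (.g 17) (.pp [(1, 10638144000000)]))) (.mul (.g 13) (.mul (.g 15) (.pp [(1,
 5460576000000)])))))) (.mul (.g 15) (.add (.mul (.pp [(1, 1366609200)]) (.sq [(1, 23), (2, 71),
 (3, 52), (5, 100), (7, -28)])) (.mul (.g 8) (.mul (.g 8) (.pp [(1, 31222950000)]))))))) (.add
 (.mul (.g 19) (.add (.mul (.pp [(1, 2244000)]) (.sq [(1, 9), (2, -37), (3, -78), (5, 88), (7,
 -100)])) (.mul (.pp [(1, 72547200)]) (.sq [(1, 50), (2, 31), (3, 41), (5, 41), (7, 41)])))) (.add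
 (.mul (.g 9) (.pp [(1, 55250448000000)])) (.mul (.g 13) (.mul (.pp [(1, 440655600)]) (.sq [(1,
 -24), (2, -20), (3, 100), (5, -57), (7, -41)]))))))) (.mul (.g 14) (.add (.add (.mul (.g 11) (.add
 (.pp [(1, 27053004000000)]) (.add (.mul (.pp [(1, 2742498000)]) (.sq [(1, 12), (2, -39), (3, -87),
 (5, -31), (7, 100)])) (.mul (.g 14) (.pp [(1, 44929368000000)]))))) (.mul (.g 13) (.add (.pp [(1,
 17760864000000)]) (.add (.mul (.pp [(1, 644094000)]) (.sq [(1, -55), (2, 85), (3, 33), (5, 100),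
 (7, -30)])) (.mul (.pp [(1, 336006000)]) (.sq [(1, 23), (2, 29), (3, -75), (5, 54), (7,
 100)])))))) (.add (.mul (.g 8) (.add (.mul (.pp [(1, 14384040)]) (.sq [(1, 100), (2, 81), (3, 94),
 (5, 94), (7, 28)])) (.mul (.g 15) (.pp [(1, 577057800000)])))) (.add (.mul (.g 16) (.pp [(1,
 1378819200000)])) (.mul (.g 19) (.mul (.pp [(1, 1007344800)]) (.sq [(1, -18), (2, -56), (3, -41),
 (5, 59), (7, 100)]))))))))) (.add (.mul (.g 19) (.add (.add (.pp [(1, 1295844000000)]) (.mul (.g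
 11) (.add (.pp [(1, 18046908000000)]) (.add (.mul (.pp [(1, 1001880000)]) (.sq [(1, 36), (2, -12),
 (3, 59), (5, -92), (7, 100)])) (.mul (.g 11) (.add (.mul (.g 11) (.pp [(1, 26214936000000)]))
 (.mul (.g 13) (.pp [(1, 17211480000000)])))))))) (.add (.mul (.g 8) (.mul (.g 8) (.mul (.g 8) (.pp
 [(1, 1811221500)])))) (.mul (.g 19) (.mul (.pp [(1, 148856400)]) (.sq [(1, 2), (2, 65), (3, 22),
 (5, 100), (7, -31)])))))) (.add (.mul (.g 13) (.add (.mul (.g 13) (.add (.pp [(1, 4872648000000)])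
 (.mul (.pp [(1, 2385728400)]) (.sq [(1, -14), (2, 47), (3, 100), (5, -1), (7, -66)])))) (.add
 (.mul (.g 9) (.mul (.pp [(1, 238510800)]) (.sq [(1, 55), (2, -100), (3, 90), (5, -67), (7, 48)])))
 (.mul (.g 17) (.mul (.pp [(1, 5017108800)]) (.sq [(1, -8), (2, 100), (3, 52), (5, 52), (7,
 -39)])))))) (.mul (.g 16) (.add (.mul (.g 9) (.mul (.pp [(1, 33694980)]) (.sq [(1, 100), (2, 49),
 (3, -66), (5, -66), (7, -8)]))) (.add (.mul (.g 11) (.mul (.pp [(1, 9436680)]) (.sq [(1, 65), (2,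
 -60), (3, -41), (5, -71), (7, 100)]))) (.mul (.g 16) (.mul (.pp [(1, 420717)]) (.sq [(1, -6), (2,
 -33), (3, 14), (5, 100), (7, 95)]))))))))) (.add (.add (.mul (.g 17) (.add (.pp [(1,
 28324956000000)]) (.add (.mul (.g 9) (.pp [(1, 24657468000000)])) (.mul (.g 11) (.mul (.pp [(1,
 3384176400)]) (.sq [(1, 65), (2, -32), (3, -34), (5, -87), (7, 100)])))))) (.add (.mul (.g 0) (.pp
 [(1, 4000000000000)])) (.mul (.g 1) (.pp [(1, 13200000000)])))) (.add (.mul (.g 4) (.pp [(1,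
 44000000000000)])) (.add (.mul (.g 6) (.pp [(1, 44000000000000)])) (.mul (.g 18) (.pp [(1,
 44000000000000)])))))) (.pp [(1, 7960583142728), (2, 1461641188), (3, 1247140756), (4,
 1143371867), (5, 1358805320), (6, 1423114748), (7, 1247068680), (8, 1478091780), (9, 1131511788),
 (10, 1199550440), (12, 1161402880), (14, 1359874230), (15, 1098995920), (16, 1289046000), (18,
 1279153040), (20, 1511479200), (21, 1267067340), (23, 132000000000000), (24, 1390184400), (25,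
 1142849840), (27, 1465772880), (28, 1172553360), (30, 1158401200), (35, 1524696360), (36,
 1409654400), (40, 1289772000), (42, 1219946640), (45, 1668806920), (49, 1414346835), (50,
 1434169440), (54, 1248086400), (56, 1336064400), (60, 1465213200), (63, 1347023040), (70,
 961781040), (75, 1517459020), (81, 1344736800), (84, 1368853200), (90, 1266474000), (98,
 1343901240), (100, 1229421600), (105, 1264538880), (125, 1528351880), (126, 1422458400), (135,
 1248786000), (140, 1202374800), (147, 1145993640), (150, 1216393200), (175, 988761840), (189,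
 1366860000), (196, 1298880000), (210, 1531200000), (225, 1210545600), (245, 1571350440), (250,
 1351666800), (294, 1326679200), (315, 1408994400), (343, 1250607600), (350, 1539001200), (375,
 1165546800), (441, 1562167200), (490, 1526500800), (525, 1732024800), (625, 1266500400), (686,
 1323550800), (735, 1092946800), (875, 1269391200), (1029, 1418445600), (1225, 1371889200), (1715,
 1249353600), (2401, 1340842800)]))))))))))))
 (P_TpA ++ xP_A_T2) = true := by decide +kernel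

theorem t_A_T2_TpB_a : chk Rap gP_A_T2
 (.split [(1, 1), (2, -20)]
 (.cut 1 [(1, 5), (5, -4)] (.add (.add (.mul (.g 1) (.pp [(1, 16)])) (.mul (.g 2) (.pp [(1, 4)])))
 (.add (.mul (.g 6) (.pp [(1, 4)])) (.mul (.g 0) (.pp [(1, 1)])))) (.rule 11 (.rule 25 (.rule 4
 (.leaf 660000000 (.add (.add (.add (.add (.mul (.g 7) (.add (.add (.mul (.g 6) (.add (.add (.mul
 (.g 7) (.add (.pp [(1, 797781600000)]) (.add (.mul (.g 7) (.pp [(1, 916357200000)])) (.mul (.g 15)
 (.pp [(1, 394977000000)]))))) (.add (.mul (.g 13) (.add (.mul (.g 6) (.pp [(1, 2123807400000)]))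
 (.add (.mul (.g 8) (.pp [(1, 181559400000)])) (.mul (.g 10) (.pp [(1, 521010600000)]))))) (.mul
 (.g 12) (.add (.pp [(1, 77764500000)]) (.mul (.g 9) (.pp [(1, 51643020000)])))))) (.add (.mul (.g
 6) (.mul (.g 6) (.pp [(1, 812413800000)]))) (.add (.mul (.g 8) (.mul (.g 8) (.pp [(1,
 1450369800000)]))) (.mul (.g 11) (.mul (.g 15) (.pp [(1, 812565600000)]))))))) (.add (.mul (.g 5)
 (.add (.add (.mul (.g 4) (.add (.pp [(1, 165443190000)]) (.add (.mul (.g 7) (.pp [(1,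
 20566920000)])) (.mul (.g 9) (.pp [(1, 17973450000)]))))) (.mul (.g 15) (.add (.mul (.g 5) (.pp
 [(1, 795676200000)])) (.mul (.g 15) (.pp [(1, 250978200000)]))))) (.add (.mul (.g 8) (.mul (.g 9)
 (.pp [(1, 237025800000)]))) (.add (.mul (.g 10) (.pp [(1, 6259162800000)])) (.mul (.g 13) (.mul
 (.g 13) (.pp [(1, 117730800000)]))))))) (.mul (.g 13) (.add (.add (.pp [(1, 1927272600000)]) (.mul
 (.g 7) (.add (.pp [(1, 3886773000000)]) (.add (.mul (.g 8) (.pp [(1, 395274000000)])) (.mul (.g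
 10) (.pp [(1, 66000000)])))))) (.add (.mul (.g 8) (.pp [(1, 30195000000)])) (.mul (.g 11) (.mul
 (.g 15) (.pp [(1, 284585400000)])))))))) (.add (.mul (.g 15) (.add (.mul (.pp [(1, 6600)]) (.sq
 [(1, -81), (2, -86), (3, 9), (5, -75), (7, 100)])) (.add (.mul (.g 7) (.mul (.g 12) (.pp [(1,
 5536080000)]))) (.mul (.g 8) (.mul (.g 9) (.pp [(1, 50206200000)])))))) (.add (.mul (.g 10) (.add
 (.pp [(1, 4010800200000)]) (.mul (.g 10) (.pp [(1, 2317959600000)])))) (.mul (.g 4) (.mul (.g 8)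
 (.pp [(1, 21698490000)]))))))) (.mul (.g 6) (.add (.add (.mul (.g 6) (.add (.add (.pp [(1,
 347952000000)]) (.mul (.g 8) (.add (.add (.mul (.g 8) (.pp [(1, 1450125600000)])) (.mul (.g 9)
 (.pp [(1, 60297600000)]))) (.add (.mul (.g 12) (.pp [(1, 72502980000)])) (.mul (.g 13) (.pp [(1,
 812460000000)])))))) (.add (.mul (.g 6) (.add (.mul (.g 5) (.pp [(1, 635164200000)])) (.add (.mul
 (.g 9) (.pp [(1, 7510800000)])) (.mul (.g 15) (.pp [(1, 178200000)]))))) (.add (.mul (.g 4) (.mul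
 (.g 11) (.pp [(1, 7936500000)]))) (.mul (.g 5) (.mul (.g 15) (.pp [(1, 370365600000)]))))))) (.mul
 (.g 8) (.add (.mul (.g 13) (.add (.mul (.g 9) (.pp [(1, 1359897000000)])) (.mul (.g 13) (.pp [(1,
 1421171400000)])))) (.add (.mul (.g 15) (.add (.mul (.g 11) (.pp [(1, 1414802400000)])) (.mul (.g
 12) (.pp [(1, 1747680000)])))) (.mul (.g 4) (.mul (.g 5) (.pp [(1, 17053410000)]))))))) (.add
 (.mul (.g 5) (.add (.pp [(1, 998850600000)]) (.mul (.g 5) (.mul (.g 5) (.pp [(1,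
 1512482400000)]))))) (.mul (.g 10) (.pp [(1, 4803242400000)])))))) (.add (.mul (.g 8) (.add (.add
 (.mul (.g 8) (.add (.mul (.g 4) (.add (.mul (.g 8) (.pp [(1, 33364980000)])) (.add (.mul (.g 10)
 (.pp [(1, 93395610000)])) (.mul (.g 11) (.pp [(1, 157500750000)]))))) (.add (.mul (.g 5) (.mul (.g
 13) (.pp [(1, 1214241600000)]))) (.mul (.g 10) (.mul (.g 12) (.pp [(1, 6600000)])))))) (.mul (.g
 15) (.add (.pp [(1, 187420200000)]) (.mul (.pp [(1, 39600)]) (.sq [(1, 50), (2, 31), (3, 41), (5,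
 41), (7, 41)]))))) (.add (.mul (.g 5) (.pp [(1, 618519000000)])) (.mul (.g 13) (.mul (.g 13) (.pp
 [(1, 30630600000)])))))) (.add (.mul (.g 5) (.add (.add (.mul (.g 5) (.mul (.g 5) (.add (.mul (.g
 9) (.pp [(1, 146044800000)])) (.mul (.g 15) (.pp [(1, 1772588400000)]))))) (.mul (.g 4) (.pp [(1,
 281292330000)]))) (.add (.mul (.g 9) (.mul (.g 9) (.mul (.g 11) (.pp [(1, 65808600000)])))) (.add
 (.mul (.g 10) (.mul (.pp [(1, 34269840)]) (.sq [(1, -100), (2, -83), (3, -58), (5, 60), (7,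
 90)]))) (.mul (.g 13) (.pp [(1, 279054600000)])))))) (.mul (.g 4) (.add (.pp [(1, 57671130000)])
 (.add (.mul (.g 10) (.mul (.pp [(1, 520773)]) (.sq [(1, 53), (2, 100), (3, 11), (5, -23), (7,
 55)]))) (.mul (.g 15) (.pp [(1, 135897630000)])))))))) (.add (.add (.mul (.g 15) (.add (.mul (.g
 9) (.mul (.pp [(1, 3320460)]) (.sq [(1, -89), (2, 76), (3, 68), (5, 19), (7, 100)]))) (.mul (.g
 10) (.mul (.pp [(1, 13200)]) (.sq [(1, 22), (2, -65), (3, -92), (5, 12), (7, 100)]))))) (.add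
 (.mul (.g 0) (.pp [(1, 2200000000000)])) (.mul (.g 1) (.pp [(1, 200000000000)])))) (.add (.mul (.g
 2) (.pp [(1, 2640000000)])) (.add (.mul (.g 13) (.mul (.g 13) (.pp [(1, 443823600000)]))) (.mul
 (.g 14) (.pp [(1, 2200000000000)])))))) (.pp [(1, 66757036183), (2, 64961723), (3, 69282739), (4,
 54257500), (5, 78408251), (6, 63504562), (7, 65583870), (8, 59281200), (9, 64972105), (10,
 80150554), (12, 67322640), (14, 66712470), (15, 52891322), (16, 63072240), (18, 69100647), (19,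
 6600000000000), (20, 82319600), (21, 63457020), (24, 68513280), (25, 53379249), (27, 68203773),
 (28, 72932640), (30, 57344738), (35, 72471960), (36, 64363860), (40, 69218160), (42, 71147670),
 (45, 68611235), (49, 62583675), (50, 62854363), (54, 65716860), (56, 66662640), (60, 66143880),
 (63, 63409170), (70, 56110890), (75, 69330239), (81, 66475200), (84, 63857640), (90, 65496420),
 (98, 72420975), (100, 60263940), (105, 60916680), (125, 68664717), (126, 58136760), (135,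
 69755400), (140, 58107720), (147, 67159125), (150, 65528760), (175, 58643970), (189, 72322800),
 (196, 65726100), (210, 70313760), (225, 71134800), (245, 64651125), (250, 64845660), (294,
 60927900), (315, 76170600), (343, 67412400), (350, 67332540), (375, 61624200), (441, 72982800),
 (490, 64412700), (525, 73022400), (625, 66000000), (686, 67663200), (735, 73550400), (875,
 68224200), (1029, 67702800), (1225, 67887600), (1715, 67135200), (2401, 66567600)])))))))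
 (.split [(1, -3), (3, 5)]
 (.split [(1, -5), (5, 4)]
 (.cut 5 [(2, 1), (3, -1)] (.add (.mul (.g 0) (.pp [(1, 1)])) (.add (.mul (.g 5) (.pp [(1, 1)]))
 (.mul (.g 8) (.pp [(1, 5)])))) (.rule 0 (.cut 5 [(2, -1), (5, 1)] (.add (.mul (.g 2) (.pp [(1,
 1)])) (.add (.mul (.g 7) (.pp [(1, 1)])) (.mul (.g 9) (.pp [(1, 5)])))) (.rule 3 (.cut 2 [(1, 3),
 (3, -2)] (.add (.mul (.g 3) (.pp [(1, 9)])) (.add (.mul (.g 11) (.pp [(1, 9)])) (.mul (.g 5) (.pp
 [(1, 1)])))) (.rule 8 (.cut 9 [(1, 9), (5, -5)] (.add (.add (.mul (.g 14) (.pp [(1, 45)])) (.mul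
 (.g 7) (.pp [(1, 13)]))) (.add (.mul (.g 13) (.pp [(1, 45)])) (.mul (.g 1) (.pp [(1, 10)]))))
 (.rule 12 (.cut 5 [(1, -2), (2, -1), (3, 1), (5, 2)] (.add (.add (.mul (.g 5) (.pp [(1, 2)]))
 (.mul (.g 9) (.pp [(1, 1)]))) (.add (.mul (.g 8) (.pp [(1, 2)])) (.mul (.g 15) (.pp [(1, 3)]))))
 (.cut 10 [(1, -1), (2, -2), (3, 2), (5, 2)] (.add (.add (.mul (.g 6) (.pp [(1, 15)])) (.mul (.g
 10) (.pp [(1, 3)]))) (.add (.mul (.g 2) (.pp [(1, 1)])) (.mul (.g 0) (.pp [(1, 5)])))) (.rule 18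
 (.leaf 60000000 (.add (.add (.add (.add (.mul (.g 17) (.add (.add (.mul (.g 12) (.add (.add (.pp
 [(1, 29451120000)]) (.add (.mul (.pp [(1, 1132380)]) (.sq [(1, 34), (2, -22), (3, -55), (5, 100),
 (7, 53)])) (.mul (.g 16) (.add (.mul (.g 11) (.pp [(1, 8652240000)])) (.add (.mul (.g 12) (.pp
 [(1, 274824000)])) (.mul (.g 13) (.pp [(1, 931686000)]))))))) (.add (.mul (.g 14) (.add (.mul (.g
 12) (.pp [(1, 13728744000)])) (.mul (.g 17) (.pp [(1, 20844240000)])))) (.add (.mul (.g 18) (.add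
 (.mul (.g 15) (.pp [(1, 132188280000)])) (.mul (.g 24) (.pp [(1, 13402080000)])))) (.mul (.g 24)
 (.mul (.g 24) (.pp [(1, 4076040000)]))))))) (.add (.mul (.g 24) (.add (.add (.pp [(1,
 136061400000)]) (.mul (.pp [(1, 3600)]) (.sq [(1, 50), (2, 31), (3, 41), (5, 41), (7, 41)])))
 (.add (.mul (.g 15) (.add (.mul (.g 14) (.pp [(1, 51084000000)])) (.mul (.g 17) (.pp [(1,
 92783400000)])))) (.add (.mul (.g 17) (.mul (.g 22) (.pp [(1, 95935800000)]))) (.mul (.g 21) (.mul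
 (.g 24) (.pp [(1, 1544070000)]))))))) (.mul (.g 16) (.add (.mul (.g 18) (.add (.mul (.g 15) (.pp
 [(1, 324407400000)])) (.mul (.g 16) (.pp [(1, 137834400000)])))) (.mul (.g 11) (.mul (.g 13) (.pp
 [(1, 3448098000)]))))))) (.add (.add (.mul (.g 19) (.add (.pp [(1, 118424400000)]) (.mul (.g 15)
 (.mul (.g 15) (.pp [(1, 48491400000)]))))) (.mul (.g 17) (.mul (.g 17) (.mul (.g 21) (.pp [(1,
 3636330000)]))))) (.add (.mul (.g 18) (.mul (.pp [(1, 5149560)]) (.sq [(1, -72), (2, 98), (3,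
 -57), (5, 100), (7, -14)]))) (.mul (.g 22) (.mul (.pp [(1, 4478460)]) (.sq [(1, -18), (2, 21), (3,
 -78), (5, 100), (7, 12)]))))))) (.add (.mul (.g 24) (.add (.add (.mul (.g 18) (.add (.add (.pp
 [(1, 70626000000)]) (.add (.mul (.pp [(1, 3611400)]) (.sq [(1, -87), (2, 81), (3, 75), (5, -8),
 (7, 100)])) (.mul (.pp [(1, 2732700)]) (.sq [(1, -17), (2, 26), (3, -27), (5, 100), (7, 63)]))))
 (.add (.mul (.g 15) (.add (.mul (.g 15) (.pp [(1, 52368000000)])) (.mul (.g 20) (.pp [(1,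
 33323400000)])))) (.add (.mul (.g 12) (.mul (.g 20) (.pp [(1, 15344280000)]))) (.mul (.g 14) (.mul
 (.g 18) (.pp [(1, 30450600000)]))))))) (.add (.mul (.g 16) (.add (.mul (.pp [(1, 843720)]) (.sq
 [(1, 3), (2, -89), (3, -34), (5, 100), (7, 83)])) (.add (.mul (.g 11) (.mul (.g 13) (.pp [(1,
 1728240000)]))) (.mul (.g 14) (.mul (.g 20) (.pp [(1, 46545600000)])))))) (.mul (.g 15) (.add
 (.mul (.pp [(1, 1950000)]) (.sq [(1, -38), (2, 71), (3, 70), (5, -64), (7, 100)])) (.mul (.g 15)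
 (.mul (.g 15) (.pp [(1, 36049200000)]))))))) (.add (.add (.mul (.g 11) (.pp [(1, 13781040000)]))
 (.mul (.g 12) (.mul (.pp [(1, 1964928)]) (.sq [(1, -40), (2, 11), (3, 100), (5, -41), (7,
 -53)])))) (.add (.mul (.g 13) (.mul (.g 13) (.mul (.g 14) (.pp [(1, 327274500)])))) (.mul (.g 22)
 (.mul (.pp [(1, 889500)]) (.sq [(1, 3), (2, 96), (3, 35), (5, -100), (7, -53)]))))))) (.mul (.g
 11) (.add (.add (.mul (.g 16) (.add (.add (.pp [(1, 6660360000)]) (.mul (.pp [(1, 141936)]) (.sq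
 [(1, -5), (2, -8), (3, -46), (5, 31), (7, 100)]))) (.add (.mul (.g 14) (.add (.mul (.g 15) (.pp
 [(1, 8367120000)])) (.mul (.g 18) (.pp [(1, 4532520000)])))) (.mul (.g 16) (.mul (.g 18) (.pp [(1,
 5400000000)])))))) (.mul (.g 20) (.add (.pp [(1, 76268640000)]) (.add (.mul (.g 11) (.mul (.g 20)
 (.pp [(1, 626016000)]))) (.mul (.g 14) (.mul (.g 14) (.pp [(1, 394560000)]))))))) (.add (.mul (.g
 11) (.pp [(1, 7439952000)])) (.mul (.g 18) (.pp [(1, 18027000000)]))))))) (.add (.mul (.g 12)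
 (.add (.add (.mul (.g 15) (.add (.mul (.g 15) (.mul (.g 15) (.pp [(1, 35598360000)]))) (.add (.mul
 (.g 16) (.mul (.g 16) (.pp [(1, 10732440000)]))) (.mul (.g 20) (.mul (.g 22) (.pp [(1,
 9164880000)])))))) (.mul (.g 12) (.add (.pp [(1, 6528168000)]) (.mul (.g 16) (.mul (.g 20) (.pp
 [(1, 1155552000)])))))) (.add (.mul (.g 13) (.mul (.g 16) (.mul (.g 16) (.pp [(1, 1129308000)]))))
 (.add (.mul (.g 18) (.pp [(1, 34190160000)])) (.mul (.g 20) (.mul (.pp [(1, 1399728)]) (.sq [(1,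
 76), (2, 86), (3, -47), (5, -100), (7, -8)]))))))) (.add (.mul (.g 19) (.add (.add (.mul (.g 15)
 (.add (.mul (.pp [(1, 5568180)]) (.sq [(1, -13), (2, -68), (3, -97), (5, 100), (7, 50)])) (.add
 (.mul (.g 14) (.mul (.g 14) (.pp [(1, 170795400000)]))) (.mul (.g 15) (.mul (.g 16) (.pp [(1,
 318879000000)])))))) (.mul (.g 19) (.add (.pp [(1, 399662400000)]) (.mul (.pp [(1, 6093660)]) (.sq
 [(1, 28), (2, 100), (3, 23), (5, 5), (7, -63)]))))) (.add (.mul (.g 21) (.add (.mul (.pp [(1,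
 85884)]) (.sq [(1, 24), (2, -65), (3, -16), (5, 79), (7, 100)])) (.mul (.g 16) (.pp [(1,
 9084810000)])))) (.mul (.g 13) (.mul (.pp [(1, 40143)]) (.sq [(1, -53), (2, -42), (3, -99), (5,
 -60), (7, 100)])))))) (.mul (.g 18) (.add (.mul (.g 18) (.add (.mul (.pp [(1, 3637380)]) (.sq [(1,
 100), (2, 39), (3, 77), (5, 55), (7, 24)])) (.mul (.g 14) (.mul (.g 21) (.pp [(1,
 3546120000)]))))) (.add (.mul (.g 15) (.mul (.pp [(1, 5917980)]) (.sq [(1, -21), (2, 23), (3,
 -77), (5, 39), (7, 100)]))) (.mul (.g 20) (.mul (.pp [(1, 4479720)]) (.sq [(1, -43), (2, 26), (3,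
 -77), (5, -4), (7, 100)]))))))))) (.add (.add (.mul (.g 0) (.pp [(1, 200000000000)])) (.add (.mul
 (.g 3) (.pp [(1, 2400000000)])) (.mul (.g 5) (.pp [(1, 60000000)])))) (.add (.mul (.g 7) (.pp [(1,
 200000000000)])) (.add (.mul (.g 9) (.pp [(1, 200000000000)])) (.mul (.g 23) (.pp [(1,
 200000000000)])))))) (.pp [(1, 10031945903), (2, 5467695), (3, 5575515), (4, 5644884), (5,
 6024933), (6, 7595670), (7, 4430880), (8, 6220328), (9, 5624289), (10, 6634176), (12, 5706552),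
 (14, 7348080), (15, 6035670), (16, 6007260), (18, 6722619), (20, 6588312), (21, 8818536), (24,
 5576940), (25, 5921268), (27, 5844057), (28, 5894580), (30, 7169556), (35, 6184620), (36,
 6102900), (40, 5953320), (42, 3810192), (45, 4844445), (49, 7048356), (50, 5592516), (54,
 5943840), (56, 5654280), (60, 5725680), (63, 4110828), (70, 5156784), (75, 5759928), (81,
 5989800), (84, 6524280), (90, 5316660), (98, 5283708), (100, 5599584), (105, 6397584), (125,
 6134284), (126, 7128060), (135, 6354720), (140, 5578260), (147, 4311360), (150, 5836356), (175,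
 5976576), (189, 6547500), (196, 6194340), (210, 6090720), (225, 6319176), (245, 5806092), (250,
 6452184), (294, 6715860), (315, 5971020), (343, 5811684), (350, 6553200), (375, 5855808), (441,
 7062060), (490, 6461160), (525, 6074520), (625, 5841396), (686, 6378660), (735, 6284820), (875,
 5937000), (1029, 6491460), (1225, 5823060), (1715, 5997540), (2401, 6051600)]))))))))))))))
 (.cut 1 [(2, 1), (3, -1)] (.add (.mul (.g 11) (.pp [(1, 1)])) (.mul (.g 8) (.pp [(1, 1)]))) (.rule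
 0 (.cut 1 [(2, -1), (5, 1)] (.add (.mul (.g 13) (.pp [(1, 1)])) (.mul (.g 9) (.pp [(1, 1)])))
 (.rule 3 (.cut 13 [(1, 3), (3, -2)] (.add (.add (.mul (.g 3) (.pp [(1, 36)])) (.mul (.g 4) (.pp
 [(1, 9)]))) (.add (.mul (.g 1) (.pp [(1, 36)])) (.mul (.g 5) (.pp [(1, 2)])))) (.rule 8 (.rule 11
 (.rule 25 (.leaf 660000000 (.add (.add (.add (.add (.mul (.g 14) (.add (.add (.mul (.pp [(1,
 19393440)]) (.sq [(2, -11), (3, -34), (5, -4), (7, 100)])) (.mul (.g 9) (.add (.add (.pp [(1,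
 86287080000)]) (.mul (.g 14) (.add (.add (.mul (.g 9) (.pp [(1, 31226712000)])) (.mul (.g 12) (.pp
 [(1, 159347760000)]))) (.add (.mul (.g 13) (.pp [(1, 199135200000)])) (.add (.mul (.g 16) (.pp
 [(1, 312313320000)])) (.mul (.g 21) (.pp [(1, 6415200000)]))))))) (.add (.mul (.g 11) (.add (.mul
 (.g 9) (.pp [(1, 66279312000)])) (.mul (.g 16) (.pp [(1, 128251200000)])))) (.add (.mul (.g 12)
 (.add (.mul (.g 15) (.pp [(1, 264724680000)])) (.mul (.g 19) (.pp [(1, 25482600000)])))) (.mul (.g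
 21) (.pp [(1, 138089160000)]))))))) (.add (.mul (.g 19) (.add (.mul (.g 11) (.add (.mul (.g 8)
 (.pp [(1, 56621400000)])) (.add (.mul (.g 14) (.pp [(1, 1234193400000)])) (.mul (.g 15) (.pp [(1,
 247599000000)]))))) (.add (.mul (.g 12) (.add (.mul (.g 12) (.pp [(1, 360703200000)])) (.mul (.g
 14) (.pp [(1, 199887600000)])))) (.mul (.g 13) (.mul (.g 15) (.pp [(1, 411411000000)])))))) (.add
 (.mul (.g 15) (.add (.mul (.pp [(1, 18406740)]) (.sq [(1, 10), (2, -19), (3, -29), (5, -34), (7,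
 100)])) (.mul (.g 14) (.add (.mul (.g 14) (.pp [(1, 181658400000)])) (.mul (.g 18) (.pp [(1,
 74931450000)])))))) (.mul (.g 21) (.add (.mul (.pp [(1, 94641360)]) (.sq [(1, 50), (2, 31), (3,
 41), (5, 41), (7, 41)])) (.add (.mul (.g 12) (.mul (.g 12) (.pp [(1, 63709800000)]))) (.mul (.g
 13) (.mul (.g 21) (.pp [(1, 403590000000)])))))))))) (.add (.mul (.g 19) (.add (.add (.mul (.g 13)
 (.add (.add (.mul (.pp [(1, 7576140)]) (.sq [(1, -18), (2, 89), (3, 17), (5, -58), (7, -100)]))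
 (.mul (.g 13) (.add (.mul (.g 9) (.pp [(1, 90302520000)])) (.mul (.g 13) (.pp [(1,
 15800400000)]))))) (.add (.mul (.g 17) (.add (.mul (.g 15) (.pp [(1, 429211200000)])) (.mul (.g
 21) (.pp [(1, 55294800000)])))) (.add (.mul (.g 12) (.mul (.g 19) (.pp [(1, 124548600000)])))
 (.mul (.g 16) (.mul (.g 18) (.pp [(1, 12141690000)]))))))) (.mul (.g 19) (.add (.add (.pp [(1,
 1088788800000)]) (.mul (.pp [(1, 18005460)]) (.sq [(1, 7), (2, 93), (3, 100), (5, 74), (7,
 -16)]))) (.add (.mul (.g 12) (.add (.mul (.g 9) (.pp [(1, 159296280000)])) (.mul (.g 15) (.pp [(1,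
 445031400000)])))) (.mul (.g 17) (.pp [(1, 4146542400000)])))))) (.add (.mul (.g 21) (.add (.pp
 [(1, 70606800000)]) (.mul (.g 11) (.add (.mul (.g 11) (.pp [(1, 3345144000000)])) (.mul (.g 15)
 (.pp [(1, 3087757200000)])))))) (.add (.mul (.g 12) (.mul (.g 16) (.mul (.g 17) (.pp [(1,
 392112600000)])))) (.mul (.g 15) (.pp [(1, 1284439200000)])))))) (.mul (.g 16) (.add (.add (.mul
 (.g 11) (.add (.pp [(1, 828729000000)]) (.add (.mul (.pp [(1, 57613380)]) (.sq [(1, -6), (2, 100),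
 (3, 91), (5, 39), (7, -70)])) (.mul (.g 11) (.mul (.g 21) (.pp [(1, 1060026000000)])))))) (.add
 (.mul (.g 16) (.add (.pp [(1, 1158834600000)]) (.add (.mul (.pp [(1, 25506360)]) (.sq [(1, 100),
 (2, -35), (3, 32), (5, 32), (7, -13)])) (.mul (.g 17) (.pp [(1, 1829962200000)]))))) (.mul (.g 8)
 (.add (.mul (.pp [(1, 503184)]) (.sq [(1, 8), (2, 60), (3, -22), (5, 100), (7, 87)])) (.mul (.g
 13) (.pp [(1, 11872080000)])))))) (.add (.add (.mul (.g 9) (.pp [(1, 201833280000)])) (.mul (.g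
 12) (.mul (.g 12) (.mul (.g 12) (.pp [(1, 456442800000)]))))) (.add (.mul (.g 15) (.mul (.pp [(1,
 58615260)]) (.sq [(1, 36), (2, -43), (3, -30), (5, 27), (7, 100)]))) (.mul (.g 21) (.mul (.pp [(1,
 8339100)]) (.sq [(1, 57), (2, 100), (3, -1), (5, 38), (7, 59)]))))))))) (.add (.add (.mul (.g 9)
 (.add (.add (.mul (.g 12) (.add (.add (.mul (.g 8) (.mul (.g 15) (.pp [(1, 20146632000)]))) (.mul
 (.g 9) (.mul (.g 13) (.pp [(1, 29690232000)])))) (.add (.mul (.g 10) (.mul (.g 10) (.pp [(1,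
 174480900)]))) (.mul (.g 12) (.mul (.g 12) (.pp [(1, 77777040000)])))))) (.mul (.g 10) (.mul (.g
 10) (.add (.mul (.g 11) (.pp [(1, 285261900)])) (.mul (.g 13) (.pp [(1, 198656700)])))))) (.add
 (.mul (.g 11) (.mul (.g 11) (.mul (.g 21) (.pp [(1, 237804600000)])))) (.mul (.g 13) (.mul (.pp
 [(1, 7864428)]) (.sq [(1, 10), (2, -40), (3, -39), (5, 30), (7, 100)])))))) (.mul (.g 21) (.add
 (.mul (.pp [(1, 60508800)]) (.sq [(1, 7), (2, -30), (3, 50), (5, -19), (7, -20)])) (.add (.mul (.g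
 15) (.add (.mul (.pp [(1, 8191920)]) (.sq [(1, 23), (2, -18), (3, 100), (5, -67), (7, -30)]))
 (.mul (.g 13) (.mul (.g 15) (.pp [(1, 228577800000)]))))) (.mul (.g 21) (.mul (.pp [(1,
 15902700)]) (.sq [(1, 9), (2, -2), (3, 51), (5, -36), (7, 100)]))))))) (.add (.mul (.g 10) (.add
 (.mul (.pp [(1, 1693791)]) (.sq [(1, -75), (2, 100), (3, 18), (5, -11), (7, -42)])) (.mul (.g 15)
 (.mul (.g 15) (.mul (.g 15) (.pp [(1, 49591080000)])))))) (.mul (.g 11) (.add (.mul (.g 11) (.mul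
 (.pp [(1, 49361400)]) (.sq [(1, 33), (2, -100), (3, -19), (5, 12), (7, 100)]))) (.mul (.g 17)
 (.mul (.pp [(1, 8071800)]) (.sq [(1, -24), (2, 100), (3, 5), (5, -29), (7, -21)])))))))) (.add
 (.add (.mul (.g 0) (.pp [(1, 200000000000)])) (.add (.mul (.g 1) (.pp [(1, 2640000000)])) (.mul
 (.g 2) (.pp [(1, 660000000)])))) (.add (.add (.mul (.g 4) (.pp [(1, 2200000000000)])) (.mul (.g 6)
 (.pp [(1, 2200000000000)]))) (.add (.mul (.g 13) (.mul (.g 13) (.mul (.pp [(1, 5663460)]) (.sq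
 [(1, 19), (2, 73), (3, 51), (5, -100), (7, 14)])))) (.mul (.g 20) (.pp [(1, 2200000000000)]))))))
 (.pp [(1, 16748519515), (2, 66658220), (3, 73653160), (4, 82717360), (5, 83263574), (6, 61627720),
 (7, 68552880), (8, 66219120), (9, 67392424), (10, 69208744), (12, 45602700), (14, 76845780), (15,
 53939468), (16, 66124740), (18, 64918920), (20, 61305200), (21, 67799028), (24, 62365380), (25,
 55934307), (27, 66982960), (28, 67250700), (30, 52043288), (35, 67397616), (36, 75393780), (40,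
 68784540), (42, 56754720), (45, 64584740), (49, 64761444), (50, 45117160), (54, 70452360), (56,
 59387460), (60, 66826320), (63, 61786560), (70, 70809552), (75, 65935892), (81, 67825560), (84,
 64037160), (90, 75498324), (98, 54700140), (100, 63232620), (105, 63337560), (125, 65318220),
 (126, 66278520), (135, 62557176), (140, 63214800), (147, 58835040), (150, 88953480), (175,
 68265648), (189, 65506980), (196, 68357520), (210, 62620272), (225, 64454016), (245, 63151044),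
 (250, 75876240), (294, 62546220), (315, 65162988), (343, 65444940), (350, 66752400), (375,
 63473520), (441, 62207640), (490, 66588984), (525, 69823248), (625, 68893440), (686, 60896220),
 (735, 71232876), (875, 64218000), (1029, 62431380), (1225, 63893016), (1715, 65285220), (2401,
 65126160)]))))))))))))
 (.split [(1, -7), (3, 50)]
 (.split [(1, -9), (5, 5)]
 (.cut 135 [(2, 1), (3, -1)] (.add (.add (.mul (.g 3) (.pp [(1, 4)])) (.mul (.g 9) (.pp [(1,
 55)]))) (.add (.mul (.g 0) (.pp [(1, 11)])) (.mul (.g 2) (.pp [(1, 16)])))) (.rule 0 (.cut 115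
 [(2, -1), (5, 1)] (.add (.add (.mul (.g 10) (.pp [(1, 115)])) (.mul (.g 3) (.pp [(1, 4)]))) (.add
 (.mul (.g 2) (.pp [(1, 23)])) (.mul (.g 4) (.pp [(1, 40)])))) (.rule 3 (.rule 7 (.rule 13 (.cut
 200 [(1, -2), (2, -1), (3, 1), (5, 2)] (.add (.add (.mul (.g 3) (.pp [(1, 185)])) (.mul (.g 7)
 (.pp [(1, 4)]))) (.add (.mul (.g 6) (.pp [(1, 43)])) (.mul (.g 14) (.pp [(1, 15)])))) (.cut 43
 [(1, -1), (2, -2), (3, 2), (5, 2)] (.add (.add (.mul (.g 15) (.pp [(1, 36)])) (.mul (.g 8) (.pp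
 [(1, 1)]))) (.add (.mul (.g 4) (.pp [(1, 14)])) (.mul (.g 0) (.pp [(1, 36)])))) (.rule 18 (.leaf
 900000000 (.add (.add (.add (.add (.mul (.g 16) (.add (.add (.add (.mul (.g 16) (.add (.add (.mul
 (.pp [(1, 5889600)]) (.sq [(1, 89), (3, 32), (5, 23), (7, 100)])) (.add (.mul (.g 16) (.add (.mul
 (.g 11) (.pp [(1, 30655800000)])) (.add (.mul (.g 17) (.pp [(1, 190773000000)])) (.mul (.g 20)
 (.pp [(1, 13716000000)]))))) (.mul (.g 14) (.add (.mul (.g 19) (.pp [(1, 408411000000)])) (.mul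
 (.g 21) (.pp [(1, 707688000000)])))))) (.add (.mul (.g 11) (.mul (.g 21) (.pp [(1,
 10821600000)]))) (.add (.mul (.g 15) (.mul (.g 20) (.pp [(1, 26348400000)]))) (.mul (.g 18) (.mul
 (.g 19) (.pp [(1, 375111000000)]))))))) (.mul (.g 15) (.add (.add (.mul (.g 10) (.add (.pp [(1,
 13844520000)]) (.mul (.g 17) (.pp [(1, 16025400000)])))) (.mul (.g 21) (.add (.mul (.g 15) (.pp
 [(1, 26145000000)])) (.mul (.g 20) (.pp [(1, 8703000000)]))))) (.add (.mul (.g 9) (.mul (.g 13)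
 (.pp [(1, 5512000000)]))) (.mul (.g 14) (.mul (.g 14) (.pp [(1, 145755000000)]))))))) (.add (.mul
 (.g 13) (.add (.mul (.g 14) (.add (.mul (.g 14) (.pp [(1, 554013000000)])) (.mul (.g 17) (.pp [(1,
 1496277000000)])))) (.add (.mul (.g 9) (.mul (.g 11) (.pp [(1, 7548200000)]))) (.mul (.g 10) (.pp
 [(1, 12841020000)]))))) (.mul (.g 23) (.add (.pp [(1, 1404504000000)]) (.add (.mul (.pp [(1,
 66376800)]) (.sq [(1, 50), (2, 31), (3, 41), (5, 41), (7, 41)])) (.mul (.g 17) (.mul (.g 23) (.pp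
 [(1, 79506000000)])))))))) (.add (.add (.mul (.g 9) (.pp [(1, 160311000000)])) (.mul (.g 10) (.pp
 [(1, 26767080000)]))) (.add (.mul (.g 14) (.mul (.g 14) (.mul (.g 17) (.pp [(1,
 1105857000000)])))) (.mul (.g 18) (.pp [(1, 959985000000)])))))) (.add (.mul (.g 15) (.add (.add
 (.mul (.g 18) (.add (.add (.mul (.pp [(1, 4411800)]) (.sq [(1, 35), (2, 22), (3, 100), (5, -78),
 (7, -25)])) (.mul (.g 13) (.add (.mul (.g 9) (.pp [(1, 76022000000)])) (.mul (.g 17) (.pp [(1,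
 291150000000)]))))) (.add (.mul (.g 14) (.add (.mul (.g 11) (.pp [(1, 1516995000000)])) (.mul (.g
 14) (.pp [(1, 4380282000000)])))) (.add (.mul (.g 15) (.mul (.g 17) (.pp [(1, 966375000000)])))
 (.mul (.g 20) (.pp [(1, 121510800000)])))))) (.add (.mul (.g 19) (.add (.mul (.g 11) (.add (.mul
 (.g 10) (.pp [(1, 5899860000)])) (.mul (.g 14) (.pp [(1, 314242200000)])))) (.mul (.g 13) (.add
 (.mul (.g 17) (.pp [(1, 1914894000000)])) (.mul (.g 23) (.pp [(1, 232227000000)])))))) (.mul (.g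
 9) (.add (.pp [(1, 771725000000)]) (.add (.mul (.g 13) (.mul (.g 14) (.pp [(1, 207369000000)])))
 (.mul (.g 15) (.mul (.g 15) (.pp [(1, 51171000000)])))))))) (.add (.add (.mul (.g 10) (.pp [(1,
 74640420000)])) (.mul (.g 11) (.mul (.g 14) (.mul (.g 15) (.pp [(1, 132004800000)]))))) (.add
 (.mul (.g 17) (.pp [(1, 8034084000000)])) (.mul (.g 23) (.mul (.pp [(1, 6659100)]) (.sq [(1, 16),
 (2, 13), (3, 100), (5, -31), (7, 68)]))))))) (.mul (.g 13) (.add (.add (.mul (.g 13) (.add (.mul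
 (.pp [(1, 45654300)]) (.sq [(1, -63), (2, -70), (3, -54), (5, 100), (7, -53)])) (.add (.mul (.g 9)
 (.add (.mul (.g 17) (.pp [(1, 8962000000)])) (.mul (.g 19) (.pp [(1, 36098000000)])))) (.mul (.g
 13) (.add (.mul (.g 14) (.pp [(1, 3755547000000)])) (.mul (.g 23) (.pp [(1, 3694770000000)])))))))
 (.mul (.g 18) (.add (.pp [(1, 8835057000000)]) (.mul (.g 20) (.mul (.g 21) (.pp [(1,
 37273950000)])))))) (.add (.mul (.g 11) (.mul (.g 11) (.mul (.g 19) (.pp [(1, 7373160000)]))))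
 (.add (.mul (.g 17) (.mul (.g 17) (.mul (.g 17) (.pp [(1, 401337000000)])))) (.mul (.g 23) (.mul
 (.pp [(1, 52448400)]) (.sq [(1, 94), (2, -100), (3, 42), (5, -8), (7, 43)]))))))))) (.add (.add
 (.mul (.g 14) (.add (.add (.mul (.g 17) (.add (.pp [(1, 7632540000000)]) (.mul (.g 19) (.mul (.g
 23) (.pp [(1, 613530000000)]))))) (.mul (.g 9) (.pp [(1, 1645737000000)]))) (.add (.mul (.g 10)
 (.pp [(1, 255503700000)])) (.mul (.g 14) (.mul (.g 19) (.mul (.g 19) (.pp [(1,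
 60426000000)]))))))) (.mul (.g 23) (.add (.add (.mul (.g 10) (.mul (.pp [(1, 182916)]) (.sq [(1,
 -55), (2, 71), (3, 100), (5, -35), (7, -33)]))) (.mul (.g 12) (.mul (.pp [(1, 2224665)]) (.sq [(1,
 -26), (2, 27), (3, 100), (5, -78), (7, -87)])))) (.add (.mul (.g 17) (.mul (.pp [(1, 50472900)])
 (.sq [(1, -17), (2, 26), (3, -23), (5, 100), (7, 69)]))) (.mul (.g 23) (.mul (.pp [(1, 9869400)])
 (.sq [(1, 100), (2, 29), (3, 56), (5, -33), (7, 73)]))))))) (.add (.mul (.g 9) (.add (.mul (.g 9)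
 (.pp [(1, 186531000000)])) (.add (.mul (.g 18) (.mul (.pp [(1, 4090800)]) (.sq [(1, -28), (2, 29),
 (3, -78), (5, 100), (7, 54)]))) (.mul (.g 19) (.pp [(1, 1086628000000)]))))) (.mul (.g 17) (.add
 (.mul (.g 17) (.mul (.pp [(1, 137888100)]) (.sq [(1, -33), (2, 17), (3, 50), (7, 100)]))) (.mul
 (.g 19) (.mul (.pp [(1, 23500800)]) (.sq [(1, -60), (2, 35), (3, -54), (5, -3), (7, 100)]))))))))
 (.add (.add (.mul (.g 21) (.add (.mul (.g 11) (.mul (.pp [(1, 3190500)]) (.sq [(1, -6), (2, -100),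
 (3, -67), (5, 87), (7, 53)]))) (.mul (.g 18) (.mul (.pp [(1, 2456100)]) (.sq [(1, 19), (2, -14),
 (3, 10), (5, 100), (7, -90)]))))) (.add (.mul (.g 0) (.pp [(1, 3000000000000)])) (.mul (.g 3) (.pp
 [(1, 180000000000)])))) (.add (.add (.mul (.g 4) (.pp [(1, 1800000000)])) (.mul (.g 5) (.pp [(1,
 3000000000000)]))) (.add (.mul (.g 7) (.pp [(1, 3000000000000)])) (.mul (.g 22) (.pp [(1,
 3000000000000)])))))) (.pp [(1, 531221221740), (2, 88630020), (3, 91082160), (4, 85879377), (5,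
 95517840), (6, 99535680), (7, 96482880), (8, 75409500), (9, 83997000), (10, 90010280), (12,
 101560923), (14, 87306678), (15, 82777060), (16, 92789100), (18, 84716100), (20, 102733300), (21,
 97324380), (24, 88161300), (25, 81149760), (27, 100630800), (28, 94794723), (30, 94979820), (35,
 90864660), (36, 90115200), (40, 100327200), (42, 107195202), (45, 88011900), (49, 93232233), (50,
 82189400), (54, 87695100), (56, 89889300), (60, 84161900), (63, 88386300), (70, 97393020), (75,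
 93714540), (81, 81561600), (84, 87098400), (90, 90262800), (98, 85006602), (100, 75023200), (105,
 77890500), (125, 99375000), (126, 68663700), (135, 95220900), (140, 94308300), (147, 84595347),
 (150, 84385000), (175, 86043240), (189, 82029600), (196, 84482100), (210, 78471200), (225,
 87629400), (245, 100638000), (250, 97938400), (294, 88129800), (315, 91002600), (343, 91643247),
 (350, 83120200), (375, 91978800), (441, 75848400), (490, 104045400), (525, 95166000), (625,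
 87391200), (686, 87188400), (735, 78410700), (875, 93815100), (1029, 83259000), (1225, 79909200),
 (1715, 89089200), (2401, 89368200)]))))))))))))
 (.split [(1, -5), (5, 4)]
 (.cut 64 [(2, 1), (3, -1)] (.add (.add (.mul (.g 4) (.pp [(1, 1)])) (.mul (.g 0) (.pp [(1, 11)])))
 (.add (.mul (.g 3) (.pp [(1, 4)])) (.mul (.g 10) (.pp [(1, 44)])))) (.rule 0 (.cut 11 [(2, -1),
 (5, 1)] (.add (.mul (.g 11) (.pp [(1, 11)])) (.add (.mul (.g 2) (.pp [(1, 4)])) (.mul (.g 3) (.pp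
 [(1, 1)])))) (.rule 3 (.rule 7 (.rule 12 (.rule 25 (.leaf 6600000000 (.add (.add (.add (.add (.mul
 (.g 16) (.add (.add (.mul (.pp [(1, 300880800)]) (.sq [(1, -92), (2, 70), (3, -49), (5, 15), (7,
 100)])) (.add (.mul (.g 15) (.add (.add (.mul (.pp [(1, 472553400)]) (.sq [(1, 5), (2, -15), (3,
 -22), (5, -57), (7, 100)])) (.mul (.g 15) (.add (.mul (.g 18) (.pp [(1, 3625974000000)])) (.mul
 (.g 19) (.pp [(1, 85529400000)]))))) (.add (.mul (.g 7) (.pp [(1, 1254422400000)])) (.add (.mul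
 (.g 11) (.mul (.g 22) (.pp [(1, 290990700000)]))) (.mul (.g 14) (.mul (.g 17) (.pp [(1,
 630762000000)]))))))) (.mul (.g 16) (.add (.add (.mul (.pp [(1, 208837200)]) (.sq [(1, -81), (2,
 38), (3, -32), (5, -15), (7, 100)])) (.mul (.pp [(1, 357304200)]) (.sq [(1, 72), (2, 100), (3,
 39), (5, 77), (7, -27)]))) (.add (.mul (.pp [(1, 732626400)]) (.sq [(1, 100), (2, -15), (3, 27),
 (5, -87), (7, 16)])) (.add (.mul (.g 12) (.add (.mul (.g 16) (.pp [(1, 4192320000000)])) (.mul (.g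
 18) (.pp [(1, 6007848000000)])))) (.mul (.g 11) (.pp [(1, 50892600000)])))))))) (.add (.mul (.g 7)
 (.add (.pp [(1, 3769616400000)]) (.add (.mul (.pp [(1, 149178480)]) (.sq [(1, 100), (2, 97), (3,
 44), (5, 94), (7, -4)])) (.mul (.g 19) (.add (.mul (.g 14) (.pp [(1, 19907580000)])) (.mul (.g 19)
 (.pp [(1, 3232284000)]))))))) (.add (.mul (.g 10) (.add (.mul (.pp [(1, 30596280)]) (.sq [(1, 15),
 (2, 100), (3, 84), (5, -39), (7, -56)])) (.add (.mul (.g 9) (.mul (.g 14) (.pp [(1,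
 8890200000)]))) (.mul (.g 13) (.mul (.g 20) (.pp [(1, 414216000000)])))))) (.mul (.g 22) (.mul
 (.pp [(1, 120047400)]) (.sq [(1, 15), (2, 4), (3, 100), (5, -27), (7, 37)]))))))) (.add (.mul (.g
 22) (.add (.add (.add (.mul (.pp [(1, 537556800)]) (.sq [(1, -48), (2, 100), (3, -38), (5, -3),
 (7, 28)])) (.mul (.g 10) (.add (.pp [(1, 270652800000)]) (.add (.mul (.g 15) (.add (.mul (.g 15)
 (.pp [(1, 44748000000)])) (.mul (.g 22) (.pp [(1, 413014800000)])))) (.mul (.g 13) (.mul (.g 13)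
 (.pp [(1, 285344400000)]))))))) (.add (.mul (.g 17) (.add (.pp [(1, 13935240000000)]) (.add (.mul
 (.pp [(1, 82526400)]) (.sq [(1, 13), (2, 71), (3, -11), (5, -32), (7, 100)])) (.mul (.pp [(1,
 125261400)]) (.sq [(1, 41), (2, 100), (3, -50), (5, 14), (7, 14)]))))) (.add (.mul (.g 12) (.add
 (.mul (.pp [(1, 29310600)]) (.sq [(1, -75), (2, 100), (3, -25), (5, 82), (7, 36)])) (.mul (.pp
 [(1, 435006000)]) (.sq [(1, -35), (2, 100), (3, 86), (5, -34), (7, -20)])))) (.mul (.g 15) (.add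
 (.pp [(1, 11394042000000)]) (.mul (.pp [(1, 403682400)]) (.sq [(1, 50), (2, 31), (3, 41), (5, 41),
 (7, 41)]))))))) (.add (.add (.mul (.g 22) (.add (.mul (.pp [(1, 107329200)]) (.sq [(1, -100), (2,
 53), (3, 15), (5, 15), (7, 72)])) (.mul (.pp [(1, 44946000)]) (.sq [(1, 15), (2, -49), (3, 24),
 (5, 100), (7, -52)])))) (.mul (.g 7) (.pp [(1, 4282000800000)]))) (.add (.mul (.g 9) (.mul (.g 14)
 (.mul (.g 14) (.pp [(1, 753720000)])))) (.add (.mul (.g 11) (.mul (.g 11) (.mul (.g 11) (.pp [(1,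
 1681127250)])))) (.mul (.g 19) (.mul (.pp [(1, 1312410)]) (.sq [(1, -74), (2, 15), (3, -79), (5,
 -66), (7, 100)])))))))) (.mul (.g 9) (.add (.add (.mul (.g 15) (.add (.add (.pp [(1,
 11138160000)]) (.mul (.g 14) (.add (.pp [(1, 2937000000)]) (.add (.mul (.g 13) (.pp [(1,
 5371080000)])) (.mul (.g 15) (.pp [(1, 47818320000)])))))) (.add (.mul (.g 15) (.add (.mul (.g 9)
 (.pp [(1, 1736988000)])) (.mul (.g 15) (.pp [(1, 16176600000)])))) (.add (.mul (.g 12) (.pp [(1,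
 27533880000)])) (.mul (.g 13) (.mul (.g 13) (.pp [(1, 4097280000)]))))))) (.mul (.g 14) (.add
 (.mul (.g 14) (.add (.mul (.g 7) (.pp [(1, 86754096000)])) (.mul (.g 10) (.pp [(1,
 17685888000)])))) (.mul (.g 9) (.mul (.g 13) (.pp [(1, 2921397600)])))))) (.add (.mul (.g 11)
 (.add (.mul (.g 9) (.mul (.g 9) (.pp [(1, 2484768)]))) (.mul (.g 11) (.mul (.g 11) (.pp [(1,
 25990965)]))))) (.mul (.g 17) (.add (.pp [(1, 129134280000)]) (.mul (.pp [(1, 97792200)]) (.sq
 [(1, 7), (2, 18), (3, 20), (5, 11), (7, -3)]))))))))) (.add (.mul (.g 7) (.add (.add (.mul (.g 14)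
 (.add (.mul (.g 7) (.add (.pp [(1, 1703589360000)]) (.mul (.g 14) (.pp [(1, 368496480000)]))))
 (.add (.mul (.g 10) (.mul (.g 18) (.pp [(1, 54832800000)]))) (.mul (.g 17) (.mul (.g 19) (.pp [(1,
 75783180000)])))))) (.add (.mul (.g 7) (.mul (.g 13) (.mul (.g 13) (.pp [(1, 1344734160000)]))))
 (.mul (.g 8) (.pp [(1, 143026400000)])))) (.add (.mul (.g 10) (.mul (.g 19) (.mul (.g 19) (.pp
 [(1, 484598400)])))) (.add (.mul (.g 11) (.mul (.pp [(1, 1691514)]) (.sq [(1, -93), (2, -58), (3,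
 -100), (5, 35), (7, 96)]))) (.mul (.g 17) (.pp [(1, 934665600000)])))))) (.add (.mul (.g 17) (.add
 (.mul (.g 17) (.add (.add (.mul (.pp [(1, 2072400)]) (.sq [(1, -9), (2, -85), (3, -54), (5, 1),
 (7, 100)])) (.mul (.pp [(1, 42728400)]) (.sq [(1, 63), (2, 100), (3, -62), (5, 42), (7, -9)])))
 (.add (.mul (.pp [(1, 14883000)]) (.sq [(1, 7), (2, 17), (3, 100), (5, 78), (7, 21)])) (.mul (.g
 18) (.pp [(1, 24533982000000)]))))) (.mul (.g 12) (.mul (.pp [(1, 491488800)]) (.sq [(1, -34), (2,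
 100), (3, 49), (5, 26), (7, -32)]))))) (.mul (.g 0) (.pp [(1, 2000000000000)]))))) (.add (.add
 (.mul (.g 1) (.pp [(1, 264000000000)])) (.add (.mul (.g 2) (.pp [(1, 13200000000)])) (.mul (.g 3)
 (.pp [(1, 22000000000000)])))) (.add (.add (.mul (.g 5) (.pp [(1, 22000000000000)])) (.mul (.g 14)
 (.mul (.g 20) (.mul (.pp [(1, 30624000)]) (.sq [(1, -27), (2, 91), (3, 24), (5, 2), (7,
 -100)]))))) (.add (.mul (.g 15) (.mul (.g 15) (.mul (.g 15) (.mul (.g 19) (.pp [(1,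
 50239200000)]))))) (.mul (.g 21) (.pp [(1, 22000000000000)])))))) (.pp [(1, 440581836781), (2,
 571672220), (3, 675312640), (4, 769881970), (5, 795655764), (6, 731133700), (7, 564343230), (8,
 550565400), (9, 670162570), (10, 488192848), (12, 683045550), (14, 860766720), (15, 656142080),
 (16, 677866200), (18, 663147540), (20, 689168744), (21, 736113840), (24, 671675400), (25,
 680034190), (27, 659753710), (28, 764634750), (30, 646903400), (35, 661449624), (36, 742374600),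
 (40, 729075600), (42, 435476580), (45, 856206560), (49, 795975840), (50, 748472560), (54,
 675800400), (56, 695904000), (60, 637244520), (63, 591058710), (70, 594322344), (75, 671139920),
 (81, 638767800), (84, 480064200), (90, 635112720), (98, 560989440), (100, 612303120), (105,
 680566920), (125, 626411280), (126, 758947200), (135, 522436200), (140, 501210600), (147,
 603530400), (150, 670879440), (175, 714464520), (189, 669853800), (196, 607952400), (210,
 830633760), (225, 494274000), (245, 686719176), (250, 657433920), (294, 752683800), (315,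
 648707400), (343, 563435400), (350, 703702560), (375, 646839600), (441, 577440600), (490,
 700788000), (525, 643051200), (625, 665082000), (686, 674671800), (735, 589353600), (875,
 659973600), (1029, 654139200), (1225, 582892200), (1715, 670322400), (2401, 661557600)]))))))))))
 (.cut 1 [(2, 1), (3, -1)] (.add (.mul (.g 13) (.pp [(1, 1)])) (.mul (.g 10) (.pp [(1, 1)])))
 (.rule 0 (.cut 1 [(2, -1), (5, 1)] (.add (.mul (.g 15) (.pp [(1, 1)])) (.mul (.g 11) (.pp [(1,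
 1)]))) (.rule 3 (.rule 7 (.rule 11 (.rule 25 (.leaf 39600000000 (.add (.add (.add (.add (.add
 (.mul (.pp [(1, 1562338800)]) (.sq [(1, 4), (2, 100), (3, 38), (5, -82), (7, 5)])) (.mul (.g 22)
 (.add (.add (.add (.mul (.pp [(1, 4115232000)]) (.sq [(1, -20), (2, 100), (3, -69), (5, 13), (7,
 24)])) (.mul (.g 15) (.add (.add (.pp [(1, 3274920000000)]) (.mul (.pp [(1, 229204800)]) (.sq [(1,
 50), (2, 31), (3, 41), (5, 41), (7, 41)]))) (.add (.mul (.pp [(1, 866923200)]) (.sq [(1, 53), (2,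
 22), (3, -56), (5, 100), (7, 35)])) (.add (.mul (.g 12) (.add (.pp [(1, 83595600000000)]) (.add
 (.mul (.g 16) (.pp [(1, 37394280000000)])) (.mul (.g 18) (.pp [(1, 14728824000000)]))))) (.mul (.g
 15) (.add (.mul (.g 13) (.pp [(1, 19469340000000)])) (.mul (.g 17) (.pp [(1,
 34126884000000)]))))))))) (.add (.mul (.g 10) (.add (.add (.pp [(1, 759369600000)]) (.mul (.pp
 [(1, 341898480)]) (.sq [(1, 4), (2, 9), (3, 100), (5, -19), (7, 14)]))) (.add (.mul (.g 10) (.pp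
 [(1, 28987200000)])) (.mul (.g 12) (.mul (.g 16) (.pp [(1, 3188116800000)])))))) (.mul (.g 20)
 (.add (.mul (.pp [(1, 764121600)]) (.sq [(1, 7), (2, -29), (3, 18), (5, 20), (7, 50)])) (.add
 (.mul (.pp [(1, 1553389200)]) (.sq [(1, -41), (2, -86), (3, -35), (5, -36), (7, 100)])) (.mul (.g
 14) (.mul (.g 20) (.pp [(1, 10495584000000)])))))))) (.add (.add (.mul (.g 12) (.add (.mul (.pp
 [(1, 1311393600)]) (.sq [(1, -46), (2, 100), (3, 52), (5, -12), (7, 7)])) (.mul (.g 14) (.mul (.g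
 17) (.pp [(1, 75447108000000)]))))) (.mul (.g 11) (.mul (.pp [(1, 87813000)]) (.sq [(1, -46), (2,
 100), (3, 52), (5, -11), (7, 7)])))) (.add (.mul (.g 18) (.mul (.pp [(1, 557964000)]) (.sq [(1,
 -82), (2, 100), (3, -40), (5, 18), (7, 53)]))) (.mul (.g 22) (.mul (.pp [(1, 278388000)]) (.sq
 [(1, -100), (2, 53), (3, 15), (5, 15), (7, 72)])))))))) (.add (.mul (.g 20) (.add (.add (.mul (.g
 20) (.add (.add (.pp [(1, 52097760000000)]) (.mul (.pp [(1, 2114877600)]) (.sq [(1, 38), (2, 12),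
 (3, -25), (5, 100), (7, -10)]))) (.add (.mul (.g 14) (.add (.mul (.g 9) (.pp [(1,
 2203874640000)])) (.mul (.g 11) (.pp [(1, 1183861800000)])))) (.add (.mul (.g 13) (.mul (.g 13)
 (.pp [(1, 157163688000000)]))) (.mul (.g 16) (.mul (.g 18) (.pp [(1, 142787700000000)])))))))
 (.add (.mul (.g 10) (.add (.mul (.pp [(1, 708293520)]) (.sq [(1, -44), (2, -44), (3, 100), (5,
 100), (7, -21)])) (.add (.mul (.g 9) (.add (.mul (.g 10) (.pp [(1, 39810355200)])) (.mul (.g 16)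
 (.pp [(1, 164365344000)])))) (.mul (.g 18) (.mul (.g 19) (.pp [(1, 1122529320000)])))))) (.mul (.g
 16) (.add (.mul (.g 14) (.mul (.g 15) (.pp [(1, 8485884000000)]))) (.mul (.g 16) (.mul (.g 16)
 (.pp [(1, 20291040000000)]))))))) (.add (.mul (.g 18) (.add (.mul (.pp [(1, 3394116000)]) (.sq
 [(1, 11), (2, -41), (3, -18), (5, 100), (7, -7)])) (.mul (.g 8) (.mul (.g 18) (.pp [(1,
 6075784000000)]))))) (.add (.mul (.g 9) (.mul (.pp [(1, 32995512)]) (.sq [(1, 28), (2, -57), (3,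
 8), (5, 32), (7, 100)]))) (.mul (.g 19) (.mul (.pp [(1, 72135360)]) (.sq [(1, 8), (2, 50), (3, 7),
 (5, 32), (7, -33)]))))))) (.mul (.g 17) (.add (.add (.mul (.g 9) (.add (.mul (.pp [(1, 1877040)])
 (.sq [(1, 28), (2, -58), (3, 100), (5, -65), (7, 10)])) (.add (.mul (.g 15) (.add (.mul (.g 13)
 (.pp [(1, 60199920000)])) (.mul (.g 15) (.pp [(1, 1152756000000)])))) (.mul (.g 11) (.mul (.g 11)
 (.pp [(1, 3746160000)])))))) (.add (.mul (.g 17) (.add (.mul (.pp [(1, 2208412800)]) (.sq [(1,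
 -31), (2, -61), (3, 100), (5, 67), (7, -12)])) (.add (.mul (.pp [(1, 35244000)]) (.sq [(1, 100),
 (2, -35), (3, 32), (5, 32), (7, -13)])) (.mul (.g 18) (.pp [(1, 108439848000000)]))))) (.mul (.g
 7) (.add (.mul (.pp [(1, 301356000)]) (.sq [(1, 14), (2, 100), (3, 13), (5, 54), (7, -70)])) (.mul
 (.pp [(1, 329978880)]) (.sq [(1, 1), (2, 95), (3, 100), (5, 12), (7, 6)])))))) (.add (.add (.mul
 (.g 11) (.mul (.pp [(1, 147587220)]) (.sq [(2, 100), (3, 24), (5, 9), (7, -68)]))) (.mul (.g 15)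
 (.mul (.pp [(1, 888188400)]) (.sq [(1, 91), (2, 1), (3, 62), (5, 21), (7, -100)])))) (.add (.mul
 (.g 16) (.mul (.pp [(1, 3562455600)]) (.sq [(1, -33), (2, 100), (3, 1), (5, -26), (7, 2)]))) (.mul
 (.g 18) (.mul (.pp [(1, 3770870400)]) (.sq [(1, 21), (2, 47), (3, 100), (5, -84), (7,
 25)]))))))))) (.add (.add (.mul (.g 7) (.add (.add (.mul (.g 15) (.add (.mul (.g 12) (.add (.mul
 (.g 7) (.pp [(1, 636958080000)])) (.mul (.g 13) (.pp [(1, 2210234400000)])))) (.add (.mul (.g 9)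
 (.mul (.g 15) (.pp [(1, 38188656000)]))) (.mul (.g 11) (.mul (.g 11) (.pp [(1, 12562506000)]))))))
 (.mul (.g 11) (.mul (.g 11) (.mul (.g 11) (.pp [(1, 904988700)]))))) (.add (.mul (.g 18) (.mul
 (.pp [(1, 480870720)]) (.sq [(1, 4), (2, 36), (3, 50), (5, -39), (7, 32)]))) (.mul (.g 19) (.mul
 (.pp [(1, 20145312)]) (.sq [(1, 8), (2, 75), (3, 100), (5, -80), (7, 67)])))))) (.mul (.g 10)
 (.add (.mul (.g 10) (.add (.mul (.pp [(1, 58497120)]) (.sq [(1, -41), (2, -69), (3, -9), (5, -19),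
 (7, 100)])) (.mul (.g 9) (.mul (.g 12) (.pp [(1, 19762934400)]))))) (.mul (.g 15) (.mul (.pp [(1,
 737288640)]) (.sq [(1, -9), (2, -25), (3, -26), (5, -4), (7, 50)])))))) (.add (.mul (.g 13) (.add
 (.mul (.g 9) (.mul (.g 9) (.mul (.g 15) (.pp [(1, 6359126400)])))) (.add (.mul (.g 14) (.mul (.pp
 [(1, 5207360400)]) (.sq [(1, 13), (2, -82), (3, 100), (5, -11), (7, 43)]))) (.mul (.g 18) (.mul
 (.pp [(1, 2853298800)]) (.sq [(1, -14), (2, 100), (3, 7), (5, -52), (7, -24)])))))) (.mul (.g 16)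
 (.add (.mul (.g 11) (.mul (.g 16) (.mul (.g 16) (.pp [(1, 1161329400000)])))) (.add (.mul (.g 12)
 (.mul (.pp [(1, 3272781600)]) (.sq [(1, -48), (2, 100), (3, 29), (5, -15), (7, 16)]))) (.mul (.g
 15) (.mul (.pp [(1, 1443855600)]) (.sq [(1, -14), (2, -59), (3, -29), (5, -18), (7, 100)])))))))))
 (.add (.add (.add (.mul (.g 14) (.add (.mul (.pp [(1, 1056211200)]) (.sq [(1, -14), (2, 100), (3,
 12), (5, -53), (7, -9)])) (.mul (.g 12) (.mul (.pp [(1, 5152910400)]) (.sq [(1, -7), (2, 100), (3,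
 10), (5, -53), (7, -10)]))))) (.mul (.g 0) (.pp [(1, 12000000000000)]))) (.add (.mul (.g 1) (.pp
 [(1, 158400000000)])) (.mul (.g 2) (.pp [(1, 79200000000)])))) (.add (.add (.mul (.g 3) (.pp [(1,
 132000000000000)])) (.mul (.g 5) (.pp [(1, 132000000000000)]))) (.add (.mul (.g 11) (.mul (.g 11)
 (.mul (.pp [(1, 14333913)]) (.sq [(1, -17), (2, 100), (3, 35), (5, -28), (7, -48)])))) (.mul (.g
 21) (.pp [(1, 132000000000000)])))))) (.pp [(1, 410972239347), (2, 3846093888), (3, 3027463638),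
 (4, 4720402104), (5, 3639135864), (6, 3079490568), (7, 2781077904), (8, 4200023520), (9,
 5108454879), (10, 3159421584), (12, 2607351120), (14, 4631465520), (15, 5423537064), (16,
 3438784800), (18, 5040632520), (20, 3140338696), (21, 4787283600), (24, 4563662400), (25,
 4409263980), (27, 2772718080), (28, 3516535440), (30, 4788078592), (35, 3255283152), (36,
 3848209200), (40, 4074570720), (42, 4100184000), (45, 2711918176), (49, 5244274728), (50,
 4895306548), (54, 4178750400), (56, 4659336000), (60, 3780920880), (63, 3610632960), (70,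
 3371528160), (75, 3217722068), (81, 3918934800), (84, 3927290400), (90, 3640546800), (98,
 3585716640), (100, 4175053520), (105, 4844149200), (125, 3364359196), (126, 4016746800), (135,
 4842842400), (140, 3195078480), (147, 3400257960), (150, 4387510160), (175, 4914379800), (189,
 3904401600), (196, 4306896000), (210, 3852097920), (225, 4220704400), (245, 3795609312), (250,
 3791926160), (294, 4343011200), (315, 4115192400), (343, 3554848440), (350, 4538627280), (375,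
 3863054800), (441, 4088383200), (490, 3915315360), (525, 3879390240), (625, 4191440000), (686,
 3993264000), (735, 3692715840), (875, 3511545840), (1029, 4585284000), (1225, 3988052640), (1715,
 4247733600), (2401, 4110796800)]))))))))))))
 (.cut 1 [(2, 1), (3, -1)] (.add (.mul (.g 11) (.pp [(1, 1)])) (.mul (.g 8) (.pp [(1, 1)]))) (.rule
 0 (.cut 450 [(2, -1), (5, 1)] (.add (.mul (.g 11) (.pp [(1, 310)])) (.add (.mul (.g 12) (.pp [(1,
 7)])) (.mul (.g 2) (.pp [(1, 9)])))) (.rule 3 (.cut 1 [(1, 2), (5, -1)] (.add (.mul (.g 12) (.pp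
 [(1, 1)])) (.add (.mul (.g 8) (.pp [(1, 1)])) (.mul (.g 11) (.pp [(1, 1)])))) (.rule 27 (.rule 25
 (.leaf 66000000 (.add (.add (.add (.add (.mul (.g 11) (.add (.add (.mul (.g 7) (.add (.mul (.g 10)
 (.add (.add (.mul (.g 11) (.pp [(1, 2410610400)])) (.mul (.g 12) (.pp [(1, 591940800)]))) (.add
 (.mul (.g 13) (.pp [(1, 1315380000)])) (.mul (.g 14) (.pp [(1, 1805878800)]))))) (.add (.mul (.g
 12) (.add (.pp [(1, 7703018400)]) (.add (.mul (.g 12) (.pp [(1, 855940800)])) (.mul (.g 20) (.pp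
 [(1, 46200000)]))))) (.mul (.g 11) (.add (.mul (.g 11) (.pp [(1, 132000)])) (.mul (.g 14) (.pp
 [(1, 2360437200)]))))))) (.add (.mul (.g 18) (.add (.mul (.g 12) (.add (.mul (.g 8) (.pp [(1,
 5828196000)])) (.mul (.g 12) (.pp [(1, 16604280000)])))) (.add (.mul (.g 13) (.add (.pp [(1,
 10206900000)]) (.mul (.g 14) (.pp [(1, 947760000)])))) (.mul (.g 11) (.mul (.g 18) (.pp [(1,
 81896100000)])))))) (.mul (.g 10) (.mul (.g 10) (.add (.add (.mul (.g 10) (.pp [(1,
 82666320000)])) (.mul (.g 11) (.pp [(1, 108729720000)]))) (.add (.mul (.g 15) (.pp [(1,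
 192478440000)])) (.mul (.g 20) (.pp [(1, 33895620000)])))))))) (.add (.mul (.g 13) (.add (.mul (.g
 9) (.mul (.g 14) (.pp [(1, 1104444000)]))) (.mul (.g 13) (.mul (.g 20) (.pp [(1,
 63329640000)]))))) (.add (.mul (.g 15) (.add (.pp [(1, 35867700000)]) (.mul (.g 12) (.mul (.g 15)
 (.pp [(1, 5710320000)]))))) (.mul (.g 17) (.mul (.g 17) (.pp [(1, 439753050)]))))))) (.mul (.g 20)
 (.add (.add (.mul (.g 13) (.add (.add (.pp [(1, 1748340000)]) (.add (.mul (.g 10) (.add (.pp [(1,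
 171766980000)]) (.add (.mul (.g 8) (.pp [(1, 12623292000)])) (.mul (.g 14) (.pp [(1,
 157778280000)]))))) (.mul (.g 13) (.add (.pp [(1, 122760000)]) (.add (.mul (.g 15) (.pp [(1,
 63342840000)])) (.mul (.g 18) (.pp [(1, 63349440000)]))))))) (.add (.mul (.g 18) (.add (.pp [(1,
 7399920000)]) (.mul (.g 12) (.pp [(1, 549120000)])))) (.add (.mul (.g 7) (.pp [(1, 6058800)]))
 (.mul (.g 20) (.mul (.g 20) (.pp [(1, 6600000)]))))))) (.add (.mul (.g 7) (.add (.pp [(1,
 2091051600)]) (.mul (.g 10) (.pp [(1, 3970203600)])))) (.mul (.g 18) (.add (.pp [(1, 8753580000)])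
 (.mul (.g 16) (.mul (.g 16) (.pp [(1, 2316600000)]))))))) (.add (.mul (.g 9) (.pp [(1,
 792693000)])) (.add (.mul (.g 10) (.mul (.g 10) (.mul (.g 10) (.pp [(1, 238309500000)])))) (.mul
 (.g 14) (.mul (.pp [(1, 265848)]) (.sq [(1, -1), (2, 3), (3, -97), (5, 100), (7, -3)]))))))))
 (.add (.mul (.g 14) (.add (.add (.mul (.g 18) (.add (.add (.mul (.g 12) (.add (.mul (.g 14) (.pp
 [(1, 25973640000)])) (.mul (.g 17) (.pp [(1, 13015266000)])))) (.mul (.g 15) (.add (.pp [(1,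
 158310240000)]) (.mul (.g 10) (.pp [(1, 22485540000)]))))) (.add (.mul (.g 9) (.mul (.g 13) (.pp
 [(1, 14289000)]))) (.add (.mul (.g 17) (.mul (.g 17) (.pp [(1, 261376500)]))) (.mul (.g 18) (.mul
 (.g 18) (.pp [(1, 20383440000)]))))))) (.mul (.g 7) (.add (.mul (.g 10) (.add (.mul (.g 12) (.pp
 [(1, 3276820800)])) (.mul (.g 17) (.pp [(1, 18151980)])))) (.mul (.g 13) (.mul (.g 14) (.pp [(1,
 2025632400)])))))) (.add (.mul (.g 13) (.add (.mul (.pp [(1, 9240)]) (.sq [(1, -14), (2, -50), (3,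
 -34), (5, -21), (7, 100)])) (.mul (.g 14) (.mul (.g 15) (.pp [(1, 327360000)]))))) (.add (.mul (.g
 9) (.mul (.g 14) (.mul (.g 14) (.pp [(1, 866943000)])))) (.mul (.g 10) (.mul (.g 15) (.mul (.g 17)
 (.pp [(1, 467313000)])))))))) (.add (.mul (.g 12) (.add (.add (.mul (.pp [(1, 10291908)]) (.sq
 [(1, 93), (2, 65), (3, 27), (5, -100), (7, -10)])) (.mul (.g 12) (.add (.mul (.pp [(1, 217074)])
 (.sq [(1, 61), (2, 46), (3, 32), (5, -100), (7, 50)])) (.mul (.pp [(1, 353298)]) (.sq [(1, 93),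
 (2, 53), (3, 21), (5, -100)]))))) (.add (.mul (.g 9) (.mul (.g 17) (.mul (.g 17) (.pp [(1,
 15385260)])))) (.add (.mul (.g 10) (.mul (.pp [(1, 3176646)]) (.sq [(1, 70), (2, 73), (3, 43), (5,
 -100), (7, 6)]))) (.mul (.g 15) (.mul (.g 15) (.mul (.g 15) (.pp [(1, 5710320000)])))))))) (.mul
 (.g 17) (.add (.mul (.g 18) (.mul (.g 18) (.add (.mul (.g 10) (.pp [(1, 10949730000)])) (.mul (.g
 13) (.pp [(1, 224037000)]))))) (.add (.mul (.g 15) (.mul (.g 15) (.pp [(1, 5693853000)]))) (.mul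
 (.g 17) (.mul (.g 17) (.pp [(1, 6052695)]))))))))) (.add (.add (.mul (.g 0) (.pp [(1,
 20000000000)])) (.add (.mul (.g 1) (.pp [(1, 3300000000)])) (.mul (.g 3) (.pp [(1,
 220000000000)])))) (.add (.mul (.g 5) (.pp [(1, 220000000000)])) (.add (.mul (.g 18) (.mul (.pp
 [(1, 568788)]) (.sq [(1, 16), (2, 48), (3, 5), (5, -98), (7, 100)]))) (.mul (.g 19) (.pp [(1,
 220000000000)])))))) (.pp [(1, 443466835), (2, 6162044), (3, 7376866), (4, 7794292), (5, 7332272),
 (6, 6659752), (7, 5895120), (8, 4755432), (9, 6590980), (10, 6109708), (12, 6660984), (14,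
 6931056), (15, 5590904), (16, 6600000), (18, 6753384), (19, 660000000000), (20, 7459628), (21,
 6773184), (24, 6847368), (25, 6504564), (27, 5859832), (28, 6871656), (30, 7301360), (35,
 6511560), (36, 6883536), (40, 7913466), (42, 7337616), (45, 6152168), (49, 7426056), (50,
 6054532), (54, 7296168), (56, 6847368), (60, 5067612), (63, 6065928), (70, 6862680), (75,
 6390956), (81, 6600000), (84, 6124800), (90, 5872746), (98, 6836280), (100, 5048934), (105,
 6507600), (125, 6489648), (126, 7134072), (135, 6600000), (140, 6893304), (147, 6768168), (150,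
 8448396), (175, 6775560), (189, 6600000), (196, 6105264), (210, 5565384), (225, 7351806), (245,
 6428400), (250, 7299600), (294, 6431832), (315, 6600000), (343, 6352632), (350, 6569640), (375,
 6085200), (441, 6600000), (490, 6341544), (525, 6943200), (625, 6600000), (686, 6847368), (735,
 6600000), (875, 6600000), (1029, 6600000), (1225, 6435000), (1715, 6600000), (2401,
 6600000)])))))))))))))
 (P_TpB ++ xP_A_T2) = true := by decide +kernel

theorem t_A_T4a_free : chk RFp gP_A_T4a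
 (.split [(2, 1), (3, -1)]
 (.split [(2, 1), (5, -1)]
 (.rule 0 (.rule 2 (.leaf 30000000 (.add (.add (.add (.mul (.g 8) (.add (.add (.mul (.g 6) (.add
 (.add (.mul (.pp [(1, 312150)]) (.sq [(1, -91), (2, 49), (3, 100), (5, 100)])) (.mul (.g 4) (.add
 (.mul (.g 5) (.pp [(1, 20178300000)])) (.add (.mul (.g 6) (.pp [(1, 1101300000)])) (.mul (.g 10)
 (.pp [(1, 39953700000)])))))) (.add (.mul (.g 3) (.add (.mul (.g 2) (.pp [(1, 114462300000)]))
 (.mul (.g 8) (.pp [(1, 3739500000)])))) (.mul (.g 10) (.mul (.g 10) (.pp [(1, 55670700000)]))))))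
 (.add (.mul (.g 8) (.add (.mul (.g 2) (.add (.mul (.g 5) (.pp [(1, 2222100000)])) (.mul (.g 14)
 (.pp [(1, 118500000)])))) (.add (.mul (.g 8) (.add (.mul (.g 5) (.pp [(1, 198600000)])) (.mul (.g
 8) (.pp [(1, 279300000)])))) (.mul (.g 3) (.mul (.g 13) (.pp [(1, 978000000)])))))) (.mul (.g 3)
 (.mul (.g 4) (.add (.mul (.g 4) (.pp [(1, 36000000)])) (.mul (.g 5) (.pp [(1, 57141600000)])))))))
 (.add (.mul (.g 5) (.mul (.g 5) (.mul (.g 10) (.pp [(1, 28309200000)])))) (.add (.mul (.g 13)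
 (.mul (.pp [(1, 245700)]) (.sq [(1, -18), (2, -19), (3, 100), (5, -18)]))) (.mul (.g 14) (.mul
 (.pp [(1, 656310)]) (.sq [(1, -15), (2, -16), (3, -40), (5, 100)]))))))) (.add (.mul (.g 5) (.add
 (.mul (.g 6) (.add (.add (.mul (.pp [(1, 3461940)]) (.sq [(1, -10), (2, -33), (3, -57), (5,
 100)])) (.mul (.g 3) (.mul (.g 6) (.pp [(1, 125442600000)])))) (.add (.mul (.g 4) (.mul (.g 11)
 (.pp [(1, 2404425000)]))) (.mul (.g 5) (.mul (.g 14) (.pp [(1, 113109600000)])))))) (.add (.mul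
 (.g 11) (.add (.mul (.pp [(1, 28941)]) (.sq [(1, -75), (2, 84), (3, 83), (5, 100)])) (.add (.mul
 (.g 3) (.mul (.g 4) (.pp [(1, 2878650000)]))) (.mul (.g 5) (.mul (.g 10) (.pp [(1,
 408930000)])))))) (.mul (.g 2) (.mul (.g 3) (.mul (.g 5) (.pp [(1, 5629500000)]))))))) (.mul (.g
 10) (.add (.add (.mul (.g 3) (.add (.mul (.pp [(1, 1024110)]) (.sq [(1, -6), (2, -21), (3, 100),
 (5, -31)])) (.mul (.g 3) (.pp [(1, 70776600000)])))) (.mul (.g 11) (.add (.mul (.pp [(1, 16194)])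
 (.sq [(1, 26), (2, 34), (3, 100), (5, 55)])) (.mul (.g 9) (.mul (.g 14) (.pp [(1, 15495000)]))))))
 (.add (.mul (.g 2) (.mul (.g 2) (.pp [(1, 29663100000)]))) (.mul (.g 10) (.mul (.pp [(1,
 11829240)]) (.sq [(1, -12), (2, -7), (3, 50), (5, -21)])))))))) (.add (.add (.mul (.g 6) (.add
 (.mul (.g 2) (.add (.mul (.g 2) (.mul (.g 4) (.pp [(1, 50594700000)]))) (.add (.mul (.g 3) (.mul
 (.g 3) (.pp [(1, 74887800000)]))) (.mul (.g 11) (.pp [(1, 414930000)]))))) (.mul (.g 4) (.mul (.pp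
 [(1, 592500)]) (.sq [(1, -14), (2, -25), (3, -14), (5, 100)]))))) (.mul (.g 0) (.pp [(1,
 100000000000)]))) (.add (.mul (.g 1) (.pp [(1, 100000000000)])) (.mul (.g 12) (.pp [(1,
 100000000000)]))))) (.pp [(1, 123423450), (2, 2868246), (3, 2837379), (4, 3008748), (5, 2992704),
 (6, 3523812), (8, 2878676), (9, 2961630), (10, 3000732), (12, 2824380), (15, 2603940), (16,
 3105030), (18, 2779704), (20, 3768174), (24, 3028320), (25, 2871960), (27, 3122059), (30,
 2563800), (36, 3072870), (40, 2772600), (45, 3803760), (50, 2265330), (54, 3065100), (60,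
 3335490), (75, 4071750), (81, 2890980), (90, 2649660), (100, 3025890), (125, 3423190), (135,
 2761920), (150, 2415960), (225, 2625870), (250, 2960610), (375, 2838030), (625, 2942160)])))))
 (.rule 0 (.rule 3 (.leaf 3000000 (.add (.add (.add (.add (.mul (.g 5) (.add (.add (.mul (.g 5)
 (.add (.add (.mul (.g 5) (.add (.mul (.g 2) (.pp [(1, 197910000)])) (.add (.mul (.g 5) (.pp [(1,
 417840000)])) (.mul (.g 6) (.pp [(1, 447870000)]))))) (.mul (.g 8) (.add (.mul (.g 8) (.pp [(1,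
 167310000)])) (.mul (.g 13) (.pp [(1, 4260000)]))))) (.add (.mul (.g 2) (.pp [(1, 1777500000)]))
 (.mul (.g 6) (.mul (.g 14) (.pp [(1, 24911880000)])))))) (.add (.mul (.g 6) (.add (.mul (.g 2)
 (.add (.pp [(1, 8766810000)]) (.add (.mul (.g 6) (.pp [(1, 11379450000)])) (.mul (.g 13) (.pp [(1,
 210390000)]))))) (.mul (.g 6) (.add (.mul (.g 3) (.pp [(1, 3576390000)])) (.mul (.g 11) (.pp [(1,
 522784500)])))))) (.mul (.g 3) (.add (.mul (.g 4) (.add (.pp [(1, 8412540000)]) (.mul (.g 8) (.pp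
 [(1, 165900000)])))) (.mul (.g 3) (.pp [(1, 9574080000)])))))) (.add (.add (.mul (.g 2) (.mul (.g
 2) (.pp [(1, 11583120000)]))) (.mul (.g 4) (.mul (.g 4) (.mul (.g 14) (.pp [(1, 136140000)])))))
 (.add (.mul (.g 9) (.mul (.pp [(1, 16530)]) (.sq [(1, -81), (2, 100), (3, -39), (5, 91)]))) (.mul
 (.g 11) (.mul (.g 11) (.pp [(1, 380400)]))))))) (.mul (.g 6) (.add (.mul (.g 2) (.add (.mul (.g 4)
 (.add (.mul (.g 3) (.pp [(1, 600000)])) (.mul (.g 6) (.pp [(1, 196860000)])))) (.mul (.g 6) (.mul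
 (.g 6) (.pp [(1, 248610000)]))))) (.add (.mul (.g 14) (.add (.mul (.pp [(1, 89094)]) (.sq [(1,
 -59), (2, 100), (3, 81), (5, 1)])) (.add (.mul (.g 3) (.mul (.g 8) (.pp [(1, 803460000)]))) (.mul
 (.g 11) (.mul (.g 13) (.pp [(1, 1668000)])))))) (.mul (.g 3) (.mul (.g 4) (.mul (.g 6) (.pp [(1,
 206190000)])))))))) (.add (.mul (.g 11) (.add (.mul (.g 14) (.add (.mul (.g 4) (.mul (.g 14) (.pp
 [(1, 2592000)]))) (.mul (.g 8) (.pp [(1, 3423000)])))) (.add (.mul (.g 2) (.mul (.g 13) (.mul (.g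
 13) (.pp [(1, 1963500)])))) (.mul (.g 11) (.pp [(1, 22425)]))))) (.mul (.g 3) (.add (.mul (.g 2)
 (.mul (.g 4) (.mul (.g 4) (.pp [(1, 300000)])))) (.mul (.g 3) (.pp [(1, 18810000)])))))) (.add
 (.add (.mul (.g 14) (.add (.mul (.pp [(1, 213)]) (.sq [(1, -100), (2, 81), (3, 81), (5, 47)]))
 (.mul (.g 14) (.mul (.pp [(1, 14418)]) (.sq [(1, -39), (2, 42), (3, -14), (5, 100)]))))) (.mul (.g
 0) (.pp [(1, 10000000000)]))) (.add (.mul (.g 1) (.pp [(1, 10000000000)])) (.add (.mul (.g 8)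
 (.mul (.pp [(1, 36)]) (.sq [(1, -100), (2, 92), (3, 46), (5, 49)]))) (.mul (.g 12) (.pp [(1,
 10000000000)])))))) (.pp [(1, 5956797), (2, 323868), (3, 304614), (4, 312051), (5, 325242), (6,
 240348), (8, 304704), (9, 311193), (10, 250506), (12, 310704), (15, 312684), (16, 300000), (18,
 299136), (20, 328773), (24, 300000), (25, 271575), (27, 314410), (30, 296598), (36, 294000), (40,
 300000), (45, 313335), (50, 307986), (54, 303870), (60, 294000), (75, 300156), (81, 302130), (90,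
 311940), (100, 276648), (125, 328731), (135, 302190), (150, 339438), (225, 254796), (250, 297600),
 (375, 288558), (625, 299094)]))))))
 (.rule 1 (.rule 6 (.leaf 1200000000 (.add (.add (.add (.add (.mul (.g 5) (.add (.add (.mul (.g 5)
 (.add (.add (.mul (.g 5) (.add (.mul (.g 2) (.pp [(1, 248184000000)])) (.add (.mul (.g 3) (.pp
 [(1, 263496000000)])) (.mul (.g 5) (.pp [(1, 67788000000)]))))) (.mul (.g 2) (.pp [(1,
 3894480000000)]))) (.add (.mul (.g 3) (.mul (.g 3) (.pp [(1, 446736000000)]))) (.mul (.g 4) (.mul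
 (.g 12) (.pp [(1, 6101316000000)])))))) (.add (.mul (.g 4) (.add (.mul (.pp [(1, 10725600)]) (.sq
 [(1, -36), (2, 89), (3, 100), (5, -78)])) (.mul (.g 4) (.add (.mul (.g 2) (.pp [(1,
 9203112000000)])) (.add (.mul (.g 10) (.pp [(1, 437059200000)])) (.mul (.g 13) (.pp [(1,
 275880000000)]))))))) (.mul (.g 2) (.mul (.g 2) (.add (.pp [(1, 5478564000000)]) (.mul (.g 7) (.pp
 [(1, 311256000000)]))))))) (.add (.mul (.g 3) (.mul (.g 3) (.add (.mul (.g 3) (.pp [(1,
 1884084000000)])) (.mul (.g 7) (.pp [(1, 1818624000000)]))))) (.add (.mul (.g 10) (.mul (.g 10)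
 (.pp [(1, 449640000)]))) (.mul (.g 13) (.mul (.pp [(1, 3702000)]) (.sq [(1, -68), (2, 100), (3,
 91), (5, -24)]))))))) (.mul (.g 10) (.add (.mul (.g 10) (.add (.add (.mul (.pp [(1, 7929)]) (.sq
 [(1, 4), (2, -31), (3, 100), (5, -91)])) (.mul (.g 4) (.add (.pp [(1, 169260000)]) (.mul (.g 10)
 (.pp [(1, 13566000)]))))) (.add (.mul (.g 2) (.pp [(1, 46260000)])) (.mul (.g 3) (.mul (.g 7) (.pp
 [(1, 279060000)])))))) (.add (.mul (.g 2) (.mul (.g 13) (.pp [(1, 4261800000)]))) (.mul (.g 12)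
 (.mul (.pp [(1, 1421760)]) (.sq [(1, 17), (2, 12), (3, -50), (5, 44)]))))))) (.add (.mul (.g 2)
 (.add (.mul (.g 3) (.add (.mul (.g 3) (.add (.mul (.g 3) (.pp [(1, 48708000000)])) (.mul (.g 9)
 (.pp [(1, 371688000000)])))) (.mul (.g 2) (.mul (.g 12) (.pp [(1, 31836000000)]))))) (.mul (.g 2)
 (.mul (.g 2) (.mul (.g 7) (.pp [(1, 6612000000)])))))) (.add (.mul (.g 13) (.add (.add (.mul (.g
 3) (.mul (.pp [(1, 6118800)]) (.sq [(1, -100), (2, 99), (3, 74), (5, 60)]))) (.mul (.g 4) (.mul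
 (.pp [(1, 2077200)]) (.sq [(1, -100), (2, 87), (3, 76), (5, 68)])))) (.add (.mul (.g 12) (.mul
 (.pp [(1, 54600000000)]) (.sq [(3, 1), (5, -1)]))) (.mul (.g 13) (.mul (.pp [(1, 26064000)]) (.sq
 [(1, -18), (2, 9), (3, -9), (5, 50)])))))) (.mul (.g 4) (.add (.mul (.g 4) (.mul (.g 4) (.mul (.g
 9) (.pp [(1, 94752000000)])))) (.mul (.g 8) (.mul (.pp [(1, 4627200)]) (.sq [(1, -82), (2, 100),
 (3, 40), (5, 53)])))))))) (.add (.add (.mul (.g 0) (.pp [(1, 4000000000000)])) (.mul (.g 1) (.pp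
 [(1, 4000000000000)]))) (.add (.mul (.g 8) (.mul (.g 9) (.mul (.pp [(1, 22114800)]) (.sq [(1,
 -31), (2, 100), (3, 10)])))) (.add (.mul (.g 11) (.pp [(1, 4000000000000)])) (.mul (.g 12) (.mul
 (.g 12) (.mul (.pp [(1, 7766400)]) (.sq [(1, -39), (2, 42), (3, 100), (5, -14)])))))))) (.pp [(1,
 1234295856), (2, 126316392), (3, 118593600), (4, 109340871), (5, 120976872), (6, 114307800), (8,
 132252360), (9, 125080800), (10, 97677702), (12, 117821400), (15, 140280120), (16, 132092400),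
 (18, 120168000), (20, 117979160), (24, 80004000), (25, 119163471), (27, 119164800), (30,
 166066320), (36, 158094000), (40, 112006800), (45, 80845200), (50, 138160040), (54, 105120000),
 (60, 130688400), (75, 92344680), (81, 123000000), (90, 91101600), (100, 112567200), (125,
 127265640), (135, 155635200), (150, 101848800), (225, 135328800), (250, 122352000), (375,
 124024800), (625, 120332400)]))))))
 (P_free ++ xP_A_T4a) = true := by decide +kernel

theorem t_G_F1_Op0 : chk ROp gP_G_F1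
 (.split [(1, 1), (2, -20)]
 (.split [(1, -69), (3, 100)]
 (.split [(1, -1), (7, 2)]
 (.cut 1 [(1, 3), (3, -2)] (.add (.add (.mul (.g 3) (.pp [(1, 18)])) (.mul (.g 8) (.pp [(1, 2)])))
 (.add (.mul (.g 5) (.pp [(1, 2)])) (.mul (.g 2) (.pp [(1, 1)])))) (.rule 8 (.rule 4 (.leaf
 1200000000 (.add (.add (.add (.add (.mul (.g 8) (.add (.add (.mul (.g 7) (.add (.add (.mul (.g 5)
 (.add (.mul (.g 8) (.pp [(1, 515930400000)])) (.mul (.g 17) (.pp [(1, 551239800000)])))) (.add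
 (.mul (.g 7) (.mul (.g 14) (.pp [(1, 48000000)]))) (.mul (.g 8) (.mul (.g 10) (.pp [(1,
 16920000000)]))))) (.add (.mul (.g 12) (.mul (.g 17) (.pp [(1, 91188000000)]))) (.add (.mul (.g
 13) (.mul (.g 13) (.pp [(1, 2422050000)]))) (.mul (.g 16) (.pp [(1, 220740000000)])))))) (.add
 (.mul (.g 12) (.add (.mul (.pp [(1, 487200)]) (.sq [(1, 77), (2, -62), (3, 84), (5, -100), (7,
 56)])) (.add (.mul (.g 11) (.add (.mul (.g 6) (.pp [(1, 739956000000)])) (.add (.mul (.g 11) (.pp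
 [(1, 670392000000)])) (.mul (.g 12) (.pp [(1, 14232000000)]))))) (.mul (.g 3) (.mul (.g 6) (.pp
 [(1, 90588000000)])))))) (.mul (.g 5) (.add (.pp [(1, 21717600000)]) (.mul (.pp [(1, 131040)])
 (.sq [(1, 43), (2, 50), (3, 50), (5, 50), (7, 50)])))))) (.add (.add (.mul (.g 8) (.add (.mul (.g
 4) (.mul (.g 10) (.pp [(1, 1580760000)]))) (.mul (.g 6) (.mul (.g 14) (.pp [(1,
 592104000000)]))))) (.mul (.g 9) (.pp [(1, 1209648000000)]))) (.add (.mul (.g 11) (.mul (.pp [(1,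
 141672000)]) (.sq [(1, -37), (2, -95), (3, 100), (5, 76), (7, -19)]))) (.mul (.g 14) (.pp [(1,
 15300000000)])))))) (.add (.mul (.g 16) (.add (.add (.mul (.g 6) (.add (.mul (.pp [(1, 987600)])
 (.sq [(1, 100), (2, 50), (3, 87), (5, 87), (7, 50)])) (.add (.mul (.g 6) (.add (.pp [(1,
 477420000000)]) (.mul (.g 10) (.pp [(1, 56724000000)])))) (.mul (.g 9) (.pp [(1,
 412512000000)]))))) (.add (.mul (.g 3) (.add (.mul (.pp [(1, 7800)]) (.sq [(1, -38), (2, -51), (3,
 87), (5, 100), (7, 66)])) (.add (.mul (.pp [(1, 4800)]) (.sq [(1, -30), (2, 20), (3, -39), (5,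
 100), (7, 74)])) (.mul (.g 3) (.mul (.g 5) (.pp [(1, 557850000)])))))) (.mul (.g 7) (.add (.pp
 [(1, 597804000000)]) (.add (.mul (.pp [(1, 52800)]) (.sq [(1, 100), (2, 81), (3, 81), (5, 81), (7,
 81)])) (.mul (.g 7) (.pp [(1, 245916000000)]))))))) (.add (.add (.mul (.g 10) (.mul (.g 16) (.add
 (.mul (.g 5) (.pp [(1, 717000000)])) (.mul (.g 14) (.pp [(1, 23184000000)]))))) (.mul (.g 9) (.pp
 [(1, 1002096000000)]))) (.add (.mul (.g 11) (.mul (.pp [(1, 2154000)]) (.sq [(1, 100), (2, -50),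
 (3, -87), (5, -87), (7, -50)]))) (.mul (.g 13) (.mul (.pp [(1, 50100)]) (.sq [(1, -31), (2, -37),
 (3, 56), (5, 57), (7, 100)]))))))) (.mul (.g 5) (.add (.add (.mul (.g 6) (.add (.add (.pp [(1,
 29383200000)]) (.mul (.pp [(1, 221160)]) (.sq [(1, 83), (2, 80), (3, 100), (5, 100), (7, 38)])))
 (.add (.mul (.g 6) (.add (.mul (.g 11) (.pp [(1, 7126800000)])) (.mul (.g 14) (.pp [(1,
 1224600000)])))) (.mul (.g 3) (.mul (.g 12) (.pp [(1, 3881700000)])))))) (.mul (.g 3) (.mul (.g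
 10) (.add (.mul (.g 3) (.pp [(1, 67064250000)])) (.mul (.g 9) (.pp [(1, 11308500000)])))))) (.add
 (.mul (.g 9) (.pp [(1, 163243200000)])) (.add (.mul (.g 11) (.mul (.pp [(1, 427500)]) (.sq [(1,
 -45), (2, -80), (3, 49), (5, 100), (7, -76)]))) (.mul (.g 12) (.mul (.g 12) (.mul (.g 13) (.pp
 [(1, 295620000)])))))))))) (.add (.add (.mul (.g 11) (.add (.add (.mul (.pp [(1, 3194400)]) (.sq
 [(2, 86), (3, -83), (5, 93), (7, -100)])) (.add (.mul (.g 13) (.add (.mul (.pp [(1, 30540)]) (.sq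
 [(1, 43), (2, 71), (3, 100), (5, -50), (7, -29)])) (.mul (.pp [(1, 664680)]) (.sq [(1, -32), (2,
 -6), (3, 58), (5, 23), (7, 100)])))) (.mul (.g 3) (.mul (.pp [(1, 209400)]) (.sq [(1, -26), (2,
 -71), (3, 87), (5, 100), (7, 48)]))))) (.add (.mul (.g 9) (.mul (.pp [(1, 1488000)]) (.sq [(1,
 -31), (2, -55), (3, 82), (5, 100), (7, 38)]))) (.add (.mul (.g 12) (.mul (.g 12) (.mul (.g 12)
 (.pp [(1, 59988000000)])))) (.mul (.g 17) (.mul (.pp [(1, 19081200)]) (.sq [(1, 23), (2, 56), (3,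
 -100), (5, -88), (7, 83)]))))))) (.mul (.g 3) (.add (.mul (.g 6) (.add (.mul (.g 3) (.mul (.g 3)
 (.pp [(1, 243448500000)]))) (.mul (.g 10) (.mul (.g 10) (.pp [(1, 1011336000000)]))))) (.add (.mul
 (.g 9) (.mul (.g 10) (.mul (.g 10) (.pp [(1, 292290000000)])))) (.mul (.g 12) (.mul (.pp [(1,
 3718800)]) (.sq [(1, 53), (2, 100), (3, 54), (5, 73), (7, -31)]))))))) (.add (.mul (.g 7) (.add
 (.add (.mul (.g 4) (.pp [(1, 24960360000)])) (.mul (.g 6) (.pp [(1, 346620000000)]))) (.add (.mul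
 (.g 7) (.pp [(1, 1044300000000)])) (.mul (.g 17) (.pp [(1, 441072000000)]))))) (.mul (.g 13) (.add
 (.add (.mul (.g 9) (.mul (.pp [(1, 130980)]) (.sq [(1, 81), (2, 100), (3, -74), (5, -28), (7,
 19)]))) (.mul (.g 12) (.mul (.pp [(1, 426960)]) (.sq [(1, 66), (2, 55), (3, -95), (5, 84), (7,
 -100)])))) (.add (.mul (.g 13) (.mul (.pp [(1, 16101)]) (.sq [(1, -50), (2, 64), (3, 9), (5, 9),
 (7, 100)]))) (.mul (.g 17) (.mul (.pp [(1, 498000)]) (.sq [(1, -24), (2, -3), (3, 76), (5, 1), (7,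
 100)]))))))))) (.add (.add (.mul (.g 14) (.add (.mul (.g 10) (.mul (.pp [(1, 2316000)]) (.sq [(1,
 -34), (2, 55), (3, -27), (5, 100), (7, -76)]))) (.add (.mul (.g 12) (.mul (.pp [(1, 7336800)])
 (.sq [(1, -44), (2, -85), (3, 39), (5, 100), (7, -63)]))) (.mul (.g 17) (.mul (.pp [(1, 8400)])
 (.sq [(1, 42), (2, -100), (3, 45), (5, -95), (7, 76)])))))) (.add (.mul (.g 4) (.add (.pp [(1,
 9156600000)]) (.mul (.g 9) (.pp [(1, 9174000000)])))) (.mul (.g 0) (.pp [(1, 4000000000000)]))))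
 (.add (.add (.mul (.g 1) (.pp [(1, 1200000000)])) (.mul (.g 6) (.pp [(1, 4852320000000)]))) (.add
 (.mul (.g 12) (.mul (.g 12) (.mul (.pp [(1, 6584400)]) (.sq [(1, 100), (2, 18), (3, 82), (5, -25),
 (7, -88)])))) (.mul (.g 15) (.pp [(1, 4000000000000)])))))) (.pp [(1, 310036083120), (2,
 107003880), (3, 113609580), (4, 123757944), (5, 107256120), (6, 100818288), (7, 114273480), (8,
 124566420), (9, 127589559), (10, 140538168), (12, 107417340), (14, 114271800), (15, 130319838),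
 (16, 117788400), (18, 135900660), (20, 132618240), (21, 134737680), (24, 141468000), (25,
 156495279), (27, 105511980), (28, 122846220), (30, 83922720), (35, 113574120), (36, 87625200),
 (40, 137542800), (42, 110645880), (45, 115791540), (49, 133622820), (50, 99507720), (54,
 143569200), (56, 124812000), (60, 59535600), (63, 119281320), (70, 75898080), (75, 85478880), (81,
 113485200), (84, 109836000), (90, 165454800), (98, 137559420), (100, 67216800), (105, 155226480),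
 (125, 91112220), (126, 131641200), (135, 103723200), (140, 123589200), (147, 97734900), (150,
 207535200), (175, 146239980), (189, 125930400), (196, 118946400), (210, 126242400), (225,
 98613600), (245, 93322260), (250, 149108400), (294, 116023200), (315, 136273200), (343,
 117708420), (350, 114486000), (375, 112023600), (441, 130401600), (490, 111819600), (525,
 121545600), (625, 120288000), (686, 121018800), (735, 142472400), (875, 120568800), (1029,
 125538000), (1225, 126547200), (1715, 123901200), (2401, 120523200)]))))))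
 (.cut 1 [(1, 3), (3, -2)] (.add (.add (.mul (.g 3) (.pp [(1, 18)])) (.mul (.g 8) (.pp [(1, 2)])))
 (.add (.mul (.g 5) (.pp [(1, 2)])) (.mul (.g 2) (.pp [(1, 1)])))) (.rule 8 (.rule 4 (.leaf
 15000000 (.add (.add (.add (.add (.mul (.g 9) (.add (.add (.mul (.g 3) (.add (.add (.mul (.g 3)
 (.add (.mul (.g 10) (.pp [(1, 5608912500)])) (.mul (.g 13) (.pp [(1, 423787500)])))) (.mul (.g 6)
 (.add (.mul (.g 12) (.pp [(1, 31825875000)])) (.mul (.g 13) (.pp [(1, 337252500)]))))) (.add (.mul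
 (.g 7) (.mul (.g 17) (.pp [(1, 26454000000)]))) (.mul (.g 16) (.mul (.g 16) (.pp [(1,
 2157375000)])))))) (.mul (.g 4) (.add (.pp [(1, 287440500)]) (.add (.mul (.g 7) (.add (.add (.mul
 (.g 4) (.pp [(1, 8485290)])) (.mul (.g 10) (.pp [(1, 45798000)]))) (.add (.mul (.g 14) (.pp [(1,
 808023000)])) (.mul (.g 17) (.pp [(1, 57213000)]))))) (.mul (.g 6) (.mul (.g 9) (.pp [(1,
 587964000)]))))))) (.add (.mul (.g 8) (.add (.add (.mul (.g 8) (.add (.mul (.g 9) (.pp [(1,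
 75112050000)])) (.mul (.g 16) (.pp [(1, 1984050000)])))) (.mul (.g 9) (.mul (.g 17) (.pp [(1,
 39908850000)])))) (.add (.mul (.g 11) (.mul (.g 12) (.pp [(1, 697200000)]))) (.mul (.g 16) (.pp
 [(1, 85931850000)]))))) (.add (.mul (.g 9) (.add (.mul (.g 10) (.add (.mul (.g 9) (.pp [(1,
 13983150000)])) (.mul (.g 16) (.pp [(1, 30955800000)])))) (.mul (.g 6) (.mul (.g 7) (.pp [(1,
 14710950000)]))))) (.mul (.g 6) (.mul (.g 10) (.mul (.g 10) (.pp [(1, 18962550000)])))))))) (.add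
 (.mul (.g 16) (.add (.add (.mul (.g 3) (.add (.add (.mul (.g 3) (.add (.mul (.g 5) (.pp [(1,
 549395625)])) (.mul (.g 10) (.pp [(1, 4241925000)])))) (.mul (.g 8) (.add (.mul (.g 12) (.pp [(1,
 7822650000)])) (.mul (.g 16) (.pp [(1, 9292725000)]))))) (.add (.mul (.g 4) (.mul (.g 16) (.pp
 [(1, 191913750)]))) (.mul (.g 5) (.mul (.g 5) (.pp [(1, 4276125)])))))) (.add (.mul (.g 6) (.add
 (.mul (.g 6) (.add (.pp [(1, 32918250000)]) (.mul (.g 10) (.pp [(1, 2522850000)])))) (.mul (.g 7)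
 (.pp [(1, 65421150000)])))) (.mul (.g 11) (.add (.mul (.pp [(1, 17355)]) (.sq [(1, 100), (2, -50),
 (3, -87), (5, -87), (7, -50)])) (.mul (.pp [(1, 101955)]) (.sq [(2, 76), (3, -37), (5, 100), (7,
 -36)])))))) (.add (.add (.mul (.g 16) (.add (.mul (.pp [(1, 431325)]) (.sq [(1, 6), (2, 39), (3,
 51), (5, -71), (7, 100)])) (.mul (.g 8) (.mul (.g 16) (.pp [(1, 9240600000)]))))) (.mul (.g 7)
 (.mul (.g 7) (.pp [(1, 6909450000)])))) (.add (.mul (.g 12) (.mul (.pp [(1, 109110)]) (.sq [(1,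
 -10), (2, -21), (3, -15), (5, 100), (7, -34)]))) (.mul (.g 14) (.mul (.pp [(1, 81225)]) (.sq [(1,
 7), (2, 18), (3, -71), (5, 100), (7, -19)]))))))) (.mul (.g 11) (.add (.add (.mul (.g 10) (.add
 (.mul (.pp [(1, 141030)]) (.sq [(1, -18), (2, -19), (3, -71), (5, 100), (7, -34)])) (.add (.mul
 (.g 7) (.add (.mul (.g 11) (.pp [(1, 29500650000)])) (.mul (.g 12) (.pp [(1, 35514600000)]))))
 (.mul (.g 4) (.mul (.g 12) (.pp [(1, 31158000)])))))) (.mul (.g 8) (.add (.pp [(1, 7660650000)])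
 (.add (.mul (.g 4) (.mul (.g 4) (.pp [(1, 642270)]))) (.mul (.g 6) (.mul (.g 8) (.pp [(1,
 43518150000)]))))))) (.add (.mul (.g 12) (.add (.mul (.pp [(1, 847680)]) (.sq [(1, -7), (2, -25),
 (5, 100), (7, -20)])) (.mul (.pp [(1, 75495)]) (.sq [(1, 28), (2, -21), (3, 74), (5, 74), (7,
 100)])))) (.add (.mul (.g 17) (.add (.mul (.pp [(1, 272865)]) (.sq [(1, -69), (2, 79), (3, -61),
 (5, 100), (7, -48)])) (.mul (.pp [(1, 431700)]) (.sq [(1, -83), (2, 100), (3, 100), (5, 100), (7,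
 100)])))) (.mul (.g 7) (.mul (.pp [(1, 270960)]) (.sq [(1, 10), (2, 2), (3, 25), (5, -16), (7,
 100)]))))))))) (.add (.mul (.g 5) (.add (.add (.mul (.g 7) (.add (.pp [(1, 97012500)]) (.add (.mul
 (.g 10) (.add (.mul (.g 6) (.pp [(1, 140130000)])) (.mul (.g 13) (.pp [(1, 19239750)])))) (.mul
 (.g 12) (.mul (.g 13) (.pp [(1, 26608875)])))))) (.mul (.g 6) (.add (.pp [(1, 60630000)]) (.mul
 (.pp [(1, 6582)]) (.sq [(1, 83), (2, 80), (3, 100), (5, 100), (7, 38)]))))) (.add (.mul (.g 3)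
 (.mul (.g 10) (.mul (.g 10) (.pp [(1, 137013750)])))) (.add (.mul (.g 4) (.pp [(1, 39739275)]))
 (.mul (.g 8) (.pp [(1, 2846617500)])))))) (.add (.mul (.g 4) (.add (.mul (.g 10) (.add (.pp [(1,
 21150000)]) (.mul (.g 6) (.mul (.g 12) (.pp [(1, 74932500)]))))) (.add (.mul (.g 7) (.pp [(1,
 504976500)])) (.mul (.g 8) (.pp [(1, 259936500)]))))) (.mul (.g 8) (.add (.mul (.g 8) (.add (.mul
 (.pp [(1, 1783245)]) (.sq [(1, 30), (2, 32), (3, -3), (5, 51), (7, 100)])) (.mul (.g 6) (.mul (.g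
 10) (.pp [(1, 20050800000)]))))) (.mul (.g 7) (.mul (.g 10) (.mul (.g 12) (.pp [(1,
 8022300000)]))))))))) (.add (.add (.mul (.g 13) (.add (.mul (.pp [(1, 8585550)]) (.sq [(2, -7),
 (3, 10), (5, 5), (7, -4)])) (.mul (.g 7) (.mul (.pp [(1, 10749)]) (.sq [(1, 75), (2, -8), (3,
 -52), (5, -62), (7, 100)]))))) (.add (.mul (.g 17) (.add (.mul (.g 14) (.mul (.pp [(1, 9720)])
 (.sq [(1, 34), (2, 7), (3, -86), (5, -62), (7, 100)]))) (.mul (.g 17) (.mul (.pp [(1, 421125)])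
 (.sq [(1, -83), (2, 100), (3, 100), (5, 100), (7, 100)]))))) (.mul (.g 0) (.pp [(1,
 50000000000)])))) (.add (.mul (.g 1) (.pp [(1, 15000000)])) (.add (.mul (.g 3) (.mul (.g 3) (.pp
 [(1, 212025000)]))) (.mul (.g 15) (.pp [(1, 50000000000)])))))) (.pp [(1, 2354563770), (2,
 1553127), (3, 1492665), (4, 1294350), (5, 1323645), (6, 1429875), (7, 1430295), (8, 1614060), (9,
 1494780), (10, 1165065), (12, 1341744), (14, 1397844), (15, 1498545), (16, 1501125), (18,
 1636197), (20, 1724055), (21, 1905915), (24, 1526940), (25, 1727880), (27, 1468704), (28,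
 1780110), (30, 1806642), (35, 1668240), (36, 1456605), (40, 1451655), (42, 1434360), (45,
 1433043), (49, 1587105), (50, 1980675), (54, 1596630), (56, 1395030), (60, 1403145), (63,
 1102665), (70, 1479480), (75, 1522509), (81, 1454700), (84, 1293390), (90, 1754625), (98,
 1118052), (100, 1427595), (105, 1262490), (125, 1239180), (126, 1759620), (135, 1365870), (140,
 1327020), (147, 1312305), (150, 1726890), (175, 1667385), (189, 1476135), (196, 1413675), (210,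
 1943430), (225, 1205415), (245, 1321725), (250, 1282965), (294, 1608630), (315, 1539810), (343,
 1413405), (350, 1585695), (375, 1350075), (441, 1496205), (490, 1796490), (525, 1292955), (625,
 1571055), (686, 1705020), (735, 1566525), (875, 1236855), (1029, 1522755), (1225, 1461195), (1715,
 1474980), (2401, 1500000)])))))))
 (.split [(1, -7), (3, 50)]
 (.rule 7 (.rule 4 (.leaf 3000000 (.add (.add (.add (.mul (.pp [(1, 6000000)]) (.sq [(1, -7), (3,
 50), (10, -50)])) (.mul (.g 5) (.add (.add (.mul (.g 8) (.add (.add (.add (.mul (.pp [(1,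
 148098)]) (.sq [(2, 100), (3, -41), (5, -41), (7, 100)])) (.mul (.pp [(1, 67806)]) (.sq [(1, 99),
 (2, 100), (3, -73), (5, 73), (7, -100)]))) (.add (.mul (.g 15) (.add (.add (.pp [(1, 6873960000)])
 (.mul (.g 7) (.pp [(1, 3649380000)]))) (.add (.mul (.g 9) (.pp [(1, 13107330000)])) (.add (.mul
 (.g 10) (.pp [(1, 224190000)])) (.mul (.g 15) (.pp [(1, 2814660000)])))))) (.mul (.g 4) (.add (.pp
 [(1, 243952500)]) (.add (.mul (.g 3) (.pp [(1, 1102125)])) (.mul (.g 7) (.pp [(1,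
 632940000)]))))))) (.add (.add (.mul (.g 5) (.add (.mul (.g 5) (.pp [(1, 2814630000)])) (.mul (.g
 8) (.pp [(1, 1590660000)])))) (.mul (.g 2) (.mul (.g 3) (.pp [(1, 122148)])))) (.add (.mul (.g 7)
 (.pp [(1, 19989810000)])) (.mul (.g 12) (.pp [(1, 40332000)])))))) (.add (.mul (.g 7) (.add (.add
 (.pp [(1, 313200000)]) (.add (.mul (.g 4) (.add (.mul (.g 5) (.pp [(1, 12000)])) (.add (.mul (.g
 6) (.pp [(1, 30000)])) (.mul (.g 7) (.pp [(1, 750022500)]))))) (.mul (.g 3) (.pp [(1, 12900)]))))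
 (.add (.mul (.g 5) (.pp [(1, 8429850000)])) (.add (.mul (.g 7) (.mul (.g 15) (.pp [(1, 210000)])))
 (.mul (.g 16) (.pp [(1, 750630000)])))))) (.mul (.g 5) (.add (.mul (.g 4) (.add (.pp [(1,
 170394000)]) (.add (.mul (.g 5) (.pp [(1, 14565000)])) (.mul (.g 6) (.pp [(1, 12000)]))))) (.add
 (.mul (.g 3) (.pp [(1, 2700)])) (.mul (.g 15) (.pp [(1, 8430120000)]))))))) (.add (.add (.mul (.g
 3) (.add (.mul (.g 2) (.pp [(1, 114)])) (.add (.mul (.g 6) (.mul (.g 6) (.pp [(1, 2100)]))) (.mul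
 (.g 15) (.pp [(1, 7800)]))))) (.mul (.g 4) (.mul (.g 6) (.mul (.g 6) (.pp [(1, 22500)]))))) (.add
 (.mul (.g 10) (.mul (.pp [(1, 9)]) (.sq [(2, -24), (3, 100), (5, 100), (7, -67)]))) (.mul (.g 15)
 (.pp [(1, 5264490000)]))))))) (.add (.mul (.g 0) (.pp [(1, 10000000000)])) (.add (.mul (.g 1) (.pp
 [(1, 6000000)])) (.mul (.g 14) (.pp [(1, 10000000000)]))))) (.pp [(2, 234026862), (4, 299700), (6,
 306900), (8, 309816), (10, 308100), (12, 301200), (14, 307953), (16, 294816), (18, 312600), (20,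
 301200), (24, 288384), (28, 294756), (30, 300000), (36, 316800), (40, 288384), (42, 256824), (50,
 307500), (54, 300000), (56, 301056), (60, 333600), (70, 272676), (84, 270744), (90, 270000), (98,
 318399), (100, 316800), (126, 328488), (140, 245544), (150, 270000), (196, 319599), (210, 339672),
 (250, 300000), (294, 286401), (350, 328488), (490, 281601), (686, 300000)])))))
 (.rule 4 (.leaf 30000 (.add (.add (.mul (.g 4) (.add (.add (.mul (.g 6) (.add (.add (.pp [(1,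
 9207000)]) (.add (.mul (.g 3) (.add (.add (.pp [(1, 165)]) (.mul (.g 4) (.pp [(1, 150)]))) (.add
 (.mul (.g 5) (.pp [(1, 150)])) (.add (.mul (.g 6) (.pp [(1, 150)])) (.mul (.g 7) (.pp [(1,
 150)])))))) (.mul (.g 1) (.add (.add (.pp [(1, 6000072)]) (.mul (.g 5) (.pp [(1, 60)]))) (.add
 (.mul (.g 6) (.pp [(1, 60)])) (.mul (.g 7) (.pp [(1, 60)]))))))) (.add (.mul (.g 6) (.mul (.g 14)
 (.pp [(1, 3000)]))) (.add (.mul (.g 7) (.pp [(1, 130186200)])) (.mul (.g 15) (.pp [(1,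
 6600)])))))) (.add (.mul (.g 7) (.add (.add (.mul (.g 7) (.add (.mul (.g 4) (.pp [(1,
 160794000)])) (.add (.mul (.g 7) (.pp [(1, 49737000)])) (.mul (.g 9) (.pp [(1, 3000)]))))) (.add
 (.mul (.g 1) (.add (.pp [(1, 2831796)]) (.mul (.g 5) (.pp [(1, 60)])))) (.mul (.g 3) (.add (.pp
 [(1, 6509340)]) (.mul (.g 5) (.pp [(1, 150)])))))) (.add (.mul (.g 4) (.mul (.g 4) (.pp [(1,
 49737000)]))) (.add (.mul (.g 11) (.pp [(1, 7079310)])) (.mul (.g 14) (.pp [(1, 271776000)]))))))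
 (.mul (.g 4) (.add (.pp [(1, 84302700)]) (.add (.mul (.g 3) (.add (.pp [(1, 1703940)]) (.add (.mul
 (.g 4) (.pp [(1, 145650)])) (.mul (.g 5) (.pp [(1, 150)]))))) (.mul (.g 1) (.pp [(1, 66)])))))))
 (.add (.mul (.g 1) (.add (.pp [(1, 72)]) (.mul (.g 5) (.add (.pp [(1, 72)]) (.mul (.g 5) (.pp [(1,
 60)])))))) (.add (.mul (.g 3) (.mul (.g 5) (.mul (.g 5) (.pp [(1, 150)])))) (.mul (.g 14) (.pp
 [(1, 51217200)])))))) (.add (.mul (.g 0) (.pp [(1, 100000000)])) (.mul (.g 13) (.pp [(1,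
 100000000)])))) (.pp [(2, 3772296), (4, 2898), (6, 3096), (8, 3150), (10, 2931), (12, 3150), (14,
 3078), (16, 3000), (18, 3030), (19, 300000000), (20, 3150), (24, 3000), (28, 3000), (30, 3030),
 (36, 3000), (40, 3000), (42, 3030), (50, 3030), (54, 3000), (56, 3000), (60, 3000), (70, 3030),
 (84, 3000), (90, 3000), (98, 3000), (100, 3000), (126, 3000), (140, 3000), (150, 3000), (196,
 3000), (210, 3000), (250, 3000), (294, 3000), (350, 3000), (490, 3000), (686, 3000)]))))))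
 (.split [(1, -69), (3, 100)]
 (.split [(2, 1), (3, -1)]
 (.split [(2, 1), (5, -1)]
 (.rule 0 (.rule 2 (.cut 1 [(1, 3), (3, -2)] (.add (.add (.mul (.g 3) (.pp [(1, 2)])) (.mul (.g 10)
 (.pp [(1, 3)]))) (.add (.mul (.g 8) (.pp [(1, 1)])) (.mul (.g 2) (.pp [(1, 1)])))) (.rule 8 (.leaf
 6000000000 (.add (.add (.add (.add (.mul (.g 11) (.add (.add (.add (.mul (.g 6) (.add (.add (.mul
 (.g 11) (.add (.add (.mul (.g 4) (.pp [(1, 94756800000)])) (.mul (.g 10) (.pp [(1,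
 200807400000)]))) (.add (.mul (.g 18) (.pp [(1, 3834600000)])) (.mul (.g 19) (.pp [(1,
 105418200000)]))))) (.mul (.g 7) (.add (.mul (.g 7) (.pp [(1, 214689000)])) (.mul (.g 10) (.pp
 [(1, 120300000)]))))) (.add (.mul (.g 6) (.mul (.g 9) (.pp [(1, 77904000)]))) (.mul (.g 10) (.mul
 (.g 10) (.pp [(1, 294417000000)])))))) (.mul (.g 10) (.add (.pp [(1, 7958580000000)]) (.add (.mul
 (.g 10) (.add (.mul (.g 5) (.pp [(1, 5955360000000)])) (.mul (.g 15) (.pp [(1, 998376000000)]))))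
 (.mul (.g 9) (.mul (.g 19) (.pp [(1, 14534820000000)]))))))) (.add (.mul (.g 11) (.add (.mul (.g
 14) (.add (.mul (.g 12) (.pp [(1, 8901240000000)])) (.mul (.g 19) (.pp [(1, 9888060000000)]))))
 (.add (.mul (.g 11) (.mul (.g 11) (.pp [(1, 1058160000000)]))) (.mul (.g 15) (.mul (.g 16) (.pp
 [(1, 156681000000)])))))) (.mul (.g 18) (.add (.pp [(1, 232680000000)]) (.add (.mul (.pp [(1,
 298728000)]) (.sq [(1, 100), (2, 45), (3, 85), (5, 85), (7, 69)])) (.mul (.g 18) (.pp [(1,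
 22078560000000)]))))))) (.add (.add (.mul (.g 16) (.add (.pp [(1, 2613660000000)]) (.mul (.pp [(1,
 411036000)]) (.sq [(2, 45), (3, -20), (5, 100), (7, -41)])))) (.mul (.g 5) (.pp [(1,
 12109260000000)]))) (.add (.mul (.g 8) (.pp [(1, 5881980000000)])) (.mul (.g 14) (.mul (.pp [(1,
 87606000)]) (.sq [(1, 100), (2, -46), (3, 7), (5, 13), (7, 89)]))))))) (.add (.mul (.g 18) (.add
 (.add (.mul (.g 10) (.add (.mul (.g 6) (.add (.mul (.g 5) (.pp [(1, 91225800000)])) (.add (.mul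
 (.g 7) (.pp [(1, 3365520000)])) (.mul (.g 10) (.pp [(1, 33400800000)]))))) (.add (.mul (.g 7)
 (.mul (.g 8) (.pp [(1, 715098000000)]))) (.mul (.g 10) (.mul (.g 15) (.pp [(1,
 242469000000)])))))) (.add (.mul (.g 5) (.add (.mul (.pp [(1, 343176000)]) (.sq [(1, 8), (2, -12),
 (3, 100), (5, -45), (7, 12)])) (.add (.mul (.g 7) (.mul (.g 15) (.pp [(1, 8205000000)]))) (.mul
 (.g 8) (.mul (.g 14) (.pp [(1, 580320000000)])))))) (.mul (.g 9) (.add (.pp [(1, 14507760000000)])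
 (.add (.mul (.g 7) (.mul (.g 8) (.pp [(1, 320097000000)]))) (.mul (.g 9) (.mul (.g 9) (.pp [(1,
 4651920000000)])))))))) (.add (.mul (.g 18) (.add (.mul (.pp [(1, 76002000)]) (.sq [(1, -100), (2,
 57), (3, 53), (5, 17), (7, 69)])) (.mul (.pp [(1, 13272000)]) (.sq [(1, 2), (2, -19), (3, 100),
 (5, -64), (7, -11)])))) (.add (.mul (.g 12) (.mul (.pp [(1, 1525032000)]) (.sq [(1, -54), (2, 46),
 (3, 37), (5, 28), (7, 100)]))) (.mul (.g 13) (.mul (.pp [(1, 330786000)]) (.sq [(1, -37), (2,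
 -86), (3, 10), (5, -3), (7, 100)]))))))) (.mul (.g 5) (.add (.add (.mul (.g 10) (.add (.mul (.pp
 [(1, 222258000)]) (.sq [(1, 12), (2, 100), (3, -29), (5, 100), (7, -92)])) (.add (.mul (.g 6)
 (.add (.mul (.g 9) (.pp [(1, 238504800000)])) (.mul (.g 16) (.pp [(1, 132045000000)])))) (.mul (.g
 9) (.mul (.g 10) (.pp [(1, 3669240000000)])))))) (.add (.mul (.g 5) (.add (.pp [(1,
 5454060000000)]) (.mul (.g 9) (.pp [(1, 25848960000000)])))) (.mul (.g 13) (.mul (.pp [(1,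
 175092000)]) (.sq [(1, 100), (2, -75), (3, 31), (5, 8), (7, -38)]))))) (.add (.mul (.g 15) (.mul
 (.pp [(1, 17741100)]) (.sq [(1, -100), (2, -92), (3, 62), (5, 33), (7, 17)]))) (.add (.mul (.g 16)
 (.pp [(1, 14986440000000)])) (.mul (.g 19) (.mul (.pp [(1, 1121532000)]) (.sq [(1, 2), (2, -10),
 (3, 100), (5, -41), (7, -5)]))))))))) (.add (.add (.mul (.g 4) (.add (.add (.mul (.g 4) (.add
 (.mul (.pp [(1, 6989184000)]) (.sq [(1, 25), (2, -19), (3, 8), (5, 16), (7, -9)])) (.add (.mul (.g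
 10) (.pp [(1, 5830080000000)])) (.mul (.g 14) (.pp [(1, 4299240000000)]))))) (.mul (.g 14) (.add
 (.mul (.pp [(1, 72492000)]) (.sq [(1, -100), (2, -83), (3, 26), (5, 52), (7, 17)])) (.mul (.g 8)
 (.pp [(1, 5564040000000)]))))) (.add (.mul (.g 10) (.pp [(1, 3007740000000)])) (.mul (.g 13) (.mul
 (.pp [(1, 131460000)]) (.sq [(1, 100), (2, -75), (3, 8), (5, 31), (7, -38)])))))) (.mul (.g 6)
 (.add (.mul (.g 9) (.add (.mul (.g 10) (.add (.mul (.g 15) (.pp [(1, 204060000)])) (.mul (.g 16)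
 (.pp [(1, 7588200000)])))) (.mul (.g 9) (.mul (.g 19) (.pp [(1, 14909400000)]))))) (.add (.mul (.g
 15) (.mul (.pp [(1, 48069)]) (.sq [(1, 22), (2, 1), (3, 74), (5, -63), (7, 100)]))) (.mul (.g 19)
 (.pp [(1, 109373400000)])))))) (.add (.mul (.g 13) (.add (.add (.mul (.g 12) (.mul (.pp [(1,
 234222000)]) (.sq [(1, -39), (2, 100), (3, 69), (5, -15), (7, -55)]))) (.mul (.g 13) (.mul (.pp
 [(1, 266466000)]) (.sq [(1, -10), (2, -55), (3, 31), (5, -21), (7, 100)])))) (.add (.mul (.g 16)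
 (.mul (.pp [(1, 3786000)]) (.sq [(1, -37), (2, 37), (3, 100), (5, 46), (7, -62)]))) (.mul (.g 19)
 (.mul (.pp [(1, 777030000)]) (.sq [(1, -14), (2, -51), (3, -18), (5, -58), (7, 100)])))))) (.mul
 (.g 16) (.add (.mul (.g 9) (.mul (.g 9) (.mul (.g 9) (.pp [(1, 1430700000000)])))) (.mul (.g 16)
 (.pp [(1, 200640000000)]))))))) (.add (.add (.mul (.g 0) (.pp [(1, 6000000000)])) (.add (.mul (.g
 2) (.pp [(1, 20000000000000)])) (.mul (.g 3) (.pp [(1, 20000000000000)])))) (.add (.add (.mul (.g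
 8) (.mul (.g 12) (.pp [(1, 4875840000000)]))) (.mul (.g 10) (.mul (.g 19) (.pp [(1,
 4506360000000)])))) (.add (.mul (.g 15) (.mul (.g 15) (.mul (.pp [(1, 451350)]) (.sq [(1, -17),
 (2, -34), (3, 100), (5, 42), (7, -36)])))) (.mul (.g 17) (.pp [(1, 20000000000000)])))))) (.pp
 [(1, 112819526934), (2, 591597564), (3, 608134536), (4, 661784871), (5, 529809708), (6,
 448152108), (7, 533703000), (8, 685790380), (9, 711920796), (10, 640994094), (12, 482133960), (14,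
 658799400), (15, 633517356), (16, 616482000), (18, 653125440), (20, 408130140), (21, 578452800),
 (24, 551796000), (25, 669491079), (27, 574946720), (28, 685192800), (30, 774873120), (35,
 746821800), (36, 616422000), (40, 571986000), (42, 535544400), (45, 445392240), (49, 591800400),
 (50, 643069200), (54, 637194000), (56, 616296000), (60, 615570000), (63, 582610800), (70,
 449827800), (75, 625346700), (81, 586842000), (84, 550872000), (90, 614436000), (98, 464909100),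
 (100, 629268000), (105, 585160200), (125, 543866180), (126, 639018000), (135, 595062000), (140,
 621276000), (147, 697248900), (150, 601464000), (175, 471018000), (189, 547434000), (196,
 586758000), (210, 528276000), (225, 655614000), (245, 686562000), (250, 595374000), (294,
 650514000), (315, 700686000), (343, 597912000), (350, 657324000), (375, 557214000), (441,
 605232000), (490, 653640000), (525, 628908000), (625, 617454000), (686, 605922000), (735,
 517362000), (875, 646632000), (1029, 606258000), (1225, 645300000), (1715, 645786000), (2401,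
 632574000)])))))))
 (.rule 0 (.rule 3 (.cut 31 [(1, 3), (3, -2)] (.add (.mul (.g 3) (.pp [(1, 162)])) (.add (.mul (.g
 10) (.pp [(1, 162)])) (.mul (.g 4) (.pp [(1, 1)])))) (.rule 8 (.leaf 6000000000 (.add (.add (.add
 (.add (.mul (.g 11) (.add (.add (.add (.mul (.g 11) (.add (.add (.mul (.g 11) (.add (.add (.pp
 [(1, 5331240000000)]) (.mul (.g 5) (.pp [(1, 674700000000)]))) (.add (.mul (.g 9) (.pp [(1,
 934680000000)])) (.mul (.g 14) (.pp [(1, 2449260000000)]))))) (.add (.mul (.g 5) (.add (.mul (.g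
 7) (.pp [(1, 391065000000)])) (.mul (.g 10) (.pp [(1, 1067520000000)])))) (.mul (.g 12) (.add
 (.mul (.g 12) (.pp [(1, 18057660000000)])) (.mul (.g 18) (.pp [(1, 8482740000000)])))))) (.add
 (.mul (.g 4) (.mul (.g 4) (.pp [(1, 11175960000000)]))) (.add (.mul (.g 8) (.mul (.g 9) (.pp [(1,
 9809880000000)]))) (.mul (.g 10) (.mul (.g 19) (.pp [(1, 5807220000000)]))))))) (.mul (.g 8) (.add
 (.mul (.g 4) (.mul (.g 13) (.pp [(1, 6748380000000)]))) (.add (.mul (.g 12) (.mul (.g 12) (.pp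
 [(1, 18722760000000)]))) (.mul (.g 15) (.mul (.g 19) (.pp [(1, 128490000000)]))))))) (.add (.mul
 (.g 10) (.add (.pp [(1, 8828700000000)]) (.add (.mul (.g 9) (.mul (.g 9) (.pp [(1,
 26553480000000)]))) (.mul (.g 14) (.mul (.g 16) (.pp [(1, 997440000000)])))))) (.add (.mul (.g 18)
 (.add (.pp [(1, 22998000000000)]) (.add (.mul (.pp [(1, 256464000)]) (.sq [(1, -42), (2, -27), (3,
 1), (5, 100), (7, 65)])) (.mul (.pp [(1, 100608000)]) (.sq [(1, 100), (2, 45), (3, 85), (5, 85),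
 (7, 69)]))))) (.mul (.g 6) (.add (.pp [(1, 51901200000)]) (.mul (.g 7) (.mul (.g 7) (.pp [(1,
 43539000)])))))))) (.add (.add (.mul (.g 4) (.pp [(1, 3837600000000)])) (.mul (.g 5) (.pp [(1,
 21840600000000)]))) (.add (.mul (.g 9) (.mul (.g 9) (.mul (.g 19) (.pp [(1, 7178880000000)]))))
 (.add (.mul (.g 13) (.mul (.pp [(1, 489090000)]) (.sq [(1, -41), (2, -23), (3, -5), (5, 100), (7,
 66)]))) (.mul (.g 15) (.mul (.pp [(1, 499800)]) (.sq [(1, -12), (2, -37), (3, 41), (5, -100), (7,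
 -59)])))))))) (.mul (.g 19) (.add (.add (.mul (.g 4) (.add (.add (.mul (.pp [(1, 3060000)]) (.sq
 [(1, -24), (2, -51), (3, -18), (5, 100), (7, -37)])) (.mul (.g 10) (.add (.add (.pp [(1,
 5831520000000)]) (.mul (.g 8) (.pp [(1, 13720800000000)]))) (.add (.mul (.g 14) (.pp [(1,
 1300920000000)])) (.mul (.g 19) (.pp [(1, 9074280000000)])))))) (.add (.mul (.g 4) (.add (.mul (.g
 4) (.pp [(1, 4360260000000)])) (.add (.mul (.g 13) (.pp [(1, 6447420000000)])) (.mul (.g 18) (.pp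
 [(1, 5176800000000)]))))) (.mul (.g 13) (.mul (.g 19) (.pp [(1, 12953280000000)])))))) (.add (.mul
 (.g 19) (.add (.mul (.pp [(1, 191598000)]) (.sq [(1, -83), (2, 100), (3, 100), (5, 100), (7,
 100)])) (.add (.mul (.g 8) (.add (.mul (.g 10) (.pp [(1, 9037740000000)])) (.mul (.g 19) (.pp [(1,
 3040560000000)])))) (.mul (.g 5) (.mul (.g 19) (.pp [(1, 2537100000000)])))))) (.mul (.g 18) (.add
 (.pp [(1, 15561840000000)]) (.mul (.g 10) (.mul (.g 12) (.pp [(1, 7466940000000)]))))))) (.add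
 (.mul (.g 5) (.pp [(1, 13071480000000)])) (.add (.mul (.g 6) (.pp [(1, 301693200000)])) (.mul (.g
 9) (.mul (.g 9) (.mul (.g 9) (.pp [(1, 6682200000000)]))))))))) (.add (.mul (.g 5) (.add (.add
 (.mul (.g 5) (.add (.add (.pp [(1, 18116220000000)]) (.mul (.pp [(1, 282864000)]) (.sq [(2, 35),
 (3, -13), (5, 42), (7, -50)]))) (.add (.mul (.g 16) (.add (.mul (.g 6) (.pp [(1, 904200000)]))
 (.mul (.g 15) (.pp [(1, 32322000000)])))) (.mul (.g 14) (.pp [(1, 3583740000000)]))))) (.mul (.g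
 9) (.add (.mul (.g 7) (.pp [(1, 1095138000000)])) (.mul (.g 13) (.pp [(1, 7337520000000)])))))
 (.add (.mul (.g 13) (.mul (.pp [(1, 351018000)]) (.sq [(1, 100), (2, -68), (3, 42), (7, -57)])))
 (.add (.mul (.g 15) (.mul (.pp [(1, 8930100)]) (.sq [(1, 29), (2, -69), (3, -14), (5, -79), (7,
 -100)]))) (.mul (.g 16) (.pp [(1, 2395440000000)])))))) (.add (.mul (.g 4) (.add (.mul (.g 10)
 (.add (.mul (.g 7) (.add (.mul (.g 12) (.pp [(1, 155064000000)])) (.mul (.g 16) (.pp [(1,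
 165621000000)])))) (.mul (.g 4) (.mul (.g 18) (.pp [(1, 5048280000000)]))))) (.add (.mul (.g 6)
 (.mul (.pp [(1, 466560)]) (.sq [(1, 41), (2, -25), (3, -87), (5, 10), (7, 100)]))) (.mul (.g 13)
 (.mul (.pp [(1, 676128000)]) (.sq [(1, 45), (2, 50), (3, -45), (7, -16)])))))) (.mul (.g 6) (.add
 (.mul (.g 6) (.add (.pp [(1, 105336000)]) (.mul (.pp [(1, 171)]) (.sq [(1, 1), (3, 12), (5, 100),
 (7, -99)])))) (.mul (.g 10) (.add (.mul (.pp [(1, 8992140)]) (.sq [(1, 24), (2, 12), (3, -80), (5,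
 19), (7, 100)])) (.mul (.g 9) (.mul (.g 9) (.pp [(1, 11116800000)])))))))))) (.add (.add (.mul (.g
 13) (.add (.mul (.g 18) (.add (.mul (.pp [(1, 69822000)]) (.sq [(1, 100), (2, -56), (3, -79), (5,
 -87), (7, -48)])) (.mul (.pp [(1, 16542000)]) (.sq [(1, 26), (2, 100), (3, 3), (5, 14), (7,
 -62)])))) (.add (.mul (.g 15) (.mul (.pp [(1, 4778100)]) (.sq [(1, 43), (2, 11), (3, -31), (5,
 61), (7, 100)]))) (.mul (.g 16) (.mul (.pp [(1, 78354000)]) (.sq [(1, -95), (2, 87), (3, 50), (5,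
 100), (7, 100)])))))) (.add (.mul (.g 18) (.add (.mul (.g 7) (.mul (.pp [(1, 19537200)]) (.sq [(1,
 96), (2, 72), (3, 100), (5, 76), (7, 39)]))) (.mul (.g 18) (.mul (.pp [(1, 156198000)]) (.sq [(1,
 89), (2, 54), (3, 12), (5, 76), (7, 100)]))))) (.mul (.g 0) (.pp [(1, 6000000000)])))) (.add (.mul
 (.g 2) (.pp [(1, 20000000000000)])) (.add (.mul (.g 3) (.pp [(1, 20000000000000)])) (.mul (.g 17)
 (.pp [(1, 20000000000000)])))))) (.pp [(1, 31342265169), (2, 574653360), (3, 719714256), (4,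
 472239300), (5, 804828300), (6, 637478160), (7, 699918138), (8, 480769800), (9, 486701436), (10,
 671751360), (12, 744889200), (14, 606270000), (15, 184711440), (16, 591492000), (18, 477700140),
 (20, 807818940), (21, 555952056), (24, 649278000), (25, 408379020), (27, 669821900), (28,
 548625000), (30, 573099600), (35, 476705400), (36, 546300000), (40, 679782000), (42, 724093200),
 (45, 807664260), (49, 605794869), (50, 546926160), (54, 649488000), (56, 646266000), (60,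
 488376000), (63, 646571400), (70, 628608000), (75, 898830000), (81, 570066000), (84, 635562000),
 (90, 639024000), (98, 520620000), (100, 526182000), (105, 829980000), (125, 757547160), (126,
 546090000), (135, 593388000), (140, 508590000), (147, 669118200), (150, 615180000), (175,
 744313200), (189, 591138000), (196, 591726000), (210, 643080000), (225, 560334000), (245,
 673921200), (250, 630660000), (294, 612060000), (315, 546774000), (343, 600921000), (350,
 659790000), (375, 501306000), (441, 564384000), (490, 622038000), (525, 424590000), (625,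
 521604000), (686, 567636000), (735, 392550000), (875, 434922000), (1029, 579588000), (1225,
 417132000), (1715, 511956000), (2401, 575088000)]))))))))
 (.split [(2, 1), (5, -1)]
 (.rule 1 (.rule 2 (.cut 1 [(1, 3), (3, -2)] (.add (.add (.mul (.g 11) (.pp [(1, 1)])) (.mul (.g
 14) (.pp [(1, 1)]))) (.add (.mul (.g 8) (.pp [(1, 1)])) (.mul (.g 10) (.pp [(1, 1)])))) (.rule 8
 (.leaf 60000000 (.add (.add (.add (.add (.mul (.g 11) (.add (.add (.add (.mul (.g 10) (.add (.add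
 (.pp [(1, 6318600000)]) (.mul (.g 11) (.add (.mul (.g 6) (.pp [(1, 2401044000)])) (.add (.mul (.g
 13) (.pp [(1, 112227600000)])) (.mul (.g 19) (.pp [(1, 12780000000)])))))) (.add (.mul (.g 9)
 (.add (.pp [(1, 3847800000)]) (.mul (.g 18) (.pp [(1, 55256400000)])))) (.add (.mul (.g 10) (.add
 (.pp [(1, 73670400000)]) (.mul (.g 12) (.pp [(1, 148681200000)])))) (.mul (.g 6) (.mul (.g 12)
 (.pp [(1, 783204000)]))))))) (.mul (.g 12) (.add (.add (.mul (.g 8) (.add (.mul (.g 12) (.pp [(1,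
 21865200000)])) (.mul (.g 18) (.pp [(1, 100794000000)])))) (.mul (.g 6) (.mul (.g 9) (.pp [(1,
 133050000)])))) (.add (.mul (.g 7) (.mul (.g 18) (.pp [(1, 4086540000)]))) (.mul (.g 11) (.mul (.g
 15) (.pp [(1, 5652120000)]))))))) (.add (.mul (.g 4) (.add (.mul (.pp [(1, 9386940)]) (.sq [(1,
 -100), (3, 59), (5, -9), (7, 93)])) (.add (.mul (.g 5) (.mul (.g 16) (.pp [(1, 12018600000)])))
 (.mul (.g 7) (.mul (.g 11) (.pp [(1, 670770000)])))))) (.mul (.g 15) (.add (.mul (.pp [(1,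
 18639)]) (.sq [(1, 38), (2, -3), (3, -18), (5, -78), (7, 100)])) (.add (.mul (.pp [(1, 83883)])
 (.sq [(1, 23), (2, 29), (3, 100), (5, 23), (7, 4)])) (.mul (.g 8) (.pp [(1, 11846730000)])))))))
 (.add (.add (.mul (.g 18) (.add (.pp [(1, 38321400000)]) (.add (.mul (.pp [(1, 1786980)]) (.sq
 [(1, -22), (2, -16), (3, 24), (5, -87), (7, 100)])) (.mul (.g 6) (.mul (.g 14) (.pp [(1,
 27948000)])))))) (.mul (.g 11) (.mul (.g 11) (.add (.pp [(1, 55852800000)]) (.mul (.g 16) (.pp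
 [(1, 9304800000)])))))) (.add (.mul (.g 6) (.mul (.pp [(1, 1023)]) (.sq [(1, -39), (2, -5), (3,
 13), (5, -99), (7, 100)]))) (.mul (.g 7) (.mul (.g 14) (.mul (.g 16) (.pp [(1, 218490000)]))))))))
 (.add (.mul (.g 10) (.add (.add (.mul (.g 16) (.add (.add (.pp [(1, 45824400000)]) (.mul (.g 4)
 (.mul (.g 12) (.pp [(1, 54250800000)])))) (.add (.mul (.g 5) (.mul (.g 5) (.pp [(1,
 10485000000)]))) (.add (.mul (.g 8) (.mul (.g 8) (.pp [(1, 56331000000)]))) (.mul (.g 10) (.mul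
 (.g 10) (.pp [(1, 57893400000)]))))))) (.add (.mul (.g 5) (.add (.mul (.g 5) (.pp [(1,
 22170000000)])) (.add (.mul (.g 6) (.mul (.g 9) (.pp [(1, 244596000)]))) (.mul (.g 12) (.mul (.g
 14) (.pp [(1, 169200000)])))))) (.mul (.g 10) (.add (.mul (.g 10) (.add (.mul (.g 18) (.pp [(1,
 22839000000)])) (.mul (.g 19) (.pp [(1, 2463000000)])))) (.mul (.g 8) (.mul (.g 8) (.pp [(1,
 5229000000)]))))))) (.add (.mul (.g 13) (.add (.mul (.g 4) (.pp [(1, 34824000000)])) (.mul (.g 8)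
 (.pp [(1, 34554600000)])))) (.add (.mul (.g 18) (.add (.mul (.pp [(1, 367560)]) (.sq [(1, 81), (2,
 -29), (3, 100), (5, -86), (7, -31)])) (.mul (.g 7) (.mul (.g 7) (.pp [(1, 24268500)]))))) (.mul
 (.g 9) (.mul (.g 19) (.mul (.g 19) (.pp [(1, 43973400000)])))))))) (.mul (.g 4) (.add (.add (.mul
 (.g 8) (.add (.add (.pp [(1, 139923600000)]) (.mul (.g 14) (.add (.pp [(1, 16147200000)]) (.mul
 (.g 18) (.pp [(1, 52166400000)]))))) (.add (.mul (.g 5) (.mul (.g 8) (.pp [(1, 7359600000)])))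
 (.mul (.g 9) (.mul (.g 16) (.pp [(1, 7003200000)])))))) (.mul (.g 4) (.add (.mul (.pp [(1,
 2468880)]) (.sq [(1, 100), (2, -81), (5, 67), (7, -41)])) (.mul (.g 14) (.pp [(1,
 87091200000)]))))) (.add (.mul (.g 7) (.add (.pp [(1, 5055330000)]) (.mul (.g 7) (.mul (.g 12)
 (.pp [(1, 52257000)]))))) (.add (.mul (.g 13) (.mul (.pp [(1, 1349100)]) (.sq [(1, 100), (2, -68),
 (5, 42), (7, -57)]))) (.mul (.g 18) (.pp [(1, 16831200000)])))))))) (.add (.mul (.g 18) (.add
 (.add (.mul (.pp [(1, 17510880)]) (.sq [(2, 39), (3, 50), (5, 39), (7, 50)])) (.mul (.g 9) (.add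
 (.mul (.g 8) (.mul (.g 12) (.pp [(1, 51761400000)]))) (.mul (.g 16) (.mul (.g 16) (.pp [(1,
 16920600000)])))))) (.add (.mul (.g 18) (.add (.mul (.pp [(1, 1356480)]) (.sq [(1, 22), (2, 30),
 (3, 20), (5, 100), (7, 97)])) (.mul (.pp [(1, 1071420)]) (.sq [(1, -100), (2, 57), (3, 53), (5,
 17), (7, 69)])))) (.add (.mul (.g 5) (.pp [(1, 90253800000)])) (.mul (.g 6) (.pp [(1,
 46068000)])))))) (.add (.mul (.g 16) (.add (.add (.mul (.g 5) (.add (.mul (.g 5) (.mul (.g 8) (.pp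
 [(1, 2087400000)]))) (.mul (.g 9) (.mul (.g 9) (.pp [(1, 6000000)]))))) (.mul (.g 7) (.pp [(1,
 2239860000)]))) (.add (.mul (.g 9) (.mul (.g 9) (.pp [(1, 11917800000)]))) (.mul (.g 12) (.mul
 (.pp [(1, 207540)]) (.sq [(1, -81), (2, 68), (3, 100), (5, 68), (7, 100)])))))) (.mul (.g 5) (.add
 (.mul (.g 6) (.pp [(1, 1735026000)])) (.mul (.g 7) (.mul (.g 12) (.pp [(1, 5731740000)]))))))))
 (.add (.add (.mul (.g 0) (.pp [(1, 60000000)])) (.add (.mul (.g 2) (.pp [(1, 200000000000)]))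
 (.mul (.g 3) (.pp [(1, 200000000000)])))) (.add (.mul (.g 6) (.mul (.g 12) (.pp [(1,
 284388000)]))) (.add (.mul (.g 13) (.mul (.g 19) (.mul (.pp [(1, 293940)]) (.sq [(1, -56), (2,
 55), (3, -100), (5, 48), (7, 74)])))) (.mul (.g 17) (.pp [(1, 200000000000)])))))) (.pp [(1,
 1307121900), (2, 6606540), (3, 5509380), (4, 6489240), (5, 6067740), (6, 5851380), (7, 6446634),
 (8, 5394060), (9, 6569220), (10, 5024880), (12, 6218100), (14, 5598540), (15, 6236040), (16,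
 5839920), (18, 5952000), (20, 7188600), (21, 6507534), (24, 6373440), (25, 5916960), (27,
 6000000), (28, 5927421), (30, 6427440), (35, 5233332), (36, 5856000), (40, 5971380), (42,
 5296278), (45, 5137560), (49, 5408148), (50, 5080080), (54, 6000000), (56, 6142920), (60,
 5263980), (63, 5528847), (70, 7016616), (75, 6031440), (81, 6000000), (84, 6142860), (90,
 5796000), (98, 6655164), (100, 6336840), (105, 6649590), (125, 6402920), (126, 6653340), (135,
 6600000), (140, 5663520), (147, 6117480), (150, 6175800), (175, 7687134), (189, 5930580), (196,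
 5127240), (210, 6026280), (225, 5813220), (245, 6024588), (250, 5444040), (294, 6320940), (315,
 4866300), (343, 6988392), (350, 5520240), (375, 6123000), (441, 5789700), (490, 5342280), (525,
 5724120), (625, 6180900), (686, 6159180), (735, 6504900), (875, 5045460), (1029, 5153160), (1225,
 5649120), (1715, 5009460), (2401, 5649060)])))))))
 (.rule 1 (.rule 3 (.cut 1 [(1, 3), (3, -2)] (.add (.add (.mul (.g 6) (.pp [(1, 1)])) (.mul (.g 11)
 (.pp [(1, 2)]))) (.add (.mul (.g 2) (.pp [(1, 2)])) (.mul (.g 10) (.pp [(1, 1)])))) (.rule 8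
 (.leaf 15000000000 (.add (.add (.add (.add (.mul (.g 11) (.add (.add (.add (.mul (.g 11) (.add
 (.add (.mul (.g 11) (.add (.mul (.g 7) (.pp [(1, 727860000000)])) (.add (.mul (.g 16) (.pp [(1,
 1500000000)])) (.mul (.g 18) (.pp [(1, 1500000000)]))))) (.add (.mul (.g 4) (.add (.mul (.g 5)
 (.pp [(1, 10315800000000)])) (.mul (.g 14) (.pp [(1, 592800000000)])))) (.mul (.g 12) (.add (.mul
 (.g 12) (.pp [(1, 7897200000000)])) (.mul (.g 18) (.pp [(1, 10311300000000)])))))) (.add (.add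
 (.mul (.g 5) (.mul (.g 5) (.pp [(1, 6218550000000)]))) (.mul (.g 6) (.mul (.g 8) (.pp [(1,
 118755000000)])))) (.add (.mul (.g 7) (.mul (.g 7) (.pp [(1, 107502375000)]))) (.mul (.g 9) (.mul
 (.g 13) (.pp [(1, 10222950000000)]))))))) (.mul (.g 8) (.add (.add (.mul (.g 8) (.add (.mul (.g 6)
 (.pp [(1, 336948000000)])) (.add (.mul (.g 7) (.pp [(1, 105735000000)])) (.mul (.g 15) (.pp [(1,
 3570562500000)]))))) (.mul (.g 12) (.add (.mul (.g 14) (.pp [(1, 36861450000000)])) (.add (.mul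
 (.g 15) (.pp [(1, 2327437500000)])) (.mul (.g 18) (.pp [(1, 12365700000000)])))))) (.add (.mul (.g
 9) (.add (.mul (.g 5) (.pp [(1, 14489250000000)])) (.mul (.g 10) (.pp [(1, 8061900000000)]))))
 (.mul (.g 18) (.pp [(1, 83191350000000)])))))) (.add (.mul (.g 9) (.add (.mul (.g 16) (.add (.mul
 (.g 13) (.pp [(1, 2916300000000)])) (.mul (.g 16) (.pp [(1, 719400000000)])))) (.mul (.g 18) (.pp
 [(1, 3462450000000)])))) (.mul (.g 6) (.add (.pp [(1, 137053500000)]) (.mul (.g 12) (.mul (.g 14)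
 (.pp [(1, 66799500000)]))))))) (.add (.add (.mul (.g 10) (.add (.mul (.g 10) (.pp [(1,
 1855650000000)])) (.mul (.g 18) (.pp [(1, 11727000000000)])))) (.mul (.g 4) (.pp [(1,
 14177700000000)]))) (.add (.mul (.g 7) (.mul (.g 12) (.mul (.g 12) (.pp [(1, 529980000000)]))))
 (.mul (.g 18) (.mul (.g 18) (.pp [(1, 11034600000000)]))))))) (.add (.mul (.g 5) (.add (.add (.mul
 (.g 5) (.add (.pp [(1, 20250900000000)]) (.add (.mul (.g 8) (.mul (.g 9) (.pp [(1,
 3209550000000)]))) (.mul (.g 10) (.pp [(1, 4332450000000)]))))) (.mul (.g 12) (.add (.mul (.pp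
 [(1, 69585000)]) (.sq [(1, 26), (2, -52), (3, 100), (5, 45), (7, -93)])) (.mul (.g 9) (.mul (.g
 10) (.pp [(1, 9507600000000)])))))) (.add (.mul (.g 18) (.add (.pp [(1, 19926300000000)]) (.mul
 (.g 8) (.pp [(1, 25637400000000)])))) (.add (.mul (.g 4) (.pp [(1, 4576650000000)])) (.mul (.g 6)
 (.pp [(1, 280632000000)])))))) (.mul (.g 13) (.add (.add (.add (.mul (.pp [(1, 202260000)]) (.sq
 [(2, 50), (3, 29), (5, 29), (7, 29)])) (.mul (.g 8) (.add (.pp [(1, 29867700000000)]) (.mul (.g 8)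
 (.pp [(1, 24412650000000)]))))) (.add (.mul (.g 6) (.mul (.pp [(1, 4120800)]) (.sq [(1, -4), (2,
 100), (3, 79), (5, 1)]))) (.mul (.g 10) (.mul (.g 19) (.mul (.g 19) (.pp [(1, 234600000000)]))))))
 (.add (.add (.mul (.g 13) (.mul (.pp [(1, 48765000)]) (.sq [(1, 58), (2, -19), (3, -48), (5, 100),
 (7, -75)]))) (.mul (.g 14) (.mul (.pp [(1, 218010000)]) (.sq [(1, 33), (2, 100), (3, -14), (5,
 13), (7, 24)])))) (.add (.mul (.g 15) (.mul (.pp [(1, 4362750)]) (.sq [(1, 85), (2, -9), (3,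
 -100), (5, -33), (7, 94)]))) (.mul (.g 16) (.mul (.pp [(1, 55725000)]) (.sq [(1, 48), (2, 5), (3,
 -95), (5, 98), (7, -100)]))))))))) (.add (.mul (.g 19) (.add (.mul (.g 10) (.mul (.g 10) (.add
 (.add (.mul (.g 4) (.pp [(1, 1110000000000)])) (.mul (.g 14) (.pp [(1, 64200000000)]))) (.add
 (.mul (.g 18) (.pp [(1, 498900000000)])) (.mul (.g 19) (.pp [(1, 174750000000)])))))) (.add (.mul
 (.g 8) (.add (.mul (.g 8) (.mul (.g 8) (.pp [(1, 1334100000000)]))) (.add (.mul (.g 12) (.mul (.g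
 15) (.pp [(1, 108645000000)]))) (.mul (.g 18) (.pp [(1, 4742100000000)]))))) (.mul (.g 6) (.pp
 [(1, 21904500000)]))))) (.add (.mul (.g 12) (.add (.mul (.g 16) (.add (.add (.mul (.pp [(1,
 116040000)]) (.sq [(1, -82), (2, 69), (3, 100), (5, 100), (7, 100)])) (.mul (.g 4) (.mul (.g 9)
 (.pp [(1, 7648050000000)])))) (.add (.mul (.g 6) (.mul (.g 16) (.pp [(1, 33105000000)]))) (.mul
 (.g 7) (.mul (.g 15) (.pp [(1, 30607125000)])))))) (.add (.mul (.g 6) (.pp [(1, 9466500000)]))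
 (.mul (.g 10) (.mul (.g 12) (.mul (.g 18) (.pp [(1, 805350000000)]))))))) (.mul (.g 9) (.add (.mul
 (.g 18) (.add (.mul (.g 7) (.pp [(1, 3396112500000)])) (.add (.mul (.g 8) (.mul (.g 8) (.pp [(1,
 17325600000000)]))) (.mul (.g 9) (.pp [(1, 1967550000000)]))))) (.mul (.g 6) (.mul (.g 7) (.pp
 [(1, 1412400000)])))))))) (.add (.add (.mul (.g 0) (.pp [(1, 15000000000)])) (.add (.mul (.g 2)
 (.pp [(1, 50000000000000)])) (.mul (.g 3) (.pp [(1, 50000000000000)])))) (.add (.add (.mul (.g 4)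
 (.mul (.g 4) (.mul (.pp [(1, 86280000)]) (.sq [(1, -22), (2, 78), (3, 29), (5, 100), (7, 18)]))))
 (.mul (.g 6) (.mul (.g 6) (.mul (.pp [(1, 40677)]) (.sq [(1, 63), (2, -29), (3, -84), (5, -84),
 (7, 100)]))))) (.add (.mul (.g 10) (.mul (.g 10) (.mul (.g 14) (.mul (.g 18) (.pp [(1,
 484800000000)]))))) (.mul (.g 17) (.pp [(1, 50000000000000)])))))) (.pp [(1, 100279008057), (2,
 1686966288), (3, 1196998098), (4, 1603053573), (5, 1498420998), (6, 1103189916), (7, 1637422800),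
 (8, 1687634750), (9, 1924953168), (10, 1191094116), (12, 1217486850), (14, 1326720600), (15,
 1753902636), (16, 1478130000), (18, 2079185400), (20, 1413216750), (21, 1162464600), (24,
 1494465000), (25, 1354554018), (27, 1053092400), (28, 1847763000), (30, 2200767300), (35,
 1057935600), (36, 1484685000), (40, 1380330000), (42, 1160337000), (45, 868511400), (49,
 1455201000), (50, 1575636450), (54, 1378995000), (56, 1281930000), (60, 1320135000), (63,
 2142900000), (70, 1235358000), (75, 1323436050), (81, 1629435000), (84, 1534500000), (90,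
 1390860000), (98, 1726026000), (100, 1601790000), (105, 2255199000), (125, 1685557050), (126,
 1526730000), (135, 1765215000), (140, 1485570000), (147, 1189974000), (150, 1440315000), (175,
 1833609000), (189, 1256280000), (196, 1460430000), (210, 1798770000), (225, 1689225000), (245,
 1554639000), (250, 1565700000), (294, 1429035000), (315, 1044780000), (343, 1560000000), (350,
 1607610000), (375, 1505310000), (441, 1705815000), (490, 1497810000), (525, 1295400000), (625,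
 1364385000), (686, 1500000000), (735, 1611630000), (875, 1475220000), (1029, 1500000000), (1225,
 1501095000), (1715, 1500000000), (2401, 1500000000)])))))))))
 (.split [(1, -7), (3, 50)]
 (.split [(2, 1), (3, -1)]
 (.split [(2, 1), (5, -1)]
 (.rule 0 (.rule 2 (.rule 7 (.leaf 1200000000 (.add (.add (.add (.add (.mul (.g 11) (.add (.add
 (.add (.mul (.g 11) (.add (.add (.mul (.g 10) (.add (.add (.pp [(1, 1242936000000)]) (.mul (.g 4)
 (.pp [(1, 4337256000000)]))) (.add (.mul (.g 9) (.pp [(1, 770112000000)])) (.mul (.g 14) (.pp [(1,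
 1042908000000)]))))) (.mul (.g 6) (.add (.mul (.g 3) (.pp [(1, 1643520000)])) (.add (.mul (.g 11)
 (.pp [(1, 5241960000)])) (.mul (.g 19) (.pp [(1, 54792840000)])))))) (.add (.mul (.g 15) (.add
 (.pp [(1, 304981200000)]) (.mul (.g 14) (.pp [(1, 122737800000)])))) (.mul (.g 3) (.mul (.g 12)
 (.pp [(1, 3260472000000)])))))) (.mul (.g 18) (.add (.add (.pp [(1, 955272000000)]) (.add (.mul
 (.pp [(1, 30006000)]) (.sq [(1, 100), (2, 45), (3, 85), (5, 85), (7, 69)])) (.mul (.g 10) (.add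
 (.pp [(1, 6272184000000)]) (.mul (.g 6) (.pp [(1, 6399240000)])))))) (.add (.mul (.g 18) (.add
 (.pp [(1, 371880000000)]) (.mul (.g 19) (.pp [(1, 29424000000)])))) (.add (.mul (.g 3) (.mul (.g
 12) (.pp [(1, 3725664000000)]))) (.mul (.g 5) (.mul (.g 14) (.pp [(1, 28431840000)])))))))) (.add
 (.mul (.g 3) (.add (.pp [(1, 5193936000000)]) (.mul (.pp [(1, 404409600)]) (.sq [(1, -90), (2,
 17), (3, 69), (5, -11), (7, 100)])))) (.mul (.g 10) (.add (.mul (.pp [(1, 182842800)]) (.sq [(1,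
 85), (2, -13), (3, -71), (5, 33), (7, -100)])) (.mul (.g 6) (.mul (.g 10) (.pp [(1,
 27331080000)]))))))) (.add (.add (.mul (.g 15) (.add (.pp [(1, 238516200000)]) (.mul (.pp [(1,
 4882380)]) (.sq [(1, 12), (2, -29), (3, -27), (5, -100), (7, 78)])))) (.mul (.g 4) (.pp [(1,
 3505584000000)]))) (.add (.mul (.g 12) (.mul (.g 16) (.mul (.g 16) (.pp [(1, 1782456000000)]))))
 (.mul (.g 14) (.mul (.pp [(1, 101883600)]) (.sq [(1, -2), (2, -24), (3, -49), (5, -100), (7,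
 67)]))))))) (.add (.mul (.g 18) (.add (.add (.add (.mul (.pp [(1, 78796800)]) (.sq [(2, 39), (3,
 50), (5, 39), (7, 50)])) (.mul (.g 7) (.add (.mul (.pp [(1, 164760)]) (.sq [(1, 78), (2, 77), (3,
 98), (5, 100), (7, 35)])) (.mul (.g 8) (.mul (.g 10) (.pp [(1, 167068200000)])))))) (.add (.mul
 (.g 9) (.add (.mul (.g 5) (.mul (.g 6) (.pp [(1, 393475200)]))) (.mul (.g 9) (.mul (.g 9) (.pp
 [(1, 2304456000000)]))))) (.add (.mul (.g 18) (.add (.mul (.pp [(1, 97664400)]) (.sq [(1, 77), (2,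
 100), (3, -9), (5, 51), (7, 23)])) (.mul (.pp [(1, 9106800)]) (.sq [(1, 44), (2, -41), (3, -75),
 (5, -99), (7, 100)])))) (.mul (.g 3) (.mul (.pp [(1, 486033600)]) (.sq [(1, -26), (2, 7), (3, 30),
 (5, -25), (7, 50)])))))) (.add (.add (.mul (.g 4) (.mul (.g 8) (.mul (.g 15) (.pp [(1,
 10487400000)])))) (.mul (.g 10) (.mul (.g 10) (.mul (.g 10) (.pp [(1, 1101972000000)]))))) (.add
 (.mul (.g 12) (.mul (.pp [(1, 6948000)]) (.sq [(1, -32), (2, 100), (3, -42), (5, 72), (7, 65)])))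
 (.add (.mul (.g 13) (.mul (.pp [(1, 2251200)]) (.sq [(1, -40), (2, -31), (3, 100), (5, 31), (7,
 27)]))) (.mul (.g 19) (.mul (.pp [(1, 536544000)]) (.sq [(1, 13), (2, -16), (3, -23), (5, -25),
 (7, 16)])))))))) (.mul (.g 4) (.add (.add (.mul (.g 4) (.add (.add (.mul (.pp [(1, 47121600)])
 (.sq [(1, 27), (2, 14), (3, 37), (5, 50), (7, 23)])) (.mul (.pp [(1, 1189075200)]) (.sq [(1, 25),
 (2, -19), (3, 16), (5, 8), (7, -9)]))) (.add (.mul (.g 14) (.pp [(1, 1140408000000)])) (.mul (.g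
 15) (.pp [(1, 9807600000)]))))) (.mul (.g 6) (.pp [(1, 39610200000)]))) (.add (.mul (.g 7) (.mul
 (.g 7) (.pp [(1, 1702110000)]))) (.add (.mul (.g 10) (.mul (.pp [(1, 30142800)]) (.sq [(1, -45),
 (2, -19), (3, 20), (5, -52), (7, 100)]))) (.mul (.g 13) (.mul (.pp [(1, 145200)]) (.sq [(1, -21),
 (2, -51), (3, 72), (5, -24), (7, 100)]))))))))) (.add (.mul (.g 3) (.add (.add (.pp [(1,
 232956000000)]) (.mul (.g 3) (.add (.mul (.pp [(1, 1097164800)]) (.sq [(1, 25), (2, -19), (3, 8),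
 (5, 16), (7, -9)])) (.add (.mul (.g 10) (.pp [(1, 1974576000000)])) (.mul (.g 14) (.pp [(1,
 820248000000)])))))) (.add (.mul (.g 9) (.add (.pp [(1, 2454960000000)]) (.mul (.g 5) (.mul (.g 6)
 (.pp [(1, 56356800)]))))) (.mul (.g 10) (.pp [(1, 1257756000000)]))))) (.add (.mul (.g 15) (.add
 (.add (.mul (.g 12) (.add (.pp [(1, 61237200000)]) (.mul (.g 14) (.pp [(1, 8420400000)])))) (.mul
 (.g 19) (.add (.pp [(1, 12091200000)]) (.mul (.g 8) (.mul (.g 8) (.pp [(1, 22075800000)]))))))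
 (.add (.mul (.g 6) (.mul (.pp [(1, 61344)]) (.sq [(1, 55), (2, 100), (3, -51), (5, -18), (7,
 8)]))) (.add (.mul (.g 13) (.mul (.pp [(1, 830520)]) (.sq [(1, 60), (2, 54), (3, -59), (5, 100),
 (7, 62)]))) (.mul (.g 15) (.mul (.pp [(1, 21801)]) (.sq [(1, 100), (2, -76), (3, 17), (5, 17), (7,
 -39)]))))))) (.mul (.g 12) (.add (.mul (.g 12) (.add (.mul (.pp [(1, 49664400)]) (.sq [(1, -45),
 (2, 89), (3, 89), (5, 36), (7, 100)])) (.mul (.pp [(1, 12241200)]) (.sq [(1, 41), (2, -100), (3,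
 59), (5, 59), (7, -59)])))) (.add (.mul (.g 5) (.mul (.pp [(1, 182136)]) (.sq [(1, -28), (2, 40),
 (3, 61), (5, -6), (7, 100)]))) (.mul (.g 7) (.mul (.g 7) (.mul (.g 7) (.pp [(1,
 183651000)])))))))))) (.add (.add (.mul (.g 10) (.add (.mul (.g 5) (.add (.mul (.g 6) (.mul (.g
 10) (.pp [(1, 212131200)]))) (.mul (.g 16) (.mul (.g 16) (.pp [(1, 650880000)]))))) (.mul (.g 7)
 (.mul (.g 7) (.mul (.g 7) (.pp [(1, 137566500)])))))) (.add (.mul (.g 0) (.pp [(1, 2400000000)]))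
 (.mul (.g 1) (.pp [(1, 4000000000000)])))) (.add (.mul (.g 2) (.pp [(1, 4000000000000)])) (.add
 (.mul (.g 13) (.mul (.g 16) (.mul (.pp [(1, 12820800)]) (.sq [(1, -2), (2, -61), (3, 19), (5,
 -36), (7, 100)])))) (.mul (.g 17) (.pp [(1, 4000000000000)])))))) (.pp [(1, 84952738008), (2,
 90069672), (3, 132334008), (4, 121429944), (5, 127544412), (6, 130132056), (7, 133844760), (8,
 109523120), (9, 120342327), (10, 140335752), (12, 145090800), (14, 127404072), (15, 135477102),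
 (16, 125044800), (18, 116699688), (20, 124292040), (21, 97971102), (24, 101548800), (25,
 150213639), (27, 109524640), (28, 114152580), (30, 107037264), (35, 126681294), (36, 128239200),
 (40, 107486400), (42, 162445560), (45, 93303360), (49, 124516095), (50, 110354328), (54,
 116038800), (56, 117378000), (60, 128109600), (63, 87103980), (70, 117950400), (75, 80978520),
 (81, 118347600), (84, 130916400), (90, 138904800), (98, 141203160), (100, 121573200), (105,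
 100899840), (125, 88017160), (126, 108588000), (135, 128347200), (140, 97378800), (147,
 118262520), (150, 143884800), (175, 94188000), (189, 131306400), (196, 111984000), (210,
 149781600), (225, 113136000), (245, 101349360), (250, 125760000), (294, 116956800), (315,
 126823200), (343, 104241480), (350, 128308800), (375, 131856000), (441, 131976000), (490,
 118387200), (525, 136632000), (625, 126361200), (686, 110703600), (735, 112872000), (875,
 119318400), (1029, 116838000), (1225, 113089200), (1715, 126100800), (2401, 126098400)]))))))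
 (.rule 0 (.rule 3 (.rule 7 (.leaf 7500000000 (.add (.add (.add (.add (.mul (.pp [(1, 464730000)])
 (.sq [(1, 1), (2, 39), (3, 50), (5, -48), (7, 19)])) (.add (.mul (.g 11) (.add (.add (.add (.mul
 (.g 11) (.add (.mul (.g 11) (.add (.add (.pp [(1, 2805375000000)]) (.mul (.g 6) (.pp [(1,
 4728750000)]))) (.add (.mul (.g 10) (.pp [(1, 4959525000000)])) (.add (.mul (.g 12) (.pp [(1,
 1342500000000)])) (.mul (.g 18) (.pp [(1, 750000000)])))))) (.add (.mul (.g 4) (.mul (.g 7) (.pp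
 [(1, 791460000000)]))) (.mul (.g 5) (.mul (.g 9) (.pp [(1, 248679000000)])))))) (.mul (.g 8) (.add
 (.add (.mul (.g 15) (.add (.pp [(1, 113396250000)]) (.mul (.g 10) (.pp [(1, 884340000000)]))))
 (.mul (.g 3) (.mul (.g 16) (.pp [(1, 16371600000000)])))) (.add (.mul (.g 4) (.mul (.g 8) (.pp
 [(1, 13129950000000)]))) (.mul (.g 18) (.pp [(1, 29452650000000)])))))) (.add (.mul (.g 9) (.add
 (.add (.mul (.pp [(1, 46950000)]) (.sq [(1, 60), (2, 45), (3, 100), (5, 8), (7, 81)])) (.mul (.g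
 3) (.add (.pp [(1, 2439600000000)]) (.mul (.g 6) (.pp [(1, 4182000000)]))))) (.add (.mul (.g 9)
 (.mul (.g 10) (.pp [(1, 631125000000)]))) (.mul (.g 15) (.mul (.g 18) (.pp [(1,
 489577500000)])))))) (.mul (.g 4) (.add (.pp [(1, 10447800000000)]) (.add (.mul (.g 3) (.pp [(1,
 12296025000000)])) (.mul (.g 14) (.pp [(1, 1122750000000)]))))))) (.add (.add (.mul (.g 18) (.add
 (.pp [(1, 5128500000000)]) (.add (.mul (.g 6) (.mul (.g 16) (.pp [(1, 18391500000)]))) (.mul (.g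
 18) (.pp [(1, 4748325000000)]))))) (.mul (.g 5) (.mul (.g 10) (.add (.mul (.g 5) (.pp [(1,
 2960400000)])) (.mul (.g 12) (.pp [(1, 413868000000)])))))) (.add (.mul (.g 6) (.mul (.pp [(1,
 691050)]) (.sq [(1, -17), (2, -16), (3, -5), (5, 10), (7, 100)]))) (.add (.mul (.g 13) (.mul (.pp
 [(1, 908250000)]) (.sq [(1, -20), (2, -4), (3, 5), (5, -9), (7, 50)]))) (.mul (.g 15) (.pp [(1,
 319031250000)]))))))) (.mul (.g 18) (.add (.add (.add (.mul (.g 8) (.add (.pp [(1,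
 6992475000000)]) (.add (.mul (.g 8) (.add (.mul (.g 8) (.pp [(1, 13870500000000)])) (.mul (.g 9)
 (.pp [(1, 1583850000000)])))) (.mul (.g 19) (.mul (.g 19) (.pp [(1, 7246650000000)])))))) (.mul
 (.g 12) (.add (.mul (.pp [(1, 441675000)]) (.sq [(1, -69), (2, 93), (3, 28), (5, 51), (7, 100)]))
 (.mul (.pp [(1, 14850000)]) (.sq [(1, 97), (2, -99), (3, -57), (5, 100), (7, -38)]))))) (.add
 (.mul (.g 19) (.add (.mul (.pp [(1, 440737500)]) (.sq [(1, 4), (2, 14), (3, 57), (5, 17), (7,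
 100)])) (.mul (.g 15) (.pp [(1, 585000000)])))) (.mul (.g 3) (.mul (.pp [(1, 27609000000)]) (.sq
 [(2, 20), (3, -9), (7, 16)]))))) (.add (.add (.mul (.g 5) (.pp [(1, 112012500000)])) (.mul (.g 9)
 (.mul (.g 9) (.mul (.g 9) (.pp [(1, 4681125000000)]))))) (.add (.mul (.g 10) (.mul (.pp [(1,
 64410000)]) (.sq [(1, 72), (2, -100), (3, -39), (5, -81), (7, -21)]))) (.mul (.g 16) (.mul (.pp
 [(1, 312577500)]) (.sq [(1, -22), (2, 46), (3, 76), (5, -9), (7, 100)]))))))))) (.add (.add (.mul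
 (.g 4) (.add (.add (.mul (.g 6) (.add (.pp [(1, 163577250000)]) (.add (.mul (.g 6) (.mul (.g 9)
 (.pp [(1, 810930000)]))) (.mul (.g 8) (.mul (.g 8) (.pp [(1, 19572000000)])))))) (.add (.mul (.g
 4) (.add (.pp [(1, 13980825000000)]) (.mul (.g 14) (.pp [(1, 14832675000000)])))) (.mul (.g 7)
 (.mul (.g 7) (.pp [(1, 12984187500)]))))) (.add (.mul (.g 9) (.mul (.g 9) (.mul (.g 13) (.pp [(1,
 509850000000)])))) (.add (.mul (.g 15) (.mul (.pp [(1, 6327375)]) (.sq [(1, -56), (2, 75), (3,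
 -36), (5, 95), (7, 100)]))) (.mul (.g 19) (.pp [(1, 3623250000000)])))))) (.mul (.g 19) (.add
 (.add (.mul (.g 10) (.add (.mul (.g 8) (.add (.mul (.g 14) (.pp [(1, 4526625000000)])) (.add (.mul
 (.g 15) (.pp [(1, 94057500000)])) (.mul (.g 19) (.pp [(1, 12431700000000)]))))) (.mul (.g 12)
 (.mul (.g 19) (.pp [(1, 1240875000000)]))))) (.mul (.g 9) (.mul (.g 9) (.mul (.g 9) (.pp [(1,
 7214850000000)]))))) (.add (.mul (.g 15) (.pp [(1, 117506250000)])) (.mul (.g 19) (.mul (.pp [(1,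
 58920000)]) (.sq [(1, -39), (2, 98), (3, 82), (5, 73), (7, -100)]))))))) (.add (.mul (.g 5) (.add
 (.mul (.g 6) (.add (.mul (.g 3) (.mul (.g 6) (.pp [(1, 5469750)]))) (.add (.mul (.g 5) (.mul (.g
 13) (.pp [(1, 11981100)]))) (.mul (.g 7) (.mul (.g 8) (.pp [(1, 7864500)])))))) (.add (.mul (.g 5)
 (.mul (.g 5) (.mul (.g 5) (.pp [(1, 455328)])))) (.mul (.g 8) (.mul (.g 13) (.pp [(1,
 553495500000)])))))) (.mul (.g 3) (.mul (.g 7) (.add (.mul (.g 6) (.mul (.g 10) (.pp [(1,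
 2598375000)]))) (.mul (.g 12) (.mul (.g 12) (.pp [(1, 2786250000)]))))))))) (.add (.add (.mul (.g
 9) (.add (.mul (.pp [(1, 96127500)]) (.sq [(1, -26), (2, 100), (3, 93), (5, -61), (7, 12)])) (.mul
 (.g 14) (.mul (.pp [(1, 59887500)]) (.sq [(1, -30), (2, 100), (3, 64), (5, -49), (7, -6)])))))
 (.add (.mul (.g 13) (.add (.mul (.g 13) (.mul (.pp [(1, 175522500)]) (.sq [(1, 1), (2, 15), (3,
 100), (5, -4), (7, 10)]))) (.mul (.g 14) (.mul (.pp [(1, 2235000)]) (.sq [(1, 85), (2, -9), (3,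
 -1), (5, -100), (7, -83)]))))) (.mul (.g 0) (.pp [(1, 15000000000)])))) (.add (.add (.mul (.g 1)
 (.pp [(1, 25000000000000)])) (.mul (.g 2) (.pp [(1, 25000000000000)]))) (.add (.mul (.g 15) (.mul
 (.g 16) (.mul (.pp [(1, 23347875)]) (.sq [(1, 7), (2, 1), (3, -13), (5, -1), (7, 100)])))) (.mul
 (.g 17) (.pp [(1, 25000000000000)])))))) (.pp [(1, 59468613747), (2, 792713400), (3, 657245775),
 (4, 780880875), (5, 560412600), (6, 754359000), (7, 664891950), (8, 789676875), (9, 801950625),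
 (10, 839603250), (12, 797657250), (14, 710677200), (15, 950715000), (16, 743160000), (18,
 621332250), (20, 619916250), (21, 937468500), (24, 687952500), (25, 987093375), (27, 700775125),
 (28, 678622800), (30, 553668000), (35, 1029948000), (36, 761347500), (40, 764017500), (42,
 731238000), (45, 755154750), (49, 889200000), (50, 551506875), (54, 783127500), (56, 720915000),
 (60, 836505000), (63, 620111250), (70, 555699000), (75, 610607250), (81, 774412500), (84,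
 802470000), (90, 821970000), (98, 676005000), (100, 821745000), (105, 607170000), (125,
 642960000), (126, 758040000), (135, 739402500), (140, 876120000), (147, 607875000), (150,
 805845000), (175, 610995000), (189, 699345000), (196, 773265000), (210, 767430000), (225,
 755940000), (245, 579435000), (250, 838147500), (294, 733920000), (315, 830812500), (343,
 660150000), (350, 848265000), (375, 800625000), (441, 740715000), (490, 855270000), (525,
 796117500), (625, 777832500), (686, 777600000), (735, 764760000), (875, 779242500), (1029,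
 736050000), (1225, 768795000), (1715, 783810000), (2401, 750000000)])))))))
 (.split [(2, 1), (5, -1)]
 (.rule 1 (.rule 2 (.rule 7 (.leaf 300000000 (.add (.add (.add (.add (.mul (.g 11) (.add (.add
 (.mul (.g 3) (.add (.add (.mul (.g 4) (.add (.pp [(1, 1708956000000)]) (.mul (.g 16) (.pp [(1,
 17484000000)])))) (.mul (.g 6) (.add (.pp [(1, 14095200000)]) (.mul (.g 9) (.pp [(1,
 222120000)]))))) (.add (.mul (.g 7) (.add (.mul (.g 7) (.pp [(1, 1254015000)])) (.mul (.g 11) (.pp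
 [(1, 38973600000)])))) (.mul (.g 11) (.mul (.g 11) (.pp [(1, 57645000000)])))))) (.add (.mul (.g
 18) (.add (.add (.pp [(1, 1482000000)]) (.mul (.pp [(1, 9652500)]) (.sq [(1, 87), (2, 100), (3,
 51), (5, 43), (7, -54)]))) (.add (.mul (.g 8) (.add (.pp [(1, 733728000000)]) (.mul (.g 12) (.pp
 [(1, 758199000000)])))) (.add (.mul (.g 11) (.add (.mul (.g 11) (.pp [(1, 178719000000)])) (.mul
 (.g 15) (.pp [(1, 4382700000)])))) (.mul (.g 10) (.mul (.g 10) (.pp [(1, 45360000000)])))))))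
 (.mul (.g 5) (.add (.mul (.g 10) (.add (.add (.mul (.g 5) (.pp [(1, 10682400)])) (.mul (.g 11)
 (.pp [(1, 4016460000)]))) (.add (.mul (.g 12) (.pp [(1, 52920000)])) (.mul (.g 19) (.pp [(1,
 5578680000)]))))) (.mul (.g 11) (.mul (.g 11) (.pp [(1, 1883400000)]))))))) (.add (.add (.mul (.g
 4) (.add (.mul (.g 7) (.pp [(1, 6080100000)])) (.mul (.g 10) (.mul (.g 10) (.pp [(1,
 90435000000)]))))) (.mul (.g 6) (.add (.mul (.g 9) (.mul (.g 14) (.pp [(1, 1888830000)]))) (.mul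
 (.g 12) (.mul (.g 19) (.pp [(1, 1131450000)])))))) (.add (.mul (.g 15) (.add (.mul (.g 8) (.mul
 (.g 16) (.pp [(1, 900000)]))) (.mul (.g 9) (.pp [(1, 22902300000)])))) (.mul (.g 19) (.mul (.pp
 [(1, 6988500)]) (.sq [(1, -38), (2, -51), (3, -32), (5, -15), (7, 100)]))))))) (.add (.mul (.g 10)
 (.add (.add (.add (.mul (.g 10) (.mul (.g 10) (.add (.mul (.g 8) (.pp [(1, 537477000000)])) (.add
 (.mul (.g 12) (.pp [(1, 571515000000)])) (.mul (.g 16) (.pp [(1, 17676000000)])))))) (.mul (.g 3)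
 (.add (.pp [(1, 1142070000000)]) (.mul (.g 3) (.pp [(1, 363753000000)]))))) (.add (.mul (.g 4)
 (.add (.pp [(1, 60240000000)]) (.mul (.g 9) (.pp [(1, 268938000000)])))) (.mul (.g 7) (.mul (.g 7)
 (.add (.mul (.g 12) (.pp [(1, 666075000)])) (.mul (.g 18) (.pp [(1, 125190000)]))))))) (.add (.add
 (.mul (.g 6) (.pp [(1, 12496680000)])) (.mul (.g 12) (.mul (.g 15) (.pp [(1, 94222200000)]))))
 (.add (.mul (.g 18) (.mul (.pp [(1, 2084400)]) (.sq [(1, -75), (2, 31), (3, -77), (5, 100), (7,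
 100)]))) (.mul (.g 19) (.mul (.pp [(1, 78300)]) (.sq [(1, 47), (2, 9), (3, 94), (5, -66), (7,
 100)]))))))) (.mul (.g 18) (.add (.add (.add (.mul (.pp [(1, 2173200)]) (.sq [(2, -11), (3, -50),
 (5, 44), (7, 46)])) (.mul (.g 18) (.add (.mul (.pp [(1, 4643700)]) (.sq [(1, 10), (2, -23), (3,
 65), (5, 83), (7, -100)])) (.add (.mul (.pp [(1, 933600)]) (.sq [(1, -100), (2, 57), (3, 53), (5,
 17), (7, 69)])) (.mul (.pp [(1, 15595200)]) (.sq [(1, 57), (2, 31), (3, -6), (5, 19), (7,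
 100)])))))) (.add (.mul (.g 12) (.add (.mul (.pp [(1, 10739400)]) (.sq [(1, -54), (2, 58), (3,
 52), (5, 27), (7, 100)])) (.mul (.pp [(1, 1776000)]) (.sq [(1, 20), (2, -15), (3, -97), (5, 100),
 (7, 92)])))) (.mul (.g 3) (.pp [(1, 1174857000000)])))) (.add (.add (.mul (.g 5) (.mul (.g 5)
 (.mul (.g 8) (.pp [(1, 116548800)])))) (.mul (.g 6) (.mul (.pp [(1, 12543)]) (.sq [(1, 80), (2,
 -19), (3, -86), (5, 66), (7, 100)])))) (.add (.mul (.g 7) (.pp [(1, 12393900000)])) (.mul (.g 15)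
 (.pp [(1, 9502200000)])))))))) (.add (.add (.mul (.g 4) (.add (.add (.mul (.g 9) (.mul (.g 9)
 (.add (.mul (.g 6) (.pp [(1, 1558800000)])) (.mul (.g 9) (.pp [(1, 179355000000)]))))) (.mul (.g
 4) (.mul (.pp [(1, 14125200)]) (.sq [(1, 48), (2, 31), (3, -35), (5, 25), (7, -50)])))) (.add
 (.mul (.g 12) (.mul (.pp [(1, 4060500)]) (.sq [(1, -41), (2, -83), (3, -77), (5, -92), (7,
 100)]))) (.add (.mul (.g 13) (.mul (.pp [(1, 13579200)]) (.sq [(1, -45), (2, -50), (5, 45), (7,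
 16)]))) (.mul (.g 15) (.pp [(1, 49761000000)])))))) (.mul (.g 3) (.add (.add (.mul (.g 7) (.pp
 [(1, 63213900000)])) (.mul (.g 8) (.mul (.g 14) (.pp [(1, 246621000000)])))) (.add (.mul (.g 12)
 (.mul (.pp [(1, 8520000)]) (.sq [(1, 38), (2, 49), (3, 100), (5, -7), (7, 10)]))) (.mul (.g 15)
 (.pp [(1, 77239350000)])))))) (.add (.mul (.g 5) (.add (.mul (.g 5) (.add (.mul (.g 6) (.pp [(1,
 157284)])) (.mul (.g 9) (.mul (.g 19) (.pp [(1, 35517600)]))))) (.mul (.g 6) (.mul (.g 9) (.mul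
 (.g 9) (.pp [(1, 19398000)])))))) (.mul (.g 15) (.add (.mul (.g 13) (.mul (.pp [(1, 328170)]) (.sq
 [(1, 61), (2, -64), (3, -12), (5, -51), (7, 100)]))) (.add (.mul (.g 14) (.mul (.pp [(1, 9120)])
 (.sq [(1, -100), (2, 77), (3, 8), (5, -43), (7, 54)]))) (.mul (.g 19) (.pp [(1,
 9508950000)])))))))) (.add (.add (.mul (.g 12) (.add (.mul (.g 12) (.mul (.pp [(1, 3150900)]) (.sq
 [(1, -54), (2, -61), (3, -34), (5, -48), (7, 100)]))) (.mul (.g 13) (.mul (.pp [(1, 18110400)])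
 (.sq [(1, 3), (2, -11), (3, -19), (5, -9), (7, 25)]))))) (.add (.mul (.g 0) (.pp [(1,
 600000000)])) (.mul (.g 1) (.pp [(1, 1000000000000)])))) (.add (.add (.mul (.g 2) (.pp [(1,
 1000000000000)])) (.mul (.g 6) (.mul (.g 6) (.pp [(1, 11100300)])))) (.add (.mul (.g 16) (.mul (.g
 16) (.mul (.pp [(1, 5711400)]) (.sq [(1, -83), (2, 100), (3, 100), (5, 100), (7, 100)])))) (.mul
 (.g 17) (.pp [(1, 1000000000000)])))))) (.pp [(1, 23772523026), (2, 30256470), (3, 22588170), (4,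
 30259953), (5, 24932190), (6, 39481344), (7, 30546300), (8, 26935860), (9, 38162808), (10,
 30889776), (12, 36544560), (14, 27791520), (15, 32857164), (16, 26514600), (18, 22869780), (20,
 37187727), (21, 28429080), (24, 32839500), (25, 31867458), (27, 23802300), (28, 31898007), (30,
 25147596), (35, 29813220), (36, 27179700), (40, 33487200), (42, 20923116), (45, 21566772), (49,
 30624900), (50, 30122574), (54, 32027700), (56, 34260000), (60, 21780900), (63, 32282352), (70,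
 25988364), (75, 24895446), (81, 31086000), (84, 32300100), (90, 36080400), (98, 33781320), (100,
 21373200), (105, 45890616), (125, 28751242), (126, 28354800), (135, 34302000), (140, 32924700),
 (147, 32072280), (150, 38130600), (175, 29181132), (189, 30243600), (196, 24345900), (210,
 19711200), (225, 26955300), (245, 26218680), (250, 31555200), (294, 30600600), (315, 27399900),
 (343, 26684400), (350, 28935600), (375, 34062600), (441, 27967200), (490, 33606600), (525,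
 30580200), (625, 29093700), (686, 32978400), (735, 31308000), (875, 31891200), (1029, 29019600),
 (1225, 29756400), (1715, 33175200), (2401, 31820400)]))))))
 (.rule 1 (.rule 3 (.rule 7 (.leaf 300000000 (.add (.add (.add (.add (.mul (.pp [(1, 7085100)])
 (.sq [(1, -6), (2, -49), (3, 100), (5, -19), (7, -13)])) (.add (.mul (.g 11) (.add (.add (.mul (.g
 18) (.add (.add (.pp [(1, 13917000000)]) (.mul (.g 8) (.add (.add (.pp [(1, 662496000000)]) (.mul
 (.g 10) (.pp [(1, 865617000000)]))) (.add (.mul (.g 12) (.pp [(1, 1039296000000)])) (.mul (.g 18)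
 (.pp [(1, 497289000000)])))))) (.add (.mul (.g 6) (.add (.mul (.g 12) (.pp [(1, 55620000)])) (.mul
 (.g 18) (.pp [(1, 300000)])))) (.add (.mul (.g 10) (.add (.pp [(1, 8277000000)]) (.mul (.g 10)
 (.pp [(1, 71046000000)])))) (.mul (.g 11) (.add (.mul (.g 11) (.pp [(1, 30000000)])) (.mul (.g 12)
 (.pp [(1, 81000000)])))))))) (.add (.mul (.g 5) (.add (.mul (.g 5) (.add (.add (.pp [(1,
 361876800)]) (.mul (.g 6) (.pp [(1, 513756)]))) (.add (.mul (.g 12) (.pp [(1, 26024400)])) (.mul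
 (.g 19) (.pp [(1, 110143200)]))))) (.add (.mul (.g 4) (.mul (.g 10) (.pp [(1, 9861540000)])))
 (.mul (.g 12) (.mul (.g 15) (.pp [(1, 26985000)])))))) (.mul (.g 7) (.add (.mul (.g 3) (.add (.pp
 [(1, 43702800000)]) (.add (.mul (.g 10) (.pp [(1, 26269800000)])) (.mul (.g 12) (.pp [(1,
 28143600000)]))))) (.add (.mul (.g 7) (.add (.mul (.g 4) (.pp [(1, 54570000)])) (.mul (.g 11) (.pp
 [(1, 1267305000)])))) (.mul (.g 9) (.mul (.g 9) (.pp [(1, 10513050000)])))))))) (.add (.mul (.g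
 15) (.add (.pp [(1, 325950000)]) (.add (.mul (.g 10) (.add (.mul (.g 10) (.pp [(1, 2292450000)]))
 (.mul (.g 11) (.pp [(1, 1967700000)])))) (.mul (.g 9) (.mul (.g 11) (.pp [(1, 627000000)]))))))
 (.add (.mul (.g 6) (.add (.mul (.g 6) (.add (.mul (.g 4) (.pp [(1, 31729200)])) (.mul (.g 6) (.pp
 [(1, 113727)])))) (.mul (.g 3) (.mul (.g 8) (.pp [(1, 313770000)]))))) (.mul (.g 3) (.mul (.g 3)
 (.mul (.g 11) (.pp [(1, 67257000000)])))))))) (.mul (.g 7) (.add (.add (.mul (.g 13) (.add (.add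
 (.pp [(1, 21335100000)]) (.mul (.pp [(1, 511260)]) (.sq [(1, -37), (2, -8), (3, -4), (5, -9), (7,
 50)]))) (.add (.mul (.g 9) (.mul (.g 9) (.pp [(1, 17713800000)]))) (.mul (.g 10) (.mul (.g 10)
 (.pp [(1, 9164100000)])))))) (.add (.mul (.g 18) (.add (.pp [(1, 5443050000)]) (.add (.mul (.g 9)
 (.add (.pp [(1, 9692550000)]) (.mul (.g 19) (.pp [(1, 14787600000)])))) (.mul (.g 8) (.pp [(1,
 1972650000)]))))) (.mul (.g 6) (.add (.mul (.g 6) (.add (.mul (.g 3) (.pp [(1, 242955)])) (.mul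
 (.g 10) (.pp [(1, 1950510)])))) (.mul (.g 7) (.mul (.g 8) (.pp [(1, 493425)]))))))) (.add (.mul
 (.g 7) (.mul (.g 7) (.mul (.g 12) (.pp [(1, 2805750)])))) (.add (.mul (.g 8) (.mul (.g 8) (.mul
 (.g 19) (.pp [(1, 8494350000)])))) (.mul (.g 14) (.mul (.pp [(1, 317130)]) (.sq [(1, 23), (2, 17),
 (3, 100), (5, -71), (7, 54)]))))))))) (.add (.mul (.g 4) (.add (.mul (.g 4) (.add (.mul (.g 10)
 (.add (.add (.pp [(1, 92286000000)]) (.mul (.g 8) (.pp [(1, 80535000000)]))) (.add (.mul (.g 9)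
 (.pp [(1, 53304000000)])) (.mul (.g 18) (.pp [(1, 44373000000)]))))) (.mul (.g 8) (.mul (.g 9)
 (.pp [(1, 65379000000)]))))) (.mul (.g 5) (.add (.add (.mul (.g 3) (.pp [(1, 9364020000)])) (.mul
 (.g 5) (.pp [(1, 31309200)]))) (.add (.mul (.g 8) (.mul (.g 9) (.pp [(1, 2789040000)]))) (.mul (.g
 10) (.pp [(1, 1315380000)]))))))) (.add (.mul (.g 13) (.add (.add (.mul (.pp [(1, 15052200)]) (.sq
 [(1, 2), (2, 3), (3, 100), (5, -70), (7, -20)])) (.add (.mul (.g 8) (.mul (.g 8) (.pp [(1,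
 471585000000)]))) (.mul (.g 10) (.mul (.pp [(1, 3698400)]) (.sq [(1, -75), (2, -85), (3, 100), (5,
 -8), (7, 85)]))))) (.add (.mul (.g 13) (.mul (.pp [(1, 3756600)]) (.sq [(1, 47), (2, -8), (3,
 -38), (5, 100), (7, -78)]))) (.add (.mul (.g 15) (.mul (.pp [(1, 341685)]) (.sq [(1, -29), (2,
 -29), (3, -99), (5, 100), (7, -72)]))) (.mul (.g 18) (.pp [(1, 24849000000)])))))) (.mul (.g 5)
 (.add (.mul (.g 5) (.add (.mul (.g 5) (.add (.pp [(1, 399168)]) (.mul (.g 9) (.pp [(1,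
 492192)])))) (.add (.mul (.g 10) (.mul (.g 19) (.pp [(1, 39577200)]))) (.mul (.g 18) (.pp [(1,
 503786400)]))))) (.mul (.g 9) (.mul (.g 18) (.pp [(1, 430140000)])))))))) (.add (.add (.mul (.g
 10) (.add (.mul (.pp [(1, 178183200)]) (.sq [(1, -1), (2, -28), (3, 50), (5, -12), (7, -6)]))
 (.mul (.g 10) (.mul (.pp [(1, 5280300)]) (.sq [(1, 12), (2, -64), (3, 100), (5, -43), (7, 5)])))))
 (.add (.mul (.g 0) (.pp [(1, 600000000)])) (.mul (.g 1) (.pp [(1, 1000000000000)])))) (.add (.mul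
 (.g 2) (.pp [(1, 1000000000000)])) (.add (.mul (.g 17) (.pp [(1, 1000000000000)])) (.mul (.g 19)
 (.mul (.g 19) (.mul (.pp [(1, 2121600)]) (.sq [(1, -15), (2, 77), (3, -13), (5, 100), (7,
 -41)])))))))) (.pp [(1, 978503679), (2, 32624655), (3, 28976811), (4, 29625495), (5, 30098790),
 (6, 26556570), (7, 30921561), (8, 26109535), (9, 31044435), (10, 28852890), (12, 32645535), (14,
 25850760), (15, 30276390), (16, 31317900), (18, 27280755), (20, 34171725), (21, 28814220), (24,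
 31482600), (25, 27091320), (27, 32355375), (28, 33122760), (30, 31358790), (35, 28439280), (36,
 26067000), (40, 30657600), (42, 31456680), (45, 30557055), (49, 27854460), (50, 30152070), (54,
 32569200), (56, 30468000), (60, 27597000), (63, 31390560), (70, 28717680), (75, 29757150), (81,
 28563300), (84, 28500000), (90, 32296200), (98, 32186280), (100, 30830700), (105, 33211320), (125,
 33841470), (126, 31929600), (135, 28026600), (140, 28420800), (147, 31233720), (150, 27568800),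
 (175, 28748760), (189, 26102400), (196, 27768000), (210, 29560800), (225, 30372900), (245,
 33417720), (250, 28009800), (294, 28485600), (315, 28684800), (343, 30300000), (350, 30429600),
 (375, 30897600), (441, 30746400), (490, 31545600), (525, 29512800), (625, 28422900), (686,
 30000000), (735, 28432800), (875, 32505000), (1029, 30000000), (1225, 28269300), (1715, 30000000),
 (2401, 30000000)]))))))))
 (.rule 5 (.cut 450 [(2, -1), (5, 1)] (.add (.mul (.g 10) (.pp [(1, 310)])) (.add (.mul (.g 11)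
 (.pp [(1, 7)])) (.mul (.g 1) (.pp [(1, 9)])))) (.rule 3 (.leaf 1200000000 (.add (.add (.add (.add
 (.mul (.g 9) (.add (.add (.add (.mul (.g 16) (.add (.add (.mul (.g 8) (.add (.pp [(1,
 148140000000)]) (.add (.mul (.g 4) (.pp [(1, 8774040000)])) (.mul (.g 6) (.pp [(1,
 426504000000)]))))) (.add (.mul (.g 16) (.add (.mul (.g 7) (.pp [(1, 1227588000000)])) (.add (.mul
 (.g 14) (.pp [(1, 785544000000)])) (.mul (.g 16) (.pp [(1, 120000000)]))))) (.mul (.g 9) (.add
 (.mul (.g 3) (.pp [(1, 12606960000)])) (.mul (.g 10) (.pp [(1, 1223460000000)])))))) (.add (.mul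
 (.g 4) (.mul (.g 13) (.pp [(1, 370386000)]))) (.add (.mul (.g 5) (.mul (.g 10) (.pp [(1,
 277606800000)]))) (.mul (.g 6) (.pp [(1, 1214172000000)])))))) (.mul (.g 7) (.add (.add (.mul (.g
 3) (.add (.mul (.g 3) (.pp [(1, 752169600)])) (.mul (.g 6) (.pp [(1, 982367040000)])))) (.mul (.g
 5) (.add (.mul (.g 7) (.pp [(1, 2499052800000)])) (.mul (.g 14) (.pp [(1, 119451600000)])))))
 (.add (.mul (.g 6) (.mul (.g 6) (.pp [(1, 565392000000)]))) (.add (.mul (.g 8) (.pp [(1,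
 388464000000)])) (.mul (.g 9) (.mul (.g 17) (.pp [(1, 1258872000000)])))))))) (.add (.mul (.g 8)
 (.add (.add (.mul (.pp [(1, 70065600)]) (.sq [(1, 25), (2, 50), (3, 100), (5, -39), (7, -62)]))
 (.mul (.pp [(1, 34491600)]) (.sq [(1, -2), (2, -30), (3, 60), (5, -85), (7, 100)]))) (.add (.mul
 (.g 5) (.add (.mul (.g 8) (.pp [(1, 332988000000)])) (.mul (.g 17) (.pp [(1, 328805400000)]))))
 (.mul (.g 3) (.mul (.g 9) (.pp [(1, 37567920000)])))))) (.mul (.g 3) (.add (.mul (.pp [(1,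
 1530432)]) (.sq [(1, 13), (2, 35), (3, 40), (5, -50), (7, -32)])) (.mul (.g 9) (.mul (.g 13) (.pp
 [(1, 1616556000)]))))))) (.add (.add (.mul (.g 14) (.add (.mul (.pp [(1, 44158800)]) (.sq [(2,
 13), (5, 100), (7, -93)])) (.mul (.g 5) (.mul (.g 10) (.pp [(1, 57013800000)]))))) (.mul (.g 4)
 (.mul (.g 9) (.mul (.g 13) (.pp [(1, 1159392000)]))))) (.add (.mul (.g 11) (.mul (.pp [(1,
 1995600)]) (.sq [(1, -1), (2, 14), (3, 100), (5, -64), (7, -92)]))) (.mul (.g 17) (.mul (.pp [(1,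
 201600)]) (.sq [(1, -59), (2, -100), (3, 70), (5, -89), (7, 94)]))))))) (.mul (.g 3) (.add (.add
 (.add (.mul (.g 8) (.add (.add (.mul (.pp [(1, 618432)]) (.sq [(1, -32), (2, -35), (3, -45), (5,
 -23), (7, 100)])) (.mul (.pp [(1, 2502144)]) (.sq [(1, 23), (2, 25), (3, 25), (5, 25), (7, 25)])))
 (.add (.mul (.g 3) (.mul (.g 7) (.pp [(1, 25593600)]))) (.add (.mul (.g 8) (.mul (.g 13) (.pp [(1,
 74832000)]))) (.mul (.g 17) (.mul (.g 17) (.pp [(1, 3016560000)]))))))) (.mul (.g 4) (.add (.mul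
 (.g 3) (.mul (.g 12) (.pp [(1, 2778768)]))) (.mul (.g 6) (.mul (.g 6) (.pp [(1, 1716064800)]))))))
 (.add (.mul (.g 13) (.add (.pp [(1, 111588000)]) (.mul (.g 6) (.pp [(1, 2255292000)])))) (.mul (.g
 5) (.pp [(1, 10172208000)])))) (.add (.add (.mul (.g 7) (.mul (.g 7) (.mul (.g 7) (.pp [(1,
 3622080000)])))) (.mul (.g 11) (.mul (.pp [(1, 2904048)]) (.sq [(1, 17), (2, -4), (3, -35), (5,
 10), (7, 100)])))) (.add (.mul (.g 16) (.pp [(1, 14527920000)])) (.mul (.g 17) (.mul (.pp [(1,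
 2059368)]) (.sq [(1, 1), (2, -22), (3, -16), (5, -5), (7, 100)])))))))) (.add (.mul (.g 5) (.add
 (.add (.mul (.g 5) (.add (.mul (.pp [(1, 33258)]) (.sq [(1, 42), (2, 100), (3, -7), (5, 56), (7,
 -50)])) (.add (.mul (.g 5) (.mul (.g 11) (.pp [(1, 365785500)]))) (.mul (.g 8) (.mul (.g 16) (.pp
 [(1, 6427770000)])))))) (.add (.mul (.g 6) (.add (.mul (.g 7) (.add (.mul (.g 4) (.pp [(1,
 4063242000)])) (.mul (.g 10) (.pp [(1, 25240200000)])))) (.mul (.g 10) (.mul (.g 16) (.pp [(1,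
 13291200000)]))))) (.mul (.g 13) (.add (.mul (.pp [(1, 792909)]) (.sq [(1, 17), (2, 100), (3, -2),
 (5, 41), (7, -19)])) (.mul (.g 14) (.mul (.g 14) (.pp [(1, 391590000)]))))))) (.add (.mul (.g 8)
 (.mul (.pp [(1, 37453680)]) (.sq [(1, 13), (2, 50), (5, -2), (7, -19)]))) (.add (.mul (.g 11)
 (.mul (.g 12) (.pp [(1, 44661600000)]))) (.mul (.g 16) (.pp [(1, 73315200000)])))))) (.add (.mul
 (.g 13) (.add (.add (.mul (.g 11) (.add (.pp [(1, 1243200000)]) (.mul (.pp [(1, 787860)]) (.sq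
 [(1, 69), (2, 100), (3, -48), (5, 6), (7, -15)])))) (.mul (.g 16) (.add (.mul (.pp [(1, 179820)])
 (.sq [(1, -1), (2, 100), (3, 39), (5, -92), (7, 3)])) (.mul (.pp [(1, 2976540)]) (.sq [(1, -44),
 (2, 12), (3, 43), (5, -22), (7, 100)]))))) (.add (.mul (.g 7) (.mul (.pp [(1, 7437780)]) (.sq [(1,
 17), (2, -3), (3, -28), (5, 13), (7, 100)]))) (.mul (.g 12) (.mul (.pp [(1, 8635440)]) (.sq [(1,
 10), (2, 11), (3, 16), (5, -28), (7, 50)])))))) (.mul (.g 16) (.add (.mul (.g 6) (.add (.mul (.g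
 6) (.pp [(1, 4458168000000)])) (.mul (.g 7) (.pp [(1, 6624636000000)])))) (.add (.mul (.g 8) (.mul
 (.g 16) (.mul (.g 17) (.pp [(1, 202668000000)])))) (.mul (.g 10) (.mul (.pp [(1, 15378000)]) (.sq
 [(1, -69), (2, 93), (3, 28), (5, 51), (7, 100)]))))))))) (.add (.add (.mul (.g 7) (.add (.mul (.g
 6) (.mul (.g 6) (.mul (.g 17) (.pp [(1, 2542344000000)])))) (.mul (.g 7) (.mul (.g 7) (.mul (.g
 12) (.pp [(1, 392148000000)])))))) (.add (.mul (.g 11) (.mul (.g 11) (.add (.mul (.pp [(1,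
 7070400)]) (.sq [(1, -70), (2, 100), (3, 82), (5, 50), (7, 99)])) (.mul (.pp [(1, 13358400)]) (.sq
 [(1, 15), (2, -68), (3, 100), (5, 35), (7, -53)]))))) (.mul (.g 0) (.pp [(1, 4000000000000)]))))
 (.add (.mul (.g 2) (.pp [(1, 4000000000000)])) (.add (.mul (.g 15) (.pp [(1, 4000000000000)]))
 (.mul (.g 17) (.mul (.g 17) (.mul (.pp [(1, 26692800)]) (.sq [(1, -30), (2, -88), (3, -46), (5,
 59), (7, 100)])))))))) (.pp [(1, 610293879), (2, 110863464), (3, 119907900), (4, 135296976), (5,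
 115078998), (6, 123436200), (7, 111575250), (8, 116146464), (9, 114482298), (10, 129537960), (12,
 106575716), (14, 152387280), (15, 108973644), (16, 120993600), (18, 123634400), (19,
 12000000000000), (20, 92224320), (21, 130853004), (24, 128154000), (25, 128594763), (27,
 124706400), (28, 96927360), (30, 119510664), (35, 140622438), (36, 116446800), (40, 122180400),
 (42, 103917120), (45, 130567656), (49, 137124627), (50, 129734880), (54, 126592800), (56,
 121878000), (60, 110221200), (63, 121800360), (70, 84556560), (75, 133462200), (81, 116436000),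
 (84, 121362000), (90, 124123200), (98, 96299700), (100, 138106800), (105, 97641120), (125,
 109609644), (126, 118452000), (135, 105720000), (140, 147696000), (147, 90190200), (150,
 120655200), (175, 106547640), (189, 117607200), (196, 132799200), (210, 123600000), (225,
 104158800), (245, 101397300), (250, 104896800), (294, 113206800), (315, 123926400), (343,
 109860804), (350, 128854800), (375, 108592800), (441, 132735600), (490, 129016800), (525,
 114712800), (625, 126720000), (686, 128874000), (735, 135222000), (875, 123375600), (1029,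
 126705600), (1225, 119241600), (1715, 124297200), (2401, 120000000)])))))))))
 (P_Op0 ++ xP_G_F1) = true := by decide +kernel

theorem t_G_F5a_c4 : chk RFp gP_G_F5a
 (.rule 5 (.rule 6 (.leaf 150000000 (.add (.add (.add (.add (.mul (.g 4) (.add (.add (.mul (.g 3)
 (.add (.add (.mul (.pp [(1, 92460000)]) (.sq [(1, 3), (2, -4), (3, 23), (5, -25)])) (.mul (.g 11)
 (.add (.mul (.g 4) (.pp [(1, 146779500000)])) (.add (.mul (.g 9) (.pp [(1, 16745625000)])) (.mul
 (.g 11) (.pp [(1, 192153000000)])))))) (.add (.mul (.g 6) (.add (.mul (.g 2) (.pp [(1,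
 270829500000)])) (.mul (.g 8) (.pp [(1, 328311000000)])))) (.mul (.g 12) (.add (.mul (.g 3) (.pp
 [(1, 115204500000)])) (.mul (.g 9) (.pp [(1, 9271575000)]))))))) (.mul (.g 4) (.add (.mul (.g 6)
 (.add (.pp [(1, 28503000000)]) (.add (.mul (.g 6) (.pp [(1, 4836000000)])) (.mul (.g 12) (.pp [(1,
 64750500000)]))))) (.mul (.g 11) (.add (.mul (.g 2) (.pp [(1, 45591000000)])) (.mul (.g 9) (.pp
 [(1, 4915725000)]))))))) (.add (.mul (.g 6) (.add (.pp [(1, 9177000000)]) (.mul (.g 6) (.mul (.g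
 12) (.pp [(1, 37713000000)]))))) (.mul (.g 12) (.mul (.g 12) (.mul (.g 12) (.pp [(1,
 15054000000)]))))))) (.mul (.g 2) (.add (.mul (.g 9) (.add (.mul (.g 2) (.add (.add (.pp [(1,
 1254450000)]) (.mul (.g 2) (.pp [(1, 5175000)]))) (.add (.mul (.g 11) (.pp [(1, 118350000)]))
 (.mul (.g 12) (.pp [(1, 165075000)]))))) (.add (.mul (.g 3) (.mul (.g 12) (.pp [(1, 781650000)])))
 (.mul (.g 7) (.pp [(1, 23524200000)]))))) (.add (.mul (.g 12) (.add (.mul (.g 3) (.mul (.g 3) (.pp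
 [(1, 19476000000)]))) (.add (.mul (.g 11) (.mul (.g 11) (.pp [(1, 51076500000)]))) (.mul (.g 12)
 (.mul (.g 12) (.pp [(1, 2344500000)])))))) (.mul (.g 3) (.mul (.g 11) (.mul (.g 11) (.pp [(1,
 110409000000)])))))))) (.add (.mul (.g 9) (.add (.add (.pp [(1, 16095000000)]) (.mul (.g 6) (.pp
 [(1, 31626450000)]))) (.add (.mul (.g 9) (.mul (.pp [(1, 13881)]) (.sq [(1, 2), (2, 4), (3, 100),
 (5, -73)]))) (.mul (.g 12) (.pp [(1, 4522350000)]))))) (.add (.mul (.g 3) (.add (.mul (.g 6) (.mul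
 (.g 6) (.mul (.g 11) (.pp [(1, 27234000000)])))) (.mul (.g 8) (.mul (.pp [(1, 1003800)]) (.sq [(2,
 75), (3, 100), (5, -17)]))))) (.mul (.g 0) (.pp [(1, 500000000000)]))))) (.add (.add (.mul (.g 1)
 (.pp [(1, 500000000000)])) (.mul (.g 6) (.mul (.g 6) (.pp [(1, 65278500000)])))) (.add (.mul (.g
 7) (.mul (.g 11) (.mul (.pp [(1, 1767300)]) (.sq [(1, 34), (2, -25), (3, -100), (5, 57)])))) (.add
 (.mul (.g 10) (.pp [(1, 2000000000)])) (.mul (.g 12) (.mul (.g 12) (.mul (.g 12) (.pp [(1,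
 30798000000)])))))))) (.pp [(1, 10870203756), (2, 15182784), (3, 13881840), (4, 14868564), (5,
 14096052), (6, 15389760), (8, 14719540), (9, 15765600), (10, 15711504), (12, 15508360), (15,
 14295480), (16, 14661600), (18, 14479600), (20, 14466100), (24, 16194300), (25, 15022011), (27,
 14280000), (30, 15828960), (36, 14564100), (40, 15278400), (45, 14985000), (50, 15090220), (54,
 14580000), (60, 13207500), (75, 13911840), (81, 15000000), (90, 16176600), (100, 15718800), (125,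
 15124140), (135, 14340000), (150, 16233300), (225, 16924500), (250, 14080800), (375, 14004900),
 (625, 15260400)])))))
 (P_c4 ++ xP_G_F5a) = true := by decide +kernel

theorem t_G_F7_Op1 : chk ROp gP_G_F7
 (.cut 1 [(2, -1), (3, 1)] (.add (.mul (.g 8) (.pp [(1, 1)])) (.mul (.g 4) (.pp [(1, 1)]))) (.rule
 1 (.cut 1 [(2, 1), (5, -1)] (.add (.mul (.g 10) (.pp [(1, 1)])) (.mul (.g 7) (.pp [(1, 1)])))
 (.rule 2 (.cut 11 [(1, -69), (3, 100)] (.add (.mul (.g 1) (.pp [(1, 620)])) (.add (.mul (.g 11)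
 (.pp [(1, 31)])) (.mul (.g 12) (.pp [(1, 480)])))) (.cut 1 [(1, 3), (3, -2)] (.add (.add (.mul (.g
 10) (.pp [(1, 1)])) (.mul (.g 15) (.pp [(1, 1)]))) (.add (.mul (.g 7) (.pp [(1, 1)])) (.add (.mul
 (.g 8) (.pp [(1, 1)])) (.mul (.g 9) (.pp [(1, 1)]))))) (.rule 8 (.rule 15 (.leaf 33000000 (.add
 (.add (.add (.add (.mul (.g 11) (.add (.add (.mul (.g 11) (.add (.add (.mul (.g 19) (.add (.add
 (.mul (.g 9) (.pp [(1, 42011310000)])) (.mul (.g 10) (.pp [(1, 758010000)]))) (.add (.mul (.g 12)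
 (.pp [(1, 175138590000)])) (.mul (.g 18) (.pp [(1, 87648660000)]))))) (.add (.mul (.g 16) (.add
 (.pp [(1, 49681500000)]) (.add (.mul (.g 9) (.pp [(1, 1741410000)])) (.mul (.g 14) (.pp [(1,
 30545460000)]))))) (.mul (.g 8) (.add (.mul (.g 9) (.pp [(1, 34145760000)])) (.mul (.g 10) (.pp
 [(1, 43681440000)])))))) (.add (.mul (.g 11) (.add (.mul (.g 10) (.pp [(1, 1652640000)])) (.mul
 (.g 11) (.pp [(1, 54346050000)])))) (.add (.mul (.g 12) (.mul (.g 15) (.pp [(1, 11312647500)])))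
 (.mul (.g 14) (.mul (.g 18) (.pp [(1, 100913670000)]))))))) (.add (.mul (.g 9) (.add (.add (.mul
 (.g 19) (.add (.mul (.g 8) (.pp [(1, 244940520000)])) (.add (.mul (.g 9) (.pp [(1, 1509090000)]))
 (.mul (.g 12) (.pp [(1, 18268140000)]))))) (.mul (.g 16) (.add (.pp [(1, 35225190000)]) (.mul (.g
 12) (.pp [(1, 17882040000)]))))) (.add (.mul (.g 8) (.mul (.g 10) (.pp [(1, 270326760000)])))
 (.mul (.g 9) (.mul (.g 13) (.pp [(1, 13121790000)])))))) (.mul (.g 10) (.add (.pp [(1,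
 32889120000)]) (.add (.mul (.g 10) (.add (.mul (.g 10) (.pp [(1, 1509090000)])) (.add (.mul (.g
 13) (.pp [(1, 1505790000)])) (.mul (.g 14) (.pp [(1, 12013320000)]))))) (.mul (.g 8) (.mul (.g 16)
 (.pp [(1, 18965100000)])))))))) (.add (.mul (.g 12) (.add (.mul (.g 8) (.add (.mul (.g 12) (.pp
 [(1, 98613570000)])) (.mul (.g 19) (.pp [(1, 26021820000)])))) (.mul (.g 14) (.mul (.g 16) (.pp
 [(1, 67255650000)]))))) (.add (.mul (.g 16) (.pp [(1, 39871920000)])) (.mul (.g 18) (.pp [(1,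
 155662980000)])))))) (.add (.mul (.g 10) (.add (.add (.mul (.g 16) (.add (.add (.mul (.g 9) (.add
 (.mul (.g 8) (.pp [(1, 10515120000)])) (.add (.mul (.g 9) (.pp [(1, 208236930000)])) (.mul (.g 10)
 (.pp [(1, 52445910000)]))))) (.mul (.g 10) (.add (.mul (.g 10) (.pp [(1, 48929760000)])) (.mul (.g
 16) (.pp [(1, 116729250000)]))))) (.add (.mul (.g 8) (.mul (.g 18) (.pp [(1, 10227030000)])))
 (.mul (.g 14) (.mul (.g 19) (.pp [(1, 54424260000)])))))) (.add (.mul (.g 19) (.add (.pp [(1,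
 47794890000)]) (.add (.mul (.g 19) (.add (.mul (.g 8) (.pp [(1, 5960790000)])) (.mul (.g 9) (.pp
 [(1, 17517720000)])))) (.mul (.g 13) (.mul (.g 13) (.pp [(1, 3300000)])))))) (.mul (.g 18) (.add
 (.mul (.g 8) (.add (.mul (.g 8) (.pp [(1, 43664280000)])) (.mul (.g 10) (.pp [(1, 1515690000)]))))
 (.mul (.g 10) (.mul (.g 14) (.pp [(1, 12019920000)]))))))) (.add (.mul (.g 12) (.mul (.g 14) (.mul
 (.g 14) (.pp [(1, 5970690000)])))) (.add (.mul (.g 13) (.pp [(1, 69256110000)])) (.mul (.g 15)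
 (.mul (.g 15) (.pp [(1, 15912600)]))))))) (.mul (.g 8) (.add (.add (.mul (.g 12) (.add (.mul (.pp
 [(1, 3527601)]) (.sq [(1, -46), (2, 100), (3, 48), (5, 48), (7, -35)])) (.add (.mul (.pp [(1,
 1133715)]) (.sq [(1, 59), (2, -100), (3, 85), (5, -58), (7, 44)])) (.mul (.g 12) (.add (.pp [(1,
 45416910000)]) (.add (.mul (.g 9) (.pp [(1, 14601510000)])) (.mul (.g 15) (.pp [(1,
 2649190500)])))))))) (.mul (.g 8) (.add (.mul (.g 18) (.add (.pp [(1, 97624560000)]) (.mul (.g 9)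
 (.pp [(1, 107209410000)])))) (.mul (.g 16) (.mul (.g 19) (.pp [(1, 69197700000)])))))) (.add (.mul
 (.g 16) (.add (.pp [(1, 84486600000)]) (.mul (.g 9) (.mul (.g 9) (.pp [(1, 44048070000)])))))
 (.mul (.g 13) (.pp [(1, 42775590000)]))))))) (.add (.mul (.g 9) (.add (.add (.mul (.g 16) (.add
 (.mul (.g 19) (.add (.mul (.g 9) (.pp [(1, 105506280000)])) (.mul (.g 15) (.pp [(1,
 5136367500)])))) (.mul (.g 13) (.mul (.g 14) (.pp [(1, 758010000)]))))) (.mul (.g 12) (.mul (.g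
 14) (.mul (.g 14) (.pp [(1, 52997010000)]))))) (.add (.mul (.g 13) (.pp [(1, 121425810000)]))
 (.add (.mul (.g 18) (.pp [(1, 77276760000)])) (.mul (.g 19) (.pp [(1, 47790270000)])))))) (.add
 (.mul (.g 16) (.add (.pp [(1, 23863620000)]) (.mul (.g 19) (.pp [(1, 42893730000)])))) (.mul (.g
 0) (.pp [(1, 10000000000)]))))) (.add (.add (.mul (.g 1) (.pp [(1, 33000000)])) (.add (.mul (.g 4)
 (.pp [(1, 110000000000)])) (.mul (.g 6) (.pp [(1, 110000000000)])))) (.add (.add (.mul (.g 12)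
 (.mul (.g 12) (.pp [(1, 13360380000)]))) (.mul (.g 13) (.mul (.g 13) (.mul (.g 14) (.pp [(1,
 80136540000)]))))) (.add (.mul (.g 17) (.pp [(1, 110000000000)])) (.mul (.g 18) (.mul (.g 18)
 (.mul (.pp [(1, 4465065)]) (.sq [(1, -98), (2, 64), (3, 13), (5, 13), (7, 100)])))))))) (.pp [(1,
 481485740), (2, 3024229), (3, 2916640), (4, 3176591), (5, 3495020), (6, 3645686), (7, 3182520),
 (8, 3798300), (9, 3546015), (10, 3517316), (12, 2723314), (14, 3453780), (15, 3260290), (16,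
 2970000), (18, 3918101), (20, 3894924), (21, 3903240), (24, 3504600), (25, 2930015), (27,
 2977590), (28, 3004980), (30, 2990812), (35, 3389760), (36, 3177339), (40, 2943600), (42,
 3082200), (45, 3052060), (49, 3375240), (50, 2940036), (54, 3051840), (56, 3531000), (60,
 3335508), (63, 3015210), (70, 3197040), (75, 3951970), (81, 3414015), (84, 3396360), (90,
 3381840), (98, 3178395), (100, 3329964), (105, 3183180), (125, 3410000), (126, 3331680), (135,
 3528030), (140, 3239280), (147, 3271620), (150, 3300000), (175, 3401970), (189, 3429030), (196,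
 3327225), (210, 3463680), (225, 3084015), (245, 3403620), (250, 3300000), (294, 3447840), (315,
 3327060), (343, 3234000), (350, 3300000), (375, 3300000), (441, 3216015), (490, 3051840), (525,
 3198030), (625, 3300000), (686, 3498000), (735, 3330030), (875, 3300000), (1029, 3201000), (1225,
 3414015), (1715, 3201000), (2401, 3300000)])))))))))))
 (P_Op1 ++ xP_G_F7) = true := by decide +kernel

theorem t_G_T2_TpA_a : chk Rap gP_G_T2
 (.split [(1, 1), (2, -20)]
 (.cut 1 [(1, -3), (3, 5)] (.add (.mul (.g 2) (.pp [(1, 2)])) (.mul (.g 9) (.pp [(1, 3)]))) (.cut 1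
 [(1, 3), (3, -2)] (.add (.add (.mul (.g 2) (.pp [(1, 18)])) (.mul (.g 7) (.pp [(1, 2)]))) (.add
 (.mul (.g 4) (.pp [(1, 2)])) (.mul (.g 1) (.pp [(1, 1)])))) (.rule 8 (.cut 1 [(1, 2), (2, 1), (3,
 -2), (5, -1)] (.add (.mul (.g 9) (.pp [(1, 1)])) (.add (.mul (.g 14) (.pp [(1, 1)])) (.mul (.g 7)
 (.pp [(1, 1)])))) (.cut 90 [(1, -1), (2, -2), (3, 2), (5, 2)] (.add (.add (.mul (.g 4) (.pp [(1,
 9)])) (.mul (.g 2) (.pp [(1, 5)]))) (.add (.mul (.g 7) (.pp [(1, 180)])) (.mul (.g 3) (.pp [(1,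
 38)])))) (.rule 16 (.rule 4 (.leaf 60000000 (.add (.add (.add (.add (.mul (.g 11) (.add (.add
 (.add (.pp [(1, 264459600000)]) (.mul (.g 9) (.add (.add (.pp [(1, 247356000000)]) (.add (.mul
 (.pp [(1, 36606120)]) (.sq [(1, 25), (2, 100), (3, 51), (5, -25), (7, -80)])) (.mul (.g 9) (.add
 (.mul (.g 7) (.pp [(1, 1799310000)])) (.add (.mul (.g 10) (.pp [(1, 1211836200000)])) (.mul (.g
 13) (.pp [(1, 1065522600000)]))))))) (.add (.mul (.g 11) (.add (.mul (.g 8) (.pp [(1,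
 319731000000)])) (.mul (.g 15) (.pp [(1, 1723290000)])))) (.add (.mul (.g 10) (.mul (.g 10) (.pp
 [(1, 13325400000)]))) (.mul (.g 13) (.mul (.g 16) (.pp [(1, 54881400000)])))))))) (.add (.mul (.g
 18) (.add (.add (.pp [(1, 231422400000)]) (.mul (.pp [(1, 1325340)]) (.sq [(1, 100), (2, 45), (3,
 85), (5, 85), (7, 69)]))) (.add (.mul (.g 10) (.add (.mul (.g 8) (.pp [(1, 326048400000)])) (.mul
 (.g 15) (.pp [(1, 1420620000)])))) (.mul (.g 11) (.add (.mul (.g 15) (.pp [(1, 8407560000)]))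
 (.mul (.g 16) (.pp [(1, 37807200000)]))))))) (.mul (.g 7) (.add (.add (.mul (.pp [(1, 2405442)])
 (.sq [(1, 59), (2, 29), (3, 100), (5, -93), (7, -54)])) (.mul (.g 7) (.mul (.g 16) (.pp [(1,
 325500)])))) (.add (.mul (.g 10) (.mul (.g 13) (.pp [(1, 7585170000)]))) (.mul (.g 11) (.mul (.g
 14) (.pp [(1, 6713880000)])))))))) (.add (.add (.mul (.g 16) (.add (.mul (.g 11) (.add (.mul (.g
 8) (.pp [(1, 254083800000)])) (.mul (.g 15) (.pp [(1, 7802910000)])))) (.mul (.g 16) (.mul (.g 16)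
 (.pp [(1, 378805200000)]))))) (.mul (.g 10) (.add (.pp [(1, 438714000000)]) (.mul (.pp [(1,
 84452160)]) (.sq [(1, 14), (2, -50), (3, 10), (5, -9), (7, -49)]))))) (.add (.mul (.g 8) (.pp [(1,
 234547800000)])) (.mul (.g 13) (.mul (.pp [(1, 2123100)]) (.sq [(1, 4), (2, -41), (3, -97), (5,
 88), (7, 100)]))))))) (.add (.mul (.g 8) (.add (.add (.mul (.g 10) (.add (.add (.pp [(1,
 130677600000)]) (.mul (.pp [(1, 44757060)]) (.sq [(1, -12), (2, -21), (3, -22), (5, 20), (7,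
 100)]))) (.add (.mul (.g 8) (.add (.pp [(1, 25029600000)]) (.add (.mul (.g 12) (.pp [(1,
 93727800000)])) (.mul (.g 18) (.pp [(1, 30047400000)]))))) (.mul (.g 18) (.mul (.g 18) (.pp [(1,
 111634800000)])))))) (.mul (.g 18) (.add (.mul (.pp [(1, 11346180)]) (.sq [(1, 74), (2, 71), (3,
 100), (5, 75), (7, 37)])) (.mul (.g 8) (.add (.mul (.g 9) (.pp [(1, 31405800000)])) (.mul (.g 18)
 (.pp [(1, 106970400000)]))))))) (.add (.mul (.g 7) (.add (.pp [(1, 38986980000)]) (.mul (.g 12)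
 (.mul (.g 14) (.pp [(1, 2972280000)]))))) (.add (.mul (.g 13) (.add (.mul (.pp [(1, 736200)]) (.sq
 [(1, 100), (2, 83), (3, 26), (5, -69), (7, -80)])) (.mul (.g 9) (.pp [(1, 173569200000)])))) (.mul
 (.g 16) (.add (.pp [(1, 1050826800000)]) (.mul (.pp [(1, 6619140)]) (.sq [(1, 14), (2, -67), (3,
 -78), (5, -95), (7, 100)])))))))) (.mul (.g 9) (.add (.mul (.g 9) (.add (.mul (.g 9) (.add (.mul
 (.g 10) (.pp [(1, 169173000000)])) (.mul (.g 15) (.pp [(1, 12463320000)])))) (.add (.mul (.g 16)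
 (.add (.mul (.g 10) (.pp [(1, 150211200000)])) (.mul (.g 13) (.pp [(1, 543826800000)])))) (.mul
 (.g 18) (.mul (.g 18) (.pp [(1, 319378200000)])))))) (.add (.mul (.g 13) (.add (.pp [(1,
 401869200000)]) (.mul (.g 13) (.pp [(1, 684225000000)])))) (.mul (.g 18) (.add (.pp [(1,
 703218000000)]) (.mul (.g 12) (.mul (.g 18) (.pp [(1, 324043200000)])))))))))) (.add (.add (.mul
 (.g 18) (.add (.add (.mul (.pp [(1, 6423840)]) (.sq [(2, 75), (3, 59), (5, 59), (7, 100)])) (.add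
 (.mul (.g 7) (.mul (.pp [(1, 247530)]) (.sq [(1, 21), (2, 48), (3, 100), (5, -72), (7, -71)])))
 (.mul (.g 10) (.pp [(1, 465923400000)])))) (.add (.mul (.g 12) (.mul (.pp [(1, 4380780)]) (.sq
 [(1, 53), (2, -26), (3, -11), (5, 100), (7, -91)]))) (.add (.mul (.g 15) (.mul (.g 15) (.mul (.g
 16) (.pp [(1, 53692500)])))) (.mul (.g 18) (.mul (.pp [(1, 3750240)]) (.sq [(1, 50), (2, -33), (3,
 -7), (5, -7), (7, -41)]))))))) (.mul (.g 13) (.add (.add (.mul (.g 13) (.add (.mul (.pp [(1,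
 535140)]) (.sq [(1, -53), (2, -23), (3, -21), (5, 100), (7, -22)])) (.mul (.pp [(1, 281520)]) (.sq
 [(1, -5), (2, 50), (3, 24), (5, -10), (7, 49)])))) (.mul (.g 10) (.pp [(1, 692081400000)]))) (.add
 (.mul (.g 14) (.mul (.pp [(1, 1064760)]) (.sq [(1, 100), (2, 51), (3, 22), (5, 80), (7, -50)])))
 (.mul (.g 16) (.mul (.pp [(1, 3278040)]) (.sq [(1, 4), (2, 17), (3, -65), (5, 22), (7,
 100)]))))))) (.add (.mul (.g 7) (.add (.pp [(1, 4343220000)]) (.add (.mul (.g 7) (.mul (.g 16)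
 (.add (.mul (.g 10) (.pp [(1, 224455500)])) (.mul (.g 12) (.pp [(1, 129712500)]))))) (.mul (.g 10)
 (.mul (.pp [(1, 132912)]) (.sq [(1, 41), (2, 48), (3, 50), (5, 49), (7, 48)])))))) (.mul (.g 0)
 (.pp [(1, 200000000000)]))))) (.add (.add (.mul (.g 1) (.pp [(1, 200000000000)])) (.add (.mul (.g
 4) (.pp [(1, 60000000)])) (.mul (.g 10) (.mul (.pp [(1, 5309640)]) (.sq [(2, 100), (3, -7), (5,
 69), (7, -28)]))))) (.add (.add (.mul (.g 12) (.mul (.g 12) (.mul (.pp [(1, 12391500)]) (.sq [(1,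
 -21), (2, 41), (3, -1), (5, 42), (7, 100)])))) (.mul (.g 14) (.mul (.g 15) (.mul (.pp [(1,
 52185)]) (.sq [(1, 1), (2, 44), (3, 100), (5, 37), (7, 48)]))))) (.add (.mul (.g 16) (.pp [(1,
 877760400000)])) (.mul (.g 17) (.pp [(1, 200000000000)])))))) (.pp [(1, 38323164130), (2,
 6458655), (3, 6289995), (4, 5943900), (5, 5147733), (6, 4729080), (7, 7544208), (8, 6259800), (9,
 5468040), (10, 5906238), (12, 5518320), (14, 4688016), (15, 6879510), (16, 5755200), (18,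
 6658260), (20, 5767512), (21, 4393260), (23, 600000000000), (24, 5847480), (25, 5934834), (27,
 6771980), (28, 5095038), (30, 5096400), (35, 7634316), (36, 6329340), (40, 6133500), (42,
 7817160), (45, 6606600), (49, 4319454), (50, 5461647), (54, 6335820), (56, 5668560), (60,
 5968800), (63, 6716940), (70, 5872932), (75, 6541785), (81, 5348820), (84, 6363240), (90,
 6744840), (98, 7717224), (100, 5600760), (105, 5254200), (125, 5980473), (126, 5767680), (135,
 4877040), (140, 6748020), (147, 7533990), (150, 5413560), (175, 6123954), (189, 5433600), (196,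
 6201540), (210, 7322280), (225, 5479080), (245, 5107824), (250, 5803440), (294, 5231880), (315,
 5619300), (343, 6968178), (350, 5477340), (375, 6037560), (441, 5306100), (490, 6334800), (525,
 5530980), (625, 6086700), (686, 5096040), (735, 6214800), (875, 5864640), (1029, 5469300), (1225,
 6252540), (1715, 6164280), (2401, 5790300)]))))))))))
 (.cut 1 [(2, -1), (3, 1)] (.add (.mul (.g 9) (.pp [(1, 1)])) (.mul (.g 5) (.pp [(1, 1)]))) (.rule
 1 (.cut 1 [(2, 1), (5, -1)] (.add (.mul (.g 11) (.pp [(1, 1)])) (.mul (.g 8) (.pp [(1, 1)])))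
 (.rule 2 (.cut 11 [(1, -3), (3, 5)] (.add (.mul (.g 1) (.pp [(1, 40)])) (.add (.mul (.g 12) (.pp
 [(1, 2)])) (.mul (.g 13) (.pp [(1, 15)])))) (.cut 1 [(1, 3), (3, -2)] (.add (.add (.mul (.g 11)
 (.pp [(1, 1)])) (.mul (.g 16) (.pp [(1, 1)]))) (.add (.mul (.g 8) (.pp [(1, 1)])) (.add (.mul (.g
 9) (.pp [(1, 1)])) (.mul (.g 10) (.pp [(1, 1)]))))) (.rule 8 (.rule 23 (.leaf 660000000 (.add
 (.add (.add (.add (.mul (.g 10) (.add (.add (.mul (.g 12) (.add (.add (.mul (.pp [(1,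
 1986980160)]) (.sq [(2, -8), (3, 50), (5, -33), (7, -42)])) (.add (.mul (.g 12) (.add (.add (.pp
 [(1, 13581631800000)]) (.mul (.g 13) (.pp [(1, 10774678200000)]))) (.add (.mul (.g 14) (.pp [(1,
 979948200000)])) (.mul (.g 19) (.pp [(1, 4144701000000)]))))) (.mul (.g 9) (.add (.mul (.g 9) (.pp
 [(1, 113207054400000)])) (.mul (.g 13) (.pp [(1, 13263379800000)])))))) (.add (.mul (.g 11) (.add
 (.pp [(1, 2984150400000)]) (.mul (.g 13) (.pp [(1, 2119009200000)])))) (.add (.mul (.g 10) (.mul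
 (.g 10) (.pp [(1, 1533285600000)]))) (.mul (.g 17) (.mul (.g 19) (.pp [(1, 19022817000000)])))))))
 (.mul (.g 14) (.add (.add (.pp [(1, 1609416600000)]) (.mul (.pp [(1, 2251553040)]) (.sq [(1, 7),
 (2, -8), (3, -10), (5, -4), (7, 50)]))) (.add (.mul (.g 10) (.mul (.g 19) (.pp [(1,
 2081574000000)]))) (.add (.mul (.g 14) (.pp [(1, 2395153200000)])) (.mul (.g 16) (.mul (.g 17)
 (.pp [(1, 44848320000)])))))))) (.add (.mul (.g 13) (.add (.pp [(1, 608493600000)]) (.add (.mul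
 (.g 15) (.add (.mul (.g 15) (.pp [(1, 715849200000)])) (.mul (.g 16) (.pp [(1, 62046270000)]))))
 (.mul (.g 9) (.mul (.g 13) (.pp [(1, 1986072000000)])))))) (.add (.mul (.g 19) (.add (.pp [(1,
 6071419200000)]) (.add (.mul (.g 11) (.add (.mul (.g 10) (.pp [(1, 1201576200000)])) (.mul (.g 11)
 (.pp [(1, 3420813000000)])))) (.mul (.g 8) (.mul (.g 9) (.pp [(1, 5233243620000)])))))) (.mul (.g
 17) (.add (.pp [(1, 4359194400000)]) (.mul (.g 9) (.mul (.g 9) (.pp [(1,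
 102552285000000)]))))))))) (.add (.mul (.g 19) (.add (.add (.add (.mul (.g 12) (.add (.pp [(1,
 19249982400000)]) (.add (.mul (.pp [(1, 186892860)]) (.sq [(1, -83), (2, -20), (3, 99), (5, -22),
 (7, 100)])) (.mul (.g 19) (.add (.mul (.g 14) (.pp [(1, 1976376600000)])) (.mul (.g 17) (.pp [(1,
 14057181600000)]))))))) (.mul (.g 9) (.add (.pp [(1, 9078003000000)]) (.add (.mul (.g 8) (.mul (.g
 11) (.pp [(1, 72861690000)]))) (.mul (.g 9) (.mul (.g 15) (.pp [(1, 523663800000)]))))))) (.add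
 (.mul (.g 14) (.add (.mul (.pp [(1, 52520160)]) (.sq [(1, 11), (2, 13), (3, -30), (5, 100), (7,
 28)])) (.mul (.g 14) (.mul (.g 16) (.pp [(1, 98340000)]))))) (.mul (.g 17) (.add (.mul (.pp [(1,
 696030720)]) (.sq [(1, -27), (2, -3), (3, 28), (5, -13), (7, 100)])) (.mul (.pp [(1, 234721080)])
 (.sq [(1, 53), (2, 40), (3, -33), (5, 22), (7, 100)])))))) (.add (.add (.mul (.g 11) (.pp [(1,
 1403727600000)])) (.mul (.g 13) (.mul (.pp [(1, 59073960)]) (.sq [(1, -51), (2, 39), (3, 21), (5,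
 21), (7, 100)])))) (.add (.mul (.g 15) (.mul (.pp [(1, 80178120)]) (.sq [(1, 22), (2, -28), (3,
 -43), (5, 100), (7, 75)]))) (.mul (.g 19) (.mul (.pp [(1, 1111756800)]) (.sq [(1, 50), (2, -33),
 (3, -7), (5, -7), (7, -41)]))))))) (.mul (.g 17) (.add (.add (.pp [(1, 3700323000000)]) (.add
 (.mul (.g 12) (.add (.mul (.g 12) (.add (.pp [(1, 27109051200000)]) (.add (.mul (.g 13) (.pp [(1,
 5134635000000)])) (.mul (.g 17) (.pp [(1, 28111736400000)]))))) (.add (.mul (.g 9) (.mul (.g 14)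
 (.pp [(1, 1556438400000)]))) (.mul (.g 11) (.pp [(1, 3293789400000)]))))) (.mul (.g 11) (.add
 (.mul (.pp [(1, 35434740)]) (.sq [(1, -34), (2, 88), (3, 100), (5, 100), (7, 45)])) (.mul (.g 11)
 (.mul (.g 17) (.pp [(1, 4099227000000)]))))))) (.add (.mul (.g 8) (.mul (.pp [(1, 27499824)]) (.sq
 [(1, -29), (2, 47), (3, 50), (5, 41), (7, -13)]))) (.add (.mul (.g 9) (.pp [(1, 8187887400000)]))
 (.mul (.g 13) (.mul (.pp [(1, 301250400)]) (.sq [(1, -8), (2, 100), (3, 52), (5, 52), (7,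
 -39)]))))))))) (.add (.mul (.g 14) (.add (.add (.mul (.g 12) (.add (.mul (.pp [(1, 53032320)])
 (.sq [(1, -57), (2, 6), (3, 54), (5, -33), (7, 100)])) (.mul (.g 12) (.add (.pp [(1,
 333458400000)]) (.mul (.g 9) (.pp [(1, 3280411200000)])))))) (.mul (.g 11) (.add (.pp [(1,
 4227854400000)]) (.mul (.g 14) (.pp [(1, 2205489000000)]))))) (.add (.mul (.g 13) (.add (.pp [(1,
 1582072800000)]) (.mul (.pp [(1, 8366820)]) (.sq [(1, -51), (2, 100), (3, 62), (5, 94), (7,
 5)])))) (.mul (.g 16) (.add (.mul (.pp [(1, 756921)]) (.sq [(1, -2), (2, 87), (3, -53), (5, 56),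
 (7, 100)])) (.mul (.g 16) (.mul (.g 16) (.pp [(1, 8410050)])))))))) (.add (.mul (.g 13) (.add
 (.add (.mul (.g 8) (.mul (.pp [(1, 508629)]) (.sq [(1, 58), (2, -100), (3, 93), (5, -90), (7,
 82)]))) (.mul (.g 9) (.pp [(1, 798197400000)]))) (.add (.mul (.g 12) (.mul (.g 12) (.mul (.g 12)
 (.pp [(1, 6199393200000)])))) (.add (.mul (.g 13) (.mul (.pp [(1, 23715120)]) (.sq [(1, 18), (2,
 -50), (3, 45), (5, 45), (7, -45)]))) (.mul (.g 16) (.mul (.pp [(1, 339834)]) (.sq [(1, 13), (3,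
 -26), (5, 23), (7, 100)]))))))) (.mul (.g 9) (.add (.mul (.g 15) (.mul (.pp [(1, 23723700)]) (.sq
 [(1, 20), (2, 42), (3, -63), (5, 2), (7, 100)]))) (.mul (.g 16) (.mul (.pp [(1, 695904)]) (.sq
 [(1, 100), (2, 57), (3, -64), (5, -64), (7, -24)])))))))) (.add (.add (.mul (.g 0) (.pp [(1,
 200000000000)])) (.add (.mul (.g 1) (.pp [(1, 660000000)])) (.mul (.g 4) (.pp [(1,
 2200000000000)])))) (.add (.add (.mul (.g 6) (.pp [(1, 2200000000000)])) (.mul (.g 11) (.mul (.g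
 12) (.mul (.pp [(1, 145597980)]) (.sq [(1, 21), (2, 83), (3, 52), (5, 7), (7, 100)]))))) (.add
 (.mul (.g 15) (.mul (.g 15) (.mul (.pp [(1, 54200520)]) (.sq [(1, -18), (2, -23), (3, 1), (5, 46),
 (7, 100)])))) (.mul (.g 18) (.pp [(1, 2200000000000)])))))) (.pp [(1, 2107826272), (2, 73199348),
 (3, 53954822), (4, 69580753), (5, 52782178), (6, 62240002), (7, 61667892), (8, 69803085), (9,
 75990090), (10, 68519308), (12, 39987101), (14, 49569960), (15, 78392336), (16, 65674620), (18,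
 81824578), (20, 39759819), (21, 89286384), (23, 6600000000000), (24, 70851000), (25, 68509870),
 (27, 57713139), (28, 81650184), (30, 93251642), (35, 81182244), (36, 68845920), (40, 77530200),
 (42, 57976116), (45, 48306203), (49, 70827900), (50, 69124770), (54, 62382540), (56, 53585400),
 (60, 64639080), (63, 53360340), (70, 71049792), (75, 54817664), (81, 68982540), (84, 77909040),
 (90, 60979380), (98, 75061140), (100, 61103460), (105, 47630616), (125, 64469416), (126,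
 58262160), (135, 73069920), (140, 76505220), (147, 60993636), (150, 65758440), (175, 57747360),
 (189, 65439660), (196, 62391780), (210, 44798160), (225, 75519180), (245, 56958000), (250,
 66766920), (294, 57201540), (315, 79438920), (343, 65171040), (350, 54603120), (375, 68909280),
 (441, 68624820), (490, 64402140), (525, 77296560), (625, 66184800), (686, 62339640), (735,
 74443380), (875, 69815460), (1029, 62780520), (1225, 67481040), (1715, 69132360), (2401,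
 65419200)]))))))))))))
 (P_TpA ++ xP_G_T2) = true := by decide +kernel

theorem t_G_T2_TpB_a : chk Rap gP_G_T2
 (.split [(1, 1), (2, -20)]
 (.cut 1 [(1, 5), (5, -4)] (.add (.add (.mul (.g 1) (.pp [(1, 16)])) (.mul (.g 2) (.pp [(1, 4)])))
 (.add (.mul (.g 6) (.pp [(1, 4)])) (.mul (.g 0) (.pp [(1, 1)])))) (.rule 11 (.rule 25 (.rule 4
 (.leaf 33000000 (.add (.add (.add (.add (.mul (.g 6) (.add (.add (.mul (.g 8) (.add (.add (.mul
 (.g 5) (.add (.mul (.g 6) (.pp [(1, 2442660000)])) (.add (.mul (.g 8) (.pp [(1, 50127660000)]))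
 (.mul (.g 9) (.pp [(1, 190047990000)]))))) (.add (.mul (.g 7) (.add (.pp [(1, 10760310000)]) (.add
 (.mul (.g 4) (.pp [(1, 8315241000)])) (.mul (.g 11) (.pp [(1, 5917230000)]))))) (.mul (.g 6) (.add
 (.mul (.g 11) (.pp [(1, 556380000)])) (.mul (.g 15) (.pp [(1, 6600000)])))))) (.add (.mul (.g 13)
 (.add (.pp [(1, 5227860000)]) (.mul (.g 13) (.pp [(1, 6297390000)])))) (.add (.mul (.g 8) (.mul
 (.g 12) (.pp [(1, 352423500)]))) (.mul (.g 9) (.mul (.g 15) (.pp [(1, 4815360000)]))))))) (.add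
 (.mul (.g 6) (.add (.add (.mul (.g 4) (.add (.mul (.g 5) (.pp [(1, 3721624500)])) (.mul (.g 13)
 (.pp [(1, 6221325000)])))) (.mul (.g 6) (.add (.mul (.g 5) (.pp [(1, 8672070000)])) (.mul (.g 9)
 (.pp [(1, 919050000)]))))) (.add (.mul (.g 7) (.mul (.g 15) (.pp [(1, 10893300000)]))) (.mul (.g
 13) (.mul (.g 13) (.pp [(1, 35742960000)])))))) (.mul (.g 7) (.add (.mul (.g 15) (.add (.mul (.g
 4) (.pp [(1, 7772622000)])) (.add (.mul (.g 9) (.pp [(1, 9651180000)])) (.mul (.g 10) (.pp [(1,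
 9247590000)]))))) (.add (.mul (.g 7) (.mul (.g 13) (.pp [(1, 60363600000)]))) (.mul (.g 9) (.mul
 (.g 11) (.pp [(1, 26644860000)])))))))) (.add (.mul (.g 5) (.mul (.g 5) (.add (.pp [(1,
 201660030000)]) (.add (.mul (.g 10) (.pp [(1, 1500510000)])) (.mul (.g 15) (.pp [(1,
 63664920000)])))))) (.add (.mul (.g 4) (.pp [(1, 4381558500)])) (.mul (.g 10) (.pp [(1,
 256045020000)])))))) (.mul (.g 5) (.add (.add (.mul (.g 7) (.add (.add (.pp [(1, 78707970000)])
 (.mul (.g 15) (.add (.mul (.g 5) (.pp [(1, 70326960000)])) (.add (.mul (.g 9) (.pp [(1,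
 35838000000)])) (.mul (.g 15) (.pp [(1, 18266820000)])))))) (.add (.mul (.g 4) (.add (.pp [(1,
 2527222500)]) (.mul (.g 9) (.pp [(1, 465399000)])))) (.mul (.g 8) (.add (.mul (.g 5) (.pp [(1,
 30425670000)])) (.mul (.g 8) (.pp [(1, 89862300000)]))))))) (.add (.mul (.g 4) (.add (.pp [(1,
 15160728000)]) (.add (.mul (.g 5) (.mul (.g 13) (.pp [(1, 810150000)]))) (.mul (.g 8) (.mul (.g
 11) (.pp [(1, 707899500)])))))) (.mul (.g 8) (.add (.pp [(1, 2886180000)]) (.mul (.g 11) (.pp [(1,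
 77498520000)])))))) (.add (.mul (.g 5) (.mul (.g 5) (.mul (.g 9) (.pp [(1, 17778420000)])))) (.add
 (.mul (.g 10) (.mul (.pp [(1, 405636)]) (.sq [(1, 72), (2, 100), (3, 13), (5, 73), (7, 74)])))
 (.mul (.g 13) (.pp [(1, 86704860000)]))))))) (.add (.mul (.g 13) (.add (.add (.mul (.pp [(1,
 238161)]) (.sq [(2, -14), (3, -43), (5, 100), (7, 78)])) (.add (.mul (.g 7) (.add (.add (.pp [(1,
 41630160000)]) (.mul (.g 7) (.add (.mul (.g 7) (.pp [(1, 6341940000)])) (.mul (.g 8) (.pp [(1,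
 24565860000)]))))) (.add (.mul (.g 10) (.mul (.g 13) (.pp [(1, 15195510000)]))) (.mul (.g 11)
 (.mul (.g 15) (.pp [(1, 39425760000)])))))) (.mul (.g 8) (.add (.pp [(1, 966240000)]) (.mul (.g 8)
 (.mul (.g 15) (.pp [(1, 3300000)]))))))) (.add (.mul (.g 10) (.mul (.pp [(1, 116589)]) (.sq [(1,
 -45), (2, 37), (3, 56), (5, -9), (7, 100)]))) (.add (.mul (.g 11) (.mul (.pp [(1, 928884)]) (.sq
 [(1, 53), (2, -2), (3, -40), (5, 100), (7, 94)]))) (.mul (.g 13) (.pp [(1, 9346590000)]))))))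
 (.add (.mul (.g 8) (.add (.mul (.g 15) (.add (.add (.pp [(1, 9735990000)]) (.mul (.g 8) (.add
 (.mul (.g 4) (.pp [(1, 2659635000)])) (.mul (.g 8) (.pp [(1, 3300000)]))))) (.add (.mul (.g 7)
 (.pp [(1, 7961910000)])) (.mul (.g 15) (.pp [(1, 2649570000)]))))) (.mul (.g 4) (.mul (.g 8) (.add
 (.pp [(1, 8190534000)]) (.mul (.g 11) (.pp [(1, 5647983000)]))))))) (.mul (.g 10) (.add (.pp [(1,
 17777760000)]) (.add (.mul (.g 10) (.add (.mul (.pp [(1, 129327)]) (.sq [(1, 40), (2, -91), (3,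
 100), (5, 80), (7, 49)])) (.mul (.g 7) (.pp [(1, 238228320000)])))) (.mul (.g 11) (.add (.mul (.pp
 [(1, 641388)]) (.sq [(1, 48), (2, 10), (3, -3), (5, -37), (7, 100)])) (.mul (.pp [(1, 560307)])
 (.sq [(1, -5), (2, 100), (3, 48), (5, 26), (7, 41)])))))))))) (.add (.add (.mul (.g 15) (.add
 (.mul (.g 4) (.mul (.g 9) (.mul (.g 15) (.pp [(1, 6489549000)])))) (.mul (.g 7) (.mul (.g 7) (.mul
 (.g 7) (.pp [(1, 7382100000)])))))) (.mul (.g 0) (.pp [(1, 110000000000)]))) (.add (.mul (.g 1)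
 (.pp [(1, 10000000000)])) (.add (.mul (.g 2) (.pp [(1, 132000000)])) (.mul (.g 14) (.pp [(1,
 110000000000)])))))) (.pp [(1, 3011270525), (2, 3119962), (3, 3278144), (4, 3038651), (5,
 3144769), (6, 3367496), (7, 3515160), (8, 3177471), (9, 3430724), (10, 2673341), (12, 2819289),
 (14, 3232020), (15, 3799081), (16, 3311913), (18, 3793284), (19, 330000000000), (20, 2506372),
 (21, 2976138), (24, 2907894), (25, 3812721), (27, 3078372), (28, 3135330), (30, 4578508), (35,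
 3704646), (36, 4312209), (40, 2666169), (42, 3489948), (45, 2475583), (49, 3059397), (50,
 4006409), (54, 2848164), (56, 3228786), (60, 4838295), (63, 3096258), (70, 3346200), (75,
 2487397), (81, 3449820), (84, 3776916), (90, 2210868), (98, 3628053), (100, 4086852), (105,
 2963796), (125, 2814372), (126, 3173346), (135, 3700752), (140, 3298944), (147, 3384711), (150,
 2031282), (175, 3007950), (189, 3350952), (196, 3339204), (210, 2571492), (225, 4118532), (245,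
 2766687), (250, 3126453), (294, 3188856), (315, 3746028), (343, 3465000), (350, 3502026), (375,
 3876213), (441, 3371940), (490, 3047880), (525, 3565320), (625, 3308613), (686, 3300000), (735,
 3584856), (875, 3500244), (1029, 3300000), (1225, 3512916), (1715, 3300000), (2401,
 3300000)])))))))
 (.split [(1, -3), (3, 5)]
 (.split [(1, -5), (5, 4)]
 (.cut 5 [(2, 1), (3, -1)] (.add (.mul (.g 0) (.pp [(1, 1)])) (.add (.mul (.g 5) (.pp [(1, 1)]))
 (.mul (.g 8) (.pp [(1, 5)])))) (.rule 0 (.cut 5 [(2, -1), (5, 1)] (.add (.mul (.g 2) (.pp [(1,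
 1)])) (.add (.mul (.g 7) (.pp [(1, 1)])) (.mul (.g 9) (.pp [(1, 5)])))) (.rule 3 (.cut 2 [(1, 3),
 (3, -2)] (.add (.mul (.g 3) (.pp [(1, 9)])) (.add (.mul (.g 11) (.pp [(1, 9)])) (.mul (.g 5) (.pp
 [(1, 1)])))) (.rule 8 (.cut 9 [(1, 9), (5, -5)] (.add (.add (.mul (.g 14) (.pp [(1, 45)])) (.mul
 (.g 7) (.pp [(1, 13)]))) (.add (.mul (.g 13) (.pp [(1, 45)])) (.mul (.g 1) (.pp [(1, 10)]))))
 (.rule 12 (.cut 5 [(1, -2), (2, -1), (3, 1), (5, 2)] (.add (.add (.mul (.g 5) (.pp [(1, 2)]))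
 (.mul (.g 9) (.pp [(1, 1)]))) (.add (.mul (.g 8) (.pp [(1, 2)])) (.mul (.g 15) (.pp [(1, 3)]))))
 (.cut 10 [(1, -1), (2, -2), (3, 2), (5, 2)] (.add (.add (.mul (.g 6) (.pp [(1, 15)])) (.mul (.g
 10) (.pp [(1, 3)]))) (.add (.mul (.g 2) (.pp [(1, 1)])) (.mul (.g 0) (.pp [(1, 5)])))) (.rule 18
 (.leaf 60000000 (.add (.add (.add (.add (.mul (.g 18) (.add (.add (.add (.mul (.g 14) (.add (.add
 (.mul (.g 18) (.add (.add (.mul (.g 15) (.pp [(1, 193381800000)])) (.mul (.g 16) (.pp [(1,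
 35937600000)]))) (.add (.mul (.g 18) (.pp [(1, 16374600000)])) (.mul (.g 21) (.pp [(1,
 966300000)]))))) (.mul (.g 11) (.add (.pp [(1, 92779080000)]) (.add (.mul (.g 15) (.pp [(1,
 87187080000)])) (.mul (.g 22) (.pp [(1, 25689720000)])))))) (.add (.mul (.g 17) (.add (.mul (.g
 15) (.pp [(1, 109003200000)])) (.mul (.g 24) (.pp [(1, 25744200000)])))) (.mul (.g 12) (.mul (.g
 14) (.pp [(1, 20625360000)])))))) (.mul (.g 17) (.add (.add (.mul (.g 13) (.add (.pp [(1,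
 1241340000)]) (.mul (.g 24) (.pp [(1, 17502330000)])))) (.mul (.g 11) (.mul (.g 18) (.pp [(1,
 12636720000)])))) (.add (.mul (.g 12) (.mul (.g 16) (.pp [(1, 18227520000)]))) (.mul (.g 17) (.mul
 (.g 24) (.pp [(1, 77422200000)]))))))) (.add (.mul (.g 18) (.add (.mul (.pp [(1, 1444500)]) (.sq
 [(1, -21), (2, 41), (3, 37), (5, 6), (7, 100)])) (.add (.mul (.pp [(1, 3547620)]) (.sq [(1, -16),
 (2, 47), (3, -93), (5, -12), (7, 100)])) (.mul (.g 16) (.add (.pp [(1, 277861800000)]) (.mul (.g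
 12) (.pp [(1, 44141640000)]))))))) (.mul (.g 15) (.add (.mul (.pp [(1, 5766000)]) (.sq [(1, -4),
 (2, 17), (3, 100), (5, -38), (7, 73)])) (.add (.mul (.pp [(1, 2741760)]) (.sq [(1, -32), (2, 45),
 (3, -64), (5, 19), (7, 100)])) (.mul (.g 21) (.mul (.g 24) (.pp [(1, 1349130000)])))))))) (.add
 (.add (.mul (.g 19) (.add (.mul (.pp [(1, 322560)]) (.sq [(1, 86), (2, -100), (3, 49), (5, 100),
 (7, 20)])) (.mul (.pp [(1, 1760940)]) (.sq [(1, -8), (2, 100), (3, 9), (5, 78), (7, 57)])))) (.mul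
 (.g 11) (.pp [(1, 174613800000)]))) (.add (.mul (.g 12) (.pp [(1, 23468040000)])) (.mul (.g 20)
 (.mul (.pp [(1, 3204360)]) (.sq [(1, -43), (2, 62), (3, -80), (5, 31), (7, 100)]))))))) (.mul (.g
 24) (.add (.add (.mul (.g 17) (.add (.add (.pp [(1, 102862800000)]) (.mul (.pp [(1, 396300)]) (.sq
 [(1, -52), (2, -10), (3, -7), (5, -23), (7, 100)]))) (.add (.mul (.g 15) (.add (.mul (.g 14) (.pp
 [(1, 68856000000)])) (.add (.mul (.g 15) (.pp [(1, 30208800000)])) (.mul (.g 16) (.pp [(1,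
 77315400000)]))))) (.mul (.g 24) (.pp [(1, 89806200000)]))))) (.add (.mul (.g 24) (.add (.pp [(1,
 74325600000)]) (.add (.mul (.pp [(1, 855780)]) (.sq [(1, -100), (2, 80), (3, 49), (5, 10), (7,
 68)])) (.mul (.g 16) (.add (.mul (.g 12) (.pp [(1, 5506560000)])) (.mul (.g 16) (.pp [(1,
 390000000)]))))))) (.mul (.g 11) (.add (.pp [(1, 47720640000)]) (.mul (.pp [(1, 432)]) (.sq [(1,
 90), (2, 50), (3, 100), (5, 62), (7, 53)])))))) (.add (.add (.mul (.g 14) (.add (.mul (.g 14)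
 (.mul (.g 14) (.pp [(1, 65080800000)]))) (.mul (.g 15) (.mul (.g 16) (.pp [(1, 37954800000)])))))
 (.mul (.g 19) (.add (.pp [(1, 198487800000)]) (.mul (.pp [(1, 33780)]) (.sq [(1, 70), (2, 10), (3,
 49), (5, -100), (7, 77)]))))) (.add (.mul (.g 12) (.mul (.pp [(1, 213720)]) (.sq [(1, 100), (2,
 91), (3, 31), (5, 91), (7, 31)]))) (.mul (.g 21) (.mul (.pp [(1, 122721)]) (.sq [(1, 10), (2,
 -74), (3, 100), (5, -8), (7, 47)])))))))) (.add (.mul (.g 12) (.add (.add (.mul (.g 17) (.add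
 (.mul (.g 17) (.add (.mul (.g 11) (.pp [(1, 203760000)])) (.add (.mul (.g 12) (.pp [(1,
 1487304000)])) (.mul (.g 14) (.pp [(1, 1824960000)]))))) (.add (.mul (.g 15) (.mul (.g 21) (.pp
 [(1, 700662000)]))) (.mul (.g 22) (.pp [(1, 13904280000)]))))) (.add (.mul (.g 12) (.add (.pp [(1,
 2569728000)]) (.mul (.g 16) (.mul (.g 16) (.pp [(1, 260784000)]))))) (.mul (.g 11) (.pp [(1,
 16193472000)])))) (.add (.mul (.g 15) (.mul (.g 15) (.mul (.g 15) (.pp [(1, 4631880000)])))) (.add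
 (.mul (.g 16) (.mul (.g 19) (.pp [(1, 27423840000)]))) (.mul (.g 20) (.mul (.pp [(1, 6588)]) (.sq
 [(1, 76), (2, 86), (3, -47), (5, -100), (7, -8)]))))))) (.add (.mul (.g 11) (.add (.add (.mul (.g
 11) (.add (.pp [(1, 36922824000)]) (.add (.mul (.g 13) (.mul (.g 16) (.pp [(1, 6372000)]))) (.mul
 (.g 14) (.mul (.g 15) (.pp [(1, 5625624000)])))))) (.mul (.g 17) (.mul (.g 17) (.add (.mul (.g 15)
 (.pp [(1, 17251200000)])) (.mul (.g 17) (.pp [(1, 1550040000)])))))) (.add (.mul (.g 19) (.add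
 (.mul (.pp [(1, 81708)]) (.sq [(1, 100), (2, 76), (3, 88), (5, 15), (7, 21)])) (.mul (.g 14) (.mul
 (.g 20) (.pp [(1, 13217520000)]))))) (.mul (.g 13) (.mul (.g 16) (.mul (.g 16) (.pp [(1,
 503628000)]))))))) (.mul (.g 19) (.add (.mul (.g 21) (.add (.mul (.pp [(1, 684)]) (.sq [(1, 12),
 (2, 18), (3, -10), (5, 47), (7, -50)])) (.add (.mul (.g 16) (.pp [(1, 6116640000)])) (.mul (.g 21)
 (.pp [(1, 158047500)]))))) (.add (.mul (.g 19) (.add (.pp [(1, 226667400000)]) (.mul (.pp [(1,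
 271380)]) (.sq [(1, -12), (2, 49), (3, 27), (5, 19), (7, 100)])))) (.mul (.g 17) (.mul (.pp [(1,
 669060)]) (.sq [(1, 59), (2, -100), (3, -34), (5, 40), (7, 77)]))))))))) (.add (.add (.mul (.g 0)
 (.pp [(1, 200000000000)])) (.add (.mul (.g 3) (.pp [(1, 2400000000)])) (.mul (.g 5) (.pp [(1,
 60000000)])))) (.add (.mul (.g 7) (.pp [(1, 200000000000)])) (.add (.mul (.g 9) (.pp [(1,
 200000000000)])) (.mul (.g 23) (.pp [(1, 200000000000)])))))) (.pp [(1, 1253302004), (2, 4678692),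
 (3, 6066120), (4, 5374932), (5, 5746548), (6, 6969192), (7, 6139380), (8, 6826160), (9, 7248024),
 (10, 6129552), (12, 5741052), (14, 6846600), (15, 7674696), (16, 5992020), (18, 4764768), (20,
 5253480), (21, 6631536), (24, 5238240), (25, 6266172), (27, 4668456), (28, 6006420), (30,
 9067104), (35, 5568108), (36, 7013220), (40, 6322848), (42, 5884212), (45, 5046348), (49,
 6952521), (50, 6698952), (54, 5552820), (56, 6910080), (60, 6724320), (63, 2455848), (70,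
 7597176), (75, 4654440), (81, 6658560), (84, 4200240), (90, 4313124), (98, 5050608), (100,
 5756112), (105, 5314464), (125, 6083944), (126, 6459060), (135, 6278448), (140, 5423376), (147,
 3780435), (150, 5016312), (175, 5129028), (189, 7047840), (196, 6246780), (210, 5176392), (225,
 6560928), (245, 6223560), (250, 6005880), (294, 5570460), (315, 6899052), (343, 5927919), (350,
 4837104), (375, 6105792), (441, 7152120), (490, 6168948), (525, 7061988), (625, 5788140), (686,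
 5924700), (735, 6755184), (875, 6785472), (1029, 6322140), (1225, 5851788), (1715, 6242052),
 (2401, 5873280)]))))))))))))))
 (.cut 1 [(2, 1), (3, -1)] (.add (.mul (.g 11) (.pp [(1, 1)])) (.mul (.g 8) (.pp [(1, 1)]))) (.rule
 0 (.cut 1 [(2, -1), (5, 1)] (.add (.mul (.g 13) (.pp [(1, 1)])) (.mul (.g 9) (.pp [(1, 1)])))
 (.rule 3 (.cut 13 [(1, 3), (3, -2)] (.add (.add (.mul (.g 3) (.pp [(1, 36)])) (.mul (.g 4) (.pp
 [(1, 9)]))) (.add (.mul (.g 1) (.pp [(1, 36)])) (.mul (.g 5) (.pp [(1, 2)])))) (.rule 8 (.rule 11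
 (.rule 25 (.leaf 660000000 (.add (.add (.add (.add (.mul (.g 21) (.add (.add (.mul (.g 14) (.add
 (.add (.mul (.pp [(1, 6600)]) (.sq [(1, -20), (2, -1), (3, -39), (5, -23), (7, 100)])) (.add (.mul
 (.g 12) (.add (.pp [(1, 877522800000)]) (.add (.mul (.g 11) (.pp [(1, 2058969000000)])) (.mul (.g
 21) (.pp [(1, 206408400000)]))))) (.mul (.g 14) (.add (.mul (.g 9) (.pp [(1, 30956640000)])) (.mul
 (.g 18) (.pp [(1, 2251920000)])))))) (.add (.mul (.g 21) (.add (.pp [(1, 943826400000)]) (.mul (.g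
 16) (.pp [(1, 119829600000)])))) (.add (.mul (.g 10) (.mul (.g 15) (.pp [(1, 179029620000)])))
 (.mul (.g 13) (.mul (.g 13) (.pp [(1, 258112800000)]))))))) (.mul (.g 15) (.add (.add (.mul (.pp
 [(1, 3768600)]) (.sq [(1, 46), (2, -63), (3, 100), (5, -26), (7, 3)])) (.mul (.pp [(1, 1155000)])
 (.sq [(1, 70), (2, -51), (3, -90), (5, 95), (7, -100)]))) (.add (.mul (.pp [(1, 100059300)]) (.sq
 [(1, -51), (2, 39), (3, 21), (5, 21), (7, 100)])) (.add (.mul (.g 8) (.mul (.g 17) (.pp [(1,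
 189627240000)]))) (.mul (.g 12) (.mul (.g 15) (.pp [(1, 134752200000)])))))))) (.add (.mul (.g 9)
 (.add (.mul (.g 13) (.add (.mul (.g 9) (.pp [(1, 8354808000)])) (.mul (.g 13) (.pp [(1,
 282311040000)])))) (.add (.mul (.g 10) (.mul (.g 10) (.pp [(1, 172002600)]))) (.mul (.g 12) (.mul
 (.g 12) (.pp [(1, 79470600000)])))))) (.add (.mul (.g 16) (.add (.add (.pp [(1, 1018591200000)])
 (.mul (.pp [(1, 42487500)]) (.sq [(1, 70), (2, -93), (3, -100), (5, -48), (7, 22)]))) (.add (.mul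
 (.pp [(1, 26610540)]) (.sq [(1, 40), (2, -11), (3, 41), (5, 100), (7, 59)])) (.mul (.g 13) (.mul
 (.g 13) (.pp [(1, 1037368200000)])))))) (.mul (.g 19) (.add (.add (.mul (.g 8) (.mul (.g 12) (.pp
 [(1, 259620240000)]))) (.mul (.g 11) (.mul (.g 11) (.pp [(1, 1227085200000)])))) (.add (.mul (.g
 13) (.mul (.g 13) (.pp [(1, 613272000000)]))) (.mul (.g 21) (.pp [(1, 265735800000)])))))))))
 (.add (.mul (.g 16) (.add (.add (.mul (.g 16) (.add (.add (.pp [(1, 715532400000)]) (.add (.mul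
 (.pp [(1, 4514400)]) (.sq [(1, -12), (2, -4), (3, 21), (5, -69), (7, 100)])) (.mul (.pp [(1,
 18223260)]) (.sq [(1, 100), (2, -44), (3, 29), (5, 29), (7, -31)])))) (.add (.mul (.pp [(1,
 46958340)]) (.sq [(1, 31), (2, 49), (3, 100), (5, 35), (7, -50)])) (.add (.mul (.g 8) (.add (.mul
 (.g 12) (.pp [(1, 144347280000)])) (.mul (.g 13) (.pp [(1, 248223360000)])))) (.mul (.g 17) (.pp
 [(1, 1299018600000)])))))) (.add (.mul (.g 8) (.add (.mul (.pp [(1, 2936076)]) (.sq [(1, -2), (2,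
 96), (3, 100), (5, 26), (7, 7)])) (.add (.mul (.g 12) (.add (.pp [(1, 187591800000)]) (.mul (.g
 12) (.pp [(1, 37645080000)])))) (.mul (.g 13) (.pp [(1, 31499160000)]))))) (.mul (.g 9) (.add (.pp
 [(1, 422623080000)]) (.add (.mul (.g 11) (.add (.mul (.g 11) (.pp [(1, 9587160000)])) (.mul (.g
 12) (.pp [(1, 358476360000)])))) (.mul (.g 9) (.mul (.g 17) (.pp [(1, 35141304000)])))))))) (.add
 (.mul (.g 15) (.add (.mul (.g 11) (.mul (.g 19) (.pp [(1, 1069714800000)]))) (.mul (.g 13) (.mul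
 (.g 14) (.pp [(1, 147549600000)]))))) (.add (.mul (.g 12) (.mul (.pp [(1, 7300260)]) (.sq [(1,
 -7), (2, -35), (3, 1), (5, -5), (7, 100)]))) (.mul (.g 17) (.mul (.pp [(1, 25625820)]) (.sq [(1,
 -11), (2, 100), (3, 57), (5, -59), (7, -81)]))))))) (.mul (.g 15) (.add (.mul (.g 15) (.add (.add
 (.mul (.pp [(1, 7925280)]) (.sq [(1, 18), (2, -50), (3, 45), (5, 45), (7, -45)])) (.mul (.g 9)
 (.add (.mul (.g 12) (.pp [(1, 86529960000)])) (.mul (.g 15) (.pp [(1, 159762240000)]))))) (.add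
 (.mul (.g 14) (.mul (.g 14) (.pp [(1, 231316800000)]))) (.mul (.g 19) (.mul (.g 19) (.pp [(1,
 809674800000)])))))) (.add (.mul (.g 14) (.add (.mul (.g 9) (.add (.mul (.g 11) (.pp [(1,
 303230400000)])) (.mul (.g 19) (.pp [(1, 434439720000)])))) (.mul (.g 8) (.mul (.g 10) (.pp [(1,
 21294966000)]))))) (.mul (.g 19) (.mul (.g 19) (.add (.mul (.g 12) (.pp [(1, 834523800000)]))
 (.mul (.g 13) (.pp [(1, 1262533800000)])))))))))) (.add (.add (.mul (.g 17) (.add (.add (.mul (.pp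
 [(1, 237320160)]) (.sq [(1, 50), (2, 25), (3, 45), (5, -100), (7, 23)])) (.add (.mul (.g 10) (.mul
 (.pp [(1, 715011)]) (.sq [(1, -67), (2, 100), (3, -11), (5, 6), (7, -75)]))) (.mul (.g 11) (.mul
 (.pp [(1, 40434240)]) (.sq [(1, 37), (2, 60), (3, 24), (5, -100), (7, 5)]))))) (.add (.mul (.g 12)
 (.mul (.pp [(1, 187991760)]) (.sq [(1, 1), (2, 34), (3, 29), (5, -50), (7, 13)]))) (.add (.mul (.g
 13) (.mul (.pp [(1, 90672120)]) (.sq [(1, 26), (2, 44), (3, 55), (5, -100), (7, 15)]))) (.mul (.g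
 17) (.mul (.pp [(1, 7302900)]) (.sq [(1, 47), (2, 38), (3, 36), (5, -100), (7, 11)]))))))) (.mul
 (.g 9) (.add (.mul (.g 8) (.mul (.g 8) (.add (.mul (.g 8) (.pp [(1, 1881464640)])) (.mul (.g 12)
 (.pp [(1, 5221180800)]))))) (.add (.mul (.g 9) (.mul (.g 9) (.mul (.g 9) (.pp [(1, 376020480)]))))
 (.mul (.g 13) (.mul (.g 19) (.mul (.g 19) (.pp [(1, 261309840000)])))))))) (.add (.mul (.g 10)
 (.add (.mul (.pp [(1, 1523973)]) (.sq [(1, -45), (2, 100), (3, 35), (5, -43), (7, -61)])) (.mul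
 (.g 12) (.mul (.pp [(1, 13116444)]) (.sq [(1, 27), (2, -50), (3, 19), (5, -4), (7, 43)]))))) (.mul
 (.g 0) (.pp [(1, 200000000000)]))))) (.add (.add (.mul (.g 1) (.pp [(1, 2640000000)])) (.add (.mul
 (.g 2) (.pp [(1, 660000000)])) (.mul (.g 4) (.pp [(1, 2200000000000)])))) (.add (.add (.mul (.g 6)
 (.pp [(1, 2200000000000)])) (.mul (.g 11) (.mul (.g 13) (.mul (.pp [(1, 31816620)]) (.sq [(1, 37),
 (2, 48), (3, 42), (5, -100), (7, -1)]))))) (.add (.mul (.g 14) (.mul (.g 14) (.mul (.g 14) (.mul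
 (.g 19) (.pp [(1, 51579000000)]))))) (.mul (.g 20) (.pp [(1, 2200000000000)])))))) (.pp [(1,
 4957132765), (2, 63111281), (3, 53815045), (4, 70375360), (5, 71766605), (6, 64597126), (7,
 61672710), (8, 67644060), (9, 82967863), (10, 47153524), (12, 70820640), (14, 75845550), (15,
 98441420), (16, 65640300), (18, 57647469), (20, 72706568), (21, 73706688), (24, 58926120), (25,
 81331041), (27, 60902875), (28, 71779620), (30, 74181668), (35, 54066276), (36, 65645580), (40,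
 71033424), (42, 47425290), (45, 43088111), (49, 74255313), (50, 71539072), (54, 71922840), (56,
 66647460), (60, 56326116), (63, 60225726), (70, 56763564), (75, 34749044), (81, 65431080), (84,
 67937760), (90, 75561420), (98, 64736925), (100, 55635624), (105, 70542186), (125, 53363376),
 (126, 64499160), (135, 65462760), (140, 44683056), (147, 68553111), (150, 73095792), (175,
 71866608), (189, 70016100), (196, 68319240), (210, 83858544), (225, 69748800), (245, 70135791),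
 (250, 71634816), (294, 67232880), (315, 70144140), (343, 65557140), (350, 87712020), (375,
 76209276), (441, 57470160), (490, 59633376), (525, 56190024), (625, 64783356), (686, 69002340),
 (735, 61473324), (875, 64932384), (1029, 62080260), (1225, 63772764), (1715, 63400260), (2401,
 66000000)]))))))))))))
 (.split [(1, -7), (3, 50)]
 (.cut 1 [(2, 1), (3, -1)] (.add (.mul (.g 11) (.pp [(1, 1)])) (.mul (.g 8) (.pp [(1, 1)]))) (.rule
 0 (.cut 1 [(2, -1), (5, 1)] (.add (.mul (.g 13) (.pp [(1, 1)])) (.mul (.g 9) (.pp [(1, 1)])))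
 (.rule 3 (.rule 7 (.cut 115 [(1, 2), (5, -1)] (.add (.add (.mul (.g 13) (.pp [(1, 115)])) (.mul
 (.g 5) (.pp [(1, 3)]))) (.add (.mul (.g 12) (.pp [(1, 115)])) (.mul (.g 6) (.pp [(1, 7)]))))
 (.rule 27 (.rule 25 (.leaf 66000000000 (.add (.add (.add (.add (.mul (.pp [(1, 5743980000)]) (.sq
 [(1, -74), (2, -100), (3, 58), (5, 97), (7, 26)])) (.add (.mul (.g 21) (.add (.add (.mul (.g 14)
 (.add (.add (.mul (.pp [(1, 660000)]) (.sq [(1, -77), (2, -24), (3, 46), (5, 34), (7, 100)]))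
 (.add (.mul (.g 15) (.add (.add (.mul (.g 9) (.pp [(1, 6512484000000)])) (.mul (.g 11) (.pp [(1,
 445130400000000)]))) (.add (.mul (.g 14) (.pp [(1, 18166500000000)])) (.add (.mul (.g 16) (.pp
 [(1, 11302500000000)])) (.mul (.g 19) (.pp [(1, 22110000000000)])))))) (.mul (.g 11) (.add (.mul
 (.g 12) (.pp [(1, 233667720000000)])) (.add (.mul (.g 13) (.pp [(1, 37200900000000)])) (.mul (.g
 21) (.pp [(1, 106582080000000)]))))))) (.add (.add (.mul (.g 9) (.add (.mul (.g 9) (.pp [(1,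
 211200000)])) (.mul (.g 14) (.pp [(1, 1188000000)])))) (.mul (.g 13) (.add (.mul (.g 19) (.pp [(1,
 312180000000)])) (.mul (.g 21) (.pp [(1, 40260000000)]))))) (.add (.mul (.g 14) (.mul (.g 19) (.pp
 [(1, 42240000000)]))) (.mul (.g 16) (.pp [(1, 9567360000000)])))))) (.mul (.g 16) (.add (.add
 (.mul (.g 11) (.add (.add (.pp [(1, 25862100000000)]) (.mul (.g 12) (.pp [(1, 230953140000000)])))
 (.add (.mul (.g 13) (.pp [(1, 129860280000000)])) (.mul (.g 15) (.pp [(1, 83835840000000)])))))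
 (.mul (.g 9) (.pp [(1, 1735008000000)]))) (.add (.mul (.g 12) (.mul (.g 12) (.pp [(1,
 9002400000000)]))) (.mul (.g 13) (.mul (.g 13) (.pp [(1, 2823480000000)]))))))) (.add (.mul (.g
 19) (.add (.add (.pp [(1, 102641220000000)]) (.mul (.g 12) (.add (.pp [(1, 62678220000000)]) (.add
 (.mul (.g 11) (.pp [(1, 205178160000000)])) (.mul (.g 12) (.pp [(1, 12604680000000)])))))) (.add
 (.mul (.g 13) (.mul (.g 15) (.pp [(1, 52542600000000)]))) (.mul (.g 19) (.pp [(1,
 42327780000000)]))))) (.add (.mul (.g 9) (.add (.mul (.g 9) (.add (.mul (.g 9) (.pp [(1,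
 756671520000)])) (.mul (.g 12) (.pp [(1, 4143717600000)])))) (.mul (.g 13) (.mul (.g 21) (.pp [(1,
 203412000000)]))))) (.mul (.g 10) (.mul (.pp [(1, 382730700)]) (.sq [(1, -25), (2, 100), (3, 64),
 (5, -36), (7, 6)]))))))) (.mul (.g 15) (.add (.add (.mul (.g 19) (.add (.add (.mul (.g 12) (.add
 (.mul (.g 9) (.pp [(1, 55474452000000)])) (.add (.mul (.g 16) (.pp [(1, 128468340000000)])) (.mul
 (.g 19) (.pp [(1, 112912800000000)]))))) (.mul (.g 13) (.add (.mul (.g 9) (.pp [(1,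
 5812752000000)])) (.add (.mul (.g 13) (.pp [(1, 8731800000000)])) (.mul (.g 19) (.pp [(1,
 79675200000000)])))))) (.add (.mul (.g 14) (.add (.mul (.g 15) (.pp [(1, 74948940000000)])) (.mul
 (.g 18) (.pp [(1, 7289238000000)])))) (.add (.mul (.g 15) (.mul (.g 17) (.pp [(1,
 30600900000000)]))) (.mul (.g 16) (.mul (.g 16) (.pp [(1, 170231160000000)]))))))) (.mul (.g 16)
 (.add (.mul (.g 16) (.add (.mul (.g 12) (.pp [(1, 128431380000000)])) (.add (.mul (.g 13) (.pp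
 [(1, 84633120000000)])) (.mul (.g 18) (.pp [(1, 948618000000)]))))) (.add (.mul (.g 9) (.add (.mul
 (.g 12) (.pp [(1, 6974088000000)])) (.mul (.g 15) (.pp [(1, 15296820000000)])))) (.mul (.g 14)
 (.mul (.g 18) (.pp [(1, 44385000000)]))))))) (.add (.mul (.g 8) (.mul (.g 9) (.mul (.g 9) (.pp
 [(1, 23715120000)])))) (.mul (.g 14) (.mul (.pp [(1, 2004486000)]) (.sq [(1, 6), (2, 75), (3,
 100), (5, 5), (7, -95)])))))))) (.add (.add (.mul (.g 9) (.add (.mul (.g 19) (.add (.pp [(1,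
 4507932000000)]) (.add (.mul (.g 14) (.add (.mul (.g 9) (.pp [(1, 227092800000)])) (.mul (.g 13)
 (.pp [(1, 624096000000)])))) (.mul (.g 12) (.mul (.g 16) (.pp [(1, 2093916000000)])))))) (.mul (.g
 16) (.add (.mul (.g 8) (.mul (.g 14) (.pp [(1, 26400000)]))) (.mul (.g 11) (.mul (.g 18) (.pp [(1,
 69729000000)]))))))) (.mul (.g 10) (.add (.mul (.g 8) (.add (.mul (.pp [(1, 28757190)]) (.sq [(1,
 57), (2, 63), (3, 10), (5, -100), (7, 14)])) (.mul (.pp [(1, 2278254)]) (.sq [(1, 4), (2, 100),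
 (3, 40), (5, -80), (7, -55)])))) (.add (.mul (.g 13) (.add (.mul (.pp [(1, 94393200)]) (.sq [(1,
 79), (2, 42), (3, 20), (5, -100), (7, -7)])) (.mul (.pp [(1, 971094300)]) (.sq [(1, 67), (2, 55),
 (3, -3), (5, -100), (7, 26)])))) (.mul (.g 10) (.mul (.pp [(1, 6083715)]) (.sq [(1, 58), (2, 62),
 (3, 2), (5, -100), (7, 27)]))))))) (.add (.mul (.g 11) (.add (.mul (.pp [(1, 3504006000)]) (.sq
 [(1, 28), (2, 100), (3, -19), (5, -78), (7, -34)])) (.add (.mul (.g 13) (.mul (.pp [(1,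
 11333190000)]) (.sq [(1, 36), (2, 100), (3, -26), (5, -85), (7, -24)]))) (.mul (.g 17) (.mul (.pp
 [(1, 27056832000)]) (.sq [(1, 29), (2, 49), (3, -17), (5, -50), (7, -8)])))))) (.mul (.g 13) (.add
 (.mul (.g 12) (.mul (.pp [(1, 799788000)]) (.sq [(1, 38), (2, 100), (3, -15), (5, -91), (7,
 -29)]))) (.mul (.g 17) (.mul (.pp [(1, 694650000)]) (.sq [(1, 34), (2, 100), (3, -27), (5, -97),
 (7, 21)])))))))) (.add (.add (.add (.mul (.g 16) (.mul (.g 16) (.add (.mul (.g 16) (.mul (.g 19)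
 (.pp [(1, 6542580000000)]))) (.mul (.g 18) (.pp [(1, 1788501000000)]))))) (.mul (.g 0) (.pp [(1,
 20000000000000)]))) (.add (.mul (.g 1) (.pp [(1, 3300000000000)])) (.mul (.g 3) (.pp [(1,
 132000000000)])))) (.add (.add (.mul (.g 4) (.pp [(1, 220000000000000)])) (.mul (.g 6) (.pp [(1,
 220000000000000)]))) (.add (.mul (.g 18) (.mul (.pp [(1, 1269345000)]) (.sq [(1, 79), (2, 62), (3,
 -32), (5, -100), (7, 11)]))) (.mul (.g 20) (.pp [(1, 220000000000000)])))))) (.pp [(1,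
 89750478622), (2, 5402118020), (3, 7327284160), (4, 5816618170), (5, 7847947820), (6, 8816934280),
 (7, 6671336760), (8, 6874645800), (9, 6233668540), (10, 9126917800), (12, 8717976300), (14,
 6997670460), (15, 4309943000), (16, 6773448000), (18, 4900922400), (20, 6584834300), (21,
 7426071180), (24, 6492618000), (25, 5198358000), (27, 6819722800), (28, 6764485200), (30,
 3087425000), (35, 5862958200), (36, 5740416000), (40, 6178722000), (42, 6361594800), (45,
 8182034300), (49, 6431798835), (50, 5576956000), (54, 7389096000), (56, 5966334000), (60,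
 6833772000), (63, 6160255200), (70, 6568676400), (75, 8251680800), (81, 6600000000), (84,
 6055104000), (90, 7140276000), (98, 6682632000), (100, 7220400000), (105, 6766993200), (125,
 7286400000), (126, 7011312000), (135, 5987850000), (140, 7122060000), (147, 6346556700), (150,
 6562644000), (175, 7117822800), (189, 6676560000), (196, 6717414000), (210, 6329532000), (225,
 6282210000), (245, 6931716000), (250, 6194100000), (294, 6665538000), (315, 6202020000), (343,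
 6795544800), (350, 6534594000), (375, 6677022000), (441, 6808560000), (490, 6353622000), (525,
 6399096000), (625, 6618150000), (686, 6304254000), (735, 6370122000), (875, 6524100000), (1029,
 6732000000), (1225, 6602310000), (1715, 6468000000), (2401, 6600000000)])))))))))))
 (.cut 1 [(2, 1), (3, -1)] (.add (.mul (.g 11) (.pp [(1, 1)])) (.mul (.g 8) (.pp [(1, 1)]))) (.rule
 0 (.cut 450 [(2, -1), (5, 1)] (.add (.mul (.g 11) (.pp [(1, 310)])) (.add (.mul (.g 12) (.pp [(1,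
 7)])) (.mul (.g 2) (.pp [(1, 9)])))) (.rule 3 (.cut 1 [(1, 2), (5, -1)] (.add (.mul (.g 12) (.pp
 [(1, 1)])) (.add (.mul (.g 8) (.pp [(1, 1)])) (.mul (.g 11) (.pp [(1, 1)])))) (.rule 27 (.rule 25
 (.leaf 330000000 (.add (.add (.add (.add (.mul (.g 20) (.add (.add (.mul (.g 13) (.add (.add (.pp
 [(1, 131825100000)]) (.add (.mul (.g 13) (.add (.add (.mul (.g 13) (.pp [(1, 33000000)])) (.mul
 (.g 14) (.pp [(1, 99000000)]))) (.add (.mul (.g 15) (.pp [(1, 3300000)])) (.mul (.g 18) (.pp [(1,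
 36300000)]))))) (.mul (.g 9) (.add (.pp [(1, 13080375000)]) (.mul (.g 14) (.pp [(1,
 115691895000)])))))) (.add (.add (.mul (.g 10) (.add (.mul (.g 11) (.pp [(1, 847671000000)]))
 (.mul (.g 20) (.pp [(1, 531831300000)])))) (.mul (.g 7) (.mul (.g 20) (.pp [(1, 198000)])))) (.add
 (.mul (.g 8) (.pp [(1, 2646600000)])) (.mul (.g 18) (.mul (.g 18) (.pp [(1, 33000000)])))))))
 (.add (.mul (.g 11) (.add (.mul (.g 12) (.add (.pp [(1, 19361100000)]) (.add (.mul (.g 8) (.pp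
 [(1, 4235220000)])) (.mul (.g 10) (.pp [(1, 180031500000)]))))) (.mul (.g 7) (.add (.pp [(1,
 4268748000)]) (.mul (.g 8) (.pp [(1, 132000)])))))) (.mul (.g 10) (.add (.mul (.g 20) (.add (.mul
 (.g 8) (.pp [(1, 39617160000)])) (.mul (.g 15) (.pp [(1, 18018000000)])))) (.mul (.g 10) (.mul (.g
 10) (.pp [(1, 321499200000)]))))))) (.add (.mul (.g 18) (.add (.pp [(1, 414922200000)]) (.add
 (.mul (.g 12) (.mul (.g 14) (.pp [(1, 113325300000)]))) (.mul (.g 18) (.mul (.g 18) (.pp [(1,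
 21242100000)])))))) (.add (.mul (.g 15) (.add (.pp [(1, 230660100000)]) (.mul (.g 12) (.pp [(1,
 223297800000)])))) (.mul (.g 9) (.pp [(1, 3748635000)])))))) (.add (.mul (.g 14) (.add (.add (.mul
 (.g 18) (.add (.add (.pp [(1, 216588900000)]) (.add (.mul (.g 14) (.add (.mul (.g 13) (.pp [(1,
 246958800000)])) (.mul (.g 16) (.pp [(1, 117876000000)])))) (.mul (.g 17) (.add (.mul (.g 12) (.pp
 [(1, 10242210000)])) (.mul (.g 17) (.pp [(1, 1851737250)])))))) (.add (.mul (.g 8) (.mul (.g 11)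
 (.pp [(1, 92303640000)]))) (.add (.mul (.g 10) (.pp [(1, 204296400000)])) (.mul (.g 18) (.mul (.g
 18) (.pp [(1, 47714700000)]))))))) (.mul (.g 9) (.add (.add (.mul (.pp [(1, 1237764)]) (.sq [(1,
 16), (2, 100), (3, 45), (5, -47), (7, -43)])) (.mul (.g 13) (.add (.mul (.g 11) (.pp [(1,
 74467305000)])) (.mul (.g 17) (.pp [(1, 1237887750)]))))) (.add (.mul (.g 7) (.mul (.g 12) (.pp
 [(1, 447753900)]))) (.mul (.g 14) (.mul (.g 17) (.pp [(1, 132783750)]))))))) (.add (.mul (.g 7)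
 (.mul (.g 13) (.add (.pp [(1, 2585088000)]) (.mul (.g 16) (.pp [(1, 4127442000)]))))) (.add (.mul
 (.g 10) (.mul (.pp [(1, 3845160)]) (.sq [(1, -46), (2, 100), (3, 48), (5, 48), (7, -35)]))) (.mul
 (.g 12) (.mul (.g 15) (.mul (.g 15) (.pp [(1, 169349400000)])))))))) (.mul (.g 7) (.add (.mul (.g
 11) (.add (.mul (.g 12) (.add (.add (.pp [(1, 31934562000)]) (.mul (.g 10) (.pp [(1,
 8263662000)]))) (.add (.mul (.g 11) (.pp [(1, 849618000)])) (.mul (.g 12) (.pp [(1,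
 850938000)]))))) (.add (.mul (.g 7) (.mul (.g 10) (.pp [(1, 67474440)]))) (.mul (.g 11) (.pp [(1,
 8321676000)]))))) (.add (.mul (.g 13) (.add (.mul (.g 7) (.mul (.g 10) (.pp [(1, 216654240)])))
 (.mul (.g 12) (.mul (.g 17) (.pp [(1, 42414900)]))))) (.mul (.g 15) (.add (.mul (.g 16) (.pp [(1,
 3573636000)])) (.mul (.g 17) (.pp [(1, 566718900)]))))))))) (.add (.mul (.g 17) (.add (.mul (.g
 17) (.add (.mul (.g 18) (.add (.mul (.g 10) (.pp [(1, 2336226750)])) (.add (.mul (.g 12) (.pp [(1,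
 33577500)])) (.mul (.g 13) (.pp [(1, 53022750)]))))) (.mul (.g 17) (.add (.pp [(1, 55175175)])
 (.mul (.g 10) (.pp [(1, 5923500)])))))) (.add (.mul (.g 15) (.mul (.g 15) (.pp [(1,
 3525390000)]))) (.mul (.g 18) (.mul (.g 18) (.pp [(1, 59081715000)])))))) (.add (.mul (.g 12)
 (.add (.mul (.pp [(1, 36250500)]) (.sq [(1, 65), (2, 63), (3, 38), (5, -100), (7, 19)])) (.add
 (.mul (.g 15) (.mul (.g 15) (.add (.mul (.g 11) (.pp [(1, 34735800000)])) (.mul (.g 15) (.pp [(1,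
 13464000000)]))))) (.mul (.g 10) (.mul (.pp [(1, 16585140)]) (.sq [(1, 57), (2, 72), (3, 26), (5,
 -100), (7, 19)])))))) (.mul (.g 10) (.add (.mul (.g 10) (.mul (.pp [(1, 21170490)]) (.sq [(1,
 100), (2, 98), (3, 93), (5, -96), (7, -68)]))) (.mul (.g 18) (.mul (.pp [(1, 1199880)]) (.sq [(1,
 -17), (2, -32), (3, -28), (5, -33), (7, 100)])))))))) (.add (.add (.mul (.g 15) (.add (.mul (.pp
 [(1, 1434180)]) (.sq [(2, -100), (3, -3), (5, 6), (7, 96)])) (.mul (.g 15) (.mul (.g 16) (.pp [(1,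
 45256200000)]))))) (.add (.mul (.g 0) (.pp [(1, 100000000000)])) (.mul (.g 1) (.pp [(1,
 16500000000)])))) (.add (.add (.mul (.g 3) (.pp [(1, 1100000000000)])) (.mul (.g 5) (.pp [(1,
 1100000000000)]))) (.add (.mul (.g 11) (.mul (.g 13) (.mul (.pp [(1, 990)]) (.sq [(1, 7), (2, 73),
 (3, 100), (5, -1), (7, -81)])))) (.mul (.g 19) (.pp [(1, 1100000000000)])))))) (.pp [(1,
 7058904359), (2, 30409996), (3, 33257960), (4, 36925130), (5, 25523794), (6, 26008400), (7,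
 34022736), (8, 22857120), (9, 32963480), (10, 34715516), (12, 35382600), (14, 25343934), (15,
 42120760), (16, 34514040), (18, 33571560), (19, 3300000000000), (20, 39448420), (21, 30278490),
 (24, 37064280), (25, 42045696), (27, 35787620), (28, 32902320), (30, 32245840), (35, 34998678),
 (36, 31122630), (40, 39900960), (42, 43746780), (45, 28289140), (49, 33624756), (50, 30300644),
 (54, 29700000), (56, 32862720), (60, 26083200), (63, 37720320), (70, 36331152), (75, 21934000),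
 (81, 33000000), (84, 35810610), (90, 31339440), (98, 36052764), (100, 25895760), (105, 37038540),
 (125, 28530480), (126, 25146000), (135, 33000000), (140, 28675680), (147, 32253540), (150,
 37049760), (175, 31479360), (189, 33000000), (196, 34587960), (210, 32054220), (225, 36300000),
 (245, 31972380), (250, 36430680), (294, 28207740), (315, 29898000), (343, 31614000), (350,
 35640000), (375, 36300000), (441, 32538000), (490, 31964460), (525, 29699010), (625, 33000000),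
 (686, 33000000), (735, 32839620), (875, 33000000), (1029, 33104610), (1225, 33000000), (1715,
 33000000), (2401, 33000000)])))))))))))))
 (P_TpB ++ xP_G_T2) = true := by decide +kernel

theorem t_G_T4a_TpB_a : chk Rap gP_G_T4a
 (.split [(1, -3), (3, 5)]
 (.cut 1 [(2, 1), (3, -1)] (.add (.mul (.g 9) (.pp [(1, 1)])) (.mul (.g 6) (.pp [(1, 1)]))) (.rule
 0 (.cut 1 [(2, -1), (5, 1)] (.add (.mul (.g 11) (.pp [(1, 1)])) (.mul (.g 7) (.pp [(1, 1)])))
 (.rule 3 (.cut 2 [(1, 3), (3, -2)] (.add (.mul (.g 3) (.pp [(1, 9)])) (.add (.mul (.g 9) (.pp [(1,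
 9)])) (.mul (.g 4) (.pp [(1, 1)])))) (.rule 8 (.cut 2 [(1, 5), (5, -4)] (.add (.add (.mul (.g 12)
 (.pp [(1, 5)])) (.mul (.g 6) (.pp [(1, 1)]))) (.add (.mul (.g 18) (.pp [(1, 3)])) (.mul (.g 11)
 (.pp [(1, 5)])))) (.rule 11 (.cut 1 [(1, 2), (2, 1), (3, -1), (5, -2)] (.add (.mul (.g 14) (.pp
 [(1, 1)])) (.mul (.g 20) (.pp [(1, 1)]))) (.cut 9 [(1, -1), (2, -2), (3, 2), (5, 2)] (.add (.mul
 (.g 6) (.pp [(1, 18)])) (.add (.mul (.g 4) (.pp [(1, 1)])) (.mul (.g 9) (.pp [(1, 4)])))) (.rule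
 20 (.leaf 600000 (.add (.add (.add (.add (.mul (.g 12) (.add (.add (.mul (.g 12) (.add (.mul (.g
 17) (.add (.pp [(1, 194628000)]) (.add (.mul (.g 12) (.pp [(1, 99522000)])) (.mul (.g 14) (.pp
 [(1, 99462000)]))))) (.add (.mul (.g 11) (.mul (.g 22) (.pp [(1, 116748000)]))) (.mul (.g 13)
 (.mul (.g 23) (.pp [(1, 2254944000)])))))) (.add (.mul (.g 16) (.add (.mul (.g 16) (.add (.pp [(1,
 1460058000)]) (.add (.mul (.g 13) (.pp [(1, 391302000)])) (.mul (.g 16) (.pp [(1, 99582000)])))))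
 (.mul (.g 14) (.mul (.g 23) (.pp [(1, 99402000)]))))) (.mul (.g 13) (.mul (.g 23) (.add (.pp [(1,
 1240992000)]) (.mul (.g 22) (.pp [(1, 2354286000)]))))))) (.add (.mul (.g 11) (.mul (.g 11) (.mul
 (.g 11) (.pp [(1, 2034096)])))) (.add (.mul (.g 17) (.mul (.g 18) (.pp [(1, 891990000)]))) (.mul
 (.g 20) (.pp [(1, 11166804000)])))))) (.add (.mul (.g 14) (.add (.add (.mul (.g 14) (.add (.mul
 (.g 20) (.add (.add (.mul (.g 11) (.pp [(1, 70132800)])) (.mul (.g 13) (.pp [(1, 1801416000)])))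
 (.add (.mul (.g 18) (.pp [(1, 60000)])) (.mul (.g 20) (.pp [(1, 58080000)]))))) (.mul (.g 11)
 (.add (.mul (.g 14) (.pp [(1, 13813200)])) (.mul (.g 16) (.pp [(1, 230722800)])))))) (.mul (.g 18)
 (.mul (.g 20) (.add (.mul (.g 13) (.pp [(1, 9146868000)])) (.mul (.g 22) (.pp [(1,
 12362928000)])))))) (.add (.mul (.g 19) (.mul (.g 19) (.pp [(1, 2318595)]))) (.mul (.g 23) (.pp
 [(1, 17696886000)]))))) (.mul (.g 13) (.add (.add (.mul (.g 13) (.mul (.g 13) (.add (.mul (.g 17)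
 (.pp [(1, 37518000)])) (.mul (.g 23) (.pp [(1, 957342000)]))))) (.mul (.g 16) (.mul (.g 18) (.add
 (.mul (.g 18) (.pp [(1, 291840000)])) (.mul (.g 20) (.pp [(1, 1770666000)])))))) (.add (.mul (.g
 11) (.mul (.g 22) (.mul (.g 22) (.pp [(1, 2605200)])))) (.add (.mul (.g 17) (.pp [(1,
 431976000)])) (.mul (.g 23) (.pp [(1, 10710474000)])))))))) (.add (.mul (.g 0) (.pp [(1,
 2000000000)])) (.add (.mul (.g 3) (.pp [(1, 2400000)])) (.mul (.g 5) (.pp [(1, 600000)]))))) (.add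
 (.add (.mul (.g 7) (.pp [(1, 2000000000)])) (.add (.mul (.g 9) (.pp [(1, 2000000000)])) (.mul (.g
 16) (.mul (.g 16) (.pp [(1, 588474000)]))))) (.add (.add (.mul (.g 17) (.mul (.g 17) (.mul (.g 18)
 (.pp [(1, 1161030000)])))) (.mul (.g 20) (.pp [(1, 7994418000)]))) (.add (.mul (.g 21) (.pp [(1,
 2000000000)])) (.mul (.g 22) (.mul (.g 22) (.mul (.g 22) (.mul (.g 22) (.pp [(1,
 82632000)]))))))))) (.pp [(1, 81112000), (2, 62592), (3, 63600), (4, 54000), (5, 59805), (6,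
 65040), (8, 66000), (9, 52800), (10, 61800), (12, 60000), (15, 58200), (16, 60000), (18, 51600),
 (20, 60000), (24, 60000), (25, 58200), (27, 65600), (30, 54000), (36, 60000), (40, 60000), (45,
 66000), (50, 57600), (54, 60000), (60, 60000), (75, 66000), (81, 60000), (90, 60000), (100,
 60000), (125, 62000), (135, 60000), (150, 60000), (225, 60000), (250, 60000), (375, 54000), (625,
 60000)]))))))))))))))
 (.split [(1, -7), (3, 50)]
 (.cut 1 [(2, 1), (3, -1)] (.add (.mul (.g 7) (.pp [(1, 1)])) (.mul (.g 10) (.pp [(1, 1)]))) (.rule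
 0 (.cut 1 [(2, -1), (5, 1)] (.add (.mul (.g 12) (.pp [(1, 1)])) (.mul (.g 8) (.pp [(1, 1)])))
 (.rule 3 (.rule 7 (.cut 43 [(1, 5), (5, -4)] (.add (.add (.mul (.g 12) (.pp [(1, 50)])) (.mul (.g
 5) (.pp [(1, 1)]))) (.add (.mul (.g 18) (.pp [(1, 122)])) (.mul (.g 11) (.pp [(1, 50)])))) (.rule
 11 (.rule 25 (.leaf 1650000000 (.add (.add (.add (.add (.mul (.g 12) (.add (.add (.mul (.g 18)
 (.add (.add (.mul (.g 11) (.add (.mul (.g 11) (.pp [(1, 2750863500000)])) (.add (.mul (.g 12) (.pp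
 [(1, 2152210500000)])) (.mul (.g 20) (.pp [(1, 3761323500000)]))))) (.mul (.g 10) (.mul (.g 12)
 (.pp [(1, 2279145000000)])))) (.add (.mul (.g 14) (.mul (.g 14) (.pp [(1, 361828500000)]))) (.mul
 (.g 16) (.mul (.g 20) (.pp [(1, 7594488000000)])))))) (.add (.mul (.g 10) (.add (.mul (.g 8) (.mul
 (.g 9) (.pp [(1, 442860000)]))) (.add (.mul (.g 10) (.mul (.g 15) (.pp [(1, 438850500000)])))
 (.mul (.g 14) (.mul (.g 17) (.pp [(1, 210243000000)])))))) (.mul (.g 12) (.add (.mul (.g 8) (.mul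
 (.g 9) (.pp [(1, 2032602000)]))) (.mul (.g 14) (.mul (.g 17) (.pp [(1, 27231600000)]))))))) (.add
 (.mul (.g 15) (.mul (.pp [(1, 183960150)]) (.sq [(1, -1), (2, 54), (3, 100), (5, -56)]))) (.add
 (.mul (.g 17) (.mul (.g 17) (.pp [(1, 7695971250)]))) (.mul (.g 21) (.pp [(1,
 4504137000000)])))))) (.add (.mul (.g 10) (.add (.mul (.g 10) (.add (.add (.mul (.pp [(1,
 6177600)]) (.sq [(1, -13), (2, 81), (3, 100), (5, -49)])) (.mul (.g 8) (.add (.mul (.g 10) (.pp
 [(1, 22073370000)])) (.mul (.g 11) (.pp [(1, 3630330000)]))))) (.add (.mul (.g 21) (.add (.mul (.g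
 10) (.pp [(1, 4559428500000)])) (.mul (.g 14) (.pp [(1, 2071344000000)])))) (.mul (.g 15) (.mul
 (.g 17) (.pp [(1, 2034450000)])))))) (.add (.mul (.g 14) (.add (.mul (.g 8) (.mul (.g 8) (.pp [(1,
 63861600)]))) (.mul (.g 9) (.mul (.g 14) (.pp [(1, 231768900000)]))))) (.mul (.g 18) (.pp [(1,
 6009283500000)]))))) (.mul (.g 11) (.add (.mul (.g 11) (.add (.mul (.g 11) (.add (.mul (.g 15)
 (.pp [(1, 72748500000)])) (.mul (.g 21) (.pp [(1, 618172500000)])))) (.mul (.g 21) (.pp [(1,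
 8169348000000)])))) (.add (.mul (.g 8) (.mul (.g 9) (.pp [(1, 1840278000)]))) (.mul (.g 21) (.pp
 [(1, 3148282500000)]))))))) (.add (.mul (.g 16) (.add (.mul (.g 18) (.add (.mul (.pp [(1,
 3542550)]) (.sq [(1, 35), (2, 89), (3, 15), (5, 100)])) (.mul (.pp [(1, 269651250)]) (.sq [(2,
 100), (3, -9), (5, -51)])))) (.add (.mul (.g 8) (.mul (.pp [(1, 465267)]) (.sq [(1, -54), (2, 57),
 (3, 100), (5, -99)]))) (.mul (.g 15) (.mul (.g 15) (.pp [(1, 5135575500000)])))))) (.add (.mul (.g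
 0) (.pp [(1, 500000000000)])) (.mul (.g 1) (.pp [(1, 6600000000)]))))) (.add (.add (.mul (.g 3)
 (.pp [(1, 3300000000)])) (.add (.mul (.g 4) (.pp [(1, 5500000000000)])) (.mul (.g 6) (.pp [(1,
 5500000000000)])))) (.add (.add (.mul (.g 8) (.mul (.g 14) (.mul (.pp [(1, 406956)]) (.sq [(1,
 -11), (2, 50), (3, -72), (5, 100)])))) (.mul (.g 15) (.mul (.g 15) (.mul (.g 17) (.pp [(1,
 28186125000)]))))) (.add (.mul (.g 19) (.pp [(1, 5500000000000)])) (.mul (.g 21) (.pp [(1,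
 2104558500000)])))))) (.pp [(1, 193761316732), (2, 180924914), (3, 151986082), (4, 170269264), (5,
 163649954), (6, 138360508), (8, 153129669), (9, 167962828), (10, 144569788), (12, 178160631), (15,
 196118648), (16, 157766400), (18, 179608572), (20, 163242365), (24, 173004150), (25, 184329948),
 (27, 169199800), (30, 177920666), (36, 165905850), (40, 179029950), (45, 164060600), (50,
 157839847), (54, 165805200), (60, 145685100), (75, 155016719), (81, 165000000), (90, 160914600),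
 (100, 166968450), (125, 159130719), (135, 164505000), (150, 175073250), (225, 150234150), (250,
 170743650), (375, 162858300), (625, 160629150)])))))))))))
 (.cut 1 [(2, 1), (3, -1)] (.add (.mul (.g 7) (.pp [(1, 1)])) (.mul (.g 10) (.pp [(1, 1)]))) (.rule
 0 (.cut 450 [(2, -1), (5, 1)] (.add (.mul (.g 10) (.pp [(1, 310)])) (.add (.mul (.g 11) (.pp [(1,
 7)])) (.mul (.g 2) (.pp [(1, 9)])))) (.rule 3 (.cut 1 [(1, 5), (5, -4)] (.add (.add (.mul (.g 11)
 (.pp [(1, 1)])) (.mul (.g 7) (.pp [(1, 1)]))) (.add (.mul (.g 17) (.pp [(1, 3)])) (.mul (.g 10)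
 (.pp [(1, 1)])))) (.rule 11 (.rule 25 (.leaf 330000000 (.add (.add (.add (.add (.mul (.g 17) (.add
 (.add (.mul (.g 9) (.add (.pp [(1, 262234500000)]) (.add (.mul (.g 11) (.mul (.g 11) (.pp [(1,
 34475100000)]))) (.mul (.g 13) (.mul (.g 20) (.pp [(1, 212308800000)])))))) (.add (.mul (.g 8)
 (.mul (.g 10) (.add (.mul (.g 15) (.pp [(1, 184726740000)])) (.mul (.g 19) (.pp [(1,
 43728300000)]))))) (.mul (.g 13) (.mul (.pp [(1, 50784360)]) (.sq [(1, -30), (2, -100), (3, 19),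
 (5, 97)]))))) (.add (.add (.mul (.g 14) (.mul (.pp [(1, 277349160)]) (.sq [(1, -18), (2, 9), (3,
 -10), (5, 50)]))) (.mul (.g 15) (.mul (.pp [(1, 5748270)]) (.sq [(1, -13), (2, 68), (3, -28), (5,
 100)])))) (.add (.mul (.g 16) (.mul (.pp [(1, 6971613)]) (.sq [(1, -9), (2, 59), (3, -37), (5,
 100)]))) (.mul (.g 19) (.mul (.pp [(1, 16285500)]) (.sq [(1, 95), (2, 100), (3, 95), (5,
 59)]))))))) (.add (.mul (.g 14) (.add (.add (.mul (.g 14) (.add (.add (.mul (.pp [(1, 97962480)])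
 (.sq [(1, 50), (2, -17), (3, 17), (5, 17)])) (.mul (.pp [(1, 133432860)]) (.sq [(1, -39), (2,
 -38), (3, 100), (5, 26)]))) (.add (.mul (.g 9) (.mul (.g 13) (.pp [(1, 8896800000)]))) (.mul (.g
 16) (.pp [(1, 33209055000)]))))) (.mul (.g 8) (.mul (.pp [(1, 2277660)]) (.sq [(1, -21), (2, 100),
 (3, 21), (5, -22)])))) (.add (.mul (.g 9) (.mul (.g 16) (.pp [(1, 9744405000)]))) (.add (.mul (.g
 10) (.mul (.pp [(1, 25030500)]) (.sq [(1, 30), (2, 100), (3, -69), (5, 47)]))) (.mul (.g 20) (.mul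
 (.pp [(1, 26842200)]) (.sq [(1, 7), (2, 100), (3, -6), (5, -16)]))))))) (.mul (.g 20) (.add (.add
 (.pp [(1, 604322400000)]) (.add (.mul (.pp [(1, 14284710)]) (.sq [(2, 32), (3, 100), (5, -51)]))
 (.mul (.g 11) (.add (.pp [(1, 24532200000)]) (.mul (.g 19) (.mul (.g 19) (.pp [(1,
 231438900000)]))))))) (.add (.mul (.g 9) (.mul (.pp [(1, 36842520)]) (.sq [(1, 16), (2, 50), (3,
 -1), (5, -42)]))) (.add (.mul (.g 10) (.pp [(1, 1683287100000)])) (.mul (.g 15) (.mul (.pp [(1,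
 340736880)]) (.sq [(1, -19), (2, 12), (3, -18), (5, 50)]))))))))) (.add (.mul (.g 10) (.add (.add
 (.mul (.g 7) (.add (.pp [(1, 35610432000)]) (.mul (.g 10) (.mul (.g 10) (.pp [(1,
 3981318000)]))))) (.mul (.g 9) (.mul (.g 9) (.mul (.g 9) (.pp [(1, 310130700000)]))))) (.add (.mul
 (.g 10) (.mul (.pp [(1, 6231390)]) (.sq [(1, 68), (2, 69), (3, 100), (5, 47)]))) (.mul (.g 13)
 (.mul (.pp [(1, 1375770)]) (.sq [(1, 76), (2, -81), (3, -100), (5, 68)])))))) (.add (.mul (.g 16)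
 (.add (.mul (.g 16) (.mul (.g 16) (.add (.pp [(1, 41862975)]) (.mul (.g 19) (.pp [(1,
 104463150)]))))) (.mul (.g 9) (.mul (.g 11) (.mul (.g 13) (.pp [(1, 102661020000)])))))) (.mul (.g
 0) (.pp [(1, 100000000000)]))))) (.add (.add (.mul (.g 1) (.pp [(1, 1320000000)])) (.add (.mul (.g
 3) (.pp [(1, 1100000000000)])) (.mul (.g 5) (.pp [(1, 1100000000000)])))) (.add (.mul (.g 9) (.mul
 (.g 9) (.mul (.g 9) (.mul (.g 13) (.pp [(1, 212124000000)]))))) (.add (.mul (.g 15) (.mul (.g 19)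
 (.mul (.pp [(1, 33779790)]) (.sq [(1, -72), (2, -81), (3, 85), (5, 100)])))) (.mul (.g 18) (.pp
 [(1, 1100000000000)])))))) (.pp [(1, 3026031548), (2, 34787644), (3, 29936378), (4, 31087463), (5,
 25522507), (6, 31812242), (8, 31003170), (9, 31364267), (10, 30214316), (12, 40025040), (15,
 41359912), (16, 32593440), (18, 36916770), (19, 3300000000000), (20, 41933947), (24, 34187340),
 (25, 42263760), (27, 36851870), (30, 21037918), (36, 30834540), (40, 32262780), (45, 36367243),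
 (50, 33211640), (54, 34059630), (60, 33467610), (75, 28254160), (81, 34396230), (90, 31894500),
 (100, 31260900), (125, 26327730), (135, 32960070), (150, 35046660), (225, 33078210), (250,
 32536680), (375, 34623600), (625, 36426720)]))))))))))))
 (P_TpB ++ xP_G_T4a) = true := by decide +kernel

end Pool.Agent.Helper62.TW
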