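import Pool.Agent.Helper62.TW.Goals

/-!
# Case trees, part 8 (generated)
-/

set_option autoImplicit false
set_option maxRecDepth 100000
set_option linter.all false

namespace Pool.Agent.Helper62.TW

open Pool.Agent.Helper83.Cert

theorem t_A_F7_Op1 : chk ROp gP_A_F7
 (.cut 1 [(2, -1), (3, 1)] (.add (.mul (.g 8) (.pp [(1, 1)])) (.mul (.g 4) (.pp [(1, 1)]))) (.rule
 1 (.cut 1 [(2, 1), (5, -1)] (.add (.mul (.g 10) (.pp [(1, 1)])) (.mul (.g 7) (.pp [(1, 1)])))
 (.rule 2 (.cut 11 [(1, -69), (3, 100)] (.add (.mul (.g 1) (.pp [(1, 620)])) (.add (.mul (.g 11)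
 (.pp [(1, 31)])) (.mul (.g 12) (.pp [(1, 480)])))) (.cut 1 [(1, 3), (3, -2)] (.add (.add (.mul (.g
 10) (.pp [(1, 1)])) (.mul (.g 15) (.pp [(1, 1)]))) (.add (.mul (.g 7) (.pp [(1, 1)])) (.add (.mul
 (.g 8) (.pp [(1, 1)])) (.mul (.g 9) (.pp [(1, 1)]))))) (.rule 8 (.rule 15 (.leaf 660000000 (.add
 (.add (.add (.add (.mul (.g 10) (.add (.add (.mul (.g 18) (.add (.add (.mul (.g 10) (.add (.add
 (.pp [(1, 587241600000)]) (.mul (.g 9) (.pp [(1, 2262196200000)]))) (.add (.mul (.g 10) (.pp [(1,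
 57208800000)])) (.mul (.g 11) (.pp [(1, 310754400000)]))))) (.mul (.g 11) (.add (.mul (.g 15) (.pp
 [(1, 53777460000)])) (.mul (.g 18) (.pp [(1, 30676800000)]))))) (.add (.mul (.g 8) (.mul (.g 8)
 (.pp [(1, 59551800000)]))) (.add (.mul (.g 9) (.mul (.g 9) (.pp [(1, 2041439400000)]))) (.mul (.g
 14) (.mul (.g 18) (.pp [(1, 1406842800000)]))))))) (.add (.mul (.g 16) (.add (.add (.mul (.g 10)
 (.add (.mul (.g 10) (.pp [(1, 743569200000)])) (.mul (.g 16) (.pp [(1, 2006532000000)])))) (.mul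
 (.g 13) (.add (.mul (.g 11) (.pp [(1, 1399477200000)])) (.mul (.g 14) (.pp [(1,
 268144800000)]))))) (.add (.mul (.g 8) (.mul (.g 8) (.pp [(1, 1661616000000)]))) (.mul (.g 9)
 (.mul (.g 9) (.pp [(1, 1733773800000)])))))) (.mul (.g 9) (.add (.mul (.g 11) (.add (.pp [(1,
 163488600000)]) (.add (.mul (.g 10) (.pp [(1, 812856000000)])) (.mul (.g 14) (.pp [(1,
 1781320200000)]))))) (.mul (.g 12) (.mul (.g 12) (.pp [(1, 1409694000000)]))))))) (.add (.add
 (.mul (.g 13) (.add (.pp [(1, 3386479800000)]) (.add (.mul (.pp [(1, 2164140)]) (.sq [(1, -55),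
 (2, -39), (3, 81), (5, -82), (7, 100)])) (.mul (.g 13) (.pp [(1, 2103175800000)]))))) (.mul (.g
 12) (.add (.mul (.pp [(1, 17513760)]) (.sq [(1, 51), (2, -20), (3, 100), (5, 100), (7, 11)]))
 (.mul (.g 14) (.mul (.g 14) (.pp [(1, 20592000000)])))))) (.add (.mul (.g 10) (.mul (.pp [(1,
 96676800)]) (.sq [(1, -17), (2, -3), (3, 50), (5, -31), (7, -37)]))) (.mul (.g 11) (.pp [(1,
 1262012400000)])))))) (.add (.mul (.g 11) (.add (.add (.mul (.g 8) (.add (.add (.pp [(1,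
 4204820400000)]) (.mul (.g 11) (.add (.mul (.g 15) (.pp [(1, 9901650000)])) (.mul (.g 16) (.pp
 [(1, 2909121600000)]))))) (.add (.mul (.g 12) (.mul (.g 14) (.pp [(1, 428630400000)]))) (.mul (.g
 13) (.mul (.g 16) (.pp [(1, 933028800000)])))))) (.add (.mul (.g 9) (.add (.mul (.pp [(1,
 85945200)]) (.sq [(1, -33), (2, 30), (3, 16), (5, 100), (7, -57)])) (.add (.mul (.g 9) (.add (.pp
 [(1, 1907763000000)]) (.mul (.g 18) (.pp [(1, 328112400000)])))) (.mul (.g 11) (.mul (.g 12) (.pp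
 [(1, 1516264200000)])))))) (.mul (.g 12) (.add (.mul (.pp [(1, 20742480)]) (.sq [(1, -35), (2,
 37), (3, 100), (5, 31), (7, -64)])) (.add (.mul (.g 11) (.mul (.g 13) (.pp [(1, 138263400000)])))
 (.mul (.g 15) (.mul (.g 16) (.pp [(1, 58763760000)])))))))) (.add (.add (.mul (.g 11) (.pp [(1,
 611661600000)])) (.mul (.g 13) (.mul (.pp [(1, 9308640)]) (.sq [(1, 50), (2, -100), (3, -48), (5,
 9), (7, 60)])))) (.add (.mul (.g 16) (.pp [(1, 49077600000)])) (.mul (.g 18) (.mul (.pp [(1,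
 1746360)]) (.sq [(1, -81), (2, 90), (3, 50), (5, -12), (7, -100)]))))))) (.mul (.g 9) (.add (.add
 (.mul (.g 13) (.add (.pp [(1, 2019382200000)]) (.add (.mul (.g 13) (.pp [(1, 3115292400000)]))
 (.mul (.g 15) (.mul (.g 16) (.pp [(1, 11796840000)])))))) (.add (.mul (.g 8) (.mul (.g 8) (.add
 (.mul (.g 16) (.pp [(1, 1744406400000)])) (.mul (.g 18) (.pp [(1, 368055600000)]))))) (.mul (.g 9)
 (.mul (.g 9) (.mul (.g 15) (.pp [(1, 42041670000)])))))) (.add (.mul (.g 12) (.pp [(1,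
 519433200000)])) (.add (.mul (.g 16) (.pp [(1, 368794800000)])) (.mul (.g 18) (.mul (.pp [(1,
 130170480)]) (.sq [(1, 78), (2, 100), (3, -65), (5, -65), (7, 47)]))))))))) (.add (.mul (.g 12)
 (.add (.add (.mul (.g 16) (.add (.mul (.pp [(1, 81547620)]) (.sq [(1, 13), (2, 93), (3, 100), (5,
 100), (7, -60)])) (.mul (.pp [(1, 22257840)]) (.sq [(1, -23), (2, 100), (3, 71), (5, -73), (7,
 54)])))) (.mul (.g 12) (.pp [(1, 804480600000)]))) (.add (.mul (.g 13) (.pp [(1, 564808200000)]))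
 (.add (.mul (.g 14) (.mul (.pp [(1, 61401120)]) (.sq [(1, 3), (2, 49), (3, 100), (5, -36), (7,
 -86)]))) (.mul (.g 15) (.mul (.pp [(1, 190146)]) (.sq [(1, 3), (2, 47), (3, 100), (5, -39), (7,
 -88)]))))))) (.add (.mul (.g 13) (.add (.add (.pp [(1, 91423200000)]) (.mul (.pp [(1, 1888920)])
 (.sq [(2, -100), (3, -25), (5, -75), (7, 97)]))) (.add (.mul (.g 15) (.add (.mul (.pp [(1,
 608553)]) (.sq [(2, 5), (3, -41), (5, 73), (7, 100)])) (.mul (.g 15) (.mul (.g 15) (.pp [(1,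
 1695375)]))))) (.mul (.g 8) (.mul (.g 14) (.pp [(1, 1636806600000)])))))) (.mul (.g 18) (.add
 (.add (.pp [(1, 1680393000000)]) (.mul (.pp [(1, 67793880)]) (.sq [(2, 75), (3, 59), (5, 59), (7,
 100)]))) (.add (.mul (.g 14) (.mul (.g 14) (.mul (.g 14) (.pp [(1, 21667800000)])))) (.mul (.g 18)
 (.mul (.pp [(1, 3092760)]) (.sq [(1, 100), (2, -43), (3, -15), (5, -15), (7, -75)]))))))))) (.add
 (.add (.mul (.g 8) (.add (.mul (.g 16) (.add (.pp [(1, 3638250000000)]) (.mul (.g 8) (.mul (.g 16)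
 (.pp [(1, 2460790200000)]))))) (.mul (.g 15) (.mul (.pp [(1, 5187072)]) (.sq [(1, 50), (2, 37),
 (3, -29), (5, -29), (7, -6)]))))) (.add (.mul (.g 0) (.pp [(1, 200000000000)])) (.mul (.g 1) (.pp
 [(1, 660000000)])))) (.add (.add (.mul (.g 4) (.pp [(1, 2200000000000)])) (.mul (.g 6) (.pp [(1,
 2200000000000)]))) (.add (.mul (.g 16) (.pp [(1, 3178507200000)])) (.mul (.g 17) (.pp [(1,
 2200000000000)])))))) (.pp [(1, 127641875341), (2, 64467977), (3, 47182265), (4, 68208943), (5,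
 57170749), (6, 68785090), (7, 58018488), (8, 69021711), (9, 82236957), (10, 58404742), (12,
 64660277), (14, 68851464), (15, 77146058), (16, 64568460), (18, 77662255), (20, 67003101), (21,
 83402880), (24, 60431580), (25, 74337307), (27, 54046443), (28, 54971136), (30, 94532174), (35,
 75247656), (36, 68349600), (40, 68401740), (42, 54633744), (45, 49447145), (49, 82341336), (50,
 74643657), (54, 61081680), (56, 68109360), (60, 72001380), (63, 62684160), (70, 76024608), (75,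
 52964549), (81, 68158860), (84, 81721200), (90, 43509180), (98, 58996872), (100, 63726300), (105,
 54898800), (125, 59561227), (126, 55178640), (135, 74075100), (140, 58243680), (147, 42515880),
 (150, 60693600), (175, 59980800), (189, 66736560), (196, 63493320), (210, 46627680), (225,
 69294060), (245, 51090600), (250, 65135400), (294, 80031600), (315, 78658800), (343, 58879920),
 (350, 73262640), (375, 68713920), (441, 66469920), (490, 66599280), (525, 71538720), (625,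
 67851300), (686, 67312080), (735, 71082000), (875, 59600640), (1029, 69479520), (1225, 71196840),
 (1715, 66858000), (2401, 66825000)])))))))))))
 (P_Op1 ++ xP_A_F7) = true := by decide +kernel

theorem t_A_F8_c4 : chk RFp gP_A_F8
 (.rule 5 (.rule 6 (.leaf 30000000 (.add (.add (.add (.add (.mul (.g 5) (.add (.add (.mul (.g 4)
 (.add (.add (.pp [(1, 22776900000)]) (.add (.mul (.g 5) (.add (.add (.mul (.g 4) (.pp [(1,
 1060800000)])) (.mul (.g 5) (.pp [(1, 1572600000)]))) (.add (.mul (.g 6) (.pp [(1, 5833500000)]))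
 (.mul (.g 9) (.pp [(1, 755415000)]))))) (.mul (.g 11) (.add (.pp [(1, 2208900000)]) (.add (.mul
 (.g 2) (.pp [(1, 35454600000)])) (.mul (.g 8) (.pp [(1, 14587200000)]))))))) (.add (.add (.mul (.g
 3) (.add (.mul (.g 4) (.pp [(1, 14601300000)])) (.mul (.g 9) (.pp [(1, 420000)])))) (.mul (.g 2)
 (.mul (.g 6) (.pp [(1, 94500000)])))) (.add (.mul (.g 4) (.mul (.g 4) (.pp [(1, 15124800000)])))
 (.mul (.g 7) (.mul (.g 8) (.pp [(1, 17400000)]))))))) (.add (.mul (.g 5) (.add (.mul (.g 3) (.add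
 (.mul (.g 5) (.pp [(1, 508800000)])) (.add (.mul (.g 6) (.pp [(1, 92700000)])) (.mul (.g 11) (.pp
 [(1, 511800000)]))))) (.add (.mul (.g 5) (.add (.mul (.g 5) (.pp [(1, 522300000)])) (.mul (.g 6)
 (.pp [(1, 20861400000)])))) (.mul (.g 9) (.add (.mul (.g 2) (.pp [(1, 3855000)])) (.mul (.g 7)
 (.pp [(1, 360000)]))))))) (.mul (.g 11) (.add (.add (.pp [(1, 43663200000)]) (.mul (.g 2) (.add
 (.pp [(1, 27724200000)]) (.add (.mul (.g 6) (.pp [(1, 83700000)])) (.mul (.g 11) (.pp [(1,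
 20858400000)])))))) (.add (.mul (.g 3) (.pp [(1, 618300000)])) (.mul (.g 11) (.mul (.g 11) (.pp
 [(1, 525300000)])))))))) (.add (.mul (.g 9) (.add (.mul (.g 2) (.pp [(1, 1030290000)])) (.add
 (.mul (.g 3) (.pp [(1, 697995000)])) (.mul (.g 7) (.pp [(1, 698640000)]))))) (.add (.mul (.g 2)
 (.mul (.g 6) (.mul (.g 6) (.pp [(1, 7800000)])))) (.mul (.g 8) (.mul (.g 8) (.mul (.g 8) (.pp [(1,
 3300000)])))))))) (.mul (.g 4) (.add (.add (.pp [(1, 7032300000)]) (.mul (.g 4) (.add (.pp [(1,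
 5480100000)]) (.add (.mul (.g 11) (.add (.pp [(1, 12300000)]) (.add (.mul (.g 3) (.pp [(1,
 1500000)])) (.mul (.g 8) (.pp [(1, 1800000)]))))) (.mul (.g 2) (.add (.mul (.g 2) (.pp [(1,
 45279900000)])) (.mul (.g 6) (.pp [(1, 45265500000)])))))))) (.add (.mul (.g 6) (.add (.add (.pp
 [(1, 17213700000)]) (.mul (.g 3) (.add (.pp [(1, 20037600000)]) (.mul (.g 6) (.pp [(1,
 41400000)]))))) (.add (.mul (.g 2) (.mul (.g 2) (.pp [(1, 36000000)]))) (.mul (.g 11) (.mul (.g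
 11) (.pp [(1, 6300000)])))))) (.add (.mul (.g 7) (.add (.pp [(1, 5372100000)]) (.add (.mul (.pp
 [(1, 120)]) (.sq [(1, -1), (2, 54), (3, -42), (5, 100), (7, -3)])) (.mul (.g 2) (.pp [(1,
 45356700000)]))))) (.mul (.g 3) (.add (.mul (.g 3) (.mul (.g 3) (.pp [(1, 4500000)]))) (.mul (.g
 11) (.pp [(1, 8700000)]))))))))) (.add (.mul (.g 2) (.add (.mul (.g 2) (.add (.mul (.g 6) (.add
 (.pp [(1, 33600000)]) (.add (.mul (.g 3) (.pp [(1, 27600000)])) (.mul (.g 6) (.pp [(1,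
 12600000)]))))) (.add (.mul (.g 11) (.add (.pp [(1, 45263400000)]) (.mul (.g 3) (.pp [(1,
 19800000)])))) (.mul (.g 7) (.mul (.g 9) (.pp [(1, 435000)])))))) (.add (.mul (.g 7) (.add (.mul
 (.g 7) (.mul (.g 8) (.pp [(1, 900000)]))) (.mul (.g 9) (.pp [(1, 4995960000)])))) (.mul (.g 3)
 (.mul (.g 11) (.pp [(1, 34591500000)])))))) (.mul (.g 3) (.add (.add (.mul (.g 3) (.add (.mul (.g
 6) (.mul (.g 8) (.pp [(1, 3600000)]))) (.mul (.g 7) (.mul (.g 11) (.pp [(1, 7200000)]))))) (.mul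
 (.g 9) (.add (.mul (.pp [(1, 33)]) (.sq [(1, 49), (2, 19), (3, -61), (5, 59), (7, 100)])) (.mul
 (.g 6) (.pp [(1, 4845000)]))))) (.add (.mul (.g 7) (.mul (.g 8) (.mul (.g 8) (.pp [(1,
 1800000)])))) (.mul (.g 11) (.pp [(1, 14595900000)]))))))) (.add (.add (.mul (.g 9) (.add (.pp
 [(1, 782220000)]) (.add (.mul (.g 7) (.add (.pp [(1, 5535000)]) (.mul (.pp [(1, 30)]) (.sq [(1,
 14), (2, 100), (3, 77), (5, -3), (7, 62)])))) (.mul (.g 6) (.pp [(1, 8982045000)]))))) (.mul (.g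
 11) (.add (.pp [(1, 14052000000)]) (.mul (.g 6) (.pp [(1, 1020900000)]))))) (.add (.mul (.g 0)
 (.pp [(1, 100000000000)])) (.add (.mul (.g 1) (.pp [(1, 100000000000)])) (.mul (.g 10) (.pp [(1,
 400000000)])))))) (.pp [(1, 315352920), (2, 2876520), (3, 3014697), (4, 3108600), (5, 2491680),
 (6, 3055194), (7, 2628720), (8, 2795000), (9, 3082584), (10, 3166560), (12, 3252737), (14,
 3028320), (15, 3230454), (16, 3000000), (18, 2890184), (20, 3115640), (21, 2973240), (24,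
 3178260), (25, 3217230), (27, 2985987), (28, 3129600), (30, 2470014), (35, 3728520), (36,
 2509260), (40, 3190080), (42, 3032160), (45, 2770464), (49, 3377880), (50, 2425670), (54,
 3410940), (56, 2940000), (60, 2698500), (63, 2743440), (70, 3043320), (75, 3398727), (81,
 2901540), (84, 3256800), (90, 3403080), (98, 3179280), (100, 2779320), (105, 2987160), (125,
 2917770), (126, 2522400), (135, 3044100), (140, 3235680), (147, 2985720), (150, 3541020), (175,
 2337960), (189, 3280800), (196, 2906400), (210, 2479680), (225, 2865300), (245, 2249640), (250,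
 3325200), (294, 3187200), (315, 3428640), (343, 2700000), (350, 2819520), (375, 2728140), (441,
 2906400), (490, 2586120), (525, 3152640), (625, 3005400), (686, 3000000), (735, 3113880), (875,
 3304800), (1029, 3000000), (1225, 3507480), (1715, 3300000), (2401, 3000000)])))))
 (P_c4 ++ xP_A_F8) = true := by decide +kernel

theorem t_A_T2_TpA_b : chk Rbp gP_A_T2
 (.split [(1, 1), (2, -20)]
 (.cut 1 [(1, 5), (3, -4)] (.add (.add (.mul (.g 1) (.pp [(1, 16)])) (.mul (.g 6) (.pp [(1, 4)])))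
 (.add (.mul (.g 3) (.pp [(1, 4)])) (.mul (.g 0) (.pp [(1, 1)])))) (.rule 8 (.cut 1 [(1, 2), (2,
 1), (3, -2), (5, -1)] (.add (.mul (.g 8) (.pp [(1, 1)])) (.add (.mul (.g 13) (.pp [(1, 1)])) (.mul
 (.g 6) (.pp [(1, 1)])))) (.cut 100 [(1, -1), (2, -2), (3, 2), (5, 2)] (.add (.add (.mul (.g 11)
 (.pp [(1, 9)])) (.mul (.g 12) (.pp [(1, 20)]))) (.add (.mul (.g 6) (.pp [(1, 20)])) (.mul (.g 3)
 (.pp [(1, 1)])))) (.rule 16 (.rule 4 (.leaf 60000000 (.add (.add (.add (.add (.mul (.g 10) (.add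
 (.add (.mul (.g 8) (.add (.add (.pp [(1, 807519000000)]) (.add (.mul (.g 7) (.add (.add (.pp [(1,
 138517800000)]) (.mul (.g 7) (.pp [(1, 6000000)]))) (.add (.mul (.g 8) (.pp [(1, 675281400000)]))
 (.mul (.g 10) (.pp [(1, 2131003200000)]))))) (.mul (.g 9) (.add (.add (.pp [(1, 18104400000)])
 (.mul (.g 8) (.pp [(1, 81235200000)]))) (.add (.mul (.g 9) (.pp [(1, 4800000)])) (.mul (.g 10)
 (.pp [(1, 11400000)]))))))) (.add (.mul (.g 10) (.add (.mul (.g 6) (.pp [(1, 107014740000)]))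
 (.mul (.g 10) (.pp [(1, 3600000)])))) (.add (.mul (.g 8) (.mul (.g 8) (.pp [(1, 81226800000)])))
 (.mul (.g 14) (.mul (.g 15) (.pp [(1, 97170000)]))))))) (.add (.mul (.g 7) (.add (.add (.pp [(1,
 186537000000)]) (.mul (.g 9) (.add (.mul (.g 9) (.pp [(1, 11067000000)])) (.mul (.g 10) (.pp [(1,
 168281400000)]))))) (.add (.mul (.g 13) (.add (.pp [(1, 86621400000)]) (.mul (.g 7) (.pp [(1,
 14818800000)])))) (.mul (.g 10) (.mul (.g 15) (.pp [(1, 177574800000)])))))) (.mul (.g 10) (.add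
 (.mul (.g 10) (.add (.mul (.g 11) (.pp [(1, 52694400000)])) (.mul (.g 17) (.pp [(1, 4200000)]))))
 (.add (.mul (.g 6) (.mul (.g 13) (.pp [(1, 7672680000)]))) (.mul (.g 9) (.pp [(1,
 54055800000)]))))))) (.add (.add (.mul (.g 9) (.add (.pp [(1, 463589400000)]) (.mul (.g 9) (.pp
 [(1, 17865600000)])))) (.mul (.g 17) (.add (.pp [(1, 53572800000)]) (.mul (.pp [(1, 1440)]) (.sq
 [(1, 50), (2, 31), (3, 41), (5, 41), (7, 41)]))))) (.add (.mul (.g 6) (.mul (.pp [(1, 55341)])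
 (.sq [(1, 83), (2, 67), (3, 100), (5, 100), (7, 67)]))) (.mul (.g 15) (.pp [(1,
 53962800000)])))))) (.add (.mul (.g 9) (.add (.add (.mul (.g 7) (.add (.add (.pp [(1,
 409812600000)]) (.mul (.g 6) (.add (.mul (.g 9) (.pp [(1, 827970000)])) (.mul (.g 13) (.pp [(1,
 2043600000)]))))) (.add (.mul (.g 11) (.add (.mul (.g 12) (.pp [(1, 57441600000)])) (.mul (.g 15)
 (.pp [(1, 16534800000)])))) (.mul (.g 7) (.mul (.g 7) (.pp [(1, 9269400000)])))))) (.mul (.g 12)
 (.add (.add (.pp [(1, 672993000000)]) (.mul (.pp [(1, 120)]) (.sq [(1, 57), (2, 66), (3, 73), (5,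
 -100), (7, -22)]))) (.add (.mul (.pp [(1, 2280)]) (.sq [(1, 21), (2, 100), (3, -7), (5, 42), (7,
 17)])) (.add (.mul (.g 9) (.pp [(1, 54548400000)])) (.mul (.g 11) (.mul (.g 13) (.pp [(1,
 4800000)])))))))) (.add (.mul (.g 8) (.mul (.g 8) (.add (.mul (.g 6) (.pp [(1, 1108470000)]))
 (.add (.mul (.g 8) (.pp [(1, 407710200000)])) (.mul (.g 15) (.pp [(1, 337726200000)])))))) (.add
 (.mul (.g 17) (.add (.pp [(1, 528106200000)]) (.add (.mul (.pp [(1, 240)]) (.sq [(1, 35), (2, 56),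
 (3, 100), (5, 76), (7, 56)])) (.mul (.g 6) (.mul (.g 15) (.pp [(1, 1107450000)])))))) (.mul (.g 9)
 (.mul (.g 9) (.pp [(1, 54541800000)]))))))) (.mul (.g 8) (.add (.add (.mul (.g 12) (.add (.add
 (.pp [(1, 408842400000)]) (.mul (.g 7) (.pp [(1, 324006600000)]))) (.add (.mul (.g 8) (.mul (.g
 15) (.pp [(1, 662257800000)]))) (.add (.mul (.g 12) (.pp [(1, 672984600000)])) (.mul (.g 14) (.mul
 (.g 14) (.pp [(1, 4500)]))))))) (.mul (.g 7) (.add (.mul (.g 11) (.add (.mul (.g 6) (.pp [(1,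
 4541190000)])) (.mul (.g 11) (.pp [(1, 129433800000)])))) (.mul (.g 8) (.mul (.g 17) (.pp [(1,
 745446000000)])))))) (.add (.mul (.g 15) (.add (.mul (.g 8) (.mul (.g 8) (.pp [(1,
 745429800000)]))) (.mul (.g 13) (.mul (.g 17) (.pp [(1, 83176200000)]))))) (.mul (.g 17) (.pp [(1,
 872191800000)]))))))) (.add (.mul (.g 7) (.add (.add (.mul (.g 6) (.add (.pp [(1, 33397770000)])
 (.mul (.g 7) (.mul (.g 15) (.pp [(1, 1547670000)]))))) (.mul (.g 7) (.mul (.g 7) (.mul (.g 17)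
 (.pp [(1, 196578000000)]))))) (.add (.mul (.g 11) (.mul (.g 11) (.mul (.g 14) (.pp [(1,
 363300000)])))) (.mul (.g 15) (.pp [(1, 649897800000)]))))) (.add (.mul (.g 12) (.mul (.g 14)
 (.add (.mul (.pp [(1, 6)]) (.sq [(1, -5), (2, 22), (3, -57), (5, 37), (7, 100)])) (.mul (.pp [(1,
 3)]) (.sq [(1, 1), (2, 2), (3, -23), (5, 100), (7, -6)]))))) (.mul (.g 17) (.add (.mul (.pp [(1,
 5294820)]) (.sq [(2, 75), (3, 59), (5, 59), (7, 100)])) (.mul (.g 17) (.mul (.pp [(1, 60)]) (.sq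
 [(1, -38), (2, 22), (3, 88), (5, -71), (7, 100)])))))))) (.add (.add (.mul (.g 0) (.pp [(1,
 200000000000)])) (.add (.mul (.g 1) (.pp [(1, 200000000000)])) (.mul (.g 4) (.pp [(1,
 240000000)])))) (.add (.mul (.g 6) (.pp [(1, 24556800000)])) (.add (.mul (.g 15) (.pp [(1,
 745975800000)])) (.mul (.g 16) (.pp [(1, 200000000000)])))))) (.pp [(1, 6138914737), (2, 5822985),
 (3, 5635161), (4, 6269832), (5, 6217863), (6, 5224614), (7, 5730807), (8, 6358404), (9, 6859851),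
 (10, 5698944), (12, 5309580), (14, 5213646), (15, 7431930), (16, 6058320), (18, 7460265), (20,
 6499188), (21, 5052456), (23, 600000000000), (24, 5576880), (25, 6087726), (27, 5833271), (28,
 5705823), (30, 7134552), (35, 5977404), (36, 6463860), (40, 6180000), (42, 6214740), (45,
 3932343), (49, 5735730), (50, 5872854), (54, 5217960), (56, 5841540), (60, 5819760), (63,
 8086488), (70, 5730408), (75, 5583786), (81, 5956980), (84, 5509200), (90, 5216040), (98,
 6155514), (100, 5538600), (105, 4777308), (125, 6305154), (126, 6161280), (135, 6962040), (140,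
 5700000), (147, 7935468), (150, 5835840), (175, 5915820), (189, 5083920), (196, 5986920), (210,
 6084240), (225, 6025680), (245, 5589588), (250, 6236880), (294, 5944320), (315, 7065840), (343,
 6313611), (350, 5757120), (375, 6061920), (441, 5287440), (490, 5819880), (525, 5842920), (625,
 5986200), (686, 6311460), (735, 7298280), (875, 5986080), (1029, 5605920), (1225, 6080220), (1715,
 6445920), (2401, 6020640)])))))))))
 (.split [(1, -3), (5, 5)]
 (.cut 1 [(2, -1), (3, 1)] (.add (.mul (.g 10) (.pp [(1, 1)])) (.mul (.g 6) (.pp [(1, 1)]))) (.rule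
 1 (.cut 1 [(2, 1), (5, -1)] (.add (.mul (.g 12) (.pp [(1, 1)])) (.mul (.g 9) (.pp [(1, 1)])))
 (.rule 2 (.cut 2 [(1, 5), (3, -4)] (.add (.add (.mul (.g 11) (.pp [(1, 5)])) (.mul (.g 16) (.pp
 [(1, 3)]))) (.add (.mul (.g 4) (.pp [(1, 1)])) (.add (.mul (.g 9) (.pp [(1, 3)])) (.mul (.g 10)
 (.pp [(1, 5)]))))) (.rule 8 (.cut 13 [(1, 3), (5, -2)] (.add (.add (.mul (.g 3) (.pp [(1, 36)]))
 (.mul (.g 6) (.pp [(1, 2)]))) (.add (.mul (.g 5) (.pp [(1, 36)])) (.mul (.g 1) (.pp [(1, 9)]))))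
 (.rule 12 (.cut 1 [(1, 2), (2, 1), (3, -2), (5, -1)] (.add (.mul (.g 15) (.pp [(1, 1)])) (.add
 (.mul (.g 13) (.pp [(1, 1)])) (.mul (.g 20) (.pp [(1, 1)])))) (.cut 9 [(1, -1), (2, -2), (3, 2),
 (5, 2)] (.add (.mul (.g 8) (.pp [(1, 18)])) (.add (.mul (.g 2) (.pp [(1, 1)])) (.mul (.g 9) (.pp
 [(1, 4)])))) (.rule 16 (.leaf 300000000 (.add (.add (.add (.add (.mul (.g 23) (.add (.add (.add
 (.mul (.pp [(1, 149050800)]) (.sq [(2, -35), (3, 100), (5, -68), (7, 67)])) (.mul (.g 14) (.add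
 (.add (.pp [(1, 355608000000)]) (.add (.mul (.pp [(1, 113977500)]) (.sq [(1, 36), (2, 76), (3,
 100), (5, 100), (7, 55)])) (.mul (.pp [(1, 95969100)]) (.sq [(1, 71), (2, 36), (3, 20), (5, -83),
 (7, 100)])))) (.add (.add (.mul (.g 16) (.add (.mul (.g 11) (.pp [(1, 1534872600000)])) (.add
 (.mul (.g 18) (.pp [(1, 2707308000000)])) (.mul (.g 20) (.pp [(1, 755675250000)]))))) (.mul (.g
 15) (.add (.mul (.g 14) (.pp [(1, 4404582000000)])) (.mul (.g 15) (.pp [(1, 3946086000000)])))))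
 (.add (.mul (.g 23) (.add (.pp [(1, 8691789000000)]) (.mul (.g 19) (.pp [(1, 9557103000000)]))))
 (.mul (.g 13) (.mul (.g 13) (.pp [(1, 1460943000000)])))))))) (.add (.mul (.g 16) (.add (.add (.pp
 [(1, 5672292000000)]) (.add (.mul (.pp [(1, 138417300)]) (.sq [(1, -42), (2, -26), (3, -64), (5,
 100), (7, -57)])) (.mul (.pp [(1, 53502300)]) (.sq [(1, -32), (2, -46), (3, -50), (5, 65), (7,
 100)])))) (.add (.mul (.g 21) (.add (.mul (.g 13) (.pp [(1, 670371000000)])) (.mul (.g 20) (.pp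
 [(1, 349790400000)])))) (.add (.mul (.g 11) (.mul (.g 11) (.pp [(1, 120453600000)]))) (.mul (.g
 19) (.mul (.g 23) (.pp [(1, 7525560000000)]))))))) (.add (.mul (.g 13) (.add (.pp [(1,
 564666000000)]) (.mul (.g 13) (.mul (.g 15) (.pp [(1, 229107000000)]))))) (.mul (.g 21) (.add
 (.mul (.pp [(1, 112117800)]) (.sq [(1, 37), (2, 48), (3, -36), (5, -49), (7, 100)])) (.mul (.pp
 [(1, 2175499200)]) (.sq [(1, -12), (2, -29), (3, 50), (5, 50), (7, -12)]))))))) (.add (.add (.mul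
 (.g 11) (.mul (.pp [(1, 62230860)]) (.sq [(1, 3), (2, -65), (3, 7), (5, 11), (7, 100)]))) (.add
 (.mul (.g 15) (.pp [(1, 1783275000000)])) (.mul (.g 17) (.mul (.pp [(1, 1259299200)]) (.sq [(1,
 -7), (3, -22), (5, 25), (7, -5)]))))) (.add (.mul (.g 19) (.mul (.pp [(1, 418211700)]) (.sq [(1,
 -79), (2, -16), (3, 88), (5, -60), (7, 100)]))) (.add (.mul (.g 20) (.mul (.pp [(1, 16004520)])
 (.sq [(1, 32), (2, 50), (3, 30), (5, 30), (7, 37)]))) (.mul (.g 23) (.mul (.pp [(1, 189951900)])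
 (.sq [(1, 100), (2, -53), (3, -15), (5, -15), (7, -72)])))))))) (.add (.mul (.g 16) (.add (.add
 (.add (.mul (.g 14) (.add (.add (.pp [(1, 1731144000000)]) (.mul (.g 11) (.add (.mul (.g 11) (.pp
 [(1, 447433320000)])) (.mul (.g 14) (.pp [(1, 3716040600000)]))))) (.add (.mul (.g 21) (.add (.mul
 (.g 20) (.pp [(1, 539503800000)])) (.mul (.g 21) (.pp [(1, 12637101000000)])))) (.mul (.g 14)
 (.mul (.g 18) (.pp [(1, 14112054000000)])))))) (.mul (.g 11) (.add (.mul (.g 11) (.mul (.g 21)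
 (.pp [(1, 26211120000)]))) (.mul (.g 13) (.mul (.g 18) (.pp [(1, 661524600000)])))))) (.add (.mul
 (.g 19) (.add (.pp [(1, 9848292000000)]) (.mul (.pp [(1, 32685600)]) (.sq [(1, -70), (2, -83), (3,
 -33), (5, 100), (7, 3)])))) (.mul (.g 15) (.pp [(1, 4552026000000)])))) (.add (.add (.mul (.g 17)
 (.mul (.pp [(1, 193422300)]) (.sq [(2, 49), (3, 100), (5, -15), (7, -13)]))) (.mul (.g 18) (.mul
 (.pp [(1, 181331700)]) (.sq [(1, -23), (2, 9), (3, 48), (5, 100), (7, -85)])))) (.add (.mul (.g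
 20) (.mul (.pp [(1, 19390290)]) (.sq [(1, -10), (2, 58), (3, -15), (5, 100), (7, -24)]))) (.mul
 (.g 21) (.pp [(1, 4989471000000)])))))) (.mul (.g 18) (.add (.add (.mul (.g 11) (.add (.add (.pp
 [(1, 311909400000)]) (.mul (.pp [(1, 4401540)]) (.sq [(1, -17), (2, -65), (3, -30), (5, -18), (7,
 100)]))) (.add (.mul (.pp [(1, 134460)]) (.sq [(1, 47), (2, 85), (3, -33), (5, -25), (7, 100)]))
 (.mul (.g 11) (.mul (.g 20) (.pp [(1, 1686000)])))))) (.mul (.g 18) (.add (.add (.pp [(1,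
 165063000000)]) (.mul (.pp [(1, 22091100)]) (.sq [(1, 62), (2, 100), (3, -86), (5, 42), (7,
 97)]))) (.add (.mul (.pp [(1, 113882100)]) (.sq [(1, 100), (2, -35), (3, 32), (5, 32), (7, -13)]))
 (.mul (.g 14) (.mul (.g 18) (.pp [(1, 230661000000)]))))))) (.add (.mul (.g 20) (.add (.mul (.pp
 [(1, 5154105)]) (.sq [(1, -7), (2, -44), (3, 100), (5, -56), (7, -75)])) (.mul (.pp [(1, 747780)])
 (.sq [(1, 3), (2, 39), (3, 37), (5, -72), (7, 100)])))) (.add (.mul (.g 12) (.mul (.pp [(1,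
 789660)]) (.sq [(1, 100), (2, 81), (3, 94), (5, 94), (7, 28)]))) (.mul (.g 17) (.mul (.pp [(1,
 27804900)]) (.sq [(1, -10), (2, 100), (3, 8), (5, -81), (7, -33)]))))))))) (.add (.mul (.g 21)
 (.add (.add (.pp [(1, 6388221000000)]) (.mul (.g 14) (.add (.mul (.g 15) (.add (.mul (.g 14) (.pp
 [(1, 8499297000000)])) (.mul (.g 15) (.pp [(1, 7975683000000)])))) (.mul (.g 12) (.mul (.g 12)
 (.pp [(1, 10197615000)])))))) (.add (.mul (.g 19) (.add (.mul (.pp [(1, 1490858400)]) (.sq [(1,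
 -7), (2, -25), (3, 20), (5, -9), (7, 50)])) (.mul (.pp [(1, 98558100)]) (.sq [(1, 44), (2, 59),
 (3, -36), (5, 100), (7, 88)])))) (.add (.mul (.g 17) (.mul (.pp [(1, 55086000)]) (.sq [(1, -8),
 (2, 100), (3, 52), (5, 52), (7, -39)]))) (.mul (.g 21) (.mul (.pp [(1, 203094300)]) (.sq [(1, 68),
 (2, -19), (3, -69), (5, -23), (7, 100)]))))))) (.add (.mul (.g 11) (.add (.mul (.g 11) (.add (.mul
 (.pp [(1, 2773128)]) (.sq [(1, -7), (2, 20), (3, 100), (5, 7), (7, -80)])) (.mul (.g 11) (.mul (.g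
 11) (.pp [(1, 400286400)]))))) (.add (.mul (.g 14) (.add (.mul (.pp [(1, 13577700)]) (.sq [(1, 1),
 (2, 100), (3, -12), (5, 22), (7, 24)])) (.mul (.pp [(1, 3015720)]) (.sq [(1, 31), (2, -37), (3,
 30), (5, -53), (7, 100)])))) (.mul (.g 17) (.mul (.pp [(1, 3870180)]) (.sq [(1, -18), (2, 100),
 (3, -74), (5, 32), (7, 41)])))))) (.mul (.g 0) (.pp [(1, 1000000000000)]))))) (.add (.add (.mul
 (.g 3) (.pp [(1, 300000000)])) (.add (.mul (.g 5) (.pp [(1, 1200000000)])) (.mul (.g 7) (.pp [(1,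
 1000000000000)])))) (.add (.mul (.g 9) (.pp [(1, 1000000000000)])) (.add (.mul (.g 12) (.mul (.g
 14) (.mul (.g 17) (.mul (.g 17) (.pp [(1, 18230850000)]))))) (.mul (.g 22) (.pp [(1,
 1000000000000)])))))) (.pp [(1, 5987929337), (2, 28652085), (3, 31255935), (4, 26547900), (5,
 30027351), (6, 23881980), (7, 29637570), (8, 27621300), (9, 31414680), (10, 27194520), (12,
 21830640), (14, 29633850), (15, 30368940), (16, 27655500), (18, 40764720), (20, 28996920), (21,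
 30801570), (24, 26750700), (25, 29069232), (27, 24346420), (28, 23637300), (30, 37515000), (35,
 28556610), (36, 36798000), (40, 33977400), (42, 31632600), (45, 19166760), (49, 30365985), (50,
 30334260), (54, 26883600), (56, 25882800), (60, 30343200), (63, 29299590), (70, 36572520), (75,
 24492360), (81, 34446600), (84, 29351100), (90, 31277700), (98, 26486985), (100, 26059800), (105,
 25185000), (125, 31019920), (126, 33849600), (135, 38033400), (140, 35898000), (147, 33104715),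
 (150, 33867900), (175, 23913180), (189, 34668000), (196, 26994300), (210, 37966800), (225,
 37594200), (245, 32938035), (250, 34205400), (294, 33166500), (315, 41386500), (343, 28671540),
 (350, 22163700), (375, 29871000), (441, 28036500), (490, 34849200), (525, 34180800), (625,
 28925700), (686, 28726200), (735, 35294400), (875, 35138700), (1029, 27826500), (1225, 29465700),
 (1715, 31554900), (2401, 30158100)]))))))))))))))
 (.split [(1, -7), (5, 50)]
 (.cut 1 [(2, -1), (3, 1)] (.add (.mul (.g 11) (.pp [(1, 1)])) (.mul (.g 7) (.pp [(1, 1)]))) (.rule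
 1 (.cut 1 [(2, 1), (5, -1)] (.add (.mul (.g 13) (.pp [(1, 1)])) (.mul (.g 10) (.pp [(1, 1)])))
 (.rule 2 (.cut 43 [(1, 5), (3, -4)] (.add (.add (.mul (.g 12) (.pp [(1, 50)])) (.mul (.g 17) (.pp
 [(1, 122)]))) (.add (.mul (.g 4) (.pp [(1, 1)])) (.add (.mul (.g 10) (.pp [(1, 122)])) (.mul (.g
 11) (.pp [(1, 50)]))))) (.rule 8 (.rule 11 (.rule 23 (.leaf 660000000 (.add (.add (.add (.add
 (.add (.mul (.g 14) (.add (.add (.mul (.g 14) (.add (.add (.pp [(1, 461359800000)]) (.add (.mul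
 (.g 14) (.add (.mul (.g 14) (.pp [(1, 35052600000)])) (.add (.mul (.g 15) (.pp [(1,
 46068000000)])) (.mul (.g 17) (.pp [(1, 97435800000)]))))) (.mul (.g 12) (.add (.mul (.g 8) (.pp
 [(1, 11080608000)])) (.mul (.g 15) (.pp [(1, 1732783800000)])))))) (.add (.mul (.g 10) (.mul (.g
 19) (.pp [(1, 152486730000)]))) (.add (.mul (.g 13) (.mul (.g 16) (.pp [(1, 333854400000)])))
 (.mul (.g 21) (.mul (.g 21) (.pp [(1, 29561400000)]))))))) (.add (.mul (.g 13) (.add (.add (.pp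
 [(1, 1776931200000)]) (.mul (.g 11) (.add (.mul (.g 11) (.pp [(1, 2583834000000)])) (.mul (.g 15)
 (.pp [(1, 127155600000)]))))) (.add (.mul (.g 9) (.mul (.g 13) (.pp [(1, 60537840000)]))) (.add
 (.mul (.g 12) (.pp [(1, 516667800000)])) (.mul (.g 15) (.mul (.g 16) (.pp [(1,
 296868000000)]))))))) (.mul (.g 12) (.add (.mul (.pp [(1, 17601540)]) (.sq [(1, 57), (2, -55), (3,
 -83), (5, -100), (7, 83)])) (.add (.mul (.g 11) (.mul (.g 19) (.pp [(1, 2717952600000)]))) (.mul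
 (.g 12) (.mul (.g 15) (.pp [(1, 602969400000)])))))))) (.add (.add (.mul (.g 21) (.add (.pp [(1,
 523413000000)]) (.mul (.pp [(1, 38530800)]) (.sq [(1, 50), (2, 31), (3, 41), (5, 41), (7, 41)]))))
 (.mul (.g 10) (.mul (.pp [(1, 1816881)]) (.sq [(1, 14), (2, 78), (3, 5), (5, 100), (7, 24)]))))
 (.add (.mul (.g 11) (.pp [(1, 3218292000000)])) (.mul (.g 15) (.mul (.pp [(1, 143755260)]) (.sq
 [(1, -21), (2, 51), (3, 100), (5, 25), (7, -49)]))))))) (.mul (.g 19) (.add (.add (.mul (.g 12)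
 (.add (.add (.pp [(1, 1189214400000)]) (.mul (.g 12) (.add (.mul (.g 13) (.pp [(1,
 1703512800000)])) (.mul (.g 17) (.pp [(1, 985934400000)]))))) (.add (.mul (.g 9) (.mul (.g 18)
 (.pp [(1, 27908298000)]))) (.mul (.g 11) (.mul (.g 11) (.pp [(1, 1958926200000)])))))) (.add (.mul
 (.g 13) (.add (.mul (.g 13) (.add (.mul (.g 13) (.pp [(1, 1826259600000)])) (.mul (.g 19) (.pp
 [(1, 3820119600000)])))) (.mul (.g 9) (.mul (.g 18) (.pp [(1, 11972202000)]))))) (.mul (.g 11)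
 (.add (.pp [(1, 985630800000)]) (.mul (.g 11) (.pp [(1, 1308852600000)])))))) (.add (.add (.mul
 (.g 16) (.add (.mul (.pp [(1, 68845920)]) (.sq [(1, 43), (2, 67), (3, -76), (5, 100), (7, 20)]))
 (.mul (.g 17) (.mul (.g 19) (.pp [(1, 924217800000)]))))) (.mul (.g 21) (.add (.mul (.pp [(1,
 16679520)]) (.sq [(1, -37), (2, 43), (3, 100), (5, 22), (7, 48)])) (.mul (.pp [(1, 22688820)])
 (.sq [(1, 41), (2, 100), (3, -64), (5, 84), (7, 61)]))))) (.add (.mul (.g 9) (.mul (.pp [(1,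
 3251952)]) (.sq [(1, 19), (2, -10), (3, -68), (5, 16), (7, 100)]))) (.mul (.g 15) (.mul (.pp [(1,
 65276640)]) (.sq [(1, 2), (2, -32), (3, -51), (5, -33), (7, 100)])))))))) (.add (.mul (.g 21)
 (.add (.add (.pp [(1, 464943600000)]) (.add (.mul (.pp [(1, 32204700)]) (.sq [(2, 75), (3, 59),
 (5, 59), (7, 100)])) (.mul (.g 11) (.add (.mul (.pp [(1, 28551600)]) (.sq [(1, -63), (2, -57), (3,
 100), (5, -44), (7, 31)])) (.mul (.g 11) (.add (.pp [(1, 1213363800000)]) (.add (.mul (.g 11) (.pp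
 [(1, 1758603000000)])) (.mul (.g 13) (.pp [(1, 2688061200000)]))))))))) (.add (.add (.mul (.g 13)
 (.add (.pp [(1, 2527338000000)]) (.mul (.g 13) (.pp [(1, 179097600000)])))) (.mul (.g 12) (.pp
 [(1, 764451600000)]))) (.add (.mul (.g 16) (.mul (.pp [(1, 13037640)]) (.sq [(1, 11), (2, 100),
 (3, -40), (5, 62), (7, -53)]))) (.mul (.g 21) (.mul (.pp [(1, 22938960)]) (.sq [(1, 21), (2, 50),
 (3, -27), (5, 50), (7, -2)]))))))) (.mul (.g 16) (.add (.add (.mul (.g 16) (.add (.pp [(1,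
 40114800000)]) (.add (.mul (.g 12) (.mul (.g 12) (.pp [(1, 152149800000)]))) (.mul (.g 17) (.pp
 [(1, 1862328600000)]))))) (.mul (.g 9) (.add (.pp [(1, 60615720000)]) (.mul (.g 9) (.mul (.g 17)
 (.pp [(1, 8987088000)])))))) (.add (.mul (.g 11) (.add (.pp [(1, 269214000000)]) (.mul (.g 11)
 (.mul (.g 11) (.pp [(1, 738018600000)]))))) (.mul (.g 10) (.mul (.pp [(1, 670032)]) (.sq [(1,
 100), (2, 81), (3, 94), (5, 94), (7, 28)])))))))) (.add (.add (.mul (.g 12) (.add (.mul (.g 9)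
 (.mul (.g 13) (.add (.mul (.g 9) (.pp [(1, 2684880000)])) (.mul (.g 15) (.pp [(1,
 50808120000)]))))) (.add (.mul (.g 10) (.mul (.pp [(1, 851070)]) (.sq [(1, -25), (2, 100), (3,
 -28), (5, 12), (7, 2)]))) (.mul (.g 11) (.mul (.pp [(1, 299905320)]) (.sq [(1, -26), (2, 100), (3,
 -29), (5, 12), (7, 2)])))))) (.mul (.g 17) (.add (.mul (.g 18) (.add (.mul (.pp [(1, 1272810)])
 (.sq [(1, -34), (2, -29), (3, 38), (5, 61), (7, 100)])) (.mul (.pp [(1, 421839)]) (.sq [(1, -6),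
 (2, 87), (3, -18), (5, 11), (7, -100)])))) (.mul (.g 17) (.mul (.pp [(1, 36637260)]) (.sq [(1,
 -47), (2, -56), (3, 100), (5, 11), (7, -49)])))))) (.add (.mul (.g 11) (.add (.mul (.g 11) (.mul
 (.g 11) (.mul (.g 13) (.pp [(1, 106187400000)])))) (.mul (.g 15) (.mul (.pp [(1, 110649660)]) (.sq
 [(1, -15), (2, 100), (3, -4), (5, -47), (7, 10)]))))) (.mul (.g 0) (.pp [(1, 200000000000)])))))
 (.add (.add (.add (.mul (.g 1) (.pp [(1, 1320000000)])) (.mul (.g 2) (.pp [(1, 2640000000)])))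
 (.add (.mul (.g 4) (.pp [(1, 2200000000000)])) (.mul (.g 6) (.pp [(1, 2200000000000)])))) (.add
 (.add (.mul (.g 9) (.mul (.g 9) (.pp [(1, 31229088000)]))) (.mul (.g 13) (.mul (.g 13) (.mul (.g
 13) (.mul (.g 13) (.pp [(1, 124436400000)])))))) (.add (.mul (.g 15) (.mul (.g 18) (.mul (.pp [(1,
 191829)]) (.sq [(1, 1), (2, 11), (3, -33), (5, -55), (7, 100)])))) (.mul (.g 20) (.pp [(1,
 2200000000000)])))))) (.pp [(1, 15694304617), (2, 66765965), (3, 66109580), (4, 67028995), (5,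
 64686994), (6, 58470676), (7, 67132956), (8, 61801542), (9, 68322705), (10, 55109824), (12,
 54948971), (14, 69122196), (15, 82798034), (16, 71075400), (18, 80865631), (20, 64731909), (21,
 52824948), (24, 64371780), (25, 64732921), (27, 59869788), (28, 67928916), (30, 92158220), (35,
 62778408), (36, 71485920), (40, 62878860), (42, 52715916), (45, 42970268), (49, 59341260), (50,
 68048244), (54, 59019180), (56, 67089660), (60, 72151200), (63, 72761997), (70, 62199456), (75,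
 60148253), (81, 68645280), (84, 61820220), (90, 53539860), (98, 66605352), (100, 67409100), (105,
 69382104), (125, 63308509), (126, 83147460), (135, 75448560), (140, 70456320), (147, 82404432),
 (150, 66989340), (175, 77063712), (189, 62752140), (196, 60724620), (210, 72982800), (225,
 70136880), (245, 61218432), (250, 65410620), (294, 69974520), (315, 66106920), (343, 76351176),
 (350, 67440780), (375, 69102000), (441, 58350600), (490, 65604000), (525, 59669280), (625,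
 64320960), (686, 63614100), (735, 68904000), (875, 62754120), (1029, 66278520), (1225, 64783620),
 (1715, 69810840), (2401, 64518960)])))))))))))
 (.cut 450 [(2, -1), (3, 1)] (.add (.mul (.g 10) (.pp [(1, 7)])) (.add (.mul (.g 9) (.pp [(1,
 310)])) (.mul (.g 0) (.pp [(1, 9)])))) (.rule 1 (.cut 1 [(2, 1), (5, -1)] (.add (.mul (.g 13) (.pp
 [(1, 1)])) (.mul (.g 10) (.pp [(1, 1)]))) (.rule 2 (.cut 1 [(1, 5), (3, -4)] (.add (.add (.mul (.g
 12) (.pp [(1, 1)])) (.mul (.g 17) (.pp [(1, 3)]))) (.add (.mul (.g 9) (.pp [(1, 1)])) (.add (.mul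
 (.g 10) (.pp [(1, 3)])) (.mul (.g 11) (.pp [(1, 1)]))))) (.rule 8 (.rule 23 (.leaf 6600000000
 (.add (.add (.add (.add (.mul (.g 13) (.add (.add (.add (.pp [(1, 2765202000000)]) (.mul (.g 12)
 (.add (.add (.mul (.g 10) (.add (.add (.mul (.g 7) (.pp [(1, 446809440000)])) (.mul (.g 10) (.pp
 [(1, 43613328000000)]))) (.add (.mul (.g 16) (.pp [(1, 19437594000000)])) (.mul (.g 17) (.pp [(1,
 369105000000)]))))) (.mul (.g 13) (.add (.mul (.g 11) (.pp [(1, 22217184000000)])) (.add (.mul (.g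
 16) (.pp [(1, 13467894000000)])) (.mul (.g 18) (.pp [(1, 20175870000000)])))))) (.add (.mul (.g
 11) (.mul (.g 11) (.pp [(1, 6814566000000)]))) (.add (.mul (.g 14) (.mul (.g 15) (.pp [(1,
 7127076000000)]))) (.mul (.g 16) (.mul (.g 16) (.pp [(1, 13255110000000)])))))))) (.add (.mul (.g
 11) (.add (.add (.pp [(1, 16798122000000)]) (.mul (.g 18) (.add (.mul (.g 7) (.pp [(1,
 593964360000)])) (.add (.mul (.g 8) (.pp [(1, 2964957600000)])) (.mul (.g 16) (.pp [(1,
 19775580000000)])))))) (.add (.mul (.g 13) (.add (.mul (.g 14) (.pp [(1, 22673310000000)])) (.mul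
 (.g 20) (.pp [(1, 597102000000)])))) (.mul (.g 11) (.mul (.g 15) (.pp [(1, 30840018000000)]))))))
 (.add (.mul (.g 13) (.add (.add (.mul (.g 13) (.add (.mul (.g 14) (.pp [(1, 4148628000000)]))
 (.mul (.g 20) (.pp [(1, 660000000)])))) (.mul (.g 8) (.mul (.g 16) (.pp [(1, 175375200000)]))))
 (.add (.mul (.g 9) (.mul (.g 9) (.pp [(1, 44071335000)]))) (.mul (.g 18) (.mul (.g 18) (.pp [(1,
 19177818000000)])))))) (.mul (.g 10) (.add (.pp [(1, 24394590000000)]) (.add (.mul (.g 8) (.mul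
 (.g 10) (.pp [(1, 616030800000)]))) (.mul (.g 15) (.mul (.g 17) (.pp [(1, 542338500000)])))))))))
 (.add (.add (.mul (.g 7) (.pp [(1, 140983920000)])) (.mul (.g 14) (.mul (.pp [(1, 183816600)])
 (.sq [(1, 14), (2, -71), (3, -38), (5, -23), (7, 100)])))) (.add (.mul (.g 17) (.mul (.pp [(1,
 28305750)]) (.sq [(1, -45), (2, 27), (3, 100), (5, 44), (7, -72)]))) (.add (.mul (.g 18) (.mul
 (.pp [(1, 221073600)]) (.sq [(1, -1), (2, 4), (3, -67), (5, 100), (7, 52)]))) (.mul (.g 20) (.pp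
 [(1, 16567518000000)]))))))) (.add (.mul (.g 11) (.add (.add (.mul (.g 12) (.add (.mul (.g 7)
 (.add (.pp [(1, 219270480000)]) (.mul (.g 8) (.pp [(1, 80191848000)])))) (.mul (.g 18) (.add (.mul
 (.g 11) (.pp [(1, 60506028000000)])) (.mul (.g 12) (.pp [(1, 29331984000000)])))))) (.mul (.g 9)
 (.add (.mul (.g 9) (.mul (.g 9) (.pp [(1, 1964176500)]))) (.mul (.g 14) (.mul (.g 14) (.pp [(1,
 264356400000)])))))) (.add (.mul (.g 18) (.add (.mul (.pp [(1, 534672600)]) (.sq [(1, 4), (2, 73),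
 (3, 82), (5, -16), (7, 100)])) (.mul (.g 8) (.mul (.g 16) (.pp [(1, 9893558400000)]))))) (.add
 (.mul (.g 7) (.mul (.pp [(1, 26483952)]) (.sq [(1, 27), (2, -30), (3, -73), (5, 46), (7, 100)])))
 (.mul (.g 17) (.mul (.g 17) (.pp [(1, 19950810000)]))))))) (.mul (.g 20) (.add (.add (.pp [(1,
 18322722000000)]) (.mul (.pp [(1, 423904800)]) (.sq [(2, 75), (3, 59), (5, 59), (7, 100)]))) (.add
 (.mul (.g 10) (.add (.pp [(1, 7177302000000)]) (.add (.mul (.pp [(1, 2480068800)]) (.sq [(1, 24),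
 (2, 50), (3, 39), (5, 39), (7, 12)])) (.mul (.g 10) (.add (.mul (.g 10) (.pp [(1,
 14201418000000)])) (.mul (.g 12) (.pp [(1, 6597558000000)]))))))) (.add (.mul (.g 16) (.add (.mul
 (.pp [(1, 289621200)]) (.sq [(1, 83), (2, -63), (3, -100), (5, -8), (7, -94)])) (.mul (.g 7) (.mul
 (.g 7) (.pp [(1, 1086016800)]))))) (.mul (.g 17) (.mul (.pp [(1, 9719160)]) (.sq [(1, 40), (2,
 100), (3, -28), (5, 73), (7, -44)]))))))))) (.add (.add (.mul (.g 15) (.add (.add (.mul (.g 15)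
 (.add (.mul (.pp [(1, 1566708000)]) (.sq [(1, -17), (2, -19), (3, 24), (5, 50), (7, -8)])) (.add
 (.mul (.pp [(1, 48932400)]) (.sq [(1, 100), (2, -35), (3, 32), (5, 32), (7, -13)])) (.mul (.g 17)
 (.pp [(1, 999497400000)]))))) (.mul (.g 16) (.add (.mul (.pp [(1, 551621400)]) (.sq [(1, 20), (2,
 -44), (3, -49), (5, 46), (7, 100)])) (.mul (.g 18) (.mul (.g 18) (.pp [(1, 353628000000)]))))))
 (.add (.mul (.g 17) (.add (.pp [(1, 376671900000)]) (.mul (.g 7) (.mul (.g 8) (.pp [(1,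
 817476000)]))))) (.mul (.g 14) (.mul (.pp [(1, 19701000)]) (.sq [(1, -77), (2, 100), (3, -56), (5,
 74), (7, -31)])))))) (.mul (.g 12) (.add (.mul (.g 12) (.add (.mul (.g 7) (.pp [(1,
 380103240000)])) (.add (.mul (.g 12) (.mul (.g 16) (.pp [(1, 215028000000)]))) (.mul (.g 18) (.mul
 (.g 18) (.pp [(1, 12946626000000)])))))) (.mul (.g 18) (.add (.pp [(1, 318978000000)]) (.mul (.g
 8) (.mul (.g 16) (.pp [(1, 4025445600000)])))))))) (.add (.mul (.g 7) (.add (.mul (.g 8) (.pp [(1,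
 6712464000)])) (.add (.mul (.g 10) (.pp [(1, 687652680000)])) (.mul (.g 16) (.mul (.pp [(1,
 8883072)]) (.sq [(1, 11), (2, -66), (3, -7), (5, 42), (7, 100)])))))) (.mul (.g 0) (.pp [(1,
 2000000000000)]))))) (.add (.add (.add (.mul (.g 1) (.pp [(1, 26400000000)])) (.mul (.g 3) (.pp
 [(1, 22000000000000)]))) (.add (.mul (.g 5) (.pp [(1, 22000000000000)])) (.mul (.g 8) (.mul (.g
 18) (.mul (.pp [(1, 181250520)]) (.sq [(1, 22), (2, -26), (3, -83), (5, 43), (7, 100)])))))) (.add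
 (.add (.mul (.g 9) (.mul (.g 9) (.mul (.g 9) (.pp [(1, 3235072500)])))) (.mul (.g 10) (.mul (.g
 14) (.mul (.pp [(1, 33811800)]) (.sq [(1, -46), (2, 100), (3, 54), (5, 54), (7, -7)]))))) (.add
 (.mul (.g 17) (.mul (.g 17) (.mul (.pp [(1, 463881)]) (.sq [(1, -35), (2, -31), (3, 31), (5, 100),
 (7, -13)])))) (.mul (.g 19) (.pp [(1, 22000000000000)])))))) (.pp [(1, 696971218315), (2,
 661047374), (3, 610684670), (4, 708340831), (5, 572283736), (6, 595634314), (7, 662266440), (8,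
 735477864), (9, 698999103), (10, 752513344), (12, 493810592), (14, 613496334), (15, 669941624),
 (16, 627396000), (18, 846091840), (20, 642157560), (21, 705890526), (23, 66000000000000), (24,
 688366800), (25, 735443104), (27, 597312408), (28, 583031790), (30, 689301008), (35, 638592240),
 (36, 669134400), (40, 615595200), (42, 837125520), (45, 639131240), (49, 637487631), (50,
 547612032), (54, 595095600), (56, 624782400), (60, 739160400), (63, 598839120), (70, 729191760),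
 (75, 649694672), (81, 694405800), (84, 669286200), (90, 535722000), (98, 666240960), (100,
 702768000), (105, 559027920), (125, 690031144), (126, 612612000), (135, 697600200), (140,
 632022600), (147, 691682640), (150, 622934400), (175, 655857840), (189, 698306400), (196,
 702583200), (210, 708734400), (225, 734943000), (245, 714555600), (250, 665834400), (294,
 688241400), (315, 744163200), (343, 663442560), (350, 688690200), (375, 644945400), (441,
 629164800), (490, 683067000), (525, 628372800), (625, 669055200), (686, 645268800), (735,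
 524884800), (875, 658706400), (1029, 657624000), (1225, 612004800), (1715, 678638400), (2401,
 660000000)])))))))))))))
 (P_TpA ++ xP_A_T2) = true := by decide +kernel

theorem t_A_T4a_TpB_a : chk Rap gP_A_T4a
 (.split [(1, -3), (3, 5)]
 (.cut 1 [(2, 1), (3, -1)] (.add (.mul (.g 9) (.pp [(1, 1)])) (.mul (.g 6) (.pp [(1, 1)]))) (.rule
 0 (.cut 1 [(2, -1), (5, 1)] (.add (.mul (.g 11) (.pp [(1, 1)])) (.mul (.g 7) (.pp [(1, 1)])))
 (.rule 3 (.cut 2 [(1, 3), (3, -2)] (.add (.mul (.g 3) (.pp [(1, 9)])) (.add (.mul (.g 9) (.pp [(1,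
 9)])) (.mul (.g 4) (.pp [(1, 1)])))) (.rule 8 (.cut 2 [(1, 5), (5, -4)] (.add (.add (.mul (.g 12)
 (.pp [(1, 5)])) (.mul (.g 6) (.pp [(1, 1)]))) (.add (.mul (.g 18) (.pp [(1, 3)])) (.mul (.g 11)
 (.pp [(1, 5)])))) (.rule 11 (.cut 1 [(1, 2), (2, 1), (3, -1), (5, -2)] (.add (.mul (.g 14) (.pp
 [(1, 1)])) (.mul (.g 20) (.pp [(1, 1)]))) (.cut 9 [(1, -1), (2, -2), (3, 2), (5, 2)] (.add (.mul
 (.g 6) (.pp [(1, 18)])) (.add (.mul (.g 4) (.pp [(1, 1)])) (.mul (.g 9) (.pp [(1, 4)])))) (.rule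
 20 (.leaf 15000000 (.add (.add (.add (.add (.mul (.g 14) (.add (.add (.mul (.g 16) (.add (.mul (.g
 13) (.add (.mul (.g 18) (.pp [(1, 104154750000)])) (.mul (.g 20) (.pp [(1, 16479000000)])))) (.mul
 (.g 14) (.add (.mul (.g 16) (.pp [(1, 15339450000)])) (.mul (.g 20) (.pp [(1, 92416350000)]))))))
 (.mul (.g 12) (.add (.mul (.g 12) (.add (.mul (.g 11) (.pp [(1, 427980000)])) (.mul (.g 20) (.pp
 [(1, 11630550000)])))) (.mul (.g 14) (.mul (.g 20) (.pp [(1, 135537600000)])))))) (.add (.mul (.g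
 23) (.add (.pp [(1, 551540250000)]) (.add (.mul (.pp [(1, 2497500)]) (.sq [(1, 3), (2, -81), (3,
 -39), (5, 100)])) (.mul (.pp [(1, 5953440)]) (.sq [(1, -1), (2, 36), (3, -15), (5, 50)]))))) (.add
 (.mul (.g 13) (.mul (.pp [(1, 1999470)]) (.sq [(1, -54), (2, 61), (3, 100), (5, -48)]))) (.mul (.g
 17) (.pp [(1, 33942750000)])))))) (.add (.mul (.g 13) (.add (.add (.mul (.g 13) (.add (.mul (.g
 17) (.add (.pp [(1, 105022050000)]) (.mul (.g 13) (.pp [(1, 14872050000)])))) (.mul (.g 16) (.mul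
 (.g 18) (.pp [(1, 32115450000)]))))) (.mul (.g 11) (.mul (.g 11) (.add (.mul (.g 12) (.pp [(1,
 429624000)])) (.mul (.g 18) (.pp [(1, 2511606000)])))))) (.add (.mul (.g 16) (.mul (.g 18) (.mul
 (.g 19) (.pp [(1, 885000)])))) (.add (.mul (.g 17) (.pp [(1, 7011450000)])) (.mul (.g 23) (.pp
 [(1, 406398150000)])))))) (.mul (.g 12) (.add (.add (.mul (.g 23) (.add (.mul (.g 12) (.add (.mul
 (.g 19) (.pp [(1, 1583475000)])) (.mul (.g 22) (.pp [(1, 105034950000)])))) (.mul (.g 16) (.mul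
 (.g 22) (.pp [(1, 27802500000)]))))) (.mul (.g 11) (.mul (.pp [(1, 144897)]) (.sq [(1, -1), (2,
 46), (3, 100), (5, -29)])))) (.add (.mul (.g 18) (.mul (.pp [(1, 150)]) (.sq [(1, 86), (2, -100),
 (3, -49), (5, 87)]))) (.mul (.g 20) (.pp [(1, 421059300000)]))))))) (.add (.mul (.g 20) (.add (.pp
 [(1, 193508850000)]) (.add (.mul (.g 18) (.add (.mul (.pp [(1, 9316545)]) (.sq [(1, 100), (2,
 -16), (3, 26), (5, 67)])) (.mul (.g 18) (.add (.pp [(1, 29662950000)]) (.mul (.g 22) (.pp [(1,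
 103804800000)])))))) (.mul (.g 16) (.mul (.pp [(1, 2929020)]) (.sq [(2, 100), (3, 94), (5,
 -11)])))))) (.add (.mul (.g 11) (.add (.mul (.g 11) (.pp [(1, 417636000)])) (.add (.mul (.g 16)
 (.mul (.pp [(1, 247653)]) (.sq [(1, 47), (2, 35), (3, 100), (5, 100)]))) (.mul (.g 22) (.mul (.pp
 [(1, 919092)]) (.sq [(1, 2), (2, -81), (3, 100), (5, -36)])))))) (.mul (.g 0) (.pp [(1,
 50000000000)]))))) (.add (.add (.mul (.g 3) (.pp [(1, 60000000)])) (.add (.mul (.g 5) (.pp [(1,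
 15000000)])) (.mul (.g 7) (.pp [(1, 50000000000)])))) (.add (.mul (.g 9) (.pp [(1, 50000000000)]))
 (.add (.mul (.g 16) (.mul (.g 17) (.pp [(1, 3894450000)]))) (.mul (.g 21) (.pp [(1,
 50000000000)])))))) (.pp [(1, 6287901535), (2, 1565946), (3, 1366671), (4, 1564329), (5, 1385916),
 (6, 1548114), (8, 1365861), (9, 1562160), (10, 1326390), (12, 1368909), (15, 1687704), (16,
 1500000), (18, 1515780), (20, 1423272), (24, 1534365), (25, 1609056), (27, 1388420), (30,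
 1829538), (36, 1446210), (40, 1625520), (45, 959940), (50, 1510446), (54, 1637850), (60, 1589250),
 (75, 1339509), (81, 1500000), (90, 1591050), (100, 1449090), (125, 1312085), (135, 1703580), (150,
 1405125), (225, 1622460), (250, 1553055), (375, 1547835), (625, 1629495)]))))))))))))))
 (.cut 1 [(2, 1), (3, -1)] (.add (.mul (.g 6) (.pp [(1, 1)])) (.mul (.g 9) (.pp [(1, 1)]))) (.rule
 0 (.cut 1 [(2, -1), (5, 1)] (.add (.mul (.g 11) (.pp [(1, 1)])) (.mul (.g 7) (.pp [(1, 1)])))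
 (.rule 3 (.cut 1 [(1, 5), (5, -4)] (.add (.add (.mul (.g 10) (.pp [(1, 1)])) (.mul (.g 6) (.pp
 [(1, 1)]))) (.add (.mul (.g 16) (.pp [(1, 3)])) (.mul (.g 9) (.pp [(1, 1)])))) (.rule 11 (.rule 25
 (.leaf 33000000 (.add (.add (.add (.add (.mul (.g 8) (.add (.add (.mul (.g 8) (.add (.mul (.g 9)
 (.add (.mul (.g 7) (.pp [(1, 18984570000)])) (.mul (.g 19) (.pp [(1, 77259270000)])))) (.add (.mul
 (.g 14) (.mul (.g 19) (.pp [(1, 16091790000)]))) (.mul (.g 15) (.mul (.g 18) (.pp [(1,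
 618288000)])))))) (.add (.mul (.g 16) (.add (.pp [(1, 300947130000)]) (.add (.mul (.g 10) (.add
 (.mul (.g 9) (.pp [(1, 99947430000)])) (.mul (.g 16) (.pp [(1, 10046850000)])))) (.mul (.g 16)
 (.mul (.g 16) (.pp [(1, 8900100000)])))))) (.mul (.g 12) (.mul (.g 12) (.add (.pp [(1,
 16038000000)]) (.add (.mul (.g 7) (.pp [(1, 1117182000)])) (.mul (.g 12) (.pp [(1,
 3300000)])))))))) (.add (.mul (.g 13) (.add (.mul (.g 14) (.mul (.g 18) (.pp [(1, 326370000)])))
 (.mul (.g 15) (.pp [(1, 541233000)])))) (.add (.mul (.g 9) (.mul (.pp [(1, 41927424)]) (.sq [(2,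
 25), (3, 25), (5, -2)]))) (.mul (.g 19) (.mul (.pp [(1, 1434840)]) (.sq [(1, 11), (2, 100), (3,
 57), (5, 1)]))))))) (.mul (.g 9) (.add (.add (.mul (.g 10) (.add (.mul (.pp [(1, 2333661)]) (.sq
 [(1, -8), (2, 84), (3, 47), (5, -100)])) (.add (.mul (.g 7) (.mul (.g 10) (.pp [(1,
 57320340000)]))) (.mul (.g 12) (.mul (.g 14) (.pp [(1, 43247820000)])))))) (.add (.mul (.g 9)
 (.add (.mul (.g 9) (.mul (.g 14) (.pp [(1, 1349700000)]))) (.mul (.g 18) (.mul (.g 19) (.pp [(1,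
 15241710000)]))))) (.mul (.g 16) (.add (.mul (.pp [(1, 3800841)]) (.sq [(1, 9), (2, -86), (3,
 -50), (5, 100)])) (.mul (.pp [(1, 230307)]) (.sq [(1, 86), (2, 100), (3, -86), (5, 89)]))))))
 (.add (.mul (.g 12) (.mul (.g 14) (.mul (.g 14) (.pp [(1, 29203350000)])))) (.add (.mul (.g 15)
 (.mul (.g 15) (.pp [(1, 210930225)]))) (.mul (.g 19) (.pp [(1, 289529130000)]))))))) (.add (.mul
 (.g 10) (.add (.mul (.g 10) (.add (.mul (.g 7) (.mul (.g 15) (.pp [(1, 505883400)]))) (.mul (.g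
 13) (.mul (.g 16) (.pp [(1, 301620000)]))))) (.add (.mul (.g 19) (.add (.pp [(1, 237281220000)])
 (.mul (.g 15) (.mul (.g 16) (.pp [(1, 1300398000)]))))) (.mul (.g 13) (.mul (.g 13) (.pp [(1,
 29644230000)])))))) (.add (.mul (.g 14) (.mul (.g 16) (.add (.mul (.pp [(1, 6823179)]) (.sq [(1,
 100), (2, -16), (3, 26), (5, 67)])) (.mul (.g 14) (.add (.pp [(1, 107962140000)]) (.mul (.g 18)
 (.pp [(1, 32988450000)]))))))) (.mul (.g 0) (.pp [(1, 10000000000)]))))) (.add (.add (.mul (.g 1)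
 (.pp [(1, 132000000)])) (.add (.mul (.g 3) (.pp [(1, 110000000000)])) (.mul (.g 5) (.pp [(1,
 110000000000)])))) (.add (.mul (.g 13) (.mul (.g 18) (.mul (.pp [(1, 411081)]) (.sq [(1, -50), (2,
 100), (3, 85), (5, 2)])))) (.add (.mul (.g 17) (.pp [(1, 110000000000)])) (.mul (.g 19) (.pp [(1,
 33465630000)])))))) (.pp [(1, 2795667500), (2, 3182860), (3, 3123968), (4, 3825800), (5, 3306700),
 (6, 3201572), (8, 3190176), (9, 3694031), (10, 2034560), (12, 3703788), (15, 4339819), (16,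
 3300000), (18, 3298383), (19, 330000000000), (20, 3084400), (24, 3300000), (25, 3813876), (27,
 3051026), (30, 3714172), (36, 2937000), (40, 3343824), (45, 2605405), (50, 4758809), (54,
 3723225), (60, 3009996), (75, 2442946), (81, 3239775), (90, 3190176), (100, 3128400), (125,
 2730255), (135, 3233010), (150, 3445728), (225, 3466452), (250, 3051147), (375, 3237762), (625,
 3329469)])))))))))))
 (P_TpB ++ xP_A_T4a) = true := by decide +kernel

theorem t_G_F1_c0 : chk ROp gP_G_F1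
 (.cut 50 [(2, 1), (3, -1)] (.add (.add (.mul (.g 8) (.pp [(1, 45)])) (.mul (.g 7) (.pp [(1, 2)])))
 (.add (.mul (.g 2) (.pp [(1, 5)])) (.mul (.g 9) (.pp [(1, 9)])))) (.rule 0 (.cut 60 [(2, -1), (5,
 1)] (.add (.add (.mul (.g 11) (.pp [(1, 11)])) (.mul (.g 9) (.pp [(1, 3)]))) (.add (.mul (.g 1)
 (.pp [(1, 5)])) (.mul (.g 6) (.pp [(1, 5)])))) (.rule 3 (.leaf 300000000 (.add (.add (.add (.add
 (.mul (.g 7) (.add (.add (.add (.mul (.pp [(1, 52426200)]) (.sq [(2, 5), (3, -11), (5, -47), (7,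
 100)])) (.mul (.g 7) (.add (.add (.mul (.g 7) (.add (.add (.mul (.g 6) (.pp [(1, 17514000000)]))
 (.mul (.g 11) (.pp [(1, 26764950000)]))) (.add (.mul (.g 12) (.pp [(1, 539194500000)])) (.mul (.g
 15) (.pp [(1, 243000000)]))))) (.add (.mul (.g 4) (.mul (.g 12) (.pp [(1, 138658500000)]))) (.mul
 (.g 8) (.mul (.g 8) (.pp [(1, 482502000000)]))))) (.add (.mul (.g 11) (.pp [(1, 4350150000)]))
 (.add (.mul (.g 15) (.pp [(1, 312681000000)])) (.mul (.g 16) (.mul (.g 16) (.pp [(1,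
 65232000000)])))))))) (.add (.mul (.g 8) (.add (.add (.mul (.pp [(1, 1974900)]) (.sq [(1, 6), (2,
 23), (3, -2), (5, 100), (7, -87)])) (.mul (.pp [(1, 13137600)]) (.sq [(1, -7), (2, 4), (3, 100),
 (5, -49), (7, -40)]))) (.add (.mul (.g 13) (.add (.mul (.g 5) (.pp [(1, 289924800000)])) (.add
 (.mul (.g 9) (.pp [(1, 123439200000)])) (.mul (.g 13) (.pp [(1, 33814560000)]))))) (.add (.mul (.g
 4) (.add (.mul (.g 8) (.pp [(1, 133773000000)])) (.mul (.g 15) (.pp [(1, 829611000000)])))) (.mul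
 (.g 6) (.mul (.g 6) (.pp [(1, 42336000000)]))))))) (.add (.mul (.g 15) (.add (.pp [(1,
 564471000000)]) (.add (.mul (.g 5) (.pp [(1, 641661000000)])) (.mul (.g 16) (.mul (.g 16) (.pp
 [(1, 73476000000)])))))) (.mul (.g 4) (.add (.mul (.g 10) (.mul (.g 16) (.pp [(1,
 175407000000)]))) (.mul (.g 12) (.mul (.g 12) (.pp [(1, 142259250000)])))))))) (.add (.add (.mul
 (.g 6) (.add (.mul (.g 6) (.pp [(1, 233763000000)])) (.mul (.g 13) (.mul (.g 13) (.pp [(1,
 3614160000)]))))) (.mul (.g 5) (.mul (.g 5) (.mul (.g 16) (.pp [(1, 141822000000)]))))) (.add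
 (.mul (.g 11) (.pp [(1, 92047650000)])) (.add (.mul (.g 12) (.pp [(1, 1266081000000)])) (.mul (.g
 13) (.pp [(1, 19256400000)]))))))) (.add (.mul (.g 4) (.add (.add (.mul (.g 12) (.add (.add (.pp
 [(1, 18484500000)]) (.mul (.g 5) (.add (.pp [(1, 161664000000)]) (.mul (.g 8) (.pp [(1,
 1810500000)]))))) (.add (.mul (.g 6) (.add (.mul (.g 6) (.pp [(1, 114393000000)])) (.mul (.g 15)
 (.pp [(1, 218004000000)])))) (.mul (.g 8) (.mul (.g 15) (.pp [(1, 106447500000)])))))) (.mul (.g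
 4) (.add (.mul (.g 4) (.add (.mul (.g 8) (.pp [(1, 2229000000)])) (.mul (.g 15) (.pp [(1,
 346494000000)])))) (.mul (.g 15) (.pp [(1, 577335000000)]))))) (.add (.mul (.g 6) (.add (.mul (.pp
 [(1, 13326900)]) (.sq [(1, -27), (2, 5), (3, 13), (5, -76), (7, 100)])) (.mul (.g 6) (.mul (.g 10)
 (.pp [(1, 18279000000)]))))) (.add (.mul (.g 10) (.mul (.pp [(1, 5700900)]) (.sq [(1, -37), (2,
 -71), (3, -53), (5, 91), (7, -100)]))) (.mul (.g 13) (.pp [(1, 126372600000)])))))) (.mul (.g 6)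
 (.add (.mul (.g 6) (.add (.mul (.g 12) (.add (.pp [(1, 316221000000)]) (.mul (.g 10) (.pp [(1,
 55809000000)])))) (.mul (.g 8) (.mul (.g 11) (.pp [(1, 25271850000)]))))) (.add (.mul (.g 15)
 (.add (.mul (.g 8) (.add (.mul (.g 8) (.pp [(1, 175575000000)])) (.mul (.g 15) (.pp [(1,
 46635000000)])))) (.mul (.g 15) (.mul (.g 15) (.pp [(1, 24267000000)]))))) (.mul (.g 13) (.pp [(1,
 104304600000)]))))))) (.add (.mul (.g 11) (.add (.add (.mul (.pp [(1, 3719445)]) (.sq [(2, 12),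
 (3, 49), (5, -21), (7, 100)])) (.mul (.pp [(1, 19142550000)]) (.sq [(2, 1), (3, -1)]))) (.add
 (.mul (.g 13) (.add (.pp [(1, 823170000)]) (.mul (.pp [(1, 17316)]) (.sq [(1, 83), (2, 100), (3,
 -49), (5, 20), (7, 20)])))) (.add (.mul (.g 8) (.mul (.pp [(1, 273870)]) (.sq [(1, -13), (2, 11),
 (3, 41), (5, -58), (7, 100)]))) (.mul (.g 16) (.pp [(1, 11833200000)])))))) (.add (.mul (.g 5)
 (.add (.mul (.g 5) (.add (.mul (.g 5) (.add (.mul (.g 8) (.pp [(1, 25209000000)])) (.mul (.g 16)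
 (.pp [(1, 29463000000)])))) (.mul (.g 15) (.pp [(1, 1009713000000)])))) (.add (.mul (.g 12) (.mul
 (.g 12) (.pp [(1, 386383500000)]))) (.mul (.g 13) (.pp [(1, 150610200000)]))))) (.mul (.g 16)
 (.add (.add (.mul (.g 8) (.mul (.pp [(1, 10107600)]) (.sq [(1, -81), (2, 67), (3, 68), (5, 100),
 (7, 100)]))) (.mul (.g 12) (.pp [(1, 229711500000)]))) (.add (.mul (.g 13) (.mul (.pp [(1,
 725880)]) (.sq [(1, 35), (2, -35), (3, 67), (5, -57), (7, 100)]))) (.mul (.g 16) (.mul (.pp [(1,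
 5337300)]) (.sq [(1, -83), (2, 100), (3, 100), (5, 100), (7, 100)]))))))))) (.add (.add (.mul (.g
 9) (.add (.mul (.g 9) (.mul (.pp [(1, 47700)]) (.sq [(1, 16), (2, -70), (3, 20), (5, -17), (7,
 100)]))) (.add (.mul (.g 13) (.mul (.pp [(1, 77820)]) (.sq [(1, 57), (2, -34), (3, -100), (5,
 -66), (7, 81)]))) (.mul (.g 15) (.mul (.pp [(1, 616800)]) (.sq [(1, 55), (2, 58), (3, -72), (5,
 -76), (7, 100)])))))) (.add (.mul (.g 0) (.pp [(1, 1000000000000)])) (.mul (.g 2) (.pp [(1,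
 1000000000000)])))) (.add (.add (.mul (.g 10) (.mul (.g 10) (.mul (.pp [(1, 176700)]) (.sq [(1,
 1), (2, -73), (3, 35), (5, 100), (7, -41)])))) (.mul (.g 12) (.pp [(1, 188368500000)]))) (.add
 (.mul (.g 14) (.pp [(1, 1000000000)])) (.mul (.g 15) (.mul (.g 15) (.mul (.pp [(1, 8530800)]) (.sq
 [(1, 4), (2, 42), (3, 27), (5, -50), (7, -5)])))))))) (.pp [(1, 13496407242), (2, 27905790), (3,
 26082948), (4, 34731330), (5, 25676160), (6, 29075520), (7, 29215200), (8, 28355130), (9,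
 35047923), (10, 31905360), (12, 30660180), (14, 37907760), (15, 40665930), (16, 29107200), (18,
 30286110), (19, 3000000000000), (20, 24936600), (21, 28747680), (24, 30912300), (25, 39516585),
 (27, 27742240), (28, 24098220), (30, 26119800), (35, 35312040), (36, 29324700), (40, 31410000),
 (42, 24088680), (45, 22359900), (49, 30933960), (50, 29848260), (54, 28121700), (56, 31412700),
 (60, 30056400), (63, 33593400), (70, 25995360), (75, 20487660), (81, 31034100), (84, 29439000),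
 (90, 29056800), (98, 26703360), (100, 29457900), (105, 32018520), (125, 21602580), (126,
 32289000), (135, 34108800), (140, 30886800), (147, 31465140), (150, 34085700), (175, 16993920),
 (189, 28321800), (196, 29934300), (210, 34488000), (225, 33067200), (245, 26810040), (250,
 31216500), (294, 33621300), (315, 29102400), (343, 28143900), (350, 31143000), (375, 32029200),
 (441, 28689000), (490, 30689400), (525, 27286200), (625, 32577900), (686, 29114100), (735,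
 26761500), (875, 35443200), (1029, 30816000), (1225, 34257300), (1715, 31560000), (2401,
 29730000)])))))))
 (P_c0 ++ xP_G_F1) = true := by decide +kernel

theorem t_G_F1_c4 : chk RFp gP_G_F1
 (.split [(1, 1), (2, -20)]
 (.split [(1, -17), (3, 32)]
 (.split [(1, -1), (7, 2)]
 (.rule 4 (.leaf 38400000000 (.add (.add (.add (.add (.mul (.g 6) (.add (.add (.add (.pp [(1,
 264746880000000)]) (.mul (.g 3) (.add (.add (.pp [(1, 1637145600000)]) (.mul (.pp [(1, 30720)])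
 (.sq [(1, 43), (2, 50), (3, 50), (5, 50), (7, 50)]))) (.add (.mul (.g 6) (.add (.mul (.g 2) (.pp
 [(1, 164334000000)])) (.add (.mul (.g 5) (.pp [(1, 9951244800000)])) (.mul (.g 11) (.pp [(1,
 29927040000)]))))) (.mul (.g 5) (.mul (.g 14) (.pp [(1, 17611449600000)]))))))) (.add (.mul (.g 5)
 (.add (.add (.mul (.pp [(1, 4185600)]) (.sq [(1, 8), (2, 100), (3, -9), (5, -56), (7, 40)])) (.mul
 (.g 4) (.mul (.g 14) (.pp [(1, 48003072000000)])))) (.add (.mul (.g 11) (.mul (.g 11) (.pp [(1,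
 17829120000)]))) (.mul (.g 13) (.pp [(1, 4349952000000)]))))) (.mul (.g 10) (.add (.mul (.g 10)
 (.add (.mul (.g 8) (.pp [(1, 4701312000000)])) (.mul (.g 10) (.pp [(1, 571392000000)])))) (.mul
 (.g 1) (.mul (.g 4) (.pp [(1, 514368000000)]))))))) (.add (.add (.mul (.g 13) (.add (.mul (.pp
 [(1, 307200)]) (.sq [(1, -1), (2, -59), (3, 100), (5, -15), (7, -45)])) (.mul (.g 6) (.pp [(1,
 6610560000000)])))) (.mul (.g 7) (.pp [(1, 2780160000000)]))) (.add (.mul (.g 9) (.mul (.pp [(1,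
 734438400)]) (.sq [(1, -49), (2, -81), (3, 100), (5, 70), (7, -18)]))) (.mul (.g 14) (.pp [(1,
 13515264000000)])))))) (.mul (.g 4) (.add (.add (.mul (.g 10) (.add (.mul (.g 1) (.add (.mul (.g
 3) (.pp [(1, 545904000000)])) (.mul (.g 5) (.pp [(1, 879936000000)])))) (.add (.mul (.g 10) (.add
 (.mul (.g 9) (.pp [(1, 7896960000000)])) (.mul (.g 10) (.pp [(1, 2811648000000)])))) (.mul (.g 5)
 (.mul (.g 14) (.pp [(1, 15831936000000)])))))) (.mul (.g 13) (.add (.mul (.g 4) (.pp [(1,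
 48400128000000)])) (.add (.mul (.g 5) (.pp [(1, 24489600000000)])) (.mul (.g 7) (.pp [(1,
 25411584000000)])))))) (.add (.mul (.g 1) (.add (.mul (.g 1) (.mul (.g 1) (.pp [(1,
 7959792000000)]))) (.mul (.g 8) (.mul (.g 8) (.pp [(1, 29399424000000)]))))) (.add (.mul (.g 3)
 (.add (.pp [(1, 274617600000)]) (.mul (.pp [(1, 5771520)]) (.sq [(1, 83), (2, 80), (3, 100), (5,
 100), (7, 38)])))) (.mul (.g 7) (.mul (.g 8) (.mul (.g 8) (.pp [(1, 6452736000000)]))))))))) (.add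
 (.mul (.g 3) (.add (.add (.pp [(1, 6849945600000)]) (.add (.mul (.g 8) (.add (.mul (.g 1) (.add
 (.mul (.g 1) (.pp [(1, 816820800000)])) (.mul (.g 7) (.pp [(1, 3396451200000)])))) (.mul (.g 13)
 (.mul (.g 13) (.pp [(1, 115200000)]))))) (.mul (.g 5) (.pp [(1, 2745849600000)])))) (.add (.mul
 (.g 7) (.pp [(1, 1825420800000)])) (.add (.mul (.g 9) (.mul (.pp [(1, 66958080)]) (.sq [(1, -43),
 (2, -84), (3, 73), (5, 100), (7, -69)]))) (.mul (.g 14) (.mul (.pp [(1, 11520)]) (.sq [(1, 51),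
 (2, 27), (3, -74), (5, -100), (7, 64)]))))))) (.add (.mul (.g 5) (.add (.add (.pp [(1,
 20600064000000)]) (.mul (.g 13) (.add (.pp [(1, 20225280000000)]) (.mul (.g 7) (.pp [(1,
 931200000000)]))))) (.add (.mul (.g 14) (.add (.pp [(1, 12830208000000)]) (.mul (.g 10) (.mul (.g
 10) (.pp [(1, 2516352000000)]))))) (.add (.mul (.g 8) (.mul (.pp [(1, 1036800)]) (.sq [(1, 18),
 (2, -65), (3, -5), (5, 100), (7, -33)]))) (.mul (.g 9) (.pp [(1, 14219520000000)])))))) (.mul (.g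
 11) (.add (.add (.mul (.g 11) (.add (.mul (.pp [(1, 276672)]) (.sq [(1, -50), (2, 64), (3, 9), (5,
 9), (7, 100)])) (.add (.mul (.pp [(1, 814848)]) (.sq [(1, -77), (2, -30), (3, 33), (5, -48), (7,
 100)])) (.mul (.g 11) (.mul (.g 11) (.pp [(1, 2608800)])))))) (.mul (.g 8) (.add (.mul (.pp [(1,
 17971200)]) (.sq [(1, 49), (2, 60), (3, -6), (5, -6), (7, 100)])) (.mul (.pp [(1, 21171840)]) (.sq
 [(1, -17), (2, 62), (3, 100), (5, -24), (7, -12)]))))) (.add (.mul (.g 9) (.mul (.pp [(1,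
 8954880)]) (.sq [(1, -22), (2, 14), (3, 85), (5, 5), (7, 100)]))) (.mul (.g 13) (.mul (.pp [(1,
 1330560)]) (.sq [(1, -37), (2, -19), (3, 61), (5, 38), (7, 100)]))))))))) (.add (.add (.mul (.g 7)
 (.add (.add (.mul (.g 13) (.add (.pp [(1, 15096576000000)]) (.mul (.pp [(1, 768000)]) (.sq [(1,
 100), (2, 45), (3, 85), (5, 85), (7, 69)])))) (.mul (.g 1) (.mul (.g 8) (.mul (.g 8) (.pp [(1,
 2401920000000)]))))) (.add (.mul (.g 2) (.pp [(1, 201720000000)])) (.mul (.g 10) (.mul (.pp [(1,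
 697305600)]) (.sq [(1, 66), (2, 100), (3, 42), (5, 82), (7, -15)])))))) (.add (.mul (.g 9) (.add
 (.add (.mul (.g 14) (.add (.mul (.pp [(1, 134515200)]) (.sq [(1, 18), (2, 69), (3, -100), (5,
 -78), (7, 67)])) (.mul (.pp [(1, 35481600)]) (.sq [(1, 35), (2, -100), (3, 48), (5, -98), (7,
 96)])))) (.mul (.g 1) (.mul (.pp [(1, 40185600)]) (.sq [(1, 32), (2, 75), (3, -93), (5, -100), (7,
 -52)])))) (.add (.mul (.g 8) (.mul (.pp [(1, 198973440000)]) (.sq [(1, -4), (2, 4), (3, 5), (5,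
 5), (7, 2)]))) (.mul (.g 13) (.mul (.pp [(1, 33676800)]) (.sq [(1, -2), (2, -66), (3, 87), (5,
 82), (7, -100)])))))) (.mul (.g 2) (.add (.pp [(1, 6571500000000)]) (.add (.mul (.g 2) (.mul (.pp
 [(1, 225)]) (.sq [(1, -87), (2, -34), (3, 95), (5, -100), (7, 93)]))) (.mul (.g 13) (.mul (.pp
 [(1, 998400)]) (.sq [(1, 25), (2, 12), (3, 12), (5, 12), (7, 12)])))))))) (.add (.mul (.g 10)
 (.add (.mul (.g 10) (.mul (.g 10) (.mul (.g 10) (.pp [(1, 506880000000)])))) (.mul (.g 14) (.mul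
 (.pp [(1, 35635200)]) (.sq [(1, 2), (2, 31), (3, 50), (5, -9), (7, 24)]))))) (.add (.mul (.g 0)
 (.pp [(1, 128000000000000)])) (.mul (.g 12) (.pp [(1, 512000000000)])))))) (.pp [(1,
 7043627744463), (2, 3786848100), (3, 4194253266), (4, 3668000508), (5, 4083730824), (6,
 4372152636), (7, 3711870390), (8, 3651636480), (9, 3937073151), (10, 4554804336), (12,
 4660968960), (14, 3523618740), (15, 3044508600), (16, 3894835200), (18, 3292104960), (20,
 4054861440), (21, 4954605690), (24, 4106304000), (25, 3154628016), (27, 3799248960), (28,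
 3773105280), (30, 2192981760), (35, 4417738920), (36, 3123532800), (40, 4318540800), (42,
 4677696000), (45, 4828122240), (49, 3509615415), (50, 2722828800), (54, 4542451200), (56,
 4000435200), (60, 1772774400), (63, 3143063040), (70, 4262561280), (75, 4571366400), (81,
 3700838400), (84, 3130368000), (90, 6437376000), (98, 3954067200), (100, 2919859200), (105,
 2944396800), (125, 4750279680), (126, 4161369600), (135, 2506560000), (140, 3320217600), (147,
 3618626880), (150, 6198451200), (175, 3089533440), (189, 3990105600), (196, 4338816000), (210,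
 4293043200), (225, 2631321600), (245, 4540512000), (250, 4905062400), (294, 2763148800), (315,
 3366489600), (343, 4191744000), (350, 3883699200), (375, 2678937600), (441, 4241587200), (490,
 3246220800), (525, 3411148800), (625, 3401088000), (686, 3859315200), (735, 3594278400), (875,
 3895756800), (1029, 3383232000), (1225, 3257894400), (1715, 3061132800), (2401, 3656448000)]))))
 (.rule 4 (.leaf 480000000 (.add (.add (.add (.add (.mul (.g 6) (.add (.add (.pp [(1,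
 3359563200000)]) (.add (.mul (.g 5) (.add (.add (.mul (.g 3) (.add (.mul (.g 4) (.pp [(1,
 239649840000)])) (.add (.mul (.g 8) (.pp [(1, 239845920000)])) (.mul (.g 13) (.pp [(1,
 181680000)]))))) (.add (.mul (.g 7) (.add (.mul (.g 8) (.pp [(1, 33600000)])) (.mul (.g 11) (.pp
 [(1, 16080000)])))) (.mul (.g 2) (.mul (.g 9) (.pp [(1, 1950000)]))))) (.add (.mul (.g 5) (.mul
 (.g 14) (.pp [(1, 48000000)]))) (.add (.mul (.g 8) (.mul (.g 10) (.pp [(1, 24000000)]))) (.mul (.g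
 13) (.pp [(1, 307200000)])))))) (.mul (.g 4) (.add (.add (.mul (.g 4) (.add (.mul (.g 3) (.pp [(1,
 10094400000)])) (.add (.mul (.g 6) (.pp [(1, 2431684800000)])) (.mul (.g 14) (.pp [(1,
 2392118400000)]))))) (.mul (.g 7) (.add (.mul (.g 6) (.pp [(1, 1003699200000)])) (.mul (.g 14)
 (.pp [(1, 1002460800000)]))))) (.add (.mul (.g 9) (.mul (.g 14) (.pp [(1, 681600000)]))) (.mul (.g
 13) (.pp [(1, 6028800000)]))))))) (.add (.add (.mul (.g 6) (.add (.pp [(1, 81600000)]) (.add (.mul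
 (.g 3) (.add (.mul (.g 1) (.pp [(1, 147000000)])) (.mul (.g 10) (.pp [(1, 52800000)])))) (.mul (.g
 7) (.mul (.g 8) (.pp [(1, 264000000)])))))) (.mul (.g 7) (.add (.pp [(1, 417600000)]) (.mul (.g
 13) (.add (.pp [(1, 148800000)]) (.mul (.g 1) (.pp [(1, 24000000)]))))))) (.add (.mul (.g 3) (.mul
 (.g 13) (.mul (.g 13) (.pp [(1, 325440000)])))) (.mul (.g 9) (.mul (.pp [(1, 480)]) (.sq [(1,
 -41), (2, -100), (3, 79), (5, -85), (7, 97)]))))))) (.mul (.g 4) (.add (.add (.mul (.g 4) (.add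
 (.add (.mul (.g 8) (.add (.mul (.g 1) (.pp [(1, 308577600000)])) (.mul (.g 13) (.pp [(1,
 183235200000)])))) (.mul (.g 2) (.mul (.g 9) (.pp [(1, 667950000)])))) (.add (.mul (.g 4) (.mul
 (.g 11) (.pp [(1, 1866240000)]))) (.add (.mul (.g 5) (.mul (.g 10) (.pp [(1, 35568000000)])))
 (.mul (.g 13) (.pp [(1, 2232096000000)])))))) (.mul (.g 7) (.add (.add (.pp [(1, 447926400000)])
 (.mul (.g 1) (.add (.mul (.g 1) (.pp [(1, 197178000000)])) (.mul (.g 8) (.pp [(1,
 1269316800000)]))))) (.add (.mul (.g 13) (.add (.pp [(1, 972408000000)]) (.mul (.g 8) (.pp [(1,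
 34300800000)])))) (.mul (.g 5) (.mul (.g 9) (.pp [(1, 1795200000)]))))))) (.add (.mul (.g 3) (.add
 (.pp [(1, 66451440000)]) (.mul (.pp [(1, 72216)]) (.sq [(1, 83), (2, 80), (3, 100), (5, 100), (7,
 38)])))) (.mul (.g 13) (.add (.mul (.pp [(1, 450240)]) (.sq [(1, -8), (2, 100), (3, -47), (5, 79),
 (7, -9)])) (.mul (.g 5) (.pp [(1, 1286400000)])))))))) (.add (.mul (.g 1) (.add (.add (.pp [(1,
 45600000)]) (.mul (.g 7) (.add (.add (.pp [(1, 112800000)]) (.mul (.pp [(1, 960)]) (.sq [(1, -3),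
 (2, 13), (3, -69), (5, 69), (7, -100)]))) (.add (.mul (.g 5) (.mul (.g 13) (.pp [(1,
 367200000)]))) (.mul (.g 7) (.mul (.g 11) (.pp [(1, 240000)]))))))) (.add (.mul (.g 1) (.mul (.g
 13) (.add (.mul (.g 2) (.pp [(1, 3675000)])) (.mul (.g 3) (.pp [(1, 88800000)]))))) (.add (.mul
 (.g 3) (.mul (.g 5) (.mul (.g 10) (.pp [(1, 38160000)])))) (.mul (.g 9) (.mul (.pp [(1, 6480)])
 (.sq [(1, -17), (2, -76), (3, 100), (5, 15), (7, 12)]))))))) (.add (.mul (.g 5) (.add (.add (.pp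
 [(1, 489739200000)]) (.mul (.g 9) (.add (.pp [(1, 288000000)]) (.mul (.g 7) (.add (.mul (.g 9)
 (.pp [(1, 28800000)])) (.mul (.g 10) (.pp [(1, 249600000)]))))))) (.add (.mul (.g 3) (.add (.pp
 [(1, 200400000)]) (.mul (.g 10) (.mul (.g 10) (.pp [(1, 3840000)]))))) (.mul (.g 14) (.pp [(1,
 239731200000)]))))) (.mul (.g 2) (.add (.pp [(1, 82186200000)]) (.add (.mul (.g 7) (.add (.pp [(1,
 300000)]) (.mul (.g 7) (.mul (.g 13) (.pp [(1, 6300000)]))))) (.mul (.g 9) (.mul (.pp [(1, 45)])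
 (.sq [(1, 18), (2, 68), (3, -100), (5, -85), (7, 99)]))))))))) (.add (.add (.mul (.g 9) (.add
 (.mul (.g 10) (.mul (.pp [(1, 4800)]) (.sq [(1, 2), (2, -82), (3, -83), (5, 100), (7, 33)])))
 (.add (.mul (.g 11) (.mul (.pp [(1, 24)]) (.sq [(1, 46), (2, 90), (3, 57), (5, 33), (7, 100)])))
 (.mul (.g 14) (.mul (.pp [(1, 4800)]) (.sq [(1, -25), (2, 38), (3, 98), (5, -26), (7, -100)]))))))
 (.mul (.g 3) (.add (.pp [(1, 127261440000)]) (.mul (.g 13) (.mul (.pp [(1, 47448)]) (.sq [(1, 10),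
 (2, -96), (3, -35), (5, 100), (7, -6)])))))) (.add (.mul (.g 0) (.pp [(1, 1600000000000)])) (.add
 (.mul (.g 7) (.mul (.g 13) (.mul (.pp [(1, 6720)]) (.sq [(1, 100), (2, 45), (3, 85), (5, 85), (7,
 69)])))) (.mul (.g 12) (.pp [(1, 6400000000)])))))) (.pp [(1, 98623122396), (2, 45948732), (3,
 45010668), (4, 47541072), (5, 48239520), (6, 46185024), (7, 45457860), (8, 45203040), (9,
 51000000), (10, 48544836), (12, 46602720), (14, 51634356), (15, 55478652), (16, 44611200), (18,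
 52721064), (20, 38374008), (21, 39115500), (24, 45997440), (25, 46734753), (27, 45420216), (28,
 43006008), (30, 54325392), (35, 44990910), (36, 52507680), (40, 47840640), (42, 38422800), (45,
 44518344), (49, 46200357), (50, 49370469), (54, 43824960), (56, 45369600), (60, 54505920), (63,
 56658000), (70, 50401986), (75, 44777019), (81, 49026720), (84, 42180480), (90, 37513920), (98,
 36903237), (100, 52871520), (105, 53828190), (125, 46917411), (126, 58103520), (135, 49555680),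
 (140, 57779520), (147, 48815835), (150, 47311200), (175, 54106470), (189, 41865600), (196,
 47884800), (210, 53834880), (225, 47595840), (245, 56819163), (250, 48055200), (294, 50878560),
 (315, 41964480), (343, 49748448), (350, 38940960), (375, 47812800), (441, 50729760), (490,
 53935200), (525, 47707680), (625, 48745920), (686, 55312320), (735, 50161920), (875, 47608800),
 (1029, 50655360), (1225, 50396640), (1715, 44057280), (2401, 51193920)])))))
 (.split [(1, -1), (5, 2)]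
 (.split [(1, -9), (3, 32)]
 (.rule 4 (.leaf 15360000000 (.add (.add (.add (.add (.mul (.g 8) (.add (.add (.mul (.g 4) (.add
 (.add (.mul (.pp [(1, 768)]) (.sq [(1, 82), (2, 47), (3, 100), (5, 100), (7, 47)])) (.add (.mul
 (.g 1) (.mul (.g 11) (.pp [(1, 1920000)]))) (.mul (.g 4) (.mul (.g 10) (.pp [(1, 4224000)])))))
 (.add (.mul (.g 5) (.pp [(1, 6957319680000)])) (.add (.mul (.g 6) (.pp [(1, 53760000)])) (.mul (.g
 8) (.pp [(1, 6957312000000)])))))) (.add (.mul (.g 8) (.add (.add (.mul (.g 5) (.add (.mul (.g 5)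
 (.pp [(1, 82327603200000)])) (.mul (.g 8) (.pp [(1, 25465804800000)])))) (.mul (.g 2) (.pp [(1,
 1075200000)]))) (.add (.mul (.g 6) (.mul (.g 7) (.pp [(1, 1228800000)]))) (.mul (.g 8) (.mul (.g
 10) (.pp [(1, 153600000)])))))) (.mul (.g 14) (.add (.pp [(1, 6959616000000)]) (.add (.mul (.pp
 [(1, 15360)]) (.sq [(1, -12), (2, -71), (3, 100), (5, -52), (7, -65)])) (.mul (.pp [(1, 122880)])
 (.sq [(1, 100), (2, 45), (3, 85), (5, 85), (7, 69)]))))))) (.add (.mul (.g 2) (.add (.pp [(1,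
 3481958400000)]) (.mul (.g 7) (.mul (.g 15) (.pp [(1, 921600000)]))))) (.add (.mul (.g 5) (.add
 (.pp [(1, 86826086400000)]) (.mul (.g 5) (.mul (.g 5) (.pp [(1, 25464422400000)]))))) (.mul (.g 7)
 (.mul (.g 7) (.pp [(1, 11059200000)]))))))) (.add (.mul (.g 7) (.add (.add (.pp [(1,
 501043200000)]) (.add (.mul (.g 7) (.add (.add (.mul (.pp [(1, 30720)]) (.sq [(1, 100), (2, -63),
 (3, -8), (5, 71), (7, -94)])) (.mul (.g 2) (.add (.mul (.g 9) (.pp [(1, 2150400000)])) (.mul (.g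
 10) (.pp [(1, 614400000)]))))) (.add (.mul (.g 3) (.mul (.g 7) (.pp [(1, 24000000)]))) (.mul (.g
 14) (.pp [(1, 10291200000)]))))) (.mul (.g 4) (.add (.pp [(1, 161280000)]) (.mul (.g 6) (.pp [(1,
 7680046080000)])))))) (.add (.add (.mul (.g 3) (.pp [(1, 239995200000)])) (.mul (.g 11) (.mul (.pp
 [(1, 46080)]) (.sq [(1, -24), (2, 100), (3, -79), (5, 65), (7, 8)])))) (.add (.mul (.g 12) (.mul
 (.pp [(1, 1536)]) (.sq [(1, 73), (2, -96), (3, 55), (5, -100), (7, 30)]))) (.mul (.g 14) (.pp [(1,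
 8601600000)])))))) (.mul (.g 6) (.add (.add (.pp [(1, 107510937600000)]) (.mul (.g 4) (.add (.pp
 [(1, 176640000)]) (.add (.mul (.g 6) (.add (.pp [(1, 46080000)]) (.mul (.g 6) (.pp [(1,
 23040000)])))) (.mul (.g 5) (.pp [(1, 53760000)])))))) (.add (.mul (.g 3) (.add (.pp [(1,
 192000000)]) (.add (.mul (.pp [(1, 1440)]) (.sq [(1, 45), (2, 52), (3, 73), (5, -38), (7, 100)]))
 (.mul (.g 6) (.pp [(1, 43200000)]))))) (.mul (.g 14) (.add (.pp [(1, 4608000000)]) (.mul (.g 6)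
 (.pp [(1, 2150400000)]))))))))) (.add (.mul (.g 4) (.add (.pp [(1, 3968271360000)]) (.add (.mul
 (.g 5) (.add (.mul (.pp [(1, 6144)]) (.sq [(1, 83), (2, 80), (3, 100), (5, 100), (7, 38)])) (.mul
 (.g 5) (.add (.pp [(1, 872271360000)]) (.mul (.g 5) (.pp [(1, 74511360000)])))))) (.mul (.g 14)
 (.mul (.pp [(1, 1536)]) (.sq [(1, -100), (2, 100), (3, 3), (5, 3), (7, 100)])))))) (.add (.mul (.g
 2) (.add (.add (.pp [(1, 53204121600000)]) (.mul (.g 2) (.mul (.g 5) (.mul (.g 9) (.pp [(1,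
 76800000)]))))) (.add (.mul (.g 10) (.mul (.pp [(1, 399360)]) (.sq [(1, -27), (2, 15), (3, -21),
 (5, 50), (7, -18)]))) (.mul (.g 11) (.mul (.pp [(1, 15360)]) (.sq [(1, 78), (2, -64), (3, 31), (5,
 -100), (7, 47)])))))) (.mul (.g 14) (.add (.pp [(1, 3479347200000)]) (.add (.mul (.g 15) (.add
 (.mul (.pp [(1, 30720)]) (.sq [(1, -100), (2, 81), (3, 81), (5, 81), (7, 81)])) (.mul (.pp [(1,
 30720)]) (.sq [(1, -32), (2, -2), (3, 33), (5, 100), (7, -97)])))) (.mul (.g 1) (.mul (.pp [(1,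
 5760)]) (.sq [(1, 50), (2, 31), (3, 31), (5, 31), (7, 31)]))))))))) (.add (.add (.mul (.g 10)
 (.add (.mul (.g 10) (.mul (.pp [(1, 15360)]) (.sq [(1, -34), (2, 62), (3, 83), (5, 35), (7,
 -100)]))) (.add (.mul (.g 11) (.mul (.pp [(1, 184320)]) (.sq [(1, 9), (2, -31), (3, -50), (5, 20),
 (7, -9)]))) (.mul (.g 12) (.mul (.pp [(1, 1536)]) (.sq [(1, 35), (2, 100), (3, -4), (5, 6), (7,
 -1)])))))) (.add (.mul (.g 3) (.add (.mul (.g 1) (.mul (.pp [(1, 105)]) (.sq [(1, 37), (2, 41),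
 (3, 100), (5, 90), (7, 12)]))) (.mul (.g 15) (.mul (.pp [(1, 2400)]) (.sq [(1, 13), (2, 27), (3,
 100), (5, -66), (7, 62)]))))) (.mul (.g 0) (.pp [(1, 51200000000000)])))) (.add (.add (.mul (.g 5)
 (.mul (.g 5) (.pp [(1, 43163750400000)]))) (.mul (.g 11) (.mul (.g 11) (.mul (.pp [(1, 15360)])
 (.sq [(1, 38), (2, -27), (3, -59), (5, 100), (7, 17)]))))) (.add (.mul (.g 12) (.mul (.g 15) (.mul
 (.pp [(1, 768)]) (.sq [(1, -16), (2, -9), (3, 100), (5, 54), (7, -55)])))) (.mul (.g 13) (.pp [(1,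
 204800000000)])))))) (.pp [(1, 8278185801657), (2, 1276163610), (3, 1411720200), (4, 1510618737),
 (5, 1188572388), (6, 1765858440), (7, 1415419128), (8, 1396700160), (9, 1669868880), (10,
 1806169236), (12, 1733711040), (14, 1793835864), (15, 1786030800), (16, 1507722240), (18,
 1370421504), (20, 1425530592), (21, 1347361632), (24, 1477693440), (25, 2198203428), (27,
 1460805216), (28, 1113310848), (30, 727365888), (35, 1639015152), (36, 1570652160), (40,
 1344076800), (42, 1279226112), (45, 1534394112), (49, 1772261520), (50, 1092467328), (54,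
 1428080640), (56, 1543111680), (60, 1449308160), (63, 1416953472), (70, 1408685952), (75,
 1492857216), (81, 1622768640), (84, 1547151360), (90, 1554754560), (98, 1450777344), (100,
 1571435520), (105, 1701502464), (125, 1224177408), (126, 1718845440), (135, 1510548480), (140,
 1773726720), (147, 1493296896), (150, 1692149760), (175, 1076026752), (189, 1559869440), (196,
 1810882560), (210, 1582540800), (225, 1302712320), (245, 1126999296), (250, 1344046080), (294,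
 1488291840), (315, 1639280640), (343, 1370621568), (350, 1318471680), (375, 1517859840), (441,
 1728875520), (490, 1441397760), (525, 1544816640), (625, 1700106240), (686, 1553187840), (735,
 1579146240), (875, 1751500800), (1029, 1572433920), (1225, 1969090560), (1715, 1858145280), (2401,
 649927680)]))))
 (.rule 4 (.leaf 240000000 (.add (.add (.add (.add (.mul (.g 8) (.add (.add (.mul (.g 5) (.add
 (.add (.pp [(1, 1356681600000)]) (.add (.mul (.g 5) (.add (.mul (.g 5) (.pp [(1, 397893600000)]))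
 (.add (.mul (.g 8) (.pp [(1, 1286344800000)])) (.mul (.g 10) (.pp [(1, 4800000)]))))) (.mul (.g 8)
 (.add (.mul (.g 8) (.pp [(1, 397881600000)])) (.mul (.g 10) (.pp [(1, 21600000)])))))) (.add (.mul
 (.g 1) (.pp [(1, 225000)])) (.add (.mul (.g 4) (.pp [(1, 108708120000)])) (.mul (.g 11) (.mul (.g
 14) (.pp [(1, 12000000)]))))))) (.add (.mul (.g 14) (.add (.add (.pp [(1, 108772800000)]) (.add
 (.mul (.pp [(1, 960)]) (.sq [(1, -3), (2, -13), (3, -100), (5, 62), (7, 94)])) (.mul (.g 6) (.add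
 (.pp [(1, 64800000)]) (.mul (.g 3) (.pp [(1, 450000)])))))) (.add (.mul (.g 8) (.add (.pp [(1,
 31200000)]) (.mul (.g 9) (.pp [(1, 14400000)])))) (.add (.mul (.g 1) (.mul (.g 14) (.pp [(1,
 1350000)]))) (.mul (.g 7) (.pp [(1, 4800000)])))))) (.mul (.g 7) (.add (.mul (.g 6) (.add (.mul
 (.g 8) (.pp [(1, 40800000)])) (.mul (.g 11) (.pp [(1, 24000000)])))) (.add (.mul (.g 4) (.pp [(1,
 240000)])) (.mul (.g 8) (.mul (.g 15) (.pp [(1, 7200000)])))))))) (.add (.mul (.g 1) (.add (.mul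
 (.pp [(1, 30)]) (.sq [(1, 50), (2, 49), (3, 49), (5, 49), (7, 49)])) (.mul (.g 2) (.mul (.g 8)
 (.pp [(1, 37500)]))))) (.add (.mul (.g 2) (.pp [(1, 54421200000)])) (.mul (.g 4) (.mul (.g 8) (.pp
 [(1, 108708960000)]))))))) (.add (.mul (.g 7) (.add (.add (.pp [(1, 220113600000)]) (.add (.mul
 (.g 4) (.add (.add (.pp [(1, 2160000)]) (.mul (.pp [(1, 48)]) (.sq [(1, 43), (2, 50), (3, 50), (5,
 50), (7, 50)]))) (.add (.mul (.g 6) (.add (.pp [(1, 120000120000)]) (.mul (.g 11) (.pp [(1,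
 600000)])))) (.mul (.g 7) (.add (.pp [(1, 720000)]) (.mul (.g 7) (.pp [(1, 1320000)]))))))) (.mul
 (.g 7) (.add (.mul (.g 7) (.add (.mul (.g 1) (.pp [(1, 75000)])) (.mul (.g 14) (.pp [(1,
 4800000)])))) (.add (.mul (.g 2) (.mul (.g 10) (.pp [(1, 8400000)]))) (.mul (.g 14) (.pp [(1,
 48000000)]))))))) (.add (.add (.mul (.g 14) (.add (.pp [(1, 88800000)]) (.mul (.pp [(1, 240)])
 (.sq [(1, 100), (2, 81), (3, 81), (5, 81), (7, 81)])))) (.mul (.g 1) (.pp [(1, 3749925000)])))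
 (.add (.mul (.g 5) (.mul (.g 6) (.mul (.g 6) (.pp [(1, 21600000)])))) (.mul (.g 10) (.mul (.pp
 [(1, 960)]) (.sq [(1, -9), (2, 27), (3, -9), (5, 50), (7, -10)]))))))) (.mul (.g 6) (.add (.add
 (.pp [(1, 1679896800000)]) (.mul (.g 1) (.add (.pp [(1, 825000)]) (.add (.mul (.pp [(1, 120)])
 (.sq [(1, 50), (2, 49), (3, 49), (5, 49), (7, 49)])) (.mul (.g 6) (.add (.pp [(1, 75000)]) (.mul
 (.g 6) (.pp [(1, 375000)])))))))) (.add (.mul (.g 4) (.add (.pp [(1, 2880000)]) (.add (.mul (.g 5)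
 (.pp [(1, 960000)])) (.mul (.g 6) (.pp [(1, 240000)]))))) (.mul (.g 14) (.add (.pp [(1,
 88800000)]) (.mul (.g 6) (.pp [(1, 2400000)]))))))))) (.add (.mul (.g 4) (.add (.pp [(1,
 62004720000)]) (.add (.mul (.g 5) (.add (.mul (.pp [(1, 84)]) (.sq [(1, 83), (2, 80), (3, 100),
 (5, 100), (7, 38)])) (.mul (.g 5) (.add (.pp [(1, 13629360000)]) (.mul (.g 5) (.pp [(1,
 1164480000)])))))) (.mul (.g 11) (.mul (.g 11) (.mul (.g 11) (.pp [(1, 120000)]))))))) (.add (.mul
 (.g 14) (.add (.pp [(1, 54372000000)]) (.add (.mul (.g 3) (.add (.mul (.pp [(1, 15)]) (.sq [(2,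
 -47), (3, -89), (5, 63), (7, 100)])) (.mul (.g 9) (.mul (.g 14) (.pp [(1, 675000)]))))) (.mul (.g
 5) (.mul (.g 5) (.mul (.g 11) (.pp [(1, 9600000)]))))))) (.mul (.g 0) (.pp [(1,
 800000000000)]))))) (.add (.add (.mul (.g 1) (.mul (.g 11) (.mul (.pp [(1, 30)]) (.sq [(1, 50),
 (2, 49), (3, 49), (5, 49), (7, 49)])))) (.add (.mul (.g 2) (.pp [(1, 740206800000)])) (.mul (.g 5)
 (.mul (.g 5) (.pp [(1, 674440800000)]))))) (.add (.mul (.g 10) (.mul (.g 12) (.mul (.pp [(1, 12)])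
 (.sq [(1, 17), (2, 100), (3, -1), (5, 74), (7, 7)])))) (.add (.mul (.g 13) (.pp [(1,
 3200000000)])) (.mul (.g 15) (.mul (.g 15) (.mul (.pp [(1, 720)]) (.sq [(1, 32), (2, 26), (3,
 -59), (5, -68), (7, 100)])))))))) (.pp [(1, 38217898932), (2, 25241016), (3, 24934476), (4,
 22903545), (5, 29002644), (6, 24673878), (7, 25934064), (8, 19157070), (9, 24025125), (10,
 24529278), (12, 25005750), (14, 23587272), (15, 24273690), (16, 20352000), (18, 22219518), (20,
 21611325), (21, 23186664), (24, 26927040), (25, 23369025), (27, 22977222), (28, 21280365), (30,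
 29521686), (35, 27186624), (36, 19011120), (40, 24932160), (42, 25797918), (45, 23204601), (49,
 20884872), (50, 24142428), (54, 23096160), (56, 22550400), (60, 17157600), (63, 21830877), (70,
 23749758), (75, 25724556), (81, 23525040), (84, 23127360), (90, 22016160), (98, 22746606), (100,
 19806000), (105, 23976954), (125, 23668377), (126, 19376640), (135, 21595200), (140, 21799920),
 (147, 25484058), (150, 20393760), (175, 19907037), (189, 21549120), (196, 24199920), (210,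
 14700000), (225, 21042960), (245, 26435178), (250, 21210720), (294, 21289440), (315, 19385520),
 (343, 26327730), (350, 18087360), (375, 21100800), (441, 19890480), (490, 20736000), (525,
 20759040), (625, 23559600), (686, 21653760), (735, 17383680), (875, 22294800), (1029, 22656960),
 (1225, 19711680), (1715, 21246960), (2401, 8482560)])))))
 (.split [(1, -1), (7, 2)]
 (.rule 4 (.leaf 2400000000 (.add (.add (.add (.add (.mul (.g 5) (.add (.add (.add (.mul (.g 8)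
 (.add (.add (.pp [(1, 675696000000)]) (.add (.mul (.g 4) (.add (.mul (.g 5) (.pp [(1,
 488301600000)])) (.mul (.g 11) (.pp [(1, 616188000000)])))) (.mul (.g 9) (.add (.mul (.g 9) (.pp
 [(1, 1540176000000)])) (.mul (.g 14) (.pp [(1, 6750816000000)])))))) (.add (.add (.mul (.g 12)
 (.add (.mul (.g 3) (.pp [(1, 1851412500)])) (.mul (.g 10) (.pp [(1, 278500800000)])))) (.mul (.g
 6) (.mul (.g 6) (.pp [(1, 6752016000000)])))) (.add (.mul (.g 7) (.mul (.g 11) (.pp [(1,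
 5562912000000)]))) (.mul (.g 14) (.pp [(1, 2568552000000)])))))) (.mul (.g 5) (.add (.add (.pp
 [(1, 6869520000000)]) (.mul (.g 14) (.add (.pp [(1, 1512000000)]) (.add (.mul (.g 9) (.pp [(1,
 312000000)])) (.mul (.g 11) (.pp [(1, 120000000)])))))) (.add (.mul (.g 1) (.add (.mul (.g 5) (.pp
 [(1, 2725956000000)])) (.mul (.g 12) (.pp [(1, 61800000)])))) (.add (.mul (.g 3) (.mul (.g 9) (.pp
 [(1, 6750000)]))) (.mul (.g 4) (.mul (.g 5) (.pp [(1, 11648400000)])))))))) (.add (.mul (.g 1)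
 (.add (.mul (.g 7) (.add (.mul (.g 6) (.pp [(1, 3377460000000)])) (.mul (.g 11) (.pp [(1,
 1032000000)])))) (.mul (.g 1) (.mul (.g 1) (.pp [(1, 497334000000)]))))) (.mul (.g 3) (.add (.pp
 [(1, 111259500000)]) (.add (.mul (.pp [(1, 675)]) (.sq [(1, -4), (2, -45), (3, 100), (5, -44), (7,
 -62)])) (.mul (.g 7) (.mul (.g 7) (.pp [(1, 75000000)])))))))) (.add (.add (.mul (.g 2) (.pp [(1,
 300000000)])) (.mul (.g 4) (.mul (.pp [(1, 1080)]) (.sq [(1, 83), (2, 80), (3, 100), (5, 100), (7,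
 38)])))) (.add (.mul (.g 6) (.mul (.g 14) (.pp [(1, 9854328000000)]))) (.add (.mul (.g 9) (.mul
 (.pp [(1, 4800)]) (.sq [(1, -14), (2, 100), (3, -37), (5, 70)]))) (.mul (.g 11) (.mul (.pp [(1,
 201600)]) (.sq [(1, 32), (2, 45), (3, -19), (5, -30), (7, 50)])))))))) (.mul (.g 7) (.add (.add
 (.mul (.g 7) (.add (.add (.mul (.g 7) (.add (.mul (.g 2) (.pp [(1, 60000000)])) (.add (.mul (.g 8)
 (.pp [(1, 744000000)])) (.mul (.g 15) (.pp [(1, 384000000)]))))) (.mul (.g 3) (.add (.mul (.g 1)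
 (.pp [(1, 42375000)])) (.mul (.g 14) (.pp [(1, 6000000)]))))) (.add (.mul (.g 6) (.mul (.g 9) (.pp
 [(1, 10763112000000)]))) (.mul (.g 14) (.pp [(1, 168000000)]))))) (.add (.mul (.g 6) (.add (.mul
 (.g 11) (.add (.mul (.g 8) (.pp [(1, 2376000000)])) (.mul (.g 15) (.pp [(1, 1392000000)])))) (.add
 (.mul (.g 3) (.mul (.g 6) (.pp [(1, 19500000)]))) (.mul (.g 9) (.mul (.g 15) (.pp [(1,
 10764792000000)])))))) (.mul (.g 2) (.add (.mul (.g 8) (.add (.mul (.g 2) (.pp [(1, 276000000)]))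
 (.mul (.g 3) (.pp [(1, 69375000)])))) (.mul (.g 9) (.mul (.g 11) (.pp [(1, 156000000)])))))))
 (.add (.mul (.g 3) (.pp [(1, 177813000000)])) (.add (.mul (.g 8) (.mul (.g 8) (.mul (.g 8) (.pp
 [(1, 288000000)])))) (.mul (.g 11) (.mul (.pp [(1, 21600)]) (.sq [(1, 9), (2, 100), (3, -91), (5,
 -79), (7, 87)])))))))) (.add (.mul (.g 6) (.add (.add (.mul (.g 6) (.add (.mul (.g 6) (.add (.mul
 (.g 3) (.pp [(1, 750000)])) (.add (.mul (.g 4) (.pp [(1, 22800000)])) (.mul (.g 10) (.pp [(1,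
 216000000)]))))) (.add (.mul (.g 3) (.mul (.g 15) (.pp [(1, 3750000)]))) (.mul (.g 14) (.pp [(1,
 816000000)]))))) (.mul (.g 14) (.add (.pp [(1, 340608000000)]) (.mul (.g 8) (.pp [(1,
 672000000)]))))) (.add (.mul (.g 2) (.pp [(1, 2366772000000)])) (.mul (.g 4) (.pp [(1,
 314799600000)]))))) (.add (.mul (.g 8) (.add (.add (.mul (.g 14) (.add (.pp [(1, 340944000000)])
 (.mul (.pp [(1, 19200)]) (.sq [(1, 100), (2, 45), (3, 85), (5, 85), (7, 69)])))) (.add (.mul (.g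
 1) (.mul (.g 4) (.mul (.g 9) (.pp [(1, 151909800000)])))) (.mul (.g 3) (.mul (.pp [(1, 150)]) (.sq
 [(1, -29), (2, -47), (3, 44), (5, -91), (7, 100)]))))) (.add (.mul (.g 8) (.mul (.g 8) (.pp [(1,
 48000000)]))) (.add (.mul (.g 10) (.mul (.g 11) (.mul (.g 11) (.pp [(1, 744000000)])))) (.mul (.g
 12) (.pp [(1, 16996800000)])))))) (.mul (.g 1) (.add (.mul (.g 1) (.add (.mul (.g 4) (.mul (.g 14)
 (.pp [(1, 8100000)]))) (.mul (.g 9) (.mul (.g 9) (.pp [(1, 9150000000)]))))) (.mul (.g 14) (.mul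
 (.pp [(1, 34800)]) (.sq [(1, -38), (2, -54), (3, 85), (5, 100), (7, 46)])))))))) (.add (.add (.mul
 (.g 12) (.add (.pp [(1, 688807200000)]) (.add (.mul (.g 3) (.pp [(1, 2550000)])) (.mul (.g 12)
 (.mul (.pp [(1, 318)]) (.sq [(1, -50), (2, 64), (3, 9), (5, 9), (7, 100)])))))) (.mul (.g 0) (.pp
 [(1, 8000000000000)]))) (.add (.mul (.g 3) (.mul (.g 11) (.mul (.pp [(1, 75)]) (.sq [(1, 69), (2,
 81), (3, -48), (5, -93), (7, 100)])))) (.add (.mul (.g 10) (.mul (.g 14) (.mul (.pp [(1, 57600)])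
 (.sq [(1, 12), (2, 44), (3, -68), (5, -47), (7, 100)])))) (.mul (.g 13) (.pp [(1,
 32000000000)])))))) (.pp [(1, 334474411800), (2, 245356155), (3, 255801525), (4, 238754982), (5,
 246242325), (6, 238792434), (7, 238575450), (8, 236238720), (9, 240088002), (10, 237316284), (12,
 233504445), (14, 212605560), (15, 227204154), (16, 241468800), (18, 248028480), (20, 258815295),
 (21, 241247400), (24, 264585600), (25, 232871952), (27, 239710080), (28, 300852750), (30,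
 212261310), (35, 244022700), (36, 241848000), (40, 251241600), (42, 192567000), (45, 245306640),
 (49, 245211600), (50, 246241905), (54, 233102400), (56, 217881600), (60, 241653600), (63,
 262213200), (70, 220910100), (75, 251115165), (81, 235226400), (84, 241339200), (90, 236296800),
 (98, 256836180), (100, 252007200), (105, 274295400), (125, 252890205), (126, 270048000), (135,
 260532000), (140, 222326400), (147, 243330000), (150, 207909600), (175, 260488050), (189,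
 234950400), (196, 203904000), (210, 292737600), (225, 248409600), (245, 242925600), (250,
 222189600), (294, 271622400), (315, 195434400), (343, 244216800), (350, 282158400), (375,
 238756800), (441, 219180000), (490, 251829600), (525, 173179200), (625, 231652800), (686,
 229459200), (735, 208077600), (875, 212875200), (1029, 241488000), (1225, 230205600), (1715,
 240220800), (2401, 238684800)]))))
 (.rule 4 (.leaf 30720000000 (.add (.add (.add (.add (.mul (.g 6) (.add (.add (.add (.pp [(1,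
 5864448000000)]) (.mul (.g 4) (.add (.add (.pp [(1, 87920640000)]) (.mul (.pp [(1, 6144)]) (.sq
 [(1, 43), (2, 50), (3, 50), (5, 50), (7, 50)]))) (.add (.mul (.g 5) (.add (.mul (.g 5) (.pp [(1,
 17104757760000)])) (.mul (.g 9) (.pp [(1, 17104450560000)])))) (.add (.mul (.g 1) (.mul (.g 7)
 (.pp [(1, 238080000)]))) (.mul (.g 11) (.pp [(1, 15358387200000)]))))))) (.add (.mul (.g 8) (.add
 (.add (.mul (.g 1) (.add (.mul (.g 6) (.pp [(1, 921600000)])) (.mul (.g 8) (.pp [(1,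
 307200000)])))) (.mul (.g 7) (.add (.mul (.g 8) (.pp [(1, 307200000)])) (.mul (.g 9) (.pp [(1,
 5222400000)]))))) (.add (.mul (.g 3) (.mul (.g 6) (.pp [(1, 28800000)]))) (.mul (.g 14) (.pp [(1,
 4300800000)]))))) (.add (.mul (.g 5) (.add (.add (.mul (.g 1) (.mul (.g 12) (.pp [(1,
 61440000)]))) (.mul (.g 5) (.mul (.g 7) (.pp [(1, 1228800000)])))) (.add (.mul (.g 6) (.pp [(1,
 307165900800000)])) (.mul (.g 14) (.pp [(1, 7065600000)]))))) (.mul (.g 6) (.add (.mul (.g 10)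
 (.pp [(1, 4608000000)])) (.mul (.g 14) (.pp [(1, 3072000000)]))))))) (.add (.add (.mul (.g 1) (.pp
 [(1, 4454400000)])) (.mul (.g 2) (.pp [(1, 7682304000000)]))) (.add (.mul (.g 3) (.pp [(1,
 480220800000)])) (.add (.mul (.g 7) (.mul (.g 11) (.pp [(1, 2457600000)]))) (.mul (.g 14) (.mul
 (.pp [(1, 61440)]) (.sq [(1, 100), (2, 81), (3, 81), (5, 81), (7, 81)])))))))) (.mul (.g 5) (.add
 (.add (.pp [(1, 55287091200000)]) (.mul (.g 5) (.add (.add (.pp [(1, 23579136000000)]) (.mul (.g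
 5) (.add (.mul (.g 4) (.pp [(1, 149099520000)])) (.mul (.g 14) (.pp [(1, 6758400000)]))))) (.add
 (.mul (.g 11) (.add (.mul (.g 1) (.pp [(1, 3072000000)])) (.mul (.g 7) (.pp [(1,
 34882867200000)])))) (.add (.mul (.g 12) (.mul (.g 15) (.pp [(1, 1744327680000)]))) (.mul (.g 14)
 (.pp [(1, 50614579200000)]))))))) (.add (.mul (.g 8) (.add (.mul (.g 1) (.add (.mul (.g 1) (.pp
 [(1, 12731443200000)])) (.add (.mul (.g 9) (.pp [(1, 7488307200000)])) (.mul (.g 11) (.pp [(1,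
 1382400000)]))))) (.add (.mul (.g 9) (.add (.mul (.g 9) (.pp [(1, 50931609600000)])) (.mul (.g 14)
 (.pp [(1, 4300800000)])))) (.mul (.g 14) (.pp [(1, 614400000)]))))) (.add (.mul (.g 1) (.pp [(1,
 16633651200000)])) (.mul (.g 3) (.mul (.g 3) (.mul (.g 3) (.pp [(1, 178125)]))))))))) (.add (.mul
 (.g 7) (.add (.add (.pp [(1, 21796761600000)]) (.add (.mul (.g 7) (.add (.mul (.g 7) (.mul (.g 15)
 (.pp [(1, 2457600000)]))) (.add (.mul (.g 10) (.pp [(1, 2150400000)])) (.mul (.g 11) (.mul (.g 14)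
 (.pp [(1, 307200000)])))))) (.mul (.g 2) (.add (.pp [(1, 3840000000)]) (.mul (.g 11) (.mul (.g 15)
 (.pp [(1, 1228800000)]))))))) (.add (.add (.mul (.g 14) (.add (.mul (.pp [(1, 122880)]) (.sq [(1,
 100), (2, 81), (3, 81), (5, 81), (7, 81)])) (.mul (.pp [(1, 30720)]) (.sq [(1, 1), (2, -78), (3,
 100), (5, -48), (7, -67)])))) (.mul (.g 1) (.pp [(1, 2611200000)]))) (.add (.mul (.g 4) (.pp [(1,
 276480000)])) (.mul (.g 10) (.mul (.pp [(1, 30720)]) (.sq [(1, -16), (2, 100), (3, 57), (5, 48),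
 (7, -75)]))))))) (.mul (.g 8) (.add (.mul (.g 8) (.add (.mul (.g 1) (.add (.mul (.g 8) (.pp [(1,
 1536000000)])) (.add (.mul (.g 9) (.pp [(1, 614400000)])) (.mul (.g 11) (.pp [(1,
 1075200000)]))))) (.add (.mul (.g 9) (.add (.mul (.g 9) (.pp [(1, 31349452800000)])) (.mul (.g 14)
 (.pp [(1, 1536000000)])))) (.mul (.g 14) (.pp [(1, 1843200000)]))))) (.mul (.g 1) (.pp [(1,
 31359590400000)])))))) (.add (.add (.mul (.g 11) (.add (.mul (.g 3) (.add (.mul (.pp [(1, 1920)])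
 (.sq [(1, 100), (2, 25), (3, -73), (5, -98), (7, 47)])) (.mul (.pp [(1, 7680)]) (.sq [(1, 63), (2,
 34), (3, 100), (5, -16), (7, 46)])))) (.add (.mul (.g 2) (.mul (.pp [(1, 30720)]) (.sq [(1, 87),
 (2, 74), (3, -100), (5, -71), (7, -2)]))) (.mul (.g 4) (.mul (.g 11) (.pp [(1, 522240000)]))))))
 (.mul (.g 1) (.mul (.g 1) (.mul (.g 9) (.add (.mul (.g 4) (.pp [(1, 1144212480000)])) (.mul (.g 9)
 (.pp [(1, 6696422400000)]))))))) (.add (.mul (.g 12) (.add (.pp [(1, 9661547520000)]) (.mul (.g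
 10) (.mul (.pp [(1, 7680)]) (.sq [(1, 73), (2, 84), (3, -49), (5, 100), (7, 7)]))))) (.add (.mul
 (.g 0) (.pp [(1, 102400000000000)])) (.mul (.g 13) (.pp [(1, 409600000000)])))))) (.pp [(1,
 4156861140480), (2, 3511426755), (3, 2784728064), (4, 3435432960), (5, 3068789760), (6,
 2423889120), (7, 3019760640), (8, 3687292800), (9, 2988080640), (10, 3086300160), (12,
 2126647680), (14, 3481436160), (15, 3373854720), (16, 3234201600), (18, 3923095680), (20,
 2802668160), (21, 2872765440), (24, 2696663040), (25, 3080263680), (27, 2968740480), (28,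
 2891700480), (30, 3955956480), (35, 3207260160), (36, 3471452160), (40, 2841231360), (42,
 3046894080), (45, 2962926720), (49, 3198266880), (50, 3273384960), (54, 2803875840), (56,
 2945433600), (60, 3599032320), (63, 3141454080), (70, 2769388800), (75, 2883578880), (81,
 3153807360), (84, 3324149760), (90, 3257702400), (98, 2540522880), (100, 3132702720), (105,
 3470872320), (125, 2819320320), (126, 3343319040), (135, 3227289600), (140, 3169075200), (147,
 3135857280), (150, 2909921280), (175, 2767065600), (189, 3058728960), (196, 3386726400), (210,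
 3258716160), (225, 3314257920), (245, 2814218880), (250, 2770145280), (294, 3207413760), (315,
 3403714560), (343, 3072000000), (350, 2944081920), (375, 3210977280), (441, 3312691200), (490,
 2974218240), (525, 2989977600), (625, 3100692480), (686, 3072000000), (735, 2946754560), (875,
 3005521920), (1029, 3167907840), (1225, 2934712320), (1715, 3094517760), (2401, 3072000000)])))))))
 (.rule 5 (.rule 6 (.leaf 300000000 (.add (.add (.add (.add (.mul (.g 6) (.add (.add (.mul (.pp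
 [(1, 904800)]) (.sq [(1, 21), (2, -65), (3, -30), (5, -24), (7, 100)])) (.add (.mul (.g 5) (.add
 (.add (.mul (.pp [(1, 5718600)]) (.sq [(1, 29), (2, 51), (3, -14), (5, 100), (7, -93)])) (.mul (.g
 7) (.add (.add (.mul (.g 3) (.pp [(1, 1234734000000)])) (.mul (.g 4) (.pp [(1, 43677000000)])))
 (.add (.mul (.g 5) (.pp [(1, 329817000000)])) (.mul (.g 6) (.pp [(1, 210693000000)])))))) (.add
 (.mul (.g 10) (.add (.mul (.g 3) (.pp [(1, 14077350000)])) (.add (.mul (.g 4) (.pp [(1,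
 9244050000)])) (.mul (.g 6) (.pp [(1, 10009200000)]))))) (.add (.mul (.g 5) (.add (.mul (.g 5)
 (.pp [(1, 124263000000)])) (.mul (.g 8) (.pp [(1, 145071000000)])))) (.mul (.g 12) (.add (.pp [(1,
 580869000000)]) (.mul (.g 4) (.pp [(1, 120900000000)])))))))) (.mul (.g 12) (.add (.add (.mul (.pp
 [(1, 10800)]) (.sq [(1, -33), (2, 9), (3, -100), (5, 97), (7, 53)])) (.mul (.g 3) (.add (.mul (.g
 7) (.pp [(1, 769356000000)])) (.mul (.g 9) (.pp [(1, 411477000000)]))))) (.add (.mul (.g 12) (.add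
 (.pp [(1, 431019000000)]) (.mul (.g 13) (.pp [(1, 57687000000)])))) (.add (.mul (.g 2) (.pp [(1,
 5357550000)])) (.mul (.g 8) (.pp [(1, 102261000000)])))))))) (.add (.mul (.g 10) (.add (.mul (.g
 6) (.add (.pp [(1, 10959300000)]) (.mul (.g 6) (.pp [(1, 621900000)])))) (.add (.mul (.g 3) (.mul
 (.g 13) (.pp [(1, 14727000000)]))) (.mul (.g 4) (.mul (.g 7) (.pp [(1, 4576950000)])))))) (.add
 (.mul (.g 4) (.add (.mul (.pp [(1, 292800)]) (.sq [(1, -80), (2, 79), (3, 22), (5, -61), (7,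
 100)])) (.mul (.pp [(1, 17942700)]) (.sq [(1, 18), (2, 26), (3, -45), (5, 100), (7, -6)])))) (.mul
 (.g 8) (.add (.mul (.pp [(1, 1699500)]) (.sq [(1, -100), (2, -23), (3, 97), (5, 53), (7, 89)]))
 (.mul (.g 7) (.mul (.g 7) (.pp [(1, 333174000000)]))))))))) (.mul (.g 3) (.add (.add (.mul (.g 7)
 (.add (.add (.mul (.pp [(1, 1700700)]) (.sq [(1, -13), (2, 82), (3, -100), (5, 89), (7, -9)]))
 (.mul (.g 5) (.add (.mul (.g 4) (.pp [(1, 157905000000)])) (.add (.mul (.g 5) (.pp [(1,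
 591849000000)])) (.mul (.g 13) (.pp [(1, 357540000000)])))))) (.add (.mul (.g 3) (.add (.mul (.g
 3) (.pp [(1, 37929000000)])) (.mul (.g 8) (.pp [(1, 392067000000)])))) (.add (.mul (.g 4) (.mul
 (.g 12) (.pp [(1, 492996000000)]))) (.mul (.g 7) (.mul (.g 8) (.pp [(1, 355887000000)])))))))
 (.mul (.g 3) (.add (.mul (.pp [(1, 27300)]) (.sq [(1, 24), (2, 60), (3, -46), (5, 100), (7,
 -49)])) (.mul (.g 12) (.add (.mul (.g 4) (.pp [(1, 363081000000)])) (.add (.mul (.g 5) (.pp [(1,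
 190083000000)])) (.mul (.g 9) (.pp [(1, 20331000000)])))))))) (.add (.mul (.g 8) (.add (.mul (.g
 10) (.add (.pp [(1, 41499900000)]) (.mul (.g 13) (.pp [(1, 3673200000)])))) (.mul (.g 5) (.mul (.g
 5) (.pp [(1, 400599000000)]))))) (.add (.mul (.g 5) (.mul (.g 5) (.mul (.g 5) (.pp [(1,
 139917000000)])))) (.mul (.g 12) (.pp [(1, 195021000000)]))))))) (.add (.mul (.g 4) (.add (.mul
 (.g 4) (.add (.mul (.g 8) (.add (.mul (.g 4) (.pp [(1, 3774000000)])) (.mul (.g 10) (.pp [(1,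
 109950000)])))) (.add (.mul (.g 5) (.mul (.g 7) (.pp [(1, 165363000000)]))) (.mul (.g 9) (.mul (.g
 12) (.pp [(1, 1770000000)])))))) (.add (.mul (.g 5) (.add (.mul (.pp [(1, 905700)]) (.sq [(1, 14),
 (2, 17), (3, -83), (5, 98), (7, 100)])) (.mul (.g 5) (.add (.mul (.g 5) (.pp [(1, 74346000000)]))
 (.mul (.g 8) (.pp [(1, 17748000000)])))))) (.mul (.g 13) (.add (.mul (.pp [(1, 874500)]) (.sq [(1,
 35), (2, 39), (3, 3), (5, 90), (7, -100)])) (.mul (.g 7) (.mul (.g 7) (.pp [(1,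
 31836000000)])))))))) (.add (.mul (.g 12) (.add (.add (.mul (.g 5) (.add (.pp [(1, 340362000000)])
 (.mul (.g 5) (.mul (.g 7) (.pp [(1, 120054000000)]))))) (.add (.mul (.g 7) (.mul (.pp [(1,
 49366500)]) (.sq [(1, -59), (2, 41), (3, 41), (5, 41), (7, 100)]))) (.mul (.g 9) (.mul (.pp [(1,
 1076700)]) (.sq [(1, -54), (2, -25), (3, -51), (5, 100), (7, 50)]))))) (.add (.mul (.g 10) (.pp
 [(1, 865800000)])) (.add (.mul (.g 12) (.pp [(1, 78807000000)])) (.mul (.g 13) (.mul (.pp [(1,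
 3709800)]) (.sq [(1, 8), (2, 83), (3, 100), (5, -62), (7, -57)]))))))) (.mul (.g 8) (.add (.mul
 (.g 10) (.add (.pp [(1, 7327200000)]) (.mul (.pp [(1, 48780)]) (.sq [(1, -78), (2, 11), (3, -19),
 (5, 100), (7, -13)])))) (.add (.mul (.g 5) (.pp [(1, 9093000000)])) (.mul (.g 8) (.mul (.pp [(1,
 915600)]) (.sq [(1, -8), (2, -41), (3, -35), (5, -26), (7, 100)]))))))))) (.add (.add (.mul (.g 7)
 (.add (.mul (.g 7) (.add (.mul (.pp [(1, 5487600)]) (.sq [(1, 41), (2, -100), (3, 59), (5, 59),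
 (7, -59)])) (.mul (.g 2) (.mul (.g 13) (.pp [(1, 6033000000)]))))) (.mul (.g 10) (.pp [(1,
 101683950000)])))) (.add (.mul (.g 0) (.pp [(1, 1000000000000)])) (.mul (.g 1) (.pp [(1,
 1000000000000)])))) (.add (.mul (.g 5) (.mul (.g 5) (.mul (.g 5) (.pp [(1, 186438000000)]))))
 (.add (.mul (.g 10) (.mul (.g 10) (.mul (.pp [(1, 5613)]) (.sq [(1, 13), (2, -3), (3, -48), (5,
 50), (7, 42)])))) (.mul (.g 11) (.pp [(1, 4000000000)])))))) (.pp [(1, 5347243623), (2, 34646574),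
 (3, 27788364), (4, 24531663), (5, 27716640), (6, 35149776), (7, 30643584), (8, 34418900), (9,
 31617888), (10, 28148280), (12, 23596100), (14, 22268736), (15, 28015380), (16, 28944000), (18,
 32666900), (20, 33217100), (21, 24294576), (24, 33271200), (25, 30196800), (27, 28223700), (28,
 31059240), (30, 20244000), (35, 31978200), (36, 26636400), (40, 26859600), (42, 27645000), (45,
 28264500), (49, 30302688), (50, 32166200), (54, 30528000), (56, 29240100), (60, 34037100), (63,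
 32148960), (70, 39557160), (75, 36955800), (81, 30640800), (84, 31032000), (90, 33102600), (98,
 36842760), (100, 24491400), (105, 42061560), (125, 31172100), (126, 30485700), (135, 29569500),
 (140, 34147200), (147, 33374940), (150, 34536000), (175, 26457000), (189, 29202300), (196,
 30295200), (210, 30442200), (225, 31585500), (245, 25082940), (250, 29387100), (294, 25555200),
 (315, 32396400), (343, 31385100), (350, 22861800), (375, 24684000), (441, 31362600), (490,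
 23604000), (525, 18448500), (625, 30583200), (686, 29813700), (735, 24802800), (875, 31895100),
 (1029, 27072300), (1225, 34792800), (1715, 30560700), (2401, 30337200)]))))))
 (P_c4 ++ xP_G_F1) = true := by decide +kernel

theorem t_G_F3_Op0 : chk ROp gP_G_F3
 (.split [(1, 1), (2, -20)]
 (.split [(1, -69), (3, 100)]
 (.split [(1, -3), (5, 16)]
 (.cut 8 [(1, 3), (3, -2)] (.add (.add (.mul (.g 3) (.pp [(1, 204)])) (.mul (.g 8) (.pp [(1,
 16)]))) (.add (.mul (.g 0) (.pp [(1, 1)])) (.mul (.g 2) (.pp [(1, 11)])))) (.rule 8 (.rule 4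
 (.leaf 1200000000 (.add (.add (.add (.add (.mul (.g 8) (.add (.add (.mul (.g 7) (.add (.add (.mul
 (.g 7) (.add (.mul (.g 6) (.pp [(1, 11916000000)])) (.add (.mul (.g 9) (.pp [(1, 10944000000)]))
 (.mul (.g 12) (.pp [(1, 10944000000)]))))) (.add (.mul (.g 5) (.add (.pp [(1, 598096800000)])
 (.mul (.g 16) (.pp [(1, 2770200000)])))) (.mul (.g 14) (.add (.mul (.g 12) (.pp [(1,
 4740000000)])) (.mul (.g 13) (.pp [(1, 150600000)])))))) (.add (.add (.mul (.g 4) (.mul (.g 4)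
 (.pp [(1, 33600)]))) (.mul (.g 6) (.mul (.g 8) (.pp [(1, 61128000000)])))) (.add (.mul (.g 9)
 (.mul (.g 9) (.pp [(1, 5544000000)]))) (.mul (.g 16) (.pp [(1, 13704000000)])))))) (.add (.mul (.g
 6) (.add (.mul (.g 6) (.add (.mul (.g 5) (.pp [(1, 5850000000)])) (.add (.mul (.g 9) (.pp [(1,
 56688000000)])) (.mul (.g 12) (.pp [(1, 115008000000)]))))) (.add (.mul (.g 8) (.add (.mul (.g 9)
 (.pp [(1, 45588000000)])) (.mul (.g 16) (.pp [(1, 17592000000)])))) (.mul (.g 5) (.pp [(1,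
 8763000000)]))))) (.mul (.g 9) (.add (.mul (.g 16) (.add (.pp [(1, 9600000000)]) (.mul (.g 13)
 (.pp [(1, 223800000)])))) (.add (.mul (.g 5) (.pp [(1, 2167200000)])) (.mul (.g 8) (.mul (.g 17)
 (.pp [(1, 1044000000)])))))))) (.add (.add (.mul (.g 16) (.add (.pp [(1, 5496000000)]) (.mul (.g
 8) (.pp [(1, 6156000000)])))) (.mul (.g 5) (.pp [(1, 1277400000)]))) (.add (.mul (.g 11) (.mul
 (.pp [(1, 15600)]) (.sq [(1, 9), (2, 21), (3, 27), (5, -79), (7, -100)]))) (.mul (.g 17) (.pp [(1,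
 7764000000)])))))) (.mul (.g 9) (.add (.add (.mul (.g 6) (.add (.add (.pp [(1, 9608568000000)])
 (.add (.mul (.g 5) (.add (.pp [(1, 641215200000)]) (.mul (.g 12) (.pp [(1, 6897600000)])))) (.mul
 (.g 6) (.add (.mul (.g 6) (.pp [(1, 1845252000000)])) (.mul (.g 9) (.pp [(1, 8612916000000)]))))))
 (.add (.mul (.g 7) (.mul (.g 17) (.pp [(1, 3816000000)]))) (.add (.mul (.g 9) (.mul (.g 9) (.pp
 [(1, 479904000000)]))) (.mul (.g 12) (.mul (.g 16) (.pp [(1, 15168000000)]))))))) (.add (.mul (.g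
 7) (.add (.add (.mul (.g 3) (.mul (.g 3) (.pp [(1, 2578125)]))) (.mul (.g 4) (.mul (.g 17) (.pp
 [(1, 40440000)])))) (.add (.mul (.g 7) (.mul (.g 9) (.pp [(1, 336000000)]))) (.mul (.g 16) (.pp
 [(1, 1944000000)]))))) (.mul (.g 9) (.add (.mul (.g 5) (.pp [(1, 620599800000)])) (.mul (.g 9)
 (.mul (.g 11) (.pp [(1, 180000000)]))))))) (.add (.mul (.g 16) (.add (.pp [(1, 623316000000)])
 (.mul (.pp [(1, 68400)]) (.sq [(1, 100), (2, 45), (3, 85), (5, 85), (7, 69)])))) (.add (.mul (.g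
 4) (.pp [(1, 6145800000)])) (.mul (.g 12) (.mul (.pp [(1, 211200)]) (.sq [(1, 74), (2, 83), (3,
 53), (5, 74), (7, 100)])))))))) (.add (.mul (.g 6) (.add (.add (.pp [(1, 2232768000000)]) (.mul
 (.g 6) (.add (.pp [(1, 3385008000000)]) (.add (.mul (.g 5) (.add (.pp [(1, 60042000000)]) (.mul
 (.g 7) (.pp [(1, 8242800000)])))) (.mul (.g 11) (.mul (.g 13) (.pp [(1, 3980400000)]))))))) (.add
 (.mul (.g 11) (.add (.mul (.g 3) (.mul (.g 12) (.pp [(1, 1655250000)]))) (.mul (.g 13) (.mul (.g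
 13) (.pp [(1, 11730000)]))))) (.add (.mul (.g 5) (.mul (.g 7) (.pp [(1, 2509200000)]))) (.mul (.g
 12) (.mul (.pp [(1, 4142400)]) (.sq [(1, 64), (2, 100), (3, 29), (5, -86), (7, 59)]))))))) (.add
 (.mul (.g 16) (.add (.add (.pp [(1, 194904000000)]) (.mul (.g 4) (.add (.mul (.pp [(1, 984)]) (.sq
 [(1, -29), (2, -15), (3, -10), (5, 100), (7, 96)])) (.mul (.pp [(1, 1776)]) (.sq [(1, 18), (2, 3),
 (3, -93), (5, 100), (7, -93)]))))) (.add (.mul (.g 5) (.add (.mul (.pp [(1, 63420)]) (.sq [(1,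
 -18), (2, -37), (3, -65), (5, 100), (7, -35)])) (.mul (.g 10) (.mul (.g 16) (.pp [(1,
 1785600000)]))))) (.add (.mul (.g 14) (.mul (.pp [(1, 64800)]) (.sq [(1, -41), (2, -100), (3, 70),
 (5, -93), (7, 31)]))) (.mul (.g 16) (.mul (.pp [(1, 308400)]) (.sq [(1, -50), (2, -100), (3, 65),
 (5, -78), (7, 26)]))))))) (.mul (.g 7) (.add (.add (.mul (.g 7) (.add (.pp [(1, 2011044000000)])
 (.mul (.g 12) (.mul (.g 17) (.pp [(1, 2736000000)]))))) (.mul (.g 4) (.pp [(1, 20613840000)])))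
 (.add (.mul (.g 5) (.pp [(1, 3483000000)])) (.mul (.g 17) (.pp [(1, 601008000000)])))))))) (.add
 (.add (.mul (.g 11) (.add (.mul (.g 13) (.add (.mul (.pp [(1, 960)]) (.sq [(1, 2), (2, 53), (3,
 100), (5, 6), (7, 11)])) (.mul (.pp [(1, 120)]) (.sq [(1, 7), (2, 76), (3, 43), (5, 100), (7,
 -24)])))) (.mul (.g 10) (.mul (.pp [(1, 39600)]) (.sq [(1, -13), (2, -53), (3, 100), (5, 83), (7,
 -75)]))))) (.add (.mul (.g 0) (.pp [(1, 4000000000000)])) (.mul (.g 1) (.pp [(1, 1200000000)]))))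
 (.add (.mul (.g 4) (.pp [(1, 11097240000)])) (.add (.mul (.g 15) (.pp [(1, 4000000000000)])) (.mul
 (.g 17) (.pp [(1, 17184000000)])))))) (.pp [(1, 349425682992), (2, 111594312), (3, 129192336), (4,
 113019756), (5, 114911880), (6, 155062056), (7, 131199528), (8, 109705440), (9, 105110748), (10,
 119570400), (12, 139898724), (14, 129917016), (15, 112886880), (16, 119031600), (18, 85225392),
 (20, 136387200), (21, 122910339), (24, 134100000), (25, 112390080), (27, 119703924), (28,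
 111990084), (30, 92146080), (35, 140152800), (36, 110152800), (40, 125304000), (42, 94289664),
 (45, 135970680), (49, 115599252), (50, 108068400), (54, 126402000), (56, 123289200), (60,
 93414000), (63, 119598372), (70, 140398080), (75, 147062160), (81, 121830000), (84, 119444400),
 (90, 118599600), (98, 106232952), (100, 117420000), (105, 126903840), (125, 121280160), (126,
 132906000), (135, 126639600), (140, 93619200), (147, 126344196), (150, 131262000), (175,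
 117101520), (189, 120190800), (196, 125424000), (210, 121579200), (225, 120550800), (245,
 132762480), (250, 116193600), (294, 109785600), (315, 104128800), (343, 111414108), (350,
 131848800), (375, 123872400), (441, 111864000), (490, 97004400), (525, 125494800), (625,
 122050800), (686, 102654000), (735, 110116800), (875, 124963200), (1029, 117279600), (1225,
 127830000), (1715, 121202400), (2401, 117174000)]))))))
 (.cut 1 [(1, 3), (3, -2)] (.add (.add (.mul (.g 3) (.pp [(1, 18)])) (.mul (.g 8) (.pp [(1, 2)])))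
 (.add (.mul (.g 5) (.pp [(1, 2)])) (.mul (.g 2) (.pp [(1, 1)])))) (.rule 8 (.rule 4 (.leaf
 240000000 (.add (.add (.add (.add (.mul (.g 9) (.add (.add (.mul (.g 7) (.add (.add (.mul (.g 7)
 (.add (.mul (.g 7) (.pp [(1, 55200000)])) (.add (.mul (.g 9) (.pp [(1, 120000000)])) (.mul (.g 16)
 (.pp [(1, 52800000)]))))) (.add (.mul (.g 8) (.add (.mul (.g 6) (.pp [(1, 45600000)])) (.mul (.g
 12) (.pp [(1, 7200000)])))) (.mul (.g 9) (.add (.mul (.g 9) (.pp [(1, 67200000)])) (.mul (.g 10)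
 (.pp [(1, 16800000)])))))) (.add (.mul (.g 3) (.mul (.g 4) (.pp [(1, 22500)]))) (.add (.mul (.g 5)
 (.pp [(1, 480000)])) (.mul (.g 16) (.pp [(1, 100800000)])))))) (.add (.mul (.g 6) (.add (.add (.pp
 [(1, 1933411200000)]) (.mul (.g 6) (.add (.mul (.g 6) (.pp [(1, 386860800000)])) (.add (.mul (.g
 9) (.pp [(1, 1730366400000)])) (.mul (.g 11) (.pp [(1, 2400000)])))))) (.add (.mul (.g 9) (.add
 (.mul (.g 9) (.pp [(1, 95479200000)])) (.mul (.g 11) (.pp [(1, 4800000)])))) (.mul (.g 5) (.pp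
 [(1, 129601320000)]))))) (.mul (.g 16) (.add (.add (.pp [(1, 124512000000)]) (.mul (.pp [(1,
 240)]) (.sq [(1, 100), (2, 45), (3, 85), (5, 85), (7, 69)]))) (.add (.mul (.g 8) (.add (.pp [(1,
 43200000)]) (.mul (.g 8) (.pp [(1, 14400000)])))) (.add (.mul (.g 9) (.add (.pp [(1, 91200000)])
 (.mul (.g 12) (.pp [(1, 16800000)])))) (.mul (.g 16) (.mul (.g 16) (.pp [(1, 24000000)])))))))))
 (.add (.add (.mul (.g 3) (.add (.pp [(1, 5100000)]) (.add (.mul (.g 8) (.pp [(1, 2550000)])) (.mul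
 (.g 9) (.mul (.g 9) (.pp [(1, 150000)])))))) (.mul (.g 8) (.mul (.g 12) (.add (.mul (.g 12) (.pp
 [(1, 9600000)])) (.mul (.g 17) (.pp [(1, 9600000)])))))) (.add (.mul (.g 4) (.pp [(1,
 1244568000)])) (.mul (.g 5) (.mul (.g 9) (.pp [(1, 124464480000)]))))))) (.mul (.g 7) (.add (.add
 (.mul (.g 7) (.add (.add (.pp [(1, 552852000000)]) (.mul (.g 7) (.add (.mul (.g 3) (.pp [(1,
 600000)])) (.mul (.g 14) (.pp [(1, 16800000)]))))) (.add (.mul (.g 11) (.add (.mul (.g 6) (.pp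
 [(1, 19200000)])) (.mul (.g 12) (.pp [(1, 7200000)])))) (.add (.mul (.g 5) (.pp [(1, 1200000)]))
 (.mul (.g 16) (.pp [(1, 50400000)])))))) (.add (.mul (.g 5) (.add (.add (.pp [(1, 960000)]) (.mul
 (.pp [(1, 144)]) (.sq [(1, 43), (2, 50), (3, 50), (5, 50), (7, 50)]))) (.add (.mul (.pp [(1, 24)])
 (.sq [(1, 5), (2, 100), (3, 98), (5, -55), (7, -75)])) (.add (.mul (.g 6) (.pp [(1, 1920000)]))
 (.mul (.g 8) (.pp [(1, 120001080000)])))))) (.mul (.g 6) (.add (.mul (.g 6) (.add (.mul (.g 8)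
 (.pp [(1, 4800000)])) (.mul (.g 16) (.pp [(1, 28800000)])))) (.mul (.g 8) (.mul (.g 11) (.pp [(1,
 9600000)]))))))) (.add (.mul (.g 3) (.pp [(1, 7503900000)])) (.add (.mul (.g 4) (.pp [(1,
 2630712000)])) (.mul (.g 8) (.mul (.g 16) (.pp [(1, 21600000)])))))))) (.add (.mul (.g 8) (.add
 (.mul (.g 3) (.add (.pp [(1, 2250000)]) (.add (.mul (.pp [(1, 1125)]) (.sq [(1, 19), (2, 20), (3,
 20), (5, 20), (7, 20)])) (.mul (.g 8) (.add (.pp [(1, 750000)]) (.mul (.g 8) (.pp [(1,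
 1050000)]))))))) (.add (.mul (.g 12) (.add (.add (.mul (.g 4) (.mul (.g 5) (.pp [(1, 3600)])))
 (.mul (.g 6) (.mul (.g 6) (.pp [(1, 31200000)])))) (.add (.mul (.g 8) (.mul (.g 16) (.pp [(1,
 9600000)]))) (.mul (.g 10) (.mul (.g 11) (.pp [(1, 12000000)])))))) (.mul (.g 5) (.mul (.pp [(1,
 240)]) (.sq [(1, 43), (2, 50), (3, 50), (5, 50), (7, 50)])))))) (.add (.mul (.g 6) (.add (.pp [(1,
 439893600000)]) (.add (.mul (.g 6) (.add (.pp [(1, 674424000000)]) (.mul (.g 5) (.add (.pp [(1,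
 13631520000)]) (.mul (.g 6) (.pp [(1, 1165320000)])))))) (.mul (.g 3) (.pp [(1, 450000)])))))
 (.mul (.g 0) (.pp [(1, 800000000000)]))))) (.add (.add (.mul (.g 1) (.pp [(1, 240000000)])) (.add
 (.mul (.g 3) (.pp [(1, 1950000)])) (.mul (.g 4) (.pp [(1, 2156832000)])))) (.add (.mul (.g 5)
 (.mul (.g 12) (.mul (.pp [(1, 48)]) (.sq [(1, -6), (2, -52), (3, 93), (5, -100), (7, 78)]))))
 (.add (.mul (.g 15) (.pp [(1, 800000000000)])) (.mul (.g 16) (.pp [(1, 38702400000)])))))) (.pp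
 [(1, 69793158000), (2, 25051728), (3, 25399416), (4, 24475392), (5, 22786137), (6, 21924960), (7,
 23892000), (8, 24610752), (9, 24610848), (10, 24292008), (12, 22940352), (14, 25275072), (15,
 23761368), (16, 23804160), (18, 23472048), (20, 23474448), (21, 28341228), (24, 23880960), (25,
 24841800), (27, 23594352), (28, 24023184), (30, 22948896), (35, 23117928), (36, 23019840), (40,
 23811840), (42, 21775200), (45, 24106368), (49, 27408000), (50, 24184800), (54, 24912960), (56,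
 24587520), (60, 22874880), (63, 20932416), (70, 23246016), (75, 23800200), (81, 24000000), (84,
 17170800), (90, 21272640), (98, 22561632), (100, 24384000), (105, 26206416), (125, 22500000),
 (126, 23107680), (135, 24000000), (140, 23988480), (147, 18189768), (150, 21996000), (175,
 25594800), (189, 23334000), (196, 23445360), (210, 23947680), (225, 24000000), (245, 25422768),
 (250, 24000000), (294, 23867040), (315, 22668000), (343, 20919360), (350, 23424000), (375,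
 24000000), (441, 26149200), (490, 24476640), (525, 23334000), (625, 24000000), (686, 25490400),
 (735, 23083200), (875, 24000000), (1029, 25557840), (1225, 23334000), (1715, 22015200), (2401,
 25142640)])))))))
 (.split [(1, -7), (3, 50)]
 (.rule 7 (.rule 4 (.leaf 150000 (.add (.add (.add (.mul (.pp [(1, 300000)]) (.sq [(1, -7), (3,
 50), (10, -50)])) (.mul (.g 5) (.add (.add (.mul (.g 8) (.add (.add (.mul (.g 15) (.add (.add (.pp
 [(1, 1423819500)]) (.mul (.g 4) (.pp [(1, 12625500)]))) (.add (.mul (.g 6) (.pp [(1, 119385000)]))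
 (.add (.mul (.g 7) (.pp [(1, 15000)])) (.mul (.g 15) (.pp [(1, 59685000)])))))) (.mul (.g 4) (.add
 (.pp [(1, 61556550)]) (.add (.mul (.g 6) (.pp [(1, 9641250)])) (.mul (.g 7) (.pp [(1, 1500)]))))))
 (.add (.mul (.g 2) (.add (.pp [(1, 28702590)]) (.mul (.g 11) (.pp [(1, 1193700)])))) (.add (.mul
 (.g 5) (.add (.mul (.g 5) (.pp [(1, 241785000)])) (.mul (.g 8) (.pp [(1, 828975000)])))) (.mul (.g
 7) (.mul (.g 10) (.pp [(1, 15000)]))))))) (.add (.mul (.g 6) (.add (.add (.mul (.g 5) (.add (.pp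
 [(1, 144673500)]) (.add (.mul (.g 4) (.pp [(1, 750)])) (.mul (.g 15) (.pp [(1, 15000)]))))) (.mul
 (.g 7) (.add (.mul (.g 2) (.pp [(1, 1193100)])) (.add (.mul (.g 4) (.pp [(1, 750)])) (.mul (.g 15)
 (.pp [(1, 59670000)])))))) (.add (.mul (.g 2) (.mul (.g 3) (.pp [(1, 3)]))) (.add (.mul (.g 10)
 (.pp [(1, 27000)])) (.mul (.g 16) (.pp [(1, 22084500)])))))) (.mul (.g 5) (.add (.mul (.g 4) (.add
 (.pp [(1, 8519700)]) (.add (.mul (.g 5) (.pp [(1, 728250)])) (.mul (.g 7) (.pp [(1, 750)])))))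
 (.add (.mul (.g 15) (.pp [(1, 144730500)])) (.mul (.g 16) (.pp [(1, 37548000)]))))))) (.add (.add
 (.mul (.g 7) (.add (.mul (.g 7) (.add (.mul (.g 4) (.pp [(1, 37501500)])) (.mul (.g 10) (.pp [(1,
 15000)])))) (.mul (.g 10) (.pp [(1, 37531500)])))) (.mul (.g 15) (.add (.pp [(1, 59074500)]) (.mul
 (.g 16) (.pp [(1, 8310000)]))))) (.add (.mul (.g 2) (.pp [(1, 5689890)])) (.mul (.g 10) (.pp [(1,
 239236500)]))))))) (.add (.mul (.g 0) (.pp [(1, 500000000)])) (.add (.mul (.g 1) (.pp [(1,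
 300000)])) (.mul (.g 14) (.pp [(1, 500000000)]))))) (.pp [(2, 8158230), (4, 15300), (6, 16449),
 (8, 15750), (10, 15000), (12, 14250), (14, 16080), (16, 15000), (18, 14550), (20, 15750), (24,
 15000), (28, 15600), (30, 13950), (36, 15000), (40, 15000), (42, 15150), (50, 15000), (54, 15000),
 (56, 15000), (60, 15000), (70, 14400), (84, 15000), (90, 15000), (98, 15000), (100, 15000), (126,
 15000), (140, 15000), (150, 15000), (196, 15000), (210, 15000), (250, 15000), (294, 15000), (350,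
 15000), (490, 15000), (686, 15000)])))))
 (.rule 4 (.leaf 600000 (.add (.add (.mul (.g 4) (.add (.add (.mul (.g 3) (.add (.mul (.g 4) (.add
 (.add (.pp [(1, 34078800)]) (.mul (.g 4) (.pp [(1, 2913000)]))) (.add (.mul (.g 5) (.pp [(1,
 3000)])) (.mul (.g 6) (.pp [(1, 3000)]))))) (.add (.mul (.g 7) (.add (.add (.pp [(1, 236422200)])
 (.mul (.g 3) (.pp [(1, 1268835)]))) (.add (.mul (.g 5) (.pp [(1, 6000)])) (.mul (.g 6) (.pp [(1,
 3000)]))))) (.mul (.g 6) (.add (.mul (.g 5) (.pp [(1, 3000)])) (.mul (.g 6) (.pp [(1,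
 3000)]))))))) (.mul (.g 5) (.add (.add (.mul (.g 1) (.add (.add (.pp [(1, 113975160)]) (.mul (.g
 4) (.pp [(1, 1200)]))) (.add (.mul (.g 5) (.pp [(1, 1200)])) (.mul (.g 6) (.pp [(1, 1200)])))))
 (.mul (.g 4) (.pp [(1, 1685928000)]))) (.add (.mul (.g 7) (.pp [(1, 228408000)])) (.mul (.g 15)
 (.pp [(1, 5999946000)])))))) (.add (.mul (.g 14) (.add (.add (.pp [(1, 301326000)]) (.mul (.g 6)
 (.add (.pp [(1, 126000)]) (.mul (.g 6) (.pp [(1, 60000)]))))) (.add (.mul (.g 7) (.add (.pp [(1,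
 5927220000)]) (.mul (.g 10) (.pp [(1, 60000)])))) (.add (.mul (.g 1) (.pp [(1, 113973840)])) (.mul
 (.g 4) (.pp [(1, 1686000000)])))))) (.add (.mul (.g 15) (.add (.pp [(1, 366000)]) (.add (.mul (.g
 6) (.add (.pp [(1, 180000)]) (.mul (.g 6) (.pp [(1, 60000)])))) (.mul (.g 4) (.pp [(1,
 66000)]))))) (.mul (.g 7) (.add (.mul (.pp [(1, 23874)]) (.sq [(1, -62), (2, 5), (7, 100)])) (.mul
 (.g 4) (.add (.mul (.g 4) (.pp [(1, 459012000)])) (.mul (.g 7) (.pp [(1, 4302006000)]))))))))))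
 (.add (.mul (.g 0) (.pp [(1, 2000000000)])) (.mul (.g 13) (.pp [(1, 2000000000)])))) (.pp [(2,
 291120), (4, 55200), (6, 62760), (8, 63000), (10, 60000), (12, 60600), (14, 60189), (16, 60000),
 (18, 57600), (19, 6000000000), (20, 63000), (24, 60000), (28, 59280), (30, 60600), (36, 60000),
 (40, 60000), (42, 54000), (50, 57000), (54, 60000), (56, 57150), (60, 60000), (70, 63000), (84,
 60000), (90, 60000), (98, 57600), (100, 60000), (126, 60000), (140, 60000), (150, 60000), (196,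
 60000), (210, 60000), (250, 60000), (294, 60000), (350, 60000), (490, 60000), (686, 60000)]))))))
 (.split [(1, -69), (3, 100)]
 (.split [(2, 1), (3, -1)]
 (.split [(2, 1), (5, -1)]
 (.rule 0 (.rule 2 (.cut 1 [(1, 3), (3, -2)] (.add (.add (.mul (.g 3) (.pp [(1, 2)])) (.mul (.g 10)
 (.pp [(1, 3)]))) (.add (.mul (.g 8) (.pp [(1, 1)])) (.mul (.g 2) (.pp [(1, 1)])))) (.rule 8 (.leaf
 1200000000 (.add (.add (.add (.add (.mul (.g 11) (.add (.add (.mul (.g 11) (.add (.add (.mul (.g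
 6) (.add (.pp [(1, 39892800000)]) (.add (.mul (.g 5) (.pp [(1, 44028480000)])) (.mul (.g 6) (.pp
 [(1, 270543600)]))))) (.mul (.g 12) (.add (.mul (.g 11) (.pp [(1, 1095228000000)])) (.add (.mul
 (.g 15) (.pp [(1, 270418200000)])) (.mul (.g 16) (.pp [(1, 1793100000000)])))))) (.add (.mul (.g
 19) (.add (.mul (.g 14) (.pp [(1, 2619072000000)])) (.mul (.g 15) (.pp [(1, 13987800000)]))))
 (.add (.mul (.g 5) (.pp [(1, 3507012000000)])) (.mul (.g 11) (.pp [(1, 305928000000)])))))) (.add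
 (.mul (.g 5) (.add (.add (.pp [(1, 704820000000)]) (.mul (.pp [(1, 34066800)]) (.sq [(1, -93), (2,
 13), (3, 4), (7, 100)]))) (.add (.mul (.g 18) (.add (.mul (.g 12) (.pp [(1, 95316000000)])) (.add
 (.mul (.g 16) (.pp [(1, 107268000000)])) (.mul (.g 19) (.pp [(1, 3823752000000)]))))) (.add (.mul
 (.g 9) (.mul (.g 10) (.pp [(1, 1217820000000)]))) (.mul (.g 12) (.mul (.g 19) (.pp [(1,
 2802852000000)]))))))) (.mul (.g 19) (.add (.mul (.pp [(1, 85005600)]) (.sq [(1, -3), (2, -35),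
 (3, -67), (5, -5), (7, 100)])) (.add (.mul (.g 10) (.add (.mul (.g 6) (.pp [(1, 49365120000)]))
 (.mul (.g 14) (.pp [(1, 106260000000)])))) (.mul (.g 19) (.add (.mul (.g 9) (.pp [(1,
 4484748000000)])) (.mul (.g 16) (.pp [(1, 1430364000000)]))))))))) (.add (.add (.mul (.g 9) (.add
 (.mul (.g 9) (.add (.mul (.g 10) (.pp [(1, 2196756000000)])) (.mul (.g 15) (.pp [(1,
 93259800000)])))) (.mul (.g 6) (.mul (.g 18) (.pp [(1, 1004880000)]))))) (.mul (.g 18) (.add (.pp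
 [(1, 5328684000000)]) (.mul (.g 18) (.mul (.g 18) (.pp [(1, 218856000000)])))))) (.add (.mul (.g
 4) (.mul (.g 16) (.pp [(1, 848844000000)]))) (.mul (.g 6) (.mul (.g 10) (.mul (.g 12) (.pp [(1,
 44111760000)])))))))) (.add (.mul (.g 18) (.add (.add (.add (.mul (.g 8) (.add (.mul (.g 14) (.add
 (.mul (.g 4) (.pp [(1, 485664000000)])) (.mul (.g 5) (.pp [(1, 767004000000)])))) (.add (.mul (.g
 7) (.mul (.g 10) (.pp [(1, 87770400000)]))) (.mul (.g 8) (.mul (.g 9) (.pp [(1,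
 228780000000)])))))) (.mul (.g 5) (.add (.mul (.pp [(1, 45186000)]) (.sq [(1, -60), (2, -69), (3,
 -44), (5, -14), (7, 100)])) (.mul (.g 10) (.mul (.g 12) (.pp [(1, 775176000000)])))))) (.add (.mul
 (.g 19) (.add (.pp [(1, 208284000000)]) (.mul (.pp [(1, 265444800)]) (.sq [(1, -50), (2, 25), (3,
 32), (5, 32), (7, 44)])))) (.mul (.g 7) (.mul (.g 7) (.mul (.g 14) (.pp [(1, 3282030000)]))))))
 (.add (.add (.mul (.g 9) (.mul (.g 9) (.mul (.g 9) (.pp [(1, 478428000000)])))) (.mul (.g 10)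
 (.mul (.g 10) (.mul (.g 10) (.pp [(1, 274404000000)]))))) (.add (.mul (.g 12) (.mul (.pp [(1,
 132250800)]) (.sq [(1, -54), (2, 46), (3, 28), (5, 37), (7, 100)]))) (.mul (.g 18) (.mul (.pp [(1,
 45944400)]) (.sq [(1, -100), (2, 57), (3, 17), (5, 53), (7, 69)]))))))) (.mul (.g 4) (.add (.add
 (.mul (.g 8) (.add (.mul (.g 8) (.add (.pp [(1, 925032000000)]) (.add (.mul (.g 10) (.pp [(1,
 166740000000)])) (.mul (.g 12) (.pp [(1, 927864000000)]))))) (.mul (.g 14) (.pp [(1,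
 1381956000000)])))) (.add (.mul (.g 4) (.add (.mul (.g 10) (.pp [(1, 2068440000000)])) (.mul (.g
 14) (.pp [(1, 1958100000000)])))) (.mul (.g 9) (.mul (.pp [(1, 36433200)]) (.sq [(1, 43), (2, 22),
 (3, 100), (5, 78), (7, -78)]))))) (.add (.mul (.g 10) (.pp [(1, 672516000000)])) (.add (.mul (.g
 13) (.mul (.pp [(1, 3110400)]) (.sq [(1, 3), (2, 33), (3, 76), (5, 100), (7, 22)]))) (.mul (.g 14)
 (.mul (.pp [(1, 45223200)]) (.sq [(1, -33), (2, 100), (3, 48), (5, -35), (7, -30)]))))))))) (.add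
 (.mul (.g 19) (.add (.add (.mul (.g 9) (.add (.pp [(1, 1788696000000)]) (.mul (.g 14) (.add (.mul
 (.g 9) (.pp [(1, 371964000000)])) (.mul (.g 10) (.pp [(1, 1776000000)])))))) (.mul (.g 8) (.add
 (.pp [(1, 1738140000000)]) (.mul (.g 8) (.mul (.g 12) (.pp [(1, 96180000000)])))))) (.add (.mul
 (.g 6) (.pp [(1, 33061560000)])) (.add (.mul (.g 10) (.pp [(1, 1751304000000)])) (.mul (.g 14)
 (.mul (.pp [(1, 7070400)]) (.sq [(1, -6), (2, 11), (3, 50), (5, 36), (7, 16)]))))))) (.add (.mul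
 (.g 5) (.add (.mul (.g 5) (.add (.mul (.pp [(1, 1344556800)]) (.sq [(1, 25), (2, -19), (3, 16),
 (5, 8), (7, -9)])) (.mul (.g 9) (.pp [(1, 2173584000000)])))) (.mul (.g 12) (.mul (.pp [(1,
 97779600)]) (.sq [(1, 49), (2, 12), (3, -19), (5, 50), (7, 100)]))))) (.mul (.g 6) (.add (.mul (.g
 6) (.pp [(1, 8049600)])) (.add (.mul (.g 9) (.pp [(1, 693120000)])) (.mul (.g 12) (.pp [(1,
 1963800000)])))))))) (.add (.add (.mul (.g 8) (.add (.mul (.g 8) (.mul (.g 15) (.mul (.g 16) (.pp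
 [(1, 34456800000)])))) (.mul (.g 12) (.pp [(1, 515676000000)])))) (.add (.mul (.g 0) (.pp [(1,
 1200000000)])) (.mul (.g 2) (.pp [(1, 4000000000000)])))) (.add (.add (.mul (.g 3) (.pp [(1,
 4000000000000)])) (.mul (.g 13) (.mul (.g 13) (.mul (.pp [(1, 186553200)]) (.sq [(1, -39), (2,
 -44), (3, -8), (5, 8), (7, 100)]))))) (.add (.mul (.g 15) (.mul (.g 15) (.mul (.pp [(1, 185127)])
 (.sq [(1, 100), (2, -76), (3, 17), (5, 17), (7, -39)])))) (.mul (.g 17) (.pp [(1,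
 4000000000000)])))))) (.pp [(1, 26142074400), (2, 121164000), (3, 126549000), (4, 126415488), (5,
 121241400), (6, 107575608), (7, 134961000), (8, 126876080), (9, 106783257), (10, 126512808), (12,
 125960400), (14, 104268264), (15, 104119314), (16, 119616000), (18, 126222840), (20, 125035200),
 (21, 91084962), (24, 109794000), (25, 115852857), (27, 123443080), (28, 114615840), (30,
 114788880), (35, 116041362), (36, 130166400), (40, 110232000), (42, 137144880), (45, 134156040),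
 (49, 89027673), (50, 108882840), (54, 120414000), (56, 122695200), (60, 131220000), (63,
 141704880), (70, 120409680), (75, 132858840), (81, 123345600), (84, 114640800), (90, 117033600),
 (98, 149469480), (100, 128458800), (105, 134249760), (125, 133075480), (126, 113637600), (135,
 114880800), (140, 104054400), (147, 146788920), (150, 122701200), (175, 129845280), (189,
 113186400), (196, 117883200), (210, 129652800), (225, 105771600), (245, 139644120), (250,
 117530400), (294, 117912000), (315, 118903200), (343, 144429600), (350, 126186000), (375,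
 104455200), (441, 103527600), (490, 119073600), (525, 112641600), (625, 117572400), (686,
 113349600), (735, 104102400), (875, 107966400), (1029, 107860800), (1225, 114225600), (1715,
 117525600), (2401, 114711600)])))))))
 (.rule 0 (.rule 3 (.cut 31 [(1, 3), (3, -2)] (.add (.mul (.g 3) (.pp [(1, 162)])) (.add (.mul (.g
 10) (.pp [(1, 162)])) (.mul (.g 4) (.pp [(1, 1)])))) (.rule 8 (.leaf 300000000 (.add (.add (.add
 (.add (.mul (.g 18) (.add (.add (.mul (.g 11) (.add (.add (.mul (.pp [(1, 8748300)]) (.sq [(1,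
 100), (2, 45), (3, 85), (5, 85), (7, 69)])) (.mul (.pp [(1, 4118700)]) (.sq [(1, 15), (2, 76), (3,
 100), (5, -28), (7, -57)]))) (.add (.mul (.g 9) (.add (.mul (.g 9) (.pp [(1, 120141000000)]))
 (.mul (.g 16) (.pp [(1, 84231000000)])))) (.add (.mul (.g 18) (.add (.pp [(1, 202659000000)])
 (.mul (.g 14) (.pp [(1, 177330000000)])))) (.mul (.g 7) (.mul (.g 12) (.pp [(1,
 104216400000)]))))))) (.add (.mul (.g 5) (.add (.add (.pp [(1, 652608000000)]) (.mul (.pp [(1,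
 10052100)]) (.sq [(1, 8), (2, -11), (3, 68), (5, 26), (7, 100)]))) (.add (.mul (.g 8) (.add (.mul
 (.g 8) (.pp [(1, 284682000000)])) (.mul (.g 15) (.pp [(1, 20193300000)])))) (.mul (.g 10) (.mul
 (.g 10) (.pp [(1, 358848000000)])))))) (.mul (.g 9) (.add (.mul (.g 6) (.add (.mul (.g 6) (.pp
 [(1, 36618600)])) (.mul (.g 9) (.pp [(1, 1407540000)])))) (.mul (.g 12) (.add (.mul (.g 4) (.pp
 [(1, 479775000000)])) (.mul (.g 12) (.pp [(1, 84678000000)])))))))) (.add (.mul (.g 18) (.add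
 (.mul (.pp [(1, 11552700)]) (.sq [(1, -100), (2, 57), (3, 17), (5, 53), (7, 69)])) (.mul (.g 10)
 (.add (.mul (.g 12) (.pp [(1, 2166000000)])) (.mul (.g 19) (.pp [(1, 14388000000)])))))) (.add
 (.mul (.g 4) (.add (.mul (.pp [(1, 10220400)]) (.sq [(1, 11), (2, 2), (3, 50), (5, -2), (7,
 -45)])) (.mul (.g 6) (.mul (.g 16) (.pp [(1, 860370000)]))))) (.mul (.g 19) (.pp [(1,
 373902000000)])))))) (.add (.mul (.g 19) (.add (.add (.mul (.g 11) (.add (.add (.mul (.g 9) (.add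
 (.mul (.g 6) (.pp [(1, 11343870000)])) (.mul (.g 10) (.pp [(1, 201483000000)])))) (.mul (.g 5)
 (.mul (.g 19) (.pp [(1, 557907000000)])))) (.add (.mul (.g 10) (.mul (.g 14) (.pp [(1,
 211284000000)]))) (.add (.mul (.g 11) (.mul (.g 11) (.pp [(1, 125397000000)]))) (.mul (.g 12)
 (.mul (.g 13) (.pp [(1, 900162000000)]))))))) (.add (.mul (.g 4) (.add (.mul (.g 4) (.add (.pp
 [(1, 122526000000)]) (.add (.mul (.g 13) (.pp [(1, 11952000000)])) (.mul (.g 19) (.pp [(1,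
 264420000000)]))))) (.mul (.g 19) (.add (.mul (.g 13) (.pp [(1, 225825000000)])) (.mul (.g 19)
 (.pp [(1, 79797000000)])))))) (.mul (.g 8) (.add (.pp [(1, 1042413000000)]) (.add (.mul (.g 8)
 (.mul (.g 9) (.pp [(1, 220482000000)]))) (.mul (.g 10) (.mul (.g 10) (.pp [(1,
 430482000000)])))))))) (.add (.add (.mul (.g 10) (.add (.mul (.g 5) (.mul (.g 10) (.pp [(1,
 170136000000)]))) (.mul (.g 13) (.mul (.g 13) (.pp [(1, 113289000000)]))))) (.mul (.g 19) (.add
 (.pp [(1, 280659000000)]) (.mul (.pp [(1, 14284200)]) (.sq [(1, -83), (2, 100), (3, 100), (5,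
 100), (7, 100)]))))) (.add (.mul (.g 6) (.pp [(1, 17962440000)])) (.mul (.g 9) (.mul (.g 9) (.mul
 (.g 9) (.pp [(1, 259719000000)])))))))) (.mul (.g 6) (.add (.add (.mul (.g 4) (.add (.add (.mul
 (.g 11) (.add (.mul (.g 6) (.pp [(1, 45170100)])) (.mul (.g 12) (.pp [(1, 6905520000)])))) (.mul
 (.g 4) (.mul (.g 10) (.pp [(1, 1335270000)])))) (.add (.mul (.g 5) (.mul (.g 12) (.pp [(1,
 2213910000)]))) (.mul (.g 16) (.mul (.g 16) (.pp [(1, 2306280000)])))))) (.mul (.g 16) (.add (.mul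
 (.g 5) (.mul (.g 5) (.pp [(1, 2108220000)]))) (.add (.mul (.g 6) (.mul (.g 16) (.pp [(1,
 67926600)]))) (.mul (.g 9) (.mul (.g 12) (.pp [(1, 4677090000)]))))))) (.add (.mul (.g 5) (.pp
 [(1, 14581680000)])) (.add (.mul (.g 10) (.mul (.pp [(1, 792804)]) (.sq [(1, 21), (2, -29), (3,
 -29), (5, 20), (7, 50)]))) (.mul (.g 13) (.mul (.pp [(1, 516567)]) (.sq [(1, 12), (2, -31), (3,
 -34), (5, -37), (7, 100)]))))))))) (.add (.mul (.g 9) (.add (.mul (.g 13) (.add (.add (.mul (.g 4)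
 (.mul (.g 11) (.pp [(1, 130281000000)]))) (.mul (.g 5) (.pp [(1, 592857000000)]))) (.add (.mul (.g
 7) (.pp [(1, 15721500000)])) (.mul (.g 12) (.mul (.g 16) (.pp [(1, 673407000000)])))))) (.add
 (.mul (.g 7) (.add (.mul (.pp [(1, 401100)]) (.sq [(1, 41), (2, -57), (3, -55), (5, 42), (7,
 100)])) (.mul (.g 11) (.mul (.g 12) (.pp [(1, 14401500000)]))))) (.mul (.g 5) (.mul (.g 5) (.pp
 [(1, 466422000000)])))))) (.add (.mul (.g 5) (.add (.add (.mul (.g 5) (.pp [(1, 875064000000)]))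
 (.mul (.g 11) (.mul (.g 11) (.mul (.g 11) (.pp [(1, 304293000000)]))))) (.add (.mul (.g 13) (.mul
 (.pp [(1, 31837200)]) (.sq [(1, 100), (2, -68), (3, 42), (7, -57)]))) (.mul (.g 15) (.mul (.pp
 [(1, 529935)]) (.sq [(1, -14), (2, 53), (3, 1), (5, 100), (7, -16)])))))) (.mul (.g 4) (.add (.mul
 (.g 12) (.add (.mul (.pp [(1, 5692200)]) (.sq [(1, -21), (2, -19), (3, -93), (5, 12), (7, 100)]))
 (.mul (.g 7) (.mul (.g 12) (.pp [(1, 2554950000)]))))) (.mul (.g 11) (.mul (.g 11) (.pp [(1,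
 544641000000)])))))))) (.add (.add (.mul (.g 13) (.add (.mul (.g 10) (.mul (.g 11) (.mul (.g 15)
 (.pp [(1, 4275300000)])))) (.mul (.g 14) (.mul (.pp [(1, 9265800)]) (.sq [(1, 48), (2, -51), (3,
 -29), (5, -6), (7, 100)]))))) (.add (.mul (.g 0) (.pp [(1, 300000000)])) (.mul (.g 2) (.pp [(1,
 1000000000000)])))) (.add (.mul (.g 3) (.pp [(1, 1000000000000)])) (.add (.mul (.g 8) (.mul (.g
 14) (.mul (.pp [(1, 7342800)]) (.sq [(1, -74), (2, 100), (3, 76), (5, -54), (7, -19)])))) (.mul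
 (.g 17) (.pp [(1, 1000000000000)])))))) (.pp [(1, 2250573312), (2, 30548940), (3, 30112680), (4,
 33480531), (5, 29685780), (6, 22275468), (7, 30167700), (8, 30039438), (9, 34590876), (10,
 20433882), (12, 27565836), (14, 28122420), (15, 31726692), (16, 28997100), (18, 40662129), (20,
 28593675), (21, 32053980), (24, 33203400), (25, 32690751), (27, 18973897), (28, 31173060), (30,
 32419254), (35, 28802700), (36, 25019100), (40, 32949900), (42, 46314960), (45, 26203860), (49,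
 33049800), (50, 39011865), (54, 31488600), (56, 30612900), (60, 25849800), (63, 23158380), (70,
 30864600), (75, 31882485), (81, 33820200), (84, 22868400), (90, 35424900), (98, 26069640), (100,
 27880200), (105, 24345600), (125, 27077013), (126, 22830000), (135, 30486900), (140, 26158800),
 (147, 23664360), (150, 27506700), (175, 33612900), (189, 34057500), (196, 28203600), (210,
 33139800), (225, 29553000), (245, 30412200), (250, 29604000), (294, 32562600), (315, 33186000),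
 (343, 27319800), (350, 32029200), (375, 29379900), (441, 31087500), (490, 32515200), (525,
 28052100), (625, 30568800), (686, 30678000), (735, 31597800), (875, 27921600), (1029, 31248000),
 (1225, 27666000), (1715, 31311600), (2401, 29907900)]))))))))
 (.split [(2, 1), (5, -1)]
 (.rule 1 (.rule 2 (.cut 1 [(1, 3), (3, -2)] (.add (.add (.mul (.g 11) (.pp [(1, 1)])) (.mul (.g
 14) (.pp [(1, 1)]))) (.add (.mul (.g 8) (.pp [(1, 1)])) (.mul (.g 10) (.pp [(1, 1)])))) (.rule 8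
 (.leaf 48000000 (.add (.add (.add (.add (.mul (.g 11) (.add (.add (.add (.mul (.g 11) (.add (.add
 (.mul (.g 11) (.add (.mul (.g 4) (.pp [(1, 4183200000)])) (.add (.mul (.g 12) (.pp [(1,
 25908960000)])) (.mul (.g 18) (.pp [(1, 4800000)]))))) (.add (.mul (.g 10) (.add (.pp [(1,
 41869440000)]) (.mul (.g 9) (.pp [(1, 110685120000)])))) (.mul (.g 12) (.add (.mul (.g 12) (.pp
 [(1, 55349280000)])) (.mul (.g 18) (.pp [(1, 21469920000)])))))) (.add (.mul (.g 16) (.add (.pp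
 [(1, 85001280000)]) (.mul (.g 16) (.pp [(1, 44593920000)])))) (.add (.mul (.g 4) (.mul (.g 8) (.pp
 [(1, 106918080000)]))) (.mul (.g 5) (.mul (.g 19) (.pp [(1, 141132000000)]))))))) (.mul (.g 9)
 (.add (.add (.mul (.pp [(1, 1935504)]) (.sq [(1, 52), (2, -14), (3, 81), (5, -55), (7, 100)]))
 (.mul (.g 10) (.add (.mul (.g 10) (.pp [(1, 115753440000)])) (.mul (.g 16) (.pp [(1,
 73403040000)]))))) (.add (.mul (.g 8) (.mul (.g 15) (.pp [(1, 3662304000)]))) (.mul (.g 9) (.mul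
 (.g 18) (.pp [(1, 124281600000)]))))))) (.add (.mul (.g 12) (.add (.mul (.g 7) (.add (.mul (.g 12)
 (.pp [(1, 5609712000)])) (.mul (.g 19) (.pp [(1, 336096000)])))) (.add (.mul (.g 8) (.mul (.g 18)
 (.pp [(1, 186988320000)]))) (.mul (.g 10) (.mul (.g 14) (.pp [(1, 12388800000)])))))) (.mul (.g 4)
 (.add (.pp [(1, 84716640000)]) (.mul (.g 16) (.add (.mul (.g 4) (.pp [(1, 129233280000)])) (.mul
 (.g 10) (.pp [(1, 292063200000)])))))))) (.add (.add (.mul (.g 5) (.add (.pp [(1, 10944000000)])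
 (.mul (.pp [(1, 77232)]) (.sq [(1, 49), (2, -11), (3, 98), (5, -57), (7, 100)])))) (.mul (.g 6)
 (.pp [(1, 2883249600)]))) (.add (.mul (.g 10) (.mul (.g 10) (.mul (.g 16) (.pp [(1,
 220430880000)])))) (.mul (.g 18) (.pp [(1, 239919360000)])))))) (.add (.mul (.g 4) (.add (.add
 (.pp [(1, 3039360000)]) (.add (.mul (.g 4) (.add (.add (.pp [(1, 30599040000)]) (.mul (.pp [(1,
 964464)]) (.sq [(1, 100), (2, -81), (5, 67), (7, -41)]))) (.add (.mul (.g 18) (.add (.mul (.g 4)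
 (.pp [(1, 10462560000)])) (.mul (.g 8) (.pp [(1, 42250080000)])))) (.mul (.g 10) (.pp [(1,
 24123360000)]))))) (.mul (.g 8) (.add (.pp [(1, 19392000000)]) (.add (.mul (.g 8) (.mul (.g 18)
 (.pp [(1, 114672480000)]))) (.mul (.g 10) (.pp [(1, 151973280000)]))))))) (.add (.add (.mul (.g
 13) (.add (.mul (.pp [(1, 2665200)]) (.sq [(1, 100), (2, -68), (5, 42), (7, -57)])) (.mul (.g 10)
 (.pp [(1, 68124000000)])))) (.mul (.g 9) (.pp [(1, 180496320000)]))) (.add (.mul (.g 12) (.mul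
 (.pp [(1, 920016)]) (.sq [(1, 1), (2, 77), (3, 35), (5, -64), (7, 100)]))) (.mul (.g 14) (.mul
 (.pp [(1, 52944)]) (.sq [(1, 21), (2, -88), (3, -96), (5, 12), (7, -100)]))))))) (.mul (.g 18)
 (.add (.add (.mul (.pp [(1, 270240000)]) (.sq [(2, 1), (3, 1), (5, 1), (7, 1)])) (.add (.mul (.g
 5) (.add (.mul (.pp [(1, 7787136)]) (.sq [(1, -35), (2, -2), (3, -44), (7, 50)])) (.add (.mul (.pp
 [(1, 2576400)]) (.sq [(2, 20), (5, -9), (7, 16)])) (.mul (.g 5) (.pp [(1, 61510560000)]))))) (.mul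
 (.g 8) (.mul (.g 8) (.add (.mul (.g 10) (.pp [(1, 249300480000)])) (.mul (.g 12) (.pp [(1,
 131246880000)]))))))) (.add (.mul (.g 9) (.add (.mul (.g 9) (.mul (.g 18) (.pp [(1,
 36670560000)]))) (.mul (.g 16) (.pp [(1, 96277920000)])))) (.add (.mul (.g 10) (.pp [(1,
 30125280000)])) (.mul (.g 19) (.mul (.pp [(1, 417840)]) (.sq [(1, 22), (2, -33), (3, 89), (5,
 -30), (7, -100)]))))))))) (.add (.mul (.g 5) (.add (.add (.mul (.g 9) (.add (.pp [(1,
 80240160000)]) (.mul (.g 9) (.mul (.g 12) (.pp [(1, 11016960000)]))))) (.mul (.g 10) (.add (.pp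
 [(1, 155220480000)]) (.mul (.pp [(1, 3419952)]) (.sq [(1, 52), (2, -39), (3, 39), (5, -55), (7,
 100)]))))) (.add (.mul (.g 6) (.pp [(1, 1564843200)])) (.mul (.g 13) (.mul (.pp [(1, 623616)])
 (.sq [(1, 88), (2, 45), (3, -100), (5, 11), (7, 31)])))))) (.add (.mul (.g 19) (.add (.add (.mul
 (.g 10) (.add (.mul (.pp [(1, 1724688)]) (.sq [(1, 21), (3, 100), (5, -38), (7, 96)])) (.mul (.g
 10) (.mul (.g 10) (.pp [(1, 5798880000)]))))) (.mul (.g 19) (.add (.mul (.pp [(1, 746688)]) (.sq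
 [(1, -2), (3, -100), (5, -14), (7, 97)])) (.mul (.g 8) (.mul (.g 14) (.pp [(1, 53441760000)]))))))
 (.add (.mul (.g 6) (.pp [(1, 326966400)])) (.mul (.g 16) (.mul (.pp [(1, 2018784)]) (.sq [(1,
 -81), (2, 68), (3, 100), (5, 68), (7, 100)])))))) (.mul (.g 8) (.add (.mul (.g 13) (.add (.mul (.g
 9) (.mul (.g 9) (.pp [(1, 73193280000)]))) (.mul (.g 14) (.pp [(1, 20072160000)])))) (.mul (.g 10)
 (.mul (.g 12) (.mul (.g 12) (.pp [(1, 33681600000)]))))))))) (.add (.add (.mul (.g 0) (.pp [(1,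
 48000000)])) (.add (.mul (.g 2) (.pp [(1, 160000000000)])) (.mul (.g 3) (.pp [(1,
 160000000000)])))) (.add (.add (.mul (.g 7) (.mul (.g 7) (.mul (.g 7) (.mul (.g 15) (.pp [(1,
 55443)]))))) (.mul (.g 10) (.mul (.g 10) (.mul (.g 10) (.mul (.g 16) (.pp [(1, 56066400000)]))))))
 (.add (.mul (.g 13) (.mul (.g 14) (.mul (.pp [(1, 1536288)]) (.sq [(1, 90), (2, 69), (3, -100),
 (5, 24), (7, 47)])))) (.mul (.g 17) (.pp [(1, 160000000000)])))))) (.pp [(1, 1045719477), (2,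
 4454472), (3, 5113500), (4, 4877904), (5, 5015772), (6, 5847264), (7, 5416704), (8, 4096368), (9,
 4433424), (10, 5860512), (12, 4806096), (14, 4908528), (15, 4474896), (16, 5009664), (18,
 3645648), (20, 6188160), (21, 4659216), (24, 5468448), (25, 4609248), (27, 5208624), (28,
 4217808), (30, 4687008), (35, 4620864), (36, 4108656), (40, 4589856), (42, 5028288), (45,
 4703616), (49, 4396608), (50, 3189264), (54, 5550336), (56, 5349648), (60, 3402912), (63,
 4069872), (70, 5350944), (75, 4706160), (81, 4375296), (84, 4948944), (90, 5416224), (98,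
 3832368), (100, 5095968), (105, 3923808), (125, 5515648), (126, 4179840), (135, 4416672), (140,
 3492624), (147, 5003232), (150, 5437104), (175, 5026944), (189, 4872624), (196, 4997184), (210,
 4952064), (225, 4954032), (245, 5000784), (250, 4766256), (294, 4502064), (315, 4812144), (343,
 4800000), (350, 5394048), (375, 4523856), (441, 5163168), (490, 4756608), (525, 4741200), (625,
 4612752), (686, 4761600), (735, 4478160), (875, 4607904), (1029, 4838400), (1225, 4698624), (1715,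
 4800000), (2401, 4800000)])))))))
 (.rule 1 (.rule 3 (.cut 1 [(1, 3), (3, -2)] (.add (.add (.mul (.g 6) (.pp [(1, 1)])) (.mul (.g 11)
 (.pp [(1, 2)]))) (.add (.mul (.g 2) (.pp [(1, 2)])) (.mul (.g 10) (.pp [(1, 1)])))) (.rule 8
 (.leaf 15000000000 (.add (.add (.add (.add (.mul (.g 11) (.add (.add (.add (.mul (.g 11) (.add
 (.add (.mul (.g 4) (.add (.mul (.g 4) (.pp [(1, 7095900000000)])) (.add (.mul (.g 5) (.pp [(1,
 5550000000)])) (.mul (.g 18) (.pp [(1, 1500000000)]))))) (.mul (.g 11) (.add (.pp [(1,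
 297750000000)]) (.add (.mul (.g 7) (.pp [(1, 298222500000)])) (.mul (.g 18) (.pp [(1,
 1500000000)])))))) (.add (.mul (.g 10) (.add (.mul (.g 5) (.pp [(1, 4942050000000)])) (.mul (.g
 13) (.pp [(1, 5002200000000)])))) (.add (.mul (.g 12) (.add (.mul (.g 12) (.pp [(1,
 7308300000000)])) (.mul (.g 18) (.pp [(1, 2550000000)])))) (.mul (.g 7) (.mul (.g 7) (.pp [(1,
 36261750000)]))))))) (.mul (.g 8) (.add (.add (.mul (.g 12) (.add (.add (.mul (.g 5) (.pp [(1,
 24884700000000)])) (.mul (.g 6) (.pp [(1, 382545000000)]))) (.add (.mul (.g 18) (.pp [(1,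
 79234050000000)])) (.mul (.g 19) (.pp [(1, 1457850000000)]))))) (.mul (.g 4) (.add (.mul (.g 6)
 (.pp [(1, 157276500000)])) (.mul (.g 19) (.pp [(1, 10745400000000)]))))) (.add (.mul (.g 5) (.pp
 [(1, 82926900000000)])) (.add (.mul (.g 18) (.pp [(1, 55271100000000)])) (.mul (.g 19) (.pp [(1,
 7184250000000)]))))))) (.add (.mul (.g 6) (.add (.mul (.g 4) (.add (.mul (.g 9) (.pp [(1,
 870000000)])) (.mul (.g 10) (.pp [(1, 43543500000)])))) (.add (.mul (.g 9) (.mul (.g 18) (.pp [(1,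
 15000000)]))) (.mul (.g 10) (.mul (.g 12) (.pp [(1, 109212000000)])))))) (.mul (.g 10) (.mul (.g
 10) (.add (.mul (.g 18) (.pp [(1, 2095200000000)])) (.mul (.g 19) (.pp [(1, 607800000000)])))))))
 (.add (.add (.mul (.g 4) (.mul (.g 4) (.mul (.g 4) (.pp [(1, 775350000000)])))) (.mul (.g 5) (.mul
 (.g 9) (.mul (.g 9) (.pp [(1, 214200000000)]))))) (.add (.mul (.g 18) (.pp [(1, 12353850000000)]))
 (.mul (.g 19) (.mul (.g 19) (.mul (.g 19) (.pp [(1, 100050000000)])))))))) (.add (.mul (.g 10)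
 (.add (.add (.mul (.g 5) (.add (.mul (.g 5) (.add (.mul (.g 5) (.pp [(1, 42000000000)])) (.add
 (.mul (.g 10) (.pp [(1, 2745600000000)])) (.mul (.g 12) (.pp [(1, 6456600000000)]))))) (.add (.mul
 (.g 4) (.add (.pp [(1, 45784950000000)]) (.mul (.g 18) (.pp [(1, 2271300000000)])))) (.mul (.g 19)
 (.add (.mul (.g 8) (.pp [(1, 31409250000000)])) (.mul (.g 12) (.pp [(1, 59633550000000)])))))))
 (.mul (.g 9) (.add (.mul (.pp [(1, 5460000)]) (.sq [(1, -53), (2, 83), (3, 81), (5, -73), (7,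
 -100)])) (.add (.mul (.g 18) (.pp [(1, 910200000000)])) (.mul (.g 19) (.pp [(1,
 3164700000000)])))))) (.add (.mul (.g 8) (.add (.mul (.pp [(1, 913065000)]) (.sq [(1, -45), (2,
 66), (3, 70), (5, -58), (7, -100)])) (.mul (.g 10) (.mul (.g 13) (.pp [(1, 3032400000000)])))))
 (.add (.mul (.g 4) (.mul (.g 6) (.mul (.g 12) (.pp [(1, 142375500000)])))) (.mul (.g 13) (.mul
 (.pp [(1, 1800000)]) (.sq [(1, 15), (2, 58), (3, 53), (5, 100)]))))))) (.mul (.g 8) (.add (.mul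
 (.g 8) (.add (.mul (.g 19) (.add (.pp [(1, 21478650000000)]) (.add (.mul (.g 5) (.pp [(1,
 31913250000000)])) (.mul (.g 9) (.pp [(1, 31570350000000)]))))) (.add (.mul (.g 5) (.mul (.g 9)
 (.pp [(1, 1091550000000)]))) (.mul (.g 13) (.pp [(1, 32402850000000)]))))) (.add (.mul (.g 9)
 (.add (.mul (.g 9) (.mul (.g 19) (.pp [(1, 6417300000000)]))) (.mul (.g 18) (.pp [(1,
 1911600000000)])))) (.mul (.g 12) (.add (.mul (.g 5) (.mul (.g 12) (.pp [(1, 1456800000000)])))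
 (.mul (.g 15) (.mul (.g 19) (.pp [(1, 1469715000000)])))))))))) (.add (.mul (.g 6) (.add (.add
 (.mul (.g 6) (.add (.pp [(1, 563535000)]) (.add (.mul (.g 6) (.mul (.g 6) (.pp [(1, 2127)])))
 (.mul (.g 9) (.mul (.g 18) (.pp [(1, 21420000)])))))) (.mul (.g 4) (.mul (.pp [(1, 437100)]) (.sq
 [(1, -40), (2, 100), (3, 83), (5, -44)])))) (.add (.mul (.g 5) (.pp [(1, 304258500000)])) (.mul
 (.g 19) (.pp [(1, 718321500000)]))))) (.add (.mul (.g 18) (.add (.mul (.g 4) (.add (.pp [(1,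
 2176350000000)]) (.mul (.g 4) (.mul (.g 14) (.pp [(1, 69150000000)]))))) (.add (.mul (.g 12) (.add
 (.mul (.g 5) (.mul (.g 9) (.pp [(1, 299550000000)]))) (.mul (.g 18) (.mul (.g 19) (.pp [(1,
 5005200000000)]))))) (.mul (.g 16) (.pp [(1, 2444850000000)]))))) (.mul (.g 19) (.add (.mul (.g 9)
 (.mul (.g 9) (.mul (.g 9) (.pp [(1, 375300000000)])))) (.mul (.g 19) (.pp [(1,
 9914250000000)]))))))) (.add (.add (.mul (.g 0) (.pp [(1, 15000000000)])) (.add (.mul (.g 2) (.pp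
 [(1, 50000000000000)])) (.mul (.g 3) (.pp [(1, 50000000000000)])))) (.add (.add (.mul (.g 4) (.mul
 (.g 4) (.mul (.pp [(1, 1650000)]) (.sq [(1, -75), (2, -14), (3, -27), (5, 100)])))) (.mul (.g 5)
 (.mul (.g 5) (.pp [(1, 6977700000000)])))) (.add (.mul (.g 13) (.pp [(1, 26860350000000)])) (.mul
 (.g 17) (.pp [(1, 50000000000000)])))))) (.pp [(1, 88330398633), (2, 1542660000), (3, 1434337200),
 (4, 1462950000), (5, 1367340000), (6, 1547736000), (7, 1350000000), (8, 1586000000), (9,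
 1477800000), (10, 1332327000), (12, 1433160000), (14, 1605000000), (15, 1658124000), (16,
 1476600000), (18, 1494048900), (20, 1349520000), (21, 1615620000), (24, 1452600000), (25,
 1546098000), (27, 1506000000), (28, 1216500000), (30, 1696629600), (35, 1728000000), (36,
 1533150000), (40, 1550460000), (42, 1470000000), (45, 1491311100), (49, 1538250000), (50,
 2031513600), (54, 1568190000), (56, 1500000000), (60, 1611060000), (63, 1419000000), (70,
 1464000000), (75, 1402910400), (81, 1500000000), (84, 1500000000), (90, 1238400000), (98,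
 1470000000), (100, 1537440000), (105, 1554000000), (125, 1389566400), (126, 1650000000), (135,
 1414950000), (140, 1908000000), (147, 1515000000), (150, 1421640000), (175, 1351500000), (189,
 1500000000), (196, 1500000000), (210, 1446000000), (225, 1611150000), (245, 1500000000), (250,
 1349340000), (294, 1500000000), (315, 1452000000), (343, 1522500000), (350, 1146000000), (375,
 1421100000), (441, 1500000000), (490, 1350000000), (525, 1584000000), (625, 1500000000), (686,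
 1500000000), (735, 1500000000), (875, 1650000000), (1029, 1500000000), (1225, 1500000000), (1715,
 1500000000), (2401, 1500000000)])))))))))
 (.split [(1, -7), (3, 50)]
 (.split [(2, 1), (3, -1)]
 (.split [(2, 1), (5, -1)]
 (.rule 0 (.rule 2 (.rule 7 (.leaf 1200000000 (.add (.add (.add (.add (.mul (.g 11) (.add (.add
 (.mul (.g 19) (.add (.add (.mul (.g 10) (.add (.mul (.g 4) (.pp [(1, 3148908000000)])) (.add (.mul
 (.g 5) (.pp [(1, 70244400000)])) (.mul (.g 15) (.pp [(1, 161695200000)]))))) (.mul (.g 19) (.add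
 (.mul (.g 9) (.pp [(1, 527268000000)])) (.add (.mul (.g 14) (.pp [(1, 3359652000000)])) (.mul (.g
 16) (.pp [(1, 909744000000)])))))) (.add (.mul (.g 4) (.mul (.g 12) (.pp [(1, 3440340000000)])))
 (.add (.mul (.g 6) (.mul (.g 13) (.pp [(1, 6624360000)]))) (.mul (.g 11) (.mul (.g 11) (.pp [(1,
 2232000000)]))))))) (.add (.mul (.g 12) (.add (.add (.mul (.pp [(1, 150702000)]) (.sq [(1, -12),
 (2, 48), (3, 100), (5, 5), (7, -45)])) (.mul (.g 18) (.add (.mul (.g 4) (.pp [(1,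
 2169420000000)])) (.mul (.g 18) (.pp [(1, 1152204000000)]))))) (.add (.mul (.g 5) (.mul (.g 10)
 (.pp [(1, 143948160000)]))) (.mul (.g 11) (.mul (.g 11) (.pp [(1, 1632684000000)])))))) (.mul (.g
 11) (.add (.mul (.g 11) (.add (.pp [(1, 286848000000)]) (.mul (.g 18) (.pp [(1, 120000000)]))))
 (.mul (.g 5) (.mul (.g 5) (.pp [(1, 46852800)]))))))) (.add (.add (.mul (.g 18) (.add (.pp [(1,
 3927576000000)]) (.mul (.g 18) (.pp [(1, 190272000000)])))) (.mul (.g 3) (.pp [(1,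
 305496000000)]))) (.add (.mul (.g 9) (.mul (.g 9) (.mul (.g 10) (.pp [(1, 574608000000)])))) (.mul
 (.g 15) (.pp [(1, 122579400000)])))))) (.add (.mul (.g 18) (.add (.add (.pp [(1, 51276000000)])
 (.add (.mul (.g 10) (.add (.add (.pp [(1, 1128264000000)]) (.mul (.g 19) (.add (.mul (.g 6) (.pp
 [(1, 20105400000)])) (.add (.mul (.g 9) (.pp [(1, 5389836000000)])) (.mul (.g 18) (.pp [(1,
 156480000000)])))))) (.add (.mul (.g 5) (.mul (.g 10) (.pp [(1, 10384800000)]))) (.mul (.g 7)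
 (.mul (.g 8) (.pp [(1, 41302800000)])))))) (.mul (.g 8) (.add (.mul (.g 4) (.mul (.g 15) (.pp [(1,
 42795600000)]))) (.mul (.g 8) (.mul (.g 9) (.pp [(1, 86556000000)]))))))) (.add (.add (.mul (.g 5)
 (.mul (.g 9) (.mul (.g 9) (.pp [(1, 19318800000)])))) (.mul (.g 6) (.pp [(1, 20139480000)])))
 (.add (.mul (.g 12) (.mul (.pp [(1, 356754000)]) (.sq [(1, -54), (2, 46), (3, 28), (5, 37), (7,
 100)]))) (.mul (.g 19) (.mul (.pp [(1, 2696400)]) (.sq [(1, 57), (2, -38), (3, 100), (5, -97), (7,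
 28)]))))))) (.mul (.g 3) (.add (.add (.pp [(1, 4646256000000)]) (.add (.mul (.g 9) (.add (.pp [(1,
 3130416000000)]) (.mul (.g 9) (.add (.mul (.g 9) (.pp [(1, 213912000000)])) (.mul (.g 10) (.pp
 [(1, 860748000000)])))))) (.mul (.g 12) (.add (.pp [(1, 830652000000)]) (.add (.mul (.g 8) (.mul
 (.g 8) (.pp [(1, 1611852000000)]))) (.mul (.g 12) (.mul (.g 13) (.pp [(1, 1392816000000)]))))))))
 (.add (.mul (.g 3) (.mul (.g 10) (.pp [(1, 3992508000000)]))) (.add (.mul (.g 8) (.mul (.g 14)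
 (.pp [(1, 1474716000000)]))) (.mul (.g 15) (.mul (.pp [(1, 268800)]) (.sq [(1, 61), (2, 59), (3,
 17), (5, -44), (7, 100)]))))))))) (.add (.mul (.g 4) (.add (.add (.mul (.g 4) (.add (.mul (.pp
 [(1, 877593600)]) (.sq [(1, 25), (2, -19), (3, 16), (5, 8), (7, -9)])) (.mul (.g 14) (.pp [(1,
 1305588000000)])))) (.mul (.g 5) (.mul (.g 10) (.mul (.g 10) (.pp [(1, 6733680000)]))))) (.add
 (.mul (.g 6) (.pp [(1, 23657400000)])) (.add (.mul (.g 12) (.mul (.pp [(1, 4280400)]) (.sq [(1,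
 18), (2, -56), (3, 37), (5, -100), (7, 93)]))) (.mul (.g 14) (.mul (.pp [(1, 76485600)]) (.sq [(1,
 68), (2, -91), (3, -77), (5, 45), (7, 100)]))))))) (.add (.mul (.g 13) (.add (.add (.mul (.g 6)
 (.add (.mul (.pp [(1, 92220)]) (.sq [(1, -6), (2, 100), (3, 50), (5, -13), (7, -54)])) (.mul (.pp
 [(1, 41136)]) (.sq [(1, 53), (2, 4), (3, 67), (5, -90), (7, 100)])))) (.mul (.g 16) (.add (.mul
 (.pp [(1, 14527200)]) (.sq [(1, 48), (2, 3), (3, 51), (5, -96), (7, 100)])) (.mul (.pp [(1,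
 51127200)]) (.sq [(1, -6), (2, 100), (3, 46), (5, -13), (7, -52)]))))) (.add (.mul (.g 13) (.mul
 (.pp [(1, 31521600)]) (.sq [(1, 40), (2, -5), (3, 10), (5, -34), (7, 50)]))) (.mul (.g 14) (.mul
 (.pp [(1, 598800)]) (.sq [(1, -68), (2, 57), (3, 81), (5, 100), (7, 79)])))))) (.mul (.g 15) (.add
 (.add (.mul (.g 12) (.add (.pp [(1, 229655400000)]) (.mul (.pp [(1, 15624060)]) (.sq [(1, -14),
 (2, -18), (3, -43), (5, -31), (7, 100)])))) (.mul (.g 19) (.add (.pp [(1, 53710800000)]) (.mul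
 (.pp [(1, 605880)]) (.sq [(1, 42), (2, 100), (3, -29), (5, -52), (7, 4)]))))) (.add (.mul (.g 8)
 (.mul (.g 8) (.mul (.g 16) (.pp [(1, 99608400000)])))) (.mul (.g 15) (.mul (.pp [(1, 37473)]) (.sq
 [(1, 91), (2, -23), (3, 36), (5, -29), (7, 100)]))))))))) (.add (.add (.mul (.g 8) (.add (.mul (.g
 12) (.add (.mul (.pp [(1, 70807200)]) (.sq [(1, -44), (2, 100), (3, -3), (5, -59), (7, -15)]))
 (.mul (.g 7) (.mul (.g 14) (.pp [(1, 52563600000)]))))) (.mul (.g 6) (.mul (.g 9) (.mul (.g 16)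
 (.pp [(1, 575760000)])))))) (.add (.mul (.g 9) (.add (.mul (.g 6) (.mul (.g 10) (.mul (.g 10) (.pp
 [(1, 16942680000)])))) (.mul (.g 9) (.mul (.g 9) (.mul (.g 9) (.pp [(1, 988500000000)])))))) (.mul
 (.g 0) (.pp [(1, 2400000000)])))) (.add (.add (.mul (.g 1) (.pp [(1, 4000000000000)])) (.mul (.g
 2) (.pp [(1, 4000000000000)]))) (.add (.mul (.g 5) (.mul (.g 19) (.pp [(1, 2157120000)]))) (.mul
 (.g 17) (.pp [(1, 4000000000000)])))))) (.pp [(1, 111136715031), (2, 127566306), (3, 130272912),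
 (4, 118770543), (5, 125099190), (6, 132823272), (7, 130419480), (8, 127163576), (9, 102883284),
 (10, 107260314), (12, 104015400), (14, 134094360), (15, 99000672), (16, 123420000), (18,
 116672628), (20, 113475384), (21, 87950400), (24, 114302400), (25, 119820807), (27, 121443856),
 (28, 139989600), (30, 112198824), (35, 75112680), (36, 113722800), (40, 117676800), (42,
 94058400), (45, 147808056), (49, 120479040), (50, 127648800), (54, 130224000), (56, 105799200),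
 (60, 119503200), (63, 134733600), (70, 85112880), (75, 145313700), (81, 118371600), (84,
 143779200), (90, 142064400), (98, 132031920), (100, 126600000), (105, 175674960), (125,
 118486420), (126, 114009600), (135, 106080000), (140, 114499200), (147, 114287280), (150,
 115957200), (175, 160695840), (189, 119964000), (196, 123388800), (210, 141940800), (225,
 109364400), (245, 123106560), (250, 121155600), (294, 101662800), (315, 94982400), (343,
 122427600), (350, 145257600), (375, 108098400), (441, 132728400), (490, 102336000), (525,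
 83460000), (625, 117039600), (686, 119550000), (735, 130984800), (875, 103690800), (1029,
 120000000), (1225, 121837200), (1715, 118022400), (2401, 120000000)]))))))
 (.rule 0 (.rule 3 (.rule 7 (.leaf 300000000 (.add (.add (.add (.add (.mul (.g 18) (.add (.add
 (.add (.mul (.g 11) (.add (.add (.mul (.g 8) (.add (.add (.pp [(1, 231639000000)]) (.mul (.g 3)
 (.pp [(1, 47343000000)]))) (.add (.mul (.g 11) (.pp [(1, 803307000000)])) (.mul (.g 18) (.pp [(1,
 1062873000000)]))))) (.add (.mul (.g 9) (.add (.mul (.g 9) (.pp [(1, 574989000000)])) (.add (.mul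
 (.g 11) (.pp [(1, 794139000000)])) (.mul (.g 18) (.pp [(1, 632271000000)]))))) (.mul (.g 10) (.add
 (.mul (.g 10) (.pp [(1, 73356000000)])) (.mul (.g 15) (.pp [(1, 5394150000)])))))) (.add (.add
 (.mul (.g 4) (.mul (.g 12) (.pp [(1, 1661424000000)]))) (.mul (.g 5) (.mul (.g 18) (.pp [(1,
 1973100000)])))) (.add (.mul (.g 11) (.mul (.g 11) (.pp [(1, 30000000)]))) (.mul (.g 19) (.mul (.g
 19) (.pp [(1, 361671000000)]))))))) (.mul (.g 4) (.add (.add (.pp [(1, 365766000000)]) (.mul (.pp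
 [(1, 12919200)]) (.sq [(1, -31), (2, 1), (3, 88), (5, -3), (7, 100)]))) (.add (.mul (.g 6) (.mul
 (.g 10) (.pp [(1, 1545030000)]))) (.mul (.g 7) (.mul (.g 7) (.pp [(1, 70305000)]))))))) (.add
 (.mul (.g 19) (.add (.mul (.pp [(1, 17377800)]) (.sq [(1, -100), (2, 63), (3, 63), (5, 84), (7,
 84)])) (.mul (.g 10) (.add (.mul (.g 6) (.pp [(1, 1655250000)])) (.mul (.g 18) (.pp [(1,
 38166000000)])))))) (.mul (.g 5) (.mul (.g 7) (.mul (.g 7) (.pp [(1, 2801550)])))))) (.add (.add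
 (.mul (.g 9) (.mul (.pp [(1, 644700)]) (.sq [(1, -6), (2, -74), (3, -27), (5, 82), (7, 100)])))
 (.mul (.g 12) (.mul (.pp [(1, 17794800)]) (.sq [(1, 11), (2, 27), (3, 15), (5, -48), (7, 100)]))))
 (.add (.mul (.g 13) (.mul (.pp [(1, 1229700)]) (.sq [(1, 50), (2, -41), (3, -100), (5, 89), (7,
 65)]))) (.add (.mul (.g 14) (.mul (.pp [(1, 15582900)]) (.sq [(1, 90), (2, -100), (3, 89), (5,
 -76), (7, 55)]))) (.mul (.g 15) (.mul (.pp [(1, 87930)]) (.sq [(1, -2), (2, 68), (3, -1), (5,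
 -39), (7, 100)])))))))) (.add (.mul (.g 19) (.add (.add (.add (.mul (.g 4) (.add (.add (.pp [(1,
 86250000000)]) (.mul (.pp [(1, 7977000)]) (.sq [(1, 43), (2, 16), (3, 5), (5, -84), (7, 100)])))
 (.add (.mul (.pp [(1, 10404300)]) (.sq [(1, 18), (2, 100), (3, 17), (5, 26), (7, 3)])) (.mul (.g
 11) (.add (.mul (.g 3) (.pp [(1, 539802000000)])) (.mul (.g 19) (.pp [(1, 364656000000)])))))))
 (.mul (.g 5) (.add (.add (.pp [(1, 18920460000)]) (.mul (.g 9) (.add (.mul (.g 10) (.pp [(1,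
 781080000)])) (.mul (.g 12) (.pp [(1, 2819700000)]))))) (.add (.mul (.g 8) (.pp [(1,
 19186140000)])) (.mul (.g 11) (.mul (.g 15) (.pp [(1, 10086000)]))))))) (.add (.mul (.g 7) (.add
 (.mul (.g 7) (.add (.mul (.g 12) (.pp [(1, 674077500)])) (.mul (.g 13) (.pp [(1, 235672500)]))))
 (.mul (.g 8) (.mul (.g 9) (.pp [(1, 52668150000)]))))) (.mul (.g 9) (.mul (.g 9) (.add (.mul (.g
 9) (.pp [(1, 142542000000)])) (.mul (.g 11) (.pp [(1, 292389000000)]))))))) (.add (.add (.mul (.g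
 11) (.mul (.pp [(1, 6312000)]) (.sq [(1, 73), (2, 58), (3, 17), (5, 44), (7, -100)]))) (.mul (.g
 13) (.mul (.pp [(1, 85200)]) (.sq [(1, -83), (2, 100), (3, 100), (5, 100), (7, 100)])))) (.add
 (.mul (.g 15) (.pp [(1, 1788450000)])) (.mul (.g 19) (.mul (.pp [(1, 12200400)]) (.sq [(2, 14),
 (3, 99), (7, -100)]))))))) (.mul (.g 4) (.add (.add (.mul (.pp [(1, 24336000)]) (.sq [(1, -32),
 (2, -87), (3, 10), (5, -6), (7, 100)])) (.add (.mul (.g 4) (.add (.add (.pp [(1, 155259000000)])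
 (.mul (.g 8) (.mul (.g 12) (.pp [(1, 165627000000)])))) (.add (.mul (.g 9) (.pp [(1,
 910077000000)])) (.mul (.g 14) (.pp [(1, 14535000000)]))))) (.mul (.g 7) (.add (.mul (.pp [(1,
 140160)]) (.sq [(1, -55), (2, -39), (3, -41), (5, -4), (7, 100)])) (.mul (.g 5) (.pp [(1,
 211098000)])))))) (.add (.add (.mul (.g 15) (.add (.mul (.pp [(1, 553440)]) (.sq [(1, -27), (2,
 100), (3, -73), (5, 44), (7, -37)])) (.mul (.pp [(1, 116565)]) (.sq [(1, 36), (2, -28), (3, 47),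
 (5, -99), (7, -100)])))) (.mul (.g 3) (.mul (.pp [(1, 6712800)]) (.sq [(1, 16), (2, -47), (3,
 -13), (5, 50), (7, -11)])))) (.add (.mul (.g 6) (.mul (.g 11) (.mul (.g 12) (.pp [(1,
 267810000)])))) (.mul (.g 13) (.mul (.pp [(1, 59097300)]) (.sq [(1, 100), (2, -68), (3, 42), (7,
 -57)]))))))))) (.add (.mul (.g 5) (.add (.add (.mul (.g 5) (.mul (.g 11) (.add (.mul (.g 6) (.pp
 [(1, 861096)])) (.mul (.g 12) (.pp [(1, 201001200)]))))) (.mul (.g 3) (.mul (.g 3) (.mul (.g 12)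
 (.pp [(1, 1027440000)]))))) (.add (.mul (.g 10) (.mul (.pp [(1, 250398)]) (.sq [(1, -25), (2,
 100), (3, 75), (5, -60), (7, -24)]))) (.mul (.g 13) (.mul (.pp [(1, 537798)]) (.sq [(1, 1), (2,
 2), (3, -53), (5, -23), (7, 100)])))))) (.add (.mul (.g 13) (.add (.mul (.g 15) (.add (.mul (.pp
 [(1, 41850)]) (.sq [(1, -99), (2, 65), (3, -31), (5, 100), (7, -21)])) (.mul (.g 11) (.mul (.g 11)
 (.pp [(1, 1808250000)]))))) (.mul (.g 13) (.mul (.pp [(1, 5185500)]) (.sq [(1, -16), (2, -20), (3,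
 100), (5, -38), (7, 83)]))))) (.mul (.g 7) (.add (.mul (.g 3) (.mul (.g 3) (.mul (.g 12) (.pp [(1,
 3929250000)])))) (.mul (.g 10) (.mul (.pp [(1, 38790)]) (.sq [(1, -23), (2, 68), (3, 100), (5,
 -58), (7, -7)])))))))) (.add (.add (.mul (.g 0) (.pp [(1, 600000000)])) (.add (.mul (.g 1) (.pp
 [(1, 1000000000000)])) (.mul (.g 2) (.pp [(1, 1000000000000)])))) (.add (.add (.mul (.g 6) (.mul
 (.g 15) (.mul (.pp [(1, 20493)]) (.sq [(1, -8), (2, 18), (3, 10), (5, -31), (7, 50)])))) (.mul (.g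
 8) (.mul (.g 8) (.mul (.pp [(1, 6635700)]) (.sq [(1, -44), (2, 100), (3, 41), (5, -4), (7,
 -36)]))))) (.add (.mul (.g 11) (.mul (.g 12) (.mul (.pp [(1, 24847800)]) (.sq [(1, -38), (2, -63),
 (3, -9), (5, -19), (7, 100)])))) (.mul (.g 17) (.pp [(1, 1000000000000)])))))) (.pp [(1,
 642229758), (2, 26739936), (3, 23480958), (4, 29016510), (5, 26366316), (6, 36765948), (7,
 24626394), (8, 28345254), (9, 34796970), (10, 39534060), (12, 33278394), (14, 40101120), (15,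
 40308120), (16, 31857000), (18, 25660581), (20, 32593914), (21, 34430340), (24, 28913700), (25,
 33853233), (27, 29830141), (28, 31196520), (30, 15490902), (35, 43837860), (36, 32139900), (40,
 28172400), (42, 21188040), (45, 23909868), (49, 32344350), (50, 21467271), (54, 27158400), (56,
 27563100), (60, 34787700), (63, 34202610), (70, 17945940), (75, 25654623), (81, 30136800), (84,
 36618900), (90, 32102400), (98, 28770690), (100, 31837500), (105, 18349800), (125, 27571926),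
 (126, 24611100), (135, 32634900), (140, 24919500), (147, 33590010), (150, 28491000), (175,
 19899090), (189, 30126000), (196, 33927600), (210, 39914400), (225, 30313500), (245, 20810196),
 (250, 31723500), (294, 25897200), (315, 32639100), (343, 31239300), (350, 34907100), (375,
 34038900), (441, 25728000), (490, 32100000), (525, 28693500), (625, 30138000), (686, 27210000),
 (735, 35038200), (875, 34216500), (1029, 26790000), (1225, 32340900), (1715, 31033200), (2401,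
 30000000)])))))))
 (.split [(2, 1), (5, -1)]
 (.rule 1 (.rule 2 (.rule 7 (.leaf 600000000 (.add (.add (.add (.add (.mul (.g 11) (.add (.add
 (.add (.mul (.g 11) (.add (.add (.mul (.g 11) (.add (.mul (.g 12) (.pp [(1, 431268000000)])) (.add
 (.mul (.g 15) (.pp [(1, 37495500000)])) (.mul (.g 16) (.pp [(1, 722850000000)]))))) (.mul (.g 6)
 (.add (.mul (.g 9) (.pp [(1, 878040000)])) (.mul (.g 19) (.pp [(1, 10023900000)]))))) (.add (.mul
 (.g 7) (.add (.mul (.g 3) (.pp [(1, 90797700000)])) (.mul (.g 10) (.pp [(1, 36970500000)]))))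
 (.add (.mul (.g 4) (.mul (.g 4) (.pp [(1, 698406000000)]))) (.mul (.g 12) (.mul (.g 18) (.pp [(1,
 2100888000000)]))))))) (.mul (.g 18) (.add (.add (.pp [(1, 192792000000)]) (.mul (.pp [(1,
 19770600)]) (.sq [(1, 100), (2, 45), (3, 85), (5, 85), (7, 69)]))) (.add (.mul (.g 18) (.add (.add
 (.pp [(1, 949482000000)]) (.mul (.g 6) (.pp [(1, 1503780000)]))) (.add (.mul (.g 13) (.pp [(1,
 37668000000)])) (.mul (.g 19) (.pp [(1, 809412000000)]))))) (.mul (.g 7) (.mul (.g 12) (.pp [(1,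
 120599100000)]))))))) (.add (.mul (.g 10) (.add (.mul (.g 10) (.add (.mul (.g 9) (.pp [(1,
 1715796000000)])) (.mul (.g 16) (.pp [(1, 725640000000)])))) (.add (.mul (.g 4) (.mul (.g 19) (.pp
 [(1, 722982000000)]))) (.mul (.g 8) (.mul (.g 8) (.pp [(1, 592716000000)])))))) (.mul (.g 15)
 (.add (.pp [(1, 120551400000)]) (.add (.mul (.pp [(1, 3312990)]) (.sq [(1, -11), (2, -33), (3,
 -100), (5, 40), (7, -63)])) (.mul (.g 9) (.mul (.g 19) (.pp [(1, 5034900000)])))))))) (.add (.add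
 (.mul (.g 3) (.pp [(1, 3496404000000)])) (.mul (.g 7) (.pp [(1, 2671800000)]))) (.add (.mul (.g 8)
 (.mul (.g 12) (.mul (.g 12) (.pp [(1, 1137684000000)])))) (.mul (.g 19) (.mul (.pp [(1,
 50334000)]) (.sq [(1, -25), (2, 3), (3, 100), (5, 89), (7, -51)]))))))) (.add (.mul (.g 3) (.add
 (.add (.mul (.g 3) (.add (.mul (.g 10) (.pp [(1, 1134504000000)])) (.add (.mul (.g 12) (.mul (.g
 12) (.pp [(1, 23340000000)]))) (.mul (.g 15) (.mul (.g 19) (.pp [(1, 3336900000)])))))) (.add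
 (.mul (.g 5) (.add (.pp [(1, 87559800000)]) (.mul (.g 5) (.mul (.g 12) (.pp [(1, 1099200)])))))
 (.mul (.g 8) (.add (.pp [(1, 60504000000)]) (.mul (.g 14) (.pp [(1, 1082850000000)])))))) (.add
 (.mul (.g 10) (.add (.pp [(1, 1034406000000)]) (.mul (.g 13) (.pp [(1, 534288000000)])))) (.add
 (.mul (.g 9) (.pp [(1, 117270000000)])) (.mul (.g 16) (.mul (.pp [(1, 5573400)]) (.sq [(1, 37),
 (2, -69), (3, -100), (5, 90), (7, 62)]))))))) (.mul (.g 15) (.add (.add (.mul (.g 4) (.add (.pp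
 [(1, 91465500000)]) (.mul (.pp [(1, 2054250)]) (.sq [(1, 100), (2, -40), (3, 78), (5, -2), (7,
 -15)])))) (.add (.mul (.g 13) (.add (.mul (.pp [(1, 1031910)]) (.sq [(1, 39), (2, -35), (3, 26),
 (5, -42), (7, 100)])) (.mul (.pp [(1, 450330)]) (.sq [(1, -60), (2, -37), (3, 100), (5, -8), (7,
 -63)])))) (.mul (.g 6) (.pp [(1, 358722000)])))) (.add (.add (.mul (.g 9) (.mul (.g 9) (.mul (.g
 16) (.pp [(1, 9735900000)])))) (.mul (.g 10) (.mul (.g 12) (.pp [(1, 58019400000)])))) (.add (.mul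
 (.g 15) (.mul (.pp [(1, 18282)]) (.sq [(1, -100), (2, 80), (3, 16), (5, -23), (7, 69)]))) (.mul
 (.g 19) (.mul (.pp [(1, 725490)]) (.sq [(1, 30), (2, -59), (3, 100), (5, -16), (7, -87)])))))))))
 (.add (.add (.mul (.g 18) (.add (.add (.mul (.g 4) (.mul (.g 4) (.pp [(1, 1497012000000)]))) (.add
 (.mul (.g 7) (.mul (.pp [(1, 1839570)]) (.sq [(1, 96), (2, 72), (3, 76), (5, 100), (7, 39)])))
 (.mul (.g 8) (.mul (.pp [(1, 14325000)]) (.sq [(1, 1), (2, 51), (3, 55), (5, -84), (7, 100)])))))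
 (.add (.add (.mul (.g 9) (.mul (.g 10) (.mul (.g 10) (.pp [(1, 71232000000)])))) (.mul (.g 13)
 (.mul (.pp [(1, 3142200)]) (.sq [(1, 50), (2, 100), (3, 37), (5, 88), (7, -55)])))) (.add (.mul
 (.g 18) (.mul (.pp [(1, 9406800)]) (.sq [(1, -33), (2, -66), (3, 14), (5, -3), (7, 100)]))) (.mul
 (.g 19) (.mul (.pp [(1, 27366600)]) (.sq [(1, -100), (2, 63), (3, 84), (5, 63), (7, 84)])))))))
 (.mul (.g 4) (.add (.mul (.g 7) (.add (.pp [(1, 101174700000)]) (.add (.mul (.g 9) (.pp [(1,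
 39483300000)])) (.mul (.g 12) (.mul (.g 12) (.pp [(1, 15877500000)])))))) (.add (.mul (.g 4) (.mul
 (.pp [(1, 5289600)]) (.sq [(1, 47), (2, 46), (3, 32), (5, 36), (7, -50)]))) (.mul (.g 16) (.mul
 (.pp [(1, 73276800)]) (.sq [(1, -18), (2, -24), (3, 23), (5, -40), (7, 100)]))))))) (.add (.mul
 (.g 6) (.add (.mul (.g 10) (.add (.mul (.g 8) (.mul (.g 8) (.pp [(1, 691800000)]))) (.mul (.g 10)
 (.mul (.g 10) (.pp [(1, 1929060000)]))))) (.add (.mul (.g 6) (.mul (.g 9) (.mul (.g 13) (.pp [(1,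
 23109000)])))) (.mul (.g 7) (.pp [(1, 792072000)]))))) (.mul (.g 5) (.mul (.g 9) (.mul (.g 9)
 (.add (.mul (.g 8) (.pp [(1, 3209400000)])) (.mul (.g 9) (.pp [(1, 5745120000)]))))))))) (.add
 (.add (.add (.mul (.g 10) (.mul (.g 10) (.mul (.g 10) (.add (.mul (.g 10) (.pp [(1,
 92298000000)])) (.mul (.g 12) (.pp [(1, 178062000000)])))))) (.mul (.g 0) (.pp [(1,
 1200000000)]))) (.add (.mul (.g 1) (.pp [(1, 2000000000000)])) (.mul (.g 2) (.pp [(1,
 2000000000000)])))) (.add (.add (.mul (.g 7) (.mul (.g 7) (.mul (.pp [(1, 15453)]) (.sq [(1, 47),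
 (2, 95), (3, 100), (5, 47), (7, -66)])))) (.mul (.g 12) (.mul (.g 12) (.mul (.pp [(1, 15256200)])
 (.sq [(1, 39), (2, 49), (3, 100), (5, 61), (7, -69)]))))) (.add (.mul (.g 13) (.mul (.g 13) (.mul
 (.pp [(1, 7762800)]) (.sq [(1, -65), (2, 86), (3, 48), (5, 38), (7, 100)])))) (.mul (.g 17) (.pp
 [(1, 2000000000000)])))))) (.pp [(1, 25155213033), (2, 56373960), (3, 77629050), (4, 57421545),
 (5, 71454816), (6, 55069500), (7, 72142962), (8, 49723680), (9, 35938248), (10, 51774810), (12,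
 65805240), (14, 51190560), (15, 28587672), (16, 61981800), (18, 55376040), (20, 82068750), (21,
 40780824), (24, 74016000), (25, 49180545), (27, 79733760), (28, 53403450), (30, 81885120), (35,
 46347720), (36, 50130000), (40, 66126600), (42, 81759900), (45, 91209120), (49, 43225260), (50,
 39675120), (54, 81074400), (56, 53594400), (60, 47850600), (63, 66093480), (70, 76350360), (75,
 71271480), (81, 52187400), (84, 74568000), (90, 63384000), (98, 46583940), (100, 56636400), (105,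
 75814920), (125, 72421280), (126, 60073200), (135, 39441000), (140, 68691600), (147, 87799710),
 (150, 66046800), (175, 75202320), (189, 55999200), (196, 53749200), (210, 40958400), (225,
 56002800), (245, 82167900), (250, 65486400), (294, 84264000), (315, 58170600), (343, 64493820),
 (350, 56194800), (375, 54679800), (441, 46858800), (490, 66222000), (525, 51383400), (625,
 58761600), (686, 67206600), (735, 41968200), (875, 55305000), (1029, 57623400), (1225, 53296200),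
 (1715, 52921200), (2401, 59826600)]))))))
 (.rule 1 (.rule 3 (.rule 7 (.leaf 300000000 (.add (.add (.add (.add (.mul (.pp [(1, 9312600)])
 (.sq [(1, -36), (2, 67), (3, -100), (5, 63), (7, -9)])) (.add (.mul (.pp [(1, 32067300)]) (.sq
 [(1, -26), (2, -41), (3, 100), (5, 4), (7, 14)])) (.mul (.g 18) (.add (.add (.mul (.pp [(1,
 1156200)]) (.sq [(1, 42), (2, -79), (3, 100), (5, -71)])) (.add (.mul (.pp [(1, 1316400)]) (.sq
 [(1, -31), (2, -27), (3, 100), (5, 6), (7, 3)])) (.mul (.g 11) (.add (.add (.mul (.g 8) (.add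
 (.add (.pp [(1, 1313532000000)]) (.mul (.g 4) (.pp [(1, 124302000000)]))) (.add (.mul (.g 12) (.pp
 [(1, 1572207000000)])) (.mul (.g 18) (.pp [(1, 109470000000)]))))) (.mul (.g 11) (.add (.add (.mul
 (.g 3) (.pp [(1, 12477000000)])) (.mul (.g 11) (.pp [(1, 30000000)]))) (.add (.mul (.g 12) (.pp
 [(1, 8547000000)])) (.mul (.g 14) (.pp [(1, 1554000000)])))))) (.add (.mul (.g 18) (.add (.pp [(1,
 2175000000)]) (.add (.mul (.g 9) (.pp [(1, 1101000000)])) (.mul (.g 10) (.pp [(1,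
 13569000000)]))))) (.mul (.g 19) (.add (.mul (.g 9) (.pp [(1, 10110000000)])) (.mul (.g 19) (.pp
 [(1, 4620000000)]))))))))) (.add (.add (.mul (.g 7) (.add (.mul (.pp [(1, 1275090)]) (.sq [(1,
 -21), (2, 58), (3, 100), (5, -67), (7, 15)])) (.add (.mul (.g 13) (.add (.pp [(1, 3894600000)])
 (.mul (.g 10) (.pp [(1, 3555600000)])))) (.mul (.g 6) (.mul (.g 6) (.pp [(1, 1607550)])))))) (.mul
 (.g 10) (.add (.mul (.pp [(1, 4710900)]) (.sq [(1, -38), (2, -45), (3, 100), (5, 19), (7, -2)]))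
 (.add (.mul (.g 4) (.mul (.g 4) (.pp [(1, 194568000000)]))) (.mul (.g 6) (.mul (.g 13) (.pp [(1,
 91710000)]))))))) (.add (.mul (.g 5) (.mul (.g 5) (.add (.mul (.g 6) (.pp [(1, 324)])) (.mul (.g
 19) (.pp [(1, 4365600)]))))) (.mul (.g 13) (.mul (.pp [(1, 502800)]) (.sq [(1, 31), (2, 22), (3,
 -38), (5, 100), (7, 30)]))))))))) (.add (.add (.mul (.g 4) (.add (.add (.mul (.g 10) (.add (.mul
 (.g 4) (.add (.add (.mul (.g 9) (.pp [(1, 313527000000)])) (.mul (.g 10) (.pp [(1,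
 32193000000)]))) (.add (.mul (.g 13) (.pp [(1, 24294000000)])) (.mul (.g 16) (.pp [(1,
 26001000000)]))))) (.mul (.g 5) (.add (.mul (.g 6) (.pp [(1, 17476200)])) (.add (.mul (.g 11) (.pp
 [(1, 3886440000)])) (.mul (.g 19) (.pp [(1, 2695080000)]))))))) (.mul (.g 11) (.add (.mul (.g 7)
 (.add (.pp [(1, 66871050000)]) (.mul (.g 12) (.pp [(1, 2461500000)])))) (.add (.mul (.g 4) (.mul
 (.g 8) (.pp [(1, 649998000000)]))) (.mul (.g 11) (.mul (.g 19) (.pp [(1, 26022000000)])))))))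
 (.add (.mul (.g 5) (.add (.mul (.g 5) (.add (.pp [(1, 167198400)]) (.mul (.g 6) (.pp [(1,
 3267324)])))) (.mul (.g 3) (.mul (.g 9) (.pp [(1, 4549140000)]))))) (.add (.mul (.g 3) (.mul (.g
 4) (.mul (.g 9) (.pp [(1, 40032000000)])))) (.mul (.g 7) (.mul (.g 12) (.mul (.g 12) (.pp [(1,
 3923700000)])))))))) (.mul (.g 7) (.add (.add (.mul (.g 5) (.add (.mul (.pp [(1, 42492)]) (.sq
 [(1, 20), (2, 4), (3, 50), (5, -39), (7, -20)])) (.mul (.g 19) (.add (.pp [(1, 1331421000)]) (.mul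
 (.g 11) (.pp [(1, 929409000)])))))) (.mul (.g 10) (.add (.mul (.pp [(1, 17940)]) (.sq [(1, 4), (2,
 -51), (3, -23), (5, -1), (7, 100)])) (.add (.mul (.g 6) (.mul (.g 6) (.pp [(1, 139845)]))) (.mul
 (.g 10) (.mul (.g 13) (.pp [(1, 800850000)]))))))) (.add (.mul (.g 7) (.add (.mul (.g 7) (.mul (.g
 19) (.pp [(1, 5578125)]))) (.mul (.g 11) (.mul (.g 11) (.pp [(1, 1077277500)]))))) (.mul (.g 13)
 (.add (.pp [(1, 26542350000)]) (.mul (.pp [(1, 358140)]) (.sq [(1, -48), (2, -83), (3, -85), (5,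
 -50), (7, 100)])))))))) (.add (.mul (.g 5) (.add (.mul (.g 5) (.add (.mul (.g 19) (.add (.pp [(1,
 202611600)]) (.add (.mul (.g 9) (.pp [(1, 56912400)])) (.mul (.g 19) (.pp [(1, 17497200)])))))
 (.mul (.g 6) (.mul (.g 6) (.pp [(1, 32196)]))))) (.mul (.g 9) (.mul (.g 19) (.mul (.g 19) (.pp
 [(1, 1747740000)])))))) (.mul (.g 10) (.add (.add (.mul (.pp [(1, 4104600)]) (.sq [(1, -43), (2,
 68), (3, -100), (5, 73), (7, -11)])) (.mul (.pp [(1, 367500)]) (.sq [(1, -60), (2, -1), (3, -87),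
 (5, 100), (7, 47)]))) (.add (.mul (.g 10) (.add (.mul (.pp [(1, 2624400)]) (.sq [(1, -49), (2,
 69), (3, -100), (5, 83), (7, -16)])) (.mul (.g 10) (.mul (.g 13) (.pp [(1, 12960000000)])))))
 (.mul (.g 13) (.mul (.pp [(1, 2952600)]) (.sq [(1, -14), (2, -56), (3, 100), (5, -43), (7,
 -22)]))))))))) (.add (.add (.add (.mul (.g 13) (.add (.mul (.g 8) (.mul (.g 8) (.pp [(1,
 290196000000)]))) (.add (.mul (.g 13) (.mul (.g 15) (.pp [(1, 940800000)]))) (.mul (.g 16) (.mul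
 (.pp [(1, 3537900)]) (.sq [(1, 2), (2, 37), (3, -56), (5, 100), (7, 2)])))))) (.mul (.g 11) (.add
 (.mul (.g 3) (.mul (.g 15) (.mul (.g 15) (.pp [(1, 19080000)])))) (.mul (.g 12) (.mul (.pp [(1,
 1287600)]) (.sq [(1, 40), (2, 49), (3, 100), (5, -41), (7, -71)])))))) (.add (.mul (.g 0) (.pp
 [(1, 600000000)])) (.mul (.g 1) (.pp [(1, 1000000000000)])))) (.add (.add (.mul (.g 2) (.pp [(1,
 1000000000000)])) (.mul (.g 12) (.mul (.pp [(1, 48610800)]) (.sq [(1, -15), (2, -15), (3, 50), (5,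
 4), (7, 7)])))) (.add (.mul (.g 17) (.pp [(1, 1000000000000)])) (.mul (.g 19) (.mul (.g 19) (.mul
 (.pp [(1, 369900)]) (.sq [(1, 13), (2, 17), (3, 100), (5, -29), (7, -73)])))))))) (.pp [(1,
 851997537), (2, 30498144), (3, 30059400), (4, 32271336), (5, 28983900), (6, 25186320), (7,
 29926104), (8, 30623440), (9, 29664300), (10, 29547408), (12, 25549380), (14, 32480280), (15,
 25550580), (16, 29470800), (18, 32739300), (20, 27913020), (21, 31437900), (24, 30344700), (25,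
 32249766), (27, 30920100), (28, 30761040), (30, 34644720), (35, 30766800), (36, 30478500), (40,
 31696800), (42, 25474200), (45, 35911260), (49, 31115550), (50, 32506560), (54, 29866800), (56,
 29418000), (60, 28403400), (63, 26301600), (70, 25750080), (75, 30868230), (81, 29102400), (84,
 32600400), (90, 31884000), (98, 26814000), (100, 29604900), (105, 31604700), (125, 29288640),
 (126, 32346000), (135, 25862400), (140, 29044500), (147, 26633550), (150, 31146000), (175,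
 29064990), (189, 30830400), (196, 29707200), (210, 34546800), (225, 26820000), (245, 29262600),
 (250, 28849200), (294, 31176600), (315, 27350400), (343, 28680750), (350, 31491000), (375,
 31092300), (441, 31712400), (490, 27796800), (525, 29050800), (625, 28779900), (686, 33216600),
 (735, 31454400), (875, 31203900), (1029, 30480000), (1225, 31186500), (1715, 28323600), (2401,
 30000000)]))))))))
 (.rule 5 (.cut 450 [(2, -1), (5, 1)] (.add (.mul (.g 10) (.pp [(1, 310)])) (.add (.mul (.g 11)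
 (.pp [(1, 7)])) (.mul (.g 1) (.pp [(1, 9)])))) (.rule 3 (.leaf 300000000 (.add (.add (.add (.add
 (.mul (.g 16) (.add (.add (.add (.mul (.g 9) (.add (.add (.mul (.pp [(1, 572400)]) (.sq [(1, -16),
 (2, -7), (3, -3), (5, -15), (7, 100)])) (.add (.mul (.g 8) (.add (.mul (.g 7) (.pp [(1,
 59799000000)])) (.add (.mul (.g 13) (.pp [(1, 922200000)])) (.mul (.g 16) (.pp [(1,
 4557000000)]))))) (.mul (.g 6) (.add (.pp [(1, 792969000000)]) (.mul (.g 17) (.pp [(1,
 80514000000)])))))) (.add (.add (.mul (.g 9) (.add (.mul (.g 10) (.pp [(1, 94437000000)])) (.mul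
 (.g 16) (.pp [(1, 4974000000)])))) (.mul (.g 5) (.mul (.g 10) (.pp [(1, 105989400000)])))) (.add
 (.mul (.g 11) (.mul (.g 17) (.pp [(1, 2019000000)]))) (.mul (.g 16) (.pp [(1, 107421000000)]))))))
 (.mul (.g 6) (.add (.mul (.g 6) (.add (.add (.pp [(1, 257193000000)]) (.mul (.g 7) (.pp [(1,
 1581990000000)]))) (.add (.mul (.g 10) (.pp [(1, 428541000000)])) (.mul (.g 12) (.pp [(1,
 3108000000)]))))) (.mul (.g 3) (.mul (.g 8) (.pp [(1, 40342440000)])))))) (.add (.mul (.g 11)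
 (.add (.pp [(1, 20880000000)]) (.add (.mul (.pp [(1, 404100)]) (.sq [(1, -53), (2, -21), (3, 14),
 (5, 100), (7, -5)])) (.mul (.g 5) (.pp [(1, 15631350000)]))))) (.mul (.g 16) (.add (.mul (.pp [(1,
 200100)]) (.sq [(1, -100), (2, 51), (3, 48), (5, 48), (7, 60)])) (.mul (.g 8) (.add (.mul (.g 3)
 (.pp [(1, 265680000)])) (.mul (.g 4) (.pp [(1, 24210000)])))))))) (.add (.add (.mul (.g 3) (.pp
 [(1, 481320000)])) (.mul (.g 4) (.mul (.pp [(1, 33915)]) (.sq [(1, 10), (2, 100), (3, 44), (5,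
 13), (7, -78)])))) (.add (.mul (.g 5) (.pp [(1, 7003050000)])) (.add (.mul (.g 7) (.mul (.pp [(1,
 975300)]) (.sq [(1, 90), (2, 100), (3, 71), (5, 71), (7, 71)]))) (.mul (.g 17) (.mul (.pp [(1,
 3341400)]) (.sq [(1, 29), (2, -66), (3, 100), (5, -20), (7, 68)])))))))) (.mul (.g 7) (.add (.add
 (.mul (.g 9) (.add (.add (.pp [(1, 26280000000)]) (.mul (.g 7) (.add (.pp [(1, 19605000000)])
 (.add (.mul (.g 6) (.pp [(1, 38937000000)])) (.mul (.g 7) (.pp [(1, 28797000000)])))))) (.add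
 (.mul (.g 11) (.add (.mul (.g 8) (.pp [(1, 1803000000)])) (.mul (.g 17) (.pp [(1,
 51558000000)])))) (.add (.mul (.g 5) (.mul (.g 10) (.pp [(1, 26463000000)]))) (.mul (.g 6) (.mul
 (.g 17) (.pp [(1, 1992711000000)]))))))) (.mul (.g 6) (.add (.add (.mul (.g 6) (.add (.mul (.g 7)
 (.pp [(1, 1560858000000)])) (.mul (.g 17) (.pp [(1, 23325000000)])))) (.mul (.g 3) (.mul (.g 8)
 (.pp [(1, 38895420000)])))) (.add (.mul (.g 5) (.mul (.g 10) (.pp [(1, 6687300000)]))) (.mul (.g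
 11) (.pp [(1, 453477000000)])))))) (.add (.mul (.g 3) (.add (.pp [(1, 1609980000)]) (.add (.mul
 (.g 3) (.mul (.g 8) (.pp [(1, 5359200)]))) (.mul (.g 7) (.mul (.g 7) (.pp [(1, 62400000)]))))))
 (.add (.mul (.g 7) (.mul (.g 7) (.add (.mul (.g 10) (.pp [(1, 17349000000)])) (.mul (.g 17) (.pp
 [(1, 35625000000)]))))) (.mul (.g 17) (.mul (.pp [(1, 1094400)]) (.sq [(1, 23), (2, 32), (3, 50),
 (5, -32)])))))))) (.add (.mul (.g 5) (.add (.add (.mul (.g 10) (.add (.mul (.g 10) (.add (.mul (.g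
 9) (.pp [(1, 1192650000)])) (.mul (.g 10) (.pp [(1, 911700000)])))) (.add (.mul (.g 5) (.mul (.g
 8) (.pp [(1, 23970000)]))) (.mul (.g 11) (.mul (.g 17) (.pp [(1, 107550000)])))))) (.mul (.g 3)
 (.add (.pp [(1, 14217000)]) (.mul (.g 12) (.pp [(1, 328911000)]))))) (.add (.mul (.g 5) (.mul (.g
 5) (.mul (.g 9) (.pp [(1, 830625)])))) (.mul (.g 17) (.pp [(1, 5641650000)]))))) (.add (.mul (.g
 13) (.add (.mul (.g 6) (.add (.mul (.g 6) (.add (.mul (.g 6) (.pp [(1, 544800000)])) (.mul (.g 8)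
 (.pp [(1, 26250000)])))) (.add (.mul (.g 3) (.pp [(1, 526815000)])) (.mul (.g 9) (.mul (.g 17)
 (.pp [(1, 1857150000)])))))) (.mul (.g 17) (.add (.pp [(1, 328350000)]) (.add (.mul (.g 8) (.mul
 (.g 8) (.pp [(1, 13950000)]))) (.mul (.g 9) (.mul (.g 17) (.pp [(1, 270750000)])))))))) (.mul (.g
 8) (.add (.mul (.g 17) (.mul (.g 17) (.add (.mul (.g 10) (.pp [(1, 687000000)])) (.mul (.g 17)
 (.pp [(1, 3069000000)]))))) (.add (.mul (.g 8) (.mul (.pp [(1, 314400)]) (.sq [(1, -71), (2, -14),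
 (3, -35), (5, 100), (7, -5)]))) (.mul (.g 12) (.mul (.pp [(1, 881700)]) (.sq [(1, 6), (2, -58),
 (3, 100), (5, -14), (7, 9)]))))))))) (.add (.add (.mul (.g 9) (.add (.mul (.g 9) (.add (.mul (.g
 3) (.mul (.g 10) (.pp [(1, 386820000)]))) (.mul (.g 9) (.mul (.g 11) (.pp [(1, 1743000000)])))))
 (.mul (.g 11) (.mul (.pp [(1, 2160300)]) (.sq [(1, 40), (2, -100), (3, 19), (5, 69), (7,
 -99)]))))) (.add (.mul (.g 0) (.pp [(1, 1000000000000)])) (.mul (.g 2) (.pp [(1,
 1000000000000)])))) (.add (.mul (.g 3) (.mul (.g 6) (.mul (.g 6) (.mul (.g 6) (.pp [(1,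
 6159420000)]))))) (.add (.mul (.g 4) (.mul (.g 11) (.mul (.pp [(1, 1086)]) (.sq [(1, -100), (2,
 79), (3, 91), (5, 67), (7, 67)])))) (.mul (.g 15) (.pp [(1, 1000000000000)])))))) (.pp [(1,
 1171141200), (2, 25440900), (3, 33598500), (4, 31800906), (5, 32605800), (6, 28282248), (7,
 35975625), (8, 27688806), (9, 33096486), (10, 36239076), (12, 35151242), (14, 23889876), (15,
 29675964), (16, 30000000), (18, 33414398), (19, 3000000000000), (20, 29315070), (21, 21142344),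
 (24, 27980700), (25, 30416859), (27, 24449514), (28, 35783376), (30, 31315980), (35, 24526128),
 (36, 25399200), (40, 32038800), (42, 36792528), (45, 27881490), (49, 24438234), (50, 26908998),
 (54, 28050600), (56, 28208100), (60, 27207300), (63, 29252016), (70, 32380872), (75, 27908337),
 (81, 30992700), (84, 25949100), (90, 33439200), (98, 33637974), (100, 30219600), (105, 35700708),
 (125, 27994326), (126, 24769500), (135, 33769200), (140, 29078700), (147, 32598126), (150,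
 32425800), (175, 30817167), (189, 29259000), (196, 30508500), (210, 25760400), (225, 28179600),
 (245, 34415046), (250, 29252400), (294, 29588700), (315, 29639700), (343, 32257140), (350,
 31886100), (375, 31347000), (441, 27918600), (490, 26336100), (525, 28453500), (625, 31186800),
 (686, 31030200), (735, 27947400), (875, 29216700), (1029, 27863100), (1225, 30171300), (1715,
 28588200), (2401, 29640000)])))))))))
 (P_Op0 ++ xP_G_F3) = true := by decide +kernel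

theorem t_G_F5a_Op1 : chk ROp gP_G_F5a
 (.cut 1 [(2, -1), (3, 1)] (.add (.mul (.g 8) (.pp [(1, 1)])) (.mul (.g 4) (.pp [(1, 1)]))) (.rule
 1 (.cut 1 [(2, 1), (5, -1)] (.add (.mul (.g 10) (.pp [(1, 1)])) (.mul (.g 7) (.pp [(1, 1)])))
 (.rule 2 (.cut 11 [(1, -69), (3, 100)] (.add (.mul (.g 1) (.pp [(1, 620)])) (.add (.mul (.g 11)
 (.pp [(1, 31)])) (.mul (.g 12) (.pp [(1, 480)])))) (.cut 1 [(1, 3), (3, -2)] (.add (.add (.mul (.g
 10) (.pp [(1, 1)])) (.mul (.g 15) (.pp [(1, 1)]))) (.add (.mul (.g 7) (.pp [(1, 1)])) (.mul (.g 9)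
 (.pp [(1, 1)])))) (.rule 8 (.rule 15 (.leaf 660000000 (.add (.add (.add (.add (.mul (.g 9) (.add
 (.add (.mul (.g 12) (.add (.add (.pp [(1, 76375200000)]) (.mul (.g 8) (.add (.mul (.g 9) (.pp [(1,
 724653600000)])) (.mul (.g 12) (.pp [(1, 892663200000)]))))) (.add (.mul (.g 9) (.mul (.g 9) (.pp
 [(1, 942301800000)]))) (.mul (.g 14) (.mul (.g 14) (.pp [(1, 530560800000)])))))) (.mul (.g 16)
 (.add (.mul (.pp [(1, 335217300)]) (.sq [(2, 100), (3, 27), (5, 3)])) (.add (.mul (.g 9) (.mul (.g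
 10) (.pp [(1, 1444865400000)]))) (.mul (.g 15) (.mul (.g 19) (.pp [(1, 106359990000)]))))))) (.add
 (.mul (.g 18) (.add (.pp [(1, 4768368000000)]) (.mul (.g 8) (.mul (.g 8) (.pp [(1,
 2719642200000)]))))) (.add (.mul (.g 19) (.add (.pp [(1, 547430400000)]) (.mul (.g 9) (.mul (.g
 10) (.pp [(1, 880710600000)]))))) (.mul (.g 15) (.mul (.g 15) (.pp [(1, 967065000)]))))))) (.add
 (.mul (.g 8) (.add (.add (.mul (.g 8) (.add (.mul (.g 8) (.add (.mul (.g 18) (.pp [(1,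
 2874775200000)])) (.mul (.g 19) (.pp [(1, 891158400000)])))) (.add (.mul (.g 12) (.mul (.g 12)
 (.pp [(1, 1310265000000)]))) (.mul (.g 13) (.mul (.g 14) (.pp [(1, 1363711800000)])))))) (.mul (.g
 12) (.mul (.g 12) (.add (.pp [(1, 146216400000)]) (.mul (.g 19) (.pp [(1, 1113235200000)]))))))
 (.add (.mul (.g 10) (.mul (.g 19) (.mul (.g 19) (.pp [(1, 691251000000)])))) (.add (.mul (.g 13)
 (.mul (.g 14) (.pp [(1, 574787400000)]))) (.mul (.g 16) (.pp [(1, 6235726200000)])))))) (.mul (.g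
 10) (.add (.add (.mul (.g 19) (.add (.pp [(1, 293389800000)]) (.mul (.g 16) (.add (.mul (.g 14)
 (.pp [(1, 2176752600000)])) (.mul (.g 19) (.pp [(1, 880235400000)])))))) (.mul (.g 12) (.mul (.g
 14) (.mul (.g 14) (.pp [(1, 509553000000)]))))) (.add (.mul (.g 13) (.pp [(1, 1151106000000)]))
 (.mul (.g 18) (.pp [(1, 4403064600000)]))))))) (.add (.mul (.g 16) (.add (.pp [(1, 794712600000)])
 (.add (.mul (.pp [(1, 2016458400000)]) (.sq [(2, -1), (3, 1), (5, 1)])) (.mul (.g 16) (.mul (.pp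
 [(1, 2392500)]) (.sq [(1, 42), (2, 51), (3, 35), (5, 100)])))))) (.add (.mul (.g 13) (.mul (.g 13)
 (.add (.mul (.pp [(1, 184681200)]) (.sq [(1, 50), (2, -17), (3, 17), (5, 17)])) (.mul (.g 14) (.pp
 [(1, 259373400000)]))))) (.mul (.g 0) (.pp [(1, 200000000000)]))))) (.add (.add (.mul (.g 1) (.pp
 [(1, 660000000)])) (.add (.mul (.g 4) (.pp [(1, 2200000000000)])) (.mul (.g 6) (.pp [(1,
 2200000000000)])))) (.add (.mul (.g 14) (.mul (.g 15) (.mul (.pp [(1, 327789)]) (.sq [(1, -12),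
 (2, -1), (3, 100), (5, 3)])))) (.add (.mul (.g 17) (.pp [(1, 2200000000000)])) (.mul (.g 19) (.mul
 (.g 19) (.mul (.pp [(1, 2415600)]) (.sq [(1, 32), (2, 100), (3, 47), (5, 66)])))))))) (.pp [(1,
 36555655600), (2, 65915456), (3, 61664744), (4, 77285956), (5, 61028944), (6, 54558064), (8,
 69417579), (9, 72905580), (10, 48907936), (12, 55585541), (15, 83789288), (16, 67377420), (18,
 71406280), (20, 52225107), (24, 64934760), (25, 72634408), (27, 63462300), (30, 84263234), (36,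
 66238920), (40, 66913440), (45, 68324960), (50, 71496645), (54, 66178200), (60, 74037480), (75,
 65592329), (81, 65109000), (90, 59504280), (100, 68372040), (125, 63873469), (135, 61162200),
 (150, 56727000), (225, 64045080), (250, 64885920), (375, 67878360), (625, 65777580)])))))))))))
 (P_Op1 ++ xP_G_F5a) = true := by decide +kernel

theorem t_G_F5b_c3 : chk ROp gP_G_F5b
 (.split [(1, -3), (3, 2)]
 (.cut 3 [(2, -1), (3, 1)] (.add (.mul (.g 0) (.pp [(1, 1)])) (.add (.mul (.g 2) (.pp [(1, 1)]))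
 (.mul (.g 5) (.pp [(1, 3)])))) (.rule 1 (.cut 3 [(2, 1), (5, -1)] (.add (.add (.mul (.g 3) (.pp
 [(1, 1)])) (.mul (.g 1) (.pp [(1, 1)]))) (.add (.mul (.g 2) (.pp [(1, 1)])) (.mul (.g 8) (.pp [(1,
 3)])))) (.rule 2 (.rule 9 (.cut 1 [(1, -2), (2, -1), (3, 2), (5, 1)] (.add (.mul (.g 10) (.pp [(1,
 1)])) (.add (.mul (.g 5) (.pp [(1, 1)])) (.mul (.g 8) (.pp [(1, 1)])))) (.cut 1 [(1, -1), (2, -2),
 (3, 2), (5, 2)] (.add (.mul (.g 11) (.pp [(1, 1)])) (.add (.mul (.g 9) (.pp [(1, 1)])) (.mul (.g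
 0) (.pp [(1, 1)])))) (.rule 10 (.leaf 180000000 (.add (.add (.add (.add (.mul (.g 11) (.add (.add
 (.mul (.pp [(1, 86877360)]) (.sq [(2, 50), (3, -16), (5, 25)])) (.add (.mul (.g 9) (.add (.add
 (.mul (.g 13) (.add (.mul (.g 8) (.pp [(1, 17316000000)])) (.add (.mul (.g 9) (.pp [(1,
 2152405800000)])) (.mul (.g 13) (.pp [(1, 2066326200000)]))))) (.mul (.g 17) (.add (.pp [(1,
 1421765100000)]) (.mul (.g 10) (.pp [(1, 17317800000)]))))) (.add (.mul (.g 8) (.mul (.g 18) (.pp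
 [(1, 8546400000)]))) (.add (.mul (.g 9) (.mul (.g 14) (.pp [(1, 5400000)]))) (.mul (.g 11) (.pp
 [(1, 275652000000)])))))) (.mul (.g 8) (.add (.pp [(1, 60364200000)]) (.mul (.g 17) (.add (.mul
 (.g 11) (.pp [(1, 259246500000)])) (.mul (.g 21) (.pp [(1, 250533900000)])))))))) (.add (.add
 (.mul (.g 15) (.add (.pp [(1, 460701000000)]) (.mul (.g 21) (.add (.mul (.g 13) (.pp [(1,
 17407800000)])) (.mul (.g 21) (.pp [(1, 233285400000)])))))) (.mul (.g 10) (.pp [(1,
 608288400000)]))) (.add (.mul (.g 11) (.mul (.g 11) (.mul (.g 14) (.pp [(1, 215841600000)]))))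
 (.mul (.g 13) (.pp [(1, 1579028400000)])))))) (.add (.mul (.g 16) (.add (.add (.mul (.g 9) (.add
 (.mul (.pp [(1, 288)]) (.sq [(1, -7), (2, 47), (3, 100), (5, -40)])) (.mul (.pp [(1, 27)]) (.sq
 [(1, 100), (2, -64), (3, 60), (5, 11)])))) (.mul (.g 10) (.add (.mul (.g 14) (.pp [(1,
 12892410000)])) (.mul (.g 17) (.pp [(1, 12827475000)]))))) (.add (.mul (.g 14) (.mul (.pp [(1,
 189)]) (.sq [(1, 100), (2, -29), (3, 58), (5, 22)]))) (.mul (.g 16) (.pp [(1, 374638500)])))))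
 (.mul (.g 8) (.add (.mul (.g 10) (.add (.pp [(1, 202142400000)]) (.mul (.g 10) (.mul (.g 13) (.pp
 [(1, 30000000)]))))) (.add (.mul (.g 8) (.pp [(1, 126824800000)])) (.mul (.g 15) (.pp [(1,
 1632660600000)]))))))) (.add (.mul (.g 13) (.add (.mul (.g 9) (.mul (.g 9) (.mul (.g 21) (.pp [(1,
 86007600000)])))) (.add (.mul (.g 10) (.pp [(1, 2888676000000)])) (.mul (.g 18) (.mul (.pp [(1,
 8280)]) (.sq [(1, -35), (2, -34), (3, 94), (5, -100)])))))) (.add (.mul (.g 17) (.mul (.g 17)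
 (.add (.pp [(1, 386673300000)]) (.mul (.g 17) (.pp [(1, 85745700000)]))))) (.mul (.g 0) (.pp [(1,
 600000000000)]))))) (.add (.add (.mul (.g 3) (.pp [(1, 1800000000)])) (.add (.mul (.g 4) (.pp [(1,
 600000000000)])) (.mul (.g 6) (.pp [(1, 600000000000)])))) (.add (.mul (.g 14) (.mul (.g 18) (.mul
 (.pp [(1, 2340)]) (.sq [(1, 35), (2, 56), (3, -48), (5, 100)])))) (.add (.mul (.g 19) (.pp [(1,
 1200000000)])) (.mul (.g 21) (.mul (.g 21) (.mul (.pp [(1, 17442000000)]) (.sq [(2, 1), (3,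
 -1)])))))))) (.pp [(1, 32701101000), (2, 17443908), (3, 18850800), (4, 16483365), (5, 20007900),
 (6, 17631096), (8, 18471057), (9, 18504704), (10, 18798804), (12, 18496395), (15, 15660852), (16,
 18114660), (18, 19402488), (20, 18270099), (24, 18220680), (25, 19726884), (27, 17002716), (30,
 18955152), (36, 17866260), (40, 18065160), (45, 19316484), (50, 18913563), (54, 17499120), (60,
 17371080), (75, 15003684), (81, 18107280), (90, 16271280), (100, 17554320), (125, 17129196), (135,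
 18005760), (150, 19979220), (225, 17974560), (250, 18236340), (375, 18105600), (625,
 18029520)])))))))))))
 (.cut 1 [(2, -1), (3, 1)] (.add (.mul (.g 10) (.pp [(1, 1)])) (.mul (.g 5) (.pp [(1, 1)]))) (.rule
 1 (.cut 1 [(2, 1), (5, -1)] (.add (.mul (.g 11) (.pp [(1, 1)])) (.mul (.g 1) (.pp [(1, 1)])))
 (.rule 2 (.cut 11 [(1, -69), (3, 100)] (.add (.mul (.g 1) (.pp [(1, 620)])) (.add (.mul (.g 12)
 (.pp [(1, 31)])) (.mul (.g 14) (.pp [(1, 480)])))) (.rule 8 (.rule 15 (.leaf 1980000000 (.add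
 (.add (.add (.add (.mul (.g 12) (.add (.add (.mul (.g 8) (.add (.add (.mul (.g 12) (.add (.mul (.g
 8) (.pp [(1, 838708200000)])) (.add (.mul (.g 12) (.pp [(1, 301593600000)])) (.mul (.g 14) (.pp
 [(1, 573427800000)]))))) (.mul (.g 8) (.mul (.g 17) (.pp [(1, 490743000000)])))) (.add (.mul (.g
 9) (.mul (.g 10) (.pp [(1, 1446409800000)]))) (.mul (.g 15) (.pp [(1, 318312720000)]))))) (.add
 (.mul (.g 9) (.add (.pp [(1, 10844479800000)]) (.mul (.g 9) (.add (.mul (.g 9) (.pp [(1,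
 79794000000)])) (.mul (.g 20) (.pp [(1, 340243200000)])))))) (.mul (.g 10) (.add (.pp [(1,
 9565736400000)]) (.mul (.g 10) (.mul (.g 16) (.pp [(1, 2269040400000)]))))))) (.add (.mul (.g 14)
 (.mul (.g 14) (.mul (.g 14) (.pp [(1, 36135000000)])))) (.add (.mul (.g 15) (.pp [(1,
 263956770000)])) (.mul (.g 17) (.pp [(1, 4464028800000)])))))) (.mul (.g 10) (.add (.add (.mul (.g
 10) (.add (.add (.mul (.g 13) (.add (.mul (.g 10) (.pp [(1, 1204137000000)])) (.add (.mul (.g 13)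
 (.pp [(1, 1897176600000)])) (.mul (.g 16) (.pp [(1, 2484563400000)]))))) (.mul (.g 7) (.mul (.g 7)
 (.pp [(1, 76780000000)])))) (.add (.mul (.g 10) (.mul (.g 16) (.pp [(1, 2788028100000)]))) (.mul
 (.g 17) (.mul (.g 17) (.pp [(1, 4709449800000)])))))) (.mul (.g 16) (.add (.mul (.g 7) (.mul (.g
 14) (.pp [(1, 70983000000)]))) (.mul (.g 13) (.pp [(1, 1651191300000)]))))) (.add (.mul (.g 9)
 (.mul (.pp [(1, 387177120)]) (.sq [(1, -49), (2, -62), (3, 100), (5, -3)]))) (.mul (.g 20) (.mul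
 (.pp [(1, 23961960)]) (.sq [(1, -36), (2, 90), (3, -73), (5, 100)]))))))) (.add (.mul (.g 15)
 (.add (.mul (.g 17) (.add (.pp [(1, 481434030000)]) (.add (.mul (.g 9) (.add (.pp [(1,
 548975790000)]) (.mul (.g 7) (.pp [(1, 4950000)])))) (.mul (.g 14) (.mul (.g 20) (.pp [(1,
 236078370000)])))))) (.add (.mul (.g 20) (.add (.pp [(1, 139545450000)]) (.mul (.pp [(1,
 5867433)]) (.sq [(1, -11), (2, 53), (3, 100), (5, -84)])))) (.mul (.g 13) (.mul (.g 16) (.pp [(1,
 191514015000)])))))) (.add (.mul (.g 9) (.add (.mul (.pp [(1, 343902240)]) (.sq [(1, 24), (2, 31),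
 (3, -50), (5, 7)])) (.mul (.g 8) (.mul (.pp [(1, 11553300)]) (.sq [(1, 60), (2, 47), (3, -100),
 (5, 22)]))))) (.mul (.g 0) (.pp [(1, 600000000000)]))))) (.add (.add (.mul (.g 1) (.pp [(1,
 1980000000)])) (.add (.mul (.g 3) (.pp [(1, 6600000000000)])) (.mul (.g 5) (.pp [(1,
 6600000000000)])))) (.add (.mul (.g 7) (.mul (.g 7) (.pp [(1, 297613800000)]))) (.add (.mul (.g
 13) (.mul (.g 20) (.mul (.pp [(1, 188131680)]) (.sq [(1, 49), (2, 65), (3, -100), (5, 68)]))))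
 (.mul (.g 18) (.pp [(1, 13200000000)])))))) (.pp [(1, 38803780857), (2, 225930678), (3,
 184821180), (4, 179076513), (5, 181719939), (6, 167451240), (8, 254237940), (9, 211959000), (10,
 190170354), (12, 174033420), (15, 223842300), (16, 178200000), (18, 213708000), (20, 176179707),
 (24, 198960300), (25, 205039956), (27, 198000000), (30, 228663600), (36, 196020000), (40,
 201162060), (45, 178811160), (50, 184610448), (54, 198000000), (60, 202528260), (75, 200589840),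
 (81, 198000000), (90, 193644000), (100, 196833780), (125, 204262608), (135, 198000000), (150,
 207115920), (225, 195716840), (250, 212303520), (375, 181906560), (625, 195956640)])))))))))))
 (P_c3 ++ xP_G_F5b) = true := by decide +kernel

theorem t_G_T2_free : chk RFp gP_G_T2
 (.split [(1, 1), (2, -20)]
 (.rule 4 (.leaf 6000 (.add (.add (.mul (.g 2) (.add (.add (.mul (.g 3) (.add (.add (.mul (.g 1)
 (.add (.add (.pp [(1, 1549362)]) (.mul (.g 2) (.pp [(1, 30)]))) (.add (.mul (.g 3) (.pp [(1,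
 568032)])) (.add (.mul (.g 4) (.pp [(1, 30)])) (.mul (.g 5) (.pp [(1, 568002)])))))) (.mul (.g 3)
 (.add (.add (.pp [(1, 25305960)]) (.mul (.g 3) (.pp [(1, 11359440)]))) (.add (.mul (.g 5) (.pp
 [(1, 21030840)])) (.mul (.g 9) (.pp [(1, 568002)])))))) (.add (.mul (.g 5) (.add (.pp [(1,
 26445960)]) (.add (.mul (.g 9) (.pp [(1, 567972)])) (.mul (.g 11) (.pp [(1, 19343400)]))))) (.add
 (.mul (.g 4) (.mul (.g 4) (.pp [(1, 600)]))) (.mul (.g 9) (.pp [(1, 2215875)])))))) (.add (.mul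
 (.g 4) (.add (.add (.mul (.g 1) (.add (.add (.pp [(1, 216153)]) (.mul (.g 2) (.pp [(1, 30)])))
 (.add (.mul (.g 4) (.pp [(1, 60)])) (.mul (.g 5) (.pp [(1, 30)]))))) (.mul (.g 11) (.add (.add
 (.pp [(1, 1972620)]) (.mul (.g 4) (.pp [(1, 600)]))) (.add (.mul (.g 5) (.pp [(1, 11360040)]))
 (.mul (.g 11) (.pp [(1, 11359440)])))))) (.add (.mul (.g 4) (.add (.pp [(1, 4320900)]) (.mul (.g
 9) (.pp [(1, 30)])))) (.mul (.g 9) (.pp [(1, 216123)]))))) (.mul (.g 5) (.add (.mul (.g 2) (.add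
 (.mul (.g 2) (.pp [(1, 2387400)])) (.mul (.g 5) (.pp [(1, 43259400)])))) (.add (.mul (.g 11) (.add
 (.pp [(1, 45457800)]) (.mul (.g 11) (.pp [(1, 9671400)])))) (.mul (.g 1) (.pp [(1,
 2445087)]))))))) (.add (.mul (.g 1) (.add (.pp [(1, 306126)]) (.mul (.g 2) (.mul (.g 2) (.pp [(1,
 166530)]))))) (.add (.mul (.g 9) (.add (.pp [(1, 108153)]) (.mul (.g 11) (.pp [(1, 666543)]))))
 (.mul (.g 2) (.mul (.g 2) (.pp [(1, 6960840)]))))))) (.add (.mul (.g 0) (.pp [(1, 20000000)]))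
 (.mul (.g 10) (.pp [(1, 20000000)])))) (.pp [(2, 503610), (4, 600), (6, 570), (8, 630), (10, 600),
 (12, 570), (14, 600), (16, 600), (18, 630), (20, 570), (24, 600), (28, 600), (30, 570), (36, 600),
 (40, 600), (42, 630), (50, 630), (54, 600), (56, 600), (60, 600), (70, 570), (84, 600), (90, 600),
 (98, 600), (100, 600), (126, 600), (140, 600), (150, 600), (196, 600), (210, 600), (250, 600),
 (294, 600), (350, 600), (490, 600), (686, 600)]))))
 (.split [(2, 1), (3, -1)]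
 (.split [(2, 1), (5, -1)]
 (.rule 0 (.rule 2 (.leaf 60000000 (.add (.add (.add (.add (.mul (.g 14) (.add (.add (.pp [(1,
 24000000)]) (.add (.mul (.g 8) (.add (.add (.pp [(1, 6600000)]) (.add (.mul (.pp [(1, 1020)]) (.sq
 [(1, 100), (2, 45), (3, 85), (5, 85), (7, 69)])) (.mul (.g 2) (.add (.add (.mul (.g 6) (.pp [(1,
 2307600000)])) (.mul (.g 7) (.pp [(1, 4747200000)]))) (.add (.mul (.g 9) (.pp [(1,
 318550800000)])) (.mul (.g 14) (.pp [(1, 8400000)]))))))) (.add (.add (.mul (.g 5) (.add (.mul (.g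
 6) (.pp [(1, 217809000000)])) (.add (.mul (.g 8) (.pp [(1, 137585400000)])) (.mul (.g 14) (.pp
 [(1, 234312000000)]))))) (.mul (.g 6) (.add (.mul (.g 10) (.pp [(1, 3779400000)])) (.mul (.g 11)
 (.pp [(1, 6077400000)]))))) (.add (.mul (.g 14) (.add (.mul (.g 11) (.pp [(1, 14400000)])) (.mul
 (.g 14) (.pp [(1, 1200000)])))) (.mul (.g 7) (.mul (.g 9) (.pp [(1, 316790400000)]))))))) (.mul
 (.g 5) (.add (.add (.pp [(1, 43069800000)]) (.mul (.g 5) (.add (.mul (.g 6) (.pp [(1,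
 3637200000)])) (.add (.mul (.g 11) (.pp [(1, 93700200000)])) (.mul (.g 12) (.pp [(1,
 3687660000)])))))) (.add (.mul (.g 3) (.add (.mul (.g 6) (.pp [(1, 140289600000)])) (.mul (.g 14)
 (.pp [(1, 103138800000)])))) (.mul (.g 7) (.add (.mul (.g 2) (.pp [(1, 5253600000)])) (.mul (.g
 14) (.pp [(1, 4895400000)]))))))))) (.add (.add (.mul (.g 2) (.add (.pp [(1, 25554000000)]) (.mul
 (.g 14) (.add (.mul (.g 6) (.pp [(1, 3126000000)])) (.mul (.g 7) (.pp [(1, 2375400000)]))))))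
 (.mul (.g 3) (.pp [(1, 11073000000)]))) (.add (.mul (.g 6) (.mul (.g 6) (.mul (.g 6) (.pp [(1,
 6258600000)])))) (.mul (.g 7) (.mul (.g 7) (.pp [(1, 1749000000)]))))))) (.mul (.g 2) (.add (.add
 (.mul (.pp [(1, 1132980)]) (.sq [(1, -2), (2, 100), (3, 13), (5, 55), (7, -20)])) (.add (.mul (.g
 5) (.add (.add (.mul (.pp [(1, 1860)]) (.sq [(1, 90), (2, 70), (3, 100), (5, 95), (7, -38)]))
 (.mul (.g 5) (.add (.mul (.g 7) (.pp [(1, 6051600000)])) (.add (.mul (.g 9) (.pp [(1,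
 18747000000)])) (.mul (.g 11) (.pp [(1, 8623200000)])))))) (.add (.mul (.g 3) (.mul (.g 9) (.pp
 [(1, 1129800000)]))) (.add (.mul (.g 7) (.mul (.g 8) (.pp [(1, 5278800000)]))) (.mul (.g 11) (.pp
 [(1, 26285400000)])))))) (.mul (.g 7) (.add (.mul (.g 8) (.add (.pp [(1, 758400000)]) (.mul (.g 8)
 (.pp [(1, 5251800000)])))) (.add (.mul (.g 2) (.pp [(1, 176298600000)])) (.mul (.g 7) (.mul (.g 7)
 (.pp [(1, 10200000)])))))))) (.add (.add (.mul (.g 2) (.add (.mul (.pp [(1, 480)]) (.sq [(1, 33),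
 (2, 100), (3, 18), (5, 96), (7, -64)])) (.mul (.g 11) (.pp [(1, 27119400000)])))) (.mul (.g 6)
 (.add (.pp [(1, 53560800000)]) (.mul (.pp [(1, 2760)]) (.sq [(1, 13), (2, 100), (3, 30), (5, 53),
 (7, -20)]))))) (.add (.mul (.g 8) (.add (.mul (.g 8) (.mul (.g 12) (.pp [(1, 143970000)]))) (.mul
 (.g 9) (.pp [(1, 42100200000)])))) (.mul (.g 11) (.pp [(1, 11493000000)]))))))) (.add (.mul (.g 9)
 (.add (.add (.mul (.g 9) (.add (.mul (.g 7) (.add (.mul (.g 8) (.pp [(1, 18367200000)])) (.mul (.g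
 9) (.pp [(1, 14656800000)])))) (.add (.mul (.g 11) (.add (.mul (.g 5) (.pp [(1, 2271000000)]))
 (.mul (.g 11) (.pp [(1, 11863200000)])))) (.mul (.g 4) (.mul (.g 9) (.pp [(1, 396030000)]))))))
 (.mul (.g 6) (.mul (.g 8) (.add (.mul (.g 3) (.pp [(1, 11115000000)])) (.add (.mul (.g 4) (.pp
 [(1, 15648900000)])) (.mul (.g 7) (.pp [(1, 8160600000)]))))))) (.add (.mul (.g 3) (.mul (.g 4)
 (.mul (.g 4) (.pp [(1, 35632500)])))) (.mul (.g 11) (.pp [(1, 10896000000)]))))) (.mul (.g 3)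
 (.add (.mul (.g 3) (.add (.mul (.pp [(1, 107160)]) (.sq [(1, -57), (2, -2), (3, -98), (5, 100),
 (7, 60)])) (.add (.mul (.pp [(1, 20403840)]) (.sq [(1, 25), (2, -19), (3, 16), (5, 8), (7, -9)]))
 (.mul (.g 6) (.pp [(1, 47620200000)]))))) (.add (.mul (.g 12) (.add (.mul (.g 8) (.mul (.g 8) (.pp
 [(1, 12390000)]))) (.mul (.g 11) (.pp [(1, 4497570000)])))) (.mul (.g 4) (.mul (.pp [(1, 77079)])
 (.sq [(1, 42), (2, 16), (3, 100), (5, -17), (7, -61)])))))))) (.add (.add (.mul (.g 6) (.add (.mul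
 (.pp [(1, 3787200)]) (.sq [(1, 5), (2, 7), (3, 100), (5, -72), (7, 31)])) (.add (.mul (.g 6) (.mul
 (.g 8) (.add (.mul (.g 6) (.pp [(1, 7787400000)])) (.mul (.g 11) (.pp [(1, 7894800000)]))))) (.mul
 (.g 12) (.add (.mul (.g 5) (.pp [(1, 10427100000)])) (.mul (.g 7) (.pp [(1, 6905490000)])))))))
 (.mul (.g 0) (.pp [(1, 200000000000)]))) (.add (.mul (.g 1) (.pp [(1, 200000000000)])) (.add (.mul
 (.g 5) (.mul (.g 7) (.mul (.g 12) (.pp [(1, 587010000)])))) (.mul (.g 13) (.pp [(1,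
 200000000000)])))))) (.pp [(1, 372030000), (2, 6312936), (3, 5985144), (4, 7299996), (5, 5731920),
 (6, 3794244), (7, 6000000), (8, 5330224), (9, 6703560), (10, 5886228), (12, 7130496), (14,
 5028804), (15, 6524292), (16, 6626640), (18, 4445340), (20, 5877984), (21, 6080796), (24,
 4578240), (25, 6421680), (27, 6746480), (28, 5444532), (30, 6187536), (35, 6698400), (36,
 7921920), (40, 6410880), (42, 6650688), (45, 6463020), (49, 6324000), (50, 4911891), (54,
 5139360), (56, 5808480), (60, 6483840), (63, 5996700), (70, 5717406), (75, 5473809), (81,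
 6052320), (84, 6156540), (90, 6247680), (98, 6624759), (100, 5797440), (105, 6815154), (125,
 6223220), (126, 6829080), (135, 5436960), (140, 6740280), (147, 5651241), (150, 5241060), (175,
 5902020), (189, 5077020), (196, 5907360), (210, 5637360), (225, 6575520), (245, 5897400), (250,
 6217860), (294, 6026460), (315, 5259960), (343, 5619780), (350, 6118320), (375, 6093960), (441,
 5847060), (490, 6021000), (525, 6224220), (625, 5776320), (686, 5734200), (735, 5007600), (875,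
 5898240), (1029, 6020820), (1225, 6003420), (1715, 5964600), (2401, 6056220)])))))
 (.rule 0 (.rule 3 (.leaf 60000000 (.add (.add (.add (.add (.mul (.g 6) (.add (.add (.add (.mul
 (.pp [(1, 786120)]) (.sq [(1, -85), (2, 5), (3, -100), (5, 74), (7, 34)])) (.mul (.g 8) (.add
 (.add (.mul (.pp [(1, 1036800)]) (.sq [(1, 59), (2, 16), (3, 100), (5, -53), (7, -68)])) (.mul (.g
 9) (.add (.mul (.g 4) (.pp [(1, 6414180000)])) (.add (.mul (.g 5) (.pp [(1, 69601800000)])) (.mul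
 (.g 7) (.pp [(1, 24063600000)])))))) (.add (.mul (.g 14) (.add (.pp [(1, 67116000000)]) (.add
 (.mul (.g 3) (.pp [(1, 72345600000)])) (.mul (.g 14) (.pp [(1, 79723200000)]))))) (.add (.mul (.g
 2) (.add (.mul (.g 5) (.pp [(1, 24088800000)])) (.mul (.g 7) (.pp [(1, 108000000)])))) (.mul (.g
 8) (.mul (.g 12) (.pp [(1, 639120000)])))))))) (.add (.mul (.g 6) (.add (.mul (.g 6) (.add (.add
 (.pp [(1, 7894800000)]) (.mul (.g 5) (.pp [(1, 19181400000)]))) (.add (.mul (.g 6) (.pp [(1,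
 64308000000)])) (.mul (.g 14) (.pp [(1, 24317400000)]))))) (.mul (.g 9) (.add (.mul (.g 9) (.pp
 [(1, 43954800000)])) (.mul (.g 12) (.pp [(1, 305970000)])))))) (.mul (.g 2) (.add (.mul (.g 2)
 (.mul (.g 2) (.pp [(1, 3639600000)]))) (.add (.mul (.g 9) (.mul (.g 9) (.pp [(1, 2341200000)])))
 (.mul (.g 14) (.pp [(1, 10440600000)]))))))) (.add (.add (.mul (.g 3) (.add (.mul (.pp [(1,
 250800)]) (.sq [(1, 2), (2, 63), (3, 94), (5, -17), (7, -100)])) (.add (.mul (.g 3) (.mul (.g 9)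
 (.pp [(1, 48843000000)]))) (.mul (.g 12) (.pp [(1, 1548300000)]))))) (.mul (.g 5) (.add (.mul (.pp
 [(1, 502320)]) (.sq [(1, -11), (2, 91), (3, 87), (5, -13), (7, -100)])) (.add (.mul (.g 4) (.mul
 (.g 14) (.pp [(1, 5441130000)]))) (.mul (.g 12) (.pp [(1, 28096020000)])))))) (.add (.mul (.g 10)
 (.mul (.pp [(1, 571800)]) (.sq [(1, -17), (2, -74), (3, -55), (5, 31), (7, 100)]))) (.add (.mul
 (.g 12) (.pp [(1, 185550000)])) (.mul (.g 14) (.mul (.g 14) (.mul (.g 14) (.pp [(1,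
 36051000000)]))))))))) (.mul (.g 8) (.add (.add (.mul (.g 14) (.add (.add (.mul (.g 9) (.add (.add
 (.mul (.g 4) (.pp [(1, 18204570000)])) (.mul (.g 5) (.pp [(1, 48483600000)]))) (.add (.mul (.g 8)
 (.pp [(1, 18870000000)])) (.mul (.g 12) (.pp [(1, 384180000)]))))) (.mul (.g 14) (.add (.mul (.g
 7) (.pp [(1, 49262400000)])) (.add (.mul (.g 12) (.pp [(1, 2048610000)])) (.mul (.g 14) (.pp [(1,
 6000000)])))))) (.add (.mul (.g 2) (.mul (.g 7) (.pp [(1, 97200000)]))) (.add (.mul (.g 4) (.pp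
 [(1, 2477490000)])) (.mul (.g 8) (.mul (.g 11) (.pp [(1, 6574200000)]))))))) (.mul (.g 5) (.add
 (.mul (.pp [(1, 2857560)]) (.sq [(1, -95), (3, -74), (5, 23), (7, 100)])) (.mul (.g 12) (.add
 (.mul (.g 2) (.pp [(1, 8820000)])) (.mul (.g 8) (.pp [(1, 290910000)]))))))) (.add (.mul (.g 9)
 (.add (.mul (.g 3) (.add (.mul (.g 9) (.pp [(1, 3232800000)])) (.mul (.g 11) (.pp [(1,
 5590200000)])))) (.mul (.g 8) (.mul (.g 9) (.pp [(1, 782400000)]))))) (.add (.mul (.g 2) (.mul (.g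
 2) (.mul (.g 11) (.pp [(1, 627600000)])))) (.mul (.g 8) (.mul (.g 8) (.mul (.g 12) (.pp [(1,
 45390000)]))))))))) (.add (.mul (.g 9) (.add (.add (.mul (.g 7) (.add (.mul (.pp [(1, 60240)])
 (.sq [(1, -70), (2, 68), (3, -67), (5, 100), (7, 6)])) (.add (.mul (.g 2) (.add (.mul (.g 7) (.pp
 [(1, 1969800000)])) (.mul (.g 12) (.pp [(1, 49890000)])))) (.mul (.g 7) (.mul (.g 12) (.pp [(1,
 139080000)])))))) (.mul (.g 4) (.mul (.g 9) (.add (.pp [(1, 16380000)]) (.mul (.g 9) (.pp [(1,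
 1605960000)])))))) (.add (.mul (.g 5) (.mul (.g 5) (.add (.mul (.g 2) (.pp [(1, 13084200000)]))
 (.mul (.g 12) (.pp [(1, 823440000)]))))) (.add (.mul (.g 3) (.mul (.g 3) (.mul (.g 14) (.pp [(1,
 22492200000)])))) (.mul (.g 12) (.pp [(1, 4710000)])))))) (.add (.mul (.g 2) (.add (.mul (.g 7)
 (.add (.mul (.g 2) (.mul (.g 2) (.pp [(1, 1225200000)]))) (.add (.mul (.g 7) (.mul (.g 14) (.pp
 [(1, 631200000)]))) (.mul (.g 12) (.pp [(1, 72660000)]))))) (.add (.mul (.g 14) (.add (.pp [(1,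
 1097400000)]) (.mul (.pp [(1, 102780)]) (.sq [(1, 82), (2, 19), (3, 100), (5, 5), (7, -89)]))))
 (.mul (.g 2) (.mul (.g 2) (.pp [(1, 1466400000)])))))) (.mul (.g 3) (.add (.mul (.g 14) (.add (.pp
 [(1, 39567600000)]) (.mul (.g 5) (.pp [(1, 165586800000)])))) (.mul (.g 4) (.mul (.pp [(1,
 10077)]) (.sq [(1, -50), (2, -20), (3, -23), (5, -20), (7, 100)])))))))) (.add (.add (.mul (.g 12)
 (.add (.mul (.g 7) (.add (.pp [(1, 80220000)]) (.mul (.g 7) (.mul (.g 11) (.pp [(1,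
 61560000)]))))) (.mul (.g 14) (.pp [(1, 135810000)])))) (.mul (.g 0) (.pp [(1, 200000000000)])))
 (.add (.mul (.g 1) (.pp [(1, 200000000000)])) (.add (.mul (.g 4) (.mul (.g 4) (.mul (.pp [(1,
 1629)]) (.sq [(1, 11), (2, 57), (3, 100), (5, -41), (7, -79)])))) (.mul (.g 13) (.pp [(1,
 200000000000)])))))) (.pp [(1, 357462891), (2, 6476814), (3, 5596500), (4, 5440899), (5, 6220638),
 (6, 5122860), (7, 6071202), (8, 6452820), (9, 7650300), (10, 6021546), (12, 6348000), (14,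
 5954094), (15, 5770320), (16, 6135600), (18, 6401973), (20, 5947020), (21, 6621000), (24,
 6341700), (25, 6072051), (27, 4741067), (28, 5657400), (30, 6340680), (35, 5918538), (36,
 5778060), (40, 5696160), (42, 6089880), (45, 6052200), (49, 5973411), (50, 5352060), (54,
 5917980), (56, 6166020), (60, 5701620), (63, 4000200), (70, 5708880), (75, 6274680), (81,
 6163800), (84, 4565160), (90, 5680800), (98, 5930820), (100, 6308400), (105, 6751440), (125,
 6190500), (126, 5929440), (135, 6100200), (140, 6426420), (147, 5898480), (150, 5867220), (175,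
 6265800), (189, 6960000), (196, 6366360), (210, 6658320), (225, 6123000), (245, 6134100), (250,
 6000000), (294, 5928420), (315, 6276000), (343, 6000000), (350, 5597460), (375, 6069300), (441,
 6480000), (490, 5864880), (525, 5694600), (625, 6000000), (686, 6079620), (735, 5581980), (875,
 6169500), (1029, 5836800), (1225, 5725800), (1715, 5920380), (2401, 6000000)]))))))
 (.rule 1 (.rule 6 (.leaf 60000000 (.add (.add (.add (.add (.mul (.g 6) (.add (.add (.mul (.g 6)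
 (.add (.add (.mul (.g 3) (.add (.pp [(1, 546390000)]) (.add (.mul (.g 7) (.pp [(1, 813480000)]))
 (.mul (.g 9) (.pp [(1, 446070000)]))))) (.add (.mul (.g 6) (.add (.mul (.g 5) (.pp [(1,
 8454600000)])) (.add (.mul (.g 11) (.pp [(1, 300000)])) (.mul (.g 13) (.pp [(1, 7823400000)])))))
 (.mul (.g 13) (.add (.mul (.g 4) (.pp [(1, 2955600000)])) (.mul (.g 5) (.pp [(1,
 1141200000)])))))) (.add (.mul (.g 2) (.mul (.g 2) (.pp [(1, 899400000)]))) (.add (.mul (.g 7)
 (.mul (.g 7) (.pp [(1, 409200000)]))) (.mul (.g 8) (.mul (.g 11) (.pp [(1, 413910000)])))))))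
 (.add (.mul (.g 13) (.add (.add (.pp [(1, 1315800000)]) (.mul (.g 5) (.add (.pp [(1, 2278200000)])
 (.add (.mul (.g 7) (.pp [(1, 806400000)])) (.mul (.g 8) (.pp [(1, 4111800000)])))))) (.add (.mul
 (.g 4) (.add (.pp [(1, 8892000000)]) (.mul (.g 4) (.pp [(1, 12199800000)])))) (.add (.mul (.g 2)
 (.mul (.g 2) (.pp [(1, 30360000000)]))) (.mul (.g 7) (.pp [(1, 502200000)])))))) (.mul (.g 2)
 (.mul (.g 2) (.add (.mul (.g 5) (.pp [(1, 30515400000)])) (.mul (.g 7) (.pp [(1,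
 18609000000)]))))))) (.add (.mul (.g 3) (.add (.mul (.g 3) (.mul (.g 8) (.pp [(1, 253090500)])))
 (.mul (.g 7) (.mul (.g 7) (.pp [(1, 2358000000)]))))) (.add (.mul (.g 4) (.add (.mul (.g 4) (.mul
 (.g 4) (.pp [(1, 106153200000)]))) (.mul (.g 11) (.pp [(1, 11427300000)])))) (.mul (.g 11) (.pp
 [(1, 136920000)])))))) (.mul (.g 7) (.add (.add (.mul (.g 13) (.add (.add (.mul (.pp [(1, 31740)])
 (.sq [(1, 51), (2, 57), (3, 40), (5, 40), (7, -100)])) (.add (.mul (.g 5) (.add (.mul (.g 5) (.pp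
 [(1, 52993200000)])) (.mul (.g 13) (.pp [(1, 42087000000)])))) (.mul (.g 7) (.add (.mul (.g 2)
 (.pp [(1, 40500600000)])) (.mul (.g 8) (.pp [(1, 22014600000)])))))) (.add (.mul (.g 3) (.pp [(1,
 21547590000)])) (.add (.mul (.g 4) (.mul (.g 8) (.pp [(1, 81465000000)]))) (.mul (.g 13) (.pp [(1,
 21007800000)])))))) (.add (.mul (.g 7) (.add (.mul (.pp [(1, 185040)]) (.sq [(1, -48), (2, 50),
 (3, 37), (5, 48), (7, 41)])) (.add (.mul (.g 3) (.add (.mul (.g 3) (.pp [(1, 694441500)])) (.mul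
 (.g 11) (.pp [(1, 93301500)])))) (.mul (.g 2) (.mul (.g 8) (.pp [(1, 20493600000)])))))) (.mul (.g
 8) (.add (.mul (.pp [(1, 10860)]) (.sq [(1, -21), (2, -100), (3, -90), (5, 24), (7, 96)])) (.add
 (.mul (.g 2) (.mul (.g 4) (.pp [(1, 49692600000)]))) (.mul (.g 11) (.mul (.g 11) (.pp [(1,
 12858000)])))))))) (.add (.add (.mul (.g 2) (.mul (.g 3) (.pp [(1, 24467760000)]))) (.mul (.g 4)
 (.mul (.pp [(1, 3108840)]) (.sq [(1, -56), (2, 9), (3, 20), (5, -19), (7, 100)])))) (.add (.mul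
 (.g 9) (.mul (.pp [(1, 395280)]) (.sq [(1, -35), (2, -10), (3, -22), (5, 20), (7, 50)]))) (.mul
 (.g 10) (.mul (.pp [(1, 3190080)]) (.sq [(1, -16), (2, -11), (3, -16), (5, 50)])))))))) (.add
 (.mul (.g 5) (.add (.add (.mul (.pp [(1, 831360)]) (.sq [(1, -3), (2, 82), (3, 96), (5, -100), (7,
 -14)])) (.mul (.g 4) (.add (.mul (.g 2) (.add (.pp [(1, 129071400000)]) (.add (.mul (.g 2) (.pp
 [(1, 16648800000)])) (.mul (.g 9) (.pp [(1, 17443200000)]))))) (.add (.mul (.g 11) (.add (.pp [(1,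
 12750090000)]) (.add (.mul (.g 8) (.pp [(1, 157200000)])) (.mul (.g 9) (.pp [(1, 203910000)])))))
 (.mul (.g 4) (.mul (.g 13) (.pp [(1, 6124800000)]))))))) (.add (.mul (.g 5) (.add (.mul (.g 11)
 (.add (.mul (.g 5) (.pp [(1, 526260000)])) (.mul (.g 13) (.pp [(1, 526440000)])))) (.mul (.g 2)
 (.mul (.g 8) (.pp [(1, 3097800000)]))))) (.add (.mul (.g 3) (.add (.mul (.g 2) (.pp [(1,
 4370880000)])) (.mul (.g 3) (.mul (.g 3) (.pp [(1, 1912050)]))))) (.mul (.g 11) (.pp [(1,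
 417150000)])))))) (.mul (.g 2) (.add (.add (.mul (.g 3) (.add (.mul (.pp [(1, 44238)]) (.sq [(1,
 -100), (2, 91), (5, 66), (7, -35)])) (.mul (.g 8) (.mul (.g 8) (.pp [(1, 109380000)]))))) (.mul
 (.g 2) (.mul (.pp [(1, 1017000)]) (.sq [(1, 65), (2, 88), (5, 35), (7, 100)])))) (.add (.mul (.g
 4) (.mul (.g 4) (.mul (.g 4) (.pp [(1, 30535800000)])))) (.add (.mul (.g 11) (.mul (.pp [(1,
 7473)]) (.sq [(1, 100), (2, 87), (3, 8), (5, 65), (7, 85)]))) (.mul (.g 13) (.mul (.pp [(1,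
 2755500)]) (.sq [(2, 16), (5, -9), (7, 20)]))))))))) (.add (.add (.mul (.g 11) (.add (.mul (.g 3)
 (.pp [(1, 136582500)])) (.add (.mul (.g 4) (.pp [(1, 2475450000)])) (.mul (.g 13) (.pp [(1,
 276960000)]))))) (.mul (.g 13) (.add (.mul (.g 3) (.pp [(1, 1413180000)])) (.mul (.g 4) (.mul (.g
 4) (.mul (.g 4) (.pp [(1, 42501600000)]))))))) (.add (.mul (.g 0) (.pp [(1, 200000000000)])) (.add
 (.mul (.g 1) (.pp [(1, 200000000000)])) (.mul (.g 12) (.pp [(1, 200000000000)])))))) (.pp [(1,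
 149782500), (2, 5760000), (3, 6279810), (4, 5138400), (5, 6379500), (6, 7123920), (7, 6189000),
 (8, 5453355), (9, 5747160), (10, 6293100), (12, 6985749), (14, 5626140), (15, 5501400), (16,
 5712300), (18, 5592864), (20, 6279814), (21, 5744820), (24, 6713280), (25, 5670000), (27,
 5637792), (28, 5950710), (30, 6575466), (35, 5677200), (36, 5091540), (40, 5146980), (42,
 7413750), (45, 5730720), (49, 5921100), (50, 5935597), (54, 6517440), (56, 5439840), (60,
 6754500), (63, 5650080), (70, 6288450), (75, 5654403), (81, 5965440), (84, 6382140), (90,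
 5494680), (98, 6017115), (100, 6665460), (105, 5661630), (125, 6030000), (126, 5826600), (135,
 6003840), (140, 6060000), (147, 6613245), (150, 5857140), (175, 5864640), (189, 6104640), (196,
 5738760), (210, 7016040), (225, 6077400), (245, 6170640), (250, 5731500), (294, 6357600), (315,
 4923240), (343, 5683680), (350, 6499620), (375, 6268500), (441, 5776740), (490, 7068780), (525,
 5906100), (625, 6000000), (686, 5585760), (735, 5598420), (875, 6312000), (1029, 6068640), (1225,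
 5811840), (1715, 5962560), (2401, 6347760)])))))))
 (P_free ++ xP_G_T2) = true := by decide +kernel

theorem t_G_T4a_TpA_a : chk Rap gP_G_T4a
 (.cut 1 [(2, -1), (3, 1)] (.add (.mul (.g 8) (.pp [(1, 1)])) (.mul (.g 4) (.pp [(1, 1)]))) (.rule
 1 (.cut 1 [(2, 1), (5, -1)] (.add (.mul (.g 10) (.pp [(1, 1)])) (.mul (.g 7) (.pp [(1, 1)])))
 (.rule 2 (.cut 11 [(1, -3), (3, 5)] (.add (.mul (.g 1) (.pp [(1, 40)])) (.add (.mul (.g 11) (.pp
 [(1, 2)])) (.mul (.g 12) (.pp [(1, 15)])))) (.cut 1 [(1, 3), (3, -2)] (.add (.add (.mul (.g 10)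
 (.pp [(1, 1)])) (.mul (.g 15) (.pp [(1, 1)]))) (.add (.mul (.g 7) (.pp [(1, 1)])) (.mul (.g 9)
 (.pp [(1, 1)])))) (.rule 8 (.rule 23 (.leaf 33000000 (.add (.add (.add (.add (.mul (.g 9) (.add
 (.add (.mul (.g 19) (.add (.add (.pp [(1, 6183210000)]) (.mul (.g 8) (.add (.mul (.g 12) (.pp [(1,
 26583480000)])) (.mul (.g 14) (.pp [(1, 37676100000)]))))) (.add (.mul (.g 10) (.pp [(1,
 24961200000)])) (.add (.mul (.g 14) (.mul (.g 14) (.pp [(1, 3715470000)]))) (.mul (.g 15) (.mul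
 (.g 16) (.pp [(1, 6529413000)]))))))) (.add (.mul (.g 9) (.add (.mul (.g 10) (.add (.mul (.g 12)
 (.pp [(1, 76167300000)])) (.mul (.g 16) (.pp [(1, 46626360000)])))) (.add (.mul (.g 8) (.mul (.g
 12) (.pp [(1, 53137260000)]))) (.mul (.g 16) (.mul (.g 18) (.pp [(1, 6697680000)])))))) (.mul (.g
 16) (.add (.mul (.pp [(1, 1851663)]) (.sq [(1, 76), (2, 54), (3, 100), (5, 89)])) (.mul (.g 16)
 (.mul (.g 18) (.pp [(1, 8621250000)]))))))) (.add (.mul (.g 12) (.mul (.pp [(1, 1167540)]) (.sq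
 [(1, 49), (2, -20), (3, 100), (5, 100)]))) (.add (.mul (.g 15) (.mul (.g 15) (.pp [(1,
 35767050)]))) (.mul (.g 18) (.pp [(1, 192441150000)])))))) (.add (.mul (.g 8) (.add (.add (.mul
 (.g 13) (.add (.mul (.pp [(1, 3945018)]) (.sq [(1, 100), (2, 48), (3, -4), (5, 25)])) (.mul (.g
 14) (.add (.pp [(1, 48663450000)]) (.mul (.g 8) (.pp [(1, 9117900000)])))))) (.mul (.g 12) (.mul
 (.g 12) (.add (.pp [(1, 50489670000)]) (.mul (.g 19) (.pp [(1, 16420800000)])))))) (.add (.mul (.g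
 10) (.mul (.g 10) (.mul (.g 18) (.pp [(1, 1922910000)])))) (.mul (.g 16) (.pp [(1,
 150484290000)]))))) (.mul (.g 10) (.add (.add (.mul (.g 10) (.add (.mul (.g 10) (.mul (.g 12) (.pp
 [(1, 3847140000)]))) (.mul (.g 18) (.pp [(1, 37231590000)])))) (.mul (.g 14) (.add (.mul (.g 12)
 (.mul (.g 14) (.pp [(1, 2826780000)]))) (.mul (.g 16) (.mul (.g 19) (.pp [(1, 54473430000)]))))))
 (.add (.mul (.g 13) (.pp [(1, 32373000000)])) (.mul (.g 18) (.pp [(1, 133794210000)]))))))) (.add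
 (.mul (.g 12) (.add (.mul (.g 12) (.add (.pp [(1, 48322230000)]) (.mul (.pp [(1, 6299832)]) (.sq
 [(1, -42), (2, -2), (3, 100), (5, -25)])))) (.mul (.g 16) (.mul (.pp [(1, 826287)]) (.sq [(1, 39),
 (2, 75), (3, 100), (5, 100)]))))) (.add (.mul (.g 16) (.add (.pp [(1, 74465160000)]) (.mul (.pp
 [(1, 55396110000)]) (.sq [(2, -1), (3, 1), (5, 1)])))) (.mul (.g 0) (.pp [(1, 10000000000)])))))
 (.add (.add (.mul (.g 1) (.pp [(1, 33000000)])) (.add (.mul (.g 4) (.pp [(1, 110000000000)]))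
 (.mul (.g 6) (.pp [(1, 110000000000)])))) (.add (.mul (.g 13) (.mul (.g 13) (.mul (.g 14) (.pp
 [(1, 61750260000)])))) (.add (.mul (.g 17) (.pp [(1, 110000000000)])) (.mul (.g 19) (.mul (.g 19)
 (.mul (.pp [(1, 652608)]) (.sq [(1, -21), (2, 100), (3, 38), (5, 70)])))))))) (.pp [(1,
 1082008751), (2, 3745543), (3, 3471139), (4, 3083201), (5, 3189176), (6, 2612621), (8, 3808233),
 (9, 2650560), (10, 2908400), (12, 3061795), (15, 3292168), (16, 3379200), (18, 2861408), (20,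
 3253800), (23, 330000000000), (24, 3221559), (25, 3030632), (27, 4052400), (30, 2521156), (36,
 3528492), (40, 3075072), (45, 3529240), (50, 3661350), (54, 3429888), (60, 3594888), (75,
 3994111), (81, 3300000), (90, 3451932), (100, 3271950), (125, 3615920), (135, 3768600), (150,
 3281850), (225, 3241425), (250, 3044250), (375, 3025440), (625, 3220800)])))))))))))
 (P_TpA ++ xP_G_T4a) = true := by decide +kernel

theorem t_G_T4b_TpA_a : chk Rap gP_G_T4b
 (.split [(1, -3), (3, 2)]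
 (.cut 3 [(2, -1), (3, 1)] (.add (.mul (.g 0) (.pp [(1, 1)])) (.add (.mul (.g 2) (.pp [(1, 1)]))
 (.mul (.g 5) (.pp [(1, 3)])))) (.rule 1 (.cut 3 [(2, 1), (5, -1)] (.add (.add (.mul (.g 3) (.pp
 [(1, 1)])) (.mul (.g 1) (.pp [(1, 1)]))) (.add (.mul (.g 2) (.pp [(1, 1)])) (.mul (.g 8) (.pp [(1,
 3)])))) (.rule 2 (.rule 9 (.cut 1 [(1, -2), (2, -1), (3, 2), (5, 1)] (.add (.mul (.g 10) (.pp [(1,
 1)])) (.add (.mul (.g 5) (.pp [(1, 1)])) (.mul (.g 8) (.pp [(1, 1)])))) (.cut 1 [(1, -1), (2, -2),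
 (3, 2), (5, 2)] (.add (.mul (.g 11) (.pp [(1, 1)])) (.add (.mul (.g 9) (.pp [(1, 1)])) (.mul (.g
 0) (.pp [(1, 1)])))) (.rule 14 (.leaf 3000000 (.add (.add (.add (.add (.mul (.g 11) (.add (.add
 (.mul (.g 8) (.add (.pp [(1, 8748030000)]) (.add (.mul (.g 17) (.add (.mul (.g 11) (.pp [(1,
 2109850000)])) (.mul (.g 17) (.pp [(1, 1024150000)])))) (.mul (.g 9) (.mul (.g 16) (.pp [(1,
 62217000)])))))) (.add (.mul (.g 10) (.add (.mul (.g 10) (.mul (.g 20) (.pp [(1, 3429030000)])))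
 (.add (.mul (.g 11) (.mul (.g 14) (.pp [(1, 977580000)]))) (.mul (.g 15) (.mul (.g 17) (.pp [(1,
 383340000)])))))) (.mul (.g 11) (.add (.pp [(1, 15913680000)]) (.mul (.g 14) (.pp [(1,
 2352030000)])))))) (.add (.mul (.g 13) (.add (.pp [(1, 22392270000)]) (.mul (.g 15) (.mul (.g 20)
 (.pp [(1, 891600000)]))))) (.add (.mul (.g 9) (.mul (.g 9) (.pp [(1, 1567440000)]))) (.mul (.g 14)
 (.mul (.pp [(1, 201960)]) (.sq [(1, 86), (2, 35), (3, 100), (5, 16)]))))))) (.add (.mul (.g 9)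
 (.add (.add (.mul (.pp [(1, 315660)]) (.sq [(2, 37), (3, -19), (5, 50)])) (.mul (.g 13) (.add
 (.add (.mul (.g 10) (.add (.mul (.g 14) (.pp [(1, 2290800000)])) (.mul (.g 15) (.pp [(1,
 8503050000)])))) (.mul (.g 8) (.mul (.g 9) (.pp [(1, 135340000)])))) (.add (.mul (.g 13) (.mul (.g
 13) (.pp [(1, 300000)]))) (.mul (.g 20) (.pp [(1, 1371030000)])))))) (.add (.mul (.g 8) (.add
 (.mul (.g 9) (.mul (.g 15) (.pp [(1, 2970980000)]))) (.mul (.g 10) (.mul (.g 14) (.pp [(1,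
 135190000)]))))) (.add (.mul (.g 10) (.mul (.g 10) (.mul (.g 17) (.pp [(1, 269490000)])))) (.mul
 (.g 14) (.pp [(1, 15756750000)])))))) (.mul (.g 10) (.add (.mul (.g 14) (.add (.mul (.pp [(1,
 99)]) (.sq [(1, 13), (2, 28), (3, -55), (5, 100)])) (.add (.mul (.g 15) (.mul (.g 20) (.pp [(1,
 821730000)]))) (.mul (.g 16) (.pp [(1, 520693500)]))))) (.add (.mul (.g 10) (.mul (.g 10) (.mul
 (.g 20) (.pp [(1, 1508730000)])))) (.mul (.g 13) (.pp [(1, 6974460000)]))))))) (.add (.mul (.g 15)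
 (.add (.mul (.g 8) (.pp [(1, 14394090000)])) (.add (.mul (.g 13) (.pp [(1, 7515270000)])) (.mul
 (.g 14) (.mul (.g 15) (.mul (.g 20) (.pp [(1, 273870000)]))))))) (.add (.mul (.g 20) (.add (.mul
 (.g 13) (.mul (.pp [(1, 7272)]) (.sq [(1, -75), (2, 60), (3, -59), (5, 100)]))) (.mul (.g 20)
 (.mul (.pp [(1, 6852)]) (.sq [(1, -38), (2, 23), (3, 24), (5, 100)]))))) (.mul (.g 0) (.pp [(1,
 10000000000)]))))) (.add (.add (.mul (.g 3) (.pp [(1, 300000000)])) (.add (.mul (.g 4) (.pp [(1,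
 10000000000)])) (.mul (.g 6) (.pp [(1, 10000000000)])))) (.add (.mul (.g 8) (.mul (.g 8) (.pp [(1,
 1712540000)]))) (.add (.mul (.g 16) (.mul (.g 16) (.pp [(1, 20341350)]))) (.mul (.g 18) (.pp [(1,
 10000000000)])))))) (.pp [(1, 2692691362), (2, 364296), (3, 271617), (4, 268092), (5, 308616), (6,
 281049), (8, 310660), (9, 306217), (10, 214848), (12, 272512), (15, 323095), (16, 300000), (18,
 359134), (20, 328416), (23, 30000000000), (24, 312384), (25, 267552), (27, 298955), (30, 334128),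
 (36, 292536), (40, 289800), (45, 294166), (50, 379776), (54, 285605), (60, 319976), (75, 288968),
 (81, 299475), (90, 254648), (100, 307092), (125, 297360), (135, 300475), (150, 272592), (225,
 326248), (250, 264240), (375, 314160), (625, 311760)])))))))))))
 (.cut 1 [(2, -1), (3, 1)] (.add (.mul (.g 9) (.pp [(1, 1)])) (.mul (.g 5) (.pp [(1, 1)]))) (.rule
 1 (.cut 1 [(2, 1), (5, -1)] (.add (.mul (.g 11) (.pp [(1, 1)])) (.mul (.g 8) (.pp [(1, 1)])))
 (.rule 2 (.cut 11 [(1, -3), (3, 5)] (.add (.mul (.g 1) (.pp [(1, 40)])) (.add (.mul (.g 12) (.pp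
 [(1, 2)])) (.mul (.g 13) (.pp [(1, 15)])))) (.rule 8 (.rule 23 (.leaf 660000000 (.add (.add (.add
 (.add (.mul (.g 10) (.add (.add (.mul (.g 10) (.add (.add (.mul (.g 12) (.add (.mul (.g 10) (.pp
 [(1, 185625000000)])) (.mul (.g 19) (.pp [(1, 246094200000)])))) (.mul (.g 7) (.mul (.g 7) (.pp
 [(1, 84403000000)])))) (.add (.mul (.g 13) (.mul (.g 13) (.pp [(1, 84117000000)]))) (.mul (.g 16)
 (.mul (.g 16) (.pp [(1, 213404400000)])))))) (.add (.mul (.g 9) (.add (.mul (.g 14) (.add (.mul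
 (.g 12) (.pp [(1, 623284200000)])) (.mul (.g 16) (.pp [(1, 3340867200000)])))) (.mul (.g 19) (.mul
 (.g 19) (.pp [(1, 487066800000)]))))) (.mul (.g 13) (.add (.pp [(1, 1937357400000)]) (.mul (.g 8)
 (.add (.mul (.g 7) (.pp [(1, 217703200000)])) (.mul (.g 8) (.pp [(1, 537735000000)])))))))) (.add
 (.mul (.g 12) (.pp [(1, 1793866800000)])) (.add (.mul (.g 14) (.mul (.g 19) (.mul (.g 19) (.pp
 [(1, 174563400000)])))) (.mul (.g 15) (.mul (.pp [(1, 1957857)]) (.sq [(1, 34), (2, -100), (3,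
 95), (5, -19)]))))))) (.mul (.g 12) (.add (.add (.pp [(1, 1639657800000)]) (.mul (.g 8) (.add (.pp
 [(1, 266263800000)]) (.add (.mul (.g 9) (.add (.mul (.g 7) (.pp [(1, 107338000000)])) (.add (.mul
 (.g 9) (.pp [(1, 71755200000)])) (.mul (.g 19) (.pp [(1, 158928000000)]))))) (.mul (.g 12) (.mul
 (.g 14) (.pp [(1, 492016800000)]))))))) (.add (.mul (.g 9) (.mul (.pp [(1, 11681340)]) (.sq [(1,
 49), (2, -20), (3, 100), (5, 100)]))) (.add (.mul (.g 16) (.mul (.pp [(1, 141511920)]) (.sq [(1,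
 17), (2, 50), (3, -28), (5, 14)]))) (.mul (.g 19) (.mul (.pp [(1, 8911980)]) (.sq [(1, -12), (2,
 -81), (3, -85), (5, 100)])))))))) (.add (.mul (.g 13) (.add (.add (.mul (.g 8) (.add (.mul (.g 8)
 (.mul (.g 8) (.pp [(1, 646423800000)]))) (.mul (.g 15) (.pp [(1, 8877990000)])))) (.add (.mul (.g
 14) (.add (.mul (.pp [(1, 20886360)]) (.sq [(1, -14), (2, 86), (3, -83), (5, 100)])) (.mul (.g 13)
 (.pp [(1, 1814010000000)])))) (.mul (.g 7) (.mul (.pp [(1, 8374960)]) (.sq [(1, -4), (2, 95), (3,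
 12), (5, 100)]))))) (.add (.mul (.g 9) (.pp [(1, 1197609600000)])) (.add (.mul (.g 16) (.pp [(1,
 1183069800000)])) (.mul (.g 18) (.mul (.pp [(1, 28069140)]) (.sq [(1, -47), (2, 45), (3, 100), (5,
 -57)]))))))) (.add (.mul (.g 9) (.add (.mul (.g 15) (.add (.mul (.g 9) (.mul (.g 16) (.pp [(1,
 21104820000)]))) (.mul (.g 15) (.mul (.g 19) (.pp [(1, 1770004500)]))))) (.mul (.g 14) (.mul (.g
 16) (.mul (.g 19) (.pp [(1, 3549268800000)])))))) (.mul (.g 0) (.pp [(1, 200000000000)]))))) (.add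
 (.add (.mul (.g 1) (.pp [(1, 660000000)])) (.mul (.g 3) (.pp [(1, 2200000000000)]))) (.add (.mul
 (.g 5) (.pp [(1, 2200000000000)])) (.add (.mul (.g 16) (.mul (.g 19) (.pp [(1, 585591600000)])))
 (.mul (.g 17) (.pp [(1, 2200000000000)])))))) (.pp [(1, 21639951940), (2, 66370460), (3,
 64088440), (4, 75019120), (5, 63592648), (6, 56874400), (8, 73230960), (9, 68771560), (10,
 62992600), (12, 57568280), (15, 72451940), (16, 68518560), (18, 75325580), (20, 55226160), (23,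
 6600000000000), (24, 62643020), (25, 76583584), (27, 59448840), (30, 67474000), (36, 69005420),
 (40, 66254100), (45, 66385605), (50, 69889380), (54, 62232720), (60, 56479940), (75, 54995270),
 (81, 69145560), (90, 74051120), (100, 66142560), (125, 58658413), (135, 63911100), (150,
 69305500), (225, 67900800), (250, 65187540), (375, 70207720), (625, 67472460)])))))))))))
 (P_TpA ++ xP_G_T4b) = true := by decide +kernel

theorem t_G_T6_free : chk RFp gP_G_T6
 (.split [(2, 1), (3, -1)]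
 (.split [(2, 1), (5, -1)]
 (.rule 0 (.rule 2 (.leaf 12000000 (.add (.add (.add (.add (.mul (.g 13) (.add (.add (.add (.mul
 (.pp [(1, 660432)]) (.sq [(1, -38), (2, 15), (5, 15), (7, 100)])) (.mul (.g 7) (.add (.add (.mul
 (.pp [(1, 2542128)]) (.sq [(1, -9), (7, 50)])) (.add (.mul (.g 2) (.add (.add (.pp [(1,
 8536800000)]) (.mul (.g 5) (.pp [(1, 2062080000)]))) (.add (.mul (.g 8) (.pp [(1, 44288760000)]))
 (.mul (.g 13) (.pp [(1, 1200000)]))))) (.mul (.g 4) (.add (.mul (.g 5) (.pp [(1, 53128200000)]))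
 (.add (.mul (.g 7) (.pp [(1, 3032400000)])) (.mul (.g 13) (.pp [(1, 29806200000)]))))))) (.add
 (.add (.mul (.g 3) (.add (.mul (.g 7) (.pp [(1, 1726200000)])) (.mul (.g 8) (.pp [(1,
 4602120000)])))) (.mul (.g 6) (.add (.mul (.g 6) (.pp [(1, 797760000)])) (.mul (.g 8) (.pp [(1,
 50317440000)]))))) (.add (.mul (.g 5) (.mul (.g 10) (.pp [(1, 1804560000)]))) (.mul (.g 7) (.mul
 (.g 7) (.pp [(1, 413880000)])))))))) (.add (.mul (.g 4) (.add (.add (.mul (.g 10) (.add (.mul (.g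
 2) (.pp [(1, 808560000)])) (.add (.mul (.g 3) (.pp [(1, 18169560000)])) (.mul (.g 4) (.pp [(1,
 5006520000)]))))) (.mul (.g 2) (.pp [(1, 8184360000)]))) (.add (.mul (.g 3) (.pp [(1,
 38208000000)])) (.add (.mul (.g 4) (.mul (.g 5) (.pp [(1, 4764840000)]))) (.mul (.g 6) (.mul (.g
 13) (.pp [(1, 1426680000)]))))))) (.mul (.g 5) (.add (.pp [(1, 988800000)]) (.add (.mul (.g 13)
 (.add (.mul (.g 2) (.pp [(1, 4412640000)])) (.mul (.g 6) (.pp [(1, 4425360000)])))) (.mul (.g 3)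
 (.mul (.g 3) (.pp [(1, 1200000)])))))))) (.add (.add (.mul (.g 3) (.add (.mul (.g 2) (.pp [(1,
 28644120000)])) (.mul (.g 6) (.mul (.g 8) (.pp [(1, 22946880000)]))))) (.mul (.g 13) (.add (.pp
 [(1, 351240000)]) (.mul (.g 6) (.mul (.g 6) (.pp [(1, 796560000)])))))) (.add (.mul (.g 8) (.mul
 (.pp [(1, 136800)]) (.sq [(1, -41), (2, 23), (3, 23), (5, 32), (7, 50)]))) (.mul (.g 10) (.pp [(1,
 1153920000)])))))) (.mul (.g 2) (.add (.add (.mul (.g 4) (.add (.add (.mul (.g 4) (.add (.mul (.g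
 7) (.pp [(1, 550680000)])) (.mul (.g 8) (.pp [(1, 732960000)])))) (.mul (.g 5) (.pp [(1,
 13557960000)]))) (.add (.mul (.g 7) (.mul (.g 7) (.pp [(1, 7909920000)]))) (.mul (.g 10) (.pp [(1,
 17277720000)]))))) (.add (.mul (.g 6) (.add (.add (.mul (.g 2) (.pp [(1, 40957200000)])) (.mul (.g
 3) (.mul (.g 10) (.pp [(1, 905520000)])))) (.add (.mul (.g 5) (.mul (.g 5) (.pp [(1,
 1989720000)]))) (.mul (.g 6) (.mul (.g 8) (.pp [(1, 958920000)])))))) (.mul (.g 7) (.add (.mul (.g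
 8) (.add (.mul (.g 2) (.pp [(1, 1082280000)])) (.mul (.g 7) (.pp [(1, 92760000)])))) (.mul (.g 3)
 (.pp [(1, 948600000)])))))) (.add (.mul (.g 5) (.add (.pp [(1, 3384720000)]) (.mul (.pp [(1,
 384528)]) (.sq [(1, 23), (3, -6), (5, 50), (7, -30)])))) (.add (.mul (.g 3) (.mul (.g 8) (.pp [(1,
 430080000)]))) (.mul (.g 10) (.pp [(1, 1094280000)]))))))) (.add (.mul (.g 5) (.add (.add (.mul
 (.g 8) (.add (.add (.mul (.g 7) (.add (.mul (.g 3) (.pp [(1, 4667760000)])) (.add (.mul (.g 6)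
 (.pp [(1, 4273560000)])) (.mul (.g 7) (.pp [(1, 2130600000)]))))) (.mul (.g 5) (.add (.pp [(1,
 1703520000)]) (.mul (.g 9) (.pp [(1, 1374480000)]))))) (.add (.mul (.g 3) (.mul (.g 3) (.pp [(1,
 24046560000)]))) (.mul (.g 4) (.pp [(1, 20163480000)]))))) (.mul (.g 7) (.add (.mul (.g 11) (.add
 (.mul (.g 6) (.pp [(1, 181110000)])) (.mul (.g 11) (.pp [(1, 4511400)])))) (.mul (.g 7) (.mul (.g
 7) (.pp [(1, 5041800000)])))))) (.add (.mul (.g 3) (.mul (.g 3) (.pp [(1, 13802400000)]))) (.mul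
 (.g 4) (.mul (.g 11) (.pp [(1, 2652408000)])))))) (.mul (.g 11) (.add (.mul (.g 4) (.add (.mul (.g
 4) (.add (.mul (.g 7) (.pp [(1, 18606000)])) (.mul (.g 8) (.pp [(1, 4992000)])))) (.mul (.g 10)
 (.pp [(1, 901938000)])))) (.add (.mul (.g 3) (.add (.mul (.pp [(1, 9645)]) (.sq [(2, 17), (5, 17),
 (7, -20)])) (.mul (.g 10) (.pp [(1, 179772000)])))) (.mul (.g 6) (.mul (.g 6) (.add (.mul (.g 6)
 (.pp [(1, 60000)])) (.mul (.g 7) (.pp [(1, 60000)])))))))))) (.add (.add (.mul (.g 8) (.add (.mul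
 (.g 3) (.add (.mul (.g 6) (.mul (.g 6) (.pp [(1, 805560000)]))) (.mul (.g 7) (.mul (.g 9) (.pp
 [(1, 270840000)]))))) (.mul (.g 8) (.mul (.pp [(1, 54696)]) (.sq [(1, -33), (2, 12), (5, 12), (7,
 100)]))))) (.mul (.g 0) (.pp [(1, 40000000000)]))) (.add (.mul (.g 1) (.pp [(1, 40000000000)]))
 (.mul (.g 12) (.pp [(1, 40000000000)]))))) (.pp [(1, 25571448), (2, 1225200), (3, 1389408), (4,
 1134168), (5, 1254912), (6, 1137408), (7, 1349040), (8, 1120235), (9, 1056000), (10, 1131888),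
 (12, 1630245), (14, 1228320), (15, 1018032), (16, 1175676), (18, 1036128), (20, 1380438), (21,
 880968), (24, 1209000), (25, 1163376), (27, 1247200), (28, 1197000), (30, 855690), (35, 1057920),
 (36, 1117500), (40, 1219452), (42, 1192440), (45, 1519872), (49, 1144368), (50, 1149003), (54,
 1269792), (56, 1214400), (60, 1154700), (63, 1351200), (70, 1295400), (75, 1421445), (81,
 1200000), (84, 1281600), (90, 1251000), (98, 1134000), (100, 1311876), (105, 1543560), (125,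
 1180000), (126, 1134720), (135, 1123008), (140, 1080000), (147, 1246800), (150, 1036800), (175,
 1220400), (189, 1200000), (196, 1200000), (210, 1322400), (225, 1175100), (245, 1296000), (250,
 1148100), (294, 1204800), (315, 922080), (343, 1204800), (350, 1264800), (375, 1251900), (441,
 1200000), (490, 1200000), (525, 1068000), (625, 1200000), (686, 1200000), (735, 1075200), (875,
 1200000), (1029, 1200000), (1225, 1200000), (1715, 1200000), (2401, 1200000)])))))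
 (.rule 0 (.rule 3 (.leaf 3000000 (.add (.add (.add (.add (.mul (.g 5) (.add (.add (.mul (.g 11)
 (.add (.add (.pp [(1, 3195000)]) (.add (.mul (.g 7) (.add (.add (.mul (.g 2) (.pp [(1, 8712000)]))
 (.mul (.g 6) (.pp [(1, 9502500)]))) (.add (.mul (.g 7) (.pp [(1, 3999000)])) (.mul (.g 8) (.pp
 [(1, 61215000)]))))) (.mul (.g 3) (.add (.pp [(1, 2209500)]) (.mul (.g 6) (.pp [(1,
 14665500)])))))) (.add (.add (.mul (.g 4) (.add (.pp [(1, 1446289500)]) (.mul (.g 11) (.pp [(1,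
 318300)])))) (.mul (.g 2) (.mul (.g 2) (.pp [(1, 4329000)])))) (.add (.mul (.g 5) (.mul (.g 5)
 (.pp [(1, 30874500)]))) (.mul (.g 6) (.mul (.g 13) (.pp [(1, 4128000)]))))))) (.add (.mul (.g 7)
 (.add (.add (.mul (.pp [(1, 111252)]) (.sq [(1, 10), (2, -39), (3, -19), (5, -21), (7, 100)]))
 (.mul (.g 2) (.add (.mul (.g 2) (.pp [(1, 84960000)])) (.mul (.g 7) (.pp [(1, 45690000)])))))
 (.add (.mul (.g 4) (.add (.mul (.g 8) (.pp [(1, 2495250000)])) (.mul (.g 13) (.pp [(1,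
 10857900000)])))) (.add (.mul (.g 5) (.mul (.g 5) (.pp [(1, 25800000)]))) (.mul (.g 6) (.mul (.g
 8) (.pp [(1, 1602210000)]))))))) (.mul (.g 4) (.add (.mul (.g 4) (.add (.mul (.g 8) (.pp [(1,
 531900000)])) (.mul (.g 13) (.pp [(1, 3382440000)])))) (.add (.mul (.g 3) (.mul (.g 13) (.pp [(1,
 3950820000)]))) (.mul (.g 5) (.mul (.g 5) (.pp [(1, 613830000)])))))))) (.add (.add (.mul (.g 8)
 (.add (.mul (.g 2) (.mul (.g 8) (.pp [(1, 22890000)]))) (.add (.mul (.g 3) (.mul (.g 3) (.pp [(1,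
 5309760000)]))) (.mul (.g 13) (.pp [(1, 369090000)]))))) (.mul (.g 5) (.mul (.g 5) (.add (.pp [(1,
 4674720000)]) (.mul (.g 5) (.pp [(1, 606420000)])))))) (.add (.mul (.g 2) (.mul (.g 2) (.pp [(1,
 117030000)]))) (.mul (.g 6) (.mul (.pp [(1, 24132)]) (.sq [(1, 25), (2, 46), (3, 100), (5, -60),
 (7, -51)]))))))) (.mul (.g 13) (.add (.add (.add (.mul (.pp [(1, 231228)]) (.sq [(1, -21), (2, 8),
 (3, -1), (5, -16), (7, 50)])) (.mul (.pp [(1, 22632)]) (.sq [(1, -36), (2, 37), (5, 21), (7,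
 100)]))) (.add (.mul (.g 7) (.add (.add (.mul (.pp [(1, 249288)]) (.sq [(1, -9), (5, -17), (7,
 50)])) (.add (.mul (.pp [(1, 68388)]) (.sq [(1, -33), (2, 2), (3, -40), (5, 31), (7, 100)])) (.mul
 (.g 3) (.add (.pp [(1, 1668390000)]) (.add (.mul (.g 6) (.pp [(1, 132030000)])) (.mul (.g 8) (.pp
 [(1, 39060000)]))))))) (.add (.mul (.g 4) (.add (.mul (.g 8) (.pp [(1, 13327110000)])) (.mul (.g
 13) (.pp [(1, 5371500000)])))) (.add (.mul (.g 6) (.mul (.g 11) (.pp [(1, 6856500)]))) (.mul (.g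
 7) (.mul (.g 7) (.pp [(1, 395970000)]))))))) (.mul (.g 4) (.add (.mul (.g 3) (.add (.pp [(1,
 9619590000)]) (.add (.mul (.g 2) (.pp [(1, 4830000)])) (.mul (.g 8) (.pp [(1, 2948400000)])))))
 (.add (.mul (.g 4) (.mul (.g 8) (.pp [(1, 2510640000)]))) (.mul (.g 11) (.pp [(1, 2293500)])))))))
 (.add (.add (.mul (.g 6) (.add (.mul (.pp [(1, 30)]) (.sq [(1, -52), (2, 25), (5, 100), (7,
 -54)])) (.mul (.g 11) (.pp [(1, 4698000)])))) (.mul (.g 3) (.mul (.g 3) (.pp [(1, 263430000)]))))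
 (.add (.mul (.g 8) (.mul (.pp [(1, 100356)]) (.sq [(1, -37), (2, 38), (5, 16), (7, 100)]))) (.add
 (.mul (.g 11) (.pp [(1, 5587500)])) (.mul (.g 13) (.mul (.g 13) (.mul (.g 13) (.pp [(1,
 10800000)])))))))))) (.add (.mul (.g 4) (.add (.mul (.pp [(1, 28452)]) (.sq [(1, 31), (2, 39), (3,
 100), (5, -61), (7, -21)])) (.add (.mul (.g 11) (.add (.add (.pp [(1, 1476000)]) (.mul (.g 2)
 (.add (.mul (.g 3) (.pp [(1, 711000)])) (.mul (.g 7) (.pp [(1, 1291500)]))))) (.add (.mul (.g 4)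
 (.add (.mul (.g 7) (.pp [(1, 2869500)])) (.mul (.g 8) (.pp [(1, 3397500)])))) (.add (.mul (.g 6)
 (.mul (.g 6) (.pp [(1, 30000)]))) (.mul (.g 10) (.pp [(1, 2751000)])))))) (.mul (.g 8) (.add (.mul
 (.g 3) (.mul (.g 6) (.pp [(1, 49740000)]))) (.mul (.g 4) (.mul (.g 4) (.pp [(1,
 183150000)])))))))) (.mul (.g 8) (.add (.mul (.g 8) (.add (.add (.mul (.pp [(1, 3984)]) (.sq [(1,
 -36), (2, 99), (5, -25), (7, 100)])) (.mul (.pp [(1, 8433)]) (.sq [(1, -31), (2, -14), (3, 10),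
 (5, -19), (7, 100)]))) (.add (.mul (.pp [(1, 11508)]) (.sq [(1, -72), (2, 53), (3, -43), (5, -26),
 (7, 100)])) (.mul (.g 3) (.mul (.g 7) (.pp [(1, 89160000)])))))) (.mul (.g 2) (.mul (.g 7) (.mul
 (.g 7) (.pp [(1, 43860000)])))))))) (.add (.add (.mul (.g 6) (.mul (.g 11) (.add (.pp [(1,
 727500)]) (.mul (.g 6) (.add (.pp [(1, 37500)]) (.mul (.g 6) (.pp [(1, 15000)]))))))) (.mul (.g 0)
 (.pp [(1, 10000000000)]))) (.add (.mul (.g 1) (.pp [(1, 10000000000)])) (.mul (.g 12) (.pp [(1,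
 10000000000)]))))) (.pp [(1, 2297667), (2, 311682), (3, 341832), (4, 272427), (5, 304026), (6,
 276612), (7, 358824), (8, 364284), (9, 254256), (10, 307248), (12, 264852), (14, 246528), (15,
 316104), (16, 293976), (18, 331536), (20, 237552), (21, 185916), (24, 290640), (25, 304563), (27,
 320728), (28, 347160), (30, 297156), (35, 298188), (36, 288408), (40, 300492), (42, 346776), (45,
 290796), (49, 223260), (50, 298686), (54, 300000), (56, 240336), (60, 325194), (63, 387708), (70,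
 290724), (75, 309216), (81, 270000), (84, 326460), (90, 315600), (98, 349452), (100, 306279),
 (105, 241536), (125, 315000), (126, 282456), (135, 300000), (140, 352854), (147, 410520), (150,
 297504), (175, 283116), (189, 258828), (196, 287952), (210, 276480), (225, 294000), (245, 302580),
 (250, 300000), (294, 288720), (315, 335064), (343, 360000), (350, 288864), (375, 304800), (441,
 254400), (490, 279912), (525, 331128), (625, 300000), (686, 295200), (735, 322308), (875, 300000),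
 (1029, 246000), (1225, 311100), (1715, 303480), (2401, 270000)]))))))
 (.rule 1 (.rule 6 (.leaf 60000000 (.add (.add (.add (.add (.mul (.pp [(1, 243540)]) (.sq [(1,
 -32), (2, 100), (3, 69), (5, 16), (7, 28)])) (.add (.mul (.g 3) (.add (.add (.mul (.pp [(1,
 6145140)]) (.sq [(1, 6), (2, 32), (3, 91), (5, -100), (7, 19)])) (.mul (.g 6) (.add (.add (.mul
 (.g 2) (.add (.add (.mul (.g 3) (.pp [(1, 38515800000)])) (.mul (.g 4) (.pp [(1, 53719800000)])))
 (.add (.mul (.g 7) (.pp [(1, 129180600000)])) (.add (.mul (.g 8) (.pp [(1, 34423200000)])) (.mul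
 (.g 12) (.pp [(1, 118307400000)])))))) (.mul (.g 12) (.add (.add (.pp [(1, 133251600000)]) (.mul
 (.g 4) (.pp [(1, 102449400000)]))) (.add (.mul (.g 9) (.pp [(1, 4990200000)])) (.mul (.g 12) (.pp
 [(1, 134097000000)])))))) (.add (.mul (.g 4) (.add (.mul (.g 4) (.pp [(1, 84122400000)])) (.mul
 (.g 10) (.pp [(1, 139290000)])))) (.add (.mul (.g 3) (.mul (.g 6) (.pp [(1, 85030800000)]))) (.mul
 (.g 5) (.mul (.g 10) (.pp [(1, 349470000)])))))))) (.add (.mul (.g 3) (.add (.mul (.g 5) (.add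
 (.add (.pp [(1, 13820400000)]) (.mul (.g 5) (.pp [(1, 30151800000)]))) (.add (.mul (.g 10) (.pp
 [(1, 1861380000)])) (.mul (.g 12) (.pp [(1, 7565400000)]))))) (.add (.mul (.g 2) (.add (.mul (.g
 3) (.pp [(1, 36234000000)])) (.mul (.g 4) (.pp [(1, 812400000)])))) (.mul (.g 12) (.add (.pp [(1,
 130230000000)]) (.mul (.g 3) (.pp [(1, 13792800000)]))))))) (.add (.mul (.g 10) (.add (.add (.pp
 [(1, 887190000)]) (.mul (.g 5) (.add (.pp [(1, 12048000000)]) (.mul (.g 5) (.pp [(1, 600000)])))))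
 (.add (.mul (.g 4) (.pp [(1, 5684490000)])) (.mul (.g 7) (.pp [(1, 3995070000)]))))) (.mul (.g 2)
 (.add (.mul (.g 4) (.add (.pp [(1, 37211400000)]) (.mul (.g 4) (.pp [(1, 9181200000)])))) (.mul
 (.g 2) (.pp [(1, 14766000000)])))))))) (.mul (.g 5) (.add (.add (.mul (.pp [(1, 348660)]) (.sq
 [(1, -36), (2, 18), (3, -1), (5, 100), (7, 13)])) (.mul (.g 2) (.add (.mul (.g 6) (.add (.add
 (.mul (.g 2) (.pp [(1, 1696800000)])) (.mul (.g 5) (.pp [(1, 87000000)]))) (.add (.mul (.g 6) (.pp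
 [(1, 3790800000)])) (.mul (.g 7) (.pp [(1, 1365000000)]))))) (.add (.mul (.g 2) (.add (.pp [(1,
 38989200000)]) (.mul (.g 4) (.pp [(1, 709800000)])))) (.mul (.g 7) (.mul (.g 10) (.pp [(1,
 530610000)]))))))) (.add (.mul (.g 10) (.add (.add (.pp [(1, 99990000)]) (.mul (.g 5) (.add (.pp
 [(1, 150630000)]) (.add (.mul (.g 5) (.pp [(1, 300000)])) (.mul (.g 6) (.pp [(1, 300000)]))))))
 (.add (.mul (.g 4) (.mul (.g 4) (.pp [(1, 300000)]))) (.mul (.g 12) (.pp [(1, 275700000)])))))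
 (.mul (.g 6) (.mul (.g 6) (.add (.mul (.g 5) (.pp [(1, 81000000)])) (.mul (.g 12) (.pp [(1,
 2953800000)])))))))))) (.add (.mul (.g 10) (.add (.add (.mul (.pp [(1, 21771)]) (.sq [(2, -13),
 (3, 100), (5, -5), (7, -36)])) (.mul (.pp [(1, 53523)]) (.sq [(1, 11), (2, 100), (3, 67), (5, 21),
 (7, -39)]))) (.add (.mul (.g 4) (.add (.mul (.g 4) (.add (.pp [(1, 48930000)]) (.add (.mul (.g 4)
 (.pp [(1, 139890000)])) (.mul (.g 12) (.pp [(1, 272520000)]))))) (.add (.mul (.g 12) (.add (.mul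
 (.g 7) (.pp [(1, 421500000)])) (.mul (.g 12) (.pp [(1, 173610000)])))) (.mul (.g 9) (.pp [(1,
 387870000)]))))) (.mul (.g 12) (.mul (.pp [(1, 549)]) (.sq [(1, -66), (2, -35), (3, 100), (7,
 -66)])))))) (.add (.mul (.g 6) (.add (.add (.mul (.pp [(1, 233100)]) (.sq [(1, 8), (2, 100), (3,
 61), (5, -13), (7, -55)])) (.mul (.g 6) (.add (.mul (.g 6) (.add (.mul (.g 2) (.pp [(1,
 5962800000)])) (.mul (.g 12) (.pp [(1, 9681000000)])))) (.mul (.g 4) (.mul (.g 4) (.pp [(1,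
 4533600000)])))))) (.add (.mul (.g 2) (.mul (.pp [(1, 2492940)]) (.sq [(1, -27), (2, -59), (3,
 -9), (7, 100)]))) (.mul (.g 12) (.mul (.pp [(1, 2416500)]) (.sq [(1, 33), (2, 42), (3, 6), (5, 6),
 (7, -100)])))))) (.mul (.g 2) (.add (.mul (.pp [(1, 1522740)]) (.sq [(1, -41), (2, 8), (3, -40),
 (5, 62), (7, 100)])) (.add (.mul (.g 2) (.mul (.g 12) (.mul (.g 12) (.pp [(1, 703800000)]))))
 (.mul (.g 7) (.mul (.pp [(1, 4182360)]) (.sq [(1, -35), (2, 88), (5, -65), (7, 100)])))))))))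
 (.add (.add (.mul (.g 7) (.add (.mul (.pp [(1, 995160)]) (.sq [(1, -14), (2, 100), (3, 27), (5,
 -27), (7, 4)])) (.mul (.g 12) (.mul (.pp [(1, 1076700)]) (.sq [(1, -51), (2, 100), (3, -4), (5,
 81), (7, 57)]))))) (.add (.mul (.g 0) (.pp [(1, 200000000000)])) (.mul (.g 1) (.pp [(1,
 200000000000)])))) (.add (.mul (.g 4) (.mul (.pp [(1, 831120)]) (.sq [(1, -25), (2, 81), (3, 100),
 (5, -66), (7, 17)]))) (.add (.mul (.g 11) (.pp [(1, 200000000000)])) (.mul (.g 12) (.mul (.pp [(1,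
 5551980)]) (.sq [(1, -29), (2, 100), (3, 16), (5, -14), (7, 81)]))))))) (.pp [(1, 106042257), (2,
 6090600), (3, 5974998), (4, 6686184), (5, 6264186), (6, 5864760), (7, 6024030), (8, 5928960), (9,
 6258537), (10, 5780370), (12, 6232725), (14, 5596416), (15, 5821782), (16, 5804160), (18,
 7236960), (20, 6217720), (21, 6447654), (24, 5846340), (25, 5468598), (27, 5371020), (28,
 5486205), (30, 5725800), (35, 5966706), (36, 6049500), (40, 6398400), (42, 6758220), (45,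
 5022480), (49, 5773365), (50, 6386140), (54, 6232800), (56, 6038640), (60, 5411100), (63,
 5592180), (70, 5981160), (75, 5919300), (81, 6000000), (84, 6417240), (90, 5961600), (98,
 6259440), (100, 5529000), (105, 5845560), (125, 6258360), (126, 5086260), (135, 6000000), (140,
 5689500), (147, 5570256), (150, 6042300), (175, 6150600), (189, 6601860), (196, 6561600), (210,
 6022200), (225, 6000000), (245, 5679720), (250, 6000000), (294, 5658180), (315, 6324000), (343,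
 6234576), (350, 6171300), (375, 6000000), (441, 6393120), (490, 5940600), (525, 5994000), (625,
 6000000), (686, 6230580), (735, 6495120), (875, 6000000), (1029, 6171120), (1225, 5994000), (1715,
 6171120), (2401, 6000000)]))))))
 (P_free ++ xP_G_T6) = true := by decide +kernel

end Pool.Agent.Helper62.TW
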