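import Pool.Agent.Helper62.TW.Goals

/-!
# Case trees, part 9 (generated)
-/

set_option autoImplicit false
set_option maxRecDepth 100000
set_option linter.all false

namespace Pool.Agent.Helper62.TW

open Pool.Agent.Helper83.Cert

theorem t_A_F3_Op0 : chk ROp gP_A_F3
 (.split [(1, 1), (2, -40)]
 (.split [(1, -69), (3, 100)]
 (.cut 1 [(1, 3), (3, -2)] (.add (.add (.mul (.g 2) (.pp [(1, 38)])) (.mul (.g 7) (.pp [(1, 2)])))
 (.add (.mul (.g 4) (.pp [(1, 2)])) (.mul (.g 1) (.pp [(1, 1)])))) (.rule 8 (.rule 4 (.leaf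
 37500000 (.add (.add (.add (.add (.mul (.g 7) (.add (.add (.mul (.g 7) (.add (.add (.mul (.g 4)
 (.add (.pp [(1, 290625)]) (.add (.mul (.g 5) (.pp [(1, 93750)])) (.mul (.g 7) (.pp [(1,
 93750)]))))) (.mul (.g 15) (.add (.pp [(1, 16875000)]) (.add (.mul (.g 8) (.pp [(1, 3375000)]))
 (.mul (.g 11) (.pp [(1, 5250000)])))))) (.add (.mul (.g 6) (.add (.mul (.g 6) (.pp [(1,
 11625000)])) (.mul (.g 13) (.pp [(1, 19875000)])))) (.add (.mul (.g 10) (.add (.pp [(1, 5625000)])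
 (.mul (.g 5) (.pp [(1, 750000)])))) (.mul (.g 8) (.mul (.g 9) (.pp [(1, 9750000)]))))))) (.add
 (.mul (.g 6) (.add (.add (.mul (.g 4) (.add (.pp [(1, 9374906250)]) (.mul (.g 11) (.pp [(1,
 75000)])))) (.mul (.g 8) (.add (.mul (.g 9) (.pp [(1, 4500000)])) (.mul (.g 11) (.pp [(1,
 5625000)]))))) (.add (.mul (.g 15) (.add (.pp [(1, 9000000)]) (.mul (.g 3) (.pp [(1, 71250)]))))
 (.add (.mul (.g 5) (.mul (.g 5) (.pp [(1, 3000000)]))) (.mul (.g 6) (.mul (.g 12) (.pp [(1,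
 131250)]))))))) (.mul (.g 4) (.add (.pp [(1, 946875)]) (.add (.mul (.g 5) (.pp [(1, 628125)]))
 (.mul (.g 8) (.mul (.g 11) (.pp [(1, 28125)])))))))) (.add (.mul (.g 15) (.add (.pp [(1,
 10125000)]) (.mul (.g 8) (.add (.pp [(1, 7875000)]) (.mul (.g 8) (.pp [(1, 3750000)])))))) (.add
 (.mul (.g 10) (.add (.pp [(1, 27750000)]) (.mul (.pp [(1, 375)]) (.sq [(1, 73), (2, 43), (3, -34),
 (5, 100), (7, -29)])))) (.mul (.g 5) (.mul (.g 5) (.mul (.g 9) (.pp [(1, 10875000)])))))))) (.mul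
 (.g 8) (.add (.add (.mul (.g 8) (.add (.add (.mul (.g 5) (.add (.mul (.g 5) (.pp [(1,
 89692125000)])) (.add (.mul (.g 6) (.pp [(1, 750000)])) (.mul (.g 10) (.pp [(1, 4125000)])))))
 (.mul (.g 4) (.add (.pp [(1, 2007384375)]) (.mul (.g 8) (.pp [(1, 3380718750)]))))) (.add (.mul
 (.g 6) (.add (.pp [(1, 3391875000)]) (.mul (.g 12) (.pp [(1, 18750)])))) (.add (.mul (.g 15) (.add
 (.pp [(1, 3388500000)]) (.mul (.g 13) (.pp [(1, 7125000)])))) (.mul (.g 3) (.mul (.g 8) (.pp [(1,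
 3750)]))))))) (.add (.mul (.g 5) (.add (.pp [(1, 157503750000)]) (.add (.mul (.g 4) (.add (.pp
 [(1, 4342631250)]) (.mul (.g 5) (.pp [(1, 901068750)])))) (.mul (.g 11) (.mul (.g 11) (.pp [(1,
 1125000)])))))) (.mul (.g 6) (.add (.mul (.g 4) (.pp [(1, 75000)])) (.add (.mul (.g 6) (.mul (.g
 12) (.pp [(1, 37500)]))) (.mul (.g 15) (.pp [(1, 15000000)]))))))) (.add (.mul (.g 15) (.add (.pp
 [(1, 5395500000)]) (.mul (.g 15) (.mul (.g 15) (.pp [(1, 3750000)]))))) (.add (.mul (.g 3) (.pp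
 [(1, 53876250)])) (.mul (.g 10) (.mul (.g 11) (.mul (.g 11) (.pp [(1, 375000)]))))))))) (.add
 (.mul (.g 6) (.add (.add (.mul (.g 6) (.add (.add (.pp [(1, 89428875000)]) (.add (.mul (.g 6)
 (.add (.mul (.g 10) (.pp [(1, 1875000)])) (.mul (.g 13) (.pp [(1, 375000)])))) (.mul (.g 3) (.mul
 (.g 13) (.pp [(1, 22500)]))))) (.add (.mul (.g 4) (.pp [(1, 496875)])) (.add (.mul (.g 5) (.mul
 (.g 15) (.pp [(1, 6000000)]))) (.mul (.g 10) (.pp [(1, 10500000)])))))) (.mul (.g 4) (.add (.pp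
 [(1, 233540625)]) (.mul (.g 5) (.pp [(1, 234375)]))))) (.add (.mul (.g 3) (.pp [(1, 473962500)]))
 (.mul (.g 10) (.pp [(1, 9338625000)]))))) (.add (.mul (.g 5) (.add (.pp [(1, 59501625000)]) (.add
 (.mul (.g 5) (.add (.pp [(1, 108223500000)]) (.mul (.g 5) (.add (.pp [(1, 23794875000)]) (.add
 (.mul (.g 4) (.pp [(1, 122821875)])) (.mul (.g 13) (.pp [(1, 9750000)]))))))) (.mul (.g 4) (.mul
 (.g 10) (.mul (.g 10) (.pp [(1, 84375)]))))))) (.mul (.g 3) (.add (.pp [(1, 276701250)]) (.mul (.g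
 11) (.mul (.pp [(1, 3)]) (.sq [(1, 56), (2, 33), (3, 45), (5, 100), (7, -6)])))))))) (.add (.add
 (.mul (.g 0) (.pp [(1, 125000000000)])) (.mul (.g 1) (.pp [(1, 37500000)]))) (.add (.mul (.g 10)
 (.pp [(1, 43875000)])) (.add (.mul (.g 14) (.pp [(1, 125000000000)])) (.mul (.g 15) (.pp [(1,
 1685625000)])))))) (.pp [(1, 11062886250), (2, 3766473), (3, 3771027), (4, 3941178), (5, 3703902),
 (6, 3596967), (7, 3836250), (8, 3993327), (9, 4158105), (10, 3759672), (12, 3513183), (14,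
 3757854), (15, 3790755), (16, 3750000), (18, 3889440), (20, 3480348), (21, 3910896), (24,
 3326700), (25, 3801150), (27, 3354675), (28, 3888222), (30, 3837690), (35, 3698646), (36,
 3939300), (40, 3431625), (42, 3578208), (45, 3680175), (49, 3740625), (50, 3272325), (54,
 3841500), (56, 3750000), (60, 4193175), (63, 3802320), (70, 3467553), (75, 4036500), (81,
 3892500), (84, 3256200), (90, 3924000), (98, 3742548), (100, 3843375), (105, 4194795), (125,
 4076250), (126, 4456800), (135, 3501000), (140, 3185250), (147, 3551202), (150, 4198500), (175,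
 3685725), (189, 3537000), (196, 3750000), (210, 4834050), (225, 3058500), (245, 3817077), (250,
 3975000), (294, 3760800), (315, 3136500), (343, 3915000), (350, 4614750), (375, 3450000), (441,
 3739200), (490, 3809625), (525, 3049500), (625, 3750000), (686, 3750000), (735, 3679575), (875,
 3450000), (1029, 3750000), (1225, 3690375), (1715, 3750000), (2401, 3750000)]))))))
 (.split [(1, -7), (3, 50)]
 (.rule 7 (.rule 4 (.leaf 300000 (.add (.add (.add (.mul (.pp [(1, 600000)]) (.sq [(1, -7), (3,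
 50), (10, -50)])) (.mul (.g 5) (.add (.add (.mul (.g 7) (.add (.add (.mul (.g 4) (.add (.add (.pp
 [(1, 940425)]) (.mul (.g 5) (.pp [(1, 750)]))) (.add (.mul (.g 6) (.pp [(1, 750)])) (.add (.mul
 (.g 7) (.pp [(1, 37501500)])) (.mul (.g 8) (.pp [(1, 750)])))))) (.mul (.g 2) (.add (.pp [(1,
 751860)]) (.add (.mul (.g 3) (.pp [(1, 6)])) (.mul (.g 7) (.pp [(1, 600)])))))) (.add (.mul (.g
 15) (.add (.pp [(1, 60000)]) (.add (.mul (.g 7) (.pp [(1, 30000)])) (.mul (.g 8) (.pp [(1,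
 30000)]))))) (.mul (.g 10) (.add (.pp [(1, 37587000)]) (.mul (.g 7) (.pp [(1, 30000)]))))))) (.add
 (.mul (.g 8) (.add (.add (.mul (.g 2) (.add (.pp [(1, 31453020)]) (.add (.mul (.g 3) (.pp [(1,
 6)])) (.mul (.g 8) (.pp [(1, 21636000)]))))) (.mul (.g 4) (.add (.pp [(1, 34740975)]) (.add (.mul
 (.g 5) (.pp [(1, 7208250)])) (.mul (.g 6) (.pp [(1, 750)])))))) (.add (.mul (.g 8) (.add (.mul (.g
 5) (.pp [(1, 717570000)])) (.mul (.g 15) (.pp [(1, 1081830000)])))) (.mul (.g 15) (.pp [(1,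
 1572708000)]))))) (.mul (.g 6) (.add (.pp [(1, 5874000)]) (.add (.mul (.g 4) (.add (.pp [(1,
 750)]) (.add (.mul (.g 5) (.pp [(1, 750)])) (.mul (.g 6) (.pp [(1, 750)]))))) (.mul (.g 3) (.add
 (.pp [(1, 510)]) (.mul (.g 6) (.pp [(1, 300)]))))))))) (.add (.add (.mul (.g 5) (.add (.pp [(1,
 412416000)]) (.mul (.g 5) (.add (.pp [(1, 190386000)]) (.mul (.g 4) (.pp [(1, 983250)])))))) (.mul
 (.g 2) (.pp [(1, 10798320)]))) (.add (.mul (.g 10) (.pp [(1, 453354000)])) (.mul (.g 15) (.pp [(1,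
 92505000)]))))))) (.add (.mul (.g 0) (.pp [(1, 1000000000)])) (.add (.mul (.g 1) (.pp [(1,
 600000)])) (.mul (.g 14) (.pp [(1, 1000000000)]))))) (.pp [(2, 6129240), (4, 30000), (6, 33060),
 (8, 30750), (10, 32493), (12, 29250), (14, 30063), (16, 30000), (18, 29550), (20, 29250), (24,
 30000), (28, 30750), (30, 28350), (36, 30000), (40, 30000), (42, 31350), (50, 29700), (54, 30000),
 (56, 30000), (60, 30000), (70, 29250), (84, 30000), (90, 30000), (98, 30000), (100, 30000), (126,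
 30000), (140, 30000), (150, 30000), (196, 30000), (210, 30000), (250, 30000), (294, 30000), (350,
 30000), (490, 30000), (686, 30000)])))))
 (.rule 4 (.leaf 60000 (.add (.add (.mul (.g 4) (.add (.add (.mul (.g 6) (.add (.add (.mul (.g 3)
 (.add (.add (.pp [(1, 465)]) (.mul (.g 4) (.pp [(1, 150)]))) (.add (.mul (.g 5) (.pp [(1, 150)]))
 (.add (.mul (.g 6) (.pp [(1, 300)])) (.mul (.g 7) (.pp [(1, 300)])))))) (.mul (.g 1) (.add (.pp
 [(1, 678948)]) (.add (.mul (.g 5) (.pp [(1, 240)])) (.mul (.g 14) (.pp [(1, 120)])))))) (.add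
 (.mul (.g 9) (.add (.pp [(1, 12000)]) (.add (.mul (.g 6) (.pp [(1, 6000)])) (.mul (.g 7) (.pp [(1,
 6000)]))))) (.mul (.g 14) (.add (.pp [(1, 17400)]) (.mul (.g 7) (.pp [(1, 6000)]))))))) (.add
 (.mul (.g 7) (.add (.add (.mul (.g 3) (.add (.pp [(1, 2739090)]) (.add (.mul (.g 4) (.pp [(1,
 1441650)])) (.mul (.g 5) (.pp [(1, 150)]))))) (.mul (.g 7) (.add (.mul (.g 4) (.pp [(1,
 143514000)])) (.add (.mul (.g 5) (.pp [(1, 56199000)])) (.mul (.g 14) (.pp [(1, 216366000)]))))))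
 (.add (.mul (.g 1) (.add (.mul (.g 5) (.pp [(1, 3203220)])) (.mul (.g 14) (.pp [(1, 3203220)]))))
 (.mul (.g 14) (.pp [(1, 322409400)]))))) (.mul (.g 5) (.add (.mul (.g 5) (.add (.pp [(1,
 83446800)]) (.add (.mul (.g 3) (.pp [(1, 150)])) (.mul (.g 14) (.pp [(1, 6000)]))))) (.add (.mul
 (.g 3) (.pp [(1, 9941640)])) (.mul (.g 9) (.pp [(1, 566023800)]))))))) (.add (.mul (.g 4) (.add
 (.mul (.g 4) (.add (.pp [(1, 38076600)]) (.add (.mul (.g 1) (.pp [(1, 120)])) (.mul (.g 3) (.pp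
 [(1, 196650)]))))) (.mul (.g 14) (.pp [(1, 168364200)])))) (.add (.mul (.g 14) (.add (.pp [(1,
 21058200)]) (.mul (.g 1) (.pp [(1, 9651288)])))) (.mul (.g 9) (.pp [(1, 4789800)])))))) (.add
 (.mul (.g 0) (.pp [(1, 200000000)])) (.mul (.g 13) (.pp [(1, 200000000)])))) (.pp [(2, 1872984),
 (4, 6000), (6, 5976), (8, 5910), (10, 6459), (12, 6000), (14, 6186), (16, 6000), (18, 6450), (19,
 600000000), (20, 6450), (24, 6000), (28, 6150), (30, 5610), (36, 6000), (40, 6000), (42, 5850),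
 (50, 5700), (54, 6000), (56, 6000), (60, 6000), (70, 5940), (84, 6000), (90, 6000), (98, 5940),
 (100, 6000), (126, 6000), (140, 6000), (150, 6000), (196, 6000), (210, 6000), (250, 6000), (294,
 6000), (350, 6000), (490, 6000), (686, 6000)]))))))
 (.split [(1, -69), (3, 100)]
 (.split [(2, 1), (3, -1)]
 (.split [(2, 1), (5, -1)]
 (.rule 0 (.rule 2 (.cut 1 [(1, 3), (3, -2)] (.add (.add (.mul (.g 3) (.pp [(1, 2)])) (.mul (.g 10)
 (.pp [(1, 3)]))) (.add (.mul (.g 8) (.pp [(1, 1)])) (.mul (.g 2) (.pp [(1, 1)])))) (.rule 8 (.leaf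
 300000000 (.add (.add (.add (.add (.mul (.g 18) (.add (.add (.add (.mul (.pp [(1, 4534500)]) (.sq
 [(2, 13), (3, 100), (5, -44), (7, 40)])) (.mul (.pp [(1, 4617600)]) (.sq [(2, 39), (3, 39), (5,
 50), (7, 50)]))) (.add (.mul (.g 9) (.add (.add (.mul (.g 9) (.add (.mul (.g 9) (.pp [(1,
 116289000000)])) (.mul (.g 13) (.pp [(1, 73248000000)])))) (.mul (.g 6) (.mul (.g 13) (.pp [(1,
 1080300000)])))) (.add (.mul (.g 8) (.mul (.g 8) (.pp [(1, 1002096000000)]))) (.add (.mul (.g 10)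
 (.mul (.g 10) (.pp [(1, 194178000000)]))) (.mul (.g 11) (.mul (.g 16) (.pp [(1,
 1001790000000)]))))))) (.add (.mul (.g 11) (.add (.add (.pp [(1, 455448000000)]) (.mul (.pp [(1,
 6546000)]) (.sq [(1, 50), (2, 31), (3, 41), (5, 41), (7, 41)]))) (.add (.mul (.pp [(1, 1453200)])
 (.sq [(1, -18), (2, 41), (3, -9), (5, 25), (7, 50)])) (.mul (.g 11) (.add (.mul (.g 6) (.pp [(1,
 1603920000)])) (.mul (.g 8) (.pp [(1, 923556000000)]))))))) (.mul (.g 13) (.add (.mul (.pp [(1,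
 6828900)]) (.sq [(1, 12), (2, 41), (3, -14), (5, 100), (7, 13)])) (.mul (.pp [(1, 2043300)]) (.sq
 [(1, -29), (2, 18), (3, 100), (5, -27), (7, 35)]))))))) (.add (.add (.mul (.g 5) (.mul (.pp [(1,
 7245300)]) (.sq [(1, 7), (2, 14), (3, -72), (5, 100), (7, 5)]))) (.add (.mul (.g 8) (.pp [(1,
 533091000000)])) (.mul (.g 10) (.mul (.pp [(1, 18154200)]) (.sq [(1, 11), (2, 8), (3, 100), (5,
 -52), (7, -20)]))))) (.add (.mul (.g 12) (.mul (.pp [(1, 3209400)]) (.sq [(1, -93), (2, 28), (3,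
 56), (5, 78), (7, 100)]))) (.add (.mul (.g 16) (.mul (.pp [(1, 16322400)]) (.sq [(1, -100), (2,
 53), (3, 31), (5, 97), (7, 97)]))) (.mul (.g 18) (.mul (.pp [(1, 4342500)]) (.sq [(1, -100), (2,
 45), (3, 18), (5, 58), (7, 58)])))))))) (.add (.mul (.g 12) (.add (.add (.mul (.g 11) (.add (.add
 (.mul (.pp [(1, 5054100)]) (.sq [(1, -48), (2, 69), (3, 100), (5, -67), (7, -3)])) (.mul (.g 9)
 (.add (.mul (.g 9) (.pp [(1, 1170657000000)])) (.mul (.g 16) (.pp [(1, 1347048000000)]))))) (.add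
 (.mul (.g 4) (.mul (.g 16) (.pp [(1, 605622000000)]))) (.mul (.g 11) (.mul (.g 11) (.pp [(1,
 186552000000)])))))) (.add (.mul (.g 8) (.add (.mul (.g 8) (.add (.mul (.g 8) (.pp [(1,
 57186000000)])) (.mul (.g 13) (.pp [(1, 36678000000)])))) (.mul (.g 10) (.add (.pp [(1,
 54996000000)]) (.mul (.g 10) (.pp [(1, 20568000000)])))))) (.mul (.g 6) (.pp [(1, 5318280000)]))))
 (.add (.add (.mul (.g 10) (.pp [(1, 656661000000)])) (.mul (.g 12) (.mul (.pp [(1, 2415000)]) (.sq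
 [(1, -6), (2, -41), (3, -96), (5, 74), (7, 100)])))) (.add (.mul (.g 13) (.mul (.pp [(1, 590700)])
 (.sq [(1, -16), (2, 100), (3, -11), (5, 82)]))) (.mul (.g 14) (.mul (.pp [(1, 725100)]) (.sq [(1,
 19), (2, -4), (3, 14), (5, 100), (7, -68)]))))))) (.mul (.g 4) (.add (.add (.pp [(1,
 271194000000)]) (.add (.mul (.g 14) (.add (.add (.mul (.pp [(1, 1817700)]) (.sq [(1, -100), (2,
 -80), (3, 27), (5, 53)])) (.mul (.g 4) (.pp [(1, 306429000000)]))) (.add (.mul (.g 5) (.pp [(1,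
 480375000000)])) (.mul (.g 8) (.pp [(1, 182958000000)]))))) (.mul (.g 9) (.add (.pp [(1,
 868869000000)]) (.mul (.g 9) (.add (.mul (.g 4) (.pp [(1, 783378000000)])) (.mul (.g 10) (.pp [(1,
 1258086000000)])))))))) (.add (.mul (.g 10) (.add (.pp [(1, 357405000000)]) (.mul (.g 4) (.pp [(1,
 666768000000)])))) (.add (.mul (.g 8) (.pp [(1, 107679000000)])) (.mul (.g 11) (.mul (.g 16) (.mul
 (.g 16) (.pp [(1, 670920000000)])))))))))) (.add (.add (.mul (.g 5) (.add (.add (.mul (.g 5) (.add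
 (.add (.pp [(1, 402561000000)]) (.mul (.pp [(1, 2556900)]) (.sq [(1, 100), (2, -67), (3, 67), (5,
 33)]))) (.add (.mul (.pp [(1, 34047300)]) (.sq [(1, -89), (2, -38), (3, -32), (5, 7), (7, 100)]))
 (.add (.mul (.g 9) (.pp [(1, 593022000000)])) (.mul (.g 14) (.pp [(1, 64035000000)])))))) (.mul
 (.g 6) (.mul (.pp [(1, 924639)]) (.sq [(1, 79), (2, 3), (3, -24), (5, -1), (7, 100)])))) (.add
 (.mul (.g 9) (.mul (.g 10) (.mul (.g 10) (.pp [(1, 19584000000)])))) (.add (.mul (.g 11) (.pp [(1,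
 1335930000000)])) (.mul (.g 16) (.pp [(1, 7836000000)])))))) (.mul (.g 9) (.add (.add (.mul (.g
 11) (.add (.mul (.g 6) (.pp [(1, 48212100000)])) (.add (.mul (.g 9) (.mul (.g 16) (.pp [(1,
 2009196000000)]))) (.mul (.g 11) (.pp [(1, 415563000000)]))))) (.mul (.g 6) (.pp [(1,
 5176860000)]))) (.add (.mul (.g 8) (.mul (.g 8) (.mul (.g 9) (.pp [(1, 192285000000)])))) (.mul
 (.g 16) (.mul (.pp [(1, 7097400)]) (.sq [(1, 56), (2, -20), (3, -55), (5, 31), (7, 100)])))))))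
 (.add (.mul (.g 10) (.add (.mul (.g 6) (.mul (.g 10) (.add (.mul (.g 6) (.pp [(1, 13956600)]))
 (.mul (.g 8) (.pp [(1, 543660000)]))))) (.mul (.g 11) (.pp [(1, 157962000000)])))) (.mul (.g 11)
 (.add (.mul (.g 7) (.mul (.g 7) (.mul (.g 11) (.pp [(1, 199496250)])))) (.mul (.g 16) (.pp [(1,
 351387000000)]))))))) (.add (.add (.mul (.g 0) (.pp [(1, 300000000)])) (.add (.mul (.g 2) (.pp
 [(1, 1000000000000)])) (.mul (.g 3) (.pp [(1, 1000000000000)])))) (.add (.add (.mul (.g 8) (.mul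
 (.g 8) (.mul (.g 8) (.pp [(1, 5016000000)])))) (.mul (.g 14) (.mul (.g 14) (.mul (.pp [(1,
 2114100)]) (.sq [(1, -10), (2, 59), (3, -11), (5, -49), (7, 100)]))))) (.add (.mul (.g 15) (.mul
 (.g 16) (.mul (.pp [(1, 2359710)]) (.sq [(1, 29), (2, 12), (3, -49), (5, 22), (7, 100)])))) (.mul
 (.g 17) (.pp [(1, 1000000000000)])))))) (.pp [(1, 97074928290), (2, 32661471), (3, 31362699), (4,
 27034794), (5, 31048440), (6, 28258914), (7, 32938500), (8, 26833919), (9, 30495942), (10,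
 28220442), (12, 33130617), (14, 22515600), (15, 22156998), (16, 31656000), (18, 30330960), (20,
 36568554), (21, 21511800), (24, 28559400), (25, 25125060), (27, 29325694), (28, 33149100), (30,
 35045394), (35, 25436700), (36, 30912900), (40, 29591400), (42, 49999800), (45, 33661572), (49,
 26659350), (50, 27136791), (54, 29794200), (56, 29535000), (60, 27497700), (63, 33525600), (70,
 31853400), (75, 38852949), (81, 31054200), (84, 23011500), (90, 28346100), (98, 33987300), (100,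
 28787700), (105, 34582200), (125, 32044900), (126, 28947000), (135, 29324100), (140, 27857700),
 (147, 33826500), (150, 29537700), (175, 31292400), (189, 29311200), (196, 32580300), (210,
 33904800), (225, 27044700), (245, 35444400), (250, 28833000), (294, 22694100), (315, 28487400),
 (343, 35175300), (350, 34144200), (375, 29652600), (441, 35488500), (490, 26206200), (525,
 25061700), (625, 29965200), (686, 27948000), (735, 31390800), (875, 28571100), (1029, 29397300),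
 (1225, 30339000), (1715, 28865400), (2401, 28656000)])))))))
 (.rule 0 (.rule 3 (.cut 31 [(1, 3), (3, -2)] (.add (.mul (.g 3) (.pp [(1, 162)])) (.add (.mul (.g
 10) (.pp [(1, 162)])) (.mul (.g 4) (.pp [(1, 1)])))) (.rule 8 (.leaf 3000000 (.add (.add (.add
 (.add (.mul (.g 11) (.add (.add (.mul (.g 11) (.add (.add (.mul (.g 18) (.add (.add (.pp [(1,
 840000)]) (.mul (.g 8) (.pp [(1, 10818540000)]))) (.add (.mul (.g 10) (.pp [(1, 60000)])) (.mul
 (.g 11) (.pp [(1, 300000)]))))) (.mul (.g 9) (.add (.mul (.g 11) (.pp [(1, 240000)])) (.add (.mul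
 (.g 12) (.pp [(1, 840000)])) (.mul (.g 13) (.pp [(1, 120000)])))))) (.add (.mul (.g 8) (.add (.mul
 (.g 5) (.pp [(1, 2274720000)])) (.mul (.g 6) (.pp [(1, 130942500)])))) (.add (.mul (.g 11) (.mul
 (.g 13) (.pp [(1, 240000)]))) (.mul (.g 12) (.mul (.g 12) (.pp [(1, 3306780000)]))))))) (.add
 (.mul (.g 10) (.add (.add (.mul (.g 10) (.add (.mul (.g 5) (.pp [(1, 1020000)])) (.mul (.g 18)
 (.pp [(1, 120000)])))) (.mul (.g 14) (.add (.mul (.g 15) (.pp [(1, 51000)])) (.mul (.g 18) (.pp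
 [(1, 240000)]))))) (.add (.mul (.g 6) (.mul (.g 13) (.pp [(1, 900)]))) (.add (.mul (.g 9) (.mul
 (.g 12) (.pp [(1, 360000)]))) (.mul (.g 15) (.mul (.g 16) (.pp [(1, 25500)]))))))) (.mul (.g 12)
 (.add (.mul (.g 5) (.add (.pp [(1, 22950000)]) (.mul (.g 9) (.pp [(1, 785310000)])))) (.add (.mul
 (.g 8) (.add (.pp [(1, 12765510000)]) (.mul (.g 18) (.pp [(1, 1593720000)])))) (.mul (.g 13) (.mul
 (.g 16) (.pp [(1, 120000)])))))))) (.add (.mul (.g 9) (.add (.mul (.g 5) (.mul (.g 5) (.pp [(1,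
 150000)]))) (.add (.mul (.g 9) (.mul (.g 18) (.pp [(1, 240000)]))) (.mul (.g 13) (.mul (.g 15)
 (.pp [(1, 12000)])))))) (.add (.mul (.g 6) (.mul (.g 6) (.pp [(1, 60)]))) (.mul (.g 18) (.pp [(1,
 3308640000)])))))) (.add (.mul (.g 9) (.add (.add (.mul (.g 13) (.add (.add (.pp [(1, 1890000)])
 (.mul (.g 10) (.add (.mul (.g 4) (.pp [(1, 90000)])) (.mul (.g 10) (.pp [(1, 840000)]))))) (.add
 (.mul (.g 5) (.pp [(1, 840000)])) (.mul (.g 8) (.pp [(1, 29989290000)]))))) (.mul (.g 6) (.add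
 (.mul (.g 9) (.add (.mul (.g 9) (.pp [(1, 87861600)])) (.mul (.g 16) (.pp [(1, 83941200)]))))
 (.mul (.g 8) (.mul (.g 8) (.pp [(1, 18053400)])))))) (.add (.mul (.g 4) (.mul (.g 4) (.add (.mul
 (.g 9) (.pp [(1, 1230000)])) (.mul (.g 18) (.pp [(1, 1350000)]))))) (.add (.mul (.g 12) (.add (.pp
 [(1, 267180000)]) (.mul (.g 16) (.mul (.g 18) (.pp [(1, 784830000)]))))) (.mul (.g 5) (.mul (.g 5)
 (.pp [(1, 427890000)]))))))) (.mul (.g 8) (.add (.add (.mul (.g 8) (.add (.mul (.g 6) (.add (.mul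
 (.g 8) (.pp [(1, 16769100)])) (.mul (.g 18) (.pp [(1, 8073300)])))) (.add (.mul (.g 8) (.mul (.g
 18) (.pp [(1, 2884170000)]))) (.mul (.g 12) (.mul (.g 12) (.pp [(1, 210300000)])))))) (.mul (.g 5)
 (.mul (.g 12) (.add (.mul (.g 5) (.pp [(1, 604590000)])) (.mul (.g 10) (.pp [(1, 180000)]))))))
 (.add (.mul (.g 13) (.add (.pp [(1, 6360000)]) (.mul (.pp [(1, 27)]) (.sq [(1, 91), (2, 100), (3,
 97), (5, 19), (7, 32)])))) (.mul (.g 18) (.pp [(1, 630390000)]))))))) (.add (.add (.mul (.g 10)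
 (.add (.add (.mul (.g 4) (.add (.mul (.g 4) (.mul (.g 18) (.pp [(1, 1500000)]))) (.add (.mul (.g
 5) (.mul (.g 12) (.pp [(1, 540000)]))) (.mul (.g 6) (.mul (.g 10) (.pp [(1, 26400)])))))) (.mul
 (.g 10) (.add (.mul (.g 5) (.mul (.g 18) (.pp [(1, 1050000)]))) (.mul (.g 13) (.mul (.g 14) (.pp
 [(1, 480000)])))))) (.add (.mul (.g 13) (.pp [(1, 360000)])) (.mul (.g 18) (.pp [(1, 780000)])))))
 (.mul (.g 5) (.add (.mul (.g 5) (.add (.pp [(1, 4049910000)]) (.mul (.g 6) (.mul (.g 16) (.pp [(1,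
 3921600)]))))) (.add (.mul (.g 13) (.mul (.pp [(1, 6)]) (.sq [(1, -23), (2, -22), (3, 9), (5, 93),
 (7, -100)]))) (.mul (.g 18) (.pp [(1, 806880000)])))))) (.add (.mul (.g 12) (.add (.mul (.g 6)
 (.add (.pp [(1, 199384800)]) (.mul (.g 4) (.mul (.g 12) (.pp [(1, 26100)]))))) (.add (.mul (.g 12)
 (.pp [(1, 5219580000)])) (.mul (.g 14) (.mul (.pp [(1, 228)]) (.sq [(1, 30), (2, -50), (3, -27),
 (5, -39), (7, -39)])))))) (.mul (.g 13) (.add (.mul (.pp [(1, 156)]) (.sq [(2, 100), (3, 77), (5,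
 67), (7, 67)])) (.mul (.g 14) (.mul (.pp [(1, 21)]) (.sq [(1, -89), (2, -75), (3, 100), (5, -14),
 (7, -11)])))))))) (.add (.add (.mul (.g 0) (.pp [(1, 3000000)])) (.add (.mul (.g 2) (.pp [(1,
 10000000000)])) (.mul (.g 3) (.pp [(1, 10000000000)])))) (.add (.add (.mul (.g 4) (.mul (.g 14)
 (.mul (.pp [(1, 27)]) (.sq [(1, 14), (2, 100), (3, -37), (5, -85), (7, -42)])))) (.mul (.g 6)
 (.mul (.g 6) (.pp [(1, 966846)])))) (.add (.mul (.g 16) (.mul (.g 18) (.pp [(1, 3309360000)])))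
 (.mul (.g 17) (.pp [(1, 10000000000)])))))) (.pp [(1, 121457394), (2, 322680), (3, 326433), (4,
 367866), (5, 289359), (6, 246933), (7, 314340), (8, 353499), (9, 292119), (10, 272427), (12,
 271857), (14, 322350), (15, 333288), (16, 295221), (18, 393219), (20, 284013), (21, 266394), (24,
 317334), (25, 301953), (27, 255082), (28, 298092), (30, 331626), (35, 283434), (36, 292365), (40,
 322506), (42, 283434), (45, 267852), (49, 319716), (50, 320223), (54, 235566), (56, 343050), (60,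
 247902), (63, 350358), (70, 283482), (75, 268278), (81, 329514), (84, 291600), (90, 272703), (98,
 333897), (100, 229785), (105, 350352), (125, 307572), (126, 270750), (135, 313707), (140, 244380),
 (147, 290955), (150, 320712), (175, 300294), (189, 294600), (196, 300477), (210, 349968), (225,
 307785), (245, 290955), (250, 333447), (294, 266982), (315, 252552), (343, 300000), (350, 318882),
 (375, 282633), (441, 302541), (490, 284610), (525, 281640), (625, 289041), (686, 300000), (735,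
 317454), (875, 293688), (1029, 300000), (1225, 314913), (1715, 300000), (2401, 300000)]))))))))
 (.rule 1 (.rule 6 (.cut 1 [(1, 3), (3, -2)] (.add (.add (.mul (.g 10) (.pp [(1, 1)])) (.mul (.g
 13) (.pp [(1, 1)]))) (.add (.mul (.g 7) (.pp [(1, 1)])) (.mul (.g 9) (.pp [(1, 1)])))) (.rule 8
 (.leaf 1200000000 (.add (.add (.add (.add (.mul (.g 10) (.add (.add (.mul (.g 4) (.add (.add (.mul
 (.g 8) (.add (.mul (.g 5) (.pp [(1, 11603520000)])) (.add (.mul (.g 7) (.pp [(1, 1163880000000)]))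
 (.mul (.g 12) (.pp [(1, 1537308000000)]))))) (.mul (.g 4) (.add (.mul (.g 4) (.pp [(1,
 460896000000)])) (.mul (.g 9) (.pp [(1, 95004000000)]))))) (.add (.mul (.g 10) (.add (.mul (.g 10)
 (.pp [(1, 72648000000)])) (.mul (.g 11) (.pp [(1, 580008000000)])))) (.add (.mul (.g 5) (.mul (.g
 11) (.pp [(1, 32280000)]))) (.mul (.g 7) (.pp [(1, 3203076000000)])))))) (.add (.mul (.g 17) (.add
 (.add (.pp [(1, 515400000000)]) (.mul (.g 7) (.add (.pp [(1, 857496000000)]) (.add (.mul (.g 10)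
 (.pp [(1, 4260828000000)])) (.mul (.g 11) (.pp [(1, 2250396000000)])))))) (.add (.mul (.g 10)
 (.add (.pp [(1, 47172000000)]) (.mul (.g 10) (.pp [(1, 1428000000)])))) (.mul (.g 9) (.pp [(1,
 330132000000)]))))) (.mul (.g 5) (.add (.add (.pp [(1, 6516840000)]) (.mul (.g 8) (.add (.mul (.g
 9) (.pp [(1, 14702520000)])) (.mul (.g 11) (.pp [(1, 12968160000)]))))) (.add (.mul (.g 7) (.mul
 (.g 10) (.pp [(1, 46712040000)]))) (.mul (.g 9) (.mul (.g 11) (.pp [(1, 15335880000)]))))))))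
 (.add (.mul (.g 12) (.add (.add (.pp [(1, 340224000000)]) (.mul (.pp [(1, 1795200)]) (.sq [(1,
 -15), (2, -10), (3, 100), (5, 66), (7, -39)]))) (.add (.mul (.g 8) (.mul (.g 13) (.pp [(1,
 116076000000)]))) (.mul (.g 10) (.mul (.g 14) (.pp [(1, 2690400000)])))))) (.add (.mul (.g 9)
 (.add (.mul (.g 7) (.mul (.g 9) (.pp [(1, 703608000000)]))) (.add (.mul (.g 8) (.mul (.g 10) (.pp
 [(1, 82092000000)]))) (.mul (.g 11) (.mul (.g 13) (.pp [(1, 707928000000)])))))) (.mul (.g 6)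
 (.mul (.g 11) (.pp [(1, 3271500000)]))))))) (.add (.mul (.g 9) (.add (.add (.mul (.pp [(1,
 35790000)]) (.sq [(1, -54), (2, 61), (3, -53), (5, 69), (7, -100)])) (.add (.mul (.g 4) (.add
 (.add (.mul (.pp [(1, 1424400)]) (.sq [(1, 64), (2, -23), (3, 55), (5, -34), (7, 100)])) (.mul (.g
 8) (.add (.pp [(1, 1243068000000)]) (.mul (.g 12) (.pp [(1, 371352000000)]))))) (.add (.mul (.g 4)
 (.mul (.g 17) (.pp [(1, 137988000000)]))) (.mul (.g 11) (.mul (.g 11) (.pp [(1,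
 2242380000000)])))))) (.mul (.g 7) (.add (.mul (.g 7) (.add (.mul (.g 12) (.pp [(1,
 566448000000)])) (.mul (.g 17) (.pp [(1, 347712000000)])))) (.mul (.g 12) (.pp [(1,
 3465360000000)])))))) (.add (.mul (.g 6) (.add (.mul (.g 6) (.mul (.g 15) (.pp [(1, 101947500)])))
 (.mul (.g 11) (.mul (.g 11) (.pp [(1, 4170300000)]))))) (.add (.mul (.g 5) (.mul (.g 9) (.mul (.g
 12) (.pp [(1, 542640000)])))) (.mul (.g 11) (.mul (.g 14) (.mul (.g 15) (.pp [(1,
 1243800000)])))))))) (.mul (.g 5) (.add (.add (.mul (.g 8) (.add (.pp [(1, 37729800000)]) (.add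
 (.mul (.g 4) (.mul (.g 11) (.pp [(1, 2637120000)]))) (.mul (.g 7) (.mul (.g 17) (.pp [(1,
 7089480000)])))))) (.mul (.g 5) (.add (.pp [(1, 49434000)]) (.mul (.pp [(1, 3951)]) (.sq [(1,
 -100), (2, 73), (3, 72), (5, 72), (7, 73)]))))) (.add (.mul (.g 17) (.add (.mul (.pp [(1,
 153168)]) (.sq [(1, 3), (2, -42), (3, -50), (5, 41), (7, -15)])) (.mul (.pp [(1, 418716)]) (.sq
 [(1, 100), (2, 41), (3, 41), (5, 41), (7, 41)])))) (.add (.mul (.g 4) (.pp [(1, 31172160000)]))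
 (.mul (.g 12) (.pp [(1, 6954480000)])))))))) (.add (.mul (.g 12) (.add (.add (.mul (.pp [(1,
 68683200)]) (.sq [(2, 50), (3, 31), (5, 50), (7, 31)])) (.add (.mul (.g 7) (.add (.pp [(1,
 1704888000000)]) (.mul (.g 7) (.mul (.g 11) (.pp [(1, 371436000000)]))))) (.mul (.g 8) (.pp [(1,
 4024272000000)])))) (.add (.mul (.g 12) (.mul (.pp [(1, 20396400)]) (.sq [(1, -7), (3, 100), (5,
 4), (7, 46)]))) (.add (.mul (.g 13) (.mul (.pp [(1, 93600)]) (.sq [(1, 96), (2, 100), (3, 22), (5,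
 -69), (7, 15)]))) (.mul (.g 15) (.mul (.pp [(1, 14452800)]) (.sq [(1, -28), (2, 50), (3, 33), (5,
 50), (7, 33)]))))))) (.add (.mul (.g 17) (.add (.mul (.g 4) (.add (.pp [(1, 801948000000)]) (.mul
 (.g 4) (.mul (.g 13) (.pp [(1, 317220000000)]))))) (.add (.mul (.g 17) (.add (.mul (.pp [(1,
 566400)]) (.sq [(1, -100), (2, 63), (3, 48), (5, 48), (7, 48)])) (.mul (.g 11) (.mul (.g 11) (.pp
 [(1, 62664000000)]))))) (.mul (.g 7) (.mul (.g 7) (.mul (.g 7) (.pp [(1, 1145736000000)])))))))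
 (.mul (.g 8) (.add (.mul (.pp [(1, 68060400)]) (.sq [(1, -36), (2, 47), (3, 100), (5, -59), (7,
 -9)])) (.add (.mul (.g 6) (.mul (.pp [(1, 903510)]) (.sq [(1, -19), (2, 95), (3, 100), (5, -74),
 (7, -15)]))) (.mul (.g 7) (.mul (.pp [(1, 32349600)]) (.sq [(1, -1), (2, -1), (3, -67), (5, 34),
 (7, 100)]))))))))) (.add (.add (.mul (.g 4) (.add (.mul (.g 4) (.pp [(1, 1070820000000)])) (.mul
 (.g 11) (.mul (.pp [(1, 69880800)]) (.sq [(1, -3), (2, 66), (3, 68), (5, 100), (7, 6)]))))) (.add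
 (.mul (.g 0) (.pp [(1, 1200000000)])) (.mul (.g 2) (.pp [(1, 4000000000000)])))) (.add (.mul (.g
 3) (.pp [(1, 4000000000000)])) (.add (.mul (.g 6) (.mul (.g 11) (.mul (.pp [(1, 316560)]) (.sq
 [(1, 13), (2, 84), (3, 74), (5, -100), (7, -38)])))) (.mul (.g 16) (.pp [(1, 4000000000000)]))))))
 (.pp [(1, 63200973168), (2, 114793416), (3, 140902422), (4, 125100213), (5, 115064532), (6,
 139480380), (7, 115837512), (8, 125821440), (9, 106834860), (10, 122234568), (12, 134970018), (14,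
 121703754), (15, 131126988), (16, 117129600), (18, 83971992), (20, 101870000), (21, 135599556),
 (24, 122041200), (25, 136009452), (27, 123613476), (28, 137898228), (30, 122870400), (35,
 134151624), (36, 106123200), (40, 118947600), (42, 103897524), (45, 122701752), (49, 131791125),
 (50, 134724800), (54, 149731200), (56, 130924800), (60, 115107600), (63, 105722028), (70,
 122687400), (75, 85816284), (81, 115537200), (84, 89950800), (90, 132646800), (98, 124139592),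
 (100, 130408800), (105, 105323064), (125, 110890800), (126, 145164000), (135, 102954000), (140,
 100996800), (147, 104851578), (150, 120499200), (175, 99842724), (189, 121314000), (196,
 122776800), (210, 161076000), (225, 123901200), (245, 116483112), (250, 116352000), (294,
 116204400), (315, 97027200), (343, 116528676), (350, 124579200), (375, 122678400), (441,
 129873600), (490, 119803200), (525, 123582000), (625, 119287200), (686, 119913600), (735,
 123948000), (875, 120264000), (1029, 122996400), (1225, 123602400), (1715, 120528000), (2401,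
 123014400)]))))))))
 (.split [(1, -7), (3, 50)]
 (.split [(2, 1), (3, -1)]
 (.split [(2, 1), (5, -1)]
 (.rule 0 (.rule 2 (.rule 7 (.leaf 300000000 (.add (.add (.add (.add (.mul (.g 11) (.add (.add
 (.add (.mul (.g 11) (.add (.add (.mul (.pp [(1, 12600)]) (.sq [(1, -3), (2, -60), (3, 2), (5,
 -48), (7, 100)])) (.mul (.g 4) (.add (.mul (.g 7) (.pp [(1, 16833450000)])) (.add (.mul (.g 9)
 (.pp [(1, 1638000000)])) (.mul (.g 18) (.pp [(1, 351000000)])))))) (.add (.mul (.g 5) (.add (.mul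
 (.g 8) (.pp [(1, 17128860000)])) (.mul (.g 13) (.pp [(1, 6060000)])))) (.add (.mul (.g 12) (.add
 (.mul (.g 6) (.pp [(1, 9084690000)])) (.mul (.g 15) (.pp [(1, 133200000)])))) (.mul (.g 8) (.mul
 (.g 18) (.pp [(1, 1081578000000)]))))))) (.mul (.g 4) (.add (.mul (.g 5) (.add (.pp [(1,
 15184860000)]) (.mul (.g 16) (.pp [(1, 2119860000)])))) (.add (.mul (.g 10) (.mul (.g 12) (.pp
 [(1, 6600000000)]))) (.mul (.g 18) (.pp [(1, 884874000000)])))))) (.add (.mul (.g 12) (.add (.mul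
 (.g 7) (.pp [(1, 30916875000)])) (.add (.mul (.g 8) (.mul (.g 9) (.pp [(1, 37728000000)]))) (.mul
 (.g 10) (.mul (.g 10) (.pp [(1, 4164000000)])))))) (.mul (.g 15) (.add (.pp [(1, 51085050000)])
 (.mul (.pp [(1, 645)]) (.sq [(1, 67), (2, 99), (3, -100), (5, 50), (7, 47)])))))) (.add (.add
 (.mul (.g 18) (.add (.pp [(1, 660792000000)]) (.mul (.g 18) (.mul (.g 18) (.pp [(1,
 156000000)]))))) (.mul (.g 3) (.pp [(1, 366315000000)]))) (.add (.mul (.g 5) (.mul (.g 5) (.mul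
 (.g 10) (.pp [(1, 669600)])))) (.add (.mul (.g 6) (.mul (.g 6) (.mul (.g 8) (.pp [(1,
 8669100)])))) (.mul (.g 14) (.mul (.pp [(1, 11100)]) (.sq [(1, -23), (2, 24), (3, 100), (5, 63),
 (7, -79)])))))))) (.add (.mul (.g 3) (.add (.add (.add (.pp [(1, 1227474000000)]) (.mul (.g 3)
 (.add (.mul (.g 8) (.mul (.g 12) (.pp [(1, 3216000000)]))) (.add (.mul (.g 10) (.pp [(1,
 996426000000)])) (.mul (.g 14) (.pp [(1, 3171000000)])))))) (.add (.mul (.g 4) (.add (.mul (.g 10)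
 (.mul (.g 10) (.pp [(1, 6000000)]))) (.mul (.g 12) (.mul (.g 12) (.pp [(1, 373710000000)])))))
 (.mul (.g 8) (.add (.pp [(1, 1093641000000)]) (.mul (.g 8) (.mul (.g 8) (.pp [(1,
 387060000000)]))))))) (.add (.add (.mul (.g 9) (.add (.pp [(1, 795186000000)]) (.mul (.g 9) (.mul
 (.g 9) (.pp [(1, 11199000000)]))))) (.mul (.g 6) (.mul (.pp [(1, 2031)]) (.sq [(1, 38), (2, -33),
 (3, -52), (5, 46), (7, 100)])))) (.add (.mul (.g 10) (.pp [(1, 6267000000)])) (.mul (.g 18) (.mul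
 (.pp [(1, 36300)]) (.sq [(1, -12), (2, 94), (3, 100), (5, -67), (7, -12)]))))))) (.mul (.g 18)
 (.add (.add (.add (.mul (.pp [(1, 55200)]) (.sq [(2, 39), (3, 39), (5, 50), (7, 50)])) (.mul (.g
 8) (.mul (.g 8) (.add (.mul (.g 4) (.pp [(1, 89160000000)])) (.add (.mul (.g 8) (.pp [(1,
 242436000000)])) (.mul (.g 10) (.pp [(1, 1263000000)]))))))) (.add (.mul (.g 10) (.add (.pp [(1,
 655935000000)]) (.mul (.g 10) (.mul (.g 10) (.pp [(1, 183000000)]))))) (.mul (.g 4) (.pp [(1,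
 279231000000)])))) (.add (.add (.mul (.g 6) (.pp [(1, 1624800000)])) (.mul (.g 9) (.mul (.g 9)
 (.mul (.g 9) (.pp [(1, 98040000000)]))))) (.add (.mul (.g 12) (.mul (.pp [(1, 2838900)]) (.sq [(1,
 -65), (2, 100), (3, -29), (5, 40), (7, 11)]))) (.mul (.g 14) (.mul (.pp [(1, 4800)]) (.sq [(1,
 13), (2, 21), (3, 21), (5, -13), (7, -50)]))))))))) (.add (.mul (.g 12) (.add (.add (.mul (.g 10)
 (.add (.mul (.g 7) (.add (.pp [(1, 3202800000)]) (.mul (.g 12) (.pp [(1, 11072850000)])))) (.mul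
 (.g 10) (.mul (.g 10) (.pp [(1, 81000000)]))))) (.mul (.g 8) (.mul (.g 8) (.add (.mul (.g 4) (.pp
 [(1, 798558000000)])) (.mul (.g 6) (.pp [(1, 2856810000)])))))) (.add (.mul (.g 12) (.add (.pp
 [(1, 86295000000)]) (.mul (.pp [(1, 3169200)]) (.sq [(1, 66), (2, -22), (3, 50), (5, 25), (7,
 -100)])))) (.mul (.g 15) (.pp [(1, 29521200000)]))))) (.add (.mul (.g 4) (.add (.mul (.g 4) (.add
 (.add (.mul (.pp [(1, 488700)]) (.sq [(1, 23), (2, -14), (3, 100), (5, 15), (7, -80)])) (.mul (.pp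
 [(1, 112200)]) (.sq [(1, -12), (2, 20), (3, -93), (5, 100), (7, 64)]))) (.add (.mul (.g 6) (.mul
 (.g 10) (.pp [(1, 15840000)]))) (.mul (.g 9) (.pp [(1, 901308000000)]))))) (.mul (.g 8) (.add
 (.mul (.g 8) (.mul (.g 10) (.pp [(1, 314634000000)]))) (.mul (.g 15) (.pp [(1, 10342800000)]))))))
 (.mul (.g 15) (.add (.mul (.g 8) (.add (.mul (.g 8) (.mul (.g 16) (.pp [(1, 4396650000)]))) (.mul
 (.g 13) (.pp [(1, 49698750000)])))) (.add (.mul (.g 9) (.pp [(1, 52942200000)])) (.mul (.g 16)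
 (.mul (.pp [(1, 6285)]) (.sq [(1, 24), (2, 52), (3, -43), (5, 64), (7, 100)]))))))))) (.add (.add
 (.mul (.g 10) (.add (.mul (.g 5) (.mul (.g 5) (.mul (.g 5) (.pp [(1, 96672)])))) (.mul (.g 13)
 (.mul (.pp [(1, 8100)]) (.sq [(1, -24), (2, -29), (3, -100), (5, 61), (7, 87)]))))) (.add (.mul
 (.g 0) (.pp [(1, 600000000)])) (.mul (.g 1) (.pp [(1, 1000000000000)])))) (.add (.add (.mul (.g 2)
 (.pp [(1, 1000000000000)])) (.mul (.g 6) (.mul (.g 8) (.mul (.g 8) (.mul (.g 8) (.pp [(1,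
 4860510000)])))))) (.add (.mul (.g 9) (.mul (.g 9) (.mul (.g 9) (.mul (.g 9) (.pp [(1,
 92388000000)]))))) (.mul (.g 17) (.pp [(1, 1000000000000)])))))) (.pp [(1, 70917793740), (2,
 27242424), (3, 30433500), (4, 32611272), (5, 31204092), (6, 28291908), (7, 30515145), (8,
 27072629), (9, 29877045), (10, 30888084), (12, 27490392), (14, 33770730), (15, 28890432), (16,
 29442000), (18, 32516424), (20, 33563475), (21, 24077400), (24, 35227500), (25, 29850984), (27,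
 29074915), (28, 27662805), (30, 28338984), (35, 32623500), (36, 25434600), (40, 25761900), (42,
 27991800), (45, 31991316), (49, 26572590), (50, 30848172), (54, 33814200), (56, 32056500), (60,
 29746200), (63, 38580900), (70, 30591900), (75, 29603184), (81, 29118300), (84, 24512700), (90,
 32127600), (98, 29838030), (100, 32762400), (105, 29232600), (125, 28949524), (126, 30322500),
 (135, 28700100), (140, 30598500), (147, 35811300), (150, 29733900), (175, 29147700), (189,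
 28845600), (196, 33952200), (210, 32983800), (225, 29477700), (245, 29499000), (250, 28202100),
 (294, 28748700), (315, 30876000), (343, 33890145), (350, 26697000), (375, 31288200), (441,
 26258400), (490, 28010700), (525, 30787500), (625, 30140100), (686, 27691500), (735, 29280300),
 (875, 30528000), (1029, 26188800), (1225, 30007500), (1715, 29961600), (2401, 30000000)]))))))
 (.rule 0 (.rule 3 (.rule 7 (.leaf 24000000000 (.add (.add (.add (.add (.mul (.g 18) (.add (.add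
 (.mul (.g 11) (.add (.add (.mul (.g 4) (.add (.pp [(1, 52796160000000)]) (.add (.mul (.g 6) (.pp
 [(1, 5827200000)])) (.mul (.g 18) (.pp [(1, 5520000000)]))))) (.add (.mul (.g 8) (.add (.pp [(1,
 19947840000000)]) (.add (.mul (.g 11) (.pp [(1, 85083600000000)])) (.mul (.g 12) (.pp [(1,
 57916800000000)]))))) (.mul (.g 5) (.add (.mul (.g 3) (.pp [(1, 28766400000)])) (.mul (.g 12) (.pp
 [(1, 71505600000)])))))) (.add (.add (.mul (.g 10) (.add (.mul (.g 10) (.pp [(1, 1578720000000)]))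
 (.mul (.g 13) (.pp [(1, 1389360000000)])))) (.mul (.g 11) (.add (.pp [(1, 1460880000000)]) (.mul
 (.g 11) (.pp [(1, 2400000000)]))))) (.add (.mul (.g 9) (.mul (.g 12) (.pp [(1, 50970720000000)])))
 (.mul (.g 13) (.pp [(1, 2117520000000)])))))) (.add (.mul (.g 4) (.add (.add (.pp [(1,
 1681920000000)]) (.mul (.g 4) (.pp [(1, 74258640000000)]))) (.add (.mul (.g 6) (.mul (.g 12) (.pp
 [(1, 142099200000)]))) (.add (.mul (.g 8) (.mul (.g 8) (.pp [(1, 18720960000000)]))) (.mul (.g 10)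
 (.mul (.g 10) (.pp [(1, 1434960000000)]))))))) (.mul (.g 8) (.add (.mul (.g 6) (.add (.mul (.g 6)
 (.pp [(1, 1554768000)])) (.mul (.g 12) (.pp [(1, 61680000000)])))) (.mul (.g 5) (.mul (.g 8) (.pp
 [(1, 499027200000)]))))))) (.add (.mul (.g 13) (.add (.pp [(1, 1858800000000)]) (.add (.mul (.pp
 [(1, 106512000)]) (.sq [(1, 62), (2, 92), (3, 1), (5, 100), (7, 8)])) (.mul (.g 9) (.pp [(1,
 14730960000000)]))))) (.add (.mul (.g 10) (.mul (.pp [(1, 1944000)]) (.sq [(1, -16), (2, 100), (3,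
 65), (5, -34), (7, 64)]))) (.mul (.g 14) (.mul (.pp [(1, 3336000)]) (.sq [(1, -42), (2, 100), (3,
 36), (5, -28), (7, 19)]))))))) (.add (.mul (.g 13) (.add (.add (.mul (.g 10) (.add (.add (.mul (.g
 10) (.add (.mul (.g 9) (.pp [(1, 8177040000000)])) (.add (.mul (.g 12) (.pp [(1, 2235360000000)]))
 (.mul (.g 14) (.pp [(1, 63120000000)]))))) (.mul (.g 3) (.add (.mul (.g 4) (.pp [(1,
 6710640000000)])) (.mul (.g 12) (.pp [(1, 3236640000000)]))))) (.add (.mul (.g 4) (.mul (.g 9)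
 (.pp [(1, 733920000000)]))) (.add (.mul (.g 8) (.mul (.g 8) (.pp [(1, 1165440000000)]))) (.mul (.g
 11) (.mul (.g 15) (.pp [(1, 33492000000)]))))))) (.add (.mul (.g 4) (.add (.add (.pp [(1,
 40242960000000)]) (.mul (.g 3) (.pp [(1, 3808800000000)]))) (.add (.mul (.g 9) (.pp [(1,
 63525360000000)])) (.mul (.g 11) (.mul (.g 12) (.pp [(1, 504000000000)])))))) (.mul (.g 8) (.add
 (.mul (.g 5) (.add (.pp [(1, 3898867200000)]) (.mul (.g 7) (.pp [(1, 2273160000)])))) (.mul (.g 7)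
 (.mul (.g 12) (.pp [(1, 32484000000)]))))))) (.add (.add (.mul (.g 12) (.add (.mul (.pp [(1,
 240864000)]) (.sq [(1, -19), (2, -36), (3, 36), (5, 100), (7, -62)])) (.mul (.pp [(1, 174552000)])
 (.sq [(1, -43), (2, 34), (3, -80), (5, 100), (7, 34)])))) (.mul (.g 3) (.mul (.g 11) (.mul (.g 15)
 (.pp [(1, 18024000000)]))))) (.add (.mul (.g 9) (.mul (.pp [(1, 10128000)]) (.sq [(1, -17), (2,
 -38), (5, -63), (7, 100)]))) (.mul (.g 16) (.mul (.pp [(1, 31608000)]) (.sq [(1, 11), (2, -70),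
 (3, -59), (5, -31), (7, 100)]))))))) (.mul (.g 5) (.add (.add (.mul (.pp [(1, 45071520)]) (.sq
 [(1, 28), (2, 30), (3, 100), (5, -81), (7, 23)])) (.add (.mul (.g 5) (.add (.mul (.g 12) (.add
 (.mul (.g 11) (.pp [(1, 11000736000)])) (.mul (.g 12) (.pp [(1, 4846080000)])))) (.mul (.g 5)
 (.mul (.g 5) (.pp [(1, 330240)]))))) (.mul (.g 4) (.mul (.g 4) (.add (.mul (.g 6) (.pp [(1,
 1290096000)])) (.mul (.g 11) (.pp [(1, 32875200000)]))))))) (.add (.mul (.g 7) (.add (.mul (.pp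
 [(1, 37176)]) (.sq [(1, 71), (2, -100), (3, -13), (5, -34), (7, 89)])) (.mul (.pp [(1, 4732272)])
 (.sq [(1, 21), (2, -38), (3, -19), (7, 50)])))) (.add (.mul (.g 12) (.mul (.g 12) (.mul (.g 12)
 (.pp [(1, 61123200000)])))) (.mul (.g 14) (.mul (.pp [(1, 5630400)]) (.sq [(1, 52), (2, -50), (3,
 100), (5, -46), (7, 11)]))))))))) (.add (.mul (.g 12) (.add (.add (.mul (.g 4) (.add (.mul (.g 4)
 (.add (.mul (.g 8) (.pp [(1, 2525520000000)])) (.mul (.g 10) (.pp [(1, 2191440000000)])))) (.mul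
 (.g 6) (.add (.pp [(1, 22699200000)]) (.mul (.g 3) (.pp [(1, 16365600000)])))))) (.mul (.g 9)
 (.mul (.pp [(1, 398424000)]) (.sq [(1, 57), (2, -7), (3, 100), (5, -89), (7, 17)])))) (.add (.mul
 (.g 11) (.mul (.pp [(1, 193272000)]) (.sq [(1, 33), (2, -7), (3, 100), (5, -1), (7, -87)]))) (.mul
 (.g 14) (.mul (.pp [(1, 759312000)]) (.sq [(1, 41), (2, -18), (3, 100), (5, -62), (7, -3)]))))))
 (.add (.mul (.g 9) (.add (.mul (.pp [(1, 2363424000)]) (.sq [(1, 50), (3, 100), (5, -84), (7,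
 43)])) (.mul (.g 9) (.mul (.pp [(1, 134280000)]) (.sq [(1, 15), (2, 32), (3, 100), (5, -44), (7,
 -50)]))))) (.mul (.g 14) (.add (.mul (.pp [(1, 2699712000)]) (.sq [(1, 21), (2, -2), (3, 100), (5,
 -54), (7, 14)])) (.mul (.g 14) (.mul (.pp [(1, 12048000)]) (.sq [(1, 33), (2, 6), (3, 100), (5,
 -71), (7, 19)])))))))) (.add (.add (.mul (.g 0) (.pp [(1, 48000000000)])) (.add (.mul (.g 1) (.pp
 [(1, 80000000000000)])) (.mul (.g 2) (.pp [(1, 80000000000000)])))) (.add (.mul (.g 4) (.mul (.g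
 10) (.mul (.pp [(1, 44856000)]) (.sq [(1, -36), (2, 100), (3, 45), (5, -12), (7, -90)])))) (.add
 (.mul (.g 7) (.mul (.g 7) (.mul (.pp [(1, 61545)]) (.sq [(1, 49), (2, -98), (3, -37), (5, -13),
 (7, 100)])))) (.mul (.g 17) (.pp [(1, 80000000000000)])))))) (.pp [(1, 91140704799), (2,
 2370734004), (3, 2575201434), (4, 2618934684), (5, 2430788586), (6, 2097801324), (7, 2367488904),
 (8, 2020933440), (9, 2010628743), (10, 2480292300), (12, 2570240640), (14, 2598247440), (15,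
 2270531022), (16, 2645952000), (18, 3064508880), (20, 2741764800), (21, 2176233048), (24,
 2380152000), (25, 2451498543), (27, 2365086800), (28, 2178456000), (30, 2404242720), (35,
 2350695624), (36, 2441112000), (40, 2329344000), (42, 2134270080), (45, 2705755200), (49,
 2376762888), (50, 2080955280), (54, 2261400000), (56, 2187576000), (60, 2004864000), (63,
 2569744800), (70, 2809415040), (75, 2218929600), (81, 2189496000), (84, 2802480000), (90,
 2221560000), (98, 2131750080), (100, 2651400000), (105, 2570740800), (125, 2371492800), (126,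
 2648688000), (135, 2236056000), (140, 2205744000), (147, 2500527600), (150, 2409024000), (175,
 2021198400), (189, 2204400000), (196, 2474352000), (210, 1772592000), (225, 2542200000), (245,
 2484364800), (250, 2308896000), (294, 2806752000), (315, 2407944000), (343, 2421000000), (350,
 2393400000), (375, 2582040000), (441, 2093736000), (490, 2267904000), (525, 2858784000), (625,
 2386032000), (686, 2568240000), (735, 2146008000), (875, 2568192000), (1029, 2307528000), (1225,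
 2581680000), (1715, 2350152000), (2401, 2400000000)])))))))
 (.split [(2, 1), (5, -1)]
 (.rule 1 (.rule 2 (.rule 7 (.leaf 48000000000 (.add (.add (.add (.add (.mul (.g 11) (.add (.add
 (.mul (.g 18) (.add (.add (.pp [(1, 23186880000000)]) (.add (.mul (.g 11) (.add (.add (.pp [(1,
 14509440000000)]) (.mul (.g 8) (.pp [(1, 157908480000000)]))) (.add (.mul (.g 10) (.pp [(1,
 732480000000)])) (.mul (.g 11) (.pp [(1, 4800000000)]))))) (.mul (.g 9) (.add (.pp [(1,
 18169440000000)]) (.mul (.g 9) (.pp [(1, 8650080000000)])))))) (.add (.mul (.g 10) (.add (.pp [(1,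
 162118080000000)]) (.mul (.g 10) (.pp [(1, 1246560000000)])))) (.add (.mul (.g 12) (.add (.mul (.g
 8) (.pp [(1, 5408160000000)])) (.mul (.g 18) (.pp [(1, 9571200000000)])))) (.mul (.g 4) (.mul (.g
 18) (.pp [(1, 4035360000000)]))))))) (.add (.mul (.g 11) (.add (.add (.mul (.g 8) (.add (.mul (.g
 3) (.pp [(1, 133209600000000)])) (.add (.mul (.g 10) (.pp [(1, 110640000000000)])) (.mul (.g 15)
 (.pp [(1, 1411536000000)]))))) (.mul (.g 15) (.add (.pp [(1, 8946864000000)]) (.mul (.g 9) (.pp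
 [(1, 25080000000)]))))) (.add (.mul (.g 6) (.mul (.g 12) (.pp [(1, 1559985600000)]))) (.mul (.g
 11) (.mul (.g 16) (.pp [(1, 7217760000000)])))))) (.mul (.g 10) (.add (.mul (.g 5) (.add (.mul (.g
 3) (.pp [(1, 3741350400000)])) (.mul (.g 12) (.pp [(1, 2829753600000)])))) (.mul (.g 10) (.add
 (.mul (.g 9) (.pp [(1, 209848800000000)])) (.mul (.g 16) (.pp [(1, 51569760000000)])))))))) (.add
 (.mul (.g 3) (.add (.pp [(1, 208078080000000)]) (.mul (.g 3) (.mul (.g 5) (.pp [(1,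
 754108800000)]))))) (.add (.mul (.g 15) (.add (.pp [(1, 3609960000000)]) (.mul (.pp [(1,
 31824000)]) (.sq [(1, 64), (2, 77), (3, 100), (5, -27), (7, -18)])))) (.mul (.g 7) (.pp [(1,
 746616000000)])))))) (.add (.mul (.g 10) (.add (.add (.mul (.g 3) (.add (.add (.pp [(1,
 186544320000000)]) (.mul (.pp [(1, 98208000)]) (.sq [(1, 5), (2, 35), (3, 100), (5, -64), (7,
 97)]))) (.add (.mul (.g 3) (.pp [(1, 117982560000000)])) (.mul (.g 8) (.pp [(1,
 3150720000000)]))))) (.add (.mul (.g 10) (.add (.mul (.g 10) (.add (.mul (.g 6) (.pp [(1,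
 21259200000)])) (.add (.mul (.g 12) (.pp [(1, 1474560000000)])) (.mul (.g 18) (.pp [(1,
 490560000000)]))))) (.mul (.g 18) (.pp [(1, 52861440000000)])))) (.mul (.g 8) (.mul (.g 18) (.add
 (.pp [(1, 79338240000000)]) (.mul (.g 8) (.pp [(1, 7563840000000)]))))))) (.add (.mul (.g 12)
 (.add (.mul (.g 4) (.mul (.g 12) (.pp [(1, 63165600000000)]))) (.mul (.g 15) (.pp [(1,
 6984432000000)])))) (.add (.mul (.g 6) (.pp [(1, 1015886400000)])) (.mul (.g 7) (.mul (.g 7) (.mul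
 (.g 7) (.pp [(1, 1065292500)])))))))) (.mul (.g 3) (.add (.add (.mul (.g 12) (.add (.pp [(1,
 6363360000000)]) (.mul (.pp [(1, 1330944000)]) (.sq [(1, 40), (2, -53), (3, -55), (5, 63), (7,
 100)])))) (.add (.mul (.g 3) (.mul (.g 14) (.pp [(1, 40847520000000)]))) (.mul (.g 4) (.pp [(1,
 95274240000000)])))) (.add (.add (.mul (.g 7) (.mul (.pp [(1, 36813600)]) (.sq [(1, 68), (2, 66),
 (3, 77), (5, -47), (7, -100)]))) (.mul (.g 9) (.pp [(1, 246498720000000)]))) (.add (.mul (.g 13)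
 (.mul (.pp [(1, 115152000)]) (.sq [(1, 5), (2, 83), (3, 100), (5, 15), (7, -86)]))) (.mul (.g 15)
 (.mul (.pp [(1, 1704000)]) (.sq [(1, -97), (2, -54), (5, 100)]))))))))) (.add (.add (.mul (.g 18)
 (.add (.add (.mul (.g 7) (.add (.mul (.g 7) (.mul (.g 9) (.pp [(1, 14823900000)]))) (.mul (.g 18)
 (.mul (.g 18) (.pp [(1, 21252000000)]))))) (.add (.mul (.g 8) (.mul (.g 8) (.add (.pp [(1,
 154690560000000)]) (.mul (.g 8) (.pp [(1, 38092800000000)]))))) (.mul (.g 4) (.pp [(1,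
 45914880000000)])))) (.add (.mul (.g 6) (.mul (.pp [(1, 2454720)]) (.sq [(1, 53), (2, 65), (3,
 28), (5, 37), (7, 100)]))) (.add (.mul (.g 13) (.mul (.pp [(1, 247632000)]) (.sq [(1, -15), (2,
 24), (3, 100), (5, -19), (7, -46)]))) (.mul (.g 14) (.mul (.pp [(1, 249792000)]) (.sq [(1, -34),
 (2, 22), (3, 100), (5, -18), (7, -3)]))))))) (.mul (.g 4) (.add (.add (.mul (.g 5) (.pp [(1,
 952636800000)])) (.mul (.g 8) (.pp [(1, 142267200000000)]))) (.add (.mul (.g 13) (.mul (.pp [(1,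
 105360000)]) (.sq [(1, 3), (2, 100), (3, -65), (5, -33), (7, -68)]))) (.mul (.g 15) (.pp [(1,
 11689512000000)])))))) (.add (.mul (.g 12) (.add (.mul (.g 7) (.mul (.g 7) (.mul (.g 7) (.pp [(1,
 153907500)])))) (.add (.mul (.g 14) (.mul (.pp [(1, 121248000)]) (.sq [(1, 24), (2, -69), (3,
 100), (5, -3), (7, -25)]))) (.mul (.g 15) (.pp [(1, 41328000000)]))))) (.mul (.g 5) (.add (.mul
 (.g 8) (.mul (.g 8) (.mul (.g 13) (.pp [(1, 882835200000)])))) (.mul (.g 15) (.mul (.pp [(1,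
 44784)]) (.sq [(1, -47), (2, 24), (3, -67), (5, 100), (7, 87)])))))))) (.add (.add (.mul (.g 0)
 (.pp [(1, 96000000000)])) (.add (.mul (.g 1) (.pp [(1, 160000000000000)])) (.mul (.g 2) (.pp [(1,
 160000000000000)])))) (.add (.add (.mul (.g 6) (.mul (.g 7) (.mul (.g 7) (.mul (.g 7) (.pp [(1,
 2305725)]))))) (.mul (.g 8) (.mul (.g 8) (.mul (.g 9) (.mul (.g 9) (.pp [(1,
 64244640000000)])))))) (.add (.mul (.g 14) (.mul (.g 15) (.mul (.pp [(1, 10586400)]) (.sq [(1,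
 100), (2, -56), (3, -18), (5, 58), (7, -37)])))) (.mul (.g 17) (.pp [(1, 160000000000000)]))))))
 (.pp [(1, 4559791062477), (2, 5266705212), (3, 4573310604), (4, 4598014368), (5, 4282509780), (6,
 4455832032), (7, 5032396896), (8, 4379274240), (9, 4427463312), (10, 4642734240), (12,
 5133645120), (14, 4827727488), (15, 5694430080), (16, 4754448000), (18, 4463647200), (20,
 5272056960), (21, 4762226496), (24, 4778736000), (25, 4921193280), (27, 5393667360), (28,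
 5082507840), (30, 4286322240), (35, 4480538880), (36, 5139408000), (40, 4423488000), (42,
 5752919040), (45, 5234992800), (49, 4476275952), (50, 5031376800), (54, 4857936000), (56,
 5108544000), (60, 5609712000), (63, 4792683840), (70, 4638332160), (75, 4596136320), (81,
 4660704000), (84, 4652064000), (90, 4704528000), (98, 4286720160), (100, 5111952000), (105,
 3724586880), (125, 4919932000), (126, 4482336000), (135, 4311360000), (140, 4179072000), (147,
 4977983040), (150, 4491168000), (175, 4459014720), (189, 4218528000), (196, 4723344000), (210,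
 3917376000), (225, 4660992000), (245, 5452671840), (250, 4332336000), (294, 4975728000), (315,
 5283552000), (343, 4972896000), (350, 5330640000), (375, 4868976000), (441, 4681728000), (490,
 5139168000), (525, 5958864000), (625, 4897776000), (686, 5080704000), (735, 4610544000), (875,
 4581744000), (1029, 4519296000), (1225, 4537488000), (1715, 4519296000), (2401, 4800000000)]))))))
 (.rule 1 (.rule 3 (.rule 7 (.leaf 2400000000 (.add (.add (.add (.add (.mul (.pp [(1, 145560000)])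
 (.sq [(1, -16), (2, -69), (3, 100), (5, -4), (7, 9)])) (.add (.mul (.g 13) (.add (.add (.add (.mul
 (.pp [(1, 13545600)]) (.sq [(1, 9), (2, 4), (3, 100), (5, -70), (7, 7)])) (.mul (.g 11) (.add
 (.add (.mul (.g 11) (.add (.add (.mul (.g 4) (.pp [(1, 252576000000)])) (.mul (.g 5) (.pp [(1,
 9245280000)]))) (.add (.mul (.g 14) (.pp [(1, 27504000000)])) (.mul (.g 18) (.pp [(1,
 107376000000)]))))) (.mul (.g 8) (.add (.mul (.g 4) (.pp [(1, 705360000000)])) (.add (.mul (.g 5)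
 (.pp [(1, 68448480000)])) (.mul (.g 15) (.pp [(1, 1119600000)])))))) (.add (.mul (.g 5) (.mul (.g
 9) (.pp [(1, 1386240000)]))) (.mul (.g 18) (.pp [(1, 59136000000)])))))) (.add (.mul (.g 10) (.add
 (.add (.mul (.pp [(1, 112800)]) (.sq [(1, 2), (2, -13), (3, 100), (5, -67), (7, 3)])) (.mul (.g
 10) (.add (.mul (.g 6) (.pp [(1, 142800000)])) (.add (.mul (.g 13) (.pp [(1, 264000000)])) (.mul
 (.g 18) (.pp [(1, 17448000000)])))))) (.add (.mul (.g 8) (.add (.mul (.g 8) (.pp [(1,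
 600000000)])) (.mul (.g 18) (.pp [(1, 325944000000)])))) (.mul (.g 7) (.pp [(1, 2061000000)])))))
 (.add (.mul (.g 9) (.add (.mul (.g 9) (.add (.mul (.g 5) (.pp [(1, 36789120000)])) (.mul (.g 9)
 (.pp [(1, 690216000000)])))) (.mul (.g 7) (.pp [(1, 272536200000)])))) (.mul (.g 18) (.add (.pp
 [(1, 35280000000)]) (.add (.mul (.g 6) (.mul (.g 6) (.pp [(1, 72000)]))) (.mul (.g 8) (.pp [(1,
 761760000000)])))))))) (.add (.add (.mul (.g 3) (.mul (.pp [(1, 369600)]) (.sq [(1, 38), (2, 17),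
 (3, -54), (5, 1), (7, 100)]))) (.add (.mul (.g 5) (.mul (.g 5) (.pp [(1, 2510630400)]))) (.mul (.g
 6) (.mul (.g 6) (.mul (.g 6) (.pp [(1, 278568)])))))) (.add (.mul (.g 7) (.pp [(1, 44185200000)]))
 (.add (.mul (.g 8) (.mul (.g 8) (.pp [(1, 4612872000000)]))) (.mul (.g 13) (.pp [(1,
 3768000000)]))))))) (.mul (.g 11) (.add (.add (.mul (.g 18) (.add (.add (.mul (.g 8) (.add (.add
 (.pp [(1, 1773000000000)]) (.mul (.g 6) (.pp [(1, 15202800000)]))) (.add (.mul (.g 11) (.pp [(1,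
 3880464000000)])) (.mul (.g 12) (.pp [(1, 9673992000000)]))))) (.mul (.g 7) (.add (.pp [(1,
 13901400000)]) (.mul (.g 11) (.pp [(1, 112668000000)]))))) (.add (.mul (.g 5) (.pp [(1,
 9993120000)])) (.mul (.g 11) (.mul (.g 11) (.pp [(1, 33096000000)])))))) (.mul (.g 5) (.add (.mul
 (.g 5) (.add (.mul (.g 3) (.pp [(1, 234720000)])) (.add (.mul (.g 11) (.pp [(1, 256377600)]))
 (.mul (.g 12) (.pp [(1, 1693046400)]))))) (.mul (.g 7) (.add (.mul (.g 6) (.pp [(1, 7488600)]))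
 (.mul (.g 11) (.pp [(1, 1700148000)]))))))) (.add (.mul (.g 4) (.mul (.g 7) (.add (.mul (.g 9)
 (.pp [(1, 328724400000)])) (.mul (.g 11) (.pp [(1, 85156800000)]))))) (.add (.mul (.g 11) (.mul
 (.pp [(1, 6900000)]) (.sq [(1, 43), (2, 49), (3, 100), (5, -12), (7, -69)]))) (.mul (.g 14) (.mul
 (.pp [(1, 6835200)]) (.sq [(1, -1), (2, -25), (3, 100), (5, 21), (7, -55)]))))))))) (.add (.mul
 (.g 5) (.add (.mul (.g 4) (.add (.add (.mul (.g 5) (.add (.pp [(1, 2884099200)]) (.add (.mul (.g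
 6) (.pp [(1, 3940320)])) (.mul (.g 10) (.pp [(1, 1241126400)]))))) (.mul (.g 4) (.mul (.g 10) (.pp
 [(1, 15412800000)])))) (.add (.mul (.g 7) (.mul (.g 12) (.pp [(1, 72888000)]))) (.mul (.g 18) (.pp
 [(1, 73242720000)]))))) (.add (.mul (.g 5) (.add (.mul (.g 5) (.add (.pp [(1, 10052160)]) (.mul
 (.g 9) (.pp [(1, 25881408)])))) (.mul (.g 8) (.mul (.g 8) (.pp [(1, 541219200)]))))) (.mul (.g 7)
 (.mul (.g 7) (.mul (.g 7) (.pp [(1, 347505)]))))))) (.add (.mul (.g 10) (.add (.add (.mul (.pp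
 [(1, 315909600)]) (.sq [(1, -14), (2, -88), (3, 100), (5, -3), (7, 8)])) (.mul (.pp [(1,
 20808000)]) (.sq [(1, 18), (2, -20), (3, 100), (5, -49), (7, -2)]))) (.add (.mul (.g 18) (.add
 (.mul (.pp [(1, 144333600)]) (.sq [(1, -22), (2, -80), (3, 100), (5, 6), (7, -31)])) (.mul (.pp
 [(1, 8373600)]) (.sq [(1, 12), (2, -33), (3, 100), (5, -43), (7, -11)])))) (.add (.mul (.g 12)
 (.mul (.pp [(1, 117600)]) (.sq [(1, -15), (2, -95), (3, 100), (7, 7)]))) (.mul (.g 16) (.mul (.pp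
 [(1, 9405600)]) (.sq [(1, 7), (2, -26), (3, 100), (5, -37), (7, 3)]))))))) (.mul (.g 7) (.add
 (.mul (.g 18) (.add (.mul (.pp [(1, 5796840)]) (.sq [(1, -10), (2, 26), (3, 100), (5, -41), (7,
 20)])) (.add (.mul (.g 6) (.mul (.g 6) (.pp [(1, 2295000)]))) (.mul (.g 7) (.mul (.g 7) (.pp [(1,
 22134375)])))))) (.mul (.g 4) (.mul (.g 4) (.pp [(1, 118855800000)])))))))) (.add (.add (.mul (.g
 0) (.pp [(1, 4800000000)])) (.add (.mul (.g 1) (.pp [(1, 8000000000000)])) (.mul (.g 2) (.pp [(1,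
 8000000000000)])))) (.add (.add (.mul (.g 3) (.mul (.pp [(1, 197224800)]) (.sq [(1, -20), (2,
 -79), (3, 100), (5, 6), (7, 4)]))) (.mul (.g 4) (.mul (.g 8) (.mul (.g 8) (.mul (.g 8) (.pp [(1,
 314544000000)])))))) (.add (.mul (.g 12) (.mul (.pp [(1, 528000)]) (.sq [(1, -19), (2, -64), (3,
 100), (5, 2), (7, 6)]))) (.mul (.g 17) (.pp [(1, 8000000000000)])))))) (.pp [(1, 1884033408), (2,
 215122008), (3, 256706811), (4, 230799840), (5, 259340712), (6, 242340600), (7, 251633625), (8,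
 250599200), (9, 256768800), (10, 272493120), (12, 230806560), (14, 221661000), (15, 241034400),
 (16, 250814400), (18, 309984000), (20, 250324800), (21, 226424400), (24, 225153600), (25,
 235198440), (27, 169440000), (28, 230508960), (30, 227054880), (35, 234050400), (36, 227059200),
 (40, 241214400), (42, 306432000), (45, 222456000), (49, 234451200), (50, 240288000), (54,
 194246400), (56, 227193600), (60, 251006400), (63, 244440000), (70, 264456480), (75, 216083160),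
 (81, 288000000), (84, 250944000), (90, 236544000), (98, 253348800), (100, 240616800), (105,
 230884800), (125, 235420800), (126, 214080000), (135, 261753600), (140, 263445600), (147,
 237326400), (150, 220099200), (175, 229235160), (189, 240000000), (196, 234444000), (210,
 206073600), (225, 248236800), (245, 256653600), (250, 229965600), (294, 231840000), (315,
 233280000), (343, 237864000), (350, 216172800), (375, 254354400), (441, 211200000), (490,
 258220800), (525, 263054400), (625, 242728800), (686, 243720000), (735, 217732800), (875,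
 245047200), (1029, 263520000), (1225, 226053600), (1715, 238915200), (2401, 245100000)]))))))))
 (.rule 5 (.cut 450 [(2, -1), (5, 1)] (.add (.mul (.g 10) (.pp [(1, 310)])) (.add (.mul (.g 11)
 (.pp [(1, 7)])) (.mul (.g 1) (.pp [(1, 9)])))) (.rule 3 (.leaf 600000000 (.add (.add (.add (.add
 (.mul (.g 16) (.add (.add (.add (.mul (.g 9) (.add (.add (.mul (.pp [(1, 6915000)]) (.sq [(1,
 -40), (2, -45), (3, 100), (5, -65), (7, 56)])) (.add (.mul (.pp [(1, 13363200)]) (.sq [(1, -52),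
 (2, 82), (3, -40), (5, 100), (7, 11)])) (.mul (.g 5) (.add (.add (.mul (.g 8) (.pp [(1,
 12141750000)])) (.mul (.g 9) (.pp [(1, 48296100000)]))) (.add (.mul (.g 10) (.pp [(1,
 22237650000)])) (.mul (.g 11) (.pp [(1, 26922300000)]))))))) (.add (.mul (.g 9) (.add (.mul (.g 7)
 (.pp [(1, 56352000000)])) (.mul (.g 16) (.pp [(1, 22230000000)])))) (.add (.mul (.g 10) (.add
 (.mul (.g 6) (.pp [(1, 1381344000000)])) (.mul (.g 16) (.pp [(1, 21456000000)])))) (.mul (.g 8)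
 (.mul (.g 11) (.pp [(1, 80052000000)]))))))) (.mul (.g 6) (.add (.mul (.g 3) (.add (.pp [(1,
 2669160000)]) (.mul (.g 8) (.pp [(1, 36034800000)])))) (.add (.mul (.g 6) (.add (.mul (.g 6) (.pp
 [(1, 354366000000)])) (.mul (.g 7) (.pp [(1, 1927482000000)])))) (.mul (.g 8) (.mul (.g 11) (.pp
 [(1, 205788000000)]))))))) (.add (.mul (.g 5) (.add (.add (.mul (.pp [(1, 627000)]) (.sq [(1,
 -69), (2, 100), (3, 8), (5, -44), (7, -96)])) (.mul (.g 3) (.pp [(1, 752184000)]))) (.add (.mul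
 (.g 5) (.mul (.g 8) (.pp [(1, 358406250)]))) (.mul (.g 11) (.pp [(1, 16240950000)]))))) (.add
 (.mul (.g 7) (.add (.mul (.g 3) (.mul (.g 8) (.pp [(1, 2965080000)]))) (.mul (.g 7) (.mul (.g 7)
 (.pp [(1, 118692000000)]))))) (.mul (.g 11) (.add (.mul (.pp [(1, 15732000)]) (.sq [(1, -1), (2,
 9), (3, -38), (5, 50), (7, 12)])) (.mul (.g 10) (.mul (.g 13) (.pp [(1, 557100000)])))))))) (.add
 (.add (.mul (.g 14) (.add (.mul (.pp [(1, 9640200)]) (.sq [(1, 12), (2, 48), (3, 31), (5, -41),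
 (7, 100)])) (.mul (.pp [(1, 39781200)]) (.sq [(1, 4), (2, 100), (3, -75), (5, -2), (7, -10)]))))
 (.mul (.g 4) (.mul (.pp [(1, 16626)]) (.sq [(1, -100), (2, 36), (3, 63), (5, 63), (7, 63)]))))
 (.add (.mul (.g 12) (.mul (.pp [(1, 2456400)]) (.sq [(1, -71), (2, 34), (3, -42), (5, 100), (7,
 -73)]))) (.add (.mul (.g 13) (.mul (.pp [(1, 20790)]) (.sq [(1, 100), (2, -3), (3, 20), (5, -87),
 (7, 7)]))) (.mul (.g 16) (.mul (.pp [(1, 10156800)]) (.sq [(1, -39), (2, 4), (3, -34), (5, 50),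
 (7, -10)])))))))) (.mul (.g 7) (.add (.add (.mul (.g 11) (.add (.add (.mul (.pp [(1, 20227800)])
 (.sq [(1, 12), (2, 100), (3, 8), (5, -31), (7, 81)])) (.add (.mul (.pp [(1, 10230600)]) (.sq [(1,
 35), (2, 42), (3, 100), (5, 15), (7, -88)])) (.mul (.g 9) (.add (.add (.mul (.g 6) (.pp [(1,
 130752000000)])) (.mul (.g 7) (.pp [(1, 207624000000)]))) (.add (.mul (.g 8) (.pp [(1,
 14808000000)])) (.mul (.g 13) (.pp [(1, 5086500000)]))))))) (.add (.mul (.g 5) (.pp [(1,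
 81834750000)])) (.add (.mul (.g 6) (.mul (.g 6) (.pp [(1, 250002000000)]))) (.mul (.g 7) (.mul (.g
 7) (.pp [(1, 62976000000)]))))))) (.mul (.g 3) (.add (.mul (.g 6) (.add (.mul (.g 7) (.pp [(1,
 48450600000)])) (.add (.mul (.g 9) (.pp [(1, 17221320000)])) (.mul (.g 14) (.pp [(1,
 48713760000)]))))) (.add (.mul (.g 3) (.add (.pp [(1, 252880800)]) (.mul (.g 8) (.pp [(1,
 45436800)])))) (.mul (.g 8) (.mul (.g 9) (.pp [(1, 2729280000)]))))))) (.add (.mul (.g 5) (.add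
 (.mul (.pp [(1, 2121495)]) (.sq [(1, -52), (2, -4), (3, -48), (5, 100), (7, -85)])) (.mul (.g 10)
 (.add (.mul (.g 5) (.pp [(1, 149902500)])) (.mul (.g 9) (.pp [(1, 13759350000)])))))) (.mul (.g 7)
 (.add (.mul (.pp [(1, 4168200)]) (.sq [(1, 19), (2, 100), (3, 63), (5, -43), (7, -43)])) (.mul (.g
 9) (.mul (.g 9) (.pp [(1, 96696000000)]))))))))) (.add (.mul (.g 5) (.add (.mul (.g 10) (.add
 (.add (.mul (.pp [(1, 307845)]) (.sq [(1, 29), (2, -78), (5, -96), (7, 100)])) (.mul (.g 6) (.add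
 (.mul (.g 6) (.pp [(1, 2672250000)])) (.mul (.g 11) (.pp [(1, 15916800000)]))))) (.add (.mul (.g
 10) (.add (.mul (.g 5) (.pp [(1, 250500000)])) (.mul (.g 9) (.pp [(1, 27750000)])))) (.mul (.g 8)
 (.mul (.g 11) (.pp [(1, 2527050000)])))))) (.add (.mul (.g 3) (.add (.mul (.g 8) (.add (.mul (.g
 8) (.pp [(1, 10356000)])) (.mul (.g 13) (.pp [(1, 26851200)])))) (.mul (.g 13) (.pp [(1,
 5247450)])))) (.mul (.g 11) (.add (.mul (.g 8) (.mul (.g 11) (.pp [(1, 6750000)]))) (.mul (.g 9)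
 (.mul (.g 13) (.pp [(1, 185362500)])))))))) (.mul (.g 3) (.add (.add (.mul (.g 3) (.add (.mul (.g
 6) (.mul (.g 6) (.pp [(1, 565615200)]))) (.mul (.g 9) (.mul (.g 9) (.pp [(1, 23608800)]))))) (.mul
 (.g 8) (.mul (.g 8) (.mul (.g 11) (.pp [(1, 140520000)]))))) (.add (.mul (.g 9) (.mul (.pp [(1,
 23580)]) (.sq [(1, -40), (2, -42), (3, 77), (5, 100), (7, -60)]))) (.mul (.g 10) (.mul (.pp [(1,
 591540)]) (.sq [(1, 37), (2, 60), (3, 100), (5, -10), (7, -38)])))))))) (.add (.add (.mul (.g 11)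
 (.add (.mul (.g 11) (.add (.mul (.pp [(1, 501000)]) (.sq [(1, -7), (2, 86), (3, -14), (5, 100),
 (7, -76)])) (.mul (.g 10) (.mul (.g 13) (.pp [(1, 417900000)]))))) (.add (.mul (.g 6) (.mul (.g 6)
 (.mul (.g 6) (.pp [(1, 326976000000)])))) (.mul (.g 12) (.mul (.pp [(1, 507000)]) (.sq [(1, 97),
 (2, -7), (3, 45), (5, -100), (7, -40)])))))) (.mul (.g 0) (.pp [(1, 2000000000000)]))) (.add (.mul
 (.g 2) (.pp [(1, 2000000000000)])) (.mul (.g 15) (.pp [(1, 2000000000000)]))))) (.pp [(1,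
 161163675), (2, 51438795), (3, 58838280), (4, 54352926), (5, 59862390), (6, 71606436), (7,
 54894060), (8, 64736220), (9, 65653854), (10, 82900716), (12, 67926154), (14, 69671736), (15,
 53162478), (16, 64606200), (18, 55906264), (19, 6000000000000), (20, 61762080), (21, 65459928),
 (24, 47320200), (25, 51599124), (27, 52311066), (28, 59195394), (30, 40608564), (35, 72851598),
 (36, 54501000), (40, 55174800), (42, 49168068), (45, 64889772), (49, 61828284), (50, 44048280),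
 (54, 58574400), (56, 56663400), (60, 67601400), (63, 49263618), (70, 51265764), (75, 69070596),
 (81, 62271600), (84, 64279200), (90, 65481600), (98, 53297124), (100, 62227800), (105, 48910524),
 (125, 66799800), (126, 66466800), (135, 59143200), (140, 57537000), (147, 58754943), (150,
 63750600), (175, 57581796), (189, 64867800), (196, 65092200), (210, 62708400), (225, 61575000),
 (245, 45468552), (250, 60600000), (294, 63871800), (315, 63062400), (343, 64792596), (350,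
 70049400), (375, 55791000), (441, 64176000), (490, 56641200), (525, 68752800), (625, 60000000),
 (686, 60315000), (735, 63333600), (875, 52390200), (1029, 55329600), (1225, 73014600), (1715,
 59761800), (2401, 56707200)])))))))))
 (P_Op0 ++ xP_A_F3) = true := by decide +kernel

theorem t_A_F7_c1 : chk RFp gP_A_F7
 (.cut 50 [(2, 1), (3, -1)] (.add (.add (.mul (.g 8) (.pp [(1, 45)])) (.mul (.g 7) (.pp [(1, 2)])))
 (.add (.mul (.g 2) (.pp [(1, 5)])) (.mul (.g 9) (.pp [(1, 9)])))) (.rule 0 (.cut 60 [(2, -1), (5,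
 1)] (.add (.add (.mul (.g 11) (.pp [(1, 11)])) (.mul (.g 9) (.pp [(1, 3)]))) (.add (.mul (.g 1)
 (.pp [(1, 5)])) (.mul (.g 6) (.pp [(1, 5)])))) (.rule 3 (.leaf 30000000 (.add (.add (.add (.add
 (.mul (.g 5) (.add (.add (.add (.mul (.g 4) (.add (.add (.mul (.g 4) (.add (.mul (.g 8) (.pp [(1,
 50799900000)])) (.add (.mul (.g 9) (.pp [(1, 13189800000)])) (.mul (.g 13) (.pp [(1,
 7615020000)]))))) (.mul (.g 5) (.add (.mul (.g 7) (.pp [(1, 11030400000)])) (.mul (.g 12) (.pp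
 [(1, 19718400000)]))))) (.add (.mul (.g 7) (.mul (.g 8) (.pp [(1, 24473700000)]))) (.add (.mul (.g
 9) (.pp [(1, 19063200000)])) (.mul (.g 12) (.pp [(1, 150833550000)])))))) (.mul (.g 13) (.add
 (.add (.pp [(1, 18435360000)]) (.mul (.g 13) (.add (.add (.mul (.g 5) (.pp [(1, 3055224000)]))
 (.mul (.g 6) (.pp [(1, 2467836000)]))) (.add (.mul (.g 13) (.pp [(1, 104647200)])) (.mul (.g 15)
 (.pp [(1, 584880000)])))))) (.add (.mul (.g 6) (.mul (.g 10) (.pp [(1, 5424480000)]))) (.mul (.g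
 7) (.mul (.g 15) (.pp [(1, 4131000000)]))))))) (.add (.mul (.g 7) (.add (.mul (.g 15) (.add (.mul
 (.g 6) (.pp [(1, 34246500000)])) (.add (.mul (.g 7) (.pp [(1, 25692600000)])) (.mul (.g 12) (.pp
 [(1, 60752250000)]))))) (.add (.mul (.g 6) (.mul (.g 8) (.pp [(1, 593400000)]))) (.mul (.g 7)
 (.mul (.g 12) (.pp [(1, 30466050000)])))))) (.mul (.g 8) (.add (.pp [(1, 81741600000)]) (.add
 (.mul (.pp [(1, 4235850)]) (.sq [(1, -14), (2, -11), (3, -28), (5, -2), (7, 100)])) (.mul (.g 5)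
 (.mul (.g 5) (.pp [(1, 76124700000)])))))))) (.add (.add (.mul (.g 5) (.mul (.g 5) (.mul (.g 9)
 (.pp [(1, 31168200000)])))) (.mul (.g 6) (.mul (.pp [(1, 45150)]) (.sq [(1, 12), (2, 85), (3,
 100), (5, -81), (7, -8)])))) (.add (.mul (.g 12) (.mul (.g 12) (.pp [(1, 5811750000)]))) (.mul (.g
 15) (.mul (.pp [(1, 1469760)]) (.sq [(1, -25), (2, 25), (3, -83), (5, 100), (7, 41)]))))))) (.mul
 (.g 15) (.add (.add (.mul (.g 7) (.add (.add (.mul (.pp [(1, 1188150)]) (.sq [(2, 31), (3, -24),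
 (5, 100), (7, 67)])) (.mul (.g 7) (.add (.mul (.g 9) (.pp [(1, 17322000000)])) (.add (.mul (.g 12)
 (.pp [(1, 21855150000)])) (.mul (.g 15) (.pp [(1, 5330700000)])))))) (.add (.mul (.g 15) (.add
 (.mul (.g 6) (.pp [(1, 12515400000)])) (.mul (.g 12) (.pp [(1, 23546550000)])))) (.add (.mul (.g
 4) (.pp [(1, 106734900000)])) (.mul (.g 9) (.mul (.g 13) (.pp [(1, 5465340000)]))))))) (.add (.mul
 (.g 6) (.add (.mul (.g 6) (.add (.mul (.g 6) (.pp [(1, 2815800000)])) (.add (.mul (.g 12) (.pp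
 [(1, 7237650000)])) (.mul (.g 13) (.pp [(1, 5349840000)]))))) (.mul (.g 12) (.pp [(1,
 12862650000)])))) (.mul (.g 8) (.add (.mul (.pp [(1, 760950)]) (.sq [(1, -100), (2, 21), (3, 61),
 (5, 94), (7, 94)])) (.mul (.pp [(1, 885690)]) (.sq [(1, 100), (2, -88), (3, 10), (5, -31), (7,
 30)])))))) (.add (.add (.mul (.g 12) (.add (.mul (.pp [(1, 474660)]) (.sq [(1, 82), (2, 67), (3,
 -3), (5, 100), (7, -2)])) (.mul (.g 4) (.pp [(1, 19989600000)])))) (.mul (.g 13) (.add (.pp [(1,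
 17853000000)]) (.mul (.pp [(1, 338724)]) (.sq [(2, 100), (3, 83), (5, -59), (7, -96)]))))) (.add
 (.mul (.g 10) (.mul (.pp [(1, 530460)]) (.sq [(2, -33), (3, 100), (5, 33), (7, 33)]))) (.mul (.g
 11) (.mul (.pp [(1, 68772)]) (.sq [(1, 27), (2, -32), (3, 100), (5, 78), (7, -87)])))))))) (.add
 (.mul (.g 8) (.add (.add (.mul (.g 12) (.add (.add (.mul (.pp [(1, 600405)]) (.sq [(1, 28), (2,
 100), (3, 11), (5, 64), (7, -13)])) (.mul (.g 4) (.add (.mul (.g 4) (.pp [(1, 3459150000)])) (.mul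
 (.g 6) (.pp [(1, 90600000)]))))) (.add (.mul (.g 7) (.add (.pp [(1, 15475650000)]) (.mul (.g 9)
 (.pp [(1, 6235200000)])))) (.mul (.g 6) (.mul (.g 13) (.pp [(1, 1487430000)])))))) (.add (.mul (.g
 7) (.add (.mul (.pp [(1, 918420)]) (.sq [(1, -37), (2, 50), (3, 67), (5, 100), (7, -48)])) (.mul
 (.g 7) (.add (.mul (.g 9) (.pp [(1, 3991500000)])) (.mul (.g 13) (.pp [(1, 12608580000)]))))))
 (.mul (.g 8) (.add (.mul (.pp [(1, 2531520)]) (.sq [(1, -44), (2, 100), (3, 53), (5, 18), (7,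
 10)])) (.mul (.pp [(1, 79440)]) (.sq [(1, 40), (2, -2), (3, 100), (5, -62), (7, -91)])))))) (.add
 (.add (.mul (.g 10) (.add (.mul (.pp [(1, 656040)]) (.sq [(1, -31), (2, 11), (3, -24), (5, -24),
 (7, 100)])) (.mul (.g 11) (.pp [(1, 25980000)])))) (.mul (.g 4) (.mul (.g 4) (.mul (.g 4) (.pp
 [(1, 6470100000)]))))) (.add (.mul (.g 6) (.mul (.pp [(1, 372660)]) (.sq [(1, 83), (2, -84), (3,
 -28), (5, -75), (7, 100)]))) (.mul (.g 11) (.pp [(1, 2669880000)])))))) (.mul (.g 11) (.add (.mul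
 (.g 13) (.add (.pp [(1, 286311000)]) (.add (.mul (.g 6) (.add (.mul (.g 6) (.pp [(1, 5151000)]))
 (.mul (.g 13) (.pp [(1, 65256000)])))) (.mul (.g 4) (.pp [(1, 332193000)]))))) (.mul (.g 12) (.add
 (.mul (.pp [(1, 78)]) (.sq [(1, 17), (2, -20), (3, 7), (5, 44), (7, 50)])) (.mul (.g 7) (.mul (.g
 7) (.pp [(1, 324120000)]))))))))) (.add (.add (.mul (.g 0) (.pp [(1, 100000000000)])) (.mul (.g 2)
 (.pp [(1, 100000000000)]))) (.add (.mul (.g 7) (.mul (.g 12) (.mul (.pp [(1, 124125)]) (.sq [(1,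
 22), (2, -27), (3, 97), (5, 42), (7, -100)])))) (.mul (.g 14) (.pp [(1, 20000000)]))))) (.pp [(1,
 33204372), (2, 2998932), (3, 3124470), (4, 3232962), (5, 2816598), (6, 2769396), (7, 3153024), (8,
 2984370), (9, 3172422), (10, 3240828), (12, 2451888), (14, 2885268), (15, 2811348), (16, 2849400),
 (18, 2884476), (20, 2500800), (21, 2034012), (24, 2921880), (25, 3221382), (27, 2729869), (28,
 2901528), (30, 4140720), (35, 2765484), (36, 3428670), (40, 3090600), (42, 4017036), (45,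
 2758923), (49, 2776668), (50, 2801214), (54, 3215565), (56, 2899260), (60, 3067290), (63,
 3716424), (70, 3784956), (75, 2776242), (81, 3132960), (84, 3064335), (90, 2623275), (98,
 3228846), (100, 3302880), (105, 3220278), (125, 2704128), (126, 2634420), (135, 3036180), (140,
 3199005), (147, 3233373), (150, 2784990), (175, 3508506), (189, 2940885), (196, 3175200), (210,
 1750380), (225, 3151200), (245, 2787345), (250, 3026580), (294, 2984955), (315, 3375885), (343,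
 3173526), (350, 2208870), (375, 3270030), (441, 2677140), (490, 2998275), (525, 3069480), (625,
 3020160), (686, 2860560), (735, 2875980), (875, 3218400), (1029, 3107250), (1225, 2884200), (1715,
 2937660), (2401, 2905350)])))))))
 (P_c1 ++ xP_A_F7) = true := by decide +kernel

theorem t_A_T2_free : chk RFp gP_A_T2
 (.split [(1, 1), (2, -20)]
 (.rule 4 (.leaf 6000 (.add (.add (.mul (.g 2) (.add (.add (.mul (.g 3) (.add (.add (.mul (.g 1)
 (.add (.add (.pp [(1, 1690827)]) (.mul (.g 2) (.pp [(1, 30)]))) (.add (.mul (.g 3) (.pp [(1,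
 565386)])) (.add (.mul (.g 4) (.pp [(1, 30)])) (.mul (.g 5) (.pp [(1, 565356)])))))) (.mul (.g 3)
 (.add (.add (.pp [(1, 26909700)]) (.mul (.g 3) (.pp [(1, 11306520)]))) (.add (.mul (.g 5) (.pp
 [(1, 11305920)])) (.mul (.g 9) (.pp [(1, 565356)])))))) (.add (.mul (.g 5) (.add (.pp [(1,
 12580860)]) (.add (.mul (.g 5) (.pp [(1, 5766000)])) (.mul (.g 9) (.pp [(1, 565326)]))))) (.add
 (.mul (.g 4) (.mul (.g 4) (.pp [(1, 600)]))) (.mul (.g 9) (.pp [(1, 2387217)])))))) (.add (.mul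
 (.g 4) (.add (.add (.mul (.g 1) (.add (.add (.pp [(1, 47460)]) (.mul (.g 2) (.pp [(1, 30)])))
 (.add (.mul (.g 4) (.pp [(1, 60)])) (.mul (.g 5) (.pp [(1, 30)]))))) (.mul (.g 11) (.add (.add
 (.pp [(1, 2623140)]) (.mul (.g 4) (.pp [(1, 600)]))) (.add (.mul (.g 5) (.pp [(1, 11307120)]))
 (.mul (.g 11) (.pp [(1, 11306520)])))))) (.add (.mul (.g 4) (.add (.pp [(1, 947040)]) (.mul (.g 9)
 (.pp [(1, 30)])))) (.mul (.g 9) (.pp [(1, 47427)]))))) (.mul (.g 2) (.add (.mul (.g 1) (.add (.mul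
 (.g 2) (.pp [(1, 36330)])) (.mul (.g 5) (.pp [(1, 1081830)])))) (.add (.mul (.g 2) (.pp [(1,
 23843040)])) (.mul (.g 5) (.mul (.g 5) (.pp [(1, 14351400)])))))))) (.add (.mul (.g 11) (.add
 (.mul (.g 5) (.add (.pp [(1, 34667220)]) (.mul (.g 5) (.pp [(1, 5766600)])))) (.add (.mul (.g 9)
 (.pp [(1, 696423)])) (.mul (.g 11) (.pp [(1, 1252020)]))))) (.add (.mul (.g 1) (.pp [(1,
 922458)])) (.mul (.g 9) (.pp [(1, 23808)])))))) (.add (.mul (.g 0) (.pp [(1, 20000000)])) (.mul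
 (.g 10) (.pp [(1, 20000000)])))) (.pp [(2, 253443), (4, 540), (6, 687), (8, 630), (10, 657), (12,
 630), (14, 627), (16, 600), (18, 570), (20, 630), (24, 600), (28, 630), (30, 570), (36, 600), (40,
 600), (42, 570), (50, 570), (54, 600), (56, 600), (60, 600), (70, 570), (84, 600), (90, 600), (98,
 600), (100, 600), (126, 600), (140, 600), (150, 600), (196, 600), (210, 600), (250, 600), (294,
 600), (350, 600), (490, 600), (686, 600)]))))
 (.split [(2, 1), (3, -1)]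
 (.split [(2, 1), (5, -1)]
 (.rule 0 (.rule 2 (.leaf 300000000 (.add (.add (.add (.add (.mul (.g 6) (.add (.add (.mul (.g 2)
 (.add (.add (.mul (.pp [(1, 16951200)]) (.sq [(1, 5), (2, -2), (3, 50), (5, -29), (7, -40)]))
 (.add (.mul (.g 3) (.add (.add (.mul (.g 2) (.pp [(1, 929466000000)])) (.mul (.g 3) (.pp [(1,
 337845000000)]))) (.add (.mul (.g 7) (.pp [(1, 914649000000)])) (.mul (.g 8) (.pp [(1,
 623271000000)]))))) (.mul (.g 6) (.add (.mul (.g 2) (.pp [(1, 702291000000)])) (.add (.mul (.g 7)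
 (.pp [(1, 886410000000)])) (.mul (.g 8) (.pp [(1, 482493000000)]))))))) (.add (.mul (.g 5) (.pp
 [(1, 298593000000)])) (.add (.mul (.g 7) (.mul (.g 12) (.pp [(1, 316800000)]))) (.mul (.g 8) (.pp
 [(1, 36876000000)])))))) (.add (.mul (.g 3) (.add (.mul (.g 3) (.add (.pp [(1, 884811000000)])
 (.add (.mul (.g 6) (.pp [(1, 255999000000)])) (.mul (.g 7) (.pp [(1, 839283000000)]))))) (.add
 (.mul (.g 8) (.add (.pp [(1, 373197000000)]) (.mul (.g 12) (.pp [(1, 1970700000)])))) (.mul (.g 4)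
 (.mul (.g 6) (.pp [(1, 18271800000)])))))) (.mul (.g 14) (.add (.mul (.g 7) (.add (.mul (.g 8)
 (.pp [(1, 305091000000)])) (.mul (.g 14) (.pp [(1, 38247000000)])))) (.add (.mul (.g 6) (.mul (.g
 6) (.pp [(1, 17466000000)]))) (.mul (.g 8) (.mul (.g 8) (.pp [(1, 183051000000)])))))))) (.add
 (.mul (.g 12) (.add (.pp [(1, 7176000000)]) (.add (.mul (.g 5) (.pp [(1, 9383100000)])) (.mul (.g
 6) (.mul (.g 6) (.pp [(1, 16736550000)])))))) (.add (.mul (.g 4) (.mul (.g 8) (.mul (.g 9) (.pp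
 [(1, 72894750000)])))) (.mul (.g 6) (.mul (.pp [(1, 16713600)]) (.sq [(1, 68), (2, -33), (3, 20),
 (5, -53), (7, 100)]))))))) (.mul (.g 14) (.add (.add (.mul (.g 8) (.add (.add (.mul (.pp [(1,
 3402000)]) (.sq [(1, 50), (2, 31), (3, 41), (5, 41), (7, 41)])) (.mul (.g 5) (.add (.pp [(1,
 338529000000)]) (.mul (.g 9) (.pp [(1, 674073000000)]))))) (.add (.mul (.g 2) (.mul (.g 2) (.pp
 [(1, 19056000000)]))) (.add (.mul (.g 4) (.pp [(1, 25472100000)])) (.mul (.g 9) (.mul (.g 14) (.pp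
 [(1, 12180000000)]))))))) (.add (.mul (.g 3) (.add (.add (.pp [(1, 27348000000)]) (.mul (.pp [(1,
 432300)]) (.sq [(1, 100), (2, 1), (3, -7), (5, -15), (7, 87)]))) (.add (.mul (.pp [(1, 19501800)])
 (.sq [(1, 11), (2, -2), (3, -52), (5, 70), (7, 100)])) (.mul (.g 9) (.mul (.g 14) (.pp [(1,
 51306000000)])))))) (.mul (.g 4) (.add (.mul (.pp [(1, 221325)]) (.sq [(1, 91), (2, 14), (3, 15),
 (5, -16), (7, 100)])) (.add (.mul (.g 4) (.add (.mul (.g 5) (.pp [(1, 1989352500)])) (.mul (.g 14)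
 (.pp [(1, 497422500)])))) (.mul (.g 9) (.mul (.g 9) (.pp [(1, 8132400000)])))))))) (.add (.mul (.g
 2) (.add (.mul (.pp [(1, 1145700)]) (.sq [(1, -53), (2, 34), (3, 13), (5, 63), (7, 100)])) (.add
 (.mul (.g 5) (.pp [(1, 58890000000)])) (.mul (.g 7) (.mul (.g 14) (.pp [(1, 149349000000)]))))))
 (.add (.mul (.g 7) (.add (.mul (.g 7) (.mul (.g 14) (.pp [(1, 167112000000)]))) (.mul (.g 9) (.mul
 (.g 9) (.pp [(1, 13500000000)]))))) (.mul (.g 12) (.mul (.pp [(1, 993150)]) (.sq [(1, 38), (2,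
 100), (3, 43), (5, -13), (7, 18)])))))))) (.add (.mul (.g 2) (.add (.add (.mul (.g 2) (.add (.mul
 (.g 8) (.add (.mul (.g 3) (.pp [(1, 47346000000)])) (.mul (.g 10) (.pp [(1, 64965000000)]))))
 (.add (.mul (.g 7) (.pp [(1, 820251000000)])) (.mul (.g 11) (.pp [(1, 144711000000)]))))) (.mul
 (.g 5) (.add (.mul (.g 5) (.mul (.g 7) (.pp [(1, 97326000000)]))) (.mul (.g 11) (.pp [(1,
 275910000000)]))))) (.add (.mul (.g 8) (.add (.pp [(1, 22173000000)]) (.mul (.g 7) (.mul (.g 12)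
 (.pp [(1, 2238900000)]))))) (.mul (.g 3) (.pp [(1, 252771000000)]))))) (.add (.mul (.g 4) (.add
 (.add (.mul (.pp [(1, 134865)]) (.sq [(1, -100), (2, 86), (3, 5), (5, 72), (7, 18)])) (.mul (.g 9)
 (.add (.mul (.g 12) (.add (.mul (.g 5) (.pp [(1, 64425000)])) (.mul (.g 9) (.pp [(1,
 296205000)])))) (.mul (.g 3) (.mul (.g 8) (.pp [(1, 765600000)])))))) (.add (.mul (.g 4) (.mul
 (.pp [(1, 1062)]) (.sq [(1, -100), (2, 65), (3, 12), (5, 69), (7, -39)]))) (.add (.mul (.g 11)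
 (.mul (.pp [(1, 402720)]) (.sq [(1, -100), (2, 88), (3, 59), (5, 56), (7, 6)]))) (.mul (.g 12)
 (.pp [(1, 4905000)])))))) (.mul (.g 11) (.add (.mul (.g 5) (.add (.mul (.pp [(1, 6453000)]) (.sq
 [(1, -100), (2, 86), (3, 57), (5, 54), (7, 8)])) (.mul (.g 12) (.pp [(1, 32605650000)])))) (.add
 (.mul (.g 7) (.mul (.g 7) (.mul (.g 8) (.pp [(1, 12276000000)])))) (.mul (.g 12) (.pp [(1,
 2511900000)])))))))) (.add (.add (.mul (.g 7) (.add (.mul (.g 7) (.mul (.g 7) (.mul (.g 9) (.pp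
 [(1, 44076000000)])))) (.mul (.g 12) (.mul (.pp [(1, 1200)]) (.sq [(1, 50), (2, -35), (3, 10), (5,
 -35), (7, -13)]))))) (.add (.mul (.g 0) (.pp [(1, 1000000000000)])) (.mul (.g 1) (.pp [(1,
 1000000000000)])))) (.add (.mul (.g 5) (.mul (.g 5) (.mul (.g 9) (.mul (.g 12) (.pp [(1,
 1036800000)]))))) (.add (.mul (.g 8) (.mul (.g 8) (.mul (.pp [(1, 568800)]) (.sq [(1, -29), (2,
 -62), (3, -40), (5, -57), (7, 100)])))) (.mul (.g 13) (.pp [(1, 1000000000000)])))))) (.pp [(1,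
 608812425), (2, 30579000), (3, 30793125), (4, 27016290), (5, 30534300), (6, 32705280), (7,
 30384675), (8, 33880820), (9, 29228322), (10, 30758220), (12, 33082800), (14, 30304380), (15,
 28306128), (16, 28881600), (18, 25564980), (20, 30503160), (21, 27952482), (24, 26409900), (25,
 26869428), (27, 30069445), (28, 34231380), (30, 26719920), (35, 26898864), (36, 31631700), (40,
 30112800), (42, 27456780), (45, 26769480), (49, 27770058), (50, 29919480), (54, 30989100), (56,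
 28973100), (60, 33012600), (63, 31799385), (70, 23632320), (75, 34323330), (81, 31823100), (84,
 25491300), (90, 31016400), (98, 31103460), (100, 30043200), (105, 29666100), (125, 31830220),
 (126, 26675700), (135, 28076700), (140, 30012600), (147, 31250820), (150, 29513400), (175,
 35424390), (189, 32962500), (196, 25944600), (210, 36700800), (225, 32860500), (245, 32436120),
 (250, 29853600), (294, 31022700), (315, 36731700), (343, 31253400), (350, 32074200), (375,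
 28428900), (441, 32852700), (490, 34072200), (525, 25452900), (625, 29400000), (686, 28694700),
 (735, 30927000), (875, 28709700), (1029, 31995300), (1225, 27850800), (1715, 29232000), (2401,
 30762000)])))))
 (.rule 0 (.rule 3 (.leaf 60000000 (.add (.add (.add (.add (.mul (.g 6) (.add (.add (.mul (.g 8)
 (.add (.add (.mul (.g 6) (.add (.add (.mul (.g 6) (.pp [(1, 14961000000)])) (.mul (.g 8) (.pp [(1,
 13019400000)]))) (.add (.mul (.g 9) (.pp [(1, 8953800000)])) (.mul (.g 12) (.pp [(1,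
 2800230000)]))))) (.mul (.g 2) (.add (.mul (.g 2) (.pp [(1, 10040400000)])) (.mul (.g 14) (.pp
 [(1, 6000000)]))))) (.add (.mul (.g 3) (.add (.mul (.g 3) (.pp [(1, 41037600000)])) (.mul (.g 8)
 (.pp [(1, 13025400000)])))) (.mul (.g 9) (.add (.mul (.g 4) (.pp [(1, 3044880000)])) (.mul (.g 5)
 (.pp [(1, 108498600000)]))))))) (.add (.mul (.g 12) (.add (.add (.pp [(1, 348030000)]) (.mul (.g
 7) (.add (.pp [(1, 570150000)]) (.mul (.g 7) (.pp [(1, 152130000)]))))) (.add (.mul (.g 3) (.pp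
 [(1, 3364050000)])) (.add (.mul (.g 5) (.pp [(1, 25675620000)])) (.mul (.g 6) (.mul (.g 6) (.pp
 [(1, 2797530000)]))))))) (.mul (.g 2) (.add (.mul (.g 2) (.add (.mul (.g 5) (.pp [(1,
 2418000000)])) (.add (.mul (.g 6) (.pp [(1, 13071000000)])) (.mul (.g 7) (.pp [(1,
 3301800000)]))))) (.add (.mul (.g 7) (.mul (.g 14) (.pp [(1, 10034400000)]))) (.mul (.g 9) (.mul
 (.g 9) (.pp [(1, 1926600000)])))))))) (.add (.add (.mul (.g 6) (.mul (.g 6) (.add (.mul (.g 5)
 (.pp [(1, 4068600000)])) (.add (.mul (.g 6) (.pp [(1, 55944600000)])) (.mul (.g 9) (.pp [(1,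
 60592200000)])))))) (.mul (.g 3) (.add (.mul (.g 3) (.pp [(1, 81111600000)])) (.mul (.g 7) (.mul
 (.g 14) (.pp [(1, 55944600000)])))))) (.add (.mul (.g 4) (.mul (.g 4) (.mul (.g 4) (.pp [(1,
 16284975)])))) (.mul (.g 5) (.mul (.pp [(1, 590280)]) (.sq [(1, 46), (2, -86), (3, -31), (5, -38),
 (7, 100)]))))))) (.mul (.g 14) (.add (.add (.mul (.g 8) (.add (.add (.pp [(1, 18000000)]) (.mul
 (.g 5) (.add (.add (.pp [(1, 159421800000)]) (.mul (.g 3) (.pp [(1, 38671800000)]))) (.add (.mul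
 (.g 8) (.pp [(1, 57666000000)])) (.mul (.g 9) (.pp [(1, 174328800000)])))))) (.add (.mul (.g 7)
 (.add (.add (.pp [(1, 12000000)]) (.mul (.g 3) (.pp [(1, 60600000)]))) (.add (.mul (.g 7) (.pp
 [(1, 6000000)])) (.mul (.g 8) (.pp [(1, 6000000)]))))) (.add (.mul (.g 8) (.add (.pp [(1,
 12000000)]) (.mul (.g 8) (.pp [(1, 6000000)])))) (.mul (.g 3) (.pp [(1, 6000000)])))))) (.add
 (.mul (.g 5) (.add (.mul (.g 3) (.add (.pp [(1, 57567600000)]) (.mul (.g 7) (.pp [(1,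
 70618200000)])))) (.add (.mul (.g 9) (.add (.mul (.g 2) (.pp [(1, 68298600000)])) (.mul (.g 9)
 (.pp [(1, 40221600000)])))) (.mul (.g 12) (.add (.pp [(1, 3414690000)]) (.mul (.g 7) (.pp [(1,
 1830000)]))))))) (.mul (.g 2) (.add (.pp [(1, 66000000)]) (.mul (.g 7) (.mul (.g 9) (.pp [(1,
 75000000)]))))))) (.add (.mul (.g 3) (.add (.pp [(1, 2987400000)]) (.mul (.g 3) (.pp [(1,
 34168200000)])))) (.add (.mul (.g 12) (.add (.pp [(1, 3750000)]) (.mul (.g 7) (.pp [(1,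
 3030000)])))) (.mul (.g 4) (.mul (.g 4) (.mul (.g 4) (.pp [(1, 9884625)]))))))))) (.add (.mul (.g
 12) (.add (.pp [(1, 1740000)]) (.add (.mul (.g 7) (.add (.pp [(1, 1230000)]) (.add (.mul (.g 7)
 (.add (.add (.mul (.g 2) (.pp [(1, 300000)])) (.mul (.g 5) (.pp [(1, 14310000)]))) (.add (.mul (.g
 8) (.pp [(1, 300000)])) (.mul (.g 9) (.pp [(1, 420000)]))))) (.mul (.g 5) (.mul (.g 8) (.pp [(1,
 6180000)])))))) (.mul (.g 5) (.mul (.g 5) (.mul (.g 9) (.pp [(1, 169980000)]))))))) (.mul (.g 3)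
 (.add (.mul (.g 2) (.add (.mul (.g 2) (.mul (.g 2) (.pp [(1, 259800000)]))) (.mul (.g 8) (.mul (.g
 8) (.pp [(1, 54600000)]))))) (.add (.mul (.g 3) (.mul (.g 5) (.mul (.g 9) (.pp [(1,
 17859000000)])))) (.mul (.g 4) (.mul (.g 7) (.mul (.g 7) (.pp [(1, 16680000)]))))))))) (.add (.add
 (.mul (.g 4) (.add (.mul (.g 5) (.add (.mul (.pp [(1, 130767)]) (.sq [(1, -18), (2, 100), (3, 25),
 (5, -8), (7, -55)])) (.mul (.g 4) (.mul (.g 5) (.pp [(1, 5455500)]))))) (.mul (.g 9) (.mul (.g 9)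
 (.mul (.g 9) (.pp [(1, 157980000)])))))) (.mul (.g 0) (.pp [(1, 200000000000)]))) (.add (.mul (.g
 1) (.pp [(1, 200000000000)])) (.add (.mul (.g 5) (.mul (.g 9) (.mul (.g 9) (.mul (.g 9) (.pp [(1,
 10924200000)]))))) (.mul (.g 13) (.pp [(1, 200000000000)])))))) (.pp [(1, 118454625), (2,
 6541008), (3, 5080350), (4, 5683140), (5, 5460000), (6, 6236220), (7, 5865375), (8, 5754000), (9,
 6450000), (10, 6190896), (12, 5556360), (14, 5606160), (15, 6120000), (16, 6600000), (18,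
 6007935), (20, 5954880), (21, 6480000), (24, 6189120), (25, 6420000), (27, 5630000), (28,
 6439800), (30, 6382080), (35, 6270000), (36, 6039540), (40, 5544000), (42, 5334750), (45,
 6000000), (49, 6000000), (50, 5939088), (54, 5740920), (56, 5940000), (60, 6265920), (63,
 6330000), (70, 5724960), (75, 5550000), (81, 6000000), (84, 6201000), (90, 6700320), (98,
 6170175), (100, 6618240), (105, 6000000), (125, 5700000), (126, 6336000), (135, 6000000), (140,
 6100800), (147, 6000000), (150, 5035680), (175, 5700000), (189, 6000000), (196, 6196500), (210,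
 6528000), (225, 6000000), (245, 6000000), (250, 6000000), (294, 5400000), (315, 5400000), (343,
 6000000), (350, 6000000), (375, 6600000), (441, 6000000), (490, 6000000), (525, 6000000), (625,
 6000000), (686, 6000000), (735, 6000000), (875, 6000000), (1029, 6000000), (1225, 6000000), (1715,
 6000000), (2401, 6000000)]))))))
 (.split [(2, 1), (5, -1)]
 (.rule 1 (.rule 2 (.leaf 240000000 (.add (.add (.add (.add (.mul (.g 8) (.add (.add (.mul (.g 3)
 (.add (.add (.pp [(1, 34348800000)]) (.add (.mul (.g 5) (.add (.mul (.g 5) (.pp [(1,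
 464892000000)])) (.add (.mul (.g 6) (.pp [(1, 65102400000)])) (.mul (.g 8) (.pp [(1,
 253596000000)]))))) (.mul (.g 2) (.add (.mul (.g 6) (.pp [(1, 150782400000)])) (.mul (.g 10) (.pp
 [(1, 136123200000)])))))) (.add (.add (.mul (.g 8) (.add (.pp [(1, 3626400000)]) (.mul (.g 10)
 (.pp [(1, 6446400000)])))) (.mul (.g 7) (.pp [(1, 152414400000)]))) (.add (.mul (.g 12) (.pp [(1,
 2936040000)])) (.mul (.g 14) (.mul (.g 14) (.pp [(1, 5282400000)]))))))) (.add (.mul (.g 14) (.add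
 (.add (.pp [(1, 5685600000)]) (.mul (.g 5) (.add (.add (.pp [(1, 1077057600000)]) (.mul (.g 2)
 (.pp [(1, 68601600000)]))) (.add (.mul (.g 8) (.pp [(1, 224073600000)])) (.mul (.g 9) (.pp [(1,
 367010400000)])))))) (.add (.mul (.g 8) (.add (.pp [(1, 1430400000)]) (.add (.mul (.g 2) (.pp [(1,
 2124000000)])) (.mul (.g 6) (.pp [(1, 3086400000)]))))) (.add (.mul (.g 2) (.mul (.g 11) (.pp [(1,
 6453600000)]))) (.mul (.g 14) (.mul (.g 14) (.pp [(1, 24000000)]))))))) (.mul (.g 2) (.add (.mul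
 (.g 6) (.add (.mul (.g 7) (.pp [(1, 142932000000)])) (.mul (.g 10) (.pp [(1, 45928800000)]))))
 (.mul (.g 4) (.mul (.g 8) (.pp [(1, 2514840000)]))))))) (.add (.add (.mul (.g 4) (.add (.mul (.g
 4) (.mul (.g 8) (.pp [(1, 1150704000)]))) (.mul (.g 6) (.mul (.g 9) (.pp [(1, 38056920000)])))))
 (.mul (.g 7) (.mul (.g 7) (.mul (.g 7) (.pp [(1, 158875200000)]))))) (.add (.mul (.g 9) (.mul (.pp
 [(1, 133440)]) (.sq [(1, 3), (2, -35), (3, -45), (5, -20), (7, 100)]))) (.mul (.g 11) (.mul (.g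
 11) (.mul (.g 12) (.pp [(1, 296160000)])))))))) (.mul (.g 7) (.add (.add (.mul (.g 7) (.add (.mul
 (.g 7) (.add (.mul (.g 6) (.pp [(1, 102280800000)])) (.add (.mul (.g 7) (.pp [(1, 18168000000)]))
 (.mul (.g 14) (.pp [(1, 109408800000)]))))) (.add (.mul (.g 5) (.mul (.g 5) (.pp [(1,
 70891200000)]))) (.mul (.g 14) (.pp [(1, 20764800000)]))))) (.add (.mul (.g 2) (.add (.pp [(1,
 6607200000)]) (.add (.mul (.pp [(1, 1819680)]) (.sq [(1, -10), (2, -42), (3, -85), (5, 100), (7,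
 54)])) (.mul (.g 2) (.pp [(1, 662863200000)]))))) (.mul (.g 3) (.add (.mul (.g 6) (.add (.mul (.g
 3) (.pp [(1, 18868800000)])) (.mul (.g 9) (.pp [(1, 24000000)])))) (.mul (.g 9) (.mul (.g 9) (.pp
 [(1, 256089600000)]))))))) (.add (.add (.mul (.g 5) (.add (.mul (.g 5) (.mul (.g 14) (.pp [(1,
 214536000000)]))) (.mul (.g 12) (.pp [(1, 50355120000)])))) (.mul (.g 4) (.mul (.g 4) (.mul (.g 4)
 (.pp [(1, 27767100)]))))) (.add (.mul (.g 6) (.mul (.g 9) (.mul (.g 12) (.pp [(1, 1093920000)]))))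
 (.mul (.g 10) (.mul (.g 14) (.mul (.g 14) (.pp [(1, 15655200000)]))))))))) (.add (.mul (.g 5)
 (.add (.mul (.g 6) (.add (.mul (.g 2) (.add (.pp [(1, 459537600000)]) (.mul (.g 14) (.pp [(1,
 69888000000)])))) (.add (.mul (.g 3) (.mul (.g 3) (.pp [(1, 13524000000)]))) (.mul (.g 12) (.pp
 [(1, 13715640000)]))))) (.add (.mul (.g 14) (.add (.mul (.g 14) (.add (.pp [(1, 34075200000)])
 (.mul (.g 9) (.pp [(1, 1156800000)])))) (.mul (.g 4) (.mul (.g 4) (.pp [(1, 587928000)]))))) (.mul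
 (.g 3) (.add (.mul (.g 3) (.mul (.g 5) (.pp [(1, 152510400000)]))) (.mul (.g 9) (.mul (.g 9) (.pp
 [(1, 197911200000)])))))))) (.add (.mul (.g 4) (.add (.add (.mul (.g 3) (.mul (.g 9) (.add (.mul
 (.g 6) (.pp [(1, 5293080000)])) (.mul (.g 9) (.pp [(1, 8473920000)]))))) (.mul (.g 2) (.mul (.pp
 [(1, 275580)]) (.sq [(1, 2), (2, 100), (3, 39), (5, 78), (7, -41)])))) (.add (.mul (.g 4) (.mul
 (.g 4) (.mul (.g 4) (.pp [(1, 816315)])))) (.add (.mul (.g 12) (.pp [(1, 1010190000)])) (.mul (.g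
 14) (.mul (.g 14) (.pp [(1, 5511240000)]))))))) (.mul (.g 2) (.add (.pp [(1, 7562400000)]) (.add
 (.mul (.g 6) (.add (.pp [(1, 55656000000)]) (.mul (.g 2) (.mul (.g 6) (.pp [(1, 55824000000)])))))
 (.mul (.g 3) (.pp [(1, 189304800000)])))))))) (.add (.add (.mul (.g 12) (.add (.mul (.pp [(1,
 94584)]) (.sq [(1, -23), (2, -85), (3, -91), (5, -28), (7, 100)])) (.add (.mul (.g 10) (.mul (.pp
 [(1, 804)]) (.sq [(1, -10), (2, -75), (3, -76), (5, -14), (7, 100)]))) (.mul (.g 14) (.pp [(1,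
 1425240000)]))))) (.add (.mul (.g 14) (.add (.mul (.g 6) (.mul (.g 9) (.mul (.g 14) (.pp [(1,
 15868800000)])))) (.mul (.g 11) (.mul (.pp [(1, 2387040)]) (.sq [(1, -7), (2, 66), (3, -7), (5,
 -100), (7, 30)]))))) (.mul (.g 0) (.pp [(1, 800000000000)])))) (.add (.mul (.g 1) (.pp [(1,
 800000000000)])) (.add (.mul (.g 3) (.mul (.g 3) (.pp [(1, 14755200000)]))) (.mul (.g 13) (.pp
 [(1, 800000000000)])))))) (.pp [(1, 1323935661), (2, 24829200), (3, 22509024), (4, 24286740), (5,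
 22486332), (6, 24253680), (7, 24128640), (8, 24205740), (9, 26313768), (10, 24074640), (12,
 22695060), (14, 26646480), (15, 25318896), (16, 22350000), (18, 21092124), (20, 21501060), (21,
 24276960), (24, 25961760), (25, 24332400), (27, 23398656), (28, 21663360), (30, 27148992), (35,
 25264080), (36, 23723520), (40, 25056480), (42, 20816280), (45, 22515204), (49, 22752000), (50,
 23817264), (54, 24654240), (56, 25037760), (60, 23306400), (63, 23454720), (70, 25422960), (75,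
 23045664), (81, 24086880), (84, 24141600), (90, 21347280), (98, 22926780), (100, 26347440), (105,
 22106760), (125, 24755936), (126, 26429280), (135, 25246560), (140, 26656320), (147, 23227200),
 (150, 25813440), (175, 24102480), (189, 23624160), (196, 25842000), (210, 21587040), (225,
 26177760), (245, 23537220), (250, 22997760), (294, 23539200), (315, 24680160), (343, 24000000),
 (350, 19993920), (375, 23318400), (441, 24979200), (490, 22371120), (525, 26217600), (625,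
 25648320), (686, 26064000), (735, 25939200), (875, 24768000), (1029, 24336000), (1225, 24746880),
 (1715, 24336000), (2401, 24000000)])))))
 (.rule 1 (.rule 3 (.leaf 60000000 (.add (.add (.add (.add (.mul (.g 8) (.add (.add (.mul (.g 14)
 (.add (.add (.pp [(1, 546000000)]) (.add (.mul (.g 8) (.add (.add (.pp [(1, 15000000)]) (.mul (.g
 5) (.pp [(1, 57666000000)]))) (.add (.mul (.g 8) (.pp [(1, 6000000)])) (.mul (.g 12) (.pp [(1,
 60000)]))))) (.mul (.g 5) (.add (.pp [(1, 299794200000)]) (.mul (.g 11) (.pp [(1,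
 14057400000)])))))) (.add (.mul (.g 6) (.add (.pp [(1, 12164400000)]) (.mul (.g 12) (.pp [(1,
 372900000)])))) (.add (.mul (.g 3) (.mul (.g 14) (.pp [(1, 6000000)]))) (.mul (.g 12) (.pp [(1,
 121560000)])))))) (.add (.mul (.g 3) (.add (.mul (.g 8) (.add (.add (.mul (.g 5) (.pp [(1,
 64225200000)])) (.mul (.g 6) (.pp [(1, 6545400000)]))) (.add (.mul (.g 10) (.pp [(1,
 13273200000)])) (.mul (.g 12) (.pp [(1, 38310000)]))))) (.add (.mul (.g 4) (.add (.pp [(1,
 12562710000)]) (.mul (.g 6) (.pp [(1, 5814720000)])))) (.mul (.g 7) (.add (.mul (.g 2) (.pp [(1,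
 20528400000)])) (.mul (.g 3) (.pp [(1, 24636600000)]))))))) (.mul (.g 4) (.add (.add (.mul (.pp
 [(1, 74298)]) (.sq [(2, 27), (3, -73), (5, 100)])) (.mul (.g 5) (.add (.mul (.g 2) (.pp [(1,
 4780620000)])) (.mul (.g 9) (.pp [(1, 540330000)]))))) (.add (.mul (.g 4) (.mul (.g 8) (.pp [(1,
 519318000)]))) (.mul (.g 7) (.mul (.g 12) (.pp [(1, 208512000)])))))))) (.add (.mul (.g 12) (.add
 (.mul (.pp [(1, 45)]) (.sq [(1, -78), (2, -39), (3, -100), (5, 37), (7, 92)])) (.add (.mul (.g 6)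
 (.mul (.g 7) (.pp [(1, 430950000)]))) (.mul (.g 9) (.mul (.g 12) (.pp [(1, 9636000)])))))) (.add
 (.mul (.g 2) (.add (.mul (.g 2) (.mul (.g 10) (.pp [(1, 10800000)]))) (.mul (.g 5) (.mul (.g 7)
 (.pp [(1, 83998200000)]))))) (.mul (.g 5) (.mul (.g 6) (.mul (.g 9) (.pp [(1,
 10015800000)])))))))) (.mul (.g 6) (.add (.add (.mul (.pp [(1, 4409820)]) (.sq [(1, -19), (2, 30),
 (3, 100), (5, -45), (7, 21)])) (.mul (.g 6) (.add (.mul (.g 3) (.add (.mul (.g 4) (.pp [(1,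
 1134300000)])) (.add (.mul (.g 5) (.pp [(1, 183680400000)])) (.mul (.g 14) (.pp [(1,
 7461600000)]))))) (.add (.mul (.g 12) (.add (.pp [(1, 2088540000)]) (.add (.mul (.g 5) (.pp [(1,
 4425270000)])) (.mul (.g 12) (.pp [(1, 18639000)]))))) (.mul (.g 2) (.mul (.g 6) (.pp [(1,
 10671600000)]))))))) (.add (.mul (.g 12) (.add (.pp [(1, 452460000)]) (.add (.mul (.g 5) (.pp [(1,
 10771650000)])) (.mul (.g 7) (.pp [(1, 2100000)]))))) (.add (.mul (.g 2) (.mul (.g 14) (.add (.mul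
 (.g 2) (.pp [(1, 39261600000)])) (.mul (.g 14) (.pp [(1, 6563400000)]))))) (.mul (.g 4) (.mul (.g
 4) (.mul (.g 4) (.pp [(1, 9737475)]))))))))) (.add (.mul (.g 7) (.add (.add (.mul (.pp [(1,
 275820)]) (.sq [(1, -23), (2, 39), (3, -19), (5, 100), (7, -4)])) (.add (.mul (.g 14) (.add (.mul
 (.g 7) (.add (.mul (.g 7) (.pp [(1, 27345000000)])) (.mul (.g 12) (.pp [(1, 1367550000)])))) (.add
 (.mul (.g 3) (.mul (.g 3) (.pp [(1, 36606600000)]))) (.mul (.g 5) (.mul (.g 5) (.pp [(1,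
 46801200000)])))))) (.mul (.g 9) (.add (.mul (.pp [(1, 7200)]) (.sq [(1, -14), (2, 16), (3, -5),
 (5, 50)])) (.add (.mul (.g 2) (.mul (.g 4) (.pp [(1, 222180000)]))) (.mul (.g 3) (.mul (.g 3) (.pp
 [(1, 71257800000)])))))))) (.add (.mul (.g 11) (.add (.mul (.g 3) (.mul (.g 3) (.pp [(1,
 4455000000)]))) (.mul (.g 7) (.mul (.g 12) (.pp [(1, 300000)]))))) (.add (.mul (.g 4) (.mul (.g 4)
 (.mul (.g 4) (.pp [(1, 5546325)])))) (.mul (.g 12) (.pp [(1, 450330000)])))))) (.mul (.g 4) (.add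
 (.mul (.g 9) (.add (.mul (.g 9) (.add (.mul (.g 2) (.pp [(1, 1344720000)])) (.add (.mul (.g 3)
 (.pp [(1, 1464120000)])) (.mul (.g 14) (.pp [(1, 2099970000)]))))) (.mul (.g 4) (.mul (.g 4) (.pp
 [(1, 5684175)]))))) (.add (.mul (.g 14) (.add (.mul (.pp [(1, 1041)]) (.sq [(1, -67), (2, 11), (3,
 100), (5, -13), (7, -1)])) (.mul (.g 4) (.mul (.g 4) (.pp [(1, 1056750)]))))) (.mul (.g 12) (.pp
 [(1, 190716000)]))))))) (.add (.add (.mul (.g 5) (.add (.mul (.pp [(1, 271320)]) (.sq [(1, -25),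
 (2, -8), (3, -70), (5, 100), (7, 7)])) (.add (.mul (.g 5) (.add (.mul (.g 5) (.mul (.g 5) (.pp
 [(1, 94383600000)]))) (.mul (.g 12) (.pp [(1, 8153220000)])))) (.mul (.g 14) (.add (.mul (.g 2)
 (.mul (.g 10) (.pp [(1, 36243000000)]))) (.mul (.g 3) (.mul (.g 3) (.pp [(1, 92974800000)]))))))))
 (.mul (.g 12) (.add (.mul (.pp [(1, 13893)]) (.sq [(1, -55), (2, -62), (3, -84), (5, -100), (7,
 94)])) (.mul (.g 14) (.pp [(1, 360180000)]))))) (.add (.mul (.g 0) (.pp [(1, 200000000000)]))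
 (.add (.mul (.g 1) (.pp [(1, 200000000000)])) (.mul (.g 13) (.pp [(1, 200000000000)])))))) (.pp
 [(1, 207971049), (2, 5671071), (3, 6207876), (4, 7669713), (5, 6189267), (6, 6248322), (7,
 5922255), (8, 5572460), (9, 5821728), (10, 5578614), (12, 4989039), (14, 5829684), (15, 5777898),
 (16, 6600000), (18, 6173400), (20, 5795340), (21, 6117570), (24, 5519220), (25, 5947929), (27,
 5510160), (28, 4779036), (30, 7223166), (35, 6067224), (36, 6204000), (40, 6043200), (42,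
 6161826), (45, 5203740), (49, 6029175), (50, 6069420), (54, 6600000), (56, 5685480), (60,
 6093480), (63, 6133122), (70, 6052956), (75, 4952571), (81, 6000000), (84, 7149180), (90,
 6048000), (98, 7059402), (100, 6120000), (105, 6682974), (125, 5700000), (126, 4775160), (135,
 5400000), (140, 7227780), (147, 5232699), (150, 5918580), (175, 6452826), (189, 6600000), (196,
 6000360), (210, 5107920), (225, 6000000), (245, 5056734), (250, 6000000), (294, 5358420), (315,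
 6540000), (343, 6111039), (350, 5089080), (375, 6000000), (441, 6240000), (490, 5955720), (525,
 6572100), (625, 6000000), (686, 5603220), (735, 6367200), (875, 6032100), (1029, 6417600), (1225,
 6127200), (1715, 6417600), (2401, 6000000)]))))))))
 (P_free ++ xP_A_T2) = true := by decide +kernel

theorem t_A_T4a_TpA_a : chk Rap gP_A_T4a
 (.cut 1 [(2, -1), (3, 1)] (.add (.mul (.g 8) (.pp [(1, 1)])) (.mul (.g 4) (.pp [(1, 1)]))) (.rule
 1 (.cut 1 [(2, 1), (5, -1)] (.add (.mul (.g 10) (.pp [(1, 1)])) (.mul (.g 7) (.pp [(1, 1)])))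
 (.rule 2 (.cut 11 [(1, -3), (3, 5)] (.add (.mul (.g 1) (.pp [(1, 40)])) (.add (.mul (.g 11) (.pp
 [(1, 2)])) (.mul (.g 12) (.pp [(1, 15)])))) (.cut 1 [(1, 3), (3, -2)] (.add (.add (.mul (.g 10)
 (.pp [(1, 1)])) (.mul (.g 15) (.pp [(1, 1)]))) (.add (.mul (.g 7) (.pp [(1, 1)])) (.mul (.g 9)
 (.pp [(1, 1)])))) (.rule 8 (.rule 23 (.leaf 3300 (.add (.add (.add (.add (.mul (.g 10) (.add (.add
 (.mul (.g 9) (.add (.mul (.g 9) (.add (.mul (.g 12) (.pp [(1, 8082657)])) (.mul (.g 19) (.pp [(1,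
 5100249)])))) (.add (.mul (.g 16) (.add (.pp [(1, 21566424)]) (.mul (.g 19) (.pp [(1,
 38710881)])))) (.mul (.g 12) (.mul (.g 14) (.pp [(1, 12392193)])))))) (.add (.mul (.g 8) (.add
 (.mul (.g 16) (.add (.mul (.g 10) (.pp [(1, 13783737)])) (.mul (.g 16) (.pp [(1, 20474553)]))))
 (.add (.mul (.g 8) (.mul (.g 18) (.pp [(1, 10999989)]))) (.mul (.g 19) (.mul (.g 19) (.pp [(1,
 2997588)])))))) (.mul (.g 10) (.add (.mul (.g 10) (.add (.mul (.g 14) (.pp [(1, 1606044)])) (.mul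
 (.g 18) (.pp [(1, 837474)])))) (.mul (.g 12) (.mul (.g 14) (.pp [(1, 1391874)]))))))) (.add (.mul
 (.g 19) (.mul (.g 19) (.add (.pp [(1, 4855389)]) (.mul (.g 19) (.pp [(1, 1174074)]))))) (.add
 (.mul (.g 13) (.pp [(1, 8698008)])) (.mul (.g 18) (.pp [(1, 8354676)])))))) (.mul (.g 8) (.add
 (.add (.mul (.g 8) (.add (.mul (.g 8) (.add (.pp [(1, 2164437)]) (.add (.mul (.g 13) (.pp [(1,
 660)])) (.mul (.g 19) (.pp [(1, 1391874)]))))) (.add (.mul (.g 14) (.add (.mul (.g 18) (.pp [(1,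
 330)])) (.mul (.g 19) (.pp [(1, 1392204)])))) (.mul (.g 13) (.pp [(1, 3051906)]))))) (.mul (.g 12)
 (.mul (.g 12) (.add (.pp [(1, 6609867)]) (.mul (.g 12) (.pp [(1, 990)])))))) (.add (.mul (.g 16)
 (.add (.pp [(1, 29611197)]) (.mul (.g 9) (.mul (.g 16) (.pp [(1, 33416955)]))))) (.mul (.g 13)
 (.mul (.g 14) (.pp [(1, 11829510)]))))))) (.add (.mul (.g 9) (.add (.mul (.g 9) (.add (.mul (.g 9)
 (.add (.mul (.g 12) (.pp [(1, 9343092)])) (.mul (.g 14) (.pp [(1, 411081)])))) (.add (.mul (.g 18)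
 (.add (.mul (.g 13) (.pp [(1, 20889)])) (.mul (.g 19) (.pp [(1, 336600)])))) (.mul (.g 12) (.mul
 (.g 16) (.pp [(1, 23642223)])))))) (.add (.mul (.g 13) (.pp [(1, 2141997)])) (.mul (.g 18) (.pp
 [(1, 28954266)]))))) (.mul (.g 0) (.pp [(1, 1000000)])))) (.add (.add (.mul (.g 1) (.pp [(1,
 3300)])) (.mul (.g 4) (.pp [(1, 11000000)]))) (.add (.mul (.g 6) (.pp [(1, 11000000)])) (.add
 (.mul (.g 16) (.pp [(1, 2573406)])) (.mul (.g 17) (.pp [(1, 11000000)])))))) (.pp [(1, 1045406),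
 (2, 340), (3, 331), (4, 308), (5, 353), (6, 341), (8, 330), (9, 297), (10, 341), (12, 352), (15,
 286), (16, 330), (18, 308), (20, 363), (23, 33000000), (24, 330), (25, 308), (27, 363), (30, 319),
 (36, 330), (40, 330), (45, 385), (50, 297), (54, 330), (60, 330), (75, 352), (81, 330), (90, 297),
 (100, 330), (125, 341), (135, 330), (150, 330), (225, 330), (250, 330), (375, 330), (625,
 330)])))))))))))
 (P_TpA ++ xP_A_T4a) = true := by decide +kernel

theorem t_A_T4b_TpA_a : chk Rap gP_A_T4b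
 (.split [(1, -3), (3, 2)]
 (.cut 3 [(2, -1), (3, 1)] (.add (.mul (.g 0) (.pp [(1, 1)])) (.add (.mul (.g 2) (.pp [(1, 1)]))
 (.mul (.g 5) (.pp [(1, 3)])))) (.rule 1 (.cut 3 [(2, 1), (5, -1)] (.add (.add (.mul (.g 3) (.pp
 [(1, 1)])) (.mul (.g 1) (.pp [(1, 1)]))) (.add (.mul (.g 2) (.pp [(1, 1)])) (.mul (.g 8) (.pp [(1,
 3)])))) (.rule 2 (.rule 9 (.cut 1 [(1, -2), (2, -1), (3, 2), (5, 1)] (.add (.mul (.g 10) (.pp [(1,
 1)])) (.add (.mul (.g 5) (.pp [(1, 1)])) (.mul (.g 8) (.pp [(1, 1)])))) (.cut 1 [(1, -1), (2, -2),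
 (3, 2), (5, 2)] (.add (.mul (.g 11) (.pp [(1, 1)])) (.add (.mul (.g 9) (.pp [(1, 1)])) (.mul (.g
 0) (.pp [(1, 1)])))) (.rule 14 (.leaf 3000000 (.add (.add (.add (.add (.mul (.g 11) (.add (.add
 (.mul (.g 10) (.add (.add (.pp [(1, 3998910000)]) (.mul (.g 13) (.add (.pp [(1, 23587200000)])
 (.add (.mul (.g 10) (.pp [(1, 3764100000)])) (.mul (.g 13) (.pp [(1, 256050000)])))))) (.add (.mul
 (.g 8) (.mul (.g 9) (.pp [(1, 1830060000)]))) (.mul (.g 10) (.mul (.g 20) (.pp [(1, 780000)]))))))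
 (.add (.mul (.g 9) (.add (.mul (.g 9) (.add (.pp [(1, 16418760000)]) (.mul (.g 20) (.pp [(1,
 9205470000)])))) (.add (.mul (.g 11) (.mul (.g 11) (.pp [(1, 5128980000)]))) (.mul (.g 20) (.mul
 (.g 20) (.pp [(1, 3835500000)])))))) (.mul (.g 11) (.add (.mul (.pp [(1, 26874)]) (.sq [(1, -22),
 (2, 100), (3, -33), (5, 88)])) (.mul (.g 13) (.add (.mul (.g 11) (.pp [(1, 9270780000)])) (.mul
 (.g 13) (.pp [(1, 9052380000)])))))))) (.add (.mul (.g 8) (.pp [(1, 6781900000)])) (.add (.mul (.g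
 13) (.pp [(1, 25051680000)])) (.mul (.g 15) (.mul (.pp [(1, 9372)]) (.sq [(1, 100), (2, 27), (3,
 -87), (5, 64)]))))))) (.mul (.g 9) (.add (.add (.mul (.g 9) (.mul (.g 9) (.add (.mul (.g 9) (.pp
 [(1, 1201380000)])) (.add (.mul (.g 13) (.pp [(1, 1229280000)])) (.mul (.g 14) (.pp [(1,
 1410000)])))))) (.mul (.g 10) (.add (.mul (.g 8) (.mul (.g 10) (.pp [(1, 1288490000)]))) (.mul (.g
 13) (.mul (.g 15) (.pp [(1, 76950000)])))))) (.add (.mul (.g 13) (.mul (.g 13) (.mul (.g 20) (.pp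
 [(1, 71040000)])))) (.add (.mul (.g 14) (.pp [(1, 21470940000)])) (.mul (.g 16) (.mul (.g 16) (.pp
 [(1, 17700)])))))))) (.add (.mul (.g 10) (.add (.mul (.g 13) (.add (.pp [(1, 19950000000)]) (.mul
 (.g 10) (.add (.mul (.g 8) (.pp [(1, 2700000)])) (.mul (.g 10) (.pp [(1, 2545170000)])))))) (.add
 (.mul (.g 14) (.add (.mul (.pp [(1, 1107)]) (.sq [(1, 100), (2, -8), (3, 67), (5, 67)])) (.mul (.g
 16) (.pp [(1, 194659500)])))) (.mul (.g 8) (.pp [(1, 6427250000)]))))) (.add (.mul (.g 14) (.add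
 (.mul (.g 15) (.add (.mul (.pp [(1, 1761)]) (.sq [(1, -10), (2, -1), (3, 19), (5, 100)])) (.mul
 (.g 15) (.pp [(1, 8638500000)])))) (.mul (.g 14) (.mul (.pp [(1, 65520)]) (.sq [(2, 20), (3, -9),
 (5, 50)]))))) (.mul (.g 8) (.add (.mul (.g 8) (.pp [(1, 1805950000)])) (.mul (.g 15) (.pp [(1,
 12818820000)]))))))) (.add (.add (.mul (.g 0) (.pp [(1, 10000000000)])) (.mul (.g 3) (.pp [(1,
 300000000)]))) (.add (.mul (.g 4) (.pp [(1, 10000000000)])) (.add (.mul (.g 6) (.pp [(1,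
 10000000000)])) (.mul (.g 18) (.pp [(1, 10000000000)])))))) (.pp [(1, 3283450000), (2, 302400),
 (3, 299400), (4, 271320), (5, 303900), (6, 309300), (8, 310981), (9, 308860), (10, 302580), (12,
 282453), (15, 302080), (16, 283761), (18, 329283), (20, 348399), (23, 30000000000), (24, 321912),
 (25, 291084), (27, 293816), (30, 295422), (36, 289350), (40, 302466), (45, 292113), (50, 299820),
 (54, 297053), (60, 286866), (75, 293649), (81, 297924), (90, 305832), (100, 295605), (125,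
 282528), (135, 288303), (150, 282087), (225, 310308), (250, 303480), (375, 312195), (625,
 310032)])))))))))))
 (.cut 1 [(2, -1), (3, 1)] (.add (.mul (.g 9) (.pp [(1, 1)])) (.mul (.g 5) (.pp [(1, 1)]))) (.rule
 1 (.cut 1 [(2, 1), (5, -1)] (.add (.mul (.g 11) (.pp [(1, 1)])) (.mul (.g 8) (.pp [(1, 1)])))
 (.rule 2 (.cut 11 [(1, -3), (3, 5)] (.add (.mul (.g 1) (.pp [(1, 40)])) (.add (.mul (.g 12) (.pp
 [(1, 2)])) (.mul (.g 13) (.pp [(1, 15)])))) (.rule 8 (.rule 23 (.leaf 396000000 (.add (.add (.add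
 (.add (.mul (.g 10) (.add (.add (.mul (.g 9) (.add (.mul (.g 19) (.add (.pp [(1, 323694360000)])
 (.add (.mul (.g 12) (.pp [(1, 630400320000)])) (.mul (.g 19) (.pp [(1, 217673280000)]))))) (.add
 (.mul (.g 8) (.mul (.g 13) (.pp [(1, 1093284720000)]))) (.mul (.g 14) (.mul (.g 16) (.pp [(1,
 2617579800000)])))))) (.add (.mul (.g 10) (.add (.mul (.g 10) (.add (.mul (.g 8) (.pp [(1,
 119045520000)])) (.add (.mul (.g 12) (.pp [(1, 67363560000)])) (.mul (.g 14) (.pp [(1,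
 51836400000)]))))) (.add (.mul (.g 7) (.mul (.g 7) (.pp [(1, 67377640000)]))) (.mul (.g 12) (.mul
 (.g 16) (.pp [(1, 900143640000)])))))) (.mul (.g 7) (.mul (.g 8) (.add (.mul (.g 8) (.pp [(1,
 18213360000)])) (.mul (.g 13) (.pp [(1, 411920520000)]))))))) (.add (.mul (.g 12) (.add (.pp [(1,
 2312398440000)]) (.mul (.g 14) (.mul (.g 19) (.pp [(1, 154440000)]))))) (.add (.mul (.g 13) (.pp
 [(1, 1883257200000)])) (.mul (.g 15) (.mul (.g 15) (.pp [(1, 621304200)]))))))) (.add (.mul (.g 8)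
 (.add (.mul (.g 12) (.add (.add (.pp [(1, 219277080000)]) (.mul (.pp [(1, 396)]) (.sq [(1, 33),
 (2, -61), (3, 100), (5, -60)]))) (.add (.mul (.g 9) (.add (.mul (.g 7) (.pp [(1, 102310560000)]))
 (.add (.mul (.g 9) (.pp [(1, 204803280000)])) (.mul (.g 19) (.pp [(1, 36281520000)]))))) (.mul (.g
 12) (.mul (.g 14) (.pp [(1, 342884520000)])))))) (.add (.mul (.g 8) (.mul (.g 8) (.add (.mul (.g
 7) (.pp [(1, 7920000)])) (.mul (.g 13) (.pp [(1, 342805320000)]))))) (.mul (.g 13) (.mul (.g 14)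
 (.pp [(1, 248810760000)])))))) (.mul (.g 14) (.add (.mul (.g 14) (.add (.mul (.g 12) (.mul (.g 14)
 (.pp [(1, 39600000)]))) (.mul (.g 16) (.mul (.g 19) (.pp [(1, 269533440000)]))))) (.add (.mul (.g
 9) (.mul (.g 16) (.mul (.g 19) (.pp [(1, 2348097840000)])))) (.mul (.g 13) (.mul (.g 13) (.pp [(1,
 779775480000)])))))))) (.add (.mul (.g 7) (.add (.mul (.g 15) (.mul (.pp [(1, 99)]) (.sq [(1,
 -39), (2, 52), (3, 100), (5, -66)]))) (.mul (.g 16) (.pp [(1, 28985880000)])))) (.add (.mul (.g 9)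
 (.add (.mul (.g 13) (.pp [(1, 593413920000)])) (.mul (.g 15) (.mul (.g 15) (.pp [(1,
 1406017800)]))))) (.mul (.g 0) (.pp [(1, 120000000000)]))))) (.add (.add (.mul (.g 1) (.pp [(1,
 396000000)])) (.add (.mul (.g 3) (.pp [(1, 1320000000000)])) (.mul (.g 5) (.pp [(1,
 1320000000000)])))) (.add (.mul (.g 12) (.pp [(1, 1000331640000)])) (.add (.mul (.g 13) (.mul (.g
 16) (.pp [(1, 1199210760000)]))) (.mul (.g 17) (.pp [(1, 1320000000000)])))))) (.pp [(1,
 125448825633), (2, 38561808), (3, 39643638), (4, 41920692), (5, 37205664), (6, 37942872), (8,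
 40713948), (9, 38072760), (10, 38420448), (12, 39322272), (15, 39358704), (16, 41073516), (18,
 42757440), (20, 29779200), (23, 3960000000000), (24, 39900960), (25, 38616468), (27, 38412000),
 (30, 56683968), (36, 36843840), (40, 42498720), (45, 34668480), (50, 49381200), (54, 41184000),
 (60, 30497280), (75, 34797048), (81, 39600000), (90, 43834560), (100, 37065600), (125, 38805360),
 (135, 38808000), (150, 40048800), (225, 39337760), (250, 39600000), (375, 41009760), (625,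
 39600000)])))))))))))
 (P_TpA ++ xP_A_T4b) = true := by decide +kernel

theorem t_G_F1_c1 : chk RFp gP_G_F1
 (.cut 50 [(2, 1), (3, -1)] (.add (.add (.mul (.g 8) (.pp [(1, 45)])) (.mul (.g 7) (.pp [(1, 2)])))
 (.add (.mul (.g 2) (.pp [(1, 5)])) (.mul (.g 9) (.pp [(1, 9)])))) (.rule 0 (.cut 60 [(2, -1), (5,
 1)] (.add (.add (.mul (.g 11) (.pp [(1, 11)])) (.mul (.g 9) (.pp [(1, 3)]))) (.add (.mul (.g 1)
 (.pp [(1, 5)])) (.mul (.g 6) (.pp [(1, 5)])))) (.rule 3 (.leaf 600000000 (.add (.add (.add (.add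
 (.mul (.g 7) (.add (.add (.mul (.g 6) (.add (.add (.mul (.g 13) (.add (.mul (.g 5) (.pp [(1,
 246370800000)])) (.add (.mul (.g 6) (.pp [(1, 186652800000)])) (.mul (.g 7) (.pp [(1,
 26774400000)]))))) (.mul (.g 15) (.add (.pp [(1, 70056000000)]) (.add (.mul (.g 4) (.pp [(1,
 1185864000000)])) (.mul (.g 15) (.pp [(1, 5598000000)])))))) (.add (.mul (.g 12) (.add (.mul (.g
 10) (.pp [(1, 332307000000)])) (.mul (.g 16) (.pp [(1, 448266000000)])))) (.add (.mul (.g 5) (.mul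
 (.g 11) (.pp [(1, 65810400000)]))) (.mul (.g 6) (.mul (.g 9) (.pp [(1, 109980000000)]))))))) (.add
 (.mul (.g 7) (.add (.add (.mul (.g 5) (.add (.mul (.g 4) (.pp [(1, 589806000000)])) (.add (.mul
 (.g 7) (.pp [(1, 5538000000)])) (.mul (.g 10) (.pp [(1, 179400000000)]))))) (.mul (.g 8) (.add
 (.mul (.g 8) (.pp [(1, 856746000000)])) (.add (.mul (.g 13) (.pp [(1, 16725600000)])) (.mul (.g
 15) (.pp [(1, 120000000)])))))) (.add (.mul (.g 7) (.add (.mul (.g 12) (.pp [(1, 5598000000)]))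
 (.mul (.g 15) (.pp [(1, 60000000)])))) (.mul (.g 4) (.mul (.g 12) (.pp [(1, 815334000000)]))))))
 (.mul (.g 4) (.add (.mul (.g 15) (.add (.add (.pp [(1, 827508000000)]) (.mul (.g 8) (.pp [(1,
 732762000000)]))) (.add (.mul (.g 13) (.pp [(1, 51259200000)])) (.mul (.g 15) (.pp [(1,
 983424000000)]))))) (.add (.mul (.g 8) (.mul (.g 8) (.pp [(1, 1050012000000)]))) (.mul (.g 10)
 (.pp [(1, 1622502000000)]))))))) (.add (.add (.mul (.g 11) (.add (.pp [(1, 83566500000)]) (.mul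
 (.g 5) (.pp [(1, 67406700000)])))) (.mul (.g 12) (.pp [(1, 872103000000)]))) (.add (.mul (.g 13)
 (.pp [(1, 32520000000)])) (.mul (.g 15) (.pp [(1, 913722000000)])))))) (.mul (.g 5) (.add (.add
 (.mul (.g 5) (.add (.mul (.g 5) (.add (.add (.mul (.g 6) (.pp [(1, 951804000000)])) (.mul (.g 8)
 (.pp [(1, 80670000000)]))) (.add (.mul (.g 15) (.pp [(1, 16818000000)])) (.mul (.g 16) (.pp [(1,
 1042350000000)]))))) (.mul (.g 15) (.pp [(1, 1414500000000)])))) (.add (.mul (.g 4) (.add (.mul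
 (.g 12) (.add (.pp [(1, 1857360000000)]) (.mul (.g 16) (.pp [(1, 59133000000)])))) (.add (.mul (.g
 4) (.mul (.g 16) (.pp [(1, 1824000000)]))) (.mul (.g 8) (.mul (.g 8) (.pp [(1, 24624000000)]))))))
 (.mul (.g 6) (.add (.mul (.g 15) (.add (.pp [(1, 719706000000)]) (.mul (.g 6) (.pp [(1,
 38166000000)])))) (.mul (.g 13) (.mul (.g 13) (.pp [(1, 1920480000)]))))))) (.add (.mul (.g 13)
 (.add (.pp [(1, 310526400000)]) (.mul (.pp [(1, 2902560)]) (.sq [(1, -24), (2, -11), (3, -2), (5,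
 -84), (7, 100)])))) (.add (.mul (.g 8) (.mul (.g 8) (.mul (.g 11) (.pp [(1, 12371700000)]))))
 (.mul (.g 12) (.mul (.g 12) (.pp [(1, 650467500000)])))))))) (.add (.mul (.g 4) (.add (.add (.mul
 (.g 15) (.add (.pp [(1, 168852000000)]) (.add (.mul (.g 4) (.add (.pp [(1, 936750000000)]) (.mul
 (.g 4) (.pp [(1, 76368000000)])))) (.mul (.g 15) (.mul (.g 16) (.pp [(1, 20634000000)])))))) (.mul
 (.g 6) (.add (.mul (.pp [(1, 2276400)]) (.sq [(1, -44), (2, -53), (3, 3), (5, -60), (7, 100)]))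
 (.mul (.g 6) (.pp [(1, 196812000000)]))))) (.add (.mul (.g 13) (.add (.pp [(1, 52176000000)])
 (.mul (.g 4) (.pp [(1, 459090000000)])))) (.mul (.g 10) (.mul (.g 12) (.pp [(1,
 226125000000)])))))) (.add (.mul (.g 11) (.add (.add (.pp [(1, 29041800000)]) (.mul (.g 12) (.add
 (.mul (.pp [(1, 169695)]) (.sq [(1, 24), (2, 8), (5, 100), (7, 71)])) (.mul (.pp [(1, 179670)])
 (.sq [(1, -100), (2, -90), (3, 81), (7, 25)]))))) (.add (.mul (.g 6) (.pp [(1, 598200000)])) (.mul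
 (.g 13) (.mul (.pp [(1, 16836)]) (.sq [(1, -29), (2, -2), (3, 28), (5, -29), (7, 100)])))))) (.mul
 (.g 15) (.add (.pp [(1, 175734000000)]) (.add (.mul (.g 6) (.add (.mul (.g 6) (.mul (.g 12) (.pp
 [(1, 7113000000)]))) (.mul (.g 8) (.mul (.g 15) (.pp [(1, 9828000000)]))))) (.mul (.g 8) (.mul (.g
 8) (.mul (.g 15) (.pp [(1, 26370000000)])))))))))) (.add (.add (.mul (.g 10) (.add (.mul (.pp [(1,
 130146000000)]) (.sq [(2, 1), (3, -1)])) (.add (.mul (.g 10) (.mul (.pp [(1, 2676600)]) (.sq [(1,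
 -9), (2, -12), (3, 99), (5, 100), (7, 55)]))) (.mul (.g 13) (.mul (.pp [(1, 742560)]) (.sq [(1,
 88), (2, 100), (3, -19), (5, 41), (7, 41)])))))) (.add (.mul (.g 13) (.add (.pp [(1,
 76270800000)]) (.mul (.g 6) (.pp [(1, 178687200000)])))) (.mul (.g 0) (.pp [(1,
 2000000000000)])))) (.add (.mul (.g 2) (.pp [(1, 2000000000000)])) (.add (.mul (.g 12) (.pp [(1,
 22842000000)])) (.mul (.g 14) (.pp [(1, 400000000)])))))) (.pp [(1, 90585463368), (2, 56283648),
 (3, 62311308), (4, 64423272), (5, 53995536), (6, 50673744), (7, 52821600), (8, 64038000), (9,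
 63752232), (10, 62756208), (12, 61674840), (14, 68524800), (15, 64981608), (16, 62068800), (18,
 60634980), (20, 47846760), (21, 58731840), (24, 50935200), (25, 68769168), (27, 57946730), (28,
 51917760), (30, 67947240), (35, 68912640), (36, 67656600), (40, 57524400), (42, 66180960), (45,
 53561370), (49, 65280000), (50, 56238720), (54, 56747400), (56, 59452800), (60, 72043200), (63,
 53447460), (70, 54947160), (75, 56699820), (81, 61255200), (84, 65110800), (90, 48850200), (98,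
 55559130), (100, 64015200), (105, 54926220), (125, 58200240), (126, 54562800), (135, 59056800),
 (140, 64264800), (147, 60177075), (150, 53986800), (175, 51602760), (189, 61593600), (196,
 66334800), (210, 57289200), (225, 63313200), (245, 54777075), (250, 62040000), (294, 56638500),
 (315, 60103200), (343, 60000000), (350, 61142400), (375, 59444400), (441, 63026700), (490,
 57855300), (525, 61209600), (625, 60000000), (686, 60000000), (735, 64836600), (875, 60780000),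
 (1029, 60000000), (1225, 61809900), (1715, 60000000), (2401, 60000000)])))))))
 (P_c1 ++ xP_G_F1) = true := by decide +kernel

theorem t_G_F5a_c0 : chk ROp gP_G_F5a
 (.cut 50 [(2, 1), (3, -1)] (.add (.add (.mul (.g 8) (.pp [(1, 45)])) (.mul (.g 7) (.pp [(1, 2)])))
 (.add (.mul (.g 2) (.pp [(1, 5)])) (.mul (.g 9) (.pp [(1, 9)])))) (.rule 0 (.cut 60 [(2, -1), (5,
 1)] (.add (.add (.mul (.g 11) (.pp [(1, 11)])) (.mul (.g 9) (.pp [(1, 3)]))) (.add (.mul (.g 1)
 (.pp [(1, 5)])) (.mul (.g 6) (.pp [(1, 5)])))) (.rule 3 (.leaf 3000000 (.add (.add (.add (.add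
 (.mul (.g 6) (.add (.add (.mul (.g 11) (.add (.add (.pp [(1, 4077000)]) (.mul (.g 15) (.add (.mul
 (.g 4) (.pp [(1, 237604500)])) (.add (.mul (.g 5) (.pp [(1, 39426000)])) (.mul (.g 6) (.pp [(1,
 29725500)])))))) (.add (.mul (.g 16) (.add (.mul (.g 5) (.pp [(1, 279936000)])) (.mul (.g 8) (.pp
 [(1, 29821500)])))) (.mul (.g 4) (.mul (.g 6) (.pp [(1, 30322500)])))))) (.mul (.g 12) (.add (.add
 (.pp [(1, 23970000)]) (.mul (.g 6) (.add (.mul (.g 6) (.pp [(1, 1047810000)])) (.mul (.g 12) (.pp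
 [(1, 1338517500)]))))) (.add (.mul (.g 4) (.mul (.g 12) (.pp [(1, 745282500)]))) (.mul (.g 8) (.pp
 [(1, 406425000)])))))) (.add (.mul (.g 13) (.add (.mul (.g 5) (.add (.pp [(1, 824784000)]) (.add
 (.mul (.g 6) (.pp [(1, 2834328000)])) (.mul (.g 8) (.pp [(1, 405096000)]))))) (.add (.mul (.g 4)
 (.mul (.g 4) (.pp [(1, 226218000)]))) (.mul (.g 15) (.mul (.g 16) (.pp [(1, 337458000)]))))))
 (.mul (.g 4) (.mul (.g 9) (.mul (.g 16) (.pp [(1, 1309950000)]))))))) (.mul (.g 4) (.add (.add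
 (.mul (.g 8) (.add (.mul (.g 12) (.add (.pp [(1, 773535000)]) (.mul (.g 15) (.pp [(1,
 255270000)])))) (.add (.mul (.g 4) (.mul (.g 4) (.pp [(1, 4620000)]))) (.mul (.g 8) (.mul (.g 13)
 (.pp [(1, 115428000)])))))) (.mul (.g 13) (.add (.mul (.g 5) (.add (.mul (.g 13) (.pp [(1,
 43538400)])) (.mul (.g 15) (.pp [(1, 115188000)])))) (.mul (.g 15) (.mul (.g 16) (.pp [(1,
 22446000)])))))) (.add (.mul (.g 4) (.add (.mul (.pp [(1, 25497)]) (.sq [(1, 18), (2, 13), (3,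
 100), (5, -74)])) (.mul (.g 4) (.mul (.g 16) (.pp [(1, 2932380000)]))))) (.mul (.g 11) (.pp [(1,
 64845000)])))))) (.add (.mul (.g 5) (.add (.mul (.g 5) (.mul (.g 11) (.add (.mul (.g 5) (.pp [(1,
 83235000)])) (.mul (.g 16) (.pp [(1, 56833500)]))))) (.add (.mul (.g 12) (.mul (.g 12) (.pp [(1,
 6495720000)]))) (.mul (.g 16) (.mul (.pp [(1, 93381)]) (.sq [(1, 55), (2, -9), (3, 100), (5,
 -54)])))))) (.mul (.g 12) (.add (.mul (.g 8) (.pp [(1, 153780000)])) (.mul (.g 10) (.mul (.g 12)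
 (.pp [(1, 280620000)]))))))) (.add (.add (.mul (.g 0) (.pp [(1, 10000000000)])) (.mul (.g 2) (.pp
 [(1, 10000000000)]))) (.add (.mul (.g 14) (.pp [(1, 10000000)])) (.mul (.g 16) (.mul (.g 16) (.pp
 [(1, 12180000)])))))) (.pp [(1, 53820000), (2, 297000), (3, 302475), (4, 300972), (5, 310500), (6,
 304590), (8, 301404), (9, 310500), (10, 294000), (12, 261939), (15, 289665), (16, 311007), (18,
 319800), (19, 30000000000), (20, 283008), (24, 307800), (25, 297000), (27, 295000), (30, 330978),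
 (36, 300000), (40, 306228), (45, 270300), (50, 291000), (54, 300000), (60, 319461), (75, 302364),
 (81, 300000), (90, 281700), (100, 268428), (125, 300000), (135, 300000), (150, 301332), (225,
 317700), (250, 337500), (375, 303996), (625, 292500)])))))))
 (P_c0 ++ xP_G_F5a) = true := by decide +kernel

theorem t_G_F5b_c4 : chk RFp gP_G_F5b
 (.split [(1, -1), (2, 2)]
 (.cut 1 [(2, -1), (3, 1)] (.add (.mul (.g 10) (.pp [(1, 1)])) (.mul (.g 5) (.pp [(1, 1)]))) (.rule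
 1 (.cut 1 [(2, 1), (5, -1)] (.add (.mul (.g 12) (.pp [(1, 1)])) (.mul (.g 8) (.pp [(1, 1)])))
 (.rule 2 (.leaf 6000000 (.add (.add (.add (.add (.mul (.g 7) (.add (.add (.mul (.g 9) (.add (.add
 (.pp [(1, 11052960000)]) (.mul (.g 11) (.add (.pp [(1, 26576880000)]) (.add (.mul (.g 7) (.pp [(1,
 1190160000)])) (.mul (.g 9) (.pp [(1, 6437220000)])))))) (.add (.mul (.g 6) (.mul (.g 6) (.pp [(1,
 241080000)]))) (.mul (.g 7) (.mul (.g 7) (.pp [(1, 966720000)])))))) (.mul (.g 5) (.add (.mul (.g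
 10) (.add (.pp [(1, 5863440000)]) (.mul (.g 5) (.pp [(1, 6489120000)])))) (.mul (.g 12) (.mul (.g
 14) (.pp [(1, 633000)])))))) (.add (.mul (.g 7) (.add (.mul (.pp [(1, 34188)]) (.sq [(1, 71), (2,
 -38), (3, -38), (5, 100)])) (.mul (.g 7) (.add (.pp [(1, 8558160000)]) (.mul (.g 7) (.pp [(1,
 68160000)])))))) (.mul (.g 15) (.mul (.pp [(1, 456816)]) (.sq [(1, 28), (2, 50), (3, 11), (5,
 -11)])))))) (.mul (.g 4) (.add (.add (.mul (.g 6) (.add (.mul (.g 15) (.add (.mul (.g 11) (.pp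
 [(1, 1490610000)])) (.mul (.g 12) (.pp [(1, 96064500)])))) (.mul (.g 14) (.pp [(1, 105480000)]))))
 (.mul (.g 10) (.add (.mul (.g 9) (.mul (.g 11) (.pp [(1, 27840000)]))) (.mul (.g 14) (.mul (.g 15)
 (.pp [(1, 3349530000)])))))) (.add (.mul (.g 4) (.mul (.g 4) (.mul (.g 12) (.pp [(1, 301875)]))))
 (.mul (.g 11) (.mul (.pp [(1, 486)]) (.sq [(1, -40), (2, 100), (3, -87), (5, 22)]))))))) (.add
 (.mul (.g 9) (.add (.add (.mul (.g 6) (.add (.pp [(1, 10302060000)]) (.mul (.g 14) (.mul (.g 14)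
 (.pp [(1, 3000000)]))))) (.mul (.g 11) (.mul (.pp [(1, 366)]) (.sq [(1, 30), (2, -69), (3, -100),
 (5, -59)])))) (.add (.mul (.g 12) (.pp [(1, 848769000)])) (.add (.mul (.g 14) (.pp [(1,
 6115080000)])) (.mul (.g 15) (.mul (.pp [(1, 29748)]) (.sq [(1, -76), (2, -11), (3, 100), (5,
 58)]))))))) (.mul (.g 10) (.add (.add (.mul (.pp [(1, 546)]) (.sq [(2, -72), (3, 100), (5, -25)]))
 (.mul (.g 14) (.add (.mul (.pp [(1, 150)]) (.sq [(1, -17), (2, 100), (3, 65), (5, 23)])) (.mul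
 (.pp [(1, 30960000)]) (.sq [(2, 1), (5, -1)]))))) (.add (.mul (.g 10) (.mul (.pp [(1, 132)]) (.sq
 [(1, 89), (2, 13), (3, 16), (5, 100)]))) (.mul (.g 12) (.pp [(1, 503682000)]))))))) (.add (.add
 (.mul (.g 15) (.add (.mul (.g 12) (.add (.pp [(1, 1002096000)]) (.mul (.g 5) (.mul (.g 15) (.pp
 [(1, 46650000)]))))) (.mul (.g 15) (.mul (.pp [(1, 86628)]) (.sq [(1, -15), (2, 100), (3, 20), (5,
 51)]))))) (.mul (.g 0) (.pp [(1, 20000000000)]))) (.add (.mul (.g 2) (.pp [(1, 20000000000)]))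
 (.add (.mul (.g 13) (.pp [(1, 80000000)])) (.mul (.g 14) (.mul (.g 14) (.pp [(1,
 9888000000)]))))))) (.pp [(1, 241438155), (2, 539100), (3, 550608), (4, 520968), (5, 527106), (6,
 745686), (8, 625746), (9, 649968), (10, 721788), (12, 633570), (15, 735042), (16, 575166), (18,
 534660), (20, 511506), (24, 648630), (25, 656952), (27, 571182), (30, 548196), (36, 544392), (40,
 581262), (45, 458352), (50, 484422), (54, 631854), (60, 551964), (75, 550800), (81, 599958), (90,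
 753408), (100, 654642), (125, 622454), (135, 592266), (150, 731208), (225, 545322), (250, 633726),
 (375, 535158), (625, 595308)])))))))
 (.cut 2 [(2, -1), (3, 1)] (.add (.mul (.g 10) (.pp [(1, 1)])) (.add (.mul (.g 2) (.pp [(1, 1)]))
 (.mul (.g 0) (.pp [(1, 1)])))) (.rule 1 (.cut 1 [(2, 1), (5, -1)] (.add (.mul (.g 12) (.pp [(1,
 1)])) (.mul (.g 8) (.pp [(1, 1)]))) (.rule 2 (.leaf 24000000 (.add (.add (.add (.add (.mul (.g 7)
 (.add (.add (.pp [(1, 69479040000)]) (.add (.mul (.g 4) (.add (.add (.pp [(1, 6840000)]) (.mul (.g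
 6) (.pp [(1, 119993760000)]))) (.add (.mul (.g 7) (.pp [(1, 119988240000)])) (.mul (.g 9) (.mul
 (.g 11) (.pp [(1, 1440000)])))))) (.mul (.g 7) (.add (.mul (.pp [(1, 336)]) (.sq [(1, 71), (2,
 -38), (3, -38), (5, 100)])) (.mul (.g 7) (.add (.pp [(1, 43533360000)]) (.mul (.g 7) (.pp [(1,
 2322000000)])))))))) (.add (.add (.mul (.g 15) (.add (.pp [(1, 93398640000)]) (.mul (.pp [(1,
 1248)]) (.sq [(1, 28), (2, 50), (3, 11), (5, -11)])))) (.mul (.g 5) (.mul (.g 5) (.pp [(1,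
 239973600000)])))) (.add (.mul (.g 10) (.mul (.pp [(1, 1440)]) (.sq [(1, 39), (2, 50), (3, 9), (5,
 -9)]))) (.mul (.g 11) (.mul (.pp [(1, 72)]) (.sq [(1, 100), (2, -80), (3, -23), (5, 82)])))))))
 (.mul (.g 4) (.add (.add (.pp [(1, 84002520000)]) (.mul (.g 5) (.add (.add (.pp [(1, 2520000)])
 (.mul (.pp [(1, 72)]) (.sq [(1, 38), (2, 100), (3, 67), (5, 78)]))) (.add (.mul (.g 5) (.pp [(1,
 720000)])) (.mul (.g 6) (.pp [(1, 2400000)])))))) (.add (.mul (.g 6) (.add (.pp [(1, 4920000)])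
 (.mul (.pp [(1, 768)]) (.sq [(1, 25), (2, 22), (3, 22), (5, 22)])))) (.mul (.g 12) (.mul (.pp [(1,
 3)]) (.sq [(1, 93), (2, -34), (3, 25), (5, 100)]))))))) (.add (.mul (.g 10) (.add (.add (.mul (.pp
 [(1, 960000)]) (.sq [(2, 1), (3, 1), (5, 1)])) (.mul (.g 5) (.mul (.pp [(1, 24)]) (.sq [(1, 88),
 (2, 34), (3, 27), (5, 100)])))) (.add (.mul (.g 6) (.pp [(1, 4320000)])) (.mul (.g 14) (.mul (.pp
 [(1, 480000)]) (.sq [(2, 1), (5, -1)])))))) (.mul (.g 14) (.add (.pp [(1, 47990160000)]) (.mul (.g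
 15) (.pp [(1, 95973840000)])))))) (.add (.add (.mul (.g 0) (.pp [(1, 80000000000)])) (.mul (.g 2)
 (.pp [(1, 80000000000)]))) (.add (.mul (.g 6) (.mul (.g 15) (.pp [(1, 24023280000)]))) (.mul (.g
 13) (.pp [(1, 320000000)]))))) (.pp [(1, 5433713523), (2, 2111322), (3, 2606610), (4, 2126652),
 (5, 2454588), (6, 2419704), (8, 1928856), (9, 2253075), (10, 2341320), (12, 2555400), (15,
 1905792), (16, 1273536), (18, 2343270), (20, 2379408), (24, 2519424), (25, 2168544), (27, 550788),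
 (30, 2367600), (36, 2360832), (40, 2806464), (45, 2873508), (50, 2580288), (54, 835920), (60,
 2117760), (75, 2915808), (90, 2301432), (100, 2028672), (125, 2520704), (135, 78552), (150,
 2516832), (225, 262680), (250, 2636928), (375, 2402400), (625, 2423520)]))))))))
 (P_c4 ++ xP_G_F5b) = true := by decide +kernel

theorem t_G_T2_TpA_b : chk Rbp gP_G_T2
 (.split [(1, 1), (2, -20)]
 (.cut 1 [(1, 5), (3, -4)] (.add (.add (.mul (.g 1) (.pp [(1, 16)])) (.mul (.g 6) (.pp [(1, 4)])))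
 (.add (.mul (.g 3) (.pp [(1, 4)])) (.mul (.g 0) (.pp [(1, 1)])))) (.rule 8 (.cut 1 [(1, 2), (2,
 1), (3, -2), (5, -1)] (.add (.mul (.g 8) (.pp [(1, 1)])) (.add (.mul (.g 13) (.pp [(1, 1)])) (.mul
 (.g 6) (.pp [(1, 1)])))) (.cut 100 [(1, -1), (2, -2), (3, 2), (5, 2)] (.add (.add (.mul (.g 11)
 (.pp [(1, 9)])) (.mul (.g 12) (.pp [(1, 20)]))) (.add (.mul (.g 6) (.pp [(1, 20)])) (.mul (.g 3)
 (.pp [(1, 1)])))) (.rule 16 (.rule 4 (.leaf 30000000 (.add (.add (.add (.add (.mul (.g 10) (.add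
 (.add (.add (.mul (.pp [(1, 20037870)]) (.sq [(2, -4), (3, -36), (5, 25), (7, 100)])) (.mul (.g
 10) (.add (.add (.mul (.g 13) (.add (.mul (.g 6) (.pp [(1, 36803460000)])) (.add (.mul (.g 12)
 (.pp [(1, 681610200000)])) (.mul (.g 17) (.pp [(1, 3496524600000)]))))) (.mul (.g 14) (.add (.mul
 (.g 9) (.pp [(1, 33251280000)])) (.add (.mul (.g 10) (.pp [(1, 174693375000)])) (.mul (.g 15) (.pp
 [(1, 198027420000)])))))) (.add (.mul (.g 7) (.mul (.g 9) (.pp [(1, 59442900000)]))) (.mul (.g 8)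
 (.mul (.g 12) (.pp [(1, 271883700000)]))))))) (.add (.mul (.g 17) (.add (.pp [(1, 16993500000)])
 (.add (.mul (.pp [(1, 3249180)]) (.sq [(1, -37), (2, -19), (3, -42), (5, -20), (7, 100)])) (.mul
 (.g 17) (.add (.pp [(1, 940597500000)]) (.add (.mul (.g 8) (.pp [(1, 2076300000)])) (.mul (.g 13)
 (.pp [(1, 173424600000)])))))))) (.add (.mul (.g 8) (.add (.pp [(1, 385694400000)]) (.add (.mul
 (.pp [(1, 18510090)]) (.sq [(1, 100), (2, -30), (3, -67), (5, -2), (7, 83)])) (.mul (.g 9) (.pp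
 [(1, 249447900000)]))))) (.mul (.g 12) (.add (.mul (.pp [(1, 14736150)]) (.sq [(1, -2), (2, -22),
 (3, -88), (5, -5), (7, 100)])) (.mul (.pp [(1, 15212340)]) (.sq [(1, -56), (2, 13), (3, 50), (5,
 42), (7, 100)]))))))) (.add (.add (.mul (.g 7) (.pp [(1, 202656900000)])) (.mul (.g 9) (.pp [(1,
 198475200000)]))) (.add (.mul (.g 11) (.mul (.pp [(1, 5407530)]) (.sq [(1, 4), (2, -14), (3, -53),
 (5, 27), (7, 100)]))) (.add (.mul (.g 13) (.mul (.pp [(1, 9785400)]) (.sq [(1, -10), (2, -6), (3,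
 35), (5, 55), (7, 100)]))) (.mul (.g 15) (.pp [(1, 676978500000)]))))))) (.mul (.g 8) (.add (.add
 (.mul (.g 8) (.add (.add (.mul (.g 9) (.add (.mul (.g 7) (.pp [(1, 123269700000)])) (.add (.mul
 (.g 11) (.pp [(1, 232029000000)])) (.mul (.g 17) (.pp [(1, 16285500000)]))))) (.mul (.g 6) (.add
 (.mul (.g 6) (.pp [(1, 74856000)])) (.mul (.g 11) (.pp [(1, 3439380000)]))))) (.add (.mul (.g 8)
 (.add (.mul (.g 15) (.pp [(1, 426091800000)])) (.mul (.g 17) (.pp [(1, 293291100000)])))) (.add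
 (.mul (.g 11) (.mul (.g 14) (.pp [(1, 207960000)]))) (.mul (.g 12) (.mul (.g 15) (.pp [(1,
 41897100000)]))))))) (.add (.mul (.g 6) (.add (.mul (.g 9) (.add (.mul (.g 9) (.pp [(1,
 1136640000)])) (.mul (.g 17) (.pp [(1, 2421780000)])))) (.mul (.g 6) (.mul (.g 17) (.pp [(1,
 907859250)]))))) (.mul (.g 12) (.add (.pp [(1, 227674800000)]) (.mul (.g 12) (.pp [(1,
 390938100000)])))))) (.add (.mul (.g 7) (.mul (.g 7) (.mul (.g 15) (.pp [(1, 91529700000)]))))
 (.add (.mul (.g 9) (.mul (.pp [(1, 491520)]) (.sq [(1, -21), (2, 99), (3, -47), (5, 100), (7,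
 58)]))) (.mul (.g 17) (.pp [(1, 155970900000)]))))))) (.add (.mul (.g 7) (.add (.add (.mul (.g 6)
 (.add (.pp [(1, 10717935000)]) (.add (.mul (.g 12) (.mul (.g 15) (.pp [(1, 385065000)]))) (.mul
 (.g 13) (.pp [(1, 175485000)]))))) (.mul (.g 7) (.add (.mul (.g 7) (.mul (.g 13) (.pp [(1,
 24791100000)]))) (.add (.mul (.g 9) (.pp [(1, 30914400000)])) (.mul (.g 17) (.mul (.g 17) (.pp
 [(1, 128695800000)]))))))) (.add (.mul (.g 9) (.mul (.g 9) (.add (.pp [(1, 4577400000)]) (.mul (.g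
 13) (.pp [(1, 9036600000)]))))) (.add (.mul (.g 17) (.add (.mul (.pp [(1, 2544240)]) (.sq [(1,
 -59), (2, -4), (3, -70), (5, 100), (7, 1)])) (.mul (.pp [(1, 530610)]) (.sq [(1, 74), (2, 71), (3,
 100), (5, 75), (7, 37)])))) (.mul (.g 15) (.pp [(1, 179867400000)])))))) (.add (.mul (.g 17) (.add
 (.add (.mul (.g 9) (.add (.pp [(1, 280876800000)]) (.add (.mul (.pp [(1, 387630)]) (.sq [(1, 35),
 (2, 56), (3, 100), (5, 76), (7, 56)])) (.mul (.g 9) (.mul (.g 11) (.pp [(1, 66478500000)]))))))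
 (.mul (.g 17) (.add (.mul (.pp [(1, 2065440)]) (.sq [(1, 16), (2, 1), (3, 16), (5, 100), (7,
 24)])) (.add (.mul (.pp [(1, 474900)]) (.sq [(1, -35), (2, 100), (3, -86), (5, -37), (7, 37)]))
 (.mul (.pp [(1, 18232560)]) (.sq [(1, 50), (2, -33), (3, -7), (5, -7), (7, -41)])))))) (.add (.mul
 (.g 11) (.mul (.pp [(1, 700020)]) (.sq [(1, -51), (2, 46), (3, 18), (5, 33), (7, 100)]))) (.mul
 (.g 15) (.mul (.pp [(1, 16754040)]) (.sq [(1, 71), (2, -3), (3, -76), (5, 20), (7, 100)]))))))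
 (.mul (.g 12) (.add (.mul (.g 9) (.add (.pp [(1, 387700800000)]) (.add (.mul (.pp [(1, 246600)])
 (.sq [(1, -73), (2, -14), (3, 100), (5, 52), (7, -14)])) (.mul (.g 9) (.pp [(1, 2334900000)])))))
 (.add (.mul (.g 12) (.add (.mul (.pp [(1, 1615200)]) (.sq [(1, -5), (2, 50), (3, 24), (5, -10),
 (7, 49)])) (.mul (.pp [(1, 410010)]) (.sq [(1, 52), (2, 100), (5, -35), (7, -37)])))) (.mul (.g 6)
 (.pp [(1, 11531190000)])))))))) (.add (.add (.mul (.g 6) (.add (.pp [(1, 6476685000)]) (.add (.mul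
 (.g 9) (.mul (.pp [(1, 88560)]) (.sq [(1, 41), (2, 48), (3, 50), (5, 49), (7, 48)]))) (.mul (.g
 15) (.mul (.pp [(1, 108087)]) (.sq [(1, 23), (2, 40), (3, -83), (5, 100), (7, 71)])))))) (.add
 (.mul (.g 0) (.pp [(1, 100000000000)])) (.mul (.g 1) (.pp [(1, 100000000000)])))) (.add (.mul (.g
 4) (.pp [(1, 120000000)])) (.add (.mul (.g 15) (.pp [(1, 343865100000)])) (.mul (.g 16) (.pp [(1,
 100000000000)])))))) (.pp [(1, 3069814463), (2, 3120480), (3, 2675421), (4, 3328320), (5,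
 3087090), (6, 2652480), (7, 2435622), (8, 3241470), (9, 3268299), (10, 2847960), (12, 2384880),
 (14, 3084660), (15, 3152190), (16, 3000000), (18, 3284820), (20, 2409900), (21, 3630066), (23,
 300000000000), (24, 2974530), (25, 3261510), (27, 2889457), (28, 2484420), (30, 4060200), (35,
 2977290), (36, 2917560), (40, 2881200), (42, 2940120), (45, 2423040), (49, 3390897), (50,
 3475230), (54, 3212220), (56, 2832750), (60, 3273540), (63, 2877252), (70, 3376980), (75,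
 2668560), (81, 2871360), (84, 3547260), (90, 2916240), (98, 2543550), (100, 3285750), (105,
 3032580), (125, 2803860), (126, 3024690), (135, 2973840), (140, 3378660), (147, 3134853), (150,
 3012930), (175, 2911950), (189, 2916030), (196, 3130830), (210, 2401200), (225, 3041010), (245,
 3319740), (250, 3029700), (294, 3510570), (315, 2889420), (343, 2801880), (350, 3006570), (375,
 2928780), (441, 2674710), (490, 2791920), (525, 2677830), (625, 3024150), (686, 3056850), (735,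
 2391540), (875, 3007890), (1029, 3164430), (1225, 2885730), (1715, 2962440), (2401,
 3035100)])))))))))
 (.split [(1, -3), (5, 5)]
 (.cut 1 [(2, -1), (3, 1)] (.add (.mul (.g 10) (.pp [(1, 1)])) (.mul (.g 6) (.pp [(1, 1)]))) (.rule
 1 (.cut 1 [(2, 1), (5, -1)] (.add (.mul (.g 12) (.pp [(1, 1)])) (.mul (.g 9) (.pp [(1, 1)])))
 (.rule 2 (.cut 2 [(1, 5), (3, -4)] (.add (.add (.mul (.g 11) (.pp [(1, 5)])) (.mul (.g 16) (.pp
 [(1, 3)]))) (.add (.mul (.g 4) (.pp [(1, 1)])) (.add (.mul (.g 9) (.pp [(1, 3)])) (.mul (.g 10)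
 (.pp [(1, 5)]))))) (.rule 8 (.cut 13 [(1, 3), (5, -2)] (.add (.add (.mul (.g 3) (.pp [(1, 36)]))
 (.mul (.g 6) (.pp [(1, 2)]))) (.add (.mul (.g 5) (.pp [(1, 36)])) (.mul (.g 1) (.pp [(1, 9)]))))
 (.rule 12 (.cut 1 [(1, 2), (2, 1), (3, -2), (5, -1)] (.add (.mul (.g 15) (.pp [(1, 1)])) (.add
 (.mul (.g 13) (.pp [(1, 1)])) (.mul (.g 20) (.pp [(1, 1)])))) (.cut 9 [(1, -1), (2, -2), (3, 2),
 (5, 2)] (.add (.mul (.g 8) (.pp [(1, 18)])) (.add (.mul (.g 2) (.pp [(1, 1)])) (.mul (.g 9) (.pp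
 [(1, 4)])))) (.rule 16 (.leaf 60000000 (.add (.add (.add (.add (.mul (.g 16) (.add (.add (.pp [(1,
 69620400000)]) (.add (.mul (.g 16) (.add (.add (.mul (.g 14) (.add (.add (.pp [(1, 146224200000)])
 (.mul (.g 11) (.pp [(1, 38543520000)]))) (.add (.mul (.g 18) (.pp [(1, 193610400000)])) (.mul (.g
 23) (.pp [(1, 50066400000)]))))) (.mul (.g 16) (.add (.pp [(1, 155682600000)]) (.add (.mul (.g 18)
 (.pp [(1, 51534000000)])) (.mul (.g 23) (.pp [(1, 50078400000)])))))) (.add (.mul (.g 19) (.add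
 (.pp [(1, 121093200000)]) (.mul (.g 17) (.pp [(1, 334357800000)])))) (.add (.mul (.g 21) (.add
 (.pp [(1, 423723600000)]) (.mul (.g 15) (.pp [(1, 8842200000)])))) (.mul (.g 11) (.mul (.g 13)
 (.pp [(1, 8358720000)]))))))) (.mul (.g 14) (.add (.add (.pp [(1, 2034120600000)]) (.mul (.g 14)
 (.add (.add (.mul (.g 11) (.pp [(1, 269471760000)])) (.mul (.g 18) (.pp [(1, 618268200000)])))
 (.add (.mul (.g 21) (.pp [(1, 2435038800000)])) (.mul (.g 23) (.pp [(1, 546550200000)])))))) (.add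
 (.mul (.g 11) (.mul (.g 15) (.pp [(1, 365809440000)]))) (.mul (.g 21) (.mul (.g 21) (.pp [(1,
 207834600000)])))))))) (.add (.mul (.g 17) (.add (.mul (.g 15) (.add (.mul (.g 20) (.pp [(1,
 4386600000)])) (.mul (.g 23) (.pp [(1, 358412400000)])))) (.mul (.g 21) (.add (.mul (.g 20) (.pp
 [(1, 6330600000)])) (.mul (.g 21) (.pp [(1, 166699800000)])))))) (.add (.mul (.g 13) (.add (.pp
 [(1, 518662800000)]) (.mul (.g 11) (.mul (.g 13) (.pp [(1, 13939920000)]))))) (.mul (.g 15) (.pp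
 [(1, 410215200000)])))))) (.add (.mul (.g 18) (.add (.add (.mul (.g 18) (.add (.add (.mul (.pp
 [(1, 3387180)]) (.sq [(1, 27), (2, -32), (3, -89), (5, -38), (7, 100)])) (.add (.mul (.pp [(1,
 6061800)]) (.sq [(1, -5), (2, 91), (3, -5), (5, 100), (7, -5)])) (.mul (.pp [(1, 31620)]) (.sq
 [(1, 34), (2, 52), (3, 35), (5, 35), (7, 100)])))) (.add (.mul (.pp [(1, 253620)]) (.sq [(1, 58),
 (2, 100), (3, 23), (5, -71), (7, -2)])) (.add (.mul (.pp [(1, 16077540)]) (.sq [(1, 100), (2,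
 -44), (3, 29), (5, 29), (7, -31)])) (.mul (.g 20) (.pp [(1, 6023370000)])))))) (.add (.mul (.g 11)
 (.add (.add (.pp [(1, 52071240000)]) (.mul (.g 11) (.mul (.g 13) (.pp [(1, 4786752000)])))) (.add
 (.mul (.g 15) (.mul (.g 20) (.pp [(1, 507138000)]))) (.mul (.g 19) (.mul (.g 19) (.pp [(1,
 9987960000)])))))) (.mul (.g 23) (.add (.mul (.pp [(1, 15231960)]) (.sq [(1, -24), (2, 95), (3,
 100), (5, -6), (7, -6)])) (.add (.mul (.pp [(1, 3506040)]) (.sq [(1, -31), (2, 1), (3, -34), (5,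
 -60), (7, 100)])) (.mul (.g 14) (.mul (.g 17) (.pp [(1, 496552200000)])))))))) (.add (.add (.mul
 (.g 19) (.add (.mul (.pp [(1, 6381300)]) (.sq [(1, -50), (2, 100), (3, -29), (5, 44), (7, -63)]))
 (.mul (.g 21) (.mul (.g 21) (.pp [(1, 195378000000)]))))) (.mul (.g 14) (.mul (.pp [(1, 6596760)])
 (.sq [(1, 22), (2, 100), (3, 34), (5, 1), (7, -39)])))) (.add (.mul (.g 17) (.pp [(1,
 114923400000)])) (.mul (.g 21) (.mul (.pp [(1, 6667500)]) (.sq [(1, -45), (2, 95), (3, 100), (5,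
 -14), (7, 78)]))))))) (.mul (.g 14) (.add (.mul (.g 21) (.add (.add (.mul (.pp [(1, 75234060)])
 (.sq [(1, 18), (2, -21), (3, -72), (5, -25), (7, 100)])) (.mul (.g 11) (.mul (.g 13) (.pp [(1,
 40680120000)])))) (.add (.mul (.g 14) (.pp [(1, 320276400000)])) (.mul (.g 15) (.mul (.g 15) (.pp
 [(1, 1626272400000)])))))) (.add (.mul (.g 23) (.add (.add (.pp [(1, 1123583400000)]) (.mul (.g
 13) (.mul (.g 13) (.pp [(1, 457597200000)])))) (.add (.mul (.g 14) (.mul (.g 14) (.pp [(1,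
 171155400000)]))) (.mul (.g 15) (.mul (.g 15) (.pp [(1, 1768384800000)])))))) (.mul (.g 11) (.mul
 (.g 17) (.mul (.g 17) (.pp [(1, 28668720000)]))))))))) (.add (.add (.mul (.g 12) (.add (.add (.mul
 (.g 17) (.add (.mul (.pp [(1, 19035)]) (.sq [(1, 70), (2, -62), (3, 100), (5, -93), (7, 66)]))
 (.mul (.g 17) (.mul (.g 17) (.pp [(1, 3094620000)]))))) (.mul (.g 11) (.mul (.g 11) (.pp [(1,
 110468400)])))) (.add (.mul (.g 12) (.mul (.g 20) (.mul (.g 21) (.pp [(1, 2722575)])))) (.mul (.g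
 23) (.mul (.pp [(1, 63399)]) (.sq [(1, 70), (2, 99), (3, 100), (5, 100), (7, 28)])))))) (.mul (.g
 21) (.add (.add (.pp [(1, 837003600000)]) (.mul (.g 11) (.mul (.pp [(1, 2121276)]) (.sq [(1, -48),
 (2, -11), (3, -62), (5, 100), (7, 20)])))) (.add (.mul (.g 13) (.pp [(1, 726013200000)])) (.mul
 (.g 15) (.mul (.g 15) (.mul (.g 21) (.pp [(1, 273033000000)])))))))) (.add (.mul (.g 20) (.add
 (.mul (.pp [(1, 623919)]) (.sq [(1, -23), (2, 43), (3, -69), (5, 100)])) (.add (.mul (.g 19) (.mul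
 (.pp [(1, 60825)]) (.sq [(1, -12), (2, -65), (3, 51), (5, 56), (7, 100)]))) (.mul (.g 23) (.mul
 (.pp [(1, 727452)]) (.sq [(1, 84), (2, -79), (3, -100), (5, 11), (7, -9)])))))) (.mul (.g 23)
 (.add (.mul (.g 15) (.pp [(1, 676676400000)])) (.mul (.g 23) (.mul (.pp [(1, 29787120)]) (.sq [(1,
 50), (2, -33), (3, -7), (5, -7), (7, -41)])))))))) (.add (.add (.add (.mul (.g 0) (.pp [(1,
 200000000000)])) (.mul (.g 3) (.pp [(1, 60000000)]))) (.add (.mul (.g 5) (.pp [(1, 240000000)]))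
 (.mul (.g 7) (.pp [(1, 200000000000)])))) (.add (.add (.mul (.g 9) (.pp [(1, 200000000000)]))
 (.mul (.g 11) (.mul (.g 11) (.mul (.pp [(1, 194568)]) (.sq [(1, 44), (2, -4), (3, 100), (5,
 -77)]))))) (.add (.mul (.g 17) (.mul (.g 17) (.mul (.pp [(1, 389340)]) (.sq [(1, 85), (2, 58), (3,
 100), (5, 64), (7, -36)])))) (.mul (.g 22) (.pp [(1, 200000000000)])))))) (.pp [(1, 1738749628),
 (2, 6310182), (3, 4776957), (4, 4613286), (5, 5508216), (6, 6211458), (7, 5393076), (8, 5357535),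
 (9, 6968355), (10, 6873504), (12, 6954576), (14, 7272588), (15, 5629176), (16, 5302500), (18,
 7414857), (20, 8038065), (21, 6223776), (24, 7032960), (25, 5847975), (27, 5189777), (28,
 6266133), (30, 6043434), (35, 6102972), (36, 6122100), (40, 6876840), (42, 3501168), (45,
 5012985), (49, 7328460), (50, 3561465), (54, 5103720), (56, 6474300), (60, 4581840), (63,
 7186320), (70, 5776164), (75, 7490232), (81, 6184800), (84, 6185760), (90, 4812840), (98,
 5492688), (100, 4727700), (105, 5837064), (125, 7058120), (126, 6966720), (135, 6911640), (140,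
 5623320), (147, 3905376), (150, 7461000), (175, 5424132), (189, 4919760), (196, 6795000), (210,
 6781680), (225, 6032400), (245, 4980444), (250, 7378680), (294, 5834520), (315, 5746680), (343,
 5222676), (350, 6390000), (375, 4708200), (441, 6532560), (490, 5122320), (525, 6277440), (625,
 5479020), (686, 6427920), (735, 7133640), (875, 6028920), (1029, 6417360), (1225, 6804360), (1715,
 5914800), (2401, 6251280)]))))))))))))))
 (.split [(1, -7), (5, 50)]
 (.cut 1 [(2, -1), (3, 1)] (.add (.mul (.g 11) (.pp [(1, 1)])) (.mul (.g 7) (.pp [(1, 1)]))) (.rule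
 1 (.cut 1 [(2, 1), (5, -1)] (.add (.mul (.g 13) (.pp [(1, 1)])) (.mul (.g 10) (.pp [(1, 1)])))
 (.rule 2 (.cut 43 [(1, 5), (3, -4)] (.add (.add (.mul (.g 12) (.pp [(1, 50)])) (.mul (.g 17) (.pp
 [(1, 122)]))) (.add (.mul (.g 4) (.pp [(1, 1)])) (.add (.mul (.g 10) (.pp [(1, 122)])) (.mul (.g
 11) (.pp [(1, 50)]))))) (.rule 8 (.rule 11 (.rule 23 (.leaf 3300000000 (.add (.add (.add (.add
 (.mul (.g 14) (.add (.add (.add (.pp [(1, 3056493000000)]) (.mul (.g 14) (.add (.add (.mul (.pp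
 [(1, 239527200)]) (.sq [(1, 100), (2, -35), (3, 93), (5, -17), (7, -27)])) (.add (.mul (.g 14)
 (.add (.add (.pp [(1, 10171260000000)]) (.mul (.g 15) (.pp [(1, 2460546000000)]))) (.add (.mul (.g
 16) (.pp [(1, 12937353000000)])) (.mul (.g 21) (.pp [(1, 8640126000000)]))))) (.mul (.g 8) (.add
 (.mul (.g 8) (.pp [(1, 1750874400)])) (.mul (.g 11) (.pp [(1, 12547260000)])))))) (.add (.add
 (.mul (.g 17) (.add (.pp [(1, 5447607000000)]) (.mul (.g 15) (.pp [(1, 8079489000000)])))) (.mul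
 (.g 9) (.mul (.g 12) (.pp [(1, 509645400000)])))) (.add (.mul (.g 16) (.mul (.g 21) (.pp [(1,
 2964060000000)]))) (.mul (.g 19) (.pp [(1, 16099842000000)]))))))) (.add (.mul (.g 12) (.add (.mul
 (.g 13) (.add (.pp [(1, 9940392000000)]) (.add (.mul (.g 11) (.pp [(1, 62049669000000)])) (.mul
 (.g 12) (.pp [(1, 6381045000000)]))))) (.add (.mul (.g 8) (.add (.mul (.g 11) (.pp [(1,
 432970560000)])) (.mul (.g 12) (.pp [(1, 943376940000)])))) (.mul (.g 19) (.mul (.g 21) (.pp [(1,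
 3943071000000)])))))) (.mul (.g 11) (.add (.pp [(1, 20832966000000)]) (.add (.mul (.g 8) (.mul (.g
 11) (.pp [(1, 258463920000)]))) (.mul (.g 9) (.mul (.g 19) (.pp [(1, 3663316800000)])))))))) (.add
 (.add (.mul (.g 21) (.add (.pp [(1, 26160486000000)]) (.mul (.pp [(1, 115430700)]) (.sq [(1, 67),
 (2, 54), (3, 100), (5, -50), (7, -19)])))) (.mul (.g 8) (.mul (.g 8) (.mul (.g 8) (.pp [(1,
 20299488)]))))) (.add (.mul (.g 17) (.mul (.pp [(1, 660564300)]) (.sq [(1, 57), (2, 67), (3, 100),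
 (5, 77), (7, -17)]))) (.mul (.g 18) (.mul (.pp [(1, 51807525)]) (.sq [(2, 30), (3, 26), (5, 9),
 (7, 100)]))))))) (.add (.mul (.g 21) (.add (.add (.mul (.g 8) (.add (.mul (.pp [(1, 1424742)])
 (.sq [(1, 31), (2, 63), (3, 100), (5, 100), (7, 42)])) (.add (.mul (.g 12) (.add (.mul (.g 11)
 (.pp [(1, 1403317740000)])) (.mul (.g 12) (.pp [(1, 1355667060000)])))) (.mul (.g 8) (.mul (.g 17)
 (.pp [(1, 918284400)])))))) (.add (.mul (.g 21) (.add (.mul (.pp [(1, 506167200)]) (.sq [(1, 15),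
 (2, 60), (3, -100), (5, -10), (7, 77)])) (.add (.mul (.pp [(1, 92571600)]) (.sq [(1, -6), (2,
 -35), (3, 58), (5, 89), (7, 100)])) (.mul (.pp [(1, 2724598800)]) (.sq [(1, 50), (2, -33), (3,
 -7), (5, -7), (7, -41)]))))) (.mul (.g 10) (.add (.mul (.pp [(1, 32757615)]) (.sq [(1, -12), (2,
 -64), (3, -24), (5, -55), (7, 100)])) (.mul (.pp [(1, 14106840)]) (.sq [(1, 70), (2, 99), (3,
 100), (5, 100), (7, 28)])))))) (.add (.add (.mul (.g 12) (.add (.pp [(1, 16659687000000)]) (.mul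
 (.pp [(1, 84328200)]) (.sq [(1, 48), (2, 71), (3, -14), (5, 100), (7, -35)])))) (.mul (.g 13)
 (.add (.pp [(1, 22195173000000)]) (.mul (.g 13) (.pp [(1, 2494338000000)]))))) (.add (.mul (.g 15)
 (.mul (.pp [(1, 15378000)]) (.sq [(1, -51), (2, 39), (3, 21), (5, 21), (7, 100)]))) (.mul (.g 18)
 (.mul (.pp [(1, 21464520)]) (.sq [(1, 48), (2, 100), (3, 69), (5, 69), (7, 82)]))))))) (.mul (.g
 19) (.add (.add (.pp [(1, 9280359000000)]) (.add (.mul (.g 12) (.add (.mul (.pp [(1, 664834500)])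
 (.sq [(1, 8), (2, 74), (3, 41), (5, 100), (7, 2)])) (.add (.mul (.g 13) (.add (.mul (.g 11) (.pp
 [(1, 30517938000000)])) (.add (.mul (.g 12) (.pp [(1, 83717370000000)])) (.mul (.g 13) (.pp [(1,
 15505809000000)]))))) (.mul (.g 9) (.mul (.g 18) (.pp [(1, 249913620000)])))))) (.mul (.g 9) (.add
 (.pp [(1, 151588800000)]) (.mul (.g 13) (.mul (.g 18) (.pp [(1, 1891230000)]))))))) (.add (.mul
 (.g 11) (.pp [(1, 6961416000000)])) (.add (.mul (.g 13) (.mul (.pp [(1, 1532582700)]) (.sq [(1,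
 -17), (2, 59), (3, 100), (5, 43), (7, 23)]))) (.mul (.g 16) (.mul (.g 17) (.mul (.g 19) (.pp [(1,
 5322735000000)])))))))))) (.add (.mul (.g 16) (.add (.add (.mul (.g 16) (.add (.add (.mul (.pp
 [(1, 716222100)]) (.sq [(1, 100), (2, -44), (3, 29), (5, 29), (7, -31)])) (.mul (.pp [(1,
 173639400)]) (.sq [(1, 9), (2, 100), (3, 30), (5, 73), (7, 11)]))) (.add (.mul (.g 17) (.pp [(1,
 903243000000)])) (.mul (.g 18) (.pp [(1, 178825350000)]))))) (.mul (.g 9) (.pp [(1,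
 440860200000)]))) (.add (.mul (.g 10) (.mul (.pp [(1, 3002835)]) (.sq [(1, 80), (2, 100), (3, 79),
 (5, 79), (7, 73)]))) (.add (.mul (.g 13) (.mul (.pp [(1, 139009200)]) (.sq [(1, -3), (2, -21), (3,
 -30), (5, 21), (7, 50)]))) (.mul (.g 15) (.mul (.pp [(1, 36379200)]) (.sq [(1, 5), (2, 100), (3,
 -30), (5, -34), (7, -4)]))))))) (.add (.mul (.g 9) (.add (.mul (.g 18) (.add (.mul (.pp [(1,
 294261)]) (.sq [(1, 37), (2, -100), (3, 45), (5, -50), (7, -63)])) (.mul (.g 8) (.mul (.g 18) (.pp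
 [(1, 13931280)]))))) (.add (.mul (.g 9) (.pp [(1, 46470600000)])) (.mul (.g 12) (.mul (.g 13)
 (.mul (.g 15) (.pp [(1, 772002000000)]))))))) (.mul (.g 10) (.add (.mul (.g 10) (.mul (.g 10)
 (.mul (.g 13) (.pp [(1, 340972500)])))) (.add (.mul (.g 15) (.mul (.pp [(1, 15246000)]) (.sq [(1,
 56), (2, -100), (3, 88), (5, -59), (7, 43)]))) (.mul (.g 17) (.mul (.pp [(1, 11909205)]) (.sq [(1,
 11), (2, 100), (3, -16), (5, -29), (7, 12)]))))))))) (.add (.add (.mul (.g 15) (.add (.mul (.g 8)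
 (.mul (.g 8) (.mul (.g 8) (.pp [(1, 2154768)])))) (.mul (.g 15) (.mul (.pp [(1, 184747200)]) (.sq
 [(1, -3), (2, 36), (3, -96), (5, 100), (7, 79)]))))) (.add (.mul (.g 0) (.pp [(1,
 1000000000000)])) (.mul (.g 1) (.pp [(1, 6600000000)])))) (.add (.add (.mul (.g 2) (.pp [(1,
 13200000000)])) (.mul (.g 4) (.pp [(1, 11000000000000)]))) (.add (.mul (.g 6) (.pp [(1,
 11000000000000)])) (.mul (.g 20) (.pp [(1, 11000000000000)])))))) (.pp [(1, 70019878961), (2,
 344757115), (3, 308046421), (4, 420150566), (5, 286035080), (6, 174032936), (7, 333960792), (8,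
 329986800), (9, 388029510), (10, 180785990), (12, 256827934), (14, 330930864), (15, 502264510),
 (16, 333643200), (18, 410480675), (20, 173322600), (21, 355651824), (24, 349496400), (25,
 397703900), (27, 302752725), (28, 343942434), (30, 566147230), (35, 347973780), (36, 343312200),
 (40, 387433200), (42, 326324922), (45, 192141730), (49, 327061218), (50, 438025830), (54,
 358541700), (56, 337269900), (60, 257175600), (63, 253503690), (70, 363125070), (75, 256126585),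
 (81, 321677400), (84, 441813900), (90, 356499000), (98, 348777627), (100, 292957500), (105,
 267231030), (125, 337848170), (126, 350308200), (135, 331138500), (140, 365910600), (147,
 292902489), (150, 383496300), (175, 338646000), (189, 349661400), (196, 367844400), (210,
 265207800), (225, 280265700), (245, 305397180), (250, 321116400), (294, 371048700), (315,
 306055200), (343, 305157204), (350, 299874300), (375, 306005700), (441, 359063100), (490,
 344256000), (525, 274183800), (625, 329158500), (686, 332399100), (735, 322905000), (875,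
 289878600), (1029, 361818600), (1225, 329313600), (1715, 331468500), (2401, 349242300)])))))))))))
 (.cut 450 [(2, -1), (3, 1)] (.add (.mul (.g 10) (.pp [(1, 7)])) (.add (.mul (.g 9) (.pp [(1,
 310)])) (.mul (.g 0) (.pp [(1, 9)])))) (.rule 1 (.cut 1 [(2, 1), (5, -1)] (.add (.mul (.g 13) (.pp
 [(1, 1)])) (.mul (.g 10) (.pp [(1, 1)]))) (.rule 2 (.cut 1 [(1, 5), (3, -4)] (.add (.add (.mul (.g
 12) (.pp [(1, 1)])) (.mul (.g 17) (.pp [(1, 3)]))) (.add (.mul (.g 9) (.pp [(1, 1)])) (.add (.mul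
 (.g 10) (.pp [(1, 3)])) (.mul (.g 11) (.pp [(1, 1)]))))) (.rule 8 (.rule 23 (.leaf 660000000 (.add
 (.add (.add (.add (.mul (.g 13) (.add (.add (.add (.mul (.g 13) (.add (.add (.mul (.g 13) (.add
 (.add (.mul (.g 11) (.pp [(1, 1372338000000)])) (.mul (.g 12) (.pp [(1, 1091217600000)]))) (.add
 (.mul (.g 16) (.pp [(1, 1253729400000)])) (.mul (.g 20) (.pp [(1, 182232600000)]))))) (.mul (.g
 16) (.add (.mul (.g 8) (.pp [(1, 48840000000)])) (.mul (.g 14) (.pp [(1, 5091411600000)])))))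
 (.add (.mul (.g 18) (.add (.pp [(1, 4187746200000)]) (.mul (.g 11) (.pp [(1, 2611606800000)]))))
 (.mul (.g 17) (.pp [(1, 16428720000)]))))) (.mul (.g 11) (.add (.pp [(1, 708958800000)]) (.add
 (.mul (.g 10) (.add (.mul (.g 14) (.pp [(1, 3533098800000)])) (.mul (.g 18) (.pp [(1,
 142197000000)])))) (.mul (.g 20) (.add (.mul (.g 14) (.pp [(1, 3926967000000)])) (.mul (.g 18)
 (.pp [(1, 3252044400000)])))))))) (.add (.mul (.g 18) (.add (.pp [(1, 1566345000000)]) (.add (.mul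
 (.pp [(1, 93149100)]) (.sq [(1, 52), (2, -100), (3, -97), (5, 93), (7, -89)])) (.mul (.g 10) (.mul
 (.g 18) (.pp [(1, 106992600000)])))))) (.mul (.g 20) (.add (.pp [(1, 1063524000000)]) (.add (.mul
 (.pp [(1, 45200100)]) (.sq [(1, 100), (2, 45), (3, 85), (5, 85), (7, 69)])) (.mul (.g 7) (.mul (.g
 9) (.pp [(1, 9204056400)])))))))) (.add (.add (.mul (.g 10) (.pp [(1, 721571400000)])) (.mul (.g
 12) (.pp [(1, 2731390200000)]))) (.add (.mul (.g 14) (.mul (.pp [(1, 64266840)]) (.sq [(1, 1), (2,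
 2), (3, -22), (5, 15), (7, 100)]))) (.mul (.g 15) (.mul (.pp [(1, 160939020)]) (.sq [(1, 74), (2,
 -39), (5, -26), (7, 100)]))))))) (.add (.mul (.g 18) (.add (.add (.mul (.g 11) (.add (.pp [(1,
 1180179000000)]) (.add (.mul (.pp [(1, 29262420)]) (.sq [(1, 9), (2, 74), (3, 41), (5, 100), (7,
 3)])) (.mul (.g 12) (.add (.mul (.g 11) (.pp [(1, 1711828800000)])) (.mul (.g 12) (.pp [(1,
 5101800000)]))))))) (.add (.mul (.g 16) (.add (.mul (.pp [(1, 6489780)]) (.sq [(1, 11), (2, -28),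
 (3, 81), (5, -27), (7, 100)])) (.add (.mul (.g 8) (.mul (.g 12) (.pp [(1, 116229960000)]))) (.mul
 (.g 15) (.mul (.g 18) (.pp [(1, 1633744200000)])))))) (.mul (.g 14) (.add (.mul (.pp [(1,
 22515900)]) (.sq [(1, -13), (2, 61), (3, 100), (5, -34), (7, -81)])) (.mul (.pp [(1, 37885320)])
 (.sq [(1, 1), (2, -4), (3, 35), (5, -28), (7, 100)])))))) (.add (.mul (.g 20) (.add (.mul (.g 7)
 (.mul (.g 12) (.pp [(1, 29305056000)]))) (.mul (.g 20) (.mul (.g 20) (.pp [(1, 557139000000)])))))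
 (.add (.mul (.g 10) (.pp [(1, 550618200000)])) (.mul (.g 17) (.mul (.pp [(1, 13627218)]) (.sq [(1,
 8), (2, -30), (3, 69), (5, -29), (7, 100)]))))))) (.mul (.g 20) (.add (.add (.pp [(1,
 619264800000)]) (.add (.mul (.g 10) (.add (.mul (.g 7) (.add (.mul (.g 11) (.pp [(1,
 14349852000)])) (.mul (.g 20) (.pp [(1, 85582728000)])))) (.mul (.g 10) (.pp [(1,
 722548200000)])))) (.mul (.g 12) (.add (.pp [(1, 1722210600000)]) (.add (.mul (.pp [(1,
 10789020)]) (.sq [(1, 79), (2, 36), (3, -30), (5, 100), (7, 41)])) (.mul (.pp [(1, 28071780)])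
 (.sq [(1, 36), (2, 76), (3, 100), (5, 100), (7, 55)]))))))) (.add (.mul (.g 20) (.add (.mul (.pp
 [(1, 68796420)]) (.sq [(1, -2), (2, 60), (3, -100), (5, -11), (7, 76)])) (.mul (.g 11) (.mul (.g
 20) (.pp [(1, 31495200000)]))))) (.add (.mul (.g 14) (.mul (.pp [(1, 101678940)]) (.sq [(1, -51),
 (2, 39), (3, 21), (5, 21), (7, 100)]))) (.mul (.g 15) (.mul (.pp [(1, 56248500)]) (.sq [(1, -10),
 (2, 100), (3, 63), (5, 95), (7, -15)]))))))))) (.add (.add (.mul (.g 15) (.add (.add (.mul (.g 15)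
 (.add (.add (.mul (.pp [(1, 94183320)]) (.sq [(1, 100), (2, -44), (3, 29), (5, 29), (7, -31)]))
 (.mul (.pp [(1, 15018300)]) (.sq [(1, 8), (2, 100), (3, 29), (5, 75), (7, 14)]))) (.add (.mul (.g
 16) (.pp [(1, 629376000000)])) (.mul (.g 17) (.pp [(1, 29108640000)]))))) (.mul (.g 17) (.add (.pp
 [(1, 40729260000)]) (.mul (.g 7) (.mul (.g 8) (.pp [(1, 55165440)])))))) (.add (.mul (.g 9) (.mul
 (.pp [(1, 1241229)]) (.sq [(1, 80), (2, 100), (3, 79), (5, 79), (7, 73)]))) (.add (.mul (.g 11)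
 (.mul (.pp [(1, 17109840)]) (.sq [(1, 44), (2, -21), (3, -100), (5, 23), (7, 88)]))) (.mul (.g 14)
 (.mul (.pp [(1, 33213180)]) (.sq [(1, 33), (2, 100), (3, -21), (5, -52), (7, 96)]))))))) (.mul (.g
 7) (.add (.mul (.g 11) (.add (.pp [(1, 9719292000)]) (.mul (.g 12) (.add (.pp [(1, 29309940000)])
 (.mul (.g 14) (.pp [(1, 241428000)])))))) (.add (.mul (.g 12) (.pp [(1, 24693108000)])) (.mul (.g
 16) (.pp [(1, 2137080000)])))))) (.add (.mul (.g 9) (.add (.mul (.g 9) (.mul (.g 9) (.add (.mul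
 (.g 12) (.pp [(1, 27710100)])) (.mul (.g 16) (.pp [(1, 21926025)]))))) (.mul (.g 14) (.add (.mul
 (.pp [(1, 36135)]) (.sq [(1, -45), (2, 100), (3, 48), (5, 48), (7, -35)])) (.mul (.pp [(1,
 2162028)]) (.sq [(1, 56), (2, -100), (3, 89), (5, -61), (7, 46)])))))) (.mul (.g 0) (.pp [(1,
 200000000000)]))))) (.add (.add (.add (.mul (.g 1) (.pp [(1, 2640000000)])) (.mul (.g 3) (.pp [(1,
 2200000000000)]))) (.add (.mul (.g 5) (.pp [(1, 2200000000000)])) (.mul (.g 8) (.mul (.g 8) (.mul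
 (.g 10) (.mul (.g 10) (.pp [(1, 15884352000)]))))))) (.add (.add (.mul (.g 11) (.mul (.g 17) (.mul
 (.g 17) (.pp [(1, 1897170000)])))) (.mul (.g 12) (.mul (.g 12) (.mul (.pp [(1, 18671400)]) (.sq
 [(1, 10), (2, 65), (3, 18), (5, 25), (7, 100)]))))) (.add (.mul (.g 16) (.mul (.g 16) (.mul (.pp
 [(1, 10040580)]) (.sq [(1, -4), (2, -2), (3, 10), (5, 100), (7, 17)])))) (.mul (.g 19) (.pp [(1,
 2200000000000)])))))) (.pp [(1, 70222038955), (2, 59032712), (3, 64549109), (4, 70148980), (5,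
 67133977), (6, 77503756), (7, 59449566), (8, 67364880), (9, 67182423), (10, 83016736), (12,
 75270800), (14, 70672074), (15, 69974630), (16, 64730160), (18, 57446521), (20, 59360400), (21,
 85255830), (23, 6600000000000), (24, 65120880), (25, 64748695), (27, 65074053), (28, 65570340),
 (30, 53184362), (35, 75847530), (36, 59853420), (40, 74020320), (42, 53997702), (45, 57495449),
 (49, 68091804), (50, 73343721), (54, 68689500), (56, 61708680), (60, 58817880), (63, 47248674),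
 (70, 55037862), (75, 62539235), (81, 66410520), (84, 73076520), (90, 74292240), (98, 65788998),
 (100, 69521760), (105, 55728948), (125, 61096651), (126, 64233840), (135, 65176320), (140,
 62279580), (147, 60251499), (150, 67577400), (175, 70070154), (189, 69002340), (196, 70678080),
 (210, 71359200), (225, 57784980), (245, 62555559), (250, 66698940), (294, 58001460), (315,
 67035540), (343, 63193020), (350, 70296600), (375, 64548000), (441, 66687720), (490, 66192060),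
 (525, 58451580), (625, 65665380), (686, 63383100), (735, 59296380), (875, 68272380), (1029,
 63855660), (1225, 61735740), (1715, 65551860), (2401, 62154180)])))))))))))))
 (P_TpA ++ xP_G_T2) = true := by decide +kernel

theorem t_G_T4a_Tp0_a : chk Rap gP_G_T4a
 (.split [(1, -3), (3, 5)]
 (.rule 5 (.rule 6 (.cut 1 [(1, 3), (3, -2)] (.add (.add (.mul (.g 8) (.pp [(1, 1)])) (.mul (.g 11)
 (.pp [(1, 1)]))) (.add (.mul (.g 5) (.pp [(1, 1)])) (.mul (.g 7) (.pp [(1, 1)])))) (.rule 8 (.leaf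
 15000000 (.add (.add (.add (.add (.mul (.g 9) (.add (.add (.mul (.g 7) (.add (.mul (.g 4) (.add
 (.mul (.g 7) (.pp [(1, 1399230000)])) (.mul (.g 11) (.pp [(1, 101430000)])))) (.add (.mul (.g 9)
 (.add (.mul (.g 6) (.pp [(1, 5833350000)])) (.mul (.g 9) (.pp [(1, 8408100000)])))) (.mul (.g 12)
 (.mul (.g 14) (.pp [(1, 248880000)])))))) (.add (.mul (.g 4) (.add (.pp [(1, 6345450000)]) (.mul
 (.g 6) (.mul (.g 10) (.pp [(1, 2589360000)]))))) (.mul (.g 5) (.mul (.g 5) (.add (.mul (.g 10)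
 (.pp [(1, 2437350000)])) (.mul (.g 14) (.pp [(1, 8742450000)]))))))) (.add (.mul (.g 9) (.add
 (.mul (.pp [(1, 77025)]) (.sq [(1, 100), (2, -100), (3, -71), (5, -12)])) (.mul (.pp [(1,
 1468860)]) (.sq [(1, 21), (2, -50), (3, 40), (5, 40)])))) (.add (.mul (.g 11) (.mul (.g 11) (.mul
 (.g 11) (.pp [(1, 5809200000)])))) (.mul (.g 14) (.pp [(1, 7128900000)])))))) (.mul (.g 10) (.add
 (.add (.mul (.g 5) (.add (.mul (.pp [(1, 156435)]) (.sq [(1, -10), (2, 59), (3, 100), (5, 20)]))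
 (.add (.mul (.g 6) (.mul (.g 6) (.pp [(1, 814800000)]))) (.mul (.g 12) (.pp [(1, 335767500)])))))
 (.mul (.g 10) (.add (.pp [(1, 2746500000)]) (.add (.mul (.pp [(1, 690840)]) (.sq [(1, -8), (2,
 11), (5, 50)])) (.mul (.g 11) (.pp [(1, 4629450000)])))))) (.add (.mul (.g 4) (.mul (.pp [(1,
 48477)]) (.sq [(1, 43), (2, 100), (3, 35), (5, 23)]))) (.add (.mul (.g 6) (.mul (.g 6) (.mul (.g
 6) (.pp [(1, 4009800000)])))) (.mul (.g 11) (.mul (.pp [(1, 3377580)]) (.sq [(1, -2), (2, 50), (3,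
 2), (5, -9)])))))))) (.add (.mul (.g 4) (.add (.add (.mul (.g 4) (.add (.pp [(1, 224184000)])
 (.mul (.g 13) (.mul (.g 13) (.pp [(1, 420708000)]))))) (.mul (.g 5) (.add (.mul (.g 5) (.mul (.g
 14) (.pp [(1, 769110000)]))) (.mul (.g 6) (.mul (.g 13) (.pp [(1, 1287330000)])))))) (.add (.mul
 (.g 7) (.mul (.pp [(1, 210492)]) (.sq [(1, 21), (2, 13), (3, -40), (5, 50)]))) (.add (.mul (.g 11)
 (.mul (.g 11) (.mul (.g 14) (.pp [(1, 1121730000)])))) (.mul (.g 16) (.mul (.pp [(1, 94881)]) (.sq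
 [(1, 41), (2, 3), (3, 100), (5, -74)]))))))) (.mul (.g 14) (.add (.mul (.g 6) (.add (.mul (.g 5)
 (.add (.mul (.g 6) (.pp [(1, 44050500000)])) (.add (.mul (.g 7) (.pp [(1, 31923000000)])) (.mul
 (.g 12) (.pp [(1, 829575000)]))))) (.mul (.g 11) (.mul (.g 12) (.pp [(1, 1397925000)]))))) (.mul
 (.g 16) (.mul (.pp [(1, 459285)]) (.sq [(1, 16), (2, 28), (3, 100), (5, -83)]))))))) (.add (.add
 (.mul (.g 0) (.pp [(1, 15000000)])) (.mul (.g 2) (.pp [(1, 50000000000)]))) (.add (.mul (.g 3)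
 (.pp [(1, 50000000000)])) (.add (.mul (.g 12) (.mul (.g 12) (.mul (.g 12) (.pp [(1, 222225)]))))
 (.mul (.g 15) (.pp [(1, 50000000000)])))))) (.pp [(1, 451502847), (2, 1199997), (3, 1511298), (4,
 1591587), (5, 1486611), (6, 2337357), (8, 1347625), (9, 1341060), (10, 2118642), (12, 1242868),
 (15, 943101), (16, 1558125), (18, 1089445), (20, 1585264), (23, 150000000000), (24, 1501515), (25,
 1271904), (27, 1504290), (30, 813372), (36, 1785300), (40, 1380915), (45, 1993065), (50, 1115779),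
 (54, 1311735), (60, 1794660), (75, 2079453), (81, 1581945), (90, 1343850), (100, 1679340), (125,
 1612266), (135, 1559235), (150, 1363815), (225, 1382835), (250, 1460040), (375, 1582380), (625,
 1483980)])))))))
 (.split [(1, -7), (3, 50)]
 (.split [(1, -17), (5, 25)]
 (.split [(2, 1), (3, -1)]
 (.split [(2, 1), (5, -1)]
 (.rule 0 (.rule 2 (.rule 7 (.rule 10 (.leaf 60000000 (.add (.add (.add (.add (.mul (.g 4) (.add
 (.add (.mul (.g 9) (.add (.mul (.g 9) (.add (.mul (.g 4) (.pp [(1, 297370800000)])) (.add (.mul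
 (.g 7) (.pp [(1, 5530500000)])) (.mul (.g 13) (.pp [(1, 14076000000)]))))) (.add (.mul (.g 10)
 (.add (.mul (.g 4) (.pp [(1, 69019800000)])) (.mul (.g 7) (.pp [(1, 15175344000)])))) (.mul (.g 8)
 (.mul (.g 13) (.pp [(1, 76308720000)])))))) (.add (.mul (.g 4) (.add (.mul (.pp [(1, 424320)])
 (.sq [(1, 100), (2, -54), (3, 54), (5, 75)])) (.add (.mul (.g 4) (.mul (.g 13) (.pp [(1,
 13599600000)]))) (.mul (.g 15) (.pp [(1, 152885400000)]))))) (.mul (.g 13) (.add (.pp [(1,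
 20422200000)]) (.mul (.g 13) (.mul (.g 13) (.pp [(1, 16870800000)]))))))) (.add (.mul (.g 16)
 (.add (.mul (.pp [(1, 1150659)]) (.sq [(2, 100), (3, 81), (5, 2)])) (.mul (.g 5) (.pp [(1,
 1195020000)])))) (.add (.mul (.g 8) (.mul (.pp [(1, 11941128)]) (.sq [(1, 1), (2, 100), (3, 50),
 (5, 7)]))) (.mul (.g 14) (.mul (.pp [(1, 3231600)]) (.sq [(1, 5), (2, 50), (3, 45), (5,
 33)]))))))) (.mul (.g 8) (.add (.add (.mul (.g 6) (.add (.pp [(1, 2009140800)]) (.mul (.g 15)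
 (.mul (.g 15) (.pp [(1, 891441600)]))))) (.add (.mul (.g 9) (.mul (.g 9) (.add (.mul (.g 7) (.pp
 [(1, 404683200)])) (.mul (.g 10) (.pp [(1, 51500880000)]))))) (.mul (.g 8) (.pp [(1,
 3885504000)])))) (.add (.mul (.g 10) (.mul (.pp [(1, 4430016)]) (.sq [(2, 25), (3, 8), (5, 2)])))
 (.add (.mul (.g 13) (.mul (.pp [(1, 21576)]) (.sq [(1, 10), (2, 100), (3, 87), (5, -68)]))) (.mul
 (.g 14) (.mul (.pp [(1, 279000)]) (.sq [(1, 2), (2, 100), (3, 72), (5, 3)])))))))) (.add (.mul (.g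
 9) (.add (.mul (.g 13) (.add (.mul (.g 9) (.add (.mul (.g 5) (.pp [(1, 21526200000)])) (.mul (.g
 9) (.pp [(1, 10488000000)])))) (.mul (.g 11) (.add (.mul (.g 15) (.pp [(1, 40920600000)])) (.mul
 (.g 16) (.pp [(1, 230520000)])))))) (.add (.mul (.g 5) (.mul (.g 5) (.mul (.g 6) (.pp [(1,
 1512192000)])))) (.mul (.g 16) (.pp [(1, 3352470000)]))))) (.add (.mul (.g 16) (.add (.mul (.g 10)
 (.add (.pp [(1, 14947950000)]) (.mul (.g 15) (.pp [(1, 1800510000)])))) (.mul (.g 5) (.mul (.g 5)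
 (.pp [(1, 5384280000)]))))) (.mul (.g 18) (.add (.mul (.g 13) (.pp [(1, 7704600000)])) (.mul (.g
 18) (.pp [(1, 89739000000)]))))))) (.add (.add (.mul (.g 0) (.pp [(1, 480000000)])) (.add (.mul
 (.g 1) (.pp [(1, 120000000)])) (.mul (.g 2) (.pp [(1, 200000000000)])))) (.add (.mul (.g 3) (.pp
 [(1, 200000000000)])) (.add (.mul (.g 6) (.mul (.g 6) (.pp [(1, 388233600)]))) (.mul (.g 19) (.pp
 [(1, 200000000000)])))))) (.pp [(1, 4363713600), (2, 6085416), (3, 5735280), (4, 6318000), (5,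
 6547464), (6, 5539560), (8, 6730000), (9, 6044568), (10, 5344944), (12, 6233400), (15, 6296856),
 (16, 5282880), (18, 6393123), (20, 4584000), (24, 6150240), (25, 5695704), (27, 6572648), (30,
 6931908), (36, 5938860), (40, 7218240), (45, 5825013), (50, 7831980), (54, 5784300), (60,
 5997840), (75, 5549124), (81, 5925120), (90, 5196120), (100, 4555200), (125, 5519492), (135,
 6066540), (150, 5447520), (225, 6442500), (250, 6303360), (375, 6335280), (625, 6040320)])))))))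
 (.rule 0 (.rule 3 (.rule 7 (.rule 10 (.leaf 150000000 (.add (.add (.add (.add (.mul (.g 7) (.add
 (.add (.mul (.g 9) (.add (.mul (.g 18) (.add (.mul (.g 9) (.pp [(1, 6700260000)])) (.mul (.g 11)
 (.pp [(1, 3224130000)])))) (.add (.mul (.g 5) (.mul (.g 5) (.pp [(1, 2019450000)]))) (.mul (.g 8)
 (.mul (.g 13) (.pp [(1, 76476000)])))))) (.mul (.g 7) (.add (.pp [(1, 10041600)]) (.mul (.g 18)
 (.add (.mul (.g 11) (.pp [(1, 256008000)])) (.mul (.g 15) (.pp [(1, 148612200)]))))))) (.add (.mul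
 (.g 4) (.add (.mul (.g 4) (.mul (.g 4) (.pp [(1, 1050180000)]))) (.mul (.g 16) (.pp [(1,
 105066000)])))) (.add (.mul (.g 14) (.mul (.pp [(1, 141417)]) (.sq [(1, 33), (2, 71), (3, 100),
 (5, -55)]))) (.mul (.g 16) (.pp [(1, 101439000)])))))) (.add (.mul (.g 13) (.add (.add (.mul (.g
 16) (.add (.mul (.pp [(1, 15540)]) (.sq [(1, 49), (2, -35), (3, 100), (5, 84)])) (.mul (.g 9)
 (.add (.mul (.g 4) (.pp [(1, 1900050000)])) (.mul (.g 13) (.pp [(1, 17893275000)])))))) (.mul (.g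
 10) (.add (.mul (.g 10) (.mul (.g 14) (.pp [(1, 35274000000)]))) (.mul (.g 15) (.mul (.g 15) (.pp
 [(1, 27859500000)])))))) (.add (.mul (.g 5) (.mul (.g 5) (.mul (.g 17) (.pp [(1,
 154123500000)])))) (.mul (.g 13) (.mul (.g 13) (.mul (.g 14) (.pp [(1, 12876000000)]))))))) (.mul
 (.g 5) (.add (.mul (.g 5) (.add (.mul (.pp [(1, 3570450)]) (.sq [(1, 100), (2, -61), (3, 88), (5,
 30)])) (.add (.mul (.g 15) (.pp [(1, 114304500000)])) (.mul (.g 16) (.pp [(1, 10383075000)])))))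
 (.add (.mul (.g 11) (.mul (.pp [(1, 29418750)]) (.sq [(1, -4), (2, 20), (3, -5)]))) (.mul (.g 14)
 (.mul (.pp [(1, 3336600)]) (.sq [(1, -9), (2, -50), (3, -15), (5, 46)])))))))) (.add (.add (.mul
 (.g 6) (.add (.mul (.g 6) (.pp [(1, 1036171200)])) (.add (.mul (.g 8) (.mul (.g 11) (.mul (.g 16)
 (.pp [(1, 41212800)])))) (.mul (.g 9) (.mul (.g 9) (.mul (.g 18) (.pp [(1, 37020000)]))))))) (.mul
 (.g 14) (.add (.mul (.g 9) (.mul (.pp [(1, 29986650)]) (.sq [(1, -42), (2, 100), (3, -7)]))) (.add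
 (.mul (.g 11) (.mul (.pp [(1, 5448450)]) (.sq [(1, -88), (2, -14), (3, 100), (5, 75)]))) (.mul (.g
 14) (.mul (.pp [(1, 5191650)]) (.sq [(1, -39), (2, 16), (3, 100), (5, 51)]))))))) (.add (.mul (.g
 15) (.add (.mul (.g 15) (.mul (.pp [(1, 34209000)]) (.sq [(1, -35), (2, 50), (3, -12), (5, 13)])))
 (.mul (.g 16) (.mul (.g 16) (.pp [(1, 11077500)]))))) (.mul (.g 18) (.add (.mul (.g 18) (.pp [(1,
 10221000000)])) (.mul (.g 21) (.mul (.pp [(1, 22402950)]) (.sq [(1, 10), (2, 31), (3, 100), (5,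
 -34)])))))))) (.add (.add (.mul (.g 0) (.pp [(1, 1200000000)])) (.add (.mul (.g 1) (.pp [(1,
 300000000)])) (.mul (.g 2) (.pp [(1, 500000000000)])))) (.add (.add (.mul (.g 3) (.pp [(1,
 500000000000)])) (.mul (.g 4) (.mul (.g 8) (.mul (.g 9) (.mul (.g 10) (.pp [(1, 9572700000)]))))))
 (.add (.mul (.g 16) (.mul (.g 16) (.pp [(1, 328492500)]))) (.mul (.g 19) (.pp [(1,
 500000000000)])))))) (.pp [(1, 1535966301), (2, 14269365), (3, 14073759), (4, 14535813), (5,
 13630659), (6, 16421316), (8, 15906579), (9, 15498000), (10, 14872986), (12, 13690371), (15,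
 16921620), (16, 16563150), (18, 12395850), (20, 16646331), (24, 12370050), (25, 15929205), (27,
 14663000), (30, 15235290), (36, 16783950), (40, 12196800), (45, 16452000), (50, 13207905), (54,
 15178650), (60, 17122350), (75, 14653575), (81, 15604200), (90, 15469800), (100, 16967400), (125,
 15642375), (135, 14601750), (150, 12916950), (225, 14436000), (250, 14525250), (375, 15189600),
 (625, 14918400)]))))))))
 (.rule 1 (.cut 575 [(2, -1), (5, 1)] (.add (.add (.mul (.g 4) (.pp [(1, 135)])) (.mul (.g 1) (.pp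
 [(1, 575)]))) (.add (.mul (.g 2) (.pp [(1, 23)])) (.mul (.g 3) (.pp [(1, 2)])))) (.rule 3 (.rule 7
 (.rule 10 (.leaf 60000000 (.add (.add (.add (.add (.mul (.g 9) (.add (.add (.mul (.g 11) (.add
 (.mul (.g 9) (.add (.mul (.g 9) (.pp [(1, 3444600000)])) (.mul (.g 14) (.pp [(1, 10726200000)]))))
 (.add (.mul (.g 11) (.add (.mul (.g 8) (.pp [(1, 13478400000)])) (.mul (.g 14) (.pp [(1,
 19226400000)])))) (.mul (.g 6) (.pp [(1, 673584000)]))))) (.add (.mul (.g 10) (.add (.mul (.g 5)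
 (.add (.mul (.g 5) (.pp [(1, 159604800000)])) (.mul (.g 8) (.pp [(1, 43509480000)])))) (.add (.mul
 (.g 9) (.mul (.g 9) (.pp [(1, 48922200000)]))) (.mul (.g 10) (.mul (.g 18) (.pp [(1,
 250627800000)])))))) (.mul (.g 13) (.add (.mul (.pp [(1, 15476820)]) (.sq [(1, -42), (2, 56), (3,
 100), (5, -19)])) (.mul (.g 7) (.mul (.g 8) (.pp [(1, 1334049600)]))))))) (.add (.mul (.g 6) (.mul
 (.g 6) (.pp [(1, 55234560)]))) (.add (.mul (.g 9) (.mul (.g 9) (.mul (.g 14) (.pp [(1,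
 43817400000)])))) (.mul (.g 21) (.mul (.pp [(1, 2645940)]) (.sq [(1, 23), (2, 61), (3, 100), (5,
 -5)]))))))) (.add (.mul (.g 6) (.add (.add (.mul (.g 6) (.add (.pp [(1, 447744960)]) (.mul (.g 6)
 (.mul (.g 11) (.pp [(1, 372096)]))))) (.mul (.g 10) (.mul (.g 15) (.add (.mul (.g 8) (.pp [(1,
 1945747200)])) (.mul (.g 18) (.pp [(1, 4244904000)])))))) (.add (.mul (.g 7) (.pp [(1,
 38979360)])) (.mul (.g 11) (.mul (.g 13) (.mul (.g 18) (.pp [(1, 1040664000)]))))))) (.mul (.g 5)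
 (.add (.add (.mul (.g 18) (.add (.pp [(1, 35178600000)]) (.mul (.g 11) (.pp [(1, 43345800000)]))))
 (.mul (.g 5) (.pp [(1, 26539800000)]))) (.add (.mul (.g 10) (.pp [(1, 169758600000)])) (.mul (.g
 16) (.mul (.pp [(1, 140157)]) (.sq [(1, 100), (2, 41), (3, 75), (5, 49)])))))))) (.add (.mul (.g
 8) (.add (.add (.mul (.g 7) (.mul (.g 7) (.pp [(1, 1646112)]))) (.mul (.g 8) (.pp [(1,
 336312000)]))) (.add (.mul (.g 10) (.mul (.g 13) (.mul (.g 16) (.pp [(1, 637368000)])))) (.add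
 (.mul (.g 14) (.pp [(1, 2032560000)])) (.mul (.g 18) (.pp [(1, 137520000)])))))) (.add (.mul (.g
 7) (.add (.mul (.g 7) (.pp [(1, 7420800)])) (.add (.mul (.g 10) (.mul (.g 17) (.mul (.g 18) (.pp
 [(1, 2336400000)])))) (.mul (.g 14) (.mul (.pp [(1, 1620)]) (.sq [(1, 63), (2, 100), (3, 90), (5,
 -34)])))))) (.mul (.g 0) (.pp [(1, 480000000)]))))) (.add (.add (.mul (.g 1) (.pp [(1,
 120000000)])) (.add (.mul (.g 2) (.pp [(1, 200000000000)])) (.mul (.g 4) (.pp [(1,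
 200000000000)])))) (.add (.mul (.g 10) (.mul (.g 10) (.mul (.g 10) (.mul (.g 14) (.pp [(1,
 9297600000)]))))) (.add (.mul (.g 11) (.mul (.g 16) (.mul (.g 16) (.pp [(1, 115495500)])))) (.mul
 (.g 19) (.pp [(1, 200000000000)])))))) (.pp [(1, 2385525516), (2, 6123480), (3, 5952780), (4,
 6019920), (5, 5515128), (6, 5391000), (8, 6005207), (9, 5805600), (10, 6075780), (12, 6657303),
 (15, 5699760), (16, 5829180), (18, 6399825), (20, 5915286), (24, 5629680), (25, 6400800), (27,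
 6022125), (30, 6531084), (36, 5681160), (40, 6531600), (45, 6196350), (50, 6181707), (54,
 6114000), (60, 5738700), (75, 5924373), (81, 6037500), (90, 6412980), (100, 5586000), (125,
 5850960), (135, 5638500), (150, 6164760), (225, 5497860), (250, 6287640), (375, 5896860), (625,
 6000000)])))))))))
 (.split [(2, 1), (3, -1)]
 (.split [(2, 1), (5, -1)]
 (.rule 0 (.rule 2 (.rule 7 (.leaf 3000000 (.add (.add (.add (.add (.mul (.g 8) (.add (.add (.mul
 (.g 8) (.add (.add (.mul (.g 3) (.add (.mul (.g 9) (.pp [(1, 23160000)])) (.add (.mul (.g 10) (.pp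
 [(1, 6260430000)])) (.mul (.g 12) (.pp [(1, 313020000)]))))) (.mul (.g 4) (.add (.mul (.g 4) (.pp
 [(1, 1017090000)])) (.mul (.g 10) (.pp [(1, 2752590000)]))))) (.add (.mul (.g 5) (.add (.mul (.g
 8) (.pp [(1, 123350400)])) (.mul (.g 14) (.pp [(1, 209112000)])))) (.add (.mul (.g 7) (.mul (.g
 14) (.pp [(1, 143760000)]))) (.mul (.g 12) (.mul (.g 12) (.pp [(1, 579330000)]))))))) (.mul (.g 3)
 (.add (.pp [(1, 826890000)]) (.add (.mul (.g 10) (.add (.mul (.g 5) (.pp [(1, 98091600)])) (.mul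
 (.g 12) (.pp [(1, 3798570000)])))) (.mul (.g 4) (.mul (.g 17) (.pp [(1, 5280930000)]))))))) (.add
 (.mul (.g 15) (.add (.mul (.g 4) (.add (.pp [(1, 131022000)]) (.mul (.g 10) (.pp [(1,
 211350000)])))) (.mul (.g 12) (.mul (.g 12) (.pp [(1, 92832000)]))))) (.add (.mul (.g 5) (.pp [(1,
 35960400)])) (.mul (.g 6) (.mul (.g 10) (.mul (.g 16) (.pp [(1, 115619400)])))))))) (.mul (.g 4)
 (.add (.add (.mul (.g 4) (.add (.mul (.pp [(1, 12783)]) (.sq [(1, 100), (2, -54), (3, 75), (5,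
 54)])) (.add (.mul (.pp [(1, 52026)]) (.sq [(1, 12), (2, 100), (3, 64), (5, 21)])) (.mul (.g 14)
 (.pp [(1, 4961550000)]))))) (.mul (.g 3) (.mul (.g 9) (.pp [(1, 1630560000)])))) (.add (.mul (.g
 7) (.pp [(1, 141522000)])) (.mul (.g 10) (.mul (.g 10) (.mul (.g 10) (.pp [(1, 326610000)]))))))))
 (.add (.mul (.g 3) (.add (.pp [(1, 123600000)]) (.add (.mul (.g 3) (.add (.pp [(1, 487410000)])
 (.mul (.g 14) (.pp [(1, 7887780000)])))) (.mul (.g 9) (.pp [(1, 10722930000)]))))) (.add (.mul (.g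
 9) (.add (.mul (.g 5) (.pp [(1, 220315200)])) (.add (.mul (.g 7) (.mul (.g 10) (.mul (.g 10) (.pp
 [(1, 1195752000)])))) (.mul (.g 15) (.pp [(1, 821304000)]))))) (.mul (.g 14) (.add (.mul (.g 6)
 (.mul (.g 15) (.mul (.g 17) (.pp [(1, 5147700)])))) (.mul (.g 14) (.mul (.pp [(1, 29070)]) (.sq
 [(1, -44), (2, -23), (3, -14), (5, 100)])))))))) (.add (.add (.mul (.g 0) (.pp [(1, 6000000)]))
 (.add (.mul (.g 1) (.pp [(1, 10000000000)])) (.mul (.g 2) (.pp [(1, 10000000000)])))) (.add (.mul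
 (.g 7) (.mul (.g 7) (.pp [(1, 8421600)]))) (.add (.mul (.g 10) (.mul (.g 10) (.mul (.g 10) (.mul
 (.g 12) (.pp [(1, 2064060000)]))))) (.mul (.g 18) (.pp [(1, 10000000000)])))))) (.pp [(1,
 314205600), (2, 300300), (3, 286500), (4, 308736), (5, 294900), (6, 303528), (8, 271520), (9,
 311736), (10, 313740), (12, 272184), (15, 297060), (16, 326742), (18, 348672), (20, 274656), (23,
 30000000000), (24, 294936), (25, 293580), (27, 278824), (30, 371328), (36, 319311), (40, 299316),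
 (45, 257016), (50, 353520), (54, 289602), (60, 287400), (75, 260760), (81, 299409), (90, 270912),
 (100, 279276), (125, 298000), (135, 312372), (150, 298308), (225, 335586), (250, 282000), (375,
 306000), (625, 300000)]))))))
 (.rule 0 (.rule 3 (.rule 7 (.leaf 75000000 (.add (.add (.add (.add (.mul (.pp [(1, 344925)]) (.sq
 [(1, -19), (2, 43), (3, 100), (5, -45)])) (.mul (.g 5) (.add (.add (.mul (.g 10) (.add (.mul (.g
 4) (.add (.mul (.g 5) (.pp [(1, 171210000)])) (.mul (.g 8) (.pp [(1, 300000)])))) (.add (.mul (.g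
 6) (.add (.mul (.g 6) (.pp [(1, 4079796)])) (.mul (.g 9) (.pp [(1, 60772800)])))) (.mul (.g 10)
 (.add (.mul (.g 5) (.pp [(1, 11628000)])) (.mul (.g 8) (.pp [(1, 3121920000)]))))))) (.add (.mul
 (.g 5) (.add (.pp [(1, 44677200)]) (.add (.mul (.g 5) (.mul (.g 8) (.pp [(1, 1853760)]))) (.mul
 (.g 7) (.mul (.g 14) (.pp [(1, 5552400)])))))) (.mul (.g 9) (.add (.mul (.g 9) (.add (.pp [(1,
 4164840000)]) (.mul (.g 9) (.pp [(1, 4974300000)])))) (.mul (.g 15) (.pp [(1, 206817000)]))))))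
 (.add (.mul (.g 8) (.mul (.g 8) (.add (.mul (.g 6) (.pp [(1, 83521200)])) (.mul (.g 8) (.pp [(1,
 2842170000)]))))) (.add (.mul (.g 3) (.pp [(1, 836280000)])) (.mul (.g 4) (.mul (.g 7) (.pp [(1,
 470754000)])))))))) (.add (.mul (.g 8) (.add (.add (.mul (.g 8) (.add (.mul (.g 4) (.add (.mul (.g
 3) (.pp [(1, 71046750000)])) (.mul (.g 9) (.pp [(1, 15000000)])))) (.add (.mul (.g 6) (.mul (.g
 10) (.pp [(1, 666060000)]))) (.mul (.g 8) (.mul (.g 8) (.pp [(1, 72001500000)])))))) (.mul (.g 3)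
 (.mul (.g 3) (.mul (.g 16) (.pp [(1, 71069250000)]))))) (.add (.mul (.g 6) (.mul (.g 9) (.mul (.g
 13) (.pp [(1, 150000)])))) (.mul (.g 12) (.mul (.g 12) (.mul (.g 12) (.pp [(1, 962250000)])))))))
 (.add (.mul (.g 15) (.add (.add (.pp [(1, 389587500)]) (.mul (.g 9) (.add (.pp [(1, 1447650000)])
 (.add (.mul (.g 3) (.pp [(1, 12057112500)])) (.mul (.g 14) (.pp [(1, 3550762500)])))))) (.add
 (.mul (.g 10) (.mul (.g 14) (.pp [(1, 494512500)]))) (.mul (.g 12) (.pp [(1, 609075000)])))))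
 (.mul (.g 4) (.add (.mul (.g 4) (.mul (.g 14) (.pp [(1, 122280750000)]))) (.mul (.g 6) (.mul (.g
 10) (.mul (.g 10) (.pp [(1, 1074045000)]))))))))) (.add (.add (.mul (.g 0) (.pp [(1, 150000000)]))
 (.add (.mul (.g 1) (.pp [(1, 250000000000)])) (.mul (.g 2) (.pp [(1, 250000000000)])))) (.add
 (.mul (.g 6) (.mul (.g 6) (.pp [(1, 69285600)]))) (.add (.mul (.g 7) (.mul (.g 7) (.mul (.g 7)
 (.mul (.g 7) (.pp [(1, 11628000)]))))) (.mul (.g 18) (.pp [(1, 250000000000)])))))) (.pp [(1,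
 1364871375), (2, 7646370), (3, 7879200), (4, 6506475), (5, 8387382), (6, 6972000), (8, 7860000),
 (9, 6880500), (10, 7235250), (12, 8280000), (15, 7721100), (16, 7500000), (18, 6450000), (20,
 8610000), (23, 750000000000), (24, 7500000), (25, 6767475), (27, 7900000), (30, 6000000), (36,
 7500000), (40, 7500000), (45, 9090000), (50, 7575000), (54, 7500000), (60, 6750000), (75,
 8565000), (81, 7500000), (90, 7500000), (100, 7500000), (125, 7800000), (135, 7500000), (150,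
 8250000), (225, 6750000), (250, 6750000), (375, 7500000), (625, 7500000)])))))))
 (.rule 1 (.rule 6 (.rule 7 (.leaf 1500000000 (.add (.add (.add (.add (.mul (.g 7) (.add (.add
 (.mul (.g 4) (.add (.mul (.g 8) (.add (.mul (.g 8) (.pp [(1, 70941000000)])) (.add (.mul (.g 13)
 (.pp [(1, 37499400000)])) (.mul (.g 14) (.pp [(1, 3505770000)]))))) (.add (.mul (.g 5) (.add (.mul
 (.g 7) (.pp [(1, 2732412000)])) (.mul (.g 11) (.pp [(1, 474708000)])))) (.mul (.g 3) (.mul (.g 16)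
 (.pp [(1, 58737600000)])))))) (.mul (.g 7) (.add (.mul (.g 7) (.add (.pp [(1, 732135000000)])
 (.mul (.g 9) (.pp [(1, 1417500000000)])))) (.mul (.g 6) (.mul (.g 9) (.pp [(1,
 387954000000)])))))) (.add (.mul (.g 14) (.add (.mul (.pp [(1, 108600)]) (.sq [(1, -18), (2, 100),
 (3, 9), (5, 47)])) (.mul (.g 8) (.mul (.g 12) (.pp [(1, 8064000000)]))))) (.mul (.g 5) (.mul (.g
 5) (.mul (.g 6) (.pp [(1, 24615600)]))))))) (.mul (.g 5) (.add (.mul (.g 5) (.add (.add (.pp [(1,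
 1293354000)]) (.mul (.g 4) (.add (.mul (.g 9) (.pp [(1, 28576800)])) (.mul (.g 15) (.pp [(1,
 15187440)]))))) (.add (.mul (.g 11) (.add (.mul (.g 12) (.pp [(1, 335478000)])) (.mul (.g 15) (.pp
 [(1, 345576000)])))) (.add (.mul (.g 6) (.mul (.g 8) (.pp [(1, 32919600)]))) (.mul (.g 13) (.mul
 (.g 16) (.pp [(1, 1234122000)]))))))) (.mul (.g 9) (.mul (.g 13) (.mul (.g 16) (.pp [(1,
 20490600000)]))))))) (.add (.mul (.g 3) (.add (.add (.mul (.g 9) (.add (.mul (.g 3) (.mul (.g 11)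
 (.pp [(1, 2052810000000)]))) (.add (.mul (.g 13) (.pp [(1, 3388650000000)])) (.mul (.g 14) (.pp
 [(1, 5016000000)]))))) (.mul (.g 3) (.pp [(1, 742080000000)]))) (.add (.mul (.g 4) (.mul (.pp [(1,
 1876620)]) (.sq [(1, 1), (2, 85), (3, 11), (5, 100)]))) (.add (.mul (.g 11) (.mul (.pp [(1,
 62602500)]) (.sq [(1, -4), (2, 1), (3, -71), (5, 100)]))) (.mul (.g 14) (.pp [(1,
 381750000)])))))) (.add (.mul (.g 14) (.add (.mul (.g 14) (.add (.pp [(1, 324825000)]) (.add (.mul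
 (.pp [(1, 932520)]) (.sq [(1, -11), (2, 7), (3, 25), (5, -15)])) (.mul (.g 9) (.mul (.g 15) (.pp
 [(1, 910687500)])))))) (.add (.mul (.g 4) (.mul (.pp [(1, 41331)]) (.sq [(1, 15), (2, 44), (3, 8),
 (5, 100)]))) (.mul (.g 9) (.mul (.g 13) (.mul (.g 15) (.pp [(1, 11227500000)]))))))) (.mul (.g 0)
 (.pp [(1, 3000000000)]))))) (.add (.add (.mul (.g 1) (.pp [(1, 5000000000000)])) (.add (.mul (.g
 2) (.pp [(1, 5000000000000)])) (.mul (.g 6) (.mul (.g 6) (.pp [(1, 2107200000)]))))) (.add (.mul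
 (.g 11) (.mul (.g 19) (.mul (.pp [(1, 42265500)]) (.sq [(1, -3), (2, 100), (3, 39), (5, -90)]))))
 (.add (.mul (.g 12) (.mul (.g 12) (.mul (.pp [(1, 32371500)]) (.sq [(1, -23), (2, 10), (3, 100),
 (5, -91)])))) (.mul (.g 17) (.pp [(1, 5000000000000)])))))) (.pp [(1, 15105523635), (2,
 156676980), (3, 151231800), (4, 166958868), (5, 147900825), (6, 117031152), (8, 149960640), (9,
 149451672), (10, 142580700), (12, 143752320), (15, 149045700), (16, 142855500), (18, 155174340),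
 (20, 153813760), (23, 15000000000000), (24, 155041500), (25, 156214500), (27, 152127600), (30,
 101604840), (36, 164632500), (40, 135298500), (45, 195666540), (50, 145333600), (54, 137470500),
 (60, 167806500), (75, 169611000), (81, 150000000), (90, 152970000), (100, 158302500), (125,
 138864000), (135, 141667500), (150, 168465000), (225, 130900500), (250, 136095000), (375,
 156717000), (625, 159808500)]))))))))
 (.rule 5 (.cut 450 [(2, -1), (5, 1)] (.add (.mul (.g 9) (.pp [(1, 310)])) (.add (.mul (.g 10) (.pp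
 [(1, 7)])) (.mul (.g 1) (.pp [(1, 9)])))) (.rule 3 (.leaf 3000000 (.add (.add (.add (.add (.mul
 (.g 6) (.add (.add (.mul (.g 3) (.add (.add (.mul (.g 6) (.add (.mul (.g 7) (.pp [(1, 17484000)]))
 (.mul (.g 9) (.pp [(1, 5721000)])))) (.mul (.g 7) (.mul (.g 7) (.pp [(1, 110241600)])))) (.add
 (.mul (.g 11) (.pp [(1, 141769800)])) (.mul (.g 12) (.pp [(1, 5826450)]))))) (.add (.mul (.g 5)
 (.add (.mul (.g 5) (.add (.mul (.g 5) (.pp [(1, 1808280000)])) (.add (.mul (.g 13) (.pp [(1,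
 185310000)])) (.mul (.g 14) (.pp [(1, 753660000)]))))) (.add (.mul (.g 6) (.mul (.g 14) (.pp [(1,
 4947480000)]))) (.mul (.g 7) (.mul (.g 10) (.pp [(1, 1798950000)])))))) (.mul (.g 11) (.add (.mul
 (.g 7) (.pp [(1, 1977150000)])) (.add (.mul (.g 11) (.mul (.g 14) (.pp [(1, 3879660000)]))) (.mul
 (.g 12) (.pp [(1, 463002000)]))))))) (.add (.mul (.g 6) (.add (.mul (.g 4) (.mul (.g 14) (.pp [(1,
 187050000)]))) (.mul (.g 6) (.mul (.g 12) (.pp [(1, 14530500)]))))) (.add (.mul (.g 9) (.mul (.g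
 9) (.mul (.g 9) (.pp [(1, 797070000)])))) (.mul (.g 12) (.mul (.g 12) (.mul (.g 14) (.pp [(1,
 3749175)])))))))) (.mul (.g 5) (.add (.mul (.g 5) (.add (.add (.mul (.g 5) (.add (.pp [(1,
 150810000)]) (.add (.mul (.g 5) (.pp [(1, 79350000)])) (.mul (.g 12) (.pp [(1, 13672500)])))))
 (.mul (.g 9) (.mul (.g 14) (.pp [(1, 100800000)])))) (.add (.mul (.g 11) (.mul (.g 11) (.pp [(1,
 55950000)]))) (.mul (.g 12) (.mul (.g 12) (.pp [(1, 208725)])))))) (.mul (.g 3) (.add (.mul (.g 7)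
 (.add (.mul (.g 7) (.pp [(1, 100032600)])) (.mul (.g 12) (.pp [(1, 3950700)])))) (.add (.mul (.g
 3) (.pp [(1, 669396)])) (.mul (.g 9) (.mul (.g 9) (.pp [(1, 18035400)]))))))))) (.add (.mul (.g
 14) (.add (.add (.mul (.g 3) (.pp [(1, 12486600)])) (.mul (.g 7) (.mul (.g 9) (.mul (.g 9) (.pp
 [(1, 210000000)]))))) (.add (.mul (.g 10) (.mul (.g 11) (.mul (.g 13) (.pp [(1, 49620000)]))))
 (.mul (.g 12) (.pp [(1, 2788500)]))))) (.mul (.g 7) (.mul (.g 12) (.add (.mul (.pp [(1, 1044)])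
 (.sq [(2, 100), (3, -67), (5, 20)])) (.mul (.g 11) (.pp [(1, 39211500)]))))))) (.add (.add (.mul
 (.g 0) (.pp [(1, 10000000000)])) (.mul (.g 2) (.pp [(1, 10000000000)]))) (.add (.mul (.g 11) (.mul
 (.g 11) (.mul (.pp [(1, 22638)]) (.sq [(1, 58), (2, -49), (3, -2), (5, -100)])))) (.add (.mul (.g
 15) (.pp [(1, 10000000000)])) (.mul (.g 17) (.mul (.g 17) (.mul (.pp [(1, 10794)]) (.sq [(1, -25),
 (2, 100), (3, 26), (5, 72)])))))))) (.pp [(1, 26944050), (2, 311796), (3, 285375), (4, 314643),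
 (5, 270600), (6, 247464), (8, 328092), (9, 318924), (10, 295464), (12, 334232), (15, 350475), (16,
 306162), (18, 287360), (19, 30000000000), (20, 281016), (23, 30000000000), (24, 260628), (25,
 340122), (27, 276516), (30, 284352), (36, 299706), (40, 285276), (45, 275964), (50, 267792), (54,
 304056), (60, 304020), (75, 275808), (81, 299448), (90, 317328), (100, 310962), (125, 279792),
 (135, 323376), (150, 293352), (225, 330384), (250, 306000), (375, 328464), (625, 311904)]))))))))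
 (P_Tp0 ++ xP_G_T4a) = true := by decide +kernel

theorem t_G_T4b_free : chk RFp gP_G_T4b
 (.cut 1 [(2, -1), (3, 1)] (.add (.mul (.g 9) (.pp [(1, 1)])) (.mul (.g 4) (.pp [(1, 1)]))) (.rule
 1 (.cut 20 [(2, 1), (5, -1)] (.add (.add (.mul (.g 2) (.pp [(1, 11)])) (.mul (.g 1) (.pp [(1,
 11)]))) (.add (.mul (.g 11) (.pp [(1, 9)])) (.mul (.g 9) (.pp [(1, 1)])))) (.rule 2 (.leaf
 60000000 (.add (.add (.add (.add (.mul (.g 8) (.add (.add (.mul (.g 6) (.add (.add (.pp [(1,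
 202496400000)]) (.mul (.g 6) (.pp [(1, 1616400000)]))) (.add (.mul (.g 8) (.mul (.g 8) (.pp [(1,
 193200000)]))) (.add (.mul (.g 10) (.pp [(1, 44488200000)])) (.mul (.g 13) (.mul (.g 14) (.pp [(1,
 244200000)]))))))) (.add (.mul (.g 5) (.add (.add (.pp [(1, 19030800000)]) (.mul (.g 5) (.mul (.g
 5) (.pp [(1, 618000000)])))) (.add (.mul (.g 9) (.pp [(1, 2434800000)])) (.mul (.g 11) (.mul (.g
 14) (.pp [(1, 38610000)])))))) (.mul (.g 4) (.add (.pp [(1, 393600000)]) (.add (.mul (.g 4) (.mul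
 (.g 4) (.pp [(1, 91200000)]))) (.mul (.g 8) (.mul (.g 10) (.pp [(1, 1159800000)])))))))) (.add
 (.mul (.g 8) (.mul (.g 10) (.mul (.g 10) (.pp [(1, 1119000000)])))) (.add (.mul (.g 11) (.mul (.g
 14) (.mul (.g 14) (.pp [(1, 27960000)])))) (.mul (.g 13) (.pp [(1, 24778800000)])))))) (.mul (.g
 11) (.add (.add (.mul (.g 4) (.add (.add (.mul (.pp [(1, 3939)]) (.sq [(1, 85), (2, 27), (3, 48),
 (5, 100)])) (.mul (.g 6) (.add (.pp [(1, 27340440000)]) (.mul (.g 4) (.pp [(1, 22740000)])))))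
 (.add (.mul (.g 10) (.pp [(1, 25170000)])) (.mul (.g 11) (.mul (.g 13) (.pp [(1, 2349000)]))))))
 (.mul (.g 5) (.add (.pp [(1, 927150000)]) (.add (.mul (.pp [(1, 324)]) (.sq [(1, 100), (2, 92),
 (3, 91), (5, 92)])) (.mul (.g 6) (.mul (.g 6) (.pp [(1, 24720000)]))))))) (.add (.mul (.g 6) (.mul
 (.pp [(1, 1332)]) (.sq [(1, 82), (2, 100), (3, 38), (5, -1)]))) (.add (.mul (.g 9) (.mul (.pp [(1,
 7128)]) (.sq [(1, 15), (2, 22), (3, 11), (5, 50)]))) (.mul (.g 13) (.pp [(1, 1282020000)])))))))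
 (.add (.mul (.g 6) (.mul (.g 6) (.add (.pp [(1, 18264000000)]) (.mul (.g 6) (.add (.pp [(1,
 109383000000)]) (.add (.mul (.g 4) (.pp [(1, 616800000)])) (.mul (.g 6) (.pp [(1,
 5457600000)])))))))) (.mul (.g 13) (.add (.mul (.g 13) (.add (.pp [(1, 45783000000)]) (.add (.mul
 (.pp [(1, 52320)]) (.sq [(2, 50), (3, -24), (5, -1)])) (.mul (.g 4) (.mul (.g 4) (.pp [(1,
 643800000)])))))) (.mul (.g 14) (.mul (.pp [(1, 328800000)]) (.sq [(2, -1), (5, 1)]))))))) (.add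
 (.add (.mul (.g 0) (.pp [(1, 200000000000)])) (.mul (.g 2) (.pp [(1, 200000000000)]))) (.add (.mul
 (.g 9) (.mul (.pp [(1, 1704000)]) (.sq [(2, 20), (3, -17)]))) (.mul (.g 12) (.pp [(1,
 200000000000)]))))) (.pp [(1, 347905800), (2, 5725005), (3, 6560040), (4, 6908922), (5, 6354888),
 (6, 5107332), (8, 7017813), (9, 5913048), (10, 5789460), (12, 3767784), (15, 5706144), (16,
 5570340), (18, 6000648), (20, 4490208), (24, 5985180), (25, 5613072), (27, 6484596), (30,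
 6568080), (36, 6383520), (40, 6584700), (45, 6796776), (50, 7029360), (54, 5817840), (60,
 5459040), (75, 6576624), (81, 6274800), (90, 6219840), (100, 6204960), (125, 5959052), (135,
 6803280), (150, 5464320), (225, 6857280), (250, 5613360), (375, 6432720), (625, 6026640)])))))))
 (P_free ++ xP_G_T4b) = true := by decide +kernel

theorem t_G_T6_TpA_a : chk Rap gP_G_T6
 (.split [(1, -17), (5, 25)]
 (.cut 1 [(2, -1), (3, 1)] (.add (.mul (.g 9) (.pp [(1, 1)])) (.mul (.g 5) (.pp [(1, 1)]))) (.rule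
 1 (.cut 1 [(2, 1), (5, -1)] (.add (.mul (.g 11) (.pp [(1, 1)])) (.mul (.g 8) (.pp [(1, 1)])))
 (.rule 2 (.cut 17 [(1, -3), (3, 5)] (.add (.add (.mul (.g 1) (.pp [(1, 75)])) (.mul (.g 5) (.pp
 [(1, 10)]))) (.add (.mul (.g 4) (.pp [(1, 3)])) (.mul (.g 3) (.pp [(1, 85)])))) (.cut 17 [(1, 3),
 (3, -2)] (.add (.add (.mul (.g 11) (.pp [(1, 34)])) (.mul (.g 5) (.pp [(1, 1)]))) (.add (.mul (.g
 8) (.pp [(1, 9)])) (.mul (.g 10) (.pp [(1, 34)])))) (.rule 8 (.cut 1 [(1, 1), (5, -1)] (.add (.mul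
 (.g 4) (.pp [(1, 1)])) (.mul (.g 12) (.pp [(1, 1)]))) (.rule 10 (.cut 1 [(1, 2), (2, 1), (3, -2),
 (5, -1)] (.add (.mul (.g 20) (.pp [(1, 1)])) (.add (.mul (.g 15) (.pp [(1, 1)])) (.mul (.g 13)
 (.pp [(1, 1)])))) (.cut 8 [(1, -1), (2, -2), (3, 2), (5, 2)] (.add (.mul (.g 9) (.pp [(1, 16)]))
 (.add (.mul (.g 2) (.pp [(1, 9)])) (.mul (.g 10) (.pp [(1, 1)])))) (.rule 16 (.leaf 1500000000
 (.add (.add (.add (.add (.mul (.g 16) (.add (.add (.add (.mul (.g 13) (.add (.add (.mul (.pp [(1,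
 3114274500)]) (.sq [(1, 13), (2, -100), (3, 48), (5, -82), (7, 12)])) (.add (.mul (.g 17) (.add
 (.add (.mul (.g 14) (.pp [(1, 20127300000000)])) (.mul (.g 15) (.pp [(1, 205550190000000)])))
 (.add (.mul (.g 21) (.pp [(1, 8292990000000)])) (.mul (.g 23) (.pp [(1, 10656885000000)])))))
 (.mul (.g 13) (.add (.mul (.g 14) (.pp [(1, 35387895000000)])) (.mul (.g 19) (.pp [(1,
 15157680000000)])))))) (.add (.mul (.g 12) (.mul (.g 20) (.pp [(1, 21255270000)]))) (.add (.mul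
 (.g 14) (.mul (.g 18) (.pp [(1, 14794695000000)]))) (.mul (.g 19) (.mul (.g 21) (.pp [(1,
 21358980000000)]))))))) (.mul (.g 14) (.add (.add (.pp [(1, 34082730000000)]) (.mul (.g 16) (.add
 (.pp [(1, 13335045000000)]) (.mul (.g 16) (.pp [(1, 6274890000000)]))))) (.add (.mul (.g 12) (.mul
 (.g 15) (.pp [(1, 394404600000)]))) (.mul (.g 18) (.mul (.g 23) (.pp [(1, 7321110000000)])))))))
 (.add (.mul (.g 15) (.add (.mul (.pp [(1, 511476000)]) (.sq [(1, -5), (2, 77), (3, -4), (5, -6),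
 (7, 100)])) (.add (.mul (.g 17) (.add (.mul (.g 17) (.pp [(1, 80432580000000)])) (.mul (.g 19)
 (.pp [(1, 5685315000000)])))) (.mul (.g 15) (.mul (.g 21) (.pp [(1, 5310420000000)])))))) (.add
 (.mul (.g 16) (.add (.mul (.pp [(1, 14185500)]) (.sq [(1, -11), (2, 100), (3, -75), (5, 70), (7,
 4)])) (.mul (.g 16) (.mul (.g 18) (.pp [(1, 3652260000000)]))))) (.mul (.g 23) (.add (.pp [(1,
 1029870000000)]) (.mul (.pp [(1, 183040500)]) (.sq [(1, 98), (2, 53), (3, 100), (5, 100), (7,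
 68)]))))))) (.add (.add (.mul (.g 12) (.mul (.pp [(1, 113057580)]) (.sq [(1, -5), (2, 100), (3,
 -3), (7, -12)]))) (.mul (.g 17) (.mul (.pp [(1, 212040000)]) (.sq [(1, 7), (2, -100), (3, -85),
 (5, 82), (7, 33)])))) (.add (.mul (.g 18) (.mul (.pp [(1, 202764000)]) (.sq [(1, -7), (2, 67), (3,
 -8), (5, 100), (7, -9)]))) (.add (.mul (.g 20) (.mul (.pp [(1, 53696325)]) (.sq [(1, 22), (2,
 100), (3, 64), (5, -62), (7, -23)]))) (.mul (.g 21) (.pp [(1, 995595000000)]))))))) (.add (.mul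
 (.g 14) (.add (.add (.mul (.g 21) (.add (.mul (.g 14) (.add (.mul (.g 14) (.pp [(1,
 16044675000000)])) (.mul (.g 23) (.pp [(1, 14089935000000)])))) (.add (.mul (.g 15) (.add (.mul
 (.g 15) (.pp [(1, 6211830000000)])) (.mul (.g 19) (.pp [(1, 16370700000000)])))) (.mul (.g 21)
 (.mul (.g 23) (.pp [(1, 1053120000000)])))))) (.add (.mul (.g 18) (.add (.pp [(1, 1358775000000)])
 (.add (.mul (.g 12) (.mul (.g 19) (.pp [(1, 70936800000)]))) (.mul (.g 18) (.mul (.g 18) (.pp [(1,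
 2369310000000)])))))) (.mul (.g 23) (.add (.pp [(1, 41548035000000)]) (.mul (.g 13) (.add (.mul
 (.g 13) (.pp [(1, 2771550000000)])) (.mul (.g 19) (.pp [(1, 14649975000000)])))))))) (.add (.mul
 (.g 12) (.mul (.g 12) (.mul (.g 12) (.pp [(1, 167904000)])))) (.add (.mul (.g 17) (.mul (.g 19)
 (.mul (.g 19) (.pp [(1, 1341705000000)])))) (.mul (.g 20) (.mul (.g 20) (.pp [(1,
 2566050000)]))))))) (.mul (.g 13) (.add (.add (.mul (.g 23) (.add (.mul (.pp [(1, 67021500)]) (.sq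
 [(1, -11), (2, -100), (3, -64), (5, 76), (7, -28)])) (.add (.mul (.g 13) (.add (.mul (.g 12) (.pp
 [(1, 132312000000)])) (.mul (.g 20) (.pp [(1, 285452250000)])))) (.mul (.g 15) (.mul (.g 23) (.pp
 [(1, 7913700000000)])))))) (.mul (.g 20) (.add (.mul (.pp [(1, 10723350)]) (.sq [(1, -11), (2,
 -1), (3, -65), (5, 70), (7, 100)])) (.mul (.pp [(1, 2194200)]) (.sq [(1, 100), (2, 81), (3, -56),
 (5, -56), (7, -28)]))))) (.add (.mul (.g 13) (.mul (.pp [(1, 269032500)]) (.sq [(1, 14), (2, -12),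
 (3, -83), (5, 74), (7, -100)]))) (.add (.mul (.g 18) (.mul (.pp [(1, 104032500)]) (.sq [(1, 100),
 (2, 37), (3, 83), (5, 83), (7, 69)]))) (.mul (.g 21) (.pp [(1, 23741820000000)])))))))) (.add
 (.add (.mul (.g 17) (.add (.add (.mul (.g 12) (.mul (.pp [(1, 2556900)]) (.sq [(1, -11), (2, 100),
 (3, -31), (5, 15), (7, -96)]))) (.add (.mul (.g 15) (.mul (.pp [(1, 44614500)]) (.sq [(1, 51), (2,
 -20), (3, 100), (5, 100), (7, 11)]))) (.mul (.g 17) (.pp [(1, 7575465000000)])))) (.add (.mul (.g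
 18) (.pp [(1, 18276855000000)])) (.add (.mul (.g 20) (.mul (.pp [(1, 372000)]) (.sq [(1, -6), (2,
 48), (3, 39), (5, -91), (7, -100)]))) (.mul (.g 23) (.mul (.pp [(1, 138604500)]) (.sq [(1, -62),
 (2, 68), (3, 23), (5, 23), (7, 100)]))))))) (.mul (.g 18) (.add (.add (.mul (.g 18) (.add (.pp
 [(1, 4586235000000)]) (.mul (.g 19) (.pp [(1, 5843040000000)])))) (.mul (.g 12) (.mul (.g 19)
 (.mul (.g 21) (.pp [(1, 56780400000)]))))) (.add (.mul (.g 20) (.mul (.pp [(1, 6447000)]) (.sq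
 [(1, -1), (2, -7), (3, -73), (5, 8), (7, 100)]))) (.mul (.g 23) (.mul (.pp [(1, 859833000)]) (.sq
 [(1, 36), (2, 100), (3, 53), (5, -46), (7, 16)]))))))) (.add (.mul (.g 15) (.add (.mul (.g 21)
 (.add (.pp [(1, 45133125000000)]) (.mul (.g 15) (.add (.mul (.g 15) (.pp [(1, 4665330000000)]))
 (.mul (.g 21) (.pp [(1, 175245000000)])))))) (.mul (.g 23) (.pp [(1, 89031465000000)])))) (.mul
 (.g 12) (.add (.mul (.g 20) (.mul (.pp [(1, 6231)]) (.sq [(1, 17), (2, -86), (3, -38), (5, -51),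
 (7, 100)]))) (.mul (.g 23) (.mul (.pp [(1, 54171600)]) (.sq [(1, -8), (2, -15), (3, 50), (5, 50),
 (7, -9)])))))))) (.add (.add (.add (.mul (.g 0) (.pp [(1, 5000000000000)])) (.mul (.g 3) (.pp [(1,
 12000000000)]))) (.add (.mul (.g 5) (.pp [(1, 1500000000)])) (.mul (.g 8) (.pp [(1,
 5000000000000)])))) (.add (.add (.mul (.g 10) (.pp [(1, 5000000000000)])) (.mul (.g 20) (.mul (.g
 23) (.mul (.pp [(1, 1573500)]) (.sq [(1, 30), (2, 99), (3, -91), (5, 100), (7, -40)]))))) (.add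
 (.mul (.g 21) (.pp [(1, 48740715000000)])) (.mul (.g 22) (.pp [(1, 5000000000000)])))))) (.pp [(1,
 130867362973), (2, 143901222), (3, 161408016), (4, 171304932), (5, 148602597), (6, 126232272), (7,
 151752600), (8, 157538610), (9, 164939328), (10, 110649204), (12, 145936800), (14, 141027000),
 (15, 194438292), (16, 152518500), (18, 165351930), (20, 123683460), (21, 142846200), (24,
 145090500), (25, 157693347), (27, 147139760), (28, 178744200), (30, 213186480), (35, 140741700),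
 (36, 150201000), (40, 149416500), (42, 119425200), (45, 126505200), (49, 140314800), (50,
 178604340), (54, 146844000), (56, 136557000), (60, 179043000), (63, 148626540), (70, 145864800),
 (75, 128883180), (81, 143433000), (84, 145660500), (90, 119466000), (98, 153906900), (100,
 158032500), (105, 148813200), (125, 153890015), (126, 174097500), (135, 150699000), (140,
 155994000), (147, 180440520), (150, 111876000), (175, 122707200), (189, 156957000), (196,
 145572000), (210, 159489000), (225, 145200000), (245, 166743600), (250, 138220500), (294,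
 160288500), (315, 171373500), (343, 160105965), (350, 131974500), (375, 151678500), (441,
 149578500), (490, 150201000), (525, 172146000), (625, 148744500), (686, 151894500), (735,
 155010000), (875, 153870000), (1029, 162889500), (1225, 151848000), (1715, 148639500), (2401,
 152304000)])))))))))))))))
 (.cut 1 [(2, -1), (3, 1)] (.add (.mul (.g 9) (.pp [(1, 1)])) (.mul (.g 5) (.pp [(1, 1)]))) (.rule
 1 (.cut 1 [(2, 1), (5, -1)] (.add (.mul (.g 8) (.pp [(1, 1)])) (.mul (.g 11) (.pp [(1, 1)])))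
 (.rule 2 (.cut 11 [(1, -3), (3, 5)] (.add (.mul (.g 1) (.pp [(1, 40)])) (.add (.mul (.g 12) (.pp
 [(1, 2)])) (.mul (.g 13) (.pp [(1, 15)])))) (.cut 1 [(1, 3), (3, -2)] (.add (.add (.mul (.g 11)
 (.pp [(1, 1)])) (.mul (.g 16) (.pp [(1, 1)]))) (.add (.mul (.g 8) (.pp [(1, 1)])) (.add (.mul (.g
 9) (.pp [(1, 1)])) (.mul (.g 10) (.pp [(1, 1)]))))) (.rule 8 (.rule 23 (.leaf 825000000 (.add
 (.add (.add (.add (.mul (.g 11) (.add (.add (.mul (.g 8) (.add (.add (.pp [(1, 79694670000)])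
 (.mul (.g 9) (.add (.mul (.g 9) (.pp [(1, 19944210000)])) (.add (.mul (.g 12) (.pp [(1,
 181312560000)])) (.mul (.g 19) (.pp [(1, 42711240000)])))))) (.add (.mul (.g 10) (.add (.mul (.g
 8) (.pp [(1, 1623375600)])) (.mul (.g 19) (.pp [(1, 14770470000)])))) (.mul (.g 17) (.add (.mul
 (.g 11) (.pp [(1, 120519960000)])) (.mul (.g 15) (.pp [(1, 6537960000)]))))))) (.add (.mul (.g 12)
 (.add (.add (.pp [(1, 1391428500000)]) (.mul (.g 9) (.add (.pp [(1, 9170163750000)]) (.mul (.g 16)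
 (.pp [(1, 373439962500)]))))) (.add (.mul (.g 13) (.add (.mul (.g 17) (.pp [(1, 2241789000000)]))
 (.mul (.g 19) (.pp [(1, 1055810250000)])))) (.mul (.g 12) (.mul (.g 12) (.pp [(1,
 618931500000)])))))) (.mul (.g 19) (.add (.pp [(1, 2242465500000)]) (.add (.mul (.g 9) (.add (.pp
 [(1, 6961275750000)]) (.mul (.g 19) (.pp [(1, 10040250000)])))) (.mul (.g 11) (.mul (.g 11) (.pp
 [(1, 6814500000)])))))))) (.add (.add (.mul (.g 11) (.mul (.g 11) (.add (.mul (.g 14) (.pp [(1,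
 82500000)])) (.mul (.g 17) (.pp [(1, 1894546500000)]))))) (.mul (.g 15) (.add (.mul (.g 10) (.mul
 (.g 17) (.pp [(1, 10168768500000)]))) (.mul (.g 13) (.mul (.g 15) (.pp [(1, 290688750000)]))))))
 (.add (.mul (.g 9) (.mul (.g 9) (.mul (.g 14) (.pp [(1, 143005500000)])))) (.mul (.g 16) (.mul (.g
 16) (.pp [(1, 2529594375)]))))))) (.add (.mul (.g 10) (.add (.add (.mul (.g 12) (.add (.add (.pp
 [(1, 2915739750000)]) (.mul (.g 9) (.add (.mul (.g 8) (.pp [(1, 167994420000)])) (.mul (.g 16)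
 (.pp [(1, 16004175000)]))))) (.add (.mul (.g 10) (.add (.pp [(1, 136273500000)]) (.mul (.g 13)
 (.pp [(1, 1439072250000)])))) (.mul (.g 12) (.mul (.g 12) (.pp [(1, 1550604000000)])))))) (.mul
 (.g 8) (.add (.pp [(1, 110684310000)]) (.mul (.g 17) (.add (.mul (.g 15) (.pp [(1,
 190789830000)])) (.mul (.g 16) (.pp [(1, 11989246500)]))))))) (.add (.mul (.g 19) (.add (.pp [(1,
 4266009000000)]) (.mul (.g 10) (.add (.mul (.g 14) (.pp [(1, 356441250000)])) (.mul (.g 17) (.pp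
 [(1, 451588500000)])))))) (.add (.mul (.g 16) (.add (.mul (.pp [(1, 588225)]) (.sq [(1, 10), (2,
 41), (3, 40), (5, -9), (7, 50)])) (.mul (.g 16) (.pp [(1, 878666250)])))) (.mul (.g 13) (.mul (.g
 15) (.mul (.g 15) (.pp [(1, 335791500000)])))))))) (.mul (.g 9) (.add (.add (.mul (.g 9) (.add
 (.mul (.g 19) (.add (.mul (.g 16) (.pp [(1, 74550712500)])) (.mul (.g 19) (.pp [(1,
 438306000000)])))) (.add (.mul (.g 9) (.pp [(1, 1131528750000)])) (.mul (.g 13) (.mul (.g 17) (.pp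
 [(1, 1263801000000)])))))) (.add (.mul (.g 8) (.add (.pp [(1, 54413700000)]) (.mul (.g 12) (.add
 (.mul (.g 13) (.pp [(1, 139601220000)])) (.mul (.g 16) (.pp [(1, 7069293000)])))))) (.mul (.g 14)
 (.add (.pp [(1, 1383615750000)]) (.mul (.g 15) (.pp [(1, 1672992750000)])))))) (.add (.mul (.g 13)
 (.mul (.g 13) (.mul (.g 13) (.pp [(1, 47140500000)])))) (.add (.mul (.g 16) (.mul (.pp [(1,
 1969935)]) (.sq [(1, -26), (2, -24), (3, -100), (5, 74), (7, -99)]))) (.mul (.g 17) (.pp [(1,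
 5981052000000)])))))))) (.add (.mul (.g 19) (.add (.add (.mul (.pp [(1, 119559000)]) (.sq [(2,
 50), (3, 39), (5, 39), (7, 50)])) (.add (.mul (.g 12) (.add (.pp [(1, 2439995250000)]) (.mul (.g
 12) (.add (.mul (.g 12) (.pp [(1, 523751250000)])) (.mul (.g 17) (.pp [(1, 222238500000)]))))))
 (.mul (.g 13) (.mul (.pp [(1, 86750400)]) (.sq [(1, -62), (2, 68), (3, 23), (5, 23), (7,
 100)]))))) (.add (.mul (.g 14) (.mul (.pp [(1, 3323100)]) (.sq [(1, 29), (2, 79), (3, 100), (5,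
 -45), (7, 30)]))) (.add (.mul (.g 17) (.mul (.pp [(1, 30242025)]) (.sq [(1, -18), (2, -27), (3,
 -22), (5, 39), (7, 100)]))) (.mul (.g 19) (.mul (.pp [(1, 34722600)]) (.sq [(1, 100), (2, -75),
 (3, -16), (5, -16), (7, -41)]))))))) (.add (.mul (.g 13) (.add (.mul (.g 8) (.add (.mul (.pp [(1,
 988746)]) (.sq [(1, -50), (2, 52), (3, -12), (5, 55), (7, 100)])) (.mul (.g 8) (.mul (.g 12) (.pp
 [(1, 287020800)]))))) (.add (.mul (.g 13) (.add (.mul (.pp [(1, 34084875)]) (.sq [(1, 8), (2,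
 -11), (3, -56), (5, 89), (7, 100)])) (.mul (.pp [(1, 1282875)]) (.sq [(1, 41), (2, -100), (3, 59),
 (5, 59), (7, -59)])))) (.mul (.g 12) (.mul (.g 12) (.mul (.g 15) (.pp [(1, 2206371750000)])))))))
 (.mul (.g 17) (.add (.add (.mul (.g 8) (.pp [(1, 74341080000)])) (.mul (.g 12) (.pp [(1,
 707140500000)]))) (.add (.mul (.g 15) (.mul (.pp [(1, 26641725)]) (.sq [(1, 21), (2, 65), (3, 32),
 (5, 100), (7, -56)]))) (.mul (.g 17) (.mul (.pp [(1, 9725925)]) (.sq [(1, -24), (2, 90), (3, 47),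
 (5, -46), (7, -100)]))))))))) (.add (.add (.mul (.g 14) (.add (.mul (.g 12) (.mul (.g 12) (.mul
 (.g 12) (.pp [(1, 667557000000)])))) (.mul (.g 14) (.mul (.g 15) (.pp [(1, 506517000000)])))))
 (.add (.mul (.g 0) (.pp [(1, 250000000000)])) (.mul (.g 1) (.pp [(1, 825000000)])))) (.add (.mul
 (.g 4) (.pp [(1, 2750000000000)])) (.add (.mul (.g 6) (.pp [(1, 2750000000000)])) (.mul (.g 18)
 (.pp [(1, 2750000000000)])))))) (.pp [(1, 250195728725), (2, 89171365), (3, 93449425), (4,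
 78206117), (5, 91764500), (6, 74388611), (7, 88012650), (8, 87793893), (9, 68055867), (10,
 93593390), (12, 88739464), (14, 74304120), (15, 59379265), (16, 81131325), (18, 85896008), (20,
 82084035), (21, 69146550), (23, 8250000000000), (24, 86747925), (25, 70097225), (27, 99806850),
 (28, 84228705), (30, 66689260), (35, 91553550), (36, 84437925), (40, 82297050), (42, 113368200),
 (45, 98137600), (49, 79395525), (50, 72323790), (54, 79959000), (56, 87789900), (60, 65297925),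
 (63, 101438700), (70, 72078270), (75, 87715375), (81, 75509775), (84, 95557275), (90, 83666550),
 (98, 91205565), (100, 82052850), (105, 80477100), (125, 78443750), (126, 72200700), (135,
 76837200), (140, 68806650), (147, 90251700), (150, 96604200), (175, 80080275), (189, 65495100),
 (196, 85899825), (210, 63239550), (225, 88675125), (245, 78243000), (250, 85052550), (294,
 77691900), (315, 72708900), (343, 87991200), (350, 98409300), (375, 89298000), (441, 75721800),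
 (490, 78147300), (525, 84761325), (625, 82500000), (686, 85800000), (735, 81001800), (875,
 85222500), (1029, 78777600), (1225, 83384400), (1715, 78658800), (2401, 82559400)]))))))))))))
 (P_TpA ++ xP_G_T6) = true := by decide +kernel

theorem t_G_T6_TpA_b : chk Rbp gP_G_T6
 (.split [(1, -3), (5, 5)]
 (.cut 1 [(2, -1), (3, 1)] (.add (.mul (.g 9) (.pp [(1, 1)])) (.mul (.g 5) (.pp [(1, 1)]))) (.rule
 1 (.cut 1 [(2, 1), (5, -1)] (.add (.mul (.g 11) (.pp [(1, 1)])) (.mul (.g 8) (.pp [(1, 1)])))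
 (.rule 2 (.cut 2 [(1, 5), (3, -4)] (.add (.add (.mul (.g 10) (.pp [(1, 5)])) (.mul (.g 15) (.pp
 [(1, 3)]))) (.add (.mul (.g 4) (.pp [(1, 1)])) (.add (.mul (.g 8) (.pp [(1, 3)])) (.mul (.g 9)
 (.pp [(1, 5)]))))) (.rule 8 (.cut 13 [(1, 3), (5, -2)] (.add (.add (.mul (.g 3) (.pp [(1, 36)]))
 (.mul (.g 6) (.pp [(1, 2)]))) (.add (.mul (.g 5) (.pp [(1, 36)])) (.mul (.g 1) (.pp [(1, 9)]))))
 (.rule 12 (.cut 1 [(1, 2), (2, 1), (3, -2), (5, -1)] (.add (.mul (.g 14) (.pp [(1, 1)])) (.add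
 (.mul (.g 12) (.pp [(1, 1)])) (.mul (.g 19) (.pp [(1, 1)])))) (.cut 9 [(1, -1), (2, -2), (3, 2),
 (5, 2)] (.add (.mul (.g 8) (.pp [(1, 18)])) (.add (.mul (.g 2) (.pp [(1, 1)])) (.mul (.g 9) (.pp
 [(1, 4)])))) (.rule 16 (.leaf 3000000 (.add (.add (.add (.add (.mul (.g 15) (.add (.add (.mul (.g
 14) (.add (.add (.pp [(1, 30272580000)]) (.add (.mul (.g 16) (.add (.add (.pp [(1, 5458980000)])
 (.mul (.g 12) (.pp [(1, 13338570000)]))) (.add (.mul (.g 14) (.pp [(1, 3638070000)])) (.mul (.g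
 22) (.pp [(1, 5832420000)]))))) (.mul (.g 11) (.add (.mul (.g 12) (.pp [(1, 2681352000)])) (.mul
 (.g 17) (.pp [(1, 7170000)])))))) (.add (.mul (.g 18) (.add (.pp [(1, 3998400000)]) (.mul (.g 22)
 (.pp [(1, 42450000)])))) (.add (.mul (.g 13) (.mul (.g 14) (.pp [(1, 1039860000)]))) (.mul (.g 15)
 (.mul (.g 15) (.pp [(1, 3258210000)]))))))) (.add (.mul (.g 13) (.add (.add (.pp [(1,
 71924400000)]) (.mul (.g 12) (.add (.pp [(1, 18618600000)]) (.add (.mul (.g 15) (.pp [(1,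
 1148520000)])) (.mul (.g 19) (.pp [(1, 984000)])))))) (.add (.mul (.g 13) (.add (.mul (.g 13) (.pp
 [(1, 5117670000)])) (.add (.mul (.g 20) (.pp [(1, 20924580000)])) (.mul (.g 22) (.pp [(1,
 300000)]))))) (.add (.mul (.g 11) (.mul (.g 16) (.pp [(1, 1336440000)]))) (.mul (.g 15) (.mul (.g
 15) (.pp [(1, 4950510000)]))))))) (.mul (.g 15) (.add (.mul (.g 15) (.add (.mul (.g 16) (.pp [(1,
 1595010000)])) (.add (.mul (.g 17) (.pp [(1, 3271020000)])) (.mul (.g 22) (.pp [(1,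
 1692300000)]))))) (.add (.mul (.g 16) (.mul (.g 18) (.pp [(1, 7352190000)]))) (.mul (.g 19) (.pp
 [(1, 146628000)]))))))) (.add (.mul (.g 12) (.add (.pp [(1, 5403450000)]) (.mul (.g 11) (.mul (.g
 12) (.pp [(1, 3228546000)]))))) (.add (.mul (.g 20) (.pp [(1, 2128350000)])) (.mul (.g 22) (.pp
 [(1, 7858860000)])))))) (.add (.mul (.g 13) (.add (.add (.mul (.g 17) (.add (.add (.pp [(1,
 2988390000)]) (.mul (.g 11) (.mul (.g 11) (.pp [(1, 37000800)])))) (.add (.mul (.g 13) (.mul (.g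
 22) (.pp [(1, 1049400000)]))) (.add (.mul (.g 17) (.mul (.g 17) (.pp [(1, 3202110000)]))) (.mul
 (.g 19) (.mul (.g 20) (.pp [(1, 672448500)]))))))) (.mul (.g 20) (.add (.mul (.g 13) (.add (.mul
 (.g 13) (.pp [(1, 28742160000)])) (.mul (.g 22) (.pp [(1, 27081810000)])))) (.mul (.g 18) (.add
 (.mul (.g 14) (.pp [(1, 9779640000)])) (.mul (.g 18) (.pp [(1, 13250190000)]))))))) (.add (.mul
 (.g 11) (.add (.mul (.g 11) (.mul (.g 14) (.pp [(1, 105007200)]))) (.mul (.g 13) (.mul (.g 13)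
 (.pp [(1, 377958000)]))))) (.add (.mul (.g 12) (.add (.mul (.g 12) (.mul (.g 22) (.pp [(1,
 5516310000)]))) (.mul (.g 16) (.mul (.g 16) (.pp [(1, 400470000)]))))) (.mul (.g 22) (.pp [(1,
 73459830000)])))))) (.mul (.g 22) (.add (.add (.mul (.pp [(1, 533580)]) (.sq [(2, 50), (3, 39),
 (5, 39), (7, 50)])) (.mul (.g 14) (.add (.pp [(1, 45273390000)]) (.add (.mul (.g 14) (.add (.pp
 [(1, 4725960000)]) (.mul (.g 16) (.pp [(1, 2618130000)])))) (.mul (.g 16) (.mul (.g 16) (.pp [(1,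
 1924020000)]))))))) (.add (.mul (.g 12) (.add (.mul (.g 12) (.add (.pp [(1, 8877150000)]) (.mul
 (.g 18) (.pp [(1, 3227580000)])))) (.mul (.g 11) (.mul (.g 11) (.pp [(1, 446311200)]))))) (.add
 (.mul (.g 16) (.mul (.pp [(1, 468420)]) (.sq [(1, -62), (2, 68), (3, 23), (5, 23), (7, 100)])))
 (.mul (.g 17) (.mul (.pp [(1, 48774)]) (.sq [(1, 12), (2, 46), (3, 100), (5, -27), (7,
 -16)]))))))))) (.add (.mul (.g 20) (.add (.add (.pp [(1, 40203120000)]) (.mul (.g 14) (.add (.mul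
 (.g 14) (.add (.mul (.g 11) (.pp [(1, 1059678000)])) (.mul (.g 20) (.pp [(1, 7745250000)]))))
 (.mul (.g 17) (.mul (.g 19) (.pp [(1, 203286000)])))))) (.add (.mul (.g 18) (.add (.mul (.pp [(1,
 104889)]) (.sq [(1, 10), (2, 52), (3, 44), (5, 100), (7, -37)])) (.mul (.g 16) (.mul (.g 18) (.pp
 [(1, 8624700000)]))))) (.mul (.g 12) (.pp [(1, 44221320000)]))))) (.add (.mul (.g 16) (.mul (.g
 16) (.add (.add (.pp [(1, 2327160000)]) (.mul (.pp [(1, 5346)]) (.sq [(1, 1), (2, -11), (3, -43),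
 (5, 88), (7, -100)]))) (.add (.mul (.g 12) (.mul (.g 16) (.pp [(1, 632610000)]))) (.mul (.g 19)
 (.mul (.g 19) (.pp [(1, 693900)]))))))) (.mul (.g 17) (.add (.mul (.g 18) (.add (.mul (.g 11)
 (.mul (.g 11) (.pp [(1, 16308000)]))) (.mul (.g 17) (.pp [(1, 11908710000)])))) (.add (.mul (.g
 12) (.mul (.pp [(1, 118410)]) (.sq [(1, 100), (2, 37), (3, 83), (5, 83), (7, 69)]))) (.mul (.g 14)
 (.pp [(1, 184770000)])))))))) (.add (.add (.mul (.g 11) (.mul (.g 11) (.add (.pp [(1, 288000)])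
 (.mul (.g 14) (.mul (.g 14) (.pp [(1, 16296000)])))))) (.add (.mul (.g 0) (.pp [(1,
 10000000000)])) (.mul (.g 3) (.pp [(1, 3000000)])))) (.add (.add (.mul (.g 5) (.pp [(1,
 12000000)])) (.mul (.g 7) (.pp [(1, 10000000000)]))) (.add (.mul (.g 9) (.pp [(1, 10000000000)]))
 (.mul (.g 21) (.pp [(1, 10000000000)])))))) (.pp [(1, 107526818), (2, 312372), (3, 306588), (4,
 254304), (5, 318852), (6, 293940), (7, 326352), (8, 298494), (9, 319410), (10, 325272), (12,
 281064), (14, 261636), (15, 224928), (16, 299844), (18, 370722), (20, 339588), (21, 283212), (24,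
 283314), (25, 245418), (27, 242044), (28, 334140), (30, 312948), (35, 284940), (36, 352440), (40,
 298926), (42, 319344), (45, 280956), (49, 278640), (50, 237276), (54, 254550), (56, 289044), (60,
 331572), (63, 290652), (70, 349260), (75, 425004), (81, 334896), (84, 304776), (90, 230862), (98,
 336261), (100, 288306), (105, 315636), (125, 346246), (126, 293976), (135, 331296), (140, 284760),
 (147, 311745), (150, 300552), (175, 303294), (189, 315384), (196, 292662), (210, 290472), (225,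
 290154), (245, 313137), (250, 326490), (294, 285723), (315, 322848), (343, 306144), (350, 294822),
 (375, 233754), (441, 297615), (490, 274074), (525, 301218), (625, 300000), (686, 276144), (735,
 306879), (875, 293754), (1029, 323856), (1225, 309264), (1715, 323856), (2401,
 300000)]))))))))))))))
 (.split [(1, -7), (5, 50)]
 (.cut 1 [(2, -1), (3, 1)] (.add (.mul (.g 10) (.pp [(1, 1)])) (.mul (.g 6) (.pp [(1, 1)]))) (.rule
 1 (.cut 1 [(2, 1), (5, -1)] (.add (.mul (.g 9) (.pp [(1, 1)])) (.mul (.g 12) (.pp [(1, 1)])))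
 (.rule 2 (.cut 43 [(1, 5), (3, -4)] (.add (.add (.mul (.g 11) (.pp [(1, 50)])) (.mul (.g 16) (.pp
 [(1, 122)]))) (.add (.mul (.g 4) (.pp [(1, 1)])) (.add (.mul (.g 9) (.pp [(1, 122)])) (.mul (.g
 10) (.pp [(1, 50)]))))) (.rule 8 (.rule 11 (.rule 23 (.leaf 8250000000 (.add (.add (.add (.add
 (.mul (.g 13) (.add (.add (.mul (.g 11) (.add (.add (.mul (.g 13) (.add (.pp [(1,
 35387137500000)]) (.add (.mul (.g 9) (.pp [(1, 2522536500000)])) (.mul (.g 13) (.pp [(1,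
 13393957500000)]))))) (.mul (.g 10) (.add (.mul (.g 10) (.pp [(1, 33817162500000)])) (.mul (.g 14)
 (.pp [(1, 56799682500000)]))))) (.add (.mul (.g 20) (.add (.mul (.g 15) (.pp [(1,
 184166565000000)])) (.mul (.g 17) (.pp [(1, 9225991500000)])))) (.add (.mul (.g 9) (.mul (.g 11)
 (.pp [(1, 5812026000000)]))) (.mul (.g 12) (.mul (.g 12) (.pp [(1, 2218177500000)]))))))) (.add
 (.mul (.g 12) (.add (.add (.pp [(1, 17280285000000)]) (.mul (.g 10) (.add (.mul (.g 10) (.pp [(1,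
 10260112500000)])) (.mul (.g 16) (.pp [(1, 28507957500000)]))))) (.add (.mul (.g 12) (.add (.mul
 (.g 15) (.pp [(1, 36826597500000)])) (.mul (.g 20) (.pp [(1, 28117980000000)])))) (.add (.mul (.g
 8) (.mul (.g 16) (.pp [(1, 685150950000)]))) (.mul (.g 9) (.mul (.g 20) (.pp [(1,
 1041100500000)]))))))) (.mul (.g 13) (.add (.mul (.g 13) (.add (.mul (.g 15) (.pp [(1,
 8615062500000)])) (.mul (.g 18) (.pp [(1, 3153645000000)])))) (.mul (.g 16) (.add (.pp [(1,
 13436940000000)]) (.mul (.g 14) (.pp [(1, 9375382500000)])))))))) (.add (.add (.mul (.g 10) (.add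
 (.mul (.g 9) (.mul (.g 16) (.pp [(1, 7450080000000)]))) (.mul (.g 10) (.mul (.g 15) (.pp [(1,
 5167387500000)]))))) (.mul (.g 20) (.add (.pp [(1, 12689325000000)]) (.mul (.g 20) (.mul (.g 20)
 (.pp [(1, 7487700000000)])))))) (.add (.mul (.g 14) (.pp [(1, 62370000000)])) (.mul (.g 16) (.mul
 (.pp [(1, 267671250)]) (.sq [(1, -9), (2, 81), (3, 17), (5, 100), (7, -23)]))))))) (.add (.mul (.g
 20) (.add (.add (.add (.mul (.g 20) (.add (.add (.mul (.pp [(1, 283387500)]) (.sq [(1, -6), (2,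
 -19), (3, 79), (5, 51), (7, 100)])) (.mul (.g 11) (.add (.pp [(1, 41192002500000)]) (.mul (.g 15)
 (.pp [(1, 8899275000000)]))))) (.add (.mul (.g 10) (.mul (.g 10) (.pp [(1, 14390392500000)])))
 (.add (.mul (.g 12) (.mul (.g 12) (.pp [(1, 19180507500000)]))) (.mul (.g 14) (.mul (.g 16) (.pp
 [(1, 827640000000)]))))))) (.mul (.g 9) (.add (.mul (.pp [(1, 121913550)]) (.sq [(1, -36), (2,
 33), (3, 23), (5, 100), (7, 52)])) (.mul (.g 11) (.add (.mul (.g 9) (.pp [(1, 804794100000)]))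
 (.mul (.g 11) (.pp [(1, 3579988500000)]))))))) (.add (.mul (.g 10) (.add (.pp [(1, 102712500000)])
 (.add (.mul (.pp [(1, 2164008000)]) (.sq [(1, 38), (2, 39), (3, 50), (5, 50), (7, 19)])) (.mul (.g
 10) (.mul (.g 17) (.pp [(1, 490862625000)])))))) (.mul (.g 12) (.add (.pp [(1, 39800805000000)])
 (.add (.mul (.pp [(1, 73144500)]) (.sq [(1, -15), (2, 33), (3, 81), (5, -100), (7, 65)])) (.mul
 (.g 12) (.mul (.g 16) (.pp [(1, 5353590000000)])))))))) (.add (.add (.mul (.g 11) (.pp [(1,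
 2187487500000)])) (.mul (.g 14) (.mul (.pp [(1, 1508364000)]) (.sq [(1, -62), (2, 68), (3, 23),
 (5, 23), (7, 100)])))) (.add (.mul (.g 15) (.mul (.pp [(1, 722031750)]) (.sq [(1, 12), (2, 31),
 (3, 100), (5, -18), (7, 78)]))) (.mul (.g 16) (.mul (.pp [(1, 44591250)]) (.sq [(1, -5), (2, 24),
 (3, -48), (5, 100), (7, 58)]))))))) (.mul (.g 11) (.add (.add (.mul (.pp [(1, 450087000)]) (.sq
 [(1, -39), (2, 100), (3, -36), (5, 43)])) (.add (.mul (.g 18) (.add (.add (.pp [(1,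
 43048170000000)]) (.mul (.pp [(1, 388426500)]) (.sq [(1, 1), (2, -30), (3, -17), (5, 100), (7,
 82)]))) (.add (.mul (.g 9) (.mul (.g 17) (.pp [(1, 146157825000)]))) (.mul (.g 12) (.mul (.g 12)
 (.pp [(1, 15716745000000)])))))) (.mul (.g 15) (.add (.pp [(1, 7618957500000)]) (.mul (.g 8) (.mul
 (.g 10) (.pp [(1, 115714500000)]))))))) (.add (.mul (.g 12) (.mul (.pp [(1, 354972750)]) (.sq [(1,
 -25), (2, 100), (3, -23), (5, 19), (7, -3)]))) (.add (.mul (.g 16) (.mul (.pp [(1, 121143000)])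
 (.sq [(1, -33), (2, 100), (3, -33), (5, 4)]))) (.mul (.g 17) (.mul (.g 17) (.pp [(1,
 11009212500)]))))))))) (.add (.add (.mul (.g 15) (.add (.mul (.g 10) (.add (.pp [(1,
 89182500000)]) (.mul (.g 10) (.add (.pp [(1, 14949990000000)]) (.mul (.g 14) (.pp [(1,
 528825000000)])))))) (.add (.mul (.g 16) (.add (.mul (.g 15) (.pp [(1, 27004147500000)])) (.mul
 (.g 18) (.mul (.g 18) (.pp [(1, 231907500000)]))))) (.mul (.g 9) (.pp [(1, 2450547000000)])))))
 (.mul (.g 8) (.add (.mul (.g 9) (.add (.mul (.pp [(1, 208131)]) (.sq [(1, -24), (2, 8), (3, -96),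
 (5, 9), (7, -100)])) (.mul (.g 14) (.add (.mul (.g 9) (.pp [(1, 59730000)])) (.mul (.g 14) (.pp
 [(1, 1769460000)])))))) (.mul (.g 16) (.mul (.pp [(1, 1059300)]) (.sq [(1, -25), (2, 100), (3,
 -27), (5, 8), (7, -1)])))))) (.add (.mul (.g 18) (.add (.mul (.g 10) (.add (.pp [(1,
 22868175000000)]) (.mul (.g 10) (.mul (.g 14) (.pp [(1, 12150517500000)]))))) (.mul (.g 9) (.pp
 [(1, 997243500000)])))) (.mul (.g 0) (.pp [(1, 2500000000000)]))))) (.add (.add (.mul (.g 1) (.pp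
 [(1, 16500000000)])) (.add (.mul (.g 2) (.pp [(1, 33000000000)])) (.mul (.g 4) (.pp [(1,
 27500000000000)])))) (.add (.add (.mul (.g 6) (.pp [(1, 27500000000000)])) (.mul (.g 12) (.mul
 (.pp [(1, 319011000)]) (.sq [(1, -26), (2, 100), (3, -24), (5, 21)])))) (.add (.mul (.g 16) (.mul
 (.pp [(1, 290688750)]) (.sq [(1, -37), (2, 100), (3, -35), (5, 16)]))) (.mul (.g 19) (.pp [(1,
 27500000000000)])))))) (.pp [(1, 368453082176), (2, 830716516), (3, 817826908), (4, 940177964),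
 (5, 787855208), (6, 859527614), (7, 830332800), (8, 910016250), (9, 799855716), (10, 618716384),
 (12, 426941350), (14, 902464200), (15, 946155892), (16, 825000000), (18, 922735550), (20,
 683664960), (21, 783182400), (24, 838983750), (25, 789804851), (27, 804787500), (28, 692726100),
 (30, 1062820660), (35, 781271700), (36, 882708750), (40, 825000000), (42, 745559100), (45,
 751074940), (49, 828517800), (50, 1078463760), (54, 892386000), (56, 770055000), (60, 913704000),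
 (63, 848078550), (70, 841358100), (75, 666313780), (81, 801867000), (84, 993481500), (90,
 825841500), (98, 775909200), (100, 789096000), (105, 925603800), (125, 821691365), (126,
 901089750), (135, 807345000), (140, 865482750), (147, 797214000), (150, 772068000), (175,
 861161400), (189, 767175750), (196, 851994000), (210, 927201000), (225, 876942000), (245,
 893729100), (250, 800976000), (294, 900702000), (315, 865425000), (343, 741384600), (350,
 779724000), (375, 826790250), (441, 822162000), (490, 902797500), (525, 884515500), (625,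
 824892750), (686, 811181250), (735, 737888250), (875, 857703000), (1029, 853206750), (1225,
 781951500), (1715, 840023250), (2401, 825000000)])))))))))))
 (.cut 450 [(2, -1), (3, 1)] (.add (.mul (.g 9) (.pp [(1, 7)])) (.add (.mul (.g 8) (.pp [(1,
 310)])) (.mul (.g 0) (.pp [(1, 9)])))) (.rule 1 (.cut 1 [(2, 1), (5, -1)] (.add (.mul (.g 9) (.pp
 [(1, 1)])) (.mul (.g 12) (.pp [(1, 1)]))) (.rule 2 (.cut 1 [(1, 5), (3, -4)] (.add (.add (.mul (.g
 11) (.pp [(1, 1)])) (.mul (.g 16) (.pp [(1, 3)]))) (.add (.mul (.g 8) (.pp [(1, 1)])) (.add (.mul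
 (.g 9) (.pp [(1, 3)])) (.mul (.g 10) (.pp [(1, 1)]))))) (.rule 8 (.rule 23 (.leaf 330000000 (.add
 (.add (.add (.add (.mul (.g 12) (.add (.add (.pp [(1, 9329100000)]) (.add (.mul (.g 10) (.add
 (.add (.add (.pp [(1, 178959000000)]) (.mul (.g 19) (.add (.add (.mul (.g 8) (.pp [(1,
 39843540000)])) (.mul (.g 10) (.pp [(1, 392181900000)]))) (.add (.mul (.g 14) (.pp [(1,
 2892331200000)])) (.mul (.g 16) (.pp [(1, 113983980000)])))))) (.add (.mul (.g 8) (.add (.mul (.g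
 11) (.pp [(1, 190569720000)])) (.mul (.g 12) (.pp [(1, 197328120000)])))) (.mul (.g 10) (.add
 (.mul (.g 7) (.pp [(1, 13424136000)])) (.mul (.g 14) (.pp [(1, 1975828800000)])))))) (.add (.add
 (.mul (.g 9) (.mul (.g 13) (.pp [(1, 462594000000)]))) (.mul (.g 11) (.mul (.g 11) (.pp [(1,
 2416563600000)])))) (.add (.mul (.g 12) (.mul (.g 12) (.pp [(1, 744744000000)]))) (.mul (.g 16)
 (.mul (.g 17) (.pp [(1, 64193745000)]))))))) (.mul (.g 11) (.add (.add (.pp [(1, 1570400700000)])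
 (.mul (.g 11) (.add (.mul (.g 15) (.pp [(1, 10332300000)])) (.mul (.g 19) (.pp [(1,
 1283673600000)]))))) (.add (.mul (.g 8) (.mul (.g 17) (.pp [(1, 341361240000)]))) (.mul (.g 9)
 (.mul (.g 9) (.pp [(1, 551763300000)])))))))) (.add (.add (.mul (.g 12) (.add (.mul (.g 12) (.add
 (.mul (.g 14) (.pp [(1, 53908800000)])) (.mul (.g 19) (.pp [(1, 219370800000)])))) (.add (.mul (.g
 13) (.mul (.g 16) (.pp [(1, 11028435000)]))) (.mul (.g 17) (.mul (.g 19) (.pp [(1,
 602052000000)])))))) (.mul (.g 13) (.add (.pp [(1, 9375300000)]) (.mul (.g 9) (.mul (.g 15) (.pp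
 [(1, 609018300000)])))))) (.add (.mul (.g 14) (.mul (.pp [(1, 2789160)]) (.sq [(1, 31), (2, 64),
 (3, 6), (5, 6), (7, 100)]))) (.mul (.g 19) (.pp [(1, 550958100000)])))))) (.add (.mul (.g 19)
 (.add (.add (.add (.mul (.pp [(1, 30381120)]) (.sq [(2, 50), (3, 39), (5, 39), (7, 50)])) (.mul
 (.g 10) (.add (.add (.mul (.g 19) (.add (.pp [(1, 1438034400000)]) (.mul (.g 14) (.pp [(1,
 186644700000)])))) (.mul (.g 7) (.mul (.g 10) (.pp [(1, 4791006000)])))) (.add (.mul (.g 8) (.mul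
 (.g 8) (.pp [(1, 26413464000)]))) (.mul (.g 11) (.mul (.g 11) (.pp [(1, 437322600000)])))))))
 (.add (.mul (.g 9) (.add (.mul (.pp [(1, 57860880)]) (.sq [(1, 38), (2, 39), (3, 50), (5, 50), (7,
 19)])) (.add (.mul (.pp [(1, 56601600)]) (.sq [(1, -17), (2, 50), (3, 41), (5, 6), (7, -28)]))
 (.mul (.g 9) (.add (.mul (.g 8) (.pp [(1, 2877600000)])) (.mul (.g 15) (.pp [(1,
 4653000000)]))))))) (.mul (.g 11) (.add (.pp [(1, 1120544700000)]) (.mul (.g 11) (.add (.mul (.g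
 15) (.pp [(1, 63924300000)])) (.mul (.g 19) (.pp [(1, 1362942900000)])))))))) (.add (.add (.mul
 (.g 8) (.mul (.pp [(1, 1841070)]) (.sq [(1, 46), (2, -26), (3, -41), (5, -100), (7, -45)]))) (.mul
 (.g 13) (.mul (.pp [(1, 54263880)]) (.sq [(1, -62), (2, 68), (3, 23), (5, 23), (7, 100)])))) (.add
 (.mul (.g 14) (.mul (.pp [(1, 32754810)]) (.sq [(1, 18), (2, 46), (3, 100), (5, -24), (7, 73)])))
 (.add (.mul (.g 16) (.mul (.pp [(1, 252747)]) (.sq [(1, -8), (2, 22), (3, -43), (5, 100), (7,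
 70)]))) (.mul (.g 19) (.mul (.pp [(1, 62794050)]) (.sq [(1, 5), (2, 100), (3, -20), (5, -30), (7,
 23)])))))))) (.mul (.g 9) (.add (.add (.mul (.g 7) (.add (.pp [(1, 1716726000)]) (.add (.mul (.g
 9) (.add (.mul (.g 9) (.pp [(1, 664686000)])) (.mul (.g 11) (.pp [(1, 433290000)])))) (.mul (.g
 11) (.mul (.g 11) (.pp [(1, 55638000)])))))) (.mul (.g 9) (.add (.mul (.g 9) (.pp [(1,
 427986900000)])) (.mul (.g 11) (.pp [(1, 59555100000)]))))) (.add (.mul (.g 10) (.mul (.g 11)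
 (.mul (.g 11) (.pp [(1, 100815000000)])))) (.add (.mul (.g 14) (.pp [(1, 273243300000)])) (.mul
 (.g 17) (.pp [(1, 958181400000)])))))))) (.add (.mul (.g 14) (.add (.add (.mul (.pp [(1,
 1540770)]) (.sq [(1, -40), (2, 100), (3, 11), (5, 9), (7, -53)])) (.mul (.g 15) (.add (.mul (.pp
 [(1, 3501300)]) (.sq [(1, 42), (2, -100), (3, -41), (5, 9), (7, 93)])) (.add (.mul (.g 14) (.pp
 [(1, 1086076200000)])) (.mul (.g 17) (.mul (.g 17) (.pp [(1, 151417200000)]))))))) (.add (.mul (.g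
 10) (.pp [(1, 314813400000)])) (.add (.mul (.g 11) (.mul (.pp [(1, 154770)]) (.sq [(1, 4), (2,
 100), (3, 36), (5, 47), (7, -23)]))) (.mul (.g 14) (.mul (.pp [(1, 756030)]) (.sq [(1, 100), (2,
 -43), (3, 28), (5, 28), (7, -28)]))))))) (.add (.mul (.g 10) (.add (.mul (.g 17) (.add (.pp [(1,
 1175955000000)]) (.mul (.g 8) (.mul (.g 15) (.pp [(1, 7673820000)]))))) (.add (.mul (.g 7) (.pp
 [(1, 4107378000)])) (.mul (.g 16) (.mul (.g 16) (.pp [(1, 1063713750)])))))) (.mul (.g 7) (.mul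
 (.g 11) (.add (.pp [(1, 31717488000)]) (.mul (.g 7) (.pp [(1, 3797640)])))))))) (.add (.add (.mul
 (.g 13) (.mul (.g 13) (.add (.mul (.pp [(1, 3114210)]) (.sq [(1, 35), (2, 56), (3, -42), (5, -43),
 (7, 100)])) (.mul (.pp [(1, 9331410)]) (.sq [(1, 11), (2, -17), (3, -59), (5, 79), (7, 100)])))))
 (.add (.mul (.g 0) (.pp [(1, 100000000000)])) (.mul (.g 1) (.pp [(1, 1320000000)])))) (.add (.add
 (.mul (.g 3) (.pp [(1, 1100000000000)])) (.mul (.g 5) (.pp [(1, 1100000000000)]))) (.add (.mul (.g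
 17) (.mul (.g 17) (.pp [(1, 128960700000)]))) (.mul (.g 18) (.pp [(1, 1100000000000)])))))) (.pp
 [(1, 34265465642), (2, 33333004), (3, 30285562), (4, 38761712), (5, 32324720), (6, 31343840), (7,
 31833648), (8, 31256940), (9, 39634683), (10, 30120860), (12, 27726028), (14, 39073056), (15,
 39915040), (16, 32160480), (18, 37032446), (20, 34067220), (21, 39734376), (23, 3300000000000),
 (24, 35218920), (25, 34855370), (27, 25717593), (28, 32809788), (30, 40286620), (35, 31437780),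
 (36, 31480020), (40, 36781800), (42, 25184016), (45, 24440020), (49, 32420850), (50, 39596370),
 (54, 29579220), (56, 34046760), (60, 30514440), (63, 18841383), (70, 27455340), (75, 32819050),
 (81, 35721840), (84, 31419960), (90, 28966080), (98, 28768080), (100, 31475730), (105, 25557180),
 (125, 32444060), (126, 26593380), (135, 37017750), (140, 27441480), (147, 30236580), (150,
 28926480), (175, 37049760), (189, 41356260), (196, 32033100), (210, 34556280), (225, 30948720),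
 (245, 33713460), (250, 31275750), (294, 29998650), (315, 39415530), (343, 30613440), (350,
 32545260), (375, 31399170), (441, 37246440), (490, 34414710), (525, 32258820), (625, 32764710),
 (686, 32778570), (735, 31905390), (875, 33557700), (1029, 32444610), (1225, 28800750), (1715,
 34178760), (2401, 32747550)]))))))))))))
 (P_TpA ++ xP_G_T6) = true := by decide +kernel

end Pool.Agent.Helper62.TW
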