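import Pool.Agent.Helper62.TW.Goals
import Pool.Agent.Helper62.TW.Rules
import Pool.Agent.Helper62.TW.Trees1
import Pool.Agent.Helper62.TW.Trees2
import Pool.Agent.Helper62.TW.Trees3
import Pool.Agent.Helper62.TW.Trees4
import Pool.Agent.Helper62.TW.Trees5
import Pool.Agent.Helper62.TW.Trees6
import Pool.Agent.Helper62.TW.Trees7
import Pool.Agent.Helper62.TW.Trees8
import Pool.Agent.Helper62.TW.Trees9
import Pool.Agent.Helper62.TW.Trees10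
import Pool.Agent.Helper62.TW.Trees11
import Pool.Agent.Helper62.TW.Trees12

/-!
# The families of the class lemma (generated)
-/

set_option autoImplicit false
set_option maxRecDepth 100000
set_option linter.all false

namespace Pool.Agent.Helper62.TW

open Pool.Agent.Helper83.Cert Pool.Agent.Helper51.TS Pool.Agent.Helper74.TS Pool.Agent.Helper95.TS

theorem app_mem {α : Type*} {p : α → Prop} {l m : List α} (h : ∀ e ∈ l, p e) (h' : ∀ e ∈ m, p e) :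
    ∀ e ∈ l ++ m, p e := fun e he => (List.mem_append.1 he).elim (h e) (h' e)

theorem hown_nn {A δ : ℝ} (h : 1 ≤ A) (h0 : 0 ≤ δ) (h1 : δ ≤ 11 / 20) : 0 ≤ hown (A - 1) δ := by
  have := oT_nonneg (a := A) h0 h1
  rwa [oT_ge h] at this

/-- the other own term vanishes -/
theorem oT_other {w A B : ℝ} (hc : Cell w A B) (h : 1 ≤ A) : oT B (1 + w - A - B) = 0 := by
  rcases lt_or_ge B 1 with h2 | h2
  · exact oT_lt h2
  · have h3 := hc.hi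
    have h4 := hc.w1
    have e1 : A = 1 := by linarith
    have e2 : B = 1 := by linarith
    have e3 : w = 1 := by linarith
    rw [e1, e2, e3, show (1 : ℝ) + 1 - 1 - 1 = 0 by norm_num]
    exact oT_corner

/-- the gain of a `T` cell, free or paying in the order `L1 A`, `L2 B` -/
def GainTa (w A B g : ℝ) : Prop :=
  (11 / 20 ≤ 1 + w - A - B ∧ g ≤ vl w A B) ∨
    (1 + w - A - B < 11 / 20 ∧
      g ≤ vl w A B - (L1 A + L2 B) + (oT A (1 + w - A - B) + oT B (1 + w - A - B)))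

section

variable {w A B t g L M H K : ℝ}

theorem v_A_F1 {X Y : ℝ} (h : 0 ≤ exVal (yw w A B t g X Y L M H K) gE_A_F1) :
    g + OOA 0 t ≤ OOA w t := by
  simp only [gE_A_F1, exadd, exmul, exc, exw2, exw3, exw5, exw7, exw11, exw13, exw17, exw19, exw23, exw29, exw31] at h
  push_cast at h
  unfold OOA
  linarith

theorem x_A_F1 {X Y : ℝ} (tt : t ≤ 1 - B) :
    ∀ e ∈ xE_A_F1, 0 ≤ exVal (yw w A B t g X Y L M H K) e := by
  simp only [xE_A_F1, List.forall_mem_cons, exadd, exmul, exc, exw2, exw3, exw5, exw7, exw11, exw13, exw17, exw19, exw23, exw29, exw31]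
  push_cast
  refine ⟨?_, fun _ h => absurd h List.not_mem_nil⟩ <;> linarith

theorem fam_A_F1 (hc : Cell w A B) (ht : 0 ≤ t) (hg0 : 0 ≤ g) (h : GainC w A B g)
    (tt : t ≤ 1 - B) : g + OOA 0 t ≤ OOA w t := by
  have dn : 0 ≤ 1 + w - A - B := by linarith [hc.hi]
  rcases h with (⟨hd, hg⟩ | ⟨hd, hg⟩) | ⟨hd, ⟨hb, hA, hg⟩ | ⟨hb, hA, hg⟩ | ⟨hb, hA, hA1, hg⟩ | ⟨hb, hA, hg⟩ | hg⟩
  · exact v_A_F1 (L := 0) (M := 0) (H := 0) (K := 0) (tree_cert RF_eq g_A_F1_eq x_A_F1_free_eq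
      t_A_F1_free (yw_nonneg hc.w0.le hc.A0 hc.B0 ht hg0 (pos3 _) (pos3 _) le_rfl le_rfl le_rfl le_rfl)
      (semF hc) (app_mem (ctx_free hc ht hd hg) (x_A_F1 tt)))
  · rcases lt_or_ge A 1 with h1 | h1
    · rw [oT_lt h1, add_zero] at hg
      exact v_A_F1 (L := (LO A)) (M := 0) (H := 0) (K := 0) (tree_cert RO_eq g_A_F1_eq x_A_F1_Op0_eq
      t_A_F1_Op0 (yw_nonneg hc.w0.le hc.A0 hc.B0 ht hg0 (pos3 _) (pos3 _) (LO_nn A) le_rfl le_rfl le_rfl)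
      (semO hc fun h => hown_nn h dn hd.le) (app_mem (ctx_Op0 hc ht hd.le h1.le hg) (x_A_F1 tt)))
    · rw [oT_ge h1] at hg
      exact v_A_F1 (L := (LO A)) (M := 0) (H := (hown (A - 1) (1 + w - A - B))) (K := 0) (tree_cert RO_eq g_A_F1_eq x_A_F1_Op1_eq
      t_A_F1_Op1 (yw_nonneg hc.w0.le hc.A0 hc.B0 ht hg0 (pos3 _) (pos3 _) (LO_nn A) le_rfl (hown_nn h1 dn hd.le) le_rfl)
      (semO hc fun _ => le_rfl) (app_mem (ctx_Op1 hc ht hd.le h1 hg) (x_A_F1 tt)))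
  · exact v_A_F1 (L := (LO A)) (M := 0) (H := 0) (K := 0) (tree_cert RO_eq g_A_F1_eq x_A_F1_c0_eq
      t_A_F1_c0 (yw_nonneg hc.w0.le hc.A0 hc.B0 ht hg0 (pos3 _) (pos3 _) (LO_nn A) le_rfl le_rfl le_rfl)
      (semO hc fun h => hown_nn h dn hd.le) (app_mem (ctx_c0 hc ht hd.le hb hA hg) (x_A_F1 tt)))
  · exact v_A_F1 (L := 0) (M := 0) (H := 0) (K := 0) (tree_cert RF_eq g_A_F1_eq x_A_F1_c1_eq
      t_A_F1_c1 (yw_nonneg hc.w0.le hc.A0 hc.B0 ht hg0 (pos3 _) (pos3 _) le_rfl le_rfl le_rfl le_rfl)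
      (semF hc) (app_mem (ctx_c1 hc ht hd.le hb hA hg) (x_A_F1 tt)))
  · exact v_A_F1 (L := (LO A)) (M := 0) (H := 0) (K := 0) (tree_cert RO_eq g_A_F1_eq x_A_F1_c2_eq
      t_A_F1_c2 (yw_nonneg hc.w0.le hc.A0 hc.B0 ht hg0 (pos3 _) (pos3 _) (LO_nn A) le_rfl le_rfl le_rfl)
      (semO hc fun h => hown_nn h dn hd.le) (app_mem (ctx_c2 hc ht hd.le hb hA hA1 hg) (x_A_F1 tt)))
  · exact v_A_F1 (L := (LO A)) (M := 0) (H := (hown (A - 1) (1 + w - A - B))) (K := 0) (tree_cert RO_eq g_A_F1_eq x_A_F1_c3_eq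
      t_A_F1_c3 (yw_nonneg hc.w0.le hc.A0 hc.B0 ht hg0 (pos3 _) (pos3 _) (LO_nn A) le_rfl (hown_nn hA dn hd.le) le_rfl)
      (semO hc fun _ => le_rfl) (app_mem (ctx_c3 hc ht hd.le hb hA hg) (x_A_F1 tt)))
  · exact v_A_F1 (L := 0) (M := 0) (H := 0) (K := 0) (tree_cert RF_eq g_A_F1_eq x_A_F1_c4_eq
      t_A_F1_c4 (yw_nonneg hc.w0.le hc.A0 hc.B0 ht hg0 (pos3 _) (pos3 _) le_rfl le_rfl le_rfl le_rfl)
      (semF hc) (app_mem (ctx_c4 hc ht hd.le hg) (x_A_F1 tt)))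

theorem v_A_F3 {X Y : ℝ} (h : 0 ≤ exVal (yw w A B t g X Y L M H K) gE_A_F3) :
    g + TOA t 0 ≤ TOA t w := by
  simp only [gE_A_F3, exadd, exmul, exc, exw2, exw3, exw5, exw7, exw11, exw13, exw17, exw19, exw23, exw29, exw31] at h
  push_cast at h
  unfold TOA
  linarith

theorem x_A_F3 {X Y : ℝ} (tt : t ≤ 1 - A) :
    ∀ e ∈ xE_A_F3, 0 ≤ exVal (yw w A B t g X Y L M H K) e := by
  simp only [xE_A_F3, List.forall_mem_cons, exadd, exmul, exc, exw2, exw3, exw5, exw7, exw11, exw13, exw17, exw19, exw23, exw29, exw31]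
  push_cast
  refine ⟨?_, fun _ h => absurd h List.not_mem_nil⟩ <;> linarith

theorem fam_A_F3 (hc : Cell w A B) (ht : 0 ≤ t) (hg0 : 0 ≤ g) (h : GainC w A B g)
    (tt : t ≤ 1 - A) : g + TOA t 0 ≤ TOA t w := by
  have dn : 0 ≤ 1 + w - A - B := by linarith [hc.hi]
  rcases h with (⟨hd, hg⟩ | ⟨hd, hg⟩) | ⟨hd, ⟨hb, hA, hg⟩ | ⟨hb, hA, hg⟩ | ⟨hb, hA, hA1, hg⟩ | ⟨hb, hA, hg⟩ | hg⟩
  · exact v_A_F3 (L := 0) (M := 0) (H := 0) (K := 0) (tree_cert RF_eq g_A_F3_eq x_A_F3_free_eq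
      t_A_F3_free (yw_nonneg hc.w0.le hc.A0 hc.B0 ht hg0 (pos3 _) (pos3 _) le_rfl le_rfl le_rfl le_rfl)
      (semF hc) (app_mem (ctx_free hc ht hd hg) (x_A_F3 tt)))
  · rcases lt_or_ge A 1 with h1 | h1
    · rw [oT_lt h1, add_zero] at hg
      exact v_A_F3 (L := (LO A)) (M := 0) (H := 0) (K := 0) (tree_cert RO_eq g_A_F3_eq x_A_F3_Op0_eq
      t_A_F3_Op0 (yw_nonneg hc.w0.le hc.A0 hc.B0 ht hg0 (pos3 _) (pos3 _) (LO_nn A) le_rfl le_rfl le_rfl)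
      (semO hc fun h => hown_nn h dn hd.le) (app_mem (ctx_Op0 hc ht hd.le h1.le hg) (x_A_F3 tt)))
    · rw [oT_ge h1] at hg
      exact v_A_F3 (L := (LO A)) (M := 0) (H := (hown (A - 1) (1 + w - A - B))) (K := 0) (tree_cert RO_eq g_A_F3_eq x_A_F3_Op1_eq
      t_A_F3_Op1 (yw_nonneg hc.w0.le hc.A0 hc.B0 ht hg0 (pos3 _) (pos3 _) (LO_nn A) le_rfl (hown_nn h1 dn hd.le) le_rfl)
      (semO hc fun _ => le_rfl) (app_mem (ctx_Op1 hc ht hd.le h1 hg) (x_A_F3 tt)))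
  · exact v_A_F3 (L := (LO A)) (M := 0) (H := 0) (K := 0) (tree_cert RO_eq g_A_F3_eq x_A_F3_c0_eq
      t_A_F3_c0 (yw_nonneg hc.w0.le hc.A0 hc.B0 ht hg0 (pos3 _) (pos3 _) (LO_nn A) le_rfl le_rfl le_rfl)
      (semO hc fun h => hown_nn h dn hd.le) (app_mem (ctx_c0 hc ht hd.le hb hA hg) (x_A_F3 tt)))
  · exact v_A_F3 (L := 0) (M := 0) (H := 0) (K := 0) (tree_cert RF_eq g_A_F3_eq x_A_F3_c1_eq
      t_A_F3_c1 (yw_nonneg hc.w0.le hc.A0 hc.B0 ht hg0 (pos3 _) (pos3 _) le_rfl le_rfl le_rfl le_rfl)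
      (semF hc) (app_mem (ctx_c1 hc ht hd.le hb hA hg) (x_A_F3 tt)))
  · exact v_A_F3 (L := (LO A)) (M := 0) (H := 0) (K := 0) (tree_cert RO_eq g_A_F3_eq x_A_F3_c2_eq
      t_A_F3_c2 (yw_nonneg hc.w0.le hc.A0 hc.B0 ht hg0 (pos3 _) (pos3 _) (LO_nn A) le_rfl le_rfl le_rfl)
      (semO hc fun h => hown_nn h dn hd.le) (app_mem (ctx_c2 hc ht hd.le hb hA hA1 hg) (x_A_F3 tt)))
  · exact v_A_F3 (L := (LO A)) (M := 0) (H := (hown (A - 1) (1 + w - A - B))) (K := 0) (tree_cert RO_eq g_A_F3_eq x_A_F3_c3_eq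
      t_A_F3_c3 (yw_nonneg hc.w0.le hc.A0 hc.B0 ht hg0 (pos3 _) (pos3 _) (LO_nn A) le_rfl (hown_nn hA dn hd.le) le_rfl)
      (semO hc fun _ => le_rfl) (app_mem (ctx_c3 hc ht hd.le hb hA hg) (x_A_F3 tt)))
  · exact v_A_F3 (L := 0) (M := 0) (H := 0) (K := 0) (tree_cert RF_eq g_A_F3_eq x_A_F3_c4_eq
      t_A_F3_c4 (yw_nonneg hc.w0.le hc.A0 hc.B0 ht hg0 (pos3 _) (pos3 _) le_rfl le_rfl le_rfl le_rfl)
      (semF hc) (app_mem (ctx_c4 hc ht hd.le hg) (x_A_F3 tt)))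

theorem v_A_F5a {X Y : ℝ} (h : 0 ≤ exVal (yw w A B t g X Y L M H K) gE_A_F5a) :
    g + TOA (1 - A) (1 - B) ≤ 253 / 500 := by
  simp only [gE_A_F5a, exadd, exmul, exc, exw2, exw3, exw5, exw7, exw11, exw13, exw17, exw19, exw23, exw29, exw31] at h
  push_cast at h
  unfold TOA
  linarith

theorem x_A_F5a {X Y : ℝ} (ca : A ≤ 1) (cb : B ≤ 1) :
    ∀ e ∈ xE_A_F5a, 0 ≤ exVal (yw w A B t g X Y L M H K) e := by
  simp only [xE_A_F5a, List.forall_mem_cons, exadd, exmul, exc, exw2, exw3, exw5, exw7, exw11, exw13, exw17, exw19, exw23, exw29, exw31]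
  push_cast
  refine ⟨?_, ?_, fun _ h => absurd h List.not_mem_nil⟩ <;> linarith

theorem fam_A_F5a (hc : Cell w A B) (ht : 0 ≤ t) (hg0 : 0 ≤ g) (h : GainC w A B g)
    (ca : A ≤ 1) (cb : B ≤ 1) : g + TOA (1 - A) (1 - B) ≤ 253 / 500 := by
  have dn : 0 ≤ 1 + w - A - B := by linarith [hc.hi]
  rcases h with (⟨hd, hg⟩ | ⟨hd, hg⟩) | ⟨hd, ⟨hb, hA, hg⟩ | ⟨hb, hA, hg⟩ | ⟨hb, hA, hA1, hg⟩ | ⟨hb, hA, hg⟩ | hg⟩
  · exact v_A_F5a (L := 0) (M := 0) (H := 0) (K := 0) (tree_cert RF_eq g_A_F5a_eq x_A_F5a_free_eq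
      t_A_F5a_free (yw_nonneg hc.w0.le hc.A0 hc.B0 ht hg0 (pos3 _) (pos3 _) le_rfl le_rfl le_rfl le_rfl)
      (semF hc) (app_mem (ctx_free hc ht hd hg) (x_A_F5a ca cb)))
  · rcases lt_or_ge A 1 with h1 | h1
    · rw [oT_lt h1, add_zero] at hg
      exact v_A_F5a (L := (LO A)) (M := 0) (H := 0) (K := 0) (tree_cert RO_eq g_A_F5a_eq x_A_F5a_Op0_eq
      t_A_F5a_Op0 (yw_nonneg hc.w0.le hc.A0 hc.B0 ht hg0 (pos3 _) (pos3 _) (LO_nn A) le_rfl le_rfl le_rfl)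
      (semO hc fun h => hown_nn h dn hd.le) (app_mem (ctx_Op0 hc ht hd.le h1.le hg) (x_A_F5a ca cb)))
    · rw [oT_ge h1] at hg
      exact v_A_F5a (L := (LO A)) (M := 0) (H := (hown (A - 1) (1 + w - A - B))) (K := 0) (tree_cert RO_eq g_A_F5a_eq x_A_F5a_Op1_eq
      t_A_F5a_Op1 (yw_nonneg hc.w0.le hc.A0 hc.B0 ht hg0 (pos3 _) (pos3 _) (LO_nn A) le_rfl (hown_nn h1 dn hd.le) le_rfl)
      (semO hc fun _ => le_rfl) (app_mem (ctx_Op1 hc ht hd.le h1 hg) (x_A_F5a ca cb)))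
  · exact v_A_F5a (L := (LO A)) (M := 0) (H := 0) (K := 0) (tree_cert RO_eq g_A_F5a_eq x_A_F5a_c0_eq
      t_A_F5a_c0 (yw_nonneg hc.w0.le hc.A0 hc.B0 ht hg0 (pos3 _) (pos3 _) (LO_nn A) le_rfl le_rfl le_rfl)
      (semO hc fun h => hown_nn h dn hd.le) (app_mem (ctx_c0 hc ht hd.le hb hA hg) (x_A_F5a ca cb)))
  · exact v_A_F5a (L := 0) (M := 0) (H := 0) (K := 0) (tree_cert RF_eq g_A_F5a_eq x_A_F5a_c1_eq
      t_A_F5a_c1 (yw_nonneg hc.w0.le hc.A0 hc.B0 ht hg0 (pos3 _) (pos3 _) le_rfl le_rfl le_rfl le_rfl)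
      (semF hc) (app_mem (ctx_c1 hc ht hd.le hb hA hg) (x_A_F5a ca cb)))
  · exact v_A_F5a (L := (LO A)) (M := 0) (H := 0) (K := 0) (tree_cert RO_eq g_A_F5a_eq x_A_F5a_c2_eq
      t_A_F5a_c2 (yw_nonneg hc.w0.le hc.A0 hc.B0 ht hg0 (pos3 _) (pos3 _) (LO_nn A) le_rfl le_rfl le_rfl)
      (semO hc fun h => hown_nn h dn hd.le) (app_mem (ctx_c2 hc ht hd.le hb hA hA1 hg) (x_A_F5a ca cb)))
  · exact v_A_F5a (L := (LO A)) (M := 0) (H := (hown (A - 1) (1 + w - A - B))) (K := 0) (tree_cert RO_eq g_A_F5a_eq x_A_F5a_c3_eq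
      t_A_F5a_c3 (yw_nonneg hc.w0.le hc.A0 hc.B0 ht hg0 (pos3 _) (pos3 _) (LO_nn A) le_rfl (hown_nn hA dn hd.le) le_rfl)
      (semO hc fun _ => le_rfl) (app_mem (ctx_c3 hc ht hd.le hb hA hg) (x_A_F5a ca cb)))
  · exact v_A_F5a (L := 0) (M := 0) (H := 0) (K := 0) (tree_cert RF_eq g_A_F5a_eq x_A_F5a_c4_eq
      t_A_F5a_c4 (yw_nonneg hc.w0.le hc.A0 hc.B0 ht hg0 (pos3 _) (pos3 _) le_rfl le_rfl le_rfl le_rfl)
      (semF hc) (app_mem (ctx_c4 hc ht hd.le hg) (x_A_F5a ca cb)))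

theorem v_A_F5b {X Y : ℝ} (h : 0 ≤ exVal (yw w A B t g X Y L M H K) gE_A_F5b) :
    g + TOA 0 (1 - B) ≤ 253 / 500 := by
  simp only [gE_A_F5b, exadd, exmul, exc, exw2, exw3, exw5, exw7, exw11, exw13, exw17, exw19, exw23, exw29, exw31] at h
  push_cast at h
  unfold TOA
  linarith

theorem x_A_F5b {X Y : ℝ} (ca : 1 ≤ A) (cb : B ≤ 1) :
    ∀ e ∈ xE_A_F5b, 0 ≤ exVal (yw w A B t g X Y L M H K) e := by
  simp only [xE_A_F5b, List.forall_mem_cons, exadd, exmul, exc, exw2, exw3, exw5, exw7, exw11, exw13, exw17, exw19, exw23, exw29, exw31]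
  push_cast
  refine ⟨?_, ?_, fun _ h => absurd h List.not_mem_nil⟩ <;> linarith

theorem fam_A_F5b (hc : Cell w A B) (ht : 0 ≤ t) (hg0 : 0 ≤ g) (h : GainC w A B g)
    (ca : 1 ≤ A) (cb : B ≤ 1) : g + TOA 0 (1 - B) ≤ 253 / 500 := by
  have dn : 0 ≤ 1 + w - A - B := by linarith [hc.hi]
  rcases h with (⟨hd, hg⟩ | ⟨hd, hg⟩) | ⟨hd, ⟨hb, hA, hg⟩ | ⟨hb, hA, hg⟩ | ⟨hb, hA, hA1, hg⟩ | ⟨hb, hA, hg⟩ | hg⟩
  · exact v_A_F5b (L := 0) (M := 0) (H := 0) (K := 0) (tree_cert RF_eq g_A_F5b_eq x_A_F5b_free_eq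
      t_A_F5b_free (yw_nonneg hc.w0.le hc.A0 hc.B0 ht hg0 (pos3 _) (pos3 _) le_rfl le_rfl le_rfl le_rfl)
      (semF hc) (app_mem (ctx_free hc ht hd hg) (x_A_F5b ca cb)))
  · rcases lt_or_ge A 1 with h1 | h1
    · rw [oT_lt h1, add_zero] at hg
      exact v_A_F5b (L := (LO A)) (M := 0) (H := 0) (K := 0) (tree_cert RO_eq g_A_F5b_eq x_A_F5b_Op0_eq
      t_A_F5b_Op0 (yw_nonneg hc.w0.le hc.A0 hc.B0 ht hg0 (pos3 _) (pos3 _) (LO_nn A) le_rfl le_rfl le_rfl)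
      (semO hc fun h => hown_nn h dn hd.le) (app_mem (ctx_Op0 hc ht hd.le h1.le hg) (x_A_F5b ca cb)))
    · rw [oT_ge h1] at hg
      exact v_A_F5b (L := (LO A)) (M := 0) (H := (hown (A - 1) (1 + w - A - B))) (K := 0) (tree_cert RO_eq g_A_F5b_eq x_A_F5b_Op1_eq
      t_A_F5b_Op1 (yw_nonneg hc.w0.le hc.A0 hc.B0 ht hg0 (pos3 _) (pos3 _) (LO_nn A) le_rfl (hown_nn h1 dn hd.le) le_rfl)
      (semO hc fun _ => le_rfl) (app_mem (ctx_Op1 hc ht hd.le h1 hg) (x_A_F5b ca cb)))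
  · exact v_A_F5b (L := (LO A)) (M := 0) (H := 0) (K := 0) (tree_cert RO_eq g_A_F5b_eq x_A_F5b_c0_eq
      t_A_F5b_c0 (yw_nonneg hc.w0.le hc.A0 hc.B0 ht hg0 (pos3 _) (pos3 _) (LO_nn A) le_rfl le_rfl le_rfl)
      (semO hc fun h => hown_nn h dn hd.le) (app_mem (ctx_c0 hc ht hd.le hb hA hg) (x_A_F5b ca cb)))
  · exact v_A_F5b (L := 0) (M := 0) (H := 0) (K := 0) (tree_cert RF_eq g_A_F5b_eq x_A_F5b_c1_eq
      t_A_F5b_c1 (yw_nonneg hc.w0.le hc.A0 hc.B0 ht hg0 (pos3 _) (pos3 _) le_rfl le_rfl le_rfl le_rfl)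
      (semF hc) (app_mem (ctx_c1 hc ht hd.le hb hA hg) (x_A_F5b ca cb)))
  · exact v_A_F5b (L := (LO A)) (M := 0) (H := 0) (K := 0) (tree_cert RO_eq g_A_F5b_eq x_A_F5b_c2_eq
      t_A_F5b_c2 (yw_nonneg hc.w0.le hc.A0 hc.B0 ht hg0 (pos3 _) (pos3 _) (LO_nn A) le_rfl le_rfl le_rfl)
      (semO hc fun h => hown_nn h dn hd.le) (app_mem (ctx_c2 hc ht hd.le hb hA hA1 hg) (x_A_F5b ca cb)))
  · exact v_A_F5b (L := (LO A)) (M := 0) (H := (hown (A - 1) (1 + w - A - B))) (K := 0) (tree_cert RO_eq g_A_F5b_eq x_A_F5b_c3_eq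
      t_A_F5b_c3 (yw_nonneg hc.w0.le hc.A0 hc.B0 ht hg0 (pos3 _) (pos3 _) (LO_nn A) le_rfl (hown_nn hA dn hd.le) le_rfl)
      (semO hc fun _ => le_rfl) (app_mem (ctx_c3 hc ht hd.le hb hA hg) (x_A_F5b ca cb)))
  · exact v_A_F5b (L := 0) (M := 0) (H := 0) (K := 0) (tree_cert RF_eq g_A_F5b_eq x_A_F5b_c4_eq
      t_A_F5b_c4 (yw_nonneg hc.w0.le hc.A0 hc.B0 ht hg0 (pos3 _) (pos3 _) le_rfl le_rfl le_rfl le_rfl)
      (semF hc) (app_mem (ctx_c4 hc ht hd.le hg) (x_A_F5b ca cb)))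

theorem v_A_F5c {X Y : ℝ} (h : 0 ≤ exVal (yw w A B t g X Y L M H K) gE_A_F5c) :
    g + TOA (1 - A) 0 ≤ 253 / 500 := by
  simp only [gE_A_F5c, exadd, exmul, exc, exw2, exw3, exw5, exw7, exw11, exw13, exw17, exw19, exw23, exw29, exw31] at h
  push_cast at h
  unfold TOA
  linarith

theorem x_A_F5c {X Y : ℝ} (ca : A ≤ 1) (cb : 1 ≤ B) :
    ∀ e ∈ xE_A_F5c, 0 ≤ exVal (yw w A B t g X Y L M H K) e := by
  simp only [xE_A_F5c, List.forall_mem_cons, exadd, exmul, exc, exw2, exw3, exw5, exw7, exw11, exw13, exw17, exw19, exw23, exw29, exw31]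
  push_cast
  refine ⟨?_, ?_, fun _ h => absurd h List.not_mem_nil⟩ <;> linarith

theorem fam_A_F5c (hc : Cell w A B) (ht : 0 ≤ t) (hg0 : 0 ≤ g) (h : GainC w A B g)
    (ca : A ≤ 1) (cb : 1 ≤ B) : g + TOA (1 - A) 0 ≤ 253 / 500 := by
  have dn : 0 ≤ 1 + w - A - B := by linarith [hc.hi]
  rcases h with (⟨hd, hg⟩ | ⟨hd, hg⟩) | ⟨hd, ⟨hb, hA, hg⟩ | ⟨hb, hA, hg⟩ | ⟨hb, hA, hA1, hg⟩ | ⟨hb, hA, hg⟩ | hg⟩
  · exact v_A_F5c (L := 0) (M := 0) (H := 0) (K := 0) (tree_cert RF_eq g_A_F5c_eq x_A_F5c_free_eq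
      t_A_F5c_free (yw_nonneg hc.w0.le hc.A0 hc.B0 ht hg0 (pos3 _) (pos3 _) le_rfl le_rfl le_rfl le_rfl)
      (semF hc) (app_mem (ctx_free hc ht hd hg) (x_A_F5c ca cb)))
  · rcases lt_or_ge A 1 with h1 | h1
    · rw [oT_lt h1, add_zero] at hg
      exact v_A_F5c (L := (LO A)) (M := 0) (H := 0) (K := 0) (tree_cert RO_eq g_A_F5c_eq x_A_F5c_Op0_eq
      t_A_F5c_Op0 (yw_nonneg hc.w0.le hc.A0 hc.B0 ht hg0 (pos3 _) (pos3 _) (LO_nn A) le_rfl le_rfl le_rfl)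
      (semO hc fun h => hown_nn h dn hd.le) (app_mem (ctx_Op0 hc ht hd.le h1.le hg) (x_A_F5c ca cb)))
    · rw [oT_ge h1] at hg
      exact v_A_F5c (L := (LO A)) (M := 0) (H := (hown (A - 1) (1 + w - A - B))) (K := 0) (tree_cert RO_eq g_A_F5c_eq x_A_F5c_Op1_eq
      t_A_F5c_Op1 (yw_nonneg hc.w0.le hc.A0 hc.B0 ht hg0 (pos3 _) (pos3 _) (LO_nn A) le_rfl (hown_nn h1 dn hd.le) le_rfl)
      (semO hc fun _ => le_rfl) (app_mem (ctx_Op1 hc ht hd.le h1 hg) (x_A_F5c ca cb)))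
  · exact v_A_F5c (L := (LO A)) (M := 0) (H := 0) (K := 0) (tree_cert RO_eq g_A_F5c_eq x_A_F5c_c0_eq
      t_A_F5c_c0 (yw_nonneg hc.w0.le hc.A0 hc.B0 ht hg0 (pos3 _) (pos3 _) (LO_nn A) le_rfl le_rfl le_rfl)
      (semO hc fun h => hown_nn h dn hd.le) (app_mem (ctx_c0 hc ht hd.le hb hA hg) (x_A_F5c ca cb)))
  · exact v_A_F5c (L := 0) (M := 0) (H := 0) (K := 0) (tree_cert RF_eq g_A_F5c_eq x_A_F5c_c1_eq
      t_A_F5c_c1 (yw_nonneg hc.w0.le hc.A0 hc.B0 ht hg0 (pos3 _) (pos3 _) le_rfl le_rfl le_rfl le_rfl)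
      (semF hc) (app_mem (ctx_c1 hc ht hd.le hb hA hg) (x_A_F5c ca cb)))
  · exact v_A_F5c (L := (LO A)) (M := 0) (H := 0) (K := 0) (tree_cert RO_eq g_A_F5c_eq x_A_F5c_c2_eq
      t_A_F5c_c2 (yw_nonneg hc.w0.le hc.A0 hc.B0 ht hg0 (pos3 _) (pos3 _) (LO_nn A) le_rfl le_rfl le_rfl)
      (semO hc fun h => hown_nn h dn hd.le) (app_mem (ctx_c2 hc ht hd.le hb hA hA1 hg) (x_A_F5c ca cb)))
  · exact v_A_F5c (L := (LO A)) (M := 0) (H := (hown (A - 1) (1 + w - A - B))) (K := 0) (tree_cert RO_eq g_A_F5c_eq x_A_F5c_c3_eq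
      t_A_F5c_c3 (yw_nonneg hc.w0.le hc.A0 hc.B0 ht hg0 (pos3 _) (pos3 _) (LO_nn A) le_rfl (hown_nn hA dn hd.le) le_rfl)
      (semO hc fun _ => le_rfl) (app_mem (ctx_c3 hc ht hd.le hb hA hg) (x_A_F5c ca cb)))
  · exact v_A_F5c (L := 0) (M := 0) (H := 0) (K := 0) (tree_cert RF_eq g_A_F5c_eq x_A_F5c_c4_eq
      t_A_F5c_c4 (yw_nonneg hc.w0.le hc.A0 hc.B0 ht hg0 (pos3 _) (pos3 _) le_rfl le_rfl le_rfl le_rfl)
      (semF hc) (app_mem (ctx_c4 hc ht hd.le hg) (x_A_F5c ca cb)))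

theorem v_A_F7 {X Y : ℝ} (h : 0 ≤ exVal (yw w A B t g X Y L M H K) gE_A_F7) :
    g ≤ BaA w t := by
  simp only [gE_A_F7, exadd, exmul, exc, exw2, exw3, exw5, exw7, exw11, exw13, exw17, exw19, exw23, exw29, exw31] at h
  push_cast at h
  unfold BaA
  linarith

theorem x_A_F7 {X Y : ℝ} (tt : t ≤ 1 - A) :
    ∀ e ∈ xE_A_F7, 0 ≤ exVal (yw w A B t g X Y L M H K) e := by
  simp only [xE_A_F7, List.forall_mem_cons, exadd, exmul, exc, exw2, exw3, exw5, exw7, exw11, exw13, exw17, exw19, exw23, exw29, exw31]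
  push_cast
  refine ⟨?_, fun _ h => absurd h List.not_mem_nil⟩ <;> linarith

theorem fam_A_F7 (hc : Cell w A B) (ht : 0 ≤ t) (hg0 : 0 ≤ g) (h : GainC w A B g)
    (tt : t ≤ 1 - A) : g ≤ BaA w t := by
  have dn : 0 ≤ 1 + w - A - B := by linarith [hc.hi]
  rcases h with (⟨hd, hg⟩ | ⟨hd, hg⟩) | ⟨hd, ⟨hb, hA, hg⟩ | ⟨hb, hA, hg⟩ | ⟨hb, hA, hA1, hg⟩ | ⟨hb, hA, hg⟩ | hg⟩
  · exact v_A_F7 (L := 0) (M := 0) (H := 0) (K := 0) (tree_cert RF_eq g_A_F7_eq x_A_F7_free_eq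
      t_A_F7_free (yw_nonneg hc.w0.le hc.A0 hc.B0 ht hg0 (pos3 _) (pos3 _) le_rfl le_rfl le_rfl le_rfl)
      (semF hc) (app_mem (ctx_free hc ht hd hg) (x_A_F7 tt)))
  · rcases lt_or_ge A 1 with h1 | h1
    · rw [oT_lt h1, add_zero] at hg
      exact v_A_F7 (L := (LO A)) (M := 0) (H := 0) (K := 0) (tree_cert RO_eq g_A_F7_eq x_A_F7_Op0_eq
      t_A_F7_Op0 (yw_nonneg hc.w0.le hc.A0 hc.B0 ht hg0 (pos3 _) (pos3 _) (LO_nn A) le_rfl le_rfl le_rfl)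
      (semO hc fun h => hown_nn h dn hd.le) (app_mem (ctx_Op0 hc ht hd.le h1.le hg) (x_A_F7 tt)))
    · rw [oT_ge h1] at hg
      exact v_A_F7 (L := (LO A)) (M := 0) (H := (hown (A - 1) (1 + w - A - B))) (K := 0) (tree_cert RO_eq g_A_F7_eq x_A_F7_Op1_eq
      t_A_F7_Op1 (yw_nonneg hc.w0.le hc.A0 hc.B0 ht hg0 (pos3 _) (pos3 _) (LO_nn A) le_rfl (hown_nn h1 dn hd.le) le_rfl)
      (semO hc fun _ => le_rfl) (app_mem (ctx_Op1 hc ht hd.le h1 hg) (x_A_F7 tt)))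
  · exact v_A_F7 (L := (LO A)) (M := 0) (H := 0) (K := 0) (tree_cert RO_eq g_A_F7_eq x_A_F7_c0_eq
      t_A_F7_c0 (yw_nonneg hc.w0.le hc.A0 hc.B0 ht hg0 (pos3 _) (pos3 _) (LO_nn A) le_rfl le_rfl le_rfl)
      (semO hc fun h => hown_nn h dn hd.le) (app_mem (ctx_c0 hc ht hd.le hb hA hg) (x_A_F7 tt)))
  · exact v_A_F7 (L := 0) (M := 0) (H := 0) (K := 0) (tree_cert RF_eq g_A_F7_eq x_A_F7_c1_eq
      t_A_F7_c1 (yw_nonneg hc.w0.le hc.A0 hc.B0 ht hg0 (pos3 _) (pos3 _) le_rfl le_rfl le_rfl le_rfl)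
      (semF hc) (app_mem (ctx_c1 hc ht hd.le hb hA hg) (x_A_F7 tt)))
  · exact v_A_F7 (L := (LO A)) (M := 0) (H := 0) (K := 0) (tree_cert RO_eq g_A_F7_eq x_A_F7_c2_eq
      t_A_F7_c2 (yw_nonneg hc.w0.le hc.A0 hc.B0 ht hg0 (pos3 _) (pos3 _) (LO_nn A) le_rfl le_rfl le_rfl)
      (semO hc fun h => hown_nn h dn hd.le) (app_mem (ctx_c2 hc ht hd.le hb hA hA1 hg) (x_A_F7 tt)))
  · exact v_A_F7 (L := (LO A)) (M := 0) (H := (hown (A - 1) (1 + w - A - B))) (K := 0) (tree_cert RO_eq g_A_F7_eq x_A_F7_c3_eq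
      t_A_F7_c3 (yw_nonneg hc.w0.le hc.A0 hc.B0 ht hg0 (pos3 _) (pos3 _) (LO_nn A) le_rfl (hown_nn hA dn hd.le) le_rfl)
      (semO hc fun _ => le_rfl) (app_mem (ctx_c3 hc ht hd.le hb hA hg) (x_A_F7 tt)))
  · exact v_A_F7 (L := 0) (M := 0) (H := 0) (K := 0) (tree_cert RF_eq g_A_F7_eq x_A_F7_c4_eq
      t_A_F7_c4 (yw_nonneg hc.w0.le hc.A0 hc.B0 ht hg0 (pos3 _) (pos3 _) le_rfl le_rfl le_rfl le_rfl)
      (semF hc) (app_mem (ctx_c4 hc ht hd.le hg) (x_A_F7 tt)))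

theorem v_A_F8 {X Y : ℝ} (h : 0 ≤ exVal (yw w A B t g X Y L M H K) gE_A_F8) :
    g ≤ BbA w t := by
  simp only [gE_A_F8, exadd, exmul, exc, exw2, exw3, exw5, exw7, exw11, exw13, exw17, exw19, exw23, exw29, exw31] at h
  push_cast at h
  unfold BbA
  linarith

theorem x_A_F8 {X Y : ℝ} (tt : t ≤ 1 - B) :
    ∀ e ∈ xE_A_F8, 0 ≤ exVal (yw w A B t g X Y L M H K) e := by
  simp only [xE_A_F8, List.forall_mem_cons, exadd, exmul, exc, exw2, exw3, exw5, exw7, exw11, exw13, exw17, exw19, exw23, exw29, exw31]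
  push_cast
  refine ⟨?_, fun _ h => absurd h List.not_mem_nil⟩ <;> linarith

theorem fam_A_F8 (hc : Cell w A B) (ht : 0 ≤ t) (hg0 : 0 ≤ g) (h : GainC w A B g)
    (tt : t ≤ 1 - B) : g ≤ BbA w t := by
  have dn : 0 ≤ 1 + w - A - B := by linarith [hc.hi]
  rcases h with (⟨hd, hg⟩ | ⟨hd, hg⟩) | ⟨hd, ⟨hb, hA, hg⟩ | ⟨hb, hA, hg⟩ | ⟨hb, hA, hA1, hg⟩ | ⟨hb, hA, hg⟩ | hg⟩
  · exact v_A_F8 (L := 0) (M := 0) (H := 0) (K := 0) (tree_cert RF_eq g_A_F8_eq x_A_F8_free_eq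
      t_A_F8_free (yw_nonneg hc.w0.le hc.A0 hc.B0 ht hg0 (pos3 _) (pos3 _) le_rfl le_rfl le_rfl le_rfl)
      (semF hc) (app_mem (ctx_free hc ht hd hg) (x_A_F8 tt)))
  · rcases lt_or_ge A 1 with h1 | h1
    · rw [oT_lt h1, add_zero] at hg
      exact v_A_F8 (L := (LO A)) (M := 0) (H := 0) (K := 0) (tree_cert RO_eq g_A_F8_eq x_A_F8_Op0_eq
      t_A_F8_Op0 (yw_nonneg hc.w0.le hc.A0 hc.B0 ht hg0 (pos3 _) (pos3 _) (LO_nn A) le_rfl le_rfl le_rfl)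
      (semO hc fun h => hown_nn h dn hd.le) (app_mem (ctx_Op0 hc ht hd.le h1.le hg) (x_A_F8 tt)))
    · rw [oT_ge h1] at hg
      exact v_A_F8 (L := (LO A)) (M := 0) (H := (hown (A - 1) (1 + w - A - B))) (K := 0) (tree_cert RO_eq g_A_F8_eq x_A_F8_Op1_eq
      t_A_F8_Op1 (yw_nonneg hc.w0.le hc.A0 hc.B0 ht hg0 (pos3 _) (pos3 _) (LO_nn A) le_rfl (hown_nn h1 dn hd.le) le_rfl)
      (semO hc fun _ => le_rfl) (app_mem (ctx_Op1 hc ht hd.le h1 hg) (x_A_F8 tt)))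
  · exact v_A_F8 (L := (LO A)) (M := 0) (H := 0) (K := 0) (tree_cert RO_eq g_A_F8_eq x_A_F8_c0_eq
      t_A_F8_c0 (yw_nonneg hc.w0.le hc.A0 hc.B0 ht hg0 (pos3 _) (pos3 _) (LO_nn A) le_rfl le_rfl le_rfl)
      (semO hc fun h => hown_nn h dn hd.le) (app_mem (ctx_c0 hc ht hd.le hb hA hg) (x_A_F8 tt)))
  · exact v_A_F8 (L := 0) (M := 0) (H := 0) (K := 0) (tree_cert RF_eq g_A_F8_eq x_A_F8_c1_eq
      t_A_F8_c1 (yw_nonneg hc.w0.le hc.A0 hc.B0 ht hg0 (pos3 _) (pos3 _) le_rfl le_rfl le_rfl le_rfl)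
      (semF hc) (app_mem (ctx_c1 hc ht hd.le hb hA hg) (x_A_F8 tt)))
  · exact v_A_F8 (L := (LO A)) (M := 0) (H := 0) (K := 0) (tree_cert RO_eq g_A_F8_eq x_A_F8_c2_eq
      t_A_F8_c2 (yw_nonneg hc.w0.le hc.A0 hc.B0 ht hg0 (pos3 _) (pos3 _) (LO_nn A) le_rfl le_rfl le_rfl)
      (semO hc fun h => hown_nn h dn hd.le) (app_mem (ctx_c2 hc ht hd.le hb hA hA1 hg) (x_A_F8 tt)))
  · exact v_A_F8 (L := (LO A)) (M := 0) (H := (hown (A - 1) (1 + w - A - B))) (K := 0) (tree_cert RO_eq g_A_F8_eq x_A_F8_c3_eq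
      t_A_F8_c3 (yw_nonneg hc.w0.le hc.A0 hc.B0 ht hg0 (pos3 _) (pos3 _) (LO_nn A) le_rfl (hown_nn hA dn hd.le) le_rfl)
      (semO hc fun _ => le_rfl) (app_mem (ctx_c3 hc ht hd.le hb hA hg) (x_A_F8 tt)))
  · exact v_A_F8 (L := 0) (M := 0) (H := 0) (K := 0) (tree_cert RF_eq g_A_F8_eq x_A_F8_c4_eq
      t_A_F8_c4 (yw_nonneg hc.w0.le hc.A0 hc.B0 ht hg0 (pos3 _) (pos3 _) le_rfl le_rfl le_rfl le_rfl)
      (semF hc) (app_mem (ctx_c4 hc ht hd.le hg) (x_A_F8 tt)))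

theorem v_A_T2 {X Y : ℝ} (h : 0 ≤ exVal (yw w A B t g X Y L M H K) gE_A_T2) :
    g + OOA 0 t ≤ TOA w t := by
  simp only [gE_A_T2, exadd, exmul, exc, exw2, exw3, exw5, exw7, exw11, exw13, exw17, exw19, exw23, exw29, exw31] at h
  push_cast at h
  unfold OOA TOA
  linarith

theorem x_A_T2 {X Y : ℝ} (tt : t ≤ 1 - A) :
    ∀ e ∈ xE_A_T2, 0 ≤ exVal (yw w A B t g X Y L M H K) e := by
  simp only [xE_A_T2, List.forall_mem_cons, exadd, exmul, exc, exw2, exw3, exw5, exw7, exw11, exw13, exw17, exw19, exw23, exw29, exw31]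
  push_cast
  refine ⟨?_, fun _ h => absurd h List.not_mem_nil⟩ <;> linarith

theorem fam_A_T2 (hc : Cell w A B) (ht : 0 ≤ t) (hg0 : 0 ≤ g) (h : GainT w A B g)
    (tt : t ≤ 1 - A) : g + OOA 0 t ≤ TOA w t := by
  have dn : 0 ≤ 1 + w - A - B := by linarith [hc.hi]
  rcases h with ⟨hd, hg⟩ | ⟨hd, hg⟩ | ⟨hd, hg⟩
  · exact v_A_T2 (L := 0) (M := 0) (H := 0) (K := 0) (tree_cert RF_eq g_A_T2_eq x_A_T2_free_eq
      t_A_T2_free (yw_nonneg hc.w0.le hc.A0 hc.B0 ht hg0 (pos3 _) (pos3 _) le_rfl le_rfl le_rfl le_rfl)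
      (semF hc) (app_mem (ctx_free hc ht hd hg) (x_A_T2 tt)))
  · rcases lt_or_ge A 1 with h1 | h1
    · rw [oT_lt h1] at hg
      rcases lt_or_ge B 1 with h2 | h2
      · rw [oT_lt h2, add_zero, add_zero] at hg
        exact v_A_T2 (L := (L1 A)) (M := (L2 B)) (H := 0) (K := 0) (tree_cert Ra_eq g_A_T2_eq x_A_T2_Tp0_eq
      t_A_T2_Tp0_a (yw_nonneg hc.w0.le hc.A0 hc.B0 ht hg0 (pos3 _) (pos3 _) (L1_nn A) (L2_nn B) le_rfl le_rfl)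
      (sema hc (fun h => hown_nn h dn hd.le) (fun h => hown_nn h dn hd.le)) (app_mem (ctx_Tp0 hc ht hd.le h1.le h2.le hg) (x_A_T2 tt)))
      · rw [oT_ge h2, zero_add] at hg
        exact v_A_T2 (L := (L1 A)) (M := (L2 B)) (H := 0) (K := (hown (B - 1) (1 + w - A - B))) (tree_cert Ra_eq g_A_T2_eq x_A_T2_TpB_eq
      t_A_T2_TpB_a (yw_nonneg hc.w0.le hc.A0 hc.B0 ht hg0 (pos3 _) (pos3 _) (L1_nn A) (L2_nn B) le_rfl (hown_nn h2 dn hd.le))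
      (sema hc (fun h => hown_nn h dn hd.le) (fun _ => le_rfl)) (app_mem (ctx_TpB hc ht hd.le h2 hg) (x_A_T2 tt)))
    · have h2 : oT B (1 + w - A - B) = 0 := oT_other hc h1
      rw [oT_ge h1, h2, add_zero] at hg
      exact v_A_T2 (L := (L1 A)) (M := (L2 B)) (H := (hown (A - 1) (1 + w - A - B))) (K := 0) (tree_cert Ra_eq g_A_T2_eq x_A_T2_TpA_eq
      t_A_T2_TpA_a (yw_nonneg hc.w0.le hc.A0 hc.B0 ht hg0 (pos3 _) (pos3 _) (L1_nn A) (L2_nn B) (hown_nn h1 dn hd.le) le_rfl)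
      (sema hc (fun _ => le_rfl) (fun h => hown_nn h dn hd.le)) (app_mem (ctx_TpA hc ht hd.le h1 hg) (x_A_T2 tt)))
  · rcases lt_or_ge A 1 with h1 | h1
    · rw [oT_lt h1] at hg
      rcases lt_or_ge B 1 with h2 | h2
      · rw [oT_lt h2, add_zero, add_zero] at hg
        exact v_A_T2 (L := (L2 A)) (M := (L1 B)) (H := 0) (K := 0) (tree_cert Rb_eq g_A_T2_eq x_A_T2_Tp0_eq
      t_A_T2_Tp0_b (yw_nonneg hc.w0.le hc.A0 hc.B0 ht hg0 (pos3 _) (pos3 _) (L2_nn A) (L1_nn B) le_rfl le_rfl)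
      (semb hc (fun h => hown_nn h dn hd.le) (fun h => hown_nn h dn hd.le)) (app_mem (ctx_Tp0 hc ht hd.le h1.le h2.le hg) (x_A_T2 tt)))
      · rw [oT_ge h2, zero_add] at hg
        exact v_A_T2 (L := (L2 A)) (M := (L1 B)) (H := 0) (K := (hown (B - 1) (1 + w - A - B))) (tree_cert Rb_eq g_A_T2_eq x_A_T2_TpB_eq
      t_A_T2_TpB_b (yw_nonneg hc.w0.le hc.A0 hc.B0 ht hg0 (pos3 _) (pos3 _) (L2_nn A) (L1_nn B) le_rfl (hown_nn h2 dn hd.le))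
      (semb hc (fun h => hown_nn h dn hd.le) (fun _ => le_rfl)) (app_mem (ctx_TpB hc ht hd.le h2 hg) (x_A_T2 tt)))
    · have h2 : oT B (1 + w - A - B) = 0 := oT_other hc h1
      rw [oT_ge h1, h2, add_zero] at hg
      exact v_A_T2 (L := (L2 A)) (M := (L1 B)) (H := (hown (A - 1) (1 + w - A - B))) (K := 0) (tree_cert Rb_eq g_A_T2_eq x_A_T2_TpA_eq
      t_A_T2_TpA_b (yw_nonneg hc.w0.le hc.A0 hc.B0 ht hg0 (pos3 _) (pos3 _) (L2_nn A) (L1_nn B) (hown_nn h1 dn hd.le) le_rfl)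
      (semb hc (fun _ => le_rfl) (fun h => hown_nn h dn hd.le)) (app_mem (ctx_TpA hc ht hd.le h1 hg) (x_A_T2 tt)))

theorem v_A_T4a {X Y : ℝ} (h : 0 ≤ exVal (yw w A B t g X Y L M H K) gE_A_T4a) :
    g + OOA (1 - A) (1 - B) ≤ 253 / 500 := by
  simp only [gE_A_T4a, exadd, exmul, exc, exw2, exw3, exw5, exw7, exw11, exw13, exw17, exw19, exw23, exw29, exw31] at h
  push_cast at h
  unfold OOA
  linarith

theorem x_A_T4a {X Y : ℝ} (ca : A ≤ 1) (cb : B ≤ 1) :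
    ∀ e ∈ xE_A_T4a, 0 ≤ exVal (yw w A B t g X Y L M H K) e := by
  simp only [xE_A_T4a, List.forall_mem_cons, exadd, exmul, exc, exw2, exw3, exw5, exw7, exw11, exw13, exw17, exw19, exw23, exw29, exw31]
  push_cast
  refine ⟨?_, ?_, fun _ h => absurd h List.not_mem_nil⟩ <;> linarith

theorem fam_A_T4a (hc : Cell w A B) (ht : 0 ≤ t) (hg0 : 0 ≤ g) (h : GainTa w A B g)
    (ca : A ≤ 1) (cb : B ≤ 1) : g + OOA (1 - A) (1 - B) ≤ 253 / 500 := by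
  have dn : 0 ≤ 1 + w - A - B := by linarith [hc.hi]
  rcases h with ⟨hd, hg⟩ | ⟨hd, hg⟩
  · exact v_A_T4a (L := 0) (M := 0) (H := 0) (K := 0) (tree_cert RF_eq g_A_T4a_eq x_A_T4a_free_eq
      t_A_T4a_free (yw_nonneg hc.w0.le hc.A0 hc.B0 ht hg0 (pos3 _) (pos3 _) le_rfl le_rfl le_rfl le_rfl)
      (semF hc) (app_mem (ctx_free hc ht hd hg) (x_A_T4a ca cb)))
  · rcases lt_or_ge A 1 with h1 | h1
    · rw [oT_lt h1] at hg
      rcases lt_or_ge B 1 with h2 | h2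
      · rw [oT_lt h2, add_zero, add_zero] at hg
        exact v_A_T4a (L := (L1 A)) (M := (L2 B)) (H := 0) (K := 0) (tree_cert Ra_eq g_A_T4a_eq x_A_T4a_Tp0_eq
      t_A_T4a_Tp0_a (yw_nonneg hc.w0.le hc.A0 hc.B0 ht hg0 (pos3 _) (pos3 _) (L1_nn A) (L2_nn B) le_rfl le_rfl)
      (sema hc (fun h => hown_nn h dn hd.le) (fun h => hown_nn h dn hd.le)) (app_mem (ctx_Tp0 hc ht hd.le h1.le h2.le hg) (x_A_T4a ca cb)))
      · rw [oT_ge h2, zero_add] at hg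
        exact v_A_T4a (L := (L1 A)) (M := (L2 B)) (H := 0) (K := (hown (B - 1) (1 + w - A - B))) (tree_cert Ra_eq g_A_T4a_eq x_A_T4a_TpB_eq
      t_A_T4a_TpB_a (yw_nonneg hc.w0.le hc.A0 hc.B0 ht hg0 (pos3 _) (pos3 _) (L1_nn A) (L2_nn B) le_rfl (hown_nn h2 dn hd.le))
      (sema hc (fun h => hown_nn h dn hd.le) (fun _ => le_rfl)) (app_mem (ctx_TpB hc ht hd.le h2 hg) (x_A_T4a ca cb)))
    · have h2 : oT B (1 + w - A - B) = 0 := oT_other hc h1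
      rw [oT_ge h1, h2, add_zero] at hg
      exact v_A_T4a (L := (L1 A)) (M := (L2 B)) (H := (hown (A - 1) (1 + w - A - B))) (K := 0) (tree_cert Ra_eq g_A_T4a_eq x_A_T4a_TpA_eq
      t_A_T4a_TpA_a (yw_nonneg hc.w0.le hc.A0 hc.B0 ht hg0 (pos3 _) (pos3 _) (L1_nn A) (L2_nn B) (hown_nn h1 dn hd.le) le_rfl)
      (sema hc (fun _ => le_rfl) (fun h => hown_nn h dn hd.le)) (app_mem (ctx_TpA hc ht hd.le h1 hg) (x_A_T4a ca cb)))

theorem v_A_T4b {X Y : ℝ} (h : 0 ≤ exVal (yw w A B t g X Y L M H K) gE_A_T4b) :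
    g + OOA 0 (1 - B) ≤ 253 / 500 := by
  simp only [gE_A_T4b, exadd, exmul, exc, exw2, exw3, exw5, exw7, exw11, exw13, exw17, exw19, exw23, exw29, exw31] at h
  push_cast at h
  unfold OOA
  linarith

theorem x_A_T4b {X Y : ℝ} (ca : 1 ≤ A) (cb : B ≤ 1) :
    ∀ e ∈ xE_A_T4b, 0 ≤ exVal (yw w A B t g X Y L M H K) e := by
  simp only [xE_A_T4b, List.forall_mem_cons, exadd, exmul, exc, exw2, exw3, exw5, exw7, exw11, exw13, exw17, exw19, exw23, exw29, exw31]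
  push_cast
  refine ⟨?_, ?_, fun _ h => absurd h List.not_mem_nil⟩ <;> linarith

theorem fam_A_T4b (hc : Cell w A B) (ht : 0 ≤ t) (hg0 : 0 ≤ g) (h : GainT w A B g)
    (ca : 1 ≤ A) (cb : B ≤ 1) : g + OOA 0 (1 - B) ≤ 253 / 500 := by
  have dn : 0 ≤ 1 + w - A - B := by linarith [hc.hi]
  rcases h with ⟨hd, hg⟩ | ⟨hd, hg⟩ | ⟨hd, hg⟩
  · exact v_A_T4b (L := 0) (M := 0) (H := 0) (K := 0) (tree_cert RF_eq g_A_T4b_eq x_A_T4b_free_eq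
      t_A_T4b_free (yw_nonneg hc.w0.le hc.A0 hc.B0 ht hg0 (pos3 _) (pos3 _) le_rfl le_rfl le_rfl le_rfl)
      (semF hc) (app_mem (ctx_free hc ht hd hg) (x_A_T4b ca cb)))
  · rcases lt_or_ge A 1 with h1 | h1
    · rw [oT_lt h1] at hg
      rcases lt_or_ge B 1 with h2 | h2
      · rw [oT_lt h2, add_zero, add_zero] at hg
        exact v_A_T4b (L := (L1 A)) (M := (L2 B)) (H := 0) (K := 0) (tree_cert Ra_eq g_A_T4b_eq x_A_T4b_Tp0_eq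
      t_A_T4b_Tp0_a (yw_nonneg hc.w0.le hc.A0 hc.B0 ht hg0 (pos3 _) (pos3 _) (L1_nn A) (L2_nn B) le_rfl le_rfl)
      (sema hc (fun h => hown_nn h dn hd.le) (fun h => hown_nn h dn hd.le)) (app_mem (ctx_Tp0 hc ht hd.le h1.le h2.le hg) (x_A_T4b ca cb)))
      · rw [oT_ge h2, zero_add] at hg
        exact v_A_T4b (L := (L1 A)) (M := (L2 B)) (H := 0) (K := (hown (B - 1) (1 + w - A - B))) (tree_cert Ra_eq g_A_T4b_eq x_A_T4b_TpB_eq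
      t_A_T4b_TpB_a (yw_nonneg hc.w0.le hc.A0 hc.B0 ht hg0 (pos3 _) (pos3 _) (L1_nn A) (L2_nn B) le_rfl (hown_nn h2 dn hd.le))
      (sema hc (fun h => hown_nn h dn hd.le) (fun _ => le_rfl)) (app_mem (ctx_TpB hc ht hd.le h2 hg) (x_A_T4b ca cb)))
    · have h2 : oT B (1 + w - A - B) = 0 := oT_other hc h1
      rw [oT_ge h1, h2, add_zero] at hg
      exact v_A_T4b (L := (L1 A)) (M := (L2 B)) (H := (hown (A - 1) (1 + w - A - B))) (K := 0) (tree_cert Ra_eq g_A_T4b_eq x_A_T4b_TpA_eq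
      t_A_T4b_TpA_a (yw_nonneg hc.w0.le hc.A0 hc.B0 ht hg0 (pos3 _) (pos3 _) (L1_nn A) (L2_nn B) (hown_nn h1 dn hd.le) le_rfl)
      (sema hc (fun _ => le_rfl) (fun h => hown_nn h dn hd.le)) (app_mem (ctx_TpA hc ht hd.le h1 hg) (x_A_T4b ca cb)))
  · rcases lt_or_ge A 1 with h1 | h1
    · rw [oT_lt h1] at hg
      rcases lt_or_ge B 1 with h2 | h2
      · rw [oT_lt h2, add_zero, add_zero] at hg
        exact v_A_T4b (L := (L2 A)) (M := (L1 B)) (H := 0) (K := 0) (tree_cert Rb_eq g_A_T4b_eq x_A_T4b_Tp0_eq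
      t_A_T4b_Tp0_b (yw_nonneg hc.w0.le hc.A0 hc.B0 ht hg0 (pos3 _) (pos3 _) (L2_nn A) (L1_nn B) le_rfl le_rfl)
      (semb hc (fun h => hown_nn h dn hd.le) (fun h => hown_nn h dn hd.le)) (app_mem (ctx_Tp0 hc ht hd.le h1.le h2.le hg) (x_A_T4b ca cb)))
      · rw [oT_ge h2, zero_add] at hg
        exact v_A_T4b (L := (L2 A)) (M := (L1 B)) (H := 0) (K := (hown (B - 1) (1 + w - A - B))) (tree_cert Rb_eq g_A_T4b_eq x_A_T4b_TpB_eq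
      t_A_T4b_TpB_b (yw_nonneg hc.w0.le hc.A0 hc.B0 ht hg0 (pos3 _) (pos3 _) (L2_nn A) (L1_nn B) le_rfl (hown_nn h2 dn hd.le))
      (semb hc (fun h => hown_nn h dn hd.le) (fun _ => le_rfl)) (app_mem (ctx_TpB hc ht hd.le h2 hg) (x_A_T4b ca cb)))
    · have h2 : oT B (1 + w - A - B) = 0 := oT_other hc h1
      rw [oT_ge h1, h2, add_zero] at hg
      exact v_A_T4b (L := (L2 A)) (M := (L1 B)) (H := (hown (A - 1) (1 + w - A - B))) (K := 0) (tree_cert Rb_eq g_A_T4b_eq x_A_T4b_TpA_eq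
      t_A_T4b_TpA_b (yw_nonneg hc.w0.le hc.A0 hc.B0 ht hg0 (pos3 _) (pos3 _) (L2_nn A) (L1_nn B) (hown_nn h1 dn hd.le) le_rfl)
      (semb hc (fun _ => le_rfl) (fun h => hown_nn h dn hd.le)) (app_mem (ctx_TpA hc ht hd.le h1 hg) (x_A_T4b ca cb)))

theorem v_A_T6 {X Y : ℝ} (h : 0 ≤ exVal (yw w A B t g X Y L M H K) gE_A_T6) :
    g ≤ BTA w t := by
  simp only [gE_A_T6, exadd, exmul, exc, exw2, exw3, exw5, exw7, exw11, exw13, exw17, exw19, exw23, exw29, exw31] at h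
  push_cast at h
  unfold BTA
  linarith

theorem x_A_T6 {X Y : ℝ} (tt : t ≤ 1 - A) :
    ∀ e ∈ xE_A_T6, 0 ≤ exVal (yw w A B t g X Y L M H K) e := by
  simp only [xE_A_T6, List.forall_mem_cons, exadd, exmul, exc, exw2, exw3, exw5, exw7, exw11, exw13, exw17, exw19, exw23, exw29, exw31]
  push_cast
  refine ⟨?_, fun _ h => absurd h List.not_mem_nil⟩ <;> linarith

theorem fam_A_T6 (hc : Cell w A B) (ht : 0 ≤ t) (hg0 : 0 ≤ g) (h : GainT w A B g)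
    (tt : t ≤ 1 - A) : g ≤ BTA w t := by
  have dn : 0 ≤ 1 + w - A - B := by linarith [hc.hi]
  rcases h with ⟨hd, hg⟩ | ⟨hd, hg⟩ | ⟨hd, hg⟩
  · exact v_A_T6 (L := 0) (M := 0) (H := 0) (K := 0) (tree_cert RF_eq g_A_T6_eq x_A_T6_free_eq
      t_A_T6_free (yw_nonneg hc.w0.le hc.A0 hc.B0 ht hg0 (pos3 _) (pos3 _) le_rfl le_rfl le_rfl le_rfl)
      (semF hc) (app_mem (ctx_free hc ht hd hg) (x_A_T6 tt)))
  · rcases lt_or_ge A 1 with h1 | h1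
    · rw [oT_lt h1] at hg
      rcases lt_or_ge B 1 with h2 | h2
      · rw [oT_lt h2, add_zero, add_zero] at hg
        exact v_A_T6 (L := (L1 A)) (M := (L2 B)) (H := 0) (K := 0) (tree_cert Ra_eq g_A_T6_eq x_A_T6_Tp0_eq
      t_A_T6_Tp0_a (yw_nonneg hc.w0.le hc.A0 hc.B0 ht hg0 (pos3 _) (pos3 _) (L1_nn A) (L2_nn B) le_rfl le_rfl)
      (sema hc (fun h => hown_nn h dn hd.le) (fun h => hown_nn h dn hd.le)) (app_mem (ctx_Tp0 hc ht hd.le h1.le h2.le hg) (x_A_T6 tt)))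
      · rw [oT_ge h2, zero_add] at hg
        exact v_A_T6 (L := (L1 A)) (M := (L2 B)) (H := 0) (K := (hown (B - 1) (1 + w - A - B))) (tree_cert Ra_eq g_A_T6_eq x_A_T6_TpB_eq
      t_A_T6_TpB_a (yw_nonneg hc.w0.le hc.A0 hc.B0 ht hg0 (pos3 _) (pos3 _) (L1_nn A) (L2_nn B) le_rfl (hown_nn h2 dn hd.le))
      (sema hc (fun h => hown_nn h dn hd.le) (fun _ => le_rfl)) (app_mem (ctx_TpB hc ht hd.le h2 hg) (x_A_T6 tt)))
    · have h2 : oT B (1 + w - A - B) = 0 := oT_other hc h1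
      rw [oT_ge h1, h2, add_zero] at hg
      exact v_A_T6 (L := (L1 A)) (M := (L2 B)) (H := (hown (A - 1) (1 + w - A - B))) (K := 0) (tree_cert Ra_eq g_A_T6_eq x_A_T6_TpA_eq
      t_A_T6_TpA_a (yw_nonneg hc.w0.le hc.A0 hc.B0 ht hg0 (pos3 _) (pos3 _) (L1_nn A) (L2_nn B) (hown_nn h1 dn hd.le) le_rfl)
      (sema hc (fun _ => le_rfl) (fun h => hown_nn h dn hd.le)) (app_mem (ctx_TpA hc ht hd.le h1 hg) (x_A_T6 tt)))
  · rcases lt_or_ge A 1 with h1 | h1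
    · rw [oT_lt h1] at hg
      rcases lt_or_ge B 1 with h2 | h2
      · rw [oT_lt h2, add_zero, add_zero] at hg
        exact v_A_T6 (L := (L2 A)) (M := (L1 B)) (H := 0) (K := 0) (tree_cert Rb_eq g_A_T6_eq x_A_T6_Tp0_eq
      t_A_T6_Tp0_b (yw_nonneg hc.w0.le hc.A0 hc.B0 ht hg0 (pos3 _) (pos3 _) (L2_nn A) (L1_nn B) le_rfl le_rfl)
      (semb hc (fun h => hown_nn h dn hd.le) (fun h => hown_nn h dn hd.le)) (app_mem (ctx_Tp0 hc ht hd.le h1.le h2.le hg) (x_A_T6 tt)))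
      · rw [oT_ge h2, zero_add] at hg
        exact v_A_T6 (L := (L2 A)) (M := (L1 B)) (H := 0) (K := (hown (B - 1) (1 + w - A - B))) (tree_cert Rb_eq g_A_T6_eq x_A_T6_TpB_eq
      t_A_T6_TpB_b (yw_nonneg hc.w0.le hc.A0 hc.B0 ht hg0 (pos3 _) (pos3 _) (L2_nn A) (L1_nn B) le_rfl (hown_nn h2 dn hd.le))
      (semb hc (fun h => hown_nn h dn hd.le) (fun _ => le_rfl)) (app_mem (ctx_TpB hc ht hd.le h2 hg) (x_A_T6 tt)))
    · have h2 : oT B (1 + w - A - B) = 0 := oT_other hc h1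
      rw [oT_ge h1, h2, add_zero] at hg
      exact v_A_T6 (L := (L2 A)) (M := (L1 B)) (H := (hown (A - 1) (1 + w - A - B))) (K := 0) (tree_cert Rb_eq g_A_T6_eq x_A_T6_TpA_eq
      t_A_T6_TpA_b (yw_nonneg hc.w0.le hc.A0 hc.B0 ht hg0 (pos3 _) (pos3 _) (L2_nn A) (L1_nn B) (hown_nn h1 dn hd.le) le_rfl)
      (semb hc (fun _ => le_rfl) (fun h => hown_nn h dn hd.le)) (app_mem (ctx_TpA hc ht hd.le h1 hg) (x_A_T6 tt)))

theorem v_G_F1 {X Y : ℝ} (h : 0 ≤ exVal (yw w A B t g X Y L M H K) gE_G_F1) :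
    g + OOG 0 t ≤ OOG w t := by
  simp only [gE_G_F1, exadd, exmul, exc, exw2, exw3, exw5, exw7, exw11, exw13, exw17, exw19, exw23, exw29, exw31] at h
  push_cast at h
  unfold OOG
  linarith

theorem x_G_F1 {X Y : ℝ} (tt : t ≤ 1 - B) (cb : B ≤ 1) :
    ∀ e ∈ xE_G_F1, 0 ≤ exVal (yw w A B t g X Y L M H K) e := by
  simp only [xE_G_F1, List.forall_mem_cons, exadd, exmul, exc, exw2, exw3, exw5, exw7, exw11, exw13, exw17, exw19, exw23, exw29, exw31]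
  push_cast
  refine ⟨?_, ?_, fun _ h => absurd h List.not_mem_nil⟩ <;> linarith

theorem fam_G_F1 (hc : Cell w A B) (ht : 0 ≤ t) (hg0 : 0 ≤ g) (h : GainC w A B g)
    (tt : t ≤ 1 - B) (cb : B ≤ 1) : g + OOG 0 t ≤ OOG w t := by
  have dn : 0 ≤ 1 + w - A - B := by linarith [hc.hi]
  rcases h with (⟨hd, hg⟩ | ⟨hd, hg⟩) | ⟨hd, ⟨hb, hA, hg⟩ | ⟨hb, hA, hg⟩ | ⟨hb, hA, hA1, hg⟩ | ⟨hb, hA, hg⟩ | hg⟩
  · exact v_G_F1 (L := 0) (M := 0) (H := 0) (K := 0) (tree_cert RF_eq g_G_F1_eq x_G_F1_free_eq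
      t_G_F1_free (yw_nonneg hc.w0.le hc.A0 hc.B0 ht hg0 (pos3 _) (pos3 _) le_rfl le_rfl le_rfl le_rfl)
      (semF hc) (app_mem (ctx_free hc ht hd hg) (x_G_F1 tt cb)))
  · rcases lt_or_ge A 1 with h1 | h1
    · rw [oT_lt h1, add_zero] at hg
      exact v_G_F1 (L := (LO A)) (M := 0) (H := 0) (K := 0) (tree_cert RO_eq g_G_F1_eq x_G_F1_Op0_eq
      t_G_F1_Op0 (yw_nonneg hc.w0.le hc.A0 hc.B0 ht hg0 (pos3 _) (pos3 _) (LO_nn A) le_rfl le_rfl le_rfl)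
      (semO hc fun h => hown_nn h dn hd.le) (app_mem (ctx_Op0 hc ht hd.le h1.le hg) (x_G_F1 tt cb)))
    · rw [oT_ge h1] at hg
      exact v_G_F1 (L := (LO A)) (M := 0) (H := (hown (A - 1) (1 + w - A - B))) (K := 0) (tree_cert RO_eq g_G_F1_eq x_G_F1_Op1_eq
      t_G_F1_Op1 (yw_nonneg hc.w0.le hc.A0 hc.B0 ht hg0 (pos3 _) (pos3 _) (LO_nn A) le_rfl (hown_nn h1 dn hd.le) le_rfl)
      (semO hc fun _ => le_rfl) (app_mem (ctx_Op1 hc ht hd.le h1 hg) (x_G_F1 tt cb)))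
  · exact v_G_F1 (L := (LO A)) (M := 0) (H := 0) (K := 0) (tree_cert RO_eq g_G_F1_eq x_G_F1_c0_eq
      t_G_F1_c0 (yw_nonneg hc.w0.le hc.A0 hc.B0 ht hg0 (pos3 _) (pos3 _) (LO_nn A) le_rfl le_rfl le_rfl)
      (semO hc fun h => hown_nn h dn hd.le) (app_mem (ctx_c0 hc ht hd.le hb hA hg) (x_G_F1 tt cb)))
  · exact v_G_F1 (L := 0) (M := 0) (H := 0) (K := 0) (tree_cert RF_eq g_G_F1_eq x_G_F1_c1_eq
      t_G_F1_c1 (yw_nonneg hc.w0.le hc.A0 hc.B0 ht hg0 (pos3 _) (pos3 _) le_rfl le_rfl le_rfl le_rfl)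
      (semF hc) (app_mem (ctx_c1 hc ht hd.le hb hA hg) (x_G_F1 tt cb)))
  · exact v_G_F1 (L := (LO A)) (M := 0) (H := 0) (K := 0) (tree_cert RO_eq g_G_F1_eq x_G_F1_c2_eq
      t_G_F1_c2 (yw_nonneg hc.w0.le hc.A0 hc.B0 ht hg0 (pos3 _) (pos3 _) (LO_nn A) le_rfl le_rfl le_rfl)
      (semO hc fun h => hown_nn h dn hd.le) (app_mem (ctx_c2 hc ht hd.le hb hA hA1 hg) (x_G_F1 tt cb)))
  · exact v_G_F1 (L := (LO A)) (M := 0) (H := (hown (A - 1) (1 + w - A - B))) (K := 0) (tree_cert RO_eq g_G_F1_eq x_G_F1_c3_eq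
      t_G_F1_c3 (yw_nonneg hc.w0.le hc.A0 hc.B0 ht hg0 (pos3 _) (pos3 _) (LO_nn A) le_rfl (hown_nn hA dn hd.le) le_rfl)
      (semO hc fun _ => le_rfl) (app_mem (ctx_c3 hc ht hd.le hb hA hg) (x_G_F1 tt cb)))
  · exact v_G_F1 (L := 0) (M := 0) (H := 0) (K := 0) (tree_cert RF_eq g_G_F1_eq x_G_F1_c4_eq
      t_G_F1_c4 (yw_nonneg hc.w0.le hc.A0 hc.B0 ht hg0 (pos3 _) (pos3 _) le_rfl le_rfl le_rfl le_rfl)
      (semF hc) (app_mem (ctx_c4 hc ht hd.le hg) (x_G_F1 tt cb)))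

theorem v_G_F3 {X Y : ℝ} (h : 0 ≤ exVal (yw w A B t g X Y L M H K) gE_G_F3) :
    g + TOG t 0 ≤ TOG t w := by
  simp only [gE_G_F3, exadd, exmul, exc, exw2, exw3, exw5, exw7, exw11, exw13, exw17, exw19, exw23, exw29, exw31] at h
  push_cast at h
  unfold TOG
  linarith

theorem x_G_F3 {X Y : ℝ} (tt : t ≤ 1 - A) (cb : B ≤ 1) :
    ∀ e ∈ xE_G_F3, 0 ≤ exVal (yw w A B t g X Y L M H K) e := by
  simp only [xE_G_F3, List.forall_mem_cons, exadd, exmul, exc, exw2, exw3, exw5, exw7, exw11, exw13, exw17, exw19, exw23, exw29, exw31]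
  push_cast
  refine ⟨?_, ?_, fun _ h => absurd h List.not_mem_nil⟩ <;> linarith

theorem fam_G_F3 (hc : Cell w A B) (ht : 0 ≤ t) (hg0 : 0 ≤ g) (h : GainC w A B g)
    (tt : t ≤ 1 - A) (cb : B ≤ 1) : g + TOG t 0 ≤ TOG t w := by
  have dn : 0 ≤ 1 + w - A - B := by linarith [hc.hi]
  rcases h with (⟨hd, hg⟩ | ⟨hd, hg⟩) | ⟨hd, ⟨hb, hA, hg⟩ | ⟨hb, hA, hg⟩ | ⟨hb, hA, hA1, hg⟩ | ⟨hb, hA, hg⟩ | hg⟩
  · exact v_G_F3 (L := 0) (M := 0) (H := 0) (K := 0) (tree_cert RF_eq g_G_F3_eq x_G_F3_free_eq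
      t_G_F3_free (yw_nonneg hc.w0.le hc.A0 hc.B0 ht hg0 (pos3 _) (pos3 _) le_rfl le_rfl le_rfl le_rfl)
      (semF hc) (app_mem (ctx_free hc ht hd hg) (x_G_F3 tt cb)))
  · rcases lt_or_ge A 1 with h1 | h1
    · rw [oT_lt h1, add_zero] at hg
      exact v_G_F3 (L := (LO A)) (M := 0) (H := 0) (K := 0) (tree_cert RO_eq g_G_F3_eq x_G_F3_Op0_eq
      t_G_F3_Op0 (yw_nonneg hc.w0.le hc.A0 hc.B0 ht hg0 (pos3 _) (pos3 _) (LO_nn A) le_rfl le_rfl le_rfl)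
      (semO hc fun h => hown_nn h dn hd.le) (app_mem (ctx_Op0 hc ht hd.le h1.le hg) (x_G_F3 tt cb)))
    · rw [oT_ge h1] at hg
      exact v_G_F3 (L := (LO A)) (M := 0) (H := (hown (A - 1) (1 + w - A - B))) (K := 0) (tree_cert RO_eq g_G_F3_eq x_G_F3_Op1_eq
      t_G_F3_Op1 (yw_nonneg hc.w0.le hc.A0 hc.B0 ht hg0 (pos3 _) (pos3 _) (LO_nn A) le_rfl (hown_nn h1 dn hd.le) le_rfl)
      (semO hc fun _ => le_rfl) (app_mem (ctx_Op1 hc ht hd.le h1 hg) (x_G_F3 tt cb)))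
  · exact v_G_F3 (L := (LO A)) (M := 0) (H := 0) (K := 0) (tree_cert RO_eq g_G_F3_eq x_G_F3_c0_eq
      t_G_F3_c0 (yw_nonneg hc.w0.le hc.A0 hc.B0 ht hg0 (pos3 _) (pos3 _) (LO_nn A) le_rfl le_rfl le_rfl)
      (semO hc fun h => hown_nn h dn hd.le) (app_mem (ctx_c0 hc ht hd.le hb hA hg) (x_G_F3 tt cb)))
  · exact v_G_F3 (L := 0) (M := 0) (H := 0) (K := 0) (tree_cert RF_eq g_G_F3_eq x_G_F3_c1_eq
      t_G_F3_c1 (yw_nonneg hc.w0.le hc.A0 hc.B0 ht hg0 (pos3 _) (pos3 _) le_rfl le_rfl le_rfl le_rfl)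
      (semF hc) (app_mem (ctx_c1 hc ht hd.le hb hA hg) (x_G_F3 tt cb)))
  · exact v_G_F3 (L := (LO A)) (M := 0) (H := 0) (K := 0) (tree_cert RO_eq g_G_F3_eq x_G_F3_c2_eq
      t_G_F3_c2 (yw_nonneg hc.w0.le hc.A0 hc.B0 ht hg0 (pos3 _) (pos3 _) (LO_nn A) le_rfl le_rfl le_rfl)
      (semO hc fun h => hown_nn h dn hd.le) (app_mem (ctx_c2 hc ht hd.le hb hA hA1 hg) (x_G_F3 tt cb)))
  · exact v_G_F3 (L := (LO A)) (M := 0) (H := (hown (A - 1) (1 + w - A - B))) (K := 0) (tree_cert RO_eq g_G_F3_eq x_G_F3_c3_eq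
      t_G_F3_c3 (yw_nonneg hc.w0.le hc.A0 hc.B0 ht hg0 (pos3 _) (pos3 _) (LO_nn A) le_rfl (hown_nn hA dn hd.le) le_rfl)
      (semO hc fun _ => le_rfl) (app_mem (ctx_c3 hc ht hd.le hb hA hg) (x_G_F3 tt cb)))
  · exact v_G_F3 (L := 0) (M := 0) (H := 0) (K := 0) (tree_cert RF_eq g_G_F3_eq x_G_F3_c4_eq
      t_G_F3_c4 (yw_nonneg hc.w0.le hc.A0 hc.B0 ht hg0 (pos3 _) (pos3 _) le_rfl le_rfl le_rfl le_rfl)
      (semF hc) (app_mem (ctx_c4 hc ht hd.le hg) (x_G_F3 tt cb)))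

theorem v_G_F5a {X Y : ℝ} (h : 0 ≤ exVal (yw w A B t g X Y L M H K) gE_G_F5a) :
    g + TOG (1 - A) (1 - B) ≤ 91 / 250 := by
  simp only [gE_G_F5a, exadd, exmul, exc, exw2, exw3, exw5, exw7, exw11, exw13, exw17, exw19, exw23, exw29, exw31] at h
  push_cast at h
  unfold TOG
  linarith

theorem x_G_F5a {X Y : ℝ} (ca : A ≤ 1) (cb : B ≤ 1) :
    ∀ e ∈ xE_G_F5a, 0 ≤ exVal (yw w A B t g X Y L M H K) e := by
  simp only [xE_G_F5a, List.forall_mem_cons, exadd, exmul, exc, exw2, exw3, exw5, exw7, exw11, exw13, exw17, exw19, exw23, exw29, exw31]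
  push_cast
  refine ⟨?_, ?_, fun _ h => absurd h List.not_mem_nil⟩ <;> linarith

theorem fam_G_F5a (hc : Cell w A B) (ht : 0 ≤ t) (hg0 : 0 ≤ g) (h : GainC w A B g)
    (ca : A ≤ 1) (cb : B ≤ 1) : g + TOG (1 - A) (1 - B) ≤ 91 / 250 := by
  have dn : 0 ≤ 1 + w - A - B := by linarith [hc.hi]
  rcases h with (⟨hd, hg⟩ | ⟨hd, hg⟩) | ⟨hd, ⟨hb, hA, hg⟩ | ⟨hb, hA, hg⟩ | ⟨hb, hA, hA1, hg⟩ | ⟨hb, hA, hg⟩ | hg⟩
  · exact v_G_F5a (L := 0) (M := 0) (H := 0) (K := 0) (tree_cert RF_eq g_G_F5a_eq x_G_F5a_free_eq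
      t_G_F5a_free (yw_nonneg hc.w0.le hc.A0 hc.B0 ht hg0 (pos3 _) (pos3 _) le_rfl le_rfl le_rfl le_rfl)
      (semF hc) (app_mem (ctx_free hc ht hd hg) (x_G_F5a ca cb)))
  · rcases lt_or_ge A 1 with h1 | h1
    · rw [oT_lt h1, add_zero] at hg
      exact v_G_F5a (L := (LO A)) (M := 0) (H := 0) (K := 0) (tree_cert RO_eq g_G_F5a_eq x_G_F5a_Op0_eq
      t_G_F5a_Op0 (yw_nonneg hc.w0.le hc.A0 hc.B0 ht hg0 (pos3 _) (pos3 _) (LO_nn A) le_rfl le_rfl le_rfl)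
      (semO hc fun h => hown_nn h dn hd.le) (app_mem (ctx_Op0 hc ht hd.le h1.le hg) (x_G_F5a ca cb)))
    · rw [oT_ge h1] at hg
      exact v_G_F5a (L := (LO A)) (M := 0) (H := (hown (A - 1) (1 + w - A - B))) (K := 0) (tree_cert RO_eq g_G_F5a_eq x_G_F5a_Op1_eq
      t_G_F5a_Op1 (yw_nonneg hc.w0.le hc.A0 hc.B0 ht hg0 (pos3 _) (pos3 _) (LO_nn A) le_rfl (hown_nn h1 dn hd.le) le_rfl)
      (semO hc fun _ => le_rfl) (app_mem (ctx_Op1 hc ht hd.le h1 hg) (x_G_F5a ca cb)))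
  · exact v_G_F5a (L := (LO A)) (M := 0) (H := 0) (K := 0) (tree_cert RO_eq g_G_F5a_eq x_G_F5a_c0_eq
      t_G_F5a_c0 (yw_nonneg hc.w0.le hc.A0 hc.B0 ht hg0 (pos3 _) (pos3 _) (LO_nn A) le_rfl le_rfl le_rfl)
      (semO hc fun h => hown_nn h dn hd.le) (app_mem (ctx_c0 hc ht hd.le hb hA hg) (x_G_F5a ca cb)))
  · exact v_G_F5a (L := 0) (M := 0) (H := 0) (K := 0) (tree_cert RF_eq g_G_F5a_eq x_G_F5a_c1_eq
      t_G_F5a_c1 (yw_nonneg hc.w0.le hc.A0 hc.B0 ht hg0 (pos3 _) (pos3 _) le_rfl le_rfl le_rfl le_rfl)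
      (semF hc) (app_mem (ctx_c1 hc ht hd.le hb hA hg) (x_G_F5a ca cb)))
  · exact v_G_F5a (L := (LO A)) (M := 0) (H := 0) (K := 0) (tree_cert RO_eq g_G_F5a_eq x_G_F5a_c2_eq
      t_G_F5a_c2 (yw_nonneg hc.w0.le hc.A0 hc.B0 ht hg0 (pos3 _) (pos3 _) (LO_nn A) le_rfl le_rfl le_rfl)
      (semO hc fun h => hown_nn h dn hd.le) (app_mem (ctx_c2 hc ht hd.le hb hA hA1 hg) (x_G_F5a ca cb)))
  · exact v_G_F5a (L := (LO A)) (M := 0) (H := (hown (A - 1) (1 + w - A - B))) (K := 0) (tree_cert RO_eq g_G_F5a_eq x_G_F5a_c3_eq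
      t_G_F5a_c3 (yw_nonneg hc.w0.le hc.A0 hc.B0 ht hg0 (pos3 _) (pos3 _) (LO_nn A) le_rfl (hown_nn hA dn hd.le) le_rfl)
      (semO hc fun _ => le_rfl) (app_mem (ctx_c3 hc ht hd.le hb hA hg) (x_G_F5a ca cb)))
  · exact v_G_F5a (L := 0) (M := 0) (H := 0) (K := 0) (tree_cert RF_eq g_G_F5a_eq x_G_F5a_c4_eq
      t_G_F5a_c4 (yw_nonneg hc.w0.le hc.A0 hc.B0 ht hg0 (pos3 _) (pos3 _) le_rfl le_rfl le_rfl le_rfl)
      (semF hc) (app_mem (ctx_c4 hc ht hd.le hg) (x_G_F5a ca cb)))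

theorem v_G_F5b {X Y : ℝ} (h : 0 ≤ exVal (yw w A B t g X Y L M H K) gE_G_F5b) :
    g + TOG 0 (1 - B) ≤ 91 / 250 := by
  simp only [gE_G_F5b, exadd, exmul, exc, exw2, exw3, exw5, exw7, exw11, exw13, exw17, exw19, exw23, exw29, exw31] at h
  push_cast at h
  unfold TOG
  linarith

theorem x_G_F5b {X Y : ℝ} (ca : 1 ≤ A) (cb : B ≤ 1) :
    ∀ e ∈ xE_G_F5b, 0 ≤ exVal (yw w A B t g X Y L M H K) e := by
  simp only [xE_G_F5b, List.forall_mem_cons, exadd, exmul, exc, exw2, exw3, exw5, exw7, exw11, exw13, exw17, exw19, exw23, exw29, exw31]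
  push_cast
  refine ⟨?_, ?_, fun _ h => absurd h List.not_mem_nil⟩ <;> linarith

theorem fam_G_F5b (hc : Cell w A B) (ht : 0 ≤ t) (hg0 : 0 ≤ g) (h : GainC w A B g)
    (ca : 1 ≤ A) (cb : B ≤ 1) : g + TOG 0 (1 - B) ≤ 91 / 250 := by
  have dn : 0 ≤ 1 + w - A - B := by linarith [hc.hi]
  rcases h with (⟨hd, hg⟩ | ⟨hd, hg⟩) | ⟨hd, ⟨hb, hA, hg⟩ | ⟨hb, hA, hg⟩ | ⟨hb, hA, hA1, hg⟩ | ⟨hb, hA, hg⟩ | hg⟩
  · exact v_G_F5b (L := 0) (M := 0) (H := 0) (K := 0) (tree_cert RF_eq g_G_F5b_eq x_G_F5b_free_eq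
      t_G_F5b_free (yw_nonneg hc.w0.le hc.A0 hc.B0 ht hg0 (pos3 _) (pos3 _) le_rfl le_rfl le_rfl le_rfl)
      (semF hc) (app_mem (ctx_free hc ht hd hg) (x_G_F5b ca cb)))
  · rcases lt_or_ge A 1 with h1 | h1
    · rw [oT_lt h1, add_zero] at hg
      exact v_G_F5b (L := (LO A)) (M := 0) (H := 0) (K := 0) (tree_cert RO_eq g_G_F5b_eq x_G_F5b_Op0_eq
      t_G_F5b_Op0 (yw_nonneg hc.w0.le hc.A0 hc.B0 ht hg0 (pos3 _) (pos3 _) (LO_nn A) le_rfl le_rfl le_rfl)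
      (semO hc fun h => hown_nn h dn hd.le) (app_mem (ctx_Op0 hc ht hd.le h1.le hg) (x_G_F5b ca cb)))
    · rw [oT_ge h1] at hg
      exact v_G_F5b (L := (LO A)) (M := 0) (H := (hown (A - 1) (1 + w - A - B))) (K := 0) (tree_cert RO_eq g_G_F5b_eq x_G_F5b_Op1_eq
      t_G_F5b_Op1 (yw_nonneg hc.w0.le hc.A0 hc.B0 ht hg0 (pos3 _) (pos3 _) (LO_nn A) le_rfl (hown_nn h1 dn hd.le) le_rfl)
      (semO hc fun _ => le_rfl) (app_mem (ctx_Op1 hc ht hd.le h1 hg) (x_G_F5b ca cb)))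
  · exact v_G_F5b (L := (LO A)) (M := 0) (H := 0) (K := 0) (tree_cert RO_eq g_G_F5b_eq x_G_F5b_c0_eq
      t_G_F5b_c0 (yw_nonneg hc.w0.le hc.A0 hc.B0 ht hg0 (pos3 _) (pos3 _) (LO_nn A) le_rfl le_rfl le_rfl)
      (semO hc fun h => hown_nn h dn hd.le) (app_mem (ctx_c0 hc ht hd.le hb hA hg) (x_G_F5b ca cb)))
  · exact v_G_F5b (L := 0) (M := 0) (H := 0) (K := 0) (tree_cert RF_eq g_G_F5b_eq x_G_F5b_c1_eq
      t_G_F5b_c1 (yw_nonneg hc.w0.le hc.A0 hc.B0 ht hg0 (pos3 _) (pos3 _) le_rfl le_rfl le_rfl le_rfl)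
      (semF hc) (app_mem (ctx_c1 hc ht hd.le hb hA hg) (x_G_F5b ca cb)))
  · exact v_G_F5b (L := (LO A)) (M := 0) (H := 0) (K := 0) (tree_cert RO_eq g_G_F5b_eq x_G_F5b_c2_eq
      t_G_F5b_c2 (yw_nonneg hc.w0.le hc.A0 hc.B0 ht hg0 (pos3 _) (pos3 _) (LO_nn A) le_rfl le_rfl le_rfl)
      (semO hc fun h => hown_nn h dn hd.le) (app_mem (ctx_c2 hc ht hd.le hb hA hA1 hg) (x_G_F5b ca cb)))
  · exact v_G_F5b (L := (LO A)) (M := 0) (H := (hown (A - 1) (1 + w - A - B))) (K := 0) (tree_cert RO_eq g_G_F5b_eq x_G_F5b_c3_eq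
      t_G_F5b_c3 (yw_nonneg hc.w0.le hc.A0 hc.B0 ht hg0 (pos3 _) (pos3 _) (LO_nn A) le_rfl (hown_nn hA dn hd.le) le_rfl)
      (semO hc fun _ => le_rfl) (app_mem (ctx_c3 hc ht hd.le hb hA hg) (x_G_F5b ca cb)))
  · exact v_G_F5b (L := 0) (M := 0) (H := 0) (K := 0) (tree_cert RF_eq g_G_F5b_eq x_G_F5b_c4_eq
      t_G_F5b_c4 (yw_nonneg hc.w0.le hc.A0 hc.B0 ht hg0 (pos3 _) (pos3 _) le_rfl le_rfl le_rfl le_rfl)
      (semF hc) (app_mem (ctx_c4 hc ht hd.le hg) (x_G_F5b ca cb)))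

theorem v_G_F7 {X Y : ℝ} (h : 0 ≤ exVal (yw w A B t g X Y L M H K) gE_G_F7) :
    g ≤ BaG w t := by
  simp only [gE_G_F7, exadd, exmul, exc, exw2, exw3, exw5, exw7, exw11, exw13, exw17, exw19, exw23, exw29, exw31] at h
  push_cast at h
  unfold BaG
  linarith

theorem x_G_F7 {X Y : ℝ} (tt : t ≤ 1 - A) (cb : B ≤ 1) :
    ∀ e ∈ xE_G_F7, 0 ≤ exVal (yw w A B t g X Y L M H K) e := by
  simp only [xE_G_F7, List.forall_mem_cons, exadd, exmul, exc, exw2, exw3, exw5, exw7, exw11, exw13, exw17, exw19, exw23, exw29, exw31]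
  push_cast
  refine ⟨?_, ?_, fun _ h => absurd h List.not_mem_nil⟩ <;> linarith

theorem fam_G_F7 (hc : Cell w A B) (ht : 0 ≤ t) (hg0 : 0 ≤ g) (h : GainC w A B g)
    (tt : t ≤ 1 - A) (cb : B ≤ 1) : g ≤ BaG w t := by
  have dn : 0 ≤ 1 + w - A - B := by linarith [hc.hi]
  rcases h with (⟨hd, hg⟩ | ⟨hd, hg⟩) | ⟨hd, ⟨hb, hA, hg⟩ | ⟨hb, hA, hg⟩ | ⟨hb, hA, hA1, hg⟩ | ⟨hb, hA, hg⟩ | hg⟩
  · exact v_G_F7 (L := 0) (M := 0) (H := 0) (K := 0) (tree_cert RF_eq g_G_F7_eq x_G_F7_free_eq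
      t_G_F7_free (yw_nonneg hc.w0.le hc.A0 hc.B0 ht hg0 (pos3 _) (pos3 _) le_rfl le_rfl le_rfl le_rfl)
      (semF hc) (app_mem (ctx_free hc ht hd hg) (x_G_F7 tt cb)))
  · rcases lt_or_ge A 1 with h1 | h1
    · rw [oT_lt h1, add_zero] at hg
      exact v_G_F7 (L := (LO A)) (M := 0) (H := 0) (K := 0) (tree_cert RO_eq g_G_F7_eq x_G_F7_Op0_eq
      t_G_F7_Op0 (yw_nonneg hc.w0.le hc.A0 hc.B0 ht hg0 (pos3 _) (pos3 _) (LO_nn A) le_rfl le_rfl le_rfl)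
      (semO hc fun h => hown_nn h dn hd.le) (app_mem (ctx_Op0 hc ht hd.le h1.le hg) (x_G_F7 tt cb)))
    · rw [oT_ge h1] at hg
      exact v_G_F7 (L := (LO A)) (M := 0) (H := (hown (A - 1) (1 + w - A - B))) (K := 0) (tree_cert RO_eq g_G_F7_eq x_G_F7_Op1_eq
      t_G_F7_Op1 (yw_nonneg hc.w0.le hc.A0 hc.B0 ht hg0 (pos3 _) (pos3 _) (LO_nn A) le_rfl (hown_nn h1 dn hd.le) le_rfl)
      (semO hc fun _ => le_rfl) (app_mem (ctx_Op1 hc ht hd.le h1 hg) (x_G_F7 tt cb)))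
  · exact v_G_F7 (L := (LO A)) (M := 0) (H := 0) (K := 0) (tree_cert RO_eq g_G_F7_eq x_G_F7_c0_eq
      t_G_F7_c0 (yw_nonneg hc.w0.le hc.A0 hc.B0 ht hg0 (pos3 _) (pos3 _) (LO_nn A) le_rfl le_rfl le_rfl)
      (semO hc fun h => hown_nn h dn hd.le) (app_mem (ctx_c0 hc ht hd.le hb hA hg) (x_G_F7 tt cb)))
  · exact v_G_F7 (L := 0) (M := 0) (H := 0) (K := 0) (tree_cert RF_eq g_G_F7_eq x_G_F7_c1_eq
      t_G_F7_c1 (yw_nonneg hc.w0.le hc.A0 hc.B0 ht hg0 (pos3 _) (pos3 _) le_rfl le_rfl le_rfl le_rfl)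
      (semF hc) (app_mem (ctx_c1 hc ht hd.le hb hA hg) (x_G_F7 tt cb)))
  · exact v_G_F7 (L := (LO A)) (M := 0) (H := 0) (K := 0) (tree_cert RO_eq g_G_F7_eq x_G_F7_c2_eq
      t_G_F7_c2 (yw_nonneg hc.w0.le hc.A0 hc.B0 ht hg0 (pos3 _) (pos3 _) (LO_nn A) le_rfl le_rfl le_rfl)
      (semO hc fun h => hown_nn h dn hd.le) (app_mem (ctx_c2 hc ht hd.le hb hA hA1 hg) (x_G_F7 tt cb)))
  · exact v_G_F7 (L := (LO A)) (M := 0) (H := (hown (A - 1) (1 + w - A - B))) (K := 0) (tree_cert RO_eq g_G_F7_eq x_G_F7_c3_eq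
      t_G_F7_c3 (yw_nonneg hc.w0.le hc.A0 hc.B0 ht hg0 (pos3 _) (pos3 _) (LO_nn A) le_rfl (hown_nn hA dn hd.le) le_rfl)
      (semO hc fun _ => le_rfl) (app_mem (ctx_c3 hc ht hd.le hb hA hg) (x_G_F7 tt cb)))
  · exact v_G_F7 (L := 0) (M := 0) (H := 0) (K := 0) (tree_cert RF_eq g_G_F7_eq x_G_F7_c4_eq
      t_G_F7_c4 (yw_nonneg hc.w0.le hc.A0 hc.B0 ht hg0 (pos3 _) (pos3 _) le_rfl le_rfl le_rfl le_rfl)
      (semF hc) (app_mem (ctx_c4 hc ht hd.le hg) (x_G_F7 tt cb)))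

theorem v_G_F8 {X Y : ℝ} (h : 0 ≤ exVal (yw w A B t g X Y L M H K) gE_G_F8) :
    g ≤ BbG w t := by
  simp only [gE_G_F8, exadd, exmul, exc, exw2, exw3, exw5, exw7, exw11, exw13, exw17, exw19, exw23, exw29, exw31] at h
  push_cast at h
  unfold BbG
  linarith

theorem x_G_F8 {X Y : ℝ} (tt : t ≤ 1 - B) (cb : B ≤ 1) :
    ∀ e ∈ xE_G_F8, 0 ≤ exVal (yw w A B t g X Y L M H K) e := by
  simp only [xE_G_F8, List.forall_mem_cons, exadd, exmul, exc, exw2, exw3, exw5, exw7, exw11, exw13, exw17, exw19, exw23, exw29, exw31]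
  push_cast
  refine ⟨?_, ?_, fun _ h => absurd h List.not_mem_nil⟩ <;> linarith

theorem fam_G_F8 (hc : Cell w A B) (ht : 0 ≤ t) (hg0 : 0 ≤ g) (h : GainC w A B g)
    (tt : t ≤ 1 - B) (cb : B ≤ 1) : g ≤ BbG w t := by
  have dn : 0 ≤ 1 + w - A - B := by linarith [hc.hi]
  rcases h with (⟨hd, hg⟩ | ⟨hd, hg⟩) | ⟨hd, ⟨hb, hA, hg⟩ | ⟨hb, hA, hg⟩ | ⟨hb, hA, hA1, hg⟩ | ⟨hb, hA, hg⟩ | hg⟩
  · exact v_G_F8 (L := 0) (M := 0) (H := 0) (K := 0) (tree_cert RF_eq g_G_F8_eq x_G_F8_free_eq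
      t_G_F8_free (yw_nonneg hc.w0.le hc.A0 hc.B0 ht hg0 (pos3 _) (pos3 _) le_rfl le_rfl le_rfl le_rfl)
      (semF hc) (app_mem (ctx_free hc ht hd hg) (x_G_F8 tt cb)))
  · rcases lt_or_ge A 1 with h1 | h1
    · rw [oT_lt h1, add_zero] at hg
      exact v_G_F8 (L := (LO A)) (M := 0) (H := 0) (K := 0) (tree_cert RO_eq g_G_F8_eq x_G_F8_Op0_eq
      t_G_F8_Op0 (yw_nonneg hc.w0.le hc.A0 hc.B0 ht hg0 (pos3 _) (pos3 _) (LO_nn A) le_rfl le_rfl le_rfl)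
      (semO hc fun h => hown_nn h dn hd.le) (app_mem (ctx_Op0 hc ht hd.le h1.le hg) (x_G_F8 tt cb)))
    · rw [oT_ge h1] at hg
      exact v_G_F8 (L := (LO A)) (M := 0) (H := (hown (A - 1) (1 + w - A - B))) (K := 0) (tree_cert RO_eq g_G_F8_eq x_G_F8_Op1_eq
      t_G_F8_Op1 (yw_nonneg hc.w0.le hc.A0 hc.B0 ht hg0 (pos3 _) (pos3 _) (LO_nn A) le_rfl (hown_nn h1 dn hd.le) le_rfl)
      (semO hc fun _ => le_rfl) (app_mem (ctx_Op1 hc ht hd.le h1 hg) (x_G_F8 tt cb)))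
  · exact v_G_F8 (L := (LO A)) (M := 0) (H := 0) (K := 0) (tree_cert RO_eq g_G_F8_eq x_G_F8_c0_eq
      t_G_F8_c0 (yw_nonneg hc.w0.le hc.A0 hc.B0 ht hg0 (pos3 _) (pos3 _) (LO_nn A) le_rfl le_rfl le_rfl)
      (semO hc fun h => hown_nn h dn hd.le) (app_mem (ctx_c0 hc ht hd.le hb hA hg) (x_G_F8 tt cb)))
  · exact v_G_F8 (L := 0) (M := 0) (H := 0) (K := 0) (tree_cert RF_eq g_G_F8_eq x_G_F8_c1_eq
      t_G_F8_c1 (yw_nonneg hc.w0.le hc.A0 hc.B0 ht hg0 (pos3 _) (pos3 _) le_rfl le_rfl le_rfl le_rfl)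
      (semF hc) (app_mem (ctx_c1 hc ht hd.le hb hA hg) (x_G_F8 tt cb)))
  · exact v_G_F8 (L := (LO A)) (M := 0) (H := 0) (K := 0) (tree_cert RO_eq g_G_F8_eq x_G_F8_c2_eq
      t_G_F8_c2 (yw_nonneg hc.w0.le hc.A0 hc.B0 ht hg0 (pos3 _) (pos3 _) (LO_nn A) le_rfl le_rfl le_rfl)
      (semO hc fun h => hown_nn h dn hd.le) (app_mem (ctx_c2 hc ht hd.le hb hA hA1 hg) (x_G_F8 tt cb)))
  · exact v_G_F8 (L := (LO A)) (M := 0) (H := (hown (A - 1) (1 + w - A - B))) (K := 0) (tree_cert RO_eq g_G_F8_eq x_G_F8_c3_eq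
      t_G_F8_c3 (yw_nonneg hc.w0.le hc.A0 hc.B0 ht hg0 (pos3 _) (pos3 _) (LO_nn A) le_rfl (hown_nn hA dn hd.le) le_rfl)
      (semO hc fun _ => le_rfl) (app_mem (ctx_c3 hc ht hd.le hb hA hg) (x_G_F8 tt cb)))
  · exact v_G_F8 (L := 0) (M := 0) (H := 0) (K := 0) (tree_cert RF_eq g_G_F8_eq x_G_F8_c4_eq
      t_G_F8_c4 (yw_nonneg hc.w0.le hc.A0 hc.B0 ht hg0 (pos3 _) (pos3 _) le_rfl le_rfl le_rfl le_rfl)
      (semF hc) (app_mem (ctx_c4 hc ht hd.le hg) (x_G_F8 tt cb)))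

theorem v_G_T2 {X Y : ℝ} (h : 0 ≤ exVal (yw w A B t g X Y L M H K) gE_G_T2) :
    g + OOG 0 t ≤ TOG w t := by
  simp only [gE_G_T2, exadd, exmul, exc, exw2, exw3, exw5, exw7, exw11, exw13, exw17, exw19, exw23, exw29, exw31] at h
  push_cast at h
  unfold OOG TOG
  linarith

theorem x_G_T2 {X Y : ℝ} (tt : t ≤ 1 - A) :
    ∀ e ∈ xE_G_T2, 0 ≤ exVal (yw w A B t g X Y L M H K) e := by
  simp only [xE_G_T2, List.forall_mem_cons, exadd, exmul, exc, exw2, exw3, exw5, exw7, exw11, exw13, exw17, exw19, exw23, exw29, exw31]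
  push_cast
  refine ⟨?_, fun _ h => absurd h List.not_mem_nil⟩ <;> linarith

theorem fam_G_T2 (hc : Cell w A B) (ht : 0 ≤ t) (hg0 : 0 ≤ g) (h : GainT w A B g)
    (tt : t ≤ 1 - A) : g + OOG 0 t ≤ TOG w t := by
  have dn : 0 ≤ 1 + w - A - B := by linarith [hc.hi]
  rcases h with ⟨hd, hg⟩ | ⟨hd, hg⟩ | ⟨hd, hg⟩
  · exact v_G_T2 (L := 0) (M := 0) (H := 0) (K := 0) (tree_cert RF_eq g_G_T2_eq x_G_T2_free_eq
      t_G_T2_free (yw_nonneg hc.w0.le hc.A0 hc.B0 ht hg0 (pos3 _) (pos3 _) le_rfl le_rfl le_rfl le_rfl)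
      (semF hc) (app_mem (ctx_free hc ht hd hg) (x_G_T2 tt)))
  · rcases lt_or_ge A 1 with h1 | h1
    · rw [oT_lt h1] at hg
      rcases lt_or_ge B 1 with h2 | h2
      · rw [oT_lt h2, add_zero, add_zero] at hg
        exact v_G_T2 (L := (L1 A)) (M := (L2 B)) (H := 0) (K := 0) (tree_cert Ra_eq g_G_T2_eq x_G_T2_Tp0_eq
      t_G_T2_Tp0_a (yw_nonneg hc.w0.le hc.A0 hc.B0 ht hg0 (pos3 _) (pos3 _) (L1_nn A) (L2_nn B) le_rfl le_rfl)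
      (sema hc (fun h => hown_nn h dn hd.le) (fun h => hown_nn h dn hd.le)) (app_mem (ctx_Tp0 hc ht hd.le h1.le h2.le hg) (x_G_T2 tt)))
      · rw [oT_ge h2, zero_add] at hg
        exact v_G_T2 (L := (L1 A)) (M := (L2 B)) (H := 0) (K := (hown (B - 1) (1 + w - A - B))) (tree_cert Ra_eq g_G_T2_eq x_G_T2_TpB_eq
      t_G_T2_TpB_a (yw_nonneg hc.w0.le hc.A0 hc.B0 ht hg0 (pos3 _) (pos3 _) (L1_nn A) (L2_nn B) le_rfl (hown_nn h2 dn hd.le))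
      (sema hc (fun h => hown_nn h dn hd.le) (fun _ => le_rfl)) (app_mem (ctx_TpB hc ht hd.le h2 hg) (x_G_T2 tt)))
    · have h2 : oT B (1 + w - A - B) = 0 := oT_other hc h1
      rw [oT_ge h1, h2, add_zero] at hg
      exact v_G_T2 (L := (L1 A)) (M := (L2 B)) (H := (hown (A - 1) (1 + w - A - B))) (K := 0) (tree_cert Ra_eq g_G_T2_eq x_G_T2_TpA_eq
      t_G_T2_TpA_a (yw_nonneg hc.w0.le hc.A0 hc.B0 ht hg0 (pos3 _) (pos3 _) (L1_nn A) (L2_nn B) (hown_nn h1 dn hd.le) le_rfl)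
      (sema hc (fun _ => le_rfl) (fun h => hown_nn h dn hd.le)) (app_mem (ctx_TpA hc ht hd.le h1 hg) (x_G_T2 tt)))
  · rcases lt_or_ge A 1 with h1 | h1
    · rw [oT_lt h1] at hg
      rcases lt_or_ge B 1 with h2 | h2
      · rw [oT_lt h2, add_zero, add_zero] at hg
        exact v_G_T2 (L := (L2 A)) (M := (L1 B)) (H := 0) (K := 0) (tree_cert Rb_eq g_G_T2_eq x_G_T2_Tp0_eq
      t_G_T2_Tp0_b (yw_nonneg hc.w0.le hc.A0 hc.B0 ht hg0 (pos3 _) (pos3 _) (L2_nn A) (L1_nn B) le_rfl le_rfl)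
      (semb hc (fun h => hown_nn h dn hd.le) (fun h => hown_nn h dn hd.le)) (app_mem (ctx_Tp0 hc ht hd.le h1.le h2.le hg) (x_G_T2 tt)))
      · rw [oT_ge h2, zero_add] at hg
        exact v_G_T2 (L := (L2 A)) (M := (L1 B)) (H := 0) (K := (hown (B - 1) (1 + w - A - B))) (tree_cert Rb_eq g_G_T2_eq x_G_T2_TpB_eq
      t_G_T2_TpB_b (yw_nonneg hc.w0.le hc.A0 hc.B0 ht hg0 (pos3 _) (pos3 _) (L2_nn A) (L1_nn B) le_rfl (hown_nn h2 dn hd.le))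
      (semb hc (fun h => hown_nn h dn hd.le) (fun _ => le_rfl)) (app_mem (ctx_TpB hc ht hd.le h2 hg) (x_G_T2 tt)))
    · have h2 : oT B (1 + w - A - B) = 0 := oT_other hc h1
      rw [oT_ge h1, h2, add_zero] at hg
      exact v_G_T2 (L := (L2 A)) (M := (L1 B)) (H := (hown (A - 1) (1 + w - A - B))) (K := 0) (tree_cert Rb_eq g_G_T2_eq x_G_T2_TpA_eq
      t_G_T2_TpA_b (yw_nonneg hc.w0.le hc.A0 hc.B0 ht hg0 (pos3 _) (pos3 _) (L2_nn A) (L1_nn B) (hown_nn h1 dn hd.le) le_rfl)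
      (semb hc (fun _ => le_rfl) (fun h => hown_nn h dn hd.le)) (app_mem (ctx_TpA hc ht hd.le h1 hg) (x_G_T2 tt)))

theorem v_G_T4a {X Y : ℝ} (h : 0 ≤ exVal (yw w A B t g X Y L M H K) gE_G_T4a) :
    g + OOG (1 - A) (1 - B) ≤ 91 / 250 := by
  simp only [gE_G_T4a, exadd, exmul, exc, exw2, exw3, exw5, exw7, exw11, exw13, exw17, exw19, exw23, exw29, exw31] at h
  push_cast at h
  unfold OOG
  linarith

theorem x_G_T4a {X Y : ℝ} (ca : A ≤ 1) (cb : B ≤ 1) :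
    ∀ e ∈ xE_G_T4a, 0 ≤ exVal (yw w A B t g X Y L M H K) e := by
  simp only [xE_G_T4a, List.forall_mem_cons, exadd, exmul, exc, exw2, exw3, exw5, exw7, exw11, exw13, exw17, exw19, exw23, exw29, exw31]
  push_cast
  refine ⟨?_, ?_, fun _ h => absurd h List.not_mem_nil⟩ <;> linarith

theorem fam_G_T4a (hc : Cell w A B) (ht : 0 ≤ t) (hg0 : 0 ≤ g) (h : GainTa w A B g)
    (ca : A ≤ 1) (cb : B ≤ 1) : g + OOG (1 - A) (1 - B) ≤ 91 / 250 := by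
  have dn : 0 ≤ 1 + w - A - B := by linarith [hc.hi]
  rcases h with ⟨hd, hg⟩ | ⟨hd, hg⟩
  · exact v_G_T4a (L := 0) (M := 0) (H := 0) (K := 0) (tree_cert RF_eq g_G_T4a_eq x_G_T4a_free_eq
      t_G_T4a_free (yw_nonneg hc.w0.le hc.A0 hc.B0 ht hg0 (pos3 _) (pos3 _) le_rfl le_rfl le_rfl le_rfl)
      (semF hc) (app_mem (ctx_free hc ht hd hg) (x_G_T4a ca cb)))
  · rcases lt_or_ge A 1 with h1 | h1
    · rw [oT_lt h1] at hg
      rcases lt_or_ge B 1 with h2 | h2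
      · rw [oT_lt h2, add_zero, add_zero] at hg
        exact v_G_T4a (L := (L1 A)) (M := (L2 B)) (H := 0) (K := 0) (tree_cert Ra_eq g_G_T4a_eq x_G_T4a_Tp0_eq
      t_G_T4a_Tp0_a (yw_nonneg hc.w0.le hc.A0 hc.B0 ht hg0 (pos3 _) (pos3 _) (L1_nn A) (L2_nn B) le_rfl le_rfl)
      (sema hc (fun h => hown_nn h dn hd.le) (fun h => hown_nn h dn hd.le)) (app_mem (ctx_Tp0 hc ht hd.le h1.le h2.le hg) (x_G_T4a ca cb)))
      · rw [oT_ge h2, zero_add] at hg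
        exact v_G_T4a (L := (L1 A)) (M := (L2 B)) (H := 0) (K := (hown (B - 1) (1 + w - A - B))) (tree_cert Ra_eq g_G_T4a_eq x_G_T4a_TpB_eq
      t_G_T4a_TpB_a (yw_nonneg hc.w0.le hc.A0 hc.B0 ht hg0 (pos3 _) (pos3 _) (L1_nn A) (L2_nn B) le_rfl (hown_nn h2 dn hd.le))
      (sema hc (fun h => hown_nn h dn hd.le) (fun _ => le_rfl)) (app_mem (ctx_TpB hc ht hd.le h2 hg) (x_G_T4a ca cb)))
    · have h2 : oT B (1 + w - A - B) = 0 := oT_other hc h1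
      rw [oT_ge h1, h2, add_zero] at hg
      exact v_G_T4a (L := (L1 A)) (M := (L2 B)) (H := (hown (A - 1) (1 + w - A - B))) (K := 0) (tree_cert Ra_eq g_G_T4a_eq x_G_T4a_TpA_eq
      t_G_T4a_TpA_a (yw_nonneg hc.w0.le hc.A0 hc.B0 ht hg0 (pos3 _) (pos3 _) (L1_nn A) (L2_nn B) (hown_nn h1 dn hd.le) le_rfl)
      (sema hc (fun _ => le_rfl) (fun h => hown_nn h dn hd.le)) (app_mem (ctx_TpA hc ht hd.le h1 hg) (x_G_T4a ca cb)))

theorem v_G_T4b {X Y : ℝ} (h : 0 ≤ exVal (yw w A B t g X Y L M H K) gE_G_T4b) :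
    g + OOG 0 (1 - B) ≤ 91 / 250 := by
  simp only [gE_G_T4b, exadd, exmul, exc, exw2, exw3, exw5, exw7, exw11, exw13, exw17, exw19, exw23, exw29, exw31] at h
  push_cast at h
  unfold OOG
  linarith

theorem x_G_T4b {X Y : ℝ} (ca : 1 ≤ A) (cb : B ≤ 1) :
    ∀ e ∈ xE_G_T4b, 0 ≤ exVal (yw w A B t g X Y L M H K) e := by
  simp only [xE_G_T4b, List.forall_mem_cons, exadd, exmul, exc, exw2, exw3, exw5, exw7, exw11, exw13, exw17, exw19, exw23, exw29, exw31]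
  push_cast
  refine ⟨?_, ?_, fun _ h => absurd h List.not_mem_nil⟩ <;> linarith

theorem fam_G_T4b (hc : Cell w A B) (ht : 0 ≤ t) (hg0 : 0 ≤ g) (h : GainT w A B g)
    (ca : 1 ≤ A) (cb : B ≤ 1) : g + OOG 0 (1 - B) ≤ 91 / 250 := by
  have dn : 0 ≤ 1 + w - A - B := by linarith [hc.hi]
  rcases h with ⟨hd, hg⟩ | ⟨hd, hg⟩ | ⟨hd, hg⟩
  · exact v_G_T4b (L := 0) (M := 0) (H := 0) (K := 0) (tree_cert RF_eq g_G_T4b_eq x_G_T4b_free_eq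
      t_G_T4b_free (yw_nonneg hc.w0.le hc.A0 hc.B0 ht hg0 (pos3 _) (pos3 _) le_rfl le_rfl le_rfl le_rfl)
      (semF hc) (app_mem (ctx_free hc ht hd hg) (x_G_T4b ca cb)))
  · rcases lt_or_ge A 1 with h1 | h1
    · rw [oT_lt h1] at hg
      rcases lt_or_ge B 1 with h2 | h2
      · rw [oT_lt h2, add_zero, add_zero] at hg
        exact v_G_T4b (L := (L1 A)) (M := (L2 B)) (H := 0) (K := 0) (tree_cert Ra_eq g_G_T4b_eq x_G_T4b_Tp0_eq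
      t_G_T4b_Tp0_a (yw_nonneg hc.w0.le hc.A0 hc.B0 ht hg0 (pos3 _) (pos3 _) (L1_nn A) (L2_nn B) le_rfl le_rfl)
      (sema hc (fun h => hown_nn h dn hd.le) (fun h => hown_nn h dn hd.le)) (app_mem (ctx_Tp0 hc ht hd.le h1.le h2.le hg) (x_G_T4b ca cb)))
      · rw [oT_ge h2, zero_add] at hg
        exact v_G_T4b (L := (L1 A)) (M := (L2 B)) (H := 0) (K := (hown (B - 1) (1 + w - A - B))) (tree_cert Ra_eq g_G_T4b_eq x_G_T4b_TpB_eq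
      t_G_T4b_TpB_a (yw_nonneg hc.w0.le hc.A0 hc.B0 ht hg0 (pos3 _) (pos3 _) (L1_nn A) (L2_nn B) le_rfl (hown_nn h2 dn hd.le))
      (sema hc (fun h => hown_nn h dn hd.le) (fun _ => le_rfl)) (app_mem (ctx_TpB hc ht hd.le h2 hg) (x_G_T4b ca cb)))
    · have h2 : oT B (1 + w - A - B) = 0 := oT_other hc h1
      rw [oT_ge h1, h2, add_zero] at hg
      exact v_G_T4b (L := (L1 A)) (M := (L2 B)) (H := (hown (A - 1) (1 + w - A - B))) (K := 0) (tree_cert Ra_eq g_G_T4b_eq x_G_T4b_TpA_eq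
      t_G_T4b_TpA_a (yw_nonneg hc.w0.le hc.A0 hc.B0 ht hg0 (pos3 _) (pos3 _) (L1_nn A) (L2_nn B) (hown_nn h1 dn hd.le) le_rfl)
      (sema hc (fun _ => le_rfl) (fun h => hown_nn h dn hd.le)) (app_mem (ctx_TpA hc ht hd.le h1 hg) (x_G_T4b ca cb)))
  · rcases lt_or_ge A 1 with h1 | h1
    · rw [oT_lt h1] at hg
      rcases lt_or_ge B 1 with h2 | h2
      · rw [oT_lt h2, add_zero, add_zero] at hg
        exact v_G_T4b (L := (L2 A)) (M := (L1 B)) (H := 0) (K := 0) (tree_cert Rb_eq g_G_T4b_eq x_G_T4b_Tp0_eq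
      t_G_T4b_Tp0_b (yw_nonneg hc.w0.le hc.A0 hc.B0 ht hg0 (pos3 _) (pos3 _) (L2_nn A) (L1_nn B) le_rfl le_rfl)
      (semb hc (fun h => hown_nn h dn hd.le) (fun h => hown_nn h dn hd.le)) (app_mem (ctx_Tp0 hc ht hd.le h1.le h2.le hg) (x_G_T4b ca cb)))
      · rw [oT_ge h2, zero_add] at hg
        exact v_G_T4b (L := (L2 A)) (M := (L1 B)) (H := 0) (K := (hown (B - 1) (1 + w - A - B))) (tree_cert Rb_eq g_G_T4b_eq x_G_T4b_TpB_eq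
      t_G_T4b_TpB_b (yw_nonneg hc.w0.le hc.A0 hc.B0 ht hg0 (pos3 _) (pos3 _) (L2_nn A) (L1_nn B) le_rfl (hown_nn h2 dn hd.le))
      (semb hc (fun h => hown_nn h dn hd.le) (fun _ => le_rfl)) (app_mem (ctx_TpB hc ht hd.le h2 hg) (x_G_T4b ca cb)))
    · have h2 : oT B (1 + w - A - B) = 0 := oT_other hc h1
      rw [oT_ge h1, h2, add_zero] at hg
      exact v_G_T4b (L := (L2 A)) (M := (L1 B)) (H := (hown (A - 1) (1 + w - A - B))) (K := 0) (tree_cert Rb_eq g_G_T4b_eq x_G_T4b_TpA_eq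
      t_G_T4b_TpA_b (yw_nonneg hc.w0.le hc.A0 hc.B0 ht hg0 (pos3 _) (pos3 _) (L2_nn A) (L1_nn B) (hown_nn h1 dn hd.le) le_rfl)
      (semb hc (fun _ => le_rfl) (fun h => hown_nn h dn hd.le)) (app_mem (ctx_TpA hc ht hd.le h1 hg) (x_G_T4b ca cb)))

theorem v_G_T6 {X Y : ℝ} (h : 0 ≤ exVal (yw w A B t g X Y L M H K) gE_G_T6) :
    g ≤ BTG w t := by
  simp only [gE_G_T6, exadd, exmul, exc, exw2, exw3, exw5, exw7, exw11, exw13, exw17, exw19, exw23, exw29, exw31] at h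
  push_cast at h
  unfold BTG
  linarith

theorem x_G_T6 {X Y : ℝ} (tt : t ≤ 1 - A) :
    ∀ e ∈ xE_G_T6, 0 ≤ exVal (yw w A B t g X Y L M H K) e := by
  simp only [xE_G_T6, List.forall_mem_cons, exadd, exmul, exc, exw2, exw3, exw5, exw7, exw11, exw13, exw17, exw19, exw23, exw29, exw31]
  push_cast
  refine ⟨?_, fun _ h => absurd h List.not_mem_nil⟩ <;> linarith

theorem fam_G_T6 (hc : Cell w A B) (ht : 0 ≤ t) (hg0 : 0 ≤ g) (h : GainT w A B g)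
    (tt : t ≤ 1 - A) : g ≤ BTG w t := by
  have dn : 0 ≤ 1 + w - A - B := by linarith [hc.hi]
  rcases h with ⟨hd, hg⟩ | ⟨hd, hg⟩ | ⟨hd, hg⟩
  · exact v_G_T6 (L := 0) (M := 0) (H := 0) (K := 0) (tree_cert RF_eq g_G_T6_eq x_G_T6_free_eq
      t_G_T6_free (yw_nonneg hc.w0.le hc.A0 hc.B0 ht hg0 (pos3 _) (pos3 _) le_rfl le_rfl le_rfl le_rfl)
      (semF hc) (app_mem (ctx_free hc ht hd hg) (x_G_T6 tt)))
  · rcases lt_or_ge A 1 with h1 | h1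
    · rw [oT_lt h1] at hg
      rcases lt_or_ge B 1 with h2 | h2
      · rw [oT_lt h2, add_zero, add_zero] at hg
        exact v_G_T6 (L := (L1 A)) (M := (L2 B)) (H := 0) (K := 0) (tree_cert Ra_eq g_G_T6_eq x_G_T6_Tp0_eq
      t_G_T6_Tp0_a (yw_nonneg hc.w0.le hc.A0 hc.B0 ht hg0 (pos3 _) (pos3 _) (L1_nn A) (L2_nn B) le_rfl le_rfl)
      (sema hc (fun h => hown_nn h dn hd.le) (fun h => hown_nn h dn hd.le)) (app_mem (ctx_Tp0 hc ht hd.le h1.le h2.le hg) (x_G_T6 tt)))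
      · rw [oT_ge h2, zero_add] at hg
        exact v_G_T6 (L := (L1 A)) (M := (L2 B)) (H := 0) (K := (hown (B - 1) (1 + w - A - B))) (tree_cert Ra_eq g_G_T6_eq x_G_T6_TpB_eq
      t_G_T6_TpB_a (yw_nonneg hc.w0.le hc.A0 hc.B0 ht hg0 (pos3 _) (pos3 _) (L1_nn A) (L2_nn B) le_rfl (hown_nn h2 dn hd.le))
      (sema hc (fun h => hown_nn h dn hd.le) (fun _ => le_rfl)) (app_mem (ctx_TpB hc ht hd.le h2 hg) (x_G_T6 tt)))
    · have h2 : oT B (1 + w - A - B) = 0 := oT_other hc h1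
      rw [oT_ge h1, h2, add_zero] at hg
      exact v_G_T6 (L := (L1 A)) (M := (L2 B)) (H := (hown (A - 1) (1 + w - A - B))) (K := 0) (tree_cert Ra_eq g_G_T6_eq x_G_T6_TpA_eq
      t_G_T6_TpA_a (yw_nonneg hc.w0.le hc.A0 hc.B0 ht hg0 (pos3 _) (pos3 _) (L1_nn A) (L2_nn B) (hown_nn h1 dn hd.le) le_rfl)
      (sema hc (fun _ => le_rfl) (fun h => hown_nn h dn hd.le)) (app_mem (ctx_TpA hc ht hd.le h1 hg) (x_G_T6 tt)))
  · rcases lt_or_ge A 1 with h1 | h1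
    · rw [oT_lt h1] at hg
      rcases lt_or_ge B 1 with h2 | h2
      · rw [oT_lt h2, add_zero, add_zero] at hg
        exact v_G_T6 (L := (L2 A)) (M := (L1 B)) (H := 0) (K := 0) (tree_cert Rb_eq g_G_T6_eq x_G_T6_Tp0_eq
      t_G_T6_Tp0_b (yw_nonneg hc.w0.le hc.A0 hc.B0 ht hg0 (pos3 _) (pos3 _) (L2_nn A) (L1_nn B) le_rfl le_rfl)
      (semb hc (fun h => hown_nn h dn hd.le) (fun h => hown_nn h dn hd.le)) (app_mem (ctx_Tp0 hc ht hd.le h1.le h2.le hg) (x_G_T6 tt)))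
      · rw [oT_ge h2, zero_add] at hg
        exact v_G_T6 (L := (L2 A)) (M := (L1 B)) (H := 0) (K := (hown (B - 1) (1 + w - A - B))) (tree_cert Rb_eq g_G_T6_eq x_G_T6_TpB_eq
      t_G_T6_TpB_b (yw_nonneg hc.w0.le hc.A0 hc.B0 ht hg0 (pos3 _) (pos3 _) (L2_nn A) (L1_nn B) le_rfl (hown_nn h2 dn hd.le))
      (semb hc (fun h => hown_nn h dn hd.le) (fun _ => le_rfl)) (app_mem (ctx_TpB hc ht hd.le h2 hg) (x_G_T6 tt)))
    · have h2 : oT B (1 + w - A - B) = 0 := oT_other hc h1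
      rw [oT_ge h1, h2, add_zero] at hg
      exact v_G_T6 (L := (L2 A)) (M := (L1 B)) (H := (hown (A - 1) (1 + w - A - B))) (K := 0) (tree_cert Rb_eq g_G_T6_eq x_G_T6_TpA_eq
      t_G_T6_TpA_b (yw_nonneg hc.w0.le hc.A0 hc.B0 ht hg0 (pos3 _) (pos3 _) (L2_nn A) (L1_nn B) (hown_nn h1 dn hd.le) le_rfl)
      (semb hc (fun _ => le_rfl) (fun h => hown_nn h dn hd.le)) (app_mem (ctx_TpA hc ht hd.le h1 hg) (x_G_T6 tt)))

end

end Pool.Agent.Helper62.TW
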