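import Pool.Agent.Helper62.TW.Atoms

/-!
# The goals of the case trees (generated)
-/

set_option autoImplicit false
set_option maxRecDepth 100000
set_option linter.all false

namespace Pool.Agent.Helper62.TW

open Pool.Agent.Helper83.Cert

/-- goal -/
def gE_A_F1 : Ex :=
  (.add (.add (.add (.mul (.c (1588)) (.v 2)) (.mul (.c (2886)) (.mul (.v 2) (.v 2)))) (.add (.mul
      (.c (638)) (.mul (.mul (.v 2) (.v 2)) (.v 2))) (.add (.mul (.c (-10000)) (.v 11)) (.mul (.c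
      (15491)) (.mul (.v 2) (.v 7)))))) (.add (.add (.mul (.c (-131)) (.mul (.mul (.mul (.v 2) (.v
      2)) (.v 2)) (.v 2))) (.add (.mul (.c (-16612)) (.mul (.mul (.v 2) (.v 2)) (.v 7))) (.mul (.c
      (-233)) (.mul (.mul (.mul (.v 2) (.v 2)) (.v 2)) (.v 7))))) (.add (.mul (.c (-16612)) (.mul
      (.mul (.v 2) (.v 7)) (.v 7))) (.add (.mul (.c (13276)) (.mul (.mul (.mul (.v 2) (.v 2)) (.v
      7)) (.v 7))) (.mul (.c (-233)) (.mul (.mul (.mul (.v 2) (.v 7)) (.v 7)) (.v 7)))))))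

/-- goal -/
def gP_A_F1 : Pol :=
  [(2, 1588), (4, 2886), (8, 638), (11, -10000), (14, 15491), (16, -131), (28, -16612), (56, -233),
      (98, -16612), (196, 13276), (686, -233)]

theorem g_A_F1_eq : exPol gE_A_F1 = gP_A_F1 := by decide +kernel

/-- the extra conditions: tt -/
def xE_A_F1 : List Ex := [(.add (.c (1)) (.add (.mul (.c (-1)) (.v 5)) (.mul (.c (-1)) (.v 7))))]

/-- the extra conditions -/
def xP_A_F1 : List Pol := [[(1, 1), (5, -1), (7, -1)]]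

theorem x_A_F1_Op0_eq : (E_Op0 ++ xE_A_F1).map exPol = P_Op0 ++ xP_A_F1 := by decide +kernel

theorem x_A_F1_Op1_eq : (E_Op1 ++ xE_A_F1).map exPol = P_Op1 ++ xP_A_F1 := by decide +kernel

theorem x_A_F1_c0_eq : (E_c0 ++ xE_A_F1).map exPol = P_c0 ++ xP_A_F1 := by decide +kernel

theorem x_A_F1_c1_eq : (E_c1 ++ xE_A_F1).map exPol = P_c1 ++ xP_A_F1 := by decide +kernel

theorem x_A_F1_c2_eq : (E_c2 ++ xE_A_F1).map exPol = P_c2 ++ xP_A_F1 := by decide +kernel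

theorem x_A_F1_c3_eq : (E_c3 ++ xE_A_F1).map exPol = P_c3 ++ xP_A_F1 := by decide +kernel

theorem x_A_F1_c4_eq : (E_c4 ++ xE_A_F1).map exPol = P_c4 ++ xP_A_F1 := by decide +kernel

theorem x_A_F1_free_eq : (E_free ++ xE_A_F1).map exPol = P_free ++ xP_A_F1 := by decide +kernel

/-- goal -/
def gE_A_F3 : Ex :=
  (.add (.add (.add (.mul (.c (1588)) (.v 2)) (.mul (.c (2886)) (.mul (.v 2) (.v 2)))) (.add (.mul
      (.c (638)) (.mul (.mul (.v 2) (.v 2)) (.v 2))) (.add (.mul (.c (-10000)) (.v 11)) (.mul (.c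
      (4316)) (.mul (.v 2) (.v 7)))))) (.add (.add (.mul (.c (-131)) (.mul (.mul (.mul (.v 2) (.v
      2)) (.v 2)) (.v 2))) (.add (.mul (.c (-4608)) (.mul (.mul (.v 2) (.v 2)) (.v 7))) (.mul (.c
      (-961)) (.mul (.mul (.mul (.v 2) (.v 2)) (.v 2)) (.v 7))))) (.add (.mul (.c (-2141)) (.mul
      (.mul (.v 2) (.v 7)) (.v 7))) (.add (.mul (.c (2392)) (.mul (.mul (.mul (.v 2) (.v 2)) (.v
      7)) (.v 7))) (.mul (.c (-3606)) (.mul (.mul (.mul (.v 2) (.v 7)) (.v 7)) (.v 7)))))))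

/-- goal -/
def gP_A_F3 : Pol :=
  [(2, 1588), (4, 2886), (8, 638), (11, -10000), (14, 4316), (16, -131), (28, -4608), (56, -961),
      (98, -2141), (196, 2392), (686, -3606)]

theorem g_A_F3_eq : exPol gE_A_F3 = gP_A_F3 := by decide +kernel

/-- the extra conditions: tt -/
def xE_A_F3 : List Ex := [(.add (.c (1)) (.add (.mul (.c (-1)) (.v 3)) (.mul (.c (-1)) (.v 7))))]

/-- the extra conditions -/
def xP_A_F3 : List Pol := [[(1, 1), (3, -1), (7, -1)]]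

theorem x_A_F3_Op0_eq : (E_Op0 ++ xE_A_F3).map exPol = P_Op0 ++ xP_A_F3 := by decide +kernel

theorem x_A_F3_Op1_eq : (E_Op1 ++ xE_A_F3).map exPol = P_Op1 ++ xP_A_F3 := by decide +kernel

theorem x_A_F3_c0_eq : (E_c0 ++ xE_A_F3).map exPol = P_c0 ++ xP_A_F3 := by decide +kernel

theorem x_A_F3_c1_eq : (E_c1 ++ xE_A_F3).map exPol = P_c1 ++ xP_A_F3 := by decide +kernel

theorem x_A_F3_c2_eq : (E_c2 ++ xE_A_F3).map exPol = P_c2 ++ xP_A_F3 := by decide +kernel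

theorem x_A_F3_c3_eq : (E_c3 ++ xE_A_F3).map exPol = P_c3 ++ xP_A_F3 := by decide +kernel

theorem x_A_F3_c4_eq : (E_c4 ++ xE_A_F3).map exPol = P_c4 ++ xP_A_F3 := by decide +kernel

theorem x_A_F3_free_eq : (E_free ++ xE_A_F3).map exPol = P_free ++ xP_A_F3 := by decide +kernel

/-- goal -/
def gE_A_F5a : Ex :=
  (.add (.add (.add (.add (.c (17)) (.mul (.c (24)) (.v 3))) (.add (.mul (.c (4)) (.v 5)) (.mul (.c
      (27)) (.mul (.v 3) (.v 3))))) (.add (.add (.mul (.c (-10000)) (.v 11)) (.mul (.c (13315))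
      (.mul (.v 3) (.v 5)))) (.add (.mul (.c (1085)) (.mul (.v 5) (.v 5))) (.mul (.c (-110)) (.mul
      (.mul (.v 3) (.v 3)) (.v 3)))))) (.add (.add (.add (.mul (.c (-8175)) (.mul (.mul (.v 3) (.v
      3)) (.v 5))) (.mul (.c (-2707)) (.mul (.mul (.v 3) (.v 5)) (.v 5)))) (.add (.mul (.c (121))
      (.mul (.mul (.mul (.v 3) (.v 3)) (.v 3)) (.v 3))) (.mul (.c (-847)) (.mul (.mul (.v 5) (.v
      5)) (.v 5))))) (.add (.add (.mul (.c (3606)) (.mul (.mul (.mul (.v 3) (.v 3)) (.v 3)) (.v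
      5))) (.mul (.c (-2392)) (.mul (.mul (.mul (.v 3) (.v 3)) (.v 5)) (.v 5)))) (.add (.mul (.c
      (961)) (.mul (.mul (.mul (.v 3) (.v 5)) (.v 5)) (.v 5))) (.mul (.c (131)) (.mul (.mul (.mul
      (.v 5) (.v 5)) (.v 5)) (.v 5)))))))

/-- goal -/
def gP_A_F5a : Pol :=
  [(1, 17), (3, 24), (5, 4), (9, 27), (11, -10000), (15, 13315), (25, 1085), (27, -110), (45,
      -8175), (75, -2707), (81, 121), (125, -847), (135, 3606), (225, -2392), (375, 961), (625,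
      131)]

theorem g_A_F5a_eq : exPol gE_A_F5a = gP_A_F5a := by decide +kernel

/-- the extra conditions: ca, cb -/
def xE_A_F5a : List Ex := [(.add (.c (1)) (.mul (.c (-1)) (.v 3))), (.add (.c (1)) (.mul (.c (-1))
 (.v 5)))]

/-- the extra conditions -/
def xP_A_F5a : List Pol := [[(1, 1), (3, -1)], [(1, 1), (5, -1)]]

theorem x_A_F5a_Op0_eq : (E_Op0 ++ xE_A_F5a).map exPol = P_Op0 ++ xP_A_F5a := by decide +kernel

theorem x_A_F5a_Op1_eq : (E_Op1 ++ xE_A_F5a).map exPol = P_Op1 ++ xP_A_F5a := by decide +kernel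

theorem x_A_F5a_c0_eq : (E_c0 ++ xE_A_F5a).map exPol = P_c0 ++ xP_A_F5a := by decide +kernel

theorem x_A_F5a_c1_eq : (E_c1 ++ xE_A_F5a).map exPol = P_c1 ++ xP_A_F5a := by decide +kernel

theorem x_A_F5a_c2_eq : (E_c2 ++ xE_A_F5a).map exPol = P_c2 ++ xP_A_F5a := by decide +kernel

theorem x_A_F5a_c3_eq : (E_c3 ++ xE_A_F5a).map exPol = P_c3 ++ xP_A_F5a := by decide +kernel

theorem x_A_F5a_c4_eq : (E_c4 ++ xE_A_F5a).map exPol = P_c4 ++ xP_A_F5a := by decide +kernel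

theorem x_A_F5a_free_eq : (E_free ++ xE_A_F5a).map exPol = P_free ++ xP_A_F5a := by decide +kernel

/-- goal -/
def gE_A_F5b : Ex :=
  (.add (.add (.c (79)) (.add (.mul (.c (8750)) (.v 5)) (.mul (.c (-10000)) (.v 11)))) (.add (.mul
      (.c (-4014)) (.mul (.v 5) (.v 5))) (.add (.mul (.c (114)) (.mul (.mul (.v 5) (.v 5)) (.v 5)))
      (.mul (.c (131)) (.mul (.mul (.mul (.v 5) (.v 5)) (.v 5)) (.v 5))))))

/-- goal -/
def gP_A_F5b : Pol :=
  [(1, 79), (5, 8750), (11, -10000), (25, -4014), (125, 114), (625, 131)]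

theorem g_A_F5b_eq : exPol gE_A_F5b = gP_A_F5b := by decide +kernel

/-- the extra conditions: ca, cb -/
def xE_A_F5b : List Ex := [(.add (.c (-1)) (.v 3)), (.add (.c (1)) (.mul (.c (-1)) (.v 5)))]

/-- the extra conditions -/
def xP_A_F5b : List Pol := [[(1, -1), (3, 1)], [(1, 1), (5, -1)]]

theorem x_A_F5b_Op0_eq : (E_Op0 ++ xE_A_F5b).map exPol = P_Op0 ++ xP_A_F5b := by decide +kernel

theorem x_A_F5b_Op1_eq : (E_Op1 ++ xE_A_F5b).map exPol = P_Op1 ++ xP_A_F5b := by decide +kernel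

theorem x_A_F5b_c0_eq : (E_c0 ++ xE_A_F5b).map exPol = P_c0 ++ xP_A_F5b := by decide +kernel

theorem x_A_F5b_c1_eq : (E_c1 ++ xE_A_F5b).map exPol = P_c1 ++ xP_A_F5b := by decide +kernel

theorem x_A_F5b_c2_eq : (E_c2 ++ xE_A_F5b).map exPol = P_c2 ++ xP_A_F5b := by decide +kernel

theorem x_A_F5b_c3_eq : (E_c3 ++ xE_A_F5b).map exPol = P_c3 ++ xP_A_F5b := by decide +kernel

theorem x_A_F5b_c4_eq : (E_c4 ++ xE_A_F5b).map exPol = P_c4 ++ xP_A_F5b := by decide +kernel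

theorem x_A_F5b_free_eq : (E_free ++ xE_A_F5b).map exPol = P_free ++ xP_A_F5b := by decide +kernel

/-- goal -/
def gE_A_F5c : Ex :=
  (.add (.add (.c (390)) (.add (.mul (.c (11593)) (.v 3)) (.mul (.c (-10540)) (.mul (.v 3) (.v
      3))))) (.add (.mul (.c (-10000)) (.v 11)) (.add (.mul (.c (3496)) (.mul (.mul (.v 3) (.v 3))
      (.v 3))) (.mul (.c (121)) (.mul (.mul (.mul (.v 3) (.v 3)) (.v 3)) (.v 3))))))

/-- goal -/
def gP_A_F5c : Pol :=
  [(1, 390), (3, 11593), (9, -10540), (11, -10000), (27, 3496), (81, 121)]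

theorem g_A_F5c_eq : exPol gE_A_F5c = gP_A_F5c := by decide +kernel

/-- the extra conditions: ca, cb -/
def xE_A_F5c : List Ex := [(.add (.c (1)) (.mul (.c (-1)) (.v 3))), (.add (.c (-1)) (.v 5))]

/-- the extra conditions -/
def xP_A_F5c : List Pol := [[(1, 1), (3, -1)], [(1, -1), (5, 1)]]

theorem x_A_F5c_Op0_eq : (E_Op0 ++ xE_A_F5c).map exPol = P_Op0 ++ xP_A_F5c := by decide +kernel

theorem x_A_F5c_Op1_eq : (E_Op1 ++ xE_A_F5c).map exPol = P_Op1 ++ xP_A_F5c := by decide +kernel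

theorem x_A_F5c_c0_eq : (E_c0 ++ xE_A_F5c).map exPol = P_c0 ++ xP_A_F5c := by decide +kernel

theorem x_A_F5c_c1_eq : (E_c1 ++ xE_A_F5c).map exPol = P_c1 ++ xP_A_F5c := by decide +kernel

theorem x_A_F5c_c2_eq : (E_c2 ++ xE_A_F5c).map exPol = P_c2 ++ xP_A_F5c := by decide +kernel

theorem x_A_F5c_c3_eq : (E_c3 ++ xE_A_F5c).map exPol = P_c3 ++ xP_A_F5c := by decide +kernel

theorem x_A_F5c_c4_eq : (E_c4 ++ xE_A_F5c).map exPol = P_c4 ++ xP_A_F5c := by decide +kernel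

theorem x_A_F5c_free_eq : (E_free ++ xE_A_F5c).map exPol = P_free ++ xP_A_F5c := by decide +kernel

/-- goal -/
def gE_A_F7 : Ex :=
  (.add (.add (.add (.c (614)) (.mul (.c (-1180)) (.v 2))) (.add (.mul (.c (6903)) (.mul (.v 2) (.v
      2))) (.add (.mul (.c (-1614)) (.v 7)) (.mul (.c (-2007)) (.mul (.mul (.v 2) (.v 2)) (.v
      2)))))) (.add (.add (.mul (.c (-10000)) (.v 11)) (.add (.mul (.c (8112)) (.mul (.v 2) (.v
      7))) (.mul (.c (-4505)) (.mul (.mul (.v 2) (.v 2)) (.v 7))))) (.add (.mul (.c (2009)) (.mul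
      (.v 7) (.v 7))) (.add (.mul (.c (-6980)) (.mul (.mul (.v 2) (.v 7)) (.v 7))) (.mul (.c
      (-987)) (.mul (.mul (.v 7) (.v 7)) (.v 7)))))))

/-- goal -/
def gP_A_F7 : Pol :=
  [(1, 614), (2, -1180), (4, 6903), (7, -1614), (8, -2007), (11, -10000), (14, 8112), (28, -4505),
      (49, 2009), (98, -6980), (343, -987)]

theorem g_A_F7_eq : exPol gE_A_F7 = gP_A_F7 := by decide +kernel

/-- the extra conditions: tt -/
def xE_A_F7 : List Ex := [(.add (.c (1)) (.add (.mul (.c (-1)) (.v 3)) (.mul (.c (-1)) (.v 7))))]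

/-- the extra conditions -/
def xP_A_F7 : List Pol := [[(1, 1), (3, -1), (7, -1)]]

theorem x_A_F7_Op0_eq : (E_Op0 ++ xE_A_F7).map exPol = P_Op0 ++ xP_A_F7 := by decide +kernel

theorem x_A_F7_Op1_eq : (E_Op1 ++ xE_A_F7).map exPol = P_Op1 ++ xP_A_F7 := by decide +kernel

theorem x_A_F7_c0_eq : (E_c0 ++ xE_A_F7).map exPol = P_c0 ++ xP_A_F7 := by decide +kernel

theorem x_A_F7_c1_eq : (E_c1 ++ xE_A_F7).map exPol = P_c1 ++ xP_A_F7 := by decide +kernel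

theorem x_A_F7_c2_eq : (E_c2 ++ xE_A_F7).map exPol = P_c2 ++ xP_A_F7 := by decide +kernel

theorem x_A_F7_c3_eq : (E_c3 ++ xE_A_F7).map exPol = P_c3 ++ xP_A_F7 := by decide +kernel

theorem x_A_F7_c4_eq : (E_c4 ++ xE_A_F7).map exPol = P_c4 ++ xP_A_F7 := by decide +kernel

theorem x_A_F7_free_eq : (E_free ++ xE_A_F7).map exPol = P_free ++ xP_A_F7 := by decide +kernel

/-- goal -/
def gE_A_F8 : Ex :=
  (.add (.add (.add (.c (22)) (.mul (.c (1647)) (.v 2))) (.add (.mul (.c (2665)) (.mul (.v 2) (.v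
      2))) (.add (.mul (.c (761)) (.v 7)) (.mul (.c (-10000)) (.v 11))))) (.add (.add (.mul (.c
      (672)) (.mul (.v 2) (.v 7))) (.mul (.c (-2665)) (.mul (.mul (.v 2) (.v 2)) (.v 7)))) (.add
      (.mul (.c (-1508)) (.mul (.v 7) (.v 7))) (.add (.mul (.c (-2319)) (.mul (.mul (.v 2) (.v 7))
      (.v 7))) (.mul (.c (748)) (.mul (.mul (.v 7) (.v 7)) (.v 7)))))))

/-- goal -/
def gP_A_F8 : Pol :=
  [(1, 22), (2, 1647), (4, 2665), (7, 761), (11, -10000), (14, 672), (28, -2665), (49, -1508), (98,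
      -2319), (343, 748)]

theorem g_A_F8_eq : exPol gE_A_F8 = gP_A_F8 := by decide +kernel

/-- the extra conditions: tt -/
def xE_A_F8 : List Ex := [(.add (.c (1)) (.add (.mul (.c (-1)) (.v 5)) (.mul (.c (-1)) (.v 7))))]

/-- the extra conditions -/
def xP_A_F8 : List Pol := [[(1, 1), (5, -1), (7, -1)]]

theorem x_A_F8_Op0_eq : (E_Op0 ++ xE_A_F8).map exPol = P_Op0 ++ xP_A_F8 := by decide +kernel

theorem x_A_F8_Op1_eq : (E_Op1 ++ xE_A_F8).map exPol = P_Op1 ++ xP_A_F8 := by decide +kernel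

theorem x_A_F8_c0_eq : (E_c0 ++ xE_A_F8).map exPol = P_c0 ++ xP_A_F8 := by decide +kernel

theorem x_A_F8_c1_eq : (E_c1 ++ xE_A_F8).map exPol = P_c1 ++ xP_A_F8 := by decide +kernel

theorem x_A_F8_c2_eq : (E_c2 ++ xE_A_F8).map exPol = P_c2 ++ xP_A_F8 := by decide +kernel

theorem x_A_F8_c3_eq : (E_c3 ++ xE_A_F8).map exPol = P_c3 ++ xP_A_F8 := by decide +kernel

theorem x_A_F8_c4_eq : (E_c4 ++ xE_A_F8).map exPol = P_c4 ++ xP_A_F8 := by decide +kernel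

theorem x_A_F8_free_eq : (E_free ++ xE_A_F8).map exPol = P_free ++ xP_A_F8 := by decide +kernel

/-- goal -/
def gE_A_T2 : Ex :=
  (.add (.add (.add (.mul (.c (1485)) (.v 2)) (.mul (.c (-674)) (.mul (.v 2) (.v 2)))) (.add (.mul
      (.c (3980)) (.mul (.mul (.v 2) (.v 2)) (.v 2))) (.add (.mul (.c (-10000)) (.v 11)) (.mul (.c
      (4316)) (.mul (.v 2) (.v 7)))))) (.add (.add (.mul (.c (-121)) (.mul (.mul (.mul (.v 2) (.v
      2)) (.v 2)) (.v 2))) (.add (.mul (.c (-2141)) (.mul (.mul (.v 2) (.v 2)) (.v 7))) (.mul (.c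
      (-3606)) (.mul (.mul (.mul (.v 2) (.v 2)) (.v 2)) (.v 7))))) (.add (.mul (.c (-4608)) (.mul
      (.mul (.v 2) (.v 7)) (.v 7))) (.add (.mul (.c (2392)) (.mul (.mul (.mul (.v 2) (.v 2)) (.v
      7)) (.v 7))) (.mul (.c (-961)) (.mul (.mul (.mul (.v 2) (.v 7)) (.v 7)) (.v 7)))))))

/-- goal -/
def gP_A_T2 : Pol :=
  [(2, 1485), (4, -674), (8, 3980), (11, -10000), (14, 4316), (16, -121), (28, -2141), (56, -3606),
      (98, -4608), (196, 2392), (686, -961)]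

theorem g_A_T2_eq : exPol gE_A_T2 = gP_A_T2 := by decide +kernel

/-- the extra conditions: tt -/
def xE_A_T2 : List Ex := [(.add (.c (1)) (.add (.mul (.c (-1)) (.v 3)) (.mul (.c (-1)) (.v 7))))]

/-- the extra conditions -/
def xP_A_T2 : List Pol := [[(1, 1), (3, -1), (7, -1)]]

theorem x_A_T2_Tp0_eq : (E_Tp0 ++ xE_A_T2).map exPol = P_Tp0 ++ xP_A_T2 := by decide +kernel

theorem x_A_T2_TpA_eq : (E_TpA ++ xE_A_T2).map exPol = P_TpA ++ xP_A_T2 := by decide +kernel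

theorem x_A_T2_TpB_eq : (E_TpB ++ xE_A_T2).map exPol = P_TpB ++ xP_A_T2 := by decide +kernel

theorem x_A_T2_free_eq : (E_free ++ xE_A_T2).map exPol = P_free ++ xP_A_T2 := by decide +kernel

/-- goal -/
def gE_A_T4a : Ex :=
  (.add (.add (.add (.add (.c (21)) (.mul (.c (25)) (.v 3))) (.add (.mul (.c (25)) (.v 5)) (.mul
      (.c (21)) (.mul (.v 3) (.v 3))))) (.add (.add (.mul (.c (-10000)) (.v 11)) (.mul (.c (-749))
      (.mul (.v 3) (.v 5)))) (.add (.mul (.c (21)) (.mul (.v 5) (.v 5))) (.mul (.c (-119)) (.mul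
      (.mul (.v 3) (.v 3)) (.v 3)))))) (.add (.add (.add (.mul (.c (9241)) (.mul (.mul (.v 3) (.v
      3)) (.v 5))) (.mul (.c (9241)) (.mul (.mul (.v 3) (.v 5)) (.v 5)))) (.add (.mul (.c (131))
      (.mul (.mul (.mul (.v 3) (.v 3)) (.v 3)) (.v 3))) (.mul (.c (-119)) (.mul (.mul (.v 5) (.v
      5)) (.v 5))))) (.add (.add (.mul (.c (233)) (.mul (.mul (.mul (.v 3) (.v 3)) (.v 3)) (.v 5)))
      (.mul (.c (-13276)) (.mul (.mul (.mul (.v 3) (.v 3)) (.v 5)) (.v 5)))) (.add (.mul (.c (233))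
      (.mul (.mul (.mul (.v 3) (.v 5)) (.v 5)) (.v 5))) (.mul (.c (131)) (.mul (.mul (.mul (.v 5)
      (.v 5)) (.v 5)) (.v 5)))))))

/-- goal -/
def gP_A_T4a : Pol :=
  [(1, 21), (3, 25), (5, 25), (9, 21), (11, -10000), (15, -749), (25, 21), (27, -119), (45, 9241),
      (75, 9241), (81, 131), (125, -119), (135, 233), (225, -13276), (375, 233), (625, 131)]

theorem g_A_T4a_eq : exPol gE_A_T4a = gP_A_T4a := by decide +kernel

/-- the extra conditions: ca, cb -/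
def xE_A_T4a : List Ex := [(.add (.c (1)) (.mul (.c (-1)) (.v 3))), (.add (.c (1)) (.mul (.c (-1))
 (.v 5)))]

/-- the extra conditions -/
def xP_A_T4a : List Pol := [[(1, 1), (3, -1)], [(1, 1), (5, -1)]]

theorem x_A_T4a_Tp0_eq : (E_Tp0 ++ xE_A_T4a).map exPol = P_Tp0 ++ xP_A_T4a := by decide +kernel

theorem x_A_T4a_TpA_eq : (E_TpA ++ xE_A_T4a).map exPol = P_TpA ++ xP_A_T4a := by decide +kernel

theorem x_A_T4a_TpB_eq : (E_TpB ++ xE_A_T4a).map exPol = P_TpB ++ xP_A_T4a := by decide +kernel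

theorem x_A_T4a_free_eq : (E_free ++ xE_A_T4a).map exPol = P_free ++ xP_A_T4a := by decide +kernel

/-- goal -/
def gE_A_T4b : Ex :=
  (.add (.add (.c (79)) (.add (.mul (.c (8750)) (.v 5)) (.mul (.c (-10000)) (.v 11)))) (.add (.mul
      (.c (-4014)) (.mul (.v 5) (.v 5))) (.add (.mul (.c (114)) (.mul (.mul (.v 5) (.v 5)) (.v 5)))
      (.mul (.c (131)) (.mul (.mul (.mul (.v 5) (.v 5)) (.v 5)) (.v 5))))))

/-- goal -/
def gP_A_T4b : Pol :=
  [(1, 79), (5, 8750), (11, -10000), (25, -4014), (125, 114), (625, 131)]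

theorem g_A_T4b_eq : exPol gE_A_T4b = gP_A_T4b := by decide +kernel

/-- the extra conditions: ca, cb -/
def xE_A_T4b : List Ex := [(.add (.c (-1)) (.v 3)), (.add (.c (1)) (.mul (.c (-1)) (.v 5)))]

/-- the extra conditions -/
def xP_A_T4b : List Pol := [[(1, -1), (3, 1)], [(1, 1), (5, -1)]]

theorem x_A_T4b_Tp0_eq : (E_Tp0 ++ xE_A_T4b).map exPol = P_Tp0 ++ xP_A_T4b := by decide +kernel

theorem x_A_T4b_TpA_eq : (E_TpA ++ xE_A_T4b).map exPol = P_TpA ++ xP_A_T4b := by decide +kernel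

theorem x_A_T4b_TpB_eq : (E_TpB ++ xE_A_T4b).map exPol = P_TpB ++ xP_A_T4b := by decide +kernel

theorem x_A_T4b_free_eq : (E_free ++ xE_A_T4b).map exPol = P_free ++ xP_A_T4b := by decide +kernel

/-- goal -/
def gE_A_T6 : Ex :=
  (.add (.add (.add (.c (693)) (.mul (.c (-2183)) (.v 2))) (.add (.mul (.c (5705)) (.mul (.v 2) (.v
      2))) (.add (.mul (.c (-2419)) (.v 7)) (.mul (.c (283)) (.mul (.mul (.v 2) (.v 2)) (.v 2))))))
      (.add (.add (.mul (.c (-10000)) (.v 11)) (.add (.mul (.c (7984)) (.mul (.v 2) (.v 7))) (.mul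
      (.c (-6741)) (.mul (.mul (.v 2) (.v 2)) (.v 7))))) (.add (.mul (.c (2987)) (.mul (.v 7) (.v
      7))) (.add (.mul (.c (-4523)) (.mul (.mul (.v 2) (.v 7)) (.v 7))) (.mul (.c (-1163)) (.mul
      (.mul (.v 7) (.v 7)) (.v 7)))))))

/-- goal -/
def gP_A_T6 : Pol :=
  [(1, 693), (2, -2183), (4, 5705), (7, -2419), (8, 283), (11, -10000), (14, 7984), (28, -6741),
      (49, 2987), (98, -4523), (343, -1163)]

theorem g_A_T6_eq : exPol gE_A_T6 = gP_A_T6 := by decide +kernel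

/-- the extra conditions: tt -/
def xE_A_T6 : List Ex := [(.add (.c (1)) (.add (.mul (.c (-1)) (.v 3)) (.mul (.c (-1)) (.v 7))))]

/-- the extra conditions -/
def xP_A_T6 : List Pol := [[(1, 1), (3, -1), (7, -1)]]

theorem x_A_T6_Tp0_eq : (E_Tp0 ++ xE_A_T6).map exPol = P_Tp0 ++ xP_A_T6 := by decide +kernel

theorem x_A_T6_TpA_eq : (E_TpA ++ xE_A_T6).map exPol = P_TpA ++ xP_A_T6 := by decide +kernel

theorem x_A_T6_TpB_eq : (E_TpB ++ xE_A_T6).map exPol = P_TpB ++ xP_A_T6 := by decide +kernel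

theorem x_A_T6_free_eq : (E_free ++ xE_A_T6).map exPol = P_free ++ xP_A_T6 := by decide +kernel

/-- goal -/
def gE_G_F1 : Ex :=
  (.add (.add (.add (.mul (.c (1833)) (.v 2)) (.mul (.c (2867)) (.mul (.v 2) (.v 2)))) (.add (.mul
      (.c (-1131)) (.mul (.mul (.v 2) (.v 2)) (.v 2))) (.add (.mul (.c (-10000)) (.v 11)) (.mul (.c
      (6106)) (.mul (.v 2) (.v 7)))))) (.add (.add (.mul (.c (-97)) (.mul (.mul (.mul (.v 2) (.v
      2)) (.v 2)) (.v 2))) (.add (.mul (.c (-9059)) (.mul (.mul (.v 2) (.v 2)) (.v 7))) (.mul (.c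
      (1658)) (.mul (.mul (.mul (.v 2) (.v 2)) (.v 2)) (.v 7))))) (.add (.mul (.c (-9059)) (.mul
      (.mul (.v 2) (.v 7)) (.v 7))) (.add (.mul (.c (5360)) (.mul (.mul (.mul (.v 2) (.v 2)) (.v
      7)) (.v 7))) (.mul (.c (1658)) (.mul (.mul (.mul (.v 2) (.v 7)) (.v 7)) (.v 7)))))))

/-- goal -/
def gP_G_F1 : Pol :=
  [(2, 1833), (4, 2867), (8, -1131), (11, -10000), (14, 6106), (16, -97), (28, -9059), (56, 1658),
      (98, -9059), (196, 5360), (686, 1658)]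

theorem g_G_F1_eq : exPol gE_G_F1 = gP_G_F1 := by decide +kernel

/-- the extra conditions: tt, cb -/
def xE_G_F1 : List Ex := [(.add (.c (1)) (.add (.mul (.c (-1)) (.v 5)) (.mul (.c (-1)) (.v 7)))),
 (.add (.c (1)) (.mul (.c (-1)) (.v 5)))]

/-- the extra conditions -/
def xP_G_F1 : List Pol := [[(1, 1), (5, -1), (7, -1)], [(1, 1), (5, -1)]]

theorem x_G_F1_Op0_eq : (E_Op0 ++ xE_G_F1).map exPol = P_Op0 ++ xP_G_F1 := by decide +kernel

theorem x_G_F1_Op1_eq : (E_Op1 ++ xE_G_F1).map exPol = P_Op1 ++ xP_G_F1 := by decide +kernel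

theorem x_G_F1_c0_eq : (E_c0 ++ xE_G_F1).map exPol = P_c0 ++ xP_G_F1 := by decide +kernel

theorem x_G_F1_c1_eq : (E_c1 ++ xE_G_F1).map exPol = P_c1 ++ xP_G_F1 := by decide +kernel

theorem x_G_F1_c2_eq : (E_c2 ++ xE_G_F1).map exPol = P_c2 ++ xP_G_F1 := by decide +kernel

theorem x_G_F1_c3_eq : (E_c3 ++ xE_G_F1).map exPol = P_c3 ++ xP_G_F1 := by decide +kernel

theorem x_G_F1_c4_eq : (E_c4 ++ xE_G_F1).map exPol = P_c4 ++ xP_G_F1 := by decide +kernel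

theorem x_G_F1_free_eq : (E_free ++ xE_G_F1).map exPol = P_free ++ xP_G_F1 := by decide +kernel

/-- goal -/
def gE_G_F3 : Ex :=
  (.add (.add (.add (.mul (.c (1833)) (.v 2)) (.mul (.c (2867)) (.mul (.v 2) (.v 2)))) (.add (.mul
      (.c (-1131)) (.mul (.mul (.v 2) (.v 2)) (.v 2))) (.add (.mul (.c (-10000)) (.v 11)) (.mul (.c
      (8596)) (.mul (.v 2) (.v 7)))))) (.add (.add (.mul (.c (-97)) (.mul (.mul (.mul (.v 2) (.v
      2)) (.v 2)) (.v 2))) (.add (.mul (.c (-10800)) (.mul (.mul (.v 2) (.v 2)) (.v 7))) (.mul (.c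
      (1612)) (.mul (.mul (.mul (.v 2) (.v 2)) (.v 2)) (.v 7))))) (.add (.mul (.c (-10372)) (.mul
      (.mul (.v 2) (.v 7)) (.v 7))) (.add (.mul (.c (7210)) (.mul (.mul (.mul (.v 2) (.v 2)) (.v
      7)) (.v 7))) (.mul (.c (398)) (.mul (.mul (.mul (.v 2) (.v 7)) (.v 7)) (.v 7)))))))

/-- goal -/
def gP_G_F3 : Pol :=
  [(2, 1833), (4, 2867), (8, -1131), (11, -10000), (14, 8596), (16, -97), (28, -10800), (56, 1612),
      (98, -10372), (196, 7210), (686, 398)]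

theorem g_G_F3_eq : exPol gE_G_F3 = gP_G_F3 := by decide +kernel

/-- the extra conditions: tt, cb -/
def xE_G_F3 : List Ex := [(.add (.c (1)) (.add (.mul (.c (-1)) (.v 3)) (.mul (.c (-1)) (.v 7)))),
 (.add (.c (1)) (.mul (.c (-1)) (.v 5)))]

/-- the extra conditions -/
def xP_G_F3 : List Pol := [[(1, 1), (3, -1), (7, -1)], [(1, 1), (5, -1)]]

theorem x_G_F3_Op0_eq : (E_Op0 ++ xE_G_F3).map exPol = P_Op0 ++ xP_G_F3 := by decide +kernel

theorem x_G_F3_Op1_eq : (E_Op1 ++ xE_G_F3).map exPol = P_Op1 ++ xP_G_F3 := by decide +kernel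

theorem x_G_F3_c0_eq : (E_c0 ++ xE_G_F3).map exPol = P_c0 ++ xP_G_F3 := by decide +kernel

theorem x_G_F3_c1_eq : (E_c1 ++ xE_G_F3).map exPol = P_c1 ++ xP_G_F3 := by decide +kernel

theorem x_G_F3_c2_eq : (E_c2 ++ xE_G_F3).map exPol = P_c2 ++ xP_G_F3 := by decide +kernel

theorem x_G_F3_c3_eq : (E_c3 ++ xE_G_F3).map exPol = P_c3 ++ xP_G_F3 := by decide +kernel

theorem x_G_F3_c4_eq : (E_c4 ++ xE_G_F3).map exPol = P_c4 ++ xP_G_F3 := by decide +kernel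

theorem x_G_F3_free_eq : (E_free ++ xE_G_F3).map exPol = P_free ++ xP_G_F3 := by decide +kernel

/-- goal -/
def gE_G_F5a : Ex :=
  (.add (.add (.add (.add (.c (32)) (.mul (.c (43)) (.v 3))) (.add (.mul (.c (64)) (.v 5)) (.mul
      (.c (172)) (.mul (.v 3) (.v 3))))) (.add (.add (.mul (.c (-10000)) (.v 11)) (.mul (.c
      (-1122)) (.mul (.v 3) (.v 5)))) (.add (.mul (.c (-138)) (.mul (.v 5) (.v 5))) (.mul (.c
      (-634)) (.mul (.mul (.v 3) (.v 3)) (.v 3)))))) (.add (.add (.add (.mul (.c (5242)) (.mul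
      (.mul (.v 3) (.v 3)) (.v 5))) (.mul (.c (8456)) (.mul (.mul (.v 3) (.v 5)) (.v 5)))) (.add
      (.mul (.c (555)) (.mul (.mul (.mul (.v 3) (.v 3)) (.v 3)) (.v 3))) (.mul (.c (93)) (.mul
      (.mul (.v 5) (.v 5)) (.v 5))))) (.add (.add (.mul (.c (-398)) (.mul (.mul (.mul (.v 3) (.v
      3)) (.v 3)) (.v 5))) (.mul (.c (-7210)) (.mul (.mul (.mul (.v 3) (.v 3)) (.v 5)) (.v 5))))
      (.add (.mul (.c (-1612)) (.mul (.mul (.mul (.v 3) (.v 5)) (.v 5)) (.v 5))) (.mul (.c (97))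
      (.mul (.mul (.mul (.v 5) (.v 5)) (.v 5)) (.v 5)))))))

/-- goal -/
def gP_G_F5a : Pol :=
  [(1, 32), (3, 43), (5, 64), (9, 172), (11, -10000), (15, -1122), (25, -138), (27, -634), (45,
      5242), (75, 8456), (81, 555), (125, 93), (135, -398), (225, -7210), (375, -1612), (625, 97)]

theorem g_G_F5a_eq : exPol gE_G_F5a = gP_G_F5a := by decide +kernel

/-- the extra conditions: ca, cb -/
def xE_G_F5a : List Ex := [(.add (.c (1)) (.mul (.c (-1)) (.v 3))), (.add (.c (1)) (.mul (.c (-1))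
 (.v 5)))]

/-- the extra conditions -/
def xP_G_F5a : List Pol := [[(1, 1), (3, -1)], [(1, 1), (5, -1)]]

theorem x_G_F5a_Op0_eq : (E_Op0 ++ xE_G_F5a).map exPol = P_Op0 ++ xP_G_F5a := by decide +kernel

theorem x_G_F5a_Op1_eq : (E_Op1 ++ xE_G_F5a).map exPol = P_Op1 ++ xP_G_F5a := by decide +kernel

theorem x_G_F5a_c0_eq : (E_c0 ++ xE_G_F5a).map exPol = P_c0 ++ xP_G_F5a := by decide +kernel

theorem x_G_F5a_c1_eq : (E_c1 ++ xE_G_F5a).map exPol = P_c1 ++ xP_G_F5a := by decide +kernel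

theorem x_G_F5a_c2_eq : (E_c2 ++ xE_G_F5a).map exPol = P_c2 ++ xP_G_F5a := by decide +kernel

theorem x_G_F5a_c3_eq : (E_c3 ++ xE_G_F5a).map exPol = P_c3 ++ xP_G_F5a := by decide +kernel

theorem x_G_F5a_c4_eq : (E_c4 ++ xE_G_F5a).map exPol = P_c4 ++ xP_G_F5a := by decide +kernel

theorem x_G_F5a_free_eq : (E_free ++ xE_G_F5a).map exPol = P_free ++ xP_G_F5a := by decide +kernel

/-- goal -/
def gE_G_F5b : Ex :=
  (.add (.add (.c (168)) (.add (.mul (.c (3786)) (.v 5)) (.mul (.c (-10000)) (.v 11)))) (.add (.mul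
      (.c (1108)) (.mul (.v 5) (.v 5))) (.add (.mul (.c (-1519)) (.mul (.mul (.v 5) (.v 5)) (.v
      5))) (.mul (.c (97)) (.mul (.mul (.mul (.v 5) (.v 5)) (.v 5)) (.v 5))))))

/-- goal -/
def gP_G_F5b : Pol :=
  [(1, 168), (5, 3786), (11, -10000), (25, 1108), (125, -1519), (625, 97)]

theorem g_G_F5b_eq : exPol gE_G_F5b = gP_G_F5b := by decide +kernel

/-- the extra conditions: ca, cb -/
def xE_G_F5b : List Ex := [(.add (.c (-1)) (.v 3)), (.add (.c (1)) (.mul (.c (-1)) (.v 5)))]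

/-- the extra conditions -/
def xP_G_F5b : List Pol := [[(1, -1), (3, 1)], [(1, 1), (5, -1)]]

theorem x_G_F5b_Op0_eq : (E_Op0 ++ xE_G_F5b).map exPol = P_Op0 ++ xP_G_F5b := by decide +kernel

theorem x_G_F5b_Op1_eq : (E_Op1 ++ xE_G_F5b).map exPol = P_Op1 ++ xP_G_F5b := by decide +kernel

theorem x_G_F5b_c0_eq : (E_c0 ++ xE_G_F5b).map exPol = P_c0 ++ xP_G_F5b := by decide +kernel

theorem x_G_F5b_c1_eq : (E_c1 ++ xE_G_F5b).map exPol = P_c1 ++ xP_G_F5b := by decide +kernel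

theorem x_G_F5b_c2_eq : (E_c2 ++ xE_G_F5b).map exPol = P_c2 ++ xP_G_F5b := by decide +kernel

theorem x_G_F5b_c3_eq : (E_c3 ++ xE_G_F5b).map exPol = P_c3 ++ xP_G_F5b := by decide +kernel

theorem x_G_F5b_c4_eq : (E_c4 ++ xE_G_F5b).map exPol = P_c4 ++ xP_G_F5b := by decide +kernel

theorem x_G_F5b_free_eq : (E_free ++ xE_G_F5b).map exPol = P_free ++ xP_G_F5b := by decide +kernel

/-- goal -/
def gE_G_F7 : Ex :=
  (.add (.add (.add (.add (.c (167)) (.mul (.c (1770)) (.v 2))) (.add (.mul (.c (279)) (.mul (.v 2)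
      (.v 2))) (.mul (.c (-1742)) (.v 7)))) (.add (.add (.mul (.c (4238)) (.mul (.mul (.v 2) (.v
      2)) (.v 2))) (.mul (.c (-10000)) (.v 11))) (.add (.mul (.c (11464)) (.mul (.v 2) (.v 7)))
      (.mul (.c (-3018)) (.mul (.mul (.mul (.v 2) (.v 2)) (.v 2)) (.v 2)))))) (.add (.add (.add
      (.mul (.c (-14443)) (.mul (.mul (.v 2) (.v 2)) (.v 7))) (.mul (.c (6612)) (.mul (.v 7) (.v
      7)))) (.add (.mul (.c (4039)) (.mul (.mul (.mul (.v 2) (.v 2)) (.v 2)) (.v 7))) (.mul (.c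
      (-16174)) (.mul (.mul (.v 2) (.v 7)) (.v 7))))) (.add (.add (.mul (.c (7213)) (.mul (.mul
      (.mul (.v 2) (.v 2)) (.v 7)) (.v 7))) (.mul (.c (-8014)) (.mul (.mul (.v 7) (.v 7)) (.v 7))))
      (.add (.mul (.c (4790)) (.mul (.mul (.mul (.v 2) (.v 7)) (.v 7)) (.v 7))) (.mul (.c (3000))
      (.mul (.mul (.mul (.v 7) (.v 7)) (.v 7)) (.v 7)))))))

/-- goal -/
def gP_G_F7 : Pol :=
  [(1, 167), (2, 1770), (4, 279), (7, -1742), (8, 4238), (11, -10000), (14, 11464), (16, -3018),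
      (28, -14443), (49, 6612), (56, 4039), (98, -16174), (196, 7213), (343, -8014), (686, 4790),
      (2401, 3000)]

theorem g_G_F7_eq : exPol gE_G_F7 = gP_G_F7 := by decide +kernel

/-- the extra conditions: tt, cb -/
def xE_G_F7 : List Ex := [(.add (.c (1)) (.add (.mul (.c (-1)) (.v 3)) (.mul (.c (-1)) (.v 7)))),
 (.add (.c (1)) (.mul (.c (-1)) (.v 5)))]

/-- the extra conditions -/
def xP_G_F7 : List Pol := [[(1, 1), (3, -1), (7, -1)], [(1, 1), (5, -1)]]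

theorem x_G_F7_Op0_eq : (E_Op0 ++ xE_G_F7).map exPol = P_Op0 ++ xP_G_F7 := by decide +kernel

theorem x_G_F7_Op1_eq : (E_Op1 ++ xE_G_F7).map exPol = P_Op1 ++ xP_G_F7 := by decide +kernel

theorem x_G_F7_c0_eq : (E_c0 ++ xE_G_F7).map exPol = P_c0 ++ xP_G_F7 := by decide +kernel

theorem x_G_F7_c1_eq : (E_c1 ++ xE_G_F7).map exPol = P_c1 ++ xP_G_F7 := by decide +kernel

theorem x_G_F7_c2_eq : (E_c2 ++ xE_G_F7).map exPol = P_c2 ++ xP_G_F7 := by decide +kernel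

theorem x_G_F7_c3_eq : (E_c3 ++ xE_G_F7).map exPol = P_c3 ++ xP_G_F7 := by decide +kernel

theorem x_G_F7_c4_eq : (E_c4 ++ xE_G_F7).map exPol = P_c4 ++ xP_G_F7 := by decide +kernel

theorem x_G_F7_free_eq : (E_free ++ xE_G_F7).map exPol = P_free ++ xP_G_F7 := by decide +kernel

/-- goal -/
def gE_G_F8 : Ex :=
  (.add (.add (.add (.add (.c (99)) (.mul (.c (1507)) (.v 2))) (.add (.mul (.c (3483)) (.mul (.v 2)
      (.v 2))) (.mul (.c (-1116)) (.v 7)))) (.add (.add (.mul (.c (-1988)) (.mul (.mul (.v 2) (.v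
      2)) (.v 2))) (.mul (.c (-10000)) (.v 11))) (.add (.mul (.c (-1570)) (.mul (.v 2) (.v 7)))
      (.mul (.c (331)) (.mul (.mul (.mul (.v 2) (.v 2)) (.v 2)) (.v 2)))))) (.add (.add (.add (.mul
      (.c (-3135)) (.mul (.mul (.v 2) (.v 2)) (.v 7))) (.mul (.c (5038)) (.mul (.v 7) (.v 7))))
      (.add (.mul (.c (1313)) (.mul (.mul (.mul (.v 2) (.v 2)) (.v 2)) (.v 7))) (.mul (.c (1130))
      (.mul (.mul (.v 2) (.v 7)) (.v 7))))) (.add (.add (.mul (.c (64)) (.mul (.mul (.mul (.v 2)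
      (.v 2)) (.v 7)) (.v 7))) (.mul (.c (-6845)) (.mul (.mul (.v 7) (.v 7)) (.v 7)))) (.add (.mul
      (.c (-1136)) (.mul (.mul (.mul (.v 2) (.v 7)) (.v 7)) (.v 7))) (.mul (.c (2851)) (.mul (.mul
      (.mul (.v 7) (.v 7)) (.v 7)) (.v 7)))))))

/-- goal -/
def gP_G_F8 : Pol :=
  [(1, 99), (2, 1507), (4, 3483), (7, -1116), (8, -1988), (11, -10000), (14, -1570), (16, 331),
      (28, -3135), (49, 5038), (56, 1313), (98, 1130), (196, 64), (343, -6845), (686, -1136),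
      (2401, 2851)]

theorem g_G_F8_eq : exPol gE_G_F8 = gP_G_F8 := by decide +kernel

/-- the extra conditions: tt, cb -/
def xE_G_F8 : List Ex := [(.add (.c (1)) (.add (.mul (.c (-1)) (.v 5)) (.mul (.c (-1)) (.v 7)))),
 (.add (.c (1)) (.mul (.c (-1)) (.v 5)))]

/-- the extra conditions -/
def xP_G_F8 : List Pol := [[(1, 1), (5, -1), (7, -1)], [(1, 1), (5, -1)]]

theorem x_G_F8_Op0_eq : (E_Op0 ++ xE_G_F8).map exPol = P_Op0 ++ xP_G_F8 := by decide +kernel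

theorem x_G_F8_Op1_eq : (E_Op1 ++ xE_G_F8).map exPol = P_Op1 ++ xP_G_F8 := by decide +kernel

theorem x_G_F8_c0_eq : (E_c0 ++ xE_G_F8).map exPol = P_c0 ++ xP_G_F8 := by decide +kernel

theorem x_G_F8_c1_eq : (E_c1 ++ xE_G_F8).map exPol = P_c1 ++ xP_G_F8 := by decide +kernel

theorem x_G_F8_c2_eq : (E_c2 ++ xE_G_F8).map exPol = P_c2 ++ xP_G_F8 := by decide +kernel

theorem x_G_F8_c3_eq : (E_c3 ++ xE_G_F8).map exPol = P_c3 ++ xP_G_F8 := by decide +kernel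

theorem x_G_F8_c4_eq : (E_c4 ++ xE_G_F8).map exPol = P_c4 ++ xP_G_F8 := by decide +kernel

theorem x_G_F8_free_eq : (E_free ++ xE_G_F8).map exPol = P_free ++ xP_G_F8 := by decide +kernel

/-- goal -/
def gE_G_T2 : Ex :=
  (.add (.add (.add (.mul (.c (1297)) (.v 2)) (.mul (.c (1562)) (.mul (.v 2) (.v 2)))) (.add (.mul
      (.c (1188)) (.mul (.mul (.v 2) (.v 2)) (.v 2))) (.add (.mul (.c (-10000)) (.v 11)) (.mul (.c
      (8596)) (.mul (.v 2) (.v 7)))))) (.add (.add (.mul (.c (-555)) (.mul (.mul (.mul (.v 2) (.v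
      2)) (.v 2)) (.v 2))) (.add (.mul (.c (-10372)) (.mul (.mul (.v 2) (.v 2)) (.v 7))) (.mul (.c
      (398)) (.mul (.mul (.mul (.v 2) (.v 2)) (.v 2)) (.v 7))))) (.add (.mul (.c (-10800)) (.mul
      (.mul (.v 2) (.v 7)) (.v 7))) (.add (.mul (.c (7210)) (.mul (.mul (.mul (.v 2) (.v 2)) (.v
      7)) (.v 7))) (.mul (.c (1612)) (.mul (.mul (.mul (.v 2) (.v 7)) (.v 7)) (.v 7)))))))

/-- goal -/
def gP_G_T2 : Pol :=
  [(2, 1297), (4, 1562), (8, 1188), (11, -10000), (14, 8596), (16, -555), (28, -10372), (56, 398),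
      (98, -10800), (196, 7210), (686, 1612)]

theorem g_G_T2_eq : exPol gE_G_T2 = gP_G_T2 := by decide +kernel

/-- the extra conditions: tt -/
def xE_G_T2 : List Ex := [(.add (.c (1)) (.add (.mul (.c (-1)) (.v 3)) (.mul (.c (-1)) (.v 7))))]

/-- the extra conditions -/
def xP_G_T2 : List Pol := [[(1, 1), (3, -1), (7, -1)]]

theorem x_G_T2_Tp0_eq : (E_Tp0 ++ xE_G_T2).map exPol = P_Tp0 ++ xP_G_T2 := by decide +kernel

theorem x_G_T2_TpA_eq : (E_TpA ++ xE_G_T2).map exPol = P_TpA ++ xP_G_T2 := by decide +kernel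

theorem x_G_T2_TpB_eq : (E_TpB ++ xE_G_T2).map exPol = P_TpB ++ xP_G_T2 := by decide +kernel

theorem x_G_T2_free_eq : (E_free ++ xE_G_T2).map exPol = P_free ++ xP_G_T2 := by decide +kernel

/-- goal -/
def gE_G_T4a : Ex :=
  (.add (.add (.add (.add (.c (32)) (.mul (.c (67)) (.v 3))) (.add (.mul (.c (67)) (.v 5)) (.mul
      (.c (-167)) (.mul (.v 3) (.v 3))))) (.add (.add (.mul (.c (-10000)) (.v 11)) (.mul (.c
      (-1258)) (.mul (.v 3) (.v 5)))) (.add (.mul (.c (-167)) (.mul (.v 5) (.v 5))) (.mul (.c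
      (139)) (.mul (.mul (.v 3) (.v 3)) (.v 3)))))) (.add (.add (.add (.mul (.c (6635)) (.mul (.mul
      (.v 3) (.v 3)) (.v 5))) (.mul (.c (6635)) (.mul (.mul (.v 3) (.v 5)) (.v 5)))) (.add (.mul
      (.c (97)) (.mul (.mul (.mul (.v 3) (.v 3)) (.v 3)) (.v 3))) (.mul (.c (139)) (.mul (.mul (.v
      5) (.v 5)) (.v 5))))) (.add (.add (.mul (.c (-1658)) (.mul (.mul (.mul (.v 3) (.v 3)) (.v 3))
      (.v 5))) (.mul (.c (-5360)) (.mul (.mul (.mul (.v 3) (.v 3)) (.v 5)) (.v 5)))) (.add (.mul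
      (.c (-1658)) (.mul (.mul (.mul (.v 3) (.v 5)) (.v 5)) (.v 5))) (.mul (.c (97)) (.mul (.mul
      (.mul (.v 5) (.v 5)) (.v 5)) (.v 5)))))))

/-- goal -/
def gP_G_T4a : Pol :=
  [(1, 32), (3, 67), (5, 67), (9, -167), (11, -10000), (15, -1258), (25, -167), (27, 139), (45,
      6635), (75, 6635), (81, 97), (125, 139), (135, -1658), (225, -5360), (375, -1658), (625, 97)]

theorem g_G_T4a_eq : exPol gE_G_T4a = gP_G_T4a := by decide +kernel

/-- the extra conditions: ca, cb -/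
def xE_G_T4a : List Ex := [(.add (.c (1)) (.mul (.c (-1)) (.v 3))), (.add (.c (1)) (.mul (.c (-1))
 (.v 5)))]

/-- the extra conditions -/
def xP_G_T4a : List Pol := [[(1, 1), (3, -1)], [(1, 1), (5, -1)]]

theorem x_G_T4a_Tp0_eq : (E_Tp0 ++ xE_G_T4a).map exPol = P_Tp0 ++ xP_G_T4a := by decide +kernel

theorem x_G_T4a_TpA_eq : (E_TpA ++ xE_G_T4a).map exPol = P_TpA ++ xP_G_T4a := by decide +kernel

theorem x_G_T4a_TpB_eq : (E_TpB ++ xE_G_T4a).map exPol = P_TpB ++ xP_G_T4a := by decide +kernel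

theorem x_G_T4a_free_eq : (E_free ++ xE_G_T4a).map exPol = P_free ++ xP_G_T4a := by decide +kernel

/-- goal -/
def gE_G_T4b : Ex :=
  (.add (.add (.c (168)) (.add (.mul (.c (3786)) (.v 5)) (.mul (.c (-10000)) (.v 11)))) (.add (.mul
      (.c (1108)) (.mul (.v 5) (.v 5))) (.add (.mul (.c (-1519)) (.mul (.mul (.v 5) (.v 5)) (.v
      5))) (.mul (.c (97)) (.mul (.mul (.mul (.v 5) (.v 5)) (.v 5)) (.v 5))))))

/-- goal -/
def gP_G_T4b : Pol :=
  [(1, 168), (5, 3786), (11, -10000), (25, 1108), (125, -1519), (625, 97)]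

theorem g_G_T4b_eq : exPol gE_G_T4b = gP_G_T4b := by decide +kernel

/-- the extra conditions: ca, cb -/
def xE_G_T4b : List Ex := [(.add (.c (-1)) (.v 3)), (.add (.c (1)) (.mul (.c (-1)) (.v 5)))]

/-- the extra conditions -/
def xP_G_T4b : List Pol := [[(1, -1), (3, 1)], [(1, 1), (5, -1)]]

theorem x_G_T4b_Tp0_eq : (E_Tp0 ++ xE_G_T4b).map exPol = P_Tp0 ++ xP_G_T4b := by decide +kernel

theorem x_G_T4b_TpA_eq : (E_TpA ++ xE_G_T4b).map exPol = P_TpA ++ xP_G_T4b := by decide +kernel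

theorem x_G_T4b_TpB_eq : (E_TpB ++ xE_G_T4b).map exPol = P_TpB ++ xP_G_T4b := by decide +kernel

theorem x_G_T4b_free_eq : (E_free ++ xE_G_T4b).map exPol = P_free ++ xP_G_T4b := by decide +kernel

/-- goal -/
def gE_G_T6 : Ex :=
  (.add (.add (.add (.add (.c (135)) (.mul (.c (-213)) (.v 2))) (.add (.mul (.c (5443)) (.mul (.v
      2) (.v 2))) (.mul (.c (-635)) (.v 7)))) (.add (.add (.mul (.c (-1887)) (.mul (.mul (.v 2) (.v
      2)) (.v 2))) (.mul (.c (-10000)) (.v 11))) (.add (.mul (.c (7801)) (.mul (.v 2) (.v 7)))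
      (.mul (.c (-64)) (.mul (.mul (.mul (.v 2) (.v 2)) (.v 2)) (.v 2)))))) (.add (.add (.add (.mul
      (.c (-10267)) (.mul (.mul (.v 2) (.v 2)) (.v 7))) (.mul (.c (911)) (.mul (.v 7) (.v 7))))
      (.add (.mul (.c (1969)) (.mul (.mul (.mul (.v 2) (.v 2)) (.v 2)) (.v 7))) (.mul (.c (-9704))
      (.mul (.mul (.v 2) (.v 7)) (.v 7))))) (.add (.add (.mul (.c (4804)) (.mul (.mul (.mul (.v 2)
      (.v 2)) (.v 7)) (.v 7))) (.mul (.c (176)) (.mul (.mul (.v 7) (.v 7)) (.v 7)))) (.add (.mul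
      (.c (2116)) (.mul (.mul (.mul (.v 2) (.v 7)) (.v 7)) (.v 7))) (.mul (.c (-564)) (.mul (.mul
      (.mul (.v 7) (.v 7)) (.v 7)) (.v 7)))))))

/-- goal -/
def gP_G_T6 : Pol :=
  [(1, 135), (2, -213), (4, 5443), (7, -635), (8, -1887), (11, -10000), (14, 7801), (16, -64), (28,
      -10267), (49, 911), (56, 1969), (98, -9704), (196, 4804), (343, 176), (686, 2116), (2401,
      -564)]

theorem g_G_T6_eq : exPol gE_G_T6 = gP_G_T6 := by decide +kernel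

/-- the extra conditions: tt -/
def xE_G_T6 : List Ex := [(.add (.c (1)) (.add (.mul (.c (-1)) (.v 3)) (.mul (.c (-1)) (.v 7))))]

/-- the extra conditions -/
def xP_G_T6 : List Pol := [[(1, 1), (3, -1), (7, -1)]]

theorem x_G_T6_Tp0_eq : (E_Tp0 ++ xE_G_T6).map exPol = P_Tp0 ++ xP_G_T6 := by decide +kernel

theorem x_G_T6_TpA_eq : (E_TpA ++ xE_G_T6).map exPol = P_TpA ++ xP_G_T6 := by decide +kernel

theorem x_G_T6_TpB_eq : (E_TpB ++ xE_G_T6).map exPol = P_TpB ++ xP_G_T6 := by decide +kernel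

theorem x_G_T6_free_eq : (E_free ++ xE_G_T6).map exPol = P_free ++ xP_G_T6 := by decide +kernel

end Pool.Agent.Helper62.TW
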