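import Pool.Agent.Helper83.Cert.Check

/-!
# Case trees of certificates

A tree proves `0 ≤ p` from a list of polynomials `≥ 0`: a leaf is a certificate `NN` (kernel checker
of helper83) of a multiple of `p`, `void` is a certificate that the case is empty, `split q`
distinguishes `0 ≤ q` and `0 ≤ -q`, `rule k` adds the conclusion of the `k`-th rule, whose premises
must be in the list, `cut` adds a polynomial with a certificate.
-/

set_option autoImplicit false

namespace Pool.Agent.Helper62.TW

open Pool.Agent.Helper83.Cert

/-- a rule: premises, conclusion -/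
abbrev Rule := List Pol × Pol

/-- trees -/
inductive Tree
  | leaf : ℕ → NN → Tree
  | void : NN → Tree
  | split : Pol → Tree → Tree → Tree
  | rule : ℕ → Tree → Tree
  | cut : ℕ → Pol → NN → Tree → Tree

/-- membership -/
noncomputable def memP (p : Pol) (l : List Pol) : Bool :=
  List.rec (motive := fun _ => Bool) false
    (fun a _ ih => Bool.rec (motive := fun _ => Bool) ih true (eqP a p)) l

/-- all premises are in the list -/
noncomputable def allP (ps : List Pol) (l : List Pol) : Bool :=
  List.rec (motive := fun _ => Bool) true
    (fun a _ ih => Bool.rec (motive := fun _ => Bool) false ih (memP a l)) ps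

/-- the polynomial is a negative constant -/
noncomputable def negP (p : Pol) : Bool :=
  List.rec (motive := fun _ => Bool) false (fun a l _ =>
    List.rec (motive := fun _ => Bool)
      (Bool.rec (motive := fun _ => Bool) false
        (Int.rec (motive := fun _ => Bool) (fun _ => false) (fun _ => true) a.2) (Nat.beq a.1 1))
      (fun _ _ _ => false) l) p

/-- an entry of the list of rules -/
def getR : List Rule → ℕ → Rule
  | [], _ => ([], [])
  | a :: _, 0 => a
  | _ :: l, n + 1 => getR l n

/-- the certificate `e` is a positive multiple `n` of `p` -/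
noncomputable def isMul (gs : List Pol) (n : ℕ) (e : NN) (p : Pol) : Bool :=
  Bool.rec (motive := fun _ => Bool) (eqP (toPol gs e) (mulMon (1, Int.ofNat n) p)) false
    (Nat.beq n 0)

/-- the check -/
noncomputable def chk (rules : List Rule) (p : Pol) (T : Tree) : List Pol → Bool :=
  Tree.rec (motive := fun _ => List Pol → Bool)
    (fun n e gs => isMul gs n e p)
    (fun e gs => negP (toPol gs e))
    (fun q _ _ l r gs => Bool.rec (motive := fun _ => Bool) false
      (r (mulMon (1, -1) q :: gs)) (l (q :: gs)))
    (fun k _ t gs => Bool.rec (motive := fun _ => Bool) false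
      (t ((getR rules k).2 :: gs)) (allP (getR rules k).1 gs))
    (fun n q e _ t gs => Bool.rec (motive := fun _ => Bool) false
      (t (q :: gs)) (isMul gs n e q)) T

theorem memP_mem {p : Pol} {l : List Pol} (h : memP p l = true) : p ∈ l := by
  induction l with
  | nil => exact absurd (h : false = true) Bool.false_ne_true
  | cons a l ih =>
    have e : memP p (a :: l) = Bool.rec (motive := fun _ => Bool) (memP p l) true (eqP a p) := rfl
    rw [e] at h
    cases h1 : eqP a p with
    | true => rw [eqP_eq h1]; simp
    | false =>
      rw [h1] at h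
      exact List.mem_cons_of_mem a (ih h)

theorem allP_mem {ps l : List Pol} (h : allP ps l = true) : ∀ q ∈ ps, q ∈ l := by
  induction ps with
  | nil => simp
  | cons a ps ih =>
    have e : allP (a :: ps) l = Bool.rec (motive := fun _ => Bool) false (allP ps l) (memP a l) :=
      rfl
    rw [e] at h
    cases h1 : memP a l with
    | false => rw [h1] at h; exact absurd (h : false = true) Bool.false_ne_true
    | true =>
      rw [h1] at h
      intro q hq
      rcases List.mem_cons.1 hq with rfl | hq
      · exact memP_mem h1
      · exact ih h q hq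

theorem negP_lt {y : ℕ → ℝ} {p : Pol} (h : negP p = true) : ev y p < 0 := by
  rcases p with _ | ⟨⟨k, c⟩, l⟩
  · exact absurd (h : false = true) Bool.false_ne_true
  rcases l with _ | ⟨b, l⟩
  · have e : negP [(k, c)] = Bool.rec (motive := fun _ => Bool) false
      (Int.rec (motive := fun _ => Bool) (fun _ => false) (fun _ => true) c) (Nat.beq k 1) := rfl
    rw [e] at h
    cases h1 : Nat.beq k 1 with
    | false => rw [h1] at h; exact absurd (h : false = true) Bool.false_ne_true
    | true =>
      rw [h1] at h
      rcases c with n | n
      · exact absurd (h : false = true) Bool.false_ne_true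
      · have hk : k = 1 := Nat.eq_of_beq_eq_true h1
        subst hk
        simp only [ev, evM_one]
        have : ((Int.negSucc n : ℤ) : ℝ) < 0 := by exact_mod_cast Int.negSucc_lt_zero n
        linarith
  · exact absurd (h : false = true) Bool.false_ne_true

theorem getR_mem (l : List Rule) (k : ℕ) : getR l k ∈ l ∨ getR l k = ([], []) := by
  induction l generalizing k with
  | nil => exact Or.inr rfl
  | cons a l ih =>
    cases k with
    | zero => exact Or.inl (by simp [getR])
    | succ n =>
      rcases ih n with h | h
      · exact Or.inl (List.mem_cons_of_mem a h)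
      · exact Or.inr h

theorem isMul_nonneg {gs : List Pol} {n : ℕ} {e : NN} {p : Pol} (h : isMul gs n e p = true)
    {y : ℕ → ℝ} (hy : ∀ k, 0 ≤ y k) (hg : ∀ g ∈ gs, 0 ≤ ev y g) : 0 ≤ ev y p := by
  unfold isMul at h
  cases h1 : Nat.beq n 0 with
  | true => rw [h1] at h; exact absurd (h : false = true) Bool.false_ne_true
  | false =>
    rw [h1] at h
    have h2 := ev_toPol hy hg e
    rw [eqP_eq (show eqP (toPol gs e) (mulMon (1, Int.ofNat n) p) = true from h), ev_mulMon,
      evM_one] at h2
    have hn : n ≠ 0 := fun h0 => by rw [h0] at h1; exact absurd h1 (by decide)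
    have hn' : (0 : ℝ) < (n : ℝ) := by exact_mod_cast Nat.pos_of_ne_zero hn
    have h3 : 0 ≤ (n : ℝ) * ev y p := by
      have : ((Int.ofNat n : ℤ) : ℝ) = (n : ℝ) := by rw [Int.ofNat_eq_natCast, Int.cast_natCast]
      rw [this] at h2
      linarith
    exact nonneg_of_mul_nonneg_right h3 hn'

/-- **Soundness.** -/
theorem chk_sound {rules : List Rule} {p : Pol} {y : ℕ → ℝ} (hy : ∀ k, 0 ≤ y k)
    (hr : ∀ r ∈ rules, (∀ q ∈ r.1, 0 ≤ ev y q) → 0 ≤ ev y r.2) {T : Tree} {gs : List Pol}
    (h : chk rules p T gs = true) (hg : ∀ g ∈ gs, 0 ≤ ev y g) : 0 ≤ ev y p := by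
  induction T generalizing gs with
  | leaf n e => exact isMul_nonneg (show isMul gs n e p = true from h) hy hg
  | void e =>
    exact absurd (ev_toPol hy hg e) (not_le.2 (negP_lt (show negP (toPol gs e) = true from h)))
  | split q l r ihl ihr =>
    have e : chk rules p (Tree.split q l r) gs = Bool.rec (motive := fun _ => Bool) false
      (chk rules p r (mulMon (1, -1) q :: gs)) (chk rules p l (q :: gs)) := rfl
    rw [e] at h
    cases h1 : chk rules p l (q :: gs) with
    | false => rw [h1] at h; exact absurd (h : false = true) Bool.false_ne_true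
    | true =>
      rw [h1] at h
      rcases le_total 0 (ev y q) with hq | hq
      · exact ihl h1 fun g hg' => by
          rcases List.mem_cons.1 hg' with rfl | hg'
          · exact hq
          · exact hg g hg'
      · exact ihr h fun g hg' => by
          rcases List.mem_cons.1 hg' with rfl | hg'
          · rw [ev_mulMon, evM_one]
            push_cast
            linarith
          · exact hg g hg'
  | rule k t ih =>
    have e : chk rules p (Tree.rule k t) gs = Bool.rec (motive := fun _ => Bool) false
      (chk rules p t ((getR rules k).2 :: gs)) (allP (getR rules k).1 gs) := rfl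
    rw [e] at h
    cases h1 : allP (getR rules k).1 gs with
    | false => rw [h1] at h; exact absurd (h : false = true) Bool.false_ne_true
    | true =>
      rw [h1] at h
      refine ih h fun g hg' => ?_
      rcases List.mem_cons.1 hg' with rfl | hg'
      · rcases getR_mem rules k with hm | hm
        · exact hr _ hm fun q hq => hg q (allP_mem h1 q hq)
        · rw [hm]; simp [ev]
      · exact hg g hg'
  | cut n q e' t ih =>
    have e : chk rules p (Tree.cut n q e' t) gs = Bool.rec (motive := fun _ => Bool) false
      (chk rules p t (q :: gs)) (isMul gs n e' q) := rfl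
    rw [e] at h
    cases h1 : isMul gs n e' q with
    | false => rw [h1] at h; exact absurd (h : false = true) Bool.false_ne_true
    | true =>
      rw [h1] at h
      refine ih h fun g hg' => ?_
      rcases List.mem_cons.1 hg' with rfl | hg'
      · exact isMul_nonneg h1 hy hg
      · exact hg g hg'

/-! ### Expressions -/

/-- rules as expressions -/
abbrev ERule := List Ex × Ex

/-- the polynomials of a rule -/
noncomputable def rulePol (r : ERule) : Rule := (r.1.map exPol, exPol r.2)

/-- **Trees for expressions.** -/
theorem tree_cert {rules : List ERule} {R : List Rule} {p : Ex} {P : Pol} {gs : List Ex}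
    {G : List Pol} (eR : rules.map rulePol = R) (eP : exPol p = P) (eG : gs.map exPol = G)
    {T : Tree} (h : chk R P T G = true) {y : ℕ → ℝ} (hy : ∀ k, 0 ≤ y k)
    (hr : ∀ r ∈ rules, (∀ q ∈ r.1, 0 ≤ exVal y q) → 0 ≤ exVal y r.2)
    (hg : ∀ g ∈ gs, 0 ≤ exVal y g) : 0 ≤ exVal y p := by
  subst eR eP eG
  rw [← ev_exPol]
  refine chk_sound hy (fun r hr' => ?_) h fun g hg' => ?_
  · obtain ⟨a, ha, rfl⟩ := List.mem_map.1 hr'
    intro hq
    have := hr a ha fun q hq' => by
      rw [← ev_exPol]
      exact hq _ (List.mem_map.2 ⟨q, hq', rfl⟩)
    rw [← ev_exPol] at this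
    exact this
  · obtain ⟨a, ha, rfl⟩ := List.mem_map.1 hg'
    rw [ev_exPol]
    exact hg a ha

end Pool.Agent.Helper62.TW
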