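import Pool.Agent.Helper62.TW.Goals

/-!
# Case trees, part 10 (generated)
-/

set_option autoImplicit false
set_option maxRecDepth 100000
set_option linter.all false

namespace Pool.Agent.Helper62.TW

open Pool.Agent.Helper83.Cert

theorem t_A_F5a_c2 : chk ROp gP_A_F5a
 (.split [(1, -69), (3, 100)]
 (.rule 5 (.rule 6 (.cut 1 [(1, 3), (3, -2)] (.add (.add (.mul (.g 8) (.pp [(1, 1)])) (.mul (.g 13)
 (.pp [(1, 1)]))) (.add (.mul (.g 5) (.pp [(1, 1)])) (.mul (.g 7) (.pp [(1, 1)])))) (.rule 8 (.leaf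
 60000000 (.add (.add (.add (.add (.mul (.g 9) (.add (.mul (.g 5) (.add (.add (.pp [(1,
 67108800000)]) (.mul (.g 6) (.add (.add (.mul (.g 5) (.pp [(1, 22488600000)])) (.mul (.g 6) (.pp
 [(1, 63526200000)]))) (.add (.mul (.g 9) (.pp [(1, 16389000000)])) (.mul (.g 18) (.pp [(1,
 265317000000)])))))) (.add (.mul (.g 5) (.add (.pp [(1, 45285000000)]) (.mul (.g 9) (.pp [(1,
 284400000)])))) (.mul (.g 7) (.add (.mul (.g 4) (.pp [(1, 6775512000)])) (.mul (.g 7) (.pp [(1,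
 39607200000)]))))))) (.add (.mul (.g 7) (.add (.mul (.g 6) (.add (.mul (.g 6) (.pp [(1,
 36448800000)])) (.mul (.g 9) (.pp [(1, 195523800000)])))) (.add (.mul (.g 7) (.add (.pp [(1,
 51981600000)]) (.mul (.g 15) (.pp [(1, 311310600000)])))) (.mul (.g 4) (.mul (.g 15) (.pp [(1,
 2870124000)])))))) (.mul (.g 13) (.pp [(1, 69695100000)]))))) (.mul (.g 18) (.add (.add (.mul (.g
 11) (.add (.mul (.pp [(1, 3318480)]) (.sq [(1, 5), (2, 63), (3, 100), (5, 48)])) (.mul (.g 13)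
 (.add (.mul (.g 4) (.pp [(1, 616005000)])) (.mul (.g 11) (.pp [(1, 4557300000)])))))) (.mul (.g 7)
 (.add (.mul (.g 5) (.mul (.g 18) (.pp [(1, 47152800000)]))) (.mul (.g 12) (.mul (.g 13) (.pp [(1,
 547125000)])))))) (.add (.mul (.g 12) (.pp [(1, 14691480000)])) (.mul (.g 15) (.pp [(1,
 65073000000)])))))) (.add (.mul (.g 15) (.add (.mul (.g 7) (.add (.mul (.g 4) (.add (.mul (.g 5)
 (.pp [(1, 96546000)])) (.mul (.g 7) (.pp [(1, 663690000)])))) (.mul (.g 6) (.mul (.g 7) (.pp [(1,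
 169130400000)]))))) (.mul (.g 15) (.add (.mul (.g 5) (.mul (.g 5) (.pp [(1, 39900000000)]))) (.mul
 (.g 11) (.mul (.g 11) (.pp [(1, 34185000000)]))))))) (.add (.mul (.g 12) (.add (.add (.mul (.pp
 [(1, 463305)]) (.sq [(2, -54), (3, -29), (5, 100)])) (.mul (.g 4) (.pp [(1, 67460400)]))) (.add
 (.mul (.g 5) (.mul (.pp [(1, 145086)]) (.sq [(1, 66), (2, -10), (3, 100), (5, -75)]))) (.mul (.g
 6) (.mul (.g 6) (.mul (.g 13) (.pp [(1, 780360000)]))))))) (.mul (.g 6) (.add (.mul (.g 7) (.mul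
 (.g 14) (.mul (.g 14) (.pp [(1, 5024592000)])))) (.mul (.g 17) (.mul (.pp [(1, 1132440)]) (.sq
 [(1, -23), (2, 33), (3, 100), (5, -91)])))))))) (.add (.add (.mul (.g 0) (.pp [(1, 60000000)]))
 (.add (.mul (.g 2) (.pp [(1, 200000000000)])) (.mul (.g 3) (.pp [(1, 200000000000)])))) (.add
 (.mul (.g 4) (.mul (.g 4) (.mul (.g 5) (.mul (.g 5) (.pp [(1, 5670300)]))))) (.add (.mul (.g 11)
 (.mul (.g 11) (.mul (.g 13) (.pp [(1, 136611900000)])))) (.mul (.g 16) (.pp [(1, 200000000)]))))))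
 (.pp [(1, 15597411600), (2, 6161544), (3, 6189240), (4, 5501160), (5, 6126000), (6, 5582340), (8,
 6701720), (9, 6415305), (10, 6196080), (12, 5017720), (15, 6557760), (16, 5772000), (18, 7184980),
 (20, 5915320), (24, 5988000), (25, 6081600), (27, 5245900), (30, 7225800), (36, 6467160), (40,
 5960880), (45, 5308740), (50, 5284630), (54, 5304000), (60, 6159120), (75, 5313840), (81,
 6600000), (90, 5313360), (100, 6175080), (125, 6262480), (135, 6192000), (150, 6032040), (225,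
 6143640), (250, 6114120), (375, 5785920), (625, 5977920)])))))))
 (.rule 5 (.rule 6 (.cut 2 [(1, -7), (3, 50)] (.add (.mul (.g 4) (.pp [(1, 65)])) (.mul (.g 12)
 (.pp [(1, 7)]))) (.rule 7 (.leaf 300000000 (.add (.add (.add (.add (.mul (.g 18) (.add (.add (.mul
 (.g 7) (.add (.mul (.pp [(1, 26140800)]) (.sq [(1, 74), (2, 100), (3, 29), (5, -58)])) (.add (.mul
 (.g 10) (.mul (.g 11) (.pp [(1, 76050000000)]))) (.mul (.g 12) (.mul (.g 13) (.pp [(1,
 26721525000)])))))) (.add (.mul (.g 4) (.add (.pp [(1, 3576900000)]) (.mul (.g 11) (.mul (.g 11)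
 (.pp [(1, 344250000)]))))) (.mul (.g 12) (.add (.pp [(1, 38422650000)]) (.mul (.pp [(1, 174480)])
 (.sq [(1, -73), (2, -71), (3, -44), (5, 100)])))))) (.add (.add (.mul (.g 5) (.mul (.g 6) (.mul
 (.g 9) (.pp [(1, 292836000000)])))) (.mul (.g 13) (.pp [(1, 22758000000)]))) (.add (.mul (.g 17)
 (.mul (.pp [(1, 13774500)]) (.sq [(1, -41), (2, -100), (3, 100), (5, 100)]))) (.mul (.g 18) (.mul
 (.pp [(1, 4968300)]) (.sq [(1, 63), (2, 100), (3, 58), (5, 31)]))))))) (.mul (.g 13) (.add (.add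
 (.mul (.g 13) (.add (.mul (.g 7) (.pp [(1, 683250750000)])) (.add (.mul (.g 10) (.mul (.g 15) (.pp
 [(1, 98877000000)]))) (.mul (.g 13) (.pp [(1, 17645625000)]))))) (.mul (.g 6) (.add (.mul (.g 6)
 (.mul (.g 9) (.pp [(1, 610353000000)]))) (.mul (.g 12) (.mul (.g 15) (.pp [(1, 19346400000)]))))))
 (.add (.mul (.g 9) (.pp [(1, 330579000000)])) (.add (.mul (.g 11) (.mul (.g 11) (.mul (.g 15) (.pp
 [(1, 86460000000)])))) (.mul (.g 12) (.pp [(1, 52390350000)]))))))) (.add (.mul (.g 14) (.add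
 (.add (.mul (.g 4) (.add (.pp [(1, 1579590000)]) (.mul (.g 6) (.mul (.g 6) (.pp [(1,
 1007928000)]))))) (.mul (.g 14) (.add (.mul (.g 5) (.mul (.g 14) (.pp [(1, 15951144000)]))) (.mul
 (.g 11) (.mul (.g 11) (.pp [(1, 7093080000)])))))) (.add (.mul (.g 6) (.mul (.g 6) (.mul (.g 9)
 (.pp [(1, 188561400000)])))) (.mul (.g 12) (.pp [(1, 15114630000)]))))) (.add (.mul (.g 7) (.add
 (.mul (.g 6) (.add (.mul (.pp [(1, 23962500)]) (.sq [(1, -58), (2, 58), (3, 100), (5, -69)]))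
 (.add (.mul (.g 4) (.mul (.g 7) (.pp [(1, 6505830000)]))) (.mul (.g 9) (.mul (.g 9) (.pp [(1,
 69735000000)])))))) (.mul (.g 9) (.mul (.g 9) (.mul (.g 11) (.pp [(1, 664386000000)])))))) (.mul
 (.g 10) (.add (.mul (.g 11) (.add (.mul (.pp [(1, 92504400)]) (.sq [(1, -32), (2, -22), (3, 25),
 (5, 50)])) (.mul (.g 12) (.pp [(1, 67713900000)])))) (.mul (.g 12) (.mul (.pp [(1, 1109445)]) (.sq
 [(1, -38), (2, -55), (3, 83), (5, 100)])))))))) (.add (.add (.mul (.g 9) (.add (.mul (.pp [(1,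
 55145400)]) (.sq [(2, 100), (3, 75), (5, 16)])) (.mul (.g 11) (.mul (.pp [(1, 11186400)]) (.sq
 [(1, -8), (2, 100), (3, 68), (5, 39)]))))) (.add (.mul (.g 0) (.pp [(1, 600000000)])) (.mul (.g 2)
 (.pp [(1, 1000000000000)])))) (.add (.mul (.g 3) (.pp [(1, 1000000000000)])) (.add (.mul (.g 4)
 (.mul (.g 17) (.mul (.pp [(1, 77832)]) (.sq [(1, -36), (2, 100), (3, 13), (5, 65)])))) (.mul (.g
 16) (.pp [(1, 1000000000)])))))) (.pp [(1, 49370246532), (2, 30500040), (3, 30917676), (4,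
 27292545), (5, 31331040), (6, 29403270), (8, 30303025), (9, 29816265), (10, 31423380), (12,
 34729925), (15, 25309200), (16, 29552100), (18, 32774795), (20, 32311655), (24, 30358800), (25,
 27306600), (27, 30418007), (30, 26263290), (36, 31254600), (40, 30322200), (45, 29877255), (50,
 23903000), (54, 24932400), (60, 29495400), (75, 33828000), (81, 31221300), (90, 24916200), (100,
 29511300), (125, 33320000), (135, 32161800), (150, 34933800), (225, 31479300), (250, 33374400),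
 (375, 27139500), (625, 28614900)]))))))))
 (P_c2 ++ xP_A_F5a) = true := by decide +kernel

theorem t_A_F5b_Op0 : chk ROp gP_A_F5b
 (.cut 1 [(2, -1), (3, 1)] (.add (.mul (.g 10) (.pp [(1, 1)])) (.mul (.g 4) (.pp [(1, 1)]))) (.rule
 1 (.cut 1 [(2, 1), (5, -1)] (.add (.mul (.g 12) (.pp [(1, 1)])) (.mul (.g 7) (.pp [(1, 1)])))
 (.rule 2 (.cut 11 [(1, -69), (3, 100)] (.add (.mul (.g 1) (.pp [(1, 620)])) (.add (.mul (.g 11)
 (.pp [(1, 31)])) (.mul (.g 14) (.pp [(1, 480)])))) (.cut 1 [(1, 3), (3, -2)] (.add (.add (.mul (.g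
 10) (.pp [(1, 1)])) (.mul (.g 13) (.pp [(1, 1)]))) (.add (.mul (.g 7) (.pp [(1, 1)])) (.mul (.g 9)
 (.pp [(1, 1)])))) (.rule 8 (.leaf 3000000 (.add (.add (.add (.add (.mul (.g 9) (.add (.add (.mul
 (.g 11) (.add (.pp [(1, 8332080000)]) (.add (.mul (.g 9) (.add (.mul (.g 9) (.pp [(1,
 662550000)])) (.mul (.g 13) (.pp [(1, 1324800000)])))) (.mul (.g 11) (.add (.mul (.g 7) (.pp [(1,
 5331780000)])) (.mul (.g 11) (.pp [(1, 5664000000)]))))))) (.add (.mul (.g 8) (.add (.mul (.g 17)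
 (.add (.mul (.g 8) (.pp [(1, 4677150000)])) (.mul (.g 18) (.pp [(1, 180000)])))) (.add (.mul (.g
 13) (.mul (.g 13) (.pp [(1, 331380000)]))) (.mul (.g 18) (.mul (.g 18) (.pp [(1,
 4674090000)])))))) (.mul (.g 15) (.add (.pp [(1, 874230000)]) (.add (.mul (.g 9) (.mul (.g 9) (.pp
 [(1, 5005800000)]))) (.mul (.g 13) (.mul (.g 17) (.pp [(1, 662910000)])))))))) (.add (.add (.mul
 (.g 7) (.mul (.g 12) (.add (.pp [(1, 18004260000)]) (.mul (.g 7) (.pp [(1, 331230000)]))))) (.mul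
 (.g 9) (.mul (.g 9) (.mul (.g 9) (.pp [(1, 392700000)]))))) (.add (.mul (.g 13) (.mul (.g 13) (.pp
 [(1, 3348540000)]))) (.mul (.g 18) (.pp [(1, 11379390000)])))))) (.mul (.g 8) (.add (.add (.mul
 (.g 8) (.add (.mul (.g 8) (.add (.mul (.g 17) (.pp [(1, 60000)])) (.mul (.g 18) (.pp [(1,
 4345560000)])))) (.add (.mul (.g 15) (.add (.pp [(1, 4348110000)]) (.mul (.g 13) (.pp [(1,
 360000)])))) (.mul (.g 7) (.mul (.g 11) (.pp [(1, 180000)])))))) (.mul (.g 17) (.add (.pp [(1,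
 5853540000)]) (.mul (.g 13) (.pp [(1, 1950000)]))))) (.add (.mul (.g 11) (.pp [(1, 1327020000)]))
 (.mul (.g 18) (.pp [(1, 3135150000)])))))) (.add (.mul (.g 7) (.add (.add (.mul (.g 18) (.add
 (.mul (.g 7) (.add (.mul (.g 11) (.pp [(1, 240000)])) (.mul (.g 18) (.pp [(1, 993420000)]))))
 (.mul (.g 13) (.mul (.g 18) (.pp [(1, 1986930000)]))))) (.mul (.g 12) (.add (.pp [(1, 661560000)])
 (.mul (.g 12) (.mul (.g 14) (.pp [(1, 6000)])))))) (.add (.mul (.g 11) (.mul (.pp [(1, 57)]) (.sq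
 [(1, -4), (2, 57), (3, 100), (5, -20)]))) (.mul (.g 13) (.mul (.g 15) (.mul (.g 17) (.pp [(1,
 780000)]))))))) (.mul (.g 0) (.pp [(1, 3000000)])))) (.add (.add (.mul (.g 3) (.pp [(1,
 10000000000)])) (.mul (.g 5) (.pp [(1, 10000000000)]))) (.add (.mul (.g 11) (.mul (.g 11) (.pp
 [(1, 330900000)]))) (.add (.mul (.g 16) (.pp [(1, 10000000000)])) (.mul (.g 17) (.pp [(1,
 1616070000)])))))) (.pp [(1, 1018170000), (2, 293088), (3, 300000), (4, 284904), (5, 300000), (6,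
 297600), (8, 322815), (9, 300000), (10, 302880), (12, 276600), (15, 330000), (16, 305193), (18,
 294000), (20, 301080), (24, 289800), (25, 300000), (27, 300000), (30, 276000), (36, 330000), (40,
 260040), (45, 300000), (50, 271200), (54, 300000), (60, 342000), (75, 300000), (81, 300000), (90,
 270000), (100, 322800), (125, 310000), (135, 300000), (150, 270000), (225, 330000), (250, 300000),
 (375, 330000), (625, 300000)]))))))))))
 (P_Op0 ++ xP_A_F5b) = true := by decide +kernel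

theorem t_A_F5c_Op0 : chk ROp gP_A_F5c
 (.split [(1, -69), (3, 100)]
 (.cut 1 [(2, 1), (3, -1)] (.add (.mul (.g 12) (.pp [(1, 1)])) (.mul (.g 6) (.pp [(1, 1)]))) (.rule
 0 (.cut 1 [(2, -1), (5, 1)] (.add (.mul (.g 14) (.pp [(1, 1)])) (.mul (.g 7) (.pp [(1, 1)])))
 (.rule 3 (.cut 31 [(1, 3), (3, -2)] (.add (.mul (.g 3) (.pp [(1, 162)])) (.add (.mul (.g 9) (.pp
 [(1, 162)])) (.mul (.g 4) (.pp [(1, 1)])))) (.rule 8 (.leaf 60000000 (.add (.add (.add (.add (.mul
 (.g 7) (.add (.add (.mul (.g 12) (.add (.add (.pp [(1, 24000000)]) (.mul (.pp [(1, 6240)]) (.sq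
 [(1, 44), (2, 17), (3, 50), (5, 13)]))) (.add (.mul (.g 8) (.pp [(1, 599829600000)])) (.add (.mul
 (.g 9) (.mul (.g 18) (.pp [(1, 20400000)]))) (.mul (.g 13) (.pp [(1, 32400000)])))))) (.mul (.g 7)
 (.add (.mul (.g 8) (.add (.mul (.g 11) (.pp [(1, 9600000)])) (.mul (.g 15) (.pp [(1,
 10200000)])))) (.add (.mul (.g 7) (.mul (.g 11) (.pp [(1, 11400000)]))) (.mul (.g 9) (.mul (.g 15)
 (.pp [(1, 37800000)]))))))) (.add (.mul (.g 9) (.mul (.g 11) (.add (.pp [(1, 79800000)]) (.mul (.g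
 15) (.pp [(1, 64800000)]))))) (.mul (.g 6) (.mul (.g 8) (.mul (.g 8) (.pp [(1, 1392000)])))))))
 (.mul (.g 8) (.add (.add (.mul (.g 8) (.add (.mul (.pp [(1, 240)]) (.sq [(1, 71), (2, -38), (3,
 100), (5, -38)])) (.add (.mul (.g 8) (.add (.mul (.g 8) (.pp [(1, 7252800000)])) (.mul (.g 11)
 (.pp [(1, 131400000)])))) (.mul (.g 6) (.pp [(1, 2902776000)]))))) (.mul (.g 11) (.add (.pp [(1,
 599877000000)]) (.mul (.g 9) (.mul (.g 9) (.pp [(1, 600000)])))))) (.add (.mul (.g 6) (.mul (.g 6)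
 (.pp [(1, 1704000)]))) (.mul (.g 15) (.mul (.g 15) (.pp [(1, 102300000000)]))))))) (.add (.mul (.g
 12) (.add (.add (.pp [(1, 163200000)]) (.add (.mul (.pp [(1, 6600000)]) (.sq [(2, 1), (3, 1), (5,
 1)])) (.mul (.g 9) (.pp [(1, 10200000)])))) (.add (.mul (.g 13) (.mul (.pp [(1, 960)]) (.sq [(1,
 50), (2, -6), (3, -11), (5, 41)]))) (.add (.mul (.g 14) (.mul (.pp [(1, 21)]) (.sq [(1, -21), (2,
 -51), (3, 45), (5, 100)]))) (.mul (.g 18) (.mul (.pp [(1, 4200000)]) (.sq [(2, 1), (3, -1)])))))))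
 (.add (.mul (.g 9) (.add (.mul (.g 6) (.add (.mul (.g 9) (.add (.pp [(1, 24000)]) (.mul (.g 9)
 (.pp [(1, 42000)])))) (.mul (.g 13) (.mul (.g 13) (.pp [(1, 54000)]))))) (.mul (.g 11) (.pp [(1,
 147000000)])))) (.mul (.g 11) (.add (.pp [(1, 209400000)]) (.add (.mul (.g 11) (.mul (.g 14) (.mul
 (.g 14) (.pp [(1, 12000)])))) (.mul (.g 18) (.mul (.pp [(1, 3600)]) (.sq [(1, -13), (2, 50), (3,
 26), (5, 21)]))))))))) (.add (.add (.mul (.g 0) (.pp [(1, 60000000)])) (.add (.mul (.g 2) (.pp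
 [(1, 200000000000)])) (.mul (.g 4) (.pp [(1, 200000000000)])))) (.add (.mul (.g 15) (.pp [(1,
 10055400000)])) (.add (.mul (.g 16) (.pp [(1, 200000000000)])) (.mul (.g 18) (.mul (.g 18) (.mul
 (.pp [(1, 60)]) (.sq [(1, 100), (3, 89), (5, -27)])))))))) (.pp [(1, 2891119749), (2, 5528367),
 (3, 6648621), (4, 4937607), (5, 5807631), (6, 5804802), (8, 5683809), (9, 5467455), (10, 5267562),
 (12, 6846801), (15, 3889410), (16, 5923620), (18, 5606655), (20, 7666431), (24, 6340320), (25,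
 5814480), (27, 6792815), (30, 5276430), (36, 5757240), (40, 6435000), (45, 7445895), (50,
 5686320), (54, 5889600), (60, 3496920), (75, 8851440), (81, 5766660), (90, 7532520), (100,
 4716900), (125, 6516120), (135, 5471400), (150, 7728360), (225, 5186760), (250, 6658320), (375,
 5229960), (625, 5770020)])))))))))
 (.split [(1, -7), (3, 50)]
 (.cut 1 [(2, 1), (3, -1)] (.add (.mul (.g 7) (.pp [(1, 1)])) (.mul (.g 13) (.pp [(1, 1)]))) (.rule
 0 (.cut 1 [(2, -1), (5, 1)] (.add (.mul (.g 15) (.pp [(1, 1)])) (.mul (.g 8) (.pp [(1, 1)])))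
 (.rule 3 (.rule 7 (.leaf 6000000000 (.add (.add (.add (.add (.mul (.g 12) (.add (.add (.pp [(1,
 1851900000000)]) (.mul (.g 7) (.add (.add (.pp [(1, 1079760000000)]) (.mul (.g 8) (.add (.pp [(1,
 22208820000000)]) (.mul (.g 7) (.pp [(1, 6891360000000)]))))) (.add (.mul (.g 9) (.add (.mul (.g
 9) (.pp [(1, 838620000000)])) (.mul (.g 13) (.pp [(1, 393060000000)])))) (.add (.mul (.g 5) (.mul
 (.g 15) (.pp [(1, 251985600000)]))) (.mul (.g 13) (.pp [(1, 213480000000)]))))))) (.add (.mul (.g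
 9) (.add (.pp [(1, 362940000000)]) (.add (.mul (.g 9) (.add (.mul (.g 9) (.pp [(1, 97260000000)]))
 (.mul (.g 11) (.pp [(1, 2258100000000)])))) (.mul (.g 8) (.mul (.g 18) (.pp [(1,
 3180000000)])))))) (.add (.mul (.g 8) (.pp [(1, 13892280000000)])) (.mul (.g 12) (.mul (.pp [(1,
 13380000)]) (.sq [(1, 81), (2, 100), (3, 67), (5, 85)]))))))) (.mul (.g 11) (.add (.add (.pp [(1,
 1636320000000)]) (.mul (.g 7) (.add (.mul (.g 7) (.add (.pp [(1, 537540000000)]) (.add (.mul (.g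
 7) (.pp [(1, 3000000000)])) (.mul (.g 8) (.pp [(1, 10545540000000)]))))) (.mul (.g 11) (.add (.mul
 (.g 8) (.pp [(1, 12158880000000)])) (.mul (.g 14) (.pp [(1, 7551000000)]))))))) (.add (.mul (.g 8)
 (.add (.pp [(1, 34597800000000)]) (.add (.mul (.pp [(1, 689424000)]) (.sq [(1, 81), (2, -100), (3,
 100), (5, 29)])) (.mul (.g 8) (.mul (.g 8) (.pp [(1, 887400000000)])))))) (.add (.mul (.g 9) (.add
 (.mul (.g 5) (.mul (.g 18) (.pp [(1, 46564800000)]))) (.mul (.g 11) (.pp [(1, 1176720000000)]))))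
 (.mul (.g 13) (.mul (.pp [(1, 115842000)]) (.sq [(1, -36), (2, 13), (3, 57), (5, 100)]))))))))
 (.add (.mul (.g 6) (.add (.add (.mul (.g 5) (.add (.mul (.g 5) (.mul (.g 18) (.pp [(1,
 4818240)]))) (.mul (.g 6) (.pp [(1, 20535600)])))) (.mul (.g 9) (.mul (.pp [(1, 1240140)]) (.sq
 [(1, 15), (2, 29), (3, 100), (5, -84)])))) (.add (.mul (.g 14) (.mul (.pp [(1, 47871)]) (.sq [(1,
 5), (2, 19), (3, 100), (5, -40)]))) (.mul (.g 18) (.mul (.pp [(1, 503820)]) (.sq [(1, 15), (2,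
 28), (3, 100), (5, -96)])))))) (.mul (.g 8) (.add (.mul (.pp [(1, 1543350000)]) (.sq [(1, -49),
 (2, 75), (3, 100), (5, -49)])) (.add (.mul (.g 9) (.mul (.pp [(1, 327978000)]) (.sq [(1, 100), (2,
 -65), (3, 86), (5, -56)]))) (.mul (.g 14) (.mul (.pp [(1, 5643600)]) (.sq [(1, 100), (2, -71), (3,
 62), (5, -27)])))))))) (.add (.add (.mul (.g 0) (.pp [(1, 12000000000)])) (.mul (.g 1) (.pp [(1,
 20000000000000)]))) (.add (.mul (.g 3) (.pp [(1, 20000000000000)])) (.add (.mul (.g 5) (.mul (.g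
 13) (.mul (.pp [(1, 4716840)]) (.sq [(1, 100), (2, -74), (3, 71), (5, -24)])))) (.mul (.g 16) (.pp
 [(1, 20000000000000)])))))) (.pp [(1, 61239233415), (2, 643527990), (3, 628320000), (4,
 726491571), (5, 636463260), (6, 708126600), (8, 630873900), (9, 496044000), (10, 572724000), (12,
 579407640), (15, 550074000), (16, 642702000), (18, 507776280), (20, 660675960), (24, 623136000),
 (25, 523920480), (27, 611580680), (30, 365472960), (36, 520260000), (40, 568098000), (45,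
 631824840), (50, 481978080), (54, 676212000), (60, 537246000), (75, 603673440), (81, 597690000),
 (90, 574698000), (100, 578700000), (125, 676856640), (135, 640374000), (150, 671712000), (225,
 732288000), (250, 621000000), (375, 583608000), (625, 589500000)]))))))))
 (.split [(1, -1), (2, 2)]
 (.cut 2750 [(2, 1), (3, -1)] (.add (.mul (.g 0) (.pp [(1, 1375)])) (.add (.mul (.g 1) (.pp [(1,
 19)])) (.mul (.g 2) (.pp [(1, 18)])))) (.rule 0 (.cut 450 [(2, -1), (5, 1)] (.add (.mul (.g 11)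
 (.pp [(1, 310)])) (.add (.mul (.g 12) (.pp [(1, 7)])) (.mul (.g 3) (.pp [(1, 9)])))) (.rule 3
 (.leaf 1500000000 (.add (.add (.add (.add (.mul (.g 8) (.add (.add (.add (.pp [(1,
 3405810000000)]) (.mul (.g 5) (.add (.add (.pp [(1, 315726900000)]) (.mul (.pp [(1, 133170)]) (.sq
 [(1, 59), (2, 100), (3, 29), (5, 90)]))) (.add (.mul (.g 6) (.mul (.g 7) (.pp [(1, 16140000)])))
 (.mul (.g 8) (.mul (.g 18) (.pp [(1, 3338100000)]))))))) (.add (.mul (.g 11) (.add (.add (.pp [(1,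
 11795970000000)]) (.mul (.g 4) (.mul (.g 4) (.pp [(1, 1038750000)])))) (.add (.mul (.g 8) (.mul
 (.g 8) (.pp [(1, 325470000000)]))) (.mul (.g 12) (.mul (.g 18) (.pp [(1, 660000000)])))))) (.mul
 (.g 9) (.add (.pp [(1, 8610000000)]) (.add (.mul (.g 6) (.mul (.g 15) (.pp [(1, 136800000)])))
 (.mul (.g 12) (.mul (.g 12) (.pp [(1, 870000000)])))))))) (.add (.add (.mul (.g 7) (.add (.mul (.g
 7) (.mul (.g 15) (.pp [(1, 44415000000)]))) (.mul (.g 12) (.pp [(1, 14966820000000)])))) (.mul (.g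
 8) (.mul (.g 8) (.pp [(1, 9573870000000)])))) (.add (.mul (.g 12) (.mul (.pp [(1, 354000)]) (.sq
 [(1, -31), (2, -10), (3, -73), (5, 100)]))) (.mul (.g 14) (.mul (.pp [(1, 15750)]) (.sq [(1, 70),
 (2, 7), (3, 96), (5, 100)]))))))) (.mul (.g 12) (.add (.add (.pp [(1, 7320000000)]) (.mul (.pp
 [(1, 69000)]) (.sq [(2, 100), (3, 100), (5, 99)]))) (.add (.mul (.g 7) (.add (.mul (.pp [(1,
 798000)]) (.sq [(1, 44), (2, 17), (3, 50), (5, 13)])) (.add (.mul (.g 4) (.mul (.g 11) (.pp [(1,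
 187500000)]))) (.mul (.g 13) (.mul (.g 18) (.pp [(1, 75000000)])))))) (.mul (.g 9) (.add (.pp [(1,
 525000000)]) (.add (.mul (.pp [(1, 15000)]) (.sq [(1, 53), (2, 93), (3, 60), (5, -100)])) (.mul
 (.g 9) (.pp [(1, 240000000)]))))))))) (.add (.mul (.g 11) (.add (.add (.pp [(1, 460725000000)])
 (.mul (.g 7) (.add (.pp [(1, 8685000000)]) (.mul (.g 7) (.mul (.g 15) (.pp [(1, 2550000000)]))))))
 (.add (.mul (.g 9) (.add (.pp [(1, 3810000000)]) (.mul (.pp [(1, 55500)]) (.sq [(1, 100), (2,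
 -17), (3, 87), (5, -81)])))) (.mul (.g 4) (.mul (.pp [(1, 15000)]) (.sq [(1, 19), (2, -15), (3,
 -60), (5, 100)])))))) (.mul (.g 5) (.add (.mul (.g 5) (.mul (.pp [(1, 7437)]) (.sq [(1, 67), (2,
 77), (3, 100), (5, 47)]))) (.add (.mul (.g 7) (.pp [(1, 62773800000)])) (.mul (.g 9) (.mul (.g 9)
 (.mul (.g 18) (.pp [(1, 13500000)]))))))))) (.add (.add (.mul (.g 0) (.pp [(1, 5000000000000)]))
 (.mul (.g 2) (.pp [(1, 5000000000000)]))) (.add (.mul (.g 7) (.mul (.g 7) (.mul (.g 9) (.mul (.g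
 14) (.pp [(1, 38250000)]))))) (.mul (.g 16) (.pp [(1, 5000000000000)]))))) (.pp [(1,
 115324565043), (2, 161163666), (3, 134328510), (4, 135514323), (5, 149791926), (6, 134373000), (8,
 145845000), (9, 156791820), (10, 138389706), (12, 148754850), (15, 158047200), (16, 151128000),
 (18, 143091000), (19, 15000000000000), (20, 150385500), (24, 138057000), (25, 148477683), (27,
 154421210), (30, 159565200), (36, 161152500), (40, 139210500), (45, 170957700), (50, 161904000),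
 (54, 169854000), (60, 154047000), (75, 127880100), (81, 158224500), (90, 162244500), (100,
 164436000), (125, 148633500), (135, 163896000), (150, 149445000), (225, 170617500), (250,
 144997500), (375, 165000000), (625, 150000000)])))))))
 (.cut 1 [(2, 1), (3, -1)] (.add (.mul (.g 8) (.pp [(1, 1)])) (.mul (.g 14) (.pp [(1, 1)]))) (.rule
 0 (.cut 450 [(2, -1), (5, 1)] (.add (.mul (.g 11) (.pp [(1, 310)])) (.add (.mul (.g 12) (.pp [(1,
 7)])) (.mul (.g 3) (.pp [(1, 9)])))) (.rule 3 (.leaf 1500000 (.add (.add (.add (.add (.mul (.g 7)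
 (.add (.add (.mul (.g 7) (.add (.pp [(1, 97755000)]) (.add (.mul (.g 5) (.add (.mul (.g 4) (.pp
 [(1, 966600)])) (.add (.mul (.g 8) (.pp [(1, 5133300)])) (.mul (.g 18) (.pp [(1, 4310100)])))))
 (.mul (.g 9) (.add (.mul (.g 12) (.pp [(1, 16905000)])) (.mul (.g 18) (.pp [(1, 12720000)])))))))
 (.mul (.g 4) (.add (.add (.mul (.g 4) (.mul (.g 8) (.pp [(1, 14036250)]))) (.mul (.g 6) (.mul (.g
 18) (.pp [(1, 567900)])))) (.add (.mul (.g 9) (.mul (.g 9) (.pp [(1, 6735000)]))) (.mul (.g 13)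
 (.mul (.g 13) (.pp [(1, 2377500)]))))))) (.add (.mul (.g 8) (.add (.mul (.g 8) (.mul (.g 8) (.pp
 [(1, 1775205000)]))) (.mul (.g 12) (.pp [(1, 14175360000)])))) (.add (.mul (.g 9) (.add (.mul (.g
 9) (.mul (.g 12) (.pp [(1, 91920000)]))) (.mul (.g 13) (.mul (.g 18) (.pp [(1, 59910000)])))))
 (.mul (.g 6) (.mul (.g 13) (.mul (.g 15) (.pp [(1, 2310900)])))))))) (.mul (.g 8) (.add (.add (.pp
 [(1, 8317620000)]) (.add (.mul (.g 5) (.add (.add (.pp [(1, 315490200)]) (.mul (.g 4) (.mul (.g 5)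
 (.pp [(1, 298119)])))) (.add (.mul (.g 6) (.mul (.g 9) (.pp [(1, 105003)]))) (.mul (.g 8) (.mul
 (.g 18) (.pp [(1, 13097400)])))))) (.mul (.g 4) (.pp [(1, 7052632500)])))) (.add (.mul (.g 8)
 (.mul (.g 8) (.pp [(1, 8406015000)]))) (.add (.mul (.g 9) (.mul (.g 9) (.pp [(1, 49470000)])))
 (.mul (.g 13) (.mul (.pp [(1, 25815)]) (.sq [(1, 100), (2, -80), (3, 82), (5, -23)])))))))) (.add
 (.mul (.g 9) (.add (.add (.mul (.g 9) (.add (.mul (.g 12) (.add (.mul (.g 11) (.pp [(1,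
 48915000)])) (.mul (.g 13) (.pp [(1, 30840000)])))) (.mul (.g 5) (.mul (.g 18) (.pp [(1,
 1029600)]))))) (.mul (.g 4) (.pp [(1, 117037500)]))) (.add (.mul (.g 5) (.pp [(1, 5474700)]))
 (.add (.mul (.g 12) (.pp [(1, 48435000)])) (.mul (.g 13) (.mul (.g 13) (.mul (.g 13) (.pp [(1,
 26325000)])))))))) (.mul (.g 0) (.pp [(1, 5000000000)])))) (.add (.add (.mul (.g 2) (.pp [(1,
 5000000000)])) (.mul (.g 4) (.pp [(1, 82455000)]))) (.add (.mul (.g 12) (.pp [(1, 203955000)]))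
 (.add (.mul (.g 13) (.mul (.g 13) (.mul (.pp [(1, 777)]) (.sq [(1, 92), (2, 77), (3, 100), (5,
 75)])))) (.mul (.g 16) (.pp [(1, 5000000000)])))))) (.pp [(1, 298590000), (2, 140100), (3,
 163269), (4, 154872), (5, 159600), (6, 145368), (8, 146364), (9, 148572), (10, 155856), (12,
 150072), (15, 150495), (16, 148167), (18, 149064), (19, 15000000000), (20, 153972), (24, 148866),
 (25, 150672), (27, 154700), (30, 159828), (36, 155967), (40, 149316), (45, 147450), (50, 154164),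
 (54, 147060), (60, 159834), (75, 132000), (81, 149940), (90, 148470), (100, 151242), (125,
 145200), (135, 129120), (150, 158685), (225, 132420), (250, 156900), (375, 132615), (625,
 144375)]))))))))))
 (P_Op0 ++ xP_A_F5c) = true := by decide +kernel

theorem t_A_T4b_Tp0_a : chk Rap gP_A_T4b
 (.cut 1 [(2, -1), (3, 1)] (.add (.mul (.g 11) (.pp [(1, 1)])) (.mul (.g 4) (.pp [(1, 1)]))) (.rule
 1 (.cut 1 [(2, 1), (5, -1)] (.add (.mul (.g 13) (.pp [(1, 1)])) (.mul (.g 7) (.pp [(1, 1)])))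
 (.rule 2 (.cut 11 [(1, -3), (3, 5)] (.add (.mul (.g 1) (.pp [(1, 40)])) (.add (.mul (.g 11) (.pp
 [(1, 2)])) (.mul (.g 15) (.pp [(1, 15)])))) (.cut 1 [(1, 3), (3, -2)] (.add (.add (.mul (.g 10)
 (.pp [(1, 1)])) (.mul (.g 13) (.pp [(1, 1)]))) (.add (.mul (.g 7) (.pp [(1, 1)])) (.mul (.g 9)
 (.pp [(1, 1)])))) (.rule 8 (.leaf 15000000 (.add (.add (.add (.add (.mul (.g 9) (.add (.add (.mul
 (.g 11) (.add (.add (.mul (.g 7) (.add (.mul (.g 11) (.pp [(1, 69658950000)])) (.add (.mul (.g 15)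
 (.pp [(1, 57140700000)])) (.mul (.g 16) (.pp [(1, 14135100000)]))))) (.mul (.g 11) (.add (.mul (.g
 11) (.pp [(1, 64266000000)])) (.mul (.g 13) (.pp [(1, 16711350000)]))))) (.add (.mul (.g 9) (.mul
 (.g 9) (.pp [(1, 18776250000)]))) (.mul (.g 12) (.mul (.g 18) (.pp [(1, 2569350000)])))))) (.mul
 (.g 9) (.mul (.g 9) (.add (.pp [(1, 15206400000)]) (.add (.mul (.g 9) (.pp [(1, 3004500000)]))
 (.mul (.g 15) (.pp [(1, 2860500000)]))))))) (.add (.mul (.g 7) (.mul (.g 15) (.add (.mul (.g 7)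
 (.pp [(1, 62542800000)])) (.mul (.g 12) (.pp [(1, 8534100000)]))))) (.add (.mul (.g 16) (.add (.pp
 [(1, 60407850000)]) (.mul (.pp [(1, 8061060)]) (.sq [(1, 28), (2, 50), (3, 11), (5, -11)]))))
 (.mul (.g 12) (.mul (.pp [(1, 3338880)]) (.sq [(1, 39), (2, 50), (3, 9), (5, -9)]))))))) (.add
 (.mul (.g 7) (.add (.add (.mul (.g 13) (.add (.mul (.pp [(1, 51780)]) (.sq [(1, -4), (2, -95), (3,
 -100), (5, 80)])) (.add (.mul (.g 16) (.add (.mul (.g 8) (.pp [(1, 1369950000)])) (.mul (.g 16)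
 (.pp [(1, 14305500000)])))) (.mul (.g 7) (.mul (.g 18) (.pp [(1, 823950000)])))))) (.mul (.g 7)
 (.add (.mul (.g 12) (.mul (.g 15) (.pp [(1, 1140450000)]))) (.mul (.g 16) (.mul (.g 16) (.pp [(1,
 10462050000)])))))) (.add (.mul (.g 11) (.pp [(1, 1400100000)])) (.mul (.g 12) (.mul (.pp [(1,
 1242180)]) (.sq [(1, 44), (2, 17), (3, 13), (5, 50)])))))) (.mul (.g 11) (.add (.add (.pp [(1,
 4615500000)]) (.mul (.g 8) (.pp [(1, 11147850000)]))) (.add (.mul (.g 13) (.mul (.pp [(1,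
 475125)]) (.sq [(1, -29), (2, 6), (3, 71), (5, 100)]))) (.add (.mul (.g 14) (.mul (.g 14) (.mul
 (.g 15) (.pp [(1, 5149875)])))) (.mul (.g 18) (.mul (.pp [(1, 285)]) (.sq [(1, -16), (2, 100), (3,
 63), (5, -54)]))))))))) (.add (.mul (.g 8) (.add (.mul (.g 16) (.pp [(1, 27667350000)])) (.mul (.g
 18) (.pp [(1, 49551600000)])))) (.add (.mul (.g 12) (.add (.mul (.g 14) (.mul (.pp [(1, 21)]) (.sq
 [(1, 1), (2, 91), (3, 100), (5, 3)]))) (.mul (.g 16) (.mul (.pp [(1, 30285)]) (.sq [(1, -88), (2,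
 87), (3, 100), (5, 62)]))))) (.mul (.g 0) (.pp [(1, 15000000)]))))) (.add (.add (.mul (.g 3) (.pp
 [(1, 50000000000)])) (.add (.mul (.g 5) (.pp [(1, 50000000000)])) (.mul (.g 13) (.mul (.g 13)
 (.mul (.pp [(1, 15705)]) (.sq [(1, 100), (2, -77), (3, -13), (5, 75)])))))) (.add (.mul (.g 14)
 (.mul (.pp [(1, 94327500)]) (.sq [(2, -1), (5, 1)]))) (.add (.mul (.g 17) (.pp [(1,
 50000000000)])) (.mul (.g 18) (.pp [(1, 11498400000)])))))) (.pp [(1, 4701306234), (2, 1551447),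
 (3, 1447461), (4, 1680717), (5, 1584360), (6, 1480602), (8, 1508904), (9, 1618095), (10, 1011375),
 (12, 1549206), (15, 1558716), (16, 1583055), (18, 1408290), (20, 2100135), (23, 150000000000),
 (24, 1526400), (25, 1583847), (27, 1390710), (30, 1134156), (36, 1391265), (40, 1191105), (45,
 1421355), (50, 1345887), (54, 1525590), (60, 1418475), (75, 1552599), (81, 1545855), (90,
 1599165), (100, 1715505), (125, 1428779), (135, 1567740), (150, 1569960), (225, 1517490), (250,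
 1447440), (375, 1527720), (625, 1585155)]))))))))))
 (P_Tp0 ++ xP_A_T4b) = true := by decide +kernel

theorem t_A_T4b_Tp0_b : chk Rbp gP_A_T4b
 (.split [(1, -3), (5, 5)]
 (.cut 1 [(2, -1), (3, 1)] (.add (.mul (.g 12) (.pp [(1, 1)])) (.mul (.g 5) (.pp [(1, 1)]))) (.rule
 1 (.cut 1 [(2, 1), (5, -1)] (.add (.mul (.g 14) (.pp [(1, 1)])) (.mul (.g 8) (.pp [(1, 1)])))
 (.rule 2 (.cut 2 [(1, 5), (3, -4)] (.add (.add (.mul (.g 10) (.pp [(1, 5)])) (.mul (.g 13) (.pp
 [(1, 3)]))) (.add (.mul (.g 4) (.pp [(1, 1)])) (.mul (.g 9) (.pp [(1, 5)])))) (.rule 8 (.cut 13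
 [(1, 3), (5, -2)] (.add (.add (.mul (.g 3) (.pp [(1, 36)])) (.mul (.g 6) (.pp [(1, 2)]))) (.add
 (.mul (.g 5) (.pp [(1, 36)])) (.mul (.g 1) (.pp [(1, 9)])))) (.rule 12 (.leaf 15000000 (.add (.add
 (.add (.add (.mul (.g 13) (.add (.add (.mul (.g 10) (.add (.add (.pp [(1, 6095550000)]) (.mul (.g
 8) (.add (.mul (.g 16) (.pp [(1, 108822000)])) (.mul (.g 20) (.pp [(1, 8173500000)]))))) (.add
 (.mul (.g 9) (.mul (.g 16) (.pp [(1, 254077500)]))) (.mul (.g 10) (.mul (.g 20) (.pp [(1,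
 45258000000)])))))) (.mul (.g 11) (.add (.pp [(1, 30899550000)]) (.add (.mul (.pp [(1, 579360)])
 (.sq [(1, 81), (2, -100), (3, 29), (5, 100)])) (.mul (.g 13) (.mul (.g 15) (.pp [(1,
 27928800000)]))))))) (.add (.mul (.g 13) (.add (.pp [(1, 6681000000)]) (.mul (.g 9) (.mul (.g 17)
 (.pp [(1, 26101800000)]))))) (.mul (.g 17) (.mul (.pp [(1, 2828145)]) (.sq [(1, -75), (2, 59), (3,
 100), (5, 60)])))))) (.add (.mul (.g 9) (.add (.mul (.g 14) (.add (.pp [(1, 20918100000)]) (.add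
 (.mul (.g 9) (.add (.mul (.g 8) (.pp [(1, 76260000)])) (.mul (.g 11) (.pp [(1, 30851700000)]))))
 (.mul (.g 15) (.pp [(1, 2292300000)]))))) (.add (.mul (.g 10) (.add (.mul (.g 15) (.mul (.g 16)
 (.pp [(1, 362302500)]))) (.mul (.g 20) (.pp [(1, 18728850000)])))) (.mul (.g 17) (.add (.pp [(1,
 21034350000)]) (.mul (.g 9) (.mul (.g 20) (.pp [(1, 4845750000)])))))))) (.mul (.g 11) (.add (.mul
 (.g 11) (.mul (.g 11) (.add (.pp [(1, 23759250000)]) (.mul (.g 11) (.pp [(1, 2037150000)])))))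
 (.add (.mul (.g 17) (.add (.pp [(1, 48502200000)]) (.mul (.pp [(1, 535755)]) (.sq [(1, 81), (2,
 100), (3, 29), (5, 100)])))) (.mul (.g 18) (.pp [(1, 54063600000)]))))))) (.add (.mul (.g 8) (.add
 (.mul (.g 14) (.mul (.pp [(1, 136128)]) (.sq [(1, 65), (2, 100), (3, 6), (5, -51)]))) (.add (.mul
 (.g 18) (.pp [(1, 1578210000)])) (.mul (.g 21) (.mul (.pp [(1, 4281)]) (.sq [(1, 43), (2, 100),
 (3, 2), (5, -39)])))))) (.add (.mul (.g 15) (.add (.mul (.pp [(1, 10333350000)]) (.sq [(2, -1),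
 (5, 1)])) (.add (.mul (.g 14) (.mul (.pp [(1, 1188120)]) (.sq [(1, 41), (2, -30), (3, 50), (5,
 -9)]))) (.mul (.g 15) (.mul (.pp [(1, 180105)]) (.sq [(1, 100), (2, -77), (3, -13), (5, 75)]))))))
 (.mul (.g 20) (.add (.mul (.g 20) (.add (.mul (.pp [(1, 111240)]) (.sq [(1, -79), (2, 100), (3,
 100), (5, 100)])) (.mul (.pp [(1, 182595)]) (.sq [(1, 49), (2, 63), (3, -100), (5, 49)])))) (.mul
 (.g 10) (.pp [(1, 44167350000)]))))))) (.add (.add (.mul (.g 21) (.add (.mul (.g 14) (.mul (.pp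
 [(1, 211350)]) (.sq [(1, -89), (2, 87), (3, 100), (5, 62)]))) (.mul (.g 17) (.mul (.pp [(1,
 372675)]) (.sq [(1, -32), (2, 100), (3, -91), (5, 44)]))))) (.add (.mul (.g 0) (.pp [(1,
 15000000)])) (.mul (.g 2) (.pp [(1, 60000000)])))) (.add (.mul (.g 4) (.pp [(1, 50000000000)]))
 (.add (.mul (.g 6) (.pp [(1, 50000000000)])) (.mul (.g 19) (.pp [(1, 50000000000)])))))) (.pp [(1,
 356101497), (2, 1476015), (3, 1328241), (4, 1528920), (5, 1171581), (6, 1724865), (8, 1684395),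
 (9, 1698486), (10, 1701060), (12, 1228455), (15, 1865343), (16, 1465455), (18, 1312794), (20,
 1239840), (24, 1566135), (25, 1584879), (27, 1357851), (30, 1539852), (36, 1357575), (40,
 1574790), (45, 983952), (50, 1451724), (54, 1742280), (60, 1402230), (75, 1301802), (81, 1512255),
 (90, 1718310), (100, 1331100), (125, 1342718), (135, 1703580), (150, 1813080), (225, 1549635),
 (250, 1657320), (375, 1526520), (625, 1469340)])))))))))))
 (.cut 1 [(2, -1), (3, 1)] (.add (.mul (.g 12) (.pp [(1, 1)])) (.mul (.g 5) (.pp [(1, 1)]))) (.rule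
 1 (.cut 1 [(2, 1), (5, -1)] (.add (.mul (.g 8) (.pp [(1, 1)])) (.mul (.g 14) (.pp [(1, 1)])))
 (.rule 2 (.cut 1 [(1, 5), (3, -4)] (.add (.add (.mul (.g 10) (.pp [(1, 1)])) (.mul (.g 13) (.pp
 [(1, 3)]))) (.add (.mul (.g 7) (.pp [(1, 1)])) (.mul (.g 9) (.pp [(1, 1)])))) (.rule 8 (.leaf
 150000000 (.add (.add (.add (.add (.mul (.g 9) (.add (.add (.mul (.g 7) (.add (.mul (.g 7) (.add
 (.mul (.g 6) (.pp [(1, 21000000)])) (.add (.mul (.g 12) (.pp [(1, 127851000000)])) (.mul (.g 15)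
 (.pp [(1, 45000000)]))))) (.mul (.g 12) (.add (.pp [(1, 333258000000)]) (.mul (.g 15) (.pp [(1,
 3000000)])))))) (.mul (.g 9) (.add (.mul (.g 9) (.add (.pp [(1, 517051500000)]) (.add (.mul (.g 9)
 (.pp [(1, 19636500000)])) (.mul (.g 15) (.pp [(1, 13500000)]))))) (.mul (.g 11) (.mul (.g 11) (.pp
 [(1, 45000000)])))))) (.add (.mul (.g 6) (.add (.pp [(1, 275841000000)]) (.mul (.g 8) (.mul (.g 8)
 (.pp [(1, 3300000)]))))) (.add (.mul (.g 11) (.add (.mul (.g 11) (.mul (.g 13) (.pp [(1,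
 127864500000)]))) (.mul (.g 14) (.pp [(1, 32456850000)])))) (.mul (.g 15) (.add (.pp [(1,
 777127500000)]) (.mul (.g 15) (.mul (.g 15) (.pp [(1, 6000000)]))))))))) (.mul (.g 15) (.add (.add
 (.pp [(1, 135042000000)]) (.add (.mul (.pp [(1, 1500000)]) (.sq [(2, 1), (3, 1), (5, 1)])) (.mul
 (.g 7) (.add (.pp [(1, 157089000000)]) (.mul (.pp [(1, 2100)]) (.sq [(1, 81), (2, 100), (3, 29),
 (5, 100)])))))) (.add (.mul (.g 8) (.add (.mul (.pp [(1, 1050)]) (.sq [(1, 35), (2, -83), (3,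
 -94), (5, -100)])) (.mul (.g 11) (.mul (.g 16) (.pp [(1, 24000000)]))))) (.add (.mul (.g 11) (.mul
 (.pp [(1, 600)]) (.sq [(1, -75), (2, 59), (3, 100), (5, 60)]))) (.mul (.g 16) (.mul (.pp [(1,
 82500)]) (.sq [(1, -15), (2, 12), (3, 20), (5, 12)])))))))) (.add (.mul (.g 7) (.add (.mul (.g 6)
 (.add (.pp [(1, 1101900000)]) (.add (.mul (.g 7) (.pp [(1, 25582200000)])) (.mul (.g 13) (.pp [(1,
 52344600000)]))))) (.mul (.g 11) (.add (.mul (.g 7) (.mul (.g 12) (.pp [(1, 15000000)]))) (.mul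
 (.g 8) (.mul (.g 8) (.pp [(1, 19500000)]))))))) (.add (.mul (.g 13) (.add (.mul (.pp [(1,
 15000000)]) (.sq [(2, -1), (5, 1)])) (.add (.mul (.g 11) (.mul (.g 11) (.mul (.g 13) (.pp [(1,
 4500000)])))) (.mul (.g 12) (.mul (.pp [(1, 900)]) (.sq [(1, -47), (2, 100), (3, 76), (5,
 58)])))))) (.mul (.g 0) (.pp [(1, 600000000)]))))) (.add (.add (.mul (.g 2) (.pp [(1,
 500000000000)])) (.add (.mul (.g 4) (.pp [(1, 500000000000)])) (.mul (.g 8) (.mul (.g 18) (.pp
 [(1, 614910000000)]))))) (.add (.mul (.g 11) (.mul (.g 11) (.pp [(1, 80196000000)]))) (.add (.mul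
 (.g 14) (.mul (.g 14) (.mul (.pp [(1, 3)]) (.sq [(1, 100), (2, -65), (3, -20), (5, 42)])))) (.mul
 (.g 17) (.pp [(1, 500000000000)])))))) (.pp [(1, 8387632500), (2, 16254000), (3, 16935150), (4,
 11442825), (5, 15583200), (6, 12850200), (8, 16665600), (9, 10695750), (10, 15213780), (12,
 14990550), (15, 9860340), (16, 14430000), (18, 20088600), (20, 10761000), (23, 1500000000000),
 (24, 15611400), (25, 12298248), (27, 17917200), (30, 24370800), (36, 14861850), (40, 16632000),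
 (45, 20548800), (50, 20819280), (54, 13273500), (60, 14078400), (75, 16865520), (81, 13996200),
 (90, 12584400), (100, 12856800), (125, 15770720), (135, 12127200), (150, 14901600), (225,
 12930000), (250, 15170400), (375, 13392000), (625, 14410800)]))))))))))
 (P_Tp0 ++ xP_A_T4b) = true := by decide +kernel

theorem t_A_T4b_TpA_b : chk Rbp gP_A_T4b
 (.split [(1, -9), (3, 5)]
 (.cut 9 [(2, -1), (3, 1)] (.add (.mul (.g 0) (.pp [(1, 1)])) (.add (.mul (.g 2) (.pp [(1, 4)]))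
 (.mul (.g 5) (.pp [(1, 9)])))) (.rule 1 (.cut 9 [(2, 1), (5, -1)] (.add (.add (.mul (.g 3) (.pp
 [(1, 4)])) (.mul (.g 1) (.pp [(1, 4)]))) (.add (.mul (.g 2) (.pp [(1, 1)])) (.mul (.g 8) (.pp [(1,
 9)])))) (.rule 2 (.rule 10 (.cut 4 [(1, -2), (2, -1), (3, 2), (5, 1)] (.add (.add (.mul (.g 4)
 (.pp [(1, 3)])) (.mul (.g 5) (.pp [(1, 1)]))) (.add (.mul (.g 8) (.pp [(1, 4)])) (.mul (.g 10)
 (.pp [(1, 1)])))) (.cut 1 [(1, -1), (2, -2), (3, 2), (5, 2)] (.add (.mul (.g 11) (.pp [(1, 1)]))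
 (.add (.mul (.g 9) (.pp [(1, 1)])) (.mul (.g 0) (.pp [(1, 1)])))) (.rule 14 (.leaf 405000000 (.add
 (.add (.add (.add (.mul (.g 11) (.add (.add (.mul (.g 13) (.add (.pp [(1, 2877039000000)]) (.add
 (.mul (.g 10) (.add (.pp [(1, 3909789000000)]) (.add (.mul (.g 10) (.pp [(1, 16536150000)])) (.mul
 (.g 13) (.pp [(1, 34894800000)]))))) (.mul (.g 11) (.add (.mul (.g 11) (.pp [(1, 1408545450000)]))
 (.mul (.g 13) (.pp [(1, 1062396000000)]))))))) (.add (.mul (.g 9) (.add (.add (.mul (.g 9) (.add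
 (.pp [(1, 2841508350000)]) (.mul (.g 20) (.pp [(1, 1103568300000)])))) (.mul (.g 8) (.mul (.g 10)
 (.pp [(1, 466200000)])))) (.add (.mul (.g 11) (.mul (.g 11) (.pp [(1, 422285400000)]))) (.mul (.g
 20) (.mul (.g 20) (.pp [(1, 919649700000)])))))) (.mul (.g 11) (.add (.mul (.pp [(1, 5634360)])
 (.sq [(1, -11), (2, 100), (3, -22), (5, 75)])) (.mul (.g 14) (.mul (.g 15) (.pp [(1,
 4207950000)]))))))) (.add (.mul (.g 8) (.pp [(1, 398164950000)])) (.add (.mul (.g 10) (.pp [(1,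
 1361820600000)])) (.mul (.g 15) (.mul (.pp [(1, 1192320)]) (.sq [(1, 100), (2, 27), (3, -87), (5,
 64)]))))))) (.mul (.g 10) (.add (.mul (.g 8) (.add (.pp [(1, 490291650000)]) (.add (.mul (.g 9)
 (.add (.mul (.g 10) (.pp [(1, 4526100000)])) (.mul (.g 14) (.pp [(1, 107550000)])))) (.mul (.g 10)
 (.mul (.g 13) (.pp [(1, 905850000)])))))) (.add (.mul (.g 13) (.add (.pp [(1, 3810564000000)])
 (.add (.mul (.g 9) (.mul (.g 15) (.pp [(1, 11809800000)]))) (.mul (.g 10) (.mul (.g 10) (.pp [(1,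
 13737600000)])))))) (.mul (.g 14) (.add (.mul (.pp [(1, 170910)]) (.sq [(1, 100), (2, -8), (3,
 67), (5, 67)])) (.mul (.g 16) (.pp [(1, 1881022500)])))))))) (.add (.mul (.g 9) (.add (.mul (.g
 13) (.add (.pp [(1, 754839000000)]) (.add (.mul (.g 9) (.mul (.g 9) (.pp [(1, 4568400000)])))
 (.mul (.g 13) (.mul (.g 20) (.pp [(1, 7354800000)])))))) (.mul (.g 14) (.add (.pp [(1,
 3487349700000)]) (.mul (.g 9) (.mul (.g 9) (.pp [(1, 1543050000)]))))))) (.add (.mul (.g 8) (.add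
 (.mul (.g 8) (.pp [(1, 85360300000)])) (.add (.mul (.g 15) (.pp [(1, 427806000000)])) (.mul (.g
 16) (.mul (.pp [(1, 9099)]) (.sq [(2, 41), (3, -8), (5, 50)])))))) (.mul (.g 14) (.add (.mul (.g
 14) (.mul (.pp [(1, 2064285)]) (.sq [(1, 1), (2, 38), (3, -18), (5, 100)]))) (.mul (.g 15) (.mul
 (.g 15) (.pp [(1, 1327622400000)])))))))) (.add (.add (.mul (.g 0) (.pp [(1, 1350000000000)]))
 (.mul (.g 3) (.pp [(1, 81000000000)]))) (.add (.mul (.g 4) (.pp [(1, 1350000000000)])) (.add (.mul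
 (.g 6) (.pp [(1, 1350000000000)])) (.mul (.g 18) (.pp [(1, 1350000000000)])))))) (.pp [(1,
 218808635715), (2, 41485770), (3, 40395330), (4, 40907916), (5, 40821570), (6, 44413254), (8,
 39633840), (9, 37063139), (10, 43641990), (12, 41421375), (15, 36101610), (16, 44522460), (18,
 39328020), (20, 43028820), (23, 4050000000000), (24, 37450620), (25, 44894655), (27, 41975550),
 (30, 41107500), (36, 42227820), (40, 40140360), (45, 41852700), (50, 31682340), (54, 40396050),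
 (60, 38500380), (75, 39700530), (81, 40153050), (90, 40735260), (100, 41561100), (125, 41391000),
 (135, 40430610), (150, 41857290), (225, 39913830), (250, 39268800), (375, 41411790), (625,
 43082280)])))))))))))
 (.split [(1, -5), (3, 4)]
 (.split [(1, -3), (5, 5)]
 (.cut 11 [(2, -1), (3, 1)] (.add (.mul (.g 7) (.pp [(1, 11)])) (.add (.mul (.g 1) (.pp [(1, 4)]))
 (.mul (.g 2) (.pp [(1, 1)])))) (.rule 1 (.cut 11 [(2, 1), (5, -1)] (.add (.mul (.g 10) (.pp [(1,
 11)])) (.add (.mul (.g 3) (.pp [(1, 4)])) (.mul (.g 4) (.pp [(1, 1)])))) (.rule 2 (.rule 9 (.cut 4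
 [(1, 3), (5, -2)] (.add (.add (.mul (.g 2) (.pp [(1, 8)])) (.mul (.g 4) (.pp [(1, 5)]))) (.add
 (.mul (.g 12) (.pp [(1, 3)])) (.mul (.g 7) (.pp [(1, 1)])))) (.rule 12 (.cut 5 [(1, -2), (2, -1),
 (3, 2), (5, 1)] (.add (.add (.mul (.g 6) (.pp [(1, 2)])) (.mul (.g 8) (.pp [(1, 2)]))) (.add (.mul
 (.g 7) (.pp [(1, 1)])) (.mul (.g 14) (.pp [(1, 3)])))) (.cut 9 [(1, -1), (2, -2), (3, 2), (5, 2)]
 (.add (.mul (.g 7) (.pp [(1, 18)])) (.add (.mul (.g 2) (.pp [(1, 1)])) (.mul (.g 8) (.pp [(1,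
 4)])))) (.rule 14 (.leaf 45000000 (.add (.add (.add (.add (.mul (.g 17) (.add (.add (.mul (.g 14)
 (.add (.add (.pp [(1, 8412300000)]) (.mul (.g 15) (.add (.mul (.g 12) (.pp [(1, 6352550000)]))
 (.add (.mul (.g 14) (.pp [(1, 30393450000)])) (.mul (.g 24) (.pp [(1, 71997300000)])))))) (.add
 (.mul (.g 14) (.mul (.g 14) (.pp [(1, 22500000)]))) (.mul (.g 21) (.mul (.g 24) (.pp [(1,
 7190100000)])))))) (.add (.mul (.g 10) (.mul (.g 13) (.add (.mul (.g 10) (.pp [(1, 322434000)]))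
 (.mul (.g 13) (.pp [(1, 2382210000)]))))) (.mul (.g 15) (.add (.pp [(1, 261540900000)]) (.mul (.g
 12) (.mul (.g 15) (.pp [(1, 22699900000)]))))))) (.add (.mul (.g 11) (.pp [(1, 15340590000)]))
 (.add (.mul (.g 18) (.mul (.pp [(1, 1800)]) (.sq [(1, 45), (2, -50), (3, 50), (5, 18)]))) (.mul
 (.g 20) (.pp [(1, 7125660000)])))))) (.add (.mul (.g 13) (.add (.mul (.g 15) (.add (.mul (.g 18)
 (.add (.mul (.g 15) (.pp [(1, 312329250000)])) (.add (.mul (.g 18) (.pp [(1, 7646400000)])) (.mul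
 (.g 24) (.pp [(1, 233584200000)]))))) (.add (.mul (.g 10) (.mul (.g 12) (.pp [(1, 6411240000)])))
 (.mul (.g 13) (.mul (.g 13) (.pp [(1, 3310650000)])))))) (.add (.mul (.g 19) (.add (.mul (.g 10)
 (.mul (.g 10) (.pp [(1, 2952666000)]))) (.mul (.g 11) (.mul (.g 18) (.pp [(1, 40950000)])))))
 (.mul (.g 20) (.add (.mul (.g 14) (.mul (.g 24) (.pp [(1, 380992500)]))) (.mul (.g 20) (.pp [(1,
 283541625)]))))))) (.mul (.g 18) (.add (.add (.mul (.g 10) (.mul (.pp [(1, 389124)]) (.sq [(1,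
 -43), (2, -22), (3, -50), (5, 37)]))) (.mul (.g 14) (.mul (.g 20) (.pp [(1, 6327382500)])))) (.add
 (.mul (.g 18) (.pp [(1, 195238350000)])) (.add (.mul (.g 19) (.mul (.g 19) (.pp [(1,
 29929950000)]))) (.mul (.g 21) (.mul (.pp [(1, 2976300)]) (.sq [(1, 71), (2, 7), (3, -8), (5,
 100)]))))))))) (.add (.mul (.g 10) (.add (.mul (.g 14) (.add (.pp [(1, 11153520000)]) (.mul (.g
 24) (.mul (.g 24) (.pp [(1, 3328560000)]))))) (.mul (.g 15) (.mul (.g 15) (.mul (.g 19) (.pp [(1,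
 1710810000)])))))) (.add (.mul (.g 11) (.add (.mul (.g 11) (.pp [(1, 4708458000)])) (.add (.mul
 (.g 14) (.mul (.g 19) (.mul (.g 19) (.pp [(1, 39330000)])))) (.mul (.g 20) (.pp [(1,
 5076661500)]))))) (.mul (.g 0) (.pp [(1, 150000000000)]))))) (.add (.add (.mul (.g 3) (.pp [(1,
 45000000)])) (.add (.mul (.g 5) (.pp [(1, 1800000000)])) (.mul (.g 6) (.pp [(1, 150000000000)]))))
 (.add (.add (.mul (.g 8) (.pp [(1, 150000000000)])) (.mul (.g 19) (.mul (.g 23) (.mul (.pp [(1,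
 11520)]) (.sq [(2, -3), (3, 50), (5, -48)]))))) (.add (.mul (.g 22) (.pp [(1, 150000000000)]))
 (.mul (.g 24) (.mul (.g 24) (.mul (.pp [(1, 22533300000)]) (.sq [(2, 1), (3, -1)])))))))) (.pp
 [(1, 12202676628), (2, 4891527), (3, 4546872), (4, 5096772), (5, 3910788), (6, 4316076), (8,
 4663068), (9, 4455000), (10, 3382236), (12, 4604832), (15, 4545684), (16, 4500000), (18, 4149000),
 (20, 3200436), (24, 4564980), (25, 5596992), (27, 4576800), (30, 3926916), (36, 4204620), (40,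
 4579920), (45, 4716400), (50, 5658804), (54, 4867200), (60, 4378860), (75, 4410572), (81,
 4363200), (90, 5260640), (100, 4922640), (125, 3856392), (135, 4309200), (150, 4959760), (225,
 4309920), (250, 4443660), (375, 4367700), (625, 4503780)])))))))))))))
 (.cut 11 [(2, -1), (3, 1)] (.add (.mul (.g 7) (.pp [(1, 11)])) (.add (.mul (.g 1) (.pp [(1, 4)]))
 (.mul (.g 2) (.pp [(1, 1)])))) (.rule 1 (.cut 17 [(2, 1), (5, -1)] (.add (.add (.mul (.g 5) (.pp
 [(1, 5)])) (.mul (.g 3) (.pp [(1, 3)]))) (.add (.mul (.g 10) (.pp [(1, 12)])) (.mul (.g 2) (.pp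
 [(1, 1)])))) (.rule 2 (.rule 9 (.rule 23 (.leaf 89100000000 (.add (.add (.add (.add (.mul (.g 13)
 (.add (.add (.mul (.g 11) (.add (.add (.pp [(1, 141599502000000)]) (.mul (.pp [(1, 4869136800)])
 (.sq [(1, 49), (2, -20), (3, 100), (5, 100)]))) (.add (.mul (.g 6) (.add (.mul (.g 11) (.pp [(1,
 31065606000000)])) (.mul (.g 20) (.pp [(1, 43660247400000)])))) (.mul (.g 10) (.mul (.g 10) (.pp
 [(1, 31033530000000)])))))) (.add (.mul (.g 9) (.add (.mul (.g 9) (.add (.mul (.g 7) (.pp [(1,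
 68541957000000)])) (.mul (.g 9) (.pp [(1, 24163920000000)])))) (.mul (.g 10) (.mul (.g 13) (.pp
 [(1, 269325243000000)]))))) (.mul (.g 13) (.add (.pp [(1, 5936733000000)]) (.mul (.pp [(1,
 1495098000)]) (.sq [(1, -33), (2, 100), (3, 2), (5, 21)])))))) (.add (.add (.mul (.g 16) (.add
 (.pp [(1, 3943031400000)]) (.mul (.g 17) (.mul (.g 17) (.pp [(1, 6112304550000)]))))) (.mul (.g 7)
 (.mul (.g 10) (.mul (.g 10) (.pp [(1, 31613927400000)]))))) (.add (.mul (.g 15) (.mul (.g 15)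
 (.mul (.g 15) (.pp [(1, 19007703000000)])))) (.mul (.g 20) (.mul (.pp [(1, 5923813500)]) (.sq [(1,
 -3), (2, 100), (3, 11), (5, -27)]))))))) (.mul (.g 14) (.add (.add (.mul (.g 11) (.add (.pp [(1,
 391521438000000)]) (.mul (.g 6) (.mul (.g 11) (.pp [(1, 8194883400000)]))))) (.add (.mul (.g 14)
 (.add (.mul (.g 14) (.mul (.g 17) (.pp [(1, 59594535000000)]))) (.mul (.g 15) (.pp [(1,
 20368260000000)])))) (.mul (.g 7) (.pp [(1, 27305942400000)])))) (.add (.mul (.g 8) (.mul (.pp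
 [(1, 408315600)]) (.sq [(1, -26), (2, 72), (3, 63), (5, 100)]))) (.add (.mul (.g 15) (.mul (.pp
 [(1, 10420423200)]) (.sq [(1, -1), (2, 26), (3, -19), (5, 50)]))) (.mul (.g 16) (.mul (.pp [(1,
 16300845)]) (.sq [(1, 83), (2, -92), (3, -64), (5, 100)])))))))) (.add (.mul (.g 6) (.add (.mul
 (.g 11) (.add (.pp [(1, 22801937400000)]) (.add (.mul (.g 6) (.add (.mul (.g 9) (.pp [(1,
 9787456800000)])) (.mul (.g 10) (.pp [(1, 481532040000)])))) (.mul (.g 10) (.mul (.g 10) (.pp [(1,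
 24601044600000)])))))) (.mul (.g 9) (.mul (.pp [(1, 2297871180)]) (.sq [(1, 6), (2, 21), (3, -7),
 (5, 100)]))))) (.add (.mul (.g 7) (.add (.mul (.g 7) (.add (.mul (.g 9) (.mul (.g 10) (.pp [(1,
 10336740480000)]))) (.mul (.g 11) (.mul (.g 11) (.pp [(1, 10626172920000)]))))) (.add (.mul (.g
 16) (.add (.mul (.pp [(1, 132626241)]) (.sq [(1, 53), (2, -25), (3, 100), (5, 32)])) (.mul (.pp
 [(1, 12427668)]) (.sq [(1, -37), (2, 85), (3, 81), (5, 100)])))) (.mul (.g 8) (.mul (.pp [(1,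
 654659280)]) (.sq [(1, -14), (2, -37), (3, 50), (5, 50)])))))) (.mul (.g 0) (.pp [(1,
 27000000000000)]))))) (.add (.add (.mul (.g 1) (.pp [(1, 3564000000000)])) (.add (.mul (.g 2) (.pp
 [(1, 297000000000000)])) (.mul (.g 4) (.pp [(1, 297000000000000)])))) (.add (.mul (.g 8) (.mul (.g
 8) (.mul (.g 8) (.mul (.g 17) (.pp [(1, 186494000000)]))))) (.add (.mul (.g 16) (.mul (.g 16)
 (.mul (.g 16) (.pp [(1, 25342490250)])))) (.mul (.g 18) (.pp [(1, 297000000000000)])))))) (.pp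
 [(1, 4638107848050), (2, 10042438995), (3, 7835338791), (4, 8890253955), (5, 8329009815), (6,
 6292919160), (8, 10424593080), (9, 11458166148), (10, 7874652060), (12, 9218642400), (15,
 13359373632), (16, 8850124800), (18, 9936586440), (20, 9586785780), (23, 891000000000000), (24,
 7734949200), (25, 9567783720), (27, 7077903008), (30, 9056195280), (36, 9126810000), (40,
 7186182300), (45, 4123565820), (50, 9622710900), (54, 8817074640), (60, 10172903400), (75,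
 5472495864), (81, 9336735760), (90, 9211039200), (100, 10954666800), (125, 8466489900), (135,
 10162413360), (150, 8112602520), (225, 10317494880), (250, 7309318500), (375, 9794537280), (625,
 8910000000)]))))))))))
 (.split [(1, -3), (5, 5)]
 (.cut 1 [(2, -1), (3, 1)] (.add (.mul (.g 11) (.pp [(1, 1)])) (.mul (.g 7) (.pp [(1, 1)]))) (.rule
 1 (.cut 1 [(2, 1), (5, -1)] (.add (.mul (.g 13) (.pp [(1, 1)])) (.mul (.g 10) (.pp [(1, 1)])))
 (.rule 2 (.rule 8 (.cut 13 [(1, 3), (5, -2)] (.add (.add (.mul (.g 2) (.pp [(1, 36)])) (.mul (.g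
 4) (.pp [(1, 36)]))) (.add (.mul (.g 6) (.pp [(1, 9)])) (.mul (.g 5) (.pp [(1, 2)])))) (.rule 12
 (.rule 23 (.leaf 660000000 (.add (.add (.add (.add (.mul (.g 15) (.add (.add (.mul (.g 11) (.add
 (.mul (.g 11) (.add (.mul (.g 8) (.pp [(1, 10243200000)])) (.add (.mul (.g 11) (.pp [(1,
 9015600000)])) (.mul (.g 19) (.pp [(1, 301560600000)]))))) (.add (.mul (.g 12) (.mul (.g 15) (.pp
 [(1, 1807660800000)]))) (.mul (.g 13) (.mul (.g 18) (.pp [(1, 3560370000)])))))) (.add (.mul (.g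
 12) (.mul (.g 12) (.add (.mul (.g 12) (.pp [(1, 233290200000)])) (.mul (.g 19) (.pp [(1,
 1707941400000)]))))) (.mul (.g 13) (.add (.pp [(1, 2222800800000)]) (.mul (.g 8) (.mul (.g 8) (.pp
 [(1, 2207304000)]))))))) (.add (.mul (.g 9) (.pp [(1, 396608520000)])) (.add (.mul (.g 15) (.pp
 [(1, 241507200000)])) (.mul (.g 17) (.mul (.g 17) (.mul (.g 17) (.pp [(1, 11206800000)]))))))))
 (.add (.mul (.g 12) (.add (.add (.mul (.g 12) (.add (.mul (.g 8) (.add (.mul (.g 12) (.pp [(1,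
 6559080000)])) (.mul (.g 22) (.pp [(1, 262025280000)])))) (.mul (.g 19) (.mul (.g 19) (.pp [(1,
 14434200000)]))))) (.mul (.g 18) (.mul (.g 18) (.add (.pp [(1, 2933733000)]) (.mul (.g 9) (.pp
 [(1, 9061800)])))))) (.add (.mul (.g 19) (.mul (.g 19) (.add (.pp [(1, 1353976800000)]) (.mul (.g
 11) (.pp [(1, 1913590800000)]))))) (.mul (.g 16) (.pp [(1, 443223000000)]))))) (.mul (.g 13) (.add
 (.mul (.g 13) (.add (.mul (.pp [(1, 5705040)]) (.sq [(1, 26), (2, -92), (3, -19), (5, 100)]))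
 (.add (.mul (.g 8) (.add (.mul (.g 11) (.pp [(1, 37132920000)])) (.mul (.g 17) (.pp [(1,
 6642240000)])))) (.mul (.g 9) (.mul (.g 9) (.pp [(1, 83380704000)])))))) (.add (.mul (.g 16) (.pp
 [(1, 2438733000000)])) (.mul (.g 18) (.mul (.g 18) (.pp [(1, 149770500)])))))))) (.add (.mul (.g
 11) (.add (.mul (.g 11) (.mul (.g 11) (.add (.mul (.g 8) (.pp [(1, 3102000000)])) (.mul (.g 9)
 (.pp [(1, 371050680000)]))))) (.add (.mul (.g 16) (.mul (.g 17) (.pp [(1, 40801200000)]))) (.mul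
 (.g 18) (.mul (.pp [(1, 48939)]) (.sq [(1, 33), (2, -48), (3, 100), (5, -86)])))))) (.add (.mul
 (.g 17) (.add (.mul (.g 16) (.mul (.g 16) (.pp [(1, 2133535800000)]))) (.mul (.g 17) (.mul (.g 18)
 (.mul (.g 22) (.pp [(1, 193380000)])))))) (.mul (.g 19) (.add (.mul (.g 19) (.pp [(1,
 480889200000)])) (.mul (.g 22) (.pp [(1, 409114200000)]))))))) (.add (.add (.mul (.g 0) (.pp [(1,
 200000000000)])) (.add (.mul (.g 1) (.pp [(1, 660000000)])) (.mul (.g 3) (.pp [(1,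
 2640000000)])))) (.add (.add (.mul (.g 4) (.pp [(1, 2200000000000)])) (.mul (.g 6) (.pp [(1,
 2200000000000)]))) (.add (.mul (.g 8) (.mul (.g 9) (.pp [(1, 122250216000)]))) (.mul (.g 20) (.pp
 [(1, 2200000000000)])))))) (.pp [(1, 202028440000), (2, 72451139), (3, 57686000), (4, 66762652),
 (5, 63653500), (6, 52045180), (8, 72224064), (9, 73603200), (10, 68354704), (12, 43593440), (15,
 71060000), (16, 63909120), (18, 99154000), (20, 48033216), (24, 71522880), (25, 67312960), (27,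
 61248000), (30, 106890080), (36, 62568000), (40, 77098560), (45, 35948000), (50, 80602236), (54,
 62040000), (60, 49864320), (75, 46819520), (81, 64680000), (90, 67056000), (100, 60590640), (125,
 59092000), (135, 69960000), (150, 65939280), (225, 77296560), (250, 66879120), (375, 70752000),
 (625, 66000000)])))))))))))
 (.cut 1 [(2, -1), (3, 1)] (.add (.mul (.g 11) (.pp [(1, 1)])) (.mul (.g 7) (.pp [(1, 1)]))) (.rule
 1 (.cut 1 [(2, 1), (5, -1)] (.add (.mul (.g 10) (.pp [(1, 1)])) (.mul (.g 13) (.pp [(1, 1)])))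
 (.rule 2 (.rule 8 (.rule 23 (.leaf 132000000 (.add (.add (.add (.add (.mul (.g 11) (.add (.add
 (.mul (.g 6) (.add (.add (.pp [(1, 141870168000)]) (.mul (.g 9) (.add (.mul (.g 6) (.pp [(1,
 16297406400)])) (.mul (.g 9) (.pp [(1, 66400224000)]))))) (.add (.mul (.g 13) (.add (.mul (.g 13)
 (.pp [(1, 1388640000)])) (.mul (.g 20) (.pp [(1, 10290720000)])))) (.mul (.g 11) (.mul (.g 14)
 (.pp [(1, 3455760000)])))))) (.mul (.g 7) (.add (.pp [(1, 71131104000)]) (.mul (.g 7) (.add (.pp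
 [(1, 18752131200)]) (.add (.mul (.g 10) (.pp [(1, 9670689600)])) (.mul (.g 11) (.pp [(1,
 7355937600)])))))))) (.add (.mul (.g 9) (.add (.mul (.g 11) (.mul (.g 14) (.pp [(1,
 338714640000)]))) (.mul (.g 13) (.mul (.g 13) (.pp [(1, 117167160000)]))))) (.add (.mul (.g 10)
 (.mul (.g 13) (.mul (.g 20) (.pp [(1, 315696480000)])))) (.mul (.g 14) (.pp [(1,
 67881000000)])))))) (.mul (.g 10) (.add (.mul (.g 13) (.add (.mul (.g 17) (.add (.mul (.g 15) (.pp
 [(1, 141650520000)])) (.add (.mul (.g 16) (.pp [(1, 2107578000)])) (.mul (.g 17) (.pp [(1,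
 242663520000)]))))) (.add (.mul (.g 9) (.mul (.g 13) (.pp [(1, 69962640000)]))) (.mul (.g 16)
 (.mul (.g 16) (.pp [(1, 29495400)])))))) (.add (.mul (.g 10) (.add (.mul (.g 17) (.add (.mul (.g
 16) (.pp [(1, 1439790000)])) (.mul (.g 17) (.pp [(1, 16700640000)])))) (.mul (.g 7) (.mul (.g 7)
 (.pp [(1, 2350867200)]))))) (.mul (.g 9) (.add (.mul (.pp [(1, 8734836)]) (.sq [(1, 6), (2, 100),
 (3, -75), (5, -5)])) (.mul (.g 7) (.mul (.g 7) (.pp [(1, 15728961600)]))))))))) (.add (.mul (.g 9)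
 (.add (.mul (.g 9) (.add (.mul (.pp [(1, 4429260)]) (.sq [(1, -26), (2, 100), (3, -39), (5, -7)]))
 (.add (.mul (.g 9) (.mul (.g 14) (.pp [(1, 20734560000)]))) (.mul (.g 13) (.mul (.g 16) (.pp [(1,
 4512222000)])))))) (.mul (.g 13) (.add (.mul (.g 13) (.mul (.g 13) (.pp [(1, 155284800000)])))
 (.mul (.g 17) (.pp [(1, 353299320000)])))))) (.add (.mul (.g 15) (.add (.mul (.g 17) (.add (.mul
 (.g 7) (.mul (.g 15) (.pp [(1, 20781024000)]))) (.add (.mul (.g 16) (.mul (.g 20) (.pp [(1,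
 864600000)]))) (.mul (.g 17) (.pp [(1, 432659040000)]))))) (.mul (.g 14) (.mul (.g 14) (.pp [(1,
 76666920000)]))))) (.mul (.g 0) (.pp [(1, 40000000000)]))))) (.add (.add (.mul (.g 1) (.pp [(1,
 528000000)])) (.add (.mul (.g 2) (.pp [(1, 440000000000)])) (.mul (.g 4) (.pp [(1,
 440000000000)])))) (.add (.mul (.g 7) (.mul (.g 7) (.pp [(1, 7150756800)]))) (.add (.mul (.g 16)
 (.mul (.g 16) (.mul (.g 16) (.pp [(1, 42158325)])))) (.mul (.g 18) (.pp [(1, 440000000000)]))))))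
 (.pp [(1, 8776498925), (2, 11339500), (3, 12603100), (4, 11768240), (5, 14796500), (6, 18751304),
 (8, 11154000), (9, 13477200), (10, 16042400), (12, 16305520), (15, 9988000), (16, 13200000), (18,
 8782400), (20, 18477360), (23, 1320000000000), (24, 14388000), (25, 9350000), (27, 12342000), (30,
 5418160), (36, 11331540), (40, 12804000), (45, 15452800), (50, 12672000), (54, 14529900), (60,
 12140040), (75, 15928000), (81, 13780800), (90, 15081000), (100, 12646260), (125, 14960000), (135,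
 13358400), (150, 13949100), (225, 13094400), (250, 11880000), (375, 13200000), (625,
 13200000)]))))))))))))
 (P_TpA ++ xP_A_T4b) = true := by decide +kernel

theorem t_A_T6_Tp0_b : chk Rbp gP_A_T6
 (.split [(1, -17), (3, 25)]
 (.split [(1, -3), (5, 5)]
 (.split [(2, 1), (3, -1)]
 (.rule 0 (.rule 6 (.rule 7 (.cut 17 [(1, 3), (5, -2)] (.add (.add (.mul (.g 11) (.pp [(1, 34)]))
 (.mul (.g 7) (.pp [(1, 9)]))) (.add (.mul (.g 5) (.pp [(1, 1)])) (.mul (.g 10) (.pp [(1, 34)]))))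
 (.rule 12 (.leaf 75000000 (.add (.add (.add (.add (.mul (.g 11) (.add (.add (.mul (.g 7) (.add
 (.add (.pp [(1, 2435880000)]) (.mul (.pp [(1, 118398)]) (.sq [(1, 72), (2, -21), (3, -69), (5,
 -61), (7, 100)]))) (.add (.mul (.g 9) (.add (.add (.mul (.g 9) (.pp [(1, 1407930000)])) (.mul (.g
 10) (.pp [(1, 3985920000)]))) (.add (.mul (.g 11) (.pp [(1, 14159040000)])) (.mul (.g 19) (.pp
 [(1, 2843880000)]))))) (.add (.mul (.g 16) (.add (.mul (.g 5) (.pp [(1, 1597920000)])) (.mul (.g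
 6) (.pp [(1, 912018000)])))) (.mul (.g 10) (.mul (.g 13) (.pp [(1, 548880000)]))))))) (.add (.mul
 (.g 11) (.add (.add (.mul (.g 16) (.add (.mul (.g 6) (.pp [(1, 21712950000)])) (.add (.mul (.g 14)
 (.pp [(1, 202710000000)])) (.mul (.g 17) (.pp [(1, 338548500000)]))))) (.mul (.g 9) (.add (.mul
 (.g 12) (.pp [(1, 197475000000)])) (.mul (.g 19) (.pp [(1, 28257000000)]))))) (.add (.mul (.g 15)
 (.add (.pp [(1, 2252700000)]) (.mul (.g 10) (.pp [(1, 2248687500)])))) (.mul (.g 14) (.mul (.g 19)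
 (.pp [(1, 5426250000)])))))) (.mul (.g 8) (.add (.mul (.g 10) (.add (.mul (.g 6) (.pp [(1,
 240450000)])) (.mul (.g 10) (.pp [(1, 24228000000)])))) (.mul (.g 12) (.pp [(1,
 356229750000)])))))) (.add (.mul (.g 19) (.add (.pp [(1, 118912500000)]) (.add (.mul (.pp [(1,
 1139250)]) (.sq [(1, 100), (2, 81), (3, 81), (5, 81), (7, 81)])) (.mul (.pp [(1, 393225)]) (.sq
 [(1, 15), (2, -15), (3, -29), (5, -5), (7, 100)]))))) (.add (.mul (.g 16) (.add (.mul (.g 6) (.mul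
 (.g 9) (.pp [(1, 5239800000)]))) (.mul (.g 10) (.mul (.g 15) (.pp [(1, 922162500)]))))) (.mul (.g
 13) (.mul (.pp [(1, 18900)]) (.sq [(1, -25), (2, 68), (3, 100), (5, -91), (7, -40)]))))))) (.add
 (.mul (.g 5) (.add (.add (.add (.pp [(1, 25200000000)]) (.mul (.g 8) (.add (.add (.pp [(1,
 218089500000)]) (.mul (.g 9) (.pp [(1, 372516750000)]))) (.add (.mul (.g 10) (.pp [(1,
 84978000000)])) (.mul (.g 14) (.pp [(1, 30595500000)])))))) (.add (.mul (.g 5) (.add (.mul (.pp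
 [(1, 287100)]) (.sq [(1, 100), (2, -67), (3, 67), (5, 33)])) (.add (.mul (.g 9) (.pp [(1,
 22700250000)])) (.mul (.g 14) (.pp [(1, 16815000000)]))))) (.mul (.g 14) (.add (.mul (.pp [(1,
 90975)]) (.sq [(1, 14), (2, 44), (3, -43), (5, 100), (7, -60)])) (.mul (.g 13) (.pp [(1,
 13863000000)])))))) (.add (.add (.mul (.g 7) (.mul (.pp [(1, 55758)]) (.sq [(1, -4), (2, -55), (3,
 48), (5, -55), (7, 100)]))) (.mul (.g 9) (.pp [(1, 3302250000)]))) (.add (.mul (.g 12) (.mul (.pp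
 [(1, 118875)]) (.sq [(1, 63), (2, -100), (3, 8), (5, 19), (7, 73)]))) (.mul (.g 16) (.mul (.pp
 [(1, 536025)]) (.sq [(1, 5), (2, -78), (3, -68), (5, 34), (7, 100)]))))))) (.mul (.g 17) (.add
 (.add (.mul (.g 8) (.add (.mul (.g 8) (.add (.add (.mul (.g 7) (.pp [(1, 405810000)])) (.mul (.g
 9) (.pp [(1, 103979250000)]))) (.add (.mul (.g 12) (.pp [(1, 399750000)])) (.mul (.g 19) (.pp [(1,
 116864250000)]))))) (.add (.mul (.g 7) (.mul (.g 12) (.pp [(1, 4868220000)]))) (.mul (.g 10) (.mul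
 (.g 17) (.pp [(1, 11250000)])))))) (.mul (.g 7) (.pp [(1, 14296920000)]))) (.add (.mul (.g 9)
 (.mul (.g 9) (.mul (.g 9) (.pp [(1, 8247000000)])))) (.add (.mul (.g 13) (.mul (.pp [(1, 6300)])
 (.sq [(1, -85), (2, 79), (3, 74), (5, 100), (7, 72)]))) (.mul (.g 14) (.mul (.pp [(1, 5168925)])
 (.sq [(2, 21), (3, -9), (5, 1), (7, 100)]))))))))) (.add (.mul (.g 19) (.add (.add (.mul (.g 10)
 (.add (.pp [(1, 32663250000)]) (.add (.mul (.g 8) (.mul (.g 8) (.pp [(1, 143730750000)]))) (.mul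
 (.g 9) (.mul (.g 15) (.pp [(1, 474000000)])))))) (.mul (.g 19) (.add (.mul (.pp [(1, 276975)])
 (.sq [(1, -11), (2, 42), (3, 100), (5, 80), (7, -67)])) (.mul (.pp [(1, 2821200)]) (.sq [(1,
 -100), (2, 37), (3, 19), (5, 60), (7, 60)]))))) (.add (.mul (.g 12) (.pp [(1, 197435250000)]))
 (.add (.mul (.g 13) (.mul (.pp [(1, 266175)]) (.sq [(1, -29), (2, -89), (3, 14), (5, 53), (7,
 100)]))) (.mul (.g 16) (.pp [(1, 17345250000)])))))) (.add (.mul (.g 12) (.add (.add (.mul (.g 7)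
 (.add (.mul (.g 8) (.mul (.g 12) (.pp [(1, 187740000)]))) (.mul (.g 9) (.mul (.g 9) (.pp [(1,
 597390000)]))))) (.mul (.g 15) (.mul (.g 15) (.add (.pp [(1, 406638750)]) (.mul (.g 12) (.pp [(1,
 601875)])))))) (.add (.mul (.g 10) (.mul (.g 14) (.mul (.g 14) (.pp [(1, 921750000)])))) (.mul (.g
 13) (.mul (.pp [(1, 16650)]) (.sq [(1, -2), (2, 100), (3, 46), (5, 5), (7, 31)])))))) (.mul (.g 7)
 (.add (.mul (.g 9) (.mul (.g 9) (.add (.pp [(1, 7254270000)]) (.mul (.g 16) (.pp [(1,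
 169140000)]))))) (.mul (.g 7) (.pp [(1, 464040000)]))))))) (.add (.add (.mul (.g 13) (.add (.mul
 (.g 8) (.mul (.g 10) (.pp [(1, 72492000000)]))) (.mul (.g 15) (.mul (.pp [(1, 2265)]) (.sq [(1,
 -14), (2, 11), (3, 12), (5, -38), (7, 100)]))))) (.add (.mul (.g 0) (.pp [(1, 75000000)])) (.mul
 (.g 2) (.pp [(1, 600000000)])))) (.add (.add (.mul (.g 3) (.pp [(1, 250000000000)])) (.mul (.g 4)
 (.pp [(1, 250000000000)]))) (.add (.mul (.g 6) (.mul (.g 6) (.pp [(1, 3429840000)]))) (.mul (.g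
 18) (.pp [(1, 250000000000)])))))) (.pp [(1, 13593573585), (2, 7441731), (3, 6375804), (4,
 7105920), (5, 7236105), (6, 8851521), (7, 8366394), (8, 8121185), (9, 7418649), (10, 7329000),
 (12, 5945550), (14, 8636541), (15, 7150335), (16, 7317000), (18, 8444649), (20, 8156555), (21,
 5457024), (24, 8239125), (25, 7841625), (27, 7328491), (28, 7109106), (30, 6595920), (35,
 6273981), (36, 6528150), (40, 6922575), (42, 6783168), (45, 8297235), (49, 5803725), (50,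
 7342925), (54, 8306850), (56, 7945575), (60, 7577250), (63, 7678551), (70, 6243342), (75,
 7964580), (81, 7151775), (84, 6565650), (90, 8166300), (98, 8500275), (100, 8207100), (105,
 10398888), (125, 7632960), (126, 7783650), (135, 6602100), (140, 7255425), (147, 8690925), (150,
 7347000), (175, 7903536), (189, 8022825), (196, 7184700), (210, 9759150), (225, 7330350), (245,
 8054100), (250, 7022475), (294, 7208625), (315, 5948850), (343, 8286150), (350, 7622925), (375,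
 7465500), (441, 7329000), (490, 7432800), (525, 6519750), (625, 7582125), (686, 7510800), (735,
 6553050), (875, 7610325), (1029, 7450200), (1225, 7467675), (1715, 7285500), (2401,
 7208475)]))))))))
 (.split [(2, 1), (5, -1)]
 (.rule 1 (.rule 2 (.rule 7 (.cut 2 [(1, 3), (5, -2)] (.add (.mul (.g 3) (.pp [(1, 9)])) (.add
 (.mul (.g 11) (.pp [(1, 9)])) (.mul (.g 5) (.pp [(1, 1)])))) (.rule 12 (.leaf 300000000 (.add
 (.add (.add (.add (.mul (.g 12) (.add (.add (.mul (.g 12) (.add (.add (.pp [(1, 414156000000)])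
 (.add (.mul (.g 8) (.add (.mul (.g 9) (.pp [(1, 2820600000)])) (.add (.mul (.g 11) (.pp [(1,
 2166240000)])) (.mul (.g 12) (.pp [(1, 573000000)]))))) (.mul (.g 16) (.add (.mul (.g 12) (.pp
 [(1, 933900000)])) (.add (.mul (.g 14) (.pp [(1, 261750000)])) (.mul (.g 17) (.pp [(1,
 4689450000)]))))))) (.add (.mul (.g 6) (.add (.mul (.g 5) (.pp [(1, 69378000000)])) (.mul (.g 20)
 (.pp [(1, 32088000000)])))) (.add (.mul (.g 10) (.mul (.g 11) (.pp [(1, 336882000000)]))) (.mul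
 (.g 20) (.pp [(1, 336849000000)])))))) (.add (.mul (.g 5) (.add (.add (.pp [(1, 1013811000000)])
 (.mul (.g 5) (.add (.mul (.g 7) (.pp [(1, 49997400000)])) (.mul (.g 8) (.pp [(1,
 20341200000)]))))) (.add (.mul (.g 6) (.mul (.g 6) (.pp [(1, 25902000000)]))) (.add (.mul (.g 8)
 (.mul (.g 9) (.pp [(1, 10878000000)]))) (.mul (.g 10) (.mul (.g 11) (.pp [(1, 36165000000)])))))))
 (.mul (.g 6) (.add (.add (.mul (.g 9) (.add (.mul (.g 11) (.pp [(1, 537879000000)])) (.mul (.g 18)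
 (.pp [(1, 524412000000)])))) (.mul (.g 7) (.mul (.g 17) (.pp [(1, 105153600000)])))) (.add (.mul
 (.g 8) (.mul (.g 18) (.pp [(1, 3299640000)]))) (.mul (.g 10) (.mul (.g 11) (.pp [(1,
 327318000000)])))))))) (.add (.mul (.g 7) (.add (.pp [(1, 205048200000)]) (.add (.mul (.g 9) (.mul
 (.g 11) (.pp [(1, 289276800000)]))) (.mul (.g 10) (.mul (.g 10) (.pp [(1, 24780000000)]))))))
 (.add (.mul (.g 8) (.add (.mul (.g 9) (.mul (.g 18) (.pp [(1, 7360440000)]))) (.mul (.g 10) (.mul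
 (.g 11) (.pp [(1, 15284640000)]))))) (.mul (.g 20) (.add (.mul (.pp [(1, 27600)]) (.sq [(1, -3),
 (2, -32), (3, 50), (5, -2), (7, 33)])) (.mul (.g 9) (.pp [(1, 1099785000000)])))))))) (.add (.mul
 (.g 5) (.add (.add (.mul (.g 5) (.add (.pp [(1, 1770972000000)]) (.add (.mul (.g 11) (.add (.pp
 [(1, 129228000000)]) (.mul (.g 17) (.pp [(1, 729000000)])))) (.mul (.g 10) (.mul (.g 10) (.pp [(1,
 17691000000)])))))) (.add (.mul (.g 9) (.add (.mul (.g 10) (.add (.mul (.g 10) (.pp [(1,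
 706506000000)])) (.mul (.g 20) (.pp [(1, 616218000000)])))) (.mul (.g 11) (.pp [(1,
 1154886000000)])))) (.mul (.g 7) (.add (.pp [(1, 269583600000)]) (.mul (.g 10) (.mul (.g 10) (.pp
 [(1, 29649600000)]))))))) (.add (.add (.mul (.g 11) (.mul (.g 14) (.pp [(1, 562956000000)])))
 (.mul (.g 15) (.mul (.pp [(1, 5043000)]) (.sq [(1, -10), (2, -29), (3, 100), (5, -36), (7,
 82)])))) (.add (.mul (.g 16) (.mul (.pp [(1, 84705)]) (.sq [(1, 5), (2, -36), (3, -40), (5, 62),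
 (7, 100)]))) (.mul (.g 17) (.pp [(1, 965742000000)])))))) (.mul (.g 7) (.add (.add (.mul (.g 9)
 (.add (.pp [(1, 75088200000)]) (.add (.mul (.g 10) (.mul (.g 10) (.pp [(1, 18481800000)]))) (.mul
 (.g 14) (.pp [(1, 112604400000)]))))) (.add (.mul (.g 6) (.mul (.g 6) (.add (.mul (.g 6) (.pp [(1,
 53271000000)])) (.mul (.g 10) (.pp [(1, 11617200000)]))))) (.mul (.g 7) (.add (.pp [(1,
 38178480000)]) (.mul (.pp [(1, 610008)]) (.sq [(1, -10), (2, 100), (3, 47), (5, 57), (7,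
 -96)])))))) (.add (.mul (.g 11) (.mul (.g 11) (.mul (.g 18) (.pp [(1, 8593200000)])))) (.add (.mul
 (.g 17) (.pp [(1, 256309200000)])) (.mul (.g 20) (.mul (.pp [(1, 4835820)]) (.sq [(1, 100), (2,
 70), (3, 37), (5, 70), (7, 37)]))))))))) (.add (.add (.mul (.g 20) (.add (.add (.mul (.g 9) (.add
 (.mul (.pp [(1, 6111600)]) (.sq [(1, 8), (2, -15), (3, -77), (5, 100), (7, -47)])) (.mul (.g 9)
 (.add (.pp [(1, 625251000000)]) (.mul (.g 9) (.pp [(1, 52902000000)])))))) (.mul (.g 6) (.mul (.g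
 10) (.mul (.g 11) (.pp [(1, 50820000000)]))))) (.add (.mul (.g 8) (.mul (.pp [(1, 5532)]) (.sq
 [(1, -23), (2, 100), (3, 59), (5, -55), (7, 77)]))) (.add (.mul (.g 17) (.pp [(1, 97785000000)]))
 (.mul (.g 18) (.mul (.pp [(1, 2039400)]) (.sq [(1, -100), (2, 63), (3, 84), (5, 63), (7,
 84)]))))))) (.mul (.g 6) (.add (.add (.mul (.g 18) (.add (.mul (.pp [(1, 15409200)]) (.sq [(1,
 -10), (2, -97), (3, 100), (5, -25), (7, -94)])) (.mul (.g 9) (.mul (.g 18) (.pp [(1,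
 307941000000)]))))) (.mul (.g 6) (.mul (.pp [(1, 55542000)]) (.sq [(1, 11), (2, 11), (3, -7), (5,
 50), (7, -48)])))) (.add (.mul (.g 8) (.mul (.g 10) (.mul (.g 13) (.pp [(1, 2023440000)])))) (.mul
 (.g 14) (.mul (.pp [(1, 1766100)]) (.sq [(1, 6), (2, -100), (3, 84), (5, 71), (7, 86)])))))))
 (.add (.mul (.g 11) (.add (.mul (.g 9) (.mul (.g 9) (.mul (.g 9) (.pp [(1, 22764000000)])))) (.mul
 (.g 13) (.mul (.pp [(1, 24623400)]) (.sq [(1, -22), (2, -1), (3, -46), (5, 95), (7, 100)])))))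
 (.mul (.g 14) (.add (.mul (.g 8) (.mul (.pp [(1, 3024)]) (.sq [(1, -8), (2, -21), (3, -9), (5,
 -34), (7, 100)]))) (.mul (.g 14) (.mul (.pp [(1, 6866400)]) (.sq [(1, -20), (2, 50), (3, 25), (5,
 27), (7, 25)])))))))) (.add (.add (.mul (.g 0) (.pp [(1, 300000000)])) (.add (.mul (.g 2) (.pp
 [(1, 2400000000)])) (.mul (.g 3) (.pp [(1, 1000000000000)])))) (.add (.add (.mul (.g 4) (.pp [(1,
 1000000000000)])) (.mul (.g 15) (.mul (.g 15) (.mul (.pp [(1, 1488000)]) (.sq [(1, 18), (2, 11),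
 (3, -63), (5, 31), (7, 100)]))))) (.add (.mul (.g 17) (.mul (.g 17) (.pp [(1, 1290456000000)])))
 (.mul (.g 19) (.pp [(1, 1000000000000)])))))) (.pp [(1, 5718352188), (2, 27680625), (3, 27740928),
 (4, 30485316), (5, 26841015), (6, 32112588), (7, 26231436), (8, 32854848), (9, 33512868), (10,
 34864188), (12, 30376296), (14, 34471800), (15, 37894236), (16, 31086600), (18, 31810224), (20,
 32030496), (21, 36592356), (24, 27277800), (25, 33451668), (27, 28635948), (28, 33183000), (30,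
 27117648), (35, 38340168), (36, 29840400), (40, 26529000), (42, 29767200), (45, 20357676), (49,
 31862712), (50, 24422184), (54, 29522400), (56, 28914000), (60, 31041600), (63, 29720232), (70,
 19627200), (75, 25762476), (81, 30217500), (84, 26887200), (90, 27138000), (98, 30478800), (100,
 28956300), (105, 12961080), (125, 32446732), (126, 28491600), (135, 32351700), (140, 30677400),
 (147, 32499420), (150, 31829400), (175, 23088540), (189, 29124900), (196, 30558000), (210,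
 30345600), (225, 32260200), (245, 25784220), (250, 28920900), (294, 29746800), (315, 37522500),
 (343, 31285584), (350, 32925600), (375, 29546700), (441, 26462100), (490, 28190400), (525,
 34190700), (625, 30375000), (686, 32233200), (735, 32879100), (875, 32128200), (1029, 26117100),
 (1225, 30627600), (1715, 29538300), (2401, 30056400)]))))))))
 (.rule 1 (.rule 3 (.rule 7 (.cut 1 [(1, 3), (5, -2)] (.add (.add (.mul (.g 7) (.pp [(1, 1)]))
 (.mul (.g 4) (.pp [(1, 2)]))) (.add (.mul (.g 12) (.pp [(1, 2)])) (.mul (.g 11) (.pp [(1, 1)]))))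
 (.rule 12 (.leaf 75000000 (.add (.add (.add (.add (.mul (.pp [(1, 59563500)]) (.sq [(1, -36), (2,
 50), (3, 31), (5, -23), (7, -2)])) (.add (.mul (.g 12) (.add (.add (.mul (.g 5) (.add (.mul (.g
 12) (.add (.add (.mul (.g 9) (.pp [(1, 50237250000)])) (.mul (.g 10) (.pp [(1, 41889000000)])))
 (.add (.mul (.g 12) (.pp [(1, 1500000)])) (.add (.mul (.g 14) (.pp [(1, 407250000)])) (.mul (.g
 17) (.pp [(1, 40119000000)])))))) (.add (.mul (.g 7) (.add (.add (.mul (.g 5) (.pp [(1,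
 4820100000)])) (.mul (.g 6) (.pp [(1, 7327800000)]))) (.add (.mul (.g 10) (.pp [(1,
 25205850000)])) (.mul (.g 13) (.pp [(1, 14446950000)]))))) (.mul (.g 14) (.add (.mul (.g 10) (.pp
 [(1, 174721500000)])) (.mul (.g 13) (.pp [(1, 54150750000)]))))))) (.add (.mul (.g 7) (.add (.add
 (.pp [(1, 34541400000)]) (.add (.mul (.g 6) (.mul (.g 6) (.pp [(1, 19651050000)]))) (.mul (.g 7)
 (.pp [(1, 7997130000)])))) (.add (.mul (.g 8) (.mul (.g 12) (.pp [(1, 11886000)]))) (.add (.mul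
 (.g 10) (.mul (.g 10) (.pp [(1, 18627150000)]))) (.mul (.g 20) (.pp [(1, 50800650000)])))))) (.mul
 (.g 8) (.add (.add (.mul (.pp [(1, 30)]) (.sq [(1, -9), (2, 83), (3, -81), (5, -86), (7, 100)]))
 (.mul (.g 6) (.mul (.g 6) (.pp [(1, 69840000)])))) (.add (.mul (.g 8) (.mul (.g 18) (.pp [(1,
 48560400)]))) (.add (.mul (.g 10) (.mul (.g 11) (.pp [(1, 860400000)]))) (.mul (.g 20) (.pp [(1,
 3139470000)])))))))) (.add (.mul (.g 12) (.add (.mul (.g 6) (.add (.mul (.g 17) (.pp [(1,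
 2236500000)])) (.mul (.g 18) (.pp [(1, 3666750000)])))) (.mul (.g 20) (.add (.pp [(1,
 87234750000)]) (.mul (.g 11) (.pp [(1, 24000000)])))))) (.add (.mul (.g 14) (.add (.mul (.g 6)
 (.mul (.g 9) (.pp [(1, 149822250000)]))) (.add (.mul (.g 13) (.mul (.g 13) (.pp [(1,
 19904250000)]))) (.mul (.g 20) (.pp [(1, 161498250000)]))))) (.mul (.g 20) (.mul (.pp [(1, 750)])
 (.sq [(2, -42), (3, -49), (5, 100), (7, -99)]))))))) (.mul (.g 7) (.add (.add (.mul (.g 7) (.add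
 (.add (.pp [(1, 3402360000)]) (.mul (.g 6) (.mul (.g 11) (.pp [(1, 1784970000)])))) (.add (.mul
 (.g 9) (.pp [(1, 7804890000)])) (.mul (.g 18) (.mul (.g 18) (.pp [(1, 1783470000)])))))) (.mul (.g
 5) (.add (.mul (.g 18) (.add (.mul (.g 10) (.pp [(1, 36359850000)])) (.mul (.g 18) (.pp [(1,
 547350000)])))) (.mul (.g 5) (.mul (.g 11) (.pp [(1, 6509400000)])))))) (.add (.mul (.g 9) (.add
 (.mul (.g 20) (.add (.pp [(1, 46773150000)]) (.mul (.g 9) (.pp [(1, 19657050000)])))) (.mul (.g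
 13) (.mul (.g 14) (.pp [(1, 28334700000)]))))) (.add (.mul (.g 11) (.add (.mul (.g 11) (.mul (.g
 14) (.pp [(1, 17912850000)]))) (.mul (.g 20) (.pp [(1, 34605900000)])))) (.mul (.g 14) (.pp [(1,
 80703150000)])))))))) (.add (.add (.mul (.g 20) (.add (.mul (.g 5) (.add (.mul (.g 6) (.add (.mul
 (.g 5) (.pp [(1, 19969500000)])) (.add (.mul (.g 6) (.pp [(1, 79344000000)])) (.mul (.g 13) (.pp
 [(1, 14516250000)]))))) (.add (.mul (.g 5) (.mul (.g 11) (.pp [(1, 66304500000)]))) (.mul (.g 10)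
 (.mul (.g 17) (.pp [(1, 67899750000)])))))) (.add (.mul (.g 20) (.add (.pp [(1, 4758750000)])
 (.mul (.g 13) (.add (.mul (.g 11) (.pp [(1, 53777250000)])) (.mul (.g 13) (.pp [(1,
 50090250000)])))))) (.mul (.g 14) (.add (.mul (.pp [(1, 3822300)]) (.sq [(1, 16), (2, -4), (3,
 -27), (5, 100)])) (.mul (.g 9) (.mul (.g 9) (.pp [(1, 34509000000)])))))))) (.mul (.g 14) (.add
 (.mul (.g 9) (.add (.mul (.pp [(1, 1738050)]) (.sq [(1, -4), (2, 50), (3, 100), (5, 48), (7,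
 -9)])) (.mul (.g 9) (.add (.pp [(1, 105423000000)]) (.mul (.g 9) (.pp [(1, 82704000000)]))))))
 (.add (.mul (.g 8) (.add (.mul (.pp [(1, 124464)]) (.sq [(1, -8), (2, 50), (3, 39), (5, 14), (7,
 -1)])) (.mul (.g 8) (.pp [(1, 96254400)])))) (.mul (.g 14) (.add (.pp [(1, 247392750000)]) (.mul
 (.pp [(1, 6367800)]) (.sq [(1, 34), (2, -19), (3, 50), (5, 39), (7, 8)])))))))) (.add (.mul (.g
 10) (.add (.add (.mul (.g 9) (.mul (.pp [(1, 225975)]) (.sq [(1, -75), (2, 100), (3, 46), (5,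
 -30), (7, -19)]))) (.mul (.g 10) (.mul (.pp [(1, 6342075)]) (.sq [(1, -75), (2, 100), (3, 44), (5,
 -28), (7, -17)])))) (.add (.mul (.g 11) (.mul (.pp [(1, 14488275)]) (.sq [(1, -25), (2, -17), (3,
 -30), (5, 100)]))) (.mul (.g 15) (.mul (.pp [(1, 3267600)]) (.sq [(1, -19), (2, -30), (3, -30),
 (5, 100), (7, 2)])))))) (.mul (.g 5) (.mul (.g 5) (.add (.mul (.g 5) (.mul (.g 9) (.pp [(1,
 89355000000)]))) (.mul (.g 6) (.mul (.g 11) (.pp [(1, 33658500000)]))))))))) (.add (.add (.add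
 (.mul (.g 0) (.pp [(1, 75000000)])) (.mul (.g 2) (.pp [(1, 600000000)]))) (.add (.mul (.g 3) (.pp
 [(1, 250000000000)])) (.mul (.g 4) (.pp [(1, 250000000000)])))) (.add (.add (.mul (.g 8) (.mul (.g
 17) (.mul (.g 17) (.mul (.g 17) (.pp [(1, 1167990000)]))))) (.mul (.g 9) (.mul (.pp [(1,
 10830450)]) (.sq [(1, -75), (2, 100), (3, 44), (5, -29), (7, -20)])))) (.add (.mul (.g 13) (.mul
 (.pp [(1, 3640800)]) (.sq [(1, -56), (2, 84), (3, -7), (5, 14), (7, 100)]))) (.mul (.g 19) (.pp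
 [(1, 250000000000)])))))) (.pp [(1, 217424832), (2, 7419582), (3, 8361456), (4, 7729800), (5,
 7021056), (6, 7556913), (7, 7651518), (8, 7939000), (9, 6875685), (10, 7503588), (12, 7060200),
 (14, 7663068), (15, 8207445), (16, 7099200), (18, 6393048), (20, 6052800), (21, 7348158), (24,
 7493400), (25, 8575260), (27, 7763952), (28, 7468590), (30, 7665246), (35, 8124408), (36,
 7924200), (40, 8116200), (42, 6743226), (45, 6987456), (49, 7778688), (50, 9192798), (54,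
 8143200), (56, 7713000), (60, 8150925), (63, 7478574), (70, 7049976), (75, 6445656), (81,
 7439700), (84, 7001850), (90, 7346100), (98, 7554438), (100, 7314000), (105, 8001648), (125,
 5777952), (126, 7916700), (135, 7589400), (140, 7303800), (147, 7112412), (150, 7227900), (175,
 7638024), (189, 7334700), (196, 7251750), (210, 9167100), (225, 7960200), (245, 6850512), (250,
 6644400), (294, 7366275), (315, 6764100), (343, 7499250), (350, 7490400), (375, 8106000), (441,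
 7369575), (490, 8310450), (525, 6703800), (625, 8326200), (686, 7737000), (735, 7912800), (875,
 7492800), (1029, 7127250), (1225, 7210800), (1715, 7650000), (2401, 7350750)]))))))))))
 (.split [(1, -7), (5, 50)]
 (.split [(2, 1), (3, -1)]
 (.rule 0 (.cut 575 [(2, 1), (5, -1)] (.add (.add (.mul (.g 2) (.pp [(1, 2)])) (.mul (.g 4) (.pp
 [(1, 23)]))) (.add (.mul (.g 1) (.pp [(1, 575)])) (.mul (.g 3) (.pp [(1, 135)])))) (.rule 2 (.rule
 7 (.rule 11 (.leaf 600000000 (.add (.add (.add (.add (.mul (.g 12) (.add (.add (.mul (.g 12) (.add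
 (.add (.pp [(1, 677100000000)]) (.mul (.g 12) (.add (.add (.mul (.g 5) (.pp [(1, 606594000000)]))
 (.mul (.g 6) (.pp [(1, 4466280000)]))) (.add (.mul (.g 8) (.pp [(1, 2132640000)])) (.mul (.g 16)
 (.pp [(1, 30735300000)])))))) (.add (.mul (.g 7) (.add (.mul (.g 10) (.pp [(1, 121000800000)]))
 (.mul (.g 17) (.pp [(1, 392786400000)])))) (.mul (.g 5) (.mul (.g 20) (.pp [(1,
 542730000000)])))))) (.add (.mul (.g 9) (.add (.pp [(1, 495522000000)]) (.add (.mul (.g 9) (.add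
 (.mul (.g 8) (.pp [(1, 157201680000)])) (.mul (.g 16) (.pp [(1, 5462400000)])))) (.mul (.g 15)
 (.add (.mul (.g 18) (.pp [(1, 1632936000000)])) (.mul (.g 20) (.pp [(1, 957114000000)])))))))
 (.mul (.g 11) (.add (.mul (.g 11) (.add (.mul (.g 11) (.pp [(1, 1038468000000)])) (.mul (.g 15)
 (.pp [(1, 741384000000)])))) (.add (.mul (.g 16) (.add (.mul (.g 10) (.pp [(1, 113394900000)]))
 (.mul (.g 17) (.pp [(1, 21908700000)])))) (.mul (.g 8) (.mul (.g 8) (.pp [(1, 720326400)]))))))))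
 (.add (.add (.mul (.g 5) (.add (.pp [(1, 2385996000000)]) (.mul (.g 7) (.mul (.g 14) (.pp [(1,
 258327600000)]))))) (.mul (.g 7) (.pp [(1, 219050400000)]))) (.add (.mul (.g 8) (.pp [(1,
 105459600000)])) (.mul (.g 20) (.mul (.pp [(1, 15407400)]) (.sq [(1, 100), (2, 81), (3, 81), (5,
 81), (7, 81)]))))))) (.add (.mul (.g 9) (.add (.add (.mul (.g 9) (.add (.add (.mul (.g 7) (.add
 (.mul (.g 5) (.pp [(1, 230022000000)])) (.add (.mul (.g 13) (.pp [(1, 43622400000)])) (.mul (.g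
 16) (.pp [(1, 3770400000)]))))) (.mul (.g 8) (.add (.mul (.g 8) (.pp [(1, 2422310400)])) (.add
 (.mul (.g 9) (.pp [(1, 1131840000)])) (.mul (.g 10) (.pp [(1, 82846080000)])))))) (.add (.mul (.g
 5) (.mul (.g 13) (.pp [(1, 48810000000)]))) (.mul (.g 10) (.mul (.g 20) (.pp [(1,
 3981288000000)])))))) (.mul (.g 5) (.add (.pp [(1, 4317192000000)]) (.mul (.g 15) (.pp [(1,
 1407396000000)]))))) (.add (.mul (.g 7) (.add (.mul (.g 11) (.mul (.g 13) (.pp [(1,
 182811600000)]))) (.mul (.g 15) (.pp [(1, 534609600000)])))) (.add (.mul (.g 8) (.add (.pp [(1,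
 26824080000)]) (.mul (.g 10) (.mul (.g 10) (.pp [(1, 4945200000)]))))) (.mul (.g 14) (.mul (.g 16)
 (.mul (.g 18) (.pp [(1, 31200900000)])))))))) (.mul (.g 10) (.add (.add (.mul (.g 6) (.add (.mul
 (.g 10) (.add (.mul (.g 7) (.pp [(1, 1577112000)])) (.mul (.g 8) (.pp [(1, 300408000)])))) (.mul
 (.g 6) (.mul (.g 6) (.pp [(1, 5434992)]))))) (.add (.mul (.g 7) (.add (.mul (.g 7) (.mul (.g 15)
 (.pp [(1, 7594560000)]))) (.mul (.g 11) (.mul (.g 14) (.pp [(1, 22366800000)]))))) (.mul (.g 8)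
 (.add (.mul (.pp [(1, 294000)]) (.sq [(1, 5), (2, -13), (3, -93), (5, 100), (7, 77)])) (.mul (.g
 10) (.mul (.g 11) (.pp [(1, 3652560000)]))))))) (.add (.mul (.g 5) (.mul (.g 5) (.pp [(1,
 1688772000000)]))) (.add (.mul (.g 15) (.mul (.pp [(1, 8810400)]) (.sq [(1, 88), (2, 42), (3,
 -45), (5, -98), (7, 100)]))) (.mul (.g 17) (.mul (.g 20) (.pp [(1, 224844000000)]))))))))) (.add
 (.add (.mul (.g 20) (.add (.add (.mul (.g 20) (.add (.mul (.pp [(1, 16870200)]) (.sq [(1, -36),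
 (2, -57), (3, -31), (5, 100), (7, -42)])) (.mul (.pp [(1, 7126800)]) (.sq [(1, -33), (2, 40), (3,
 -52), (5, -15), (7, 100)])))) (.add (.mul (.g 6) (.mul (.g 11) (.mul (.g 11) (.pp [(1,
 19821840000)])))) (.mul (.g 8) (.mul (.g 17) (.mul (.g 17) (.pp [(1, 955680000)])))))) (.add (.mul
 (.g 13) (.mul (.pp [(1, 18382200)]) (.sq [(1, -100), (2, -12), (3, 66), (5, 93), (7, 88)]))) (.add
 (.mul (.g 14) (.mul (.pp [(1, 14099400)]) (.sq [(1, 43), (2, 48), (3, -1), (5, -84), (7, 100)])))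
 (.mul (.g 16) (.mul (.pp [(1, 3069030)]) (.sq [(1, -28), (2, -33), (3, -48), (5, -68), (7,
 100)]))))))) (.mul (.g 16) (.add (.add (.mul (.g 13) (.add (.pp [(1, 23621400000)]) (.mul (.g 11)
 (.mul (.g 11) (.pp [(1, 20164800000)]))))) (.mul (.g 6) (.mul (.pp [(1, 2421)]) (.sq [(1, 10), (2,
 100), (3, 59), (5, 54), (7, 10)])))) (.add (.mul (.g 14) (.mul (.pp [(1, 3736500)]) (.sq [(1, 29),
 (2, -15), (3, 2), (5, 31), (7, 100)]))) (.mul (.g 15) (.mul (.g 15) (.pp [(1, 14448300000)])))))))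
 (.add (.mul (.g 5) (.add (.mul (.g 5) (.add (.pp [(1, 492984000000)]) (.mul (.pp [(1, 10647000)])
 (.sq [(1, -39), (2, -64), (3, -11), (5, -15), (7, 100)])))) (.add (.mul (.g 7) (.pp [(1,
 526669200000)])) (.mul (.g 8) (.pp [(1, 100047120000)]))))) (.mul (.g 15) (.add (.mul (.g 13)
 (.add (.mul (.pp [(1, 21795000)]) (.sq [(1, -35), (2, -19), (3, -28), (5, 87), (7, 100)])) (.mul
 (.g 11) (.mul (.g 11) (.pp [(1, 98262000000)]))))) (.mul (.g 15) (.mul (.pp [(1, 7987200)]) (.sq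
 [(1, 69), (2, 42), (3, -77), (5, -90), (7, 100)])))))))) (.add (.add (.mul (.g 7) (.add (.mul (.g
 7) (.pp [(1, 112378560000)])) (.mul (.g 8) (.pp [(1, 31091568000)])))) (.add (.mul (.g 0) (.pp
 [(1, 1200000000)])) (.mul (.g 1) (.pp [(1, 4800000000)])))) (.add (.add (.mul (.g 2) (.pp [(1,
 2000000000000)])) (.mul (.g 4) (.pp [(1, 2000000000000)]))) (.add (.mul (.g 8) (.mul (.g 8) (.pp
 [(1, 8156812800)]))) (.mul (.g 19) (.pp [(1, 2000000000000)])))))) (.pp [(1, 117987925680), (2,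
 57493260), (3, 65703696), (4, 57815130), (5, 61393620), (6, 65686800), (7, 56842320), (8,
 55144900), (9, 43854957), (10, 73359360), (12, 72048870), (14, 64026840), (15, 58973244), (16,
 56722200), (18, 51353100), (20, 71180100), (21, 59061300), (24, 65167200), (25, 54228312), (27,
 70236860), (28, 62367570), (30, 26867160), (35, 64524000), (36, 58384200), (40, 64698600), (42,
 62931840), (45, 70609710), (49, 64155300), (50, 41283660), (54, 62555400), (56, 62627400), (60,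
 50796600), (63, 70534320), (70, 60335040), (75, 73803540), (81, 58987800), (84, 60015600), (90,
 72119400), (98, 60462000), (100, 55975200), (105, 39953640), (125, 62667740), (126, 49349400),
 (135, 53844000), (140, 57391800), (147, 55450800), (150, 73887600), (175, 59521920), (189,
 53914800), (196, 57198000), (210, 52866000), (225, 54235200), (245, 54565800), (250, 65103000),
 (294, 60459600), (315, 78407400), (343, 56986200), (350, 61518600), (375, 59546400), (441,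
 55100400), (490, 58633200), (525, 61497000), (625, 59574000), (686, 65228400), (735, 63177600),
 (875, 59448000), (1029, 52507800), (1225, 62081400), (1715, 57982800), (2401, 60918600)]))))))))
 (.rule 1 (.rule 6 (.rule 7 (.rule 11 (.leaf 150000000 (.add (.add (.add (.add (.add (.mul (.pp
 [(1, 10392900)]) (.sq [(2, 100), (3, 6), (5, -99), (7, 15)])) (.mul (.pp [(1, 3073650)]) (.sq [(1,
 -51), (2, 32), (3, 100), (5, -92), (7, 28)]))) (.add (.mul (.pp [(1, 93515400)]) (.sq [(1, -24),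
 (2, -40), (3, 50), (5, -1), (7, -13)])) (.mul (.g 13) (.add (.add (.add (.mul (.pp [(1, 6553650)])
 (.sq [(1, -33), (2, 79), (3, -12), (5, 100), (7, -61)])) (.mul (.g 11) (.add (.mul (.g 11) (.add
 (.mul (.g 11) (.pp [(1, 1642500000)])) (.add (.mul (.g 15) (.pp [(1, 1054050000)])) (.mul (.g 16)
 (.pp [(1, 4015500000)]))))) (.add (.mul (.g 19) (.add (.pp [(1, 16045500000)]) (.add (.mul (.g 8)
 (.pp [(1, 36576000000)])) (.mul (.g 9) (.pp [(1, 27259500000)]))))) (.mul (.g 4) (.mul (.g 13)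
 (.pp [(1, 289500000)]))))))) (.add (.mul (.g 8) (.add (.add (.mul (.pp [(1, 1388100)]) (.sq [(1,
 -57), (2, 100), (3, 84), (5, -69), (7, -79)])) (.mul (.pp [(1, 3722850)]) (.sq [(1, -3), (2, 86),
 (3, -25), (5, 100), (7, -47)]))) (.add (.mul (.g 5) (.add (.mul (.g 8) (.pp [(1, 192150000)]))
 (.mul (.g 13) (.pp [(1, 821400000)])))) (.mul (.g 8) (.mul (.g 8) (.pp [(1, 157770000000)]))))))
 (.mul (.g 12) (.add (.mul (.pp [(1, 19395600)]) (.sq [(1, 22), (2, -13), (3, -27), (5, 11), (7,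
 50)])) (.add (.mul (.g 6) (.mul (.g 13) (.pp [(1, 5411100000)]))) (.mul (.g 16) (.mul (.g 19) (.pp
 [(1, 58983000000)])))))))) (.add (.add (.mul (.g 10) (.add (.mul (.pp [(1, 159900)]) (.sq [(1,
 21), (2, 57), (3, -93), (5, 76), (7, 100)])) (.mul (.g 5) (.mul (.g 5) (.pp [(1, 9483600)])))))
 (.mul (.g 13) (.add (.mul (.pp [(1, 1057200)]) (.sq [(1, -18), (2, 45), (3, -28), (5, 100), (7,
 -54)])) (.mul (.g 4) (.mul (.g 13) (.pp [(1, 22689000000)])))))) (.add (.mul (.g 16) (.add (.mul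
 (.g 7) (.mul (.g 7) (.pp [(1, 53433600)]))) (.mul (.g 19) (.pp [(1, 61671000000)])))) (.add (.mul
 (.g 9) (.mul (.pp [(1, 5544450)]) (.sq [(1, -34), (2, 100), (3, 26), (5, -8), (7, -5)]))) (.mul
 (.g 19) (.pp [(1, 74494500000)]))))))))) (.add (.add (.mul (.g 19) (.add (.add (.add (.mul (.pp
 [(1, 286200)]) (.sq [(1, -38), (2, 62), (3, 59), (5, -100), (7, 27)])) (.mul (.pp [(1, 24852300)])
 (.sq [(1, -41), (2, 100), (3, -6), (5, 41), (7, 36)]))) (.add (.mul (.pp [(1, 83493600)]) (.sq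
 [(1, -7), (2, 50), (3, -28), (5, 19), (7, 25)])) (.mul (.g 6) (.add (.mul (.g 6) (.add (.mul (.g
 4) (.pp [(1, 93120000)])) (.add (.mul (.g 11) (.pp [(1, 340860000)])) (.mul (.g 16) (.pp [(1,
 608580000)]))))) (.mul (.g 16) (.add (.mul (.g 11) (.pp [(1, 7369200000)])) (.mul (.g 16) (.pp
 [(1, 3571500000)])))))))) (.add (.add (.mul (.g 8) (.add (.mul (.pp [(1, 4053000)]) (.sq [(1,
 -96), (2, 100), (3, 53), (5, 30), (7, 13)])) (.add (.mul (.g 19) (.add (.mul (.g 12) (.pp [(1,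
 1134000000)])) (.mul (.g 19) (.pp [(1, 972000000)])))) (.mul (.g 8) (.mul (.g 11) (.pp [(1,
 56101500000)])))))) (.mul (.g 11) (.mul (.g 11) (.add (.pp [(1, 89895000000)]) (.mul (.g 11) (.pp
 [(1, 15000000)])))))) (.add (.mul (.g 19) (.add (.mul (.g 9) (.mul (.g 19) (.pp [(1,
 8551500000)]))) (.mul (.g 12) (.mul (.g 12) (.pp [(1, 60028500000)]))))) (.mul (.g 17) (.mul (.pp
 [(1, 8300850)]) (.sq [(1, -41), (2, 100), (3, 3), (5, 23), (7, -14)]))))))) (.mul (.g 9) (.add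
 (.add (.mul (.pp [(1, 10395750)]) (.sq [(1, -10), (2, 100), (3, 18), (5, -99), (7, 20)])) (.add
 (.mul (.pp [(1, 19668150)]) (.sq [(1, -27), (2, 10), (3, 87), (5, -100), (7, -21)])) (.mul (.pp
 [(1, 7979550)]) (.sq [(1, -52), (2, 100), (3, 20), (5, -7), (7, 37)])))) (.add (.add (.mul (.g 8)
 (.mul (.pp [(1, 19202250)]) (.sq [(1, -10), (2, 100), (3, -17), (5, -24), (7, -6)]))) (.mul (.g
 11) (.mul (.pp [(1, 1019250)]) (.sq [(1, 7), (2, -57), (3, -62), (5, 93), (7, 100)])))) (.add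
 (.mul (.g 14) (.mul (.pp [(1, 29891550)]) (.sq [(1, -26), (2, 100), (3, -5), (5, -26), (7, 29)])))
 (.mul (.g 17) (.mul (.pp [(1, 421200)]) (.sq [(1, -14), (2, 99), (3, 21), (5, -100), (7,
 40)])))))))) (.add (.mul (.g 14) (.add (.add (.mul (.pp [(1, 3121350)]) (.sq [(1, 5), (2, 100),
 (3, -19), (5, -42), (7, -29)])) (.add (.mul (.pp [(1, 325950)]) (.sq [(1, 27), (2, 100), (3, -82),
 (5, -22), (7, 99)])) (.mul (.g 5) (.mul (.pp [(1, 226827)]) (.sq [(1, 7), (2, 100), (3, -33), (5,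
 -19), (7, -51)]))))) (.add (.mul (.g 8) (.mul (.pp [(1, 6541650)]) (.sq [(1, -27), (2, -87), (3,
 100), (5, -42), (7, -42)]))) (.add (.mul (.g 10) (.mul (.pp [(1, 995100)]) (.sq [(1, -57), (2,
 75), (3, 85), (5, -100), (7, 63)]))) (.mul (.g 12) (.mul (.pp [(1, 11694000)]) (.sq [(1, -87), (2,
 11), (3, 100), (5, -8), (7, 58)]))))))) (.mul (.g 10) (.add (.add (.mul (.pp [(1, 7353150)]) (.sq
 [(1, -62), (2, 79), (3, 96), (5, -100), (7, 17)])) (.mul (.pp [(1, 4859700)]) (.sq [(1, -9), (2,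
 -100), (3, 91), (5, -47), (7, -78)]))) (.add (.mul (.g 8) (.mul (.pp [(1, 13256400)]) (.sq [(1,
 -13), (2, 100), (3, -34), (5, 12), (7, -10)]))) (.mul (.g 12) (.mul (.pp [(1, 8106000)]) (.sq [(1,
 -6), (2, 100), (3, -52), (5, 14), (7, 49)]))))))))) (.add (.add (.add (.mul (.g 16) (.add (.mul
 (.pp [(1, 17828850)]) (.sq [(1, -27), (2, 41), (3, 63), (5, -100), (7, 18)])) (.add (.mul (.g 5)
 (.add (.mul (.pp [(1, 16122)]) (.sq [(1, -1), (2, 100), (3, -71), (5, 44), (7, 89)])) (.mul (.g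
 11) (.mul (.g 11) (.pp [(1, 562560000)]))))) (.mul (.g 7) (.mul (.g 7) (.mul (.g 11) (.pp [(1,
 2877600)]))))))) (.mul (.g 12) (.add (.mul (.g 12) (.add (.mul (.pp [(1, 4098150)]) (.sq [(1, 11),
 (2, 50), (3, -55), (5, 6), (7, 100)])) (.mul (.pp [(1, 6412050)]) (.sq [(1, -39), (2, 100), (3,
 29), (5, -69), (7, 63)])))) (.mul (.g 8) (.mul (.pp [(1, 20164200)]) (.sq [(1, -19), (2, 100), (3,
 -2), (5, -37), (7, 4)])))))) (.add (.mul (.g 0) (.pp [(1, 300000000)])) (.mul (.g 1) (.pp [(1,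
 1200000000)])))) (.add (.add (.mul (.g 2) (.pp [(1, 500000000000)])) (.mul (.g 3) (.pp [(1,
 500000000000)]))) (.add (.mul (.g 4) (.mul (.pp [(1, 21261000)]) (.sq [(1, -4), (2, 85), (3, 19),
 (5, -100), (7, 11)]))) (.add (.mul (.g 17) (.mul (.pp [(1, 807600)]) (.sq [(1, -9), (2, 98), (3,
 16), (5, -100), (7, 36)]))) (.mul (.g 18) (.pp [(1, 500000000000)]))))))) (.pp [(1, 133264554),
 (2, 18295239), (3, 10116075), (4, 11724300), (5, 13373409), (6, 7862718), (7, 14299938), (8,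
 18284850), (9, 22344528), (10, 15186024), (12, 18533700), (14, 10103646), (15, 18897768), (16,
 15727650), (18, 21287079), (20, 13420000), (21, 18505764), (24, 13502550), (25, 15741120), (27,
 10081407), (28, 19943100), (30, 16435794), (35, 16842432), (36, 13817550), (40, 15310350), (42,
 17158326), (45, 10459119), (49, 13486134), (50, 16087471), (54, 13513350), (56, 13575600), (60,
 14832300), (63, 11519076), (70, 11636718), (75, 15456141), (81, 16414650), (84, 11364150), (90,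
 13052400), (98, 17227611), (100, 13307850), (105, 15886128), (125, 12886479), (126, 17312400),
 (135, 15834750), (140, 12723900), (147, 14409855), (150, 13278600), (175, 14515632), (189,
 16022700), (196, 13652400), (210, 21440100), (225, 16036050), (245, 12827289), (250, 15524850),
 (294, 13985850), (315, 10854150), (343, 15187200), (350, 14604300), (375, 16592700), (441,
 16222500), (490, 14632800), (525, 15131250), (625, 15355050), (686, 14457000), (735, 17116950),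
 (875, 15814050), (1029, 16500000), (1225, 16048950), (1715, 15533400), (2401, 15000000)]))))))))
 (.cut 450 [(2, -1), (3, 1)] (.add (.mul (.g 10) (.pp [(1, 7)])) (.add (.mul (.g 9) (.pp [(1,
 310)])) (.mul (.g 0) (.pp [(1, 9)])))) (.rule 1 (.rule 6 (.rule 7 (.leaf 6000000000 (.add (.add
 (.add (.add (.mul (.pp [(1, 53244000)]) (.sq [(1, -33), (2, 100), (3, 6), (5, -5), (7, 10)]))
 (.add (.mul (.g 4) (.add (.add (.mul (.g 10) (.add (.add (.mul (.g 18) (.add (.mul (.g 5) (.pp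
 [(1, 8083440000)])) (.add (.mul (.g 8) (.pp [(1, 236822400000)])) (.mul (.g 15) (.pp [(1,
 280030800000)]))))) (.mul (.g 6) (.add (.mul (.g 5) (.pp [(1, 9897052800)])) (.mul (.g 9) (.pp
 [(1, 7720464000)]))))) (.add (.mul (.g 7) (.add (.mul (.g 4) (.pp [(1, 2101896000)])) (.mul (.g 7)
 (.pp [(1, 30398400000)])))) (.add (.mul (.g 8) (.mul (.g 9) (.pp [(1, 699234000000)]))) (.mul (.g
 10) (.mul (.g 12) (.pp [(1, 172070400000)]))))))) (.add (.mul (.g 9) (.add (.add (.pp [(1,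
 162238800000)]) (.mul (.g 4) (.add (.mul (.g 11) (.pp [(1, 15480000)])) (.mul (.g 13) (.pp [(1,
 2089224000)]))))) (.add (.mul (.g 9) (.add (.pp [(1, 16759200000)]) (.mul (.g 8) (.pp [(1,
 109402800000)])))) (.mul (.g 18) (.mul (.g 18) (.pp [(1, 24608400000)])))))) (.mul (.g 7) (.add
 (.add (.pp [(1, 34947600000)]) (.mul (.g 6) (.mul (.g 7) (.pp [(1, 8926224000)])))) (.add (.mul
 (.g 8) (.mul (.g 11) (.pp [(1, 598825200000)]))) (.mul (.g 13) (.pp [(1, 127250400000)])))))))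
 (.add (.add (.mul (.g 18) (.add (.pp [(1, 66253200000)]) (.mul (.g 8) (.add (.mul (.g 8) (.pp [(1,
 118359600000)])) (.mul (.g 18) (.pp [(1, 167083200000)])))))) (.mul (.g 6) (.pp [(1,
 17113584000)]))) (.add (.mul (.g 11) (.mul (.g 11) (.mul (.g 12) (.pp [(1, 135781200000)]))))
 (.mul (.g 14) (.mul (.pp [(1, 47454)]) (.sq [(1, -12), (2, -53), (3, -56), (5, -100), (7,
 90)]))))))) (.mul (.g 18) (.add (.add (.add (.mul (.pp [(1, 1447110000)]) (.sq [(1, -32), (2,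
 100), (3, -25), (5, -3)])) (.mul (.g 18) (.add (.add (.mul (.pp [(1, 178068000)]) (.sq [(1, 5),
 (2, -7), (3, -38), (5, 100), (7, -38)])) (.mul (.pp [(1, 185724000)]) (.sq [(1, -1), (2, 9), (3,
 91), (5, -8), (7, -100)]))) (.add (.mul (.g 11) (.add (.mul (.g 8) (.pp [(1, 284520000000)]))
 (.mul (.g 16) (.pp [(1, 5037720000000)])))) (.add (.mul (.g 5) (.mul (.g 9) (.pp [(1,
 2377644000000)]))) (.mul (.g 13) (.mul (.g 18) (.pp [(1, 861300000000)])))))))) (.add (.mul (.g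
 10) (.add (.mul (.g 10) (.add (.pp [(1, 1926960000000)]) (.mul (.g 10) (.pp [(1,
 2114940000000)])))) (.add (.mul (.g 6) (.mul (.g 14) (.pp [(1, 5633640000)]))) (.mul (.g 7) (.pp
 [(1, 11889480000000)]))))) (.mul (.g 7) (.mul (.g 7) (.mul (.g 7) (.pp [(1, 3787200000000)]))))))
 (.add (.add (.mul (.g 11) (.mul (.g 11) (.mul (.g 14) (.pp [(1, 241986000000)])))) (.mul (.g 12)
 (.mul (.pp [(1, 116784000)]) (.sq [(1, -94), (2, 100), (3, 73), (5, 100), (7, 73)])))) (.add (.mul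
 (.g 15) (.mul (.pp [(1, 150966000)]) (.sq [(1, -100), (2, 81), (3, 81), (5, 81), (7, 81)]))) (.mul
 (.g 16) (.mul (.pp [(1, 770088000)]) (.sq [(1, -50), (2, 31), (3, 41), (5, 41), (7, 41)])))))))))
 (.add (.mul (.g 7) (.add (.mul (.g 7) (.add (.add (.pp [(1, 4021920000000)]) (.mul (.g 7) (.add
 (.add (.pp [(1, 5200140000000)]) (.mul (.g 9) (.pp [(1, 893100000000)]))) (.add (.mul (.g 11) (.pp
 [(1, 1499520000000)])) (.mul (.g 15) (.pp [(1, 11421360000000)])))))) (.add (.mul (.g 8) (.add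
 (.mul (.g 6) (.pp [(1, 102321600000)])) (.mul (.g 12) (.pp [(1, 13333560000000)])))) (.add (.mul
 (.g 10) (.add (.mul (.g 11) (.pp [(1, 731760000000)])) (.mul (.g 15) (.pp [(1, 4168440000000)]))))
 (.mul (.g 15) (.mul (.g 15) (.pp [(1, 5791020000000)]))))))) (.mul (.g 6) (.mul (.g 6) (.add (.mul
 (.g 8) (.pp [(1, 3937248000)])) (.mul (.g 12) (.pp [(1, 31184256000)]))))))) (.add (.mul (.g 6)
 (.add (.mul (.g 10) (.add (.add (.mul (.g 10) (.add (.mul (.g 13) (.pp [(1, 501816000000)])) (.mul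
 (.g 15) (.pp [(1, 111638400000)])))) (.mul (.g 5) (.mul (.g 6) (.pp [(1, 5783424000)])))) (.add
 (.mul (.g 8) (.mul (.g 9) (.pp [(1, 1148136000000)]))) (.mul (.g 13) (.mul (.g 15) (.pp [(1,
 367269600000)])))))) (.mul (.g 6) (.add (.pp [(1, 30938016000)]) (.mul (.g 8) (.mul (.g 12) (.pp
 [(1, 1475616000)]))))))) (.mul (.g 13) (.add (.add (.mul (.g 5) (.mul (.pp [(1, 93806400)]) (.sq
 [(1, -41), (2, 100), (3, 9), (5, -20), (7, 21)]))) (.mul (.g 8) (.mul (.pp [(1, 474450000)]) (.sq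
 [(1, -56), (2, 100), (3, 31), (5, -4), (7, 12)])))) (.add (.mul (.g 12) (.mul (.pp [(1,
 190758000)]) (.sq [(1, -4), (2, 100), (3, -10), (5, -55), (7, 53)]))) (.mul (.g 15) (.mul (.pp
 [(1, 911946000)]) (.sq [(1, 33), (2, 99), (3, -75), (5, 12), (7, 100)]))))))))) (.add (.add (.mul
 (.g 14) (.add (.mul (.g 14) (.add (.mul (.pp [(1, 766965)]) (.sq [(1, 30), (2, -55), (3, 100), (5,
 -27), (7, -85)])) (.mul (.g 11) (.mul (.g 11) (.pp [(1, 6196200000)]))))) (.add (.mul (.g 9) (.mul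
 (.g 9) (.mul (.g 10) (.pp [(1, 486144000000)])))) (.mul (.g 16) (.mul (.pp [(1, 30047700)]) (.sq
 [(1, 14), (2, -42), (3, 33), (5, -100), (7, -88)])))))) (.add (.mul (.g 0) (.pp [(1,
 48000000000)])) (.mul (.g 1) (.pp [(1, 20000000000000)])))) (.add (.mul (.g 2) (.pp [(1,
 20000000000000)])) (.add (.mul (.g 16) (.mul (.g 16) (.mul (.pp [(1, 401304000)]) (.sq [(1, 28),
 (2, 27), (3, -66), (5, -67), (7, 100)])))) (.mul (.g 17) (.pp [(1, 20000000000000)])))))) (.pp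
 [(1, 21107228988), (2, 499591284), (3, 587258448), (4, 623440413), (5, 568756260), (6, 747149592),
 (7, 492995580), (8, 581477040), (9, 571904532), (10, 636990030), (12, 654915120), (14, 753007770),
 (15, 724947960), (16, 592350000), (18, 509971200), (20, 549919060), (21, 748282440), (23,
 60000000000000), (24, 622554000), (25, 631667715), (27, 620522640), (28, 533709600), (30,
 560588640), (35, 751649850), (36, 508494000), (40, 621738000), (42, 599545200), (45, 427396140),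
 (49, 652441275), (50, 680733400), (54, 672096000), (56, 665700000), (60, 613308000), (63,
 491719200), (70, 536182800), (75, 535062600), (81, 585102000), (84, 523242000), (90, 688098000),
 (98, 468676200), (100, 645672000), (105, 315459600), (125, 572208600), (126, 536412000), (135,
 655470000), (140, 511944000), (147, 597751800), (150, 516456000), (175, 563214000), (189,
 643278000), (196, 587796000), (210, 735252000), (225, 624360000), (245, 541938600), (250,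
 598740000), (294, 637572000), (315, 720096000), (343, 629214000), (350, 657852000), (375,
 618312000), (441, 591990000), (490, 646728000), (525, 638514000), (625, 575100000), (686,
 612960000), (735, 594132000), (875, 600312000), (1029, 586170000), (1225, 610068000), (1715,
 598536000), (2401, 569808000)])))))))))
 (.split [(1, -3), (5, 5)]
 (.cut 1 [(1, 3), (5, -2)] (.add (.add (.mul (.g 7) (.pp [(1, 1)])) (.mul (.g 3) (.pp [(1, 1)])))
 (.add (.mul (.g 11) (.pp [(1, 1)])) (.mul (.g 6) (.pp [(1, 1)])))) (.rule 12 (.rule 4 (.leaf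
 1200000000 (.add (.add (.add (.add (.mul (.pp [(1, 195489600)]) (.sq [(1, 3), (2, 100), (3, -16),
 (5, -75), (7, -19)])) (.add (.mul (.g 3) (.add (.add (.mul (.g 9) (.add (.add (.mul (.g 5) (.add
 (.mul (.g 3) (.pp [(1, 13780800000)])) (.add (.mul (.g 8) (.pp [(1, 44524800000)])) (.mul (.g 12)
 (.pp [(1, 3116760000)]))))) (.mul (.g 7) (.add (.mul (.g 4) (.pp [(1, 9643392000)])) (.add (.mul
 (.g 9) (.pp [(1, 101848800000)])) (.mul (.g 12) (.pp [(1, 6742080000)])))))) (.add (.mul (.g 3)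
 (.mul (.g 16) (.pp [(1, 19123200000)]))) (.mul (.g 9) (.mul (.g 9) (.pp [(1, 83788800000)]))))))
 (.add (.mul (.g 4) (.add (.add (.pp [(1, 11983968000)]) (.mul (.g 7) (.add (.pp [(1, 3385824000)])
 (.mul (.g 14) (.pp [(1, 1305216000)]))))) (.add (.mul (.g 3) (.mul (.g 6) (.pp [(1, 984633600)])))
 (.add (.mul (.g 5) (.pp [(1, 36537984000)])) (.mul (.g 16) (.pp [(1, 7830624000)])))))) (.mul (.g
 8) (.add (.add (.mul (.g 6) (.add (.mul (.g 8) (.pp [(1, 98563200000)])) (.mul (.g 14) (.pp [(1,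
 29438400000)])))) (.mul (.g 3) (.mul (.g 3) (.pp [(1, 915456000)])))) (.add (.mul (.g 11) (.mul
 (.g 12) (.pp [(1, 9615120000)]))) (.add (.mul (.g 14) (.mul (.g 14) (.pp [(1, 6681600000)])))
 (.mul (.g 16) (.pp [(1, 382240800000)])))))))) (.add (.mul (.g 3) (.add (.mul (.pp [(1, 681600)])
 (.sq [(1, 84), (2, -22), (3, -63), (5, -100), (7, 97)])) (.mul (.g 14) (.add (.mul (.g 6) (.pp
 [(1, 33496320000)])) (.mul (.g 11) (.pp [(1, 988320000)])))))) (.add (.mul (.g 16) (.add (.mul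
 (.pp [(1, 1930800)]) (.sq [(1, -33), (2, -93), (3, -88), (5, 100), (7, -79)])) (.add (.mul (.g 5)
 (.pp [(1, 262408800000)])) (.mul (.g 7) (.pp [(1, 102307200000)]))))) (.mul (.g 10) (.add (.pp
 [(1, 15597600000)]) (.mul (.g 7) (.mul (.g 7) (.pp [(1, 137848800000)]))))))))) (.mul (.g 4) (.add
 (.add (.mul (.g 5) (.add (.add (.pp [(1, 140238720000)]) (.mul (.g 5) (.add (.mul (.g 5) (.pp [(1,
 20851200000)])) (.add (.mul (.g 11) (.pp [(1, 9300960000)])) (.mul (.g 16) (.pp [(1,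
 21295200000)])))))) (.add (.mul (.g 6) (.add (.mul (.g 6) (.pp [(1, 92010720000)])) (.mul (.g 16)
 (.pp [(1, 55264320000)])))) (.add (.mul (.g 11) (.add (.pp [(1, 34143360000)]) (.mul (.g 16) (.pp
 [(1, 7358400000)])))) (.mul (.g 9) (.pp [(1, 70769280000)])))))) (.mul (.g 6) (.add (.add (.mul
 (.g 4) (.add (.pp [(1, 189139200)]) (.add (.mul (.g 6) (.pp [(1, 3622329600)])) (.mul (.g 7) (.pp
 [(1, 1063065600)]))))) (.mul (.g 8) (.add (.mul (.g 8) (.pp [(1, 81929280000)])) (.mul (.g 16)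
 (.pp [(1, 183880320000)]))))) (.add (.mul (.g 6) (.mul (.g 12) (.pp [(1, 2597088000)]))) (.mul (.g
 7) (.mul (.g 16) (.pp [(1, 5607360000)]))))))) (.add (.mul (.g 16) (.add (.pp [(1, 4384320000)])
 (.add (.mul (.g 8) (.mul (.g 8) (.pp [(1, 73031040000)]))) (.mul (.g 9) (.mul (.g 16) (.pp [(1,
 29842080000)])))))) (.mul (.g 8) (.mul (.g 8) (.mul (.g 9) (.pp [(1, 4848480000)]))))))))) (.add
 (.mul (.g 16) (.add (.add (.mul (.pp [(1, 554384400)]) (.sq [(1, -29), (2, 100), (3, -30), (5,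
 -1), (7, 11)])) (.add (.mul (.g 8) (.add (.mul (.g 5) (.mul (.g 5) (.pp [(1, 708528000000)])))
 (.add (.mul (.g 8) (.mul (.g 8) (.pp [(1, 333840000000)]))) (.mul (.g 10) (.mul (.g 10) (.pp [(1,
 882936000000)])))))) (.mul (.g 16) (.add (.mul (.pp [(1, 41019000000)]) (.sq [(1, 2), (2, -1), (3,
 -1), (5, -1), (7, -1)])) (.mul (.g 9) (.add (.mul (.g 9) (.pp [(1, 351744000000)])) (.mul (.g 16)
 (.pp [(1, 54000000000)])))))))) (.add (.mul (.g 6) (.mul (.pp [(1, 130639200)]) (.sq [(1, -91),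
 (2, 73), (3, 99), (5, -22), (7, 100)]))) (.add (.mul (.g 10) (.mul (.pp [(1, 24481200)]) (.sq [(1,
 55), (2, 11), (3, -83), (5, 6), (7, 100)]))) (.mul (.g 11) (.mul (.pp [(1, 42577200)]) (.sq [(1,
 -47), (2, 100), (3, -25), (5, -4), (7, 92)]))))))) (.add (.mul (.g 6) (.add (.add (.mul (.pp [(1,
 136999200)]) (.sq [(2, 100), (5, -90), (7, 29)])) (.mul (.pp [(1, 14386800)]) (.sq [(1, -2), (2,
 100), (3, -15), (5, -68), (7, -20)]))) (.add (.mul (.g 6) (.mul (.pp [(1, 55920000)]) (.sq [(1,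
 -52), (2, 100), (3, 46), (5, -41), (7, -18)]))) (.mul (.g 7) (.mul (.pp [(1, 501825600)]) (.sq
 [(1, 2), (2, 50), (3, -9), (5, -37), (7, -12)])))))) (.mul (.g 12) (.add (.mul (.pp [(1,
 3060900)]) (.sq [(1, -22), (2, 100), (3, -54), (5, -19), (7, 78)])) (.add (.mul (.g 5) (.mul (.pp
 [(1, 607680)]) (.sq [(1, -20), (2, 100), (3, -28), (5, -29), (7, -11)]))) (.mul (.g 12) (.mul (.pp
 [(1, 104091)]) (.sq [(1, -61), (2, 54), (3, -18), (5, 100), (7, -100)]))))))))) (.add (.add (.mul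
 (.g 0) (.pp [(1, 4000000000000)])) (.add (.mul (.g 1) (.pp [(1, 1200000000)])) (.mul (.g 5) (.mul
 (.pp [(1, 158624400)]) (.sq [(1, 21), (2, 90), (3, -6), (5, -100), (7, -25)]))))) (.add (.add
 (.mul (.g 7) (.mul (.g 11) (.mul (.pp [(1, 29170800)]) (.sq [(1, -66), (2, 100), (3, -59), (5,
 66), (7, 39)])))) (.mul (.g 8) (.mul (.g 8) (.mul (.pp [(1, 29270400)]) (.sq [(1, 15), (2, -43),
 (3, -40), (5, 16), (7, 100)]))))) (.add (.mul (.g 14) (.mul (.pp [(1, 34743600)]) (.sq [(1, 6),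
 (2, 100), (3, -20), (5, -78), (7, -3)]))) (.mul (.g 15) (.pp [(1, 4000000000000)])))))) (.pp [(1,
 1006451709), (2, 131482188), (3, 139163244), (4, 105009444), (5, 127206960), (6, 110534184), (7,
 128851800), (8, 124089840), (9, 75683556), (10, 95779920), (12, 122154000), (14, 120286800), (15,
 114882960), (16, 124257600), (18, 139401600), (19, 12000000000000), (20, 142966560), (21,
 87361200), (24, 114711600), (25, 133274100), (27, 158351040), (28, 105777600), (30, 126803040),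
 (35, 101877600), (36, 114723600), (40, 99484800), (42, 156724320), (45, 148446240), (49,
 107718000), (50, 117043920), (54, 111031200), (56, 125425200), (60, 133017600), (63, 153500400),
 (70, 137000160), (75, 102835200), (81, 106648800), (84, 112818000), (90, 117915600), (98,
 107602320), (100, 125755200), (105, 132076800), (125, 107502000), (126, 99847200), (135,
 110163600), (140, 118416000), (147, 160984800), (150, 127156800), (175, 125317200), (189,
 108002400), (196, 124776000), (210, 122378400), (225, 111992400), (245, 143419200), (250,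
 127147200), (294, 117177600), (315, 109668000), (343, 132624000), (350, 115291200), (375,
 121891200), (441, 97660800), (490, 124246800), (525, 115591200), (625, 119995200), (686,
 126019200), (735, 95750400), (875, 120633600), (1029, 104620800), (1225, 114171600), (1715,
 108754800), (2401, 117000000)]))))))
 (.split [(1, -7), (5, 50)]
 (.split [(2, 1), (3, -1)]
 (.rule 0 (.rule 6 (.rule 11 (.leaf 300000000 (.add (.add (.add (.add (.mul (.g 10) (.add (.add
 (.add (.mul (.g 10) (.add (.add (.mul (.g 14) (.add (.pp [(1, 19101900000)]) (.add (.mul (.g 6)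
 (.pp [(1, 22884000)])) (.mul (.g 12) (.pp [(1, 3253200000)]))))) (.mul (.g 18) (.add (.mul (.g 4)
 (.pp [(1, 1116540000)])) (.add (.mul (.g 8) (.pp [(1, 109602000000)])) (.mul (.g 10) (.pp [(1,
 42810000000)])))))) (.add (.mul (.g 13) (.add (.mul (.g 5) (.pp [(1, 35572200000)])) (.mul (.g 6)
 (.pp [(1, 1480440000)])))) (.mul (.g 8) (.mul (.g 11) (.pp [(1, 102756000000)])))))) (.mul (.g 7)
 (.add (.add (.mul (.g 5) (.add (.pp [(1, 160206600000)]) (.add (.mul (.g 5) (.pp [(1,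
 5362800000)])) (.mul (.g 11) (.pp [(1, 25731000000)]))))) (.mul (.g 11) (.add (.pp [(1,
 366477000000)]) (.mul (.g 11) (.pp [(1, 35091000000)]))))) (.add (.mul (.g 9) (.mul (.g 18) (.pp
 [(1, 315054000000)]))) (.mul (.g 13) (.mul (.g 15) (.pp [(1, 88428000000)]))))))) (.add (.mul (.g
 3) (.mul (.g 11) (.add (.mul (.g 9) (.pp [(1, 467334000000)])) (.add (.mul (.g 11) (.pp [(1,
 232188000000)])) (.mul (.g 16) (.pp [(1, 124059000000)])))))) (.mul (.g 12) (.add (.mul (.g 5)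
 (.mul (.g 8) (.pp [(1, 102032400000)]))) (.mul (.g 18) (.mul (.g 18) (.pp [(1,
 26445000000)]))))))) (.add (.add (.mul (.g 9) (.mul (.g 9) (.mul (.g 9) (.pp [(1, 6207000000)]))))
 (.mul (.g 14) (.mul (.pp [(1, 1265040)]) (.sq [(1, 86), (2, 100), (3, 44), (5, -15), (7, 20)]))))
 (.add (.mul (.g 16) (.mul (.pp [(1, 4772700)]) (.sq [(1, -85), (2, -61), (3, -17), (5, 77), (7,
 100)]))) (.mul (.g 18) (.mul (.pp [(1, 4066500)]) (.sq [(1, 100), (2, 81), (3, 81), (5, 81), (7,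
 81)]))))))) (.add (.mul (.g 3) (.add (.add (.mul (.g 9) (.add (.add (.pp [(1, 522327000000)])
 (.mul (.g 5) (.add (.mul (.g 3) (.pp [(1, 1884600000)])) (.mul (.g 8) (.pp [(1,
 118659000000)]))))) (.add (.mul (.g 9) (.add (.mul (.g 6) (.pp [(1, 17148000000)])) (.mul (.g 13)
 (.pp [(1, 15954000000)])))) (.add (.mul (.g 7) (.pp [(1, 373296000000)])) (.mul (.g 15) (.mul (.g
 16) (.pp [(1, 616968000000)]))))))) (.add (.mul (.g 8) (.add (.add (.pp [(1, 375852000000)]) (.mul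
 (.pp [(1, 10860300)]) (.sq [(1, -1), (2, 24), (3, -48), (5, 100), (7, 37)]))) (.add (.mul (.g 3)
 (.pp [(1, 192984000000)])) (.mul (.g 7) (.pp [(1, 1011975000000)]))))) (.mul (.g 18) (.add (.mul
 (.pp [(1, 6753300)]) (.sq [(1, 12), (2, -69), (3, 100), (5, -3), (7, 89)])) (.mul (.pp [(1,
 6373500)]) (.sq [(1, 23), (2, 2), (3, -75), (5, 100), (7, 44)])))))) (.add (.add (.mul (.g 3)
 (.mul (.g 13) (.pp [(1, 248634000000)]))) (.mul (.g 5) (.mul (.pp [(1, 342660)]) (.sq [(1, 4), (2,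
 -23), (3, 100), (5, -77), (7, -25)])))) (.add (.mul (.g 7) (.pp [(1, 1355073000000)])) (.mul (.g
 14) (.mul (.pp [(1, 3930)]) (.sq [(1, 25), (2, 46), (3, -6), (5, -22), (7, 100)]))))))) (.mul (.g
 18) (.add (.add (.mul (.g 7) (.add (.mul (.pp [(1, 1743900)]) (.sq [(1, 70), (2, 100), (3, 95),
 (5, 95), (7, 68)])) (.mul (.g 7) (.add (.pp [(1, 61323000000)]) (.mul (.g 8) (.pp [(1,
 159960000000)])))))) (.mul (.g 16) (.add (.mul (.pp [(1, 4745100)]) (.sq [(1, -100), (2, 50), (3,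
 63), (5, 85), (7, 85)])) (.mul (.g 6) (.mul (.g 8) (.pp [(1, 4806840000)])))))) (.add (.mul (.g
 18) (.add (.pp [(1, 130497000000)]) (.mul (.pp [(1, 19294800)]) (.sq [(1, 100), (2, -37), (3,
 -19), (5, -60), (7, -60)])))) (.add (.mul (.g 11) (.mul (.pp [(1, 6357600)]) (.sq [(1, 61), (2,
 -82), (3, 8), (5, 100), (7, -63)]))) (.mul (.g 14) (.pp [(1, 27863250000)])))))))) (.add (.add
 (.mul (.g 14) (.add (.add (.mul (.g 6) (.add (.pp [(1, 1039476000)]) (.mul (.g 9) (.mul (.g 9)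
 (.pp [(1, 243444000)]))))) (.add (.mul (.g 4) (.pp [(1, 331905000)])) (.mul (.g 7) (.mul (.g 12)
 (.mul (.g 12) (.pp [(1, 30150000)])))))) (.add (.mul (.g 11) (.mul (.g 14) (.pp [(1,
 1666552500)]))) (.add (.mul (.g 15) (.mul (.pp [(1, 1088715)]) (.sq [(1, -25), (2, 17), (3, 100),
 (5, 33), (7, 58)]))) (.mul (.g 16) (.mul (.pp [(1, 82395)]) (.sq [(1, 4), (2, 6), (3, 100), (5,
 71), (7, 26)]))))))) (.mul (.g 8) (.add (.mul (.g 8) (.add (.mul (.g 8) (.add (.pp [(1,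
 250077000000)]) (.add (.mul (.g 8) (.pp [(1, 130773000000)])) (.mul (.g 9) (.pp [(1,
 310386000000)]))))) (.mul (.g 5) (.add (.mul (.g 5) (.pp [(1, 23452440000)])) (.mul (.g 9) (.pp
 [(1, 223474200000)])))))) (.mul (.g 4) (.mul (.pp [(1, 153144)]) (.sq [(2, -1), (3, 100), (5,
 -81), (7, 6)])))))) (.add (.mul (.g 12) (.add (.mul (.g 15) (.mul (.pp [(1, 6908400)]) (.sq [(1,
 -27), (2, -31), (3, 15), (5, 100), (7, -89)]))) (.mul (.g 16) (.mul (.pp [(1, 1137000)]) (.sq [(1,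
 39), (2, 25), (3, -64), (5, -80), (7, 100)]))))) (.mul (.g 0) (.pp [(1, 600000000)]))))) (.add
 (.add (.mul (.g 1) (.pp [(1, 1000000000000)])) (.add (.mul (.g 2) (.pp [(1, 1000000000000)]))
 (.mul (.g 5) (.mul (.g 5) (.pp [(1, 7555920000)]))))) (.add (.add (.mul (.g 11) (.mul (.g 11)
 (.mul (.pp [(1, 621600)]) (.sq [(1, -15), (2, 18), (3, -24), (5, 85), (7, 100)])))) (.mul (.g 13)
 (.mul (.g 13) (.mul (.pp [(1, 3728100)]) (.sq [(1, 65), (2, -12), (3, -4), (5, 16), (7, 100)])))))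
 (.add (.mul (.g 16) (.mul (.g 16) (.mul (.pp [(1, 44924400)]) (.sq [(1, -3), (2, 20), (3, 100),
 (5, 1), (7, -62)])))) (.mul (.g 17) (.pp [(1, 1000000000000)])))))) (.pp [(1, 27478507455), (2,
 31542960), (3, 33003555), (4, 26873115), (5, 31289910), (6, 27895530), (7, 31893000), (8,
 32515100), (9, 28905900), (10, 29553570), (12, 26401953), (14, 19185480), (15, 30388770), (16,
 31072800), (18, 33942360), (19, 3000000000000), (20, 20070080), (21, 28543680), (24, 26955000),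
 (25, 25113630), (27, 29979880), (28, 35917200), (30, 33857946), (35, 33143100), (36, 35356200),
 (40, 26419500), (42, 33834084), (45, 25571220), (49, 29211420), (50, 36086000), (54, 28764600),
 (56, 30252900), (60, 39292800), (63, 27219060), (70, 33047040), (75, 29038713), (81, 31560900),
 (84, 32391000), (90, 30412200), (98, 38167800), (100, 33085200), (105, 27985044), (125, 28366545),
 (126, 30933000), (135, 27269700), (140, 30263100), (147, 29602848), (150, 21710100), (175,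
 29111640), (189, 32073000), (196, 29947500), (210, 35211600), (225, 37063200), (245, 22708320),
 (250, 28261800), (294, 29109600), (315, 32890200), (343, 30179400), (350, 30398400), (375,
 32956200), (441, 33954900), (490, 33048900), (525, 28918800), (625, 30945900), (686, 29485500),
 (735, 31765200), (875, 31063200), (1029, 30910200), (1225, 30978300), (1715, 33385500), (2401,
 29026500)]))))))
 (.rule 1 (.rule 6 (.rule 11 (.leaf 150000000 (.add (.add (.add (.add (.add (.mul (.pp [(1,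
 23913900)]) (.sq [(1, -18), (2, 100), (3, 11), (5, -52), (7, 34)])) (.mul (.pp [(1, 5749500)])
 (.sq [(1, -37), (2, -97), (3, 21), (5, 100), (7, 42)]))) (.add (.mul (.pp [(1, 23901750)]) (.sq
 [(1, -32), (2, 100), (3, -21), (5, 20), (7, 56)])) (.mul (.pp [(1, 976800)]) (.sq [(1, -1), (2,
 -41), (3, -34), (5, 100), (7, -29)])))) (.add (.add (.mul (.g 18) (.add (.add (.add (.mul (.pp
 [(1, 2221200)]) (.sq [(1, -38), (2, 100), (3, 32), (5, -39), (7, 41)])) (.add (.mul (.pp [(1,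
 11805450)]) (.sq [(1, -28), (2, 100), (3, -57), (5, 59), (7, 74)])) (.mul (.g 10) (.add (.add
 (.mul (.g 10) (.add (.add (.pp [(1, 5044500000)]) (.mul (.g 3) (.pp [(1, 42922500000)]))) (.add
 (.mul (.g 7) (.pp [(1, 58141500000)])) (.mul (.g 10) (.pp [(1, 35595000000)]))))) (.mul (.g 7)
 (.add (.pp [(1, 339907500000)]) (.mul (.g 7) (.pp [(1, 59482500000)]))))) (.add (.mul (.g 3) (.mul
 (.g 8) (.pp [(1, 603000000)]))) (.mul (.g 4) (.mul (.g 4) (.pp [(1, 10684800)])))))))) (.add (.mul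
 (.g 6) (.add (.mul (.g 7) (.add (.pp [(1, 14137500000)]) (.add (.mul (.g 7) (.pp [(1,
 9820380000)])) (.mul (.g 8) (.pp [(1, 375960000)]))))) (.mul (.g 6) (.mul (.g 8) (.pp [(1,
 54117600)]))))) (.add (.mul (.g 3) (.add (.mul (.pp [(1, 16597950)]) (.sq [(1, -40), (2, 100), (3,
 7), (5, 3), (7, 3)])) (.add (.mul (.g 3) (.mul (.g 5) (.pp [(1, 4479600000)]))) (.mul (.g 11)
 (.mul (.g 11) (.pp [(1, 5518500000)])))))) (.mul (.g 4) (.add (.mul (.pp [(1, 9885)]) (.sq [(1,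
 -3), (2, -24), (3, -8), (5, 100), (7, -5)])) (.mul (.g 4) (.mul (.g 9) (.pp [(1,
 29269800)])))))))) (.add (.add (.mul (.g 18) (.add (.mul (.pp [(1, 2071200)]) (.sq [(2, -9), (3,
 40), (5, -48), (7, 100)])) (.mul (.pp [(1, 1580250)]) (.sq [(1, 100), (2, -8), (3, 32), (5, 9),
 (7, -97)])))) (.add (.mul (.g 5) (.mul (.pp [(1, 381330)]) (.sq [(1, 9), (3, -3), (5, 100), (7,
 -80)]))) (.mul (.g 7) (.mul (.g 7) (.mul (.g 7) (.pp [(1, 299466000000)])))))) (.add (.mul (.g 11)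
 (.mul (.pp [(1, 2260200)]) (.sq [(1, -100), (2, 45), (3, 85), (5, 69), (7, 85)]))) (.add (.mul (.g
 15) (.mul (.pp [(1, 111600)]) (.sq [(1, -100), (2, 81), (3, 81), (5, 81), (7, 81)]))) (.mul (.g
 16) (.mul (.pp [(1, 6208800)]) (.sq [(1, -50), (2, 31), (3, 41), (5, 41), (7, 41)])))))))) (.mul
 (.g 6) (.add (.add (.mul (.g 7) (.add (.add (.mul (.g 7) (.add (.pp [(1, 10055220000)]) (.add
 (.mul (.g 3) (.pp [(1, 8109900000)])) (.mul (.g 9) (.pp [(1, 8839440000)]))))) (.mul (.g 4) (.add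
 (.pp [(1, 213948000)]) (.mul (.g 10) (.pp [(1, 127581600)]))))) (.add (.mul (.g 3) (.mul (.g 10)
 (.pp [(1, 2896980000)]))) (.add (.mul (.g 6) (.mul (.g 8) (.pp [(1, 97216800)]))) (.mul (.g 14)
 (.pp [(1, 957345000)])))))) (.mul (.g 4) (.add (.mul (.g 4) (.add (.pp [(1, 2222496)]) (.mul (.g
 16) (.pp [(1, 1322496)])))) (.add (.mul (.g 3) (.mul (.g 3) (.pp [(1, 21499200)]))) (.mul (.g 8)
 (.mul (.g 10) (.pp [(1, 11691600)]))))))) (.add (.mul (.g 9) (.add (.mul (.g 3) (.mul (.g 8) (.pp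
 [(1, 1094340000)]))) (.mul (.g 9) (.mul (.g 14) (.pp [(1, 341283000)]))))) (.mul (.g 10) (.mul (.g
 10) (.mul (.g 14) (.pp [(1, 93918000)])))))))) (.add (.mul (.g 7) (.add (.add (.mul (.pp [(1,
 17959200)]) (.sq [(1, -13), (2, 100), (3, 17), (5, -24), (7, -76)])) (.mul (.g 7) (.add (.mul (.pp
 [(1, 3693450)]) (.sq [(1, -21), (2, 100), (3, -14), (5, 92), (7, 8)])) (.add (.mul (.g 4) (.add
 (.mul (.g 7) (.pp [(1, 3401790000)])) (.mul (.g 12) (.pp [(1, 153090000)])))) (.mul (.g 7) (.mul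
 (.g 7) (.pp [(1, 37977000000)]))))))) (.add (.mul (.g 11) (.mul (.pp [(1, 12125250)]) (.sq [(1,
 -50), (2, 100), (3, -13), (5, 66), (7, -13)]))) (.mul (.g 13) (.mul (.pp [(1, 242100)]) (.sq [(1,
 -16), (2, 100), (3, 3), (5, -5), (7, -74)])))))) (.mul (.g 14) (.add (.mul (.g 4) (.add (.mul (.g
 9) (.mul (.g 14) (.pp [(1, 2978925)]))) (.add (.mul (.g 10) (.mul (.g 10) (.pp [(1, 74715000)])))
 (.mul (.g 11) (.mul (.g 11) (.pp [(1, 33252000)])))))) (.add (.mul (.g 14) (.add (.mul (.g 3)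
 (.mul (.g 8) (.pp [(1, 57918750)]))) (.mul (.g 9) (.mul (.g 14) (.pp [(1, 124875)]))))) (.mul (.g
 16) (.add (.mul (.pp [(1, 304440)]) (.sq [(1, -51), (2, 68), (3, 48), (5, -100), (7, 90)])) (.mul
 (.pp [(1, 144390)]) (.sq [(1, -29), (2, -4), (3, -27), (5, 78), (7, 100)])))))))))) (.add (.add
 (.add (.mul (.g 13) (.add (.add (.mul (.pp [(1, 8346300)]) (.sq [(1, -56), (2, 100), (3, 25), (5,
 -11), (7, 47)])) (.mul (.pp [(1, 16656300)]) (.sq [(1, -31), (2, -84), (3, 18), (5, 100), (7,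
 32)]))) (.add (.mul (.g 13) (.add (.mul (.pp [(1, 7647000)]) (.sq [(1, -39), (2, 50), (3, 27), (5,
 -37), (7, 47)])) (.mul (.pp [(1, 2310000)]) (.sq [(1, -36), (2, 100), (3, -1), (7, 77)])))) (.mul
 (.g 3) (.mul (.pp [(1, 653100)]) (.sq [(1, -34), (2, 100), (3, -18), (5, 26), (7, 83)])))))) (.mul
 (.g 11) (.add (.mul (.pp [(1, 4624950)]) (.sq [(1, 18), (2, -54), (3, -38), (5, 100), (7, -73)]))
 (.add (.mul (.g 4) (.mul (.g 4) (.mul (.g 4) (.pp [(1, 153720)])))) (.mul (.g 16) (.mul (.pp [(1,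
 4123200)]) (.sq [(1, 23), (2, -100), (3, -20), (5, 66), (7, -45)]))))))) (.add (.mul (.g 5) (.add
 (.mul (.g 3) (.mul (.pp [(1, 245880)]) (.sq [(1, -20), (2, 20), (3, -48), (5, 39), (7, 100)])))
 (.mul (.g 12) (.mul (.pp [(1, 220050)]) (.sq [(1, -100), (2, 86), (3, 59), (5, 82), (7, 59)])))))
 (.mul (.g 0) (.pp [(1, 300000000)])))) (.add (.add (.mul (.g 1) (.pp [(1, 500000000000)])) (.mul
 (.g 2) (.pp [(1, 500000000000)]))) (.add (.mul (.g 16) (.mul (.pp [(1, 27088800)]) (.sq [(1, -11),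
 (2, -47), (3, -13), (5, 100), (7, -4)]))) (.mul (.g 17) (.pp [(1, 500000000000)])))))) (.pp [(1,
 622530159), (2, 14098380), (3, 13698255), (4, 15369570), (5, 13654308), (6, 17144190), (7,
 15720885), (8, 14844600), (9, 18221880), (10, 16197300), (12, 13187880), (14, 17830320), (15,
 18509880), (16, 13500000), (18, 13521330), (19, 1500000000000), (20, 15710800), (21, 16800630),
 (24, 14625000), (25, 15141630), (27, 12173820), (28, 13471680), (30, 11512500), (35, 16678800),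
 (36, 17301750), (40, 14373000), (42, 12919620), (45, 12421380), (49, 12964875), (50, 13338730),
 (54, 14058150), (56, 16485000), (60, 16642800), (63, 11173080), (70, 11876100), (75, 15787380),
 (81, 16418550), (84, 12617700), (90, 16433250), (98, 12596400), (100, 11298300), (105, 10798800),
 (125, 17346060), (126, 18535950), (135, 14688000), (140, 14977200), (147, 15958725), (150,
 17809950), (175, 15053550), (189, 15807450), (196, 15403950), (210, 17715300), (225, 15380250),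
 (245, 13789950), (250, 18365100), (294, 15698550), (315, 15581550), (343, 16927425), (350,
 15392250), (375, 12030600), (441, 15469500), (490, 17083050), (525, 15611550), (625, 13051200),
 (686, 15285450), (735, 15648600), (875, 15034200), (1029, 14121450), (1225, 14216100), (1715,
 15439950), (2401, 14427750)])))))))
 (.cut 450 [(2, -1), (3, 1)] (.add (.mul (.g 10) (.pp [(1, 7)])) (.add (.mul (.g 9) (.pp [(1,
 310)])) (.mul (.g 0) (.pp [(1, 9)])))) (.rule 1 (.rule 6 (.leaf 6000000000 (.add (.add (.add (.add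
 (.mul (.pp [(1, 719880000)]) (.sq [(1, -27), (2, 100), (3, -4), (5, 1), (7, 66)])) (.mul (.g 17)
 (.add (.add (.mul (.g 9) (.add (.add (.mul (.pp [(1, 88662000)]) (.sq [(1, 2), (2, 70), (3, -15),
 (5, 100), (7, 21)])) (.mul (.g 9) (.add (.pp [(1, 4206960000000)]) (.add (.mul (.g 7) (.pp [(1,
 586200000000)])) (.mul (.g 9) (.pp [(1, 1274100000000)])))))) (.add (.mul (.g 6) (.pp [(1,
 12894840000000)])) (.add (.mul (.g 7) (.mul (.g 7) (.pp [(1, 766980000000)]))) (.mul (.g 8) (.mul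
 (.g 8) (.pp [(1, 2008740000000)]))))))) (.add (.mul (.g 17) (.add (.add (.pp [(1, 3292260000000)])
 (.mul (.pp [(1, 131256000)]) (.sq [(1, 13), (2, -71), (3, 89), (5, 55), (7, -100)]))) (.add (.mul
 (.g 3) (.add (.pp [(1, 53992800000)]) (.mul (.g 7) (.pp [(1, 94728000000)])))) (.mul (.g 10) (.mul
 (.g 15) (.pp [(1, 1915080000000)])))))) (.mul (.g 6) (.add (.mul (.pp [(1, 16410000)]) (.sq [(1,
 73), (2, 100), (3, 55), (5, 80), (7, 55)])) (.add (.mul (.g 6) (.add (.pp [(1, 8581800000000)])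
 (.mul (.g 6) (.pp [(1, 6157740000000)])))) (.mul (.g 8) (.pp [(1, 11802120000000)]))))))) (.add
 (.add (.mul (.g 13) (.add (.pp [(1, 284913000000)]) (.add (.mul (.pp [(1, 2924400)]) (.sq [(1,
 80), (2, -30), (3, 100), (5, -41), (7, -34)])) (.mul (.g 7) (.mul (.g 12) (.pp [(1,
 75363000000)])))))) (.mul (.g 3) (.add (.mul (.g 3) (.pp [(1, 557208000)])) (.mul (.g 7) (.mul (.g
 7) (.pp [(1, 138198000000)])))))) (.add (.mul (.g 11) (.add (.mul (.pp [(1, 24714000)]) (.sq [(1,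
 56), (2, 97), (3, -63), (5, 15), (7, -100)])) (.mul (.pp [(1, 2586000)]) (.sq [(1, 30), (2, -49),
 (3, -92), (5, 58), (7, 100)])))) (.mul (.g 15) (.mul (.pp [(1, 155520000)]) (.sq [(1, -50), (2,
 31), (3, 41), (5, 41), (7, 41)])))))))) (.add (.mul (.g 3) (.add (.add (.add (.mul (.g 8) (.add
 (.mul (.g 10) (.add (.mul (.g 7) (.pp [(1, 52160400000)])) (.add (.mul (.g 8) (.pp [(1,
 263743200000)])) (.mul (.g 15) (.pp [(1, 250030800000)]))))) (.mul (.g 3) (.add (.pp [(1,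
 1798656000)]) (.mul (.g 15) (.pp [(1, 822984000)])))))) (.mul (.g 6) (.add (.add (.pp [(1,
 197377200000)]) (.mul (.pp [(1, 422280)]) (.sq [(1, 53), (2, 80), (3, 94), (5, 100), (7, 94)])))
 (.add (.mul (.g 6) (.mul (.g 6) (.pp [(1, 36441600000)]))) (.mul (.g 12) (.pp [(1,
 787851600000)])))))) (.add (.mul (.g 3) (.add (.pp [(1, 3379416000)]) (.mul (.g 4) (.mul (.g 9)
 (.pp [(1, 139291200)]))))) (.mul (.g 7) (.add (.mul (.g 5) (.mul (.g 5) (.pp [(1, 77577600)])))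
 (.mul (.g 7) (.mul (.g 7) (.pp [(1, 23067600000)]))))))) (.add (.add (.mul (.g 9) (.pp [(1,
 13848000000)])) (.mul (.g 10) (.mul (.pp [(1, 5084280)]) (.sq [(1, 19), (2, -22), (3, -59), (5,
 100), (7, 43)])))) (.add (.mul (.g 11) (.mul (.pp [(1, 3764520)]) (.sq [(1, -51), (2, -13), (3,
 -75), (5, 100), (7, 23)]))) (.mul (.g 14) (.mul (.pp [(1, 203760)]) (.sq [(1, 45), (2, -18), (3,
 -66), (5, 100), (7, 69)]))))))) (.add (.mul (.g 13) (.add (.add (.mul (.g 9) (.add (.mul (.pp [(1,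
 4213500)]) (.sq [(1, 29), (2, -5), (3, 38), (5, 61), (7, 100)])) (.add (.mul (.g 7) (.add (.add
 (.mul (.g 6) (.pp [(1, 54009000000)])) (.mul (.g 7) (.pp [(1, 142827000000)]))) (.add (.mul (.g
 10) (.pp [(1, 78813000000)])) (.mul (.g 12) (.pp [(1, 77031000000)]))))) (.mul (.g 9) (.add (.mul
 (.g 6) (.pp [(1, 177693000000)])) (.mul (.g 9) (.pp [(1, 25305000000)]))))))) (.add (.mul (.g 5)
 (.add (.pp [(1, 3785160000)]) (.mul (.pp [(1, 1284)]) (.sq [(1, 37), (2, 11), (3, 100), (5, -39),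
 (7, -5)])))) (.mul (.g 13) (.add (.pp [(1, 211500000)]) (.mul (.pp [(1, 122055)]) (.sq [(1, -53),
 (2, 44), (3, -80), (5, -21), (7, 100)])))))) (.add (.mul (.g 7) (.mul (.pp [(1, 5290500)]) (.sq
 [(1, -19), (2, 56), (3, -75), (5, -17), (7, 100)]))) (.add (.mul (.g 8) (.mul (.g 10) (.pp [(1,
 109974000000)]))) (.mul (.g 12) (.mul (.pp [(1, 2830800)]) (.sq [(1, -23), (2, -35), (3, 20), (5,
 52), (7, 100)]))))))) (.mul (.g 6) (.add (.add (.mul (.g 6) (.add (.mul (.g 6) (.add (.pp [(1,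
 7903080000000)]) (.add (.mul (.g 7) (.pp [(1, 3601140000000)])) (.mul (.g 11) (.pp [(1,
 6028740000000)]))))) (.add (.mul (.g 11) (.add (.mul (.g 7) (.pp [(1, 1679460000000)])) (.mul (.g
 10) (.pp [(1, 8345940000000)])))) (.mul (.g 5) (.mul (.g 8) (.pp [(1, 43384800000)])))))) (.mul
 (.g 7) (.mul (.g 7) (.add (.mul (.g 7) (.pp [(1, 752520000000)])) (.mul (.g 9) (.pp [(1,
 1775820000000)])))))) (.add (.mul (.g 5) (.mul (.g 5) (.pp [(1, 8985024000)]))) (.mul (.g 9) (.mul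
 (.g 10) (.mul (.g 10) (.pp [(1, 2601180000000)])))))))))) (.add (.add (.mul (.g 12) (.add (.mul
 (.pp [(1, 1261104000)]) (.sq [(1, -27), (2, 100), (3, -13), (5, 21), (7, 56)])) (.mul (.g 7) (.mul
 (.pp [(1, 1740000)]) (.sq [(1, -22), (2, 68), (3, -68), (5, -19), (7, 100)]))))) (.add (.mul (.g
 0) (.pp [(1, 20000000000000)])) (.mul (.g 1) (.pp [(1, 20000000000000)])))) (.add (.mul (.g 5)
 (.mul (.g 5) (.mul (.g 8) (.mul (.g 8) (.pp [(1, 1250688000)]))))) (.add (.mul (.g 10) (.mul (.g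
 10) (.mul (.pp [(1, 861096000)]) (.sq [(1, -24), (2, 50), (5, 2), (7, 45)])))) (.mul (.g 16) (.pp
 [(1, 20000000000000)])))))) (.pp [(1, 51100661493), (2, 471408288), (3, 608949120), (4,
 639369372), (5, 593080698), (6, 735591960), (7, 493208460), (8, 479206440), (9, 534662520), (10,
 567950064), (12, 578572740), (14, 803840640), (15, 664066560), (16, 586008000), (18, 554411520),
 (19, 60000000000000), (20, 510394120), (21, 652861560), (23, 60000000000000), (24, 649314000),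
 (25, 673814997), (27, 651723420), (28, 606933900), (30, 622700280), (35, 654924840), (36,
 637650000), (40, 614298000), (42, 453882840), (45, 561456000), (49, 677955780), (50, 507607240),
 (54, 621090000), (56, 616962000), (60, 668376000), (63, 670837440), (70, 510500280), (75,
 415266840), (81, 569244000), (84, 684414000), (90, 620196000), (98, 461923920), (100, 618672000),
 (105, 497161800), (125, 708174840), (126, 625488000), (135, 588474000), (140, 688674000), (147,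
 646144980), (150, 642366000), (175, 587077500), (189, 572148000), (196, 672984000), (210,
 610764000), (225, 652962000), (245, 637754760), (250, 573228000), (294, 675900000), (315,
 695370000), (343, 556928400), (350, 556668000), (375, 604974000), (441, 510492000), (490,
 631668000), (525, 655380000), (625, 579834000), (686, 659202000), (735, 564900000), (875,
 606984000), (1029, 591810000), (1225, 615750000), (1715, 579408000), (2401, 639942000)])))))))))
 (P_Tp0 ++ xP_A_T6) = true := by decide +kernel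

theorem t_G_F5b_free : chk RFp gP_G_F5b
 (.cut 1 [(2, -1), (3, 1)] (.add (.mul (.g 9) (.pp [(1, 1)])) (.mul (.g 4) (.pp [(1, 1)]))) (.rule
 1 (.cut 20 [(2, 1), (5, -1)] (.add (.add (.mul (.g 2) (.pp [(1, 11)])) (.mul (.g 1) (.pp [(1,
 11)]))) (.add (.mul (.g 11) (.pp [(1, 9)])) (.mul (.g 9) (.pp [(1, 1)])))) (.rule 2 (.leaf
 60000000 (.add (.add (.add (.add (.mul (.g 8) (.add (.add (.mul (.g 6) (.add (.add (.pp [(1,
 202496400000)]) (.mul (.g 6) (.pp [(1, 1616400000)]))) (.add (.mul (.g 8) (.mul (.g 8) (.pp [(1,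
 193200000)]))) (.add (.mul (.g 10) (.pp [(1, 44488200000)])) (.mul (.g 13) (.mul (.g 14) (.pp [(1,
 244200000)]))))))) (.add (.mul (.g 5) (.add (.add (.pp [(1, 19030800000)]) (.mul (.g 5) (.mul (.g
 5) (.pp [(1, 618000000)])))) (.add (.mul (.g 9) (.pp [(1, 2434800000)])) (.mul (.g 11) (.mul (.g
 14) (.pp [(1, 38610000)])))))) (.mul (.g 4) (.add (.pp [(1, 393600000)]) (.add (.mul (.g 4) (.mul
 (.g 4) (.pp [(1, 91200000)]))) (.mul (.g 8) (.mul (.g 10) (.pp [(1, 1159800000)])))))))) (.add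
 (.mul (.g 8) (.mul (.g 10) (.mul (.g 10) (.pp [(1, 1119000000)])))) (.add (.mul (.g 11) (.mul (.g
 14) (.mul (.g 14) (.pp [(1, 27960000)])))) (.mul (.g 13) (.pp [(1, 24778800000)])))))) (.mul (.g
 11) (.add (.add (.mul (.g 4) (.add (.add (.mul (.pp [(1, 3939)]) (.sq [(1, 85), (2, 27), (3, 48),
 (5, 100)])) (.mul (.g 6) (.add (.pp [(1, 27340440000)]) (.mul (.g 4) (.pp [(1, 22740000)])))))
 (.add (.mul (.g 10) (.pp [(1, 25170000)])) (.mul (.g 11) (.mul (.g 13) (.pp [(1, 2349000)]))))))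
 (.mul (.g 5) (.add (.pp [(1, 927150000)]) (.add (.mul (.pp [(1, 324)]) (.sq [(1, 100), (2, 92),
 (3, 91), (5, 92)])) (.mul (.g 6) (.mul (.g 6) (.pp [(1, 24720000)]))))))) (.add (.mul (.g 6) (.mul
 (.pp [(1, 1332)]) (.sq [(1, 82), (2, 100), (3, 38), (5, -1)]))) (.add (.mul (.g 9) (.mul (.pp [(1,
 7128)]) (.sq [(1, 15), (2, 22), (3, 11), (5, 50)]))) (.mul (.g 13) (.pp [(1, 1282020000)])))))))
 (.add (.mul (.g 6) (.mul (.g 6) (.add (.pp [(1, 18264000000)]) (.mul (.g 6) (.add (.pp [(1,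
 109383000000)]) (.add (.mul (.g 4) (.pp [(1, 616800000)])) (.mul (.g 6) (.pp [(1,
 5457600000)])))))))) (.mul (.g 13) (.add (.mul (.g 13) (.add (.pp [(1, 45783000000)]) (.add (.mul
 (.pp [(1, 52320)]) (.sq [(2, 50), (3, -24), (5, -1)])) (.mul (.g 4) (.mul (.g 4) (.pp [(1,
 643800000)])))))) (.mul (.g 14) (.mul (.pp [(1, 328800000)]) (.sq [(2, -1), (5, 1)]))))))) (.add
 (.add (.mul (.g 0) (.pp [(1, 200000000000)])) (.mul (.g 2) (.pp [(1, 200000000000)]))) (.add (.mul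
 (.g 9) (.mul (.pp [(1, 1704000)]) (.sq [(2, 20), (3, -17)]))) (.mul (.g 12) (.pp [(1,
 200000000000)]))))) (.pp [(1, 347905800), (2, 5725005), (3, 6560040), (4, 6908922), (5, 6354888),
 (6, 5107332), (8, 7017813), (9, 5913048), (10, 5789460), (12, 3767784), (15, 5706144), (16,
 5570340), (18, 6000648), (20, 4490208), (24, 5985180), (25, 5613072), (27, 6484596), (30,
 6568080), (36, 6383520), (40, 6584700), (45, 6796776), (50, 7029360), (54, 5817840), (60,
 5459040), (75, 6576624), (81, 6274800), (90, 6219840), (100, 6204960), (125, 5959052), (135,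
 6803280), (150, 5464320), (225, 6857280), (250, 5613360), (375, 6432720), (625, 6026640)])))))))
 (P_free ++ xP_G_F5b) = true := by decide +kernel

theorem t_G_F7_c1 : chk RFp gP_G_F7
 (.cut 50 [(2, 1), (3, -1)] (.add (.add (.mul (.g 8) (.pp [(1, 45)])) (.mul (.g 7) (.pp [(1, 2)])))
 (.add (.mul (.g 2) (.pp [(1, 5)])) (.mul (.g 9) (.pp [(1, 9)])))) (.rule 0 (.cut 60 [(2, -1), (5,
 1)] (.add (.add (.mul (.g 11) (.pp [(1, 11)])) (.mul (.g 9) (.pp [(1, 3)]))) (.add (.mul (.g 1)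
 (.pp [(1, 5)])) (.mul (.g 6) (.pp [(1, 5)])))) (.rule 3 (.leaf 1200000000 (.add (.add (.add (.add
 (.mul (.g 16) (.add (.add (.mul (.g 7) (.add (.add (.mul (.g 7) (.add (.add (.mul (.g 5) (.pp [(1,
 1139196000000)])) (.mul (.g 8) (.pp [(1, 1317228000000)]))) (.add (.mul (.g 11) (.pp [(1,
 176790000000)])) (.add (.mul (.g 15) (.pp [(1, 5847276000000)])) (.mul (.g 16) (.pp [(1,
 1103400000000)])))))) (.mul (.g 13) (.add (.mul (.g 6) (.pp [(1, 247600800000)])) (.add (.mul (.g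
 8) (.pp [(1, 171086400000)])) (.mul (.g 15) (.pp [(1, 58387200000)])))))) (.add (.mul (.g 12)
 (.add (.mul (.g 8) (.pp [(1, 3168504000000)])) (.mul (.g 16) (.pp [(1, 664740000000)])))) (.mul
 (.g 5) (.mul (.g 11) (.pp [(1, 10227600000)])))))) (.add (.mul (.g 16) (.add (.add (.pp [(1,
 1168200000000)]) (.mul (.pp [(1, 16522800)]) (.sq [(1, -83), (2, 100), (3, 100), (5, 100), (7,
 100)]))) (.add (.mul (.g 4) (.add (.pp [(1, 981360000000)]) (.add (.mul (.g 8) (.pp [(1,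
 349068000000)])) (.mul (.g 16) (.pp [(1, 206388000000)]))))) (.add (.mul (.g 6) (.add (.mul (.g
 13) (.pp [(1, 34159200000)])) (.mul (.g 16) (.pp [(1, 64680000000)])))) (.mul (.g 5) (.mul (.g 15)
 (.pp [(1, 249876000000)]))))))) (.mul (.g 5) (.add (.mul (.g 4) (.add (.mul (.g 6) (.pp [(1,
 601092000000)])) (.mul (.g 12) (.pp [(1, 871380000000)])))) (.mul (.g 5) (.add (.mul (.g 5) (.pp
 [(1, 1248012000000)])) (.mul (.g 15) (.pp [(1, 853032000000)])))))))) (.add (.mul (.g 6) (.add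
 (.mul (.g 6) (.mul (.g 11) (.pp [(1, 6454200000)]))) (.mul (.g 8) (.mul (.g 12) (.pp [(1,
 109476000000)]))))) (.add (.mul (.g 4) (.mul (.g 4) (.mul (.g 4) (.pp [(1, 2633448000000)]))))
 (.mul (.g 11) (.pp [(1, 139460400000)])))))) (.mul (.g 15) (.add (.add (.mul (.g 7) (.add (.add
 (.mul (.g 4) (.add (.pp [(1, 4109424000000)]) (.add (.mul (.g 7) (.pp [(1, 120492000000)])) (.mul
 (.g 8) (.pp [(1, 5672784000000)]))))) (.mul (.g 5) (.add (.pp [(1, 293256000000)]) (.mul (.g 12)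
 (.pp [(1, 96822000000)]))))) (.add (.mul (.g 7) (.add (.mul (.g 11) (.pp [(1, 310137000000)]))
 (.mul (.g 15) (.pp [(1, 3301332000000)])))) (.add (.mul (.g 6) (.mul (.g 15) (.pp [(1,
 319512000000)]))) (.mul (.g 10) (.mul (.g 12) (.pp [(1, 957168000000)]))))))) (.add (.mul (.g 4)
 (.add (.mul (.g 4) (.add (.mul (.g 5) (.pp [(1, 495720000000)])) (.mul (.g 10) (.pp [(1,
 1636560000000)])))) (.add (.mul (.g 5) (.pp [(1, 484464000000)])) (.mul (.g 12) (.pp [(1,
 1514580000000)]))))) (.mul (.g 6) (.mul (.g 6) (.add (.pp [(1, 39084000000)]) (.add (.mul (.g 5)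
 (.pp [(1, 157488000000)])) (.mul (.g 15) (.pp [(1, 325992000000)])))))))) (.add (.mul (.g 13)
 (.add (.pp [(1, 440128800000)]) (.mul (.g 5) (.pp [(1, 601135200000)])))) (.add (.mul (.g 12) (.pp
 [(1, 1157478000000)])) (.mul (.g 15) (.pp [(1, 498444000000)]))))))) (.add (.mul (.g 13) (.add
 (.add (.mul (.g 5) (.add (.add (.pp [(1, 170344800000)]) (.mul (.g 13) (.add (.mul (.g 4) (.pp
 [(1, 35234400000)])) (.add (.mul (.g 10) (.pp [(1, 14709120000)])) (.mul (.g 13) (.pp [(1,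
 3358752000)])))))) (.add (.mul (.g 4) (.mul (.g 4) (.pp [(1, 281623200000)]))) (.mul (.g 5) (.mul
 (.g 7) (.pp [(1, 120400800000)])))))) (.mul (.g 11) (.add (.pp [(1, 29001720000)]) (.add (.mul (.g
 6) (.add (.mul (.g 6) (.pp [(1, 106560000)])) (.mul (.g 7) (.pp [(1, 21173040000)])))) (.mul (.g
 4) (.pp [(1, 47647920000)])))))) (.add (.mul (.g 8) (.mul (.g 8) (.add (.mul (.g 4) (.pp [(1,
 101582400000)])) (.mul (.g 12) (.pp [(1, 94245600000)]))))) (.mul (.g 7) (.mul (.g 7) (.mul (.g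
 12) (.pp [(1, 109840800000)]))))))) (.mul (.g 8) (.add (.mul (.g 11) (.add (.pp [(1,
 58563600000)]) (.add (.mul (.g 5) (.mul (.g 8) (.pp [(1, 33435600000)]))) (.mul (.g 6) (.mul (.g
 11) (.pp [(1, 1002750000)])))))) (.add (.mul (.g 12) (.add (.mul (.pp [(1, 3298200)]) (.sq [(1,
 64), (2, -100), (3, -69), (7, 35)])) (.mul (.g 4) (.mul (.g 12) (.pp [(1, 1106043000000)])))))
 (.mul (.g 5) (.mul (.g 8) (.mul (.g 10) (.pp [(1, 1721928000000)]))))))))) (.add (.add (.mul (.g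
 7) (.add (.mul (.g 7) (.add (.mul (.pp [(1, 29854800)]) (.sq [(1, 7), (2, -56), (3, -67), (5, 6),
 (7, 100)])) (.mul (.g 5) (.mul (.g 11) (.pp [(1, 9063000000)]))))) (.mul (.g 4) (.mul (.g 12)
 (.mul (.g 12) (.pp [(1, 329061000000)])))))) (.mul (.g 0) (.pp [(1, 4000000000000)]))) (.add (.mul
 (.g 2) (.pp [(1, 4000000000000)])) (.add (.mul (.g 11) (.mul (.g 11) (.mul (.pp [(1, 245703)])
 (.sq [(1, -100), (2, 94), (3, -23), (5, 17), (7, 100)])))) (.mul (.g 14) (.pp [(1,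
 800000000)])))))) (.pp [(1, 12100360800), (2, 105114000), (3, 116753400), (4, 124310052), (5,
 92101800), (6, 137427132), (7, 115740000), (8, 110025120), (9, 127377753), (10, 146160972), (12,
 134328000), (14, 129999600), (15, 151873026), (16, 123316800), (18, 104804760), (20, 122491200),
 (21, 122473800), (24, 117595200), (25, 166017273), (27, 114489520), (28, 120768000), (30,
 84096720), (35, 149089800), (36, 122044800), (40, 112651200), (42, 111348000), (45, 111540960),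
 (49, 127084800), (50, 95383560), (54, 114688200), (56, 134640000), (60, 130984800), (63,
 121926000), (70, 106896000), (75, 96151560), (81, 125245200), (84, 97428000), (90, 116085000),
 (98, 115573200), (100, 128480400), (105, 84798000), (125, 84900120), (126, 143706000), (135,
 126388800), (140, 100440000), (147, 114497400), (150, 125215200), (175, 86952000), (189,
 107520000), (196, 123937200), (210, 144306000), (225, 117775200), (245, 104491800), (250,
 123818400), (294, 121285800), (315, 120960000), (343, 110280000), (350, 132600000), (375,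
 129364800), (441, 123802800), (490, 122130600), (525, 129360000), (625, 132733200), (686,
 125760000), (735, 129259200), (875, 127920000), (1029, 130320000), (1225, 125227200), (1715,
 126240000), (2401, 120000000)])))))))
 (P_c1 ++ xP_G_F7) = true := by decide +kernel

theorem t_G_T2_TpB_b : chk Rbp gP_G_T2
 (.split [(1, 1), (2, -20)]
 (.cut 1 [(1, -3), (5, 5)] (.add (.mul (.g 3) (.pp [(1, 2)])) (.mul (.g 9) (.pp [(1, 3)]))) (.cut 1
 [(1, 3), (5, -2)] (.add (.add (.mul (.g 2) (.pp [(1, 18)])) (.mul (.g 3) (.pp [(1, 2)]))) (.add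
 (.mul (.g 7) (.pp [(1, 2)])) (.mul (.g 1) (.pp [(1, 1)])))) (.rule 12 (.rule 25 (.rule 4 (.leaf
 660000000 (.add (.add (.add (.add (.mul (.g 9) (.add (.add (.add (.mul (.pp [(1, 63238560)]) (.sq
 [(2, 45), (3, 100), (5, -24), (7, -29)])) (.mul (.g 7) (.add (.add (.mul (.pp [(1, 31020)]) (.sq
 [(1, 68), (2, -100), (3, -85), (5, 70), (7, 61)])) (.add (.mul (.g 10) (.add (.add (.mul (.g 6)
 (.pp [(1, 112589400000)])) (.mul (.g 7) (.pp [(1, 5823892800000)]))) (.add (.mul (.g 9) (.pp [(1,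
 6646516800000)])) (.mul (.g 16) (.pp [(1, 5987744400000)]))))) (.mul (.g 6) (.add (.mul (.g 8)
 (.pp [(1, 258238200000)])) (.mul (.g 9) (.pp [(1, 4160963400000)])))))) (.add (.mul (.g 14) (.add
 (.pp [(1, 653499000000)]) (.mul (.g 14) (.pp [(1, 34577400000)])))) (.add (.mul (.g 9) (.mul (.g
 12) (.pp [(1, 5959800000)]))) (.mul (.g 16) (.pp [(1, 462666600000)]))))))) (.add (.mul (.g 5)
 (.add (.mul (.g 9) (.add (.mul (.g 12) (.pp [(1, 233185260000)])) (.mul (.g 16) (.pp [(1,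
 53526990000)])))) (.add (.mul (.g 6) (.mul (.g 12) (.pp [(1, 590040000)]))) (.mul (.g 11) (.pp
 [(1, 109720710000)]))))) (.mul (.g 14) (.add (.pp [(1, 6085424400000)]) (.add (.mul (.pp [(1,
 1904100)]) (.sq [(1, 49), (2, -15), (3, 100), (5, -62), (7, 11)])) (.mul (.g 6) (.add (.mul (.g 6)
 (.pp [(1, 162366600000)])) (.mul (.g 9) (.pp [(1, 5000364600000)]))))))))) (.add (.add (.mul (.g
 16) (.add (.pp [(1, 313942200000)]) (.add (.mul (.pp [(1, 13860)]) (.sq [(1, 100), (2, 45), (3,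
 85), (5, 85), (7, 69)])) (.mul (.g 8) (.pp [(1, 741655200000)]))))) (.mul (.g 11) (.add (.pp [(1,
 5895846000000)]) (.mul (.pp [(1, 75900)]) (.sq [(1, 78), (2, -66), (3, 11), (5, 39), (7,
 100)]))))) (.add (.mul (.g 6) (.mul (.g 13) (.pp [(1, 165450120000)]))) (.mul (.g 12) (.mul (.pp
 [(1, 261360)]) (.sq [(1, 28), (2, 39), (3, 100), (5, 24), (7, -51)]))))))) (.add (.mul (.g 8)
 (.add (.add (.mul (.g 16) (.add (.add (.mul (.pp [(1, 37620)]) (.sq [(1, 36), (2, 76), (3, 100),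
 (5, 100), (7, 55)])) (.mul (.g 7) (.add (.add (.mul (.g 5) (.pp [(1, 34851630000)])) (.mul (.g 7)
 (.pp [(1, 22176000000)]))) (.add (.mul (.g 8) (.pp [(1, 19041000000)])) (.mul (.g 10) (.pp [(1,
 98597400000)])))))) (.add (.mul (.g 16) (.add (.mul (.g 10) (.pp [(1, 425779200000)])) (.add (.mul
 (.g 14) (.pp [(1, 6540600000)])) (.mul (.g 16) (.pp [(1, 66000000)]))))) (.mul (.g 6) (.add (.mul
 (.g 6) (.pp [(1, 6249487200000)])) (.mul (.g 10) (.pp [(1, 5749854000000)]))))))) (.mul (.g 11)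
 (.add (.pp [(1, 1094339400000)]) (.add (.mul (.g 14) (.add (.mul (.g 7) (.pp [(1, 633600000)]))
 (.mul (.g 14) (.pp [(1, 1755600000)])))) (.mul (.g 11) (.pp [(1, 4408344600000)])))))) (.add (.mul
 (.g 5) (.add (.pp [(1, 34973730000)]) (.mul (.g 6) (.mul (.g 10) (.pp [(1, 19053210000)])))))
 (.add (.mul (.g 8) (.add (.mul (.g 7) (.mul (.g 14) (.pp [(1, 11530200000)]))) (.mul (.g 13) (.pp
 [(1, 108898020000)])))) (.mul (.g 10) (.mul (.g 13) (.mul (.g 13) (.pp [(1, 8646000)]))))))))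
 (.mul (.g 14) (.add (.add (.pp [(1, 770741400000)]) (.add (.mul (.g 6) (.add (.mul (.g 6) (.add
 (.mul (.g 5) (.pp [(1, 523710000)])) (.mul (.g 10) (.pp [(1, 354822600000)])))) (.mul (.g 10)
 (.mul (.g 16) (.pp [(1, 574411200000)]))))) (.mul (.g 7) (.add (.mul (.g 7) (.add (.mul (.g 5)
 (.pp [(1, 17020080000)])) (.mul (.g 13) (.pp [(1, 813120000)])))) (.mul (.g 16) (.pp [(1,
 306900000000)])))))) (.add (.mul (.g 10) (.mul (.pp [(1, 2589180)]) (.sq [(1, -33), (2, 100), (3,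
 -28), (5, 21), (7, -25)]))) (.add (.mul (.g 12) (.mul (.g 12) (.mul (.g 16) (.pp [(1,
 23958000000)])))) (.mul (.g 14) (.mul (.pp [(1, 168960)]) (.sq [(1, -60), (2, 79), (3, -1), (5,
 100), (7, 52)]))))))))) (.add (.mul (.g 7) (.add (.mul (.g 7) (.add (.add (.pp [(1,
 350017800000)]) (.mul (.g 6) (.mul (.g 11) (.pp [(1, 27805800000)])))) (.add (.mul (.g 7) (.pp
 [(1, 18394200000)])) (.mul (.g 12) (.mul (.g 16) (.pp [(1, 15226200000)])))))) (.add (.mul (.g 6)
 (.mul (.g 6) (.pp [(1, 809674800000)]))) (.mul (.g 11) (.pp [(1, 5109858600000)]))))) (.add (.mul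
 (.g 5) (.add (.add (.pp [(1, 32993730000)]) (.mul (.g 6) (.pp [(1, 186701460000)]))) (.add (.mul
 (.g 11) (.mul (.pp [(1, 642411)]) (.sq [(1, 95), (2, -38), (3, -51), (5, -3), (7, 100)]))) (.mul
 (.g 16) (.pp [(1, 128659740000)]))))) (.mul (.g 6) (.add (.mul (.g 6) (.mul (.g 6) (.mul (.g 10)
 (.pp [(1, 390951000000)])))) (.mul (.g 16) (.mul (.pp [(1, 22674960)]) (.sq [(1, 45), (2, 46), (3,
 36), (5, 50), (7, 17)])))))))) (.add (.add (.mul (.g 0) (.pp [(1, 2200000000000)])) (.add (.mul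
 (.g 1) (.pp [(1, 200000000000)])) (.mul (.g 2) (.pp [(1, 660000000)])))) (.add (.mul (.g 10) (.mul
 (.g 10) (.mul (.pp [(1, 25663440)]) (.sq [(1, -21), (2, 41), (3, 42), (5, -1), (7, 100)])))) (.add
 (.mul (.g 11) (.mul (.g 16) (.mul (.pp [(1, 1516020)]) (.sq [(1, 31), (2, -78), (3, -100), (5,
 -100), (7, 9)])))) (.mul (.g 15) (.pp [(1, 2200000000000)])))))) (.pp [(1, 273267059485), (2,
 73690685), (3, 71813905), (4, 60787276), (5, 69688265), (6, 71997574), (7, 64650960), (8,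
 70687716), (9, 48623179), (10, 58990822), (12, 60558168), (14, 58848900), (15, 46430714), (16,
 63587040), (18, 71540205), (19, 6600000000000), (20, 70679576), (21, 58282620), (24, 65664720),
 (25, 57068451), (27, 74635011), (28, 66345840), (30, 57229898), (35, 66417120), (36, 68325180),
 (40, 63766560), (42, 65349240), (45, 92251577), (49, 57123000), (50, 78551209), (54, 58415940),
 (56, 63109200), (60, 70536840), (63, 70437840), (70, 63340200), (75, 69563945), (81, 66000000),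
 (84, 72764340), (90, 63797580), (98, 66941160), (100, 63853020), (105, 91530120), (125, 66473319),
 (126, 59177580), (135, 59400000), (140, 71751900), (147, 74000520), (150, 71342700), (175,
 70989600), (189, 66438900), (196, 68001780), (210, 56876160), (225, 59231040), (245, 69763980),
 (250, 59426400), (294, 57169860), (315, 59885100), (343, 62835300), (350, 69103980), (375,
 66792000), (441, 63484080), (490, 57791580), (525, 64903080), (625, 66000000), (686, 62929020),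
 (735, 74300160), (875, 62356140), (1029, 69544860), (1225, 74348340), (1715, 68387220), (2401,
 65987460)]))))))))
 (.split [(1, -17), (3, 25)]
 (.cut 1 [(2, 1), (3, -1)] (.add (.mul (.g 10) (.pp [(1, 1)])) (.mul (.g 7) (.pp [(1, 1)]))) (.rule
 0 (.cut 1 [(2, -1), (5, 1)] (.add (.mul (.g 12) (.pp [(1, 1)])) (.mul (.g 8) (.pp [(1, 1)])))
 (.rule 3 (.cut 1 [(1, 1), (3, -1)] (.add (.mul (.g 3) (.pp [(1, 1)])) (.mul (.g 10) (.pp [(1,
 1)]))) (.rule 7 (.cut 4 [(1, -3), (5, 5)] (.add (.add (.mul (.g 5) (.pp [(1, 20)])) (.mul (.g 6)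
 (.pp [(1, 1)]))) (.add (.mul (.g 1) (.pp [(1, 5)])) (.mul (.g 3) (.pp [(1, 20)])))) (.cut 8 [(1,
 3), (5, -2)] (.add (.add (.mul (.g 14) (.pp [(1, 16)])) (.mul (.g 7) (.pp [(1, 1)]))) (.add (.mul
 (.g 13) (.pp [(1, 16)])) (.mul (.g 2) (.pp [(1, 9)])))) (.rule 12 (.rule 25 (.leaf 16500000000
 (.add (.add (.add (.add (.mul (.g 15) (.add (.add (.mul (.g 15) (.add (.add (.mul (.g 15) (.add
 (.mul (.g 11) (.pp [(1, 1050208500000)])) (.add (.mul (.g 13) (.pp [(1, 29966475000000)])) (.mul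
 (.g 19) (.pp [(1, 2874291750000)]))))) (.mul (.g 22) (.add (.mul (.g 13) (.pp [(1,
 71913435000000)])) (.add (.mul (.g 18) (.pp [(1, 111993420000000)])) (.mul (.g 22) (.pp [(1,
 2642475000000)])))))) (.add (.mul (.g 19) (.add (.pp [(1, 1179593250000)]) (.mul (.g 16) (.pp [(1,
 3587512500000)])))) (.add (.mul (.g 11) (.mul (.g 11) (.pp [(1, 13803900000)]))) (.mul (.g 12)
 (.mul (.g 20) (.pp [(1, 20181315000000)]))))))) (.add (.mul (.g 22) (.add (.add (.pp [(1,
 61188105000000)]) (.mul (.pp [(1, 135085500)]) (.sq [(1, -13), (2, 18), (3, 100), (5, -8), (7,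
 -80)]))) (.add (.mul (.pp [(1, 373774500)]) (.sq [(1, 100), (2, 45), (3, 85), (5, 85), (7, 69)]))
 (.add (.mul (.g 13) (.add (.mul (.g 13) (.pp [(1, 24722445000000)])) (.mul (.g 22) (.pp [(1,
 88832205000000)])))) (.mul (.g 14) (.add (.mul (.g 16) (.pp [(1, 2942940000000)])) (.mul (.g 22)
 (.pp [(1, 51825015000000)])))))))) (.mul (.g 10) (.add (.add (.pp [(1, 142104600000)]) (.mul (.g
 13) (.mul (.g 19) (.pp [(1, 29548200000)])))) (.add (.mul (.g 14) (.mul (.g 14) (.pp [(1,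
 578740800000)]))) (.mul (.g 16) (.mul (.g 18) (.pp [(1, 1910073000000)])))))))) (.add (.add (.mul
 (.g 14) (.add (.mul (.g 11) (.mul (.g 19) (.pp [(1, 85800000)]))) (.mul (.g 14) (.mul (.g 20) (.pp
 [(1, 18613650000000)]))))) (.mul (.g 16) (.add (.mul (.pp [(1, 3760680000)]) (.sq [(1, 6), (2,
 -34), (3, -2), (5, -61), (7, 100)])) (.mul (.g 16) (.mul (.g 20) (.pp [(1, 72914820000000)]))))))
 (.add (.mul (.g 17) (.add (.mul (.pp [(1, 4640938500)]) (.sq [(1, -48), (2, 31), (3, 100), (5,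
 -19), (7, -57)])) (.mul (.g 13) (.mul (.g 13) (.pp [(1, 32162295000000)]))))) (.mul (.g 19) (.mul
 (.pp [(1, 117458550)]) (.sq [(1, -63), (2, 8), (3, 100), (5, 20), (7, -59)]))))))) (.add (.mul (.g
 17) (.add (.add (.mul (.g 18) (.add (.add (.pp [(1, 3492060000000)]) (.mul (.g 10) (.add (.mul (.g
 13) (.pp [(1, 824577600000)])) (.mul (.g 14) (.pp [(1, 1038213000000)]))))) (.add (.mul (.g 17)
 (.pp [(1, 48951540000000)])) (.mul (.g 20) (.mul (.g 20) (.pp [(1, 17600880000000)])))))) (.add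
 (.mul (.g 16) (.add (.pp [(1, 30284760000000)]) (.add (.mul (.pp [(1, 313945500)]) (.sq [(1, 41),
 (2, 15), (3, -100), (5, 48), (7, 89)])) (.mul (.g 11) (.mul (.g 11) (.pp [(1, 57488062500)]))))))
 (.mul (.g 17) (.add (.mul (.pp [(1, 428554500)]) (.sq [(1, 100), (2, -44), (3, 29), (5, 29), (7,
 -31)])) (.add (.mul (.pp [(1, 888558000)]) (.sq [(1, -57), (2, -77), (3, 100), (5, 16), (7,
 -77)])) (.mul (.pp [(1, 647922000)]) (.sq [(1, -16), (2, 5), (3, 78), (5, 100), (7, 61)])))))))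
 (.add (.add (.mul (.g 11) (.mul (.pp [(1, 32652675)]) (.sq [(1, -56), (2, -68), (3, -5), (5, -51),
 (7, 100)]))) (.mul (.g 14) (.pp [(1, 63459330000000)]))) (.add (.mul (.g 20) (.pp [(1,
 992640000000)])) (.mul (.g 22) (.mul (.pp [(1, 1413918000)]) (.sq [(1, 12), (2, 91), (3, 47), (5,
 32), (7, -100)]))))))) (.mul (.g 16) (.add (.add (.mul (.g 20) (.add (.mul (.pp [(1,
 25278396000)]) (.sq [(1, -4), (2, 50), (3, 26), (5, 26), (7, -19)])) (.add (.mul (.g 22) (.add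
 (.mul (.g 12) (.pp [(1, 12669360000000)])) (.mul (.g 13) (.pp [(1, 4229280000000)])))) (.mul (.g
 14) (.mul (.g 20) (.pp [(1, 19015425000000)])))))) (.add (.mul (.g 13) (.add (.mul (.pp [(1,
 1473829500)]) (.sq [(1, 4), (2, -27), (3, 100), (5, -97), (7, -26)])) (.mul (.g 13) (.mul (.g 14)
 (.pp [(1, 5295345000000)]))))) (.mul (.g 16) (.add (.pp [(1, 21785775000000)]) (.mul (.pp [(1,
 4016380500)]) (.sq [(1, -3), (2, 69), (3, -14), (5, 100), (7, -49)])))))) (.add (.mul (.g 10) (.pp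
 [(1, 265386000000)])) (.add (.mul (.g 11) (.mul (.g 14) (.mul (.g 14) (.pp [(1, 835089750000)]))))
 (.mul (.g 18) (.mul (.g 18) (.mul (.g 19) (.pp [(1, 518570250000)])))))))))) (.add (.mul (.g 10)
 (.add (.mul (.g 10) (.add (.pp [(1, 25027728000)]) (.add (.mul (.g 10) (.mul (.g 14) (.pp [(1,
 1389347520)]))) (.mul (.g 13) (.mul (.g 13) (.pp [(1, 9766416000)])))))) (.add (.mul (.g 11) (.add
 (.mul (.pp [(1, 1426128)]) (.sq [(1, 14), (2, 76), (3, -100), (5, 93), (7, 78)])) (.mul (.g 11)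
 (.mul (.g 11) (.pp [(1, 50051100)]))))) (.mul (.g 22) (.mul (.pp [(1, 28842000)]) (.sq [(1, -7),
 (2, -15), (3, 50), (5, 50), (7, -7)])))))) (.add (.mul (.g 20) (.add (.add (.mul (.g 20) (.add
 (.mul (.pp [(1, 2377039500)]) (.sq [(1, -2), (2, 100), (3, 79), (5, 56), (7, -90)])) (.mul (.g 13)
 (.mul (.g 13) (.pp [(1, 11068695000000)]))))) (.mul (.g 14) (.mul (.g 14) (.pp [(1,
 37723290000000)])))) (.add (.mul (.g 19) (.mul (.pp [(1, 24657600)]) (.sq [(1, -16), (2, 64), (3,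
 100), (5, 79), (7, -4)]))) (.mul (.g 22) (.pp [(1, 62762865000000)]))))) (.mul (.g 22) (.add (.mul
 (.g 13) (.add (.mul (.g 12) (.mul (.g 12) (.pp [(1, 27344130000000)]))) (.mul (.g 13) (.mul (.g
 14) (.pp [(1, 3276735000000)]))))) (.add (.mul (.g 11) (.mul (.pp [(1, 14454000)]) (.sq [(1, 18),
 (2, 100), (3, -22), (5, 9), (7, -86)]))) (.mul (.g 22) (.pp [(1, 30127020000000)])))))))) (.add
 (.add (.mul (.g 0) (.pp [(1, 5000000000000)])) (.add (.mul (.g 1) (.pp [(1, 16500000000)])) (.mul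
 (.g 4) (.pp [(1, 132000000000)])))) (.add (.add (.mul (.g 6) (.pp [(1, 55000000000000)])) (.mul
 (.g 8) (.pp [(1, 55000000000000)]))) (.add (.mul (.g 11) (.mul (.g 18) (.mul (.pp [(1,
 123603150)]) (.sq [(1, 34), (2, -100), (3, 42), (5, 14), (7, 93)])))) (.mul (.g 21) (.pp [(1,
 55000000000000)])))))) (.pp [(1, 1298318180704), (2, 1623539792), (3, 1594908100), (4,
 1809793084), (5, 1479025256), (6, 1359397600), (7, 1870499466), (8, 1897461720), (9, 1920347275),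
 (10, 1578212944), (12, 951126000), (14, 1644882624), (15, 1940815250), (16, 1740849000), (18,
 2198498775), (20, 1604812220), (21, 1177588500), (24, 1210704000), (25, 1655050551), (27,
 1392500725), (28, 1571038920), (30, 2290186250), (35, 1476447192), (36, 2149686000), (40,
 1493266500), (42, 1554029400), (45, 806427875), (49, 1804006116), (50, 1762279255), (54,
 1350904500), (56, 1511449500), (60, 2187141000), (63, 1946508300), (70, 1914353760), (75,
 1620442175), (81, 1758355500), (84, 1962081000), (90, 1284805500), (98, 2095018530), (100,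
 1871496000), (105, 2097909000), (125, 1728049125), (126, 1671681000), (135, 2003760000), (140,
 1583059500), (147, 1421542650), (150, 983367000), (175, 1537357800), (189, 1568539500), (196,
 1954293000), (210, 1171566000), (225, 1905601500), (245, 1496723250), (250, 1535638500), (294,
 1314505500), (315, 1491600000), (343, 1665151950), (350, 1589230500), (375, 1616406000), (441,
 1543179000), (490, 1459507500), (525, 1891956000), (625, 1617313500), (686, 1409149500), (735,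
 1475232000), (875, 1738093500), (1029, 1580865000), (1225, 1628385000), (1715, 1619260500), (2401,
 1612594500)])))))))))))))
 (.split [(1, -3), (5, 2)]
 (.cut 226 [(2, 1), (3, -1)] (.add (.add (.mul (.g 2) (.pp [(1, 5)])) (.mul (.g 8) (.pp [(1,
 126)]))) (.add (.mul (.g 0) (.pp [(1, 63)])) (.mul (.g 1) (.pp [(1, 4)])))) (.rule 0 (.cut 34 [(2,
 -1), (5, 1)] (.add (.add (.mul (.g 9) (.pp [(1, 34)])) (.mul (.g 6) (.pp [(1, 25)]))) (.add (.mul
 (.g 2) (.pp [(1, 17)])) (.mul (.g 3) (.pp [(1, 1)])))) (.rule 3 (.rule 13 (.cut 1 [(1, -2), (2,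
 -1), (3, 1), (5, 2)] (.add (.mul (.g 12) (.pp [(1, 1)])) (.add (.mul (.g 9) (.pp [(1, 1)])) (.mul
 (.g 5) (.pp [(1, 1)])))) (.cut 1 [(1, -1), (2, -2), (3, 2), (5, 2)] (.add (.mul (.g 10) (.pp [(1,
 1)])) (.add (.mul (.g 13) (.pp [(1, 1)])) (.mul (.g 0) (.pp [(1, 1)])))) (.rule 18 (.leaf
 900000000 (.add (.add (.add (.add (.mul (.g 14) (.add (.add (.mul (.g 14) (.add (.add (.mul (.g
 12) (.add (.add (.pp [(1, 2098233000000)]) (.mul (.g 15) (.pp [(1, 2456145000000)]))) (.add (.mul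
 (.g 17) (.pp [(1, 332199000000)])) (.mul (.g 19) (.pp [(1, 1561581000000)]))))) (.mul (.g 14)
 (.add (.pp [(1, 773775000000)]) (.add (.mul (.g 13) (.pp [(1, 582138000000)])) (.mul (.g 21) (.pp
 [(1, 99000000)])))))) (.add (.mul (.g 21) (.add (.mul (.g 8) (.pp [(1, 282591000000)])) (.mul (.g
 15) (.pp [(1, 2216097000000)])))) (.mul (.g 13) (.mul (.g 19) (.pp [(1, 871902000000)])))))) (.add
 (.mul (.g 15) (.add (.add (.mul (.pp [(1, 138742200)]) (.sq [(1, -29), (2, 40), (3, 100), (5, 6),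
 (7, -64)])) (.mul (.g 13) (.add (.mul (.g 16) (.pp [(1, 125802000000)])) (.mul (.g 19) (.pp [(1,
 838512000000)]))))) (.add (.mul (.g 9) (.mul (.g 12) (.pp [(1, 71021160000)]))) (.mul (.g 15)
 (.mul (.g 16) (.pp [(1, 554076000000)])))))) (.mul (.g 12) (.add (.pp [(1, 4007952000000)]) (.mul
 (.g 12) (.add (.pp [(1, 66321000000)]) (.mul (.g 11) (.pp [(1, 12222000000)])))))))) (.add (.mul
 (.g 8) (.mul (.g 8) (.add (.mul (.g 13) (.pp [(1, 20090000000)])) (.mul (.g 19) (.pp [(1,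
 28147000000)]))))) (.add (.mul (.g 18) (.add (.mul (.pp [(1, 2061855)]) (.sq [(1, 58), (2, -100),
 (3, 4), (5, -74), (7, 67)])) (.mul (.g 11) (.mul (.g 11) (.pp [(1, 26173800000)]))))) (.mul (.g
 21) (.pp [(1, 5896251000000)])))))) (.add (.mul (.g 12) (.add (.add (.mul (.g 11) (.add (.mul (.g
 11) (.add (.mul (.g 9) (.pp [(1, 25867080000)])) (.add (.mul (.g 11) (.pp [(1, 1419570000000)]))
 (.mul (.g 21) (.pp [(1, 1928772000000)]))))) (.add (.mul (.g 13) (.add (.mul (.g 8) (.pp [(1,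
 2308575000000)])) (.mul (.g 21) (.pp [(1, 551295000000)])))) (.mul (.g 12) (.mul (.g 18) (.pp [(1,
 45931950000)])))))) (.mul (.g 9) (.add (.mul (.pp [(1, 128988)]) (.sq [(1, 76), (2, -89), (3,
 -67), (5, -4), (7, 100)])) (.add (.mul (.g 9) (.mul (.g 15) (.pp [(1, 1666339200)]))) (.mul (.g
 13) (.mul (.g 21) (.pp [(1, 10941120000)]))))))) (.add (.mul (.g 12) (.add (.mul (.g 10) (.add
 (.mul (.g 10) (.pp [(1, 7593840000)])) (.mul (.g 13) (.pp [(1, 1975500000)])))) (.mul (.g 16)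
 (.mul (.g 16) (.pp [(1, 28170000000)]))))) (.mul (.g 15) (.add (.pp [(1, 5839542000000)]) (.mul
 (.g 13) (.mul (.g 13) (.pp [(1, 2490543000000)])))))))) (.mul (.g 15) (.add (.add (.mul (.g 10)
 (.add (.mul (.g 13) (.add (.mul (.g 13) (.pp [(1, 63904950000)])) (.mul (.g 17) (.pp [(1,
 10856250000)])))) (.mul (.g 11) (.mul (.g 11) (.pp [(1, 36733950000)]))))) (.add (.mul (.g 15)
 (.add (.mul (.pp [(1, 67817700)]) (.sq [(1, -19), (2, 47), (3, -86), (5, 26), (7, 100)])) (.add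
 (.mul (.pp [(1, 302337000)]) (.sq [(1, -21), (2, 41), (3, 37), (5, 6), (7, 100)])) (.mul (.g 11)
 (.mul (.g 15) (.pp [(1, 629361000000)])))))) (.mul (.g 18) (.add (.pp [(1, 95665950000)]) (.mul
 (.pp [(1, 2040750)]) (.sq [(1, -3), (2, -48), (3, -6), (5, -60), (7, 100)])))))) (.add (.mul (.g
 8) (.pp [(1, 1521369000000)])) (.add (.mul (.g 13) (.mul (.g 13) (.mul (.g 13) (.pp [(1,
 9000000000)])))) (.mul (.g 21) (.pp [(1, 3813777000000)])))))))) (.add (.mul (.g 16) (.add (.add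
 (.mul (.pp [(1, 86453100)]) (.sq [(2, -74), (3, -74), (5, -37), (7, 100)])) (.add (.mul (.g 18)
 (.add (.mul (.pp [(1, 567495)]) (.sq [(1, 8), (2, -21), (3, 100), (5, -21), (7, -32)])) (.add
 (.mul (.g 11) (.mul (.g 19) (.pp [(1, 21865500000)]))) (.mul (.g 13) (.pp [(1, 156653100000)])))))
 (.mul (.g 16) (.add (.pp [(1, 5689575000000)]) (.mul (.pp [(1, 11737800)]) (.sq [(1, -27), (2,
 100), (3, 96), (5, -6), (7, 8)])))))) (.add (.add (.mul (.g 8) (.mul (.pp [(1, 11294100)]) (.sq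
 [(1, 27), (2, 24), (3, 89), (5, -100), (7, -73)]))) (.mul (.g 11) (.pp [(1, 278514000000)])))
 (.add (.mul (.g 17) (.mul (.g 17) (.pp [(1, 582165000000)]))) (.mul (.g 19) (.mul (.pp [(1,
 41211900)]) (.sq [(1, -15), (2, -3), (3, 4), (5, 100), (7, -34)]))))))) (.add (.mul (.g 21) (.add
 (.add (.mul (.g 10) (.add (.mul (.pp [(1, 2165355)]) (.sq [(1, 35), (2, 100), (3, -1), (5, 37),
 (7, -67)])) (.mul (.g 10) (.mul (.g 10) (.pp [(1, 201781125)]))))) (.mul (.g 9) (.pp [(1,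
 59767560000)]))) (.add (.mul (.g 18) (.mul (.pp [(1, 1404225)]) (.sq [(1, 84), (2, 100), (3, 32),
 (5, 89), (7, 81)]))) (.add (.mul (.g 19) (.mul (.pp [(1, 13047300)]) (.sq [(1, 49), (2, -9), (3,
 -48), (5, 100), (7, -36)]))) (.mul (.g 21) (.mul (.pp [(1, 9186300)]) (.sq [(1, 9), (2, 100), (3,
 47), (5, 54), (7, -1)]))))))) (.mul (.g 8) (.add (.mul (.g 13) (.add (.pp [(1, 747180000000)])
 (.add (.mul (.g 8) (.mul (.g 11) (.pp [(1, 280481000000)]))) (.mul (.g 17) (.mul (.g 17) (.pp [(1,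
 45177000000)])))))) (.mul (.g 17) (.add (.pp [(1, 2802633000000)]) (.mul (.g 8) (.mul (.g 17) (.pp
 [(1, 138036000000)])))))))))) (.add (.add (.mul (.g 0) (.pp [(1, 3000000000000)])) (.add (.mul (.g
 3) (.pp [(1, 90000000000)])) (.mul (.g 4) (.pp [(1, 3000000000000)])))) (.add (.mul (.g 6) (.pp
 [(1, 3000000000000)])) (.add (.mul (.g 9) (.mul (.g 13) (.mul (.g 13) (.mul (.g 18) (.pp [(1,
 1376478000)]))))) (.mul (.g 20) (.pp [(1, 3000000000000)])))))) (.pp [(1, 686406141570), (2,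
 86340690), (3, 76854834), (4, 98990775), (5, 91903050), (6, 93311568), (7, 85061970), (8,
 84600255), (9, 88920369), (10, 92559810), (12, 69646329), (14, 95319360), (15, 86211528), (16,
 91749600), (18, 113519304), (19, 9000000000000), (20, 73608255), (21, 101587410), (24, 91197000),
 (25, 77780355), (27, 84841101), (28, 114379020), (30, 119882538), (35, 95741610), (36, 87087600),
 (40, 91746900), (42, 68433480), (45, 83978514), (49, 78458130), (50, 99424545), (54, 82260900),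
 (56, 81525600), (60, 95157000), (63, 85989195), (70, 86364000), (75, 84413889), (81, 95104800),
 (84, 90108000), (90, 80688600), (98, 86164020), (100, 87820500), (105, 78423750), (125, 93283845),
 (126, 96243300), (135, 99358200), (140, 81515700), (147, 99328410), (150, 83882400), (175,
 75858280), (189, 87620400), (196, 89834400), (210, 99660600), (225, 98895000), (245, 108297900),
 (250, 94981600), (294, 83379600), (315, 93414600), (343, 99017235), (350, 102025800), (375,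
 91740300), (441, 93746700), (490, 83003400), (525, 97479900), (625, 85745100), (686, 84820500),
 (735, 91754100), (875, 95859300), (1029, 93202200), (1225, 84146400), (1715, 94483800), (2401,
 89813700)])))))))))))
 (.cut 1 [(2, 1), (3, -1)] (.add (.mul (.g 11) (.pp [(1, 1)])) (.mul (.g 8) (.pp [(1, 1)]))) (.rule
 0 (.cut 1 [(2, -1), (5, 1)] (.add (.mul (.g 13) (.pp [(1, 1)])) (.mul (.g 9) (.pp [(1, 1)])))
 (.rule 3 (.cut 11 [(1, -3), (5, 5)] (.add (.mul (.g 14) (.pp [(1, 2)])) (.add (.mul (.g 3) (.pp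
 [(1, 40)])) (.mul (.g 15) (.pp [(1, 15)])))) (.rule 12 (.rule 25 (.leaf 3300000000 (.add (.add
 (.add (.add (.mul (.g 20) (.add (.add (.mul (.g 13) (.add (.add (.mul (.g 13) (.add (.mul (.g 8)
 (.pp [(1, 240349560000)])) (.add (.mul (.g 15) (.pp [(1, 6550731000000)])) (.mul (.g 18) (.pp [(1,
 1781604000000)]))))) (.mul (.g 20) (.add (.pp [(1, 7180536000000)]) (.add (.mul (.g 15) (.pp [(1,
 3487473000000)])) (.mul (.g 20) (.pp [(1, 330000000)])))))) (.add (.mul (.g 11) (.add (.pp [(1,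
 20539002000000)]) (.mul (.g 15) (.pp [(1, 6906009000000)])))) (.mul (.g 12) (.add (.mul (.g 14)
 (.pp [(1, 1982607000000)])) (.mul (.g 17) (.pp [(1, 159683700000)]))))))) (.add (.mul (.g 14)
 (.add (.add (.pp [(1, 295779000000)]) (.mul (.pp [(1, 857412600)]) (.sq [(1, -51), (2, 39), (3,
 21), (5, 21), (7, 100)]))) (.add (.mul (.pp [(1, 144969000)]) (.sq [(1, 30), (2, -23), (3, 100),
 (5, -96), (7, 33)])) (.mul (.g 10) (.mul (.g 12) (.pp [(1, 1528164000000)])))))) (.mul (.g 18)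
 (.add (.add (.pp [(1, 3044184000000)]) (.mul (.pp [(1, 2213811600)]) (.sq [(1, -12), (2, -29), (3,
 50), (5, 50), (7, -12)]))) (.add (.mul (.pp [(1, 104385600)]) (.sq [(1, 38), (2, -30), (3, 84),
 (5, -55), (7, 100)])) (.mul (.pp [(1, 671975700)]) (.sq [(1, -1), (2, 82), (3, 100), (5, -3), (7,
 20)]))))))) (.add (.mul (.g 20) (.add (.pp [(1, 146619000000)]) (.add (.mul (.g 10) (.mul (.g 12)
 (.pp [(1, 2997456000000)]))) (.mul (.g 11) (.mul (.g 20) (.pp [(1, 1132956000000)])))))) (.add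
 (.mul (.g 8) (.add (.pp [(1, 163542720000)]) (.mul (.pp [(1, 614856)]) (.sq [(1, 61), (2, 100),
 (3, 94), (5, -66), (7, 16)])))) (.mul (.g 15) (.add (.mul (.pp [(1, 107197200)]) (.sq [(1, -4),
 (2, -87), (3, 70), (5, 100), (7, 53)])) (.mul (.pp [(1, 99874500)]) (.sq [(1, 69), (2, -93), (3,
 -100), (5, -47), (7, 22)])))))))) (.add (.mul (.g 15) (.add (.add (.add (.mul (.pp [(1,
 193475700)]) (.sq [(2, -64), (3, 10), (5, -23), (7, 100)])) (.mul (.g 15) (.add (.add (.mul (.pp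
 [(1, 70204200)]) (.sq [(1, 3), (2, -15), (3, 58), (5, 100), (7, 53)])) (.mul (.pp [(1,
 168161400)]) (.sq [(1, 100), (2, -44), (3, 29), (5, 29), (7, -31)]))) (.add (.mul (.g 7) (.mul (.g
 12) (.pp [(1, 4394687000000)]))) (.mul (.g 17) (.pp [(1, 169940100000)])))))) (.add (.mul (.g 17)
 (.add (.pp [(1, 313300350000)]) (.add (.mul (.pp [(1, 15335430)]) (.sq [(1, -3), (2, 100), (3,
 -3), (5, 2), (7, 23)])) (.mul (.pp [(1, 1942215)]) (.sq [(1, 21), (2, -23), (3, -69), (5, 81), (7,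
 100)]))))) (.mul (.g 8) (.add (.mul (.g 8) (.mul (.g 16) (.pp [(1, 1147396800)]))) (.mul (.g 13)
 (.mul (.g 13) (.pp [(1, 268473480000)]))))))) (.add (.add (.mul (.g 11) (.add (.pp [(1,
 3993330000000)]) (.mul (.pp [(1, 941219400)]) (.sq [(1, -8), (2, -35), (5, -4), (7, 100)]))))
 (.mul (.g 7) (.mul (.pp [(1, 15948900)]) (.sq [(1, -1), (2, 100), (3, 100), (5, 24), (7, 8)]))))
 (.add (.mul (.g 10) (.mul (.pp [(1, 240603000)]) (.sq [(1, 61), (2, 78), (3, 43), (5, 86), (7,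
 -100)]))) (.add (.mul (.g 14) (.pp [(1, 2197470000000)])) (.mul (.g 18) (.mul (.pp [(1,
 29535000)]) (.sq [(1, -45), (2, 39), (3, -64), (5, 100), (7, -15)])))))))) (.mul (.g 14) (.add
 (.add (.mul (.g 9) (.add (.pp [(1, 248293650000)]) (.add (.mul (.g 12) (.add (.mul (.g 12) (.pp
 [(1, 124261500000)])) (.mul (.g 14) (.pp [(1, 8695500000)])))) (.mul (.g 16) (.add (.mul (.g 8)
 (.pp [(1, 8407410000)])) (.mul (.g 14) (.pp [(1, 192984000000)]))))))) (.add (.mul (.g 11) (.add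
 (.add (.pp [(1, 1523676000000)]) (.mul (.pp [(1, 206939700)]) (.sq [(1, -11), (2, -55), (3, 100),
 (5, -87), (7, -82)]))) (.add (.mul (.g 7) (.mul (.g 11) (.pp [(1, 745261000000)]))) (.mul (.g 8)
 (.mul (.g 12) (.pp [(1, 300107280000)])))))) (.mul (.g 17) (.add (.mul (.pp [(1, 18910650)]) (.sq
 [(1, -40), (2, 20), (3, 50), (5, 100), (7, 37)])) (.mul (.g 13) (.mul (.g 13) (.pp [(1,
 531847800000)]))))))) (.add (.mul (.g 8) (.mul (.pp [(1, 592152)]) (.sq [(1, 50), (2, 52), (3,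
 -97), (5, 65), (7, 100)]))) (.add (.mul (.g 12) (.mul (.g 16) (.mul (.g 16) (.pp [(1,
 433026000000)])))) (.mul (.g 14) (.mul (.pp [(1, 1263596400)]) (.sq [(1, 18), (2, -50), (3, 45),
 (5, 45), (7, -45)]))))))))) (.add (.mul (.g 18) (.add (.add (.mul (.g 11) (.add (.mul (.pp [(1,
 587215200)]) (.sq [(1, 29), (2, -8), (3, 95), (5, -70), (7, 100)])) (.mul (.g 12) (.mul (.g 12)
 (.pp [(1, 2406393000000)]))))) (.mul (.g 17) (.add (.mul (.pp [(1, 25362315)]) (.sq [(1, 2), (2,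
 97), (3, 100), (5, 32), (7, -4)])) (.mul (.pp [(1, 37563240)]) (.sq [(1, 15), (2, -34), (3, 32),
 (5, 100), (7, 32)]))))) (.add (.mul (.g 18) (.add (.pp [(1, 2382996000000)]) (.mul (.g 12) (.mul
 (.g 12) (.pp [(1, 446589000000)]))))) (.add (.mul (.g 8) (.pp [(1, 371636760000)])) (.mul (.g 9)
 (.mul (.g 13) (.mul (.g 13) (.pp [(1, 316798350000)])))))))) (.add (.mul (.g 8) (.add (.mul (.g
 13) (.add (.mul (.pp [(1, 33167112)]) (.sq [(1, -83), (2, -42), (3, 58), (5, -17), (7, 100)]))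
 (.add (.mul (.g 8) (.mul (.g 13) (.pp [(1, 4262544000)]))) (.mul (.g 9) (.mul (.g 11) (.pp [(1,
 25369674000)])))))) (.mul (.g 9) (.mul (.g 9) (.mul (.g 11) (.pp [(1, 647895600)])))))) (.mul (.g
 7) (.add (.mul (.g 11) (.mul (.pp [(1, 193517500)]) (.sq [(1, 32), (2, -47), (3, 82), (5, -75),
 (7, 100)]))) (.mul (.g 13) (.mul (.g 13) (.mul (.g 17) (.pp [(1, 55069300000)]))))))))) (.add
 (.add (.mul (.g 0) (.pp [(1, 1000000000000)])) (.add (.mul (.g 1) (.pp [(1, 3300000000)])) (.mul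
 (.g 3) (.pp [(1, 11000000000000)])))) (.add (.mul (.g 5) (.pp [(1, 11000000000000)])) (.add (.mul
 (.g 10) (.mul (.g 11) (.mul (.g 11) (.mul (.g 11) (.pp [(1, 1611555000000)]))))) (.mul (.g 19)
 (.pp [(1, 11000000000000)])))))) (.pp [(1, 299784737933), (2, 321746875), (3, 279440921), (4,
 271845794), (5, 320381029), (6, 368269682), (7, 337946532), (8, 362087451), (9, 427631303), (10,
 427418090), (12, 386227083), (14, 289251072), (15, 291308622), (16, 353367300), (18, 360855231),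
 (19, 33000000000000), (20, 404959390), (21, 379728756), (24, 291482400), (25, 313487713), (27,
 261083207), (28, 355900644), (30, 201182850), (35, 344678532), (36, 333719100), (40, 303246900),
 (42, 341184228), (45, 264605429), (49, 279892272), (50, 240344005), (54, 285694200), (56,
 300910500), (60, 331621400), (63, 281824092), (70, 280499208), (75, 412910267), (81, 353453100),
 (84, 303741900), (90, 316157600), (98, 405057180), (100, 320996500), (105, 270556748), (125,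
 355525225), (126, 314615400), (135, 374673200), (140, 318268500), (147, 328234698), (150,
 354838000), (175, 332918256), (189, 352202400), (196, 328468800), (210, 425095000), (225,
 344248300), (245, 351448746), (250, 351274000), (294, 313935600), (315, 327157600), (343,
 355616712), (350, 344734500), (375, 299347400), (441, 355759800), (490, 299604800), (525,
 346886100), (625, 312205300), (686, 316951800), (735, 314628600), (875, 339556800), (1029,
 335728800), (1225, 321508000), (1715, 324957600), (2401, 330000000)])))))))))))))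
 (P_TpB ++ xP_G_T2) = true := by decide +kernel

theorem t_G_T6_Tp0_b : chk Rbp gP_G_T6
 (.split [(1, -17), (3, 25)]
 (.split [(1, -3), (5, 5)]
 (.split [(2, 1), (3, -1)]
 (.rule 0 (.rule 6 (.rule 7 (.cut 17 [(1, 3), (5, -2)] (.add (.add (.mul (.g 11) (.pp [(1, 34)]))
 (.mul (.g 7) (.pp [(1, 9)]))) (.add (.mul (.g 5) (.pp [(1, 1)])) (.mul (.g 10) (.pp [(1, 34)]))))
 (.rule 12 (.leaf 300000000 (.add (.add (.add (.add (.mul (.g 11) (.add (.add (.mul (.g 11) (.add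
 (.add (.mul (.pp [(1, 80712000)]) (.sq [(1, 85), (2, -25), (3, 100), (5, -54), (7, 22)])) (.add
 (.mul (.g 14) (.add (.mul (.g 12) (.pp [(1, 181935000000)])) (.add (.mul (.g 16) (.pp [(1,
 10542000000)])) (.mul (.g 19) (.pp [(1, 140226000000)]))))) (.mul (.g 17) (.add (.mul (.g 5) (.pp
 [(1, 38577000000)])) (.add (.mul (.g 16) (.pp [(1, 1109892000000)])) (.mul (.g 19) (.pp [(1,
 576804000000)]))))))) (.add (.add (.mul (.g 11) (.add (.mul (.g 13) (.pp [(1, 209247000000)]))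
 (.mul (.g 19) (.pp [(1, 176265000000)])))) (.mul (.g 15) (.add (.pp [(1, 15570900000)]) (.mul (.g
 13) (.pp [(1, 6117300000)]))))) (.add (.mul (.g 6) (.mul (.g 9) (.pp [(1, 430524000000)]))) (.mul
 (.g 10) (.mul (.g 16) (.pp [(1, 1711314000000)]))))))) (.add (.mul (.g 9) (.add (.add (.mul (.pp
 [(1, 23240400)]) (.sq [(1, 81), (2, -33), (3, -51), (5, -52), (7, 100)])) (.mul (.g 7) (.mul (.g
 14) (.pp [(1, 35076720000)])))) (.add (.mul (.g 10) (.mul (.g 12) (.pp [(1, 235932000000)])))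
 (.mul (.g 16) (.mul (.g 17) (.pp [(1, 128664000000)])))))) (.mul (.g 19) (.add (.pp [(1,
 1847556000000)]) (.add (.mul (.pp [(1, 6927000)]) (.sq [(1, 98), (2, 53), (3, 100), (5, 100), (7,
 68)])) (.mul (.g 19) (.add (.pp [(1, 395244000000)]) (.mul (.g 13) (.pp [(1,
 488241000000)]))))))))) (.add (.add (.mul (.g 15) (.add (.mul (.pp [(1, 1872780)]) (.sq [(1, 55),
 (2, -43), (3, -100), (5, -16), (7, 87)])) (.mul (.g 8) (.add (.mul (.g 8) (.pp [(1,
 14156400000)])) (.mul (.g 17) (.pp [(1, 785850000)])))))) (.mul (.g 7) (.pp [(1, 35613360000)])))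
 (.add (.mul (.g 12) (.mul (.g 13) (.mul (.g 17) (.pp [(1, 124488000000)])))) (.mul (.g 16) (.mul
 (.pp [(1, 10716000)]) (.sq [(1, 68), (2, -23), (3, -79), (5, -100), (7, 80)]))))))) (.add (.mul
 (.g 19) (.add (.add (.mul (.g 8) (.add (.mul (.g 8) (.add (.mul (.g 6) (.pp [(1, 92842200000)]))
 (.add (.mul (.g 9) (.pp [(1, 373215000000)])) (.mul (.g 10) (.pp [(1, 261495000000)]))))) (.add
 (.mul (.g 5) (.add (.mul (.g 14) (.pp [(1, 334179000000)])) (.mul (.g 17) (.pp [(1,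
 417156000000)])))) (.mul (.g 6) (.mul (.g 12) (.pp [(1, 46171200000)])))))) (.add (.mul (.g 12)
 (.add (.pp [(1, 171387000000)]) (.mul (.pp [(1, 193050000)]) (.sq [(1, -41), (2, 23), (3, 23), (5,
 32), (7, 50)])))) (.mul (.g 15) (.add (.mul (.pp [(1, 155775)]) (.sq [(1, 84), (2, -94), (3, -80),
 (5, -100), (7, -31)])) (.mul (.g 5) (.mul (.g 5) (.pp [(1, 2395350000)]))))))) (.add (.add (.mul
 (.g 16) (.add (.pp [(1, 991959000000)]) (.mul (.pp [(1, 7437300)]) (.sq [(1, -53), (2, -89), (3,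
 20), (5, -60), (7, 100)])))) (.mul (.g 9) (.mul (.g 9) (.mul (.g 9) (.pp [(1, 156528000000)])))))
 (.add (.mul (.g 13) (.mul (.pp [(1, 26634900)]) (.sq [(1, 4), (2, -91), (3, 40), (5, 14), (7,
 100)]))) (.mul (.g 17) (.pp [(1, 68685000000)])))))) (.mul (.g 5) (.add (.add (.mul (.g 14) (.add
 (.mul (.pp [(1, 17334300)]) (.sq [(1, -9), (2, 100), (3, 27), (5, 22), (7, -27)])) (.add (.mul (.g
 8) (.mul (.g 17) (.pp [(1, 91440000000)]))) (.mul (.g 13) (.pp [(1, 38904000000)]))))) (.add (.mul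
 (.g 9) (.add (.pp [(1, 52929000000)]) (.mul (.g 5) (.pp [(1, 734901000000)])))) (.mul (.g 17)
 (.add (.pp [(1, 976542000000)]) (.mul (.pp [(1, 7112700)]) (.sq [(1, 39), (2, -92), (5, 100), (7,
 11)])))))) (.add (.add (.mul (.g 7) (.pp [(1, 7243440000)])) (.mul (.g 8) (.pp [(1,
 860403000000)]))) (.add (.mul (.g 13) (.mul (.pp [(1, 37355700)]) (.sq [(1, 100), (2, -75), (3,
 31), (5, 8), (7, -38)]))) (.mul (.g 15) (.mul (.pp [(1, 1003440)]) (.sq [(1, -7), (2, 100), (3,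
 20), (5, 39), (7, -16)]))))))))) (.add (.add (.mul (.g 17) (.add (.add (.mul (.g 7) (.add (.pp
 [(1, 77467440000)]) (.mul (.g 8) (.mul (.g 8) (.pp [(1, 20583960000)]))))) (.add (.mul (.g 6)
 (.mul (.g 10) (.pp [(1, 17348400000)]))) (.mul (.g 9) (.mul (.g 9) (.mul (.g 9) (.pp [(1,
 147792000000)])))))) (.add (.add (.mul (.g 12) (.mul (.pp [(1, 4256700)]) (.sq [(1, 85), (2, -28),
 (3, 100), (5, -79), (7, 21)]))) (.mul (.g 13) (.mul (.pp [(1, 1023600)]) (.sq [(1, -85), (2, 79),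
 (3, 74), (5, 100), (7, 72)])))) (.add (.mul (.g 15) (.mul (.pp [(1, 759240)]) (.sq [(1, 34), (2,
 100), (3, -37), (5, -26), (7, 2)]))) (.mul (.g 17) (.pp [(1, 344499000000)])))))) (.mul (.g 12)
 (.add (.add (.mul (.g 8) (.add (.mul (.g 8) (.mul (.g 13) (.pp [(1, 85650000000)]))) (.mul (.g 10)
 (.mul (.g 10) (.pp [(1, 104004000000)]))))) (.mul (.g 6) (.mul (.g 10) (.pp [(1, 43211400000)]))))
 (.add (.mul (.g 12) (.mul (.pp [(1, 21638100)]) (.sq [(1, 41), (2, -100), (3, 59), (5, 59), (7,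
 -59)]))) (.mul (.g 15) (.mul (.pp [(1, 435780)]) (.sq [(1, 5), (2, -40), (3, 2), (5, 100), (7,
 -37)]))))))) (.add (.mul (.g 0) (.pp [(1, 300000000)])) (.mul (.g 2) (.pp [(1, 2400000000)])))))
 (.add (.add (.mul (.g 3) (.pp [(1, 1000000000000)])) (.add (.mul (.g 4) (.pp [(1,
 1000000000000)])) (.mul (.g 6) (.mul (.g 8) (.mul (.g 8) (.mul (.g 13) (.pp [(1,
 37402200000)]))))))) (.add (.add (.mul (.g 7) (.mul (.g 14) (.mul (.pp [(1, 2667012)]) (.sq [(1,
 20), (2, -36), (3, -49), (5, -9), (7, 100)])))) (.mul (.g 9) (.mul (.g 9) (.mul (.g 9) (.mul (.g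
 9) (.pp [(1, 477000000)])))))) (.add (.mul (.g 16) (.mul (.g 16) (.mul (.pp [(1, 9122700)]) (.sq
 [(1, 3), (2, -39), (3, -18), (5, -77), (7, 100)])))) (.mul (.g 18) (.pp [(1, 1000000000000)]))))))
 (.pp [(1, 17665497060), (2, 33947940), (3, 34101300), (4, 32289360), (5, 34734660), (6, 19118280),
 (7, 33201360), (8, 32080616), (9, 27479280), (10, 26090820), (12, 20630472), (14, 20071140), (15,
 10307880), (16, 29227500), (18, 38319528), (20, 22028492), (21, 19834020), (24, 29873700), (25,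
 27053100), (27, 34095904), (28, 26765280), (30, 48191376), (35, 9232800), (36, 35798700), (40,
 32480100), (42, 41428860), (45, 40211892), (49, 29041995), (50, 36445928), (54, 26329500), (56,
 28377300), (60, 27445800), (63, 40500600), (70, 34119840), (75, 42140052), (81, 28686900), (84,
 36063600), (90, 28290000), (98, 26964540), (100, 29486700), (105, 57660360), (125, 32313264),
 (126, 25867200), (135, 25861500), (140, 33248100), (147, 39331065), (150, 25672500), (175,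
 39709560), (189, 27443400), (196, 32634000), (210, 24523800), (225, 25152600), (245, 38629080),
 (250, 30489300), (294, 32996700), (315, 21321000), (343, 29676405), (350, 25575000), (375,
 25741500), (441, 31642200), (490, 32147700), (525, 23940000), (625, 28924800), (686, 30456900),
 (735, 25892700), (875, 26866800), (1029, 32807100), (1225, 28975200), (1715, 32471100), (2401,
 30840000)]))))))))
 (.rule 1 (.rule 6 (.rule 7 (.cut 1 [(1, 3), (5, -2)] (.add (.add (.mul (.g 6) (.pp [(1, 1)]))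
 (.mul (.g 3) (.pp [(1, 2)]))) (.add (.mul (.g 11) (.pp [(1, 2)])) (.mul (.g 10) (.pp [(1, 1)]))))
 (.rule 12 (.leaf 60000000 (.add (.add (.add (.add (.mul (.g 11) (.add (.add (.mul (.g 11) (.add
 (.add (.mul (.g 11) (.add (.add (.mul (.g 6) (.pp [(1, 982560000)])) (.mul (.g 7) (.pp [(1,
 1381560000)]))) (.add (.mul (.g 8) (.pp [(1, 126255000000)])) (.add (.mul (.g 13) (.pp [(1,
 3087000000)])) (.mul (.g 19) (.pp [(1, 33846000000)])))))) (.add (.mul (.g 5) (.add (.mul (.g 9)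
 (.pp [(1, 1897200000)])) (.add (.mul (.g 10) (.pp [(1, 14755800000)])) (.mul (.g 16) (.pp [(1,
 16834800000)]))))) (.mul (.g 6) (.add (.pp [(1, 5716560000)]) (.mul (.g 8) (.pp [(1,
 21439200000)])))))) (.add (.mul (.g 7) (.mul (.g 7) (.pp [(1, 35879040)]))) (.add (.mul (.g 10)
 (.mul (.g 10) (.pp [(1, 2928000000)]))) (.mul (.g 12) (.mul (.g 12) (.pp [(1,
 133822200000)]))))))) (.mul (.g 8) (.add (.add (.mul (.g 5) (.add (.mul (.g 9) (.pp [(1,
 4022400000)])) (.add (.mul (.g 10) (.pp [(1, 121067400000)])) (.mul (.g 12) (.pp [(1,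
 186157200000)]))))) (.mul (.g 19) (.add (.pp [(1, 80132400000)]) (.add (.mul (.g 10) (.pp [(1,
 56469600000)])) (.mul (.g 12) (.pp [(1, 99360600000)])))))) (.add (.mul (.g 7) (.add (.mul (.g 10)
 (.pp [(1, 167160000)])) (.mul (.g 12) (.pp [(1, 1857672000)])))) (.add (.mul (.g 6) (.mul (.g 6)
 (.pp [(1, 4156800000)]))) (.mul (.g 13) (.mul (.g 14) (.pp [(1, 48618000000)])))))))) (.add (.mul
 (.g 19) (.add (.pp [(1, 124552800000)]) (.add (.mul (.g 9) (.pp [(1, 6384000000)])) (.mul (.g 10)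
 (.pp [(1, 19864200000)]))))) (.add (.mul (.g 5) (.mul (.g 10) (.mul (.g 10) (.pp [(1,
 44180400000)])))) (.mul (.g 6) (.mul (.g 9) (.mul (.g 17) (.pp [(1, 2132280000)])))))))) (.add
 (.mul (.g 13) (.add (.add (.mul (.g 8) (.add (.add (.mul (.pp [(1, 941040)]) (.sq [(1, -53), (2,
 -98), (3, -54), (5, -36), (7, 100)])) (.mul (.g 6) (.add (.pp [(1, 30729360000)]) (.mul (.g 10)
 (.pp [(1, 17054160000)]))))) (.add (.mul (.g 8) (.mul (.g 12) (.pp [(1, 15924000000)]))) (.mul (.g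
 15) (.pp [(1, 3558480000)]))))) (.add (.mul (.g 9) (.add (.mul (.pp [(1, 1346760)]) (.sq [(1,
 -43), (2, -43), (3, -81), (5, 79), (7, 100)])) (.mul (.g 9) (.add (.mul (.g 13) (.pp [(1,
 40959000000)])) (.mul (.g 17) (.pp [(1, 12151200000)])))))) (.mul (.g 10) (.add (.mul (.g 7) (.add
 (.mul (.g 5) (.pp [(1, 1571112000)])) (.mul (.g 7) (.pp [(1, 48948480)])))) (.mul (.g 10) (.mul
 (.g 10) (.pp [(1, 19906800000)]))))))) (.add (.add (.mul (.g 6) (.add (.pp [(1, 20611440000)])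
 (.mul (.g 6) (.mul (.g 12) (.pp [(1, 3617784000)]))))) (.mul (.g 19) (.add (.pp [(1,
 71488800000)]) (.mul (.pp [(1, 548160)]) (.sq [(1, -8), (2, 100), (3, 44), (5, 21), (7, -66)])))))
 (.add (.mul (.g 13) (.pp [(1, 213745200000)])) (.mul (.g 15) (.mul (.pp [(1, 36555)]) (.sq [(1,
 -26), (2, -20), (3, 100), (5, -77), (7, -10)]))))))) (.mul (.g 9) (.add (.add (.mul (.pp [(1,
 3875700)]) (.sq [(1, -76), (2, 92), (3, 100), (5, -75), (7, 13)])) (.add (.mul (.g 16) (.add (.mul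
 (.g 7) (.mul (.g 7) (.pp [(1, 4318080)]))) (.mul (.g 16) (.mul (.g 16) (.pp [(1, 3502800000)])))))
 (.mul (.g 5) (.mul (.g 5) (.mul (.g 19) (.pp [(1, 33145800000)])))))) (.add (.mul (.g 9) (.mul (.g
 17) (.mul (.g 17) (.pp [(1, 14265600000)])))) (.add (.mul (.g 12) (.mul (.pp [(1, 1124760)]) (.sq
 [(1, -84), (2, 97), (3, 100), (5, -72), (7, 33)]))) (.mul (.g 14) (.mul (.pp [(1, 1250760)]) (.sq
 [(1, -75), (2, 100), (3, 96), (5, -79), (7, 42)]))))))))) (.add (.add (.mul (.g 6) (.add (.mul (.g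
 6) (.mul (.g 10) (.add (.pp [(1, 3582912000)]) (.add (.mul (.g 5) (.pp [(1, 592584000)])) (.mul
 (.g 10) (.pp [(1, 764376000)])))))) (.add (.mul (.g 19) (.add (.pp [(1, 15683160000)]) (.mul (.pp
 [(1, 289392)]) (.sq [(1, 100), (2, 75), (3, 39), (5, 39), (7, 54)])))) (.mul (.g 16) (.pp [(1,
 54228480000)]))))) (.mul (.g 19) (.add (.mul (.pp [(1, 9844740)]) (.sq [(1, -45), (2, 100), (3,
 -10), (5, -9), (7, 3)])) (.add (.mul (.g 12) (.mul (.g 12) (.add (.mul (.g 12) (.pp [(1,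
 24397800000)])) (.mul (.g 19) (.pp [(1, 33840000000)]))))) (.mul (.g 8) (.mul (.g 8) (.mul (.g 8)
 (.pp [(1, 12256200000)])))))))) (.add (.mul (.g 14) (.add (.mul (.g 14) (.add (.mul (.pp [(1,
 415020)]) (.sq [(1, -2), (2, -81), (3, -32), (5, 100), (7, 73)])) (.mul (.pp [(1, 360)]) (.sq [(1,
 -96), (2, 93), (3, 100), (5, -55), (7, 68)])))) (.mul (.g 15) (.mul (.pp [(1, 12120)]) (.sq [(1,
 26), (2, -50), (3, 79), (5, -63), (7, 100)]))))) (.mul (.g 5) (.add (.mul (.g 7) (.mul (.g 7)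
 (.mul (.g 10) (.pp [(1, 40855680)])))) (.mul (.g 8) (.mul (.g 17) (.mul (.g 17) (.pp [(1,
 8170200000)]))))))))) (.add (.add (.add (.mul (.g 0) (.pp [(1, 60000000)])) (.mul (.g 2) (.pp [(1,
 480000000)]))) (.add (.mul (.g 3) (.pp [(1, 200000000000)])) (.mul (.g 4) (.pp [(1,
 200000000000)])))) (.add (.add (.mul (.g 10) (.mul (.g 16) (.mul (.g 16) (.mul (.g 16) (.pp [(1,
 46015200000)]))))) (.mul (.g 12) (.mul (.pp [(1, 5279580)]) (.sq [(1, -61), (2, 100), (3, 23), (5,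
 -17), (7, 36)])))) (.add (.mul (.g 17) (.mul (.g 17) (.mul (.pp [(1, 18960)]) (.sq [(1, 13), (2,
 43), (3, 100), (5, -26), (7, -78)])))) (.mul (.g 18) (.pp [(1, 200000000000)])))))) (.pp [(1,
 782342460), (2, 6849240), (3, 6341640), (4, 5652240), (5, 6521040), (6, 5646840), (7, 6208020),
 (8, 6012000), (9, 6420996), (10, 6152460), (12, 7211760), (14, 3534600), (15, 6454092), (16,
 6631980), (18, 3875220), (20, 7005160), (21, 5791392), (24, 5728440), (25, 5404671), (27,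
 6080784), (28, 5742000), (30, 6442680), (35, 6185652), (36, 6048420), (40, 4684440), (42,
 7385520), (45, 5335008), (49, 6138576), (50, 4829875), (54, 6550440), (56, 5097240), (60,
 5202720), (63, 5555472), (70, 6567180), (75, 5532129), (81, 5851560), (84, 7308480), (90,
 6171360), (98, 6923580), (100, 7681200), (105, 6648036), (125, 6911745), (126, 4731480), (135,
 6369960), (140, 6034320), (147, 6276972), (150, 6538440), (175, 5919624), (189, 6592320), (196,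
 6891780), (210, 5315280), (225, 5856900), (245, 5783628), (250, 5022600), (294, 4580400), (315,
 7057440), (343, 5986404), (350, 7121880), (375, 5647800), (441, 6191460), (490, 4780920), (525,
 5663520), (625, 5900340), (686, 5784960), (735, 6425640), (875, 5720640), (1029, 6215040), (1225,
 6546180), (1715, 5750400), (2401, 6000000)])))))))))
 (.split [(1, -7), (5, 50)]
 (.split [(2, 1), (3, -1)]
 (.rule 0 (.cut 575 [(2, 1), (5, -1)] (.add (.add (.mul (.g 2) (.pp [(1, 2)])) (.mul (.g 4) (.pp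
 [(1, 23)]))) (.add (.mul (.g 1) (.pp [(1, 575)])) (.mul (.g 3) (.pp [(1, 135)])))) (.rule 2 (.rule
 7 (.rule 11 (.leaf 600000000 (.add (.add (.add (.add (.mul (.g 12) (.add (.add (.add (.mul (.g 8)
 (.add (.add (.pp [(1, 65874480000)]) (.add (.mul (.g 12) (.add (.add (.pp [(1, 11074800000)])
 (.mul (.g 5) (.pp [(1, 193973040000)]))) (.add (.mul (.g 8) (.pp [(1, 3145411200)])) (.mul (.g 16)
 (.pp [(1, 6473544000)]))))) (.mul (.g 8) (.add (.mul (.g 10) (.pp [(1, 757468800)])) (.mul (.g 13)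
 (.pp [(1, 368716800)])))))) (.add (.mul (.g 11) (.add (.mul (.g 14) (.pp [(1, 14907600000)]))
 (.mul (.g 17) (.pp [(1, 98022000000)])))) (.add (.mul (.g 5) (.mul (.g 10) (.pp [(1,
 346080000)]))) (.mul (.g 17) (.mul (.g 17) (.pp [(1, 31446960000)]))))))) (.mul (.g 12) (.add
 (.add (.mul (.g 12) (.add (.mul (.g 14) (.pp [(1, 1206810000000)])) (.mul (.g 20) (.pp [(1,
 141234000000)])))) (.mul (.g 7) (.mul (.g 9) (.pp [(1, 558507600000)])))) (.add (.mul (.g 13)
 (.mul (.g 18) (.pp [(1, 1898010000000)]))) (.mul (.g 16) (.pp [(1, 114493800000)])))))) (.add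
 (.mul (.g 5) (.add (.mul (.pp [(1, 95572800)]) (.sq [(1, 63), (2, 36), (3, -100), (5, 87), (7,
 92)])) (.add (.mul (.g 7) (.mul (.g 18) (.pp [(1, 9729600000)]))) (.mul (.g 13) (.mul (.g 17) (.pp
 [(1, 3154596000000)])))))) (.mul (.g 10) (.add (.mul (.pp [(1, 664200)]) (.sq [(1, -100), (2,
 -67), (3, -82), (5, -18), (7, 98)])) (.add (.mul (.g 11) (.mul (.g 16) (.pp [(1, 97095900000)])))
 (.mul (.g 17) (.mul (.g 17) (.pp [(1, 873696000000)])))))))) (.add (.add (.mul (.g 16) (.add (.pp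
 [(1, 69078000000)]) (.mul (.pp [(1, 7168050)]) (.sq [(1, 64), (2, -51), (3, -72), (5, 66), (7,
 100)])))) (.mul (.g 20) (.add (.pp [(1, 2693862000000)]) (.mul (.pp [(1, 89813400)]) (.sq [(1,
 -31), (2, 25), (3, 100), (5, -33), (7, -51)]))))) (.add (.mul (.g 7) (.pp [(1, 166897200000)]))
 (.mul (.g 13) (.mul (.g 14) (.mul (.g 17) (.pp [(1, 360270000000)])))))))) (.add (.mul (.g 9)
 (.add (.add (.mul (.g 9) (.add (.add (.mul (.g 7) (.add (.mul (.g 6) (.pp [(1, 4092984000)]))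
 (.add (.mul (.g 8) (.pp [(1, 1213200000)])) (.mul (.g 13) (.pp [(1, 615468000000)]))))) (.mul (.g
 8) (.add (.mul (.g 14) (.pp [(1, 9104880000)])) (.mul (.g 18) (.pp [(1, 61399680000)]))))) (.add
 (.mul (.g 20) (.add (.mul (.g 10) (.pp [(1, 412056000000)])) (.mul (.g 11) (.pp [(1,
 747198000000)])))) (.add (.mul (.g 5) (.mul (.g 13) (.pp [(1, 1631082000000)]))) (.mul (.g 16)
 (.mul (.g 18) (.pp [(1, 7464900000)]))))))) (.mul (.g 5) (.add (.mul (.g 5) (.mul (.g 7) (.pp [(1,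
 111807600000)]))) (.mul (.g 15) (.mul (.g 17) (.pp [(1, 71274000000)])))))) (.add (.mul (.g 7)
 (.mul (.g 15) (.pp [(1, 318546000000)]))) (.mul (.g 8) (.pp [(1, 9812880000)]))))) (.mul (.g 16)
 (.add (.add (.mul (.g 16) (.add (.mul (.pp [(1, 32592)]) (.sq [(1, 66), (2, 100), (3, 87), (5,
 56), (7, -23)])) (.add (.mul (.pp [(1, 168495)]) (.sq [(1, 100), (2, -76), (3, 17), (5, 17), (7,
 -39)])) (.mul (.pp [(1, 48486)]) (.sq [(1, 81), (2, 35), (3, -78), (5, -100), (7, 96)]))))) (.mul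
 (.g 11) (.add (.pp [(1, 61006500000)]) (.mul (.pp [(1, 82590)]) (.sq [(1, 59), (2, 100), (3, 93),
 (5, 84), (7, -6)]))))) (.add (.mul (.g 13) (.mul (.pp [(1, 2379780)]) (.sq [(1, -11), (2, -43),
 (3, -64), (5, 100), (7, 5)]))) (.mul (.g 14) (.mul (.pp [(1, 726810)]) (.sq [(1, -21), (2, 100),
 (3, 36), (5, -28), (7, 93)])))))))) (.add (.add (.mul (.g 5) (.add (.add (.pp [(1, 735000000000)])
 (.mul (.g 10) (.add (.pp [(1, 1512276000000)]) (.mul (.g 5) (.pp [(1, 2039052000000)]))))) (.add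
 (.mul (.g 11) (.add (.pp [(1, 2120790000000)]) (.mul (.g 11) (.mul (.g 13) (.pp [(1,
 68130000000)]))))) (.mul (.g 13) (.pp [(1, 87840000000)]))))) (.mul (.g 20) (.add (.add (.mul (.g
 20) (.add (.mul (.pp [(1, 35526600)]) (.sq [(1, 100), (2, -58), (3, -20), (5, -67), (7, -32)]))
 (.mul (.g 10) (.mul (.g 17) (.pp [(1, 8358000000)]))))) (.mul (.g 7) (.mul (.pp [(1, 11427360)])
 (.sq [(1, 21), (2, 21), (3, 50), (5, -20), (7, -11)])))) (.add (.mul (.g 11) (.mul (.g 11) (.mul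
 (.g 11) (.pp [(1, 581208000000)])))) (.add (.mul (.g 13) (.mul (.pp [(1, 24271200)]) (.sq [(1,
 -6), (2, 70), (3, -68), (5, 79), (7, 100)]))) (.mul (.g 15) (.mul (.pp [(1, 33521400)]) (.sq [(1,
 26), (2, -41), (3, 84), (5, 100), (7, 50)])))))))) (.add (.mul (.g 14) (.add (.add (.mul (.g 6)
 (.add (.mul (.pp [(1, 691008)]) (.sq [(1, 76), (2, 100), (3, 8), (5, -45), (7, 13)])) (.mul (.pp
 [(1, 2981460)]) (.sq [(1, 5), (3, -49), (5, -19), (7, 100)])))) (.mul (.g 7) (.mul (.pp [(1,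
 5088120)]) (.sq [(1, 27), (2, 100), (3, 35), (5, 48), (7, -12)])))) (.add (.mul (.g 11) (.mul (.pp
 [(1, 32827200)]) (.sq [(1, 4), (2, -4), (3, -54), (5, -17), (7, 100)]))) (.mul (.g 14) (.mul (.pp
 [(1, 12219000)]) (.sq [(1, 54), (2, 100), (3, 33), (5, 16), (7, -35)])))))) (.mul (.g 7) (.add
 (.mul (.g 7) (.pp [(1, 49063680000)])) (.mul (.g 8) (.pp [(1, 19015056000)]))))))) (.add (.add
 (.add (.mul (.g 0) (.pp [(1, 1200000000)])) (.mul (.g 1) (.pp [(1, 4800000000)]))) (.add (.mul (.g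
 2) (.pp [(1, 2000000000000)])) (.mul (.g 4) (.pp [(1, 2000000000000)])))) (.add (.add (.mul (.g 6)
 (.mul (.g 18) (.mul (.pp [(1, 373644)]) (.sq [(1, 60), (2, 100), (3, 42), (5, -99), (7, 4)]))))
 (.mul (.g 8) (.mul (.g 8) (.pp [(1, 4321267200)])))) (.add (.mul (.g 13) (.mul (.g 13) (.mul (.pp
 [(1, 98437200)]) (.sq [(1, 41), (2, -100), (3, 59), (5, 59), (7, -59)])))) (.mul (.g 19) (.pp [(1,
 2000000000000)])))))) (.pp [(1, 92463778908), (2, 64675446), (3, 61794258), (4, 64703310), (5,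
 59112840), (6, 55363416), (7, 61567716), (8, 65384020), (9, 53857893), (10, 55966920), (12,
 46271400), (14, 66962436), (15, 56921238), (16, 60747600), (18, 67446204), (20, 49633800), (21,
 48745710), (24, 55440600), (25, 68282241), (27, 62992676), (28, 54837330), (30, 70188600), (35,
 57781950), (36, 64723200), (40, 71677200), (42, 53444928), (45, 58193754), (49, 58636863), (50,
 69098820), (54, 61544400), (56, 58294800), (60, 54855000), (63, 56264112), (70, 43888200), (75,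
 58083348), (81, 57691800), (84, 63116400), (90, 56551800), (98, 54677334), (100, 47080800), (105,
 80261064), (125, 52881032), (126, 60098400), (135, 60851400), (140, 65118000), (147, 73733286),
 (150, 63757200), (175, 66069456), (189, 57766800), (196, 64325400), (210, 78826800), (225,
 63522600), (245, 60476238), (250, 58380600), (294, 67264800), (315, 38056800), (343, 54665880),
 (350, 66957600), (375, 61347000), (441, 54211200), (490, 58051200), (525, 39840600), (625,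
 63862800), (686, 57411600), (735, 57634800), (875, 54974400), (1029, 62151000), (1225, 61218000),
 (1715, 63790800), (2401, 59415000)]))))))))
 (.rule 1 (.rule 6 (.rule 7 (.rule 11 (.leaf 375000000 (.add (.add (.add (.add (.add (.mul (.pp
 [(1, 48984750)]) (.sq [(1, -55), (2, -74), (3, 100), (5, -21), (7, -8)])) (.mul (.pp [(1,
 8250000)]) (.sq [(1, 43), (2, 100), (3, -76), (5, -31), (7, 33)]))) (.add (.mul (.pp [(1,
 67736250)]) (.sq [(1, -65), (2, 43), (3, 100), (5, -63), (7, 13)])) (.mul (.pp [(1, 2361750)])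
 (.sq [(1, 60), (2, 97), (3, -62), (5, -100), (7, -24)])))) (.add (.add (.mul (.g 11) (.add (.add
 (.mul (.pp [(1, 2495625)]) (.sq [(1, 4), (2, -15), (3, -43), (5, 28), (7, 100)])) (.mul (.g 8)
 (.add (.add (.mul (.g 7) (.add (.add (.mul (.g 9) (.pp [(1, 7677900000)])) (.mul (.g 10) (.pp [(1,
 1836000000)]))) (.add (.mul (.g 11) (.pp [(1, 41196450000)])) (.mul (.g 12) (.pp [(1,
 10867650000)]))))) (.add (.mul (.g 19) (.add (.add (.pp [(1, 696922500000)]) (.mul (.g 9) (.pp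
 [(1, 996026250000)]))) (.add (.mul (.g 12) (.pp [(1, 1762623750000)])) (.mul (.g 19) (.pp [(1,
 6697500000)]))))) (.mul (.g 4) (.add (.mul (.g 4) (.pp [(1, 491823750000)])) (.mul (.g 15) (.pp
 [(1, 2121562500)])))))) (.add (.add (.mul (.g 5) (.mul (.g 5) (.pp [(1, 212637000)]))) (.mul (.g
 6) (.mul (.g 6) (.pp [(1, 4194600000)])))) (.add (.mul (.g 10) (.mul (.g 15) (.pp [(1,
 2650125000)]))) (.mul (.g 11) (.mul (.g 11) (.pp [(1, 764253750000)])))))))) (.add (.mul (.g 7)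
 (.add (.add (.mul (.g 19) (.add (.add (.pp [(1, 262800000)]) (.mul (.g 9) (.pp [(1,
 4796850000)]))) (.add (.mul (.g 10) (.pp [(1, 8441250000)])) (.mul (.g 19) (.pp [(1,
 1899450000)]))))) (.mul (.g 7) (.add (.pp [(1, 796644000)]) (.add (.mul (.g 9) (.pp [(1,
 105204000)])) (.mul (.g 17) (.pp [(1, 348180000)])))))) (.add (.mul (.g 5) (.pp [(1, 299865000)]))
 (.mul (.g 11) (.mul (.g 11) (.pp [(1, 7461150000)])))))) (.add (.mul (.g 5) (.add (.mul (.g 10)
 (.add (.add (.mul (.g 11) (.pp [(1, 400650000)])) (.mul (.g 12) (.pp [(1, 12279675000)]))) (.add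
 (.mul (.g 14) (.pp [(1, 38925000)])) (.mul (.g 19) (.pp [(1, 998250000)]))))) (.add (.mul (.g 11)
 (.add (.mul (.g 4) (.pp [(1, 5370750000)])) (.mul (.g 9) (.pp [(1, 1173075000)])))) (.mul (.g 5)
 (.mul (.g 12) (.pp [(1, 103668000)])))))) (.mul (.g 11) (.mul (.g 11) (.add (.mul (.g 6) (.pp [(1,
 837000000)])) (.add (.mul (.g 13) (.pp [(1, 13976250000)])) (.mul (.g 19) (.pp [(1,
 211537500000)])))))))))) (.mul (.g 5) (.add (.mul (.g 5) (.add (.add (.mul (.g 5) (.add (.mul (.g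
 6) (.pp [(1, 2184)])) (.mul (.g 16) (.pp [(1, 1054530)])))) (.mul (.g 8) (.add (.mul (.g 13) (.pp
 [(1, 120672000)])) (.mul (.g 19) (.pp [(1, 58828500)]))))) (.add (.mul (.g 13) (.pp [(1,
 18690000)])) (.mul (.g 19) (.pp [(1, 60994500)]))))) (.mul (.g 6) (.mul (.g 7) (.add (.mul (.g 4)
 (.pp [(1, 60544800)])) (.mul (.g 9) (.pp [(1, 37104000)])))))))) (.add (.mul (.g 9) (.add (.add
 (.mul (.pp [(1, 87496500)]) (.sq [(1, 27), (2, 100), (3, -24), (5, -91), (7, -5)])) (.mul (.g 7)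
 (.add (.mul (.g 7) (.add (.mul (.g 6) (.pp [(1, 97532400)])) (.mul (.g 16) (.pp [(1,
 106770000)])))) (.mul (.g 8) (.mul (.g 19) (.pp [(1, 372450000)])))))) (.add (.mul (.g 4) (.mul
 (.pp [(1, 2746500)]) (.sq [(1, 17), (2, -59), (3, -52), (5, 100), (7, -4)]))) (.mul (.g 14) (.mul
 (.pp [(1, 78055500)]) (.sq [(1, 29), (2, 50), (3, -34), (5, -44), (7, -1)])))))) (.add (.mul (.g
 12) (.add (.add (.mul (.pp [(1, 353250)]) (.sq [(1, 49), (2, 100), (3, -96), (7, 32)])) (.mul (.pp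
 [(1, 27815625)]) (.sq [(1, -11), (2, 100), (3, 22), (5, -85), (7, 44)]))) (.add (.mul (.g 8) (.mul
 (.pp [(1, 1147125)]) (.sq [(1, -21), (2, 94), (3, -45), (5, 100), (7, -6)]))) (.add (.mul (.g 12)
 (.mul (.pp [(1, 10833375)]) (.sq [(1, -89), (2, -29), (3, 100), (5, 57), (7, 39)]))) (.mul (.g 13)
 (.mul (.pp [(1, 35947875)]) (.sq [(1, -85), (2, 6), (3, 63), (5, 100), (7, 43)]))))))) (.mul (.g
 4) (.add (.mul (.pp [(1, 7451625)]) (.sq [(1, -81), (2, -97), (3, 100), (5, 81), (7, -1)])) (.add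
 (.mul (.g 8) (.mul (.pp [(1, 2214375)]) (.sq [(1, 24), (2, 100), (3, -55), (5, -21), (7, -22)])))
 (.mul (.g 17) (.mul (.pp [(1, 19757250)]) (.sq [(1, 15), (2, 82), (3, -66), (5, 29), (7,
 100)])))))))))) (.add (.add (.add (.mul (.g 14) (.add (.mul (.pp [(1, 35696250)]) (.sq [(1, -5),
 (2, 100), (3, 15), (5, -91), (7, 45)])) (.add (.mul (.g 14) (.mul (.pp [(1, 141000)]) (.sq [(1,
 -51), (2, 55), (3, 100), (5, -97), (7, -24)]))) (.mul (.g 19) (.mul (.pp [(1, 23647125)]) (.sq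
 [(1, -8), (2, 100), (3, -37), (5, 46), (7, 19)])))))) (.mul (.g 7) (.mul (.g 7) (.add (.pp [(1,
 161856000)]) (.mul (.g 16) (.pp [(1, 80946000)])))))) (.add (.mul (.g 8) (.add (.mul (.pp [(1,
 33141375)]) (.sq [(1, -32), (2, -90), (3, 100), (5, -65), (7, 19)])) (.mul (.g 6) (.mul (.pp [(1,
 1405950)]) (.sq [(1, -26), (2, 76), (3, -31), (5, 100), (7, -5)]))))) (.add (.mul (.g 17) (.add
 (.mul (.pp [(1, 2667375)]) (.sq [(1, -24), (2, 44), (3, 68), (5, -100), (7, 3)])) (.mul (.g 19)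
 (.mul (.pp [(1, 6717375)]) (.sq [(1, 100), (2, -63), (3, -84), (5, -84), (7, -63)]))))) (.mul (.g
 0) (.pp [(1, 750000000)]))))) (.add (.add (.mul (.g 1) (.pp [(1, 3000000000)])) (.mul (.g 2) (.pp
 [(1, 1250000000000)]))) (.add (.mul (.g 3) (.pp [(1, 1250000000000)])) (.add (.mul (.g 18) (.pp
 [(1, 1250000000000)])) (.mul (.g 19) (.mul (.pp [(1, 136495500)]) (.sq [(1, 5), (2, 100), (3,
 -36), (5, 1), (7, 3)])))))))) (.pp [(1, 672608001), (2, 35127375), (3, 38925810), (4, 39093825),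
 (5, 38458365), (6, 45272925), (7, 36558000), (8, 38336025), (9, 31987875), (10, 35744625), (12,
 36042450), (14, 41325750), (15, 30926250), (16, 36476625), (18, 34222650), (20, 38144875), (21,
 36134250), (24, 39609000), (25, 38877000), (27, 42502500), (28, 37611000), (30, 29371500), (35,
 36112500), (36, 36267375), (40, 37646250), (42, 30137250), (45, 46009500), (49, 36782250), (50,
 34706125), (54, 37880625), (56, 37980750), (60, 36402375), (63, 45393375), (70, 35847000), (75,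
 41878875), (81, 35470125), (84, 39161250), (90, 39655125), (98, 39669375), (100, 36039000), (105,
 37205250), (125, 33731250), (126, 36579375), (135, 36419625), (140, 34671375), (147, 39902250),
 (150, 44182125), (175, 37756500), (189, 34038375), (196, 39070500), (210, 42103500), (225,
 32781000), (245, 37289250), (250, 40710750), (294, 35373750), (315, 36618375), (343, 38920875),
 (350, 42493500), (375, 38229750), (441, 34288875), (490, 36932625), (525, 38608500), (625,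
 38331000), (686, 35887875), (735, 37983000), (875, 36772500), (1029, 35362125), (1225, 37261500),
 (1715, 36600750), (2401, 37500000)]))))))))
 (.cut 450 [(2, -1), (3, 1)] (.add (.mul (.g 10) (.pp [(1, 7)])) (.add (.mul (.g 9) (.pp [(1,
 310)])) (.mul (.g 0) (.pp [(1, 9)])))) (.rule 1 (.rule 6 (.rule 7 (.leaf 75000000 (.add (.add
 (.add (.add (.mul (.g 7) (.add (.add (.mul (.g 7) (.add (.add (.mul (.g 9) (.add (.add (.mul (.g
 9) (.pp [(1, 73368000000)])) (.mul (.g 11) (.pp [(1, 151137750000)]))) (.add (.mul (.g 15) (.pp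
 [(1, 60767250000)])) (.mul (.g 18) (.pp [(1, 96718500000)]))))) (.mul (.g 7) (.add (.pp [(1,
 164303250000)]) (.add (.mul (.g 4) (.pp [(1, 4860000)])) (.mul (.g 11) (.pp [(1,
 5934000000)])))))) (.add (.mul (.g 8) (.add (.mul (.g 6) (.pp [(1, 5620770000)])) (.add (.mul (.g
 8) (.pp [(1, 4923000000)])) (.mul (.g 18) (.pp [(1, 158940000000)]))))) (.add (.mul (.g 18) (.add
 (.pp [(1, 114372750000)]) (.mul (.g 11) (.pp [(1, 20938500000)])))) (.mul (.g 10) (.mul (.g 10)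
 (.pp [(1, 164074500000)]))))))) (.mul (.g 10) (.add (.add (.mul (.g 6) (.add (.mul (.g 8) (.pp
 [(1, 18584040000)])) (.add (.mul (.g 15) (.pp [(1, 18595680000)])) (.mul (.g 16) (.pp [(1,
 5188740000)]))))) (.mul (.g 18) (.add (.pp [(1, 479042250000)]) (.add (.mul (.g 11) (.pp [(1,
 196130250000)])) (.mul (.g 18) (.pp [(1, 1237500000)])))))) (.add (.mul (.g 8) (.mul (.g 9) (.pp
 [(1, 134100750000)]))) (.add (.mul (.g 10) (.mul (.g 10) (.pp [(1, 167250750000)]))) (.mul (.g 11)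
 (.mul (.g 11) (.pp [(1, 126027750000)])))))))) (.add (.mul (.g 4) (.add (.pp [(1, 2229540000)])
 (.add (.mul (.g 8) (.add (.mul (.g 8) (.pp [(1, 4039830000)])) (.add (.mul (.g 11) (.pp [(1,
 3097950000)])) (.mul (.g 16) (.pp [(1, 30150000)]))))) (.mul (.g 13) (.pp [(1, 6367845000)])))))
 (.mul (.g 6) (.mul (.g 6) (.add (.mul (.g 9) (.pp [(1, 322029600)])) (.mul (.g 13) (.pp [(1,
 4161600)])))))))) (.mul (.g 10) (.add (.add (.mul (.g 10) (.add (.mul (.g 10) (.add (.add (.mul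
 (.g 4) (.pp [(1, 414675000)])) (.mul (.g 8) (.pp [(1, 7248000000)]))) (.add (.mul (.g 14) (.pp
 [(1, 803962500)])) (.mul (.g 18) (.pp [(1, 42307500000)]))))) (.add (.mul (.g 14) (.add (.pp [(1,
 205537500)]) (.add (.mul (.g 9) (.pp [(1, 268087500)])) (.mul (.g 15) (.pp [(1, 585337500)])))))
 (.mul (.g 18) (.add (.mul (.g 11) (.pp [(1, 6231750000)])) (.mul (.g 15) (.pp [(1,
 17544000000)]))))))) (.mul (.g 18) (.add (.mul (.g 4) (.add (.mul (.g 11) (.pp [(1, 19005000)]))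
 (.mul (.g 13) (.pp [(1, 23940000)])))) (.mul (.g 8) (.add (.pp [(1, 1507500000)]) (.mul (.g 8)
 (.pp [(1, 2069250000)]))))))) (.add (.mul (.g 9) (.add (.mul (.pp [(1, 469875)]) (.sq [(1, 11),
 (2, -75), (3, 41), (5, -65), (7, 100)])) (.add (.mul (.g 4) (.mul (.g 11) (.pp [(1, 382590000)])))
 (.mul (.g 8) (.mul (.g 9) (.pp [(1, 2090250000)])))))) (.mul (.g 6) (.add (.mul (.pp [(1, 9987)])
 (.sq [(1, 33), (2, -64), (3, -100), (5, 30), (7, 77)])) (.mul (.g 6) (.mul (.g 11) (.pp [(1,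
 30787200)]))))))))) (.add (.mul (.g 9) (.add (.mul (.g 4) (.add (.add (.mul (.pp [(1, 4884)]) (.sq
 [(1, 43), (2, 50), (3, 47), (5, 47), (7, 47)])) (.mul (.g 4) (.add (.mul (.g 8) (.pp [(1,
 511800)])) (.mul (.g 11) (.pp [(1, 2756400)]))))) (.add (.mul (.g 8) (.mul (.g 15) (.pp [(1,
 3960000)]))) (.mul (.g 12) (.pp [(1, 34530000)]))))) (.add (.mul (.g 9) (.add (.mul (.g 9) (.add
 (.mul (.g 5) (.pp [(1, 32850000)])) (.mul (.g 13) (.pp [(1, 696000000)])))) (.mul (.g 18) (.pp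
 [(1, 1907250000)])))) (.mul (.g 18) (.add (.mul (.g 5) (.mul (.g 16) (.pp [(1, 176400000)])))
 (.mul (.g 8) (.pp [(1, 717750000)]))))))) (.add (.mul (.g 11) (.add (.add (.mul (.pp [(1,
 11399250)]) (.sq [(1, -5), (2, 100), (3, -22), (5, 11), (7, 35)])) (.mul (.pp [(1, 2277150)]) (.sq
 [(1, 22), (2, 100), (3, -42), (5, -8), (7, 23)]))) (.add (.mul (.g 8) (.mul (.pp [(1, 1893825)])
 (.sq [(1, -1), (2, 100), (3, -37), (5, -2), (7, 97)]))) (.add (.mul (.g 13) (.mul (.pp [(1,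
 112650)]) (.sq [(1, 8), (2, 100), (3, -25), (5, -29), (7, 31)]))) (.mul (.g 16) (.mul (.pp [(1,
 15315300)]) (.sq [(1, -9), (2, 100), (5, -24), (7, 31)]))))))) (.mul (.g 18) (.add (.add (.mul (.g
 4) (.pp [(1, 101220000)])) (.mul (.g 8) (.mul (.g 8) (.pp [(1, 2741250000)])))) (.add (.mul (.g
 13) (.mul (.pp [(1, 9150)]) (.sq [(1, 28), (2, 15), (3, -100), (5, 59), (7, -75)]))) (.mul (.g 18)
 (.pp [(1, 22769250000)])))))))) (.add (.add (.mul (.g 6) (.add (.mul (.g 4) (.pp [(1, 881400)]))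
 (.mul (.g 6) (.pp [(1, 543800400)])))) (.add (.mul (.g 8) (.add (.mul (.g 8) (.mul (.pp [(1,
 348300)]) (.sq [(1, -10), (2, 50), (3, 8), (5, -24), (7, 7)]))) (.mul (.g 13) (.mul (.pp [(1,
 32025)]) (.sq [(1, 6), (2, 100), (3, -44), (5, -17), (7, 87)]))))) (.mul (.g 0) (.pp [(1,
 600000000)])))) (.add (.mul (.g 1) (.pp [(1, 250000000000)])) (.add (.mul (.g 2) (.pp [(1,
 250000000000)])) (.mul (.g 17) (.pp [(1, 250000000000)])))))) (.pp [(1, 366119850), (2, 7594350),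
 (3, 7196175), (4, 7753800), (5, 8043588), (6, 7726125), (7, 7592631), (8, 7548750), (9, 7468050),
 (10, 7605000), (12, 7640250), (14, 7931004), (15, 6699504), (16, 7500000), (18, 6560700), (20,
 7566350), (21, 7567575), (23, 750000000000), (24, 7691250), (25, 6565854), (27, 8094525), (28,
 6196884), (30, 6658200), (35, 7386549), (36, 7477500), (40, 7620000), (42, 6742050), (45,
 7633758), (49, 7029978), (50, 7151150), (54, 8283075), (56, 8261250), (60, 7485750), (63,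
 7616250), (70, 7985190), (75, 9050916), (81, 7208400), (84, 7654950), (90, 7284750), (98,
 7645476), (100, 7831350), (105, 6990966), (125, 8508108), (126, 8160750), (135, 7367400), (140,
 7431075), (147, 8692725), (150, 8381025), (175, 7873566), (189, 7423800), (196, 7580850), (210,
 6667500), (225, 7533525), (245, 7598088), (250, 7865850), (294, 7643850), (315, 7934775), (343,
 7807191), (350, 7924800), (375, 7971525), (441, 6249825), (490, 7768350), (525, 8985450), (625,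
 7687800), (686, 7781250), (735, 6870525), (875, 7504875), (1029, 7395675), (1225, 8085300), (1715,
 7218750), (2401, 7500000)])))))))))
 (.split [(1, -3), (5, 5)]
 (.rule 5 (.rule 6 (.cut 1 [(1, 3), (5, -2)] (.add (.add (.mul (.g 9) (.pp [(1, 1)])) (.mul (.g 5)
 (.pp [(1, 1)]))) (.add (.mul (.g 13) (.pp [(1, 1)])) (.mul (.g 8) (.pp [(1, 1)])))) (.rule 12
 (.leaf 75000000 (.add (.add (.add (.add (.mul (.pp [(1, 18046275)]) (.sq [(1, -19), (2, 100), (3,
 9), (5, -31), (7, -1)])) (.add (.mul (.g 4) (.add (.add (.mul (.g 9) (.add (.add (.mul (.g 7)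
 (.add (.pp [(1, 1443900000)]) (.add (.mul (.g 15) (.pp [(1, 300000)])) (.mul (.g 17) (.pp [(1,
 11100000)]))))) (.mul (.g 6) (.add (.mul (.g 4) (.pp [(1, 455640000)])) (.mul (.g 5) (.pp [(1,
 871980000)]))))) (.add (.mul (.g 9) (.add (.pp [(1, 525450000)]) (.mul (.g 15) (.pp [(1,
 5100000)])))) (.add (.mul (.g 10) (.add (.mul (.g 10) (.pp [(1, 24976200000)])) (.mul (.g 12) (.pp
 [(1, 2281200000)])))) (.mul (.g 12) (.mul (.g 15) (.pp [(1, 1500000)]))))))) (.add (.mul (.g 6)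
 (.add (.add (.mul (.g 6) (.add (.mul (.g 6) (.pp [(1, 2338950000)])) (.add (.mul (.g 11) (.pp [(1,
 5009250000)])) (.mul (.g 15) (.pp [(1, 3303450000)]))))) (.mul (.g 10) (.add (.pp [(1,
 14888550000)]) (.mul (.g 17) (.pp [(1, 2274600000)]))))) (.add (.mul (.g 5) (.mul (.g 7) (.pp [(1,
 73470000)]))) (.mul (.g 17) (.pp [(1, 45690900000)]))))) (.mul (.g 8) (.add (.pp [(1,
 13184250000)]) (.add (.mul (.g 8) (.add (.mul (.g 10) (.pp [(1, 1500000)])) (.mul (.g 15) (.pp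
 [(1, 1164750000)])))) (.mul (.g 7) (.mul (.g 10) (.pp [(1, 1398000000)])))))))) (.add (.add (.mul
 (.g 4) (.add (.pp [(1, 507300000)]) (.add (.mul (.g 4) (.mul (.g 4) (.pp [(1, 9306000)]))) (.mul
 (.g 7) (.mul (.g 15) (.pp [(1, 1080000)])))))) (.mul (.g 10) (.add (.pp [(1, 6093900000)]) (.mul
 (.g 7) (.mul (.g 7) (.pp [(1, 2230050000)])))))) (.add (.mul (.g 5) (.pp [(1, 1434546000)])) (.mul
 (.g 17) (.pp [(1, 17777100000)])))))) (.mul (.g 6) (.add (.mul (.g 9) (.add (.mul (.g 17) (.add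
 (.add (.mul (.g 7) (.pp [(1, 280447500000)])) (.mul (.g 8) (.pp [(1, 14340000000)]))) (.add (.mul
 (.g 10) (.pp [(1, 360198750000)])) (.mul (.g 17) (.pp [(1, 158609250000)]))))) (.add (.mul (.g 13)
 (.add (.mul (.g 7) (.pp [(1, 2841637500)])) (.mul (.g 10) (.pp [(1, 7383375000)])))) (.mul (.g 5)
 (.mul (.g 6) (.pp [(1, 3638970000)])))))) (.add (.mul (.g 11) (.add (.add (.mul (.g 7) (.add (.pp
 [(1, 89676750000)]) (.add (.mul (.g 7) (.pp [(1, 47820000000)])) (.mul (.g 17) (.pp [(1,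
 41205750000)]))))) (.mul (.g 6) (.mul (.g 10) (.pp [(1, 46363500000)])))) (.add (.mul (.g 13) (.pp
 [(1, 932137500)])) (.mul (.g 17) (.pp [(1, 201228750000)]))))) (.mul (.g 5) (.add (.mul (.g 6)
 (.add (.mul (.g 7) (.pp [(1, 184200000)])) (.add (.mul (.g 8) (.pp [(1, 1028790000)])) (.mul (.g
 12) (.pp [(1, 1190220000)]))))) (.add (.mul (.g 8) (.mul (.g 17) (.pp [(1, 520590000)]))) (.mul
 (.g 12) (.pp [(1, 6999780000)])))))))))) (.add (.mul (.g 9) (.add (.mul (.g 9) (.add (.mul (.g 10)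
 (.add (.mul (.g 7) (.pp [(1, 37311000000)])) (.add (.mul (.g 8) (.pp [(1, 19533750000)])) (.mul
 (.g 15) (.pp [(1, 33948750000)]))))) (.add (.mul (.g 9) (.add (.mul (.g 13) (.pp [(1, 2587500)]))
 (.mul (.g 17) (.pp [(1, 42356250000)])))) (.mul (.g 5) (.mul (.g 17) (.pp [(1, 1666650000)]))))))
 (.add (.mul (.g 5) (.add (.mul (.g 5) (.add (.mul (.g 7) (.pp [(1, 67098000)])) (.mul (.g 17) (.pp
 [(1, 25124400)])))) (.mul (.g 8) (.mul (.g 13) (.pp [(1, 79500)]))))) (.mul (.g 7) (.add (.mul (.g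
 7) (.mul (.g 17) (.pp [(1, 25683000000)]))) (.mul (.g 10) (.mul (.g 11) (.pp [(1,
 23773500000)])))))))) (.add (.mul (.g 5) (.add (.mul (.g 7) (.add (.pp [(1, 5371560000)]) (.mul
 (.g 7) (.mul (.g 7) (.pp [(1, 12780000)]))))) (.add (.mul (.g 10) (.mul (.g 12) (.mul (.g 13) (.pp
 [(1, 13971000)])))) (.mul (.g 15) (.mul (.pp [(1, 78)]) (.sq [(1, -14), (2, -9), (3, -79), (5,
 100)])))))) (.mul (.g 10) (.add (.mul (.pp [(1, 32929500)]) (.sq [(1, -19), (2, 50), (3, 6), (5,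
 -5), (7, 11)])) (.add (.mul (.g 10) (.mul (.g 13) (.mul (.g 13) (.pp [(1, 103890000)])))) (.mul
 (.g 11) (.mul (.g 11) (.pp [(1, 97022250000)]))))))))) (.add (.add (.mul (.g 17) (.add (.mul (.g
 17) (.add (.pp [(1, 10050000000)]) (.mul (.pp [(1, 9375)]) (.sq [(1, 65), (2, -100), (3, 66), (5,
 44), (7, -72)])))) (.mul (.g 14) (.mul (.pp [(1, 62250)]) (.sq [(1, 4), (2, 31), (3, -66), (5, 9),
 (7, 100)]))))) (.add (.mul (.g 12) (.add (.mul (.pp [(1, 1076250)]) (.sq [(2, 100), (3, -40), (5,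
 -40), (7, -3)])) (.mul (.pp [(1, 9004200)]) (.sq [(1, -41), (2, 100), (3, 25), (5, -18), (7,
 36)])))) (.mul (.g 0) (.pp [(1, 75000000)])))) (.add (.mul (.g 2) (.pp [(1, 250000000000)])) (.add
 (.mul (.g 3) (.pp [(1, 250000000000)])) (.mul (.g 16) (.pp [(1, 250000000000)])))))) (.pp [(1,
 2074899954), (2, 7512048), (3, 8755188), (4, 8360844), (5, 7731546), (6, 5732328), (7, 8285700),
 (8, 8330000), (9, 7257684), (10, 7024152), (12, 5807450), (14, 7158600), (15, 7375962), (16,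
 7500000), (18, 9557900), (19, 750000000000), (20, 6337406), (21, 7099200), (24, 7500000), (25,
 7437975), (27, 7212450), (28, 7397250), (30, 9260172), (35, 7619850), (36, 7677750), (40,
 7500000), (42, 7936500), (45, 6944166), (49, 6876450), (50, 7971500), (54, 7227000), (56,
 7500000), (60, 7342050), (63, 7329000), (70, 7467300), (75, 6912900), (81, 7501500), (84,
 7677750), (90, 7491600), (98, 7423950), (100, 7500000), (105, 6980700), (125, 7399200), (126,
 7527000), (135, 7333050), (140, 7500000), (147, 7693050), (150, 8010000), (175, 7455450), (189,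
 7464000), (196, 7500000), (210, 7264500), (225, 7617750), (245, 7445550), (250, 7500000), (294,
 7800000), (315, 7653000), (343, 7537500), (350, 7500000), (375, 7500000), (441, 7462500), (490,
 7500000), (525, 7407750), (625, 7500000), (686, 7500000), (735, 7800000), (875, 7500000), (1029,
 7650000), (1225, 7350000), (1715, 7650000), (2401, 7650000)])))))))
 (.split [(1, -7), (5, 50)]
 (.split [(2, 1), (3, -1)]
 (.rule 0 (.rule 6 (.rule 11 (.leaf 3000000 (.add (.add (.add (.add (.mul (.g 10) (.add (.add (.mul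
 (.pp [(1, 171264)]) (.sq [(1, -41), (2, -52), (3, -68), (5, -22), (7, 100)])) (.add (.mul (.g 10)
 (.add (.add (.mul (.g 14) (.add (.add (.pp [(1, 193258500)]) (.mul (.g 6) (.pp [(1, 6901920)])))
 (.add (.mul (.g 9) (.pp [(1, 10318500)])) (.mul (.g 11) (.pp [(1, 14557500)]))))) (.mul (.g 3)
 (.add (.mul (.g 9) (.pp [(1, 4692420000)])) (.mul (.g 16) (.pp [(1, 6311640000)]))))) (.add (.mul
 (.g 18) (.add (.mul (.g 10) (.pp [(1, 2139150000)])) (.mul (.g 13) (.pp [(1, 218370000)])))) (.mul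
 (.g 5) (.mul (.g 6) (.pp [(1, 16892880)])))))) (.mul (.g 7) (.add (.add (.mul (.pp [(1, 116259)])
 (.sq [(1, -65), (2, -12), (3, -42), (5, -48), (7, 100)])) (.mul (.g 4) (.add (.mul (.g 8) (.pp
 [(1, 67060800)])) (.mul (.g 9) (.pp [(1, 26983800)]))))) (.add (.mul (.g 16) (.add (.mul (.g 11)
 (.pp [(1, 207540000)])) (.mul (.g 14) (.pp [(1, 200181000)])))) (.mul (.g 9) (.mul (.g 9) (.pp
 [(1, 2096310000)])))))))) (.add (.add (.mul (.g 8) (.add (.mul (.g 6) (.add (.pp [(1, 87997200)])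
 (.mul (.g 6) (.pp [(1, 4458720)])))) (.add (.mul (.g 9) (.add (.mul (.g 9) (.pp [(1, 206310000)]))
 (.mul (.g 11) (.pp [(1, 1951380000)])))) (.mul (.g 4) (.mul (.g 8) (.pp [(1, 39684000)]))))))
 (.mul (.g 18) (.add (.add (.pp [(1, 1799430000)]) (.mul (.pp [(1, 43629)]) (.sq [(1, -58), (2,
 -100), (3, -62), (5, -51), (7, 81)]))) (.add (.mul (.pp [(1, 9327)]) (.sq [(1, 98), (2, 53), (3,
 100), (5, 100), (7, 68)])) (.mul (.g 3) (.mul (.g 11) (.pp [(1, 10983480000)]))))))) (.add (.mul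
 (.g 5) (.add (.mul (.g 9) (.mul (.g 9) (.pp [(1, 60000)]))) (.mul (.g 11) (.mul (.g 12) (.pp [(1,
 184572000)]))))) (.mul (.g 3) (.mul (.g 11) (.mul (.g 16) (.pp [(1, 103920000)])))))))) (.add
 (.mul (.g 7) (.add (.add (.mul (.g 7) (.add (.add (.mul (.g 5) (.add (.add (.mul (.g 3) (.pp [(1,
 571170000)])) (.mul (.g 9) (.pp [(1, 58908000)]))) (.add (.mul (.g 11) (.pp [(1, 809052000)]))
 (.mul (.g 16) (.pp [(1, 473688000)]))))) (.mul (.g 18) (.add (.mul (.g 8) (.pp [(1, 6075450000)]))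
 (.add (.mul (.g 9) (.pp [(1, 8396700000)])) (.mul (.g 13) (.pp [(1, 472050000)])))))) (.add (.mul
 (.g 3) (.mul (.g 11) (.pp [(1, 2710110000)]))) (.mul (.g 8) (.mul (.g 8) (.pp [(1,
 2957130000)])))))) (.add (.mul (.g 3) (.add (.mul (.g 13) (.add (.pp [(1, 6217470000)]) (.add
 (.mul (.g 11) (.pp [(1, 485010000)])) (.mul (.g 18) (.pp [(1, 2682780000)]))))) (.mul (.g 16)
 (.mul (.g 18) (.pp [(1, 5480340000)]))))) (.mul (.g 4) (.add (.mul (.g 4) (.mul (.g 11) (.pp [(1,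
 672660)]))) (.mul (.g 5) (.mul (.g 9) (.pp [(1, 5092920)]))))))) (.add (.mul (.g 5) (.mul (.g 13)
 (.pp [(1, 1505238000)]))) (.add (.mul (.g 6) (.pp [(1, 60118800)])) (.mul (.g 12) (.mul (.g 14)
 (.mul (.g 16) (.pp [(1, 63631500)])))))))) (.mul (.g 3) (.add (.add (.pp [(1, 6761610000)]) (.mul
 (.g 3) (.add (.add (.mul (.pp [(1, 3454656)]) (.sq [(1, 25), (2, -19), (3, 16), (5, 8), (7, -9)]))
 (.mul (.g 8) (.pp [(1, 4722720000)]))) (.add (.mul (.g 9) (.mul (.g 9) (.pp [(1, 1658100000)])))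
 (.mul (.g 13) (.pp [(1, 183750000)])))))) (.add (.mul (.g 5) (.pp [(1, 848856000)])) (.add (.mul
 (.g 12) (.mul (.g 13) (.pp [(1, 219990000)]))) (.mul (.g 18) (.pp [(1, 5789490000)])))))))) (.add
 (.mul (.g 8) (.add (.mul (.g 8) (.mul (.g 8) (.add (.mul (.g 8) (.pp [(1, 1559970000)])) (.mul (.g
 18) (.pp [(1, 2524350000)]))))) (.add (.mul (.g 6) (.mul (.g 9) (.mul (.g 13) (.pp [(1,
 66837600)])))) (.mul (.g 15) (.mul (.pp [(1, 224400)]) (.sq [(1, 19), (2, -23), (3, -27), (5,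
 50)])))))) (.add (.mul (.g 14) (.add (.add (.mul (.g 6) (.pp [(1, 11328360)])) (.mul (.g 9) (.pp
 [(1, 12553500)]))) (.add (.mul (.g 11) (.pp [(1, 282898500)])) (.mul (.g 18) (.pp [(1,
 231400500)]))))) (.mul (.g 5) (.add (.mul (.g 9) (.add (.mul (.g 4) (.pp [(1, 1920)])) (.mul (.g
 9) (.mul (.g 13) (.pp [(1, 60000)]))))) (.mul (.g 5) (.pp [(1, 516379200)]))))))) (.add (.add
 (.mul (.g 11) (.add (.mul (.g 11) (.mul (.pp [(1, 78567)]) (.sq [(1, 41), (2, -100), (3, 59), (5,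
 59), (7, -59)]))) (.mul (.g 18) (.mul (.pp [(1, 1184412)]) (.sq [(1, -41), (2, 23), (3, 23), (5,
 32), (7, 50)]))))) (.add (.mul (.g 0) (.pp [(1, 6000000)])) (.mul (.g 1) (.pp [(1,
 10000000000)])))) (.add (.add (.mul (.g 2) (.pp [(1, 10000000000)])) (.mul (.g 15) (.mul (.g 15)
 (.mul (.pp [(1, 69900)]) (.sq [(2, -43), (3, -19), (5, -71), (7, 100)]))))) (.add (.mul (.g 17)
 (.pp [(1, 10000000000)])) (.mul (.g 18) (.mul (.g 18) (.mul (.pp [(1, 77622)]) (.sq [(1, 37), (2,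
 88), (3, 53), (5, -1), (7, 100)])))))))) (.pp [(1, 184185063), (2, 286254), (3, 337710), (4,
 343065), (5, 309390), (6, 290772), (7, 329406), (8, 282548), (9, 254445), (10, 237732), (12,
 335466), (14, 322185), (15, 284670), (16, 299184), (18, 273498), (19, 30000000000), (20, 318218),
 (21, 246906), (24, 309132), (25, 321663), (27, 311860), (28, 260223), (30, 296280), (35, 291690),
 (36, 293661), (40, 276024), (42, 313452), (45, 331428), (49, 278127), (50, 284642), (54, 310956),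
 (56, 291804), (60, 329298), (63, 288132), (70, 371508), (75, 315732), (81, 301566), (84, 324525),
 (90, 266904), (98, 294150), (100, 320289), (105, 282936), (125, 300000), (126, 285936), (135,
 305796), (140, 319086), (147, 330132), (150, 298080), (175, 312327), (189, 317208), (196, 309912),
 (210, 234864), (225, 298494), (245, 327690), (250, 300000), (294, 304872), (315, 280524), (343,
 271455), (350, 281376), (375, 300000), (441, 273666), (490, 251472), (525, 283785), (625, 300000),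
 (686, 302016), (735, 240930), (875, 300000), (1029, 302241), (1225, 301407), (1715, 278802),
 (2401, 307917)]))))))
 (.rule 1 (.rule 6 (.rule 11 (.leaf 375000000 (.add (.add (.add (.add (.mul (.pp [(1, 33879375)])
 (.sq [(1, 4), (2, 100), (3, -13), (5, -46), (7, 19)])) (.add (.mul (.pp [(1, 4633125)]) (.sq [(1,
 -11), (2, -53), (3, 4), (5, 100), (7, -46)])) (.mul (.g 6) (.add (.add (.mul (.g 7) (.add (.add
 (.mul (.pp [(1, 96420)]) (.sq [(1, 79), (2, 77), (3, 100), (5, 20), (7, -66)])) (.mul (.g 7) (.add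
 (.add (.pp [(1, 4025550000)]) (.mul (.g 5) (.pp [(1, 3321690000)]))) (.add (.mul (.g 6) (.pp [(1,
 1061508000)])) (.mul (.g 7) (.pp [(1, 37881750000)])))))) (.add (.mul (.g 8) (.add (.pp [(1,
 5363700000)]) (.add (.mul (.g 5) (.pp [(1, 2892540000)])) (.mul (.g 6) (.pp [(1, 123192000)])))))
 (.add (.mul (.g 9) (.add (.pp [(1, 38505150000)]) (.mul (.g 9) (.pp [(1, 14076900000)])))) (.mul
 (.g 18) (.add (.mul (.g 13) (.pp [(1, 286950000)])) (.mul (.g 18) (.pp [(1, 6555000000)]))))))))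
 (.add (.mul (.g 4) (.add (.add (.mul (.g 8) (.add (.mul (.g 8) (.pp [(1, 202089000)])) (.mul (.g
 9) (.pp [(1, 218091000)])))) (.mul (.g 4) (.pp [(1, 12349380)]))) (.add (.mul (.g 9) (.mul (.g 9)
 (.pp [(1, 59493000)]))) (.add (.mul (.g 10) (.mul (.g 14) (.pp [(1, 3021900)]))) (.mul (.g 18)
 (.mul (.g 18) (.pp [(1, 24702000)]))))))) (.mul (.g 18) (.add (.add (.mul (.pp [(1, 36660)]) (.sq
 [(1, -15), (2, -49), (3, 100), (5, -2), (7, -77)])) (.mul (.g 8) (.add (.mul (.g 8) (.pp [(1,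
 4289700000)])) (.mul (.g 18) (.pp [(1, 3633750000)]))))) (.add (.mul (.g 10) (.mul (.g 10) (.pp
 [(1, 247050000)]))) (.mul (.g 18) (.mul (.g 18) (.pp [(1, 1512300000)])))))))) (.add (.mul (.g 14)
 (.add (.mul (.g 6) (.add (.mul (.g 6) (.pp [(1, 110892)])) (.mul (.g 9) (.pp [(1, 1587600)]))))
 (.mul (.g 9) (.mul (.g 15) (.pp [(1, 591997500)]))))) (.add (.mul (.g 8) (.mul (.pp [(1, 114990)])
 (.sq [(1, 5), (2, 5), (3, 100), (5, -5), (7, -48)]))) (.mul (.g 13) (.mul (.pp [(1, 840)]) (.sq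
 [(1, -23), (2, -10), (3, -10), (5, -16), (7, 100)]))))))))) (.add (.add (.mul (.g 10) (.add (.add
 (.mul (.g 7) (.add (.mul (.g 18) (.add (.add (.pp [(1, 480573750000)]) (.mul (.g 8) (.pp [(1,
 809651250000)]))) (.add (.mul (.g 11) (.pp [(1, 1035453750000)])) (.mul (.g 18) (.pp [(1,
 617193750000)]))))) (.add (.mul (.g 14) (.add (.mul (.g 8) (.pp [(1, 44894062500)])) (.add (.mul
 (.g 10) (.pp [(1, 214687500)])) (.mul (.g 16) (.pp [(1, 16661062500)]))))) (.mul (.g 3) (.mul (.g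
 5) (.pp [(1, 161360250000)])))))) (.mul (.g 4) (.add (.mul (.g 4) (.add (.add (.pp [(1,
 83691000)]) (.mul (.g 8) (.pp [(1, 49707000)]))) (.add (.mul (.g 9) (.pp [(1, 3772500)])) (.mul
 (.g 18) (.pp [(1, 1512000)]))))) (.add (.mul (.g 10) (.mul (.g 18) (.pp [(1, 1772700000)]))) (.mul
 (.g 14) (.pp [(1, 143276250)])))))) (.add (.mul (.g 10) (.add (.mul (.g 10) (.add (.mul (.g 14)
 (.pp [(1, 5682937500)])) (.mul (.g 18) (.pp [(1, 115136250000)])))) (.mul (.g 9) (.mul (.g 14)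
 (.pp [(1, 280500000)]))))) (.mul (.g 18) (.mul (.pp [(1, 9640125)]) (.sq [(1, 1), (2, -59), (3,
 -80), (5, 13), (7, 100)])))))) (.mul (.g 7) (.add (.mul (.g 7) (.add (.mul (.g 7) (.add (.mul (.g
 7) (.pp [(1, 498393750000)])) (.add (.mul (.g 14) (.pp [(1, 35244000000)])) (.mul (.g 18) (.pp
 [(1, 493162500000)]))))) (.mul (.g 4) (.add (.mul (.g 5) (.pp [(1, 358995000)])) (.mul (.g 18)
 (.pp [(1, 22098825000)])))))) (.add (.mul (.g 4) (.mul (.g 4) (.mul (.g 14) (.pp [(1,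
 2239275)])))) (.mul (.g 11) (.mul (.pp [(1, 17607000)]) (.sq [(1, 7), (2, 100), (3, -59), (5, 33),
 (7, -17)]))))))) (.add (.mul (.g 11) (.add (.add (.mul (.pp [(1, 53588250)]) (.sq [(1, -11), (2,
 -75), (3, -9), (5, 100), (7, 4)])) (.mul (.g 18) (.add (.mul (.pp [(1, 88120500)]) (.sq [(1, -7),
 (2, 50), (3, -16), (5, 37), (7, 10)])) (.mul (.pp [(1, 34892250)]) (.sq [(1, -11), (2, 100), (3,
 -41), (5, 30), (7, 42)]))))) (.add (.mul (.g 11) (.mul (.pp [(1, 11535750)]) (.sq [(1, -43), (2,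
 93), (3, 38), (5, -35), (7, 100)]))) (.mul (.g 13) (.mul (.pp [(1, 25874250)]) (.sq [(1, -7), (2,
 100), (3, -3), (5, -59), (7, 43)])))))) (.mul (.g 4) (.mul (.g 4) (.add (.mul (.g 5) (.add (.mul
 (.g 5) (.pp [(1, 1514100)])) (.mul (.g 8) (.pp [(1, 6108000)])))) (.mul (.g 3) (.mul (.g 9) (.pp
 [(1, 101929500)]))))))))) (.add (.add (.add (.mul (.g 8) (.add (.mul (.pp [(1, 108188250)]) (.sq
 [(1, 7), (2, 100), (3, -17), (5, -48), (7, 17)])) (.mul (.pp [(1, 81817500)]) (.sq [(1, -16), (2,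
 -53), (3, -7), (5, 100), (7, 6)])))) (.mul (.g 13) (.add (.mul (.pp [(1, 1554750)]) (.sq [(1, 7),
 (2, 100), (3, -35), (5, -42), (7, 11)])) (.mul (.g 16) (.mul (.pp [(1, 9466875)]) (.sq [(1, -19),
 (2, -73), (3, 5), (5, 100), (7, 5)])))))) (.add (.mul (.g 18) (.add (.mul (.pp [(1, 4201125)])
 (.sq [(1, -15), (2, 88), (3, -35), (5, 100), (7, 15)])) (.mul (.g 3) (.mul (.pp [(1, 413334375)])
 (.sq [(2, 20), (5, -9), (7, 16)]))))) (.mul (.g 0) (.pp [(1, 750000000)])))) (.add (.add (.mul (.g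
 1) (.pp [(1, 1250000000000)])) (.mul (.g 2) (.pp [(1, 1250000000000)]))) (.add (.mul (.g 16) (.mul
 (.pp [(1, 13401000)]) (.sq [(1, -38), (2, 8), (3, 19), (5, 100), (7, 34)]))) (.mul (.g 17) (.pp
 [(1, 1250000000000)])))))) (.pp [(1, 661151424), (2, 40054800), (3, 45047310), (4, 27435465), (5,
 37036485), (6, 33680400), (7, 42312150), (8, 44182065), (9, 21816450), (10, 40433385), (12,
 43765845), (14, 28153950), (15, 35465445), (16, 41048250), (18, 41795625), (19, 3750000000000),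
 (20, 47522275), (21, 21956475), (24, 28273500), (25, 35502165), (27, 52397250), (28, 47735805),
 (30, 32273370), (35, 40220940), (36, 40128000), (40, 33605625), (42, 41248770), (45, 40610775),
 (49, 30895695), (50, 31140955), (54, 36198000), (56, 32700000), (60, 33793125), (63, 57271875),
 (70, 41843970), (75, 46371975), (81, 32100000), (84, 35335125), (90, 39422625), (98, 43183905),
 (100, 36166875), (105, 34393110), (125, 37826070), (126, 35783250), (135, 36091875), (140,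
 30284250), (147, 52436310), (150, 37900125), (175, 38699505), (189, 28800000), (196, 37309875),
 (210, 40122750), (225, 33930000), (245, 36156135), (250, 43139250), (294, 35912250), (315,
 39081750), (343, 39316005), (350, 37537875), (375, 33501000), (441, 26995500), (490, 35774625),
 (525, 38618250), (625, 37500000), (686, 35946000), (735, 39454875), (875, 35625000), (1029,
 32671500), (1225, 35853000), (1715, 40575000), (2401, 37500000)])))))))
 (.cut 450 [(2, -1), (3, 1)] (.add (.mul (.g 10) (.pp [(1, 7)])) (.add (.mul (.g 9) (.pp [(1,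
 310)])) (.mul (.g 0) (.pp [(1, 9)])))) (.rule 1 (.rule 6 (.leaf 300000000 (.add (.add (.add (.add
 (.mul (.g 6) (.add (.add (.mul (.g 6) (.add (.add (.mul (.g 8) (.add (.add (.mul (.g 3) (.pp [(1,
 16118700000)])) (.mul (.g 5) (.pp [(1, 69677400000)]))) (.add (.mul (.g 6) (.pp [(1,
 10761000000)])) (.mul (.g 17) (.pp [(1, 231915000000)]))))) (.add (.mul (.g 7) (.add (.mul (.g 7)
 (.pp [(1, 541734000000)])) (.add (.mul (.g 10) (.pp [(1, 124422000000)])) (.mul (.g 17) (.pp [(1,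
 541074000000)]))))) (.mul (.g 6) (.add (.pp [(1, 439635000000)]) (.mul (.g 10) (.pp [(1,
 33567000000)])))))) (.add (.mul (.g 17) (.add (.pp [(1, 519318000000)]) (.mul (.g 10) (.pp [(1,
 634146000000)])))) (.add (.mul (.g 3) (.mul (.g 4) (.pp [(1, 3215376000)]))) (.mul (.g 9) (.mul
 (.g 9) (.pp [(1, 443316000000)]))))))) (.add (.mul (.g 9) (.add (.add (.mul (.g 17) (.add (.add
 (.pp [(1, 168645000000)]) (.mul (.g 7) (.pp [(1, 1464867000000)]))) (.add (.mul (.g 8) (.pp [(1,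
 160974000000)])) (.add (.mul (.g 10) (.pp [(1, 986613000000)])) (.mul (.g 17) (.pp [(1,
 766383000000)])))))) (.mul (.g 3) (.add (.mul (.g 4) (.pp [(1, 975036000)])) (.add (.mul (.g 8)
 (.pp [(1, 1781100000)])) (.mul (.g 14) (.pp [(1, 7328040000)])))))) (.add (.mul (.g 7) (.add (.mul
 (.g 7) (.pp [(1, 830358000000)])) (.mul (.g 10) (.pp [(1, 242292000000)])))) (.mul (.g 13) (.add
 (.mul (.g 9) (.pp [(1, 2334600000)])) (.mul (.g 15) (.pp [(1, 2133600000)]))))))) (.mul (.g 3)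
 (.add (.pp [(1, 2877780000)]) (.add (.mul (.g 7) (.add (.mul (.g 7) (.pp [(1, 590880000)])) (.mul
 (.g 10) (.pp [(1, 37983240000)])))) (.mul (.g 12) (.add (.pp [(1, 19196820000)]) (.mul (.g 8) (.pp
 [(1, 600000)]))))))))) (.add (.mul (.g 5) (.add (.pp [(1, 5736720000)]) (.mul (.g 12) (.mul (.g
 17) (.pp [(1, 115200000)]))))) (.add (.mul (.g 8) (.mul (.g 8) (.mul (.g 17) (.pp [(1,
 13863000000)])))) (.mul (.g 11) (.mul (.g 13) (.pp [(1, 207600000)]))))))) (.mul (.g 3) (.add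
 (.add (.pp [(1, 7860000)]) (.mul (.g 8) (.add (.add (.pp [(1, 230580000)]) (.mul (.g 7) (.add
 (.mul (.g 3) (.pp [(1, 63600)])) (.mul (.g 12) (.pp [(1, 19620000)]))))) (.add (.mul (.g 8) (.add
 (.mul (.g 4) (.pp [(1, 6768000)])) (.mul (.g 8) (.pp [(1, 34440000)])))) (.mul (.g 9) (.add (.mul
 (.g 12) (.pp [(1, 285420000)])) (.mul (.g 17) (.pp [(1, 1297320000)])))))))) (.add (.mul (.g 9)
 (.add (.mul (.g 3) (.add (.mul (.g 4) (.pp [(1, 2324400)])) (.mul (.g 5) (.pp [(1, 1923168)]))))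
 (.add (.mul (.g 5) (.pp [(1, 81391200)])) (.mul (.g 9) (.mul (.g 9) (.pp [(1, 3123060000)]))))))
 (.add (.mul (.g 17) (.add (.pp [(1, 106260000)]) (.mul (.g 3) (.pp [(1, 1531200)])))) (.mul (.g 7)
 (.pp [(1, 91800000)]))))))) (.add (.mul (.g 9) (.add (.mul (.g 13) (.add (.mul (.pp [(1, 384675)])
 (.sq [(1, 42), (2, 95), (3, -6), (5, -34), (7, 100)])) (.add (.mul (.g 8) (.add (.mul (.g 12) (.pp
 [(1, 1517400000)])) (.mul (.g 13) (.pp [(1, 8152500)])))) (.mul (.g 9) (.add (.mul (.g 5) (.pp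
 [(1, 46530000)])) (.mul (.g 12) (.pp [(1, 162900000)]))))))) (.add (.mul (.g 7) (.add (.mul (.pp
 [(1, 1853100)]) (.sq [(1, -17), (3, 100), (5, -53), (7, -84)])) (.mul (.g 7) (.mul (.g 17) (.pp
 [(1, 17262000000)]))))) (.mul (.g 9) (.mul (.g 9) (.mul (.g 17) (.pp [(1, 169230000000)])))))))
 (.add (.mul (.g 5) (.add (.add (.mul (.pp [(1, 110484)]) (.sq [(1, -11), (2, -31), (3, -47), (5,
 20), (7, 100)])) (.mul (.g 7) (.add (.mul (.g 17) (.add (.mul (.g 4) (.pp [(1, 1272000)])) (.mul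
 (.g 10) (.pp [(1, 451080000)])))) (.mul (.g 7) (.mul (.g 13) (.pp [(1, 78000)])))))) (.add (.mul
 (.g 13) (.pp [(1, 59154000)])) (.mul (.g 17) (.pp [(1, 5040000)]))))) (.mul (.g 10) (.add (.add
 (.mul (.pp [(1, 24088500)]) (.sq [(1, -14), (2, 100), (3, -16), (5, 7), (7, 54)])) (.mul (.g 10)
 (.add (.mul (.pp [(1, 1657800)]) (.sq [(1, -43), (2, 93), (3, 38), (5, -35), (7, 100)])) (.mul (.g
 17) (.mul (.g 17) (.pp [(1, 15732000000)])))))) (.add (.mul (.g 7) (.mul (.pp [(1, 51659400)])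
 (.sq [(1, -28), (2, 100), (3, 9), (5, -3), (7, 55)]))) (.mul (.g 17) (.mul (.pp [(1, 3392700)])
 (.sq [(1, -75), (2, 100), (3, 58), (5, 30), (7, 85)]))))))))) (.add (.add (.mul (.g 0) (.pp [(1,
 1000000000000)])) (.mul (.g 1) (.pp [(1, 1000000000000)]))) (.add (.mul (.g 11) (.mul (.g 17)
 (.mul (.pp [(1, 7918800)]) (.sq [(1, -26), (2, -70), (3, -1), (5, -10), (7, 100)])))) (.add (.mul
 (.g 12) (.mul (.pp [(1, 12309000)]) (.sq [(1, -13), (2, 100), (3, -11), (5, -12), (7, 48)])))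
 (.mul (.g 16) (.pp [(1, 1000000000000)])))))) (.pp [(1, 408083112), (2, 31001004), (3, 28532448),
 (4, 30661692), (5, 31470120), (6, 27571908), (7, 29115456), (8, 31588800), (9, 32010948), (10,
 29244720), (12, 32229300), (14, 27824400), (15, 31017840), (16, 28687800), (18, 30016800), (19,
 3000000000000), (20, 31826000), (21, 29234100), (23, 3000000000000), (24, 27789600), (25,
 28497300), (27, 28311300), (28, 26548875), (30, 29797200), (35, 30485700), (36, 32248800), (40,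
 31278000), (42, 40691100), (45, 28627800), (49, 31231500), (50, 29712500), (54, 28655400), (56,
 27877500), (60, 30108000), (63, 31502700), (70, 36151500), (75, 30803400), (81, 31081200), (84,
 30784500), (90, 31220400), (98, 32449500), (100, 30195000), (105, 26902800), (125, 30384000),
 (126, 27024000), (135, 31705200), (140, 32752500), (147, 29964900), (150, 29064600), (175,
 29216700), (189, 29875200), (196, 32400000), (210, 23604000), (225, 30744000), (245, 30624000),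
 (250, 30000000), (294, 24145500), (315, 32011200), (343, 29587500), (350, 23826000), (375,
 30120000), (441, 29040000), (490, 28530000), (525, 34352100), (625, 30000000), (686, 27742500),
 (735, 30357600), (875, 31434000), (1029, 31526400), (1225, 29400000), (1715, 30000000), (2401,
 30000000)])))))))))
 (P_Tp0 ++ xP_G_T6) = true := by decide +kernel

theorem t_G_T6_TpB_b : chk Rbp gP_G_T6
 (.split [(1, -17), (3, 25)]
 (.cut 1 [(2, 1), (3, -1)] (.add (.mul (.g 9) (.pp [(1, 1)])) (.mul (.g 6) (.pp [(1, 1)]))) (.rule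
 0 (.cut 1 [(2, -1), (5, 1)] (.add (.mul (.g 11) (.pp [(1, 1)])) (.mul (.g 7) (.pp [(1, 1)])))
 (.rule 3 (.cut 1 [(1, 1), (3, -1)] (.add (.mul (.g 3) (.pp [(1, 1)])) (.mul (.g 9) (.pp [(1,
 1)]))) (.rule 7 (.cut 4 [(1, -3), (5, 5)] (.add (.add (.mul (.g 5) (.pp [(1, 20)])) (.mul (.g 6)
 (.pp [(1, 1)]))) (.add (.mul (.g 1) (.pp [(1, 5)])) (.mul (.g 3) (.pp [(1, 20)])))) (.cut 8 [(1,
 3), (5, -2)] (.add (.add (.mul (.g 13) (.pp [(1, 16)])) (.mul (.g 7) (.pp [(1, 1)]))) (.add (.mul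
 (.g 12) (.pp [(1, 16)])) (.mul (.g 2) (.pp [(1, 9)])))) (.rule 12 (.rule 25 (.leaf 825000000 (.add
 (.add (.add (.add (.mul (.g 14) (.add (.add (.mul (.g 15) (.add (.add (.mul (.g 12) (.add (.mul
 (.g 12) (.pp [(1, 757985250000)])) (.add (.mul (.g 13) (.pp [(1, 395653500000)])) (.mul (.g 19)
 (.pp [(1, 1750097250000)]))))) (.mul (.g 11) (.add (.pp [(1, 884573250000)]) (.mul (.g 17) (.pp
 [(1, 1588644750000)]))))) (.add (.mul (.g 21) (.add (.mul (.g 13) (.pp [(1, 594759000000)])) (.mul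
 (.g 19) (.pp [(1, 969135750000)])))) (.add (.mul (.g 14) (.mul (.g 17) (.pp [(1,
 2094757500000)]))) (.mul (.g 16) (.pp [(1, 2342307000000)])))))) (.mul (.g 14) (.add (.mul (.g 14)
 (.add (.mul (.g 12) (.pp [(1, 1689047250000)])) (.add (.mul (.g 13) (.pp [(1, 99008250000)]))
 (.mul (.g 16) (.pp [(1, 387626250000)]))))) (.add (.mul (.g 10) (.add (.mul (.g 10) (.pp [(1,
 864177600)])) (.mul (.g 12) (.pp [(1, 10751730000)])))) (.mul (.g 19) (.add (.mul (.g 11) (.pp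
 [(1, 22332750000)])) (.mul (.g 18) (.pp [(1, 2952262500)])))))))) (.add (.mul (.g 10) (.add (.pp
 [(1, 5834070000)]) (.add (.mul (.g 13) (.add (.mul (.g 11) (.pp [(1, 2635710000)])) (.mul (.g 12)
 (.pp [(1, 25184940000)])))) (.mul (.g 10) (.mul (.g 16) (.pp [(1, 54067200)])))))) (.add (.mul (.g
 21) (.add (.pp [(1, 4927956000000)]) (.add (.mul (.pp [(1, 46538250)]) (.sq [(1, 2), (2, -6), (3,
 -7), (5, -31), (7, 100)])) (.mul (.g 12) (.mul (.g 12) (.pp [(1, 1218302250000)])))))) (.mul (.g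
 19) (.add (.mul (.g 11) (.mul (.g 11) (.pp [(1, 84735750000)]))) (.mul (.g 13) (.mul (.g 13) (.pp
 [(1, 11442750000)]))))))))) (.add (.mul (.g 15) (.add (.add (.mul (.g 11) (.add (.mul (.g 19)
 (.add (.add (.mul (.g 11) (.pp [(1, 2215116750000)])) (.mul (.g 12) (.pp [(1, 1820255250000)])))
 (.add (.mul (.g 15) (.pp [(1, 1200911250000)])) (.mul (.g 21) (.pp [(1, 2384250000)]))))) (.add
 (.mul (.g 13) (.add (.mul (.g 15) (.pp [(1, 1134135750000)])) (.mul (.g 21) (.pp [(1,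
 1175303250000)])))) (.mul (.g 15) (.mul (.g 18) (.pp [(1, 3408900000)])))))) (.mul (.g 13) (.add
 (.mul (.g 13) (.add (.mul (.g 12) (.pp [(1, 937208250000)])) (.mul (.g 13) (.pp [(1,
 1199451000000)])))) (.mul (.g 17) (.add (.mul (.g 17) (.pp [(1, 125466000000)])) (.mul (.g 19)
 (.pp [(1, 1101589500000)]))))))) (.add (.mul (.g 21) (.add (.mul (.pp [(1, 235950)]) (.sq [(1,
 -15), (2, 88), (3, -13), (5, 100), (7, 53)])) (.mul (.pp [(1, 130147875)]) (.sq [(1, -62), (2,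
 68), (3, 23), (5, 23), (7, 100)])))) (.add (.mul (.g 15) (.mul (.pp [(1, 7792950)]) (.sq [(1, 80),
 (2, -35), (3, 88), (5, 31), (7, -100)]))) (.mul (.g 19) (.mul (.pp [(1, 6741900)]) (.sq [(1, -27),
 (2, 100), (3, 76), (5, 82), (7, 40)]))))))) (.mul (.g 12) (.add (.add (.mul (.g 21) (.add (.mul
 (.g 12) (.add (.mul (.g 17) (.pp [(1, 32620500000)])) (.add (.mul (.g 19) (.pp [(1,
 625110750000)])) (.mul (.g 21) (.pp [(1, 292363500000)]))))) (.add (.mul (.g 13) (.add (.mul (.g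
 10) (.pp [(1, 5079360000)])) (.mul (.g 21) (.pp [(1, 294912750000)])))) (.mul (.g 11) (.mul (.g
 11) (.pp [(1, 470736750000)])))))) (.mul (.g 10) (.add (.mul (.g 11) (.mul (.g 11) (.pp [(1,
 582450000)]))) (.mul (.g 16) (.mul (.g 17) (.pp [(1, 266310000)])))))) (.add (.mul (.g 19) (.add
 (.mul (.g 12) (.mul (.g 19) (.pp [(1, 1697866500000)]))) (.mul (.g 13) (.mul (.g 13) (.pp [(1,
 2283096750000)]))))) (.mul (.g 16) (.pp [(1, 1299960750000)]))))))) (.add (.mul (.g 16) (.add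
 (.add (.mul (.g 11) (.add (.pp [(1, 3310617750000)]) (.add (.mul (.pp [(1, 4198425)]) (.sq [(1,
 100), (2, 37), (3, 83), (5, 83), (7, 69)])) (.mul (.g 17) (.pp [(1, 449245500000)]))))) (.add
 (.mul (.g 17) (.add (.mul (.g 16) (.pp [(1, 2309298750000)])) (.mul (.g 19) (.mul (.g 19) (.pp
 [(1, 1247284500000)]))))) (.mul (.g 10) (.pp [(1, 58016970000)])))) (.add (.mul (.g 13) (.mul (.pp
 [(1, 1440450)]) (.sq [(1, -16), (2, -33), (3, -80), (5, 40), (7, 100)]))) (.add (.mul (.g 19) (.pp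
 [(1, 2624473500000)])) (.mul (.g 21) (.pp [(1, 823341750000)])))))) (.add (.mul (.g 10) (.add
 (.mul (.g 13) (.add (.mul (.pp [(1, 568029)]) (.sq [(1, 11), (2, -42), (3, -53), (5, 100), (7,
 89)])) (.mul (.pp [(1, 322674)]) (.sq [(1, -62), (2, -19), (3, 100), (5, -88), (7, 48)])))) (.add
 (.mul (.g 10) (.pp [(1, 4356937200)])) (.mul (.g 21) (.mul (.pp [(1, 3605085)]) (.sq [(2, -9), (3,
 -53), (5, 41), (7, 100)])))))) (.mul (.g 19) (.add (.mul (.g 13) (.add (.mul (.g 13) (.mul (.g 13)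
 (.pp [(1, 1249503750000)]))) (.mul (.g 19) (.pp [(1, 1111332750000)])))) (.add (.mul (.g 19) (.pp
 [(1, 879408750000)])) (.mul (.g 21) (.pp [(1, 396165000000)])))))))) (.add (.add (.mul (.g 21)
 (.add (.mul (.g 11) (.mul (.g 11) (.mul (.g 11) (.pp [(1, 643920750000)])))) (.mul (.g 21) (.pp
 [(1, 2044927500000)])))) (.add (.mul (.g 0) (.pp [(1, 250000000000)])) (.mul (.g 1) (.pp [(1,
 825000000)])))) (.add (.add (.mul (.g 4) (.pp [(1, 6600000000)])) (.mul (.g 6) (.pp [(1,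
 2750000000000)]))) (.add (.mul (.g 8) (.pp [(1, 2750000000000)])) (.mul (.g 20) (.pp [(1,
 2750000000000)])))))) (.pp [(1, 74242584050), (2, 92575150), (3, 77625650), (4, 86372495), (5,
 72120205), (6, 64346480), (7, 72142950), (8, 96329475), (9, 88433180), (10, 49319006), (12,
 71344680), (14, 91622850), (15, 100686817), (16, 83992425), (18, 93414420), (20, 88720390), (21,
 104504400), (24, 77268675), (25, 96315516), (27, 79363295), (28, 81100305), (30, 113575396), (35,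
 82693578), (36, 86019450), (40, 79718925), (42, 70165920), (45, 71058757), (49, 92560050), (50,
 96611702), (54, 80125650), (56, 82221150), (60, 67437150), (63, 69590070), (70, 92244900), (75,
 64160305), (81, 81844125), (84, 86751225), (90, 82862175), (98, 70977225), (100, 76349625), (105,
 79710708), (125, 75535152), (126, 79987875), (135, 86058225), (140, 73085100), (147, 81135450),
 (150, 85126800), (175, 89225796), (189, 87693375), (196, 87633975), (210, 84440400), (225,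
 83692125), (245, 87751785), (250, 85477425), (294, 84069975), (315, 86469900), (343, 83633550),
 (350, 77328075), (375, 81153600), (441, 85049250), (490, 77425425), (525, 79199175), (625,
 85470000), (686, 86316450), (735, 79410375), (875, 80850000), (1029, 79200000), (1225, 82508250),
 (1715, 80850000), (2401, 82500000)])))))))))))))
 (.split [(1, -3), (5, 2)]
 (.cut 59 [(2, 1), (3, -1)] (.add (.add (.mul (.g 2) (.pp [(1, 25)])) (.mul (.g 7) (.pp [(1,
 34)]))) (.add (.mul (.g 0) (.pp [(1, 17)])) (.mul (.g 1) (.pp [(1, 1)])))) (.rule 0 (.cut 34 [(2,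
 -1), (5, 1)] (.add (.add (.mul (.g 8) (.pp [(1, 34)])) (.mul (.g 5) (.pp [(1, 25)]))) (.add (.mul
 (.g 2) (.pp [(1, 17)])) (.mul (.g 3) (.pp [(1, 1)])))) (.rule 3 (.rule 13 (.cut 1 [(1, -2), (2,
 -1), (3, 1), (5, 2)] (.add (.mul (.g 11) (.pp [(1, 1)])) (.add (.mul (.g 8) (.pp [(1, 1)])) (.mul
 (.g 5) (.pp [(1, 1)])))) (.cut 1 [(1, -1), (2, -2), (3, 2), (5, 2)] (.add (.mul (.g 9) (.pp [(1,
 1)])) (.add (.mul (.g 12) (.pp [(1, 1)])) (.mul (.g 0) (.pp [(1, 1)])))) (.rule 18 (.leaf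
 225000000 (.add (.add (.add (.add (.mul (.g 10) (.add (.add (.mul (.g 11) (.add (.add (.mul (.g
 10) (.add (.add (.pp [(1, 92189250000)]) (.mul (.g 11) (.pp [(1, 976932000000)]))) (.add (.mul (.g
 14) (.pp [(1, 391045500000)])) (.mul (.g 20) (.pp [(1, 1838594250000)]))))) (.mul (.g 12) (.add
 (.mul (.g 8) (.pp [(1, 132723750000)])) (.add (.mul (.g 13) (.pp [(1, 219210750000)])) (.mul (.g
 20) (.pp [(1, 103790250000)])))))) (.add (.mul (.g 13) (.add (.pp [(1, 1349880750000)]) (.mul (.g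
 20) (.pp [(1, 1309815000000)])))) (.mul (.g 8) (.mul (.g 16) (.pp [(1, 51965250000)])))))) (.add
 (.mul (.g 13) (.add (.add (.pp [(1, 149883750000)]) (.mul (.g 20) (.add (.mul (.g 13) (.pp [(1,
 1002170250000)])) (.add (.mul (.g 17) (.pp [(1, 10964250000)])) (.mul (.g 20) (.pp [(1,
 1477176750000)])))))) (.add (.mul (.g 8) (.add (.mul (.g 12) (.pp [(1, 30705750000)])) (.mul (.g
 13) (.pp [(1, 109632750000)])))) (.mul (.g 16) (.mul (.g 17) (.pp [(1, 2596950000)])))))) (.mul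
 (.g 14) (.add (.mul (.g 10) (.add (.mul (.g 8) (.pp [(1, 45000000)])) (.add (.mul (.g 10) (.pp
 [(1, 14422500000)])) (.mul (.g 20) (.pp [(1, 391045500000)]))))) (.mul (.g 12) (.add (.mul (.g 15)
 (.pp [(1, 57856500000)])) (.add (.mul (.g 16) (.pp [(1, 57924000000)])) (.mul (.g 20) (.pp [(1,
 103855500000)]))))))))) (.add (.mul (.g 15) (.add (.pp [(1, 763283250000)]) (.add (.mul (.g 8)
 (.mul (.g 12) (.pp [(1, 127923000000)]))) (.mul (.g 10) (.pp [(1, 193448250000)]))))) (.add (.mul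
 (.g 20) (.add (.mul (.g 10) (.mul (.g 20) (.pp [(1, 861567750000)]))) (.mul (.g 12) (.mul (.g 12)
 (.pp [(1, 113377500000)]))))) (.mul (.g 17) (.mul (.g 17) (.pp [(1, 35685000)]))))))) (.add (.mul
 (.g 11) (.add (.add (.mul (.g 13) (.add (.add (.pp [(1, 83821500000)]) (.mul (.g 12) (.add (.mul
 (.g 11) (.pp [(1, 45000000)])) (.add (.mul (.g 18) (.pp [(1, 65250000)])) (.mul (.g 20) (.pp [(1,
 27000000)])))))) (.add (.mul (.g 13) (.add (.mul (.g 9) (.pp [(1, 5078880000)])) (.add (.mul (.g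
 14) (.pp [(1, 424102500000)])) (.mul (.g 17) (.pp [(1, 2587500)]))))) (.mul (.g 9) (.mul (.g 11)
 (.pp [(1, 450000)])))))) (.mul (.g 11) (.add (.mul (.g 11) (.add (.pp [(1, 494136000000)]) (.add
 (.mul (.g 11) (.pp [(1, 6750000)])) (.mul (.g 15) (.pp [(1, 36000000)]))))) (.mul (.g 8) (.mul (.g
 9) (.pp [(1, 150000)])))))) (.add (.mul (.g 12) (.add (.mul (.g 8) (.mul (.g 20) (.pp [(1,
 23250000)]))) (.add (.mul (.g 12) (.mul (.g 14) (.pp [(1, 255881250000)]))) (.mul (.g 15) (.pp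
 [(1, 767409750000)]))))) (.add (.mul (.g 14) (.add (.pp [(1, 448060500000)]) (.mul (.g 16) (.pp
 [(1, 1341011250000)])))) (.mul (.g 8) (.pp [(1, 269558250000)])))))) (.mul (.g 13) (.add (.mul (.g
 13) (.add (.mul (.g 20) (.add (.mul (.g 9) (.pp [(1, 5076900000)])) (.add (.mul (.g 13) (.pp [(1,
 126922500000)])) (.mul (.g 14) (.pp [(1, 1050750000)]))))) (.add (.mul (.g 9) (.pp [(1,
 11845440000)])) (.mul (.g 14) (.mul (.g 15) (.pp [(1, 13500000)])))))) (.add (.mul (.g 15) (.add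
 (.pp [(1, 72000000)]) (.mul (.pp [(1, 1125)]) (.sq [(1, 31), (2, 64), (3, 6), (5, 6), (7,
 100)])))) (.mul (.g 20) (.pp [(1, 83799000000)]))))))) (.add (.mul (.g 12) (.add (.add (.mul (.g
 12) (.add (.mul (.g 9) (.mul (.g 20) (.pp [(1, 450000)]))) (.mul (.g 14) (.mul (.g 15) (.pp [(1,
 255793500000)]))))) (.mul (.g 8) (.pp [(1, 389592000000)]))) (.add (.mul (.g 14) (.pp [(1,
 1305783000000)])) (.mul (.g 15) (.mul (.pp [(1, 5400)]) (.sq [(1, 100), (2, -10), (3, 64), (5,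
 64), (7, 23)])))))) (.add (.mul (.g 16) (.add (.add (.mul (.g 8) (.pp [(1, 1142254500000)])) (.mul
 (.g 14) (.pp [(1, 343653750000)]))) (.add (.mul (.g 15) (.mul (.g 16) (.pp [(1, 494156250000)])))
 (.mul (.g 20) (.mul (.pp [(1, 1350)]) (.sq [(1, 65), (2, 100), (3, 54), (5, 78), (7, 90)]))))))
 (.mul (.g 15) (.add (.mul (.g 9) (.mul (.pp [(1, 207)]) (.sq [(1, -55), (2, -81), (3, 44), (5,
 100), (7, 13)]))) (.mul (.g 15) (.pp [(1, 414749250000)]))))))) (.add (.add (.mul (.g 0) (.pp [(1,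
 750000000000)])) (.add (.mul (.g 3) (.pp [(1, 22500000000)])) (.mul (.g 4) (.pp [(1,
 750000000000)])))) (.add (.add (.mul (.g 6) (.pp [(1, 750000000000)])) (.mul (.g 8) (.mul (.g 8)
 (.pp [(1, 67869500000)])))) (.add (.mul (.g 14) (.mul (.g 20) (.pp [(1, 226764000000)]))) (.mul
 (.g 19) (.pp [(1, 750000000000)])))))) (.pp [(1, 225525605025), (2, 20719485), (3, 24127560), (4,
 22507551), (5, 24900225), (6, 23806557), (7, 21951045), (8, 24911841), (9, 22580631), (10,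
 23610090), (12, 21764016), (14, 23739309), (15, 20380215), (16, 22500000), (18, 21739734), (19,
 2250000000000), (20, 21415959), (21, 23613219), (24, 20453175), (25, 19642000), (27, 20418984),
 (28, 23539014), (30, 18407718), (35, 23549805), (36, 22579425), (40, 21960000), (42, 21595950),
 (45, 23800584), (49, 22400289), (50, 19197600), (54, 21549600), (56, 22392000), (60, 24603825),
 (63, 22224186), (70, 23080086), (75, 26088600), (81, 23167800), (84, 19215450), (90, 21249600),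
 (98, 27170289), (100, 22452000), (105, 19113786), (125, 23728200), (126, 23713650), (135,
 25368600), (140, 21168000), (147, 21831786), (150, 23620800), (175, 20854800), (189, 22428900),
 (196, 22050000), (210, 23732550), (225, 23901000), (245, 21723111), (250, 23469600), (294,
 20917575), (315, 26028900), (343, 24300000), (350, 22288500), (375, 22818600), (441, 22282425),
 (490, 21539400), (525, 27001500), (625, 22118400), (686, 20565000), (735, 22943025), (875,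
 24151500), (1029, 22185000), (1225, 23160600), (1715, 22185000), (2401, 22500000)])))))))))))
 (.cut 1 [(2, 1), (3, -1)] (.add (.mul (.g 7) (.pp [(1, 1)])) (.mul (.g 10) (.pp [(1, 1)]))) (.rule
 0 (.cut 1 [(2, -1), (5, 1)] (.add (.mul (.g 12) (.pp [(1, 1)])) (.mul (.g 8) (.pp [(1, 1)])))
 (.rule 3 (.cut 11 [(1, -3), (5, 5)] (.add (.mul (.g 13) (.pp [(1, 2)])) (.add (.mul (.g 3) (.pp
 [(1, 40)])) (.mul (.g 14) (.pp [(1, 15)])))) (.rule 12 (.rule 25 (.leaf 29700000000 (.add (.add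
 (.add (.add (.mul (.g 19) (.add (.add (.add (.mul (.g 12) (.add (.add (.mul (.g 12) (.add (.mul
 (.g 8) (.pp [(1, 6001645320000)])) (.add (.mul (.g 15) (.pp [(1, 10062063000000)])) (.mul (.g 16)
 (.pp [(1, 3098927700000)]))))) (.mul (.g 19) (.add (.mul (.g 11) (.pp [(1, 99311454000000)]))
 (.add (.mul (.g 14) (.pp [(1, 6253038000000)])) (.mul (.g 19) (.pp [(1, 46773342000000)]))))))
 (.add (.mul (.g 10) (.add (.pp [(1, 119280249000000)]) (.mul (.g 11) (.pp [(1,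
 20547351000000)])))) (.add (.mul (.g 9) (.mul (.g 15) (.pp [(1, 41893929000000)]))) (.mul (.g 14)
 (.pp [(1, 77132385000000)])))))) (.mul (.g 19) (.add (.pp [(1, 52865703000000)]) (.add (.mul (.g
 8) (.add (.mul (.g 11) (.pp [(1, 453008160000)])) (.mul (.g 19) (.pp [(1, 289515600000)])))) (.mul
 (.g 11) (.mul (.g 11) (.pp [(1, 2600235000000)]))))))) (.add (.mul (.g 13) (.add (.pp [(1,
 40392000000)]) (.add (.mul (.pp [(1, 2150517600)]) (.sq [(1, 51), (2, -76), (3, 100), (5, -27),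
 (7, -7)])) (.mul (.pp [(1, 4004540100)]) (.sq [(1, -62), (2, 68), (3, 23), (5, 23), (7, 100)])))))
 (.mul (.g 9) (.add (.mul (.pp [(1, 389307600)]) (.sq [(1, 38), (2, 39), (3, 50), (5, 50), (7,
 19)])) (.mul (.pp [(1, 3270415500)]) (.sq [(1, -27), (2, -43), (3, 76), (5, -21), (7, 100)]))))))
 (.add (.add (.mul (.g 10) (.add (.mul (.pp [(1, 480070800)]) (.sq [(1, 36), (2, 76), (3, 100), (5,
 100), (7, 55)])) (.mul (.g 8) (.mul (.g 17) (.pp [(1, 214291440000)]))))) (.mul (.g 14) (.add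
 (.mul (.pp [(1, 735342300)]) (.sq [(1, 65), (2, 100), (3, 53), (5, -41), (7, 7)])) (.mul (.pp [(1,
 450578700)]) (.sq [(1, -59), (2, 81), (3, 100), (5, 29), (7, -22)]))))) (.add (.mul (.g 16) (.mul
 (.pp [(1, 62248230)]) (.sq [(1, -48), (2, 100), (3, -63), (5, 74), (7, 3)]))) (.mul (.g 17) (.pp
 [(1, 107312337000000)])))))) (.add (.mul (.g 14) (.add (.add (.mul (.g 14) (.add (.add (.mul (.pp
 [(1, 2154111300)]) (.sq [(1, 3), (2, 100), (3, 86), (5, 28), (7, 20)])) (.mul (.pp [(1,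
 5589332100)]) (.sq [(1, 100), (2, -43), (3, 28), (5, 28), (7, -28)]))) (.add (.mul (.pp [(1,
 705731400)]) (.sq [(1, 52), (2, 60), (3, 64), (5, 100), (7, -53)])) (.mul (.g 16) (.pp [(1,
 3040537500000)]))))) (.add (.mul (.g 8) (.add (.mul (.g 15) (.add (.mul (.g 7) (.pp [(1,
 416271240000)])) (.mul (.g 8) (.pp [(1, 27586310400)])))) (.mul (.g 12) (.mul (.g 13) (.pp [(1,
 1391409360000)]))))) (.mul (.g 10) (.add (.pp [(1, 92664297000000)]) (.mul (.pp [(1, 5424734700)])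
 (.sq [(1, -12), (2, -34), (3, -43), (5, 8), (7, 100)])))))) (.add (.add (.mul (.g 16) (.add (.pp
 [(1, 1849701150000)]) (.mul (.pp [(1, 17992260)]) (.sq [(1, -14), (2, -13), (3, -3), (5, -14), (7,
 100)])))) (.mul (.g 9) (.mul (.g 9) (.mul (.g 13) (.pp [(1, 33828894000000)]))))) (.add (.mul (.g
 11) (.mul (.pp [(1, 1844073000)]) (.sq [(1, 46), (2, 100), (3, 74), (5, -89), (7, -1)]))) (.mul
 (.g 17) (.mul (.pp [(1, 15354900)]) (.sq [(1, -34), (2, 53), (3, -58), (5, 100), (7, 80)])))))))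
 (.mul (.g 10) (.add (.add (.mul (.g 8) (.add (.add (.pp [(1, 2065943880000)]) (.mul (.g 9) (.add
 (.mul (.g 9) (.pp [(1, 538068960000)])) (.mul (.g 17) (.pp [(1, 15845270760000)]))))) (.add (.mul
 (.g 11) (.mul (.g 13) (.pp [(1, 5433519960000)]))) (.mul (.g 12) (.mul (.g 17) (.pp [(1,
 7346033640000)])))))) (.mul (.g 10) (.add (.mul (.g 17) (.add (.mul (.g 9) (.pp [(1,
 158858766000000)])) (.mul (.g 17) (.pp [(1, 9722592000000)])))) (.add (.mul (.g 7) (.mul (.g 13)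
 (.pp [(1, 24580710000000)]))) (.mul (.g 11) (.mul (.g 12) (.pp [(1, 21256884000000)]))))))) (.add
 (.mul (.g 12) (.mul (.g 12) (.mul (.g 16) (.pp [(1, 146762550000)])))) (.mul (.g 13) (.mul (.pp
 [(1, 4028300100)]) (.sq [(1, -11), (2, -71), (3, 100), (5, -84), (7, -88)])))))))) (.add (.mul (.g
 17) (.add (.add (.mul (.g 8) (.add (.mul (.g 8) (.mul (.g 12) (.pp [(1, 151209115200)]))) (.mul
 (.g 11) (.mul (.g 15) (.pp [(1, 2670315120000)]))))) (.mul (.g 17) (.add (.pp [(1,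
 15597549000000)]) (.mul (.g 7) (.mul (.g 17) (.pp [(1, 7675767000000)])))))) (.add (.mul (.g 9)
 (.mul (.g 13) (.pp [(1, 33480513000000)]))) (.add (.mul (.g 11) (.mul (.g 11) (.mul (.g 16) (.pp
 [(1, 945054000000)])))) (.mul (.g 15) (.mul (.pp [(1, 3080751300)]) (.sq [(1, 33), (2, 3), (3, 6),
 (5, 52), (7, 100)]))))))) (.add (.mul (.g 12) (.add (.mul (.g 12) (.add (.mul (.pp [(1,
 3257317800)]) (.sq [(1, -35), (2, -36), (3, 100), (5, -34), (7, 96)])) (.add (.mul (.g 7) (.mul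
 (.g 16) (.pp [(1, 978847650000)]))) (.mul (.g 8) (.mul (.g 8) (.pp [(1, 121081435200)])))))) (.add
 (.mul (.g 7) (.mul (.g 11) (.mul (.g 11) (.pp [(1, 6720912000000)])))) (.mul (.g 8) (.mul (.g 9)
 (.mul (.g 16) (.pp [(1, 7817040000)]))))))) (.mul (.g 13) (.add (.mul (.g 13) (.add (.mul (.pp
 [(1, 1001484000)]) (.sq [(1, -44), (2, 86), (3, -26), (5, 100), (7, 87)])) (.mul (.g 9) (.mul (.g
 13) (.pp [(1, 11031768000000)]))))) (.add (.mul (.g 15) (.add (.mul (.pp [(1, 101484900)]) (.sq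
 [(1, 68), (2, -87), (3, 28), (5, -34), (7, -100)])) (.mul (.g 15) (.mul (.g 16) (.pp [(1,
 123314400000)]))))) (.mul (.g 8) (.mul (.pp [(1, 14278572)]) (.sq [(1, 43), (2, -21), (3, 100),
 (5, -56), (7, -6)]))))))))) (.add (.add (.mul (.g 11) (.add (.mul (.g 7) (.mul (.g 7) (.mul (.g 7)
 (.pp [(1, 1272502000000)])))) (.mul (.g 16) (.mul (.g 16) (.pp [(1, 90747607500)]))))) (.add (.mul
 (.g 0) (.pp [(1, 9000000000000)])) (.mul (.g 1) (.pp [(1, 29700000000)])))) (.add (.add (.mul (.g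
 3) (.pp [(1, 99000000000000)])) (.mul (.g 5) (.pp [(1, 99000000000000)]))) (.add (.mul (.g 9)
 (.mul (.g 16) (.mul (.pp [(1, 12050775)]) (.sq [(1, 31), (2, 92), (3, -100), (5, 50), (7, 73)]))))
 (.mul (.g 18) (.pp [(1, 99000000000000)])))))) (.pp [(1, 6029513379144), (2, 3236190795), (3,
 1893692700), (4, 3097344492), (5, 2489985144), (6, 3054019320), (7, 2412576144), (8, 2850027444),
 (9, 3825669870), (10, 2956323348), (12, 2645521560), (14, 3097440918), (15, 3954077820), (16,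
 2807065800), (18, 2723198940), (19, 297000000000000), (20, 2048701248), (21, 4304664540), (24,
 3224439900), (25, 3095362116), (27, 2434557510), (28, 2486924748), (30, 3094375680), (35,
 3676936032), (36, 2768277600), (40, 2961773100), (42, 2229282000), (45, 2875557960), (49,
 3826505826), (50, 3281053644), (54, 2995690500), (56, 2649537000), (60, 3259525500), (63,
 2407479030), (70, 2544673428), (75, 3203186580), (81, 3216688200), (84, 4100649300), (90,
 3021816600), (98, 2712021939), (100, 3785532300), (105, 1930321800), (125, 3146520960), (126,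
 2339469000), (135, 3114619200), (140, 3383216100), (147, 1568869830), (150, 2869356600), (175,
 2996890380), (189, 3409589700), (196, 3171395700), (210, 2441221200), (225, 2578158000), (245,
 2345664420), (250, 2697413400), (294, 2961921600), (315, 3521618100), (343, 2544075270), (350,
 2985384600), (375, 2690978400), (441, 3720073500), (490, 2972841300), (525, 3178315800), (625,
 2925751400), (686, 2951496900), (735, 3435171300), (875, 2967287400), (1029, 3463227900), (1225,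
 2974851000), (1715, 3064416300), (2401, 3101155200)]))))))))))))
 (P_TpB ++ xP_G_T6) = true := by decide +kernel

end Pool.Agent.Helper62.TW
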